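import Mathlib

/-!
The set `𝓛` of exponents for which groups are locally finite, and free Burnside groups.
-/

namespace Pool.Agent.Lib.MP_544bd1_al

/-- The set `𝓛` of all positive integers `n` such that every group satisfying `x ^ n = 1` is
locally finite (all its finitely generated subgroups are finite). -/
def LocFinExponents : Set ℕ :=
  {n | 0 < n ∧ ∀ (G : Type) [Group G], (∀ g : G, g ^ n = 1) →
    ∀ H : Subgroup G, H.FG → Finite H}

/-- The free Burnside group `B_{m,n}`: the free group of rank `m` modulo the normal closure of all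
`n`-th powers. -/
abbrev FreeBurnside (m n : ℕ) : Type :=
  FreeGroup (Fin m) ⧸ Subgroup.normalClosure (Set.range fun x : FreeGroup (Fin m) => x ^ n)

open Subgroup

theorem finite_closure_of_mem {n : ℕ} (h : n ∈ LocFinExponents) (G : Type) [Group G]
    (hG : ∀ g : G, g ^ n = 1) (S : Finset G) : Finite (closure (S : Set G)) :=
  h.2 G hG _ ⟨S, rfl⟩

theorem mem_of_dvd {m n : ℕ} (hmn : m ∣ n) (hn : n ∈ LocFinExponents) :
    m ∈ LocFinExponents := by
  refine ⟨Nat.pos_of_dvd_of_pos hmn hn.1, ?_⟩
  intro G _ hG H hH
  refine hn.2 G ?_ H hH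
  obtain ⟨k, rfl⟩ := hmn
  intro g
  rw [pow_mul, hG, one_pow]

theorem burnside_pow (m n : ℕ) (g : FreeBurnside m n) : g ^ n = 1 := by
  induction g using QuotientGroup.induction_on with
  | H x =>
    rw [← QuotientGroup.mk_pow, QuotientGroup.eq_one_iff]
    exact Subgroup.subset_normalClosure ⟨x, rfl⟩

theorem finite_burnside_of_mem {n : ℕ} (h : n ∈ LocFinExponents) (m : ℕ) :
    Finite (FreeBurnside m n) := by
  have hfg : (⊤ : Subgroup (FreeBurnside m n)).FG := by
    have h1 : Group.FG (FreeBurnside m n) := inferInstance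
    exact h1.out
  have h2 := h.2 (FreeBurnside m n) (burnside_pow m n) ⊤ hfg
  exact Finite.of_equiv _ (Subgroup.topEquiv (G := FreeBurnside m n)).toEquiv

/-- the homomorphism from `B_{m,n}` to a group of exponent `n` given by `m` elements -/
noncomputable def burnsideLift (m n : ℕ) {G : Type*} [Group G] (hG : ∀ g : G, g ^ n = 1)
    (x : Fin m → G) : FreeBurnside m n →* G :=
  QuotientGroup.lift _ (FreeGroup.lift x) (by
    have hker : Subgroup.normalClosure (Set.range fun x : FreeGroup (Fin m) => x ^ n) ≤
        (FreeGroup.lift x).ker := by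
      apply Subgroup.normalClosure_le_normal
      rintro _ ⟨w, rfl⟩
      show (FreeGroup.lift x) (w ^ n) = 1
      rw [map_pow, hG]
    exact hker)

theorem burnsideLift_of (m n : ℕ) {G : Type*} [Group G] (hG : ∀ g : G, g ^ n = 1)
    (x : Fin m → G) (i : Fin m) :
    burnsideLift m n hG x (QuotientGroup.mk (FreeGroup.of i)) = x i := by
  show (FreeGroup.lift x) (FreeGroup.of i) = x i
  simp

/-- every three elements of a group of exponent `n` generate a quotient of `B_{3,n}` -/
theorem finite_of_burnside {n : ℕ} (h : Finite (FreeBurnside 3 n)) (G : Type*) [Group G]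
    (hG : ∀ g : G, g ^ n = 1) (x y z : G) : Finite (closure {x, y, z}) := by
  let φ := burnsideLift 3 n hG ![x, y, z]
  have hfin : Finite φ.range := Set.finite_range φ
  have hle : closure {x, y, z} ≤ φ.range := by
    rw [Subgroup.closure_le]
    rintro w (rfl | rfl | rfl)
    · exact ⟨_, burnsideLift_of 3 n hG ![w, y, z] 0⟩
    · exact ⟨_, burnsideLift_of 3 n hG ![x, w, z] 1⟩
    · exact ⟨_, burnsideLift_of 3 n hG ![x, y, w] 2⟩
  exact Finite.of_injective _ (Subgroup.inclusion_injective hle)

end Pool.Agent.Lib.MP_544bd1_al
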