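import Mathlib
import Pool.Agent.Lib.MP_544bd1_al.Defs

/-!
The derived length condition on free Burnside groups used in the reduction theorems.
-/

namespace Pool.Agent.Lib.MP_544bd1_al

/-- for every `e ∈ 𝓛` and `k ≥ 0` the `k`-th derived subgroup of the normal closure of `x ^ e` in
`B_{k+1,q}` is nontrivial, where `x` is the first free generator of `B_{k+1,q}` -/
def LongDerivedSeries (q : ℕ) : Prop :=
  ∀ e ∈ LocFinExponents, ∀ k : ℕ, derivedSeries (Subgroup.normalClosure
    {(QuotientGroup.mk (FreeGroup.of 0 ^ e) : FreeBurnside (k + 1) q)} :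
      Subgroup (FreeBurnside (k + 1) q)) k ≠ ⊥

end Pool.Agent.Lib.MP_544bd1_al
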