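import Mathlib

section

/-!
An average of roots of unity that is an algebraic integer is zero, or all the roots are equal.
-/

namespace Pool.Agent.Lib.MP_544bd1_al

open Finset

/-- complex numbers of norm one whose sum has norm `m` are all equal. -/
theorem all_eq_of_norm_sum {ι : Type*} (s : Finset ι) (z : ι → ℂ) (hz : ∀ i ∈ s, ‖z i‖ = 1)
    (hs : (s.card : ℝ) ≤ ‖∑ i ∈ s, z i‖) : ∀ i ∈ s, ∀ j ∈ s, z i = z j := by
  classical
  set S := ∑ i ∈ s, z i with hS
  by_cases hne : s.Nonempty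
  swap
  · intro i hi; exact absurd ⟨i, hi⟩ hne
  have hcard : (0 : ℝ) < s.card := by exact_mod_cast hne.card_pos
  have hSpos : 0 < ‖S‖ := lt_of_lt_of_le hcard hs
  have hS0 : S ≠ 0 := by
    intro h; rw [h, norm_zero] at hSpos; exact lt_irrefl _ hSpos
  set u : ℂ := (starRingEnd ℂ) S / (‖S‖ : ℂ) with hu
  have hunorm : ‖u‖ = 1 := by
    rw [hu, norm_div, Complex.norm_conj, Complex.norm_real, norm_norm, div_self hSpos.ne']
  have hre : ∀ i ∈ s, (z i * u).re ≤ 1 := by
    intro i hi
    calc (z i * u).re ≤ ‖z i * u‖ := Complex.re_le_norm _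
      _ = 1 := by rw [norm_mul, hz i hi, hunorm, one_mul]
  have hsum : ∑ i ∈ s, (z i * u).re = ‖S‖ := by
    have h1 : ∑ i ∈ s, (z i * u).re = (S * u).re := by
      rw [hS, Finset.sum_mul, Complex.re_sum]
    rw [h1]
    have h2 : S * u = (‖S‖ : ℂ) := by
      rw [hu, mul_div_assoc', Complex.mul_conj, Complex.normSq_eq_norm_sq]
      have : (‖S‖ : ℂ) ≠ 0 := by exact_mod_cast hSpos.ne'
      field_simp
      push_cast
      ring
    rw [h2, Complex.ofReal_re]
  have hall : ∀ i ∈ s, (z i * u).re = 1 := by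
    have h3 : ∑ i ∈ s, (1 - (z i * u).re) ≤ 0 := by
      rw [Finset.sum_sub_distrib, hsum]
      simp only [Finset.sum_const, nsmul_eq_mul, mul_one]
      linarith
    have h4 : ∀ i ∈ s, 0 ≤ 1 - (z i * u).re := fun i hi => by linarith [hre i hi]
    have h5 : ∑ i ∈ s, (1 - (z i * u).re) = 0 := le_antisymm h3 (Finset.sum_nonneg h4)
    intro i hi
    have := (Finset.sum_eq_zero_iff_of_nonneg h4).1 h5 i hi
    linarith
  have hone : ∀ i ∈ s, z i * u = 1 := by
    intro i hi
    have h6 : ‖z i * u‖ = 1 := by rw [norm_mul, hz i hi, hunorm, one_mul]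
    apply Complex.ext
    · rw [hall i hi, Complex.one_re]
    · have h7 : (z i * u).re ^ 2 + (z i * u).im ^ 2 = 1 := by
        have := Complex.sq_norm (z i * u)
        rw [Complex.normSq_apply, h6] at this
        nlinarith [this]
      rw [hall i hi] at h7
      rw [Complex.one_im]
      nlinarith
  have hu0 : u ≠ 0 := by
    intro h; rw [h, norm_zero] at hunorm; exact zero_ne_one hunorm
  intro i hi j hj
  have := (hone i hi).trans (hone j hj).symm
  exact mul_right_cancel₀ hu0 this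

/-- the average lemma. -/
theorem avg_roots (N : ℕ) (hN : 0 < N) {ι : Type*} (s : Finset ι) (hsne : s.Nonempty) (z : ι → ℂ)
    (hz : ∀ i ∈ s, z i ^ N = 1) (hint : IsIntegral ℤ ((∑ i ∈ s, z i) / (s.card : ℂ))) :
    (∑ i ∈ s, z i) = 0 ∨ ∀ i ∈ s, ∀ j ∈ s, z i = z j := by
  classical
  set α : ℂ := (∑ i ∈ s, z i) / (s.card : ℂ) with hα
  have hcard : (0 : ℝ) < s.card := by exact_mod_cast hsne.card_pos
  have hcardC : (s.card : ℂ) ≠ 0 := by exact_mod_cast hcard.ne'
  by_cases h0 : α = 0
  · left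
    rw [hα, div_eq_zero_iff] at h0
    rcases h0 with h0 | h0
    · exact h0
    · exact absurd h0 hcardC
  right
  have hnormz : ∀ (w : ℂ), w ^ N = 1 → ‖w‖ = 1 := fun w hw =>
    Complex.norm_eq_one_of_pow_eq_one hw hN.ne'
  -- the field generated by the roots
  set K : IntermediateField ℚ ℂ := IntermediateField.adjoin ℚ (z '' (s : Set ι)) with hK
  have hzK : ∀ i ∈ s, z i ∈ K := fun i hi =>
    IntermediateField.subset_adjoin ℚ _ ⟨i, hi, rfl⟩
  have hfin : FiniteDimensional ℚ K := by
    apply IntermediateField.finiteDimensional_adjoin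
    rintro x ⟨i, hi, rfl⟩
    exact IsIntegral.of_pow hN (by rw [hz i hi]; exact isIntegral_one)
  let zK : s → K := fun i => ⟨z i.1, hzK i.1 i.2⟩
  let x : K := (∑ i : s, zK i) / (s.card : K)
  have hxα : (x : ℂ) = α := by
    simp only [x, hα]
    push_cast
    congr 1
    exact Finset.sum_coe_sort s z
  have hx0 : x ≠ 0 := by
    intro h; apply h0; rw [← hxα, h]; rfl
  have hxint : IsIntegral ℤ x := by
    have : IsIntegral ℤ ((algebraMap K ℂ) x) := by
      have h : (algebraMap K ℂ) x = α := hxα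
      rw [h]; exact hint
    exact (isIntegral_algebraMap_iff (algebraMap K ℂ).injective).1 this
  have hnormint : IsIntegral ℤ (Algebra.norm ℚ x) := Algebra.isIntegral_norm ℚ hxint
  obtain ⟨k, hk⟩ := IsIntegrallyClosed.isIntegral_iff.1 hnormint
  have hnorm0 : Algebra.norm ℚ x ≠ 0 := by
    rw [Ne, Algebra.norm_eq_zero_iff]; exact hx0
  have hk0 : k ≠ 0 := by
    rintro rfl; apply hnorm0; rw [← hk]; simp
  have hprod := Algebra.norm_eq_prod_embeddings ℚ ℂ x
  have hle : ∀ σ : K →ₐ[ℚ] ℂ, ‖σ x‖ ≤ 1 := by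
    intro σ
    have h1 : σ x = (∑ i : s, σ (zK i)) / (s.card : ℂ) := by
      simp only [x, map_div₀, map_sum, map_natCast]
    rw [h1, norm_div, Complex.norm_natCast, div_le_one hcard]
    calc ‖∑ i : s, σ (zK i)‖ ≤ ∑ i : s, ‖σ (zK i)‖ := norm_sum_le _ _
      _ = ∑ i : s, (1 : ℝ) := by
          apply Finset.sum_congr rfl
          intro i _
          apply hnormz
          rw [← map_pow]
          have : zK i ^ N = 1 := by
            apply Subtype.ext
            push_cast
            exact hz i.1 i.2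
          rw [this, map_one]
      _ = (s.card : ℝ) := by simp
  have hge : (1 : ℝ) ≤ ∏ σ : K →ₐ[ℚ] ℂ, ‖σ x‖ := by
    rw [← norm_prod, ← hprod, ← hk]
    simp only [eq_intCast, map_intCast, Complex.norm_intCast]
    have : (1 : ℤ) ≤ |k| := Int.one_le_abs hk0
    exact_mod_cast this
  have hα1 : (1 : ℝ) ≤ ‖α‖ := by
    have hσ : K.val x = α := hxα
    rw [← hσ]
    calc (1 : ℝ) ≤ ∏ σ : K →ₐ[ℚ] ℂ, ‖σ x‖ := hge
      _ = ‖K.val x‖ * ∏ σ ∈ (Finset.univ.erase K.val), ‖σ x‖ := by
          exact (Finset.mul_prod_erase Finset.univ (fun σ : K →ₐ[ℚ] ℂ => ‖σ x‖)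
            (Finset.mem_univ K.val)).symm
      _ ≤ ‖K.val x‖ * 1 := by
          apply mul_le_mul_of_nonneg_left _ (norm_nonneg _)
          apply Finset.prod_le_one
          · intro σ _; exact norm_nonneg _
          · intro σ _; exact hle σ
      _ = ‖K.val x‖ := mul_one _
  apply all_eq_of_norm_sum s z (fun i hi => hnormz _ (hz i hi))
  rw [hα, norm_div, Complex.norm_natCast, le_div_iff₀ hcard, one_mul] at hα1
  exact hα1

end Pool.Agent.Lib.MP_544bd1_al
end

section

/-!
The subgroup generated by `e`-th powers and iterations of this construction.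
-/

namespace Pool.Agent.Lib.MP_544bd1_al

variable {G G' : Type*} [Group G] [Group G']

/-- the subgroup generated by the `e`-th powers of the elements of `H` -/
def pw (e : ℕ) (H : Subgroup G) : Subgroup G := Subgroup.closure {x | ∃ y ∈ H, y ^ e = x}

theorem pow_mem_pw {e : ℕ} {H : Subgroup G} {x : G} (hx : x ∈ H) : x ^ e ∈ pw e H :=
  Subgroup.subset_closure ⟨x, hx, rfl⟩

theorem pw_le (e : ℕ) (H : Subgroup G) : pw e H ≤ H := by
  rw [pw, Subgroup.closure_le]
  rintro x ⟨y, hy, rfl⟩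
  exact H.pow_mem hy e

theorem pw_mono (e : ℕ) {H K : Subgroup G} (h : H ≤ K) : pw e H ≤ pw e K := by
  rw [pw, Subgroup.closure_le]
  rintro x ⟨y, hy, rfl⟩
  exact pow_mem_pw (h hy)

theorem pw_map (e : ℕ) (H : Subgroup G) (f : G →* G') : (pw e H).map f = pw e (H.map f) := by
  rw [pw, pw, MonoidHom.map_closure]
  congr 1
  ext x
  constructor
  · rintro ⟨_, ⟨y, hy, rfl⟩, rfl⟩
    exact ⟨f y, ⟨y, hy, rfl⟩, by rw [map_pow]⟩
  · rintro ⟨_, ⟨y, hy, rfl⟩, rfl⟩
    exact ⟨y ^ e, ⟨y, hy, rfl⟩, by rw [map_pow]⟩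

theorem pw_eq_bot_iff {e : ℕ} {H : Subgroup G} : pw e H = ⊥ ↔ ∀ x ∈ H, x ^ e = 1 := by
  rw [pw, Subgroup.closure_eq_bot_iff]
  constructor
  · intro h x hx
    exact h ⟨x, hx, rfl⟩
  · rintro h x ⟨y, hy, rfl⟩
    exact h y hy

/-- iterate `pw` along a list of exponents (the first element of the list is applied first) -/
def tow (l : List ℕ) (H : Subgroup G) : Subgroup G := l.foldl (fun A e => pw e A) H

@[simp] theorem tow_nil (H : Subgroup G) : tow [] H = H := rfl

theorem tow_append (l : List ℕ) (e : ℕ) (H : Subgroup G) : tow (l ++ [e]) H = pw e (tow l H) := by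
  simp [tow, List.foldl_append]

theorem tow_le (l : List ℕ) (H : Subgroup G) : tow l H ≤ H := by
  induction l using List.reverseRecOn with
  | nil => exact le_refl _
  | append_singleton l e ih => rw [tow_append]; exact (pw_le _ _).trans ih

theorem tow_mono (l : List ℕ) {H K : Subgroup G} (h : H ≤ K) : tow l H ≤ tow l K := by
  induction l using List.reverseRecOn with
  | nil => exact h
  | append_singleton l e ih => rw [tow_append, tow_append]; exact pw_mono e ih

theorem tow_map (l : List ℕ) (H : Subgroup G) (f : G →* G') :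
    (tow l H).map f = tow l (H.map f) := by
  induction l using List.reverseRecOn with
  | nil => rfl
  | append_singleton l e ih => rw [tow_append, tow_append, pw_map, ih]

/-- conjugating by an element normalizing `H` -/
theorem tow_conj_mem (l : List ℕ) (H : Subgroup G) {g : G}
    (hg : g ∈ H) {x : G} (hx : x ∈ tow l H) : g * x * g⁻¹ ∈ tow l H := by
  have h1 : H.map (MulAut.conj g).toMonoidHom = H := by
    ext y
    constructor
    · rintro ⟨z, hz, rfl⟩
      exact H.mul_mem (H.mul_mem hg hz) (H.inv_mem hg)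
    · intro hy
      refine ⟨g⁻¹ * y * g, H.mul_mem (H.mul_mem (H.inv_mem hg) hy) hg, ?_⟩
      simp [MulAut.conj_apply, mul_assoc]
  have h2 := tow_map l H (MulAut.conj g).toMonoidHom
  rw [h1] at h2
  rw [← h2]
  exact ⟨x, hx, rfl⟩

theorem tow_normal (l : List ℕ) (H : Subgroup G) [hH : H.Normal] : (tow l H).Normal := by
  constructor
  intro x hx g
  have h1 : H.map (MulAut.conj g).toMonoidHom = H := by
    ext y
    constructor
    · rintro ⟨z, hz, rfl⟩
      exact hH.conj_mem z hz g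
    · intro hy
      refine ⟨g⁻¹ * y * g, ?_, ?_⟩
      · simpa using hH.conj_mem y hy g⁻¹
      · simp [MulAut.conj_apply, mul_assoc]
  have h2 := tow_map l H (MulAut.conj g).toMonoidHom
  rw [h1] at h2
  rw [← h2]
  exact ⟨x, hx, rfl⟩

/-- passing to a subgroup as a group -/
theorem tow_subtype (l : List ℕ) (H : Subgroup G) :
    (tow l (⊤ : Subgroup H)).map H.subtype = tow l H := by
  rw [tow_map]
  congr 1
  rw [← MonoidHom.range_eq_map, Subgroup.range_subtype]

theorem tow_subtype_ne_bot {l : List ℕ} {H : Subgroup G} (h : tow l H ≠ ⊥) :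
    tow l (⊤ : Subgroup H) ≠ ⊥ := by
  intro h1
  apply h
  rw [← tow_subtype, h1, Subgroup.map_bot]

/-- surjective images -/
theorem tow_map_top (l : List ℕ) (f : G →* G') (hf : Function.Surjective f) :
    (tow l (⊤ : Subgroup G)).map f = tow l (⊤ : Subgroup G') := by
  rw [tow_map]
  congr 1
  exact Subgroup.map_top_of_surjective f hf

end Pool.Agent.Lib.MP_544bd1_al
end

section

/-!
Matrices of finite order over the complex numbers: integrality of the trace, and the dichotomy
for the average of the eigenvalues.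
-/

namespace Pool.Agent.Lib.MP_544bd1_al

open Polynomial

variable {d : ℕ}

theorem root_pow_eq_one (A : Matrix (Fin d) (Fin d) ℂ) {N : ℕ} (hA : A ^ N = 1)
    {μ : ℂ} (hμ : μ ∈ A.charpoly.roots) : μ ^ N = 1 := by
  have h1 : IsRoot A.charpoly μ := isRoot_of_mem_roots hμ
  have h2 : μ ∈ spectrum ℂ A := Matrix.mem_spectrum_iff_isRoot_charpoly.2 h1
  have h3 : μ ^ N ∈ spectrum ℂ (A ^ N) := spectrum.pow_mem_pow A N h2
  rw [hA] at h3
  have hne : Nontrivial (Matrix (Fin d) (Fin d) ℂ) := by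
    rcases subsingleton_or_nontrivial (Matrix (Fin d) (Fin d) ℂ) with h | h
    · exfalso
      rw [spectrum.of_subsingleton] at h2
      exact h2
    · exact h
  rw [spectrum.one_eq] at h3
  exact h3

theorem trace_isIntegral (A : Matrix (Fin d) (Fin d) ℂ) {N : ℕ} (hN : 0 < N) (hA : A ^ N = 1) :
    IsIntegral ℤ A.trace := by
  rw [Matrix.trace_eq_sum_roots_charpoly]
  apply IsIntegral.multiset_sum
  intro μ hμ
  apply IsIntegral.of_pow hN
  rw [root_pow_eq_one A hA hμ]
  exact isIntegral_one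

theorem card_roots (A : Matrix (Fin d) (Fin d) ℂ) : Multiset.card A.charpoly.roots = d := by
  rw [← (IsAlgClosed.splits A.charpoly).natDegree_eq_card_roots, Matrix.charpoly_natDegree_eq_dim,
    Fintype.card_fin]

theorem scalar_of_roots_eq (A : Matrix (Fin d) (Fin d) ℂ) {N : ℕ} (hN : 0 < N) (hA : A ^ N = 1)
    (c : ℂ) (hc : ∀ μ ∈ A.charpoly.roots, μ = c) : A = c • 1 := by
  have hrep : A.charpoly.roots = Multiset.replicate d c := by
    rw [Multiset.eq_replicate]
    exact ⟨card_roots A, hc⟩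
  have hcp : A.charpoly = (X - C c) ^ d := by
    have h := (IsAlgClosed.splits A.charpoly).eq_prod_roots_of_monic (Matrix.charpoly_monic A)
    rw [hrep] at h
    rw [h]
    simp
  set f : Module.End ℂ (Fin d → ℂ) := Matrix.toLinAlgEquiv' A with hf
  have hnil : IsNilpotent (f - algebraMap ℂ _ c) := by
    refine ⟨d, ?_⟩
    have h1 : aeval A A.charpoly = 0 := Matrix.aeval_self_charpoly A
    rw [hcp] at h1
    have h2 : (A - algebraMap ℂ _ c) ^ d = 0 := by
      simpa using h1
    have h3 : f - algebraMap ℂ _ c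
        = Matrix.toLinAlgEquiv' (A - algebraMap ℂ (Matrix (Fin d) (Fin d) ℂ) c) := by
      rw [map_sub, AlgEquiv.commutes]
    rw [h3, ← map_pow, h2, map_zero]
  have hss : f.IsSemisimple := by
    apply Module.End.isSemisimple_of_squarefree_aeval_eq_zero (p := X ^ N - C (1 : ℂ))
    · exact (separable_X_pow_sub_C (1 : ℂ) (by exact_mod_cast hN.ne') one_ne_zero).squarefree
    · have : aeval f (X ^ N - C (1 : ℂ)) = f ^ N - 1 := by simp
      rw [this, hf, ← map_pow, hA, map_one, sub_self]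
  have hss2 : (f - algebraMap ℂ _ c).IsSemisimple :=
    Module.End.isSemisimple_sub_algebraMap_iff.2 hss
  have h0 := Module.End.eq_zero_of_isNilpotent_isSemisimple hnil hss2
  have h4 : f = Matrix.toLinAlgEquiv' (algebraMap ℂ (Matrix (Fin d) (Fin d) ℂ) c) := by
    rw [AlgEquiv.commutes]; exact sub_eq_zero.1 h0
  have h5 : A = algebraMap ℂ _ c := Matrix.toLinAlgEquiv'.injective h4
  rw [h5, Algebra.algebraMap_eq_smul_one]

theorem trace_dichotomy (hd : 0 < d) (A : Matrix (Fin d) (Fin d) ℂ) {N : ℕ} (hN : 0 < N)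
    (hA : A ^ N = 1) (hint : IsIntegral ℤ (A.trace / (d : ℂ))) :
    A.trace = 0 ∨ ∃ c : ℂ, A = c • 1 := by
  classical
  set l : List ℂ := A.charpoly.roots.toList with hl
  have hlen : l.length = d := by
    rw [hl, Multiset.length_toList, card_roots]
  have hsum : A.trace = ∑ i : Fin l.length, l.get i := by
    rw [Matrix.trace_eq_sum_roots_charpoly]
    have h1 : A.charpoly.roots.sum = l.sum := by
      rw [← Multiset.sum_coe, hl, Multiset.coe_toList]
    rw [h1]
    simp [Fin.sum_univ_getElem]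
  have hz : ∀ i ∈ (Finset.univ : Finset (Fin l.length)), (l.get i) ^ N = 1 := by
    intro i _
    apply root_pow_eq_one A hA
    have : l.get i ∈ l := List.get_mem l i
    exact Multiset.mem_toList.1 this
  have hcard : (Finset.univ : Finset (Fin l.length)).card = d := by
    rw [Finset.card_univ, Fintype.card_fin, hlen]
  have hne : (Finset.univ : Finset (Fin l.length)).Nonempty := by
    rw [← Finset.card_pos, hcard]; exact hd
  have key := avg_roots N hN Finset.univ hne (fun i : Fin l.length => l.get i) hz (by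
    rw [hcard]; rw [hsum] at hint; exact hint)
  rcases key with key | key
  · left; rw [hsum]; exact key
  · right
    obtain ⟨i0, _⟩ := hne
    refine ⟨l.get i0, scalar_of_roots_eq A hN hA _ ?_⟩
    intro μ hμ
    have : μ ∈ l := by rw [hl, Multiset.mem_toList]; exact hμ
    obtain ⟨i, hi⟩ := List.get_of_mem this
    rw [← hi]
    exact key i (Finset.mem_univ _) i0 (Finset.mem_univ _)

end Pool.Agent.Lib.MP_544bd1_al
end

section

/-!
Burnside's theorem: a finite nonabelian simple group has no conjugacy class of prime power size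
greater than one.
-/

namespace Pool.Agent.Lib.MP_544bd1_al

set_option linter.unusedSectionVars false
set_option linter.unusedVariables false

open MonoidAlgebra

theorem trace_mulLeft_pi {n : ℕ} (d : Fin n → ℕ)
    (y : (i : Fin n) → Matrix (Fin (d i)) (Fin (d i)) ℂ) :
    LinearMap.trace ℂ _ (LinearMap.mulLeft ℂ y) = ∑ i, (d i : ℂ) * (y i).trace := by
  classical
  let b := Pi.basis (fun i => Matrix.stdBasis ℂ (Fin (d i)) (Fin (d i)))
  rw [LinearMap.trace_eq_matrix_trace ℂ b]
  simp only [Matrix.trace, Matrix.diag, LinearMap.toMatrix_apply]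
  rw [Fintype.sum_sigma]
  apply Finset.sum_congr rfl
  intro i _
  rw [Fintype.sum_prod_type, Finset.mul_sum]
  apply Finset.sum_congr rfl
  intro j _
  have : ∀ k : Fin (d i),
      (b.repr ((LinearMap.mulLeft ℂ y) (b ⟨i, (j, k)⟩))) ⟨i, (j, k)⟩ = (y i) j j := by
    intro k
    simp only [b, Pi.basis_apply, LinearMap.mulLeft_apply, Pi.basis_repr,
      Matrix.stdBasis_eq_single]
    simp [Matrix.stdBasis, Matrix.mul_apply, Matrix.single_apply]
  rw [Finset.sum_congr rfl (fun k _ => this k)]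
  simp

theorem trace_mulLeft_single {G : Type*} [Group G] [Finite G] (g : G) (hg : g ≠ 1) :
    LinearMap.trace ℂ (MonoidAlgebra ℂ G)
      (LinearMap.mulLeft ℂ (MonoidAlgebra.single g (1 : ℂ))) = 0 := by
  classical
  cases nonempty_fintype G
  rw [LinearMap.trace_eq_matrix_trace ℂ (MonoidAlgebra.basis G ℂ)]
  simp only [Matrix.trace, Matrix.diag, LinearMap.toMatrix_apply]
  apply Finset.sum_eq_zero
  intro x _
  rw [MonoidAlgebra.basis_apply, LinearMap.mulLeft_apply, MonoidAlgebra.single_mul_single]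
  have : (MonoidAlgebra.basis G ℂ).repr (MonoidAlgebra.single (g * x) (1 * 1))
      = Finsupp.single (g * x) (1 * 1) := rfl
  rw [this, Finsupp.single_apply, if_neg]
  intro h
  exact hg (by simpa using h)

theorem trace_mulLeft_algEquiv {R S : Type*} [Ring R] [Ring S] [Algebra ℂ R] [Algebra ℂ S]
    (φ : R ≃ₐ[ℂ] S) (y : R) :
    LinearMap.trace ℂ S (LinearMap.mulLeft ℂ (φ y))
      = LinearMap.trace ℂ R (LinearMap.mulLeft ℂ y) := by
  rw [← LinearMap.trace_conj' (LinearMap.mulLeft ℂ y) φ.toLinearEquiv]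
  congr 1
  ext x
  simp [LinearEquiv.conj_apply]

section

variable {G : Type*} [Group G] [Finite G] {d : ℕ}
  (P : MonoidAlgebra ℂ G →ₐ[ℂ] Matrix (Fin d) (Fin d) ℂ)

/-- the matrix of a group element -/
noncomputable def rho : G →* Matrix (Fin d) (Fin d) ℂ := P.toMonoidHom.comp (of ℂ G)

theorem rho_apply (x : G) : rho P x = P (single x 1) := rfl

theorem rho_pow (x : G) : (rho P x) ^ (Nat.card G) = 1 := by
  rw [← map_pow, pow_card_eq_one', map_one]

theorem rho_trace_isIntegral (x : G) : IsIntegral ℤ (rho P x).trace :=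
  trace_isIntegral _ Nat.card_pos (rho_pow P x)

theorem rho_trace_conj (x c : G) : (rho P (c * x * c⁻¹)).trace = (rho P x).trace := by
  rw [map_mul, Matrix.trace_mul_comm, ← map_mul, ← mul_assoc, inv_mul_cancel, one_mul]

open Classical in
/-- the class sum acts as a scalar which is an algebraic integer, and comparing traces. -/
theorem class_scalar (hP : Function.Surjective P) (hd : 0 < d) (g : G) (C : Finset G)
    (hC : ∀ x, x ∈ C ↔ IsConj g x) :
    ∃ ω : ℂ, IsIntegral ℤ ω ∧ (d : ℂ) * ω = (C.card : ℂ) * (rho P g).trace := by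
  set z : MonoidAlgebra ℂ G := ∑ c ∈ C, single c (1 : ℂ) with hz
  have hcomm_single : ∀ x : G, single x (1 : ℂ) * z = z * single x (1 : ℂ) := by
    intro x
    rw [hz, Finset.mul_sum, Finset.sum_mul]
    refine Finset.sum_bij (fun c _ => x * c * x⁻¹) ?_ ?_ ?_ ?_
    · intro c hc
      rw [hC] at hc ⊢
      exact hc.trans (isConj_iff.2 ⟨x, rfl⟩)
    · intro a _ b _ hab
      simpa using hab
    · intro b hb
      refine ⟨x⁻¹ * b * x, ?_, by group⟩
      rw [hC] at hb ⊢
      exact hb.trans (isConj_iff.2 ⟨x⁻¹, by group⟩)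
    · intro c _
      simp only [single_mul_single]
      congr 1
      group
  have hcomm : ∀ r : MonoidAlgebra ℂ G, r * z = z * r := by
    intro r
    induction r using MonoidAlgebra.induction_on with
    | of x => exact hcomm_single x
    | add f g hf hg => rw [add_mul, mul_add, hf, hg]
    | smul r f hf => rw [smul_mul_assoc, mul_smul_comm, hf]
  have hscal : P z ∈ Set.range (Matrix.scalar (Fin d)) := by
    apply Matrix.mem_range_scalar_of_commute_single
    intro i j _
    obtain ⟨r, hr⟩ := hP (Matrix.single i j 1)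
    rw [← hr]
    show P r * P z = P z * P r
    rw [← map_mul, ← map_mul, hcomm]
  obtain ⟨ω, hω⟩ := hscal
  refine ⟨ω, ?_, ?_⟩
  · -- integrality
    set ψ : MonoidAlgebra ℤ G →ₐ[ℤ] Matrix (Fin d) (Fin d) ℂ :=
      MonoidAlgebra.lift ℤ (Matrix (Fin d) (Fin d) ℂ) G (rho P) with hψ
    have h1 : ψ (∑ c ∈ C, single c (1 : ℤ)) = P z := by
      rw [hz, map_sum, map_sum]
      apply Finset.sum_congr rfl
      intro c _
      rw [hψ, MonoidAlgebra.lift_single, one_smul, rho_apply]
    have h2 : Module.Finite ℤ (MonoidAlgebra ℤ G) := Module.Finite.of_basis (MonoidAlgebra.basis G ℤ)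
    have h3 : IsIntegral ℤ (P z) := by
      rw [← h1]
      exact (IsIntegral.of_finite ℤ _).map ψ
    rw [← hω] at h3
    have h4 : (Matrix.scalar (Fin d)) ω = algebraMap ℂ (Matrix (Fin d) (Fin d) ℂ) ω := by
      rw [Matrix.algebraMap_eq_diagonal]; rfl
    rw [h4] at h3
    have : Nonempty (Fin d) := ⟨⟨0, hd⟩⟩
    exact (isIntegral_algebraMap_iff (algebraMap ℂ (Matrix (Fin d) (Fin d) ℂ)).injective).1 h3
  · have h5 : (P z).trace = (C.card : ℂ) * (rho P g).trace := by
      rw [hz, map_sum, Matrix.trace_sum]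
      rw [Finset.sum_congr rfl (g := fun _ => (rho P g).trace)]
      · simp
      · intro c hc
        rw [hC, isConj_iff] at hc
        obtain ⟨x, hx⟩ := hc
        rw [← hx]
        exact rho_trace_conj P g x
    rw [← h5, ← hω]
    simp [Matrix.trace]

/-- if all group elements act trivially then the dimension is one -/
theorem dim_one_of_scalar (hP : Function.Surjective P) (hd : 0 < d)
    (h : ∀ r : MonoidAlgebra ℂ G, ∃ c : ℂ, P r = c • (1 : Matrix (Fin d) (Fin d) ℂ)) : d = 1 := by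
  classical
  by_contra hne
  have h2 : 2 ≤ d := by omega
  obtain ⟨r, hr⟩ := hP (Matrix.single ⟨0, hd⟩ ⟨0, hd⟩ 1)
  obtain ⟨c, hc⟩ := h r
  rw [hr] at hc
  have h00 := congrFun (congrFun hc ⟨0, hd⟩) ⟨0, hd⟩
  have h11 := congrFun (congrFun hc ⟨1, h2⟩) ⟨1, h2⟩
  simp [Matrix.smul_apply] at h00 h11
  rw [← h11] at h00
  exact one_ne_zero h00

/-- if all group elements act trivially then `P` is the augmentation -/
theorem trivial_rho (h : ∀ x : G, rho P x = 1) (r : MonoidAlgebra ℂ G) :
    P r = (MonoidAlgebra.lift ℂ ℂ G (1 : G →* ℂ) r) • (1 : Matrix (Fin d) (Fin d) ℂ) := by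
  induction r using MonoidAlgebra.induction_on with
  | of x =>
    have : P (of ℂ G x) = 1 := h x
    rw [this]; simp
  | add f g hf hg => rw [map_add, map_add, hf, hg, add_smul]
  | smul r f hf => rw [map_smul, map_smul, hf, smul_assoc]

/-- the sum of all group elements -/
theorem all_sum_mul [Fintype G] (r : MonoidAlgebra ℂ G) :
    r * (∑ x : G, single x (1 : ℂ))
      = (MonoidAlgebra.lift ℂ ℂ G (1 : G →* ℂ) r) • (∑ x : G, single x (1 : ℂ)) := by
  induction r using MonoidAlgebra.induction_on with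
  | of y =>
    have h1 : (of ℂ G y) * (∑ x : G, single x (1 : ℂ)) = ∑ x : G, single x (1 : ℂ) := by
      rw [Finset.mul_sum]
      simp only [of_apply, single_mul_single, one_mul]
      exact Fintype.sum_equiv (Equiv.mulLeft y) _ _ (fun x => rfl)
    rw [h1]; simp
  | add f g hf hg => rw [add_mul, map_add, hf, hg, add_smul]
  | smul r f hf => rw [smul_mul_assoc, map_smul, hf, smul_assoc]

theorem trivial_of_sum_ne_zero [Fintype G] (hP : Function.Surjective P) (hd : 0 < d)
    (he : P (∑ x : G, single x (1 : ℂ)) ≠ 0) : ∀ x : G, rho P x = 1 := by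
  classical
  set e := P (∑ x : G, single x (1 : ℂ)) with hedef
  have hmul : ∀ Y : Matrix (Fin d) (Fin d) ℂ, ∃ c : ℂ, Y * e = c • e := by
    intro Y
    obtain ⟨r, rfl⟩ := hP Y
    refine ⟨MonoidAlgebra.lift ℂ ℂ G (1 : G →* ℂ) r, ?_⟩
    rw [hedef, ← map_mul, all_sum_mul, map_smul]
  obtain ⟨a, b, hab⟩ : ∃ a b, e a b ≠ 0 := by
    by_contra hcon
    push Not at hcon
    exact he (by ext a b; exact hcon a b)
  have hsub : ∀ a' : Fin d, a' = a := by
    intro a'
    by_contra hne
    obtain ⟨c, hc⟩ := hmul (Matrix.single a' a 1)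
    have h1 := congrFun (congrFun hc a) b
    have h2 := congrFun (congrFun hc a') b
    simp [Matrix.mul_apply, Matrix.single_apply, Matrix.smul_apply, hne, hab] at h1 h2
    rw [h1] at h2
    simp at h2
    exact hab h2
  intro x
  have h3 : rho P x * e = e := by
    have : (single x (1 : ℂ)) * (∑ x : G, single x (1 : ℂ)) = ∑ x : G, single x (1 : ℂ) := by
      rw [all_sum_mul]; simp
    rw [hedef, rho_apply, ← map_mul, this]
  ext i j
  rw [hsub i, hsub j]
  have h4 := congrFun (congrFun h3 a) b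
  rw [Matrix.mul_apply] at h4
  have hsum : ∑ j, rho P x a j * e j b = rho P x a a * e a b := by
    apply Finset.sum_eq_single_of_mem a (Finset.mem_univ a)
    intro j _ hj
    exact absurd (hsub j) hj
  rw [hsum] at h4
  rw [Matrix.one_apply_eq]
  exact mul_right_cancel₀ hab (by rw [h4, one_mul])

/-- the trichotomy for one block. -/
theorem block (hP : Function.Surjective P) (hd : 0 < d) [IsSimpleGroup G]
    (hnc : ¬ ∀ a b : G, a * b = b * a) (g : G) (C : Finset G)
    (hC : ∀ x, x ∈ C ↔ IsConj g x) (p k : ℕ) (hp : p.Prime) (hcard : C.card = p ^ k)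
    (hg : g ≠ 1) :
    (∀ x : G, rho P x = 1) ∨ (rho P g).trace = 0 ∨ p ∣ d := by
  by_cases hpd : p ∣ d
  · right; right; exact hpd
  obtain ⟨ω, hωint, hω⟩ := class_scalar P hP hd g C hC
  have hcop : Nat.Coprime (p ^ k) d := Nat.Coprime.pow_left k ((Nat.Prime.coprime_iff_not_dvd hp).2 hpd)
  have hdC : (d : ℂ) ≠ 0 := by exact_mod_cast hd.ne'
  have hint : IsIntegral ℤ ((rho P g).trace / (d : ℂ)) := by
    have hbez := Nat.gcd_eq_gcd_ab (p ^ k) d
    rw [hcop.gcd_eq_one] at hbez
    set u := (p ^ k).gcdA d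
    set v := (p ^ k).gcdB d
    have hbezC : (1 : ℂ) = (p ^ k : ℕ) * (u : ℂ) + (d : ℂ) * (v : ℂ) := by exact_mod_cast hbez
    have heq : (rho P g).trace / (d : ℂ) = (u : ℂ) * ω + (v : ℂ) * (rho P g).trace := by
      rw [hcard] at hω
      have h1 : ω = ((p ^ k : ℕ) : ℂ) * (rho P g).trace / (d : ℂ) := by
        rw [← hω]; field_simp
      rw [h1]
      field_simp
      calc (rho P g).trace = (rho P g).trace * 1 := by ring
        _ = (rho P g).trace * ((p ^ k : ℕ) * (u : ℂ) + (d : ℂ) * (v : ℂ)) := by rw [← hbezC]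
        _ = _ := by ring
    rw [heq]
    apply IsIntegral.add
    · exact IsIntegral.mul (by simpa using (isIntegral_algebraMap (R := ℤ) (A := ℂ) (x := u))) hωint
    · exact IsIntegral.mul (by simpa using (isIntegral_algebraMap (R := ℤ) (A := ℂ) (x := v)))
        (rho_trace_isIntegral P g)
  rcases trace_dichotomy hd (rho P g) Nat.card_pos (rho_pow P g) hint with h | ⟨c, hc⟩
  · right; left; exact h
  · left
    -- the subgroup of elements acting as scalars
    let N : Subgroup G :=
      { carrier := {x | ∃ c : ℂ, rho P x = c • (1 : Matrix (Fin d) (Fin d) ℂ)}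
        one_mem' := ⟨1, by rw [map_one, one_smul]⟩
        mul_mem' := by
          rintro x y ⟨c, hc⟩ ⟨c', hc'⟩
          exact ⟨c * c', by rw [map_mul, hc, hc', smul_mul_smul_comm, one_mul]⟩
        inv_mem' := by
          rintro x ⟨c, hc⟩
          have h1 : x⁻¹ = x ^ (Nat.card G - 1) := by
            have : x ^ (Nat.card G - 1) * x = 1 := by
              rw [← pow_succ, Nat.sub_add_cancel Nat.card_pos, pow_card_eq_one']
            exact (eq_inv_of_mul_eq_one_left this).symm
          refine ⟨c ^ (Nat.card G - 1), ?_⟩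
          rw [h1, map_pow, hc, smul_pow, one_pow] }
    have hN : N.Normal := by
      constructor
      rintro x ⟨c, hc⟩ y
      refine ⟨c, ?_⟩
      rw [map_mul, map_mul, hc, mul_smul_comm, mul_one, smul_mul_assoc, ← map_mul,
        mul_inv_cancel, map_one]
    have hNtop : N = ⊤ := by
      rcases hN.eq_bot_or_eq_top with h | h
      · exfalso
        have : g ∈ N := ⟨c, hc⟩
        rw [h, Subgroup.mem_bot] at this
        exact hg this
      · exact h
    have hscal : ∀ x : G, ∃ c : ℂ, rho P x = c • (1 : Matrix (Fin d) (Fin d) ℂ) := by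
      intro x
      have : x ∈ N := by rw [hNtop]; trivial
      exact this
    have hcommute : ∀ x y : G, rho P (x * y) = rho P (y * x) := by
      intro x y
      obtain ⟨c, hc⟩ := hscal x
      obtain ⟨c', hc'⟩ := hscal y
      rw [map_mul, map_mul, hc, hc', smul_mul_smul_comm, smul_mul_smul_comm, mul_comm c c']
    let K : Subgroup G :=
      { carrier := {x | rho P x = 1}
        one_mem' := map_one _
        mul_mem' := by
          intro x y hx hy
          show rho P (x * y) = 1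
          rw [map_mul, hx, hy, one_mul]
        inv_mem' := by
          intro x hx
          show rho P x⁻¹ = 1
          have : rho P x * rho P x⁻¹ = 1 := by rw [← map_mul, mul_inv_cancel, map_one]
          rw [hx, one_mul] at this
          exact this }
    have hK : K.Normal := by
      constructor
      intro x hx y
      show rho P (y * x * y⁻¹) = 1
      rw [map_mul, map_mul, hx, mul_one, ← map_mul, mul_inv_cancel, map_one]
    rcases hK.eq_bot_or_eq_top with h | h
    · exfalso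
      apply hnc
      intro a b
      have : a * b * (b * a)⁻¹ ∈ K := by
        show rho P (a * b * (b * a)⁻¹) = 1
        rw [map_mul, hcommute a b, ← map_mul, mul_inv_cancel, map_one]
      rw [h, Subgroup.mem_bot, mul_inv_eq_one] at this
      exact this
    · intro x
      have : x ∈ K := by rw [h]; trivial
      exact this

end

open Classical in
/-- **Burnside**: in a finite simple nonabelian group, no conjugacy class has size `p ^ k > 1`. -/
theorem burnside_class {G : Type*} [Group G] [Finite G] [IsSimpleGroup G]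
    (hnc : ¬ ∀ a b : G, a * b = b * a) (g : G) (hg : g ≠ 1) (C : Finset G)
    (hC : ∀ x, x ∈ C ↔ IsConj g x) (p k : ℕ) (hp : p.Prime) (hcard : C.card = p ^ k) : False := by
  cases nonempty_fintype G
  have : NeZero ((Nat.card G : ℕ) : ℂ) := ⟨by exact_mod_cast Nat.card_pos.ne'⟩
  obtain ⟨n, d, hd, ⟨φ⟩⟩ :=
    IsSemisimpleRing.exists_algEquiv_pi_matrix_of_isAlgClosed ℂ (MonoidAlgebra ℂ G)
  have hdpos : ∀ i, 0 < d i := fun i => Nat.pos_of_ne_zero (hd i).out
  let P : (i : Fin n) → MonoidAlgebra ℂ G →ₐ[ℂ] Matrix (Fin (d i)) (Fin (d i)) ℂ := fun i =>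
    (Pi.evalAlgHom ℂ (fun i => Matrix (Fin (d i)) (Fin (d i)) ℂ) i).comp φ.toAlgHom
  have hPapply : ∀ i r, P i r = φ r i := fun i r => rfl
  have hP : ∀ i, Function.Surjective (P i) := by
    intro i Y
    obtain ⟨r, hr⟩ := φ.surjective (Pi.single i Y)
    refine ⟨r, ?_⟩
    rw [hPapply, hr, Pi.single_eq_same]
  -- the sum
  have hsum : ∑ i, (d i : ℂ) * (rho (P i) g).trace = 0 := by
    have h1 := trace_mulLeft_pi d (φ (single g (1 : ℂ)))
    rw [trace_mulLeft_algEquiv φ, trace_mulLeft_single g hg] at h1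
    rw [h1]
    rfl
  -- a trivial block exists
  obtain ⟨i₀, hi₀⟩ : ∃ i, ∀ x : G, rho (P i) x = 1 := by
    have he : (∑ x : G, single x (1 : ℂ)) ≠ 0 := by
      intro h
      have h1 := congrArg (fun f : MonoidAlgebra ℂ G => f.coeff 1) h
      simp [Finsupp.single_apply] at h1
    have hφe : φ (∑ x : G, single x (1 : ℂ)) ≠ 0 := by
      rw [Ne, map_eq_zero_iff φ φ.injective]; exact he
    obtain ⟨i, hi⟩ := Function.ne_iff.1 hφe
    exact ⟨i, trivial_of_sum_ne_zero (P i) (hP i) (hdpos i) hi⟩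
  have huniq : ∀ i, (∀ x : G, rho (P i) x = 1) → i = i₀ := by
    intro i hi
    by_contra hne
    obtain ⟨r, hr⟩ := φ.surjective (Pi.single i 1)
    have h1 : P i r = 1 := by rw [hPapply, hr, Pi.single_eq_same]
    have h2 : P i₀ r = 0 := by rw [hPapply, hr, Pi.single_eq_of_ne (Ne.symm hne)]
    rw [trivial_rho (P i) hi] at h1
    rw [trivial_rho (P i₀) hi₀] at h2
    have hz : (MonoidAlgebra.lift ℂ ℂ G (1 : G →* ℂ)) r = 0 := by
      have := congrFun (congrFun h2 ⟨0, hdpos i₀⟩) ⟨0, hdpos i₀⟩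
      simpa using this
    rw [hz, zero_smul] at h1
    have := congrFun (congrFun h1 ⟨0, hdpos i⟩) ⟨0, hdpos i⟩
    simp at this
  have hd0 : d i₀ = 1 := dim_one_of_scalar (P i₀) (hP i₀) (hdpos i₀)
    (fun r => ⟨_, trivial_rho (P i₀) hi₀ r⟩)
  -- split the sum
  have hsplit : (1 : ℂ) + ∑ i ∈ Finset.univ.erase i₀, (d i : ℂ) * (rho (P i) g).trace = 0 := by
    rw [← hsum, ← Finset.add_sum_erase _ _ (Finset.mem_univ i₀)]
    congr 1
    rw [hi₀ g, Matrix.trace_one, Fintype.card_fin, hd0]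
    simp
  have hterm : ∀ i ∈ Finset.univ.erase i₀, ∃ β : ℂ, IsIntegral ℤ β ∧
      (d i : ℂ) * (rho (P i) g).trace = (p : ℂ) * β := by
    intro i hi
    rcases block (P i) (hP i) (hdpos i) hnc g C hC p k hp hcard hg with h | h | h
    · exact absurd (huniq i h) (Finset.ne_of_mem_erase hi)
    · exact ⟨0, isIntegral_zero, by rw [h]; simp⟩
    · obtain ⟨m, hm⟩ := h
      refine ⟨(m : ℂ) * (rho (P i) g).trace, ?_, ?_⟩
      · exact IsIntegral.mul (by simpa using (isIntegral_algebraMap (R := ℤ) (A := ℂ) (x := (m : ℤ))))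
          (rho_trace_isIntegral (P i) g)
      · have hmC : (d i : ℂ) = (p : ℂ) * (m : ℂ) := by exact_mod_cast hm
        rw [hmC, mul_assoc]
  choose! β hβint hβ using hterm
  have hβsum : (1 : ℂ) + (p : ℂ) * ∑ i ∈ Finset.univ.erase i₀, β i = 0 := by
    rw [Finset.mul_sum, ← hsplit]
    congr 1
    exact Finset.sum_congr rfl (fun i hi => (hβ i hi).symm)
  have hBint : IsIntegral ℤ (∑ i ∈ Finset.univ.erase i₀, β i) :=
    IsIntegral.sum _ (fun i hi => hβint i hi)
  set B := ∑ i ∈ Finset.univ.erase i₀, β i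
  have hp0 : (p : ℂ) ≠ 0 := by exact_mod_cast hp.ne_zero
  have hBval : B = algebraMap ℚ ℂ (-(1 : ℚ) / (p : ℚ)) := by
    have : B = -1 / (p : ℂ) := by
      field_simp
      linear_combination hβsum
    rw [this]; simp
  rw [hBval] at hBint
  have hq : IsIntegral ℤ (-(1 : ℚ) / (p : ℚ)) :=
    (isIntegral_algebraMap_iff (algebraMap ℚ ℂ).injective).1 hBint
  obtain ⟨m, hm⟩ := IsIntegrallyClosed.isIntegral_iff.1 hq
  have hpq : (p : ℚ) ≠ 0 := by exact_mod_cast hp.ne_zero
  have h6 : (m : ℚ) * (p : ℚ) = -1 := by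
    have : (m : ℚ) = -1 / (p : ℚ) := by simpa using hm
    rw [this]; field_simp
  have h7 : m * (p : ℤ) = -1 := by exact_mod_cast h6
  have h8 : (p : ℤ) ∣ 1 := ⟨-m, by linarith [mul_comm m (p : ℤ)]⟩
  have h9 : p ∣ 1 := by exact_mod_cast h8
  exact hp.one_lt.ne' (Nat.dvd_one.1 h9)

end Pool.Agent.Lib.MP_544bd1_al
end

section

/-!
Burnside's theorem: finite groups whose order has at most two prime divisors are solvable.
-/

namespace Pool.Agent.Lib.MP_544bd1_al

open Classical in
theorem class_index {G : Type*} [Group G] [Finite G] [Fintype G] (z : G) :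
    ((Finset.univ : Finset G).filter (fun x => IsConj z x)).card
      = (Subgroup.centralizer {z}).index := by
  have h1 : (MulAction.orbit (ConjAct G) z)
      = (((Finset.univ : Finset G).filter (fun x => IsConj z x) : Finset G) : Set G) := by
    ext x
    rw [ConjAct.mem_orbit_conjAct, isConj_comm]
    simp
  have h2 := MulAction.index_stabilizer (G := ConjAct G) z
  rw [h1, Set.ncard_coe_finset] at h2
  rw [← h2]
  have h3 : (MulAction.stabilizer (ConjAct G) z)
      = (Subgroup.centralizer {z}).map (ConjAct.toConjAct (G := G)).toMonoidHom := by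
    rw [ConjAct.stabilizer_eq_centralizer]
    ext x
    simp only [Subgroup.mem_map, Subgroup.mem_centralizer_iff, Set.mem_singleton_iff, forall_eq]
    constructor
    · intro hx
      refine ⟨ConjAct.ofConjAct x, ?_, by simp⟩
      have := congrArg ConjAct.ofConjAct hx
      simpa using this
    · rintro ⟨y, hy, rfl⟩
      exact congrArg ConjAct.toConjAct hy
  rw [h3]
  exact (Subgroup.index_map_equiv (Subgroup.centralizer {z}) (ConjAct.toConjAct (G := G)))

theorem solvable_aux (p q : ℕ) (n : ℕ) :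
    ∀ (G : Type*) [Group G] [Finite G], Nat.card G = n →
      (∀ r : ℕ, r.Prime → r ∣ Nat.card G → r = p ∨ r = q) → Group.IsSolvable G := by
  induction n using Nat.strong_induction_on with
  | _ n ih =>
    intro G _ _ hn hpq
    classical
    cases nonempty_fintype G
    by_cases hcomm : ∀ a b : G, a * b = b * a
    · exact Group.isSolvable_of_comm hcomm
    by_cases hnorm : ∀ N : Subgroup G, N.Normal → N = ⊥ ∨ N = ⊤
    · exfalso
      have hnt : Nontrivial G := by
        rcases subsingleton_or_nontrivial G with h | h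
        · exact absurd (fun a b => Subsingleton.elim _ _) hcomm
        · exact h
      have hsimple : IsSimpleGroup G := ⟨fun N hN => hnorm N hN⟩
      -- choose a prime divisor
      have hcard1 : Nat.card G ≠ 1 := by
        have := Finite.one_lt_card (α := G)
        omega
      obtain ⟨r, hr, hrdvd⟩ := Nat.exists_prime_and_dvd hcard1
      have : Fact r.Prime := ⟨hr⟩
      obtain ⟨P⟩ : Nonempty (Sylow r G) := inferInstance
      have hPne : (P : Subgroup G) ≠ ⊥ := Sylow.ne_bot_of_dvd_card P hrdvd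
      have hPnt : Nontrivial (P : Subgroup G) := (Subgroup.nontrivial_iff_ne_bot _).2 hPne
      have hcn : Nontrivial (Subgroup.center (P : Subgroup G)) := P.isPGroup'.center_nontrivial
      obtain ⟨z, hz⟩ := exists_ne (1 : Subgroup.center (P : Subgroup G))
      set g : G := ((z : (P : Subgroup G)) : G) with hg
      have hg1 : g ≠ 1 := by
        intro h
        apply hz
        apply Subtype.ext
        apply Subtype.ext
        exact h
      have hPle : (P : Subgroup G) ≤ Subgroup.centralizer {g} := by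
        intro x hx
        rw [Subgroup.mem_centralizer_iff]
        intro y hy
        rw [Set.mem_singleton_iff] at hy
        subst hy
        have h1 := Subgroup.mem_center_iff.1 z.2 ⟨x, hx⟩
        have h2 := congrArg (Subtype.val) h1
        simpa using h2.symm
      -- the index is a prime power
      set m := (Subgroup.centralizer {g}).index with hm
      have hm0 : m ≠ 0 := Subgroup.index_ne_zero_of_finite
      have hmP : m ∣ (P : Subgroup G).index := Subgroup.index_dvd_of_le hPle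
      have hrm : ¬ r ∣ m := fun h => (Sylow.not_dvd_index P) (h.trans hmP)
      have hmG : m ∣ Nat.card G := Subgroup.index_dvd_card _
      -- the other prime
      obtain ⟨s, k, hs, hk⟩ : ∃ s k : ℕ, s.Prime ∧ m = s ^ k := by
        by_cases hm1 : m = 1
        · exact ⟨2, 0, Nat.prime_two, by rw [hm1]; rfl⟩
        obtain ⟨s, hs, hsm⟩ := Nat.exists_prime_and_dvd hm1
        refine ⟨s, m.primeFactorsList.length, hs, ?_⟩
        apply Nat.eq_prime_pow_of_unique_prime_dvd hm0
        intro t ht htm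
        have hsr : s ≠ r := by rintro rfl; exact hrm hsm
        have htr : t ≠ r := by rintro rfl; exact hrm htm
        have h1 := hpq r hr hrdvd
        have h2 := hpq s hs (hsm.trans hmG)
        have h3 := hpq t ht (htm.trans hmG)
        rcases h1 with h1 | h1 <;> rcases h2 with h2 | h2 <;> rcases h3 with h3 | h3 <;>
          simp_all
      refine burnside_class hcomm g hg1 (Finset.univ.filter (fun x => IsConj g x)) (by simp)
        s k hs ?_
      rw [class_index, ← hk]
    · push Not at hnorm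
      obtain ⟨N, hN, hNbot, hNtop⟩ := hnorm
      have hNlt : Nat.card N < n := by
        rw [← hn]
        exact lt_of_le_of_ne (Subgroup.card_le_card_group N)
          (fun h => hNtop (Subgroup.eq_top_of_card_eq N h))
      have hmul := Subgroup.card_eq_card_quotient_mul_card_subgroup N
      have hNgt : 1 < Nat.card N := by
        have := (Subgroup.one_lt_card_iff_ne_bot N).2 hNbot
        exact this
      have hQlt : Nat.card (G ⧸ N) < n := by
        rw [← hn, hmul]
        have : 0 < Nat.card (G ⧸ N) := Nat.card_pos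
        nlinarith
      have h1 : Group.IsSolvable N := ih _ hNlt N rfl
        (fun r hr hrd => hpq r hr (hrd.trans (Subgroup.card_subgroup_dvd_card N)))
      have h2 : Group.IsSolvable (G ⧸ N) := ih _ hQlt (G ⧸ N) rfl
        (fun r hr hrd => hpq r hr (hrd.trans (Subgroup.card_quotient_dvd_card N)))
      exact Group.isSolvable_of_ker_le_range N.subtype (QuotientGroup.mk' N) (by
        rw [QuotientGroup.ker_mk', Subgroup.range_subtype])

/-- **Burnside's theorem** -/
theorem solvable_of_two_primes {G : Type*} [Group G] [Finite G] (p q : ℕ)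
    (h : ∀ r : ℕ, r.Prime → r ∣ Nat.card G → r = p ∨ r = q) : Group.IsSolvable G :=
  solvable_aux p q (Nat.card G) G rfl h

/-- finite groups of exponent `p ^ a * q ^ b` are solvable -/
theorem solvable_of_exponent {G : Type*} [Group G] [Finite G] {p q a b : ℕ} (hp : p.Prime)
    (hq : q.Prime) (h : ∀ g : G, g ^ (p ^ a * q ^ b) = 1) : Group.IsSolvable G := by
  apply solvable_of_two_primes p q
  intro r hr hrd
  have : Fact r.Prime := ⟨hr⟩
  obtain ⟨g, hg⟩ := exists_prime_orderOf_dvd_card' (G := G) r hrd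
  have h1 : r ∣ p ^ a * q ^ b := by
    rw [← hg]; exact orderOf_dvd_of_pow_eq_one (h g)
  rcases (Nat.Prime.dvd_mul hr).1 h1 with h2 | h2
  · left; exact (Nat.prime_dvd_prime_iff_eq hr hp).1 (hr.dvd_of_dvd_pow h2)
  · right; exact (Nat.prime_dvd_prime_iff_eq hr hq).1 (hr.dvd_of_dvd_pow h2)

end Pool.Agent.Lib.MP_544bd1_al
end

section

/-!
Detection of iterated power subgroups by two-generator subgroups in finite groups of exponent
`p ^ a * q ^ b`.
-/

namespace Pool.Agent.Lib.MP_544bd1_al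

open Subgroup

universe u

section arith

theorem eq_one_of_coprime_pow {G : Type*} [Group G] {x : G} {m n : ℕ} (h : Nat.Coprime m n)
    (hm : x ^ m = 1) (hn : x ^ n = 1) : x = 1 := by
  rw [← orderOf_eq_one_iff]
  exact Nat.eq_one_of_dvd_coprimes h (orderOf_dvd_of_pow_eq_one hm) (orderOf_dvd_of_pow_eq_one hn)

theorem pow_eq_one_of_pow_pow {G : Type*} [Group G] {x : G} {m n : ℕ} (h : Nat.Coprime m n)
    (hmm : (x ^ m) ^ m = 1) (hmn : x ^ (m * n) = 1) : x ^ m = 1 := by
  apply eq_one_of_coprime_pow h hmm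
  rw [← pow_mul]; exact hmn

end arith

section core

variable {M : Type u} [Group M]

/-- if `T` is a normal subgroup whose elements commute and `T ⊔ D = ⊤` then `T ⊓ D` is normal. -/
theorem inf_normal_of_sup {T D : Subgroup M} (hT : T.Normal)
    (hcomm : ∀ x ∈ T, ∀ y ∈ T, x * y = y * x) (hsup : T ⊔ D = ⊤) : (T ⊓ D).Normal := by
  constructor
  rintro x ⟨hxT, hxD⟩ m
  have hm : m ∈ T ⊔ D := by rw [hsup]; trivial
  obtain ⟨t, ht, d, hd, rfl⟩ := Subgroup.mem_sup_of_normal_left.1 hm
  have h1 : d * x * d⁻¹ ∈ T := hT.conj_mem x hxT d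
  have h2 : d * x * d⁻¹ ∈ D := D.mul_mem (D.mul_mem hd hxD) (D.inv_mem hd)
  have h3 : t * d * x * (t * d)⁻¹ = d * x * d⁻¹ := by
    have := hcomm t ht _ h1
    calc t * d * x * (t * d)⁻¹ = t * (d * x * d⁻¹) * t⁻¹ := by group
      _ = (d * x * d⁻¹) * t * t⁻¹ := by rw [this]
      _ = d * x * d⁻¹ := by group
  rw [h3]
  exact ⟨h1, h2⟩

/-- elements of a Sylow `q`-subgroup of `A` lying in the `q'`-group `T` are trivial -/
theorem sylow_inf_trivial {T A : Subgroup M} {q P : ℕ} [Fact q.Prime] (hcop : Nat.Coprime P q)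
    (hTP : ∀ x ∈ T, x ^ P = 1) (V : Sylow q A) (x : A) (hx : x ∈ V) (hxT : (x : M) ∈ T) :
    x = 1 := by
  obtain ⟨k, hk⟩ := V.isPGroup' ⟨x, hx⟩
  have hk' : x ^ (q ^ k) = 1 := by
    have := congrArg Subtype.val hk
    simpa using this
  have h1 : x ^ P = 1 := by
    apply Subtype.ext
    simpa using hTP _ hxT
  exact eq_one_of_coprime_pow (hcop.pow_right k) h1 hk'

/-- complements of `T` are conjugate by elements of `T`: abstract form. -/
theorem compl_conj [Finite M] {T A : Subgroup M} (hTn : T.Normal) (hAn : A.Normal) (hTA : T ≤ A)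
    (hcomm : ∀ x ∈ T, ∀ y ∈ T, x * y = y * x)
    {q b P : ℕ} (hq : q.Prime) (hcop : Nat.Coprime P q) (hTP : ∀ x ∈ T, x ^ P = 1)
    (hAQ : ∀ x ∈ A, x ^ (q ^ b) ∈ T) (S : Sylow q A)
    (hATU : ∀ x ∈ A, ∃ u : A, u ∈ S ∧ ∃ t ∈ T, x = u * t)
    (hCT : T ⊓ normalizer (((S : Subgroup A).map A.subtype : Subgroup M) : Set M) = ⊥)
    (D : Subgroup M) (hsup : T ⊔ D = ⊤) (hinf : T ⊓ D = ⊥) :
    ∃ t ∈ T, ∀ x : M, x ∈ D ↔
      t * x * t⁻¹ ∈ normalizer (((S : Subgroup A).map A.subtype : Subgroup M) : Set M) := by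
  have hfact : Fact q.Prime := ⟨hq⟩
  -- `D ⊓ A` as a subgroup of `A`
  set D' : Subgroup A := D.subgroupOf A with hD'
  have hmemD' : ∀ x : A, x ∈ D' ↔ (x : M) ∈ D := fun x => Subgroup.mem_subgroupOf
  have hD'q : IsPGroup q D' := by
    intro x
    refine ⟨b, ?_⟩
    have hxD : ((x : A) : M) ∈ D := (hmemD' _).1 x.2
    have h1 : ((x : A) : M) ^ (q ^ b) ∈ T ⊓ D := ⟨hAQ _ (x : A).2, D.pow_mem hxD _⟩
    rw [hinf, Subgroup.mem_bot] at h1
    apply Subtype.ext
    apply Subtype.ext
    simpa using h1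
  obtain ⟨V, hV⟩ := hD'q.exists_le_sylow
  -- `V = D'`
  have hVD : ∀ x : A, x ∈ V ↔ (x : M) ∈ D := by
    intro x
    constructor
    · intro hx
      have hm : (x : M) ∈ T ⊔ D := by rw [hsup]; trivial
      obtain ⟨t, ht, d, hd, htd⟩ := Subgroup.mem_sup_of_normal_left.1 hm
      have hdA : d ∈ A := by
        have : d = t⁻¹ * x := by rw [← htd]; group
        rw [this]
        exact A.mul_mem (A.inv_mem (hTA ht)) x.2
      have hdV : (⟨d, hdA⟩ : A) ∈ V := hV ((hmemD' _).2 hd)
      have htV : (⟨t, hTA ht⟩ : A) ∈ V := by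
        have : (⟨t, hTA ht⟩ : A) = x * (⟨d, hdA⟩ : A)⁻¹ := by
          apply Subtype.ext
          simp [← htd]
        rw [this]
        exact mul_mem hx (inv_mem hdV)
      have ht1 := sylow_inf_trivial hcop hTP V _ htV ht
      have : t = 1 := congrArg Subtype.val ht1
      rw [← htd, this, one_mul]
      exact hd
    · intro hx
      exact hV ((hmemD' _).2 hx)
  obtain ⟨g, hg⟩ := MulAction.exists_smul_eq A V S
  obtain ⟨u, huS, t, ht, hgut⟩ := hATU g g.2
  refine ⟨t, ht, ?_⟩
  -- `S = t V t⁻¹`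
  have htA : t ∈ A := hTA ht
  have hgA : g = u * ⟨t, htA⟩ := Subtype.ext hgut
  have hconjS : ∀ y : A, y ∈ S ↔ g⁻¹ * y * g ∈ V := by
    intro y
    rw [← hg]
    have : y ∈ (g • V : Sylow q A) ↔ y ∈ ((g • V : Sylow q A) : Subgroup A) := Iff.rfl
    rw [this, Sylow.coe_subgroup_smul, Subgroup.mem_pointwise_smul_iff_inv_smul_mem]
    have h2 : (MulAut.conj g)⁻¹ • y = g⁻¹ * y * g := by
      simp [MulAut.smul_def, mul_assoc]
    rw [h2]
    exact Iff.rfl
  have hconj : ∀ y : A, y ∈ S ↔ (t⁻¹ * y * t : M) ∈ D := by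
    intro y
    have h2 : y ∈ S ↔ u * y * u⁻¹ ∈ S := by
      constructor
      · intro hy; exact mul_mem (mul_mem huS hy) (inv_mem huS)
      · intro hy
        have := mul_mem (mul_mem (inv_mem huS) hy) huS
        simpa [mul_assoc] using this
    rw [h2, hconjS, hVD]
    have h3 : ((g⁻¹ * (u * y * u⁻¹) * g : A) : M) = t⁻¹ * y * t := by
      rw [hgA]
      push_cast
      group
    rw [h3]
  have hmemU : ∀ y : M, y ∈ ((S : Subgroup A).map A.subtype : Subgroup M) ↔
      y ∈ A ∧ t⁻¹ * y * t ∈ D := by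
    intro y
    rw [Subgroup.mem_map]
    constructor
    · rintro ⟨z, hz, rfl⟩
      exact ⟨z.2, (hconj z).1 hz⟩
    · rintro ⟨hyA, hy⟩
      exact ⟨⟨y, hyA⟩, (hconj ⟨y, hyA⟩).2 hy, rfl⟩
  have hfwd : ∀ x : M, x ∈ D →
      t * x * t⁻¹ ∈ normalizer (((S : Subgroup A).map A.subtype : Subgroup M) : Set M) := by
    intro x hx
    rw [Subgroup.mem_normalizer_iff]
    intro y
    rw [hmemU, hmemU]
    constructor
    · rintro ⟨h1, h2⟩
      refine ⟨hAn.conj_mem y h1 _, ?_⟩
      have h3 : t⁻¹ * (t * x * t⁻¹ * y * (t * x * t⁻¹)⁻¹) * t = x * (t⁻¹ * y * t) * x⁻¹ := by group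
      rw [h3]
      exact D.mul_mem (D.mul_mem hx h2) (D.inv_mem hx)
    · rintro ⟨h1, h2⟩
      constructor
      · have := hAn.conj_mem _ h1 (t * x * t⁻¹)⁻¹
        have h4 : (t * x * t⁻¹)⁻¹ * (t * x * t⁻¹ * y * (t * x * t⁻¹)⁻¹) * ((t * x * t⁻¹)⁻¹)⁻¹ = y := by
          group
        rwa [h4] at this
      · have h3 : t⁻¹ * y * t = x⁻¹ * (t⁻¹ * (t * x * t⁻¹ * y * (t * x * t⁻¹)⁻¹) * t) * x := by group
        rw [h3]
        exact D.mul_mem (D.mul_mem (D.inv_mem hx) h2) hx
  intro x
  refine ⟨hfwd x, ?_⟩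
  intro hx
  have hm : x ∈ T ⊔ D := by rw [hsup]; trivial
  obtain ⟨t', ht', d, hd, rfl⟩ := Subgroup.mem_sup_of_normal_left.1 hm
  have h5 : t' = (t * (t' * d) * t⁻¹) * (t * d * t⁻¹)⁻¹ := by
    have h6 : t * t' = t' * t := hcomm t ht t' ht'
    calc t' = t' * t * t⁻¹ := by group
      _ = t * t' * t⁻¹ := by rw [h6]
      _ = (t * (t' * d) * t⁻¹) * (t * d * t⁻¹)⁻¹ := by group
  have h7 : t' ∈ normalizer (((S : Subgroup A).map A.subtype : Subgroup M) : Set M) := by
    rw [h5]
    exact mul_mem hx (inv_mem (hfwd d hd))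
  have h8 : t' ∈ T ⊓ normalizer (((S : Subgroup A).map A.subtype : Subgroup M) : Set M) := ⟨ht', h7⟩
  rw [hCT, Subgroup.mem_bot] at h8
  rw [h8, one_mul]
  exact hd

/-- The main step. `T = tow (L'' ++ [p ^ a] ++ [q ^ b]) ⊤` is a `p`-group. -/
theorem core [Finite M] {p q a b : ℕ} (hp : p.Prime) (hq : q.Prime) (hpq : p ≠ q)
    (hexp : ∀ x : M, x ^ (p ^ a * q ^ b) = 1) (L : List ℕ)
    (hsub : ∀ H : Subgroup M, H ≠ ⊤ → tow (L ++ [p ^ a] ++ [q ^ b]) H = ⊥)
    (hquo : ∀ N : Subgroup M, N.Normal → N ≠ ⊥ → tow (L ++ [p ^ a] ++ [q ^ b]) ⊤ ≤ N)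
    (hIH : ∀ C : Subgroup M, tow (L ++ [p ^ a]) C ≠ ⊥ → ∃ x ∈ C, ∃ y ∈ C,
      x ^ (p ^ a) = 1 ∧ y ^ (q ^ b) = 1 ∧ tow (L ++ [p ^ a]) (closure {x, y}) ≠ ⊥)
    (hne : tow (L ++ [p ^ a] ++ [q ^ b]) (⊤ : Subgroup M) ≠ ⊥) :
    ∃ x y : M, x ^ (p ^ a) = 1 ∧ y ^ (q ^ b) = 1 ∧
      tow (L ++ [p ^ a] ++ [q ^ b]) (closure {x, y}) ≠ ⊥ := by
  classical
  have hfq : Fact q.Prime := ⟨hq⟩
  have hsolv : Group.IsSolvable M := solvable_of_exponent hp hq hexp
  have hcopPq : Nat.Coprime (p ^ a) q := Nat.Coprime.pow_left a ((Nat.coprime_primes hp hq).2 hpq)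
  have hcopPQ : Nat.Coprime (p ^ a) (q ^ b) := hcopPq.pow_right b
  set A : Subgroup M := tow (L ++ [p ^ a]) ⊤ with hA
  set T : Subgroup M := tow (L ++ [p ^ a] ++ [q ^ b]) ⊤ with hT
  have hTpw : T = pw (q ^ b) A := by rw [hT, tow_append]
  have hApw : A = pw (p ^ a) (tow L ⊤) := by rw [hA, tow_append]
  have hTn : T.Normal := tow_normal _ _
  have hAn : A.Normal := tow_normal _ _
  have hTA : T ≤ A := by rw [hTpw]; exact pw_le _ _
  -- `T` is abelian
  have hTcomm' : ⁅T, T⁆ = ⊥ := by
    by_contra h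
    have h1 : T ≤ ⁅T, T⁆ := hquo _ (Subgroup.commutator_normal T T) h
    have h2 := Group.IsSolvable.commutator_lt_of_ne_bot hne
    exact absurd h1 (not_le_of_gt h2)
  have hcomm : ∀ x ∈ T, ∀ y ∈ T, x * y = y * x := by
    intro x hx y hy
    have h1 := Subgroup.commutator_mem_commutator hx hy
    rw [hTcomm', Subgroup.mem_bot, commutatorElement_eq_one_iff_mul_comm] at h1
    exact h1
  -- exponent of `T`
  have hTP : ∀ x ∈ T, x ^ (p ^ a) = 1 := by
    intro x hx
    have hx' := hx
    rw [hTpw, pw] at hx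
    induction hx using Subgroup.closure_induction with
    | mem x h =>
      obtain ⟨y, _, rfl⟩ := h
      rw [← pow_mul, mul_comm]; exact hexp y
    | one => exact one_pow _
    | mul x y hx hy ihx ihy =>
      have hxT : x ∈ T := by rw [hTpw]; exact hx
      have hyT : y ∈ T := by rw [hTpw]; exact hy
      rw [(show Commute x y from hcomm x hxT y hyT).mul_pow, ihx hxT, ihy hyT, one_mul]
    | inv x hx ih =>
      have hxT : x ∈ T := by rw [hTpw]; exact hx
      rw [inv_pow, ih hxT, inv_one]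
  have hAQ : ∀ x ∈ A, x ^ (q ^ b) ∈ T := by
    intro x hx; rw [hTpw]; exact pow_mem_pw hx
  -- `A` is not contained in `T`
  have hAT : ¬ A ≤ T := by
    intro h
    apply hne
    rw [hTpw, pw_eq_bot_iff]
    intro x hx
    rw [hApw, pw] at hx
    refine Subgroup.closure_induction (p := fun z _ => z ^ (q ^ b) = 1) ?_ ?_ ?_ ?_ hx
    · rintro z ⟨y, _, rfl⟩
      rw [← pow_mul]; exact hexp y
    · exact one_pow _
    · intro z y hz hy ihz ihy
      have hzA : z ∈ A := by rw [hApw]; exact hz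
      have hyA : y ∈ A := by rw [hApw]; exact hy
      rw [(show Commute z y from hcomm z (h hzA) y (h hyA)).mul_pow, ihz, ihy, one_mul]
    · intro z _ ih
      rw [inv_pow, ih, inv_one]
  -- the Sylow `q`-subgroup
  obtain ⟨S⟩ : Nonempty (Sylow q A) := inferInstance
  set U : Subgroup M := (S : Subgroup A).map A.subtype with hU
  have hUA : U ≤ A := Subgroup.map_subtype_le _
  have hfrat : normalizer (U : Set M) ⊔ A = ⊤ := Sylow.normalizer_sup_eq_top S
  -- `A = U T`
  have hAUT : ∀ x ∈ A, ∃ u : A, u ∈ S ∧ ∃ t ∈ T, x = u * t := by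
    have h1 : (S : Subgroup A) ⊔ T.subgroupOf A = ⊤ := by
      rw [← Subgroup.index_eq_one]
      have hd1 : ((S : Subgroup A) ⊔ T.subgroupOf A).index ∣ (S : Subgroup A).index :=
        Subgroup.index_dvd_of_le le_sup_left
      have hd2 : ((S : Subgroup A) ⊔ T.subgroupOf A).index ∣ (T.subgroupOf A).index :=
        Subgroup.index_dvd_of_le le_sup_right
      have hn1 : ¬ q ∣ (S : Subgroup A).index := S.not_dvd_index
      have hTAn : (T.subgroupOf A).Normal := inferInstance
      have hpg : IsPGroup q (A ⧸ T.subgroupOf A) := by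
        intro x
        refine ⟨b, ?_⟩
        induction x using QuotientGroup.induction_on with
        | H x =>
          rw [← QuotientGroup.mk_pow, QuotientGroup.eq_one_iff, Subgroup.mem_subgroupOf]
          exact hAQ x x.2
      obtain ⟨k, hk⟩ := (IsPGroup.iff_card).1 hpg
      rw [← Subgroup.index_eq_card] at hk
      rw [hk] at hd2
      obtain ⟨j, _, hj⟩ := (Nat.dvd_prime_pow hq).1 hd2
      rcases Nat.eq_zero_or_pos j with hj0 | hj0
      · rw [hj, hj0, pow_zero]
      · exfalso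
        apply hn1
        apply Dvd.dvd.trans _ hd1
        rw [hj]
        exact dvd_pow_self q hj0.ne'
    intro x hx
    have hm : (⟨x, hx⟩ : A) ∈ (S : Subgroup A) ⊔ T.subgroupOf A := by rw [h1]; trivial
    obtain ⟨u, hu, t, ht, hut⟩ := Subgroup.mem_sup_of_normal_right.1 hm
    refine ⟨u, hu, t, Subgroup.mem_subgroupOf.1 ht, ?_⟩
    have := congrArg Subtype.val hut
    simpa using this.symm
  -- `C` is a supplement
  set C : Subgroup M := normalizer (U : Set M) with hC
  have hUC : U ≤ C := Subgroup.le_normalizer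
  have hAle : A ≤ T ⊔ C := by
    intro x hx
    obtain ⟨u, hu, t, ht, rfl⟩ := hAUT x hx
    exact mul_mem (Subgroup.mem_sup_right (hUC ⟨u, hu, rfl⟩)) (Subgroup.mem_sup_left ht)
  have hTC : T ⊔ C = ⊤ := by
    rw [eq_top_iff, ← hfrat]
    exact sup_le le_sup_right hAle
  -- dichotomy
  have hdich : ∀ D : Subgroup M, T ⊔ D = ⊤ → T ⊓ D = ⊥ ∨ T ≤ D := by
    intro D hD
    by_cases h : T ⊓ D = ⊥
    · left; exact h
    · right
      exact (hquo _ (inf_normal_of_sup hTn hcomm hD) h).trans inf_le_right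
  have hUT : ∀ x ∈ U, x ∈ T → x = 1 := by
    rintro x ⟨y, hy, rfl⟩ hxT
    rw [sylow_inf_trivial hcopPq hTP S y hy hxT, map_one]
  have hUbot : U ≠ ⊥ := by
    intro h
    apply hAT
    intro x hx
    obtain ⟨u, hu, t, ht, rfl⟩ := hAUT x hx
    have : (u : M) ∈ U := ⟨u, hu, rfl⟩
    rw [h, Subgroup.mem_bot] at this
    rw [this, one_mul]; exact ht
  have hTnC : ¬ T ≤ C := by
    intro h
    have hCtop : C = ⊤ := by
      rw [eq_top_iff, ← hTC]; exact sup_le h le_rfl
    have hUn : U.Normal := Subgroup.normalizer_eq_top_iff.1 hCtop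
    have h1 : T ≤ U := hquo U hUn hUbot
    apply hne
    rw [eq_bot_iff]
    intro x hx
    exact Subgroup.mem_bot.2 (hUT x (h1 hx) hx)
  have hTiC : T ⊓ C = ⊥ := (hdich C hTC).resolve_right hTnC
  -- faithful action
  have hfaith : ∀ c ∈ C, (∀ t ∈ T, c * t = t * c) → c = 1 := by
    intro c hc hct
    let Z : Subgroup M :=
      { carrier := {x | x ∈ C ∧ ∀ t ∈ T, x * t = t * x}
        one_mem' := ⟨C.one_mem, fun t _ => by simp⟩
        mul_mem' := by
          rintro x y ⟨hx, hx'⟩ ⟨hy, hy'⟩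
          refine ⟨C.mul_mem hx hy, fun t ht => ?_⟩
          rw [mul_assoc, hy' t ht, ← mul_assoc, hx' t ht, mul_assoc]
        inv_mem' := by
          rintro x ⟨hx, hx'⟩
          refine ⟨C.inv_mem hx, fun t ht => ?_⟩
          have := hx' t ht
          calc x⁻¹ * t = x⁻¹ * (t * x) * x⁻¹ := by group
            _ = x⁻¹ * (x * t) * x⁻¹ := by rw [this]
            _ = t * x⁻¹ := by group }
    have hZn : Z.Normal := by
      constructor
      rintro x ⟨hx, hx'⟩ m
      have hm : m ∈ T ⊔ C := by rw [hTC]; trivial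
      obtain ⟨t, ht, d, hd, rfl⟩ := Subgroup.mem_sup_of_normal_left.1 hm
      -- d x d⁻¹ ∈ Z
      have h1 : d * x * d⁻¹ ∈ C := C.mul_mem (C.mul_mem hd hx) (C.inv_mem hd)
      have h2 : ∀ s ∈ T, (d * x * d⁻¹) * s = s * (d * x * d⁻¹) := by
        intro s hs
        have hs' : d⁻¹ * s * d ∈ T := by
          have := hTn.conj_mem s hs d⁻¹
          simpa using this
        have h3 := hx' _ hs'
        calc (d * x * d⁻¹) * s = d * (x * (d⁻¹ * s * d)) * d⁻¹ := by group
          _ = d * ((d⁻¹ * s * d) * x) * d⁻¹ := by rw [h3]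
          _ = s * (d * x * d⁻¹) := by group
      have h4 : t * d * x * (t * d)⁻¹ = d * x * d⁻¹ := by
        calc t * d * x * (t * d)⁻¹ = t * (d * x * d⁻¹) * t⁻¹ := by group
          _ = (d * x * d⁻¹) * t * t⁻¹ := by rw [h2 t ht]
          _ = d * x * d⁻¹ := by group
      rw [h4]
      exact ⟨h1, h2⟩
    by_contra hc1
    have hZbot : Z ≠ ⊥ := by
      intro h
      have : c ∈ Z := ⟨hc, hct⟩
      rw [h, Subgroup.mem_bot] at this
      exact hc1 this
    exact hTnC ((hquo Z hZn hZbot).trans (fun x hx => hx.1))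
  -- the tower of `C`
  have htowC : tow (L ++ [p ^ a]) C ≠ ⊥ := by
    intro h
    apply hAT
    have h1 : C.map (QuotientGroup.mk' T) = ⊤ := by
      rw [eq_top_iff]
      rintro x -
      induction x using QuotientGroup.induction_on with
      | H x =>
        have hm : x ∈ T ⊔ C := by rw [hTC]; trivial
        obtain ⟨t, ht, d, hd, rfl⟩ := Subgroup.mem_sup_of_normal_left.1 hm
        refine ⟨d, hd, ?_⟩
        rw [QuotientGroup.mk'_apply, QuotientGroup.eq]
        have : d⁻¹ * (t * d) = d⁻¹ * t * d := by group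
        rw [this]
        simpa using hTn.conj_mem t ht d⁻¹
    have h2 := tow_map (L ++ [p ^ a]) C (QuotientGroup.mk' T)
    rw [h, Subgroup.map_bot, h1, ← tow_map_top (L ++ [p ^ a]) (QuotientGroup.mk' T)
      (QuotientGroup.mk'_surjective T), ← hA] at h2
    have h3 : A ≤ (QuotientGroup.mk' T).ker := (Subgroup.map_eq_bot_iff _).1 h2.symm
    rwa [QuotientGroup.ker_mk'] at h3
  obtain ⟨x, hxC, y, hyC, hxP, hyQ, hxy⟩ := hIH C htowC
  -- supplement generated by `x, y`
  set C0 : Subgroup M := closure {x, y} with hC0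
  have hC0C : C0 ≤ C := by
    rw [hC0, Subgroup.closure_le]
    rintro z (rfl | rfl)
    · exact hxC
    · exact hyC
  have hTC0 : T ⊔ C0 = ⊤ := by
    by_contra hcon
    have h1 := hsub _ hcon
    rw [tow_append, pw_eq_bot_iff] at h1
    obtain ⟨⟨c, hcmem⟩, hc1⟩ : ∃ c : (tow (L ++ [p ^ a]) C0 : Subgroup M), c ≠ 1 := by
      have := (Subgroup.nontrivial_iff_ne_bot _).2 hxy
      exact exists_ne 1
    have hc1' : c ≠ 1 := fun h => hc1 (Subtype.ext h)
    have hcA : c ∈ tow (L ++ [p ^ a]) (T ⊔ C0) := tow_mono _ le_sup_right hcmem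
    apply hc1'
    apply hfaith c (hC0C (tow_le _ _ hcmem))
    intro t ht
    have htm : t ∈ T ⊔ C0 := Subgroup.mem_sup_left ht
    -- the commutator
    have h2 : t * c * t⁻¹ * c⁻¹ ∈ tow (L ++ [p ^ a]) (T ⊔ C0) :=
      mul_mem (tow_conj_mem _ _ htm hcA) (inv_mem hcA)
    have h3 : t * c * t⁻¹ * c⁻¹ ∈ T := by
      have : t * c * t⁻¹ * c⁻¹ = t * (c * t⁻¹ * c⁻¹) := by group
      rw [this]
      exact T.mul_mem ht (hTn.conj_mem _ (T.inv_mem ht) c)
    have h4 := h1 _ h2
    have h5 := hTP _ h3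
    have h6 := eq_one_of_coprime_pow hcopPQ h5 h4
    have h7 : t * c = c * t := by
      calc t * c = (t * c * t⁻¹ * c⁻¹) * (c * t) := by group
        _ = c * t := by rw [h6, one_mul]
    exact h7.symm
  -- `y` acts nontrivially
  have hy1 : y ≠ 1 := by
    rintro rfl
    -- every element has order dividing `p ^ a`
    have hall : ∀ z : M, z ^ (p ^ a) = 1 := by
      intro z
      have hzT : z ^ (p ^ a) ∈ T := by
        have hm : z ∈ T ⊔ C0 := by rw [hTC0]; trivial
        obtain ⟨t, ht, d, hd, rfl⟩ := Subgroup.mem_sup_of_normal_left.1 hm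
        have hd1 : d ^ (p ^ a) = 1 := by
          have : C0 ≤ zpowers x := by
            rw [hC0, Subgroup.closure_le]
            rintro z (rfl | rfl)
            · exact mem_zpowers _
            · exact one_mem _
          obtain ⟨k, rfl⟩ := mem_zpowers_iff.1 (this hd)
          rw [← zpow_natCast, ← zpow_mul, mul_comm, zpow_mul, zpow_natCast, hxP, one_zpow]
        rw [← QuotientGroup.eq_one_iff, QuotientGroup.mk_pow, QuotientGroup.mk_mul,
          (QuotientGroup.eq_one_iff t).2 ht, one_mul, ← QuotientGroup.mk_pow, hd1,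
          QuotientGroup.mk_one]
      exact pow_eq_one_of_pow_pow hcopPQ (hTP _ hzT) (hexp z)
    apply hAT
    rw [hApw, pw_eq_bot_iff.2 (fun z _ => hall z)]
    exact bot_le
  -- counting
  by_contra hcon
  push Not at hcon
  have hgen : ∀ t₁ ∈ T, ∀ t₂ ∈ T, T ⊔ closure {t₁ * x, t₂⁻¹ * y * t₂} = ⊤ := by
    intro t₁ ht₁ t₂ ht₂
    rw [eq_top_iff, ← hTC0]
    apply sup_le le_sup_left
    rw [hC0, Subgroup.closure_le]
    have h1 : t₁ * x ∈ T ⊔ closure {t₁ * x, t₂⁻¹ * y * t₂} :=
      Subgroup.mem_sup_right (Subgroup.subset_closure (by simp))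
    have h2 : t₂⁻¹ * y * t₂ ∈ T ⊔ closure {t₁ * x, t₂⁻¹ * y * t₂} :=
      Subgroup.mem_sup_right (Subgroup.subset_closure (by simp))
    have ht1' : t₁ ∈ T ⊔ closure {t₁ * x, t₂⁻¹ * y * t₂} := Subgroup.mem_sup_left ht₁
    have ht2' : t₂ ∈ T ⊔ closure {t₁ * x, t₂⁻¹ * y * t₂} := Subgroup.mem_sup_left ht₂
    rintro z (rfl | rfl)
    · have := mul_mem (inv_mem ht1') h1
      simpa using this
    · have := mul_mem (mul_mem ht2' h2) (inv_mem ht2')
      simpa [mul_assoc] using this
  have hcompl : ∀ t₁ ∈ T, ∀ t₂ ∈ T, T ⊓ closure {t₁ * x, t₂⁻¹ * y * t₂} = ⊥ := by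
    intro t₁ ht₁ t₂ ht₂
    rcases hdich _ (hgen t₁ ht₁ t₂ ht₂) with h | h
    · exact h
    · exfalso
      have htop : closure {t₁ * x, t₂⁻¹ * y * t₂} = ⊤ := by
        rw [eq_top_iff, ← hgen t₁ ht₁ t₂ ht₂]; exact sup_le h le_rfl
      have hx' : (t₁ * x) ^ (p ^ a) = 1 := by
        have h1 : (t₁ * x) ^ (p ^ a) ∈ T := by
          rw [← QuotientGroup.eq_one_iff, QuotientGroup.mk_pow, QuotientGroup.mk_mul,
            (QuotientGroup.eq_one_iff t₁).2 ht₁, one_mul, ← QuotientGroup.mk_pow, hxP,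
            QuotientGroup.mk_one]
        exact pow_eq_one_of_pow_pow hcopPQ (hTP _ h1) (hexp _)
      have hy' : (t₂⁻¹ * y * t₂) ^ (q ^ b) = 1 := by
        have : t₂⁻¹ * y * t₂ = t₂⁻¹ * y * (t₂⁻¹)⁻¹ := by rw [inv_inv]
        rw [this, conj_pow, hyQ]; simp
      have := hcon _ _ hx' hy'
      rw [htop] at this
      exact hne this
  have hconj : ∀ s : T × T, ∃ t ∈ T, ∀ z : M,
      z ∈ closure {(s.1 : M) * x, (s.2 : M)⁻¹ * y * s.2} ↔ t * z * t⁻¹ ∈ C := by
    rintro ⟨⟨t₁, ht₁⟩, ⟨t₂, ht₂⟩⟩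
    exact compl_conj hTn hAn hTA hcomm hq hcopPq hTP hAQ S hAUT hTiC _ (hgen t₁ ht₁ t₂ ht₂)
      (hcompl t₁ ht₁ t₂ ht₂)
  choose f hfT hf using hconj
  -- the centralizer of `y` in `T`
  let Z : Subgroup T :=
    { carrier := {t | (t : M) * y = y * t}
      one_mem' := by simp
      mul_mem' := by
        intro s t hs ht
        show ((s * t : T) : M) * y = y * ((s * t : T) : M)
        push_cast
        rw [mul_assoc, ht, ← mul_assoc, hs, mul_assoc]
      inv_mem' := by
        intro s hs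
        show ((s⁻¹ : T) : M) * y = y * ((s⁻¹ : T) : M)
        push_cast
        have hs' : (s : M) * y = y * s := hs
        calc (s : M)⁻¹ * y = (s : M)⁻¹ * (y * s) * (s : M)⁻¹ := by group
          _ = (s : M)⁻¹ * (s * y) * (s : M)⁻¹ := by rw [hs']
          _ = y * (s : M)⁻¹ := by group }
  let Φ : T × (T ⧸ Z) → T := fun s => ⟨f (s.1, Quotient.out s.2), hfT _⟩
  have hΦ : Function.Injective Φ := by
    rintro ⟨t₁, c⟩ ⟨s₁, d⟩ h
    set t₂ := Quotient.out c with ht₂
    set s₂ := Quotient.out d with hs₂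
    have hfeq : f (t₁, t₂) = f (s₁, s₂) := congrArg Subtype.val h
    have hD : ∀ z : M, z ∈ closure {(t₁ : M) * x, (t₂ : M)⁻¹ * y * t₂} ↔
        z ∈ closure {(s₁ : M) * x, (s₂ : M)⁻¹ * y * s₂} := by
      intro z
      rw [hf (t₁, t₂) z, hf (s₁, s₂) z, hfeq]
    have hbot : ∀ z ∈ T, z ∈ closure {(t₁ : M) * x, (t₂ : M)⁻¹ * y * t₂} → z = 1 := by
      intro z hz hz'
      have : z ∈ T ⊓ closure {(t₁ : M) * x, (t₂ : M)⁻¹ * y * t₂} := ⟨hz, hz'⟩
      rw [hcompl t₁ t₁.2 t₂ t₂.2, Subgroup.mem_bot] at this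
      exact this
    have e1 : (t₁ : M) * x ∈ closure {(t₁ : M) * x, (t₂ : M)⁻¹ * y * t₂} :=
      Subgroup.subset_closure (by simp)
    have e2 : (t₂ : M)⁻¹ * y * t₂ ∈ closure {(t₁ : M) * x, (t₂ : M)⁻¹ * y * t₂} :=
      Subgroup.subset_closure (by simp)
    have e3 : (s₁ : M) * x ∈ closure {(t₁ : M) * x, (t₂ : M)⁻¹ * y * t₂} :=
      (hD _).2 (Subgroup.subset_closure (by simp))
    have e4 : (s₂ : M)⁻¹ * y * s₂ ∈ closure {(t₁ : M) * x, (t₂ : M)⁻¹ * y * t₂} :=
      (hD _).2 (Subgroup.subset_closure (by simp))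
    have h1 : (t₁ : M) * (s₁ : M)⁻¹ = 1 := by
      apply hbot _ (T.mul_mem t₁.2 (T.inv_mem s₁.2))
      have := mul_mem e1 (inv_mem e3)
      have h2 : (t₁ : M) * x * ((s₁ : M) * x)⁻¹ = t₁ * (s₁ : M)⁻¹ := by group
      rwa [h2] at this
    have h1' : t₁ = s₁ := by
      apply Subtype.ext
      exact mul_inv_eq_one.1 h1
    have h3 : ((t₂ : M)⁻¹ * y * t₂) * ((s₂ : M)⁻¹ * y * s₂)⁻¹ = 1 := by
      apply hbot _ _ (mul_mem e2 (inv_mem e4))
      rw [← QuotientGroup.eq_one_iff]
      simp only [QuotientGroup.mk_mul, QuotientGroup.mk_inv, (QuotientGroup.eq_one_iff _).2 t₂.2,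
        (QuotientGroup.eq_one_iff _).2 s₂.2]
      group
    have h4 : (t₂ : M)⁻¹ * y * t₂ = (s₂ : M)⁻¹ * y * s₂ := mul_inv_eq_one.1 h3
    have h5 : c = d := by
      have hc : (QuotientGroup.mk t₂ : T ⧸ Z) = c := Quotient.out_eq c
      have hd : (QuotientGroup.mk s₂ : T ⧸ Z) = d := Quotient.out_eq d
      rw [← hc, ← hd, QuotientGroup.eq]
      show ((t₂⁻¹ * s₂ : T) : M) * y = y * ((t₂⁻¹ * s₂ : T) : M)
      push_cast
      have hts : (t₂ : M)⁻¹ * s₂ = s₂ * (t₂ : M)⁻¹ := hcomm _ (T.inv_mem t₂.2) _ s₂.2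
      calc (t₂ : M)⁻¹ * s₂ * y = s₂ * (t₂ : M)⁻¹ * y := by rw [hts]
        _ = s₂ * ((t₂ : M)⁻¹ * y * t₂) * (t₂ : M)⁻¹ := by group
        _ = s₂ * ((s₂ : M)⁻¹ * y * s₂) * (t₂ : M)⁻¹ := by rw [h4]
        _ = y * (s₂ * (t₂ : M)⁻¹) := by group
        _ = y * ((t₂ : M)⁻¹ * s₂) := by rw [hts]
    rw [h1', h5]
  have hcard : Nat.card (T × (T ⧸ Z)) ≤ Nat.card T := Nat.card_le_card_of_injective Φ hΦ
  rw [Nat.card_prod] at hcard
  have hTpos : 0 < Nat.card T := Nat.card_pos
  have hQ1 : Nat.card (T ⧸ Z) ≤ 1 := by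
    by_contra h
    push Not at h
    nlinarith
  have hZtop : Z = ⊤ := by
    rw [← Subgroup.index_eq_one, Subgroup.index_eq_card]
    have : 0 < Nat.card (T ⧸ Z) := Nat.card_pos
    omega
  apply hy1
  apply hfaith y hyC
  intro t ht
  have : (⟨t, ht⟩ : T) ∈ Z := by rw [hZtop]; trivial
  exact (show (t : M) * y = y * t from this).symm

end core

end Pool.Agent.Lib.MP_544bd1_al
end
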