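import Mathlib

section

/-!
# Descending series of subgroups and their associated graded modules

`S.F i` (`i = 0, 1, ...`) is a descending series of subgroups of a group `P` with
`⁅F i, F j⁆ ≤ F (i + j + 1)` (so the elements of `F i` have weight at least `i + 1`).
`S.M` is the direct sum of the abelian groups `F i / F (i + 1)`; `S.cls i g` is the class of
`g ∈ F i` in it, and for `g ∈ F j` the endomorphism `S.ad j g` of `S.M` sends the class of `m ∈ F i`
to the class of `⁅m, g⁆ ∈ F (i + j + 1)`. `S.ado j g` is the same operator in the opposite ring, so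
that products of operators are applied from the left to the right.
-/

namespace Pool.Agent.Lib.MP_544bd1_al.E5

open Subgroup
open scoped commutatorElement

/-- A descending series of subgroups with `⁅F i, F j⁆ ≤ F (i + j + 1)`. -/
structure Ser (P : Type*) [Group P] where
  F : ℕ → Subgroup P
  anti : ∀ i, F (i + 1) ≤ F i
  comm : ∀ i j, ⁅F i, F j⁆ ≤ F (i + j + 1)

namespace Ser

variable {P : Type*} [Group P] (S : Ser P)

theorem mono {i j : ℕ} (h : i ≤ j) : S.F j ≤ S.F i := by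
  induction h with
  | refl => exact le_rfl
  | step _ ih => exact (S.anti _).trans ih

theorem comm_mem {i j : ℕ} {g h : P} (hg : g ∈ S.F i) (hh : h ∈ S.F j) :
    ⁅g, h⁆ ∈ S.F (i + j + 1) :=
  S.comm i j (Subgroup.commutator_mem_commutator hg hh)

theorem conj_mem {i j : ℕ} {g h : P} (hg : g ∈ S.F i) (hh : h ∈ S.F j) :
    g * h * g⁻¹ ∈ S.F j := by
  have h1 : ⁅g, h⁆ ∈ S.F j := S.mono (by omega) (S.comm_mem hg hh)
  have h2 : g * h * g⁻¹ = ⁅g, h⁆ * h := by rw [commutatorElement_def]; group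
  rw [h2]
  exact (S.F j).mul_mem h1 hh

instance normal_sub (i : ℕ) : ((S.F (i + 1)).subgroupOf (S.F i)).Normal := by
  constructor
  intro n hn g
  rw [Subgroup.mem_subgroupOf] at hn ⊢
  exact S.conj_mem g.2 hn

/-- the factor group `F i / F (i + 1)` -/
abbrev Gr (i : ℕ) : Type _ := S.F i ⧸ (S.F (i + 1)).subgroupOf (S.F i)

theorem mk_comm (i : ℕ) (a b : S.Gr i) : a * b = b * a := by
  induction a using QuotientGroup.induction_on with
  | H g =>
    induction b using QuotientGroup.induction_on with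
    | H h =>
      rw [← QuotientGroup.mk_mul, ← QuotientGroup.mk_mul, QuotientGroup.eq,
        Subgroup.mem_subgroupOf]
      have h1 : (⁅((h : P))⁻¹, ((g : P))⁻¹⁆ : P) ∈ S.F (i + 1) :=
        S.mono (by omega) (S.comm_mem ((S.F i).inv_mem h.2) ((S.F i).inv_mem g.2))
      have h2 : (((g * h)⁻¹ * (h * g) : S.F i) : P) = ⁅((h : P))⁻¹, ((g : P))⁻¹⁆ := by
        rw [commutatorElement_def]; push_cast; group
      rw [h2]; exact h1

instance commGr (i : ℕ) : CommGroup (S.Gr i) :=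
  { (inferInstance : Group (S.Gr i)) with mul_comm := S.mk_comm i }

/-- the direct sum of the factor groups, written additively -/
abbrev M : Type _ := DirectSum ℕ fun i => Additive (S.Gr i)

open Classical in
/-- the class of `g ∈ F i` in degree `i` (and `0` if `g` is not in `F i`) -/
noncomputable def cls (i : ℕ) (g : P) : S.M :=
  if h : g ∈ S.F i then
    DirectSum.of (fun i => Additive (S.Gr i)) i
      (Additive.ofMul (QuotientGroup.mk (⟨g, h⟩ : S.F i) : S.Gr i))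
  else 0

theorem cls_of_mem {i : ℕ} {g : P} (h : g ∈ S.F i) :
    S.cls i g = DirectSum.of (fun i => Additive (S.Gr i)) i
      (Additive.ofMul (QuotientGroup.mk (⟨g, h⟩ : S.F i) : S.Gr i)) := by
  rw [cls, dif_pos h]

theorem cls_mul {i : ℕ} {g h : P} (hg : g ∈ S.F i) (hh : h ∈ S.F i) :
    S.cls i (g * h) = S.cls i g + S.cls i h := by
  rw [S.cls_of_mem hg, S.cls_of_mem hh, S.cls_of_mem ((S.F i).mul_mem hg hh), ← map_add]
  rfl

theorem cls_one (i : ℕ) : S.cls i 1 = 0 := by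
  have h := S.cls_mul (S.F i).one_mem (S.F i).one_mem
  rw [mul_one] at h
  simpa using h

theorem cls_inv {i : ℕ} {g : P} (hg : g ∈ S.F i) : S.cls i g⁻¹ = - S.cls i g := by
  have h := S.cls_mul ((S.F i).inv_mem hg) hg
  rw [inv_mul_cancel, S.cls_one] at h
  exact eq_neg_of_add_eq_zero_left h.symm

theorem cls_pow {i : ℕ} {g : P} (hg : g ∈ S.F i) (n : ℕ) : S.cls i (g ^ n) = n • S.cls i g := by
  induction n with
  | zero => simp [S.cls_one]
  | succ n ih => rw [pow_succ, S.cls_mul ((S.F i).pow_mem hg n) hg, ih, succ_nsmul]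

theorem cls_eq_zero {i : ℕ} {g : P} (hg : g ∈ S.F i) : S.cls i g = 0 ↔ g ∈ S.F (i + 1) := by
  rw [S.cls_of_mem hg]
  constructor
  · intro h
    have h1 := DirectSum.of_injective i (h.trans (map_zero _).symm)
    have h2 : (QuotientGroup.mk (⟨g, hg⟩ : S.F i) : S.Gr i) = 1 := h1
    rw [QuotientGroup.eq_one_iff, Subgroup.mem_subgroupOf] at h2
    exact h2
  · intro h
    have h2 : (QuotientGroup.mk (⟨g, hg⟩ : S.F i) : S.Gr i) = 1 := by
      rw [QuotientGroup.eq_one_iff, Subgroup.mem_subgroupOf]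
      exact h
    rw [h2, ofMul_one, map_zero]

theorem cls_zero_of_mem {i : ℕ} {g : P} (hg : g ∈ S.F (i + 1)) : S.cls i g = 0 :=
  (S.cls_eq_zero (S.anti i hg)).2 hg

/-- induction principle: `M` is generated by the classes -/
theorem M_induction {p : S.M → Prop} (m : S.M) (h0 : p 0) (hadd : ∀ a b, p a → p b → p (a + b))
    (hcls : ∀ i, ∀ g ∈ S.F i, p (S.cls i g)) : p m := by
  induction m using DirectSum.induction_on with
  | zero => exact h0
  | of i x =>
    obtain ⟨y, rfl⟩ : ∃ y : S.F i, x = Additive.ofMul (QuotientGroup.mk y : S.Gr i) := by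
      obtain ⟨y, hy⟩ := QuotientGroup.mk_surjective (Additive.toMul x)
      exact ⟨y, by rw [hy]; rfl⟩
    have := hcls i y y.2
    rwa [S.cls_of_mem y.2] at this
  | add a b ha hb => exact hadd a b ha hb

theorem hom_ext {f g : S.M →+ S.M} (h : ∀ i, ∀ m ∈ S.F i, f (S.cls i m) = g (S.cls i m)) :
    f = g := by
  apply AddMonoidHom.ext
  intro m
  induction m using S.M_induction with
  | h0 => rw [map_zero, map_zero]
  | hadd a b ha hb => rw [map_add, map_add, ha, hb]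
  | hcls i m hm => exact h i m hm

theorem comm_mul_left (a b c : P) : ⁅a * b, c⁆ = a * ⁅b, c⁆ * a⁻¹ * ⁅a, c⁆ := by
  simp only [commutatorElement_def]; group

theorem comm_mul_right (a b c : P) : ⁅a, b * c⁆ = ⁅a, b⁆ * (b * ⁅a, c⁆ * b⁻¹) := by
  simp only [commutatorElement_def]; group

theorem cls_conj {i j : ℕ} {g h : P} (hg : g ∈ S.F i) (hh : h ∈ S.F j) :
    S.cls j (g * h * g⁻¹) = S.cls j h := by
  have h1 : ⁅g, h⁆ ∈ S.F (j + 1) := S.mono (by omega) (S.comm_mem hg hh)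
  have h2 : g * h * g⁻¹ = ⁅g, h⁆ * h := by rw [commutatorElement_def]; group
  rw [h2, S.cls_mul (S.anti j h1) hh, S.cls_zero_of_mem h1, zero_add]

/-- the class of `⁅m, g⁆` is additive in `m` -/
theorem cls_comm_mul_left {i j : ℕ} {a b g : P} (ha : a ∈ S.F i) (hb : b ∈ S.F i)
    (hg : g ∈ S.F j) : S.cls (i + j + 1) ⁅a * b, g⁆ =
      S.cls (i + j + 1) ⁅a, g⁆ + S.cls (i + j + 1) ⁅b, g⁆ := by
  have h1 := S.comm_mem ha hg
  have h2 := S.comm_mem hb hg
  rw [comm_mul_left, S.cls_mul (S.conj_mem ha h2) h1, S.cls_conj ha h2, add_comm]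

/-- the class of `⁅m, g⁆` is additive in `g` -/
theorem cls_comm_mul_right {i j : ℕ} {m a b : P} (hm : m ∈ S.F i) (ha : a ∈ S.F j)
    (hb : b ∈ S.F j) : S.cls (i + j + 1) ⁅m, a * b⁆ =
      S.cls (i + j + 1) ⁅m, a⁆ + S.cls (i + j + 1) ⁅m, b⁆ := by
  have h1 := S.comm_mem hm ha
  have h2 := S.comm_mem hm hb
  rw [comm_mul_right, S.cls_mul h1 (S.conj_mem ha h2), S.cls_conj ha h2]

/-- the map `F i → F (i + j + 1) / F (i + j + 2)` induced by `m ↦ ⁅m, g⁆` -/
noncomputable def adAux {j : ℕ} {g : P} (hg : g ∈ S.F j) (i : ℕ) :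
    S.F i →* Multiplicative S.M where
  toFun m := Multiplicative.ofAdd (S.cls (i + j + 1) ⁅(m : P), g⁆)
  map_one' := by
    rw [OneMemClass.coe_one, commutatorElement_one_left, S.cls_one]; rfl
  map_mul' a b := by
    rw [Subgroup.coe_mul, S.cls_comm_mul_left a.2 b.2 hg]; rfl

theorem adAux_ker {j : ℕ} {g : P} (hg : g ∈ S.F j) (i : ℕ) :
    (S.F (i + 1)).subgroupOf (S.F i) ≤ (S.adAux hg i).ker := by
  intro m hm
  rw [Subgroup.mem_subgroupOf] at hm
  rw [MonoidHom.mem_ker]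
  show Multiplicative.ofAdd (S.cls (i + j + 1) ⁅(m : P), g⁆) = 1
  have h1 : ⁅(m : P), g⁆ ∈ S.F (i + j + 1 + 1) := by
    have := S.comm_mem hm hg
    have e : i + 1 + j + 1 = i + j + 1 + 1 := by omega
    rwa [e] at this
  rw [S.cls_zero_of_mem h1]; rfl

open Classical in
/-- the operator `m ↦ ⁅m, g⁆` for `g ∈ F j` (and `0` if `g` is not in `F j`) -/
noncomputable def ad (j : ℕ) (g : P) : S.M →+ S.M :=
  if hg : g ∈ S.F j then
    DirectSum.toAddMonoid fun i =>
      (MonoidHom.toAdditive (QuotientGroup.lift _ (S.adAux hg i) (S.adAux_ker hg i)) :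
        Additive (S.Gr i) →+ S.M)
  else 0

theorem ad_cls {i j : ℕ} {m g : P} (hm : m ∈ S.F i) (hg : g ∈ S.F j) :
    S.ad j g (S.cls i m) = S.cls (i + j + 1) ⁅m, g⁆ := by
  rw [ad, dif_pos hg, S.cls_of_mem hm]
  erw [DirectSum.toAddMonoid_of]
  rfl

theorem ad_mul {j : ℕ} {g h : P} (hg : g ∈ S.F j) (hh : h ∈ S.F j) :
    S.ad j (g * h) = S.ad j g + S.ad j h := by
  apply S.hom_ext
  intro i m hm
  rw [AddMonoidHom.add_apply, S.ad_cls hm hg, S.ad_cls hm hh,
    S.ad_cls hm ((S.F j).mul_mem hg hh), S.cls_comm_mul_right hm hg hh]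

theorem ad_one (j : ℕ) : S.ad j 1 = 0 := by
  have h := S.ad_mul (S.F j).one_mem (S.F j).one_mem
  rw [mul_one] at h
  simpa using h

theorem ad_inv {j : ℕ} {g : P} (hg : g ∈ S.F j) : S.ad j g⁻¹ = - S.ad j g := by
  have h := S.ad_mul ((S.F j).inv_mem hg) hg
  rw [inv_mul_cancel, S.ad_one] at h
  exact eq_neg_of_add_eq_zero_left h.symm

theorem ad_zero_of_mem {j : ℕ} {g : P} (hg : g ∈ S.F (j + 1)) : S.ad j g = 0 := by
  apply S.hom_ext
  intro i m hm
  rw [S.ad_cls hm (S.anti j hg)]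
  have h1 : ⁅m, g⁆ ∈ S.F (i + (j + 1) + 1) := S.comm_mem hm hg
  rw [show i + (j + 1) + 1 = i + j + 1 + 1 by omega] at h1
  rw [S.cls_zero_of_mem h1]; rfl

theorem ad_conj {i j : ℕ} {g h : P} (hg : g ∈ S.F i) (hh : h ∈ S.F j) :
    S.ad j (g * h * g⁻¹) = S.ad j h := by
  have h1 : ⁅g, h⁆ ∈ S.F (j + 1) := S.mono (by omega) (S.comm_mem hg hh)
  have h2 : g * h * g⁻¹ = ⁅g, h⁆ * h := by rw [commutatorElement_def]; group
  rw [h2, S.ad_mul (S.anti j h1) hh, S.ad_zero_of_mem h1, zero_add]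

/-- the ring of operators, acting from the right -/
abbrev Rg : Type _ := (AddMonoid.End S.M)ᵐᵒᵖ

/-- the operator of `g ∈ F j` in the opposite ring -/
noncomputable def ado (j : ℕ) (g : P) : S.Rg :=
  @MulOpposite.op (AddMonoid.End S.M) (S.ad j g)

/-- the right action of the ring of operators -/
def act (m : S.M) (r : S.Rg) : S.M := (MulOpposite.unop r : AddMonoid.End S.M) m

theorem act_mul (m : S.M) (r s : S.Rg) : S.act m (r * s) = S.act (S.act m r) s := rfl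

theorem act_add (m : S.M) (r s : S.Rg) : S.act m (r + s) = S.act m r + S.act m s := rfl

theorem act_neg (m : S.M) (r : S.Rg) : S.act m (-r) = - S.act m r := rfl

theorem act_sub (m : S.M) (r s : S.Rg) : S.act m (r - s) = S.act m r - S.act m s := by
  rw [sub_eq_add_neg, S.act_add, S.act_neg, sub_eq_add_neg]

theorem act_one (m : S.M) : S.act m 1 = m := rfl

theorem act_zero (m : S.M) : S.act m 0 = 0 := rfl

theorem zero_act (r : S.Rg) : S.act 0 r = 0 := map_zero (MulOpposite.unop r)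

theorem add_act (m n : S.M) (r : S.Rg) : S.act (m + n) r = S.act m r + S.act n r :=
  map_add (MulOpposite.unop r) m n

theorem neg_act (m : S.M) (r : S.Rg) : S.act (-m) r = - S.act m r :=
  map_neg (MulOpposite.unop r) m

theorem act_cls {i j : ℕ} {m g : P} (hm : m ∈ S.F i) (hg : g ∈ S.F j) :
    S.act (S.cls i m) (S.ado j g) = S.cls (i + j + 1) ⁅m, g⁆ :=
  S.ad_cls hm hg

theorem Rg_ext {r s : S.Rg} (h : ∀ i, ∀ m ∈ S.F i, S.act (S.cls i m) r = S.act (S.cls i m) s) :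
    r = s := by
  apply MulOpposite.unop_injective
  exact S.hom_ext h

theorem ado_mul {j : ℕ} {g h : P} (hg : g ∈ S.F j) (hh : h ∈ S.F j) :
    S.ado j (g * h) = S.ado j g + S.ado j h :=
  congrArg (@MulOpposite.op (AddMonoid.End S.M)) (S.ad_mul hg hh)

theorem ado_one (j : ℕ) : S.ado j 1 = 0 :=
  congrArg (@MulOpposite.op (AddMonoid.End S.M)) (S.ad_one j)

theorem ado_inv {j : ℕ} {g : P} (hg : g ∈ S.F j) : S.ado j g⁻¹ = - S.ado j g :=
  congrArg (@MulOpposite.op (AddMonoid.End S.M)) (S.ad_inv hg)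

theorem ado_zero_of_mem {j : ℕ} {g : P} (hg : g ∈ S.F (j + 1)) : S.ado j g = 0 :=
  congrArg (@MulOpposite.op (AddMonoid.End S.M)) (S.ad_zero_of_mem hg)

theorem ado_conj {i j : ℕ} {g h : P} (hg : g ∈ S.F i) (hh : h ∈ S.F j) :
    S.ado j (g * h * g⁻¹) = S.ado j h :=
  congrArg (@MulOpposite.op (AddMonoid.End S.M)) (S.ad_conj hg hh)

/-- the additive subgroup generated by all operators `ado j g`, `g ∈ F j` -/
def LL : AddSubgroup S.Rg := AddSubgroup.closure {r | ∃ j, ∃ g ∈ S.F j, r = S.ado j g}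

theorem ado_mem_LL {j : ℕ} {g : P} (hg : g ∈ S.F j) : S.ado j g ∈ S.LL :=
  AddSubgroup.subset_closure ⟨j, g, hg, rfl⟩

end Ser

end Pool.Agent.Lib.MP_544bd1_al.E5
end

section

/-!
Even exponents, squares of Mersenne primes: the minimal configuration.
-/

namespace Pool.Agent.Lib.MP_544bd1_al

open Subgroup

/-- The configuration: `Q` a normal 2-subgroup, `R` an `r`-subgroup normalized by the 2-element `u`,
`x = u ^ (2 ^ (a - 1))` an involution (or `1`); `R` is generated by the elements inverted by `x`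
(`gen`), `R` does not centralize `Q` (`ne`), but `R` centralizes all proper `R⟨u⟩`-invariant
subgroups of `Q` (`min`). -/
structure EvMin (r a : ℕ) {F : Type} [Group F] (Q R : Subgroup F) (u : F) : Prop where
  hQ : ∀ q ∈ Q, q ^ (2 ^ a) = 1
  hR : IsPGroup r R
  hu : u ^ (2 ^ a) = 1
  huR : ∀ g ∈ R, u * g * u⁻¹ ∈ R
  gen : ∀ S : Subgroup F, (∀ g ∈ R, u ^ (2 ^ (a - 1)) * g * (u ^ (2 ^ (a - 1)))⁻¹ = g⁻¹ → g ∈ S) →
    R ≤ S
  ne : ∃ g ∈ R, ∃ q ∈ Q, g * q ≠ q * g
  min : ∀ Q' : Subgroup F, Q' ≤ Q → Q' ≠ Q → (∀ g ∈ R, ∀ q ∈ Q', g * q * g⁻¹ ∈ Q') →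
    (∀ q ∈ Q', u * q * u⁻¹ ∈ Q') → ∀ g ∈ R, ∀ q ∈ Q', g * q = q * g

/-- The output of the linear theorem: a subgroup `S` of `R` and a subspace `W`, invariant under `S`
and the involution `X` (acting as `ξ` on `S`), `z ∈ S` commuting with `X` on `W` and without fixed
points on `W`, `X ≠ 1` on `W`, and elements `g i ∈ S` with `∑ g i = X = ∑ (g i)⁻¹` on `W`. -/
def EvOut {V R : Type} [AddCommGroup V] [Module (ZMod 2) V] [Group R] (ξ : R → R)
    (ρ : R →* Module.End (ZMod 2) V) (X : Module.End (ZMod 2) V) : Prop :=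
  ∃ (S : Subgroup R) (W : Submodule (ZMod 2) V) (z : R) (ι : Type) (_ : Fintype ι) (g : ι → R),
    (∀ x ∈ S, ξ x ∈ S) ∧ (∀ x ∈ S, ∀ w ∈ W, ρ x w ∈ W) ∧ (∀ w ∈ W, X w ∈ W) ∧ z ∈ S ∧
    (∀ w ∈ W, ρ (ξ z) w = ρ z w) ∧ (∀ w ∈ W, ρ z w = w → w = 0) ∧ (∃ w ∈ W, X w ≠ w) ∧
    (∀ w ∈ W, ∑ i, ρ (g i) w = X w) ∧ ∀ w ∈ W, ∑ i, ρ (g i)⁻¹ w = X w

end Pool.Agent.Lib.MP_544bd1_al
end

section

/-!
Even exponents, squares of Mersenne primes: the commutator form of a group of class 2.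
-/

namespace Pool.Agent.Lib.MP_544bd1_al

open Subgroup

/-- The commutator form. `φ : Q → V` is additive and surjective with kernel in the center of `Q`,
`V` an abelian group. Then the commutator is a biadditive map on `V` with values in the center
(`A` = the center written additively, `κ : A → Q` the inclusion).

Proof. For `a b : Q`, `φ (a * b * a⁻¹ * b⁻¹) = 0`, so `[a, b] = a * b * a⁻¹ * b⁻¹` is central
(`φ a⁻¹ = - φ a` as `φ 1 = 0`). `[a * a', b] = a * [a', b] * b * a⁻¹ * b⁻¹ = [a, b] * [a', b]`,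
similarly in the second variable; `[a * z, b] = [a, b] = [a, b * z]` for central `z`. If
`φ a = φ a'` then `φ (a⁻¹ * a') = 0`, so `a' = a * z` with `z` central. Take
`A = Additive (center Q)` (`Subgroup.center` is a `CommGroup`; if the instance is not found use
`letI`), `κ c = (Additive.toMul c : Q)` and
`β v w = Additive.ofMul ⟨[s v, s w], _⟩` with `s = Function.surjInv hs`; check additivity (e.g.
`s (v + v')` and `s v * s v'` have the same image under `φ`); `AddMonoidHom.mk'`. -/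
theorem ev_form {Q V : Type} [Group Q] [AddCommGroup V] (φ : Q → V)
    (hs : Function.Surjective φ) (ha : ∀ x y, φ (x * y) = φ x + φ y)
    (hk : ∀ q, φ q = 0 → ∀ y, q * y = y * q) :
    ∃ (A : Type) (_ : AddCommGroup A) (β : V →+ V →+ A) (κ : A → Q), Function.Injective κ ∧
      κ 0 = 1 ∧ ∀ a b : Q, κ (β (φ a) (φ b)) = a * b * a⁻¹ * b⁻¹ := by
  letI cg : CommGroup (center Q) := { (inferInstance : Group (center Q)) with
    mul_comm := fun a b => Subtype.ext (mem_center_iff.1 b.2 a) }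
  have h1 : φ 1 = 0 := by
    have := ha 1 1
    rw [mul_one] at this
    exact left_eq_add.1 this
  have hinv : ∀ a, φ a⁻¹ = - φ a := by
    intro a
    have := ha a a⁻¹
    rw [mul_inv_cancel, h1] at this
    exact (neg_eq_of_add_eq_zero_right this.symm).symm
  -- commutators are central
  have hc : ∀ a b : Q, a * b * a⁻¹ * b⁻¹ ∈ center Q := by
    intro a b
    rw [mem_center_iff]
    intro g
    refine (hk _ ?_ g).symm
    rw [ha, ha, ha, hinv, hinv]
    abel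
  have hcc : ∀ a b g : Q, g * (a * b * a⁻¹ * b⁻¹) = (a * b * a⁻¹ * b⁻¹) * g := fun a b g =>
    mem_center_iff.1 (hc a b) g
  have hmulL : ∀ a a' b : Q, (a * a') * b * (a * a')⁻¹ * b⁻¹ =
      (a * b * a⁻¹ * b⁻¹) * (a' * b * a'⁻¹ * b⁻¹) := by
    intro a a' b
    calc (a * a') * b * (a * a')⁻¹ * b⁻¹ = a * (a' * b * a'⁻¹ * b⁻¹) * (b * a⁻¹ * b⁻¹) := by group
      _ = (a' * b * a'⁻¹ * b⁻¹) * a * (b * a⁻¹ * b⁻¹) := by rw [hcc]
      _ = (a' * b * a'⁻¹ * b⁻¹) * (a * b * a⁻¹ * b⁻¹) := by group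
      _ = _ := by rw [hcc a b]
  have hmulR : ∀ a b b' : Q, a * (b * b') * a⁻¹ * (b * b')⁻¹ =
      (a * b * a⁻¹ * b⁻¹) * (a * b' * a⁻¹ * b'⁻¹) := by
    intro a b b'
    calc a * (b * b') * a⁻¹ * (b * b')⁻¹ = (a * b * a⁻¹) * (a * b' * a⁻¹ * b'⁻¹) * b⁻¹ := by group
      _ = (a * b' * a⁻¹ * b'⁻¹) * (a * b * a⁻¹) * b⁻¹ := by rw [hcc]
      _ = (a * b' * a⁻¹ * b'⁻¹) * (a * b * a⁻¹ * b⁻¹) := by group
      _ = _ := by rw [hcc a b]
  have hcongL : ∀ a a' b : Q, φ a = φ a' → a * b * a⁻¹ * b⁻¹ = a' * b * a'⁻¹ * b⁻¹ := by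
    intro a a' b h
    have hz : ∀ y, (a⁻¹ * a') * y = y * (a⁻¹ * a') := hk _ (by rw [ha, hinv, h]; abel)
    have e : a' = a * (a⁻¹ * a') := by group
    have h2 : (a⁻¹ * a') * b * (a⁻¹ * a')⁻¹ * b⁻¹ = 1 := by
      rw [hz b]
      group
    have h3 := hmulL a (a⁻¹ * a') b
    rw [h2, mul_one, ← e] at h3
    exact h3.symm
  have hcongR : ∀ a b b' : Q, φ b = φ b' → a * b * a⁻¹ * b⁻¹ = a * b' * a⁻¹ * b'⁻¹ := by
    intro a b b' h
    have hz : ∀ y, (b⁻¹ * b') * y = y * (b⁻¹ * b') := hk _ (by rw [ha, hinv, h]; abel)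
    have e : b' = b * (b⁻¹ * b') := by group
    have h2 : a * (b⁻¹ * b') * a⁻¹ * (b⁻¹ * b')⁻¹ = 1 := by
      rw [← hz a]
      group
    have h3 := hmulR a b (b⁻¹ * b')
    rw [h2, mul_one, ← e] at h3
    exact h3.symm
  set s : V → Q := Function.surjInv hs with hsdef
  have hsφ : ∀ v, φ (s v) = v := fun v => Function.surjInv_eq hs v
  let B : V → V → Additive (center Q) := fun v w =>
    Additive.ofMul ⟨s v * s w * (s v)⁻¹ * (s w)⁻¹, hc _ _⟩
  have hBL : ∀ v v' w, B (v + v') w = B v w + B v' w := by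
    intro v v' w
    apply Additive.toMul.injective
    apply Subtype.ext
    show s (v + v') * s w * (s (v + v'))⁻¹ * (s w)⁻¹ =
      (s v * s w * (s v)⁻¹ * (s w)⁻¹) * (s v' * s w * (s v')⁻¹ * (s w)⁻¹)
    rw [← hmulL]
    apply hcongL
    rw [hsφ, ha, hsφ, hsφ]
  have hBR : ∀ v w w', B v (w + w') = B v w + B v w' := by
    intro v w w'
    apply Additive.toMul.injective
    apply Subtype.ext
    show s v * s (w + w') * (s v)⁻¹ * (s (w + w'))⁻¹ =
      (s v * s w * (s v)⁻¹ * (s w)⁻¹) * (s v * s w' * (s v)⁻¹ * (s w')⁻¹)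
    rw [← hmulR]
    apply hcongR
    rw [hsφ, ha, hsφ, hsφ]
  refine ⟨Additive (center Q), inferInstance,
    AddMonoidHom.mk' (fun v => AddMonoidHom.mk' (fun w => B v w) fun w w' => hBR v w w')
      (fun v v' => ?_), fun c => ((Additive.toMul c : center Q) : Q), ?_, rfl, ?_⟩
  · ext w
    exact congrArg _ (hBL v v' w)
  · intro c c' h
    exact Additive.toMul.injective (Subtype.ext h)
  · intro a b
    show s (φ a) * s (φ b) * (s (φ a))⁻¹ * (s (φ b))⁻¹ = _
    rw [hcongL (s (φ a)) a _ (hsφ _), hcongR a (s (φ b)) b (hsφ _)]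

end Pool.Agent.Lib.MP_544bd1_al
end

section

/-!
Even exponents, squares of Mersenne primes: the commutator form of a group of class 2.
-/

namespace Pool.Agent.Lib.MP_544bd1_al

open Subgroup

/-- Invariance of the form under an operator `X` which on a subspace `W` is a sum of isometries
`g i` and also the sum of their inverses.

Proof. For `v w ∈ W`: `β (X v) (X w) = ∑ i, β (g i v) (X w) = ∑ i, β (g i v) (g i (g' i (X w)))`
`= ∑ i, β v (g' i (X w)) = β v (∑ i, g' i (X w)) = β v (X (X w)) = β v w`. -/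
theorem ev_invariant {V A ι : Type} [AddCommGroup V] [AddCommGroup A] [Fintype ι]
    (β : V →+ V →+ A) (X : V →+ V) (g g' : ι → V →+ V) (W : AddSubgroup V)
    (hX : ∀ w ∈ W, X w ∈ W) (hXX : ∀ w ∈ W, X (X w) = w)
    (hg : ∀ i v w, β (g i v) (g i w) = β v w) (hgg : ∀ i v, g i (g' i v) = v)
    (h1 : ∀ w ∈ W, ∑ i, g i w = X w) (h2 : ∀ w ∈ W, ∑ i, g' i w = X w) :
    ∀ v ∈ W, ∀ w ∈ W, β (X v) (X w) = β v w := by
  intro v hv w hw
  have hXw := hX w hw
  have e1 : β (X v) (X w) = ∑ i, β (g i v) (X w) := by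
    rw [← h1 v hv, map_sum, AddMonoidHom.finsetSum_apply]
  have e2 : ∀ i, β (g i v) (X w) = β v (g' i (X w)) := by
    intro i
    rw [← hg i v (g' i (X w)), hgg]
  rw [e1, Finset.sum_congr rfl fun i _ => e2 i, ← map_sum, h2 _ hXw, hXX w hw]

/-- Consequences of invariance, characteristic 2.

Proof. `β w v = - β v w = β v w` (`β (v + w) (v + w) = 0`, and `2 • β v w = β (2 • v) w = 0`).
`β (X v) w = β (X (X v)) (X w) = β v (X w)`.
(a) `β (X v - v) (X w - w) = β v w - β (X v) w - β v (X w) + β v w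
  = 2 • β v w - 2 • β v (X w) = 0`.
(b) Let `f v = β (X v) v` for `v ∈ W`. `f (v + w) = f v + f w + (β (X v) w + β (X w) v)` and
`β (X w) v = β v (X w) = β (X v) w`, so `f (v + w) = f v + f w`. `f (Z v) = β (X (Z v)) (Z v) =
β (Z (X v)) (Z v) = β (X v) v = f v`. As `Z - 1` is injective on the finite group `W`, it is
surjective: `w = Z v - v = Z v + v` (`2 • v = 0`), `f w = f (Z v) + f v = 2 • f v = 0`. Finally
`β (X w - w) w = f w - β w w = 0`. -/
theorem ev_vanish {V A : Type} [AddCommGroup V] [Finite V] [AddCommGroup A]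
    (h2V : ∀ v : V, v + v = 0) (β : V →+ V →+ A) (hβ : ∀ v, β v v = 0) (X Z : V →+ V)
    (W : AddSubgroup V) (hX : ∀ w ∈ W, X w ∈ W) (hXX : ∀ w ∈ W, X (X w) = w)
    (hZ : ∀ w ∈ W, Z w ∈ W) (hZX : ∀ w ∈ W, Z (X w) = X (Z w))
    (hZβ : ∀ v w, β (Z v) (Z w) = β v w) (hZf : ∀ w ∈ W, Z w = w → w = 0)
    (hinv : ∀ v ∈ W, ∀ w ∈ W, β (X v) (X w) = β v w) :
    (∀ v ∈ W, ∀ w ∈ W, β (X v - v) (X w - w) = 0) ∧ ∀ w ∈ W, β (X w - w) w = 0 := by
  have h2A : ∀ v w, β v w + β v w = 0 := by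
    intro v w
    rw [← AddMonoidHom.add_apply, ← map_add, h2V, map_zero, AddMonoidHom.zero_apply]
  have hneg : ∀ v w, -β v w = β v w := fun v w => neg_eq_of_add_eq_zero_left (h2A v w)
  have hsym : ∀ v w, β w v = β v w := by
    intro v w
    have h1 := hβ (v + w)
    rw [map_add, map_add, AddMonoidHom.add_apply, AddMonoidHom.add_apply, hβ, hβ, add_zero,
      zero_add] at h1
    have h2 : β w v = -β v w := eq_neg_of_add_eq_zero_left h1
    rw [h2, hneg]
  have hadj : ∀ v ∈ W, ∀ w ∈ W, β (X v) w = β v (X w) := by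
    intro v hv w hw
    have h1 := hinv (X v) (hX v hv) w hw
    rw [hXX v hv] at h1
    exact h1.symm
  refine ⟨fun v hv w hw => ?_, ?_⟩
  · have e0 : β (X v - v) (X w - w) = β (X v) (X w) - β (X v) w - (β v (X w) - β v w) := by
      rw [map_sub (β (X v - v)), map_sub β, AddMonoidHom.sub_apply, AddMonoidHom.sub_apply]
      abel
    rw [e0, hinv v hv w hw, hadj v hv w hw]
    have e : β v w - β v (X w) - (β v (X w) - β v w) = (β v w + β v w) - (β v (X w) + β v (X w)) := by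
      abel
    rw [e, h2A, h2A, sub_zero]
  · have hf : ∀ v ∈ W, ∀ w ∈ W, β (X (v + w)) (v + w) = β (X v) v + β (X w) w := by
      intro v hv w hw
      have e0 : β (X (v + w)) (v + w) = β (X v) v + β (X v) w + (β (X w) v + β (X w) w) := by
        rw [map_add X, map_add β, AddMonoidHom.add_apply, map_add, map_add]
      rw [e0]
      have h1 : β (X w) v = β (X v) w := by
        rw [hsym v (X w), hadj v hv w hw]
      rw [h1]
      have e : β (X v) v + β (X v) w + (β (X v) w + β (X w) w) =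
          β (X v) v + β (X w) w + (β (X v) w + β (X v) w) := by abel
      rw [e, h2A, add_zero]
    have hfZ : ∀ w ∈ W, β (X (Z w)) (Z w) = β (X w) w := by
      intro w hw
      rw [← hZX w hw, hZβ]
    -- `Z - 1` is surjective on `W`
    let F : W → W := fun v => ⟨Z v - v, W.sub_mem (hZ v v.2) v.2⟩
    have hFinj : Function.Injective F := by
      intro a b hab
      have h1 : Z a - a = Z b - b := congrArg Subtype.val hab
      have h2 : Z (a - b : V) = a - b := by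
        rw [map_sub]
        have e : Z (a : V) - Z b = (Z a - a) - (Z b - b) + (a - b) := by abel
        rw [e, h1, sub_self, zero_add]
      have h3 := hZf (a - b) (W.sub_mem a.2 b.2) h2
      exact Subtype.ext (sub_eq_zero.1 h3)
    have hFsurj : Function.Surjective F := Finite.surjective_of_injective hFinj
    intro w hw
    obtain ⟨v, hv⟩ := hFsurj ⟨w, hw⟩
    have hv1 : Z v - v = w := congrArg Subtype.val hv
    have hv2 : w = Z v + v := by
      rw [← hv1, sub_eq_add_neg, neg_eq_of_add_eq_zero_left (h2V (v : V))]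
    have h4 : β (X w) w = 0 := by
      rw [hv2, hf _ (hZ v v.2) _ v.2, hfZ v v.2, h2A]
    rw [map_sub, AddMonoidHom.sub_apply, h4, hβ, sub_zero]

end Pool.Agent.Lib.MP_544bd1_al
end

section

/-!
Local finiteness of subgroups: extensions, chains, and maximal normal locally finite subgroups.
-/

namespace Pool.Agent.Lib.MP_544bd1_al

open Subgroup

universe u v

/-- every finitely generated subgroup of `H` is finite -/
def LF {G : Type u} [Group G] (H : Subgroup G) : Prop :=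
  ∀ K : Subgroup G, K ≤ H → K.FG → Finite K

theorem LF.mono {G : Type u} [Group G] {H K : Subgroup G} (h : LF K) (hHK : H ≤ K) : LF H :=
  fun _ hA hfg => h _ (hA.trans hHK) hfg

theorem LF_bot {G : Type u} [Group G] : LF (⊥ : Subgroup G) := by
  intro K hK _
  rw [le_bot_iff] at hK
  subst hK
  infer_instance

theorem fg_map {G : Type u} {G' : Type v} [Group G] [Group G'] (f : G →* G') {K : Subgroup G}
    (hK : K.FG) : (K.map f).FG := by
  classical
  obtain ⟨S, rfl⟩ := hK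
  refine ⟨S.image f, ?_⟩
  rw [MonoidHom.map_closure, Finset.coe_image]

/-- extension of locally finite by locally finite -/
theorem LF.extension {G : Type u} {G' : Type v} [Group G] [Group G'] (f : G →* G')
    (hker : LF f.ker) (H : Subgroup G) (hH : LF (H.map f)) : LF H := by
  intro K hK hfg
  have hfgK : Group.FG K := (Group.fg_iff_subgroup_fg K).2 hfg
  let φ : K →* G' := f.comp K.subtype
  have hrange : φ.range = K.map f := by
    ext y
    constructor
    · rintro ⟨x, rfl⟩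
      exact ⟨x, x.2, rfl⟩
    · rintro ⟨x, hx, rfl⟩
      exact ⟨⟨x, hx⟩, rfl⟩
  have hfin : Finite φ.range := by
    have h1 : Finite (K.map f) := hH _ (Subgroup.map_mono hK) (fg_map f hfg)
    rw [hrange]; exact h1
  have hindex : φ.ker.index ≠ 0 := by
    rw [Subgroup.index_ker]
    exact Nat.card_pos.ne'
  have hfi : φ.ker.FiniteIndex := ⟨hindex⟩
  have hkfg : Group.FG φ.ker := Subgroup.fg_of_index_ne_zero φ.ker
  have hkfg' : φ.ker.FG := (Group.fg_iff_subgroup_fg _).1 hkfg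
  have hkfin : Finite (φ.ker.map K.subtype) := by
    apply hker _ _ (fg_map _ hkfg')
    rintro _ ⟨x, hx, rfl⟩
    exact hx
  have hkfin' : Finite φ.ker := by
    have e := φ.ker.equivMapOfInjective K.subtype K.subtype_injective
    exact Finite.of_equiv _ e.symm.toEquiv
  have h2 : Nat.card K ≠ 0 := by
    rw [← Subgroup.index_mul_card φ.ker]
    exact Nat.mul_ne_zero hindex Nat.card_pos.ne'
  exact Nat.finite_of_card_ne_zero h2

/-- there is a maximal normal locally finite subgroup -/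
theorem exists_maximal_LF {G : Type u} [Group G] :
    ∃ N : Subgroup G, N.Normal ∧ LF N ∧ ∀ K : Subgroup G, K.Normal → LF K → N ≤ K → K = N := by
  let s : Set (Subgroup G) := {N | N.Normal ∧ LF N}
  have hz : ∃ m, Maximal (· ∈ s) m := by
    apply zorn_le_nonempty₀ s _ ⊥ ⟨inferInstance, LF_bot⟩ |>.imp
    · rintro m ⟨_, hm⟩; exact hm
    · intro c hc hchain y hy
      refine ⟨sSup c, ⟨?_, ?_⟩, fun z hz => le_sSup hz⟩
      · have hdir : DirectedOn (· ≤ ·) c := hchain.directedOn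
        constructor
        intro x hx g
        rw [Subgroup.mem_sSup_of_directedOn ⟨y, hy⟩ hdir] at hx ⊢
        obtain ⟨N, hN, hxN⟩ := hx
        exact ⟨N, hN, (hc hN).1.conj_mem x hxN g⟩
      · have hdir : DirectedOn (· ≤ ·) c := hchain.directedOn
        intro K hK hfg
        obtain ⟨S, rfl⟩ := hfg
        have hex : ∃ N ∈ c, ∀ x ∈ S, x ∈ N := by
          classical
          have hS : ∀ x ∈ S, x ∈ sSup c := fun x hx => hK (Subgroup.subset_closure hx)
          clear hK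
          induction S using Finset.induction_on with
          | empty => exact ⟨y, hy, fun x hx => by simp at hx⟩
          | insert a S ha ih =>
            obtain ⟨N, hN, hSN⟩ := ih (fun x hx => hS x (Finset.mem_insert_of_mem hx))
            have haS := hS a (Finset.mem_insert_self _ _)
            rw [Subgroup.mem_sSup_of_directedOn ⟨y, hy⟩ hdir] at haS
            obtain ⟨N', hN', haN'⟩ := haS
            obtain ⟨N'', hN'', h1, h2⟩ := hdir N hN N' hN'
            refine ⟨N'', hN'', ?_⟩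
            intro x hx
            rcases Finset.mem_insert.1 hx with rfl | hx
            · exact h2 haN'
            · exact h1 (hSN x hx)
        obtain ⟨N, hN, hSN⟩ := hex
        apply (hc hN).2 _ _ ⟨S, rfl⟩
        rw [Subgroup.closure_le]
        exact fun x hx => hSN x hx
  obtain ⟨N, hN⟩ := hz
  refine ⟨N, hN.prop.1, hN.prop.2, ?_⟩
  intro K hKn hK hNK
  exact le_antisymm (hN.le_of_ge ⟨hKn, hK⟩ hNK) hNK

/-- To show that `G` is locally finite, it is enough that all nontrivial quotients have nontrivial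
locally finite normal subgroups. -/
theorem LF_of_quotients {G : Type u} [Group G]
    (h : ∀ N : Subgroup G, ∀ _ : N.Normal, N ≠ ⊤ →
      ∃ K : Subgroup (G ⧸ N), K.Normal ∧ K ≠ ⊥ ∧ LF K) :
    LF (⊤ : Subgroup G) := by
  obtain ⟨N, hNn, hN, hmax⟩ := exists_maximal_LF (G := G)
  by_contra hcon
  have hNtop : N ≠ ⊤ := by
    rintro rfl
    exact hcon hN
  obtain ⟨K, hKn, hKbot, hK⟩ := h N hNn hNtop
  have h1 : LF (K.comap (QuotientGroup.mk' N)) := by
    apply LF.extension (QuotientGroup.mk' N)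
    · rw [QuotientGroup.ker_mk']; exact hN
    · rw [Subgroup.map_comap_eq_self_of_surjective (QuotientGroup.mk'_surjective N)]
      exact hK
  have h2 : N ≤ K.comap (QuotientGroup.mk' N) := by
    intro x hx
    rw [Subgroup.mem_comap, QuotientGroup.mk'_apply, (QuotientGroup.eq_one_iff x).2 hx]
    exact K.one_mem
  have h3 := hmax _ (hKn.comap _) h1 h2
  apply hKbot
  rw [← Subgroup.map_comap_eq_self_of_surjective (QuotientGroup.mk'_surjective N) K, h3,
    QuotientGroup.map_mk'_self]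

end Pool.Agent.Lib.MP_544bd1_al
end

section

/-!
Two generators, part 2: linear data for Theorem L.
-/

namespace Pool.Agent.Lib.MP_544bd1_al

open Finset

/-- linear data: `R` acts on `V` by `ρ`, the operator `U` (with `U ^ q = 1`) normalizes the action,
and the norm `∑ U ^ i` is zero -/
structure LDat {K V R : Type} [Field K] [AddCommGroup V] [Module K V] [Group R] (q : ℕ)
    (α : R →* R) (ρ : R →* Module.End K V) (U : Module.End K V) : Prop where
  hU : ∀ x, U * ρ x = ρ (α x) * U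
  hq : U ^ q = 1
  hN : ∑ i ∈ range q, U ^ i = 0

/-- a finite group `X` (abelian) with units `e x` of the algebra `E`, multiplicative and commuting
up to scalars, with nondegenerate commutator pairing `b` -/
structure TwAlg {K E X : Type} [Field K] [Ring E] [Algebra K E] [Group X] (e : X → Eˣ)
    (b : X → X → K) : Prop where
  comm : ∀ x y : X, x * y = y * x
  hb : ∀ y x, (e y : E) * (e x : E) = b y x • ((e x : E) * (e y : E))
  he : ∀ x y, ∃ c : K, (e x : E) * (e y : E) = c • (e (x * y) : E)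
  nd : ∀ x, (∀ y, b y x = 1) → x = 1
  hX : (Nat.card X : K) ≠ 0

/-- the weight space of `x` -/
def Wt {K E X : Type} [Field K] [Ring E] [Algebra K E] (e : X → Eˣ) (b : X → X → K) (x : X) :
    Submodule K E where
  carrier := {A | ∀ y, (e y : E) * A = b y x • (A * (e y : E))}
  add_mem' := by
    intro A B hA hB y
    rw [mul_add, hA y, hB y, add_mul, smul_add]
  zero_mem' := by
    intro y
    simp
  smul_mem' := by
    intro c A hA y
    rw [mul_smul_comm, hA y, smul_mul_assoc, smul_comm]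

/-- the projection onto the weight space of `x` -/
noncomputable def twP {K E X : Type} [Field K] [Ring E] [Algebra K E] [Fintype X] (e : X → Eˣ)
    (b : X → X → K) (x : X) (A : E) : E :=
  (Nat.card X : K)⁻¹ • ∑ y, (b y x)⁻¹ • ((e y : E) * A * ((e y)⁻¹ : Eˣ))

/-- `T` is a system of representatives of the orbits of `σ` on `X \ {1}`, all of length `q` -/
def TwOrb {X : Type} [One X] [Fintype X] (q : ℕ) (σ : X → X) (T : Finset X) : Prop :=
  ∀ (A : Type) [AddCommMonoid A] (f : X → A),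
    ∑ x, f x = f 1 + ∑ t ∈ T, ∑ i ∈ range q, f (σ^[i] t)

end Pool.Agent.Lib.MP_544bd1_al
end

section

/-!
# The Jacobi identity for the operators of a series
-/

namespace Pool.Agent.Lib.MP_544bd1_al.E5

open Subgroup
open scoped commutatorElement

namespace Ser

variable {P : Type*} [Group P] (S : Ser P)

theorem cls_comm_swap {i j : ℕ} {g h : P} (hg : g ∈ S.F i) (hh : h ∈ S.F j) :
    S.cls (i + j + 1) ⁅g, h⁆ = - S.cls (i + j + 1) ⁅h, g⁆ := by
  rw [← S.cls_inv (by have := S.comm_mem hh hg; rwa [show j + i + 1 = i + j + 1 by omega] at this),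
    commutatorElement_inv]

theorem hall_witt (a b c : P) :
    (b * ⁅⁅a, b⁻¹⁆⁻¹, c⁆ * b⁻¹) * ((c * ⁅⁅b, c⁻¹⁆⁻¹, a⁆ * c⁻¹) *
      (a * ⁅⁅c, a⁻¹⁆⁻¹, b⁆ * a⁻¹)) = 1 := by
  simp only [commutatorElement_def]; group

theorem cls_hw_aux {i j k : ℕ} {a b c : P} (ha : a ∈ S.F i) (hb : b ∈ S.F j) (hc : c ∈ S.F k) :
    (b * ⁅⁅a, b⁻¹⁆⁻¹, c⁆ * b⁻¹) ∈ S.F (i + j + k + 2) ∧
    S.cls (i + j + k + 2) (b * ⁅⁅a, b⁻¹⁆⁻¹, c⁆ * b⁻¹) = S.cls (i + j + k + 2) ⁅⁅a, b⁆, c⁆ := by
  have h1 : ⁅a, b⁻¹⁆ ∈ S.F (i + j + 1) := S.comm_mem ha ((S.F j).inv_mem hb)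
  have h2 : ⁅⁅a, b⁻¹⁆⁻¹, c⁆ ∈ S.F (i + j + 1 + k + 1) := S.comm_mem ((S.F _).inv_mem h1) hc
  have h3 : ⁅a, b⁆ ∈ S.F (i + j + 1) := S.comm_mem ha hb
  have e : i + j + k + 2 = i + j + 1 + k + 1 := by omega
  rw [e]
  refine ⟨S.conj_mem hb h2, ?_⟩
  rw [S.cls_conj hb h2, ← S.act_cls ((S.F _).inv_mem h1) hc, ← S.act_cls h3 hc]
  congr 1
  rw [S.cls_inv h1, ← S.act_cls ha ((S.F j).inv_mem hb), S.ado_inv hb, S.act_neg, neg_neg,
    S.act_cls ha hb]

/-- the Jacobi identity -/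
theorem cls_jacobi {i j k : ℕ} {a b c : P} (ha : a ∈ S.F i) (hb : b ∈ S.F j) (hc : c ∈ S.F k) :
    S.cls (i + j + k + 2) ⁅⁅a, b⁆, c⁆ + (S.cls (i + j + k + 2) ⁅⁅b, c⁆, a⁆ +
      S.cls (i + j + k + 2) ⁅⁅c, a⁆, b⁆) = 0 := by
  obtain ⟨m1, e1⟩ := S.cls_hw_aux ha hb hc
  obtain ⟨m2, e2⟩ := S.cls_hw_aux hb hc ha
  obtain ⟨m3, e3⟩ := S.cls_hw_aux hc ha hb
  rw [show j + k + i + 2 = i + j + k + 2 by omega] at m2 e2
  rw [show k + i + j + 2 = i + j + k + 2 by omega] at m3 e3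
  rw [← e1, ← e2, ← e3, ← S.cls_mul m2 m3, ← S.cls_mul m1 ((S.F _).mul_mem m2 m3),
    hall_witt, S.cls_one]

theorem ado_comm {i j : ℕ} {g h : P} (hg : g ∈ S.F i) (hh : h ∈ S.F j) :
    S.ado (i + j + 1) ⁅g, h⁆ = S.ado i g * S.ado j h - S.ado j h * S.ado i g := by
  apply S.Rg_ext
  intro k m hm
  have hgh := S.comm_mem hg hh
  have hmg := S.comm_mem hm hg
  have hmh := S.comm_mem hm hh
  have hhm := S.comm_mem hh hm
  rw [S.act_sub, S.act_mul, S.act_mul, S.act_cls hm hgh, S.act_cls hm hg, S.act_cls hm hh,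
    S.act_cls hmg hh, S.act_cls hmh hg]
  have hJ := S.cls_jacobi hm hg hh
  have e1 : k + (i + j + 1) + 1 = k + i + j + 2 := by omega
  have e2 : k + i + 1 + j + 1 = k + i + j + 2 := by omega
  have e3 : k + j + 1 + i + 1 = k + i + j + 2 := by omega
  have h1 := S.cls_comm_swap hm hgh
  rw [e1] at h1 ⊢
  rw [e2, e3]
  have h2 : S.cls (k + i + j + 2) ⁅⁅h, m⁆, g⁆ = - S.cls (k + i + j + 2) ⁅⁅m, h⁆, g⁆ := by
    have h3 := S.act_cls hmh hg
    have h4 := S.act_cls hhm hg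
    rw [show j + k + 1 + i + 1 = k + i + j + 2 by omega] at h4
    rw [e3] at h3
    rw [← h3, ← h4, ← S.neg_act]
    congr 1
    have h5 := S.cls_comm_swap hh hm
    rw [show k + j + 1 = j + k + 1 by omega]
    exact h5
  rw [h2] at hJ
  rw [h1]
  have h6 : S.cls (k + i + j + 2) ⁅⁅m, g⁆, h⁆ - S.cls (k + i + j + 2) ⁅⁅m, h⁆, g⁆ =
      - S.cls (k + i + j + 2) ⁅⁅g, h⁆, m⁆ := by
    rw [eq_neg_iff_add_eq_zero, ← hJ]; abel
  rw [h6]

theorem LL_comm {r s : S.Rg} (hr : r ∈ S.LL) (hs : s ∈ S.LL) : r * s - s * r ∈ S.LL := by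
  induction hr using AddSubgroup.closure_induction with
  | mem r hr =>
    obtain ⟨i, g, hg, rfl⟩ := hr
    induction hs using AddSubgroup.closure_induction with
    | mem s hs =>
      obtain ⟨j, h, hh, rfl⟩ := hs
      rw [← S.ado_comm hg hh]
      exact S.ado_mem_LL (S.comm_mem hg hh)
    | zero => rw [mul_zero, zero_mul, sub_zero]; exact S.LL.zero_mem
    | add a b _ _ ha hb =>
      have : S.ado i g * (a + b) - (a + b) * S.ado i g =
          (S.ado i g * a - a * S.ado i g) + (S.ado i g * b - b * S.ado i g) := by noncomm_ring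
      rw [this]; exact S.LL.add_mem ha hb
    | neg a _ ha =>
      have : S.ado i g * (-a) - (-a) * S.ado i g = -(S.ado i g * a - a * S.ado i g) := by
        noncomm_ring
      rw [this]; exact S.LL.neg_mem ha
  | zero => rw [mul_zero, zero_mul, sub_zero]; exact S.LL.zero_mem
  | add a b _ _ ha hb =>
    have : (a + b) * s - s * (a + b) = (a * s - s * a) + (b * s - s * b) := by noncomm_ring
    rw [this]; exact S.LL.add_mem ha hb
  | neg a _ ha =>
    have : (-a) * s - s * (-a) = -(a * s - s * a) := by noncomm_ring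
    rw [this]; exact S.LL.neg_mem ha

theorem five_smul (hexp : ∀ g : P, g ^ 5 = 1) (m : S.M) : 5 • m = 0 := by
  induction m using S.M_induction with
  | h0 => simp
  | hadd a b ha hb => rw [smul_add, ha, hb, add_zero]
  | hcls i g hg => rw [← S.cls_pow hg, hexp, S.cls_one]

theorem five_eq_zero (hexp : ∀ g : P, g ^ 5 = 1) : (5 : S.Rg) = 0 := by
  apply S.Rg_ext
  intro i m hm
  have h1 : (5 : S.Rg) = 1 + 1 + 1 + 1 + 1 := by norm_num
  have h2 := S.five_smul hexp (S.cls i m)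
  rw [h1, S.act_add, S.act_add, S.act_add, S.act_add, S.act_one, S.act_zero, ← h2]
  abel

end Ser

end Pool.Agent.Lib.MP_544bd1_al.E5
end

section

/-!
Even exponents, squares of Mersenne primes: the elements `v`, `s`.
-/

namespace Pool.Agent.Lib.MP_544bd1_al

open Subgroup

/-- The commutator of `x` and `s`: first part.

Notation: `Q` a normal subgroup of `F`, `φ : Q → V` with kernel centralized by `R` and `Q`, `W ≤ V`
a subspace invariant under the commuting elements `x` (`x ^ 2 = 1`) and `z ∈ R`, `z` without fixed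
points on `W`, `x` not trivial on `W`, and `x` is on `W` the sum of elements `g i` of `R`, and the
sum of their inverses.
Then there is `s ∈ Q` such that for `d = x * s * x⁻¹ * s⁻¹`: the conjugates of `d` under `z`
commute, `d` commutes with `s`, `φ d ≠ 0` and `∑ i < r, z ^ i φ d = 0`.

Proof. Let `w ∈ W` with `ρ x w ≠ w` and `s ∈ Q` with `φ s = w`; `d = (x s x⁻¹) s⁻¹ ∈ Q`,
`φ d = ρ x w - w ≠ 0`.
`ev_form` for `φ` gives `A`, `β`, `κ`. `β v v = 0` for all `v` (`v = φ a`, `[a, a] = 1 = κ 0`, `κ`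
injective). For `g ∈ R`: `β (ρ g v) (ρ g v') = β v v'` (`v = φ a`, `v' = φ b`,
`[g a g⁻¹, g b g⁻¹] = g [a, b] g⁻¹ = [a, b]`, since `φ [a, b] = 0` and so `g` commutes with `[a, b]`).
`ev_invariant` with `X = ρ x`, `g i = ρ (g i)`, `g' i = ρ (g i)⁻¹` (as `AddMonoidHom`s,
`LinearMap.toAddMonoidHom`), `W` as an additive subgroup. `ev_vanish` with `Z = ρ z`.
The conjugate `z ^ i d z ^ -i` has image `ρ z ^ i (ρ x w - w) = ρ x (w_i) - w_i` with
`w_i = ρ (z ^ i) w ∈ W`, so by the first part of `ev_vanish` `β` vanishes on these images, i.e.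
`κ (β ..) = κ 0 = 1` is the commutator of the conjugates. By the second part
`β (φ d) (φ s) = 0`, so `[d, s] = 1`.
Let `w' = ∑ i < r, ρ (z ^ i) (ρ x w - w) ∈ W`; `ρ z w' = w'` (`z ^ r = 1`), so `w' = 0`. -/
theorem ev_M1 {F : Type} [Group F] [Finite F] {r : ℕ} (Q R : Subgroup F) [hQn : Q.Normal]
    {V : Type} [AddCommGroup V] [Module (ZMod 2) V] [Finite V] (ρ : F →* Module.End (ZMod 2) V)
    (φ : Q → V) (hφs : Function.Surjective φ) (hφa : ∀ x y, φ (x * y) = φ x + φ y)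
    (hφρ : ∀ (g : F) (x : Q), φ ⟨g * x * g⁻¹, hQn.conj_mem _ x.2 g⟩ = ρ g (φ x))
    (hker : ∀ q : Q, φ q = 0 → (∀ g ∈ R, g * (q : F) = q * g) ∧ ∀ y ∈ Q, (q : F) * y = y * q)
    {x z : F} (hx : x ^ 2 = 1) (hz : z ^ r = 1) (hzR : z ∈ R) (hzx : z * x = x * z)
    (W : Submodule (ZMod 2) V) (hWx : ∀ w ∈ W, ρ x w ∈ W) (hWz : ∀ w ∈ W, ρ z w ∈ W)
    (hfix : ∀ w ∈ W, ρ z w = w → w = 0) (hne : ∃ w ∈ W, ρ x w ≠ w) {ι : Type} [Fintype ι]
    (g : ι → F) (hg : ∀ i, g i ∈ R) (h1 : ∀ w ∈ W, ∑ i, ρ (g i) w = ρ x w)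
    (h2 : ∀ w ∈ W, ∑ i, ρ (g i)⁻¹ w = ρ x w) :
    ∃ (s d : Q), (d : F) = x * s * x⁻¹ * (s : F)⁻¹ ∧ (d : F) * s = s * d ∧ φ d ≠ 0 ∧
      (∑ i ∈ Finset.range r, ρ (z ^ i) (φ d) = 0) ∧
      ∀ i j : ℕ, (z ^ i * (d : F) * (z ^ i)⁻¹) * (z ^ j * (d : F) * (z ^ j)⁻¹) =
        (z ^ j * (d : F) * (z ^ j)⁻¹) * (z ^ i * (d : F) * (z ^ i)⁻¹) := by
  obtain ⟨w, hw, hwne⟩ := hne
  obtain ⟨s, hs⟩ := hφs w
  have hφ1 : φ 1 = 0 := by
    have h1 := hφa 1 1
    rw [mul_one] at h1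
    exact (left_eq_add.1 h1)
  have hφi : ∀ q : Q, φ q⁻¹ = -φ q := by
    intro q
    have h1 := hφa q q⁻¹
    rw [mul_inv_cancel, hφ1] at h1
    exact (neg_eq_of_add_eq_zero_right h1.symm).symm
  have hρmul : ∀ (a b : F) (v : V), ρ (a * b) v = ρ a (ρ b v) := by
    intro a b v
    rw [map_mul]
    rfl
  have hρ1 : ∀ v : V, ρ 1 v = v := by
    intro v
    rw [map_one]
    rfl
  have hWd : ρ x w - w ∈ W := W.sub_mem (hWx w hw) hw
  obtain ⟨A, iA, β, κ, hκ, hκ0, hβ⟩ := ev_form φ hφs hφa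
    (fun q hq y => Subtype.ext ((hker q hq).2 y y.2))
  have hββ : ∀ v, β v v = 0 := by
    intro v
    obtain ⟨a, rfl⟩ := hφs v
    refine hκ ?_
    rw [hβ, hκ0]
    group
  have hβR : ∀ g ∈ R, ∀ v v', β (ρ g v) (ρ g v') = β v v' := by
    intro g hg v v'
    obtain ⟨a, rfl⟩ := hφs v
    obtain ⟨b, rfl⟩ := hφs v'
    refine hκ ?_
    rw [← hφρ g a, ← hφρ g b, hβ, hβ]
    have hc : φ (a * b * a⁻¹ * b⁻¹) = 0 := by
      rw [hφa, hφa, hφa, hφi, hφi]
      abel
    have h3 := (hker _ hc).1 g hg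
    refine Subtype.ext ?_
    push_cast at h3 ⊢
    calc g * (a : F) * g⁻¹ * (g * b * g⁻¹) * (g * a * g⁻¹)⁻¹ * (g * b * g⁻¹)⁻¹
        = g * (a * b * (a : F)⁻¹ * (b : F)⁻¹) * g⁻¹ := by group
      _ = (a * b * (a : F)⁻¹ * (b : F)⁻¹) * g * g⁻¹ := by rw [h3]
      _ = a * b * (a : F)⁻¹ * (b : F)⁻¹ := by group
  have hXX : ∀ w ∈ W, ρ x (ρ x w) = w := by
    intro w _
    rw [← hρmul, ← sq, hx, hρ1]
  have hinv := ev_invariant β (ρ x).toAddMonoidHom (fun i => (ρ (g i)).toAddMonoidHom)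
    (fun i => (ρ (g i)⁻¹).toAddMonoidHom) W.toAddSubgroup hWx hXX
    (fun i v w => hβR (g i) (hg i) v w)
    (fun i v => by
      show ρ (g i) (ρ (g i)⁻¹ v) = v
      rw [← hρmul, mul_inv_cancel, hρ1])
    h1 h2
  obtain ⟨hva, hvb⟩ := ev_vanish (fun v => ZModModule.add_self v) β hββ (ρ x).toAddMonoidHom
    (ρ z).toAddMonoidHom W.toAddSubgroup hWx hXX hWz
    (fun w _ => by
      show ρ z (ρ x w) = ρ x (ρ z w)
      rw [← hρmul, ← hρmul, hzx])
    (fun v w => hβR z hzR v w) hfix hinv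
  have hcomm : ∀ a b : Q, β (φ a) (φ b) = 0 → a * b = b * a := by
    intro a b hab
    have h3 := hβ a b
    rw [hab, hκ0] at h3
    calc a * b = (a * b * a⁻¹ * b⁻¹) * (b * a) := by group
      _ = b * a := by rw [← h3, one_mul]
  let d : Q := ⟨x * s * x⁻¹, hQn.conj_mem _ s.2 x⟩ * s⁻¹
  have hd : (d : F) = x * s * x⁻¹ * (s : F)⁻¹ := rfl
  have hφd : φ d = ρ x w - w := by
    show φ (⟨x * s * x⁻¹, hQn.conj_mem _ s.2 x⟩ * s⁻¹) = _
    rw [hφa, hφi, hφρ, hs, sub_eq_add_neg]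
  have hWi : ∀ (i : ℕ) (v : V), v ∈ W → ρ (z ^ i) v ∈ W := by
    intro i
    induction i with
    | zero =>
      intro v hv
      rw [pow_zero, hρ1]
      exact hv
    | succ i ih =>
      intro v hv
      rw [pow_succ', hρmul]
      exact hWz _ (ih v hv)
  refine ⟨s, d, hd, ?_, ?_, ?_, ?_⟩
  · have h3 := hcomm d s (by rw [hφd, hs]; exact hvb w hw)
    have h4 := congrArg Subtype.val h3
    simpa using h4
  · rw [hφd]
    exact sub_ne_zero.2 hwne
  · refine hfix _ (W.sum_mem fun i _ => hWi i _ (by rw [hφd]; exact hWd)) ?_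
    rw [map_sum]
    have h3 : ∀ i ∈ Finset.range r, ρ z (ρ (z ^ i) (φ d)) = ρ (z ^ (i + 1)) (φ d) := by
      intro i _
      rw [← hρmul, pow_succ']
    rw [Finset.sum_congr rfl h3]
    have h4 := Finset.sum_range_succ' (fun i => ρ (z ^ i) (φ d)) r
    have h5 := Finset.sum_range_succ (fun i => ρ (z ^ i) (φ d)) r
    rw [h4, hz, pow_zero] at h5
    exact add_right_cancel h5
  · intro i j
    have he : ∀ i : ℕ, φ ⟨z ^ i * d * (z ^ i)⁻¹, hQn.conj_mem _ d.2 (z ^ i)⟩ =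
        ρ x (ρ (z ^ i) w) - ρ (z ^ i) w := by
      intro i
      rw [hφρ, hφd, map_sub, ← hρmul, ← hρmul]
      have h3 : z ^ i * x = x * z ^ i := (Commute.pow_left (show Commute z x from hzx) i)
      rw [h3]
    have h3 := hcomm ⟨z ^ i * d * (z ^ i)⁻¹, hQn.conj_mem _ d.2 (z ^ i)⟩
      ⟨z ^ j * d * (z ^ j)⁻¹, hQn.conj_mem _ d.2 (z ^ j)⟩ (by
        rw [he, he]
        exact hva _ (hWi i w hw) _ (hWi j w hw))
    exact congrArg Subtype.val h3

end Pool.Agent.Lib.MP_544bd1_al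
end

section

/-!
Even exponents, squares of Mersenne primes: the elements `v`, `s`.
-/

namespace Pool.Agent.Lib.MP_544bd1_al

open Subgroup

/-- The product `g (z g z⁻¹) ... (z^(n-1) g z^-(n-1))`. -/
private def evP {F : Type} [Group F] (z g : F) (n : ℕ) : F := (g * z) ^ n * (z ^ n)⁻¹

private lemma evP_zero {F : Type} [Group F] (z g : F) : evP z g 0 = 1 := by simp [evP]

private lemma evP_succ {F : Type} [Group F] (z g : F) (n : ℕ) :
    evP z g (n + 1) = evP z g n * (z ^ n * g * (z ^ n)⁻¹) := by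
  simp only [evP, pow_succ]
  group

private lemma evP_comm {F : Type} [Group F] (z g u : F)
    (h : ∀ i : ℕ, Commute (z ^ i * g * (z ^ i)⁻¹) u) (n : ℕ) : Commute (evP z g n) u := by
  induction n with
  | zero => rw [evP_zero]; exact Commute.one_left u
  | succ n ih => rw [evP_succ]; exact ih.mul_left (h n)

private lemma evP_mul {F : Type} [Group F] (z g k : F)
    (h : ∀ i j : ℕ, Commute (z ^ i * g * (z ^ i)⁻¹) (z ^ j * k * (z ^ j)⁻¹)) (n : ℕ) :
    evP z (g * k) n = evP z g n * evP z k n := by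
  induction n with
  | zero => simp [evP_zero]
  | succ n ih =>
    rw [evP_succ, evP_succ, evP_succ, ih]
    have h1 : Commute (evP z k n) (z ^ n * g * (z ^ n)⁻¹) :=
      evP_comm z k _ (fun i => (h n i).symm) n
    have h2 : z ^ n * (g * k) * (z ^ n)⁻¹ =
        (z ^ n * g * (z ^ n)⁻¹) * (z ^ n * k * (z ^ n)⁻¹) := by group
    rw [h2]
    calc evP z g n * evP z k n * ((z ^ n * g * (z ^ n)⁻¹) * (z ^ n * k * (z ^ n)⁻¹))
        = evP z g n * (evP z k n * (z ^ n * g * (z ^ n)⁻¹)) * (z ^ n * k * (z ^ n)⁻¹) := by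
          simp only [mul_assoc]
      _ = evP z g n * ((z ^ n * g * (z ^ n)⁻¹) * evP z k n) * (z ^ n * k * (z ^ n)⁻¹) := by
          rw [h1.eq]
      _ = _ := by simp only [mul_assoc]

private lemma evP_one {F : Type} [Group F] (z : F) (n : ℕ) : evP z 1 n = 1 := by
  simp [evP]

private lemma evP_of_comm {F : Type} [Group F] (z g : F) (h : Commute g z) (n : ℕ) :
    evP z g n = g ^ n := by
  rw [evP, h.mul_pow]; group

private lemma ev_eq_one_of_coprime {F : Type} [Group F] (g : F) {m n : ℕ} (h : Nat.Coprime m n)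
    (hm : g ^ m = 1) (hn : g ^ n = 1) : g = 1 := by
  have h1 : orderOf g ∣ m := orderOf_dvd_of_pow_eq_one hm
  have h2 : orderOf g ∣ n := orderOf_dvd_of_pow_eq_one hn
  have h3 : orderOf g ∣ 1 := by
    have := Nat.dvd_gcd h1 h2
    rwa [Nat.Coprime.gcd_eq_one h] at this
  exact orderOf_eq_one_iff.1 (Nat.dvd_one.1 h3)

/-- The commutator of `x` and `s`: second part, the elements of Lemma Q.

Proof. `n₀ = ∏ i < r, z ^ i d z ^ -i` (a product of commuting elements; it is `(d * z) ^ r` since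
`(d * z) ^ r = d (z d z⁻¹) (z ^ 2 d z ^ -2) ... z ^ r` and `z ^ r = 1`; induction:
`(d * z) ^ j = (d) (z d z⁻¹) ... (z ^ (j-1) d z ^ -(j-1)) z ^ j`). Put `n₀ = (d * z) ^ r`.
`n₀ ∈ Q` with `φ n₀ = ∑ i < r, ρ (z ^ i) (φ d) = 0`, so `n₀` commutes with `z` (`z ∈ R`) and all
elements of `Q`. `x d x⁻¹ = d⁻¹` (`x ^ 2 = 1`). The subgroup generated by the `d_i = z ^ i d z ^ -i`
is commutative; `x d_i x⁻¹ = d_i⁻¹`, so `x n₀ x⁻¹ = n₀⁻¹`.
Let `l` with `r * l ≡ 1 mod 2 ^ a` (`r` odd), `c = n₀ ^ l`, `c ^ r = n₀` (`n₀ ^ (2 ^ a) = 1`);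
`c` commutes with `z` and with all elements of `Q`. `v = d * c⁻¹`.
* `φ c = 0`, so `φ v = φ d ≠ 0`, `v ≠ 1`.
* `z ^ i v z ^ -i = d_i c⁻¹`; they commute; `(v * z) ^ r = (d * z * c⁻¹) ^ r
  = (d * z) ^ r * c⁻¹ ^ r = n₀ n₀⁻¹ = 1` (`c` commutes with `d` and `z`).
* `v ^ 2 ∈ Q`, `φ (v ^ 2) = φ v + φ v = 0`, so `v ^ 2` commutes with `z` and `Q`;
  `(v ^ 2 * z) ^ r`: since the `v_i = z ^ i v z ^ -i` commute, `∏ v_i ^ 2 = (∏ v_i) ^ 2 = 1`, i.e.
  `(v ^ 2) ^ r = ∏ z ^ i v ^ 2 z ^ -i = 1`; and `(v ^ 2) ^ (2 ^ a) = 1`, so `v ^ 2 = 1`.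
* `x v x⁻¹ = d⁻¹ * c = (d * c⁻¹)⁻¹ = v⁻¹ = v` (`x c x⁻¹ = c⁻¹`, `c`, `d` commute).
* `v` commutes with `s` (`d` and `c` do).
* `s * x * s⁻¹ = x * d = x * v * c` (from `x * s * x⁻¹ = d * s`, `x ^ 2 = 1`: `s * x⁻¹ * s⁻¹ =
  x⁻¹ * d`). `z₂ = s * z * s⁻¹` commutes with `s * x * s⁻¹` and with `c = s * c * s⁻¹`, so with
  `x * v`. `z₂ ^ i v z₂ ^ -i = s (z ^ i v z ^ -i) s⁻¹`, `(v * z₂) ^ r = s (v * z) ^ r s⁻¹ = 1`. -/
theorem ev_M2 {F : Type} [Group F] {r a : ℕ} (hr : r.Prime) (hr2 : r ≠ 2) (Q R : Subgroup F)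
    [hQn : Q.Normal] (hQ : ∀ q ∈ Q, q ^ (2 ^ a) = 1)
    {V : Type} [AddCommGroup V] [Module (ZMod 2) V] (ρ : F →* Module.End (ZMod 2) V)
    (φ : Q → V) (hφa : ∀ x y, φ (x * y) = φ x + φ y)
    (hφρ : ∀ (g : F) (x : Q), φ ⟨g * x * g⁻¹, hQn.conj_mem _ x.2 g⟩ = ρ g (φ x))
    (hker : ∀ q : Q, φ q = 0 → (∀ g ∈ R, g * (q : F) = q * g) ∧ ∀ y ∈ Q, (q : F) * y = y * q)
    {x z : F} (hx : x ^ 2 = 1) (hz : z ^ r = 1) (hzR : z ∈ R) (hzx : z * x = x * z)
    (s d : Q) (hd : (d : F) = x * s * x⁻¹ * (s : F)⁻¹) (hds : (d : F) * s = s * d) (hd0 : φ d ≠ 0)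
    (hsum : ∑ i ∈ Finset.range r, ρ (z ^ i) (φ d) = 0)
    (hcomm : ∀ i j : ℕ, (z ^ i * (d : F) * (z ^ i)⁻¹) * (z ^ j * (d : F) * (z ^ j)⁻¹) =
        (z ^ j * (d : F) * (z ^ j)⁻¹) * (z ^ i * (d : F) * (z ^ i)⁻¹)) :
    ∃ v z₂ : F, v ^ 2 = 1 ∧ v ≠ 1 ∧ x * v = v * x ∧ z₂ ^ r = 1 ∧ z₂ * (x * v) = (x * v) * z₂ ∧
      (∀ i j : ℕ, (z ^ i * v * (z ^ i)⁻¹) * (z ^ j * v * (z ^ j)⁻¹) =
        (z ^ j * v * (z ^ j)⁻¹) * (z ^ i * v * (z ^ i)⁻¹)) ∧ (v * z) ^ r = 1 ∧
      (∀ i j : ℕ, (z₂ ^ i * v * (z₂ ^ i)⁻¹) * (z₂ ^ j * v * (z₂ ^ j)⁻¹) =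
        (z₂ ^ j * v * (z₂ ^ j)⁻¹) * (z₂ ^ i * v * (z₂ ^ i)⁻¹)) ∧ (v * z₂) ^ r = 1 := by
  classical
  -- basic facts
  have hcop : Nat.Coprime r (2 ^ a) :=
    Nat.Coprime.pow_right a ((Nat.coprime_primes hr Nat.prime_two).2 hr2)
  have hxinv : x⁻¹ = x := by
    have : x * x = 1 := by rw [← pow_two]; exact hx
    exact inv_eq_of_mul_eq_one_left this
  -- `φ` as a homomorphism
  let Φ : Q →* Multiplicative V := MonoidHom.mk' (fun q => Multiplicative.ofAdd (φ q))
    (fun p q => by rw [hφa]; rfl)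
  have hΦ : ∀ q, φ q = Multiplicative.toAdd (Φ q) := fun q => rfl
  have hφ1 : φ 1 = 0 := by rw [hΦ, map_one]; rfl
  have hφinv : ∀ q : Q, φ q⁻¹ = - φ q := fun q => by rw [hΦ, map_inv]; rfl
  have hφz : ∀ (q : Q) (k : ℤ), φ q = 0 → φ (q ^ k) = 0 := by
    intro q k hq
    rw [hΦ, map_zpow]
    have : Φ q = 1 := by
      have := hΦ q
      rw [hq] at this
      exact (Multiplicative.toAdd (α := V)).injective (this.symm.trans rfl)
    rw [this, one_zpow]; rfl
  -- the product of the conjugates of `d`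
  have hDmem : ∀ n : ℕ, evP z (d : F) n ∈ Q := by
    intro n
    induction n with
    | zero => rw [evP_zero]; exact Q.one_mem
    | succ n ih => rw [evP_succ]; exact Q.mul_mem ih (hQn.conj_mem _ d.2 _)
  have hφP : ∀ n : ℕ, φ ⟨evP z (d : F) n, hDmem n⟩ = ∑ i ∈ Finset.range n, ρ (z ^ i) (φ d) := by
    intro n
    induction n with
    | zero =>
      have : (⟨evP z (d : F) 0, hDmem 0⟩ : Q) = 1 := Subtype.ext (evP_zero z _)
      rw [this, hφ1]; simp
    | succ n ih =>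
      have : (⟨evP z (d : F) (n + 1), hDmem (n + 1)⟩ : Q) =
          ⟨evP z (d : F) n, hDmem n⟩ * ⟨z ^ n * d * (z ^ n)⁻¹, hQn.conj_mem _ d.2 (z ^ n)⟩ :=
        Subtype.ext (evP_succ z _ n)
      rw [this, hφa, ih, hφρ, Finset.sum_range_succ]
  obtain ⟨n₀, hn₀⟩ : ∃ n₀ : Q, (n₀ : F) = evP z (d : F) r := ⟨⟨_, hDmem r⟩, rfl⟩
  have hn₀φ : φ n₀ = 0 := by
    have : n₀ = ⟨evP z (d : F) r, hDmem r⟩ := Subtype.ext hn₀
    rw [this, hφP, hsum]
  -- `x d x⁻¹ = d⁻¹`
  have hxd : x * (d : F) * x⁻¹ = (d : F)⁻¹ := by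
    have hx2 : x * x = 1 := by rw [← pow_two]; exact hx
    rw [hd, hxinv]
    simp only [mul_inv_rev, inv_inv, hxinv]
    calc x * (x * (s : F) * x * (s : F)⁻¹) * x = (x * x) * ((s : F) * x * (s : F)⁻¹ * x) := by
          simp only [mul_assoc]
      _ = _ := by rw [hx2, one_mul]; simp only [mul_assoc]
  have hDcomm : ∀ i j : ℕ, Commute (z ^ i * (d : F) * (z ^ i)⁻¹) (z ^ j * (d : F) * (z ^ j)⁻¹) :=
    hcomm
  have hDinv : evP z (d : F)⁻¹ r = (n₀ : F)⁻¹ := by
    have h1 : evP z ((d : F)⁻¹ * d) r = evP z (d : F)⁻¹ r * evP z (d : F) r := by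
      apply evP_mul
      intro i j
      have := (hDcomm i j).inv_left
      convert this using 1
      group
    rw [inv_mul_cancel, evP_one, ← hn₀] at h1
    exact eq_inv_of_mul_eq_one_left h1.symm
  have hxn : x * (n₀ : F) * x⁻¹ = (n₀ : F)⁻¹ := by
    rw [← hDinv, hn₀]
    simp only [evP, hz, inv_one, mul_one]
    rw [← conj_pow]
    congr 1
    have : x * ((d : F) * z) * x⁻¹ = (x * (d : F) * x⁻¹) * (x * z * x⁻¹) := by group
    rw [this, hxd, ← hzx]
    group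
  -- the root `c`
  obtain ⟨u, w, huw⟩ : ∃ u w : ℤ, (r : ℤ) * u + (2 ^ a : ℕ) * w = 1 := by
    have h := Nat.isCoprime_iff_coprime.2 hcop
    obtain ⟨p, q, hpq⟩ := h
    exact ⟨p, q, by rw [← hpq]; ring⟩
  obtain ⟨c, hc⟩ : ∃ c : Q, c = n₀ ^ u := ⟨_, rfl⟩
  have hcφ : φ c = 0 := by rw [hc]; exact hφz n₀ u hn₀φ
  have hcr : (c : F) ^ r = n₀ := by
    have h2 : (n₀ : F) ^ (2 ^ a) = 1 := hQ _ n₀.2
    have h1 : (n₀ : F) ^ ((r : ℤ) * u + (2 ^ a : ℕ) * w) = n₀ := by rw [huw, zpow_one]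
    rw [zpow_add, zpow_mul (n₀ : F) ((2 ^ a : ℕ) : ℤ), zpow_natCast, h2, one_zpow, mul_one] at h1
    rw [hc, Subgroup.coe_zpow, ← zpow_natCast, ← zpow_mul, mul_comm u]
    exact h1
  obtain ⟨hcR, hcQ⟩ := hker c hcφ
  have hcz : Commute (c : F) z := (hcR z hzR).symm
  have hxc : x * (c : F) * x⁻¹ = (c : F)⁻¹ := by
    rw [hc, Subgroup.coe_zpow, ← conj_zpow, hxn, inv_zpow]
  -- the element `v`
  obtain ⟨v, hv⟩ : ∃ v : Q, v = d * c⁻¹ := ⟨_, rfl⟩
  have hvF : (v : F) = d * (c : F)⁻¹ := by rw [hv]; rfl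
  have hφv : φ v = φ d := by rw [hv, hφa, hφinv, hcφ, neg_zero, add_zero]
  have hv1 : (v : F) ≠ 1 := by
    intro h
    apply hd0
    rw [← hφv]
    have : v = 1 := Subtype.ext h
    rw [this, hφ1]
  have hcD : ∀ i : ℕ, Commute (z ^ i * (d : F) * (z ^ i)⁻¹) (c : F)⁻¹ := by
    intro i
    have := hcQ _ (hQn.conj_mem _ d.2 (z ^ i))
    exact (Commute.inv_left (show Commute (c : F) _ from this)).symm
  have hcz' : ∀ i : ℕ, z ^ i * (c : F)⁻¹ * (z ^ i)⁻¹ = (c : F)⁻¹ := by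
    intro i
    have h : Commute (z ^ i) (c : F)⁻¹ := (hcz.symm.pow_left i).inv_right
    rw [h.eq, mul_inv_cancel_right]
  have hvi : ∀ i : ℕ, z ^ i * (v : F) * (z ^ i)⁻¹ = (z ^ i * (d : F) * (z ^ i)⁻¹) * (c : F)⁻¹ := by
    intro i
    have : z ^ i * (v : F) * (z ^ i)⁻¹ =
        (z ^ i * (d : F) * (z ^ i)⁻¹) * (z ^ i * (c : F)⁻¹ * (z ^ i)⁻¹) := by
      rw [hvF]; group
    rw [this, hcz']
  have hvcomm : ∀ i j : ℕ, Commute (z ^ i * (v : F) * (z ^ i)⁻¹) (z ^ j * (v : F) * (z ^ j)⁻¹) := by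
    intro i j
    rw [hvi, hvi]
    exact ((hDcomm i j).mul_right (hcD i)).mul_left
      ((hcD j).symm.mul_right (Commute.refl _))
  have hvP : evP z (v : F) r = 1 := by
    rw [hvF, evP_mul z (d : F) (c : F)⁻¹ (fun i j => by rw [hcz']; exact hcD i),
      evP_of_comm z _ hcz.inv_left, inv_pow, hcr, hn₀, mul_inv_cancel]
  have hvz : ((v : F) * z) ^ r = 1 := by
    have := hvP
    simpa [evP, hz] using this
  -- `v ^ 2 = 1`
  have hv2 : (v : F) ^ 2 = 1 := by
    have hφ2 : φ (v * v) = 0 := by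
      rw [hφa]
      have h2 : (2 : ZMod 2) • φ v = φ v + φ v := by
        rw [show (2 : ZMod 2) = 1 + 1 by norm_num, add_smul, one_smul]
      rw [← h2, show (2 : ZMod 2) = 0 from rfl, zero_smul]
    obtain ⟨h1, _⟩ := hker _ hφ2
    have h2 : Commute ((v : F) * v) z := (h1 z hzR).symm
    have h3 : evP z ((v : F) * v) r = ((v : F) * v) ^ r := evP_of_comm z _ h2 r
    rw [evP_mul z (v : F) v hvcomm, hvP, one_mul] at h3
    have h4 : ((v : F) * v) ^ (2 ^ a) = 1 := hQ _ (Q.mul_mem v.2 v.2)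
    rw [pow_two]
    exact ev_eq_one_of_coprime _ hcop h3.symm h4
  have hvinv : (v : F)⁻¹ = v := by
    have : (v : F) * v = 1 := by rw [← pow_two]; exact hv2
    exact inv_eq_of_mul_eq_one_left this
  -- `x v = v x`
  have hxv : x * (v : F) = v * x := by
    have h1 : x * (v : F) * x⁻¹ = v := by
      have h2 : x * (v : F) * x⁻¹ = (x * (d : F) * x⁻¹) * (x * (c : F) * x⁻¹)⁻¹ := by
        rw [hvF]; group
      have h3 : Commute (c : F) (d : F)⁻¹ := Commute.inv_right (show Commute (c : F) d from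
        hcQ _ d.2)
      rw [h2, hxd, hxc, inv_inv, ← h3.eq]
      have h4 : (c : F) * (d : F)⁻¹ = (v : F)⁻¹ := by rw [hvF]; group
      rw [h4, hvinv]
    have := congrArg (· * x) h1
    simpa using this
  -- the second element
  have hvs : Commute (v : F) s := by
    rw [hvF]
    exact Commute.mul_left hds (Commute.inv_left (show Commute (c : F) s from hcQ _ s.2))
  have hconj : ∀ g : F, (s : F) * (g * z) * (s : F)⁻¹ = (s * g * (s : F)⁻¹) * (s * z * (s : F)⁻¹) := by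
    intro g; group
  have hsv : (s : F) * v * (s : F)⁻¹ = v := by rw [← hvs.eq, mul_inv_cancel_right]
  refine ⟨v, s * z * (s : F)⁻¹, hv2, hv1, hxv, ?_, ?_, hvcomm, hvz, ?_, ?_⟩
  · rw [conj_pow, hz]; group
  · have h1 : (s : F) * x * (s : F)⁻¹ = x * d := by
      have : x⁻¹ * (d : F) = (s : F) * x⁻¹ * (s : F)⁻¹ := by rw [hd]; group
      rw [hxinv] at this
      exact this.symm
    have h2 : x * (v : F) = (s : F) * (x * (c : F)⁻¹) * (s : F)⁻¹ := by
      have h3 : Commute (c : F)⁻¹ (s : F)⁻¹ :=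
        ((show Commute (c : F) s from hcQ _ s.2).inv_left).inv_right
      rw [hvF, ← mul_assoc, ← h1]
      simp only [mul_assoc]
      rw [h3.eq]
    have h4 : Commute z (x * (c : F)⁻¹) :=
      Commute.mul_right hzx (hcz.symm.inv_right)
    rw [h2]
    have h5 : (s : F) * z * (s : F)⁻¹ * ((s : F) * (x * (c : F)⁻¹) * (s : F)⁻¹) =
        (s : F) * (z * (x * (c : F)⁻¹)) * (s : F)⁻¹ := by group
    have h6 : (s : F) * (x * (c : F)⁻¹) * (s : F)⁻¹ * ((s : F) * z * (s : F)⁻¹) =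
        (s : F) * ((x * (c : F)⁻¹) * z) * (s : F)⁻¹ := by group
    rw [h5, h6, h4.eq]
  · have key : ∀ i : ℕ, ((s : F) * z * (s : F)⁻¹) ^ i * (v : F) * (((s : F) * z * (s : F)⁻¹) ^ i)⁻¹ =
        (s : F) * (z ^ i * (v : F) * (z ^ i)⁻¹) * (s : F)⁻¹ := by
      intro i
      rw [conj_pow]
      calc (s : F) * z ^ i * (s : F)⁻¹ * (v : F) * ((s : F) * z ^ i * (s : F)⁻¹)⁻¹
          = (s : F) * z ^ i * (s : F)⁻¹ * ((s : F) * v * (s : F)⁻¹) *
            ((s : F) * z ^ i * (s : F)⁻¹)⁻¹ := by rw [hsv]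
        _ = _ := by group
    intro i j
    rw [key, key]
    have h5 : ∀ g k : F, (s : F) * g * (s : F)⁻¹ * ((s : F) * k * (s : F)⁻¹) =
        (s : F) * (g * k) * (s : F)⁻¹ := by intro g k; group
    rw [h5, h5, (hvcomm i j).eq]
  · have h5 : (v : F) * ((s : F) * z * (s : F)⁻¹) = (s : F) * (v * z) * (s : F)⁻¹ := by
      rw [hconj, hsv]
    rw [h5, conj_pow, hvz]; group

end Pool.Agent.Lib.MP_544bd1_al
end
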