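import Mathlib

section

/-!
# Symmetrised products in rings
-/

namespace Pool.Agent.Lib.MP_544bd1_al.E5

section

variable {R : Type*} [Ring R]

/-- the sum of all products of `a`, `b` in any order -/
def s2 (a b : R) : R := a * b + b * a

/-- the sum of all products of `a`, `b`, `c` in any order -/
def s3 (a b c : R) : R := s2 a b * c + s2 a c * b + s2 b c * a

/-- the sum of all products of `a`, `b`, `c`, `d` in any order -/
def s4 (a b c d : R) : R := s3 a b c * d + s3 a b d * c + s3 a c d * b + s3 b c d * a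

/-- the symmetrisation of `a q b c` in `a`, `b`, `c` -/
def t3 (a b c q : R) : R := a * q * s2 b c + b * q * s2 a c + c * q * s2 a b

/-- the symmetrisation of `a q b c d` in `a`, `b`, `c`, `d` -/
def t4 (a b c d q : R) : R :=
  a * q * s3 b c d + b * q * s3 a c d + c * q * s3 a b d + d * q * s3 a b c

/-- the symmetrisation of `a b q c` in `a`, `b`, `c` -/
def e5 (q a b c : R) : R := s2 a b * q * c + s2 a c * q * b + s2 b c * q * a

/-- the symmetrisation of `a b c q d` in `a`, `b`, `c`, `d` -/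
def e6 (q a b c d : R) : R :=
  s3 a b c * q * d + s3 a b d * q * c + s3 a c d * q * b + s3 b c d * q * a

theorem s3_eq (a b c : R) : s3 a b c =
    (a + b + c) ^ 3 - (a + b) ^ 3 - (a + c) ^ 3 - (b + c) ^ 3 + a ^ 3 + b ^ 3 + c ^ 3 := by
  simp only [s3, s2]
  noncomm_ring

set_option maxHeartbeats 4000000 in
theorem s4_eq (a b c d : R) : s4 a b c d =
    (a + b + c + d) ^ 4 - (a + b + c) ^ 4 - (a + b + d) ^ 4 - (a + c + d) ^ 4 - (b + c + d) ^ 4
    + (a + b) ^ 4 + (a + c) ^ 4 + (a + d) ^ 4 + (b + c) ^ 4 + (b + d) ^ 4 + (c + d) ^ 4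
    - a ^ 4 - b ^ 4 - c ^ 4 - d ^ 4 := by
  simp only [s4, s3, s2]
  noncomm_ring

theorem e5_eq (q a b c : R) : e5 q a b c =
    (a + b + c) ^ 2 * q * (a + b + c) - (a + b) ^ 2 * q * (a + b) - (a + c) ^ 2 * q * (a + c)
    - (b + c) ^ 2 * q * (b + c) + a ^ 2 * q * a + b ^ 2 * q * b + c ^ 2 * q * c := by
  simp only [e5, s2]
  noncomm_ring

set_option maxHeartbeats 4000000 in
theorem e6_eq (q a b c d : R) : e6 q a b c d =
    (a + b + c + d) ^ 3 * q * (a + b + c + d)
    - (a + b + c) ^ 3 * q * (a + b + c) - (a + b + d) ^ 3 * q * (a + b + d)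
    - (a + c + d) ^ 3 * q * (a + c + d) - (b + c + d) ^ 3 * q * (b + c + d)
    + (a + b) ^ 3 * q * (a + b) + (a + c) ^ 3 * q * (a + c) + (a + d) ^ 3 * q * (a + d)
    + (b + c) ^ 3 * q * (b + c) + (b + d) ^ 3 * q * (b + d) + (c + d) ^ 3 * q * (c + d)
    - a ^ 3 * q * a - b ^ 3 * q * b - c ^ 3 * q * c - d ^ 3 * q * d := by
  simp only [e6, s3, s2]
  noncomm_ring

/-- commutator -/
def br (a b : R) : R := a * b - b * a

/-- `Σ [[q, x], x]` over the two orders of `a`, `b` -/
def D2 (q a b : R) : R := br (br q a) b + br (br q b) a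

/-- `Σ [[[q, x], x], x]` over the six orders of `a`, `b`, `c` -/
def D3 (q a b c : R) : R :=
  br (D2 q a b) c + br (D2 q a c) b + br (D2 q b c) a

set_option maxHeartbeats 4000000 in
theorem t4_aux (q a b c d : R) : t4 a b c d q =
    (e6 q a b c d - (D3 q a b c * d + D3 q a b d * c + D3 q a c d * b + D3 q b c d * a))
    - 2 * (s4 q a b c * d + s4 q a b d * c + s4 q a c d * b + s4 q b c d * a)
    + 3 * (q * s4 a b c d)
    + 5 * (s2 a b * q * s2 c d + s2 a c * q * s2 b d + s2 a d * q * s2 b c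
      + s2 b c * q * s2 a d + s2 b d * q * s2 a c + s2 c d * q * s2 a b) := by
  simp only [t4, e6, D3, D2, br, s4, s3, s2]
  noncomm_ring

theorem t3_aux (q a b c : R) : t3 a b c q =
    3 * ((D2 q a b * c + D2 q a c * b + D2 q b c * a) - e5 q a b c) * (-1)
    + 3 * (q * s3 a b c) - 5 * t3 a b c q := by
  simp only [t3, e5, D2, br, s3, s2]
  noncomm_ring

/-- the operator form of the law `[v, u, u, u, v, u]` and the Engel identity give
`Σ x q x x x = 0` -/
theorem t4_of_e6 (h5 : (5 : R) = 0) (q a b c d : R)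
    (h0 : s4 a b c d = 0) (h1 : s4 q a b c = 0) (h2 : s4 q a b d = 0) (h3 : s4 q a c d = 0)
    (h4 : s4 q b c d = 0)
    (h : e6 q a b c d = D3 q a b c * d + D3 q a b d * c + D3 q a c d * b + D3 q b c d * a) :
    t4 a b c d q = 0 := by
  rw [t4_aux, h, h0, h1, h2, h3, h4, h5]
  simp

theorem t3_of_e5 (h5 : (5 : R) = 0) (q a b c : R) (h0 : s3 a b c = 0)
    (h : e5 q a b c = D2 q a b * c + D2 q a c * b + D2 q b c * a) :
    t3 a b c q = 0 := by
  rw [t3_aux, h, h0, h5]
  simp

end

end Pool.Agent.Lib.MP_544bd1_al.E5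
end

section

/-!
Even exponents, squares of Mersenne primes: the element `X₀`.
-/

namespace Pool.Agent.Lib.MP_544bd1_al

open Finset Subgroup

/-- **The element `X₀`.** `Γ` a finite group of odd order of units of a ring `E` with `2 = 0`, of
class 2, `X` an involution normalizing `Γ`, centralizing the center of `Γ` and inverting `Γ` modulo
its center; central elements `≠ 1` have no fixed points. `I = {g ∈ Γ | X * g * X⁻¹ = g⁻¹}`,
`X₀ = ∑ g ∈ I, g`.

Proof. Let `s = (N + 1) / 2`, so `(g ^ s) ^ 2 = g` for `g ∈ Γ`. Take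
`ι = {g : Eˣ // g ∈ Γ ∧ X * g * X⁻¹ = g⁻¹}` (finite), `γ` the inclusion. `g ∈ I → g⁻¹ ∈ I`, `g ^ k ∈ I`;
`σ, τ ∈ I → σ * τ * σ ∈ I`; an injective map `I → I` is bijective (`Finset.sum_bij`,
`Function.Bijective.sum_comp`, `Equiv.sum_comp`).
(1) For `σ ∈ I`: `σ * X₀ * σ = X₀` (bijection `τ ↦ σ * τ * σ`). So `X₀ * σ = σ⁻¹ * X₀` and
  `σ * (σ * X₀) = σ * X₀ * σ⁻¹`.
(2) `∑ g : I, (1 : E) = 1`: `Finset.sum_involution` for `g ↦ g⁻¹` on `I \ {1}` (`1 + 1 = 0`; `g⁻¹ = g`
  implies `g ^ 2 = 1`, `g = 1`).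
(3) `X₀ * X₀ = ∑ τ, τ * X₀ = ∑ σ, σ * σ * X₀` (bijection `σ ↦ σ ^ 2` of `I`)
  `= ∑ σ, σ * X₀ * σ⁻¹ = ∑ κ, ∑ σ, σ * κ * σ⁻¹ = ∑ κ, κ * S κ`,
  `S κ = ∑ σ, c κ σ`, `c κ σ = κ⁻¹ * σ * κ * σ⁻¹`, a central element of `Γ` (class 2), and
  `c κ (σ * τ) = c κ σ * c κ τ` for `σ, τ ∈ Γ`. `S 1 = ∑ 1 = 1` by (2). Let `κ ∈ I`, `κ ≠ 1`. Then
  `κ` is not central in `Γ` (otherwise `X * κ = κ * X`, `κ = κ⁻¹`, `κ = 1`): `κ * y ≠ y * κ` for
  some `y ∈ Γ`. Let `h = (X * y * X⁻¹)⁻¹ * y ∈ I`; `h = ζ⁻¹ * y ^ 2` with `ζ = X * y * X⁻¹ * y`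
  central. If `κ` commuted with `h` it would commute with `y ^ 2` and so with `y = (y ^ 2) ^ s`. So
  `c κ h ≠ 1`. Let `σ₁ = h ^ s ∈ I`, `σ₁ ^ 2 = h`. By the bijection `σ ↦ σ₁ * σ * σ₁` of `I`
  `S κ = ∑ σ, c κ (σ₁ * σ * σ₁) = c κ h * S κ`, so `S κ = 0` by `hfix`. Hence `X₀ * X₀ = 1`.
(4) For `σ ∈ I`: `σ * X = X * σ⁻¹`, so `σ * (X * X₀) = X * σ⁻¹ * X₀ = X * X₀ * σ`. For `y ∈ Γ` with
  `h`, `ζ` as in (3) (`y` arbitrary): `y ^ 2 = ζ * h`, `ζ` commutes with `X` (`hZX`) and with all
  elements of `Γ`, `h ∈ I`: so `y ^ 2` commutes with `X * X₀`, and so does `y = (y ^ 2) ^ s`.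
(5) If `u` commutes with `X` and `u * g * u⁻¹ ∈ Γ` for `g ∈ Γ`, then `g ↦ u * g * u⁻¹` is an injective
  map `I → I`, so bijective: `u * X₀ * u⁻¹ = X₀`. (In particular for `u = X`.) -/
theorem ev_X0 {E : Type} [Ring E] (h2 : (1 : E) + 1 = 0) (Γ : Subgroup Eˣ) [Finite Γ] {N : ℕ}
    (hN : Odd N) (hΓ : ∀ g ∈ Γ, g ^ N = 1) (X : Eˣ) (hX : X ^ 2 = 1)
    (hXΓ : ∀ g ∈ Γ, X * g * X⁻¹ ∈ Γ)
    (hZX : ∀ g ∈ Γ, (∀ y ∈ Γ, g * y = y * g) → X * g = g * X)
    (hinv : ∀ g ∈ Γ, ∀ y ∈ Γ, (X * g * X⁻¹ * g) * y = y * (X * g * X⁻¹ * g))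
    (hcl : ∀ x ∈ Γ, ∀ y ∈ Γ, ∀ w ∈ Γ, (x * y * x⁻¹ * y⁻¹) * w = w * (x * y * x⁻¹ * y⁻¹))
    (hfix : ∀ ζ ∈ Γ, (∀ y ∈ Γ, ζ * y = y * ζ) → ζ ≠ 1 → ∀ A : E, (ζ : E) * A = A → A = 0) :
    ∃ (ι : Type) (_ : Fintype ι) (γ : ι → Eˣ) (X₀ : E), (∀ i, γ i ∈ Γ) ∧
      (∑ i, (γ i : E) = X₀) ∧ (∑ i, (((γ i)⁻¹ : Eˣ) : E) = X₀) ∧ X₀ * X₀ = 1 ∧
      (∀ y ∈ Γ, (X : E) * X₀ * y = y * ((X : E) * X₀)) ∧
      ∀ u : Eˣ, u * X = X * u → (∀ g ∈ Γ, u * g * u⁻¹ ∈ Γ) → (u : E) * X₀ = X₀ * u := by
  classical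
  obtain ⟨t, ht⟩ := hN
  have hroot : ∀ g ∈ Γ, (g ^ 2) ^ (t + 1) = g := by
    intro g hg
    rw [← pow_mul, show 2 * (t + 1) = N + 1 by omega, pow_succ, hΓ g hg, one_mul]
  have hXX : X * X = 1 := by rw [← pow_two]; exact hX
  let I : Set Eˣ := {g | g ∈ Γ ∧ X * g * X⁻¹ = g⁻¹}
  have hIΓ : ∀ g ∈ I, g ∈ Γ := fun g hg => hg.1
  have hIX : ∀ g ∈ I, X * g * X⁻¹ = g⁻¹ := fun g hg => hg.2
  have hI1 : (1 : Eˣ) ∈ I := ⟨Γ.one_mem, by simp⟩
  have hIinv : ∀ g ∈ I, g⁻¹ ∈ I := fun g hg => ⟨Γ.inv_mem hg.1, by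
    calc X * g⁻¹ * X⁻¹ = (X * g * X⁻¹)⁻¹ := by group
      _ = g⁻¹⁻¹ := by rw [hg.2]⟩
  have hIpow : ∀ g ∈ I, ∀ k : ℕ, g ^ k ∈ I := fun g hg k =>
    ⟨Γ.pow_mem hg.1 k, by rw [← conj_pow, hg.2, inv_pow]⟩
  have hIsand : ∀ σ ∈ I, ∀ τ ∈ I, σ * τ * σ ∈ I := fun σ hσ τ hτ =>
    ⟨Γ.mul_mem (Γ.mul_mem hσ.1 hτ.1) hσ.1, by
      calc X * (σ * τ * σ) * X⁻¹ = (X * σ * X⁻¹) * (X * τ * X⁻¹) * (X * σ * X⁻¹) := by group
        _ = (σ * τ * σ)⁻¹ := by rw [hσ.2, hτ.2]; group⟩
  have hfin : Finite I := Finite.Set.subset (Γ : Set Eˣ) fun g hg => hg.1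
  let hft : Fintype I := Fintype.ofFinite I
  have bij : ∀ (f : Eˣ → Eˣ) (_ : ∀ g ∈ I, f g ∈ I)
      (_ : ∀ g ∈ I, ∀ g' ∈ I, f g = f g' → g = g') (F : Eˣ → E),
      ∑ i : I, F (f i) = ∑ i : I, F i := by
    intro f hf hinj F
    let f' : I → I := fun i => ⟨f i, hf i i.2⟩
    have h1 : Function.Bijective f' := Finite.injective_iff_bijective.1 fun i j h =>
      Subtype.ext (hinj i i.2 j j.2 (congrArg Subtype.val h))
    exact h1.sum_comp fun i : I => F i
  obtain ⟨X₀, hX₀⟩ : ∃ X₀ : E, X₀ = ∑ i : I, ((i : Eˣ) : E) := ⟨_, rfl⟩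
  have hX₀inv : ∑ i : I, (((i : Eˣ)⁻¹ : Eˣ) : E) = X₀ := by
    rw [hX₀]
    exact bij (fun g => g⁻¹) hIinv (fun _ _ _ _ h => inv_injective h) fun g => (g : E)
  -- (1)
  have h1 : ∀ σ ∈ I, (σ : E) * X₀ * σ = X₀ := by
    intro σ hσ
    calc (σ : E) * X₀ * σ = ∑ i : I, ((σ * i * σ : Eˣ) : E) := by
          rw [hX₀, Finset.mul_sum, Finset.sum_mul]
          exact Finset.sum_congr rfl fun i _ => by rw [Units.val_mul, Units.val_mul]
      _ = ∑ i : I, ((i : Eˣ) : E) := bij (fun g => σ * g * σ) (hIsand σ hσ)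
          (fun g _ g' _ h => mul_left_cancel (mul_right_cancel h)) fun g => (g : E)
      _ = X₀ := hX₀.symm
  have h1' : ∀ σ ∈ I, X₀ * σ = ((σ⁻¹ : Eˣ) : E) * X₀ := by
    intro σ hσ
    calc X₀ * σ = ((σ⁻¹ : Eˣ) : E) * (σ * X₀ * σ) := by
          rw [mul_assoc, Units.inv_mul_cancel_left]
      _ = ((σ⁻¹ : Eˣ) : E) * X₀ := by rw [h1 σ hσ]
  -- (2)
  have hone : ∀ g ∈ Γ, g ^ 2 = 1 → g = 1 := by
    intro g hg h
    rw [← hroot g hg, h, one_pow]
  have hsum1 : ∑ _i : I, (1 : E) = 1 := by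
    rw [← Finset.add_sum_erase Finset.univ (fun _ : I => (1 : E)) (Finset.mem_univ ⟨1, hI1⟩),
      Finset.sum_involution (fun (a : I) _ => (⟨(a : Eˣ)⁻¹, hIinv a a.2⟩ : I))
        (fun _ _ => h2) ?_ ?_ ?_, add_zero]
    · intro a ha _ h
      have h3 : (a : Eˣ)⁻¹ = a := congrArg Subtype.val h
      have h4 : (a : Eˣ) = 1 := by
        apply hone _ a.2.1
        rw [pow_two]
        nth_rewrite 1 [← h3]
        exact inv_mul_cancel _
      exact (Finset.ne_of_mem_erase ha) (Subtype.ext h4)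
    · intro a ha
      refine Finset.mem_erase.2 ⟨fun h => (Finset.ne_of_mem_erase ha) (Subtype.ext ?_),
        Finset.mem_univ _⟩
      have h3 : (a : Eˣ)⁻¹ = 1 := congrArg Subtype.val h
      exact inv_eq_one.1 h3
    · intro a ha
      exact Subtype.ext (inv_inv _)
  -- commutators
  let c : Eˣ → Eˣ → Eˣ := fun κ σ => κ⁻¹ * σ * κ * σ⁻¹
  have hc : ∀ κ σ, c κ σ = κ⁻¹ * σ * κ * σ⁻¹ := fun _ _ => rfl
  have hcΓ : ∀ κ ∈ Γ, ∀ σ ∈ Γ, c κ σ ∈ Γ := fun κ hκ σ hσ =>
    Γ.mul_mem (Γ.mul_mem (Γ.mul_mem (Γ.inv_mem hκ) hσ) hκ) (Γ.inv_mem hσ)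
  have hcc : ∀ κ ∈ Γ, ∀ σ ∈ Γ, ∀ w ∈ Γ, c κ σ * w = w * c κ σ := by
    intro κ hκ σ hσ w hw
    have h3 := hcl κ⁻¹ (Γ.inv_mem hκ) σ hσ w hw
    rwa [inv_inv] at h3
  have hcm : ∀ κ ∈ Γ, ∀ σ ∈ Γ, ∀ τ ∈ Γ, c κ (σ * τ) = c κ σ * c κ τ := by
    intro κ hκ σ hσ τ hτ
    calc c κ (σ * τ) = κ⁻¹ * σ * κ * (c κ τ * σ⁻¹) := by rw [hc, hc]; group
      _ = κ⁻¹ * σ * κ * (σ⁻¹ * c κ τ) := by rw [hcc κ hκ τ hτ σ⁻¹ (Γ.inv_mem hσ)]
      _ = c κ σ * c κ τ := by rw [hc κ σ]; group
  -- the elements h and ζ of y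
  have hy : ∀ y ∈ Γ, ∃ h ∈ I, ∃ ζ ∈ Γ, (∀ w ∈ Γ, ζ * w = w * ζ) ∧ y ^ 2 = ζ * h := by
    intro y hyΓ
    have hXy := hXΓ y hyΓ
    have hζΓ : X * y * X⁻¹ * y ∈ Γ := Γ.mul_mem hXy hyΓ
    have hζc := hinv y hyΓ
    refine ⟨(X * y * X⁻¹)⁻¹ * y, ⟨Γ.mul_mem (Γ.inv_mem hXy) hyΓ, ?_⟩, X * y * X⁻¹ * y, hζΓ, hζc,
      ?_⟩
    · have hXi : X⁻¹ = X := inv_eq_of_mul_eq_one_left hXX
      calc X * ((X * y * X⁻¹)⁻¹ * y) * X⁻¹ = X * X * (y⁻¹ * X⁻¹ * y * X⁻¹) := by
            simp only [mul_inv_rev, inv_inv, mul_assoc]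
        _ = y⁻¹ * X * y * X⁻¹ := by rw [hXX, one_mul, hXi]
        _ = ((X * y * X⁻¹)⁻¹ * y)⁻¹ := by simp only [mul_inv_rev, inv_inv, mul_assoc]
    · have h3 := hζc (X * y * X⁻¹)⁻¹ (Γ.inv_mem hXy)
      calc y ^ 2 = (X * y * X⁻¹)⁻¹ * (X * y * X⁻¹ * y) * y := by rw [pow_two]; group
        _ = X * y * X⁻¹ * y * ((X * y * X⁻¹)⁻¹ * y) := by rw [← h3, mul_assoc]
  -- (3)
  have hS : ∀ κ ∈ I, κ ≠ 1 → ∑ σ : I, ((c κ σ : Eˣ) : E) = 0 := by
    intro κ hκ hne
    have hnc : ∃ y ∈ Γ, κ * y ≠ y * κ := by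
      by_contra hcon
      push Not at hcon
      have h3 := hZX κ hκ.1 hcon
      have h4 : X * κ * X⁻¹ = κ := by rw [h3, mul_inv_cancel_right]
      rw [hκ.2] at h4
      apply hne
      apply hone κ hκ.1
      rw [pow_two]
      nth_rewrite 1 [← h4]
      exact inv_mul_cancel _
    obtain ⟨y, hyΓ, hyne⟩ := hnc
    obtain ⟨h, hhI, ζ, hζΓ, hζc, hyy⟩ := hy y hyΓ
    have hch : c κ h ≠ 1 := by
      intro h3
      apply hyne
      have h4 : h * κ = κ * h := by
        rw [hc] at h3
        calc h * κ = κ * (κ⁻¹ * h * κ * h⁻¹) * h := by group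
          _ = κ * h := by rw [h3, mul_one]
      have h5 : Commute κ (y ^ 2) := by
        rw [hyy]
        exact Commute.mul_right (hζc κ hκ.1).symm h4.symm
      have h6 := h5.pow_right (t + 1)
      rw [hroot y hyΓ] at h6
      exact h6
    have hσ₁ : h ^ (t + 1) ∈ I := hIpow h hhI _
    have hσ₁2 : h ^ (t + 1) * h ^ (t + 1) = h := by
      rw [← pow_two, ← pow_mul, mul_comm, pow_mul, hroot h hhI.1]
    apply hfix (c κ h) (hcΓ κ hκ.1 h hhI.1) (hcc κ hκ.1 h hhI.1) hch
    have h3 : ∀ σ ∈ I, c κ (h ^ (t + 1) * σ * h ^ (t + 1)) = c κ h * c κ σ := by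
      intro σ hσ
      rw [hcm κ hκ.1 _ (Γ.mul_mem hσ₁.1 hσ.1) _ hσ₁.1, hcm κ hκ.1 _ hσ₁.1 _ hσ.1, mul_assoc,
        hcc κ hκ.1 σ hσ.1 _ (hcΓ κ hκ.1 _ hσ₁.1), ← mul_assoc, ← hcm κ hκ.1 _ hσ₁.1 _ hσ₁.1, hσ₁2]
    calc ((c κ h : Eˣ) : E) * ∑ σ : I, ((c κ σ : Eˣ) : E)
        = ∑ σ : I, ((c κ (h ^ (t + 1) * σ * h ^ (t + 1)) : Eˣ) : E) := by
          rw [Finset.mul_sum]
          refine Finset.sum_congr rfl fun σ _ => ?_
          rw [h3 σ σ.2]
          exact (Units.val_mul _ _).symm
      _ = ∑ σ : I, ((c κ σ : Eˣ) : E) := bij (fun g => h ^ (t + 1) * g * h ^ (t + 1))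
          (hIsand _ hσ₁) (fun g _ g' _ h => mul_left_cancel (mul_right_cancel h))
          fun g => ((c κ g : Eˣ) : E)
  have h3 : X₀ * X₀ = 1 := by
    calc X₀ * X₀ = ∑ τ : I, ((τ : Eˣ) : E) * X₀ := by
          nth_rewrite 1 [hX₀]
          rw [Finset.sum_mul]
      _ = ∑ σ : I, (((σ : Eˣ) ^ 2 : Eˣ) : E) * X₀ := by
          refine (bij (fun g => g ^ 2) (fun g hg => hIpow g hg 2) (fun g hg g' hg' h => ?_)
            fun g => (g : E) * X₀).symm
          rw [← hroot g hg.1, ← hroot g' hg'.1]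
          exact congrArg (fun z => z ^ (t + 1)) h
      _ = ∑ σ : I, ∑ κ : I, ((σ * κ * (σ : Eˣ)⁻¹ : Eˣ) : E) := by
          refine Finset.sum_congr rfl fun σ _ => ?_
          have e1 := h1' (σ : Eˣ)⁻¹ (hIinv σ σ.2)
          rw [inv_inv] at e1
          rw [pow_two, Units.val_mul, mul_assoc, ← e1, hX₀, Finset.sum_mul, Finset.mul_sum]
          exact Finset.sum_congr rfl fun κ _ => by
            rw [Units.val_mul, Units.val_mul, mul_assoc]
      _ = ∑ κ : I, ∑ σ : I, ((κ : Eˣ) : E) * ((c κ σ : Eˣ) : E) := by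
          rw [Finset.sum_comm]
          refine Finset.sum_congr rfl fun κ _ => Finset.sum_congr rfl fun σ _ => ?_
          rw [← Units.val_mul, hc]
          congr 1
          group
      _ = ∑ κ : I, ((κ : Eˣ) : E) * ∑ σ : I, ((c κ σ : Eˣ) : E) :=
          Finset.sum_congr rfl fun κ _ => by rw [Finset.mul_sum]
      _ = ((1 : Eˣ) : E) * ∑ σ : I, ((c 1 σ : Eˣ) : E) := by
          refine Finset.sum_eq_single (⟨1, hI1⟩ : I) (fun κ _ hκ => ?_) fun h =>
            absurd (Finset.mem_univ _) h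
          rw [hS κ κ.2 fun h => hκ (Subtype.ext h), mul_zero]
      _ = 1 := by
          rw [Units.val_one, one_mul]
          have e1 : ∀ σ : I, ((c 1 σ : Eˣ) : E) = 1 := by
            intro σ
            rw [hc, inv_one, one_mul, mul_one, mul_inv_cancel, Units.val_one]
          rw [Finset.sum_congr rfl fun σ _ => e1 σ, hsum1]
  -- (4)
  have hIc : ∀ σ ∈ I, Commute (σ : E) ((X : E) * X₀) := by
    intro σ hσ
    have e1 : σ * X = X * σ⁻¹ := by
      have e2 := hIX _ (hIinv σ hσ)
      rw [inv_inv] at e2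
      nth_rewrite 1 [← e2]
      rw [inv_mul_cancel_right]
    show (σ : E) * (X * X₀) = X * X₀ * σ
    rw [← mul_assoc, ← Units.val_mul, e1, Units.val_mul, mul_assoc, ← h1' σ hσ, mul_assoc]
  have h4 : ∀ y ∈ Γ, (X : E) * X₀ * y = y * ((X : E) * X₀) := by
    intro y hyΓ
    obtain ⟨h, hhI, ζ, hζΓ, hζc, hyy⟩ := hy y hyΓ
    have e1 : Commute (ζ : E) (X : E) := by
      show (ζ : E) * X = X * ζ
      rw [← Units.val_mul, ← Units.val_mul, hZX ζ hζΓ hζc]
    have e2 : Commute (ζ : E) X₀ := by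
      rw [hX₀]
      refine Commute.sum_right _ _ _ fun i _ => ?_
      show (ζ : E) * ((i : Eˣ) : E) = ((i : Eˣ) : E) * (ζ : E)
      rw [← Units.val_mul, ← Units.val_mul, hζc i i.2.1]
    have e3 : Commute ((y ^ 2 : Eˣ) : E) ((X : E) * X₀) := by
      rw [hyy, Units.val_mul]
      exact (e1.mul_right e2).mul_left (hIc h hhI)
    have e4 := e3.pow_left (t + 1)
    rw [← Units.val_pow_eq_pow_val, hroot y hyΓ] at e4
    exact e4.symm
  -- (5)
  have h5 : ∀ u : Eˣ, u * X = X * u → (∀ g ∈ Γ, u * g * u⁻¹ ∈ Γ) → (u : E) * X₀ = X₀ * u := by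
    intro u huX huΓ
    have e0 : u⁻¹ * X⁻¹ = X⁻¹ * u⁻¹ := by rw [← mul_inv_rev, ← mul_inv_rev, huX]
    have e1 : ∑ i : I, ((u * i * u⁻¹ : Eˣ) : E) = X₀ := by
      rw [hX₀]
      refine bij (fun g => u * g * u⁻¹) (fun g hg => ⟨huΓ g hg.1, ?_⟩)
        (fun g _ g' _ h => mul_left_cancel (mul_right_cancel h)) fun g => (g : E)
      calc X * (u * g * u⁻¹) * X⁻¹ = (X * u) * g * (u⁻¹ * X⁻¹) := by group
        _ = u * (X * g * X⁻¹) * u⁻¹ := by rw [← huX, e0]; group
        _ = (u * g * u⁻¹)⁻¹ := by rw [hg.2]; group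
    calc (u : E) * X₀ = (∑ i : I, ((u * i * u⁻¹ : Eˣ) : E)) * (u : E) := by
          rw [hX₀, Finset.mul_sum, Finset.sum_mul]
          refine Finset.sum_congr rfl fun i _ => ?_
          rw [← Units.val_mul, ← Units.val_mul, inv_mul_cancel_right]
      _ = X₀ * u := by rw [e1]
  exact ⟨I, hft, fun i => i, X₀, fun i => i.2.1, hX₀.symm, hX₀inv, h3, h4, h5⟩

end Pool.Agent.Lib.MP_544bd1_al
end

section

/-!
Classes of finite groups defined by their nonabelian simple sections.
-/

namespace Pool.Agent.Lib.MP_544bd1_al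

open Subgroup

/-- nonabelian simple groups -/
def NS (T : Type) [Group T] : Prop := IsSimpleGroup T ∧ ∃ a b : T, a * b ≠ b * a

/-- all nonabelian simple sections have order at most `t` and are generated by two elements -/
def SC (t : ℕ) (K : Type) [Group K] : Prop :=
  ∀ (T : Type) [Group T] (H : Subgroup K) (f : H →* T), Function.Surjective f → NS T →
    Nat.card T ≤ t ∧ ∃ a b : T, closure {a, b} = ⊤

theorem NS.equiv {T T' : Type} [Group T] [Group T'] (e : T ≃* T') (h : NS T) : NS T' := by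
  obtain ⟨hs, a, b, hab⟩ := h
  refine ⟨?_, e a, e b, ?_⟩
  · have := hs
    have : Nontrivial T' := e.symm.toEquiv.nontrivial
    exact IsSimpleGroup.isSimpleGroup_of_surjective e.toMonoidHom e.surjective
  · intro h
    apply hab
    apply e.injective
    rw [map_mul, map_mul, h]

theorem SC.mono {s t : ℕ} (hst : s ≤ t) {K : Type} [Group K] (h : SC s K) : SC t K := by
  intro T _ H f hf hT
  obtain ⟨h1, h2⟩ := h T H f hf hT
  exact ⟨h1.trans hst, h2⟩

theorem SC.of_injective {t : ℕ} {K H : Type} [Group K] [Group H] (f : H →* K)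
    (hf : Function.Injective f) (h : SC t K) : SC t H := by
  intro T _ A φ hφ hT
  let e : A ≃* A.map f := A.equivMapOfInjective f hf
  exact h T (A.map f) (φ.comp e.symm.toMonoidHom) (hφ.comp e.symm.surjective) hT

theorem SC.of_surjective {t : ℕ} {K Q : Type} [Group K] [Group Q] (f : K →* Q)
    (hf : Function.Surjective f) (h : SC t K) : SC t Q := by
  intro T _ A φ hφ hT
  refine h T (A.comap f) (φ.comp (f.subgroupComap A)) (hφ.comp ?_) hT
  rintro ⟨y, hy⟩
  obtain ⟨x, rfl⟩ := hf y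
  exact ⟨⟨x, hy⟩, rfl⟩

theorem SC.equiv {t : ℕ} {K Q : Type} [Group K] [Group Q] (e : K ≃* Q) (h : SC t K) : SC t Q :=
  h.of_injective e.symm.toMonoidHom e.symm.injective

theorem SC.subgroup {t : ℕ} {K : Type} [Group K] (h : SC t K) (H : Subgroup K) : SC t H :=
  h.of_injective H.subtype H.subtype_injective

theorem SC.le {t : ℕ} {K : Type} [Group K] {H L : Subgroup K} (hHL : H ≤ L) (h : SC t L) :
    SC t H :=
  h.of_injective (Subgroup.inclusion hHL) (Subgroup.inclusion_injective hHL)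

theorem SC.quotient {t : ℕ} {K : Type} [Group K] (h : SC t K) (N : Subgroup K) [N.Normal] :
    SC t (K ⧸ N) :=
  h.of_surjective (QuotientGroup.mk' N) (QuotientGroup.mk'_surjective N)

theorem SC.map {t : ℕ} {K Q : Type} [Group K] [Group Q] (f : K →* Q) {H : Subgroup K}
    (h : SC t H) : SC t (H.map f) :=
  h.of_surjective (f.subgroupMap H) (f.subgroupMap_surjective H)

/-- closure under extensions -/
theorem SC.ext {t : ℕ} {K Q : Type} [Group K] [Group Q] (f : K →* Q) (hk : SC t f.ker)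
    (hq : SC t Q) : SC t K := by
  intro T _ A φ hφ hT
  let g : A →* Q := f.comp A.subtype
  have hn : (g.ker.map φ).Normal := Subgroup.Normal.map inferInstance φ hφ
  rcases hT.1.eq_bot_or_eq_top_of_normal _ hn with h | h
  · -- factor through the image
    have hker : g.rangeRestrict.ker ≤ φ.ker := by
      rw [MonoidHom.ker_rangeRestrict]
      exact (Subgroup.map_eq_bot_iff _).1 h
    let ψ : g.range →* T :=
      (MonoidHom.liftOfSurjective g.rangeRestrict g.rangeRestrict_surjective ⟨φ, hker⟩)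
    have hψ : ∀ x, ψ (g.rangeRestrict x) = φ x := by
      intro x
      exact MonoidHom.liftOfRightInverse_comp_apply _ _ _ ⟨φ, hker⟩ x
    apply hq T g.range ψ _ hT
    intro y
    obtain ⟨x, rfl⟩ := hφ y
    exact ⟨g.rangeRestrict x, hψ x⟩
  · -- the kernel maps onto `T`
    have hk' : SC t g.ker := by
      let ι : g.ker →* f.ker :=
        { toFun := fun x => ⟨((x : A) : K), x.2⟩
          map_one' := rfl
          map_mul' := fun _ _ => rfl }
      apply hk.of_injective ι
      intro x y hxy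
      apply Subtype.ext
      apply Subtype.ext
      exact congrArg (fun z : f.ker => (z : K)) hxy
    let χ : g.ker →* T := φ.comp g.ker.subtype
    have hχ : Function.Surjective χ := by
      intro y
      have hy : y ∈ g.ker.map φ := by rw [h]; trivial
      obtain ⟨x, hx, rfl⟩ := hy
      exact ⟨⟨x, hx⟩, rfl⟩
    let e : (⊤ : Subgroup g.ker) ≃* g.ker := Subgroup.topEquiv
    exact hk' T ⊤ (χ.comp e.toMonoidHom) (hχ.comp e.surjective) hT

/-- a commutative group has no nonabelian simple sections -/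
theorem SC.of_comm {t : ℕ} {K : Type} [Group K] (h : ∀ a b : K, a * b = b * a) : SC t K := by
  intro T _ A φ hφ hT
  exfalso
  obtain ⟨_, a, b, hab⟩ := hT
  obtain ⟨x, rfl⟩ := hφ a
  obtain ⟨y, rfl⟩ := hφ b
  apply hab
  rw [← map_mul, ← map_mul]
  congr 1
  exact Subtype.ext (h x y)

/-- small groups in `SC t` -/
theorem SC.of_card_le {s t : ℕ} {K : Type} [Group K] [Finite K] (h : SC t K)
    (hK : Nat.card K ≤ s) : SC s K := by
  intro T _ A φ hφ hT
  refine ⟨?_, (h T A φ hφ hT).2⟩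
  calc Nat.card T ≤ Nat.card A := Nat.card_le_card_of_surjective φ hφ
    _ ≤ Nat.card K := Nat.card_le_card_of_injective _ A.subtype_injective
    _ ≤ s := hK

theorem SC.card_le {t : ℕ} {T : Type} [Group T] (h : SC t T) (hT : NS T) : Nat.card T ≤ t :=
  (h T ⊤ (Subgroup.topEquiv (G := T)).toMonoidHom (Subgroup.topEquiv (G := T)).surjective hT).1

theorem SC.gen {t : ℕ} {T : Type} [Group T] (h : SC t T) (hT : NS T) :
    ∃ a b : T, closure {a, b} = ⊤ :=
  (h T ⊤ (Subgroup.topEquiv (G := T)).toMonoidHom (Subgroup.topEquiv (G := T)).surjective hT).2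

/-- if all nonabelian simple sections have order at most `t`, and there is none of order
`t`, then all have order at most `t - 1` -/
theorem exists_section {t : ℕ} {K : Type} [Group K] (h : SC (t + 1) K) (hn : ¬ SC t K) :
    ∃ (T : Type) (_ : Group T) (H : Subgroup K) (f : H →* T), Function.Surjective f ∧ NS T ∧
      Nat.card T = t + 1 := by
  by_contra hcon
  apply hn
  intro T _ A φ hφ hT
  obtain ⟨h1, h2⟩ := h T A φ hφ hT
  refine ⟨?_, h2⟩
  by_contra hlt
  exact hcon ⟨T, _, A, φ, hφ, hT, by omega⟩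

/-- the product of two normal subgroups in `SC t` is in `SC t` -/
theorem SC.sup {t : ℕ} {K : Type} [Group K] (M N : Subgroup K) [N.Normal]
    (hM : SC t M) (hN : SC t N) : SC t (M ⊔ N : Subgroup K) := by
  let f : (M ⊔ N : Subgroup K) →* K ⧸ N := (QuotientGroup.mk' N).comp (M ⊔ N).subtype
  -- the image is the image of `M`
  have hrange : f.range = M.map (QuotientGroup.mk' N) := by
    ext y
    constructor
    · rintro ⟨⟨x, hx⟩, rfl⟩
      obtain ⟨m, hm, n, hn, rfl⟩ := Subgroup.mem_sup_of_normal_right.1 hx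
      refine ⟨m, hm, ?_⟩
      show QuotientGroup.mk' N m = QuotientGroup.mk' N (m * n)
      rw [map_mul, QuotientGroup.mk'_apply N n, (QuotientGroup.eq_one_iff n).2 hn, mul_one]
    · rintro ⟨m, hm, rfl⟩
      exact ⟨⟨m, Subgroup.mem_sup_left hm⟩, rfl⟩
  have h1 : SC t f.range := by
    rw [hrange]
    exact SC.map _ hM
  have h2 : SC t f.rangeRestrict.ker := by
    rw [MonoidHom.ker_rangeRestrict]
    let ι : f.ker →* N :=
      { toFun := fun x => ⟨((x : (M ⊔ N : Subgroup K)) : K),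
          (QuotientGroup.eq_one_iff _).1 x.2⟩
        map_one' := rfl
        map_mul' := fun _ _ => rfl }
    apply hN.of_injective ι
    intro x y hxy
    apply Subtype.ext
    apply Subtype.ext
    exact congrArg (fun z : N => (z : K)) hxy
  exact SC.ext f.rangeRestrict h2 h1

end Pool.Agent.Lib.MP_544bd1_al
end

section

/-!
The radical of a finite group with respect to the class `SC s`.
-/

namespace Pool.Agent.Lib.MP_544bd1_al

open Subgroup

/-- the largest normal subgroup in `SC s` (for finite groups) -/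
def Xrad (s : ℕ) (K : Type) [Group K] : Subgroup K :=
  sSup {N : Subgroup K | N.Normal ∧ SC s N}

theorem le_Xrad {s : ℕ} {K : Type} [Group K] {N : Subgroup K} (hN : N.Normal) (h : SC s N) :
    N ≤ Xrad s K := le_sSup ⟨hN, h⟩

theorem Xrad_mem (s : ℕ) (K : Type) [Group K] [Finite K] :
    (Xrad s K).Normal ∧ SC s (Xrad s K) := by
  have hfin : {N : Subgroup K | N.Normal ∧ SC s N}.Finite := Set.toFinite _
  have hne : {N : Subgroup K | N.Normal ∧ SC s N}.Nonempty := by
    refine ⟨⊥, inferInstance, SC.of_comm ?_⟩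
    intro a b
    exact Subsingleton.elim _ _
  obtain ⟨M, hM⟩ := hfin.exists_maximal hne
  have h1 : Xrad s K = M := by
    apply le_antisymm
    · apply sSup_le
      intro N hN
      have h2 : M ⊔ N ∈ {N : Subgroup K | N.Normal ∧ SC s N} := by
        have := hN.1
        have := hM.prop.1
        exact ⟨inferInstance, SC.sup M N hM.prop.2 hN.2⟩
      exact le_sup_right.trans (hM.le_of_ge h2 le_sup_left)
    · exact le_sSup hM.prop
  rw [h1]
  exact hM.prop

instance Xrad_normal (s : ℕ) (K : Type) [Group K] : (Xrad s K).Normal :=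
  Subgroup.sSup_normal _ (fun _ h => h.1)

theorem Xrad_SC (s : ℕ) (K : Type) [Group K] [Finite K] : SC s (Xrad s K) := (Xrad_mem s K).2

theorem map_Xrad_le {s : ℕ} {K Q : Type} [Group K] [Group Q] [Finite K] (f : K →* Q)
    (hf : Function.Surjective f) : (Xrad s K).map f ≤ Xrad s Q :=
  le_Xrad (Subgroup.Normal.map inferInstance f hf) (SC.map f (Xrad_SC s K))

theorem comap_Xrad_le {s : ℕ} {H K : Type} [Group H] [Group K] [Finite K] (f : H →* K)
    (hf : Function.Injective f) : (Xrad s K).comap f ≤ Xrad s H := by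
  apply le_Xrad (Subgroup.Normal.comap inferInstance f)
  have h1 : SC s (((Xrad s K).comap f).map f) :=
    SC.le (Subgroup.map_comap_le f (Xrad s K)) (Xrad_SC s K)
  exact h1.equiv (((Xrad s K).comap f).equivMapOfInjective f hf).symm

theorem Xrad_eq_top_iff {s : ℕ} {K : Type} [Group K] [Finite K] : Xrad s K = ⊤ ↔ SC s K := by
  constructor
  · intro h
    have := Xrad_SC s K
    rw [h] at this
    exact this.equiv Subgroup.topEquiv
  · intro h
    exact top_le_iff.1 (le_Xrad inferInstance (h.subgroup ⊤))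

instance Xrad_characteristic (s : ℕ) (K : Type) [Group K] [Finite K] :
    (Xrad s K).Characteristic := by
  rw [Subgroup.characteristic_iff_map_le]
  intro φ
  exact map_Xrad_le φ.toMonoidHom φ.surjective

/-- `Q` has no nontrivial normal subgroup in `SC s` -/
def Red (s : ℕ) (Q : Type) [Group Q] : Prop := ∀ N : Subgroup Q, N.Normal → SC s N → N = ⊥

theorem Red_quotient (s : ℕ) (K : Type) [Group K] [Finite K] : Red s (K ⧸ Xrad s K) := by
  intro N hN hS
  have h1 : N.comap (QuotientGroup.mk' (Xrad s K)) ≤ Xrad s K := by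
    apply le_Xrad (hN.comap _)
    let f : (N.comap (QuotientGroup.mk' (Xrad s K))) →* N :=
      (QuotientGroup.mk' (Xrad s K)).subgroupComap N
    apply SC.ext f _ hS
    let ι : f.ker →* Xrad s K :=
      { toFun := fun x => ⟨((x : N.comap (QuotientGroup.mk' (Xrad s K))) : K), by
          have h := x.2
          rw [MonoidHom.mem_ker] at h
          have h' := congrArg (fun z : N => (z : K ⧸ Xrad s K)) h
          exact (QuotientGroup.eq_one_iff _).1 h'⟩
        map_one' := rfl
        map_mul' := fun _ _ => rfl }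
    apply (Xrad_SC s K).of_injective ι
    intro x y hxy
    apply Subtype.ext
    apply Subtype.ext
    exact congrArg (fun z : Xrad s K => (z : K)) hxy
  have h2 : N = (N.comap (QuotientGroup.mk' (Xrad s K))).map (QuotientGroup.mk' (Xrad s K)) :=
    (Subgroup.map_comap_eq_self_of_surjective (QuotientGroup.mk'_surjective _) N).symm
  rw [h2, Subgroup.map_eq_bot_iff, QuotientGroup.ker_mk']
  exact h1

/-- in a reduced group a subgroup in `SC s` which is normal in a normal subgroup is trivial -/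
theorem Red.eq_bot {s : ℕ} {Q : Type} [Group Q] [Finite Q] (hQ : Red s Q) {T M : Subgroup Q}
    (hM : M.Normal) (hTM : T ≤ M) (hMT : M ≤ normalizer (T : Set Q)) (hT : SC s T) : T = ⊥ := by
  have h1 : (T.subgroupOf M).Normal := by
    constructor
    intro x hx g
    rw [Subgroup.mem_subgroupOf] at hx ⊢
    exact (Subgroup.mem_normalizer_iff.1 (hMT g.2) x).1 hx
  have h2 : SC s (T.subgroupOf M) := hT.equiv (Subgroup.subgroupOfEquivOfLe hTM).symm
  have h3 : T.subgroupOf M ≤ Xrad s M := le_Xrad h1 h2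
  have h4 : ((Xrad s M).map M.subtype).Normal := inferInstance
  have h5 : SC s ((Xrad s M).map M.subtype) := SC.map _ (Xrad_SC s M)
  have h6 := hQ _ h4 h5
  rw [Subgroup.map_eq_bot_iff, Subgroup.ker_subtype, le_bot_iff] at h6
  rw [h6, le_bot_iff, Subgroup.subgroupOf_eq_bot] at h3
  rw [← inf_eq_left.2 hTM]
  exact h3.eq_bot

theorem comap_Xrad_of_ker {s : ℕ} {K Q : Type} [Group K] [Group Q] [Finite K] [Finite Q]
    (f : K →* Q) (hk : SC s f.ker) : (Xrad s Q).comap f ≤ Xrad s K := by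
  apply le_Xrad (Subgroup.Normal.comap inferInstance f)
  let g : ((Xrad s Q).comap f) →* Xrad s Q := f.subgroupComap (Xrad s Q)
  apply SC.ext g _ (Xrad_SC s Q)
  let ι : g.ker →* f.ker :=
    { toFun := fun x => ⟨((x : (Xrad s Q).comap f) : K), by
        have h := x.2
        rw [MonoidHom.mem_ker] at h
        exact congrArg (fun z : Xrad s Q => (z : Q)) h⟩
      map_one' := rfl
      map_mul' := fun _ _ => rfl }
  apply hk.of_injective ι
  intro x y hxy
  apply Subtype.ext
  apply Subtype.ext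
  exact congrArg (fun z : f.ker => (z : K)) hxy

end Pool.Agent.Lib.MP_544bd1_al
end

section

/-!
Components of reduced finite groups.
-/

namespace Pool.Agent.Lib.MP_544bd1_al

open Subgroup

section basic

variable {Q : Type} [Group Q]

/-- a component: nonabelian simple, and normal in its normal closure -/
structure IsComp (T : Subgroup Q) : Prop where
  ns : NS T
  nor : normalClosure (T : Set Q) ≤ normalizer (T : Set Q)

theorem NS.center {T : Type} [Group T] (h : NS T) {x : T} (hx : ∀ y : T, x * y = y * x) :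
    x = 1 := by
  have := h.1
  have hc : (Subgroup.center T).Normal := inferInstance
  rcases h.1.eq_bot_or_eq_top_of_normal _ hc with h1 | h1
  · have : x ∈ Subgroup.center T := Subgroup.mem_center_iff.2 (fun y => (hx y).symm)
    rwa [h1, Subgroup.mem_bot] at this
  · exfalso
    obtain ⟨a, b, hab⟩ := h.2
    apply hab
    have : b ∈ Subgroup.center T := by rw [h1]; trivial
    exact Subgroup.mem_center_iff.1 this a

theorem NS.perfect {T : Subgroup Q} (h : NS T) : ⁅T, T⁆ = T := by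
  have hn : (⁅(⊤ : Subgroup T), (⊤ : Subgroup T)⁆).Normal := inferInstance
  have h1 : ⁅(⊤ : Subgroup T), (⊤ : Subgroup T)⁆ = ⊤ := by
    rcases h.1.eq_bot_or_eq_top_of_normal _ hn with h1 | h1
    · exfalso
      obtain ⟨a, b, hab⟩ := h.2
      apply hab
      have h2 := Subgroup.commutator_mem_commutator (H₁ := (⊤ : Subgroup T))
        (H₂ := (⊤ : Subgroup T)) (Subgroup.mem_top a) (Subgroup.mem_top b)
      rw [h1, Subgroup.mem_bot, commutatorElement_eq_one_iff_mul_comm] at h2
      exact h2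
    · exact h1
  have h2 := congrArg (Subgroup.map T.subtype) h1
  rw [Subgroup.map_commutator, ← MonoidHom.range_eq_map, Subgroup.range_subtype] at h2
  exact h2

theorem NS.ne_bot {T : Subgroup Q} (h : NS T) : T ≠ ⊥ := by
  rintro rfl
  obtain ⟨a, b, hab⟩ := h.2
  exact hab (Subsingleton.elim _ _)

/-- dichotomy for components -/
theorem IsComp.dich {T N : Subgroup Q} (hT : IsComp T) (hN : T ≤ normalizer (N : Set Q)) :
    T ≤ N ∨ ∀ x ∈ T, ∀ y ∈ N, x * y = y * x := by
  have hsub : (N.subgroupOf T).Normal := by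
    constructor
    intro x hx g
    rw [Subgroup.mem_subgroupOf] at hx ⊢
    exact (Subgroup.mem_normalizer_iff.1 (hN g.2) x).1 hx
  rcases hT.ns.1.eq_bot_or_eq_top_of_normal _ hsub with h | h
  · right
    have h0 : ∀ x ∈ T, x ∈ N → x = 1 := by
      intro x hx hxN
      have : (⟨x, hx⟩ : T) ∈ N.subgroupOf T := hxN
      rw [h, Subgroup.mem_bot] at this
      exact congrArg Subtype.val this
    set M := normalClosure (T : Set Q) with hM
    have hTM : T ≤ M := Subgroup.subset_normalClosure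
    have hMn : M.Normal := Subgroup.normalClosure_normal
    have h1 : ∀ x ∈ T, ∀ m ∈ N, m ∈ M → x * m = m * x := by
      intro x hx m hm hmM
      have e1 : x * m * x⁻¹ * m⁻¹ ∈ N :=
        N.mul_mem ((Subgroup.mem_normalizer_iff.1 (hN hx) m).1 hm) (N.inv_mem hm)
      have e2 : x * m * x⁻¹ * m⁻¹ ∈ T := by
        have := (Subgroup.mem_normalizer_iff.1 (hT.nor hmM) x⁻¹).1 (T.inv_mem hx)
        have h3 : x * m * x⁻¹ * m⁻¹ = x * (m * x⁻¹ * m⁻¹) := by group
        rw [h3]
        exact T.mul_mem hx this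
      have e3 := h0 _ e2 e1
      calc x * m = (x * m * x⁻¹ * m⁻¹) * (m * x) := by group
        _ = m * x := by rw [e3, one_mul]
    have h2 : ⁅⁅T, N⁆, T⁆ = ⊥ := by
      rw [eq_bot_iff, Subgroup.commutator_le]
      intro c hc x hx
      have hcNM : c ∈ N ⊓ M := by
        have : ⁅T, N⁆ ≤ N ⊓ M := by
          rw [Subgroup.commutator_le]
          intro x hx y hy
          refine ⟨?_, ?_⟩
          · rw [commutatorElement_def]
            exact N.mul_mem ((Subgroup.mem_normalizer_iff.1 (hN hx) y).1 hy) (N.inv_mem hy)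
          · rw [commutatorElement_def]
            have : x * y * x⁻¹ * y⁻¹ = x * (y * x⁻¹ * y⁻¹) := by group
            rw [this]
            exact M.mul_mem (hTM hx) (hMn.conj_mem _ (M.inv_mem (hTM hx)) y)
        exact this hc
      rw [Subgroup.mem_bot, commutatorElement_eq_one_iff_mul_comm]
      exact (h1 x hx c hcNM.1 hcNM.2).symm
    have h3 : ⁅⁅N, T⁆, T⁆ = ⊥ := by rw [Subgroup.commutator_comm N T]; exact h2
    have h4 := Subgroup.commutator_commutator_eq_bot_of_rotate h2 h3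
    rw [hT.ns.perfect] at h4
    intro x hx y hy
    have h5 := Subgroup.commutator_mem_commutator hx hy
    rw [h4, Subgroup.mem_bot, commutatorElement_eq_one_iff_mul_comm] at h5
    exact h5
  · left
    exact Subgroup.subgroupOf_eq_top.1 h

theorem le_normalizer_of_normal {N T : Subgroup Q} (hN : N.Normal) :
    T ≤ normalizer (N : Set Q) := by
  intro x _
  rw [Subgroup.mem_normalizer_iff]
  intro y
  constructor
  · intro hy; exact hN.conj_mem y hy x
  · intro hy
    have := hN.conj_mem _ hy x⁻¹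
    simpa [mul_assoc] using this

/-- distinct components commute -/
theorem IsComp.comm {T T' : Subgroup Q} (hT : IsComp T) (hT' : IsComp T') (hne : T ≠ T') :
    ∀ x ∈ T, ∀ y ∈ T', x * y = y * x := by
  have hTM : T ≤ normalClosure (T : Set Q) := Subgroup.subset_normalClosure
  have hTM' : T' ≤ normalClosure (T' : Set Q) := Subgroup.subset_normalClosure
  rcases hT.dich (N := normalClosure (T' : Set Q))
    (le_normalizer_of_normal Subgroup.normalClosure_normal) with h | h
  · rcases hT'.dich (N := normalClosure (T : Set Q))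
      (le_normalizer_of_normal Subgroup.normalClosure_normal) with h' | h'
    · rcases hT.dich (N := T') (h.trans hT'.nor) with h1 | h1
      · rcases hT'.dich (N := T) (h'.trans hT.nor) with h2 | h2
        · exact absurd (le_antisymm h1 h2) hne
        · intro x hx y hy
          exact (h2 y hy x hx).symm
      · exact h1
    · intro x hx y hy
      exact (h' y hy x (hTM hx)).symm
  · intro x hx y hy
    exact h x hx y (hTM' hy)

/-- conjugates of components are components -/
theorem IsComp.map {Q' : Type} [Group Q'] (e : Q ≃* Q') {T : Subgroup Q} (hT : IsComp T) :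
    IsComp (T.map e.toMonoidHom) := by
  refine ⟨hT.ns.equiv (T.equivMapOfInjective _ e.injective), ?_⟩
  have h1 : normalClosure ((T.map e.toMonoidHom : Subgroup Q') : Set Q') ≤
      (normalClosure (T : Set Q)).map e.toMonoidHom := by
    have hn : ((normalClosure (T : Set Q)).map e.toMonoidHom).Normal :=
      Subgroup.Normal.map Subgroup.normalClosure_normal _ e.surjective
    apply Subgroup.normalClosure_le_normal
    exact Subgroup.map_mono Subgroup.subset_normalClosure
  refine h1.trans ?_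
  rintro _ ⟨x, hx, rfl⟩
  rw [Subgroup.mem_normalizer_iff]
  intro y
  have h2 := Subgroup.mem_normalizer_iff.1 (hT.nor hx) (e.symm y)
  have h3 : ∀ z : Q', z ∈ T.map e.toMonoidHom ↔ e.symm z ∈ T := by
    intro z
    constructor
    · rintro ⟨w, hw, rfl⟩
      simpa using hw
    · intro hz
      exact ⟨e.symm z, hz, by simp⟩
  rw [h3 y, h2, h3]
  simp

/-- the conjugate subgroup -/
abbrev cj (g : Q) (T : Subgroup Q) : Subgroup Q := T.map (MulAut.conj g).toMonoidHom

theorem IsComp.cj {T : Subgroup Q} (hT : IsComp T) (g : Q) : IsComp (cj g T) :=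
  hT.map (MulAut.conj g)

theorem mem_cj {g x : Q} {T : Subgroup Q} : x ∈ cj g T ↔ g⁻¹ * x * g ∈ T := by
  constructor
  · rintro ⟨y, hy, rfl⟩
    simpa [MulAut.conj_apply, mul_assoc] using hy
  · intro h
    refine ⟨_, h, ?_⟩
    simp [MulAut.conj_apply, mul_assoc]

theorem cj_mul (g h : Q) (T : Subgroup Q) : cj (g * h) T = cj g (cj h T) := by
  ext x
  rw [mem_cj, mem_cj, mem_cj]
  have : (g * h)⁻¹ * x * (g * h) = h⁻¹ * (g⁻¹ * x * g) * h := by group
  rw [this]

theorem cj_one (T : Subgroup Q) : cj 1 T = T := by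
  ext x
  rw [mem_cj]
  simp

theorem mem_normalizer_iff_cj {g : Q} {T : Subgroup Q} [Finite T] :
    g ∈ normalizer (T : Set Q) ↔ cj g T = T := by
  constructor
  · intro h
    ext x
    rw [mem_cj, Subgroup.mem_normalizer_iff.1 h (g⁻¹ * x * g)]
    have : g * (g⁻¹ * x * g) * g⁻¹ = x := by group
    rw [this]
  · intro h
    rw [Subgroup.mem_normalizer_iff]
    intro x
    constructor
    · intro hx
      rw [← h, mem_cj]
      have : g⁻¹ * (g * x * g⁻¹) * g = x := by group
      rwa [this]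
    · intro hx
      rw [← h, mem_cj] at hx
      have : g⁻¹ * (g * x * g⁻¹) * g = x := by group
      rwa [this] at hx

theorem mem_normalizer_of_comm {g : Q} {T : Subgroup Q} (h : ∀ x ∈ T, g * x = x * g) :
    g ∈ normalizer (T : Set Q) := by
  have h1 : ∀ x ∈ T, g * x * g⁻¹ = x := fun x hx => by rw [h x hx, mul_inv_cancel_right]
  rw [Subgroup.mem_normalizer_iff]
  intro x
  constructor
  · intro hx; rw [h1 x hx]; exact hx
  · intro hx
    have h2 := h1 _ hx
    have h3 : g * x * g⁻¹ = x := by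
      have := congrArg (fun z => g⁻¹ * z * g) h2
      simpa [mul_assoc] using this
    rw [← h3]; exact hx

end basic

section fin

variable {Q : Type} [Group Q] [Finite Q]

/-- every nontrivial normal subgroup of a reduced group contains a component -/
theorem exists_comp {s : ℕ} (hQ : Red s Q) {N : Subgroup Q} (hN : N.Normal) (hNb : N ≠ ⊥) :
    ∃ T : Subgroup Q, IsComp T ∧ T ≤ N := by
  -- a minimal normal subgroup inside `N`
  obtain ⟨M, hM⟩ := (Set.toFinite {M : Subgroup Q | M.Normal ∧ M ≤ N ∧ M ≠ ⊥}).exists_minimal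
    ⟨N, hN, le_rfl, hNb⟩
  obtain ⟨hMn, hMN, hMb⟩ := hM.prop
  obtain ⟨T, hT⟩ := (Set.toFinite {T : Subgroup Q | T ≤ M ∧ M ≤ normalizer (T : Set Q) ∧
    T ≠ ⊥}).exists_minimal ⟨M, le_rfl, Subgroup.le_normalizer, hMb⟩
  obtain ⟨hTM, hMT, hTb⟩ := hT.prop
  have hnc : normalClosure (T : Set Q) = M := by
    apply le_antisymm
    · exact Subgroup.normalClosure_le_normal hTM
    · apply hM.le_of_le
      · refine ⟨Subgroup.normalClosure_normal, ?_, ?_⟩
        · exact (Subgroup.normalClosure_le_normal hTM).trans hMN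
        · intro h
          apply hTb
          rw [eq_bot_iff, ← h]
          exact Subgroup.subset_normalClosure
      · exact Subgroup.normalClosure_le_normal hTM
  have hsimple : ∀ S : Subgroup Q, S ≤ T → T ≤ normalizer (S : Set Q) → S ≠ ⊥ → T ≤ S := by
    intro S hST hTS hSb
    apply hT.le_of_le _ hST
    refine ⟨hST.trans hTM, ?_, hSb⟩
    rw [← hnc, Subgroup.normalClosure, Subgroup.closure_le]
    intro y hy
    rw [Group.mem_conjugatesOfSet_iff] at hy
    obtain ⟨x, hx, hxy⟩ := hy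
    obtain ⟨g, rfl⟩ := isConj_iff.1 hxy
    show g * x * g⁻¹ ∈ normalizer (S : Set Q)
    have hgx : g * x * g⁻¹ ∈ cj g T := ⟨x, hx, rfl⟩
    by_cases hc : cj g T = T
    · rw [hc] at hgx
      exact hTS hgx
    · -- the conjugate commutes with `T`
      have hcM : cj g T ≤ M := by
        rintro _ ⟨z, hz, rfl⟩
        exact hMn.conj_mem z (hTM hz) g
      have hMc : M ≤ normalizer (cj g T : Set Q) := by
        intro m hm
        have hm' : g⁻¹ * m * g ∈ M := by
          have := hMn.conj_mem m hm g⁻¹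
          simpa using this
        have h1 := hMT hm'
        rw [Subgroup.mem_normalizer_iff] at h1 ⊢
        intro z
        show z ∈ cj g T ↔ m * z * m⁻¹ ∈ cj g T
        rw [mem_cj, mem_cj, h1]
        have : g⁻¹ * m * g * (g⁻¹ * z * g) * (g⁻¹ * m * g)⁻¹ = g⁻¹ * (m * z * m⁻¹) * g := by
          group
        rw [this]
      have hinf : T ⊓ cj g T = ⊥ := by
        by_contra hb
        have h1 : T ≤ T ⊓ cj g T := by
          apply hT.le_of_le _ inf_le_left
          refine ⟨inf_le_left.trans hTM, ?_, hb⟩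
          intro m hm
          have h2 := hMT hm
          have h3 := hMc hm
          rw [Subgroup.mem_normalizer_iff] at h2 h3 ⊢
          intro z
          constructor
          · rintro ⟨hz1, hz2⟩
            exact ⟨(h2 z).1 hz1, (h3 z).1 hz2⟩
          · rintro ⟨hz1, hz2⟩
            exact ⟨(h2 z).2 hz1, (h3 z).2 hz2⟩
        have h2 : T ≤ cj g T := h1.trans inf_le_right
        apply hc
        symm
        apply Subgroup.eq_of_le_of_card_ge h2
        exact (Nat.card_congr (T.equivMapOfInjective (MulAut.conj g).toMonoidHom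
          (MulAut.conj g).injective).toEquiv).ge
      apply mem_normalizer_of_comm
      intro z hz
      have hzT := hST hz
      set y := g * x * g⁻¹ with hy
      have e1 : y * z * y⁻¹ * z⁻¹ ∈ T :=
        T.mul_mem ((Subgroup.mem_normalizer_iff.1 (hMT (hcM hgx)) z).1 hzT) (T.inv_mem hzT)
      have e2 : y * z * y⁻¹ * z⁻¹ ∈ cj g T := by
        have h3 := (Subgroup.mem_normalizer_iff.1 (hMc (hTM hzT)) y⁻¹).1 ((cj g T).inv_mem hgx)
        have h4 : y * z * y⁻¹ * z⁻¹ = y * (z * y⁻¹ * z⁻¹) := by group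
        rw [h4]
        exact (cj g T).mul_mem hgx h3
      have e3 : y * z * y⁻¹ * z⁻¹ ∈ T ⊓ cj g T := ⟨e1, e2⟩
      rw [hinf, Subgroup.mem_bot] at e3
      calc y * z = (y * z * y⁻¹ * z⁻¹) * (z * y) := by group
        _ = z * y := by rw [e3, one_mul]
  have hnotSC : ¬ SC s T := by
    intro h
    exact hTb (hQ.eq_bot hMn hTM hMT h)
  refine ⟨T, ⟨⟨?_, ?_⟩, ?_⟩, hTM.trans hMN⟩
  · have hnt : Nontrivial T := (Subgroup.nontrivial_iff_ne_bot T).2 hTb
    refine ⟨fun H hH => ?_⟩
    by_cases hb : H = ⊥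
    · left; exact hb
    · right
      have h1 : T ≤ H.map T.subtype := by
        apply hsimple
        · exact Subgroup.map_subtype_le H
        · intro x hx
          rw [Subgroup.mem_normalizer_iff]
          intro z
          constructor
          · rintro ⟨w, hw, rfl⟩
            exact ⟨_, hH.conj_mem w hw ⟨x, hx⟩, rfl⟩
          · rintro ⟨w, hw, hwz⟩
            have := hH.conj_mem w hw ⟨x, hx⟩⁻¹
            refine ⟨_, this, ?_⟩
            have hwz' : (w : Q) = x * z * x⁻¹ := hwz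
            simp [hwz', mul_assoc]
        · intro h
          apply hb
          exact (Subgroup.map_eq_bot_iff_of_injective H T.subtype_injective).1 h
      rw [eq_top_iff]
      rintro ⟨x, hx⟩ -
      obtain ⟨w, hw, hwx⟩ := h1 hx
      have : w = ⟨x, hx⟩ := Subtype.ext hwx
      rw [← this]; exact hw
  · by_contra hcon
    push Not at hcon
    exact hnotSC (SC.of_comm hcon)
  · rw [hnc]; exact hMT

theorem IsComp.not_SC {s : ℕ} (hQ : Red s Q) {T : Subgroup Q} (hT : IsComp T) : ¬ SC s T := by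
  intro h
  exact hT.ns.ne_bot (hQ.eq_bot Subgroup.normalClosure_normal Subgroup.subset_normalClosure
    hT.nor h)

theorem IsComp.card {s : ℕ} (hQ : Red s Q) (hS : SC (s + 1) Q) {T : Subgroup Q}
    (hT : IsComp T) : Nat.card T = s + 1 := by
  have h1 := (hS.subgroup T).card_le hT.ns
  have h2 : ¬ Nat.card T ≤ s := fun h => hT.not_SC hQ ((hS.subgroup T).of_card_le h)
  omega

/-- an element commuting with all components of a reduced group is trivial -/
theorem eq_one_of_comm_comp {s : ℕ} (hQ : Red s Q) {x : Q}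
    (hx : ∀ T : Subgroup Q, IsComp T → ∀ y ∈ T, x * y = y * x) : x = 1 := by
  let C : Subgroup Q :=
    { carrier := {x | ∀ T : Subgroup Q, IsComp T → ∀ y ∈ T, x * y = y * x}
      one_mem' := fun T _ y _ => by simp
      mul_mem' := by
        intro a b ha hb T hT y hy
        rw [mul_assoc, hb T hT y hy, ← mul_assoc, ha T hT y hy, mul_assoc]
      inv_mem' := by
        intro a ha T hT y hy
        have := ha T hT y hy
        calc a⁻¹ * y = a⁻¹ * (y * a) * a⁻¹ := by group
          _ = a⁻¹ * (a * y) * a⁻¹ := by rw [this]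
          _ = y * a⁻¹ := by group }
  have hCn : C.Normal := by
    constructor
    intro a ha g T hT y hy
    have h1 := ha (cj g⁻¹ T) (hT.cj g⁻¹) (g⁻¹ * y * g) (by
      rw [mem_cj]
      have : (g⁻¹)⁻¹ * (g⁻¹ * y * g) * g⁻¹ = y := by group
      rwa [this])
    calc g * a * g⁻¹ * y = g * (a * (g⁻¹ * y * g)) * g⁻¹ := by group
      _ = g * ((g⁻¹ * y * g) * a) * g⁻¹ := by rw [h1]
      _ = y * (g * a * g⁻¹) := by group
  have hCb : C = ⊥ := by
    by_contra hb
    obtain ⟨T, hT, hTC⟩ := exists_comp hQ hCn hb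
    obtain ⟨a, b, hab⟩ := hT.ns.2
    apply hab
    apply Subtype.ext
    exact hTC a.2 T hT b b.2
  have : x ∈ C := hx
  rw [hCb, Subgroup.mem_bot] at this
  exact this

/-- counting: a set acting faithfully on a two-generated nonabelian simple group `T` has
fewer than `|T| ^ 2` elements -/
theorem card_lt_of_action {T : Subgroup Q} (hT : NS T)
    (hgen : ∃ a b : T, closure {a, b} = ⊤) {X : Type} (f : X → Q)
    (hf : ∀ x, f x ∈ normalizer (T : Set Q))
    (hinj : ∀ x y, (∀ z ∈ T, (f x)⁻¹ * f y * z = z * ((f x)⁻¹ * f y)) → x = y) :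
    Nat.card X < Nat.card T ^ 2 := by
  obtain ⟨a, b, hab⟩ := hgen
  have hmem : ∀ x, ∀ z : T, f x * z * (f x)⁻¹ ∈ T := fun x z =>
    (Subgroup.mem_normalizer_iff.1 (hf x) z).1 z.2
  let c : X → T × T := fun x => (⟨_, hmem x a⟩, ⟨_, hmem x b⟩)
  have hc : Function.Injective c := by
    intro x y hxy
    apply hinj
    have h1 : f x * a * (f x)⁻¹ = f y * a * (f y)⁻¹ :=
      congrArg (fun p : T × T => (p.1 : Q)) hxy
    have h2 : f x * b * (f x)⁻¹ = f y * b * (f y)⁻¹ :=
      congrArg (fun p : T × T => (p.2 : Q)) hxy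
    let Z : Subgroup T :=
      { carrier := {z | (f x)⁻¹ * f y * z = z * ((f x)⁻¹ * f y)}
        one_mem' := by simp
        mul_mem' := by
          intro u v hu hv
          show (f x)⁻¹ * f y * ((u * v : T) : Q) = ((u * v : T) : Q) * ((f x)⁻¹ * f y)
          have hu' : (f x)⁻¹ * f y * (u : Q) = u * ((f x)⁻¹ * f y) := hu
          have hv' : (f x)⁻¹ * f y * (v : Q) = v * ((f x)⁻¹ * f y) := hv
          push_cast
          rw [← mul_assoc, hu', mul_assoc, hv', mul_assoc]
        inv_mem' := by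
          intro u hu
          show (f x)⁻¹ * f y * ((u⁻¹ : T) : Q) = ((u⁻¹ : T) : Q) * ((f x)⁻¹ * f y)
          have hu' : (f x)⁻¹ * f y * (u : Q) = u * ((f x)⁻¹ * f y) := hu
          push_cast
          calc (f x)⁻¹ * f y * (u : Q)⁻¹ = (u : Q)⁻¹ * (u * ((f x)⁻¹ * f y)) * (u : Q)⁻¹ := by
                group
            _ = (u : Q)⁻¹ * ((f x)⁻¹ * f y * u) * (u : Q)⁻¹ := by rw [hu']
            _ = (u : Q)⁻¹ * ((f x)⁻¹ * f y) := by group }
    have hZ : Z = ⊤ := by
      rw [eq_top_iff, ← hab, Subgroup.closure_le]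
      rintro z (rfl | rfl)
      · show (f x)⁻¹ * f y * (z : Q) = z * ((f x)⁻¹ * f y)
        calc (f x)⁻¹ * f y * (z : Q) = (f x)⁻¹ * (f y * z * (f y)⁻¹) * f y := by group
          _ = (f x)⁻¹ * (f x * z * (f x)⁻¹) * f y := by rw [h1]
          _ = z * ((f x)⁻¹ * f y) := by group
      · show (f x)⁻¹ * f y * (z : Q) = z * ((f x)⁻¹ * f y)
        calc (f x)⁻¹ * f y * (z : Q) = (f x)⁻¹ * (f y * z * (f y)⁻¹) * f y := by group
          _ = (f x)⁻¹ * (f x * z * (f x)⁻¹) * f y := by rw [h2]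
          _ = z * ((f x)⁻¹ * f y) := by group
    intro z hz
    have : (⟨z, hz⟩ : T) ∈ Z := by rw [hZ]; trivial
    exact this
  have hne : ∀ x, c x ≠ 1 := by
    intro x hx
    have h1 : f x * a * (f x)⁻¹ = 1 := congrArg (fun p : T × T => (p.1 : Q)) hx
    have h2 : f x * b * (f x)⁻¹ = 1 := congrArg (fun p : T × T => (p.2 : Q)) hx
    have ha : a = 1 := by
      apply Subtype.ext
      have := congrArg (fun z => (f x)⁻¹ * z * f x) h1
      simpa [mul_assoc] using this
    have hb : b = 1 := by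
      apply Subtype.ext
      have := congrArg (fun z => (f x)⁻¹ * z * f x) h2
      simpa [mul_assoc] using this
    obtain ⟨u, v, huv⟩ := hT.2
    apply huv
    have hbot : (⊤ : Subgroup T) = ⊥ := by
      rw [← hab, ha, hb]
      simp
    have hu : u ∈ (⊤ : Subgroup T) := trivial
    have hv : v ∈ (⊤ : Subgroup T) := trivial
    rw [hbot, Subgroup.mem_bot] at hu hv
    rw [hu, hv]
  let c' : X → {p : T × T // p ≠ 1} := fun x => ⟨c x, hne x⟩
  have hc' : Function.Injective c' := fun x y h => hc (congrArg Subtype.val h)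
  have h1 : Nat.card X ≤ Nat.card {p : T × T // p ≠ 1} := Nat.card_le_card_of_injective c' hc'
  have h2 : Nat.card {p : T × T // p ≠ 1} < Nat.card (T × T) := by
    classical
    have := Fintype.ofFinite T
    rw [Nat.card_eq_fintype_card, Nat.card_eq_fintype_card]
    exact Fintype.card_subtype_lt (x := (1 : T × T)) (by simp)
  rw [Nat.card_prod] at h2
  calc Nat.card X < Nat.card T * Nat.card T := lt_of_le_of_lt h1 h2
    _ = Nat.card T ^ 2 := (sq _).symm

end fin

end Pool.Agent.Lib.MP_544bd1_al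
end

section

/-!
Elements moving components: restriction to sections and detection in small subgroups.
-/

namespace Pool.Agent.Lib.MP_544bd1_al

open Subgroup

section hom

variable {s : ℕ} {H Q P : Type} [Group H] [Group Q] [Group P] [Finite H] [Finite Q] [Finite P]

/-- the elements mapped into the normalizer of every component -/
def fixSub (g : H →* Q) : Subgroup H where
  carrier := {x | ∀ T : Subgroup Q, IsComp T → g x ∈ normalizer (T : Set Q)}
  one_mem' := fun T _ => by rw [map_one]; exact one_mem _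
  mul_mem' := fun {a b} ha hb T hT => by rw [map_mul]; exact mul_mem (ha T hT) (hb T hT)
  inv_mem' := fun {a} ha T hT => by rw [map_inv]; exact inv_mem (ha T hT)

omit [Finite H] [Finite Q] in
theorem mem_fixSub {g : H →* Q} {x : H} :
    x ∈ fixSub g ↔ ∀ T : Subgroup Q, IsComp T → g x ∈ normalizer (T : Set Q) := Iff.rfl

omit [Finite H] [Finite Q] in
theorem normalizer_cj {k x : Q} {T : Subgroup Q} :
    x ∈ normalizer (cj k T : Set Q) ↔ k⁻¹ * x * k ∈ normalizer (T : Set Q) := by
  rw [Subgroup.mem_normalizer_iff, Subgroup.mem_normalizer_iff]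
  constructor
  · intro h z
    have := h (k * z * k⁻¹)
    have e1 : (k * z * k⁻¹ ∈ (cj k T)) ↔ z ∈ T := by
      rw [mem_cj]
      have : k⁻¹ * (k * z * k⁻¹) * k = z := by group
      rw [this]
    have e2 : (x * (k * z * k⁻¹) * x⁻¹ ∈ (cj k T)) ↔ k⁻¹ * x * k * z * (k⁻¹ * x * k)⁻¹ ∈ T := by
      rw [mem_cj]
      have : k⁻¹ * (x * (k * z * k⁻¹) * x⁻¹) * k = k⁻¹ * x * k * z * (k⁻¹ * x * k)⁻¹ := by group
      rw [this]
    rw [← e1, ← e2]
    exact this
  · intro h z
    show z ∈ cj k T ↔ x * z * x⁻¹ ∈ cj k T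
    rw [mem_cj, mem_cj, h]
    have : k⁻¹ * x * k * (k⁻¹ * z * k) * (k⁻¹ * x * k)⁻¹ = k⁻¹ * (x * z * x⁻¹) * k := by group
    rw [this]

omit [Finite H] [Finite Q] in
theorem fixSub_normal (g : H →* Q) : (fixSub g).Normal := by
  constructor
  intro x hx h T hT
  have h1 := hx (cj (g h)⁻¹ T) (hT.cj _)
  rw [normalizer_cj] at h1
  rw [map_mul, map_mul, map_inv]
  simpa using h1

/-- the elements of `fixSub g` centralizing a given set of components -/
def cenSub (g : H →* Q) (S : Set (Subgroup Q)) : Subgroup H where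
  carrier := {x | x ∈ fixSub g ∧ ∀ T ∈ S, ∀ y ∈ T, g x * y = y * g x}
  one_mem' := ⟨one_mem _, fun T _ y _ => by simp⟩
  mul_mem' := fun {a b} ha hb => ⟨mul_mem ha.1 hb.1, fun T hT y hy => by
    rw [map_mul, mul_assoc, hb.2 T hT y hy, ← mul_assoc, ha.2 T hT y hy, mul_assoc]⟩
  inv_mem' := fun {a} ha => ⟨inv_mem ha.1, fun T hT y hy => by
    have := ha.2 T hT y hy
    rw [map_inv]
    calc (g a)⁻¹ * y = (g a)⁻¹ * (y * g a) * (g a)⁻¹ := by group
      _ = (g a)⁻¹ * (g a * y) * (g a)⁻¹ := by rw [this]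
      _ = y * (g a)⁻¹ := by group⟩

omit [Finite H] [Finite Q] in
theorem cenSub_le (g : H →* Q) (S : Set (Subgroup Q)) : cenSub g S ≤ fixSub g := fun _ h => h.1

omit [Finite H] [Finite Q] in
theorem cenSub_normalized (g : H →* Q) {S : Set (Subgroup Q)} (hS : ∀ T ∈ S, IsComp T) :
    fixSub g ≤ normalizer (cenSub g S : Set H) := by
  rw [Subgroup.le_normalizer_iff]
  intro b hb x hx
  refine ⟨(fixSub g).mul_mem ((fixSub g).mul_mem hb hx.1) ((fixSub g).inv_mem hb), ?_⟩
  intro T hT y hy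
  have hb' := hb T (hS T hT)
  have h1 : (g b)⁻¹ * y * g b ∈ T := by
    have := (Subgroup.mem_normalizer_iff.1 (inv_mem hb') y).1 hy
    simpa using this
  have h2 := hx.2 T hT _ h1
  rw [map_mul, map_mul, map_inv]
  calc g b * g x * (g b)⁻¹ * y = g b * (g x * ((g b)⁻¹ * y * g b)) * (g b)⁻¹ := by group
    _ = g b * (((g b)⁻¹ * y * g b) * g x) * (g b)⁻¹ := by rw [h2]
    _ = y * (g b * g x * (g b)⁻¹) := by group

omit [Finite H] [Finite Q] [Finite P] in
theorem map_normalized (π : H →* P) {B F : Subgroup H} (h : B ≤ normalizer (F : Set H)) :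
    B.map π ≤ normalizer (F.map π : Set P) :=
  (Subgroup.map_mono h).trans (Subgroup.le_normalizer_map π)

omit [Finite H] [Finite P] in
/-- a perfect subgroup outside `SC s` cannot be covered by the centralizers of all components -/
theorem exists_comp_not_le (g : H →* Q) (hk : SC s g.ker) (hQ : Red s Q) (π : H →* P)
    {τ : Subgroup P} (hperf : ⁅τ, τ⁆ = τ) (hnot : ¬ SC s τ) (hτB : τ ≤ (fixSub g).map π) :
    ∃ T : Subgroup Q, IsComp T ∧ ¬ τ ≤ (cenSub g {T}).map π := by
  by_contra hcon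
  push Not at hcon
  have hind : ∀ S : Finset (Subgroup Q), (∀ T ∈ S, IsComp T) →
      τ ≤ (cenSub g (S : Set (Subgroup Q))).map π := by
    classical
    intro S
    induction S using Finset.induction_on with
    | empty =>
      intro _
      refine hτB.trans (Subgroup.map_mono ?_)
      intro x hx
      exact ⟨hx, fun T hT => by simp at hT⟩
    | insert T S hTS ih =>
      intro hS
      have h1 := ih (fun T hT => hS T (Finset.mem_insert_of_mem hT))
      have h2 := hcon T (hS T (Finset.mem_insert_self _ _))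
      rw [← hperf]
      refine (Subgroup.commutator_mono h1 h2).trans ?_
      rw [← Subgroup.map_commutator]
      apply Subgroup.map_mono
      rw [Subgroup.commutator_le]
      intro x hx y hy
      have hxy1 : x * y * x⁻¹ * y⁻¹ ∈ cenSub g (S : Set (Subgroup Q)) := by
        have hn := Subgroup.le_normalizer_iff.1 (cenSub_normalized g (S := (S : Set (Subgroup Q)))
          (fun T hT => hS T (Finset.mem_insert_of_mem hT)))
        have := hn y hy.1 x⁻¹ (inv_mem hx)
        have e : x * y * x⁻¹ * y⁻¹ = x * (y * x⁻¹ * y⁻¹) := by group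
        rw [e]
        exact mul_mem hx this
      have hxy2 : x * y * x⁻¹ * y⁻¹ ∈ cenSub g {T} := by
        have hn := Subgroup.le_normalizer_iff.1 (cenSub_normalized g (S := {T})
          (fun T' hT' => by
            rw [Set.mem_singleton_iff] at hT'
            rw [hT']
            exact hS T (Finset.mem_insert_self _ _)))
        exact mul_mem (hn x hx.1 y hy) (inv_mem hy)
      rw [commutatorElement_def]
      refine ⟨hxy1.1, ?_⟩
      intro T' hT'
      rw [Finset.coe_insert, Set.mem_insert_iff] at hT'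
      rcases hT' with rfl | hT'
      · exact hxy2.2 _ rfl
      · exact hxy1.2 T' hT'
  have hfin := Set.toFinite {T : Subgroup Q | IsComp T}
  have h3 := hind hfin.toFinset (fun T hT => by simpa using hT)
  have h4 : (cenSub g (hfin.toFinset : Set (Subgroup Q))) ≤ g.ker := by
    intro x hx
    rw [MonoidHom.mem_ker]
    apply eq_one_of_comm_comp hQ
    intro T hT y hy
    exact hx.2 T (by simpa using hT) y hy
  have h5 : SC s (g.ker.map π) := SC.map π hk
  exact hnot (SC.le (h3.trans (Subgroup.map_mono h4)) h5)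

omit [Finite H] in
/-- **(F4)** an element fixing all components of `Q` fixes all components of a reduced quotient -/
theorem fix_of_fix (g : H →* Q) (hk : SC s g.ker) (hQ : Red s Q) (hQt : SC (s + 1) Q)
    (π : H →* P) (hπ : Function.Surjective π) (hP : Red s P) {w : H}
    (hw : ∀ T : Subgroup Q, IsComp T → g w ∈ normalizer (T : Set Q)) :
    ∀ τ : Subgroup P, IsComp τ → π w ∈ normalizer (τ : Set P) := by
  have hwB : w ∈ fixSub g := hw
  have hHt : SC (s + 1) H := SC.ext g (hk.mono (Nat.le_succ s)) hQt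
  have hPt : SC (s + 1) P := hHt.of_surjective π hπ
  intro τ hτ
  by_contra hmove
  -- `τ ≤ π (fixSub g)`
  have hBn : ((fixSub g).map π).Normal := (fixSub_normal g).map π hπ
  have hτB : τ ≤ (fixSub g).map π := by
    rcases hτ.dich (N := (fixSub g).map π) (le_normalizer_of_normal hBn) with h | h
    · exact h
    · exfalso
      apply hmove
      apply mem_normalizer_of_comm
      intro x hx
      exact (h x hx (π w) ⟨w, hwB, rfl⟩).symm
  set τ' := cj (π w) τ with hτ'def
  have hτ' : IsComp τ' := hτ.cj _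
  have hne : τ ≠ τ' := by
    intro h
    apply hmove
    rw [mem_normalizer_iff_cj]
    exact h.symm
  have hτ'B : τ' ≤ (fixSub g).map π := by
    rintro _ ⟨x, hx, rfl⟩
    exact hBn.conj_mem x (hτB hx) (π w)
  -- some component `T` with `τ` not in the image of its centralizer
  have hex := exists_comp_not_le g hk hQ π hτ.ns.perfect (hτ.not_SC hP) hτB
  obtain ⟨T, hT, hτT⟩ := hex
  set F := cenSub g {T} with hF
  have hFn : fixSub g ≤ normalizer (F : Set H) := cenSub_normalized g (fun T' hT' => by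
    rw [Set.mem_singleton_iff] at hT'
    rw [hT']; exact hT)
  have hFn' := map_normalized π hFn
  have hτ'T : ¬ τ' ≤ F.map π := by
    intro h
    apply hτT
    intro x hx
    have h1 : π w * x * (π w)⁻¹ ∈ τ' := ⟨x, hx, rfl⟩
    have h2 := h h1
    have h3 := Subgroup.le_normalizer_iff.1 hFn' (π w)⁻¹ (inv_mem ⟨w, hwB, rfl⟩) _ h2
    simpa [mul_assoc] using h3
  have hc1 : ∀ x ∈ τ, ∀ y ∈ F.map π, x * y = y * x := by
    rcases hτ.dich (N := F.map π) (hτB.trans hFn') with h | h
    · exact absurd h hτT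
    · exact h
  have hc2 : ∀ x ∈ τ', ∀ y ∈ F.map π, x * y = y * x := by
    rcases hτ'.dich (N := F.map π) (hτ'B.trans hFn') with h | h
    · exact absurd h hτ'T
    · exact h
  have hc3 := hτ.comm hτ' hne
  -- choose preimages
  have hpre : ∀ z : τ × τ', ∃ b ∈ fixSub g, π b = z.1 * z.2 := by
    intro z
    have := mul_mem (hτB z.1.2) (hτ'B z.2.2)
    obtain ⟨b, hb, hbz⟩ := this
    exact ⟨b, hb, hbz⟩
  choose b hbB hbz using hpre
  have hlt := card_lt_of_action (T := T) hT.ns ((hQt.subgroup T).gen hT.ns) (X := τ × τ')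
    (fun z => g (b z)) (fun z => hbB z T hT) (by
      intro z z' hzz
      have h1 : (b z)⁻¹ * b z' ∈ F := by
        refine ⟨mul_mem (inv_mem (hbB z)) (hbB z'), ?_⟩
        intro T' hT' y hy
        rw [Set.mem_singleton_iff] at hT'
        subst hT'
        rw [map_mul, map_inv]
        exact hzz y hy
      have h2 : (z.1 * z.2 : P)⁻¹ * (z'.1 * z'.2) ∈ F.map π := by
        refine ⟨_, h1, ?_⟩
        rw [map_mul, map_inv, hbz, hbz]
      -- rewrite as a product
      have h3 : (z.1 * z.2 : P)⁻¹ * (z'.1 * z'.2) = ((z.1 : P)⁻¹ * z'.1) * ((z.2 : P)⁻¹ * z'.2) := by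
        have e1 : (z.1 : P)⁻¹ * z'.1 ∈ τ := mul_mem (inv_mem z.1.2) z'.1.2
        have e2 : (z.2 : P)⁻¹ ∈ τ' := inv_mem z.2.2
        have e3 := hc3 _ e1 _ e2
        calc (z.1 * z.2 : P)⁻¹ * (z'.1 * z'.2) = (z.2 : P)⁻¹ * ((z.1 : P)⁻¹ * z'.1) * z'.2 := by
              group
          _ = ((z.1 : P)⁻¹ * z'.1) * (z.2 : P)⁻¹ * z'.2 := by rw [← e3]
          _ = _ := by group
      rw [h3] at h2
      set u : P := (z.1 : P)⁻¹ * z'.1 with hu
      set v : P := (z.2 : P)⁻¹ * z'.2 with hv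
      have huτ : u ∈ τ := mul_mem (inv_mem z.1.2) z'.1.2
      have hvτ : v ∈ τ' := mul_mem (inv_mem z.2.2) z'.2.2
      have hu1 : u = 1 := by
        have : (⟨u, huτ⟩ : τ) = 1 := by
          apply hτ.ns.center
          intro y
          apply Subtype.ext
          show u * y = y * u
          have k1 := hc1 y y.2 _ h2
          have k2 := hc3 y y.2 v hvτ
          have k3 : (y : P) * u * v = u * y * v := by
            calc (y : P) * u * v = y * (u * v) := by group
              _ = u * v * y := k1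
              _ = u * (v * y) := by group
              _ = u * (y * v) := by rw [k2]
              _ = u * y * v := by group
          exact (mul_right_cancel k3).symm
        exact congrArg Subtype.val this
      have hv1 : v = 1 := by
        have : (⟨v, hvτ⟩ : τ') = 1 := by
          apply hτ'.ns.center
          intro y
          apply Subtype.ext
          show v * y = y * v
          have k1 := hc2 y y.2 _ h2
          rw [hu1, one_mul] at k1
          exact k1.symm
        exact congrArg Subtype.val this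
      have hz1 : (z.1 : P) = z'.1 := by
        rw [hu, inv_mul_eq_one] at hu1
        exact hu1
      have hz2 : (z.2 : P) = z'.2 := by
        rw [hv, inv_mul_eq_one] at hv1
        exact hv1
      exact Prod.ext (Subtype.ext hz1) (Subtype.ext hz2))
  rw [Nat.card_prod, hτ.card hP hPt, hτ'.card hP hPt, hT.card hQ hQt] at hlt
  rw [sq] at hlt
  exact lt_irrefl _ hlt

omit [Finite H] [Finite P] in
/-- the image of the kernel of `π` commutes with every component contained in the range of `g` -/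
theorem comm_of_ker (g : H →* Q) (hQ : Red s Q) (π : H →* P) (hπ : SC s π.ker)
    {T : Subgroup Q} (hT : IsComp T) (hTg : T ≤ g.range) :
    ∀ x ∈ T, ∀ y ∈ π.ker, x * g y = g y * x := by
  have h1 : T ≤ normalizer (π.ker.map g : Set Q) := by
    intro x hx
    obtain ⟨h, rfl⟩ := hTg hx
    have : h ∈ normalizer (π.ker : Set H) := le_normalizer_of_normal inferInstance (T := ⊤) trivial
    exact Subgroup.le_normalizer_map g ⟨h, this, rfl⟩
  rcases hT.dich h1 with h | h
  · exact absurd (SC.le h (SC.map g hπ)) (hT.not_SC hQ)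
  · intro x hx y hy
    exact h x hx (g y) ⟨y, hy, rfl⟩

omit [Finite H] in
/-- **(Lemma D)** a component contained in the range gives a component -/
theorem lift_comp (g : H →* Q) (hk : SC s g.ker) (hQ : Red s Q)
    (π : H →* P) (hπs : Function.Surjective π) (hπ : SC s π.ker) (hP : Red s P)
    {T : Subgroup Q} (hT : IsComp T) (hTg : T ≤ g.range) :
    IsComp ((T.comap g).map π) ∧
      ∀ w : H, π w ∈ normalizer ((T.comap g).map π : Set P) → g w ∈ normalizer (T : Set Q) := by
  -- the kernel of `g` is in the kernel of `π`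
  have hkk : g.ker ≤ π.ker := by
    intro x hx
    have h1 := hP (g.ker.map π) (Subgroup.Normal.map inferInstance π hπs) (SC.map π hk)
    rw [Subgroup.map_eq_bot_iff] at h1
    exact h1 hx
  have hcomm := comm_of_ker g hQ π hπ hT hTg
  have hinj : ∀ x : H, g x ∈ T → π x = 1 → g x = 1 := by
    intro x hx hx1
    have : (⟨g x, hx⟩ : T) = 1 := by
      apply hT.ns.center
      intro y
      apply Subtype.ext
      exact (hcomm y y.2 x hx1).symm
    exact congrArg Subtype.val this
  -- the isomorphism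
  have hex : ∀ y : T, ∃ x : H, g x = y := fun y => hTg y.2
  choose σ hσ using hex
  let φ : T →* P :=
    { toFun := fun y => π (σ y)
      map_one' := by
        have : σ 1 ∈ g.ker := by rw [MonoidHom.mem_ker, hσ]; rfl
        exact hkk this
      map_mul' := by
        intro x y
        have : (σ (x * y))⁻¹ * (σ x * σ y) ∈ g.ker := by
          rw [MonoidHom.mem_ker, map_mul, map_inv, map_mul, hσ, hσ, hσ]
          push_cast
          group
        have h1 := hkk this
        rw [MonoidHom.mem_ker, map_mul, map_inv, inv_mul_eq_one, map_mul] at h1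
        exact h1 }
  have hφ : ∀ x : H, ∀ hx : g x ∈ T, φ ⟨g x, hx⟩ = π x := by
    intro x hx
    have : (σ ⟨g x, hx⟩)⁻¹ * x ∈ g.ker := by
      rw [MonoidHom.mem_ker, map_mul, map_inv, hσ]
      simp
    have h1 := hkk this
    rw [MonoidHom.mem_ker, map_mul, map_inv, inv_mul_eq_one] at h1
    exact h1
  have hφinj : Function.Injective φ := by
    rw [injective_iff_map_eq_one]
    intro y hy
    have h1 : g (σ y) = 1 := hinj (σ y) (by rw [hσ]; exact y.2) hy
    rw [hσ] at h1
    exact Subtype.ext h1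
  have hφrange : φ.range = (T.comap g).map π := by
    ext z
    constructor
    · rintro ⟨y, rfl⟩
      exact ⟨σ y, by rw [Subgroup.coe_comap]; show g (σ y) ∈ T; rw [hσ]; exact y.2, rfl⟩
    · rintro ⟨x, hx, rfl⟩
      exact ⟨⟨g x, hx⟩, hφ x hx⟩
  have hNS : NS ((T.comap g).map π) := by
    rw [← hφrange]
    exact hT.ns.equiv (MonoidHom.ofInjective hφinj)
  -- conjugates
  have hconj : ∀ h : H, cj (π h) ((T.comap g).map π) = ((cj (g h) T).comap g).map π := by
    intro h
    ext z
    rw [mem_cj]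
    constructor
    · rintro ⟨x, hx, hxz⟩
      refine ⟨h * x * h⁻¹, ?_, ?_⟩
      · show g (h * x * h⁻¹) ∈ cj (g h) T
        rw [mem_cj, map_mul, map_mul, map_inv]
        have : (g h)⁻¹ * (g h * g x * (g h)⁻¹) * g h = g x := by group
        rw [this]
        exact hx
      · rw [map_mul, map_mul, map_inv, hxz]
        group
    · rintro ⟨x, hx, rfl⟩
      have hx' : g x ∈ cj (g h) T := hx
      rw [mem_cj] at hx'
      refine ⟨h⁻¹ * x * h, ?_, ?_⟩
      · show g (h⁻¹ * x * h) ∈ T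
        rw [map_mul, map_mul, map_inv]
        exact hx'
      · rw [map_mul, map_mul, map_inv]
  -- images of distinct components commute
  have hcc : ∀ T' : Subgroup Q, IsComp T' → T ≠ T' →
      ∀ x ∈ (T.comap g).map π, ∀ y ∈ (T'.comap g).map π, x * y = y * x := by
    rintro T' hT' hne _ ⟨x, hx, rfl⟩ _ ⟨y, hy, rfl⟩
    have h1 := hT.comm hT' hne (g x) hx (g y) hy
    have h2 : (y * x)⁻¹ * (x * y) ∈ g.ker := by
      rw [MonoidHom.mem_ker, map_mul, map_inv, map_mul, map_mul, h1]
      group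
    have h3 := hkk h2
    rw [MonoidHom.mem_ker, map_mul, map_inv, map_mul, map_mul, inv_mul_eq_one] at h3
    exact h3.symm
  refine ⟨⟨hNS, ?_⟩, ?_⟩
  · -- normal in the normal closure
    rw [Subgroup.normalClosure, Subgroup.closure_le]
    intro y hy
    rw [Group.mem_conjugatesOfSet_iff] at hy
    obtain ⟨x, hx, hxy⟩ := hy
    obtain ⟨k, rfl⟩ := isConj_iff.1 hxy
    obtain ⟨h, rfl⟩ := hπs k
    have h1 : π h * x * (π h)⁻¹ ∈ cj (π h) ((T.comap g).map π) := ⟨x, hx, rfl⟩
    show π h * x * (π h)⁻¹ ∈ normalizer (((T.comap g).map π : Subgroup P) : Set P)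
    by_cases hc : cj (g h) T = T
    · rw [hconj, hc] at h1
      exact Subgroup.le_normalizer h1
    · rw [hconj] at h1
      apply mem_normalizer_of_comm
      intro z hz
      exact (hcc _ (hT.cj _) (Ne.symm hc) z hz _ h1).symm
  · intro w hw
    rw [mem_normalizer_iff_cj, hconj] at hw
    rw [mem_normalizer_iff_cj]
    by_contra hc
    have h1 := hcc _ (hT.cj (g w)) (Ne.symm hc)
    rw [hw] at h1
    obtain ⟨a, b, hab⟩ := hNS.2
    exact hab (Subtype.ext (h1 a a.2 b b.2))

end hom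

end Pool.Agent.Lib.MP_544bd1_al
end

section

/-!
The subgroups `B(G)` and `X(G)`.
-/

namespace Pool.Agent.Lib.MP_544bd1_al

open Subgroup

section one

variable {s : ℕ} {G : Type} [Group G]

/-- the natural homomorphism to the reduced quotient -/
abbrev rq (s : ℕ) (K : Type) [Group K] : K →* K ⧸ Xrad s K := QuotientGroup.mk' (Xrad s K)

/-- elements of `K` fixing all components of the reduced quotient of `K` -/
def FixIn (s : ℕ) (K : Subgroup G) : Subgroup G := (fixSub (rq s K)).map K.subtype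

/-- the radical of `K` as a subgroup of `G` -/
def RadIn (s : ℕ) (K : Subgroup G) : Subgroup G := (Xrad s K).map K.subtype

theorem mem_FixIn {K : Subgroup G} {w : G} :
    w ∈ FixIn s K ↔ ∃ h : w ∈ K, (⟨w, h⟩ : K) ∈ fixSub (rq s K) := by
  constructor
  · rintro ⟨x, hx, rfl⟩
    exact ⟨x.2, hx⟩
  · rintro ⟨h, hw⟩
    exact ⟨_, hw, rfl⟩

theorem mem_RadIn {K : Subgroup G} {w : G} :
    w ∈ RadIn s K ↔ ∃ h : w ∈ K, (⟨w, h⟩ : K) ∈ Xrad s K := by
  constructor
  · rintro ⟨x, hx, rfl⟩
    exact ⟨x.2, hx⟩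
  · rintro ⟨h, hw⟩
    exact ⟨_, hw, rfl⟩

theorem FixIn_le (K : Subgroup G) : FixIn s K ≤ K := fun _ h => (mem_FixIn.1 h).1

theorem RadIn_le (K : Subgroup G) : RadIn s K ≤ K := fun _ h => (mem_RadIn.1 h).1

theorem conj_FixIn {K : Subgroup G} {k w : G} (hk : k ∈ K) (hw : w ∈ FixIn s K) :
    k * w * k⁻¹ ∈ FixIn s K := by
  obtain ⟨h, hw⟩ := mem_FixIn.1 hw
  exact ⟨_, (fixSub_normal _).conj_mem _ hw ⟨k, hk⟩, rfl⟩

theorem conj_RadIn {K : Subgroup G} {k w : G} (hk : k ∈ K) (hw : w ∈ RadIn s K) :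
    k * w * k⁻¹ ∈ RadIn s K := by
  obtain ⟨h, hw⟩ := mem_RadIn.1 hw
  exact ⟨_, (Xrad_normal s K).conj_mem _ hw ⟨k, hk⟩, rfl⟩

theorem ker_rq (K : Type) [Group K] : (rq s K).ker = Xrad s K := QuotientGroup.ker_mk' _

/-- the kernel of the restriction to a subgroup of the map to the reduced quotient -/
theorem ker_restrict {H K : Subgroup G} [Finite K] (h : H ≤ K) :
    SC s ((rq s K).comp (Subgroup.inclusion h)).ker := by
  let ι : ((rq s K).comp (Subgroup.inclusion h)).ker →* Xrad s K :=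
    { toFun := fun x => ⟨Subgroup.inclusion h x, by
        have := x.2
        rw [MonoidHom.mem_ker, MonoidHom.comp_apply] at this
        exact (QuotientGroup.eq_one_iff _).1 this⟩
      map_one' := rfl
      map_mul' := fun _ _ => rfl }
  apply (Xrad_SC s K).of_injective ι
  intro x y hxy
  apply Subtype.ext
  apply Subgroup.inclusion_injective h
  exact congrArg (fun z : Xrad s K => (z : K)) hxy

theorem SC_ker_rq (K : Type) [Group K] [Finite K] : SC s (rq s K).ker := by
  rw [ker_rq]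
  exact Xrad_SC s K

theorem SC_rq {t : ℕ} {K : Type} [Group K] (h : SC t K) : SC t (K ⧸ Xrad s K) :=
  h.of_surjective (rq s K) (QuotientGroup.mk'_surjective _)

/-- **(F4)** -/
theorem FixIn_restrict {H K : Subgroup G} [Finite K] (h : H ≤ K) (hK : SC (s + 1) K) {w : G}
    (hw : w ∈ FixIn s K) (hwH : w ∈ H) : w ∈ FixIn s H := by
  have : Finite H := Finite.of_injective _ (Subgroup.inclusion_injective h)
  obtain ⟨hwK, hw⟩ := mem_FixIn.1 hw
  refine mem_FixIn.2 ⟨hwH, ?_⟩
  exact fix_of_fix ((rq s K).comp (Subgroup.inclusion h)) (ker_restrict h) (Red_quotient s K)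
    (SC_rq hK) (rq s H) (QuotientGroup.mk'_surjective _) (Red_quotient s H) (w := ⟨w, hwH⟩) hw

theorem RadIn_restrict {H K : Subgroup G} [Finite K] (h : H ≤ K) {w : G}
    (hw : w ∈ RadIn s K) (hwH : w ∈ H) : w ∈ RadIn s H := by
  obtain ⟨hwK, hw⟩ := mem_RadIn.1 hw
  refine mem_RadIn.2 ⟨hwH, ?_⟩
  exact comap_Xrad_le (Subgroup.inclusion h) (Subgroup.inclusion_injective h) hw

/-- generators of a component lifted to `K` -/
theorem lift_gens {K : Subgroup G} [Finite K] (hK : SC (s + 1) K)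
    {T : Subgroup (K ⧸ Xrad s K)} (hT : IsComp T) :
    ∃ a b : K, ∀ H : Subgroup G, ∀ h : H ≤ K, (a : G) ∈ H → (b : G) ∈ H →
      T ≤ ((rq s K).comp (Subgroup.inclusion h)).range := by
  obtain ⟨a', b', hab⟩ := ((SC_rq (s := s) hK).subgroup T).gen hT.ns
  obtain ⟨a, ha⟩ := QuotientGroup.mk'_surjective (Xrad s K) (a' : K ⧸ Xrad s K)
  obtain ⟨b, hb⟩ := QuotientGroup.mk'_surjective (Xrad s K) (b' : K ⧸ Xrad s K)
  refine ⟨a, b, ?_⟩
  intro H h haH hbH
  have h1 : T = (closure {a', b'}).map T.subtype := by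
    rw [hab, ← MonoidHom.range_eq_map, Subgroup.range_subtype]
  rw [h1, MonoidHom.map_closure, Subgroup.closure_le]
  rintro _ ⟨z, (rfl | rfl), rfl⟩
  · exact ⟨⟨a, haH⟩, ha⟩
  · exact ⟨⟨b, hbH⟩, hb⟩

/-- **(F5)** -/
theorem FixIn_of_small {K : Subgroup G} [Finite K] (hK : SC (s + 1) K) {w : G} (hwK : w ∈ K)
    (h : ∀ a ∈ K, ∀ b ∈ K, w ∈ FixIn s (closure {w, a, b})) : w ∈ FixIn s K := by
  refine mem_FixIn.2 ⟨hwK, ?_⟩
  intro T hT
  obtain ⟨a, b, hab⟩ := lift_gens hK hT
  have hle : closure {w, (a : G), (b : G)} ≤ K := by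
    rw [Subgroup.closure_le]
    rintro z (rfl | rfl | rfl)
    · exact hwK
    · exact a.2
    · exact b.2
  have hTg := hab _ hle (Subgroup.subset_closure (by simp)) (Subgroup.subset_closure (by simp))
  have : Finite (closure {w, (a : G), (b : G)}) :=
    Finite.of_injective _ (Subgroup.inclusion_injective hle)
  obtain ⟨h1, h2⟩ := lift_comp ((rq s K).comp (Subgroup.inclusion hle)) (ker_restrict hle)
    (Red_quotient s K) (rq s (closure {w, (a : G), (b : G)})) (QuotientGroup.mk'_surjective _)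
    (SC_ker_rq _) (Red_quotient s _) hT hTg
  obtain ⟨hw', hw⟩ := mem_FixIn.1 (h a a.2 b b.2)
  exact h2 ⟨w, hw'⟩ (hw _ h1)

/-- **(F6)** -/
theorem RadIn_of_small {K : Subgroup G} [Finite K] (hK : SC (s + 1) K) {w : G} (hwK : w ∈ K)
    (h : ∀ a ∈ K, ∀ b ∈ K, w ∈ RadIn s (closure {w, a, b})) : w ∈ RadIn s K := by
  refine mem_RadIn.2 ⟨hwK, ?_⟩
  rw [← ker_rq, MonoidHom.mem_ker]
  apply eq_one_of_comm_comp (Red_quotient s K)
  intro T hT y hy
  obtain ⟨a, b, hab⟩ := lift_gens hK hT
  have hle : closure {w, (a : G), (b : G)} ≤ K := by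
    rw [Subgroup.closure_le]
    rintro z (rfl | rfl | rfl)
    · exact hwK
    · exact a.2
    · exact b.2
  have hTg := hab _ hle (Subgroup.subset_closure (by simp)) (Subgroup.subset_closure (by simp))
  have : Finite (closure {w, (a : G), (b : G)}) :=
    Finite.of_injective _ (Subgroup.inclusion_injective hle)
  obtain ⟨hw', hw⟩ := mem_RadIn.1 (h a a.2 b b.2)
  have := comm_of_ker ((rq s K).comp (Subgroup.inclusion hle)) (Red_quotient s K)
    (rq s (closure {w, (a : G), (b : G)})) (SC_ker_rq _) hT hTg y hy ⟨w, hw'⟩ (by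
      rw [ker_rq]; exact hw)
  exact this.symm

end one

section two

variable {s : ℕ} {G : Type} [Group G]

/-- all 4-generated subgroups are finite and in `SC t` -/
def Four (t : ℕ) (G : Type) [Group G] : Prop :=
  ∀ a b c d : G, Finite (closure {a, b, c, d}) ∧ SC t (closure {a, b, c, d})

theorem Four.three {t : ℕ} (h : Four t G) (a b c : G) :
    Finite (closure {a, b, c}) ∧ SC t (closure {a, b, c}) := by
  have h1 := h a b c c
  have h2 : ({a, b, c, c} : Set G) = {a, b, c} := by simp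
  rw [h2] at h1
  exact h1

/-- `B(G)` -/
def BG (h : Four (s + 1) G) : Subgroup G where
  carrier := {w | ∀ a b, w ∈ FixIn s (closure {w, a, b})}
  one_mem' := fun _ _ => one_mem _
  mul_mem' := by
    intro w w' hw hw' a b
    obtain ⟨hfin, hSC⟩ := h w w' a b
    have hle : closure {w * w', a, b} ≤ closure {w, w', a, b} := by
      rw [Subgroup.closure_le]
      rintro z (rfl | rfl | rfl)
      · exact mul_mem (Subgroup.subset_closure (by simp)) (Subgroup.subset_closure (by simp))
      · exact Subgroup.subset_closure (by simp)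
      · exact Subgroup.subset_closure (by simp)
    apply FixIn_restrict hle hSC _ (Subgroup.subset_closure (by simp))
    exact mul_mem
      (FixIn_of_small hSC (Subgroup.subset_closure (by simp)) (fun a _ b _ => hw a b))
      (FixIn_of_small hSC (Subgroup.subset_closure (by simp)) (fun a _ b _ => hw' a b))
  inv_mem' := by
    intro w hw a b
    obtain ⟨hfin, hSC⟩ := h.three w⁻¹ a b
    apply inv_mem
    apply FixIn_of_small hSC _ (fun a _ b _ => hw a b)
    rw [← inv_mem_iff]
    exact Subgroup.subset_closure (by simp)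

theorem mem_BG {h : Four (s + 1) G} {w : G} :
    w ∈ BG h ↔ ∀ a b, w ∈ FixIn s (closure {w, a, b}) := Iff.rfl

theorem FixIn_of_mem_BG {h : Four (s + 1) G} {w : G} (hw : w ∈ BG h) {K : Subgroup G} [Finite K]
    (hK : SC (s + 1) K) (hwK : w ∈ K) : w ∈ FixIn s K :=
  FixIn_of_small hK hwK (fun a _ b _ => hw a b)

theorem BG_normal (h : Four (s + 1) G) : (BG h).Normal := by
  constructor
  intro w hw g a b
  obtain ⟨hfin, hSC⟩ := h g w a b
  have hle : closure {g * w * g⁻¹, a, b} ≤ closure {g, w, a, b} := by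
    rw [Subgroup.closure_le]
    have hg : g ∈ closure {g, w, a, b} := Subgroup.subset_closure (by simp)
    have hw : w ∈ closure {g, w, a, b} := Subgroup.subset_closure (by simp)
    rintro z (rfl | rfl | rfl)
    · exact mul_mem (mul_mem hg hw) (inv_mem hg)
    · exact Subgroup.subset_closure (by simp)
    · exact Subgroup.subset_closure (by simp)
  apply FixIn_restrict hle hSC _ (Subgroup.subset_closure (by simp))
  apply conj_FixIn (Subgroup.subset_closure (by simp))
  exact FixIn_of_mem_BG hw hSC (Subgroup.subset_closure (by simp))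

/-- `X(G)` -/
def XG (h : Four (s + 1) G) : Subgroup G where
  carrier := {w | ∀ a b, w ∈ RadIn s (closure {w, a, b})}
  one_mem' := fun _ _ => one_mem _
  mul_mem' := by
    intro w w' hw hw' a b
    obtain ⟨hfin, hSC⟩ := h w w' a b
    have hle : closure {w * w', a, b} ≤ closure {w, w', a, b} := by
      rw [Subgroup.closure_le]
      rintro z (rfl | rfl | rfl)
      · exact mul_mem (Subgroup.subset_closure (by simp)) (Subgroup.subset_closure (by simp))
      · exact Subgroup.subset_closure (by simp)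
      · exact Subgroup.subset_closure (by simp)
    apply RadIn_restrict hle _ (Subgroup.subset_closure (by simp))
    exact mul_mem
      (RadIn_of_small hSC (Subgroup.subset_closure (by simp)) (fun a _ b _ => hw a b))
      (RadIn_of_small hSC (Subgroup.subset_closure (by simp)) (fun a _ b _ => hw' a b))
  inv_mem' := by
    intro w hw a b
    obtain ⟨hfin, hSC⟩ := h.three w⁻¹ a b
    apply inv_mem
    apply RadIn_of_small hSC _ (fun a _ b _ => hw a b)
    rw [← inv_mem_iff]
    exact Subgroup.subset_closure (by simp)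

theorem mem_XG {h : Four (s + 1) G} {w : G} :
    w ∈ XG h ↔ ∀ a b, w ∈ RadIn s (closure {w, a, b}) := Iff.rfl

theorem RadIn_of_mem_XG {h : Four (s + 1) G} {w : G} (hw : w ∈ XG h) {K : Subgroup G} [Finite K]
    (hK : SC (s + 1) K) (hwK : w ∈ K) : w ∈ RadIn s K :=
  RadIn_of_small hK hwK (fun a _ b _ => hw a b)

theorem XG_normal (h : Four (s + 1) G) : (XG h).Normal := by
  constructor
  intro w hw g a b
  obtain ⟨hfin, hSC⟩ := h g w a b
  have hle : closure {g * w * g⁻¹, a, b} ≤ closure {g, w, a, b} := by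
    rw [Subgroup.closure_le]
    have hg : g ∈ closure {g, w, a, b} := Subgroup.subset_closure (by simp)
    have hw : w ∈ closure {g, w, a, b} := Subgroup.subset_closure (by simp)
    rintro z (rfl | rfl | rfl)
    · exact mul_mem (mul_mem hg hw) (inv_mem hg)
    · exact Subgroup.subset_closure (by simp)
    · exact Subgroup.subset_closure (by simp)
  apply RadIn_restrict hle _ (Subgroup.subset_closure (by simp))
  apply conj_RadIn (Subgroup.subset_closure (by simp))
  exact RadIn_of_mem_XG hw hSC (Subgroup.subset_closure (by simp))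

/-- finite subgroups of `X(G)` in `SC (s + 1)` are in `SC s` -/
theorem SC_of_le_XG {h : Four (s + 1) G} {K : Subgroup G} [Finite K] (hK : SC (s + 1) K)
    (hle : K ≤ XG h) : SC s K := by
  rw [← Xrad_eq_top_iff, eq_top_iff]
  rintro ⟨w, hw⟩ -
  exact (mem_RadIn.1 (RadIn_of_mem_XG (hle hw) hK hw)).2

end two

end Pool.Agent.Lib.MP_544bd1_al
end
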