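import Mathlib
import Pool.Agent.Lib.MP_544bd1_al.Defs
import Pool.Agent.Lib.MP_544bd1_al.EvM2
import Pool.Agent.Lib.MP_544bd1_al.GenBX

section

/-!
# Cube groups

For a group `P` and `n` letters let `K` be the group of all functions from the subsets of the
letters to `P`; for a set `A` of letters and `g : P` let `pt A g` be the function with value `g` at
all `S ⊇ A` and `1` elsewhere. For a family `Δ` of subgroups of `P` indexed by the sets of letters
`Cube Δ` is the subgroup generated by all `pt A g`, `g ∈ Δ A`.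
-/

namespace Pool.Agent.Lib.MP_544bd1_al.E5

open Subgroup
open scoped commutatorElement

variable {P : Type*} [Group P] {n : ℕ}

/-- the cube group -/
abbrev CK (P : Type*) (n : ℕ) : Type _ := Finset (Fin n) → P

/-- the element of the cube group with value `g` at all sets containing `A` -/
def pt (A : Finset (Fin n)) : P →* CK P n where
  toFun g := fun T => if A ⊆ T then g else 1
  map_one' := by ext T; simp
  map_mul' g h := by
    ext T
    by_cases hA : A ⊆ T <;> simp [hA]

theorem pt_apply (A T : Finset (Fin n)) (g : P) : pt A g T = if A ⊆ T then g else 1 := rfl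

theorem pt_univ_self (g : P) : pt (Finset.univ : Finset (Fin n)) g Finset.univ = g := by
  simp [pt_apply]

theorem pt_comm (A B : Finset (Fin n)) (g h : P) :
    ⁅pt A g, pt B h⁆ = pt (A ∪ B) ⁅g, h⁆ := by
  ext T
  simp only [commutatorElement_def, Pi.mul_apply, Pi.inv_apply, pt_apply]
  by_cases hA : A ⊆ T <;> by_cases hB : B ⊆ T <;> simp [hA, hB, Finset.union_subset_iff]

/-- the subgroup generated by all `pt A g`, `g ∈ Δ A` -/
def Cube (Δ : Finset (Fin n) → Subgroup P) : Subgroup (CK P n) :=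
  closure {f | ∃ A, ∃ g ∈ Δ A, f = pt A g}

theorem pt_mem_Cube {Δ : Finset (Fin n) → Subgroup P} {A : Finset (Fin n)} {g : P}
    (h : g ∈ Δ A) : pt A g ∈ Cube Δ :=
  subset_closure ⟨A, g, h, rfl⟩

theorem Cube_mono {Δ Δ' : Finset (Fin n) → Subgroup P} (h : ∀ A, Δ A ≤ Δ' A) :
    Cube Δ ≤ Cube Δ' := by
  rw [Cube, closure_le]
  rintro _ ⟨A, g, hg, rfl⟩
  exact pt_mem_Cube (h A hg)

/-- elements of `Cube Δ₁` normalise `Cube Δ₃` -/
theorem Cube_conj {Δ₁ Δ₃ : Finset (Fin n) → Subgroup P}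
    (h : ∀ A B, ⁅Δ₁ A, Δ₃ B⁆ ≤ Δ₃ (A ∪ B)) {f c : CK P n} (hf : f ∈ Cube Δ₁)
    (hc : c ∈ Cube Δ₃) : f * c * f⁻¹ ∈ Cube Δ₃ := by
  have key : ∀ A, ∀ g ∈ Δ₁ A, ∀ c ∈ Cube Δ₃, pt A g * c * (pt A g)⁻¹ ∈ Cube Δ₃ := by
    intro A g hg c hc
    induction hc using closure_induction with
    | mem c hc =>
      obtain ⟨B, k, hk, rfl⟩ := hc
      have h1 : pt A g * pt B k * (pt A g)⁻¹ = pt (A ∪ B) ⁅g, k⁆ * pt B k := by
        rw [← pt_comm, commutatorElement_def]; group
      rw [h1]
      exact (Cube Δ₃).mul_mem (pt_mem_Cube (h A B (commutator_mem_commutator hg hk)))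
        (pt_mem_Cube hk)
    | one => rw [mul_one, mul_inv_cancel]; exact (Cube Δ₃).one_mem
    | mul a b _ _ ha hb =>
      have h1 : pt A g * (a * b) * (pt A g)⁻¹ =
          (pt A g * a * (pt A g)⁻¹) * (pt A g * b * (pt A g)⁻¹) := by group
      rw [h1]; exact (Cube Δ₃).mul_mem ha hb
    | inv a _ ha =>
      have h1 : pt A g * a⁻¹ * (pt A g)⁻¹ = (pt A g * a * (pt A g)⁻¹)⁻¹ := by group
      rw [h1]; exact (Cube Δ₃).inv_mem ha
  have key2 : ∀ f ∈ Cube Δ₁, (∀ c ∈ Cube Δ₃, f * c * f⁻¹ ∈ Cube Δ₃) ∧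
      (∀ c ∈ Cube Δ₃, f⁻¹ * c * f ∈ Cube Δ₃) := by
    intro f hf
    induction hf using closure_induction with
    | mem f hf =>
      obtain ⟨A, g, hg, rfl⟩ := hf
      refine ⟨key A g hg, ?_⟩
      intro c hc
      have := key A g⁻¹ ((Δ₁ A).inv_mem hg) c hc
      rwa [map_inv, inv_inv] at this
    | one => simp
    | mul a b _ _ ha hb =>
      constructor
      · intro c hc
        have h1 : a * b * c * (a * b)⁻¹ = a * (b * c * b⁻¹) * a⁻¹ := by group
        rw [h1]; exact ha.1 _ (hb.1 _ hc)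
      · intro c hc
        have h1 : (a * b)⁻¹ * c * (a * b) = b⁻¹ * (a⁻¹ * c * a) * b := by group
        rw [h1]; exact hb.2 _ (ha.2 _ hc)
    | inv a _ ha =>
      refine ⟨?_, ?_⟩
      · intro c hc; rw [inv_inv]; exact ha.2 c hc
      · intro c hc; rw [inv_inv]; exact ha.1 c hc
  exact (key2 f hf).1 c hc

/-- commutators of cube subgroups -/
theorem Cube_comm {Δ₁ Δ₂ Δ₃ : Finset (Fin n) → Subgroup P}
    (h12 : ∀ A B, ⁅Δ₁ A, Δ₂ B⁆ ≤ Δ₃ (A ∪ B)) (h13 : ∀ A B, ⁅Δ₁ A, Δ₃ B⁆ ≤ Δ₃ (A ∪ B))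
    (h23 : ∀ A B, ⁅Δ₂ A, Δ₃ B⁆ ≤ Δ₃ (A ∪ B)) : ⁅Cube Δ₁, Cube Δ₂⁆ ≤ Cube Δ₃ := by
  rw [Subgroup.commutator_le]
  intro f hf c hc
  induction hf using closure_induction with
  | mem f hf =>
    obtain ⟨A, g, hg, rfl⟩ := hf
    induction hc using closure_induction with
    | mem c hc =>
      obtain ⟨B, k, hk, rfl⟩ := hc
      rw [pt_comm]
      exact pt_mem_Cube (h12 A B (commutator_mem_commutator hg hk))
    | one => rw [commutatorElement_one_right]; exact (Cube Δ₃).one_mem
    | mul a b ha' hb' ha hb =>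
      have h1 : ⁅pt A g, a * b⁆ = ⁅pt A g, a⁆ * (a * ⁅pt A g, b⁆ * a⁻¹) := by
        simp only [commutatorElement_def]; group
      rw [h1]
      exact (Cube Δ₃).mul_mem ha (Cube_conj h23 ha' hb)
    | inv a ha' ha =>
      have h1 : ⁅pt A g, a⁻¹⁆ = a⁻¹ * (⁅pt A g, a⁆)⁻¹ * (a⁻¹)⁻¹ := by
        simp only [commutatorElement_def]; group
      rw [h1]
      exact Cube_conj h23 ((Cube Δ₂).inv_mem ha') ((Cube Δ₃).inv_mem ha)
  | one => rw [commutatorElement_one_left]; exact (Cube Δ₃).one_mem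
  | mul a b ha' hb' ha hb =>
    have h1 : ⁅a * b, c⁆ = (a * ⁅b, c⁆ * a⁻¹) * ⁅a, c⁆ := by
      simp only [commutatorElement_def]; group
    rw [h1]
    exact (Cube Δ₃).mul_mem (Cube_conj h13 ha' hb) ha
  | inv a ha' ha =>
    have h1 : ⁅a⁻¹, c⁆ = a⁻¹ * (⁅a, c⁆)⁻¹ * (a⁻¹)⁻¹ := by
      simp only [commutatorElement_def]; group
    rw [h1]
    exact Cube_conj h13 ((Cube Δ₁).inv_mem ha') ((Cube Δ₃).inv_mem ha)

/-- the family `Δ` restricted to the sets containing `s` -/
def resΔ (Δ : Finset (Fin n) → Subgroup P) (s : Finset (Fin n)) :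
    Finset (Fin n) → Subgroup P := fun A => if s ⊆ A then Δ A else ⊥

/-- the family `Δ` restricted to the sets containing `s` but not `t` -/
def resΔ' (Δ : Finset (Fin n) → Subgroup P) (s : Finset (Fin n)) (t : Fin n) :
    Finset (Fin n) → Subgroup P := fun A => if s ⊆ A ∧ t ∉ A then Δ A else ⊥

/-- the retraction setting the letter `t` to `1` -/
def retr (t : Fin n) : CK P n →* CK P n where
  toFun f := fun T => f (T.erase t)
  map_one' := rfl
  map_mul' _ _ := rfl

theorem retr_pt_of_mem {t : Fin n} {A : Finset (Fin n)} (h : t ∈ A) (g : P) :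
    retr t (pt A g) = 1 := by
  ext T
  show pt A g (T.erase t) = 1
  rw [pt_apply, if_neg]
  intro hA
  exact Finset.notMem_erase t T (hA h)

theorem retr_pt_of_notMem {t : Fin n} {A : Finset (Fin n)} (h : t ∉ A) (g : P) :
    retr t (pt A g) = pt A g := by
  ext T
  show pt A g (T.erase t) = pt A g T
  rw [pt_apply, pt_apply]
  have : A ⊆ T.erase t ↔ A ⊆ T := by
    rw [Finset.subset_erase]
    exact ⟨fun h => h.1, fun h' => ⟨h', h⟩⟩
  simp only [this]

/-- an element of `Cube Δ` with value `1` at all sets different from the full set has its value at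
the full set in `Δ univ`, if `⁅Δ A, Δ B⁆ ≤ Δ (A ∪ B)` for all `A`, `B`. -/
theorem Cube_full {Δ : Finset (Fin n) → Subgroup P} (h : ∀ A B, ⁅Δ A, Δ B⁆ ≤ Δ (A ∪ B))
    {f : CK P n} (hf : f ∈ Cube Δ) (h1 : ∀ T, T ≠ Finset.univ → f T = 1) :
    f Finset.univ ∈ Δ Finset.univ := by
  have key : ∀ s : Finset (Fin n), f ∈ Cube (resΔ Δ s) := by
    intro s
    induction s using Finset.induction_on with
    | empty =>
      have : resΔ Δ ∅ = Δ := by
        funext A
        rw [resΔ, if_pos (Finset.empty_subset A)]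
      rw [this]; exact hf
    | insert t s ht ih =>
      -- decomposition
      have hconj : ∀ a ∈ Cube (resΔ' Δ s t), ∀ c ∈ Cube (resΔ Δ (insert t s)),
          a * c * a⁻¹ ∈ Cube (resΔ Δ (insert t s)) := by
        intro a ha c hc
        apply Cube_conj _ ha hc
        intro A B
        rw [resΔ', resΔ, resΔ]
        by_cases hB : insert t s ⊆ B
        · rw [if_pos hB, if_pos (hB.trans Finset.subset_union_right)]
          by_cases hA : s ⊆ A ∧ t ∉ A
          · rw [if_pos hA]; exact h A B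
          · rw [if_neg hA, Subgroup.commutator_bot_left]; exact bot_le
        · rw [if_neg hB, Subgroup.commutator_bot_right]; exact bot_le
      have hdec : ∀ c ∈ Cube (resΔ Δ s), ∃ a ∈ Cube (resΔ Δ (insert t s)),
          ∃ b ∈ Cube (resΔ' Δ s t), c = a * b := by
        intro c hc
        induction hc using closure_induction with
        | mem c hc =>
          obtain ⟨A, g, hg, rfl⟩ := hc
          rw [resΔ] at hg
          by_cases hs : s ⊆ A
          · rw [if_pos hs] at hg
            by_cases htA : t ∈ A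
            · refine ⟨pt A g, pt_mem_Cube ?_, 1, one_mem _, (mul_one _).symm⟩
              rw [resΔ, if_pos (Finset.insert_subset htA hs)]; exact hg
            · refine ⟨1, one_mem _, pt A g, pt_mem_Cube ?_, (one_mul _).symm⟩
              rw [resΔ', if_pos ⟨hs, htA⟩]; exact hg
          · rw [if_neg hs, Subgroup.mem_bot] at hg
            subst hg
            exact ⟨1, one_mem _, 1, one_mem _, by rw [map_one, mul_one]⟩
        | one => exact ⟨1, one_mem _, 1, one_mem _, (mul_one _).symm⟩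
        | mul c d _ _ hc hd =>
          obtain ⟨a, ha, b, hb, rfl⟩ := hc
          obtain ⟨a', ha', b', hb', rfl⟩ := hd
          refine ⟨a * (b * a' * b⁻¹), mul_mem ha (hconj b hb a' ha'), b * b', mul_mem hb hb', ?_⟩
          group
        | inv c _ hc =>
          obtain ⟨a, ha, b, hb, rfl⟩ := hc
          refine ⟨b⁻¹ * a⁻¹ * (b⁻¹)⁻¹, hconj _ (inv_mem hb) _ (inv_mem ha), b⁻¹, inv_mem hb, ?_⟩
          group
      obtain ⟨a, ha, b, hb, hab⟩ := hdec f ih
      have hra : retr t a = 1 := by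
        clear hab
        induction ha using closure_induction with
        | mem c hc =>
          obtain ⟨A, g, hg, rfl⟩ := hc
          rw [resΔ] at hg
          by_cases hs : insert t s ⊆ A
          · exact retr_pt_of_mem (hs (Finset.mem_insert_self t s)) g
          · rw [if_neg hs, Subgroup.mem_bot] at hg
            subst hg; simp
        | one => simp
        | mul c d _ _ hc hd => rw [map_mul, hc, hd, mul_one]
        | inv c _ hc => rw [map_inv, hc, inv_one]
      have hrb : retr t b = b := by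
        clear hab
        induction hb using closure_induction with
        | mem c hc =>
          obtain ⟨A, g, hg, rfl⟩ := hc
          rw [resΔ'] at hg
          by_cases hs : s ⊆ A ∧ t ∉ A
          · exact retr_pt_of_notMem hs.2 g
          · rw [if_neg hs, Subgroup.mem_bot] at hg
            subst hg; simp
        | one => simp
        | mul c d _ _ hc hd => rw [map_mul, hc, hd]
        | inv c _ hc => rw [map_inv, hc]
      have hrf : retr t f = 1 := by
        ext T
        show f (T.erase t) = 1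
        apply h1
        intro he
        exact Finset.notMem_erase t T (he ▸ Finset.mem_univ t)
      have hb1 : b = 1 := by
        rw [hab, map_mul, hra, hrb, one_mul] at hrf
        exact hrf
      rw [hab, hb1, mul_one]
      exact ha
  have h2 := key Finset.univ
  have h3 : ∀ c ∈ Cube (resΔ Δ Finset.univ), c Finset.univ ∈ Δ Finset.univ := by
    intro c hc
    induction hc using closure_induction with
    | mem c hc =>
      obtain ⟨A, g, hg, rfl⟩ := hc
      rw [resΔ] at hg
      by_cases hs : Finset.univ ⊆ A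
      · rw [if_pos hs] at hg
        have : A = Finset.univ := Finset.univ_subset_iff.1 hs
        subst this
        rw [pt_univ_self]; exact hg
      · rw [if_neg hs, Subgroup.mem_bot] at hg
        subst hg
        rw [map_one]; exact one_mem _
    | one => exact one_mem _
    | mul c d _ _ hc hd => exact mul_mem hc hd
    | inv c _ hc => exact inv_mem hc
  exact h3 f h2

theorem pt_univ_mem {Δ : Finset (Fin n) → Subgroup P} (h : ∀ A B, ⁅Δ A, Δ B⁆ ≤ Δ (A ∪ B))
    {g : P} (hg : pt (Finset.univ : Finset (Fin n)) g ∈ Cube Δ) : g ∈ Δ Finset.univ := by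
  have := Cube_full h hg (fun T hT => by
    rw [pt_apply, if_neg]
    intro h; exact hT (Finset.univ_subset_iff.1 h))
  rwa [pt_univ_self] at this

end Pool.Agent.Lib.MP_544bd1_al.E5
end

section

/-!
Groups of exponent `3` (Burnside) and of exponent `4` (Sanov) are locally finite.
-/

namespace Pool.Agent.Lib.MP_544bd1_al

open Subgroup

namespace Sanov

variable {G : Type*} [Group G]

/-- the word `x * h₁ * x * h₂ * ⋯ * x * hₙ` -/
def ev (x : G) : List G → G
  | [] => 1
  | h :: t => x * h * ev x t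

/-- `f [h₁, …, hₖ] = h₁ * (f [h₂, …, hₖ])⁻¹` -/
def f : List G → G
  | [] => 1
  | h :: t => h * (f t)⁻¹

theorem f_mem {H : Subgroup G} {l : List G} (hl : ∀ a ∈ l, a ∈ H) : f l ∈ H := by
  induction l with
  | nil => exact H.one_mem
  | cons a t ih =>
    exact H.mul_mem (hl a (by simp)) (H.inv_mem (ih fun b hb => hl b (by simp [hb])))

theorem f_append_eq {p t : List G} (h : f (p ++ t) = f p) : f t = 1 := by
  induction p with
  | nil => simpa [f] using h
  | cons a p ih =>
    apply ih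
    simpa [f] using h

theorem ev_append (x : G) (p q : List G) : ev x (p ++ q) = ev x p * ev x q := by
  induction p with
  | nil => simp [ev]
  | cons a p ih => simp [ev, ih, mul_assoc]

/-- words with `n` letters `x` -/
def T (H : Subgroup G) (x : G) (n : ℕ) : Set G :=
  {g | ∃ h ∈ H, ∃ l : List G, (∀ a ∈ l, a ∈ H) ∧ l.length = n ∧ g = h * ev x l}

theorem ev_mul_mem {H : Subgroup G} {x : G} {n : ℕ} {g : G} (hg : g ∈ T H x n) {p : List G}
    (hp : ∀ a ∈ p, a ∈ H) : ev x p * g ∈ T H x (p.length + n) := by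
  induction p with
  | nil => simpa [ev] using hg
  | cons a p ih =>
    obtain ⟨h, hh, l, hl, hln, he⟩ := ih fun b hb => hp b (by simp [hb])
    refine ⟨1, H.one_mem, (a * h) :: l, ?_, ?_, ?_⟩
    · intro b hb
      rcases List.mem_cons.1 hb with rfl | hb
      · exact H.mul_mem (hp a (by simp)) hh
      · exact hl b hb
    · simp [hln]; ring
    · simp only [ev, mul_assoc, one_mul]
      rw [he]

/-- the moves -/
theorem move (h4 : ∀ g : G, g ^ 4 = 1) {H : Subgroup G} {x : G} (hx : x ^ 2 ∈ H) (s : List G) :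
    ∀ a : G, ∀ r : List G, (∀ b ∈ a :: (s ++ r), b ∈ H) → r ≠ [] →
      ∃ u : List G, (∀ b ∈ u, b ∈ H) ∧ u.length = s.length + r.length ∧
        ev x (a :: (s ++ r)) = ev x (f (a :: s) :: u) := by
  induction s with
  | nil =>
    intro a r hr _
    exact ⟨r, fun b hb => hr b (by simp [hb]), by simp, by simp [f]⟩
  | cons b s ih =>
    intro a r hr hne
    obtain ⟨u, hu, hul, he⟩ := ih b r (fun c hc => hr c (by simp at hc ⊢; tauto)) hne
    have hulen : 0 < u.length := by
      have := List.length_pos_iff.2 hne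
      omega
    obtain ⟨d, u', rfl⟩ := List.exists_cons_of_ne_nil (List.length_pos_iff.1 hulen)
    set c := f (b :: s) with hc
    have hcH : c ∈ H := f_mem fun e he => hr e (by simp at he ⊢; tauto)
    have hxH : (x ^ 2)⁻¹ ∈ H := H.inv_mem hx
    have key : x * c * x = c⁻¹ * x * ((x ^ 2)⁻¹ * c⁻¹) * x * ((x ^ 2)⁻¹ * c⁻¹) := by
      have h1 : (x * c) ^ 4 = 1 := h4 _
      have h2 : x * c * x * c = (x * c * x * c)⁻¹ := by
        rw [eq_inv_iff_mul_eq_one]
        calc x * c * x * c * (x * c * x * c) = (x * c) ^ 4 := by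
              simp only [pow_succ, pow_zero, one_mul, mul_assoc]
          _ = 1 := h1
      calc x * c * x = (x * c * x * c) * c⁻¹ := by group
        _ = (x * c * x * c)⁻¹ * c⁻¹ := by rw [← h2]
        _ = _ := by group
    refine ⟨((x ^ 2)⁻¹ * c⁻¹) :: ((x ^ 2)⁻¹ * c⁻¹ * d) :: u', ?_, ?_, ?_⟩
    · intro e he
      simp only [List.mem_cons] at he
      rcases he with rfl | rfl | he
      · exact H.mul_mem hxH (H.inv_mem hcH)
      · exact H.mul_mem (H.mul_mem hxH (H.inv_mem hcH)) (hu d (by simp))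
      · exact hu e (by simp [he])
    · simp at hul ⊢; omega
    · have hf : f (a :: b :: s) = a * c⁻¹ := rfl
      rw [hf]
      have e1 : ev x (a :: (b :: s ++ r)) = x * a * ev x (b :: (s ++ r)) := rfl
      rw [e1, he]
      have e2 : ev x (c :: d :: u') = (x * c * x) * d * ev x u' := by
        simp only [ev, mul_assoc]
      rw [e2, key]
      simp only [ev, mul_assoc]

/-- shortening -/
theorem shorten (h4 : ∀ g : G, g ^ 4 = 1) {H : Subgroup G} [Finite H] {x : G} (hx : x ^ 2 ∈ H)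
    {l : List G} (hl : ∀ a ∈ l, a ∈ H) (hlen : Nat.card H + 2 ≤ l.length) :
    ev x l ∈ T H x (l.length - 2) := by
  classical
  -- pigeonhole
  have hmem : ∀ i, f (l.take i) ∈ H := fun i => f_mem fun a ha => hl a (List.mem_of_mem_take ha)
  let φ : Fin (Nat.card H + 1) → H := fun i => ⟨f (l.take (i + 1)), hmem _⟩
  have hninj : ¬ Function.Injective φ := by
    intro hinj
    have := Nat.card_le_card_of_injective φ hinj
    simp at this
  obtain ⟨i, j, hij, hlt⟩ : ∃ i j : Fin (Nat.card H + 1), φ i = φ j ∧ i < j := by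
    simp only [Function.Injective, not_forall] at hninj
    obtain ⟨i, j, hij, hne⟩ := hninj
    rcases lt_or_gt_of_ne hne with h | h
    · exact ⟨i, j, hij, h⟩
    · exact ⟨j, i, hij.symm, h⟩
  have hij' : f (l.take (i + 1)) = f (l.take (j + 1)) := congrArg Subtype.val hij
  have hlt' : (i : ℕ) < j := hlt
  have hj : (j : ℕ) < Nat.card H + 1 := j.2
  set p := l.take (i + 1) with hp
  set t := (l.take (j + 1)).drop (i + 1) with ht
  set r := l.drop (j + 1) with hr
  have hpt : l.take (j + 1) = p ++ t := by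
    rw [hp, ht]
    have : l.take (i + 1) = (l.take (j + 1)).take (i + 1) := by
      rw [List.take_take]; congr 1; omega
    rw [this, List.take_append_drop]
  have hl' : l = p ++ (t ++ r) := by
    rw [← List.append_assoc, ← hpt, hr, List.take_append_drop]
  have hft : f t = 1 := by
    apply f_append_eq (p := p)
    rw [← hpt, ← hij']
  have htlen : t.length = j - i := by
    rw [ht]; simp; omega
  have hrlen : r.length = l.length - (j + 1) := by
    rw [hr]; simp
  have hplen : p.length = i + 1 := by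
    rw [hp]; simp; omega
  have hrne : r ≠ [] := by
    apply List.ne_nil_of_length_pos
    omega
  obtain ⟨a, s, hts⟩ : ∃ a s, t = a :: s :=
    List.exists_cons_of_ne_nil (List.ne_nil_of_length_pos (by omega))
  have hallp : ∀ b ∈ p, b ∈ H := fun b hb => hl b (by rw [hl']; simp [hb])
  have hallt : ∀ b ∈ a :: (s ++ r), b ∈ H := by
    intro b hb
    apply hl b
    rw [hl', hts]
    simp at hb ⊢
    tauto
  obtain ⟨u, hu, hul, he⟩ := move h4 hx s a r hallt hrne
  have htl : s.length + 1 = t.length := by rw [hts]; simp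
  have hulen : 0 < u.length := by
    have := List.length_pos_iff.2 hrne
    omega
  obtain ⟨d, u', rfl⟩ := List.exists_cons_of_ne_nil (List.length_pos_iff.1 hulen)
  rw [← hts, hft] at he
  have h1 : ev x (t ++ r) ∈ T H x u'.length := by
    refine ⟨x ^ 2 * d, H.mul_mem hx (hu d (by simp)), u', fun b hb => hu b (by simp [hb]), rfl, ?_⟩
    rw [hts, List.cons_append, he]
    simp only [ev, mul_assoc, one_mul, pow_two]
  have h2 := ev_mul_mem h1 hallp
  rw [← ev_append, ← hl'] at h2
  have h3 : p.length + u'.length = l.length - 2 := by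
    simp at hul
    omega
  rwa [h3] at h2

theorem T_sub (h4 : ∀ g : G, g ^ 4 = 1) {H : Subgroup G} [Finite H] {x : G} (hx : x ^ 2 ∈ H)
    (n : ℕ) : T H x n ⊆ ⋃ m ∈ Finset.range (Nat.card H + 2), T H x m := by
  induction n using Nat.strong_induction_on with
  | _ n ih =>
    intro g hg
    by_cases hn : n < Nat.card H + 2
    · simp only [Set.mem_iUnion]
      exact ⟨n, by simpa using hn, hg⟩
    · obtain ⟨h, hh, l, hl, hln, rfl⟩ := hg
      have h1 := shorten h4 hx hl (by omega)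
      apply ih (n - 2) (by omega)
      obtain ⟨h', hh', l', hl', hln', he⟩ := h1
      refine ⟨h * h', H.mul_mem hh hh', l', hl', by omega, ?_⟩
      rw [he, mul_assoc]

theorem T_finite (H : Subgroup G) [Finite H] (x : G) (n : ℕ) : (T H x n).Finite := by
  have h1 : T H x n ⊆ Set.range
      (fun q : H × (Fin n → H) => (q.1 : G) * ev x (List.ofFn fun i => (q.2 i : G))) := by
    rintro g ⟨h, hh, l, hl, hln, rfl⟩
    subst hln
    refine ⟨(⟨h, hh⟩, fun i => ⟨l.get i, hl _ (List.get_mem _ _)⟩), ?_⟩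
    simp
  exact (Set.finite_range _).subset h1

theorem finite_adjoin (h4 : ∀ g : G, g ^ 4 = 1) {H : Subgroup G} [Finite H] {x : G}
    (hx : x ^ 2 ∈ H) : Finite (closure ((H : Set G) ∪ {x})) := by
  have hsub : (closure ((H : Set G) ∪ {x}) : Set G) ⊆ ⋃ n, T H x n := by
    intro g hg
    induction hg using Subgroup.closure_induction_left with
    | one =>
      exact Set.mem_iUnion.2 ⟨0, 1, H.one_mem, [], by simp, rfl, by simp [ev]⟩
    | mul_left y hy z hz ih =>
      obtain ⟨n, h, hh, l, hl, hln, rfl⟩ := Set.mem_iUnion.1 ih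
      rcases hy with hy | hy
      · exact Set.mem_iUnion.2 ⟨n, y * h, H.mul_mem hy hh, l, hl, hln, by rw [mul_assoc]⟩
      · rw [Set.mem_singleton_iff] at hy
        subst hy
        refine Set.mem_iUnion.2 ⟨n + 1, 1, H.one_mem, h :: l, ?_, by simp [hln], ?_⟩
        · intro b hb
          rcases List.mem_cons.1 hb with rfl | hb
          · exact hh
          · exact hl b hb
        · simp [ev, mul_assoc]
    | inv_mul_cancel y hy z hz ih =>
      obtain ⟨n, h, hh, l, hl, hln, rfl⟩ := Set.mem_iUnion.1 ih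
      rcases hy with hy | hy
      · exact Set.mem_iUnion.2 ⟨n, y⁻¹ * h, H.mul_mem (H.inv_mem hy) hh, l, hl, hln,
          by rw [mul_assoc]⟩
      · rw [Set.mem_singleton_iff] at hy
        subst hy
        refine Set.mem_iUnion.2 ⟨n + 1, 1, H.one_mem, ((y ^ 2)⁻¹ * h) :: l, ?_, by simp [hln], ?_⟩
        · intro b hb
          rcases List.mem_cons.1 hb with rfl | hb
          · exact H.mul_mem (H.inv_mem hx) hh
          · exact hl b hb
        · simp only [ev, one_mul]
          group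
  have hfin : (⋃ n, T H x n).Finite := by
    apply Set.Finite.subset _ (Set.iUnion_subset fun n => T_sub h4 hx n)
    apply Set.Finite.biUnion (Finset.finite_toSet _)
    intro m _
    exact T_finite H x m
  exact (hfin.subset hsub).to_subtype

/-- **Sanov.** -/
theorem finite_closure (h4 : ∀ g : G, g ^ 4 = 1) (S : Finset G) : Finite (closure (S : Set G)) := by
  classical
  induction S using Finset.induction_on with
  | empty => simp only [Finset.coe_empty, Subgroup.closure_empty]; infer_instance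
  | insert a S ha ih =>
    have h1 : Finite (closure ((closure (S : Set G) : Set G) ∪ {a ^ 2})) := by
      apply finite_adjoin h4
      rw [← pow_mul, h4]
      exact one_mem _
    have h2 : Finite (closure ((closure ((closure (S : Set G) : Set G) ∪ {a ^ 2}) : Set G) ∪
        {a})) := by
      apply finite_adjoin h4
      exact subset_closure (Or.inr rfl)
    have hle : closure ((insert a S : Finset G) : Set G) ≤
        closure ((closure ((closure (S : Set G) : Set G) ∪ {a ^ 2}) : Set G) ∪ {a}) := by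
      rw [Subgroup.closure_le]
      intro b hb
      rw [Finset.coe_insert] at hb
      rcases hb with rfl | hb
      · exact subset_closure (Or.inr rfl)
      · exact subset_closure (Or.inl (subset_closure (Or.inl (subset_closure hb))))
    exact Finite.of_injective _ (Subgroup.inclusion_injective hle)

/-- words of length at most two for the exponent three -/
def A3 (H : Subgroup G) (x : G) : Set G :=
  {g | g ∈ H} ∪ {g | ∃ a ∈ H, ∃ b ∈ H, g = a * x * b} ∪ {g | ∃ a ∈ H, ∃ b ∈ H, g = a * x⁻¹ * b} ∪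
    {g | ∃ a ∈ H, ∃ b ∈ H, ∃ c ∈ H, g = a * x * b * x⁻¹ * c} ∪
    {g | ∃ a ∈ H, ∃ b ∈ H, ∃ c ∈ H, g = a * x⁻¹ * b * x * c}

theorem A3_inv (H : Subgroup G) (x : G) : A3 H x⁻¹ = A3 H x := by
  apply Set.Subset.antisymm
  · rintro g ((((h | h) | h) | h) | h)
    · exact Or.inl (Or.inl (Or.inl (Or.inl h)))
    · exact Or.inl (Or.inl (Or.inr h))
    · rw [inv_inv] at h
      exact Or.inl (Or.inl (Or.inl (Or.inr h)))
    · rw [inv_inv] at h
      exact Or.inr h
    · exact Or.inl (Or.inr (by simpa using h))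
  · rintro g ((((h | h) | h) | h) | h)
    · exact Or.inl (Or.inl (Or.inl (Or.inl h)))
    · exact Or.inl (Or.inl (Or.inr (by simpa using h)))
    · exact Or.inl (Or.inl (Or.inl (Or.inr h)))
    · exact Or.inr (by simpa using h)
    · exact Or.inl (Or.inr (by simpa using h))

theorem pow3 (h3 : ∀ g : G, g ^ 3 = 1) (x h : G) : x * h * x = h⁻¹ * x⁻¹ * h⁻¹ := by
  have h1 : (x * h) ^ 3 = 1 := h3 _
  have h2 : x * h * x * (h * x * h) = 1 := by
    calc x * h * x * (h * x * h) = (x * h) ^ 3 := by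
          simp only [pow_succ, pow_zero, one_mul, mul_assoc]
      _ = 1 := h1
  rw [← eq_inv_iff_mul_eq_one] at h2
  rw [h2]
  group

theorem inv3 (h3 : ∀ g : G, g ^ 3 = 1) (x : G) : x⁻¹ = x * x := by
  rw [inv_eq_iff_mul_eq_one]
  have := h3 x
  rw [← this]
  simp only [pow_succ, pow_zero, one_mul, mul_assoc]

theorem A3_mul_left (h3 : ∀ g : G, g ^ 3 = 1) {H : Subgroup G} {x : G} {g : G}
    (hg : g ∈ A3 H x) : x * g ∈ A3 H x := by
  rcases hg with (((hg | ⟨a, ha, b, hb, rfl⟩) | ⟨a, ha, b, hb, rfl⟩) | ⟨a, ha, b, hb, c, hc, rfl⟩) |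
    ⟨a, ha, b, hb, c, hc, rfl⟩
  · exact Or.inl (Or.inl (Or.inl (Or.inr ⟨1, H.one_mem, g, hg, by simp⟩)))
  · refine Or.inl (Or.inl (Or.inr ⟨a⁻¹, H.inv_mem ha, a⁻¹ * b,
      H.mul_mem (H.inv_mem ha) hb, ?_⟩))
    calc x * (a * x * b) = (x * a * x) * b := by group
      _ = _ := by rw [pow3 h3]; group
  · exact Or.inl (Or.inr ⟨1, H.one_mem, a, ha, b, hb, by group⟩)
  · refine Or.inl (Or.inl (Or.inl (Or.inr ⟨a⁻¹ * (a⁻¹ * b)⁻¹,
      H.mul_mem (H.inv_mem ha) (H.inv_mem (H.mul_mem (H.inv_mem ha) hb)), (a⁻¹ * b)⁻¹ * c,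
      H.mul_mem (H.inv_mem (H.mul_mem (H.inv_mem ha) hb)) hc, ?_⟩)))
    have h1 := pow3 h3 x⁻¹ (a⁻¹ * b)
    calc x * (a * x * b * x⁻¹ * c) = (x * a * x) * b * x⁻¹ * c := by group
      _ = a⁻¹ * (x⁻¹ * (a⁻¹ * b) * x⁻¹) * c := by rw [pow3 h3]; group
      _ = _ := by rw [h1, inv_inv]; group
  · refine Or.inl (Or.inl (Or.inl (Or.inr ⟨a⁻¹ * (a⁻¹ * b⁻¹)⁻¹,
      H.mul_mem (H.inv_mem ha) (H.inv_mem (H.mul_mem (H.inv_mem ha) (H.inv_mem hb))),
      (a⁻¹ * b⁻¹)⁻¹ * (b⁻¹ * c),
      H.mul_mem (H.inv_mem (H.mul_mem (H.inv_mem ha) (H.inv_mem hb)))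
        (H.mul_mem (H.inv_mem hb) hc), ?_⟩)))
    have h1 := pow3 h3 x⁻¹ (a⁻¹ * b⁻¹)
    calc x * (a * x⁻¹ * b * x * c) = (x * a * x) * (x * b * x) * c := by
          rw [inv3 h3 x]; simp only [mul_assoc]
      _ = a⁻¹ * (x⁻¹ * (a⁻¹ * b⁻¹) * x⁻¹) * (b⁻¹ * c) := by
          rw [pow3 h3 x a, pow3 h3 x b]; simp only [mul_assoc]
      _ = _ := by rw [h1, inv_inv]; simp only [mul_assoc]

theorem A3_mul_H {H : Subgroup G} {x : G} {g h : G} (hh : h ∈ H)
    (hg : g ∈ A3 H x) : h * g ∈ A3 H x := by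
  rcases hg with (((hg | ⟨a, ha, b, hb, rfl⟩) | ⟨a, ha, b, hb, rfl⟩) | ⟨a, ha, b, hb, c, hc, rfl⟩) |
    ⟨a, ha, b, hb, c, hc, rfl⟩
  · exact Or.inl (Or.inl (Or.inl (Or.inl (H.mul_mem hh hg))))
  · exact Or.inl (Or.inl (Or.inl (Or.inr ⟨h * a, H.mul_mem hh ha, b, hb, by group⟩)))
  · exact Or.inl (Or.inl (Or.inr ⟨h * a, H.mul_mem hh ha, b, hb, by group⟩))
  · exact Or.inl (Or.inr ⟨h * a, H.mul_mem hh ha, b, hb, c, hc, by group⟩)
  · exact Or.inr ⟨h * a, H.mul_mem hh ha, b, hb, c, hc, by group⟩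

theorem A3_finite (H : Subgroup G) [Finite H] (x : G) : (A3 H x).Finite := by
  have f1 : {g | ∃ a ∈ H, ∃ b ∈ H, g = a * x * b}.Finite := by
    apply (Set.finite_range fun q : H × H => (q.1 : G) * x * q.2).subset
    rintro _ ⟨a, ha, b, hb, rfl⟩
    exact ⟨(⟨a, ha⟩, ⟨b, hb⟩), rfl⟩
  have f2 : {g | ∃ a ∈ H, ∃ b ∈ H, g = a * x⁻¹ * b}.Finite := by
    apply (Set.finite_range fun q : H × H => (q.1 : G) * x⁻¹ * q.2).subset
    rintro _ ⟨a, ha, b, hb, rfl⟩
    exact ⟨(⟨a, ha⟩, ⟨b, hb⟩), rfl⟩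
  have f3 : {g | ∃ a ∈ H, ∃ b ∈ H, ∃ c ∈ H, g = a * x * b * x⁻¹ * c}.Finite := by
    apply (Set.finite_range fun q : H × H × H => (q.1 : G) * x * q.2.1 * x⁻¹ * q.2.2).subset
    rintro _ ⟨a, ha, b, hb, c, hc, rfl⟩
    exact ⟨(⟨a, ha⟩, ⟨b, hb⟩, ⟨c, hc⟩), rfl⟩
  have f4 : {g | ∃ a ∈ H, ∃ b ∈ H, ∃ c ∈ H, g = a * x⁻¹ * b * x * c}.Finite := by
    apply (Set.finite_range fun q : H × H × H => (q.1 : G) * x⁻¹ * q.2.1 * x * q.2.2).subset
    rintro _ ⟨a, ha, b, hb, c, hc, rfl⟩
    exact ⟨(⟨a, ha⟩, ⟨b, hb⟩, ⟨c, hc⟩), rfl⟩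
  have f0 : {g | g ∈ H}.Finite := Set.toFinite (H : Set G)
  exact (((f0.union f1).union f2).union f3).union f4

theorem finite_adjoin_three (h3 : ∀ g : G, g ^ 3 = 1) (H : Subgroup G) [Finite H] (x : G) :
    Finite (closure ((H : Set G) ∪ {x})) := by
  have hsub : (closure ((H : Set G) ∪ {x}) : Set G) ⊆ A3 H x := by
    intro g hg
    induction hg using Subgroup.closure_induction_left with
    | one => exact Or.inl (Or.inl (Or.inl (Or.inl H.one_mem)))
    | mul_left y hy z hz ih =>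
      rcases hy with hy | hy
      · exact A3_mul_H hy ih
      · rw [Set.mem_singleton_iff] at hy
        subst hy
        exact A3_mul_left h3 ih
    | inv_mul_cancel y hy z hz ih =>
      rcases hy with hy | hy
      · exact A3_mul_H (H.inv_mem hy) ih
      · rw [Set.mem_singleton_iff] at hy
        subst hy
        rw [← A3_inv] at ih ⊢
        exact A3_mul_left h3 ih
  exact ((A3_finite H x).subset hsub).to_subtype

/-- **Burnside**, exponent three. -/
theorem finite_closure_three (h3 : ∀ g : G, g ^ 3 = 1) (S : Finset G) :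
    Finite (closure (S : Set G)) := by
  classical
  induction S using Finset.induction_on with
  | empty => simp only [Finset.coe_empty, Subgroup.closure_empty]; infer_instance
  | insert a S ha ih =>
    have h1 : Finite (closure ((closure (S : Set G) : Set G) ∪ {a})) :=
      finite_adjoin_three h3 _ a
    have hle : closure ((insert a S : Finset G) : Set G) ≤
        closure ((closure (S : Set G) : Set G) ∪ {a}) := by
      rw [Subgroup.closure_le]
      intro b hb
      rw [Finset.coe_insert] at hb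
      rcases hb with rfl | hb
      · exact subset_closure (Or.inr rfl)
      · exact subset_closure (Or.inl (subset_closure hb))
    exact Finite.of_injective _ (Subgroup.inclusion_injective hle)

end Sanov

theorem four_mem : 4 ∈ LocFinExponents := by
  refine ⟨by norm_num, ?_⟩
  rintro G _ hG H ⟨S, rfl⟩
  exact Sanov.finite_closure hG S

theorem three_mem : 3 ∈ LocFinExponents := by
  refine ⟨by norm_num, ?_⟩
  rintro G _ hG H ⟨S, rfl⟩
  exact Sanov.finite_closure_three hG S

end Pool.Agent.Lib.MP_544bd1_al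
end

section

/-!
# The series of a cube group

Let `S` be a series of `P` and `w t` the weight (minus one) of the letter `t`. The cube group has a
series in which each letter has weight one.
-/

namespace Pool.Agent.Lib.MP_544bd1_al.E5

open Subgroup
open scoped commutatorElement

variable {P : Type*} [Group P] {n : ℕ}

/-- the weight of a set of letters -/
def wtA (w : Fin n → ℕ) (A : Finset (Fin n)) : ℕ := ∑ t ∈ A, (w t + 1)

theorem card_le_wtA (w : Fin n → ℕ) (A : Finset (Fin n)) : A.card ≤ wtA w A := by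
  rw [wtA, Finset.card_eq_sum_ones]
  exact Finset.sum_le_sum fun t _ => by omega

theorem wtA_union_inter (w : Fin n → ℕ) (A B : Finset (Fin n)) :
    wtA w (A ∪ B) + wtA w (A ∩ B) = wtA w A + wtA w B :=
  Finset.sum_union_inter

theorem wtA_insert {w : Fin n → ℕ} {A : Finset (Fin n)} {t : Fin n} (h : t ∉ A) :
    wtA w (insert t A) = wtA w A + (w t + 1) := by
  rw [wtA, Finset.sum_insert h, add_comm]; rfl

theorem wtA_singleton (w : Fin n → ℕ) (t : Fin n) : wtA w {t} = w t + 1 := by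
  rw [wtA, Finset.sum_singleton]

/-- the subgroups defining the series of the cube group -/
def cubeΔ (S : Ser P) (w : Fin n → ℕ) (c : ℕ) (A : Finset (Fin n)) : Subgroup P :=
  S.F (wtA w A + (c - A.card) - 1)

theorem cubeΔ_comm (S : Ser P) (w : Fin n → ℕ) {c c' d : ℕ} (hc : 1 ≤ c) (hc' : 1 ≤ c')
    (hd : d ≤ c + c') (A B : Finset (Fin n)) :
    ⁅cubeΔ S w c A, cubeΔ S w c' B⁆ ≤ cubeΔ S w d (A ∪ B) := by
  refine (S.comm _ _).trans (S.mono ?_)
  have h1 := wtA_union_inter w A B
  have h2 := Finset.card_union_add_card_inter A B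
  have h3 := card_le_wtA w (A ∩ B)
  have h4 := card_le_wtA w A
  have h5 := card_le_wtA w B
  omega

/-- the series of the cube group -/
def cubeSer (S : Ser P) (w : Fin n → ℕ) : Ser (CK P n) where
  F i := Cube (cubeΔ S w (i + 1))
  anti i := Cube_mono fun A => S.mono (by omega)
  comm i j := Cube_comm
    (fun A B => cubeΔ_comm S w (by omega) (by omega) (by omega) A B)
    (fun A B => cubeΔ_comm S w (by omega) (by omega) (by omega) A B)
    (fun A B => cubeΔ_comm S w (by omega) (by omega) (by omega) A B)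

theorem letter_mem (S : Ser P) (w : Fin n → ℕ) {t : Fin n} {z : P} (hz : z ∈ S.F (w t)) :
    pt {t} z ∈ (cubeSer S w).F 0 := by
  apply pt_mem_Cube
  show z ∈ S.F _
  rw [wtA_singleton, Finset.card_singleton]
  exact hz

theorem pt_mem_F (S : Ser P) (w : Fin n → ℕ) {A : Finset (Fin n)} {g : P}
    (hg : g ∈ S.F (wtA w A - 1)) (hA : 1 ≤ A.card) :
    pt A g ∈ (cubeSer S w).F (A.card - 1) := by
  apply pt_mem_Cube
  show g ∈ S.F _
  rw [show A.card - 1 + 1 = A.card by omega, Nat.sub_self]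
  exact hg

/-- corresponding classes in the cube group and in `P` -/
def Rel (S : Ser P) (w : Fin n → ℕ) (A : Finset (Fin n)) (m : (cubeSer S w).M) (m' : S.M) :
    Prop :=
  ∃ g ∈ S.F (wtA w A - 1), m = (cubeSer S w).cls (A.card - 1) (pt A g) ∧
    m' = S.cls (wtA w A - 1) g

theorem Rel.add {S : Ser P} {w : Fin n → ℕ} {A : Finset (Fin n)} (hA : 1 ≤ A.card)
    {m₁ m₂ : (cubeSer S w).M} {m₁' m₂' : S.M} (h₁ : Rel S w A m₁ m₁') (h₂ : Rel S w A m₂ m₂') :
    Rel S w A (m₁ + m₂) (m₁' + m₂') := by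
  obtain ⟨g, hg, rfl, rfl⟩ := h₁
  obtain ⟨h, hh, rfl, rfl⟩ := h₂
  refine ⟨g * h, mul_mem hg hh, ?_, ?_⟩
  · rw [map_mul, Ser.cls_mul _ (pt_mem_F S w hg hA) (pt_mem_F S w hh hA)]
  · rw [S.cls_mul hg hh]

theorem Rel_base (S : Ser P) (w : Fin n → ℕ) {t : Fin n} {z : P} (hz : z ∈ S.F (w t)) :
    Rel S w {t} ((cubeSer S w).cls 0 (pt {t} z)) (S.cls (w t) z) := by
  refine ⟨z, ?_, ?_, ?_⟩
  · rw [wtA_singleton]; exact hz
  · rw [Finset.card_singleton]
  · rw [wtA_singleton]; rfl

theorem Rel_step {S : Ser P} {w : Fin n → ℕ} {A : Finset (Fin n)} (hA : 1 ≤ A.card) {t : Fin n}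
    (ht : t ∉ A) {z : P} (hz : z ∈ S.F (w t)) {m : (cubeSer S w).M} {m' : S.M}
    (h : Rel S w A m m') :
    Rel S w (insert t A) ((cubeSer S w).act m ((cubeSer S w).ado 0 (pt {t} z)))
      (S.act m' (S.ado (w t) z)) := by
  obtain ⟨g, hg, rfl, rfl⟩ := h
  have h1 := card_le_wtA w A
  refine ⟨⁅g, z⁆, ?_, ?_, ?_⟩
  · rw [wtA_insert ht]
    have := S.comm_mem hg hz
    rwa [show wtA w A - 1 + w t + 1 = wtA w A + (w t + 1) - 1 by omega] at this
  · rw [Ser.act_cls _ (pt_mem_F S w hg hA) (letter_mem S w hz), pt_comm,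
      Finset.card_insert_of_notMem ht, Finset.union_comm, ← Finset.insert_eq,
      show A.card - 1 + 0 + 1 = A.card + 1 - 1 by omega]
  · rw [S.act_cls hg hz, wtA_insert ht,
      show wtA w A - 1 + w t + 1 = wtA w A + (w t + 1) - 1 by omega]

/-- if the class in the cube group vanishes, so does the class in `P` -/
theorem Rel_zero {S : Ser P} {w : Fin n → ℕ} (hn : 1 ≤ n) {m' : S.M}
    (h : Rel S w Finset.univ 0 m') : m' = 0 := by
  obtain ⟨g, hg, h0, rfl⟩ := h
  have hcard : (Finset.univ : Finset (Fin n)).card = n := by simp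
  have hA : 1 ≤ (Finset.univ : Finset (Fin n)).card := by omega
  have h1 := (Ser.cls_eq_zero _ (pt_mem_F S w hg hA)).1 h0.symm
  have h2 : g ∈ cubeΔ S w (n + 1) Finset.univ := by
    apply pt_univ_mem _ (Δ := cubeΔ S w (n + 1))
    · rw [hcard, show n - 1 + 1 = n by omega] at h1
      exact h1
    · exact fun A B => cubeΔ_comm S w (by omega) (by omega) (by omega) A B
  have h3 := card_le_wtA w (Finset.univ : Finset (Fin n))
  rw [cubeΔ, hcard, show n + 1 - n = 1 by omega] at h2
  rw [S.cls_eq_zero hg]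
  rwa [show wtA w Finset.univ - 1 + 1 = wtA w Finset.univ + 1 - 1 by omega]

end Pool.Agent.Lib.MP_544bd1_al.E5
end

section

/-!
# Linearised laws in the graded module of a series
-/

namespace Pool.Agent.Lib.MP_544bd1_al.E5

open Subgroup
open scoped commutatorElement

variable {P : Type*} [Group P] {n : ℕ}

section rel

variable {S : Ser P} {w : Fin n → ℕ} {z : Fin n → P} (hz : ∀ t, z t ∈ S.F (w t))

/-- the operator of a letter in the cube group -/
noncomputable abbrev lT (S : Ser P) (w : Fin n → ℕ) (z : Fin n → P) (t : Fin n) :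
    (cubeSer S w).Rg := (cubeSer S w).ado 0 (pt {t} (z t))

/-- the operator of a letter in `P` -/
noncomputable abbrev lS (S : Ser P) (w : Fin n → ℕ) (z : Fin n → P) (t : Fin n) : S.Rg :=
  S.ado (w t) (z t)

theorem Rel_congr {A B : Finset (Fin n)} (h : A = B) {m : (cubeSer S w).M} {m' : S.M}
    (h' : Rel S w A m m') : Rel S w B m m' := h ▸ h'

include hz in
theorem Rel_mul {A : Finset (Fin n)} (_hA : 1 ≤ A.card) {m : (cubeSer S w).M} {m' : S.M}
    {r : (cubeSer S w).Rg} {r' : S.Rg} {B : Finset (Fin n)} (hB : 1 ≤ B.card)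
    (h : Rel S w B ((cubeSer S w).act m r) (S.act m' r')) {t : Fin n} (ht : t ∉ B)
    (hAB : A = insert t B) :
    Rel S w A ((cubeSer S w).act m (r * lT S w z t)) (S.act m' (r' * lS S w z t)) := by
  rw [Ser.act_mul, Ser.act_mul, hAB]
  exact Rel_step hB ht (hz t) h

theorem Rel_addr {A : Finset (Fin n)} (hA : 1 ≤ A.card) {m : (cubeSer S w).M} {m' : S.M}
    {r s : (cubeSer S w).Rg} {r' s' : S.Rg}
    (h : Rel S w A ((cubeSer S w).act m r) (S.act m' r'))
    (h' : Rel S w A ((cubeSer S w).act m s) (S.act m' s')) :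
    Rel S w A ((cubeSer S w).act m (r + s)) (S.act m' (r' + s')) := by
  rw [Ser.act_add, Ser.act_add]
  exact Rel.add hA h h'

include hz in
theorem Rel_s2 {A : Finset (Fin n)} (hA : 1 ≤ A.card) {m : (cubeSer S w).M} {m' : S.M}
    (h : Rel S w A m m') {a b : Fin n} (ha : a ∉ A) (hb : b ∉ A) (hab : a ≠ b)
    {B : Finset (Fin n)} (hB : B = insert b (insert a A)) :
    Rel S w B ((cubeSer S w).act m (s2 (lT S w z a) (lT S w z b)))
      (S.act m' (s2 (lS S w z a) (lS S w z b))) := by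
  have hB1 : 1 ≤ B.card := by
    rw [hB]; exact Finset.card_pos.2 (Finset.insert_nonempty _ _)
  rw [s2, s2]
  apply Rel_addr hB1
  · rw [hB, Ser.act_mul, Ser.act_mul]
    refine Rel_step (Finset.card_pos.2 (Finset.insert_nonempty _ _)) ?_ (hz b)
      (Rel_step hA ha (hz a) h)
    simp [hb, Ne.symm hab]
  · rw [hB, Finset.insert_comm, Ser.act_mul, Ser.act_mul]
    refine Rel_step (Finset.card_pos.2 (Finset.insert_nonempty _ _)) ?_ (hz a)
      (Rel_step hA hb (hz b) h)
    simp [ha, hab]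

include hz in
theorem Rel_s3 {A : Finset (Fin n)} (hA : 1 ≤ A.card) {m : (cubeSer S w).M} {m' : S.M}
    (h : Rel S w A m m') {a b c : Fin n} (ha : a ∉ A) (hb : b ∉ A) (hc : c ∉ A)
    (hab : a ≠ b) (hac : a ≠ c) (hbc : b ≠ c)
    {B : Finset (Fin n)} (hB : B = insert c (insert b (insert a A))) :
    Rel S w B ((cubeSer S w).act m (s3 (lT S w z a) (lT S w z b) (lT S w z c)))
      (S.act m' (s3 (lS S w z a) (lS S w z b) (lS S w z c))) := by
  have hB1 : 1 ≤ B.card := by
    rw [hB]; exact Finset.card_pos.2 (Finset.insert_nonempty _ _)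
  have hne : ∀ x y : Fin n, 1 ≤ (insert x (insert y A)).card := fun x y =>
    Finset.card_pos.2 (Finset.insert_nonempty _ _)
  rw [s3, s3]
  refine Rel_addr hB1 (Rel_addr hB1 ?_ ?_) ?_
  · refine Rel_mul hz hB1 (hne b a) (Rel_s2 hz hA h ha hb hab rfl) ?_ hB
    simp [hc, Ne.symm hac, Ne.symm hbc]
  · refine Rel_mul hz hB1 (hne c a) (Rel_s2 hz hA h ha hc hac rfl) ?_ ?_
    · simp [hb, Ne.symm hab, hbc]
    · rw [hB, Finset.insert_comm]
  · refine Rel_mul hz hB1 (hne c b) (Rel_s2 hz hA h hb hc hbc rfl) ?_ ?_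
    · simp [ha, hab, hac]
    · rw [hB, Finset.insert_comm b a, Finset.insert_comm c a]

include hz in
theorem Rel_s4 {A : Finset (Fin n)} (hA : 1 ≤ A.card) {m : (cubeSer S w).M} {m' : S.M}
    (h : Rel S w A m m') {a b c d : Fin n} (ha : a ∉ A) (hb : b ∉ A) (hc : c ∉ A) (hd : d ∉ A)
    (hab : a ≠ b) (hac : a ≠ c) (hbc : b ≠ c) (had : a ≠ d) (hbd : b ≠ d) (hcd : c ≠ d)
    {B : Finset (Fin n)} (hB : B = insert d (insert c (insert b (insert a A)))) :
    Rel S w B ((cubeSer S w).act m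
        (s4 (lT S w z a) (lT S w z b) (lT S w z c) (lT S w z d)))
      (S.act m' (s4 (lS S w z a) (lS S w z b) (lS S w z c) (lS S w z d))) := by
  have hB1 : 1 ≤ B.card := by
    rw [hB]; exact Finset.card_pos.2 (Finset.insert_nonempty _ _)
  have hne : ∀ x y u : Fin n, 1 ≤ (insert x (insert y (insert u A))).card := fun x y u =>
    Finset.card_pos.2 (Finset.insert_nonempty _ _)
  rw [s4, s4]
  refine Rel_addr hB1 (Rel_addr hB1 (Rel_addr hB1 ?_ ?_) ?_) ?_
  · refine Rel_mul hz hB1 (hne c b a) (Rel_s3 hz hA h ha hb hc hab hac hbc rfl) ?_ hB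
    simp [hd, Ne.symm had, Ne.symm hbd, Ne.symm hcd]
  · refine Rel_mul hz hB1 (hne d b a) (Rel_s3 hz hA h ha hb hd hab had hbd rfl) ?_ ?_
    · simp [hc, Ne.symm hac, Ne.symm hbc, hcd]
    · rw [hB, Finset.insert_comm]
  · refine Rel_mul hz hB1 (hne d c a) (Rel_s3 hz hA h ha hc hd hac had hcd rfl) ?_ ?_
    · simp [hb, Ne.symm hab, hbc, hbd]
    · rw [hB, Finset.insert_comm c b, Finset.insert_comm d b]
  · refine Rel_mul hz hB1 (hne d c b) (Rel_s3 hz hA h hb hc hd hbc hbd hcd rfl) ?_ ?_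
    · simp [ha, hab, hac, had]
    · rw [hB, Finset.insert_comm b a, Finset.insert_comm c a, Finset.insert_comm d a]

end rel

section pol

variable {K : Type*} [Group K] (T : Ser K)

theorem pol3 {Z : AddSubgroup T.M} {m : T.M}
    (key : ∀ y ∈ T.F 0, T.act m (T.ado 0 y ^ 3) ∈ Z) {a b c : K} (ha : a ∈ T.F 0)
    (hb : b ∈ T.F 0) (hc : c ∈ T.F 0) :
    T.act m (s3 (T.ado 0 a) (T.ado 0 b) (T.ado 0 c)) ∈ Z := by
  have mab := mul_mem ha hb
  have mac := mul_mem ha hc
  have mbc := mul_mem hb hc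
  have mabc := mul_mem mab hc
  have e1 := T.ado_mul ha hb
  have e2 := T.ado_mul ha hc
  have e3 := T.ado_mul hb hc
  have e4 := T.ado_mul mab hc
  rw [e1] at e4
  rw [s3_eq, ← e4, ← e1, ← e2, ← e3]
  simp only [T.act_add, T.act_sub]
  exact Z.add_mem (Z.add_mem (Z.add_mem (Z.sub_mem (Z.sub_mem (Z.sub_mem (key _ mabc)
    (key _ mab)) (key _ mac)) (key _ mbc)) (key _ ha)) (key _ hb)) (key _ hc)

theorem pol4 {Z : AddSubgroup T.M} {m : T.M}
    (key : ∀ y ∈ T.F 0, T.act m (T.ado 0 y ^ 4) ∈ Z) {a b c d : K} (ha : a ∈ T.F 0)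
    (hb : b ∈ T.F 0) (hc : c ∈ T.F 0) (hd : d ∈ T.F 0) :
    T.act m (s4 (T.ado 0 a) (T.ado 0 b) (T.ado 0 c) (T.ado 0 d)) ∈ Z := by
  have mab := mul_mem ha hb
  have mac := mul_mem ha hc
  have mad := mul_mem ha hd
  have mbc := mul_mem hb hc
  have mbd := mul_mem hb hd
  have mcd := mul_mem hc hd
  have mabc := mul_mem mab hc
  have mabd := mul_mem mab hd
  have macd := mul_mem mac hd
  have mbcd := mul_mem mbc hd
  have mabcd := mul_mem mabc hd
  have e1 := T.ado_mul ha hb
  have e2 := T.ado_mul ha hc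
  have e3 := T.ado_mul ha hd
  have e4 := T.ado_mul hb hc
  have e5 := T.ado_mul hb hd
  have e6 := T.ado_mul hc hd
  have e7 := T.ado_mul mab hc
  have e8 := T.ado_mul mab hd
  have e9 := T.ado_mul mac hd
  have e10 := T.ado_mul mbc hd
  have e11 := T.ado_mul mabc hd
  rw [e7, e1] at e11
  rw [e1] at e7 e8
  rw [e2] at e9
  rw [e4] at e10
  rw [s4_eq, ← e11, ← e7, ← e8, ← e9, ← e10, ← e1, ← e2, ← e3, ← e4, ← e5, ← e6]
  simp only [T.act_add, T.act_sub]
  have k := key
  refine Z.sub_mem (Z.sub_mem (Z.sub_mem (Z.sub_mem (Z.add_mem (Z.add_mem (Z.add_mem (Z.add_mem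
    (Z.add_mem (Z.add_mem (Z.sub_mem (Z.sub_mem (Z.sub_mem (Z.sub_mem (k _ mabcd) (k _ mabc))
    (k _ mabd)) (k _ macd)) (k _ mbcd)) (k _ mab)) (k _ mac)) (k _ mad)) (k _ mbc)) (k _ mbd))
    (k _ mcd)) (k _ ha)) (k _ hb)) (k _ hc)) (k _ hd)

theorem pol_e5 {m m' : T.M} {q q' : T.Rg}
    (key : ∀ y ∈ T.F 0, T.act m (T.ado 0 y ^ 2 * q * T.ado 0 y) +
      T.act m' (T.ado 0 y ^ 2 * q' * T.ado 0 y) = 0) {a b c : K} (ha : a ∈ T.F 0)
    (hb : b ∈ T.F 0) (hc : c ∈ T.F 0) :
    T.act m (e5 q (T.ado 0 a) (T.ado 0 b) (T.ado 0 c)) +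
      T.act m' (e5 q' (T.ado 0 a) (T.ado 0 b) (T.ado 0 c)) = 0 := by
  have mab := mul_mem ha hb
  have mac := mul_mem ha hc
  have mbc := mul_mem hb hc
  have mabc := mul_mem mab hc
  have e1 := T.ado_mul ha hb
  have e2 := T.ado_mul ha hc
  have e3 := T.ado_mul hb hc
  have e4 := T.ado_mul mab hc
  rw [e1] at e4
  rw [e5_eq, e5_eq, ← e4, ← e1, ← e2, ← e3]
  simp only [T.act_add, T.act_sub]
  rw [eq_neg_of_add_eq_zero_left (key _ mabc), eq_neg_of_add_eq_zero_left (key _ mab),
    eq_neg_of_add_eq_zero_left (key _ mac), eq_neg_of_add_eq_zero_left (key _ mbc),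
    eq_neg_of_add_eq_zero_left (key _ ha), eq_neg_of_add_eq_zero_left (key _ hb),
    eq_neg_of_add_eq_zero_left (key _ hc)]
  abel

theorem pol_e6 {m m' : T.M} {q q' : T.Rg}
    (key : ∀ y ∈ T.F 0, T.act m (T.ado 0 y ^ 3 * q * T.ado 0 y) +
      T.act m' (T.ado 0 y ^ 3 * q' * T.ado 0 y) = 0) {a b c d : K} (ha : a ∈ T.F 0)
    (hb : b ∈ T.F 0) (hc : c ∈ T.F 0) (hd : d ∈ T.F 0) :
    T.act m (e6 q (T.ado 0 a) (T.ado 0 b) (T.ado 0 c) (T.ado 0 d)) +
      T.act m' (e6 q' (T.ado 0 a) (T.ado 0 b) (T.ado 0 c) (T.ado 0 d)) = 0 := by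
  have mab := mul_mem ha hb
  have mac := mul_mem ha hc
  have mad := mul_mem ha hd
  have mbc := mul_mem hb hc
  have mbd := mul_mem hb hd
  have mcd := mul_mem hc hd
  have mabc := mul_mem mab hc
  have mabd := mul_mem mab hd
  have macd := mul_mem mac hd
  have mbcd := mul_mem mbc hd
  have mabcd := mul_mem mabc hd
  have e1 := T.ado_mul ha hb
  have e2 := T.ado_mul ha hc
  have e3 := T.ado_mul ha hd
  have e4 := T.ado_mul hb hc
  have e5 := T.ado_mul hb hd
  have e6 := T.ado_mul hc hd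
  have e7 := T.ado_mul mab hc
  have e8 := T.ado_mul mab hd
  have e9 := T.ado_mul mac hd
  have e10 := T.ado_mul mbc hd
  have e11 := T.ado_mul mabc hd
  rw [e7, e1] at e11
  rw [e1] at e7 e8
  rw [e2] at e9
  rw [e4] at e10
  rw [e6_eq, e6_eq, ← e11, ← e7, ← e8, ← e9, ← e10, ← e1, ← e2, ← e3, ← e4, ← e5, ← e6]
  simp only [T.act_add, T.act_sub]
  rw [eq_neg_of_add_eq_zero_left (key _ mabcd), eq_neg_of_add_eq_zero_left (key _ mabc),
    eq_neg_of_add_eq_zero_left (key _ mabd), eq_neg_of_add_eq_zero_left (key _ macd),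
    eq_neg_of_add_eq_zero_left (key _ mbcd), eq_neg_of_add_eq_zero_left (key _ mab),
    eq_neg_of_add_eq_zero_left (key _ mac), eq_neg_of_add_eq_zero_left (key _ mad),
    eq_neg_of_add_eq_zero_left (key _ mbc), eq_neg_of_add_eq_zero_left (key _ mbd),
    eq_neg_of_add_eq_zero_left (key _ mcd), eq_neg_of_add_eq_zero_left (key _ ha),
    eq_neg_of_add_eq_zero_left (key _ hb), eq_neg_of_add_eq_zero_left (key _ hc),
    eq_neg_of_add_eq_zero_left (key _ hd)]
  abel

end pol

/-- the linearised law `[v, u, u, u] = 1` -/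
theorem law4 (S : Ser P) (hlaw : ∀ u v : P, ⁅⁅⁅v, u⁆, u⁆, u⁆ = 1) (w : Fin 4 → ℕ) (z : Fin 4 → P)
    (hz : ∀ t, z t ∈ S.F (w t)) :
    S.act (S.cls (w 0) (z 0)) (s3 (lS S w z 1) (lS S w z 2) (lS S w z 3)) = 0 := by
  have hlawK : ∀ u v : CK P 4, ⁅⁅⁅v, u⁆, u⁆, u⁆ = 1 := by
    intro u v
    ext A
    exact hlaw (u A) (v A)
  have hx : ∀ t, pt {t} (z t) ∈ (cubeSer S w).F 0 := fun t => letter_mem S w (hz t)
  have h0 : (cubeSer S w).act ((cubeSer S w).cls 0 (pt {0} (z 0)))
      (s3 (lT S w z 1) (lT S w z 2) (lT S w z 3)) = 0 := by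
    have h := pol3 (cubeSer S w) (Z := ⊥) (m := (cubeSer S w).cls 0 (pt {0} (z 0))) ?_
      (hx 1) (hx 2) (hx 3)
    · exact (AddSubgroup.mem_bot).1 h
    · intro y hy
      have h1 := (cubeSer S w).comm_mem (hx 0) hy
      have h2 := (cubeSer S w).comm_mem h1 hy
      rw [pow_succ, pow_succ, pow_one, Ser.act_mul, Ser.act_mul, Ser.act_cls _ (hx 0) hy,
        Ser.act_cls _ h1 hy, Ser.act_cls _ h2 hy, hlawK, Ser.cls_one]
      exact AddSubgroup.zero_mem _
  have hR : Rel S w Finset.univ ((cubeSer S w).act ((cubeSer S w).cls 0 (pt {0} (z 0)))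
      (s3 (lT S w z 1) (lT S w z 2) (lT S w z 3)))
      (S.act (S.cls (w 0) (z 0)) (s3 (lS S w z 1) (lS S w z 2) (lS S w z 3))) := by
    refine Rel_s3 hz (A := {0}) (by simp) (Rel_base S w (hz 0)) (by decide) (by decide)
      (by decide) (by decide) (by decide) (by decide) (by decide)
  rw [h0] at hR
  exact Rel_zero (by norm_num) hR

end Pool.Agent.Lib.MP_544bd1_al.E5
end

section

/-!
Two generators, part 2: nilpotent operators, scalar on the kernel.
-/

namespace Pool.Agent.Lib.MP_544bd1_al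

open Finset

variable {K V : Type} [Field K] [AddCommGroup V] [Module K V] [FiniteDimensional K V]

/-- if every operator commuting with the nilpotent operator `N` acts as a scalar on `ker N`, then
`ker N` is at most one-dimensional.
Proof. Suppose `2 ≤ finrank (ker N)` (so `V ≠ 0`). Let `l` be maximal with `N ^ l ≠ 0`, `w` with
`N ^ l w ≠ 0`; `N ^ l w ∈ ker N`. Choose `v ∈ ker N` not in `K ∙ N ^ l w` and a linear form `f` with
`f v = 1`. `B x = ∑_{i=0}^{l} f (N ^ (l - i) x) • N ^ i w` commutes with `N`, and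
`B v = f v • N ^ l w = N ^ l w` (as `N v = 0`), which is not a multiple of `v`. -/
theorem tw_K1 (N : Module.End K V) (k : ℕ) (hN : N ^ k = 0)
    (h : ∀ B : Module.End K V, B * N = N * B → ∃ c : K, ∀ v, N v = 0 → B v = c • v) :
    Module.finrank K (LinearMap.ker N) ≤ 1 := by
  classical
  by_contra hcon
  push Not at hcon
  have hV : Nontrivial V := by
    by_contra hV
    rw [not_nontrivial_iff_subsingleton] at hV
    have h1 : Module.finrank K (LinearMap.ker N) = 0 := Module.finrank_zero_of_subsingleton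
    omega
  -- the last nonzero power
  have hex : ∃ j, N ^ j = 0 := ⟨k, hN⟩
  obtain ⟨l, hl⟩ : ∃ l, Nat.find hex = l + 1 := by
    refine Nat.exists_eq_succ_of_ne_zero fun h0 => ?_
    have h1 := Nat.find_spec hex
    rw [h0, pow_zero] at h1
    exact one_ne_zero h1
  have hl0 : N ^ l ≠ 0 := Nat.find_min hex (by omega)
  have hl1 : N ^ (l + 1) = 0 := by
    rw [← hl]
    exact Nat.find_spec hex
  obtain ⟨w, hw⟩ : ∃ w, (N ^ l) w ≠ 0 := by
    by_contra h0
    push Not at h0
    exact hl0 (LinearMap.ext h0)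
  have hl1' : ∀ x, (N ^ (l + 1)) x = 0 := fun x => by rw [hl1]; rfl
  obtain ⟨v, hv, hvs⟩ : ∃ v, N v = 0 ∧ v ∉ Submodule.span K {(N ^ l) w} := by
    by_contra h0
    push Not at h0
    have h1 : LinearMap.ker N ≤ Submodule.span K {(N ^ l) w} := fun v hv =>
      h0 v (LinearMap.mem_ker.1 hv)
    have h2 := Submodule.finrank_mono h1
    have h3 : Module.finrank K (Submodule.span K {(N ^ l) w}) ≤ 1 := by
      refine (finrank_span_le_card _).trans ?_
      simp
    omega
  have hv0 : v ≠ 0 := by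
    rintro rfl
    exact hvs (Submodule.zero_mem _)
  obtain ⟨f, hf⟩ : ∃ f : Module.Dual K V, f v ≠ 0 := by
    by_contra h0
    push Not at h0
    exact hv0 ((Module.forall_dual_apply_eq_zero_iff K v).1 h0)
  set B : Module.End K V := ∑ i ∈ range (l + 1),
    (f.comp (N ^ (l - i))).smulRight ((N ^ i) w) with hB
  have hBx : ∀ x, B x = ∑ i ∈ range (l + 1), f ((N ^ (l - i)) x) • (N ^ i) w := by
    intro x
    rw [hB, LinearMap.sum_apply]
    rfl
  have hcomm : B * N = N * B := by
    refine LinearMap.ext fun x => ?_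
    show B (N x) = N (B x)
    rw [hBx, hBx, map_sum, Finset.sum_range_succ' _ l, Finset.sum_range_succ _ l]
    congr 1
    · refine Finset.sum_congr rfl fun i hi => ?_
      rw [Finset.mem_range] at hi
      rw [map_smul]
      have e1 : (N ^ (l - (i + 1))) (N x) = (N ^ (l - i)) x := by
        have : l - i = (l - (i + 1)) + 1 := by omega
        rw [this, pow_succ]
        rfl
      have e2 : N ((N ^ i) w) = (N ^ (i + 1)) w := by
        rw [pow_succ']
        rfl
      rw [e1, e2]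
    · have e1 : (N ^ (l - 0)) (N x) = (N ^ (l + 1)) x := by
        rw [Nat.sub_zero, pow_succ]
        rfl
      have e2 : N ((N ^ l) w) = (N ^ (l + 1)) w := by
        rw [pow_succ']
        rfl
      rw [map_smul, e1, e2, hl1', hl1', map_zero, zero_smul, smul_zero]
  obtain ⟨c, hc⟩ := h B hcomm
  have h1 := hc v hv
  have h2 : B v = f v • (N ^ l) w := by
    rw [hBx, Finset.sum_range_succ, Finset.sum_eq_zero, zero_add, Nat.sub_self, pow_zero]
    · rfl
    · intro i hi
      rw [Finset.mem_range] at hi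
      have : (N ^ (l - i)) v = 0 := by
        have h3 : l - i = (l - i - 1) + 1 := by omega
        rw [h3, pow_succ]
        show (N ^ (l - i - 1)) (N v) = 0
        rw [hv, map_zero]
      rw [this, map_zero, zero_smul]
  rw [h2] at h1
  by_cases hc0 : c = 0
  · rw [hc0, zero_smul] at h1
    rcases smul_eq_zero.1 h1 with h3 | h3
    · exact hf h3
    · exact hw h3
  · refine hvs (Submodule.mem_span_singleton.2 ⟨c⁻¹ * f v, ?_⟩)
    rw [mul_smul, h1, smul_smul, inv_mul_cancel₀ hc0, one_smul]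

end Pool.Agent.Lib.MP_544bd1_al
end
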