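import Mathlib
import Pool.Agent.Lib.MP_544bd1_al.EvM2
import Pool.Agent.Lib.MP_544bd1_al.Defs
import Pool.Agent.Lib.MP_544bd1_al.Detect

section

/-!
Two generators, part 2: orbit representatives.
-/

namespace Pool.Agent.Lib.MP_544bd1_al

open Finset

/-- the inductive form of `tw_orb` -/
theorem tw_orb_aux {X : Type} [DecidableEq X] (q : ℕ) (σ : X → X) (hq0 : 0 < q)
    (hσq : ∀ x, σ^[q] x = x) :
    ∀ (n : ℕ) (Y : Finset X), Y.card = n → (∀ y ∈ Y, σ y ∈ Y) →
      (∀ y ∈ Y, Function.minimalPeriod σ y = q) →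
      ∃ T : Finset X, T ⊆ Y ∧ ∀ (A : Type) [AddCommMonoid A] (f : X → A),
        ∑ x ∈ Y, f x = ∑ t ∈ T, ∑ i ∈ range q, f (σ^[i] t) := by
  intro n
  induction n using Nat.strong_induction_on with
  | _ n ih =>
    intro Y hn hinv hper
    rcases Y.eq_empty_or_nonempty with hY | ⟨x, hx⟩
    · refine ⟨∅, Finset.empty_subset _, ?_⟩
      intro A _ f
      rw [hY, Finset.sum_empty, Finset.sum_empty]
    · set O : Finset X := (range q).image (fun i => σ^[i] x) with hO
      have hOY : O ⊆ Y := by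
        intro y hy
        rw [hO, Finset.mem_image] at hy
        obtain ⟨i, _, rfl⟩ := hy
        clear * - hinv hx
        induction i with
        | zero => exact hx
        | succ k ihk =>
          rw [Function.iterate_succ_apply']
          exact hinv _ ihk
      have hmemO : ∀ k : ℕ, σ^[k] x ∈ O := by
        intro k
        rw [hO, Finset.mem_image]
        refine ⟨k % q, Finset.mem_range.mpr (Nat.mod_lt _ hq0), ?_⟩
        rw [← hper x hx]
        exact Function.iterate_mod_minimalPeriod_eq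
      have hxO : x ∈ O := hmemO 0
      have hcard : (Y \ O).card < n := by
        rw [← hn]
        refine Finset.card_lt_card (Finset.ssubset_iff_subset_ne.mpr ⟨Finset.sdiff_subset, ?_⟩)
        intro heq
        have : x ∈ Y \ O := by rw [heq]; exact hx
        exact (Finset.mem_sdiff.mp this).2 hxO
      obtain ⟨T, hTY, hT⟩ := ih (Y \ O).card hcard (Y \ O) rfl (by
        intro y hy
        rw [Finset.mem_sdiff] at hy ⊢
        refine ⟨hinv y hy.1, ?_⟩
        intro hc
        rw [hO, Finset.mem_image] at hc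
        obtain ⟨i, _, hi⟩ := hc
        apply hy.2
        have h1 : y = σ^[(q - 1) + i] x := by
          rw [Function.iterate_add_apply, hi, ← Function.iterate_succ_apply,
            Nat.succ_eq_add_one, Nat.sub_add_cancel hq0, hσq]
        rw [h1]
        exact hmemO _) (fun y hy => hper y (Finset.mem_sdiff.mp hy).1)
      have hxT : x ∉ T := fun hc => (Finset.mem_sdiff.mp (hTY hc)).2 hxO
      refine ⟨insert x T, ?_, ?_⟩
      · intro y hy
        rw [Finset.mem_insert] at hy
        rcases hy with rfl | hy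
        · exact hx
        · exact (Finset.mem_sdiff.mp (hTY hy)).1
      · intro A _ f
        rw [Finset.sum_insert hxT, ← hT A f]
        have hsum : ∑ y ∈ O, f y = ∑ i ∈ range q, f (σ^[i] x) := by
          rw [hO]
          refine Finset.sum_image ?_
          intro i hi j hj hij
          have hinj := Function.iterate_injOn_Iio_minimalPeriod (f := σ) (x := x)
          rw [hper x hx] at hinj
          exact hinj (by simpa using hi) (by simpa using hj) hij
        rw [← hsum, add_comm, Finset.sum_sdiff hOY]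

/-- representatives for the orbits of an operator of order `p ^ a` acting semiregularly on
`X \ {1}`.
Proof. `σ` is bijective (`σ^[p ^ a] = id`), all orbits on `X \ {1}` have length exactly
`q = p ^ a`: the minimal period of `x` divides `p ^ a`; if it were `< p ^ a` it would divide
`p ^ (a - 1)`. Let `T` be a set of representatives of the orbits on `X \ {1}` (relation
`∃ i, σ^[i] x = y`): every `x ≠ 1` is `σ^[i] t` for a unique `t ∈ T` and a unique `i < q`. (Or: by
strong induction on the cardinality of a `σ`-invariant finset `Y ⊆ X \ {1}`, remove one orbit: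
`∑ x ∈ Y, f x = ∑ t ∈ T, ∑ i ∈ range q, f (σ^[i] t)`.) -/
theorem tw_orb {X : Type} [Group X] [Fintype X] {p a : ℕ} (hp : p.Prime) (ha : 0 < a)
    (σ : X → X) (hσ1 : σ 1 = 1) (hσq : ∀ x, σ^[p ^ a] x = x)
    (hσz : ∀ x, σ^[p ^ (a - 1)] x = x → x = 1) : ∃ T : Finset X, TwOrb (p ^ a) σ T := by
  classical
  have hq0 : 0 < p ^ a := pow_pos hp.pos a
  have hper : ∀ x : X, x ≠ 1 → Function.minimalPeriod σ x = p ^ a := by
    intro x hx
    have h1 : Function.minimalPeriod σ x ∣ p ^ a :=
      Function.IsPeriodicPt.minimalPeriod_dvd (hσq x)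
    obtain ⟨k, hk, hk'⟩ := (Nat.dvd_prime_pow hp).mp h1
    rcases Nat.lt_or_ge k a with hlt | hge
    · exfalso
      apply hx
      apply hσz
      have h2 : Function.minimalPeriod σ x ∣ p ^ (a - 1) := by
        rw [hk']
        exact pow_dvd_pow p (by omega)
      exact (Function.isPeriodicPt_minimalPeriod σ x).trans_dvd h2
    · rw [hk', le_antisymm hk hge]
  have hinv : ∀ y ∈ (Finset.univ.erase (1 : X)), σ y ∈ (Finset.univ.erase (1 : X)) := by
    intro y hy
    rw [Finset.mem_erase] at hy ⊢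
    refine ⟨?_, Finset.mem_univ _⟩
    intro hc
    apply hy.1
    have h1 : y = σ^[p ^ a - 1] (σ y) := by
      rw [← Function.iterate_succ_apply, Nat.succ_eq_add_one, Nat.sub_add_cancel hq0, hσq]
    rw [h1, hc]
    exact Function.iterate_fixed hσ1 _
  obtain ⟨T, _, hT⟩ := tw_orb_aux (p ^ a) σ hq0 hσq _ (Finset.univ.erase (1 : X)) rfl hinv
    (fun y hy => hper y (Finset.mem_erase.mp hy).1)
  refine ⟨T, ?_⟩
  intro A _ f
  rw [← hT A f]
  exact (Finset.add_sum_erase Finset.univ f (Finset.mem_univ 1)).symm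

end Pool.Agent.Lib.MP_544bd1_al
end

section

/-!
A criterion for local finiteness in terms of derived lengths of normal closures.
-/

namespace Pool.Agent.Lib.MP_544bd1_al

open Subgroup

universe u v

/-- the subgroup generated by the conjugates of `x` under `H` -/
def ncl {G : Type u} [Group G] (H : Subgroup G) (x : G) : Subgroup G :=
  closure {y | ∃ h ∈ H, y = h * x * h⁻¹}

/-- the derived series of `ncl H x` -/
def dncl {G : Type u} [Group G] (H : Subgroup G) (x : G) : ℕ → Subgroup G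
  | 0 => ncl H x
  | i + 1 => ⁅dncl H x i, dncl H x i⁆

theorem ncl_mono {G : Type u} [Group G] {H K : Subgroup G} (h : H ≤ K) (x : G) :
    ncl H x ≤ ncl K x := by
  apply Subgroup.closure_mono
  rintro y ⟨g, hg, rfl⟩
  exact ⟨g, h hg, rfl⟩

theorem dncl_mono {G : Type u} [Group G] {H K : Subgroup G} (h : H ≤ K) (x : G) (i : ℕ) :
    dncl H x i ≤ dncl K x i := by
  induction i with
  | zero => exact ncl_mono h x
  | succ i ih => exact Subgroup.commutator_mono ih ih

theorem ncl_map {G : Type u} {G' : Type v} [Group G] [Group G'] (f : G →* G') (H : Subgroup G)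
    (x : G) : (ncl H x).map f = ncl (H.map f) (f x) := by
  rw [ncl, ncl, MonoidHom.map_closure]
  congr 1
  ext y
  constructor
  · rintro ⟨_, ⟨h, hh, rfl⟩, rfl⟩
    exact ⟨f h, ⟨h, hh, rfl⟩, by simp⟩
  · rintro ⟨_, ⟨h, hh, rfl⟩, rfl⟩
    exact ⟨h * x * h⁻¹, ⟨h, hh, rfl⟩, by simp⟩

theorem dncl_map {G : Type u} {G' : Type v} [Group G] [Group G'] (f : G →* G') (H : Subgroup G)
    (x : G) (i : ℕ) : (dncl H x i).map f = dncl (H.map f) (f x) i := by
  induction i with
  | zero => exact ncl_map f H x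
  | succ i ih => rw [dncl, dncl, Subgroup.map_commutator, ih]

theorem ncl_conj {G : Type u} [Group G] {H : Subgroup G} {x b w : G} (hb : b ∈ H)
    (hw : w ∈ ncl H x) : b * w * b⁻¹ ∈ ncl H x := by
  have h1 : (ncl H x).map (MulAut.conj b).toMonoidHom ≤ ncl H x := by
    rw [ncl, MonoidHom.map_closure, Subgroup.closure_le]
    rintro _ ⟨_, ⟨h, hh, rfl⟩, rfl⟩
    apply Subgroup.subset_closure
    refine ⟨b * h, H.mul_mem hb hh, ?_⟩
    simp [MulAut.conj_apply, mul_assoc]
  exact h1 ⟨w, hw, rfl⟩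

theorem dncl_conj {G : Type u} [Group G] {H : Subgroup G} {x b w : G} (hb : b ∈ H) (i : ℕ)
    (hw : w ∈ dncl H x i) : b * w * b⁻¹ ∈ dncl H x i := by
  have h1 : (dncl H x i).map (MulAut.conj b).toMonoidHom ≤ dncl H x i := by
    induction i with
    | zero =>
      rintro _ ⟨w, hw, rfl⟩
      exact ncl_conj hb hw
    | succ i ih =>
      rw [dncl, Subgroup.map_commutator]
      by_cases hi : ∀ w, w ∈ dncl H x i → b * w * b⁻¹ ∈ dncl H x i
      · apply Subgroup.commutator_mono
        · rintro _ ⟨w, hw, rfl⟩; exact hi w hw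
        · rintro _ ⟨w, hw, rfl⟩; exact hi w hw
      · exfalso
        apply hi
        clear hi hw ih
        induction i with
        | zero => intro w hw; exact ncl_conj hb hw
        | succ i ih =>
          intro w hw
          have h2 : (dncl H x (i + 1)).map (MulAut.conj b).toMonoidHom ≤ dncl H x (i + 1) := by
            rw [dncl, Subgroup.map_commutator]
            apply Subgroup.commutator_mono
            · rintro _ ⟨w, hw, rfl⟩; exact ih w hw
            · rintro _ ⟨w, hw, rfl⟩; exact ih w hw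
          exact h2 ⟨w, hw, rfl⟩
  exact h1 ⟨w, hw, rfl⟩

/-- an abelian normal subgroup of finite exponent is locally finite -/
theorem LF_of_comm {G : Type u} [Group G] {n : ℕ} (hn : 0 < n) (hexp : ∀ g : G, g ^ n = 1)
    (K : Subgroup G) (hK : ∀ x ∈ K, ∀ y ∈ K, x * y = y * x) : LF K := by
  intro H hHK hfg
  have hfgH : Group.FG H := (Group.fg_iff_subgroup_fg H).2 hfg
  let inst : CommGroup H :=
    { (inferInstance : Group H) with
      mul_comm := fun a b => Subtype.ext (hK a (hHK a.2) b (hHK b.2)) }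
  have ht : IsMulTorsion H := by
    intro a
    rw [isOfFinOrder_iff_pow_eq_one]
    exact ⟨n, hn, Subtype.ext (by simpa using hexp a)⟩
  exact CommGroup.finite_of_fg_isMulTorsion H ht

/-- the step: either there is a nontrivial abelian normal subgroup, or one more generator gives one
more step of the derived series. -/
theorem criterion_step {G : Type u} [Group G] {n : ℕ} (hn : 0 < n) (hexp : ∀ g : G, g ^ n = 1)
    (hG : ∀ K : Subgroup G, K.Normal → LF K → K = ⊥) (r i : ℕ)
    (h : ∃ y : Fin (r + 1) → G, dncl (closure (Set.range y)) (y 0) i ≠ ⊥) :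
    ∃ y : Fin (r + 2) → G, dncl (closure (Set.range y)) (y 0) (i + 1) ≠ ⊥ := by
  by_contra hcon
  push Not at hcon
  obtain ⟨y, hy⟩ := h
  obtain ⟨w, hw, hw1⟩ : ∃ w ∈ dncl (closure (Set.range y)) (y 0) i, w ≠ 1 := by
    by_contra h
    push Not at h
    exact hy (by rw [eq_bot_iff]; intro z hz; exact Subgroup.mem_bot.2 (h z hz))
  have hcomm : ∀ b : G, w * (b * w * b⁻¹) = (b * w * b⁻¹) * w := by
    intro b
    let y' : Fin (r + 2) → G := Fin.snoc y b
    have hy0 : y' 0 = y 0 := by
      have : (0 : Fin (r + 2)) = Fin.castSucc (0 : Fin (r + 1)) := rfl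
      rw [this]
      exact Fin.snoc_castSucc (α := fun _ => G) b y 0
    have hle : closure (Set.range y) ≤ closure (Set.range y') := by
      apply Subgroup.closure_mono
      rintro _ ⟨j, rfl⟩
      exact ⟨Fin.castSucc j, Fin.snoc_castSucc (α := fun _ => G) b y j⟩
    have hb : b ∈ closure (Set.range y') :=
      Subgroup.subset_closure ⟨Fin.last _, Fin.snoc_last (α := fun _ => G) b y⟩
    have h1 := hcon y'
    rw [hy0] at h1
    have hw' : w ∈ dncl (closure (Set.range y')) (y 0) i := dncl_mono hle _ _ hw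
    have hbw := dncl_conj hb i hw'
    have h2 := Subgroup.commutator_mem_commutator hw' hbw
    have h3 : dncl (closure (Set.range y')) (y 0) (i + 1) =
      ⁅dncl (closure (Set.range y')) (y 0) i, dncl (closure (Set.range y')) (y 0) i⁆ := rfl
    rw [← h3, h1, Subgroup.mem_bot, commutatorElement_eq_one_iff_mul_comm] at h2
    exact h2
  have hK : ∀ x ∈ normalClosure {w}, ∀ y ∈ normalClosure {w}, x * y = y * x := by
    have h1 : ∀ a b : G, (a * w * a⁻¹) * (b * w * b⁻¹) = (b * w * b⁻¹) * (a * w * a⁻¹) := by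
      intro a b
      have h2 := hcomm (a⁻¹ * b)
      have h3 : (a * w * a⁻¹) * (b * w * b⁻¹) =
          a * (w * ((a⁻¹ * b) * w * (a⁻¹ * b)⁻¹)) * a⁻¹ := by group
      rw [h3, h2]; group
    have h4 : normalClosure {w} ≤ Subgroup.centralizer (normalClosure {w} : Set G) := by
      rw [Subgroup.normalClosure, Subgroup.closure_le]
      intro x hx
      show x ∈ Subgroup.centralizer _
      rw [Subgroup.centralizer_closure, Subgroup.mem_centralizer_iff]
      intro z hz
      rw [Group.mem_conjugatesOfSet_iff] at hx hz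
      obtain ⟨_, rfl, hx⟩ := hx
      obtain ⟨_, rfl, hz⟩ := hz
      obtain ⟨a, rfl⟩ := isConj_iff.1 hx
      obtain ⟨b, rfl⟩ := isConj_iff.1 hz
      exact h1 b a
    intro x hx y hy
    exact (Subgroup.mem_centralizer_iff.1 (h4 hx) y hy).symm
  have h5 := hG _ Subgroup.normalClosure_normal (LF_of_comm hn hexp _ hK)
  have h6 : w ∈ normalClosure {w} := Subgroup.subset_normalClosure rfl
  rw [h5, Subgroup.mem_bot] at h6
  exact hw1 h6

end Pool.Agent.Lib.MP_544bd1_al
end

section

/-!
Two-generator subgroups detect all alternating power towers.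
-/

namespace Pool.Agent.Lib.MP_544bd1_al

open Subgroup

universe u

/-- the alternating list of length `n` in `P` and `Q` whose last member is `Q` -/
def altl : ℕ → ℕ → ℕ → List ℕ
  | _, _, 0 => []
  | P, Q, (n + 1) => altl Q P n ++ [Q]

@[simp] theorem altl_zero (P Q : ℕ) : altl P Q 0 = [] := by rw [altl]

theorem altl_succ (P Q n : ℕ) : altl P Q (n + 1) = altl Q P n ++ [Q] := by rw [altl]

theorem map_closure_pair {G G' : Type*} [Group G] [Group G'] (f : G →* G') (x y : G) :
    (closure {x, y}).map f = closure {f x, f y} := by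
  rw [MonoidHom.map_closure, Set.image_pair]

/-- lift an element of order dividing `P` to an element of order dividing `P` -/
theorem lift_pow {G G' : Type*} [Group G] [Group G'] {P Q : ℕ} (hcop : Nat.Coprime P Q)
    (hexp : ∀ x : G, x ^ (P * Q) = 1) (f : G →* G') (hf : Function.Surjective f)
    {x : G'} (hx : x ^ P = 1) : ∃ z : G, f z = x ∧ z ^ P = 1 := by
  obtain ⟨g, rfl⟩ := hf x
  obtain ⟨c, hc1, hc2⟩ := Nat.chineseRemainder hcop 1 0
  refine ⟨g ^ c, ?_, ?_⟩
  · rw [map_pow]
    have h1 : (f g) ^ c = (f g) ^ 1 := by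
      rw [pow_eq_pow_iff_modEq]
      exact hc1.of_dvd (orderOf_dvd_of_pow_eq_one hx)
    rw [h1, pow_one]
  · obtain ⟨d, hd⟩ := (Nat.modEq_zero_iff_dvd).1 hc2
    rw [← pow_mul, hd, mul_comm, ← mul_assoc, pow_mul, hexp, one_pow]

theorem detect_aux (n : ℕ) : ∀ (p q a b : ℕ), p.Prime → q.Prime → p ≠ q →
    ∀ (N : ℕ) (M : Type u) [Group M] [Finite M], Nat.card M ≤ N →
      (∀ x : M, x ^ (p ^ a * q ^ b) = 1) →
      tow (altl (p ^ a) (q ^ b) n) (⊤ : Subgroup M) ≠ ⊥ →
      ∃ x y : M, x ^ (p ^ a) = 1 ∧ y ^ (q ^ b) = 1 ∧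
        tow (altl (p ^ a) (q ^ b) n) (closure {x, y}) ≠ ⊥ := by
  induction n using Nat.strong_induction_on with
  | _ n ihn =>
  intro p q a b hp hq hpq N
  have hcopPQ : Nat.Coprime (p ^ a) (q ^ b) :=
    Nat.Coprime.pow a b ((Nat.coprime_primes hp hq).2 hpq)
  induction N with
  | zero =>
    intro M _ _ hM
    have : 0 < Nat.card M := Nat.card_pos
    omega
  | succ N ihN =>
    intro M _ _ hM hexp hne
    match n, ihn, ihN, hne with
    | 0, _, _, hne =>
      rw [altl_zero, tow_nil] at hne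
      have hnt : Nontrivial M := by
        by_contra h
        rw [not_nontrivial_iff_subsingleton] at h
        exact hne (Subsingleton.elim _ _)
      obtain ⟨g, hg⟩ := exists_ne (1 : M)
      simp only [altl_zero, tow_nil]
      by_cases hgQ : g ^ (q ^ b) = 1
      · refine ⟨1, g, one_pow _, hgQ, ?_⟩
        intro h
        have : g ∈ closure {1, g} := Subgroup.subset_closure (by simp)
        rw [h, Subgroup.mem_bot] at this
        exact hg this
      · refine ⟨g ^ (q ^ b), 1, ?_, one_pow _, ?_⟩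
        · rw [← pow_mul, mul_comm]; exact hexp g
        · intro h
          have : g ^ (q ^ b) ∈ closure {g ^ (q ^ b), 1} := Subgroup.subset_closure (by simp)
          rw [h, Subgroup.mem_bot] at this
          exact hgQ this
    | 1, _, _, hne =>
      rw [altl_succ, altl_zero, List.nil_append] at hne ⊢
      have htow : ∀ H : Subgroup M, tow [q ^ b] H = pw (q ^ b) H := fun H => rfl
      rw [htow, Ne, pw_eq_bot_iff] at hne
      push Not at hne
      obtain ⟨g, _, hg⟩ := hne
      refine ⟨g ^ (q ^ b), 1, ?_, one_pow _, ?_⟩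
      · rw [← pow_mul, mul_comm]; exact hexp g
      · rw [htow, Ne, pw_eq_bot_iff]
        intro h
        have h1 : g ^ (q ^ b) ∈ closure {g ^ (q ^ b), 1} := Subgroup.subset_closure (by simp)
        exact hg (pow_eq_one_of_pow_pow hcopPQ.symm (h _ h1) (by rw [mul_comm]; exact hexp g))
    | n + 2, ihn, ihN, hne =>
      by_contra hcon
      have hl : altl (p ^ a) (q ^ b) (n + 2) = altl (p ^ a) (q ^ b) n ++ [p ^ a] ++ [q ^ b] := by
        rw [altl_succ, altl_succ]
      have hl1 : altl (q ^ b) (p ^ a) (n + 1) = altl (p ^ a) (q ^ b) n ++ [p ^ a] := by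
        rw [altl_succ]
      apply hcon
      rw [hl] at hne ⊢
      refine core hp hq hpq hexp (altl (p ^ a) (q ^ b) n) ?_ ?_ ?_ hne
      · -- subgroups
        intro H hH
        by_contra h
        apply hcon
        have hcard : Nat.card H ≤ N := by
          have h1 : Nat.card H ∣ Nat.card M := Subgroup.card_subgroup_dvd_card H
          have h2 : Nat.card H ≠ Nat.card M := by
            intro h3
            exact hH (Subgroup.eq_top_of_card_eq H h3)
          have h3 : Nat.card H ≤ Nat.card M := Nat.le_of_dvd Nat.card_pos h1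
          omega
        rw [← hl] at h
        obtain ⟨x, y, hx, hy, hxy⟩ := ihN H hcard
          (fun x => Subtype.ext (by simpa using hexp x)) (tow_subtype_ne_bot h)
        refine ⟨x, y, by simpa using congrArg Subtype.val hx,
          by simpa using congrArg Subtype.val hy, ?_⟩
        have h1 := tow_map (altl (p ^ a) (q ^ b) (n + 2)) (closure {x, y}) H.subtype
        rw [map_closure_pair] at h1
        intro h2
        apply hxy
        have h3 : tow (altl (p ^ a) (q ^ b) (n + 2)) (closure {H.subtype x, H.subtype y}) = ⊥ := h2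
        rw [h3, Subgroup.map_eq_bot_iff_of_injective _ H.subtype_injective] at h1
        exact h1
      · -- quotients
        intro K hK hKbot
        by_contra h
        apply hcon
        have hcard : Nat.card (M ⧸ K) ≤ N := by
          have h1 := Subgroup.card_eq_card_quotient_mul_card_subgroup K
          have h2 : 1 < Nat.card K := by
            rw [Subgroup.one_lt_card_iff_ne_bot]; exact hKbot
          have h3 : 0 < Nat.card (M ⧸ K) := Nat.card_pos
          nlinarith
        rw [← hl] at h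
        have hsurj := QuotientGroup.mk'_surjective K
        have hne' : tow (altl (p ^ a) (q ^ b) (n + 2)) (⊤ : Subgroup (M ⧸ K)) ≠ ⊥ := by
          intro h1
          apply h
          rw [← tow_map_top _ (QuotientGroup.mk' K) hsurj, Subgroup.map_eq_bot_iff,
            QuotientGroup.ker_mk'] at h1
          exact h1
        obtain ⟨x, y, hx, hy, hxy⟩ := ihN (M ⧸ K) hcard (by
          intro x
          obtain ⟨z, rfl⟩ := hsurj x
          rw [← map_pow, hexp, map_one]) hne'
        obtain ⟨x', hx', hx'P⟩ := lift_pow hcopPQ hexp (QuotientGroup.mk' K) hsurj hx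
        obtain ⟨y', hy', hy'P⟩ := lift_pow hcopPQ.symm (by intro x; rw [mul_comm]; exact hexp x)
          (QuotientGroup.mk' K) hsurj hy
        refine ⟨x', y', hx'P, hy'P, ?_⟩
        intro h2
        apply hxy
        have h1 := tow_map (altl (p ^ a) (q ^ b) (n + 2)) (closure {x', y'}) (QuotientGroup.mk' K)
        rw [map_closure_pair, h2, Subgroup.map_bot, hx', hy'] at h1
        exact h1.symm
      · -- induction
        intro C hC
        rw [← hl1] at hC ⊢
        obtain ⟨x, y, hx, hy, hxy⟩ := ihn (n + 1) (by omega) q p b a hq hp hpq.symm (Nat.card C) C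
          le_rfl (fun x => Subtype.ext (by
            have := hexp x
            rw [mul_comm] at this
            simpa using this)) (tow_subtype_ne_bot hC)
        refine ⟨y, y.2, x, x.2, by simpa using congrArg Subtype.val hy,
          by simpa using congrArg Subtype.val hx, ?_⟩
        have h1 := tow_map (altl (q ^ b) (p ^ a) (n + 1)) (closure {x, y}) C.subtype
        rw [map_closure_pair] at h1
        intro h2
        apply hxy
        have h3 : tow (altl (q ^ b) (p ^ a) (n + 1)) (closure {C.subtype x, C.subtype y}) = ⊥ := by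
          rw [Set.pair_comm] at h2; exact h2
        rw [h3, Subgroup.map_eq_bot_iff_of_injective _ C.subtype_injective] at h1
        exact h1

/-- **Detection.** -/
theorem detect {p q a b : ℕ} (hp : p.Prime) (hq : q.Prime) (hpq : p ≠ q) (n : ℕ)
    {G : Type u} [Group G] (hexp : ∀ x : G, x ^ (p ^ a * q ^ b) = 1)
    (M : Subgroup G) [Finite M] (hne : tow (altl (p ^ a) (q ^ b) n) M ≠ ⊥) :
    ∃ x y : G, x ^ (p ^ a) = 1 ∧ y ^ (q ^ b) = 1 ∧
      tow (altl (p ^ a) (q ^ b) n) (closure {x, y}) ≠ ⊥ := by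
  obtain ⟨x, y, hx, hy, hxy⟩ := detect_aux n p q a b hp hq hpq (Nat.card M) M le_rfl
    (fun x => Subtype.ext (by simpa using hexp x)) (tow_subtype_ne_bot hne)
  refine ⟨x, y, by simpa using congrArg Subtype.val hx,
    by simpa using congrArg Subtype.val hy, ?_⟩
  have h1 := tow_map (altl (p ^ a) (q ^ b) n) (closure {x, y}) M.subtype
  rw [map_closure_pair] at h1
  intro h2
  apply hxy
  have h3 : tow (altl (p ^ a) (q ^ b) n) (closure {M.subtype x, M.subtype y}) = ⊥ := h2
  rw [h3, Subgroup.map_eq_bot_iff_of_injective _ M.subtype_injective] at h1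
  exact h1

end Pool.Agent.Lib.MP_544bd1_al
end

section

/-!
Alternating power towers in finite solvable groups have bounded length.
-/

namespace Pool.Agent.Lib.MP_544bd1_al

open Subgroup

universe u

/-- modulo its derived subgroup, `pw P A` has exponent dividing `Q` when `x ^ (P * Q) = 1`. -/
theorem pow_mem_commutator {K : Type u} [Group K] {P Q : ℕ} (hexp : ∀ x : K, x ^ (P * Q) = 1)
    (A : Subgroup K) [A.Normal] :
    pw Q (pw P A) ≤ ⁅pw P A, pw P A⁆ := by
  have hn : (pw P A).Normal := by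
    have h1 : pw P A = tow [P] A := rfl
    rw [h1]; exact tow_normal _ _
  set B := pw P A with hB
  have hBn : (⁅B, B⁆).Normal := Subgroup.commutator_normal B B
  rw [pw, Subgroup.closure_le]
  rintro _ ⟨z, hz, rfl⟩
  have hcomm : ∀ x ∈ B, ∀ y ∈ B, (QuotientGroup.mk (s := ⁅B, B⁆) x) * QuotientGroup.mk y =
      QuotientGroup.mk y * QuotientGroup.mk x := by
    intro x hx y hy
    have h1 := Subgroup.commutator_mem_commutator (B.inv_mem hy) (B.inv_mem hx)
    rw [← QuotientGroup.mk_mul, ← QuotientGroup.mk_mul, QuotientGroup.eq]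
    have h2 : (x * y)⁻¹ * (y * x) = y⁻¹ * x⁻¹ * (y⁻¹)⁻¹ * (x⁻¹)⁻¹ := by group
    rw [h2]
    exact h1
  have key : (QuotientGroup.mk (s := ⁅B, B⁆) z) ^ Q = 1 := by
    refine Subgroup.closure_induction
      (p := fun z _ => (QuotientGroup.mk (s := ⁅B, B⁆) z) ^ Q = 1) ?_ ?_ ?_ ?_ hz
    · rintro z ⟨y, _, rfl⟩
      rw [← QuotientGroup.mk_pow, ← pow_mul, hexp]; rfl
    · rw [QuotientGroup.mk_one, one_pow]
    · intro z y hz hy ihz ihy
      have hzB : z ∈ B := hz
      have hyB : y ∈ B := hy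
      rw [QuotientGroup.mk_mul, (show Commute _ _ from hcomm z hzB y hyB).mul_pow, ihz, ihy,
        one_mul]
    · intro z _ ih
      rw [QuotientGroup.mk_inv, inv_pow, ih, inv_one]
  rw [← QuotientGroup.mk_pow, QuotientGroup.eq_one_iff] at key
  exact key

theorem length_aux {p q a b : ℕ} (hp : p.Prime) (hq : q.Prime) (K : Type u) [Group K] [Finite K]
    (hexp : ∀ x : K, x ^ (p ^ a * q ^ b) = 1) (n : ℕ) :
    (tow (altl (p ^ a) (q ^ b) (n + 1)) (⊤ : Subgroup K) ≠ ⊥ →
      Nat.card (tow (altl (p ^ a) (q ^ b) (n + 1)) (⊤ : Subgroup K)) + n ≤ Nat.card K) ∧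
    (tow (altl (q ^ b) (p ^ a) (n + 1)) (⊤ : Subgroup K) ≠ ⊥ →
      Nat.card (tow (altl (q ^ b) (p ^ a) (n + 1)) (⊤ : Subgroup K)) + n ≤ Nat.card K) := by
  have hsolv : Group.IsSolvable K := solvable_of_exponent hp hq hexp
  have hexp' : ∀ x : K, x ^ (q ^ b * p ^ a) = 1 := by
    intro x; rw [mul_comm]; exact hexp x
  have step : ∀ (P Q : ℕ), (∀ x : K, x ^ (P * Q) = 1) → ∀ L : List ℕ,
      tow (L ++ [P] ++ [Q]) (⊤ : Subgroup K) ≠ ⊥ →
      tow (L ++ [P]) (⊤ : Subgroup K) ≠ ⊥ ∧
      Nat.card (tow (L ++ [P] ++ [Q]) (⊤ : Subgroup K)) <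
        Nat.card (tow (L ++ [P]) (⊤ : Subgroup K)) := by
    intro P Q hPQ L hne
    have hn : (tow L (⊤ : Subgroup K)).Normal := tow_normal _ _
    have h1 : tow (L ++ [P] ++ [Q]) (⊤ : Subgroup K) ≤
        ⁅tow (L ++ [P]) (⊤ : Subgroup K), tow (L ++ [P]) (⊤ : Subgroup K)⁆ := by
      rw [tow_append, tow_append]
      exact pow_mem_commutator hPQ _
    have hle : tow (L ++ [P] ++ [Q]) (⊤ : Subgroup K) ≤ tow (L ++ [P]) (⊤ : Subgroup K) := by
      rw [tow_append]; exact pw_le _ _
    have hne' : tow (L ++ [P]) (⊤ : Subgroup K) ≠ ⊥ := by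
      intro h
      rw [h, le_bot_iff] at hle
      exact hne hle
    refine ⟨hne', ?_⟩
    have h2 := Group.IsSolvable.commutator_lt_of_ne_bot hne'
    exact Set.Finite.card_lt_card (Set.toFinite _) (lt_of_le_of_lt h1 h2)
  induction n with
  | zero =>
    constructor
    · intro _; simpa using Subgroup.card_le_card_group _
    · intro _; simpa using Subgroup.card_le_card_group _
  | succ n ih =>
    constructor
    · intro h
      have hl : altl (p ^ a) (q ^ b) (n + 1 + 1) = altl (p ^ a) (q ^ b) n ++ [p ^ a] ++ [q ^ b] := by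
        rw [altl_succ, altl_succ]
      have hl' : altl (q ^ b) (p ^ a) (n + 1) = altl (p ^ a) (q ^ b) n ++ [p ^ a] := by
        rw [altl_succ]
      rw [hl] at h ⊢
      obtain ⟨h1, h2⟩ := step _ _ hexp _ h
      have h3 := ih.2
      rw [hl'] at h3
      have h4 := h3 h1
      omega
    · intro h
      have hl : altl (q ^ b) (p ^ a) (n + 1 + 1) = altl (q ^ b) (p ^ a) n ++ [q ^ b] ++ [p ^ a] := by
        rw [altl_succ, altl_succ]
      have hl' : altl (p ^ a) (q ^ b) (n + 1) = altl (q ^ b) (p ^ a) n ++ [q ^ b] := by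
        rw [altl_succ]
      rw [hl] at h ⊢
      obtain ⟨h1, h2⟩ := step _ _ hexp' _ h
      have h3 := ih.1
      rw [hl'] at h3
      have h4 := h3 h1
      omega

/-- **Length bound.** -/
theorem length_le {p q a b : ℕ} (hp : p.Prime) (hq : q.Prime) {G : Type u} [Group G]
    (hexp : ∀ x : G, x ^ (p ^ a * q ^ b) = 1) (K : Subgroup G) [Finite K] (n : ℕ)
    (hne : tow (altl (p ^ a) (q ^ b) n) K ≠ ⊥) : n ≤ Nat.card K + 1 := by
  rcases n with _ | n
  · omega
  · have h := (length_aux hp hq K (fun x => Subtype.ext (by simpa using hexp x)) n).1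
      (tow_subtype_ne_bot hne)
    omega

end Pool.Agent.Lib.MP_544bd1_al
end

section

/-!
Three generators suffice for exponents with two prime divisors.
-/

namespace Pool.Agent.Lib.MP_544bd1_al

open Subgroup

universe u

/-- an element `w` all of whose products with elements of order dividing `P` have order dividing
`P` gives rise to a normal subgroup of exponent `P` -/
theorem normal_of_absorbing {G : Type u} [Group G] {n P : ℕ} (hn : 0 < n)
    (hexp : ∀ x : G, x ^ n = 1) {w : G} (hw1 : w ≠ 1)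
    (hw : ∀ h : G, h ^ P = 1 → (w * h) ^ P = 1) :
    ∃ K : Subgroup G, K.Normal ∧ K ≠ ⊥ ∧ ∀ x ∈ K, x ^ P = 1 := by
  have hmul : ∀ {u v : G}, (∀ h : G, h ^ P = 1 → (u * h) ^ P = 1) →
      (∀ h : G, h ^ P = 1 → (v * h) ^ P = 1) → (∀ h : G, h ^ P = 1 → (u * v * h) ^ P = 1) := by
    intro u v hu hv h hh
    rw [mul_assoc]
    exact hu _ (hv _ hh)
  have hpow : ∀ {u : G}, (∀ h : G, h ^ P = 1 → (u * h) ^ P = 1) →
      ∀ k : ℕ, (∀ h : G, h ^ P = 1 → (u ^ k * h) ^ P = 1) := by
    intro u hu k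
    induction k with
    | zero => intro h hh; simpa using hh
    | succ k ih => rw [pow_succ]; exact hmul ih hu
  let K : Subgroup G :=
    { carrier := {u | ∀ h : G, h ^ P = 1 → (u * h) ^ P = 1}
      one_mem' := by intro h hh; simpa using hh
      mul_mem' := fun hu hv => hmul hu hv
      inv_mem' := by
        intro u hu
        have h1 : u⁻¹ = u ^ (n - 1) := by
          rw [inv_eq_iff_mul_eq_one, ← pow_succ', Nat.sub_add_cancel hn, hexp]
        rw [h1]
        exact hpow hu _ }
  refine ⟨K, ⟨?_⟩, ?_, ?_⟩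
  · intro u hu g h hh
    have h1 : (g⁻¹ * h * g) ^ P = 1 := by
      have h2 : g⁻¹ * h * g = g⁻¹ * h * (g⁻¹)⁻¹ := by rw [inv_inv]
      rw [h2, conj_pow, hh]; simp
    have h2 := hu _ h1
    have h3 : g * u * g⁻¹ * h = g * (u * (g⁻¹ * h * g)) * g⁻¹ := by group
    rw [h3, conj_pow, h2]; simp
  · intro hK
    have : w ∈ K := hw
    rw [hK, Subgroup.mem_bot] at this
    exact hw1 this
  · intro u hu
    have := hu 1 (one_pow _)
    simpa using this

theorem key_step {G : Type u} [Group G] {P Q : ℕ} (hP : 0 < P) (hQ : 0 < Q)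
    (hcop : Nat.Coprime P Q) (hexp : ∀ x : G, x ^ (P * Q) = 1) (l : List ℕ)
    (hM : ∀ M : Subgroup G, Finite M → pw P (tow l M) = ⊥) (x y : G)
    (hfin : ∀ h : G, h ^ P = 1 → Finite (closure {x, y, h}))
    (hne : tow l (closure {x, y}) ≠ ⊥) :
    ∃ K : Subgroup G, K.Normal ∧ K ≠ ⊥ ∧ ∀ x ∈ K, x ^ P = 1 := by
  obtain ⟨w, hw, hw1⟩ : ∃ w ∈ tow l (closure {x, y}), w ≠ 1 := by
    by_contra h
    push Not at h
    exact hne (by rw [eq_bot_iff]; intro z hz; exact Subgroup.mem_bot.2 (h z hz))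
  apply normal_of_absorbing (Nat.mul_pos hP hQ) hexp hw1
  intro h hh
  have hfinM := hfin h hh
  set M := closure {x, y, h} with hMdef
  have hle : closure {x, y} ≤ M := by
    apply Subgroup.closure_mono
    intro z hz
    rcases hz with rfl | rfl <;> simp
  have hwM : w ∈ tow l M := tow_mono l hle hw
  have hhM : h ∈ M := Subgroup.subset_closure (by simp)
  have hMe := hM M hfinM
  rw [pw_eq_bot_iff] at hMe
  -- `(w h) ^ P ∈ tow l M`
  have h1 : ∀ k : ℕ, (w * h) ^ k * (h ^ k)⁻¹ ∈ tow l M := by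
    intro k
    induction k with
    | zero => simp [one_mem]
    | succ k ih =>
      have h2 : (w * h) ^ (k + 1) * (h ^ (k + 1))⁻¹ =
          w * (h * ((w * h) ^ k * (h ^ k)⁻¹) * h⁻¹) := by
        rw [pow_succ' (w * h), pow_succ' h]; group
      rw [h2]
      exact mul_mem hwM (tow_conj_mem l M hhM ih)
  have h2 := h1 P
  rw [hh, inv_one, mul_one] at h2
  exact pow_eq_one_of_pow_pow hcop (hMe _ h2) (hexp _)

/-- subgroups generated by an element of order dividing `P` and an element of order dividing `Q`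
have bounded order -/
theorem uniform_bound {P Q : ℕ}
    (h3 : ∀ (G : Type u) [Group G], (∀ g : G, g ^ (P * Q) = 1) →
      ∀ x y z : G, x ^ P = 1 → y ^ Q = 1 → (z ^ P = 1 ∨ z ^ Q = 1) → Finite (closure {x, y, z}))
    {G : Type u} [Group G] (hexp : ∀ x : G, x ^ (P * Q) = 1) :
    ∃ c : ℕ, ∀ x y : G, x ^ P = 1 → y ^ Q = 1 →
      Finite (closure {x, y}) ∧ Nat.card (closure {x, y}) ≤ c := by
  have hfin : ∀ (G : Type u) [Group G], (∀ g : G, g ^ (P * Q) = 1) →
      ∀ x y : G, x ^ P = 1 → y ^ Q = 1 → Finite (closure {x, y}) := by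
    intro G _ hexp x y hx hy
    have h1 := h3 G hexp x y 1 hx hy (Or.inl (one_pow _))
    have hle : closure {x, y} ≤ closure {x, y, 1} := by
      apply Subgroup.closure_mono
      intro z hz
      rcases hz with rfl | rfl <;> simp
    exact Finite.of_injective _ (Subgroup.inclusion_injective hle)
  by_contra hcon
  push Not at hcon
  have hcon' : ∀ c : ℕ, ∃ x y : G, x ^ P = 1 ∧ y ^ Q = 1 ∧ c < Nat.card (closure {x, y}) := by
    intro c
    obtain ⟨x, y, hx, hy, h⟩ := hcon c
    exact ⟨x, y, hx, hy, h (hfin G hexp x y hx hy)⟩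
  choose x y hx hy hc using hcon'
  have hF : Finite (closure {x, y}) := by
    apply hfin (ℕ → G)
    · intro g; funext i; exact hexp (g i)
    · funext i; exact hx i
    · funext i; exact hy i
  set c := Nat.card (closure {x, y}) with hcdef
  have h1 : (closure {x, y}).map (Pi.evalMonoidHom (fun _ : ℕ => G) c) = closure {x c, y c} := by
    rw [map_closure_pair]; rfl
  have h2 : Nat.card (closure {x c, y c}) ≤ c := by
    rw [← h1]
    exact Nat.card_le_card_of_surjective _
      ((Pi.evalMonoidHom (fun _ : ℕ => G) c).subgroupMap_surjective (closure {x, y}))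
  exact absurd (hc c) (not_lt_of_ge h2)

theorem exists_normal_exponent {p q a b : ℕ} (hp : p.Prime) (hq : q.Prime) (hpq : p ≠ q)
    (h3 : ∀ (G : Type u) [Group G], (∀ g : G, g ^ (p ^ a * q ^ b) = 1) →
      ∀ x y z : G, x ^ (p ^ a) = 1 → y ^ (q ^ b) = 1 → (z ^ (p ^ a) = 1 ∨ z ^ (q ^ b) = 1) →
        Finite (closure {x, y, z}))
    (G : Type u) [Group G] [Nontrivial G] (hexp : ∀ x : G, x ^ (p ^ a * q ^ b) = 1) :
    ∃ K : Subgroup G, K.Normal ∧ K ≠ ⊥ ∧
      ((∀ x ∈ K, x ^ (p ^ a) = 1) ∨ (∀ x ∈ K, x ^ (q ^ b) = 1)) := by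
  have hP : 0 < p ^ a := pow_pos hp.pos a
  have hQ : 0 < q ^ b := pow_pos hq.pos b
  have hcop : Nat.Coprime (p ^ a) (q ^ b) := Nat.Coprime.pow a b ((Nat.coprime_primes hp hq).2 hpq)
  have hexp' : ∀ x : G, x ^ (q ^ b * p ^ a) = 1 := by intro x; rw [mul_comm]; exact hexp x
  obtain ⟨c, hc⟩ := uniform_bound h3 hexp
  let D : ℕ → Prop := fun n =>
    (∃ x y : G, x ^ (p ^ a) = 1 ∧ y ^ (q ^ b) = 1 ∧
      tow (altl (p ^ a) (q ^ b) n) (closure {x, y}) ≠ ⊥) ∨
    (∃ x y : G, x ^ (p ^ a) = 1 ∧ y ^ (q ^ b) = 1 ∧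
      tow (altl (q ^ b) (p ^ a) n) (closure {x, y}) ≠ ⊥)
  have hD0 : D 0 := by
    left
    obtain ⟨g, hg⟩ := exists_ne (1 : G)
    simp only [altl_zero, tow_nil]
    by_cases hgQ : g ^ (q ^ b) = 1
    · refine ⟨1, g, one_pow _, hgQ, ?_⟩
      intro h
      have : g ∈ closure {1, g} := Subgroup.subset_closure (by simp)
      rw [h, Subgroup.mem_bot] at this
      exact hg this
    · refine ⟨g ^ (q ^ b), 1, ?_, one_pow _, ?_⟩
      · rw [← pow_mul, mul_comm]; exact hexp g
      · intro h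
        have : g ^ (q ^ b) ∈ closure {g ^ (q ^ b), 1} := Subgroup.subset_closure (by simp)
        rw [h, Subgroup.mem_bot] at this
        exact hgQ this
  have hDbd : ∀ n, D n → n ≤ c + 1 := by
    rintro n (⟨x, y, hx, hy, h⟩ | ⟨x, y, hx, hy, h⟩)
    · obtain ⟨hf, hcard⟩ := hc x y hx hy
      have := length_le hp hq hexp _ n h
      omega
    · obtain ⟨hf, hcard⟩ := hc x y hx hy
      have := length_le hq hp hexp' _ n h
      omega
  obtain ⟨n, hn, hn'⟩ : ∃ n, D n ∧ ¬ D (n + 1) := by
    by_contra h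
    push Not at h
    have hall : ∀ n, D n := by
      intro n
      induction n with
      | zero => exact hD0
      | succ n ih => exact h n ih
    have := hDbd _ (hall (c + 2))
    omega
  rcases hn with ⟨x, y, hx, hy, h⟩ | ⟨x, y, hx, hy, h⟩
  · obtain ⟨K, hK1, hK2, hK3⟩ := key_step hP hQ hcop hexp (altl (p ^ a) (q ^ b) n) (by
      intro M hM
      by_contra hcon
      apply hn'
      right
      rw [← tow_append, ← altl_succ] at hcon
      obtain ⟨x', y', hx', hy', h'⟩ := detect hq hp hpq.symm (n + 1) hexp' M hcon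
      refine ⟨y', x', hy', hx', ?_⟩
      rw [Set.pair_comm]; exact h') x y (fun z hz => h3 G hexp x y z hx hy (Or.inl hz)) h
    exact ⟨K, hK1, hK2, Or.inl hK3⟩
  · obtain ⟨K, hK1, hK2, hK3⟩ := key_step hQ hP hcop.symm hexp' (altl (q ^ b) (p ^ a) n) (by
      intro M hM
      by_contra hcon
      apply hn'
      left
      rw [← tow_append, ← altl_succ] at hcon
      exact detect hp hq hpq (n + 1) hexp M hcon) x y
        (fun z hz => h3 G hexp x y z hx hy (Or.inr hz)) h
    exact ⟨K, hK1, hK2, Or.inr hK3⟩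

/-- a subgroup of exponent `P` is locally finite if all groups of exponent `P` are -/
theorem LF_of_exponent {P : ℕ}
    (hP : ∀ (G : Type u) [Group G], (∀ g : G, g ^ P = 1) → ∀ S : Finset G,
      Finite (closure (S : Set G)))
    {G : Type u} [Group G] (K : Subgroup G) (hK : ∀ x ∈ K, x ^ P = 1) : LF K := by
  intro H hHK hfg
  have hfgH : Group.FG H := (Group.fg_iff_subgroup_fg H).2 hfg
  obtain ⟨S, hS⟩ := hfgH.out
  have h1 := hP H (fun g => Subtype.ext (by simpa using hK g (hHK g.2))) S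
  rw [hS] at h1
  exact Finite.of_equiv _ (Subgroup.topEquiv (G := H)).toEquiv

/-- **Main theorem.** -/
theorem main_theorem {p q a b : ℕ} (hp : p.Prime) (hq : q.Prime) (hpq : p ≠ q)
    (hPL : ∀ (G : Type u) [Group G], (∀ g : G, g ^ (p ^ a) = 1) → ∀ S : Finset G,
      Finite (closure (S : Set G)))
    (hQL : ∀ (G : Type u) [Group G], (∀ g : G, g ^ (q ^ b) = 1) → ∀ S : Finset G,
      Finite (closure (S : Set G)))
    (h3 : ∀ (G : Type u) [Group G], (∀ g : G, g ^ (p ^ a * q ^ b) = 1) →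
      ∀ x y z : G, x ^ (p ^ a) = 1 → y ^ (q ^ b) = 1 → (z ^ (p ^ a) = 1 ∨ z ^ (q ^ b) = 1) →
        Finite (closure {x, y, z}))
    (G : Type u) [Group G] (hexp : ∀ x : G, x ^ (p ^ a * q ^ b) = 1) (S : Finset G) :
    Finite (closure (S : Set G)) := by
  have hLF : LF (⊤ : Subgroup G) := by
    apply LF_of_quotients
    intro N hN hNtop
    have hnt : Nontrivial (G ⧸ N) := by
      by_contra h
      rw [not_nontrivial_iff_subsingleton] at h
      exact hNtop (QuotientGroup.subgroup_eq_top_of_subsingleton N h)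
    have hexpN : ∀ x : G ⧸ N, x ^ (p ^ a * q ^ b) = 1 := by
      intro x
      obtain ⟨z, rfl⟩ := QuotientGroup.mk'_surjective N x
      rw [← map_pow, hexp, map_one]
    obtain ⟨K, hK1, hK2, hK3⟩ := exists_normal_exponent hp hq hpq h3 (G ⧸ N) hexpN
    refine ⟨K, hK1, hK2, ?_⟩
    rcases hK3 with hK3 | hK3
    · exact LF_of_exponent hPL K hK3
    · exact LF_of_exponent hQL K hK3
  exact hLF _ le_top ⟨S, rfl⟩

end Pool.Agent.Lib.MP_544bd1_al
end

section

/-!
Even exponents, squares of Mersenne primes: passing to a minimal configuration.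
-/

namespace Pool.Agent.Lib.MP_544bd1_al

open Subgroup

private theorem evD_inv {F : Type} [Group F] [Finite F] {g : F} {K : Subgroup F}
    (h : ∀ x ∈ K, g * x * g⁻¹ ∈ K) : ∀ x ∈ K, g⁻¹ * x * g ∈ K := by
  have h1 : ∀ n : ℕ, ∀ x ∈ K, g ^ n * x * (g ^ n)⁻¹ ∈ K := by
    intro n
    induction n with
    | zero => intro x hx; simpa using hx
    | succ n ih =>
      intro x hx
      have := h _ (ih x hx)
      rwa [show g * (g ^ n * x * (g ^ n)⁻¹) * g⁻¹ = g ^ (n + 1) * x * (g ^ (n + 1))⁻¹ by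
        rw [pow_succ']; group] at this
  intro x hx
  have h2 := h1 (Nat.card F - 1) x hx
  have h3 : g ^ (Nat.card F - 1) = g⁻¹ := by
    apply eq_inv_of_mul_eq_one_left
    rw [← pow_succ, Nat.sub_add_cancel Nat.card_pos, pow_card_eq_one']
  rwa [h3, inv_inv] at h2

private theorem evD_norm {F : Type} [Group F] [Finite F] {g : F} {K : Subgroup F}
    (h : ∀ x ∈ K, g * x * g⁻¹ ∈ K) : g ∈ normalizer K := by
  rw [mem_normalizer_iff]
  intro x
  refine ⟨h x, fun hx => ?_⟩
  have h1 := evD_inv h _ hx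
  have h2 : g⁻¹ * (g * x * g⁻¹) * g = x := by group
  rwa [h2] at h1

/-- **Minimal configuration.**

Proof. Let `x = w ^ (2 ^ (a - 1))`, `R₀ = closure {g | g ∈ R ∧ x * g * x⁻¹ = g⁻¹} ≤ R`. It is
normalized by `w` (`w` commutes with `x` and normalizes `R`, so it permutes the generators;
closure induction) and contains `i`. Consider the subgroups `Q' ≤ P` which are normalized by `R₀`
and by `w` and are not centralized by `R₀` (`∃ g ∈ R₀, ∃ q ∈ Q', g * q ≠ q * g`): `P` is one. Choose
one, `Q₀`, with `Nat.card Q₀` minimal (`Nat.find`, or strong induction on the cardinality, or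
`exists_minimal...`). Let `F₁ = normalizer Q₀` (as a subgroup of `F`, `f` its inclusion),
`Q = Q₀.subgroupOf F₁` (normal), `R₁ = R₀.subgroupOf F₁`, `u = ⟨w, _⟩`. `R₀ ≤ F₁` and `w ∈ F₁`
(in a finite group `w * q * w⁻¹ ∈ Q₀` for all `q ∈ Q₀` implies `w ∈ normalizer Q₀`; e.g.
`tw_F1core_inv` in TwF2.lean, or `w⁻¹` is a power of `w`). All fields of `EvMin` for the subgroups
of the type `↥F₁` follow by taking images under the inclusion: `gen`: a subgroup `S` of `F₁`
containing the inverted elements of `R₁` maps to a subgroup of `F` containing the generators of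
`R₀`; `min`: `Q'.map F₁.subtype < Q₀` is smaller. -/
theorem ev_min {F : Type} [Group F] [Finite F] {r a : ℕ} (P R : Subgroup F) (w : F)
    (hP : ∀ q ∈ P, q ^ (2 ^ a) = 1) (hR : IsPGroup r R) (hw : w ^ (2 ^ a) = 1)
    (hwR : ∀ g ∈ R, w * g * w⁻¹ ∈ R) (hwP : ∀ q ∈ P, w * q * w⁻¹ ∈ P)
    (hRP : ∀ g ∈ R, ∀ q ∈ P, g * q * g⁻¹ ∈ P)
    (h : ∃ i ∈ R, w ^ (2 ^ (a - 1)) * i * (w ^ (2 ^ (a - 1)))⁻¹ = i⁻¹ ∧ ∃ q ∈ P, i * q ≠ q * i) :
    ∃ (F₁ : Subgroup F) (Q R₁ : Subgroup F₁) (u : F₁), Q.Normal ∧ EvMin r a Q R₁ u := by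
  obtain ⟨i, hiR, hix, q₀, hq₀P, hq₀⟩ := h
  set x : F := w ^ (2 ^ (a - 1)) with hx
  let G : Set F := {g | g ∈ R ∧ x * g * x⁻¹ = g⁻¹}
  let R₀ : Subgroup F := closure G
  have hR₀R : R₀ ≤ R := (closure_le R).2 fun g hg => hg.1
  have hcx : w * x = x * w := by rw [hx, ← pow_succ', ← pow_succ]
  have hwR₀ : ∀ g ∈ R₀, w * g * w⁻¹ ∈ R₀ := by
    intro g hg
    have h1 : R₀ ≤ R₀.comap (MulAut.conj w).toMonoidHom := by
      refine (closure_le _).2 fun y hy => ?_
      refine subset_closure (k := G) ⟨hwR y hy.1, ?_⟩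
      have e1 : x * (w * y * w⁻¹) * x⁻¹ = w * (x * y * x⁻¹) * w⁻¹ := by
        have e2 : x * w = w * x := hcx.symm
        have e3 : w⁻¹ * x⁻¹ = x⁻¹ * w⁻¹ := by rw [← mul_inv_rev, ← mul_inv_rev, hcx]
        calc x * (w * y * w⁻¹) * x⁻¹ = (x * w) * y * (w⁻¹ * x⁻¹) := by group
          _ = (w * x) * y * (x⁻¹ * w⁻¹) := by rw [e2, e3]
          _ = w * (x * y * x⁻¹) * w⁻¹ := by group
      show x * (w * y * w⁻¹) * x⁻¹ = (w * y * w⁻¹)⁻¹
      rw [e1, hy.2]
      group
    exact h1 hg
  let T : Set (Subgroup F) := {Q' | Q' ≤ P ∧ (∀ g ∈ R₀, ∀ q ∈ Q', g * q * g⁻¹ ∈ Q') ∧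
    (∀ q ∈ Q', w * q * w⁻¹ ∈ Q') ∧ ∃ g ∈ R₀, ∃ q ∈ Q', g * q ≠ q * g}
  have hPT : P ∈ T := ⟨le_rfl, fun g hg q hq => hRP g (hR₀R hg) q hq, hwP,
    i, subset_closure (k := G) ⟨hiR, hix⟩, q₀, hq₀P, hq₀⟩
  obtain ⟨Q₀, ⟨hQP, hQR, hQw, g₁, hg₁, q₁, hq₁, hne⟩, hmin⟩ :=
    (wellFounded_lt (α := Subgroup F)).has_min T ⟨P, hPT⟩
  have hR₀F : R₀ ≤ normalizer Q₀ := fun g hg => evD_norm (hQR g hg)
  have hwF : w ∈ normalizer Q₀ := evD_norm hQw
  have hQF : Q₀ ≤ normalizer Q₀ := le_normalizer
  refine ⟨normalizer Q₀, Q₀.subgroupOf (normalizer Q₀), R₀.subgroupOf (normalizer Q₀), ⟨w, hwF⟩,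
    inferInstance, ?_⟩
  refine ⟨fun q hq => ?_, ?_, ?_, fun g hg => ?_, fun S hS g hg => ?_, ?_, fun Q' hQ'1 hQ'2 hQ'3 hQ'4 g hg q hq => ?_⟩
  · exact Subtype.ext (hP q (hQP (mem_subgroupOf.1 hq)))
  · exact (hR.to_le hR₀R).comap_subtype
  · exact Subtype.ext hw
  · exact mem_subgroupOf.2 (hwR₀ g (mem_subgroupOf.1 hg))
  · have h1 : R₀ ≤ S.map (normalizer (Q₀ : Set F)).subtype := by
      refine (closure_le _).2 fun y hy => ?_
      have hyR : y ∈ R₀ := subset_closure (k := G) hy
      refine ⟨⟨y, hR₀F hyR⟩, hS ⟨y, hR₀F hyR⟩ (mem_subgroupOf.2 hyR) (Subtype.ext ?_), rfl⟩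
      exact hy.2
    obtain ⟨g', hg', he⟩ := h1 (mem_subgroupOf.1 hg)
    have : g' = g := Subtype.ext he
    rwa [← this]
  · exact ⟨⟨g₁, hR₀F hg₁⟩, mem_subgroupOf.2 hg₁, ⟨q₁, hQF hq₁⟩, mem_subgroupOf.2 hq₁,
      fun h => hne (congrArg Subtype.val h)⟩
  · by_contra hcon
    refine hmin (Q'.map (normalizer (Q₀ : Set F)).subtype) ⟨?_, ?_, ?_, ?_⟩ ?_
    · rintro _ ⟨y, hy, rfl⟩
      exact hQP (mem_subgroupOf.1 (hQ'1 hy))
    · rintro y hy _ ⟨z, hz, rfl⟩
      exact ⟨_, hQ'3 ⟨y, hR₀F hy⟩ (mem_subgroupOf.2 hy) z hz, rfl⟩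
    · rintro _ ⟨z, hz, rfl⟩
      exact ⟨_, hQ'4 z hz, rfl⟩
    · exact ⟨g, mem_subgroupOf.1 hg, q, ⟨q, hq, rfl⟩, fun h => hcon (Subtype.ext h)⟩
    · refine lt_of_le_of_ne ?_ fun he => hQ'2 ?_
      · rintro _ ⟨y, hy, rfl⟩
        exact mem_subgroupOf.1 (hQ'1 hy)
      · refine le_antisymm hQ'1 fun y hy => ?_
        have h1 : (y : F) ∈ Q'.map (normalizer (Q₀ : Set F)).subtype := by
          rw [he]; exact mem_subgroupOf.1 hy
        obtain ⟨z, hz, h2⟩ := h1
        have : z = y := Subtype.ext h2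
        rwa [← this]

end Pool.Agent.Lib.MP_544bd1_al
end
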