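import Mathlib

/-!
Definitions used in the statement of the general reduction theorem.
-/

namespace Pool.Agent.Lib.MP_544bd1_al

/-- every nonabelian simple section `H / N` of `K` is generated by two elements -/
def SimpleSectionsTwoGenerated (K : Type) [Group K] : Prop :=
  ∀ (H : Subgroup K) (N : Subgroup H) [N.Normal], IsSimpleGroup (H ⧸ N) →
    (∃ a b : H ⧸ N, a * b ≠ b * a) → ∃ a b : H ⧸ N, Subgroup.closure {a, b} = ⊤

/-- all finitely generated subgroups are finite -/
def IsLocFinite (G : Type) [Group G] : Prop := ∀ H : Subgroup G, H.FG → Finite H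

/-- all sections `H / N` of `G` which are `p`-groups for some prime `p` are locally finite -/
def PSectionsLocFinite (G : Type) [Group G] : Prop :=
  ∀ (H : Subgroup G) (N : Subgroup H) [N.Normal] (p : ℕ), p.Prime → IsPGroup p (H ⧸ N) →
    IsLocFinite (H ⧸ N)

end Pool.Agent.Lib.MP_544bd1_al
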