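import Mathlib
import Pool.Agent.Lib.MP_544bd1_al.GenBX
import Pool.Agent.Lib.MP_544bd1_al.EvM2
import Pool.Agent.Lib.MP_544bd1_al.E5.Coind
import Pool.Agent.Lib.MP_544bd1_al.EvD
import Pool.Agent.Lib.MP_544bd1_al.Defs
import Pool.Agent.Lib.MP_544bd1_al.GenDefs

section

/-!
Homomorphisms to the automorphism group of a simple group come from components.
-/

namespace Pool.Agent.Lib.MP_544bd1_al

open Subgroup

section inn

variable {H T : Type} [Group H] [Group T]

theorem conj_aut (σ : MulAut T) (y : T) : σ * MulAut.conj y * σ⁻¹ = MulAut.conj (σ y) := by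
  ext z
  simp [MulAut.conj_apply]

theorem conj_inj (hT : NS T) {y z : T} (h : MulAut.conj y = MulAut.conj z) : y = z := by
  have h1 : y⁻¹ * z = 1 := by
    apply hT.center
    intro x
    have h2 := congrArg (fun σ : MulAut T => σ x) h
    simp only [MulAut.conj_apply] at h2
    calc y⁻¹ * z * x = y⁻¹ * (z * x * z⁻¹) * z := by group
      _ = y⁻¹ * (y * x * y⁻¹) * z := by rw [h2]
      _ = x * (y⁻¹ * z) := by group
  exact inv_mul_eq_one.1 h1

/-- a normal subgroup either covers the inner automorphisms or is in the kernel -/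
theorem inn_dich (hT : NS T) (φ : H →* MulAut T) (hφ : ∀ y : T, ∃ x : H, φ x = MulAut.conj y)
    {N : Subgroup H} (hN : N.Normal) :
    (∀ y : T, ∃ x ∈ N, φ x = MulAut.conj y) ∨ N ≤ φ.ker := by
  let Y : Subgroup T := (N.map φ).comap MulAut.conj
  have hY : Y.Normal := by
    constructor
    rintro y ⟨n, hn, hny⟩ z
    obtain ⟨x, hx⟩ := hφ z
    refine ⟨x * n * x⁻¹, hN.conj_mem n hn x, ?_⟩
    rw [map_mul, map_mul, map_inv, hny, hx, map_mul, map_mul, map_inv]
  rcases hT.1.eq_bot_or_eq_top_of_normal Y hY with h | h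
  · right
    intro n hn
    rw [MonoidHom.mem_ker]
    ext y
    obtain ⟨x, hx⟩ := hφ y
    have h1 : φ n y * y⁻¹ ∈ Y := by
      refine ⟨n * (x * n⁻¹ * x⁻¹), mul_mem hn (hN.conj_mem _ (inv_mem hn) x), ?_⟩
      rw [map_mul, map_mul, map_mul, map_inv, map_inv, hx, map_mul, ← conj_aut, map_inv]
      group
    rw [h, Subgroup.mem_bot, mul_inv_eq_one] at h1
    rw [h1]
    rfl
  · left
    intro y
    have : y ∈ Y := by rw [h]; trivial
    obtain ⟨n, hn, hny⟩ := this
    exact ⟨n, hn, hny⟩

end inn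

section ext

variable {s : ℕ} {H Q T : Type} [Group H] [Group Q] [Group T] [Finite Q]

/-- **(Ext)** -/
theorem ext_plus (g : H →* Q) (hk : SC s g.ker) (hQ : Red s Q) (hQt : SC (s + 1) Q)
    (hun : ∀ C : Subgroup Q, IsComp C → C.Normal) (hT : NS T) (hTc : Nat.card T = s + 1)
    (φ : H →* MulAut T) (hφ : ∀ y : T, ∃ x : H, φ x = MulAut.conj y) :
    ∃ θ : T →* Q, Function.Injective θ ∧ IsComp θ.range ∧
      ∀ x : H, ∀ y : T, θ (φ x y) = g x * θ y * (g x)⁻¹ := by
  -- find the component
  have hfix : fixSub g = ⊤ := by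
    rw [eq_top_iff]
    intro x _ C hC
    exact le_normalizer_of_normal (hun C hC) (T := ⊤) trivial
  have hconjinj : Function.Injective (MulAut.conj : T →* MulAut T) := fun _ _ h => conj_inj hT h
  have hτNS : NS (MulAut.conj : T →* MulAut T).range :=
    hT.equiv (MonoidHom.ofInjective hconjinj)
  obtain ⟨C, hC, hCτ⟩ := exists_comp_not_le g hk hQ φ
    (τ := (MulAut.conj : T →* MulAut T).range) hτNS.perfect (by
      intro h
      have h1 := h.card_le hτNS
      rw [← Nat.card_congr (MonoidHom.ofInjective hconjinj).toEquiv, hTc] at h1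
      omega) (by
      rintro _ ⟨y, rfl⟩
      obtain ⟨x, hx⟩ := hφ y
      exact ⟨x, by rw [hfix]; trivial, hx⟩)
  have hCn : C.Normal := hun C hC
  have hCc : Nat.card C = s + 1 := hC.card hQ hQt
  -- elements acting as inner automorphisms
  let Rel : H → Q → Prop := fun x c => c ∈ C ∧ ∀ z ∈ C, g x * z * (g x)⁻¹ = c * z * c⁻¹
  have R2 : ∀ x c x' c', Rel x c → Rel x' c' → Rel (x * x') (c * c') := by
    rintro x c x' c' ⟨h1, h2⟩ ⟨h3, h4⟩
    refine ⟨mul_mem h1 h3, ?_⟩
    intro z hz
    have e1 := h4 z hz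
    have e2 : g x' * z * (g x')⁻¹ ∈ C := hCn.conj_mem z hz _
    have e3 := h2 _ e2
    rw [map_mul]
    calc g x * g x' * z * (g x * g x')⁻¹ = g x * (g x' * z * (g x')⁻¹) * (g x)⁻¹ := by group
      _ = c * (g x' * z * (g x')⁻¹) * c⁻¹ := e3
      _ = c * (c' * z * c'⁻¹) * c⁻¹ := by rw [e1]
      _ = c * c' * z * (c * c')⁻¹ := by group
  have R5 : ∀ x c, Rel x c → Rel x⁻¹ c⁻¹ := by
    rintro x c ⟨h1, h2⟩
    refine ⟨inv_mem h1, ?_⟩
    intro z hz
    have e2 : (g x)⁻¹ * z * g x ∈ C := by
      have := hCn.conj_mem z hz (g x)⁻¹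
      simpa using this
    have e3 := h2 _ e2
    rw [map_inv]
    calc (g x)⁻¹ * z * ((g x)⁻¹)⁻¹ = c⁻¹ * (c * ((g x)⁻¹ * z * g x) * c⁻¹) * c := by group
      _ = c⁻¹ * (g x * ((g x)⁻¹ * z * g x) * (g x)⁻¹) * c := by rw [e3]
      _ = c⁻¹ * z * c⁻¹⁻¹ := by group
  have R3 : ∀ h x c, Rel x c → Rel (h * x * h⁻¹) (g h * c * (g h)⁻¹) := by
    rintro h x c ⟨h1, h2⟩
    refine ⟨hCn.conj_mem c h1 _, ?_⟩
    intro z hz
    have e2 : (g h)⁻¹ * z * g h ∈ C := by
      have := hCn.conj_mem z hz (g h)⁻¹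
      simpa using this
    have e3 := h2 _ e2
    rw [map_mul, map_mul, map_inv]
    calc g h * g x * (g h)⁻¹ * z * (g h * g x * (g h)⁻¹)⁻¹
        = g h * (g x * ((g h)⁻¹ * z * g h) * (g x)⁻¹) * (g h)⁻¹ := by group
      _ = g h * (c * ((g h)⁻¹ * z * g h) * c⁻¹) * (g h)⁻¹ := by rw [e3]
      _ = g h * c * (g h)⁻¹ * z * (g h * c * (g h)⁻¹)⁻¹ := by group
  -- the centralizer of `C` is in the kernel
  have hFn : (cenSub g {C}).Normal := by
    have h1 := cenSub_normalized g (S := {C}) (fun T' hT' => by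
      rw [Set.mem_singleton_iff] at hT'
      rw [hT']; exact hC)
    rw [hfix, top_le_iff] at h1
    exact Subgroup.normalizer_eq_top_iff.1 h1
  have hFk : cenSub g {C} ≤ φ.ker := by
    rcases inn_dich hT φ hφ hFn with h | h
    · exfalso
      apply hCτ
      rintro _ ⟨y, rfl⟩
      obtain ⟨x, hx, hxy⟩ := h y
      exact ⟨x, hx, hxy⟩
    · exact h
  have R4 : ∀ x, Rel x 1 → φ x = 1 := by
    rintro x ⟨_, h2⟩
    apply hFk
    refine ⟨by rw [hfix]; trivial, ?_⟩
    intro T' hT' z hz
    rw [Set.mem_singleton_iff] at hT'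
    subst hT'
    have := h2 z hz
    simp only [one_mul, inv_one, mul_one] at this
    exact mul_inv_eq_iff_eq_mul.1 this
  have R6 : ∀ x x' c, Rel x c → Rel x' c → φ x = φ x' := by
    intro x x' c h h'
    have h1 := R2 _ _ _ _ (R5 _ _ h) h'
    rw [inv_mul_cancel] at h1
    have h2 := R4 _ h1
    rw [map_mul, map_inv, inv_mul_eq_one] at h2
    exact h2
  let L : Subgroup H :=
    { carrier := {x | ∃ c, Rel x c}
      one_mem' := ⟨1, one_mem _, fun z _ => by simp⟩
      mul_mem' := by
        rintro x x' ⟨c, h⟩ ⟨c', h'⟩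
        exact ⟨_, R2 _ _ _ _ h h'⟩
      inv_mem' := by
        rintro x ⟨c, h⟩
        exact ⟨_, R5 _ _ h⟩ }
  have hLn : L.Normal := by
    constructor
    rintro x ⟨c, h⟩ k
    exact ⟨_, R3 k _ _ h⟩
  have R7 : ∀ y : T, ∃ x c, Rel x c ∧ φ x = MulAut.conj y := by
    rcases inn_dich hT φ hφ hLn with h | h
    · intro y
      obtain ⟨x, ⟨c, hc⟩, hxy⟩ := h y
      exact ⟨x, c, hc, hxy⟩
    · exfalso
      choose x hx using hφ
      have hlt := card_lt_of_action (T := C) hC.ns ((hQt.subgroup C).gen hC.ns) (X := T × C)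
        (fun z => g (x z.1) * z.2)
        (fun z => le_normalizer_of_normal hCn (T := ⊤) trivial) (by
          intro z z' hzz
          have h1 : Rel ((x z.1)⁻¹ * x z'.1) ((z.2 : Q) * (z'.2 : Q)⁻¹) := by
            refine ⟨mul_mem z.2.2 (inv_mem z'.2.2), ?_⟩
            intro v hv
            have hv' : (z'.2 : Q)⁻¹ * v * z'.2 ∈ C := by
              have := hCn.conj_mem v hv (z'.2 : Q)⁻¹
              simpa using this
            have h2 := hzz v hv
            have h3 := hzz _ hv'
            rw [map_mul, map_inv]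
            calc (g (x z.1))⁻¹ * g (x z'.1) * v * ((g (x z.1))⁻¹ * g (x z'.1))⁻¹
                = z.2 * ((g (x z.1) * z.2)⁻¹ * (g (x z'.1) * z'.2) * ((z'.2 : Q)⁻¹ * v * z'.2)) *
                  ((g (x z.1) * z.2)⁻¹ * (g (x z'.1) * z'.2))⁻¹ * (z.2 : Q)⁻¹ := by group
              _ = z.2 * (((z'.2 : Q)⁻¹ * v * z'.2) *
                  ((g (x z.1) * z.2)⁻¹ * (g (x z'.1) * z'.2))) *
                  ((g (x z.1) * z.2)⁻¹ * (g (x z'.1) * z'.2))⁻¹ * (z.2 : Q)⁻¹ := by rw [h3]
              _ = z.2 * (z'.2 : Q)⁻¹ * v * (z.2 * (z'.2 : Q)⁻¹)⁻¹ := by group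
          have h4 := h ⟨_, h1⟩
          rw [MonoidHom.mem_ker, map_mul, map_inv, inv_mul_eq_one, hx, hx] at h4
          have h5 := conj_inj hT h4
          have h6 : (z.2 : C)⁻¹ * z'.2 = 1 := by
            apply hC.ns.center
            intro v
            apply Subtype.ext
            have h7 := hzz v v.2
            simp only [h5] at h7
            push_cast
            have h8 : (g (x z'.1) * (z.2 : Q))⁻¹ * (g (x z'.1) * z'.2) = (z.2 : Q)⁻¹ * z'.2 := by
              group
            rw [h8] at h7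
            exact h7
          exact Prod.ext h5 (inv_mul_eq_one.1 h6))
      rw [Nat.card_prod, hTc, hCc, sq] at hlt
      exact lt_irrefl _ hlt
  choose x f hxf hx using R7
  let f' : T → C := fun y => ⟨f y, (hxf y).1⟩
  have hf'inj : Function.Injective f' := by
    intro y z hyz
    have h1 : f y = f z := congrArg Subtype.val hyz
    have h2 := hxf y
    rw [h1] at h2
    have h3 := R6 _ _ _ h2 (hxf z)
    rw [hx, hx] at h3
    exact conj_inj hT h3
  have hf'sur : Function.Surjective f' := by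
    have h1 : Nat.card T = Nat.card C := by rw [hTc, hCc]
    exact ((Nat.bijective_iff_injective_and_card f').2 ⟨hf'inj, h1⟩).2
  have R8 : ∀ u c y, Rel u c → φ u = MulAut.conj y → c = f y := by
    intro u c y hu huy
    obtain ⟨z, hz⟩ := hf'sur ⟨c, hu.1⟩
    have h1 : f z = c := congrArg Subtype.val hz
    have h2 := hxf z
    rw [h1] at h2
    have h3 := R6 _ _ _ hu h2
    rw [huy, hx] at h3
    rw [conj_inj hT h3, h1]
  let θ : T →* Q := MonoidHom.mk' f (by
    intro y z
    symm
    apply R8 _ _ _ (R2 _ _ _ _ (hxf y) (hxf z))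
    rw [map_mul, hx, hx, map_mul])
  have hθ : ∀ y, θ y = f y := fun _ => rfl
  refine ⟨θ, ?_, ?_, ?_⟩
  · intro y z hyz
    exact hf'inj (Subtype.ext hyz)
  · have : θ.range = C := by
      ext z
      constructor
      · rintro ⟨y, rfl⟩
        exact (hxf y).1
      · intro hz
        obtain ⟨y, hy⟩ := hf'sur ⟨z, hz⟩
        exact ⟨y, congrArg Subtype.val hy⟩
    rw [this]
    exact hC
  · intro u y
    rw [hθ, hθ]
    symm
    apply R8 _ _ _ (R3 u _ _ (hxf y))
    rw [map_mul, map_mul, map_inv, hx, conj_aut]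

/-- **(uniqueness)** -/
theorem ext_unique (g : H →* Q) (hk : SC s g.ker) (hQ : Red s Q) (hQt : SC (s + 1) Q)
    (hun : ∀ C : Subgroup Q, IsComp C → C.Normal) (hT : NS T) (hTc : Nat.card T = s + 1)
    (φ : H →* MulAut T) {t1 t2 : T} (htt : closure {t1, t2} = ⊤) {e f : H}
    (he : φ e = MulAut.conj t1) (hf : φ f = MulAut.conj t2)
    (θ : T →* Q) (hθ : Function.Injective θ) (hθc : IsComp θ.range)
    (hge : g e = θ t1) (hgf : ∀ y, g f * θ y * (g f)⁻¹ = θ (t2 * y * t2⁻¹)) :
    ∀ x : H, ∀ y : T, θ (φ x y) = g x * θ y * (g x)⁻¹ := by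
  have hφ : ∀ y : T, ∃ x : H, φ x = MulAut.conj y := by
    have h1 : closure {t1, t2} ≤ φ.range.comap MulAut.conj := by
      rw [Subgroup.closure_le]
      rintro z (rfl | rfl)
      · exact ⟨e, he⟩
      · exact ⟨f, hf⟩
    intro y
    have : y ∈ closure {t1, t2} := by rw [htt]; trivial
    exact h1 this
  have ht1 : t1 ≠ 1 := by
    rintro rfl
    obtain ⟨a, b, hab⟩ := hT.2
    apply hab
    have h1 : closure {1, t2} ≤ zpowers t2 := by
      rw [Subgroup.closure_le]
      rintro z (rfl | rfl)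
      · exact one_mem _
      · exact Subgroup.mem_zpowers _
    have ha : a ∈ zpowers t2 := h1 (by rw [htt]; trivial)
    have hb : b ∈ zpowers t2 := h1 (by rw [htt]; trivial)
    obtain ⟨i, rfl⟩ := ha
    obtain ⟨j, rfl⟩ := hb
    show t2 ^ i * t2 ^ j = t2 ^ j * t2 ^ i
    rw [← zpow_add, ← zpow_add, add_comm]
  obtain ⟨θ1, hθ1, hθ1c, hθ1g⟩ := ext_plus g hk hQ hQt hun hT hTc φ hφ
  have hrange : θ1.range = θ.range := by
    by_contra hne
    apply ht1
    apply conj_inj hT
    rw [← he, map_one]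
    ext y
    apply hθ1
    rw [hθ1g, hge]
    have h1 := hθc.comm hθ1c (Ne.symm hne) (θ t1) ⟨t1, rfl⟩ (θ1 y) ⟨y, rfl⟩
    rw [h1]
    simp
  -- the comparison automorphism
  have hex : ∀ y, ∃ z, θ z = θ1 y := by
    intro y
    have : θ1 y ∈ θ.range := by rw [← hrange]; exact ⟨y, rfl⟩
    exact this
  choose α hα using hex
  have hαmul : ∀ y z, α (y * z) = α y * α z := by
    intro y z
    apply hθ
    rw [hα, map_mul, map_mul, hα, hα]
  let α' : T →* T := MonoidHom.mk' α hαmul
  have hcen : ∀ t : T, (∀ y, θ (α (t * y * t⁻¹)) = θ (t * α y * t⁻¹)) → α t = t := by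
    intro t ht
    have h1 : t⁻¹ * α t = 1 := by
      apply hT.center
      intro z
      -- `z = α y`
      have hz : ∃ y, α y = z := by
        have : θ z ∈ θ1.range := by rw [hrange]; exact ⟨z, rfl⟩
        obtain ⟨y, hy⟩ := this
        exact ⟨y, hθ (by rw [hα, hy])⟩
      obtain ⟨y, rfl⟩ := hz
      have h2 := hθ (ht y)
      have h3 : α (t * y * t⁻¹) = α t * α y * (α t)⁻¹ := by
        rw [hαmul, hαmul]
        congr 1
        exact map_inv α' t
      rw [h3] at h2
      calc t⁻¹ * α t * α y = t⁻¹ * (α t * α y * (α t)⁻¹) * α t := by group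
        _ = t⁻¹ * (t * α y * t⁻¹) * α t := by rw [h2]
        _ = α y * (t⁻¹ * α t) := by group
    exact (inv_mul_eq_one.1 h1).symm
  have hα1 : α t1 = t1 := by
    apply hcen
    intro y
    have h1 := hθ1g e y
    rw [he, hge, ← hα] at h1
    rw [← hα y] at h1
    rw [MulAut.conj_apply] at h1
    rw [h1, map_mul, map_mul, map_inv]
  have hα2 : α t2 = t2 := by
    apply hcen
    intro y
    have h1 := hθ1g f y
    rw [hf, MulAut.conj_apply, ← hα, ← hα y, hgf] at h1
    exact h1
  have hαid : ∀ y, α y = y := by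
    have h1 : closure {t1, t2} ≤ MonoidHom.eqLocus α' (MonoidHom.id T) := by
      rw [Subgroup.closure_le]
      rintro z (rfl | rfl)
      · exact hα1
      · exact hα2
    intro y
    have : y ∈ closure {t1, t2} := by rw [htt]; trivial
    exact h1 this
  intro x y
  have h1 := hθ1g x y
  rw [← hα, ← hα y, hαid, hαid] at h1
  exact h1

omit [Finite Q] in
/-- the action on a normal simple subgroup -/
theorem exists_act (θ : T →* Q) (hθ : Function.Injective θ) (hn : θ.range.Normal) :
    ∃ ψ : Q →* MulAut T, ∀ q y, θ (ψ q y) = q * θ y * q⁻¹ := by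
  have hex : ∀ q y, ∃ z, θ z = q * θ y * q⁻¹ := by
    intro q y
    exact hn.conj_mem (θ y) ⟨y, rfl⟩ q
  choose F hF using hex
  have hmul : ∀ q y z, F q (y * z) = F q y * F q z := by
    intro q y z
    apply hθ
    rw [map_mul, hF, hF, hF, map_mul]
    group
  have hqq : ∀ q r y, F (q * r) y = F q (F r y) := by
    intro q r y
    apply hθ
    rw [hF, hF, hF]
    group
  have h1 : ∀ y, F 1 y = y := by
    intro y
    apply hθ
    rw [hF]
    simp
  let ψ : Q → MulAut T := fun q =>
    { toFun := F q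
      invFun := F q⁻¹
      left_inv := fun y => by rw [← hqq, inv_mul_cancel, h1]
      right_inv := fun y => by rw [← hqq, mul_inv_cancel, h1]
      map_mul' := hmul q }
  refine ⟨MonoidHom.mk' ψ ?_, ?_⟩
  · intro q r
    ext y
    exact hqq q r y
  · intro q y
    exact hF q y

end ext

end Pool.Agent.Lib.MP_544bd1_al
end

section

/-!
Blocks, and the laws satisfied by `G / X(G)` when no component is moved.
-/

namespace Pool.Agent.Lib.MP_544bd1_al

open Subgroup

section blocks

variable {s : ℕ} {G : Type} [Group G]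

/-- a finite subgroup in `SC (s + 1)` whose components are not moved -/
def Un (s : ℕ) (K : Subgroup G) : Prop :=
  Finite K ∧ SC (s + 1) K ∧ ∀ C : Subgroup (K ⧸ Xrad s K), IsComp C → C.Normal

variable {T : Type} [Group T]

theorem surj_of_gen {K : Subgroup G} {t1 t2 : T} (htt : closure {t1, t2} = ⊤)
    (φ : K →* MulAut T) {e f : K} (he : φ e = MulAut.conj t1) (hf : φ f = MulAut.conj t2) :
    ∀ y : T, ∃ x : K, φ x = MulAut.conj y := by
  have h1 : closure {t1, t2} ≤ φ.range.comap MulAut.conj := by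
    rw [Subgroup.closure_le]
    rintro z (rfl | rfl)
    · exact ⟨e, he⟩
    · exact ⟨f, hf⟩
  intro y
  have : y ∈ closure {t1, t2} := by rw [htt]; trivial
  exact h1 this

/-- transfer of a homomorphism to another subgroup -/
theorem switch {K K' : Subgroup G} (hK' : Un s K') (hT : NS T) (hTc : Nat.card T = s + 1)
    {t1 t2 : T} (htt : closure {t1, t2} = ⊤) (φ : K →* MulAut T) {e f : G}
    (heK : e ∈ K) (hfK : f ∈ K) (heK' : e ∈ K') (hfK' : f ∈ K')
    (he : φ ⟨e, heK⟩ = MulAut.conj t1) (hf : φ ⟨f, hfK⟩ = MulAut.conj t2) :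
    ∃ φ' : K' →* MulAut T, ∀ x (h1 : x ∈ K) (h2 : x ∈ K'), φ' ⟨x, h2⟩ = φ ⟨x, h1⟩ := by
  obtain ⟨hfin, hSC, hun⟩ := hK'
  let φH : (K ⊓ K' : Subgroup G) →* MulAut T := φ.comp (Subgroup.inclusion inf_le_left)
  let g : (K ⊓ K' : Subgroup G) →* K' ⧸ Xrad s K' :=
    (rq s K').comp (Subgroup.inclusion inf_le_right)
  have hφH := surj_of_gen htt φH (e := ⟨e, heK, heK'⟩) (f := ⟨f, hfK, hfK'⟩) he hf
  obtain ⟨θ, hθ, hθc, hθg⟩ := ext_plus g (ker_restrict inf_le_right) (Red_quotient s K')
    (SC_rq hSC) hun hT hTc φH hφH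
  obtain ⟨ψ, hψ⟩ := exists_act θ hθ (hun _ hθc)
  refine ⟨ψ.comp (rq s K'), ?_⟩
  intro x h1 h2
  ext y
  apply hθ
  rw [MonoidHom.comp_apply, hψ]
  exact (hθg ⟨x, h1, h2⟩ y).symm

/-- uniqueness of homomorphisms on intersections -/
theorem unique_on {K : Subgroup G} (hK : Un s K) (hT : NS T) (hTc : Nat.card T = s + 1)
    {t1 t2 : T} (htt : closure {t1, t2} = ⊤) (φ : K →* MulAut T) {e f : G}
    (heK : e ∈ K) (hfK : f ∈ K) (hf : φ ⟨f, hfK⟩ = MulAut.conj t2)
    (θ : T →* K ⧸ Xrad s K) (hθ : Function.Injective θ) (hθc : IsComp θ.range)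
    (hθφ : ∀ x y, θ (φ x y) = rq s K x * θ y * (rq s K x)⁻¹) (hge : rq s K ⟨e, heK⟩ = θ t1)
    {K' : Subgroup G} (ρ : K' →* MulAut T) (heK' : e ∈ K') (hfK' : f ∈ K')
    (he' : ρ ⟨e, heK'⟩ = MulAut.conj t1) (hf' : ρ ⟨f, hfK'⟩ = MulAut.conj t2) :
    ∀ x (h1 : x ∈ K) (h2 : x ∈ K'), ρ ⟨x, h2⟩ = φ ⟨x, h1⟩ := by
  obtain ⟨hfin, hSC, hun⟩ := hK
  let ρH : (K ⊓ K' : Subgroup G) →* MulAut T := ρ.comp (Subgroup.inclusion inf_le_right)
  let g : (K ⊓ K' : Subgroup G) →* K ⧸ Xrad s K :=
    (rq s K).comp (Subgroup.inclusion inf_le_left)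
  have h1 := ext_unique g (ker_restrict inf_le_left) (Red_quotient s K)
    (SC_rq hSC) hun hT hTc ρH htt (e := ⟨e, heK, heK'⟩) (f := ⟨f, hfK, hfK'⟩) he' hf' θ hθ hθc
    hge (by
      intro y
      have h2 := hθφ ⟨f, hfK⟩ y
      rw [hf, MulAut.conj_apply] at h2
      exact h2.symm)
  intro x hx hx'
  ext y
  apply hθ
  have h2 := h1 ⟨x, hx, hx'⟩ y
  rw [hθφ]
  exact h2

/-- a block -/
def Block (t1 t2 : T) (e f : G) : Prop :=
  ∃ (K : Subgroup G) (he : e ∈ K) (hf : f ∈ K) (φ : K →* MulAut T),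
    φ ⟨e, he⟩ = MulAut.conj t1 ∧ φ ⟨f, hf⟩ = MulAut.conj t2

/-- `g` acts on the block as `σ` -/
def Acts (s : ℕ) (t1 t2 : T) (e f g : G) (σ : MulAut T) : Prop :=
  ∀ (K : Subgroup G), Un s K → ∀ (he : e ∈ K) (hf : f ∈ K) (hg : g ∈ K) (φ : K →* MulAut T),
    φ ⟨e, he⟩ = MulAut.conj t1 → φ ⟨f, hf⟩ = MulAut.conj t2 → φ ⟨g, hg⟩ = σ

/-- the hypothesis that 4-generated subgroups are not moved -/
def FourUn (s : ℕ) (G : Type) [Group G] : Prop := ∀ a b c d : G, Un s (closure {a, b, c, d})

theorem FourUn.three (h : FourUn s G) (a b c : G) : Un s (closure {a, b, c}) := by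
  have h1 := h a b c c
  have h2 : ({a, b, c, c} : Set G) = {a, b, c} := by simp
  rw [h2] at h1
  exact h1

theorem Acts.mul (hG : FourUn s G) (hT : NS T) (hTc : Nat.card T = s + 1)
    {t1 t2 : T} (htt : closure {t1, t2} = ⊤) {e f g h : G} {σ τ : MulAut T}
    (hg : Acts s t1 t2 e f g σ) (hh : Acts s t1 t2 e f h τ) :
    Acts s t1 t2 e f (g * h) (σ * τ) := by
  intro K hK he hf hgh φ hφe hφf
  have hK' := hG e f g h
  have me : e ∈ closure {e, f, g, h} := Subgroup.subset_closure (by simp)
  have mf : f ∈ closure {e, f, g, h} := Subgroup.subset_closure (by simp)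
  have mg : g ∈ closure {e, f, g, h} := Subgroup.subset_closure (by simp)
  have mh : h ∈ closure {e, f, g, h} := Subgroup.subset_closure (by simp)
  obtain ⟨φ', hφ'⟩ := switch hK' hT hTc htt φ he hf me mf hφe hφf
  have e1 := hg _ hK' me mf mg φ' (by rw [hφ' e he me, hφe]) (by rw [hφ' f hf mf, hφf])
  have e2 := hh _ hK' me mf mh φ' (by rw [hφ' e he me, hφe]) (by rw [hφ' f hf mf, hφf])
  rw [← hφ' (g * h) hgh (mul_mem mg mh), ← e1, ← e2, ← map_mul]
  rfl

theorem Acts.inv {t1 t2 : T} {e f g : G} {σ : MulAut T}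
    (hg : Acts s t1 t2 e f g σ) : Acts s t1 t2 e f g⁻¹ σ⁻¹ := by
  intro K hK he hf hgi φ hφe hφf
  have mg : g ∈ K := by rw [← inv_mem_iff]; exact hgi
  rw [← hg K hK he hf mg φ hφe hφf, ← map_inv]
  rfl

theorem Acts.one {t1 t2 : T} {e f : G} : Acts s t1 t2 e f 1 1 := by
  intro K hK he hf h1 φ hφe hφf
  exact map_one φ

/-- the subgroup of all pairs `(g, σ)` with `g` acting as `σ` -/
def actSub (hG : FourUn s G) (hT : NS T) (hTc : Nat.card T = s + 1)
    {t1 t2 : T} (htt : closure {t1, t2} = ⊤) (e f : G) : Subgroup (G × MulAut T) where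
  carrier := {x | Acts s t1 t2 e f x.1 x.2}
  one_mem' := Acts.one
  mul_mem' := fun h1 h2 => Acts.mul hG hT hTc htt h1 h2
  inv_mem' := fun h1 => Acts.inv h1

/-- **sub-block lemma** -/
theorem sub_block (hG : FourUn s G) (hT : NS T) (hTc : Nat.card T = s + 1)
    {t1 t2 : T} (htt : closure {t1, t2} = ⊤) {e f : G} (hb : Block t1 t2 e f) (g : G) :
    ∃ e' : G, Block t1 t2 e' f ∧ (∃ σ, Acts s t1 t2 e' f g σ) ∧
      ∀ h σ, Acts s t1 t2 e f h σ → Acts s t1 t2 e' f h σ := by
  obtain ⟨K₀, he₀, hf₀, φ₀, hφe₀, hφf₀⟩ := hb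
  have hK := hG.three e f g
  set K := closure {e, f, g} with hKdef
  have me : e ∈ K := Subgroup.subset_closure (by simp)
  have mf : f ∈ K := Subgroup.subset_closure (by simp)
  have mg : g ∈ K := Subgroup.subset_closure (by simp)
  obtain ⟨φ, hφ⟩ := switch hK hT hTc htt φ₀ he₀ hf₀ me mf hφe₀ hφf₀
  have hφe : φ ⟨e, me⟩ = MulAut.conj t1 := by rw [hφ e he₀ me, hφe₀]
  have hφf : φ ⟨f, mf⟩ = MulAut.conj t2 := by rw [hφ f hf₀ mf, hφf₀]
  have hfin := hK.1
  obtain ⟨θ, hθ, hθc, hθφ⟩ := ext_plus (rq s K) (SC_ker_rq K) (Red_quotient s K) (SC_rq hK.2.1)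
    hK.2.2 hT hTc φ (surj_of_gen htt φ hφe hφf)
  obtain ⟨⟨e', me'⟩, he'⟩ := QuotientGroup.mk'_surjective (Xrad s K) (θ t1)
  have hφe' : φ ⟨e', me'⟩ = MulAut.conj t1 := by
    ext y
    apply hθ
    rw [hθφ, he', MulAut.conj_apply, map_mul, map_mul, map_inv]
  have huniq : ∀ {K' : Subgroup G} (ρ : K' →* MulAut T) (heK' : e' ∈ K') (hfK' : f ∈ K'),
      ρ ⟨e', heK'⟩ = MulAut.conj t1 → ρ ⟨f, hfK'⟩ = MulAut.conj t2 →
      ∀ x (h1 : x ∈ K) (h2 : x ∈ K'), ρ ⟨x, h2⟩ = φ ⟨x, h1⟩ := by
    intro K' ρ heK' hfK' h1 h2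
    exact unique_on hK hT hTc htt φ me' mf hφf θ hθ hθc hθφ he' ρ heK' hfK' h1 h2
  refine ⟨e', ⟨K, me', mf, φ, hφe', hφf⟩, ⟨φ ⟨g, mg⟩, ?_⟩, ?_⟩
  · intro K' hK' he1 hf1 hg1 ρ hρe hρf
    exact huniq ρ he1 hf1 hρe hρf g mg hg1
  · intro h σ hact K' hK' he1 hf1 hh1 ρ hρe hρf
    have hK'' := hG e f e' h
    have ne : e ∈ closure {e, f, e', h} := Subgroup.subset_closure (by simp)
    have nf : f ∈ closure {e, f, e', h} := Subgroup.subset_closure (by simp)
    have ne' : e' ∈ closure {e, f, e', h} := Subgroup.subset_closure (by simp)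
    have nh : h ∈ closure {e, f, e', h} := Subgroup.subset_closure (by simp)
    obtain ⟨ρ', hρ'⟩ := switch hK'' hT hTc htt ρ he1 hf1 ne' nf hρe hρf
    have k1 : ρ' ⟨e', ne'⟩ = MulAut.conj t1 := by rw [hρ' e' he1 ne', hρe]
    have k2 : ρ' ⟨f, nf⟩ = MulAut.conj t2 := by rw [hρ' f hf1 nf, hρf]
    have k3 : ρ' ⟨e, ne⟩ = MulAut.conj t1 := by
      rw [huniq ρ' ne' nf k1 k2 e me ne, hφe]
    rw [← hρ' h hh1 nh]
    exact hact _ hK'' ne nf nh ρ' k3 k2

/-- iterated sub-block lemma -/
theorem sub_block_finset (hG : FourUn s G) (hT : NS T) (hTc : Nat.card T = s + 1)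
    {t1 t2 : T} (htt : closure {t1, t2} = ⊤) {e f : G} (hb : Block t1 t2 e f) (S : Finset G) :
    ∃ e' : G, Block t1 t2 e' f ∧ (∀ g ∈ S, ∃ σ, Acts s t1 t2 e' f g σ) ∧
      ∀ h σ, Acts s t1 t2 e f h σ → Acts s t1 t2 e' f h σ := by
  classical
  induction S using Finset.induction_on with
  | empty => exact ⟨e, hb, fun g hg => by simp at hg, fun _ _ h => h⟩
  | insert g S _ ih =>
    obtain ⟨e1, hb1, hS1, h1⟩ := ih
    obtain ⟨e2, hb2, ⟨σ, hσ⟩, h2⟩ := sub_block hG hT hTc htt hb1 g
    refine ⟨e2, hb2, ?_, fun h σ hh => h2 h σ (h1 h σ hh)⟩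
    intro g' hg'
    rcases Finset.mem_insert.1 hg' with rfl | hg'
    · exact ⟨σ, hσ⟩
    · obtain ⟨τ, hτ⟩ := hS1 g' hg'
      exact ⟨τ, h2 _ _ hτ⟩

end blocks

section law

variable {s : ℕ} {G : Type} [Group G]

theorem FourUn.four (h : FourUn s G) : Four (s + 1) G := fun a b c d =>
  ⟨(h a b c d).1, (h a b c d).2.1⟩

/-- words killed by all homomorphisms to automorphism groups of simple groups of order `s + 1`
have values in `X(G)` -/
theorem word_mem (hG : FourUn s G) {r : ℕ} (u : FreeGroup (Fin r))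
    (hu : ∀ (T : Type) [Group T], NS T → Nat.card T = s + 1 →
      ∀ φ : FreeGroup (Fin r) →* MulAut T, φ u = 1) (a : Fin r → G) :
    FreeGroup.lift a u ∈ XG hG.four := by
  by_contra hcon
  rw [mem_XG] at hcon
  push Not at hcon
  set c := FreeGroup.lift a u with hc
  obtain ⟨x, y, hxy⟩ := hcon
  have hK := hG.three c x y
  set K := closure {c, x, y} with hKdef
  have mc : c ∈ K := Subgroup.subset_closure (by simp)
  obtain ⟨hfin, hSC, hun⟩ := hK
  have h1 : rq s K ⟨c, mc⟩ ≠ 1 := by
    intro h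
    apply hxy
    refine mem_RadIn.2 ⟨mc, ?_⟩
    rw [← ker_rq]
    exact h
  have h2 : ∃ C : Subgroup (K ⧸ Xrad s K), IsComp C ∧ ∃ z ∈ C,
      rq s K ⟨c, mc⟩ * z ≠ z * rq s K ⟨c, mc⟩ := by
    by_contra hcon
    push Not at hcon
    exact h1 (eq_one_of_comm_comp (Red_quotient s K) hcon)
  obtain ⟨C, hC, z, hzC, hz⟩ := h2
  have hCc : Nat.card C = s + 1 := hC.card (Red_quotient s K) (SC_rq hSC)
  obtain ⟨t1, t2, htt⟩ := ((SC_rq (s := s) hSC).subgroup C).gen hC.ns
  have hθinj : Function.Injective C.subtype := C.subtype_injective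
  have hθc : IsComp C.subtype.range := by rw [Subgroup.range_subtype]; exact hC
  obtain ⟨ψ, hψ⟩ := exists_act C.subtype hθinj (hun _ hθc)
  obtain ⟨⟨e, me⟩, he⟩ := QuotientGroup.mk'_surjective (Xrad s K) (t1 : K ⧸ Xrad s K)
  obtain ⟨⟨f, mf⟩, hf⟩ := QuotientGroup.mk'_surjective (Xrad s K) (t2 : K ⧸ Xrad s K)
  let φ : K →* MulAut C := ψ.comp (rq s K)
  have hφ : ∀ x y, C.subtype (φ x y) = rq s K x * C.subtype y * (rq s K x)⁻¹ := fun x y =>
    hψ _ _
  have hφe : φ ⟨e, me⟩ = MulAut.conj t1 := by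
    ext y
    have := hφ ⟨e, me⟩ y
    rw [he] at this
    exact this
  have hφf : φ ⟨f, mf⟩ = MulAut.conj t2 := by
    ext y
    have := hφ ⟨f, mf⟩ y
    rw [hf] at this
    exact this
  have hφc : φ ⟨c, mc⟩ ≠ 1 := by
    intro h
    apply hz
    have h3 := hφ ⟨c, mc⟩ ⟨z, hzC⟩
    rw [h] at h3
    exact (mul_inv_eq_iff_eq_mul.1 h3.symm)
  have hb : Block t1 t2 e f := ⟨K, me, mf, φ, hφe, hφf⟩
  have hact : Acts s t1 t2 e f c (φ ⟨c, mc⟩) := by
    intro K' hK' he1 hf1 hc1 ρ hρe hρf
    exact unique_on ⟨hfin, hSC, hun⟩ hC.ns hCc htt φ me mf hφf C.subtype hθinj hθc hφ he ρ he1 hf1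
      hρe hρf c mc hc1
  classical
  obtain ⟨e', hb', hS, hT⟩ := sub_block_finset hG hC.ns hCc htt hb (Finset.univ.image a)
  have hS' : ∀ i, ∃ σ, Acts s t1 t2 e' f (a i) σ := fun i =>
    hS _ (Finset.mem_image_of_mem _ (Finset.mem_univ i))
  choose σ hσ using hS'
  have hmem : FreeGroup.lift (fun i => (a i, σ i)) u ∈ actSub hG hC.ns hCc htt e' f := by
    have h3 : (FreeGroup.lift (fun i => (a i, σ i))).range ≤ actSub hG hC.ns hCc htt e' f := by
      rw [FreeGroup.range_lift_eq_closure, Subgroup.closure_le]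
      rintro _ ⟨i, rfl⟩
      exact hσ i
    exact h3 ⟨u, rfl⟩
  have hfst : (FreeGroup.lift (fun i => (a i, σ i)) u).1 = c := by
    have : (MonoidHom.fst G (MulAut C)).comp (FreeGroup.lift (fun i => (a i, σ i))) =
        FreeGroup.lift a := by
      ext i
      simp
    rw [hc, ← this]
    rfl
  have hsnd : (FreeGroup.lift (fun i => (a i, σ i)) u).2 = 1 :=
    hu C hC.ns hCc ((MonoidHom.snd G (MulAut C)).comp (FreeGroup.lift (fun i => (a i, σ i))))
  have hact1 : Acts s t1 t2 e' f c 1 := by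
    have h4 : Acts s t1 t2 e' f (FreeGroup.lift (fun i => (a i, σ i)) u).1
      (FreeGroup.lift (fun i => (a i, σ i)) u).2 := hmem
    rw [hfst, hsnd] at h4
    exact h4
  have hact2 := hT _ _ hact
  obtain ⟨K₀, he₀, hf₀, φ₀, hφe₀, hφf₀⟩ := hb'
  have hK1 := hG.three e' f c
  have ne : e' ∈ closure {e', f, c} := Subgroup.subset_closure (by simp)
  have nf : f ∈ closure {e', f, c} := Subgroup.subset_closure (by simp)
  have nc : c ∈ closure {e', f, c} := Subgroup.subset_closure (by simp)
  obtain ⟨φ1, hφ1⟩ := switch hK1 hC.ns hCc htt φ₀ he₀ hf₀ ne nf hφe₀ hφf₀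
  have k1 : φ1 ⟨e', ne⟩ = MulAut.conj t1 := by rw [hφ1 e' he₀ ne, hφe₀]
  have k2 : φ1 ⟨f, nf⟩ = MulAut.conj t2 := by rw [hφ1 f hf₀ nf, hφf₀]
  have k3 := hact1 _ hK1 ne nf nc φ1 k1 k2
  have k4 := hact2 _ hK1 ne nf nc φ1 k1 k2
  rw [k3] at k4
  exact hφc k4.symm

theorem LF_quotient_XG (hG : FourUn s G) [hn : (XG hG.four).Normal] :
    LF (⊤ : Subgroup (G ⧸ XG hG.four)) := by
  intro K _ hfg
  obtain ⟨S, rfl⟩ := hfg
  classical
  set r := S.card with hr
  let ι : Fin r ≃ S := S.equivFin.symm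
  have hsurj := QuotientGroup.mk'_surjective (XG hG.four)
  choose lift hlift using hsurj
  let a : Fin r → G := fun i => lift (ι i)
  let F := FreeGroup (Fin r)
  let Φ : F →* ((F →* Equiv.Perm (Fin (s + 1))) → Equiv.Perm (Fin (s + 1))) :=
    { toFun := fun u φ => φ u
      map_one' := by ext φ; simp
      map_mul' := by intro u v; ext φ; simp }
  have hfinhom : Finite (F →* Equiv.Perm (Fin (s + 1))) :=
    Finite.of_equiv _ (FreeGroup.lift (α := Fin r) (β := Equiv.Perm (Fin (s + 1))))
  have hfin : Finite (F ⧸ Φ.ker) :=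
    Finite.of_injective _ (QuotientGroup.kerLift_injective Φ)
  let Ψ : F →* G ⧸ XG hG.four := (QuotientGroup.mk' (XG hG.four)).comp (FreeGroup.lift a)
  have hker : Φ.ker ≤ Ψ.ker := by
    intro u hu
    rw [MonoidHom.mem_ker] at hu ⊢
    show ((FreeGroup.lift a u : G) : G ⧸ XG hG.four) = 1
    rw [QuotientGroup.eq_one_iff]
    apply word_mem hG u _ a
    intro T _ hT hTc φ
    have : Finite T := Nat.finite_of_card_ne_zero (by rw [hTc]; omega)
    let e : T ≃ Fin (s + 1) := Finite.equivFinOfCardEq hTc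
    have h1 := congrFun hu ((Equiv.permCongrHom e).toMonoidHom.comp (MulAut.toPerm T |>.comp φ))
    have h2 : Equiv.permCongrHom e (MulAut.toPerm T (φ u)) = 1 := h1
    rw [map_eq_one_iff _ (Equiv.permCongrHom e).injective] at h2
    ext y
    exact congrFun (congrArg (fun p : Equiv.Perm T => (p : T → T)) h2) y
  let Θ : F ⧸ Φ.ker →* G ⧸ XG hG.four := QuotientGroup.lift _ Ψ hker
  have hfr : Finite Θ.range := Set.finite_range Θ
  have hle : closure (S : Set (G ⧸ XG hG.four)) ≤ Θ.range := by
    rw [Subgroup.closure_le]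
    intro z hz
    refine ⟨QuotientGroup.mk (FreeGroup.of (ι.symm ⟨z, hz⟩)), ?_⟩
    show Ψ (FreeGroup.of (ι.symm ⟨z, hz⟩)) = z
    show QuotientGroup.mk' (XG hG.four) (FreeGroup.lift a (FreeGroup.of (ι.symm ⟨z, hz⟩))) = z
    rw [FreeGroup.lift_apply_of]
    show QuotientGroup.mk' (XG hG.four) (lift (ι (ι.symm ⟨z, hz⟩))) = z
    rw [Equiv.apply_symm_apply, hlift]
  exact Finite.of_injective _ (Subgroup.inclusion_injective hle)

/-- if no component is moved and `X(G)` is locally finite then `G` is locally finite -/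
theorem LF_of_unmoved (hG : FourUn s G) (hX : LF (XG hG.four)) : LF (⊤ : Subgroup G) := by
  have hn := XG_normal hG.four
  apply LF.extension (QuotientGroup.mk' (XG hG.four))
  · rw [QuotientGroup.ker_mk']; exact hX
  · exact (LF_quotient_XG hG).mono le_top

end law

end Pool.Agent.Lib.MP_544bd1_al
end

section

/-!
The main step of the detection of power towers by two-generator subgroups in finite solvable
groups of arbitrary exponent.
-/

namespace Pool.Agent.Lib.MP_544bd1_al

open Subgroup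

universe u

/-- if `T ≤ A` is a `p`-group and the elements of `A / T` have order prime to `p` then `T` is a
Hall subgroup of `A`. -/
theorem sol_hall {A : Type u} [Group A] [Finite A] {p a m : ℕ} (hp : p.Prime)
    (hpm : Nat.Coprime p m) (T : Subgroup A) [T.Normal] (hT : ∀ x ∈ T, x ^ (p ^ a) = 1)
    (hA : ∀ x : A, x ^ m ∈ T) : Nat.Coprime (Nat.card T) T.index := by
  have hfp : Fact p.Prime := ⟨hp⟩
  have h1 : IsPGroup p T := by
    intro x
    refine ⟨a, ?_⟩
    apply Subtype.ext
    simpa using hT x x.2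
  obtain ⟨k, hk⟩ := (IsPGroup.iff_card).1 h1
  rw [hk]
  apply Nat.Coprime.pow_left
  rw [Nat.Prime.coprime_iff_not_dvd hp]
  intro hdvd
  rw [Subgroup.index_eq_card] at hdvd
  obtain ⟨x, hx⟩ := exists_prime_orderOf_dvd_card' p hdvd
  have h2 : x ^ m = 1 := by
    induction x using QuotientGroup.induction_on with
    | H x =>
      rw [← QuotientGroup.mk_pow, QuotientGroup.eq_one_iff]
      exact hA x
  have h3 : p ∣ m := by
    rw [← hx]
    exact orderOf_dvd_of_pow_eq_one h2
  have h4 := Nat.dvd_gcd (dvd_refl p) h3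
  rw [hpm] at h4
  exact hp.one_lt.ne' (Nat.dvd_one.1 h4)

section core

variable {M : Type u} [Group M]

/-- The main step. -/
theorem sol_core [Finite M] (hsolv : Group.IsSolvable M) {p a m : ℕ} (hp : p.Prime)
    (hpm : Nat.Coprime p m) (hexp : ∀ x : M, x ^ (p ^ a * m) = 1)
    {P' m' : ℕ} (hPP' : Nat.Coprime (p ^ a) P') (hexp' : ∀ x : M, x ^ (m' * P') = 1)
    (L : List ℕ)
    (hsub : ∀ H : Subgroup M, H ≠ ⊤ → tow (L ++ [m'] ++ [m]) H = ⊥)
    (hquo : ∀ N : Subgroup M, N.Normal → N ≠ ⊥ → tow (L ++ [m'] ++ [m]) ⊤ ≤ N)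
    (hIH : ∀ C : Subgroup M, tow (L ++ [m']) C ≠ ⊥ → ∃ x ∈ C, ∃ y ∈ C,
      tow (L ++ [m']) (closure {x, y}) ≠ ⊥)
    (hne : tow (L ++ [m'] ++ [m]) (⊤ : Subgroup M) ≠ ⊥) :
    ∃ x y : M, tow (L ++ [m'] ++ [m]) (closure {x, y}) ≠ ⊥ := by
  classical
  have hcopPm : Nat.Coprime (p ^ a) m := Nat.Coprime.pow_left a hpm
  set A : Subgroup M := tow (L ++ [m']) ⊤ with hA
  set T : Subgroup M := tow (L ++ [m'] ++ [m]) ⊤ with hT
  have hTpw : T = pw m A := by rw [hT, tow_append]
  have hApw : A = pw m' (tow L ⊤) := by rw [hA, tow_append]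
  have hTn : T.Normal := tow_normal _ _
  have hAn : A.Normal := tow_normal _ _
  have hTA : T ≤ A := by rw [hTpw]; exact pw_le _ _
  -- `T` is abelian
  have hTcomm' : ⁅T, T⁆ = ⊥ := by
    by_contra h
    have h1 : T ≤ ⁅T, T⁆ := hquo _ (Subgroup.commutator_normal T T) h
    have h2 := Group.IsSolvable.commutator_lt_of_ne_bot hne
    exact absurd h1 (not_le_of_gt h2)
  have hcomm : ∀ x ∈ T, ∀ y ∈ T, x * y = y * x := by
    intro x hx y hy
    have h1 := Subgroup.commutator_mem_commutator hx hy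
    rw [hTcomm', Subgroup.mem_bot, commutatorElement_eq_one_iff_mul_comm] at h1
    exact h1
  -- exponent of `T`
  have hTP : ∀ x ∈ T, x ^ (p ^ a) = 1 := by
    intro x hx
    have hx' := hx
    rw [hTpw, pw] at hx
    induction hx using Subgroup.closure_induction with
    | mem x h =>
      obtain ⟨y, _, rfl⟩ := h
      rw [← pow_mul, mul_comm]; exact hexp y
    | one => exact one_pow _
    | mul x y hx hy ihx ihy =>
      have hxT : x ∈ T := by rw [hTpw]; exact hx
      have hyT : y ∈ T := by rw [hTpw]; exact hy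
      rw [(show Commute x y from hcomm x hxT y hyT).mul_pow, ihx hxT, ihy hyT, one_mul]
    | inv x hx ih =>
      have hxT : x ∈ T := by rw [hTpw]; exact hx
      rw [inv_pow, ih hxT, inv_one]
  have hAQ : ∀ x ∈ A, x ^ m ∈ T := by
    intro x hx; rw [hTpw]; exact pow_mem_pw hx
  -- `A` is not contained in `T`
  have hAT : ¬ A ≤ T := by
    intro h
    have hAbot : A = ⊥ := by
      rw [eq_bot_iff, hApw, pw, Subgroup.closure_le]
      rintro z ⟨y, hy, rfl⟩
      rw [SetLike.mem_coe, Subgroup.mem_bot]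
      have h1 : y ^ m' ∈ A := by rw [hApw]; exact pow_mem_pw hy
      have h2 := hTP _ (h h1)
      have h3 : (y ^ m') ^ P' = 1 := by rw [← pow_mul]; exact hexp' y
      exact eq_one_of_coprime_pow hPP' h2 h3
    apply hne
    rw [eq_bot_iff, ← hAbot]
    exact hTA
  -- the complement
  have hTAn : (T.subgroupOf A).Normal := inferInstance
  have hcopHall : Nat.Coprime (Nat.card (T.subgroupOf A)) (T.subgroupOf A).index := by
    refine sol_hall (a := a) (m := m) hp hpm _ ?_ ?_
    · intro x hx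
      apply Subtype.ext
      have := hTP x (Subgroup.mem_subgroupOf.1 hx)
      simpa using this
    · intro x
      rw [Subgroup.mem_subgroupOf]
      simpa using hAQ x x.2
  obtain ⟨U', hU'⟩ := exists_right_complement'_of_coprime hcopHall
  set U : Subgroup M := U'.map A.subtype with hU
  have hUA : U ≤ A := Subgroup.map_subtype_le _
  have hUinf : ∀ x ∈ T, x ∈ U → x = 1 := by
    rintro x hxT ⟨y, hy, rfl⟩
    have h1 : y ∈ T.subgroupOf A ⊓ U' := ⟨hxT, hy⟩
    rw [disjoint_iff.1 hU'.disjoint, Subgroup.mem_bot] at h1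
    rw [h1, map_one]
  have hUsup : ∀ x ∈ A, ∃ t ∈ T, ∃ d ∈ U, x = t * d := by
    intro x hx
    have h1 : (⟨x, hx⟩ : A) ∈ (T.subgroupOf A) ⊔ U' := by rw [hU'.sup_eq_top]; trivial
    obtain ⟨t, ht, d, hd, htd⟩ := Subgroup.mem_sup_of_normal_left.1 h1
    exact ⟨t, ht, d, ⟨d, hd, rfl⟩, (congrArg Subtype.val htd).symm⟩
  set C : Subgroup M := normalizer (U : Set M) with hC
  have hTC : T ⊔ C = ⊤ := sol_frattini hTn hAn hTA hcomm hcopHall hUA hUinf hUsup
  -- dichotomy
  have hdich : ∀ D : Subgroup M, T ⊔ D = ⊤ → T ⊓ D = ⊥ ∨ T ≤ D := by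
    intro D hD
    by_cases h : T ⊓ D = ⊥
    · left; exact h
    · right
      exact (hquo _ (inf_normal_of_sup hTn hcomm hD) h).trans inf_le_right
  have hUbot : U ≠ ⊥ := by
    intro h
    apply hAT
    intro x hx
    obtain ⟨t, ht, d, hd, rfl⟩ := hUsup x hx
    rw [h, Subgroup.mem_bot] at hd
    rw [hd, mul_one]; exact ht
  have hTnC : ¬ T ≤ C := by
    intro h
    have hCtop : C = ⊤ := by
      rw [eq_top_iff, ← hTC]; exact sup_le h le_rfl
    have hUn : U.Normal := Subgroup.normalizer_eq_top_iff.1 hCtop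
    have h1 : T ≤ U := hquo U hUn hUbot
    apply hne
    rw [eq_bot_iff]
    intro x hx
    exact Subgroup.mem_bot.2 (hUinf x hx (h1 hx))
  have hTiC : T ⊓ C = ⊥ := (hdich C hTC).resolve_right hTnC
  -- faithful action
  have hfaith : ∀ c ∈ C, (∀ t ∈ T, c * t = t * c) → c = 1 := by
    intro c hc hct
    let Z : Subgroup M :=
      { carrier := {x | x ∈ C ∧ ∀ t ∈ T, x * t = t * x}
        one_mem' := ⟨C.one_mem, fun t _ => by simp⟩
        mul_mem' := by
          rintro x y ⟨hx, hx'⟩ ⟨hy, hy'⟩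
          refine ⟨C.mul_mem hx hy, fun t ht => ?_⟩
          rw [mul_assoc, hy' t ht, ← mul_assoc, hx' t ht, mul_assoc]
        inv_mem' := by
          rintro x ⟨hx, hx'⟩
          refine ⟨C.inv_mem hx, fun t ht => ?_⟩
          have := hx' t ht
          calc x⁻¹ * t = x⁻¹ * (t * x) * x⁻¹ := by group
            _ = x⁻¹ * (x * t) * x⁻¹ := by rw [this]
            _ = t * x⁻¹ := by group }
    have hZn : Z.Normal := by
      constructor
      rintro x ⟨hx, hx'⟩ m
      have hm : m ∈ T ⊔ C := by rw [hTC]; trivial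
      obtain ⟨t, ht, d, hd, rfl⟩ := Subgroup.mem_sup_of_normal_left.1 hm
      -- d x d⁻¹ ∈ Z
      have h1 : d * x * d⁻¹ ∈ C := C.mul_mem (C.mul_mem hd hx) (C.inv_mem hd)
      have h2 : ∀ s ∈ T, (d * x * d⁻¹) * s = s * (d * x * d⁻¹) := by
        intro s hs
        have hs' : d⁻¹ * s * d ∈ T := by
          have := hTn.conj_mem s hs d⁻¹
          simpa using this
        have h3 := hx' _ hs'
        calc (d * x * d⁻¹) * s = d * (x * (d⁻¹ * s * d)) * d⁻¹ := by group
          _ = d * ((d⁻¹ * s * d) * x) * d⁻¹ := by rw [h3]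
          _ = s * (d * x * d⁻¹) := by group
      have h4 : t * d * x * (t * d)⁻¹ = d * x * d⁻¹ := by
        calc t * d * x * (t * d)⁻¹ = t * (d * x * d⁻¹) * t⁻¹ := by group
          _ = (d * x * d⁻¹) * t * t⁻¹ := by rw [h2 t ht]
          _ = d * x * d⁻¹ := by group
      rw [h4]
      exact ⟨h1, h2⟩
    by_contra hc1
    have hZbot : Z ≠ ⊥ := by
      intro h
      have : c ∈ Z := ⟨hc, hct⟩
      rw [h, Subgroup.mem_bot] at this
      exact hc1 this
    exact hTnC ((hquo Z hZn hZbot).trans (fun x hx => hx.1))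
  -- the tower of `C`
  have htowC : tow (L ++ [m']) C ≠ ⊥ := by
    intro h
    apply hAT
    have h1 : C.map (QuotientGroup.mk' T) = ⊤ := by
      rw [eq_top_iff]
      rintro x -
      induction x using QuotientGroup.induction_on with
      | H x =>
        have hm : x ∈ T ⊔ C := by rw [hTC]; trivial
        obtain ⟨t, ht, d, hd, rfl⟩ := Subgroup.mem_sup_of_normal_left.1 hm
        refine ⟨d, hd, ?_⟩
        rw [QuotientGroup.mk'_apply, QuotientGroup.eq]
        have : d⁻¹ * (t * d) = d⁻¹ * t * d := by group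
        rw [this]
        simpa using hTn.conj_mem t ht d⁻¹
    have h2 := tow_map (L ++ [m']) C (QuotientGroup.mk' T)
    rw [h, Subgroup.map_bot, h1, ← tow_map_top (L ++ [m']) (QuotientGroup.mk' T)
      (QuotientGroup.mk'_surjective T), ← hA] at h2
    have h3 : A ≤ (QuotientGroup.mk' T).ker := (Subgroup.map_eq_bot_iff _).1 h2.symm
    rwa [QuotientGroup.ker_mk'] at h3
  obtain ⟨x, hxC, y, hyC, hxy⟩ := hIH C htowC
  -- supplement generated by `x, y`
  set C0 : Subgroup M := closure {x, y} with hC0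
  have hC0C : C0 ≤ C := by
    rw [hC0, Subgroup.closure_le]
    rintro z (rfl | rfl)
    · exact hxC
    · exact hyC
  have hTC0 : T ⊔ C0 = ⊤ := by
    by_contra hcon
    have h1 := hsub _ hcon
    rw [tow_append, pw_eq_bot_iff] at h1
    obtain ⟨⟨c, hcmem⟩, hc1⟩ : ∃ c : (tow (L ++ [m']) C0 : Subgroup M), c ≠ 1 := by
      have := (Subgroup.nontrivial_iff_ne_bot _).2 hxy
      exact exists_ne 1
    have hc1' : c ≠ 1 := fun h => hc1 (Subtype.ext h)
    have hcA : c ∈ tow (L ++ [m']) (T ⊔ C0) := tow_mono _ le_sup_right hcmem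
    apply hc1'
    apply hfaith c (hC0C (tow_le _ _ hcmem))
    intro t ht
    have htm : t ∈ T ⊔ C0 := Subgroup.mem_sup_left ht
    -- the commutator
    have h2 : t * c * t⁻¹ * c⁻¹ ∈ tow (L ++ [m']) (T ⊔ C0) :=
      mul_mem (tow_conj_mem _ _ htm hcA) (inv_mem hcA)
    have h3 : t * c * t⁻¹ * c⁻¹ ∈ T := by
      have : t * c * t⁻¹ * c⁻¹ = t * (c * t⁻¹ * c⁻¹) := by group
      rw [this]
      exact T.mul_mem ht (hTn.conj_mem _ (T.inv_mem ht) c)
    have h4 := h1 _ h2
    have h5 := hTP _ h3
    have h6 := eq_one_of_coprime_pow hcopPm h5 h4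
    have h7 : t * c = c * t := by
      calc t * c = (t * c * t⁻¹ * c⁻¹) * (c * t) := by group
        _ = c * t := by rw [h6, one_mul]
    exact h7.symm
  -- counting
  by_contra hcon
  push Not at hcon
  have hgen : ∀ t₁ ∈ T, ∀ t₂ ∈ T, T ⊔ closure {t₁ * x, t₂ * y} = ⊤ := by
    intro t₁ ht₁ t₂ ht₂
    rw [eq_top_iff, ← hTC0]
    apply sup_le le_sup_left
    rw [hC0, Subgroup.closure_le]
    have h1 : t₁ * x ∈ T ⊔ closure {t₁ * x, t₂ * y} :=
      Subgroup.mem_sup_right (Subgroup.subset_closure (by simp))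
    have h2 : t₂ * y ∈ T ⊔ closure {t₁ * x, t₂ * y} :=
      Subgroup.mem_sup_right (Subgroup.subset_closure (by simp))
    have ht1' : t₁ ∈ T ⊔ closure {t₁ * x, t₂ * y} := Subgroup.mem_sup_left ht₁
    have ht2' : t₂ ∈ T ⊔ closure {t₁ * x, t₂ * y} := Subgroup.mem_sup_left ht₂
    rintro z (rfl | rfl)
    · have := mul_mem (inv_mem ht1') h1
      simpa using this
    · have := mul_mem (inv_mem ht2') h2
      simpa using this
  have hcompl : ∀ t₁ ∈ T, ∀ t₂ ∈ T, T ⊓ closure {t₁ * x, t₂ * y} = ⊥ := by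
    intro t₁ ht₁ t₂ ht₂
    rcases hdich _ (hgen t₁ ht₁ t₂ ht₂) with h | h
    · exact h
    · exfalso
      have htop : closure {t₁ * x, t₂ * y} = ⊤ := by
        rw [eq_top_iff, ← hgen t₁ ht₁ t₂ ht₂]; exact sup_le h le_rfl
      have := hcon (t₁ * x) (t₂ * y)
      rw [htop] at this
      exact hne this
  have hconj : ∀ s : T × T, ∃ t ∈ T, ∀ z : M,
      z ∈ closure {(s.1 : M) * x, (s.2 : M) * y} ↔ t * z * t⁻¹ ∈ C := by
    rintro ⟨⟨t₁, ht₁⟩, ⟨t₂, ht₂⟩⟩
    exact sol_compl_conj hTn hAn hTA hcomm hcopHall hUA hUinf hUsup hTiC _ (hgen t₁ ht₁ t₂ ht₂)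
      (hcompl t₁ ht₁ t₂ ht₂)
  choose f hfT hf using hconj
  let Φ : T × T → T := fun s => ⟨f s, hfT s⟩
  have hΦ : Function.Injective Φ := by
    rintro ⟨t₁, t₂⟩ ⟨s₁, s₂⟩ h
    have hfeq : f (t₁, t₂) = f (s₁, s₂) := congrArg Subtype.val h
    have hD : ∀ z : M, z ∈ closure {(t₁ : M) * x, (t₂ : M) * y} ↔
        z ∈ closure {(s₁ : M) * x, (s₂ : M) * y} := by
      intro z
      rw [hf (t₁, t₂) z, hf (s₁, s₂) z, hfeq]
    have hbot : ∀ z ∈ T, z ∈ closure {(t₁ : M) * x, (t₂ : M) * y} → z = 1 := by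
      intro z hz hz'
      have : z ∈ T ⊓ closure {(t₁ : M) * x, (t₂ : M) * y} := ⟨hz, hz'⟩
      rw [hcompl t₁ t₁.2 t₂ t₂.2, Subgroup.mem_bot] at this
      exact this
    have e1 : (t₁ : M) * x ∈ closure {(t₁ : M) * x, (t₂ : M) * y} :=
      Subgroup.subset_closure (by simp)
    have e2 : (t₂ : M) * y ∈ closure {(t₁ : M) * x, (t₂ : M) * y} :=
      Subgroup.subset_closure (by simp)
    have e3 : (s₁ : M) * x ∈ closure {(t₁ : M) * x, (t₂ : M) * y} :=
      (hD _).2 (Subgroup.subset_closure (by simp))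
    have e4 : (s₂ : M) * y ∈ closure {(t₁ : M) * x, (t₂ : M) * y} :=
      (hD _).2 (Subgroup.subset_closure (by simp))
    have h1 : (t₁ : M) * (s₁ : M)⁻¹ = 1 := by
      apply hbot _ (T.mul_mem t₁.2 (T.inv_mem s₁.2))
      have := mul_mem e1 (inv_mem e3)
      have h2 : (t₁ : M) * x * ((s₁ : M) * x)⁻¹ = t₁ * (s₁ : M)⁻¹ := by group
      rwa [h2] at this
    have h2 : (t₂ : M) * (s₂ : M)⁻¹ = 1 := by
      apply hbot _ (T.mul_mem t₂.2 (T.inv_mem s₂.2))
      have := mul_mem e2 (inv_mem e4)
      have h2 : (t₂ : M) * y * ((s₂ : M) * y)⁻¹ = t₂ * (s₂ : M)⁻¹ := by group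
      rwa [h2] at this
    have h1' : t₁ = s₁ := Subtype.ext (mul_inv_eq_one.1 h1)
    have h2' : t₂ = s₂ := Subtype.ext (mul_inv_eq_one.1 h2)
    rw [h1', h2']
  have hcard : Nat.card (T × T) ≤ Nat.card T := Nat.card_le_card_of_injective Φ hΦ
  rw [Nat.card_prod] at hcard
  have hTpos : 0 < Nat.card T := Nat.card_pos
  have hT1 : Nat.card T = 1 := by nlinarith
  exact hne (Subgroup.card_eq_one.1 hT1)

end core

end Pool.Agent.Lib.MP_544bd1_al
end

section

/-!
Detection and length of power towers in finite solvable groups of arbitrary exponent `n`.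
The letter attached to a prime `p` is `n / p ^ v_p(n)`.
-/

namespace Pool.Agent.Lib.MP_544bd1_al

open Subgroup

universe u

/-- the `p`-part of `n` -/
abbrev solP (n p : ℕ) : ℕ := p ^ n.factorization p

/-- the prime-to-`p` part of `n` -/
abbrev solM (n p : ℕ) : ℕ := n / p ^ n.factorization p

theorem sol_nil_or_snoc {α : Type*} (l : List α) : l = [] ∨ ∃ (l' : List α) (a : α), l = l' ++ [a] := by
  rcases l.eq_nil_or_concat with h | ⟨l', a, h⟩
  · exact Or.inl h
  · exact Or.inr ⟨l', a, by rw [h, List.concat_eq_append]⟩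

theorem solP_mul_solM (n p : ℕ) : solP n p * solM n p = n := Nat.ordProj_mul_ordCompl_eq_self n p

theorem coprime_solM {n p : ℕ} (hn : 0 < n) (hp : p.Prime) : Nat.Coprime p (solM n p) :=
  Nat.coprime_ordCompl hp hn.ne'

theorem solM_pos {n p : ℕ} (hn : 0 < n) : 0 < solM n p := Nat.ordCompl_pos p hn.ne'

theorem solP_dvd_solM {n p q : ℕ} (hp : p.Prime) (hq : q.Prime) (hpq : p ≠ q) :
    solP n q ∣ solM n p := by
  have h1 : solP n q ∣ solP n p * solM n p := by
    rw [solP_mul_solM]
    exact ⟨_, (solP_mul_solM n q).symm⟩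
  refine Nat.Coprime.dvd_of_dvd_mul_left ?_ h1
  exact Nat.Coprime.pow _ _ ((Nat.coprime_primes hq hp).2 hpq.symm)

theorem pow_solM_solM {G : Type*} [Group G] {n p q : ℕ} (hp : p.Prime) (hq : q.Prime)
    (hpq : p ≠ q) {x : G} (hx : x ^ n = 1) : x ^ (solM n q * solM n p) = 1 := by
  obtain ⟨c, hc⟩ := solP_dvd_solM (n := n) hp hq hpq
  rw [hc, ← mul_assoc, mul_comm (solM n q), solP_mul_solM, pow_mul, hx, one_pow]

theorem pw_idem {G : Type*} [Group G] {P m : ℕ} (hcop : Nat.Coprime P m)
    (hexp : ∀ x : G, x ^ (P * m) = 1) (H : Subgroup G) : pw m (pw m H) = pw m H := by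
  apply le_antisymm (pw_le _ _)
  conv_lhs => rw [pw]
  rw [Subgroup.closure_le]
  rintro _ ⟨y, hy, rfl⟩
  obtain ⟨c, hc1, hc2⟩ := Nat.chineseRemainder hcop 1 0
  obtain ⟨d, hd⟩ := (Nat.modEq_zero_iff_dvd).1 hc2
  have h1 : (y ^ m) ^ c = (y ^ m) ^ 1 := by
    rw [pow_eq_pow_iff_modEq]
    apply hc1.of_dvd
    apply orderOf_dvd_of_pow_eq_one
    rw [← pow_mul, mul_comm]
    exact hexp y
  rw [pow_one] at h1
  rw [← h1, hd, mul_comm, pow_mul]
  exact pow_mem_pw ((pw m H).pow_mem (pow_mem_pw hy) d)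

theorem sol_subgroup {M : Type u} [Group M] (h : Group.IsSolvable M) (H : Subgroup M) :
    Group.IsSolvable H := by
  have := h
  infer_instance

theorem sol_quotient {M : Type u} [Group M] (h : Group.IsSolvable M) (H : Subgroup M) [H.Normal] :
    Group.IsSolvable (M ⧸ H) := by
  have := h
  infer_instance

/-- detection, induction -/
theorem sol_detect_aux {n : ℕ} (hn : 0 < n) (k : ℕ) : ∀ (w : List ℕ), w.length = k →
    (∀ p ∈ w, p.Prime) → ∀ (N : ℕ) (M : Type u) [Group M] [Finite M], Group.IsSolvable M →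
      Nat.card M ≤ N → (∀ x : M, x ^ n = 1) →
      tow (w.map (solM n)) (⊤ : Subgroup M) ≠ ⊥ →
      ∃ x y : M, tow (w.map (solM n)) (closure {x, y}) ≠ ⊥ := by
  induction k using Nat.strong_induction_on with
  | _ k ihk =>
  intro w hwk hw N
  induction N with
  | zero =>
    intro M _ _ _ hM
    have : 0 < Nat.card M := Nat.card_pos
    omega
  | succ N ihN =>
    intro M _ _ hsolv hM hexp hne
    rcases sol_nil_or_snoc w with rfl | ⟨w', p, rfl⟩
    · -- empty word
      simp only [List.map_nil, tow_nil] at hne ⊢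
      have hnt : Nontrivial M := by
        by_contra h
        rw [not_nontrivial_iff_subsingleton] at h
        exact hne (Subsingleton.elim _ _)
      obtain ⟨g, hg⟩ := exists_ne (1 : M)
      refine ⟨g, 1, ?_⟩
      intro h
      have : g ∈ closure {g, 1} := Subgroup.subset_closure (by simp)
      rw [h, Subgroup.mem_bot] at this
      exact hg this
    · have hp : p.Prime := hw p (by simp)
      have hcopP : Nat.Coprime (solP n p) (solM n p) := Nat.Coprime.pow_left _ (coprime_solM hn hp)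
      have hexpP : ∀ x : M, x ^ (solP n p * solM n p) = 1 := by
        intro x; rw [solP_mul_solM]; exact hexp x
      rcases sol_nil_or_snoc w' with rfl | ⟨w'', q, rfl⟩
      · -- one letter
        simp only [List.nil_append, List.map_cons, List.map_nil] at hne ⊢
        have htow : ∀ H : Subgroup M, tow [solM n p] H = pw (solM n p) H := fun H => rfl
        rw [htow, Ne, pw_eq_bot_iff] at hne
        push Not at hne
        obtain ⟨g, _, hg⟩ := hne
        refine ⟨g, 1, ?_⟩
        rw [htow, Ne, pw_eq_bot_iff]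
        intro h
        exact hg (h g (Subgroup.subset_closure (by simp)))
      · have hq : q.Prime := hw q (by simp)
        by_cases hpq : p = q
        · -- repeated letter
          subst hpq
          have hid : ∀ H : Subgroup M, tow ((w'' ++ [p] ++ [p]).map (solM n)) H =
              tow ((w'' ++ [p]).map (solM n)) H := by
            intro H
            simp only [List.map_append, List.map_cons, List.map_nil]
            rw [tow_append, tow_append]
            exact pw_idem hcopP hexpP _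
          rw [hid] at hne
          obtain ⟨x, y, hxy⟩ := ihk (w'' ++ [p]).length (by
            rw [← hwk]; simp) (w'' ++ [p]) rfl (by
              intro r hr
              apply hw
              simp only [List.mem_append, List.mem_singleton] at hr ⊢
              tauto) (Nat.card M) M hsolv le_rfl hexp hne
          exact ⟨x, y, by rw [hid]; exact hxy⟩
        · -- the main case
          by_contra hcon
          apply hcon
          have hl : ((w'' ++ [q] ++ [p]).map (solM n)) =
              w''.map (solM n) ++ [solM n q] ++ [solM n p] := by simp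
          have hl1 : ((w'' ++ [q]).map (solM n)) = w''.map (solM n) ++ [solM n q] := by simp
          rw [hl] at hne ⊢
          refine sol_core hsolv (a := n.factorization p) (m := solM n p) hp (coprime_solM hn hp)
            hexpP (P' := solP n q) (m' := solM n q)
            (Nat.Coprime.pow _ _ ((Nat.coprime_primes hp hq).2 hpq)) (by
              intro x; rw [mul_comm, solP_mul_solM]; exact hexp x)
            (w''.map (solM n)) ?_ ?_ ?_ hne
          · -- subgroups
            intro H hH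
            by_contra h
            apply hcon
            have hcard : Nat.card H ≤ N := by
              have h1 : Nat.card H ∣ Nat.card M := Subgroup.card_subgroup_dvd_card H
              have h2 : Nat.card H ≠ Nat.card M := by
                intro h3
                exact hH (Subgroup.eq_top_of_card_eq H h3)
              have h3 : Nat.card H ≤ Nat.card M := Nat.le_of_dvd Nat.card_pos h1
              omega
            rw [← hl] at h
            obtain ⟨x, y, hxy⟩ := ihN H (sol_subgroup hsolv H) hcard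
              (fun x => Subtype.ext (by simpa using hexp x)) (tow_subtype_ne_bot h)
            refine ⟨x, y, ?_⟩
            have h1 := tow_map ((w'' ++ [q] ++ [p]).map (solM n)) (closure {x, y}) H.subtype
            rw [map_closure_pair] at h1
            intro h2
            apply hxy
            have h3 : tow ((w'' ++ [q] ++ [p]).map (solM n))
                (closure {H.subtype x, H.subtype y}) = ⊥ := h2
            rw [h3, Subgroup.map_eq_bot_iff_of_injective _ H.subtype_injective] at h1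
            exact h1
          · -- quotients
            intro K hK hKbot
            by_contra h
            apply hcon
            have hcard : Nat.card (M ⧸ K) ≤ N := by
              have h1 := Subgroup.card_eq_card_quotient_mul_card_subgroup K
              have h2 : 1 < Nat.card K := by
                rw [Subgroup.one_lt_card_iff_ne_bot]; exact hKbot
              have h3 : 0 < Nat.card (M ⧸ K) := Nat.card_pos
              nlinarith
            rw [← hl] at h
            have hsurj := QuotientGroup.mk'_surjective K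
            have hne' : tow ((w'' ++ [q] ++ [p]).map (solM n)) (⊤ : Subgroup (M ⧸ K)) ≠ ⊥ := by
              intro h1
              apply h
              rw [← tow_map_top _ (QuotientGroup.mk' K) hsurj, Subgroup.map_eq_bot_iff,
                QuotientGroup.ker_mk'] at h1
              exact h1
            obtain ⟨x, y, hxy⟩ := ihN (M ⧸ K) (sol_quotient hsolv K) hcard (by
              intro x
              obtain ⟨z, rfl⟩ := hsurj x
              rw [← map_pow, hexp, map_one]) hne'
            obtain ⟨x', hx'⟩ := hsurj x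
            obtain ⟨y', hy'⟩ := hsurj y
            refine ⟨x', y', ?_⟩
            intro h2
            apply hxy
            have h1 := tow_map ((w'' ++ [q] ++ [p]).map (solM n)) (closure {x', y'})
              (QuotientGroup.mk' K)
            rw [map_closure_pair, h2, Subgroup.map_bot, hx', hy'] at h1
            exact h1.symm
          · -- induction
            intro C hC
            rw [← hl1] at hC ⊢
            obtain ⟨x, y, hxy⟩ := ihk (w'' ++ [q]).length (by rw [← hwk]; simp) (w'' ++ [q]) rfl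
              (by
                intro r hr
                apply hw
                simp only [List.mem_append, List.mem_singleton] at hr ⊢
                tauto) (Nat.card C) C (sol_subgroup hsolv C)
              le_rfl (fun x => Subtype.ext (by simpa using hexp x)) (tow_subtype_ne_bot hC)
            refine ⟨x, x.2, y, y.2, ?_⟩
            have h1 := tow_map ((w'' ++ [q]).map (solM n)) (closure {x, y}) C.subtype
            rw [map_closure_pair] at h1
            intro h2
            apply hxy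
            have h3 : tow ((w'' ++ [q]).map (solM n))
                (closure {C.subtype x, C.subtype y}) = ⊥ := h2
            rw [h3, Subgroup.map_eq_bot_iff_of_injective _ C.subtype_injective] at h1
            exact h1

/-- **Detection** in solvable finite subgroups. -/
theorem sol_detect {n : ℕ} (hn : 0 < n) {w : List ℕ} (hw : ∀ p ∈ w, p.Prime)
    {G : Type u} [Group G] (hexp : ∀ x : G, x ^ n = 1)
    (M : Subgroup G) [Finite M] (hsolv : Group.IsSolvable M)
    (hne : tow (w.map (solM n)) M ≠ ⊥) :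
    ∃ x y : G, tow (w.map (solM n)) (closure {x, y}) ≠ ⊥ := by
  obtain ⟨x, y, hxy⟩ := sol_detect_aux hn w.length w rfl hw (Nat.card M) M hsolv le_rfl
    (fun x => Subtype.ext (by simpa using hexp x)) (tow_subtype_ne_bot hne)
  refine ⟨x, y, ?_⟩
  have h1 := tow_map (w.map (solM n)) (closure {x, y}) M.subtype
  rw [map_closure_pair] at h1
  intro h2
  apply hxy
  have h3 : tow (w.map (solM n)) (closure {M.subtype x, M.subtype y}) = ⊥ := h2
  rw [h3, Subgroup.map_eq_bot_iff_of_injective _ M.subtype_injective] at h1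
  exact h1

/-- words without equal consecutive letters, read from the end -/
def Reduced (w : List ℕ) : Prop := w.IsChain (· ≠ ·)

theorem sol_length_aux {n : ℕ} (K : Type u) [Group K] [Finite K]
    (hsolv : Group.IsSolvable K) (hexp : ∀ x : K, x ^ n = 1) (k : ℕ) :
    ∀ w : List ℕ, w.length = k + 1 → (∀ p ∈ w, p.Prime) → w.IsChain (· ≠ ·) →
      tow (w.map (solM n)) (⊤ : Subgroup K) ≠ ⊥ →
      Nat.card (tow (w.map (solM n)) (⊤ : Subgroup K)) + k ≤ Nat.card K := by
  induction k with
  | zero =>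
    intro w _ _ _ _
    simpa using Subgroup.card_le_card_group _
  | succ k ih =>
    intro w hwk hw hred hne
    rcases sol_nil_or_snoc w with rfl | ⟨w', p, rfl⟩
    · simp at hwk
    · rcases sol_nil_or_snoc w' with rfl | ⟨w'', q, rfl⟩
      · simp at hwk
      · have hp : p.Prime := hw p (by simp)
        have hq : q.Prime := hw q (by simp)
        have hqp : q ≠ p := by
          have h1 := List.isChain_append.1 hred
          exact h1.2.2 q (by simp) p (by simp)
        have hl : ((w'' ++ [q] ++ [p]).map (solM n)) =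
            w''.map (solM n) ++ [solM n q] ++ [solM n p] := by simp
        have hl1 : ((w'' ++ [q]).map (solM n)) = w''.map (solM n) ++ [solM n q] := by simp
        rw [hl] at hne ⊢
        have hn1 : (tow (w''.map (solM n)) (⊤ : Subgroup K)).Normal := tow_normal _ _
        have h1 : tow (w''.map (solM n) ++ [solM n q] ++ [solM n p]) (⊤ : Subgroup K) ≤
            ⁅tow (w''.map (solM n) ++ [solM n q]) (⊤ : Subgroup K),
              tow (w''.map (solM n) ++ [solM n q]) (⊤ : Subgroup K)⁆ := by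
          rw [tow_append, tow_append]
          exact pow_mem_commutator (fun x => pow_solM_solM hp hq hqp.symm (hexp x)) _
        have hle : tow (w''.map (solM n) ++ [solM n q] ++ [solM n p]) (⊤ : Subgroup K) ≤
            tow (w''.map (solM n) ++ [solM n q]) (⊤ : Subgroup K) := by
          rw [tow_append]; exact pw_le _ _
        have hne' : tow (w''.map (solM n) ++ [solM n q]) (⊤ : Subgroup K) ≠ ⊥ := by
          intro h
          rw [h, le_bot_iff] at hle
          exact hne hle
        have h2 := Group.IsSolvable.commutator_lt_of_ne_bot hne'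
        have h3 : Nat.card (tow (w''.map (solM n) ++ [solM n q] ++ [solM n p])
            (⊤ : Subgroup K)) < Nat.card (tow (w''.map (solM n) ++ [solM n q])
              (⊤ : Subgroup K)) :=
          Set.Finite.card_lt_card (Set.toFinite _) (lt_of_le_of_lt h1 h2)
        have h4 := ih (w'' ++ [q]) (by simpa using hwk) (by
          intro r hr
          apply hw
          simp only [List.mem_append, List.mem_singleton] at hr ⊢
          tauto) (List.isChain_append.1 hred).1 (by rw [hl1]; exact hne')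
        rw [hl1] at h4
        omega

/-- **Length bound.** -/
theorem sol_length_le {n : ℕ} {G : Type u} [Group G] (hexp : ∀ x : G, x ^ n = 1)
    (K : Subgroup G) [Finite K] (hsolv : Group.IsSolvable K) {w : List ℕ}
    (hw : ∀ p ∈ w, p.Prime) (hred : w.IsChain (· ≠ ·))
    (hne : tow (w.map (solM n)) K ≠ ⊥) : w.length ≤ Nat.card K + 1 := by
  rcases hk : w.length with _ | k
  · omega
  · have h := sol_length_aux K hsolv (fun x => Subtype.ext (by simpa using hexp x)) k w hk hw hred
      (tow_subtype_ne_bot hne)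
    omega

end Pool.Agent.Lib.MP_544bd1_al
end

section

/-!
Local finiteness of a group of exponent `n` all of whose `3`-generator subgroups are finite and
solvable, when the `2`-generator subgroups have bounded order.
-/

namespace Pool.Agent.Lib.MP_544bd1_al

open Subgroup

universe u

theorem sol_pow_of_pow {n : ℕ} (hn : 0 < n) {p : ℕ} (hp : p.Prime) {G : Type*} [Group G] {u : G}
    (hu : u ^ n = 1) (h : ∀ q : ℕ, q.Prime → q ∣ n → q ≠ p → u ^ (solM n q) = 1) :
    u ^ (solP n p) = 1 := by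
  apply orderOf_dvd_iff_pow_eq_one.1
  have h1 : orderOf u ∣ solP n p * solM n p := by
    rw [solP_mul_solM]; exact orderOf_dvd_of_pow_eq_one hu
  refine Nat.Coprime.dvd_of_dvd_mul_right ?_ h1
  rw [Nat.coprime_iff_gcd_eq_one]
  by_contra hcon
  obtain ⟨q, hq, hqd⟩ := Nat.exists_prime_and_dvd hcon
  have hq1 : q ∣ orderOf u := hqd.trans (Nat.gcd_dvd_left _ _)
  have hq2 : q ∣ solM n p := hqd.trans (Nat.gcd_dvd_right _ _)
  have hqn : q ∣ n := hq2.trans ⟨_, (by rw [mul_comm]; exact (solP_mul_solM n p).symm)⟩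
  have hqp : q ≠ p := by
    rintro rfl
    have h3 := Nat.dvd_gcd (dvd_refl q) hq2
    rw [coprime_solM hn hq] at h3
    exact hq.one_lt.ne' (Nat.dvd_one.1 h3)
  have h4 : q ∣ solM n q := hq1.trans (orderOf_dvd_of_pow_eq_one (h q hq hqn hqp))
  have h5 := Nat.dvd_gcd (dvd_refl q) h4
  rw [coprime_solM hn hq] at h5
  exact hq.one_lt.ne' (Nat.dvd_one.1 h5)

/-- an absorbing element -/
theorem sol_key_step {G : Type u} [Group G] {P Q : ℕ} (hP : 0 < P) (hQ : 0 < Q)
    (hcop : Nat.Coprime P Q) (hexp : ∀ x : G, x ^ (P * Q) = 1) (l : List ℕ) (x y : G)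
    (hM : ∀ h : G, ∀ u ∈ tow l (closure {x, y, h}), u ^ P = 1)
    (hne : tow l (closure {x, y}) ≠ ⊥) :
    ∃ K : Subgroup G, K.Normal ∧ K ≠ ⊥ ∧ ∀ x ∈ K, x ^ P = 1 := by
  obtain ⟨w, hw, hw1⟩ : ∃ w ∈ tow l (closure {x, y}), w ≠ 1 := by
    by_contra h
    push Not at h
    exact hne (by rw [eq_bot_iff]; intro z hz; exact Subgroup.mem_bot.2 (h z hz))
  apply normal_of_absorbing (Nat.mul_pos hP hQ) hexp hw1
  intro h hh
  have hMe := hM h
  set M := closure {x, y, h} with hMdef
  have hle : closure {x, y} ≤ M := by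
    apply Subgroup.closure_mono
    intro z hz
    rcases hz with rfl | rfl <;> simp
  have hwM : w ∈ tow l M := tow_mono l hle hw
  have hhM : h ∈ M := Subgroup.subset_closure (by simp)
  have h1 : ∀ k : ℕ, (w * h) ^ k * (h ^ k)⁻¹ ∈ tow l M := by
    intro k
    induction k with
    | zero => simp [one_mem]
    | succ k ih =>
      have h2 : (w * h) ^ (k + 1) * (h ^ (k + 1))⁻¹ =
          w * (h * ((w * h) ^ k * (h ^ k)⁻¹) * h⁻¹) := by
        rw [pow_succ' (w * h), pow_succ' h]; group
      rw [h2]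
      exact mul_mem hwM (tow_conj_mem l M hhM ih)
  have h2 := h1 P
  rw [hh, inv_one, mul_one] at h2
  exact pow_eq_one_of_pow_pow hcop (hMe _ h2) (hexp _)

/-- a nontrivial group as in the main theorem has a nontrivial normal subgroup of prime power
exponent `solP n p`. -/
theorem sol_exists_normal {n : ℕ} (hn : 0 < n) (G : Type u) [Group G] [Nontrivial G]
    (hexp : ∀ g : G, g ^ n = 1)
    (hb : ∀ x y z : G, Finite (closure {x, y, z}) ∧ Group.IsSolvable (closure {x, y, z}))
    {c : ℕ} (hc : ∀ x y : G, Nat.card (closure {x, y}) ≤ c) :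
    ∃ p : ℕ, p.Prime ∧ p ∣ n ∧
      ∃ K : Subgroup G, K.Normal ∧ K ≠ ⊥ ∧ ∀ x ∈ K, x ^ (solP n p) = 1 := by
  classical
  have hpair : ∀ x y : G, (closure {x, y} : Subgroup G) = closure {x, y, y} := by
    intro x y
    congr 1
    ext z; simp
  let D : ℕ → Prop := fun k => ∃ w : List ℕ, w.length = k ∧ (∀ p ∈ w, p.Prime) ∧
    (∀ p ∈ w, p ∣ n) ∧ w.IsChain (· ≠ ·) ∧
    ∃ x y : G, tow (w.map (solM n)) (closure {x, y}) ≠ ⊥
  have hbd : ∀ k, D k → k ≤ c + 1 := by
    rintro k ⟨w, rfl, hw, _, hch, x, y, hxy⟩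
    obtain ⟨hf, hs⟩ := hb x y y
    rw [← hpair] at hf hs
    have := sol_length_le hexp (closure {x, y}) hs hw hch hxy
    have := hc x y
    omega
  -- words of length one
  have hD1 : D 1 := by
    obtain ⟨g, hg⟩ := exists_ne (1 : G)
    have ho : orderOf g ≠ 1 := by rwa [Ne, orderOf_eq_one_iff]
    obtain ⟨p, hp, hpd⟩ := Nat.exists_prime_and_dvd ho
    have hpn : p ∣ n := hpd.trans (orderOf_dvd_of_pow_eq_one (hexp g))
    refine ⟨[p], rfl, by simpa using hp, by simpa using hpn, by simp, g, 1, ?_⟩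
    have htow : ∀ H : Subgroup G, tow [solM n p] H = pw (solM n p) H := fun H => rfl
    simp only [List.map_cons, List.map_nil]
    rw [htow, Ne, pw_eq_bot_iff]
    intro h
    have h1 := h g (Subgroup.subset_closure (by simp))
    have h2 := hpd.trans (orderOf_dvd_of_pow_eq_one h1)
    have h3 := Nat.dvd_gcd (dvd_refl p) h2
    rw [coprime_solM hn hp] at h3
    exact hp.one_lt.ne' (Nat.dvd_one.1 h3)
  obtain ⟨k, hk1, hk, hk'⟩ : ∃ k, 1 ≤ k ∧ D k ∧ ¬ D (k + 1) := by
    by_contra h
    push Not at h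
    have hall : ∀ k, 1 ≤ k → D k := by
      intro k hk
      induction k, hk using Nat.le_induction with
      | base => exact hD1
      | succ k hk ih => exact h k hk ih
    have := hbd _ (hall (c + 2) (by omega))
    omega
  obtain ⟨w, hwk, hw, hwn, hch, x, y, hxy⟩ := hk
  rcases sol_nil_or_snoc w with rfl | ⟨w', p, rfl⟩
  · simp at hwk; omega
  · have hp : p.Prime := hw p (by simp)
    have hpn : p ∣ n := hwn p (by simp)
    refine ⟨p, hp, hpn, ?_⟩
    have hP : 0 < solP n p := Nat.pow_pos hp.pos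
    refine sol_key_step hP (solM_pos hn) (Nat.Coprime.pow_left _ (coprime_solM hn hp))
      (fun x => by rw [solP_mul_solM]; exact hexp x)
      ((w' ++ [p]).map (solM n)) x y ?_ hxy
    intro h u hu
    obtain ⟨hf, hs⟩ := hb x y h
    apply sol_pow_of_pow hn hp (hexp u)
    intro q hq hqn hqp
    by_contra hcon
    apply hk'
    refine ⟨w' ++ [p] ++ [q], by rw [← hwk]; simp, ?_, ?_, ?_, ?_⟩
    · intro r hr
      simp only [List.mem_append, List.mem_singleton] at hr hw
      rcases hr with (hr | hr) | hr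
      · exact hw r (Or.inl hr)
      · exact hw r (Or.inr hr)
      · rw [hr]; exact hq
    · intro r hr
      simp only [List.mem_append, List.mem_singleton] at hr hwn
      rcases hr with (hr | hr) | hr
      · exact hwn r (Or.inl hr)
      · exact hwn r (Or.inr hr)
      · rw [hr]; exact hqn
    · rw [List.isChain_append]
      refine ⟨hch, by simp, ?_⟩
      intro a ha b hb'
      simp at ha hb'
      subst ha; subst hb'
      exact hqp.symm
    · have hall : ∀ r ∈ w' ++ [p] ++ [q], r.Prime := by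
        intro r hr
        simp only [List.mem_append, List.mem_singleton] at hr hw
        rcases hr with (hr | hr) | hr
        · exact hw r (Or.inl hr)
        · exact hw r (Or.inr hr)
        · rw [hr]; exact hq
      refine sol_detect hn hall hexp (closure {x, y, h}) hs ?_
      intro hbot
      rw [List.map_append, List.map_cons, List.map_nil, tow_append, pw_eq_bot_iff] at hbot
      exact hcon (hbot u hu)

/-- a subgroup of exponent `P` is locally finite if all groups of exponent `P` are -/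
theorem sol_LF_of_exponent {P : ℕ}
    (hP : ∀ (G : Type u) [Group G], (∀ g : G, g ^ P = 1) → LF (⊤ : Subgroup G))
    {G : Type u} [Group G] (K : Subgroup G) (hK : ∀ x ∈ K, x ^ P = 1) : LF K := by
  intro H hHK hfg
  have hfgH : Group.FG H := (Group.fg_iff_subgroup_fg H).2 hfg
  have h1 := hP H (fun g => Subtype.ext (by simpa using hK g (hHK g.2))) ⊤ le_rfl hfgH.out
  exact Finite.of_equiv _ (Subgroup.topEquiv (G := H)).toEquiv

/-- **The solvable base case.**  Let `G` be a group of exponent dividing `n > 0` all of whose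
`3`-generator subgroups are finite and solvable, with the orders of the `2`-generator subgroups
bounded.  If, for every prime `p ∣ n`, all groups of exponent `p ^ v_p(n)` are locally finite then
`G` is locally finite. -/
theorem sol_base {n : ℕ} (hn : 0 < n)
    (ha : ∀ p : ℕ, p.Prime → p ∣ n → ∀ (G : Type u) [Group G], (∀ g : G, g ^ (solP n p) = 1) →
      LF (⊤ : Subgroup G))
    (G : Type u) [Group G] (hexp : ∀ g : G, g ^ n = 1)
    (hb : ∀ x y z : G, Finite (closure {x, y, z}) ∧ Group.IsSolvable (closure {x, y, z}))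
    (hc : ∃ c : ℕ, ∀ x y : G, Nat.card (closure {x, y}) ≤ c) :
    LF (⊤ : Subgroup G) := by
  obtain ⟨c, hc⟩ := hc
  apply LF_of_quotients
  intro N hN hNtop
  have hnt : Nontrivial (G ⧸ N) := by
    by_contra h
    rw [not_nontrivial_iff_subsingleton] at h
    exact hNtop (QuotientGroup.subgroup_eq_top_of_subsingleton N h)
  have hsurj := QuotientGroup.mk'_surjective N
  have hexpN : ∀ x : G ⧸ N, x ^ n = 1 := by
    intro x
    obtain ⟨z, rfl⟩ := hsurj x
    rw [← map_pow, hexp, map_one]
  have hbN : ∀ x y z : G ⧸ N,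
      Finite (closure {x, y, z}) ∧ Group.IsSolvable (closure {x, y, z}) := by
    intro x y z
    obtain ⟨x, rfl⟩ := hsurj x
    obtain ⟨y, rfl⟩ := hsurj y
    obtain ⟨z, rfl⟩ := hsurj z
    have h1 : (closure {x, y, z}).map (QuotientGroup.mk' N) =
        closure {QuotientGroup.mk' N x, QuotientGroup.mk' N y, QuotientGroup.mk' N z} := by
      rw [MonoidHom.map_closure, Set.image_insert_eq, Set.image_pair]
    rw [← h1]
    obtain ⟨hf, hs⟩ := hb x y z
    refine ⟨Finite.of_surjective _
      ((QuotientGroup.mk' N).subgroupMap_surjective (closure {x, y, z})), ?_⟩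
    exact Group.isSolvable_of_surjective
      ((QuotientGroup.mk' N).subgroupMap_surjective (closure {x, y, z}))
  have hcN : ∀ x y : G ⧸ N, Nat.card (closure {x, y}) ≤ c := by
    intro x y
    obtain ⟨x, rfl⟩ := hsurj x
    obtain ⟨y, rfl⟩ := hsurj y
    have h1 := map_closure_pair (QuotientGroup.mk' N) x y
    rw [← h1]
    have hf : Finite (closure {x, y}) := by
      have h2 := (hb x y y).1
      have h3 : (closure {x, y} : Subgroup G) = closure {x, y, y} := by
        congr 1
        ext z; simp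
      rw [h3]; exact h2
    exact (Nat.card_le_card_of_surjective _
      ((QuotientGroup.mk' N).subgroupMap_surjective (closure {x, y}))).trans (hc x y)
  obtain ⟨p, hp, hpn, K, hK1, hK2, hK3⟩ := sol_exists_normal hn (G ⧸ N) hexpN hbN hcN
  exact ⟨K, hK1, hK2, sol_LF_of_exponent (ha p hp hpn) K hK3⟩

end Pool.Agent.Lib.MP_544bd1_al
end

section

/-!
The general reduction theorem.
-/

namespace Pool.Agent.Lib.MP_544bd1_al

open Subgroup

/-- a finite group without nonabelian simple sections is solvable -/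
theorem solvable_of_SC_zero (K : Type) [Group K] [hf : Finite K] (h : SC 0 K) :
    Group.IsSolvable K := by
  induction hk : Nat.card K using Nat.strong_induction_on generalizing K with
  | _ m ih =>
    by_cases hnt : Nontrivial K
    · obtain ⟨N, hN⟩ := (Set.toFinite {N : Subgroup K | N.Normal ∧ N ≠ ⊤}).exists_maximal
        ⟨⊥, inferInstance, bot_ne_top⟩
      obtain ⟨hNn, hNt⟩ := hN.prop
      have hsimple : IsSimpleGroup (K ⧸ N) := by
        have hnt' : Nontrivial (K ⧸ N) := by
          by_contra hcon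
          rw [not_nontrivial_iff_subsingleton] at hcon
          exact hNt (QuotientGroup.subgroup_eq_top_of_subsingleton N hcon)
        refine ⟨fun H hH => ?_⟩
        by_cases ht : H = ⊤
        · right; exact ht
        · left
          have h1 : H.comap (QuotientGroup.mk' N) ∈ {N : Subgroup K | N.Normal ∧ N ≠ ⊤} := by
            refine ⟨hH.comap _, ?_⟩
            intro h2
            apply ht
            rw [eq_top_iff]
            intro x _
            obtain ⟨y, rfl⟩ := QuotientGroup.mk'_surjective N x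
            have : y ∈ H.comap (QuotientGroup.mk' N) := by rw [h2]; trivial
            exact this
          have h2 : N ≤ H.comap (QuotientGroup.mk' N) := by
            intro x hx
            rw [Subgroup.mem_comap, QuotientGroup.mk'_apply, (QuotientGroup.eq_one_iff x).2 hx]
            exact H.one_mem
          have h3 := hN.le_of_ge h1 h2
          rw [eq_bot_iff]
          intro x hx
          obtain ⟨y, rfl⟩ := QuotientGroup.mk'_surjective N x
          have : y ∈ N := h3 hx
          exact (QuotientGroup.eq_one_iff y).2 this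
      have hcomm : ∀ a b : K ⧸ N, a * b = b * a := by
        by_contra hcon
        push Not at hcon
        have := (h.quotient N).card_le ⟨hsimple, hcon⟩
        have h2 : 0 < Nat.card (K ⧸ N) := Nat.card_pos
        omega
      have h1 : Group.IsSolvable N := by
        apply ih (Nat.card N) _ N (h.subgroup N) rfl
        rw [← hk]
        apply lt_of_le_of_ne (Nat.card_le_card_of_injective _ N.subtype_injective)
        intro h2
        exact hNt (Subgroup.eq_top_of_card_eq N h2)
      have h2 : Group.IsSolvable (K ⧸ N) := Group.isSolvable_of_comm hcomm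
      exact (Group.isSolvable_iff_subgroup_quotient N).2 ⟨h1, h2⟩
    · rw [not_nontrivial_iff_subsingleton] at hnt
      infer_instance

/-- all sections of prime power exponent `p ^ v_p(n)` are locally finite -/
def PSec (n : ℕ) (G : Type) [Group G] : Prop :=
  ∀ (S : Type) [Group S] (H : Subgroup G) (f : H →* S), Function.Surjective f →
    ∀ p : ℕ, p.Prime → p ∣ n → (∀ x : S, x ^ (p ^ n.factorization p) = 1) →
      LF (⊤ : Subgroup S)

theorem PSec.of_injective {n : ℕ} {K H : Type} [Group K] [Group H] (f : H →* K)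
    (hf : Function.Injective f) (h : PSec n K) : PSec n H := by
  intro T _ A φ hφ hT
  let e : A ≃* A.map f := A.equivMapOfInjective f hf
  exact h T (A.map f) (φ.comp e.symm.toMonoidHom) (hφ.comp e.symm.surjective) hT

theorem PSec.of_surjective {n : ℕ} {K Q : Type} [Group K] [Group Q] (f : K →* Q)
    (hf : Function.Surjective f) (h : PSec n K) : PSec n Q := by
  intro T _ A φ hφ hT
  refine h T (A.comap f) (φ.comp (f.subgroupComap A)) (hφ.comp ?_) hT
  rintro ⟨y, hy⟩
  obtain ⟨x, rfl⟩ := hf y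
  exact ⟨⟨x, hy⟩, rfl⟩

/-- the hypotheses of the main induction -/
structure Pk (n c t : ℕ) (G : Type) [Group G] : Prop where
  exp : ∀ g : G, g ^ n = 1
  psec : PSec n G
  four : ∀ x y z w : G, Finite (closure {x, y, z, w}) ∧
    Nat.card (closure {x, y, z, w}) ≤ c ∧ SC t (closure {x, y, z, w})

theorem map_closure_four {G Q : Type} [Group G] [Group Q] (f : G →* Q) (x y z w : G) :
    (closure {x, y, z, w}).map f = closure {f x, f y, f z, f w} := by
  rw [MonoidHom.map_closure, Set.image_insert_eq, Set.image_insert_eq, Set.image_pair]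

theorem Pk.quotient {n c t : ℕ} {G Q : Type} [Group G] [Group Q] (h : Pk n c t G) (f : G →* Q)
    (hf : Function.Surjective f) : Pk n c t Q := by
  refine ⟨?_, h.psec.of_surjective f hf, ?_⟩
  · intro g
    obtain ⟨x, rfl⟩ := hf g
    rw [← map_pow, h.exp, map_one]
  · intro x y z w
    obtain ⟨x, rfl⟩ := hf x
    obtain ⟨y, rfl⟩ := hf y
    obtain ⟨z, rfl⟩ := hf z
    obtain ⟨w, rfl⟩ := hf w
    rw [← map_closure_four]
    obtain ⟨h1, h2, h3⟩ := h.four x y z w
    have hs := f.subgroupMap_surjective (closure {x, y, z, w})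
    exact ⟨Finite.of_surjective _ hs, (Nat.card_le_card_of_surjective _ hs).trans h2, h3.map f⟩

theorem Pk.sub {n c t : ℕ} {G : Type} [Group G] (h : Pk n c t G) (H : Subgroup G) :
    Pk n c t H := by
  refine ⟨?_, h.psec.of_injective H.subtype H.subtype_injective, ?_⟩
  · intro g
    apply Subtype.ext
    rw [SubgroupClass.coe_pow, h.exp]
    rfl
  · intro x y z w
    obtain ⟨h1, h2, h3⟩ := h.four x y z w
    have e := (closure {x, y, z, w}).equivMapOfInjective H.subtype H.subtype_injective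
    rw [map_closure_four] at e
    have h1' : Finite (closure {H.subtype x, H.subtype y, H.subtype z, H.subtype w}) := h1
    have h2' : Nat.card (closure {H.subtype x, H.subtype y, H.subtype z, H.subtype w}) ≤ c := h2
    have h3' : SC t (closure {H.subtype x, H.subtype y, H.subtype z, H.subtype w}) := h3
    refine ⟨Finite.of_equiv _ e.symm.toEquiv, ?_, h3'.equiv e.symm⟩
    rw [Nat.card_congr e.toEquiv]
    exact h2'

theorem LF_of_top {G : Type} [Group G] {H : Subgroup G} (h : LF (⊤ : Subgroup H)) : LF H := by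
  intro K hK hfg
  have e := Subgroup.subgroupOfEquivOfLe hK
  have h1 : Group.FG K := (Group.fg_iff_subgroup_fg K).2 hfg
  have h2 : Group.FG (K.subgroupOf H) := Group.fg_of_surjective (f := e.symm.toMonoidHom)
    e.symm.surjective
  have h3 : Finite (K.subgroupOf H) := h _ le_top ((Group.fg_iff_subgroup_fg _).1 h2)
  exact Finite.of_equiv _ e.toEquiv

/-- the solvable case: three generators suffice -/
theorem sol_group {n c : ℕ} (hn : 0 < n) (G : Type) [Group G] (hexp : ∀ g : G, g ^ n = 1)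
    (hps : PSec n G)
    (h3 : ∀ x y z : G, Finite (closure {x, y, z}) ∧ Group.IsSolvable (closure {x, y, z}))
    (h2 : ∀ x y : G, Nat.card (closure {x, y}) ≤ c) : LF (⊤ : Subgroup G) := by
  apply LF_of_quotients
  intro N hN hNtop
  have hnt : Nontrivial (G ⧸ N) := by
    by_contra h
    rw [not_nontrivial_iff_subsingleton] at h
    exact hNtop (QuotientGroup.subgroup_eq_top_of_subsingleton N h)
  have hsurj := QuotientGroup.mk'_surjective N
  have hexpN : ∀ x : G ⧸ N, x ^ n = 1 := by
    intro x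
    obtain ⟨z, rfl⟩ := hsurj x
    rw [← map_pow, hexp, map_one]
  have hbN : ∀ x y z : G ⧸ N,
      Finite (closure {x, y, z}) ∧ Group.IsSolvable (closure {x, y, z}) := by
    intro x y z
    obtain ⟨x, rfl⟩ := hsurj x
    obtain ⟨y, rfl⟩ := hsurj y
    obtain ⟨z, rfl⟩ := hsurj z
    have h1 : (closure {x, y, z}).map (QuotientGroup.mk' N) =
        closure {QuotientGroup.mk' N x, QuotientGroup.mk' N y, QuotientGroup.mk' N z} := by
      rw [MonoidHom.map_closure, Set.image_insert_eq, Set.image_pair]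
    rw [← h1]
    obtain ⟨hf, hs⟩ := h3 x y z
    refine ⟨Finite.of_surjective _
      ((QuotientGroup.mk' N).subgroupMap_surjective (closure {x, y, z})), ?_⟩
    exact Group.isSolvable_of_surjective
      ((QuotientGroup.mk' N).subgroupMap_surjective (closure {x, y, z}))
  have hcN : ∀ x y : G ⧸ N, Nat.card (closure {x, y}) ≤ c := by
    intro x y
    obtain ⟨x, rfl⟩ := hsurj x
    obtain ⟨y, rfl⟩ := hsurj y
    have h1 : (closure {x, y}).map (QuotientGroup.mk' N) =
        closure {QuotientGroup.mk' N x, QuotientGroup.mk' N y} := by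
      rw [MonoidHom.map_closure, Set.image_pair]
    rw [← h1]
    have hf : Finite (closure {x, y}) := by
      have h2 := (h3 x y y).1
      have h3 : (closure {x, y} : Subgroup G) = closure {x, y, y} := by
        congr 1
        ext z; simp
      rw [h3]; exact h2
    exact (Nat.card_le_card_of_surjective _
      ((QuotientGroup.mk' N).subgroupMap_surjective (closure {x, y}))).trans (h2 x y)
  obtain ⟨p, hp, hpn, K, hK1, hK2, hK3⟩ := sol_exists_normal hn (G ⧸ N) hexpN hbN hcN
  refine ⟨K, hK1, hK2, LF_of_top ?_⟩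
  exact (hps.of_surjective _ hsurj) K K (MonoidHom.id K) (fun x => ⟨x, rfl⟩) p hp hpn
    (fun x => Subtype.ext (hK3 x x.2))

/-- base case -/
theorem gen_base {n c : ℕ} (hn : 0 < n) (G : Type) [Group G]
    (h : Pk n c 0 G) : LF (⊤ : Subgroup G) := by
  apply sol_group hn G h.exp h.psec (c := c)
  · intro x y z
    have h1 := h.four x y z z
    have h2 : ({x, y, z, z} : Set G) = {x, y, z} := by simp
    rw [h2] at h1
    have := h1.1
    exact ⟨h1.1, solvable_of_SC_zero _ h1.2.2⟩
  · intro x y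
    have h1 := h.four x y y y
    have h2 : ({x, y, y, y} : Set G) = {x, y} := by simp
    rw [h2] at h1
    exact h1.2.1

theorem normal_of_fix {K P : Type} [Group K] [Group P] (π : K →* P)
    (hπ : Function.Surjective π) {C : Subgroup P} (h : ∀ w : K, π w ∈ normalizer (C : Set P)) :
    C.Normal := by
  constructor
  intro x hx q
  obtain ⟨w, rfl⟩ := hπ q
  exact (Subgroup.mem_normalizer_iff.1 (h w) x).1 hx

/-- subgroups of `B(G)` are not moved -/
theorem fourUn_BG {n c s : ℕ} {Q : Type} [Group Q] (hQ : Pk n c (s + 1) Q)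
    (h4 : Four (s + 1) Q) : FourUn s (BG h4) := by
  intro x y z w
  have hB := hQ.sub (BG h4)
  obtain ⟨h1, _, h3⟩ := hB.four x y z w
  set K := closure {x, y, z, w} with hK
  refine ⟨h1, h3, ?_⟩
  intro C hC
  apply normal_of_fix (rq s K) (QuotientGroup.mk'_surjective _)
  intro u
  let e : K ≃* K.map (BG h4).subtype := K.equivMapOfInjective _ (BG h4).subtype_injective
  have hfin : Finite (K.map (BG h4).subtype) := Finite.of_equiv _ e.toEquiv
  have hSC : SC (s + 1) (K.map (BG h4).subtype) := h3.equiv e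
  let g : K →* (K.map (BG h4).subtype) ⧸ Xrad s (K.map (BG h4).subtype) :=
    (rq s (K.map (BG h4).subtype)).comp e.toMonoidHom
  have hker : SC s g.ker := by
    let ι : g.ker →* Xrad s (K.map (BG h4).subtype) :=
      { toFun := fun x => ⟨e x, by
          have := x.2
          rw [MonoidHom.mem_ker, MonoidHom.comp_apply] at this
          exact (QuotientGroup.eq_one_iff _).1 this⟩
        map_one' := by simp
        map_mul' := fun _ _ => by
          apply Subtype.ext
          simp }
    apply (Xrad_SC s (K.map (BG h4).subtype)).of_injective ι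
    intro a b hab
    apply Subtype.ext
    apply e.injective
    exact congrArg (fun z : Xrad s (K.map (BG h4).subtype) =>
      (z : K.map (BG h4).subtype)) hab
  apply fix_of_fix g hker (Red_quotient s _) (SC_rq hSC) (rq s K)
    (QuotientGroup.mk'_surjective _) (Red_quotient s K) (w := u) _ C hC
  have hu : ((e u : K.map (BG h4).subtype) : Q) ∈ FixIn s (K.map (BG h4).subtype) :=
    FixIn_of_mem_BG (h := h4) (u : BG h4).2 hSC (e u).2
  obtain ⟨_, hu2⟩ := mem_FixIn.1 hu
  exact hu2

theorem exists_LF_normal {n c s : ℕ} (hn : 0 < n)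
    (ih : ∀ (G : Type) [Group G], Pk n c s G → LF (⊤ : Subgroup G)) (Q : Type) [Group Q]
    [Nontrivial Q] (hQ : Pk n c (s + 1) Q) :
    ∃ K : Subgroup Q, K.Normal ∧ K ≠ ⊥ ∧ LF K := by
  by_cases hs : ∀ x y z w : Q, SC s (closure {x, y, z, w})
  · refine ⟨⊤, inferInstance, top_ne_bot, ih Q ⟨hQ.exp, hQ.psec, ?_⟩⟩
    intro x y z w
    exact ⟨(hQ.four x y z w).1, (hQ.four x y z w).2.1, hs x y z w⟩
  · push Not at hs
    have h4 : Four (s + 1) Q := fun x y z w => ⟨(hQ.four x y z w).1, (hQ.four x y z w).2.2⟩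
    refine ⟨BG h4, BG_normal h4, BG_ne_bot hn hQ.exp h4 hs, LF_of_top ?_⟩
    have hun := fourUn_BG hQ h4
    apply LF_of_unmoved hun
    apply LF_of_top
    have hB := hQ.sub (BG h4)
    have hX := hB.sub (XG hun.four)
    refine ih _ ⟨hX.exp, hX.psec, ?_⟩
    intro x y z w
    obtain ⟨h1, h2, h3⟩ := hX.four x y z w
    refine ⟨h1, h2, ?_⟩
    set K := closure {x, y, z, w} with hK
    let e : K ≃* K.map (XG hun.four).subtype :=
      K.equivMapOfInjective _ (XG hun.four).subtype_injective
    have hfin : Finite (K.map (XG hun.four).subtype) := Finite.of_equiv _ e.toEquiv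
    have hSC : SC (s + 1) (K.map (XG hun.four).subtype) := h3.equiv e
    exact (SC_of_le_XG hSC (Subgroup.map_subtype_le K)).equiv e.symm

theorem gen_step {n c s : ℕ} (hn : 0 < n)
    (ih : ∀ (G : Type) [Group G], Pk n c s G → LF (⊤ : Subgroup G)) (G : Type) [Group G]
    (h : Pk n c (s + 1) G) : LF (⊤ : Subgroup G) := by
  apply LF_of_quotients
  intro N hN hNtop
  have hnt : Nontrivial (G ⧸ N) := by
    by_contra h
    rw [not_nontrivial_iff_subsingleton] at h
    exact hNtop (QuotientGroup.subgroup_eq_top_of_subsingleton N h)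
  exact exists_LF_normal hn ih (G ⧸ N)
    (h.quotient (QuotientGroup.mk' N) (QuotientGroup.mk'_surjective N))

/-- **main induction** -/
theorem gen_main {n c : ℕ} (hn : 0 < n) (t : ℕ) :
    ∀ (G : Type) [Group G], Pk n c t G → LF (⊤ : Subgroup G) := by
  induction t with
  | zero => exact gen_base hn
  | succ s ih => exact gen_step hn ih

theorem SC_of_two_gen {c : ℕ} {K : Type} [Group K] [Finite K] (hc : Nat.card K ≤ c)
    (h : SimpleSectionsTwoGenerated K) : SC c K := by
  intro T _ H f hf hT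
  refine ⟨?_, ?_⟩
  · calc Nat.card T ≤ Nat.card H := Nat.card_le_card_of_surjective f hf
      _ ≤ Nat.card K := Nat.card_le_card_of_injective _ H.subtype_injective
      _ ≤ c := hc
  · let e : H ⧸ f.ker ≃* T := QuotientGroup.quotientKerEquivOfSurjective f hf
    obtain ⟨h1, h2⟩ := hT.equiv e.symm
    obtain ⟨a, b, hab⟩ := h H f.ker h1 h2
    refine ⟨e a, e b, ?_⟩
    have h3 : (closure {a, b}).map e.toMonoidHom = closure {e a, e b} := by
      rw [MonoidHom.map_closure, Set.image_pair]
      rfl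
    rw [← h3, hab, ← MonoidHom.range_eq_map, MonoidHom.range_eq_top]
    exact e.surjective

/-- **group form** -/
theorem gen_group {n c : ℕ} (hn : 0 < n) (G : Type) [Group G]
    (hexp : ∀ g : G, g ^ n = 1) (hps : PSec n G)
    (h4 : ∀ x y z w : G, Finite (closure {x, y, z, w}) ∧ Nat.card (closure {x, y, z, w}) ≤ c ∧
      SimpleSectionsTwoGenerated (closure {x, y, z, w})) : LF (⊤ : Subgroup G) := by
  apply gen_main (c := c) hn c G
  refine ⟨hexp, hps, ?_⟩
  intro x y z w
  obtain ⟨h1, h2, h3⟩ := h4 x y z w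
  exact ⟨h1, h2, SC_of_two_gen h2 h3⟩

end Pool.Agent.Lib.MP_544bd1_al
end
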