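import Mathlib
import Pool.Agent.Lib.MP_544bd1_al.EvM2
import Pool.Agent.Lib.MP_544bd1_al.E5.Coind
import Pool.Agent.Lib.MP_544bd1_al.EvD

section

/-!
Two generators, part 2: invariant subspaces and quotients.
-/

namespace Pool.Agent.Lib.MP_544bd1_al

open Finset

variable {K V R : Type} [Field K] [AddCommGroup V] [Module K V] [Group R]

theorem tw_L2_iter (α : R →* R) (k : ℕ) : ∃ α' : R →* R, ∀ x, α' x = α^[k] x := by
  induction k with
  | zero => exact ⟨MonoidHom.id R, fun x => rfl⟩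
  | succ k ih =>
    obtain ⟨α', h⟩ := ih
    refine ⟨α'.comp α, fun x => ?_⟩
    rw [Function.iterate_succ_apply, MonoidHom.comp_apply, h]

/-- restriction to an invariant subspace (for a general operator `U`);
`LinearMap.restrict`, `Submodule.mapQ` -/
theorem tw_sub {α : R →* R} {ρ : R →* Module.End K V} {U : Module.End K V}
    (hU : ∀ x, U * ρ x = ρ (α x) * U) (W : Submodule K V)
    (hW : ∀ x, ∀ w ∈ W, ρ x w ∈ W) (hWU : ∀ w ∈ W, U w ∈ W) :
    ∃ (ρ' : R →* Module.End K W) (U' : Module.End K W),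
      (∀ x w, ((ρ' x w : W) : V) = ρ x w) ∧ (∀ w, ((U' w : W) : V) = U w) ∧
      (∀ x, U' * ρ' x = ρ' (α x) * U') ∧ ∀ k : ℕ, ∀ w : W, (((U' ^ k) w : W) : V) = (U ^ k) w := by
  let ρ' : R →* Module.End K W :=
    { toFun := fun x => (ρ x).restrict (hW x)
      map_one' := by
        refine LinearMap.ext fun w => Subtype.ext ?_
        show (ρ 1) (w : V) = w
        rw [map_one]
        rfl
      map_mul' := fun x y => by
        refine LinearMap.ext fun w => Subtype.ext ?_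
        show (ρ (x * y)) (w : V) = (ρ x) ((ρ y) (w : V))
        rw [map_mul]
        rfl }
  refine ⟨ρ', U.restrict hWU, fun x w => rfl, fun w => rfl, fun x => ?_, fun k => ?_⟩
  · refine LinearMap.ext fun w => Subtype.ext ?_
    show U ((ρ x) (w : V)) = (ρ (α x)) (U (w : V))
    exact LinearMap.congr_fun (hU x) (w : V)
  · induction k with
    | zero => intro w; rfl
    | succ k ih =>
      intro w
      rw [pow_succ, pow_succ]
      show (((U.restrict hWU) ^ k) ((U.restrict hWU) w) : V) = (U ^ k) (U w)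
      rw [ih]
      rfl

/-- the quotient by an invariant subspace -/
theorem tw_quot {α : R →* R} {ρ : R →* Module.End K V} {U : Module.End K V}
    (hU : ∀ x, U * ρ x = ρ (α x) * U) (W : Submodule K V)
    (hW : ∀ x, ∀ w ∈ W, ρ x w ∈ W) (hWU : ∀ w ∈ W, U w ∈ W) :
    ∃ (ρ' : R →* Module.End K (V ⧸ W)) (U' : Module.End K (V ⧸ W)),
      (∀ x v, ρ' x (W.mkQ v) = W.mkQ (ρ x v)) ∧ (∀ v, U' (W.mkQ v) = W.mkQ (U v)) ∧
      (∀ x, U' * ρ' x = ρ' (α x) * U') ∧ ∀ k : ℕ, ∀ v, (U' ^ k) (W.mkQ v) = W.mkQ ((U ^ k) v) := by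
  let ρ' : R →* Module.End K (V ⧸ W) :=
    { toFun := fun x => W.mapQ W (ρ x) (hW x)
      map_one' := by
        refine Submodule.linearMap_qext W (LinearMap.ext fun v => ?_)
        show W.mkQ ((ρ 1) v) = W.mkQ v
        rw [map_one]
        rfl
      map_mul' := fun x y => by
        refine Submodule.linearMap_qext W (LinearMap.ext fun v => ?_)
        show W.mkQ ((ρ (x * y)) v) = W.mkQ ((ρ x) ((ρ y) v))
        rw [map_mul]
        rfl }
  refine ⟨ρ', W.mapQ W U hWU, fun x w => rfl, fun w => rfl, fun x => ?_, fun k => ?_⟩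
  · refine Submodule.linearMap_qext W (LinearMap.ext fun v => ?_)
    show W.mkQ (U ((ρ x) v)) = W.mkQ ((ρ (α x)) (U v))
    congr 1
    exact LinearMap.congr_fun (hU x) v
  · induction k with
    | zero => intro w; rfl
    | succ k ih =>
      intro w
      rw [pow_succ, pow_succ]
      show ((W.mapQ W U hWU) ^ k) ((W.mapQ W U hWU) (W.mkQ w)) = W.mkQ ((U ^ k) (U w))
      rw [← ih]
      rfl

/-- data on a subspace invariant under `ρ` and a power `U ^ k`: `W` with `∑_{i<q'} (U ^ k) ^ i = 0`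
on `W`, `k * q' = q` -/
theorem LDat.sub {q q' k : ℕ} {α : R →* R} {ρ : R →* Module.End K V} {U : Module.End K V}
    (D : LDat q α ρ U) (hk : k * q' = q) (W : Submodule K V) (hW : ∀ x, ∀ w ∈ W, ρ x w ∈ W)
    (hWU : ∀ w ∈ W, (U ^ k) w ∈ W)
    (hN : ∀ w ∈ W, (∑ i ∈ range q', (U ^ k) ^ i) w = 0) :
    ∃ (α' : R →* R) (ρ' : R →* Module.End K W) (U' : Module.End K W), LDat q' α' ρ' U' ∧
      (∀ x w, ((ρ' x w : W) : V) = ρ x w) ∧ ∀ (j : ℕ) (x : R), α'^[j] x = α^[k * j] x := by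
  obtain ⟨α', hc⟩ := tw_L2_iter α k
  have hUk : ∀ x, U ^ k * ρ x = ρ (α' x) * U ^ k := fun x => by
    rw [hc]
    exact D.iter k x
  obtain ⟨ρ', U', h1, h2, h3, h4⟩ := tw_sub hUk W hW hWU
  refine ⟨α', ρ', U', ⟨h3, ?_, ?_⟩, h1, fun j x => ?_⟩
  · refine LinearMap.ext fun w => Subtype.ext ?_
    rw [h4, ← pow_mul, hk, D.hq]
    rfl
  · refine LinearMap.ext fun w => Subtype.ext ?_
    rw [LinearMap.sum_apply, Submodule.coe_sum]
    simp only [h4]
    have h5 := hN w w.2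
    rw [LinearMap.sum_apply] at h5
    exact h5
  · have h5 : (⇑α' : R → R) = α^[k] := funext hc
    rw [h5, ← Function.iterate_mul]

theorem LDat.quot {q : ℕ} {α : R →* R} {ρ : R →* Module.End K V} {U : Module.End K V}
    (D : LDat q α ρ U) (W : Submodule K V) (hW : ∀ x, ∀ w ∈ W, ρ x w ∈ W)
    (hWU : ∀ w ∈ W, U w ∈ W) :
    ∃ (ρ' : R →* Module.End K (V ⧸ W)) (U' : Module.End K (V ⧸ W)), LDat q α ρ' U' ∧
      ∀ x v, ρ' x (W.mkQ v) = W.mkQ (ρ x v) := by
  obtain ⟨ρ', U', h1, h2, h3, h4⟩ := tw_quot D.hU W hW hWU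
  refine ⟨ρ', U', ⟨h3, ?_, ?_⟩, h1⟩
  · refine Submodule.linearMap_qext W (LinearMap.ext fun v => ?_)
    show (U' ^ q) (W.mkQ v) = W.mkQ v
    rw [h4, D.hq]
    rfl
  · refine Submodule.linearMap_qext W (LinearMap.ext fun v => ?_)
    show (∑ i ∈ range q, U' ^ i) (W.mkQ v) = 0
    rw [LinearMap.sum_apply]
    simp only [h4]
    rw [← map_sum]
    have h5 := LinearMap.congr_fun D.hN v
    rw [LinearMap.sum_apply] at h5
    rw [h5]
    simp

end Pool.Agent.Lib.MP_544bd1_al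
end

section

/-!
Exponents `4 * m` with `m` odd: basic facts. An element `x` with `x ^ m = 1` is called odd, an
element with `x ^ 4 = 1` is called a 2-element.
-/

namespace Pool.Agent.Lib.MP_544bd1_al

open Subgroup

universe u v

section arith

variable {G : Type u} [Group G] {m : ℕ}

theorem fr_cop (hm : Odd m) : Nat.Coprime m 4 := by
  have h : Nat.Coprime m (2 ^ 2) := Nat.Coprime.pow_right 2 (Nat.coprime_two_right.2 hm)
  simpa using h

theorem fr_one (hm : Odd m) {x : G} (h1 : x ^ m = 1) (h2 : x ^ 4 = 1) : x = 1 :=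
  eq_one_of_coprime_pow (fr_cop hm) h1 h2

theorem fr_one_two (hm : Odd m) {x : G} (h1 : x ^ m = 1) (h2 : x ^ 2 = 1) : x = 1 := by
  apply fr_one hm h1
  have : x ^ 4 = (x ^ 2) ^ 2 := by rw [← pow_mul]
  rw [this, h2, one_pow]

/-- odd modulo odd is odd -/
theorem fr_odd_odd (hm : Odd m) (hexp : ∀ x : G, x ^ (4 * m) = 1) {x : G}
    (h : (x ^ m) ^ m = 1) : x ^ m = 1 := by
  apply fr_one hm h
  rw [← pow_mul, mul_comm]; exact hexp x

/-- 2-element modulo 2-element is a 2-element -/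
theorem fr_two_two (hm : Odd m) (hexp : ∀ x : G, x ^ (4 * m) = 1) {x : G}
    (h : (x ^ 4) ^ 4 = 1) : x ^ 4 = 1 := by
  apply fr_one hm _ h
  rw [← pow_mul]; exact hexp x

theorem fr_eight (hm : Odd m) (hexp : ∀ x : G, x ^ (4 * m) = 1) {x : G}
    (h : x ^ 8 = 1) : x ^ 4 = 1 := by
  apply fr_two_two hm hexp
  rw [← pow_mul]
  have : x ^ (4 * 4) = (x ^ 8) ^ 2 := by rw [← pow_mul]
  rw [this, h, one_pow]

/-- `x ^ (oN m)` is the odd part of `x` -/
def oN (m : ℕ) : ℕ := 3 * m ^ 2 + 1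

/-- `x ^ (tN m)` is the 2-part of `x` -/
def tN (m : ℕ) : ℕ := m ^ 2

theorem fr_oN_mod (hm : Odd m) : 4 ∣ oN m := by
  obtain ⟨k, rfl⟩ := hm
  refine ⟨3 * k ^ 2 + 3 * k + 1, ?_⟩
  unfold oN; ring

theorem fr_tN_mod (hm : Odd m) : ∃ k, tN m = 4 * k + 1 := by
  obtain ⟨k, rfl⟩ := hm
  refine ⟨k ^ 2 + k, ?_⟩
  unfold tN; ring

theorem fr_oN_pow (hm : Odd m) (hexp : ∀ x : G, x ^ (4 * m) = 1) (x : G) :
    (x ^ (oN m)) ^ m = 1 := by
  obtain ⟨k, hk⟩ := fr_oN_mod hm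
  rw [← pow_mul, hk, show 4 * k * m = 4 * m * k by ring, pow_mul, hexp, one_pow]

theorem fr_oN_odd {x : G} (h : x ^ m = 1) : x ^ (oN m) = x := by
  unfold oN
  rw [pow_succ, show 3 * m ^ 2 = m * (3 * m) by ring, pow_mul, h, one_pow, one_mul]

theorem fr_tN_pow (hexp : ∀ x : G, x ^ (4 * m) = 1) (x : G) :
    (x ^ (tN m)) ^ 4 = 1 := by
  unfold tN
  rw [← pow_mul, show m ^ 2 * 4 = 4 * m * m by ring, pow_mul, hexp, one_pow]

theorem fr_tN_two (hm : Odd m) {x : G} (h : x ^ 4 = 1) : x ^ (tN m) = x := by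
  obtain ⟨k, hk⟩ := fr_tN_mod hm
  rw [hk, pow_succ, pow_mul, h, one_pow, one_mul]

theorem fr_two_of_oN {x : G} (hexp : x ^ (4 * m) = 1) (h : x ^ (oN m) = 1) :
    x ^ 4 = 1 := by
  have h1 : (x ^ 4) ^ (oN m) = 1 := by rw [← pow_mul, mul_comm, pow_mul, h, one_pow]
  have h2 : (x ^ 4) ^ m = 1 := by rw [← pow_mul]; exact hexp
  rw [fr_oN_odd h2] at h1
  exact h1

/-- square roots of odd elements -/
theorem fr_sqrt (hm : Odd m) {x : G} (h : x ^ m = 1) : (x ^ ((m + 1) / 2)) ^ 2 = x := by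
  obtain ⟨k, rfl⟩ := hm
  have h1 : (2 * k + 1 + 1) / 2 = k + 1 := by omega
  rw [h1, ← pow_mul, show (k + 1) * 2 = (2 * k + 1) + 1 by ring, pow_succ, h, one_mul]

theorem fr_inv_of_sq {x : G} (h : x ^ 2 = 1) : x⁻¹ = x := by
  rw [inv_eq_iff_mul_eq_one, ← pow_two, h]

theorem fr_mul_self {x : G} (h : x ^ 2 = 1) : x * x = 1 := by rw [← pow_two, h]

end arith

section InO

variable {G : Type u} [Group G] {m : ℕ}

/-- `s` lies in a subgroup of `T` of exponent `m` normalized by `T`; i.e. `s ∈ O(T)`. -/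
def InO (m : ℕ) {G : Type u} [Group G] (T : Subgroup G) (s : G) : Prop :=
  ∃ N : Subgroup G, N ≤ T ∧ s ∈ N ∧ (∀ t ∈ T, ∀ x ∈ N, t * x * t⁻¹ ∈ N) ∧ ∀ x ∈ N, x ^ m = 1

theorem InO.mono {T T' : Subgroup G} {s : G} (h : InO m T s) (hT : T' ≤ T) (hs : s ∈ T') :
    InO m T' s := by
  obtain ⟨N, h1, h2, h3, h4⟩ := h
  refine ⟨N ⊓ T', inf_le_right, ⟨h2, hs⟩, ?_, ?_⟩
  · rintro t ht x ⟨hx, hx'⟩
    exact ⟨h3 t (hT ht) x hx, T'.mul_mem (T'.mul_mem ht hx') (T'.inv_mem ht)⟩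
  · rintro x ⟨hx, _⟩
    exact h4 x hx

theorem InO.mem {T : Subgroup G} {s : G} (h : InO m T s) : s ∈ T := by
  obtain ⟨N, h1, h2, _⟩ := h
  exact h1 h2

theorem InO.odd {T : Subgroup G} {s : G} (h : InO m T s) : s ^ m = 1 := by
  obtain ⟨N, _, h2, _, h4⟩ := h
  exact h4 s h2

theorem InO.pow {T : Subgroup G} {s : G} (h : InO m T s) (k : ℕ) : InO m T (s ^ k) := by
  obtain ⟨N, h1, h2, h3, h4⟩ := h
  exact ⟨N, h1, N.pow_mem h2 k, h3, h4⟩

theorem InO.of_sq (hm : Odd m) {T : Subgroup G} {s : G} (h : InO m T (s ^ 2)) (hs : s ^ m = 1) :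
    InO m T s := by
  have h1 := h.pow ((m + 1) / 2)
  rwa [← pow_mul, mul_comm, pow_mul, fr_sqrt hm hs] at h1

/-- commutators with elements of `T` are odd -/
theorem InO.comm_odd {T : Subgroup G} {s y : G} (h : InO m T s) (hy : y ∈ T) :
    (s⁻¹ * (y⁻¹ * s * y)) ^ m = 1 := by
  obtain ⟨N, h1, h2, h3, h4⟩ := h
  apply h4
  apply N.mul_mem (N.inv_mem h2)
  have := h3 y⁻¹ (T.inv_mem hy) s h2
  rwa [inv_inv] at this

/-- a product of an element of `O(T)` and an odd element is odd -/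
theorem InO.mul_odd (hm : Odd m) (hexp : ∀ x : G, x ^ (4 * m) = 1) {T : Subgroup G} {s y : G}
    (h : InO m T s) (hy : y ∈ T) (hy' : y ^ m = 1) : (s * y) ^ m = 1 := by
  obtain ⟨N, h1, h2, h3, h4⟩ := h
  apply fr_odd_odd hm hexp
  apply h4
  have key : ∀ k : ℕ, (s * y) ^ k * (y ^ k)⁻¹ ∈ N := by
    intro k
    induction k with
    | zero => simp [N.one_mem]
    | succ k ih =>
      have h5 := h3 y hy _ ih
      have h6 := N.mul_mem h2 h5
      have h7 : s * (y * ((s * y) ^ k * (y ^ k)⁻¹) * y⁻¹) = (s * y) ^ (k + 1) * (y ^ (k + 1))⁻¹ := by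
        rw [pow_succ' (s * y), pow_succ' y k, mul_inv_rev]
        group
      rw [← h7]; exact h6
  have := key m
  rwa [hy', inv_one, mul_one] at this

/-- if `s ∈ O(⟨s, y⟩)` and `y` is odd, then `⟨s, y⟩` is odd -/
theorem InO.closure_odd (hm : Odd m) (hexp : ∀ x : G, x ^ (4 * m) = 1) {s y : G}
    (h : InO m (closure {s, y}) s) (hy : y ^ m = 1) : ∀ x ∈ closure {s, y}, x ^ m = 1 := by
  obtain ⟨N, h1, h2, h3, h4⟩ := h
  have hyT : y ∈ closure {s, y} := subset_closure (by simp)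
  have key : ∀ x ∈ closure {s, y}, ∃ k : ℤ, x * (y ^ k)⁻¹ ∈ N := by
    intro x hx
    induction hx using closure_induction with
    | mem x hx =>
      rcases hx with rfl | rfl
      · exact ⟨0, by simpa using h2⟩
      · exact ⟨1, by simp [N.one_mem]⟩
    | one => exact ⟨0, by simp [N.one_mem]⟩
    | mul a b _ _ iha ihb =>
      obtain ⟨k, hk⟩ := iha
      obtain ⟨l, hl⟩ := ihb
      refine ⟨k + l, ?_⟩
      have h5 := N.mul_mem hk (h3 (y ^ k) ((closure {s, y}).zpow_mem hyT k) _ hl)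
      have h6 : a * (y ^ k)⁻¹ * (y ^ k * (b * (y ^ l)⁻¹) * (y ^ k)⁻¹) = a * b * (y ^ (k + l))⁻¹ := by
        rw [zpow_add]; group
      rwa [h6] at h5
    | inv a _ ih =>
      obtain ⟨k, hk⟩ := ih
      refine ⟨-k, ?_⟩
      have h5 := h3 (y ^ (-k)) ((closure {s, y}).zpow_mem hyT (-k)) _ (N.inv_mem hk)
      have h6 : y ^ (-k) * (a * (y ^ k)⁻¹)⁻¹ * (y ^ (-k))⁻¹ = a⁻¹ * (y ^ (-k))⁻¹ := by
        rw [zpow_neg]; group
      rwa [h6] at h5
  intro x hx
  obtain ⟨k, hk⟩ := key x hx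
  have h5 : InO m (closure {s, y}) (x * (y ^ k)⁻¹) := ⟨N, h1, hk, h3, h4⟩
  have h6 := h5.mul_odd hm hexp ((closure {s, y}).zpow_mem hyT k)
    (by rw [← zpow_natCast, ← zpow_mul, mul_comm, zpow_mul, zpow_natCast, hy, one_zpow])
  simpa using h6

/-- passing to the subgroup as a type -/
theorem InO.top_iff {T : Subgroup G} (s : T) : InO m (⊤ : Subgroup T) s ↔ InO m T (s : G) := by
  constructor
  · rintro ⟨N, h1, h2, h3, h4⟩
    refine ⟨N.map T.subtype, ?_, ⟨s, h2, rfl⟩, ?_, ?_⟩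
    · rintro _ ⟨x, _, rfl⟩
      exact x.2
    · rintro t ht _ ⟨x, hx, rfl⟩
      exact ⟨⟨t, ht⟩ * x * ⟨t, ht⟩⁻¹, h3 ⟨t, ht⟩ trivial x hx, rfl⟩
    · rintro _ ⟨x, hx, rfl⟩
      have := congrArg Subtype.val (h4 x hx)
      simpa using this
  · rintro ⟨N, h1, h2, h3, h4⟩
    refine ⟨N.subgroupOf T, le_top, h2, ?_, ?_⟩
    · intro t _ x hx
      exact h3 t t.2 x hx
    · intro x hx
      apply Subtype.ext
      have := h4 (x : G) hx
      simpa using this

end InO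

end Pool.Agent.Lib.MP_544bd1_al
end

section

/-!
Two generators, part 2: weights of the center (step L3).
-/

namespace Pool.Agent.Lib.MP_544bd1_al

open Finset

variable {K V R : Type} [Field K] [AddCommGroup V] [Module K V] [Group R]

/-- a sum over a range of length `j * s` in blocks of length `j` -/
private theorem tw_L3_blocks (U : Module.End K V) (j s : ℕ) :
    ∑ i ∈ range (j * s), U ^ i = (∑ i ∈ range j, U ^ i) * ∑ l ∈ range s, (U ^ j) ^ l := by
  induction s with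
  | zero => simp
  | succ s ih =>
    rw [Nat.mul_succ, Finset.sum_range_add, ih, Finset.sum_range_succ, mul_add]
    congr 1
    rw [Finset.sum_mul]
    refine Finset.sum_congr rfl fun i _ => ?_
    rw [← pow_mul, ← pow_add, add_comm]

/-- iterates of `α ^ q` -/
private theorem tw_L3_iter_mul {q : ℕ} {α : R →* R} {ρ : R →* Module.End K V} {U : Module.End K V}
    (D : LDat q α ρ U) (i : ℕ) (x : R) : ρ (α^[q * i] x) = ρ x := by
  induction i with
  | zero => rfl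
  | succ i ih => rw [Nat.mul_succ, add_comm, Function.iterate_add_apply, D.iter_q, ih]

/-- the elements of `R` which are central on `V` are permuted by `α` -/
private theorem tw_L3_cent {q : ℕ} (hq : 0 < q) {α : R →* R} {ρ : R →* Module.End K V}
    {U : Module.End K V} (D : LDat q α ρ U) (k : ℕ) (x : R)
    (hx : ∀ y, ρ x * ρ y = ρ y * ρ x) (y : R) :
    ρ (α^[k] x) * ρ y = ρ y * ρ (α^[k] x) := by
  have h1 : ∀ y, ρ (α^[k] x) * ρ (α^[k] y) = ρ (α^[k] y) * ρ (α^[k] x) := by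
    intro y
    have hU : IsUnit (U ^ k) := by
      refine IsUnit.pow k ?_
      exact IsUnit.of_pow_eq_one D.hq hq.ne'
    refine hU.mul_right_cancel ?_
    rw [mul_assoc, ← D.iter, ← mul_assoc, ← D.iter, mul_assoc, hx, ← mul_assoc, D.iter,
      mul_assoc, D.iter, ← mul_assoc]
  have h2 : ρ y = ρ (α^[k] (α^[(q - 1) * k] y)) := by
    rw [← Function.iterate_add_apply, show k + (q - 1) * k = q * k by
      obtain ⟨q, rfl⟩ := Nat.exists_eq_succ_of_ne_zero hq.ne'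
      simp only [Nat.succ_eq_add_one, Nat.add_sub_cancel]
      ring, tw_L3_iter_mul D]
  rw [h2]
  exact h1 _

/-- step (L3): elements of `R` which are central on `V` act as scalars.
`hind` is the induction hypothesis for subspaces invariant under `ρ` and a power of `U`.

Proof. Let `q = p ^ a`, `Z = {x : R | ∀ y, ρ x * ρ y = ρ y * ρ x}`. `U` is invertible
(`U ^ q = 1`), `U ^ k * ρ x = ρ (α^[k] x) * U ^ k` (`LDat.iter`), `ρ (α^[q] x) = ρ x`
(`LDat.iter_q`); so `x ∈ Z → α x ∈ Z` (`ρ y = ρ (α (α^[q - 1] y))`, conjugate by `U`).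
By `tw_common_eigen` for `ι = Z`, `A x = ρ x`: there are `χ : Z → K` and `v₀ ≠ 0` with
`ρ x v₀ = χ x • v₀`. Let `W = {v | ∀ x ∈ Z, ρ x v = χ x • v}`, invariant under `ρ`, nonzero. For
`i : ℕ` let `χ_i x = χ (α^[(q - 1) * i] x)`; `U ^ i` maps `W` into `W_i = {v | ∀ x ∈ Z, ρ x v =
χ_i x • v}` (`ρ x * U ^ i = U ^ i * ρ (α^[(q-1) * i] x)` since
`ρ (α^[i] (α^[(q-1) * i] x)) = ρ (α^[q * i] x) = ρ x`). `χ_q = χ` (as functions on `Z`; evaluate on
`v₀`). Let `j > 0` be minimal with `χ_j = χ_0`. Then `j ∣ q` (`χ_{i + l}` depends only on `χ_i` and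
`l`: shift), so `j = p ^ b` with `b ≤ a`, and `χ_i ≠ χ_0` for `0 < i < j`.
If `j = 1`: `U W ≤ W`, so `W = ⊤` by `hirr`, i.e. `ρ x = χ x • 1` for `x ∈ Z`: done.
Suppose `j > 1`. `W ≠ ⊤` (otherwise `U v₀` has weights `χ_0` and `χ_1`, is nonzero, so
`χ_1 = χ_0`). Let `w ∈ W` and `w' = (∑ l ∈ range (q / j), (U ^ j) ^ l) w ∈ W` (`U ^ j W ≤ W`).
`∑ i ∈ range j, U ^ i w' = (∑ i ∈ range q, U ^ i) w = 0`; the vectors `U ^ i w'` have weights `χ_i`,
so `w' = 0` by `tw_weights`. If `j = q` then `w' = w`, so `W = ⊥`, contradiction. So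
`0 < b < a` and `hind W b` applies: `ρ (α^[p ^ (a-1)] x) w = ρ x w` for `w ∈ W`, `x ∈ R`. Let
`W₀ = {v | ∀ x, ρ (α^[p ^ (a-1)] x) v = ρ x v}`. It is invariant under `ρ` (for `v ∈ W₀`, with
`ζ = α^[p ^ (a-1)]` a homomorphism: `ρ (ζ x) (ρ y v) = ρ (ζ x) (ρ (ζ y) v) = ρ (ζ (x * y)) v =
ρ (x * y) v = ρ x (ρ y v)`) and under `U` (`ρ (ζ x) * U = U * ρ (α^[q-1] (ζ x)) =
U * ρ (ζ (α^[q-1] x))`), and nonzero (contains `W`), so it is `⊤`, contradiction to `hno`. -/
theorem tw_L3 [IsAlgClosed K] [FiniteDimensional K V] [Nontrivial V] {p a : ℕ} [Fact p.Prime]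
    (ha : 0 < a) {α : R →* R} {ρ : R →* Module.End K V} {U : Module.End K V}
    (D : LDat (p ^ a) α ρ U)
    (hirr : ∀ W : Submodule K V, (∀ x, ∀ w ∈ W, ρ x w ∈ W) → (∀ w ∈ W, U w ∈ W) →
      W = ⊥ ∨ W = ⊤)
    (hind : ∀ (W : Submodule K V) (b : ℕ), W ≠ ⊤ → (∀ x, ∀ w ∈ W, ρ x w ∈ W) → 0 < b → b < a →
      (∀ w ∈ W, (U ^ (p ^ b)) w ∈ W) →
      (∀ w ∈ W, (∑ i ∈ range (p ^ (a - b)), (U ^ (p ^ b)) ^ i) w = 0) →
      ∀ x, ∀ w ∈ W, ρ (α^[p ^ (a - 1)] x) w = ρ x w)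
    (hno : ∃ x, ρ (α^[p ^ (a - 1)] x) ≠ ρ x) (x : R) (hx : ∀ y, ρ x * ρ y = ρ y * ρ x) :
    ∃ c : K, ρ x = c • 1 := by
  classical
  have hp : p.Prime := Fact.out
  set q : ℕ := p ^ a with hqdef
  have hq : 0 < q := pow_pos hp.pos a
  have hadd : ∀ i, (q - 1) * i + i = q * i := by
    intro i
    obtain ⟨t, ht⟩ := Nat.exists_eq_succ_of_ne_zero hq.ne'
    rw [ht]
    simp only [Nat.succ_eq_add_one, Nat.add_sub_cancel]
    ring
  have hUinj : ∀ (k : ℕ) (v : V), (U ^ k) v = 0 → v = 0 := by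
    intro k v hv
    have h1 : U ^ ((q - 1) * k) * U ^ k = 1 := by
      rw [← pow_add, hadd, pow_mul, D.hq, one_pow]
    have h2 : (U ^ ((q - 1) * k) * U ^ k) v = v := by rw [h1]; rfl
    rw [Module.End.mul_apply, hv, map_zero] at h2
    exact h2.symm
  let Z : R → Prop := fun x => ∀ y, ρ x * ρ y = ρ y * ρ x
  have hZ : ∀ (k : ℕ) (x : R), Z x → Z (α^[k] x) := fun k x hx y => tw_L3_cent hq D k x hx y
  obtain ⟨χ₀, v₀, hv₀, hχ₀⟩ := tw_common_eigen (ι := {x : R // Z x}) (fun x => ρ x.1)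
    (fun x y => x.2 y.1)
  let χ : R → K := fun x => if h : Z x then χ₀ ⟨x, h⟩ else 0
  have hχ : ∀ x, Z x → ρ x v₀ = χ x • v₀ := by
    intro x hx
    have e : χ x = χ₀ ⟨x, hx⟩ := dif_pos hx
    rw [e]
    exact hχ₀ ⟨x, hx⟩
  have hχeq : ∀ x y, Z x → Z y → ρ x = ρ y → χ x = χ y := by
    intro x y hx hy hxy
    have h1 : χ x • v₀ = χ y • v₀ := by rw [← hχ x hx, ← hχ y hy, hxy]
    exact smul_left_injective K hv₀ h1
  let W : Submodule K V :=
    { carrier := {v | ∀ x, Z x → ρ x v = χ x • v}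
      add_mem' := by
        intro u v hu hv x hx
        rw [map_add, hu x hx, hv x hx, smul_add]
      zero_mem' := by
        intro x _
        rw [map_zero, smul_zero]
      smul_mem' := by
        intro c v hv x hx
        rw [map_smul, hv x hx, smul_comm] }
  have hWmem : ∀ v, v ∈ W ↔ ∀ x, Z x → ρ x v = χ x • v := fun v => Iff.rfl
  have hv₀W : v₀ ∈ W := hχ
  have hWρ : ∀ x, ∀ w ∈ W, ρ x w ∈ W := by
    intro y w hw x hx
    rw [← Module.End.mul_apply, hx y, Module.End.mul_apply, hw x hx, map_smul]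
  -- weights of `U ^ i w`
  have hwt : ∀ (i : ℕ) (w : V), w ∈ W → ∀ x, Z x →
      ρ x ((U ^ i) w) = χ (α^[(q - 1) * i] x) • (U ^ i) w := by
    intro i w hw x hx
    have h1 : U ^ i * ρ (α^[(q - 1) * i] x) = ρ x * U ^ i := by
      rw [D.iter, ← Function.iterate_add_apply, add_comm, hadd, tw_L3_iter_mul D]
    have h2 := congrArg (fun T : Module.End K V => T w) h1
    simp only [Module.End.mul_apply] at h2
    rw [← h2, hw _ (hZ _ x hx), map_smul]
  -- the property of the shifts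
  let P : ℕ → Prop := fun i => ∀ x, Z x → χ (α^[(q - 1) * i] x) = χ x
  have hPq : P q := by
    intro x hx
    refine hχeq _ _ (hZ _ x hx) hx ?_
    rw [mul_comm (q - 1) q, tw_L3_iter_mul D]
  have hPadd : ∀ i l, P i → P l → P (i + l) := by
    intro i l hi hl x hx
    rw [mul_add, Function.iterate_add_apply, hi _ (hZ _ x hx), hl x hx]
  have hPsub : ∀ i l, P (i + l) → P l → P i := by
    intro i l hil hl x hx
    have h1 := hil (α^[l] x) (hZ l x hx)
    have h2 := hl (α^[l] x) (hZ l x hx)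
    rw [← Function.iterate_add_apply] at h1 h2
    rw [hadd] at h2
    have h3 : χ (α^[q * l] x) = χ x := hχeq _ _ (hZ _ x hx) hx (tw_L3_iter_mul D l x)
    have e1 : (q - 1) * (i + l) + l = q * l + (q - 1) * i := by
      rw [mul_add, add_assoc, hadd, add_comm]
    have h4 : χ (α^[(q - 1) * (i + l) + l] x) = χ (α^[(q - 1) * i] x) := by
      rw [e1, Function.iterate_add_apply]
      exact hχeq _ _ (hZ _ _ (hZ _ x hx)) (hZ _ x hx) (tw_L3_iter_mul D l _)
    rw [← h4, h1, ← h2, h3]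
  have hPmul : ∀ j s, P j → P (j * s) := by
    intro j s hj
    induction s with
    | zero => intro x _; rfl
    | succ s ih => rw [Nat.mul_succ]; exact hPadd _ _ ih hj
  have hex : ∃ j, 0 < j ∧ P j := ⟨q, hq, hPq⟩
  obtain ⟨hj0, hPj⟩ := Nat.find_spec hex
  have hjmin : ∀ i, 0 < i → i < Nat.find hex → ¬ P i := fun i h1 h2 h3 =>
    Nat.find_min hex h2 ⟨h1, h3⟩
  set j : ℕ := Nat.find hex with hj
  have hjq : j ∣ q := by
    by_contra hnd
    have h1 : 0 < q % j := Nat.pos_of_ne_zero fun h => hnd (Nat.dvd_of_mod_eq_zero h)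
    refine hjmin (q % j) h1 (Nat.mod_lt _ hj0) (hPsub _ (j * (q / j)) ?_ (hPmul _ _ hPj))
    rw [Nat.mod_add_div]
    exact hPq
  obtain ⟨b, hba, hjb⟩ := (Nat.dvd_prime_pow hp).1 hjq
  have hWUj : ∀ w ∈ W, (U ^ j) w ∈ W := by
    intro w hw x hx
    rw [hwt j w hw x hx, hPj x hx]
  rcases Nat.eq_zero_or_pos b with hb | hb
  · -- the case `j = 1`
    have hj1 : j = 1 := by rw [hjb, hb, pow_zero]
    have hWU : ∀ w ∈ W, U w ∈ W := by
      intro w hw
      have := hWUj w hw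
      rwa [hj1, pow_one] at this
    rcases hirr W hWρ hWU with h | h
    · rw [h, Submodule.mem_bot] at hv₀W
      exact absurd hv₀W hv₀
    · refine ⟨χ x, LinearMap.ext fun v => ?_⟩
      have hv : v ∈ W := by rw [h]; exact Submodule.mem_top
      exact hv x hx
  exfalso
  have hj1 : 1 < j := by
    rw [hjb]
    exact Nat.one_lt_pow hb.ne' hp.one_lt
  have hWtop : W ≠ ⊤ := by
    intro h
    refine hjmin 1 one_pos hj1 fun x hx => ?_
    have h1 := hwt 1 v₀ hv₀W x hx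
    have h2 : (U ^ 1) v₀ ∈ W := by rw [h]; exact Submodule.mem_top
    rw [h2 x hx] at h1
    have h3 : (U ^ 1) v₀ ≠ 0 := fun h => hv₀ (hUinj 1 v₀ h)
    exact (smul_left_injective K h3 h1).symm
  -- the partial norm vanishes on `W`
  have hWUl : ∀ (l : ℕ), ∀ w ∈ W, ((U ^ j) ^ l) w ∈ W := by
    intro l
    induction l with
    | zero => intro w hw; exact hw
    | succ l ih =>
      intro w hw
      rw [pow_succ, Module.End.mul_apply]
      exact ih _ (hWUj w hw)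
  have hnorm : ∀ w ∈ W, (∑ l ∈ range (q / j), (U ^ j) ^ l) w = 0 := by
    intro w hw
    set w' : V := (∑ l ∈ range (q / j), (U ^ j) ^ l) w with hw'
    have hw'W : w' ∈ W := by
      rw [hw', LinearMap.sum_apply]
      exact Submodule.sum_mem _ fun l _ => hWUl l w hw
    have h1 : ∑ i ∈ range (j - 1 + 1), (U ^ i) w' = 0 := by
      rw [Nat.sub_add_cancel hj0, ← LinearMap.sum_apply, hw', ← Module.End.mul_apply,
        ← tw_L3_blocks, Nat.mul_div_cancel' hjq, D.hN]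
      rfl
    have h2 := tw_weights (ι := {x : R // Z x}) (fun x => ρ x.1) (j - 1)
      (fun i x => χ (α^[(q - 1) * i] x.1)) (fun i => (U ^ i) w')
      (fun i _ x => hwt i w' hw'W x.1 x.2)
      (fun i hi1 hi2 h => hjmin i hi1 (by omega) fun x hx => congrFun h ⟨x, hx⟩) h1
    exact h2
  have hbne : b ≠ a := by
    intro h
    have hjq' : j = q := by rw [hjb, h]
    have h1 := hnorm v₀ hv₀W
    rw [hjq', Nat.div_self hq, Finset.sum_range_one, pow_zero] at h1
    exact hv₀ h1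
  have hba' : b < a := lt_of_le_of_ne hba hbne
  have hqj : q / j = p ^ (a - b) := by
    rw [hjb, hqdef, Nat.pow_div hba hp.pos]
  rw [hqj, hjb] at hnorm
  rw [hjb] at hWUj
  have hind' := hind W b hWtop hWρ hb hba' hWUj hnorm
  -- the fixed space
  let W₀ : Submodule K V :=
    { carrier := {v | ∀ x, ρ (α^[p ^ (a - 1)] x) v = ρ x v}
      add_mem' := by
        intro u v hu hv x
        rw [map_add, map_add, hu x, hv x]
      zero_mem' := by
        intro x
        rw [map_zero, map_zero]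
      smul_mem' := by
        intro c v hv x
        rw [map_smul, map_smul, hv x] }
  have hW₀ρ : ∀ x, ∀ w ∈ W₀, ρ x w ∈ W₀ := by
    intro y w hw x
    rw [← hw y, ← Module.End.mul_apply, ← map_mul, ← iterate_map_mul, hw (x * y), hw y, map_mul,
      Module.End.mul_apply]
  have hW₀U : ∀ w ∈ W₀, U w ∈ W₀ := by
    intro w hw x
    have key : ∀ z, ρ z (U w) = U (ρ (α^[q - 1] z) w) := by
      intro z
      have h1 : U * ρ (α^[q - 1] z) = ρ z * U := by
        rw [D.hU, ← Function.iterate_succ_apply' (⇑α) (q - 1) z, Nat.succ_eq_add_one,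
          Nat.sub_add_cancel hq, D.iter_q]
      have h2 := congrArg (fun T : Module.End K V => T w) h1
      simp only [Module.End.mul_apply] at h2
      exact h2.symm
    rw [key, key, ← Function.iterate_add_apply, add_comm, Function.iterate_add_apply, hw]
  obtain ⟨z, hz⟩ := hno
  rcases hirr W₀ hW₀ρ hW₀U with h | h
  · have h1 : v₀ ∈ W₀ := fun x => hind' x v₀ hv₀W
    rw [h, Submodule.mem_bot] at h1
    exact hv₀ h1
  · refine hz (LinearMap.ext fun v => ?_)
    have h1 : v ∈ W₀ := by rw [h]; exact Submodule.mem_top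
    exact h1 z

end Pool.Agent.Lib.MP_544bd1_al
end
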