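import Mathlib
import Pool.Agent.Lib.MP_544bd1_al.TwL3
import Pool.Agent.Lib.MP_544bd1_al.GenMain

section

/-!
Even exponents, squares of Mersenne primes: Theorem L for a commutative image, without numerical
condition.
-/

namespace Pool.Agent.Lib.MP_544bd1_al

open Finset Subgroup

/-- **Abelian lemma** over an algebraically closed field (compare `tw_L`). -/
theorem ev_ab {K : Type} [Field K] [IsAlgClosed K] {p r : ℕ} [Fact p.Prime] [CharP K p]
    (hr : r.Prime) (hrp : r ≠ p) (d : ℕ) :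
    ∀ (V R : Type) [AddCommGroup V] [Module K V] [FiniteDimensional K V] [Group R] [Finite R]
      (a : ℕ) (α : R →* R) (ρ : R →* Module.End K V) (U : Module.End K V),
      Module.finrank K V = d → IsPGroup r R → 0 < a → (∀ x y, ρ x * ρ y = ρ y * ρ x) →
      LDat (p ^ a) α ρ U → ∀ x, ρ (α^[p ^ (a - 1)] x) = ρ x := by
  induction d using Nat.strong_induction_on with
  | _ d ih =>
  intro V R _ _ _ _ _ a α ρ U hd hR ha hab D
  by_contra hcon
  have hp : p.Prime := Fact.out
  have hno : ∃ x, ρ (α^[p ^ (a - 1)] x) ≠ ρ x := by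
    by_contra h
    apply hcon
    intro x
    by_contra h'
    exact h ⟨x, h'⟩
  have hV : Nontrivial V := by
    by_contra h
    rw [not_nontrivial_iff_subsingleton] at h
    obtain ⟨x, hx⟩ := hno
    apply hx
    apply LinearMap.ext
    intro v
    exact Subsingleton.elim _ _
  -- irreducibility
  have hirr : ∀ W : Submodule K V, (∀ x, ∀ w ∈ W, ρ x w ∈ W) → (∀ w ∈ W, U w ∈ W) →
      W = ⊥ ∨ W = ⊤ := by
    intro W hW hWU
    by_contra h
    rw [not_or] at h
    obtain ⟨h0, h1⟩ := h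
    have hlt : Module.finrank K W < Module.finrank K V := Submodule.finrank_lt h1
    have hpos : 0 < Module.finrank K W := by
      rw [Nat.pos_iff_ne_zero]
      intro h
      exact h0 (Submodule.finrank_eq_zero.1 h)
    have hlt2 : Module.finrank K (V ⧸ W) < Module.finrank K V := by
      have := Submodule.finrank_quotient_add_finrank W
      omega
    obtain ⟨α', ρ', U', D', hρ', hα'⟩ := D.sub (k := 1) (q' := p ^ a) (one_mul _) W hW
      (by intro w hw; rw [pow_one]; exact hWU w hw)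
      (by intro w hw; rw [pow_one, D.hN]; rfl)
    have hab' : ∀ x y, ρ' x * ρ' y = ρ' y * ρ' x := by
      intro x y
      ext w
      have h3 := congrArg (fun f : Module.End K V => f (w : V)) (hab x y)
      simp only [Module.End.mul_apply, hρ'] at h3 ⊢
      exact h3
    have e1 := ih (Module.finrank K W) (by omega) W R a α' ρ' U' rfl hR ha hab' D'
    obtain ⟨ρ'', U'', D'', hρ''⟩ := D.quot W hW hWU
    have hab'' : ∀ x y, ρ'' x * ρ'' y = ρ'' y * ρ'' x := by
      intro x y
      apply LinearMap.ext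
      intro w
      obtain ⟨v, rfl⟩ := W.mkQ_surjective w
      have h3 := congrArg (fun f : Module.End K V => f v) (hab x y)
      simp only [Module.End.mul_apply, hρ''] at h3 ⊢
      rw [h3]
    have e2 := ih (Module.finrank K (V ⧸ W)) (by omega) (V ⧸ W) R a α ρ'' U'' rfl hR
      ha hab'' D''
    obtain ⟨x, hx⟩ := hno
    apply hx
    have hw1 : ∀ w ∈ W, ρ (α^[p ^ (a - 1)] x) w = ρ x w := by
      intro w hw
      have h3 := congrArg (fun f : Module.End K W => ((f ⟨w, hw⟩ : W) : V)) (e1 x)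
      simp only [hρ', hα', one_mul] at h3
      exact h3
    have hw2 : ∀ v, ρ (α^[p ^ (a - 1)] x) v - ρ x v ∈ W := by
      intro v
      have h3 := congrArg (fun f : Module.End K (V ⧸ W) => f (W.mkQ v)) (e2 x)
      simp only [hρ''] at h3
      rw [← sub_eq_zero, ← map_sub, ← LinearMap.mem_ker, Submodule.ker_mkQ] at h3
      exact h3
    have hy : ρ (x⁻¹ * α^[p ^ (a - 1)] x) = 1 := by
      apply tw_unip hr hrp hR ρ W
      · intro w hw
        rw [map_mul, Module.End.mul_apply, hw1 w hw, ← Module.End.mul_apply, ← map_mul,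
          inv_mul_cancel, map_one, Module.End.one_apply]
      · intro v
        have h4 : ρ (x⁻¹ * α^[p ^ (a - 1)] x) v - v =
            ρ x⁻¹ (ρ (α^[p ^ (a - 1)] x) v - ρ x v) := by
          rw [map_sub, ← Module.End.mul_apply, ← Module.End.mul_apply, ← map_mul, ← map_mul,
            inv_mul_cancel, map_one, Module.End.one_apply]
        rw [h4]
        exact hW _ _ (hw2 v)
    calc ρ (α^[p ^ (a - 1)] x) = ρ x * ρ (x⁻¹ * α^[p ^ (a - 1)] x) := by
          rw [← map_mul, mul_inv_cancel_left]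
      _ = ρ x := by rw [hy, mul_one]
  -- all elements are scalars
  have hscal : ∀ x, ∃ c : K, ρ x = c • 1 := by
    intro x
    apply tw_L3 ha D hirr _ hno x (hab x)
    intro W b hWt hW hb hba hWU hN y w hw
    have hpow : p ^ b * p ^ (a - b) = p ^ a := by
      rw [← pow_add]
      congr 1
      omega
    obtain ⟨α', ρ', U', D', hρ', hα'⟩ := D.sub hpow W hW hWU hN
    have hab' : ∀ x y, ρ' x * ρ' y = ρ' y * ρ' x := by
      intro x y
      ext w
      have h3 := congrArg (fun f : Module.End K V => f (w : V)) (hab x y)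
      simp only [Module.End.mul_apply, hρ'] at h3 ⊢
      exact h3
    have hlt : Module.finrank K W < Module.finrank K V := Submodule.finrank_lt hWt
    have e1 := ih (Module.finrank K W) (by omega) W R (a - b) α' ρ' U' rfl hR
      (by omega) hab' D' y
    have h3 := congrArg (fun f : Module.End K W => ((f ⟨w, hw⟩ : W) : V)) e1
    simp only [hρ', hα'] at h3
    have hexp : p ^ b * p ^ (a - b - 1) = p ^ (a - 1) := by
      rw [← pow_add]
      congr 1
      omega
    rw [hexp] at h3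
    exact h3
  -- scalars commute with `U`
  obtain ⟨x, hx⟩ := hno
  apply hx
  have h1 := D.iter (p ^ (a - 1)) x
  obtain ⟨c, hc⟩ := hscal x
  have hU : IsUnit (U ^ (p ^ (a - 1))) :=
    (IsUnit.of_pow_eq_one D.hq (pow_ne_zero _ hp.ne_zero)).pow _
  apply hU.mul_right_cancel
  rw [← h1, hc, smul_mul_assoc, mul_smul_comm, one_mul, mul_one]

/-- **Abelian lemma** over the prime field. -/
theorem ev_abZ {p r a : ℕ} [Fact p.Prime] (hr : r.Prime) (hrp : r ≠ p) (ha : 0 < a)
    {V R : Type} [AddCommGroup V] [Module (ZMod p) V] [Finite V] [Group R] [Finite R]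
    (hR : IsPGroup r R) {α : R →* R} {ρ : R →* Module.End (ZMod p) V}
    {U : Module.End (ZMod p) V} (hab : ∀ x y, ρ x * ρ y = ρ y * ρ x)
    (D : LDat (p ^ a) α ρ U) (x : R) :
    ρ (α^[p ^ (a - 1)] x) = ρ x := by
  have hfin : Module.Finite (ZMod p) V := Module.Finite.of_finite
  have hch : CharP (AlgebraicClosure (ZMod p)) p :=
    charP_of_injective_algebraMap (algebraMap (ZMod p) (AlgebraicClosure (ZMod p))).injective p
  let β := Module.End.baseChangeHom (ZMod p) (AlgebraicClosure (ZMod p)) V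
  have hβ : ∀ (f : Module.End (ZMod p) V) (v : V), β f ((1 : AlgebraicClosure (ZMod p)) ⊗ₜ v) =
      (1 : AlgebraicClosure (ZMod p)) ⊗ₜ f v := by
    intro f v
    exact LinearMap.baseChange_tmul _ _ _
  have D' : LDat (p ^ a) α ((β : Module.End (ZMod p) V →* _).comp ρ) (β U) := by
    refine ⟨fun x => ?_, ?_, ?_⟩
    · show β U * β (ρ x) = β (ρ (α x)) * β U
      rw [← map_mul, D.hU, map_mul]
    · rw [← map_pow, D.hq, map_one]
    · simp_rw [← map_pow]
      rw [← map_sum, D.hN, map_zero]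
  have h := ev_ab hr hrp _ _ R a α _ (β U) rfl hR ha (fun x y => by
    show β (ρ x) * β (ρ y) = β (ρ y) * β (ρ x)
    rw [← map_mul, hab, map_mul]) D' x
  have h' : β (ρ (α^[p ^ (a - 1)] x)) = β (ρ x) := h
  apply LinearMap.ext
  intro v
  apply Module.FaithfullyFlat.tensorProduct_mk_injective (A := ZMod p)
    (B := AlgebraicClosure (ZMod p)) V
  show (1 : AlgebraicClosure (ZMod p)) ⊗ₜ[ZMod p] _ = (1 : AlgebraicClosure (ZMod p)) ⊗ₜ[ZMod p] _
  rw [← hβ, ← hβ, h']

end Pool.Agent.Lib.MP_544bd1_al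
end

section

/-!
Exponents `4 * m`: involutions acting on odd groups, lifting of inverted and centralized elements.
-/

namespace Pool.Agent.Lib.MP_544bd1_al

open Subgroup

universe u v

variable {G : Type u} [Group G] {m : ℕ}

/-- `a⁻¹ * a^w` is inverted by the involution `w` -/
theorem fr_inverted {w : G} (hw : w ^ 2 = 1) (a : G) :
    w * (a⁻¹ * (w * a * w)) * w = (a⁻¹ * (w * a * w))⁻¹ := by
  have hw1 := fr_mul_self hw
  have hw' := fr_inv_of_sq hw
  rw [mul_inv_rev, mul_inv_rev, mul_inv_rev, inv_inv, hw']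
  calc w * (a⁻¹ * (w * a * w)) * w = w * a⁻¹ * w * a * (w * w) := by group
    _ = w * (a⁻¹ * w) * a := by rw [hw1, mul_one]; group

/-- an odd element conjugate to its inverse under an odd element is trivial:
`i⁻¹ * c * i = c⁻¹`, `i ^ m = 1`, `c ^ m = 1` imply `c = 1`.

Proof. `i ^ 2` commutes with `c`, so `i = (i ^ 2) ^ ((m + 1) / 2)` commutes with `c`, `c = c⁻¹`,
`c ^ 2 = 1`, `c = 1` (`fr_one_two`). -/
theorem fr_inv_conj (hm : Odd m) {i c : G} (hi : i ^ m = 1) (hc : c ^ m = 1)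
    (h : i⁻¹ * c * i = c⁻¹) : c = 1 := by
  have h1 : c * i = i * c⁻¹ := by
    rw [← h]; group
  have h2 : Commute (i ^ 2) c := by
    show i ^ 2 * c = c * i ^ 2
    have h3 : c⁻¹ * i = i * c := by
      have h4 : i⁻¹ * c⁻¹ * i = c := by
        have h5 := congrArg (fun t => t⁻¹) h
        simp only [mul_inv_rev, inv_inv] at h5
        rw [← mul_assoc] at h5
        exact h5
      calc c⁻¹ * i = i * (i⁻¹ * c⁻¹ * i) := by group
        _ = i * c := by rw [h4]
    calc i ^ 2 * c = i * (i * c) := by rw [pow_two, mul_assoc]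
      _ = i * (c⁻¹ * i) := by rw [h3]
      _ = (i * c⁻¹) * i := by rw [mul_assoc]
      _ = (c * i) * i := by rw [h1]
      _ = c * i ^ 2 := by rw [pow_two, mul_assoc]
  have h6 : Commute i c := by
    have h7 := h2.pow_left ((m + 1) / 2)
    have h8 : (i ^ 2) ^ ((m + 1) / 2) = i := by
      rw [← pow_mul, mul_comm, pow_mul]; exact fr_sqrt hm hi
    rwa [h8] at h7
  apply fr_one_two hm hc
  have h9 : c = c⁻¹ := by
    calc c = i⁻¹ * (i * c) := by group
      _ = i⁻¹ * (c * i) := by rw [h6.eq]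
      _ = c⁻¹ := by rw [← mul_assoc]; exact h
  calc c ^ 2 = c * c := pow_two c
    _ = c * c⁻¹ := by rw [← h9]
    _ = 1 := mul_inv_cancel c

theorem fr_F3_aux {X Z : G →* G} (hm : Odd m) (A : Subgroup G) (hA : ∀ a ∈ A, a ^ m = 1)
    (hXX : ∀ a, X (X a) = a) (hZZ : ∀ a, Z (Z a) = a) (hXZ : ∀ a, X (Z a) = Z (X a))
    (hnX : ∀ a ∈ A, X a ∈ A) (hnZ : ∀ a ∈ A, Z a ∈ A) {a : G} (ha : a ∈ A) (h : Z a ≠ a) :
    ∃ e ∈ A, e ≠ 1 ∧ Z e = e⁻¹ ∧ (X e = e ∨ X e = e⁻¹) := by
  have hdiff : ∀ y : G, Z y ≠ y → (y⁻¹ * Z y ≠ 1 ∧ Z (y⁻¹ * Z y) = (y⁻¹ * Z y)⁻¹) := by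
    intro y hy
    refine ⟨?_, ?_⟩
    · intro h1
      apply hy
      rw [inv_mul_eq_one] at h1
      exact h1.symm
    · rw [map_mul, map_inv, hZZ, mul_inv_rev, inv_inv]
  obtain ⟨he1, heZ⟩ := hdiff a h
  have heA : a⁻¹ * Z a ∈ A := A.mul_mem (A.inv_mem ha) (hnZ a ha)
  obtain ⟨e, hee⟩ : ∃ e, e = a⁻¹ * Z a := ⟨_, rfl⟩
  rw [← hee] at he1 heZ heA
  obtain ⟨b, hbb⟩ : ∃ b, b = e⁻¹ * X e := ⟨_, rfl⟩
  have hbA : b ∈ A := by rw [hbb]; exact A.mul_mem (A.inv_mem heA) (hnX e heA)
  have hXb : X b = b⁻¹ := by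
    rw [hbb, map_mul, map_inv, hXX, mul_inv_rev, inv_inv]
  have hb' : (b⁻¹) ^ m = 1 := hA _ (A.inv_mem hbA)
  obtain ⟨i, hii⟩ : ∃ i, i = (b⁻¹) ^ ((m + 1) / 2) := ⟨_, rfl⟩
  have hi2 : i ^ 2 = b⁻¹ := by rw [hii]; exact fr_sqrt hm hb'
  have hiA : i ∈ A := by rw [hii]; exact A.pow_mem (A.inv_mem hbA) _
  have hXi : X i = i⁻¹ := by
    rw [hii, map_pow, map_inv, hXb, inv_inv, inv_pow, inv_inv]
  obtain ⟨c, hcc⟩ : ∃ c, c = e * i⁻¹ := ⟨_, rfl⟩
  have hcA : c ∈ A := by rw [hcc]; exact A.mul_mem heA (A.inv_mem hiA)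
  have hXe : X e = e * b := by rw [hbb]; group
  have hbi : b = (i ^ 2)⁻¹ := by rw [hi2, inv_inv]
  have hXc : X c = c := by
    rw [hcc, map_mul, map_inv, hXi, inv_inv, hXe, hbi]
    group
  by_cases hZc : Z c = c
  · have hec : e = c * i := by rw [hcc]; group
    have hZi : Z i = c⁻¹ * i⁻¹ * c⁻¹ := by
      have h1 : c * Z i = i⁻¹ * c⁻¹ := by
        rw [hec, map_mul, hZc, mul_inv_rev] at heZ
        exact heZ
      calc Z i = c⁻¹ * (c * Z i) := by group
        _ = c⁻¹ * i⁻¹ * c⁻¹ := by rw [h1, mul_assoc]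
    have h2 : X (Z i) = c * i * c := by
      rw [hXZ, hXi, map_inv, hZi]
      group
    have h3 : X (Z i) = c⁻¹ * i * c⁻¹ := by
      rw [hZi, map_mul, map_mul, map_inv, map_inv, hXc, hXi, inv_inv]
    have h4 : i⁻¹ * c ^ 2 * i = (c ^ 2)⁻¹ := by
      have h5 : c * i * c = c⁻¹ * i * c⁻¹ := by rw [← h2, h3]
      have h6 : c ^ 2 * i = i * (c ^ 2)⁻¹ := by
        calc c ^ 2 * i = c * (c * i * c) * c⁻¹ := by rw [pow_two]; group
          _ = c * (c⁻¹ * i * c⁻¹) * c⁻¹ := by rw [h5]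
          _ = i * (c ^ 2)⁻¹ := by rw [pow_two]; group
      calc i⁻¹ * c ^ 2 * i = i⁻¹ * (c ^ 2 * i) := by rw [mul_assoc]
        _ = i⁻¹ * (i * (c ^ 2)⁻¹) := by rw [h6]
        _ = (c ^ 2)⁻¹ := by group
    have h7 : c ^ 2 = 1 := fr_inv_conj hm (hA i hiA) (hA _ (A.pow_mem hcA 2)) h4
    have h8 : c = 1 := fr_one_two hm (hA c hcA) h7
    have h9 : e = i := by rw [hec, h8, one_mul]
    refine ⟨e, heA, he1, heZ, Or.inr ?_⟩
    rw [h9, hXi]
  · obtain ⟨h1, h2⟩ := hdiff c hZc
    refine ⟨c⁻¹ * Z c, A.mul_mem (A.inv_mem hcA) (hnZ c hcA), h1, h2, Or.inl ?_⟩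
    rw [map_mul, map_inv, hXZ, hXc]

/-- (F3) Commuting involutions `x`, `z` normalize an odd subgroup `A` not centralized by `z`. Then
some `e ≠ 1` in `A` is inverted by `z` and centralized or inverted by `x`.

Proof. Take `a ∈ A` with `z * a ≠ a * z`; `e = a⁻¹ * (z * a * z) ≠ 1` is inverted by `z`
(`fr_inverted`). Let `b = e⁻¹ * (x * e * x)`, inverted by `x`, `b ∈ A`, `i = (b⁻¹) ^ ((m+1)/2)`, so
`i ^ 2 = b⁻¹` (`fr_sqrt`), `x * i * x = i⁻¹`. Let `c = e * i⁻¹`. Then
`x * c * x = (x * e * x) * i = e * b * i = e * (i⁻¹) ^ 2 * i = c`. If `z * c ≠ c * z` then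
`c⁻¹ * (z * c * z) ≠ 1` is inverted by `z` and centralized by `x` (as `x`, `z` commute): done. If
`z * c = c * z`, then from `z * e * z = e⁻¹`: `c * (z * i * z) = i⁻¹ * c⁻¹`, so
`z * i * z = c⁻¹ * i⁻¹ * c⁻¹`. Conjugating with `x`: `x * (z * i * z) * x = z * i⁻¹ * z =
(z * i * z)⁻¹ = c * i * c` and `x * (c⁻¹ * i⁻¹ * c⁻¹) * x = c⁻¹ * i * c⁻¹`. So
`c ^ 2 * i * c ^ 2 = i`, `i⁻¹ * c ^ 2 * i = (c ^ 2)⁻¹`, `c ^ 2 = 1` (`fr_inv_conj`), `c = 1`, so
`e = i` is inverted by `x`: done. -/
theorem fr_F3 (hm : Odd m) (A : Subgroup G) (hA : ∀ a ∈ A, a ^ m = 1) {x z : G} (hx : x ^ 2 = 1)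
    (hz : z ^ 2 = 1) (hxz : x * z = z * x) (hnx : ∀ a ∈ A, x * a * x ∈ A)
    (hnz : ∀ a ∈ A, z * a * z ∈ A) (h : ∃ a ∈ A, z * a ≠ a * z) :
    ∃ e ∈ A, e ≠ 1 ∧ z * e * z = e⁻¹ ∧ (x * e * x = e ∨ x * e * x = e⁻¹) := by
  have hx1 := fr_mul_self hx
  have hz1 := fr_mul_self hz
  have hx' := fr_inv_of_sq hx
  have hz' := fr_inv_of_sq hz
  have hXa : ∀ a : G, (MulAut.conj x).toMonoidHom a = x * a * x := by
    intro a
    show x * a * x⁻¹ = x * a * x
    rw [hx']
  have hZa : ∀ a : G, (MulAut.conj z).toMonoidHom a = z * a * z := by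
    intro a
    show z * a * z⁻¹ = z * a * z
    rw [hz']
  obtain ⟨a, ha, h⟩ := h
  obtain ⟨e, h1, h2, h3, h4⟩ := fr_F3_aux (X := (MulAut.conj x).toMonoidHom)
    (Z := (MulAut.conj z).toMonoidHom) hm A hA
    (by
      intro a
      rw [hXa, hXa]
      calc x * (x * a * x) * x = (x * x) * a * (x * x) := by group
        _ = a := by rw [hx1, one_mul, mul_one])
    (by
      intro a
      rw [hZa, hZa]
      calc z * (z * a * z) * z = (z * z) * a * (z * z) := by group
        _ = a := by rw [hz1, one_mul, mul_one])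
    (by
      intro a
      rw [hXa, hZa, hXa, hZa]
      calc x * (z * a * z) * x = (x * z) * a * (z * x) := by group
        _ = (z * x) * a * (x * z) := by rw [hxz]
        _ = z * (x * a * x) * z := by group)
    (by intro a ha; rw [hXa]; exact hnx a ha)
    (by intro a ha; rw [hZa]; exact hnz a ha) ha
    (by
      rw [hZa]
      intro h1
      apply h
      calc z * a = z * a * (z * z) := by rw [hz1, mul_one]
        _ = (z * a * z) * z := by group
        _ = a * z := by rw [h1])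
  rw [hZa] at h3
  rw [hXa] at h4
  exact ⟨e, h1, h2, h3, h4⟩

variable {Y : Type v} [Group Y]

/-- odd elements lift to odd elements -/
theorem fr_lift_odd (hm : Odd m) (hexp : ∀ x : G, x ^ (4 * m) = 1) (f : G →* Y)
    (hf : Function.Surjective f) {y : Y} (hy : y ^ m = 1) : ∃ b : G, b ^ m = 1 ∧ f b = y := by
  obtain ⟨g, rfl⟩ := hf y
  exact ⟨g ^ (oN m), fr_oN_pow hm hexp g, by rw [map_pow, fr_oN_odd hy]⟩

/-- (F4a) an odd element inverted by (the image of) an involution `x` lifts to an odd element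
inverted by `x`.

Proof. Choose `g` with `f g = y ^ ((m+1)/2)`, `h = x * (g⁻¹ * x * g)`. Then
`f h = f x * (f g)⁻¹ * f x * f g = (f g) ^ 2 = y` (`fr_sqrt`), `x * h * x = h⁻¹`. Put
`b = h ^ (oN m)`. -/
theorem fr_lift_inv (hm : Odd m) (hexp : ∀ x : G, x ^ (4 * m) = 1) (f : G →* Y)
    (hf : Function.Surjective f) {x : G} (hx : x ^ 2 = 1) {y : Y} (hy : y ^ m = 1)
    (hxy : f x * y * f x = y⁻¹) : ∃ b : G, b ^ m = 1 ∧ x * b * x = b⁻¹ ∧ f b = y := by
  have hx1 := fr_mul_self hx
  have hx' := fr_inv_of_sq hx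
  have hfx : f x * f x = 1 := by rw [← map_mul, hx1, map_one]
  have hfx' : (f x)⁻¹ = f x := by rw [inv_eq_iff_mul_eq_one, hfx]
  obtain ⟨g, hg⟩ := hf (y ^ ((m + 1) / 2))
  obtain ⟨h, hh⟩ : ∃ h, h = x * (g⁻¹ * x * g) := ⟨_, rfl⟩
  have hinv : x * h * x = h⁻¹ := by
    rw [hh]
    calc x * (x * (g⁻¹ * x * g)) * x = (x * x) * (g⁻¹ * x * g) * x := by group
      _ = (g⁻¹ * x * g) * x := by rw [hx1, one_mul]
      _ = (g⁻¹ * x⁻¹ * g) * x⁻¹ := by rw [hx']
      _ = (x * (g⁻¹ * x * g))⁻¹ := by group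
  have hconj : f x * y ^ ((m + 1) / 2) * f x = (y ^ ((m + 1) / 2))⁻¹ := by
    have h1 : f x * y * (f x)⁻¹ = y⁻¹ := by rw [hfx']; exact hxy
    have h2 := conj_pow (i := (m + 1) / 2) (a := f x) (b := y)
    rw [h1, hfx', inv_pow] at h2
    exact h2.symm
  have hfh : f h = y := by
    rw [hh, map_mul, map_mul, map_mul, map_inv, hg]
    have h3 : f x * (y ^ ((m + 1) / 2))⁻¹ * f x = y ^ ((m + 1) / 2) := by
      rw [← hconj]
      calc f x * (f x * y ^ ((m + 1) / 2) * f x) * f x
          = (f x * f x) * y ^ ((m + 1) / 2) * (f x * f x) := by group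
        _ = y ^ ((m + 1) / 2) := by rw [hfx, one_mul, mul_one]
    calc f x * ((y ^ ((m + 1) / 2))⁻¹ * f x * y ^ ((m + 1) / 2))
        = (f x * (y ^ ((m + 1) / 2))⁻¹ * f x) * y ^ ((m + 1) / 2) := by group
      _ = y := by rw [h3, ← pow_two, fr_sqrt hm hy]
  refine ⟨h ^ (oN m), fr_oN_pow hm hexp h, ?_, ?_⟩
  · have h2 := conj_pow (i := oN m) (a := x) (b := h)
    rw [hx', hinv, inv_pow] at h2
    exact h2.symm
  · rw [map_pow, hfh, fr_oN_odd hy]

/-- (F4b) an element commuting with (the image of) an involution `x` lifts to an element commuting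
with `x`, if the kernel is odd.

Proof. `f g = y`; `k = x * (g⁻¹ * x * g) ∈ ker f`, so `k ^ m = 1`, `x * k * x = k⁻¹`. Let
`t = k ^ ((m+1)/2) ∈ ker f`: `t ^ 2 = k`, `x * t * x = t⁻¹`, hence
`t⁻¹ * x * t = x * (x * t⁻¹ * x) * t = x * t ^ 2 = x * k = g⁻¹ * x * g`. So `g * t⁻¹` commutes
with `x` and `f (g * t⁻¹) = y`. -/
theorem fr_lift_comm (hm : Odd m) (f : G →* Y) (hf : Function.Surjective f)
    (hker : ∀ k ∈ f.ker, k ^ m = 1) {x : G} (hx : x ^ 2 = 1) {y : Y} (hy : f x * y = y * f x) :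
    ∃ g : G, x * g = g * x ∧ f g = y := by
  have hx1 := fr_mul_self hx
  have hx' := fr_inv_of_sq hx
  have hfx : f x * f x = 1 := by rw [← map_mul, hx1, map_one]
  obtain ⟨g, rfl⟩ := hf y
  obtain ⟨k, hk⟩ : ∃ k, k = x * (g⁻¹ * x * g) := ⟨_, rfl⟩
  have hkk : k ∈ f.ker := by
    rw [MonoidHom.mem_ker, hk, map_mul, map_mul, map_mul, map_inv]
    calc f x * ((f g)⁻¹ * f x * f g) = f x * (f g)⁻¹ * (f x * f g) := by group
      _ = f x * (f g)⁻¹ * (f g * f x) := by rw [hy]
      _ = f x * f x := by group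
      _ = 1 := hfx
  have hkm := hker k hkk
  have hinv : x * k * x = k⁻¹ := by
    rw [hk]
    calc x * (x * (g⁻¹ * x * g)) * x = (x * x) * (g⁻¹ * x * g) * x := by group
      _ = (g⁻¹ * x * g) * x := by rw [hx1, one_mul]
      _ = (g⁻¹ * x⁻¹ * g) * x⁻¹ := by rw [hx']
      _ = (x * (g⁻¹ * x * g))⁻¹ := by group
  obtain ⟨t, ht⟩ : ∃ t, t = k ^ ((m + 1) / 2) := ⟨_, rfl⟩
  have ht2 : t ^ 2 = k := by rw [ht]; exact fr_sqrt hm hkm
  have htx : x * t * x = t⁻¹ := by
    have h2 := conj_pow (i := (m + 1) / 2) (a := x) (b := k)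
    rw [hx', hinv, inv_pow] at h2
    rw [ht]
    exact h2.symm
  have htk : t ∈ f.ker := by rw [ht]; exact f.ker.pow_mem hkk _
  have hxt : t⁻¹ * x * t = g⁻¹ * x * g := by
    calc t⁻¹ * x * t = (x * t * x) * x * t := by rw [htx]
      _ = x * t * (x * x) * t := by group
      _ = x * t ^ 2 := by rw [hx1, mul_one, pow_two, mul_assoc]
      _ = x * (x * (g⁻¹ * x * g)) := by rw [ht2, hk]
      _ = (x * x) * (g⁻¹ * x * g) := by group
      _ = g⁻¹ * x * g := by rw [hx1, one_mul]
  refine ⟨g * t⁻¹, ?_, ?_⟩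
  · calc x * (g * t⁻¹) = g * (g⁻¹ * x * g) * t⁻¹ := by group
      _ = g * (t⁻¹ * x * t) * t⁻¹ := by rw [hxt]
      _ = g * t⁻¹ * x := by group
  · rw [map_mul, map_inv, MonoidHom.mem_ker.1 htk, inv_one, mul_one]

end Pool.Agent.Lib.MP_544bd1_al
end

section

/-!
Final forms of the general reduction theorem.
-/

namespace Pool.Agent.Lib.MP_544bd1_al

open Subgroup

theorem IsLocFinite.of_injective {G H : Type} [Group G] [Group H] (f : H →* G)
    (hf : Function.Injective f) (h : IsLocFinite G) : IsLocFinite H := by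
  intro K hK
  have h1 := h (K.map f) (fg_map f hK)
  exact Finite.of_equiv _ (K.equivMapOfInjective f hf).symm.toEquiv

theorem IsLocFinite.of_surjective {G Q : Type} [Group G] [Group Q] (f : G →* Q)
    (hf : Function.Surjective f) (h : IsLocFinite G) : IsLocFinite Q := by
  intro K hK
  classical
  obtain ⟨S, rfl⟩ := hK
  choose g hg using hf
  have h1 := h (closure ((S.image g : Finset G) : Set G)) ⟨_, rfl⟩
  have h2 : (closure ((S.image g : Finset G) : Set G)).map f = closure (S : Set Q) := by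
    rw [MonoidHom.map_closure, Finset.coe_image, Set.image_image]
    congr 1
    ext x
    simp [hg]
  rw [← h2]
  exact Finite.of_surjective _ (f.subgroupMap_surjective _)

theorem IsLocFinite.pSections {G : Type} [Group G] (h : IsLocFinite G) : PSectionsLocFinite G := by
  intro H N _ p _ _
  exact (h.of_injective H.subtype H.subtype_injective).of_surjective _
    (QuotientGroup.mk'_surjective N)

theorem IsLocFinite_iff_LF {G : Type} [Group G] : IsLocFinite G ↔ LF (⊤ : Subgroup G) :=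
  ⟨fun h K _ hK => h K hK, fun h K hK => h K le_top hK⟩

theorem PSectionsLocFinite.psec {G : Type} [Group G] (h : PSectionsLocFinite G) (n : ℕ) :
    PSec n G := by
  intro S _ H f hf p hp _ hx
  rw [← IsLocFinite_iff_LF]
  let e : H ⧸ f.ker ≃* S := QuotientGroup.quotientKerEquivOfSurjective f hf
  have h1 : IsPGroup p (H ⧸ f.ker) := by
    intro g
    refine ⟨n.factorization p, ?_⟩
    apply e.injective
    rw [map_pow, hx, map_one]
  exact (h H f.ker p hp h1).of_surjective e.toMonoidHom e.surjective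

theorem PSec_of_mem {n : ℕ} (h : ∀ p : ℕ, p.Prime → p ∣ n →
    p ^ n.factorization p ∈ LocFinExponents) (G : Type) [Group G] : PSec n G := by
  intro S _ H f hf p hp hpn hx
  rw [← IsLocFinite_iff_LF]
  exact (h p hp hpn).2 S hx

theorem range_four {G : Type} (x y z w : G) : Set.range ![x, y, z, w] = {x, y, z, w} := by
  rw [Matrix.range_cons, Matrix.range_cons, Matrix.range_cons, Matrix.range_cons,
    Matrix.range_empty, Set.union_empty]
  rfl

theorem range_three {G : Type} (x y z : G) : Set.range ![x, y, z] = {x, y, z} := by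
  rw [Matrix.range_cons, Matrix.range_cons, Matrix.range_cons,
    Matrix.range_empty, Set.union_empty]
  rfl

theorem pow_factorial_eq_one {G : Type} [Group G] {c : ℕ}
    (h : ∀ x : G, ∃ H : Subgroup G, x ∈ H ∧ Finite H ∧ Nat.card H ≤ c) (x : G) :
    x ^ c.factorial = 1 := by
  obtain ⟨H, hx, hf, hc⟩ := h x
  have h1 : (⟨x, hx⟩ : H) ^ Nat.card H = 1 := pow_card_eq_one'
  have h2 : x ^ Nat.card H = 1 := by
    have := congrArg (fun z : H => (z : G)) h1
    exact this
  have h3 : Nat.card H ∣ c.factorial := Nat.dvd_factorial Nat.card_pos hc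
  obtain ⟨k, hk⟩ := h3
  rw [hk, pow_mul, h2, one_pow]

/-- group form, general case -/
theorem group_four (G : Type) [Group G] (c : ℕ)
    (h : ∀ x : Fin 4 → G, Finite (closure (Set.range x)) ∧
      Nat.card (closure (Set.range x)) ≤ c ∧
      SimpleSectionsTwoGenerated (closure (Set.range x))) :
    IsLocFinite G ↔ PSectionsLocFinite G := by
  refine ⟨fun h => h.pSections, fun hp => ?_⟩
  rw [IsLocFinite_iff_LF]
  have h4 : ∀ x y z w : G, Finite (closure {x, y, z, w}) ∧
      Nat.card (closure {x, y, z, w}) ≤ c ∧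
      SimpleSectionsTwoGenerated (closure {x, y, z, w}) := by
    intro x y z w
    have := h ![x, y, z, w]
    rw [range_four] at this
    exact this
  apply gen_group (Nat.factorial_pos c) G _ (hp.psec _) h4
  apply pow_factorial_eq_one
  intro x
  obtain ⟨h1, h2, _⟩ := h4 x x x x
  exact ⟨_, Subgroup.subset_closure (by simp), h1, h2⟩

/-- group form, solvable case -/
theorem group_three (G : Type) [Group G] (c : ℕ)
    (h : ∀ x : Fin 3 → G, Finite (closure (Set.range x)) ∧
      Nat.card (closure (Set.range x)) ≤ c ∧ Group.IsSolvable (closure (Set.range x))) :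
    IsLocFinite G ↔ PSectionsLocFinite G := by
  refine ⟨fun h => h.pSections, fun hp => ?_⟩
  rw [IsLocFinite_iff_LF]
  have h3 : ∀ x y z : G, Finite (closure {x, y, z}) ∧
      Nat.card (closure {x, y, z}) ≤ c ∧ Group.IsSolvable (closure {x, y, z}) := by
    intro x y z
    have := h ![x, y, z]
    rw [range_three] at this
    exact this
  apply sol_group (c := c) (Nat.factorial_pos c) G _ (hp.psec _)
  · intro x y z
    exact ⟨(h3 x y z).1, (h3 x y z).2.2⟩
  · intro x y
    have h1 := (h3 x y y).2.1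
    have h2 : ({x, y, y} : Set G) = {x, y} := by simp
    rw [h2] at h1
    exact h1
  · apply pow_factorial_eq_one
    intro x
    obtain ⟨h1, h2, _⟩ := h3 x x x
    exact ⟨_, Subgroup.subset_closure (by simp), h1, h2⟩

/-- exponents, general case -/
theorem exponent_four (n : ℕ) (hn : 0 < n)
    (hgen : Finite (FreeBurnside 4 n) → SimpleSectionsTwoGenerated (FreeBurnside 4 n)) :
    n ∈ LocFinExponents ↔ Finite (FreeBurnside 4 n) ∧
      ∀ p : ℕ, p.Prime → p ∣ n → p ^ n.factorization p ∈ LocFinExponents := by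
  constructor
  · intro h
    exact ⟨finite_burnside_of_mem h 4, fun p _ _ => mem_of_dvd (Nat.ordProj_dvd n p) h⟩
  · rintro ⟨hfin, hparts⟩
    refine ⟨hn, ?_⟩
    intro G _ hG
    have hSC : SC (Nat.card (FreeBurnside 4 n)) (FreeBurnside 4 n) :=
      SC_of_two_gen le_rfl (hgen hfin)
    have hPk : Pk n (Nat.card (FreeBurnside 4 n)) (Nat.card (FreeBurnside 4 n)) G := by
      refine ⟨hG, PSec_of_mem hparts G, ?_⟩
      intro x y z w
      let φ := burnsideLift 4 n hG ![x, y, z, w]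
      have hfr : Finite φ.range := Set.finite_range φ
      have hle : closure {x, y, z, w} ≤ φ.range := by
        rw [Subgroup.closure_le]
        rintro u (rfl | rfl | rfl | rfl)
        · exact ⟨_, burnsideLift_of 4 n hG ![u, y, z, w] 0⟩
        · exact ⟨_, burnsideLift_of 4 n hG ![x, u, z, w] 1⟩
        · exact ⟨_, burnsideLift_of 4 n hG ![x, y, u, w] 2⟩
        · exact ⟨_, burnsideLift_of 4 n hG ![x, y, z, u] 3⟩
      have hr : SC (Nat.card (FreeBurnside 4 n)) φ.range :=
        hSC.of_surjective φ.rangeRestrict φ.rangeRestrict_surjective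
      refine ⟨Finite.of_injective _ (Subgroup.inclusion_injective hle), ?_, hr.le hle⟩
      exact (Nat.card_le_card_of_injective _ (Subgroup.inclusion_injective hle)).trans
        (Nat.card_le_card_of_surjective _ φ.rangeRestrict_surjective)
    have := gen_main hn _ G hPk
    exact IsLocFinite_iff_LF.2 this

/-- exponents, solvable case -/
theorem exponent_three (n : ℕ) (hn : 0 < n)
    (hsol : Finite (FreeBurnside 3 n) → Group.IsSolvable (FreeBurnside 3 n)) :
    n ∈ LocFinExponents ↔ Finite (FreeBurnside 3 n) ∧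
      ∀ p : ℕ, p.Prime → p ∣ n → p ^ n.factorization p ∈ LocFinExponents := by
  constructor
  · intro h
    exact ⟨finite_burnside_of_mem h 3, fun p _ _ => mem_of_dvd (Nat.ordProj_dvd n p) h⟩
  · rintro ⟨hfin, hparts⟩
    refine ⟨hn, ?_⟩
    intro G _ hG
    have hs := hsol hfin
    have key : ∀ x y z : G, ∃ φ : FreeBurnside 3 n →* G, closure {x, y, z} ≤ φ.range := by
      intro x y z
      refine ⟨burnsideLift 3 n hG ![x, y, z], ?_⟩
      rw [Subgroup.closure_le]
      rintro u (rfl | rfl | rfl)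
      · exact ⟨_, burnsideLift_of 3 n hG ![u, y, z] 0⟩
      · exact ⟨_, burnsideLift_of 3 n hG ![x, u, z] 1⟩
      · exact ⟨_, burnsideLift_of 3 n hG ![x, y, u] 2⟩
    have h1 : ∀ x y z : G, Finite (closure {x, y, z}) ∧
        Group.IsSolvable (closure {x, y, z}) ∧
        Nat.card (closure {x, y, z}) ≤ Nat.card (FreeBurnside 3 n) := by
      intro x y z
      obtain ⟨φ, hle⟩ := key x y z
      have hfr : Finite φ.range := Set.finite_range φ
      have hsr : Group.IsSolvable φ.range :=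
        Group.isSolvable_of_surjective φ.rangeRestrict_surjective
      refine ⟨Finite.of_injective _ (Subgroup.inclusion_injective hle),
        Group.isSolvable_of_isSolvable_injective (Subgroup.inclusion_injective hle), ?_⟩
      exact (Nat.card_le_card_of_injective _ (Subgroup.inclusion_injective hle)).trans
        (Nat.card_le_card_of_surjective _ φ.rangeRestrict_surjective)
    have h2 := sol_group (c := Nat.card (FreeBurnside 3 n)) hn G hG (PSec_of_mem hparts G)
      (fun x y z => ⟨(h1 x y z).1, (h1 x y z).2.1⟩) (by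
        intro x y
        have h3 := (h1 x y y).2.2
        have h4 : ({x, y, y} : Set G) = {x, y} := by simp
        rw [h4] at h3
        exact h3)
    exact IsLocFinite_iff_LF.2 h2

end Pool.Agent.Lib.MP_544bd1_al
end

section

/-!
Exponents `4 * m`: the radicals `krad m F` (largest normal odd subgroup) and `krad 4 F` (largest
normal 2-subgroup).
-/

namespace Pool.Agent.Lib.MP_544bd1_al

open Subgroup

universe u v

/-- the join of all normal subgroups of exponent `k` -/
def krad (k : ℕ) (F : Type u) [Group F] : Subgroup F :=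
  sSup {N : Subgroup F | N.Normal ∧ ∀ x ∈ N, x ^ k = 1}

section krad

variable {F : Type u} [Group F] {k m : ℕ}

theorem le_krad {N : Subgroup F} (h1 : N.Normal) (h2 : ∀ x ∈ N, x ^ k = 1) : N ≤ krad k F :=
  le_sSup ⟨h1, h2⟩

instance krad_normal (k : ℕ) (F : Type u) [Group F] : (krad k F).Normal := by
  have key : ∀ g : F, (krad k F).map (MulAut.conj g).toMonoidHom ≤ krad k F := by
    intro g
    rw [krad, Subgroup.map_le_iff_le_comap]
    apply sSup_le
    rintro N ⟨hN, hN'⟩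
    intro x hx
    rw [Subgroup.mem_comap]
    have h1 : N ≤ sSup {N : Subgroup F | N.Normal ∧ ∀ x ∈ N, x ^ k = 1} := le_sSup ⟨hN, hN'⟩
    exact h1 (hN.conj_mem x hx g)
  constructor
  intro x hx g
  exact key g ⟨x, hx, rfl⟩

/-- the join of two normal subgroups of exponent `k` -/
theorem fr_sup_pow (h : ∀ x : F, (x ^ k) ^ k = 1 → x ^ k = 1) {N M : Subgroup F} (hN : N.Normal)
    (hN' : ∀ x ∈ N, x ^ k = 1) (hM' : ∀ x ∈ M, x ^ k = 1) :
    ∀ x ∈ N ⊔ M, x ^ k = 1 := by
  intro x hx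
  obtain ⟨a, ha, b, hb, rfl⟩ := Subgroup.mem_sup_of_normal_left.1 hx
  apply h
  apply hN'
  have key : ∀ j : ℕ, (a * b) ^ j * (b ^ j)⁻¹ ∈ N := by
    intro j
    induction j with
    | zero => simp [N.one_mem]
    | succ j ih =>
      have h5 := N.mul_mem ha (hN.conj_mem _ ih b)
      have h7 : a * (b * ((a * b) ^ j * (b ^ j)⁻¹) * b⁻¹) = (a * b) ^ (j + 1) * (b ^ (j + 1))⁻¹ := by
        rw [pow_succ' (a * b), pow_succ' b j, mul_inv_rev]
        group
      rwa [h7] at h5
  have := key k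
  rwa [hM' b hb, inv_one, mul_one] at this

theorem krad_directed (h : ∀ x : F, (x ^ k) ^ k = 1 → x ^ k = 1) :
    DirectedOn (· ≤ ·) {N : Subgroup F | N.Normal ∧ ∀ x ∈ N, x ^ k = 1} := by
  rintro N ⟨hN, hN'⟩ M ⟨hM, hM'⟩
  exact ⟨N ⊔ M, ⟨inferInstance, fr_sup_pow h hN hN' hM'⟩, le_sup_left, le_sup_right⟩

theorem krad_pow (h : ∀ x : F, (x ^ k) ^ k = 1 → x ^ k = 1) : ∀ x ∈ krad k F, x ^ k = 1 := by
  intro x hx
  have hne : {N : Subgroup F | N.Normal ∧ ∀ x ∈ N, x ^ k = 1}.Nonempty :=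
    ⟨⊥, inferInstance, fun x hx => by rw [mem_bot.1 hx, one_pow]⟩
  rw [krad, Subgroup.mem_sSup_of_directedOn hne (krad_directed h)] at hx
  obtain ⟨N, ⟨_, hN⟩, hx⟩ := hx
  exact hN x hx

theorem krad_quot (h : ∀ x : F, (x ^ k) ^ k = 1 → x ^ k = 1) : krad k (F ⧸ krad k F) = ⊥ := by
  have h' : ∀ x : F ⧸ krad k F, (x ^ k) ^ k = 1 → x ^ k = 1 := by
    intro x
    obtain ⟨z, rfl⟩ := QuotientGroup.mk'_surjective _ x
    intro hz
    rw [← map_pow, ← map_pow, QuotientGroup.mk'_apply, QuotientGroup.eq_one_iff] at hz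
    have h1 := krad_pow h _ hz
    have h2 : z ^ k = 1 := by
      apply h
      apply h
      exact h1
    rw [← map_pow, h2, map_one]
  have h2 : (krad k (F ⧸ krad k F)).comap (QuotientGroup.mk' (krad k F)) ≤ krad k F := by
    apply le_krad
    · infer_instance
    · intro x hx
      rw [Subgroup.mem_comap] at hx
      have h3 := krad_pow h' _ hx
      rw [← map_pow, QuotientGroup.mk'_apply, QuotientGroup.eq_one_iff] at h3
      exact h _ (krad_pow h _ h3)
  rw [eq_bot_iff]
  intro x hx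
  obtain ⟨z, rfl⟩ := QuotientGroup.mk'_surjective _ x
  have h3 : z ∈ krad k F := h2 hx
  rw [mem_bot, QuotientGroup.mk'_apply, QuotientGroup.eq_one_iff]
  exact h3

theorem fr_hm (hm : Odd m) (hexp : ∀ x : F, x ^ (4 * m) = 1) :
    ∀ x : F, (x ^ m) ^ m = 1 → x ^ m = 1 := fun _ h => fr_odd_odd hm hexp h

theorem fr_h4 (hm : Odd m) (hexp : ∀ x : F, x ^ (4 * m) = 1) :
    ∀ x : F, (x ^ 4) ^ 4 = 1 → x ^ 4 = 1 := fun _ h => fr_two_two hm hexp h

theorem fr_exp_quot (hexp : ∀ x : F, x ^ (4 * m) = 1) (N : Subgroup F) [N.Normal] :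
    ∀ x : F ⧸ N, x ^ (4 * m) = 1 := by
  intro x
  obtain ⟨z, rfl⟩ := QuotientGroup.mk'_surjective _ x
  rw [← map_pow, hexp, map_one]

theorem fr_exp_sub (hexp : ∀ x : F, x ^ (4 * m) = 1) (T : Subgroup F) :
    ∀ x : T, x ^ (4 * m) = 1 := fun x => Subtype.ext (by simpa using hexp x)

theorem mem_krad_iff (hm : Odd m) (hexp : ∀ x : F, x ^ (4 * m) = 1) {x : F} :
    x ∈ krad m F ↔ InO m (⊤ : Subgroup F) x := by
  constructor
  · intro hx
    exact ⟨krad m F, le_top, hx, fun t _ y hy => (krad_normal m F).conj_mem y hy t,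
      krad_pow (fr_hm hm hexp)⟩
  · rintro ⟨N, _, h2, h3, h4⟩
    exact le_krad ⟨fun y hy g => h3 g trivial y hy⟩ h4 h2

open scoped commutatorElement in
/-- a nontrivial normal subgroup of a solvable group contains a nontrivial abelian normal subgroup -/
private theorem fr_fitting_abelian {Q : Type u} [Group Q] (hsol : Group.IsSolvable Q)
    (C : Subgroup Q) (hC : C.Normal) (hne : C ≠ ⊥) :
    ∃ D : Subgroup Q, D.Normal ∧ D ≤ C ∧ D ≠ ⊥ ∧ ∀ x ∈ D, ∀ y ∈ D, x * y = y * x := by
  classical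
  have hsolC : Group.IsSolvable C := inferInstance
  obtain ⟨n, hn⟩ := hsolC.solvable
  have hex : ∃ n, derivedSeries C n = ⊥ := ⟨n, hn⟩
  have hspec := Nat.find_spec hex
  have hpos : Nat.find hex ≠ 0 := by
    intro h0
    rw [h0, derivedSeries_zero] at hspec
    apply hne
    rw [eq_bot_iff]
    intro x hx
    have : (⟨x, hx⟩ : C) ∈ (⊤ : Subgroup C) := trivial
    rw [hspec, Subgroup.mem_bot] at this
    exact Subgroup.mem_bot.mpr (congrArg Subtype.val this)
  obtain ⟨j, hj⟩ := Nat.exists_eq_succ_of_ne_zero hpos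
  have hmin : derivedSeries C j ≠ ⊥ := Nat.find_min hex (by omega)
  refine ⟨(derivedSeries C j).map C.subtype, ?_, ?_, ?_, ?_⟩
  · infer_instance
  · exact Subgroup.map_subtype_le _
  · intro h
    apply hmin
    rwa [Subgroup.map_eq_bot_iff_of_injective _ C.subtype_injective] at h
  · rintro _ ⟨x, hx, rfl⟩ _ ⟨y, hy, rfl⟩
    have h1 : ⁅x, y⁆ ∈ derivedSeries C (j + 1) := by
      rw [derivedSeries_succ]
      exact Subgroup.commutator_mem_commutator hx hy
    have h2 : derivedSeries C (j + 1) = ⊥ := by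
      rw [← hspec, hj]
    rw [h2, Subgroup.mem_bot, commutatorElement_eq_one_iff_mul_comm] at h1
    rw [← map_mul, ← map_mul, h1]

private theorem fr_fitting_comm {x y z : F} (hz : z = x * y * x⁻¹ * y⁻¹) (hxz : x * z = z * x)
    (j : ℕ) : x ^ j * y * (x ^ j)⁻¹ = z ^ j * y := by
  induction j with
  | zero => simp
  | succ j ih =>
    have h1 : x ^ (j + 1) * y * (x ^ (j + 1))⁻¹ = x * (x ^ j * y * (x ^ j)⁻¹) * x⁻¹ := by
      rw [pow_succ', mul_inv_rev]
      group
    have h2 : x * z ^ j = z ^ j * x := (Commute.pow_right hxz j : Commute x (z ^ j))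
    have h3 : x * y * x⁻¹ = z * y := by rw [hz]; group
    calc x ^ (j + 1) * y * (x ^ (j + 1))⁻¹ = x * (z ^ j * y) * x⁻¹ := by rw [h1, ih]
      _ = (x * z ^ j) * y * x⁻¹ := by group
      _ = z ^ j * (x * y * x⁻¹) := by rw [h2]; group
      _ = z ^ (j + 1) * y := by rw [h3, pow_succ]; group

/-- in a finite solvable group without nontrivial normal subgroups of exponent `l`, the largest
normal subgroup of exponent `k` contains its centralizer (`k`, `l` coprime, exponent `k * l`).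

Proof. Let `R = krad k F`, `C = centralizer R` (normal). Suppose `c ∈ C`, `c ∉ R`. Let
`π : F → F ⧸ R` and `C' = C.map π ≠ ⊥`, a normal subgroup of the solvable group `F ⧸ R`. Let `D` be
the last nontrivial term of the derived series of `C'` (take the derived series of the group `C'`
mapped to `F ⧸ R`; normal in `F ⧸ R`, abelian, nontrivial, contained in `C'`).
`D_k = {x ∈ D | x ^ k = 1}` and `D_l = {x ∈ D | x ^ l = 1}` are normal subgroups of `F ⧸ R` (`D` is
abelian) and one of them is nontrivial. If `D_k ≠ ⊥`: its preimage in `F` is normal, its elements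
satisfy `(x ^ k) ^ k = 1`, so `x ^ k = 1`; so it is contained in `R`, contradiction. So `D_l ≠ ⊥`.
Let `D1 = (D_l.comap π) ⊓ C`, normal in `F`, and `D1.map π = D_l` (as `D_l ≤ C'`). Let
`E = {x ∈ D1 | x ^ l = 1}`. If `x, y ∈ E` then `z = ⁅x, y⁆ ∈ R` (since `D_l` is abelian) commutes
with `x` and `y` (as `x, y ∈ C`), so `z ^ l = ⁅x ^ l, y⁆ = 1`, and `z ^ k = 1`, so `z = 1`. Hence
`E` is a normal subgroup of `F` of exponent `l`, so `E ≤ krad l F = ⊥`. But take `d ∈ D1` with
`π d ≠ 1`, `N` with `N ≡ 1 mod l`, `N ≡ 0 mod k` (Chinese remainder); then `e = d ^ N` satisfies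
`e ^ l = d ^ (N * l) = 1` (since `k * l ∣ N * l`), and `π e = (π d) ^ N = π d ≠ 1`, so
`1 ≠ e ∈ E`. Contradiction. -/
theorem fr_fitting {k l : ℕ} (hkl : Nat.Coprime k l) (hk : 0 < k) (hl0 : 0 < l)
    (hsol : Group.IsSolvable F) (hexp : ∀ x : F, x ^ (k * l) = 1) (hl : krad l F = ⊥) {c : F}
    (hc : ∀ x ∈ krad k F, c * x = x * c) : c ∈ krad k F := by
  have hkk : ∀ x : F, (x ^ k) ^ k = 1 → x ^ k = 1 := by
    intro x hx
    refine eq_one_of_coprime_pow hkl hx ?_
    rw [← pow_mul]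
    exact hexp x
  set R : Subgroup F := krad k F with hR
  have hRpow : ∀ x ∈ R, x ^ k = 1 := krad_pow hkk
  by_contra hcR
  set C : Subgroup F := Subgroup.centralizer (R : Set F) with hCdef
  have hCn : C.Normal := by
    rw [hCdef]
    infer_instance
  have hCmem : ∀ x ∈ C, ∀ y ∈ R, x * y = y * x := by
    intro x hx y hy
    exact (Subgroup.mem_centralizer_iff.mp hx y hy).symm
  have hcC : c ∈ C := by
    rw [hCdef, Subgroup.mem_centralizer_iff]
    intro x hx
    exact (hc x hx).symm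
  set π : F →* F ⧸ R := QuotientGroup.mk' R with hπ
  have hπs : Function.Surjective π := QuotientGroup.mk'_surjective R
  have hπ1 : ∀ x : F, π x = 1 ↔ x ∈ R := fun x => by
    rw [hπ, QuotientGroup.mk'_apply, QuotientGroup.eq_one_iff]
  have hC'n : (C.map π).Normal := hCn.map π hπs
  have hC'ne : C.map π ≠ ⊥ := by
    intro h
    apply hcR
    rw [← hπ1]
    have : π c ∈ C.map π := ⟨c, hcC, rfl⟩
    rwa [h, Subgroup.mem_bot] at this
  have hsolQ : Group.IsSolvable (F ⧸ R) := Group.isSolvable_of_surjective hπs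
  obtain ⟨D, hDn, hDC, hDne, hDab⟩ := fr_fitting_abelian hsolQ (C.map π) hC'n hC'ne
  have hexpQ : ∀ x : F ⧸ R, x ^ (k * l) = 1 := by
    intro x
    obtain ⟨y, rfl⟩ := hπs x
    rw [← map_pow, hexp, map_one]
  -- `D` has exponent `l`
  have hDl : ∀ d ∈ D, d ^ l = 1 := by
    -- the elements of exponent `k`
    let Dk : Subgroup (F ⧸ R) :=
      { carrier := {x | x ∈ D ∧ x ^ k = 1}
        mul_mem' := by
          rintro a b ⟨ha, ha'⟩ ⟨hb, hb'⟩
          refine ⟨D.mul_mem ha hb, ?_⟩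
          have h1 : Commute a b := hDab a ha b hb
          rw [h1.mul_pow, ha', hb', one_mul]
        one_mem' := ⟨D.one_mem, one_pow k⟩
        inv_mem' := by
          rintro a ⟨ha, ha'⟩
          exact ⟨D.inv_mem ha, by rw [inv_pow, ha', inv_one]⟩ }
    have hDkn : Dk.Normal := by
      constructor
      rintro x ⟨hx, hx'⟩ g
      exact ⟨hDn.conj_mem x hx g, by rw [conj_pow, hx', mul_one, mul_inv_cancel]⟩
    have h1 : Dk.comap π ≤ R := by
      apply le_krad
      · infer_instance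
      · rintro x ⟨-, hx⟩
        have hx' : x ^ k ∈ R := by
          rw [← hπ1, map_pow]
          exact hx
        exact hkk x (hRpow _ hx')
    intro d hd
    have h2 : d ^ l ∈ Dk := ⟨D.pow_mem hd l, by rw [← pow_mul, mul_comm]; exact hexpQ d⟩
    obtain ⟨e, he⟩ := hπs (d ^ l)
    have h3 : e ∈ Dk.comap π := by
      rw [Subgroup.mem_comap, he]
      exact h2
    have h4 := (hπ1 e).mpr (h1 h3)
    rw [← he]
    exact h4
  -- the subgroup `E`
  have hD1 : ∀ x y : F, π x ∈ D → π y ∈ D → x ∈ C → y ∈ C → x ^ l = 1 → x * y = y * x := by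
    intro x y hx hy hxC hyC hxl
    set z : F := x * y * x⁻¹ * y⁻¹ with hz
    have hzR : z ∈ R := by
      rw [← hπ1, hz, map_mul, map_mul, map_mul, map_inv, map_inv, hDab _ hx _ hy,
        mul_inv_cancel_right, mul_inv_cancel]
    have h1 := fr_fitting_comm hz (hCmem x hxC z hzR) l
    rw [hxl, one_mul, inv_one, mul_one] at h1
    have h2 : z ^ l = 1 := by
      have := mul_right_cancel (a := (1 : F)) (b := y) (c := z ^ l) (by rw [one_mul]; exact h1)
      exact this.symm
    have h3 : z = 1 := eq_one_of_coprime_pow hkl (hRpow z hzR) h2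
    rw [hz] at h3
    have h4 : x * y * x⁻¹ = y := mul_inv_eq_one.mp h3
    exact mul_inv_eq_iff_eq_mul.mp h4
  let E : Subgroup F :=
    { carrier := {x | π x ∈ D ∧ x ∈ C ∧ x ^ l = 1}
      mul_mem' := by
        rintro a b ⟨ha, ha', ha''⟩ ⟨hb, hb', hb''⟩
        refine ⟨by rw [map_mul]; exact D.mul_mem ha hb, C.mul_mem ha' hb', ?_⟩
        have h1 : Commute a b := hD1 a b ha hb ha' hb' ha''
        rw [h1.mul_pow, ha'', hb'', one_mul]
      one_mem' := ⟨by rw [map_one]; exact D.one_mem, C.one_mem, one_pow l⟩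
      inv_mem' := by
        rintro a ⟨ha, ha', ha''⟩
        exact ⟨by rw [map_inv]; exact D.inv_mem ha, C.inv_mem ha', by rw [inv_pow, ha'', inv_one]⟩ }
  have hEn : E.Normal := by
    constructor
    rintro x ⟨hx, hx', hx''⟩ g
    refine ⟨?_, hCn.conj_mem x hx' g, by rw [conj_pow, hx'', mul_one, mul_inv_cancel]⟩
    rw [map_mul, map_mul, map_inv]
    exact hDn.conj_mem _ hx _
  have hEbot : ∀ e ∈ E, e = 1 := by
    intro e he
    have h1 : E ≤ krad l F := le_krad hEn (fun x hx => hx.2.2)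
    have h2 := h1 he
    rwa [hl, Subgroup.mem_bot] at h2
  -- a nontrivial element
  apply hDne
  rw [eq_bot_iff]
  intro d hd
  rw [Subgroup.mem_bot]
  obtain ⟨c', hc'C, hc'⟩ := hDC hd
  obtain ⟨N, hN1, hN2⟩ := Nat.chineseRemainder hkl 0 1
  have hkN : k ∣ N := (Nat.modEq_zero_iff_dvd).mp hN1
  have h1 : c' ^ N ∈ E := by
    refine ⟨?_, C.pow_mem hc'C N, ?_⟩
    · rw [map_pow, hc']
      exact D.pow_mem hd N
    · obtain ⟨q, hq⟩ := hkN
      rw [← pow_mul, hq, show k * q * l = k * l * q by ring, pow_mul, hexp, one_pow]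
  have h2 := hEbot _ h1
  have h3 : d ^ N = 1 := by
    rw [← hc', ← map_pow, h2, map_one]
  have h4 : d ^ N = d ^ 1 := by
    rw [pow_eq_pow_iff_modEq]
    exact hN2.of_dvd (orderOf_dvd_of_pow_eq_one (hDl d hd))
  rw [← pow_one d, ← h4, h3]

/-- no nontrivial normal odd subgroup: the 2-radical contains its centralizer -/
theorem fr_fitting_two (hm : Odd m) (hsol : Group.IsSolvable F) (hexp : ∀ x : F, x ^ (4 * m) = 1)
    (h : krad m F = ⊥) {c : F} (hc : ∀ x ∈ krad 4 F, c * x = x * c) : c ∈ krad 4 F := by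
  obtain ⟨j, hj⟩ := id hm
  exact fr_fitting (fr_cop hm).symm (by norm_num) (by omega) hsol hexp h hc

/-- no nontrivial normal 2-subgroup: the odd radical contains its centralizer -/
theorem fr_fitting_odd (hm : Odd m) (hsol : Group.IsSolvable F) (hexp : ∀ x : F, x ^ (4 * m) = 1)
    (h : krad 4 F = ⊥) {c : F} (hc : ∀ x ∈ krad m F, c * x = x * c) : c ∈ krad m F := by
  obtain ⟨j, hj⟩ := id hm
  exact fr_fitting (fr_cop hm) (by omega) (by norm_num) hsol
    (fun x => by rw [mul_comm]; exact hexp x) h hc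

end krad

end Pool.Agent.Lib.MP_544bd1_al
end
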