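import Mathlib
import Pool.Agent.Lib.MP_544bd1_al.Defs
import Pool.Agent.Lib.MP_544bd1_al.E5.Coind

/-!
# Inverted pairs and the free Burnside group of rank four

If in every group satisfying `x ^ n = 1`, `2 * q ∣ n`, any two elements `x, y`, the first of which is
inverted by some `t` with `t ^ 2 = 1`, generate a finite subgroup, then the free Burnside group of rank
four and exponent `q` is finite: in the wreath product `D ≀ (C₂ × C₂)` there is such a pair the labels
of which generate `D`.
-/

namespace Pool.Agent.Lib.MP_544bd1_al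

open Subgroup E5

/-- the Klein four group -/
abbrev IpQ : Type := Multiplicative (ZMod 2) × Multiplicative (ZMod 2)

/-- first generator -/
def ipS : IpQ := (Multiplicative.ofAdd 1, 1)

/-- product of the generators -/
def ipU : IpQ := (Multiplicative.ofAdd 1, Multiplicative.ofAdd 1)

/-- second generator -/
def ipR : IpQ := (1, Multiplicative.ofAdd 1)

theorem ip_sq (v : IpQ) : v ^ 2 = 1 := by
  revert v
  decide

section

variable {D : Type} [Group D]

/-- labels of the first element -/
def ipF (g : D) (v : IpQ) : D := if v = ipS then g else if v = ipU then g⁻¹ else 1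

/-- labels of the second element -/
def ipH (b c d : D) (v : IpQ) : D :=
  if v = ipS then b else if v = ipU then c else if v = ipR then d else 1

theorem ipF_one (g : D) : ipF g 1 = 1 := by
  unfold ipF
  rw [if_neg (by decide), if_neg (by decide)]

theorem ipF_S (g : D) : ipF g ipS = g := by
  unfold ipF
  rw [if_pos rfl]

theorem ipF_U (g : D) : ipF g ipU = g⁻¹ := by
  unfold ipF
  rw [if_neg (by decide), if_pos rfl]

theorem ipF_R (g : D) : ipF g ipR = 1 := by
  unfold ipF
  rw [if_neg (by decide), if_neg (by decide)]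

theorem ipH_one (b c d : D) : ipH b c d 1 = 1 := by
  unfold ipH
  rw [if_neg (by decide), if_neg (by decide), if_neg (by decide)]

theorem ipH_S (b c d : D) : ipH b c d ipS = b := by
  unfold ipH
  rw [if_pos rfl]

theorem ipH_U (b c d : D) : ipH b c d ipU = c := by
  unfold ipH
  rw [if_neg (by decide), if_pos rfl]

theorem ipH_R (b c d : D) : ipH b c d ipR = d := by
  unfold ipH
  rw [if_neg (by decide), if_neg (by decide), if_pos rfl]

theorem ip_cases (v : IpQ) : v = 1 ∨ v = ipS ∨ v = ipU ∨ v = ipR := by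
  revert v
  decide

/-- the pair -/
def ipX (g : D) : RegularWreathProduct D IpQ := ⟨ipF g, ipU⟩

/-- the pair -/
def ipY (b c d : D) : RegularWreathProduct D IpQ := ⟨ipH b c d, ipS⟩

/-- the involution -/
def ipT (D : Type) [Group D] : RegularWreathProduct D IpQ := ⟨1, ipS⟩

theorem ipT_sq : (ipT D) ^ 2 = 1 := by
  rw [pow_two]
  apply RegularWreathProduct.ext
  · funext v
    change (1 : IpQ → D) v * (1 : IpQ → D) (ipS⁻¹ * v) = 1
    simp
  · change ipS * ipS = 1
    decide

theorem ip_inv (g : D) : ipT D * ipX g * ipT D = (ipX g)⁻¹ := by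
  apply RegularWreathProduct.ext
  · funext v
    change (1 : IpQ → D) v * ipF g (ipS⁻¹ * v) * (1 : IpQ → D) ((ipS * ipU)⁻¹ * v) =
      (ipF g (ipU * v))⁻¹
    rw [Pi.one_apply, Pi.one_apply, one_mul, mul_one]
    rcases ip_cases v with rfl | rfl | rfl | rfl
    · rw [show ipS⁻¹ * (1 : IpQ) = ipS by decide, show ipU * (1 : IpQ) = ipU by decide, ipF_S,
        ipF_U, inv_inv]
    · rw [show ipS⁻¹ * ipS = (1 : IpQ) by decide, show ipU * ipS = ipR by decide, ipF_one,
        ipF_R, inv_one]
    · rw [show ipS⁻¹ * ipU = ipR by decide, show ipU * ipU = (1 : IpQ) by decide, ipF_one,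
        ipF_R, inv_one]
    · rw [show ipS⁻¹ * ipR = ipU by decide, show ipU * ipR = ipS by decide, ipF_S,
        ipF_U]
  · change ipS * ipU * ipS = ipU⁻¹
    decide

theorem ip_mul_left (a b : RegularWreathProduct D IpQ) (x : IpQ) :
    (a * b).left x = a.left x * b.left (a.right⁻¹ * x) := rfl

theorem ip_inv_left (a : RegularWreathProduct D IpQ) (x : IpQ) :
    a⁻¹.left x = (a.left (a.right * x))⁻¹ := rfl

theorem ipX_left (g : D) : (ipX g).left = ipF g := rfl

theorem ipX_right (g : D) : (ipX g).right = ipU := rfl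

theorem ipY_left (b c d : D) : (ipY b c d).left = ipH b c d := rfl

theorem ipY_right (b c d : D) : (ipY b c d).right = ipS := rfl

theorem ip_w1 (g : D) : (ipX g * ipX g).left 1 = g⁻¹ ∧ (ipX g * ipX g).right = 1 := by
  constructor
  · rw [ip_mul_left, ipX_left, ipX_right, show ipU⁻¹ * (1 : IpQ) = ipU by decide, ipF_one, ipF_U,
      one_mul]
  · change ipU * ipU = 1
    decide

theorem ip_w2 (b c d : D) : (ipY b c d * ipY b c d).left 1 = b ∧
    (ipY b c d * ipY b c d).right = 1 := by
  constructor
  · rw [ip_mul_left, ipY_left, ipY_right, show ipS⁻¹ * (1 : IpQ) = ipS by decide, ipH_one, ipH_S,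
      one_mul]
  · change ipS * ipS = 1
    decide

theorem ip_w3 (g b c d : D) : (ipX g * ipY b c d * ipX g * (ipY b c d)⁻¹).left 1 = c ∧
    (ipX g * ipY b c d * ipX g * (ipY b c d)⁻¹).right = 1 := by
  constructor
  · simp only [ip_mul_left, ip_inv_left, RegularWreathProduct.mul_right, ipX_left, ipY_left,
      ipX_right, ipY_right]
    rw [show ipU⁻¹ * (1 : IpQ) = ipU by decide, show (ipU * ipS)⁻¹ * (1 : IpQ) = ipR by decide,
      show ipS * ((ipU * ipS * ipU)⁻¹ * 1) = (1 : IpQ) by decide, ipF_one, ipH_U, ipF_R, ipH_one,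
      one_mul, mul_one, inv_one, mul_one]
  · change ipU * ipS * ipU * ipS⁻¹ = 1
    decide

theorem ip_w4 (g b c d : D) : (ipX g * ipY b c d * ipY b c d * ipX g).left 1 = c * d * g⁻¹ ∧
    (ipX g * ipY b c d * ipY b c d * ipX g).right = 1 := by
  constructor
  · simp only [ip_mul_left, RegularWreathProduct.mul_right, ipX_left, ipY_left,
      ipX_right, ipY_right]
    rw [show ipU⁻¹ * (1 : IpQ) = ipU by decide, show (ipU * ipS)⁻¹ * (1 : IpQ) = ipR by decide,
      show (ipU * ipS * ipS)⁻¹ * (1 : IpQ) = ipU by decide, ipF_one, ipH_U, ipH_R, ipF_U,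
      one_mul]
  · change ipU * ipS * ipS * ipU = 1
    decide

/-- four elements of a group of exponent `q` generate a finite subgroup -/
theorem ip_finite {n q : ℕ} (hq : 2 * q ∣ n)
    (h : ∀ (G : Type) [Group G], (∀ g : G, g ^ n = 1) →
      ∀ t x y : G, t ^ 2 = 1 → t * x * t = x⁻¹ → Finite (closure {x, y}))
    (hD : ∀ g : D, g ^ q = 1) (g b c d : D) : Finite (closure {g, b, c, d}) := by
  have hexp : ∀ w : RegularWreathProduct D IpQ, w ^ n = 1 := by
    obtain ⟨k, rfl⟩ := hq
    intro w
    rw [pow_mul, co_exponent hD ip_sq, one_pow]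
  have hfin := h _ hexp (ipT D) (ipX g) (ipY b c d) ipT_sq (ip_inv g)
  obtain ⟨K, hK⟩ : ∃ K : Subgroup (RegularWreathProduct D IpQ), K = closure {ipX g, ipY b c d} :=
    ⟨_, rfl⟩
  rw [← hK] at hfin
  have hX : ipX g ∈ K := by
    rw [hK]
    exact subset_closure (by simp)
  have hY : ipY b c d ∈ K := by
    rw [hK]
    exact subset_closure (by simp)
  obtain ⟨B, hB⟩ : ∃ B : Subgroup (RegularWreathProduct.rightHom :
      RegularWreathProduct D IpQ →* IpQ).ker, B = K.comap
        (RegularWreathProduct.rightHom : RegularWreathProduct D IpQ →* IpQ).ker.subtype :=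
    ⟨_, rfl⟩
  have hBfin : (B : Set (RegularWreathProduct.rightHom :
      RegularWreathProduct D IpQ →* IpQ).ker).Finite := by
    rw [hB, Subgroup.coe_comap]
    exact Set.Finite.preimage (Subtype.val_injective.injOn) (Set.toFinite _)
  have hMfin : Finite (B.map coEval) := by
    have : (B.map coEval : Set D).Finite := by
      rw [Subgroup.coe_map]
      exact hBfin.image _
    exact this.to_subtype
  have hmem : ∀ w ∈ K, w.right = 1 → w.left 1 ∈ B.map coEval := by
    intro w hw hw1
    exact ⟨⟨w, hw1⟩, by rw [hB]; exact hw, rfl⟩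
  have h1 : g ∈ B.map coEval := by
    have h2 := hmem _ (mul_mem hX hX) (ip_w1 g).2
    rw [(ip_w1 g).1] at h2
    exact inv_mem_iff.1 h2
  have h2 : b ∈ B.map coEval := by
    have h2 := hmem _ (mul_mem hY hY) (ip_w2 b c d).2
    rwa [(ip_w2 b c d).1] at h2
  have h3 : c ∈ B.map coEval := by
    have h2 := hmem _ (mul_mem (mul_mem (mul_mem hX hY) hX) (inv_mem hY)) (ip_w3 g b c d).2
    rwa [(ip_w3 g b c d).1] at h2
  have h4 : d ∈ B.map coEval := by
    have h2 := hmem _ (mul_mem (mul_mem (mul_mem hX hY) hY) hX) (ip_w4 g b c d).2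
    rw [(ip_w4 g b c d).1] at h2
    have h5 := mul_mem (mul_mem (inv_mem h3) h2) h1
    have h6 : c⁻¹ * (c * d * g⁻¹) * g = d := by group
    rwa [h6] at h5
  have hle : closure {g, b, c, d} ≤ B.map coEval := by
    rw [closure_le]
    rintro z (rfl | rfl | rfl | rfl)
    · exact h1
    · exact h2
    · exact h3
    · exact h4
  exact Finite.of_injective _ (inclusion_injective hle)

end

/-- **Inverted pairs and rank four.** -/
theorem ip_burnside {n q : ℕ} (hq : 2 * q ∣ n)
    (h : ∀ (G : Type) [Group G], (∀ g : G, g ^ n = 1) →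
      ∀ t x y : G, t ^ 2 = 1 → t * x * t = x⁻¹ → Finite (closure {x, y})) :
    Finite (FreeBurnside 4 q) := by
  let f : Fin 4 → FreeBurnside 4 q := fun i => QuotientGroup.mk (FreeGroup.of i)
  have h1 := ip_finite hq h (D := FreeBurnside 4 q) (burnside_pow 4 q) (f 0) (f 1) (f 2) (f 3)
  have h2 : closure {f 0, f 1, f 2, f 3} = ⊤ := by
    rw [eq_top_iff, ← burnside_closure 4 q]
    refine closure_mono ?_
    rintro _ ⟨i, rfl⟩
    fin_cases i <;> simp [f]
  rw [h2] at h1
  exact Finite.of_equiv _ Subgroup.topEquiv.toEquiv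

theorem ip_mono {r s q : ℕ} (hrs : r ≤ s) (h : Finite (FreeBurnside s q)) :
    Finite (FreeBurnside r q) := by
  classical
  let g : Fin r → FreeBurnside r q := fun i => QuotientGroup.mk (FreeGroup.of i)
  let x : Fin s → FreeBurnside r q := fun j => if hj : (j : ℕ) < r then g ⟨j, hj⟩ else 1
  let φ := burnsideLift s q (burnside_pow r q) x
  have hsurj : Function.Surjective φ := by
    rw [← MonoidHom.range_eq_top, eq_top_iff, ← burnside_closure r q, closure_le]
    rintro _ ⟨i, rfl⟩
    refine ⟨_, (burnsideLift_of s q (burnside_pow r q) x ⟨i, lt_of_lt_of_le i.2 hrs⟩).trans ?_⟩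
    exact dif_pos i.2
  exact Finite.of_surjective _ hsurj

end Pool.Agent.Lib.MP_544bd1_al
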