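import Mathlib
import Pool.Agent.Lib.MP_544bd1_al.TwL3

section

/-!
Exponents `4 * m`: conjugacy of odd elements modulo 2-subgroups.
-/

namespace Pool.Agent.Lib.MP_544bd1_al

open Subgroup

universe u v

variable {G : Type u} [Group G] {m : ℕ}

/-- the abelian step: `M` is a commutative group with `x ^ 4 = 1`, `σ` an automorphism,
`d ∈ M` with `∏_{i < m} σ^i d = 1` (`m` odd). Then `d = (σ p)⁻¹ * p` for some `p`.

Proof. Put `D i = ∏_{j < i} σ^j d`, so `D 0 = 1 = D m` and `D (i+1) = d * σ (D i)`. Let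
`e = ∏_{i < m} D i`. Then `σ e = ∏_{i < m} (d⁻¹ * D (i+1)) = d⁻¹ ^ m * e` (as `D m = D 0`), i.e.
`(σ e)⁻¹ * e = d ^ m`. With `p = e ^ m` get `(σ p)⁻¹ * p = d ^ (m * m) = d`, because
`m * m = 4 * k + 1` (`fr_tN_mod`, `fr_tN_two`). -/
theorem fr_abelian_step (hm : Odd m) {M : Type u} [CommGroup M] (hM : ∀ x : M, x ^ 4 = 1)
    (σ : MulAut M) (d : M) (hd : ∏ i ∈ Finset.range m, (σ ^ i) d = 1) :
    ∃ p : M, (σ p)⁻¹ * p = d := by
  obtain ⟨D, hD⟩ : ∃ D : ℕ → M, D = fun i => ∏ j ∈ Finset.range i, (σ ^ j) d := ⟨_, rfl⟩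
  have hD0 : D 0 = 1 := by rw [hD]; simp
  have hDm : D m = 1 := by rw [hD]; exact hd
  have hstep : ∀ i, σ (D i) = D (i + 1) * d⁻¹ := by
    intro i
    rw [hD]
    simp only
    rw [Finset.prod_range_succ', pow_zero, MulAut.one_apply, mul_inv_cancel_right, map_prod]
    refine Finset.prod_congr rfl fun j _ => ?_
    rw [pow_succ', MulAut.mul_apply]
  obtain ⟨e, he⟩ : ∃ e, e = ∏ i ∈ Finset.range m, D i := ⟨_, rfl⟩
  have he' : ∏ i ∈ Finset.range m, D (i + 1) = e := by
    have h1 := Finset.prod_range_succ D m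
    have h2 := Finset.prod_range_succ' D m
    rw [h1, hDm, mul_one, hD0, mul_one] at h2
    rw [← h2, he]
  have hσe : σ e = e * (d⁻¹) ^ m := by
    have h1 : σ e = ∏ i ∈ Finset.range m, D (i + 1) * d⁻¹ := by
      rw [he, map_prod]
      exact Finset.prod_congr rfl fun i _ => hstep i
    rw [h1, Finset.prod_mul_distrib, he', Finset.prod_const, Finset.card_range]
  have hde : (σ e)⁻¹ * e = d ^ m := by
    rw [hσe, mul_inv_rev, inv_pow, inv_inv, mul_assoc, inv_mul_cancel, mul_one]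
  refine ⟨e ^ m, ?_⟩
  rw [map_pow, ← inv_pow, ← mul_pow, hde, ← pow_mul, ← pow_two]
  exact fr_tN_two hm (hM d)

private theorem fr_conj_normal {P : Subgroup G} {t : G} (h : ∀ x ∈ P, t * x * t⁻¹ ∈ P) :
    ∀ x ∈ ⁅P, P⁆, t * x * t⁻¹ ∈ ⁅P, P⁆ := by
  intro x hx
  have h1 : P.map (MulAut.conj t).toMonoidHom ≤ P := by
    rintro _ ⟨y, hy, rfl⟩
    exact h y hy
  have h2 : (⁅P, P⁆).map (MulAut.conj t).toMonoidHom ≤ ⁅P, P⁆ := by
    rw [Subgroup.map_commutator]
    exact Subgroup.commutator_mono h1 h1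
  exact h2 ⟨x, hx, rfl⟩

private theorem fr_conj_inv_normal {P : Subgroup G} {s : G} (hm : Odd m) (hs : s ^ m = 1)
    (h : ∀ x ∈ P, s * x * s⁻¹ ∈ P) : ∀ x ∈ P, s⁻¹ * x * s ∈ P := by
  have key : ∀ k : ℕ, ∀ x ∈ P, s ^ k * x * (s ^ k)⁻¹ ∈ P := by
    intro k
    induction k with
    | zero => intro x hx; simpa using hx
    | succ k ih =>
      intro x hx
      have := h _ (ih x hx)
      have e : s * (s ^ k * x * (s ^ k)⁻¹) * s⁻¹ = s ^ (k + 1) * x * (s ^ (k + 1))⁻¹ := by
        rw [pow_succ']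
        group
      rwa [e] at this
  intro x hx
  obtain ⟨k, rfl⟩ := hm
  have e : s ^ (2 * k) = s⁻¹ := by
    rw [eq_inv_iff_mul_eq_one, ← pow_succ]
    exact hs
  have := key (2 * k) x hx
  rwa [e, inv_inv] at this

/-- odd elements congruent modulo a normalized finite 2-subgroup `P` are conjugate by an element
of `P`.

Proof. Strong induction on `Nat.card P` (for all `P`, `s`, `s'`). If `P = ⊥` take `p = 1`. Let
`D = ⁅P, P⁆ < P` (`P` is a finite 2-group, so nilpotent, and nontrivial). `σ x = s⁻¹ * x * s` is an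
automorphism of `P` (`s⁻¹ = s ^ (m-1)` normalizes `P`), mapping `D` to `D`. Put `d = s⁻¹ * s' ∈ P`.
From `(s * d) ^ m = s' ^ m = 1` and `s ^ m = 1` we get `σ^(m-1) d * ... * σ d * d = 1`. In the
abelian group `P / D` (of exponent 4) `fr_abelian_step` gives `p1 ∈ P` with
`(σ p1)⁻¹ * p1 ≡ d mod D`. Then `s1 = p1⁻¹ * s * p1 = s * ((σ p1)⁻¹ * p1)`, so `s1⁻¹ * s' ∈ D`;
`s1` is odd and normalizes `D`. By induction there is `p2 ∈ D` with `p2⁻¹ * s1 * p2 = s'`, and
`p = p1 * p2`. -/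
theorem fr_conj (hm : Odd m) (P : Subgroup G) [Finite P] (hP : ∀ x ∈ P, x ^ 4 = 1) {s s' : G}
    (hs : s ^ m = 1) (hs' : s' ^ m = 1) (hn : ∀ x ∈ P, s * x * s⁻¹ ∈ P) (h : s⁻¹ * s' ∈ P) :
    ∃ p ∈ P, p⁻¹ * s * p = s' := by
  obtain ⟨n, hn'⟩ : ∃ n, n = Nat.card P := ⟨_, rfl⟩
  induction n using Nat.strong_induction_on generalizing P s s' with
  | _ n ih =>
  by_cases hbot : P = ⊥
  · subst hbot
    refine ⟨1, one_mem _, ?_⟩
    rw [mem_bot] at h
    rw [inv_one, one_mul, mul_one]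
    exact (inv_mul_eq_one.1 h)
  have hn2 := fr_conj_inv_normal hm hs hn
  -- the automorphism
  let σ : MulAut P :=
    { toFun := fun x => ⟨s⁻¹ * x * s, hn2 x x.2⟩
      invFun := fun x => ⟨s * x * s⁻¹, hn x x.2⟩
      left_inv := fun x => Subtype.ext (by simp only; group)
      right_inv := fun x => Subtype.ext (by simp only; group)
      map_mul' := fun x y => Subtype.ext (by
        show s⁻¹ * ((x : G) * y) * s = (s⁻¹ * x * s) * (s⁻¹ * y * s)
        group) }
  have hσ : ∀ x : P, ((σ x : P) : G) = s⁻¹ * x * s := fun x => rfl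
  obtain ⟨d, hd⟩ : ∃ d : P, (d : G) = s⁻¹ * s' := ⟨⟨_, h⟩, rfl⟩
  have hsd : s * d = s' := by rw [hd, mul_inv_cancel_left]
  let σb : MulAut (Abelianization P) := MulEquiv.abelianizationCongr σ
  have hσb : ∀ x : P, σb (Abelianization.of x) = Abelianization.of (σ x) := fun x =>
    abelianizationCongr_of σ x
  have hE : ∀ k : ℕ, ∃ E : P, (s * d) ^ k = s ^ k * E ∧
      (Abelianization.of E : Abelianization P) =
        ∏ i ∈ Finset.range k, (σb ^ i) (Abelianization.of d) := by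
    intro k
    induction k with
    | zero => exact ⟨1, by simp, by simp⟩
    | succ k ihk =>
      obtain ⟨E, hE1, hE2⟩ := ihk
      refine ⟨σ E * d, ?_, ?_⟩
      · rw [pow_succ, hE1, pow_succ]
        show s ^ k * (E : G) * (s * d) = s ^ k * s * ((s⁻¹ * E * s) * d)
        group
      · rw [map_mul, ← hσb, hE2, Finset.prod_range_succ', map_prod, pow_zero, MulAut.one_apply]
        congr 1
        refine Finset.prod_congr rfl fun i _ => ?_
        rw [pow_succ', MulAut.mul_apply]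
  have hprod : ∏ i ∈ Finset.range m, (σb ^ i) (Abelianization.of d) = 1 := by
    obtain ⟨E, hE1, hE2⟩ := hE m
    rw [← hE2]
    rw [hsd, hs', hs, one_mul] at hE1
    have : E = 1 := Subtype.ext hE1.symm
    rw [this, map_one]
  have hM : ∀ x : Abelianization P, x ^ 4 = 1 := by
    intro x
    obtain ⟨y, rfl⟩ := QuotientGroup.mk_surjective x
    have hy : y ^ 4 = 1 := Subtype.ext (by simpa using hP y y.2)
    have := congrArg (Abelianization.of (G := P)) hy
    rw [map_pow, map_one] at this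
    exact this
  obtain ⟨pb, hpb⟩ := fr_abelian_step hm hM σb (Abelianization.of d) hprod
  obtain ⟨p1, rfl⟩ := QuotientGroup.mk_surjective pb
  have hmem : ((σ p1)⁻¹ * p1)⁻¹ * d ∈ commutator P := by
    have h1 : Abelianization.of ((σ p1)⁻¹ * p1) = Abelianization.of d := by
      rw [map_mul, map_inv, ← hσb]
      exact hpb
    exact QuotientGroup.eq.1 h1
  have hD : ⁅P, P⁆ ≤ P := Subgroup.commutator_le_self P
  have hmemG : ((p1 : G)⁻¹ * s * p1)⁻¹ * s' ∈ ⁅P, P⁆ := by
    rw [← Subgroup.map_subtype_commutator]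
    refine ⟨_, hmem, ?_⟩
    show (((s⁻¹ * (p1 : G) * s)⁻¹ * p1)⁻¹ * d) = _
    rw [← hsd]
    group
  have hs1 : ((p1 : G)⁻¹ * s * p1) ^ m = 1 := by
    have : (p1 : G)⁻¹ * s * p1 = (p1 : G)⁻¹ * s * ((p1 : G)⁻¹)⁻¹ := by rw [inv_inv]
    rw [this, conj_pow, hs, mul_one, mul_inv_cancel]
  have hn1 : ∀ x ∈ P, ((p1 : G)⁻¹ * s * p1) * x * ((p1 : G)⁻¹ * s * p1)⁻¹ ∈ P := by
    intro x hx
    have e : ((p1 : G)⁻¹ * s * p1) * x * ((p1 : G)⁻¹ * s * p1)⁻¹ =
        (p1 : G)⁻¹ * (s * ((p1 : G) * x * (p1 : G)⁻¹) * s⁻¹) * p1 := by group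
    rw [e]
    exact P.mul_mem (P.mul_mem (P.inv_mem p1.2)
      (hn _ (P.mul_mem (P.mul_mem p1.2 hx) (P.inv_mem p1.2)))) p1.2
  have hfin : Finite ↥⁅P, P⁆ := Finite.of_injective _ (Subgroup.inclusion_injective hD)
  have hlt : Nat.card ↥⁅P, P⁆ < n := by
    rw [hn']
    by_contra hcon
    have heq : ⁅P, P⁆ = P := Subgroup.eq_of_le_of_card_ge hD (not_lt.1 hcon)
    have hpg : IsPGroup 2 P := by
      intro x
      exact ⟨2, Subtype.ext (by simpa using hP x x.2)⟩
    have : Group.IsNilpotent P := hpg.isNilpotent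
    have : Nontrivial P := (Subgroup.nontrivial_iff_ne_bot P).2 hbot
    have h3 : commutator P < ⊤ := Group.IsSolvable.commutator_lt_top_of_nontrivial P
    apply h3.ne
    apply Subgroup.map_injective P.subtype_injective
    rw [Subgroup.map_subtype_commutator, heq, ← MonoidHom.range_eq_map, Subgroup.range_subtype]
  obtain ⟨p2, hp2, hp2'⟩ := ih _ hlt ⁅P, P⁆ (fun x hx => hP x (hD hx)) hs1 hs'
    (fr_conj_normal hn1) hmemG rfl
  refine ⟨p1 * p2, P.mul_mem p1.2 (hD hp2), ?_⟩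
  rw [← hp2']
  group

/-- lifting a commuting relation with an odd element through a finite normal 2-subgroup: if
`s` is odd and `g` commutes with `s` modulo `P`, then some element of `g * P` commutes with `s`.

Proof. `s' = g⁻¹ * s * g` is odd and `s⁻¹ * s' ∈ P`. By `fr_conj` `p⁻¹ * s * p = s'` for some
`p ∈ P`, so `g * p⁻¹` commutes with `s`; it is in `g * P`. -/
theorem fr_lift_comm_two (hm : Odd m) (P : Subgroup G) [Finite P] (hP : ∀ x ∈ P, x ^ 4 = 1)
    {s g : G} (hs : s ^ m = 1) (hn : ∀ x ∈ P, s * x * s⁻¹ ∈ P)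
    (h : s⁻¹ * (g⁻¹ * s * g) ∈ P) : ∃ p ∈ P, s * (g * p) = (g * p) * s := by
  have hs' : (g⁻¹ * s * g) ^ m = 1 := by
    have : g⁻¹ * s * g = g⁻¹ * s * (g⁻¹)⁻¹ := by rw [inv_inv]
    rw [this, conj_pow, hs, mul_one, mul_inv_cancel]
  obtain ⟨p, hp, hps⟩ := fr_conj hm P hP hs hs' hn h
  refine ⟨p⁻¹, P.inv_mem hp, ?_⟩
  have h1 : s * (g * p⁻¹) = g * (g⁻¹ * s * g) * p⁻¹ := by group
  rw [h1, ← hps]
  group

end Pool.Agent.Lib.MP_544bd1_al
end

section

/-!
Exponents `4 * m`: the A x B lemma for an involution and a commuting odd element.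
-/

namespace Pool.Agent.Lib.MP_544bd1_al

open Subgroup

universe u v

variable {G : Type u} [Group G] {m : ℕ}

/-- coprime action, twice trivial: if the odd element `s` commutes with all `x⁻¹ * (s * x * s⁻¹)`,
`x ∈ P`, then it centralizes the 2-group `P`.

Proof. `s * x * s⁻¹ = x * d` with `d ∈ P` commuting with `s`; so `s ^ k * x * (s ^ k)⁻¹ = x * d ^ k`
and for `k = m`: `d ^ m = 1`; `d ^ 4 = 1`; so `d = 1` (`fr_one`). -/
theorem fr_coprime_trivial (hm : Odd m) (P : Subgroup G) (hP : ∀ x ∈ P, x ^ 4 = 1) {s : G}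
    (hs : s ^ m = 1) (hn : ∀ x ∈ P, s * x * s⁻¹ ∈ P)
    (h : ∀ x ∈ P, s * (x⁻¹ * (s * x * s⁻¹)) = (x⁻¹ * (s * x * s⁻¹)) * s) :
    ∀ x ∈ P, s * x = x * s := by
  intro x hx
  obtain ⟨d, hd⟩ : ∃ d, d = x⁻¹ * (s * x * s⁻¹) := ⟨_, rfl⟩
  have hdP : d ∈ P := by
    rw [hd]
    exact P.mul_mem (P.inv_mem hx) (hn x hx)
  have hsd : s * d = d * s := by
    rw [hd]
    exact h x hx
  have hsx : s * x * s⁻¹ = x * d := by rw [hd]; group
  have key : ∀ k : ℕ, s ^ k * x * (s ^ k)⁻¹ = x * d ^ k := by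
    intro k
    induction k with
    | zero => simp
    | succ k ih =>
      have h1 : s ^ (k + 1) * x * (s ^ (k + 1))⁻¹ = s * (s ^ k * x * (s ^ k)⁻¹) * s⁻¹ := by
        rw [pow_succ' s]; group
      rw [h1, ih]
      have h2 : s * d ^ k = d ^ k * s := ((show Commute s d from hsd).pow_right k).eq
      calc s * (x * d ^ k) * s⁻¹ = (s * x * s⁻¹) * (s * d ^ k) * s⁻¹ := by group
        _ = x * d * (d ^ k * s) * s⁻¹ := by rw [hsx, h2]
        _ = x * d ^ (k + 1) := by rw [pow_succ' d]; group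
  have h1 := key m
  rw [hs, inv_one, mul_one, one_mul] at h1
  have h2 : d ^ m = 1 := by
    have : x * 1 = x * d ^ m := by rw [mul_one]; exact h1
    exact (mul_left_cancel this).symm
  have h3 : d = 1 := fr_one hm h2 (hP d hdP)
  rw [h3, mul_one] at hsx
  calc s * x = (s * x * s⁻¹) * s := by group
    _ = x * s := by rw [hsx]

/-- powers of an element of finite order normalize what the element normalizes -/
theorem fr_comm_proper_zn {Q : Subgroup G} {g : G} {N : ℕ} (hN : 0 < N) (hg : g ^ N = 1)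
    (hn : ∀ q ∈ Q, g * q * g⁻¹ ∈ Q) : ∀ z ∈ zpowers g, ∀ q ∈ Q, z * q * z⁻¹ ∈ Q := by
  intro z hz q hq
  have hf : IsOfFinOrder g := isOfFinOrder_iff_pow_eq_one.2 ⟨N, hN, hg⟩
  rw [← hf.mem_powers_iff_mem_zpowers] at hz
  obtain ⟨k, rfl⟩ := hz
  have : ∀ k : ℕ, g ^ k * q * (g ^ k)⁻¹ ∈ Q := by
    intro k
    induction k with
    | zero => simpa using hq
    | succ k ih =>
      have h1 : g ^ (k + 1) * q * (g ^ (k + 1))⁻¹ = g * (g ^ k * q * (g ^ k)⁻¹) * g⁻¹ := by
        rw [pow_succ' g]; group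
      rw [h1]
      exact hn _ ih
  exact this k

/-- commutator subgroups of normalized subgroups are normalized -/
theorem fr_comm_proper_norm {Q Z : Subgroup G} {g : G} (hQ : ∀ q ∈ Q, g * q * g⁻¹ ∈ Q)
    (hZ : ∀ z ∈ Z, g * z * g⁻¹ ∈ Z) : ∀ d ∈ ⁅Q, Z⁆, g * d * g⁻¹ ∈ ⁅Q, Z⁆ := by
  have h1 : ⁅Q, Z⁆ ≤ (⁅Q, Z⁆).comap (MulAut.conj g).toMonoidHom := by
    rw [Subgroup.commutator_le]
    intro a ha b hb
    rw [Subgroup.mem_comap, map_commutatorElement]
    apply Subgroup.commutator_mem_commutator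
    · exact hQ a ha
    · exact hZ b hb
  intro d hd
  exact h1 hd

/-- in a finite 2-group `P` normalized by a 2-element `x` (`x ^ 4 = 1`), `P ≠ ⊥`, the subgroup
`⁅P, zpowers x⁆` is proper.

Proof. `T = P ⊔ zpowers x` is a finite 2-group (`T / P` is generated by the image of `x`; in terms of
powers: every element of `T` is `p * x ^ k` with `p ∈ P`; `T` is finite and every element has 2-power
order), so nilpotent. If `⁅P, zpowers x⁆ = P` then (inside `T`, `P` is normal) `P ≤ ⁅P, T⁆`, by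
induction `P ≤ lowerCentralSeries T k` for all `k`, so `P = ⊥`. -/
theorem fr_comm_proper (P : Subgroup G) [Finite P] (hP : ∀ x ∈ P, x ^ 4 = 1) {x : G}
    (hx : x ^ 4 = 1) (hn : ∀ p ∈ P, x * p * x⁻¹ ∈ P) (hne : P ≠ ⊥) :
    ⁅P, zpowers x⁆ ≠ P := by
  classical
  intro heq
  apply hne
  have hz := fr_comm_proper_zn (by norm_num : 0 < 4) hx hn
  -- the subgroup `P * zpowers x`
  let T : Subgroup G :=
    { carrier := {g | ∃ z ∈ zpowers x, g * z⁻¹ ∈ P}
      one_mem' := ⟨1, (zpowers x).one_mem, by simp [P.one_mem]⟩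
      mul_mem' := by
        rintro a b ⟨y, hy, hay⟩ ⟨z, hz', hbz⟩
        refine ⟨y * z, (zpowers x).mul_mem hy hz', ?_⟩
        have h1 : a * b * (y * z)⁻¹ = (a * y⁻¹) * (y * (b * z⁻¹) * y⁻¹) := by group
        rw [h1]
        exact P.mul_mem hay (hz y hy _ hbz)
      inv_mem' := by
        rintro a ⟨y, hy, hay⟩
        refine ⟨y⁻¹, (zpowers x).inv_mem hy, ?_⟩
        have h1 : a⁻¹ * (y⁻¹)⁻¹ = y⁻¹ * (a * y⁻¹)⁻¹ * (y⁻¹)⁻¹ := by group
        rw [h1]
        exact hz _ ((zpowers x).inv_mem hy) _ (P.inv_mem hay) }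
  have hPT : P ≤ T := fun p hp => ⟨1, (zpowers x).one_mem, by simpa using hp⟩
  have hxT : zpowers x ≤ T := fun z hz' => ⟨z, hz', by simp [P.one_mem]⟩
  have hfo : IsOfFinOrder x := isOfFinOrder_iff_pow_eq_one.2 ⟨4, by norm_num, hx⟩
  have hfz : Finite (zpowers x) := by
    exact finite_zpowers.2 hfo
  have hTfin : (T : Set G).Finite := by
    have h1 : ((P : Set G) ×ˢ (zpowers x : Set G)).Finite :=
      (Set.toFinite (P : Set G)).prod (Set.toFinite (zpowers x : Set G))
    refine (h1.image (fun q : G × G => q.1 * q.2)).subset ?_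
    rintro g ⟨z, hz', hg⟩
    exact ⟨(g * z⁻¹, z), ⟨hg, hz'⟩, by simp⟩
  have hTf : Finite T := hTfin
  have hT16 : ∀ g ∈ T, g ^ 16 = 1 := by
    rintro g ⟨z, hz', hg⟩
    have key : ∀ j : ℕ, g ^ j * (z ^ j)⁻¹ ∈ P := by
      intro j
      induction j with
      | zero => simp [P.one_mem]
      | succ j ih =>
        have h1 : g ^ (j + 1) * (z ^ (j + 1))⁻¹
            = (g * z⁻¹) * (z * (g ^ j * (z ^ j)⁻¹) * z⁻¹) := by
          rw [pow_succ' g, pow_succ' z]; group
        rw [h1]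
        exact P.mul_mem hg (hz z hz' _ ih)
    have hz4 : z ^ 4 = 1 := by
      obtain ⟨k, rfl⟩ := hz'
      rw [← zpow_natCast, ← zpow_mul, mul_comm, zpow_mul, zpow_natCast, hx, one_zpow]
    have h1 := hP _ (key 4)
    rw [hz4, inv_one, mul_one, ← pow_mul] at h1
    exact h1
  have hTp : IsPGroup 2 T := by
    intro g
    refine ⟨4, ?_⟩
    apply Subtype.ext
    have := hT16 g g.2
    simpa using this
  have : Fact (Nat.Prime 2) := ⟨Nat.prime_two⟩
  have hnil : Group.IsNilpotent T := hTp.isNilpotent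
  set N : Subgroup T := P.subgroupOf T with hN
  set Z : Subgroup T := (zpowers x).subgroupOf T with hZ
  have hNZ : ⁅N, Z⁆ = N := by
    apply Subgroup.map_injective T.subtype_injective
    rw [Subgroup.map_commutator, hN, hZ, Subgroup.map_subgroupOf_eq_of_le hPT,
      Subgroup.map_subgroupOf_eq_of_le hxT, heq]
  have hlow : ∀ k : ℕ, N ≤ (⊤ : Subgroup T).lowerCentralSeries k := by
    intro k
    induction k with
    | zero => exact le_top
    | succ k ih =>
      rw [← hNZ]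
      exact Subgroup.commutator_mono ih le_top
  have hNbot : N = ⊥ := by
    obtain ⟨k, hk⟩ := Subgroup.nilpotent_iff_lowerCentralSeries.1 hnil
    rw [eq_bot_iff, ← hk]
    exact hlow _
  rw [hN, Subgroup.subgroupOf_eq_bot, disjoint_iff] at hNbot
  rw [← hNbot]
  exact (inf_eq_left.2 hPT).symm

/-- **A x B lemma.** `x` an involution, `s` odd, commuting, both normalizing the finite 2-group `P`.
If `s` centralizes `C_P(x)` then `s` centralizes `P`.

Proof. Suppose not. Let `Q ≤ P` be a subgroup of minimal order normalized by `x` and `s` and not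
centralized by `s`. `⁅Q, zpowers s⁆ ≤ Q` is normalized by `x`, `s` (and `Q`); if it is proper, it is
centralized by `s`, and then `fr_coprime_trivial` shows that `s` centralizes `Q`; so
`⁅Q, zpowers s⁆ = Q`. `⁅Q, zpowers x⁆` is normalized by `x` and `s` (they commute) and proper in `Q`
(`fr_comm_proper`), so it is centralized by `s`: `⁅⁅Q, zpowers x⁆, zpowers s⁆ = ⊥`. Also
`⁅⁅zpowers x, zpowers s⁆, Q⁆ = ⊥`. By the three subgroups lemma
(`Subgroup.commutator_commutator_eq_bot_of_rotate`) `⁅⁅zpowers s, Q⁆, zpowers x⁆ = ⊥`, i.e. `x`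
centralizes `⁅Q, zpowers s⁆ = Q`. Then `Q ≤ C_P(x)` is centralized by `s`. Contradiction. -/
theorem fr_AB (hm : Odd m) (P : Subgroup G) [Finite P] (hP : ∀ x ∈ P, x ^ 4 = 1) {x s : G}
    (hx : x ^ 2 = 1) (hs : s ^ m = 1) (hxs : x * s = s * x) (hnx : ∀ p ∈ P, x * p * x⁻¹ ∈ P)
    (hns : ∀ p ∈ P, s * p * s⁻¹ ∈ P) (h : ∀ p ∈ P, x * p = p * x → s * p = p * s) :
    ∀ p ∈ P, s * p = p * s := by
  have hmpos : 0 < m := by
    obtain ⟨k, hk⟩ := hm
    omega
  have hx4 : x ^ 4 = 1 := by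
    have : x ^ 4 = (x ^ 2) ^ 2 := by rw [← pow_mul]
    rw [this, hx, one_pow]
  have hcxs : Commute x s := hxs
  have main : ∀ n : ℕ, ∀ Q : Subgroup G, Q ≤ P → Nat.card Q ≤ n →
      (∀ q ∈ Q, x * q * x⁻¹ ∈ Q) → (∀ q ∈ Q, s * q * s⁻¹ ∈ Q) → ∀ q ∈ Q, s * q = q * s := by
    intro n
    induction n with
    | zero =>
      intro Q hQ hc
      have : Finite Q := Finite.of_injective _ (Subgroup.inclusion_injective hQ)
      have := Nat.card_pos (α := Q)
      omega
    | succ n ih =>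
      intro Q hQ hc hQx hQs
      have : Finite Q := Finite.of_injective _ (Subgroup.inclusion_injective hQ)
      have hQ4 : ∀ q ∈ Q, q ^ 4 = 1 := fun q hq => hP q (hQ hq)
      -- a proper subgroup has smaller cardinality
      have hlt : ∀ D : Subgroup G, D ≤ Q → D ≠ Q → Nat.card D ≤ n := by
        intro D hD hDQ
        have h1 : Nat.card D < Nat.card Q := by
          apply Set.ncard_lt_ncard _ (Set.toFinite (Q : Set G))
          exact lt_of_le_of_ne hD (fun h => hDQ (SetLike.coe_injective h))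
        omega
      have hxz : ∀ z ∈ zpowers s, x * z * x⁻¹ ∈ zpowers s := by
        rintro z ⟨k, rfl⟩
        have h1 : x * s ^ k * x⁻¹ = s ^ k := by
          rw [(hcxs.zpow_right k).eq]; group
        rw [h1]
        exact ⟨k, rfl⟩
      have hsz : ∀ z ∈ zpowers s, s * z * s⁻¹ ∈ zpowers s := by
        rintro z ⟨k, rfl⟩
        have h1 : s * s ^ k * s⁻¹ = s ^ k := by group
        rw [h1]
        exact ⟨k, rfl⟩
      have hxz' : ∀ z ∈ zpowers x, x * z * x⁻¹ ∈ zpowers x := by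
        rintro z ⟨k, rfl⟩
        have h1 : x * x ^ k * x⁻¹ = x ^ k := by group
        rw [h1]
        exact ⟨k, rfl⟩
      have hsz' : ∀ z ∈ zpowers x, s * z * s⁻¹ ∈ zpowers x := by
        rintro z ⟨k, rfl⟩
        have h1 : s * x ^ k * s⁻¹ = x ^ k := by
          rw [(hcxs.symm.zpow_right k).eq]; group
        rw [h1]
        exact ⟨k, rfl⟩
      have hQzs := fr_comm_proper_zn hmpos hs hQs
      have hQzx := fr_comm_proper_zn (by norm_num : 0 < 4) hx4 hQx
      have hle : ∀ Z : Subgroup G, (∀ z ∈ Z, ∀ q ∈ Q, z * q * z⁻¹ ∈ Q) → ⁅Q, Z⁆ ≤ Q := by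
        intro Z hZ
        rw [Subgroup.commutator_le]
        intro q hq z hz
        rw [commutatorElement_def]
        have h1 : q * z * q⁻¹ * z⁻¹ = q * (z * q⁻¹ * z⁻¹) := by group
        rw [h1]
        exact Q.mul_mem hq (hZ z hz _ (Q.inv_mem hq))
      by_cases hD : ⁅Q, zpowers s⁆ = Q
      · by_cases hbot : Q = ⊥
        · intro q hq
          rw [hbot, mem_bot] at hq
          rw [hq, mul_one, one_mul]
        · have hR : ⁅Q, zpowers x⁆ ≠ Q := fr_comm_proper Q hQ4 hx4 hQx hbot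
          have hRQ := hle (zpowers x) hQzx
          have hRs := ih ⁅Q, zpowers x⁆ (hRQ.trans hQ) (hlt _ hRQ hR)
            (fr_comm_proper_norm hQx hxz') (fr_comm_proper_norm hQs hsz')
          have h1 : ⁅⁅Q, zpowers x⁆, zpowers s⁆ = ⊥ := by
            rw [Subgroup.commutator_eq_bot_iff_le_centralizer]
            intro r hr
            rw [Subgroup.mem_centralizer_iff]
            rintro _ ⟨k, rfl⟩
            exact ((show Commute s r from hRs r hr).zpow_left k).eq
          have h2 : ⁅⁅zpowers x, zpowers s⁆, Q⁆ = ⊥ := by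
            have h3 : ⁅zpowers x, zpowers s⁆ = ⊥ := by
              rw [Subgroup.commutator_eq_bot_iff_le_centralizer]
              rintro _ ⟨k, rfl⟩
              rw [Subgroup.mem_centralizer_iff]
              rintro _ ⟨l, rfl⟩
              exact ((hcxs.symm.zpow_left l).zpow_right k).eq
            rw [h3, Subgroup.commutator_bot_left]
          have h3 : ⁅⁅zpowers s, Q⁆, zpowers x⁆ = ⊥ := by
            apply Subgroup.commutator_commutator_eq_bot_of_rotate
            · exact h1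
            · exact h2
          rw [Subgroup.commutator_comm (zpowers s) Q, hD,
            Subgroup.commutator_eq_bot_iff_le_centralizer] at h3
          intro q hq
          apply h q (hQ hq)
          have h4 := h3 hq
          rw [Subgroup.mem_centralizer_iff] at h4
          exact h4 x (mem_zpowers x)
      · have hDQ := hle (zpowers s) hQzs
        have hDs := ih ⁅Q, zpowers s⁆ (hDQ.trans hQ) (hlt _ hDQ hD)
          (fr_comm_proper_norm hQx hxz) (fr_comm_proper_norm hQs hsz)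
        apply fr_coprime_trivial hm Q hQ4 hs hQs
        intro y hy
        apply hDs
        have h1 := Subgroup.commutator_mem_commutator (Q.inv_mem hy) (mem_zpowers s)
        rw [commutatorElement_def] at h1
        have h2 : y⁻¹ * (s * y * s⁻¹) = y⁻¹ * s * (y⁻¹)⁻¹ * s⁻¹ := by group
        rw [h2]
        exact h1
  exact main (Nat.card P) P le_rfl le_rfl hnx hns

end Pool.Agent.Lib.MP_544bd1_al
end

section

/-!
Exponents `4 * m`: the subgroup generated by the squares of a 2-group.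
-/

namespace Pool.Agent.Lib.MP_544bd1_al

open Subgroup

universe u v

variable {G : Type u} [Group G] {m : ℕ}

/-- the subgroup generated by the squares of the elements of `P` -/
def sqs (P : Subgroup G) : Subgroup G := closure {y | ∃ z ∈ P, z ^ 2 = y}

theorem sqs_le (P : Subgroup G) : sqs P ≤ P := by
  rw [sqs, Subgroup.closure_le]
  rintro y ⟨z, hz, rfl⟩
  exact P.pow_mem hz 2

theorem sq_mem_sqs {P : Subgroup G} {x : G} (hx : x ∈ P) : x ^ 2 ∈ sqs P :=
  subset_closure ⟨x, hx, rfl⟩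

/-- commutators are products of squares: `a⁻¹ * b⁻¹ * a * b = (a⁻¹) ^ 2 * (a * b⁻¹) ^ 2 * b ^ 2` -/
theorem comm_mem_sqs {P : Subgroup G} {a b : G} (ha : a ∈ P) (hb : b ∈ P) :
    a⁻¹ * b⁻¹ * a * b ∈ sqs P := by
  have h1 : a⁻¹ * b⁻¹ * a * b = (a⁻¹) ^ 2 * (a * b⁻¹) ^ 2 * b ^ 2 := by
    simp only [pow_two]; group
  rw [h1]
  exact (sqs P).mul_mem ((sqs P).mul_mem (sq_mem_sqs (P.inv_mem ha))
    (sq_mem_sqs (P.mul_mem ha (P.inv_mem hb)))) (sq_mem_sqs hb)

theorem sqs_conj {P : Subgroup G} {g : G} (hg : ∀ x ∈ P, g * x * g⁻¹ ∈ P) :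
    ∀ x ∈ sqs P, g * x * g⁻¹ ∈ sqs P := by
  intro x hx
  rw [sqs] at hx
  induction hx using closure_induction with
  | mem x hx =>
    obtain ⟨z, hz, rfl⟩ := hx
    rw [← conj_pow]
    exact sq_mem_sqs (hg z hz)
  | one => simp [(sqs P).one_mem]
  | mul a b _ _ iha ihb =>
    have : g * (a * b) * g⁻¹ = (g * a * g⁻¹) * (g * b * g⁻¹) := by group
    rw [this]; exact (sqs P).mul_mem iha ihb
  | inv a _ ih =>
    have : g * a⁻¹ * g⁻¹ = (g * a * g⁻¹)⁻¹ := by group
    rw [this]; exact (sqs P).inv_mem ih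

/-- maximal subgroups of finite 2-groups contain all squares -/
private theorem fr_frattini_coatom {P : Type u} [Group P] [Finite P]
    (hP : IsPGroup 2 P) (M : Subgroup P) (hM : IsCoatom M) (y : P) : y ^ 2 ∈ M := by
  have : Fact (Nat.Prime 2) := ⟨Nat.prime_two⟩
  have hnil : Group.IsNilpotent P := hP.isNilpotent
  have hMn : M.Normal :=
    Subgroup.NormalizerCondition.normal_of_coatom M Group.normalizerCondition_of_isNilpotent hM
  have key : ∀ z : P ⧸ M, z ≠ 1 → Subgroup.zpowers z = ⊤ := by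
    intro z hz
    have h1 : M < (Subgroup.zpowers z).comap (QuotientGroup.mk' M) := by
      obtain ⟨w, rfl⟩ := QuotientGroup.mk_surjective z
      refine lt_of_le_of_ne ?_ ?_
      · intro m hm
        rw [Subgroup.mem_comap]
        have : (QuotientGroup.mk' M) m = 1 := (QuotientGroup.eq_one_iff m).mpr hm
        rw [this]
        exact one_mem _
      · intro h
        apply hz
        rw [QuotientGroup.eq_one_iff, h, Subgroup.mem_comap]
        exact Subgroup.mem_zpowers _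
    have h2 := hM.2 _ h1
    rw [eq_top_iff]
    rintro w -
    obtain ⟨v, rfl⟩ := QuotientGroup.mk_surjective w
    have : v ∈ (Subgroup.zpowers z).comap (QuotientGroup.mk' M) := by rw [h2]; trivial
    exact this
  have hQ : IsPGroup 2 (P ⧸ M) := hP.to_quotient M
  by_contra hy
  have h1 : ((y : P) : P ⧸ M) ^ 2 ≠ 1 := by
    rw [← QuotientGroup.mk_pow]
    intro h
    exact hy ((QuotientGroup.eq_one_iff _).mp h)
  have h2 : ((y : P) : P ⧸ M) ≠ 1 := by
    intro h
    apply h1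
    rw [h, one_pow]
  have h3 := key _ h1
  have h4 := key _ h2
  have h5 : orderOf (((y : P) : P ⧸ M) ^ 2) = orderOf ((y : P) : P ⧸ M) := by
    rw [← Nat.card_zpowers, ← Nat.card_zpowers, h3, h4]
  have h6 : 2 ∣ orderOf ((y : P) : P ⧸ M) := by
    obtain ⟨k, hk⟩ := (IsPGroup.iff_orderOf.mp hQ) ((y : P) : P ⧸ M)
    rw [hk]
    rcases Nat.eq_zero_or_pos k with h | h
    · exfalso
      rw [h, pow_zero, orderOf_eq_one_iff] at hk
      exact h2 hk
    · exact dvd_pow_self 2 h.ne'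
  have h7 : 0 < orderOf ((y : P) : P ⧸ M) := orderOf_pos _
  rw [orderOf_pow_of_dvd (by norm_num) h6] at h5
  have h8 := Nat.div_lt_self h7 (by norm_num : 1 < 2)
  omega

/-- `sqs P` consists of non-generators of the finite 2-group `P`.

Proof. Suppose `C ≠ P`. In the finite nilpotent group `P` (`IsPGroup 2`) the proper subgroup
`C.subgroupOf P` is contained in a coatom `H`, which is normal (`NormalizerCondition.normal_of_coatom`)
and the quotient `P ⧸ H` has no proper nontrivial subgroups and is a 2-group, so it has order 2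
(or: `P ⧸ H` is a nontrivial 2-group; an element of order 2 of it generates a nontrivial subgroup,
which is everything). So `x ^ 2 ∈ H` for all `x ∈ P`, hence `sqs P ≤ H` and `P ≤ C * sqs P ≤ H`,
contradiction. -/
theorem fr_frattini (P : Subgroup G) [Finite P] (hP : ∀ x ∈ P, x ^ 4 = 1) (C : Subgroup G)
    (hC : C ≤ P) (h : ∀ x ∈ P, ∃ c ∈ C, ∃ f ∈ sqs P, x = c * f) : C = P := by
  by_contra hne
  have hpg : IsPGroup 2 P := fun g => ⟨2, Subtype.ext (by simpa using hP g g.2)⟩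
  have hC' : C.subgroupOf P ≠ ⊤ := by
    intro htop
    apply hne
    apply le_antisymm hC
    intro x hx
    have : (⟨x, hx⟩ : P) ∈ C.subgroupOf P := by rw [htop]; trivial
    exact this
  obtain ⟨H, hH, hCH⟩ := (IsCoatomic.eq_top_or_exists_le_coatom (C.subgroupOf P)).resolve_left hC'
  have hsq : sqs P ≤ H.map P.subtype := by
    rw [sqs, Subgroup.closure_le]
    rintro y ⟨z, hz, rfl⟩
    exact ⟨⟨z, hz⟩ ^ 2, fr_frattini_coatom hpg H hH _, rfl⟩
  apply hH.1
  rw [eq_top_iff]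
  rintro ⟨x, hx⟩ -
  obtain ⟨c, hc, f, hf, hxe⟩ := h x hx
  obtain ⟨f', hf', rfl⟩ := hsq hf
  have h1 : (⟨c, hC hc⟩ : P) ∈ H := hCH hc
  have h2 := H.mul_mem h1 hf'
  have h3 : (⟨x, hx⟩ : P) = ⟨c, hC hc⟩ * f' := Subtype.ext hxe
  rw [h3]
  exact h2

/-- `sqs P` is a proper subgroup if `P ≠ ⊥` (take `C = ⊥` in `fr_frattini`) -/
theorem sqs_ne (P : Subgroup G) [Finite P] (hP : ∀ x ∈ P, x ^ 4 = 1) (hne : P ≠ ⊥) :
    sqs P ≠ P := by
  intro h
  apply hne
  have := fr_frattini P hP ⊥ bot_le (fun x hx => ⟨1, mem_bot.2 rfl, x, by rwa [h], by simp⟩)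
  exact this.symm

/-- an odd element acting trivially on `P` modulo `sqs P` acts trivially on `P`.

Proof. `C = {x ∈ P | s * x = x * s}`. Let `x ∈ P`. `s' = x⁻¹ * s * x` is odd and
`s⁻¹ * s' = (s⁻¹ * x⁻¹ * s) * x ∈ sqs P`: indeed from `h` for `y = s⁻¹ * x * s ∈ P`
(`s⁻¹ = s ^ (m-1)` normalizes `P`) `y⁻¹ * (s * y * s⁻¹) = y⁻¹ * x ∈ sqs P`, and
`y⁻¹ = s⁻¹ * x⁻¹ * s`. So `fr_lift_comm_two` with `P := sqs P`, `g := x` gives `f ∈ sqs P` such that
`x * f` commutes with `s`: `x = (x * f) * f⁻¹ ∈ C * sqs P`. Now `fr_frattini`. -/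
theorem fr_sq_trivial (hm : Odd m) (P : Subgroup G) [Finite P] (hP : ∀ x ∈ P, x ^ 4 = 1) {s : G}
    (hs : s ^ m = 1) (hn : ∀ x ∈ P, s * x * s⁻¹ ∈ P)
    (h : ∀ x ∈ P, x⁻¹ * (s * x * s⁻¹) ∈ sqs P) : ∀ x ∈ P, s * x = x * s := by
  have hmpos : 0 < m := hm.pos
  have hn' : ∀ k : ℕ, ∀ x ∈ P, s ^ k * x * (s ^ k)⁻¹ ∈ P := by
    intro k
    induction k with
    | zero => intro x hx; simpa using hx
    | succ k ih =>
      intro x hx
      have h1 := hn _ (ih x hx)
      have h2 : s * (s ^ k * x * (s ^ k)⁻¹) * s⁻¹ = s ^ (k + 1) * x * (s ^ (k + 1))⁻¹ := by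
        rw [pow_succ', mul_inv_rev]
        group
      rwa [h2] at h1
  have hinv : s ^ (m - 1) = s⁻¹ := by
    rw [eq_inv_iff_mul_eq_one, ← pow_succ, Nat.sub_add_cancel hmpos, hs]
  have hfin : Finite (sqs P) := Finite.of_injective (Subgroup.inclusion (sqs_le P))
    (Subgroup.inclusion_injective _)
  have hC : P ⊓ Subgroup.centralizer {s} = P := by
    apply fr_frattini P hP _ inf_le_left
    intro x hx
    have hy : s⁻¹ * x * s ∈ P := by
      have := hn' (m - 1) x hx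
      rwa [hinv, inv_inv] at this
    have h1 := h _ hy
    have h2 : s⁻¹ * (x⁻¹ * s * x) ∈ sqs P := by
      have e : (s⁻¹ * x * s)⁻¹ * (s * (s⁻¹ * x * s) * s⁻¹) = s⁻¹ * (x⁻¹ * s * x) := by group
      rwa [e] at h1
    obtain ⟨f, hf, hf2⟩ := fr_lift_comm_two hm (sqs P) (fun x hx => hP x (sqs_le P hx)) hs
      (sqs_conj hn) h2
    refine ⟨x * f, ⟨P.mul_mem hx (sqs_le P hf), ?_⟩, f⁻¹, (sqs P).inv_mem hf, by group⟩
    show x * f ∈ Subgroup.centralizer {s}
    rw [Subgroup.mem_centralizer_iff]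
    intro y hy
    rw [Set.mem_singleton_iff.mp hy]
    exact hf2
  intro x hx
  rw [← hC] at hx
  have h3 := Subgroup.mem_centralizer_iff.mp hx.2 s (Set.mem_singleton s)
  exact h3

end Pool.Agent.Lib.MP_544bd1_al
end

section

/-!
Exponents `4 * m`: irreducible dihedral configurations `V ⟨x, y⟩`.
-/

namespace Pool.Agent.Lib.MP_544bd1_al

open Subgroup

universe u v

/-- the configuration: the involution `x` inverts the odd element `y`, both normalize the
elementary abelian 2-group `V`, irreducibly, and `x` acts nontrivially on `V`. -/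
structure SConf (m : ℕ) {G : Type u} [Group G] (x y : G) (V : Subgroup G) : Prop where
  hx : x ^ 2 = 1
  hy : y ^ m = 1
  hxy : x * y * x = y⁻¹
  sq : ∀ v ∈ V, v ^ 2 = 1
  nx : ∀ v ∈ V, x * v * x ∈ V
  ny : ∀ v ∈ V, y * v * y⁻¹ ∈ V
  irr : ∀ W : Subgroup G, W ≤ V → (∀ w ∈ W, x * w * x ∈ W) → (∀ w ∈ W, y * w * y⁻¹ ∈ W) →
    W = ⊥ ∨ W = V
  act : ∃ v ∈ V, x * v * x ≠ v

end Pool.Agent.Lib.MP_544bd1_al
end
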