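import Mathlib
import Pool.Agent.Lib.MP_544bd1_al.TwL3
import Pool.Agent.Lib.MP_544bd1_al.FrL0
import Pool.Agent.Lib.MP_544bd1_al.FrB

section

/-!
Exponents `4 * m`: the averaging lemma.
-/

namespace Pool.Agent.Lib.MP_544bd1_al

open Subgroup

universe u v

/-- **Averaging lemma.** `M` an elementary abelian 2-group, `A` a finite abelian group of
automorphisms of odd exponent, normalized by `u`, and `u ^ 2` inverts `A`. If for all `a ∈ A` the
product of `x` and its images under `u * a`, `(u * a) ^ 2`, `(u * a) ^ 3` is `1`, then `A = 1`.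

Proof. Write `b = u⁻¹ * a * u`. Since `A` is normalized by `u` and finite, also by `u⁻¹`.
`(u * a) ^ 2 = u * a * u * a = (u * a * u⁻¹) * (u ^ 2 * a * (u ^ 2)⁻¹) * u ^ 2 =
(u * a * u⁻¹) * a⁻¹ * u ^ 2`, and
`(u * a) ^ 3 = (u * a) ^ 2 * (u * a) = (u * a * u⁻¹) * a⁻¹ * u ^ 3 * a
 = (u * a * u⁻¹) * a⁻¹ * (u ^ 3 * a * (u ^ 3)⁻¹) * u ^ 3
 = (u * a * u⁻¹) * a⁻¹ * (u * a * u⁻¹)⁻¹ * u ^ 3 = a⁻¹ * u ^ 3`
(`u ^ 2` inverts `u * a * u⁻¹ ∈ A`). Also `u * a = (u * a * u⁻¹) * u`. So the four automorphisms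
are `1`, `α a * u`, `β a * u ^ 2`, `γ a * u ^ 3` with the maps `α a = u * a * u⁻¹`,
`β a = (u * a * u⁻¹) * a⁻¹`, `γ a = a⁻¹` from `A` to `A`; `α`, `γ` are bijective, and `β` is an
injective homomorphism (if `u * a * u⁻¹ = a` then `a = u ^ 2 * a * (u ^ 2)⁻¹ = a⁻¹`, `a = 1`), so
bijective as `A` is finite. Fix `x : M` and multiply the hypothesis over all `a ∈ A`:
`x ^ (card A) * ∏_a (α a) (u x) * ∏_a (β a) (u ^ 2 x) * ∏_a (γ a) (u ^ 3 x) = 1`, i.e. with
`N y = ∏_{a ∈ A} a y` (which is fixed by every element of `A`):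
`x ^ (card A) * N (u x) * N (u ^ 2 x) * N (u ^ 3 x) = 1`. `card A` is odd (Cauchy: an element of
order 2 would satisfy `a ^ m = 1`), so `x ^ (card A) = x` (`x ^ 2 = 1`). Hence `x` is fixed by `A`.
-/
theorem fr_E1 {M : Type u} [CommGroup M] {m : ℕ} (hm : Odd m) (hM : ∀ x : M, x ^ 2 = 1)
    (A : Subgroup (MulAut M)) [Finite A] (hAc : ∀ a ∈ A, ∀ b ∈ A, a * b = b * a)
    (hAm : ∀ a ∈ A, a ^ m = 1) (u : MulAut M) (huA : ∀ a ∈ A, u * a * u⁻¹ ∈ A)
    (huu : ∀ a ∈ A, u ^ 2 * a * (u ^ 2)⁻¹ = a⁻¹)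
    (hid : ∀ a ∈ A, ∀ x : M, x * (u * a) x * ((u * a) ^ 2) x * ((u * a) ^ 3) x = 1) :
    ∀ a ∈ A, a = 1 := by
  classical
  have : Fintype A := Fintype.ofFinite A
  -- the three maps
  let al : A → A := fun a => ⟨u * a * u⁻¹, huA a a.2⟩
  let be : A → A := fun a => ⟨(u * a * u⁻¹) * (a : MulAut M)⁻¹, A.mul_mem (huA a a.2) (A.inv_mem a.2)⟩
  have hal : Function.Bijective al := by
    rw [← Finite.injective_iff_bijective]
    intro a b hab
    have h : u * (a : MulAut M) * u⁻¹ = u * b * u⁻¹ := congrArg Subtype.val hab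
    exact Subtype.ext (mul_left_cancel (mul_right_cancel h))
  -- the order of `A` is odd
  have hcard : Odd (Fintype.card A) := by
    rw [← Nat.not_even_iff_odd]
    intro hev
    have h2 : 2 ∣ Nat.card A := by
      rw [Nat.card_eq_fintype_card]; exact even_iff_two_dvd.1 hev
    obtain ⟨a, ha⟩ := exists_prime_orderOf_dvd_card' (G := A) 2 h2
    have h3 : a ^ m = 1 := Subtype.ext (by simpa using hAm a a.2)
    have h4 := orderOf_dvd_of_pow_eq_one h3
    rw [ha] at h4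
    exact (Nat.not_even_iff_odd.2 hm) (even_iff_two_dvd.2 h4)
  have hsq : ∀ a ∈ A, a ^ 2 = 1 → a = 1 := by
    intro a ha h
    have h3 := hAm a ha
    obtain ⟨k, hk⟩ := hm
    rw [hk, pow_succ, pow_mul, h, one_pow, one_mul] at h3
    exact h3
  have hbe : Function.Bijective be := by
    rw [← Finite.injective_iff_bijective]
    intro a b hab
    have h : (u * (a : MulAut M) * u⁻¹) * (a : MulAut M)⁻¹ =
        (u * b * u⁻¹) * (b : MulAut M)⁻¹ := congrArg Subtype.val hab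
    have h1 : u * ((b : MulAut M)⁻¹ * a) * u⁻¹ = (b : MulAut M)⁻¹ * a := by
      have e1 : u * ((b : MulAut M)⁻¹ * a) * u⁻¹ = (u * b * u⁻¹)⁻¹ * (u * a * u⁻¹) := by group
      have e2 : (u * (a : MulAut M) * u⁻¹) = (u * b * u⁻¹) * ((b : MulAut M)⁻¹ * a) := by
        rw [← mul_assoc, ← h]; group
      rw [e1, e2]; group
    have hc : (b : MulAut M)⁻¹ * a ∈ A := A.mul_mem (A.inv_mem b.2) a.2
    set c : MulAut M := (b : MulAut M)⁻¹ * a with hcdef
    have h2 : u ^ 2 * c * (u ^ 2)⁻¹ = c := by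
      have : u ^ 2 * c * (u ^ 2)⁻¹ = u * (u * c * u⁻¹) * u⁻¹ := by
        simp only [pow_two, mul_inv_rev, mul_assoc]
      rw [this, h1, h1]
    have h3 : c ^ 2 = 1 := by
      rw [pow_two]
      nth_rewrite 1 [← h2]
      rw [huu c hc, inv_mul_cancel]
    have h4 := hsq c hc h3
    apply Subtype.ext
    rw [hcdef] at h4
    exact (inv_mul_eq_one.1 h4).symm
  -- the norm
  let Nm : M → M := fun y => ∏ a : A, (a : MulAut M) y
  have hfix : ∀ b ∈ A, ∀ y : M, b (Nm y) = Nm y := by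
    intro b hb y
    show b (∏ a : A, (a : MulAut M) y) = ∏ a : A, (a : MulAut M) y
    rw [map_prod]
    refine Fintype.prod_equiv (Equiv.mulLeft (⟨b, hb⟩ : A)) _ _ fun a => ?_
    simp
  have hNal : ∀ y : M, ∏ a : A, ((al a : A) : MulAut M) y = Nm y := fun y =>
    Function.Bijective.prod_comp hal (fun a : A => (a : MulAut M) y)
  have hNbe : ∀ y : M, ∏ a : A, ((be a : A) : MulAut M) y = Nm y := fun y =>
    Function.Bijective.prod_comp hbe (fun a : A => (a : MulAut M) y)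
  have hNga : ∀ y : M, ∏ a : A, ((a : MulAut M)⁻¹) y = Nm y := fun y =>
    Fintype.prod_equiv (Equiv.inv A) _ _ fun a => by simp
  -- the powers
  have hp1 : ∀ a : A, u * (a : MulAut M) = (al a : MulAut M) * u := fun a => by
    show u * (a : MulAut M) = (u * a * u⁻¹) * u
    group
  have hp2 : ∀ a : A, (u * (a : MulAut M)) ^ 2 = (be a : MulAut M) * u ^ 2 := fun a => by
    show (u * (a : MulAut M)) ^ 2 = ((u * a * u⁻¹) * (a : MulAut M)⁻¹) * u ^ 2
    rw [← huu a a.2]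
    simp only [pow_two]
    group
  have hp3 : ∀ a : A, (u * (a : MulAut M)) ^ 3 = (a : MulAut M)⁻¹ * u ^ 3 := fun a => by
    have e1 : (u * (a : MulAut M)) ^ 3 =
        ((u * a * u⁻¹) * (u ^ 2 * (a : MulAut M) * (u ^ 2)⁻¹)) *
          (u ^ 2 * (u * (a : MulAut M) * u⁻¹) * (u ^ 2)⁻¹) * u ^ 3 := by
      simp only [pow_succ, pow_zero, one_mul]
      group
    rw [e1, huu a a.2, huu _ (huA a a.2), hAc _ (huA a a.2) _ (A.inv_mem a.2)]
    group
  intro b hb
  ext x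
  have hx : x ^ Fintype.card A = x := by
    obtain ⟨k, hk⟩ := hcard
    rw [hk, pow_succ, pow_mul, hM, one_pow, one_mul]
  have hprod : ∏ a : A, (x * (u * (a : MulAut M)) x * ((u * (a : MulAut M)) ^ 2) x *
      ((u * (a : MulAut M)) ^ 3) x) = 1 :=
    Finset.prod_eq_one fun a _ => hid a a.2 x
  rw [Finset.prod_mul_distrib, Finset.prod_mul_distrib, Finset.prod_mul_distrib,
    Finset.prod_const, Finset.card_univ, hx] at hprod
  have e1 : ∏ a : A, (u * (a : MulAut M)) x = Nm (u x) := by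
    rw [← hNal]
    exact Finset.prod_congr rfl fun a _ => by rw [hp1]; rfl
  have e2 : ∏ a : A, ((u * (a : MulAut M)) ^ 2) x = Nm ((u ^ 2) x) := by
    rw [← hNbe]
    exact Finset.prod_congr rfl fun a _ => by rw [hp2]; rfl
  have e3 : ∏ a : A, ((u * (a : MulAut M)) ^ 3) x = Nm ((u ^ 3) x) := by
    rw [← hNga]
    exact Finset.prod_congr rfl fun a _ => by rw [hp3]; rfl
  rw [e1, e2, e3] at hprod
  have hx2 : x = (Nm (u x) * Nm ((u ^ 2) x) * Nm ((u ^ 3) x))⁻¹ := by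
    rw [eq_inv_iff_mul_eq_one, ← mul_assoc, ← mul_assoc]
    exact hprod
  rw [MulAut.one_apply]
  rw [hx2, map_inv, map_mul, map_mul, hfix b hb, hfix b hb, hfix b hb]

end Pool.Agent.Lib.MP_544bd1_al
end

section

/-!
Exponents `4 * m`: the averaging lemma for elements of a group.
-/

namespace Pool.Agent.Lib.MP_544bd1_al

open Subgroup

universe u v

variable {X : Type u} [Group X] {m : ℕ}

/-- `M` a normal elementary abelian 2-subgroup (not assumed commutative in the statement: `x ^ 2 = 1`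
implies it), `g ^ 4` centralizes `M`.

Proof. Let `g' = g ^ (tN m)`, `tN m = 4 * k + 1`, so `g' = g * (g ^ 4) ^ k` acts on `M` by
conjugation as `g`, and `g' ^ 4 = 1` (`fr_tN_pow`). For `x ∈ M` let
`y = (x * g') ^ 4 = x * (g' x g'⁻¹) * (g' ^ 2 x g'⁻¹ ^ 2) * (g' ^ 3 x (g' ^ 3)⁻¹) * g' ^ 4 ∈ M`.
`y ^ 2 = 1`, so `(x * g') ^ 8 = 1`, so `(x * g') ^ 4 = 1` (`fr_eight`), `y = 1`. -/
theorem fr_E2 (hm : Odd m) (hexp : ∀ x : X, x ^ (4 * m) = 1) (M : Subgroup X) [M.Normal]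
    (hM : ∀ x ∈ M, x ^ 2 = 1) {g : X} (hg : ∀ x ∈ M, g ^ 4 * x = x * g ^ 4) :
    ∀ x ∈ M, x * (g * x * g⁻¹) * (g ^ 2 * x * (g ^ 2)⁻¹) * (g ^ 3 * x * (g ^ 3)⁻¹) = 1 := by
  have hnorm : M.Normal := inferInstance
  obtain ⟨k, hk⟩ := fr_tN_mod hm
  obtain ⟨g', hg'⟩ : ∃ g', g' = g ^ (tN m) := ⟨_, rfl⟩
  have hg4 : g' ^ 4 = 1 := by rw [hg']; exact fr_tN_pow hexp g
  have hg1 : g' = g * (g ^ 4) ^ k := by
    rw [hg', hk, pow_succ', ← pow_mul]
  have hact : ∀ y ∈ M, g' * y * g'⁻¹ = g * y * g⁻¹ := by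
    intro y hy
    have h1 : (g ^ 4) ^ k * y = y * (g ^ 4) ^ k :=
      ((show Commute (g ^ 4) y from hg y hy).pow_left k).eq
    rw [hg1]
    calc g * (g ^ 4) ^ k * y * (g * (g ^ 4) ^ k)⁻¹
        = g * ((g ^ 4) ^ k * y) * ((g ^ 4) ^ k)⁻¹ * g⁻¹ := by
          rw [mul_inv_rev]; simp only [mul_assoc]
      _ = g * y * g⁻¹ := by rw [h1]; simp only [mul_assoc, mul_inv_cancel_left]
  have hact2 : ∀ y ∈ M, g' ^ 2 * y * (g' ^ 2)⁻¹ = g ^ 2 * y * (g ^ 2)⁻¹ := by
    intro y hy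
    calc g' ^ 2 * y * (g' ^ 2)⁻¹ = g' * (g' * y * g'⁻¹) * g'⁻¹ := by rw [pow_two]; group
      _ = g * (g * y * g⁻¹) * g⁻¹ := by
        rw [hact y hy, hact _ (hnorm.conj_mem y hy g)]
      _ = g ^ 2 * y * (g ^ 2)⁻¹ := by rw [pow_two]; group
  have hact3 : ∀ y ∈ M, g' ^ 3 * y * (g' ^ 3)⁻¹ = g ^ 3 * y * (g ^ 3)⁻¹ := by
    intro y hy
    calc g' ^ 3 * y * (g' ^ 3)⁻¹ = g' * (g' ^ 2 * y * (g' ^ 2)⁻¹) * g'⁻¹ := by
          rw [pow_succ' g' 2]; group
      _ = g * (g ^ 2 * y * (g ^ 2)⁻¹) * g⁻¹ := by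
        rw [hact2 y hy, hact _ (hnorm.conj_mem y hy (g ^ 2))]
      _ = g ^ 3 * y * (g ^ 3)⁻¹ := by rw [pow_succ' g 2]; group
  intro x hx
  have h0 : x * (g' * x * g'⁻¹) * (g' ^ 2 * x * (g' ^ 2)⁻¹) * (g' ^ 3 * x * (g' ^ 3)⁻¹)
      = (x * g') ^ 4 * (g' ^ 4)⁻¹ := by
    have e1 : (x * g') ^ 4 = x * g' * (x * g') * (x * g') * (x * g') := by
      simp only [pow_succ, pow_zero, one_mul]
    rw [e1]
    simp only [pow_succ, pow_zero, one_mul]
    group
  rw [hg4, inv_one, mul_one, hact x hx, hact2 x hx, hact3 x hx] at h0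
  have hy : x * (g * x * g⁻¹) * (g ^ 2 * x * (g ^ 2)⁻¹) * (g ^ 3 * x * (g ^ 3)⁻¹) ∈ M :=
    M.mul_mem (M.mul_mem (M.mul_mem hx (hnorm.conj_mem x hx g)) (hnorm.conj_mem x hx (g ^ 2)))
      (hnorm.conj_mem x hx (g ^ 3))
  rw [h0] at hy ⊢
  apply fr_eight hm hexp
  have := hM _ hy
  rw [← pow_mul] at this
  exact this

/-- averaging for two generators `s`, `t` modulo the centralizer of `M`: `u s u⁻¹ ≡ t`,
`u t u⁻¹ ≡ s⁻¹`, `s`, `t` commute modulo `C(M)`, `s ^ m ≡ 1`, `u ^ 4 ≡ 1`. Then `s ≡ 1`.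

Proof. `M` is commutative. Let `ψ = MulAut.conjNormal : X →* MulAut M`; its kernel is the
centralizer of `M`. `A = closure {ψ s, ψ t} ≤ MulAut M` is finite (`MulAut M` is finite as `M` is),
abelian, generated by elements with `a ^ m = 1` (`ψ t = ψ u * ψ s * (ψ u)⁻¹`), so `a ^ m = 1` on `A`.
`ψ u` conjugates `ψ s` to `ψ t` and `ψ t` to `(ψ s)⁻¹`, so it normalizes `A`, and `(ψ u) ^ 2` maps
`ψ s` to `(ψ s)⁻¹` and `ψ t` to `(ψ t)⁻¹`, so inverts `A` (abelian). For `a ∈ A` write `a = ψ b`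
(`b ∈ closure {s, t}`), `g = u * b`: `(ψ g) ^ 4 = (ψ u * a) ^ 4 = 1`, because
`(u a) ^ 2 = (u a u⁻¹) a⁻¹ u ^ 2` and `u ^ 2` inverts `(u a u⁻¹) a⁻¹ ∈ A`, so
`(u a) ^ 4 = u ^ 4 = 1`. So `g ^ 4` centralizes `M` and `fr_E2` gives the hypothesis `hid` of
`fr_E1`. -/
theorem fr_E3 (hm : Odd m) (hexp : ∀ x : X, x ^ (4 * m) = 1) (M : Subgroup X) [M.Normal]
    [Finite M] (hM : ∀ x ∈ M, x ^ 2 = 1) {s t u : X}
    (h1 : u * s * u⁻¹ * t⁻¹ ∈ centralizer (M : Set X))
    (h2 : u * t * u⁻¹ * s ∈ centralizer (M : Set X))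
    (h3 : s * t * s⁻¹ * t⁻¹ ∈ centralizer (M : Set X))
    (h4 : s ^ m ∈ centralizer (M : Set X)) (h5 : u ^ 4 ∈ centralizer (M : Set X)) :
    s ∈ centralizer (M : Set X) := by
  classical
  have hMc : ∀ a b : M, a * b = b * a := by
    intro a b
    have ha : a * a = 1 := Subtype.ext (fr_mul_self (hM a a.2))
    have hb : b * b = 1 := Subtype.ext (fr_mul_self (hM b b.2))
    have hab : a * b * (a * b) = 1 := Subtype.ext (fr_mul_self (hM _ (a * b).2))
    calc a * b = a * b * ((a * b) * (a * b)) := by rw [hab, mul_one]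
      _ = (a * b * (a * b)) * (a * b) := by simp only [mul_assoc]
      _ = a * b := by rw [hab, one_mul]
      _ = a * (a * b * (a * b)) * b := by rw [hab, mul_one]
      _ = (a * a) * b * a * (b * b) := by simp only [mul_assoc]
      _ = b * a := by rw [ha, hb, one_mul, mul_one]
  let _ : CommGroup M := { (inferInstance : Group M) with mul_comm := hMc }
  let ψ : X →* MulAut M := MulAut.conjNormal
  have hψ : ∀ (g : X) (x : M), ((ψ g x : M) : X) = g * x * g⁻¹ := fun g x => rfl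
  have hker : ∀ g : X, g ∈ centralizer (M : Set X) → ψ g = 1 := by
    intro g hg
    apply MulEquiv.ext
    intro x
    apply Subtype.ext
    rw [hψ]
    have := Subgroup.mem_centralizer_iff.1 hg x x.2
    rw [← this, mul_assoc, mul_inv_cancel, mul_one]
    rfl
  have hker' : ∀ g : X, ψ g = 1 → g ∈ centralizer (M : Set X) := by
    intro g hg
    rw [Subgroup.mem_centralizer_iff]
    intro x hx
    have h6 : ((ψ g ⟨x, hx⟩ : M) : X) = x := by rw [hg]; rfl
    rw [hψ] at h6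
    calc x * g = (g * x * g⁻¹) * g := by rw [h6]
      _ = g * x := by group
  obtain ⟨S, hS⟩ : ∃ S, S = ψ s := ⟨_, rfl⟩
  obtain ⟨T, hT⟩ : ∃ T, T = ψ t := ⟨_, rfl⟩
  obtain ⟨U, hU⟩ : ∃ U, U = ψ u := ⟨_, rfl⟩
  have e1 : U * S * U⁻¹ = T := by
    have := hker _ h1
    rw [map_mul, map_mul, map_mul, map_inv, map_inv, ← hS, ← hT, ← hU] at this
    exact mul_inv_eq_one.1 this
  have e2 : U * T * U⁻¹ = S⁻¹ := by
    have := hker _ h2
    rw [map_mul, map_mul, map_mul, map_inv, ← hS, ← hT, ← hU] at this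
    exact mul_eq_one_iff_eq_inv.1 this
  have e3 : S * T = T * S := by
    have := hker _ h3
    rw [map_mul, map_mul, map_mul, map_inv, map_inv, ← hS, ← hT] at this
    have h6 := mul_inv_eq_one.1 this
    calc S * T = (S * T * S⁻¹) * S := by group
      _ = T * S := by rw [h6]
  have e4 : S ^ m = 1 := by
    have := hker _ h4
    rwa [map_pow, ← hS] at this
  have e5 : U ^ 4 = 1 := by
    have := hker _ h5
    rwa [map_pow, ← hU] at this
  obtain ⟨A, hA⟩ : ∃ A : Subgroup (MulAut M), A = closure {S, T} := ⟨_, rfl⟩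
  have hSA : S ∈ A := by rw [hA]; exact subset_closure (by simp)
  have hTA : T ∈ A := by rw [hA]; exact subset_closure (by simp)
  have hAc : ∀ a ∈ A, ∀ b ∈ A, a * b = b * a := by
    have h6 : A ≤ centralizer {S, T} := by
      rw [hA, Subgroup.closure_le]
      rintro x (rfl | rfl)
      · rw [SetLike.mem_coe, Subgroup.mem_centralizer_iff]
        rintro y (rfl | rfl)
        · rfl
        · exact e3.symm
      · rw [SetLike.mem_coe, Subgroup.mem_centralizer_iff]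
        rintro y (rfl | rfl)
        · exact e3
        · rfl
    have h7 : A ≤ centralizer (centralizer {S, T} : Subgroup (MulAut M)) := by
      rw [hA, Subgroup.closure_le]
      intro x hx
      rw [SetLike.mem_coe, Subgroup.mem_centralizer_iff]
      intro y hy
      exact (Subgroup.mem_centralizer_iff.1 hy x hx).symm
    intro a ha b hb
    exact Subgroup.mem_centralizer_iff.1 (h7 hb) a (h6 ha)
  have hAm : ∀ a ∈ A, a ^ m = 1 := by
    intro a ha
    have h6 : a ∈ closure {S, T} := by rw [← hA]; exact ha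
    induction h6 using closure_induction with
    | mem x hx =>
      rcases hx with rfl | rfl
      · exact e4
      · rw [← e1, conj_pow, e4]; group
    | one => exact one_pow m
    | mul x y hx hy ihx ihy =>
      have hx' : x ∈ A := by rw [hA]; exact hx
      have hy' : y ∈ A := by rw [hA]; exact hy
      rw [(show Commute x y from hAc x hx' y hy').mul_pow, ihx hx', ihy hy', one_mul]
    | inv x hx ih =>
      have hx' : x ∈ A := by rw [hA]; exact hx
      rw [inv_pow, ih hx', inv_one]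
  have huA : ∀ a ∈ A, U * a * U⁻¹ ∈ A := by
    have h6 : A ≤ A.comap (MulAut.conj U).toMonoidHom := by
      conv_lhs => rw [hA]
      rw [Subgroup.closure_le]
      rintro x (rfl | rfl)
      · show U * x * U⁻¹ ∈ A
        rw [e1]; exact hTA
      · show U * x * U⁻¹ ∈ A
        rw [e2]; exact A.inv_mem hSA
    intro a ha
    exact h6 ha
  have huu : ∀ a ∈ A, U ^ 2 * a * (U ^ 2)⁻¹ = a⁻¹ := by
    intro a ha
    have h6 : a ∈ closure {S, T} := by rw [← hA]; exact ha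
    induction h6 using closure_induction with
    | mem x hx =>
      have h7 : U ^ 2 * x * (U ^ 2)⁻¹ = U * (U * x * U⁻¹) * U⁻¹ := by rw [pow_two]; group
      rw [h7]
      rcases hx with rfl | rfl
      · rw [e1, e2]
      · rw [e2]
        have h8 : U * S⁻¹ * U⁻¹ = (U * S * U⁻¹)⁻¹ := by group
        rw [h8, e1]
    | one => group
    | mul x y hx hy ihx ihy =>
      have hx' : x ∈ A := by rw [hA]; exact hx
      have hy' : y ∈ A := by rw [hA]; exact hy
      have h7 : U ^ 2 * (x * y) * (U ^ 2)⁻¹ = (U ^ 2 * x * (U ^ 2)⁻¹) * (U ^ 2 * y * (U ^ 2)⁻¹) := by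
        group
      rw [h7, ihx hx', ihy hy', mul_inv_rev, hAc _ (A.inv_mem hx') _ (A.inv_mem hy')]
    | inv x hx ih =>
      have hx' : x ∈ A := by rw [hA]; exact hx
      have h7 : U ^ 2 * x⁻¹ * (U ^ 2)⁻¹ = (U ^ 2 * x * (U ^ 2)⁻¹)⁻¹ := by group
      rw [h7, ih hx']
  have hpre : ∀ a ∈ A, ∃ b : X, ψ b = a := by
    have h6 : A ≤ ψ.range := by
      rw [hA, Subgroup.closure_le]
      rintro x (rfl | rfl)
      · exact ⟨s, hS.symm⟩
      · exact ⟨t, hT.symm⟩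
    intro a ha
    obtain ⟨b, hb⟩ := h6 ha
    exact ⟨b, hb⟩
  have : Finite (MulAut M) := inferInstance
  have hid : ∀ a ∈ A, ∀ x : M, x * (U * a) x * ((U * a) ^ 2) x * ((U * a) ^ 3) x = 1 := by
    intro a ha x
    obtain ⟨b, hb⟩ := hpre a ha
    have hUa : U * a = ψ (u * b) := by rw [map_mul, hb, hU]
    have hc : (U * a * U⁻¹) * a⁻¹ ∈ A := A.mul_mem (huA a ha) (A.inv_mem ha)
    have h6 : (U * a) ^ 2 = ((U * a * U⁻¹) * a⁻¹) * U ^ 2 := by
      rw [← huu a ha]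
      simp only [pow_two]; group
    have h7 : (U * a) ^ 4 = 1 := by
      obtain ⟨c, hcc⟩ : ∃ c, c = (U * a * U⁻¹) * a⁻¹ := ⟨_, rfl⟩
      rw [← hcc] at hc h6
      have h8 : (U * a) ^ 4 = ((U * a) ^ 2) ^ 2 := by rw [← pow_mul]
      have h9 : (c * U ^ 2) ^ 2 = c * (U ^ 2 * c * (U ^ 2)⁻¹) * U ^ 4 := by
        have : U ^ 4 = U ^ 2 * U ^ 2 := by rw [← pow_add]
        rw [this, pow_two (c * U ^ 2)]; group
      rw [h8, h6, h9, huu c hc, e5, mul_one, mul_inv_cancel]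
    have h8 : (u * b) ^ 4 ∈ centralizer (M : Set X) := by
      apply hker'
      rw [map_pow, ← hUa, h7]
    have h9 := fr_E2 hm hexp M hM (g := u * b)
      (fun y hy => (Subgroup.mem_centralizer_iff.1 h8 y hy).symm) x x.2
    apply Subtype.ext
    rw [hUa, ← map_pow, ← map_pow]
    exact h9
  have hfin := fr_E1 hm (fun x => Subtype.ext (by simpa using hM x x.2)) A hAc hAm U huA huu hid
    S hSA
  exact hker' s (by rw [← hS]; exact hfin)

end Pool.Agent.Lib.MP_544bd1_al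
end

section

/-!
Exponents `4 * m`: (S2c).
-/

namespace Pool.Agent.Lib.MP_544bd1_al

open Subgroup

universe u v

variable {F : Type u} [Group F] {m : ℕ}

/-- conjugation by powers of `y` preserves an invariant subgroup -/
theorem fr_S2c_pow {y : F} {V1 : Subgroup F} (hny : ∀ v ∈ V1, y * v * y⁻¹ ∈ V1) (k : ℕ) :
    ∀ v ∈ V1, y ^ k * v * (y ^ k)⁻¹ ∈ V1 := by
  induction k with
  | zero => intro v hv; simpa using hv
  | succ k ih =>
    intro v hv
    have h1 := ih _ (hny v hv)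
    have h2 : y ^ (k + 1) * v * (y ^ (k + 1))⁻¹ = y ^ k * (y * v * y⁻¹) * (y ^ k)⁻¹ := by
      rw [pow_succ]; group
    rw [h2]; exact h1

theorem fr_S2c_inv (hm : Odd m) {y : F} (hy : y ^ m = 1) {V1 : Subgroup F}
    (hny : ∀ v ∈ V1, y * v * y⁻¹ ∈ V1) : ∀ v ∈ V1, y⁻¹ * v * y ∈ V1 := by
  intro v hv
  obtain ⟨j, hj⟩ := hm
  have h1 : y ^ (m - 1) = y⁻¹ := by
    rw [eq_inv_iff_mul_eq_one, ← pow_succ, Nat.sub_add_cancel (by omega), hy]
  have h2 := fr_S2c_pow hny (m - 1) v hv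
  rwa [h1, inv_inv] at h2

theorem fr_S2c_comm {V1 : Subgroup F} (hV : ∀ v ∈ V1, v ^ 2 = 1) :
    ∀ v ∈ V1, ∀ w ∈ V1, v * w = w * v := by
  intro v hv w hw
  have h1 := fr_mul_self (hV _ (V1.mul_mem hv hw))
  have h2 := fr_mul_self (hV _ hv)
  have h3 := fr_mul_self (hV _ hw)
  calc v * w = v * (v * w * (v * w)) * w := by rw [h1, mul_one]
    _ = (v * v) * (w * v) * (w * w) := by group
    _ = w * v := by rw [h2, h3]; group

/-- the commutator subgroup `[y, V1]` -/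
def fr_S2c_D (y : F) (V1 : Subgroup F) (hV : ∀ v ∈ V1, v ^ 2 = 1)
    (hny : ∀ v ∈ V1, y * v * y⁻¹ ∈ V1) : Subgroup F where
  carrier := {d | ∃ v ∈ V1, d = y * v * y⁻¹ * v⁻¹}
  one_mem' := ⟨1, V1.one_mem, by group⟩
  mul_mem' := by
    rintro a b ⟨v, hv, rfl⟩ ⟨w, hw, rfl⟩
    refine ⟨v * w, V1.mul_mem hv hw, ?_⟩
    have h1 := fr_S2c_comm hV v⁻¹ (V1.inv_mem hv) (y * w * y⁻¹) (hny w hw)
    have h2 := fr_S2c_comm hV v⁻¹ (V1.inv_mem hv) w⁻¹ (V1.inv_mem hw)
    calc y * v * y⁻¹ * v⁻¹ * (y * w * y⁻¹ * w⁻¹)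
        = y * v * y⁻¹ * (v⁻¹ * (y * w * y⁻¹)) * w⁻¹ := by group
      _ = y * v * y⁻¹ * ((y * w * y⁻¹) * v⁻¹) * w⁻¹ := by rw [h1]
      _ = y * (v * w) * y⁻¹ * (v⁻¹ * w⁻¹) := by group
      _ = y * (v * w) * y⁻¹ * (w⁻¹ * v⁻¹) := by rw [h2]
      _ = y * (v * w) * y⁻¹ * (v * w)⁻¹ := by group
  inv_mem' := by
    rintro a ⟨v, hv, rfl⟩
    refine ⟨v⁻¹, V1.inv_mem hv, ?_⟩
    have h1 := fr_S2c_comm hV v hv (y * v⁻¹ * y⁻¹) (hny _ (V1.inv_mem hv))
    calc (y * v * y⁻¹ * v⁻¹)⁻¹ = v * (y * v⁻¹ * y⁻¹) := by group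
      _ = (y * v⁻¹ * y⁻¹) * v := h1
      _ = y * v⁻¹ * y⁻¹ * v⁻¹⁻¹ := by group

theorem fr_S2c_fix (hm : Odd m) {y : F} (hy : y ^ m = 1) {V1 : Subgroup F}
    (hV : ∀ v ∈ V1, v ^ 2 = 1) (hny : ∀ v ∈ V1, y * v * y⁻¹ ∈ V1) {v : F} (hv : v ∈ V1)
    (hc : y * (y * v * y⁻¹ * v⁻¹) = (y * v * y⁻¹ * v⁻¹) * y) : y * v * y⁻¹ * v⁻¹ = 1 := by
  have hd : y * v * y⁻¹ * v⁻¹ ∈ V1 := V1.mul_mem (hny v hv) (V1.inv_mem hv)
  have h2 := hV _ hd
  have hyv : y * v * y⁻¹ = (y * v * y⁻¹ * v⁻¹) * v := by group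
  generalize y * v * y⁻¹ * v⁻¹ = d at *
  have key : ∀ k : ℕ, y ^ k * v * (y ^ k)⁻¹ = d ^ k * v := by
    intro k
    induction k with
    | zero => simp
    | succ k ih =>
      have hck : y * d ^ k = d ^ k * y := (Commute.pow_right (show Commute y d from hc) k).eq
      calc y ^ (k + 1) * v * (y ^ (k + 1))⁻¹ = y * (y ^ k * v * (y ^ k)⁻¹) * y⁻¹ := by
            rw [pow_succ']; group
        _ = y * (d ^ k * v) * y⁻¹ := by rw [ih]
        _ = (y * d ^ k) * v * y⁻¹ := by group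
        _ = d ^ k * y * v * y⁻¹ := by rw [hck]
        _ = d ^ k * (y * v * y⁻¹) := by group
        _ = d ^ k * (d * v) := by rw [hyv]
        _ = d ^ (k + 1) * v := by rw [pow_succ]; group
  have h1 := key m
  rw [hy] at h1
  have h3 : d ^ m = 1 := by
    have h4 : d ^ m * v = v := by rw [← h1]; group
    exact mul_eq_right.mp h4
  exact fr_one_two hm h3 h2

/-- (S2c) from an elementary abelian invariant `V1` not centralized by `y` to an irreducible one.

Proof. `V1` is commutative. `D = {y * v * y⁻¹ * v⁻¹ | v ∈ V1}` is a subgroup of `V1` (image of the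
homomorphism `v ↦ y v y⁻¹ v⁻¹` of the commutative group `V1`), normalized by `y`, and by `x`: with
`v' = x v x`, `x (y v y⁻¹ v⁻¹) x = y⁻¹ v' y v'⁻¹ = y w y⁻¹ w⁻¹` for `w = (y⁻¹ v' y)⁻¹`
(`y⁻¹ = y ^ (m-1)` normalizes `V1`). If `d = y v y⁻¹ v⁻¹` commutes with `y` then
`y ^ k v (y ^ k)⁻¹ = d ^ k v`, so `d ^ m = 1`, `d ^ 2 = 1`, `d = 1`. `D ≠ ⊥`. Let `V ≤ D` be a
minimal (finite) nontrivial subgroup normalized by `x` and `y`: this gives `irr`. If `x` centralized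
`V`, then for `v ∈ V`: `y v y⁻¹ = x (y v y⁻¹) x = y⁻¹ (x v x) y = y⁻¹ v y`, so `y ^ 2` commutes with
`v`, so `y` commutes with `v` (`fr_sqrt`), so `v = 1`; contradiction with `V ≠ ⊥`. -/
theorem fr_S2c [Finite F] (hm : Odd m) {x y : F} (hx : x ^ 2 = 1) (hy : y ^ m = 1)
    (hxy : x * y * x = y⁻¹) (V1 : Subgroup F) (hV : ∀ v ∈ V1, v ^ 2 = 1)
    (hnx : ∀ v ∈ V1, x * v * x ∈ V1) (hny : ∀ v ∈ V1, y * v * y⁻¹ ∈ V1)
    (h : ∃ v ∈ V1, y * v ≠ v * y) : ∃ V ≤ V1, SConf m x y V := by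
  classical
  have hxx : x * x = 1 := fr_mul_self hx
  have hxy1 : x * y = y⁻¹ * x := by
    calc x * y = (x * y * x) * x := by rw [mul_assoc (x * y), hxx, mul_one]
      _ = y⁻¹ * x := by rw [hxy]
  have hxy2 : x * y⁻¹ = y * x := by
    calc x * y⁻¹ = x * (x * y * x) := by rw [hxy]
      _ = (x * x) * y * x := by group
      _ = y * x := by rw [hxx, one_mul]
  have hcomm := fr_S2c_comm hV
  have hinv := fr_S2c_inv hm hy hny
  set D := fr_S2c_D y V1 hV hny with hD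
  have hDmem : ∀ d, d ∈ D ↔ ∃ v ∈ V1, d = y * v * y⁻¹ * v⁻¹ := fun d => Iff.rfl
  have hDV : D ≤ V1 := by
    intro d hd
    obtain ⟨v, hv, rfl⟩ := (hDmem d).1 hd
    exact V1.mul_mem (hny v hv) (V1.inv_mem hv)
  have hDne : D ≠ ⊥ := by
    obtain ⟨v, hv, hvy⟩ := h
    intro hbot
    have h1 : y * v * y⁻¹ * v⁻¹ ∈ D := (hDmem _).2 ⟨v, hv, rfl⟩
    rw [hbot, Subgroup.mem_bot] at h1
    apply hvy
    calc y * v = (y * v * y⁻¹ * v⁻¹) * v * y := by group
      _ = v * y := by rw [h1, one_mul]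
  have hDy : ∀ w ∈ D, y * w * y⁻¹ ∈ D := by
    intro d hd
    obtain ⟨v, hv, rfl⟩ := (hDmem d).1 hd
    refine (hDmem _).2 ⟨y * v * y⁻¹, hny v hv, ?_⟩
    group
  have hDx : ∀ w ∈ D, x * w * x ∈ D := by
    intro d hd
    obtain ⟨v, hv, rfl⟩ := (hDmem d).1 hd
    have hv' := hnx v hv
    have hw := hinv _ hv'
    have e1 : (x * v * x)⁻¹ = x * v⁻¹ * x := by
      rw [mul_inv_rev, mul_inv_rev, fr_inv_of_sq hx]; group
    have e2 : x * (y * v * y⁻¹ * v⁻¹) * x = y⁻¹ * (x * v * x) * y * (x * v * x)⁻¹ := by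
      rw [e1]
      calc x * (y * v * y⁻¹ * v⁻¹) * x = (x * y) * v * y⁻¹ * v⁻¹ * x := by group
        _ = y⁻¹ * x * v * y⁻¹ * v⁻¹ * x := by rw [hxy1]
        _ = y⁻¹ * x * v * (x * x) * y⁻¹ * v⁻¹ * x := by rw [hxx, mul_one]
        _ = y⁻¹ * (x * v * x) * (x * y⁻¹) * v⁻¹ * x := by group
        _ = y⁻¹ * (x * v * x) * (y * x) * v⁻¹ * x := by rw [hxy2]
        _ = y⁻¹ * (x * v * x) * y * (x * v⁻¹ * x) := by group
    rw [e2]
    refine (hDmem _).2 ⟨(y⁻¹ * (x * v * x) * y)⁻¹, V1.inv_mem hw, ?_⟩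
    generalize x * v * x = u at *
    calc y⁻¹ * u * y * u⁻¹ = u⁻¹ * (y⁻¹ * u * y) := hcomm _ hw _ (V1.inv_mem hv')
      _ = y * (y⁻¹ * u * y)⁻¹ * y⁻¹ * (y⁻¹ * u * y)⁻¹⁻¹ := by group
  have hfin : {W : Subgroup F | W ≤ D ∧ W ≠ ⊥ ∧ (∀ w ∈ W, x * w * x ∈ W) ∧
      (∀ w ∈ W, y * w * y⁻¹ ∈ W)}.Finite := Set.toFinite _
  obtain ⟨V, hVmin⟩ := hfin.exists_minimal ⟨D, le_rfl, hDne, hDx, hDy⟩
  obtain ⟨hVD, hVne, hVx, hVy⟩ := hVmin.1
  refine ⟨V, hVD.trans hDV, hx, hy, hxy, fun v hv => hV v (hDV (hVD hv)), hVx, hVy, ?_, ?_⟩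
  · intro W hWV hWx hWy
    by_cases hW : W = ⊥
    · exact Or.inl hW
    · exact Or.inr (le_antisymm hWV (hVmin.2 ⟨hWV.trans hVD, hW, hWx, hWy⟩ hWV))
  · by_contra hcon
    push Not at hcon
    apply hVne
    rw [Subgroup.eq_bot_iff_forall]
    intro v hv
    have h1 := hcon _ (hVy v hv)
    have h2 : x * (y * v * y⁻¹) * x = y⁻¹ * (x * v * x) * y := by
      calc x * (y * v * y⁻¹) * x = (x * y) * v * y⁻¹ * x := by group
        _ = y⁻¹ * x * v * y⁻¹ * x := by rw [hxy1]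
        _ = y⁻¹ * x * v * (x * x) * y⁻¹ * x := by rw [hxx, mul_one]
        _ = y⁻¹ * (x * v * x) * (x * y⁻¹) * x := by group
        _ = y⁻¹ * (x * v * x) * (y * x) * x := by rw [hxy2]
        _ = y⁻¹ * (x * v * x) * y * (x * x) := by group
        _ = y⁻¹ * (x * v * x) * y := by rw [hxx, mul_one]
    rw [h2, hcon v hv] at h1
    have h3 : Commute (y ^ 2) v := by
      show y ^ 2 * v = v * y ^ 2
      calc y ^ 2 * v = y * (y * v * y⁻¹) * y := by rw [pow_two]; group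
        _ = y * (y⁻¹ * v * y) * y := by rw [h1]
        _ = v * y ^ 2 := by rw [pow_two]; group
    have h4 : Commute y v := by
      have h5 := fr_sqrt hm hy
      rw [← pow_mul, mul_comm, pow_mul] at h5
      rw [← h5]
      exact h3.pow_left _
    obtain ⟨u, hu, rfl⟩ := (hDmem v).1 (hVD hv)
    exact fr_S2c_fix hm hy hV hny hu h4.eq

end Pool.Agent.Lib.MP_544bd1_al
end

section

/-!
Exponents `4 * m`: exact lifting of a dihedral action on the 2-radical modulo the odd radical.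
-/

namespace Pool.Agent.Lib.MP_544bd1_al

open Subgroup

universe u v

variable {F : Type u} [Group F] {m : ℕ}

/-- conjugation of powers by an involution -/
theorem fr_S1_conj_pow {G : Type u} [Group G] {x h k : G} (hx : x ^ 2 = 1)
    (hk : x * h * x = k) (j : ℕ) : x * h ^ j * x = k ^ j := by
  have hx' := fr_inv_of_sq hx
  have h1 : x * h * x⁻¹ = k := by rw [hx', hk]
  have h2 : x * h ^ j * x = x * h ^ j * x⁻¹ := by rw [hx']
  rw [h2, ← h1, conj_pow]

/-- the elements of the normalizer of a Sylow subgroup of the preimage of a normal 2-subgroup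
cover the quotient -/
theorem fr_S1_frattini [Finite F] {H : Type u} [Group H] (f : F →* H)
    (hf : Function.Surjective f) (W : Subgroup H) [W.Normal] (hW : IsPGroup 2 W) :
    ∃ P : Subgroup F, IsPGroup 2 P ∧ (∀ w ∈ W, ∃ p ∈ P, f p = w) ∧ (∀ p ∈ P, f p ∈ W) ∧
      ∀ h : H, ∃ n ∈ normalizer (P : Set F), f n = h := by
  have : Fact (Nat.Prime 2) := ⟨Nat.prime_two⟩
  let fK : (W.comap f) →* W := f.subgroupComap W
  have hfK : Function.Surjective fK := f.subgroupComap_surjective_of_surjective W hf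
  let S : Sylow 2 (W.comap f) := default
  let P : Subgroup F := (S : Subgroup (W.comap f)).map (W.comap f).subtype
  have hP2 : IsPGroup 2 P := S.isPGroup'.map _
  have hcov : ∀ w ∈ W, ∃ p ∈ P, f p = w := by
    intro w hw
    have h1 : ((S.mapSurjective hfK : Sylow 2 W) : Subgroup W) = ⊤ := by
      have h2 : IsPGroup 2 (⊤ : Subgroup W) := hW.of_equiv Subgroup.topEquiv.symm
      exact ((S.mapSurjective hfK).is_maximal' h2 le_top).symm
    rw [Sylow.coe_mapSurjective] at h1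
    have h3 : (⟨w, hw⟩ : W) ∈ (S : Subgroup (W.comap f)).map fK := by rw [h1]; trivial
    obtain ⟨s, hs, hs'⟩ := h3
    exact ⟨s, ⟨s, hs, rfl⟩, congrArg Subtype.val hs'⟩
  refine ⟨P, hP2, hcov, ?_, ?_⟩
  · rintro _ ⟨s, _, rfl⟩
    exact s.2
  · intro h
    obtain ⟨g, rfl⟩ := hf h
    have h1 : normalizer (P : Set F) ⊔ W.comap f = ⊤ := Sylow.normalizer_sup_eq_top S
    have h2 : g ∈ normalizer (P : Set F) ⊔ W.comap f := by rw [h1]; trivial
    obtain ⟨n, hn, k, hk, rfl⟩ := Subgroup.mem_sup_of_normal_right.1 h2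
    obtain ⟨p, hp, hpk⟩ := hcov (f k) hk
    exact ⟨n * p, (normalizer (P : Set F)).mul_mem hn (le_normalizer hp), by rw [map_mul, hpk, map_mul]⟩

/-- (S1) `F` finite solvable, the involution `x0` inverts the odd element `y0 ∉ O(F)`. Then there
are a 2-subgroup `P`, and `x`, `y` with `x ^ 2 = 1`, `y ^ m = 1`, `x` inverts `y`, both
normalizing `P`, `y` not centralizing `P`.

Proof. `N = krad m F`, `H = F ⧸ N`, `f = mk' N`, `W = krad 4 H`, `K = W.comap f` (normal in `F`).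
`f y0 ≠ 1` does not centralize `W` (`krad_quot`, `fr_fitting_two`, `fr_one`). Let `S` be a Sylow
2-subgroup of `K` and `P = S.map K.subtype`; elements of `P` have 2-power order, so `p ^ 4 = 1`
(their order divides `4 * m` and is a power of 2). `P.map f = W`: the index of `S` in `K` is odd, so
the index of `P.map f` in `W` is odd, and `W` is a 2-group. Frattini
(`Sylow.normalizer_sup_eq_top`): `normalizer P ⊔ K = ⊤`, and `K = N ⊔ P`, so every element of `F` is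
congruent modulo `N` to an element of `normalizer P`; i.e. `f` maps `normalizer P` onto `H`.
Let `n ∈ normalizer P`, `f n = f x0`; `n ^ 2 ∈ N`, `x = n ^ m`: `x ^ 2 = (n ^ 2) ^ m = 1`,
`f x = (f x0) ^ m = f x0` (`m` odd, `(f x0) ^ 2 = 1`). Let `g ∈ normalizer P` with
`f g = (f y0) ^ ((m+1)/2)`, `h = x * (g⁻¹ * x * g) ∈ normalizer P`, `f h = f y0` (as in
`fr_lift_inv`), `x * h * x = h⁻¹`, and `y = h ^ (oN m)`: `y ^ m = 1`, `f y = f y0`,
`x * y * x = y⁻¹`, `y ∈ normalizer P`. If `y` centralized `P` then `f y0 = f y` would centralize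
`P.map f = W`. -/
theorem fr_S1 [Finite F] (hm : Odd m) (hsol : Group.IsSolvable F)
    (hexp : ∀ x : F, x ^ (4 * m) = 1) {x0 y0 : F} (hx0 : x0 ^ 2 = 1) (hy0 : y0 ^ m = 1)
    (h0 : x0 * y0 * x0 = y0⁻¹) (h : ¬ InO m (⊤ : Subgroup F) y0) :
    ∃ (P : Subgroup F) (x y : F), (∀ p ∈ P, p ^ 4 = 1) ∧ x ^ 2 = 1 ∧ y ^ m = 1 ∧ x * y * x = y⁻¹ ∧
      (∀ p ∈ P, x * p * x ∈ P) ∧ (∀ p ∈ P, y * p * y⁻¹ ∈ P) ∧ ∃ p ∈ P, y * p ≠ p * y := by
  have hexpQ := fr_exp_quot hexp (krad m F)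
  have hmF := fr_hm hm hexp
  let f : F →* F ⧸ krad m F := QuotientGroup.mk' (krad m F)
  have hf : Function.Surjective f := QuotientGroup.mk'_surjective _
  have hker : ∀ z : F, f z = 1 → z ^ m = 1 := by
    intro z hz
    exact krad_pow hmF z ((QuotientGroup.eq_one_iff z).1 hz)
  have hsolQ : Group.IsSolvable (F ⧸ krad m F) := by
    have := hsol
    infer_instance
  have hW4 : ∀ w ∈ krad 4 (F ⧸ krad m F), w ^ 4 = 1 := krad_pow (fr_h4 hm hexpQ)
  have hWp : IsPGroup 2 (krad 4 (F ⧸ krad m F)) := by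
    intro w
    refine ⟨2, Subtype.ext ?_⟩
    have := hW4 w w.2
    simpa using this
  obtain ⟨P, hP2, hcov, hPW, hN⟩ := fr_S1_frattini f hf (krad 4 (F ⧸ krad m F)) hWp
  have hP4 : ∀ p ∈ P, p ^ 4 = 1 := by
    intro p hp
    obtain ⟨k, hk⟩ := hP2 ⟨p, hp⟩
    have hk' : p ^ (2 ^ k) = 1 := by simpa using congrArg Subtype.val hk
    have h1 : (p ^ 4) ^ m = 1 := by rw [← pow_mul]; exact hexp p
    have h2 : (p ^ 4) ^ (2 ^ k) = 1 := by rw [← pow_mul, mul_comm, pow_mul, hk', one_pow]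
    exact eq_one_of_coprime_pow (Nat.Coprime.pow_right k (Nat.coprime_two_right.2 hm)) h1 h2
  have hfy0 : (f y0) ^ m = 1 := by rw [← map_pow, hy0, map_one]
  have hfx0 : (f x0) ^ 2 = 1 := by rw [← map_pow, hx0, map_one]
  have hfxy : f x0 * f y0 * f x0 = (f y0)⁻¹ := by rw [← map_mul, ← map_mul, h0, map_inv]
  have hnc : ¬ ∀ w ∈ krad 4 (F ⧸ krad m F), f y0 * w = w * f y0 := by
    intro hc
    have h1 : f y0 ∈ krad 4 (F ⧸ krad m F) :=
      fr_fitting_two hm hsolQ hexpQ (krad_quot hmF) hc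
    have h2 : f y0 = 1 := fr_one hm hfy0 (hW4 _ h1)
    exact h ((mem_krad_iff hm hexp).1 ((QuotientGroup.eq_one_iff y0).1 h2))
  -- the involution
  obtain ⟨n, hn, hnx⟩ := hN (f x0)
  have hn2 : (n ^ 2) ^ m = 1 := by
    apply hker
    rw [map_pow, hnx, hfx0]
  have hx2 : (n ^ m) ^ 2 = 1 := by rw [← pow_mul, mul_comm, pow_mul, hn2]
  have hmodd : ∀ {G : Type u} [Group G] {z : G}, z ^ 2 = 1 → z ^ m = z := by
    intro G _ z hz
    obtain ⟨k, hk⟩ := hm
    rw [hk, pow_succ, pow_mul, hz, one_pow, one_mul]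
  have hfx : f (n ^ m) = f x0 := by
    rw [map_pow, hnx]
    exact hmodd hfx0
  obtain ⟨x, hxdef⟩ : ∃ x, x = n ^ m := ⟨_, rfl⟩
  rw [← hxdef] at hx2 hfx
  have hxN : x ∈ normalizer (P : Set F) := by
    rw [hxdef]
    exact (normalizer (P : Set F)).pow_mem hn m
  have hxinv := fr_inv_of_sq hx2
  have hxx := fr_mul_self hx2
  -- the odd element
  obtain ⟨g, hg, hgy⟩ := hN ((f y0) ^ ((m + 1) / 2))
  have hfh : f (x * (g⁻¹ * x * g)) = f y0 := by
    have h1 : f x0 * (f g) * f x0 = (f g)⁻¹ := by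
      rw [hgy, fr_S1_conj_pow hfx0 hfxy, inv_pow]
    have hfxi := fr_inv_of_sq hfx0
    have h2 : f x0 * (f g)⁻¹ * f x0 = f g := by
      have h3 := congrArg (fun z => z⁻¹) h1
      simp only [mul_inv_rev, inv_inv, hfxi] at h3
      rw [← mul_assoc] at h3
      exact h3
    rw [map_mul, map_mul, map_mul, map_inv, hfx, ← mul_assoc, ← mul_assoc, h2, ← pow_two, hgy,
      fr_sqrt hm hfy0]
  have hhx : x * (x * (g⁻¹ * x * g)) * x = (x * (g⁻¹ * x * g))⁻¹ := by
    rw [mul_inv_rev, mul_inv_rev, mul_inv_rev, inv_inv, hxinv, ← mul_assoc, hxx, one_mul]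
    group
  have hhN : x * (g⁻¹ * x * g) ∈ normalizer (P : Set F) := by
    exact (normalizer (P : Set F)).mul_mem hxN ((normalizer (P : Set F)).mul_mem
      ((normalizer (P : Set F)).mul_mem ((normalizer (P : Set F)).inv_mem hg) hxN) hg)
  obtain ⟨y, hydef⟩ : ∃ y, y = (x * (g⁻¹ * x * g)) ^ (oN m) := ⟨_, rfl⟩
  have hyN : y ∈ normalizer (P : Set F) := by
    rw [hydef]
    exact (normalizer (P : Set F)).pow_mem hhN _
  have hfy : f y = f y0 := by rw [hydef, map_pow, hfh, fr_oN_odd hfy0]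
  refine ⟨P, x, y, hP4, hx2, ?_, ?_, ?_, ?_, ?_⟩
  · rw [hydef]; exact fr_oN_pow hm hexp _
  · rw [hydef, fr_S1_conj_pow hx2 hhx, inv_pow]
  · intro p hp
    have h1 := (mem_normalizer_iff.1 hxN p).1 hp
    rwa [hxinv] at h1
  · intro p hp
    exact (mem_normalizer_iff.1 hyN p).1 hp
  · by_contra hcon
    push Not at hcon
    apply hnc
    intro w hw
    obtain ⟨p, hp, rfl⟩ := hcov w hw
    rw [← hfy, ← map_mul, ← map_mul, hcon p hp]

end Pool.Agent.Lib.MP_544bd1_al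
end

section

/-!
Exponents `4 * m`: (D1a).
-/

namespace Pool.Agent.Lib.MP_544bd1_al

open Subgroup

universe u v

variable {X : Type u} [Group X] {m : ℕ}

/-- stability under conjugation by the elements of `T` -/
private def Stab (T : Set X) (B : Subgroup X) : Prop := ∀ g ∈ T, ∀ b ∈ B, g * b * g⁻¹ ∈ B

private theorem stab_comm {T : Set X} {A B : Subgroup X} (hA : Stab T A) (hB : Stab T B) :
    Stab T ⁅A, B⁆ := by
  intro g hg c hc
  have h1 : ⁅A, B⁆ ≤ (⁅A, B⁆).comap (MulAut.conj g).toMonoidHom := by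
    rw [Subgroup.commutator_le]
    intro a ha b hb
    rw [Subgroup.mem_comap, map_commutatorElement]
    exact Subgroup.commutator_mem_commutator (hA g hg a ha) (hB g hg b hb)
  exact h1 hc

/-- (D1a) minimal invariant subgroup of the odd radical.

Proof. Consider the subgroups `A ≤ krad m X` normalized by `x`, `y` and all `v ∈ V`, and not
centralized by `V`. `krad m X` is one of them: otherwise `V ≤ krad m X` by `fr_fitting_odd`, so
`v ^ m = 1 = v ^ 2`, `V = ⊥`, contradicting `hS.act`. Let `A` be one of minimal order; every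
proper invariant subgroup of `A` is centralized by `V`. `⁅A, V⁆` is invariant and contained in `A`; if
it is proper then for `a ∈ A`, `v ∈ V` the element `d = a⁻¹ (v a v)` is centralized by `v` and
inverted by `v` (`fr_inverted`), so `d ^ 2 = 1`, `d = 1`, contradiction; so `⁅A, V⁆ = A`. `⁅A, A⁆` is
invariant and proper (`A` is solvable, nontrivial), so centralized by `V`. Three subgroups lemma:
`⁅⁅V, ⁅A, A⁆⁆, A⁆ = ⊥` and `⁅⁅⁅A, A⁆, A⁆, V⁆ = ⊥` imply `⁅⁅A, V⁆, ⁅A, A⁆⁆ = ⊥`, i.e. commutators of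
`A` are central in `A`. Finally `{v ∈ V | v` centralizes `A}` is normalized by `x`, `y`, so it is
`⊥` or `V` (`hS.irr`), and it is not `V`. -/
theorem fr_D1a [Finite X] (hm : Odd m) (hsol : Group.IsSolvable X)
    (hexp : ∀ x : X, x ^ (4 * m) = 1) (h4 : krad 4 X = ⊥) {x y : X} {V : Subgroup X}
    (hS : SConf m x y V) :
    ∃ A : Subgroup X, (∀ a ∈ A, a ^ m = 1) ∧ (∀ a ∈ A, x * a * x ∈ A) ∧
      (∀ v ∈ V, ∀ a ∈ A, v * a * v ∈ A) ∧
      (∀ a ∈ A, ∀ b ∈ A, ∀ c ∈ A, (a⁻¹ * b⁻¹ * a * b) * c = c * (a⁻¹ * b⁻¹ * a * b)) ∧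
      (∀ a ∈ A, ∀ b ∈ A, ∀ v ∈ V, v * (a⁻¹ * b⁻¹ * a * b) = (a⁻¹ * b⁻¹ * a * b) * v) ∧
      ∀ z ∈ V, z ≠ 1 → ∃ a ∈ A, z * a ≠ a * z := by
  classical
  have hxi : x⁻¹ = x := fr_inv_of_sq hS.hx
  have hxx : x * x = 1 := fr_mul_self hS.hx
  have hvi : ∀ v ∈ V, v⁻¹ = v := fun v hv => fr_inv_of_sq (hS.sq v hv)
  have hvv : ∀ v ∈ V, v * v = 1 := fun v hv => fr_mul_self (hS.sq v hv)
  set T : Set X := {x, y} ∪ (V : Set X) with hT
  have hxT : x ∈ T := by simp [hT]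
  have hyT : y ∈ T := by simp [hT]
  have hVT : ∀ v ∈ V, v ∈ T := fun v hv => by simp [hT, hv]
  have stV : Stab T V := by
    rintro g ((rfl | rfl) | hg) b hb
    · rw [hxi]; exact hS.nx b hb
    · exact hS.ny b hb
    · exact V.mul_mem (V.mul_mem hg hb) (V.inv_mem hg)
  let S : Set (Subgroup X) := {B | B ≤ krad m X ∧ Stab T B ∧ ∃ v ∈ V, ∃ a ∈ B, v * a ≠ a * v}
  have hne : S.Nonempty := by
    refine ⟨krad m X, le_rfl, fun g _ b hb => (krad_normal m X).conj_mem b hb g, ?_⟩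
    by_contra hcon
    push Not at hcon
    obtain ⟨v, hv, hv'⟩ := hS.act
    have h1 : v ∈ krad m X := fr_fitting_odd hm hsol hexp h4 (fun a ha => hcon v hv a ha)
    have h2 : v = 1 := fr_one_two hm (krad_pow (fr_hm hm hexp) v h1) (hS.sq v hv)
    rw [h2, mul_one, hxx] at hv'
    exact hv' rfl
  obtain ⟨A, ⟨hAk, hAst, v0, hv0, a0, ha0, hva0⟩, hmin⟩ := wellFounded_lt.has_min S hne
  have hAm : ∀ a ∈ A, a ^ m = 1 := fun a ha => krad_pow (fr_hm hm hexp) a (hAk ha)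
  have hprop : ∀ B : Subgroup X, B < A → Stab T B → ∀ v ∈ V, ∀ b ∈ B, v * b = b * v := by
    intro B hB hst v hv b hb
    by_contra hcon
    exact hmin B ⟨hB.le.trans hAk, hst, v, hv, b, hb, hcon⟩ hB
  -- the commutator with `V`
  have hD : ⁅A, V⁆ = A := by
    have hle : ⁅A, V⁆ ≤ A := by
      rw [Subgroup.commutator_le]
      intro a ha v hv
      rw [commutatorElement_def, mul_assoc a, mul_assoc a]
      exact A.mul_mem ha (hAst v (hVT v hv) _ (A.inv_mem ha))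
    by_contra hcon
    have hlt : ⁅A, V⁆ < A := lt_of_le_of_ne hle hcon
    apply hva0
    set d : X := a0⁻¹ * (v0 * a0 * v0) with hd
    have h1 := fr_inverted (hS.sq v0 hv0) a0
    rw [← hd] at h1
    have h2 : d ∈ ⁅A, V⁆ := by
      have h3 := Subgroup.commutator_mem_commutator (A.inv_mem ha0) hv0
      rw [commutatorElement_def, inv_inv, hvi v0 hv0] at h3
      rw [hd]
      convert h3 using 1
      group
    have h3 := hprop _ hlt (stab_comm hAst stV) v0 hv0 d h2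
    have h4 : d = d⁻¹ := by
      rw [← h1, h3, mul_assoc, hvv v0 hv0, mul_one]
    have h5 : d ^ 2 = 1 := by
      rw [pow_two]
      nth_rw 2 [h4]
      rw [mul_inv_cancel]
    have h6 : d = 1 := fr_one_two hm (hAm d (hle h2)) h5
    rw [hd, inv_mul_eq_one] at h6
    have h7 : v0 * a0 = (v0 * a0 * v0) * v0 := by rw [mul_assoc (v0 * a0), hvv v0 hv0, mul_one]
    rw [h7, ← h6]
  have hAne : A ≠ ⊥ := by
    rintro rfl
    rw [mem_bot] at ha0
    apply hva0
    rw [ha0, mul_one, one_mul]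
  have hAA : ⁅A, A⁆ < A := by
    have := hsol
    exact Group.IsSolvable.commutator_lt_of_ne_bot hAne
  have hcV : ∀ v ∈ V, ∀ b ∈ ⁅A, A⁆, v * b = b * v := hprop _ hAA (stab_comm hAst hAst)
  have hbot : ⁅A, ⁅A, A⁆⁆ = ⊥ := by
    have h1 : ⁅⁅V, ⁅A, A⁆⁆, A⁆ = ⊥ := by
      have : ⁅V, ⁅A, A⁆⁆ = ⊥ := by
        rw [eq_bot_iff, Subgroup.commutator_le]
        intro v hv b hb
        rw [mem_bot, commutatorElement_eq_one_iff_mul_comm]
        exact hcV v hv b hb
      rw [this, Subgroup.commutator_bot_left]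
    have h2 : ⁅⁅⁅A, A⁆, A⁆, V⁆ = ⊥ := by
      rw [eq_bot_iff, Subgroup.commutator_le]
      intro b hb v hv
      rw [mem_bot, commutatorElement_eq_one_iff_mul_comm]
      have h3 : ⁅⁅A, A⁆, A⁆ ≤ ⁅A, A⁆ := Subgroup.commutator_mono hAA.le le_rfl
      exact (hcV v hv b (h3 hb)).symm
    have h3 := Subgroup.commutator_commutator_eq_bot_of_rotate h1 h2
    rwa [hD] at h3
  have hcomm : ∀ a ∈ A, ∀ b ∈ A, a⁻¹ * b⁻¹ * a * b ∈ ⁅A, A⁆ := by
    intro a ha b hb
    have h3 := Subgroup.commutator_mem_commutator (A.inv_mem ha) (A.inv_mem hb)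
    rw [commutatorElement_def, inv_inv, inv_inv] at h3
    exact h3
  refine ⟨A, hAm, fun a ha => ?_, fun v hv a ha => ?_, fun a ha b hb c hc => ?_,
    fun a ha b hb v hv => hcV v hv _ (hcomm a ha b hb), fun z hz hz1 => ?_⟩
  · have := hAst x hxT a ha
    rwa [hxi] at this
  · have := hAst v (hVT v hv) a ha
    rwa [hvi v hv] at this
  · have h1 := Subgroup.commutator_mem_commutator hc (hcomm a ha b hb)
    rw [hbot, mem_bot, commutatorElement_eq_one_iff_mul_comm] at h1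
    exact h1.symm
  · by_contra hcon
    push Not at hcon
    let K : Subgroup X := V ⊓ Subgroup.centralizer (A : Set X)
    have hK : ∀ w, w ∈ K ↔ w ∈ V ∧ ∀ a ∈ A, w * a = a * w := by
      intro w
      show w ∈ V ∧ w ∈ Subgroup.centralizer (A : Set X) ↔ _
      rw [Subgroup.mem_centralizer_iff]
      constructor
      · rintro ⟨h1, h2⟩
        exact ⟨h1, fun a ha => (h2 a ha).symm⟩
      · rintro ⟨h1, h2⟩
        exact ⟨h1, fun a ha => (h2 a ha).symm⟩
    have hyA : ∀ a ∈ A, y⁻¹ * a * y ∈ A := by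
      intro a ha
      have h1 := hAst x hxT _ (hAst y hyT _ (hAst x hxT a ha))
      have h2 : x * (y * (x * a * x⁻¹) * y⁻¹) * x⁻¹ = (x * y * x) * a * (x * y * x)⁻¹ := by group
      rw [h2, hS.hxy, inv_inv] at h1
      exact h1
    have hKx : ∀ w ∈ K, x * w * x ∈ K := by
      intro w hw
      obtain ⟨h1, h2⟩ := (hK w).1 hw
      refine (hK _).2 ⟨hS.nx w h1, fun a ha => ?_⟩
      have h3 := hAst x hxT a ha
      rw [hxi] at h3
      have h4 := h2 _ h3
      calc x * w * x * a = x * (w * (x * a * x)) * x := by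
            rw [show x * (w * (x * a * x)) * x = x * w * x * a * (x * x) by group, hxx, mul_one]
        _ = x * ((x * a * x) * w) * x := by rw [h4]
        _ = (x * x) * a * (x * w * x) := by group
        _ = a * (x * w * x) := by rw [hxx, one_mul]
    have hKy : ∀ w ∈ K, y * w * y⁻¹ ∈ K := by
      intro w hw
      obtain ⟨h1, h2⟩ := (hK w).1 hw
      refine (hK _).2 ⟨hS.ny w h1, fun a ha => ?_⟩
      have h4 := h2 _ (hyA a ha)
      calc y * w * y⁻¹ * a = y * (w * (y⁻¹ * a * y)) * y⁻¹ := by group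
        _ = y * ((y⁻¹ * a * y) * w) * y⁻¹ := by rw [h4]
        _ = a * (y * w * y⁻¹) := by group
    rcases hS.irr K inf_le_left hKx hKy with h | h
    · have : z ∈ K := (hK z).2 ⟨hz, hcon⟩
      rw [h, mem_bot] at this
      exact hz1 this
    · have : v0 ∈ K := by rw [h]; exact hv0
      exact hva0 (((hK v0).1 this).2 a0 ha0)

end Pool.Agent.Lib.MP_544bd1_al
end

section

/-!
Exponents `4 * m`: (S2b).
-/

namespace Pool.Agent.Lib.MP_544bd1_al

open Subgroup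

universe u v

variable {F : Type u} [Group F] {m : ℕ}

theorem fr_S2b_commsq {a b c : F} (h : a * b = b * a * c) (hc : a * c = c * a)
    (h2 : a ^ 2 * b = b * a ^ 2) : c ^ 2 = 1 := by
  have h3 : a ^ 2 * b = b * a ^ 2 * c ^ 2 := by
    calc a ^ 2 * b = a * (a * b) := by rw [pow_two, mul_assoc]
      _ = a * (b * a * c) := by rw [h]
      _ = (a * b) * (a * c) := by group
      _ = (b * a * c) * (a * c) := by rw [h]
      _ = b * a * (c * a) * c := by group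
      _ = b * a * (a * c) * c := by rw [hc]
      _ = b * a ^ 2 * c ^ 2 := by simp only [pow_two, mul_assoc]
  rw [h2] at h3
  have : b * a ^ 2 * 1 = b * a ^ 2 * c ^ 2 := by rw [mul_one]; exact h3
  exact (mul_left_cancel this).symm

theorem fr_S2b_comm_of_sq {u w : F} (hu : u ^ 2 = 1) (hw : w ^ 2 = 1) (h : (u * w) ^ 2 = 1) :
    u * w = w * u := by
  have h1 : (u * w)⁻¹ = u * w := fr_inv_of_sq h
  rw [mul_inv_rev, fr_inv_of_sq hu, fr_inv_of_sq hw] at h1
  exact h1.symm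

theorem fr_S2b_yinv {x y : F} (hx : x ^ 2 = 1) (hxy : x * y * x = y⁻¹) (Q : Subgroup F)
    (hnx : ∀ v ∈ Q, x * v * x ∈ Q) (hny : ∀ v ∈ Q, y * v * y⁻¹ ∈ Q) :
    ∀ v ∈ Q, y⁻¹ * v * y ∈ Q := by
  intro v hv
  have hxx : x * x = 1 := fr_mul_self hx
  have hxi : x⁻¹ = x := fr_inv_of_sq hx
  have h1 := hnx _ (hny _ (hnx v hv))
  have h2 : y = x * y⁻¹ * x := by
    rw [← hxy]
    calc y = (x * x) * y * (x * x) := by rw [hxx]; simp
      _ = x * (x * y * x) * x := by group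
  have h3 : x * (y * (x * v * x) * y⁻¹) * x = (x * y * x) * v * (x * y⁻¹ * x) := by group
  rw [h3, hxy, ← h2] at h1
  exact h1

theorem fr_S2b_zpow {x y : F} (hx : x ^ 2 = 1) (hxy : x * y * x = y⁻¹) (Q : Subgroup F)
    (hnx : ∀ v ∈ Q, x * v * x ∈ Q) (hny : ∀ v ∈ Q, y * v * y⁻¹ ∈ Q) (j : ℤ) :
    ∀ v ∈ Q, y ^ j * v * y ^ (-j) ∈ Q := by
  intro v hv
  have hyi := fr_S2b_yinv hx hxy Q hnx hny
  induction j using Int.induction_on with
  | zero => simpa using hv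
  | succ i ih =>
    have := hny _ ih
    have e : y * (y ^ (i : ℤ) * v * y ^ (-(i : ℤ))) * y⁻¹
        = y ^ ((i : ℤ) + 1) * v * y ^ (-((i : ℤ) + 1)) := by group
    rwa [e] at this
  | pred i ih =>
    have := hyi _ ih
    have e : y⁻¹ * (y ^ (-(i : ℤ)) * v * y ^ (-(-(i : ℤ)))) * y
        = y ^ (-(i : ℤ) - 1) * v * y ^ (-(-(i : ℤ) - 1)) := by group
    rwa [e] at this

theorem fr_S2b_xconj {x y : F} (hx : x ^ 2 = 1) (hxy : x * y * x = y⁻¹) (j : ℤ) :
    x * y ^ j * x = y ^ (-j) := by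
  have hxi : x⁻¹ = x := fr_inv_of_sq hx
  have h1 : x * y ^ j * x⁻¹ = (x * y * x⁻¹) ^ j := conj_zpow.symm
  rw [hxi, hxy] at h1
  rw [h1, inv_zpow, zpow_neg]

theorem fr_S2b_inv4 [Finite F] (hm : Odd m) (hexp : ∀ x : F, x ^ (4 * m) = 1) {x : F}
    (Q : Subgroup F) (hQ : ∀ v ∈ Q, v ^ 4 = 1) (hnx : ∀ v ∈ Q, x * v * x ∈ Q) {p : F}
    (hp : p ∈ Q) : (p * (x * p * x)) ^ 2 = 1 := by
  have h1 : p * (x * p * x) = (p * x) ^ 2 := by rw [pow_two]; group
  have h2 : (p * (x * p * x)) ^ 4 = 1 := hQ _ (Q.mul_mem hp (hnx p hp))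
  rw [h1, ← pow_mul] at h2
  rw [h1, ← pow_mul]
  exact fr_eight hm hexp h2

/-- case 1 -/
theorem fr_S2b_one [Finite F] (hm : Odd m) (hexp : ∀ x : F, x ^ (4 * m) = 1) {x y : F}
    (hx : x ^ 2 = 1) (hy : y ^ m = 1) (hxy : x * y * x = y⁻¹) (Q : Subgroup F)
    (hQ : ∀ v ∈ Q, v ^ 4 = 1) (hnx : ∀ v ∈ Q, x * v * x ∈ Q) (hny : ∀ v ∈ Q, y * v * y⁻¹ ∈ Q)
    (hc : ∀ s ∈ sqs Q, ∀ q ∈ Q, s * q = q * s) (hcy : ∀ s ∈ sqs Q, y * s = s * y)
    {p : F} (hp : p ∈ Q) (h : y * (p * (x * p * x)) ≠ (p * (x * p * x)) * y) :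
    ∃ V1 ≤ Q, (∀ v ∈ V1, v ^ 2 = 1) ∧ (∀ v ∈ V1, x * v * x ∈ V1) ∧
      (∀ v ∈ V1, y * v * y⁻¹ ∈ V1) ∧ ∃ v ∈ V1, y * v ≠ v * y := by
  have hxx : x * x = 1 := fr_mul_self hx
  have hxi : x⁻¹ = x := fr_inv_of_sq hx
  have hxp := hnx p hp
  set q := x * p * x with hq
  have hxq : x * q * x = p := by
    rw [hq]
    calc x * (x * p * x) * x = (x * x) * p * (x * x) := by group
      _ = p := by rw [hxx]; simp
  set a := p * q with ha
  have haQ : a ∈ Q := Q.mul_mem hp hxp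
  have ha2 : a ^ 2 = 1 := fr_S2b_inv4 hm hexp Q hQ hnx hp
  -- the commutator
  set z := q⁻¹ * p⁻¹ * q * p with hz
  have hzS : z ∈ sqs Q := comm_mem_sqs hxp hp
  have hzQ : z ∈ Q := sqs_le Q hzS
  have hz2 : z ^ 2 = 1 := by
    apply fr_S2b_commsq (a := q) (b := p) (c := z)
    · rw [hz]; group
    · exact (hc z hzS q hxp).symm
    · exact hc _ (sq_mem_sqs hxp) p hp
  have hxa : x * a * x = a * z := by
    have : x * a * x = (x * p * x) * (x * q * x) := by
      rw [ha]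
      calc x * (p * q) * x = x * p * 1 * q * x := by group
        _ = x * p * (x * x) * q * x := by rw [hxx]
        _ = (x * p * x) * (x * q * x) := by group
    rw [this, hxq, ← hq, ha, hz]; group
  have hxz : x * z * x = z := by
    have h1 : a = (x * a * x) * (x * z * x) := by
      calc a = (x * x) * a * (x * x) := by rw [hxx]; simp
        _ = x * (x * a * x) * x := by group
        _ = x * (a * z) * x := by rw [hxa]
        _ = x * a * 1 * z * x := by group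
        _ = x * a * (x * x) * z * x := by rw [hxx]
        _ = (x * a * x) * (x * z * x) := by group
    rw [hxa, mul_assoc] at h1
    have h2 : z * (x * z * x) = 1 := by
      have : a * 1 = a * (z * (x * z * x)) := by rw [mul_one]; exact h1
      exact (mul_left_cancel this).symm
    have h3 : x * z * x = z⁻¹ := (inv_eq_of_mul_eq_one_right h2).symm
    rw [h3]; exact fr_inv_of_sq hz2
  have hyz : ∀ j : ℤ, y ^ j * z = z * y ^ j := fun j =>
    (Commute.zpow_left (show Commute y z from hcy z hzS) j)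
  let b : ℤ → F := fun j => y ^ j * a * y ^ (-j)
  have hbQ : ∀ j, b j ∈ Q := fun j => fr_S2b_zpow hx hxy Q hnx hny j a haQ
  have hb2 : ∀ j, b j ^ 2 = 1 := by
    intro j
    have : b j = y ^ j * a * (y ^ j)⁻¹ := by simp only [b, zpow_neg]
    rw [this, conj_pow, ha2]; simp
  have hxb : ∀ j, x * b j * x = b (-j) * z := by
    intro j
    have h1 : x * b j * x = (x * y ^ j * x) * (x * a * x) * (x * y ^ (-j) * x) := by
      simp only [b]
      calc x * (y ^ j * a * y ^ (-j)) * x = x * y ^ j * 1 * a * 1 * y ^ (-j) * x := by group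
        _ = x * y ^ j * (x * x) * a * (x * x) * y ^ (-j) * x := by rw [hxx]
        _ = (x * y ^ j * x) * (x * a * x) * (x * y ^ (-j) * x) := by group
    rw [h1, fr_S2b_xconj hx hxy, fr_S2b_xconj hx hxy, hxa]
    simp only [b, neg_neg]
    calc y ^ (-j) * (a * z) * y ^ j = y ^ (-j) * a * (z * y ^ j) := by group
      _ = y ^ (-j) * a * (y ^ j * z) := by rw [hyz]
      _ = y ^ (-j) * a * y ^ j * z := by group
  have hcb1 : ∀ j, b j * b (-j) = b (-j) * b j := by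
    intro j
    apply fr_S2b_comm_of_sq (hb2 j) (hb2 (-j))
    have h1 := fr_S2b_inv4 hm hexp Q hQ hnx (hbQ j)
    rw [hxb j] at h1
    have h2 : b j * (b (-j) * z) = (b j * b (-j)) * z := (mul_assoc (b j) (b (-j)) z).symm
    rw [h2] at h1
    have h3 : Commute (b j * b (-j)) z :=
      (hc z hzS _ (Q.mul_mem (hbQ j) (hbQ (-j)))).symm
    rw [h3.mul_pow, hz2, mul_one] at h1
    exact h1
  have hcb2 : ∀ j, b (2 * j) * a = a * b (2 * j) := by
    intro j
    have h1 := hcb1 j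
    have e1 : y ^ j * (b j * b (-j)) * y ^ (-j) = b (2 * j) * a := by
      simp only [b]
      rw [two_mul]; group
    have e2 : y ^ j * (b (-j) * b j) * y ^ (-j) = a * b (2 * j) := by
      simp only [b]
      rw [two_mul]; group
    rw [← e1, ← e2, h1]
  have hcb3 : ∀ i, b i * a = a * b i := by
    intro i
    rcases Int.even_or_odd i with ⟨j, hj⟩ | ⟨j, hj⟩
    · have := hcb2 j
      rwa [show (2 : ℤ) * j = i by omega] at this
    · obtain ⟨k, hk⟩ := hm
      have h1 : b i = b (i + m) := by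
        simp only [b]
        have : y ^ (m : ℤ) = 1 := by rw [zpow_natCast]; exact hy
        rw [zpow_add, neg_add, zpow_add, zpow_neg y (m : ℤ), this]
        simp
      have := hcb2 (j + k + 1)
      rw [h1]
      rwa [show (2 : ℤ) * (j + k + 1) = i + m by rw [hk, hj]; push_cast; ring] at this
  have hcb4 : ∀ i j, b i * b j = b j * b i := by
    intro i j
    have h1 := hcb3 (i - j)
    have e1 : y ^ j * (b (i - j) * a) * y ^ (-j) = b i * b j := by
      simp only [b]; group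
    have e2 : y ^ j * (a * b (i - j)) * y ^ (-j) = b j * b i := by
      simp only [b]; group
    rw [← e1, ← e2, h1]
  -- the subgroup
  let S : Set F := Set.range b ∪ {z}
  have hS : ∀ u ∈ S, ∀ w ∈ S, u * w = w * u := by
    rintro u (⟨i, rfl⟩ | hu) w (⟨j, rfl⟩ | hw)
    · exact hcb4 i j
    · rw [Set.mem_singleton_iff] at hw; subst hw
      exact (hc z hzS _ (hbQ i)).symm
    · rw [Set.mem_singleton_iff] at hu; subst hu
      exact hc z hzS _ (hbQ j)
    · rw [Set.mem_singleton_iff] at hu hw; subst hu; subst hw; rfl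
  have hcomm : ∀ u ∈ closure S, ∀ w ∈ closure S, u * w = w * u := by
    intro u hu w hw
    induction hu, hw using closure_induction₂ with
    | mem u w hu hw => exact hS u hu w hw
    | one_left w hw => simp
    | one_right u hu => simp
    | mul_left u u' w _ _ _ h1 h2 =>
      exact (Commute.mul_left (show Commute u w from h1) (show Commute u' w from h2))
    | mul_right u w w' _ _ _ h1 h2 =>
      exact (Commute.mul_right (show Commute w' u from h1) (show Commute w' w from h2))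
    | inv_left u w _ _ h1 => exact (Commute.inv_left (show Commute u w from h1))
    | inv_right u w _ _ h1 => exact (Commute.inv_right (show Commute u w from h1))
  refine ⟨closure S, ?_, ?_, ?_, ?_, a, ?_, h⟩
  · rw [closure_le]
    rintro u (⟨i, rfl⟩ | hu)
    · exact hbQ i
    · rw [Set.mem_singleton_iff] at hu; subst hu; exact hzQ
  · intro w hw
    induction hw using closure_induction with
    | mem u hu =>
      rcases hu with ⟨i, rfl⟩ | hu
      · exact hb2 i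
      · rw [Set.mem_singleton_iff] at hu; subst hu; exact hz2
    | one => simp
    | mul u w hu hw h1 h2 =>
      rw [(show Commute u w from hcomm u hu w hw).mul_pow, h1, h2, mul_one]
    | inv u _ h1 => rw [inv_pow, h1, inv_one]
  · intro w hw
    induction hw using closure_induction with
    | mem u hu =>
      rcases hu with ⟨i, rfl⟩ | hu
      · rw [hxb i]
        exact (closure S).mul_mem (Subgroup.subset_closure (Or.inl ⟨-i, rfl⟩))
          (Subgroup.subset_closure (Or.inr rfl))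
      · rw [Set.mem_singleton_iff] at hu; subst hu; rw [hxz]
        exact Subgroup.subset_closure (Or.inr rfl)
    | one => rw [mul_one, hxx]; exact (closure S).one_mem
    | mul u w _ _ h1 h2 =>
      have : x * (u * w) * x = (x * u * x) * (x * w * x) := by
        calc x * (u * w) * x = x * u * 1 * w * x := by group
          _ = x * u * (x * x) * w * x := by rw [hxx]
          _ = (x * u * x) * (x * w * x) := by group
      rw [this]; exact (closure S).mul_mem h1 h2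
    | inv u _ h1 =>
      have : x * u⁻¹ * x = (x * u * x)⁻¹ := by
        rw [mul_inv_rev, mul_inv_rev, hxi]; group
      rw [this]; exact (closure S).inv_mem h1
  · intro w hw
    induction hw using closure_induction with
    | mem u hu =>
      rcases hu with ⟨i, rfl⟩ | hu
      · apply Subgroup.subset_closure
        left
        refine ⟨i + 1, ?_⟩
        simp only [b]; group
      · rw [Set.mem_singleton_iff] at hu; subst hu
        have : y * z * y⁻¹ = z := by rw [hcy z hzS]; group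
        rw [this]
        exact Subgroup.subset_closure (Or.inr rfl)
    | one => rw [mul_one, mul_inv_cancel]; exact (closure S).one_mem
    | mul u w _ _ h1 h2 =>
      have : y * (u * w) * y⁻¹ = (y * u * y⁻¹) * (y * w * y⁻¹) := by group
      rw [this]; exact (closure S).mul_mem h1 h2
    | inv u _ h1 =>
      have : y * u⁻¹ * y⁻¹ = (y * u * y⁻¹)⁻¹ := by group
      rw [this]; exact (closure S).inv_mem h1
  · apply Subgroup.subset_closure
    left
    refine ⟨0, ?_⟩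
    simp [b]

/-- case 2 -/
theorem fr_S2b_two [Finite F] (hm : Odd m) {x y : F}
    (hx : x ^ 2 = 1) (hy : y ^ m = 1) (hxy : x * y * x = y⁻¹) (Q : Subgroup F)
    (hQ : ∀ v ∈ Q, v ^ 4 = 1) (hnx : ∀ v ∈ Q, x * v * x ∈ Q) (hny : ∀ v ∈ Q, y * v * y⁻¹ ∈ Q)
    (h : ∀ p ∈ Q, y * (p * (x * p * x)) = (p * (x * p * x)) * y) :
    ∀ v ∈ Q, y * v = v * y := by
  have hxx : x * x = 1 := fr_mul_self hx
  have hxi : x⁻¹ = x := fr_inv_of_sq hx
  have hxyi : x * y⁻¹ * x = y := by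
    rw [← hxy]
    calc x * (x * y * x) * x = (x * x) * y * (x * x) := by group
      _ = y := by rw [hxx]; simp
  have key : ∀ p ∈ Q, Commute y (p⁻¹ * (y ^ 2 * p * (y ^ 2)⁻¹)) := by
    intro p hp
    have hpi := Q.inv_mem hp
    have hpi' := hny _ hpi
    have h1 : Commute y (p⁻¹ * (x * p⁻¹ * x)) := h _ hpi
    have h2 : Commute y ((y * p⁻¹ * y⁻¹) * (x * (y * p⁻¹ * y⁻¹) * x)) := h _ hpi'
    set c1 := p⁻¹ * (x * p⁻¹ * x) with hc1
    set c2 := (y * p⁻¹ * y⁻¹) * (x * (y * p⁻¹ * y⁻¹) * x) with hc2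
    have e1 : x * p⁻¹ * x = p * c1 := by rw [hc1]; group
    have e2 : x * (y * p⁻¹ * y⁻¹) * x = y⁻¹ * (x * p⁻¹ * x) * y := by
      calc x * (y * p⁻¹ * y⁻¹) * x = x * y * 1 * p⁻¹ * 1 * y⁻¹ * x := by group
        _ = x * y * (x * x) * p⁻¹ * (x * x) * y⁻¹ * x := by rw [hxx]
        _ = (x * y * x) * (x * p⁻¹ * x) * (x * y⁻¹ * x) := by group
        _ = y⁻¹ * (x * p⁻¹ * x) * y := by rw [hxy, hxyi]
    have e3 : c2 = (y * p⁻¹ * y⁻¹) * (y⁻¹ * (p * c1) * y) := by rw [hc2, e2, e1]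
    have e4 : c2 = y * p⁻¹ * y⁻¹ * y⁻¹ * p * y * c1 := by
      rw [e3]
      have := h1.eq
      calc (y * p⁻¹ * y⁻¹) * (y⁻¹ * (p * c1) * y) = y * p⁻¹ * y⁻¹ * y⁻¹ * p * (c1 * y) := by group
        _ = y * p⁻¹ * y⁻¹ * y⁻¹ * p * (y * c1) := by rw [this]
        _ = _ := by group
    have h3 : Commute y (c2 * c1⁻¹) := h2.mul_right h1.inv_right
    have e5 : c2 * c1⁻¹ = y * (p⁻¹ * (y ^ 2)⁻¹ * p * y ^ 2) * y⁻¹ := by
      rw [e4]; simp only [pow_two]; group
    rw [e5] at h3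
    have h4 : Commute y (p⁻¹ * (y ^ 2)⁻¹ * p * y ^ 2) := by
      have h5 := (Commute.refl y).inv_right.mul_right (h3.mul_right (Commute.refl y))
      have e6 : y⁻¹ * (y * (p⁻¹ * (y ^ 2)⁻¹ * p * y ^ 2) * y⁻¹ * y)
          = p⁻¹ * (y ^ 2)⁻¹ * p * y ^ 2 := by group
      rwa [e6] at h5
    -- conjugate by `y ^ 2` and invert
    have h6 := ((Commute.refl y).pow_right 2).mul_right
      (h4.inv_right.mul_right (((Commute.refl y).pow_right 2).inv_right))
    have e7 : y ^ 2 * ((p⁻¹ * (y ^ 2)⁻¹ * p * y ^ 2)⁻¹ * (y ^ 2)⁻¹)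
        = p⁻¹ * (y ^ 2 * p * (y ^ 2)⁻¹) := by
      generalize y ^ 2 = t
      group
    rwa [e7] at h6
  have hn2 : ∀ v ∈ Q, y ^ 2 * v * (y ^ 2)⁻¹ ∈ Q := by
    intro v hv
    have := hny _ (hny _ hv)
    have e : y * (y * v * y⁻¹) * y⁻¹ = y ^ 2 * v * (y ^ 2)⁻¹ := by
      simp only [pow_two]; group
    rwa [e] at this
  have hy2 : (y ^ 2) ^ m = 1 := by rw [← pow_mul, mul_comm, pow_mul, hy, one_pow]
  have h7 := fr_coprime_trivial hm Q hQ hy2 hn2 (fun p hp => ((key p hp).pow_left 2).eq)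
  intro v hv
  have h8 : Commute (y ^ 2) v := h7 v hv
  have h9 := h8.pow_left ((m + 1) / 2)
  rw [← pow_mul, mul_comm, pow_mul, fr_sqrt hm hy] at h9
  exact h9

/-- (S2b) `Q` a 2-group normalized by `x`, `y`, the squares of `Q` are central in `Q` and commute
with `y`; `y` does not centralize `Q`. Then there is `V1` as in `fr_S2c`.

Proof. `S = sqs Q` is central in `Q`, contains all commutators (`comm_mem_sqs`), and
`c ^ 2 = 1` for every commutator `c = a⁻¹ b⁻¹ a b`, `a, b ∈ Q` (class 2: `c ^ 2 = ⁅a ^ 2, b⁆ = 1`).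
For `p ∈ Q`: `(p * x) ^ 4 = 1`: `(p x) ^ 2 = p * (x p x) ∈ Q`, so `(p x) ^ 8 = 1`, use `fr_eight`; so
`a = p * (x p x)` satisfies `a ^ 2 = 1` (*).
Case 1: some `p ∈ Q` has `y * a ≠ a * y`, `a = p (x p x)`. Then `x a x = (x p x) p = a * ζ` with
`ζ = a⁻¹ (x p x) p` a commutator, central, commuting with `y`, `ζ ^ 2 = 1`, `x ζ x = ζ`. For
`j : ℕ` let `b j = y ^ j a y⁻ʲ` (`j` may be taken modulo `m`, e.g. use `j : ℤ` or `y⁻¹ = y ^ (m-1)`);
`(b j) ^ 2 = 1`, `x (b j) x = b (-j) ζ`. By (*) for `p = b j`: `(b j * (b (-j) * ζ)) ^ 2 = 1`, so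
`(b j * b (-j)) ^ 2 = 1`, so `b j`, `b (-j)` commute (`mul_comm_of_sq`-like: involutions with
product of order 2 commute); conjugating with `y ^ j`: `b (2 j)` commutes with `a = b 0`; `m` is odd,
so `b j` commutes with `b 0` for all `j`, and all `b i`, `b j` commute. Let
`V1 = closure ({b j} ∪ {ζ})`: generated by commuting elements of order 2, normalized by `x`, `y`,
contains `a`.
Case 2: `y` commutes with all `p (x p x)`, `p ∈ Q`. Let `C = {q ∈ Q | y q = q y}` (contains `S`, so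
normal in `Q`, normalized by `x`, `y`). `x p x ≡ p⁻¹ ≡ p mod C`. For `p ∈ Q`:
`x (y p y⁻¹) x ≡ y p y⁻¹` and `x (y p y⁻¹) x = y⁻¹ (x p x) y ≡ y⁻¹ p y mod C`, so
`p⁻¹ (y ^ 2 p y⁻²) ∈ C` commutes with `y ^ 2`; by `fr_coprime_trivial` (for `s = y ^ 2`) `y ^ 2`
centralizes `Q`, so `y` does (`fr_sqrt`), contradiction. -/
theorem fr_S2b [Finite F] (hm : Odd m) (hexp : ∀ x : F, x ^ (4 * m) = 1) {x y : F}
    (hx : x ^ 2 = 1) (hy : y ^ m = 1) (hxy : x * y * x = y⁻¹) (Q : Subgroup F)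
    (hQ : ∀ v ∈ Q, v ^ 4 = 1) (hnx : ∀ v ∈ Q, x * v * x ∈ Q) (hny : ∀ v ∈ Q, y * v * y⁻¹ ∈ Q)
    (hc : ∀ s ∈ sqs Q, ∀ q ∈ Q, s * q = q * s) (hcy : ∀ s ∈ sqs Q, y * s = s * y)
    (h : ∃ v ∈ Q, y * v ≠ v * y) :
    ∃ V1 ≤ Q, (∀ v ∈ V1, v ^ 2 = 1) ∧ (∀ v ∈ V1, x * v * x ∈ V1) ∧
      (∀ v ∈ V1, y * v * y⁻¹ ∈ V1) ∧ ∃ v ∈ V1, y * v ≠ v * y := by
  by_cases hcase : ∀ p ∈ Q, y * (p * (x * p * x)) = (p * (x * p * x)) * y
  · exfalso
    obtain ⟨v, hv, hne⟩ := h
    exact hne (fr_S2b_two hm hx hy hxy Q hQ hnx hny hcase v hv)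
  · push Not at hcase
    obtain ⟨p, hp, hne⟩ := hcase
    exact fr_S2b_one hm hexp hx hy hxy Q hQ hnx hny hc hcy hp hne

end Pool.Agent.Lib.MP_544bd1_al
end

section

/-!
Exponents `4 * m`: two elementary computations.
-/

namespace Pool.Agent.Lib.MP_544bd1_al

open Subgroup

universe u v

variable {X : Type u} [Group X] {m : ℕ}

/-- in a class-two situation: `c = e⁻¹ t⁻¹ e t` commutes with `e` and `t`. Then
`e⁻¹ t e t⁻¹ = c⁻¹`, `e t⁻¹ e⁻¹ t = c⁻¹`, `e t e⁻¹ t⁻¹ = c` and `c ^ k = (e ^ k)⁻¹ t⁻¹ e ^ k t`. -/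
theorem fr_class_two {e t c : X} (hc : c = e⁻¹ * t⁻¹ * e * t) (hce : c * e = e * c)
    (hct : c * t = t * c) :
    e⁻¹ * t * e * t⁻¹ = c⁻¹ ∧ e * t⁻¹ * e⁻¹ * t = c⁻¹ ∧ e * t * e⁻¹ * t⁻¹ = c ∧
      ∀ k : ℕ, c ^ k = (e ^ k)⁻¹ * t⁻¹ * e ^ k * t := by
  have h1 : t * c * t⁻¹ = c := by rw [← hct]; group
  have h2 : e * c * e⁻¹ = c := by rw [← hce]; group
  have h3 : t⁻¹ * e * t = e * c := by rw [hc]; group
  refine ⟨?_, ?_, ?_, ?_⟩
  · have : (e⁻¹ * t * e * t⁻¹)⁻¹ = c := by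
      calc (e⁻¹ * t * e * t⁻¹)⁻¹ = t * (e⁻¹ * t⁻¹ * e * t) * t⁻¹ := by group
        _ = c := by rw [← hc, h1]
    rw [← inv_inj, inv_inv]
    exact this
  · have : (e * t⁻¹ * e⁻¹ * t)⁻¹ = c := by
      calc (e * t⁻¹ * e⁻¹ * t)⁻¹ = e * (e⁻¹ * t⁻¹ * e * t) * e⁻¹ := by group
        _ = c := by rw [← hc, h2]
    rw [← inv_inj, inv_inv]
    exact this
  · calc e * t * e⁻¹ * t⁻¹ = t * (e * (e⁻¹ * t⁻¹ * e * t) * e⁻¹) * t⁻¹ := by group
      _ = c := by rw [← hc, h2, h1]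
  · intro k
    have h4 : (t⁻¹ * e * t) ^ k = t⁻¹ * e ^ k * t := by
      have := conj_pow (i := k) (a := t⁻¹) (b := e)
      rwa [inv_inv] at this
    rw [h3, (show Commute e c from hce.symm).mul_pow] at h4
    calc c ^ k = (e ^ k)⁻¹ * (e ^ k * c ^ k) := by group
      _ = (e ^ k)⁻¹ * t⁻¹ * e ^ k * t := by rw [h4]; group

/-- relations in `⟨x, v⟩`, `z = (v x) ^ 2`: `z ^ 2 = 1`, `z` commutes with `x`, `v`, and
`x v x = v z`, `x v = v z x`, `v x = x v z` -/
theorem fr_dihedral {x v : X} (hx : x ^ 2 = 1) (hv : v ^ 2 = 1) (hvx : (v * x) ^ 4 = 1) :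
    ((v * x) ^ 2) ^ 2 = 1 ∧ x * (v * x) ^ 2 = (v * x) ^ 2 * x ∧
      v * (v * x) ^ 2 = (v * x) ^ 2 * v ∧ x * v * x = v * (v * x) ^ 2 ∧
      x * v = v * (v * x) ^ 2 * x ∧ v * x = x * v * (v * x) ^ 2 := by
  have hxx : x * x = 1 := fr_mul_self hx
  have hvv : v * v = 1 := fr_mul_self hv
  have hxi : x⁻¹ = x := fr_inv_of_sq hx
  have hvi : v⁻¹ = v := fr_inv_of_sq hv
  have hz : ((v * x) ^ 2) ^ 2 = 1 := by rw [← pow_mul]; exact hvx
  have hzi : ((v * x) ^ 2)⁻¹ = (v * x) ^ 2 := fr_inv_of_sq hz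
  have hxv : (x * v) ^ 2 = (v * x) ^ 2 := by
    have : x * v = (v * x)⁻¹ := by rw [mul_inv_rev, hxi, hvi]
    rw [this, inv_pow, hzi]
  have h4 : x * v * x = v * (v * x) ^ 2 := by
    rw [pow_two]
    calc x * v * x = (v * v) * (x * v * x) := by rw [hvv, one_mul]
      _ = v * (v * x * (v * x)) := by group
  refine ⟨hz, ?_, ?_, h4, ?_, ?_⟩
  · calc x * (v * x) ^ 2 = (x * v) ^ 2 * x := by simp only [pow_two]; group
      _ = (v * x) ^ 2 * x := by rw [hxv]
  · calc v * (v * x) ^ 2 = v * (x * v) ^ 2 := by rw [hxv]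
      _ = (v * x) ^ 2 * v := by simp only [pow_two]; group
  · rw [← h4, mul_assoc (x * v), hxx, mul_one]
  · rw [mul_assoc x v, ← h4]
    calc v * x = (x * x) * (v * x) := by rw [hxx, one_mul]
      _ = x * (x * v * x) := by group

end Pool.Agent.Lib.MP_544bd1_al
end
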