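import Mathlib
import Pool.Agent.Lib.MP_544bd1_al.FrB
import Pool.Agent.Lib.MP_544bd1_al.FrL0
import Pool.Agent.Lib.MP_544bd1_al.TwL3
import Pool.Agent.Lib.MP_544bd1_al.EvD

section

/-!
Exponents `4 * m`: detection of elements outside the odd radical.
-/

namespace Pool.Agent.Lib.MP_544bd1_al

open Subgroup

universe u v

section finite

variable {F : Type u} [Group F] {m : ℕ}

/-- `F` finite solvable, `x ^ 2 = 1`, `s` odd commuting with `x`, `s ∉ O(F)`. Then some `k` commuting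
with `x` has `s⁻¹ * (k⁻¹ * s * k)` not odd.

Proof. `N = krad m F`, `H = F ⧸ N`, `f = mk' N`, `P = krad 4 H`. `krad m H = ⊥` (`krad_quot`,
`fr_hm`). `f s ≠ 1` (`s ∉ N` by `mem_krad_iff`). If `f s` centralized `P`, it would be in `P`
(`fr_fitting_two`), so `(f s) ^ 4 = 1` (`krad_pow`, `fr_h4`), `f s = 1`. So by `fr_AB` there is
`p ∈ P` commuting with `f x`, not commuting with `f s`. Lift `p` to `k` commuting with `x`
(`fr_lift_comm`, the kernel `N` is odd by `krad_pow`). If `(s⁻¹ * (k⁻¹ * s * k)) ^ m = 1`, then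
`c = (f s)⁻¹ * (p⁻¹ * f s * p)` satisfies `c ^ m = 1`, and
`c = ((f s)⁻¹ * p⁻¹ * f s) * p ∈ P`, so `c ^ 4 = 1`, so `c = 1`, contradiction. -/
theorem fr_detect [Finite F] (hm : Odd m) (hsol : Group.IsSolvable F)
    (hexp : ∀ x : F, x ^ (4 * m) = 1) {x s : F} (hx : x ^ 2 = 1) (hs : s ^ m = 1)
    (hxs : x * s = s * x) (h : ¬ InO m (⊤ : Subgroup F) s) :
    ∃ k : F, x * k = k * x ∧ (s⁻¹ * (k⁻¹ * s * k)) ^ m ≠ 1 := by
  have hsN : s ∉ krad m F := fun h1 => h ((mem_krad_iff hm hexp).1 h1)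
  let f := QuotientGroup.mk' (krad m F)
  have hf : Function.Surjective f := QuotientGroup.mk'_surjective (krad m F)
  have hexpH : ∀ y : F ⧸ krad m F, y ^ (4 * m) = 1 := fr_exp_quot hexp (krad m F)
  have hsolH : Group.IsSolvable (F ⧸ krad m F) := by
    haveI := hsol
    exact Group.isSolvable_of_surjective hf
  have hkr : krad m (F ⧸ krad m F) = ⊥ := krad_quot (fr_hm hm hexp)
  have hkerN : ∀ k ∈ f.ker, k ^ m = 1 := by
    intro k hk
    rw [QuotientGroup.ker_mk'] at hk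
    exact krad_pow (fr_hm hm hexp) k hk
  have hfs : f s ≠ 1 := by
    intro h1
    exact hsN ((QuotientGroup.eq_one_iff s).1 h1)
  have hfsm : (f s) ^ m = 1 := by rw [← map_pow, hs, map_one]
  have hP4 : ∀ y ∈ krad 4 (F ⧸ krad m F), y ^ 4 = 1 := krad_pow (fr_h4 hm hexpH)
  by_contra hcon
  push Not at hcon
  have hcent : ∀ p ∈ krad 4 (F ⧸ krad m F), f s * p = p * f s := by
    apply fr_AB hm (krad 4 (F ⧸ krad m F)) hP4 (x := f x) (by rw [← map_pow, hx, map_one]) hfsm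
      (by rw [← map_mul, hxs, map_mul]) (fun p hp => (krad_normal 4 _).conj_mem p hp _)
      (fun p hp => (krad_normal 4 _).conj_mem p hp _)
    intro p hp hxp
    obtain ⟨k, hk1, hk2⟩ := fr_lift_comm hm f hf hkerN hx hxp
    have h1 := hcon k hk1
    have h2 : ((f s)⁻¹ * (p⁻¹ * f s * p)) ^ m = 1 := by
      rw [← hk2, ← map_inv, ← map_inv, ← map_mul, ← map_mul, ← map_mul, ← map_pow, h1, map_one]
    have h3 : (f s)⁻¹ * (p⁻¹ * f s * p) ∈ krad 4 (F ⧸ krad m F) := by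
      have h4 := (krad_normal 4 (F ⧸ krad m F)).conj_mem p⁻¹ (inv_mem hp) (f s)⁻¹
      have h5 := mul_mem h4 hp
      have h6 : (f s)⁻¹ * p⁻¹ * (f s)⁻¹⁻¹ * p = (f s)⁻¹ * (p⁻¹ * f s * p) := by group
      rwa [h6] at h5
    have h7 := fr_one hm h2 (hP4 _ h3)
    have h8 : p⁻¹ * f s * p = f s := (inv_mul_eq_one.1 h7).symm
    calc f s * p = p * (p⁻¹ * f s * p) := by group
      _ = p * f s := by rw [h8]
  have h9 := fr_fitting_two hm hsolH hexpH hkr hcent
  exact hfs (fr_one hm hfsm (hP4 _ h9))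

/-- if the involution `z` inverts no odd element `≠ 1` of the finite solvable group `F`, then `z`
is in the 2-radical, so its product with a 2-element is a 2-element.

Proof. `R = krad 4 F`, `X = F ⧸ R`, `f = mk' R`; `krad 4 X = ⊥`. Claim `f z = 1`. Else `f z` does not
centralize `krad m X` (otherwise `f z ∈ krad m X` by `fr_fitting_odd`, so `(f z) ^ m = 1`,
`(f z) ^ 2 = 1`, `f z = 1`). So some `a ∈ krad m X` has `e = a⁻¹ * (f z * a * f z) ≠ 1`, odd, inverted
by `f z` (`fr_inverted`); lift it (`fr_lift_inv`) to an odd `b` inverted by `z`; `b = 1` by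
hypothesis, so `e = 1`, contradiction. So `z ∈ R` (normal, exponent 4), and for `w ^ 4 = 1`:
`(z * w) ^ 4 ∈ R` (its image is `(f w) ^ 4 = 1`), `((z * w) ^ 4) ^ 4 = 1`, `(z * w) ^ 4 = 1`
(`fr_two_two`). -/
theorem fr_R2 [Finite F] (hm : Odd m) (hsol : Group.IsSolvable F)
    (hexp : ∀ x : F, x ^ (4 * m) = 1) {z : F} (hz : z ^ 2 = 1)
    (h : ∀ e : F, e ^ m = 1 → z * e * z = e⁻¹ → e = 1) {w : F} (hw : w ^ 4 = 1) :
    (z * w) ^ 4 = 1 := by
  let f := QuotientGroup.mk' (krad 4 F)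
  have hf : Function.Surjective f := QuotientGroup.mk'_surjective (krad 4 F)
  have hexpX : ∀ y : F ⧸ krad 4 F, y ^ (4 * m) = 1 := fr_exp_quot hexp (krad 4 F)
  have hsolX : Group.IsSolvable (F ⧸ krad 4 F) := by
    haveI := hsol
    exact Group.isSolvable_of_surjective hf
  have hkr : krad 4 (F ⧸ krad 4 F) = ⊥ := krad_quot (fr_h4 hm hexp)
  have hO : ∀ y ∈ krad m (F ⧸ krad 4 F), y ^ m = 1 := krad_pow (fr_hm hm hexpX)
  have hfz2 : (f z) ^ 2 = 1 := by rw [← map_pow, hz, map_one]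
  have hz1 : f z = 1 := by
    have hcent : ∀ a ∈ krad m (F ⧸ krad 4 F), f z * a = a * f z := by
      intro a ha
      have he1 : f z * (a⁻¹ * (f z * a * f z)) * f z = (a⁻¹ * (f z * a * f z))⁻¹ :=
        fr_inverted hfz2 a
      have he2 : a⁻¹ * (f z * a * f z) ∈ krad m (F ⧸ krad 4 F) := by
        have h1 := (krad_normal m (F ⧸ krad 4 F)).conj_mem a ha (f z)
        rw [fr_inv_of_sq hfz2] at h1
        exact mul_mem (inv_mem ha) h1
      have he3 : (a⁻¹ * (f z * a * f z)) ^ m = 1 := hO _ he2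
      obtain ⟨b, hb1, hb2, hb3⟩ := fr_lift_inv hm hexp f hf hz he3 he1
      have hb4 := h b hb1 hb2
      rw [hb4, map_one] at hb3
      have h2 : f z * a * f z = a := (inv_mul_eq_one.1 hb3.symm).symm
      calc f z * a = f z * a * (f z * f z) := by rw [fr_mul_self hfz2, mul_one]
        _ = (f z * a * f z) * f z := by rw [mul_assoc (f z * a)]
        _ = a * f z := by rw [h2]
    have h1 := fr_fitting_odd hm hsolX hexpX hkr hcent
    exact fr_one_two hm (hO _ h1) hfz2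
  have h2 : f ((z * w) ^ 4) = 1 := by
    rw [map_pow, map_mul, hz1, one_mul, ← map_pow, hw, map_one]
  have h3 : (z * w) ^ 4 ∈ krad 4 F := (QuotientGroup.eq_one_iff _).1 h2
  exact fr_two_two hm hexp (krad_pow (fr_h4 hm hexp) _ h3)

end finite

section ambient

variable {G : Type u} [Group G] {m : ℕ}

/-- `fr_detect` for a finite solvable subgroup `T` of `G` -/
theorem fr_detect_sub (hm : Odd m) (hexp : ∀ x : G, x ^ (4 * m) = 1) (T : Subgroup G) [Finite T]
    (hsol : Group.IsSolvable T) {x s : G} (hxT : x ∈ T) (hx : x ^ 2 = 1) (hsT : s ∈ T)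
    (hs : s ^ m = 1) (hxs : x * s = s * x) (h : ¬ InO m T s) :
    ∃ k ∈ T, x * k = k * x ∧ (s⁻¹ * (k⁻¹ * s * k)) ^ m ≠ 1 := by
  have h' : ¬ InO m (⊤ : Subgroup T) (⟨s, hsT⟩ : T) := by
    rw [InO.top_iff]; exact h
  obtain ⟨k, hk1, hk2⟩ := fr_detect (x := (⟨x, hxT⟩ : T)) hm hsol (fr_exp_sub hexp T)
    (Subtype.ext (by simpa using hx)) (Subtype.ext (by simpa using hs))
    (Subtype.ext (by simpa using hxs)) h'
  refine ⟨k, k.2, by simpa using congrArg Subtype.val hk1, ?_⟩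
  intro h1
  apply hk2
  exact Subtype.ext (by simpa using h1)

/-- if `s⁻¹ * (k⁻¹ * s * k)` is not odd, then `s` is not in `O(T)` for `T ∋ s, k` -/
theorem fr_not_InO_of_mem {T : Subgroup G} {s k : G} (hk : k ∈ T)
    (h : (s⁻¹ * (k⁻¹ * s * k)) ^ m ≠ 1) : ¬ InO m T s :=
  fun h1 => h (h1.comm_odd hk)

/-- if `s⁻¹ * (k⁻¹ * s * k)` is not odd (`s` odd) then `s ∉ O(⟨s, k⁻¹ s k⟩)` -/
theorem fr_not_InO_conj (hm : Odd m) (hexp : ∀ x : G, x ^ (4 * m) = 1) {s k : G} (hs : s ^ m = 1)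
    (h : (s⁻¹ * (k⁻¹ * s * k)) ^ m ≠ 1) : ¬ InO m (closure {s, k⁻¹ * s * k}) s := by
  intro h1
  apply h
  have hs' : (k⁻¹ * s * k) ^ m = 1 := by
    have := conj_pow (i := m) (a := k⁻¹) (b := s)
    rw [inv_inv] at this
    rw [this, hs]; group
  apply h1.closure_odd hm hexp hs'
  have ha : s ∈ closure {s, k⁻¹ * s * k} := subset_closure (by simp)
  have hb : k⁻¹ * s * k ∈ closure {s, k⁻¹ * s * k} := subset_closure (by simp)
  exact mul_mem (inv_mem ha) hb

/-- (J) `T` finite solvable, `s ∈ T` odd, `s ∉ O(T)`. Then there is `k ∈ T` with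
`k ∈ ⟨s, s^k⟩` and `s ∉ O(⟨s, s^k⟩)`.

Proof. Strong induction on `Nat.card T`. By `fr_detect_sub` with `x = 1` there is `k ∈ T` with
`s⁻¹ * (k⁻¹ * s * k)` not odd, so with `J = closure {s, k⁻¹ * s * k} ≤ T`, `s ∉ O(J)`
(`fr_not_InO_conj`). If `k ∈ J` we are done; otherwise `J < T` and the induction hypothesis for
`J` applies. -/
theorem fr_J (hm : Odd m) (hexp : ∀ x : G, x ^ (4 * m) = 1) (T : Subgroup G) [Finite T]
    (hsol : Group.IsSolvable T) {s : G} (hsT : s ∈ T) (hs : s ^ m = 1) (h : ¬ InO m T s) :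
    ∃ k ∈ T, k ∈ closure {s, k⁻¹ * s * k} ∧ ¬ InO m (closure {s, k⁻¹ * s * k}) s := by
  have main : ∀ n : ℕ, ∀ (T : Subgroup G), Finite T → Group.IsSolvable T → s ∈ T →
      ¬ InO m T s → Nat.card T = n →
      ∃ k ∈ T, k ∈ closure {s, k⁻¹ * s * k} ∧ ¬ InO m (closure {s, k⁻¹ * s * k}) s := by
    intro n
    induction n using Nat.strong_induction_on with
    | _ n ih =>
    intro T hfT hsT' hsT h hn
    obtain ⟨k, hkT, _, hk⟩ := fr_detect_sub hm hexp T hsT' (x := 1) (one_mem T) (one_pow 2) hsT hs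
      (by simp) h
    have hJ := fr_not_InO_conj hm hexp hs hk
    have hJT : closure {s, k⁻¹ * s * k} ≤ T := by
      rw [closure_le]
      rintro y (rfl | rfl)
      · exact hsT
      · exact mul_mem (mul_mem (inv_mem hkT) hsT) hkT
    by_cases hkJ : k ∈ closure {s, k⁻¹ * s * k}
    · exact ⟨k, hkT, hkJ, hJ⟩
    · have hfJ : Finite (closure {s, k⁻¹ * s * k}) :=
        Finite.of_injective _ (Subgroup.inclusion_injective hJT)
      have hsJ : Group.IsSolvable (closure {s, k⁻¹ * s * k}) :=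
        Group.isSolvable_of_isSolvable_injective (Subgroup.inclusion_injective hJT)
      have hlt : Nat.card (closure {s, k⁻¹ * s * k}) < n := by
        rw [← hn]
        have hss : ((closure {s, k⁻¹ * s * k} : Subgroup G) : Set G) ⊂ (T : Set G) := by
          refine ⟨hJT, ?_⟩
          intro h1
          exact hkJ (h1 hkT)
        exact Set.ncard_lt_ncard hss (Set.toFinite _)
      obtain ⟨k', hk1, hk2, hk3⟩ := ih _ hlt _ hfJ hsJ (subset_closure (by simp)) hJ rfl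
      exact ⟨k', hJT hk1, hk2, hk3⟩
  exact main _ T inferInstance hsol hsT h rfl

end ambient

end Pool.Agent.Lib.MP_544bd1_al
end

section

/-!
Two generators, part 2: definitions and first properties.
`M` is the prime to `p` part and `P` the `p`-part of the exponent.
-/

namespace Pool.Agent.Lib.MP_544bd1_al

open Subgroup

/-- `c` lies in a subgroup `N` of `T`, normalized by `T`, which is an extension of a group `K` of
exponent `M` (normalized by `T`) by a group of exponent `P`; i.e. `c ∈ O_{p',p}(T)`. -/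
def InOP (M P : ℕ) {G : Type} [Group G] (T : Subgroup G) (c : G) : Prop :=
  ∃ N K : Subgroup G, K ≤ N ∧ N ≤ T ∧ c ∈ N ∧ (∀ t ∈ T, ∀ x ∈ N, t * x * t⁻¹ ∈ N) ∧
    (∀ t ∈ T, ∀ x ∈ K, t * x * t⁻¹ ∈ K) ∧ (∀ x ∈ K, x ^ M = 1) ∧ ∀ x ∈ N, x ^ P ∈ K

/-- `c` lies in the normal closure of `z` in `L` (for `z ∈ L`) -/
def InNC {G : Type} [Group G] (L : Subgroup G) (z c : G) : Prop :=
  ∀ N : Subgroup G, z ∈ N → (∀ t ∈ L, ∀ x ∈ N, t * x * t⁻¹ ∈ N) → c ∈ N

/-- good elements: `z ∈ O_{p',p}(T)` for all finite solvable subgroups `T` containing `z` -/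
def GoodS (M P : ℕ) {G : Type} [Group G] (z : G) : Prop :=
  z ^ P = 1 ∧ ∀ T : Subgroup G, Finite T → Group.IsSolvable T → z ∈ T → InOP M P T z

/-- exponent `n`, two-generator subgroups are finite and solvable -/
structure TwG (n : ℕ) (G : Type) [Group G] : Prop where
  pos : 0 < n
  hexp : ∀ x : G, x ^ n = 1
  h2 : ∀ a b : G, Finite (closure {a, b}) ∧ Group.IsSolvable (closure {a, b})

/-- no nontrivial normal subgroup of exponent `M` -/
def NoN (M : ℕ) (G : Type) [Group G] : Prop :=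
  ∀ K : Subgroup G, K.Normal → (∀ x ∈ K, x ^ M = 1) → K = ⊥

section arith

variable {G : Type} [Group G] {M P : ℕ}

theorem tw_one (hcop : Nat.Coprime M P) {x : G} (h1 : x ^ M = 1) (h2 : x ^ P = 1) : x = 1 :=
  eq_one_of_coprime_pow hcop h1 h2

theorem tw_MM (hcop : Nat.Coprime M P) (hexp : ∀ x : G, x ^ (M * P) = 1) {x : G}
    (h : (x ^ M) ^ M = 1) : x ^ M = 1 := by
  apply tw_one hcop h
  rw [← pow_mul]
  exact hexp x

theorem tw_PP (hcop : Nat.Coprime M P) (hexp : ∀ x : G, x ^ (M * P) = 1) {x : G}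
    (h : (x ^ P) ^ P = 1) : x ^ P = 1 := by
  apply tw_one hcop _ h
  rw [← pow_mul, mul_comm]
  exact hexp x

/-- an element of order dividing `M` is a power of its `P`-th power -/
theorem tw_mem_of_pow (hcop : Nat.Coprime M P) {K : Subgroup G} {x : G} (hx : x ^ M = 1)
    (h : x ^ P ∈ K) : x ∈ K := by
  obtain ⟨u, v, huv⟩ : ∃ u v : ℤ, (M : ℤ) * u + (P : ℤ) * v = 1 := by
    refine ⟨Nat.gcdA M P, Nat.gcdB M P, ?_⟩
    have := Nat.gcd_eq_gcd_ab M P
    rw [hcop] at this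
    exact_mod_cast this.symm
  have h1 : x = (x ^ P) ^ v := by
    calc x = x ^ ((M : ℤ) * u + (P : ℤ) * v) := by rw [huv, zpow_one]
      _ = (x ^ M) ^ u * (x ^ P) ^ v := by
        rw [zpow_add, zpow_mul, zpow_mul, zpow_natCast, zpow_natCast]
      _ = (x ^ P) ^ v := by rw [hx, one_zpow, one_mul]
  rw [h1]
  exact K.zpow_mem h v

/-- splitting an element into its `M`-part and its `P`-part -/
theorem tw_split (hcop : Nat.Coprime M P) (x : G) :
    ∃ u v : ℤ, x = (x ^ P) ^ v * (x ^ M) ^ u := by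
  obtain ⟨u, v, huv⟩ : ∃ u v : ℤ, (M : ℤ) * u + (P : ℤ) * v = 1 := by
    refine ⟨Nat.gcdA M P, Nat.gcdB M P, ?_⟩
    have := Nat.gcd_eq_gcd_ab M P
    rw [hcop] at this
    exact_mod_cast this.symm
  refine ⟨u, v, ?_⟩
  calc x = x ^ ((M : ℤ) * u + (P : ℤ) * v) := by rw [huv, zpow_one]
      _ = (x ^ P) ^ v * (x ^ M) ^ u := by
        rw [add_comm, zpow_add, zpow_mul, zpow_mul, zpow_natCast, zpow_natCast]

/-- a commuting product of coprime elements generates both -/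
theorem tw_coprime_comm (hcop : Nat.Coprime M P) {x f : G} (hx : x ^ M = 1) (hf : f ^ P = 1)
    (h : x * f = f * x) : x ∈ zpowers (x * f) ∧ f ∈ zpowers (x * f) := by
  have hc : Commute x f := h
  have h1 : (x * f) ^ P = x ^ P := by rw [hc.mul_pow, hf, mul_one]
  have h2 : (x * f) ^ M = f ^ M := by rw [hc.mul_pow, hx, one_mul]
  constructor
  · apply tw_mem_of_pow hcop hx
    rw [← h1]
    exact pow_mem (mem_zpowers _) P
  · apply tw_mem_of_pow hcop.symm hf
    rw [← h2]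
    exact pow_mem (mem_zpowers _) M

/-- an element of a subgroup `T` acting on a normalized subgroup, inverse version -/
theorem tw_conj_inv {T N : Subgroup G} (h : ∀ t ∈ T, ∀ x ∈ N, t * x * t⁻¹ ∈ N) :
    ∀ t ∈ T, ∀ x ∈ N, t⁻¹ * x * t ∈ N := by
  intro t ht x hx
  have := h t⁻¹ (T.inv_mem ht) x hx
  rwa [inv_inv] at this

end arith

section InOP

variable {G : Type} [Group G] {M P : ℕ} {T T' : Subgroup G} {c : G}

theorem InOP.mem (h : InOP M P T c) : c ∈ T := by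
  obtain ⟨N, K, _, h2, h3, _⟩ := h
  exact h2 h3

theorem InOP.mono (h : InOP M P T c) (hT : T' ≤ T) (hc : c ∈ T') : InOP M P T' c := by
  obtain ⟨N, K, h1, h2, h3, h4, h5, h6, h7⟩ := h
  refine ⟨N ⊓ T', K ⊓ T', inf_le_inf_right _ h1, inf_le_right, ⟨h3, hc⟩, ?_, ?_, ?_, ?_⟩
  · rintro t ht x ⟨hx, hx'⟩
    exact ⟨h4 t (hT ht) x hx, T'.mul_mem (T'.mul_mem ht hx') (T'.inv_mem ht)⟩
  · rintro t ht x ⟨hx, hx'⟩
    exact ⟨h5 t (hT ht) x hx, T'.mul_mem (T'.mul_mem ht hx') (T'.inv_mem ht)⟩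
  · rintro x ⟨hx, _⟩
    exact h6 x hx
  · rintro x ⟨hx, hx'⟩
    exact ⟨h7 x hx, T'.pow_mem hx' _⟩

theorem InOP.pow (h : InOP M P T c) (k : ℕ) : InOP M P T (c ^ k) := by
  obtain ⟨N, K, h1, h2, h3, h4⟩ := h
  exact ⟨N, K, h1, h2, N.pow_mem h3 k, h4⟩

theorem InOP.inv (h : InOP M P T c) : InOP M P T c⁻¹ := by
  obtain ⟨N, K, h1, h2, h3, h4⟩ := h
  exact ⟨N, K, h1, h2, N.inv_mem h3, h4⟩

/-- conjugation inside `T` -/
theorem InOP.conj (h : InOP M P T c) {t : G} (ht : t ∈ T) : InOP M P T (t * c * t⁻¹) := by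
  obtain ⟨N, K, h1, h2, h3, h4, h5⟩ := h
  exact ⟨N, K, h1, h2, h4 t ht c h3, h4, h5⟩

/-- commutators -/
theorem InOP.comm (h : InOP M P T c) {t : G} (ht : t ∈ T) :
    InOP M P T (t⁻¹ * (c⁻¹ * t * c)) := by
  obtain ⟨N, K, h1, h2, h3, h4, h5⟩ := h
  refine ⟨N, K, h1, h2, ?_, h4, h5⟩
  have h6 := tw_conj_inv h4 t ht _ (N.inv_mem h3)
  have h7 := N.mul_mem h6 h3
  rwa [show t⁻¹ * c⁻¹ * t * c = t⁻¹ * (c⁻¹ * t * c) by group] at h7

theorem InOP.comm' (h : InOP M P T c) {t : G} (ht : t ∈ T) :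
    InOP M P T (c⁻¹ * (t⁻¹ * c * t)) := by
  have h1 := (h.comm ht).inv
  rwa [show (t⁻¹ * (c⁻¹ * t * c))⁻¹ = c⁻¹ * (t⁻¹ * c * t) by group] at h1

/-- an element of order dividing `M` of `O_{p',p}(T)` lies in `O_{p'}(T)` -/
theorem InOP.inO (hcop : Nat.Coprime M P) (h : InOP M P T c) (hc : c ^ M = 1) : InO M T c := by
  obtain ⟨N, K, h1, h2, h3, h4, h5, h6, h7⟩ := h
  exact ⟨K, h1.trans h2, tw_mem_of_pow hcop hc (h7 c h3), h5, h6⟩

theorem InO.inOP {T : Subgroup G} {c : G} (h : InO M T c) : InOP M P T c := by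
  obtain ⟨N, h1, h2, h3, h4⟩ := h
  exact ⟨N, N, le_rfl, h1, h2, h3, h3, h4, fun x hx => N.pow_mem hx P⟩

theorem InNC.inOP {L : Subgroup G} {z : G} (h : InNC L z c) (hL : L ≤ T) (hz : InOP M P T z) :
    InOP M P T c := by
  obtain ⟨N, K, h1, h2, h3, h4, h5⟩ := hz
  exact ⟨N, K, h1, h2, h N h3 (fun t ht => h4 t (hL ht)), h4, h5⟩

/-- passing to the subgroup as a type -/
theorem InOP.top_iff {T : Subgroup G} (s : T) :
    InOP M P (⊤ : Subgroup T) s ↔ InOP M P T (s : G) := by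
  constructor
  · rintro ⟨N, K, h1, h2, h3, h4, h5, h6, h7⟩
    refine ⟨N.map T.subtype, K.map T.subtype, Subgroup.map_mono h1, ?_, ⟨s, h3, rfl⟩, ?_, ?_, ?_, ?_⟩
    · rintro _ ⟨x, _, rfl⟩
      exact x.2
    · rintro t ht _ ⟨x, hx, rfl⟩
      exact ⟨⟨t, ht⟩ * x * ⟨t, ht⟩⁻¹, h4 ⟨t, ht⟩ trivial x hx, rfl⟩
    · rintro t ht _ ⟨x, hx, rfl⟩
      exact ⟨⟨t, ht⟩ * x * ⟨t, ht⟩⁻¹, h5 ⟨t, ht⟩ trivial x hx, rfl⟩
    · rintro _ ⟨x, hx, rfl⟩
      have := congrArg Subtype.val (h6 x hx)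
      simpa using this
    · rintro _ ⟨x, hx, rfl⟩
      exact ⟨x ^ P, h7 x hx, by simp⟩
  · rintro ⟨N, K, h1, h2, h3, h4, h5, h6, h7⟩
    refine ⟨N.subgroupOf T, K.subgroupOf T, ?_, le_top, h3, ?_, ?_, ?_, ?_⟩
    · intro x hx
      exact h1 hx
    · intro t _ x hx
      exact h4 t t.2 x hx
    · intro t _ x hx
      exact h5 t t.2 x hx
    · intro x hx
      apply Subtype.ext
      have := h6 (x : G) hx
      simpa using this
    · intro x hx
      have := h7 (x : G) hx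
      rw [Subgroup.mem_subgroupOf]
      simpa using this

/-- `InOP` along an injective homomorphism -/
theorem InOP.comap {G' : Type} [Group G'] (f : G' →* G) (hf : Function.Injective f)
    {L : Subgroup G'} {s : G'} (h : InOP M P (L.map f) (f s)) : InOP M P L s := by
  obtain ⟨N, K, h1, h2, h3, h4, h5, h6, h7⟩ := h
  refine ⟨N.comap f, K.comap f, Subgroup.comap_mono h1, ?_, h3, ?_, ?_, ?_, ?_⟩
  · intro x hx
    obtain ⟨y, hy, hyx⟩ := h2 hx
    rw [← hf hyx]
    exact hy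
  · intro t ht x hx
    rw [Subgroup.mem_comap, map_mul, map_mul, map_inv]
    exact h4 _ ⟨t, ht, rfl⟩ _ hx
  · intro t ht x hx
    rw [Subgroup.mem_comap, map_mul, map_mul, map_inv]
    exact h5 _ ⟨t, ht, rfl⟩ _ hx
  · intro x hx
    apply hf
    rw [map_pow, map_one]
    exact h6 _ hx
  · intro x hx
    rw [Subgroup.mem_comap, map_pow]
    exact h7 _ hx

/-- `InOP` in a subgroup as a type -/
theorem InOP.sub_closure {Γ : Subgroup G} (z t : Γ)
    (h : InOP M P (closure {(z : G), (t : G)}) (z : G)) : InOP M P (closure {z, t}) z := by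
  apply InOP.comap Γ.subtype Γ.subtype_injective
  rw [MonoidHom.map_closure, Set.image_pair]
  exact h

end InOP

section radical

variable {F : Type} [Group F] {M P : ℕ}

theorem tw_exp_quot {n : ℕ} (hexp : ∀ x : F, x ^ n = 1) (N : Subgroup F) [N.Normal] :
    ∀ x : F ⧸ N, x ^ n = 1 := by
  intro x
  obtain ⟨z, rfl⟩ := QuotientGroup.mk'_surjective _ x
  rw [← map_pow, hexp, map_one]

theorem tw_exp_sub {n : ℕ} (hexp : ∀ x : F, x ^ n = 1) (T : Subgroup F) :
    ∀ x : T, x ^ n = 1 := fun x => Subtype.ext (by simpa using hexp x)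

theorem tw_exp_comm (hexp : ∀ x : F, x ^ (M * P) = 1) : ∀ x : F, x ^ (P * M) = 1 := by
  intro x
  rw [mul_comm]
  exact hexp x

theorem tw_krad_pow (hcop : Nat.Coprime M P) (hexp : ∀ x : F, x ^ (M * P) = 1) :
    ∀ x ∈ krad M F, x ^ M = 1 := krad_pow (fun _ h => tw_MM hcop hexp h)

/-- `O_{p'}` in terms of the radical -/
theorem tw_mem_krad_iff (hcop : Nat.Coprime M P) (hexp : ∀ x : F, x ^ (M * P) = 1) {x : F} :
    x ∈ krad M F ↔ InO M (⊤ : Subgroup F) x := by
  constructor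
  · intro hx
    exact ⟨krad M F, le_top, hx, fun t _ y hy => (krad_normal M F).conj_mem y hy t,
      tw_krad_pow hcop hexp⟩
  · rintro ⟨N, _, h2, h3, h4⟩
    exact le_krad ⟨fun y hy g => h3 g trivial y hy⟩ h4 h2

/-- `O_{p',p}` in terms of the radicals -/
theorem tw_op_iff (hcop : Nat.Coprime M P) (hexp : ∀ x : F, x ^ (M * P) = 1) {x : F} :
    InOP M P (⊤ : Subgroup F) x ↔
      QuotientGroup.mk' (krad M F) x ∈ krad P (F ⧸ krad M F) := by
  constructor
  · rintro ⟨N, K, h1, _, h3, h4, h5, h6, h7⟩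
    have hN : N.Normal := ⟨fun y hy g => h4 g trivial y hy⟩
    have hK : K ≤ krad M F := le_krad ⟨fun y hy g => h5 g trivial y hy⟩ h6
    have h8 : N.map (QuotientGroup.mk' (krad M F)) ≤ krad P (F ⧸ krad M F) := by
      apply le_krad (hN.map _ (QuotientGroup.mk'_surjective _))
      rintro _ ⟨y, hy, rfl⟩
      rw [← map_pow, QuotientGroup.mk'_apply, QuotientGroup.eq_one_iff]
      exact hK (h7 y hy)
    exact h8 ⟨x, h3, rfl⟩
  · intro hx
    refine ⟨(krad P (F ⧸ krad M F)).comap (QuotientGroup.mk' (krad M F)), krad M F, ?_, le_top, hx,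
      ?_, ?_, tw_krad_pow hcop hexp, ?_⟩
    · intro y hy
      rw [Subgroup.mem_comap, QuotientGroup.mk'_apply, (QuotientGroup.eq_one_iff y).2 hy]
      exact one_mem _
    · intro t _ y hy
      exact Subgroup.Normal.conj_mem inferInstance y hy t
    · intro t _ y hy
      exact (krad_normal M F).conj_mem y hy t
    · intro y hy
      rw [Subgroup.mem_comap] at hy
      have h1 := tw_krad_pow hcop.symm (tw_exp_comm (tw_exp_quot hexp _)) _ hy
      rwa [← map_pow, QuotientGroup.mk'_apply, QuotientGroup.eq_one_iff] at h1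

theorem tw_krad_quot (hcop : Nat.Coprime M P) (hexp : ∀ x : F, x ^ (M * P) = 1) :
    krad M (F ⧸ krad M F) = ⊥ := krad_quot (fun _ h => tw_MM hcop hexp h)

/-- if `O_{p'}(F) = 1` then `O_{p',p}(F) = O_p(F)` -/
theorem tw_op_of_bot (hM : krad M F = ⊥) {x : F} (h : InOP M P (⊤ : Subgroup F) x) :
    x ∈ krad P F := by
  obtain ⟨N, K, h1, _, h3, h4, h5, h6, h7⟩ := h
  have hN : N.Normal := ⟨fun y hy g => h4 g trivial y hy⟩
  have hK : K ≤ krad M F := le_krad ⟨fun y hy g => h5 g trivial y hy⟩ h6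
  apply le_krad hN _ h3
  intro y hy
  have := hK (h7 y hy)
  rwa [hM, Subgroup.mem_bot] at this

end radical

section mul

variable {G : Type} [Group G] {M P : ℕ} {T : Subgroup G}

/-- `O_{p',p}(T)` is closed under products -/
theorem InOP.mul (hcop : Nat.Coprime M P) (hexp : ∀ x : G, x ^ (M * P) = 1) {c d : G}
    (hc : InOP M P T c) (hd : InOP M P T d) : InOP M P T (c * d) := by
  have hexpT := tw_exp_sub hexp T
  have h1 := (InOP.top_iff (⟨c, hc.mem⟩ : T)).2 hc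
  have h2 := (InOP.top_iff (⟨d, hd.mem⟩ : T)).2 hd
  rw [tw_op_iff hcop hexpT] at h1 h2
  have h3 := mul_mem h1 h2
  rw [← map_mul, ← tw_op_iff hcop hexpT, InOP.top_iff] at h3
  exact h3

/-- `O_{p'}(T)` is closed under products -/
theorem tw_InO_mul (hcop : Nat.Coprime M P) (hexp : ∀ x : G, x ^ (M * P) = 1) {c d : G}
    (hc : InO M T c) (hd : InO M T d) : InO M T (c * d) := by
  have hexpT := tw_exp_sub hexp T
  have h1 := (InO.top_iff (⟨c, hc.mem⟩ : T)).2 hc
  have h2 := (InO.top_iff (⟨d, hd.mem⟩ : T)).2 hd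
  rw [← tw_mem_krad_iff hcop hexpT] at h1 h2
  have h3 := mul_mem h1 h2
  rw [tw_mem_krad_iff hcop hexpT, InO.top_iff] at h3
  exact h3

theorem GoodS.inOP {z : G} (h : GoodS M P z) (T : Subgroup G) (hfin : Finite T)
    (hsol : Group.IsSolvable T) (hz : z ∈ T) : InOP M P T z := h.2 T hfin hsol hz

/-- conjugates of good elements are good -/
theorem GoodS.conj {z : G} (h : GoodS M P z) (g : G) : GoodS M P (g⁻¹ * z * g) := by
  refine ⟨?_, ?_⟩
  · have h1 : g⁻¹ * z * g = g⁻¹ * z * (g⁻¹)⁻¹ := by rw [inv_inv]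
    rw [h1, conj_pow, h.1, mul_one, mul_inv_cancel]
  · intro T hfin hsol hz
    -- the conjugate subgroup
    let T' : Subgroup G := T.map (MulAut.conj g).toMonoidHom
    have hfin' : Finite T' := Set.Finite.to_subtype (Set.Finite.image _ (Set.toFinite (T : Set G)))
    have hsol' : Group.IsSolvable T' :=
      Group.isSolvable_of_surjective (MonoidHom.subgroupMap_surjective (MulAut.conj g).toMonoidHom T)
    have hmem : ∀ x, g⁻¹ * x * g ∈ T → x ∈ T' := by
      intro x hx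
      exact ⟨g⁻¹ * x * g, hx, by simp [mul_assoc]⟩
    obtain ⟨N, K, h1, h2, h3, h4, h5, h6, h7⟩ := h.2 T' hfin' hsol' (hmem z hz)
    have hT' : ∀ t ∈ T, g * t * g⁻¹ ∈ T' := fun t ht => ⟨t, ht, by simp⟩
    refine ⟨N.comap (MulAut.conj g).toMonoidHom, K.comap (MulAut.conj g).toMonoidHom,
      Subgroup.comap_mono h1, ?_, ?_, ?_, ?_, ?_, ?_⟩
    · intro x hx
      obtain ⟨y, hy, hyx⟩ := h2 hx
      have : y = x := (MulAut.conj g).injective hyx
      rw [← this]
      exact hy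
    · rw [Subgroup.mem_comap]
      have : (MulAut.conj g).toMonoidHom (g⁻¹ * z * g) = z := by simp [mul_assoc]
      rw [this]
      exact h3
    · intro t ht x hx
      rw [Subgroup.mem_comap] at hx ⊢
      rw [map_mul, map_mul, map_inv]
      exact h4 _ (hT' t ht) _ hx
    · intro t ht x hx
      rw [Subgroup.mem_comap] at hx ⊢
      rw [map_mul, map_mul, map_inv]
      exact h5 _ (hT' t ht) _ hx
    · intro x hx
      apply (MulAut.conj g).injective
      rw [map_pow, map_one]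
      exact h6 _ hx
    · intro x hx
      rw [Subgroup.mem_comap, map_pow]
      exact h7 _ hx

end mul

end Pool.Agent.Lib.MP_544bd1_al
end
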