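import Mathlib
import Pool.Agent.Lib.MP_544bd1_al.FrB
import Pool.Agent.Lib.MP_544bd1_al.FrM0
import Pool.Agent.Lib.MP_544bd1_al.FrL0
import Pool.Agent.Lib.MP_544bd1_al.TwA
import Pool.Agent.Lib.MP_544bd1_al.E5.Tab1

section

/-!
Exponents `4 * m`: a dihedral group of order 8 acting on the odd radical.
-/

namespace Pool.Agent.Lib.MP_544bd1_al

open Subgroup
open scoped commutatorElement

universe u v

variable {X : Type u} [Group X] {m : ℕ}

/-- conjugation by an involution preserves commutator subgroups of invariant subgroups -/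
theorem fr_T1_st {g : X} (hg : g ^ 2 = 1) {A B : Subgroup X} (hA : ∀ a ∈ A, g * a * g ∈ A)
    (hB : ∀ b ∈ B, g * b * g ∈ B) : ∀ c ∈ ⁅A, B⁆, g * c * g ∈ ⁅A, B⁆ := by
  have hgi := fr_inv_of_sq hg
  have h1 : ⁅A, B⁆ ≤ (⁅A, B⁆).comap (MulAut.conj g).toMonoidHom := by
    rw [Subgroup.commutator_le]
    intro a ha b hb
    rw [Subgroup.mem_comap, map_commutatorElement]
    refine Subgroup.commutator_mem_commutator ?_ ?_
    · show g * a * g⁻¹ ∈ A
      rw [hgi]; exact hA a ha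
    · show g * b * g⁻¹ ∈ B
      rw [hgi]; exact hB b hb
  intro c hc
  have h2 : g * c * g⁻¹ ∈ ⁅A, B⁆ := h1 hc
  rwa [hgi] at h2

/-- the minimal invariant subgroup not centralized by `z` -/
theorem fr_T1_min [Finite X] (hm : Odd m) (hsol : Group.IsSolvable X)
    (hexp : ∀ x : X, x ^ (4 * m) = 1) (h4 : krad 4 X = ⊥) {x v z : X} (hx : x ^ 2 = 1)
    (hv : v ^ 2 = 1) (hzd : z = (v * x) ^ 2) (hz2 : z ^ 2 = 1) (hxz : x * z = z * x)
    (hvz : v * z = z * v) (hz : z ≠ 1) :
    ∃ A : Subgroup X, (∀ a ∈ A, a ^ m = 1) ∧ (∀ a ∈ A, x * a * x ∈ A) ∧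
      (∀ a ∈ A, v * a * v ∈ A) ∧ (∀ a ∈ A, z * a * z ∈ A) ∧ (∃ a ∈ A, z * a ≠ a * z) ∧
      ∀ a ∈ A, ∀ b ∈ ⁅A, A⁆, a * b = b * a := by
  have hxi := fr_inv_of_sq hx
  have hvi := fr_inv_of_sq hv
  have hzi := fr_inv_of_sq hz2
  have hxx := fr_mul_self hx
  have hvv := fr_mul_self hv
  have hzz := fr_mul_self hz2
  have hpow := krad_pow (fr_hm hm hexp) (F := X)
  let S : Set (Subgroup X) := {A | A ≤ krad m X ∧ (∀ a ∈ A, x * a * x ∈ A) ∧
    (∀ a ∈ A, v * a * v ∈ A) ∧ ∃ a ∈ A, z * a ≠ a * z}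
  have hne : S.Nonempty := by
    refine ⟨krad m X, le_rfl, ?_, ?_, ?_⟩
    · intro a ha
      have := (krad_normal m X).conj_mem a ha x
      rwa [hxi] at this
    · intro a ha
      have := (krad_normal m X).conj_mem a ha v
      rwa [hvi] at this
    · by_contra hcon
      push Not at hcon
      have h1 : z ∈ krad m X := fr_fitting_odd hm hsol hexp h4 hcon
      exact hz (fr_one_two hm (hpow z h1) hz2)
  obtain ⟨A, ⟨hAk, hAx, hAv, hAz⟩, hmin⟩ := wellFounded_lt.has_min S hne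
  have hAz' : ∀ a ∈ A, z * a * z ∈ A := by
    intro a ha
    have h1 := hAv _ (hAx _ (hAv _ (hAx a ha)))
    have h2 : v * (x * (v * (x * a * x) * v) * x) * v = z * a * z := by
      have h3 : z = x * v * x * v := by
        have h5 : z⁻¹ = ((v * x) ^ 2)⁻¹ := by rw [hzd]
        rw [hzi] at h5
        rw [h5, pow_two, mul_inv_rev, mul_inv_rev, hxi, hvi]
        group
      calc v * (x * (v * (x * a * x) * v) * x) * v = (v * x) ^ 2 * a * (x * v * x * v) := by
            rw [pow_two]; group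
        _ = z * a * z := by rw [← h3, ← hzd]
    rwa [h2] at h1
  have hAp : ∀ a ∈ A, a ^ m = 1 := fun a ha => hpow a (hAk ha)
  have hsmall : ∀ B : Subgroup X, B < A → (∀ b ∈ B, x * b * x ∈ B) → (∀ b ∈ B, v * b * v ∈ B) →
      ∀ b ∈ B, z * b = b * z := by
    intro B hB h1 h2 b hb
    by_contra hcon
    exact hmin B ⟨hB.le.trans hAk, h1, h2, b, hb, hcon⟩ hB
  set Z := zpowers z with hZ
  have hxZ : ∀ w ∈ Z, x * w * x ∈ Z := by
    rintro w ⟨k, rfl⟩
    have h1 : Commute x z := hxz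
    have h2 : x * z ^ k * x = z ^ k := by
      rw [(h1.zpow_right k).eq, mul_assoc, hxx, mul_one]
    show x * z ^ k * x ∈ Z
    rw [h2]
    exact ⟨k, rfl⟩
  have hvZ : ∀ w ∈ Z, v * w * v ∈ Z := by
    rintro w ⟨k, rfl⟩
    have h1 : Commute v z := hvz
    have h2 : v * z ^ k * v = z ^ k := by
      rw [(h1.zpow_right k).eq, mul_assoc, hvv, mul_one]
    show v * z ^ k * v ∈ Z
    rw [h2]
    exact ⟨k, rfl⟩
  have hAZle : ⁅A, Z⁆ ≤ A := by
    rw [Subgroup.commutator_le]
    rintro a ha w ⟨k, rfl⟩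
    have h1 : ∀ k : ℕ, ∀ b ∈ A, z ^ k * b * (z ^ k)⁻¹ ∈ A := by
      intro k
      induction k with
      | zero => intro b hb; simpa using hb
      | succ k ih =>
        intro b hb
        have h2 := hAz' _ (ih b hb)
        have h3 : z * (z ^ k * b * (z ^ k)⁻¹) * z = z ^ (k + 1) * b * (z ^ (k + 1))⁻¹ := by
          rw [pow_succ' z k, mul_inv_rev, hzi]
          group
        rwa [h3] at h2
    have h2 : ∃ j : ℕ, z ^ k = z ^ j := by
      have h5 : z ^ k ∈ Submonoid.powers z := by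
        rw [mem_powers_iff_mem_zpowers]
        exact ⟨k, rfl⟩
      obtain ⟨j, hj⟩ := h5
      exact ⟨j, hj.symm⟩
    obtain ⟨j, hj⟩ := h2
    show ⁅a, z ^ k⁆ ∈ A
    rw [hj, commutatorElement_def]
    have h3 := A.mul_mem ha (h1 j _ (A.inv_mem ha))
    have h4 : a * (z ^ j * a⁻¹ * (z ^ j)⁻¹) = a * z ^ j * a⁻¹ * (z ^ j)⁻¹ := by group
    rwa [h4] at h3
  have hAZ : ⁅A, Z⁆ = A := by
    by_contra hneq
    have hlt : ⁅A, Z⁆ < A := lt_of_le_of_ne hAZle hneq
    have hc := hsmall _ hlt (fr_T1_st hx hAx hxZ) (fr_T1_st hv hAv hvZ)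
    obtain ⟨a, ha, hne⟩ := hAz
    apply hne
    set d := a⁻¹ * (z * a * z) with hd
    have hdm : d ∈ ⁅A, Z⁆ := by
      have h1 := Subgroup.commutator_mem_commutator (A.inv_mem ha) (mem_zpowers z)
      have h2 : ⁅a⁻¹, z⁆ = d := by
        rw [commutatorElement_def, inv_inv, hzi, hd]
        group
      rwa [h2] at h1
    have h1 := fr_inverted hz2 a
    rw [← hd] at h1
    rw [hc d hdm, mul_assoc, hzz, mul_one] at h1
    have h2 : d ^ 2 = 1 := by
      rw [pow_two]
      nth_rewrite 1 [h1]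
      exact inv_mul_cancel d
    have h3 : d = 1 := fr_one_two hm (hAp d (hAZle hdm)) h2
    have h4 : z * a * z = a := by
      have := congrArg (fun y => a * y) h3
      simpa [hd, mul_assoc] using this
    calc z * a = z * a * (z * z) := by rw [hzz, mul_one]
      _ = (z * a * z) * z := by group
      _ = a * z := by rw [h4]
  have hAne : A ≠ ⊥ := by
    rintro rfl
    obtain ⟨a, ha, hne⟩ := hAz
    rw [mem_bot] at ha
    exact hne (by rw [ha, mul_one, one_mul])
  have : Group.IsSolvable X := hsol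
  have hlt : ⁅A, A⁆ < A := Group.IsSolvable.commutator_lt_of_ne_bot hAne
  have hcB := hsmall _ hlt (fr_T1_st hx hAx hAx) (fr_T1_st hv hAv hAv)
  have hbot : ∀ B : Subgroup X, (∀ b ∈ B, z * b = b * z) → ⁅Z, B⁆ = ⊥ := by
    intro B hB
    rw [Subgroup.commutator_eq_bot_iff_le_centralizer]
    rintro w ⟨k, rfl⟩
    rw [Subgroup.mem_centralizer_iff]
    intro b hb
    have h1 : Commute b z := (hB b hb).symm
    exact (h1.zpow_right k).eq
  have h1 : ⁅⁅Z, ⁅A, A⁆⁆, A⁆ = ⊥ := by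
    rw [hbot _ hcB, Subgroup.commutator_bot_left]
  have h2 : ⁅⁅⁅A, A⁆, A⁆, Z⁆ = ⊥ := by
    rw [Subgroup.commutator_comm]
    apply hbot
    intro b hb
    exact hcB b (Subgroup.commutator_mono hlt.le le_rfl hb)
  have h3 : ⁅⁅A, Z⁆, ⁅A, A⁆⁆ = ⊥ := Subgroup.commutator_commutator_eq_bot_of_rotate h1 h2
  rw [hAZ, Subgroup.commutator_eq_bot_iff_le_centralizer] at h3
  refine ⟨A, hAp, hAx, hAv, hAz', hAz, ?_⟩
  intro a ha b hb
  exact ((Subgroup.mem_centralizer_iff.1 (h3 ha)) b hb).symm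

/-- (T1)

Proof. `z = (v * x) ^ 2`. Consider the subgroups `A ≤ krad m X` normalized by `x` and `v`, not
centralized by `z`. `krad m X` is one (otherwise `z ∈ krad m X` by `fr_fitting_odd`, so
`z ^ m = 1 = z ^ 2`, `z = 1`). Let `A` be one of minimal order; every proper subgroup of `A`
normalized by `x`, `v` is centralized by `z`. `⁅A, zpowers z⁆` is normalized by `x`, `v`; if it is
proper, then for `a ∈ A` the element `a⁻¹ (z a z)` is centralized and inverted (`fr_inverted`) by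
`z`, so trivial, contradiction; so `⁅A, zpowers z⁆ = A`. `⁅A, A⁆` is proper (solvable, nontrivial)
and normalized by `x`, `v`, so centralized by `z`; three subgroups lemma: `⁅⁅A, zpowers z⁆, ⁅A, A⁆⁆ = ⊥`,
i.e. commutators of `A` are central in `A`. `fr_F3` for `x`, `z`, `A` gives `e ∈ A`, `e ≠ 1`,
`z e z = e⁻¹`, and `x e x = e` or `x e x = e⁻¹`. In the first case `s = e`, in the second
`s = v e v`: `x s x = (x v) e (x v)⁻¹ = v z (x e x) z v = v z e⁻¹ z v = v e v = s`
(`fr_dihedral`), `z s z = v (z e z) v = s⁻¹`. -/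
theorem fr_T1 [Finite X] (hm : Odd m) (hsol : Group.IsSolvable X)
    (hexp : ∀ x : X, x ^ (4 * m) = 1) (h4 : krad 4 X = ⊥) {x v : X} (hx : x ^ 2 = 1)
    (hv : v ^ 2 = 1) (hvx : (v * x) ^ 4 = 1) (hz : (v * x) ^ 2 ≠ 1) :
    ∃ s : X, s ^ m = 1 ∧ s ≠ 1 ∧ x * s * x = s ∧ (v * x) ^ 2 * s * (v * x) ^ 2 = s⁻¹ ∧
      (s⁻¹ * (v * s * v)⁻¹ * s * (v * s * v)) * s = s * (s⁻¹ * (v * s * v)⁻¹ * s * (v * s * v)) ∧
      (s⁻¹ * (v * s * v)⁻¹ * s * (v * s * v)) * (v * s * v) =
        (v * s * v) * (s⁻¹ * (v * s * v)⁻¹ * s * (v * s * v)) := by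
  obtain ⟨hz2, hxz, hvz, hxvx, hxv, hvx'⟩ := fr_dihedral hx hv hvx
  obtain ⟨A, hAp, hAx, hAv, hAz, hne, hcen⟩ :=
    fr_T1_min hm hsol hexp h4 hx hv rfl hz2 hxz hvz hz
  set z := (v * x) ^ 2 with hzd
  have hxx := fr_mul_self hx
  have hvv := fr_mul_self hv
  have hzz := fr_mul_self hz2
  have hvi := fr_inv_of_sq hv
  have hzi := fr_inv_of_sq hz2
  obtain ⟨e, he, he1, hze, hxe⟩ := fr_F3 hm A hAp hx hz2 hxz hAx hAz hne
  have hcomm : ∀ s ∈ A, (s⁻¹ * (v * s * v)⁻¹ * s * (v * s * v)) * s =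
      s * (s⁻¹ * (v * s * v)⁻¹ * s * (v * s * v)) ∧
      (s⁻¹ * (v * s * v)⁻¹ * s * (v * s * v)) * (v * s * v) =
        (v * s * v) * (s⁻¹ * (v * s * v)⁻¹ * s * (v * s * v)) := by
    intro s hs
    have h1 : s⁻¹ * (v * s * v)⁻¹ * s * (v * s * v) ∈ ⁅A, A⁆ := by
      have h2 := Subgroup.commutator_mem_commutator (A.inv_mem hs) (A.inv_mem (hAv s hs))
      rwa [commutatorElement_def, inv_inv, inv_inv] at h2
    exact ⟨(hcen s hs _ h1).symm, (hcen _ (hAv s hs) _ h1).symm⟩
  rcases hxe with hxe | hxe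
  · obtain ⟨c1, c2⟩ := hcomm e he
    exact ⟨e, hAp e he, he1, hxe, hze, c1, c2⟩
  · obtain ⟨c1, c2⟩ := hcomm _ (hAv e he)
    have hzei : z * e⁻¹ * z = e := by
      have h1 : (z * e * z)⁻¹ = z * e⁻¹ * z := by
        rw [mul_inv_rev, mul_inv_rev, hzi]; group
      rw [← h1, hze, inv_inv]
    refine ⟨v * e * v, hAp _ (hAv e he), ?_, ?_, ?_, c1, c2⟩
    · intro h1
      apply he1
      calc e = (v * v) * e * (v * v) := by rw [hvv]; group
        _ = v * (v * e * v) * v := by group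
        _ = 1 := by rw [h1, mul_one, hvv]
    · calc x * (v * e * v) * x = (x * v) * e * (v * x) := by group
        _ = (v * z * x) * e * (x * v * z) := by rw [← hxv, hvx']
        _ = v * z * (x * e * x) * (v * z) := by group
        _ = v * z * e⁻¹ * (z * v) := by rw [hxe, hvz]
        _ = v * (z * e⁻¹ * z) * v := by group
        _ = v * e * v := by rw [hzei]
    · calc z * (v * e * v) * z = (z * v) * e * (v * z) := by group
        _ = (v * z) * e * (z * v) := by rw [hvz]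
        _ = v * (z * e * z) * v := by group
        _ = v * e⁻¹ * v := by rw [hze]
        _ = (v * e * v)⁻¹ := by rw [mul_inv_rev, mul_inv_rev, hvi]; group

end Pool.Agent.Lib.MP_544bd1_al
end

section

/-!
Exponents `4 * m`: the averaging lemma for a finite normal 2-subgroup `P`.
-/

namespace Pool.Agent.Lib.MP_544bd1_al

open Subgroup

universe u v

variable {H : Type u} [Group H] {m : ℕ}

/-- `w` acts (by conjugation) trivially on `P` modulo squares -/
def TrivMod (P : Subgroup H) (w : H) : Prop := ∀ p ∈ P, p⁻¹ * (w * p * w⁻¹) ∈ sqs P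

theorem TrivMod.of_mem {P : Subgroup H} {w : H} (hw : w ∈ P) : TrivMod P w := by
  intro p hp
  have h := comm_mem_sqs hp (P.inv_mem hw)
  rw [inv_inv] at h
  have h1 : p⁻¹ * (w * p * w⁻¹) = p⁻¹ * w * p * w⁻¹ := by group
  rw [h1]; exact h

theorem TrivMod.of_comm {P : Subgroup H} {w : H} (hw : ∀ p ∈ P, w * p = p * w) : TrivMod P w := by
  intro p hp
  rw [hw p hp]
  have h1 : p⁻¹ * (p * w * w⁻¹) = 1 := by group
  rw [h1]; exact (sqs P).one_mem

theorem TrivMod.mul {P : Subgroup H} (hPn : P.Normal) {v w : H} (hv : TrivMod P v)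
    (hw : TrivMod P w) : TrivMod P (v * w) := by
  intro p hp
  have h1 := hv _ (hPn.conj_mem p hp w)
  have h2 := hw p hp
  have h3 : p⁻¹ * (v * w * p * (v * w)⁻¹) =
      (p⁻¹ * (w * p * w⁻¹)) * ((w * p * w⁻¹)⁻¹ * (v * (w * p * w⁻¹) * v⁻¹)) := by group
  rw [h3]; exact (sqs P).mul_mem h2 h1

/-- **Averaging for a normal 2-subgroup.** `P` a finite normal 2-subgroup of `H` (exponent `4 * m`);
`s` odd, `u s u⁻¹ ≡ t`, `u t u⁻¹ ≡ s⁻¹`, `s`, `t` commute and `u ^ 4 ≡ 1`, all congruences modulo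
elements acting trivially on `P` modulo squares. Then `s` centralizes `P`.

Proof. `S = sqs P` is normal in `H` (`sqs_conj`). Let `X = H ⧸ S`, `M = P.map (mk' S)`: normal,
finite, `x ^ 2 = 1` on `M`. `TrivMod P w` is equivalent to: the image of `w` centralizes `M`. So
`fr_E3` shows `TrivMod P s`, and `fr_sq_trivial` finishes. -/
theorem fr_E5 (hm : Odd m) (hexp : ∀ x : H, x ^ (4 * m) = 1) (P : Subgroup H) [hPn : P.Normal]
    [Finite P] (hP : ∀ x ∈ P, x ^ 4 = 1) {s t u : H} (hs : s ^ m = 1)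
    (h1 : TrivMod P (u * s * u⁻¹ * t⁻¹)) (h2 : TrivMod P (u * t * u⁻¹ * s))
    (h3 : TrivMod P (s * t * s⁻¹ * t⁻¹)) (h5 : TrivMod P (u ^ 4)) : ∀ p ∈ P, s * p = p * s := by
  have hSn : (sqs P).Normal := ⟨fun x hx g => sqs_conj (fun y hy => hPn.conj_mem y hy g) x hx⟩
  have key : ∀ w : H, TrivMod P w ↔
      QuotientGroup.mk' (sqs P) w ∈
        centralizer ((P.map (QuotientGroup.mk' (sqs P)) : Subgroup (H ⧸ sqs P)) :
          Set (H ⧸ sqs P)) := by
    intro w
    have hpt : ∀ p : H, p⁻¹ * (w * p * w⁻¹) ∈ sqs P ↔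
        QuotientGroup.mk' (sqs P) p * QuotientGroup.mk' (sqs P) w =
          QuotientGroup.mk' (sqs P) w * QuotientGroup.mk' (sqs P) p := by
      intro p
      have e0 : p⁻¹ * (w * p * w⁻¹) ∈ sqs P ↔
          QuotientGroup.mk' (sqs P) (p⁻¹ * (w * p * w⁻¹)) = 1 :=
        (QuotientGroup.eq_one_iff _).symm
      rw [e0, map_mul, map_inv, map_mul, map_mul, map_inv]
      generalize QuotientGroup.mk' (sqs P) p = a
      generalize QuotientGroup.mk' (sqs P) w = b
      constructor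
      · intro h
        have h' : b * a * b⁻¹ = a := by
          rw [inv_mul_eq_one] at h
          exact h.symm
        calc a * b = (b * a * b⁻¹) * b := by rw [h']
          _ = b * a := by group
      · intro h
        rw [← h]; group
    rw [mem_centralizer_iff]
    constructor
    · rintro h _ ⟨p, hp, rfl⟩
      exact (hpt p).1 (h p hp)
    · intro h p hp
      exact (hpt p).2 (h _ ⟨p, hp, rfl⟩)
  have hMn : (P.map (QuotientGroup.mk' (sqs P))).Normal :=
    Subgroup.Normal.map hPn _ (QuotientGroup.mk'_surjective _)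
  have hMf : Finite (P.map (QuotientGroup.mk' (sqs P))) := by
    have : Set.Finite ((P.map (QuotientGroup.mk' (sqs P)) : Subgroup (H ⧸ sqs P)) :
        Set (H ⧸ sqs P)) := by
      rw [Subgroup.coe_map]
      exact (Set.toFinite (P : Set H)).image _
    exact this.to_subtype
  have hexp' : ∀ x : H ⧸ sqs P, x ^ (4 * m) = 1 := by
    intro x
    obtain ⟨y, rfl⟩ := QuotientGroup.mk'_surjective (sqs P) x
    rw [← map_pow, hexp, map_one]
  have hM2 : ∀ x ∈ P.map (QuotientGroup.mk' (sqs P)), x ^ 2 = 1 := by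
    rintro _ ⟨p, hp, rfl⟩
    rw [← map_pow]
    exact (QuotientGroup.eq_one_iff _).2 (sq_mem_sqs hp)
  have h4 : QuotientGroup.mk' (sqs P) s ^ m ∈ centralizer
      ((P.map (QuotientGroup.mk' (sqs P)) : Subgroup (H ⧸ sqs P)) : Set (H ⧸ sqs P)) := by
    rw [← map_pow, hs, map_one]
    exact one_mem _
  have hmain := fr_E3 (X := H ⧸ sqs P) (m := m) hm hexp' (P.map (QuotientGroup.mk' (sqs P))) hM2
    (s := QuotientGroup.mk' (sqs P) s) (t := QuotientGroup.mk' (sqs P) t)
    (u := QuotientGroup.mk' (sqs P) u)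
    (by have := (key _).1 h1; simpa only [map_mul, map_inv] using this)
    (by have := (key _).1 h2; simpa only [map_mul, map_inv] using this)
    (by have := (key _).1 h3; simpa only [map_mul, map_inv] using this)
    h4 (by have := (key _).1 h5; simpa only [map_pow] using this)
  have hT : TrivMod P s := (key s).2 hmain
  exact fr_sq_trivial hm P hP hs (fun x hx => hPn.conj_mem x hx s) hT

end Pool.Agent.Lib.MP_544bd1_al
end

section

/-!
Exponents `4 * m`: (S2a).
-/

namespace Pool.Agent.Lib.MP_544bd1_al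

open Subgroup
open scoped commutatorElement

universe u v

variable {F : Type u} [Group F] {m : ℕ}

theorem fr_S2a_conj_zpow [Finite F] {Q : Subgroup F} {y : F} (hny : ∀ v ∈ Q, y * v * y⁻¹ ∈ Q) :
    ∀ z ∈ zpowers y, ∀ v ∈ Q, z * v * z⁻¹ ∈ Q := by
  have h1 : y ∈ normalizer (Q : Set F) := by
    rw [Subgroup.mem_normalizer_iff]
    have hfin : Finite Q := inferInstance
    let f : Q → Q := fun v => ⟨y * v * y⁻¹, hny v v.2⟩
    have hinj : Function.Injective f := by
      intro a b hab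
      have h2 := congrArg Subtype.val hab
      apply Subtype.ext
      simpa [f] using h2
    have hsurj := Finite.surjective_of_injective hinj
    intro v
    constructor
    · intro hv
      exact hny v hv
    · intro hv
      obtain ⟨w, hw⟩ := hsurj ⟨y * v * y⁻¹, hv⟩
      have h2 := congrArg Subtype.val hw
      have h3 : (w : F) = v := by simpa [f] using h2
      rw [← h3]
      exact w.2
  intro z hz v hv
  have h2 : z ∈ normalizer (Q : Set F) := (Subgroup.zpowers_le.2 h1) hz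
  exact (Subgroup.mem_normalizer_iff.1 h2 v).1 hv

theorem fr_S2a_comm_conj {Q Z : Subgroup F} {g : F} (h1 : ∀ v ∈ Q, g * v * g⁻¹ ∈ Q)
    (h2 : ∀ v ∈ Z, g * v * g⁻¹ ∈ Z) : ∀ v ∈ ⁅Q, Z⁆, g * v * g⁻¹ ∈ ⁅Q, Z⁆ := by
  have key : ⁅Q, Z⁆ ≤ (⁅Q, Z⁆).comap (MulAut.conj g).toMonoidHom := by
    rw [Subgroup.commutator_le]
    intro q hq z hz
    rw [Subgroup.mem_comap]
    have h3 : (MulAut.conj g).toMonoidHom ⁅q, z⁆ = ⁅g * q * g⁻¹, g * z * g⁻¹⁆ := by
      show g * ⁅q, z⁆ * g⁻¹ = _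
      simp only [commutatorElement_def]
      group
    rw [h3]
    exact Subgroup.commutator_mem_commutator (h1 q hq) (h2 z hz)
  intro v hv
  exact key hv

/-- (S2a) a minimal `Q`: squares are central and commute with `y`.

Proof. Let `Q ≤ P` be of minimal order among the subgroups normalized by `x` and `y` and not
centralized by `y`. Then `Q ≠ ⊥`, and every proper subgroup of `Q` normalized by `x` and `y` is
centralized by `y`. `⁅Q, zpowers y⁆ ≤ Q` is normalized by `x`, `y`; if it is proper then `y` commutes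
with all `q⁻¹ (y q y⁻¹)`, so by `fr_coprime_trivial` it centralizes `Q`, contradiction; so
`⁅Q, zpowers y⁆ = Q`. `sqs Q` is normalized by `x`, `y` (`sqs_conj`) and proper (`sqs_ne`), so
centralized by `y`. `⁅sqs Q, Q⁆ ≤ sqs Q` is centralized by `y` and `⁅zpowers y, sqs Q⁆ = ⊥`, so by the
three subgroups lemma (`Subgroup.commutator_commutator_eq_bot_of_rotate`)
`⁅⁅Q, zpowers y⁆, sqs Q⁆ = ⊥`, i.e. `⁅Q, sqs Q⁆ = ⊥`. -/
theorem fr_S2a [Finite F] (hm : Odd m) {x y : F} (hx : x ^ 2 = 1) (hy : y ^ m = 1)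
    (hxy : x * y * x = y⁻¹) (P : Subgroup F) (hP : ∀ v ∈ P, v ^ 4 = 1)
    (hnx : ∀ v ∈ P, x * v * x ∈ P) (hny : ∀ v ∈ P, y * v * y⁻¹ ∈ P)
    (h : ∃ v ∈ P, y * v ≠ v * y) :
    ∃ Q ≤ P, (∀ v ∈ Q, x * v * x ∈ Q) ∧ (∀ v ∈ Q, y * v * y⁻¹ ∈ Q) ∧
      (∀ s ∈ sqs Q, ∀ q ∈ Q, s * q = q * s) ∧ (∀ s ∈ sqs Q, y * s = s * y) ∧
      ∃ v ∈ Q, y * v ≠ v * y := by
  have hxi : x⁻¹ = x := fr_inv_of_sq hx
  obtain ⟨Q, hQ, hmin⟩ := WellFounded.has_min
    (wellFounded_lt : WellFounded ((· < ·) : Subgroup F → Subgroup F → Prop))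
    {Q : Subgroup F | Q ≤ P ∧ (∀ v ∈ Q, x * v * x ∈ Q) ∧ (∀ v ∈ Q, y * v * y⁻¹ ∈ Q) ∧
      ∃ v ∈ Q, y * v ≠ v * y} ⟨P, le_rfl, hnx, hny, h⟩
  obtain ⟨hQP, hQx, hQy, hQn⟩ := hQ
  have hQ4 : ∀ v ∈ Q, v ^ 4 = 1 := fun v hv => hP v (hQP hv)
  have hsmall : ∀ R : Subgroup F, R ≤ Q → R ≠ Q → (∀ v ∈ R, x * v * x ∈ R) →
      (∀ v ∈ R, y * v * y⁻¹ ∈ R) → ∀ v ∈ R, y * v = v * y := by
    intro R hR hne h1 h2
    by_contra hcon
    push Not at hcon
    exact hmin R ⟨hR.trans hQP, h1, h2, hcon⟩ (lt_of_le_of_ne hR hne)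
  have hQz := fr_S2a_conj_zpow hQy
  have hCQ : ⁅Q, zpowers y⁆ ≤ Q := by
    rw [Subgroup.commutator_le]
    intro q hq z hz
    rw [commutatorElement_def]
    have h1 := Q.mul_mem hq (hQz z hz q⁻¹ (Q.inv_mem hq))
    simpa [mul_assoc] using h1
  have hxz : ∀ z ∈ zpowers y, x * z * x⁻¹ ∈ zpowers y := by
    rintro _ ⟨k, rfl⟩
    refine ⟨-k, ?_⟩
    show y ^ (-k) = x * y ^ k * x⁻¹
    rw [← conj_zpow, hxi, hxy, inv_zpow, zpow_neg]
  have hyz : ∀ z ∈ zpowers y, y * z * y⁻¹ ∈ zpowers y := fun z hz =>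
    (zpowers y).mul_mem ((zpowers y).mul_mem (mem_zpowers y) hz)
      ((zpowers y).inv_mem (mem_zpowers y))
  have hQx' : ∀ v ∈ Q, x * v * x⁻¹ ∈ Q := fun v hv => by rw [hxi]; exact hQx v hv
  have hCx : ∀ v ∈ ⁅Q, zpowers y⁆, x * v * x ∈ ⁅Q, zpowers y⁆ := fun v hv => by
    have := fr_S2a_comm_conj hQx' hxz v hv
    rwa [hxi] at this
  have hCy : ∀ v ∈ ⁅Q, zpowers y⁆, y * v * y⁻¹ ∈ ⁅Q, zpowers y⁆ := fr_S2a_comm_conj hQy hyz
  have hCeq : ⁅Q, zpowers y⁆ = Q := by
    by_contra hne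
    have h1 := hsmall _ hCQ hne hCx hCy
    obtain ⟨v, hv, hvn⟩ := hQn
    apply hvn
    refine fr_coprime_trivial hm Q hQ4 hy hQy ?_ v hv
    intro w hw
    apply h1
    have h2 := Subgroup.commutator_mem_commutator (Q.inv_mem hw) (mem_zpowers y)
    rw [commutatorElement_def, inv_inv] at h2
    simpa [mul_assoc] using h2
  have hQne : Q ≠ ⊥ := by
    rintro rfl
    obtain ⟨v, hv, hvn⟩ := hQn
    rw [mem_bot] at hv
    exact hvn (by rw [hv, mul_one, one_mul])
  have hsx : ∀ v ∈ sqs Q, x * v * x ∈ sqs Q := fun v hv => by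
    have := sqs_conj hQx' v hv
    rwa [hxi] at this
  have hsy : ∀ v ∈ sqs Q, y * v * y⁻¹ ∈ sqs Q := sqs_conj hQy
  have hcent : ∀ s ∈ sqs Q, y * s = s * y :=
    hsmall _ (sqs_le Q) (sqs_ne Q hQ4 hQne) hsx hsy
  have hcentz : ∀ z ∈ zpowers y, ∀ s ∈ sqs Q, z * s = s * z := by
    rintro _ ⟨k, rfl⟩ s hs
    have h1 : Commute y s := hcent s hs
    exact (h1.zpow_left k)
  have h1 : ⁅⁅zpowers y, sqs Q⁆, Q⁆ = ⊥ := by
    have h2 : ⁅zpowers y, sqs Q⁆ = ⊥ := by
      rw [eq_bot_iff, Subgroup.commutator_le]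
      intro z hz s hs
      rw [mem_bot, commutatorElement_eq_one_iff_mul_comm]
      exact hcentz z hz s hs
    rw [h2, Subgroup.commutator_bot_left]
  have h2 : ⁅⁅sqs Q, Q⁆, zpowers y⁆ = ⊥ := by
    have h3 : ⁅sqs Q, Q⁆ ≤ sqs Q := by
      rw [Subgroup.commutator_le]
      intro s hs q hq
      rw [commutatorElement_def]
      have h4 := (sqs Q).mul_mem hs (sqs_conj (P := Q) (g := q)
        (fun v hv => Q.mul_mem (Q.mul_mem hq hv) (Q.inv_mem hq)) s⁻¹ ((sqs Q).inv_mem hs))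
      simpa [mul_assoc] using h4
    rw [eq_bot_iff, Subgroup.commutator_le]
    intro s hs z hz
    rw [mem_bot, commutatorElement_eq_one_iff_mul_comm]
    exact (hcentz z hz s (h3 hs)).symm
  have h3 := Subgroup.commutator_commutator_eq_bot_of_rotate h1 h2
  rw [hCeq] at h3
  refine ⟨Q, hQP, hQx, hQy, ?_, hcent, hQn⟩
  intro s hs q hq
  have h4 : ⁅q, s⁆ ∈ ⁅Q, sqs Q⁆ := Subgroup.commutator_mem_commutator hq hs
  rw [h3, mem_bot, commutatorElement_eq_one_iff_mul_comm] at h4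
  exact h4.symm

end Pool.Agent.Lib.MP_544bd1_al
end

section

/-!
Exponents `4 * m`: a configuration acting on the odd radical.
-/

namespace Pool.Agent.Lib.MP_544bd1_al

open Subgroup

universe u v

variable {X : Type u} [Group X] {m : ℕ}

/-- (D1)

Proof. Take `A` from `fr_D1a`, `v ∈ V` with `x v x ≠ v` (`hS.act`), `u = v * x`,
`z = u ^ 2 = v * (x v x) ∈ V`, `z ≠ 1`, `z ^ 2 = 1`, `v z = z v` (`V` is commutative since
`v ^ 2 = 1`). `fr_F3` for `v`, `z` and `A` gives `e ∈ A`, `e ≠ 1`, `z e z = e⁻¹` and `v e v = e` or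
`e⁻¹`. Let `t = u e u⁻¹ = v (x e x) v ∈ A`, `c = e⁻¹ t⁻¹ e t`. `v * x = x * v * z` (as
`x v x = v z`), so `t = x v (z e z) v x = x (v e⁻¹ v) x`, and `v t v = x e x`. So if `v e v = e` then
`t = (x e x)⁻¹`, `v t v = t⁻¹`; if `v e v = e⁻¹` then `t = x e x`, `v t v = t`. With `fr_class_two`
`v c v = c⁻¹` in both cases; `v` commutes with `c`; so `c = c⁻¹`, `c ^ 2 = 1`, `c ^ m = 1`
(`c ∈ A`), `c = 1`. -/
theorem fr_D1 [Finite X] (hm : Odd m) (hsol : Group.IsSolvable X)
    (hexp : ∀ x : X, x ^ (4 * m) = 1) (h4 : krad 4 X = ⊥) {x y : X} {V : Subgroup X}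
    (hS : SConf m x y V) :
    ∃ v ∈ V, ∃ e : X, e ^ m = 1 ∧ e ≠ 1 ∧ (v * x) ^ 2 * e * ((v * x) ^ 2)⁻¹ = e⁻¹ ∧
      e * ((v * x) * e * (v * x)⁻¹) = ((v * x) * e * (v * x)⁻¹) * e := by
  obtain ⟨A, hAm, hAx, hAv, hAc, hAcv, hAz⟩ := fr_D1a hm hsol hexp h4 hS
  obtain ⟨v, hvV, hvx⟩ := hS.act
  have hx1 := fr_mul_self hS.hx
  have hx' := fr_inv_of_sq hS.hx
  have hv2 := hS.sq v hvV
  have hv1 := fr_mul_self hv2
  have hv' := fr_inv_of_sq hv2
  have hwV : x * v * x ∈ V := hS.nx v hvV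
  -- `V` is commutative
  have hcomm : ∀ a ∈ V, ∀ b ∈ V, a * b = b * a := by
    intro a ha b hb
    have h1 := fr_inv_of_sq (hS.sq _ (V.mul_mem ha hb))
    rw [mul_inv_rev, fr_inv_of_sq (hS.sq a ha), fr_inv_of_sq (hS.sq b hb)] at h1
    exact h1.symm
  have hz : (v * x) ^ 2 = v * (x * v * x) := by rw [pow_two]; group
  have hzV : (v * x) ^ 2 ∈ V := by rw [hz]; exact V.mul_mem hvV hwV
  have hz2 := hS.sq _ hzV
  have hzinv := fr_inv_of_sq hz2
  have hz1 : (v * x) ^ 2 ≠ 1 := by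
    intro h
    rw [hz] at h
    apply hvx
    have h2 := eq_inv_of_mul_eq_one_right h
    rw [h2, hv']
  obtain ⟨e, heA, he1, hze, hve⟩ := fr_F3 hm A hAm hv2 hz2 (hcomm v hvV _ hzV) (hAv v hvV)
    (hAv _ hzV) (hAz _ hzV hz1)
  -- conjugation by `v` and `x`
  have cv : ∀ a : X, MulAut.conj v a = v * a * v := fun a => by rw [MulAut.conj_apply, hv']
  have cx : ∀ a : X, MulAut.conj x a = x * a * x := fun a => by rw [MulAut.conj_apply, hx']
  have cvv : ∀ a : X, MulAut.conj v (MulAut.conj v a) = a := by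
    intro a
    rw [← MulAut.mul_apply, ← map_mul, hv1, map_one, MulAut.one_apply]
  have cxx : ∀ a : X, MulAut.conj x (MulAut.conj x a) = a := by
    intro a
    rw [← MulAut.mul_apply, ← map_mul, hx1, map_one, MulAut.one_apply]
  have hzc : MulAut.conj v (MulAut.conj x (MulAut.conj v (MulAut.conj x e))) = e⁻¹ := by
    rw [← hze, ← MulAut.mul_apply, ← MulAut.mul_apply, ← MulAut.mul_apply, ← map_mul, ← map_mul,
      ← map_mul, MulAut.conj_apply]
    have h2 : v * x * v * x = (v * x) ^ 2 := by rw [pow_two]; group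
    rw [h2, hzinv]
  have ht1 : MulAut.conj v (MulAut.conj x e) = MulAut.conj x (MulAut.conj v e⁻¹) := by
    rw [← hzc, cvv, cxx]
  obtain ⟨t, ht⟩ : ∃ t : X, t = (v * x) * e * (v * x)⁻¹ := ⟨_, rfl⟩
  have ht2 : t = MulAut.conj v (MulAut.conj x e) := by
    rw [ht, ← MulAut.mul_apply, ← map_mul, MulAut.conj_apply]
  have htA : t ∈ A := by
    rw [ht2, cv, cx]
    exact hAv v hvV _ (hAx e heA)
  obtain ⟨c, hc⟩ : ∃ c : X, c = e⁻¹ * t⁻¹ * e * t := ⟨_, rfl⟩
  have hce : c * e = e * c := by rw [hc]; exact hAc e heA t htA e heA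
  have hct : c * t = t * c := by rw [hc]; exact hAc e heA t htA t htA
  have hcA : c ∈ A := by
    rw [hc]
    exact A.mul_mem (A.mul_mem (A.mul_mem (A.inv_mem heA) (A.inv_mem htA)) heA) htA
  have hcv : v * c = c * v := by rw [hc]; exact hAcv e heA t htA v hvV
  obtain ⟨k1, k2, k3, -⟩ := fr_class_two hc hce hct
  have hcvc : MulAut.conj v c = c := by rw [MulAut.conj_apply, hcv, mul_inv_cancel_right]
  have hcvc' : MulAut.conj v c = c⁻¹ := by
    have h5 : MulAut.conj v c = (MulAut.conj v e)⁻¹ * (MulAut.conj v t)⁻¹ * MulAut.conj v e *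
        MulAut.conj v t := by
      conv_lhs => rw [hc]
      rw [map_mul, map_mul, map_mul, map_inv, map_inv]
    have h6 : MulAut.conj v t = MulAut.conj x e := by rw [ht2, cvv]
    rcases hve with h | h
    · have h7 : MulAut.conj v e = e := by rw [cv]; exact h
      have h8 : MulAut.conj v t = t⁻¹ := by
        rw [h6, ht2, ht1, map_inv, map_inv, h7, inv_inv]
      rw [h5, h7, h8, inv_inv]
      exact k1
    · have h7 : MulAut.conj v e = e⁻¹ := by rw [cv]; exact h
      have h8 : MulAut.conj v t = t := by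
        rw [h6, ht2, ht1, map_inv, h7, inv_inv]
      rw [h5, h7, h8, inv_inv]
      exact k2
  have hc2 : c ^ 2 = 1 := by
    rw [hcvc] at hcvc'
    rw [pow_two]
    nth_rewrite 1 [hcvc']
    exact inv_mul_cancel c
  have hc1 : c = 1 := fr_one_two hm (hAm c hcA) hc2
  refine ⟨v, hvV, e, hAm e heA, he1, ?_, ?_⟩
  · rw [hzinv]; exact hze
  · rw [← ht]
    rw [hc1] at hc
    have h9 : e * t = t * e * (e⁻¹ * t⁻¹ * e * t) := by group
    rw [← hc, mul_one] at h9
    exact h9

end Pool.Agent.Lib.MP_544bd1_al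
end

section

/-!
Exponents `4 * m`: (T2a), (T2b).
-/

namespace Pool.Agent.Lib.MP_544bd1_al

open Subgroup

universe u v

variable {H : Type u} [Group H] {m : ℕ}

/-- (T2a) an odd lift commuting with `c1`: `s` commutes with the odd element `c1` modulo the finite
normal 2-subgroup `P`, `s ^ m ∈ P`. Then there is `b` with `b ^ m = 1`, `b` commutes with `c1`,
`b ≡ s mod P`.

Proof. `fr_lift_comm_two` gives `p ∈ P` such that `g = s * p` commutes with `c1`; `b = g ^ (oN m)`.
In `H ⧸ P` the image of `g` is that of `s`, which satisfies `x ^ m = 1`, so `fr_oN_odd`. -/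
theorem fr_T2a (hm : Odd m) (hexp : ∀ x : H, x ^ (4 * m) = 1) (P : Subgroup H) [P.Normal]
    [Finite P] (hP : ∀ x ∈ P, x ^ 4 = 1) {c1 s : H} (hc : c1 ^ m = 1)
    (h : c1⁻¹ * (s⁻¹ * c1 * s) ∈ P) (hs : s ^ m ∈ P) :
    ∃ b : H, b ^ m = 1 ∧ c1 * b = b * c1 ∧ b⁻¹ * s ∈ P := by
  obtain ⟨p, hp, hc'⟩ := fr_lift_comm_two hm P hP hc
    (fun x hx => (inferInstance : P.Normal).conj_mem x hx c1) h
  refine ⟨(s * p) ^ (oN m), fr_oN_pow hm hexp _, ?_, ?_⟩
  · have h1 : Commute c1 (s * p) := hc'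
    exact (h1.pow_right (oN m)).eq
  · have h2 : (QuotientGroup.mk' P) s ^ m = 1 := by
      rw [← map_pow, QuotientGroup.mk'_apply, QuotientGroup.eq_one_iff]; exact hs
    have h3 : (QuotientGroup.mk' P) p = 1 := by
      rw [QuotientGroup.mk'_apply, QuotientGroup.eq_one_iff]; exact hp
    have h4 : (QuotientGroup.mk' P) (((s * p) ^ (oN m))⁻¹ * s) = 1 := by
      rw [map_mul, map_inv, map_pow, map_mul, h3, mul_one, fr_oN_odd h2, inv_mul_cancel]
    rw [QuotientGroup.mk'_apply, QuotientGroup.eq_one_iff] at h4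
    exact h4

/-- (T2b) the averaging in the centralizer of `c1`: `b`, `b'`, `u1` commute with `c1`, `b` odd,
`u1 b u1⁻¹ ≡ b'`, `u1 b' u1⁻¹ ≡ b⁻¹`, `⁅b, b'⁆ ≡ c1` and `u1 ^ 4 ≡ 1` modulo `P`. Then `b`
centralizes every element of `P` commuting with `c1`.

Proof. Let `H1 = centralizer {c1}` and apply `fr_E5` in the group `↥H1` to `P.subgroupOf H1`
(normal, finite), `s := b`, `t := b'`, `u := u1`: `TrivMod.of_mem` for `h1`, `h2`, `h5`, and for
`⁅b, b'⁆ = c1 * p` (`p ∈ P` commuting with `c1`) `TrivMod.mul`, `TrivMod.of_comm`, `of_mem`. -/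
theorem fr_T2b (hm : Odd m) (hexp : ∀ x : H, x ^ (4 * m) = 1) (P : Subgroup H) [P.Normal]
    [Finite P] (hP : ∀ x ∈ P, x ^ 4 = 1) {c1 b b' u1 : H} (hb : b ^ m = 1)
    (hcb : c1 * b = b * c1) (hcb' : c1 * b' = b' * c1) (hcu : c1 * u1 = u1 * c1)
    (h1 : u1 * b * u1⁻¹ * b'⁻¹ ∈ P) (h2 : u1 * b' * u1⁻¹ * b ∈ P)
    (h3 : c1⁻¹ * (b * b' * b⁻¹ * b'⁻¹) ∈ P) (h5 : u1 ^ 4 ∈ P) :
    ∀ p ∈ P, c1 * p = p * c1 → b * p = p * b := by
  intro p hp hcp
  let H1 : Subgroup H := Subgroup.centralizer {c1}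
  have mem1 : ∀ x : H, c1 * x = x * c1 → x ∈ H1 := by
    intro x hx
    rw [Subgroup.mem_centralizer_iff]
    intro y hy
    rw [Set.mem_singleton_iff] at hy
    rw [hy]; exact hx
  have mem2 : ∀ x ∈ H1, c1 * x = x * c1 := by
    intro x hx
    rw [Subgroup.mem_centralizer_iff] at hx
    exact hx c1 rfl
  let P1 : Subgroup H1 := P.subgroupOf H1
  have hPn : P1.Normal := Subgroup.normal_subgroupOf
  have hmemP : ∀ x : H1, x ∈ P1 ↔ (x : H) ∈ P := fun x => Subgroup.mem_subgroupOf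
  haveI : Finite P1 := by
    refine Finite.of_injective (fun x : P1 => (⟨((x : H1) : H), (hmemP _).1 x.2⟩ : P)) ?_
    intro x y hxy
    apply Subtype.ext
    apply Subtype.ext
    exact congrArg (fun z : P => (z : H)) hxy
  have hexp1 : ∀ x : H1, x ^ (4 * m) = 1 := fun x => Subtype.ext (by simpa using hexp x)
  have hP1 : ∀ x ∈ P1, x ^ 4 = 1 := fun x hx => Subtype.ext (by simpa using hP x ((hmemP x).1 hx))
  let c : H1 := ⟨c1, mem1 c1 rfl⟩
  let B : H1 := ⟨b, mem1 b hcb⟩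
  let B' : H1 := ⟨b', mem1 b' hcb'⟩
  let U : H1 := ⟨u1, mem1 u1 hcu⟩
  have hB : B ^ m = 1 := Subtype.ext (by simpa using hb)
  have t1 : TrivMod P1 (U * B * U⁻¹ * B'⁻¹) := TrivMod.of_mem ((hmemP _).2 h1)
  have t2 : TrivMod P1 (U * B' * U⁻¹ * B) := TrivMod.of_mem ((hmemP _).2 h2)
  have t5 : TrivMod P1 (U ^ 4) := TrivMod.of_mem ((hmemP _).2 h5)
  have t3 : TrivMod P1 (B * B' * B⁻¹ * B'⁻¹) := by
    have e : B * B' * B⁻¹ * B'⁻¹ = c * (c⁻¹ * (B * B' * B⁻¹ * B'⁻¹)) := by group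
    rw [e]
    refine TrivMod.mul hPn (TrivMod.of_comm ?_) (TrivMod.of_mem ((hmemP _).2 h3))
    intro q _
    exact Subtype.ext (mem2 q q.2)
  have key := fr_E5 hm hexp1 P1 hP1 hB t1 t2 t3 t5 ⟨p, mem1 p hcp⟩ ((hmemP _).2 hp)
  exact congrArg (fun z : H1 => (z : H)) key

end Pool.Agent.Lib.MP_544bd1_al
end

section

/-!
Exponents `4 * m`: exact lifting of an element commuting with the involution `x` modulo a normal
2-subgroup.
-/

namespace Pool.Agent.Lib.MP_544bd1_al

open Subgroup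

universe u v

variable {H : Type u} [Group H] {m : ℕ}

/-- (T2) `P` finite normal 2-subgroup, `x`, `v` involutions, `(v x) ^ 4 = 1`, `z = (v x) ^ 2`; `s` is
odd, and modulo `P`: `x` commutes with `s`, `z` inverts `s`, and `c = ⁅s, v s v⁆` commutes with `s`
and `v s v`. Then there is an odd `b ≡ s mod P` commuting exactly with `x`.

Proof. Let `f : H → H ⧸ P`, `t = v * s * v`, `z = (v * x) ^ 2`, `c = s⁻¹ * t⁻¹ * s * t`.
(1) `f (x t x) = (f t)⁻¹`: `x v = v z x` (`fr_dihedral`), so `x t x = (v z x) s (v z x)⁻¹`, image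
`v z s z v ↦ f (v s⁻¹ v)`. `fr_class_two` for `f s`, `f t`: `f x * f c * f x = (f c)⁻¹`,
`(f c) ^ m = 1`. (2) By `fr_lift_inv` there is an odd `c1` with `x c1 x = c1⁻¹`, `f c1 = f c`.
(3) `f c1` commutes with `f s`, `f t`, and with `f (v x)` (`v c v = c⁻¹` exactly, as
`v s v = t`, `v t v = s`). By `fr_T2a` there are odd `b`, `b'` commuting with `c1`, `f b = f s`,
`f b' = f t`; by `fr_lift_comm_two` `u1 = (v x) p` commuting with `c1`. (4) `fr_T2b` applies
(`f (u s u⁻¹) = f (v (x s x) v) = f t`, `f (u t u⁻¹) = f (v (x t x) v) = f (v t⁻¹ v) = (f s)⁻¹` for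
`u = v x`; `f (b b' b⁻¹ b'⁻¹) = f c` by `fr_class_two`; `u ^ 4 = 1`). (5) `x b x` commutes with `c1`
(as `x c1 x = c1⁻¹`), and `p = b⁻¹ * (x b x) ∈ P` commutes with `c1`, so with `b`. Then
`1 = (x b x) ^ m = (b p) ^ m = b ^ m * p ^ m = p ^ m`, so `p = 1` (`fr_one`), `x b = b x`. -/
theorem fr_T2 (hm : Odd m) (hexp : ∀ x : H, x ^ (4 * m) = 1) (P : Subgroup H) [P.Normal]
    [Finite P] (hP : ∀ x ∈ P, x ^ 4 = 1) {x v s : H} (hx : x ^ 2 = 1) (hv : v ^ 2 = 1)
    (hvx : (v * x) ^ 4 = 1) (hs : s ^ m = 1) (h1 : x * s * x * s⁻¹ ∈ P)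
    (h2 : (v * x) ^ 2 * s * (v * x) ^ 2 * s ∈ P)
    (h3 : (s⁻¹ * (v * s * v)⁻¹ * s * (v * s * v)) * s *
      (s * (s⁻¹ * (v * s * v)⁻¹ * s * (v * s * v)))⁻¹ ∈ P)
    (h4 : (s⁻¹ * (v * s * v)⁻¹ * s * (v * s * v)) * (v * s * v) *
      ((v * s * v) * (s⁻¹ * (v * s * v)⁻¹ * s * (v * s * v)))⁻¹ ∈ P) :
    ∃ b : H, b ^ m = 1 ∧ x * b = b * x ∧ b⁻¹ * s ∈ P := by
  set t : H := v * s * v with ht
  set z : H := (v * x) ^ 2 with hz
  set c : H := s⁻¹ * t⁻¹ * s * t with hc
  obtain ⟨hz2, hzx, hzv, hxvx, hxv, hvx'⟩ := fr_dihedral hx hv hvx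
  let f : H →* H ⧸ P := QuotientGroup.mk' P
  have hf : Function.Surjective f := QuotientGroup.mk'_surjective P
  have hfP : ∀ a : H, f a = 1 ↔ a ∈ P := fun a => QuotientGroup.eq_one_iff a
  have hxx := fr_mul_self hx
  have hvv := fr_mul_self hv
  have hxi := fr_inv_of_sq hx
  have hvi := fr_inv_of_sq hv
  have hzi := fr_inv_of_sq hz2
  -- relations in the quotient
  have qX : f x * f x = 1 := by rw [← map_mul, hxx, map_one]
  have qV : f v * f v = 1 := by rw [← map_mul, hvv, map_one]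
  have qXi : (f x)⁻¹ = f x := inv_eq_of_mul_eq_one_left qX
  have qVi : (f v)⁻¹ = f v := inv_eq_of_mul_eq_one_left qV
  have qXS : f x * f s * f x = f s := by
    have h := (hfP _).2 h1
    rw [map_mul, map_inv, mul_inv_eq_one, map_mul, map_mul] at h
    exact h
  have qZS : f z * f s * f z = (f s)⁻¹ := by
    have h := (hfP _).2 h2
    rw [map_mul, map_mul, map_mul] at h
    exact eq_inv_of_mul_eq_one_left h
  have qCS : f c * f s = f s * f c := by
    have h := (hfP _).2 h3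
    rw [map_mul, map_inv, mul_inv_eq_one, map_mul, map_mul] at h
    exact h
  have qCT : f c * f t = f t * f c := by
    have h := (hfP _).2 h4
    rw [map_mul, map_inv, mul_inv_eq_one, map_mul, map_mul] at h
    exact h
  have qT : f t = f v * f s * f v := by rw [ht, map_mul, map_mul]
  have qC : f c = (f s)⁻¹ * (f t)⁻¹ * f s * f t := by
    rw [hc, map_mul, map_mul, map_mul, map_inv, map_inv]
  have qXV : f x * f v = f v * f z * f x := by rw [← map_mul, hxv, map_mul, map_mul]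
  have qVX : f v * f x = f x * f z * f v := by
    have h : v * x = x * z * v := by
      have h5 : (x * v)⁻¹ = (v * z * x)⁻¹ := by rw [hxv]
      rw [mul_inv_rev, mul_inv_rev, mul_inv_rev, hxi, hvi, hzi] at h5
      rw [h5, mul_assoc]
    rw [← map_mul, h, map_mul, map_mul]
  have qXT : f x * f t * f x = (f t)⁻¹ := by
    have e1 : f x * f t * f x = (f x * f v) * f s * (f v * f x) := by rw [qT]; group
    rw [e1, qXV, qVX]
    have e2 : f v * f z * f x * f s * (f x * f z * f v) =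
        f v * (f z * (f x * f s * f x) * f z) * f v := by group
    rw [e2, qXS, qZS, qT, mul_inv_rev, mul_inv_rev, qVi]
    group
  obtain ⟨k1, k2, k3, k4⟩ := fr_class_two qC qCS qCT
  have qSm : f s ^ m = 1 := by rw [← map_pow, hs, map_one]
  have qCm : f c ^ m = 1 := by
    rw [k4 m, qSm]
    group
  have qXC : f x * f c * f x = (f c)⁻¹ := by
    have e1 : f x * f c * f x = (f x * f s * f x)⁻¹ * (f x * f t * f x)⁻¹ * (f x * f s * f x) *
        (f x * f t * f x) := by
      rw [qC, mul_inv_rev, mul_inv_rev, mul_inv_rev, mul_inv_rev, qXi]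
      calc f x * ((f s)⁻¹ * (f t)⁻¹ * f s * f t) * f x
          = f x * (f s)⁻¹ * 1 * (f t)⁻¹ * 1 * f s * 1 * f t * f x := by group
        _ = f x * (f s)⁻¹ * (f x * f x) * (f t)⁻¹ * (f x * f x) * f s * (f x * f x) * f t * f x := by
            rw [qX]
        _ = _ := by group
    rw [e1, qXS, qXT, inv_inv]
    exact k1
  obtain ⟨c1, hc1, hxc1, hfc1⟩ := fr_lift_inv hm hexp f hf hx qCm qXC
  have htm : t ^ m = 1 := by
    have e1 : t = v * s * v⁻¹ := by rw [ht, hvi]
    rw [e1, conj_pow, hs]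
    group
  have comm_mem : ∀ g : H, f c1 * f g = f g * f c1 → c1⁻¹ * (g⁻¹ * c1 * g) ∈ P := by
    intro g hg
    rw [← hfP, map_mul, map_mul, map_mul, map_inv, map_inv, mul_assoc (f g)⁻¹, hg]
    group
  obtain ⟨b, hb, hcb, hbs⟩ := fr_T2a hm hexp P hP hc1
    (comm_mem s (by rw [hfc1]; exact qCS)) (by rw [hs]; exact P.one_mem)
  obtain ⟨b', hb', hcb', hbt⟩ := fr_T2a hm hexp P hP hc1
    (comm_mem t (by rw [hfc1]; exact qCT)) (by rw [htm]; exact P.one_mem)
  have qVC : f v * f c * f v = (f c)⁻¹ := by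
    have hvt : v * t * v = s := by
      calc v * t * v = (v * v) * s * (v * v) := by rw [ht]; group
        _ = s := by rw [hvv, one_mul, mul_one]
    have hvsi : v * s⁻¹ * v = t⁻¹ := by
      rw [ht, mul_inv_rev, mul_inv_rev, hvi, mul_assoc]
    have hvti : v * t⁻¹ * v = s⁻¹ := by
      have e2 : (v * t * v)⁻¹ = s⁻¹ := by rw [hvt]
      rw [mul_inv_rev, mul_inv_rev, hvi, ← mul_assoc] at e2
      exact e2
    have e1 : v * c * v = c⁻¹ := by
      have e3 : c⁻¹ = t⁻¹ * s⁻¹ * t * s := by rw [hc]; group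
      rw [e3]
      calc v * c * v = v * s⁻¹ * 1 * t⁻¹ * 1 * s * 1 * t * v := by rw [hc]; group
        _ = v * s⁻¹ * (v * v) * t⁻¹ * (v * v) * s * (v * v) * t * v := by rw [hvv]
        _ = (v * s⁻¹ * v) * (v * t⁻¹ * v) * (v * s * v) * (v * t * v) := by group
        _ = _ := by rw [hvsi, hvti, hvt]
    rw [← map_mul, ← map_mul, e1, map_inv]
  have qVCi : f v * (f c)⁻¹ * f v = f c := by
    rw [← qVC]
    calc f v * (f v * f c * f v) * f v = (f v * f v) * f c * (f v * f v) := by group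
      _ = f c := by rw [qV]; group
  have qUC : f c1 * f (v * x) = f (v * x) * f c1 := by
    rw [hfc1, map_mul]
    calc f c * (f v * f x) = (f v * (f c)⁻¹ * f v) * (f v * f x) := by rw [qVCi]
      _ = f v * (f c)⁻¹ * (f v * f v) * f x := by group
      _ = f v * (f x * f c * f x) * f x := by rw [qV, qXC]; group
      _ = f v * f x * f c * (f x * f x) := by group
      _ = f v * f x * f c := by rw [qX, mul_one]
  obtain ⟨p0, hp0, hcu⟩ := fr_lift_comm_two hm P hP hc1
    (fun y hy => Subgroup.Normal.conj_mem inferInstance y hy c1) (comm_mem (v * x) qUC)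
  have fb : f b = f s := by
    have h := (hfP _).2 hbs
    rw [map_mul, map_inv, inv_mul_eq_one] at h
    exact h
  have fb' : f b' = f t := by
    have h := (hfP _).2 hbt
    rw [map_mul, map_inv, inv_mul_eq_one] at h
    exact h
  have fu : f (v * x * p0) = f v * f x := by rw [map_mul, map_mul, (hfP p0).2 hp0, mul_one]
  have key := fr_T2b hm hexp P hP hb hcb hcb' hcu
    (by
      rw [← hfP, map_mul, map_mul, map_mul, map_inv, map_inv, fu, fb, fb', mul_inv_rev, qXi, qVi,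
        mul_inv_eq_one, qT]
      calc f v * f x * f s * (f x * f v) = f v * (f x * f s * f x) * f v := by group
        _ = _ := by rw [qXS])
    (by
      rw [← hfP, map_mul, map_mul, map_mul, map_inv, fu, fb, fb', mul_inv_rev, qXi, qVi]
      have e1 : f v * f x * f t * (f x * f v) = f v * (f x * f t * f x) * f v := by group
      rw [e1, qXT, qT, mul_inv_rev, mul_inv_rev, qVi]
      calc f v * (f v * ((f s)⁻¹ * f v)) * f v * f s
          = (f v * f v) * (f s)⁻¹ * (f v * f v) * f s := by group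
        _ = 1 := by rw [qV]; group)
    (by
      rw [← hfP, map_mul, map_mul, map_mul, map_mul, map_inv, map_inv, map_inv, hfc1, fb, fb', k3,
        inv_mul_cancel])
    (by
      rw [← hfP, map_pow, fu, ← map_mul, ← map_pow, hvx, map_one])
  -- conclusion
  have hxc1' : c1 * x = x * c1⁻¹ := by
    rw [← hxc1]
    calc c1 * x = (x * x) * c1 * x := by rw [hxx, one_mul]
      _ = _ := by group
  have hxc1'' : c1⁻¹ * x = x * c1 := by
    calc c1⁻¹ * x = (x * c1 * x) * x := by rw [hxc1]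
      _ = x * c1 * (x * x) := by group
      _ = x * c1 := by rw [hxx, mul_one]
  have hcb1 : c1⁻¹ * b = b * c1⁻¹ := by
    rw [inv_mul_eq_iff_eq_mul, ← mul_assoc, hcb, mul_inv_cancel_right]
  set p : H := b⁻¹ * (x * b * x) with hp
  have hpP : p ∈ P := by
    rw [← hfP, hp, map_mul, map_mul, map_mul, map_inv, fb, qXS, inv_mul_cancel]
  have hcxbx : c1 * (x * b * x) = (x * b * x) * c1 := by
    calc c1 * (x * b * x) = (c1 * x) * b * x := by group
      _ = x * (c1⁻¹ * b) * x := by rw [hxc1']; group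
      _ = x * b * (c1⁻¹ * x) := by rw [hcb1]; group
      _ = _ := by rw [hxc1'']; group
  have hcp : c1 * p = p * c1 := by
    have e1 : c1 * b⁻¹ = b⁻¹ * c1 := by
      rw [mul_inv_eq_iff_eq_mul, mul_assoc, hcb, inv_mul_cancel_left]
    calc c1 * p = (c1 * b⁻¹) * (x * b * x) := by rw [hp]; group
      _ = b⁻¹ * (c1 * (x * b * x)) := by rw [e1]; group
      _ = _ := by rw [hcxbx, hp]; group
  have hbp : b * p = p * b := key p hpP hcp
  have hbpx : b * p = x * b * x := by rw [hp, mul_inv_cancel_left]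
  have hpm : p ^ m = 1 := by
    have e1 : (b * p) ^ m = b ^ m * p ^ m := (show Commute b p from hbp).mul_pow m
    have e2 : (x * b * x) ^ m = 1 := by
      have e3 : x * b * x = x * b * x⁻¹ := by rw [hxi]
      rw [e3, conj_pow, hb]
      group
    rw [hb, one_mul, hbpx, e2] at e1
    exact e1.symm
  have hp1 : p = 1 := fr_one hm hpm (hP p hpP)
  refine ⟨b, hb, ?_, hbs⟩
  rw [hp1, mul_one] at hbpx
  calc x * b = x * b * (x * x) := by rw [hxx, mul_one]
    _ = (x * b * x) * x := by group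
    _ = b * x := by rw [← hbpx]

end Pool.Agent.Lib.MP_544bd1_al
end

section

/-!
Exponents `4 * m`: existence of configurations.
-/

namespace Pool.Agent.Lib.MP_544bd1_al

open Subgroup

universe u v

variable {F : Type u} [Group F] {m : ℕ}

/-- (S) existence of configurations -/
theorem fr_S [Finite F] (hm : Odd m) (hsol : Group.IsSolvable F)
    (hexp : ∀ x : F, x ^ (4 * m) = 1) {x0 y0 : F} (hx0 : x0 ^ 2 = 1) (hy0 : y0 ^ m = 1)
    (h0 : x0 * y0 * x0 = y0⁻¹) (h : ¬ InO m (⊤ : Subgroup F) y0) :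
    ∃ (V : Subgroup F) (x y : F), SConf m x y V := by
  obtain ⟨P, x, y, hP, hx, hy, hxy, hnx, hny, h1⟩ := fr_S1 hm hsol hexp hx0 hy0 h0 h
  obtain ⟨Q, hQP, hQx, hQy, hc, hcy, h2⟩ := fr_S2a hm hx hy hxy P hP hnx hny h1
  obtain ⟨V1, hV1Q, hV, hVx, hVy, h3⟩ := fr_S2b hm hexp hx hy hxy Q (fun v hv => hP v (hQP hv))
    hQx hQy hc hcy h2
  obtain ⟨V, _, hV⟩ := fr_S2c hm hx hy hxy V1 hV hVx hVy h3
  exact ⟨V, x, y, hV⟩

end Pool.Agent.Lib.MP_544bd1_al
end

section

/-!
Exponents `4 * m`: Claim D.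
-/

namespace Pool.Agent.Lib.MP_544bd1_al

open Subgroup

universe u v

variable {F : Type u} [Group F] {m : ℕ}

/-- configurations under homomorphisms injective on `V` -/
theorem SConf.map {X : Type u} [Group X] (f : F →* X) {x y : F} {V : Subgroup F}
    (hS : SConf m x y V) (hf : ∀ v ∈ V, f v = 1 → v = 1) : SConf m (f x) (f y) (V.map f) := by
  refine ⟨?_, ?_, ?_, ?_, ?_, ?_, ?_, ?_⟩
  · rw [← map_pow, hS.hx, map_one]
  · rw [← map_pow, hS.hy, map_one]
  · rw [← map_mul, ← map_mul, hS.hxy, map_inv]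
  · rintro _ ⟨v, hv, rfl⟩
    rw [← map_pow, hS.sq v hv, map_one]
  · rintro _ ⟨v, hv, rfl⟩
    exact ⟨x * v * x, hS.nx v hv, by rw [map_mul, map_mul]⟩
  · rintro _ ⟨v, hv, rfl⟩
    exact ⟨y * v * y⁻¹, hS.ny v hv, by rw [map_mul, map_mul, map_inv]⟩
  · intro W hW hWx hWy
    have hW' : W = (V ⊓ W.comap f).map f := by
      apply le_antisymm
      · intro w hw
        obtain ⟨v, hv, rfl⟩ := hW hw
        exact ⟨v, ⟨hv, hw⟩, rfl⟩
      · rintro _ ⟨v, ⟨_, hv⟩, rfl⟩
        exact hv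
    have hcx : ∀ w ∈ V ⊓ W.comap f, x * w * x ∈ V ⊓ W.comap f := by
      rintro w ⟨hw, hw'⟩
      refine ⟨hS.nx w hw, ?_⟩
      have := hWx (f w) hw'
      rw [← map_mul, ← map_mul] at this
      exact this
    have hcy : ∀ w ∈ V ⊓ W.comap f, y * w * y⁻¹ ∈ V ⊓ W.comap f := by
      rintro w ⟨hw, hw'⟩
      refine ⟨hS.ny w hw, ?_⟩
      have := hWy (f w) hw'
      rw [← map_mul, ← map_inv, ← map_mul] at this
      exact this
    rcases hS.irr (V ⊓ W.comap f) inf_le_left hcx hcy with h | h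
    · left
      rw [hW', h, Subgroup.map_bot]
    · right
      rw [hW', h]
  · obtain ⟨v, hv, hvx⟩ := hS.act
    refine ⟨f v, ⟨v, hv, rfl⟩, ?_⟩
    intro h
    apply hvx
    rw [← map_mul, ← map_mul] at h
    have h1 := hf (x * v * x * v⁻¹) (V.mul_mem (hS.nx v hv) (V.inv_mem hv))
      (by rw [map_mul _ _ v⁻¹, h, map_inv, mul_inv_cancel])
    exact mul_inv_eq_one.mp h1

/-- **Claim D.** `F` finite solvable of exponent `4 * m` with a configuration `x, y, V`. An odd
element inverted by an element of `V` lies in `O(F)`.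

Proof. `N = krad m F`, `H = F ⧸ N`, `f1 = mk' N`, `P = krad 4 H`, `X = H ⧸ P`,
`f = (mk' P).comp f1`. `krad m H = ⊥`, `krad 4 X = ⊥` (`krad_quot`, `fr_hm`, `fr_h4`,
`fr_exp_quot`). `V ⊓ f.ker` is normalized by `x`, `y`, so it is `⊥` or `V`.
Case `V ≤ f.ker`: `f1 w ∈ P`. From `w s w = s⁻¹`: `w * (s w s⁻¹) = (s⁻¹) ^ 2`, so
`(f1 s) ^ 2 ∈ P` is odd, so `1`, `f1 s = 1`, `s ∈ N`; `mem_krad_iff`.
Case `V ⊓ f.ker = ⊥`: by `SConf.map` and `fr_D1` for `X` there are `v ∈ V` and `e : X` odd, `e ≠ 1`,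
with `u = v * x`, `(f u) ^ 2` inverts `e`, `e` commutes with `f u * e * (f u)⁻¹`. Lift `e` to an odd
`ê : H` (`fr_lift_odd`), `û = f1 u`, `û ^ 4 = 1` (`u ^ 2 = v (x v x) ∈ V`), `t̂ = û ê û⁻¹`. `fr_E5` in
`H` with `s := ê`, `t := t̂`, `u := û` (all congruences hold modulo `P`, `TrivMod.of_mem`) shows that
`ê` centralizes `P`; so `ê ∈ P` (`fr_fitting_two`), `ê ^ 4 = 1`, `ê = 1`, `e = 1`: contradiction. -/
theorem fr_D [Finite F] (hm : Odd m) (hsol : Group.IsSolvable F)
    (hexp : ∀ x : F, x ^ (4 * m) = 1) {x y : F} {V : Subgroup F} (hS : SConf m x y V) {s w : F}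
    (hs : s ^ m = 1) (hw : w ∈ V) (h : w * s * w = s⁻¹) : InO m (⊤ : Subgroup F) s := by
  have := hsol
  have hexpH := fr_exp_quot hexp (krad m F)
  have hexpX := fr_exp_quot hexpH (krad 4 (F ⧸ krad m F))
  have hkH : krad m (F ⧸ krad m F) = ⊥ := krad_quot (fr_hm hm hexp)
  have hkX : krad 4 ((F ⧸ krad m F) ⧸ krad 4 (F ⧸ krad m F)) = ⊥ := krad_quot (fr_h4 hm hexpH)
  have hP := krad_pow (fr_h4 hm hexpH)
  have hsolH : Group.IsSolvable (F ⧸ krad m F) := inferInstance
  have hsolX : Group.IsSolvable ((F ⧸ krad m F) ⧸ krad 4 (F ⧸ krad m F)) := inferInstance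
  obtain ⟨f1, hf1⟩ : ∃ f1 : F →* F ⧸ krad m F, f1 = QuotientGroup.mk' (krad m F) := ⟨_, rfl⟩
  obtain ⟨f2, hf2⟩ : ∃ f2 : (F ⧸ krad m F) →* (F ⧸ krad m F) ⧸ krad 4 (F ⧸ krad m F),
    f2 = QuotientGroup.mk' (krad 4 (F ⧸ krad m F)) := ⟨_, rfl⟩
  have hf2s : Function.Surjective f2 := by rw [hf2]; exact QuotientGroup.mk'_surjective _
  have hk1 : ∀ g : F, f1 g = 1 ↔ g ∈ krad m F := by
    intro g
    rw [hf1, QuotientGroup.mk'_apply, QuotientGroup.eq_one_iff]
  have hk2 : ∀ g : F ⧸ krad m F, f2 g = 1 ↔ g ∈ krad 4 (F ⧸ krad m F) := by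
    intro g
    rw [hf2, QuotientGroup.mk'_apply, QuotientGroup.eq_one_iff]
  rw [← mem_krad_iff hm hexp, ← hk1]
  have hcx : ∀ g ∈ V ⊓ (f2.comp f1).ker, x * g * x ∈ V ⊓ (f2.comp f1).ker := by
    rintro g ⟨hg, hg'⟩
    refine ⟨hS.nx g hg, ?_⟩
    have h5 := (MonoidHom.normal_ker (f2.comp f1)).conj_mem g hg' x
    rwa [fr_inv_of_sq hS.hx] at h5
  have hcy : ∀ g ∈ V ⊓ (f2.comp f1).ker, y * g * y⁻¹ ∈ V ⊓ (f2.comp f1).ker := by
    rintro g ⟨hg, hg'⟩
    exact ⟨hS.ny g hg, (MonoidHom.normal_ker (f2.comp f1)).conj_mem g hg' y⟩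
  rcases hS.irr (V ⊓ (f2.comp f1).ker) inf_le_left hcx hcy with hW | hW
  · -- `f` is injective on `V`
    exfalso
    have hf : ∀ v ∈ V, (f2.comp f1) v = 1 → v = 1 := by
      intro v hv h1
      have : v ∈ V ⊓ (f2.comp f1).ker := ⟨hv, h1⟩
      rw [hW] at this
      exact Subgroup.mem_bot.1 this
    have hS' := hS.map (f2.comp f1) hf
    obtain ⟨_, ⟨v, hvV, rfl⟩, e, he, he1, h3, h4⟩ := fr_D1 hm hsolX hexpX hkX hS'
    obtain ⟨b, hb, rfl⟩ := fr_lift_odd hm hexpH f2 hf2s he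
    have hu2 : (v * x) ^ 2 ∈ V := by
      have : (v * x) ^ 2 = v * (x * v * x) := by rw [pow_two]; group
      rw [this]
      exact V.mul_mem hvV (hS.nx v hvV)
    have hu4 : (v * x) ^ 4 = 1 := by
      have h5 := hS.sq _ hu2
      rwa [← pow_mul] at h5
    have hfu : (f2.comp f1) v * (f2.comp f1) x = f2 (f1 (v * x)) := by
      rw [← map_mul]
      rfl
    rw [hfu] at h3 h4
    have hcent := fr_E5 hm hexpH (krad 4 (F ⧸ krad m F)) hP (s := b)
      (t := f1 (v * x) * b * (f1 (v * x))⁻¹) (u := f1 (v * x)) hb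
      (TrivMod.of_mem (by rw [mul_inv_cancel]; exact Subgroup.one_mem _))
      (TrivMod.of_mem (by
        rw [← hk2]
        have h6 : f1 (v * x) * (f1 (v * x) * b * (f1 (v * x))⁻¹) * (f1 (v * x))⁻¹ * b =
          (f1 (v * x)) ^ 2 * b * ((f1 (v * x)) ^ 2)⁻¹ * b := by rw [pow_two]; group
        rw [h6, map_mul, map_mul, map_mul, map_inv, map_pow, h3, inv_mul_cancel]))
      (TrivMod.of_mem (by
        rw [← hk2]
        rw [map_mul, map_mul, map_mul, map_inv, map_inv, map_mul, map_mul, map_inv]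
        rw [h4, mul_inv_cancel_right, mul_inv_cancel]))
      (TrivMod.of_mem (by
        rw [← map_pow, hu4, map_one]
        exact Subgroup.one_mem _))
    have hbP := fr_fitting_two hm hsolH hexpH hkH hcent
    apply he1
    rw [fr_one hm hb (hP b hbP), map_one]
  · -- `V ≤ ker f`
    have hw' : w ∈ V ⊓ (f2.comp f1).ker := by rw [hW]; exact hw
    have hwP : f1 w ∈ krad 4 (F ⧸ krad m F) := by
      rw [← hk2]
      exact hw'.2
    have h5 : w * (s * w * s⁻¹) = (s⁻¹) ^ 2 := by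
      rw [pow_two, ← mul_assoc, ← mul_assoc, h]
    have h6 : (f1 s⁻¹) ^ 2 ∈ krad 4 (F ⧸ krad m F) := by
      rw [← map_pow, ← h5, map_mul, map_mul, map_mul, map_inv]
      exact Subgroup.mul_mem _ hwP ((krad_normal 4 (F ⧸ krad m F)).conj_mem _ hwP _)
    have h7 : ((f1 s⁻¹) ^ 2) ^ m = 1 := by
      rw [← pow_mul, mul_comm, pow_mul, ← map_pow, inv_pow, hs, inv_one, map_one, one_pow]
    have h8 : (f1 s⁻¹) ^ 2 = 1 := fr_one hm h7 (hP _ h6)
    have h9 : (f1 s⁻¹) ^ m = 1 := by rw [← map_pow, inv_pow, hs, inv_one, map_one]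
    have h10 := fr_one_two hm h9 h8
    rw [map_inv, inv_eq_one] at h10
    exact h10

end Pool.Agent.Lib.MP_544bd1_al
end

section

/-!
Exponents `4 * m`: Theorem T.
-/

namespace Pool.Agent.Lib.MP_544bd1_al

open Subgroup

universe u v

variable {F : Type u} [Group F] {m : ℕ}

/-- (T3) under the hypothesis `hA`, the element `z = (v x) ^ 2` acts trivially on the odd radical
level: every odd element inverted by `z` is in `krad m F`.

Proof. `N = krad m F`, `H = F ⧸ N`, `f1 = mk' N`, `P = krad 4 H`, `f2 = mk' P`, `X = H ⧸ P`;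
`krad 4 X = ⊥`. Claim `f2 (f1 z) = 1`. Suppose not: `fr_T1` in `X` for the images of `x`, `v` gives
`s̄ : X`; lift it to an odd `s : H` (`fr_lift_odd`) and apply `fr_T2` in `H`: there is an odd `b : H`
commuting with `f1 x`, `f2 b = s̄`. By `fr_lift_comm` (kernel `N` is odd) there is `g : F` commuting
with `x`, `f1 g = b`. `h = z * (g⁻¹ * z * g)` commutes with `x` (`z`, `g` do) and is inverted by `z`;
so is `h ^ (oN m)`, which is odd, so `h ^ (oN m) = 1` by `hA`, `h ^ 4 = 1` (`fr_two_of_oN`). The image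
of `h` in `X` is `z̄ s̄⁻¹ z̄ s̄ = s̄ ^ 2`, odd, so `s̄ ^ 2 = 1`, `s̄ = 1`, contradiction.
So `f1 z ∈ P`. If `s ^ m = 1` and `z s z = s⁻¹` then `z * (s z s⁻¹) = (s⁻¹) ^ 2`, so
`(f1 s) ^ 2 ∈ P`, odd, so `f1 s = 1`. -/
theorem fr_T3 [Finite F] (hm : Odd m) (hsol : Group.IsSolvable F)
    (hexp : ∀ x : F, x ^ (4 * m) = 1) {x v : F} (hx : x ^ 2 = 1) (hv : v ^ 2 = 1)
    (hvx : (v * x) ^ 4 = 1)
    (hA : ∀ s : F, s ^ m = 1 → x * s = s * x → (v * x) ^ 2 * s * (v * x) ^ 2 = s⁻¹ → s = 1) :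
    ∀ s : F, s ^ m = 1 → (v * x) ^ 2 * s * (v * x) ^ 2 = s⁻¹ → s ∈ krad m F := by
  have := hsol
  have hexpH := fr_exp_quot hexp (krad m F)
  have hexpX := fr_exp_quot hexpH (krad 4 (F ⧸ krad m F))
  have hkX : krad 4 ((F ⧸ krad m F) ⧸ krad 4 (F ⧸ krad m F)) = ⊥ := krad_quot (fr_h4 hm hexpH)
  have hP := krad_pow (fr_h4 hm hexpH)
  have hsolH : Group.IsSolvable (F ⧸ krad m F) := inferInstance
  have hsolX : Group.IsSolvable ((F ⧸ krad m F) ⧸ krad 4 (F ⧸ krad m F)) := inferInstance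
  obtain ⟨f1, hf1⟩ : ∃ f1 : F →* F ⧸ krad m F, f1 = QuotientGroup.mk' (krad m F) := ⟨_, rfl⟩
  obtain ⟨f2, hf2⟩ : ∃ f2 : (F ⧸ krad m F) →* (F ⧸ krad m F) ⧸ krad 4 (F ⧸ krad m F),
    f2 = QuotientGroup.mk' (krad 4 (F ⧸ krad m F)) := ⟨_, rfl⟩
  have hf1s : Function.Surjective f1 := by rw [hf1]; exact QuotientGroup.mk'_surjective _
  have hf2s : Function.Surjective f2 := by rw [hf2]; exact QuotientGroup.mk'_surjective _
  have hk1 : ∀ g : F, f1 g = 1 ↔ g ∈ krad m F := by
    intro g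
    rw [hf1, QuotientGroup.mk'_apply, QuotientGroup.eq_one_iff]
  have hk2 : ∀ g : F ⧸ krad m F, f2 g = 1 ↔ g ∈ krad 4 (F ⧸ krad m F) := by
    intro g
    rw [hf2, QuotientGroup.mk'_apply, QuotientGroup.eq_one_iff]
  obtain ⟨hz2, hxz, hvz, -⟩ := fr_dihedral hx hv hvx
  have claim : f2 (f1 ((v * x) ^ 2)) = 1 := by
    by_contra hz
    have hfz : f2 (f1 ((v * x) ^ 2)) = (f2 (f1 v) * f2 (f1 x)) ^ 2 := by
      rw [map_pow, map_pow, map_mul, map_mul]
    have hz' : (f2 (f1 v) * f2 (f1 x)) ^ 2 ≠ 1 := by rw [← hfz]; exact hz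
    obtain ⟨sb, k1, k2, k3, k4, k5, k6⟩ := fr_T1 hm hsolX hexpX hkX (x := f2 (f1 x))
      (v := f2 (f1 v)) (by rw [← map_pow, ← map_pow, hx, map_one, map_one])
      (by rw [← map_pow, ← map_pow, hv, map_one, map_one])
      (by rw [← map_mul, ← map_mul, ← map_pow, ← map_pow, hvx, map_one, map_one]) hz'
    obtain ⟨s, hs, rfl⟩ := fr_lift_odd hm hexpH f2 hf2s k1
    obtain ⟨b, hb, hxb, hbs⟩ := fr_T2 hm hexpH (krad 4 (F ⧸ krad m F)) hP (x := f1 x)
      (v := f1 v) (s := s) (by rw [← map_pow, hx, map_one]) (by rw [← map_pow, hv, map_one])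
      (by rw [← map_mul, ← map_pow, hvx, map_one]) hs
      (by
        rw [← hk2, map_mul, map_mul, map_mul, map_inv, k3, mul_inv_cancel])
      (by
        rw [← hk2, map_mul, map_mul, map_mul, map_pow, map_mul, k4, inv_mul_cancel])
      (by
        rw [← hk2, map_mul, map_inv, mul_inv_eq_one]
        simp only [map_mul, map_inv]
        exact k5)
      (by
        rw [← hk2, map_mul, map_inv, mul_inv_eq_one]
        simp only [map_mul, map_inv]
        exact k6)
    have hfb : f2 b = f2 s := by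
      rw [← hk2, map_mul, map_inv] at hbs
      exact inv_mul_eq_one.mp hbs
    obtain ⟨g, hxg, hg⟩ := fr_lift_comm hm f1 hf1s
      (fun k hk => krad_pow (fr_hm hm hexp) k ((hk1 k).mp hk)) hx hxb
    obtain ⟨z, hzd⟩ : ∃ z : F, z = (v * x) ^ 2 := ⟨_, rfl⟩
    have hzi : z⁻¹ = z := by rw [hzd]; exact fr_inv_of_sq hz2
    have hz1 : z * z = 1 := by rw [hzd]; exact fr_mul_self hz2
    rw [← hzd] at hxz
    obtain ⟨h, hh⟩ : ∃ h : F, h = z * (g⁻¹ * z * g) := ⟨_, rfl⟩
    have hxh : Commute x h := by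
      rw [hh]
      have c1 : Commute x z := hxz
      have c2 : Commute x g := hxg
      exact c1.mul_right ((c2.inv_right.mul_right c1).mul_right c2)
    have hzh : z * h * z⁻¹ = h⁻¹ := by
      rw [hh, mul_inv_rev, mul_inv_rev, mul_inv_rev, inv_inv, hzi]
      calc z * (z * (g⁻¹ * z * g)) * z = (z * z) * (g⁻¹ * z * g) * z := by group
        _ = g⁻¹ * (z * g) * z := by rw [hz1]; group
    have hpow : z * h ^ (oN m) * z⁻¹ = (h ^ (oN m))⁻¹ := by
      rw [← conj_pow, hzh, inv_pow]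
    have hone : h ^ (oN m) = 1 := by
      apply hA _ (fr_oN_pow hm hexp h) (hxh.pow_right _).eq
      rw [← hzd]
      rw [hzi] at hpow
      exact hpow
    have h4 : h ^ 4 = 1 := fr_two_of_oN (hexp h) hone
    have himg : f2 (f1 h) = (f2 s) ^ 2 := by
      rw [hh, map_mul, map_mul, map_mul, map_mul, map_mul, map_mul, map_inv, map_inv, hg, hfb,
        hzd, hfz]
      obtain ⟨w, hw⟩ : ∃ w, w = (f2 (f1 v) * f2 (f1 x)) ^ 2 := ⟨_, rfl⟩
      rw [← hw] at k4 ⊢
      have hw1 : w⁻¹ = w := by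
        rw [hw, ← hfz, ← hzd, ← map_inv, ← map_inv, hzi]
      have k4' : w * (f2 s)⁻¹ * w = f2 s := by
        have := congrArg (fun a => a⁻¹) k4
        simp only [mul_inv_rev, inv_inv, hw1] at this
        rw [← mul_assoc] at this
        exact this
      calc w * ((f2 s)⁻¹ * w * f2 s) = (w * (f2 s)⁻¹ * w) * f2 s := by group
        _ = (f2 s) ^ 2 := by rw [k4', pow_two]
    have h5 : ((f2 s) ^ 2) ^ 4 = 1 := by
      rw [← himg, ← map_pow, ← map_pow, h4, map_one, map_one]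
    have h6 : ((f2 s) ^ 2) ^ m = 1 := by
      rw [← pow_mul, mul_comm, pow_mul, k1, one_pow]
    exact k2 (fr_one_two hm k1 (fr_one hm h6 h5))
  intro s hs hzs
  rw [hk2] at claim
  have h5 : (v * x) ^ 2 * (s * (v * x) ^ 2 * s⁻¹) = (s⁻¹) ^ 2 := by
    rw [pow_two s⁻¹, ← mul_assoc, ← mul_assoc, hzs]
  have h6 : (f1 s⁻¹) ^ 2 ∈ krad 4 (F ⧸ krad m F) := by
    rw [← map_pow, ← h5, map_mul, map_mul, map_mul, map_inv]
    exact Subgroup.mul_mem _ claim ((krad_normal 4 (F ⧸ krad m F)).conj_mem _ claim _)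
  have h7 : ((f1 s⁻¹) ^ 2) ^ m = 1 := by
    rw [← pow_mul, mul_comm, pow_mul, ← map_pow, inv_pow, hs, inv_one, map_one, one_pow]
  have h8 : (f1 s⁻¹) ^ 2 = 1 := fr_one hm h7 (hP _ h6)
  have h9 : (f1 s⁻¹) ^ m = 1 := by rw [← map_pow, inv_pow, hs, inv_one, map_one]
  have h10 := fr_one_two hm h9 h8
  rw [map_inv, inv_eq_one] at h10
  exact (hk1 s).mp h10

/-- **Theorem T.** `F` finite solvable of exponent `4 * m`, `x`, `v` involutions with
`(v x) ^ 4 = 1`, `z = (v x) ^ 2`. If no nontrivial odd element of `C(x)` is inverted by `z` then no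
nontrivial odd element is inverted by `z`.

Proof. Let `s` be odd, inverted by `z`, so `s ∈ A := krad m F` by `fr_T3`. If `s ≠ 1` then `z` does not
centralize `A` (`s⁻¹ ≠ s`). `fr_F3` for `x`, `z`, `A`: there is `e ≠ 1` in `A`, `z e z = e⁻¹`,
`x e x = e` or `e⁻¹`. First case: contradiction to `hA`. Second case: `e' = v e v` satisfies
`x e' x = (v z x) e (v z x)⁻¹ = v z e⁻¹ z v = v e v = e'` (`fr_dihedral`), `z e' z = e'⁻¹`, `e' ≠ 1`,
`e' ^ m = 1`: contradiction to `hA`. -/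
theorem fr_T [Finite F] (hm : Odd m) (hsol : Group.IsSolvable F)
    (hexp : ∀ x : F, x ^ (4 * m) = 1) {x v : F} (hx : x ^ 2 = 1) (hv : v ^ 2 = 1)
    (hvx : (v * x) ^ 4 = 1)
    (hA : ∀ s : F, s ^ m = 1 → x * s = s * x → (v * x) ^ 2 * s * (v * x) ^ 2 = s⁻¹ → s = 1) :
    ∀ s : F, s ^ m = 1 → (v * x) ^ 2 * s * (v * x) ^ 2 = s⁻¹ → s = 1 := by
  intro s hs hzs
  by_contra hs1
  have hsA := fr_T3 hm hsol hexp hx hv hvx hA s hs hzs
  obtain ⟨hz2, hxz, hvz, -, hxv, hvx'⟩ := fr_dihedral hx hv hvx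
  obtain ⟨z, hzd⟩ : ∃ z : F, z = (v * x) ^ 2 := ⟨_, rfl⟩
  rw [← hzd] at hz2 hxz hvz hxv hvx' hzs hA
  have hz1 : z * z = 1 := fr_mul_self hz2
  have hzi : z⁻¹ = z := fr_inv_of_sq hz2
  have hx1 := fr_mul_self hx
  have hv1 := fr_mul_self hv
  have hnc : z * s ≠ s * z := by
    intro h
    apply hs1
    rw [h, mul_assoc, hz1, mul_one] at hzs
    apply fr_one_two hm hs
    rw [pow_two]
    nth_rewrite 1 [hzs]
    exact inv_mul_cancel s
  have hN := krad_normal m F
  obtain ⟨e, heA, he1, hze, hxe⟩ := fr_F3 hm (krad m F) (krad_pow (fr_hm hm hexp)) hx hz2 hxz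
    (fun a ha => by
      have := hN.conj_mem a ha x
      rwa [fr_inv_of_sq hx] at this)
    (fun a ha => by
      have := hN.conj_mem a ha z
      rwa [hzi] at this) ⟨s, hsA, hnc⟩
  have hem := krad_pow (fr_hm hm hexp) e heA
  rcases hxe with h | h
  · apply he1
    apply hA e hem _ hze
    nth_rewrite 2 [← h]
    rw [mul_assoc, mul_assoc, hx1, mul_one]
  · apply he1
    have h1 : x * (v * e * v) * x = v * e * v := by
      calc x * (v * e * v) * x = (x * v) * e * (v * x) := by group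
        _ = (v * z * x) * e * (x * v * z) := by rw [← hxv, ← hvx']
        _ = v * z * (x * e * x) * (v * z) := by group
        _ = v * z * (x * e * x) * (z * v) := by rw [← hvz]
        _ = v * (z * e⁻¹ * z) * v := by rw [h]; group
        _ = v * e * v := by
          have : z * e⁻¹ * z = e := by
            have h2 := congrArg (fun a => a⁻¹) hze
            simp only [mul_inv_rev, inv_inv, hzi] at h2
            rw [← mul_assoc] at h2
            exact h2
          rw [this]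
    have h2 : z * (v * e * v) * z = (v * e * v)⁻¹ := by
      rw [mul_inv_rev, mul_inv_rev, fr_inv_of_sq hv]
      calc z * (v * e * v) * z = (z * v) * e * (v * z) := by group
        _ = (v * z) * e * (z * v) := by rw [hvz]
        _ = v * (z * e * z) * v := by group
        _ = v * (e⁻¹ * v) := by rw [hze, mul_assoc]
    have h3 : (v * e * v) ^ m = 1 := by
      have := conj_pow (i := m) (a := v) (b := e)
      rw [fr_inv_of_sq hv] at this
      rw [this, hem, mul_one, hv1]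
    have h4 : x * (v * e * v) = (v * e * v) * x := by
      nth_rewrite 2 [← h1]
      rw [mul_assoc _ x x, hx1, mul_one]
    have h5 := hA _ h3 h4 h2
    have h6 : v * (v * e * v) * v = e := by
      calc v * (v * e * v) * v = (v * v) * e * (v * v) := by group
        _ = e := by rw [hv1, one_mul, mul_one]
    rw [← h6, h5, mul_one, hv1]

end Pool.Agent.Lib.MP_544bd1_al
end

section

/-!
Exponents `4 * m`: the main argument. Groups of exponent `4 * m` (`m` odd) all of whose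
two-generator subgroups are finite and solvable.
-/

namespace Pool.Agent.Lib.MP_544bd1_al

open Subgroup

universe u v

/-- three involutions `r`, `s`, `t` generate a finite solvable subgroup, if `⟨t r, t s⟩` is finite
and solvable.

Proof. `H = closure {t * r, t * s}` is finite and solvable; `t` normalizes it (it inverts the
generators), so `H` is normal in `T = closure {r, s, t}` and `T = H ∪ t H` (see `finite_three`).
So `T` is finite, and `T` is solvable: `H.subgroupOf T` is solvable and normal and the quotient is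
commutative (every element is `1` or the image of `t`). -/
theorem fr_three {G : Type u} [Group G] {r s t : G}
    (h2 : Finite (closure {t * r, t * s}) ∧ Group.IsSolvable (closure {t * r, t * s}))
    (hr : r ^ 2 = 1) (hs : s ^ 2 = 1) (ht : t ^ 2 = 1) :
    ∃ T : Subgroup G, Finite T ∧ Group.IsSolvable T ∧ r ∈ T ∧ s ∈ T ∧ t ∈ T := by
  obtain ⟨F, hF, hrF, hsF, htF⟩ := finite_three hr hs ht h2.1
  have hHsol := h2.2
  set H := closure {t * r, t * s} with hH
  have hr1 : r * r = 1 := by rw [← pow_two, hr]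
  have hs1 : s * s = 1 := by rw [← pow_two, hs]
  have ht1 : t * t = 1 := by rw [← pow_two, ht]
  have hr' : r⁻¹ = r := inv_eq_of_mul_eq_one_right hr1
  have hs' : s⁻¹ = s := inv_eq_of_mul_eq_one_right hs1
  have ht' : t⁻¹ = t := inv_eq_of_mul_eq_one_right ht1
  have ha : t * r ∈ H := subset_closure (by simp)
  have hb : t * s ∈ H := subset_closure (by simp)
  -- `t` normalizes `H`
  have htH : ∀ x ∈ H, t * x * t ∈ H := by
    intro x hx
    rw [hH] at hx
    induction hx using closure_induction with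
    | mem x h =>
      rcases h with rfl | rfl
      · have : t * (t * r) * t = (t * r)⁻¹ := by
          rw [mul_inv_rev, ht', hr', ← mul_assoc, ht1, one_mul]
        rw [this]; exact H.inv_mem ha
      · have : t * (t * s) * t = (t * s)⁻¹ := by
          rw [mul_inv_rev, ht', hs', ← mul_assoc, ht1, one_mul]
        rw [this]; exact H.inv_mem hb
    | one => rw [mul_one, ht1]; exact H.one_mem
    | mul x y _ _ ihx ihy =>
      have : t * (x * y) * t = (t * x * t) * (t * y * t) := by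
        calc t * (x * y) * t = t * x * (1 : G) * y * t := by group
          _ = t * x * (t * t) * y * t := by rw [ht1]
          _ = (t * x * t) * (t * y * t) := by group
      rw [this]; exact H.mul_mem ihx ihy
    | inv x _ ih =>
      have : t * x⁻¹ * t = (t * x * t)⁻¹ := by
        rw [mul_inv_rev, mul_inv_rev, ht', mul_assoc]
      rw [this]; exact H.inv_mem ih
  set T := closure {r, s, t} with hT
  have hrT : r ∈ T := subset_closure (by simp)
  have hsT : s ∈ T := subset_closure (by simp)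
  have htT : t ∈ T := subset_closure (by simp)
  have hTF : T ≤ F := by
    rw [hT, Subgroup.closure_le]
    rintro w (rfl | rfl | rfl)
    · exact hrF
    · exact hsF
    · exact htF
  have hTfin : Finite T := Finite.of_injective _ (Subgroup.inclusion_injective hTF)
  have hHT : H ≤ T := by
    rw [hH, Subgroup.closure_le]
    rintro w (rfl | rfl)
    · exact T.mul_mem htT hrT
    · exact T.mul_mem htT hsT
  -- every element of `T` is in `H` or in `t H`
  have hcov : ∀ x ∈ T, x ∈ H ∨ t * x ∈ H := by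
    intro x hx
    rw [hT] at hx
    have hxt : ∀ x, t * x ∈ H → x * t ∈ H := by
      intro x hx
      have h2 := htH _ hx
      have h3 : t * (t * x) * t = x * t := by rw [← mul_assoc, ht1, one_mul]
      rwa [h3] at h2
    induction hx using closure_induction with
    | mem x h =>
      rcases h with rfl | rfl | rfl
      · exact Or.inr ha
      · exact Or.inr hb
      · exact Or.inr (by rw [ht1]; exact H.one_mem)
    | one => exact Or.inl H.one_mem
    | mul x y _ _ ihx ihy =>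
      rcases ihx with hx | hx <;> rcases ihy with hy | hy
      · exact Or.inl (H.mul_mem hx hy)
      · right
        have : t * (x * y) = (t * x * t) * (t * y) := by
          calc t * (x * y) = t * x * (1 : G) * y := by group
            _ = t * x * (t * t) * y := by rw [ht1]
            _ = (t * x * t) * (t * y) := by group
        rw [this]; exact H.mul_mem (htH x hx) hy
      · right
        rw [← mul_assoc]; exact H.mul_mem hx hy
      · left
        have : x * y = (x * t) * (t * y) := by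
          calc x * y = x * (1 : G) * y := by group
            _ = x * (t * t) * y := by rw [ht1]
            _ = (x * t) * (t * y) := by group
        rw [this]; exact H.mul_mem (hxt x hx) hy
    | inv x _ ih =>
      rcases ih with hx | hx
      · exact Or.inl (H.inv_mem hx)
      · right
        have := H.inv_mem (hxt x hx)
        rwa [mul_inv_rev, ht'] at this
  have hnorm : (H.subgroupOf T).Normal := by
    constructor
    intro x hx g
    rw [Subgroup.mem_subgroupOf] at hx ⊢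
    rcases hcov g g.2 with hg | hg
    · exact H.mul_mem (H.mul_mem hg hx) (H.inv_mem hg)
    · have h3 := htH _ (H.mul_mem (H.mul_mem hg hx) (H.inv_mem hg))
      have h4 : t * (t * (g : G) * (x : G) * (t * (g : G))⁻¹) * t = g * x * (g : G)⁻¹ := by
        rw [mul_inv_rev, ht']
        calc t * (t * (g : G) * x * ((g : G)⁻¹ * t)) * t
            = (t * t) * g * x * (g : G)⁻¹ * (t * t) := by group
          _ = g * x * (g : G)⁻¹ := by rw [ht1, one_mul, mul_one]
      rw [h4] at h3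
      exact h3
  refine ⟨T, hTfin, ?_, hrT, hsT, htT⟩
  rw [Group.isSolvable_iff_subgroup_quotient (H.subgroupOf T)]
  constructor
  · have hinj : Function.Injective (Subgroup.subgroupOfEquivOfLe hHT).toMonoidHom :=
      (Subgroup.subgroupOfEquivOfLe hHT).injective
    exact Group.isSolvable_of_isSolvable_injective hinj
  · apply Group.isSolvable_of_comm
    have key : ∀ a : T ⧸ H.subgroupOf T, a = 1 ∨ a = QuotientGroup.mk' (H.subgroupOf T) ⟨t, htT⟩ := by
      intro a
      obtain ⟨g, rfl⟩ := QuotientGroup.mk'_surjective (H.subgroupOf T) a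
      rcases hcov g g.2 with hg | hg
      · left
        rw [QuotientGroup.mk'_apply, QuotientGroup.eq_one_iff]
        exact hg
      · right
        have h3 : QuotientGroup.mk' (H.subgroupOf T) (⟨t, htT⟩ * g) = 1 := by
          rw [QuotientGroup.mk'_apply, QuotientGroup.eq_one_iff]
          exact hg
        rw [map_mul] at h3
        have h4 : QuotientGroup.mk' (H.subgroupOf T) (⟨t, htT⟩ : T) *
            QuotientGroup.mk' (H.subgroupOf T) (⟨t, htT⟩ : T) = 1 := by
          rw [← map_mul]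
          have : (⟨t, htT⟩ * ⟨t, htT⟩ : T) = 1 := Subtype.ext ht1
          rw [this, map_one]
        exact mul_left_cancel (h3.trans h4.symm)
    intro a b
    rcases key a with rfl | rfl <;> rcases key b with rfl | rfl <;> simp

/-- the hypotheses of the contradiction argument -/
structure FrHyp (m : ℕ) (G : Type u) [Group G] : Prop where
  hm : Odd m
  hexp : ∀ x : G, x ^ (4 * m) = 1
  h2 : ∀ t a b : G, t ^ 2 = 1 → t * a * t = a⁻¹ →
    Finite (closure {a, b}) ∧ Group.IsSolvable (closure {a, b})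
  hno : ∀ K : Subgroup G, K.Normal → K ≠ ⊥ → (∀ x ∈ K, x ^ m = 1) → False
  hno4 : ∀ K : Subgroup G, K.Normal → K ≠ ⊥ → (∀ x ∈ K, x ^ 4 = 1) → False

section main

variable {G : Type u} [Group G] {m : ℕ}

theorem FrHyp.pos (H : FrHyp m G) : 0 < 4 * m := by
  obtain ⟨j, hj⟩ := H.hm
  omega

/-- (R1) -/
theorem FrHyp.R1 (H : FrHyp m G) {c : G} (hc1 : c ≠ 1) :
    ∃ g : G, ¬ InO m (closure {c, g}) c := by
  by_contra hcon
  push Not at hcon
  obtain ⟨K, hK1, hK2, hK3⟩ := normal_of_absorbing (P := m) H.pos H.hexp hc1 (by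
    intro h hh
    exact (hcon h).mul_odd H.hm H.hexp (subset_closure (by simp)) hh)
  exact H.hno K hK1 hK2 hK3

/-- (R2) every involution inverts a nontrivial odd element -/
theorem FrHyp.R2 (H : FrHyp m G) {z : G} (hz : z ^ 2 = 1) (hz1 : z ≠ 1) :
    ∃ e : G, e ^ m = 1 ∧ e ≠ 1 ∧ z * e * z = e⁻¹ := by
  by_contra hcon
  push Not at hcon
  obtain ⟨K, hK1, hK2, hK3⟩ := normal_of_absorbing (P := 4) H.pos H.hexp hz1 (by
    intro w hw
    have hzz : z * z * z = z⁻¹ := by rw [fr_mul_self hz, one_mul, fr_inv_of_sq hz]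
    have hfin := (H.h2 z z w hz hzz).1
    have hsol := (H.h2 z z w hz hzz).2
    have hzF : z ∈ closure {z, w} := subset_closure (by simp)
    have hwF : w ∈ closure {z, w} := subset_closure (by simp)
    have h1 := fr_R2 (F := closure {z, w}) H.hm hsol (fr_exp_sub H.hexp _)
      (z := ⟨z, hzF⟩) (w := ⟨w, hwF⟩) (Subtype.ext (by simpa using hz)) (by
        intro e he1 he2
        by_contra he3
        apply hcon e (by simpa using congrArg Subtype.val he1)
        · intro h4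
          exact he3 (Subtype.ext h4)
        · simpa using congrArg Subtype.val he2) (Subtype.ext (by simpa using hw))
    simpa using congrArg Subtype.val h1)
  exact H.hno4 K hK1 hK2 hK3

/-- the adjoining trick -/
theorem FrHyp.adjoin (H : FrHyp m G) {x y : G} (hx : x ^ 2 = 1) (hy : y ^ m = 1)
    (hxy : x * y * x = y⁻¹) (hy1 : y ≠ 1) :
    ∃ T : Subgroup G, Finite T ∧ Group.IsSolvable T ∧ x ∈ T ∧ y ∈ T ∧ ¬ InO m T y := by
  obtain ⟨g, hg⟩ := H.R1 hy1
  have hfin := (H.h2 x y g hx hxy).1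
  obtain ⟨k, _, hk, hk2⟩ := fr_J H.hm H.hexp (closure {y, g}) (H.h2 x y g hx hxy).2
    (subset_closure (by simp)) hy hg
  set T := closure {y, x * k} with hT
  have hyT : y ∈ T := subset_closure (by simp)
  have hxkT : x * k ∈ T := subset_closure (by simp)
  have hx' := fr_inv_of_sq hx
  have h1 : k⁻¹ * y * k ∈ T := by
    have h2 : (x * k)⁻¹ * y⁻¹ * (x * k) = k⁻¹ * y * k := by
      rw [← hxy, mul_inv_rev, hx']
      calc k⁻¹ * x * (x * y * x) * (x * k) = k⁻¹ * (x * x) * y * (x * x) * k := by group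
        _ = k⁻¹ * y * k := by rw [fr_mul_self hx]; group
    rw [← h2]
    exact T.mul_mem (T.mul_mem (T.inv_mem hxkT) (T.inv_mem hyT)) hxkT
  have hle : closure {y, k⁻¹ * y * k} ≤ T := by
    rw [Subgroup.closure_le]
    rintro w (rfl | rfl)
    · exact hyT
    · exact h1
  have hkT : k ∈ T := hle hk
  have hxT : x ∈ T := by
    have := T.mul_mem hxkT (T.inv_mem hkT)
    rwa [mul_inv_cancel_right] at this
  refine ⟨T, (H.h2 x y _ hx hxy).1, (H.h2 x y _ hx hxy).2, hxT, hyT, ?_⟩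
  intro h3
  exact hk2 (h3.mono hle (subset_closure (by simp)))

/-- there is an involution -/
theorem FrHyp.exists_invol [Nontrivial G] (H : FrHyp m G) : ∃ x : G, x ^ 2 = 1 ∧ x ≠ 1 := by
  obtain ⟨g, hg⟩ : ∃ g : G, g ^ m ≠ 1 := by
    by_contra hcon
    push Not at hcon
    exact H.hno ⊤ inferInstance top_ne_bot (fun x _ => hcon x)
  by_cases h : (g ^ m) ^ 2 = 1
  · exact ⟨g ^ m, h, hg⟩
  · refine ⟨(g ^ m) ^ 2, ?_, h⟩
    rw [← pow_mul, ← pow_mul, show m * (2 * 2) = 4 * m by ring]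
    exact H.hexp g

/-- existence of a configuration in `G` -/
theorem FrHyp.conf [Nontrivial G] (H : FrHyp m G) :
    ∃ (V : Subgroup G) (x y : G), SConf m x y V := by
  obtain ⟨x0, hx0, hx1⟩ := H.exists_invol
  obtain ⟨y0, hy0, hy1, hxy⟩ := H.R2 hx0 hx1
  obtain ⟨T, hT1, hT2, hxT, hyT, hn⟩ := H.adjoin hx0 hy0 hxy hy1
  have hn' : ¬ InO m (⊤ : Subgroup T) (⟨y0, hyT⟩ : T) := by
    rw [InO.top_iff]; exact hn
  obtain ⟨V, x, y, hS⟩ := fr_S (F := T) H.hm hT2 (fr_exp_sub H.hexp T) (x0 := ⟨x0, hxT⟩)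
    (y0 := ⟨y0, hyT⟩) (Subtype.ext (by simpa using hx0)) (Subtype.ext (by simpa using hy0))
    (Subtype.ext (by simpa using hxy)) hn'
  exact ⟨V.map T.subtype, T.subtype x, T.subtype y, hS.map T.subtype (fun v _ h1 => by
    apply Subtype.ext; simpa using h1)⟩

/-- Claim D for finite solvable subgroups of `G` -/
theorem FrHyp.D (H : FrHyp m G) {x y : G} {V : Subgroup G} (hS : SConf m x y V) {N : Subgroup G}
    (hfin : Finite N) (hsol : Group.IsSolvable N) (hVN : V ≤ N) (hxN : x ∈ N) (hyN : y ∈ N)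
    {s w : G} (hsN : s ∈ N) (hs : s ^ m = 1) (hw : w ∈ V) (h : w * s * w = s⁻¹) : InO m N s := by
  have hS' : SConf m (⟨x, hxN⟩ : N) (⟨y, hyN⟩ : N) (V.subgroupOf N) := by
    refine ⟨Subtype.ext (by simpa using hS.hx), Subtype.ext (by simpa using hS.hy),
      Subtype.ext (by simpa using hS.hxy), ?_, ?_, ?_, ?_, ?_⟩
    · intro v hv
      apply Subtype.ext
      have := hS.sq v hv
      simpa using this
    · intro v hv
      exact hS.nx v hv
    · intro v hv
      exact hS.ny v hv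
    · intro W hW h1 h2
      have h3 := hS.irr (W.map N.subtype) (by
        rintro _ ⟨w, hw, rfl⟩
        exact hW hw) (by
        rintro _ ⟨w, hw, rfl⟩
        exact ⟨_, h1 w hw, rfl⟩) (by
        rintro _ ⟨w, hw, rfl⟩
        exact ⟨_, h2 w hw, rfl⟩)
      rcases h3 with h3 | h3
      · left
        rwa [Subgroup.map_eq_bot_iff_of_injective _ N.subtype_injective] at h3
      · right
        rw [← h3, ← Subgroup.comap_subtype,
          Subgroup.comap_map_eq_self_of_injective N.subtype_injective]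
    · obtain ⟨v, hv, hv1⟩ := hS.act
      refine ⟨⟨v, hVN hv⟩, hv, ?_⟩
      intro h1
      exact hv1 (by simpa using congrArg Subtype.val h1)
  have h1 := fr_D (F := N) H.hm hsol (fr_exp_sub H.hexp N) hS' (s := ⟨s, hsN⟩)
    (w := ⟨w, hVN hw⟩) (Subtype.ext (by simpa using hs)) hw (Subtype.ext (by simpa using h))
  rwa [InO.top_iff] at h1

/-- (A2) -/
theorem FrHyp.A2 (H : FrHyp m G) {x y : G} {V : Subgroup G} (hS : SConf m x y V) {z : G}
    (hz : z ∈ V) (hz1 : z ≠ 1) (hxz : x * z = z * x) {s : G} (hs : s ^ m = 1)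
    (hxs : x * s = s * x) (hzs : z * s * z = s⁻¹) : s = 1 := by
  by_contra hs1
  have hx := hS.hx
  have hx' := fr_inv_of_sq hx
  have hz2 := hS.sq z hz
  have hz' := fr_inv_of_sq hz2
  have hzxs : z * (x * s) * z = (x * s)⁻¹ := by
    calc z * (x * s) * z = (z * x) * s * z := by group
      _ = (x * z) * s * z := by rw [hxz]
      _ = x * (z * s * z) := by group
      _ = (x * s)⁻¹ := by
        rw [hzs, mul_inv_rev, hx']
        have : x * s⁻¹ = s⁻¹ * x := by
          rw [mul_inv_eq_iff_eq_mul, mul_assoc, hxs, inv_mul_cancel_left]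
        exact this
  -- `x` and `s` are in every subgroup containing `x * s`
  have hxsT : ∀ T : Subgroup G, x * s ∈ T → x ∈ T ∧ s ∈ T := by
    intro T hT
    have h1 : (x * s) ^ m = x := by
      rw [(show Commute x s from hxs).mul_pow, hs, mul_one]
      obtain ⟨j, hj⟩ := H.hm
      rw [hj, pow_succ, pow_mul, hx, one_pow, one_mul]
    have h2 : x ∈ T := by rw [← h1]; exact T.pow_mem hT m
    refine ⟨h2, ?_⟩
    have h3 := T.mul_mem (T.inv_mem h2) hT
    rwa [inv_mul_cancel_left] at h3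
  -- a suitable `k` commuting with `x`
  obtain ⟨k, hxk, hk1, hk2⟩ : ∃ k : G, x * k = k * x ∧ k ∈ closure {s, k⁻¹ * s * k} ∧
      ¬ InO m (closure {s, k⁻¹ * s * k}) s := by
    obtain ⟨g, hg⟩ := H.R1 hs1
    obtain ⟨hxT, hsT⟩ := hxsT (closure {x * s, g}) (subset_closure (by simp))
    have hgT : g ∈ closure {x * s, g} := subset_closure (by simp)
    have hle : closure {s, g} ≤ closure {x * s, g} := by
      rw [Subgroup.closure_le]
      rintro w (rfl | rfl)
      · exact hsT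
      · exact hgT
    have hfin := (H.h2 z (x * s) g hz2 hzxs).1
    obtain ⟨k0, _, hk01, hk02⟩ := fr_detect_sub H.hm H.hexp (closure {x * s, g})
      (H.h2 z (x * s) g hz2 hzxs).2 hxT hx hsT hs hxs (fun h => hg (h.mono hle (subset_closure (by simp))))
    have hfin' := (H.h2 z s k0 hz2 hzs).1
    obtain ⟨k, hk, hk1, hk2⟩ := fr_J H.hm H.hexp (closure {s, k0}) (H.h2 z s k0 hz2 hzs).2
      (subset_closure (by simp)) hs
      (fr_not_InO_of_mem (subset_closure (by simp)) hk02)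
    refine ⟨k, ?_, hk1, hk2⟩
    have hle2 : closure {s, k0} ≤ centralizer {x} := by
      rw [Subgroup.closure_le]
      rintro w (rfl | rfl)
      · rw [SetLike.mem_coe, mem_centralizer_singleton_iff]; exact hxs.symm
      · rw [SetLike.mem_coe, mem_centralizer_singleton_iff]; exact hk01.symm
    have := hle2 hk
    rw [mem_centralizer_singleton_iff] at this
    exact this.symm
  -- the subgroup `N`
  set g := z * k with hg
  have hxg : x * g = g * x := by
    rw [hg, ← mul_assoc, hxz, mul_assoc, hxk, ← mul_assoc]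
  set N := closure {x * s, g * y} with hN
  obtain ⟨hxN, hsN⟩ := hxsT N (subset_closure (by simp))
  have hgyN : g * y ∈ N := subset_closure (by simp)
  have hyN : y ∈ N := by
    have h1 : x * ((g * y)⁻¹ * x * (g * y)) = y ^ 2 := by
      have h2 : (g * y)⁻¹ * x * (g * y) = y⁻¹ * x * y := by
        calc (g * y)⁻¹ * x * (g * y) = y⁻¹ * g⁻¹ * (x * g) * y := by group
          _ = y⁻¹ * x * y := by rw [hxg]; group
      rw [h2]
      have h3 : x * y⁻¹ * x = y := by
        have h4 : x * y⁻¹ * x = (x * y * x)⁻¹ := by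
          rw [mul_inv_rev, mul_inv_rev, hx']; group
        rw [h4, hS.hxy, inv_inv]
      calc x * (y⁻¹ * x * y) = (x * y⁻¹ * x) * y := by group
        _ = y ^ 2 := by rw [h3, pow_two]
    have h2 : y ^ 2 ∈ N := by
      rw [← h1]
      exact N.mul_mem hxN (N.mul_mem (N.mul_mem (N.inv_mem hgyN) hxN) hgyN)
    have h3 := N.pow_mem h2 ((m + 1) / 2)
    rwa [← pow_mul, mul_comm, pow_mul, fr_sqrt H.hm hS.hy] at h3
  have hgN : g ∈ N := by
    have := N.mul_mem hgyN (N.inv_mem hyN)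
    rwa [mul_inv_cancel_right] at this
  have hkN : k ∈ N := by
    have h1 : k⁻¹ * s * k ∈ N := by
      have h2 : g⁻¹ * s⁻¹ * g = k⁻¹ * s * k := by
        rw [← hzs, hg, mul_inv_rev, hz']
        calc k⁻¹ * z * (z * s * z) * (z * k) = k⁻¹ * (z * z) * s * (z * z) * k := by group
          _ = k⁻¹ * s * k := by rw [fr_mul_self hz2]; group
      rw [← h2]
      exact N.mul_mem (N.mul_mem (N.inv_mem hgN) (N.inv_mem hsN)) hgN
    have hle : closure {s, k⁻¹ * s * k} ≤ N := by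
      rw [Subgroup.closure_le]
      rintro w (rfl | rfl)
      · exact hsN
      · exact h1
    exact hle hk1
  have hzN : z ∈ N := by
    have h1 := N.mul_mem hgN (N.inv_mem hkN)
    rwa [hg, mul_inv_cancel_right] at h1
  have hVN : V ≤ N := by
    have h1 := hS.irr (V ⊓ N) inf_le_left
      (fun w hw => ⟨hS.nx w hw.1, N.mul_mem (N.mul_mem hxN hw.2) hxN⟩)
      (fun w hw => ⟨hS.ny w hw.1, N.mul_mem (N.mul_mem hyN hw.2) (N.inv_mem hyN)⟩)
    rcases h1 with h1 | h1
    · exfalso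
      have h2 : z ∈ V ⊓ N := ⟨hz, hzN⟩
      rw [h1, mem_bot] at h2
      exact hz1 h2
    · exact inf_eq_left.1 h1
  have h1 := H.D hS (H.h2 z _ _ hz2 hzxs).1 (H.h2 z _ _ hz2 hzxs).2 hVN hxN hyN hsN hs hz hzs
  apply hk2
  apply h1.mono _ (subset_closure (by simp))
  rw [Subgroup.closure_le]
  rintro w (rfl | rfl)
  · exact hsN
  · exact N.mul_mem (N.mul_mem (N.inv_mem hkN) hsN) hkN

/-- the contradiction -/
theorem FrHyp.false [Nontrivial G] (H : FrHyp m G) : False := by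
  obtain ⟨V, x, y, hS⟩ := H.conf
  obtain ⟨v, hv, hv1⟩ := hS.act
  have hx := hS.hx
  have hx' := fr_inv_of_sq hx
  have hv2 := hS.sq v hv
  have hv' := fr_inv_of_sq hv2
  set z := (v * x) ^ 2 with hz
  have hzv : z = v * (x * v * x) := by rw [hz, pow_two]; group
  have hzV : z ∈ V := by rw [hzv]; exact V.mul_mem hv (hS.nx v hv)
  have hz1 : z ≠ 1 := by
    intro h
    apply hv1
    rw [hzv] at h
    have := inv_eq_of_mul_eq_one_right h
    rw [← this, hv']
  have hz2 := hS.sq z hzV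
  have hvx : (v * x) ^ 4 = 1 := by
    have : (v * x) ^ 4 = z ^ 2 := by rw [hz, ← pow_mul]
    rw [this, hz2]
  obtain ⟨hd1, hd2, hd3, hd4, hd5, hd6⟩ := fr_dihedral hx hv2 hvx
  obtain ⟨e, he, he1, hze⟩ := H.R2 hz2 hz1
  have hze2 : (z * e) ^ 2 = 1 := by
    rw [pow_two]
    calc z * e * (z * e) = (z * e * z) * e := by group
      _ = 1 := by rw [hze, inv_mul_cancel]
  have hreal : (z * e) * ((z * e) * x) * (z * e) = ((z * e) * x)⁻¹ := by
    have h1 := fr_inv_of_sq hze2
    calc (z * e) * ((z * e) * x) * (z * e) = ((z * e) * (z * e)) * x * (z * e) := by group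
      _ = ((z * e) * x)⁻¹ := by rw [fr_mul_self hze2, one_mul, mul_inv_rev, h1, hx']
  obtain ⟨T, hT1, hT2, hxT, hvT, heT⟩ := fr_three (H.h2 (z * e) ((z * e) * x) ((z * e) * v) hze2
    hreal) hx hv2 hze2
  have hzT : z ∈ T := by
    rw [hz]; exact T.pow_mem (T.mul_mem hvT hxT) 2
  have heT' : e ∈ T := by
    have := T.mul_mem (T.inv_mem hzT) heT
    rwa [inv_mul_cancel_left] at this
  have key := fr_T (F := T) H.hm hT2 (fr_exp_sub H.hexp T) (x := ⟨x, hxT⟩) (v := ⟨v, hvT⟩)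
    (Subtype.ext (by simpa using hx)) (Subtype.ext (by simpa using hv2))
    (Subtype.ext (by simpa using hvx)) (by
      intro s hs hxs hzs
      apply Subtype.ext
      exact H.A2 hS hzV hz1 hd2 (s := s) (by simpa using congrArg Subtype.val hs)
        (by simpa using congrArg Subtype.val hxs)
        (by simpa using congrArg Subtype.val hzs)) ⟨e, heT'⟩
    (Subtype.ext (by simpa using he)) (Subtype.ext (by simpa using hze))
  exact he1 (by simpa using congrArg Subtype.val key)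

/-- nontrivial groups of exponent `4 * m`, in which any two elements, the first of which is
inverted by an involution, generate a finite solvable subgroup, have a nontrivial normal subgroup
of exponent `m` or `4` -/
theorem fr_exists_normal [Nontrivial G] (hm : Odd m) (hexp : ∀ x : G, x ^ (4 * m) = 1)
    (h2 : ∀ t a b : G, t ^ 2 = 1 → t * a * t = a⁻¹ →
      Finite (closure {a, b}) ∧ Group.IsSolvable (closure {a, b})) :
    ∃ K : Subgroup G, K.Normal ∧ K ≠ ⊥ ∧ ((∀ x ∈ K, x ^ m = 1) ∨ ∀ x ∈ K, x ^ 4 = 1) := by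
  by_contra hcon
  push Not at hcon
  have H : FrHyp m G := by
    refine ⟨hm, hexp, h2, ?_, ?_⟩
    · intro K h1 h2 h3
      obtain ⟨⟨x, hx, hx1⟩, _⟩ := hcon K h1 h2
      exact hx1 (h3 x hx)
    · intro K h1 h2 h3
      obtain ⟨_, ⟨x, hx, hx1⟩⟩ := hcon K h1 h2
      exact hx1 (h3 x hx)
  exact H.false

/-- **Two generators suffice for exponents `4 * m`.** Universal form: the class of groups of
exponent `n ∣ 4 * m`. -/
theorem fr_LF_class {n : ℕ} (hm : Odd m) (hn : n ∣ 4 * m)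
    (h2 : ∀ (G : Type u) [Group G], (∀ g : G, g ^ n = 1) → ∀ t a b : G, t ^ 2 = 1 →
      t * a * t = a⁻¹ → Finite (closure {a, b}) ∧ Group.IsSolvable (closure {a, b}))
    (hLm : ∀ (G : Type u) [Group G], (∀ g : G, g ^ m = 1) → ∀ S : Finset G,
      Finite (closure (S : Set G)))
    (hL4 : ∀ (G : Type u) [Group G], (∀ g : G, g ^ 4 = 1) → ∀ S : Finset G,
      Finite (closure (S : Set G)))
    {G : Type u} [Group G] (hexp : ∀ x : G, x ^ n = 1) : LF (⊤ : Subgroup G) := by
  apply LF_of_quotients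
  intro N hN hNtop
  have hnt : Nontrivial (G ⧸ N) := by
    by_contra h
    rw [not_nontrivial_iff_subsingleton] at h
    exact hNtop (QuotientGroup.subgroup_eq_top_of_subsingleton N h)
  have hexpN : ∀ x : G ⧸ N, x ^ n = 1 := by
    intro x
    obtain ⟨z, rfl⟩ := QuotientGroup.mk'_surjective _ x
    rw [← map_pow, hexp, map_one]
  obtain ⟨j, hj⟩ := hn
  obtain ⟨K, hK1, hK2, hK3⟩ := fr_exists_normal (G := G ⧸ N) hm
    (fun x => by rw [hj, pow_mul, hexpN, one_pow]) (h2 _ hexpN)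
  refine ⟨K, hK1, hK2, ?_⟩
  rcases hK3 with h | h
  · exact LF_of_exponent hLm K h
  · exact LF_of_exponent hL4 K h

/-- **Two generators suffice for exponents `4 * m`.** Form for single groups: a group of exponent
`4 * m` all of whose two-generator subgroups are finite and solvable is locally finite if the
normal subgroups of exponent `m` of its quotients are. -/
theorem fr_LF {G : Type u} [Group G] (hm : Odd m) (hexp : ∀ x : G, x ^ (4 * m) = 1)
    (h2 : ∀ a b : G, Finite (closure {a, b}) ∧ Group.IsSolvable (closure {a, b}))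
    (hsec : ∀ (N : Subgroup G) [N.Normal] (K : Subgroup (G ⧸ N)), (∀ x ∈ K, x ^ m = 1) → LF K)
    (hL4 : ∀ (G : Type u) [Group G], (∀ g : G, g ^ 4 = 1) → ∀ S : Finset G,
      Finite (closure (S : Set G))) : LF (⊤ : Subgroup G) := by
  apply LF_of_quotients
  intro N hN hNtop
  have hnt : Nontrivial (G ⧸ N) := by
    by_contra h
    rw [not_nontrivial_iff_subsingleton] at h
    exact hNtop (QuotientGroup.subgroup_eq_top_of_subsingleton N h)
  have hsurj := QuotientGroup.mk'_surjective N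
  obtain ⟨K, hK1, hK2, hK3⟩ := fr_exists_normal (G := G ⧸ N) hm (fr_exp_quot hexp N) (by
    intro _ a b _ _
    obtain ⟨a, rfl⟩ := hsurj a
    obtain ⟨b, rfl⟩ := hsurj b
    have himg : closure {QuotientGroup.mk' N a, QuotientGroup.mk' N b} =
        (closure {a, b}).map (QuotientGroup.mk' N) := by
      rw [MonoidHom.map_closure, Set.image_pair]
    have h1 := (h2 a b).1
    have h3 := (h2 a b).2
    rw [himg]
    refine ⟨Finite.of_surjective _
      ((QuotientGroup.mk' N).subgroupMap_surjective (closure {a, b})), ?_⟩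
    exact Group.isSolvable_of_surjective
      (f := (QuotientGroup.mk' N).subgroupMap (closure {a, b}))
      ((QuotientGroup.mk' N).subgroupMap_surjective _))
  refine ⟨K, hK1, hK2, ?_⟩
  rcases hK3 with h | h
  · exact hsec N K h
  · exact LF_of_exponent hL4 K h

end main

end Pool.Agent.Lib.MP_544bd1_al
end
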