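import Mathlib
import Pool.Agent.Lib.MP_544bd1_al.EvM2

section

/-!
Two generators, part 2: the pairing `b`.
-/

namespace Pool.Agent.Lib.MP_544bd1_al

open Finset

variable {K E X : Type} [Field K] [Ring E] [Algebra K E] [Nontrivial E] [Group X]
  {e : X → Eˣ} {b : X → X → K}

private theorem d1_smul {c c' : K} {u : E} (hu : IsUnit u) (h : c • u = c' • u) : c = c' := by
  have h1 : (c - c') • u = 0 := by rw [sub_smul, h, sub_self]
  rcases smul_eq_zero.1 h1 with h2 | h2
  · exact sub_eq_zero.1 h2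
  · exact absurd h2 hu.ne_zero

omit [Nontrivial E] [Group X] in
private theorem d1_u (x y : X) : IsUnit ((e x : E) * (e y : E)) := (e x).isUnit.mul (e y).isUnit

/-- `b` is nonzero, multiplicative in both variables, and `b x y = (b y x)⁻¹`.
(Compare `e y * e x = b y x • (e x * e y)` for products; `e x`, `e y` are units, `E` nontrivial, so
scalars can be compared.) -/
theorem TwAlg.bmul (h : TwAlg (E := E) e b) :
    (∀ y x, b y x ≠ 0) ∧ (∀ y x, b y x * b x y = 1) ∧
    (∀ y y' x, b (y * y') x = b y x * b y' x) ∧ (∀ y x x', b y (x * x') = b y x * b y x') := by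
  have hne : ∀ y x, b y x ≠ 0 := by
    intro y x h0
    have h1 := h.hb y x
    rw [h0, zero_smul] at h1
    exact (d1_u (e := e) y x).ne_zero h1
  have hinv : ∀ y x, b y x * b x y = 1 := by
    intro y x
    have h1 := h.hb y x
    rw [h.hb x y, smul_smul] at h1
    refine (d1_smul (K := K) (d1_u (e := e) y x) ?_).symm
    rw [one_smul]
    exact h1
  have hcne : ∀ {x y : X} {c : K}, (e x : E) * (e y : E) = c • (e (x * y) : E) → c ≠ 0 := by
    intro x y c hc h0
    rw [h0, zero_smul] at hc
    exact (d1_u (e := e) x y).ne_zero hc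
  have hmul : ∀ y y' x, b (y * y') x = b y x * b y' x := by
    intro y y' x
    obtain ⟨c, hc⟩ := h.he y y'
    have hc0 := hcne hc
    have h1 : c • ((e (y * y') : E) * (e x : E)) =
        (b y x * b y' x) • (c • ((e x : E) * (e (y * y') : E))) := by
      rw [← smul_mul_assoc, ← hc, mul_assoc, h.hb y' x, mul_smul_comm, ← mul_assoc, h.hb y x,
        smul_mul_assoc, smul_smul, mul_assoc, hc, mul_smul_comm, mul_comm (b y' x)]
    rw [h.hb (y * y') x, smul_comm c, smul_comm (b y x * b y' x) c] at h1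
    have h2 : (c * b (y * y') x) • ((e x : E) * (e (y * y') : E)) =
        (c * (b y x * b y' x)) • ((e x : E) * (e (y * y') : E)) := by
      rw [mul_smul, mul_smul, ← h1, smul_comm]
    exact mul_left_cancel₀ hc0 (d1_smul (d1_u (e := e) x (y * y')) h2)
  refine ⟨hne, hinv, hmul, fun y x x' => ?_⟩
  have h1 : ∀ z, b y z = (b z y)⁻¹ := fun z => eq_inv_of_mul_eq_one_left (hinv y z)
  rw [h1, h1, h1, hmul, mul_inv]

/-- orthogonality relations (translate the sum by an element with `b ≠ 1`) -/
theorem TwAlg.orth [Fintype X] (h : TwAlg (E := E) e b) [DecidableEq X] :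
    (∀ x x', ∑ y, (b y x)⁻¹ * b y x' = if x = x' then (Nat.card X : K) else 0) ∧
    ∀ y, ∑ x, (b y x)⁻¹ = if y = 1 then (Nat.card X : K) else 0 := by
  obtain ⟨hne, hinv, hmul, hmul'⟩ := h.bmul
  have hcard : ∑ _y : X, (1 : K) = (Nat.card X : K) := by
    rw [Finset.sum_const, Finset.card_univ, nsmul_eq_mul, mul_one, Nat.card_eq_fintype_card]
  have htr : ∀ f : X → K, (∀ y y', f (y * y') = f y * f y') → ∀ y0, f y0 ≠ 1 → ∑ y, f y = 0 := by
    intro f hf y0 hy0
    have h1 : ∑ y, f (y0 * y) = ∑ y, f y := Equiv.sum_comp (Equiv.mulLeft y0) f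
    simp only [hf] at h1
    rw [← Finset.mul_sum] at h1
    have h2 : (f y0 - 1) * ∑ y, f y = 0 := by rw [sub_mul, one_mul, h1, sub_self]
    exact (mul_eq_zero.1 h2).resolve_left (sub_ne_zero.2 hy0)
  constructor
  · intro x x'
    split_ifs with hx
    · subst hx
      rw [← hcard]
      exact Finset.sum_congr rfl fun y _ => inv_mul_cancel₀ (hne y x)
    · have hne1 : x⁻¹ * x' ≠ 1 := fun h1 => hx (by
        have h2 := congrArg (fun z => x * z) h1
        simpa using h2.symm)
      obtain ⟨y0, hy0⟩ : ∃ y, b y (x⁻¹ * x') ≠ 1 := by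
        by_contra hcon
        push Not at hcon
        exact hne1 (h.nd _ hcon)
      refine htr (fun y => (b y x)⁻¹ * b y x') (fun y y' => ?_) y0 ?_
      · simp only [hmul, mul_inv]
        ring
      · have h1 : b y0 x' = b y0 x * b y0 (x⁻¹ * x') := by
          rw [← hmul', mul_inv_cancel_left]
        simp only [h1]
        rw [← mul_assoc, inv_mul_cancel₀ (hne y0 x), one_mul]
        exact hy0
  · intro y
    split_ifs with hy
    · subst hy
      rw [← hcard]
      refine Finset.sum_congr rfl fun x _ => ?_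
      have h1 : b 1 x = b 1 x * b 1 x := by
        rw [← hmul, one_mul]
      have h2 : b 1 x = 1 := (mul_left_cancel₀ (hne 1 x) (by rw [mul_one]; exact h1)).symm
      rw [h2, inv_one]
    · obtain ⟨x0, hx0⟩ : ∃ z, b z y ≠ 1 := by
        by_contra hcon
        push Not at hcon
        exact hy (h.nd _ hcon)
      refine htr (fun x => (b y x)⁻¹) (fun x x' => ?_) x0 ?_
      · simp only [hmul', mul_inv]
      · intro h1
        apply hx0
        have h2 := hinv y x0
        have h3 : b y x0 = 1 := by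
          rw [← inv_inv (b y x0)]
          rw [show (b y x0)⁻¹ = 1 from h1, inv_one]
        rwa [h3, one_mul] at h2

end Pool.Agent.Lib.MP_544bd1_al
end

section

/-!
Two generators, part 2: nilpotent operators, one Jordan block.
-/

namespace Pool.Agent.Lib.MP_544bd1_al

open Finset

variable {K V : Type} [Field K] [AddCommGroup V] [Module K V] [FiniteDimensional K V]

theorem tw_K2_ker (N : Module.End K V) (hker : Module.finrank K (LinearMap.ker N) ≤ 1) (i : ℕ) :
    Module.finrank K (LinearMap.ker (N ^ i)) ≤ i := by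
  induction i with
  | zero =>
    have h1 : LinearMap.ker (N ^ 0) = ⊥ := by
      rw [pow_zero]
      exact LinearMap.ker_id
    rw [h1]
    simp
  | succ i ih =>
    set g : LinearMap.ker (N ^ (i + 1)) →ₗ[K] V := (N ^ i).comp (LinearMap.ker (N ^ (i + 1))).subtype
      with hg
    have h1 := LinearMap.finrank_range_add_finrank_ker g
    have h2 : LinearMap.range g ≤ LinearMap.ker N := by
      rintro _ ⟨x, rfl⟩
      rw [LinearMap.mem_ker]
      have hx : (N ^ (i + 1)) (x : V) = 0 := LinearMap.mem_ker.1 x.2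
      have h5 : (N ^ (i + 1)) (x : V) = N ((N ^ i) (x : V)) := by
        generalize (x : V) = y
        rw [pow_succ']
        rfl
      rw [h5] at hx
      exact hx
    have h3 := Submodule.finrank_mono h2
    have h4 : Module.finrank K (LinearMap.ker g) ≤ Module.finrank K (LinearMap.ker (N ^ i)) := by
      have hm : ∀ x : LinearMap.ker g, ((x : LinearMap.ker (N ^ (i + 1))) : V) ∈
          LinearMap.ker (N ^ i) := by
        intro x
        exact x.2
      set φ : LinearMap.ker g →ₗ[K] LinearMap.ker (N ^ i) :=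
        LinearMap.codRestrict _ ((LinearMap.ker (N ^ (i + 1))).subtype.comp
          (LinearMap.ker g).subtype) hm with hφ
      refine LinearMap.finrank_le_finrank_of_injective (f := φ) ?_
      intro x y hxy
      have h5 : ((x : LinearMap.ker (N ^ (i + 1))) : V) = ((y : LinearMap.ker (N ^ (i + 1))) : V) :=
        congrArg (fun z : LinearMap.ker (N ^ i) => (z : V)) hxy
      exact Subtype.ext (Subtype.ext h5)
    omega

/-- a nilpotent operator with kernel of dimension `≤ 1` is a single Jordan block: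
`finrank (ker (N ^ (i+1))) ≤ finrank (ker (N ^ i)) + 1`, so `N ^ (D - 1) ≠ 0`;
`1, N, …, N ^ (D - 1)` are linearly independent and commute with `N`. -/
theorem tw_K2 [Nontrivial V] (N : Module.End K V) (k : ℕ) (hN : N ^ k = 0)
    (hker : Module.finrank K (LinearMap.ker N) ≤ 1) :
    N ^ (Module.finrank K V - 1) ≠ 0 ∧
    ∀ Fx : Submodule K (Module.End K V), (∀ B, B * N = N * B → B ∈ Fx) →
      Module.finrank K V ≤ Module.finrank K Fx := by
  have hD : 0 < Module.finrank K V := Module.finrank_pos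
  have hne : N ^ (Module.finrank K V - 1) ≠ 0 := by
    intro h0
    have h1 := tw_K2_ker N hker (Module.finrank K V - 1)
    rw [h0, LinearMap.ker_zero, finrank_top] at h1
    omega
  refine ⟨hne, fun Fx hFx => ?_⟩
  have hdvd : minpoly K N ∣ Polynomial.X ^ k := by
    refine minpoly.dvd K N ?_
    rw [map_pow, Polynomial.aeval_X, hN]
  obtain ⟨i, -, hi⟩ := (dvd_prime_pow Polynomial.prime_X k).1 hdvd
  have hint : IsIntegral K N := Algebra.IsIntegral.isIntegral N
  have hmin : minpoly K N = Polynomial.X ^ i :=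
    Polynomial.eq_of_monic_of_associated (minpoly.monic hint) (Polynomial.monic_X_pow i) hi
  have hNi : N ^ i = 0 := by
    have h1 := minpoly.aeval K N
    rwa [hmin, map_pow, Polynomial.aeval_X] at h1
  have hiD : Module.finrank K V ≤ i := by
    by_contra hlt
    push Not at hlt
    refine hne ?_
    have h1 : Module.finrank K V - 1 = i + (Module.finrank K V - 1 - i) := by omega
    rw [h1, pow_add, hNi, zero_mul]
  have hdeg : (minpoly K N).natDegree = i := by
    rw [hmin, Polynomial.natDegree_X_pow]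
  have hli := linearIndependent_pow (K := K) N
  rw [hdeg] at hli
  have hli2 : LinearIndependent K (fun j : Fin i => (⟨N ^ (j : ℕ), hFx _ (by
      rw [← pow_succ, ← pow_succ'])⟩ : Fx)) := by
    refine LinearIndependent.of_comp Fx.subtype ?_
    exact hli
  have h2 := hli2.fintype_card_le_finrank
  rw [Fintype.card_fin] at h2
  omega

end Pool.Agent.Lib.MP_544bd1_al
end

section

/-!
Two generators, part 2: the norm in characteristic `p`; numerical contradiction.
-/

namespace Pool.Agent.Lib.MP_544bd1_al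

open Finset

variable {K V : Type} [Field K] [AddCommGroup V] [Module K V]

/-- characteristic `p`: `(U - 1) ^ (p ^ a - 1) = ∑ U ^ i` (in `K[X]`:
`(X - 1) ^ (p ^ a) = X ^ (p ^ a) - 1 = (X - 1) * ∑ X ^ i`; cancel and evaluate) -/
theorem tw_norm_pow {p a : ℕ} [Fact p.Prime] [CharP K p] (U : Module.End K V) :
    (U - 1) ^ (p ^ a - 1) = ∑ i ∈ range (p ^ a), U ^ i ∧ (U - 1) ^ (p ^ a) = U ^ (p ^ a) - 1 := by
  have hp : 0 < p ^ a := pow_pos (Fact.out : p.Prime).pos a
  have h1 : ((Polynomial.X : Polynomial K) - 1) ^ (p ^ a) = Polynomial.X ^ (p ^ a) - 1 := by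
    rw [sub_pow_char_pow, one_pow]
  have h2 : ((Polynomial.X : Polynomial K) - 1) ^ (p ^ a - 1) =
      ∑ i ∈ range (p ^ a), Polynomial.X ^ i := by
    have h3 : ((Polynomial.X : Polynomial K) - 1) ≠ 0 := by
      have := Polynomial.X_sub_C_ne_zero (1 : K)
      rwa [map_one] at this
    refine mul_left_cancel₀ h3 ?_
    rw [mul_geom_sum, ← h1, ← pow_succ']
    congr 1
    omega
  constructor
  · have h3 := congrArg (Polynomial.aeval U) h2
    simpa only [map_pow, map_sub, map_one, map_sum, Polynomial.aeval_X] using h3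
  · have h3 := congrArg (Polynomial.aeval U) h1
    simpa only [map_pow, map_sub, map_one, Polynomial.aeval_X] using h3

/-- the numerical contradiction.
Proof. `D * D = c + q * (t * c) ≥ c + q * (D - 1)`, so in the integers
`c - 1 ≤ (D - 1) * (D - (q - 1)) ≤ 0`: `c = 1`, and `(D - 1) * (D - (q - 1)) = 0`. `D = 1` gives
`q * t = 0`, impossible. So `D = q - 1`, `(q - 1) ^ 2 = r ^ m`, `q - 1` divides a power of `r`:
`q - 1 = r ^ s`, and `s ≠ 0` (else `q = 2`, `D = 1`). -/
theorem tw_K3 {r q D t c m : ℕ} (hr : r.Prime) (hq : 0 < q) (h1 : D * D = (1 + q * t) * c)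
    (h2 : D ≤ 1 + t * c) (h3 : D + 1 ≤ q) (hc : 1 ≤ c) (ht : 1 ≤ t) (hm : 1 + q * t = r ^ m) :
    ∃ s, 0 < s ∧ r ^ s + 1 = q := by
  have hD : 1 ≤ D := by
    rcases Nat.eq_zero_or_pos D with h | h
    · rw [h] at h1
      have : 0 < (1 + q * t) * c := by positivity
      omega
    · exact h
  -- work in the integers
  have e1 : (D : ℤ) * D = (1 + q * t) * c := by exact_mod_cast h1
  have e2 : (D : ℤ) ≤ 1 + t * c := by exact_mod_cast h2
  have e3 : (D : ℤ) + 1 ≤ q := by exact_mod_cast h3
  have e4 : (1 : ℤ) ≤ c := by exact_mod_cast hc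
  have e5 : (1 : ℤ) ≤ D := by exact_mod_cast hD
  have e6 : (0 : ℤ) ≤ q := by positivity
  have e7 : (q : ℤ) * (D - 1) ≤ q * (t * c) := mul_le_mul_of_nonneg_left (by linarith) e6
  have e8 : ((D : ℤ) - 1) * (D + 1 - q) ≤ 0 :=
    mul_nonpos_of_nonneg_of_nonpos (by linarith) (by linarith)
  have e9 : (c : ℤ) - 1 ≤ (D - 1) * (D + 1 - q) := by
    have : ((D : ℤ) - 1) * (D + 1 - q) = D * D - 1 - q * (D - 1) := by ring
    rw [this, e1]
    have : (1 + (q : ℤ) * t) * c = c + q * (t * c) := by ring
    linarith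
  have hc1 : c = 1 := by
    have : (c : ℤ) ≤ 1 := by linarith
    have : c ≤ 1 := by exact_mod_cast this
    omega
  have e10 : ((D : ℤ) - 1) * (D + 1 - q) = 0 := le_antisymm e8 (by linarith)
  have hDne : D ≠ 1 := by
    rintro rfl
    rw [hc1] at h1
    have : 0 < q * t := by positivity
    omega
  have hDq : D + 1 = q := by
    rcases mul_eq_zero.1 e10 with h | h
    · exfalso
      apply hDne
      have : (D : ℤ) = 1 := by linarith
      exact_mod_cast this
    · have : (D : ℤ) + 1 = q := by linarith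
      exact_mod_cast this
  have hdvd : D ∣ r ^ m := by
    rw [← hm]
    rw [hc1, mul_one] at h1
    exact ⟨D, h1.symm⟩
  obtain ⟨s, -, hs⟩ := (Nat.dvd_prime_pow hr).1 hdvd
  refine ⟨s, ?_, by rw [← hs]; exact hDq⟩
  rcases Nat.eq_zero_or_pos s with h | h
  · rw [h, pow_zero] at hs
    exact absurd hs hDne
  · exact h

end Pool.Agent.Lib.MP_544bd1_al
end

section

/-!
Two generators, part 2: the projections `twP`.
-/

namespace Pool.Agent.Lib.MP_544bd1_al

open Finset

variable {K E X : Type} [Field K] [Ring E] [Algebra K E] [Nontrivial E] [Group X]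
  {e : X → Eˣ} {b : X → X → K}

variable [Fintype X]

/-- `twP x` is linear -/
theorem TwAlg.lin (e : X → Eˣ) (b : X → X → K) (x : X) :
    (∀ A B, twP e b x (A + B) = twP e b x A + twP e b x B) ∧
    (∀ (c : K) A, twP e b x (c • A) = c • twP e b x A) := by
  refine ⟨fun A B => ?_, fun c A => ?_⟩
  · simp only [twP, mul_add, add_mul, smul_add, Finset.sum_add_distrib]
  · simp only [twP]
    rw [smul_comm c, Finset.smul_sum (r := c)]
    congr 1
    refine Finset.sum_congr rfl fun y _ => ?_
    rw [mul_smul_comm, smul_mul_assoc, smul_comm]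

omit [Group X] [Fintype X] in
/-- conjugation by a unit which is a multiple of another unit -/
theorem TwAlg.lin_conj {u v : Eˣ} {c : K} (huv : (u : E) = c • (v : E)) (A : E) :
    (u : E) * A * ((u⁻¹ : Eˣ) : E) = (v : E) * A * ((v⁻¹ : Eˣ) : E) := by
  have hc : c ≠ 0 := by
    rintro rfl
    rw [zero_smul] at huv
    exact u.ne_zero huv
  have h1 : ((u⁻¹ : Eˣ) : E) = c⁻¹ • ((v⁻¹ : Eˣ) : E) := by
    rw [Units.inv_eq_of_mul_eq_one_right]
    rw [huv, smul_mul_smul_comm, Units.mul_inv, mul_inv_cancel₀ hc, one_smul]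
  rw [h1, huv, smul_mul_assoc, smul_mul_smul_comm, mul_inv_cancel₀ hc, one_smul]

/-- `twP x` maps into the weight space, is the identity on it, kills the other weight spaces, and
the sum of all `twP x` is the identity. (`e w * e y = c • e (w * y)` with `c ≠ 0`, so conjugation by
`e w * e y` is conjugation by `e (w * y)`; `twP x A` is multiplied by `b w x` under conjugation by
`e w`; for `A ∈ Wt x'`, `e y * A * (e y)⁻¹ = b y x' • A`; use `TwAlg.bmul`, `TwAlg.orth`.) -/
theorem TwAlg.proj (h : TwAlg (E := E) e b) :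
    (∀ x A, twP e b x A ∈ Wt e b x) ∧ (∀ x, ∀ A ∈ Wt e b x, twP e b x A = A) ∧
    (∀ x x', x ≠ x' → ∀ A ∈ Wt e b x', twP e b x A = 0) ∧ ∀ A, ∑ x, twP e b x A = A := by
  classical
  obtain ⟨hb0, hbinv, hbl, hbr⟩ := h.bmul
  obtain ⟨ho1, ho2⟩ := h.orth
  -- conjugation of elements of the weight space
  have hconj : ∀ x', ∀ A ∈ Wt e b x', ∀ y, (e y : E) * A * ((e y)⁻¹ : Eˣ) = b y x' • A := by
    intro x' A hA y
    have h1 : (e y : E) * A = b y x' • (A * (e y : E)) := hA y
    rw [h1, smul_mul_assoc, mul_assoc, Units.mul_inv, mul_one]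
  have hmul : ∀ w y (A : E), (e w : E) * ((e y : E) * A * ((e y)⁻¹ : Eˣ)) * ((e w)⁻¹ : Eˣ)
      = (e (w * y) : E) * A * ((e (w * y))⁻¹ : Eˣ) := by
    intro w y A
    obtain ⟨c, hc⟩ := h.he w y
    have h1 : ((e w * e y : Eˣ) : E) = c • (e (w * y) : E) := by
      rw [Units.val_mul, hc]
    rw [← TwAlg.lin_conj h1, mul_inv_rev, Units.val_mul, Units.val_mul]
    simp only [mul_assoc]
  refine ⟨?_, ?_, ?_, ?_⟩
  · intro x A w
    have h1 : (e w : E) * twP e b x A * ((e w)⁻¹ : Eˣ) = b w x • twP e b x A := by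
      simp only [twP]
      rw [mul_smul_comm, smul_mul_assoc, smul_comm (b w x)]
      congr 1
      rw [Finset.mul_sum, Finset.sum_mul, Finset.smul_sum]
      have h2 : ∀ y, (e w : E) * ((b y x)⁻¹ • ((e y : E) * A * ((e y)⁻¹ : Eˣ)))
          * ((e w)⁻¹ : Eˣ) = b w x • ((b (w * y) x)⁻¹ •
            ((e (w * y) : E) * A * ((e (w * y))⁻¹ : Eˣ))) := by
        intro y
        rw [mul_smul_comm, smul_mul_assoc, hmul, smul_smul]
        congr 1
        rw [hbl, mul_inv, ← mul_assoc, mul_inv_cancel₀ (hb0 w x), one_mul]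
      rw [Finset.sum_congr rfl fun y _ => h2 y]
      exact Equiv.sum_comp (Equiv.mulLeft w)
        (fun y => b w x • ((b y x)⁻¹ • ((e y : E) * A * ((e y)⁻¹ : Eˣ))))
    calc (e w : E) * twP e b x A
        = (e w : E) * twP e b x A * (((e w)⁻¹ : Eˣ) * (e w : E)) := by
          rw [Units.inv_mul, mul_one]
      _ = b w x • (twP e b x A * (e w : E)) := by
          rw [← mul_assoc, h1, smul_mul_assoc]
  · intro x A hA
    simp only [twP]
    rw [Finset.sum_congr rfl fun y _ => by
      rw [hconj x A hA y, smul_smul, inv_mul_cancel₀ (hb0 y x), one_smul]]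
    rw [Finset.sum_const, Finset.card_univ, ← Nat.card_eq_fintype_card,
      ← Nat.cast_smul_eq_nsmul K, smul_smul, inv_mul_cancel₀ h.hX, one_smul]
  · intro x x' hxx A hA
    simp only [twP]
    rw [Finset.sum_congr rfl fun y _ => by
      rw [hconj x' A hA y, smul_smul]]
    rw [← Finset.sum_smul, ho1, if_neg hxx, zero_smul, smul_zero]
  · intro A
    simp only [twP]
    rw [← Finset.smul_sum, Finset.sum_comm]
    rw [Finset.sum_congr rfl fun y _ => by
      rw [← Finset.sum_smul, ho2 y, ite_smul, zero_smul]]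
    rw [Finset.sum_ite_eq' Finset.univ (1 : X), if_pos (Finset.mem_univ _), smul_smul,
      inv_mul_cancel₀ h.hX, one_smul]
    obtain ⟨c, hc⟩ := h.he 1 1
    have h1 : (e 1 : E) = c • ((1 : Eˣ) : E) := by
      rw [mul_one] at hc
      calc (e 1 : E) = (e 1 : E) * (e 1 : E) * ((e 1)⁻¹ : Eˣ) := by
            rw [mul_assoc, Units.mul_inv, mul_one]
        _ = c • ((1 : Eˣ) : E) := by
            rw [hc, smul_mul_assoc, Units.mul_inv, Units.val_one]
    rw [TwAlg.lin_conj h1]
    simp

/-- naturality of the projections under an automorphism `φ` with `φ (e x) = c • e (σ x)`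
(`b (σ y) (σ x) = b y x`, reindex the sum over `y` by `σ`) -/
theorem TwAlg.natural (h : TwAlg (E := E) e b) (φ : E ≃ₐ[K] E) (σ : X → X)
    (hσ : Function.Bijective σ) (hφ : ∀ x, ∃ c : K, φ (e x : E) = c • (e (σ x) : E)) (x : X)
    (A : E) : φ (twP e b x A) = twP e b (σ x) (φ A) := by
  classical
  have hbb : ∀ y x, b (σ y) (σ x) = b y x := by
    intro y x
    obtain ⟨c, hc⟩ := hφ y
    obtain ⟨d, hd⟩ := hφ x
    have hu1 : IsUnit (φ (e y : E)) := (e y).isUnit.map φ
    have hu2 : IsUnit (φ (e x : E)) := (e x).isUnit.map φ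
    have hc0 : c ≠ 0 := by
      rintro rfl
      rw [zero_smul] at hc
      exact hu1.ne_zero hc
    have hd0 : d ≠ 0 := by
      rintro rfl
      rw [zero_smul] at hd
      exact hu2.ne_zero hd
    have h1 := congrArg φ (h.hb y x)
    rw [map_mul, map_smul, map_mul, hc, hd, smul_mul_smul_comm, smul_mul_smul_comm,
      h.hb (σ y) (σ x), smul_comm (b y x) (d * c), mul_comm d c] at h1
    have h2 := smul_right_injective E (mul_ne_zero hc0 hd0) h1
    have h3 : (b (σ y) (σ x) - b y x) • ((e (σ x) : E) * (e (σ y) : E)) = 0 := by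
      rw [sub_smul, sub_eq_zero]
      exact h2
    rcases smul_eq_zero.mp h3 with h4 | h4
    · exact sub_eq_zero.mp h4
    · exact absurd h4 (by rw [← Units.val_mul]; exact Units.ne_zero _)
  have hconj : ∀ y, φ ((e y : E) * A * ((e y)⁻¹ : Eˣ))
      = (e (σ y) : E) * φ A * ((e (σ y))⁻¹ : Eˣ) := by
    intro y
    obtain ⟨c, hc⟩ := hφ y
    have h1 : ((Units.map (φ : E →* E) (e y) : Eˣ) : E) = c • (e (σ y) : E) := by
      rw [Units.coe_map]
      exact hc
    rw [← TwAlg.lin_conj h1, map_mul, map_mul]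
    rfl
  simp only [twP]
  rw [map_smul, map_sum]
  congr 1
  rw [Finset.sum_congr rfl fun y _ => by
    rw [map_smul, hconj y, ← hbb y x]]
  exact (Equiv.ofBijective σ hσ).sum_comp
    (fun y => (b y (σ x))⁻¹ • ((e y : E) * φ A * ((e y)⁻¹ : Eˣ)))

end Pool.Agent.Lib.MP_544bd1_al
end
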