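import Mathlib
import Pool.Agent.Lib.MP_544bd1_al.TwD2
import Pool.Agent.Lib.MP_544bd1_al.TwK1
import Pool.Agent.Lib.MP_544bd1_al.EvM2
import Pool.Agent.Lib.MP_544bd1_al.TwA
import Pool.Agent.Lib.MP_544bd1_al.EvD

section

/-!
Two generators, part 2: dimensions of the weight spaces.
-/

namespace Pool.Agent.Lib.MP_544bd1_al

open Finset

variable {K E X : Type} [Field K] [Ring E] [Algebra K E] [Nontrivial E] [Group X]
  {e : X → Eˣ} {b : X → X → K}

variable [Fintype X]

/-- all weight spaces have the dimension of the weight space of `1`: multiplication by `e x` is a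
linear isomorphism `Wt 1 → Wt x` (`b y 1 = 1`) -/
theorem TwAlg.dim_wt (h : TwAlg (E := E) e b) [FiniteDimensional K E] (x : X) :
    Module.finrank K (Wt e b x) = Module.finrank K (Wt e b 1) := by
  classical
  obtain ⟨hb0, hbinv, hbl, hbr⟩ := h.bmul
  have hb1 : ∀ y, b y 1 = 1 := by
    intro y
    have h1 := hbr y 1 1
    rw [mul_one] at h1
    have h2 : b y 1 * 1 = b y 1 * b y 1 := by rw [mul_one]; exact h1
    exact (mul_left_cancel₀ (hb0 y 1) h2).symm
  have hinj : Function.Injective (LinearMap.mulLeft K (e x : E)) := by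
    intro A B hAB
    simp only [LinearMap.mulLeft_apply] at hAB
    exact (Units.mul_right_inj (e x)).mp hAB
  have hmap : (Wt e b 1).map (LinearMap.mulLeft K (e x : E)) = Wt e b x := by
    ext B
    rw [Submodule.mem_map]
    constructor
    · rintro ⟨A, hA, rfl⟩
      intro y
      have h1 : (e y : E) * A = b y 1 • (A * (e y : E)) := hA y
      rw [hb1, one_smul] at h1
      rw [LinearMap.mulLeft_apply, ← mul_assoc, h.hb y x, smul_mul_assoc, mul_assoc, h1,
        mul_assoc]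
    · intro hB
      refine ⟨((e x)⁻¹ : Eˣ) * B, ?_, ?_⟩
      · intro y
        have h1 : (e y : E) * B = b y x • (B * (e y : E)) := hB y
        have h2 : (e y : E) * (e x : E) = b y x • ((e x : E) * (e y : E)) := h.hb y x
        have h3 : (e y : E) * ((e x)⁻¹ : Eˣ) = (b y x)⁻¹ • (((e x)⁻¹ : Eˣ) * (e y : E)) := by
          have h4 : ((e x)⁻¹ : Eˣ) * ((e y : E) * (e x : E)) * ((e x)⁻¹ : Eˣ)
              = b y x • ((e y : E) * ((e x)⁻¹ : Eˣ)) := by
            rw [h2, mul_smul_comm, smul_mul_assoc, ← mul_assoc, Units.inv_mul, one_mul]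
          have h5 : ((e x)⁻¹ : Eˣ) * ((e y : E) * (e x : E)) * ((e x)⁻¹ : Eˣ)
              = ((e x)⁻¹ : Eˣ) * (e y : E) := by
            rw [mul_assoc, mul_assoc, Units.mul_inv, mul_one]
          rw [← h5, h4, smul_smul, inv_mul_cancel₀ (hb0 y x), one_smul]
        rw [hb1, one_smul, ← mul_assoc, h3, smul_mul_assoc, mul_assoc, h1, mul_smul_comm,
          smul_smul, inv_mul_cancel₀ (hb0 y x), one_smul, mul_assoc]
      · rw [LinearMap.mulLeft_apply, ← mul_assoc, Units.mul_inv, one_mul]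
  rw [← hmap]
  exact (LinearEquiv.finrank_eq (Submodule.equivMapOfInjective _ hinj _)).symm

/-- the dimension of `E` (`E` is isomorphic to the product of the weight spaces by
`A ↦ (twP x A)_x`) -/
theorem TwAlg.dim (h : TwAlg (E := E) e b) [FiniteDimensional K E] :
    Module.finrank K E = Nat.card X * Module.finrank K (Wt e b 1) := by
  classical
  obtain ⟨hp1, hp2, hp3, hp4⟩ := h.proj
  have hadd : ∀ x A B, twP e b x (A + B) = twP e b x A + twP e b x B :=
    fun x => (TwAlg.lin e b x).1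
  have hsmul : ∀ x (c : K) A, twP e b x (c • A) = c • twP e b x A :=
    fun x => (TwAlg.lin e b x).2
  let P : X → (E →ₗ[K] E) := fun x =>
    { toFun := twP e b x, map_add' := hadd x, map_smul' := fun c A => hsmul x c A }
  have hP : ∀ x A, P x A = twP e b x A := fun _ _ => rfl
  let L : E ≃ₗ[K] (∀ x, Wt e b x) :=
    { toFun := fun A x => ⟨P x A, hp1 x A⟩
      map_add' := by
        intro A B
        funext x
        apply Subtype.ext
        simp
      map_smul' := by
        intro c A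
        funext x
        apply Subtype.ext
        simp
      invFun := fun f => ∑ x, (f x : E)
      left_inv := by
        intro A
        exact hp4 A
      right_inv := by
        intro f
        funext x
        apply Subtype.ext
        change P x (∑ x', (f x' : E)) = (f x : E)
        rw [map_sum, Finset.sum_eq_single x]
        · exact hp2 x _ (f x).2
        · intro x' _ hne
          exact hp3 x x' (Ne.symm hne) _ (f x').2
        · intro hx
          exact absurd (Finset.mem_univ x) hx }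
  rw [LinearEquiv.finrank_eq L, Module.finrank_pi_fintype, Finset.sum_congr rfl fun x _ =>
    h.dim_wt x, Finset.sum_const, Finset.card_univ, Nat.card_eq_fintype_card, smul_eq_mul]

end Pool.Agent.Lib.MP_544bd1_al
end

section

/-!
Two generators, part 2: fixed points of an automorphism.
-/

namespace Pool.Agent.Lib.MP_544bd1_al

open Finset

variable {K E X : Type} [Field K] [Ring E] [Algebra K E] [Nontrivial E] [Group X]
  {e : X → Eˣ} {b : X → X → K}

variable [Fintype X]

/-- naturality, iterated -/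
theorem TwAlg.fix_formula_iter (h : TwAlg (E := E) e b) (φ : E ≃ₐ[K] E) (σ : X → X)
    (hσ : Function.Bijective σ) (hφ : ∀ x, ∃ c : K, φ (e x : E) = c • (e (σ x) : E))
    (A : E) (hA : φ A = A) (t : X) (i : ℕ) : twP e b (σ^[i] t) A = (φ^[i]) (twP e b t A) := by
  induction i with
  | zero => rfl
  | succ n ih =>
    rw [Function.iterate_succ_apply', Function.iterate_succ_apply', ← ih,
      h.natural φ σ hσ hφ (σ^[n] t) A, hA]

/-- the decomposition formula with `twP 1 A` -/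
theorem TwAlg.fix_formula_aux (h : TwAlg (E := E) e b) (φ : E ≃ₐ[K] E) (σ : X → X)
    (hσ : Function.Bijective σ) (hφ : ∀ x, ∃ c : K, φ (e x : E) = c • (e (σ x) : E)) {q : ℕ}
    (T : Finset X) (hT : TwOrb q σ T) (A : E) (hA : φ A = A) :
    A = twP e b 1 A + ∑ t ∈ T, ∑ i ∈ range q, (φ^[i]) (twP e b t A) := by
  have h1 := (h.proj).2.2.2 A
  rw [hT E (fun x => twP e b x A)] at h1
  conv_lhs => rw [← h1]
  congr 1
  refine Finset.sum_congr rfl fun t _ => Finset.sum_congr rfl fun i _ => ?_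
  exact h.fix_formula_iter φ σ hσ hφ A hA t i

/-- `twP 1 A` is a scalar for fixed `A` -/
theorem TwAlg.fix_formula_one (h : TwAlg (E := E) e b) (φ : E ≃ₐ[K] E) (σ : X → X)
    (hσ : Function.Bijective σ) (hφ : ∀ x, ∃ c : K, φ (e x : E) = c • (e (σ x) : E))
    (hσ1 : σ 1 = 1)
    (h1 : ∀ A, A ∈ Wt e b 1 → φ A = A → ∃ c : K, A = c • 1) (A : E)
    (hA : φ A = A) : ∃ c : K, twP e b 1 A = c • 1 := by
  refine h1 _ (h.proj.1 1 A) ?_
  rw [h.natural φ σ hσ hφ 1 A, hσ1, hA]

/-- the decomposition formula for fixed points of `φ`: `A = ∑ x, twP x A`, `TwOrb` and naturality: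
`twP (σ^[i] t) A = φ^[i] (twP t A)`, and `twP 1 A ∈ Wt 1` is fixed by `φ`, so scalar. -/
theorem TwAlg.fix_formula (h : TwAlg (E := E) e b) (φ : E ≃ₐ[K] E) (σ : X → X)
    (hσ : Function.Bijective σ) (hφ : ∀ x, ∃ c : K, φ (e x : E) = c • (e (σ x) : E)) {q : ℕ}
    (T : Finset X) (hT : TwOrb q σ T) (hσ1 : σ 1 = 1)
    (h1 : ∀ A, A ∈ Wt e b 1 → φ A = A → ∃ c : K, A = c • 1) (A : E)
    (hA : φ A = A) :
    ∃ c : K, A = c • 1 + ∑ t ∈ T, ∑ i ∈ range q, (φ^[i]) (twP e b t A) := by
  obtain ⟨c, hc⟩ := h.fix_formula_one φ σ hσ hφ hσ1 h1 A hA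
  refine ⟨c, ?_⟩
  have := h.fix_formula_aux φ σ hσ hφ T hT A hA
  rwa [hc] at this

/-- dimension of the fixed points of `φ`: the linear map
`A ↦ (twP 1 A, (twP t A)_{t ∈ T})` from `Fx` to `K • 1 × ∏_{t ∈ T} Wt t` is injective -/
theorem TwAlg.dim_fix (h : TwAlg (E := E) e b) [FiniteDimensional K E] (φ : E ≃ₐ[K] E) (σ : X → X)
    (hσ : Function.Bijective σ) (hφ : ∀ x, ∃ c : K, φ (e x : E) = c • (e (σ x) : E)) {q : ℕ}
    (T : Finset X) (hT : TwOrb q σ T) (hσ1 : σ 1 = 1)
    (h1 : ∀ A, A ∈ Wt e b 1 → φ A = A → ∃ c : K, A = c • 1) (Fx : Submodule K E)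
    (hFx : ∀ A ∈ Fx, φ A = A) :
    Module.finrank K Fx ≤ 1 + T.card * Module.finrank K (Wt e b 1) := by
  have hsc : ∀ A ∈ Fx, twP e b 1 A ∈ (Submodule.span K {(1 : E)}) := by
    intro A hA
    obtain ⟨c, hc⟩ := h.fix_formula_one φ σ hσ hφ hσ1 h1 A (hFx A hA)
    rw [hc]
    exact Submodule.smul_mem _ c (Submodule.mem_span_singleton_self 1)
  let L : Fx →ₗ[K] (Submodule.span K {(1 : E)}) × ((t : T) → Wt e b (t : X)) :=
    { toFun := fun A => (⟨twP e b 1 A, hsc A A.2⟩, fun t => ⟨twP e b t A, h.proj.1 t A⟩)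
      map_add' := by
        intro A B
        refine Prod.ext ?_ ?_
        · exact Subtype.ext ((TwAlg.lin e b 1).1 A B)
        · funext t
          exact Subtype.ext ((TwAlg.lin e b (t : X)).1 A B)
      map_smul' := by
        intro c A
        refine Prod.ext ?_ ?_
        · exact Subtype.ext ((TwAlg.lin e b 1).2 c A)
        · funext t
          exact Subtype.ext ((TwAlg.lin e b (t : X)).2 c A) }
  have hL : Function.Injective L := by
    rw [← LinearMap.ker_eq_bot, LinearMap.ker_eq_bot']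
    intro A hA
    have e1 : twP e b 1 (A : E) = 0 := by
      have := congrArg (fun z => ((z.1 : Submodule.span K {(1 : E)}) : E)) hA
      exact this
    have e2 : ∀ t ∈ T, twP e b t (A : E) = 0 := by
      intro t ht
      have := congrArg (fun z => ((z.2 ⟨t, ht⟩ : Wt e b t) : E)) hA
      exact this
    have hf := h.fix_formula_aux φ σ hσ hφ T hT A (hFx A A.2)
    have e3 : ∑ t ∈ T, ∑ i ∈ range q, (φ^[i]) (twP e b t (A : E)) = 0 := by
      refine Finset.sum_eq_zero fun t ht => Finset.sum_eq_zero fun i _ => ?_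
      rw [e2 t ht]
      exact Function.iterate_fixed (map_zero φ) i
    rw [e1, e3, add_zero] at hf
    exact Subtype.ext hf
  have hd := LinearMap.finrank_le_finrank_of_injective hL
  rw [Module.finrank_prod, Module.finrank_pi_fintype] at hd
  have d1 : Module.finrank K (Submodule.span K {(1 : E)}) ≤ 1 := by
    have := finrank_span_le_card (R := K) ({(1 : E)} : Set E)
    simpa using this
  have d2 : ∑ t : T, Module.finrank K (Wt e b (t : X)) = T.card * Module.finrank K (Wt e b 1) := by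
    have d3 : ∀ t ∈ (Finset.univ : Finset T), Module.finrank K (Wt e b (t : X)) =
        Module.finrank K (Wt e b 1) := fun t _ => h.dim_wt (t : X)
    rw [Finset.sum_congr rfl d3, Finset.sum_const, smul_eq_mul,
      Finset.card_univ, Fintype.card_coe]
  rw [d2] at hd
  exact hd.trans (Nat.add_le_add_right d1 _)

end Pool.Agent.Lib.MP_544bd1_al
end

section

/-!
Two generators, part 2: nilpotent operators (collection).
-/

namespace Pool.Agent.Lib.MP_544bd1_al

open Finset



end Pool.Agent.Lib.MP_544bd1_al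
end

section

/-!
Two generators, part 2: from the group `Γ` to the algebra data (step L5).
-/

namespace Pool.Agent.Lib.MP_544bd1_al

open Finset Subgroup

/-- conjugation with `u` on a subgroup normalized by `u` -/
def tw_L5a_cu {U : Type} [Group U] (Γ : Subgroup U) (u : U) (huΓ : ∀ x ∈ Γ, u * x * u⁻¹ ∈ Γ) :
    Γ →* Γ where
  toFun g := ⟨u * g * u⁻¹, huΓ g.1 g.2⟩
  map_one' := by
    apply Subtype.ext
    simp
  map_mul' g h := by
    apply Subtype.ext
    simp [mul_assoc]

theorem tw_L5a_cu_coe {U : Type} [Group U] (Γ : Subgroup U) (u : U)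
    (huΓ : ∀ x ∈ Γ, u * x * u⁻¹ ∈ Γ) (g : Γ) :
    ((tw_L5a_cu Γ u huΓ g : Γ) : U) = u * g * u⁻¹ := rfl

theorem tw_L5a_cu_iter {U : Type} [Group U] (Γ : Subgroup U) (u : U)
    (huΓ : ∀ x ∈ Γ, u * x * u⁻¹ ∈ Γ) (k : ℕ) (g : Γ) :
    (((tw_L5a_cu Γ u huΓ)^[k] g : Γ) : U) = u ^ k * g * (u ^ k)⁻¹ := by
  induction k with
  | zero => simp
  | succ k ih =>
    rw [Function.iterate_succ_apply', tw_L5a_cu_coe, ih, pow_succ']
    simp only [mul_assoc, mul_inv_rev]

theorem tw_L5a_cu_surj {U : Type} [Group U] (Γ : Subgroup U) [Finite Γ] (u : U)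
    (huΓ : ∀ x ∈ Γ, u * x * u⁻¹ ∈ Γ) : Function.Surjective (tw_L5a_cu Γ u huΓ) := by
  refine Finite.surjective_of_injective ?_
  intro g h hgh
  have h1 := congrArg (fun x : Γ => (x : U)) hgh
  simp only [tw_L5a_cu_coe] at h1
  apply Subtype.ext
  exact mul_left_cancel (mul_right_cancel h1)

theorem tw_L5a_center {U : Type} [Group U] (Γ : Subgroup U) (g : Γ) :
    g ∈ center Γ ↔ ∀ y ∈ Γ, (g : U) * y = y * g := by
  rw [mem_center_iff]
  constructor
  · intro h y hy
    have := congrArg (fun x : Γ => (x : U)) (h ⟨y, hy⟩)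
    exact this.symm
  · intro h y
    apply Subtype.ext
    exact (h y.1 y.2).symm

theorem tw_L5a_le {U : Type} [Group U] (Γ : Subgroup U) [Finite Γ] (u : U)
    (huΓ : ∀ x ∈ Γ, u * x * u⁻¹ ∈ Γ) : center Γ ≤ (center Γ).comap (tw_L5a_cu Γ u huΓ) := by
  intro g hg
  rw [mem_comap, mem_center_iff]
  intro y
  obtain ⟨y', rfl⟩ := tw_L5a_cu_surj Γ u huΓ y
  rw [← map_mul, ← map_mul, mem_center_iff.1 hg y']

/-- the data `X = Γ ⧸ center Γ`, representatives `e`, the pairing `b`, the action `σ` of `u`.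

Proof. Let `X = Γ ⧸ Subgroup.center Γ`, `e x` a representative (`Quotient.out`) of `x`, seen as a
unit. Every `g ∈ Γ` is `e (mk g)` times a central element, which is a scalar by `hZ`. `e y * e x *
(e y)⁻¹ * (e x)⁻¹` is central in `Γ` by `h1`, hence a scalar `b y x` by `hZ`. `comm`: `X` is abelian
by `h1`. `he`: `e x * e y * (e (x * y))⁻¹` is central, a scalar. `nd`: if `b y x = 1` for all `y`,
then `e x` commutes with all `e y` and with the scalars, so with `Γ`: `e x` is central, `x = 1`.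
`hX`: `Nat.card X` is a power of `r`, `r ≠ p` and `K` has characteristic `p`.
`σ` is induced by conjugation with `u`, which is an automorphism of `Γ` (finite, `huΓ`) and
preserves the center; `σ^[k]` is induced by conjugation with `u ^ k`. If `σ^[p ^ (a-1)] x = x` then
`(e x)⁻¹ * (z * e x * z⁻¹)` is central, so by `h2` `e x` is central and `x = 1`. -/
theorem tw_L5a {K V : Type} [Field K] [AddCommGroup V] [Module K V]
    [FiniteDimensional K V] [Nontrivial V] {p r a : ℕ} [Fact p.Prime] [CharP K p] (hr : r.Prime)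
    (hrp : r ≠ p) (ha : 0 < a) (Γ : Subgroup (Module.End K V)ˣ) [Finite Γ] (hΓ : IsPGroup r Γ)
    (u z : (Module.End K V)ˣ) (hu : u ^ (p ^ a) = 1) (hz : z = u ^ (p ^ (a - 1)))
    (huΓ : ∀ x ∈ Γ, u * x * u⁻¹ ∈ Γ)
    (hZ : ∀ x ∈ Γ, (∀ y ∈ Γ, x * y = y * x) → ∃ c : K, (x : Module.End K V) = c • 1)
    (h1 : ∀ x ∈ Γ, ∀ y ∈ Γ, ∀ w ∈ Γ, (x * y * x⁻¹ * y⁻¹) * w = w * (x * y * x⁻¹ * y⁻¹))
    (h2 : ∀ x ∈ Γ, (∀ w ∈ Γ, (x⁻¹ * (z * x * z⁻¹)) * w = w * (x⁻¹ * (z * x * z⁻¹))) →
      ∀ w ∈ Γ, x * w = w * x)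
    (hno : ∃ x ∈ Γ, ∃ y ∈ Γ, x * y ≠ y * x) :
    ∃ (X : Type) (_ : Group X) (_ : Fintype X) (e : X → (Module.End K V)ˣ) (b : X → X → K)
      (σ : X → X), TwAlg e b ∧ (∀ x, e x ∈ Γ) ∧
      (∀ g ∈ Γ, ∃ x, ∃ c : K, (g : Module.End K V) = c • (e x : Module.End K V)) ∧
      σ 1 = 1 ∧ Function.Bijective σ ∧
      (∀ x, ∃ c : K, ((u * e x * u⁻¹ : (Module.End K V)ˣ) : Module.End K V) =
        c • (e (σ x) : Module.End K V)) ∧
      (∀ x, σ^[p ^ a] x = x) ∧ (∀ x, σ^[p ^ (a - 1)] x = x → x = 1) ∧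
      (∃ m, Nat.card X = r ^ m) ∧ 1 < Nat.card X := by
  have hp : p.Prime := Fact.out
  -- scalars
  have F3 : ∀ g h : Γ, (QuotientGroup.mk g : Γ ⧸ center Γ) = QuotientGroup.mk h →
      ∃ c : K, ((h : (Module.End K V)ˣ) : Module.End K V) =
        c • ((g : (Module.End K V)ˣ) : Module.End K V) := by
    intro g h hgh
    have h3 : g⁻¹ * h ∈ center Γ := QuotientGroup.eq.1 hgh
    obtain ⟨c, hc⟩ := hZ _ (g⁻¹ * h).2 ((tw_L5a_center Γ _).1 h3)
    refine ⟨c, ?_⟩
    have h4 : ((h : (Module.End K V)ˣ) : Module.End K V) =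
        ((g : (Module.End K V)ˣ) : Module.End K V) *
          (((g⁻¹ * h : Γ) : (Module.End K V)ˣ) : Module.End K V) := by
      rw [← Units.val_mul, ← Subgroup.coe_mul, mul_inv_cancel_left]
    rw [h4, hc, mul_smul_comm, mul_one]
  set e : (Γ ⧸ center Γ) → (Module.End K V)ˣ := fun x => ((Quotient.out x : Γ) :
    (Module.End K V)ˣ) with hedef
  have hout : ∀ x : Γ ⧸ center Γ, (QuotientGroup.mk (Quotient.out x) : Γ ⧸ center Γ) = x :=
    fun x => QuotientGroup.out_eq' x
  have heΓ : ∀ x, e x ∈ Γ := fun x => (Quotient.out x : Γ).2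
  have hcov : ∀ g ∈ Γ, ∃ x, ∃ c : K, (g : Module.End K V) = c • (e x : Module.End K V) := by
    intro g hg
    refine ⟨QuotientGroup.mk ⟨g, hg⟩, ?_⟩
    exact F3 _ ⟨g, hg⟩ (hout _)
  have hbex : ∀ y x : Γ ⧸ center Γ, ∃ c : K, (e y : Module.End K V) * (e x : Module.End K V) =
      c • ((e x : Module.End K V) * (e y : Module.End K V)) := by
    intro y x
    obtain ⟨c, hc⟩ := hZ (e y * e x * (e y)⁻¹ * (e x)⁻¹)
      (Γ.mul_mem (Γ.mul_mem (Γ.mul_mem (heΓ y) (heΓ x)) (Γ.inv_mem (heΓ y))) (Γ.inv_mem (heΓ x)))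
      (h1 _ (heΓ y) _ (heΓ x))
    refine ⟨c, ?_⟩
    have h4 : e y * e x = (e y * e x * (e y)⁻¹ * (e x)⁻¹) * (e x * e y) := by group
    rw [← Units.val_mul, h4, Units.val_mul, hc, smul_mul_assoc, one_mul, Units.val_mul]
  choose b hb using hbex
  -- the action of `u`
  set cu := tw_L5a_cu Γ u huΓ with hcu
  set σ : (Γ ⧸ center Γ) →* (Γ ⧸ center Γ) :=
    QuotientGroup.map (center Γ) (center Γ) cu (tw_L5a_le Γ u huΓ) with hσdef
  have hσmk : ∀ g : Γ, σ (QuotientGroup.mk g) = QuotientGroup.mk (cu g) := fun g => rfl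
  have hσit : ∀ k (g : Γ), σ^[k] (QuotientGroup.mk g : Γ ⧸ center Γ) =
      QuotientGroup.mk (cu^[k] g) := by
    intro k
    induction k with
    | zero => intro g; rfl
    | succ k ih =>
      intro g
      rw [Function.iterate_succ_apply', Function.iterate_succ_apply', ih, hσmk]
  have hσq : ∀ x, σ^[p ^ a] x = x := by
    intro x
    obtain ⟨g, rfl⟩ := QuotientGroup.mk_surjective x
    rw [hσit]
    congr 1
    apply Subtype.ext
    rw [hcu, tw_L5a_cu_iter, hu]
    simp
  have hq0 : 0 < p ^ a := pow_pos hp.pos a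
  have hinj : Function.Injective σ := by
    intro x y hxy
    obtain ⟨k, hk⟩ : ∃ k, p ^ a = k + 1 := ⟨p ^ a - 1, by omega⟩
    have h3 := hσq x
    have h4 := hσq y
    rw [hk, Function.iterate_succ_apply] at h3 h4
    rw [← h3, ← h4, hxy]
  have hfin : Finite (Γ ⧸ center Γ) := inferInstance
  have hPX : IsPGroup r (Γ ⧸ center Γ) := hΓ.to_quotient (center Γ)
  have hrF : Fact r.Prime := ⟨hr⟩
  obtain ⟨m, hm⟩ := IsPGroup.iff_card.1 hPX
  have hrK : (r : K) ≠ 0 := by
    intro h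
    rw [CharP.cast_eq_zero_iff K p r] at h
    exact hrp ((Nat.prime_dvd_prime_iff_eq hp hr).1 h).symm
  refine ⟨Γ ⧸ center Γ, inferInstance, Fintype.ofFinite _, e, b, σ, ⟨?_, hb, ?_, ?_, ?_⟩, heΓ, hcov,
    map_one σ, ⟨hinj, Finite.surjective_of_injective hinj⟩, ?_, hσq, ?_, ⟨m, hm⟩, ?_⟩
  · -- comm
    intro x y
    obtain ⟨g, rfl⟩ := QuotientGroup.mk_surjective x
    obtain ⟨h, rfl⟩ := QuotientGroup.mk_surjective y
    rw [← QuotientGroup.mk_mul, ← QuotientGroup.mk_mul]
    apply QuotientGroup.eq.2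
    rw [tw_L5a_center]
    have h3 := h1 _ (h⁻¹).2 _ (g⁻¹).2
    intro w hw
    have h4 := h3 w hw
    have h5 : (((g * h)⁻¹ * (h * g) : Γ) : (Module.End K V)ˣ) =
        ((h⁻¹ : Γ) : (Module.End K V)ˣ) * ((g⁻¹ : Γ) : (Module.End K V)ˣ) *
        ((h⁻¹ : Γ) : (Module.End K V)ˣ)⁻¹ * ((g⁻¹ : Γ) : (Module.End K V)ˣ)⁻¹ := by
      simp [mul_assoc]
    rw [h5]
    exact h4
  · -- he
    intro x y
    obtain ⟨c, hc⟩ := F3 (Quotient.out (x * y)) (Quotient.out x * Quotient.out y) (by
      rw [hout, QuotientGroup.mk_mul, hout, hout])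
    refine ⟨c, ?_⟩
    rw [← hc, Subgroup.coe_mul, Units.val_mul]
  · -- nd
    intro x hx
    have h3 : (Quotient.out x : Γ) ∈ center Γ := by
      rw [tw_L5a_center]
      intro g hg
      obtain ⟨y, c, hc⟩ := hcov g hg
      apply Units.ext
      rw [Units.val_mul, Units.val_mul, hc]
      have h4 := hb y x
      rw [hx y, one_smul] at h4
      rw [smul_mul_assoc, mul_smul_comm]
      exact congrArg (fun A => c • A) h4.symm
    rw [← hout x]
    exact (QuotientGroup.eq_one_iff _).2 h3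
  · -- hX
    rw [hm]
    push_cast
    exact pow_ne_zero m hrK
  · -- conjugation
    intro x
    have h3 : (QuotientGroup.mk (Quotient.out (σ x)) : Γ ⧸ center Γ) =
        QuotientGroup.mk (cu (Quotient.out x)) := by
      rw [hout, ← hσmk, hout]
    obtain ⟨c, hc⟩ := F3 _ _ h3
    exact ⟨c, hc⟩
  · -- semiregular
    intro x hx
    have h3 : (QuotientGroup.mk (Quotient.out x) : Γ ⧸ center Γ) =
        QuotientGroup.mk (cu^[p ^ (a - 1)] (Quotient.out x)) := by
      rw [← hσit, hout, hx]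
    have h4 : (Quotient.out x : Γ)⁻¹ * cu^[p ^ (a - 1)] (Quotient.out x) ∈ center Γ :=
      QuotientGroup.eq.1 h3
    rw [tw_L5a_center] at h4
    have h5 : (((Quotient.out x : Γ)⁻¹ * cu^[p ^ (a - 1)] (Quotient.out x) : Γ) :
        (Module.End K V)ˣ) = (e x)⁻¹ * (z * e x * z⁻¹) := by
      rw [Subgroup.coe_mul, hcu, tw_L5a_cu_iter, ← hz]
      rfl
    rw [h5] at h4
    have h6 : (Quotient.out x : Γ) ∈ center Γ := by
      rw [tw_L5a_center]
      exact h2 _ (heΓ x) h4
    rw [← hout x]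
    exact (QuotientGroup.eq_one_iff _).2 h6
  · -- card
    rw [Finite.one_lt_card_iff_nontrivial]
    by_contra hcon
    rw [not_nontrivial_iff_subsingleton] at hcon
    obtain ⟨x, hx, y, hy, hxy⟩ := hno
    apply hxy
    have h3 : (⟨x, hx⟩ : Γ) ∈ center Γ :=
      (QuotientGroup.eq_one_iff _).1 (Subsingleton.elim (QuotientGroup.mk ⟨x, hx⟩ : Γ ⧸ center Γ) 1)
    exact (tw_L5a_center Γ _).1 h3 y hy

end Pool.Agent.Lib.MP_544bd1_al
end

section

/-!
Two generators, part 2: the contradiction (steps L5-L8).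
-/

namespace Pool.Agent.Lib.MP_544bd1_al

open Finset Subgroup

/-- conjugation with a unit, as an algebra automorphism -/
def tw_L5_conj (K : Type) {E : Type} [Field K] [Ring E] [Algebra K E] (u : Eˣ) : E ≃ₐ[K] E where
  toFun A := (u : E) * A * ((u⁻¹ : Eˣ) : E)
  invFun A := ((u⁻¹ : Eˣ) : E) * A * (u : E)
  left_inv A := by simp [mul_assoc]
  right_inv A := by simp [mul_assoc]
  map_mul' A B := by simp [mul_assoc]
  map_add' A B := by simp [mul_add, add_mul]
  commutes' c := by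
    rw [← Algebra.commutes, mul_assoc, Units.mul_inv, mul_one]

theorem tw_L5_conj_apply (K : Type) {E : Type} [Field K] [Ring E] [Algebra K E] (u : Eˣ) (A : E) :
    tw_L5_conj K u A = (u : E) * A * ((u⁻¹ : Eˣ) : E) := rfl

theorem tw_L5_conj_iter (K : Type) {E : Type} [Field K] [Ring E] [Algebra K E] (u : Eˣ) (A : E)
    (i : ℕ) : (tw_L5_conj K u)^[i] A = (u : E) ^ i * A * ((u⁻¹ : Eˣ) : E) ^ i := by
  induction i with
  | zero => simp
  | succ i ih =>
    rw [Function.iterate_succ_apply', ih, tw_L5_conj_apply, pow_succ', pow_succ]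
    simp only [mul_assoc]

/-- the fixed points of conjugation with `u` -/
def tw_L5_fix (K : Type) {E : Type} [Field K] [Ring E] [Algebra K E] (u : Eˣ) :
    Submodule K E where
  carrier := {A | tw_L5_conj K u A = A}
  add_mem' := by
    intro A B hA hB
    simp only [Set.mem_ofPred_eq] at *
    rw [map_add, hA, hB]
  zero_mem' := by simp
  smul_mem' := by
    intro c A hA
    simp only [Set.mem_ofPred_eq] at *
    rw [map_smul, hA]

theorem tw_L5_conj_eq (K : Type) {E : Type} [Field K] [Ring E] [Algebra K E] (u : Eˣ) (A : E) :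
    tw_L5_conj K u A = A ↔ (u : E) * A = A * (u : E) := by
  rw [tw_L5_conj_apply]
  constructor
  · intro h
    have h1 := congrArg (fun B => B * (u : E)) h
    simpa [mul_assoc] using h1
  · intro h
    rw [h, mul_assoc, Units.mul_inv, mul_one]

/-- Schur: an endomorphism commuting with `Γ` and `u` is scalar -/
theorem tw_L5_schur {K V : Type} [Field K] [IsAlgClosed K] [AddCommGroup V] [Module K V]
    [FiniteDimensional K V] [Nontrivial V] (Γ : Subgroup (Module.End K V)ˣ)
    (u : (Module.End K V)ˣ)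
    (hirr : ∀ W : Submodule K V, (∀ x ∈ Γ, ∀ w ∈ W, (x : Module.End K V) w ∈ W) →
      (∀ w ∈ W, (u : Module.End K V) w ∈ W) → W = ⊥ ∨ W = ⊤)
    (A : Module.End K V) (hΓ : ∀ x ∈ Γ, (x : Module.End K V) * A = A * (x : Module.End K V))
    (hu : (u : Module.End K V) * A = A * (u : Module.End K V)) :
    ∃ c : K, A = c • (1 : Module.End K V) := by
  obtain ⟨c, hc⟩ := Module.End.exists_eigenvalue A
  refine ⟨c, ?_⟩
  have hinv : ∀ x : Module.End K V, x * A = A * x → ∀ w ∈ Module.End.eigenspace A c,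
      x w ∈ Module.End.eigenspace A c := by
    intro x hx w hw
    rw [Module.End.mem_eigenspace_iff] at hw ⊢
    have h1 : A (x w) = x (A w) := by
      have := LinearMap.congr_fun hx w
      simpa using this.symm
    rw [h1, hw, map_smul]
  rcases hirr (Module.End.eigenspace A c) (fun x hx => hinv _ (hΓ x hx)) (hinv _ hu) with h | h
  · exact absurd h hc
  · ext v
    have hv : v ∈ Module.End.eigenspace A c := by rw [h]; trivial
    rw [Module.End.mem_eigenspace_iff] at hv
    rw [hv]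
    simp

/-- **steps (L5)-(L8).**
Proof. `tw_L5a` gives `X`, `e`, `b`, `σ`; `tw_orb` gives `T`. `E = Module.End K V`, `φ A = u * A * u⁻¹`
(an algebra automorphism). `h1` of `TwAlg.fix_formula`/`dim_fix`: if `A ∈ Wt e b 1` (so `A` commutes
with all `e y`, as `b y 1 = 1`, hence with `Γ`) and `φ A = A`, then `A` has an eigenvalue `c` and
`ker (A - c)` is a nonzero subspace invariant under `Γ` and `u`, so it is `⊤` (`hirr`).
`N = u - 1` is nilpotent (`tw_norm_pow`). If `B * N = N * B` then `φ B = B` and by `fix_formula`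
`B = c • 1 + ∑ t ∈ T, ∑ i ∈ range q, u ^ i * B_t * u ^ (-i)`; if `N v = 0`, i.e. `u v = v`, then
`∑ i ∈ range q, (u ^ i * B_t * u ^ (-i)) v = (∑ i ∈ range q, u ^ i) (B_t v) = 0` by `hN`. So
`B v = c • v` and `tw_K1` gives `finrank (ker N) ≤ 1`. By `tw_K2`, with `D = finrank V`:
`N ^ (D - 1) ≠ 0`, while `N ^ (q - 1) = ∑ u ^ i = 0`: so `D - 1 < q - 1`, `D + 1 ≤ q`. With
`Fx = {B | φ B = B}` (a submodule) `D ≤ finrank Fx ≤ 1 + t * c`, `t = T.card`,
`c = finrank (Wt e b 1) ≥ 1` (it contains `1 ≠ 0`). `D * D = finrank E = Nat.card X * c`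
(`TwAlg.dim`), `Nat.card X = 1 + q * t` (`hT ℕ` with `f = 1`), `t ≥ 1` as `1 < Nat.card X`.
`tw_K3` gives `r ^ s + 1 = q`, contradiction to `hnum`. -/
theorem tw_L5 {K V : Type} [Field K] [IsAlgClosed K] [AddCommGroup V] [Module K V]
    [FiniteDimensional K V] [Nontrivial V] {p r a : ℕ} [Fact p.Prime] [CharP K p] (hr : r.Prime)
    (hrp : r ≠ p) (ha : 0 < a) (hnum : ∀ s, 0 < s → r ^ s + 1 ≠ p ^ a)
    (Γ : Subgroup (Module.End K V)ˣ) [Finite Γ] (hΓ : IsPGroup r Γ)
    (u z : (Module.End K V)ˣ) (hu : u ^ (p ^ a) = 1) (hz : z = u ^ (p ^ (a - 1)))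
    (huΓ : ∀ x ∈ Γ, u * x * u⁻¹ ∈ Γ)
    (hirr : ∀ W : Submodule K V, (∀ x ∈ Γ, ∀ w ∈ W, (x : Module.End K V) w ∈ W) →
      (∀ w ∈ W, (u : Module.End K V) w ∈ W) → W = ⊥ ∨ W = ⊤)
    (hZ : ∀ x ∈ Γ, (∀ y ∈ Γ, x * y = y * x) → ∃ c : K, (x : Module.End K V) = c • 1)
    (h1 : ∀ x ∈ Γ, ∀ y ∈ Γ, ∀ w ∈ Γ, (x * y * x⁻¹ * y⁻¹) * w = w * (x * y * x⁻¹ * y⁻¹))
    (h2 : ∀ x ∈ Γ, (∀ w ∈ Γ, (x⁻¹ * (z * x * z⁻¹)) * w = w * (x⁻¹ * (z * x * z⁻¹))) →
      ∀ w ∈ Γ, x * w = w * x)
    (hno : ∃ x ∈ Γ, ∃ y ∈ Γ, x * y ≠ y * x)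
    (hN : ∑ i ∈ range (p ^ a), (u : Module.End K V) ^ i = 0) : False := by
  have hp : p.Prime := Fact.out
  obtain ⟨X, hGrp, hFin, e, b, σ, hA, -, hcov, hσ1, hσb, hσu, hσq, hσz, ⟨m, hm⟩, hX1⟩ :=
    tw_L5a hr hrp ha Γ hΓ u z hu hz huΓ hZ h1 h2 hno
  obtain ⟨T, hT⟩ := tw_orb hp ha σ hσ1 hσq hσz
  set φ := tw_L5_conj K u with hφdef
  have hφ : ∀ x, ∃ c : K, φ (e x : Module.End K V) = c • (e (σ x) : Module.End K V) := by
    intro x
    obtain ⟨c, hc⟩ := hσu x
    refine ⟨c, ?_⟩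
    rw [← hc, hφdef, tw_L5_conj_apply, Units.val_mul, Units.val_mul]
  have hb1 : ∀ y, b y 1 = 1 := by
    intro y
    obtain ⟨hb0, -, -, hbm⟩ := hA.bmul
    have h3 := hbm y 1 1
    rw [mul_one] at h3
    have h4 : b y 1 * 1 = b y 1 * b y 1 := by rw [mul_one]; exact h3
    exact (mul_left_cancel₀ (hb0 y 1) h4).symm
  have hfix1 : ∀ A, A ∈ Wt e b 1 → φ A = A → ∃ c : K, A = c • 1 := by
    intro A hAW hAφ
    refine tw_L5_schur Γ u hirr A ?_ ((tw_L5_conj_eq K u A).1 hAφ)
    intro g hg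
    obtain ⟨x, c, hc⟩ := hcov g hg
    have h3 : (e x : Module.End K V) * A = b x 1 • (A * (e x : Module.End K V)) := hAW x
    rw [hb1, one_smul] at h3
    rw [hc, smul_mul_assoc, h3, mul_smul_comm]
  set N : Module.End K V := (u : Module.End K V) - 1 with hNdef
  obtain ⟨hp1, -⟩ := tw_norm_pow (a := a) (u : Module.End K V) (p := p)
  have hNq : N ^ (p ^ a - 1) = 0 := by rw [hNdef, hp1, hN]
  have hcommφ : ∀ B : Module.End K V, B * N = N * B → φ B = B := by
    intro B hB
    refine (tw_L5_conj_eq K u B).2 ?_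
    rw [hNdef, mul_sub, sub_mul, mul_one, one_mul] at hB
    exact (sub_left_injective hB).symm
  have hker : Module.finrank K (LinearMap.ker N) ≤ 1 := by
    refine tw_K1 N (p ^ a - 1) hNq ?_
    intro B hB
    obtain ⟨c, hc⟩ := hA.fix_formula φ σ hσb hφ T hT hσ1 hfix1 B (hcommφ B hB)
    refine ⟨c, ?_⟩
    intro v hv
    have huv : (u : Module.End K V) v = v := by
      rw [hNdef, LinearMap.sub_apply, Module.End.one_apply, sub_eq_zero] at hv
      exact hv
    have huv' : ((u⁻¹ : (Module.End K V)ˣ) : Module.End K V) v = v := by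
      have h3 : ((u⁻¹ : (Module.End K V)ˣ) : Module.End K V) ((u : Module.End K V) v) = v := by
        rw [← Module.End.mul_apply, Units.inv_mul, Module.End.one_apply]
      rwa [huv] at h3
    have hpow : ∀ i : ℕ, (((u⁻¹ : (Module.End K V)ˣ) : Module.End K V) ^ i) v = v := by
      intro i
      induction i with
      | zero => simp
      | succ i ih => rw [pow_succ, Module.End.mul_apply, huv', ih]
    have hsum : ∀ C : Module.End K V,
        (∑ i ∈ range (p ^ a), (φ^[i]) C) v = 0 := by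
      intro C
      rw [LinearMap.sum_apply]
      have h3 : ∀ i ∈ range (p ^ a), ((φ^[i]) C) v = ((u : Module.End K V) ^ i) (C v) := by
        intro i _
        rw [hφdef, tw_L5_conj_iter, Module.End.mul_apply, Module.End.mul_apply, hpow]
      rw [sum_congr rfl h3, ← LinearMap.sum_apply, hN, LinearMap.zero_apply]
    have h4 := LinearMap.congr_fun hc v
    rw [h4, LinearMap.add_apply, LinearMap.sum_apply, sum_eq_zero (fun t _ => hsum _), add_zero]
    simp
  obtain ⟨hND, hFD⟩ := tw_K2 N (p ^ a - 1) hNq hker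
  set D := Module.finrank K V with hD
  have hDpos : 0 < D := Module.finrank_pos
  have hDq : D + 1 ≤ p ^ a := by
    by_contra hcon
    push Not at hcon
    apply hND
    have h3 : D - 1 = (p ^ a - 1) + (D - 1 - (p ^ a - 1)) := by omega
    rw [h3, pow_add, hNq, zero_mul]
  have hDF : D ≤ 1 + T.card * Module.finrank K (Wt e b 1) := by
    have h3 := hFD (tw_L5_fix K u) (fun B hB => hcommφ B hB)
    exact h3.trans (hA.dim_fix φ σ hσb hφ T hT hσ1 hfix1 (tw_L5_fix K u) (fun A hA => hA))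
  have hc1 : 1 ≤ Module.finrank K (Wt e b 1) := by
    have h1mem : (1 : Module.End K V) ∈ Wt e b 1 := by
      intro y
      rw [hb1, one_smul, mul_one, one_mul]
    have hnt : Nontrivial (Wt e b 1) := by
      refine ⟨⟨⟨1, h1mem⟩, 0, ?_⟩⟩
      intro h
      have h3 := congrArg Subtype.val h
      exact one_ne_zero (α := Module.End K V) (by simp at h3)
    exact Module.finrank_pos
  have hcard : Nat.card X = 1 + p ^ a * T.card := by
    have h3 := hT ℕ (fun _ => 1)
    simp only [sum_const, card_univ, card_range, smul_eq_mul, mul_one] at h3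
    rw [Nat.card_eq_fintype_card, h3, mul_comm]
  have hT1 : 1 ≤ T.card := by
    by_contra hcon
    have h3 : T.card = 0 := by omega
    rw [hcard, h3] at hX1
    omega
  have hDD : D * D = (1 + p ^ a * T.card) * Module.finrank K (Wt e b 1) := by
    rw [← hcard, ← hA.dim, hD]
    exact (Module.finrank_linearMap K K V V).symm
  obtain ⟨s, hs0, hs⟩ := tw_K3 hr (pow_pos hp.pos a) hDD hDF hDq hc1 hT1 (by rw [← hcard]; exact hm)
  exact hnum s hs0 hs

end Pool.Agent.Lib.MP_544bd1_al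
end
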