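import Mathlib
import Pool.Agent.Lib.MP_544bd1_al.TwA

section

/-!
Two generators, part 2, refinement: eigenvectors.
-/

namespace Pool.Agent.Lib.MP_544bd1_al

open Subgroup

/-- roots of a split polynomial annihilating a nonzero vector give eigenvectors -/
theorem tw_eigen_aux {F M : Type} [Field F] [AddCommGroup M] [Module F M] (T : M →ₗ[F] M)
    (S : Finset F) : ∀ u : M, u ≠ 0 →
      (Polynomial.aeval T (∏ c ∈ S, (Polynomial.X - Polynomial.C c))) u = 0 →
      ∃ c ∈ S, ∃ w : M, w ≠ 0 ∧ T w = c • w := by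
  classical
  induction S using Finset.induction_on with
  | empty =>
    intro u hu h
    simp at h
    exact absurd h hu
  | insert c S hc ih =>
    intro u hu h
    rw [Finset.prod_insert hc, map_mul, Module.End.mul_apply] at h
    by_cases h0 : (Polynomial.aeval T (∏ c ∈ S, (Polynomial.X - Polynomial.C c))) u = 0
    · obtain ⟨c', hc', w, hw, hTw⟩ := ih u hu h0
      exact ⟨c', Finset.mem_insert_of_mem hc', w, hw, hTw⟩
    · refine ⟨c, Finset.mem_insert_self _ _, _, h0, ?_⟩
      rw [map_sub, Polynomial.aeval_X, Polynomial.aeval_C, LinearMap.sub_apply,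
        Module.algebraMap_end_apply] at h
      exact sub_eq_zero.1 h

/-- additive version of the next theorem -/
theorem tw_eigen_add {M : Type} [AddCommGroup M] {s p : ℕ} (hs : s.Prime) (hp : p.Prime)
    (hps : p ∣ s - 1) (hA : ∀ a : M, s • a = 0) (φ : M →+ M) (hφ : ∀ a, (φ^[p]) a = a) {v : M}
    (hv : φ v ≠ v) : ∃ (a : M) (k : ℕ), φ a = k • a ∧ φ a ≠ a := by
  have : Fact s.Prime := ⟨hs⟩
  have : Fact p.Prime := ⟨hp⟩
  let _ : Module (ZMod s) M := AddCommGroup.zmodModule (n := s) hA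
  let T : M →ₗ[ZMod s] M := AddMonoidHom.toZModLinearMap s φ
  have hT : ∀ x : M, T x = φ x := fun x => rfl
  have hTp : T ^ p = 1 := by
    have hn : ∀ n : ℕ, ∀ x : M, (T ^ n) x = (φ^[n]) x := by
      intro n
      induction n with
      | zero => intro x; simp
      | succ n ih =>
        intro x
        rw [pow_succ, Module.End.mul_apply, ih, Function.iterate_succ_apply, hT]
    ext x
    rw [hn, hφ]
    simp
  obtain ⟨z, hz⟩ : ∃ z : (ZMod s)ˣ, orderOf z = p := by
    apply exists_prime_orderOf_dvd_card p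
    rw [ZMod.card_units]
    exact hps
  have hprim : IsPrimitiveRoot (z : ZMod s) p := by
    have := IsPrimitiveRoot.orderOf z
    rw [hz] at this
    exact IsPrimitiveRoot.coe_units_iff.2 this
  have hpoly : (Polynomial.X ^ p - 1 : Polynomial (ZMod s)) =
      ∏ c ∈ Polynomial.nthRootsFinset p (1 : ZMod s), (Polynomial.X - Polynomial.C c) :=
    Polynomial.X_pow_sub_one_eq_prod hp.pos hprim
  have h1 : (1 : ZMod s) ∈ Polynomial.nthRootsFinset p (1 : ZMod s) := by
    rw [Polynomial.mem_nthRootsFinset hp.pos]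
    simp
  classical
  rw [← Finset.prod_erase_mul _ _ h1] at hpoly
  have hu : T v - v ≠ 0 := by
    intro h
    rw [sub_eq_zero, hT] at h
    exact hv h
  obtain ⟨c, hc, w, hw, hTw⟩ := tw_eigen_aux T
    ((Polynomial.nthRootsFinset p (1 : ZMod s)).erase 1) _ hu (by
      have h2 : (Polynomial.aeval T (Polynomial.X ^ p - 1 : Polynomial (ZMod s))) v = 0 := by
        simp [hTp]
      rw [hpoly, map_mul, Module.End.mul_apply] at h2
      simpa using h2)
  have hc1 : c ≠ 1 := (Finset.mem_erase.1 hc).1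
  refine ⟨w, c.val, ?_, ?_⟩
  · have h3 : c • w = (c.val : ℕ) • w := by
      conv_lhs => rw [← ZMod.natCast_zmod_val c]
      exact Nat.cast_smul_eq_nsmul (ZMod s) c.val w
    rw [h3, hT] at hTw
    exact hTw
  · intro h
    rw [hT, h] at hTw
    have h5 : (c - 1) • w = 0 := by rw [sub_smul, one_smul, ← hTw, sub_self]
    rcases smul_eq_zero.1 h5 with h6 | h6
    · exact hc1 (sub_eq_zero.1 h6)
    · exact hw h6

/-- If `p ∣ s - 1` then an endomorphism `φ ≠ 1` with `φ ^ p = 1` of a group of exponent `s` has an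
eigenvector with eigenvalue different from `1`.

Proof. There is `l : ℕ` with `l ^ p ≡ 1 mod s`, `l ≢ 1 mod s` (`ZMod s` has a cyclic unit group of
order `s - 1`; so `1, l, ..., l ^ (p - 1)` are different modulo `s`, as `p` is prime). For
`j < p` put `w j = ∏_{i < p} (φ^[i] v) ^ (l ^ ((p - j) * i))`. Then
`φ (w j) = (w j) ^ (l ^ j)` (shift the index; `φ^[p] v = v`, `l ^ (p * (p - j)) ≡ 1 mod s`, and
`l ^ ((p - j) * i) ≡ l ^ ((p - j) * (i + 1)) * l ^ j`). If `φ (w j) = w j` for all `j ∈ [1, p-1]`, then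
`w j ^ (l ^ j - 1) = 1`, so `w j = 1` for these `j` (as `l ^ j - 1` is prime to `s`), and
`w 0 = ∏_j w j = ∏_i (φ^[i] v) ^ (∑_j l ^ ((p - j) * i)) = v ^ p` (the inner sum is `≡ 0 mod s` for
`0 < i < p`, a geometric sum, and it is `p` for `i = 0`). As `φ (w 0) = w 0` we get
`φ v ^ p = v ^ p`, so `φ v = v` (`p` is prime to `s`, all elements have order dividing `s`).
(Other proofs are fine too, e.g. view `Additive A` as a `ZMod s`-module, `X ^ p - 1` is a product of
linear factors.) -/
theorem tw_eigen {A : Type} [CommGroup A] {s p : ℕ} (hs : s.Prime) (hp : p.Prime)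
    (hps : p ∣ s - 1) (hA : ∀ a : A, a ^ s = 1) (φ : A →* A) (hφ : ∀ a, (φ^[p]) a = a) {v : A}
    (hv : φ v ≠ v) : ∃ (a : A) (k : ℕ), φ a = a ^ k ∧ φ a ≠ a := by
  obtain ⟨a, k, h1, h2⟩ := tw_eigen_add (M := Additive A) hs hp hps
    (fun a => by
      have := hA a.toMul
      exact this) (MonoidHom.toAdditive φ) (fun a => hφ a.toMul) (v := Additive.ofMul v)
      (fun h => hv (Additive.ofMul.injective h))
  exact ⟨a.toMul, k, h1, h2⟩

end Pool.Agent.Lib.MP_544bd1_al
end

section

/-!
Two generators, part 2: Sylow tools.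
-/

namespace Pool.Agent.Lib.MP_544bd1_al

open Subgroup

variable {F : Type} [Group F]

/-- a `q`-group `E` acting on a group `D` of order prime to `q` normalizes a Sylow `p`-subgroup.
Proof. `E` acts (by conjugation) on the Sylow `p`-subgroups of `D`, whose number divides
`Nat.card D` (`Sylow.card_dvd_index`), so it is prime to `q`; so there is a fixed point
(`IsPGroup.card_modEq_card_fixedPoints`). -/
theorem tw_inv_sylow [Finite F] {p q : ℕ} (hp : p.Prime) (hq : q.Prime) (D E : Subgroup F)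
    (hDE : ∀ e ∈ E, ∀ x ∈ D, e * x * e⁻¹ ∈ D) (hE : IsPGroup q E) (hD : ¬ q ∣ Nat.card D) :
    ∃ S : Subgroup F, S ≤ D ∧ IsPGroup p S ∧ (∀ e ∈ E, ∀ x ∈ S, e * x * e⁻¹ ∈ S) ∧
      ∃ k, Nat.card D = Nat.card S * k ∧ ¬ p ∣ k := by
  have hpf : Fact p.Prime := ⟨hp⟩
  have hqf : Fact q.Prime := ⟨hq⟩
  let act : MulDistribMulAction E D :=
    { smul := fun e x => ⟨e * x * (e : F)⁻¹, hDE e e.2 x x.2⟩
      one_smul := fun x => Subtype.ext (by
        change ((1 : E) : F) * x * ((1 : E) : F)⁻¹ = x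
        simp)
      mul_smul := fun e f x => Subtype.ext (by
        change ((e * f : E) : F) * x * ((e * f : E) : F)⁻¹ = e * (f * x * (f : F)⁻¹) * (e : F)⁻¹
        rw [Subgroup.coe_mul, mul_inv_rev]
        group)
      smul_mul := fun e x y => Subtype.ext (by
        change (e : F) * ((x * y : D) : F) * (e : F)⁻¹ =
          (e * x * (e : F)⁻¹) * (e * y * (e : F)⁻¹)
        rw [Subgroup.coe_mul]
        group)
      smul_one := fun e => Subtype.ext (by
        change (e : F) * ((1 : D) : F) * (e : F)⁻¹ = ((1 : D) : F)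
        simp) }
  have hact : ∀ (e : E) (x : D), ((e • x : D) : F) = e * x * (e : F)⁻¹ := fun e x => rfl
  have hcard : ¬ q ∣ Nat.card (Sylow p D) := by
    intro h
    obtain ⟨P⟩ : Nonempty (Sylow p D) := inferInstance
    exact hD (h.trans ((Sylow.card_dvd_index P).trans (Subgroup.index_dvd_card _)))
  obtain ⟨P, hP⟩ := hE.nonempty_fixed_point_of_prime_not_dvd_card (Sylow p D) hcard
  refine ⟨(P : Subgroup D).map D.subtype, ?_, P.isPGroup'.map _, ?_, P.index, ?_, P.not_dvd_index⟩
  · rintro _ ⟨y, -, rfl⟩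
    exact y.2
  · rintro e he _ ⟨y, hy, rfl⟩
    have h1 : (⟨e, he⟩ : E) • P = P := hP ⟨e, he⟩
    have h2 : (⟨e, he⟩ : E) • y ∈ (((⟨e, he⟩ : E) • P : Sylow p D) : Subgroup D) :=
      Subgroup.smul_mem_pointwise_smul y (⟨e, he⟩ : E) (P : Subgroup D) hy
    rw [h1] at h2
    exact ⟨_, h2, hact _ _⟩
  · rw [Subgroup.card_map_of_injective D.subtype_injective]
    exact (Subgroup.card_mul_index _).symm

/-- a subgroup containing a Sylow `s`-subgroup of `D` for every prime `s` contains `D`.
(`Nat.card (C ⊓ D)` divides `Nat.card D` and the quotient is not divisible by any prime.) -/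
theorem tw_gen_sylow [Finite F] (D C : Subgroup F)
    (h : ∀ s : ℕ, s.Prime → ∃ S : Subgroup F, S ≤ D ∧ S ≤ C ∧
      ∃ k, Nat.card D = Nat.card S * k ∧ ¬ s ∣ k) : D ≤ C := by
  obtain ⟨r, hr⟩ : Nat.card (D ⊓ C : Subgroup F) ∣ Nat.card D :=
    Subgroup.card_dvd_of_le inf_le_left
  have hr1 : r = 1 := by
    by_contra hne
    obtain ⟨s, hs, hsr⟩ := Nat.exists_prime_and_dvd hne
    obtain ⟨S, hSD, hSC, k, hk, hsk⟩ := h s hs
    obtain ⟨t, ht⟩ : Nat.card S ∣ Nat.card (D ⊓ C : Subgroup F) :=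
      Subgroup.card_dvd_of_le (le_inf hSD hSC)
    apply hsk
    have h1 : Nat.card S * k = Nat.card S * (t * r) := by
      rw [← hk, hr, ht, mul_assoc]
    have h2 : k = t * r := Nat.eq_of_mul_eq_mul_left Nat.card_pos h1
    rw [h2]
    exact hsr.mul_left t
  rw [hr1, mul_one] at hr
  have h3 : D ⊓ C = D := Subgroup.eq_of_le_of_card_ge inf_le_left hr.le
  rw [← h3]
  exact inf_le_right

/-- a group of exponent `M` has order prime to every prime not dividing `M` (Cauchy) -/
theorem tw_card_cop [Finite F] {M q : ℕ} (hq : q.Prime) (hqM : ¬ q ∣ M) (D : Subgroup F)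
    (hD : ∀ x ∈ D, x ^ M = 1) : ¬ q ∣ Nat.card D := by
  intro h
  have hqf : Fact q.Prime := ⟨hq⟩
  obtain ⟨x, hx⟩ := exists_prime_orderOf_dvd_card' q h
  apply hqM
  rw [← hx]
  apply orderOf_dvd_of_pow_eq_one
  apply Subtype.ext
  rw [Subgroup.coe_pow, Subgroup.coe_one]
  exact hD x x.2

end Pool.Agent.Lib.MP_544bd1_al
end

section

/-!
Two generators, part 2: Frattini subgroups of `p`-groups.
-/

namespace Pool.Agent.Lib.MP_544bd1_al

open Subgroup

/-- maximal subgroups of finite `p`-groups contain all commutators and all `p`-th powers -/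
private theorem tw_frattini_coatom {S : Type} [Group S] [Finite S] {p : ℕ} (hp : p.Prime)
    (hS : IsPGroup p S) (M : Subgroup S) (hM : IsCoatom M) :
    commutator S ≤ M ∧ ∀ y : S, y ^ p ∈ M := by
  have : Fact p.Prime := ⟨hp⟩
  have hnil : Group.IsNilpotent S := hS.isNilpotent
  have hMn : M.Normal :=
    Subgroup.NormalizerCondition.normal_of_coatom M Group.normalizerCondition_of_isNilpotent hM
  have key : ∀ z : S ⧸ M, z ≠ 1 → Subgroup.zpowers z = ⊤ := by
    intro z hz
    have h1 : M < (Subgroup.zpowers z).comap (QuotientGroup.mk' M) := by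
      obtain ⟨w, rfl⟩ := QuotientGroup.mk_surjective z
      refine lt_of_le_of_ne ?_ ?_
      · intro m hm
        rw [Subgroup.mem_comap]
        have : (QuotientGroup.mk' M) m = 1 := (QuotientGroup.eq_one_iff m).mpr hm
        rw [this]
        exact one_mem _
      · intro h
        apply hz
        rw [QuotientGroup.eq_one_iff, h, Subgroup.mem_comap]
        exact Subgroup.mem_zpowers _
    have h2 := hM.2 _ h1
    rw [eq_top_iff]
    rintro w -
    obtain ⟨v, rfl⟩ := QuotientGroup.mk_surjective w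
    have : v ∈ (Subgroup.zpowers z).comap (QuotientGroup.mk' M) := by rw [h2]; trivial
    exact this
  have hcomm : ∀ z w : S ⧸ M, z * w = w * z := by
    intro z w
    by_cases hz : z = 1
    · rw [hz, one_mul, mul_one]
    · have hw : w ∈ Subgroup.zpowers z := by rw [key z hz]; trivial
      obtain ⟨k, rfl⟩ := Subgroup.mem_zpowers_iff.1 hw
      exact ((Commute.refl z).zpow_right k).eq
  have hQ : IsPGroup p (S ⧸ M) := hS.to_quotient M
  constructor
  · rw [commutator_def, Subgroup.commutator_le]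
    intro a _ b _
    rw [← QuotientGroup.eq_one_iff, commutatorElement_def, QuotientGroup.mk_mul,
      QuotientGroup.mk_mul, QuotientGroup.mk_mul, QuotientGroup.mk_inv, QuotientGroup.mk_inv,
      hcomm (a : S ⧸ M) (b : S ⧸ M), mul_assoc (b : S ⧸ M), mul_inv_cancel, mul_one,
      mul_inv_cancel]
  intro y
  by_contra hy
  have h1 : ((y : S) : S ⧸ M) ^ p ≠ 1 := by
    rw [← QuotientGroup.mk_pow]
    intro h
    exact hy ((QuotientGroup.eq_one_iff _).mp h)
  have h2 : ((y : S) : S ⧸ M) ≠ 1 := by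
    intro h
    apply h1
    rw [h, one_pow]
  have h3 := key _ h1
  have h4 := key _ h2
  have h5 : orderOf (((y : S) : S ⧸ M) ^ p) = orderOf ((y : S) : S ⧸ M) := by
    rw [← Nat.card_zpowers, ← Nat.card_zpowers, h3, h4]
  have h6 : p ∣ orderOf ((y : S) : S ⧸ M) := by
    obtain ⟨k, hk⟩ := (IsPGroup.iff_orderOf.mp hQ) ((y : S) : S ⧸ M)
    rw [hk]
    rcases Nat.eq_zero_or_pos k with h | h
    · exfalso
      rw [h, pow_zero, orderOf_eq_one_iff] at hk
      exact h2 hk
    · exact dvd_pow_self p h.ne'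
  have h7 : 0 < orderOf ((y : S) : S ⧸ M) := orderOf_pos _
  rw [orderOf_pow_of_dvd hp.pos.ne' h6] at h5
  have h8 := Nat.div_lt_self h7 hp.one_lt
  omega

/-- in a finite `p`-group, commutators and `p`-th powers are in the Frattini subgroup
(maximal subgroups of a finite `p`-group are normal of index `p`; Mathlib: `Subgroup.NormalizerCondition.normal_of_coatom`,
`frattini`; see also `fr_frattini_coatom` in FrD.lean for `p = 2`) -/
theorem tw_frattini {S : Type} [Group S] [Finite S] {p : ℕ} (hp : p.Prime) (hS : IsPGroup p S) :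
    commutator S ≤ frattini S ∧ ∀ x : S, x ^ p ∈ frattini S := by
  constructor
  · unfold frattini Order.radical
    refine le_iInf₂ fun M hM => ?_
    exact (tw_frattini_coatom hp hS M hM).1
  · intro x
    unfold frattini Order.radical
    rw [Subgroup.mem_iInf]
    intro M
    rw [Subgroup.mem_iInf]
    intro hM
    exact (tw_frattini_coatom hp hS M hM).2 x

/-- the derived subgroup of a finite `p`-group is non-generating (`frattini_nongenerating`) -/
theorem tw_comm_nongen {F : Type} [Group F] {p : ℕ} (hp : p.Prime) (P : Subgroup F) [Finite P]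
    (hP : IsPGroup p P) (C : Subgroup F) (hC : C ≤ P)
    (h : ∀ x ∈ P, ∃ c ∈ C, ∃ n ∈ ⁅P, P⁆, x = c * n) : C = P := by
  have h1 : C.subgroupOf P = ⊤ := by
    apply frattini_nongenerating
    rw [eq_top_iff]
    rintro ⟨x, hx⟩ -
    obtain ⟨c, hc, n, hn, rfl⟩ := h x hx
    rw [← Subgroup.map_subtype_commutator] at hn
    obtain ⟨n', hn', rfl⟩ := hn
    have hc' : (⟨c, hC hc⟩ : P) ∈ C.subgroupOf P := hc
    have e : (⟨c * P.subtype n', hx⟩ : P) = ⟨c, hC hc⟩ * n' := Subtype.ext rfl
    rw [e]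
    exact Subgroup.mul_mem_sup hc' ((tw_frattini hp hP).1 hn')
  apply le_antisymm hC
  rwa [Subgroup.subgroupOf_eq_top] at h1

end Pool.Agent.Lib.MP_544bd1_al
end

section

/-!
Two generators, part 2, refinement: product of subgroups of coprime index, fixed points in cosets.
-/

namespace Pool.Agent.Lib.MP_544bd1_al

open Subgroup

/-- A finite group is the product of any two subgroups of coprime indices.
Proof. `(A ⊓ B).index` is divisible by `A.index` and by `B.index`, so by the product;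
`(A ⊓ B).relIndex B * B.index = (A ⊓ B).index`, so `B` has at least `A.index` cosets modulo
`A ⊓ B`: the injection `B ⧸ (A ⊓ B) → F ⧸ A` is bijective. (Or count `A × B → F` directly.) -/
theorem tw_coprime_index {F : Type} [Group F] [Finite F] (A B : Subgroup F)
    (h : Nat.Coprime A.index B.index) (g : F) : ∃ b ∈ B, ∃ a ∈ A, g = b * a := by
  have h1 : (A ⊓ B).relIndex B * B.index = (A ⊓ B).index := relIndex_mul_index inf_le_right
  have h2 : A.index ∣ (A ⊓ B).index := index_dvd_of_le inf_le_left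
  rw [← h1] at h2
  have h3 : A.index ∣ A.relIndex B := by
    have := h.dvd_of_dvd_mul_right h2
    rwa [inf_relIndex_right] at this
  have hst : MulAction.stabilizer B ((1 : F) : F ⧸ A) = A.subgroupOf B := by
    ext b
    rw [MulAction.mem_stabilizer_iff, mem_subgroupOf]
    show ((((b : F) * 1 : F)) : F ⧸ A) = ((1 : F) : F ⧸ A) ↔ _
    rw [mul_one, QuotientGroup.eq, mul_one, inv_mem_iff]
  have h4 : (MulAction.orbit B ((1 : F) : F ⧸ A)).ncard = A.relIndex B := by
    rw [← MulAction.index_stabilizer, hst]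
    rfl
  have hfin : Finite (F ⧸ A) := inferInstance
  have hpos : 0 < A.relIndex B := by
    rw [← h4]
    exact (Set.ncard_pos (Set.toFinite _)).2 ⟨_, MulAction.mem_orbit_self _⟩
  have h5 : Nat.card (F ⧸ A) ≤ (MulAction.orbit B ((1 : F) : F ⧸ A)).ncard := by
    rw [h4]
    exact Nat.le_of_dvd hpos h3
  have h6 : MulAction.orbit B ((1 : F) : F ⧸ A) = Set.univ := by
    apply Set.eq_of_subset_of_ncard_le (Set.subset_univ _) _ (Set.toFinite _)
    rw [Set.ncard_univ]
    exact h5
  have h7 : ((g : F) : F ⧸ A) ∈ MulAction.orbit B ((1 : F) : F ⧸ A) := by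
    rw [h6]
    exact Set.mem_univ _
  obtain ⟨b, hb⟩ := h7
  have hb' : ((((b : F) * 1 : F)) : F ⧸ A) = ((g : F) : F ⧸ A) := hb
  rw [mul_one, QuotientGroup.eq] at hb'
  exact ⟨b, b.2, (b : F)⁻¹ * g, hb', by group⟩

/-- A coset of a `p'`-group `N` normalized by the `p`-element `z` contains an element commuting with
`z`. (Same proof as `tw_abz_fix` in TwS3.lean; there `N` is a group of prime power order.) -/
theorem tw_coset_fix {F : Type} [Group F] {p k : ℕ} (hp : p.Prime) {z : F}
    (hz : z ^ (p ^ k) = 1) (N : Subgroup F) [Finite N] (hN : ¬ p ∣ Nat.card N)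
    (hNz : ∀ x ∈ N, z * x * z⁻¹ ∈ N) {x : F} (h : x⁻¹ * (z * x * z⁻¹) ∈ N) :
    ∃ y : F, x⁻¹ * y ∈ N ∧ z * y = y * z := by
  have hfp : Fact p.Prime := ⟨hp⟩
  have hpow : ∀ j : ℕ, ∀ y : F, x⁻¹ * y ∈ N → x⁻¹ * (z ^ j * y * (z ^ j)⁻¹) ∈ N := by
    intro j
    induction j with
    | zero => intro y hy; simpa using hy
    | succ j ih =>
      intro y hy
      have h1 := ih y hy
      have h2 := N.mul_mem h (hNz _ h1)
      have h3 : x⁻¹ * (z * x * z⁻¹) * (z * (x⁻¹ * (z ^ j * y * (z ^ j)⁻¹)) * z⁻¹) =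
          x⁻¹ * (z ^ (j + 1) * y * (z ^ (j + 1))⁻¹) := by
        rw [pow_succ' z, mul_inv_rev]
        group
      rwa [h3] at h2
  have hpos : 0 < p ^ k := Nat.pos_of_ne_zero (pow_ne_zero _ hp.ne_zero)
  have hf : IsOfFinOrder z := isOfFinOrder_iff_pow_eq_one.2 ⟨p ^ k, hpos, hz⟩
  have hzz : ∀ g ∈ zpowers z, ∀ y : F, x⁻¹ * y ∈ N → x⁻¹ * (g * y * g⁻¹) ∈ N := by
    intro g hg y hy
    rw [← hf.mem_powers_iff_mem_zpowers] at hg
    obtain ⟨j, rfl⟩ := hg
    exact hpow j y hy
  let S : Type := {y : F // x⁻¹ * y ∈ N}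
  let act : MulAction (zpowers z) S :=
    { smul := fun g y => ⟨(g : F) * y.1 * (g : F)⁻¹, hzz g g.2 y.1 y.2⟩
      one_smul := by
        rintro ⟨y, hy⟩
        apply Subtype.ext
        show ((1 : zpowers z) : F) * y * ((1 : zpowers z) : F)⁻¹ = y
        simp
      mul_smul := by
        rintro g g' ⟨y, hy⟩
        apply Subtype.ext
        show ((g * g' : zpowers z) : F) * y * ((g * g' : zpowers z) : F)⁻¹ =
          (g : F) * ((g' : F) * y * (g' : F)⁻¹) * (g : F)⁻¹
        rw [Subgroup.coe_mul, mul_inv_rev]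
        group }
  let e : S ≃ N :=
    { toFun := fun y => ⟨x⁻¹ * y.1, y.2⟩
      invFun := fun n => ⟨x * n.1, by
        show x⁻¹ * (x * n.1) ∈ N
        rw [inv_mul_cancel_left]
        exact n.2⟩
      left_inv := by
        rintro ⟨y, hy⟩
        apply Subtype.ext
        show x * (x⁻¹ * y) = y
        rw [mul_inv_cancel_left]
      right_inv := by
        rintro ⟨n, hn⟩
        apply Subtype.ext
        show x⁻¹ * (x * n) = n
        rw [inv_mul_cancel_left] }
  have hfinS : Finite S := Finite.of_equiv _ e.symm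
  have hG : IsPGroup p (zpowers z) := by
    rintro ⟨g, hg⟩
    rw [← hf.mem_powers_iff_mem_zpowers] at hg
    obtain ⟨j, rfl⟩ := hg
    refine ⟨k, ?_⟩
    apply Subtype.ext
    show (z ^ j) ^ (p ^ k) = 1
    rw [← pow_mul, mul_comm, pow_mul, hz, one_pow]
  have hcard := hG.card_modEq_card_fixedPoints S
  rw [Nat.card_congr e] at hcard
  have hne : Nat.card (MulAction.fixedPoints (zpowers z) S) ≠ 0 := by
    intro h0
    rw [h0] at hcard
    exact hN ((Nat.modEq_zero_iff_dvd).1 hcard)
  obtain ⟨⟨y, hy⟩⟩ := (Nat.card_ne_zero.1 hne).1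
  refine ⟨y.1, y.2, ?_⟩
  have h1 := hy ⟨z, mem_zpowers z⟩
  have h2 : z * y.1 * z⁻¹ = y.1 := congrArg Subtype.val h1
  calc z * y.1 = (z * y.1 * z⁻¹) * z := by group
    _ = y.1 * z := by rw [h2]

end Pool.Agent.Lib.MP_544bd1_al
end
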