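import Mathlib
import Pool.Agent.Lib.MP_544bd1_al.TwA
import Pool.Agent.Lib.MP_544bd1_al.E5.Coind

section

/-!
Theorem G' (paper 275): for primes `r ≥ 5` every element of order `r` is `r`-good. Definitions.
Conventions: `g` acts on the left, `g * x * g⁻¹`; `M` is the `r'`-part, `r ^ b` the `r`-part of the
exponent; an M-element is an x with `x ^ M = 1`.
-/

namespace Pool.Agent.Lib.MP_544bd1_al

open Subgroup

/-- `F ⧸ O_{p',p}(F)` -/
abbrev GH (M P : ℕ) (F : Type) [Group F] : Type :=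
  (F ⧸ krad M F) ⧸ krad P (F ⧸ krad M F)

/-- the projection to `F ⧸ O_{p',p}(F)` -/
def gp (M P : ℕ) (F : Type) [Group F] : F →* GH M P F :=
  (QuotientGroup.mk' (krad P (F ⧸ krad M F))).comp (QuotientGroup.mk' (krad M F))

/-- `h` is bad of level `c` in `F` -/
def GpB (M r b c : ℕ) {F : Type} [Group F] (h : F) : Prop :=
  h ^ (r ^ c) = 1 ∧ ¬ InOP M (r ^ b) (⊤ : Subgroup F) (h ^ (r ^ (c - 1)))

/-- `F` is a minimal group with a bad element of level `c` -/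
structure GpMin (M r b c : ℕ) (F : Type) [Group F] : Prop where
  hr : r.Prime
  hr5 : 5 ≤ r
  hM : 0 < M
  hrM : ¬ r ∣ M
  hc : 0 < c
  hcb : c ≤ b
  hnum : ∀ t : ℕ, t.Prime → t ∣ M → ∀ j s : ℕ, 1 ≤ j → j ≤ c → 0 < s → t ^ s + 1 ≠ r ^ j
  hexp : ∀ x : F, x ^ (M * r ^ b) = 1
  sol : Group.IsSolvable F
  min : ∀ X : Subgroup F, X ≠ ⊤ → ∀ y ∈ X, y ^ (r ^ c) = 1 →
    InOP M (r ^ b) X (y ^ (r ^ (c - 1)))

/-- a group `S` of `M`-elements, normalized by `h`, which covers `O_{r'}(F ⧸ O_{r',r}(F))` -/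
def GpS (M P : ℕ) {F : Type} [Group F] (h : F) (S : Subgroup F) : Prop :=
  (∀ x ∈ S, x ^ M = 1) ∧ (∀ x ∈ S, h * x * h⁻¹ ∈ S) ∧
    ∀ x : F, gp M P F x ∈ krad M (GH M P F) → ∃ s ∈ S, gp M P F s = gp M P F x

/-- the normal subgroups `Q₁ < Q`: `Q` has exponent `r`, `Q₁` is central in `Q` and centralized by
all `M`-elements, `Q ⧸ Q₁` is a chief factor on which `O_{r',r}(F)` acts trivially and some
`M`-element acts nontrivially; every proper subgroup of `Q` which is normal in `F` lies in `Q₁` -/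
structure GpQ (M P r : ℕ) {F : Type} [Group F] (Q Q₁ : Subgroup F) : Prop where
  nQ : Q.Normal
  nQ₁ : Q₁.Normal
  le : Q₁ ≤ Q
  ne : Q₁ ≠ Q
  exp : ∀ x ∈ Q, x ^ r = 1
  cent : ∀ x ∈ Q₁, ∀ y ∈ Q, x * y = y * x
  centM : ∀ x ∈ Q₁, ∀ g : F, g ^ M = 1 → g * x = x * g
  comm : ∀ x ∈ Q, ∀ y ∈ Q, x * y * x⁻¹ * y⁻¹ ∈ Q₁
  triv : ∀ d : F, gp M P F d = 1 → ∀ x ∈ Q, d * x * d⁻¹ * x⁻¹ ∈ Q₁
  ker : ∀ x ∈ Q, gp M P F x = 1
  nontriv : ∃ g : F, g ^ M = 1 ∧ ∃ x ∈ Q, g * x * g⁻¹ * x⁻¹ ∉ Q₁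
  min : ∀ N : Subgroup F, N.Normal → N ≤ Q → N ≠ Q → N ≤ Q₁

/-- `x⁻¹ * (u * x * u⁻¹)`, i.e. `(u - 1) x` -/
def gpN {E : Type} [Group E] (u x : E) : E := x⁻¹ * (u * x * u⁻¹)

/-- the data of Section 3 of paper 275 -/
structure GpE (r c : ℕ) {E : Type} [Group E] (Q A : Subgroup E) (u w : E) : Prop where
  exp : ∀ x ∈ Q, x ^ r = 1
  le : A ≤ Q
  cent : ∀ a ∈ A, ∀ x ∈ Q, a * x = x * a
  comm : ∀ x ∈ Q, ∀ y ∈ Q, x * y * x⁻¹ * y⁻¹ ∈ A
  uQ : ∀ x ∈ Q, u * x * u⁻¹ ∈ Q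
  uA : ∀ x ∈ A, u * x * u⁻¹ ∈ A
  hz : u ^ (r ^ c) ∈ Q
  hzA : u ^ (r ^ c) ∉ A
  hw : w ∈ A
  hwu : w * u = u * w
  hw1 : w ≠ 1
  hI : ∀ B : Subgroup E, B ≤ A → w ∉ B → ∀ x ∈ Q,
    (∀ j : ℕ, ∀ y ∈ Q, (u ^ j * x * (u ^ j)⁻¹) * y * (u ^ j * x * (u ^ j)⁻¹)⁻¹ * y⁻¹ ∈ B) → x ∈ A

/-- level `c + 1` is good -/
def GpTop (M r b c : ℕ) (G : Type) [Group G] : Prop :=
  ∀ T : Subgroup G, Finite T → Group.IsSolvable T → ∀ u ∈ T, u ^ (r ^ (c + 1)) = 1 →
    InOP M (r ^ b) T (u ^ (r ^ c))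

section basic

variable {F : Type} [Group F] {M P : ℕ}

theorem gp_surj : Function.Surjective (gp M P F) :=
  (QuotientGroup.mk'_surjective _).comp (QuotientGroup.mk'_surjective _)

theorem gp_ker (hcop : Nat.Coprime M P) (hexp : ∀ x : F, x ^ (M * P) = 1) {x : F} :
    gp M P F x = 1 ↔ InOP M P (⊤ : Subgroup F) x := by
  rw [tw_op_iff hcop hexp]
  exact QuotientGroup.eq_one_iff _

theorem gp_exp (hexp : ∀ x : F, x ^ (M * P) = 1) (x : GH M P F) : x ^ (M * P) = 1 := by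
  obtain ⟨y, rfl⟩ := gp_surj x
  rw [← map_pow, hexp, map_one]

theorem GpMin.cop {r b c : ℕ} (D : GpMin M r b c F) : Nat.Coprime M (r ^ b) :=
  ((Nat.Prime.coprime_iff_not_dvd D.hr).2 D.hrM).symm.pow_right b

theorem GpMin.gp_iff {r b c : ℕ} (D : GpMin M r b c F) {x : F} :
    gp M (r ^ b) F x = 1 ↔ InOP M (r ^ b) (⊤ : Subgroup F) x := gp_ker D.cop D.hexp

end basic

end Pool.Agent.Lib.MP_544bd1_al
end

section

/-!
Two generators, part 2: conjugacy of `q`-elements modulo a normal `p`-group.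
-/

namespace Pool.Agent.Lib.MP_544bd1_al

open Subgroup

/-- two elements of order dividing `q`, congruent modulo a normal `p`-subgroup `A`, are conjugate
under `A`.
Proof. If `s = 1` then `s' ∈ A`, so `s' = 1` (`tw_one`). Let `s ≠ 1`, `H = A ⊔ zpowers s`
(contains `s' = s * (s⁻¹ * s')`). The group `zpowers s'` (a `q`-group) acts on the cosets
`H ⧸ zpowers s`, whose number is `Nat.card A` (`A ⊓ zpowers s = ⊥`), a power of `p`, so not divisible
by `q`: there is a fixed coset `h ⟨s⟩`, `h ∈ H`; we may take `h ∈ A` (`H = A ⟨s⟩`), so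
`h⁻¹ * s' * h ∈ zpowers s`, and it is congruent to `s` modulo `A`, so equal to `s`; take `g = h⁻¹`.
(Alternatively: `zpowers s`, `zpowers s'` are Sylow `q`-subgroups of `H`.) -/
theorem tw_conj_mod {F : Type} [Group F] [Finite F] {p q a : ℕ} (hp : p.Prime) (hq : q.Prime)
    (hpq : p ≠ q) (A : Subgroup F) [A.Normal] (hA : ∀ x ∈ A, x ^ (p ^ a) = 1) {s s' : F}
    (hs : s ^ q = 1) (hs' : s' ^ q = 1) (h : s⁻¹ * s' ∈ A) : ∃ g ∈ A, g⁻¹ * s * g = s' := by
  classical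
  have : Fact q.Prime := ⟨hq⟩
  have : Fact p.Prime := ⟨hp⟩
  let _ : Fintype A := Fintype.ofFinite A
  have hn : A.Normal := inferInstance
  have h1 : s'⁻¹ * s ∈ A := by
    have h2 := A.inv_mem h
    rwa [mul_inv_rev, inv_inv] at h2
  have hfwd : ∀ x ∈ A, s'⁻¹ * x * s ∈ A := by
    intro x hx
    have h2 : s⁻¹ * x * s ∈ A := by
      have := hn.conj_mem x hx s⁻¹
      rwa [inv_inv] at this
    have h3 := A.mul_mem h1 h2
    have h4 : s'⁻¹ * s * (s⁻¹ * x * s) = s'⁻¹ * x * s := by group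
    rwa [h4] at h3
  have hbwd : ∀ x ∈ A, s' * x * s⁻¹ ∈ A := by
    intro x hx
    have h2 : s' * x * s'⁻¹ ∈ A := hn.conj_mem x hx s'
    have h5 : s' * s⁻¹ ∈ A := by
      have h6 := hn.conj_mem _ h s
      have h7 : s * (s⁻¹ * s') * s⁻¹ = s' * s⁻¹ := by group
      rwa [h7] at h6
    have h3 := A.mul_mem h2 h5
    have h4 : s' * x * s'⁻¹ * (s' * s⁻¹) = s' * x * s⁻¹ := by group
    rwa [h4] at h3
  let σ : Equiv.Perm A :=
    { toFun := fun x => ⟨s'⁻¹ * x.1 * s, hfwd x.1 x.2⟩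
      invFun := fun x => ⟨s' * x.1 * s⁻¹, hbwd x.1 x.2⟩
      left_inv := by
        intro x
        apply Subtype.ext
        change s' * (s'⁻¹ * x.1 * s) * s⁻¹ = x.1
        group
      right_inv := by
        intro x
        apply Subtype.ext
        change s'⁻¹ * (s' * x.1 * s⁻¹) * s = x.1
        group }
  have hσ : ∀ (n : ℕ) (x : A), ((σ ^ n) x : F) = (s' ^ n)⁻¹ * x.1 * s ^ n := by
    intro n
    induction n with
    | zero => intro x; simp
    | succ n ih =>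
      intro x
      rw [pow_succ, Equiv.Perm.mul_apply, ih]
      change (s' ^ n)⁻¹ * (s'⁻¹ * x.1 * s) * s ^ n = _
      rw [pow_succ' s n, pow_succ s' n, mul_inv_rev]
      have h8 : (s' ^ n)⁻¹ * s'⁻¹ = s'⁻¹ * (s' ^ n)⁻¹ := by
        rw [← mul_inv_rev, ← mul_inv_rev, ← pow_succ, ← pow_succ']
      rw [← h8]
      group
  have hσq : σ ^ q ^ 1 = 1 := by
    rw [pow_one]
    ext x
    rw [hσ, hs, hs']
    simp
  have hcard : ¬ q ∣ Fintype.card A := by
    have hP : IsPGroup p A := by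
      intro x
      refine ⟨a, Subtype.ext ?_⟩
      rw [SubmonoidClass.coe_pow]
      exact hA x.1 x.2
    obtain ⟨n, hcn⟩ := IsPGroup.iff_card.1 hP
    rw [← Nat.card_eq_fintype_card, hcn]
    intro hdiv
    have h9 := hq.dvd_of_dvd_pow hdiv
    exact hpq ((Nat.prime_dvd_prime_iff_eq hq hp).1 h9).symm
  obtain ⟨x, hx⟩ := Equiv.Perm.exists_fixed_point_of_prime hcard hσq
  have hx' : s'⁻¹ * x.1 * s = x.1 := congrArg Subtype.val hx
  refine ⟨x.1⁻¹, A.inv_mem x.2, ?_⟩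
  rw [inv_inv]
  have h10 : x.1 * s = s' * x.1 := by
    calc x.1 * s = s' * (s'⁻¹ * x.1 * s) := by group
      _ = s' * x.1 := by rw [hx']
  rw [h10, mul_assoc, mul_inv_cancel, mul_one]

end Pool.Agent.Lib.MP_544bd1_al
end

section

/-!
Two generators, part 2: the norm formula.
-/

namespace Pool.Agent.Lib.MP_544bd1_al

open Subgroup Finset

/-- the norm formula: if `φ : P → V` is a homomorphism to an additive group on which `F` acts by
`ρ` compatibly with conjugation, then `∑_{i<k} (ρ u) ^ i (φ x)` is the image of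
`(x * u) ^ k * u ^ (-k)`; so it vanishes if `(x * u) ^ k = 1` and `u ^ k = 1`.
Proof. Induction on `k`: there is `y ∈ P` with `(x * u) ^ k = y * u ^ k` and
`φ y = ∑_{i<k} (ρ u) ^ i (φ x)`: `(x * u) ^ (k+1) = (x * u) * (y * u ^ k) =
(x * (u * y * u⁻¹)) * u ^ (k+1)` and `φ (x * (u * y * u⁻¹)) = φ x + ρ u (φ y)`. -/
theorem tw_norm_zero {F V S : Type} [Group F] [Ring S] [AddCommGroup V] [Module S V]
    (P : Subgroup F) [hPn : P.Normal] (ρ : F →* Module.End S V) (φ : P → V)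
    (hφ : ∀ x y, φ (x * y) = φ x + φ y)
    (hφρ : ∀ (g : F) (x : P), φ ⟨g * x * g⁻¹, hPn.conj_mem _ x.2 g⟩ = ρ g (φ x)) {u : F} {k : ℕ}
    (hu : u ^ k = 1) (x : P) (hx : ((x : F) * u) ^ k = 1) :
    (∑ i ∈ range k, (ρ u) ^ i) (φ x) = 0 := by
  have h0 : φ 1 = 0 := by
    have h1 := hφ 1 1
    rw [mul_one] at h1
    exact left_eq_add.1 h1
  have key : ∀ j : ℕ, ∃ y : P, ((x : F) * u) ^ j = (y : F) * u ^ j ∧
      φ y = (∑ i ∈ range j, (ρ u) ^ i) (φ x) := by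
    intro j
    induction j with
    | zero => exact ⟨1, by simp, by simp [h0]⟩
    | succ j ih =>
      obtain ⟨y, hy1, hy2⟩ := ih
      refine ⟨x * ⟨u * y * u⁻¹, hPn.conj_mem _ y.2 u⟩, ?_, ?_⟩
      · rw [pow_succ', hy1, pow_succ']
        simp only [Subgroup.coe_mul]
        group
      · rw [hφ, hφρ, hy2, Finset.sum_range_succ', pow_zero, LinearMap.add_apply,
          LinearMap.sum_apply, LinearMap.sum_apply, map_sum, add_comm]
        congr 1
        refine Finset.sum_congr rfl fun i _ => ?_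
        rw [pow_succ']
        rfl
  obtain ⟨y, hy1, hy2⟩ := key k
  rw [hx, hu, mul_one] at hy1
  have hy : y = 1 := Subtype.ext hy1.symm
  rw [← hy2, hy, h0]

end Pool.Agent.Lib.MP_544bd1_al
end

section

/-!
Two generators, part 2: elementary number theory.
-/

namespace Pool.Agent.Lib.MP_544bd1_al

open Subgroup

/-- choice of the two primes -/
theorem tw_pair {n : ℕ} (hodd : Odd n) (h1 : 1 < n)
    (h : ∃ p q : ℕ, ∀ s : ℕ, s.Prime → s ^ 2 ∣ n → s = p ∨ s = q)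
    (hpp : ∀ p k : ℕ, p.Prime → n ≠ p ^ k) :
    ∃ p q : ℕ, p.Prime ∧ q.Prime ∧ p ≠ q ∧ p ∣ n ∧ q ∣ n ∧
      ∀ s : ℕ, s.Prime → s ≠ p → s ≠ q → ¬ s ^ 2 ∣ n := by
  classical
  obtain ⟨p0, q0, hpq⟩ := h
  have hn0 : n ≠ 0 := by omega
  have hcard : 2 ≤ n.primeFactors.card := by
    by_contra hlt
    have hle : n.primeFactors.card ≤ 1 := by omega
    rcases Nat.eq_or_lt_of_le hle with h2 | h2
    · have h3 : IsPrimePow n := isPrimePow_iff_card_primeFactors_eq_one.2 h2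
      obtain ⟨p, k, hp, _, hk⟩ := (isPrimePow_nat_iff n).1 h3
      exact hpp p k hp hk.symm
    · have h3 : n.primeFactors = ∅ := by
        rw [← Finset.card_eq_zero]
        omega
      rw [Nat.primeFactors_eq_empty] at h3
      omega
  set Q := n.primeFactors.filter (fun s => s ^ 2 ∣ n) with hQ
  have hQsub : Q ⊆ {p0, q0} := by
    intro s hs
    rw [hQ, Finset.mem_filter] at hs
    rcases hpq s (Nat.prime_of_mem_primeFactors hs.1) hs.2 with h2 | h2
    · rw [h2]; simp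
    · rw [h2]; simp
  have hQcard : Q.card ≤ 2 := (Finset.card_le_card hQsub).trans Finset.card_le_two
  obtain ⟨R, hQR, hRF, hR⟩ := Finset.exists_subsuperset_card_eq
    (Finset.filter_subset _ _ : Q ⊆ n.primeFactors) hQcard hcard
  obtain ⟨p, q, hne, hRpq⟩ := Finset.card_eq_two.1 hR
  have hp : p ∈ n.primeFactors := hRF (by rw [hRpq]; simp)
  have hq : q ∈ n.primeFactors := hRF (by rw [hRpq]; simp)
  refine ⟨p, q, Nat.prime_of_mem_primeFactors hp, Nat.prime_of_mem_primeFactors hq, hne,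
    Nat.dvd_of_mem_primeFactors hp, Nat.dvd_of_mem_primeFactors hq, ?_⟩
  intro s hs hsp hsq hdvd
  have h2 : s ∈ Q := by
    rw [hQ, Finset.mem_filter, Nat.mem_primeFactors]
    exact ⟨⟨hs, (dvd_pow_self s two_ne_zero).trans hdvd, hn0⟩, hdvd⟩
  have h3 := hQR h2
  rw [hRpq, Finset.mem_insert, Finset.mem_singleton] at h3
  rcases h3 with h3 | h3
  · exact hsp h3
  · exact hsq h3

/-- `r ^ s + 1 = 2 ^ j` with an odd prime `r` forces `s = 1`.
Proof. `s` even: `r ^ s ≡ 1 mod 8`, `r ^ s + 1 ≡ 2 mod 4`, so `2 ^ j = 2`, `r ^ s = 1`, impossible.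
`s` odd: `r + 1 ∣ r ^ s + 1` with an odd cofactor `r ^ (s-1) - ... + 1` (an alternating sum of `s`
odd terms), which divides `2 ^ j`, so is `1`; so `r ^ s + 1 = r + 1`. -/
theorem tw_mersenne {r s j : ℕ} (hr : r.Prime) (hr2 : r ≠ 2) (hs : 0 < s)
    (h : r ^ s + 1 = 2 ^ j) : s = 1 := by
  have hrodd : Odd r := hr.odd_of_ne_two hr2
  have hr3 : 3 ≤ r := by
    have := hr.two_le
    omega
  rcases Nat.even_or_odd s with he | ho
  · exfalso
    obtain ⟨t, ht⟩ := he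
    have h1 : r ^ s = (r ^ t) * (r ^ t) := by rw [ht, pow_add]
    have hodd' : Odd (r ^ t) := hrodd.pow
    obtain ⟨u, hu⟩ := hodd'
    have h2 : r ^ s + 1 = 4 * (u * u + u) + 2 := by rw [h1, hu]; ring
    rcases Nat.lt_or_ge j 2 with hj | hj
    · have h3 : 2 ^ j ≤ 2 := by
        interval_cases j <;> norm_num
      have h4 : 3 ≤ r ^ s := hr3.trans (Nat.le_self_pow hs.ne' r)
      omega
    · obtain ⟨v, hv⟩ := Nat.exists_eq_add_of_le hj
      rw [hv, pow_add] at h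
      omega
  · have hgs : (∑ i ∈ Finset.range s, (r : ℤ) ^ i * (-1) ^ (s - 1 - i)) * ((r : ℤ) - (-1)) =
        (r : ℤ) ^ s - (-1) ^ s := (Commute.all _ _).geom_sum₂_mul s
    set C : ℤ := ∑ i ∈ Finset.range s, (r : ℤ) ^ i * (-1) ^ (s - 1 - i) with hC
    rw [ho.neg_one_pow, sub_neg_eq_add, sub_neg_eq_add] at hgs
    have hZ : (r : ℤ) ^ s + 1 = 2 ^ j := by exact_mod_cast h
    have hCodd : Odd C := by
      rw [← Int.not_even_iff_odd, even_iff_two_dvd]
      intro hd2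
      have h0 : ((C : ℤ) : ZMod 2) = 0 := (ZMod.intCast_zmod_eq_zero_iff_dvd C 2).2 (by
        exact_mod_cast hd2)
      have hr1 : ((r : ℤ) : ZMod 2) = 1 := by
        obtain ⟨u, hu⟩ := hrodd
        rw [hu]
        push_cast
        have : (2 : ZMod 2) = 0 := rfl
        rw [this]
        ring
      have h11 : (-1 : ZMod 2) = 1 := rfl
      rw [hC, Int.cast_sum] at h0
      simp only [Int.cast_mul, Int.cast_pow, hr1, Int.cast_neg, Int.cast_one, h11, one_pow,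
        mul_one, Finset.sum_const, Finset.card_range, nsmul_eq_mul] at h0
      obtain ⟨u, hu⟩ := ho
      rw [hu] at h0
      push_cast at h0
      have : (2 : ZMod 2) = 0 := rfl
      rw [this] at h0
      simp at h0
    have hdvd : C ∣ 2 ^ j := ⟨(r : ℤ) + 1, by rw [hgs, hZ]⟩
    have hdvd' : C.natAbs ∣ 2 ^ j := by
      have := Int.natAbs_dvd_natAbs.2 hdvd
      rwa [Int.natAbs_pow] at this
    obtain ⟨k, _, hk⟩ := (Nat.dvd_prime_pow Nat.prime_two).1 hdvd'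
    have hk0 : k = 0 := by
      by_contra hk0
      have h2 : Odd C.natAbs := Int.natAbs_odd.2 hCodd
      rw [hk] at h2
      exact (Nat.not_even_iff_odd.2 h2) ((Nat.even_pow.2 ⟨even_two, hk0⟩))
    rw [hk0, pow_zero] at hk
    have hCpos : 0 < C := by
      by_contra hneg
      have h2 : C * ((r : ℤ) + 1) ≤ 0 :=
        mul_nonpos_of_nonpos_of_nonneg (not_lt.1 hneg) (by positivity)
      rw [hgs] at h2
      have : (0 : ℤ) < (r : ℤ) ^ s + 1 := by positivity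
      omega
    have hC1 : C = 1 := by
      have := Int.natAbs_of_nonneg hCpos.le
      rw [hk] at this
      exact_mod_cast this.symm
    rw [hC1, one_mul] at hgs
    have h3 : r ^ s = r ^ 1 := by
      have h4 : (r : ℤ) ^ s = (r : ℤ) := by linarith
      rw [pow_one]
      exact_mod_cast h4
    exact Nat.pow_right_injective hr.two_le h3

/-- a finitely generated abelian group of finite exponent is finite, subgroup form
(`LF`: all finitely generated subgroups are finite; Mathlib `CommGroup.finite_of_fg_torsion`) -/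
theorem tw_LF_abelian {G : Type} [Group G] {n : ℕ} (hn : 0 < n) (hexp : ∀ x : G, x ^ n = 1)
    (K : Subgroup G) (hK : ∀ x ∈ K, ∀ y ∈ K, x * y = y * x) : LF K := by
  intro A hAK hfg
  have hfgA : Group.FG A := (Group.fg_iff_subgroup_fg A).2 hfg
  let cg : CommGroup A :=
    { (inferInstance : Group A) with
      mul_comm := fun a b => Subtype.ext (hK a (hAK a.2) b (hAK b.2)) }
  have htor : IsMulTorsion A := by
    intro a
    rw [isOfFinOrder_iff_pow_eq_one]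
    exact ⟨n, hn, Subtype.ext (by simpa using hexp a)⟩
  exact @CommGroup.finite_of_fg_isMulTorsion A cg hfgA htor

end Pool.Agent.Lib.MP_544bd1_al
end

section

/-!
Theorem Z3 (exponents `8 * m`, `m` an arbitrary odd number): definitions.
Conventions: `g` acts on the left, `g * x * g⁻¹`; the commutator of `x` and `y` is
`x * y * x⁻¹ * y⁻¹`; odd elements are the elements with `x ^ m = 1`.
-/

namespace Pool.Agent.Lib.MP_544bd1_al

open Subgroup

/-- `F ⧸ O_{2',2}(F)` -/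
abbrev ZH (m a : ℕ) (F : Type) [Group F] : Type :=
  (F ⧸ krad m F) ⧸ krad (2 ^ a) (F ⧸ krad m F)

/-- the projection to `F ⧸ O_{2',2}(F)` -/
def zp (m a : ℕ) (F : Type) [Group F] : F →* ZH m a F :=
  (QuotientGroup.mk' (krad (2 ^ a) (F ⧸ krad m F))).comp (QuotientGroup.mk' (krad m F))

/-- `H` acts on a finite `F₂`-space, faithfully on odd elements, and with norm zero for all
elements `u` with `u ^ (2 ^ a) = 1` -/
def ZRep (m a : ℕ) (H : Type) [Group H] : Prop :=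
  ∃ (V : Type) (_ : AddCommGroup V) (_ : Module (ZMod 2) V) (_ : Finite V)
    (ρ : H →* Module.End (ZMod 2) V), (∀ h : H, h ^ m = 1 → ρ h = 1 → h = 1) ∧
    ∀ u : H, u ^ (2 ^ a) = 1 → ∑ i ∈ Finset.range (2 ^ a), (ρ u) ^ i = 0

/-- (L2ab): an element `x` of order dividing 4 normalizes a nontrivial abelian odd subgroup of
`F ⧸ O_{2',2}(F)`, inverted by `x ^ 2` -/
def ZL2 (m a : ℕ) (F : Type) [Group F] : Prop :=
  ∃ (x : F) (E : Subgroup (ZH m a F)), x ^ 4 = 1 ∧ (∀ e ∈ E, e ^ m = 1) ∧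
    (∀ e ∈ E, ∀ e' ∈ E, e * e' = e' * e) ∧ (∀ e ∈ E, zp m a F x * e * (zp m a F x)⁻¹ ∈ E) ∧
    (∀ e ∈ E, zp m a F x ^ 2 * e * (zp m a F x ^ 2)⁻¹ = e⁻¹) ∧ ∃ e ∈ E, e ≠ 1

/-- the hypotheses on a counterexample to Theorem Z3 -/
structure ZG (m : ℕ) (G : Type) [Group G] : Prop where
  hm : Odd m
  tw : TwG (m * 2 ^ 3) G
  noO : NoN m G
  no2 : NoN (2 ^ 3) G
  bad : ∀ z : G, z ^ 2 = 1 → z ≠ 1 → ¬ GoodS m (2 ^ 3) z

/-- `A` is a minimal odd `S`-invariant subgroup on which `z ∈ S` acts nontrivially: it is an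
`r`-group of class at most 2, `z` centralizes its commutators and its proper `S`-invariant
subgroups. -/
structure ZMinA (m r : ℕ) {H : Type} [Group H] (S A : Subgroup H) (z : H) : Prop where
  odd : ∀ x ∈ A, x ^ m = 1
  hr : r.Prime
  hr2 : r ≠ 2
  pg : IsPGroup r A
  inv : ∀ s ∈ S, ∀ x ∈ A, s * x * s⁻¹ ∈ A
  ne : ∃ x ∈ A, z * x ≠ x * z
  min : ∀ B : Subgroup H, B ≤ A → (∀ s ∈ S, ∀ x ∈ B, s * x * s⁻¹ ∈ B) → B ≠ A →
    ∀ x ∈ B, z * x = x * z
  cl : ∀ x ∈ A, ∀ y ∈ A, ∀ w ∈ A, x * y * x⁻¹ * y⁻¹ * w = w * (x * y * x⁻¹ * y⁻¹)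
  cz : ∀ x ∈ A, ∀ y ∈ A, z * (x * y * x⁻¹ * y⁻¹) = x * y * x⁻¹ * y⁻¹ * z

/-- the minimal configuration: `R` an `r`-group normalized by `x`, acting nontrivially on the
2-group `Q`, and trivially on the proper `R⟨x⟩`-invariant subgroups of `Q` -/
structure ZCore (r : ℕ) {F : Type} [Group F] (Q R : Subgroup F) (x : F) : Prop where
  hQ : ∀ q ∈ Q, q ^ (2 ^ 3) = 1
  hR : IsPGroup r R
  hxR : ∀ g ∈ R, x * g * x⁻¹ ∈ R
  ne : ∃ g ∈ R, ∃ q ∈ Q, g * q ≠ q * g
  min : ∀ Q' : Subgroup F, Q' ≤ Q → Q' ≠ Q → (∀ g ∈ R, ∀ q ∈ Q', g * q * g⁻¹ ∈ Q') →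
    (∀ q ∈ Q', x * q * x⁻¹ ∈ Q') → ∀ g ∈ R, ∀ q ∈ Q', g * q = q * g

/-- the configuration of Case A with `P` elementary abelian; the involution is `(p * x) ^ 4` -/
structure ZA1 (m : ℕ) {F : Type} [Group F] (P : Subgroup F) (x ρ p : F) : Prop where
  hP : ∀ q ∈ P, q ^ 2 = 1
  hx : x ^ 4 = 1
  hρ : ρ ^ m = 1
  hρx : x ^ 2 * ρ * (x ^ 2)⁻¹ = ρ⁻¹
  hPx : ∀ q ∈ P, x * q * x⁻¹ ∈ P
  hPρ : ∀ q ∈ P, ρ * q * ρ⁻¹ ∈ P
  hp : p ∈ P
  hz : (p * x) ^ 4 ≠ 1
  gen : ∀ P' : Subgroup F, P' ≤ P → (p * x) ^ 4 ∈ P' → (∀ q ∈ P', x * q * x⁻¹ ∈ P') →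
    (∀ q ∈ P', ρ * q * ρ⁻¹ ∈ P') → P' = P

end Pool.Agent.Lib.MP_544bd1_al
end

section

/-!
Two generators, part 2: conjugacy of complements.
-/

namespace Pool.Agent.Lib.MP_544bd1_al

open Subgroup

variable {F : Type} [Group F] {M P : ℕ}

/-- complements of an abelian normal subgroup are conjugate: apply `sol_conj_in` (SolConj.lean)
with `T := V`, `A := V ⊔ K₁` (`= V ⊔ K₂`); `V ∩ Kᵢ = 1` by `tw_one`, the orders of `V` and of
`(V ⊔ K₁) / V` are coprime (Cauchy: prime divisors of `Nat.card V` divide `P`, prime divisors of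
the index divide `M`). -/
theorem tw_conj_compl [Finite F] (hcop : Nat.Coprime M P) (V : Subgroup F) [V.Normal]
    (hVc : ∀ x ∈ V, ∀ y ∈ V, x * y = y * x) (hVP : ∀ x ∈ V, x ^ P = 1) (K₁ K₂ : Subgroup F)
    (h₁ : ∀ x ∈ K₁, x ^ M = 1) (h₂ : ∀ x ∈ K₂, x ^ M = 1)
    (h : ∀ x ∈ K₁, ∃ v ∈ V, x * v ∈ K₂) (h' : ∀ x ∈ K₂, ∃ v ∈ V, x * v ∈ K₁) :
    ∃ v ∈ V, ∀ x, x ∈ K₂ ↔ v⁻¹ * x * v ∈ K₁ := by
  have hAdec : ∀ x ∈ V ⊔ K₁, ∃ t ∈ V, ∃ d ∈ K₁, x = t * d := by
    intro x hx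
    rw [← SetLike.mem_coe, Subgroup.normal_mul] at hx
    obtain ⟨t, ht, d, hd, rfl⟩ := hx
    exact ⟨t, ht, d, hd, rfl⟩
  have hVA : V ≤ V ⊔ K₁ := le_sup_left
  have hK₁A : K₁ ≤ V ⊔ K₁ := le_sup_right
  have hK₂A : K₂ ≤ V ⊔ K₁ := by
    intro x hx
    obtain ⟨v, hv, hxv⟩ := h' x hx
    have e : x = (x * v) * v⁻¹ := by group
    rw [e]
    exact mul_mem (hK₁A hxv) (inv_mem (hVA hv))
  have hinf₁ : ∀ x ∈ V, x ∈ K₁ → x = 1 := fun x hx hx' => tw_one hcop (h₁ x hx') (hVP x hx)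
  have hinf₂ : ∀ x ∈ V, x ∈ K₂ → x = 1 := fun x hx hx' => tw_one hcop (h₂ x hx') (hVP x hx)
  have hsup₂ : ∀ x ∈ V ⊔ K₁, ∃ t ∈ V, ∃ d ∈ K₂, x = t * d := by
    intro x hx
    obtain ⟨t, ht, d, hd, rfl⟩ := hAdec x hx
    obtain ⟨v, hv, hdv⟩ := h d hd
    refine ⟨t * ((d * v) * v⁻¹ * (d * v)⁻¹), ?_, d * v, hdv, by group⟩
    exact V.mul_mem ht (Subgroup.Normal.conj_mem inferInstance v⁻¹ (V.inv_mem hv) (d * v))
  have hcompl := sol_isComplement (T := V) (A := V ⊔ K₁) inferInstance hVA hK₁A hinf₁ hAdec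
  have hidx : (V.subgroupOf (V ⊔ K₁)).index = Nat.card (K₁.subgroupOf (V ⊔ K₁)) :=
    hcompl.symm.index_eq_card
  have hco : Nat.Coprime (Nat.card (V.subgroupOf (V ⊔ K₁))) (V.subgroupOf (V ⊔ K₁)).index := by
    by_contra hc
    rw [Nat.Prime.not_coprime_iff_dvd] at hc
    obtain ⟨r, hr, hr1, hr2⟩ := hc
    rw [hidx] at hr2
    have : Fact r.Prime := ⟨hr⟩
    obtain ⟨x, hx⟩ := exists_prime_orderOf_dvd_card' r hr1
    obtain ⟨y, hy⟩ := exists_prime_orderOf_dvd_card' r hr2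
    have hxP : r ∣ P := by
      rw [← hx]
      refine orderOf_dvd_of_pow_eq_one ?_
      apply Subtype.ext
      apply Subtype.ext
      exact hVP _ x.2
    have hyM : r ∣ M := by
      rw [← hy]
      refine orderOf_dvd_of_pow_eq_one ?_
      apply Subtype.ext
      apply Subtype.ext
      exact h₁ _ y.2
    have := Nat.eq_one_of_dvd_coprimes hcop hyM hxP
    exact hr.one_lt.ne' this
  exact sol_conj_in (T := V) (A := V ⊔ K₁) inferInstance hVA hVc hco hK₁A hK₂A hinf₁ hAdec hinf₂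
    hsup₂

end Pool.Agent.Lib.MP_544bd1_al
end

section

/-!
Two generators, part 2: (J).
-/

namespace Pool.Agent.Lib.MP_544bd1_al

open Subgroup

variable {G : Type} [Group G] {M P : ℕ}

/-- `s ∉ O_{p'}(F)` is detected by a commutator (step (a)) -/
theorem tw_J_detect {F : Type} [Group F] [Finite F] (hcop : Nat.Coprime M P) (hM : 0 < M)
    (hP : 0 < P) (hsol : Group.IsSolvable F) (hexp : ∀ x : F, x ^ (M * P) = 1) {s : F}
    (hs : s ^ M = 1) (h : ¬ InO M (⊤ : Subgroup F) s) :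
    ∃ k : F, (s⁻¹ * (k⁻¹ * s * k)) ^ M ≠ 1 := by
  have hsN : s ∉ krad M F := fun h1 => h ((tw_mem_krad_iff hcop hexp).1 h1)
  let f := QuotientGroup.mk' (krad M F)
  have hf : Function.Surjective f := QuotientGroup.mk'_surjective (krad M F)
  have hexpH : ∀ y : F ⧸ krad M F, y ^ (M * P) = 1 := tw_exp_quot hexp (krad M F)
  have hsolH : Group.IsSolvable (F ⧸ krad M F) := by
    haveI := hsol
    exact Group.isSolvable_of_surjective hf
  have hkr : krad M (F ⧸ krad M F) = ⊥ := tw_krad_quot hcop hexp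
  have hfs : f s ≠ 1 := by
    intro h1
    exact hsN ((QuotientGroup.eq_one_iff s).1 h1)
  have hfsm : (f s) ^ M = 1 := by rw [← map_pow, hs, map_one]
  have hPP : ∀ y ∈ krad P (F ⧸ krad M F), y ^ P = 1 :=
    tw_krad_pow hcop.symm (tw_exp_comm hexpH)
  by_contra hcon
  push Not at hcon
  have hcent : ∀ p ∈ krad P (F ⧸ krad M F), f s * p = p * f s := by
    intro p hp
    obtain ⟨k, rfl⟩ := hf p
    have h1 := hcon k
    have h2 : ((f s)⁻¹ * ((f k)⁻¹ * f s * f k)) ^ M = 1 := by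
      rw [← map_inv, ← map_inv, ← map_mul, ← map_mul, ← map_mul, ← map_pow, h1, map_one]
    have h3 : (f s)⁻¹ * ((f k)⁻¹ * f s * f k) ∈ krad P (F ⧸ krad M F) := by
      have h4 := (krad_normal P (F ⧸ krad M F)).conj_mem (f k)⁻¹ (inv_mem hp) (f s)⁻¹
      have h5 := mul_mem h4 hp
      have h6 : (f s)⁻¹ * (f k)⁻¹ * (f s)⁻¹⁻¹ * f k = (f s)⁻¹ * ((f k)⁻¹ * f s * f k) := by group
      rwa [h6] at h5
    have h7 := tw_one hcop h2 (hPP _ h3)
    have h8 : (f k)⁻¹ * f s * f k = f s := (inv_mul_eq_one.1 h7).symm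
    calc f s * f k = f k * ((f k)⁻¹ * f s * f k) := by group
      _ = f k * f s := by rw [h8]
  have h9 := fr_fitting hcop.symm hP hM hsolH (tw_exp_comm hexpH) hkr hcent
  exact hfs (tw_one hcop hfsm (hPP _ h9))

/-- step (a) for a finite solvable subgroup -/
theorem tw_J_detect_sub (hcop : Nat.Coprime M P) (hM : 0 < M) (hP : 0 < P)
    (hexp : ∀ x : G, x ^ (M * P) = 1) (T : Subgroup G) [Finite T]
    (hsol : Group.IsSolvable T) {s : G} (hsT : s ∈ T) (hs : s ^ M = 1) (h : ¬ InO M T s) :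
    ∃ k ∈ T, (s⁻¹ * (k⁻¹ * s * k)) ^ M ≠ 1 := by
  have h' : ¬ InO M (⊤ : Subgroup T) (⟨s, hsT⟩ : T) := by
    rw [InO.top_iff]; exact h
  obtain ⟨k, hk2⟩ := tw_J_detect hcop hM hP hsol (tw_exp_sub hexp T)
    (s := (⟨s, hsT⟩ : T)) (Subtype.ext (by simpa using hs)) h'
  refine ⟨k, k.2, ?_⟩
  intro h1
  apply hk2
  exact Subtype.ext (by simpa using h1)

/-- step (b) -/
theorem tw_J_conj (hcop : Nat.Coprime M P) (hexp : ∀ x : G, x ^ (M * P) = 1) {s k : G}
    (hs : s ^ M = 1) (h : (s⁻¹ * (k⁻¹ * s * k)) ^ M ≠ 1) :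
    ¬ InO M (closure {s, k⁻¹ * s * k}) s := by
  rintro ⟨N, h1, h2, h3, h4⟩
  apply h
  have hs' : (k⁻¹ * s * k) ^ M = 1 := by
    have := conj_pow (i := M) (a := k⁻¹) (b := s)
    rw [inv_inv] at this
    rw [this, hs]; group
  have hb : k⁻¹ * s * k ∈ closure {s, k⁻¹ * s * k} := subset_closure (by simp)
  generalize k⁻¹ * s * k = y at *
  apply tw_MM hcop hexp
  apply h4
  have key : ∀ j : ℕ, (s⁻¹ * y) ^ j * (y ^ j)⁻¹ ∈ N := by
    intro j
    induction j with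
    | zero => simp [N.one_mem]
    | succ j ih =>
      have h5 := h3 y hb _ ih
      have h6 := N.mul_mem (N.inv_mem h2) h5
      have h7 : s⁻¹ * (y * ((s⁻¹ * y) ^ j * (y ^ j)⁻¹) * y⁻¹) =
          (s⁻¹ * y) ^ (j + 1) * (y ^ (j + 1))⁻¹ := by
        rw [pow_succ' (s⁻¹ * y), pow_succ' y j, mul_inv_rev]
        group
      rw [← h7]; exact h6
  have := key M
  rwa [hs', inv_one, mul_one] at this

/-- (J): general form of `fr_J` (file FrJ.lean, exponent `4 * m`); same proof with `M`, `P` in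
place of `m`, `4` (`fr_detect`, `fr_not_InO_conj`, `fr_J`).

Proof. Let `T` be the given finite solvable group, `s ∉ O_{p'}(T)` (i.e. `¬ InO M T s`).
(a) there is `k ∈ T` with `(s⁻¹ * (k⁻¹ * s * k)) ^ M ≠ 1`: work in `F = ↥T`, `R = krad M F`,
`F ⧸ R` has `krad M (F ⧸ R) = ⊥` (`tw_krad_quot`), the image of `s` is `≠ 1`, so (`fr_fitting` with
`k = P`, `l = M`) it does not commute with some `w ∈ krad P (F ⧸ R)` (otherwise it lies in
`krad P`, so it has order dividing `M` and `P`, so it is `1`). Then `[s, w] ≠ 1` lies in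
`krad P (F ⧸ R)`, so `[s, w] ^ M ≠ 1`.
(b) so `¬ InO M (closure {s, k⁻¹ * s * k}) s`: otherwise (conjugating) also
`k⁻¹ * s * k ∈ O_{p'}`, the product `s⁻¹ * (k⁻¹ * s * k)` would be of order dividing `M`
(see `fr_not_InO_conj`).
(c) choose `T₀ ≤ T` of minimal order with `s ∈ T₀`, `¬ InO M T₀ s` and apply (a), (b) in `T₀`:
`k ∈ T₀`, `closure {s, k⁻¹ * s * k} ≤ T₀`, so it is equal to `T₀` by minimality. -/
theorem tw_J (hcop : Nat.Coprime M P) (hM : 0 < M) (hP : 0 < P)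
    (hexp : ∀ x : G, x ^ (M * P) = 1) (T : Subgroup G) [Finite T]
    (hsol : Group.IsSolvable T) {s : G} (hsT : s ∈ T) (hs : s ^ M = 1) (h : ¬ InO M T s) :
    ∃ k ∈ T, k ∈ closure {s, k⁻¹ * s * k} ∧ ¬ InO M (closure {s, k⁻¹ * s * k}) s := by
  have main : ∀ n : ℕ, ∀ (T : Subgroup G), Finite T → Group.IsSolvable T → s ∈ T →
      ¬ InO M T s → Nat.card T = n →
      ∃ k ∈ T, k ∈ closure {s, k⁻¹ * s * k} ∧ ¬ InO M (closure {s, k⁻¹ * s * k}) s := by
    intro n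
    induction n using Nat.strong_induction_on with
    | _ n ih =>
    intro T hfT hsT' hsT h hn
    obtain ⟨k, hkT, hk⟩ := tw_J_detect_sub hcop hM hP hexp T hsT' hsT hs h
    have hJ := tw_J_conj hcop hexp hs hk
    have hJT : closure {s, k⁻¹ * s * k} ≤ T := by
      rw [closure_le]
      rintro y (rfl | rfl)
      · exact hsT
      · exact mul_mem (mul_mem (inv_mem hkT) hsT) hkT
    by_cases hkJ : k ∈ closure {s, k⁻¹ * s * k}
    · exact ⟨k, hkT, hkJ, hJ⟩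
    · have hfJ : Finite (closure {s, k⁻¹ * s * k}) :=
        Finite.of_injective _ (Subgroup.inclusion_injective hJT)
      have hsJ : Group.IsSolvable (closure {s, k⁻¹ * s * k}) :=
        Group.isSolvable_of_isSolvable_injective (Subgroup.inclusion_injective hJT)
      have hlt : Nat.card (closure {s, k⁻¹ * s * k}) < n := by
        rw [← hn]
        have hss : ((closure {s, k⁻¹ * s * k} : Subgroup G) : Set G) ⊂ (T : Set G) := by
          refine ⟨hJT, ?_⟩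
          intro h1
          exact hkJ (h1 hkT)
        exact Set.ncard_lt_ncard hss (Set.toFinite _)
      obtain ⟨k', hk1, hk2, hk3⟩ := ih _ hlt _ hfJ hsJ (subset_closure (by simp)) hJ rfl
      exact ⟨k', hJT hk1, hk2, hk3⟩
  exact main _ T inferInstance hsol hsT h rfl

end Pool.Agent.Lib.MP_544bd1_al
end

section

/-!
Two generators, part 2: coprime action.
-/

namespace Pool.Agent.Lib.MP_544bd1_al

open Subgroup

variable {F : Type} [Group F]

/-- a coset of `N` normalized by the `s`-element `r` contains an element commuting with `r` -/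
theorem tw_abz_fix {p s k : ℕ} (hp : p.Prime) (hs : s.Prime) (hps : p ≠ s) {r : F}
    (hr : r ^ (s ^ k) = 1) (N : Subgroup F) [Finite N] (hN : IsPGroup p N)
    (hNr : ∀ x ∈ N, r * x * r⁻¹ ∈ N) {x : F} (h : x⁻¹ * (r * x * r⁻¹) ∈ N) :
    ∃ y : F, x⁻¹ * y ∈ N ∧ r * y = y * r := by
  have hfp : Fact p.Prime := ⟨hp⟩
  have hfs : Fact s.Prime := ⟨hs⟩
  have hpow : ∀ j : ℕ, ∀ y : F, x⁻¹ * y ∈ N → x⁻¹ * (r ^ j * y * (r ^ j)⁻¹) ∈ N := by
    intro j
    induction j with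
    | zero => intro y hy; simpa using hy
    | succ j ih =>
      intro y hy
      have h1 := ih y hy
      have h2 := N.mul_mem h (hNr _ h1)
      have h3 : x⁻¹ * (r * x * r⁻¹) * (r * (x⁻¹ * (r ^ j * y * (r ^ j)⁻¹)) * r⁻¹) =
          x⁻¹ * (r ^ (j + 1) * y * (r ^ (j + 1))⁻¹) := by
        rw [pow_succ' r, mul_inv_rev]
        group
      rwa [h3] at h2
  have hpos : 0 < s ^ k := Nat.pos_of_ne_zero (pow_ne_zero _ hs.ne_zero)
  have hf : IsOfFinOrder r := isOfFinOrder_iff_pow_eq_one.2 ⟨s ^ k, hpos, hr⟩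
  have hz : ∀ g ∈ zpowers r, ∀ y : F, x⁻¹ * y ∈ N → x⁻¹ * (g * y * g⁻¹) ∈ N := by
    intro g hg y hy
    rw [← hf.mem_powers_iff_mem_zpowers] at hg
    obtain ⟨j, rfl⟩ := hg
    exact hpow j y hy
  let S : Type := {y : F // x⁻¹ * y ∈ N}
  let act : MulAction (zpowers r) S :=
    { smul := fun g y => ⟨(g : F) * y.1 * (g : F)⁻¹, hz g g.2 y.1 y.2⟩
      one_smul := by
        rintro ⟨y, hy⟩
        apply Subtype.ext
        show ((1 : zpowers r) : F) * y * ((1 : zpowers r) : F)⁻¹ = y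
        simp
      mul_smul := by
        rintro g g' ⟨y, hy⟩
        apply Subtype.ext
        show ((g * g' : zpowers r) : F) * y * ((g * g' : zpowers r) : F)⁻¹ =
          (g : F) * ((g' : F) * y * (g' : F)⁻¹) * (g : F)⁻¹
        rw [Subgroup.coe_mul, mul_inv_rev]
        group }
  let e : S ≃ N :=
    { toFun := fun y => ⟨x⁻¹ * y.1, y.2⟩
      invFun := fun n => ⟨x * n.1, by
        show x⁻¹ * (x * n.1) ∈ N
        rw [inv_mul_cancel_left]
        exact n.2⟩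
      left_inv := by
        rintro ⟨y, hy⟩
        apply Subtype.ext
        show x * (x⁻¹ * y) = y
        rw [mul_inv_cancel_left]
      right_inv := by
        rintro ⟨n, hn⟩
        apply Subtype.ext
        show x⁻¹ * (x * n) = n
        rw [inv_mul_cancel_left] }
  have hfinS : Finite S := Finite.of_equiv _ e.symm
  have hG : IsPGroup s (zpowers r) := by
    rintro ⟨g, hg⟩
    rw [← hf.mem_powers_iff_mem_zpowers] at hg
    obtain ⟨j, rfl⟩ := hg
    refine ⟨k, ?_⟩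
    apply Subtype.ext
    show (r ^ j) ^ (s ^ k) = 1
    rw [← pow_mul, mul_comm, pow_mul, hr, one_pow]
  have hcard := hG.card_modEq_card_fixedPoints S
  rw [Nat.card_congr e] at hcard
  obtain ⟨j, hj⟩ := IsPGroup.iff_card.1 hN
  have hne : Nat.card (MulAction.fixedPoints (zpowers r) S) ≠ 0 := by
    intro h0
    rw [h0, hj] at hcard
    have h1 : s ∣ p ^ j := (Nat.modEq_zero_iff_dvd).1 hcard
    exact hps ((Nat.prime_dvd_prime_iff_eq hs hp).1 (hs.dvd_of_dvd_pow h1)).symm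
  obtain ⟨⟨y, hy⟩⟩ := (Nat.card_ne_zero.1 hne).1
  refine ⟨y.1, y.2, ?_⟩
  have h1 := hy ⟨r, mem_zpowers r⟩
  have h2 : r * y.1 * r⁻¹ = y.1 := congrArg Subtype.val h1
  calc r * y.1 = (r * y.1 * r⁻¹) * r := by group
    _ = y.1 * r := by rw [h2]

/-- coprime action: if the `s`-element `r` normalizes the finite `p`-group `P` and acts trivially
modulo a non-generating subgroup `N`, then it centralizes `P`.
Proof. `zpowers r` (a finite `s`-group) acts on the set `x N` (`x ∈ P`) by conjugation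
(`r * x * n * r⁻¹ = x * (x⁻¹ * (r * x * r⁻¹)) * (r * n * r⁻¹)`), and `Nat.card N` is a power of `p`,
so not divisible by `s`: there is a fixed point (`IsPGroup.card_modEq_card_fixedPoints`). So
`P = C N` with `C` the centralizer of `r` in `P`, and `C = P` by `hNg`. -/
theorem tw_abz {p s k : ℕ} (hp : p.Prime) (hs : s.Prime) (hps : p ≠ s) (P : Subgroup F)
    [Finite P] (hP : IsPGroup p P) {r : F} (hr : r ^ (s ^ k) = 1)
    (hn : ∀ x ∈ P, r * x * r⁻¹ ∈ P) (N : Subgroup F) (hNP : N ≤ P)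
    (hNr : ∀ x ∈ N, r * x * r⁻¹ ∈ N)
    (hNg : ∀ C : Subgroup F, C ≤ P → (∀ x ∈ P, ∃ c ∈ C, ∃ n ∈ N, x = c * n) → C = P)
    (h : ∀ x ∈ P, x⁻¹ * (r * x * r⁻¹) ∈ N) : ∀ x ∈ P, r * x = x * r := by
  have hfinN : Finite N := Finite.of_injective _ (Subgroup.inclusion_injective hNP)
  have hNp : IsPGroup p N := hP.of_injective _ (Subgroup.inclusion_injective hNP)
  have hC : P ⊓ centralizer {r} = P := by
    apply hNg _ inf_le_left
    intro x hx
    obtain ⟨y, hy, hry⟩ := tw_abz_fix hp hs hps hr N hNp hNr (h x hx)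
    have hyP : y ∈ P := by
      have h1 := P.mul_mem hx (hNP hy)
      rwa [mul_inv_cancel_left] at h1
    refine ⟨y, Subgroup.mem_inf.2 ⟨hyP, ?_⟩, y⁻¹ * x, ?_, by group⟩
    · rw [mem_centralizer_singleton_iff]
      exact hry.symm
    · have h1 := N.inv_mem hy
      rwa [mul_inv_rev, inv_inv] at h1
  intro x hx
  rw [← hC] at hx
  have h1 := (Subgroup.mem_inf.1 hx).2
  rw [mem_centralizer_singleton_iff] at h1
  exact h1.symm

/-- coprime action on a chain: if `r ^ M = 1`, `r` normalizes `P` (exponent `P'`, coprime to `M`)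
and `r` commutes with all commutators `[x, r]`, `x ∈ P`, then `r` centralizes `P`.
(Same proof as `fr_coprime_trivial` in FrE.lean.) -/
theorem tw_coprime_trivial {M P' : ℕ} (hcop : Nat.Coprime M P') (P : Subgroup F)
    (hP : ∀ x ∈ P, x ^ P' = 1) {r : F} (hr : r ^ M = 1) (hn : ∀ x ∈ P, r * x * r⁻¹ ∈ P)
    (h : ∀ x ∈ P, r * (x⁻¹ * (r * x * r⁻¹)) = (x⁻¹ * (r * x * r⁻¹)) * r) :
    ∀ x ∈ P, r * x = x * r := by
  intro x hx
  obtain ⟨d, hd⟩ : ∃ d, d = x⁻¹ * (r * x * r⁻¹) := ⟨_, rfl⟩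
  have hdP : d ∈ P := by
    rw [hd]
    exact P.mul_mem (P.inv_mem hx) (hn x hx)
  have hsd : r * d = d * r := by
    rw [hd]
    exact h x hx
  have hsx : r * x * r⁻¹ = x * d := by rw [hd]; group
  have key : ∀ k : ℕ, r ^ k * x * (r ^ k)⁻¹ = x * d ^ k := by
    intro k
    induction k with
    | zero => simp
    | succ k ih =>
      have h1 : r ^ (k + 1) * x * (r ^ (k + 1))⁻¹ = r * (r ^ k * x * (r ^ k)⁻¹) * r⁻¹ := by
        rw [pow_succ' r]; group
      rw [h1, ih]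
      have h2 : r * d ^ k = d ^ k * r := ((show Commute r d from hsd).pow_right k).eq
      calc r * (x * d ^ k) * r⁻¹ = (r * x * r⁻¹) * (r * d ^ k) * r⁻¹ := by group
        _ = x * d * (d ^ k * r) * r⁻¹ := by rw [hsx, h2]
        _ = x * d ^ (k + 1) := by rw [pow_succ' d]; group
  have h1 := key M
  rw [hr, inv_one, mul_one, one_mul] at h1
  have h2 : d ^ M = 1 := by
    have : x * 1 = x * d ^ M := by rw [mul_one]; exact h1
    exact (mul_left_cancel this).symm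
  have h3 : d = 1 := tw_one hcop h2 (hP d hdP)
  rw [h3, mul_one] at hsx
  calc r * x = (r * x * r⁻¹) * r := by group
    _ = x * r := by rw [hsx]

end Pool.Agent.Lib.MP_544bd1_al
end
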