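import Mathlib
import Pool.Agent.Lib.MP_544bd1_al.TwS3
import Pool.Agent.Lib.MP_544bd1_al.FrB
import Pool.Agent.Lib.MP_544bd1_al.TwR4

section

/-!
Theorem G' (paper 275): an M-element not commuting with h_1.
-/

namespace Pool.Agent.Lib.MP_544bd1_al

open Subgroup

variable {M r b c : ℕ} {F : Type} [Group F] [Finite F]

/-- **An `M`-element `g` not commuting with `h₁ = h ^ (r ^ (c - 1))` modulo `O_{r',r}(F)`.**

Proof. `H = GH M (r ^ b) F`; `krad (r ^ b) H = ⊥` (`tw_krad_quot` for `F ⧸ krad M F`, with `M` and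
`r ^ b` exchanged), `H` is solvable, `gp h₁ ≠ 1` (`D.gp_iff`, `hB.2`), `(gp h₁) ^ (r ^ b) = 1`. By
`fr_fitting` (FrB.lean; `k := M`, `l := r ^ b`): if `gp h₁` commuted with `krad M H`, it would be in
`krad M H` (exponent `M`, `tw_krad_pow`), so `gp h₁ = 1` (`tw_one`). So there is
`g₀ ∈ krad M H` with `gp h₁ * g₀ ≠ g₀ * gp h₁`. Let `gp g₁ = g₀` (`gp_surj`), and `N` with `N ≡ 1` mod
`M`, `N ≡ 0` mod `r ^ b` (`Nat.chineseRemainder`); `g = g₁ ^ N`: `g ^ M = 1` (`D.hexp`),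
`gp g = g₀ ^ N = g₀`. -/
theorem gp_g0 (D : GpMin M r b c F) {h : F} (hB : GpB M r b c h) :
    ∃ g : F, g ^ M = 1 ∧ gp M (r ^ b) F g ∈ krad M (GH M (r ^ b) F) ∧
      gp M (r ^ b) F (h ^ (r ^ (c - 1)) * g) ≠ gp M (r ^ b) F (g * h ^ (r ^ (c - 1))) := by
  have hcop := D.cop
  have hsol := D.sol
  have hP : 0 < r ^ b := pow_pos D.hr.pos b
  have hexp := D.hexp
  have hexp1 : ∀ x : F ⧸ krad M F, x ^ (r ^ b * M) = 1 := by
    intro x
    obtain ⟨y, rfl⟩ := QuotientGroup.mk'_surjective _ x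
    rw [← map_pow, mul_comm, hexp, map_one]
  have hbot : krad (r ^ b) (GH M (r ^ b) F) = ⊥ := tw_krad_quot hcop.symm hexp1
  have hexpH : ∀ x : GH M (r ^ b) F, x ^ (M * r ^ b) = 1 := gp_exp hexp
  have hsolH : Group.IsSolvable (GH M (r ^ b) F) := Group.isSolvable_of_surjective gp_surj
  set h1 : F := h ^ (r ^ (c - 1)) with hh1
  have hne : gp M (r ^ b) F h1 ≠ 1 := fun h => hB.2 (D.gp_iff.1 h)
  have hpow : (gp M (r ^ b) F h1) ^ (r ^ b) = 1 := by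
    have h2 : h1 ^ (r ^ b) = 1 := by
      obtain ⟨q, hq⟩ : r ^ c ∣ r ^ (c - 1) * r ^ b := by
        rw [← pow_add]
        apply pow_dvd_pow
        have := D.hcb
        have := D.hc
        omega
      rw [hh1, ← pow_mul, hq, pow_mul, hB.1, one_pow]
    rw [← map_pow, h2, map_one]
  have hex : ∃ g₀ ∈ krad M (GH M (r ^ b) F), gp M (r ^ b) F h1 * g₀ ≠ g₀ * gp M (r ^ b) F h1 := by
    by_contra hcon
    push Not at hcon
    have h3 := fr_fitting hcop D.hM hP hsolH hexpH hbot hcon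
    exact hne (tw_one hcop (tw_krad_pow hcop hexpH _ h3) hpow)
  obtain ⟨g₀, hg₀, hg₀'⟩ := hex
  obtain ⟨g₁, hg₁⟩ := gp_surj (M := M) (P := r ^ b) g₀
  obtain ⟨N, hN1, hN2⟩ := Nat.chineseRemainder hcop 1 0
  have hN3 : r ^ b ∣ N := (Nat.modEq_zero_iff_dvd).1 hN2
  have hgN : gp M (r ^ b) F (g₁ ^ N) = g₀ := by
    rw [map_pow, hg₁]
    have h4 : g₀ ^ N = g₀ ^ 1 := by
      rw [pow_eq_pow_iff_modEq]
      exact hN1.of_dvd (orderOf_dvd_of_pow_eq_one (tw_krad_pow hcop hexpH _ hg₀))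
    rw [h4, pow_one]
  refine ⟨g₁ ^ N, ?_, ?_, ?_⟩
  · obtain ⟨q, hq⟩ := hN3
    rw [← pow_mul, hq, show r ^ b * q * M = M * r ^ b * q by ring, pow_mul, hexp, one_pow]
  · rw [hgN]; exact hg₀
  · rw [map_mul, map_mul, hgN]; exact hg₀'

end Pool.Agent.Lib.MP_544bd1_al
end

section

/-!
Two generators, part 2: group theory of the minimal configuration (step L4).
-/

namespace Pool.Agent.Lib.MP_544bd1_al

open Subgroup
open scoped commutatorElement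

variable {F : Type} [Group F]

/-- if `z` centralizes `N` and `N` is normalized by `Γ`, then `N` is centralized by the closure of
the elements `[x, z]`, `x ∈ Γ` -/
theorem tw_L4_three (Γ N : Subgroup F) {z : F} (hN : ∀ g ∈ Γ, ∀ d ∈ N, g * d * g⁻¹ ∈ N)
    (hz : ∀ d ∈ N, z * d = d * z) :
    ∀ d ∈ N, ∀ w ∈ closure {c : F | ∃ x ∈ Γ, c = x⁻¹ * (z * x * z⁻¹)}, d * w = w * d := by
  intro d hd w hw
  have h1 : closure {c : F | ∃ x ∈ Γ, c = x⁻¹ * (z * x * z⁻¹)} ≤ centralizer {d} := by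
    rw [closure_le]
    rintro c ⟨x, hx, rfl⟩
    rw [SetLike.mem_coe, mem_centralizer_singleton_iff]
    have h2 := hz _ (hN x hx d hd)
    have h3 := hz d hd
    have h4 : z⁻¹ * d = d * z⁻¹ := by
      rw [inv_mul_eq_iff_eq_mul, ← mul_assoc, h3, mul_assoc, mul_inv_cancel, mul_one]
    have h5 : z * (x * d) = x * d * x⁻¹ * z * x := by
      have h6 : z * (x * d) = z * (x * d * x⁻¹) * x := by group
      rw [h6, h2]
    calc x⁻¹ * (z * x * z⁻¹) * d = x⁻¹ * (z * x) * (z⁻¹ * d) := by group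
      _ = x⁻¹ * (z * (x * d)) * z⁻¹ := by rw [h4]; group
      _ = d * (x⁻¹ * (z * x * z⁻¹)) := by rw [h5]; group
  have h2 := h1 hw
  rw [mem_centralizer_singleton_iff] at h2
  exact h2.symm

/-- step (L4).
Proof. Write `[x, z] = x⁻¹ * (z * x * z⁻¹)`, `Z(Γ)` = center of `Γ`. `z` and `u` commute, `z ^ p = 1`,
`z` normalizes `Γ`.
(0) Let `D = closure {[x, z] | x ∈ Γ} ≤ Γ`: normalized by `u`. If `D ≠ Γ` then `z` centralizes `D`
(`hmin`), so `z` centralizes `Γ` (`tw_coprime_trivial` with `M := p`, `P' := Nat.card Γ`),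
contradiction. So `D = Γ`.
(1) `⁅Γ, Γ⁆ ≠ Γ` (`Γ` is a nontrivial finite `r`-group, so nilpotent/solvable), it is normalized by
`u`, so `z` centralizes `⁅Γ, Γ⁆`. Three subgroups lemma (`Subgroup.commutator_commutator_eq_bot_of_rotate`,
in the group `F`) for `⁅Γ, Γ⁆`, `Γ`, `zpowers z`: `⁅⁅⁅Γ,Γ⁆, Γ⁆, ⟨z⟩⁆ = ⊥`, `⁅⁅⟨z⟩, ⁅Γ,Γ⁆⁆, Γ⁆ = ⊥`, so
`⁅⁅Γ, ⟨z⟩⁆, ⁅Γ,Γ⁆⁆ = ⊥`, and `⁅Γ, ⟨z⟩⁆ ≥ D = Γ`. So `⁅Γ, Γ⁆` is central in `Γ`.
(Direct computation is also possible: for `d ∈ ⁅Γ,Γ⁆` and `x ∈ Γ`, `x⁻¹ * d * x ∈ ⁅Γ,Γ⁆` commutes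
with `z`, so `d` commutes with `x * z * x⁻¹`, and with `z`, so with `[x, z]`-type elements, which
generate `Γ`.)
(2) Let `E = {x ∈ Γ | [x, z] ∈ Z(Γ)}`: a subgroup of `Γ` containing `Z(Γ)` (by `hZ`) and `⁅Γ, Γ⁆`,
normalized by `u`. `E ≠ Γ`: otherwise all generators `[x, z]` of `D = Γ` are central in `Γ`, so `Γ`
is abelian and `hZ` contradicts `hno`. So `z` centralizes `E` (`hmin`). `E` is normalized by `Γ` (it
contains `⁅Γ, Γ⁆`), so as in (1) `E` is centralized by `D = Γ`. -/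
theorem tw_L4 {p r a : ℕ} (hp : p.Prime) (hr : r.Prime) (hrp : r ≠ p) (ha : 0 < a)
    (Γ : Subgroup F) [Finite Γ] (hΓ : IsPGroup r Γ) {u z : F} (hu : u ^ (p ^ a) = 1)
    (hz : z = u ^ (p ^ (a - 1))) (huΓ : ∀ x ∈ Γ, u * x * u⁻¹ ∈ Γ)
    (hmin : ∀ D : Subgroup F, D ≤ Γ → D ≠ Γ → (∀ x ∈ D, u * x * u⁻¹ ∈ D) →
      ∀ x ∈ D, z * x = x * z)
    (hno : ∃ x ∈ Γ, z * x ≠ x * z)
    (hZ : ∀ x ∈ Γ, (∀ y ∈ Γ, x * y = y * x) → z * x = x * z) :
    (∀ x ∈ Γ, ∀ y ∈ Γ, ∀ w ∈ Γ, (x * y * x⁻¹ * y⁻¹) * w = w * (x * y * x⁻¹ * y⁻¹)) ∧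
    (∀ x ∈ Γ, (∀ w ∈ Γ, (x⁻¹ * (z * x * z⁻¹)) * w = w * (x⁻¹ * (z * x * z⁻¹))) →
      ∀ w ∈ Γ, x * w = w * x) := by
  have hfr : Fact r.Prime := ⟨hr⟩
  have hzu : Commute z u := by
    rw [hz]
    exact (Commute.refl u).pow_left _
  have hzp : z ^ p = 1 := by
    rw [hz, ← pow_mul, ← pow_succ, Nat.sub_add_cancel ha, hu]
  -- powers of `u` normalize `Γ`
  have hpow : ∀ k : ℕ, ∀ x ∈ Γ, u ^ k * x * (u ^ k)⁻¹ ∈ Γ := by
    intro k
    induction k with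
    | zero => intro x hx; simpa using hx
    | succ k ih =>
      intro x hx
      have h1 := huΓ _ (ih x hx)
      have h2 : u * (u ^ k * x * (u ^ k)⁻¹) * u⁻¹ = u ^ (k + 1) * x * (u ^ (k + 1))⁻¹ := by
        rw [pow_succ' u k, mul_inv_rev]
        group
      rwa [h2] at h1
  have hzΓ : ∀ x ∈ Γ, z * x * z⁻¹ ∈ Γ := by
    rw [hz]
    exact hpow _
  have hui : ∀ x ∈ Γ, u⁻¹ * x * u ∈ Γ := by
    intro x hx
    have h1 : u ^ (p ^ a - 1) = u⁻¹ := by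
      have h2 : u ^ (p ^ a - 1) * u = 1 := by
        rw [← pow_succ, Nat.sub_add_cancel (Nat.pos_of_ne_zero (pow_ne_zero _ hp.ne_zero)), hu]
      exact eq_inv_of_mul_eq_one_left h2
    have h3 := hpow (p ^ a - 1) x hx
    rwa [h1, inv_inv] at h3
  -- behaviour of `[x, z]` under conjugation by `u`
  have hcu : ∀ x : F, u * (x⁻¹ * (z * x * z⁻¹)) * u⁻¹ =
      (u * x * u⁻¹)⁻¹ * (z * (u * x * u⁻¹) * z⁻¹) := by
    intro x
    have h1 : z * (u * x * u⁻¹) * z⁻¹ = u * (z * x * z⁻¹) * u⁻¹ := by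
      have h2 : z * u = u * z := hzu
      have h3 : u⁻¹ * z⁻¹ = z⁻¹ * u⁻¹ := by rw [← mul_inv_rev, h2, mul_inv_rev]
      calc z * (u * x * u⁻¹) * z⁻¹ = (z * u) * x * (u⁻¹ * z⁻¹) := by group
        _ = (u * z) * x * (z⁻¹ * u⁻¹) := by rw [h2, h3]
        _ = _ := by group
    rw [h1]
    group
  set D : Subgroup F := closure {c : F | ∃ x ∈ Γ, c = x⁻¹ * (z * x * z⁻¹)} with hD
  have hDΓ : D ≤ Γ := by
    rw [hD, closure_le]
    rintro c ⟨x, hx, rfl⟩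
    exact Γ.mul_mem (Γ.inv_mem hx) (hzΓ x hx)
  have hDu : ∀ x ∈ D, u * x * u⁻¹ ∈ D := by
    have h1 : D ≤ D.comap (MulAut.conj u).toMonoidHom := by
      conv_lhs => rw [hD]
      rw [closure_le]
      rintro c ⟨x, hx, rfl⟩
      rw [SetLike.mem_coe, mem_comap]
      have h2 : (MulAut.conj u).toMonoidHom (x⁻¹ * (z * x * z⁻¹)) =
          u * (x⁻¹ * (z * x * z⁻¹)) * u⁻¹ := by simp
      rw [h2, hcu]
      exact subset_closure ⟨u * x * u⁻¹, huΓ x hx, rfl⟩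
    intro x hx
    have h2 := h1 hx
    rw [mem_comap] at h2
    simpa using h2
  have hDeq : D = Γ := by
    by_contra hne
    have h1 := hmin D hDΓ hne hDu
    obtain ⟨k, hk⟩ := IsPGroup.iff_card.1 hΓ
    have hcop : Nat.Coprime p (Nat.card Γ) := by
      rw [hk]
      exact Nat.Coprime.pow_right k ((Nat.coprime_primes hp hr).2 hrp.symm)
    have hP : ∀ x ∈ Γ, x ^ (Nat.card Γ) = 1 := by
      intro x hx
      have h2 : (⟨x, hx⟩ : Γ) ^ Nat.card Γ = 1 := pow_card_eq_one'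
      have h3 := congrArg Subtype.val h2
      rw [SubmonoidClass.coe_pow] at h3
      exact h3
    have h4 := tw_coprime_trivial hcop Γ hP hzp hzΓ
      (fun x hx => h1 _ (subset_closure ⟨x, hx, rfl⟩))
    obtain ⟨x, hx, hx'⟩ := hno
    exact hx' (h4 x hx)
  -- the commutator subgroup
  have hΓt : Nontrivial Γ := by
    rw [Subgroup.nontrivial_iff_ne_bot]
    intro hb
    obtain ⟨x, hx, hx'⟩ := hno
    rw [hb, mem_bot] at hx
    rw [hx] at hx'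
    simp at hx'
  have hcomm_ne : ⁅Γ, Γ⁆ ≠ Γ := by
    intro h1
    have hnil : Group.IsNilpotent Γ := hΓ.isNilpotent
    have h2 : _root_.commutator Γ < ⊤ := Group.IsSolvable.commutator_lt_top_of_nontrivial Γ
    apply h2.ne
    rw [eq_top_iff]
    intro x _
    have h3 : (x : F) ∈ (_root_.commutator Γ).map Γ.subtype := by
      rw [map_subtype_commutator, h1]
      exact x.2
    obtain ⟨y, hy, hyx⟩ := h3
    have : y = x := Γ.subtype_injective hyx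
    rwa [← this]
  have hcommΓ : ⁅Γ, Γ⁆ ≤ Γ := by
    rw [commutator_le]
    intro x hx y hy
    exact Γ.mul_mem (Γ.mul_mem (Γ.mul_mem hx hy) (Γ.inv_mem hx)) (Γ.inv_mem hy)
  have hcommu : ∀ x ∈ ⁅Γ, Γ⁆, u * x * u⁻¹ ∈ ⁅Γ, Γ⁆ := by
    have h1 : ⁅Γ, Γ⁆ ≤ (⁅Γ, Γ⁆).comap (MulAut.conj u).toMonoidHom := by
      rw [commutator_le]
      intro x hx y hy
      rw [mem_comap, map_commutatorElement]
      apply commutator_mem_commutator
      · simpa using huΓ x hx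
      · simpa using huΓ y hy
    intro x hx
    have h2 := h1 hx
    rw [mem_comap] at h2
    simpa using h2
  have hcommΓn : ∀ g ∈ Γ, ∀ d ∈ ⁅Γ, Γ⁆, g * d * g⁻¹ ∈ ⁅Γ, Γ⁆ := by
    intro g hg d hd
    have h1 : g * d * g⁻¹ = ⁅g, d⁆ * d := by
      rw [commutatorElement_def]
      group
    rw [h1]
    exact mul_mem (commutator_mem_commutator hg (hcommΓ hd)) hd
  have hzc := hmin _ hcommΓ hcomm_ne hcommu
  have hcent : ∀ d ∈ ⁅Γ, Γ⁆, ∀ w ∈ Γ, d * w = w * d := by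
    intro d hd w hw
    rw [← hDeq] at hw
    exact tw_L4_three Γ _ hcommΓn hzc d hd w hw
  refine ⟨?_, ?_⟩
  · intro x hx y hy w hw
    have h1 : x * y * x⁻¹ * y⁻¹ ∈ ⁅Γ, Γ⁆ := commutator_mem_commutator hx hy
    exact hcent _ h1 w hw
  -- the subgroup `E`
  let E : Subgroup F :=
    { carrier := {x | x ∈ Γ ∧ ∀ w ∈ Γ, (x⁻¹ * (z * x * z⁻¹)) * w = w * (x⁻¹ * (z * x * z⁻¹))}
      mul_mem' := by
        rintro x y ⟨hx, hx'⟩ ⟨hy, hy'⟩
        refine ⟨Γ.mul_mem hx hy, ?_⟩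
        intro w hw
        have h1 : (x * y)⁻¹ * (z * (x * y) * z⁻¹) =
            (x⁻¹ * (z * x * z⁻¹)) * (y⁻¹ * (z * y * z⁻¹)) := by
          have h2 := hx' y⁻¹ (Γ.inv_mem hy)
          calc (x * y)⁻¹ * (z * (x * y) * z⁻¹)
              = (y⁻¹ * (x⁻¹ * (z * x * z⁻¹))) * (z * y * z⁻¹) := by group
            _ = _ := by rw [← h2]; group
        rw [h1, mul_assoc, hy' w hw, ← mul_assoc, hx' w hw, mul_assoc]
      one_mem' := by
        refine ⟨Γ.one_mem, ?_⟩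
        intro w _
        simp
      inv_mem' := by
        rintro x ⟨hx, hx'⟩
        refine ⟨Γ.inv_mem hx, ?_⟩
        intro w hw
        have h1 : x⁻¹⁻¹ * (z * x⁻¹ * z⁻¹) = (x⁻¹ * (z * x * z⁻¹))⁻¹ := by
          have h2 := hx' x hx
          have h3 : x * (x⁻¹ * (z * x * z⁻¹)) * x⁻¹ = x⁻¹ * (z * x * z⁻¹) := by
            rw [← h2]
            group
          calc x⁻¹⁻¹ * (z * x⁻¹ * z⁻¹) = (x * (x⁻¹ * (z * x * z⁻¹)) * x⁻¹)⁻¹ := by group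
            _ = _ := by rw [h3]
        rw [h1]
        have h4 := hx' w hw
        rw [inv_mul_eq_iff_eq_mul, ← mul_assoc, h4, mul_assoc, mul_inv_cancel, mul_one] }
  have hEΓ : E ≤ Γ := fun x hx => hx.1
  have hEne : E ≠ Γ := by
    intro h1
    obtain ⟨x, hx, hx'⟩ := hno
    apply hx'
    apply hZ x hx
    intro y hy
    have h2 : D ≤ centralizer {x} := by
      rw [hD, closure_le]
      rintro c ⟨t, ht, rfl⟩
      rw [SetLike.mem_coe, mem_centralizer_singleton_iff]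
      have h3 : t ∈ E := by rw [h1]; exact ht
      exact h3.2 x hx
    have h3 : y ∈ D := by rw [hDeq]; exact hy
    have h4 := h2 h3
    rw [mem_centralizer_singleton_iff] at h4
    exact h4.symm
  have hEu : ∀ x ∈ E, u * x * u⁻¹ ∈ E := by
    rintro x ⟨hx, hx'⟩
    refine ⟨huΓ x hx, ?_⟩
    intro w hw
    rw [← hcu]
    have h1 := hx' _ (hui w hw)
    calc u * (x⁻¹ * (z * x * z⁻¹)) * u⁻¹ * w
        = u * ((x⁻¹ * (z * x * z⁻¹)) * (u⁻¹ * w * u)) * u⁻¹ := by group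
      _ = w * (u * (x⁻¹ * (z * x * z⁻¹)) * u⁻¹) := by rw [h1]; group
  have hzE := hmin E hEΓ hEne hEu
  have hEΓn : ∀ g ∈ Γ, ∀ d ∈ E, g * d * g⁻¹ ∈ E := by
    intro g hg d hd
    have h1 : g * d * g⁻¹ = ⁅g, d⁆ * d := by
      rw [commutatorElement_def]
      group
    rw [h1]
    have h2 : ⁅g, d⁆ ∈ ⁅Γ, Γ⁆ := commutator_mem_commutator hg (hEΓ hd)
    refine E.mul_mem ⟨hcommΓ h2, ?_⟩ hd
    intro w _
    have h4 : ∀ c : F, z * c = c * z → c⁻¹ * (z * c * z⁻¹) = 1 := by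
      intro c hc
      rw [hc]
      group
    rw [h4 _ (hzc _ h2), one_mul, mul_one]
  intro x hx hx' w hw
  rw [← hDeq] at hw
  exact tw_L4_three Γ E hEΓn hzE x ⟨hx, hx'⟩ w hw

end Pool.Agent.Lib.MP_544bd1_al
end

section

/-!
Theorem Z (general even exponents `m * 2 ^ a`, `a ≥ 3`, `m` odd; paper 287): definitions.
Conventions: `g` acts on the left, `g * x * g⁻¹`; odd elements are the elements with `x ^ m = 1`,
2-elements those with `x ^ (2 ^ a) = 1`. `κ = g ^ (2 ^ (a - 1))`, `y = g ^ (2 ^ (a - 2))`.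
-/

namespace Pool.Agent.Lib.MP_544bd1_al

open Subgroup

/-- the hypotheses on a counterexample to Theorem Z -/
structure YG (m a : ℕ) (G : Type) [Group G] : Prop where
  hm : Odd m
  ha : 3 ≤ a
  tw : TwG (m * 2 ^ a) G
  noO : NoN m G
  no2 : NoN (2 ^ a) G

/-- `N_g(p)`, the product of the `g ^ l * p * (g ^ l)⁻¹`, `l = 0, ..., M - 1` -/
def ynorm {G : Type} [Group G] (M : ℕ) (g p : G) : G := (p * g) ^ M * (g ^ M)⁻¹

/-- `x ⊥ z`: `z ∈ O_2(⟨z, k⟩)` for all odd `k` inverted by `x` -/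
def YPerp (m a : ℕ) {G : Type} [Group G] (x z : G) : Prop :=
  ∀ k : G, k ^ m = 1 → x * k * x⁻¹ = k⁻¹ → InO (2 ^ a) (closure {z, k}) z

/-- the hypothesis `LC(α, ρ, p)` of Lemma C (section 3); `z = ynorm (2 ^ (a - 1)) α p` -/
structure YLC (m a : ℕ) {G : Type} [Group G] (P : Subgroup G) (α ρ p : G) : Prop where
  fin : Finite P
  sq : ∀ x ∈ P, x ^ 2 = 1
  hp : p ∈ P
  hα : α ^ (2 ^ a) = 1
  hρ : ρ ^ m = 1
  inv : α ^ (2 ^ (a - 2)) * ρ * (α ^ (2 ^ (a - 2)))⁻¹ = ρ⁻¹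
  hαP : ∀ x ∈ P, α * x * α⁻¹ ∈ P
  hρP : ∀ x ∈ P, ρ * x * ρ⁻¹ ∈ P
  cen : ∀ x ∈ P, α ^ (2 ^ (a - 1)) * x = x * α ^ (2 ^ (a - 1))
  ne : ynorm (2 ^ (a - 1)) α p ≠ 1
  gen : ∀ B : Subgroup G, B ≤ P → (∀ x ∈ B, α * x * α⁻¹ ∈ B) → (∀ x ∈ B, ρ * x * ρ⁻¹ ∈ B) →
    ynorm (2 ^ (a - 1)) α p * (ρ * ynorm (2 ^ (a - 1)) α p * ρ⁻¹) ∈ B → B = P

/-- the common part of systems and of `(T_k)`: `g` a 2-element, `τ` a 3-element in `C(g)`,
`P` a finite elementary abelian 2-group containing `p`, normalized by `g` and `τ`, centralized by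
`g ^ (2 ^ (a - 1))`, and `τ ^ (3 ^ k)` commutes with `p` -/
structure YPr (m a k : ℕ) {G : Type} [Group G] (P : Subgroup G) (g τ p : G) : Prop where
  fin : Finite P
  sq : ∀ x ∈ P, x ^ 2 = 1
  hp : p ∈ P
  hg : g ^ (2 ^ a) = 1
  hτ : ∃ j, τ ^ (3 ^ j) = 1
  hτm : τ ^ m = 1
  hgτ : g * τ = τ * g
  hτp : τ ^ (3 ^ k) * p = p * τ ^ (3 ^ k)
  hgP : ∀ x ∈ P, g * x * g⁻¹ ∈ P
  hτP : ∀ x ∈ P, τ * x * τ⁻¹ ∈ P
  cen : ∀ x ∈ P, g ^ (2 ^ (a - 1)) * x = x * g ^ (2 ^ (a - 1))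

/-- a system of rank `k`, `Sys_k(g, τ, p)` (section 4); `ynorm (3 ^ k) τ p` is the product `p_I` of
the `p_i = τ ^ i * p * (τ ^ i)⁻¹`, `i < 3 ^ k` -/
structure YSys (m a k : ℕ) {G : Type} [Group G] (P : Subgroup G) (g τ p : G) : Prop where
  pr : YPr m a k P g τ p
  lc0 : ∃ (Q : Subgroup G) (ρ : G), Q ≤ P ∧ (∀ x ∈ P, ρ * x * ρ⁻¹ ∈ P) ∧ YLC m a Q g ρ p
  lcI : ∃ (Q : Subgroup G) (ρ : G), Q ≤ P ∧ (∀ x ∈ P, ρ * x * ρ⁻¹ ∈ P) ∧
    YLC m a Q g ρ (ynorm (3 ^ k) τ p)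
  lci : ∀ i, 0 < i → i < 3 ^ k → ∃ (Q : Subgroup G) (ρ : G), Q ≤ P ∧
    (∀ x ∈ P, ρ * x * ρ⁻¹ ∈ P) ∧ YLC m a Q (p * g) ρ (τ ^ i * p * (τ ^ i)⁻¹)

/-- `(T_k)`, for a finite solvable group `F`: `z_i = τ ^ i * z * (τ ^ i)⁻¹`,
`z = ynorm (2 ^ (a - 1)) g p`, `κ = g ^ (2 ^ (a - 1))` -/
structure YT (m a k : ℕ) {F : Type} [Group F] (P : Subgroup F) (g τ p : F) : Prop where
  pr : YPr m a k P g τ p
  hz : ¬ InOP m (2 ^ a) (⊤ : Subgroup F) (ynorm (2 ^ (a - 1)) g p)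
  alt : (k = 0 ∧ τ = 1) ∨ (0 < k ∧
    (∀ s : F, s ^ m = 1 → g * s = s * g →
      ynorm (2 ^ (a - 1)) g p * s * (ynorm (2 ^ (a - 1)) g p)⁻¹ = s⁻¹ → s = 1) ∧
    (∀ i, i < 3 ^ k → ∀ e : ZH m a F, e ^ m = 1 →
      zp m a F (g ^ (2 ^ (a - 1))) * e * (zp m a F (g ^ (2 ^ (a - 1))))⁻¹ = e⁻¹ →
      zp m a F (τ ^ i * ynorm (2 ^ (a - 1)) g p * (τ ^ i)⁻¹) * e *
        (zp m a F (τ ^ i * ynorm (2 ^ (a - 1)) g p * (τ ^ i)⁻¹))⁻¹ = e⁻¹ → e = 1) ∧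
    (∀ i j, i < 3 ^ k → j < 3 ^ k → i ≠ j → ∀ e : ZH m a F, e ^ m = 1 →
      zp m a F (g ^ (2 ^ (a - 1))) * e * (zp m a F (g ^ (2 ^ (a - 1))))⁻¹ = e →
      zp m a F (τ ^ i * ynorm (2 ^ (a - 1)) g p * (τ ^ i)⁻¹) * e *
        (zp m a F (τ ^ i * ynorm (2 ^ (a - 1)) g p * (τ ^ i)⁻¹))⁻¹ = e⁻¹ →
      zp m a F (τ ^ j * ynorm (2 ^ (a - 1)) g p * (τ ^ j)⁻¹) * e *
        (zp m a F (τ ^ j * ynorm (2 ^ (a - 1)) g p * (τ ^ j)⁻¹))⁻¹ = e⁻¹ → e = 1))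

/-- the hypotheses of the abstract finality theorem FT (section 1) -/
structure YFT (m a : ℕ) {G : Type} [Group G] (S Q Y : Subgroup G) (g u f w s : G) : Prop where
  fin : Finite S
  sol : Group.IsSolvable S
  hQS : Q ≤ S
  hQ2 : ∀ x ∈ Q, x ^ (2 ^ a) = 1
  hSQ : ∀ h ∈ S, ∀ x ∈ Q, h * x * h⁻¹ ∈ Q
  hYQ : Y ≤ Q
  hY2 : ∀ x ∈ Y, x ^ 2 = 1
  hgY : ∀ x ∈ Y, g * x * g⁻¹ ∈ Y
  hg : g ^ (2 ^ a) = 1
  hgS : g ∈ S
  hu : u ∈ Q
  hf : f ∈ Q
  hf1 : f ≠ 1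
  hf2 : f ^ 2 = 1
  hfS : ∀ h ∈ S, h * f = f * h
  i : ∀ B : Subgroup G, (∀ h ∈ S, h ^ (2 ^ a) = 1 → h ^ (2 ^ (a - 1)) ∈ B) → Q ≤ B
  ii : ∀ (r : ℕ), r.Prime → r ≠ 2 → ∀ (X : Type) [AddCommGroup X] [Module (ZMod r) X] [Finite X]
    (ρ : Q →* Module.End (ZMod r) X), Nat.card X ≤ r ^ 4 → ρ ⟨f, hf⟩ = -1 → ∀ x : X, x = 0
  hw : w ∈ closure {g, w⁻¹ * g * w}
  hwS : closure {g, w⁻¹ * g * w} = S
  hs : s ^ m = 1
  hsS : closure {g, s} = S
  hx : u⁻¹ * g ^ (2 ^ (a - 1)) * u = g ^ (2 ^ (a - 1)) * f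
  hm : u⁻¹ * (g ^ (2 ^ (a - 2)) * u * (g ^ (2 ^ (a - 2)))⁻¹) ∈ Y

/-- the block structure (4.4), the input of 4.5-4.8. `Q` is a 2-group (`P_b`), `R` a 3-group acting
on it, `e ∈ R` (`e_0`), `e' = y * e * y⁻¹` with `y = g ^ (2 ^ (a - 2))`, `c = [e, e']` -/
structure YBk (m a k : ℕ) {X : Type} [Group X] (Q R : Subgroup X) (g τ e e' c : X) : Prop where
  hQ2 : ∀ x ∈ Q, x ^ (2 ^ a) = 1
  hR3 : IsPGroup 3 (R ⊔ zpowers τ : Subgroup X)
  hg : g ^ (2 ^ a) = 1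
  hgτ : g * τ = τ * g
  hgQ : ∀ x ∈ Q, g * x * g⁻¹ ∈ Q
  hτQ : ∀ x ∈ Q, τ * x * τ⁻¹ ∈ Q
  hRQ : ∀ r ∈ R, ∀ x ∈ Q, r * x * r⁻¹ ∈ Q
  hgR : ∀ r ∈ R, g * r * g⁻¹ ∈ R
  hτR : ∀ r ∈ R, τ * r * τ⁻¹ ∈ R
  κR : ∀ r ∈ R, g ^ (2 ^ (a - 1)) * r = r * g ^ (2 ^ (a - 1))
  κQ : ∀ x ∈ Q, g ^ (2 ^ (a - 1)) * x = x * g ^ (2 ^ (a - 1))
  τR : ∀ r ∈ R, τ ^ (3 ^ k) * r = r * τ ^ (3 ^ k)
  τQ : ∀ x ∈ Q, τ ^ (3 ^ k) * x = x * τ ^ (3 ^ k)
  he : e ∈ R
  he3 : e ^ 3 = 1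
  he' : e' = g ^ (2 ^ (a - 2)) * e * (g ^ (2 ^ (a - 2)))⁻¹
  hc : c = e * e' * e⁻¹ * e'⁻¹
  /-- `c` is central in `R` -/
  cen : ∀ r ∈ R, c * r = r * c
  /-- `e` commutes with its conjugates outside the block `(0, 0)` -/
  com : ∀ i l, i < 3 ^ k → l < 2 ^ (a - 1) → ¬ (i = 0 ∧ (l = 0 ∨ l = 2 ^ (a - 2))) →
    e * ((τ ^ i * g ^ l) * e * (τ ^ i * g ^ l)⁻¹) = ((τ ^ i * g ^ l) * e * (τ ^ i * g ^ l)⁻¹) * e
  /-- the conjugates of `e` outside the block `(0, 0)` centralize `[Q, c]` -/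
  bl : ∀ i l, i < 3 ^ k → l < 2 ^ (a - 1) → ¬ (i = 0 ∧ (l = 0 ∨ l = 2 ^ (a - 2))) → ∀ x ∈ Q,
    ((τ ^ i * g ^ l) * e * (τ ^ i * g ^ l)⁻¹) * (x⁻¹ * (c * x * c⁻¹)) =
      (x⁻¹ * (c * x * c⁻¹)) * ((τ ^ i * g ^ l) * e * (τ ^ i * g ^ l)⁻¹)
  /-- `c` acts nontrivially on `Q` -/
  ne : ∃ x ∈ Q, c * x ≠ x * c
  /-- squares (so commutators) of `Q` are central in `Q`, of order 2, and centralized by `R` -/
  sqQ : ∀ x ∈ Q, ∀ y ∈ Q, x ^ 2 * y = y * x ^ 2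
  sqR : ∀ x ∈ Q, ∀ r ∈ R, x ^ 2 * r = r * x ^ 2
  sq4 : ∀ x ∈ Q, x ^ 4 = 1

end Pool.Agent.Lib.MP_544bd1_al
end

section

/-!
Two generators, part 2: the Frattini quotient as a module.
-/

namespace Pool.Agent.Lib.MP_544bd1_al

open Subgroup
open scoped commutatorElement

private lemma tw_module_aux00 {F V : Type} [Group F] [AddCommGroup V] {p : ℕ}
    [Module (ZMod p) V] (c : F → V →+ V) (h1 : ∀ x, c 1 x = x)
    (hm : ∀ g h x, c (g * h) x = c g (c h x)) :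
    ∃ (ρ : F →* Module.End (ZMod p) V), ∀ (g : F) (x : V), c g x = ρ g x := by
  let A : F → Module.End (ZMod p) V := fun g => AddMonoidHom.toZModLinearMap p (c g)
  have hA : ∀ (g : F) (v : V), A g v = c g v := fun g v => rfl
  have hA1 : A 1 = 1 := by
    refine LinearMap.ext fun v => ?_
    rw [hA, Module.End.one_apply, h1]
  have hAm : ∀ g h, A (g * h) = A g * A h := by
    intro g h
    refine LinearMap.ext fun v => ?_
    rw [hA, Module.End.mul_apply, hA, hA, hm]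
  exact ⟨{ toFun := A, map_one' := hA1, map_mul' := hAm }, fun g x => rfl⟩

private lemma tw_module_aux0 {F V : Type} [Group F] [AddCommGroup V] {p : ℕ}
    (hz : ∀ v : V, p • v = 0) (c : F → V →+ V) (h1 : ∀ x, c 1 x = x)
    (hm : ∀ g h x, c (g * h) x = c g (c h x)) :
    ∃ (_ : Module (ZMod p) V) (ρ : F →* Module.End (ZMod p) V), ∀ (g : F) (x : V),
      c g x = ρ g x :=
  ⟨AddCommGroup.zmodModule hz, @tw_module_aux00 F V _ _ p (AddCommGroup.zmodModule hz) c h1 hm⟩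

private lemma tw_module_aux {F Q : Type} [Group F] [CommGroup Q] [Finite Q] {p : ℕ}
    (hz : ∀ x : Q, x ^ p = 1) (c : F → Q →* Q) (h1 : ∀ x, c 1 x = x)
    (hm : ∀ g h x, c (g * h) x = c g (c h x)) :
    ∃ (V : Type) (_ : AddCommGroup V) (_ : Module (ZMod p) V) (_ : Finite V)
      (ρ : F →* Module.End (ZMod p) V) (ψ : Q → V), Function.Bijective ψ ∧
      (∀ x y, ψ (x * y) = ψ x + ψ y) ∧ ∀ (g : F) (x : Q), ψ (c g x) = ρ g (ψ x) := by
  have hz' : ∀ v : Additive Q, p • v = 0 := by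
    intro v
    apply Additive.toMul.injective
    rw [toMul_nsmul, hz]
    rfl
  obtain ⟨iM, ρ, hρ⟩ := tw_module_aux0 (F := F) hz' (fun g => MonoidHom.toAdditive (c g))
    (fun x => congrArg Additive.ofMul (h1 (Additive.toMul x)))
    (fun g h x => congrArg Additive.ofMul (hm g h (Additive.toMul x)))
  exact ⟨Additive Q, inferInstance, iM, inferInstance, ρ, Additive.ofMul,
    Additive.ofMul.bijective, fun x y => rfl, fun g x => hρ g (Additive.ofMul x)⟩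

private lemma tw_module_aux2 {F Q : Type} [Group F] [Group Q] [Finite Q] {p : ℕ}
    (hcomm : ∀ a b : Q, a * b = b * a)
    (hz : ∀ x : Q, x ^ p = 1) (c : F → Q →* Q) (h1 : ∀ x, c 1 x = x)
    (hm : ∀ g h x, c (g * h) x = c g (c h x)) :
    ∃ (V : Type) (_ : AddCommGroup V) (_ : Module (ZMod p) V) (_ : Finite V)
      (ρ : F →* Module.End (ZMod p) V) (ψ : Q → V), Function.Bijective ψ ∧
      (∀ x y, ψ (x * y) = ψ x + ψ y) ∧ ∀ (g : F) (x : Q), ψ (c g x) = ρ g (ψ x) := by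
  let i : CommGroup Q := { ‹Group Q› with mul_comm := hcomm }
  exact tw_module_aux hz c h1 hm

/-- The Frattini quotient `V = P ⧸ frattini P` of a normal `p`-subgroup as a module for `F`.
Proof. `V = Additive (P ⧸ frattini P)`: abelian of exponent `p` by `tw_frattini`, so a
`ZMod p`-module (`AddCommGroup.zmodModule`); `F` acts by conjugation (`MulAut.conjNormal`, the
Frattini subgroup is characteristic). Elements of `P` act trivially as `P ⧸ frattini P` is abelian.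
If `g ^ (s ^ k) = 1` and `ρ g = 1` then `x⁻¹ * (g * x * g⁻¹)` is in the Frattini subgroup for
`x ∈ P`; `tw_abz` with `N` the image of `frattini P` in `F` (`frattini_nongenerating`). -/
theorem tw_module {F : Type} [Group F] [Finite F] {p : ℕ} (hp : p.Prime) (P : Subgroup F)
    [hPn : P.Normal] (hP : IsPGroup p P) :
    ∃ (V : Type) (_ : AddCommGroup V) (_ : Module (ZMod p) V) (_ : Finite V)
      (ρ : F →* Module.End (ZMod p) V) (φ : P → V), Function.Surjective φ ∧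
      (∀ x y, φ (x * y) = φ x + φ y) ∧
      (∀ (g : F) (x : P), φ ⟨g * x * g⁻¹, hPn.conj_mem _ x.2 g⟩ = ρ g (φ x)) ∧
      (∀ g ∈ P, ρ g = 1) ∧
      ∀ (s k : ℕ) (g : F), s.Prime → s ≠ p → g ^ (s ^ k) = 1 → ρ g = 1 →
        ∀ x ∈ P, g * x = x * g := by
  classical
  have : Fact p.Prime := ⟨hp⟩
  obtain ⟨hcomm, hpow⟩ := tw_frattini hp hP
  have hcommQ : ∀ a b : P ⧸ frattini P, a * b = b * a := by
    intro a b
    obtain ⟨x, rfl⟩ := QuotientGroup.mk_surjective a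
    obtain ⟨y, rfl⟩ := QuotientGroup.mk_surjective b
    rw [← QuotientGroup.mk_mul, ← QuotientGroup.mk_mul, QuotientGroup.eq]
    have h1 : (x * y)⁻¹ * (y * x) = ⁅y⁻¹, x⁻¹⁆ := by
      rw [commutatorElement_def]; group
    rw [h1]
    exact hcomm (Subgroup.commutator_mem_commutator (Subgroup.mem_top _) (Subgroup.mem_top _))
  have hz : ∀ v : P ⧸ frattini P, v ^ p = 1 := by
    intro v
    obtain ⟨x, rfl⟩ := QuotientGroup.mk_surjective v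
    rw [← QuotientGroup.mk_pow, QuotientGroup.eq_one_iff]
    exact hpow x
  have hchar : ∀ g : F, frattini P ≤ (frattini P).comap (MulAut.conjNormal (H := P) g).toMonoidHom :=
    fun g => (Subgroup.characteristic_iff_le_comap.1 frattini_characteristic _)
  let c : F → (P ⧸ frattini P) →* (P ⧸ frattini P) := fun g =>
    QuotientGroup.map (frattini P) (frattini P) (MulAut.conjNormal (H := P) g).toMonoidHom
      (hchar g)
  have hcmk : ∀ (g : F) (x : P), c g (x : P ⧸ frattini P) =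
      ((⟨g * x * g⁻¹, hPn.conj_mem _ x.2 g⟩ : P) : P ⧸ frattini P) := by
    intro g x
    rfl
  have hc1 : ∀ v, c 1 v = v := by
    intro v
    obtain ⟨x, rfl⟩ := QuotientGroup.mk_surjective v
    rw [hcmk]
    congr 1
    apply Subtype.ext
    simp
  have hcm : ∀ g h v, c (g * h) v = c g (c h v) := by
    intro g h v
    obtain ⟨x, rfl⟩ := QuotientGroup.mk_surjective v
    rw [hcmk, hcmk, hcmk]
    congr 1
    apply Subtype.ext
    simp [mul_assoc]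
  obtain ⟨V, iV, iM, iF, ρ, ψ, hψ, hψm, hψc⟩ := tw_module_aux2 hcommQ hz c hc1 hcm
  refine ⟨V, iV, iM, iF, ρ, fun x => ψ (x : P ⧸ frattini P), ?_, ?_, ?_, ?_, ?_⟩
  · exact hψ.2.comp QuotientGroup.mk_surjective
  · intro x y
    exact hψm (x : P ⧸ frattini P) (y : P ⧸ frattini P)
  · intro g x
    rw [← hψc, hcmk]
  · intro g hg
    refine LinearMap.ext fun v => ?_
    obtain ⟨w, rfl⟩ := hψ.2 v
    obtain ⟨x, rfl⟩ := QuotientGroup.mk_surjective w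
    rw [← hψc, hcmk, Module.End.one_apply]
    have h1 : ((⟨g * x * g⁻¹, hPn.conj_mem _ x.2 g⟩ : P) : P ⧸ frattini P) =
        ((⟨g, hg⟩ : P) : P ⧸ frattini P) * (x : P ⧸ frattini P) *
          ((⟨g, hg⟩ : P) : P ⧸ frattini P)⁻¹ := rfl
    rw [h1, hcommQ, ← mul_assoc, inv_mul_cancel, one_mul]
  · intro s k g hs hsp hgs hg x hx
    have hN1 : ∀ y : P, g * (y : F) * g⁻¹ ∈ P := fun y => hPn.conj_mem _ y.2 g
    refine tw_abz hp hs (Ne.symm hsp) P hP hgs (fun y hy => hPn.conj_mem _ hy g)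
      ((frattini P).map P.subtype) ?_ ?_ ?_ ?_ x hx
    · rintro _ ⟨y, _, rfl⟩
      exact y.2
    · rintro _ ⟨y, hy, rfl⟩
      exact ⟨⟨g * y * g⁻¹, hN1 y⟩, hchar g hy, rfl⟩
    · intro C hC hCN
      have h1 : C.subgroupOf P ⊔ frattini P = ⊤ := by
        rw [eq_top_iff]
        intro y _
        obtain ⟨a, ha, _, ⟨n, hn, rfl⟩, hxa⟩ := hCN y y.2
        have h2 : y = ⟨a, hC ha⟩ * n := Subtype.ext hxa
        rw [h2]
        exact Subgroup.mul_mem_sup (show (⟨a, hC ha⟩ : P) ∈ C.subgroupOf P from ha) hn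
      have h2 := frattini_nongenerating h1
      apply le_antisymm hC
      intro y hy
      have h3 : (⟨y, hy⟩ : P) ∈ C.subgroupOf P := by rw [h2]; trivial
      exact h3
    · intro y hy
      have h1 := hψc g ((⟨y, hy⟩ : P) : P ⧸ frattini P)
      rw [hg, Module.End.one_apply, hcmk] at h1
      have h2 := hψ.1 h1
      have h3 : (((⟨y, hy⟩ : P)) : P ⧸ frattini P) =
          ((⟨g * y * g⁻¹, hPn.conj_mem _ hy g⟩ : P) : P ⧸ frattini P) := h2.symm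
      rw [QuotientGroup.eq] at h3
      exact ⟨_, h3, rfl⟩

end Pool.Agent.Lib.MP_544bd1_al
end

section

/-!
Two generators, part 2: choice of an invariant `r`-subgroup.
-/

namespace Pool.Agent.Lib.MP_544bd1_al

open Subgroup

variable {F : Type} [Group F]

/-- choice of an invariant `r`-subgroup which is not centralized by `z`.
Proof. `E = zpowers u` is a `p`-group acting on `D`, `p ∤ Nat.card D` (`tw_card_cop`). If `z`
centralized all `E`-invariant Sylow `r`-subgroups of `D` given by `tw_inv_sylow`, then `D` would be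
contained in the centralizer of `z` (`tw_gen_sylow`). The `R` found is nontrivial, so (Cauchy)
`r ∣ M`. -/
theorem tw_pick [Finite F] {M p a : ℕ} (hp : p.Prime) (hpM : ¬ p ∣ M) (D : Subgroup F)
    (hD : ∀ x ∈ D, x ^ M = 1) {u z : F} (hu : u ^ (p ^ a) = 1)
    (huD : ∀ x ∈ D, u * x * u⁻¹ ∈ D) (h : ∃ x ∈ D, z * x ≠ x * z) :
    ∃ r : ℕ, r.Prime ∧ r ∣ M ∧ ∃ R : Subgroup F, R ≤ D ∧ IsPGroup r R ∧
      (∀ x ∈ R, u * x * u⁻¹ ∈ R) ∧ ∃ x ∈ R, z * x ≠ x * z := by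
  by_contra hcon
  push Not at hcon
  obtain ⟨x0, hx0, hne⟩ := h
  apply hne
  have hpow : ∀ k : ℕ, ∀ x ∈ D, u ^ k * x * (u ^ k)⁻¹ ∈ D := by
    intro k
    induction k with
    | zero => intro x hx; simpa using hx
    | succ k ih =>
      intro x hx
      have h1 := huD _ (ih x hx)
      have h2 : u * (u ^ k * x * (u ^ k)⁻¹) * u⁻¹ = u ^ (k + 1) * x * (u ^ (k + 1))⁻¹ := by
        rw [pow_succ', mul_inv_rev]
        group
      rwa [h2] at h1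
  have hDE : ∀ e ∈ zpowers u, ∀ x ∈ D, e * x * e⁻¹ ∈ D := by
    intro e he x hx
    rw [← mem_powers_iff_mem_zpowers, Submonoid.mem_powers_iff] at he
    obtain ⟨k, rfl⟩ := he
    exact hpow k x hx
  have hE : IsPGroup p (zpowers u) := by
    rintro ⟨e, he⟩
    obtain ⟨k, rfl⟩ := mem_zpowers_iff.1 he
    refine ⟨a, Subtype.ext ?_⟩
    change (u ^ k) ^ (p ^ a) = 1
    rw [← zpow_natCast, ← zpow_mul, mul_comm, zpow_mul, zpow_natCast, hu, one_zpow]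
  have hcop := tw_card_cop hp hpM D hD
  have key : D ≤ centralizer {z} := by
    apply tw_gen_sylow
    intro r hr
    obtain ⟨S, hSD, hS, hSE, k, hk, hrk⟩ := tw_inv_sylow hr hp D (zpowers u) hDE hE hcop
    refine ⟨S, hSD, ?_, k, hk, hrk⟩
    by_cases hrM : r ∣ M
    · intro x hx
      rw [mem_centralizer_singleton_iff]
      exact (hcon r hr hrM S hSD hS (fun x hx => hSE u (mem_zpowers u) x hx) x hx).symm
    · have h1 := tw_card_cop hr hrM S (fun x hx => hD x (hSD hx))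
      have hf : Fact r.Prime := ⟨hr⟩
      have h2 : Nat.card S = 1 := by
        obtain ⟨n, hn⟩ := hS.exists_card_eq
        rw [hn] at h1 ⊢
        rcases Nat.eq_zero_or_pos n with h | h
        · rw [h, pow_zero]
        · exact absurd (dvd_pow_self r h.ne') h1
      have h3 : S = ⊥ := (Subgroup.eq_bot_iff_card S).2 h2
      rw [h3]
      exact bot_le
  have h1 := key hx0
  rw [mem_centralizer_singleton_iff] at h1
  exact h1.symm

end Pool.Agent.Lib.MP_544bd1_al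
end
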