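import Mathlib
import Pool.Agent.Lib.MP_544bd1_al.TwS2
import Pool.Agent.Lib.MP_544bd1_al.E5.Coind
import Pool.Agent.Lib.MP_544bd1_al.TwL3
import Pool.Agent.Lib.MP_544bd1_al.TwL5
import Pool.Agent.Lib.MP_544bd1_al.TwS3
import Pool.Agent.Lib.MP_544bd1_al.TwR4

section

/-!
Two generators, part 3 (Theorem D): the module `P ⧸ Φ(P) B`.
-/

namespace Pool.Agent.Lib.MP_544bd1_al

open Subgroup

/-- The quotient `P ⧸ Φ(P) B` of a normal `p`-subgroup `P` as a module for `F`, `B ≤ P` normal in `F`.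

Proof. Take `V₀`, `ρ₀`, `φ₀` from `tw_module`. `W = {φ₀ x | x ∈ B}` is an additive subgroup of `V₀`, so a
`ZMod p`-submodule (e.g. `AddSubgroup.toZModSubmodule`), and `ρ₀ g` maps `W` into itself (`B` is normal).
Let `V = V₀ ⧸ W`, `ρ g = W.mapQ W (ρ₀ g) _` (a homomorphism `F →* Module.End (ZMod p) V`: `MonoidHom.mk'`,
`LinearMap.ext`, `Submodule.Quotient` induction), `φ x = W.mkQ (φ₀ x)`. Everything but the last property is
immediate. Let `g ^ (s ^ k) = 1`, `s ≠ p`, let `g` commute with the elements of `B` and `ρ g = 1`. Then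
`ρ₀ g v - v ∈ W` for all `v`, and `ρ₀ g w = w` for `w ∈ W` (`w = φ₀ x`, `x ∈ B`, `g * x * g⁻¹ = x`). By
`tw_unip` (with `R := zpowers g`, an `s`-group, `ρ := ρ₀.comp (zpowers g).subtype`, `y := g`,
`CharP (ZMod p) p`) `ρ₀ g = 1`, and the last property of `tw_module` applies. -/
theorem tw_module_quot {F : Type} [Group F] [Finite F] {p : ℕ} (hp : p.Prime) (P : Subgroup F)
    [hPn : P.Normal] (hP : IsPGroup p P) (B : Subgroup F) [hBn : B.Normal] (hBP : B ≤ P) :
    ∃ (V : Type) (_ : AddCommGroup V) (_ : Module (ZMod p) V) (_ : Finite V)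
      (ρ : F →* Module.End (ZMod p) V) (φ : P → V), Function.Surjective φ ∧
      (∀ x y, φ (x * y) = φ x + φ y) ∧
      (∀ (g : F) (x : P), φ ⟨g * x * g⁻¹, hPn.conj_mem _ x.2 g⟩ = ρ g (φ x)) ∧
      (∀ g ∈ P, ρ g = 1) ∧ (∀ x : P, (x : F) ∈ B → φ x = 0) ∧
      ∀ (s k : ℕ) (g : F), s.Prime → s ≠ p → g ^ (s ^ k) = 1 → (∀ x ∈ B, g * x = x * g) →
        ρ g = 1 → ∀ x ∈ P, g * x = x * g := by
  have hpf : Fact p.Prime := ⟨hp⟩
  obtain ⟨V₀, iV, iM, iF, ρ₀, φ₀, hsurj, hadd, hconj, hPtriv, hlast⟩ := tw_module hp P hP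
  have hφ1 : φ₀ 1 = 0 := by
    have h := hadd 1 1
    rw [mul_one] at h
    exact left_eq_add.1 h
  have hφinv : ∀ x : P, φ₀ x⁻¹ = - φ₀ x := by
    intro x
    have h := hadd x x⁻¹
    rw [mul_inv_cancel, hφ1] at h
    exact (neg_eq_of_add_eq_zero_right h.symm).symm
  let W₀ : AddSubgroup V₀ :=
    { carrier := {v | ∃ x : P, (x : F) ∈ B ∧ φ₀ x = v}
      zero_mem' := ⟨1, B.one_mem, hφ1⟩
      add_mem' := by
        rintro _ _ ⟨x, hx, rfl⟩ ⟨y, hy, rfl⟩
        exact ⟨x * y, B.mul_mem hx hy, hadd x y⟩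
      neg_mem' := by
        rintro _ ⟨x, hx, rfl⟩
        exact ⟨x⁻¹, B.inv_mem hx, hφinv x⟩ }
  let W : Submodule (ZMod p) V₀ := AddSubgroup.toZModSubmodule p W₀
  have hW : ∀ v, v ∈ W ↔ ∃ x : P, (x : F) ∈ B ∧ φ₀ x = v := fun v => Iff.rfl
  have hWρ : ∀ g : F, W ≤ W.comap (ρ₀ g) := by
    intro g v hv
    obtain ⟨x, hx, rfl⟩ := (hW v).1 hv
    rw [Submodule.mem_comap]
    exact (hW _).2 ⟨⟨g * x * g⁻¹, hPn.conj_mem _ x.2 g⟩, hBn.conj_mem _ hx g, hconj g x⟩
  let ρ : F →* Module.End (ZMod p) (V₀ ⧸ W) :=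
    { toFun := fun g => W.mapQ W (ρ₀ g) (hWρ g)
      map_one' := by
        refine LinearMap.ext fun v => ?_
        obtain ⟨v, rfl⟩ := Submodule.Quotient.mk_surjective W v
        rw [Submodule.mapQ_apply, map_one, Module.End.one_apply, Module.End.one_apply]
      map_mul' := by
        intro g h
        refine LinearMap.ext fun v => ?_
        obtain ⟨v, rfl⟩ := Submodule.Quotient.mk_surjective W v
        rw [Module.End.mul_apply, Submodule.mapQ_apply, Submodule.mapQ_apply,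
          Submodule.mapQ_apply, map_mul, Module.End.mul_apply] }
  have hρ : ∀ (g : F) (v : V₀), ρ g (Submodule.Quotient.mk v) = Submodule.Quotient.mk (ρ₀ g v) :=
    fun g v => rfl
  refine ⟨V₀ ⧸ W, inferInstance, inferInstance, ?_, ρ, fun x => Submodule.Quotient.mk (φ₀ x),
    ?_, ?_, ?_, ?_, ?_, ?_⟩
  · exact Finite.of_surjective _ (Submodule.Quotient.mk_surjective W)
  · exact (Submodule.Quotient.mk_surjective W).comp hsurj
  · intro x y
    show (Submodule.Quotient.mk (φ₀ (x * y)) : V₀ ⧸ W) = _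
    rw [hadd, Submodule.Quotient.mk_add]
  · intro g x
    rw [hρ, ← hconj]
  · intro g hg
    refine LinearMap.ext fun v => ?_
    obtain ⟨v, rfl⟩ := Submodule.Quotient.mk_surjective W v
    rw [hρ, hPtriv g hg, Module.End.one_apply, Module.End.one_apply]
  · intro x hx
    exact (Submodule.Quotient.mk_eq_zero W).2 ((hW _).2 ⟨x, hx, rfl⟩)
  · intro s k g hs hsp hgs hcB hρg
    refine hlast s k g hs hsp hgs ?_
    have hR : IsPGroup s (Subgroup.zpowers g) := by
      have : Fact s.Prime := ⟨hs⟩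
      rintro ⟨y, hy⟩
      obtain ⟨n, rfl⟩ := Subgroup.mem_zpowers_iff.1 hy
      refine ⟨k, Subtype.ext ?_⟩
      show (g ^ n) ^ (s ^ k) = 1
      rw [← zpow_natCast, zpow_comm, zpow_natCast, hgs, one_zpow]
    have h1 : ∀ w ∈ W, ρ₀ g w = w := by
      intro w hw
      obtain ⟨x, hx, rfl⟩ := (hW w).1 hw
      rw [← hconj]
      congr 1
      apply Subtype.ext
      show g * (x : F) * g⁻¹ = x
      rw [hcB x hx, mul_assoc, mul_inv_cancel, mul_one]
    have h2 : ∀ v, ρ₀ g v - v ∈ W := by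
      intro v
      have h := hρ g v
      rw [hρg, Module.End.one_apply] at h
      exact (Submodule.Quotient.eq W).1 h.symm
    have := tw_unip (K := ZMod p) (V := V₀) (R := Subgroup.zpowers g) hs hsp hR
      (ρ₀.comp (Subgroup.zpowers g).subtype) W ⟨g, Subgroup.mem_zpowers g⟩ h1 h2
    exact this

end Pool.Agent.Lib.MP_544bd1_al
end

section

/-!
Two generators, part 2: Theorem L.
-/

namespace Pool.Agent.Lib.MP_544bd1_al

open Finset Subgroup

/-- restriction of the data to a subgroup of `R` -/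
theorem LDat.subgroup {K V R : Type} [Field K] [AddCommGroup V] [Module K V] [Group R] {q : ℕ}
    {α : R →* R} {ρ : R →* Module.End K V} {U : Module.End K V} (D : LDat q α ρ U)
    (S : Subgroup R) (hS : ∀ x ∈ S, α x ∈ S) :
    ∃ (α' : S →* S), LDat q α' (ρ.comp S.subtype) U ∧
      ∀ (j : ℕ) (x : S), ((α'^[j] x : S) : R) = α^[j] x := by
  let α' : S →* S := (α.comp S.subtype).codRestrict S (fun x => hS x x.2)
  refine ⟨α', ⟨fun x => ?_, D.hq, D.hN⟩, ?_⟩
  · exact D.hU x
  · intro j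
    induction j with
    | zero => intro x; rfl
    | succ j ih =>
      intro x
      rw [Function.iterate_succ_apply, Function.iterate_succ_apply, ih]
      rfl

theorem tw_iter_hom {R : Type} [Group R] (α : R →* R) (k : ℕ) (x y : R) :
    α^[k] (x * y) = α^[k] x * α^[k] y := by
  induction k generalizing x y with
  | zero => rfl
  | succ k ih =>
    rw [Function.iterate_succ_apply, Function.iterate_succ_apply, Function.iterate_succ_apply,
      map_mul, ih]

/-- **Theorem L** over an algebraically closed field. -/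
theorem tw_L {K : Type} [Field K] [IsAlgClosed K] {p r : ℕ} [Fact p.Prime] [CharP K p]
    (hr : r.Prime) (hrp : r ≠ p) (d : ℕ) :
    ∀ (V R : Type) [AddCommGroup V] [Module K V] [FiniteDimensional K V] [Group R] [Finite R]
      (a : ℕ) (α : R →* R) (ρ : R →* Module.End K V) (U : Module.End K V),
      Module.finrank K V + Nat.card R = d → IsPGroup r R → 0 < a →
      (∀ j s : ℕ, 1 ≤ j → j ≤ a → 0 < s → r ^ s + 1 ≠ p ^ j) → LDat (p ^ a) α ρ U →
      ∀ x, ρ (α^[p ^ (a - 1)] x) = ρ x := by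
  induction d using Nat.strong_induction_on with
  | _ d ih =>
  intro V R _ _ _ _ _ a α ρ U hd hR ha hnum D
  by_contra hcon
  have hp : p.Prime := Fact.out
  have hno : ∃ x, ρ (α^[p ^ (a - 1)] x) ≠ ρ x := by
    by_contra h
    apply hcon
    intro x
    by_contra h'
    exact h ⟨x, h'⟩
  have hV : Nontrivial V := by
    by_contra h
    rw [not_nontrivial_iff_subsingleton] at h
    obtain ⟨x, hx⟩ := hno
    apply hx
    apply LinearMap.ext
    intro v
    exact Subsingleton.elim _ _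
  -- (S2) irreducibility
  have hirr : ∀ W : Submodule K V, (∀ x, ∀ w ∈ W, ρ x w ∈ W) → (∀ w ∈ W, U w ∈ W) →
      W = ⊥ ∨ W = ⊤ := by
    intro W hW hWU
    by_contra h
    rw [not_or] at h
    obtain ⟨h0, h1⟩ := h
    have hlt : Module.finrank K W < Module.finrank K V := Submodule.finrank_lt h1
    have hpos : 0 < Module.finrank K W := by
      rw [Nat.pos_iff_ne_zero]
      intro h
      exact h0 (Submodule.finrank_eq_zero.1 h)
    have hlt2 : Module.finrank K (V ⧸ W) < Module.finrank K V := by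
      have := Submodule.finrank_quotient_add_finrank W
      omega
    obtain ⟨α', ρ', U', D', hρ', hα'⟩ := D.sub (k := 1) (q' := p ^ a) (one_mul _) W hW
      (by intro w hw; rw [pow_one]; exact hWU w hw)
      (by intro w hw; rw [pow_one, D.hN]; rfl)
    have e1 := ih (Module.finrank K W + Nat.card R) (by omega) W R a α' ρ' U' rfl hR ha hnum D'
    obtain ⟨ρ'', U'', D'', hρ''⟩ := D.quot W hW hWU
    have e2 := ih (Module.finrank K (V ⧸ W) + Nat.card R) (by omega) (V ⧸ W) R a α ρ'' U'' rfl hR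
      ha hnum D''
    obtain ⟨x, hx⟩ := hno
    apply hx
    have hw1 : ∀ w ∈ W, ρ (α^[p ^ (a - 1)] x) w = ρ x w := by
      intro w hw
      have h3 := congrArg (fun f : Module.End K W => ((f ⟨w, hw⟩ : W) : V)) (e1 x)
      simp only [hρ', hα', one_mul] at h3
      exact h3
    have hw2 : ∀ v, ρ (α^[p ^ (a - 1)] x) v - ρ x v ∈ W := by
      intro v
      have h3 := congrArg (fun f : Module.End K (V ⧸ W) => f (W.mkQ v)) (e2 x)
      simp only [hρ''] at h3
      rw [← sub_eq_zero, ← map_sub, ← LinearMap.mem_ker, Submodule.ker_mkQ] at h3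
      exact h3
    have hy : ρ (x⁻¹ * α^[p ^ (a - 1)] x) = 1 := by
      apply tw_unip hr hrp hR ρ W
      · intro w hw
        rw [map_mul, Module.End.mul_apply, hw1 w hw, ← Module.End.mul_apply, ← map_mul,
          inv_mul_cancel, map_one, Module.End.one_apply]
      · intro v
        have h4 : ρ (x⁻¹ * α^[p ^ (a - 1)] x) v - v =
            ρ x⁻¹ (ρ (α^[p ^ (a - 1)] x) v - ρ x v) := by
          rw [map_sub, ← Module.End.mul_apply, ← Module.End.mul_apply, ← map_mul, ← map_mul,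
            inv_mul_cancel, map_one, Module.End.one_apply]
        rw [h4]
        exact hW _ _ (hw2 v)
    calc ρ (α^[p ^ (a - 1)] x) = ρ x * ρ (x⁻¹ * α^[p ^ (a - 1)] x) := by
          rw [← map_mul, mul_inv_cancel_left]
      _ = ρ x := by rw [hy, mul_one]
  -- (S1) proper subgroups
  have hsub : ∀ S : Subgroup R, S ≠ ⊤ → (∀ x ∈ S, α x ∈ S) →
      ∀ x ∈ S, ρ (α^[p ^ (a - 1)] x) = ρ x := by
    intro S hS hαS x hx
    obtain ⟨α', D', hα'⟩ := D.subgroup S hαS
    have hcard : Nat.card S < Nat.card R := by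
      have h1 := Subgroup.card_le_card_group S
      have h2 : Nat.card S ≠ Nat.card R := fun h => hS (Subgroup.eq_top_of_card_eq S h)
      omega
    have h3 := ih (Module.finrank K V + Nat.card S) (by omega) V S a α' (ρ.comp S.subtype) U rfl
      (hR.to_subgroup S) ha hnum D' ⟨x, hx⟩
    have h4 : ρ ((α'^[p ^ (a - 1)] ⟨x, hx⟩ : S) : R) = ρ x := h3
    rw [hα'] at h4
    exact h4
  -- (S3) central elements are scalars
  have hscal : ∀ x, (∀ y, ρ x * ρ y = ρ y * ρ x) → ∃ c : K, ρ x = c • 1 := by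
    intro x hx
    apply tw_L3 ha D hirr _ hno x hx
    intro W b hWt hW hb hba hWU hN y w hw
    have hpow : p ^ b * p ^ (a - b) = p ^ a := by
      rw [← pow_add]
      congr 1
      omega
    obtain ⟨α', ρ', U', D', hρ', hα'⟩ := D.sub hpow W hW hWU hN
    have hlt : Module.finrank K W < Module.finrank K V := Submodule.finrank_lt hWt
    have e1 := ih (Module.finrank K W + Nat.card R) (by omega) W R (a - b) α' ρ' U' rfl hR
      (by omega) (fun j s h1 h2 h3 => hnum j s h1 (by omega) h3) D' y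
    have h3 := congrArg (fun f : Module.End K W => ((f ⟨w, hw⟩ : W) : V)) e1
    simp only [hρ', hα'] at h3
    have hexp : p ^ b * p ^ (a - b - 1) = p ^ (a - 1) := by
      rw [← pow_add]
      congr 1
      omega
    rw [hexp] at h3
    exact h3
  -- (S4) the group `Γ`
  have hq0 : p ^ a ≠ 0 := pow_ne_zero _ hp.ne_zero
  let ρ' : R →* (Module.End K V)ˣ := ρ.toHomUnits
  have hρ' : ∀ x, ((ρ' x : (Module.End K V)ˣ) : Module.End K V) = ρ x := fun x => rfl
  let u : (Module.End K V)ˣ := Units.ofPowEqOne U (p ^ a) D.hq hq0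
  have huU : (u : Module.End K V) = U := rfl
  have hu : u ^ (p ^ a) = 1 := by
    apply Units.ext
    rw [Units.val_pow_eq_pow_val, huU, D.hq, Units.val_one]
  have hconj : ∀ (k : ℕ) (x : R), u ^ k * ρ' x * (u ^ k)⁻¹ = ρ' (α^[k] x) := by
    intro k x
    rw [mul_inv_eq_iff_eq_mul]
    apply Units.ext
    rw [Units.val_mul, Units.val_mul, Units.val_pow_eq_pow_val, huU, hρ', hρ']
    exact D.iter k x
  set z : (Module.End K V)ˣ := u ^ (p ^ (a - 1)) with hz
  have hzx : ∀ x, z * ρ' x = ρ' x * z ↔ ρ (α^[p ^ (a - 1)] x) = ρ x := by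
    intro x
    rw [← hρ', ← hρ', ← Units.ext_iff, ← hconj, mul_inv_eq_iff_eq_mul]
  let Γ : Subgroup (Module.End K V)ˣ := ρ'.range
  have hΓfin : Finite Γ := Set.finite_range ρ'
  have hΓ : IsPGroup r Γ := hR.of_surjective ρ'.rangeRestrict ρ'.rangeRestrict_surjective
  have huΓ : ∀ x ∈ Γ, u * x * u⁻¹ ∈ Γ := by
    rintro _ ⟨x, rfl⟩
    have := hconj 1 x
    rw [pow_one] at this
    rw [this]
    exact ⟨_, rfl⟩
  have hscal' : ∀ x ∈ Γ, (∀ y ∈ Γ, x * y = y * x) → ∃ c : K, (x : Module.End K V) = c • 1 := by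
    rintro _ ⟨x, rfl⟩ hx
    apply hscal x
    intro y
    have := congrArg Units.val (hx (ρ' y) ⟨y, rfl⟩)
    exact this
  have hZ : ∀ x ∈ Γ, (∀ y ∈ Γ, x * y = y * x) → z * x = x * z := by
    intro x hx hxc
    obtain ⟨c, hc⟩ := hscal' x hx hxc
    apply Units.ext
    rw [Units.val_mul, Units.val_mul, hc, smul_mul_assoc, mul_smul_comm, one_mul, mul_one]
  have hmin : ∀ S : Subgroup (Module.End K V)ˣ, S ≤ Γ → S ≠ Γ → (∀ x ∈ S, u * x * u⁻¹ ∈ S) →
      ∀ x ∈ S, z * x = x * z := by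
    intro S hSΓ hne huS x hx
    obtain ⟨t, rfl⟩ := hSΓ hx
    rw [hzx]
    apply hsub (S.comap ρ')
    · intro h
      apply hne
      apply le_antisymm hSΓ
      rintro _ ⟨y, rfl⟩
      have : y ∈ S.comap ρ' := by rw [h]; trivial
      exact this
    · intro y hy
      rw [Subgroup.mem_comap] at hy ⊢
      have h1 := huS _ hy
      have h2 := hconj 1 y
      rw [pow_one] at h2
      rw [h2] at h1
      exact h1
    · exact hx
  have hno' : ∃ x ∈ Γ, z * x ≠ x * z := by
    obtain ⟨x, hx⟩ := hno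
    exact ⟨ρ' x, ⟨x, rfl⟩, fun h => hx ((hzx x).1 h)⟩
  obtain ⟨h1, h2⟩ := tw_L4 hp hr hrp ha Γ hΓ hu hz huΓ hmin hno' hZ
  refine tw_L5 (K := K) (V := V) hr hrp ha (fun s hs => hnum a s ha le_rfl hs) Γ hΓ u z hu hz huΓ
    ?_ hscal' h1 h2 ?_ ?_
  · intro W hW hWU
    exact hirr W (fun x w hw => hW (ρ' x) ⟨x, rfl⟩ w hw) hWU
  · by_contra hcomm
    obtain ⟨x, hx, hxz⟩ := hno'
    apply hxz
    apply hZ x hx
    intro y hy
    by_contra h
    exact hcomm ⟨x, hx, y, hy, h⟩
  · rw [huU]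
    exact D.hN

end Pool.Agent.Lib.MP_544bd1_al
end

section

/-!
Theorem G' (paper 275): the module.
-/

namespace Pool.Agent.Lib.MP_544bd1_al

open Subgroup

/-- an `r`-element of `O_{r',r}(T)` centralizing `O_{r'}(T)` is in `O_r(T)`.

Proof. `O = krad M T`, `U = {x | InOP M (r ^ b) ⊤ x}` (a normal subgroup of `T`: `InOP.mul`,
`InOP.conj`, `InOP.inv`; `x ^ (r ^ b) ∈ O` for `x ∈ U`: `tw_op_iff`), `C = U ⊓ centralizer O`, normal.
For `x ∈ C`: `x ^ (r ^ b) ∈ O` is central in `C`. The set `S = {x ∈ C | x ^ (r ^ b) = 1}` is closed under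
multiplication: `C ⧸ (O ⊓ C)` is an `r`-group and `O ⊓ C` is central in `C`, so `C` is nilpotent, and
its elements of order a power of `r` form the normal Sylow `r`-subgroup (or: `O ⊓ C` is a central
Hall subgroup; by Schur-Zassenhaus (`Subgroup.exists_right_complement'_of_coprime`) it has a
complement `K` in `C`, `C = (O ⊓ C) × K`, and `S = K`). So `S` is a subgroup, normal in `T`, of
exponent `r ^ b`, containing `w`: `InO (r ^ b) ⊤ w`. (Compare the beginning of the proof of `tw_X`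
in TwX.lean.) -/
theorem gp_cent {M r b : ℕ} (hr : r.Prime) (hrM : ¬ r ∣ M) (hM : 0 < M) {T : Type} [Group T]
    [Finite T] (hexp : ∀ x : T, x ^ (M * r ^ b) = 1) {w : T}
    (hw : w ^ (r ^ b) = 1) (h1 : InOP M (r ^ b) (⊤ : Subgroup T) w)
    (h2 : ∀ x ∈ krad M T, w * x = x * w) : InO (r ^ b) (⊤ : Subgroup T) w := by
  have hcop : Nat.Coprime M (r ^ b) :=
    ((Nat.Prime.coprime_iff_not_dvd hr).2 hrM).symm.pow_right b
  have hexp' : ∀ x : T ⧸ krad M T, x ^ (M * r ^ b) = 1 := tw_exp_quot hexp _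
  have : (krad M T).Normal := krad_normal M T
  have : (krad (r ^ b) (T ⧸ krad M T)).Normal := krad_normal _ _
  rw [tw_op_iff hcop hexp] at h1
  obtain ⟨C, hC⟩ : ∃ C : Subgroup T,
      C = (krad (r ^ b) (T ⧸ krad M T)).comap (QuotientGroup.mk' (krad M T)) ⊓
        Subgroup.centralizer (krad M T : Set T) := ⟨_, rfl⟩
  have hCn : C.Normal := by rw [hC]; infer_instance
  have hwC : w ∈ C := by
    rw [hC]
    exact ⟨h1, Subgroup.mem_centralizer_iff.2 fun x hx => (h2 x hx).symm⟩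
  have hCP : ∀ x ∈ C, x ^ (r ^ b) ∈ krad M T := by
    intro x hx
    rw [hC] at hx
    have h3 := tw_krad_pow hcop.symm (tw_exp_comm hexp') _ (Subgroup.mem_comap.1 hx.1)
    rwa [← map_pow, QuotientGroup.mk'_apply, QuotientGroup.eq_one_iff] at h3
  have hCc : ∀ x ∈ C, ∀ y ∈ krad M T, y * x = x * y := by
    intro x hx y hy
    rw [hC] at hx
    exact Subgroup.mem_centralizer_iff.1 hx.2 y hy
  have hz : ∀ x : C, x ^ (r ^ b) ∈ Subgroup.center C := by
    intro x
    rw [Subgroup.mem_center_iff]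
    intro y
    apply Subtype.ext
    have h3 := hCc y y.2 _ (hCP x x.2)
    simpa using h3.symm
  have hp : IsPGroup r (C ⧸ Subgroup.center C) := by
    intro x
    obtain ⟨y, rfl⟩ := QuotientGroup.mk'_surjective _ x
    refine ⟨b, ?_⟩
    rw [← map_pow, QuotientGroup.mk'_apply, QuotientGroup.eq_one_iff]
    exact hz y
  have := Fact.mk hr
  obtain ⟨c, hc⟩ := IsPGroup.iff_card.1 hp
  have hidx : (Subgroup.center C).index = r ^ c := by
    rw [← hc]
    rfl
  have hmul : ∀ x y : C, (x * y) ^ (r ^ c) = x ^ (r ^ c) * y ^ (r ^ c) := by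
    intro x y
    have h3 := congrArg Subtype.val (map_mul (MonoidHom.transferCenterPow C) x y)
    rw [Subgroup.coe_mul, MonoidHom.transferCenterPow_apply, MonoidHom.transferCenterPow_apply,
      MonoidHom.transferCenterPow_apply, hidx] at h3
    exact h3
  have hcm : ∀ x y : C, x ^ (r ^ c) * y ^ (r ^ c) = y ^ (r ^ c) * x ^ (r ^ c) := by
    intro x y
    have h3 : x ^ (r ^ c) ∈ Subgroup.center C := by
      rw [← hidx]
      exact (MonoidHom.transferCenterPow C x).2
    exact (Subgroup.mem_center_iff.1 h3 _).symm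
  have hS : ∀ x y : C, x ^ (r ^ b) = 1 → y ^ (r ^ b) = 1 → (x * y) ^ (r ^ b) = 1 := by
    intro x y hx hy
    have h3 : (x * y) ^ (r ^ c * r ^ b) = 1 := by
      rw [pow_mul, hmul, (show Commute (x ^ (r ^ c)) (y ^ (r ^ c)) from hcm x y).mul_pow,
        ← pow_mul, ← pow_mul, mul_comm (r ^ c) (r ^ b), pow_mul, hx, pow_mul, hy, one_pow, one_mul]
    have h4 : (x * y) ^ (M * r ^ b) = 1 := Subtype.ext (by simpa using hexp _)
    have h5 := Nat.dvd_gcd (orderOf_dvd_of_pow_eq_one h3) (orderOf_dvd_of_pow_eq_one h4)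
    rw [Nat.gcd_mul_right] at h5
    have h6 : Nat.gcd (r ^ c) M = 1 :=
      (((Nat.Prime.coprime_iff_not_dvd hr).2 hrM).pow_left c)
    rw [h6, one_mul] at h5
    exact orderOf_dvd_iff_pow_eq_one.1 h5
  refine ⟨{ carrier := {x | x ∈ C ∧ x ^ (r ^ b) = 1}
            mul_mem' := ?_
            one_mem' := ⟨C.one_mem, one_pow _⟩
            inv_mem' := ?_ }, le_top, ⟨hwC, hw⟩, ?_, fun x hx => hx.2⟩
  · rintro x y ⟨hx, hx'⟩ ⟨hy, hy'⟩
    refine ⟨C.mul_mem hx hy, ?_⟩
    have h3 := hS ⟨x, hx⟩ ⟨y, hy⟩ (Subtype.ext (by simpa using hx')) (Subtype.ext (by simpa using hy'))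
    have h4 := congrArg Subtype.val h3
    simpa using h4
  · rintro x ⟨hx, hx'⟩
    exact ⟨C.inv_mem hx, by rw [inv_pow, hx', inv_one]⟩
  · rintro t - x ⟨hx, hx'⟩
    exact ⟨hCn.conj_mem x hx t, by rw [conj_pow, hx', mul_one, mul_inv_cancel]⟩

end Pool.Agent.Lib.MP_544bd1_al
end
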