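import Mathlib
import Pool.Agent.Lib.MP_544bd1_al.TwA
import Pool.Agent.Lib.MP_544bd1_al.TwS3

section

/-!
Two generators, part 2: the element `κ`, abelian case.
-/

namespace Pool.Agent.Lib.MP_544bd1_al

open Subgroup

/-- the map `m ↦ m * (m ^ j)⁻¹ * (σ m) ^ j` is surjective on `S` -/
theorem tw_N1_comm {A : Type} [CommGroup A] [Finite A] {q : ℕ} (hq : q.Prime) (σ : A →* A)
    (j : ℕ) (S : Subgroup A) (hσ : ∀ m ∈ S, σ m ∈ S) (hS : ∀ m ∈ S, m ^ q = 1)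
    (hE : ∀ m ∈ S, σ m ∈ zpowers m → σ m = m) (κ : A) (hκ : κ ∈ S) :
    ∃ m ∈ S, m * (m ^ j)⁻¹ * (σ m) ^ j = κ := by
  let φ : S →* S :=
    { toFun := fun m => ⟨(m : A) * ((m : A) ^ j)⁻¹ * (σ m) ^ j,
        S.mul_mem (S.mul_mem m.2 (S.inv_mem (S.pow_mem m.2 j))) (S.pow_mem (hσ m m.2) j)⟩
      map_one' := by
        apply Subtype.ext
        simp
      map_mul' := by
        intro a b
        apply Subtype.ext
        simp only [Subgroup.coe_mul, map_mul, mul_pow, mul_inv]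
        ac_rfl }
  have hinj : Function.Injective φ := by
    rw [injective_iff_map_eq_one]
    intro m hm
    have h1 : (m : A) * ((m : A) ^ j)⁻¹ * (σ m) ^ j = 1 := congrArg Subtype.val hm
    have h2 : (σ m) ^ j = (m : A) ^ j * (m : A)⁻¹ := by
      have h3 : (σ m) ^ j = ((m : A) * ((m : A) ^ j)⁻¹)⁻¹ := eq_inv_of_mul_eq_one_right h1
      rw [h3, mul_inv, inv_inv, mul_comm]
    apply Subtype.ext
    rw [Subgroup.coe_one]
    by_cases hqj : q ∣ j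
    · obtain ⟨k, rfl⟩ := hqj
      rw [pow_mul, pow_mul, hS _ m.2, hS _ (hσ m m.2), one_pow, one_mul] at h2
      exact inv_eq_one.mp h2.symm
    · have hcop : Nat.Coprime j q := (Nat.Prime.coprime_iff_not_dvd hq).2 hqj |>.symm
      obtain ⟨u, v, huv⟩ : ∃ u v : ℤ, (j : ℤ) * u + (q : ℤ) * v = 1 := by
        refine ⟨Nat.gcdA j q, Nat.gcdB j q, ?_⟩
        have := Nat.gcd_eq_gcd_ab j q
        rw [hcop] at this
        exact_mod_cast this.symm
      have h3 : σ m = ((m : A) ^ j * (m : A)⁻¹) ^ u := by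
        calc σ m = (σ m) ^ ((j : ℤ) * u + (q : ℤ) * v) := by rw [huv, zpow_one]
          _ = ((σ m) ^ j) ^ u * ((σ m) ^ q) ^ v := by
            rw [zpow_add, zpow_mul, zpow_mul, zpow_natCast, zpow_natCast]
          _ = ((m : A) ^ j * (m : A)⁻¹) ^ u := by rw [hS _ (hσ m m.2), one_zpow, mul_one, h2]
      have h4 : σ m = m := by
        apply hE m m.2
        rw [h3]
        exact zpow_mem (mul_mem (pow_mem (mem_zpowers _) _) (inv_mem (mem_zpowers _))) _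
      rw [h4] at h2
      have h5 : (m : A)⁻¹ = 1 := by
        have := h2.symm
        rwa [mul_eq_left] at this
      exact inv_eq_one.mp h5
  have hsurj := Finite.injective_iff_surjective.mp hinj
  obtain ⟨m, hm⟩ := hsurj ⟨κ, hκ⟩
  exact ⟨m, m.2, congrArg Subtype.val hm⟩

/-- `z` normalizes a finite `Q` in both directions -/
theorem tw_N1_norm {X : Type} [Group X] [Finite X] {z : X} {Q : Subgroup X}
    (hzQ : ∀ x ∈ Q, z * x * z⁻¹ ∈ Q) (i : ℤ) : ∀ x ∈ Q, z ^ i * x * (z ^ i)⁻¹ ∈ Q := by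
  have h1 : ∀ n : ℕ, ∀ x ∈ Q, z ^ n * x * (z ^ n)⁻¹ ∈ Q := by
    intro n
    induction n with
    | zero => intro x hx; simpa using hx
    | succ n ih =>
      intro x hx
      have h2 := hzQ _ (ih x hx)
      rwa [show z * (z ^ n * x * (z ^ n)⁻¹) * z⁻¹ = z ^ (n + 1) * x * (z ^ (n + 1))⁻¹ by
        rw [pow_succ']; group] at h2
  obtain ⟨n, hn⟩ : ∃ n : ℕ, z ^ n = z ^ i := by
    have h3 : z ^ i ∈ Submonoid.powers z := by
      rw [mem_powers_iff_mem_zpowers]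
      exact ⟨i, rfl⟩
    exact h3
  rw [← hn]
  exact h1 n

/-- Lemma N, case 1: `y` lies in an abelian subgroup `Q` normalized by `z`.

Proof. `κ = y⁻¹ * (z⁻¹ * y * z) ∈ B ⊓ Q`: commutes with `y`; `z⁻¹ * y * z = y * κ` (so `g = z`);
`κ ^ q = (y ^ q)⁻¹ * z⁻¹ * y ^ q * z = 1` (`Q` abelian; `z⁻¹` also normalizes `Q` since `X` is
finite). Let `j : ℕ`, `w = y * κ ^ j`, `L = closure {z, w}` and let `N` be a subgroup with `z ∈ N`,
normalized by `L`. For `m` in `X₀ = closure {z ^ i * κ * (z ^ i)⁻¹ | i : ℤ} ≤ B ⊓ Q` (all elements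
of `X₀` satisfy `m ^ q = 1`, `X₀` is abelian and normalized by `z`) put
`φ m = m * (m ^ j)⁻¹ * (z⁻¹ * m * z) ^ j`. `φ` is a homomorphism `X₀ → X₀`.
`φ` is injective: let `φ m = 1`, `m ≠ 1`: `(z⁻¹ * m * z) ^ j = m⁻¹ * m ^ j`. If `q ∣ j` this gives
`m = 1`. So `q ∤ j` and `z⁻¹ * m * z` (of order dividing `q`) is a power of `m`:
`z⁻¹ * m * z ∈ zpowers m`; `hE` gives `z * m = m * z`, so `φ m = m ≠ 1`, contradiction. So `φ` is
surjective (`X₀` finite).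
`φ (z ^ i * κ * (z ^ i)⁻¹) ∈ N`: `w⁻¹ * (z⁻¹ * w * z) = φ κ` (compute in the abelian group `Q`:
`w⁻¹ * (z⁻¹ * w * z) = κ ^ (-j) * y⁻¹ * (y * κ) * (z⁻¹ * κ * z) ^ j`) and this element is
`(w⁻¹ * z⁻¹ * w) * z ∈ N`; conjugate by powers of `z ∈ L`. So `φ X₀ ≤ N` (generators), and
`κ ∈ X₀ = φ X₀ ≤ N`. -/
theorem tw_N1 {X : Type} [Group X] [Finite X] {q : ℕ} (hq : q.Prime) {z y : X} (B : Subgroup X)
    [B.Normal] (hy : y ^ q = 1) (hβ : y⁻¹ * (z⁻¹ * y * z) ∈ B) (hne : y⁻¹ * (z⁻¹ * y * z) ≠ 1)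
    (hE : ∀ m ∈ B, m ^ q = 1 → z⁻¹ * m * z ∈ zpowers m → z * m = m * z)
    (Q : Subgroup X) (hyQ : y ∈ Q) (hzQ : ∀ x ∈ Q, z * x * z⁻¹ ∈ Q)
    (hQab : ∀ x ∈ Q, ∀ w ∈ Q, x * w = w * x) :
    ∃ κ ∈ B, κ ^ q = 1 ∧ κ ≠ 1 ∧ y * κ = κ * y ∧ (∃ g, g⁻¹ * y * g = y * κ) ∧
      ∀ j : ℕ, InNC (closure {z, y * κ ^ j}) z κ := by
  have hzi := fun i : ℤ => tw_N1_norm hzQ i
  have hzinv : ∀ x ∈ Q, z⁻¹ * x * z ∈ Q := by
    intro x hx
    have h1 := hzi (-1) x hx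
    simpa using h1
  set κ := y⁻¹ * (z⁻¹ * y * z) with hκdef
  have hκQ : κ ∈ Q := Q.mul_mem (Q.inv_mem hyQ) (hzinv y hyQ)
  have hκq : κ ^ q = 1 := by
    have hc : Commute y⁻¹ (z⁻¹ * y * z) := hQab _ (Q.inv_mem hyQ) _ (hzinv y hyQ)
    have h1 : (z⁻¹ * y * z) ^ q = z⁻¹ * y ^ q * z := by
      have h2 : z⁻¹ * y * z = z⁻¹ * y * (z⁻¹)⁻¹ := by rw [inv_inv]
      rw [h2, conj_pow, inv_inv]
    rw [hκdef, hc.mul_pow, h1, inv_pow, hy]
    group
  have hyκ : y * κ = z⁻¹ * y * z := by rw [hκdef, mul_inv_cancel_left]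
  refine ⟨κ, hβ, hκq, hne, hQab _ hyQ _ hκQ, ⟨z, hyκ.symm⟩, ?_⟩
  intro j N hzN hLN
  let _ : CommGroup Q := { (inferInstance : Group Q) with
    mul_comm := fun a b => Subtype.ext (hQab a a.2 b b.2) }
  let σ : Q →* Q :=
    { toFun := fun x => ⟨z⁻¹ * x * z, hzinv x x.2⟩
      map_one' := by
        apply Subtype.ext
        simp
      map_mul' := by
        intro a b
        apply Subtype.ext
        simp [mul_assoc] }
  let φ : Q →* Q :=
    { toFun := fun m => m * (m ^ j)⁻¹ * (σ m) ^ j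
      map_one' := by simp
      map_mul' := by
        intro a b
        simp only [map_mul, mul_pow, mul_inv]
        ac_rfl }
  let c : ℤ → Q := fun i => ⟨z ^ i * κ * (z ^ i)⁻¹, hzi i κ hκQ⟩
  let S : Subgroup Q := closure (Set.range c)
  have hc0 : c 0 = ⟨κ, hκQ⟩ := by
    apply Subtype.ext
    simp [c]
  have hσc : ∀ i, σ (c i) = c (i - 1) := by
    intro i
    apply Subtype.ext
    change z⁻¹ * (z ^ i * κ * (z ^ i)⁻¹) * z = z ^ (i - 1) * κ * (z ^ (i - 1))⁻¹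
    rw [zpow_sub, zpow_one]
    have h1 : z ^ i * z⁻¹ = z⁻¹ * z ^ i := by
      rw [← zpow_neg_one, ← zpow_add, ← zpow_add, add_comm]
    rw [h1]
    group
  have hSσ : ∀ m ∈ S, σ m ∈ S := by
    have h1 : S ≤ S.comap σ := by
      rw [closure_le]
      rintro _ ⟨i, rfl⟩
      change σ (c i) ∈ S
      rw [hσc]
      exact subset_closure ⟨i - 1, rfl⟩
    exact fun m hm => h1 hm
  have hSq : ∀ m ∈ S, m ^ q = 1 := by
    have h1 : S ≤ (powMonoidHom q : Q →* Q).ker := by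
      rw [closure_le]
      rintro _ ⟨i, rfl⟩
      change (c i) ^ q = 1
      apply Subtype.ext
      change (z ^ i * κ * (z ^ i)⁻¹) ^ q = 1
      rw [conj_pow, hκq]
      group
    exact fun m hm => h1 hm
  have hSB : ∀ m ∈ S, (m : X) ∈ B := by
    have h1 : S ≤ B.comap Q.subtype := by
      rw [closure_le]
      rintro _ ⟨i, rfl⟩
      exact Subgroup.Normal.conj_mem inferInstance κ hβ (z ^ i)
    exact fun m hm => h1 hm
  have hSE : ∀ m ∈ S, σ m ∈ zpowers m → σ m = m := by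
    intro m hm h1
    have h2 : z⁻¹ * (m : X) * z ∈ zpowers (m : X) := by
      obtain ⟨k, hk⟩ := h1
      exact ⟨k, congrArg Subtype.val hk⟩
    have h3 := hE m (hSB m hm) (congrArg Subtype.val (hSq m hm)) h2
    apply Subtype.ext
    change z⁻¹ * (m : X) * z = m
    rw [mul_assoc, ← h3, inv_mul_cancel_left]
  obtain ⟨m, hmS, hm⟩ := tw_N1_comm hq σ j S hSσ hSq hSE ⟨κ, hκQ⟩
    (by rw [← hc0]; exact subset_closure ⟨0, rfl⟩)
  -- the image of `S` under `φ` lies in `N`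
  set w := y * κ ^ j with hw
  have hzL : z ∈ closure {z, w} := subset_closure (by simp)
  have hwL : w ∈ closure {z, w} := subset_closure (by simp)
  have hφκ : ((φ ⟨κ, hκQ⟩ : Q) : X) = (w⁻¹ * z⁻¹ * w) * z := by
    have hwQ : w ∈ Q := Q.mul_mem hyQ (Q.pow_mem hκQ j)
    have h1 : z⁻¹ * w * z = y * κ * (z⁻¹ * κ * z) ^ j := by
      have h2 : z⁻¹ * κ * z = z⁻¹ * κ * (z⁻¹)⁻¹ := by rw [inv_inv]
      rw [h2, conj_pow, hyκ, hw]
      group
    have h3 : φ ⟨κ, hκQ⟩ = (⟨w, hwQ⟩ : Q)⁻¹ * ((⟨y, hyQ⟩ : Q) * ⟨κ, hκQ⟩ * (σ ⟨κ, hκQ⟩) ^ j) := by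
      have h4 : (⟨w, hwQ⟩ : Q) = ⟨y, hyQ⟩ * ⟨κ, hκQ⟩ ^ j := rfl
      rw [h4]
      change (⟨κ, hκQ⟩ : Q) * ((⟨κ, hκQ⟩ : Q) ^ j)⁻¹ * (σ ⟨κ, hκQ⟩) ^ j = _
      rw [mul_inv]
      generalize (⟨y, hyQ⟩ : Q) = a
      generalize σ ⟨κ, hκQ⟩ ^ j = b
      generalize (⟨κ, hκQ⟩ : Q) = k
      calc k * (k ^ j)⁻¹ * b = (a⁻¹ * a) * (k * (k ^ j)⁻¹ * b) := by rw [inv_mul_cancel, one_mul]
        _ = a⁻¹ * (k ^ j)⁻¹ * (a * k * b) := by ac_rfl
    rw [h3]
    change w⁻¹ * (y * κ * (z⁻¹ * κ * z) ^ j) = _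
    rw [← h1]
    group
  have hφκN : ((φ ⟨κ, hκQ⟩ : Q) : X) ∈ N := by
    rw [hφκ]
    apply N.mul_mem _ hzN
    have h1 := hLN w⁻¹ (inv_mem hwL) z⁻¹ (N.inv_mem hzN)
    rwa [inv_inv] at h1
  have hφc : ∀ i : ℤ, ((φ (c i) : Q) : X) = z ^ i * ((φ ⟨κ, hκQ⟩ : Q) : X) * (z ^ i)⁻¹ := by
    intro i
    change (z ^ i * κ * (z ^ i)⁻¹) * ((z ^ i * κ * (z ^ i)⁻¹) ^ j)⁻¹ *
      (z⁻¹ * (z ^ i * κ * (z ^ i)⁻¹) * z) ^ j =
      z ^ i * (κ * (κ ^ j)⁻¹ * (z⁻¹ * κ * z) ^ j) * (z ^ i)⁻¹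
    have h1 : z⁻¹ * (z ^ i * κ * (z ^ i)⁻¹) * z = z ^ i * (z⁻¹ * κ * z) * (z ^ i)⁻¹ := by
      have h2 : z⁻¹ * z ^ i = z ^ i * z⁻¹ := by
        rw [← zpow_neg_one, ← zpow_add, ← zpow_add, add_comm]
      have h3 : (z ^ i)⁻¹ * z = z * (z ^ i)⁻¹ := by
        rw [← zpow_neg, ← zpow_add_one, ← zpow_one_add, add_comm]
      calc z⁻¹ * (z ^ i * κ * (z ^ i)⁻¹) * z = (z⁻¹ * z ^ i) * κ * ((z ^ i)⁻¹ * z) := by group
        _ = z ^ i * (z⁻¹ * κ * z) * (z ^ i)⁻¹ := by rw [h2, h3]; group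
    rw [h1, conj_pow, conj_pow]
    group
  have hSN : S ≤ (N.comap Q.subtype).comap φ := by
    rw [closure_le]
    rintro _ ⟨i, rfl⟩
    change ((φ (c i) : Q) : X) ∈ N
    rw [hφc]
    exact hLN _ (zpow_mem hzL i) _ hφκN
  have hfin : ((φ m : Q) : X) ∈ N := hSN hmS
  have h1 : φ m = ⟨κ, hκQ⟩ := hm
  rw [h1] at hfin
  exact hfin

end Pool.Agent.Lib.MP_544bd1_al
end

section

/-!
Two generators, part 2: the element `κ`, nonabelian case.
-/

namespace Pool.Agent.Lib.MP_544bd1_al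

open Subgroup

/-- Lemma N, case 2: the `q`-group `Q = closure {z ^ i * y * (z ^ i)⁻¹ | i : ℤ}` is not abelian.

Proof. `Q` is a finite nonabelian `q`-group (so nilpotent): there is `x ∈ Q` with `x` not central in
`Q` and all `⁅x, w⁆`, `w ∈ Q`, central in `Q` (a nontrivial central element of `Q ⧸ center Q`, or
`upperCentralSeries`). As `Q` is generated by the `z ^ i * y * (z ^ i)⁻¹` and `z` normalizes `Q`,
some conjugate of `x` by a power of `z` (again called `x`, same properties) does not commute with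
`y`. Put `κ = y⁻¹ * x⁻¹ * y * x ≠ 1`: central in `Q`, in `B` (`hQc`); `x⁻¹ * y * x = y * κ`
(`g = x`), `κ` commutes with `y`, `1 = x⁻¹ * y ^ q * x = (y * κ) ^ q = κ ^ q`.
Let `j : ℕ`, `w = y * κ ^ j`, `N` a subgroup with `z ∈ N` normalized by `L = closure {z, w}`.
(a) `Q ≤ {w ^ k * ν * ζ | k : ℤ, ν ∈ N ⊓ Q, ζ ∈ center Q}`: for the generators,
`z ^ i * y * (z ^ i)⁻¹ = (z ^ i * w * (z ^ i)⁻¹) * (z ^ i * κ ^ (-j) * (z ^ i)⁻¹)`, the second factor
is central in `Q`, and `z ^ i * w * (z ^ i)⁻¹ = w * ((w⁻¹ * z ^ i * w) * (z ^ i)⁻¹)` with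
`(w⁻¹ * z ^ i * w) * (z ^ i)⁻¹ ∈ N` (and in `Q`, as `w ∈ Q`); the set is closed under products and
inverses (`w` normalizes `N ⊓ Q`). So `x = w ^ k * ν * ζ`.
(b) `κ = y⁻¹ * x⁻¹ * y * x = w⁻¹ * x⁻¹ * w * x` (`y = w * κ ^ (-j)`, `κ` central in `Q`, `x ∈ Q`)
`= w⁻¹ * ν⁻¹ * w * ν ∈ N`. -/
theorem tw_N2 {X : Type} [Group X] [Finite X] {q : ℕ} (hq : q.Prime) {z y : X} (B : Subgroup X)
    [B.Normal] (hy : y ^ q = 1) (Q : Subgroup X) (hQ : IsPGroup q Q)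
    (hQcl : Q = closure {x | ∃ i : ℤ, x = z ^ i * y * (z ^ i)⁻¹})
    (hQc : ∀ x ∈ Q, ∀ w ∈ Q, x⁻¹ * w⁻¹ * x * w ∈ B) (hnc : ∃ x ∈ Q, ∃ w ∈ Q, x * w ≠ w * x) :
    ∃ κ ∈ B, κ ^ q = 1 ∧ κ ≠ 1 ∧ y * κ = κ * y ∧ (∃ g, g⁻¹ * y * g = y * κ) ∧
      ∀ j : ℕ, InNC (closure {z, y * κ ^ j}) z κ := by
  have : Fact q.Prime := ⟨hq⟩
  have hgen : ∀ i : ℤ, z ^ i * y * (z ^ i)⁻¹ ∈ Q := by
    intro i
    rw [hQcl]
    exact subset_closure ⟨i, rfl⟩
  have hyQ : y ∈ Q := by simpa using hgen 0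
  have hzi : ∀ i : ℤ, ∀ x ∈ Q, z ^ i * x * (z ^ i)⁻¹ ∈ Q := by
    intro i
    have h1 : Q ≤ Q.comap (MulAut.conj (z ^ i)).toMonoidHom := by
      conv_lhs => rw [hQcl]
      rw [closure_le]
      rintro _ ⟨k, rfl⟩
      change z ^ i * (z ^ k * y * (z ^ k)⁻¹) * (z ^ i)⁻¹ ∈ Q
      have h2 := hgen (i + k)
      rwa [show z ^ i * (z ^ k * y * (z ^ k)⁻¹) * (z ^ i)⁻¹ =
        z ^ (i + k) * y * (z ^ (i + k))⁻¹ by rw [zpow_add]; group]
    exact fun x hx => h1 hx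
  -- the element x of the second centre
  obtain ⟨x, hxQ, hxz, hxy⟩ : ∃ x ∈ Q, (∀ w ∈ Q, ∀ u ∈ Q,
      u * (x⁻¹ * w⁻¹ * x * w) = (x⁻¹ * w⁻¹ * x * w) * u) ∧ x * y ≠ y * x := by
    obtain ⟨x, hxQ, hxz, hxn⟩ : ∃ x ∈ Q, (∀ w ∈ Q, ∀ u ∈ Q,
        u * (x⁻¹ * w⁻¹ * x * w) = (x⁻¹ * w⁻¹ * x * w) * u) ∧ ¬ ∀ w ∈ Q, x * w = w * x := by
      have h1 : center Q ≠ ⊤ := by
        intro h
        obtain ⟨x, hx, w, hw, hne⟩ := hnc
        have h2 : (⟨w, hw⟩ : Q) ∈ center Q := by rw [h]; trivial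
        rw [mem_center_iff] at h2
        exact hne (congrArg Subtype.val (h2 ⟨x, hx⟩))
      have h2 : Nontrivial (Q ⧸ center Q) := by
        rw [QuotientGroup.nontrivial_iff]
        exact h1
      have h3 : IsPGroup q (Q ⧸ center Q) := hQ.to_quotient _
      have := h3.center_nontrivial
      obtain ⟨⟨a, ha⟩, hne⟩ := exists_ne (1 : center (Q ⧸ center Q))
      obtain ⟨x, rfl⟩ := QuotientGroup.mk'_surjective _ a
      have hne' : QuotientGroup.mk' (center Q) x ≠ 1 := fun h => hne (Subtype.ext h)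
      have hxc : x ∉ center Q := fun h => hne' ((QuotientGroup.eq_one_iff x).2 h)
      refine ⟨x, x.2, ?_, ?_⟩
      · intro w hw u hu
        rw [mem_center_iff] at ha
        have h4 := ha (QuotientGroup.mk' (center Q) ⟨w, hw⟩)
        have h5 : x⁻¹ * (⟨w, hw⟩ : Q)⁻¹ * x * ⟨w, hw⟩ ∈ center Q := by
          rw [← QuotientGroup.eq_one_iff, ← QuotientGroup.mk'_apply]
          rw [map_mul, map_mul, map_mul, map_inv, map_inv, mul_assoc, ← h4]
          group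
        rw [mem_center_iff] at h5
        exact congrArg Subtype.val (h5 ⟨u, hu⟩)
      · intro h
        apply hxc
        rw [mem_center_iff]
        intro g
        exact Subtype.ext (h g g.2).symm
    by_contra hcon
    push Not at hcon
    -- all conjugates of x by powers of z commute with y
    have h1 : ∀ i : ℤ, (z ^ i * x * (z ^ i)⁻¹) * y = y * (z ^ i * x * (z ^ i)⁻¹) := by
      intro i
      apply hcon _ (hzi i x hxQ)
      intro w hw u hu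
      have h2 := hxz (z ^ (-i) * w * (z ^ (-i))⁻¹) (hzi (-i) w hw) (z ^ (-i) * u * (z ^ (-i))⁻¹)
        (hzi (-i) u hu)
      have h3 := congrArg (fun t => z ^ i * t * (z ^ i)⁻¹) h2
      simp only [zpow_neg, inv_inv] at h3
      calc u * ((z ^ i * x * (z ^ i)⁻¹)⁻¹ * w⁻¹ * (z ^ i * x * (z ^ i)⁻¹) * w)
          = z ^ i * ((z ^ i)⁻¹ * u * z ^ i * (x⁻¹ * ((z ^ i)⁻¹ * w * z ^ i)⁻¹ * x *
            ((z ^ i)⁻¹ * w * z ^ i))) * (z ^ i)⁻¹ := by group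
        _ = _ := h3
        _ = _ := by group
    apply hxn
    have h2 : Q ≤ centralizer {x} := by
      conv_lhs => rw [hQcl]
      rw [closure_le]
      rintro _ ⟨k, rfl⟩
      rw [SetLike.mem_coe, mem_centralizer_singleton_iff]
      have h3 := congrArg (fun t => z ^ k * t * (z ^ k)⁻¹) (h1 (-k))
      simp only [zpow_neg, inv_inv] at h3
      calc z ^ k * y * (z ^ k)⁻¹ * x = z ^ k * (y * ((z ^ k)⁻¹ * x * z ^ k)) * (z ^ k)⁻¹ := by group
        _ = z ^ k * ((z ^ k)⁻¹ * x * z ^ k * y) * (z ^ k)⁻¹ := h3.symm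
        _ = x * (z ^ k * y * (z ^ k)⁻¹) := by group
    intro w hw
    exact (mem_centralizer_singleton_iff.1 (h2 hw)).symm
  set κ := y⁻¹ * x⁻¹ * y * x with hκdef
  have hκQ : κ ∈ Q :=
    Q.mul_mem (Q.mul_mem (Q.mul_mem (Q.inv_mem hyQ) (Q.inv_mem hxQ)) hyQ) hxQ
  have hκc : ∀ u ∈ Q, u * κ = κ * u := by
    intro u hu
    have h1 := hxz y hyQ u hu
    have h2 : κ = (x⁻¹ * y⁻¹ * x * y)⁻¹ := by rw [hκdef]; group
    have h3 : Commute u (x⁻¹ * y⁻¹ * x * y) := h1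
    rw [h2]
    exact h3.inv_right
  have hyκ : x⁻¹ * y * x = y * κ := by rw [hκdef]; group
  have hκq : κ ^ q = 1 := by
    have h1 : (x⁻¹ * y * x) ^ q = x⁻¹ * y ^ q * x := by
      have h2 : x⁻¹ * y * x = x⁻¹ * y * (x⁻¹)⁻¹ := by rw [inv_inv]
      rw [h2, conj_pow, inv_inv]
    have hc : Commute y κ := hκc y hyQ
    rw [hyκ, hc.mul_pow, hy, one_mul, mul_one, inv_mul_cancel] at h1
    exact h1
  have hκ1 : κ ≠ 1 := by
    intro h
    rw [h, mul_one] at hyκ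
    apply hxy
    calc x * y = x * (x⁻¹ * y * x) := by rw [hyκ]
      _ = y * x := by group
  refine ⟨κ, hQc y hyQ x hxQ, hκq, hκ1, hκc y hyQ, ⟨x, hyκ⟩, ?_⟩
  intro j N hzN hLN
  set w := y * κ ^ j with hw
  have hzL : z ∈ closure {z, w} := subset_closure (by simp)
  have hwL : w ∈ closure {z, w} := subset_closure (by simp)
  have hwQ : w ∈ Q := Q.mul_mem hyQ (Q.pow_mem hκQ j)
  let H : Subgroup X :=
    { carrier := {x | x ∈ Q ∧ (∀ n ∈ N, n ∈ Q → x * n * x⁻¹ ∈ N ∧ x⁻¹ * n * x ∈ N) ∧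
        w⁻¹ * x⁻¹ * w * x ∈ N}
      mul_mem' := by
        rintro a b ⟨ha1, ha2, ha3⟩ ⟨hb1, hb2, hb3⟩
        refine ⟨Q.mul_mem ha1 hb1, ?_, ?_⟩
        · intro n hn hnQ
          refine ⟨?_, ?_⟩
          · have h1 := (hb2 n hn hnQ).1
            have h2 := (ha2 _ h1 (Q.mul_mem (Q.mul_mem hb1 hnQ) (Q.inv_mem hb1))).1
            rwa [show a * (b * n * b⁻¹) * a⁻¹ = a * b * n * (a * b)⁻¹ by group] at h2
          · have h1 := (ha2 n hn hnQ).2
            have h2 := (hb2 _ h1 (Q.mul_mem (Q.mul_mem (Q.inv_mem ha1) hnQ) ha1)).2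
            rwa [show b⁻¹ * (a⁻¹ * n * a) * b = (a * b)⁻¹ * n * (a * b) by group] at h2
        · have h1 := (hb2 _ ha3 (Q.mul_mem (Q.mul_mem (Q.mul_mem (Q.inv_mem hwQ) (Q.inv_mem ha1))
            hwQ) ha1)).2
          have h2 := N.mul_mem hb3 h1
          rwa [show w⁻¹ * b⁻¹ * w * b * (b⁻¹ * (w⁻¹ * a⁻¹ * w * a) * b) =
            w⁻¹ * (a * b)⁻¹ * w * (a * b) by group] at h2
      one_mem' := by
        refine ⟨Q.one_mem, ?_, ?_⟩
        · intro n hn _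
          simpa using hn
        · simp
      inv_mem' := by
        rintro a ⟨ha1, ha2, ha3⟩
        refine ⟨Q.inv_mem ha1, ?_, ?_⟩
        · intro n hn hnQ
          have h1 := ha2 n hn hnQ
          rw [inv_inv]
          exact ⟨h1.2, h1.1⟩
        · have h1 := (ha2 _ (N.inv_mem ha3) (Q.inv_mem (Q.mul_mem (Q.mul_mem (Q.mul_mem
            (Q.inv_mem hwQ) (Q.inv_mem ha1)) hwQ) ha1))).1
          rwa [show a * (w⁻¹ * a⁻¹ * w * a)⁻¹ * a⁻¹ = w⁻¹ * a⁻¹⁻¹ * w * a⁻¹ by group] at h1 }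
  have hwH : w ∈ H := by
    refine ⟨hwQ, ?_, ?_⟩
    · intro n hn _
      have h1 := hLN w hwL n hn
      have h2 := hLN w⁻¹ (inv_mem hwL) n hn
      rw [inv_inv] at h2
      exact ⟨h1, h2⟩
    · have : w⁻¹ * w⁻¹ * w * w = 1 := by group
      rw [this]
      exact N.one_mem
  have hNH : ∀ ν ∈ N, ν ∈ Q → ν ∈ H := by
    intro ν hν hνQ
    refine ⟨hνQ, ?_, ?_⟩
    · intro n hn _
      exact ⟨N.mul_mem (N.mul_mem hν hn) (N.inv_mem hν), N.mul_mem (N.mul_mem (N.inv_mem hν) hn) hν⟩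
    · have h1 := hLN w⁻¹ (inv_mem hwL) ν⁻¹ (N.inv_mem hν)
      rw [inv_inv] at h1
      exact N.mul_mem h1 hν
  have hZH : ∀ ζ ∈ Q, (∀ u ∈ Q, u * ζ = ζ * u) → ζ ∈ H := by
    intro ζ hζ hc
    refine ⟨hζ, ?_, ?_⟩
    · intro n hn hnQ
      have h1 : ζ * n * ζ⁻¹ = n := by rw [← hc n hnQ]; group
      have h2 : ζ⁻¹ * n * ζ = n := by rw [mul_assoc, hc n hnQ]; group
      rw [h1, h2]
      exact ⟨hn, hn⟩
    · have h1 : w⁻¹ * ζ⁻¹ * w * ζ = 1 := by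
        rw [mul_assoc, hc w hwQ]; group
      rw [h1]
      exact N.one_mem
  have hQH : Q ≤ H := by
    conv_lhs => rw [hQcl]
    rw [closure_le]
    rintro _ ⟨i, rfl⟩
    have h1 : z ^ i * y * (z ^ i)⁻¹ = (w * ((w⁻¹ * z ^ i * w) * (z ^ i)⁻¹)) *
        (z ^ i * (κ ^ j)⁻¹ * (z ^ i)⁻¹) := by
      rw [hw]; group
    rw [SetLike.mem_coe, h1]
    apply H.mul_mem (H.mul_mem hwH _)
    · apply hZH _ (hzi i _ (Q.inv_mem (Q.pow_mem hκQ j)))
      intro u hu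
      have h2 : Commute ((z ^ i)⁻¹ * u * z ^ i) κ := by
        apply hκc
        have := hzi (-i) u hu
        simpa using this
      have h3 : Commute ((z ^ i)⁻¹ * u * z ^ i) (κ ^ j)⁻¹ := (h2.pow_right j).inv_right
      have h4 := congrArg (fun t => z ^ i * t * (z ^ i)⁻¹) h3.eq
      calc u * (z ^ i * (κ ^ j)⁻¹ * (z ^ i)⁻¹)
          = z ^ i * ((z ^ i)⁻¹ * u * z ^ i * (κ ^ j)⁻¹) * (z ^ i)⁻¹ := by group
        _ = z ^ i * ((κ ^ j)⁻¹ * ((z ^ i)⁻¹ * u * z ^ i)) * (z ^ i)⁻¹ := h4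
        _ = _ := by group
    · apply hNH
      · have h2 := hLN w⁻¹ (inv_mem hwL) (z ^ i) (N.zpow_mem hzN i)
        rw [inv_inv] at h2
        exact N.mul_mem h2 (N.inv_mem (N.zpow_mem hzN i))
      · have h2 := Q.mul_mem (Q.inv_mem hwQ) (hzi i w hwQ)
        rwa [show w⁻¹ * (z ^ i * w * (z ^ i)⁻¹) = w⁻¹ * z ^ i * w * (z ^ i)⁻¹ by group] at h2
  have hfin := (hQH hxQ).2.2
  have h1 : w⁻¹ * x⁻¹ * w * x = κ := by
    have h2 : Commute x (κ ^ j) := (show Commute x κ from hκc x hxQ).pow_right j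
    have h3 : Commute y (κ ^ j) := (show Commute y κ from hκc y hyQ).pow_right j
    have h4 : w * x = y * x * κ ^ j := by rw [hw, mul_assoc, ← h2.eq, mul_assoc]
    have h5 : w⁻¹ = (κ ^ j)⁻¹ * y⁻¹ := by rw [hw, mul_inv_rev]
    have h6 : Commute (y⁻¹ * x⁻¹ * y * x) (κ ^ j) := by
      rw [← hκdef]
      exact (Commute.refl κ).pow_right j
    calc w⁻¹ * x⁻¹ * w * x = (κ ^ j)⁻¹ * ((y⁻¹ * x⁻¹ * y * x) * κ ^ j) := by
          rw [mul_assoc (w⁻¹ * x⁻¹), h4, h5]; group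
      _ = κ := by rw [h6.eq, inv_mul_cancel_left]
  rw [h1] at hfin
  exact hfin

end Pool.Agent.Lib.MP_544bd1_al
end

section

/-!
Two generators, part 2: the element `κ` in the quotient.
-/

namespace Pool.Agent.Lib.MP_544bd1_al

open Subgroup

/-- Lemma N.
Proof. `Q = closure {z ^ i * y * (z ^ i)⁻¹ | i : ℤ}`: contains `y`, normalized by `z` and `z⁻¹`.
In `X ⧸ B` the image of `y` commutes with the image of `z` (`hβ`), so the image of `Q` is
`⟨y⟩`: `Q ≤ {y ^ k * b | b ∈ B}`; so all commutators of elements of `Q` are in `B`, and `Q` is a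
`q`-group (`x ∈ Q`: `x ^ q ∈ B`, `B` a `q`-group). Apply `tw_N1` or `tw_N2`. -/
theorem tw_N {X : Type} [Group X] [Finite X] {q : ℕ} (hq : q.Prime) {z y : X} (B : Subgroup X)
    [B.Normal] (hB : IsPGroup q B) (hy : y ^ q = 1) (hβ : y⁻¹ * (z⁻¹ * y * z) ∈ B)
    (hne : y⁻¹ * (z⁻¹ * y * z) ≠ 1)
    (hE : ∀ m ∈ B, m ^ q = 1 → z⁻¹ * m * z ∈ zpowers m → z * m = m * z) :
    ∃ κ ∈ B, κ ^ q = 1 ∧ κ ≠ 1 ∧ y * κ = κ * y ∧ (∃ g, g⁻¹ * y * g = y * κ) ∧
      ∀ j : ℕ, InNC (closure {z, y * κ ^ j}) z κ := by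
  classical
  obtain ⟨Q, hQ⟩ : ∃ Q : Subgroup X, Q = closure {x | ∃ i : ℤ, x = z ^ i * y * (z ^ i)⁻¹} :=
    ⟨_, rfl⟩
  have hyQ : y ∈ Q := by
    rw [hQ]
    exact subset_closure ⟨0, by simp⟩
  have hzQ : ∀ x ∈ Q, z * x * z⁻¹ ∈ Q := by
    intro x hx
    rw [hQ] at hx ⊢
    induction hx using closure_induction with
    | mem x hx =>
      obtain ⟨i, rfl⟩ := hx
      refine subset_closure ⟨1 + i, ?_⟩
      rw [zpow_add, zpow_one]
      group
    | one => simp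
    | mul x y _ _ hx hy =>
      have h : z * (x * y) * z⁻¹ = (z * x * z⁻¹) * (z * y * z⁻¹) := by group
      rw [h]
      exact mul_mem hx hy
    | inv x _ hx =>
      have h : z * x⁻¹ * z⁻¹ = (z * x * z⁻¹)⁻¹ := by group
      rw [h]
      exact inv_mem hx
  -- the quotient
  have hcomm : (QuotientGroup.mk' B z) * (QuotientGroup.mk' B y) =
      (QuotientGroup.mk' B y) * (QuotientGroup.mk' B z) := by
    have h1 : QuotientGroup.mk' B (y⁻¹ * (z⁻¹ * y * z)) = 1 := by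
      rw [← MonoidHom.mem_ker, QuotientGroup.ker_mk']
      exact hβ
    simp only [map_mul, map_inv] at h1
    have h2 := inv_mul_eq_one.mp h1
    -- h2 : mk y = (mk z)⁻¹ * mk y * mk z
    calc (QuotientGroup.mk' B z) * (QuotientGroup.mk' B y)
        = (QuotientGroup.mk' B z) * ((QuotientGroup.mk' B z)⁻¹ * (QuotientGroup.mk' B y) *
            (QuotientGroup.mk' B z)) := by rw [← h2]
      _ = _ := by group
  have hQz : ∀ x ∈ Q, QuotientGroup.mk' B x ∈ zpowers (QuotientGroup.mk' B y) := by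
    intro x hx
    have hle : Q ≤ (zpowers (QuotientGroup.mk' B y)).comap (QuotientGroup.mk' B) := by
      rw [hQ, closure_le]
      rintro _ ⟨i, rfl⟩
      show QuotientGroup.mk' B (z ^ i * y * (z ^ i)⁻¹) ∈ zpowers (QuotientGroup.mk' B y)
      have hc : Commute (QuotientGroup.mk' B z) (QuotientGroup.mk' B y) := hcomm
      have hc2 : Commute ((QuotientGroup.mk' B z) ^ i) (QuotientGroup.mk' B y) := hc.zpow_left i
      rw [map_mul, map_mul, map_inv, map_zpow, hc2.eq, mul_inv_cancel_right]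
      exact mem_zpowers _
    exact hle hx
  have hQc : ∀ x ∈ Q, ∀ w ∈ Q, x⁻¹ * w⁻¹ * x * w ∈ B := by
    intro x hx w hw
    obtain ⟨a, ha⟩ := mem_zpowers_iff.mp (hQz x hx)
    obtain ⟨b, hb⟩ := mem_zpowers_iff.mp (hQz w hw)
    rw [← QuotientGroup.ker_mk' B, MonoidHom.mem_ker]
    rw [map_mul, map_mul, map_mul, map_inv, map_inv, ← ha, ← hb]
    rw [← zpow_neg, ← zpow_neg, ← zpow_add, ← zpow_add, ← zpow_add]
    have h0 : -a + -b + a + b = 0 := by ring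
    rw [h0, zpow_zero]
  have hQp : IsPGroup q Q := by
    rintro ⟨x, hx⟩
    obtain ⟨a, ha⟩ := mem_zpowers_iff.mp (hQz x hx)
    have hxq : x ^ q ∈ B := by
      rw [← QuotientGroup.ker_mk' B, MonoidHom.mem_ker, map_pow, ← ha]
      rw [← zpow_natCast, ← zpow_mul, mul_comm, zpow_mul, zpow_natCast, ← map_pow, hy, map_one,
        one_zpow]
    obtain ⟨k, hk⟩ := hB ⟨x ^ q, hxq⟩
    refine ⟨1 + k, ?_⟩
    have hk' : (x ^ q) ^ q ^ k = 1 := congrArg Subtype.val hk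
    apply Subtype.ext
    show x ^ q ^ (1 + k) = 1
    rw [pow_add, pow_one, pow_mul]
    exact hk'
  by_cases hab : ∀ x ∈ Q, ∀ w ∈ Q, x * w = w * x
  · exact tw_N1 hq B hy hβ hne hE Q hyQ hzQ hab
  · push Not at hab
    exact tw_N2 hq B hy Q hQp hQ hQc hab

end Pool.Agent.Lib.MP_544bd1_al
end

section

/-!
Two generators, part 2: Step 0 of Theorem C.
-/

namespace Pool.Agent.Lib.MP_544bd1_al

open Subgroup

/-- a prime dividing the order of a finite group of exponent `k` divides `k` -/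
theorem tw_C0a_prime {G : Type} [Group G] [Finite G] {k r : ℕ} (hr : r.Prime)
    (hexp : ∀ x : G, x ^ k = 1) (h : r ∣ Nat.card G) : r ∣ k := by
  haveI : Fact r.Prime := ⟨hr⟩
  obtain ⟨x, hx⟩ := exists_prime_orderOf_dvd_card' r h
  rw [← hx]
  exact orderOf_dvd_of_pow_eq_one (hexp x)

/-- conjugacy of Sylow type: `J` normal of exponent `k` coprime to `p`, `s`, `s'` elements with
`s ^ (p ^ a) = 1`, `H` a subgroup of `F` with `H ⊔ J = ⊤` and `H ⊓ J = ⊥`; then some `j⁻¹ * s * j`,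
`j ∈ J`, is in `H`.
Proof. `J ⊔ zpowers s = J (H ⊓ (J ⊔ zpowers s))` (Dedekind); `H ⊓ (J ⊔ zpowers s)` has the order of
`zpowers s` (`≅ (J ⊔ zpowers s) ⧸ J`), so it is a Sylow `p`-subgroup of `J ⊔ zpowers s`, as is
`zpowers s` (`p ∤ Nat.card J`): conjugate by an element of `J ⊔ zpowers s = zpowers s * J`, so by an
element of `J`. -/
theorem tw_C0a {F : Type} [Group F] [Finite F] {p a k : ℕ} (hp : p.Prime) (hk : ¬ p ∣ k)
    (J H : Subgroup F) [J.Normal] (hJ : ∀ x ∈ J, x ^ k = 1) (h1 : J ⊔ H = ⊤) (h2 : J ⊓ H = ⊥)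
    {s : F} (hs : s ^ (p ^ a) = 1) : ∃ j ∈ J, j⁻¹ * s * j ∈ H := by
  haveI : Fact p.Prime := ⟨hp⟩
  have hmul : ∀ g : F, ∃ j ∈ J, ∃ h ∈ H, j * h = g := by
    intro g
    have hg : g ∈ J ⊔ H := by rw [h1]; trivial
    exact Subgroup.mem_sup_of_normal_left.1 hg
  have hcompl : IsComplement' J H := by
    apply isComplement'_of_disjoint_and_mul_eq_univ
    · exact disjoint_iff.2 h2
    · rw [Set.eq_univ_iff_forall]
      intro g
      obtain ⟨j, hj, h, hh, rfl⟩ := hmul g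
      exact Set.mul_mem_mul hj hh
  have hcard : Nat.card (F ⧸ H) = Nat.card J := hcompl.index_eq_card
  have hnd : ¬ p ∣ Nat.card (F ⧸ H) := by
    rw [hcard]
    intro hdvd
    apply hk
    apply tw_C0a_prime hp (G := J) _ hdvd
    intro x
    exact Subtype.ext (by simpa using hJ (x : F) x.2)
  have hPG : IsPGroup p (zpowers s) := by
    rintro ⟨x, hx⟩
    obtain ⟨i, rfl⟩ := mem_zpowers_iff.1 hx
    refine ⟨a, ?_⟩
    apply Subtype.ext
    show (s ^ i) ^ (p ^ a) = 1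
    rw [← zpow_natCast, ← zpow_mul, mul_comm, zpow_mul, zpow_natCast, hs, one_zpow]
  obtain ⟨c, hc⟩ := hPG.nonempty_fixed_point_of_prime_not_dvd_card (F ⧸ H) hnd
  obtain ⟨g, rfl⟩ := QuotientGroup.mk_surjective c
  have h3 : ((s * g : F) : F ⧸ H) = ((g : F) : F ⧸ H) := hc ⟨s, mem_zpowers s⟩
  have h4 : g⁻¹ * (s * g) ∈ H := QuotientGroup.eq.1 h3.symm
  obtain ⟨j, hj, h, hh, rfl⟩ := hmul g
  refine ⟨j, hj, ?_⟩
  have h5 := H.mul_mem (H.mul_mem hh h4) (H.inv_mem hh)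
  rwa [show h * ((j * h)⁻¹ * (s * (j * h))) * h⁻¹ = j⁻¹ * s * j by group] at h5

/-- `F = ⟨z, y⟩`, `A` normal with `z ∈ A`, `y ^ r = 1` and `x ^ e ∈ K` for `x ∈ A`: then
`x ^ (r * e) ∈ K` for all `x` -/
theorem tw_C0_pow_mem {F : Type} [Group F] {z y : F} (hgen : closure {z, y} = ⊤)
    {A K : Subgroup F} {r e : ℕ} (hA : A.Normal) (hz : z ∈ A) (hy : y ^ r = 1)
    (hAK : ∀ x ∈ A, x ^ e ∈ K) (x : F) : x ^ (r * e) ∈ K := by
  -- `F ⧸ A` is generated by the image of `y`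
  have h1 : (x : F ⧸ A) ∈ zpowers (y : F ⧸ A) := by
    have h2 : (⊤ : Subgroup F) ≤ (zpowers (y : F ⧸ A)).comap (QuotientGroup.mk' A) := by
      rw [← hgen, closure_le]
      rintro w (rfl | rfl)
      · show QuotientGroup.mk' A w ∈ zpowers (y : F ⧸ A)
        rw [QuotientGroup.mk'_apply, (QuotientGroup.eq_one_iff w).2 hz]
        exact one_mem _
      · exact mem_zpowers _
    exact h2 (mem_top x)
  obtain ⟨i, hi⟩ := mem_zpowers_iff.1 h1
  have h3 : x ^ r ∈ A := by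
    rw [← QuotientGroup.eq_one_iff, QuotientGroup.mk_pow, ← hi, ← zpow_natCast, ← zpow_mul, mul_comm,
      zpow_mul, zpow_natCast, ← QuotientGroup.mk_pow, hy, QuotientGroup.mk_one, one_zpow]
  rw [pow_mul]
  exact hAK _ h3

/-- **Theorem C, Step 0** (reduction to `{p, q}`-groups).

Proof. Let `K₁ ≤ N₁`, `K₂ ≤ N₂` be given by `hz`, `hyO` (normal subgroups of `F = ⟨z, y⟩`);
`J = krad M F ⊓ krad N F` (exponent `gcd (M, N) =: k`, prime to `p` and `q`;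
`n = M * p ^ a = N * q ^ b` gives `M = k * q ^ b`, `N = k * p ^ a`, `n = k * p ^ a * q ^ b`).
(a) for `x ∈ F`, `x ^ (p ^ a * q ^ b) ∈ J`, i.e. `F ⧸ J` has exponent `p ^ a * q ^ b`: the commutator
subgroup of `F` is contained in `N₁ ⊓ N₂` (`F ⧸ N₁` is generated by the image of `y`, `F ⧸ N₂` by the
image of `z`); for `c ∈ N₁ ⊓ N₂`: `c ^ (p ^ a) ∈ K₁ ≤ krad M F`, `c ^ (q ^ b) ∈ K₂ ≤ krad N F`.
Work in `F ⧸ J`, with the images of `N₁, N₂`: `I = N₁ ⊓ N₂ ⊓ ...`. Precisely: for `x ∈ F` let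
`x' = x ^ (p ^ a * q ^ b)`; the order of `x'` divides `k`. `F ⧸ krad M F` : it is an extension of a
group of exponent `p ^ a` (image of `N₁`) by a cyclic group generated by the image of `y`, of order
dividing `q`; so all its elements satisfy `x ^ (p ^ a * q ^ b) = 1` (their order divides
`q * p ^ a` and `n`; so (b > 0) the `k`-part is trivial). So `x' ∈ krad M F`, similarly
`x' ∈ krad N F` (`F ⧸ krad N F` is an extension of a `q`-group by a cyclic group generated by the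
image of `z`, a `p`-group).
(b) By Schur-Zassenhaus (`Subgroup.exists_right_complement'_of_coprime`; `Nat.card J` is prime to
`p`, `q` and the index of `J` is a product of powers of `p` and `q`) there is a complement `H` of `J`;
by `tw_C0a` (and replacing `H` by a conjugate) we may assume `y ∈ H`, and there is `j ∈ J` with
`z' = j⁻¹ * z * j ∈ H`. All elements of `H` satisfy `x ^ (p ^ a * q ^ b) ∈ J ⊓ H = ⊥`.
`closure {z', y} ≤ H` has exponent `p ^ a * q ^ b`; (in fact it is `H`: `closure {z', y} ⊔ J = ⊤`).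
(c) if `[y, z'] = y⁻¹ * (z'⁻¹ * y * z')` is in a normal subgroup `K` of `closure {z', y}` of exponent
`p ^ a`: then `J ⊔ K` is normal in `F` (`closure {z', y} ⊔ J = ⊤`) of exponent dividing
`k * p ^ a = N` (`tw`-style: modulo `J` exponent `p ^ a`), and it contains `[y, z'] ≡ [y, z] mod J`:
so `InO N ⊤ [y, z]`, contradiction. -/
theorem tw_C0 {F : Type} [Group F] [Finite F] {n p q a b M N : ℕ} (hn : 0 < n) (hp : p.Prime)
    (hq : q.Prime) (hpq : p ≠ q) (hM : n = M * p ^ a) (hN : n = N * q ^ b) (hpM : ¬ p ∣ M)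
    (hqN : ¬ q ∣ N) (hb : 0 < b) (hexp : ∀ x : F, x ^ n = 1) {z y : F} (hzp : z ^ (p ^ a) = 1)
    (hy : y ^ q = 1) (hgen : closure {z, y} = ⊤) (hz : InOP M (p ^ a) (⊤ : Subgroup F) z)
    (hyO : InOP N (q ^ b) (⊤ : Subgroup F) y)
    (hne : ¬ InO N (⊤ : Subgroup F) (y⁻¹ * (z⁻¹ * y * z))) :
    ∃ j : F, (∀ x ∈ closure {j⁻¹ * z * j, y}, x ^ (p ^ a * q ^ b) = 1) ∧
      ¬ InO (p ^ a) (closure {j⁻¹ * z * j, y})
        (y⁻¹ * ((j⁻¹ * z * j)⁻¹ * y * (j⁻¹ * z * j))) := by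
  -- arithmetic
  have hcop : Nat.Coprime (p ^ a) (q ^ b) := ((Nat.coprime_primes hp hq).2 hpq).pow a b
  obtain ⟨k, hk⟩ : q ^ b ∣ M := by
    apply (hcop.symm).dvd_of_dvd_mul_right
    rw [← hM, hN]
    exact dvd_mul_left _ _
  have hqb : 0 < q ^ b := pow_pos hq.pos b
  have hpa : 0 < p ^ a := pow_pos hp.pos a
  have hNk : N = k * p ^ a := by
    have h1 : N * q ^ b = k * p ^ a * q ^ b := by
      rw [← hN, hM, hk]; ring
    exact Nat.eq_of_mul_eq_mul_right hqb h1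
  have hpk : ¬ p ∣ k := fun h => hpM (hk ▸ h.mul_left _)
  have hqk : ¬ q ∣ k := fun h => hqN (hNk ▸ h.mul_right _)
  have hpk' : Nat.Coprime (p ^ a) k := ((Nat.Prime.coprime_iff_not_dvd hp).2 hpk).pow_left a
  have hqk' : Nat.Coprime (q ^ b) k := ((Nat.Prime.coprime_iff_not_dvd hq).2 hqk).pow_left b
  obtain ⟨N₁, K₁, h11, -, h12, h13, h14, h15, h16⟩ := hz
  obtain ⟨N₂, K₂, h21, -, h22, h23, h24, h25, h26⟩ := hyO
  have hN₁ : N₁.Normal := ⟨fun x hx g => h13 g trivial x hx⟩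
  have hN₂ : N₂.Normal := ⟨fun x hx g => h23 g trivial x hx⟩
  have hK₁ : K₁.Normal := ⟨fun x hx g => h14 g trivial x hx⟩
  have hK₂ : K₂.Normal := ⟨fun x hx g => h24 g trivial x hx⟩
  set J : Subgroup F := K₁ ⊓ K₂ with hJdef
  have hJn : J.Normal := inferInstance
  have hJk : ∀ x ∈ J, x ^ k = 1 := by
    rintro x ⟨hx1, hx2⟩
    have e1 := orderOf_dvd_of_pow_eq_one (h15 x hx1)
    have e2 := orderOf_dvd_of_pow_eq_one (h25 x hx2)
    apply orderOf_dvd_iff_pow_eq_one.1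
    have e3 := Nat.dvd_gcd e1 e2
    have e4 : Nat.gcd M N = k := by
      rw [hk, hNk, mul_comm (q ^ b) k, Nat.gcd_mul_left, hcop.symm.gcd_eq_one, mul_one]
    rwa [e4] at e3
  have hJm : ∀ x : F, x ^ (p ^ a * q ^ b) ∈ J := by
    intro x
    refine ⟨?_, ?_⟩
    · obtain ⟨b', rfl⟩ : ∃ b', b = b' + 1 := ⟨b - 1, by omega⟩
      have e1 := tw_C0_pow_mem hgen hN₁ h12 hy h16 x
      have e2 := K₁.pow_mem e1 (q ^ b')
      rwa [← pow_mul, show q * p ^ a * q ^ b' = p ^ a * q ^ (b' + 1) by ring] at e2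
    · rw [Set.pair_comm] at hgen
      exact tw_C0_pow_mem hgen hN₂ h22 hzp h26 x
  -- complement
  have hcopJ : Nat.Coprime (Nat.card J) J.index := by
    rw [Nat.coprime_iff_gcd_eq_one]
    by_contra hne1
    obtain ⟨r, hr, hrd⟩ := Nat.exists_prime_and_dvd hne1
    have e1 : r ∣ k := by
      apply tw_C0a_prime hr (G := J) _ (hrd.trans (Nat.gcd_dvd_left _ _))
      intro x
      exact Subtype.ext (by simpa using hJk (x : F) x.2)
    have e2 : r ∣ p ^ a * q ^ b := by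
      apply tw_C0a_prime hr (G := F ⧸ J) _ (hrd.trans (Nat.gcd_dvd_right _ _))
      intro x
      obtain ⟨x, rfl⟩ := QuotientGroup.mk_surjective x
      rw [← QuotientGroup.mk_pow, QuotientGroup.eq_one_iff]
      exact hJm x
    have e3 : Nat.Coprime (p ^ a * q ^ b) k := Nat.Coprime.mul_left hpk' hqk'
    exact Nat.not_coprime_of_dvd_of_dvd hr.one_lt e2 e1 e3
  obtain ⟨H₀, hH₀⟩ := Subgroup.exists_right_complement'_of_coprime hcopJ
  obtain ⟨j₁, hj₁, hj₁y⟩ := tw_C0a (a := 1) hq hqk J H₀ hJk hH₀.sup_eq_top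
    (disjoint_iff.1 hH₀.disjoint) (s := y) (by rw [pow_one]; exact hy)
  set H : Subgroup F := H₀.comap (MulAut.conj j₁⁻¹).toMonoidHom with hHdef
  have hHmem : ∀ x, x ∈ H ↔ j₁⁻¹ * x * j₁ ∈ H₀ := by
    intro x
    rw [hHdef, Subgroup.mem_comap]
    show j₁⁻¹ * x * (j₁⁻¹)⁻¹ ∈ H₀ ↔ _
    rw [inv_inv]
  have hJH1 : J ⊔ H = ⊤ := by
    rw [eq_top_iff]
    intro x _
    have e1 : j₁⁻¹ * x * j₁ ∈ J ⊔ H₀ := by rw [hH₀.sup_eq_top]; trivial
    obtain ⟨j, hj, h, hh, e2⟩ := Subgroup.mem_sup_of_normal_left.1 e1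
    rw [Subgroup.mem_sup_of_normal_left]
    refine ⟨j₁ * j * j₁⁻¹, hJn.conj_mem j hj j₁, j₁ * h * j₁⁻¹, ?_, ?_⟩
    · rw [hHmem]
      rwa [show j₁⁻¹ * (j₁ * h * j₁⁻¹) * j₁ = h by group]
    · rw [show j₁ * j * j₁⁻¹ * (j₁ * h * j₁⁻¹) = j₁ * (j * h) * j₁⁻¹ by group, e2]
      group
  have hJH2 : J ⊓ H = ⊥ := by
    rw [eq_bot_iff]
    rintro x ⟨hx1, hx2⟩
    have e1 : j₁⁻¹ * x * j₁ ∈ J := by
      have := hJn.conj_mem x hx1 j₁⁻¹
      rwa [inv_inv] at this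
    have e2 : j₁⁻¹ * x * j₁ ∈ J ⊓ H₀ := ⟨e1, (hHmem x).1 hx2⟩
    rw [disjoint_iff.1 hH₀.disjoint, mem_bot] at e2
    rw [mem_bot]
    calc x = j₁ * (j₁⁻¹ * x * j₁) * j₁⁻¹ := by group
      _ = 1 := by rw [e2]; group
  have hyH : y ∈ H := (hHmem y).2 hj₁y
  obtain ⟨j, hj, hjz⟩ := tw_C0a hp hpk J H hJk hJH1 hJH2 hzp
  set z' : F := j⁻¹ * z * j with hz'
  have hLH : closure {z', y} ≤ H := by
    rw [closure_le]
    rintro w (rfl | rfl)
    · exact hjz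
    · exact hyH
  refine ⟨j, ?_, ?_⟩
  · intro x hx
    have e1 : x ^ (p ^ a * q ^ b) ∈ J ⊓ H := ⟨hJm x, H.pow_mem (hLH hx) _⟩
    rwa [hJH2, mem_bot] at e1
  · rintro ⟨K, hKL, hKc, hKn, hKe⟩
    apply hne
    have htop : ∀ g : F, ∃ i ∈ J, ∃ l ∈ closure {z', y}, i * l = g := by
      intro g
      rw [← Subgroup.mem_sup_of_normal_left]
      have e1 : (⊤ : Subgroup F) ≤ J ⊔ closure {z', y} := by
        rw [← hgen, closure_le]
        rintro w (rfl | rfl)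
        · have e2 : z' ∈ J ⊔ closure {z', y} :=
            (le_sup_right : _ ≤ J ⊔ closure {z', y}) (subset_closure (by simp))
          have e3 : j ∈ J ⊔ closure {z', y} := (le_sup_left : J ≤ J ⊔ closure {z', y}) hj
          have e4 := mul_mem (mul_mem e3 e2) (inv_mem e3)
          rwa [hz', show j * (j⁻¹ * w * j) * j⁻¹ = w by group] at e4
        · exact (le_sup_right : _ ≤ J ⊔ closure {z', w}) (subset_closure (by simp))
      exact e1 (mem_top g)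
    refine ⟨J ⊔ K, le_top, ?_, ?_, ?_⟩
    · -- the commutators are congruent
      have e1 : (y⁻¹ * (z⁻¹ * y * z)) * (y⁻¹ * (z'⁻¹ * y * z'))⁻¹ ∈ J := by
        rw [← QuotientGroup.eq_one_iff]
        have e2 : ((z' : F) : F ⧸ J) = (z : F ⧸ J) := by
          have e3 : ((j : F) : F ⧸ J) = 1 := (QuotientGroup.eq_one_iff j).2 hj
          rw [hz', QuotientGroup.mk_mul, QuotientGroup.mk_mul, QuotientGroup.mk_inv, e3]
          simp
        simp only [QuotientGroup.mk_mul, QuotientGroup.mk_inv, e2]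
        group
      have e2 := mul_mem ((le_sup_left : J ≤ J ⊔ K) e1) ((le_sup_right : K ≤ J ⊔ K) hKc)
      rwa [inv_mul_cancel_right] at e2
    · intro g _ x hx
      obtain ⟨i, hi, l, hl, rfl⟩ := htop g
      obtain ⟨i', hi', κ, hκ, rfl⟩ := Subgroup.mem_sup_of_normal_left.1 hx
      have e1 : (i * l) * i' * (i * l)⁻¹ ∈ J := hJn.conj_mem i' hi' _
      have e2 : l * κ * l⁻¹ ∈ K := hKn l hl κ hκ
      have e3 : i ∈ J ⊔ K := (le_sup_left : J ≤ J ⊔ K) hi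
      have e4 := mul_mem ((le_sup_left : J ≤ J ⊔ K) e1)
        (mul_mem (mul_mem e3 ((le_sup_right : K ≤ J ⊔ K) e2)) (inv_mem e3))
      rwa [show i * l * i' * (i * l)⁻¹ * (i * (l * κ * l⁻¹) * i⁻¹) = i * l * (i' * κ) * (i * l)⁻¹ by
        group] at e4
    · intro x hx
      obtain ⟨i, hi, κ, hκ, rfl⟩ := Subgroup.mem_sup_of_normal_left.1 hx
      have e1 : (i * κ) ^ (p ^ a) ∈ J := by
        rw [← QuotientGroup.eq_one_iff, QuotientGroup.mk_pow, QuotientGroup.mk_mul,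
          (QuotientGroup.eq_one_iff i).2 hi, one_mul, ← QuotientGroup.mk_pow, hKe κ hκ,
          QuotientGroup.mk_one]
      rw [hNk, mul_comm, pow_mul]
      exact hJk _ e1

end Pool.Agent.Lib.MP_544bd1_al
end
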