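import Mathlib
import Pool.Agent.Lib.MP_544bd1_al.TwS3

section

/-!
Two generators, part 2: the counting argument of Lemma F1.
-/

namespace Pool.Agent.Lib.MP_544bd1_al

open Subgroup

variable {F : Type} [Group F] {M P : ℕ}

/-- a finite subgroup normalized by `g` is normalized by `g⁻¹` -/
theorem tw_F1core_inv [Finite F] {g : F} {K : Subgroup F} (h : ∀ x ∈ K, g * x * g⁻¹ ∈ K) :
    ∀ x ∈ K, g⁻¹ * x * g ∈ K := by
  have h1 : ∀ n : ℕ, ∀ x ∈ K, g ^ n * x * (g ^ n)⁻¹ ∈ K := by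
    intro n
    induction n with
    | zero => intro x hx; simpa using hx
    | succ n ih =>
      intro x hx
      have := h _ (ih x hx)
      rwa [show g * (g ^ n * x * (g ^ n)⁻¹) * g⁻¹ = g ^ (n + 1) * x * (g ^ (n + 1))⁻¹ by
        rw [pow_succ']; group] at this
  intro x hx
  have h2 := h1 (Nat.card F - 1) x hx
  have h3 : g ^ (Nat.card F - 1) = g⁻¹ := by
    apply eq_inv_of_mul_eq_one_left
    rw [← pow_succ, Nat.sub_add_cancel Nat.card_pos, pow_card_eq_one']
  rwa [h3, inv_inv] at h2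

/-- the counting argument of Lemma F1.
Proof. Let `K v` be the subgroup given by `h v`; `K₀ = K 1`. By `tw_conj_compl` there is `w v ∈ V`
with `K v = w v K₀ (w v)⁻¹` (for `x ∈ K 1` there are `a ∈ V` with `x * a ∈ K v` as `x ∈ R`, etc.).
(1) An element `x ∈ V` normalizing some `K v` is `1`: for `k ∈ K v`, `x * k * x⁻¹ * k⁻¹` is in
`V` and in `K v`, so it is `1`; and `x` commutes with `V`; every `r ∈ R` is of the form `k * a`,
so `x` commutes with `R`, `x = 1` by `hC`.
(2) `z` commutes with `w v`: `z` normalizes `K₀` and `K v`, so `(w v)⁻¹ * (z * w v * z⁻¹) ∈ V`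
normalizes `K₀` (check), so it is `1` by (1). (Use that `{x | ∀ k ∈ K, x * k * x⁻¹ ∈ K}` for a
finite `K` is a group: the normalizer.)
(3) `w` is injective on `V`: if `w v = w v'` then `K v = K v'` is normalized by `ρ * v` and
`ρ * v'`, so by `v⁻¹ * v' ∈ V`, so `v = v'` by (1).
So `w` is an injective map from the finite set `V` to `{x ∈ V | z * x = x * z}`, hence these sets
are equal. -/
theorem tw_F1core [Finite F] (hcop : Nat.Coprime M P) (V R : Subgroup F) [V.Normal]
    (hVc : ∀ x ∈ V, ∀ y ∈ V, x * y = y * x) (hVP : ∀ x ∈ V, x ^ P = 1) (hVR : V ≤ R) {z ρ : F}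
    (hC : ∀ v ∈ V, (∀ r ∈ R, r * v = v * r) → v = 1)
    (h : ∀ v ∈ V, ∃ K : Subgroup F, K ≤ R ∧ (∀ x ∈ K, x ^ M = 1) ∧
      (∀ x ∈ R, ∃ w ∈ V, x * w ∈ K) ∧ (∀ x ∈ K, z * x * z⁻¹ ∈ K) ∧
      (∀ x ∈ K, (ρ * v) * x * (ρ * v)⁻¹ ∈ K)) :
    ∀ v ∈ V, z * v = v * z := by
  choose K hKR hKM hKV hKz hKρ using h
  have hV1 : (1 : F) ∈ V := V.one_mem
  -- conjugating elements
  have hw : ∀ v (hv : v ∈ V), ∃ w ∈ V, ∀ x, x ∈ K v hv ↔ w⁻¹ * x * w ∈ K 1 hV1 := by
    intro v hv
    exact tw_conj_compl hcop V hVc hVP (K 1 hV1) (K v hv) (hKM 1 hV1) (hKM v hv)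
      (fun x hx => hKV v hv x (hKR 1 hV1 hx)) (fun x hx => hKV 1 hV1 x (hKR v hv hx))
  choose w hwV hwK using hw
  -- (1)
  have h1 : ∀ v (hv : v ∈ V), ∀ x ∈ V, (∀ k ∈ K v hv, x * k * x⁻¹ ∈ K v hv) → x = 1 := by
    intro v hv x hx hn
    have hcomm : ∀ k ∈ K v hv, k * x = x * k := by
      intro k hk
      have e1 : x * k * x⁻¹ * k⁻¹ ∈ K v hv := (K v hv).mul_mem (hn k hk) ((K v hv).inv_mem hk)
      have e2 : x * k * x⁻¹ * k⁻¹ ∈ V := by
        have e3 : k * x⁻¹ * k⁻¹ ∈ V := Subgroup.Normal.conj_mem inferInstance _ (V.inv_mem hx) k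
        have e4 := V.mul_mem hx e3
        rwa [show x * (k * x⁻¹ * k⁻¹) = x * k * x⁻¹ * k⁻¹ by group] at e4
      have e3 : x * k * x⁻¹ * k⁻¹ = 1 := tw_one hcop (hKM v hv _ e1) (hVP _ e2)
      have e4 : x * k = k * x := by
        calc x * k = (x * k * x⁻¹ * k⁻¹) * (k * x) := by group
          _ = k * x := by rw [e3, one_mul]
      exact e4.symm
    apply hC x hx
    intro r hr
    obtain ⟨a, ha, hra⟩ := hKV v hv r hr
    have e1 := hcomm _ hra
    have e2 := hVc a ha x hx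
    have e3 : r * x * a = x * r * a := by
      calc r * x * a = r * (x * a) := by group
        _ = r * (a * x) := by rw [e2]
        _ = r * a * x := by group
        _ = x * (r * a) := e1
        _ = x * r * a := by group
    exact mul_right_cancel e3
  -- (2)
  have h2 : ∀ v (hv : v ∈ V), z * w v hv = w v hv * z := by
    intro v hv
    have e0 : (w v hv)⁻¹ * (z * w v hv * z⁻¹) ∈ V :=
      V.mul_mem (V.inv_mem (hwV v hv))
        (Subgroup.Normal.conj_mem inferInstance _ (hwV v hv) z)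
    have e1 : (w v hv)⁻¹ * (z * w v hv * z⁻¹) = 1 := by
      apply h1 1 hV1 _ e0
      intro k hk
      have e2 : z⁻¹ * k * z ∈ K 1 hV1 := tw_F1core_inv (hKz 1 hV1) k hk
      have e3 : w v hv * (z⁻¹ * k * z) * (w v hv)⁻¹ ∈ K v hv := by
        rw [hwK v hv]
        have : (w v hv)⁻¹ * (w v hv * (z⁻¹ * k * z) * (w v hv)⁻¹) * w v hv = z⁻¹ * k * z := by
          group
        rw [this]
        exact e2
      have e4 := hKz v hv _ e3
      rw [hwK v hv] at e4
      convert e4 using 1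
      group
    calc z * w v hv = w v hv * ((w v hv)⁻¹ * (z * w v hv * z⁻¹)) * z := by group
      _ = w v hv * z := by rw [e1, mul_one]
  -- (3)
  let W : V → V := fun v => ⟨w v v.2, hwV v v.2⟩
  have hinj : Function.Injective W := by
    intro v v' hvv
    have e0 : w v v.2 = w v' v'.2 := congrArg Subtype.val hvv
    have e1 : ∀ x, x ∈ K v v.2 ↔ x ∈ K v' v'.2 := by
      intro x
      rw [hwK v v.2, hwK v' v'.2, e0]
    have e2 : ((v : F))⁻¹ * (v' : F) = 1 := by
      apply h1 v v.2 _ (V.mul_mem (V.inv_mem v.2) v'.2)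
      intro k hk
      have e3 : (ρ * v') * k * (ρ * v')⁻¹ ∈ K v v.2 := by
        rw [e1]
        exact hKρ v' v'.2 k ((e1 k).1 hk)
      have e4 := tw_F1core_inv (hKρ v v.2) _ e3
      convert e4 using 1
      group
    apply Subtype.ext
    rw [inv_mul_eq_one] at e2
    exact e2
  have hsurj : Function.Surjective W := Finite.injective_iff_surjective.1 hinj
  intro v hv
  obtain ⟨v0, hv0⟩ := hsurj ⟨v, hv⟩
  have e1 : w v0 v0.2 = v := congrArg Subtype.val hv0
  have e2 := h2 v0 v0.2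
  rwa [e1] at e2

end Pool.Agent.Lib.MP_544bd1_al
end

section

/-!
Two generators, part 2: Lemma F1, first case.
-/

namespace Pool.Agent.Lib.MP_544bd1_al

open Subgroup

variable {F : Type} [Group F] {M P : ℕ}

/-- the setting of Lemma F1: `V ≤ R` normal subgroups, `R / V` of exponent `M`, `F = ⟨z, ρ⟩ V`,
every normal subgroup containing `V` and `z` contains `R` -/
structure F1Dat (M P : ℕ) {F : Type} [Group F] (V R : Subgroup F) (z ρ : F) : Prop where
  nV : V.Normal
  nR : R.Normal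
  hVR : V ≤ R
  hVP : ∀ x ∈ V, x ^ P = 1
  hRM : ∀ x ∈ R, x ^ M ∈ V
  hρ : ρ ∈ R
  gen : closure {z, ρ} ⊔ V = ⊤
  hRz : ∀ N : Subgroup F, N.Normal → V ≤ N → z ∈ N → R ≤ N

/-- Lemma F1, the case `V` abelian, `C_V(R) = 1`.
Proof. Apply `tw_F1core`. Let `v ∈ V`, `L = closure {z, ρ * v}`, so `L ⊔ V = ⊤`. Take `K ≤ N ≤ L`
from `h (ρ * v)`. `V ⊔ N` is normal in `F` (normalized by `L` and `V`) and contains `z`, so
`R ≤ V ⊔ N`. For `x ∈ R` there is `w ∈ V` with `x * w ∈ N` (`R ≤ V ⊔ N`, `V` normal), so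
`(x * w) ^ P ∈ K`; let `j` with `P * j ≡ 1 mod M`; `(x * w) ^ (P * j) ∈ K` and it is `≡ x ^ (P * j)
≡ x` modulo `V` (as `x ^ M ∈ V`). So `K' = K ⊓ R` has all the properties
(`z` and `ρ * v` are in `L`, which normalizes `K`). -/
theorem tw_F1b [Finite F] (hcop : Nat.Coprime M P) (hM : 0 < M) (hP : 0 < P)
    (hexp : ∀ x : F, x ^ (M * P) = 1)
    {V R : Subgroup F} {z ρ : F} (D : F1Dat M P V R z ρ)
    (hVc : ∀ x ∈ V, ∀ y ∈ V, x * y = y * x)
    (hC : ∀ v ∈ V, (∀ r ∈ R, r * v = v * r) → v = 1)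
    (h : ∀ t, InOP M P (closure {z, t}) z) : ∀ v ∈ V, z * v = v * z := by
  haveI := D.nV
  haveI := D.nR
  apply tw_F1core (z := z) (ρ := ρ) hcop V R hVc D.hVP D.hVR hC
  intro v hv
  obtain ⟨N, K, h1, h2, h3, h4, h5, h6, h7⟩ := h (ρ * v)
  have hzL : z ∈ closure {z, ρ * v} := subset_closure (by simp)
  have hρL : ρ * v ∈ closure {z, ρ * v} := subset_closure (by simp)
  have hLV : closure {z, ρ * v} ⊔ V = ⊤ := by
    rw [eq_top_iff, ← D.gen]
    refine sup_le ?_ le_sup_right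
    rw [closure_le]
    rintro x hx
    rcases hx with rfl | hx
    · exact mem_sup_left hzL
    · rw [Set.mem_singleton_iff] at hx
      subst hx
      have h8 := (closure {z, x * v} ⊔ V).mul_mem (mem_sup_left hρL) (mem_sup_right (V.inv_mem hv))
      rwa [mul_inv_cancel_right] at h8
  have hVN : ∀ t ∈ closure {z, ρ * v}, ∀ x ∈ V ⊔ N, t * x * t⁻¹ ∈ V ⊔ N := by
    intro t ht x hx
    obtain ⟨a, ha, b, hb, rfl⟩ := mem_sup_of_normal_left.1 hx
    rw [show t * (a * b) * t⁻¹ = (t * a * t⁻¹) * (t * b * t⁻¹) by group]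
    exact mul_mem (mem_sup_left (D.nV.conj_mem a ha t)) (mem_sup_right (h4 t ht b hb))
  have hnorm : (V ⊔ N).Normal := by
    constructor
    intro x hx g
    obtain ⟨l, hl, w, hw, rfl⟩ := mem_sup_of_normal_right.1 (show g ∈ closure {z, ρ * v} ⊔ V by
      rw [hLV]; trivial)
    rw [show l * w * x * (l * w)⁻¹ = l * (w * x * w⁻¹) * l⁻¹ by group]
    apply hVN l hl
    exact mul_mem (mul_mem (mem_sup_left hw) hx) (inv_mem (mem_sup_left hw))
  have hRN : R ≤ V ⊔ N := D.hRz _ hnorm le_sup_left (mem_sup_right h3)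
  refine ⟨K ⊓ R, inf_le_right, fun x hx => h6 x hx.1, ?_, ?_, ?_⟩
  · intro x hx
    obtain ⟨a, ha, b, hb, hab⟩ := mem_sup_of_normal_left.1 (hRN hx)
    have hqx : QuotientGroup.mk' V x = QuotientGroup.mk' V b := by
      rw [← hab, map_mul, (QuotientGroup.eq_one_iff a).2 ha |> fun e =>
        (show QuotientGroup.mk' V a = 1 from e), one_mul]
    have hM1 : (QuotientGroup.mk' V x) ^ M = 1 := by
      rw [← map_pow]
      exact (QuotientGroup.eq_one_iff _).2 (D.hRM x hx)
    have hP1 : (QuotientGroup.mk' V x) ^ P ∈ K.map (QuotientGroup.mk' V) := by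
      rw [hqx, ← map_pow]
      exact ⟨_, h7 b hb, rfl⟩
    obtain ⟨k, hk, hkx⟩ := tw_mem_of_pow hcop hM1 hP1
    have hkV : x⁻¹ * k ∈ V := by
      have h9 : QuotientGroup.mk' V (x⁻¹ * k) = 1 := by
        rw [map_mul, map_inv, hkx, inv_mul_cancel]
      exact (QuotientGroup.eq_one_iff _).1 h9
    refine ⟨x⁻¹ * k, hkV, ?_⟩
    rw [mul_inv_cancel_left]
    refine ⟨hk, ?_⟩
    have h10 := R.mul_mem hx (D.hVR hkV)
    rwa [mul_inv_cancel_left] at h10
  · rintro x ⟨hx, hx'⟩
    exact ⟨h5 z hzL x hx, D.nR.conj_mem x hx' z⟩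
  · rintro x ⟨hx, hx'⟩
    exact ⟨h5 _ hρL x hx, D.nR.conj_mem x hx' _⟩

end Pool.Agent.Lib.MP_544bd1_al
end

section

/-!
Two generators, part 2: (R1) and adjoining an element normalizing `⟨c⟩`.
-/

namespace Pool.Agent.Lib.MP_544bd1_al

open Subgroup

variable {G : Type} [Group G] {M P : ℕ}

/-- a product of an element of `O_{p'}(T)` and an element of order dividing `M` has order
dividing `M` -/
theorem tw_R1_mul (hcop : Nat.Coprime M P) (hexp : ∀ x : G, x ^ (M * P) = 1) {T : Subgroup G}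
    {s y : G} (h : InO M T s) (hy : y ∈ T) (hy' : y ^ M = 1) : (s * y) ^ M = 1 := by
  obtain ⟨N, h1, h2, h3, h4⟩ := h
  apply tw_MM hcop hexp
  apply h4
  have key : ∀ k : ℕ, (s * y) ^ k * (y ^ k)⁻¹ ∈ N := by
    intro k
    induction k with
    | zero => simp [N.one_mem]
    | succ k ih =>
      have h5 := h3 y hy _ ih
      have h6 := N.mul_mem h2 h5
      have h7 : s * (y * ((s * y) ^ k * (y ^ k)⁻¹) * y⁻¹) = (s * y) ^ (k + 1) * (y ^ (k + 1))⁻¹ := by
        rw [pow_succ' (s * y), pow_succ' y k, mul_inv_rev]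
        group
      rw [← h7]; exact h6
  have := key M
  rwa [hy', inv_one, mul_one] at this

/-- (R1). Otherwise `c ∈ O_{p'}(⟨c, g⟩)` for all `g`, so `(c * g) ^ M = 1` for all `g` with
`g ^ M = 1` (see `InO.mul_odd` in FrA.lean for the argument; use `tw_MM`), and
`normal_of_absorbing` gives a nontrivial normal subgroup of exponent `M`. -/
theorem tw_R1 {n : ℕ} (H : TwG n G) (hn : n = M * P) (hcop : Nat.Coprime M P) (hno : NoN M G)
    {c : G} (hc : c ^ M = 1) (hc1 : c ≠ 1) : ∃ g : G, ¬ InO M (closure {c, g}) c := by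
  by_contra hcon
  push Not at hcon
  have hexp : ∀ x : G, x ^ (M * P) = 1 := by
    intro x; rw [← hn]; exact H.hexp x
  obtain ⟨K, hK1, hK2, hK3⟩ := normal_of_absorbing (P := M) H.pos H.hexp hc1 (by
    intro h hh
    exact tw_R1_mul hcop hexp (hcon h) (subset_closure (by simp)) hh)
  exact hK2 (hno K hK1 hK3)

/-- adjoining an element `w` normalizing `⟨c⟩`: by `tw_R1` and `tw_J` there is `k` with
`k ∈ closure {c, k⁻¹ * c * k}` and `¬ InO M (closure {c, k⁻¹ * c * k}) c`. Let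
`T = closure {c, w * k}` (finite and solvable). `(w * k)⁻¹ * c * (w * k) = k⁻¹ * (w⁻¹ * c * w) * k`
is the `i`-th power of `k⁻¹ * c * k`, where `w⁻¹ * c * w = c ^ i` has the same (finite) order as
`c`, so `c` is a power of it, and `k⁻¹ * c * k` is a power of `(w * k)⁻¹ * c * (w * k)`: so
`k⁻¹ * c * k ∈ T`, `k ∈ T`, `w ∈ T`. `¬ InO M T c` by `InO.mono`. -/
theorem tw_adjoin {n : ℕ} (H : TwG n G) (hn : n = M * P) (hcop : Nat.Coprime M P) (hno : NoN M G)
    {c w : G} (hc : c ^ M = 1) (hc1 : c ≠ 1) (hw : w⁻¹ * c * w ∈ zpowers c) :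
    ∃ T : Subgroup G, Finite T ∧ Group.IsSolvable T ∧ c ∈ T ∧ w ∈ T ∧ ¬ InO M T c := by
  have hexp : ∀ x : G, x ^ (M * P) = 1 := by
    intro x; rw [← hn]; exact H.hexp x
  have hMP : 0 < M * P := by rw [← hn]; exact H.pos
  have hM : 0 < M := Nat.pos_of_mul_pos_right hMP
  have hP : 0 < P := Nat.pos_of_mul_pos_left hMP
  obtain ⟨g, hg⟩ := tw_R1 H hn hcop hno hc hc1
  have hfin := (H.h2 c g).1
  obtain ⟨k, _, hk, hk2⟩ := tw_J hcop hM hP hexp (closure {c, g}) (H.h2 c g).2
    (subset_closure (by simp)) hc hg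
  set T := closure {c, w * k} with hT
  have hcT : c ∈ T := subset_closure (by simp)
  have hwkT : w * k ∈ T := subset_closure (by simp)
  -- `c` is a power of its conjugate
  have hcw : c ∈ zpowers (w⁻¹ * c * w) := by
    have hfo : IsOfFinOrder c := isOfFinOrder_iff_pow_eq_one.2 ⟨M, hM, hc⟩
    have hfz : Finite (zpowers c) := hfo.finite_zpowers
    have hle : zpowers (w⁻¹ * c * w) ≤ zpowers c := zpowers_le.2 hw
    have hcard : Nat.card (zpowers c) ≤ Nat.card (zpowers (w⁻¹ * c * w)) := by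
      rw [Nat.card_zpowers, Nat.card_zpowers]
      have h1 : orderOf (w⁻¹ * c * w) = orderOf c := by
        have h2 : w⁻¹ * c * w = MulAut.conj w⁻¹ c := by simp
        rw [h2]
        exact orderOf_injective (MulAut.conj w⁻¹).toMonoidHom (MulAut.conj w⁻¹).injective c
      rw [h1]
    have := Subgroup.eq_of_le_of_card_ge hle hcard
    rw [this]
    exact mem_zpowers c
  obtain ⟨j, hj⟩ := mem_zpowers_iff.1 hcw
  have h1 : k⁻¹ * c * k ∈ T := by
    have h2 : ((w * k)⁻¹ * c * (w * k)) ^ j = k⁻¹ * c * k := by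
      have h3 : (w * k)⁻¹ * c * (w * k) = k⁻¹ * (w⁻¹ * c * w) * k⁻¹⁻¹ := by group
      rw [h3, conj_zpow, hj, inv_inv]
    rw [← h2]
    exact T.zpow_mem (T.mul_mem (T.mul_mem (T.inv_mem hwkT) hcT) hwkT) j
  have hle : closure {c, k⁻¹ * c * k} ≤ T := by
    rw [Subgroup.closure_le]
    rintro w (rfl | rfl)
    · exact hcT
    · exact h1
  have hkT : k ∈ T := hle hk
  have hwT : w ∈ T := by
    have := T.mul_mem hwkT (T.inv_mem hkT)
    rwa [mul_inv_cancel_right] at this
  refine ⟨T, (H.h2 c _).1, (H.h2 c _).2, hcT, hwT, ?_⟩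
  intro h3
  exact hk2 (h3.mono hle (subset_closure (by simp)))

end Pool.Agent.Lib.MP_544bd1_al
end

section

/-!
Two generators, part 2: Lemma F1, `V` abelian.
-/

namespace Pool.Agent.Lib.MP_544bd1_al

open Subgroup

variable {F : Type} [Group F] {M P : ℕ}

/-- `InOP` passes to quotients. (Images of `N` and `K`; the image of `closure {z, t}` is
`closure {f z, f t}`.) -/
theorem InOP.map_closure {F' : Type} [Group F'] (f : F →* F') {z t : F}
    (h : InOP M P (closure {z, t}) z) : InOP M P (closure {f z, f t}) (f z) := by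
  have e : closure {f z, f t} = (closure {z, t}).map f := by
    rw [MonoidHom.map_closure, Set.image_pair]
  rw [e]
  obtain ⟨N, K, h1, h2, h3, h4, h5, h6, h7⟩ := h
  refine ⟨N.map f, K.map f, Subgroup.map_mono h1, Subgroup.map_mono h2,
    Subgroup.mem_map_of_mem f h3, ?_, ?_, ?_, ?_⟩
  · rintro _ ⟨t', ht', rfl⟩ _ ⟨x, hx, rfl⟩
    exact ⟨t' * x * t'⁻¹, h4 t' ht' x hx, by simp⟩
  · rintro _ ⟨t', ht', rfl⟩ _ ⟨x, hx, rfl⟩
    exact ⟨t' * x * t'⁻¹, h5 t' ht' x hx, by simp⟩
  · rintro _ ⟨x, hx, rfl⟩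
    rw [← map_pow, h6 x hx, map_one]
  · rintro _ ⟨x, hx, rfl⟩
    exact ⟨x ^ P, h7 x hx, by rw [map_pow]⟩

/-- Lemma F1, the case `V` abelian.
Proof. Let `C = {v ∈ V | ∀ r ∈ R, r * v = v * r}`, a normal subgroup of `F`, `X = F ⧸ C`,
`π : F → X`. The images `π V ≤ π R` satisfy `F1Dat`, and the hypothesis `hC` of `tw_F1b`: let
`v ∈ V` with `π v` commuting with `π R`; for `r ∈ R` with `r ^ M = 1`: all
`[v, r] = v⁻¹ * (r * v * r⁻¹) ∈ C` commute with `r`, so (apply `tw_coprime_trivial` to `r` and the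
subgroup `{v ∈ V | π v commutes with π R}` of `V`) `r` commutes with `v`; and every `r ∈ R` is a
product of a power of `r ^ P` (whose order divides `M`) and of a power of `r ^ M ∈ V` (`tw_split`);
so `v ∈ C`. By `tw_F1b` (`InOP.map_closure` gives the hypothesis `h` for `X`, every element of `X`
being some `π t`) `π z` commutes with `π V`. So `N = {x | ∀ v ∈ V, x * v * x⁻¹ * v⁻¹ ∈ C}` is a
normal subgroup of `F` containing `V` and `z`, so it contains `R` (`hRz`). So for `r ∈ R`,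
`r ^ M = 1`, `v ∈ V`: `v⁻¹ * (r * v * r⁻¹) ∈ C` commutes with `r`, and `r` centralizes `V` by
`tw_coprime_trivial`. -/
theorem tw_F1c [Finite F] (hcop : Nat.Coprime M P) (hM : 0 < M) (hP : 0 < P)
    (hexp : ∀ x : F, x ^ (M * P) = 1)
    {V R : Subgroup F} {z ρ : F} (D : F1Dat M P V R z ρ)
    (hVc : ∀ x ∈ V, ∀ y ∈ V, x * y = y * x)
    (h : ∀ t, InOP M P (closure {z, t}) z) : ∀ r ∈ R, r ^ M = 1 → ∀ v ∈ V, r * v = v * r := by
  have nV := D.nV
  have nR := D.nR
  set C : Subgroup F := V ⊓ centralizer (R : Set F) with hCdef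
  have nC : C.Normal := by
    rw [hCdef]
    infer_instance
  have hCmem : ∀ c ∈ C, ∀ r ∈ R, r * c = c * r := by
    intro c hc r hr
    exact (mem_centralizer_iff.1 hc.2) r hr
  set π : F →* F ⧸ C := QuotientGroup.mk' C with hπ
  have hπs : Function.Surjective π := QuotientGroup.mk'_surjective C
  have hπ1 : ∀ x : F, π x = 1 ↔ x ∈ C := by
    intro x
    rw [hπ, QuotientGroup.mk'_apply, QuotientGroup.eq_one_iff]
  have hcomm : ∀ r x : F, π r * π x = π x * π r → x⁻¹ * (r * x * r⁻¹) ∈ C := by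
    intro r x hrx
    rw [← hπ1]
    simp only [map_mul, map_inv]
    rw [hrx]
    group
  have key : ∀ t' : F ⧸ C, InOP M P (closure {π z, t'}) (π z) := by
    intro t'
    obtain ⟨t, rfl⟩ := hπs t'
    exact (h t).map_closure π
  have D' : F1Dat M P (V.map π) (R.map π) (π z) (π ρ) := by
    constructor
    · exact nV.map π hπs
    · exact nR.map π hπs
    · exact Subgroup.map_mono D.hVR
    · rintro _ ⟨x, hx, rfl⟩
      rw [← map_pow, D.hVP x hx, map_one]
    · rintro _ ⟨x, hx, rfl⟩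
      exact ⟨x ^ M, D.hRM x hx, by rw [map_pow]⟩
    · exact Subgroup.mem_map_of_mem π D.hρ
    · have e : closure {π z, π ρ} = (closure {z, ρ}).map π := by
        rw [MonoidHom.map_closure, Set.image_pair]
      rw [e, ← Subgroup.map_sup, D.gen, ← MonoidHom.range_eq_map, MonoidHom.range_eq_top]
      exact hπs
    · intro N hN hVN hzN
      have h1 : R ≤ N.comap π := by
        apply D.hRz (N.comap π) (hN.comap π)
        · rw [← Subgroup.map_le_iff_le_comap]
          exact hVN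
        · exact hzN
      rwa [← Subgroup.map_le_iff_le_comap] at h1
  have hexp' : ∀ x : F ⧸ C, x ^ (M * P) = 1 := by
    intro x
    obtain ⟨y, rfl⟩ := hπs x
    rw [← map_pow, hexp y, map_one]
  have hVc' : ∀ x ∈ V.map π, ∀ y ∈ V.map π, x * y = y * x := by
    rintro _ ⟨x, hx, rfl⟩ _ ⟨y, hy, rfl⟩
    rw [← map_mul, hVc x hx y hy, map_mul]
  have hCC : ∀ v ∈ V.map π, (∀ r ∈ R.map π, r * v = v * r) → v = 1 := by
    rintro _ ⟨v, hv, rfl⟩ hr
    rw [hπ1]
    refine ⟨hv, mem_centralizer_iff.2 ?_⟩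
    -- the subgroup `W`
    set W : Subgroup F := V ⊓ (centralizer ((R.map π : Subgroup (F ⧸ C)) : Set (F ⧸ C))).comap π
      with hW
    have hWmem : ∀ x, x ∈ W ↔ x ∈ V ∧ ∀ r ∈ R, π r * π x = π x * π r := by
      intro x
      rw [hW, Subgroup.mem_inf, Subgroup.mem_comap, mem_centralizer_iff]
      constructor
      · rintro ⟨h1, h2⟩
        exact ⟨h1, fun r hr => h2 _ (Subgroup.mem_map_of_mem π hr)⟩
      · rintro ⟨h1, h2⟩
        refine ⟨h1, ?_⟩
        rintro _ ⟨r, hr, rfl⟩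
        exact h2 r hr
    have hM' : ∀ r ∈ R, r ^ M = 1 → r * v = v * r := by
      intro r hrR hrM
      refine tw_coprime_trivial hcop W (fun x hx => D.hVP x ((hWmem x).1 hx).1) hrM ?_ ?_ v ?_
      · intro x hx
        obtain ⟨h1, h2⟩ := (hWmem x).1 hx
        rw [hWmem]
        refine ⟨nV.conj_mem x h1 r, ?_⟩
        have e : π (r * x * r⁻¹) = π x := by
          rw [map_mul, map_mul, map_inv, h2 r hrR, mul_assoc, mul_inv_cancel, mul_one]
        rw [e]
        exact h2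
      · intro x hx
        obtain ⟨h1, h2⟩ := (hWmem x).1 hx
        exact hCmem _ (hcomm r x (h2 r hrR)) r hrR
      · rw [hWmem]
        exact ⟨hv, fun r hr' => hr _ (Subgroup.mem_map_of_mem π hr')⟩
    intro r hrR
    have hrR' : r ∈ R := hrR
    obtain ⟨u, w, huw⟩ := tw_split hcop r
    have c1 : Commute (r ^ P) v := by
      apply hM' (r ^ P) (R.pow_mem hrR' P)
      rw [← pow_mul, mul_comm]
      exact hexp r
    have c2 : Commute (r ^ M) v := hVc _ (D.hRM r hrR') v hv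
    have c3 : Commute r v := by
      rw [huw]
      exact (c1.zpow_left _).mul_left (c2.zpow_left _)
    exact c3
  have hz := tw_F1b hcop hM hP hexp' D' hVc' hCC key
  -- `R` centralizes `V` modulo `C`
  have nV' : (V.map π).Normal := D'.nV
  have hR : R ≤ (centralizer ((V.map π : Subgroup (F ⧸ C)) : Set (F ⧸ C))).comap π := by
    apply D.hRz
    · exact Subgroup.Normal.comap inferInstance π
    · intro x hx
      rw [Subgroup.mem_comap, mem_centralizer_iff]
      intro y hy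
      exact (hVc' _ (Subgroup.mem_map_of_mem π hx) y hy).symm
    · rw [Subgroup.mem_comap, mem_centralizer_iff]
      intro y hy
      exact (hz y hy).symm
  intro r hr hrM
  refine tw_coprime_trivial hcop V D.hVP hrM (fun x hx => nV.conj_mem x hx r) ?_
  intro x hx
  refine hCmem _ (hcomm r x ?_) r hr
  have h1 := hR hr
  rw [Subgroup.mem_comap, mem_centralizer_iff] at h1
  exact (h1 _ (Subgroup.mem_map_of_mem π hx)).symm

end Pool.Agent.Lib.MP_544bd1_al
end
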