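import Mathlib
import Pool.Agent.Lib.MP_544bd1_al.TwA

section

/-!
Two generators, part 2: averaging over the lines of `C_q × C_q`.
-/

namespace Pool.Agent.Lib.MP_544bd1_al

open Subgroup

/-- a cyclic shift of a periodic product -/
private theorem tw_V1_shift {A : Type} [CommGroup A] {q : ℕ} (f : ℕ → A) (hf : f q = f 0) :
    ∏ i ∈ Finset.range q, f (i + 1) = ∏ i ∈ Finset.range q, f i := by
  have h1 := Finset.prod_range_succ f q
  have h2 := Finset.prod_range_succ' f q
  rw [h1, hf] at h2
  exact (mul_right_cancel h2).symm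

/-- reindexing by multiplication with a unit modulo `q` -/
private theorem tw_V1_reindex {A : Type} [CommGroup A] {q : ℕ} (hq : q.Prime) (f : ℕ → A)
    (hf : ∀ a, f (a % q) = f a) {i : ℕ} (hi0 : 0 < i) (hiq : i < q) :
    ∏ j ∈ Finset.range q, f (j * i) = ∏ l ∈ Finset.range q, f l := by
  classical
  have hinj : ∀ a ∈ Finset.range q, ∀ b ∈ Finset.range q, (a * i) % q = (b * i) % q → a = b := by
    intro a ha b hb hab
    rw [Finset.mem_range] at ha hb
    have hcop : Nat.gcd q i = 1 :=
      (Nat.coprime_of_lt_prime hi0.ne' hiq hq)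
    have h1 : a ≡ b [MOD q] := Nat.ModEq.cancel_right_of_coprime hcop hab
    rwa [Nat.ModEq, Nat.mod_eq_of_lt ha, Nat.mod_eq_of_lt hb] at h1
  have himg : (Finset.range q).image (fun a => (a * i) % q) = Finset.range q := by
    apply Finset.eq_of_subset_of_card_le
    · intro x hx
      rw [Finset.mem_image] at hx
      obtain ⟨a, _, rfl⟩ := hx
      rw [Finset.mem_range]
      exact Nat.mod_lt _ hq.pos
    · rw [Finset.card_image_of_injOn (fun a ha b hb hab => hinj a ha b hb hab)]
  conv_rhs => rw [← himg]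
  rw [Finset.prod_image hinj]
  exact Finset.prod_congr rfl fun j _ => (hf _).symm

/-- Lemma F3, abelian case.
Proof. For `g` an automorphism with `g ^ q = 1` put `N_g x = ∏ i < q, (g ^ i) x`, fixed by `g`.
For `x : A`: `(∏ j < q, N_{Y K ^ j} x) * N_K x = x ^ q * ∏ i < q, ∏ l < q, (Y ^ i * K ^ l) x`:
for `0 < i < q`, `j ↦ K ^ (i * j)` runs through all powers of `K` (`q` prime), so
`∏ j < q, (Y ^ i * K ^ (i * j)) x = ∏ l < q, (Y ^ i * K ^ l) x`; the factors with `i = 0` are `x ^ q`
(from the first product), and `N_K x` supplies the missing term `i = 0` of the double product.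
All `N_{Y K ^ j} x` are fixed by `Y * K ^ j`, so by `K` (`h`); `N_K x` and the double product are
fixed by `K`. So `K (x ^ q) = x ^ q`, i.e. `(K x * x⁻¹) ^ q = 1`, and `(K x * x⁻¹) ^ m = 1`. -/
theorem tw_V1 {A : Type} [CommGroup A] {q m : ℕ} (hq : q.Prime) (hm : Nat.Coprime q m)
    (hA : ∀ x : A, x ^ m = 1) (Y K : MulAut A) (hY : Y ^ q = 1) (hK : K ^ q = 1)
    (hYK : Y * K = K * Y) (h : ∀ (j : ℕ) (x : A), (Y * K ^ j) x = x → K x = x) (x : A) :
    K x = x := by
  have hcomm : Commute Y K := hYK
  have hKmod : ∀ a : ℕ, K ^ (a % q) = K ^ a := by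
    intro a
    conv_rhs => rw [← Nat.mod_add_div a q, pow_add, pow_mul, hK, one_pow, mul_one]
  -- norms
  have hnorm : ∀ g : MulAut A, g ^ q = 1 →
      g (∏ i ∈ Finset.range q, (g ^ i) x) = ∏ i ∈ Finset.range q, (g ^ i) x := by
    intro g hg
    rw [map_prod]
    have h1 := tw_V1_shift (fun i => (g ^ i) x) (q := q) (by simp [hg])
    rw [← h1]
    refine Finset.prod_congr rfl fun i _ => ?_
    rw [pow_succ', MulAut.mul_apply]
  have hgj : ∀ j : ℕ, (Y * K ^ j) ^ q = 1 := by
    intro j
    rw [(hcomm.pow_right j).mul_pow, hY, ← pow_mul, mul_comm j q, pow_mul, hK, one_pow, one_mul]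
  set P1 : A := ∏ j ∈ Finset.range q, ∏ i ∈ Finset.range q, ((Y * K ^ j) ^ i) x with hP1
  set NK : A := ∏ l ∈ Finset.range q, (K ^ l) x with hNK
  set D : A := ∏ i ∈ Finset.range q, ∏ l ∈ Finset.range q, (Y ^ i * K ^ l) x with hD
  have hKP1 : K P1 = P1 := by
    rw [hP1, map_prod]
    refine Finset.prod_congr rfl fun j _ => ?_
    exact h j _ (hnorm _ (hgj j))
  have hKNK : K NK = NK := hnorm K hK
  have hKD : K D = D := by
    rw [hD, map_prod]
    refine Finset.prod_congr rfl fun i _ => ?_
    rw [map_prod]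
    have h1 := tw_V1_shift (fun l => (Y ^ i * K ^ l) x) (q := q) (by simp [hK])
    rw [← h1]
    refine Finset.prod_congr rfl fun l _ => ?_
    have h2 : K * (Y ^ i * K ^ l) = Y ^ i * K ^ (l + 1) := by
      rw [← mul_assoc, (hcomm.symm.pow_right i).eq, mul_assoc, ← pow_succ']
    rw [← h2]
    rfl
  have hid : P1 * NK = x ^ q * D := by
    have hqpos : 0 < q := hq.pos
    obtain ⟨q', hq'⟩ := Nat.exists_eq_succ_of_ne_zero hqpos.ne'
    have hswap : P1 = ∏ i ∈ Finset.range q, ∏ j ∈ Finset.range q, (Y ^ i * K ^ (j * i)) x := by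
      rw [hP1, Finset.prod_comm]
      refine Finset.prod_congr rfl fun i _ => Finset.prod_congr rfl fun j _ => ?_
      rw [(hcomm.pow_right j).mul_pow, ← pow_mul]
    have hterm : ∀ i, 0 < i → i < q → ∏ j ∈ Finset.range q, (Y ^ i * K ^ (j * i)) x =
        ∏ l ∈ Finset.range q, (Y ^ i * K ^ l) x := by
      intro i hi0 hiq
      exact tw_V1_reindex hq (fun a => (Y ^ i * K ^ a) x) (fun a => by
        show (Y ^ i * K ^ (a % q)) x = (Y ^ i * K ^ a) x
        rw [hKmod]) hi0 hiq
    have hsplit : ∀ F : ℕ → A, ∏ i ∈ Finset.range q, F i =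
        (∏ i ∈ Finset.range q', F (i + 1)) * F 0 := by
      intro F
      rw [hq', Nat.succ_eq_add_one, Finset.prod_range_succ']
    rw [hswap, hD, hsplit, hsplit (fun i => ∏ l ∈ Finset.range q, (Y ^ i * K ^ l) x)]
    have h0 : ∏ j ∈ Finset.range q, (Y ^ 0 * K ^ (j * 0)) x = x ^ q := by
      simp
    have h0' : ∏ l ∈ Finset.range q, (Y ^ 0 * K ^ l) x = NK := by
      rw [hNK]
      simp
    rw [h0, h0']
    have hrest : ∏ i ∈ Finset.range q', ∏ j ∈ Finset.range q, (Y ^ (i + 1) * K ^ (j * (i + 1))) x =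
        ∏ i ∈ Finset.range q', ∏ l ∈ Finset.range q, (Y ^ (i + 1) * K ^ l) x := by
      refine Finset.prod_congr rfl fun i hi => ?_
      rw [Finset.mem_range] at hi
      exact hterm (i + 1) (Nat.succ_pos i) (by omega)
    rw [hrest]
    rw [mul_comm _ (x ^ q), mul_assoc]
  have hKx : K (x ^ q) = x ^ q := by
    have h1 : x ^ q = P1 * NK * D⁻¹ := by rw [hid, mul_assoc, mul_inv_cancel, mul_one]
    rw [h1, map_mul, map_mul, map_inv, hKP1, hKNK, hKD]
  have h2 : (K x * x⁻¹) ^ q = 1 := by
    rw [mul_pow, inv_pow, ← map_pow, hKx, mul_inv_cancel]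
  have h3 : (K x * x⁻¹) ^ m = 1 := hA _
  have h4 : K x * x⁻¹ = 1 := by
    have h5 : orderOf (K x * x⁻¹) ∣ Nat.gcd q m :=
      Nat.dvd_gcd (orderOf_dvd_of_pow_eq_one h2) (orderOf_dvd_of_pow_eq_one h3)
    rw [hm.gcd_eq_one, Nat.dvd_one, orderOf_eq_one_iff] at h5
    exact h5
  exact mul_inv_eq_one.1 h4

end Pool.Agent.Lib.MP_544bd1_al
end

section

/-!
Two generators, part 2: Lemma F3.
-/

namespace Pool.Agent.Lib.MP_544bd1_al

open Subgroup

theorem tw_V2_mem {S : Type} [Group S] (D : Subgroup S) [hD : D.Characteristic] (φ : MulAut S)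
    {x : S} (hx : x ∈ D) : φ x ∈ D := by
  have h1 := hD.fixed φ
  have h2 : x ∈ D.comap φ.toMonoidHom := by rw [h1]; exact hx
  exact h2

/-- restriction of automorphisms to a characteristic subgroup -/
noncomputable def tw_V2_res {S : Type} [Group S] (D : Subgroup S) [D.Characteristic] :
    MulAut S →* MulAut D where
  toFun φ :=
    { toFun := fun x => ⟨φ x, tw_V2_mem D φ x.2⟩
      invFun := fun x => ⟨φ⁻¹ x, tw_V2_mem D φ⁻¹ x.2⟩
      left_inv := fun x => Subtype.ext (by simp)
      right_inv := fun x => Subtype.ext (by simp)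
      map_mul' := fun x y => Subtype.ext (by simp) }
  map_one' := by ext x; rfl
  map_mul' φ ψ := by ext x; rfl

theorem tw_V2_res_val {S : Type} [Group S] (D : Subgroup S) [D.Characteristic] (φ : MulAut S)
    (x : D) : ((tw_V2_res D φ x : D) : S) = φ x := rfl

/-- automorphisms of the abelianization -/
noncomputable def tw_V2_ab {S : Type} [Group S] : MulAut S →* MulAut (Abelianization S) where
  toFun φ := MulEquiv.abelianizationCongr φ
  map_one' := abelianizationCongr_refl
  map_mul' φ ψ := (abelianizationCongr_trans ψ φ).symm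

theorem tw_V2_ab_of {S : Type} [Group S] (φ : MulAut S) (x : S) :
    tw_V2_ab φ (Abelianization.of x) = Abelianization.of (φ x) := rfl

/-- Lemma F3 for a finite `p`-group `S`, automorphisms.
Proof. Strong induction on `Nat.card S` (for all `S`). If `S` is abelian: `tw_V1` (e.g. for the
`CommGroup` structure on `S`). Otherwise let `D = commutator S` (characteristic; proper as `S` is a
finite `p`-group): `Y`, `K` restrict to `D`, so `K` is trivial on `D` by induction. In the quotient
`S ⧸ D` (= `Abelianization S`) `Y`, `K` induce automorphisms `Y'`, `K'`; if `(Y' K' ^ j) x' = x'` then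
the coset `x'` is invariant under `g = Y * K ^ j`, `g ^ q = 1`, and it has `Nat.card D` = power of
`p` elements, so `g` fixes an element `x` of the coset (`q ≠ p`; `MulAction.card_modEq...` or orbit
counting), so `K x = x` and `K' x' = x'`. By `tw_V1` `K'` is trivial: `x⁻¹ * K x ∈ D` is fixed by `K`,
so `K ^ q x = x * (x⁻¹ * K x) ^ q`, so `(x⁻¹ * K x) ^ q = 1`, `x⁻¹ * K x = 1`. -/
theorem tw_V2 {p q : ℕ} (hp : p.Prime) (hq : q.Prime) (hpq : p ≠ q) (d : ℕ) :
    ∀ (S : Type) [Group S] [Finite S], Nat.card S = d → IsPGroup p S → ∀ (Y K : MulAut S),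
      Y ^ q = 1 → K ^ q = 1 → Y * K = K * Y → (∀ (j : ℕ) (x : S), (Y * K ^ j) x = x → K x = x) →
      ∀ x : S, K x = x := by
  induction d using Nat.strong_induction_on with
  | _ d ih =>
  intro S _ _ hcard hpS Y K hY hK hYK h x
  have := Fact.mk hp
  have := Fact.mk hq
  obtain ⟨k, hk⟩ := (IsPGroup.iff_card).1 hpS
  have hpow : ∀ y : S, y ^ (p ^ k) = 1 := by
    intro y
    rw [← hk]
    exact pow_card_eq_one'
  have hcop : Nat.Coprime q (p ^ k) :=
    Nat.Coprime.pow_right k ((Nat.coprime_primes hq hp).2 (Ne.symm hpq))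
  by_cases hab : ∀ a b : S, a * b = b * a
  · let : CommGroup S := { (inferInstance : Group S) with mul_comm := hab }
    exact tw_V1 hq hcop hpow Y K hY hK hYK h x
  -- the derived subgroup
  have hnt : Nontrivial S := by
    by_contra hc
    rw [not_nontrivial_iff_subsingleton] at hc
    exact hab fun a b => Subsingleton.elim _ _
  have hnil : Group.IsNilpotent S := hpS.isNilpotent
  have hlt : commutator S < ⊤ := Group.IsSolvable.commutator_lt_top_of_nontrivial S
  have hcardlt : Nat.card (commutator S) < d := by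
    rw [← hcard]
    exact lt_of_le_of_ne (Subgroup.card_le_card_group _)
      (fun h => hlt.ne (Subgroup.eq_top_of_card_eq _ h))
  have hcommj : ∀ j : ℕ, (Y * K ^ j) ^ q = 1 := by
    intro j
    have hc : Commute Y (K ^ j) := Commute.pow_right hYK j
    rw [hc.mul_pow, hY, one_mul, ← pow_mul, mul_comm, pow_mul, hK, one_pow]
  have hD : ∀ c ∈ commutator S, K c = c := by
    intro c hc
    have h1 := ih (Nat.card (commutator S)) hcardlt (commutator S) rfl (hpS.to_subgroup _)
      (tw_V2_res _ Y) (tw_V2_res _ K) (by rw [← map_pow, hY, map_one])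
      (by rw [← map_pow, hK, map_one]) (by rw [← map_mul, hYK, map_mul])
      (fun j y hy => by
        apply Subtype.ext
        rw [← map_pow, ← map_mul] at hy
        have h2 := congrArg Subtype.val hy
        rw [tw_V2_res_val] at h2
        exact h j y h2) ⟨c, hc⟩
    exact congrArg Subtype.val h1
  -- the abelianization
  have hAb : ∀ x' : Abelianization S, tw_V2_ab K x' = x' := by
    have hsurj : Function.Surjective (Abelianization.of : S →* Abelianization S) :=
      QuotientGroup.mk_surjective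
    refine tw_V1 (A := Abelianization S) hq hcop ?_ (tw_V2_ab Y) (tw_V2_ab K)
      (by rw [← map_pow, hY, map_one]) (by rw [← map_pow, hK, map_one])
      (by rw [← map_mul, hYK, map_mul]) ?_
    · intro y'
      obtain ⟨y, rfl⟩ := hsurj y'
      rw [← map_pow, hpow, map_one]
    · intro j x' hx'
      rw [← map_pow, ← map_mul] at hx'
      obtain ⟨g, hg⟩ : ∃ g, g = Y * K ^ j := ⟨_, rfl⟩
      rw [← hg] at hx'
      have hgq : g ^ q = 1 := by rw [hg]; exact hcommj j
      have hstab : ∀ c ∈ zpowers g, tw_V2_ab c x' = x' := by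
        intro c hc
        have h1 : zpowers g ≤ (MulAction.stabilizer (MulAut (Abelianization S)) x').comap
            tw_V2_ab := by
          rw [zpowers_le]
          exact hx'
        exact h1 hc
      let C : SubMulAction (zpowers g) S :=
        { carrier := {y | Abelianization.of y = x'}
          smul_mem' := by
            intro c y hy
            have hy' : Abelianization.of y = x' := hy
            have h1 : Abelianization.of ((c : MulAut S) y) = x' := by
              rw [← tw_V2_ab_of, hy']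
              exact hstab c c.2
            exact h1 }
      have hC : ∀ y : S, y ∈ C ↔ Abelianization.of y = x' := fun y => Iff.rfl
      obtain ⟨x0, hx0⟩ := hsurj x'
      have hcardC : Nat.card C = Nat.card (commutator S) := by
        symm
        apply Nat.card_congr
        exact
          { toFun := fun c => ⟨x0 * c, by
              rw [hC, map_mul, hx0]
              have : Abelianization.of (c : S) = 1 := (QuotientGroup.eq_one_iff (c : S)).2 c.2
              rw [this, mul_one]⟩
            invFun := fun c => ⟨x0⁻¹ * c, by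
              have h1 : Abelianization.of (c : S) = x' := c.2
              have h2 : Abelianization.of (x0⁻¹ * (c : S)) = 1 := by
                rw [map_mul, map_inv, hx0, h1, inv_mul_cancel]
              exact (QuotientGroup.eq_one_iff _).1 h2⟩
            left_inv := fun c => Subtype.ext (by simp)
            right_inv := fun c => Subtype.ext (by simp) }
      have hndvd : ¬ q ∣ Nat.card C := by
        rw [hcardC]
        obtain ⟨l, hl⟩ := (IsPGroup.iff_card).1 (hpS.to_subgroup (commutator S))
        rw [hl]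
        intro hdvd
        have h1 := hq.dvd_of_dvd_pow hdvd
        exact hpq ((Nat.prime_dvd_prime_iff_eq hq hp).1 h1).symm
      have hPG : IsPGroup q (zpowers g) := by
        rintro ⟨c, n, rfl⟩
        refine ⟨1, Subtype.ext ?_⟩
        rw [pow_one]
        simp only [SubmonoidClass.coe_pow, OneMemClass.coe_one]
        rw [← zpow_natCast, ← zpow_mul, mul_comm, zpow_mul, zpow_natCast, hgq, one_zpow]
      obtain ⟨y, hy⟩ := hPG.nonempty_fixed_point_of_prime_not_dvd_card C hndvd
      have h1 : (⟨g, mem_zpowers g⟩ : zpowers g) • y = y := hy _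
      have h2 : g (y : S) = y := congrArg Subtype.val h1
      have h3 : K (y : S) = y := by
        apply h j
        rw [← hg]
        exact h2
      have h4 : Abelianization.of (y : S) = x' := y.2
      rw [← h4, tw_V2_ab_of, h3]
  -- conclusion
  have h1 : Abelianization.of (K x) = Abelianization.of x := by
    rw [← tw_V2_ab_of]
    exact hAb _
  have h2 : x⁻¹ * K x ∈ commutator S := by
    have h3 : Abelianization.of (x⁻¹ * K x) = 1 := by
      rw [map_mul, map_inv, h1, inv_mul_cancel]
    exact (QuotientGroup.eq_one_iff _).1 h3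
  obtain ⟨c, hc⟩ : ∃ c, c = x⁻¹ * K x := ⟨_, rfl⟩
  rw [← hc] at h2
  have hKx : K x = x * c := by rw [hc, mul_inv_cancel_left]
  have hKc := hD c h2
  have h3 : ∀ n : ℕ, (K ^ n) x = x * c ^ n := by
    intro n
    induction n with
    | zero => simp
    | succ n ihn =>
      rw [pow_succ', MulAut.mul_apply, ihn, map_mul, map_pow, hKc, hKx, pow_succ', mul_assoc]
  have h4 := h3 q
  rw [hK, MulAut.one_apply] at h4
  have h5 : c ^ q = 1 := by
    have : x * c ^ q = x * 1 := by rw [← h4, mul_one]
    exact mul_left_cancel this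
  have h6 : c = 1 := tw_one hcop h5 (hpow c)
  rw [hKx, h6, mul_one]

end Pool.Agent.Lib.MP_544bd1_al
end

section

/-!
Two generators, part 2: Lemma F3 for subgroups.
-/

namespace Pool.Agent.Lib.MP_544bd1_al

open Subgroup

/-- conjugation as an automorphism of a finite subgroup -/
private theorem tw_F3_aut {G : Type} [Group G] (S : Subgroup G) [Finite S] {y : G}
    (hyS : ∀ x ∈ S, y * x * y⁻¹ ∈ S) :
    ∃ Y : MulAut S, ∀ (n : ℕ) (x : S), (((Y ^ n) x : S) : G) = y ^ n * x * (y ^ n)⁻¹ := by
  let f : S →* S :=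
    { toFun := fun x => ⟨y * x * y⁻¹, hyS x x.2⟩
      map_one' := Subtype.ext (by simp)
      map_mul' := fun a b => Subtype.ext (by simp [mul_assoc]) }
  have hinj : Function.Injective f := by
    intro a b hab
    have h1 : y * (a : G) * y⁻¹ = y * b * y⁻¹ := congrArg Subtype.val hab
    exact Subtype.ext (mul_left_cancel (mul_right_cancel h1))
  let Y : MulAut S := MulEquiv.ofBijective f (Finite.injective_iff_bijective.1 hinj)
  have hY1 : ∀ x : S, ((Y x : S) : G) = y * x * y⁻¹ := fun x => rfl
  refine ⟨Y, fun n => ?_⟩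
  induction n with
  | zero => intro x; simp
  | succ n ih =>
    intro x
    rw [pow_succ' Y n]
    show ((Y ((Y ^ n) x) : S) : G) = _
    rw [hY1, ih x, pow_succ' y n, mul_inv_rev]
    simp only [mul_assoc]

/-- **Lemma F3** for a finite `p`-subgroup `S` normalized by commuting elements `y`, `κ` of order
dividing `q`. (`Y`, `K` = conjugation by `y`, `κ` on `S`.) -/
theorem tw_F3 {G : Type} [Group G] {p q a : ℕ} (hp : p.Prime) (hq : q.Prime) (hpq : p ≠ q)
    (S : Subgroup G) [Finite S] (hS : ∀ x ∈ S, x ^ (p ^ a) = 1) {y κ : G} (hy : y ^ q = 1)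
    (hκ : κ ^ q = 1) (hyκ : y * κ = κ * y) (hyS : ∀ x ∈ S, y * x * y⁻¹ ∈ S)
    (hκS : ∀ x ∈ S, κ * x * κ⁻¹ ∈ S)
    (h : ∀ (j : ℕ), ∀ f ∈ S, f * (y * κ ^ j) = (y * κ ^ j) * f → f * κ = κ * f) :
    ∀ x ∈ S, κ * x = x * κ := by
  obtain ⟨Y, hY⟩ := tw_F3_aut S hyS
  obtain ⟨K, hK⟩ := tw_F3_aut S hκS
  have hY1 : ∀ x : S, ((Y x : S) : G) = y * x * y⁻¹ := fun x => by simpa using hY 1 x
  have hK1 : ∀ x : S, ((K x : S) : G) = κ * x * κ⁻¹ := fun x => by simpa using hK 1 x
  have hpg : IsPGroup p S := fun x => ⟨a, Subtype.ext (by simpa using hS x x.2)⟩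
  have hYq : Y ^ q = 1 := by
    ext x
    rw [hY q x, hy]
    simp
  have hKq : K ^ q = 1 := by
    ext x
    rw [hK q x, hκ]
    simp
  have hYK : Y * K = K * Y := by
    ext x
    show ((Y (K x) : S) : G) = ((K (Y x) : S) : G)
    rw [hY1, hK1, hK1, hY1]
    calc y * (κ * x * κ⁻¹) * y⁻¹ = (y * κ) * x * (y * κ)⁻¹ := by
          rw [mul_inv_rev]
          simp only [mul_assoc]
      _ = κ * (y * x * y⁻¹) * κ⁻¹ := by
          rw [hyκ, mul_inv_rev]
          simp only [mul_assoc]
  have hfix : ∀ (j : ℕ) (x : S), (Y * K ^ j) x = x → K x = x := by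
    intro j x hx
    have h1 : ((Y ((K ^ j) x) : S) : G) = x := congrArg Subtype.val hx
    rw [hY1, hK j x] at h1
    have h2 : (y * κ ^ j) * x = x * (y * κ ^ j) := by
      have h3 : (y * κ ^ j) * x * (y * κ ^ j)⁻¹ = x := by
        rw [mul_inv_rev]
        simpa only [mul_assoc] using h1
      exact mul_inv_eq_iff_eq_mul.1 h3
    have h4 := h j x x.2 h2.symm
    apply Subtype.ext
    rw [hK1, ← h4, mul_assoc, mul_inv_cancel, mul_one]
  intro x hx
  have h5 := tw_V2 hp hq hpq (Nat.card S) S rfl hpg Y K hYq hKq hYK hfix ⟨x, hx⟩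
  have h6 : κ * x * κ⁻¹ = x := by
    have := congrArg Subtype.val h5
    rwa [hK1] at this
  exact mul_inv_eq_iff_eq_mul.1 h6

end Pool.Agent.Lib.MP_544bd1_al
end
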