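import Mathlib
import Pool.Agent.Lib.MP_544bd1_al.TwV3
import Pool.Agent.Lib.MP_544bd1_al.TwC0
import Pool.Agent.Lib.MP_544bd1_al.TwS3
import Pool.Agent.Lib.MP_544bd1_al.TwF4
import Pool.Agent.Lib.MP_544bd1_al.TwR4

section

/-!
Two generators, part 2: Step 2 of Theorem C.
-/

namespace Pool.Agent.Lib.MP_544bd1_al

open Subgroup

/-- **Theorem C, Step 2** (Claim A').
Proof. `tw_F3`; let `f ∈ S` commute with `x = y * κ ^ j`. `x ^ q = 1`, `f ^ (p ^ a) = 1`, so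
`x, f ∈ zpowers (x * f)` (`tw_coprime_comm`). `T = closure {z, x * f}` is finite and solvable, it
contains `z`, `x`, `f`. `InOP M (p ^ a) T z` (goodness), `closure {z, x} ≤ T`, so
`InOP M (p ^ a) T κ` (`InNC.inOP`) and `InO M T κ` (`InOP.inO`, `κ ^ M = 1` as `q ∣ M`). Let `K` be the
subgroup of exponent `M` containing `κ` normalized by `T`. `c = f⁻¹ * (κ⁻¹ * f * κ)` is in `S`
(`κ` and so `κ⁻¹` normalize `S`, `S` finite), so `c ^ (p ^ a) = 1`, and
`c = (f⁻¹ * κ⁻¹ * f) * κ ∈ K`, so `c ^ M = 1`: `c = 1`. -/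
theorem tw_C2 {G : Type} [Group G] {n p q a M : ℕ} (H : TwG n G) (hp : p.Prime) (hq : q.Prime)
    (hpq : p ≠ q) (hM : n = M * p ^ a) (hpM : ¬ p ∣ M) (hqM : q ∣ M) {z y κ : G}
    (hz : GoodS M (p ^ a) z) (hy : y ^ q = 1) (hκ : κ ^ q = 1) (hyκ : y * κ = κ * y)
    (hNC : ∀ j : ℕ, InNC (closure {z, y * κ ^ j}) z κ) (S : Subgroup G) [Finite S]
    (hS : ∀ x ∈ S, x ^ (p ^ a) = 1) (hyS : ∀ x ∈ S, y * x * y⁻¹ ∈ S)
    (hκS : ∀ x ∈ S, κ * x * κ⁻¹ ∈ S) : ∀ x ∈ S, κ * x = x * κ := by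
  have hcop : Nat.Coprime M (p ^ a) := by
    apply Nat.Coprime.pow_right
    exact ((Nat.Prime.coprime_iff_not_dvd hp).2 hpM).symm
  obtain ⟨m, hm⟩ := hqM
  have hκM : κ ^ M = 1 := by rw [hm, pow_mul, hκ, one_pow]
  -- conjugation by the inverse
  have hpowS : ∀ (n : ℕ), ∀ x ∈ S, κ ^ n * x * (κ ^ n)⁻¹ ∈ S := by
    intro n
    induction n with
    | zero => intro x hx; simpa using hx
    | succ n ih =>
      intro x hx
      have h1 := hκS _ (ih x hx)
      have h2 : κ * (κ ^ n * x * (κ ^ n)⁻¹) * κ⁻¹ = κ ^ (n + 1) * x * (κ ^ (n + 1))⁻¹ := by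
        rw [pow_succ' κ n, mul_inv_rev]
        group
      rwa [h2] at h1
  have hinvS : ∀ x ∈ S, κ⁻¹ * x * κ ∈ S := by
    intro x hx
    have h1 := hpowS (q - 1) x hx
    have h2 : κ ^ (q - 1) = κ⁻¹ := by
      apply eq_inv_of_mul_eq_one_left
      rw [← pow_succ, Nat.sub_add_cancel hq.one_le, hκ]
    rwa [h2, inv_inv] at h1
  apply tw_F3 hp hq hpq S hS hy hκ hyκ hyS hκS
  intro j f hf hcomm
  set x : G := y * κ ^ j with hx
  have hcyκ : Commute y (κ ^ j) := Commute.pow_right hyκ j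
  have hxq : x ^ q = 1 := by
    rw [hx, hcyκ.mul_pow, hy, one_mul, ← pow_mul, mul_comm, pow_mul, hκ, one_pow]
  have hxM : x ^ M = 1 := by rw [hm, pow_mul, hxq, one_pow]
  obtain ⟨h1, h2⟩ := tw_coprime_comm hcop hxM (hS f hf) hcomm.symm
  obtain ⟨hfin, hsol⟩ := H.h2 z (x * f)
  set T : Subgroup G := closure {z, x * f} with hT
  have hzT : z ∈ T := subset_closure (by simp)
  have hxfT : x * f ∈ T := subset_closure (by simp)
  have hxT : x ∈ T := (zpowers_le.2 hxfT) h1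
  have hfT : f ∈ T := (zpowers_le.2 hxfT) h2
  have h3 : InOP M (p ^ a) T z := hz.inOP T hfin hsol hzT
  have h4 : closure {z, x} ≤ T := by
    rw [closure_le]
    rintro w hw
    rcases hw with hw | hw
    · rw [hw]; exact hzT
    · rw [hw]; exact hxT
  have h5 : InOP M (p ^ a) T κ := (hNC j).inOP h4 h3
  obtain ⟨K, hK1, hK2, hK3, hK4⟩ := h5.inO hcop hκM
  have h6 : κ⁻¹ * f * κ ∈ S := hinvS f hf
  have h7 : f⁻¹ * (κ⁻¹ * f * κ) ∈ S := S.mul_mem (S.inv_mem hf) h6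
  have h8 : f⁻¹ * (κ⁻¹ * f * κ) ∈ K := by
    have h9 := hK3 f⁻¹ (T.inv_mem hfT) κ⁻¹ (K.inv_mem hK2)
    rw [inv_inv] at h9
    have h10 := K.mul_mem h9 hK2
    rwa [show f⁻¹ * κ⁻¹ * f * κ = f⁻¹ * (κ⁻¹ * f * κ) by group] at h10
  have h11 : f⁻¹ * (κ⁻¹ * f * κ) = 1 := tw_one hcop (hK4 _ h8) (hS _ h7)
  have h12 : κ⁻¹ * f * κ = f := by
    have h13 := congrArg (fun w => f * w) h11
    simpa using h13
  calc f * κ = κ * (κ⁻¹ * f * κ) := by group
    _ = κ * f := by rw [h12]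

end Pool.Agent.Lib.MP_544bd1_al
end

section

/-!
Two generators, part 2: Step 1 of Theorem C.
-/

namespace Pool.Agent.Lib.MP_544bd1_al

open Subgroup

/-- **Theorem C, Step 1** (for a group of exponent `p ^ a * q ^ b` generated by `z`, `y`).

Proof. `A = krad (p ^ a) F`, `B = krad (q ^ b) F` (exponents `p ^ a`, `q ^ b`; `A ⊓ B = ⊥`,
`[A, B] = 1`). Let `c = y⁻¹ * (z⁻¹ * y * z)`, and `K₁ ≤ N₁`, `K₂ ≤ N₂` from `hz`, `hyO` (normal
subgroups of `F`; `K₁` of exponent `q ^ b`, `K₂` of exponent `p ^ a`). `c ∈ N₁ ⊓ N₂`, so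
`c ^ (p ^ a) ∈ K₁ ≤ B` and `c ^ (q ^ b) ∈ K₂ ≤ A`; by `tw_split` `c = α * β` with `α ∈ A`, `β ∈ B`.
`β ≠ 1` by `hne` (`c = α ∈ K₂` would give `InO`).
Let `π : F → X = F ⧸ A`, `B' = B.map π` (a `q`-group, normal). Apply `tw_N` in `X` to `π z`, `π y`,
`B'`: `π c = π β ∈ B'`, `π β ≠ 1` since `β ∉ A`. `hE` for `B'`: let `m ∈ B` (any element of `B'` is
`π m`) with `(π m) ^ q = 1` and `(π z)⁻¹ * π m * π z ∈ zpowers (π m)`: then `m ^ q ∈ A ⊓ B`, `m ^ q = 1`,
and `z⁻¹ * m * z`, `m ^ i` are elements of `B` congruent modulo `A`, so equal; `hE` applies.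
We get `κ ∈ B` (a lift of the element of `B'`): `κ ^ q ∈ A ⊓ B = ⊥`; `κ ≠ 1`;
`y⁻¹ * κ⁻¹ * y * κ ∈ A ⊓ B = ⊥`.
Conjugacy: `π g₀⁻¹ * π y * π g₀ = π (y * κ)`; `s = g₀⁻¹ * y * g₀`, `s' = y * κ` satisfy
`s ^ q = s' ^ q = 1`, `s⁻¹ * s' ∈ A`, so by `tw_conj_mod` `s` and `s'` are conjugate.
`InNC`: let `N ∋ z` be a subgroup normalized by `L = closure {z, y * κ ^ j}`. `N.map π` is
normalized by `closure {π z, π (y * κ ^ j)}`, so `π κ ∈ N.map π`: there is `ν ∈ N` with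
`ν = κ * α'`, `α' ∈ A`; `κ` and `α'` commute and have coprime orders, so `κ ∈ zpowers ν ≤ N`
(`tw_coprime_comm`). -/
theorem tw_C1 {F : Type} [Group F] [Finite F] {p q a b : ℕ} (hp : p.Prime) (hq : q.Prime)
    (hpq : p ≠ q) (hb : 0 < b) (hexp : ∀ x : F, x ^ (p ^ a * q ^ b) = 1) {z y : F}
    (hy : y ^ q = 1) (hz : InOP (q ^ b) (p ^ a) (⊤ : Subgroup F) z)
    (hyO : InOP (p ^ a) (q ^ b) (⊤ : Subgroup F) y)
    (hE : ∀ m : F, m ^ q = 1 → z⁻¹ * m * z ∈ zpowers m → z * m = m * z)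
    (hne : ¬ InO (p ^ a) (⊤ : Subgroup F) (y⁻¹ * (z⁻¹ * y * z))) :
    ∃ κ : F, κ ^ q = 1 ∧ κ ≠ 1 ∧ y * κ = κ * y ∧ (∃ g, g⁻¹ * y * g = y * κ) ∧
      ∀ j : ℕ, InNC (closure {z, y * κ ^ j}) z κ := by
  have hcop : Nat.Coprime (p ^ a) (q ^ b) :=
    Nat.Coprime.pow a b ((Nat.coprime_primes hp hq).2 hpq)
  have hexp' : ∀ x : F, x ^ (q ^ b * p ^ a) = 1 := tw_exp_comm hexp
  set A := krad (p ^ a) F with hAdef
  set B := krad (q ^ b) F with hBdef
  have hAn : A.Normal := krad_normal _ _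
  have hBn : B.Normal := krad_normal _ _
  have hApow : ∀ x ∈ A, x ^ (p ^ a) = 1 := tw_krad_pow hcop hexp
  have hBpow : ∀ x ∈ B, x ^ (q ^ b) = 1 := tw_krad_pow hcop.symm hexp'
  have hAB : ∀ x, x ∈ A → x ∈ B → x = 1 := fun x hx hx' =>
    tw_one hcop (hApow x hx) (hBpow x hx')
  have hABc : ∀ x ∈ A, ∀ w ∈ B, x * w = w * x := by
    intro x hx w hw
    have h1 : x * w * x⁻¹ * w⁻¹ = 1 := by
      apply hAB
      · have h2 : x * w * x⁻¹ * w⁻¹ = x * (w * x⁻¹ * w⁻¹) := by group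
        rw [h2]
        exact A.mul_mem hx (hAn.conj_mem _ (A.inv_mem hx) _)
      · exact B.mul_mem (hBn.conj_mem _ hw _) (B.inv_mem hw)
    have h2 := mul_inv_eq_one.1 h1
    exact mul_inv_eq_iff_eq_mul.1 h2
  obtain ⟨N₁, K₁, _, _, hz1, hz2, hz3, hz4, hz5⟩ := hz
  obtain ⟨N₂, K₂, _, _, hy1, hy2, hy3, hy4, hy5⟩ := hyO
  have hK₁B : K₁ ≤ B := le_krad ⟨fun x hx g => hz3 g trivial x hx⟩ hz4
  have hK₂A : K₂ ≤ A := le_krad ⟨fun x hx g => hy3 g trivial x hx⟩ hy4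
  set c := y⁻¹ * (z⁻¹ * y * z) with hc
  have hcN₁ : c ∈ N₁ := by
    have h1 : c = (y⁻¹ * z⁻¹ * (y⁻¹)⁻¹) * z := by
      rw [hc]
      group
    rw [h1]
    exact N₁.mul_mem (hz2 _ trivial _ (N₁.inv_mem hz1)) hz1
  have hcN₂ : c ∈ N₂ := by
    have h1 : c = y⁻¹ * (z⁻¹ * y * (z⁻¹)⁻¹) := by
      rw [hc]
      group
    rw [h1]
    exact N₂.mul_mem (N₂.inv_mem hy1) (hy2 _ trivial _ hy1)
  obtain ⟨u, v, huv⟩ := tw_split hcop c
  have hα : (c ^ (q ^ b)) ^ v ∈ A := A.zpow_mem (hK₂A (hy5 c hcN₂)) v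
  have hβ : (c ^ (p ^ a)) ^ u ∈ B := B.zpow_mem (hK₁B (hz5 c hcN₁)) u
  have hcA : c ∉ A := fun h => hne ((tw_mem_krad_iff hcop hexp).1 h)
  -- the quotient
  set π : F →* F ⧸ A := QuotientGroup.mk' A with hπ
  have hπsurj : Function.Surjective π := QuotientGroup.mk'_surjective _
  have hπ1 : ∀ x, π x = 1 ↔ x ∈ A := fun x => by
    rw [hπ, QuotientGroup.mk'_apply, QuotientGroup.eq_one_iff]
  have hπeq : ∀ x w, π x = π w → x⁻¹ * w ∈ A := fun x w h => by
    rw [← hπ1, map_mul, map_inv, h, inv_mul_cancel]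
  have hBinj : ∀ x ∈ B, ∀ w ∈ B, π x = π w → x = w := by
    intro x hx w hw h
    have h1 := hAB _ (hπeq x w h) (B.mul_mem (B.inv_mem hx) hw)
    exact inv_mul_eq_one.1 h1
  have hB'n : (B.map π).Normal := hBn.map π hπsurj
  have hB'p : IsPGroup q (B.map π) := by
    rintro ⟨_, x, hx, rfl⟩
    refine ⟨b, Subtype.ext ?_⟩
    have h1 : (π x) ^ (q ^ b) = 1 := by rw [← map_pow, hBpow x hx, map_one]
    simpa using h1
  have hπc : (π y)⁻¹ * ((π z)⁻¹ * π y * π z) = π c := by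
    rw [hc]
    simp only [map_mul, map_inv]
  obtain ⟨κ', ⟨κ, hκB, rfl⟩, hκq, hκ1, hκy, ⟨g', hg'⟩, hκN⟩ := tw_N hq (z := π z) (y := π y)
    (B.map π) hB'p (by rw [← map_pow, hy, map_one])
    (by
      rw [hπc, huv, map_mul, (hπ1 _).2 hα, one_mul]
      exact ⟨_, hβ, rfl⟩)
    (by
      rw [hπc, Ne, hπ1]
      exact hcA)
    (by
      rintro _ ⟨m, hm, rfl⟩ hmq ⟨i, hi⟩
      have h1 : m ^ q = 1 := by
        apply hBinj _ (B.pow_mem hm q) _ B.one_mem
        rw [map_pow, map_one]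
        exact hmq
      have h2 : m ^ i = z⁻¹ * m * z := by
        apply hBinj _ (B.zpow_mem hm i)
        · have h3 : z⁻¹ * m * z = z⁻¹ * m * (z⁻¹)⁻¹ := by rw [inv_inv]
          rw [h3]
          exact hBn.conj_mem _ hm _
        · rw [map_zpow, map_mul, map_mul, map_inv]
          exact hi
      have h3 := hE m h1 ⟨i, h2⟩
      rw [← map_mul, h3, map_mul])
  have hκq' : κ ^ q = 1 := by
    apply hBinj _ (B.pow_mem hκB q) _ B.one_mem
    rw [map_pow, map_one]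
    exact hκq
  have hyκ : y * κ = κ * y := by
    have h1 : y * κ * y⁻¹ = κ := by
      apply hBinj _ (hBn.conj_mem _ hκB _) _ hκB
      rw [map_mul, map_mul, map_inv, hκy, mul_inv_cancel_right]
    exact mul_inv_eq_iff_eq_mul.1 h1
  refine ⟨κ, hκq', ?_, hyκ, ?_, ?_⟩
  · rintro rfl
    exact hκ1 (map_one π)
  · obtain ⟨g₀, rfl⟩ := hπsurj g'
    have h1 : (g₀⁻¹ * y * g₀) ^ q = 1 := by
      have h2 : g₀⁻¹ * y * g₀ = g₀⁻¹ * y * (g₀⁻¹)⁻¹ := by rw [inv_inv]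
      rw [h2, conj_pow, hy, mul_one, mul_inv_cancel]
    have h2 : (y * κ) ^ q = 1 := by
      have h3 : Commute y κ := hyκ
      rw [h3.mul_pow, hy, hκq', one_mul]
    obtain ⟨g, _, hg⟩ := tw_conj_mod hp hq hpq A hApow h1 h2 (hπeq _ _ (by
      simp only [map_mul, map_inv]
      exact hg'))
    refine ⟨g₀ * g, ?_⟩
    rw [← hg, mul_inv_rev]
    simp only [mul_assoc]
  · intro j N hzN hN
    have h1 : π κ ∈ N.map π := by
      refine hκN j (N.map π) ⟨z, hzN, rfl⟩ ?_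
      intro t ht x hx
      have h2 : (closure {π z, π y * π κ ^ j} : Subgroup (F ⧸ A)) =
          (closure {z, y * κ ^ j} : Subgroup F).map π := by
        rw [MonoidHom.map_closure, Set.image_pair, map_mul, map_pow]
      rw [h2] at ht
      obtain ⟨t₀, ht₀, rfl⟩ := ht
      obtain ⟨x₀, hx₀, rfl⟩ := hx
      exact ⟨_, hN t₀ ht₀ x₀ hx₀, by simp only [map_mul, map_inv]⟩
    obtain ⟨ν, hν, hνκ⟩ := h1
    have h2 : κ⁻¹ * ν ∈ A := hπeq _ _ hνκ.symm
    have h3 := (tw_coprime_comm hcop.symm (hBpow κ hκB) (hApow _ h2)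
      (hABc _ h2 κ hκB).symm).1
    rw [mul_inv_cancel_left] at h3
    exact (zpowers_le.2 hν) h3

end Pool.Agent.Lib.MP_544bd1_al
end

section

/-!
Two generators, part 2: Lemma E.
-/

namespace Pool.Agent.Lib.MP_544bd1_al

open Subgroup

variable {G : Type} [Group G] {M P : ℕ}

/-- **Lemma E.** `G` without nontrivial normal subgroups of exponent `M`, `z` good, `m` of prime
order `q ∣ M`, `m ^ z ∈ ⟨m⟩`. Then `z` and `m` commute.

Proof. Suppose not; then `m ≠ 1` has order `q` and `c = m⁻¹ * (z⁻¹ * m * z) ≠ 1` is a power of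
`m`, so `⟨c⟩ = ⟨m⟩`. `tw_adjoin` (with `c := m`, `w := z`) gives a finite solvable `T` containing
`m` and `z` with `¬ InO M T m`. By goodness `InOP M P T z`, so `InOP M P T c` (`InOP.comm`), so
`InOP M P T m` (a power of `c`), so `InO M T m` by `InOP.inO` as `m ^ M = 1`. Contradiction. -/
theorem tw_E {n : ℕ} (H : TwG n G) (hn : n = M * P) (hcop : Nat.Coprime M P) (hno : NoN M G)
    {z m : G} (hz : GoodS M P z) {q : ℕ} (hq : q.Prime) (hqM : q ∣ M) (hm : m ^ q = 1)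
    (h : z⁻¹ * m * z ∈ zpowers m) : z * m = m * z := by
  by_contra hne
  have hm1 : m ≠ 1 := by
    rintro rfl
    exact hne (by rw [mul_one, one_mul])
  have hmM : m ^ M = 1 := by
    obtain ⟨k, rfl⟩ := hqM
    rw [pow_mul, hm, one_pow]
  have hcm : m⁻¹ * (z⁻¹ * m * z) ∈ zpowers m := mul_mem (inv_mem (mem_zpowers m)) h
  have hc1 : m⁻¹ * (z⁻¹ * m * z) ≠ 1 := by
    intro h1
    apply hne
    have h2 : m = z⁻¹ * m * z := inv_mul_eq_one.1 h1
    calc z * m = z * (z⁻¹ * m * z) := by rw [← h2]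
      _ = m * z := by group
  obtain ⟨i, hi⟩ := mem_zpowers_iff.1 hcm
  have hqi : ¬ (q : ℤ) ∣ i := by
    rintro ⟨k, rfl⟩
    apply hc1
    rw [← hi, zpow_mul, zpow_natCast, hm, one_zpow]
  have hcop2 : IsCoprime (q : ℤ) i :=
    (Prime.coprime_iff_not_dvd (Nat.prime_iff_prime_int.1 hq)).2 hqi
  obtain ⟨a, b, hab⟩ := hcop2
  have hmc : m = (m⁻¹ * (z⁻¹ * m * z)) ^ b := by
    calc m = m ^ (a * q + b * i) := by rw [hab, zpow_one]
      _ = (m ^ q) ^ a * (m ^ i) ^ b := by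
        rw [zpow_add, mul_comm a, mul_comm b, zpow_mul, zpow_mul, zpow_natCast]
      _ = (m⁻¹ * (z⁻¹ * m * z)) ^ b := by rw [hm, one_zpow, one_mul, hi]
  obtain ⟨T, hfin, hsol, hmT, hzT, hT⟩ := tw_adjoin H hn hcop hno hmM hm1 h
  obtain ⟨N, K, h1, h2, h3, h4⟩ := (hz.inOP T hfin hsol hzT).comm hmT
  have h5 : InOP M P T m := by
    refine ⟨N, K, h1, h2, ?_, h4⟩
    rw [hmc]
    exact N.zpow_mem h3 b
  exact hT (h5.inO hcop hmM)

end Pool.Agent.Lib.MP_544bd1_al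
end

section

/-!
Two generators, part 2: Step 3 of Theorem C.
-/

namespace Pool.Agent.Lib.MP_544bd1_al

open Subgroup

/-- products of powers of two commuting elements of order dividing `q` -/
private theorem tw_C3_closure {F : Type} [Group F] {q : ℕ} {y κ : F} (hy : y ^ q = 1)
    (hκ : κ ^ q = 1) (hyκ : y * κ = κ * y) : ∀ x ∈ closure {y, κ}, x ^ q = 1 := by
  have hc : Commute y κ := hyκ
  have key : ∀ x ∈ closure {y, κ}, ∃ i j : ℤ, x = y ^ i * κ ^ j := by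
    intro x hx
    induction hx using closure_induction with
    | mem x hx =>
      rcases hx with rfl | rfl
      · exact ⟨1, 0, by simp⟩
      · exact ⟨0, 1, by simp⟩
    | one => exact ⟨0, 0, by simp⟩
    | mul a b _ _ iha ihb =>
      obtain ⟨i, j, rfl⟩ := iha
      obtain ⟨k, l, rfl⟩ := ihb
      refine ⟨i + k, j + l, ?_⟩
      have h1 : κ ^ j * y ^ k = y ^ k * κ ^ j := ((hc.zpow_zpow k j).eq).symm
      calc y ^ i * κ ^ j * (y ^ k * κ ^ l) = y ^ i * (κ ^ j * y ^ k) * κ ^ l := by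
            simp only [mul_assoc]
        _ = _ := by
            rw [h1, zpow_add, zpow_add]
            simp only [mul_assoc]
    | inv a _ ih =>
      obtain ⟨i, j, rfl⟩ := ih
      refine ⟨-i, -j, ?_⟩
      have h1 : y ^ (-i) * κ ^ (-j) = κ ^ (-j) * y ^ (-i) := (hc.zpow_zpow (-i) (-j)).eq
      rw [h1, mul_inv_rev, zpow_neg, zpow_neg]
  intro x hx
  obtain ⟨i, j, rfl⟩ := key x hx
  have h1 : Commute (y ^ i) (κ ^ j) := hc.zpow_zpow i j
  rw [h1.mul_pow, ← zpow_natCast, ← zpow_mul, mul_comm, zpow_mul, zpow_natCast, hy, one_zpow,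
    one_mul, ← zpow_natCast, ← zpow_mul, mul_comm, zpow_mul, zpow_natCast, hκ, one_zpow]

/-- a subgroup of index prime to `p` has full image in a `p`-group -/
private theorem tw_C3_image {F F' : Type} [Group F] [Group F'] [Finite F] {p k : ℕ}
    (hp : p.Prime) (π : F →* F') (S D : Subgroup F) (hSD : S ≤ D) (hk : Nat.card D = Nat.card S * k)
    (hpk : ¬ p ∣ k) (hD : IsPGroup p (D.map π)) {d : F} (hd : d ∈ D) : π d ∈ S.map π := by
  have : Fact p.Prime := ⟨hp⟩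
  have hfin : Finite (D.map π) := by
    have : Finite (π.range) := Set.finite_range π
    exact Finite.of_surjective _ (π.subgroupMap_surjective D)
  set f := π.subgroupMap D with hf
  have hfs : Function.Surjective f := π.subgroupMap_surjective D
  set H := S.subgroupOf D with hH
  have h1 : Nat.card H = Nat.card S := Nat.card_congr (Subgroup.subgroupOfEquivOfLe hSD).toEquiv
  have h2 : H.index = k := by
    have h3 := H.card_mul_index
    rw [h1, hk] at h3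
    exact Nat.eq_of_mul_eq_mul_left Nat.card_pos h3
  have h3 : (H.map f).index ∣ k := by
    rw [← h2]
    exact H.index_map_dvd hfs
  obtain ⟨m, hm⟩ := IsPGroup.iff_card.1 hD
  have h4 : (H.map f).index ∣ p ^ m := by
    rw [← hm]
    exact (H.map f).index_dvd_card
  obtain ⟨j, _, hj⟩ := (Nat.dvd_prime_pow hp).1 h4
  have h5 : (H.map f).index = 1 := by
    rcases Nat.eq_zero_or_pos j with h0 | h0
    · rw [hj, h0, pow_zero]
    · exfalso
      apply hpk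
      refine dvd_trans ?_ h3
      rw [hj]
      exact dvd_pow_self p h0.ne'
  have h6 : f ⟨d, hd⟩ ∈ H.map f := by
    rw [Subgroup.index_eq_one.1 h5]
    trivial
  obtain ⟨s, hs, hsd⟩ := h6
  refine ⟨s, hs, ?_⟩
  exact congrArg Subtype.val hsd

/-- **Theorem C, Step 3**, finite group part.

Proof. `R = krad M F`, `π : F → F' = F ⧸ R`, `P' = krad (p ^ a) F'` (contains its centralizer:
`fr_fitting`, `k = p ^ a`, `l = M`, `tw_krad_quot`). Let `K ≤ N₀` be given by `hκO` (normal subgroups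
of `F`, `κ ∈ N₀`, `K` of exponent `N`, `x ^ (q ^ b) ∈ K` for `x ∈ N₀`). Let
`D = N₀ ⊓ P'.comap π` (normal), `D₁ = D ⊓ K` (normal, exponent `N`, so `q ∤ Nat.card D₁`,
`tw_card_cop`). `E = closure {y, κ}` is a `q`-group (commuting elements of order dividing `q`). By
`tw_inv_sylow` there is `S ≤ D₁`, a Sylow `p`-subgroup of `D₁` normalized by `y`, `κ`. Elements of
`S` satisfy `x ^ (p ^ a) = 1` (`S` is a `p`-group, exponent `n`). By `hA` `κ` centralizes `S`.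
(1) `π S ≥ P' ⊓ π N₀`: let `d ∈ N₀` with `π d ∈ P'`, so `d ∈ D` and `d' = d ^ (q ^ b) ∈ D₁`. The
image `π D₁` is a `p`-group (exponent `p ^ a`), and `π S` has `p`-power order and index prime to `p` in
it, so `π S = π D₁` (`Nat.card (π D₁)` divides ... : the index of `S` in `D₁` is prime to `p`). So
`π d' ∈ π S`, and `π d` is a power of `π d' = (π d) ^ (q ^ b)` as `(π d) ^ (p ^ a) = 1`.
(2) So `π κ` centralizes `P' ⊓ π N₀`. For `x ∈ P'`, `x⁻¹ * (π κ * x * (π κ)⁻¹) ∈ P' ⊓ π N₀`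
(`N₀` normal), so it commutes with `π κ`; by `tw_coprime_trivial` `π κ` centralizes `P'`, so
`π κ ∈ P'`, `(π κ) ^ (p ^ a) = 1 = (π κ) ^ q`, `π κ = 1`, `κ ∈ R`: `InO M ⊤ κ` (`tw_mem_krad_iff`). -/
theorem tw_C3a {F : Type} [Group F] [Finite F] {n p q a b M N : ℕ} (hn : 0 < n) (hp : p.Prime)
    (hq : q.Prime) (hpq : p ≠ q) (hM : n = M * p ^ a) (hN : n = N * q ^ b) (hpM : ¬ p ∣ M)
    (hqN : ¬ q ∣ N) (hsol : Group.IsSolvable F) (hexp : ∀ x : F, x ^ n = 1) {y κ : F}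
    (hy : y ^ q = 1) (hκ : κ ^ q = 1) (hyκ : y * κ = κ * y)
    (hκO : InOP N (q ^ b) (⊤ : Subgroup F) κ)
    (hA : ∀ S : Subgroup F, (∀ x ∈ S, x ^ (p ^ a) = 1) → (∀ x ∈ S, y * x * y⁻¹ ∈ S) →
      (∀ x ∈ S, κ * x * κ⁻¹ ∈ S) → ∀ x ∈ S, κ * x = x * κ) :
    InO M (⊤ : Subgroup F) κ := by
  have hM0 : 0 < M := by
    rcases Nat.eq_zero_or_pos M with h | h
    · exact absurd (h ▸ dvd_zero p) hpM
    · exact h
  have hcopM : Nat.Coprime M (p ^ a) :=
    Nat.Coprime.pow_right a ((Nat.Prime.coprime_iff_not_dvd hp).2 hpM).symm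
  have hcopPQ : Nat.Coprime (p ^ a) (q ^ b) :=
    Nat.Coprime.pow a b ((Nat.coprime_primes hp hq).2 hpq)
  have hcopqP : Nat.Coprime q (p ^ a) :=
    Nat.Coprime.pow_right a ((Nat.coprime_primes hq hp).2 hpq.symm)
  have hexpM : ∀ x : F, x ^ (M * p ^ a) = 1 := fun x => by rw [← hM]; exact hexp x
  -- the quotient
  set π : F →* F ⧸ krad M F := QuotientGroup.mk' (krad M F) with hπ
  have hexpQ : ∀ x : F ⧸ krad M F, x ^ (M * p ^ a) = 1 := tw_exp_quot hexpM _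
  have hexpQ' : ∀ x : F ⧸ krad M F, x ^ (p ^ a * M) = 1 := tw_exp_comm hexpQ
  set P' := krad (p ^ a) (F ⧸ krad M F) with hP'
  have hP'pow : ∀ x ∈ P', x ^ (p ^ a) = 1 := tw_krad_pow hcopM.symm hexpQ'
  have hP'n : P'.Normal := krad_normal _ _
  have hπsurj : Function.Surjective π := QuotientGroup.mk'_surjective _
  have hsolQ : Group.IsSolvable (F ⧸ krad M F) := by
    have := hsol
    exact Group.isSolvable_of_surjective hπsurj
  obtain ⟨N₀, K, h1, _, h3, h4, h5, h6, h7⟩ := hκO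
  have hN₀n : N₀.Normal := ⟨fun x hx g => h4 g trivial x hx⟩
  have hKn : K.Normal := ⟨fun x hx g => h5 g trivial x hx⟩
  set D : Subgroup F := N₀ ⊓ P'.comap π with hD
  set D₁ : Subgroup F := D ⊓ K with hD₁
  have hD₁q : ¬ q ∣ Nat.card D₁ := tw_card_cop hq hqN D₁ fun x hx => h6 x hx.2
  have hE : IsPGroup q (closure {y, κ} : Subgroup F) := by
    rintro ⟨x, hx⟩
    refine ⟨1, ?_⟩
    apply Subtype.ext
    rw [pow_one]
    simpa using tw_C3_closure hy hκ hyκ x hx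
  obtain ⟨S, hSD, hSp, hSE, k, hk, hpk⟩ := tw_inv_sylow hp hq D₁ (closure {y, κ})
    (fun e _ x hx => ⟨⟨h4 e trivial x hx.1.1, by
      have : π (e * x * e⁻¹) ∈ P' := by
        rw [map_mul, map_mul, map_inv]
        exact hP'n.conj_mem _ hx.1.2 _
      exact this⟩, h5 e trivial x hx.2⟩) hE hD₁q
  have hSpow : ∀ x ∈ S, x ^ (p ^ a) = 1 := by
    intro x hx
    obtain ⟨j, hj⟩ := hSp ⟨x, hx⟩
    have hj' : x ^ (p ^ j) = 1 := by
      have := congrArg Subtype.val hj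
      simpa using this
    refine tw_one (M := M) (P := p ^ j)
      (Nat.Coprime.pow_right j ((Nat.Prime.coprime_iff_not_dvd hp).2 hpM).symm) ?_ ?_
    · rw [← pow_mul, mul_comm]
      exact hexpM x
    · rw [← pow_mul, mul_comm, pow_mul, hj', one_pow]
  have hκS : ∀ x ∈ S, κ * x = x * κ := by
    refine hA S hSpow (fun x hx => hSE y ?_ x hx) (fun x hx => hSE κ ?_ x hx)
    · exact subset_closure (by simp)
    · exact subset_closure (by simp)
  -- (1)
  have hD₁p : IsPGroup p (D₁.map π) := by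
    rintro ⟨_, x, hx, rfl⟩
    refine ⟨a, Subtype.ext ?_⟩
    have h8 : (π x) ^ (p ^ a) = 1 := hP'pow _ hx.1.2
    simpa using h8
  have hcomm : ∀ d ∈ N₀, π d ∈ P' → π κ * π d = π d * π κ := by
    intro d hd hdP
    have h8 : π (d ^ (q ^ b)) ∈ S.map π := by
      refine tw_C3_image hp π S D₁ hSD hk hpk hD₁p ?_
      refine ⟨⟨N₀.pow_mem hd _, ?_⟩, h7 d hd⟩
      show π (d ^ (q ^ b)) ∈ P'
      rw [map_pow]
      exact P'.pow_mem hdP _
    rw [map_pow] at h8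
    have h9 : π d ∈ S.map π := tw_mem_of_pow hcopPQ (hP'pow _ hdP) h8
    obtain ⟨s, hs, hsd⟩ := h9
    rw [← hsd, ← map_mul, ← map_mul, hκS s hs]
  -- (2)
  have hcen : ∀ x ∈ P', π κ * x = x * π κ := by
    refine tw_coprime_trivial hcopqP P' hP'pow ?_ (fun x hx => hP'n.conj_mem x hx _) ?_
    · rw [← map_pow, hκ, map_one]
    · intro x hx
      obtain ⟨w, rfl⟩ := hπsurj x
      have h8 : (π w)⁻¹ * (π κ * π w * (π κ)⁻¹) = π (w⁻¹ * (κ * w * κ⁻¹)) := by
        simp only [map_mul, map_inv]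
      rw [h8]
      refine hcomm _ ?_ ?_
      · have h9 : w⁻¹ * (κ * w * κ⁻¹) = (w⁻¹ * κ * (w⁻¹)⁻¹) * κ⁻¹ := by group
        rw [h9]
        exact N₀.mul_mem (hN₀n.conj_mem _ h3 _) (N₀.inv_mem h3)
      · rw [← h8]
        exact P'.mul_mem (P'.inv_mem hx) (hP'n.conj_mem _ hx _)
  have hκP : π κ ∈ P' := by
    refine fr_fitting hcopM.symm (Nat.pow_pos hp.pos) hM0 hsolQ hexpQ' ?_ hcen
    exact tw_krad_quot hcopM hexpM
  have hκ1 : π κ = 1 := by
    refine tw_one hcopqP ?_ (hP'pow _ hκP)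
    rw [← map_pow, hκ, map_one]
  rw [← tw_mem_krad_iff hcopM hexpM]
  rwa [hπ, QuotientGroup.mk'_apply, QuotientGroup.eq_one_iff] at hκ1

/-- **Theorem C, Step 3.**
Proof. `tw_adjoin` (`c := κ`, `w := y`, which commutes with `κ`; `κ ^ M = 1` as `q ∣ M`) gives a
finite solvable `T` with `κ, y ∈ T`, `¬ InO M T κ`. `InOP N (q ^ b) T y` and
`InOP N (q ^ b) T (y * κ)`, so `InOP N (q ^ b) T κ` (`InOP.mul`, `InOP.inv`). Apply `tw_C3a` in the
group `T` (`InOP.top_iff`, `InO.top_iff`; for `S : Subgroup T` use `S.map T.subtype`). -/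
theorem tw_C3 {G : Type} [Group G] {n p q a b M N : ℕ} (H : TwG n G) (hp : p.Prime)
    (hq : q.Prime) (hpq : p ≠ q) (hM : n = M * p ^ a) (hN : n = N * q ^ b) (hpM : ¬ p ∣ M)
    (hqN : ¬ q ∣ N) (hqM : q ∣ M) (hno : NoN M G) {y κ : G} (hy : GoodS N (q ^ b) y)
    (hyκG : GoodS N (q ^ b) (y * κ)) (hyq : y ^ q = 1) (hκ : κ ^ q = 1) (hκ1 : κ ≠ 1)
    (hyκ : y * κ = κ * y)
    (hA : ∀ S : Subgroup G, Finite S → (∀ x ∈ S, x ^ (p ^ a) = 1) → (∀ x ∈ S, y * x * y⁻¹ ∈ S) →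
      (∀ x ∈ S, κ * x * κ⁻¹ ∈ S) → ∀ x ∈ S, κ * x = x * κ) : False := by
  have hcopM : Nat.Coprime M (p ^ a) :=
    Nat.Coprime.pow_right a ((Nat.Prime.coprime_iff_not_dvd hp).2 hpM).symm
  have hcopN : Nat.Coprime N (q ^ b) :=
    Nat.Coprime.pow_right b ((Nat.Prime.coprime_iff_not_dvd hq).2 hqN).symm
  have hκM : κ ^ M = 1 := by
    obtain ⟨c, rfl⟩ := hqM
    rw [pow_mul, hκ, one_pow]
  obtain ⟨T, hTfin, hTsol, hκT, hyT, hTO⟩ := tw_adjoin H hM hcopM hno hκM hκ1 (w := y) (by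
    have h1 : y⁻¹ * κ * y = κ := by
      rw [mul_assoc, ← hyκ, inv_mul_cancel_left]
    rw [h1]
    exact mem_zpowers κ)
  apply hTO
  have h1 : InOP N (q ^ b) T y := hy.inOP T hTfin hTsol hyT
  have h2 : InOP N (q ^ b) T (y * κ) := hyκG.inOP T hTfin hTsol (T.mul_mem hyT hκT)
  have hexpN : ∀ x : G, x ^ (N * q ^ b) = 1 := fun x => by rw [← hN]; exact H.hexp x
  have h3 : InOP N (q ^ b) T κ := by
    have h4 := (h1.inv).mul hcopN hexpN h2
    rwa [inv_mul_cancel_left] at h4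
  have h5 : InO M (⊤ : Subgroup T) (⟨κ, hκT⟩ : T) := by
    refine tw_C3a (y := (⟨y, hyT⟩ : T)) (κ := (⟨κ, hκT⟩ : T)) H.pos hp hq hpq hM hN hpM hqN hTsol
      (fun x => Subtype.ext (by simpa using H.hexp (x : G))) (Subtype.ext (by simpa using hyq))
      (Subtype.ext (by simpa using hκ)) (Subtype.ext (by simpa using hyκ))
      ((InOP.top_iff (⟨κ, hκT⟩ : T)).2 h3) ?_
    intro S hS1 hS2 hS3 x hx
    have hfinS : Finite (S.map T.subtype) := by
      have : Finite S := inferInstance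
      exact Finite.of_surjective _ (T.subtype.subgroupMap_surjective S)
    have h6 := hA (S.map T.subtype) hfinS
      (by
        rintro _ ⟨w, hw, rfl⟩
        have := congrArg Subtype.val (hS1 w hw)
        simpa using this)
      (by
        rintro _ ⟨w, hw, rfl⟩
        exact ⟨_, hS2 w hw, rfl⟩)
      (by
        rintro _ ⟨w, hw, rfl⟩
        exact ⟨_, hS3 w hw, rfl⟩)
      (x : G) ⟨x, hx, rfl⟩
    exact Subtype.ext (by simpa using h6)
  exact (InO.top_iff (⟨κ, hκT⟩ : T)).1 h5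

end Pool.Agent.Lib.MP_544bd1_al
end

section

/-!
Two generators, part 2: Theorem C.
-/

namespace Pool.Agent.Lib.MP_544bd1_al

open Subgroup

theorem InO.comap {G G' : Type} [Group G] [Group G'] {m : ℕ} (f : G' →* G)
    (hf : Function.Injective f) {L : Subgroup G'} {s : G'} (h : InO m (L.map f) (f s)) :
    InO m L s := by
  obtain ⟨N, h1, h2, h3, h4⟩ := h
  refine ⟨N.comap f, ?_, h2, ?_, ?_⟩
  · intro x hx
    obtain ⟨y, hy, hyx⟩ := h1 hx
    rw [← hf hyx]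
    exact hy
  · intro t ht x hx
    rw [Subgroup.mem_comap, map_mul, map_mul, map_inv]
    exact h3 _ ⟨t, ht, rfl⟩ _ hx
  · intro x hx
    apply hf
    rw [map_pow, map_one]
    exact h4 _ hx

theorem InO.one {G : Type} [Group G] {m : ℕ} (T : Subgroup G) : InO m T 1 :=
  ⟨⊥, bot_le, one_mem _, fun t _ x hx => by rw [Subgroup.mem_bot] at hx ⊢; rw [hx]; group,
    fun x hx => by rw [Subgroup.mem_bot] at hx; rw [hx, one_pow]⟩

/-- changing the exponent of the inner part of `InOP` -/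
theorem InOP.change {F : Type} [Group F] {M P Q : ℕ} (hcop : Nat.Coprime M P)
    (hexp : ∀ x : F, x ^ (P * Q) = 1) {T : Subgroup F} {x : F} (h : InOP M P T x) :
    InOP Q P T x := by
  obtain ⟨N, K, h1, h2, h3, h4, h5, h6, h7⟩ := h
  refine ⟨N, K, h1, h2, h3, h4, h5, ?_, h7⟩
  intro k hk
  rw [← orderOf_dvd_iff_pow_eq_one]
  have e1 : orderOf k ∣ M := orderOf_dvd_of_pow_eq_one (h6 k hk)
  have e2 : orderOf k ∣ P * Q := orderOf_dvd_of_pow_eq_one (hexp k)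
  exact (Nat.Coprime.coprime_dvd_left e1 hcop).dvd_of_dvd_mul_left e2

/-- **Theorem C.** -/
theorem tw_C {G : Type} [Group G] {n p q a b M N : ℕ} (H : TwG n G) (hp : p.Prime)
    (hq : q.Prime) (hpq : p ≠ q) (hM : n = M * p ^ a) (hN : n = N * q ^ b) (hpM : ¬ p ∣ M)
    (hqN : ¬ q ∣ N) (hno : NoN M G) {z y : G} (hz : GoodS M (p ^ a) z)
    (hy : GoodS N (q ^ b) y) (hyq : y ^ q = 1) :
    InO N (closure {z, y}) (y⁻¹ * (z⁻¹ * y * z)) := by
  by_contra hne
  have hcopM : Nat.Coprime M (p ^ a) := ((Nat.Prime.coprime_iff_not_dvd hp).2 hpM).symm.pow_right a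
  have hcopN : Nat.Coprime N (q ^ b) := ((Nat.Prime.coprime_iff_not_dvd hq).2 hqN).symm.pow_right b
  have hb : 0 < b := by
    rw [Nat.pos_iff_ne_zero]
    intro h
    apply hne
    have h1 : y = 1 := by
      have := hy.1
      rwa [h, pow_zero, pow_one] at this
    have h2 : y⁻¹ * (z⁻¹ * y * z) = 1 := by rw [h1]; group
    rw [h2]
    exact InO.one _
  have hqM : q ∣ M := by
    have h1 : q ∣ M * p ^ a := by
      rw [← hM, hN]
      exact dvd_mul_of_dvd_right (dvd_pow_self q hb.ne') N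
    rcases (Nat.Prime.dvd_mul hq).1 h1 with h2 | h2
    · exact h2
    · exact absurd ((Nat.prime_dvd_prime_iff_eq hq hp).1 (hq.dvd_of_dvd_pow h2)).symm hpq
  obtain ⟨hfin, hsol⟩ := H.h2 z y
  -- the group generated by `z` and `y`
  have hzT : z ∈ closure {z, y} := subset_closure (by simp)
  have hyT : y ∈ closure {z, y} := subset_closure (by simp)
  let z₀ : closure {z, y} := ⟨z, hzT⟩
  let y₀ : closure {z, y} := ⟨y, hyT⟩
  have hgen : closure {z₀, y₀} = ⊤ := by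
    apply Subgroup.map_injective (closure {z, y}).subtype_injective
    rw [MonoidHom.map_closure, Set.image_pair, ← MonoidHom.range_eq_map, Subgroup.range_subtype]
    rfl
  have hzO : InOP M (p ^ a) (⊤ : Subgroup (closure {z, y})) z₀ :=
    (InOP.top_iff z₀).2 (hz.inOP _ hfin hsol hzT)
  have hyO : InOP N (q ^ b) (⊤ : Subgroup (closure {z, y})) y₀ :=
    (InOP.top_iff y₀).2 (hy.inOP _ hfin hsol hyT)
  have hne0 : ¬ InO N (⊤ : Subgroup (closure {z, y})) (y₀⁻¹ * (z₀⁻¹ * y₀ * z₀)) := by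
    intro h
    exact hne ((InO.top_iff _).1 h)
  obtain ⟨j, hj1, hj2⟩ := tw_C0 H.pos hp hq hpq hM hN hpM hqN hb (tw_exp_sub H.hexp _)
    (z := z₀) (y := y₀) (Subtype.ext (by simpa using hz.1)) (Subtype.ext (by simpa using hyq))
    hgen hzO hyO hne0
  -- pass to the conjugate of `z`
  set z' : G := (j : G)⁻¹ * z * j with hz'
  have hz'G : GoodS M (p ^ a) z' := hz.conj _
  obtain ⟨hfin1, hsol1⟩ := H.h2 z' y
  have hmap : (closure {j⁻¹ * z₀ * j, y₀}).map (closure {z, y}).subtype = closure {z', y} := by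
    rw [MonoidHom.map_closure, Set.image_pair]
    rfl
  have hexp1 : ∀ x ∈ closure {z', y}, x ^ (p ^ a * q ^ b) = 1 := by
    intro x hx
    rw [← hmap] at hx
    obtain ⟨x', hx', rfl⟩ := hx
    rw [← map_pow, hj1 x' hx', map_one]
  have hne1 : ¬ InO (p ^ a) (closure {z', y}) (y⁻¹ * (z'⁻¹ * y * z')) := by
    intro h
    apply hj2
    apply InO.comap (closure {z, y}).subtype (closure {z, y}).subtype_injective
    rw [hmap]
    exact h
  have hzT1 : z' ∈ closure {z', y} := subset_closure (by simp)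
  have hyT1 : y ∈ closure {z', y} := subset_closure (by simp)
  let z₁ : closure {z', y} := ⟨z', hzT1⟩
  let y₁ : closure {z', y} := ⟨y, hyT1⟩
  have hexpF : ∀ x : closure {z', y}, x ^ (p ^ a * q ^ b) = 1 := by
    intro x
    apply Subtype.ext
    rw [SubgroupClass.coe_pow, hexp1 x x.2]
    rfl
  have hzO1 : InOP (q ^ b) (p ^ a) (⊤ : Subgroup (closure {z', y})) z₁ :=
    ((InOP.top_iff z₁).2 (hz'G.inOP _ hfin1 hsol1 hzT1)).change hcopM hexpF
  have hyO1 : InOP (p ^ a) (q ^ b) (⊤ : Subgroup (closure {z', y})) y₁ :=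
    ((InOP.top_iff y₁).2 (hy.inOP _ hfin1 hsol1 hyT1)).change hcopN
      (fun x => by rw [mul_comm]; exact hexpF x)
  have hE : ∀ m : closure {z', y}, m ^ q = 1 → z₁⁻¹ * m * z₁ ∈ zpowers m →
      z₁ * m = m * z₁ := by
    intro m hm hmz
    apply Subtype.ext
    have h1 : z'⁻¹ * (m : G) * z' ∈ zpowers (m : G) := by
      obtain ⟨i, hi⟩ := hmz
      exact ⟨i, by simpa using congrArg Subtype.val hi⟩
    exact tw_E H hM hcopM hno hz'G hq hqM (by simpa using congrArg Subtype.val hm) h1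
  obtain ⟨κ, hκq, hκ1, hyκ, ⟨g, hg⟩, hNC⟩ := tw_C1 hp hq hpq hb hexpF
    (Subtype.ext (by simpa using hyq)) hzO1 hyO1 hE (by
      intro h
      exact hne1 ((InO.top_iff _).1 h))
  have hκqG : (κ : G) ^ q = 1 := by simpa using congrArg Subtype.val hκq
  have hyκG : y * (κ : G) = (κ : G) * y := congrArg Subtype.val hyκ
  have hgG : (g : G)⁻¹ * y * g = y * (κ : G) := congrArg Subtype.val hg
  have hgood : GoodS N (q ^ b) (y * (κ : G)) := by
    rw [← hgG]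
    exact hy.conj _
  have hNCG : ∀ j : ℕ, InNC (closure {z', y * (κ : G) ^ j}) z' (κ : G) := by
    intro i A hzA hA
    have h1 := hNC i (A.comap (closure {z', y}).subtype) hzA (by
      intro t ht x hx
      have h2 : (t : G) ∈ closure {z', y * (κ : G) ^ i} := by
        have h3 : (closure {z₁, y₁ * κ ^ i}).map (closure {z', y}).subtype =
            closure {z', y * (κ : G) ^ i} := by
          rw [MonoidHom.map_closure, Set.image_pair]
          rfl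
        rw [← h3]
        exact ⟨t, ht, rfl⟩
      exact hA _ h2 _ hx)
    exact h1
  exact tw_C3 H hp hq hpq hM hN hpM hqN hqM hno hy hgood hyq hκqG
    (fun h => hκ1 (Subtype.ext h)) hyκG
    (fun S hS h1 h2 h3 => tw_C2 H hp hq hpq hM hpM hqM hz'G hyq hκqG hyκG hNCG S h1 h2 h3)

end Pool.Agent.Lib.MP_544bd1_al
end
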