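import Mathlib
import Pool.Agent.Lib.MP_544bd1_al.TwS3
import Pool.Agent.Lib.MP_544bd1_al.EvM2
import Pool.Agent.Lib.MP_544bd1_al.TwA
import Pool.Agent.Lib.MP_544bd1_al.TwS2
import Pool.Agent.Lib.MP_544bd1_al.TwF4

section

/-!
Theorem G' (paper 275): subgroups containing O_{r',r}(F).
-/

namespace Pool.Agent.Lib.MP_544bd1_al

open Subgroup

variable {M r b c : ℕ} {F : Type} [Group F] [Finite F]

/-- **Subgroups `X ≥ O_{r',r}(F)`**: `O_{r',r}(X)` has an `r`-group as image in `F ⧸ O_{r',r}(F)`.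

Proof. Let `N₀, K₀` be given by `h`. `F₁ = F ⧸ krad M F`, `π₁ : F → F₁`, `B = krad (r ^ b) F₁`. The
image `K₁` of `K₀` in `F₁` is normalized by the image of `X`, which contains `B` (if `π₁ x ∈ B` then
`gp x = 1`, so `x ∈ X`); `K₁` has exponent `M`, `B` has exponent `r ^ b`, so
`x * y * x⁻¹ * y⁻¹ ∈ K₁ ⊓ B = ⊥` for `x ∈ K₁`, `y ∈ B`: `K₁` centralizes `B`, so `K₁ ≤ B` by
`fr_fitting` (FrB.lean; `k := r ^ b`, `l := M`, `krad M F₁ = ⊥` by `tw_krad_quot`), `K₁ = ⊥`. So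
`K₀ ≤ krad M F`, `gp k = 1` for `k ∈ K₀`. `N = N₀.map (gp ..)`. -/
theorem gp_sub (D : GpMin M r b c F) (X : Subgroup F) (hX : ∀ x, gp M (r ^ b) F x = 1 → x ∈ X)
    {y : F} (h : InOP M (r ^ b) X y) :
    ∃ N : Subgroup (GH M (r ^ b) F), (∀ t ∈ X, ∀ x ∈ N, gp M (r ^ b) F t * x *
      (gp M (r ^ b) F t)⁻¹ ∈ N) ∧ (∀ x ∈ N, x ^ (r ^ b) = 1) ∧ gp M (r ^ b) F y ∈ N := by
  obtain ⟨N₀, K₀, hKN, hNX, hyN, hN, hK, hKM, hNP⟩ := h
  have hcop := D.cop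
  have hexp := D.hexp
  have hexp1 : ∀ x : F ⧸ krad M F, x ^ (M * r ^ b) = 1 := tw_exp_quot hexp _
  have hP : 0 < r ^ b := pow_pos D.hr.pos b
  have hsol : Group.IsSolvable (F ⧸ krad M F) := by
    have := D.sol
    infer_instance
  -- elements of the image of `K₀` have order dividing `M`
  have hk1 : ∀ k ∈ K₀, (QuotientGroup.mk' (krad M F) k) ^ M = 1 := by
    intro k hk
    rw [← map_pow, hKM k hk, map_one]
  have hB : ∀ x ∈ krad (r ^ b) (F ⧸ krad M F), x ^ (r ^ b) = 1 :=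
    tw_krad_pow hcop.symm (tw_exp_comm hexp1)
  have hKB : ∀ k ∈ K₀, QuotientGroup.mk' (krad M F) k ∈ krad (r ^ b) (F ⧸ krad M F) := by
    intro k hk
    refine fr_fitting hcop.symm hP D.hM hsol (tw_exp_comm hexp1) (tw_krad_quot hcop hexp) ?_
    intro x hx
    obtain ⟨z, rfl⟩ := QuotientGroup.mk'_surjective _ x
    have hzX : z ∈ X := by
      apply hX
      exact (QuotientGroup.eq_one_iff _).2 hx
    have hzk : z * k⁻¹ * z⁻¹ ∈ K₀ := hK z hzX _ (inv_mem hk)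
    have hc0 : k * (z * k⁻¹ * z⁻¹) ∈ K₀ := mul_mem hk hzk
    have e : QuotientGroup.mk' (krad M F) (k * (z * k⁻¹ * z⁻¹)) =
        (QuotientGroup.mk' (krad M F) k * QuotientGroup.mk' (krad M F) z *
          (QuotientGroup.mk' (krad M F) k)⁻¹) * (QuotientGroup.mk' (krad M F) z)⁻¹ := by
      simp only [map_mul, map_inv]
      group
    have h1 : (QuotientGroup.mk' (krad M F) k * QuotientGroup.mk' (krad M F) z *
          (QuotientGroup.mk' (krad M F) k)⁻¹) * (QuotientGroup.mk' (krad M F) z)⁻¹ ∈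
          krad (r ^ b) (F ⧸ krad M F) :=
      mul_mem ((krad_normal _ _).conj_mem _ hx _) (inv_mem hx)
    have h2 := hB _ h1
    have h3 := hk1 _ hc0
    rw [e] at h3
    have h4 := tw_one hcop h3 h2
    rw [mul_inv_eq_one] at h4
    exact mul_inv_eq_iff_eq_mul.1 h4
  have hK1 : ∀ k ∈ K₀, QuotientGroup.mk' (krad M F) k = 1 := fun k hk =>
    tw_one hcop (hk1 k hk) (hB _ (hKB k hk))
  have hKg : ∀ k ∈ K₀, gp M (r ^ b) F k = 1 := by
    intro k hk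
    have : gp M (r ^ b) F k = QuotientGroup.mk' (krad (r ^ b) (F ⧸ krad M F))
      (QuotientGroup.mk' (krad M F) k) := rfl
    rw [this, hK1 k hk, map_one]
  refine ⟨N₀.map (gp M (r ^ b) F), ?_, ?_, ⟨y, hyN, rfl⟩⟩
  · rintro t ht _ ⟨n, hn, rfl⟩
    exact ⟨t * n * t⁻¹, hN t ht n hn, by simp only [map_mul, map_inv]⟩
  · rintro _ ⟨n, hn, rfl⟩
    rw [← map_pow]
    exact hKg _ (hNP n hn)

end Pool.Agent.Lib.MP_544bd1_al
end

section

/-!
Theorem G' (paper 275): covering subgroups.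
-/

namespace Pool.Agent.Lib.MP_544bd1_al

open Subgroup

variable {M r b c : ℕ} {F : Type} [Group F] [Finite F]

/-- **The covering lemma** (compare (1.2) of paper 275).

Proof. Write bars for `gp M (r ^ b) F`, `H = GH M (r ^ b) F`, `R₀ = krad M H` (normal, exponent `M`:
`tw_krad_pow`), `h₁ = h ^ (r ^ (c - 1))`. Suppose `Y ≠ ⊤`, `X = Y.comap (gp ..)`, `X ≠ ⊤`
(`gp_surj`), `h ∈ X`. `D.min X` gives `InOP M (r ^ b) X h₁`, and `gp_sub` gives `N` with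
`h₁¯ ∈ N`, exponent `r ^ b`, normalized by `Y` (every element of `Y` is `gp t`, `t ∈ X`). Let
`e = h¯⁻¹ * (g⁻¹ * h * g)¯ ∈ Y`; `e ∈ R₀` (`g¯ ∈ R₀`, `R₀` normal). For every `i` the conjugate
`e_i = h¯ ^ i * e * h¯ ^ (-i)` is in `Y ⊓ R₀`, and `[h₁¯, e_i] ∈ N ⊓ R₀ = ⊥`: `h₁¯` commutes with all
`e_i` (`i : ℤ`). Now `g¯⁻¹ * h₁¯ * g¯ = (h¯ * e) ^ (r ^ (c - 1)) = h₁¯ * e'`, where `e'` is a product of
elements `e_i` (`(h¯ * e) ^ k = h¯ ^ k * e_{-(k-1)} * ... * e_0`, induction), so `e'` commutes with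
`h₁¯`, `e' ∈ R₀`, and `1 = (h₁¯ * e') ^ (r ^ b) = e' ^ (r ^ b)` (`h₁ ^ (r ^ b) = 1`: `h ^ (r ^ c) = 1`).
So `e' = 1` (`tw_one`), so `h₁¯` commutes with `g¯`, contradicting `hne`. -/
theorem gp_cover (D : GpMin M r b c F) {h : F} (hB : GpB M r b c h) {g : F}
    (hg : gp M (r ^ b) F g ∈ krad M (GH M (r ^ b) F))
    (hne : gp M (r ^ b) F (h ^ (r ^ (c - 1)) * g) ≠ gp M (r ^ b) F (g * h ^ (r ^ (c - 1))))
    (Y : Subgroup (GH M (r ^ b) F)) (h1 : gp M (r ^ b) F h ∈ Y)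
    (h2 : gp M (r ^ b) F (g⁻¹ * h * g) ∈ Y) : Y = ⊤ := by
  by_contra hY
  set π : F →* GH M (r ^ b) F := gp M (r ^ b) F with hπ
  have hcop := D.cop
  have hRp := tw_krad_pow (F := GH M (r ^ b) F) hcop (gp_exp D.hexp)
  have hRn := krad_normal M (GH M (r ^ b) F)
  set R₀ : Subgroup (GH M (r ^ b) F) := krad M (GH M (r ^ b) F) with hR₀
  have hX : Y.comap π ≠ ⊤ := by
    intro hX
    apply hY
    rw [eq_top_iff]
    intro y _
    obtain ⟨x, rfl⟩ := gp_surj y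
    have : x ∈ Y.comap π := by rw [hX]; trivial
    exact this
  obtain ⟨N, hN1, hN2, hN3⟩ := gp_sub D (Y.comap π) (fun x hx => by
    rw [Subgroup.mem_comap]
    rw [show π x = 1 from hx]
    exact one_mem _) (D.min _ hX h h1 hB.1)
  set a : GH M (r ^ b) F := π (h ^ (r ^ (c - 1))) with ha
  have hYN : ∀ d ∈ Y, ∀ x ∈ N, d * x * d⁻¹ ∈ N := by
    intro d hd x hx
    obtain ⟨t, rfl⟩ := gp_surj d
    exact hN1 t hd x hx
  have hcomm : ∀ d ∈ Y ⊓ R₀, a * d = d * a := by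
    rintro d ⟨hdY, hdR⟩
    have h3 : a * (d * a⁻¹ * d⁻¹) ∈ N := mul_mem hN3 (hYN d hdY _ (inv_mem hN3))
    have h4 : (a * d * a⁻¹) * d⁻¹ ∈ R₀ := mul_mem (hRn.conj_mem _ hdR a) (inv_mem hdR)
    have h5 : a * (d * a⁻¹ * d⁻¹) = (a * d * a⁻¹) * d⁻¹ := by group
    rw [h5] at h3
    have h6 := tw_one hcop (hRp _ h4) (hN2 _ h3)
    rw [mul_inv_eq_one, mul_inv_eq_iff_eq_mul] at h6
    exact h6
  set e : GH M (r ^ b) F := (π h)⁻¹ * π (g⁻¹ * h * g) with he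
  have heY : e ∈ Y := mul_mem (inv_mem h1) h2
  have heR : e ∈ R₀ := by
    have h3 : e = ((π h)⁻¹ * (π g)⁻¹ * (π h)⁻¹⁻¹) * π g := by
      rw [he]; simp only [map_mul, map_inv]; group
    rw [h3]
    exact mul_mem (hRn.conj_mem _ (inv_mem hg) _) hg
  have hpow : ∀ k : ℕ, ∃ d ∈ Y ⊓ R₀, (π h * e) ^ k = π h ^ k * d := by
    intro k
    induction k with
    | zero => exact ⟨1, one_mem _, by simp⟩
    | succ k ih =>
      obtain ⟨d, hd, hk⟩ := ih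
      refine ⟨(π h)⁻¹ * d * π h * e, ⟨Y.mul_mem (Y.mul_mem (Y.mul_mem (Y.inv_mem h1) hd.1) h1) heY,
        R₀.mul_mem ?_ heR⟩, ?_⟩
      · have := hRn.conj_mem _ hd.2 (π h)⁻¹
        rwa [inv_inv] at this
      · rw [pow_succ, hk, pow_succ]
        group
  obtain ⟨d, hd, hk⟩ := hpow (r ^ (c - 1))
  have h3 : π h * e = (π g)⁻¹ * π h * (π g)⁻¹⁻¹ := by
    rw [he]; simp only [map_mul, map_inv]; group
  rw [h3, conj_pow, ← map_pow, ← ha] at hk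
  have h4 : (a * d) ^ (r ^ b) = 1 := by
    rw [← hk, conj_pow, hN2 _ hN3]
    group
  rw [(show Commute a d from hcomm d hd).mul_pow, hN2 _ hN3, one_mul] at h4
  have h5 : d = 1 := tw_one hcop (hRp _ hd.2) h4
  rw [h5, mul_one, mul_inv_eq_iff_eq_mul] at hk
  apply hne
  rw [map_mul, map_mul]
  change a * π g = π g * a
  have h6 := congrArg (fun z => π g * z * π g) hk
  simp only [← mul_assoc, mul_inv_cancel, one_mul] at h6
  rw [inv_mul_cancel_right] at h6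
  exact h6

end Pool.Agent.Lib.MP_544bd1_al
end

section

/-!
Even exponents, squares of Mersenne primes: exact lifting of the configuration.
-/

namespace Pool.Agent.Lib.MP_544bd1_al

open Subgroup

/-- the elements of the normalizer of a Sylow subgroup of the preimage of a normal `p`-subgroup
cover the quotient (see `fr_S1_frattini` for `p = 2`) -/
theorem ev_frattini {F H : Type} [Group F] [Finite F] [Group H] {p : ℕ} (hp : p.Prime)
    (f : F →* H) (hf : Function.Surjective f) (W : Subgroup H) [W.Normal] (hW : IsPGroup p W) :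
    ∃ P : Subgroup F, IsPGroup p P ∧ (∀ w ∈ W, ∃ p ∈ P, f p = w) ∧ (∀ p ∈ P, f p ∈ W) ∧
      ∀ h : H, ∃ n ∈ normalizer (P : Set F), f n = h := by
  have : Fact (Nat.Prime p) := ⟨hp⟩
  let fK : (W.comap f) →* W := f.subgroupComap W
  have hfK : Function.Surjective fK := f.subgroupComap_surjective_of_surjective W hf
  let S : Sylow p (W.comap f) := default
  let P : Subgroup F := (S : Subgroup (W.comap f)).map (W.comap f).subtype
  have hP2 : IsPGroup p P := S.isPGroup'.map _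
  have hcov : ∀ w ∈ W, ∃ p ∈ P, f p = w := by
    intro w hw
    have h1 : ((S.mapSurjective hfK : Sylow p W) : Subgroup W) = ⊤ := by
      have h2 : IsPGroup p (⊤ : Subgroup W) := hW.of_equiv Subgroup.topEquiv.symm
      exact ((S.mapSurjective hfK).is_maximal' h2 le_top).symm
    rw [Sylow.coe_mapSurjective] at h1
    have h3 : (⟨w, hw⟩ : W) ∈ (S : Subgroup (W.comap f)).map fK := by rw [h1]; trivial
    obtain ⟨s, hs, hs'⟩ := h3
    exact ⟨s, ⟨s, hs, rfl⟩, congrArg Subtype.val hs'⟩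
  refine ⟨P, hP2, hcov, ?_, ?_⟩
  · rintro _ ⟨s, _, rfl⟩
    exact s.2
  · intro h
    obtain ⟨g, rfl⟩ := hf h
    have h1 : normalizer (P : Set F) ⊔ W.comap f = ⊤ := Sylow.normalizer_sup_eq_top S
    have h2 : g ∈ normalizer (P : Set F) ⊔ W.comap f := by rw [h1]; trivial
    obtain ⟨n, hn, k, hk, rfl⟩ := Subgroup.mem_sup_of_normal_right.1 h2
    obtain ⟨p, hp, hpk⟩ := hcov (f k) hk
    exact ⟨n * p, (normalizer (P : Set F)).mul_mem hn (le_normalizer hp), by rw [map_mul, hpk, map_mul]⟩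

/-- lifting of an `r`-subgroup and of an element normalizing it, inside the normalizer of `P` -/
private theorem evc_lift {F H : Type} [Group F] [Finite F] [Group H] [Finite H] {r : ℕ}
    (hr : r.Prime) (f : F →* H) (P : Subgroup F)
    (hN : ∀ h : H, ∃ n ∈ normalizer (P : Set F), f n = h)
    (R : Subgroup H) (hR : IsPGroup r R) (c : H) (hc : ∀ y ∈ R, c * y * c⁻¹ ∈ R) :
    ∃ (R' : Subgroup F) (g₀ : F), IsPGroup r R' ∧ R' ≤ normalizer (P : Set F) ∧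
      g₀ ∈ normalizer (P : Set F) ∧ f g₀ = c ∧ g₀ ∈ normalizer (R' : Set F) ∧
      (∀ y ∈ R, ∃ y' ∈ R', f y' = y) ∧ ∀ y' ∈ R', f y' ∈ R := by
  have hcn : c ∈ normalizer (R : Set H) := mem_normalizer_fintype hc
  let H₂ : Subgroup H := R ⊔ zpowers c
  have hH₂ : H₂ ≤ normalizer (R : Set H) :=
    sup_le le_normalizer (zpowers_le.2 hcn)
  let F₂ : Subgroup F := normalizer (P : Set F) ⊓ H₂.comap f
  let g : F₂ →* H₂ := (f.comp F₂.subtype).codRestrict H₂ fun x => x.2.2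
  have hg : Function.Surjective g := by
    rintro ⟨h, hh⟩
    obtain ⟨n, hn, hnh⟩ := hN h
    exact ⟨⟨n, hn, by show f n ∈ H₂; rw [hnh]; exact hh⟩, Subtype.ext hnh⟩
  have hgc : ∀ x : F₂, ((g x : H₂) : H) = f x := fun x => rfl
  have hWn : (R.subgroupOf H₂).Normal := normal_subgroupOf_of_le_normalizer hH₂
  have hWp : IsPGroup r (R.subgroupOf H₂) := hR.comap_subtype
  obtain ⟨R₂, h1, h2, h3, h4⟩ := ev_frattini hr g hg (R.subgroupOf H₂) hWp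
  have hcm : c ∈ H₂ := (le_sup_right : zpowers c ≤ H₂) (mem_zpowers c)
  obtain ⟨g₀, hg₀, hg₀c⟩ := h4 ⟨c, hcm⟩
  refine ⟨R₂.map F₂.subtype, (g₀ : F), h1.map _, ?_, g₀.2.1, ?_, ?_, ?_, ?_⟩
  · rintro _ ⟨x, _, rfl⟩
    exact x.2.1
  · rw [← hgc, hg₀c]
  · rw [mem_normalizer_iff] at hg₀ ⊢
    intro y
    constructor
    · rintro ⟨x, hx, rfl⟩
      exact ⟨g₀ * x * g₀⁻¹, (hg₀ x).1 hx, rfl⟩
    · rintro ⟨x, hx, hxy⟩
      refine ⟨g₀⁻¹ * x * g₀, ?_, ?_⟩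
      · rw [SetLike.mem_coe, hg₀]
        have : g₀ * (g₀⁻¹ * x * g₀) * g₀⁻¹ = x := by group
        rw [this]
        exact hx
      · have e1 : F₂.subtype x = (x : F) := rfl
        rw [e1] at hxy
        show (g₀ : F)⁻¹ * (x : F) * (g₀ : F) = y
        rw [hxy]
        group
  · intro y hy
    have hyH : y ∈ H₂ := (le_sup_left : R ≤ H₂) hy
    obtain ⟨x, hx, hxy⟩ := h2 ⟨y, hyH⟩ hy
    exact ⟨x, ⟨x, hx, rfl⟩, by rw [← hgc, hxy]⟩
  · rintro _ ⟨x, hx, rfl⟩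
    exact h3 x hx

/-- **Configuration.** If `x = u ^ (2 ^ (a - 1)) ∉ O_{2',2}(F)` there are a 2-subgroup `P`, an
`r`-subgroup `R` (`r ∣ M` a prime) normalizing `P`, and a 2-element `w` normalizing `P` and `R`,
and `i ∈ R` inverted by `w ^ (2 ^ (a - 1))` which does not centralize `P`.

Proof. `hcop : Coprime M (2 ^ a)`. `F̄ = F ⧸ krad M F`, `f : F →* F̄`; `krad M F̄ = ⊥`
(`tw_krad_quot`). `P̄ = krad (2 ^ a) F̄`, `H = F̄ ⧸ P̄`, `π : F̄ →* H`; `krad (2 ^ a) H = ⊥`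
(`tw_krad_quot` for the pair `(2 ^ a, M)`). Let `x̄ = π (f x)`; `x̄ ≠ 1` (`tw_op_iff`: otherwise
`f x ∈ P̄`). `D = krad M H`: `x̄` does not centralize `D` (`fr_fitting`, `k = M`, `l = 2 ^ a`, as in
`tw_HHbot`). `tw_pick` (`p := 2`) for `π (f u)`, `x̄`: a prime `r ∣ M` and an `r`-subgroup
`R̄ ≤ D`, normalized by `π (f u)` and not centralized by `x̄`.
(1) `ev_frattini` for `f`, `W := P̄`, `p := 2`: a 2-subgroup `P` of `F` with `f P = P̄` and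
`N = normalizer P` is mapped onto `F̄` by `f`, so onto `H` by `π ∘ f`.
(2) Let `H₂ = R̄ ⊔ zpowers (π (f u))` (a subgroup of `H`, `R̄` is normal in it) and
`F₂ = {g : F | g ∈ N, π (f g) ∈ H₂}`; `g ↦ π (f g)` is a surjective homomorphism `F₂ →* H₂`.
`ev_frattini` with `p := r`, `W :=` (`R̄` as a subgroup of `H₂`): an `r`-subgroup `R` of `F₂`
(take its image in `F`) with `π (f R) = R̄` and `g₀ ∈ F₂` normalizing `R` with
`π (f g₀) = π (f u)`. Let `l ≡ 1 mod 2 ^ a`, `l ≡ 0 mod M` (`Nat.chineseRemainder`), `w = g₀ ^ l`: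
`w ^ (2 ^ a) = 1`, `π (f w) = (π (f u)) ^ l = π (f u)`; `w ∈ N` normalizes `P`, and normalizes `R`.
(3) Let `z = w ^ (2 ^ (a - 1))`, `π (f z) = x̄`, `z ^ 2 = 1` (here `0 < a`). There is `ρ ∈ R` with
`x̄ * π (f ρ) ≠ π (f ρ) * x̄`. Let `i = ρ⁻¹ * (z * ρ * z⁻¹) ∈ R`; `z * i * z⁻¹ = i⁻¹` and
`π (f i) ≠ 1`. If `i` centralized `P`, then `f i` would centralize `P̄ = krad (2 ^ a) F̄`, so
`f i ∈ P̄` (`fr_fitting`, `k = 2 ^ a`, `l = M`), `π (f i) = 1`, contradiction. -/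
theorem ev_config {F : Type} [Group F] [Finite F] {M a : ℕ} (hM : Odd M) (ha : 0 < a)
    (hsol : Group.IsSolvable F) (hexp : ∀ x : F, x ^ (M * 2 ^ a) = 1) {u : F}
    (hu : u ^ (2 ^ a) = 1) (h : ¬ InOP M (2 ^ a) (⊤ : Subgroup F) (u ^ (2 ^ (a - 1)))) :
    ∃ r : ℕ, r.Prime ∧ r ∣ M ∧ ∃ (P R : Subgroup F) (w : F), (∀ q ∈ P, q ^ (2 ^ a) = 1) ∧
      IsPGroup r R ∧ w ^ (2 ^ a) = 1 ∧ (∀ g ∈ R, w * g * w⁻¹ ∈ R) ∧
      (∀ q ∈ P, w * q * w⁻¹ ∈ P) ∧ (∀ g ∈ R, ∀ q ∈ P, g * q * g⁻¹ ∈ P) ∧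
      ∃ i ∈ R, w ^ (2 ^ (a - 1)) * i * (w ^ (2 ^ (a - 1)))⁻¹ = i⁻¹ ∧ ∃ q ∈ P, i * q ≠ q * i := by
  have hq0 : 0 < 2 ^ a := pow_pos two_pos a
  have hM0 : 0 < M := hM.pos
  have h2M : ¬ 2 ∣ M := fun hd => (Nat.not_even_iff_odd.2 hM) (even_iff_two_dvd.2 hd)
  have hcop : Nat.Coprime M (2 ^ a) :=
    Nat.Coprime.pow_right a ((Nat.Prime.coprime_iff_not_dvd Nat.prime_two).2 h2M).symm
  -- the first quotient
  have hexpF : ∀ x : F ⧸ krad M F, x ^ (M * 2 ^ a) = 1 := tw_exp_quot hexp _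
  have hexpF' := tw_exp_comm hexpF
  have hbotF : krad M (F ⧸ krad M F) = ⊥ := tw_krad_quot hcop hexp
  have hsolF : Group.IsSolvable (F ⧸ krad M F) :=
    Group.isSolvable_of_surjective (QuotientGroup.mk'_surjective (krad M F))
  have hnx : QuotientGroup.mk' (krad M F) (u ^ (2 ^ (a - 1))) ∉ krad (2 ^ a) (F ⧸ krad M F) :=
    fun h1 => h ((tw_op_iff hcop hexp).2 h1)
  set f : F →* F ⧸ krad M F := QuotientGroup.mk' (krad M F) with hf
  have hfs : Function.Surjective f := QuotientGroup.mk'_surjective (krad M F)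
  have hPpow := tw_krad_pow hcop.symm hexpF'
  have hPg : IsPGroup 2 (krad (2 ^ a) (F ⧸ krad M F)) := by
    intro x
    exact ⟨a, Subtype.ext (by simpa using hPpow x x.2)⟩
  -- the second quotient
  set Pb : Subgroup (F ⧸ krad M F) := krad (2 ^ a) (F ⧸ krad M F) with hPb
  have hPbn : Pb.Normal := krad_normal _ _
  have hexpH : ∀ x : (F ⧸ krad M F) ⧸ Pb, x ^ (M * 2 ^ a) = 1 := tw_exp_quot hexpF _
  have hbotH : krad (2 ^ a) ((F ⧸ krad M F) ⧸ Pb) = ⊥ := tw_krad_quot hcop.symm hexpF'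
  have hsolH : Group.IsSolvable ((F ⧸ krad M F) ⧸ Pb) :=
    Group.isSolvable_of_surjective (QuotientGroup.mk'_surjective Pb)
  set π : (F ⧸ krad M F) →* (F ⧸ krad M F) ⧸ Pb := QuotientGroup.mk' Pb with hπ
  have hπs : Function.Surjective π := QuotientGroup.mk'_surjective Pb
  have hπ1 : ∀ g : F ⧸ krad M F, π g = 1 ↔ g ∈ Pb := by
    intro g
    rw [hπ, QuotientGroup.mk'_apply, QuotientGroup.eq_one_iff]
  have hDpow := tw_krad_pow hcop hexpH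
  have hzq : (u ^ (2 ^ (a - 1))) ^ (2 ^ a) = 1 := by
    rw [← pow_mul, mul_comm, pow_mul, hu, one_pow]
  have hne : ∃ x ∈ krad M ((F ⧸ krad M F) ⧸ Pb), π (f (u ^ (2 ^ (a - 1)))) * x ≠
      x * π (f (u ^ (2 ^ (a - 1)))) := by
    by_contra hcon
    push Not at hcon
    have h1 := fr_fitting hcop hM0 hq0 hsolH hexpH hbotH hcon
    have h2 : π (f (u ^ (2 ^ (a - 1)))) = 1 := by
      refine tw_one hcop (hDpow _ h1) ?_
      rw [← map_pow, ← map_pow, hzq, map_one, map_one]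
    exact hnx ((hπ1 _).1 h2)
  have hπu : (π (f u)) ^ (2 ^ a) = 1 := by rw [← map_pow, ← map_pow, hu, map_one, map_one]
  obtain ⟨r, hr, hrM, Rb, hRD, hRr, hRu, y, hyR, hyz⟩ := tw_pick Nat.prime_two h2M
    (krad M ((F ⧸ krad M F) ⧸ Pb)) hDpow hπu
    (fun y hy => (krad_normal M _).conj_mem y hy (π (f u))) hne
  -- (1)
  obtain ⟨P, hP2, hPcov, hPin, hN⟩ := ev_frattini Nat.prime_two f hfs Pb hPg
  have hPpow2 : ∀ q ∈ P, q ^ (2 ^ a) = 1 := by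
    intro q hq
    obtain ⟨k, hk⟩ := hP2 ⟨q, hq⟩
    have hk' : q ^ 2 ^ k = 1 := by
      have := congrArg Subtype.val hk
      simpa using this
    have hcop2 : Nat.Coprime M (2 ^ k) :=
      Nat.Coprime.pow_right k ((Nat.Prime.coprime_iff_not_dvd Nat.prime_two).2 h2M).symm
    refine tw_one hcop2 ?_ ?_
    · rw [← pow_mul, mul_comm]
      exact hexp q
    · rw [← pow_mul, mul_comm, pow_mul, hk', one_pow]
  -- (2)
  have hNH : ∀ h : (F ⧸ krad M F) ⧸ Pb, ∃ n ∈ normalizer (P : Set F), (π.comp f) n = h := by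
    intro h
    obtain ⟨g, rfl⟩ := hπs h
    obtain ⟨n, hn, hng⟩ := hN g
    exact ⟨n, hn, by rw [MonoidHom.comp_apply, hng]⟩
  obtain ⟨R, g₀, hR1, hR2, hg1, hg2, hg3, hR3, hR4⟩ :=
    evc_lift hr (π.comp f) P hNH Rb hRr (π (f u)) hRu
  obtain ⟨l, hl1, hl2⟩ := Nat.chineseRemainder hcop 0 1
  have hlM : M ∣ l := (Nat.modEq_zero_iff_dvd).1 hl1
  have hw : (g₀ ^ l) ^ (2 ^ a) = 1 := by
    obtain ⟨c, hc⟩ := hlM
    have e1 : l * 2 ^ a = (M * 2 ^ a) * c := by rw [hc]; ring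
    rw [← pow_mul, e1, pow_mul, hexp, one_pow]
  have hπw : π (f (g₀ ^ l)) = π (f u) := by
    have h1 : π (f (g₀ ^ l)) = (π (f u)) ^ l := by
      rw [map_pow, map_pow]
      exact congrArg (· ^ l) hg2
    rw [h1]
    have h2 : (π (f u)) ^ l = (π (f u)) ^ 1 := by
      rw [pow_eq_pow_iff_modEq]
      exact hl2.of_dvd (orderOf_dvd_of_pow_eq_one hπu)
    rw [h2, pow_one]
  have hwP : g₀ ^ l ∈ normalizer (P : Set F) := Subgroup.pow_mem _ hg1 l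
  have hwR : g₀ ^ l ∈ normalizer (R : Set F) := Subgroup.pow_mem _ hg3 l
  generalize g₀ ^ l = w at hw hπw hwP hwR
  -- (3)
  obtain ⟨z, hzw⟩ : ∃ z, w ^ (2 ^ (a - 1)) = z := ⟨_, rfl⟩
  have hzR : w ^ (2 ^ (a - 1)) ∈ normalizer (R : Set F) := Subgroup.pow_mem _ hwR _
  have hπz : π (f (w ^ (2 ^ (a - 1)))) = π (f (u ^ (2 ^ (a - 1)))) := by
    rw [map_pow, map_pow, hπw, map_pow, map_pow]
  have hz2 : w ^ (2 ^ (a - 1)) * w ^ (2 ^ (a - 1)) = 1 := by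
    rw [← pow_add, ← two_mul, ← pow_succ', Nat.sub_add_cancel ha]
    exact hw
  rw [hzw] at hzR hπz hz2
  obtain ⟨ρ, hρR, hρy⟩ := hR3 y hyR
  have hiR : ρ⁻¹ * (z * ρ * z⁻¹) ∈ R :=
    R.mul_mem (R.inv_mem hρR) ((mem_normalizer_iff.1 hzR ρ).1 hρR)
  refine ⟨r, hr, hrM, P, R, w, hPpow2, hR1, hw, fun g hg => (mem_normalizer_iff.1 hwR g).1 hg,
    fun q hq => (mem_normalizer_iff.1 hwP q).1 hq,
    fun g hg q hq => (mem_normalizer_iff.1 (hR2 hg) q).1 hq, ρ⁻¹ * (z * ρ * z⁻¹), hiR, ?_, ?_⟩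
  · have hzi : z⁻¹ = z := inv_eq_of_mul_eq_one_left hz2
    rw [hzw, hzi]
    have e1 : z * (ρ⁻¹ * (z * ρ * z)) * z = z * ρ⁻¹ * z * ρ * (z * z) := by group
    rw [e1, hz2, mul_one]
    have e2 : (ρ⁻¹ * (z * ρ * z))⁻¹ = z⁻¹ * ρ⁻¹ * z⁻¹ * ρ := by group
    rw [e2, hzi]
  · by_contra hcon
    push Not at hcon
    have h1 : ∀ x ∈ krad (2 ^ a) (F ⧸ krad M F), f (ρ⁻¹ * (z * ρ * z⁻¹)) * x =
        x * f (ρ⁻¹ * (z * ρ * z⁻¹)) := by
      intro x hx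
      obtain ⟨q, hq, rfl⟩ := hPcov x hx
      rw [← map_mul, ← map_mul, hcon q hq]
    have h2 := fr_fitting hcop.symm hq0 hM0 hsolF hexpF' hbotF h1
    have h3 : π (f (ρ⁻¹ * (z * ρ * z⁻¹))) = 1 := (hπ1 _).2 h2
    have h4 : π (f ρ) = y := hρy
    rw [map_mul, map_mul, map_mul, map_mul, map_mul, map_mul, map_inv, map_inv, map_inv, map_inv,
      h4, hπz] at h3
    apply hyz
    rw [inv_mul_eq_one] at h3
    rw [eq_mul_inv_iff_mul_eq] at h3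
    exact h3.symm

end Pool.Agent.Lib.MP_544bd1_al
end

section

/-!
Even exponents, squares of Mersenne primes: the module of a minimal configuration.
-/

namespace Pool.Agent.Lib.MP_544bd1_al

open Subgroup

/-- an element of odd order inverted by an involution acts trivially if it is centralized
(auxiliary): if `g ∈ R`, `R` an `r`-group (`r` odd) and `g` commutes with
`q⁻¹ * (g * q * g⁻¹)` for all `q ∈ Q`, then `g` centralizes `Q`.

Proof. `tw_coprime_trivial` (TwS3.lean) with `P := Q`, `P' := 2 ^ a`, `M := r ^ k` where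
`g ^ (r ^ k) = 1`. -/
theorem ev_coprime {F : Type} [Group F] {r a : ℕ} (hr : r.Prime) (hr2 : r ≠ 2) (Q R : Subgroup F)
    (hQ : ∀ q ∈ Q, q ^ (2 ^ a) = 1) (hR : IsPGroup r R) {g : F} (hg : g ∈ R)
    (hgQ : ∀ q ∈ Q, g * q * g⁻¹ ∈ Q)
    (h : ∀ q ∈ Q, g * (q⁻¹ * (g * q * g⁻¹)) = (q⁻¹ * (g * q * g⁻¹)) * g) :
    ∀ q ∈ Q, g * q = q * g := by
  obtain ⟨k, hk⟩ := hR ⟨g, hg⟩
  have hgk : g ^ (r ^ k) = 1 := by
    have h1 := congrArg Subtype.val hk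
    simpa using h1
  have hcop : Nat.Coprime (r ^ k) (2 ^ a) :=
    Nat.Coprime.pow _ _ ((Nat.coprime_primes hr Nat.prime_two).2 hr2)
  exact tw_coprime_trivial hcop Q hQ hgk hgQ h

/-- **The module** `V = Q ⧸ frattini Q`; the elements of the kernel `Z` of `φ : Q → V` are
centralized by `R` and by `Q`.

Proof. `tw_module` for `P := Q`, `p := 2` (`IsPGroup 2 Q` from `hQ`) gives `V, ρ, φ`; everything
except the kernel statement is in `tw_module` (for `g ∈ R` choose `k` with `g ^ (r ^ k) = 1`).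
Let `Z = {q ∈ Q | φ q = 0}`, a subgroup of `F` (`φ 1 = 0`, `φ` additive), normalized by all of `F`
(`φ (g q g⁻¹) = ρ g (φ q)`). `Z ≠ Q`: otherwise `V = 0` (φ surjective), so `ρ g = 1` for all `g`,
so `R` centralizes `Q`, contradiction to `D.ne`. By `D.min` `R` centralizes `Z`.
Let `C = {q ∈ Q | ∀ z ∈ Z, q * z = z * q}`, a subgroup, normalized by all of `F` (because `Q` and
`Z` are). Suppose `C ≠ Q`; then `R` centralizes `C` (`D.min`). For `g ∈ R`, `q ∈ Q`, `z ∈ Z`: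
`q⁻¹ * (g * q * g⁻¹)` commutes with `z`: `g * q * g⁻¹` acts on `z` by conjugation as
`g * (q * (g⁻¹ * z * g) * q⁻¹) * g⁻¹ = g * (q * z * q⁻¹) * g⁻¹ = q * z * q⁻¹` since `g` centralizes
`Z ∋ z, q * z * q⁻¹`. So `q⁻¹ * (g * q * g⁻¹) ∈ C` is centralized by `g`, and `ev_coprime` gives
that `g` centralizes `Q`, for all `g ∈ R`: contradiction to `D.ne`. So `C = Q`. -/
theorem ev_module {F : Type} [Group F] [Finite F] {r a : ℕ} (hr : r.Prime) (hr2 : r ≠ 2)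
    (Q R : Subgroup F) [hQn : Q.Normal] {u : F} (D : EvMin r a Q R u) :
    ∃ (V : Type) (_ : AddCommGroup V) (_ : Module (ZMod 2) V) (_ : Finite V)
      (ρ : F →* Module.End (ZMod 2) V) (φ : Q → V), Function.Surjective φ ∧
      (∀ x y, φ (x * y) = φ x + φ y) ∧
      (∀ (g : F) (x : Q), φ ⟨g * x * g⁻¹, hQn.conj_mem _ x.2 g⟩ = ρ g (φ x)) ∧
      (∀ g ∈ R, ρ g = 1 → ∀ q ∈ Q, g * q = q * g) ∧
      (∀ q : Q, φ q = 0 → (∀ g ∈ R, g * (q : F) = q * g) ∧ ∀ y ∈ Q, (q : F) * y = y * q) := by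
  have hQ2 : IsPGroup 2 Q := fun q => ⟨a, Subtype.ext (by simpa using D.hQ q q.2)⟩
  obtain ⟨V, iA, iM, iF, ρ, φ, hs, ha, hρ, hρQ, htriv⟩ := tw_module Nat.prime_two Q hQ2
  have htr : ∀ g ∈ R, ρ g = 1 → ∀ q ∈ Q, g * q = q * g := by
    intro g hg h1
    obtain ⟨k, hk⟩ := D.hR ⟨g, hg⟩
    have hgk : g ^ (r ^ k) = 1 := by
      have h1 := congrArg Subtype.val hk
      simpa using h1
    exact htriv r k g hr hr2 hgk h1
  refine ⟨V, iA, iM, iF, ρ, φ, hs, ha, hρ, htr, ?_⟩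
  have hφ1 : φ 1 = 0 := by
    have h1 := ha 1 1
    rw [mul_one] at h1
    exact (left_eq_add.1 h1)
  have hφi : ∀ q : Q, φ q = 0 → φ q⁻¹ = 0 := by
    intro q hq
    have h1 := ha q q⁻¹
    rw [mul_inv_cancel, hφ1, hq, zero_add] at h1
    exact h1.symm
  let Z : Subgroup F :=
    { carrier := {q | ∃ h : q ∈ Q, φ ⟨q, h⟩ = 0}
      mul_mem' := by
        rintro x y ⟨hx, hx0⟩ ⟨hy, hy0⟩
        refine ⟨Q.mul_mem hx hy, ?_⟩
        have h1 := ha ⟨x, hx⟩ ⟨y, hy⟩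
        rw [hx0, hy0, add_zero] at h1
        exact h1
      one_mem' := ⟨Q.one_mem, hφ1⟩
      inv_mem' := by
        rintro x ⟨hx, hx0⟩
        exact ⟨Q.inv_mem hx, hφi ⟨x, hx⟩ hx0⟩ }
  have hZmem : ∀ q, q ∈ Z ↔ ∃ h : q ∈ Q, φ ⟨q, h⟩ = 0 := fun q => Iff.rfl
  have hZQ : Z ≤ Q := fun q hq => hq.1
  have hZc : ∀ g : F, ∀ q ∈ Z, g * q * g⁻¹ ∈ Z := by
    rintro g q ⟨hq, hq0⟩
    refine ⟨hQn.conj_mem q hq g, ?_⟩
    have h1 := hρ g ⟨q, hq⟩
    rw [hq0, map_zero] at h1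
    exact h1
  have hZne : Z ≠ Q := by
    intro he
    obtain ⟨g, hg, q, hq, hne⟩ := D.ne
    refine hne (htr g hg ?_ q hq)
    have h0 : ∀ v : V, v = 0 := by
      intro v
      obtain ⟨x, rfl⟩ := hs v
      have hx : (x : F) ∈ Z := by rw [he]; exact x.2
      obtain ⟨h1, h2⟩ := hx
      exact h2
    refine LinearMap.ext fun v => ?_
    rw [h0 v, map_zero, map_zero]
  have hRZ : ∀ g ∈ R, ∀ q ∈ Z, g * q = q * g :=
    D.min Z hZQ hZne (fun g _ q hq => hZc g q hq) (fun q hq => hZc u q hq)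
  let C : Subgroup F := Q ⊓ centralizer (Z : Set F)
  have hCmem : ∀ q, q ∈ C ↔ q ∈ Q ∧ ∀ z ∈ Z, z * q = q * z := by
    intro q
    exact Iff.rfl
  have hCQ : C ≤ Q := inf_le_left
  have hCc : ∀ g : F, ∀ q ∈ C, g * q * g⁻¹ ∈ C := by
    intro g q hq
    rw [hCmem] at hq ⊢
    refine ⟨hQn.conj_mem q hq.1 g, fun z hz => ?_⟩
    have h1 := hq.2 _ (hZc g⁻¹ z hz)
    rw [inv_inv] at h1
    calc z * (g * q * g⁻¹) = g * ((g⁻¹ * z * g) * q) * g⁻¹ := by group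
      _ = g * (q * (g⁻¹ * z * g)) * g⁻¹ := by rw [h1]
      _ = g * q * g⁻¹ * z := by group
  have hCeq : C = Q := by
    by_contra hne
    have hRC := D.min C hCQ hne (fun g _ q hq => hCc g q hq) (fun q hq => hCc u q hq)
    obtain ⟨g, hg, q, hq, hne'⟩ := D.ne
    refine hne' (ev_coprime hr hr2 Q R D.hQ D.hR hg (fun q hq => hQn.conj_mem q hq g) ?_ q hq)
    intro q hq
    refine hRC g hg _ ?_
    rw [hCmem]
    refine ⟨Q.mul_mem (Q.inv_mem hq) (hQn.conj_mem q hq g), fun z hz => ?_⟩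
    have e1 : g * z = z * g := hRZ g hg z hz
    have e2 : g * (q * z * q⁻¹) = q * z * q⁻¹ * g := hRZ g hg _ (hZc q z hz)
    have e3 : g⁻¹ * z = z * g⁻¹ := by
      calc g⁻¹ * z = g⁻¹ * (z * g) * g⁻¹ := by group
        _ = g⁻¹ * (g * z) * g⁻¹ := by rw [e1]
        _ = z * g⁻¹ := by group
    symm
    calc q⁻¹ * (g * q * g⁻¹) * z = q⁻¹ * g * q * (g⁻¹ * z) := by group
      _ = q⁻¹ * g * q * (z * g⁻¹) := by rw [e3]
      _ = q⁻¹ * (g * (q * z * q⁻¹)) * q * g⁻¹ := by group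
      _ = q⁻¹ * (q * z * q⁻¹ * g) * q * g⁻¹ := by rw [e2]
      _ = z * (q⁻¹ * (g * q * g⁻¹)) := by group
  intro q hq
  have hqZ : (q : F) ∈ Z := ⟨q.2, hq⟩
  refine ⟨fun g hg => hRZ g hg q hqZ, fun y hy => ?_⟩
  have hyC : y ∈ C := by rw [hCeq]; exact hy
  exact ((hCmem y).1 hyC).2 q hqZ

end Pool.Agent.Lib.MP_544bd1_al
end

section

/-!
Theorem G' (paper 275): (R1) with an adjoined element.
-/

namespace Pool.Agent.Lib.MP_544bd1_al

open Subgroup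

/-- (R1) with a commuting adjoined element, in explicit form.

Proof. As `tw_adjoin` (TwB2.lean): by `tw_R1` and `tw_J` there is `k` with
`k ∈ closure {c, k⁻¹ * c * k}` and `¬ InO M (closure {c, k⁻¹ * c * k}) c`. Let `c, w * k ∈ T`. Then
`(w * k)⁻¹ * c * (w * k) = k⁻¹ * c * k ∈ T` (`w` commutes with `c`), so
`closure {c, k⁻¹ * c * k} ≤ T`, `k ∈ T`, `w ∈ T`; `¬ InO M T c` by `InO.mono`. -/
theorem gp_adjoin {G : Type} [Group G] {n M P : ℕ} (H : TwG n G) (hn : n = M * P)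
    (hcop : Nat.Coprime M P) (hno : NoN M G) {c w : G} (hc : c ^ M = 1) (hc1 : c ≠ 1)
    (hw : c * w = w * c) :
    ∃ k : G, ∀ T : Subgroup G, c ∈ T → w * k ∈ T → w ∈ T ∧ k ∈ T ∧ ¬ InO M T c := by
  have hexp : ∀ x : G, x ^ (M * P) = 1 := by
    intro x; rw [← hn]; exact H.hexp x
  have hMP : 0 < M * P := by rw [← hn]; exact H.pos
  have hM : 0 < M := Nat.pos_of_mul_pos_right hMP
  have hP : 0 < P := Nat.pos_of_mul_pos_left hMP
  obtain ⟨g, hg⟩ := tw_R1 H hn hcop hno hc hc1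
  have hfin := (H.h2 c g).1
  obtain ⟨k, _, hk, hk2⟩ := tw_J hcop hM hP hexp (closure {c, g}) (H.h2 c g).2
    (subset_closure (by simp)) hc hg
  refine ⟨k, fun T hcT hwkT => ?_⟩
  have h1 : k⁻¹ * c * k ∈ T := by
    have h2 : (w * k)⁻¹ * c * (w * k) = k⁻¹ * c * k := by
      have h3 : (w * k)⁻¹ * c * (w * k) = k⁻¹ * (w⁻¹ * (c * w)) * k := by group
      rw [h3, hw, inv_mul_cancel_left]
    rw [← h2]
    exact T.mul_mem (T.mul_mem (T.inv_mem hwkT) hcT) hwkT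
  have hle : closure {c, k⁻¹ * c * k} ≤ T := by
    rw [Subgroup.closure_le]
    rintro w (rfl | rfl)
    · exact hcT
    · exact h1
  have hkT : k ∈ T := hle hk
  have hwT : w ∈ T := by
    have := T.mul_mem hwkT (T.inv_mem hkT)
    rwa [mul_inv_cancel_right] at this
  exact ⟨hwT, hkT, fun h3 => hk2 (h3.mono hle (subset_closure (by simp)))⟩

end Pool.Agent.Lib.MP_544bd1_al
end

section

/-!
Theorem G' (paper 275): M-elements, and covering subgroups.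
-/

namespace Pool.Agent.Lib.MP_544bd1_al

open Subgroup

variable {M r b c : ℕ} {F : Type} [Group F] [Finite F]

omit [Finite F] in
private theorem gp_ox_h (D : GpMin M r b c F) {h : F} (hB : GpB M r b c h) :
    (gp M (r ^ b) F h) ^ (r ^ b) = 1 := by
  have h2 : h ^ (r ^ b) = 1 := by
    obtain ⟨q, hq⟩ : r ^ c ∣ r ^ b := pow_dvd_pow _ D.hcb
    rw [hq, pow_mul, hB.1, one_pow]
  rw [← map_pow, h2, map_one]

private theorem gp_ox_pow {H : Type} [Group H] {B : Subgroup H} (hBn : B.Normal) {ρ y z : H}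
    {k : ℕ} {j : ℤ} (hρ : ρ ∈ B) (hz : z ^ k = 1) (hj : y = ρ * z ^ j) : y ^ k ∈ B := by
  have h1 : QuotientGroup.mk' B (y ^ k) = 1 := by
    have h2 : QuotientGroup.mk' B ρ = 1 := (QuotientGroup.eq_one_iff ρ).2 hρ
    rw [hj, map_pow, map_mul, h2, one_mul, ← map_pow, ← zpow_natCast, ← zpow_mul, mul_comm,
      zpow_mul, zpow_natCast, hz, one_zpow, map_one]
  exact (QuotientGroup.eq_one_iff _).1 h1

/-- if `B` is normal and contains an element not commuting with `h₁`, in `R₀`, then `B` and `h` generate -/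
private theorem gp_ox_aux (D : GpMin M r b c F) {h : F} (hB : GpB M r b c h) {g : F}
    (hgR : gp M (r ^ b) F g ∈ krad M (GH M (r ^ b) F))
    (hne : gp M (r ^ b) F (h ^ (r ^ (c - 1)) * g) ≠ gp M (r ^ b) F (g * h ^ (r ^ (c - 1))))
    {B : Subgroup (GH M (r ^ b) F)} (hBn : B.Normal) (hg : gp M (r ^ b) F g ∈ B) :
    ∀ y : GH M (r ^ b) F, ∃ ρ ∈ B, ∃ j : ℤ, y = ρ * (gp M (r ^ b) F h) ^ j := by
  have hY : B ⊔ zpowers (gp M (r ^ b) F h) = ⊤ := by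
    apply gp_cover D hB hgR hne
    · exact mem_sup_right (mem_zpowers _)
    · have e : gp M (r ^ b) F (g⁻¹ * h * g) = ((gp M (r ^ b) F g)⁻¹ *
          (gp M (r ^ b) F h * gp M (r ^ b) F g * (gp M (r ^ b) F h)⁻¹)) * gp M (r ^ b) F h := by
        rw [map_mul, map_mul, map_inv]
        group
      rw [e]
      exact mul_mem (mem_sup_left (mul_mem (inv_mem hg) (hBn.conj_mem _ hg _)))
        (mem_sup_right (mem_zpowers _))
  intro y
  have h1 : y ∈ B ⊔ zpowers (gp M (r ^ b) F h) := by rw [hY]; trivial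
  rw [mem_sup_of_normal_left] at h1
  obtain ⟨ρ, hρ, z, ⟨j, hz⟩, hy⟩ := h1
  exact ⟨ρ, hρ, j, by rw [← hy, ← hz]⟩

/-- **`F` modulo `O_{r',r}(F)` is generated by `R₀ = krad M` and `h`; in particular all `M`-elements
map into `R₀`.**

Proof. `H = GH ..`. Let `Y = {ρ * (gp h) ^ i | ρ ∈ krad M H, i : ℤ} = krad M H ⊔ zpowers (gp h)`
(`krad M H` is normal). With `g` from `gp_g0`: `gp (g⁻¹ * h * g) = (gp h) * ((gp h)⁻¹ * (gp g)⁻¹ * gp h) * gp g`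
`∈ Y`, so `Y = ⊤` by `gp_cover`. So every `x` in `H` is `ρ * (gp h) ^ i`. (`i` may be taken in `ℕ`
since `h ^ (r ^ c) = 1`.) If `x ^ M = 1` (`x : F`): `gp x = ρ * (gp h) ^ i`, so
`(gp x) ^ (r ^ b) ∈ krad M H` (mod the normal subgroup `krad M H`: `(gp h) ^ (i * r ^ b) = 1`, as
`h ^ (r ^ c) = 1`, `c ≤ b`), and `gp x ∈ krad M H` by `tw_mem_of_pow`. -/
theorem gp_M (D : GpMin M r b c F) {h : F} (hB : GpB M r b c h) :
    (∀ x : F, ∃ i : ℕ, gp M (r ^ b) F (x * h ^ i) ∈ krad M (GH M (r ^ b) F)) ∧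
      ∀ x : F, x ^ M = 1 → gp M (r ^ b) F x ∈ krad M (GH M (r ^ b) F) := by
  have hcop := D.cop
  obtain ⟨g, hgM, hgR, hgne⟩ := gp_g0 D hB
  have hRn := krad_normal M (GH M (r ^ b) F)
  have hex := gp_ox_aux D hB hgR hgne hRn hgR
  have hq : ∀ x : F, ∃ j : ℤ, gp M (r ^ b) F x * (gp M (r ^ b) F h) ^ j ∈
      krad M (GH M (r ^ b) F) := by
    intro x
    obtain ⟨ρ, hρ, j, hj⟩ := hex (gp M (r ^ b) F x)
    refine ⟨-j, ?_⟩
    rw [hj, mul_assoc, ← zpow_add, add_neg_cancel, zpow_zero, mul_one]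
    exact hρ
  constructor
  · intro x
    obtain ⟨j, hj⟩ := hq x
    obtain ⟨i, hi⟩ : (gp M (r ^ b) F h) ^ j ∈ Submonoid.powers (gp M (r ^ b) F h) :=
      mem_powers_iff_mem_zpowers.2 ⟨j, rfl⟩
    refine ⟨i, ?_⟩
    rw [map_mul, map_pow]
    have hi' : (gp M (r ^ b) F h) ^ i = (gp M (r ^ b) F h) ^ j := hi
    rw [hi']
    exact hj
  · intro x hx
    obtain ⟨ρ, hρ, j, hj⟩ := hex (gp M (r ^ b) F x)
    apply tw_mem_of_pow hcop
    · rw [← map_pow, hx, map_one]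
    · exact gp_ox_pow hRn hρ (gp_ox_h D hB) hj

/-- **(1.3) of paper 275**: proper covering subgroups.

Proof. Bars for `gp`, `H = GH ..`, `R₀ = krad M H`, `h₁ = h ^ (r ^ (c - 1))`. `D.min X`:
`InOP M (r ^ b) X h₁`; let `N, K` be given by it, `S := K`. The images `A` of `N` and `B` of `K` in
`H` are normal subgroups of `H` (normalized by the image of `X`, which is `H` by `hcov`), `B` has
exponent `M` so `B ≤ R₀` (`le_krad`), `x ^ (r ^ b) ∈ B` for `x ∈ A`, `h₁¯ ∈ A`. For `x ∈ R₀` the element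
`e = h₁¯ * x * h₁¯⁻¹ * x⁻¹ ∈ A ⊓ R₀`, so `e ∈ B` (`tw_mem_of_pow`: `e ^ M = 1`, `e ^ (r ^ b) ∈ B`). If
`h₁¯` commuted with all of `B`, then for `x ∈ R₀` it would commute with
`x⁻¹ * (h₁¯ * x * h₁¯⁻¹)`, so with `x` (`tw_coprime_trivial` (TwS3.lean) with the exponents
`r ^ b` for `h₁¯` and `M` for `R₀`), contradicting `gp_g0`. So there is `g ∈ F` with `g¯ ∈ B ≤ R₀` not
commuting with `h₁¯`; `gp_cover` with `Y = B ⊔ zpowers h¯`: `Y = ⊤`. So every `x¯ ∈ R₀` is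
`y * h¯ ^ i` with `y ∈ B`, so `x¯ ^ (r ^ b) ∈ B` (`h ^ (r ^ b) = 1`, `B` normal) and `x¯ ∈ B` by
`tw_mem_of_pow`. -/
theorem gp_OX (D : GpMin M r b c F) {h : F} (hB : GpB M r b c h) (X : Subgroup F) (hX : X ≠ ⊤)
    (hh : h ∈ X) (hcov : ∀ x : F, ∃ y ∈ X, gp M (r ^ b) F y = gp M (r ^ b) F x) :
    ∃ S : Subgroup F, S ≤ X ∧ (∀ x ∈ S, x ^ M = 1) ∧ (∀ t ∈ X, ∀ x ∈ S, t * x * t⁻¹ ∈ S) ∧
      ∀ x : F, gp M (r ^ b) F x ∈ krad M (GH M (r ^ b) F) →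
        ∃ s ∈ S, gp M (r ^ b) F s = gp M (r ^ b) F x := by
  have hcop := D.cop
  obtain ⟨N, K, hKN, hNX, hmem, hN, hK, hKM, hNP⟩ := D.min X hX h hh hB.1
  refine ⟨K, hKN.trans hNX, hKM, hK, ?_⟩
  have hRp := tw_krad_pow (F := GH M (r ^ b) F) hcop (gp_exp D.hexp)
  have hRn := krad_normal M (GH M (r ^ b) F)
  have hBn : (K.map (gp M (r ^ b) F)).Normal := by
    constructor
    rintro _ ⟨k, hk, rfl⟩ y
    obtain ⟨x, rfl⟩ := gp_surj y
    obtain ⟨t, ht, htx⟩ := hcov x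
    rw [← htx]
    exact ⟨t * k * t⁻¹, hK t ht k hk, by simp⟩
  have hAn : (N.map (gp M (r ^ b) F)).Normal := by
    constructor
    rintro _ ⟨k, hk, rfl⟩ y
    obtain ⟨x, rfl⟩ := gp_surj y
    obtain ⟨t, ht, htx⟩ := hcov x
    rw [← htx]
    exact ⟨t * k * t⁻¹, hN t ht k hk, by simp⟩
  have hBR : K.map (gp M (r ^ b) F) ≤ krad M (GH M (r ^ b) F) := by
    apply le_krad hBn
    rintro _ ⟨k, hk, rfl⟩
    rw [← map_pow, hKM k hk, map_one]
  have hAB : ∀ x ∈ N.map (gp M (r ^ b) F), x ^ (r ^ b) ∈ K.map (gp M (r ^ b) F) := by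
    rintro _ ⟨k, hk, rfl⟩
    rw [← map_pow]
    exact ⟨_, hNP k hk, rfl⟩
  obtain ⟨a, ha⟩ : ∃ a, a = gp M (r ^ b) F (h ^ (r ^ (c - 1))) := ⟨_, rfl⟩
  have haA : a ∈ N.map (gp M (r ^ b) F) := by rw [ha]; exact ⟨_, hmem, rfl⟩
  have hap : a ^ (r ^ b) = 1 := by
    rw [ha, map_pow, ← pow_mul, mul_comm, pow_mul, gp_ox_h D hB, one_pow]
  have hcomB : ∀ x ∈ krad M (GH M (r ^ b) F), a * x * a⁻¹ * x⁻¹ ∈ K.map (gp M (r ^ b) F) := by
    intro x hx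
    have h1 : a * x * a⁻¹ * x⁻¹ ∈ krad M (GH M (r ^ b) F) :=
      mul_mem (hRn.conj_mem _ hx a) (inv_mem hx)
    have h2 : a * x * a⁻¹ * x⁻¹ ∈ N.map (gp M (r ^ b) F) := by
      have e : a * x * a⁻¹ * x⁻¹ = a * (x * a⁻¹ * x⁻¹) := by group
      rw [e]
      exact mul_mem haA (hAn.conj_mem _ (inv_mem haA) x)
    exact tw_mem_of_pow hcop (hRp _ h1) (hAB _ h2)
  have hex : ∃ d ∈ K.map (gp M (r ^ b) F), a * d ≠ d * a := by
    by_contra hcon
    push Not at hcon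
    obtain ⟨g, hgM, hgR, hgne⟩ := gp_g0 D hB
    apply hgne
    rw [map_mul, map_mul, ← ha]
    refine tw_coprime_trivial hcop.symm (krad M (GH M (r ^ b) F)) hRp hap
      (fun x hx => hRn.conj_mem _ hx a) (fun x hx => hcon _ ?_) _ hgR
    have e : x⁻¹ * (a * x * a⁻¹) = x⁻¹ * (a * x * a⁻¹ * x⁻¹) * x⁻¹⁻¹ := by group
    rw [e]
    exact hBn.conj_mem _ (hcomB x hx) _
  obtain ⟨_, ⟨g, hg, rfl⟩, hgne⟩ := hex
  have hgB : gp M (r ^ b) F g ∈ K.map (gp M (r ^ b) F) := ⟨g, hg, rfl⟩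
  have hgne' : gp M (r ^ b) F (h ^ (r ^ (c - 1)) * g) ≠
      gp M (r ^ b) F (g * h ^ (r ^ (c - 1))) := by
    rw [map_mul, map_mul, ← ha]
    exact hgne
  have hall := gp_ox_aux D hB (hBR hgB) hgne' hBn hgB
  intro x hx
  obtain ⟨ρ, hρ, j, hj⟩ := hall (gp M (r ^ b) F x)
  have h1 : gp M (r ^ b) F x ∈ K.map (gp M (r ^ b) F) :=
    tw_mem_of_pow hcop (hRp _ hx) (gp_ox_pow hBn hρ (gp_ox_h D hB) hj)
  obtain ⟨s, hs, hsx⟩ := h1
  exact ⟨s, hs, hsx⟩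

end Pool.Agent.Lib.MP_544bd1_al
end
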