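import Mathlib
import Pool.Agent.Lib.MP_544bd1_al.TwF4
import Pool.Agent.Lib.MP_544bd1_al.TwS3
import Pool.Agent.Lib.MP_544bd1_al.TwS2
import Pool.Agent.Lib.MP_544bd1_al.TwR4
import Pool.Agent.Lib.MP_544bd1_al.FrB

section

/-!
Two generators, part 2: Theorem X.
-/

namespace Pool.Agent.Lib.MP_544bd1_al

open Subgroup

variable {G : Type} [Group G]

/-- **Theorem X.** A good involution forces a nontrivial normal 2-subgroup or 2'-subgroup.

Proof. Suppose `z ≠ 1`. If `(z * w) ^ (2 ^ a) = 1` for all `w` with `w ^ (2 ^ a) = 1`, then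
`normal_of_absorbing` gives a nontrivial normal subgroup of exponent `2 ^ a`, contradiction to
`hno2`. So there is `w`, `w ^ (2 ^ a) = 1`, `(z * w) ^ (2 ^ a) ≠ 1`. Let `T = closure {z, w}`
(finite, solvable); in the group `T`, `z ∉ O = krad (2 ^ a) T` (otherwise modulo `O` the element
`z * w` is `w`, so `(z * w) ^ (2 ^ a) ∈ O` and `(z * w) ^ (2 ^ a) = 1` by `tw_PP`). In `T' = T ⧸ O`
(`krad (2 ^ a) T' = ⊥`, `tw_krad_quot`) the image `z'` of `z` is `≠ 1` and does not commute with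
some `e' ∈ krad m T'`: otherwise `fr_fitting` (`k = m`, `l = 2 ^ a`) gives `z' ∈ krad m T'`, so
`z' ^ m = 1`, `z' ^ 2 = 1`, `z' = 1`. Let `e ∈ T` be a lift of `e'`, `c₀ = e⁻¹ * (z⁻¹ * e * z)`:
`z⁻¹ * c₀ * z = c₀⁻¹` as `z ^ 2 = 1`. Let `N ≡ 1 mod m`, `N ≡ 0 mod 2 ^ a` and `c = c₀ ^ N`: then
`c ^ m = 1`, `z⁻¹ * c * z = c⁻¹`, and the image of `c` in `T'` is that of `c₀` (which lies in
`krad m T'`), so it is `≠ 1`, `c ≠ 1`.
`tw_adjoin` for `M := m`, `P := 2 ^ a`, `c`, `w := z` gives a finite solvable `T₁` with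
`c, z ∈ T₁`, `¬ InO m T₁ c`. But `InOP m (2 ^ a) T₁ z`, so `InOP.comm` gives
`InOP m (2 ^ a) T₁ (c⁻¹ * (z⁻¹ * c * z))`, and this element is `c⁻¹ * c⁻¹`; as `c ^ m = 1`, `m` odd,
`c` is a power of it, so `InOP m (2 ^ a) T₁ c` and `InO m T₁ c` (`InOP.inO`). Contradiction. -/
theorem tw_X {n m a : ℕ} (H : TwG n G) (hn : n = m * 2 ^ a) (hm : Odd m)
    (hno2 : NoN (2 ^ a) G) (hno : NoN m G) {z : G} (hz : GoodS m (2 ^ a) z) (hz2 : z ^ 2 = 1) :
    z = 1 := by
  by_contra hz1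
  have hcop : Nat.Coprime m (2 ^ a) := Nat.Coprime.pow_right a (Nat.coprime_two_right.2 hm)
  have hmpos : 0 < m := hm.pos
  have hPpos : 0 < 2 ^ a := by positivity
  have hexp : ∀ x : G, x ^ (m * 2 ^ a) = 1 := by
    intro x
    rw [← hn]
    exact H.hexp x
  -- the element `w`
  obtain ⟨w, hw, hzw⟩ : ∃ w : G, w ^ (2 ^ a) = 1 ∧ (z * w) ^ (2 ^ a) ≠ 1 := by
    by_contra hcon
    push Not at hcon
    obtain ⟨K, hK1, hK2, hK3⟩ := normal_of_absorbing (P := 2 ^ a) H.pos H.hexp hz1 hcon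
    exact hK2 (hno2 K hK1 hK3)
  obtain ⟨hfinT, hsolT⟩ := H.h2 z w
  have hzT : z ∈ closure {z, w} := subset_closure (by simp)
  have hwT : w ∈ closure {z, w} := subset_closure (by simp)
  have hexpT : ∀ x : closure {z, w}, x ^ (m * 2 ^ a) = 1 := tw_exp_sub hexp _
  have hexpT' : ∀ x : closure {z, w}, x ^ (2 ^ a * m) = 1 := tw_exp_comm hexpT
  have hPk := krad_pow (F := closure {z, w}) (k := 2 ^ a) (fun _ h => tw_PP hcop hexpT h)
  have hexpQ := tw_exp_quot hexpT (krad (2 ^ a) (closure {z, w}))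
  have hbot := tw_krad_quot hcop.symm hexpT'
  have hsolQ : Group.IsSolvable (closure {z, w} ⧸ krad (2 ^ a) (closure {z, w})) :=
    Group.isSolvable_of_surjective (QuotientGroup.mk'_surjective _)
  have hmk := krad_pow (F := closure {z, w} ⧸ krad (2 ^ a) (closure {z, w})) (k := m)
    (fun _ h => tw_MM hcop hexpQ h)
  -- the image of `z`
  have hz' : QuotientGroup.mk' (krad (2 ^ a) (closure {z, w})) ⟨z, hzT⟩ ≠ 1 := by
    intro h1
    apply hzw
    have h2 : (QuotientGroup.mk' (krad (2 ^ a) (closure {z, w}))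
        ((⟨z, hzT⟩ * ⟨w, hwT⟩ : closure {z, w}) ^ (2 ^ a))) = 1 := by
      rw [map_pow, map_mul, h1, one_mul, ← map_pow]
      have h3 : (⟨w, hwT⟩ : closure {z, w}) ^ (2 ^ a) = 1 := Subtype.ext (by simpa using hw)
      rw [h3, map_one]
    rw [QuotientGroup.mk'_apply, QuotientGroup.eq_one_iff] at h2
    have h4 := tw_PP hcop hexpT (hPk _ h2)
    have h5 := congrArg Subtype.val h4
    simpa using h5
  have hz'2 : (QuotientGroup.mk' (krad (2 ^ a) (closure {z, w})) ⟨z, hzT⟩) ^ 2 = 1 := by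
    rw [← map_pow]
    have h3 : (⟨z, hzT⟩ : closure {z, w}) ^ 2 = 1 := Subtype.ext (by simpa using hz2)
    rw [h3, map_one]
  obtain ⟨e', he', hne⟩ : ∃ e' ∈ krad m (closure {z, w} ⧸ krad (2 ^ a) (closure {z, w})),
      QuotientGroup.mk' (krad (2 ^ a) (closure {z, w})) ⟨z, hzT⟩ * e' ≠
        e' * QuotientGroup.mk' (krad (2 ^ a) (closure {z, w})) ⟨z, hzT⟩ := by
    by_contra hcon
    push Not at hcon
    have h1 := fr_fitting hcop hmpos hPpos hsolQ hexpQ hbot hcon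
    exact hz' (fr_one_two hm (hmk _ h1) hz'2)
  obtain ⟨e, rfl⟩ := QuotientGroup.mk'_surjective _ e'
  -- the element `c`
  obtain ⟨N, hN1, hN2⟩ := Nat.chineseRemainder hcop 1 0
  have hNP : 2 ^ a ∣ N := (Nat.modEq_zero_iff_dvd).1 hN2
  set zT : closure {z, w} := ⟨z, hzT⟩ with hzTdef
  have hzT2 : zT * zT = 1 := by
    rw [← pow_two]
    exact Subtype.ext (by simpa using hz2)
  have hzTi : zT⁻¹ = zT := by
    rw [inv_eq_iff_mul_eq_one, hzT2]
  set c₀ : closure {z, w} := e⁻¹ * (zT⁻¹ * e * zT) with hc₀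
  have hinv0 : zT⁻¹ * c₀ * zT = c₀⁻¹ := by
    have h1 : zT⁻¹ * c₀ * zT = zT⁻¹ * e⁻¹ * zT⁻¹ * e * (zT * zT) := by
      rw [hc₀]
      group
    have h2 : c₀⁻¹ = zT⁻¹ * e⁻¹ * zT * e := by
      rw [hc₀]
      group
    rw [h1, h2, hzT2, mul_one]
    nth_rewrite 2 [hzTi]
    rfl
  have hcm0 : (c₀ ^ N) ^ m = 1 := by
    obtain ⟨k, hk⟩ := hNP
    rw [← pow_mul, hk, show 2 ^ a * k * m = m * 2 ^ a * k by ring, pow_mul, hexpT, one_pow]
  have hcinv0 : zT⁻¹ * c₀ ^ N * zT = (c₀ ^ N)⁻¹ := by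
    have h1 : zT⁻¹ * c₀ ^ N * zT = (zT⁻¹ * c₀ * zT) ^ N := by
      have h2 := conj_pow (a := zT⁻¹) (b := c₀) (i := N)
      rw [inv_inv] at h2
      exact h2.symm
    rw [h1, hinv0, inv_pow]
  have hπc₀ : QuotientGroup.mk' (krad (2 ^ a) (closure {z, w})) c₀ ∈
      krad m (closure {z, w} ⧸ krad (2 ^ a) (closure {z, w})) := by
    rw [hc₀, map_mul, map_inv]
    refine mul_mem (inv_mem he') ?_
    have h1 := (krad_normal m _).conj_mem _ he'
      (QuotientGroup.mk' (krad (2 ^ a) (closure {z, w})) zT)⁻¹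
    rw [inv_inv] at h1
    rw [map_mul, map_mul, map_inv]
    exact h1
  have hπc : QuotientGroup.mk' (krad (2 ^ a) (closure {z, w})) (c₀ ^ N) =
      QuotientGroup.mk' (krad (2 ^ a) (closure {z, w})) c₀ := by
    rw [map_pow]
    conv_rhs => rw [← pow_one (QuotientGroup.mk' (krad (2 ^ a) (closure {z, w})) c₀)]
    rw [pow_eq_pow_iff_modEq]
    exact hN1.of_dvd (orderOf_dvd_of_pow_eq_one (hmk _ hπc₀))
  have hc1T : c₀ ^ N ≠ 1 := by
    intro h1
    rw [h1, map_one, hc₀, map_mul, map_mul, map_mul, map_inv, map_inv] at hπc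
    apply hne
    have h2 := hπc.symm
    rw [inv_mul_eq_one] at h2
    -- `e = z⁻¹ * e * z`
    have h3 : QuotientGroup.mk' (krad (2 ^ a) (closure {z, w})) zT *
        QuotientGroup.mk' (krad (2 ^ a) (closure {z, w})) e =
        QuotientGroup.mk' (krad (2 ^ a) (closure {z, w})) zT *
          ((QuotientGroup.mk' (krad (2 ^ a) (closure {z, w})) zT)⁻¹ *
            QuotientGroup.mk' (krad (2 ^ a) (closure {z, w})) e *
            QuotientGroup.mk' (krad (2 ^ a) (closure {z, w})) zT) := by rw [← h2]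
    rw [h3]
    group
  -- in the group `G`
  have hc1 : ((c₀ ^ N : closure {z, w}) : G) ≠ 1 := fun h => hc1T (Subtype.ext h)
  have hcm : ((c₀ ^ N : closure {z, w}) : G) ^ m = 1 := by
    have h1 := congrArg Subtype.val hcm0
    simpa using h1
  have hcinv : z⁻¹ * ((c₀ ^ N : closure {z, w}) : G) * z = ((c₀ ^ N : closure {z, w}) : G)⁻¹ :=
    congrArg Subtype.val hcinv0
  generalize ((c₀ ^ N : closure {z, w}) : G) = c at hc1 hcm hcinv
  obtain ⟨T₁, hf, hs, hcT, hzT₁, hnot⟩ := tw_adjoin H hn hcop hno (c := c) (w := z) hcm hc1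
    (by rw [hcinv]; exact inv_mem (mem_zpowers c))
  apply hnot
  have h1 := (hz.inOP T₁ hf hs hzT₁).comm hcT
  rw [hcinv] at h1
  refine InOP.inO hcop ?_ hcm
  have h2 := h1.pow ((m - 1) / 2)
  have h3 : (c⁻¹ * c⁻¹) ^ ((m - 1) / 2) = c := by
    obtain ⟨k, hk⟩ := hm
    have h4 : (m - 1) / 2 = k := by omega
    rw [h4, ← pow_two, ← pow_mul, inv_pow, inv_eq_iff_mul_eq_one, ← pow_succ, ← hk, hcm]
  rwa [h3] at h2

end Pool.Agent.Lib.MP_544bd1_al
end

section

/-!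
Theorem Z3: the module of `F ⧸ O_{2',2}(F)`.
-/

namespace Pool.Agent.Lib.MP_544bd1_al

open Subgroup

private theorem ztrep_cop {m : ℕ} (hm : Odd m) (a : ℕ) : Nat.Coprime m (2 ^ a) := by
  apply Nat.Coprime.pow_right
  rw [Nat.coprime_comm, Nat.Prime.coprime_iff_not_dvd Nat.prime_two]
  intro h
  exact (Nat.not_even_iff_odd.2 hm) (even_iff_two_dvd.2 h)

/-- a lift of an element `h` with `h ^ k = 1` to an element `g` with `g ^ k = 1` -/
private theorem ztrep_lift {T : Type} [Group T] {W : Subgroup T} [W.Normal] {k l : ℕ} (hkl : Nat.Coprime k l)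
    (hexp : ∀ x : T, x ^ (k * l) = 1) {h : T ⧸ W} (hh : h ^ k = 1) :
    ∃ g : T, QuotientGroup.mk' W g = h ∧ g ^ k = 1 := by
  obtain ⟨g, hg⟩ := QuotientGroup.mk'_surjective W h
  obtain ⟨n, hn1, hn2⟩ := Nat.chineseRemainder hkl 1 0
  obtain ⟨c, hc⟩ := (Nat.modEq_zero_iff_dvd).1 hn2
  refine ⟨g ^ n, ?_, ?_⟩
  · rw [map_pow, hg]
    have h1 : h ^ n = h ^ 1 := by
      rw [pow_eq_pow_iff_modEq]
      exact hn1.of_dvd (orderOf_dvd_of_pow_eq_one hh)
    rw [h1, pow_one]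
  · rw [← pow_mul, hc, show l * c * k = k * l * c by ring, pow_mul, hexp, one_pow]

/-- an element of odd order acting trivially on the module centralizes the 2-group -/
private theorem ztrep_cent {T : Type} [Group T] [Finite T] {m : ℕ} (hm : Odd m) (W : Subgroup T) {X : Type}
    [Monoid X] (ρ : T →* X)
    (h : ∀ (s k : ℕ) (g : T), s.Prime → s ≠ 2 → g ^ (s ^ k) = 1 → ρ g = 1 → ∀ x ∈ W, g * x = x * g)
    {g : T} (hg : g ^ m = 1) (hρ : ρ g = 1) : ∀ x ∈ W, g * x = x * g := by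
  have key : zpowers g ≤ centralizer (W : Set T) := by
    refine tw_gen_sylow _ _ fun s hs => ?_
    obtain ⟨v, n', hn', hN⟩ := Nat.exists_eq_pow_mul_and_not_dvd (orderOf_pos g).ne' s hs.ne_one
    have hn0 : n' ≠ 0 := by
      rintro rfl
      exact hn' (dvd_zero _)
    have hd : n' ∣ orderOf g := ⟨s ^ v, by rw [hN, mul_comm]⟩
    have ho : orderOf (g ^ n') = s ^ v := by
      rw [orderOf_pow_of_dvd hn0 hd, hN, Nat.mul_div_cancel _ (Nat.pos_of_ne_zero hn0)]
    refine ⟨zpowers (g ^ n'), ?_, ?_, n', ?_, hn'⟩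
    · rw [zpowers_le]
      exact pow_mem (mem_zpowers g) n'
    · rw [zpowers_le]
      intro x hx
      by_cases h2 : s = 2
      · have hv : v = 0 := by
          by_contra hv
          have h3 : 2 ∣ orderOf g := by
            rw [hN, h2]
            exact (dvd_pow_self 2 hv).mul_right _
          exact (Nat.not_even_iff_odd.2 hm) (even_iff_two_dvd.2 (h3.trans (orderOf_dvd_of_pow_eq_one hg)))
        have h4 : g ^ n' = 1 := by
          rw [hv, pow_zero] at ho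
          exact orderOf_eq_one_iff.1 ho
        rw [h4, mul_one, one_mul]
      · refine (h s v (g ^ n') hs h2 ?_ ?_ x hx).symm
        · rw [← ho, pow_orderOf_eq_one]
        · rw [map_pow, hρ, one_pow]
    · rw [Nat.card_zpowers, Nat.card_zpowers, ho, hN]
  intro x hx
  exact (mem_centralizer_iff.1 (key (mem_zpowers g)) x hx).symm

/-- **The module.**

Proof. Let `T = F ⧸ krad m F`, `W = krad (2 ^ a) T`; `x ^ (2 ^ a) = 1` for `x ∈ W` (`tw_krad_pow`
with `tw_exp_quot`, `tw_exp_comm`), so `IsPGroup 2 W`. `tw_module Nat.prime_two W` gives `V`, `ρ₁ : T →* End V`, `φ`;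
`ρ₁ = 1` on `W`, so `ρ₁` is `ρ` composed with `QuotientGroup.mk' W` (`QuotientGroup.lift`).
(1) Let `h ^ m = 1`, `ρ h = 1`. Let `l ≡ 1 mod m`, `l ≡ 0 mod 2 ^ a` (`Nat.chineseRemainder`),
`h = mk g`, `g' = g ^ l`: `g' ^ m = 1` (since `m * 2 ^ a ∣ m * l`), `mk g' = h ^ l = h`, `ρ₁ g' = 1`.
Then `g'` centralizes `W`: `tw_gen_sylow` for `D = zpowers g'` and `C = centralizer W`: for a prime `s`
let `S ≤ D` be a Sylow `s`-subgroup of `D` (if `s = 2` then `S` is trivial, since `m` is odd); an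
element `g''` of it is a power of `g'`, `g'' ^ (s ^ k) = 1` and `ρ₁ g'' = 1`, so it centralizes `W` by
the last property of `tw_module`. By `fr_fitting` (`k := 2 ^ a`, `l := m`, `krad m T = ⊥` by
`tw_krad_quot`) `g' ∈ W`, so `g' ^ (2 ^ a) = 1` and `g' = 1`, `h = 1`.
(2) Let `u ^ (2 ^ a) = 1`, `u = mk g`, `v = g ^ l'` with `l' ≡ 1 mod 2 ^ a`, `l' ≡ 0 mod m`:
`v ^ (2 ^ a) = 1` and `mk v = u`. `tw_norm_zero` for `W`, `ρ₁`, `v`, `k = 2 ^ a`: for `x ∈ W`
`(x * v) ^ (2 ^ a) ∈ W` (its image is `u ^ (2 ^ a) = 1`), so `(x * v) ^ (2 ^ a) = 1` by `tw_PP`.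
`φ` is surjective. -/
theorem zt_rep {m a : ℕ} (hm : Odd m) {F : Type} [Group F] [Finite F]
    (hsol : Group.IsSolvable F) (hexp : ∀ x : F, x ^ (m * 2 ^ a) = 1) : ZRep m a (ZH m a F) := by
  have hcop : Nat.Coprime m (2 ^ a) := ztrep_cop hm a
  have hm0 : 0 < m := hm.pos
  have h20 : 0 < 2 ^ a := by positivity
  have hexpT : ∀ x : F ⧸ krad m F, x ^ (m * 2 ^ a) = 1 := tw_exp_quot hexp _
  have hexpT' : ∀ x : F ⧸ krad m F, x ^ (2 ^ a * m) = 1 := tw_exp_comm hexpT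
  have hsolT : Group.IsSolvable (F ⧸ krad m F) :=
    Group.isSolvable_of_surjective (QuotientGroup.mk'_surjective (krad m F))
  have hbot : krad m (F ⧸ krad m F) = ⊥ := tw_krad_quot hcop hexp
  have hWpow : ∀ x ∈ krad (2 ^ a) (F ⧸ krad m F), x ^ (2 ^ a) = 1 := tw_krad_pow hcop.symm hexpT'
  have hWg : IsPGroup 2 (krad (2 ^ a) (F ⧸ krad m F)) := fun x => ⟨a, Subtype.ext (by simpa using hWpow x x.2)⟩
  obtain ⟨V, i1, i2, i3, ρ₁, φ, hφs, hφa, hφρ, hρP, hρc⟩ :=
    tw_module Nat.prime_two (krad (2 ^ a) (F ⧸ krad m F)) hWg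
  let ρ : ZH m a F →* Module.End (ZMod 2) V := QuotientGroup.lift (krad (2 ^ a) (F ⧸ krad m F)) ρ₁ hρP
  have hρπ : ∀ g : F ⧸ krad m F, ρ (QuotientGroup.mk' (krad (2 ^ a) (F ⧸ krad m F)) g) = ρ₁ g := fun g => rfl
  refine ⟨V, i1, i2, i3, ρ, fun h hh h1 => ?_, fun u hu => ?_⟩
  · obtain ⟨g, hg, hgm⟩ := ztrep_lift hcop hexpT hh
    have h2 : ρ₁ g = 1 := by rw [← hρπ, hg, h1]
    have h3 := ztrep_cent hm (krad (2 ^ a) (F ⧸ krad m F)) ρ₁ hρc hgm h2
    have h4 : g ∈ krad (2 ^ a) (F ⧸ krad m F) := fr_fitting hcop.symm h20 hm0 hsolT hexpT' hbot h3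
    have h5 : g = 1 := tw_one hcop hgm (hWpow g h4)
    rw [← hg, h5, map_one]
  · obtain ⟨g, hg, hgm⟩ := ztrep_lift hcop.symm hexpT' hu
    have h2 : ρ u = ρ₁ g := by rw [← hρπ, hg]
    rw [h2]
    apply LinearMap.ext
    intro w
    obtain ⟨x, rfl⟩ := hφs w
    rw [LinearMap.zero_apply]
    apply tw_norm_zero (krad (2 ^ a) (F ⧸ krad m F)) ρ₁ φ hφa hφρ hgm x
    apply tw_PP hcop hexpT
    apply hWpow
    have h3 : QuotientGroup.mk' (krad (2 ^ a) (F ⧸ krad m F)) (((x : F ⧸ krad m F) * g) ^ (2 ^ a)) = 1 := by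
      have h4 : QuotientGroup.mk' (krad (2 ^ a) (F ⧸ krad m F)) (x : F ⧸ krad m F) = 1 := by
        rw [QuotientGroup.mk'_apply, QuotientGroup.eq_one_iff]
        exact x.2
      rw [map_pow, map_mul, h4, one_mul, hg, hu]
    rw [QuotientGroup.mk'_apply, QuotientGroup.eq_one_iff] at h3
    exact h3

theorem zt_cop {m : ℕ} (hm : Odd m) (a : ℕ) : Nat.Coprime m (2 ^ a) := by
  apply Nat.Coprime.pow_right
  rw [Nat.coprime_comm, Nat.Prime.coprime_iff_not_dvd Nat.prime_two]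
  intro h
  exact (Nat.not_even_iff_odd.2 hm) (even_iff_two_dvd.2 h)

theorem zt_exp {m a : ℕ} {F : Type} [Group F] (hexp : ∀ x : F, x ^ (m * 2 ^ a) = 1) :
    ∀ x : ZH m a F, x ^ (m * 2 ^ a) = 1 := by
  have h1 : ∀ x : F ⧸ krad m F, x ^ (m * 2 ^ a) = 1 := tw_exp_quot hexp _
  exact tw_exp_quot h1 _

theorem zt_sol {m a : ℕ} {F : Type} [Group F] (hsol : Group.IsSolvable F) :
    Group.IsSolvable (ZH m a F) := by
  have h1 : Group.IsSolvable (F ⧸ krad m F) :=
    Group.isSolvable_of_surjective (QuotientGroup.mk'_surjective (krad m F))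
  exact Group.isSolvable_of_surjective (QuotientGroup.mk'_surjective (krad (2 ^ a) (F ⧸ krad m F)))

theorem zt_bot {m a : ℕ} (hm : Odd m) {F : Type} [Group F]
    (hexp : ∀ x : F, x ^ (m * 2 ^ a) = 1) : krad (2 ^ a) (ZH m a F) = ⊥ := by
  have h1 : ∀ x : F ⧸ krad m F, x ^ (m * 2 ^ a) = 1 := tw_exp_quot hexp _
  exact tw_krad_quot (zt_cop hm a).symm (tw_exp_comm h1)

theorem zp_surj {m a : ℕ} {F : Type} [Group F] : Function.Surjective (zp m a F) := by
  intro h
  obtain ⟨g, rfl⟩ := QuotientGroup.mk'_surjective _ h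
  obtain ⟨x, rfl⟩ := QuotientGroup.mk'_surjective _ g
  exact ⟨x, rfl⟩

/-- `O_{2',2}(F)` is the kernel of the projection -/
theorem zt_op_iff {m a : ℕ} (hm : Odd m) {F : Type} [Group F]
    (hexp : ∀ x : F, x ^ (m * 2 ^ a) = 1) {z : F} :
    InOP m (2 ^ a) (⊤ : Subgroup F) z ↔ zp m a F z = 1 := by
  rw [tw_op_iff (zt_cop hm a) hexp, ← QuotientGroup.eq_one_iff]
  rfl

end Pool.Agent.Lib.MP_544bd1_al
end

section

/-!
Even exponents, squares of Mersenne primes: the finite statement behind Lemma Q.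
-/

namespace Pool.Agent.Lib.MP_544bd1_al

open Subgroup

private theorem ev_odd_two {M : Type} [Monoid M] {y : M} {q : ℕ} (hq : ¬ 2 ∣ q) (h1 : y ^ q = 1)
    (h2 : y ^ 2 = 1) : y = 1 := by
  obtain ⟨k, rfl⟩ : ∃ k, q = 2 * k + 1 := ⟨q / 2, by omega⟩
  rwa [pow_succ, pow_mul, h2, one_pow, one_mul] at h1

/-- `ev_B` for trivial `O_{q'}` -/
private theorem ev_Bbot {F : Type} [Group F] [Finite F] {N q : ℕ} (hq : q.Prime) (hq2 : q ≠ 2)
    (hqN : ¬ q ∣ N) (hN : 0 < N) (hsol : Group.IsSolvable F) (hexp : ∀ x : F, x ^ (N * q) = 1)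
    (hbot : krad N F = ⊥) {v z : F} (hv : v ^ 2 = 1) (hz : z ^ q = 1)
    (hc : ∀ i j : ℕ, (z ^ i * v * (z ^ i)⁻¹) * (z ^ j * v * (z ^ j)⁻¹) =
      (z ^ j * v * (z ^ j)⁻¹) * (z ^ i * v * (z ^ i)⁻¹))
    (hP : (v * z) ^ q = 1) : v = 1 := by
  have : Fact q.Prime := ⟨hq⟩
  have hcop : Nat.Coprime N q := ((Nat.Prime.coprime_iff_not_dvd hq).2 hqN).symm
  have hexp' : ∀ x : F, x ^ (q * N) = 1 := tw_exp_comm hexp
  have hBpow := tw_krad_pow hcop.symm hexp'
  have hBg : IsPGroup q (krad q F) := by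
    intro x
    exact ⟨1, Subtype.ext (by simpa using hBpow x x.2)⟩
  have hqodd : ¬ 2 ∣ q := fun h => hq2 ((Nat.prime_dvd_prime_iff_eq Nat.prime_two hq).1 h).symm
  obtain ⟨V, _, _, _, ρ, φ, hφs, hφa, hφρ, hρP, hρc⟩ := tw_module hq (krad q F) hBg
  -- the subgroup generated by the conjugates of `v`
  set A : Subgroup F := closure (Set.range fun i : ℕ => z ^ i * v * (z ^ i)⁻¹) with hA
  have hvA : v ∈ A := subset_closure ⟨0, by simp⟩
  have hcomm : ∀ x ∈ A, ∀ y ∈ A, x * y = y * x := by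
    have h1 : A ≤ Subgroup.centralizer (Set.range fun i : ℕ => z ^ i * v * (z ^ i)⁻¹) := by
      rw [hA, Subgroup.closure_le]
      rintro _ ⟨i, rfl⟩
      rw [SetLike.mem_coe, Subgroup.mem_centralizer_iff]
      rintro _ ⟨j, rfl⟩
      exact hc j i
    have h2 : A ≤ Subgroup.centralizer (A : Set F) := by
      conv_lhs => rw [hA]
      rw [Subgroup.closure_le]
      rintro _ ⟨i, rfl⟩
      rw [SetLike.mem_coe, Subgroup.mem_centralizer_iff]
      intro y hy
      exact (Subgroup.mem_centralizer_iff.1 (h1 hy) _ ⟨i, rfl⟩).symm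
    intro x hx y hy
    exact (Subgroup.mem_centralizer_iff.1 (h2 hx) y hy).symm
  have hsq : ∀ x ∈ A, x ^ 2 = 1 := by
    intro x hx
    induction hx using closure_induction with
    | mem x hx =>
      obtain ⟨i, rfl⟩ := hx
      rw [conj_pow, hv, mul_one, mul_inv_cancel]
    | one => exact one_pow 2
    | mul a b ha hb iha ihb =>
      have h1 : Commute a b := hcomm a ha b hb
      rw [h1.mul_pow, iha, ihb, one_mul]
    | inv a _ ih => rw [inv_pow, ih, inv_one]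
  have hzA : ∀ x ∈ A, z * x * z⁻¹ ∈ A := by
    intro x hx
    induction hx using closure_induction with
    | mem x hx =>
      obtain ⟨i, rfl⟩ := hx
      refine subset_closure ⟨i + 1, ?_⟩
      show z ^ (i + 1) * v * (z ^ (i + 1))⁻¹ = z * (z ^ i * v * (z ^ i)⁻¹) * z⁻¹
      rw [pow_succ']
      group
    | one => simpa using A.one_mem
    | mul a b _ _ iha ihb =>
      have h1 : z * (a * b) * z⁻¹ = (z * a * z⁻¹) * (z * b * z⁻¹) := by group
      rw [h1]
      exact A.mul_mem iha ihb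
    | inv a _ ih =>
      have h1 : z * a⁻¹ * z⁻¹ = (z * a * z⁻¹)⁻¹ := by group
      rw [h1]
      exact A.inv_mem ih
  have hA2 : IsPGroup 2 A := by
    intro x
    exact ⟨1, Subtype.ext (by simpa using hsq x x.2)⟩
  let α : A →* A := MonoidHom.mk' (fun y => ⟨z * y * z⁻¹, hzA y y.2⟩) (by
    intro y w
    apply Subtype.ext
    simp only [Subgroup.coe_mul]
    group)
  have hα : ∀ y : A, ((α y : A) : F) = z * y * z⁻¹ := fun y => rfl
  have hD : LDat (q ^ 1) α (ρ.comp A.subtype) (ρ z) := by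
    refine ⟨?_, ?_, ?_⟩
    · intro y
      simp only [MonoidHom.comp_apply, Subgroup.coe_subtype]
      rw [hα, ← map_mul, ← map_mul]
      congr 1
      group
    · rw [pow_one, ← map_pow, hz, map_one]
    · apply LinearMap.ext
      intro w
      obtain ⟨y, rfl⟩ := hφs w
      rw [LinearMap.zero_apply, pow_one]
      apply tw_norm_zero (krad q F) ρ φ hφa hφρ hz y
      apply tw_PP hcop hexp
      apply hBpow
      have h1 : QuotientGroup.mk' (krad q F) (((y : F) * z) ^ q) = 1 := by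
        rw [map_pow, map_mul]
        have h2 : QuotientGroup.mk' (krad q F) (y : F) = 1 := by
          rw [QuotientGroup.mk'_apply, QuotientGroup.eq_one_iff]
          exact y.2
        rw [h2, one_mul, ← map_pow, hz, map_one]
      rwa [QuotientGroup.mk'_apply, QuotientGroup.eq_one_iff] at h1
  have hL := ev_abZ (p := q) (r := 2) (a := 1) Nat.prime_two (Ne.symm hq2) one_pos hA2
    (ρ := ρ.comp A.subtype) (α := α) (U := ρ z) (by
      intro x y
      simp only [MonoidHom.comp_apply, Subgroup.coe_subtype]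
      rw [← map_mul, ← map_mul, hcomm x x.2 y y.2]) hD ⟨v, hvA⟩
  simp only [MonoidHom.comp_apply, Subgroup.coe_subtype, Nat.sub_self, pow_zero,
    Function.iterate_one, hα] at hL
  -- `ρ z` and `ρ v` commute
  have hcm : Commute (ρ v) (ρ z) := by
    show ρ v * ρ z = ρ z * ρ v
    have h1 : ρ (z * v * z⁻¹) * ρ z = ρ z * ρ v := by
      rw [← map_mul, ← map_mul]
      congr 1
      group
    rw [← h1, hL]
  have hvq : (ρ v) ^ q = 1 := by
    have h1 : ρ ((v * z) ^ q) = 1 := by rw [hP, map_one]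
    rw [map_pow, map_mul, hcm.mul_pow, ← map_pow ρ z, hz, map_one, mul_one] at h1
    exact h1
  have hv2 : (ρ v) ^ 2 = 1 := by rw [← map_pow, hv, map_one]
  have hρv : ρ v = 1 := ev_odd_two hqodd hvq hv2
  have hcen := hρc 2 1 v Nat.prime_two (Ne.symm hq2) (by rw [pow_one, hv]) hρv
  have hvB := fr_fitting hcop.symm hq.pos hN hsol hexp' hbot hcen
  exact ev_odd_two hqodd (hBpow v hvB) hv

/-- Finite statement behind Lemma Q. `v` an involution, `z ^ q = 1`, the conjugates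
`z ^ i * v * (z ^ i)⁻¹` commute and their product, which is `(v * z) ^ q * (z ^ q)⁻¹`, is `1`: then
`v ∈ O_{q'}(F)`, for every finite solvable group `F` of exponent `N * q`, `q ∤ N`.

Proof (model: `tw_HHbot` in TwH.lean). It is enough to prove: if `krad N F = ⊥` then `v = 1`; apply
this to `F ⧸ krad N F` (`tw_krad_quot`, `tw_exp_quot`; all hypotheses pass to the quotient; then
`v ∈ krad N F`, `tw_mem_krad_iff`; here `P = q`, `hexp : x ^ (N * q) = 1`, `hcop : Coprime N q`).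
So let `krad N F = ⊥`, `B = krad q F` (`x ^ q = 1` for `x ∈ B`, `tw_krad_pow` for the pair
`(q, N)`), a `q`-group. `tw_module` for `B`, `p := q`, gives `V`, `ρ : F →* End V`, `φ : B → V`.
Let `A = closure {z ^ i * v * (z ^ i)⁻¹}` (`i : ℕ`): commutative (closure induction), `x ^ 2 = 1`
for `x ∈ A`, so `IsPGroup 2 A`; `z * x * z⁻¹ ∈ A` for `x ∈ A`. Let `α : A →* A` be conjugation
by `z` (see `tw_HHbot` for the construction).
`LDat (q ^ 1) α (ρ.comp A.subtype) (ρ z)`: `hU` clear, `hq` from `z ^ q = 1`, `hN` from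
`tw_norm_zero` (`k = q`): for `x ∈ B`, `(x * z) ^ q = 1` by `tw_PP` (with `M := N`, `P := q`):
`((x * z) ^ q) ^ q = 1` since `(x * z) ^ q ∈ B` (its image in `F ⧸ B` is `(image of z) ^ q = 1`).
`ev_abZ` (`p := q`, `r := 2`, `a := 1`): `ρ (z * v * z⁻¹) = ρ v`. So `ρ z` and `ρ v` commute and
`1 = ρ ((v * z) ^ q) = (ρ v) ^ q * (ρ z) ^ q = (ρ v) ^ q`; with `(ρ v) ^ 2 = 1`, `q` odd: `ρ v = 1`.
The last property in `tw_module` (`s := 2`, `k := 1`, `g := v`) gives: `v` centralizes `B`. By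
`fr_fitting` (`k := q`, `l := N`, `hl : krad N F = ⊥`) `v ∈ krad q F = B`, so `v ^ q = 1`,
`v ^ 2 = 1`, `v = 1`. -/
theorem ev_B {F : Type} [Group F] [Finite F] {N q : ℕ} (hq : q.Prime) (hq2 : q ≠ 2)
    (hqN : ¬ q ∣ N) (hN : 0 < N) (hsol : Group.IsSolvable F) (hexp : ∀ x : F, x ^ (N * q) = 1)
    {v z : F} (hv : v ^ 2 = 1) (hz : z ^ q = 1)
    (hc : ∀ i j : ℕ, (z ^ i * v * (z ^ i)⁻¹) * (z ^ j * v * (z ^ j)⁻¹) =
      (z ^ j * v * (z ^ j)⁻¹) * (z ^ i * v * (z ^ i)⁻¹))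
    (hP : (v * z) ^ q = 1) : InO N (⊤ : Subgroup F) v := by
  have hcop : Nat.Coprime N q := ((Nat.Prime.coprime_iff_not_dvd hq).2 hqN).symm
  rw [← tw_mem_krad_iff hcop hexp, ← QuotientGroup.eq_one_iff, ← QuotientGroup.mk'_apply]
  have hsol' : Group.IsSolvable (F ⧸ krad N F) :=
    Group.isSolvable_of_surjective (QuotientGroup.mk'_surjective (krad N F))
  refine ev_Bbot hq hq2 hqN hN hsol' (tw_exp_quot hexp _) (tw_krad_quot hcop hexp)
    (z := QuotientGroup.mk' (krad N F) z) ?_ ?_ ?_ ?_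
  · rw [← map_pow, hv, map_one]
  · rw [← map_pow, hz, map_one]
  · intro i j
    simp only [← map_pow, ← map_inv, ← map_mul]
    rw [hc i j]
  · rw [← map_mul, ← map_pow, hP, map_one]

end Pool.Agent.Lib.MP_544bd1_al
end

section

/-!
Two generators, part 2, second refinement: good elements act nontrivially on `s`-groups.
-/

namespace Pool.Agent.Lib.MP_544bd1_al

open Subgroup

/-- a subgroup of index prime to `p` has full image in a `p`-group -/
private theorem tw_U_image {F F' : Type} [Group F] [Group F'] [Finite F] {p k : ℕ}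
    (hp : p.Prime) (π : F →* F') (S D : Subgroup F) (hSD : S ≤ D) (hk : Nat.card D = Nat.card S * k)
    (hpk : ¬ p ∣ k) (hD : IsPGroup p (D.map π)) {d : F} (hd : d ∈ D) : π d ∈ S.map π := by
  have : Fact p.Prime := ⟨hp⟩
  have hfin : Finite (D.map π) := by
    have : Finite (π.range) := Set.finite_range π
    exact Finite.of_surjective _ (π.subgroupMap_surjective D)
  set f := π.subgroupMap D with hf
  have hfs : Function.Surjective f := π.subgroupMap_surjective D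
  set H := S.subgroupOf D with hH
  have h1 : Nat.card H = Nat.card S := Nat.card_congr (Subgroup.subgroupOfEquivOfLe hSD).toEquiv
  have h2 : H.index = k := by
    have h3 := H.card_mul_index
    rw [h1, hk] at h3
    exact Nat.eq_of_mul_eq_mul_left Nat.card_pos h3
  have h3 : (H.map f).index ∣ k := by
    rw [← h2]
    exact H.index_map_dvd hfs
  obtain ⟨m, hm⟩ := IsPGroup.iff_card.1 hD
  have h4 : (H.map f).index ∣ p ^ m := by
    rw [← hm]
    exact (H.map f).index_dvd_card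
  obtain ⟨j, _, hj⟩ := (Nat.dvd_prime_pow hp).1 h4
  have h5 : (H.map f).index = 1 := by
    rcases Nat.eq_zero_or_pos j with h0 | h0
    · rw [hj, h0, pow_zero]
    · exfalso
      apply hpk
      refine dvd_trans ?_ h3
      rw [hj]
      exact dvd_pow_self p h0.ne'
  have h6 : f ⟨d, hd⟩ ∈ H.map f := by
    rw [Subgroup.index_eq_one.1 h5]
    trivial
  obtain ⟨s, hs, hsd⟩ := h6
  refine ⟨s, hs, ?_⟩
  exact congrArg Subtype.val hsd

/-- the finite group part of Lemma U -/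
private theorem tw_U_fin {F : Type} [Group F] [Finite F] {n p s a c M S : ℕ}
    (hp : p.Prime) (hs : s.Prime) (hps : p ≠ s) (hM : n = M * p ^ a) (hS : n = S * s ^ c)
    (hpM : ¬ p ∣ M) (hsS : ¬ s ∣ S) (hsol : Group.IsSolvable F) (hexp : ∀ x : F, x ^ n = 1)
    {z : F} (hz : z ^ (p ^ a) = 1) (hzO : InOP M (p ^ a) (⊤ : Subgroup F) z)
    (hA : ∀ R : Subgroup F, IsPGroup s R → (∀ x ∈ R, z * x * z⁻¹ ∈ R) → ∀ x ∈ R, z * x = x * z) :
    InO S (⊤ : Subgroup F) z := by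
  have hM0 : 0 < M := by
    rcases Nat.eq_zero_or_pos M with h | h
    · exact absurd (h ▸ dvd_zero p) hpM
    · exact h
  have hS0 : 0 < S := by
    rcases Nat.eq_zero_or_pos S with h | h
    · exact absurd (h ▸ dvd_zero s) hsS
    · exact h
  have hcopM : Nat.Coprime M (p ^ a) :=
    Nat.Coprime.pow_right a ((Nat.Prime.coprime_iff_not_dvd hp).2 hpM).symm
  have hcopS : Nat.Coprime S (s ^ c) :=
    Nat.Coprime.pow_right c ((Nat.Prime.coprime_iff_not_dvd hs).2 hsS).symm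
  have hcopPS : Nat.Coprime (p ^ a) (s ^ c) :=
    Nat.Coprime.pow a c ((Nat.coprime_primes hp hs).2 hps)
  have hexpM : ∀ x : F, x ^ (M * p ^ a) = 1 := fun x => by rw [← hM]; exact hexp x
  have hexpS : ∀ x : F, x ^ (S * s ^ c) = 1 := fun x => by rw [← hS]; exact hexp x
  have hscM : s ^ c ∣ M := by
    refine Nat.Coprime.dvd_of_dvd_mul_right hcopPS.symm ?_
    rw [← hM, hS]
    exact dvd_mul_left _ _
  -- the quotient
  set π : F →* F ⧸ krad S F := QuotientGroup.mk' (krad S F) with hπ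
  have hexpQ : ∀ x : F ⧸ krad S F, x ^ (S * s ^ c) = 1 := tw_exp_quot hexpS _
  have hexpQ' : ∀ x : F ⧸ krad S F, x ^ (s ^ c * S) = 1 := tw_exp_comm hexpQ
  set Q := krad (s ^ c) (F ⧸ krad S F) with hQ
  have hQpow : ∀ x ∈ Q, x ^ (s ^ c) = 1 := tw_krad_pow hcopS.symm hexpQ'
  have hQn : Q.Normal := krad_normal _ _
  have hπsurj : Function.Surjective π := QuotientGroup.mk'_surjective _
  have hsolQ : Group.IsSolvable (F ⧸ krad S F) := by
    have := hsol
    exact Group.isSolvable_of_surjective hπsurj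
  set D : Subgroup F := krad M F ⊓ Q.comap π with hD
  have hDn : D.Normal := by
    have h1 : (krad M F).Normal := krad_normal _ _
    have h2 : (Q.comap π).Normal := inferInstance
    exact ⟨fun x hx g => ⟨h1.conj_mem x hx.1 g, h2.conj_mem x hx.2 g⟩⟩
  have hDpow : ∀ x ∈ D, x ^ M = 1 := fun x hx => tw_krad_pow hcopM hexpM x hx.1
  have hDp : ¬ p ∣ Nat.card D := tw_card_cop hp hpM D hDpow
  have hE : IsPGroup p (zpowers z : Subgroup F) := by
    rintro ⟨x, hx⟩
    obtain ⟨k, rfl⟩ := hx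
    refine ⟨a, ?_⟩
    apply Subtype.ext
    change (z ^ k) ^ (p ^ a) = 1
    rw [← zpow_natCast, ← zpow_mul, mul_comm, zpow_mul, zpow_natCast, hz, one_zpow]
  obtain ⟨S₁, hSD, hSp, hSE, k, hk, hpk⟩ := tw_inv_sylow hs hp D (zpowers z)
    (fun e _ x hx => hDn.conj_mem x hx e) hE hDp
  have hzS : ∀ x ∈ S₁, z * x = x * z :=
    hA S₁ hSp (fun x hx => hSE z (mem_zpowers z) x hx)
  have hDs : IsPGroup s (D.map π) := by
    rintro ⟨_, x, hx, rfl⟩
    refine ⟨c, Subtype.ext ?_⟩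
    have h8 : (π x) ^ (s ^ c) = 1 := hQpow _ hx.2
    simpa using h8
  have hcomm : ∀ d ∈ D, π z * π d = π d * π z := by
    intro d hd
    obtain ⟨e, he, hed⟩ := tw_U_image hs π S₁ D hSD hk hpk hDs hd
    rw [← hed, ← map_mul, ← map_mul, hzS e he]
  have hcen : ∀ x ∈ Q, π z * x = x * π z := by
    refine tw_coprime_trivial hcopPS Q hQpow ?_ (fun x hx => hQn.conj_mem x hx _) ?_
    · rw [← map_pow, hz, map_one]
    · intro x hx
      obtain ⟨w, rfl⟩ := hπsurj x
      have h8 : (π w)⁻¹ * (π z * π w * (π z)⁻¹) = π (w⁻¹ * (z * w * z⁻¹)) := by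
        simp only [map_mul, map_inv]
      obtain ⟨c₀, hc₀⟩ : ∃ c₀, c₀ = w⁻¹ * (z * w * z⁻¹) := ⟨_, rfl⟩
      have h9 : InOP M (p ^ a) (⊤ : Subgroup F) c₀ := by
        have h10 : c₀ = (w⁻¹ * z * (w⁻¹)⁻¹) * z⁻¹ := by rw [hc₀]; group
        rw [h10]
        exact InOP.mul hcopM hexpM (hzO.conj trivial) hzO.inv
      have h11 : π c₀ ∈ Q := by
        rw [hc₀, ← h8]
        exact Q.mul_mem (Q.inv_mem hx) (hQn.conj_mem _ hx _)
      obtain ⟨N, hN1, hN2⟩ := Nat.chineseRemainder hcopS 0 1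
      have h12 : (c₀ ^ N) ^ (s ^ c) = 1 := by
        obtain ⟨t, ht⟩ := (Nat.modEq_zero_iff_dvd).1 hN1
        rw [← pow_mul, ht, mul_comm S t, mul_assoc, mul_comm t, pow_mul, hexpS, one_pow]
      have h13 : (c₀ ^ N) ^ M = 1 := by
        obtain ⟨t, ht⟩ := hscM
        rw [ht, pow_mul, h12, one_pow]
      have h14 : π (c₀ ^ N) = π c₀ := by
        rw [map_pow]
        have h15 : (π c₀) ^ N = (π c₀) ^ 1 := by
          rw [pow_eq_pow_iff_modEq]
          exact hN2.of_dvd (orderOf_dvd_of_pow_eq_one (hQpow _ h11))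
        rw [h15, pow_one]
      have h16 : c₀ ^ N ∈ D := by
        refine ⟨(tw_mem_krad_iff hcopM hexpM).2 ((h9.pow N).inO hcopM h13), ?_⟩
        show π (c₀ ^ N) ∈ Q
        rw [h14]
        exact h11
      have h17 := hcomm _ h16
      rw [h14] at h17
      rw [h8, ← hc₀]
      exact h17
  have hzQ : π z ∈ Q := by
    refine fr_fitting hcopS.symm (Nat.pow_pos hs.pos) hS0 hsolQ hexpQ' ?_ hcen
    exact tw_krad_quot hcopS hexpS
  have hz1 : π z = 1 := by
    refine tw_one hcopPS ?_ (hQpow _ hzQ)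
    rw [← map_pow, hz, map_one]
  rw [← tw_mem_krad_iff hcopS hexpS]
  rwa [hπ, QuotientGroup.mk'_apply, QuotientGroup.eq_one_iff] at hz1

/-- **Lemma U.** If `G` has no nontrivial normal `s'`-subgroup, then every `p`-good element `z ≠ 1`,
`p ≠ s`, normalizes but does not centralize some finite `s`-subgroup.

Proof. Suppose that `z` centralizes all finite `s`-subgroups which it normalizes. As `p ^ a ∣ S`,
`z ^ S = 1`, and `tw_R1` (with `M := S`, `P := s ^ c`) gives `g` such that `¬ InO S T z` for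
`T = closure {z, g}`, finite and solvable. Work in the group `F = T`, with the image `z₀` of `z`:
`z₀ ∉ krad S F` (`tw_mem_krad_iff`), `InOP M (p ^ a) ⊤ z₀` (`InOP.top_iff`). Let `F' = F ⧸ krad S F`,
`π : F →* F'`, `Q = krad (s ^ c) F'`; `krad S F' = ⊥` (`tw_krad_quot`).
Let `D` be the subgroup of all `x ∈ krad M F` with `π x ∈ Q` (normal, of exponent dividing `M`, so
`¬ p ∣ Nat.card D` by `tw_card_cop`). By `tw_inv_sylow` (`p := s`, `q := p`, `E := zpowers z₀`) there is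
an `s`-subgroup `S₁ ≤ D` normalized by `z₀`, of index prime to `s` in `D`. By assumption (applied to
`S₁.map T.subtype`) `z₀` centralizes `S₁`. As `D.map π` is an `s`-group, `D.map π = S₁.map π`
(the index is a power of `s` and prime to `s`; cf. the private lemma `tw_C3_image` in TwC3.lean). So
`π z₀` centralizes `D.map π`.
Let `x' ∈ Q`, `x' = π x`, `c₀ = x⁻¹ * (z₀⁻¹ * x * z₀)`. `InOP M (p ^ a) ⊤ c₀` (`InOP.comm`, `InOP.comm'`),
`π c₀ ∈ Q`. Let `N ≡ 1 mod s ^ c`, `N ≡ 0 mod S` and `c₁ = c₀ ^ N`. Then `c₁ ^ (s ^ c) = 1`, so `c₁ ^ M = 1`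
(`s ^ c ∣ M`), `InO M ⊤ c₁` (`InOP.inO`), `c₁ ∈ krad M F`, and `π c₁ = (π c₀) ^ N = π c₀` (as
`(π c₀) ^ (s ^ c) = 1`). So `c₁ ∈ D` and `π c₀` commutes with `π z₀`. By `tw_coprime_trivial` (for the
element `π z₀` and the group `Q`) `π z₀` centralizes `Q`. By `fr_fitting` (`k := s ^ c`, `l := S`)
`π z₀ ∈ Q`, so `(π z₀) ^ (s ^ c) = 1`, `(π z₀) ^ S = 1`: `π z₀ = 1`, `z₀ ∈ krad S F`: contradiction. -/
theorem tw_U {G : Type} [Group G] {n p s a c M S : ℕ} (H : TwG n G) (hp : p.Prime) (hs : s.Prime)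
    (hps : p ≠ s) (hM : n = M * p ^ a) (hS : n = S * s ^ c) (hpM : ¬ p ∣ M) (hsS : ¬ s ∣ S)
    (hnoS : NoN S G) {z : G} (hz : GoodS M (p ^ a) z) (hz1 : z ≠ 1) :
    ∃ R : Subgroup G, Finite R ∧ IsPGroup s R ∧ (∀ x ∈ R, z * x * z⁻¹ ∈ R) ∧
      ∃ x ∈ R, z * x ≠ x * z := by
  by_contra hcon
  push Not at hcon
  have hcopS : Nat.Coprime S (s ^ c) :=
    Nat.Coprime.pow_right c ((Nat.Prime.coprime_iff_not_dvd hs).2 hsS).symm
  have hcopPS : Nat.Coprime (p ^ a) (s ^ c) :=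
    Nat.Coprime.pow a c ((Nat.coprime_primes hp hs).2 hps)
  have hpaS : p ^ a ∣ S := by
    refine Nat.Coprime.dvd_of_dvd_mul_right hcopPS ?_
    rw [← hS, hM]
    exact dvd_mul_left _ _
  have hzS : z ^ S = 1 := by
    obtain ⟨t, ht⟩ := hpaS
    rw [ht, pow_mul, hz.1, one_pow]
  obtain ⟨g, hg⟩ := tw_R1 H hS hcopS hnoS hzS hz1
  obtain ⟨hfin, hsol⟩ := H.h2 z g
  have hzT : z ∈ closure {z, g} := subset_closure (by simp)
  apply hg
  rw [← InO.top_iff (⟨z, hzT⟩ : (closure {z, g} : Subgroup G))]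
  refine tw_U_fin hp hs hps hM hS hpM hsS hsol (tw_exp_sub H.hexp _) ?_ ?_ ?_
  · apply Subtype.ext
    simpa using hz.1
  · rw [InOP.top_iff]
    exact hz.2 _ hfin hsol hzT
  · intro R hR hRn x hx
    have hRfin : Finite (R.map (closure {z, g}).subtype) :=
      Finite.of_surjective _ ((closure {z, g}).subtype.subgroupMap_surjective R)
    have h1 := hcon (R.map (closure {z, g}).subtype) hRfin (hR.map _) (by
      rintro _ ⟨y, hy, rfl⟩
      exact ⟨_, hRn y hy, rfl⟩) x ⟨x, hx, rfl⟩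
    apply Subtype.ext
    simpa using h1

end Pool.Agent.Lib.MP_544bd1_al
end
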