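import Mathlib
import Pool.Agent.Lib.MP_544bd1_al.GpOX
import Pool.Agent.Lib.MP_544bd1_al.TwS3
import Pool.Agent.Lib.MP_544bd1_al.TwU1
import Pool.Agent.Lib.MP_544bd1_al.TwR4
import Pool.Agent.Lib.MP_544bd1_al.TwA
import Pool.Agent.Lib.MP_544bd1_al.FrL0
import Pool.Agent.Lib.MP_544bd1_al.TwF4
import Pool.Agent.Lib.MP_544bd1_al.GpCent

section

/-!
Theorem Z3: Frattini arguments.
-/

namespace Pool.Agent.Lib.MP_544bd1_al

open Subgroup

/-- `ev_frattini` with a given `p`-element `x` normalizing the Sylow subgroup.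

Proof. As `ev_frattini` (EvC.lean), but choose the Sylow `p`-subgroup `S` of `W.comap f` fixed under
conjugation by `x` (`x` normalizes `W.comap f`, as `W` is normal): the number of Sylow `p`-subgroups is
`1` mod `p` (`card_sylow_modEq_one`), and the `p`-group `zpowers x` acts on them by conjugation, so there
is a fixed one (`IsPGroup.nonempty_fixed_point_of_prime_not_dvd_card`; compare `tw_inv_sylow` in
TwS1.lean). All other properties hold for every Sylow subgroup, with the proof of `ev_frattini`.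
(Alternative: take `P₀` from `ev_frattini`; `x` normalizes some conjugate of it.) -/
theorem zt_fratx {F H : Type} [Group F] [Finite F] [Group H] {p k : ℕ} (hp : p.Prime)
    (f : F →* H) (hf : Function.Surjective f) (W : Subgroup H) [W.Normal] (hW : IsPGroup p W)
    {x : F} (hx : x ^ (p ^ k) = 1) :
    ∃ P : Subgroup F, IsPGroup p P ∧ (∀ w ∈ W, ∃ p ∈ P, f p = w) ∧ (∀ p ∈ P, f p ∈ W) ∧
      (∀ h : H, ∃ n ∈ normalizer (P : Set F), f n = h) ∧ x ∈ normalizer (P : Set F) := by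
  have : Fact (Nat.Prime p) := ⟨hp⟩
  have hDE : ∀ e ∈ zpowers x, ∀ y ∈ W.comap f, e * y * e⁻¹ ∈ W.comap f := fun e _ y hy =>
    (inferInstance : (W.comap f).Normal).conj_mem y hy e
  have hE : IsPGroup p (zpowers x) := by
    rintro ⟨y, hy⟩
    obtain ⟨i, rfl⟩ := mem_zpowers_iff.1 hy
    refine ⟨k, Subtype.ext ?_⟩
    show (x ^ i) ^ p ^ k = 1
    rw [← zpow_natCast, ← zpow_mul, mul_comm, zpow_mul, zpow_natCast, hx, one_zpow]
  let act : MulDistribMulAction (zpowers x) (W.comap f) :=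
    { smul := fun e y => ⟨e * y * (e : F)⁻¹, hDE e e.2 y y.2⟩
      one_smul := fun y => Subtype.ext (by
        change ((1 : zpowers x) : F) * y * ((1 : zpowers x) : F)⁻¹ = y
        simp)
      mul_smul := fun e g y => Subtype.ext (by
        change ((e * g : zpowers x) : F) * y * ((e * g : zpowers x) : F)⁻¹ =
          e * (g * y * (g : F)⁻¹) * (e : F)⁻¹
        rw [Subgroup.coe_mul, mul_inv_rev]
        group)
      smul_mul := fun e y z => Subtype.ext (by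
        change (e : F) * ((y * z : W.comap f) : F) * (e : F)⁻¹ =
          (e * y * (e : F)⁻¹) * (e * z * (e : F)⁻¹)
        rw [Subgroup.coe_mul]
        group)
      smul_one := fun e => Subtype.ext (by
        change (e : F) * ((1 : W.comap f) : F) * (e : F)⁻¹ = ((1 : W.comap f) : F)
        simp) }
  have hact : ∀ (e : zpowers x) (y : W.comap f), ((e • y : W.comap f) : F) = e * y * (e : F)⁻¹ :=
    fun e y => rfl
  have hcard : ¬ p ∣ Nat.card (Sylow p (W.comap f)) := by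
    intro h
    have h1 : Nat.card (Sylow p (W.comap f)) ≡ 1 [MOD p] := card_sylow_modEq_one p (W.comap f)
    have h2 : Nat.card (Sylow p (W.comap f)) ≡ 0 [MOD p] := Nat.modEq_zero_iff_dvd.2 h
    have h3 := (Nat.modEq_zero_iff_dvd.1 (h1.symm.trans h2))
    exact hp.one_lt.ne' (Nat.dvd_one.1 h3)
  obtain ⟨S, hS⟩ := hE.nonempty_fixed_point_of_prime_not_dvd_card (Sylow p (W.comap f)) hcard
  let fK : (W.comap f) →* W := f.subgroupComap W
  have hfK : Function.Surjective fK := f.subgroupComap_surjective_of_surjective W hf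
  let P : Subgroup F := (S : Subgroup (W.comap f)).map (W.comap f).subtype
  have hP2 : IsPGroup p P := S.isPGroup'.map _
  have hcov : ∀ w ∈ W, ∃ p ∈ P, f p = w := by
    intro w hw
    have h1 : ((S.mapSurjective hfK : Sylow p W) : Subgroup W) = ⊤ := by
      have h2 : IsPGroup p (⊤ : Subgroup W) := hW.of_equiv Subgroup.topEquiv.symm
      exact ((S.mapSurjective hfK).is_maximal' h2 le_top).symm
    rw [Sylow.coe_mapSurjective] at h1
    have h3 : (⟨w, hw⟩ : W) ∈ (S : Subgroup (W.comap f)).map fK := by rw [h1]; trivial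
    obtain ⟨s, hs, hs'⟩ := h3
    exact ⟨s, ⟨s, hs, rfl⟩, congrArg Subtype.val hs'⟩
  refine ⟨P, hP2, hcov, ?_, ?_, ?_⟩
  · rintro _ ⟨s, _, rfl⟩
    exact s.2
  · intro h
    obtain ⟨g, rfl⟩ := hf h
    have h1 : normalizer (P : Set F) ⊔ W.comap f = ⊤ := Sylow.normalizer_sup_eq_top S
    have h2 : g ∈ normalizer (P : Set F) ⊔ W.comap f := by rw [h1]; trivial
    obtain ⟨n, hn, k, hk, rfl⟩ := Subgroup.mem_sup_of_normal_right.1 h2
    obtain ⟨p, hp, hpk⟩ := hcov (f k) hk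
    exact ⟨n * p, (normalizer (P : Set F)).mul_mem hn (le_normalizer hp), by rw [map_mul, hpk, map_mul]⟩
  · refine mem_normalizer_fintype ?_
    rintro _ ⟨y, hy, rfl⟩
    have h1 : (⟨x, mem_zpowers x⟩ : zpowers x) • S = S := hS ⟨x, mem_zpowers x⟩
    have h2 : (⟨x, mem_zpowers x⟩ : zpowers x) • y ∈
        (((⟨x, mem_zpowers x⟩ : zpowers x) • S : Sylow p (W.comap f)) : Subgroup (W.comap f)) :=
      Subgroup.smul_mem_pointwise_smul y (⟨x, mem_zpowers x⟩ : zpowers x) (S : Subgroup (W.comap f)) hy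
    rw [h1] at h2
    exact ⟨_, h2, hact _ _⟩

end Pool.Agent.Lib.MP_544bd1_al
end

section

/-!
Theorem Z3: minimal odd sections on which an involution acts nontrivially.
-/

namespace Pool.Agent.Lib.MP_544bd1_al

open Subgroup

/-- **Existence of minimal sections.**

Proof. Choose `A` minimal (well-founded `<` on `Subgroup H`) among the `S`-invariant subgroups
`A ≤ A₀` with `∃ x ∈ A, z * x ≠ x * z`. `min` is clear. `⁅A, A⁆` is `S`-invariant and `≠ A`
(`A₀` is solvable and `A ≠ ⊥`), so `z` centralizes it: `cz`. `cl`: let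
`C = {x ∈ A | ∀ c ∈ ⁅A, A⁆, x * c = c * x}`, an `S`-invariant subgroup. If `C ≠ A` then `z`
centralizes `C`. For `x ∈ A` the element `b = x⁻¹ * (z * x * z⁻¹)` is in `C` (for `c ∈ ⁅A, A⁆`,
`(z * x * z⁻¹) * c * (z * x * z⁻¹)⁻¹ = z * (x * (z⁻¹ * c * z) * x⁻¹) * z⁻¹ = x * c * x⁻¹` since `z`
centralizes `⁅A, A⁆ ∋ c, x * c * x⁻¹`), so `z * b * z⁻¹ = b`; but `z * b * z⁻¹ = b⁻¹` (`z ^ 2 = 1`), so
`b ^ 2 = 1`, `b ^ m = 1`, `b = 1` for all `x`: `z` centralizes `A`, contradiction. So `C = A`.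
`r`: by `tw_gen_sylow` (TwS1.lean) for `D := A`, `C := centralizer {z}` there is a prime `r` such
that no Sylow `r`-subgroup `P ≤ A` of `A` (`Nat.card A = Nat.card P * k`, `¬ r ∣ k`) is centralized
by `z`. `A` is nilpotent (class ≤ 2), so it has a normal, hence unique Sylow `r`-subgroup `P`, which
is therefore normalized by `S`; by minimality `P = A`. `r ≠ 2`: otherwise `x ^ (2 ^ k) = 1`,
`x ^ m = 1`, `x = 1` for all `x ∈ A`. -/
theorem zt_minA {m : ℕ} (hm : Odd m) {H : Type} [Group H] [Finite H] (S A₀ : Subgroup H)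
    (hsol : Group.IsSolvable A₀) (hA₀ : ∀ x ∈ A₀, x ^ m = 1)
    (hinv : ∀ s ∈ S, ∀ x ∈ A₀, s * x * s⁻¹ ∈ A₀) {z : H} (hzS : z ∈ S) (hz2 : z ^ 2 = 1)
    (hne : ∃ x ∈ A₀, z * x ≠ x * z) : ∃ (r : ℕ) (A : Subgroup H), A ≤ A₀ ∧ ZMinA m r S A z := by
  classical
  obtain ⟨A, hAmin⟩ := exists_minimal_of_wellFoundedLT
    (fun A : Subgroup H => A ≤ A₀ ∧ (∀ s ∈ S, ∀ x ∈ A, s * x * s⁻¹ ∈ A) ∧ ∃ x ∈ A, z * x ≠ x * z)
    ⟨A₀, le_rfl, hinv, hne⟩
  obtain ⟨⟨hA0, hAS, hAne⟩, hAm⟩ := hAmin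
  have hmin : ∀ B : Subgroup H, B ≤ A → (∀ s ∈ S, ∀ x ∈ B, s * x * s⁻¹ ∈ B) → B ≠ A →
      ∀ x ∈ B, z * x = x * z := by
    intro B hB hBS hBA
    by_contra hcon
    push Not at hcon
    exact hBA (le_antisymm hB (hAm ⟨hB.trans hA0, hBS, hcon⟩ hB))
  have hodd : ∀ x ∈ A, x ^ m = 1 := fun x hx => hA₀ x (hA0 hx)
  have hm2 : ∀ x : H, x ^ m = 1 → x * x = 1 → x = 1 := by
    intro x h1 h2
    obtain ⟨k, hk⟩ := hm
    rw [hk, pow_succ, pow_mul, pow_two, h2, one_pow, one_mul] at h1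
    exact h1
  have hzz : z * z = 1 := by rw [← pow_two, hz2]
  have hAbot : A ≠ ⊥ := by
    rintro rfl
    obtain ⟨x, hx, hx'⟩ := hAne
    rw [mem_bot] at hx
    rw [hx] at hx'
    simp at hx'
  -- the commutator subgroup
  have hsolA : Group.IsSolvable A :=
    Group.isSolvable_of_isSolvable_injective (Subgroup.inclusion_injective hA0)
  have hcomm : ⁅A, A⁆ ≠ A := by
    intro h
    have hnt : Nontrivial A := (Subgroup.nontrivial_iff_ne_bot A).2 hAbot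
    have h1 : _root_.commutator A < ⊤ := Group.IsSolvable.commutator_lt_top_of_nontrivial A
    apply h1.ne
    apply Subgroup.map_injective A.subtype_injective
    rw [Subgroup.map_subtype_commutator, h, ← MonoidHom.range_eq_map, Subgroup.range_subtype]
  have hcomA : ⁅A, A⁆ ≤ A := by
    rw [commutator_le]
    intro x hx y hy
    exact A.mul_mem (A.mul_mem (A.mul_mem hx hy) (A.inv_mem hx)) (A.inv_mem hy)
  have hcomS : ∀ s ∈ S, ∀ x ∈ ⁅A, A⁆, s * x * s⁻¹ ∈ ⁅A, A⁆ := by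
    intro s hs
    have h1 : ⁅A, A⁆ ≤ ⁅A, A⁆.comap (MulAut.conj s).toMonoidHom := by
      rw [commutator_le]
      intro x hx y hy
      rw [mem_comap, map_commutatorElement]
      exact commutator_mem_commutator (hAS s hs x hx) (hAS s hs y hy)
    intro x hx
    exact h1 hx
  have hcz : ∀ x ∈ ⁅A, A⁆, z * x = x * z := hmin _ hcomA hcomS hcomm
  -- the centralizer of the commutators
  let C : Subgroup H :=
    { carrier := {x | x ∈ A ∧ ∀ c ∈ ⁅A, A⁆, x * c = c * x}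
      mul_mem' := by
        rintro x y ⟨h1, h2⟩ ⟨h3, h4⟩
        refine ⟨A.mul_mem h1 h3, ?_⟩
        intro c hc
        rw [mul_assoc, h4 c hc, ← mul_assoc, h2 c hc, mul_assoc]
      one_mem' := ⟨A.one_mem, by simp⟩
      inv_mem' := by
        rintro x ⟨h1, h2⟩
        refine ⟨A.inv_mem h1, ?_⟩
        intro c hc
        have h3 : Commute x c := h2 c hc
        exact h3.inv_left.eq }
  have hCmem : ∀ x, x ∈ C ↔ x ∈ A ∧ ∀ c ∈ ⁅A, A⁆, x * c = c * x := fun x => Iff.rfl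
  have hCA : C ≤ A := fun x hx => hx.1
  have hinvS : ∀ s ∈ S, ∀ x ∈ ⁅A, A⁆, s⁻¹ * x * s ∈ ⁅A, A⁆ := by
    intro s hs x hx
    have h1 := hcomS s⁻¹ (S.inv_mem hs) x hx
    rwa [inv_inv] at h1
  have hCS : ∀ s ∈ S, ∀ x ∈ C, s * x * s⁻¹ ∈ C := by
    intro s hs x hx
    rw [hCmem] at hx ⊢
    refine ⟨hAS s hs x hx.1, ?_⟩
    intro c hc
    have h1 := hx.2 _ (hinvS s hs c hc)
    calc s * x * s⁻¹ * c = s * (x * (s⁻¹ * c * s)) * s⁻¹ := by group
      _ = s * ((s⁻¹ * c * s) * x) * s⁻¹ := by rw [h1]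
      _ = c * (s * x * s⁻¹) := by group
  have hCeq : C = A := by
    by_contra hCne
    have hCz := hmin C hCA hCS hCne
    obtain ⟨x, hx, hx'⟩ := hAne
    apply hx'
    have hb : x⁻¹ * (z * x * z⁻¹) ∈ C := by
      rw [hCmem]
      refine ⟨A.mul_mem (A.inv_mem hx) (hAS z hzS x hx), ?_⟩
      intro c hc
      have hconjA : ∀ g ∈ A, ∀ c ∈ ⁅A, A⁆, g * c * g⁻¹ ∈ ⁅A, A⁆ := by
        intro g hg c hc
        have h1 : g * c * g⁻¹ * c⁻¹ ∈ ⁅A, A⁆ := commutator_mem_commutator hg (hcomA hc)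
        have h2 : g * c * g⁻¹ = g * c * g⁻¹ * c⁻¹ * c := by
          group
        rw [h2]
        exact mul_mem h1 hc
      have h1 := hconjA x hx c hc
      have h2 : z⁻¹ * c * z = c := by
        rw [mul_assoc, ← hcz c hc]
        group
      have h3 : z * (x * c * x⁻¹) * z⁻¹ = x * c * x⁻¹ := by
        rw [hcz _ h1]
        group
      have h4 : (z * x * z⁻¹) * c = x * c * x⁻¹ * (z * x * z⁻¹) := by
        calc (z * x * z⁻¹) * c = z * (x * (z⁻¹ * c * z) * x⁻¹) * z⁻¹ * (z * x * z⁻¹) := by group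
          _ = x * c * x⁻¹ * (z * x * z⁻¹) := by rw [h2, h3]
      calc x⁻¹ * (z * x * z⁻¹) * c = x⁻¹ * ((z * x * z⁻¹) * c) := by group
        _ = x⁻¹ * (x * c * x⁻¹ * (z * x * z⁻¹)) := by rw [h4]
        _ = c * (x⁻¹ * (z * x * z⁻¹)) := by group
    have h1 := hCz _ hb
    have h2 : z * (x⁻¹ * (z * x * z⁻¹)) * z⁻¹ = x⁻¹ * (z * x * z⁻¹) := by
      rw [h1, mul_inv_cancel_right]
    have h3 : z * (x⁻¹ * (z * x * z⁻¹)) * z⁻¹ = (z * x * z⁻¹)⁻¹ * ((z * z) * x * (z * z)⁻¹) := by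
      group
    rw [hzz, one_mul, inv_one, mul_one] at h3
    have h4 : (x⁻¹ * (z * x * z⁻¹)) * (x⁻¹ * (z * x * z⁻¹)) = 1 := by
      nth_rewrite 1 [← h2]
      rw [h3]
      group
    have h5 := hm2 _ (hodd _ hb.1) h4
    have h6 : z * x * z⁻¹ = x := by
      rw [← mul_right_inj x⁻¹, h5, inv_mul_cancel]
    rw [← mul_inv_eq_iff_eq_mul]
    exact h6
  have hcl : ∀ x ∈ A, ∀ c ∈ ⁅A, A⁆, x * c = c * x := by
    intro x hx
    rw [← hCeq] at hx
    exact hx.2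
  -- the prime
  obtain ⟨r, hr, hrP⟩ : ∃ r : ℕ, r.Prime ∧ ∀ P : Subgroup H, P ≤ A →
      (∃ k, Nat.card A = Nat.card P * k ∧ ¬ r ∣ k) → ∃ x ∈ P, z * x ≠ x * z := by
    by_contra hcon
    push Not at hcon
    have h1 : A ≤ centralizer ({z} : Set H) := by
      apply tw_gen_sylow
      intro s hs
      obtain ⟨P, hP, hk, hx⟩ := hcon s hs
      refine ⟨P, hP, ?_, hk⟩
      intro x hxP
      rw [mem_centralizer_iff]
      intro w hw
      rw [Set.mem_singleton_iff] at hw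
      rw [hw]
      exact hx x hxP
    obtain ⟨x, hx, hx'⟩ := hAne
    exact hx' ((mem_centralizer_iff.1 (h1 hx)) z rfl)
  have hnil : Group.IsNilpotent A := by
    apply Subgroup.isNilpotent_of_ker_le_center (Abelianization.of (G := A))
    rw [Abelianization.ker_of, _root_.commutator_def, commutator_le]
    intro x _ y _
    rw [mem_center_iff]
    intro g
    apply Subtype.ext
    exact hcl g g.2 _ (commutator_mem_commutator x.2 y.2)
  have hrf : Fact r.Prime := ⟨hr⟩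
  obtain ⟨P⟩ : Nonempty (Sylow r A) := inferInstance
  have hPn : (P : Subgroup A).Normal := inferInstance
  have hPu : ∀ x : A, (∃ k : ℕ, x ^ (r ^ k) = 1) → x ∈ (P : Subgroup A) := by
    rintro x ⟨k, hk⟩
    have h1 : IsPGroup r (zpowers x) := by
      intro y
      refine ⟨k, ?_⟩
      obtain ⟨n, hn⟩ := mem_zpowers_iff.1 y.2
      apply Subtype.ext
      rw [Subgroup.coe_pow, ← hn, ← zpow_natCast, ← zpow_mul, mul_comm, zpow_mul, zpow_natCast, hk,
        one_zpow, Subgroup.coe_one]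
    obtain ⟨Q, hQ⟩ := h1.exists_le_sylow
    have hun := Sylow.unique_of_normal P hPn
    have h2 : Q = P := Subsingleton.elim _ _
    rw [← h2]
    exact hQ (mem_zpowers x)
  have hPA : (P : Subgroup A).map A.subtype = A := by
    by_contra hPne
    have h1 : (P : Subgroup A).map A.subtype ≤ A := by
      rintro _ ⟨y, -, rfl⟩
      exact y.2
    obtain ⟨x, hx, hx'⟩ := hrP _ h1 ⟨(P : Subgroup A).index, by
      rw [Subgroup.card_map_of_injective A.subtype_injective]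
      exact (Subgroup.card_mul_index _).symm, P.not_dvd_index⟩
    apply hx'
    apply hmin _ h1 _ hPne x hx
    rintro s hs _ ⟨y, hy, rfl⟩
    refine ⟨⟨s * y * s⁻¹, hAS s hs y y.2⟩, ?_, rfl⟩
    apply hPu
    obtain ⟨k, hk⟩ := P.isPGroup' ⟨y, hy⟩
    refine ⟨k, ?_⟩
    have h3 : y ^ (r ^ k) = 1 := congrArg Subtype.val hk
    apply Subtype.ext
    rw [Subgroup.coe_pow, conj_pow, ← Subgroup.coe_pow, h3]
    simp
  have hpg : IsPGroup r A := by
    have h1 := P.isPGroup'.map A.subtype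
    rw [hPA] at h1
    exact h1
  refine ⟨r, A, hA0, hodd, hr, ?_, hpg, hAS, hAne, hmin, ?_, ?_⟩
  · rintro rfl
    obtain ⟨x, hx, hx'⟩ := hAne
    apply hx'
    obtain ⟨k, hk⟩ := hpg ⟨x, hx⟩
    have h1 : x ^ (2 ^ k) = 1 := congrArg Subtype.val hk
    have h2 : x = 1 := by
      apply tw_one (M := m) (P := 2 ^ k) _ (hodd x hx) h1
      exact Nat.Coprime.pow_right k (Nat.coprime_two_right.2 hm)
    rw [h2]
    simp
  · intro x hx y hy w hw
    exact (hcl w hw _ (commutator_mem_commutator hx hy)).symm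
  · intro x hx y hy
    exact hcz _ (commutator_mem_commutator hx hy)

/-- if `O_2(H) = 1` an involution acts nontrivially on `O_{2'}(H)` (`fr_fitting` with `k := m`,
`l := 2 ^ a`; then `z ∈ krad m H`, `z ^ m = 1`, `z = 1`) -/
theorem zt_krad_ne {m a : ℕ} (hm : Odd m) {H : Type} [Group H] [Finite H]
    (hsol : Group.IsSolvable H) (hexp : ∀ x : H, x ^ (m * 2 ^ a) = 1) (hbot : krad (2 ^ a) H = ⊥)
    {z : H} (hz2 : z ^ 2 = 1) (hz1 : z ≠ 1) : ∃ x ∈ krad m H, z * x ≠ x * z := by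
  by_contra hcon
  push Not at hcon
  have h1 := fr_fitting (zt_cop hm a) hm.pos (pow_pos two_pos a) hsol hexp hbot hcon
  have h2 := tw_krad_pow (zt_cop hm a) hexp z h1
  exact hz1 (fr_one_two hm h2 hz2)

/-- minimal sections in a group with `O_2(H) = 1` -/
theorem zt_minH {m a : ℕ} (hm : Odd m) {H : Type} [Group H] [Finite H]
    (hsol : Group.IsSolvable H) (hexp : ∀ x : H, x ^ (m * 2 ^ a) = 1) (hbot : krad (2 ^ a) H = ⊥)
    (S : Subgroup H) {z : H} (hzS : z ∈ S) (hz2 : z ^ 2 = 1) (hz1 : z ≠ 1) :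
    ∃ (r : ℕ) (A : Subgroup H), ZMinA m r S A z := by
  haveI := hsol
  have hs : Group.IsSolvable (krad m H) := inferInstance
  obtain ⟨r, A, -, h⟩ := zt_minA hm S (krad m H) hs (tw_krad_pow (zt_cop hm a) hexp)
    (fun s _ x hx => (krad_normal m H).conj_mem x hx s) hzS hz2
    (zt_krad_ne hm hsol hexp hbot hz2 hz1)
  exact ⟨r, A, h⟩

end Pool.Agent.Lib.MP_544bd1_al
end

section

/-!
Theorem Z3: the A x B lemma.
-/

namespace Pool.Agent.Lib.MP_544bd1_al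

open Subgroup

variable {G : Type} [Group G] {m : ℕ}

/-- in a finite 2-group `P` normalized by a 2-element `x`, `P ≠ ⊥`, the subgroup `⁅P, zpowers x⁆` is proper -/
private theorem zt_comm_proper {a : ℕ} (P : Subgroup G) [Finite P] (hP : ∀ x ∈ P, x ^ (2 ^ a) = 1) {x : G}
    (hx : x ^ (2 ^ a) = 1) (hn : ∀ p ∈ P, x * p * x⁻¹ ∈ P) (hne : P ≠ ⊥) :
    ⁅P, zpowers x⁆ ≠ P := by
  classical
  intro heq
  apply hne
  have hpos : 0 < 2 ^ a := by positivity
  have hz := fr_comm_proper_zn hpos hx hn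
  -- the subgroup `P * zpowers x`
  let T : Subgroup G :=
    { carrier := {g | ∃ z ∈ zpowers x, g * z⁻¹ ∈ P}
      one_mem' := ⟨1, (zpowers x).one_mem, by simp [P.one_mem]⟩
      mul_mem' := by
        rintro a b ⟨y, hy, hay⟩ ⟨z, hz', hbz⟩
        refine ⟨y * z, (zpowers x).mul_mem hy hz', ?_⟩
        have h1 : a * b * (y * z)⁻¹ = (a * y⁻¹) * (y * (b * z⁻¹) * y⁻¹) := by group
        rw [h1]
        exact P.mul_mem hay (hz y hy _ hbz)
      inv_mem' := by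
        rintro a ⟨y, hy, hay⟩
        refine ⟨y⁻¹, (zpowers x).inv_mem hy, ?_⟩
        have h1 : a⁻¹ * (y⁻¹)⁻¹ = y⁻¹ * (a * y⁻¹)⁻¹ * (y⁻¹)⁻¹ := by group
        rw [h1]
        exact hz _ ((zpowers x).inv_mem hy) _ (P.inv_mem hay) }
  have hPT : P ≤ T := fun p hp => ⟨1, (zpowers x).one_mem, by simpa using hp⟩
  have hxT : zpowers x ≤ T := fun z hz' => ⟨z, hz', by simp [P.one_mem]⟩
  have hfo : IsOfFinOrder x := isOfFinOrder_iff_pow_eq_one.2 ⟨2 ^ a, hpos, hx⟩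
  have hfz : Finite (zpowers x) := by
    exact finite_zpowers.2 hfo
  have hTfin : (T : Set G).Finite := by
    have h1 : ((P : Set G) ×ˢ (zpowers x : Set G)).Finite :=
      (Set.toFinite (P : Set G)).prod (Set.toFinite (zpowers x : Set G))
    refine (h1.image (fun q : G × G => q.1 * q.2)).subset ?_
    rintro g ⟨z, hz', hg⟩
    exact ⟨(g * z⁻¹, z), ⟨hg, hz'⟩, by simp⟩
  have hTf : Finite T := hTfin
  have hT16 : ∀ g ∈ T, g ^ (2 ^ (a + a)) = 1 := by
    rintro g ⟨z, hz', hg⟩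
    have key : ∀ j : ℕ, g ^ j * (z ^ j)⁻¹ ∈ P := by
      intro j
      induction j with
      | zero => simp [P.one_mem]
      | succ j ih =>
        have h1 : g ^ (j + 1) * (z ^ (j + 1))⁻¹
            = (g * z⁻¹) * (z * (g ^ j * (z ^ j)⁻¹) * z⁻¹) := by
          rw [pow_succ' g, pow_succ' z]; group
        rw [h1]
        exact P.mul_mem hg (hz z hz' _ ih)
    have hz4 : z ^ (2 ^ a) = 1 := by
      obtain ⟨k, rfl⟩ := hz'
      rw [← zpow_natCast, ← zpow_mul, mul_comm, zpow_mul, zpow_natCast, hx, one_zpow]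
    have h1 := hP _ (key (2 ^ a))
    rw [hz4, inv_one, mul_one, ← pow_mul, ← pow_add] at h1
    exact h1
  have hTp : IsPGroup 2 T := by
    intro g
    refine ⟨a + a, ?_⟩
    apply Subtype.ext
    have := hT16 g g.2
    simpa using this
  have : Fact (Nat.Prime 2) := ⟨Nat.prime_two⟩
  have hnil : Group.IsNilpotent T := hTp.isNilpotent
  set N : Subgroup T := P.subgroupOf T with hN
  set Z : Subgroup T := (zpowers x).subgroupOf T with hZ
  have hNZ : ⁅N, Z⁆ = N := by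
    apply Subgroup.map_injective T.subtype_injective
    rw [Subgroup.map_commutator, hN, hZ, Subgroup.map_subgroupOf_eq_of_le hPT,
      Subgroup.map_subgroupOf_eq_of_le hxT, heq]
  have hlow : ∀ k : ℕ, N ≤ (⊤ : Subgroup T).lowerCentralSeries k := by
    intro k
    induction k with
    | zero => exact le_top
    | succ k ih =>
      rw [← hNZ]
      exact Subgroup.commutator_mono ih le_top
  have hNbot : N = ⊥ := by
    obtain ⟨k, hk⟩ := Subgroup.nilpotent_iff_lowerCentralSeries.1 hnil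
    rw [eq_bot_iff, ← hk]
    exact hlow _
  rw [hN, Subgroup.subgroupOf_eq_bot, disjoint_iff] at hNbot
  rw [← hNbot]
  exact (inf_eq_left.2 hPT).symm

/-- the A x B lemma for a 2-element and a commuting odd element -/
private theorem zt_AB_aux {a : ℕ} (hm : Odd m) (P : Subgroup G) [Finite P]
    (hP : ∀ x ∈ P, x ^ (2 ^ a) = 1) {x s : G}
    (hx : x ^ (2 ^ a) = 1) (hs : s ^ m = 1) (hxs : x * s = s * x) (hnx : ∀ p ∈ P, x * p * x⁻¹ ∈ P)
    (hns : ∀ p ∈ P, s * p * s⁻¹ ∈ P) (h : ∀ p ∈ P, x * p = p * x → s * p = p * s) :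
    ∀ p ∈ P, s * p = p * s := by
  have hmpos : 0 < m := by
    obtain ⟨k, hk⟩ := hm
    omega
  have hpos : 0 < 2 ^ a := by positivity
  have hcxs : Commute x s := hxs
  have main : ∀ n : ℕ, ∀ Q : Subgroup G, Q ≤ P → Nat.card Q ≤ n →
      (∀ q ∈ Q, x * q * x⁻¹ ∈ Q) → (∀ q ∈ Q, s * q * s⁻¹ ∈ Q) → ∀ q ∈ Q, s * q = q * s := by
    intro n
    induction n with
    | zero =>
      intro Q hQ hc
      have : Finite Q := Finite.of_injective _ (Subgroup.inclusion_injective hQ)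
      have := Nat.card_pos (α := Q)
      omega
    | succ n ih =>
      intro Q hQ hc hQx hQs
      have : Finite Q := Finite.of_injective _ (Subgroup.inclusion_injective hQ)
      have hQ4 : ∀ q ∈ Q, q ^ (2 ^ a) = 1 := fun q hq => hP q (hQ hq)
      -- a proper subgroup has smaller cardinality
      have hlt : ∀ D : Subgroup G, D ≤ Q → D ≠ Q → Nat.card D ≤ n := by
        intro D hD hDQ
        have h1 : Nat.card D < Nat.card Q := by
          apply Set.ncard_lt_ncard _ (Set.toFinite (Q : Set G))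
          exact lt_of_le_of_ne hD (fun h => hDQ (SetLike.coe_injective h))
        omega
      have hxz : ∀ z ∈ zpowers s, x * z * x⁻¹ ∈ zpowers s := by
        rintro z ⟨k, rfl⟩
        have h1 : x * s ^ k * x⁻¹ = s ^ k := by
          rw [(hcxs.zpow_right k).eq]; group
        rw [h1]
        exact ⟨k, rfl⟩
      have hsz : ∀ z ∈ zpowers s, s * z * s⁻¹ ∈ zpowers s := by
        rintro z ⟨k, rfl⟩
        have h1 : s * s ^ k * s⁻¹ = s ^ k := by group
        rw [h1]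
        exact ⟨k, rfl⟩
      have hxz' : ∀ z ∈ zpowers x, x * z * x⁻¹ ∈ zpowers x := by
        rintro z ⟨k, rfl⟩
        have h1 : x * x ^ k * x⁻¹ = x ^ k := by group
        rw [h1]
        exact ⟨k, rfl⟩
      have hsz' : ∀ z ∈ zpowers x, s * z * s⁻¹ ∈ zpowers x := by
        rintro z ⟨k, rfl⟩
        have h1 : s * x ^ k * s⁻¹ = x ^ k := by
          rw [(hcxs.symm.zpow_right k).eq]; group
        rw [h1]
        exact ⟨k, rfl⟩
      have hQzs := fr_comm_proper_zn hmpos hs hQs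
      have hQzx := fr_comm_proper_zn hpos hx hQx
      have hle : ∀ Z : Subgroup G, (∀ z ∈ Z, ∀ q ∈ Q, z * q * z⁻¹ ∈ Q) → ⁅Q, Z⁆ ≤ Q := by
        intro Z hZ
        rw [Subgroup.commutator_le]
        intro q hq z hz
        rw [commutatorElement_def]
        have h1 : q * z * q⁻¹ * z⁻¹ = q * (z * q⁻¹ * z⁻¹) := by group
        rw [h1]
        exact Q.mul_mem hq (hZ z hz _ (Q.inv_mem hq))
      by_cases hD : ⁅Q, zpowers s⁆ = Q
      · by_cases hbot : Q = ⊥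
        · intro q hq
          rw [hbot, mem_bot] at hq
          rw [hq, mul_one, one_mul]
        · have hR : ⁅Q, zpowers x⁆ ≠ Q := zt_comm_proper Q hQ4 hx hQx hbot
          have hRQ := hle (zpowers x) hQzx
          have hRs := ih ⁅Q, zpowers x⁆ (hRQ.trans hQ) (hlt _ hRQ hR)
            (fr_comm_proper_norm hQx hxz') (fr_comm_proper_norm hQs hsz')
          have h1 : ⁅⁅Q, zpowers x⁆, zpowers s⁆ = ⊥ := by
            rw [Subgroup.commutator_eq_bot_iff_le_centralizer]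
            intro r hr
            rw [Subgroup.mem_centralizer_iff]
            rintro _ ⟨k, rfl⟩
            exact ((show Commute s r from hRs r hr).zpow_left k).eq
          have h2 : ⁅⁅zpowers x, zpowers s⁆, Q⁆ = ⊥ := by
            have h3 : ⁅zpowers x, zpowers s⁆ = ⊥ := by
              rw [Subgroup.commutator_eq_bot_iff_le_centralizer]
              rintro _ ⟨k, rfl⟩
              rw [Subgroup.mem_centralizer_iff]
              rintro _ ⟨l, rfl⟩
              exact ((hcxs.symm.zpow_left l).zpow_right k).eq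
            rw [h3, Subgroup.commutator_bot_left]
          have h3 : ⁅⁅zpowers s, Q⁆, zpowers x⁆ = ⊥ := by
            apply Subgroup.commutator_commutator_eq_bot_of_rotate
            · exact h1
            · exact h2
          rw [Subgroup.commutator_comm (zpowers s) Q, hD,
            Subgroup.commutator_eq_bot_iff_le_centralizer] at h3
          intro q hq
          apply h q (hQ hq)
          have h4 := h3 hq
          rw [Subgroup.mem_centralizer_iff] at h4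
          exact h4 x (mem_zpowers x)
      · have hDQ := hle (zpowers s) hQzs
        have hDs := ih ⁅Q, zpowers s⁆ (hDQ.trans hQ) (hlt _ hDQ hD)
          (fr_comm_proper_norm hQx hxz) (fr_comm_proper_norm hQs hsz)
        apply tw_coprime_trivial (zt_cop hm a) Q hQ4 hs hQs
        intro y hy
        apply hDs
        have h1 := Subgroup.commutator_mem_commutator (Q.inv_mem hy) (mem_zpowers s)
        rw [commutatorElement_def] at h1
        have h2 : y⁻¹ * (s * y * s⁻¹) = y⁻¹ * s * (y⁻¹)⁻¹ * s⁻¹ := by group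
        rw [h2]
        exact h1
  exact main (Nat.card P) P le_rfl le_rfl hnx hns

/-- **Thompson's A x B lemma in the form needed**: `x` a 2-element, `s` odd commuting with `x`; if `s`
is in `O_{2'}` of the centralizer of `x` in the finite solvable group `T`, then it is in `O_{2'}(T)`.

Proof. Compare `fr_detect` (FrJ.lean; there `x ^ 2 = 1`) and `fr_AB` (FrE.lean). In `T₁ = T ⧸ krad m T`
let `W = krad (2 ^ a) T₁` (a 2-group). The image `s₁` of `s` commutes with the image `x₁` of `x`.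
(1) If `w ∈ W` commutes with `x₁` then `w` commutes with `s₁`: `w` lifts to an element `g ∈ T`
commuting with `x` (coprime action of the 2-element `x` on `krad m T`: `tw_coset_fix` in TwR4.lean),
`g ∈ C_T(x)` (as `N ⊲ C_T(x)`, `s ∈ N` odd normal subgroup of `C_T(x)`): `s⁻¹ * (g⁻¹ * s * g)` is odd,
its image `s₁⁻¹ * (w⁻¹ * s₁ * w)` is in `W` and odd, so it is `1`.
(2) Thompson's A x B lemma: `x₁` and `s₁` commute, normalize the 2-group `W`, and `s₁` centralizes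
`C_W(x₁)`; then `s₁` centralizes `W`. Proof by induction on `Nat.card W'` for `x₁, s₁`-invariant
subgroups `W' ≤ W`: if `W' ≠ ⊥`, `x₁` (a 2-element acting on the 2-group `W'`):
`D = ⁅W', zpowers x₁⁆ ≠ W'` (compare `fr_comm_proper` in FrE.lean) is `x₁`-, `s₁`-invariant, so
`s₁` centralizes `D`. For `w ∈ W'`: `d = x₁ * w * x₁⁻¹ * w⁻¹ ∈ D` commutes with `s₁`; let
`v = w⁻¹ * (s₁ * w * s₁⁻¹) ∈ W'`; then `x₁ * v * x₁⁻¹ = v` (`x₁ * w * x₁⁻¹ = d * w`, so
`x₁ * v * x₁⁻¹ = w⁻¹ * d⁻¹ * (s₁ * d * w * s₁⁻¹) = w⁻¹ * (s₁ * w * s₁⁻¹)`), so `s₁` commutes with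
`v`; `tw_coprime_trivial` (TwS3.lean): `s₁` centralizes `W'`.
(3) `fr_fitting` (`k := 2 ^ a`, `l := m`, `krad m T₁ = ⊥`): `s₁ ∈ W`, so `s₁ = 1` and
`s ∈ krad m T` (`tw_mem_krad_iff`). -/
theorem zt_AxB {m a : ℕ} (hm : Odd m) {F : Type} [Group F] [Finite F]
    (hsol : Group.IsSolvable F) (hexp : ∀ x : F, x ^ (m * 2 ^ a) = 1) {x s : F}
    (hx : x ^ (2 ^ a) = 1) (hs : s ^ m = 1) (hxs : x * s = s * x)
    (h : InO m (centralizer {x}) s) : InO m (⊤ : Subgroup F) s := by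
  have hcop := zt_cop hm a
  have hmpos : 0 < m := by
    obtain ⟨k, hk⟩ := hm
    omega
  rw [← tw_mem_krad_iff hcop hexp]
  have hexp₁ : ∀ y : F ⧸ krad m F, y ^ (m * 2 ^ a) = 1 := tw_exp_quot hexp _
  have hWp : ∀ w ∈ krad (2 ^ a) (F ⧸ krad m F), w ^ (2 ^ a) = 1 :=
    tw_krad_pow hcop.symm (tw_exp_comm hexp₁)
  have hkp : ∀ y ∈ krad m F, y ^ m = 1 := tw_krad_pow hcop hexp
  have hcard : ¬ 2 ∣ Nat.card (krad m F) := by
    intro h2
    have : Fact (Nat.Prime 2) := ⟨Nat.prime_two⟩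
    obtain ⟨y, hy⟩ := exists_prime_orderOf_dvd_card' (G := krad m F) 2 h2
    have h3 : y ^ m = 1 := Subtype.ext (by simpa using hkp y y.2)
    have h4 : 2 ∣ m := by
      rw [← hy]
      exact orderOf_dvd_of_pow_eq_one h3
    exact (Nat.not_even_iff_odd.2 hm) (even_iff_two_dvd.2 h4)
  let f := QuotientGroup.mk' (krad m F)
  have hfs : (f s) ^ m = 1 := by rw [← map_pow, hs, map_one]
  have hfx : (f x) ^ (2 ^ a) = 1 := by rw [← map_pow, hx, map_one]
  have hcent : ∀ p ∈ krad (2 ^ a) (F ⧸ krad m F), f s * p = p * f s := by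
    apply zt_AB_aux hm (krad (2 ^ a) (F ⧸ krad m F)) hWp hfx hfs
      (by rw [← map_mul, hxs, map_mul]) (fun p hp => (krad_normal (2 ^ a) _).conj_mem p hp _)
      (fun p hp => (krad_normal (2 ^ a) _).conj_mem p hp _)
    intro w hw hxw
    obtain ⟨g, hg⟩ := QuotientGroup.mk'_surjective (krad m F) w
    have hgN : g⁻¹ * (x * g * x⁻¹) ∈ krad m F := by
      rw [← QuotientGroup.eq_one_iff]
      show f (g⁻¹ * (x * g * x⁻¹)) = 1
      rw [map_mul, map_mul, map_mul, map_inv, map_inv]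
      have h1 : f g = w := hg
      rw [h1, hxw]
      group
    obtain ⟨y, hy1, hy2⟩ := tw_coset_fix Nat.prime_two hx (krad m F) hcard
      (fun z hz => (krad_normal m F).conj_mem z hz x) hgN
    have hyw : f y = w := by
      have h1 : f (g⁻¹ * y) = 1 := (QuotientGroup.eq_one_iff _).2 hy1
      rw [map_mul, map_inv, inv_mul_eq_one] at h1
      rw [← h1]
      exact hg
    have hyC : y ∈ centralizer {x} := by
      rw [mem_centralizer_singleton_iff]
      exact hy2.symm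
    have h2 : ((f s)⁻¹ * (w⁻¹ * f s * w)) ^ m = 1 := by
      rw [← hyw, ← map_inv, ← map_inv, ← map_mul, ← map_mul, ← map_mul, ← map_pow, h.comm_odd hyC,
        map_one]
    have h3 : (f s)⁻¹ * (w⁻¹ * f s * w) ∈ krad (2 ^ a) (F ⧸ krad m F) := by
      have h4 := (krad_normal (2 ^ a) (F ⧸ krad m F)).conj_mem w⁻¹ (inv_mem hw) (f s)⁻¹
      have h5 := mul_mem h4 hw
      have h6 : (f s)⁻¹ * w⁻¹ * (f s)⁻¹⁻¹ * w = (f s)⁻¹ * (w⁻¹ * f s * w) := by group
      rwa [h6] at h5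
    have h7 := tw_one hcop h2 (hWp _ h3)
    have h8 : w⁻¹ * f s * w = f s := (inv_mul_eq_one.1 h7).symm
    calc f s * w = w * (w⁻¹ * f s * w) := by group
      _ = w * f s := by rw [h8]
  have hsol₁ : Group.IsSolvable (F ⧸ krad m F) :=
    Group.isSolvable_of_surjective (QuotientGroup.mk'_surjective (krad m F))
  have h9 := fr_fitting hcop.symm (by positivity) hmpos hsol₁ (tw_exp_comm hexp₁)
    (tw_krad_quot hcop hexp) hcent
  have h10 : f s = 1 := tw_one hcop hfs (hWp _ h9)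
  exact (QuotientGroup.eq_one_iff _).1 h10

end Pool.Agent.Lib.MP_544bd1_al
end

section

/-!
Theorem G' (paper 275): case (U): structure.
-/

namespace Pool.Agent.Lib.MP_544bd1_al

open Subgroup

variable {M r b c : ℕ} {F : Type} [Group F] [Finite F]

/-- the elements acting trivially on `Q ⧸ Q₁` -/
private def gpu_T {M P : ℕ} {F : Type} [Group F] {Q Q₁ : Subgroup F} (DQ : GpQ M P r Q Q₁) : Subgroup F where
  carrier := {g | ∀ q ∈ Q, g * q * g⁻¹ * q⁻¹ ∈ Q₁}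
  one_mem' := by
    intro q _
    rw [one_mul, inv_one, mul_one, mul_inv_cancel]
    exact Q₁.one_mem
  mul_mem' := by
    intro x y hx hy q hq
    have h1 := DQ.nQ₁.conj_mem _ (hy q hq) x
    have h2 := Q₁.mul_mem h1 (hx q hq)
    have h3 : x * (y * q * y⁻¹ * q⁻¹) * x⁻¹ * (x * q * x⁻¹ * q⁻¹) = x * y * q * (x * y)⁻¹ * q⁻¹ := by group
    rwa [h3] at h2
  inv_mem' := by
    intro x hx q hq
    have h1 := hx (x⁻¹ * q * x) (by
      have h2 := DQ.nQ.conj_mem q hq x⁻¹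
      rwa [inv_inv] at h2)
    have h3 := Q₁.inv_mem h1
    have h4 := DQ.nQ₁.conj_mem _ h3 x⁻¹
    have h5 : (x * (x⁻¹ * q * x) * x⁻¹ * (x⁻¹ * q * x)⁻¹)⁻¹ = x⁻¹ * q * x * q⁻¹ := by group
    rw [h5] at h3
    rwa [inv_inv]

private theorem gpu_T_mem {M P : ℕ} {F : Type} [Group F] {Q Q₁ : Subgroup F} (DQ : GpQ M P r Q Q₁) {g : F} :
    g ∈ gpu_T DQ ↔ ∀ q ∈ Q, g * q * g⁻¹ * q⁻¹ ∈ Q₁ := Iff.rfl

private theorem gpu_T_normal {M P : ℕ} {F : Type} [Group F] {Q Q₁ : Subgroup F} (DQ : GpQ M P r Q Q₁) :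
    (gpu_T DQ).Normal := by
  refine ⟨fun g hg t q hq => ?_⟩
  have h1 := hg (t⁻¹ * q * t) (by
    have h2 := DQ.nQ.conj_mem q hq t⁻¹
    rwa [inv_inv] at h2)
  have h2 := DQ.nQ₁.conj_mem _ h1 t
  have h3 : t * (g * (t⁻¹ * q * t) * g⁻¹ * (t⁻¹ * q * t)⁻¹) * t⁻¹ =
      t * g * t⁻¹ * q * (t * g * t⁻¹)⁻¹ * q⁻¹ := by group
  rwa [h3] at h2

/-- some `M`-element does not act trivially -/
private theorem gpu_contra (D : GpMin M r b c F) {h : F} (hB : GpB M r b c h) {Q Q₁ : Subgroup F}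
    (DQ : GpQ M (r ^ b) r Q Q₁)
    (hK : ∀ x : F, gp M (r ^ b) F x ∈ krad M (GH M (r ^ b) F) →
      ∃ t : F, (∀ q ∈ Q, t * q * t⁻¹ * q⁻¹ ∈ Q₁) ∧ gp M (r ^ b) F t = gp M (r ^ b) F x) : False := by
  obtain ⟨g, hg, x, hx, hgx⟩ := DQ.nontriv
  obtain ⟨t, ht, htg⟩ := hK g ((gp_M D hB).2 g hg)
  have h1 : gp M (r ^ b) F (t⁻¹ * g) = 1 := by
    rw [map_mul, map_inv, htg, inv_mul_cancel]
  have h2 : t⁻¹ * g ∈ gpu_T DQ := (gpu_T_mem DQ).2 (DQ.triv _ h1)
  have h3 := (gpu_T DQ).mul_mem ((gpu_T_mem DQ).2 ht) h2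
  rw [mul_inv_cancel_left] at h3
  exact hgx ((gpu_T_mem DQ).1 h3 x hx)

/-- powers modulo a normal subgroup -/
private theorem gpu_pow {G : Type} [Group G] {N : Subgroup G} (hN : N.Normal) {x y : G} (hx : x ∈ N)
    (k : ℕ) : (x * y) ^ k * (y ^ k)⁻¹ ∈ N := by
  induction k with
  | zero => simp [N.one_mem]
  | succ k ih =>
    have h6 := N.mul_mem hx (hN.conj_mem _ ih y)
    have h7 : x * (y * ((x * y) ^ k * (y ^ k)⁻¹) * y⁻¹) = (x * y) ^ (k + 1) * (y ^ (k + 1))⁻¹ := by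
      rw [pow_succ' (x * y), pow_succ' y k, mul_inv_rev]
      group
    rw [← h7]
    exact h6

private theorem gpu_b (D : GpMin M r b c F) : 0 < b := lt_of_lt_of_le D.hc D.hcb

private theorem gpu_Qexp (D : GpMin M r b c F) {Q Q₁ : Subgroup F}
    (DQ : GpQ M (r ^ b) r Q Q₁) {x : F} (hx : x ∈ Q) : x ^ (r ^ b) = 1 := by
  obtain ⟨k, hk⟩ := Nat.exists_eq_succ_of_ne_zero (gpu_b D).ne'
  rw [hk, Nat.succ_eq_add_one, pow_succ', pow_mul, DQ.exp _ hx, one_pow]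

private theorem gpu_hexp (D : GpMin M r b c F) {h : F} (hB : GpB M r b c h) (i : ℕ) :
    (h ^ i) ^ (r ^ b) = 1 := by
  obtain ⟨k, hk⟩ := Nat.exists_eq_add_of_le D.hcb
  rw [hk, pow_add, ← pow_mul, mul_comm, mul_assoc, pow_mul, hB.1, one_pow]

/-- the crucial step of `gp_U0` -/
private theorem gpu_krad (D : GpMin M r b c F) {h : F} (hB : GpB M r b c h)
    (N₀ : Subgroup (GH M (r ^ b) F)) (hN : N₀.Normal)
    (hle : N₀ ≤ krad M (GH M (r ^ b) F))
    (hc' : ∀ x ∈ krad M (GH M (r ^ b) F), gp M (r ^ b) F (h ^ (r ^ (c - 1))) * x *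
      (gp M (r ^ b) F (h ^ (r ^ (c - 1))))⁻¹ * x⁻¹ ∈ N₀) : krad M (GH M (r ^ b) F) ≤ N₀ := by
  have hcop := D.cop
  have hexpH : ∀ x : GH M (r ^ b) F, x ^ (M * r ^ b) = 1 := gp_exp D.hexp
  have hkp := tw_krad_pow hcop hexpH
  obtain ⟨z, hz⟩ : ∃ z, z = gp M (r ^ b) F (h ^ (r ^ (c - 1))) := ⟨_, rfl⟩
  have hzr : z ^ (r ^ b) = 1 := by
    rw [hz, ← map_pow, gpu_hexp D hB, map_one]
  rw [← hz] at hc'
  obtain ⟨y, hy, hzy⟩ : ∃ y ∈ N₀, z * y ≠ y * z := by
    by_contra hcon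
    push Not at hcon
    obtain ⟨g, -, hg1, hg2⟩ := gp_g0 D hB
    apply hg2
    rw [map_mul, map_mul, ← hz]
    refine tw_coprime_trivial hcop.symm (krad M (GH M (r ^ b) F)) hkp hzr
      (fun x hx => (krad_normal M _).conj_mem x hx z) (fun x hx => ?_) _ hg1
    apply hcon
    have h1 := hN.conj_mem _ (hc' x hx) x⁻¹
    have h2 : x⁻¹ * (z * x * z⁻¹ * x⁻¹) * x⁻¹⁻¹ = x⁻¹ * (z * x * z⁻¹) := by group
    rwa [h2] at h1
  obtain ⟨g', hg'⟩ := gp_surj (M := M) (P := r ^ b) y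
  have hY : N₀ ⊔ zpowers (gp M (r ^ b) F h) = ⊤ := by
    refine gp_cover D hB (g := g') (by rw [hg']; exact hle hy) ?_ _ ?_ ?_
    · rw [map_mul, map_mul, hg', ← hz]
      exact hzy
    · exact (le_sup_right : _ ≤ N₀ ⊔ zpowers (gp M (r ^ b) F h)) (mem_zpowers _)
    · rw [map_mul, map_mul, map_inv, hg']
      have h1 : y ∈ N₀ ⊔ zpowers (gp M (r ^ b) F h) := (le_sup_left : N₀ ≤ _) hy
      have h2 : gp M (r ^ b) F h ∈ N₀ ⊔ zpowers (gp M (r ^ b) F h) :=
        (le_sup_right : _ ≤ N₀ ⊔ zpowers (gp M (r ^ b) F h)) (mem_zpowers _)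
      exact mul_mem (mul_mem (inv_mem h1) h2) h1
  intro x hx
  have hx' : x ∈ N₀ ⊔ zpowers (gp M (r ^ b) F h) := by rw [hY]; trivial
  rw [← SetLike.mem_coe, Subgroup.normal_mul] at hx'
  obtain ⟨t, ht, d, ⟨i, hi⟩, htd⟩ := hx'
  have htd' : t * d = x := htd
  have hd : d ^ (r ^ b) = 1 := by
    have h1 : (gp M (r ^ b) F h) ^ (r ^ b) = 1 := by
      have h2 := gpu_hexp D hB 1
      rw [pow_one] at h2
      rw [← map_pow, h2, map_one]
    have hi' : (gp M (r ^ b) F h) ^ i = d := hi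
    rw [← hi', ← zpow_natCast, ← zpow_mul, mul_comm, zpow_mul, zpow_natCast, h1, one_zpow]
  have h2 := gpu_pow hN (y := d) ht (r ^ b)
  rw [htd', hd, inv_one, mul_one] at h2
  exact tw_mem_of_pow hcop (hkp x hx) h2

/-- **Case (U) of Section 2 of paper 275: `F = Q S ⟨h⟩`.**

Proof. `X = {q * s * h ^ i}` is a subgroup (`Q` normal, `S` normalized by `h`; `F` finite). Suppose
`X ≠ ⊤`. `D.min X`: `InOP M (r ^ b) X h₁`, `h₁ = h ^ (r ^ (c - 1))`, with `N, K`. `K` (exponent `M`)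
centralizes `Q` (exponent `r ^ b`, both normalized by `X`; `k * q * k⁻¹ * q⁻¹ ∈ K ⊓ Q = ⊥`). For
`s ∈ S`: `e = h₁ * s * h₁⁻¹ * s⁻¹ ∈ S ⊓ N`, so `e ∈ K` (`tw_mem_of_pow`), so `e` centralizes `Q`. Let
`N₀` be the subgroup of the `x ∈ krad M (GH ..)` such that some (equivalently every) `g : F` with
`gp g = x` acts trivially on `Q ⧸ Q₁` (`∀ q ∈ Q, g * q * g⁻¹ * q⁻¹ ∈ Q₁`; `DQ.triv`): normal in `GH ..`,
containing `h₁¯ * x * h₁¯⁻¹ * x⁻¹` for all `x ∈ krad M (GH ..)` (`x = gp s`, `s ∈ S`). As in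
`gp_norm`/`gp_OX` (`tw_coprime_trivial`, `gp_g0`, `gp_cover` with `Y = N₀ ⊔ zpowers h¯`,
`tw_mem_of_pow`) `krad M (GH ..) ≤ N₀`, and `gp_M` gives a contradiction to `DQ.nontriv`. -/
theorem gp_U0 (D : GpMin M r b c F) {h : F} (hB : GpB M r b c h) {Q Q₁ : Subgroup F}
    (DQ : GpQ M (r ^ b) r Q Q₁) {S : Subgroup F} (hS : GpS M (r ^ b) h S) :
    ∀ x : F, ∃ q ∈ Q, ∃ s ∈ S, ∃ i : ℕ, x = q * s * h ^ i := by
  classical
  have hcop := D.cop
  have hexpH : ∀ x : GH M (r ^ b) F, x ^ (M * r ^ b) = 1 := gp_exp D.hexp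
  have hpos : 0 < r ^ c := pow_pos D.hr.pos c
  have hzS := fr_comm_proper_zn hpos hB.1 hS.2.1
  have hnQ := DQ.nQ
  -- the subgroup `Q S ⟨h⟩`
  let X : Subgroup F :=
    { carrier := {x | ∃ q ∈ Q, ∃ s ∈ S, ∃ z ∈ zpowers h, x = q * s * z}
      one_mem' := ⟨1, Q.one_mem, 1, S.one_mem, 1, (zpowers h).one_mem, by simp⟩
      mul_mem' := by
        rintro _ _ ⟨q, hq, s, hs, z, hz, rfl⟩ ⟨q', hq', s', hs', z', hz', rfl⟩
        refine ⟨q * ((s * z) * q' * (s * z)⁻¹), Q.mul_mem hq (hnQ.conj_mem _ hq' _),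
          s * (z * s' * z⁻¹), S.mul_mem hs (hzS z hz s' hs'), z * z', mul_mem hz hz', ?_⟩
        group
      inv_mem' := by
        rintro _ ⟨q, hq, s, hs, z, hz, rfl⟩
        refine ⟨(s * z)⁻¹ * q⁻¹ * (s * z)⁻¹⁻¹, hnQ.conj_mem _ (Q.inv_mem hq) _,
          z⁻¹ * s⁻¹ * z⁻¹⁻¹, hzS z⁻¹ (inv_mem hz) _ (S.inv_mem hs), z⁻¹, inv_mem hz, ?_⟩
        group }
  have hQX : Q ≤ X := fun q hq => ⟨q, hq, 1, S.one_mem, 1, (zpowers h).one_mem, by simp⟩
  have hSX : S ≤ X := fun s hs => ⟨1, Q.one_mem, s, hs, 1, (zpowers h).one_mem, by simp⟩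
  have hhX : h ∈ X := ⟨1, Q.one_mem, 1, S.one_mem, h, mem_zpowers h, by simp⟩
  have hXT : X = ⊤ := by
    by_contra hX
    obtain ⟨N, K, hKN, hNX, hhN, hNn, hKn, hKM, hNK⟩ := D.min X hX h hhX hB.1
    have hKQ : ∀ k ∈ K, ∀ q ∈ Q, k * q * k⁻¹ * q⁻¹ = 1 := by
      intro k hk q hq
      have h1 : k * q * k⁻¹ * q⁻¹ ∈ Q := Q.mul_mem (hnQ.conj_mem q hq k) (Q.inv_mem hq)
      have h2 : k * q * k⁻¹ * q⁻¹ ∈ K := by
        have h3 := K.mul_mem hk (hKn q (hQX hq) _ (K.inv_mem hk))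
        have h4 : k * (q * k⁻¹ * q⁻¹) = k * q * k⁻¹ * q⁻¹ := by group
        rwa [h4] at h3
      exact tw_one hcop (hKM _ h2) (gpu_Qexp D DQ h1)
    have hh1S : ∀ s ∈ S, h ^ (r ^ (c - 1)) * s * (h ^ (r ^ (c - 1)))⁻¹ ∈ S := fun s hs =>
      hzS _ (pow_mem (mem_zpowers h) _) s hs
    have he : ∀ s ∈ S, h ^ (r ^ (c - 1)) * s * (h ^ (r ^ (c - 1)))⁻¹ * s⁻¹ ∈ K := by
      intro s hs
      have h1 : h ^ (r ^ (c - 1)) * s * (h ^ (r ^ (c - 1)))⁻¹ * s⁻¹ ∈ S :=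
        S.mul_mem (hh1S s hs) (S.inv_mem hs)
      have h2 : h ^ (r ^ (c - 1)) * s * (h ^ (r ^ (c - 1)))⁻¹ * s⁻¹ ∈ N := by
        have h3 := N.mul_mem hhN (hNn s (hSX hs) _ (N.inv_mem hhN))
        have h4 : h ^ (r ^ (c - 1)) * (s * (h ^ (r ^ (c - 1)))⁻¹ * s⁻¹) =
            h ^ (r ^ (c - 1)) * s * (h ^ (r ^ (c - 1)))⁻¹ * s⁻¹ := by group
        rwa [h4] at h3
      exact tw_mem_of_pow hcop (hS.1 _ h1) (hNK _ h2)
    -- the kernel on `Q ⧸ Q₁`
    have hTn := gpu_T_normal DQ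
    have hTmn : ((gpu_T DQ).map (gp M (r ^ b) F)).Normal := hTn.map _ gp_surj
    have hN₀n : ((gpu_T DQ).map (gp M (r ^ b) F) ⊓ krad M (GH M (r ^ b) F)).Normal :=
      ⟨fun x hx g => ⟨hTmn.conj_mem x hx.1 g, (krad_normal M _).conj_mem x hx.2 g⟩⟩
    have hle := gpu_krad D hB _ hN₀n inf_le_right (fun x hx => by
      obtain ⟨x', rfl⟩ := gp_surj (M := M) (P := r ^ b) x
      obtain ⟨s, hs, hsx⟩ := hS.2.2 x' hx
      refine ⟨⟨h ^ (r ^ (c - 1)) * s * (h ^ (r ^ (c - 1)))⁻¹ * s⁻¹, ?_, ?_⟩, ?_⟩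
      · refine (gpu_T_mem DQ).2 fun q hq => ?_
        rw [hKQ _ (he s hs) q hq]
        exact Q₁.one_mem
      · rw [map_mul, map_mul, map_mul, map_inv, map_inv, hsx]
      · exact (krad M (GH M (r ^ b) F)).mul_mem ((krad_normal M _).conj_mem _ hx _)
          ((krad M (GH M (r ^ b) F)).inv_mem hx))
    refine gpu_contra D hB DQ fun x hx => ?_
    obtain ⟨⟨t, ht, htx⟩, -⟩ := hle hx
    exact ⟨t, (gpu_T_mem DQ).1 ht, htx⟩
  intro x
  have hx : x ∈ X := by rw [hXT]; trivial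
  obtain ⟨q, hq, s, hs, z, hz, rfl⟩ := hx
  have hf : IsOfFinOrder h := isOfFinOrder_iff_pow_eq_one.2 ⟨_, hpos, hB.1⟩
  rw [← hf.mem_powers_iff_mem_zpowers] at hz
  obtain ⟨i, rfl⟩ := hz
  exact ⟨q, hq, s, hs, i, rfl⟩

/-- a subgroup normalized by `Q`, `S` and `h` is normal -/
private theorem gpu_normal {F : Type} [Group F] {Q S : Subgroup F} {h : F}
    (hF : ∀ x : F, ∃ q ∈ Q, ∃ s ∈ S, ∃ i : ℕ, x = q * s * h ^ i) (B : Subgroup F)
    (hQ : ∀ q ∈ Q, ∀ y ∈ B, q * y * q⁻¹ ∈ B) (hS : ∀ s ∈ S, ∀ y ∈ B, s * y * s⁻¹ ∈ B)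
    (hh : ∀ y ∈ B, h * y * h⁻¹ ∈ B) : B.Normal := by
  have hi : ∀ i : ℕ, ∀ y ∈ B, h ^ i * y * (h ^ i)⁻¹ ∈ B := by
    intro i
    induction i with
    | zero => intro y hy; simpa using hy
    | succ i ih =>
      intro y hy
      have h1 := hh _ (ih y hy)
      have h2 : h * (h ^ i * y * (h ^ i)⁻¹) * h⁻¹ = h ^ (i + 1) * y * (h ^ (i + 1))⁻¹ := by
        rw [pow_succ' h]
        group
      rwa [h2] at h1
  refine ⟨fun y hy x => ?_⟩
  obtain ⟨q, hq, s, hs, i, rfl⟩ := hF x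
  have h1 := hQ q hq _ (hS s hs _ (hi i y hy))
  have h2 : q * (s * (h ^ i * y * (h ^ i)⁻¹) * s⁻¹) * q⁻¹ = q * s * h ^ i * y * (q * s * h ^ i)⁻¹ := by
    group
  rwa [h2] at h1

/-- if `S` has order prime to the exponent of the abelian group `Q` and `[Q, S] = Q` then
`C_Q(S) = 1` -/
private theorem gpu_cq {F : Type} [Group F] [Finite F] {Q S : Subgroup F} {r : ℕ}
    (hab : ∀ x ∈ Q, ∀ y ∈ Q, x * y = y * x) (hexp : ∀ x ∈ Q, x ^ r = 1)
    (hn : ∀ s ∈ S, ∀ q ∈ Q, s * q * s⁻¹ ∈ Q) (hcop : Nat.Coprime (Nat.card S) r)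
    (hgen : ∀ q ∈ Q, q ∈ closure {x | ∃ s ∈ S, ∃ q ∈ Q, x = s * q * s⁻¹ * q⁻¹}) :
    ∀ q ∈ Q, (∀ s ∈ S, s * q = q * s) → q = 1 := by
  classical
  intro q hq hqS
  have hft : Fintype S := Fintype.ofFinite S
  letI : CommGroup Q := { (inferInstance : Group Q) with
    mul_comm := fun a b => Subtype.ext (hab a a.2 b b.2) }
  let cj : S → Q → Q := fun s x => ⟨(s : F) * x * (s : F)⁻¹, hn s s.2 x x.2⟩
  have hcj : ∀ (s : S) (x y : Q), cj s (x * y) = cj s x * cj s y := by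
    intro s x y
    apply Subtype.ext
    show (s : F) * ((x : F) * y) * (s : F)⁻¹ = (s : F) * x * (s : F)⁻¹ * ((s : F) * y * (s : F)⁻¹)
    group
  let ν : Q →* Q := MonoidHom.mk' (fun x => ∏ s : S, cj s x) (by
    intro x y
    rw [← Finset.prod_mul_distrib]
    exact Finset.prod_congr rfl fun s _ => hcj s x y)
  have hν : ∀ x, ν x = ∏ s : S, cj s x := fun x => rfl
  have hν1 : ∀ (t : S) (x : Q), ν (cj t x) = ν x := by
    intro t x
    rw [hν, hν]
    refine Fintype.prod_equiv (Equiv.mulRight t) _ _ fun s => ?_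
    apply Subtype.ext
    show (s : F) * ((t : F) * x * (t : F)⁻¹) * (s : F)⁻¹ =
      ((s : F) * t) * x * ((s : F) * t)⁻¹
    group
  have hle : closure {x | ∃ s ∈ S, ∃ q ∈ Q, x = s * q * s⁻¹ * q⁻¹} ≤ ν.ker.map Q.subtype := by
    rw [closure_le]
    rintro _ ⟨s, hs, x, hx, rfl⟩
    refine ⟨cj ⟨s, hs⟩ ⟨x, hx⟩ * (⟨x, hx⟩ : Q)⁻¹, ?_, rfl⟩
    show ν (cj ⟨s, hs⟩ ⟨x, hx⟩ * (⟨x, hx⟩ : Q)⁻¹) = 1
    rw [map_mul, map_inv, hν1, mul_inv_cancel]
  obtain ⟨x, hx, hxq⟩ := hle (hgen q hq)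
  have hxq' : (x : F) = q := hxq
  have h1 : ν x = 1 := hx
  have h2 : ν x = x ^ (Nat.card S) := by
    rw [hν]
    have h3 : ∀ s ∈ (Finset.univ : Finset S), cj s x = x := by
      intro s _
      apply Subtype.ext
      show (s : F) * x * (s : F)⁻¹ = x
      rw [hxq', hqS s s.2, mul_inv_cancel_right]
    rw [Finset.prod_congr rfl h3, Finset.prod_const, Finset.card_univ, Nat.card_eq_fintype_card]
  rw [h1] at h2
  have h3 : q ^ (Nat.card S) = 1 := by
    have h4 := congrArg Subtype.val h2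
    rw [← hxq']
    exact h4.symm
  exact tw_one hcop h3 (hexp q hq)

/-- **Case (U): `C_Q(S) = 1`, all `M`-elements are in `Q S`, and `O_{r'}(F) ≤ S`** (`Q` abelian).

Proof. (1) `C = {q ∈ Q | ∀ s ∈ S, s * q = q * s}` is normal in `F` (by `gp_U0`: `Q` abelian, `S` normalized
by `h`). `C ≠ Q`: otherwise `S` acts trivially on `Q ⧸ Q₁`, and so do all `M`-elements (`gp_M`,
`hS.2.2`, `DQ.triv`), contradicting `DQ.nontriv`. The subgroup `B` of `Q` generated by the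
`s * q * s⁻¹ * q⁻¹` is normal in `F`; `B ≤ Q₁` would also imply that `S` acts trivially on `Q ⧸ Q₁`; so
`B = Q` (`DQ.min`). Let `ν : Q → Q`, `ν q = ∏ s ∈ S, s * q * s⁻¹` (commutative group; use `Nat.card` or
a `Fintype` instance): a homomorphism with `ν (s * q * s⁻¹ * q⁻¹) = 1`, so `ν = 1` on `B = Q`; for
`q ∈ C`: `1 = ν q = q ^ (Nat.card S)`, and `q ^ r = 1`, `r ∤ Nat.card S` (`tw_card_cop`, TwS1.lean), so
`q = 1`.
(2) `x ^ M = 1`, `x = q * s * h ^ i`: modulo the normal subgroup `Q * S` (normal by `gp_U0`)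
`x ^ (r ^ b) = h ^ (i * r ^ b) = 1`, so `x ^ (r ^ b) ∈ Q * S`, `x ∈ Q * S` by `tw_mem_of_pow`.
(3) `x ∈ krad M F`: by (2) `x = q * s`; `krad M F` centralizes `Q` (as `krad M F ⊓ Q = ⊥`), the
subgroup `krad M F * S` has exponent `M` (`krad M F` normal, `tw_MM`), contains `q = x * s⁻¹`, so
`q = 1` (`tw_one`), `x = s ∈ S`. -/
theorem gp_U (D : GpMin M r b c F) {h : F} (hB : GpB M r b c h) {Q Q₁ : Subgroup F}
    (DQ : GpQ M (r ^ b) r Q Q₁) (hab : ∀ x ∈ Q, ∀ y ∈ Q, x * y = y * x) {S : Subgroup F}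
    (hS : GpS M (r ^ b) h S) :
    (∀ q ∈ Q, (∀ s ∈ S, s * q = q * s) → q = 1) ∧
      (∀ x : F, x ^ M = 1 → ∃ q ∈ Q, ∃ s ∈ S, x = q * s) ∧ ∀ x ∈ krad M F, x ∈ S := by
  have hcop := D.cop
  have hb := gpu_b D
  have hF := gp_U0 D hB DQ hS
  have hnQ := DQ.nQ
  have hhS : ∀ s ∈ S, h * s * h⁻¹ ∈ S := hS.2.1
  have hgM := gp_M D hB
  have hrcop : Nat.Coprime (Nat.card S) r := by
    have h1 := tw_card_cop D.hr D.hrM S hS.1
    exact ((Nat.Prime.coprime_iff_not_dvd D.hr).2 h1).symm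
  -- part 2
  have hQS : (Q ⊔ S).Normal := by
    have hQl : Q ≤ Q ⊔ S := le_sup_left
    have hSl : S ≤ Q ⊔ S := le_sup_right
    refine gpu_normal hF _ (fun q hq y hy => ?_) (fun s hs y hy => ?_) fun y hy => ?_
    · exact mul_mem (mul_mem (hQl hq) hy) (inv_mem (hQl hq))
    · exact mul_mem (mul_mem (hSl hs) hy) (inv_mem (hSl hs))
    · rw [← SetLike.mem_coe, Subgroup.normal_mul] at hy
      obtain ⟨q, hq, s, hs, hy'⟩ := hy
      have hy'' : q * s = y := hy'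
      rw [← hy'']
      have h1 : h * (q * s) * h⁻¹ = (h * q * h⁻¹) * (h * s * h⁻¹) := by group
      rw [h1]
      exact mul_mem (hQl (hnQ.conj_mem q hq h)) (hSl (hhS s hs))
  have h2 : ∀ x : F, x ^ M = 1 → ∃ q ∈ Q, ∃ s ∈ S, x = q * s := by
    intro x hx
    obtain ⟨q, hq, s, hs, i, hxe⟩ := hF x
    have h1 : q * s ∈ Q ⊔ S := mul_mem ((le_sup_left : Q ≤ Q ⊔ S) hq) ((le_sup_right : S ≤ Q ⊔ S) hs)
    have h3 := gpu_pow hQS (y := h ^ i) h1 (r ^ b)
    rw [← hxe, gpu_hexp D hB, inv_one, mul_one] at h3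
    have h4 := tw_mem_of_pow hcop hx h3
    rw [← SetLike.mem_coe, Subgroup.normal_mul] at h4
    obtain ⟨q', hq', s', hs', hy'⟩ := h4
    exact ⟨q', hq', s', hs', hy'.symm⟩
  refine ⟨?_, h2, ?_⟩
  · -- part 1
    have hBn : (closure {x : F | ∃ s ∈ S, ∃ q ∈ Q, x = s * q * s⁻¹ * q⁻¹}).Normal := by
      have hBQ : closure {x : F | ∃ s ∈ S, ∃ q ∈ Q, x = s * q * s⁻¹ * q⁻¹} ≤ Q := by
        rw [closure_le]
        rintro _ ⟨s, hs, q, hq, rfl⟩
        exact Q.mul_mem (hnQ.conj_mem q hq s) (Q.inv_mem hq)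
      have key : ∀ g : F, (∀ s ∈ S, g * s * g⁻¹ ∈ S) →
          ∀ y ∈ closure {x : F | ∃ s ∈ S, ∃ q ∈ Q, x = s * q * s⁻¹ * q⁻¹},
          g * y * g⁻¹ ∈ closure {x : F | ∃ s ∈ S, ∃ q ∈ Q, x = s * q * s⁻¹ * q⁻¹} := by
        intro g hg y hy
        have h1 : closure {x : F | ∃ s ∈ S, ∃ q ∈ Q, x = s * q * s⁻¹ * q⁻¹} ≤
            (closure {x : F | ∃ s ∈ S, ∃ q ∈ Q, x = s * q * s⁻¹ * q⁻¹}).comap
              (MulAut.conj g).toMonoidHom := by
          rw [closure_le]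
          rintro _ ⟨s, hs, q, hq, rfl⟩
          show g * (s * q * s⁻¹ * q⁻¹) * g⁻¹ ∈ closure {x : F | ∃ s ∈ S, ∃ q ∈ Q, x = s * q * s⁻¹ * q⁻¹}
          refine subset_closure ⟨g * s * g⁻¹, hg s hs, g * q * g⁻¹, hnQ.conj_mem q hq g, ?_⟩
          group
        exact h1 hy
      refine gpu_normal hF _ (fun q hq y hy => ?_) (fun s hs y hy => ?_) fun y hy => ?_
      · rw [hab q hq y (hBQ hy), mul_inv_cancel_right]
        exact hy
      · exact key s (fun t ht => S.mul_mem (S.mul_mem hs ht) (S.inv_mem hs)) y hy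
      · exact key h hhS y hy
    have hBQ : closure {x : F | ∃ s ∈ S, ∃ q ∈ Q, x = s * q * s⁻¹ * q⁻¹} ≤ Q := by
      rw [closure_le]
      rintro _ ⟨s, hs, q, hq, rfl⟩
      exact Q.mul_mem (hnQ.conj_mem q hq s) (Q.inv_mem hq)
    have hBe : closure {x : F | ∃ s ∈ S, ∃ q ∈ Q, x = s * q * s⁻¹ * q⁻¹} = Q := by
      by_contra hne
      have h3 := DQ.min _ hBn hBQ hne
      refine gpu_contra D hB DQ fun x hx => ?_
      obtain ⟨s, hs, hsx⟩ := hS.2.2 x hx
      exact ⟨s, fun q hq => h3 (subset_closure ⟨s, hs, q, hq, rfl⟩), hsx⟩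
    exact gpu_cq hab DQ.exp (fun s _ q hq => hnQ.conj_mem q hq s) hrcop fun q hq => by
      rw [hBe]
      exact hq
  · intro x hx
    have hxM := tw_krad_pow hcop D.hexp x hx
    obtain ⟨q, hq, s, hs, hxe⟩ := h2 x hxM
    have h3 : (x * s⁻¹) ^ M = 1 := tw_R1_mul hcop D.hexp ((tw_mem_krad_iff hcop D.hexp).1 hx)
      (mem_top s⁻¹) (by rw [inv_pow, hS.1 s hs, inv_one])
    have h4 : x * s⁻¹ = q := by rw [hxe, mul_inv_cancel_right]
    rw [h4] at h3
    have h5 : q = 1 := tw_one hcop h3 (gpu_Qexp D DQ hq)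
    rw [hxe, h5, one_mul]
    exact hs

/-- **Case (U): conjugacy.** A covering group `S'` of `M`-elements, multiplied with `O_{r'}(F)`, is
conjugate to `S` by an element of `Q`.

Proof. `S'' = S' ⊔ krad M F = {s * k}` has exponent `M` (`tw_MM`). For `x ∈ S`: `gp x ∈ krad M (GH ..)`
(`gp_M`), so there is `s' ∈ S'` with `gp s' = gp x`; by `gp_U` `s' = q * s`, `x⁻¹ * s' = x⁻¹ * q * x * (x⁻¹ * s)`
with `gp (x⁻¹ * s) = 1` (`DQ.ker`), `x⁻¹ * s ∈ S`, so `InOP M (r ^ b) ⊤ (x⁻¹ * s)` and `InO`, so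
`x⁻¹ * s ∈ krad M F` (`D.gp_iff`, `InOP.inO`, `tw_mem_krad_iff`). So
`x * q' = s' * k⁻¹ ∈ S''` with `q' ∈ Q`, `k ∈ krad M F` (`k` commutes with `Q`: `krad M F ⊓ Q = ⊥`). For
`x ∈ S''`: by `gp_U` `x = q * s = s * (s⁻¹ * q * s)`, so `x * (s⁻¹ * q * s)⁻¹ ∈ S`. `tw_conj_compl`
(TwF1.lean; `V := Q`, `K₁ := S`, `K₂ := S''`, `P := r`). -/
theorem gp_Uconj (D : GpMin M r b c F) {h : F} (hB : GpB M r b c h) {Q Q₁ : Subgroup F}
    (DQ : GpQ M (r ^ b) r Q Q₁) (hab : ∀ x ∈ Q, ∀ y ∈ Q, x * y = y * x) {S : Subgroup F}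
    (hS : GpS M (r ^ b) h S) (S' : Subgroup F) (hS'M : ∀ x ∈ S', x ^ M = 1)
    (hS' : ∀ x : F, gp M (r ^ b) F x ∈ krad M (GH M (r ^ b) F) →
      ∃ s ∈ S', gp M (r ^ b) F s = gp M (r ^ b) F x) :
    ∃ v ∈ Q, ∀ t : F, (∀ x ∈ S', t * x * t⁻¹ ∈ S') → ∀ x ∈ S,
      (v⁻¹ * t * v) * x * (v⁻¹ * t * v)⁻¹ ∈ S := by
  have hcop := D.cop
  have hnQ := DQ.nQ
  obtain ⟨hU1, hU2, hU3⟩ := gp_U D hB DQ hab hS
  have hcopr : Nat.Coprime M r := ((Nat.Prime.coprime_iff_not_dvd D.hr).2 D.hrM).symm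
  have hS''mem : ∀ x ∈ S' ⊔ krad M F, ∃ s ∈ S', ∃ k ∈ krad M F, x = k * s := by
    intro x hx
    rw [sup_comm, ← SetLike.mem_coe, Subgroup.normal_mul] at hx
    obtain ⟨k, hk, s, hs, hx'⟩ := hx
    exact ⟨s, hs, k, hk, hx'.symm⟩
  have hS''M : ∀ x ∈ S' ⊔ krad M F, x ^ M = 1 := by
    intro x hx
    obtain ⟨s, hs, k, hk, rfl⟩ := hS''mem x hx
    exact tw_R1_mul hcop D.hexp ((tw_mem_krad_iff hcop D.hexp).1 hk) (mem_top s) (hS'M s hs)
  have hS'l : S' ≤ S' ⊔ krad M F := le_sup_left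
  have hkl : krad M F ≤ S' ⊔ krad M F := le_sup_right
  obtain ⟨v, hv, hvS⟩ := tw_conj_compl hcopr Q hab DQ.exp S (S' ⊔ krad M F) hS.1 hS''M (by
    intro x hx
    obtain ⟨s', hs', hs'x⟩ := hS' x ((gp_M D hB).2 x (hS.1 x hx))
    obtain ⟨q, hq, s, hs, hs'e⟩ := hU2 s' (hS'M s' hs')
    have h1 : gp M (r ^ b) F (x⁻¹ * s) = 1 := by
      have h2 : gp M (r ^ b) F s = gp M (r ^ b) F x := by
        rw [← hs'x, hs'e, map_mul, DQ.ker q hq, one_mul]
      rw [map_mul, map_inv, h2, inv_mul_cancel]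
    have h2 : x⁻¹ * s ∈ krad M F := by
      rw [tw_mem_krad_iff hcop D.hexp]
      exact (D.gp_iff.1 h1).inO hcop (hS.1 _ (S.mul_mem (S.inv_mem hx) hs))
    refine ⟨x⁻¹ * q * x, ?_, ?_⟩
    · have h3 := hnQ.conj_mem q hq x⁻¹
      rwa [inv_inv] at h3
    · have h3 : x * (x⁻¹ * q * x) = s' * (x⁻¹ * s)⁻¹ := by
        rw [hs'e]
        group
      rw [h3]
      exact mul_mem (hS'l hs') (inv_mem (hkl h2))) (by
    intro x hx
    obtain ⟨q, hq, s, hs, hxe⟩ := hU2 x (hS''M x hx)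
    refine ⟨(s⁻¹ * q * s)⁻¹, ?_, ?_⟩
    · have h3 := hnQ.conj_mem q hq s⁻¹
      rw [inv_inv] at h3
      exact Q.inv_mem h3
    · have h3 : x * (s⁻¹ * q * s)⁻¹ = s := by
        rw [hxe]
        group
      rw [h3]
      exact hs)
  refine ⟨v, hv, fun t ht x hx => ?_⟩
  have h1 : v * x * v⁻¹ ∈ S' ⊔ krad M F := by
    rw [hvS]
    have h2 : v⁻¹ * (v * x * v⁻¹) * v = x := by group
    rw [h2]
    exact hx
  have h2 : t * (v * x * v⁻¹) * t⁻¹ ∈ S' ⊔ krad M F := by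
    obtain ⟨s, hs, k, hk, hse⟩ := hS''mem _ h1
    have h3 : t * (v * x * v⁻¹) * t⁻¹ = (t * k * t⁻¹) * (t * s * t⁻¹) := by
      rw [hse]
      group
    rw [h3]
    exact mul_mem (hkl ((krad_normal M F).conj_mem k hk t)) (hS'l (ht s hs))
  rw [hvS] at h2
  have h3 : v⁻¹ * (t * (v * x * v⁻¹) * t⁻¹) * v = v⁻¹ * t * v * x * (v⁻¹ * t * v)⁻¹ := by group
  rwa [h3] at h2

end Pool.Agent.Lib.MP_544bd1_al
end

section

/-!
Two generators, part 2: Theorem L over the prime field.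
-/

namespace Pool.Agent.Lib.MP_544bd1_al

open Finset Subgroup

/-- Theorem L over `ZMod p`: extend scalars to `K = AlgebraicClosure (ZMod p)`, `V' = K ⊗ V`
(`Module.End.baseChangeHom`/`LinearMap.baseChange`), which is injective on endomorphisms
(`LinearMap.baseChange` and faithful flatness, or a basis). -/
theorem tw_LZ {p r a : ℕ} [Fact p.Prime] (hr : r.Prime) (hrp : r ≠ p) (ha : 0 < a)
    (hnum : ∀ j s : ℕ, 1 ≤ j → j ≤ a → 0 < s → r ^ s + 1 ≠ p ^ j)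
    {V R : Type} [AddCommGroup V] [Module (ZMod p) V] [Finite V] [Group R] [Finite R]
    (hR : IsPGroup r R) {α : R →* R} {ρ : R →* Module.End (ZMod p) V}
    {U : Module.End (ZMod p) V} (D : LDat (p ^ a) α ρ U) (x : R) :
    ρ (α^[p ^ (a - 1)] x) = ρ x := by
  have hfin : Module.Finite (ZMod p) V := Module.Finite.of_finite
  have hch : CharP (AlgebraicClosure (ZMod p)) p :=
    charP_of_injective_algebraMap (algebraMap (ZMod p) (AlgebraicClosure (ZMod p))).injective p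
  let β := Module.End.baseChangeHom (ZMod p) (AlgebraicClosure (ZMod p)) V
  have hβ : ∀ (f : Module.End (ZMod p) V) (v : V), β f ((1 : AlgebraicClosure (ZMod p)) ⊗ₜ v) =
      (1 : AlgebraicClosure (ZMod p)) ⊗ₜ f v := by
    intro f v
    exact LinearMap.baseChange_tmul _ _ _
  have D' : LDat (p ^ a) α ((β : Module.End (ZMod p) V →* _).comp ρ) (β U) := by
    refine ⟨fun x => ?_, ?_, ?_⟩
    · show β U * β (ρ x) = β (ρ (α x)) * β U
      rw [← map_mul, D.hU, map_mul]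
    · rw [← map_pow, D.hq, map_one]
    · simp_rw [← map_pow]
      rw [← map_sum, D.hN, map_zero]
  have h := tw_L hr hrp _ _ R a α _ (β U) rfl hR ha hnum D' x
  have h' : β (ρ (α^[p ^ (a - 1)] x)) = β (ρ x) := h
  apply LinearMap.ext
  intro v
  apply Module.FaithfullyFlat.tensorProduct_mk_injective (A := ZMod p)
    (B := AlgebraicClosure (ZMod p)) V
  show (1 : AlgebraicClosure (ZMod p)) ⊗ₜ[ZMod p] _ = (1 : AlgebraicClosure (ZMod p)) ⊗ₜ[ZMod p] _
  rw [← hβ, ← hβ, h']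

end Pool.Agent.Lib.MP_544bd1_al
end
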