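import Mathlib
import Pool.Agent.Lib.MP_544bd1_al.TwF4
import Pool.Agent.Lib.MP_544bd1_al.TwR4
import Pool.Agent.Lib.MP_544bd1_al.TwS2
import Pool.Agent.Lib.MP_544bd1_al.TwLZ
import Pool.Agent.Lib.MP_544bd1_al.TwS3
import Pool.Agent.Lib.MP_544bd1_al.TwC

section

/-!
Two generators, part 2: Lemma F1, `V` a `p`-group.
-/

namespace Pool.Agent.Lib.MP_544bd1_al

open Subgroup

variable {F : Type} [Group F] {M : ℕ}

/-- `F1Dat` passes to quotients -/
theorem tw_F1d_map {P : ℕ} {F' : Type} [Group F'] {f : F →* F'} (hf : Function.Surjective f)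
    {V R : Subgroup F} {z ρ : F} (D : F1Dat M P V R z ρ) :
    F1Dat M P (V.map f) (R.map f) (f z) (f ρ) where
  nV := D.nV.map f hf
  nR := D.nR.map f hf
  hVR := Subgroup.map_mono D.hVR
  hVP := by
    rintro _ ⟨x, hx, rfl⟩
    rw [← map_pow, D.hVP x hx, map_one]
  hRM := by
    rintro _ ⟨x, hx, rfl⟩
    rw [← map_pow]
    exact Subgroup.mem_map_of_mem f (D.hRM x hx)
  hρ := Subgroup.mem_map_of_mem f D.hρ
  gen := by
    have h1 := congrArg (Subgroup.map f) D.gen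
    rw [Subgroup.map_sup, MonoidHom.map_closure, Set.image_pair,
      Subgroup.map_top_of_surjective f hf] at h1
    exact h1
  hRz := by
    intro N hN hVN hzN
    rw [Subgroup.map_le_iff_le_comap] at hVN ⊢
    exact D.hRz (N.comap f) (hN.comap f) hVN hzN

/-- Lemma F1, the case of a `p`-group `V`.
Proof. Let `N = ⁅V, V⁆` (normal), `X = F ⧸ N`, `π`. `π V` is abelian; `F1Dat` passes to `X`, and
`h` too (`InOP.map_closure`). By `tw_F1c` `π r` commutes with `π V`: `v⁻¹ * (r * v * r⁻¹) ∈ N`. Now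
`tw_abz` (with `hNg` from `tw_comm_nongen`). -/
theorem tw_F1d [Finite F] {p a s k : ℕ} (hp : p.Prime) (hs : s.Prime) (hps : p ≠ s)
    (hpM : ¬ p ∣ M) (hM : 0 < M) (hexp : ∀ x : F, x ^ (M * p ^ a) = 1)
    {V R : Subgroup F} {z ρ : F} (D : F1Dat M (p ^ a) V R z ρ)
    (h : ∀ t, InOP M (p ^ a) (closure {z, t}) z) {r : F} (hrR : r ∈ R) (hrM : r ^ M = 1)
    (hr : r ^ (s ^ k) = 1) : ∀ v ∈ V, r * v = v * r := by
  have hnV : V.Normal := D.nV
  have hcop : Nat.Coprime M (p ^ a) := by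
    refine Nat.Coprime.pow_right a ?_
    exact ((Nat.Prime.coprime_iff_not_dvd hp).2 hpM).symm
  have hP : 0 < p ^ a := pow_pos hp.pos a
  have hV : IsPGroup p V := fun v => ⟨a, Subtype.ext (by simpa using D.hVP v v.2)⟩
  have hN : (⁅V, V⁆ : Subgroup F).Normal := Subgroup.commutator_normal V V
  let π : F →* F ⧸ (⁅V, V⁆ : Subgroup F) := QuotientGroup.mk' (⁅V, V⁆ : Subgroup F)
  have hπ : Function.Surjective π := QuotientGroup.mk'_surjective _
  have hπ1 : ∀ x, π x = 1 ↔ x ∈ (⁅V, V⁆ : Subgroup F) := fun x => QuotientGroup.eq_one_iff x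
  have D' := tw_F1d_map hπ D
  have hVc : ∀ x ∈ V.map π, ∀ y ∈ V.map π, x * y = y * x := by
    rintro _ ⟨x, hx, rfl⟩ _ ⟨y, hy, rfl⟩
    have h1 : π (x * y * x⁻¹ * y⁻¹) = 1 := (hπ1 _).2 (Subgroup.commutator_mem_commutator hx hy)
    rw [map_mul, map_mul, map_mul, map_inv, map_inv, mul_inv_eq_one, mul_inv_eq_iff_eq_mul] at h1
    exact h1
  have h' : ∀ t, InOP M (p ^ a) (closure {π z, t}) (π z) := by
    intro t
    obtain ⟨t, rfl⟩ := hπ t
    exact (h t).map_closure π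
  have h1 := tw_F1c hcop hM hP (tw_exp_quot hexp _) D' hVc h' (π r)
    (Subgroup.mem_map_of_mem π hrR) (by rw [← map_pow, hrM, map_one])
  have h2 : ∀ v ∈ V, v⁻¹ * (r * v * r⁻¹) ∈ (⁅V, V⁆ : Subgroup F) := by
    intro v hv
    rw [← hπ1, map_mul, map_mul, map_mul, h1 (π v) (Subgroup.mem_map_of_mem π hv), map_inv, map_inv]
    group
  refine tw_abz (N := (⁅V, V⁆ : Subgroup F)) hp hs hps V hV hr (fun x hx => hnV.conj_mem x hx r)
    ?_ (fun x hx => hN.conj_mem x hx r) (fun C hC hC' => tw_comm_nongen hp V hV C hC hC') h2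
  exact Subgroup.commutator_le_left V V

end Pool.Agent.Lib.MP_544bd1_al
end

section

/-!
Two generators, part 2: Lemma F1.
-/

namespace Pool.Agent.Lib.MP_544bd1_al

open Subgroup

variable {F : Type} [Group F] {M : ℕ}

/-- a subgroup invariant under conjugation by `z` and `ρ` is normalized by `⟨z, ρ⟩` -/
theorem tw_F1bot_norm {H : Type} [Group H] [Finite H] {R : Subgroup H} {z ρ : H}
    (hz : ∀ x ∈ R, z * x * z⁻¹ ∈ R) (hρ : ∀ x ∈ R, ρ * x * ρ⁻¹ ∈ R) :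
    ∀ g ∈ closure {z, ρ}, ∀ x ∈ R, g * x * g⁻¹ ∈ R := by
  have h1 : closure {z, ρ} ≤ normalizer (R : Set H) := by
    rw [closure_le]
    rintro w (rfl | rfl)
    · exact mem_normalizer_fintype hz
    · exact mem_normalizer_fintype hρ
  intro g hg x hx
  exact (mem_normalizer_iff.1 (h1 hg) x).1 hx

/-- a lift of an `r`-element of order dividing `M` modulo a normal subgroup of exponent `p ^ a` -/
theorem tw_F1bot_lift {p a r k : ℕ} (hp : p.Prime) (hr : r.Prime) (hpr : p ≠ r)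
    (hexp : ∀ x : F, x ^ (M * p ^ a) = 1) (P : Subgroup F) [P.Normal]
    (hP : ∀ x ∈ P, x ^ (p ^ a) = 1) (ρ₀ : F ⧸ P) (hρ₀ : ρ₀ ^ (r ^ k) = 1) :
    ∃ ρ : F, (ρ : F ⧸ P) = ρ₀ ∧ ρ ^ M = 1 ∧ ρ ^ (r ^ k) = 1 := by
  obtain ⟨ρ₁, rfl⟩ := QuotientGroup.mk_surjective ρ₀
  have hcop : Nat.Coprime (p ^ a) (r ^ k) := ((Nat.coprime_primes hp hr).2 hpr).pow a k
  obtain ⟨N, hN1, hN2⟩ := Nat.chineseRemainder hcop 0 1
  have hpN : p ^ a ∣ N := (Nat.modEq_zero_iff_dvd).mp hN1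
  have h1 : (ρ₁ ^ N) ^ (r ^ k) = 1 := by
    have h2 : ρ₁ ^ (r ^ k) ∈ P := by
      rw [← QuotientGroup.eq_one_iff, QuotientGroup.mk_pow]
      exact hρ₀
    obtain ⟨c, hc⟩ := hpN
    rw [← pow_mul, hc, show p ^ a * c * r ^ k = r ^ k * p ^ a * c by ring, pow_mul, pow_mul,
      hP _ h2, one_pow]
  refine ⟨ρ₁ ^ N, ?_, ?_, h1⟩
  · rw [QuotientGroup.mk_pow]
    have h2 : (ρ₁ : F ⧸ P) ^ N = (ρ₁ : F ⧸ P) ^ 1 := by
      rw [pow_eq_pow_iff_modEq]
      exact hN2.of_dvd (orderOf_dvd_of_pow_eq_one hρ₀)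
    rw [h2, pow_one]
  · apply orderOf_dvd_iff_pow_eq_one.1
    have h2 : orderOf (ρ₁ ^ N) ∣ r ^ k := orderOf_dvd_of_pow_eq_one h1
    have h3 : orderOf (ρ₁ ^ N) ∣ M * p ^ a := orderOf_dvd_of_pow_eq_one (hexp _)
    exact (Nat.Coprime.coprime_dvd_left h2 hcop.symm).dvd_of_dvd_mul_right h3

/-- Lemma F1 if `O_{p'}(F) = 1`.
Proof. `P = krad (p ^ a) F`. Suppose `z ∉ P`. Let `π : F → H = F ⧸ P`, `D = krad M H`;
`krad (p ^ a) H = ⊥` (`tw_krad_quot` for the exponent `p ^ a * M`). `π z` does not centralize `D`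
(otherwise `fr_fitting` with `k = M`, `l = p ^ a` gives `π z ∈ D`, so `π z = 1` by `tw_one`).
By `tw_pick` (`u := π z`, `z := π z`) there is a prime `r ∣ M` and an `r`-subgroup of `H` normalized
by `π z` and not centralized by `π z`; choose such an `r`-subgroup `R₀` of minimal order, and
`ρ₀ ∈ R₀` not commuting with `π z`.
(1) `R₀ ≤ closure {π z, ρ₀}`: the subgroup generated by the conjugates `(π z) ^ i ρ₀ (π z) ^ (-i)`
is normalized by `π z`, contained in `R₀` and not centralized, so it is `R₀`.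
(2) if `N ≤ closure {π z, ρ₀}` is normalized by `closure {π z, ρ₀}` and contains `π z`, then
`R₀ ≤ N`: `R₀ ⊓ N` is normalized by `π z`, so by minimality it is `R₀` or centralized by `π z`; in
the second case all `x⁻¹ * (π z * x * (π z)⁻¹)`, `x ∈ R₀`, are in `R₀ ⊓ N` and so commute with
`π z`, so `π z` centralizes `R₀` (`tw_coprime_trivial`), contradiction.
Let `ρ ∈ F` be a lift of `ρ₀`; as `ρ₀` has order a power of `r` (and divides `M`), `ρ` can be
replaced by a suitable power so that `ρ ^ M = 1` and `ρ ^ (r ^ k) = 1` for some `k`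
(`r ^ k ∣ M`: e.g. `ρ₀ ^ (r ^ k) = 1`, `r ^ k ∣ M`, `ρ ^ (r ^ k) ∈ P`, and take the power of `ρ`
with exponent `≡ 1 mod r ^ k`, `≡ 0 mod p ^ a`).
Let `Γ = (closure {π z, ρ₀}).comap π` (contains `P`, `z`, `ρ`) and apply `tw_F1d` in the group `Γ`
with `V = P`, `R = R₀.comap π`, `z`, `ρ`: so `ρ` centralizes `P`, so `ρ ∈ P` (`fr_fitting` with
`k = p ^ a`, `l = M`, `hbot`), `ρ₀ = 1`, contradiction. -/
theorem tw_F1bot [Finite F] {p a : ℕ} (hp : p.Prime) (hpM : ¬ p ∣ M) (hM : 0 < M)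
    (hsol : Group.IsSolvable F) (hexp : ∀ x : F, x ^ (M * p ^ a) = 1) (hbot : krad M F = ⊥)
    {z : F} (hz : z ^ (p ^ a) = 1) (h : ∀ t, InOP M (p ^ a) (closure {z, t}) z) :
    z ∈ krad (p ^ a) F := by
  have hcop : Nat.Coprime M (p ^ a) := (((Nat.Prime.coprime_iff_not_dvd hp).2 hpM).symm).pow_right a
  have hpa : 0 < p ^ a := pow_pos hp.pos a
  have hexp' : ∀ x : F, x ^ (p ^ a * M) = 1 := tw_exp_comm hexp
  by_contra hzP
  set P : Subgroup F := krad (p ^ a) F with hPdef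
  have hPn : P.Normal := krad_normal (p ^ a) F
  have hPpow : ∀ x ∈ P, x ^ (p ^ a) = 1 := tw_krad_pow hcop.symm hexp'
  set π : F →* F ⧸ P := QuotientGroup.mk' P with hπ
  have hπs : Function.Surjective π := QuotientGroup.mk'_surjective P
  have hπ1 : ∀ x : F, π x = 1 ↔ x ∈ P := fun x => by
    rw [hπ, QuotientGroup.mk'_apply, QuotientGroup.eq_one_iff]
  have hexpH : ∀ x : F ⧸ P, x ^ (M * p ^ a) = 1 := tw_exp_quot hexp P
  have hsolH : Group.IsSolvable (F ⧸ P) := Group.isSolvable_of_surjective hπs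
  have hbotH : krad (p ^ a) (F ⧸ P) = ⊥ := tw_krad_quot hcop.symm hexp'
  have hζ : (π z) ^ (p ^ a) = 1 := by rw [← map_pow, hz, map_one]
  set ζ : F ⧸ P := π z with hζdef
  have hDpow : ∀ x ∈ krad M (F ⧸ P), x ^ M = 1 := tw_krad_pow hcop hexpH
  have hD : ∃ x ∈ krad M (F ⧸ P), ζ * x ≠ x * ζ := by
    by_contra hcon
    push Not at hcon
    have e1 : ζ ∈ krad M (F ⧸ P) := fr_fitting hcop hM hpa hsolH hexpH hbotH hcon
    have e2 : ζ = 1 := tw_one hcop (hDpow ζ e1) hζ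
    exact hzP ((hπ1 z).1 e2)
  obtain ⟨r, hr, hrM, R, -, hR1, hR2, hR3⟩ := tw_pick hp hpM (krad M (F ⧸ P)) hDpow (u := ζ)
    (z := ζ) hζ (fun x hx => (krad_normal M (F ⧸ P)).conj_mem x hx ζ) hD
  have hpr : p ≠ r := by
    rintro rfl
    exact hpM hrM
  -- a minimal one
  obtain ⟨R₀, hR₀⟩ := (Set.toFinite {R : Subgroup (F ⧸ P) | IsPGroup r R ∧
    (∀ x ∈ R, ζ * x * ζ⁻¹ ∈ R) ∧ ∃ x ∈ R, ζ * x ≠ x * ζ}).exists_minimal ⟨R, hR1, hR2, hR3⟩
  obtain ⟨⟨hr1, hr2, ρ₀, hρ₀, hr3⟩, hmin⟩ := hR₀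
  -- a `ζ`-invariant subgroup of `R₀` is centralized by `ζ` or equal to `R₀`
  have hmin' : ∀ S : Subgroup (F ⧸ P), S ≤ R₀ → (∀ x ∈ S, ζ * x * ζ⁻¹ ∈ S) →
      (∃ x ∈ S, ζ * x ≠ x * ζ) → R₀ ≤ S := by
    intro S hS h1 h2
    exact hmin ⟨hr1.to_le hS, h1, h2⟩ hS
  have hζcl : ζ ∈ closure {ζ, ρ₀} := subset_closure (by simp)
  have hρ₀cl : ρ₀ ∈ closure {ζ, ρ₀} := subset_closure (by simp)
  have hR₀cl : R₀ ≤ closure {ζ, ρ₀} := by
    have e1 : R₀ ≤ R₀ ⊓ closure {ζ, ρ₀} := by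
      apply hmin' _ inf_le_left
      · rintro x ⟨hx1, hx2⟩
        exact Subgroup.mem_inf.2 ⟨hr2 x hx1, mul_mem (mul_mem hζcl hx2) (inv_mem hζcl)⟩
      · exact ⟨ρ₀, ⟨hρ₀, hρ₀cl⟩, hr3⟩
    exact e1.trans inf_le_right
  have hR₀k : ∀ x ∈ R₀, ∃ k : ℕ, x ^ (r ^ k) = 1 := by
    intro x hx
    obtain ⟨k, hk⟩ := hr1 ⟨x, hx⟩
    refine ⟨k, ?_⟩
    have := congrArg Subtype.val hk
    simpa using this
  have hR₀M : ∀ x ∈ R₀, x ^ M = 1 := by
    intro x hx
    obtain ⟨k, hk⟩ := hR₀k x hx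
    apply orderOf_dvd_iff_pow_eq_one.1
    have h2 : orderOf x ∣ r ^ k := orderOf_dvd_of_pow_eq_one hk
    have h3 : orderOf x ∣ M * p ^ a := orderOf_dvd_of_pow_eq_one (hexpH _)
    have h4 : Nat.Coprime (r ^ k) (p ^ a) := ((Nat.coprime_primes hr hp).2 hpr.symm).pow k a
    exact (Nat.Coprime.coprime_dvd_left h2 h4).dvd_of_dvd_mul_right h3
  have hR₀N : ∀ N : Subgroup (F ⧸ P), (∀ g ∈ closure {ζ, ρ₀}, ∀ x ∈ N, g * x * g⁻¹ ∈ N) →
      ζ ∈ N → R₀ ≤ N := by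
    intro N hN hζN
    by_contra hcon
    have hcent : ∀ x ∈ R₀ ⊓ N, ζ * x = x * ζ := by
      by_contra hcon2
      push Not at hcon2
      apply hcon
      have e1 : R₀ ≤ R₀ ⊓ N := by
        apply hmin' _ inf_le_left
        · rintro x ⟨hx1, hx2⟩
          exact Subgroup.mem_inf.2 ⟨hr2 x hx1, mul_mem (mul_mem hζN hx2) (inv_mem hζN)⟩
        · exact hcon2
      exact e1.trans inf_le_right
    have e2 : ∀ x ∈ R₀, ζ * x = x * ζ := by
      apply tw_coprime_trivial hcop.symm R₀ hR₀M hζ hr2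
      intro x hx
      apply hcent
      refine Subgroup.mem_inf.2 ⟨mul_mem (inv_mem hx) (hr2 x hx), ?_⟩
      have e3 := hN x⁻¹ (inv_mem (hR₀cl hx)) ζ hζN
      rw [inv_inv] at e3
      have e4 := mul_mem e3 (inv_mem hζN)
      rwa [show x⁻¹ * ζ * x * ζ⁻¹ = x⁻¹ * (ζ * x * ζ⁻¹) by group] at e4
    exact hr3 (e2 ρ₀ hρ₀)
  obtain ⟨k, hk⟩ := hR₀k ρ₀ hρ₀
  obtain ⟨ρ, hρ1, hρM, hρk⟩ := tw_F1bot_lift hp hr hpr hexp P hPpow ρ₀ hk
  have hρπ : π ρ = ρ₀ := hρ1
  have hR₀norm : ∀ g ∈ closure {ζ, ρ₀}, ∀ x ∈ R₀, g * x * g⁻¹ ∈ R₀ := by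
    apply tw_F1bot_norm hr2
    intro x hx
    exact mul_mem (mul_mem hρ₀ hx) (inv_mem hρ₀)
  -- the group `Γ`
  set Γ : Subgroup F := (closure {ζ, ρ₀}).comap π with hΓ
  have hzΓ : z ∈ Γ := hζcl
  have hρΓ : ρ ∈ Γ := by
    rw [hΓ, Subgroup.mem_comap, hρπ]
    exact hρ₀cl
  let f : Γ →* F ⧸ P := π.comp Γ.subtype
  have hf1 : ∀ g : Γ, f g = 1 ↔ g ∈ P.subgroupOf Γ := fun g => hπ1 (g : F)
  have hker : f.ker = P.subgroupOf Γ := by
    ext g
    rw [MonoidHom.mem_ker]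
    exact hf1 g
  have hfcl : ∀ g : Γ, f g ∈ closure {ζ, ρ₀} := fun g => g.2
  have hfs : ∀ c ∈ closure {ζ, ρ₀}, ∃ g : Γ, f g = c := by
    intro c hc
    obtain ⟨g, rfl⟩ := hπs c
    exact ⟨⟨g, hc⟩, rfl⟩
  have hfz : f ⟨z, hzΓ⟩ = ζ := rfl
  have hfρ : f ⟨ρ, hρΓ⟩ = ρ₀ := hρπ
  have key := tw_F1d (F := Γ) hp hr hpr hpM hM (tw_exp_sub hexp Γ) (V := P.subgroupOf Γ)
    (R := (R₀.comap π).subgroupOf Γ) (z := ⟨z, hzΓ⟩) (ρ := ⟨ρ, hρΓ⟩) (k := k) ?_ ?_ (r := ⟨ρ, hρΓ⟩)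
    ?_ ?_ ?_
  · -- conclusion
    have e1 : ∀ x ∈ P, ρ * x = x * ρ := by
      intro x hx
      have hxΓ : x ∈ Γ := by
        rw [hΓ, Subgroup.mem_comap, (hπ1 x).2 hx]
        exact one_mem _
      have := key ⟨x, hxΓ⟩ hx
      exact congrArg Subtype.val this
    have e2 : ρ ∈ P := fr_fitting hcop.symm hpa hM hsol hexp' hbot e1
    have e3 : ρ₀ = 1 := by rw [← hρπ]; exact (hπ1 ρ).2 e2
    apply hr3
    rw [e3, one_mul, mul_one]
  · -- the data
    refine ⟨?_, ?_, ?_, ?_, ?_, ?_, ?_, ?_⟩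
    · infer_instance
    · constructor
      intro x hx g
      show π ((g : F) * (x : F) * (g : F)⁻¹) ∈ R₀
      rw [map_mul, map_mul, map_inv]
      exact hR₀norm _ g.2 _ hx
    · intro x hx
      show π (x : F) ∈ R₀
      rw [(hπ1 (x : F)).2 hx]
      exact one_mem _
    · intro x hx
      apply Subtype.ext
      have := hPpow (x : F) hx
      simpa using this
    · intro x hx
      show ((x : F) ^ M) ∈ P
      rw [← hπ1, map_pow]
      exact hR₀M _ hx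
    · show π ρ ∈ R₀
      rw [hρπ]
      exact hρ₀
    · rw [← hker, ← Subgroup.comap_map_eq, MonoidHom.map_closure, Set.image_pair, hfz, hfρ,
        eq_top_iff]
      intro g _
      exact hfcl g
    · intro N hN hVN hzN x hx
      have e1 : R₀ ≤ N.map f := by
        apply hR₀N
        · intro g hg y hy
          obtain ⟨g', rfl⟩ := hfs g hg
          obtain ⟨y', hy', rfl⟩ := hy
          exact ⟨g' * y' * g'⁻¹, hN.conj_mem y' hy' g', by simp⟩
        · exact ⟨⟨z, hzΓ⟩, hzN, rfl⟩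
      have e2 : f x ∈ N.map f := e1 hx
      obtain ⟨w, hw, hwx⟩ := e2
      have e3 : x * w⁻¹ ∈ P.subgroupOf Γ := by
        rw [← hf1, map_mul, map_inv, hwx, mul_inv_cancel]
      have e4 := mul_mem (hVN e3) hw
      rwa [inv_mul_cancel_right] at e4
  · intro t
    exact InOP.sub_closure ⟨z, hzΓ⟩ t (h t)
  · show π ρ ∈ R₀
    rw [hρπ]
    exact hρ₀
  · exact Subtype.ext (by simpa using hρM)
  · exact Subtype.ext (by simpa using hρk)

/-- **Lemma F1**: a `p`-element `z` of a finite solvable group `F` with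
`z ∈ O_{p',p}(⟨z, t⟩)` for all `t` is in `O_{p',p}(F)`.
Proof. `tw_F1bot` in `F ⧸ krad M F` (`tw_op_iff`, `tw_krad_quot`, `InOP.map_closure`). -/
theorem tw_F1 [Finite F] {p a : ℕ} (hp : p.Prime) (hpM : ¬ p ∣ M) (hM : 0 < M)
    (hsol : Group.IsSolvable F) (hexp : ∀ x : F, x ^ (M * p ^ a) = 1) {z : F}
    (hz : z ^ (p ^ a) = 1) (h : ∀ t, InOP M (p ^ a) (closure {z, t}) z) :
    InOP M (p ^ a) (⊤ : Subgroup F) z := by
  have hcop : Nat.Coprime M (p ^ a) := (((Nat.Prime.coprime_iff_not_dvd hp).2 hpM).symm).pow_right a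
  rw [tw_op_iff hcop hexp]
  have hsurj : Function.Surjective (QuotientGroup.mk' (krad M F)) :=
    QuotientGroup.mk'_surjective _
  apply tw_F1bot hp hpM hM (Group.isSolvable_of_surjective hsurj) (tw_exp_quot hexp _)
    (tw_krad_quot hcop hexp)
  · rw [← map_pow, hz, map_one]
  · intro t
    obtain ⟨t, rfl⟩ := hsurj t
    exact (h t).map_closure _

end Pool.Agent.Lib.MP_544bd1_al
end

section

/-!
Two generators, part 2: Theorem HH.
-/

namespace Pool.Agent.Lib.MP_544bd1_al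

open Subgroup

variable {F : Type} [Group F] {M p a : ℕ}

/-- Theorem HH if `O_{p'}(F) = 1`.
Proof. `P = krad (p ^ a) F`, `z = u ^ (p ^ (a-1))`; suppose `z ∉ P`. `π : F → H = F ⧸ P`,
`D = krad M H`; `krad (p ^ a) H = ⊥`, so (`fr_fitting`, `k = M`, `l = p ^ a`) `π z` does not
centralize `D` (else `π z ∈ D`, `π z = 1`). `tw_pick` (with `π u`, `π z`): a prime `r ∣ M`
(so `r ≠ p`) and an `r`-subgroup `R` of `H` normalized by `π u`, not centralized by `π z`.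
`tw_module` gives `V`, `ρ`, `φ`; as `ρ g = 1` for `g ∈ P`, `ρ` factors through
`ρ' : H →* Module.End (ZMod p) V`. `α` = conjugation by `π u` on `R` (a homomorphism `R →* R`).
`LDat (p ^ a) α (ρ'|R) (ρ u)`: `hU`, `hq` clear; `hN`: for `x ∈ P`,
`∑_{i<q} ρ u ^ i (φ x) = φ (∏_{i<q} u ^ i * x * u ^ (-i))` and the product is
`(x * u) ^ q * u ^ (-q) = (x * u) ^ q`, and `(x * u) ^ (p ^ a) = 1`: it lies in `P` (its image in
`H` is `π u ^ (p ^ a) = 1`), so `((x * u) ^ (p ^ a)) ^ (p ^ a) = 1` and `tw_PP` applies; `φ 1 = 0`.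
By `tw_LZ`, for `x ∈ R`: `ρ' (π z * x * (π z)⁻¹) = ρ' x`, so `y = x⁻¹ * (π z * x * (π z)⁻¹) ∈ R`
has `ρ' y = 1`. `y` is an `r`-element of order dividing `M`; lift it to `g ∈ F` with
`g ^ (r ^ k) = 1`, `g ^ M = 1` (a suitable power of a lift); `ρ g = 1`, so `g` centralizes `P`, so
`g ∈ P` (`fr_fitting` with `k = p ^ a`, `l = M`, `hbot`), so `y = 1`. So `π z` centralizes `R`,
contradiction. -/
theorem tw_HHbot [Finite F] (hp : p.Prime) (hpM : ¬ p ∣ M) (hM : 0 < M) (ha : 0 < a)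
    (hsol : Group.IsSolvable F) (hexp : ∀ x : F, x ^ (M * p ^ a) = 1) (hbot : krad M F = ⊥)
    (hnum : ∀ r : ℕ, r.Prime → r ∣ M → ∀ j s : ℕ, 1 ≤ j → j ≤ a → 0 < s → r ^ s + 1 ≠ p ^ j)
    {u : F} (hu : u ^ (p ^ a) = 1) : u ^ (p ^ (a - 1)) ∈ krad (p ^ a) F := by
  have : Fact p.Prime := ⟨hp⟩
  have hq0 : 0 < p ^ a := pow_pos hp.pos a
  have hcop : Nat.Coprime M (p ^ a) :=
    Nat.Coprime.pow_right a ((Nat.Prime.coprime_iff_not_dvd hp).2 hpM).symm
  have hexp' : ∀ x : F, x ^ (p ^ a * M) = 1 := tw_exp_comm hexp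
  have hPpow := tw_krad_pow hcop.symm hexp'
  have hPg : IsPGroup p (krad (p ^ a) F) := by
    intro x
    exact ⟨a, Subtype.ext (by simpa using hPpow x x.2)⟩
  by_contra hz
  have hexpH : ∀ x : F ⧸ krad (p ^ a) F, x ^ (M * p ^ a) = 1 := tw_exp_quot hexp _
  have hsolH : Group.IsSolvable (F ⧸ krad (p ^ a) F) :=
    Group.isSolvable_of_surjective (QuotientGroup.mk'_surjective (krad (p ^ a) F))
  have hbotH : krad (p ^ a) (F ⧸ krad (p ^ a) F) = ⊥ := tw_krad_quot hcop.symm hexp'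
  set π : F →* F ⧸ krad (p ^ a) F := QuotientGroup.mk' (krad (p ^ a) F) with hπ
  have hπ1 : ∀ g : F, π g = 1 ↔ g ∈ krad (p ^ a) F := by
    intro g
    rw [hπ, QuotientGroup.mk'_apply, QuotientGroup.eq_one_iff]
  have hDpow := tw_krad_pow hcop hexpH
  have hzq : (u ^ (p ^ (a - 1))) ^ (p ^ a) = 1 := by
    rw [← pow_mul, mul_comm, pow_mul, hu, one_pow]
  have hne : ∃ x ∈ krad M (F ⧸ krad (p ^ a) F), π (u ^ (p ^ (a - 1))) * x ≠
      x * π (u ^ (p ^ (a - 1))) := by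
    by_contra hcon
    push Not at hcon
    have h1 := fr_fitting hcop hM hq0 hsolH hexpH hbotH hcon
    have h2 : π (u ^ (p ^ (a - 1))) = 1 := by
      refine tw_one hcop (hDpow _ h1) ?_
      rw [← map_pow, hzq, map_one]
    exact hz ((hπ1 _).1 h2)
  have hπu : (π u) ^ (p ^ a) = 1 := by rw [← map_pow, hu, map_one]
  obtain ⟨r, hr, hrM, R, hRD, hRr, hRu, x, hxR, hxz⟩ := tw_pick hp hpM
    (krad M (F ⧸ krad (p ^ a) F)) hDpow hπu
    (fun y hy => (krad_normal M _).conj_mem y hy (π u)) hne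
  have hrp : r ≠ p := by
    rintro rfl
    exact hpM hrM
  obtain ⟨V, _, _, _, ρ, φ, hφs, hφa, hφρ, hρP, hρc⟩ := tw_module hp (krad (p ^ a) F) hPg
  set ρ' : F ⧸ krad (p ^ a) F →* Module.End (ZMod p) V :=
    QuotientGroup.lift (krad (p ^ a) F) ρ hρP with hρ'
  have hρπ : ∀ g : F, ρ' (π g) = ρ g := fun g => rfl
  let α : R →* R := MonoidHom.mk' (fun y => ⟨π u * y * (π u)⁻¹, hRu y y.2⟩) (by
    intro y w
    apply Subtype.ext
    simp only [Subgroup.coe_mul]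
    group)
  have hα : ∀ y : R, ((α y : R) : F ⧸ krad (p ^ a) F) = π u * y * (π u)⁻¹ := fun y => rfl
  have hαk : ∀ (k : ℕ) (y : R), ((α^[k] y : R) : F ⧸ krad (p ^ a) F) =
      (π u) ^ k * y * ((π u) ^ k)⁻¹ := by
    intro k y
    induction k with
    | zero => simp
    | succ k ih =>
      rw [Function.iterate_succ_apply', hα, ih, pow_succ']
      group
  have hD : LDat (p ^ a) α (ρ'.comp R.subtype) (ρ u) := by
    refine ⟨?_, ?_, ?_⟩
    · intro y
      simp only [MonoidHom.comp_apply, Subgroup.coe_subtype]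
      rw [hα, ← hρπ u, ← map_mul, ← map_mul]
      congr 1
      group
    · rw [← map_pow, hu, map_one]
    · apply LinearMap.ext
      intro v
      obtain ⟨y, rfl⟩ := hφs v
      rw [LinearMap.zero_apply]
      apply tw_norm_zero (krad (p ^ a) F) ρ φ hφa hφρ hu y
      apply tw_PP hcop hexp
      apply hPpow
      rw [← hπ1, map_pow, map_mul, (hπ1 _).2 y.2, one_mul]
      exact hπu
  have hL := tw_LZ hr hrp ha (hnum r hr hrM) hRr hD ⟨x, hxR⟩
  simp only [MonoidHom.comp_apply, Subgroup.coe_subtype] at hL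
  rw [hαk] at hL
  -- the element `y`
  set w : F ⧸ krad (p ^ a) F := (π u) ^ p ^ (a - 1) * x * ((π u) ^ p ^ (a - 1))⁻¹ with hw
  have hwR : w ∈ R := by
    have := (α^[p ^ (a - 1)] ⟨x, hxR⟩).2
    rw [hαk] at this
    exact this
  have hρy : ρ' (x⁻¹ * w) = 1 := by
    rw [map_mul, hL, ← map_mul, inv_mul_cancel, map_one]
  have hyR : x⁻¹ * w ∈ R := R.mul_mem (R.inv_mem hxR) hwR
  obtain ⟨k, hk⟩ := hRr ⟨x⁻¹ * w, hyR⟩
  have hk' : (x⁻¹ * w) ^ r ^ k = 1 := by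
    have := congrArg Subtype.val hk
    simpa using this
  obtain ⟨g0, hg0⟩ := QuotientGroup.mk'_surjective (krad (p ^ a) F) (x⁻¹ * w)
  have hcop2 : Nat.Coprime (r ^ k) (p ^ a) :=
    Nat.Coprime.pow k a ((Nat.coprime_primes hr hp).2 hrp)
  obtain ⟨N, hN1, hN2⟩ := Nat.chineseRemainder hcop2 1 0
  have hN3 : (x⁻¹ * w) ^ N = x⁻¹ * w := by
    have h1 : (x⁻¹ * w) ^ N = (x⁻¹ * w) ^ 1 := by
      rw [pow_eq_pow_iff_modEq]
      exact hN1.of_dvd (orderOf_dvd_of_pow_eq_one hk')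
    rw [h1, pow_one]
  have hN4 : p ^ a ∣ N := (Nat.modEq_zero_iff_dvd).1 hN2
  have hg1 : π (g0 ^ N) = x⁻¹ * w := by
    rw [map_pow, hπ, hg0, hN3]
  have hg2 : (g0 ^ N) ^ r ^ k = 1 := by
    obtain ⟨c, hc⟩ := hN4
    have h1 : g0 ^ r ^ k ∈ krad (p ^ a) F := by
      rw [← hπ1, map_pow, hπ, hg0, hk']
    rw [← pow_mul, mul_comm, pow_mul, hc, pow_mul, hPpow _ h1, one_pow]
  have hg3 : ρ (g0 ^ N) = 1 := by rw [← hρπ, hg1, hρy]
  have hg4 := hρc r k (g0 ^ N) hr hrp hg2 hg3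
  have hg5 : g0 ^ N ∈ krad (p ^ a) F :=
    fr_fitting hcop.symm hq0 hM hsol hexp' hbot hg4
  have hg6 : x⁻¹ * w = 1 := by rw [← hg1, (hπ1 _).2 hg5]
  have hg7 : w = x := by
    rw [inv_mul_eq_one] at hg6
    exact hg6.symm
  apply hxz
  rw [map_pow]
  rw [hw] at hg7
  rw [mul_inv_eq_iff_eq_mul] at hg7
  exact hg7

/-- **Theorem HH** -/
theorem tw_HH [Finite F] (hp : p.Prime) (hpM : ¬ p ∣ M) (hM : 0 < M) (ha : 0 < a)
    (hsol : Group.IsSolvable F) (hexp : ∀ x : F, x ^ (M * p ^ a) = 1)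
    (hnum : ∀ r : ℕ, r.Prime → r ∣ M → ∀ j s : ℕ, 1 ≤ j → j ≤ a → 0 < s → r ^ s + 1 ≠ p ^ j)
    {u : F} (hu : u ^ (p ^ a) = 1) : InOP M (p ^ a) (⊤ : Subgroup F) (u ^ (p ^ (a - 1))) := by
  have hcop : Nat.Coprime M (p ^ a) :=
    Nat.Coprime.pow_right a ((Nat.Prime.coprime_iff_not_dvd hp).2 hpM).symm
  rw [tw_op_iff hcop hexp, map_pow]
  apply tw_HHbot hp hpM hM ha
    (Group.isSolvable_of_surjective (QuotientGroup.mk'_surjective (krad M F)))
    (tw_exp_quot hexp _) (tw_krad_quot hcop hexp) hnum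
  rw [← map_pow, hu, map_one]

end Pool.Agent.Lib.MP_544bd1_al
end

section

/-!
Two generators, part 2: good elements exist; `p`-good and `q`-good elements commute.
-/

namespace Pool.Agent.Lib.MP_544bd1_al

open Subgroup

variable {G : Type} [Group G]

/-- existence of good elements -/
theorem tw_good {n p a M : ℕ} (H : TwG n G) (hp : p.Prime) (ha : 0 < a) (hM : n = M * p ^ a)
    (hpM : ¬ p ∣ M)
    (hnum : ∀ r : ℕ, r.Prime → r ∣ M → ∀ j s : ℕ, 1 ≤ j → j ≤ a → 0 < s → r ^ s + 1 ≠ p ^ j)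
    {u : G} (hu : u ^ (p ^ a) = 1) : GoodS M (p ^ a) (u ^ (p ^ (a - 1))) := by
  have hM0 : 0 < M := by
    have := H.pos
    rw [hM] at this
    exact Nat.pos_of_mul_pos_right this
  have hexp : ∀ x : G, x ^ (M * p ^ a) = 1 := by
    rw [← hM]
    exact H.hexp
  have hz : (u ^ (p ^ (a - 1))) ^ (p ^ a) = 1 := by
    rw [← pow_mul, mul_comm, pow_mul, hu, one_pow]
  refine ⟨hz, ?_⟩
  intro T hfin hsol hzT
  have h1 : ∀ t : T, InOP M (p ^ a) (closure {(⟨u ^ (p ^ (a - 1)), hzT⟩ : T), t})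
      (⟨u ^ (p ^ (a - 1)), hzT⟩ : T) := by
    intro t
    apply InOP.sub_closure
    obtain ⟨hfL, hsL⟩ := H.h2 u (t : G)
    set L := closure {u, (t : G)} with hL
    have huL : u ∈ L := subset_closure (by simp)
    have htL : (t : G) ∈ L := subset_closure (by simp)
    have h2 : InOP M (p ^ a) (⊤ : Subgroup L) ((⟨u, huL⟩ : L) ^ (p ^ (a - 1))) := by
      refine tw_HH hp hpM hM0 ha hsL (tw_exp_sub hexp L) hnum ?_
      apply Subtype.ext
      simpa using hu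
    rw [InOP.top_iff] at h2
    have h3 : (((⟨u, huL⟩ : L) ^ (p ^ (a - 1)) : L) : G) = u ^ (p ^ (a - 1)) := by simp
    rw [h3] at h2
    refine h2.mono ?_ (subset_closure (by simp))
    rw [closure_le]
    rintro x (rfl | rfl)
    · exact L.pow_mem huL _
    · exact htL
  have h4 := tw_F1 (F := T) hp hpM hM0 hsol (tw_exp_sub hexp T) (z := ⟨u ^ (p ^ (a - 1)), hzT⟩)
    (Subtype.ext (by simpa using hz)) h1
  rw [InOP.top_iff] at h4
  exact h4

/-- a subgroup normalized by an element of finite order is normalized by its inverse -/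
theorem tw_comm_good_inv {R : Subgroup G} {z : G} {k : ℕ} (hk : 0 < k) (hz : z ^ k = 1)
    (h : ∀ x ∈ R, z * x * z⁻¹ ∈ R) : ∀ x ∈ R, z⁻¹ * x * z ∈ R := by
  have h1 : ∀ j : ℕ, ∀ x ∈ R, z ^ j * x * (z ^ j)⁻¹ ∈ R := by
    intro j
    induction j with
    | zero =>
      intro x hx
      simpa using hx
    | succ j ih =>
      intro x hx
      have := h _ (ih x hx)
      rwa [show z * (z ^ j * x * (z ^ j)⁻¹) * z⁻¹ = z ^ (j + 1) * x * (z ^ (j + 1))⁻¹ by
        rw [pow_succ']; group] at this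
  intro x hx
  have h2 : z ^ (k - 1) = z⁻¹ := by
    rw [eq_inv_iff_mul_eq_one, ← pow_succ, Nat.sub_add_cancel hk, hz]
  have h3 := h1 (k - 1) x hx
  rwa [h2, inv_inv] at h3

/-- **Section 4 (b)**: `p`-good and `q`-good elements of prime order commute, if `n` is odd and no
prime `s ≠ p, q` has its square dividing `n`.

Proof. `T = closure {z, y}`, `c = y⁻¹ * (z⁻¹ * y * z)`. `tw_C` for `(p, q)`: `InO N T c`; `tw_C` for
`(q, p)` (`z ↔ y`): `InO M (closure {y, z}) (z⁻¹ * (y⁻¹ * z * y))`, and this element is `c⁻¹`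
(`closure {y, z} = T`). So `c ∈ J`, where `J` is the intersection of the two subgroups (normalized
by `T`, exponents `M` and `N`, so `J` has order prime to `p` and to `q`).
`z` centralizes `J`: otherwise `tw_pick` (in the finite group `T`, `D = J`, `u = z`) gives a prime
`s ∣ gcd (M, N)`-ish and an `s`-subgroup `R ≤ J` normalized by `z` and `e ∈ R` with `z * e ≠ e * z`.
`s ≠ p`, `s ≠ q`, `s ∣ n`, `s ^ 2 ∤ n`, so `n = S * s ^ 1` with `¬ s ∣ S`, and `e ^ s = 1` (`e` is an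
`s`-element of order dividing `n`). `tw_good` with `a = 1`, `u = e` (`hnum`: `r ^ k + 1 ≠ s` as
`r`, `s` are odd): `GoodS S (s ^ 1) e`. `tw_C` for the primes `p`, `s`:
`InO S (closure {z, e}) (e⁻¹ * (z⁻¹ * e * z))`; this commutator is in `R` (an `s`-group) and has
order dividing `S`: it is `1`, contradiction.
So `c` commutes with `z`: `z⁻¹ * y * z = y * c`, `z⁻ᵏ * y * zᵏ = y * c ^ k`, so `c ^ p = 1` (`z ^ p = 1`)
and `c ^ M = 1`: `c = 1`. -/
theorem tw_comm_good {n p q a b M N : ℕ} (H : TwG n G) (hodd : Odd n) (hp : p.Prime) (hq : q.Prime)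
    (hpq : p ≠ q) (hM : n = M * p ^ a) (hN : n = N * q ^ b) (hpM : ¬ p ∣ M) (hqN : ¬ q ∣ N)
    (hs : ∀ s : ℕ, s.Prime → s ≠ p → s ≠ q → ¬ s ^ 2 ∣ n) (hnoM : NoN M G) (hnoN : NoN N G)
    {z y : G} (hz : GoodS M (p ^ a) z) (hzp : z ^ p = 1) (hy : GoodS N (q ^ b) y)
    (hyq : y ^ q = 1) : z * y = y * z := by
  have hn0 : 0 < n := H.pos
  have hM0 : 0 < M := by
    rw [hM] at hn0
    exact Nat.pos_of_mul_pos_right hn0
  obtain ⟨N1, h11, h12, h13, h14⟩ := tw_C H hp hq hpq hM hN hpM hqN hnoM hz hy hyq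
  obtain ⟨N2, h21, h22, h23, h24⟩ := tw_C H hq hp hpq.symm hN hM hqN hpM hnoN hy hz hzp
  have hTT : closure {y, z} = closure {z, y} := by rw [Set.pair_comm]
  rw [hTT] at h21 h23
  obtain ⟨hfT, hsT⟩ := H.h2 z y
  set T := closure {z, y} with hT
  set c := y⁻¹ * (z⁻¹ * y * z) with hc
  have hcinv : c⁻¹ = z⁻¹ * (y⁻¹ * z * y) := by rw [hc]; group
  rw [← hcinv] at h22
  have hcJ1 : c ∈ N1 := h12
  have hcJ2 : c ∈ N2 := by simpa using N2.inv_mem h22
  have hzT : z ∈ T := subset_closure (by simp)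
  -- `z` centralizes `N1 ⊓ N2`
  have hcent : ∀ x ∈ N1 ⊓ N2, z * x = x * z := by
    by_contra hcon
    push Not at hcon
    obtain ⟨x, hxJ, hx⟩ := hcon
    obtain ⟨r, hr, hrM, R, hRD, hRr, hRu, e, heR, hne⟩ := tw_pick (F := T) hp hpM
      ((N1 ⊓ N2).subgroupOf T) (fun w hw => Subtype.ext (by simpa using h24 _ hw.2))
      (u := ⟨z, hzT⟩) (z := ⟨z, hzT⟩) (Subtype.ext (by simpa using hz.1))
      (fun w hw => ⟨h13 z hzT _ hw.1, h23 z hzT _ hw.2⟩)
      ⟨⟨x, h11 hxJ.1⟩, hxJ, fun h => hx (congrArg Subtype.val h)⟩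
    -- the element `e`
    have he1 : (e : G) ≠ 1 := by
      intro h
      apply hne
      have : e = 1 := Subtype.ext h
      rw [this, mul_one, one_mul]
    obtain ⟨k, hk⟩ := hRr ⟨e, heR⟩
    have hek : (e : G) ^ (r ^ k) = 1 := by
      have h3 := congrArg (fun w : R => ((w : T) : G)) hk
      simpa using h3
    have heN : (e : G) ^ N = 1 := h14 _ (hRD heR).1
    have hord : orderOf (e : G) ∣ r ^ k := orderOf_dvd_of_pow_eq_one hek
    obtain ⟨j, hjk, hj⟩ := (Nat.dvd_prime_pow hr).1 hord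
    have hj0 : j ≠ 0 := by
      rintro rfl
      rw [pow_zero, orderOf_eq_one_iff] at hj
      exact he1 hj
    have hrord : r ∣ orderOf (e : G) := by
      rw [hj]
      exact dvd_pow_self r hj0
    have hrN : r ∣ N := hrord.trans (orderOf_dvd_of_pow_eq_one heN)
    have hrp : r ≠ p := by
      rintro rfl
      exact hpM hrM
    have hrq : r ≠ q := by
      rintro rfl
      exact hqN hrN
    have hr2 := hs r hr hrp hrq
    have hrn : r ∣ n := by
      rw [hM]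
      exact Dvd.dvd.mul_right hrM _
    obtain ⟨S, hS⟩ := hrn
    have hrS : ¬ r ∣ S := by
      rintro ⟨S', hS'⟩
      apply hr2
      refine ⟨S', ?_⟩
      rw [hS, hS']
      ring
    have hS1 : n = S * r ^ 1 := by rw [pow_one, hS, mul_comm]
    have hj1 : j = 1 := by
      have h3 : r ^ j ∣ n := by
        rw [← hj]
        exact orderOf_dvd_of_pow_eq_one (H.hexp _)
      by_contra hcon
      apply hr2
      exact (pow_dvd_pow r (by omega)).trans h3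
    have her : (e : G) ^ r = 1 := by
      have h3 := pow_orderOf_eq_one (e : G)
      rwa [hj, hj1, pow_one] at h3
    have hSodd : Odd S := by
      rw [hS] at hodd
      exact (Nat.odd_mul.1 hodd).2
    have hrodd : Odd r := by
      rw [hS] at hodd
      exact (Nat.odd_mul.1 hodd).1
    have hgood : GoodS S (r ^ 1) (e : G) := by
      have h3 := tw_good H hr one_pos hS1 hrS (by
        intro r' _ hr'S j' s' hj1' hj2' _ heq
        have hj' : j' = 1 := by omega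
        rw [hj', pow_one] at heq
        have h4 : Odd (r' ^ s') := (Odd.of_dvd_nat hSodd hr'S).pow
        rw [← heq] at hrodd
        exact (Nat.not_odd_iff_even.2 h4.add_one) hrodd) (u := (e : G)) (by rw [pow_one]; exact her)
      simpa using h3
    have hC := tw_C H hp hr (Ne.symm hrp) hM hS1 hpM hrS hnoM hz hgood her
    have hCS := hC.odd
    -- the commutator is in `R`
    have hRinv : ∀ w ∈ R, (⟨z, hzT⟩ : T)⁻¹ * w * ⟨z, hzT⟩ ∈ R :=
      tw_comm_good_inv hp.pos (Subtype.ext (by simpa using hzp)) hRu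
    have hmem : e⁻¹ * ((⟨z, hzT⟩ : T)⁻¹ * e * ⟨z, hzT⟩) ∈ R :=
      R.mul_mem (R.inv_mem heR) (hRinv e heR)
    obtain ⟨l, hl⟩ := hRr ⟨_, hmem⟩
    have hl' : ((e : G)⁻¹ * (z⁻¹ * (e : G) * z)) ^ (r ^ l) = 1 := by
      have h3 := congrArg (fun w : R => ((w : T) : G)) hl
      simpa using h3
    have hcop : Nat.Coprime S (r ^ l) :=
      Nat.Coprime.pow_right l (((Nat.Prime.coprime_iff_not_dvd hr).2 hrS).symm)
    have h1 := tw_one hcop hCS hl'
    apply hne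
    apply Subtype.ext
    have h5 : z⁻¹ * (e : G) * z = (e : G) := by
      rw [inv_mul_eq_one] at h1
      exact h1.symm
    change z * (e : G) = (e : G) * z
    calc z * (e : G) = z * (z⁻¹ * (e : G) * z) := by rw [h5]
      _ = (e : G) * z := by group
  -- end
  have hzc : z * c = c * z := hcent c ⟨hcJ1, hcJ2⟩
  have hyc : z⁻¹ * y * z = y * c := by rw [hc]; group
  have hzck : ∀ k : ℕ, z⁻¹ * c ^ k * z = c ^ k := by
    intro k
    have h3 : z * c ^ k = c ^ k * z := (Commute.pow_right (show Commute z c from hzc) k)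
    rw [mul_assoc, ← h3, inv_mul_cancel_left]
  have hk : ∀ k : ℕ, (z ^ k)⁻¹ * y * z ^ k = y * c ^ k := by
    intro k
    induction k with
    | zero => simp
    | succ k ih =>
      calc (z ^ (k + 1))⁻¹ * y * z ^ (k + 1) = z⁻¹ * ((z ^ k)⁻¹ * y * z ^ k) * z := by
            rw [pow_succ]; group
        _ = (z⁻¹ * y * z) * (z⁻¹ * c ^ k * z) := by rw [ih]; group
        _ = y * c * c ^ k := by rw [hyc, hzck]
        _ = y * c ^ (k + 1) := by rw [pow_succ', mul_assoc]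
  have hcp : c ^ p = 1 := by
    have h3 := hk p
    rw [hzp, inv_one, one_mul, mul_one] at h3
    exact (mul_eq_left.1 h3.symm)
  have hcM : c ^ M = 1 := h24 c hcJ2
  have hc1 : c = 1 := tw_one ((Nat.Prime.coprime_iff_not_dvd hp).2 hpM).symm hcM hcp
  rw [hc1, mul_one] at hyc
  calc z * y = z * (z⁻¹ * y * z) := by rw [hyc]
    _ = y * z := by group

end Pool.Agent.Lib.MP_544bd1_al
end
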