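import Mathlib
import Pool.Agent.Lib.MP_544bd1_al.TwR4
import Pool.Agent.Lib.MP_544bd1_al.TwS2
import Pool.Agent.Lib.MP_544bd1_al.TwF4
import Pool.Agent.Lib.MP_544bd1_al.TwP1

section

/-!
Two generators, part 2, refinement: two elements of prime order commuting modulo a normal subgroup.
-/

namespace Pool.Agent.Lib.MP_544bd1_al

open Subgroup

/-- the index of the centralizer is prime to `s`, if all invariant `s`-subgroups are centralized.
Proof. `tw_inv_sylow` (with `p := s`, `q := p`, `D := J`, `E := zpowers z`) gives an `s`-subgroup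
`S ≤ J` normalized by `z` with `Nat.card J = Nat.card S * k`, `¬ s ∣ k`. By `h` it is contained in
the centralizer of `z`; so the index of this centralizer in `J` divides `k`. -/
theorem tw_cent_index {F : Type} [Group F] [Finite F] {p s : ℕ} (hp : p.Prime) (hs : s.Prime)
    {z : F} (hz : z ^ p = 1) (J : Subgroup F) (hJz : ∀ x ∈ J, z * x * z⁻¹ ∈ J)
    (hJp : ¬ p ∣ Nat.card J)
    (h : ∀ R : Subgroup F, R ≤ J → IsPGroup s R → (∀ x ∈ R, z * x * z⁻¹ ∈ R) →
      ∀ x ∈ R, z * x = x * z) : ¬ s ∣ ((centralizer {z}).subgroupOf J).index := by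
  have hpow : ∀ k : ℕ, ∀ x ∈ J, z ^ k * x * (z ^ k)⁻¹ ∈ J := by
    intro k
    induction k with
    | zero =>
      intro x hx
      simpa using hx
    | succ k ih =>
      intro x hx
      have h1 := ih _ (hJz x hx)
      have h2 : z ^ (k + 1) * x * (z ^ (k + 1))⁻¹ = z ^ k * (z * x * z⁻¹) * (z ^ k)⁻¹ := by
        rw [pow_succ, mul_inv_rev]
        simp only [mul_assoc]
      rw [h2]
      exact h1
  have hDE : ∀ e ∈ zpowers z, ∀ x ∈ J, e * x * e⁻¹ ∈ J := by
    intro e he x hx
    obtain ⟨k, rfl⟩ := (mem_powers_iff_mem_zpowers (x := z) (y := e)).mpr he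
    exact hpow k x hx
  have hE : IsPGroup p (zpowers z) := by
    rintro ⟨e, he⟩
    obtain ⟨k, rfl⟩ := Subgroup.mem_zpowers_iff.mp he
    refine ⟨1, Subtype.ext ?_⟩
    rw [Subgroup.coe_pow, Subgroup.coe_one, pow_one]
    change (z ^ k) ^ p = 1
    rw [← zpow_natCast, ← zpow_mul, mul_comm, zpow_mul, zpow_natCast, hz, one_zpow]
  obtain ⟨S, hSJ, hSp, hSz, k, hk, hsk⟩ := tw_inv_sylow hs hp J (zpowers z) hDE hE hJp
  have hSc := h S hSJ hSp (fun x hx => hSz z (mem_zpowers z) x hx)
  have hle : S.subgroupOf J ≤ (centralizer {z}).subgroupOf J := by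
    intro x hx
    rw [mem_subgroupOf] at hx ⊢
    rw [mem_centralizer_singleton_iff]
    exact (hSc _ hx).symm
  have hcard : Nat.card (S.subgroupOf J) = Nat.card S :=
    Nat.card_congr (subgroupOfEquivOfLe hSJ).toEquiv
  have hidx : (S.subgroupOf J).index = k := by
    have h1 := Subgroup.card_mul_index (S.subgroupOf J)
    rw [hcard, hk] at h1
    exact Nat.eq_of_mul_eq_mul_left Nat.card_pos h1
  intro hd
  apply hsk
  rw [← hidx]
  exact hd.trans (index_dvd_of_le hle)

/-- Two elements `z`, `y` of different prime orders `p`, `q` commute, if their commutator lies in a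
subgroup `J` normalized by both, of order prime to `p` and `q`, such that for each prime `s` one of
`z`, `y` centralizes all the `s`-subgroups of `J` which it normalizes.

Proof. Let `A`, `B` be the centralizers of `z`, `y` in `J`. By `tw_cent_index` their indices in `J`
are coprime (a common prime divisor `s` contradicts `h` for `s`). `tw_coset_fix` (with `N := J`,
`x := y`, `k := 1`) gives `j ∈ J` such that `y * j` commutes with `z`. By `tw_coprime_index` (in the
group `J`) `j = b * a` with `b ∈ B`, `a ∈ A`. So `z` commutes with `y * j * a⁻¹ = y * b`, and `y` is a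
power of `y * b` (`b` commutes with `y` and `b ^ Nat.card J = 1`, `Nat.card J` is prime to `q`;
`tw_coprime_comm`). -/
theorem tw_two_comm {F : Type} [Group F] [Finite F] {p q : ℕ} (hp : p.Prime) (hq : q.Prime)
    {z y : F} (hz : z ^ p = 1) (hy : y ^ q = 1) (J : Subgroup F)
    (hJz : ∀ x ∈ J, z * x * z⁻¹ ∈ J) (hJy : ∀ x ∈ J, y * x * y⁻¹ ∈ J)
    (hJp : ¬ p ∣ Nat.card J) (hJq : ¬ q ∣ Nat.card J) (hc : y⁻¹ * (z * y * z⁻¹) ∈ J)
    (h : ∀ s : ℕ, s.Prime → s ∣ Nat.card J →
      (∀ R : Subgroup F, R ≤ J → IsPGroup s R → (∀ x ∈ R, z * x * z⁻¹ ∈ R) →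
        ∀ x ∈ R, z * x = x * z) ∨
      (∀ R : Subgroup F, R ≤ J → IsPGroup s R → (∀ x ∈ R, y * x * y⁻¹ ∈ R) →
        ∀ x ∈ R, y * x = x * y)) : z * y = y * z := by
  have hcop : Nat.Coprime ((centralizer {z}).subgroupOf J).index
      ((centralizer {y}).subgroupOf J).index := by
    by_contra hne
    obtain ⟨s, hs, hs1, hs2⟩ := Nat.Prime.not_coprime_iff_dvd.mp hne
    rcases h s hs (hs1.trans (Subgroup.index_dvd_card _)) with h1 | h1
    · exact tw_cent_index hp hs hz J hJz hJp h1 hs1
    · exact tw_cent_index hq hs hy J hJy hJq h1 hs2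
  have hz1 : z ^ (p ^ 1) = 1 := by rw [pow_one]; exact hz
  obtain ⟨w, hwJ, hzw⟩ := tw_coset_fix hp hz1 J hJp hJz hc
  obtain ⟨b, hb, a, ha, hba⟩ := tw_coprime_index _ _ hcop (⟨y⁻¹ * w, hwJ⟩ : J)
  have hba1 : y⁻¹ * w = (b : F) * (a : F) := congrArg Subtype.val hba
  rw [mem_subgroupOf, mem_centralizer_singleton_iff] at ha hb
  have hw : w = y * b * a := by
    rw [mul_assoc, ← hba1, mul_inv_cancel_left]
  have hyb : y * (b : F) = w * (a : F)⁻¹ := by
    rw [hw, mul_inv_cancel_right]
  have hcza : Commute z (a : F) := ha.symm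
  have hczw : Commute z w := hzw
  have hczyb : Commute z (y * (b : F)) := by
    rw [hyb]
    exact hczw.mul_right hcza.inv_right
  have hbc : (b : F) ^ Nat.card J = 1 := by
    have h1 : b ^ Nat.card J = 1 := pow_card_eq_one'
    rw [← Subgroup.coe_pow, h1, Subgroup.coe_one]
  have hcop2 : Nat.Coprime q (Nat.card J) := (Nat.Prime.coprime_iff_not_dvd hq).mpr hJq
  have hyb2 : y * (b : F) = b * y := hb.symm
  have hmem := (tw_coprime_comm hcop2 hy hbc hyb2).1
  obtain ⟨k, hk⟩ := Subgroup.mem_zpowers_iff.mp hmem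
  have hfin : Commute z ((y * (b : F)) ^ k) := hczyb.zpow_right k
  rw [hk] at hfin
  exact hfin

end Pool.Agent.Lib.MP_544bd1_al
end

section

/-!
Two generators, part 2, refinement: a cyclic invariant subgroup.
-/

namespace Pool.Agent.Lib.MP_544bd1_al

open Subgroup
open scoped commutatorElement

private lemma tw_cyc_eigen {A : Type} [Group A] (hcomm : ∀ a b : A, a * b = b * a) {s p : ℕ}
    (hs : s.Prime) (hp : p.Prime) (hps : p ∣ s - 1) (hA : ∀ a : A, a ^ s = 1) (φ : A →* A)
    (hφ : ∀ a, (φ^[p]) a = a) {v : A} (hv : φ v ≠ v) : ∃ (a : A) (k : ℕ), φ a = a ^ k ∧ φ a ≠ a := by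
  let i : CommGroup A := { ‹Group A› with mul_comm := hcomm }
  exact tw_eigen hs hp hps hA φ hφ hv

/-- If `p ∣ s - 1` and the `p`-element `z` (of order `p`) normalizes the finite `s`-group `R` but
does not centralize it, then it normalizes but does not centralize a cyclic subgroup of `R`.

Proof. Induction on `Nat.card R`. If a proper subgroup of `R` is normalized but not centralized by
`z`, use induction. So assume that all proper subgroups of `R` normalized by `z` are centralized.
Let `N = (frattini R).map R.subtype` (it is normalized by `z` as `frattini R` is characteristic;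
see the proof of `tw_module` in TwM.lean). By `tw_abz` (coprime action, with `frattini_nongenerating`)
there is `x ∈ R` with `x⁻¹ * (z * x * z⁻¹) ∉ N`. Let `A = R ⧸ frattini R`, abelian of exponent `s` by
`tw_frattini`, `φ : A →* A` induced by conjugation with `z` (`φ^[p] = id`), `v` the image of `x`:
`φ v ≠ v`. `tw_eigen` gives the image `a` of some `r ∈ R` with `φ a = a ^ k`, `φ a ≠ a`. So
`z * r * z⁻¹ ∈ r ^ k N`. The subgroup `zpowers r ⊔ N` is normalized by `z` and not centralized
(`z * r * z⁻¹ ≠ r`), so it is `R`; so `zpowers r = R` (`frattini_nongenerating`) and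
`z * r * z⁻¹ ∈ R = zpowers r`. -/
theorem tw_cyc {G : Type} [Group G] {p s : ℕ} (hp : p.Prime) (hs : s.Prime) (hps : p ∣ s - 1)
    {z : G} (hz : z ^ p = 1) (R : Subgroup G) [Finite R] (hR : IsPGroup s R)
    (hzR : ∀ x ∈ R, z * x * z⁻¹ ∈ R) (hne : ∃ x ∈ R, z * x ≠ x * z) :
    ∃ r ∈ R, z * r * z⁻¹ ∈ zpowers r ∧ z * r ≠ r * z := by
  classical
  have hfs : Fact s.Prime := ⟨hs⟩
  have hsp : s ≠ p := by
    rintro rfl
    have h1 := Nat.le_of_dvd (by have := hs.two_le; omega) hps
    have h2 := hs.two_le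
    omega
  induction hn : Nat.card R using Nat.strong_induction_on generalizing R with
  | _ n ih =>
    by_cases hsub : ∃ R' : Subgroup G, R' < R ∧ (∀ x ∈ R', z * x * z⁻¹ ∈ R') ∧
        ∃ x ∈ R', z * x ≠ x * z
    · obtain ⟨R', hlt, hzR', hne'⟩ := hsub
      have hfin : Finite R' := Finite.of_injective _ (Subgroup.inclusion_injective hlt.le)
      have hcard : Nat.card R' < n := by
        rw [← hn]
        have h2 : (R' : Set G) ⊂ (R : Set G) := hlt
        have h3 := Set.ncard_lt_ncard h2 (Set.toFinite _)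
        exact h3
      obtain ⟨r, hr, h1, h2⟩ := ih _ hcard R' (hR.of_injective _
        (Subgroup.inclusion_injective hlt.le)) hzR' hne' rfl
      exact ⟨r, hlt.le hr, h1, h2⟩
    · have hmax : ∀ R' : Subgroup G, R' ≤ R → (∀ x ∈ R', z * x * z⁻¹ ∈ R') →
          (∃ x ∈ R', z * x ≠ x * z) → R' = R := by
        intro R' h1 h2 h3
        by_contra h4
        exact hsub ⟨R', lt_of_le_of_ne h1 h4, h2, h3⟩
      obtain ⟨hcomm, hpow⟩ := tw_frattini hs hR
      have hcommQ : ∀ a b : R ⧸ frattini R, a * b = b * a := by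
        intro a b
        obtain ⟨x, rfl⟩ := QuotientGroup.mk_surjective a
        obtain ⟨y, rfl⟩ := QuotientGroup.mk_surjective b
        rw [← QuotientGroup.mk_mul, ← QuotientGroup.mk_mul, QuotientGroup.eq]
        have h1 : (x * y)⁻¹ * (y * x) = ⁅y⁻¹, x⁻¹⁆ := by
          rw [commutatorElement_def]; group
        rw [h1]
        exact hcomm (Subgroup.commutator_mem_commutator (Subgroup.mem_top _) (Subgroup.mem_top _))
      have hzQ : ∀ v : R ⧸ frattini R, v ^ s = 1 := by
        intro v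
        obtain ⟨x, rfl⟩ := QuotientGroup.mk_surjective v
        rw [← QuotientGroup.mk_pow, QuotientGroup.eq_one_iff]
        exact hpow x
      -- conjugation by z as an automorphism of R
      let c0 : R →* R :=
        { toFun := fun x => ⟨z * x * z⁻¹, hzR x x.2⟩
          map_one' := by apply Subtype.ext; simp
          map_mul' := by
            intro x y
            apply Subtype.ext
            simp [mul_assoc] }
      have hc0v : ∀ x : R, (c0 x : G) = z * x * z⁻¹ := fun x => rfl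
      have hinj : Function.Injective c0 := by
        intro x y hxy
        have h1 := congrArg (Subtype.val) hxy
        rw [hc0v, hc0v] at h1
        exact Subtype.ext (mul_left_cancel (mul_right_cancel h1))
      have hbij : Function.Bijective c0 := Finite.injective_iff_bijective.1 hinj
      let e : R ≃* R := MulEquiv.ofBijective c0 hbij
      have hchar : frattini R ≤ (frattini R).comap c0 := by
        intro x hx
        have h1 := (Subgroup.characteristic_iff_le_comap.1 (frattini_characteristic (G := R)) e) hx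
        exact h1
      let φ : (R ⧸ frattini R) →* (R ⧸ frattini R) :=
        QuotientGroup.map (frattini R) (frattini R) c0 hchar
      have hφmk : ∀ x : R, φ (x : R ⧸ frattini R) = (c0 x : R ⧸ frattini R) := fun x => rfl
      have hφit : ∀ (j : ℕ) (x : R), φ^[j] (x : R ⧸ frattini R) =
          ((c0^[j] x : R) : R ⧸ frattini R) := by
        intro j
        induction j with
        | zero => intro x; rfl
        | succ j ihj =>
          intro x
          rw [Function.iterate_succ_apply, Function.iterate_succ_apply, hφmk, ihj]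
      have hc0it : ∀ (j : ℕ) (x : R), ((c0^[j] x : R) : G) = z ^ j * x * (z ^ j)⁻¹ := by
        intro j
        induction j with
        | zero => intro x; simp
        | succ j ihj =>
          intro x
          rw [Function.iterate_succ_apply', hc0v, ihj, pow_succ']
          group
      have hφp : ∀ a, φ^[p] a = a := by
        intro a
        obtain ⟨x, rfl⟩ := QuotientGroup.mk_surjective a
        rw [hφit]
        congr 1
        apply Subtype.ext
        rw [hc0it, hz]
        simp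
      -- the frattini subgroup is a set of nongenerators
      have hgen : ∀ C : Subgroup G, C ≤ R →
          (∀ x ∈ R, ∃ c ∈ C, ∃ n ∈ (frattini R).map R.subtype, x = c * n) → C = R := by
        intro C hC hCN
        have h1 : C.subgroupOf R ⊔ frattini R = ⊤ := by
          rw [eq_top_iff]
          intro y _
          obtain ⟨a, ha, _, ⟨n, hn, rfl⟩, hxa⟩ := hCN y y.2
          have h2 : y = ⟨a, hC ha⟩ * n := Subtype.ext hxa
          rw [h2]
          exact Subgroup.mul_mem_sup (show (⟨a, hC ha⟩ : R) ∈ C.subgroupOf R from ha) hn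
        have h2 := frattini_nongenerating h1
        apply le_antisymm hC
        intro y hy
        have h3 : (⟨y, hy⟩ : R) ∈ C.subgroupOf R := by rw [h2]; trivial
        exact h3
      have hNz : ∀ x ∈ (frattini R).map R.subtype, z * x * z⁻¹ ∈ (frattini R).map R.subtype := by
        rintro _ ⟨y, hy, rfl⟩
        exact ⟨c0 y, hchar hy, rfl⟩
      have hNR : (frattini R).map R.subtype ≤ R := by
        rintro _ ⟨y, _, rfl⟩
        exact y.2
      have hex : ∃ x ∈ R, x⁻¹ * (z * x * z⁻¹) ∉ (frattini R).map R.subtype := by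
        by_contra hcon
        push Not at hcon
        obtain ⟨x, hx, hxz⟩ := hne
        exact hxz (tw_abz hs hp hsp R hR (k := 1) (by rw [pow_one]; exact hz) hzR
          ((frattini R).map R.subtype) hNR hNz hgen hcon x hx)
      obtain ⟨x, hx, hxN⟩ := hex
      have hv : φ ((⟨x, hx⟩ : R) : R ⧸ frattini R) ≠ ((⟨x, hx⟩ : R) : R ⧸ frattini R) := by
        intro h1
        rw [hφmk] at h1
        have h2 := QuotientGroup.eq.1 h1.symm
        exact hxN ⟨_, h2, rfl⟩
      obtain ⟨a, k, hak, hane⟩ := tw_cyc_eigen hcommQ hs hp hps hzQ φ hφp hv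
      obtain ⟨r, rfl⟩ := QuotientGroup.mk_surjective a
      have hzr : z * (r : G) ≠ r * z := by
        intro h1
        apply hane
        rw [hφmk]
        congr 1
        apply Subtype.ext
        rw [hc0v, h1, mul_assoc, mul_inv_cancel, mul_one]
      have hrk : ∃ m ∈ (frattini R).map R.subtype, z * (r : G) * z⁻¹ = (r : G) ^ k * m := by
        rw [hφmk, ← QuotientGroup.mk_pow] at hak
        have h2 := QuotientGroup.eq.1 hak.symm
        refine ⟨_, ⟨_, h2, rfl⟩, ?_⟩
        simp [hc0v]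
      obtain ⟨m, hm, hzrm⟩ := hrk
      have hS : zpowers (r : G) ⊔ (frattini R).map R.subtype = R := by
        apply hmax
        · refine sup_le ?_ hNR
          rw [zpowers_le]
          exact r.2
        · have hle : zpowers (r : G) ⊔ (frattini R).map R.subtype ≤
              (zpowers (r : G) ⊔ (frattini R).map R.subtype).comap (MulAut.conj z).toMonoidHom := by
            refine sup_le ?_ ?_
            · rw [zpowers_le]
              change z * (r : G) * z⁻¹ ∈ zpowers (r : G) ⊔ (frattini R).map R.subtype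
              rw [hzrm]
              exact mul_mem (Subgroup.mem_sup_left (pow_mem (mem_zpowers _) k))
                (Subgroup.mem_sup_right hm)
            · intro y hy
              change z * y * z⁻¹ ∈ zpowers (r : G) ⊔ (frattini R).map R.subtype
              exact Subgroup.mem_sup_right (hNz y hy)
          intro y hy
          exact hle hy
        · exact ⟨r, Subgroup.mem_sup_left (mem_zpowers _), hzr⟩
      have hS2 : zpowers (r : G) = R := by
        have h1 : (zpowers (r : G)).subgroupOf R ⊔ frattini R = ⊤ := by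
          rw [eq_top_iff]
          intro y _
          have hy : (y : G) ∈ zpowers (r : G) ⊔ (frattini R).map R.subtype := by
            rw [hS]; exact y.2
          have hle : zpowers (r : G) ⊔ (frattini R).map R.subtype ≤
              ((zpowers (r : G)).subgroupOf R ⊔ frattini R).map R.subtype := by
            refine sup_le ?_ (Subgroup.map_mono le_sup_right)
            rw [zpowers_le]
            exact ⟨r, Subgroup.mem_sup_left (mem_zpowers (r : G)), rfl⟩
          obtain ⟨y', hy', hyy⟩ := hle hy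
          have : y' = y := Subtype.ext hyy
          rw [← this]
          exact hy'
        have h2 := frattini_nongenerating h1
        apply le_antisymm
        · rw [zpowers_le]; exact r.2
        · intro y hy
          have h3 : (⟨y, hy⟩ : R) ∈ (zpowers (r : G)).subgroupOf R := by rw [h2]; trivial
          exact h3
      refine ⟨r, r.2, ?_, hzr⟩
      rw [hS2]
      exact hzR r r.2

end Pool.Agent.Lib.MP_544bd1_al
end

section

/-!
Two generators, part 2, refinement: Lemma E for elements of prime power order.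
-/

namespace Pool.Agent.Lib.MP_544bd1_al

open Subgroup

theorem tw_Ecyc_triv_conj {G : Type} [Group G] {z r : G} {i : ℤ}
    (h : z⁻¹ * r * z = r ^ (1 + i)) (n : ℕ) : (z ^ n)⁻¹ * r * z ^ n = r ^ ((1 + i) ^ n) := by
  induction n with
  | zero => simp
  | succ n ih =>
    calc (z ^ (n + 1))⁻¹ * r * z ^ (n + 1) = z⁻¹ * ((z ^ n)⁻¹ * r * z ^ n) * z := by
          rw [pow_succ, mul_inv_rev]; simp only [mul_assoc]
      _ = z⁻¹ * r ^ ((1 + i) ^ n) * z := by rw [ih]
      _ = (z⁻¹ * r * z) ^ ((1 + i) ^ n) := by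
          have := conj_zpow (a := z⁻¹) (b := r) (i := (1 + i) ^ n)
          rw [inv_inv] at this
          exact this.symm
      _ = r ^ ((1 + i) ^ (n + 1)) := by rw [h, ← zpow_mul, ← pow_succ']

theorem tw_Ecyc_triv_sum {p : ℕ} {s i : ℤ} (hi : s ∣ i) :
    s ∣ (∑ l ∈ Finset.range p, (1 + i) ^ l) - p := by
  have h1 : (∑ l ∈ Finset.range p, (1 + i) ^ l) - (p : ℤ) =
      ∑ l ∈ Finset.range p, ((1 + i) ^ l - 1) := by
    rw [Finset.sum_sub_distrib, Finset.sum_const, Finset.card_range]
    simp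
  rw [h1]
  refine Finset.dvd_sum fun l _ => ?_
  have h2 : (1 + i) - 1 ∣ (1 + i) ^ l - 1 := sub_one_dvd_pow_sub_one (1 + i) l
  rw [add_sub_cancel_left] at h2
  exact hi.trans h2

/-- elementary: `z` of prime order `p` acting on a cyclic `s`-group `⟨r⟩`, trivially modulo the
`s`-th powers, `s ≠ p`, acts trivially.
Proof. `z⁻¹ * r * z = r ^ (1 + i)`, `s ∣ i`, so `r = (z ^ p)⁻¹ * r * z ^ p = r ^ ((1 + i) ^ p)`.
`(1 + i) ^ p - 1 = (∑_{l < p} (1 + i) ^ l) * i` (`geom_sum_mul`), the sum is `≡ p mod s`, so it is prime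
to `s` and to `s ^ k`; so `r ^ i = 1` (as `r ^ (s ^ k) = 1`, `r ^ (S * i) = 1`, `S` prime to `s`). -/
theorem tw_Ecyc_triv {G : Type} [Group G] {p s k : ℕ} (hp : p.Prime) (hs : s.Prime) (hps : p ≠ s)
    {z r : G} (hzp : z ^ p = 1) (hr : r ^ (s ^ k) = 1) {i : ℤ} (hi : (s : ℤ) ∣ i)
    (h : z⁻¹ * r * z = r ^ (1 + i)) : z * r = r * z := by
  have h1 := tw_Ecyc_triv_conj h p
  rw [hzp, inv_one, one_mul, mul_one] at h1
  set S : ℤ := ∑ l ∈ Finset.range p, (1 + i) ^ l with hS
  have hgs : S * i = (1 + i) ^ p - 1 := by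
    have := geom_sum_mul (1 + i) p
    rwa [add_sub_cancel_left] at this
  have h2 : r ^ (S * i) = 1 := by
    rw [hgs, zpow_sub, zpow_one, ← h1, mul_inv_cancel]
  have hcop : IsCoprime S (s : ℤ) := by
    have h3 : ¬ (s : ℤ) ∣ S := by
      intro hd
      have h4 : (s : ℤ) ∣ (p : ℤ) := by
        have := dvd_sub hd (tw_Ecyc_triv_sum (p := p) hi)
        rwa [← hS, sub_sub_cancel] at this
      have h5 : s ∣ p := by exact_mod_cast h4
      exact hps ((Nat.prime_dvd_prime_iff_eq hs hp).1 h5).symm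
    exact ((Prime.coprime_iff_not_dvd (Nat.prime_iff_prime_int.1 hs)).2 h3).symm
  obtain ⟨a, b, hab⟩ := hcop.pow_right (n := k)
  have h6 : r ^ i = 1 := by
    have h7 : r ^ ((s : ℤ) ^ k) = r ^ (s ^ k) := by
      rw [← zpow_natCast r (s ^ k), Nat.cast_pow]
    calc r ^ i = r ^ (S * i * a + (s : ℤ) ^ k * (b * i)) := by
          congr 1
          linear_combination (-i) * hab
      _ = (r ^ (S * i)) ^ a * (r ^ (s ^ k)) ^ (b * i) := by
          rw [zpow_add, zpow_mul, zpow_mul r ((s : ℤ) ^ k), h7]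
      _ = 1 := by rw [h2, hr, one_zpow, one_zpow, one_mul]
  rw [zpow_add, zpow_one, h6, mul_one] at h
  calc z * r = z * (z⁻¹ * r * z) := by rw [h]
    _ = r * z := by group

/-- **Lemma E for elements of prime power order.**
Proof. `c = r⁻¹ * (z⁻¹ * r * z) = r ^ i` for some `i : ℤ`. If `s ∣ i` use `tw_Ecyc_triv`. Otherwise
`r ∈ zpowers c` and the proof of `tw_E` in TwE.lean works word by word (`tw_adjoin` for `r`, if
`r ≠ 1`). -/
theorem tw_Ecyc {G : Type} [Group G] {n M P : ℕ} (H : TwG n G) (hn : n = M * P)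
    (hcop : Nat.Coprime M P) (hno : NoN M G) {z r : G} (hz : GoodS M P z) {p s k : ℕ}
    (hp : p.Prime) (hs : s.Prime) (hps : p ≠ s) (hzp : z ^ p = 1) (hr : r ^ (s ^ k) = 1)
    (hrM : r ^ M = 1) (h : z⁻¹ * r * z ∈ zpowers r) : z * r = r * z := by
  by_cases hr1 : r = 1
  · rw [hr1, mul_one, one_mul]
  have hcm : r⁻¹ * (z⁻¹ * r * z) ∈ zpowers r := mul_mem (inv_mem (mem_zpowers r)) h
  obtain ⟨i, hi⟩ := mem_zpowers_iff.1 hcm
  by_cases hsi : (s : ℤ) ∣ i
  · refine tw_Ecyc_triv hp hs hps hzp hr hsi ?_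
    rw [zpow_add, zpow_one, hi, mul_inv_cancel_left]
  by_contra hne
  have hcop2 : IsCoprime ((s : ℤ) ^ k) i :=
    ((Prime.coprime_iff_not_dvd (Nat.prime_iff_prime_int.1 hs)).2 hsi).pow_left
  obtain ⟨a, b, hab⟩ := hcop2
  have hmc : r = (r⁻¹ * (z⁻¹ * r * z)) ^ b := by
    calc r = r ^ (a * (s : ℤ) ^ k + b * i) := by rw [hab, zpow_one]
      _ = (r ^ (s ^ k)) ^ a * (r ^ i) ^ b := by
        rw [zpow_add, mul_comm a, mul_comm b, zpow_mul, zpow_mul, ← zpow_natCast r (s ^ k)]
        push_cast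
        rfl
      _ = (r⁻¹ * (z⁻¹ * r * z)) ^ b := by rw [hr, one_zpow, one_mul, hi]
  obtain ⟨T, hfin, hsol, hmT, hzT, hT⟩ := tw_adjoin H hn hcop hno hrM hr1 h
  obtain ⟨N, K, h1, h2, h3, h4⟩ := (hz.inOP T hfin hsol hzT).comm hmT
  have h5 : InOP M P T r := by
    refine ⟨N, K, h1, h2, ?_, h4⟩
    rw [hmc]
    exact N.zpow_mem h3 b
  exact hT (h5.inO hcop hrM)

end Pool.Agent.Lib.MP_544bd1_al
end

section

/-!
Two generators, part 2, refinement: good elements centralize invariant subgroups of square-free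
part.
-/

namespace Pool.Agent.Lib.MP_544bd1_al

open Subgroup

/-- If `s ^ 2` does not divide the odd number `n`, a `p`-good element of order `p ≠ s` centralizes all
the finite `s`-subgroups which it normalizes.
Proof. This is the middle part of the proof of `tw_comm_good` in TwP1.lean (from `have he1` to the
contradiction `apply hne`): if `e ∈ R`, `e ≠ 1`, then `s ∣ n`, `n = S * s ^ 1`, `¬ s ∣ S`, `e ^ s = 1`,
`GoodS S (s ^ 1) e` by `tw_good`; `tw_C` for the primes `p`, `s` gives
`InO S (closure {z, e}) (e⁻¹ * (z⁻¹ * e * z))`; this commutator is in `R` and has order dividing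
`S`, so it is `1`. -/
theorem tw_cent_sqfree {G : Type} [Group G] {n p a M : ℕ} (H : TwG n G) (hodd : Odd n)
    (hp : p.Prime) (hM : n = M * p ^ a) (hpM : ¬ p ∣ M) (hnoM : NoN M G) {z : G}
    (hz : GoodS M (p ^ a) z) (hzp : z ^ p = 1) {s : ℕ} (hs : s.Prime) (hsp : s ≠ p)
    (hs2 : ¬ s ^ 2 ∣ n) (R : Subgroup G) (hR : IsPGroup s R) (hzR : ∀ x ∈ R, z * x * z⁻¹ ∈ R) :
    ∀ x ∈ R, z * x = x * z := by
  intro e heR
  by_contra hne
  have he1 : e ≠ 1 := by
    rintro rfl
    apply hne
    rw [mul_one, one_mul]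
  obtain ⟨k, hk⟩ := hR ⟨e, heR⟩
  have hek : e ^ (s ^ k) = 1 := by
    have h3 := congrArg (fun w : R => (w : G)) hk
    simpa using h3
  have hord : orderOf e ∣ s ^ k := orderOf_dvd_of_pow_eq_one hek
  obtain ⟨j, hjk, hj⟩ := (Nat.dvd_prime_pow hs).1 hord
  have hj0 : j ≠ 0 := by
    rintro rfl
    rw [pow_zero, orderOf_eq_one_iff] at hj
    exact he1 hj
  have hrord : s ∣ orderOf e := by
    rw [hj]
    exact dvd_pow_self s hj0
  have hrn : s ∣ n := hrord.trans (orderOf_dvd_of_pow_eq_one (H.hexp _))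
  obtain ⟨S, hS⟩ := hrn
  have hrS : ¬ s ∣ S := by
    rintro ⟨S', hS'⟩
    apply hs2
    refine ⟨S', ?_⟩
    rw [hS, hS']
    ring
  have hS1 : n = S * s ^ 1 := by rw [pow_one, hS, mul_comm]
  have hj1 : j = 1 := by
    have h3 : s ^ j ∣ n := by
      rw [← hj]
      exact orderOf_dvd_of_pow_eq_one (H.hexp _)
    by_contra hcon
    apply hs2
    exact (pow_dvd_pow s (by omega)).trans h3
  have her : e ^ s = 1 := by
    have h3 := pow_orderOf_eq_one e
    rwa [hj, hj1, pow_one] at h3
  have hSodd : Odd S := by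
    rw [hS] at hodd
    exact (Nat.odd_mul.1 hodd).2
  have hrodd : Odd s := by
    rw [hS] at hodd
    exact (Nat.odd_mul.1 hodd).1
  have hgood : GoodS S (s ^ 1) e := by
    have h3 := tw_good H hs one_pos hS1 hrS (by
      intro r' _ hr'S j' s' hj1' hj2' _ heq
      have hj' : j' = 1 := by omega
      rw [hj', pow_one] at heq
      have h4 : Odd (r' ^ s') := (Odd.of_dvd_nat hSodd hr'S).pow
      rw [← heq] at hrodd
      exact (Nat.not_odd_iff_even.2 h4.add_one) hrodd) (u := e) (by rw [pow_one]; exact her)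
    simpa using h3
  have hC := tw_C H hp hs (Ne.symm hsp) hM hS1 hpM hrS hnoM hz hgood her
  have hCS := hC.odd
  -- the commutator is in `R`
  have hRinv : ∀ w ∈ R, z⁻¹ * w * z ∈ R := tw_comm_good_inv hp.pos hzp hzR
  have hmem : e⁻¹ * (z⁻¹ * e * z) ∈ R := R.mul_mem (R.inv_mem heR) (hRinv e heR)
  obtain ⟨l, hl⟩ := hR ⟨_, hmem⟩
  have hl' : (e⁻¹ * (z⁻¹ * e * z)) ^ (s ^ l) = 1 := by
    have h3 := congrArg (fun w : R => (w : G)) hl
    simpa using h3
  have hcop : Nat.Coprime S (s ^ l) :=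
    Nat.Coprime.pow_right l (((Nat.Prime.coprime_iff_not_dvd hs).2 hrS).symm)
  have h1 := tw_one hcop hCS hl'
  apply hne
  have h5 : z⁻¹ * e * z = e := by
    rw [inv_mul_eq_one] at h1
    exact h1.symm
  calc z * e = z * (z⁻¹ * e * z) := by rw [h5]
    _ = e * z := by group

end Pool.Agent.Lib.MP_544bd1_al
end

section

/-!
Two generators, part 2, refinement: `p`-good and `q`-good elements commute.
-/

namespace Pool.Agent.Lib.MP_544bd1_al

open Subgroup

variable {G : Type} [Group G]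

/-- **Lemma E'.** If `p ∣ s - 1`, a good element of order `p` centralizes all the finite
`s`-subgroups which it normalizes. -/
theorem tw_Eprime {n M P : ℕ} (H : TwG n G) (hn : n = M * P) (hcop : Nat.Coprime M P)
    (hno : NoN M G) {z : G} (hz : GoodS M P z) {p s : ℕ} (hp : p.Prime) (hs : s.Prime)
    (hps : p ∣ s - 1) (hzp : z ^ p = 1) (R : Subgroup G) [Finite R] (hR : IsPGroup s R)
    (hRM : ∀ x ∈ R, x ^ M = 1) (hzR : ∀ x ∈ R, z * x * z⁻¹ ∈ R) : ∀ x ∈ R, z * x = x * z := by
  by_contra hcon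
  push Not at hcon
  obtain ⟨r, hrR, hr1, hr2⟩ := tw_cyc hp hs hps hzp R hR hzR hcon
  obtain ⟨k, hk⟩ := hR ⟨r, hrR⟩
  have hk' : r ^ (s ^ k) = 1 := by simpa using congrArg Subtype.val hk
  have hpne : p ≠ s := by
    rintro rfl
    have h1 := hs.two_le
    have h2 := Nat.le_of_dvd (by omega) hps
    omega
  have hinv : z⁻¹ * r * z ∈ zpowers r := by
    have h1 : ∀ x ∈ zpowers r, z * x * z⁻¹ ∈ zpowers r := by
      intro x hx
      obtain ⟨i, rfl⟩ := mem_zpowers_iff.1 hx
      rw [← conj_zpow]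
      exact Subgroup.zpow_mem _ hr1 i
    exact tw_comm_good_inv hp.pos hzp h1 r (mem_zpowers r)
  exact hr2 (tw_Ecyc H hn hcop hno hz hp hs hpne hzp hk' (hRM r hrR) hinv)

/-- **Section 4 (b), refined**: `p`-good and `q`-good elements of prime order commute, if `n` is odd
and every prime `s ≠ p, q` whose square divides `n` is congruent to `1` modulo `p` or modulo `q`. -/
theorem tw_comm_good' {n p q a b M N : ℕ} (H : TwG n G) (hodd : Odd n) (hp : p.Prime)
    (hq : q.Prime) (hpq : p ≠ q) (hM : n = M * p ^ a) (hN : n = N * q ^ b) (hpM : ¬ p ∣ M)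
    (hqN : ¬ q ∣ N)
    (hs : ∀ s : ℕ, s.Prime → s ≠ p → s ≠ q → s ^ 2 ∣ n → p ∣ s - 1 ∨ q ∣ s - 1)
    (hnoM : NoN M G) (hnoN : NoN N G) {z y : G} (hz : GoodS M (p ^ a) z) (hzp : z ^ p = 1)
    (hy : GoodS N (q ^ b) y) (hyq : y ^ q = 1) : z * y = y * z := by
  have hcopM : Nat.Coprime M (p ^ a) := ((Nat.Prime.coprime_iff_not_dvd hp).2 hpM).symm.pow_right a
  have hcopN : Nat.Coprime N (q ^ b) := ((Nat.Prime.coprime_iff_not_dvd hq).2 hqN).symm.pow_right b
  obtain ⟨N1, h11, h12, h13, h14⟩ := tw_C H hp hq hpq hM hN hpM hqN hnoM hz hy hyq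
  obtain ⟨N2, h21, h22, h23, h24⟩ := tw_C H hq hp hpq.symm hN hM hqN hpM hnoN hy hz hzp
  have hTT : closure {y, z} = closure {z, y} := by rw [Set.pair_comm]
  rw [hTT] at h21 h23
  obtain ⟨hfT, hsT⟩ := H.h2 z y
  have hzT : z ∈ closure {z, y} := subset_closure (by simp)
  have hyT : y ∈ closure {z, y} := subset_closure (by simp)
  generalize closure {z, y} = T at *
  have hcinv : (y⁻¹ * (z⁻¹ * y * z))⁻¹ = z⁻¹ * (y⁻¹ * z * y) := by group
  rw [← hcinv] at h22
  have hcJ2 : y⁻¹ * (z⁻¹ * y * z) ∈ N2 := by simpa using N2.inv_mem h22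
  -- mapping subgroups
  have hmapfin : ∀ R : Subgroup T, Finite (R.map T.subtype) := fun R =>
    Finite.of_injective _ (Subgroup.inclusion_injective (Subgroup.map_subtype_le R))
  have hmain : (⟨z, hzT⟩ : T) * ⟨y, hyT⟩ = ⟨y, hyT⟩ * ⟨z, hzT⟩ := by
    apply tw_two_comm hp hq (Subtype.ext (by simpa using hzp)) (Subtype.ext (by simpa using hyq))
      ((N1 ⊓ N2).subgroupOf T)
    · intro x hx
      exact ⟨h13 z hzT _ hx.1, h23 z hzT _ hx.2⟩
    · intro x hx
      exact ⟨h13 y hyT _ hx.1, h23 y hyT _ hx.2⟩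
    · apply tw_card_cop hp hpM
      intro x hx
      exact Subtype.ext (by simpa using h24 _ hx.2)
    · apply tw_card_cop hq hqN
      intro x hx
      exact Subtype.ext (by simpa using h14 _ hx.1)
    · have h1 : y⁻¹ * (z * y * z⁻¹) = z * (y⁻¹ * (z⁻¹ * y * z))⁻¹ * z⁻¹ := by group
      have h2 : y⁻¹ * (z * y * z⁻¹) ∈ N1 ⊓ N2 := by
        rw [h1]
        exact ⟨h13 z hzT _ (N1.inv_mem h12), h23 z hzT _ (N2.inv_mem hcJ2)⟩
      exact h2
    · intro s hsp hsJ
      have hsM : s ∣ M := by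
        by_contra hne
        exact tw_card_cop hsp hne _ (fun x hx => Subtype.ext (by simpa using h24 _ hx.2)) hsJ
      have hsN : s ∣ N := by
        by_contra hne
        exact tw_card_cop hsp hne _ (fun x hx => Subtype.ext (by simpa using h14 _ hx.1)) hsJ
      have hs_p : s ≠ p := by
        rintro rfl
        exact hpM hsM
      have hs_q : s ≠ q := by
        rintro rfl
        exact hqN hsN
      by_cases hs2 : s ^ 2 ∣ n
      · rcases hs s hsp hs_p hs_q hs2 with h | h
        · left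
          intro R hRJ hR hzR x hx
          have hf := hmapfin R
          apply Subtype.ext
          refine tw_Eprime H hM hcopM hnoM hz hp hsp h hzp (R.map T.subtype) (hR.map _) ?_ ?_
            (x : G) ⟨x, hx, rfl⟩
          · rintro _ ⟨w, hw, rfl⟩
            exact h24 _ (hRJ hw).2
          · rintro _ ⟨w, hw, rfl⟩
            exact ⟨_, hzR w hw, rfl⟩
        · right
          intro R hRJ hR hyR x hx
          have hf := hmapfin R
          apply Subtype.ext
          refine tw_Eprime H hN hcopN hnoN hy hq hsp h hyq (R.map T.subtype) (hR.map _) ?_ ?_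
            (x : G) ⟨x, hx, rfl⟩
          · rintro _ ⟨w, hw, rfl⟩
            exact h14 _ (hRJ hw).1
          · rintro _ ⟨w, hw, rfl⟩
            exact ⟨_, hyR w hw, rfl⟩
      · left
        intro R _ hR hzR x hx
        apply Subtype.ext
        refine tw_cent_sqfree H hodd hp hM hpM hnoM hz hzp hsp hs_p hs2 (R.map T.subtype)
          (hR.map _) ?_ (x : G) ⟨x, hx, rfl⟩
        rintro _ ⟨w, hw, rfl⟩
        exact ⟨_, hzR w hw, rfl⟩
  exact congrArg Subtype.val hmain

end Pool.Agent.Lib.MP_544bd1_al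
end

section

/-!
Two generators, part 2: an abelian normal subgroup.
-/

namespace Pool.Agent.Lib.MP_544bd1_al

open Subgroup

variable {G : Type} [Group G]

theorem tw_exists_abelian_decomp {n p : ℕ} (hn : 0 < n) (hp : p.Prime) (hpn : p ∣ n) :
    ∃ M a : ℕ, 0 < a ∧ n = M * p ^ a ∧ ¬ p ∣ M ∧ n / p = M * p ^ (a - 1) := by
  obtain ⟨a, M, hM, hn'⟩ := Nat.exists_eq_pow_mul_and_not_dvd hn.ne' p hp.ne_one
  have ha : 0 < a := by
    rcases Nat.eq_zero_or_pos a with h | h
    · rw [h, pow_zero, one_mul] at hn'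
      rw [hn'] at hpn
      exact absurd hpn hM
    · exact h
  refine ⟨M, a, ha, by rw [hn', mul_comm], hM, ?_⟩
  apply Nat.div_eq_of_eq_mul_left hp.pos
  rw [hn', mul_assoc, ← pow_succ, Nat.sub_add_cancel ha, mul_comm]

theorem tw_exists_abelian_noN {n p M a : ℕ} (hp : p.Prime) (hpn : p ∣ n)
    (hdiv : n / p = M * p ^ (a - 1))
    (hno : ∀ K : Subgroup G, K.Normal → K ≠ ⊥ → ∀ s : ℕ, s.Prime → s ∣ n →
      ∃ x ∈ K, x ^ (n / s) ≠ 1) : NoN M G := by
  intro K hK hKM
  by_contra hne
  obtain ⟨x, hx, hx1⟩ := hno K hK hne p hp hpn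
  apply hx1
  rw [hdiv, pow_mul, hKM x hx, one_pow]

theorem tw_exists_abelian_meet {n p M a : ℕ} (H : TwG n G) (hodd : Odd n) (hp : p.Prime)
    (hpn : p ∣ n) (ha : 0 < a) (hM : n = M * p ^ a) (hpM : ¬ p ∣ M)
    (hdiv : n / p = M * p ^ (a - 1))
    (hno : ∀ K : Subgroup G, K.Normal → K ≠ ⊥ → ∀ s : ℕ, s.Prime → s ∣ n →
      ∃ x ∈ K, x ^ (n / s) ≠ 1) (K : Subgroup G) (hK : K.Normal) (hKb : K ≠ ⊥) :
    ∃ z ∈ K, GoodS M (p ^ a) z ∧ z ^ p = 1 ∧ z ≠ 1 := by
  obtain ⟨g, hg, hg1⟩ := hno K hK hKb p hp hpn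
  have hpodd : Odd p := Odd.of_dvd_nat hodd hpn
  have hu : (g ^ M) ^ (p ^ a) = 1 := by
    rw [← pow_mul, ← hM]
    exact H.hexp g
  have hz : (g ^ M) ^ (p ^ (a - 1)) = g ^ (n / p) := by rw [← pow_mul, ← hdiv]
  refine ⟨g ^ (n / p), K.pow_mem hg _, ?_, ?_, hg1⟩
  · rw [← hz]
    refine tw_good H hp ha hM hpM ?_ hu
    intro r hr hrM j s _ _ hs0 heq
    have hrodd : Odd r := Odd.of_dvd_nat hodd (hrM.trans ⟨p ^ a, hM⟩)
    have h1 : Odd (p ^ j) := hpodd.pow
    have h2 : Even (r ^ s + 1) := (hrodd.pow).add_one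
    rw [heq] at h2
    exact (Nat.not_even_iff_odd.2 h1) h2
  · rw [← pow_mul, Nat.div_mul_cancel hpn]
    exact H.hexp g

/-- **Section 4 (c)**.
Proof. Write `n = M * p ^ a = N * q ^ b`, `¬ p ∣ M`, `¬ q ∣ N`, `a, b ≥ 1`. `NoN M G`, `NoN N G` by
`hno` (`M ∣ n / p`, so a normal subgroup of exponent `M` has exponent `n / p`).
`P_p = {z | GoodS M (p ^ a) z ∧ z ^ p = 1 ∧ z ≠ 1}`, `P_q` similarly. For every normal `K ≠ ⊥`,
`P_p` meets `K`: take `g ∈ K` with `g ^ (n / p) ≠ 1`, `u = g ^ M`, `z = u ^ (p ^ (a-1)) = g ^ (n / p)`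
(`tw_good`; `hnum`: `r ∣ M` odd, `r ^ s + 1` is even, `p ^ j` odd). Same for `q`.
Let `K = normalClosure P_p`; the set `P_p` is invariant under conjugation (`GoodS.conj`), so
`K = closure P_p`, `K ≠ ⊥` (`P_p` meets `⊤`, `G` nontrivial). Take `y ∈ P_q ⊓ K`. By `tw_comm_good'`
`y` commutes with `P_p`, so with `K`. So `Z = {x ∈ K | x commutes with K}` (the center of `K`) is a
normal abelian subgroup of `G` containing `y ≠ 1`. -/
theorem tw_exists_abelian [Nontrivial G] {n p q : ℕ} (H : TwG n G) (hodd : Odd n) (hp : p.Prime)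
    (hq : q.Prime) (hpq : p ≠ q) (hpn : p ∣ n) (hqn : q ∣ n)
    (hs : ∀ s : ℕ, s.Prime → s ≠ p → s ≠ q → s ^ 2 ∣ n → p ∣ s - 1 ∨ q ∣ s - 1)
    (hno : ∀ K : Subgroup G, K.Normal → K ≠ ⊥ → ∀ s : ℕ, s.Prime → s ∣ n →
      ∃ x ∈ K, x ^ (n / s) ≠ 1) :
    ∃ K : Subgroup G, K.Normal ∧ K ≠ ⊥ ∧ ∀ x ∈ K, ∀ w ∈ K, x * w = w * x := by
  obtain ⟨M, a, ha, hM, hpM, hdivp⟩ := tw_exists_abelian_decomp H.pos hp hpn
  obtain ⟨N, b, hb, hN, hqN, hdivq⟩ := tw_exists_abelian_decomp H.pos hq hqn
  have hnoM : NoN M G := tw_exists_abelian_noN hp hpn hdivp hno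
  have hnoN : NoN N G := tw_exists_abelian_noN hq hqn hdivq hno
  obtain ⟨A, hA⟩ : ∃ A : Set G, A = {z | GoodS M (p ^ a) z ∧ z ^ p = 1 ∧ z ≠ 1} := ⟨_, rfl⟩
  obtain ⟨K, hKdef⟩ : ∃ K : Subgroup G, K = normalClosure A := ⟨_, rfl⟩
  have hKn : K.Normal := by rw [hKdef]; exact normalClosure_normal
  have hAK : A ⊆ K := by rw [hKdef]; exact subset_normalClosure
  have hKb : K ≠ ⊥ := by
    obtain ⟨z, -, hz⟩ := tw_exists_abelian_meet H hodd hp hpn ha hM hpM hdivp hno ⊤ inferInstance
      top_ne_bot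
    have hzA : z ∈ A := by rw [hA]; exact hz
    intro hbot
    have h1 := hAK hzA
    rw [hbot] at h1
    exact hz.2.2 (Subgroup.mem_bot.1 h1)
  obtain ⟨y, hyK, hygood, hyq, hy1⟩ := tw_exists_abelian_meet H hodd hq hqn hb hN hqN hdivq hno K
    hKn hKb
  have hyc : ∀ x ∈ K, x * y = y * x := by
    have hle : K ≤ centralizer {y} := by
      rw [hKdef, normalClosure, closure_le]
      intro x hx
      rw [Group.mem_conjugatesOfSet_iff] at hx
      obtain ⟨z, hz, hzx⟩ := hx
      rw [hA] at hz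
      obtain ⟨c, hc⟩ := isConj_iff.1 hzx
      have hx' : x = (c⁻¹)⁻¹ * z * c⁻¹ := by rw [inv_inv, hc]
      have hgood : GoodS M (p ^ a) x := by
        rw [hx']
        exact hz.1.conj c⁻¹
      have hxp : x ^ p = 1 := by
        rw [← hc, conj_pow, hz.2.1, mul_one, mul_inv_cancel]
      have h1 := tw_comm_good' H hodd hp hq hpq hM hN hpM hqN hs hnoM hnoN hgood hxp hygood hyq
      rw [SetLike.mem_coe, mem_centralizer_singleton_iff]
      exact h1
    intro x hx
    have := hle hx
    rw [mem_centralizer_singleton_iff] at this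
    exact this
  refine ⟨K ⊓ centralizer (K : Set G), ?_, ?_, ?_⟩
  · have h1 : (centralizer (K : Set G)).Normal := inferInstance
    exact Subgroup.normal_inf_normal _ _
  · intro hbot
    have h1 : y ∈ K ⊓ centralizer (K : Set G) := by
      have h2 : y ∈ centralizer (K : Set G) := by
        rw [mem_centralizer_iff]
        intro x hx
        exact hyc x hx
      exact ⟨hyK, h2⟩
    rw [hbot] at h1
    exact hy1 (Subgroup.mem_bot.1 h1)
  · intro x hx w hw
    have hx' : x ∈ centralizer (K : Set G) := (mem_inf.1 hx).2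
    rw [mem_centralizer_iff] at hx'
    exact (hx' w (mem_inf.1 hw).1).symm

end Pool.Agent.Lib.MP_544bd1_al
end
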