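import Mathlib
import Pool.Agent.Lib.MP_544bd1_al.TwA
import Pool.Agent.Lib.MP_544bd1_al.TwR4
import Pool.Agent.Lib.MP_544bd1_al.TwS3

section

/-!
Two generators, part 3 (Theorem D): conjugacy modulo a normalized subgroup of order prime to `s`.
-/

namespace Pool.Agent.Lib.MP_544bd1_al

open Subgroup

/-- Two `s`-elements which are congruent modulo a normalized finite subgroup `J` of order prime to `s`
are conjugate under `J`.

Proof. Let `j = b⁻¹ * b' ∈ J`. For `x ∈ J` put `φ x = b' * x * b⁻¹ = b * (j * x) * b⁻¹ ∈ J`. Then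
`φ^[i] x = b' ^ i * x * (b ^ i)⁻¹`, so `φ^[s ^ k] = id`. The number of fixed points of `φ` is congruent
to `Nat.card J` modulo `s` (Mathlib `Equiv.Perm.card_fixedPoints_modEq`, for `f : Function.End J` with
`f ^ s ^ n = 1`), so it is not zero: there is `x ∈ J` with `b' * x * b⁻¹ = x`. -/
theorem tw_Y0 {F : Type} [Group F] {s k : ℕ} (hs : s.Prime) (J : Subgroup F) [Finite J]
    (hJ : ¬ s ∣ Nat.card J) {b b' : F} (hb : b ^ (s ^ k) = 1) (hb' : b' ^ (s ^ k) = 1)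
    (hbJ : ∀ x ∈ J, b * x * b⁻¹ ∈ J) (h : b⁻¹ * b' ∈ J) : ∃ x ∈ J, b' = x * b * x⁻¹ := by
  classical
  have hmem : ∀ x : J, b' * (x : F) * b⁻¹ ∈ J := by
    intro x
    have h1 := hbJ (b⁻¹ * b' * x) (J.mul_mem h x.2)
    have h2 : b * (b⁻¹ * b' * (x : F)) * b⁻¹ = b' * (x : F) * b⁻¹ := by group
    rwa [h2] at h1
  let φ : Function.End J := fun x => ⟨b' * (x : F) * b⁻¹, hmem x⟩
  have hφ : ∀ (i : ℕ) (x : J), (((φ ^ i) x : J) : F) = b' ^ i * (x : F) * (b ^ i)⁻¹ := by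
    intro i
    induction i with
    | zero =>
      intro x
      have h1 : (((φ ^ 0) x : J) : F) = x := by rw [pow_zero]; rfl
      rw [h1]
      simp
    | succ i ih =>
      intro x
      have h1 : (φ ^ (i + 1)) x = (φ ^ i) (φ x) := by
        rw [pow_succ]; rfl
      rw [h1, ih (φ x)]
      change b' ^ i * (b' * (x : F) * b⁻¹) * (b ^ i)⁻¹ = _
      rw [pow_succ b' i, pow_succ' b i]
      group
  have hone : φ ^ s ^ k = 1 := by
    funext x
    apply Subtype.ext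
    have h1 : (((1 : Function.End J) x : J) : F) = x := rfl
    rw [hφ, hb, hb', h1]
    simp
  have : Fact s.Prime := ⟨hs⟩
  have : Fintype J := Fintype.ofFinite J
  have hc := Equiv.Perm.card_fixedPoints_modEq (f := φ) (p := s) (n := k) hone
  have hne : Fintype.card φ.fixedPoints ≠ 0 := by
    intro h0
    rw [h0] at hc
    apply hJ
    rw [Nat.card_eq_fintype_card]
    exact (Nat.modEq_zero_iff_dvd).1 hc
  obtain ⟨⟨x, hx⟩⟩ := Fintype.card_pos_iff.1 (Nat.pos_of_ne_zero hne)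
  have hx' : φ x = x := hx
  have hx'' : b' * (x : F) * b⁻¹ = x := congrArg Subtype.val hx'
  refine ⟨x, x.2, ?_⟩
  have h3 : b' * (x : F) = x * b := mul_inv_eq_iff_eq_mul.1 hx''
  exact (mul_inv_eq_iff_eq_mul.2 h3.symm).symm

end Pool.Agent.Lib.MP_544bd1_al
end

section

/-!
Two generators, part 3 (Theorem D): two elements commuting modulo `J`.
-/

namespace Pool.Agent.Lib.MP_544bd1_al

open Subgroup

/-- If `z`, `b` of prime orders `p ≠ s` normalize a finite subgroup `J` of order prime to `p` and `s`,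
and commute modulo `J`, then `z` commutes with a conjugate of `b` under `J`.

Proof. `b' = z⁻¹ * b * z` satisfies `b⁻¹ * b' ∈ J`, `b' ^ s = 1`, so by `tw_Y0` (`k = 1`) there is
`x ∈ J` with `z⁻¹ * b * z = x * b * x⁻¹`, i.e. `w = z * x` commutes with `b`. As `z` normalizes `J`,
`w ^ i ∈ z ^ i J` for all `i : ℕ` (`(z ^ i)⁻¹ * w ^ i ∈ J`; induction), so `w ^ p ∈ J` and
`w ^ (p * Nat.card J) = 1`. Let `m ≡ 1 mod p`, `m ≡ 0 mod Nat.card J` (`Nat.chineseRemainder`) and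
`z₁ = w ^ m`: it commutes with `b`, `z⁻¹ * z₁ ∈ J` (`z ^ m = z`), `z₁ ^ p = 1`
(`p * Nat.card J ∣ m * p`). By `tw_Y0` (for `p`, `z`, `z₁`) there is `y ∈ J` with
`z₁ = y * z * y⁻¹`. So `z` commutes with `y⁻¹ * b * y`; take `j = y⁻¹`. -/
theorem tw_Y1 {F : Type} [Group F] {p s : ℕ} (hp : p.Prime) (hs : s.Prime) (J : Subgroup F)
    [Finite J] (hJp : ¬ p ∣ Nat.card J) (hJs : ¬ s ∣ Nat.card J) {z b : F} (hz : z ^ p = 1)
    (hb : b ^ s = 1) (hzJ : ∀ x ∈ J, z * x * z⁻¹ ∈ J) (hbJ : ∀ x ∈ J, b * x * b⁻¹ ∈ J)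
    (h : b⁻¹ * (z⁻¹ * b * z) ∈ J) :
    ∃ j ∈ J, z * (j * b * j⁻¹) = (j * b * j⁻¹) * z := by
  have hb1 : b ^ (s ^ 1) = 1 := by rw [pow_one]; exact hb
  have hb2 : (z⁻¹ * b * z) ^ (s ^ 1) = 1 := by
    have e : z⁻¹ * b * z = z⁻¹ * b * (z⁻¹)⁻¹ := by rw [inv_inv]
    rw [e, conj_pow, hb1]
    group
  obtain ⟨x, hx, hxe⟩ := tw_Y0 hs J hJs hb1 hb2 hbJ h
  have hzp : z ^ (p - 1) = z⁻¹ := by
    rw [eq_inv_iff_mul_eq_one, ← pow_succ, Nat.sub_add_cancel hp.one_lt.le, hz]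
  have hzi : ∀ i : ℕ, ∀ x ∈ J, z ^ i * x * (z ^ i)⁻¹ ∈ J := by
    intro i
    induction i with
    | zero => intro x hx; simpa using hx
    | succ i ih =>
      intro x hx
      have e : z ^ (i + 1) * x * (z ^ (i + 1))⁻¹ = z ^ i * (z * x * z⁻¹) * (z ^ i)⁻¹ := by
        rw [pow_succ]
        group
      rw [e]
      exact ih _ (hzJ x hx)
  have hz' : ∀ x ∈ J, z⁻¹ * x * z ∈ J := by
    intro x hx
    have h1 := hzi (p - 1) x hx
    rwa [hzp, inv_inv] at h1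
  have hwb : Commute (z * x) b := by
    show z * x * b = b * (z * x)
    have h1 : z * (z⁻¹ * b * z) * x = z * (x * b * x⁻¹) * x := by rw [hxe]
    have h2 : z * (z⁻¹ * b * z) * x = b * (z * x) := by group
    have h3 : z * (x * b * x⁻¹) * x = z * x * b := by group
    rw [← h2, h1, h3]
  have hwi : ∀ i : ℕ, (z ^ i)⁻¹ * (z * x) ^ i ∈ J := by
    intro i
    induction i with
    | zero => simp [J.one_mem]
    | succ i ih =>
      have e : (z ^ (i + 1))⁻¹ * (z * x) ^ (i + 1) =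
          (z⁻¹ * ((z ^ i)⁻¹ * (z * x) ^ i) * z) * x := by
        rw [pow_succ, pow_succ]
        group
      rw [e]
      exact J.mul_mem (hz' _ ih) hx
  have hwp : (z * x) ^ p ∈ J := by
    have h1 := hwi p
    rwa [hz, inv_one, one_mul] at h1
  have hwc : ((z * x) ^ p) ^ Nat.card J = 1 := by
    have h1 := pow_card_eq_one' (x := (⟨(z * x) ^ p, hwp⟩ : J))
    have h2 := congrArg Subtype.val h1
    simpa only [Subgroup.coe_pow, Subgroup.coe_one] using h2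
  have hco : Nat.Coprime p (Nat.card J) := (Nat.Prime.coprime_iff_not_dvd hp).2 hJp
  obtain ⟨m, hm1, hm2⟩ := Nat.chineseRemainder hco 1 0
  have hzm : z ^ m = z := by
    have h1 : m ≡ 1 [MOD orderOf z] := hm1.of_dvd (orderOf_dvd_of_pow_eq_one hz)
    have h2 := (pow_eq_pow_iff_modEq (x := z)).2 h1
    rwa [pow_one] at h2
  obtain ⟨c, hc⟩ := (Nat.modEq_zero_iff_dvd.1 hm2)
  have hz1 : ((z * x) ^ m) ^ (p ^ 1) = 1 := by
    rw [pow_one, ← pow_mul, hc]
    have e : Nat.card J * c * p = p * Nat.card J * c := by ring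
    rw [e, pow_mul, pow_mul, hwc, one_pow]
  have hz1J : z⁻¹ * (z * x) ^ m ∈ J := by
    have h1 := hwi m
    rwa [hzm] at h1
  have hz0 : z ^ (p ^ 1) = 1 := by rw [pow_one]; exact hz
  obtain ⟨y, hy, hye⟩ := tw_Y0 hp J hJp hz0 hz1 hzJ hz1J
  have hcomm : (z * x) ^ m * b = b * (z * x) ^ m := (hwb.pow_left m)
  refine ⟨y⁻¹, J.inv_mem hy, ?_⟩
  have e0 : z = y⁻¹ * (z * x) ^ m * y := by
    rw [hye]
    group
  have e1 : z * (y⁻¹ * b * y⁻¹⁻¹) = y⁻¹ * ((z * x) ^ m * b) * y := by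
    calc z * (y⁻¹ * b * y⁻¹⁻¹) = (y⁻¹ * (z * x) ^ m * y) * (y⁻¹ * b * y⁻¹⁻¹) := by rw [← e0]
      _ = y⁻¹ * ((z * x) ^ m * b) * y := by group
  have e2 : (y⁻¹ * b * y⁻¹⁻¹) * z = y⁻¹ * (b * (z * x) ^ m) * y := by
    calc (y⁻¹ * b * y⁻¹⁻¹) * z = (y⁻¹ * b * y⁻¹⁻¹) * (y⁻¹ * (z * x) ^ m * y) := by rw [← e0]
      _ = y⁻¹ * (b * (z * x) ^ m) * y := by group
  rw [e1, e2, hcomm]

end Pool.Agent.Lib.MP_544bd1_al
end

section

/-!
Two generators, part 3 (Theorem D): a conjugate of `b` commuting with `z` and `A`.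
-/

namespace Pool.Agent.Lib.MP_544bd1_al

open Subgroup

private theorem tw_Y3_inv {G : Type} [Group G] {R : Subgroup G} {z : G} {k : ℕ} (hk : 0 < k)
    (hz : z ^ k = 1) (h : ∀ x ∈ R, z * x * z⁻¹ ∈ R) : ∀ x ∈ R, z⁻¹ * x * z ∈ R := by
  have h1 : ∀ j : ℕ, ∀ x ∈ R, z ^ j * x * (z ^ j)⁻¹ ∈ R := by
    intro j
    induction j with
    | zero =>
      intro x hx
      simpa using hx
    | succ j ih =>
      intro x hx
      have := h _ (ih x hx)
      rwa [show z * (z ^ j * x * (z ^ j)⁻¹) * z⁻¹ = z ^ (j + 1) * x * (z ^ (j + 1))⁻¹ by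
        rw [pow_succ']; group] at this
  intro x hx
  have h2 : z ^ (k - 1) = z⁻¹ := by
    rw [eq_inv_iff_mul_eq_one, ← pow_succ, Nat.sub_add_cancel hk, hz]
  have h3 := h1 (k - 1) x hx
  rwa [h2, inv_inv] at h3

private theorem tw_Y3_norm {G : Type} [Group G] {R : Subgroup G} {z : G} {k : ℕ} (hk : 0 < k)
    (hz : z ^ k = 1) (h : ∀ x ∈ R, z * x * z⁻¹ ∈ R) : z ∈ normalizer (R : Set G) := by
  rw [Subgroup.mem_normalizer_iff]
  intro x
  constructor
  · exact h x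
  · intro hx
    have := tw_Y3_inv hk hz h _ hx
    rwa [show z⁻¹ * (z * x * z⁻¹) * z = x by group] at this

/-- Let `N` be normal of order prime to `p` and `s`, `A` an `s`-subgroup normalized by `z` (order `p`),
`b` of order `s` commuting with `z` and, modulo `N`, with `A`. Then there is `c ∈ N` commuting with `z`
such that `c * b * c⁻¹` commutes with `A`.

Proof. `M₀ = N ⊔ A`; `A ⊓ N = ⊥` (orders), so `Nat.card M₀ = Nat.card N * Nat.card A`; every element of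
`M₀` is `ν * α` with `ν ∈ N`, `α ∈ A`, and `x⁻¹ * (b⁻¹ * x * b) ∈ N` for `x ∈ M₀` (`N` is normal).
Let `C = {x ∈ M₀ | x * b = b * x}`.
(1) For `x ∈ M₀` there is `y ∈ N` with `y⁻¹ * x ∈ C`: `b' = x * b * x⁻¹` satisfies `b⁻¹ * b' ∈ N`,
`b' ^ s = 1`, so `b' = y * b * y⁻¹` with `y ∈ N` (`tw_Y0`). So `N ⊔ C = M₀`, and
`Nat.card C * Nat.card N = Nat.card M₀ * Nat.card (C ⊓ N)`, i.e.
`Nat.card C = Nat.card A * Nat.card (C ⊓ N)` where `Nat.card (C ⊓ N)` (a divisor of `Nat.card N`) is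
prime to `s`; and `p ∤ Nat.card C`.
(2) `z` normalizes `M₀` and commutes with `b`, so it normalizes `C`. By `tw_inv_sylow` (with `p := s`,
`q := p`, `D := C`, `E := zpowers z`) there is an `s`-subgroup `S₁ ≤ C` normalized by `z` with
`Nat.card C = Nat.card S₁ * k`, `¬ s ∣ k`; so `Nat.card S₁ = Nat.card A` (both are the `s`-part of
`Nat.card C`).
(3) `S₁` and `A` are Sylow `s`-subgroups of `M₀` (index prime to `s`), so `S₁ = m A m⁻¹` with `m ∈ M₀`;
writing `m = ν * α` we get `S₁ = ν A ν⁻¹` with `ν ∈ N`: `∀ x, x ∈ S₁ ↔ ν⁻¹ * x * ν ∈ A`. As `z`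
normalizes `S₁` and `A` (and so do their inverses; everything is finite), `ν⁻¹ * (z * ν * z⁻¹)` is in
`N₁ = {x ∈ N | ∀ y ∈ A, x * y * x⁻¹ ∈ A}` (a subgroup, `A` being finite; normalized by `z`; order prime
to `p`). `tw_coset_fix` (with `N := N₁`, `x := ν`, `k := 1`) gives `c'` with `ν⁻¹ * c' ∈ N₁`,
`z * c' = c' * z`. So `c' ∈ N`, and for `x ∈ A`: `c' * x * c'⁻¹ ∈ S₁ ≤ C`, so it commutes with `b`, and
`x` commutes with `c'⁻¹ * b * c'`. Take `c = c'⁻¹`. -/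
theorem tw_Y3 {F : Type} [Group F] [Finite F] {p s : ℕ} (hp : p.Prime) (hs : s.Prime)
    (hps : p ≠ s) (N : Subgroup F) [N.Normal] (hNp : ¬ p ∣ Nat.card N) (hNs : ¬ s ∣ Nat.card N)
    (A : Subgroup F) (hA : IsPGroup s A) {z b : F} (hz : z ^ p = 1) (hb : b ^ s = 1)
    (hzb : z * b = b * z) (hzA : ∀ x ∈ A, z * x * z⁻¹ ∈ A)
    (h : ∀ x ∈ A, x⁻¹ * (b⁻¹ * x * b) ∈ N) :
    ∃ c ∈ N, z * c = c * z ∧ ∀ x ∈ A, x * (c * b * c⁻¹) = (c * b * c⁻¹) * x := by
  have hfs : Fact s.Prime := ⟨hs⟩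
  obtain ⟨a, ha⟩ := IsPGroup.iff_card.1 hA
  have hcop : Nat.Coprime (Nat.card N) (Nat.card A) := by
    rw [ha]
    exact ((Nat.Prime.coprime_iff_not_dvd hs).2 hNs).symm.pow_right a
  have hNA : N ⊓ A = ⊥ := inf_eq_bot_of_coprime hcop
  set M : Subgroup F := N ⊔ A with hM
  have hNM : N ≤ M := le_sup_left
  have hAM : A ≤ M := le_sup_right
  have hrel : N.relIndex M = Nat.card A := by
    rw [hM, relIndex_sup_left, ← inf_relIndex_right, hNA, relIndex_bot_left]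
  have hcardM : Nat.card N * Nat.card A = Nat.card M := by
    rw [← hrel, ← relIndex_bot_left (H := N), ← relIndex_bot_left (H := M)]
    exact relIndex_mul_relIndex ⊥ N M bot_le hNM
  have hAidx : A.relIndex M = Nat.card N := by
    have h1 : (⊥ : Subgroup F).relIndex A * A.relIndex M = (⊥ : Subgroup F).relIndex M :=
      relIndex_mul_relIndex ⊥ A M bot_le hAM
    rw [relIndex_bot_left, relIndex_bot_left, ← hcardM, mul_comm (Nat.card N)] at h1
    exact Nat.eq_of_mul_eq_mul_left Nat.card_pos h1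
  -- the elements of `M` commute with `b` modulo `N`
  have hcomm : ∀ x ∈ M, b⁻¹ * (x * b * x⁻¹) ∈ N := by
    intro x hx
    obtain ⟨ν, hν, α, hα, rfl⟩ := mem_sup_of_normal_left.1 hx
    have h1 := h α hα
    rw [← QuotientGroup.eq_one_iff] at h1 hν ⊢
    simp only [QuotientGroup.mk_mul, QuotientGroup.mk_inv] at h1 ⊢
    rw [hν, one_mul]
    rw [inv_mul_eq_one] at h1 ⊢
    rw [eq_mul_inv_iff_mul_eq]
    generalize (QuotientGroup.mk b : F ⧸ N) = B at h1 ⊢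
    generalize (QuotientGroup.mk α : F ⧸ N) = X at h1 ⊢
    calc B * X = B * (B⁻¹ * X * B) := congrArg (B * ·) h1
      _ = X * B := by group
  -- the centralizer of `b` in `M`
  let C : Subgroup F := M ⊓ centralizer {b}
  have hCmem : ∀ x, x ∈ C ↔ x ∈ M ∧ x * b = b * x := by
    intro x
    show x ∈ M ⊓ centralizer {b} ↔ _
    rw [mem_inf, mem_centralizer_singleton_iff]
  have hCM : C ≤ M := inf_le_left
  have h1 : ∀ x ∈ M, ∃ y ∈ N, y⁻¹ * x ∈ C := by
    intro x hx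
    obtain ⟨y, hy, hyx⟩ := tw_Y0 (k := 1) hs N hNs (b := b) (b' := x * b * x⁻¹)
      (by rw [pow_one]; exact hb)
      (by rw [pow_one, conj_pow, hb, mul_one, mul_inv_cancel])
      (fun w hw => Subgroup.Normal.conj_mem inferInstance w hw b) (hcomm x hx)
    refine ⟨y, hy, (hCmem _).2 ⟨M.mul_mem (M.inv_mem (hNM hy)) hx, ?_⟩⟩
    have h2 : y⁻¹ * (x * b * x⁻¹) * x = y⁻¹ * (y * b * y⁻¹) * x := by rw [hyx]
    calc y⁻¹ * x * b = y⁻¹ * (x * b * x⁻¹) * x := by group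
      _ = y⁻¹ * (y * b * y⁻¹) * x := h2
      _ = b * (y⁻¹ * x) := by group
  have hNC : N ⊔ C = M := by
    apply le_antisymm (sup_le hNM hCM)
    intro x hx
    obtain ⟨y, hy, hyx⟩ := h1 x hx
    rw [mem_sup_of_normal_left]
    exact ⟨y, hy, y⁻¹ * x, hyx, by group⟩
  have hAC : Nat.card A ∣ Nat.card C := by
    rw [← hrel, ← hNC, relIndex_sup_left]
    exact relIndex_dvd_card N C
  have hpC : ¬ p ∣ Nat.card C := by
    intro hpc
    have h2 : p ∣ Nat.card M := hpc.trans (card_dvd_of_le hCM)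
    rw [← hcardM, ha] at h2
    rcases (Nat.Prime.dvd_mul hp).1 h2 with h3 | h3
    · exact hNp h3
    · exact hps ((Nat.prime_dvd_prime_iff_eq hp hs).1 (hp.dvd_of_dvd_pow h3))
  -- `z` normalizes `C`
  have hzM : ∀ x ∈ M, z * x * z⁻¹ ∈ M := by
    intro x hx
    obtain ⟨ν, hν, α, hα, rfl⟩ := mem_sup_of_normal_left.1 hx
    rw [show z * (ν * α) * z⁻¹ = (z * ν * z⁻¹) * (z * α * z⁻¹) by group]
    exact M.mul_mem (hNM (Subgroup.Normal.conj_mem inferInstance ν hν z)) (hAM (hzA α hα))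
  have hzC : ∀ x ∈ C, z * x * z⁻¹ ∈ C := by
    intro x hx
    obtain ⟨h2, h3⟩ := (hCmem x).1 hx
    refine (hCmem _).2 ⟨hzM x h2, ?_⟩
    have h4 : z⁻¹ * b = b * z⁻¹ := (Commute.inv_left (show Commute z b from hzb))
    calc z * x * z⁻¹ * b = z * x * (z⁻¹ * b) := by group
      _ = z * (x * b) * z⁻¹ := by rw [h4]; group
      _ = (z * b) * x * z⁻¹ := by rw [h3]; group
      _ = b * (z * x * z⁻¹) := by rw [hzb]; group
  have hzn : z ∈ normalizer (C : Set F) := tw_Y3_norm hp.pos hz hzC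
  have hzE : ∀ e ∈ zpowers z, ∀ x ∈ C, e * x * e⁻¹ ∈ C := by
    intro e he x hx
    have h2 : e ∈ normalizer (C : Set F) := (zpowers_le.2 hzn) he
    exact (Subgroup.mem_normalizer_iff.1 h2 x).1 hx
  have hzp : IsPGroup p (zpowers z) := by
    rintro ⟨g, i, rfl⟩
    refine ⟨1, Subtype.ext ?_⟩
    show (z ^ i) ^ (p ^ 1) = 1
    rw [pow_one, ← zpow_natCast, ← zpow_mul, mul_comm, zpow_mul, zpow_natCast, hz, one_zpow]
  obtain ⟨S, hSC, hSs, hSz, k, hk, hsk⟩ := tw_inv_sylow (p := s) (q := p) hs hp C (zpowers z) hzE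
    hzp hpC
  have hSzn : z ∈ normalizer (S : Set F) :=
    tw_Y3_norm hp.pos hz (hSz z (mem_zpowers z))
  have hAS : Nat.card A ≤ Nat.card S := by
    apply Nat.le_of_dvd Nat.card_pos
    rw [hk] at hAC
    rw [ha] at hAC ⊢
    exact (((Nat.Prime.coprime_iff_not_dvd hs).2 hsk).pow_left a).dvd_of_dvd_mul_right hAC
  -- `A` is a Sylow subgroup of `M`
  have hAsy : ¬ s ∣ (A.subgroupOf M).index := by
    show ¬ s ∣ A.relIndex M
    rw [hAidx]
    exact hNs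
  let P : Sylow s M := (IsPGroup.comap_subtype hA (K := M)).toSylow hAsy
  obtain ⟨Q, hQ⟩ := (IsPGroup.comap_subtype hSs (K := M)).exists_le_sylow
  obtain ⟨m, hm⟩ := MulAction.exists_smul_eq M Q P
  have hmS : ∀ x ∈ S, (m : F) * x * (m : F)⁻¹ ∈ A := by
    intro x hx
    have hxM : x ∈ M := hCM (hSC hx)
    have h2 : (⟨x, hxM⟩ : M) ∈ Q := hQ hx
    have h3 : m * ⟨x, hxM⟩ * m⁻¹ ∈ (m • Q : Sylow s M) := by
      have := Subgroup.smul_mem_pointwise_smul (⟨x, hxM⟩ : M) (MulAut.conj m) (Q : Subgroup M) h2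
      exact this
    rw [hm] at h3
    exact h3
  obtain ⟨α, hα, ν', hν', hm'⟩ := mem_sup_of_normal_right.1
    (show (m : F) ∈ A ⊔ N by rw [sup_comm]; exact m.2)
  have hν'S : ∀ x ∈ S, ν' * x * ν'⁻¹ ∈ A := by
    intro x hx
    have h2 := hmS x hx
    rw [← hm'] at h2
    have h3 := A.mul_mem (A.mul_mem (A.inv_mem hα) h2) hα
    rwa [show α⁻¹ * (α * ν' * x * (α * ν')⁻¹) * α = ν' * x * ν'⁻¹ by group] at h3
  have hSA : S.map (MulAut.conj ν').toMonoidHom = A := by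
    apply eq_of_le_of_card_ge
    · rintro _ ⟨x, hx, rfl⟩
      exact hν'S x hx
    · rw [card_map_of_injective (MulAut.conj ν').injective]
      exact hAS
  have hSiff : ∀ x, x ∈ S ↔ ν' * x * ν'⁻¹ ∈ A := by
    intro x
    refine ⟨hν'S x, fun hx => ?_⟩
    rw [← hSA] at hx
    obtain ⟨y, hy, hyx⟩ := hx
    have h2 : ν' * y * ν'⁻¹ = ν' * x * ν'⁻¹ := hyx
    have h3 : y = x := by simpa using h2
    rw [← h3]
    exact hy
  -- the fixed point
  have hzAn : z ∈ normalizer (A : Set F) := tw_Y3_norm hp.pos hz hzA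
  let N₁ : Subgroup F := N ⊓ normalizer (A : Set F)
  have hN₁p : ¬ p ∣ Nat.card N₁ := fun h2 => hNp (h2.trans (card_dvd_of_le inf_le_left))
  obtain ⟨ν, hν0⟩ : ∃ ν, ν = ν'⁻¹ := ⟨_, rfl⟩
  have hν : ν ∈ N := hν0 ▸ N.inv_mem hν'
  have hS2 : ∀ x, x ∈ S ↔ ν⁻¹ * x * ν ∈ A := by
    intro x
    rw [hSiff x, hν0, inv_inv]
  have hmem : ν⁻¹ * (z * ν * z⁻¹) ∈ N₁ := by
    refine ⟨N.mul_mem (N.inv_mem hν) (Subgroup.Normal.conj_mem inferInstance _ hν z), ?_⟩
    show _ ∈ normalizer (A : Set F)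
    rw [Subgroup.mem_normalizer_iff]
    intro y
    have e1 := Subgroup.mem_normalizer_iff.1 hSzn (ν * (z⁻¹ * y * z) * ν⁻¹)
    have e2 := Subgroup.mem_normalizer_iff''.1 hzAn y
    have e3 := hS2 (ν * (z⁻¹ * y * z) * ν⁻¹)
    rw [show ν⁻¹ * (ν * (z⁻¹ * y * z) * ν⁻¹) * ν = z⁻¹ * y * z by group] at e3
    have e4 := hS2 (z * (ν * (z⁻¹ * y * z) * ν⁻¹) * z⁻¹)
    rw [show ν⁻¹ * (z * (ν * (z⁻¹ * y * z) * ν⁻¹) * z⁻¹) * ν =
      ν⁻¹ * (z * ν * z⁻¹) * y * (ν⁻¹ * (z * ν * z⁻¹))⁻¹ by group] at e4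
    exact e2.trans (e3.symm.trans (e1.trans e4))
  obtain ⟨c', hc', hzc'⟩ := tw_coset_fix hp (k := 1) (z := z) (by rw [pow_one]; exact hz) N₁ hN₁p
    (fun x hx => ⟨Subgroup.Normal.conj_mem inferInstance x hx.1 z,
      mul_mem (mul_mem hzAn hx.2) ((normalizer (A : Set F)).inv_mem hzAn)⟩) (x := ν) hmem
  have hc'N : c' ∈ N := by
    have h2 := N.mul_mem hν hc'.1
    rwa [mul_inv_cancel_left] at h2
  refine ⟨c'⁻¹, N.inv_mem hc'N, (Commute.inv_right (show Commute z c' from hzc')), ?_⟩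
  intro x hx
  have h5 : c' * x * c'⁻¹ ∈ S := by
    rw [hS2]
    have h6 := (Subgroup.mem_normalizer_iff.1 (show ν⁻¹ * c' ∈ normalizer (A : Set F) from hc'.2)
      x).1 hx
    rwa [show ν⁻¹ * c' * x * (ν⁻¹ * c')⁻¹ = ν⁻¹ * (c' * x * c'⁻¹) * ν by group] at h6
  have h6 := ((hCmem _).1 (hSC h5)).2
  rw [inv_inv]
  calc x * (c'⁻¹ * b * c') = c'⁻¹ * (c' * x * c'⁻¹ * b) * c' := by group
    _ = c'⁻¹ * (b * (c' * x * c'⁻¹)) * c' := by rw [h6]
    _ = c'⁻¹ * b * c' * x := by group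

end Pool.Agent.Lib.MP_544bd1_al
end

section

/-!
Two generators, part 3 (Theorem D): minimal noncentralized invariant `s`-subgroups.
-/

namespace Pool.Agent.Lib.MP_544bd1_al

open Subgroup
open scoped commutatorElement

/-- In a minimal `z`-invariant, not centralized, `s`-group `E` (`s` odd) the elements
`z * x * z⁻¹ * x⁻¹` have order dividing `s`.

Proof. Write `σ x = z * x * z⁻¹` for `x ∈ E`.
(a) Let `Φ = (frattini E).map E.subtype`. `Φ` is `z`-invariant (the Frattini subgroup is characteristic: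
conjugation by `z` restricts to an automorphism of the finite group `E`; `Subgroup.Characteristic`,
`frattini_characteristic`) and `Φ ≠ E` (`E` is nontrivial; `frattini_nongenerating` or: a nontrivial
finite group has a maximal subgroup), so `σ f = f` for `f ∈ Φ` by `hmin`. By `tw_frattini` `Φ` contains
all commutators of elements of `E` and all `x ^ s`, `x ∈ E`.
(b) `f ∈ Φ` commutes with `σ x * x⁻¹` for `x ∈ E`: `φ = x⁻¹ * f * x * f⁻¹ ∈ Φ` (a commutator), so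
`φ = σ φ = (σ x)⁻¹ * f * σ x * f⁻¹`, so `(σ x)⁻¹ * f * σ x = x⁻¹ * f * x`.
(c) `E₂ = closure {σ x * x⁻¹ | x ∈ E} ≤ E` is `z`-invariant (`σ (σ x * x⁻¹) = σ (σ x) * (σ x)⁻¹`). If
`E₂ ≠ E` then by `hmin` `z` commutes with all `σ x * x⁻¹`, so also with
`x⁻¹ * (z * x * z⁻¹) = x⁻¹ * (σ x * x⁻¹) * x`... (apply this to `x⁻¹`: `σ (x⁻¹) * x` is in `E₂`, it is the
inverse of `x⁻¹ * σ x`), and `tw_coprime_trivial` (with `M := p`, `P' := Nat.card E`, a power of `s`) shows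
that `z` centralizes `E`, contradicting `hne`. So `E₂ = E` and by (b) `f ∈ Φ` is central in `E`.
(d) So for `x, y ∈ E` the commutator `k = x⁻¹ * y⁻¹ * x * y ∈ Φ` is central in `E`, and
`k ^ s = x⁻ˢ * (y⁻¹ * x * y) ^ s = x⁻ˢ * y⁻¹ * xˢ * y = 1` (as `x ^ s ∈ Φ` is central). If `x`, `w` are in
`E`, `k` the (central) commutator of `x` and `w`, then `(w * x) ^ i = w ^ i * x ^ i * k ^ (i(i-1)/2)` with
a suitable sign/side of `k` (induction on `i`), so `(w * x) ^ s = w ^ s * x ^ s` as `s ∣ s(s-1)/2` (`s` is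
odd). With `w = σ x` and `x⁻¹`: `(σ x * x⁻¹) ^ s = σ (x ^ s) * (x ^ s)⁻¹ = 1` because `x ^ s ∈ Φ` is fixed
by `σ`. -/
theorem tw_Y5a {G : Type} [Group G] {p s : ℕ} (hp : p.Prime) (hs : s.Prime) (hps : p ≠ s)
    (hs2 : s ≠ 2) {z : G} (hz : z ^ p = 1) (E : Subgroup G) [Finite E] (hE : IsPGroup s E)
    (hzE : ∀ x ∈ E, z * x * z⁻¹ ∈ E) (hne : ∃ x ∈ E, z * x ≠ x * z)
    (hmin : ∀ D : Subgroup G, D ≤ E → D ≠ E → (∀ x ∈ D, z * x * z⁻¹ ∈ D) →
      ∀ x ∈ D, z * x = x * z) : ∀ x ∈ E, (z * x * z⁻¹ * x⁻¹) ^ s = 1 := by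
  classical
  have hsf : Fact s.Prime := ⟨hs⟩
  obtain ⟨hfc, hfp⟩ := tw_frattini hs hE
  -- the automorphism of `E`
  let g : E →* E :=
    { toFun := fun x => ⟨z * x * z⁻¹, hzE x x.2⟩
      map_one' := by
        apply Subtype.ext
        show z * ((1 : E) : G) * z⁻¹ = ((1 : E) : G)
        simp
      map_mul' := by
        intro x y
        apply Subtype.ext
        show z * ((x * y : E) : G) * z⁻¹ = (z * x * z⁻¹) * (z * y * z⁻¹)
        rw [Subgroup.coe_mul]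
        group }
  have hg : Function.Injective g := by
    intro x y hxy
    have h1 : z * (x : G) * z⁻¹ = z * (y : G) * z⁻¹ := congrArg Subtype.val hxy
    apply Subtype.ext
    exact mul_left_cancel (mul_right_cancel h1)
  have hgb : Function.Bijective g := Finite.injective_iff_bijective.1 hg
  let e : E ≃* E := MulEquiv.ofBijective g hgb
  have hchar : (frattini E).Characteristic := inferInstance
  have hfe : ∀ y ∈ frattini E, g y ∈ frattini E := by
    intro y hy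
    have h1 := hchar.fixed e
    rw [← h1] at hy
    exact hy
  obtain ⟨Φ, hΦ⟩ : ∃ Φ : Subgroup G, Φ = (frattini E).map E.subtype := ⟨_, rfl⟩
  have hΦE : Φ ≤ E := by
    rw [hΦ]
    exact Subgroup.map_subtype_le _
  have hmem : ∀ (x : G) (hx : x ∈ E), (⟨x, hx⟩ : E) ∈ frattini E → x ∈ Φ := by
    intro x hx h
    rw [hΦ]
    exact ⟨⟨x, hx⟩, h, rfl⟩
  have hΦz : ∀ x ∈ Φ, z * x * z⁻¹ ∈ Φ := by
    intro x hx
    rw [hΦ] at hx
    obtain ⟨y, hy, rfl⟩ := hx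
    exact hmem _ (hzE _ y.2) (hfe y hy)
  have hΦne : Φ ≠ E := by
    intro h
    have htop : frattini E = ⊤ := by
      rw [eq_top_iff]
      intro y _
      have h1 : (y : G) ∈ Φ := by rw [h]; exact y.2
      rw [hΦ] at h1
      obtain ⟨w, hw, hwy⟩ := h1
      have : w = y := Subtype.ext hwy
      rwa [← this]
    have hbot : (⊥ : Subgroup E) = ⊤ := by
      apply frattini_nongenerating
      rw [htop]
      simp
    obtain ⟨x, hx, hxz⟩ := hne
    have h1 : (⟨x, hx⟩ : E) ∈ (⊥ : Subgroup E) := by rw [hbot]; trivial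
    rw [Subgroup.mem_bot] at h1
    have h2 : x = 1 := congrArg Subtype.val h1
    apply hxz
    rw [h2]
    simp
  have hσ : ∀ f ∈ Φ, z * f = f * z := hmin Φ hΦE hΦne hΦz
  have hcm : ∀ x ∈ E, ∀ y ∈ E, x⁻¹ * y⁻¹ * x * y ∈ Φ := by
    intro x hx y hy
    apply hmem _ (E.mul_mem (E.mul_mem (E.mul_mem (E.inv_mem hx) (E.inv_mem hy)) hx) hy)
    apply hfc
    have h1 : ⁅(⟨x, hx⟩ : E)⁻¹, (⟨y, hy⟩ : E)⁻¹⁆ ∈ commutator E :=
      Subgroup.commutator_mem_commutator (Subgroup.mem_top _) (Subgroup.mem_top _)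
    have h2 : ⁅(⟨x, hx⟩ : E)⁻¹, (⟨y, hy⟩ : E)⁻¹⁆ = (⟨x⁻¹ * y⁻¹ * x * y,
        E.mul_mem (E.mul_mem (E.mul_mem (E.inv_mem hx) (E.inv_mem hy)) hx) hy⟩ : E) := by
      apply Subtype.ext
      rw [commutatorElement_def]
      show x⁻¹ * y⁻¹ * x⁻¹⁻¹ * y⁻¹⁻¹ = x⁻¹ * y⁻¹ * x * y
      rw [inv_inv, inv_inv]
    rwa [← h2]
  have hps' : ∀ x ∈ E, x ^ s ∈ Φ := by
    intro x hx
    exact hmem _ (E.pow_mem hx s) (hfp ⟨x, hx⟩)
  -- (b)
  have hb : ∀ f ∈ Φ, ∀ x ∈ E, (z * x * z⁻¹ * x⁻¹) * f = f * (z * x * z⁻¹ * x⁻¹) := by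
    intro f hf x hx
    have h1 := hcm x hx f⁻¹ (E.inv_mem (hΦE hf))
    rw [inv_inv] at h1
    have h2 := hσ _ h1
    have h3 := hσ _ hf
    have h3' : z * f * z⁻¹ = f := by rw [h3]; group
    have h4 : (z * x * z⁻¹)⁻¹ * (z * f * z⁻¹) * (z * x * z⁻¹) * (z * f * z⁻¹)⁻¹ =
        x⁻¹ * f * x * f⁻¹ := by
      have h5 : (z * x * z⁻¹)⁻¹ * (z * f * z⁻¹) * (z * x * z⁻¹) * (z * f * z⁻¹)⁻¹ =
          (z * (x⁻¹ * f * x * f⁻¹)) * z⁻¹ := by group
      rw [h5, h2]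
      group
    rw [h3'] at h4
    have h5 := mul_right_cancel h4
    -- (z x z⁻¹)⁻¹ f (z x z⁻¹) = x⁻¹ f x
    have h6 : f * (z * x * z⁻¹) = (z * x * z⁻¹) * (x⁻¹ * f * x) := by
      rw [← h5]; group
    calc (z * x * z⁻¹ * x⁻¹) * f = ((z * x * z⁻¹) * (x⁻¹ * f * x)) * x⁻¹ := by group
      _ = (f * (z * x * z⁻¹)) * x⁻¹ := by rw [h6]
      _ = f * (z * x * z⁻¹ * x⁻¹) := by group
  -- (c)
  obtain ⟨E₂, hE₂⟩ : ∃ E₂ : Subgroup G, E₂ = closure {w | ∃ x ∈ E, w = z * x * z⁻¹ * x⁻¹} :=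
    ⟨_, rfl⟩
  have hwE₂ : ∀ x ∈ E, z * x * z⁻¹ * x⁻¹ ∈ E₂ := by
    intro x hx
    rw [hE₂]
    exact subset_closure ⟨x, hx, rfl⟩
  have hE₂E : E₂ ≤ E := by
    rw [hE₂, closure_le]
    rintro w ⟨x, hx, rfl⟩
    exact E.mul_mem (hzE x hx) (E.inv_mem hx)
  have hE₂z : ∀ x ∈ E₂, z * x * z⁻¹ ∈ E₂ := by
    have h1 : E₂ ≤ E₂.comap (MulAut.conj z).toMonoidHom := by
      conv_lhs => rw [hE₂]
      rw [closure_le]
      rintro w ⟨x, hx, rfl⟩
      have h2 := hwE₂ _ (hzE x hx)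
      show z * (z * x * z⁻¹ * x⁻¹) * z⁻¹ ∈ E₂
      have h3 : z * (z * x * z⁻¹ * x⁻¹) * z⁻¹ = z * (z * x * z⁻¹) * z⁻¹ * (z * x * z⁻¹)⁻¹ := by
        group
      rwa [h3]
    intro x hx
    exact h1 hx
  obtain ⟨k, hk⟩ := IsPGroup.iff_card.1 hE
  have hE₂eq : E₂ = E := by
    by_contra hcon
    have h1 := hmin E₂ hE₂E hcon hE₂z
    obtain ⟨x, hx, hxz⟩ := hne
    apply hxz
    refine tw_coprime_trivial (M := p) (P' := Nat.card E) ?_ E ?_ hz hzE ?_ x hx
    · rw [hk]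
      exact Nat.Coprime.pow_right _ ((Nat.coprime_primes hp hs).2 hps)
    · intro y hy
      have h2 : (⟨y, hy⟩ : E) ^ Nat.card E = 1 := pow_card_eq_one'
      exact congrArg Subtype.val h2
    · intro y hy
      have h2 := hwE₂ y⁻¹ (E.inv_mem hy)
      have h3 := h1 _ (E₂.inv_mem h2)
      have h4 : (z * y⁻¹ * z⁻¹ * y⁻¹⁻¹)⁻¹ = y⁻¹ * (z * y * z⁻¹) := by group
      rw [h4] at h3
      exact h3
  have hcen : ∀ f ∈ Φ, ∀ x ∈ E, x * f = f * x := by
    intro f hf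
    have h1 : E₂ ≤ centralizer {f} := by
      rw [hE₂, closure_le]
      rintro w ⟨x, hx, rfl⟩
      show _ ∈ centralizer {f}
      rw [mem_centralizer_singleton_iff]
      exact hb f hf x hx
    intro x hx
    rw [← hE₂eq] at hx
    have h2 := h1 hx
    rwa [mem_centralizer_singleton_iff] at h2
  -- (d)
  have hmulpow : ∀ w ∈ E, ∀ x ∈ E, (w * x) ^ s = w ^ s * x ^ s := by
    intro w hw x hx
    obtain ⟨c, hc⟩ : ∃ c, c = x⁻¹ * w⁻¹ * x * w := ⟨_, rfl⟩
    have hcΦ : c ∈ Φ := by rw [hc]; exact hcm x hx w hw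
    have hcw : Commute c w := (hcen c hcΦ w hw).symm
    have hcx : Commute c x := (hcen c hcΦ x hx).symm
    have hxw : x * w = w * x * c := by rw [hc]; group
    have h1 : ∀ i : ℕ, x * w ^ i = w ^ i * x * c ^ i := by
      intro i
      induction i with
      | zero => simp
      | succ i ih =>
        calc x * w ^ (i + 1) = (x * w ^ i) * w := by rw [pow_succ]; group
          _ = w ^ i * x * (c ^ i * w) := by rw [ih]; group
          _ = w ^ i * x * (w * c ^ i) := by rw [(hcw.pow_left i).eq]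
          _ = w ^ i * (x * w) * c ^ i := by group
          _ = w ^ i * (w * x * c) * c ^ i := by rw [hxw]
          _ = w ^ (i + 1) * x * c ^ (i + 1) := by rw [pow_succ w, pow_succ' c]; group
    have h2 : ∀ i : ℕ, x ^ i * w = w * x ^ i * c ^ i := by
      intro i
      induction i with
      | zero => simp
      | succ i ih =>
        calc x ^ (i + 1) * w = x ^ i * (x * w) := by rw [pow_succ]; group
          _ = x ^ i * (w * x * c) := by rw [hxw]
          _ = (x ^ i * w) * (x * c) := by group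
          _ = w * x ^ i * (c ^ i * x) * c := by rw [ih]; group
          _ = w * x ^ i * (x * c ^ i) * c := by rw [(hcx.pow_left i).eq]
          _ = w * x ^ (i + 1) * c ^ (i + 1) := by rw [pow_succ x, pow_succ c]; group
    have h3 : ∀ i : ℕ, (w * x) ^ i = w ^ i * x ^ i * c ^ (i.choose 2) := by
      intro i
      induction i with
      | zero => simp
      | succ i ih =>
        have h4 : (i + 1).choose 2 = i + i.choose 2 := by
          rw [Nat.choose_succ_succ' i 1, Nat.choose_one_right]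
        have h5 : Commute (c ^ i.choose 2) (w * x) := (hcw.mul_right hcx).pow_left _
        have h6 : Commute (c ^ i) x := hcx.pow_left i
        calc (w * x) ^ (i + 1) = w ^ i * x ^ i * (c ^ (i.choose 2) * (w * x)) := by
              rw [pow_succ, ih]; group
          _ = w ^ i * x ^ i * ((w * x) * c ^ (i.choose 2)) := by rw [h5.eq]
          _ = w ^ i * (x ^ i * w) * x * c ^ (i.choose 2) := by group
          _ = w ^ i * w * x ^ i * (c ^ i * x) * c ^ (i.choose 2) := by rw [h2]; group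
          _ = w ^ i * w * x ^ i * (x * c ^ i) * c ^ (i.choose 2) := by rw [h6.eq]
          _ = w ^ (i + 1) * x ^ (i + 1) * c ^ ((i + 1).choose 2) := by
              rw [h4, pow_add, pow_succ w, pow_succ x]; group
    have h4 : c ^ s = 1 := by
      have h5 := h1 s
      have h6 := hcen _ (hps' w hw) x hx
      rw [h6] at h5
      have h7 : w ^ s * x * 1 = w ^ s * x * c ^ s := by rw [mul_one]; exact h5
      exact (mul_left_cancel h7).symm
    have h5 : s ∣ s.choose 2 := hs.dvd_choose_self (by norm_num) (by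
      have := hs.two_le
      omega)
    obtain ⟨j, hj⟩ := h5
    rw [h3 s, hj, pow_mul, h4, one_pow, mul_one]
  intro x hx
  rw [hmulpow _ (hzE x hx) _ (E.inv_mem hx)]
  have h1 := hσ _ (hps' x hx)
  rw [inv_pow]
  have h2 : (z * x * z⁻¹) ^ s = z * x ^ s * z⁻¹ := by
    rw [conj_pow]
  rw [h2, h1]
  group

end Pool.Agent.Lib.MP_544bd1_al
end
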