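import Mathlib
import Pool.Agent.Lib.MP_544bd1_al.TwY5a
import Pool.Agent.Lib.MP_544bd1_al.TwC
import Pool.Agent.Lib.MP_544bd1_al.TwR4
import Pool.Agent.Lib.MP_544bd1_al.TwS3
import Pool.Agent.Lib.MP_544bd1_al.GpCent
import Pool.Agent.Lib.MP_544bd1_al.TwLZ
import Pool.Agent.Lib.MP_544bd1_al.TwS2
import Pool.Agent.Lib.MP_544bd1_al.TwP2
import Pool.Agent.Lib.MP_544bd1_al.TwP1
import Pool.Agent.Lib.MP_544bd1_al.TwU1
import Pool.Agent.Lib.MP_544bd1_al.GenMain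
import Pool.Agent.Lib.MP_544bd1_al.FrR

section

/-!
Two generators, part 2, second refinement: elementary number theory.
-/

namespace Pool.Agent.Lib.MP_544bd1_al

/-- An odd number `n` such that `s ^ 3 ∣ n` and `¬ p ∣ s - 1` for all primes `p ≠ s` dividing it, which
is not a prime power and has no four different odd prime divisors as in `h4`, has exactly two or
exactly three prime divisors.
Proof. Otherwise `n.primeFactors` has at least four elements (`Finset.exists_subset_card_eq`); order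
them (`Finset.orderEmbOfFin`) and apply `h4`. -/
theorem tw_few {n : ℕ} (hodd : Odd n) (h1 : 1 < n)
    (h4 : ∀ p₁ p₂ p₃ p₄ : ℕ, p₁.Prime → p₂.Prime → p₃.Prime → p₄.Prime →
      2 < p₁ → p₁ < p₂ → p₂ < p₃ → p₃ < p₄ →
      p₁ ^ 3 ∣ n → p₂ ^ 3 ∣ n → p₃ ^ 3 ∣ n → p₄ ^ 3 ∣ n →
      p₁ ∣ p₂ - 1 ∨ p₁ ∣ p₃ - 1 ∨ p₁ ∣ p₄ - 1 ∨ p₂ ∣ p₃ - 1 ∨ p₂ ∣ p₄ - 1 ∨ p₃ ∣ p₄ - 1)
    (hsq : ∀ p s : ℕ, p.Prime → s.Prime → p ≠ s → p ∣ n → s ∣ n → s ^ 3 ∣ n ∧ ¬ p ∣ s - 1)
    (hpp : ∀ p k : ℕ, p.Prime → n ≠ p ^ k) :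
    (∃ p q : ℕ, p.Prime ∧ q.Prime ∧ p ≠ q ∧ p ∣ n ∧ q ∣ n ∧
      ∀ r : ℕ, r.Prime → r ∣ n → r = p ∨ r = q) ∨
    (∃ p q s : ℕ, p.Prime ∧ q.Prime ∧ s.Prime ∧ p ≠ q ∧ p ≠ s ∧ q ≠ s ∧ p ∣ n ∧ q ∣ n ∧ s ∣ n ∧
      ∀ r : ℕ, r.Prime → r ∣ n → r = p ∨ r = q ∨ r = s) := by
  have hn0 : n ≠ 0 := by omega
  have hn1 : n ≠ 1 := by omega
  have hmem : ∀ p, p ∈ n.primeFactors ↔ p.Prime ∧ p ∣ n := by
    intro p
    rw [Nat.mem_primeFactors]
    constructor
    · rintro ⟨a, b, -⟩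
      exact ⟨a, b⟩
    · rintro ⟨a, b⟩
      exact ⟨a, b, hn0⟩
  have h2 : ∀ p, p.Prime → p ∣ n → 2 < p := by
    intro p hp hpn
    rcases hp.eq_two_or_odd with h | h
    · exfalso
      subst h
      rcases hodd with ⟨m, hm⟩
      omega
    · have := hp.two_le
      omega
  by_cases hc : 4 ≤ n.primeFactors.card
  · exfalso
    obtain ⟨t, ht, htc⟩ := Finset.exists_subset_card_eq hc
    have hlt : ∀ i j : Fin 4, i < j → t.orderEmbOfFin htc i < t.orderEmbOfFin htc j := by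
      intro i j hij
      exact (t.orderEmbOfFin htc).lt_iff_lt.2 hij
    have hin : ∀ i : Fin 4, (t.orderEmbOfFin htc i).Prime ∧ t.orderEmbOfFin htc i ∣ n := by
      intro i
      exact (hmem _).1 (ht (Finset.orderEmbOfFin_mem t htc i))
    have h01 := hlt 0 1 (by decide)
    have h12 := hlt 1 2 (by decide)
    have h23 := hlt 2 3 (by decide)
    have h02 := h01.trans h12
    have h13 := h12.trans h23
    have h03 := h01.trans h13
    generalize t.orderEmbOfFin htc = f at *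
    have hs : ∀ i j : Fin 4, f i ≠ f j → f j ^ 3 ∣ n ∧ ¬ f i ∣ f j - 1 := fun i j hij =>
      hsq (f i) (f j) (hin i).1 (hin j).1 hij (hin i).2 (hin j).2
    rcases h4 (f 0) (f 1) (f 2) (f 3) (hin 0).1 (hin 1).1 (hin 2).1 (hin 3).1
      (h2 _ (hin 0).1 (hin 0).2) h01 h12 h23
      (hs 1 0 h01.ne').1 (hs 0 1 h01.ne).1 (hs 0 2 h02.ne).1 (hs 0 3 h03.ne).1 with
      h | h | h | h | h | h
    · exact (hs 0 1 h01.ne).2 h
    · exact (hs 0 2 h02.ne).2 h
    · exact (hs 0 3 h03.ne).2 h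
    · exact (hs 1 2 h12.ne).2 h
    · exact (hs 1 3 h13.ne).2 h
    · exact (hs 2 3 h23.ne).2 h
  · have hcases : n.primeFactors.card = 0 ∨ n.primeFactors.card = 1 ∨
        n.primeFactors.card = 2 ∨ n.primeFactors.card = 3 := by omega
    rcases hcases with h | h | h | h
    · exfalso
      have hne : n.primeFactors.Nonempty := Nat.nonempty_primeFactors.2 h1
      rw [← Finset.card_pos] at hne
      omega
    · exfalso
      obtain ⟨p, hp⟩ := Finset.card_eq_one.1 h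
      have hpp' : p.Prime := ((hmem p).1 (by rw [hp]; simp)).1
      refine hpp p (n.factorization p) hpp' ?_
      refine Nat.eq_pow_of_factorization_eq_single hn0 ?_
      ext q
      by_cases hq : q = p
      · subst hq
        simp
      · rw [Finsupp.single_apply, if_neg (Ne.symm hq)]
        by_contra hne
        have : q ∈ n.primeFactors := by
          rw [← Nat.support_factorization, Finsupp.mem_support_iff]
          exact hne
        rw [hp, Finset.mem_singleton] at this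
        exact hq this
    · left
      obtain ⟨p, q, hpq, hset⟩ := Finset.card_eq_two.1 h
      have hp := (hmem p).1 (by rw [hset]; simp)
      have hq := (hmem q).1 (by rw [hset]; simp)
      refine ⟨p, q, hp.1, hq.1, hpq, hp.2, hq.2, ?_⟩
      intro r hr hrn
      have := (hmem r).2 ⟨hr, hrn⟩
      rw [hset] at this
      simpa using this
    · right
      obtain ⟨p, q, s, hpq, hps, hqs, hset⟩ := Finset.card_eq_three.1 h
      have hp := (hmem p).1 (by rw [hset]; simp)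
      have hq := (hmem q).1 (by rw [hset]; simp)
      have hs := (hmem s).1 (by rw [hset]; simp)
      refine ⟨p, q, s, hp.1, hq.1, hs.1, hpq, hps, hqs, hp.2, hq.2, hs.2, ?_⟩
      intro r hr hrn
      have := (hmem r).2 ⟨hr, hrn⟩
      rw [hset] at this
      simpa using this

end Pool.Agent.Lib.MP_544bd1_al
end

section

/-!
Two generators, part 3 (Theorem D): the element `g`.
-/

namespace Pool.Agent.Lib.MP_544bd1_al

open Subgroup

/-- If `z` (order `p`) normalizes but does not centralize the finite `s`-group `R`, `s ≠ p` odd, there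
are a `z`-invariant subgroup `E ≤ R` and `g ∈ E` of order `s`, not commuting with `z`, with
`E ≤ closure {z, g * z * g⁻¹}`.

Proof. Let `E ≤ R` be a `z`-invariant subgroup not centralized by `z` of minimal order; it satisfies the
hypothesis `hmin` of `tw_Y5a`. Write `σ x = z * x * z⁻¹`. There is `x ∈ E` such that `g = σ x * x⁻¹` does
not commute with `z` (otherwise `tw_coprime_trivial`, see (c) in the proof of `tw_Y5a`, shows that `z`
centralizes `E`). `g ^ s = 1` by `tw_Y5a`.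
Let `A₁ = E ⊓ closure {z, g * z * g⁻¹}`: it is `z`-invariant. Suppose `A₁ ≠ E`; then `z` centralizes
`A₁`. The element `a = g * (σ g)⁻¹ = (g * z * g⁻¹) * z⁻¹` is in `A₁`, so `σ a = a`, `σ g = a⁻¹ * g`, so
`z ^ i * g * (z ^ i)⁻¹ = (a⁻¹) ^ i * g` for all `i`; `i = p` gives `a ^ p = 1`, and `a` is an
`s`-element, so `a = 1` and `σ g = g`, contradiction. So `A₁ = E`. -/
theorem tw_Y5 {G : Type} [Group G] {p s : ℕ} (hp : p.Prime) (hs : s.Prime) (hps : p ≠ s)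
    (hs2 : s ≠ 2) {z : G} (hz : z ^ p = 1) (R : Subgroup G) [Finite R] (hR : IsPGroup s R)
    (hzR : ∀ x ∈ R, z * x * z⁻¹ ∈ R) (hne : ∃ x ∈ R, z * x ≠ x * z) :
    ∃ E : Subgroup G, E ≤ R ∧ (∀ x ∈ E, z * x * z⁻¹ ∈ E) ∧
      ∃ g ∈ E, g ^ s = 1 ∧ z * g ≠ g * z ∧ E ≤ closure {z, g * z * g⁻¹} := by
  classical
  -- the minimal invariant, not centralized subgroup
  have hex : ∃ n : ℕ, ∃ D : Subgroup G, D ≤ R ∧ (∀ x ∈ D, z * x * z⁻¹ ∈ D) ∧
      (∃ x ∈ D, z * x ≠ x * z) ∧ Nat.card D = n := ⟨Nat.card R, R, le_rfl, hzR, hne, rfl⟩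
  obtain ⟨E, hER, hzE, hneE, hcard⟩ := Nat.find_spec hex
  have hfinE : Finite E := Finite.of_injective _ (Subgroup.inclusion_injective hER)
  have hE : IsPGroup s E := hR.of_injective _ (Subgroup.inclusion_injective hER)
  have hmin : ∀ D : Subgroup G, D ≤ E → D ≠ E → (∀ x ∈ D, z * x * z⁻¹ ∈ D) →
      ∀ x ∈ D, z * x = x * z := by
    intro D hDE hDne hzD x hx
    by_contra hcon
    have h1 : Nat.find hex ≤ Nat.card D :=
      Nat.find_min' hex ⟨D, hDE.trans hER, hzD, ⟨x, hx, hcon⟩, rfl⟩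
    rw [← hcard] at h1
    exact hDne (Subgroup.eq_of_le_of_card_ge hDE h1)
  have hfs : Fact s.Prime := ⟨hs⟩
  obtain ⟨n, hn⟩ := (IsPGroup.iff_card (p := s) (G := E)).1 hE
  have hcop : Nat.Coprime p (Nat.card E) := by
    rw [hn]
    exact Nat.Coprime.pow_right n ((Nat.coprime_primes hp hs).2 hps)
  have hpowE : ∀ x ∈ E, x ^ (Nat.card E) = 1 := by
    intro x hx
    have h1 : (⟨x, hx⟩ : E) ^ (Nat.card E) = 1 := pow_card_eq_one'
    have h2 := congrArg (fun y : E => (y : G)) h1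
    have h3 : ((⟨x, hx⟩ : E) : G) ^ (Nat.card E) = 1 := by
      rw [← Subgroup.coe_pow]
      exact h2
    exact h3
  -- the element
  obtain ⟨x, hx, hxg⟩ : ∃ x ∈ E, z * (z * x * z⁻¹ * x⁻¹) ≠ (z * x * z⁻¹ * x⁻¹) * z := by
    by_contra hcon
    push Not at hcon
    obtain ⟨y, hy, hyne⟩ := hneE
    apply hyne
    refine tw_coprime_trivial hcop E hpowE hz hzE ?_ y hy
    intro x hx
    have h1 := hcon x⁻¹ (E.inv_mem hx)
    rw [inv_inv] at h1
    have h2 : Commute z (z * x⁻¹ * z⁻¹ * x) := h1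
    have h3 := h2.inv_right
    have h4 : (z * x⁻¹ * z⁻¹ * x)⁻¹ = x⁻¹ * (z * x * z⁻¹) := by group
    rw [h4] at h3
    exact h3.eq
  have hgE : z * x * z⁻¹ * x⁻¹ ∈ E := E.mul_mem (hzE x hx) (E.inv_mem hx)
  have hgs : (z * x * z⁻¹ * x⁻¹) ^ s = 1 := tw_Y5a hp hs hps hs2 hz E hE hzE hneE hmin x hx
  refine ⟨E, hER, hzE, z * x * z⁻¹ * x⁻¹, hgE, hgs, hxg, ?_⟩
  obtain ⟨g, hg⟩ : ∃ g, g = z * x * z⁻¹ * x⁻¹ := ⟨_, rfl⟩
  rw [← hg] at hgE hgs hxg ⊢
  have hzc : z ∈ closure {z, g * z * g⁻¹} := subset_closure (by simp)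
  have hgc : g * z * g⁻¹ ∈ closure {z, g * z * g⁻¹} := subset_closure (by simp)
  by_contra hle
  have hA : E ⊓ closure {z, g * z * g⁻¹} ≠ E := by
    intro h
    apply hle
    rw [← h]
    exact inf_le_right
  have hc := hmin (E ⊓ closure {z, g * z * g⁻¹}) inf_le_left hA (by
    intro y hy
    obtain ⟨hy1, hy2⟩ := Subgroup.mem_inf.1 hy
    exact Subgroup.mem_inf.2 ⟨hzE y hy1, mul_mem (mul_mem hzc hy2) (inv_mem hzc)⟩)
  obtain ⟨a, ha⟩ : ∃ a, a = g * (z * g * z⁻¹)⁻¹ := ⟨_, rfl⟩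
  have haE : a ∈ E := by
    rw [ha]
    exact E.mul_mem hgE (E.inv_mem (hzE g hgE))
  have haA : a ∈ E ⊓ closure {z, g * z * g⁻¹} := by
    refine Subgroup.mem_inf.2 ⟨haE, ?_⟩
    have h1 : a = (g * z * g⁻¹) * z⁻¹ := by rw [ha]; group
    rw [h1]
    exact mul_mem hgc (inv_mem hzc)
  have hza : Commute z a := hc a haA
  have hsg : z * g * z⁻¹ = a⁻¹ * g := by rw [ha]; group
  have key : ∀ i : ℕ, z ^ i * g * (z ^ i)⁻¹ = (a⁻¹) ^ i * g := by
    intro i
    induction i with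
    | zero => simp
    | succ i ih =>
      have h1 : z ^ (i + 1) * g * (z ^ (i + 1))⁻¹ = z * (z ^ i * g * (z ^ i)⁻¹) * z⁻¹ := by
        rw [pow_succ' z]; group
      rw [h1, ih]
      have h2 : z * (a⁻¹) ^ i = (a⁻¹) ^ i * z := (hza.inv_right.pow_right i).eq
      calc z * ((a⁻¹) ^ i * g) * z⁻¹ = (z * (a⁻¹) ^ i) * g * z⁻¹ := by group
        _ = (a⁻¹) ^ i * (z * g * z⁻¹) := by rw [h2]; group
        _ = (a⁻¹) ^ (i + 1) * g := by rw [hsg, pow_succ, mul_assoc]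
  have h1 := key p
  rw [hz, inv_one, mul_one, one_mul] at h1
  have h2 : (a⁻¹) ^ p = 1 := by
    have h3 : 1 * g = (a⁻¹) ^ p * g := by rw [one_mul]; exact h1
    exact (mul_right_cancel h3).symm
  have h3 : a⁻¹ = 1 := tw_one hcop h2 (hpowE _ (E.inv_mem haE))
  rw [h3, one_mul] at hsg
  apply hxg
  calc z * g = (z * g * z⁻¹) * z := by group
    _ = g * z := by rw [hsg]

end Pool.Agent.Lib.MP_544bd1_al
end

section

/-!
Two generators, part 2, second refinement: three primes, the walk.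
-/

namespace Pool.Agent.Lib.MP_544bd1_al

open Subgroup

/-- arithmetic: orders dividing `M`, `N` and `S` -/
theorem tw_three_gcd {G : Type} [Group G] {n p q s a b c M N S : ℕ} (hn : 0 < n) (hM : n = M * p ^ a)
    (hN : n = N * q ^ b) (hS : n = S * s ^ c) (hpM : ¬ p ∣ M) (hqN : ¬ q ∣ N) (hsS : ¬ s ∣ S)
    (hn3 : ∀ r : ℕ, r.Prime → r ∣ n → r = p ∨ r = q ∨ r = s) {x : G} (h1 : x ^ M = 1)
    (h2 : x ^ N = 1) (h3 : x ^ S = 1) : x = 1 := by
  rw [← orderOf_eq_one_iff]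
  by_contra hne
  obtain ⟨r, hr, hrx⟩ := Nat.exists_prime_and_dvd hne
  have hrM : r ∣ M := hrx.trans (orderOf_dvd_of_pow_eq_one h1)
  have hrN : r ∣ N := hrx.trans (orderOf_dvd_of_pow_eq_one h2)
  have hrS : r ∣ S := hrx.trans (orderOf_dvd_of_pow_eq_one h3)
  have hrn : r ∣ n := by
    rw [hM]
    exact Dvd.dvd.mul_right hrM _
  rcases hn3 r hr hrn with rfl | rfl | rfl
  · exact hpM hrM
  · exact hqN hrN
  · exact hsS hrS

/-- **The walk.** Let `p, q, s` be the only primes dividing `n`, let `z` be `p`-good, `y` `q`-good,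
`x` `s`-good (of prime orders). If `z` commutes with `y`, then it commutes with `x⁻¹ * y * x`.

Proof. `T = closure {x, z * y}` is finite and solvable and contains `x`, `z`, `y`
(`tw_coprime_comm`). `tw_C` for `(z, x)` (primes `p`, `s`) gives
`InO S (closure {z, x}) (x⁻¹ * (z⁻¹ * x * z))`, so this commutator `d` has `d ^ S = 1` (`InO.odd`); as
`InOP S (s ^ c) T x` (`hx.inOP`) we have `InOP S (s ^ c) T d` (`InOP.comm'`) and so `InO S T d`
(`InOP.inO`). In the same way `InO S T e` for `e = x⁻¹ * (y⁻¹ * x * y)` (`tw_C` for `(y, x)`, primes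
`q`, `s`). `y⁻¹ * (x⁻¹ * y * x) = (y⁻¹ * x⁻¹ * y * x)` is `e'` with `e' = (x⁻¹ * (y⁻¹ * x * y))⁻¹`
conjugated suitably: so modulo the normal subgroup `krad`-type subgroup `O = O_{s'}(T)` (all
`InO S T`-elements, closed under products by `tw_InO_mul`) we have `x⁻¹ * y * x ≡ y`, and so
`[z, x⁻¹ * y * x] ≡ [z, y] = 1`: `InO S T c` for `c = (y')⁻¹ * (z⁻¹ * y' * z)`, `y' = x⁻¹ * y * x`.
(Convenient: pass to the quotient of the group `T` by `krad S T`.) So `c ^ S = 1`. `y'` is `q`-good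
(`GoodS.conj`), and `tw_C` for `(z, y')` and `(y', z)` gives `c ^ N = 1` and `(c⁻¹) ^ M = 1` (see the
proof of `tw_comm_good` in TwP1.lean). By `tw_three_gcd` `c = 1`. -/
theorem tw_walk {G : Type} [Group G] {n p q s a b c M N S : ℕ} (H : TwG n G) (hp : p.Prime)
    (hq : q.Prime) (hs : s.Prime) (hpq : p ≠ q) (hps : p ≠ s) (hqs : q ≠ s) (hM : n = M * p ^ a)
    (hN : n = N * q ^ b) (hS : n = S * s ^ c) (hpM : ¬ p ∣ M) (hqN : ¬ q ∣ N) (hsS : ¬ s ∣ S)
    (hn3 : ∀ r : ℕ, r.Prime → r ∣ n → r = p ∨ r = q ∨ r = s)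
    (hnoM : NoN M G) (hnoN : NoN N G) {z y x : G}
    (hz : GoodS M (p ^ a) z) (hzp : z ^ p = 1) (hy : GoodS N (q ^ b) y) (hyq : y ^ q = 1)
    (hx : GoodS S (s ^ c) x) (hxs : x ^ s = 1) (hzy : z * y = y * z) :
    z * (x⁻¹ * y * x) = (x⁻¹ * y * x) * z := by
  have hcopS : Nat.Coprime S (s ^ c) :=
    ((Nat.Prime.coprime_iff_not_dvd hs).2 hsS).symm.pow_right c
  have hcoppq : Nat.Coprime p q := (Nat.coprime_primes hp hq).2 hpq
  obtain ⟨hz1, hy1⟩ := tw_coprime_comm hcoppq hzp hyq hzy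
  obtain ⟨hfT, hsT⟩ := H.h2 x (z * y)
  set T := closure {x, z * y} with hT
  have hxT : x ∈ T := subset_closure (by simp)
  have hzyT : z * y ∈ T := subset_closure (by simp)
  have hle : zpowers (z * y) ≤ T := (zpowers_le (g := z * y) (H := T)).2 hzyT
  have hzT : z ∈ T := hle hz1
  have hyT : y ∈ T := hle hy1
  -- the commutator of `x` and `y`
  have he1 := (tw_C H hq hs hqs hN hS hqN hsS hnoN hy hx hxs).odd
  have he2 : InO S T (x⁻¹ * (y⁻¹ * x * y)) :=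
    ((hx.inOP T hfT hsT hxT).comm' hyT).inO hcopS he1
  set y' := x⁻¹ * y * x with hy'
  have hcS : (y'⁻¹ * (z⁻¹ * y' * z)) ^ S = 1 := by
    obtain ⟨K, hK1, hK2, hK3, hK4⟩ := he2
    apply hK4
    have h1 : y'⁻¹ * (z⁻¹ * y' * z) = (x⁻¹ * (y⁻¹ * x * y)) *
        (z⁻¹ * (x⁻¹ * (y⁻¹ * x * y))⁻¹ * z⁻¹⁻¹) := by
      have h2 : y⁻¹ * z⁻¹ * y = z⁻¹ := by
        have h3 : z⁻¹ * y = y * z⁻¹ := (Commute.inv_left (show Commute z y from hzy))
        rw [mul_assoc, h3, inv_mul_cancel_left]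
      calc y'⁻¹ * (z⁻¹ * y' * z) = (x⁻¹ * (y⁻¹ * x * y)) * (y⁻¹ * z⁻¹ * y) *
          (x⁻¹ * (y⁻¹ * x * y))⁻¹ * z := by
            rw [hy']
            group
        _ = _ := by
            rw [h2]
            group
    rw [h1]
    exact K.mul_mem hK2 (hK3 _ (T.inv_mem hzT) _ (K.inv_mem hK2))
  have hy'g : GoodS N (q ^ b) y' := hy.conj x
  have hy'q : y' ^ q = 1 := by
    have h1 : y' = x⁻¹ * y * (x⁻¹)⁻¹ := by rw [hy', inv_inv]
    rw [h1, conj_pow, hyq, mul_one, mul_inv_cancel]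
  have hcN := (tw_C H hp hq hpq hM hN hpM hqN hnoM hz hy'g hy'q).odd
  have hcM := (tw_C H hq hp hpq.symm hN hM hqN hpM hnoN hy'g hz hzp).odd
  have hcinv : z⁻¹ * (y'⁻¹ * z * y') = (y'⁻¹ * (z⁻¹ * y' * z))⁻¹ := by group
  rw [hcinv, inv_pow, inv_eq_one] at hcM
  have hc1 := tw_three_gcd H.pos hM hN hS hpM hqN hsS hn3 hcM hcN hcS
  have h5 : y' = z⁻¹ * y' * z := inv_mul_eq_one.1 hc1
  calc z * y' = z * (z⁻¹ * y' * z) := by rw [← h5]
    _ = y' * z := by group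

/-- the same for products of `s`-good elements.
Proof. The property `P g : ∀ y, GoodS N (q ^ b) y → y ^ q = 1 → z * y = y * z →
z * (g⁻¹ * y * g) = (g⁻¹ * y * g) * z` holds for the generators and for `1`, and it is closed under
products (`g⁻¹ * y * g` is again good, `GoodS.conj`), so under powers, so under inverses
(`g⁻¹ = g ^ (n - 1)`): `closure_induction`. -/
theorem tw_walk_closure {G : Type} [Group G] {n p q s a b c M N S : ℕ} (H : TwG n G)
    (hp : p.Prime) (hq : q.Prime) (hs : s.Prime) (hpq : p ≠ q) (hps : p ≠ s) (hqs : q ≠ s)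
    (hM : n = M * p ^ a) (hN : n = N * q ^ b) (hS : n = S * s ^ c) (hpM : ¬ p ∣ M) (hqN : ¬ q ∣ N)
    (hsS : ¬ s ∣ S) (hn3 : ∀ r : ℕ, r.Prime → r ∣ n → r = p ∨ r = q ∨ r = s)
    (hnoM : NoN M G) (hnoN : NoN N G) {z : G} (hz : GoodS M (p ^ a) z)
    (hzp : z ^ p = 1) {g : G} (hg : g ∈ closure {x : G | GoodS S (s ^ c) x ∧ x ^ s = 1}) :
    ∀ y : G, GoodS N (q ^ b) y → y ^ q = 1 → z * y = y * z →
      z * (g⁻¹ * y * g) = (g⁻¹ * y * g) * z := by
  have hconj : ∀ (g y : G), y ^ q = 1 → (g⁻¹ * y * g) ^ q = 1 := by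
    intro g y hy
    have h1 : g⁻¹ * y * g = g⁻¹ * y * (g⁻¹)⁻¹ := by rw [inv_inv]
    rw [h1, conj_pow, hy, mul_one, mul_inv_cancel]
  have hmul : ∀ g h : G, (∀ y : G, GoodS N (q ^ b) y → y ^ q = 1 → z * y = y * z →
      z * (g⁻¹ * y * g) = (g⁻¹ * y * g) * z) → (∀ y : G, GoodS N (q ^ b) y → y ^ q = 1 →
      z * y = y * z → z * (h⁻¹ * y * h) = (h⁻¹ * y * h) * z) →
      ∀ y : G, GoodS N (q ^ b) y → y ^ q = 1 → z * y = y * z →
      z * ((g * h)⁻¹ * y * (g * h)) = ((g * h)⁻¹ * y * (g * h)) * z := by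
    intro g h hg hh y hy hyq hzy
    have h1 := hh _ (hy.conj g) (hconj g y hyq) (hg y hy hyq hzy)
    rw [show (g * h)⁻¹ * y * (g * h) = h⁻¹ * (g⁻¹ * y * g) * h by group]
    exact h1
  induction hg using closure_induction with
  | mem x hx =>
    intro y hy hyq hzy
    exact tw_walk H hp hq hs hpq hps hqs hM hN hS hpM hqN hsS hn3 hnoM hnoN hz hzp hy hyq hx.1
      hx.2 hzy
  | one =>
    intro y _ _ hzy
    rw [inv_one, one_mul, mul_one]
    exact hzy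
  | mul g h _ _ ihg ihh => exact hmul g h ihg ihh
  | inv g _ ih =>
    have hpow : ∀ k : ℕ, ∀ y : G, GoodS N (q ^ b) y → y ^ q = 1 → z * y = y * z →
        z * ((g ^ k)⁻¹ * y * g ^ k) = ((g ^ k)⁻¹ * y * g ^ k) * z := by
      intro k
      induction k with
      | zero =>
        intro y _ _ hzy
        rw [pow_zero, inv_one, one_mul, mul_one]
        exact hzy
      | succ k ihk =>
        rw [pow_succ]
        exact hmul _ _ ihk ih
    have h1 : g⁻¹ = g ^ (n - 1) := by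
      rw [eq_comm, eq_inv_iff_mul_eq_one, ← pow_succ, Nat.sub_add_cancel H.pos, H.hexp]
    rw [h1]
    exact hpow (n - 1)

end Pool.Agent.Lib.MP_544bd1_al
end

section

/-!
Two generators, part 3 (Theorem D): Lemma K0.
-/

namespace Pool.Agent.Lib.MP_544bd1_al

open Subgroup

private theorem y2_InO_inv {G : Type} [Group G] {m : ℕ} {T : Subgroup G} {x : G}
    (h : InO m T x) : InO m T x⁻¹ := by
  obtain ⟨N, h1, h2, h3, h4⟩ := h
  exact ⟨N, h1, N.inv_mem h2, h3, h4⟩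

private theorem y2_InO_conj {G : Type} [Group G] {m : ℕ} {T : Subgroup G} {x t : G}
    (h : InO m T x) (ht : t ∈ T) : InO m T (t * x * t⁻¹) := by
  obtain ⟨N, h1, h2, h3, h4⟩ := h
  exact ⟨N, h1, h3 t ht x h2, h3, h4⟩

/-- **Lemma K0.** `T` a finite solvable subgroup containing the good elements `z` (order `p`) and `b`
(order `s`). Let `N = O_{p'}(T) ∩ O_{s'}(T)`. Then `b` commutes modulo `N` with all elements of the
normal closure of `z` in `T`.

Proof. `N := {x | InO M T x ∧ InO S T x}` is a subgroup (`InO` contains `1`, is closed under products,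
`tw_InO_mul` for `M * p ^ a` and for `S * s ^ c`, and under inverses), it is contained in `T` and
normalized by `T` (conjugates inside `T`: if `N₁` is the subgroup in the definition of `InO M T x`
then `t * x * t⁻¹ ∈ N₁`).
Let `C = {x | x ∈ T ∧ ∀ t ∈ T, x⁻¹ * ((t⁻¹ * b * t)⁻¹ * x * (t⁻¹ * b * t)) ∈ N}`. It is a subgroup
(with `β = t⁻¹ * b * t ∈ T`: `[x y, β] = y⁻¹ [x, β] y [y, β]` and `[x⁻¹, β] = x [x, β]⁻¹ x⁻¹`, where
`[x, β] = x⁻¹ * (β⁻¹ * x * β)`), normalized by `T` (`u * x * u⁻¹`, `u ∈ T`: conjugate by `u` and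
replace `t` by `t * u`). It remains to see that `z ∈ C` (then `InNC T z x` gives `x ∈ C`; take `t = 1`).
Let `t ∈ T`, `β = t⁻¹ * b * t` (`GoodS S (s ^ c) β` by `GoodS.conj`, `β ^ s = 1`, `β ∈ T`),
`d = z⁻¹ * (β⁻¹ * z * β)`. `tw_C` for `(p, s)`: `InO S (closure {z, β}) (β⁻¹ * (z⁻¹ * β * z))`; this
element is `d⁻¹`, so `d ^ S = 1`. `tw_C` for `(s, p)` (with `z := β`, `y := z`, `NoN S G`, `z ^ p = 1`):
`InO M (closure {β, z}) d`, so `d ^ M = 1`. `InOP M (p ^ a) T z` (`GoodS.inOP`), so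
`InOP M (p ^ a) T d` (`InOP.comm'`), so `InO M T d` (`InOP.inO`). `InOP S (s ^ c) T β`, so
`InOP S (s ^ c) T d` (`InOP.comm`: `d = z⁻¹ * (β⁻¹ * z * β)`), so `InO S T d`. So `d ∈ N`. -/
theorem tw_Y2 {G : Type} [Group G] {n p s a c M S : ℕ} (H : TwG n G) (hp : p.Prime)
    (hs : s.Prime) (hps : p ≠ s) (hM : n = M * p ^ a) (hS : n = S * s ^ c) (hpM : ¬ p ∣ M)
    (hsS : ¬ s ∣ S) (hnoM : NoN M G) (hnoS : NoN S G) {z b : G} (hz : GoodS M (p ^ a) z)
    (hzp : z ^ p = 1) (hb : GoodS S (s ^ c) b) (hbs : b ^ s = 1) (T : Subgroup G)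
    (hfin : Finite T) (hsol : Group.IsSolvable T) (hzT : z ∈ T) (hbT : b ∈ T) :
    ∃ N : Subgroup G, N ≤ T ∧ (∀ t ∈ T, ∀ x ∈ N, t * x * t⁻¹ ∈ N) ∧ (∀ x ∈ N, x ^ M = 1) ∧
      (∀ x ∈ N, x ^ S = 1) ∧ ∀ x, InNC T z x → x⁻¹ * (b⁻¹ * x * b) ∈ N := by
  classical
  have hcopM : Nat.Coprime M (p ^ a) := ((Nat.Prime.coprime_iff_not_dvd hp).2 hpM).symm.pow_right a
  have hcopS : Nat.Coprime S (s ^ c) := ((Nat.Prime.coprime_iff_not_dvd hs).2 hsS).symm.pow_right c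
  have hexpM : ∀ x : G, x ^ (M * p ^ a) = 1 := fun x => by rw [← hM]; exact H.hexp x
  have hexpS : ∀ x : G, x ^ (S * s ^ c) = 1 := fun x => by rw [← hS]; exact H.hexp x
  let N : Subgroup G :=
    { carrier := {x | InO M T x ∧ InO S T x}
      mul_mem' := fun hx hy => ⟨tw_InO_mul hcopM hexpM hx.1 hy.1, tw_InO_mul hcopS hexpS hx.2 hy.2⟩
      one_mem' := ⟨InO.one T, InO.one T⟩
      inv_mem' := fun hx => ⟨y2_InO_inv hx.1, y2_InO_inv hx.2⟩ }
  have hN : ∀ t ∈ T, ∀ x ∈ N, t * x * t⁻¹ ∈ N :=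
    fun t ht x hx => ⟨y2_InO_conj hx.1 ht, y2_InO_conj hx.2 ht⟩
  have hN' : ∀ t ∈ T, ∀ x ∈ N, t⁻¹ * x * t ∈ N := tw_conj_inv hN
  let C : Subgroup G :=
    { carrier := {x | x ∈ T ∧ ∀ t ∈ T, x⁻¹ * ((t⁻¹ * b * t)⁻¹ * x * (t⁻¹ * b * t)) ∈ N}
      mul_mem' := by
        rintro x y ⟨hx, hx'⟩ ⟨hy, hy'⟩
        refine ⟨T.mul_mem hx hy, fun t ht => ?_⟩
        have h1 := N.mul_mem (hN' y hy _ (hx' t ht)) (hy' t ht)
        rwa [show y⁻¹ * (x⁻¹ * ((t⁻¹ * b * t)⁻¹ * x * (t⁻¹ * b * t))) * y *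
          (y⁻¹ * ((t⁻¹ * b * t)⁻¹ * y * (t⁻¹ * b * t))) =
          (x * y)⁻¹ * ((t⁻¹ * b * t)⁻¹ * (x * y) * (t⁻¹ * b * t)) by group] at h1
      one_mem' := by
        refine ⟨T.one_mem, fun t _ => ?_⟩
        rw [show (1 : G)⁻¹ * ((t⁻¹ * b * t)⁻¹ * 1 * (t⁻¹ * b * t)) = 1 by group]
        exact N.one_mem
      inv_mem' := by
        rintro x ⟨hx, hx'⟩
        refine ⟨T.inv_mem hx, fun t ht => ?_⟩
        have h1 := hN x hx _ (N.inv_mem (hx' t ht))
        rwa [show x * (x⁻¹ * ((t⁻¹ * b * t)⁻¹ * x * (t⁻¹ * b * t)))⁻¹ * x⁻¹ =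
          x⁻¹⁻¹ * ((t⁻¹ * b * t)⁻¹ * x⁻¹ * (t⁻¹ * b * t)) by group] at h1 }
  have hC : ∀ u ∈ T, ∀ x ∈ C, u * x * u⁻¹ ∈ C := by
    rintro u hu x ⟨hx, hx'⟩
    refine ⟨T.mul_mem (T.mul_mem hu hx) (T.inv_mem hu), fun t ht => ?_⟩
    have h1 := hN u hu _ (hx' (t * u) (T.mul_mem ht hu))
    rwa [show u * (x⁻¹ * (((t * u)⁻¹ * b * (t * u))⁻¹ * x * ((t * u)⁻¹ * b * (t * u)))) * u⁻¹ =
      (u * x * u⁻¹)⁻¹ * ((t⁻¹ * b * t)⁻¹ * (u * x * u⁻¹) * (t⁻¹ * b * t)) by group] at h1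
  have hzC : z ∈ C := by
    refine ⟨hzT, fun t ht => ?_⟩
    have hβT : t⁻¹ * b * t ∈ T := T.mul_mem (T.mul_mem (T.inv_mem ht) hbT) ht
    have hβ : GoodS S (s ^ c) (t⁻¹ * b * t) := hb.conj t
    have hβs : (t⁻¹ * b * t) ^ s = 1 := by
      have h1 : (t⁻¹ * b * t⁻¹⁻¹) ^ s = t⁻¹ * b ^ s * t⁻¹⁻¹ := conj_pow
      rw [inv_inv, hbs, mul_one, inv_mul_cancel] at h1
      exact h1
    generalize t⁻¹ * b * t = β at hβT hβ hβs ⊢
    have e1 := (tw_C H hp hs hps hM hS hpM hsS hnoM hz hβ hβs).odd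
    have e2 := (tw_C H hs hp hps.symm hS hM hsS hpM hnoS hβ hz hzp).odd
    have e3 : (z⁻¹ * (β⁻¹ * z * β)) ^ S = 1 := by
      rw [show z⁻¹ * (β⁻¹ * z * β) = (β⁻¹ * (z⁻¹ * β * z))⁻¹ by group, inv_pow, e1, inv_one]
    exact ⟨((hz.inOP T hfin hsol hzT).comm' hβT).inO hcopM e2,
      ((hβ.inOP T hfin hsol hβT).comm hzT).inO hcopS e3⟩
  refine ⟨N, fun x hx => hx.1.mem, hN, fun x hx => hx.1.odd, fun x hx => hx.2.odd, fun x hx => ?_⟩
  have h1 := (hx C hzC hC).2 1 T.one_mem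
  rwa [show x⁻¹ * ((1⁻¹ * b * 1)⁻¹ * x * (1⁻¹ * b * 1)) = x⁻¹ * (b⁻¹ * x * b) by group] at h1

end Pool.Agent.Lib.MP_544bd1_al
end

section

/-!
Two generators, part 2, second refinement: three primes, good elements commute.
-/

namespace Pool.Agent.Lib.MP_544bd1_al

open Subgroup

/-- Let `K` be a normal subgroup containing the `p`-good element `z` and such that, for all `q`-good
elements `y'` commuting with `z` and all `g ∈ K`, `z` commutes with `g⁻¹ * y' * g`. Then `z` commutes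
with all `q`-good elements `y`. (`p`, `q`, `s` are the only primes dividing `n`.)

Proof. `T = closure {z, y}`, `c = y⁻¹ * (z⁻¹ * y * z)`. As in the proof of `tw_comm_good` (TwP1.lean)
`tw_C` for `(z, y)` and `(y, z)` gives subgroups `N1`, `N2` of `T`, normalized by `T`, of exponents
`N` and `M`, containing `c`. Let `J = N1 ⊓ N2 ⊓ K`: normalized by `T`, `c ∈ J` (`c = (y⁻¹ * z⁻¹ * y) * z`
is in `K`), and `x ^ (s ^ c) = 1` for `x ∈ J` (the order of `x` divides `M` and `N` and `n`, so it is not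
divisible by `p`, `q`). `¬ p ∣ Nat.card J` (`tw_card_cop`).
`tw_coset_fix` (TwR4.lean; `k := 1`, `N := J`, `x := y`; `y⁻¹ * (z * y * z⁻¹) = z * c⁻¹ * z⁻¹ ∈ J`) gives
`y₁` with `y⁻¹ * y₁ ∈ J`, `z * y₁ = y₁ * z`. Let `k ≡ 1 mod q`, `k ≡ 0 mod s ^ c` and `y₂ = y₁ ^ k`: it
commutes with `z`, `y⁻¹ * y₂ ∈ J` (modulo `J`: `y₁ ≡ y`, `y ^ k = y`), and `y₂ ^ q = (y₁ ^ q) ^ k = 1` as
`y₁ ^ q ∈ J`. By `tw_conj_mod` (in the group `T`, `p := s`, `A := J`) there is `g ∈ J` with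
`g⁻¹ * y * g = y₂`. So `y₂` is `q`-good (`GoodS.conj`), and `hK` for `y' = y₂` and `g⁻¹ ∈ K` gives that
`z` commutes with `g * y₂ * g⁻¹ = y`. -/
theorem tw_walk_comm {G : Type} [Group G] {n p q s a b c M N : ℕ} (H : TwG n G) (hp : p.Prime)
    (hq : q.Prime) (hs : s.Prime) (hpq : p ≠ q) (hps : p ≠ s) (hqs : q ≠ s) (hM : n = M * p ^ a)
    (hN : n = N * q ^ b) (hc : n.factorization s = c) (hpM : ¬ p ∣ M) (hqN : ¬ q ∣ N)
    (hn3 : ∀ r : ℕ, r.Prime → r ∣ n → r = p ∨ r = q ∨ r = s) (hnoM : NoN M G) (hnoN : NoN N G)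
    (K : Subgroup G) (hKn : K.Normal) {z : G} (hzK : z ∈ K) (hz : GoodS M (p ^ a) z)
    (hzp : z ^ p = 1)
    (hK : ∀ g ∈ K, ∀ y' : G, GoodS N (q ^ b) y' → y' ^ q = 1 → z * y' = y' * z →
      z * (g⁻¹ * y' * g) = (g⁻¹ * y' * g) * z)
    {y : G} (hy : GoodS N (q ^ b) y) (hyq : y ^ q = 1) : z * y = y * z := by
  have hn0 : n ≠ 0 := H.pos.ne'
  obtain ⟨N1, h11, h12, h13, h14⟩ := tw_C H hp hq hpq hM hN hpM hqN hnoM hz hy hyq
  obtain ⟨N2, h21, h22, h23, h24⟩ := tw_C H hq hp hpq.symm hN hM hqN hpM hnoN hy hz hzp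
  have hTT : closure {y, z} = closure {z, y} := by rw [Set.pair_comm]
  rw [hTT] at h21 h23
  obtain ⟨hfT, hsT⟩ := H.h2 z y
  set T := closure {z, y} with hT
  set d := y⁻¹ * (z⁻¹ * y * z) with hd
  have hdinv : d⁻¹ = z⁻¹ * (y⁻¹ * z * y) := by rw [hd]; group
  rw [← hdinv] at h22
  have hdJ1 : d ∈ N1 := h12
  have hdJ2 : d ∈ N2 := by simpa using N2.inv_mem h22
  have hzT : z ∈ T := subset_closure (by simp)
  have hyT : y ∈ T := subset_closure (by simp)
  have hdK : d ∈ K := by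
    have h1 := hKn.conj_mem _ (K.inv_mem hzK) y⁻¹
    have h2 := K.mul_mem h1 hzK
    rwa [show y⁻¹ * z⁻¹ * (y⁻¹)⁻¹ * z = d by rw [hd]; group] at h2
  -- the intersection
  set J : Subgroup G := N1 ⊓ N2 ⊓ K with hJ
  have hdJ : d ∈ J := ⟨⟨hdJ1, hdJ2⟩, hdK⟩
  have hJT : J ≤ T := fun x hx => h11 hx.1.1
  have hJc : ∀ t ∈ T, ∀ x ∈ J, t * x * t⁻¹ ∈ J := fun t ht x hx =>
    ⟨⟨h13 t ht x hx.1.1, h23 t ht x hx.1.2⟩, hKn.conj_mem x hx.2 t⟩
  have hJs : ∀ x ∈ J, x ^ (s ^ c) = 1 := by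
    intro x hx
    have e1 : orderOf x ∣ N := orderOf_dvd_of_pow_eq_one (h14 x hx.1.1)
    have e2 : orderOf x ∣ M := orderOf_dvd_of_pow_eq_one (h24 x hx.1.2)
    have e3 : orderOf x ∣ n := orderOf_dvd_of_pow_eq_one (H.hexp x)
    have e0 : orderOf x ≠ 0 := fun h => hn0 (Nat.eq_zero_of_zero_dvd (h ▸ e3))
    have e4 : orderOf x = s ^ (orderOf x).primeFactorsList.length := by
      apply Nat.eq_prime_pow_of_unique_prime_dvd e0
      intro r hr hrx
      rcases hn3 r hr (hrx.trans e3) with h | h | h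
      · exact absurd (h ▸ hrx.trans e2) hpM
      · exact absurd (h ▸ hrx.trans e1) hqN
      · exact h
    have e5 : (orderOf x).primeFactorsList.length ≤ c := by
      rw [← hc]
      apply (hs.pow_dvd_iff_le_factorization hn0).1
      rw [← e4]
      exact e3
    apply orderOf_dvd_iff_pow_eq_one.1
    rw [e4]
    exact pow_dvd_pow s e5
  have hJfin : Finite J := Finite.of_injective (Subgroup.inclusion hJT)
    (Subgroup.inclusion_injective hJT)
  have hJp : ¬ p ∣ Nat.card J := by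
    have h1 : ¬ p ∣ s ^ c := fun h =>
      hps ((Nat.prime_dvd_prime_iff_eq hp hs).1 (hp.dvd_of_dvd_pow h))
    have h2 := tw_card_cop (F := J) hp h1 ⊤ (fun x _ => Subtype.ext (by simpa using hJs x x.2))
    rwa [Subgroup.card_top] at h2
  -- a fixed point
  obtain ⟨y₁, hy₁, hzy₁⟩ := tw_coset_fix (F := G) hp (k := 1) (z := z) (by rw [pow_one]; exact hzp)
    J hJp (fun x hx => hJc z hzT x hx) (x := y) (by
      have h1 := hJc z hzT _ (J.inv_mem hdJ)
      rwa [show z * d⁻¹ * z⁻¹ = y⁻¹ * (z * y * z⁻¹) by rw [hd]; group] at h1)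
  have hy₁T : y₁ ∈ T := by
    have h1 := T.mul_mem hyT (hJT hy₁)
    rwa [mul_inv_cancel_left] at h1
  -- the group `T` modulo `J`
  set J' : Subgroup T := J.subgroupOf T with hJ'
  have hJn : J'.Normal := ⟨fun x hx t => hJc t t.2 x hx⟩
  have hJs' : ∀ x ∈ J', x ^ (s ^ c) = 1 := fun x hx =>
    Subtype.ext (by simpa using hJs x hx)
  set Y : T := ⟨y, hyT⟩ with hY
  set Y₁ : T := ⟨y₁, hy₁T⟩ with hY₁
  have hYq : Y ^ q = 1 := Subtype.ext (by simpa using hyq)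
  have hYY₁ : (QuotientGroup.mk Y : T ⧸ J') = QuotientGroup.mk Y₁ :=
    QuotientGroup.eq.2 hy₁
  have hcopqs : Nat.Coprime q (s ^ c) := ((Nat.coprime_primes hq hs).2 hqs).pow_right c
  obtain ⟨k, hk1, hk2⟩ := Nat.chineseRemainder hcopqs 1 0
  have hk2' : s ^ c ∣ k := (Nat.modEq_zero_iff_dvd).1 hk2
  have hYk : Y ^ k = Y := by
    have h1 : Y ^ k = Y ^ 1 := by
      rw [pow_eq_pow_iff_modEq]
      exact hk1.of_dvd (orderOf_dvd_of_pow_eq_one hYq)
    rw [h1, pow_one]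
  have hY₂J : Y⁻¹ * Y₁ ^ k ∈ J' := by
    rw [← QuotientGroup.eq, QuotientGroup.mk_pow, ← hYY₁, ← QuotientGroup.mk_pow, hYk]
  have hY₁q : Y₁ ^ q ∈ J' := by
    rw [← QuotientGroup.eq_one_iff, QuotientGroup.mk_pow, ← hYY₁, ← QuotientGroup.mk_pow, hYq]
    rfl
  have hY₂q : (Y₁ ^ k) ^ q = 1 := by
    obtain ⟨l, hl⟩ := hk2'
    rw [← pow_mul, mul_comm k q, pow_mul, hl, pow_mul, hJs' _ hY₁q, one_pow]
  obtain ⟨g, hgJ, hg⟩ := tw_conj_mod (F := T) hs hq hqs.symm J' hJs' hYq hY₂q hY₂J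
  have hgG : (g : G)⁻¹ * y * g = y₁ ^ k := by
    have := congrArg Subtype.val hg
    simpa using this
  have hgK : (g : G) ∈ K := (show (g : G) ∈ J from hgJ).2
  have hgood : GoodS N (q ^ b) (y₁ ^ k) := by
    rw [← hgG]
    exact hy.conj _
  have hY₂qG : (y₁ ^ k) ^ q = 1 := by
    have := congrArg Subtype.val hY₂q
    simpa using this
  have hcomm : z * y₁ ^ k = y₁ ^ k * z := Commute.pow_right (show Commute z y₁ from hzy₁) k
  have hfin := hK (g : G)⁻¹ (K.inv_mem hgK) (y₁ ^ k) hgood hY₂qG hcomm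
  have hgy : ((g : G)⁻¹)⁻¹ * y₁ ^ k * (g : G)⁻¹ = y := by
    rw [← hgG]; group
  rwa [hgy] at hfin

end Pool.Agent.Lib.MP_544bd1_al
end

section

/-!
Two generators, part 3 (Theorem D): Lemma K.
-/

namespace Pool.Agent.Lib.MP_544bd1_al

open Subgroup

/-- the elements of `closure {z, g * z * g⁻¹}` lie in the normal closure of `z` in `T ∋ g` -/
theorem tw_Y4_nc {G : Type} [Group G] {z g : G} {T : Subgroup G} (hg : g ∈ T) {x : G}
    (hx : x ∈ closure {z, g * z * g⁻¹}) : InNC T z x := by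
  intro N hzN hN
  refine (closure_le N).2 ?_ hx
  rintro y (rfl | rfl)
  · exact hzN
  · exact hN g hg z hzN

private theorem tw_Y4_card {G : Type} [Group G] {M q : ℕ} (hq : q.Prime) (hqM : ¬ q ∣ M)
    (D : Subgroup G) [Finite D] (hD : ∀ x ∈ D, x ^ M = 1) : ¬ q ∣ Nat.card D := by
  intro h
  have hqf : Fact q.Prime := ⟨hq⟩
  obtain ⟨x, hx⟩ := exists_prime_orderOf_dvd_card' q h
  apply hqM
  rw [← hx]
  apply orderOf_dvd_of_pow_eq_one
  apply Subtype.ext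
  rw [Subgroup.coe_pow, Subgroup.coe_one]
  exact hD x x.2

private theorem tw_Y4_conj_pow {G : Type} [Group G] {b j : G} {s : ℕ} (hb : b ^ s = 1) :
    (j * b * j⁻¹) ^ s = 1 := by
  rw [conj_pow, hb, mul_one, mul_inv_cancel]

/-- **Lemma K, first part.** `z` good of order `p`, `b` good of order `s`, `E` an `s`-group normalized
by `z`, `g ∈ E`, `E ≤ closure {z, g * z * g⁻¹}`. Then `z`, `b`, `g` lie in a common finite solvable
subgroup.

Proof. (1) `T₀ = closure {z, b}` is finite and solvable (`H.h2`). `tw_Y2` for `T₀` gives `J ≤ T₀`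
(called `N` there), normalized by `T₀`, of exponents `M` and `S`, so (`tw_card_cop`, in the group `↥J`
or `↥T₀`) of order prime to `p` and `s`, with `z⁻¹ * (b⁻¹ * z * b) ∈ J` (`InNC T₀ z z` is trivial); its
inverse is `b⁻¹ * (z⁻¹ * b * z)`. `tw_Y1`: there is `j ∈ J` such that `b₀ = j * b * j⁻¹` commutes with
`z`. `b₀ ^ s = 1`, `GoodS S (s ^ c) b₀` (`GoodS.conj`).
(2) `T = closure {z * b₀, g}` is finite and solvable; `z, b₀ ∈ zpowers (z * b₀)` (`tw_coprime_comm` for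
the coprime numbers `p`, `s`), so `z, b₀, g ∈ T` and `E ≤ closure {z, g * z * g⁻¹} ≤ T`. `tw_Y2` for `T`,
`z`, `b₀` gives `N`; for `x ∈ E`: `InNC T z x` (`tw_Y4_nc`), so `x⁻¹ * (b₀⁻¹ * x * b₀) ∈ N`. Apply
`tw_Y3` in the group `F = ↥T` (with `N.subgroupOf T`, `E.subgroupOf T`): there is `c ∈ N` commuting
with `z`, such that `b₁ = c * b₀ * c⁻¹` commutes with all elements of `E`, in particular with `g`. `b₁`
commutes with `z` (as `c` and `b₀` do).
(3) `T' = closure {z * b₁, g * c * j}` is finite and solvable. `z, b₁ ∈ T'` (`tw_coprime_comm`). With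
`w = g * c * j`: `w⁻¹ * b₁ * w = j⁻¹ * c⁻¹ * (g⁻¹ * b₁ * g) * c * j = j⁻¹ * c⁻¹ * b₁ * c * j = b`, so
`b ∈ T'`; so `J ≤ T₀ ≤ T'`, `j ∈ T'`, `g * c ∈ T'`, and `(g * c) * z * (g * c)⁻¹ = g * z * g⁻¹ ∈ T'`
(`c` commutes with `z`). So `g ∈ E ≤ closure {z, g * z * g⁻¹} ≤ T'`. -/
theorem tw_Y4 {G : Type} [Group G] {n p s a c M S : ℕ} (H : TwG n G) (hp : p.Prime)
    (hs : s.Prime) (hps : p ≠ s) (hM : n = M * p ^ a) (hS : n = S * s ^ c) (hpM : ¬ p ∣ M)
    (hsS : ¬ s ∣ S) (hnoM : NoN M G) (hnoS : NoN S G) {z b g : G} (hz : GoodS M (p ^ a) z)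
    (hzp : z ^ p = 1) (hb : GoodS S (s ^ c) b) (hbs : b ^ s = 1) (E : Subgroup G)
    (hE : IsPGroup s E) (hzE : ∀ x ∈ E, z * x * z⁻¹ ∈ E) (hgE : g ∈ E)
    (hEcl : E ≤ closure {z, g * z * g⁻¹}) :
    ∃ T : Subgroup G, Finite T ∧ Group.IsSolvable T ∧ z ∈ T ∧ b ∈ T ∧ g ∈ T := by
  have hcop : Nat.Coprime p s := (Nat.coprime_primes hp hs).2 hps
  -- step 1
  obtain ⟨hf0, hs0⟩ := H.h2 z b
  have hz0 : z ∈ closure {z, b} := subset_closure (by simp)
  have hb0 : b ∈ closure {z, b} := subset_closure (by simp)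
  obtain ⟨J, hJT, hJn, hJM, hJS, hJc⟩ := tw_Y2 H hp hs hps hM hS hpM hsS hnoM hnoS hz hzp hb hbs
    (closure {z, b}) hf0 hs0 hz0 hb0
  have hJfin : Finite J := Set.Finite.subset (Set.toFinite (closure {z, b} : Set G)) hJT
  have hJz : z⁻¹ * (b⁻¹ * z * b) ∈ J := hJc z fun N hN _ => hN
  have hJz' : b⁻¹ * (z⁻¹ * b * z) ∈ J := by
    have h := J.inv_mem hJz
    have e : (z⁻¹ * (b⁻¹ * z * b))⁻¹ = b⁻¹ * (z⁻¹ * b * z) := by group
    rwa [e] at h
  obtain ⟨j, hjJ, hzj⟩ := tw_Y1 hp hs J (tw_Y4_card hp hpM J hJM) (tw_Y4_card hs hsS J hJS)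
    hzp hbs (hJn z hz0) (hJn b hb0) hJz'
  have hb0s : (j * b * j⁻¹) ^ s = 1 := tw_Y4_conj_pow hbs
  have hgood : GoodS S (s ^ c) (j * b * j⁻¹) := by
    have h := hb.conj j⁻¹
    rwa [inv_inv] at h
  -- step 2
  obtain ⟨hzT1, hbT1⟩ := tw_coprime_comm hcop hzp hb0s hzj
  obtain ⟨hf1, hs1⟩ := H.h2 (z * (j * b * j⁻¹)) g
  obtain ⟨T, hT⟩ : ∃ T, T = closure {z * (j * b * j⁻¹), g} := ⟨_, rfl⟩
  rw [← hT] at hf1 hs1
  have hzb1 : z * (j * b * j⁻¹) ∈ T := by rw [hT]; exact subset_closure (by simp)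
  have hgT : g ∈ T := by rw [hT]; exact subset_closure (by simp)
  have hzT : z ∈ T := (zpowers_le.2 hzb1) hzT1
  have hbT : j * b * j⁻¹ ∈ T := (zpowers_le.2 hzb1) hbT1
  have hET : E ≤ T := by
    refine hEcl.trans ((closure_le T).2 ?_)
    rintro y (rfl | rfl)
    · exact hzT
    · exact T.mul_mem (T.mul_mem hgT hzT) (T.inv_mem hgT)
  obtain ⟨N, hNT, hNn, hNM, hNS, hNc⟩ := tw_Y2 H hp hs hps hM hS hpM hsS hnoM hnoS hz hzp hgood
    hb0s T hf1 hs1 hzT hbT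
  have hN' : (N.subgroupOf T).Normal := by
    refine ⟨fun x hx t => ?_⟩
    rw [mem_subgroupOf] at hx ⊢
    exact hNn t t.2 x hx
  have hNM' : ∀ x ∈ N.subgroupOf T, x ^ M = 1 := by
    intro x hx
    apply Subtype.ext
    rw [Subgroup.coe_pow, Subgroup.coe_one]
    exact hNM x (mem_subgroupOf.1 hx)
  have hNS' : ∀ x ∈ N.subgroupOf T, x ^ S = 1 := by
    intro x hx
    apply Subtype.ext
    rw [Subgroup.coe_pow, Subgroup.coe_one]
    exact hNS x (mem_subgroupOf.1 hx)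
  obtain ⟨c, hcN, hzc, hcE⟩ := tw_Y3 (F := T) hp hs hps (N.subgroupOf T)
    (tw_Y4_card hp hpM _ hNM') (tw_Y4_card hs hsS _ hNS') (E.subgroupOf T)
    (hE.comap_subtype) (z := ⟨z, hzT⟩) (b := ⟨j * b * j⁻¹, hbT⟩)
    (by apply Subtype.ext; rw [Subgroup.coe_pow, Subgroup.coe_one]; exact hzp)
    (by apply Subtype.ext; rw [Subgroup.coe_pow, Subgroup.coe_one]; exact hb0s)
    (by apply Subtype.ext; exact hzj)
    (by
      intro x hx
      rw [mem_subgroupOf] at hx ⊢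
      exact hzE x hx)
    (by
      intro x hx
      rw [mem_subgroupOf] at hx ⊢
      exact hNc x (tw_Y4_nc hgT (hEcl hx)))
  have hzc' : z * (c : G) = c * z := congrArg (Subtype.val) hzc
  have hgb : g * (c * (j * b * j⁻¹) * (c : G)⁻¹) = c * (j * b * j⁻¹) * (c : G)⁻¹ * g := by
    have h := hcE ⟨g, hgT⟩ (mem_subgroupOf.2 hgE)
    exact congrArg (Subtype.val) h
  -- step 3
  obtain ⟨d, hd⟩ : ∃ d : G, d = c := ⟨_, rfl⟩
  rw [← hd] at hzc' hgb
  have hzb : z * (d * (j * b * j⁻¹) * d⁻¹) = d * (j * b * j⁻¹) * d⁻¹ * z := by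
    have hz1 : Commute z d := hzc'
    have hz2 : Commute z (j * b * j⁻¹) := hzj
    exact (hz1.mul_right hz2).mul_right hz1.inv_right
  have hb1s : (d * (j * b * j⁻¹) * d⁻¹) ^ s = 1 := tw_Y4_conj_pow hb0s
  obtain ⟨hzT2, hbT2⟩ := tw_coprime_comm hcop hzp hb1s hzb
  obtain ⟨hf2, hs2⟩ := H.h2 (z * (d * (j * b * j⁻¹) * d⁻¹)) (g * d * j)
  obtain ⟨T', hT'⟩ : ∃ T', T' = closure {z * (d * (j * b * j⁻¹) * d⁻¹), g * d * j} := ⟨_, rfl⟩
  rw [← hT'] at hf2 hs2
  have hzb2 : z * (d * (j * b * j⁻¹) * d⁻¹) ∈ T' := by rw [hT']; exact subset_closure (by simp)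
  have hwT : g * d * j ∈ T' := by rw [hT']; exact subset_closure (by simp)
  have hzT' : z ∈ T' := (zpowers_le.2 hzb2) hzT2
  have hbT' : d * (j * b * j⁻¹) * d⁻¹ ∈ T' := (zpowers_le.2 hzb2) hbT2
  have hbmem : b ∈ T' := by
    have h1 : (g * d * j)⁻¹ * (d * (j * b * j⁻¹) * d⁻¹) * (g * d * j) ∈ T' :=
      T'.mul_mem (T'.mul_mem (T'.inv_mem hwT) hbT') hwT
    have h2 : (g * d * j)⁻¹ * (d * (j * b * j⁻¹) * d⁻¹) * (g * d * j) = b := by
      have h3 : g⁻¹ * (d * (j * b * j⁻¹) * d⁻¹) * g = d * (j * b * j⁻¹) * d⁻¹ := by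
        rw [mul_assoc, ← hgb]; group
      calc (g * d * j)⁻¹ * (d * (j * b * j⁻¹) * d⁻¹) * (g * d * j)
          = j⁻¹ * d⁻¹ * (g⁻¹ * (d * (j * b * j⁻¹) * d⁻¹) * g) * d * j := by group
        _ = b := by rw [h3]; group
    rwa [h2] at h1
  have hT0 : closure {z, b} ≤ T' := by
    refine (closure_le T').2 ?_
    rintro y (rfl | rfl)
    · exact hzT'
    · exact hbmem
  have hjT : j ∈ T' := hT0 (hJT hjJ)
  have hgd : g * d ∈ T' := by
    have h := T'.mul_mem hwT (T'.inv_mem hjT)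
    have e : g * d * j * j⁻¹ = g * d := by group
    rwa [e] at h
  have hgz : g * z * g⁻¹ ∈ T' := by
    have h := T'.mul_mem (T'.mul_mem hgd hzT') (T'.inv_mem hgd)
    have e : g * d * z * (g * d)⁻¹ = g * z * g⁻¹ := by
      have e1 : d * z = z * d := hzc'.symm
      calc g * d * z * (g * d)⁻¹ = g * (d * z) * (g * d)⁻¹ := by group
        _ = g * z * g⁻¹ := by rw [e1]; group
    rwa [e] at h
  have hgT' : g ∈ T' := by
    have h : closure {z, g * z * g⁻¹} ≤ T' := by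
      refine (closure_le T').2 ?_
      rintro y (rfl | rfl)
      · exact hzT'
      · exact hgz
    exact h (hEcl hgE)
  exact ⟨T', hf2, hs2, hzT', hbmem, hgT'⟩

/-- **Lemma K.** Apply `tw_Y2` in the group `T` of `tw_Y4`. -/
theorem tw_Y4b {G : Type} [Group G] {n p s a c M S : ℕ} (H : TwG n G) (hp : p.Prime)
    (hs : s.Prime) (hps : p ≠ s) (hM : n = M * p ^ a) (hS : n = S * s ^ c) (hpM : ¬ p ∣ M)
    (hsS : ¬ s ∣ S) (hnoM : NoN M G) (hnoS : NoN S G) {z b g : G} (hz : GoodS M (p ^ a) z)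
    (hzp : z ^ p = 1) (hb : GoodS S (s ^ c) b) (hbs : b ^ s = 1) (E : Subgroup G)
    (hE : IsPGroup s E) (hzE : ∀ x ∈ E, z * x * z⁻¹ ∈ E) (hgE : g ∈ E)
    (hEcl : E ≤ closure {z, g * z * g⁻¹}) : (g⁻¹ * (b⁻¹ * g * b)) ^ S = 1 := by
  obtain ⟨T, h1, h2, h3, h4, h5⟩ := tw_Y4 H hp hs hps hM hS hpM hsS hnoM hnoS hz hzp hb hbs E hE
    hzE hgE hEcl
  obtain ⟨N, -, -, -, h6, h7⟩ := tw_Y2 H hp hs hps hM hS hpM hsS hnoM hnoS hz hzp hb hbs T h1 h2
    h3 h4
  exact h6 _ (h7 g (tw_Y4_nc h5 (hEcl hgE)))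

end Pool.Agent.Lib.MP_544bd1_al
end

section

/-!
Two generators, part 3 (Theorem D): the Hall-Higman argument relative to `B`, if `O_{p'}(F) = 1`.
-/

namespace Pool.Agent.Lib.MP_544bd1_al

open Subgroup Finset

/-- the norm formula, relative version of `tw_norm_zero` (TwH0.lean; same proof): there is `y ∈ P` with
`(x * u) ^ k = y * u ^ k` and `φ y = ∑_{i<k} (ρ u) ^ i (φ x)`. If `u ^ k = 1` and `(x * u) ^ k ∈ B`, where
`φ` vanishes on `B`, the sum is zero. -/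
theorem tw_norm_zero' {F V S : Type} [Group F] [Ring S] [AddCommGroup V] [Module S V]
    (P : Subgroup F) [hPn : P.Normal] (ρ : F →* Module.End S V) (φ : P → V)
    (hφ : ∀ x y, φ (x * y) = φ x + φ y)
    (hφρ : ∀ (g : F) (x : P), φ ⟨g * x * g⁻¹, hPn.conj_mem _ x.2 g⟩ = ρ g (φ x)) (B : Subgroup F)
    (hB : ∀ x : P, (x : F) ∈ B → φ x = 0) {u : F} {k : ℕ} (hu : u ^ k = 1) (x : P)
    (hx : ((x : F) * u) ^ k ∈ B) : (∑ i ∈ range k, (ρ u) ^ i) (φ x) = 0 := by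
  have h0 : φ 1 = 0 := by
    have h1 := hφ 1 1
    rw [mul_one] at h1
    exact left_eq_add.1 h1
  have key : ∀ j : ℕ, ∃ y : P, ((x : F) * u) ^ j = (y : F) * u ^ j ∧
      φ y = (∑ i ∈ range j, (ρ u) ^ i) (φ x) := by
    intro j
    induction j with
    | zero => exact ⟨1, by simp, by simp [h0]⟩
    | succ j ih =>
      obtain ⟨y, hy1, hy2⟩ := ih
      refine ⟨x * ⟨u * y * u⁻¹, hPn.conj_mem _ y.2 u⟩, ?_, ?_⟩
      · rw [pow_succ', hy1, pow_succ']
        simp only [Subgroup.coe_mul]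
        group
      · rw [hφ, hφρ, hy2, Finset.sum_range_succ', pow_zero, LinearMap.add_apply,
          LinearMap.sum_apply, LinearMap.sum_apply, map_sum, add_comm]
        congr 1
        refine Finset.sum_congr rfl fun i _ => ?_
        rw [pow_succ']
        rfl
  obtain ⟨y, hy1, hy2⟩ := key k
  rw [hu, mul_one] at hy1
  rw [← hy2, hB y (hy1 ▸ hx)]

/-- Proof. This is the proof of `tw_HHbot` (TwH.lean) with `u := g`, `a := 1` in the Hall-Higman part, and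
with `tw_module_quot` in place of `tw_module`.
`P = krad (p ^ a) F`; suppose `g ∉ P`. `π : F → H = F ⧸ P`, `D = krad M H`, `krad (p ^ a) H = ⊥`; `π g`
does not centralize `D` (`fr_fitting`, else `π g ∈ D`, `π g = 1`). `tw_pick` (with `a := 1`, `u := π g`,
`z := π g`; `(π g) ^ (p ^ 1) = 1`): a prime `r ∣ M`, an `r`-subgroup `R` of `H` normalized and not
centralized by `π g`: `x ∈ R`, `π g * x ≠ x * π g`. `tw_module_quot` gives `V`, `ρ`, `φ`; `ρ` factors
through `ρ' : H →* Module.End (ZMod p) V`. `α` = conjugation by `π g` on `R`.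
`LDat (p ^ 1) α (ρ'|R) (ρ g)`: `hN` by `tw_norm_zero'` and `hpow`. By `tw_LZ` (`a := 1`):
`ρ' (π g * x * (π g)⁻¹) = ρ' x`, so `y = x⁻¹ * (π g * x * (π g)⁻¹) ∈ R` has `ρ' y = 1`.
Lift: let `x₀ ∈ F` with `π x₀ = x`, `y₀ = x₀⁻¹ * (g * x₀ * g⁻¹)`, so `π y₀ = y`, and `y₀` commutes with all
elements of `B` (`g` and `g⁻¹` do, and `B` is normal: `x₀⁻¹ * g * x₀` does too). `y` has order dividing
`r ^ k`; let `N ≡ 1 mod r ^ k`, `N ≡ 0 mod p ^ a`; `h = y₀ ^ N` satisfies `π h = y`, `h ^ (r ^ k) = 1`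
(as in TwH.lean), and it commutes with the elements of `B`. `ρ h = ρ' y = 1`. So (last property of
`tw_module_quot`) `h` centralizes `P`, so `h ∈ P` (`fr_fitting` with `k = p ^ a`, `l = M`, `hbot`), so
`y = 1` and `π g` commutes with `x`: contradiction. -/
theorem tw_Y7 {F : Type} [Group F] [Finite F] {M p a : ℕ} (hp : p.Prime) (hpM : ¬ p ∣ M)
    (hM : 0 < M) (hsol : Group.IsSolvable F) (hexp : ∀ x : F, x ^ (M * p ^ a) = 1)
    (hbot : krad M F = ⊥)
    (hnum : ∀ r : ℕ, r.Prime → r ∣ M → ∀ t : ℕ, 0 < t → r ^ t + 1 ≠ p) (B : Subgroup F)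
    [hBn : B.Normal] (hBP : B ≤ krad (p ^ a) F) {g : F} (hg : g ^ p = 1)
    (hgB : ∀ x ∈ B, g * x = x * g) (hpow : ∀ x ∈ krad (p ^ a) F, (x * g) ^ p ∈ B) :
    g ∈ krad (p ^ a) F := by
  have : Fact p.Prime := ⟨hp⟩
  have hq0 : 0 < p ^ a := pow_pos hp.pos a
  have hcop1 : Nat.Coprime M p := ((Nat.Prime.coprime_iff_not_dvd hp).2 hpM).symm
  have hcop : Nat.Coprime M (p ^ a) := Nat.Coprime.pow_right a hcop1
  have hexp' : ∀ x : F, x ^ (p ^ a * M) = 1 := tw_exp_comm hexp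
  have hPpow := tw_krad_pow hcop.symm hexp'
  have hPg : IsPGroup p (krad (p ^ a) F) := by
    intro x
    exact ⟨a, Subtype.ext (by simpa using hPpow x x.2)⟩
  by_contra hz
  have hexpH : ∀ x : F ⧸ krad (p ^ a) F, x ^ (M * p ^ a) = 1 := tw_exp_quot hexp _
  have hsolH : Group.IsSolvable (F ⧸ krad (p ^ a) F) :=
    Group.isSolvable_of_surjective (QuotientGroup.mk'_surjective (krad (p ^ a) F))
  have hbotH : krad (p ^ a) (F ⧸ krad (p ^ a) F) = ⊥ := tw_krad_quot hcop.symm hexp'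
  set π : F →* F ⧸ krad (p ^ a) F := QuotientGroup.mk' (krad (p ^ a) F) with hπ
  have hπ1 : ∀ g : F, π g = 1 ↔ g ∈ krad (p ^ a) F := by
    intro g
    rw [hπ, QuotientGroup.mk'_apply, QuotientGroup.eq_one_iff]
  have hDpow := tw_krad_pow hcop hexpH
  have hne : ∃ x ∈ krad M (F ⧸ krad (p ^ a) F), π g * x ≠ x * π g := by
    by_contra hcon
    push Not at hcon
    have h1 := fr_fitting hcop hM hq0 hsolH hexpH hbotH hcon
    have h2 : π g = 1 := by
      refine tw_one hcop1 (hDpow _ h1) ?_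
      rw [← map_pow, hg, map_one]
    exact hz ((hπ1 _).1 h2)
  have hπu : (π g) ^ (p ^ 1) = 1 := by rw [pow_one, ← map_pow, hg, map_one]
  obtain ⟨r, hr, hrM, R, hRD, hRr, hRu, x, hxR, hxz⟩ := tw_pick hp hpM
    (krad M (F ⧸ krad (p ^ a) F)) hDpow hπu
    (fun y hy => (krad_normal M _).conj_mem y hy (π g)) hne
  have hrp : r ≠ p := by
    rintro rfl
    exact hpM hrM
  obtain ⟨V, _, _, _, ρ, φ, hφs, hφa, hφρ, hρP, hφB, hρc⟩ :=
    tw_module_quot hp (krad (p ^ a) F) hPg B hBP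
  set ρ' : F ⧸ krad (p ^ a) F →* Module.End (ZMod p) V :=
    QuotientGroup.lift (krad (p ^ a) F) ρ hρP with hρ'
  have hρπ : ∀ g : F, ρ' (π g) = ρ g := fun g => rfl
  let α : R →* R := MonoidHom.mk' (fun y => ⟨π g * y * (π g)⁻¹, hRu y y.2⟩) (by
    intro y w
    apply Subtype.ext
    simp only [Subgroup.coe_mul]
    group)
  have hα : ∀ y : R, ((α y : R) : F ⧸ krad (p ^ a) F) = π g * y * (π g)⁻¹ := fun y => rfl
  have hD : LDat (p ^ 1) α (ρ'.comp R.subtype) (ρ g) := by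
    refine ⟨?_, ?_, ?_⟩
    · intro y
      simp only [MonoidHom.comp_apply, Subgroup.coe_subtype]
      rw [hα, ← hρπ g, ← map_mul, ← map_mul]
      congr 1
      group
    · rw [pow_one, ← map_pow, hg, map_one]
    · rw [pow_one]
      apply LinearMap.ext
      intro v
      obtain ⟨y, rfl⟩ := hφs v
      rw [LinearMap.zero_apply]
      exact tw_norm_zero' (krad (p ^ a) F) ρ φ hφa hφρ B hφB hg y (hpow y y.2)
  have hnum' : ∀ j s : ℕ, 1 ≤ j → j ≤ 1 → 0 < s → r ^ s + 1 ≠ p ^ j := by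
    intro j s h1 h2 h3
    have h4 : j = 1 := le_antisymm h2 h1
    rw [h4, pow_one]
    exact hnum r hr hrM s h3
  have hL := tw_LZ hr hrp one_pos hnum' hRr hD ⟨x, hxR⟩
  simp only [MonoidHom.comp_apply, Subgroup.coe_subtype] at hL
  rw [Nat.sub_self, pow_zero, Function.iterate_one, hα] at hL
  -- the element `y`
  have hwR : π g * x * (π g)⁻¹ ∈ R := hRu x hxR
  have hρy : ρ' (x⁻¹ * (π g * x * (π g)⁻¹)) = 1 := by
    rw [map_mul, hL, ← map_mul, inv_mul_cancel, map_one]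
  have hyR : x⁻¹ * (π g * x * (π g)⁻¹) ∈ R := R.mul_mem (R.inv_mem hxR) hwR
  obtain ⟨k, hk⟩ := hRr ⟨x⁻¹ * (π g * x * (π g)⁻¹), hyR⟩
  have hk' : (x⁻¹ * (π g * x * (π g)⁻¹)) ^ r ^ k = 1 := by
    have := congrArg Subtype.val hk
    simpa using this
  obtain ⟨x₀, hx₀⟩ := QuotientGroup.mk'_surjective (krad (p ^ a) F) x
  have hx₀' : π x₀ = x := hx₀
  -- the lift commutes with `B`
  have hcomm : ∀ b ∈ B, (x₀⁻¹ * (g * x₀ * g⁻¹)) * b = b * (x₀⁻¹ * (g * x₀ * g⁻¹)) := by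
    intro b hb
    have h1 : Commute g⁻¹ b := (Commute.inv_left (hgB b hb) : Commute g⁻¹ b)
    have h2 : Commute g (x₀ * b * x₀⁻¹) := hgB _ (hBn.conj_mem b hb x₀)
    have h3 : Commute (x₀⁻¹ * g * x₀) b := by
      have h4 : x₀⁻¹ * g * x₀ * b = x₀⁻¹ * (g * (x₀ * b * x₀⁻¹)) * x₀ := by group
      have h5 : b * (x₀⁻¹ * g * x₀) = x₀⁻¹ * ((x₀ * b * x₀⁻¹) * g) * x₀ := by group
      show x₀⁻¹ * g * x₀ * b = b * (x₀⁻¹ * g * x₀)
      rw [h4, h5, h2.eq]
    have h6 : x₀⁻¹ * (g * x₀ * g⁻¹) = (x₀⁻¹ * g * x₀) * g⁻¹ := by group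
    rw [h6]
    exact (h3.mul_left h1).eq
  set g0 : F := x₀⁻¹ * (g * x₀ * g⁻¹) with hg0d
  have hg0 : π g0 = x⁻¹ * (π g * x * (π g)⁻¹) := by
    rw [hg0d]
    simp only [map_mul, map_inv, hx₀']
  have hcop2 : Nat.Coprime (r ^ k) (p ^ a) :=
    Nat.Coprime.pow k a ((Nat.coprime_primes hr hp).2 hrp)
  obtain ⟨N, hN1, hN2⟩ := Nat.chineseRemainder hcop2 1 0
  have hN3 : (x⁻¹ * (π g * x * (π g)⁻¹)) ^ N = x⁻¹ * (π g * x * (π g)⁻¹) := by
    have h1 : (x⁻¹ * (π g * x * (π g)⁻¹)) ^ N = (x⁻¹ * (π g * x * (π g)⁻¹)) ^ 1 := by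
      rw [pow_eq_pow_iff_modEq]
      exact hN1.of_dvd (orderOf_dvd_of_pow_eq_one hk')
    rw [h1, pow_one]
  have hN4 : p ^ a ∣ N := (Nat.modEq_zero_iff_dvd).1 hN2
  have hg1 : π (g0 ^ N) = x⁻¹ * (π g * x * (π g)⁻¹) := by
    rw [map_pow, hg0, hN3]
  have hg2 : (g0 ^ N) ^ r ^ k = 1 := by
    obtain ⟨c, hc⟩ := hN4
    have h1 : g0 ^ r ^ k ∈ krad (p ^ a) F := by
      rw [← hπ1, map_pow, hg0, hk']
    rw [← pow_mul, mul_comm, pow_mul, hc, pow_mul, hPpow _ h1, one_pow]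
  have hg3 : ρ (g0 ^ N) = 1 := by rw [← hρπ, hg1, hρy]
  have hgc : ∀ b ∈ B, g0 ^ N * b = b * g0 ^ N := by
    intro b hb
    exact (Commute.pow_left (hcomm b hb : Commute g0 b) N).eq
  have hg4 := hρc r k (g0 ^ N) hr hrp hg2 hgc hg3
  have hg5 : g0 ^ N ∈ krad (p ^ a) F :=
    fr_fitting hcop.symm hq0 hM hsol hexp' hbot hg4
  have hg6 : x⁻¹ * (π g * x * (π g)⁻¹) = 1 := by rw [← hg1, (hπ1 _).2 hg5]
  have hg7 : π g * x * (π g)⁻¹ = x := by
    rw [inv_mul_eq_one] at hg6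
    exact hg6.symm
  apply hxz
  rw [mul_inv_eq_iff_eq_mul] at hg7
  exact hg7

end Pool.Agent.Lib.MP_544bd1_al
end

section

/-!
Two generators, part 3 (Theorem D): the Hall-Higman argument relative to a set of good elements.
-/

namespace Pool.Agent.Lib.MP_544bd1_al

open Subgroup

/-- Let `𝔅` be a set of elements of `O_{p',p}(F)`, closed under conjugation, containing the `p`-th powers
of all `p`-elements, `g ^ p = 1`, and all commutators of `g` and elements of `𝔅` of order dividing `M`.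
Then `g ∈ O_{p',p}(F)`.

Proof. `K = krad M F`, `π : F → F' = F ⧸ K`; by `tw_op_iff` we have to show `π g ∈ krad (p ^ a) F'`. Let
`B = closure (π '' 𝔅)`, normal in `F'` (`𝔅` is closed under conjugation; `closure` of a conjugation
invariant set; `π` is surjective) and `B ≤ krad (p ^ a) F'` (`hBO`, `tw_op_iff`). Apply `tw_Y7` in `F'`
(`tw_exp_quot`, `tw_krad_quot`, solvable quotient).
`hgB`: for `b ∈ 𝔅`, `d = g⁻¹ * (b⁻¹ * g * b)` is in `O_{p',p}(F)` (`InOP.comm`, as `b` is), `d ^ M = 1`, so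
`InO M ⊤ d` (`InOP.inO`), `d ∈ K` (`tw_mem_krad_iff`), `π d = 1`: `π g` commutes with `π b`, so with the
closure.
`hpow`: let `x ∈ krad (p ^ a) F'`, `y = x * π g`. `y ^ p ∈ krad (p ^ a) F'` (modulo the normal subgroup
`krad (p ^ a) F'` it is `(π g) ^ p = 1`), so `(y ^ p) ^ (p ^ a) = 1` (`tw_krad_pow`), so
`(y ^ (p ^ a)) ^ (p ^ a) = 1` if `0 < a` (if `a = 0` then `krad 1 F' = ⊥` and `y ^ p = 1`) and
`y ^ (p ^ a) = 1` (`tw_PP`). Let `N ≡ 1 mod p ^ a`, `N ≡ 0 mod M`, `w₀ ∈ F` with `π w₀ = y`, `w = w₀ ^ N`: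
`π w = y ^ N = y`, `w ^ (p ^ a) = 1` (`M * p ^ a ∣ N * p ^ a`). So `w ^ p ∈ 𝔅` and
`y ^ p = π (w ^ p) ∈ B`. -/
theorem tw_Y8 {F : Type} [Group F] [Finite F] {M p a : ℕ} (hp : p.Prime) (hpM : ¬ p ∣ M)
    (hM : 0 < M) (hsol : Group.IsSolvable F) (hexp : ∀ x : F, x ^ (M * p ^ a) = 1)
    (hnum : ∀ r : ℕ, r.Prime → r ∣ M → ∀ t : ℕ, 0 < t → r ^ t + 1 ≠ p) (𝔅 : Set F)
    (hconj : ∀ b ∈ 𝔅, ∀ t : F, t * b * t⁻¹ ∈ 𝔅)
    (hBO : ∀ b ∈ 𝔅, InOP M (p ^ a) (⊤ : Subgroup F) b) {g : F} (hg : g ^ p = 1)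
    (hgB : ∀ b ∈ 𝔅, (g⁻¹ * (b⁻¹ * g * b)) ^ M = 1)
    (hpow : ∀ w : F, w ^ (p ^ a) = 1 → w ^ p ∈ 𝔅) : InOP M (p ^ a) (⊤ : Subgroup F) g := by
  have hcop : Nat.Coprime M (p ^ a) :=
    Nat.Coprime.pow_right a ((Nat.Prime.coprime_iff_not_dvd hp).2 hpM).symm
  have hexp' := tw_exp_quot hexp (krad M F)
  rw [tw_op_iff hcop hexp]
  have hsol' : Group.IsSolvable (F ⧸ krad M F) :=
    Group.isSolvable_of_surjective (QuotientGroup.mk'_surjective (krad M F))
  let B : Subgroup (F ⧸ krad M F) := closure (QuotientGroup.mk' (krad M F) '' 𝔅)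
  have hBn : B.Normal := by
    constructor
    intro x hx t
    obtain ⟨t, rfl⟩ := QuotientGroup.mk'_surjective _ t
    induction hx using Subgroup.closure_induction with
    | mem x hx =>
      obtain ⟨b, hb, rfl⟩ := hx
      apply Subgroup.subset_closure
      exact ⟨t * b * t⁻¹, hconj b hb t, by simp only [map_mul, map_inv]⟩
    | one =>
      rw [mul_one, mul_inv_cancel]
      exact B.one_mem
    | mul x y _ _ hx hy =>
      have h1 := B.mul_mem hx hy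
      rwa [show ∀ u v w : F ⧸ krad M F, (u * v * u⁻¹) * (u * w * u⁻¹) = u * (v * w) * u⁻¹ from
        fun u v w => by group] at h1
    | inv x _ hx =>
      have h1 := B.inv_mem hx
      rwa [show ∀ u v : F ⧸ krad M F, (u * v * u⁻¹)⁻¹ = u * v⁻¹ * u⁻¹ from
        fun u v => by group] at h1
  have hBP : B ≤ krad (p ^ a) (F ⧸ krad M F) := by
    rw [closure_le]
    rintro _ ⟨b, hb, rfl⟩
    exact (tw_op_iff hcop hexp).1 (hBO b hb)
  have hg' : (QuotientGroup.mk' (krad M F) g) ^ p = 1 := by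
    rw [← map_pow, hg, map_one]
  have hgB' : ∀ x ∈ B, QuotientGroup.mk' (krad M F) g * x = x * QuotientGroup.mk' (krad M F) g := by
    intro x hx
    induction hx using Subgroup.closure_induction with
    | mem x hx =>
      obtain ⟨b, hb, rfl⟩ := hx
      have h1 := ((hBO b hb).comm (t := g) trivial).inO hcop (hgB b hb)
      have h2 := (tw_mem_krad_iff hcop hexp).2 h1
      have h3 : QuotientGroup.mk' (krad M F) (g⁻¹ * (b⁻¹ * g * b)) = 1 := by
        rw [QuotientGroup.mk'_apply, QuotientGroup.eq_one_iff]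
        exact h2
      rw [map_mul, map_mul, map_mul, map_inv, map_inv, inv_mul_eq_one, mul_assoc,
        eq_inv_mul_iff_mul_eq] at h3
      exact h3.symm
    | one => rw [mul_one, one_mul]
    | mul x y _ _ hx hy => rw [← mul_assoc, hx, mul_assoc, hy, mul_assoc]
    | inv x _ hx =>
      have h4 : Commute (QuotientGroup.mk' (krad M F) g) x := hx
      exact h4.inv_right
  apply tw_Y7 hp hpM hM hsol' hexp' (tw_krad_quot hcop hexp) hnum B hBP hg' hgB'
  intro x hx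
  have hx1 : x ^ (p ^ a) = 1 := tw_krad_pow hcop.symm (tw_exp_comm hexp') x hx
  rcases Nat.eq_zero_or_pos a with ha | ha
  · rw [ha, pow_zero, pow_one] at hx1
    rw [hx1, one_mul, hg']
    exact B.one_mem
  · obtain ⟨w₀, hw₀⟩ := QuotientGroup.mk'_surjective (krad M F)
      (x * QuotientGroup.mk' (krad M F) g)
    have hy1 : (x * QuotientGroup.mk' (krad M F) g) ^ p ∈ krad (p ^ a) (F ⧸ krad M F) := by
      rw [← QuotientGroup.eq_one_iff, ← QuotientGroup.mk'_apply, map_pow, map_mul]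
      rw [show QuotientGroup.mk' (krad (p ^ a) (F ⧸ krad M F)) x = 1 from
        (QuotientGroup.eq_one_iff x).2 hx, one_mul, ← map_pow, hg', map_one]
    have hy2 := tw_krad_pow hcop.symm (tw_exp_comm hexp') _ hy1
    have hy3 : (x * QuotientGroup.mk' (krad M F) g) ^ (p ^ a) = 1 := by
      apply tw_PP hcop hexp'
      obtain ⟨c, rfl⟩ : ∃ c, a = c + 1 := ⟨a - 1, by omega⟩
      rw [← pow_mul] at hy2 ⊢
      rw [show p ^ (c + 1) * p ^ (c + 1) = (p * p ^ (c + 1)) * p ^ c by ring, pow_mul, hy2, one_pow]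
    obtain ⟨N, hN1, hN2⟩ := Nat.chineseRemainder hcop 0 1
    have hw1 : (w₀ ^ N) ^ (p ^ a) = 1 := by
      obtain ⟨e, he⟩ := (Nat.modEq_zero_iff_dvd.1 hN1)
      rw [he, ← pow_mul, show M * e * p ^ a = (M * p ^ a) * e by ring, pow_mul, hexp, one_pow]
    have hw2 : QuotientGroup.mk' (krad M F) (w₀ ^ N) = x * QuotientGroup.mk' (krad M F) g := by
      rw [map_pow, hw₀, pow_eq_pow_of_modEq hN2 hy3, pow_one]
    rw [← hw2, ← map_pow]
    exact Subgroup.subset_closure ⟨_, hpow _ hw1, rfl⟩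

end Pool.Agent.Lib.MP_544bd1_al
end

section

/-!
Two generators, part 2, second refinement: three primes, an abelian normal subgroup.
-/

namespace Pool.Agent.Lib.MP_544bd1_al

open Subgroup

theorem tw_exists_abelian3_normal {G : Type} [Group G] {M P p : ℕ} :
    (closure {x : G | GoodS M P x ∧ x ^ p = 1}).Normal := by
  refine ⟨fun x hx g => ?_⟩
  induction hx using closure_induction with
  | mem x hx =>
    apply Subgroup.subset_closure
    refine ⟨?_, ?_⟩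
    · have h1 := hx.1.conj g⁻¹
      rwa [inv_inv] at h1
    · rw [conj_pow, hx.2, mul_one, mul_inv_cancel]
  | one =>
    rw [mul_one, mul_inv_cancel]
    exact Subgroup.one_mem _
  | mul x y _ _ hx hy =>
    have h1 : g * (x * y) * g⁻¹ = (g * x * g⁻¹) * (g * y * g⁻¹) := by group
    rw [h1]
    exact Subgroup.mul_mem _ hx hy
  | inv x _ hx =>
    have h1 : g * x⁻¹ * g⁻¹ = (g * x * g⁻¹)⁻¹ := by group
    rw [h1]
    exact Subgroup.inv_mem _ hx

/-- three prime divisors: a nontrivial abelian normal subgroup.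

Proof (see also the proof of `tw_exists_abelian` in TwP2.lean). Write
`n = M * p ^ a = N * q ^ b = S * s ^ c` (`tw_exists_abelian_decomp`), `NoN M G` etc.
(`tw_exists_abelian_noN`). Let `A_s = {x | GoodS S (s ^ c) x ∧ x ^ s = 1}`, `K_s = closure A_s` (normal,
as `A_s` is invariant under conjugation, `GoodS.conj`), similarly `A_q`, `K_q`. By
`tw_exists_abelian_meet` every normal subgroup `≠ ⊥` contains elements `≠ 1` of `A_s` and of `A_q`; so
`K_q ≠ ⊥`, and `K_s ⊓ K_q ≠ ⊥` (it contains `A_s ∩ K_q`). So there is a `p`-good element `z ≠ 1` of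
order `p` in `K_s ⊓ K_q`. By `tw_walk_comm` for `K = K_s` (hypothesis `hK`: `tw_walk_closure`) `z`
commutes with `A_q`, so with `K_q`. `K_q ⊓ centralizer K_q` is normal, abelian, contains `z ≠ 1`. -/
theorem tw_exists_abelian3 {G : Type} [Group G] [Nontrivial G] {n p q s : ℕ} (H : TwG n G)
    (hodd : Odd n) (hp : p.Prime) (hq : q.Prime) (hs : s.Prime) (hpq : p ≠ q) (hps : p ≠ s)
    (hqs : q ≠ s) (hpn : p ∣ n) (hqn : q ∣ n) (hsn : s ∣ n)
    (hn3 : ∀ r : ℕ, r.Prime → r ∣ n → r = p ∨ r = q ∨ r = s)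
    (hno : ∀ K : Subgroup G, K.Normal → K ≠ ⊥ → ∀ r : ℕ, r.Prime → r ∣ n →
      ∃ x ∈ K, x ^ (n / r) ≠ 1) :
    ∃ K : Subgroup G, K.Normal ∧ K ≠ ⊥ ∧ ∀ x ∈ K, ∀ w ∈ K, x * w = w * x := by
  obtain ⟨M, a, ha, hM, hpM, hdivp⟩ := tw_exists_abelian_decomp H.pos hp hpn
  obtain ⟨N, b, hb, hN, hqN, hdivq⟩ := tw_exists_abelian_decomp H.pos hq hqn
  obtain ⟨S, c, hc, hS, hsS, hdivs⟩ := tw_exists_abelian_decomp H.pos hs hsn
  have hnoM : NoN M G := tw_exists_abelian_noN hp hpn hdivp hno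
  have hnoN : NoN N G := tw_exists_abelian_noN hq hqn hdivq hno
  have hfac : n.factorization s = c := by
    have hS0 : S ≠ 0 := by
      rintro rfl
      exact hsS (dvd_zero s)
    have hsc : s ^ c ≠ 0 := pow_ne_zero _ hs.ne_zero
    rw [hS, Nat.factorization_mul hS0 hsc, Finsupp.add_apply,
      Nat.factorization_eq_zero_of_not_dvd hsS, hs.factorization_pow, Finsupp.single_eq_same,
      zero_add]
  obtain ⟨Ks, hKs⟩ : ∃ K : Subgroup G, K = closure {x : G | GoodS S (s ^ c) x ∧ x ^ s = 1} :=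
    ⟨_, rfl⟩
  obtain ⟨Kq, hKq⟩ : ∃ K : Subgroup G, K = closure {x : G | GoodS N (q ^ b) x ∧ x ^ q = 1} :=
    ⟨_, rfl⟩
  have hKsn : Ks.Normal := by
    rw [hKs]
    exact tw_exists_abelian3_normal
  have hKqn : Kq.Normal := by
    rw [hKq]
    exact tw_exists_abelian3_normal
  have hKqb : Kq ≠ ⊥ := by
    obtain ⟨z, -, hz⟩ := tw_exists_abelian_meet H hodd hq hqn hb hN hqN hdivq hno ⊤ inferInstance
      top_ne_bot
    intro hbot
    have h1 : z ∈ Kq := by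
      rw [hKq]
      exact Subgroup.subset_closure ⟨hz.1, hz.2.1⟩
    rw [hbot] at h1
    exact hz.2.2 (Subgroup.mem_bot.1 h1)
  have hKsq : Ks ⊓ Kq ≠ ⊥ := by
    obtain ⟨x, hxq, hx⟩ := tw_exists_abelian_meet H hodd hs hsn hc hS hsS hdivs hno Kq hKqn hKqb
    intro hbot
    have h1 : x ∈ Ks ⊓ Kq := by
      refine ⟨?_, hxq⟩
      rw [hKs]
      exact Subgroup.subset_closure ⟨hx.1, hx.2.1⟩
    rw [hbot] at h1
    exact hx.2.2 (Subgroup.mem_bot.1 h1)
  obtain ⟨z, hzK, hzg, hzp, hz1⟩ := tw_exists_abelian_meet H hodd hp hpn ha hM hpM hdivp hno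
    (Ks ⊓ Kq) (Subgroup.normal_inf_normal _ _) hKsq
  have hzc : ∀ y ∈ Kq, y * z = z * y := by
    have hle : Kq ≤ centralizer {z} := by
      rw [hKq, closure_le]
      rintro y ⟨hyg, hyq⟩
      have h1 := tw_walk_comm H hp hq hs hpq hps hqs hM hN hfac hpM hqN hn3 hnoM hnoN Ks hKsn
        hzK.1 hzg hzp (fun g hg y' hy' hyq' hzy' => tw_walk_closure H hp hq hs hpq hps hqs hM hN hS
          hpM hqN hsS hn3 hnoM hnoN hzg hzp (by rwa [hKs] at hg) y' hy' hyq' hzy') hyg hyq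
      rw [SetLike.mem_coe, mem_centralizer_singleton_iff]
      exact h1.symm
    intro y hy
    have h2 := hle hy
    rw [mem_centralizer_singleton_iff] at h2
    exact h2
  refine ⟨Kq ⊓ centralizer (Kq : Set G), ?_, ?_, ?_⟩
  · have h1 : (centralizer (Kq : Set G)).Normal := inferInstance
    exact Subgroup.normal_inf_normal _ _
  · intro hbot
    have h1 : z ∈ Kq ⊓ centralizer (Kq : Set G) := by
      have h2 : z ∈ centralizer (Kq : Set G) := by
        rw [mem_centralizer_iff]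
        intro x hx
        exact hzc x hx
      exact ⟨hzK.2, h2⟩
    rw [hbot] at h1
    exact hz1 (Subgroup.mem_bot.1 h1)
  · intro x hx w hw
    have hx' : x ∈ centralizer (Kq : Set G) := (mem_inf.1 hx).2
    rw [mem_centralizer_iff] at hx'
    exact (hx' w (mem_inf.1 hw).1).symm

end Pool.Agent.Lib.MP_544bd1_al
end

section

/-!
Two generators, part 3: Theorem D.
-/

namespace Pool.Agent.Lib.MP_544bd1_al

open Subgroup

/-- the element `g` is good -/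
theorem tw_Y9 {G : Type} [Group G] {n p s a c M S : ℕ} (H : TwG n G) (hodd : Odd n)
    (hp : p.Prime) (hs : s.Prime) (hps : p ≠ s) (hM : n = M * p ^ a) (hS : n = S * s ^ c)
    (hpM : ¬ p ∣ M) (hsS : ¬ s ∣ S) (hnoM : NoN M G) (hnoS : NoN S G) (hs3 : ¬ s ^ 3 ∣ n)
    {z : G} (hz : GoodS M (p ^ a) z) (hzp : z ^ p = 1) (E : Subgroup G) (hE : IsPGroup s E)
    (hzE : ∀ x ∈ E, z * x * z⁻¹ ∈ E) {g : G} (hgE : g ∈ E) (hgs : g ^ s = 1)
    (hEcl : E ≤ closure {z, g * z * g⁻¹}) (hc : 0 < c) : GoodS S (s ^ c) g := by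
  have hgc : g ^ (s ^ c) = 1 := by
    obtain ⟨d, rfl⟩ := Nat.exists_eq_succ_of_ne_zero hc.ne'
    rw [Nat.succ_eq_add_one, pow_succ', pow_mul, hgs, one_pow]
  refine ⟨hgc, ?_⟩
  intro T hfin hsol hgT
  have hnpos := H.pos
  have hSpos : 0 < S := by
    apply Nat.pos_of_ne_zero
    rintro rfl
    rw [zero_mul] at hS
    omega
  have hexpT : ∀ x : T, x ^ (S * s ^ c) = 1 := by
    rw [← hS]
    exact tw_exp_sub H.hexp T
  have hsn : s ∣ n := by
    rw [hS]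
    exact dvd_mul_of_dvd_right (dvd_pow_self s hc.ne') S
  have hsodd : Odd s := hodd.of_dvd_nat hsn
  have hnum' : ∀ r : ℕ, r.Prime → r ∣ S → ∀ j t : ℕ, 1 ≤ j → j ≤ c → 0 < t →
      r ^ t + 1 ≠ s ^ j := by
    intro r _ hrS j t _ _ _ h
    have hrodd : Odd r := hodd.of_dvd_nat (hrS.trans (by rw [hS]; exact dvd_mul_right S _))
    have h1 : Even (r ^ t + 1) := (hrodd.pow).add_one
    rw [h, ← Nat.not_odd_iff_even] at h1
    exact h1 hsodd.pow
  have hnum : ∀ r : ℕ, r.Prime → r ∣ S → ∀ t : ℕ, 0 < t → r ^ t + 1 ≠ s := by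
    intro r hr hrS t ht h
    exact hnum' r hr hrS 1 t le_rfl hc ht (by rw [pow_one]; exact h)
  have key := tw_Y8 (F := T) hs hsS hSpos hsol hexpT hnum
    {b : T | GoodS S (s ^ c) (b : G) ∧ (b : G) ^ s = 1} ?_ ?_ (g := ⟨g, hgT⟩) ?_ ?_ ?_
  · exact (InOP.top_iff (⟨g, hgT⟩ : T)).1 key
  · rintro b ⟨hb1, hb2⟩ t
    refine ⟨?_, ?_⟩
    · have h1 := hb1.conj ((t : G)⁻¹)
      rw [inv_inv] at h1
      simpa using h1
    · have h1 : ((t * b * t⁻¹ : T) : G) = (t : G) * b * (t : G)⁻¹ := by simp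
      rw [h1, conj_pow, hb2, mul_one, mul_inv_cancel]
  · rintro b ⟨hb1, hb2⟩
    exact (InOP.top_iff b).2 (hb1.inOP T hfin hsol b.2)
  · exact Subtype.ext (by simpa using hgs)
  · rintro b ⟨hb1, hb2⟩
    apply Subtype.ext
    simpa using tw_Y4b H hp hs hps hM hS hpM hsS hnoM hnoS hz hzp hb1 hb2 E hE hzE hgE hEcl
  · intro w hw
    have hwG : (w : G) ^ (s ^ c) = 1 := by
      have := congrArg Subtype.val hw
      simpa using this
    have hc3 : c < 3 := by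
      by_contra h
      exact hs3 ((pow_dvd_pow s (not_lt.1 h)).trans (by rw [hS]; exact dvd_mul_left _ S))
    have hc12 : c = 1 ∨ c = 2 := by omega
    rcases hc12 with rfl | rfl
    · have h1 : ((w ^ s : T) : G) = 1 := by
        rw [pow_one] at hwG
        simpa using hwG
      refine ⟨?_, ?_⟩
      · rw [h1]
        exact ⟨one_pow _, fun T _ _ _ => InO.inOP (InO.one T)⟩
      · rw [h1, one_pow]
    · refine ⟨?_, ?_⟩
      · have h1 := tw_good H hs hc hS hsS hnum' hwG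
        simpa using h1
      · have h1 : ((w ^ s : T) : G) = (w : G) ^ s := by simp
        rw [h1, ← pow_mul, ← pow_two, hwG]

/-- **Theorem D.** `n` odd, `p ≠ s` primes, `s ^ 3 ∤ n`, `G` without nontrivial normal `p'`-subgroups and
without nontrivial normal `s'`-subgroups, `z` good of order `p`. Then `z` centralizes all finite
`s`-subgroups which it normalizes. -/
theorem tw_D {G : Type} [Group G] {n p s a c M S : ℕ} (H : TwG n G) (hodd : Odd n)
    (hp : p.Prime) (hs : s.Prime) (hps : p ≠ s) (hM : n = M * p ^ a) (hS : n = S * s ^ c)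
    (hpM : ¬ p ∣ M) (hsS : ¬ s ∣ S) (hnoM : NoN M G) (hnoS : NoN S G) (hs3 : ¬ s ^ 3 ∣ n)
    {z : G} (hz : GoodS M (p ^ a) z) (hzp : z ^ p = 1) (R : Subgroup G) [Finite R]
    (hR : IsPGroup s R) (hzR : ∀ x ∈ R, z * x * z⁻¹ ∈ R) : ∀ x ∈ R, z * x = x * z := by
  by_contra hcon
  push Not at hcon
  have hs2 : s ≠ 2 := by
    rintro rfl
    obtain ⟨x, hxR, hx⟩ := hcon
    obtain ⟨k, hk⟩ := hR ⟨x, hxR⟩
    have hk' : x ^ 2 ^ k = 1 := by
      have := congrArg Subtype.val hk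
      simpa using this
    have hcop : Nat.Coprime n (2 ^ k) :=
      Nat.Coprime.pow_right k (Nat.coprime_two_right.2 hodd)
    have : x = 1 := tw_one hcop (H.hexp x) hk'
    apply hx
    rw [this, mul_one, one_mul]
  obtain ⟨E, hER, hzE, g, hgE, hgs, hzg, hEcl⟩ := tw_Y5 hp hs hps hs2 hzp R hR hzR hcon
  have hE : IsPGroup s E := hR.to_le hER
  have hg1 : g ≠ 1 := by
    rintro rfl
    exact hzg (by rw [mul_one, one_mul])
  have hc : 0 < c := by
    rw [Nat.pos_iff_ne_zero]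
    rintro rfl
    rw [pow_zero, mul_one] at hS
    apply hg1
    have hcop : Nat.Coprime n s := by
      rw [hS]
      exact ((Nat.Prime.coprime_iff_not_dvd hs).2 hsS).symm
    exact tw_one hcop (H.hexp g) hgs
  have hgood := tw_Y9 H hodd hp hs hps hM hS hpM hsS hnoM hnoS hs3 hz hzp E hE hzE hgE hgs hEcl hc
  have hC := tw_C H hp hs hps hM hS hpM hsS hnoM hz hgood hgs
  obtain ⟨N, -, h2, -, h4⟩ := hC
  have h5 : (g⁻¹ * (z⁻¹ * g * z)) ^ S = 1 := h4 _ h2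
  have h6 : g⁻¹ * (z⁻¹ * g * z) ∈ E :=
    E.mul_mem (E.inv_mem hgE) (tw_comm_good_inv hp.pos hzp hzE g hgE)
  obtain ⟨k, hk⟩ := hE ⟨_, h6⟩
  have hk' : (g⁻¹ * (z⁻¹ * g * z)) ^ s ^ k = 1 := by
    have := congrArg Subtype.val hk
    simpa using this
  have hcop : Nat.Coprime S (s ^ k) :=
    Nat.Coprime.pow_right k ((Nat.Prime.coprime_iff_not_dvd hs).2 hsS).symm
  have h7 : g⁻¹ * (z⁻¹ * g * z) = 1 := tw_one hcop h5 hk'
  apply hzg
  rw [inv_mul_eq_one, mul_assoc, eq_inv_mul_iff_mul_eq] at h7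
  exact h7

/-- Theorem D, in the form of `tw_cent_sqfree` (TwR6.lean) -/
theorem tw_cent_cubefree {G : Type} [Group G] {n p s a c M S : ℕ} (H : TwG n G) (hodd : Odd n)
    (hp : p.Prime) (hs : s.Prime) (hps : p ≠ s) (hM : n = M * p ^ a) (hS : n = S * s ^ c)
    (hpM : ¬ p ∣ M) (hsS : ¬ s ∣ S) (hnoM : NoN M G) (hnoS : NoN S G) {z : G}
    (hz : GoodS M (p ^ a) z) (hzp : z ^ p = 1) (hs3 : ¬ s ^ 3 ∣ n) :
    ∀ R : Subgroup G, Finite R → IsPGroup s R → (∀ x ∈ R, z * x * z⁻¹ ∈ R) →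
      ∀ x ∈ R, z * x = x * z :=
  fun R _ hR hzR => tw_D H hodd hp hs hps hM hS hpM hsS hnoM hnoS hs3 hz hzp R hR hzR

end Pool.Agent.Lib.MP_544bd1_al
end

section

/-!
Two generators, part 2, second refinement: consequences for the exponent.
-/

namespace Pool.Agent.Lib.MP_544bd1_al

open Subgroup

/-- If no nontrivial normal subgroup of `G` has exponent `n / s` for a prime `s ∣ n`, then for any two
primes `p ≠ s` dividing the odd number `n` we have `s ^ 3 ∣ n` and `¬ p ∣ s - 1`.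

Proof. Write `n = M * p ^ a = S * s ^ c` (`tw_exists_abelian_decomp`), `NoN M G`, `NoN S G`
(`tw_exists_abelian_noN`). `tw_exists_abelian_meet` with `K = ⊤` gives `z ≠ 1`, `GoodS M (p ^ a) z`,
`z ^ p = 1`. By `tw_U` `z` normalizes but does not centralize a finite `s`-group `R`. If
`¬ s ^ 3 ∣ n` this contradicts `tw_cent_cubefree` (TwY9.lean); if `p ∣ s - 1` it contradicts `tw_Eprime`
(TwR7.lean; `x ^ M = 1` for `x ∈ R`: `x` is an `s`-element and `x ^ n = 1`). -/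
theorem tw_V {G : Type} [Group G] [Nontrivial G] {n p s : ℕ} (H : TwG n G) (hodd : Odd n)
    (hp : p.Prime) (hs : s.Prime) (hps : p ≠ s) (hpn : p ∣ n) (hsn : s ∣ n)
    (hno : ∀ K : Subgroup G, K.Normal → K ≠ ⊥ → ∀ r : ℕ, r.Prime → r ∣ n →
      ∃ x ∈ K, x ^ (n / r) ≠ 1) : s ^ 3 ∣ n ∧ ¬ p ∣ s - 1 := by
  obtain ⟨M, a, ha, hM, hpM, hdivp⟩ := tw_exists_abelian_decomp H.pos hp hpn
  obtain ⟨S, c, hc, hS, hsS, hdivs⟩ := tw_exists_abelian_decomp H.pos hs hsn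
  have hnoM : NoN M G := tw_exists_abelian_noN hp hpn hdivp hno
  have hnoS : NoN S G := tw_exists_abelian_noN hs hsn hdivs hno
  obtain ⟨z, -, hz, hzp, hz1⟩ := tw_exists_abelian_meet H hodd hp hpn ha hM hpM hdivp hno ⊤
    inferInstance top_ne_bot
  obtain ⟨R, hRf, hR, hzR, x, hx, hne⟩ := tw_U H hp hs hps hM hS hpM hsS hnoS hz hz1
  constructor
  · by_contra hs2
    exact hne (tw_cent_cubefree H hodd hp hs hps hM hS hpM hsS hnoM hnoS hz hzp hs2 R hRf hR hzR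
      x hx)
  · intro h
    have hcop : Nat.Coprime M (p ^ a) :=
      ((Nat.Prime.coprime_iff_not_dvd hp).2 hpM).symm.pow_right a
    refine hne (tw_Eprime H hM hcop hnoM hz hp hs h hzp R hR ?_ hzR x hx)
    intro w hw
    obtain ⟨k, hk⟩ := hR ⟨w, hw⟩
    have hk' : w ^ (s ^ k) = 1 := by simpa using congrArg Subtype.val hk
    have h1 : orderOf w ∣ s ^ k := orderOf_dvd_of_pow_eq_one hk'
    have h2 : orderOf w ∣ M * p ^ a := by
      rw [← hM]
      exact orderOf_dvd_of_pow_eq_one (H.hexp w)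
    have h3 : Nat.Coprime (orderOf w) (p ^ a) :=
      Nat.Coprime.coprime_dvd_left h1
        (Nat.Coprime.pow _ _ ((Nat.coprime_primes hs hp).2 hps.symm))
    exact orderOf_dvd_iff_pow_eq_one.1 (h3.dvd_of_dvd_mul_right h2)

end Pool.Agent.Lib.MP_544bd1_al
end

section

/-!
Two generators, part 2: the induction.
-/

namespace Pool.Agent.Lib.MP_544bd1_al

open Subgroup

theorem TwG.quotient {n : ℕ} {G Q : Type} [Group G] [Group Q] (h : TwG n G) (f : G →* Q)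
    (hf : Function.Surjective f) : TwG n Q := by
  refine ⟨h.pos, ?_, ?_⟩
  · intro x
    obtain ⟨g, rfl⟩ := hf x
    rw [← map_pow, h.hexp, map_one]
  · intro a b
    obtain ⟨a, rfl⟩ := hf a
    obtain ⟨b, rfl⟩ := hf b
    have himg : closure {f a, f b} = (closure {a, b}).map f := by
      rw [MonoidHom.map_closure, Set.image_pair]
    obtain ⟨h1, h3⟩ := h.h2 a b
    rw [himg]
    refine ⟨Finite.of_surjective _ (f.subgroupMap_surjective (closure {a, b})), ?_⟩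
    exact Group.isSolvable_of_surjective (f := f.subgroupMap (closure {a, b}))
      (f.subgroupMap_surjective _)

theorem TwG.sub {n : ℕ} {G : Type} [Group G] (h : TwG n G) (K : Subgroup G) : TwG n K := by
  refine ⟨h.pos, tw_exp_sub h.hexp K, ?_⟩
  intro a b
  obtain ⟨h1, h3⟩ := h.h2 (a : G) (b : G)
  have hmap : (closure {a, b}).map K.subtype = closure {(a : G), (b : G)} := by
    rw [MonoidHom.map_closure, Set.image_pair]
    rfl
  let e := (closure {a, b}).equivMapOfInjective K.subtype K.subtype_injective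
  rw [← hmap] at h1 h3
  exact ⟨Finite.of_equiv _ e.symm.toEquiv,
    Group.isSolvable_of_isSolvable_injective (f := e.toMonoidHom) e.injective⟩

/-- smaller exponent -/
theorem TwG.of_exp {n k : ℕ} {G : Type} [Group G] (h : TwG n G) (hk : 0 < k)
    (hexp : ∀ x : G, x ^ k = 1) : TwG k G := ⟨hk, hexp, h.h2⟩

/-- all sections of exponent `k` are locally finite -/
def ESec (k : ℕ) (G : Type) [Group G] : Prop :=
  ∀ (S : Type) [Group S] (H : Subgroup G) (f : H →* S), Function.Surjective f →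
    (∀ x : S, x ^ k = 1) → LF (⊤ : Subgroup S)

theorem ESec.of_surjective {n : ℕ} {K Q : Type} [Group K] [Group Q] (f : K →* Q)
    (hf : Function.Surjective f) (h : ESec n K) : ESec n Q := by
  intro T _ A φ hφ hT
  refine h T (A.comap f) (φ.comp (f.subgroupComap A)) (hφ.comp ?_) hT
  rintro ⟨y, hy⟩
  obtain ⟨x, rfl⟩ := hf y
  exact ⟨⟨x, hy⟩, rfl⟩

theorem ESec.sub {n : ℕ} {G : Type} [Group G] (h : ESec n G) {K : Subgroup G}
    (hK : ∀ x ∈ K, x ^ n = 1) : LF K :=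
  LF_of_top (h K K (MonoidHom.id K) (fun x => ⟨x, rfl⟩) (fun x => Subtype.ext (hK x x.2)))

theorem ESec.dvd {n k : ℕ} {G : Type} [Group G] (h : ESec n G) (hk : k ∣ n) : ESec k G := by
  intro S _ H f hf hx
  apply h S H f hf
  intro x
  obtain ⟨j, rfl⟩ := hk
  rw [pow_mul, hx, one_pow]

/-- odd exponents -/
theorem tw_odd (n₀ : ℕ) (hn₀ : 0 < n₀) (n : ℕ) : n ∣ n₀ → Odd n →
    (∀ p₁ p₂ p₃ p₄ : ℕ, p₁.Prime → p₂.Prime → p₃.Prime → p₄.Prime →
      2 < p₁ → p₁ < p₂ → p₂ < p₃ → p₃ < p₄ →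
      p₁ ^ 3 ∣ n → p₂ ^ 3 ∣ n → p₃ ^ 3 ∣ n → p₄ ^ 3 ∣ n →
      p₁ ∣ p₂ - 1 ∨ p₁ ∣ p₃ - 1 ∨ p₁ ∣ p₄ - 1 ∨ p₂ ∣ p₃ - 1 ∨ p₂ ∣ p₄ - 1 ∨ p₃ ∣ p₄ - 1) →
    ∀ (G : Type) [Group G], TwG n G → PSec n₀ G → LF (⊤ : Subgroup G) := by
  induction n using Nat.strong_induction_on with
  | _ n ih =>
  intro hnn₀ hodd hcond G _ H hps
  have hnpos : 0 < n := H.pos
  apply LF_of_quotients
  intro N hN hNtop
  have hnt : Nontrivial (G ⧸ N) := by
    by_contra h
    rw [not_nontrivial_iff_subsingleton] at h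
    exact hNtop (QuotientGroup.subgroup_eq_top_of_subsingleton N h)
  have hsurj := QuotientGroup.mk'_surjective N
  have HQ : TwG n (G ⧸ N) := H.quotient _ hsurj
  have hpsQ : PSec n₀ (G ⧸ N) := hps.of_surjective _ hsurj
  by_cases hno : ∀ K : Subgroup (G ⧸ N), K.Normal → K ≠ ⊥ → ∀ s : ℕ, s.Prime → s ∣ n →
      ∃ x ∈ K, x ^ (n / s) ≠ 1
  · by_cases hpp : ∀ p k : ℕ, p.Prime → n ≠ p ^ k
    · have h1 : 1 < n := by
        by_contra h
        have h2 : n = 1 := by omega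
        exact hpp 2 0 Nat.prime_two (by rw [h2, pow_zero])
      rcases tw_few hodd h1 hcond
        (fun p s hp hs hps hpn hsn => tw_V HQ hodd hp hs hps hpn hsn hno) hpp with
        ⟨p, q, hp, hq, hpq, hpn, hqn, hn2⟩ | ⟨p, q, s, hp, hq, hs, hpq, hps, hqs, hpn, hqn, hsn, hn3⟩
      · obtain ⟨K, hK1, hK2, hK3⟩ := tw_exists_abelian HQ hodd hp hq hpq hpn hqn
          (fun s hs hsp hsq hs2 => by
            rcases hn2 s hs (dvd_trans (dvd_pow_self s two_ne_zero) hs2) with h | h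
            · exact absurd h hsp
            · exact absurd h hsq) hno
        exact ⟨K, hK1, hK2, tw_LF_abelian hnpos HQ.hexp K hK3⟩
      · obtain ⟨K, hK1, hK2, hK3⟩ := tw_exists_abelian3 HQ hodd hp hq hs hpq hps hqs hpn hqn hsn
          hn3 hno
        exact ⟨K, hK1, hK2, tw_LF_abelian hnpos HQ.hexp K hK3⟩
    · push Not at hpp
      obtain ⟨p, k, hp, hk⟩ := hpp
      have hk0 : k ≠ 0 := by
        rintro rfl
        rw [pow_zero] at hk
        obtain ⟨x, y, hxy⟩ := hnt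
        apply hxy
        have hx := HQ.hexp x
        have hy := HQ.hexp y
        rw [hk, pow_one] at hx hy
        rw [hx, hy]
      have hpn : p ∣ n₀ := (dvd_trans (by rw [hk]; exact dvd_pow_self p hk0) hnn₀)
      refine ⟨⊤, inferInstance, ?_, ?_⟩
      · intro h
        exact bot_ne_top h.symm
      · apply LF_of_top
        refine hpsQ _ ⊤ (MonoidHom.id _) (fun x => ⟨x, rfl⟩) p hp hpn ?_
        intro x
        apply Subtype.ext
        rw [SubgroupClass.coe_pow]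
        have h1 : n ∣ p ^ n₀.factorization p := by
          rw [hk]
          apply pow_dvd_pow
          rw [← Nat.Prime.pow_dvd_iff_le_factorization hp hn₀.ne', ← hk]
          exact hnn₀
        obtain ⟨j, hj⟩ := h1
        rw [hj, pow_mul, HQ.hexp, one_pow]
        rfl
  · push Not at hno
    obtain ⟨K, hK1, hK2, s, hs, hsn, hK3⟩ := hno
    refine ⟨K, hK1, hK2, LF_of_top ?_⟩
    have hlt : n / s < n := Nat.div_lt_self hnpos hs.one_lt
    have hdvd : n / s ∣ n := Nat.div_dvd_of_dvd hsn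
    have hpos : 0 < n / s := Nat.div_pos (Nat.le_of_dvd hnpos hsn) hs.pos
    apply ih (n / s) hlt (hdvd.trans hnn₀) (hodd.of_dvd_nat hdvd) ?_ K
    · exact (HQ.sub K).of_exp hpos (fun x => Subtype.ext (by simpa using hK3 x x.2))
    · exact hpsQ.of_injective K.subtype K.subtype_injective
    · intro p₁ p₂ p₃ p₄ h1 h2 h3 h4 h5 h6 h7 h8 h9 h10 h11 h12
      exact hcond p₁ p₂ p₃ p₄ h1 h2 h3 h4 h5 h6 h7 h8 (h9.trans hdvd) (h10.trans hdvd)
        (h11.trans hdvd) (h12.trans hdvd)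

/-- even exponents -/
theorem tw_even {m : ℕ} (hm : Odd m) (a : ℕ) :
    (a ≤ 2 ∨ ∀ j ≤ a, (2 ^ j - 1).Prime → ¬ (2 ^ j - 1) ∣ m) →
    ∀ (G : Type) [Group G], TwG (2 ^ a * m) G → ESec m G → ESec (2 ^ a) G →
      LF (⊤ : Subgroup G) := by
  induction a with
  | zero =>
    intro _ G _ H hEm _
    intro K hK hfg
    refine hEm G ⊤ (⊤ : Subgroup G).subtype ?_ ?_ K hK hfg
    · intro x; exact ⟨⟨x, trivial⟩, rfl⟩
    · intro x
      have := H.hexp x
      rwa [pow_zero, one_mul] at this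
  | succ a ih =>
    intro hcond G _ H hEm hE2
    apply LF_of_quotients
    intro N hN hNtop
    have hnt : Nontrivial (G ⧸ N) := by
      by_contra h
      rw [not_nontrivial_iff_subsingleton] at h
      exact hNtop (QuotientGroup.subgroup_eq_top_of_subsingleton N h)
    have hsurj := QuotientGroup.mk'_surjective N
    have HQ : TwG (2 ^ (a + 1) * m) (G ⧸ N) := H.quotient _ hsurj
    have hEmQ : ESec m (G ⧸ N) := hEm.of_surjective _ hsurj
    have hE2Q : ESec (2 ^ (a + 1)) (G ⧸ N) := hE2.of_surjective _ hsurj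
    have hm0 : 0 < m := by
      obtain ⟨k, hk⟩ := hm
      omega
    by_cases ha2 : a + 1 ≤ 2
    · obtain ⟨j, hj⟩ : 2 ^ (a + 1) ∣ 4 := by
        have : 2 ^ (a + 1) ∣ 2 ^ 2 := pow_dvd_pow 2 ha2
        exact this
      obtain ⟨K, hK1, hK2, hK3⟩ := fr_exists_normal (G := G ⧸ N) (m := m) hm
        (fun x => by
          rw [hj, show 2 ^ (a + 1) * j * m = 2 ^ (a + 1) * m * j by ring, pow_mul, HQ.hexp,
            one_pow]) (fun t x y _ _ => HQ.h2 x y)
      refine ⟨K, hK1, hK2, ?_⟩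
      rcases hK3 with h | h
      · exact hEmQ.sub h
      · apply hE2Q.sub
        intro x hx
        have h1 : orderOf x ∣ 4 := orderOf_dvd_of_pow_eq_one (h x hx)
        have h2 : orderOf x ∣ 2 ^ (a + 1) * m := orderOf_dvd_of_pow_eq_one (HQ.hexp x)
        rw [← orderOf_dvd_iff_pow_eq_one]
        have h3 : Nat.Coprime (orderOf x) m := by
          apply Nat.Coprime.coprime_dvd_left h1
          exact (Nat.Coprime.pow_left 2 (Nat.coprime_two_left.2 hm) : Nat.Coprime (2 ^ 2) m)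
        exact h3.dvd_of_dvd_mul_right h2
    · have hcond' : ∀ j ≤ a + 1, (2 ^ j - 1).Prime → ¬ (2 ^ j - 1) ∣ m := by
        rcases hcond with h | h
        · exact absurd h ha2
        · exact h
      by_cases hsmall : ∀ x : G ⧸ N, x ^ (2 ^ a * m) = 1
      · refine ⟨⊤, inferInstance, fun h => bot_ne_top h.symm, ?_⟩
        exact ih (Or.inr (fun j hj => hcond' j (by omega))) (G ⧸ N)
          (HQ.of_exp (by positivity) hsmall) hEmQ (hE2Q.dvd (pow_dvd_pow 2 (by omega)))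
      · push Not at hsmall
        obtain ⟨g, hg⟩ := hsmall
        have hn : 2 ^ (a + 1) * m = m * 2 ^ (a + 1) := mul_comm _ _
        have h2m : ¬ 2 ∣ m := by
          rw [← even_iff_two_dvd, Nat.not_even_iff_odd]
          exact hm
        have hgood : GoodS m (2 ^ (a + 1)) ((g ^ m) ^ (2 ^ (a + 1 - 1))) := by
          apply tw_good HQ Nat.prime_two (Nat.succ_pos a) hn h2m
          · intro r hr hrm j s hj1 hj2 hs hrs
            have hr2 : r ≠ 2 := by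
              rintro rfl
              exact h2m hrm
            have hs1 := tw_mersenne hr hr2 hs hrs
            rw [hs1, pow_one] at hrs
            have hr' : 2 ^ j - 1 = r := by omega
            apply hcond' j hj2
            · rw [hr']; exact hr
            · rw [hr']; exact hrm
          · rw [← pow_mul, ← hn]
            exact HQ.hexp g
        rw [Nat.add_sub_cancel] at hgood
        have hz : (g ^ m) ^ (2 ^ a) = g ^ (2 ^ a * m) := by rw [← pow_mul, mul_comm]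
        rw [hz] at hgood
        have hz2 : (g ^ (2 ^ a * m)) ^ 2 = 1 := by
          rw [← pow_mul, show 2 ^ a * m * 2 = 2 ^ (a + 1) * m by ring]
          exact HQ.hexp g
        by_cases hA : NoN (2 ^ (a + 1)) (G ⧸ N)
        · by_cases hB : NoN m (G ⧸ N)
          · exact absurd (tw_X HQ hn hm hA hB hgood hz2) hg
          · unfold NoN at hB
            push Not at hB
            obtain ⟨K, hK1, hK2, hK3⟩ := hB
            exact ⟨K, hK1, hK3, hEmQ.sub hK2⟩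
        · unfold NoN at hA
          push Not at hA
          obtain ⟨K, hK1, hK2, hK3⟩ := hA
          exact ⟨K, hK1, hK3, hE2Q.sub hK2⟩

end Pool.Agent.Lib.MP_544bd1_al
end
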