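import Mathlib
import Pool.Agent.Lib.MP_544bd1_al.E5.Coind
import Pool.Agent.Lib.MP_544bd1_al.TwL3
import Pool.Agent.Lib.MP_544bd1_al.GpOX
import Pool.Agent.Lib.MP_544bd1_al.EvM2
import Pool.Agent.Lib.MP_544bd1_al.FrB
import Pool.Agent.Lib.MP_544bd1_al.GenBX
import Pool.Agent.Lib.MP_544bd1_al.TwS2
import Pool.Agent.Lib.MP_544bd1_al.GpCent
import Pool.Agent.Lib.MP_544bd1_al.TwS3
import Pool.Agent.Lib.MP_544bd1_al.TwLZ

section

/-!
Even exponents, squares of Mersenne primes: irreducibility in the minimal case.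
-/

namespace Pool.Agent.Lib.MP_544bd1_al

open Finset Subgroup

private theorem ev3_odd {M : Type} [Monoid M] {A : M} {n : ℕ} (hn : Odd n) (h : A ^ n = 1)
    (h2 : A * A = 1) : A = 1 := by
  obtain ⟨s, rfl⟩ := hn
  rw [pow_succ, pow_mul, pow_two, h2, one_pow, one_mul] at h
  exact h

private theorem ev3_inv {R M : Type} [Group R] [Monoid M] (ρ : R →* M) {a b : R}
    (h : ρ a = ρ b) : ρ a⁻¹ = ρ b⁻¹ := by
  have h1 : ρ b * ρ b⁻¹ = 1 := by rw [← map_mul, mul_inv_cancel, map_one]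
  have h2 : ρ a⁻¹ * ρ a = 1 := by rw [← map_mul, inv_mul_cancel, map_one]
  calc ρ a⁻¹ = ρ a⁻¹ * (ρ b * ρ b⁻¹) := by rw [h1, mul_one]
    _ = ρ a⁻¹ * ρ a * ρ b⁻¹ := by rw [← h, mul_assoc]
    _ = ρ b⁻¹ := by rw [h2, one_mul]

private theorem ev3_add {V : Type} [AddCommGroup V] [Module (ZMod 2) V] (v : V) : v + v = 0 := by
  have h1 : v + v = (2 : ZMod 2) • v := by rw [two_smul]
  rw [h1, show (2 : ZMod 2) = 0 from rfl, zero_smul]

/-- Irreducibility in the minimal case.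

Proof. `R` is a finite group of odd order. Let `q = 2 ^ a`, `ξ = α^[2 ^ (a - 1)]`,
`ρ (ξ (ξ x)) = ρ (α^[2 ^ a] x) = ρ x` (`LDat.iter_q`, `0 < a`). `I = {g | ρ (ξ g) = ρ g⁻¹}`,
`S = closure I`.
(1) `α x ∈ S` for `x ∈ S`: for `g ∈ I`, `ρ (ξ (α g)) * U = ρ (α (ξ g)) * U = U * ρ (ξ g)
  = U * ρ g⁻¹ = ρ (α g⁻¹) * U` and `U` is a unit; `ξ (α g) = α (ξ g)`.
(2) `S = ⊤`: otherwise `hsub` gives, for `g ∈ I`, `ρ g = ρ (ξ g) = ρ g⁻¹`, `(ρ g) ^ 2 = 1`, and
  `ρ g = 1` since `g` has odd order. Let `x` be as in `hno`, `h = (ξ x)⁻¹ * x`: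
  `ρ (ξ h) = ρ (ξ (ξ x))⁻¹.. = ρ x⁻¹ * ρ (ξ x) = ρ h⁻¹`, so `h ∈ I`, `ρ h = 1`, `ρ (ξ x) = ρ x`,
  contradiction.
(3) If `W ≠ ⊤` is invariant under `ρ` and `U` then `R` acts trivially on `W`: `hW` gives for
  `g ∈ I`, `w ∈ W`: `ρ g w = ρ (ξ g) w = ρ g⁻¹ w`, so `ρ (g ^ 2) w = w`, so `ρ g w = w` (`g` is a
  power of `g ^ 2`); the elements of `R` acting trivially on `W` form a subgroup containing `I`.
(4) `N = span {ρ x v - v}` is invariant under `ρ` and `U`
  (`U (ρ x v - v) = ρ (α x) (U v) - U v`); `N = ⊤`: otherwise by (3) `ρ x (ρ x v - v) = ρ x v - v`,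
  so `(ρ x - 1) ^ 2 = 0`, `(ρ x) ^ 2 = 1` (`2 = 0`: `(ρ x) ^ 2 = 2 • ρ x - 1 = 1`), `ρ x = 1` for
  all `x` (odd order): contradiction to `hno`.
(5) Let `e = ∑ x : R, ρ x`; `e (ρ x v - v) = 0`, so `e = 0` on `N = ⊤`. If `W ≠ ⊤` is invariant and
  `w ∈ W`, then by (3) `0 = e w = (Nat.card R) • w = w` (`Nat.card R` odd, `2 • w = 0`). -/
theorem ev_irr {r a : ℕ} (hr : r.Prime) (hr2 : r ≠ 2) (ha : 0 < a) {V R : Type} [AddCommGroup V]
    [Module (ZMod 2) V] [Finite V] [Group R] [Finite R] (hR : IsPGroup r R) {α : R →* R}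
    {ρ : R →* Module.End (ZMod 2) V} {U : Module.End (ZMod 2) V} (D : LDat (2 ^ a) α ρ U)
    (hsub : ∀ S : Subgroup R, S ≠ ⊤ → (∀ x ∈ S, α x ∈ S) →
      ∀ x ∈ S, ρ (α^[2 ^ (a - 1)] x) = ρ x)
    (hW : ∀ W : Submodule (ZMod 2) V, W ≠ ⊤ → (∀ x, ∀ w ∈ W, ρ x w ∈ W) → (∀ w ∈ W, U w ∈ W) →
      ∀ x, ∀ w ∈ W, ρ (α^[2 ^ (a - 1)] x) w = ρ x w)
    (hno : ∃ x, ρ (α^[2 ^ (a - 1)] x) ≠ ρ x) :
    ∀ W : Submodule (ZMod 2) V, (∀ x, ∀ w ∈ W, ρ x w ∈ W) → (∀ w ∈ W, U w ∈ W) →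
      W = ⊥ ∨ W = ⊤ := by
  classical
  have := Fact.mk hr
  obtain ⟨k, hk⟩ := IsPGroup.iff_card.1 hR
  have hodd : Odd (Nat.card R) := by
    rw [hk]
    exact (hr.odd_of_ne_two hr2).pow
  have hpow : ∀ x : R, ρ x ^ Nat.card R = 1 := fun x => by
    rw [← map_pow, pow_card_eq_one', map_one]
  have hodd1 : ∀ x : R, ρ x * ρ x = 1 → ρ x = 1 := fun x h => ev3_odd hodd (hpow x) h
  -- vectors
  have hoddv : ∀ (x : R) (w : V), ρ x (ρ x w) = w → ρ x w = w := by
    intro x w h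
    obtain ⟨s, hs⟩ := hodd
    have h1 : ∀ j : ℕ, (ρ x ^ (2 * j)) w = w := by
      intro j
      induction j with
      | zero => rfl
      | succ j ih =>
        rw [Nat.mul_succ, pow_succ, pow_succ, Module.End.mul_apply, Module.End.mul_apply, h, ih]
    have h2 : (ρ x ^ (2 * s + 1)) w = w := by rw [← hs, hpow]; rfl
    rw [pow_succ', Module.End.mul_apply, h1] at h2
    exact h2
  have hUu : IsUnit U := IsUnit.of_pow_eq_one D.hq (pow_ne_zero a two_ne_zero)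
  have hξ2 : ∀ x, ρ (α^[2 ^ (a - 1)] (α^[2 ^ (a - 1)] x)) = ρ x := by
    intro x
    rw [← Function.iterate_add_apply, ← two_mul, ← pow_succ', Nat.sub_add_cancel ha]
    exact D.iter_q x
  let I : Set R := {g | ρ (α^[2 ^ (a - 1)] g) = ρ g⁻¹}
  have hI : ∀ g, g ∈ I ↔ ρ (α^[2 ^ (a - 1)] g) = ρ g⁻¹ := fun g => Iff.rfl
  have hαI : ∀ g ∈ I, α g ∈ I := by
    intro g hg
    rw [hI] at hg ⊢
    have h1 : α^[2 ^ (a - 1)] (α g) = α (α^[2 ^ (a - 1)] g) := by
      rw [← Function.iterate_succ_apply, Function.iterate_succ_apply']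
    rw [h1]
    apply hUu.mul_right_cancel
    rw [← D.hU, hg, D.hU, map_inv]
  have hαS : ∀ x ∈ closure I, α x ∈ closure I := by
    have h1 : closure I ≤ (closure I).comap α := by
      rw [closure_le]
      intro g hg
      exact subset_closure (hαI g hg)
    exact fun x hx => h1 hx
  -- `I` generates `R`
  have hS : closure I = ⊤ := by
    by_contra hne
    have h1 := hsub _ hne hαS
    have h2 : ∀ g ∈ I, ρ g = 1 := by
      intro g hg
      have h3 := h1 g (subset_closure hg)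
      rw [(hI g).1 hg] at h3
      apply hodd1
      nth_rewrite 1 [← h3]
      rw [← map_mul, inv_mul_cancel, map_one]
    obtain ⟨x, hx⟩ := hno
    apply hx
    have h3 : (α^[2 ^ (a - 1)] x)⁻¹ * x ∈ I := by
      rw [hI, iterate_map_mul, iterate_map_inv, map_mul, ev3_inv ρ (hξ2 x), mul_inv_rev, inv_inv,
        map_mul]
    have h4 := h2 _ h3
    calc ρ (α^[2 ^ (a - 1)] x) = ρ (α^[2 ^ (a - 1)] x) * ρ ((α^[2 ^ (a - 1)] x)⁻¹ * x) := by
          rw [h4, mul_one]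
      _ = ρ x := by rw [← map_mul, mul_inv_cancel_left]
  -- proper invariant subspaces
  have htriv : ∀ W : Submodule (ZMod 2) V, W ≠ ⊤ → (∀ x, ∀ w ∈ W, ρ x w ∈ W) →
      (∀ w ∈ W, U w ∈ W) → ∀ x, ∀ w ∈ W, ρ x w = w := by
    intro W hWt hWρ hWU
    let T : Subgroup R :=
      { carrier := {x | ∀ w ∈ W, ρ x w = w}
        mul_mem' := by
          intro x y hx hy w hw
          rw [map_mul, Module.End.mul_apply, hy w hw, hx w hw]
        one_mem' := by
          intro w _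
          rw [map_one]
          rfl
        inv_mem' := by
          intro x hx w hw
          have h1 : ρ x⁻¹ (ρ x w) = w := by
            rw [← Module.End.mul_apply, ← map_mul, inv_mul_cancel, map_one]
            rfl
          rwa [hx w hw] at h1 }
    have hT : closure I ≤ T := by
      rw [closure_le]
      intro g hg w hw
      have h1 := hW W hWt hWρ hWU g w hw
      rw [(hI g).1 hg] at h1
      apply hoddv
      rw [← h1, ← Module.End.mul_apply, ← map_mul, mul_inv_cancel, map_one]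
      rfl
    rw [hS] at hT
    exact fun x w hw => hT (mem_top x) w hw
  let N : Submodule (ZMod 2) V := Submodule.span (ZMod 2) {u | ∃ x v, u = ρ x v - v}
  have hNmem : ∀ x v, ρ x v - v ∈ N := fun x v => Submodule.subset_span ⟨x, v, rfl⟩
  have hNρ : ∀ y, ∀ w ∈ N, ρ y w ∈ N := by
    intro y
    have h1 : N ≤ N.comap (ρ y) := by
      rw [Submodule.span_le]
      rintro u ⟨x, v, rfl⟩
      show ρ y (ρ x v - v) ∈ N
      have h2 : ρ y (ρ x v - v) = (ρ (y * x) v - v) - (ρ y v - v) := by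
        rw [map_sub, map_mul, Module.End.mul_apply]
        abel
      rw [h2]
      exact N.sub_mem (hNmem _ _) (hNmem _ _)
    exact fun w hw => h1 hw
  have hNU : ∀ w ∈ N, U w ∈ N := by
    have h1 : N ≤ N.comap U := by
      rw [Submodule.span_le]
      rintro u ⟨x, v, rfl⟩
      show U (ρ x v - v) ∈ N
      have h2 : U (ρ x v - v) = ρ (α x) (U v) - U v := by
        rw [map_sub, ← Module.End.mul_apply, D.hU, Module.End.mul_apply]
      rw [h2]
      exact hNmem _ _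
    exact fun w hw => h1 hw
  have hNtop : N = ⊤ := by
    by_contra hne
    have h1 := htriv N hne hNρ hNU
    have h2 : ∀ x, ρ x = 1 := by
      intro x
      apply hodd1
      refine LinearMap.ext fun v => ?_
      have h3 := h1 x _ (hNmem x v)
      rw [map_sub] at h3
      have h4 : ρ x (ρ x v) = ρ x v + ρ x v - v := by
        rw [← sub_eq_zero] at h3 ⊢
        rw [← h3]
        abel
      rw [ev3_add, zero_sub] at h4
      show ρ x (ρ x v) = v
      rw [h4]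
      exact neg_eq_of_add_eq_zero_left (ev3_add v)
    obtain ⟨x, hx⟩ := hno
    exact hx (by rw [h2, h2])
  intro W hWρ hWU
  by_cases hWt : W = ⊤
  · exact Or.inr hWt
  left
  rw [eq_bot_iff]
  intro w hw
  have hfin : Fintype R := Fintype.ofFinite R
  have he : ∀ v : V, (∑ x : R, ρ x) v = 0 := by
    have h1 : N ≤ LinearMap.ker (∑ x : R, ρ x) := by
      rw [Submodule.span_le]
      rintro u ⟨x, v, rfl⟩
      show (∑ y : R, ρ y) (ρ x v - v) = 0
      rw [map_sub, LinearMap.sum_apply, LinearMap.sum_apply, sub_eq_zero]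
      have h2 : ∀ y : R, ρ y (ρ x v) = ρ (y * x) v := fun y => by
        rw [map_mul, Module.End.mul_apply]
      rw [Finset.sum_congr rfl fun y _ => h2 y]
      exact Equiv.sum_comp (Equiv.mulRight x) fun y => ρ y v
    rw [hNtop] at h1
    exact fun v => h1 Submodule.mem_top
  have h1 := he w
  rw [LinearMap.sum_apply, Finset.sum_congr rfl fun x _ => htriv W hWt hWρ hWU x w hw,
    Finset.sum_const, Finset.card_univ, ← Nat.card_eq_fintype_card] at h1
  obtain ⟨s, hs⟩ := hodd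
  rw [hs, succ_nsmul, mul_comm, mul_nsmul, two_nsmul, ev3_add, zero_add] at h1
  exact h1

end Pool.Agent.Lib.MP_544bd1_al
end

section

/-!
Even exponents, squares of Mersenne primes: weights of a commuting family permuted by `U`.
-/

namespace Pool.Agent.Lib.MP_544bd1_al

open Finset

/-- A commuting family of idempotents on a nonzero finite dimensional space over any field has a
common eigenvector (with eigenvalues `0` and `1`).

Proof. As `tw_common_eigen_aux` in TwL3a.lean, induction on the dimension: if all `A i` are scalars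
any nonzero vector works. Otherwise some `A i` is not a scalar; then `ker (A i)` is `≠ ⊤` (else
`A i = 0`) and `≠ ⊥` (else `A i` is injective and `A i * A i = A i` gives `A i = 1`), it is
invariant under all `A j`; the restrictions are commuting idempotents. -/
theorem ev_idem_eigen {K V ι : Type} [Field K] [AddCommGroup V] [Module K V]
    [FiniteDimensional K V] [Nontrivial V] (A : ι → Module.End K V)
    (hA : ∀ i j, A i * A j = A j * A i) (hid : ∀ i, A i * A i = A i) :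
    ∃ (χ : ι → K) (v : V), v ≠ 0 ∧ ∀ i, A i v = χ i • v := by
  classical
  obtain ⟨W, ⟨hW0, hWi⟩, hmin⟩ : ∃ W : Submodule K V, (W ≠ ⊥ ∧ ∀ i, ∀ w ∈ W, A i w ∈ W) ∧
      ∀ U : Submodule K V, (U ≠ ⊥ ∧ ∀ i, ∀ w ∈ U, A i w ∈ U) → ¬ U < W := by
    have hne : {W : Submodule K V | W ≠ ⊥ ∧ ∀ i, ∀ w ∈ W, A i w ∈ W}.Nonempty :=
      ⟨⊤, top_ne_bot, fun _ _ _ => Submodule.mem_top⟩
    have hwf : WellFounded ((· < ·) : Submodule K V → Submodule K V → Prop) := wellFounded_lt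
    obtain ⟨W, hW, hm⟩ := hwf.has_min _ hne
    exact ⟨W, hW, fun U hU => hm U hU⟩
  obtain ⟨v, hvW, hv0⟩ := (Submodule.ne_bot_iff W).mp hW0
  have hcomm : ∀ i j x, A i (A j x) = A j (A i x) := fun i j x =>
    LinearMap.congr_fun (hA i j) x
  have hidem : ∀ i x, A i (A i x) = A i x := fun i x => LinearMap.congr_fun (hid i) x
  have hker : ∀ i, (∀ w ∈ W, A i w = 0) ∨ ∀ w ∈ W, A i w = w := by
    intro i
    by_cases h : W ⊓ LinearMap.ker (A i) = ⊥
    · right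
      intro w hw
      have h1 : A i w - w ∈ W ⊓ LinearMap.ker (A i) := by
        refine ⟨W.sub_mem (hWi i w hw) hw, ?_⟩
        show A i (A i w - w) = 0
        rw [map_sub, hidem, sub_self]
      rw [h, Submodule.mem_bot] at h1
      exact sub_eq_zero.mp h1
    · left
      have h1 : ¬ (W ⊓ LinearMap.ker (A i) < W) := by
        apply hmin
        refine ⟨h, fun j w hw => ⟨hWi j w hw.1, ?_⟩⟩
        have h2 : A i w = 0 := hw.2
        show A i (A j w) = 0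
        rw [hcomm, h2, map_zero]
      have h2 : W ⊓ LinearMap.ker (A i) = W := by
        by_contra h3
        exact h1 (lt_of_le_of_ne inf_le_left h3)
      intro w hw
      rw [← h2] at hw
      exact hw.2
  refine ⟨fun i => if A i v = 0 then 0 else 1, v, hv0, fun i => ?_⟩
  by_cases h : A i v = 0
  · simp only [h, if_true, zero_smul]
  · rcases hker i with h1 | h1
    · exact absurd (h1 v hvW) h
    · simp only [h, if_false, one_smul]
      exact h1 v hvW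

end Pool.Agent.Lib.MP_544bd1_al
end

section

/-!
Even exponents, squares of Mersenne primes: weights of a commuting family permuted by `U`.
-/

namespace Pool.Agent.Lib.MP_544bd1_al

open Finset

/-- a sum over a range of length `j * s` in blocks of length `j` -/
private theorem ev_L3_blocks {K V : Type} [Field K] [AddCommGroup V] [Module K V]
    (U : Module.End K V) (j s : ℕ) :
    ∑ i ∈ range (j * s), U ^ i = (∑ i ∈ range j, U ^ i) * ∑ l ∈ range s, (U ^ j) ^ l := by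
  induction s with
  | zero => simp
  | succ s ih =>
    rw [Nat.mul_succ, Finset.sum_range_add, ih, Finset.sum_range_succ, mul_add]
    congr 1
    rw [Finset.sum_mul]
    refine Finset.sum_congr rfl fun i _ => ?_
    rw [← pow_mul, ← pow_add, add_comm]

/-- General form of `tw_L3` (TwL3.lean): a commuting family `A i` of operators, commuting with
`ρ`, permuted by `U` (`U * A i = A (σ i) * U`), with a common eigenvector, consists of scalars (if
`V` is irreducible for `ρ` and `U`, and `hind`, `hno` hold).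

Proof. Copy the proof of `tw_L3` with the family `Z` (elements of `R` which are central on `V`)
replaced by `ι`: `U ^ k * A i = A (σ^[k] i) * U ^ k`, `A (σ^[q] i) = A i` (`U ^ q = 1`), `χ i = χ j`
if `A i = A j` (evaluate on the eigenvector); `W = {v | ∀ i, A i v = χ i • v}`; the weights of
`U ^ k w` (`w ∈ W`) are `i ↦ χ (σ^[(q - 1) * k] i)`; etc. (`tw_L3_blocks` is private: copy it.) -/
theorem ev_L3 {K V R ι : Type} [Field K] [AddCommGroup V] [Module K V] [Group R]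
    [FiniteDimensional K V] [Nontrivial V] {p a : ℕ} [Fact p.Prime]
    {α : R →* R} {ρ : R →* Module.End K V} {U : Module.End K V} (D : LDat (p ^ a) α ρ U)
    (hirr : ∀ W : Submodule K V, (∀ x, ∀ w ∈ W, ρ x w ∈ W) → (∀ w ∈ W, U w ∈ W) →
      W = ⊥ ∨ W = ⊤)
    (hind : ∀ (W : Submodule K V) (b : ℕ), W ≠ ⊤ → (∀ x, ∀ w ∈ W, ρ x w ∈ W) → 0 < b → b < a →
      (∀ w ∈ W, (U ^ (p ^ b)) w ∈ W) →
      (∀ w ∈ W, (∑ i ∈ range (p ^ (a - b)), (U ^ (p ^ b)) ^ i) w = 0) →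
      ∀ x, ∀ w ∈ W, ρ (α^[p ^ (a - 1)] x) w = ρ x w)
    (hno : ∃ x, ρ (α^[p ^ (a - 1)] x) ≠ ρ x)
    (A : ι → Module.End K V) (σ : ι → ι) (hA : ∀ i j, A i * A j = A j * A i)
    (hAρ : ∀ i x, A i * ρ x = ρ x * A i) (hUA : ∀ i, U * A i = A (σ i) * U)
    (heig : ∃ (χ : ι → K) (v : V), v ≠ 0 ∧ ∀ i, A i v = χ i • v) :
    ∃ χ : ι → K, ∀ i, A i = χ i • (1 : Module.End K V) := by
  classical
  have hp : p.Prime := Fact.out
  set q : ℕ := p ^ a with hqdef
  have hq : 0 < q := pow_pos hp.pos a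
  have hadd : ∀ i, (q - 1) * i + i = q * i := by
    intro i
    obtain ⟨t, ht⟩ := Nat.exists_eq_succ_of_ne_zero hq.ne'
    rw [ht]
    simp only [Nat.succ_eq_add_one, Nat.add_sub_cancel]
    ring
  have hUinj : ∀ (k : ℕ) (v : V), (U ^ k) v = 0 → v = 0 := by
    intro k v hv
    have h1 : U ^ ((q - 1) * k) * U ^ k = 1 := by
      rw [← pow_add, hadd, pow_mul, D.hq, one_pow]
    have h2 : (U ^ ((q - 1) * k) * U ^ k) v = v := by rw [h1]; rfl
    rw [Module.End.mul_apply, hv, map_zero] at h2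
    exact h2.symm
  -- powers of `U` and the family
  have hUk : ∀ (k : ℕ) (i : ι), U ^ k * A i = A (σ^[k] i) * U ^ k := by
    intro k
    induction k with
    | zero => intro i; simp
    | succ k ih =>
      intro i
      rw [pow_succ, mul_assoc, hUA, ← mul_assoc, ih, mul_assoc, Function.iterate_succ_apply]
  have hAq : ∀ (k : ℕ) (i : ι), A (σ^[q * k] i) = A i := by
    intro k i
    have h1 := hUk (q * k) i
    rw [pow_mul, D.hq, one_pow, one_mul, mul_one] at h1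
    exact h1.symm
  obtain ⟨χ, v₀, hv₀, hχ⟩ := heig
  have hχeq : ∀ i j, A i = A j → χ i = χ j := by
    intro i j hij
    have h1 : χ i • v₀ = χ j • v₀ := by rw [← hχ i, ← hχ j, hij]
    exact smul_left_injective K hv₀ h1
  let W : Submodule K V :=
    { carrier := {v | ∀ i, A i v = χ i • v}
      add_mem' := by
        intro u v hu hv i
        rw [map_add, hu i, hv i, smul_add]
      zero_mem' := by
        intro i
        rw [map_zero, smul_zero]
      smul_mem' := by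
        intro c v hv i
        rw [map_smul, hv i, smul_comm] }
  have hv₀W : v₀ ∈ W := hχ
  have hWρ : ∀ x, ∀ w ∈ W, ρ x w ∈ W := by
    intro y w hw i
    rw [← Module.End.mul_apply, hAρ i y, Module.End.mul_apply, hw i, map_smul]
  -- weights of `U ^ k w`
  have hwt : ∀ (k : ℕ) (w : V), w ∈ W → ∀ i,
      A i ((U ^ k) w) = χ (σ^[(q - 1) * k] i) • (U ^ k) w := by
    intro k w hw i
    have h1 : U ^ k * A (σ^[(q - 1) * k] i) = A i * U ^ k := by
      rw [hUk, ← Function.iterate_add_apply, add_comm, hadd, hAq]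
    have h2 := congrArg (fun T : Module.End K V => T w) h1
    simp only [Module.End.mul_apply] at h2
    rw [← h2, hw _, map_smul]
  -- the property of the shifts
  let P : ℕ → Prop := fun k => ∀ i, χ (σ^[(q - 1) * k] i) = χ i
  have hPq : P q := by
    intro i
    refine hχeq _ _ ?_
    rw [mul_comm (q - 1) q, hAq]
  have hPadd : ∀ k l, P k → P l → P (k + l) := by
    intro k l hk hl i
    rw [mul_add, Function.iterate_add_apply, hk, hl]
  have hPsub : ∀ k l, P (k + l) → P l → P k := by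
    intro k l hkl hl i
    have h1 := hkl (σ^[l] i)
    have h2 := hl (σ^[l] i)
    rw [← Function.iterate_add_apply] at h1 h2
    rw [hadd] at h2
    have h3 : χ (σ^[q * l] i) = χ i := hχeq _ _ (hAq l i)
    have e1 : (q - 1) * (k + l) + l = q * l + (q - 1) * k := by
      rw [mul_add, add_assoc, hadd, add_comm]
    have h4 : χ (σ^[(q - 1) * (k + l) + l] i) = χ (σ^[(q - 1) * k] i) := by
      rw [e1, Function.iterate_add_apply]
      exact hχeq _ _ (hAq l _)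
    rw [← h4, h1, ← h2, h3]
  have hPmul : ∀ j s, P j → P (j * s) := by
    intro j s hj
    induction s with
    | zero => intro i; rfl
    | succ s ih => rw [Nat.mul_succ]; exact hPadd _ _ ih hj
  have hex : ∃ j, 0 < j ∧ P j := ⟨q, hq, hPq⟩
  obtain ⟨hj0, hPj⟩ := Nat.find_spec hex
  have hjmin : ∀ i, 0 < i → i < Nat.find hex → ¬ P i := fun i h1 h2 h3 =>
    Nat.find_min hex h2 ⟨h1, h3⟩
  set j : ℕ := Nat.find hex with hj
  have hjq : j ∣ q := by
    by_contra hnd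
    have h1 : 0 < q % j := Nat.pos_of_ne_zero fun h => hnd (Nat.dvd_of_mod_eq_zero h)
    refine hjmin (q % j) h1 (Nat.mod_lt _ hj0) (hPsub _ (j * (q / j)) ?_ (hPmul _ _ hPj))
    rw [Nat.mod_add_div]
    exact hPq
  obtain ⟨b, hba, hjb⟩ := (Nat.dvd_prime_pow hp).1 hjq
  have hWUj : ∀ w ∈ W, (U ^ j) w ∈ W := by
    intro w hw i
    rw [hwt j w hw i, hPj i]
  rcases Nat.eq_zero_or_pos b with hb | hb
  · -- the case `j = 1`
    have hj1 : j = 1 := by rw [hjb, hb, pow_zero]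
    have hWU : ∀ w ∈ W, U w ∈ W := by
      intro w hw
      have := hWUj w hw
      rwa [hj1, pow_one] at this
    rcases hirr W hWρ hWU with h | h
    · rw [h, Submodule.mem_bot] at hv₀W
      exact absurd hv₀W hv₀
    · refine ⟨χ, fun i => LinearMap.ext fun v => ?_⟩
      have hv : v ∈ W := by rw [h]; exact Submodule.mem_top
      exact hv i
  exfalso
  have hj1 : 1 < j := by
    rw [hjb]
    exact Nat.one_lt_pow hb.ne' hp.one_lt
  have hWtop : W ≠ ⊤ := by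
    intro h
    refine hjmin 1 one_pos hj1 fun i => ?_
    have h1 := hwt 1 v₀ hv₀W i
    have h2 : (U ^ 1) v₀ ∈ W := by rw [h]; exact Submodule.mem_top
    rw [h2 i] at h1
    have h3 : (U ^ 1) v₀ ≠ 0 := fun h => hv₀ (hUinj 1 v₀ h)
    exact (smul_left_injective K h3 h1).symm
  -- the partial norm vanishes on `W`
  have hWUl : ∀ (l : ℕ), ∀ w ∈ W, ((U ^ j) ^ l) w ∈ W := by
    intro l
    induction l with
    | zero => intro w hw; exact hw
    | succ l ih =>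
      intro w hw
      rw [pow_succ, Module.End.mul_apply]
      exact ih _ (hWUj w hw)
  have hnorm : ∀ w ∈ W, (∑ l ∈ range (q / j), (U ^ j) ^ l) w = 0 := by
    intro w hw
    set w' : V := (∑ l ∈ range (q / j), (U ^ j) ^ l) w with hw'
    have hw'W : w' ∈ W := by
      rw [hw', LinearMap.sum_apply]
      exact Submodule.sum_mem _ fun l _ => hWUl l w hw
    have h1 : ∑ i ∈ range (j - 1 + 1), (U ^ i) w' = 0 := by
      rw [Nat.sub_add_cancel hj0, ← LinearMap.sum_apply, hw', ← Module.End.mul_apply,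
        ← ev_L3_blocks, Nat.mul_div_cancel' hjq, D.hN]
      rfl
    have h2 := tw_weights A (j - 1)
      (fun k i => χ (σ^[(q - 1) * k] i)) (fun i => (U ^ i) w')
      (fun k _ i => hwt k w' hw'W i)
      (fun i hi1 hi2 h => hjmin i hi1 (by omega) fun x => congrFun h x) h1
    exact h2
  have hbne : b ≠ a := by
    intro h
    have hjq' : j = q := by rw [hjb, h]
    have h1 := hnorm v₀ hv₀W
    rw [hjq', Nat.div_self hq, Finset.sum_range_one, pow_zero] at h1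
    exact hv₀ h1
  have hba' : b < a := lt_of_le_of_ne hba hbne
  have hqj : q / j = p ^ (a - b) := by
    rw [hjb, hqdef, Nat.pow_div hba hp.pos]
  rw [hqj, hjb] at hnorm
  rw [hjb] at hWUj
  have hind' := hind W b hWtop hWρ hb hba' hWUj hnorm
  -- the fixed space
  let W₀ : Submodule K V :=
    { carrier := {v | ∀ x, ρ (α^[p ^ (a - 1)] x) v = ρ x v}
      add_mem' := by
        intro u v hu hv x
        rw [map_add, map_add, hu x, hv x]
      zero_mem' := by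
        intro x
        rw [map_zero, map_zero]
      smul_mem' := by
        intro c v hv x
        rw [map_smul, map_smul, hv x] }
  have hW₀ρ : ∀ x, ∀ w ∈ W₀, ρ x w ∈ W₀ := by
    intro y w hw x
    rw [← hw y, ← Module.End.mul_apply, ← map_mul, ← iterate_map_mul, hw (x * y), hw y, map_mul,
      Module.End.mul_apply]
  have hW₀U : ∀ w ∈ W₀, U w ∈ W₀ := by
    intro w hw x
    have key : ∀ z, ρ z (U w) = U (ρ (α^[q - 1] z) w) := by
      intro z
      have h1 : U * ρ (α^[q - 1] z) = ρ z * U := by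
        rw [D.hU, ← Function.iterate_succ_apply' (⇑α) (q - 1) z, Nat.succ_eq_add_one,
          Nat.sub_add_cancel hq, D.iter_q]
      have h2 := congrArg (fun T : Module.End K V => T w) h1
      simp only [Module.End.mul_apply] at h2
      exact h2.symm
    rw [key, key, ← Function.iterate_add_apply, add_comm, Function.iterate_add_apply, hw]
  obtain ⟨z, hz⟩ := hno
  rcases hirr W₀ hW₀ρ hW₀U with h | h
  · have h1 : v₀ ∈ W₀ := fun x => hind' x v₀ hv₀W
    rw [h, Submodule.mem_bot] at h1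
    exact hv₀ h1
  · refine hz (LinearMap.ext fun v => ?_)
    have h1 : v ∈ W₀ := by rw [h]; exact Submodule.mem_top
    exact h1 z

end Pool.Agent.Lib.MP_544bd1_al
end

section

/-!
Even exponents, squares of Mersenne primes: central elements act without fixed points in the
irreducible case.
-/

namespace Pool.Agent.Lib.MP_544bd1_al

open Finset Subgroup

private theorem ev4_add {V : Type} [AddCommGroup V] [Module (ZMod 2) V] (v : V) : v + v = 0 := by
  have h1 : v + v = (2 : ZMod 2) • v := by rw [two_smul]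
  rw [h1, show (2 : ZMod 2) = 0 from rfl, zero_smul]

private theorem ev4_odd {V : Type} [AddCommGroup V] [Module (ZMod 2) V] {n : ℕ} (hn : Odd n)
    (v : V) : n • v = v := by
  obtain ⟨s, rfl⟩ := hn
  rw [succ_nsmul, mul_comm, mul_nsmul, two_nsmul, ev4_add, zero_add]

private theorem ev4_mul {E : Type} [Ring E] {G : E} {r : ℕ} (h : G ^ r = 1) :
    G * ∑ i ∈ range r, G ^ i = ∑ i ∈ range r, G ^ i := by
  have h1 : ∑ i ∈ range (r + 1), G ^ i = ∑ i ∈ range r, G ^ (i + 1) + G ^ 0 :=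
    Finset.sum_range_succ' _ _
  rw [Finset.sum_range_succ, h, pow_zero] at h1
  have h2 := add_right_cancel h1
  rw [Finset.mul_sum, Finset.sum_congr rfl fun i _ => (pow_succ' G i).symm]
  exact h2.symm

/-- Central elements `≠ 1` have no fixed points.

Proof. Let `ι = {ζ : R // (ρ ζ) ^ r = 1 ∧ ∀ y, ρ ζ * ρ y = ρ y * ρ ζ}` and
`A ζ = ∑ i ∈ range r, (ρ ζ) ^ i`. These operators commute with each other and with `ρ`;
`ρ ζ * A ζ = A ζ`, so `A ζ * A ζ = r • A ζ = A ζ` (`r` odd, `2 = 0` in `End V` over `ZMod 2`).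
`σ ζ = α ζ`: `U * ρ ζ = ρ (α ζ) * U`, `U` a unit, so `ρ (α ζ) = U * ρ ζ * U⁻¹` has `r`-th power
`1`, and it is central: for `y : R`, `ρ y * U = U * ρ (α^[2 ^ a - 1] y)` (`LDat.iter_q`, as in
`tw_L3_cent` in TwL3.lean). `U * A ζ = A (σ ζ) * U`. By `ev_idem_eigen` and `ev_L3` (`p := 2`,
`K := ZMod 2`; `V` nontrivial because of `hno`) all `A ζ` are scalars `c • 1`, `c = 0` or `c = 1`
in `ZMod 2`. If `A ζ = 1` then `ρ ζ = ρ ζ * A ζ = A ζ = 1`. So `A ζ = 0` if `ρ ζ ≠ 1`.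
Now let `ζ` be as in the statement, `ζ ^ (r ^ k) = 1` (`hR`); the order of `ρ ζ` is `r ^ j` with
`1 ≤ j`; let `ζ' = ζ ^ (r ^ (j - 1))`: `ρ ζ' ≠ 1`, `(ρ ζ') ^ r = 1`, `ρ ζ' w = w`. So
`0 = A ζ' w = r • w = w`. -/
theorem ev_fix {r a : ℕ} (hr : r.Prime) (hr2 : r ≠ 2) {V R : Type} [AddCommGroup V]
    [Module (ZMod 2) V] [Finite V] [Group R] [Finite R] (hR : IsPGroup r R) {α : R →* R}
    {ρ : R →* Module.End (ZMod 2) V} {U : Module.End (ZMod 2) V} (D : LDat (2 ^ a) α ρ U)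
    (hirr : ∀ W : Submodule (ZMod 2) V, (∀ x, ∀ w ∈ W, ρ x w ∈ W) → (∀ w ∈ W, U w ∈ W) →
      W = ⊥ ∨ W = ⊤)
    (hind : ∀ (W : Submodule (ZMod 2) V) (b : ℕ), W ≠ ⊤ → (∀ x, ∀ w ∈ W, ρ x w ∈ W) → 0 < b →
      b < a → (∀ w ∈ W, (U ^ (2 ^ b)) w ∈ W) →
      (∀ w ∈ W, (∑ i ∈ range (2 ^ (a - b)), (U ^ (2 ^ b)) ^ i) w = 0) →
      ∀ x, ∀ w ∈ W, ρ (α^[2 ^ (a - 1)] x) w = ρ x w)
    (hno : ∃ x, ρ (α^[2 ^ (a - 1)] x) ≠ ρ x) (ζ : R) (hζ : ∀ y, ρ ζ * ρ y = ρ y * ρ ζ)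
    (hζ1 : ρ ζ ≠ 1) : ∀ w : V, ρ ζ w = w → w = 0 := by
  classical
  have hfinV : Module.Finite (ZMod 2) V := Module.Finite.of_finite
  have hodd : Odd r := hr.odd_of_ne_two hr2
  have hq : 0 < 2 ^ a := pow_pos two_pos a
  have hnt : Nontrivial V := by
    by_contra hc
    rw [not_nontrivial_iff_subsingleton] at hc
    obtain ⟨x, hx⟩ := hno
    exact hx (LinearMap.ext fun v => Subsingleton.elim _ _)
  have hUu : IsUnit U := IsUnit.of_pow_eq_one D.hq hq.ne'
  let A : {ζ : R // (ρ ζ) ^ r = 1 ∧ ∀ y, ρ ζ * ρ y = ρ y * ρ ζ} → Module.End (ZMod 2) V :=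
    fun ζ => ∑ i ∈ range r, (ρ ζ.1) ^ i
  have hAρ : ∀ i x, A i * ρ x = ρ x * A i := fun i x =>
    Commute.sum_left _ _ _ fun j _ => Commute.pow_left (i.2.2 x) j
  have hA : ∀ i j, A i * A j = A j * A i := fun i j =>
    Commute.sum_right _ _ _ fun l _ => Commute.pow_right (hAρ i j.1) l
  have hGA : ∀ i, ρ i.1 * A i = A i := fun i => ev4_mul i.2.1
  have hid : ∀ i, A i * A i = A i := by
    intro i
    have h1 : ∀ j : ℕ, (ρ i.1) ^ j * A i = A i := by
      intro j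
      induction j with
      | zero => rw [pow_zero, one_mul]
      | succ j ih => rw [pow_succ, mul_assoc, hGA, ih]
    have h2 : A i * A i = ∑ j ∈ range r, (ρ i.1) ^ j * A i := by
      conv_lhs => rw [show A i = ∑ j ∈ range r, (ρ i.1) ^ j from rfl]
      rw [Finset.sum_mul]
    rw [h2, Finset.sum_congr rfl fun j _ => h1 j, Finset.sum_const, Finset.card_range]
    exact ev4_odd hodd _
  have hUpow : ∀ (x : R) (n : ℕ), U * (ρ x) ^ n = (ρ (α x)) ^ n * U := by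
    intro x n
    induction n with
    | zero => simp
    | succ n ih => rw [pow_succ, ← mul_assoc, ih, mul_assoc, D.hU, ← mul_assoc, ← pow_succ]
  have hαr : ∀ x, (ρ x) ^ r = 1 → (ρ (α x)) ^ r = 1 := by
    intro x hx
    apply hUu.mul_right_cancel
    rw [← hUpow, hx, mul_one, one_mul]
  have hαc : ∀ x, (∀ y, ρ x * ρ y = ρ y * ρ x) → ∀ y, ρ (α x) * ρ y = ρ y * ρ (α x) := by
    intro x hx y
    have h1 : ∀ y, ρ (α x) * ρ (α y) = ρ (α y) * ρ (α x) := by
      intro y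
      apply hUu.mul_right_cancel
      rw [mul_assoc, ← D.hU, ← mul_assoc, ← D.hU, mul_assoc, hx, ← mul_assoc, D.hU, mul_assoc,
        D.hU, ← mul_assoc]
    have h2 : ρ y = ρ (α (α^[2 ^ a - 1] y)) := by
      rw [← Function.iterate_succ_apply' (⇑α), Nat.succ_eq_add_one, Nat.sub_add_cancel hq,
        D.iter_q]
    rw [h2]
    exact h1 _
  let σ : {ζ : R // (ρ ζ) ^ r = 1 ∧ ∀ y, ρ ζ * ρ y = ρ y * ρ ζ} →
      {ζ : R // (ρ ζ) ^ r = 1 ∧ ∀ y, ρ ζ * ρ y = ρ y * ρ ζ} :=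
    fun ζ => ⟨α ζ.1, hαr _ ζ.2.1, hαc _ ζ.2.2⟩
  have hUA : ∀ i, U * A i = A (σ i) * U := by
    intro i
    show U * ∑ j ∈ range r, (ρ i.1) ^ j = (∑ j ∈ range r, (ρ (α i.1)) ^ j) * U
    rw [Finset.mul_sum, Finset.sum_mul]
    exact Finset.sum_congr rfl fun j _ => hUpow _ _
  obtain ⟨χ, hχ⟩ := ev_L3 (p := 2) D hirr hind hno A σ hA hAρ hUA (ev_idem_eigen A hA hid)
  have hzero : ∀ i, ρ i.1 ≠ 1 → A i = 0 := by
    intro i hi
    have h01 : ∀ c : ZMod 2, c = 0 ∨ c = 1 := by decide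
    rcases h01 (χ i) with h | h
    · rw [hχ i, h, zero_smul]
    · exfalso
      apply hi
      have h1 : A i = 1 := by rw [hχ i, h, one_smul]
      have h2 := hGA i
      rwa [h1, mul_one] at h2
  intro w hw
  have hex : ∃ k, (ρ ζ) ^ (r ^ k) = 1 := by
    obtain ⟨k, hk⟩ := hR ζ
    exact ⟨k, by rw [← map_pow, hk, map_one]⟩
  have hk := Nat.find_spec hex
  have hk0 : Nat.find hex ≠ 0 := by
    intro h
    rw [h, pow_zero, pow_one] at hk
    exact hζ1 hk
  obtain ⟨j, hj⟩ := Nat.exists_eq_succ_of_ne_zero hk0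
  have hmin : (ρ ζ) ^ (r ^ j) ≠ 1 := Nat.find_min hex (by rw [hj]; exact Nat.lt_succ_self j)
  rw [hj] at hk
  have h1 : (ρ (ζ ^ (r ^ j))) ^ r = 1 := by
    rw [map_pow, ← pow_mul, ← pow_succ]
    exact hk
  have h2 : ∀ y, ρ (ζ ^ (r ^ j)) * ρ y = ρ y * ρ (ζ ^ (r ^ j)) := by
    intro y
    rw [map_pow]
    exact Commute.pow_left (hζ y) _
  have h3 := hzero ⟨ζ ^ (r ^ j), h1, h2⟩ (by
    show ρ (ζ ^ (r ^ j)) ≠ 1
    rw [map_pow]
    exact hmin)
  have h4 : ∀ n : ℕ, ((ρ ζ) ^ n) w = w := by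
    intro n
    induction n with
    | zero => rfl
    | succ n ih => rw [pow_succ, Module.End.mul_apply, hw, ih]
  have h5 : (A ⟨ζ ^ (r ^ j), h1, h2⟩) w = w := by
    show (∑ i ∈ range r, (ρ (ζ ^ (r ^ j))) ^ i) w = w
    rw [LinearMap.sum_apply]
    have h6 : ∀ i ∈ range r, ((ρ (ζ ^ (r ^ j))) ^ i) w = w := by
      intro i _
      rw [map_pow, ← pow_mul]
      exact h4 _
    rw [Finset.sum_congr rfl h6, Finset.sum_const, Finset.card_range]
    exact ev4_odd hodd w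
  rw [h3] at h5
  exact h5.symm

end Pool.Agent.Lib.MP_544bd1_al
end

section

end

section

/-!
Even exponents, squares of Mersenne primes: the irreducible minimal case of the linear theorem.
-/

namespace Pool.Agent.Lib.MP_544bd1_al

open Finset Subgroup

/-- The irreducible minimal case of the linear theorem.

Proof (compare step (S4) in `tw_L`, TwL.lean). `ρ' = ρ.toHomUnits : R →* (End V)ˣ`,
`u = Units.ofPowEqOne U (2 ^ a)`, `u ^ k * ρ' x * (u ^ k)⁻¹ = ρ' (α^[k] x)`, `X = u ^ (2 ^ (a - 1))`,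
`Γ = ρ'.range` (finite `r`-group, normalized by `u`); `X * ρ' x = ρ' x * X ↔ ρ (ξ x) = ρ x`
(`ξ = α^[2 ^ (a - 1)]`). `X ^ 2 = 1`.
* `hmin` of `tw_L4`: as in `tw_L` from `hsub`. `hZ` of `tw_L4` (`X` centralizes the center of `Γ`):
  let `S = {x | ∀ y, ρ x * ρ y = ρ y * ρ x}`, a subgroup of `R`, `α x ∈ S` for `x ∈ S` (as
  `ρ y * U = U * ρ (α^[2 ^ a - 1] y)`); if `S = ⊤` then `ev_abZ` contradicts `hno`; so `S ≠ ⊤` and
  `hsub` applies. In particular `Γ` is not commutative.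
* `tw_L4` (`p := 2`) gives `hcl` and: `g ∈ Γ`, `g⁻¹ * (X * g * X⁻¹)` central ⟹ `g` central.
* `hinv` of `ev_X0`: `c = X * g * X⁻¹ * g ∈ Γ`; `X * c * X⁻¹ = g * (X * g * X⁻¹)` (`X ^ 2 = 1`), so
  `c⁻¹ * (X * c * X⁻¹) = g⁻¹ * (X * g * X⁻¹)⁻¹ * g * (X * g * X⁻¹)`, a commutator of elements of `Γ`,
  so central (`hcl`), so `c` is central.
* `ev_X0` with `E = End V`, `N = Nat.card Γ` (odd), `hfix` from the hypothesis `hfix` here
  (`ζ * A = A` means `ζ (A v) = A v` for all `v`). It gives `ι, γ, X₀`.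
* `μ = X * X₀` commutes with `Γ` and with `u` (`u` commutes with `X` and `X₀`), and with `X`;
  `X` commutes with `X₀`, `μ * μ = X ^ 2 * X₀ ^ 2 = 1`. `W = ker (μ - 1)` is invariant under `ρ` and
  `U`; `(μ - 1) * (μ - 1) = μ * μ - μ - μ + 1 = 0` (`2 = 0`), so `W ≠ ⊥` (otherwise `μ - 1` is
  injective and `V = 0`, contradiction to `hno`). By `hirr` `W = ⊤`, `X * X₀ = 1`, `X₀ = X`.
* Output: `S = ⊤`, `W = ⊤`, `z = x * y * x⁻¹ * y⁻¹` for `x, y : R` with `ρ x * ρ y ≠ ρ y * ρ x`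
  (central by `hcl`, `ρ z ≠ 1`, so no fixed points by `hfix`; `ρ (ξ z) = ρ z` since `X` centralizes
  the center); `X ≠ 1` by `hno`; `g i ∈ R` with `ρ' (g i) = γ i`. -/
theorem ev_Lmin {r a : ℕ} (hr : r.Prime) (hr2 : r ≠ 2) (ha : 0 < a) {V R : Type} [AddCommGroup V]
    [Module (ZMod 2) V] [Finite V] [Group R] [Finite R] (hR : IsPGroup r R) {α : R →* R}
    {ρ : R →* Module.End (ZMod 2) V} {U : Module.End (ZMod 2) V} (D : LDat (2 ^ a) α ρ U)
    (hsub : ∀ S : Subgroup R, S ≠ ⊤ → (∀ x ∈ S, α x ∈ S) →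
      ∀ x ∈ S, ρ (α^[2 ^ (a - 1)] x) = ρ x)
    (hirr : ∀ W : Submodule (ZMod 2) V, (∀ x, ∀ w ∈ W, ρ x w ∈ W) → (∀ w ∈ W, U w ∈ W) →
      W = ⊥ ∨ W = ⊤)
    (hno : ∃ x, ρ (α^[2 ^ (a - 1)] x) ≠ ρ x)
    (hfix : ∀ ζ : R, (∀ y, ρ ζ * ρ y = ρ y * ρ ζ) → ρ ζ ≠ 1 → ∀ w : V, ρ ζ w = w → w = 0) :
    EvOut (α^[2 ^ (a - 1)]) ρ (U ^ (2 ^ (a - 1))) := by
  have hp : Nat.Prime 2 := Nat.prime_two
  have hq0 : 2 ^ a ≠ 0 := pow_ne_zero _ two_ne_zero
  let ρ' : R →* (Module.End (ZMod 2) V)ˣ := ρ.toHomUnits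
  have hρ' : ∀ x, ((ρ' x : (Module.End (ZMod 2) V)ˣ) : Module.End (ZMod 2) V) = ρ x := fun x => rfl
  let u : (Module.End (ZMod 2) V)ˣ := Units.ofPowEqOne U (2 ^ a) D.hq hq0
  have huU : (u : Module.End (ZMod 2) V) = U := rfl
  have hu : u ^ (2 ^ a) = 1 := by
    apply Units.ext
    rw [Units.val_pow_eq_pow_val, huU, D.hq, Units.val_one]
  have hconj : ∀ (k : ℕ) (x : R), u ^ k * ρ' x * (u ^ k)⁻¹ = ρ' (α^[k] x) := by
    intro k x
    rw [mul_inv_eq_iff_eq_mul]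
    apply Units.ext
    rw [Units.val_mul, Units.val_mul, Units.val_pow_eq_pow_val, huU, hρ', hρ']
    exact D.iter k x
  set X : (Module.End (ZMod 2) V)ˣ := u ^ (2 ^ (a - 1)) with hX
  have hXU : (X : Module.End (ZMod 2) V) = U ^ (2 ^ (a - 1)) := by
    rw [hX, Units.val_pow_eq_pow_val, huU]
  have hX2 : X ^ 2 = 1 := by
    rw [hX, ← pow_mul, ← pow_succ, Nat.sub_add_cancel ha, hu]
  have hXX : X * X = 1 := by rw [← pow_two, hX2]
  have hXX' : X * X⁻¹ = 1 := mul_inv_cancel X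
  have hXi : X⁻¹ = X := inv_eq_of_mul_eq_one_left hXX
  have hzx : ∀ x, X * ρ' x = ρ' x * X ↔ ρ (α^[2 ^ (a - 1)] x) = ρ x := by
    intro x
    rw [← hρ', ← hρ', ← Units.ext_iff, ← hconj, mul_inv_eq_iff_eq_mul]
  let Γ : Subgroup (Module.End (ZMod 2) V)ˣ := ρ'.range
  have hΓfin : Finite Γ := Set.finite_range ρ'
  have hΓ : IsPGroup r Γ := hR.of_surjective ρ'.rangeRestrict ρ'.rangeRestrict_surjective
  have huΓ : ∀ x ∈ Γ, u * x * u⁻¹ ∈ Γ := by
    rintro _ ⟨x, rfl⟩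
    have := hconj 1 x
    rw [pow_one] at this
    rw [this]
    exact ⟨_, rfl⟩
  have hpowΓ : ∀ k : ℕ, ∀ x ∈ Γ, u ^ k * x * (u ^ k)⁻¹ ∈ Γ := by
    rintro k _ ⟨x, rfl⟩
    rw [hconj]
    exact ⟨_, rfl⟩
  have hXΓ : ∀ x ∈ Γ, X * x * X⁻¹ ∈ Γ := hpowΓ _
  have hui : ∀ x ∈ Γ, u⁻¹ * x * u ∈ Γ := by
    intro x hx
    have h1 : u ^ (2 ^ a - 1) = u⁻¹ := by
      have h2 : u ^ (2 ^ a - 1) * u = 1 := by
        rw [← pow_succ, Nat.sub_add_cancel (Nat.pos_of_ne_zero hq0), hu]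
      exact eq_inv_of_mul_eq_one_left h2
    have h3 := hpowΓ (2 ^ a - 1) x hx
    rwa [h1, inv_inv] at h3
  -- `X` centralizes the center of `Γ`
  have hZ : ∀ x ∈ Γ, (∀ y ∈ Γ, x * y = y * x) → X * x = x * X := by
    rintro _ ⟨t, rfl⟩ ht
    rw [hzx]
    let S : Subgroup R := (Subgroup.centralizer (Γ : Set (Module.End (ZMod 2) V)ˣ)).comap ρ'
    have hS : ∀ x, x ∈ S ↔ ∀ y ∈ Γ, y * ρ' x = ρ' x * y := by
      intro x
      rw [Subgroup.mem_comap, Subgroup.mem_centralizer_iff]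
      rfl
    have htS : t ∈ S := (hS t).2 fun y hy => (ht y hy).symm
    refine hsub S ?_ ?_ t htS
    · intro hST
      have hab : ∀ x y, ρ x * ρ y = ρ y * ρ x := by
        intro x y
        have hy : y ∈ S := by rw [hST]; trivial
        have h1 := (hS y).1 hy (ρ' x) ⟨x, rfl⟩
        exact congrArg Units.val h1
      obtain ⟨x, hx⟩ := hno
      have : Fact (Nat.Prime 2) := ⟨hp⟩
      exact hx (ev_abZ hr hr2 ha hR hab D x)
    · intro x hx
      rw [hS] at hx ⊢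
      intro y hy
      have h1 := hx _ (hui y hy)
      have h2 : u * ρ' x * u⁻¹ = ρ' (α x) := by
        have h3 := hconj 1 x
        rw [pow_one] at h3
        exact h3
      rw [← h2]
      calc y * (u * ρ' x * u⁻¹) = u * ((u⁻¹ * y * u) * ρ' x) * u⁻¹ := by group
        _ = u * (ρ' x * (u⁻¹ * y * u)) * u⁻¹ := by rw [h1]
        _ = u * ρ' x * u⁻¹ * y := by group
  have hmin : ∀ S : Subgroup (Module.End (ZMod 2) V)ˣ, S ≤ Γ → S ≠ Γ →
      (∀ x ∈ S, u * x * u⁻¹ ∈ S) → ∀ x ∈ S, X * x = x * X := by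
    intro S hSΓ hne huS x hx
    obtain ⟨t, rfl⟩ := hSΓ hx
    rw [hzx]
    apply hsub (S.comap ρ')
    · intro h
      apply hne
      apply le_antisymm hSΓ
      rintro _ ⟨y, rfl⟩
      have : y ∈ S.comap ρ' := by rw [h]; trivial
      exact this
    · intro y hy
      rw [Subgroup.mem_comap] at hy ⊢
      have h1 := huS _ hy
      have h2 := hconj 1 y
      rw [pow_one] at h2
      rw [h2] at h1
      exact h1
    · exact hx
  have hno' : ∃ x ∈ Γ, X * x ≠ x * X := by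
    obtain ⟨x, hx⟩ := hno
    exact ⟨ρ' x, ⟨x, rfl⟩, fun h => hx ((hzx x).1 h)⟩
  obtain ⟨hcl, h2⟩ := tw_L4 hp hr hr2 ha Γ hΓ hu hX huΓ hmin hno' hZ
  have hinv : ∀ g ∈ Γ, ∀ y ∈ Γ, (X * g * X⁻¹ * g) * y = y * (X * g * X⁻¹ * g) := by
    intro g hg y hy
    refine h2 (X * g * X⁻¹ * g) (Γ.mul_mem (hXΓ g hg) hg) (fun w hw => ?_) y hy
    have h3 := hcl g⁻¹ (Γ.inv_mem hg) (X * g * X⁻¹)⁻¹ (Γ.inv_mem (hXΓ g hg)) w hw
    have h4 : (X * g * X⁻¹ * g)⁻¹ * (X * (X * g * X⁻¹ * g) * X⁻¹) =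
        g⁻¹ * (X * g * X⁻¹)⁻¹ * g⁻¹⁻¹ * (X * g * X⁻¹)⁻¹⁻¹ := by
      have h5 : X * (X * g * X⁻¹ * g) * X⁻¹ = g * (X * g * X⁻¹) := by
        calc X * (X * g * X⁻¹ * g) * X⁻¹ = (X * X) * g * (X⁻¹ * g * X⁻¹) := by group
          _ = g * (X * g * X⁻¹) := by rw [hXX, hXi, one_mul]
      rw [h5]
      group
    rw [h4]
    exact h3
  have hodd : Odd (Nat.card Γ) := by
    have hfr : Fact r.Prime := ⟨hr⟩
    obtain ⟨k, hk⟩ := IsPGroup.iff_card.1 hΓ
    rw [hk]
    exact (hr.odd_of_ne_two hr2).pow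
  have hΓN : ∀ g ∈ Γ, g ^ (Nat.card Γ) = 1 := by
    intro x hx
    have h2 : (⟨x, hx⟩ : Γ) ^ Nat.card Γ = 1 := pow_card_eq_one'
    have h3 := congrArg Subtype.val h2
    rw [SubmonoidClass.coe_pow] at h3
    exact h3
  have h11 : (1 : Module.End (ZMod 2) V) + 1 = 0 := by
    refine LinearMap.ext fun v => ?_
    show v + v = 0
    rw [← two_smul (ZMod 2) v, show (2 : ZMod 2) = 0 from rfl, zero_smul]
  have hfix' : ∀ ζ ∈ Γ, (∀ y ∈ Γ, ζ * y = y * ζ) → ζ ≠ 1 →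
      ∀ A : Module.End (ZMod 2) V, (ζ : Module.End (ZMod 2) V) * A = A → A = 0 := by
    rintro _ ⟨t, rfl⟩ ht ht1 A hA
    refine LinearMap.ext fun v => ?_
    refine hfix t (fun y => congrArg Units.val (ht (ρ' y) ⟨y, rfl⟩)) (fun h => ht1 ?_) (A v) ?_
    · exact Units.ext h
    · exact congrArg (fun f : Module.End (ZMod 2) V => f v) hA
  obtain ⟨ι, hι, γ, X₀, hγ, hs1, hs2, hX0, hc1, hc2⟩ := ev_X0 h11 Γ hodd hΓN X hX2 hXΓ hZ hinv hcl
    hfix'
  have hXE : (X : Module.End (ZMod 2) V) * X = 1 := by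
    rw [← Units.val_mul, hXX, Units.val_one]
  have hcX : (X : Module.End (ZMod 2) V) * X₀ = X₀ * X := hc2 X rfl hXΓ
  have hXu : u * X = X * u := by
    rw [hX, ← pow_succ', ← pow_succ]
  have hcu : U * X₀ = X₀ * U := hc2 u hXu huΓ
  have hcuX : U * (X : Module.End (ZMod 2) V) = X * U := congrArg Units.val hXu
  obtain ⟨μ, hμ⟩ : ∃ μ : Module.End (ZMod 2) V, μ = (X : Module.End (ZMod 2) V) * X₀ := ⟨_, rfl⟩
  have hμμ : μ * μ = 1 := by
    rw [hμ]
    calc (X : Module.End (ZMod 2) V) * X₀ * (X * X₀) = X * (X₀ * X) * X₀ := by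
          simp only [mul_assoc]
      _ = X * (X * X₀) * X₀ := by rw [hcX]
      _ = (X * X) * (X₀ * X₀) := by simp only [mul_assoc]
      _ = 1 := by rw [hXE, hX0, one_mul]
  have hμρ : ∀ x, μ * ρ x = ρ x * μ := fun x => by
    rw [hμ]
    exact hc1 (ρ' x) ⟨x, rfl⟩
  have hμU : μ * U = U * μ := by
    rw [hμ]
    calc (X : Module.End (ZMod 2) V) * X₀ * U = X * (X₀ * U) := by rw [mul_assoc]
      _ = (X * U) * X₀ := by rw [← hcu, mul_assoc]
      _ = U * (X * X₀) := by rw [← hcuX, mul_assoc]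
  have hμ1 : μ = 1 := by
    have hW : ∀ w, w ∈ LinearMap.ker (μ - 1) ↔ μ w = w := by
      intro w
      rw [LinearMap.mem_ker, LinearMap.sub_apply, Module.End.one_apply, sub_eq_zero]
    rcases hirr (LinearMap.ker (μ - 1)) (fun x w hw => by
        rw [hW] at hw ⊢
        have := congrArg (fun f : Module.End (ZMod 2) V => f w) (hμρ x)
        simp only [Module.End.mul_apply] at this
        rw [this, hw]) (fun w hw => by
        rw [hW] at hw ⊢
        have := congrArg (fun f : Module.End (ZMod 2) V => f w) hμU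
        simp only [Module.End.mul_apply] at this
        rw [this, hw]) with h | h
    · exfalso
      have hsq : (μ - 1) * (μ - 1) = 0 := by
        have e1 : (μ - 1) * (μ - 1) = μ * μ - μ - μ + 1 := by noncomm_ring
        have e2 : μ + μ = 0 := by
          have := congrArg (fun z => z * μ) h11
          simpa [add_mul] using this
        rw [e1, hμμ, sub_sub, e2, sub_zero, h11]
      have h0 : ∀ v : V, v = 0 := by
        intro v
        have h1 : (μ - 1) v ∈ LinearMap.ker (μ - 1) := by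
          rw [LinearMap.mem_ker]
          exact congrArg (fun f : Module.End (ZMod 2) V => f v) hsq
        rw [h, Submodule.mem_bot] at h1
        have h2 : v ∈ LinearMap.ker (μ - 1) := by
          rw [LinearMap.mem_ker]
          exact h1
        rw [h, Submodule.mem_bot] at h2
        exact h2
      obtain ⟨x, hx⟩ := hno
      apply hx
      refine LinearMap.ext fun v => ?_
      rw [h0 v, map_zero, map_zero]
    · refine LinearMap.ext fun v => ?_
      have : v ∈ LinearMap.ker (μ - 1) := by rw [h]; trivial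
      rw [hW] at this
      exact this
  have hX0X : X₀ = (X : Module.End (ZMod 2) V) := by
    calc X₀ = (X * X) * X₀ := by rw [hXE, one_mul]
      _ = X * μ := by rw [hμ, mul_assoc]
      _ = X := by rw [hμ1, mul_one]
  -- the output
  choose g hg using hγ
  obtain ⟨c, hcΓ, hcX'⟩ := hno'
  have hncomm : ∃ y ∈ Γ, c * y ≠ y * c := by
    by_contra h
    push Not at h
    exact hcX' (hZ c hcΓ h)
  obtain ⟨x, hx⟩ := hcΓ
  obtain ⟨y', ⟨y, hy⟩, hxy⟩ := hncomm
  have hz1 : ρ' (x * y * x⁻¹ * y⁻¹) ≠ 1 := by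
    intro h
    apply hxy
    rw [map_mul, map_mul, map_mul, map_inv, map_inv, hx, hy] at h
    have h3 : c * y' = (c * y' * c⁻¹ * y'⁻¹) * (y' * c) := by group
    rw [h3, h, one_mul]
  have hzc : ∀ w ∈ Γ, ρ' (x * y * x⁻¹ * y⁻¹) * w = w * ρ' (x * y * x⁻¹ * y⁻¹) := by
    intro w hw
    rw [map_mul, map_mul, map_mul, map_inv, map_inv]
    exact hcl (ρ' x) ⟨x, rfl⟩ (ρ' y) ⟨y, rfl⟩ w hw
  have hzfix := hfix (x * y * x⁻¹ * y⁻¹)
    (fun t => congrArg Units.val (hzc (ρ' t) ⟨t, rfl⟩)) (fun h => hz1 (Units.ext h))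
  have hzξ := (hzx (x * y * x⁻¹ * y⁻¹)).1 (hZ _ ⟨_, rfl⟩ hzc)
  refine ⟨⊤, ⊤, x * y * x⁻¹ * y⁻¹, ι, hι, g, fun _ _ => trivial, fun _ _ _ _ => trivial,
    fun _ _ => trivial, trivial, fun w _ => ?_, fun w _ => hzfix w, ?_, fun w _ => ?_,
    fun w _ => ?_⟩
  · rw [hzξ]
  · by_contra hcon
    push Not at hcon
    apply hcX'
    have : X = 1 := by
      apply Units.ext
      rw [hXU, Units.val_one]
      exact LinearMap.ext fun w => hcon w trivial
    rw [this, one_mul, mul_one]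
  · rw [← hXU, ← hX0X, ← hs1, LinearMap.sum_apply]
    refine Finset.sum_congr rfl fun i _ => ?_
    rw [← hg i]
    rfl
  · rw [← hXU, ← hX0X, ← hs2, LinearMap.sum_apply]
    refine Finset.sum_congr rfl fun i _ => ?_
    rw [← hg i, ← map_inv]
    rfl

end Pool.Agent.Lib.MP_544bd1_al
end

section

/-!
Even exponents, squares of Mersenne primes: the linear theorem.
-/

namespace Pool.Agent.Lib.MP_544bd1_al

open Finset Subgroup

/-- `LDat.sub` with a formula for the operator -/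
theorem ev_sub {K V R : Type} [Field K] [AddCommGroup V] [Module K V] [Group R] {q q' k : ℕ}
    {α : R →* R} {ρ : R →* Module.End K V} {U : Module.End K V}
    (D : LDat q α ρ U) (hk : k * q' = q) (W : Submodule K V) (hW : ∀ x, ∀ w ∈ W, ρ x w ∈ W)
    (hWU : ∀ w ∈ W, (U ^ k) w ∈ W)
    (hN : ∀ w ∈ W, (∑ i ∈ range q', (U ^ k) ^ i) w = 0) :
    ∃ (α' : R →* R) (ρ' : R →* Module.End K W) (U' : Module.End K W), LDat q' α' ρ' U' ∧
      (∀ x w, ((ρ' x w : W) : V) = ρ x w) ∧ (∀ (j : ℕ) (x : R), α'^[j] x = α^[k * j] x) ∧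
      ∀ (j : ℕ) (w : W), (((U' ^ j) w : W) : V) = (U ^ (k * j)) w := by
  let α' : R →* R := MonoidHom.mk' (α^[k]) (tw_iter_hom α k)
  have hc : ∀ x, α' x = α^[k] x := fun x => rfl
  have hUk : ∀ x, U ^ k * ρ x = ρ (α' x) * U ^ k := fun x => by
    rw [hc]
    exact D.iter k x
  obtain ⟨ρ', U', h1, h2, h3, h4⟩ := tw_sub hUk W hW hWU
  refine ⟨α', ρ', U', ⟨h3, ?_, ?_⟩, h1, fun j x => ?_, fun j w => ?_⟩
  · refine LinearMap.ext fun w => Subtype.ext ?_
    rw [h4, ← pow_mul, hk, D.hq]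
    rfl
  · refine LinearMap.ext fun w => Subtype.ext ?_
    rw [LinearMap.sum_apply, Submodule.coe_sum]
    simp only [h4]
    have h5 := hN w w.2
    rw [LinearMap.sum_apply] at h5
    exact h5
  · have h5 : (⇑α' : R → R) = α^[k] := funext hc
    rw [h5, ← Function.iterate_mul]
  · rw [h4, ← pow_mul]

/-- transfer of the output from a subgroup -/
theorem EvOut.of_subgroup {V R : Type} [AddCommGroup V] [Module (ZMod 2) V] [Group R] {ξ : R → R}
    {ρ : R →* Module.End (ZMod 2) V} {X : Module.End (ZMod 2) V} (T : Subgroup R) (ξ' : T → T)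
    (hξ : ∀ x : T, ((ξ' x : T) : R) = ξ x) (h : EvOut ξ' (ρ.comp T.subtype) X) : EvOut ξ ρ X := by
  obtain ⟨S, W, z, ι, _, g, h1, h2, h3, h4, h5, h6, h7, h8, h9⟩ := h
  refine ⟨S.map T.subtype, W, z, ι, inferInstance, fun i => g i, ?_, ?_, h3, ⟨z, h4, rfl⟩, ?_, h6,
    h7, h8, ?_⟩
  · rintro _ ⟨x, hx, rfl⟩
    exact ⟨ξ' x, h1 x hx, hξ x⟩
  · rintro _ ⟨x, hx, rfl⟩ w hw
    exact h2 x hx w hw
  · intro w hw
    have h := h5 w hw
    simp only [MonoidHom.comp_apply, Subgroup.coe_subtype] at h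
    rw [← hξ z]
    exact h
  · intro w hw
    exact h9 w hw

/-- transfer of the output from a subspace -/
theorem EvOut.of_submodule {V R : Type} [AddCommGroup V] [Module (ZMod 2) V] [Group R] {ξ : R → R}
    {ρ : R →* Module.End (ZMod 2) V} {X : Module.End (ZMod 2) V} (W : Submodule (ZMod 2) V)
    (ρ' : R →* Module.End (ZMod 2) W) (X' : Module.End (ZMod 2) W)
    (hρ : ∀ x w, ((ρ' x w : W) : V) = ρ x w) (hX : ∀ w, ((X' w : W) : V) = X w)
    (h : EvOut ξ ρ' X') : EvOut ξ ρ X := by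
  obtain ⟨S, W', z, ι, _, g, h1, h2, h3, h4, h5, h6, h7, h8, h9⟩ := h
  refine ⟨S, W'.map W.subtype, z, ι, inferInstance, g, h1, ?_, ?_, h4, ?_, ?_, ?_, ?_, ?_⟩
  · rintro x hx _ ⟨w, hw, rfl⟩
    exact ⟨ρ' x w, h2 x hx w hw, hρ x w⟩
  · rintro _ ⟨w, hw, rfl⟩
    exact ⟨X' w, h3 w hw, hX w⟩
  · rintro _ ⟨w, hw, rfl⟩
    have := congrArg Subtype.val (h5 w hw)
    rw [hρ, hρ] at this
    exact this
  · rintro _ ⟨w, hw, rfl⟩ h
    have h10 : ρ' z w = w := Subtype.ext ((hρ z w).trans h)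
    rw [h6 w hw h10]
    rfl
  · obtain ⟨w, hw, hne⟩ := h7
    refine ⟨w, ⟨w, hw, rfl⟩, fun h => hne (Subtype.ext ((hX w).trans h))⟩
  · rintro _ ⟨w, hw, rfl⟩
    have := congrArg Subtype.val (h8 w hw)
    rw [hX, Submodule.coe_sum] at this
    simp only [hρ] at this
    exact this
  · rintro _ ⟨w, hw, rfl⟩
    have := congrArg Subtype.val (h9 w hw)
    rw [hX, Submodule.coe_sum] at this
    simp only [hρ] at this
    exact this

/-- **The linear theorem.** -/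
theorem ev_L {r : ℕ} (hr : r.Prime) (hr2 : r ≠ 2) (d : ℕ) :
    ∀ (V R : Type) [AddCommGroup V] [Module (ZMod 2) V] [Finite V] [Group R] [Finite R]
      (a : ℕ) (α : R →* R) (ρ : R →* Module.End (ZMod 2) V) (U : Module.End (ZMod 2) V),
      Module.finrank (ZMod 2) V + Nat.card R = d → IsPGroup r R → 0 < a →
      LDat (2 ^ a) α ρ U → (∃ x, ρ (α^[2 ^ (a - 1)] x) ≠ ρ x) →
      EvOut (α^[2 ^ (a - 1)]) ρ (U ^ (2 ^ (a - 1))) := by
  induction d using Nat.strong_induction_on with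
  | _ d ih =>
  intro V R _ _ _ _ _ a α ρ U hd hR ha D hno
  have hfinV : Module.Finite (ZMod 2) V := Module.Finite.of_finite
  by_cases hA : ∃ S : Subgroup R, S ≠ ⊤ ∧ (∀ x ∈ S, α x ∈ S) ∧
      ∃ x ∈ S, ρ (α^[2 ^ (a - 1)] x) ≠ ρ x
  · -- a smaller subgroup
    obtain ⟨S, hS, hαS, x, hx, hne⟩ := hA
    obtain ⟨α', D', hα'⟩ := D.subgroup S hαS
    have hcard : Nat.card S < Nat.card R := by
      have h1 := Subgroup.card_le_card_group S
      have h2 : Nat.card S ≠ Nat.card R := fun h => hS (Subgroup.eq_top_of_card_eq S h)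
      omega
    have h3 := ih (Module.finrank (ZMod 2) V + Nat.card S) (by omega) V S a α'
      (ρ.comp S.subtype) U rfl (hR.to_subgroup S) ha D' ⟨⟨x, hx⟩, by
        intro h
        apply hne
        have h4 : ρ ((α'^[2 ^ (a - 1)] ⟨x, hx⟩ : S) : R) = ρ x := h
        rwa [hα'] at h4⟩
    exact EvOut.of_subgroup S _ (hα' (2 ^ (a - 1))) h3
  by_cases hB : ∃ (W : Submodule (ZMod 2) V) (b : ℕ), W ≠ ⊤ ∧ b < a ∧
      (∀ x, ∀ w ∈ W, ρ x w ∈ W) ∧ (∀ w ∈ W, (U ^ (2 ^ b)) w ∈ W) ∧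
      (∀ w ∈ W, (∑ i ∈ range (2 ^ (a - b)), (U ^ (2 ^ b)) ^ i) w = 0) ∧
      ∃ x, ∃ w ∈ W, ρ (α^[2 ^ (a - 1)] x) w ≠ ρ x w
  · -- a smaller subspace
    obtain ⟨W, b, hWt, hb, hWρ, hWU, hN, x, w, hw, hne⟩ := hB
    have hpow : 2 ^ b * 2 ^ (a - b) = 2 ^ a := by
      rw [← pow_add]
      congr 1
      omega
    obtain ⟨α', ρ', U', D', hρ', hα', hU'⟩ := ev_sub D hpow W hWρ hWU hN
    have hlt : Module.finrank (ZMod 2) W < Module.finrank (ZMod 2) V := Submodule.finrank_lt hWt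
    have hexp : 2 ^ b * 2 ^ (a - b - 1) = 2 ^ (a - 1) := by
      rw [← pow_add]
      congr 1
      omega
    have h3 := ih (Module.finrank (ZMod 2) W + Nat.card R) (by omega) W R (a - b) α' ρ' U' rfl hR
      (by omega) D' ⟨x, by
        intro h
        apply hne
        have h4 := congrArg (fun f : Module.End (ZMod 2) W => ((f ⟨w, hw⟩ : W) : V)) h
        simp only [hρ', hα'] at h4
        rwa [hexp] at h4⟩
    have hfun : (⇑α')^[2 ^ (a - b - 1)] = (⇑α)^[2 ^ (a - 1)] := by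
      funext y
      rw [hα', hexp]
    rw [hfun] at h3
    exact EvOut.of_submodule W ρ' _ hρ' (fun w => by rw [hU', hexp]) h3
  -- the minimal case
  push Not at hA hB
  have hsub : ∀ S : Subgroup R, S ≠ ⊤ → (∀ x ∈ S, α x ∈ S) →
      ∀ x ∈ S, ρ (α^[2 ^ (a - 1)] x) = ρ x := hA
  have hW : ∀ W : Submodule (ZMod 2) V, W ≠ ⊤ → (∀ x, ∀ w ∈ W, ρ x w ∈ W) →
      (∀ w ∈ W, U w ∈ W) → ∀ x, ∀ w ∈ W, ρ (α^[2 ^ (a - 1)] x) w = ρ x w := by
    intro W h1 h2 h3
    apply hB W 0 h1 ha h2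
    · intro w hw
      rw [pow_zero, pow_one]
      exact h3 w hw
    · intro w hw
      rw [pow_zero, pow_one, Nat.sub_zero, D.hN]
      rfl
  have hirr := ev_irr hr hr2 ha hR D hsub hW hno
  have hfix := ev_fix hr hr2 hR D hirr
    (fun W b h1 h2 h3 h4 h5 h6 => hB W b h1 h4 h2 h5 h6) hno
  exact ev_Lmin hr hr2 ha hR D hsub hirr hno hfix

end Pool.Agent.Lib.MP_544bd1_al
end

section

/-!
Even exponents, squares of Mersenne primes: the elements of Lemma Q in a minimal configuration.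
-/

namespace Pool.Agent.Lib.MP_544bd1_al

open Finset Subgroup

/-- an element of odd order whose square acts trivially acts trivially -/
theorem ev_sq_one {M : Type} [Monoid M] {g : M} {N : ℕ} (hN : Odd N) (h : g ^ N = 1)
    (h2 : g ^ 2 = 1) : g = 1 := by
  obtain ⟨k, rfl⟩ := hN
  rw [pow_succ, pow_mul, h2, one_pow, one_mul] at h
  exact h

theorem ev_odd_pow {r : ℕ} (hr : r.Prime) (hr2 : r ≠ 2) (k : ℕ) : Odd (r ^ k) :=
  (hr.odd_of_ne_two hr2).pow

theorem ev_conj_iter {F : Type} [Group F] {R : Subgroup F} {u : F} {α : R →* R}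
    (hα : ∀ y : R, ((α y : R) : F) = u * y * u⁻¹) (k : ℕ) (y : R) :
    ((α^[k] y : R) : F) = u ^ k * y * (u ^ k)⁻¹ := by
  induction k with
  | zero => simp
  | succ k ih =>
    rw [Function.iterate_succ_apply', hα, ih, pow_succ']
    group

/-- The linear data of a minimal configuration. -/
theorem ev_data {F : Type} [Group F] [Finite F] {r a M : ℕ} (hr : r.Prime) (hr2 : r ≠ 2)
    (hM : Odd M) (hexp : ∀ x : F, x ^ (M * 2 ^ a) = 1) (Q R : Subgroup F)
    [hQn : Q.Normal] {u : F} (D : EvMin r a Q R u) :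
    ∃ (V : Type) (_ : AddCommGroup V) (_ : Module (ZMod 2) V) (_ : Finite V)
      (ρ : F →* Module.End (ZMod 2) V) (φ : Q → V), Function.Surjective φ ∧
      (∀ x y, φ (x * y) = φ x + φ y) ∧
      (∀ (g : F) (x : Q), φ ⟨g * x * g⁻¹, hQn.conj_mem _ x.2 g⟩ = ρ g (φ x)) ∧
      (∀ q : Q, φ q = 0 → (∀ g ∈ R, g * (q : F) = q * g) ∧ ∀ y ∈ Q, (q : F) * y = y * q) ∧
      ∃ α : R →* R, (∀ y : R, ((α y : R) : F) = u * y * u⁻¹) ∧
        LDat (2 ^ a) α (ρ.comp R.subtype) (ρ u) ∧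
        ∃ g : R, (ρ.comp R.subtype) (α^[2 ^ (a - 1)] g) ≠ (ρ.comp R.subtype) g := by
  have hcop : Nat.Coprime M (2 ^ a) := Nat.Coprime.pow_right a (Nat.coprime_two_right.2 hM)
  obtain ⟨V, _, _, _, ρ, φ, hφs, hφa, hφρ, hρR, hker⟩ := ev_module hr hr2 Q R D
  refine ⟨V, inferInstance, inferInstance, inferInstance, ρ, φ, hφs, hφa, hφρ, hker, ?_⟩
  -- conjugation by `u`
  let α : R →* R := MonoidHom.mk' (fun y => ⟨u * y * u⁻¹, D.huR y y.2⟩) (by
    intro y w
    apply Subtype.ext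
    simp only [Subgroup.coe_mul]
    group)
  have hα : ∀ y : R, ((α y : R) : F) = u * y * u⁻¹ := fun y => rfl
  have hαk := ev_conj_iter hα
  refine ⟨α, hα, ?_, ?_⟩
  · have hu2 : ∀ y ∈ Q, (y * u) ^ (2 ^ a) = 1 := by
      intro y hy
      apply tw_PP hcop hexp
      apply D.hQ
      rw [← QuotientGroup.eq_one_iff, QuotientGroup.mk_pow, QuotientGroup.mk_mul,
        (QuotientGroup.eq_one_iff y).2 hy, one_mul, ← QuotientGroup.mk_pow, D.hu,
        QuotientGroup.mk_one]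
    refine ⟨?_, ?_, ?_⟩
    · intro y
      simp only [MonoidHom.comp_apply, Subgroup.coe_subtype]
      rw [hα, ← map_mul, ← map_mul]
      congr 1
      group
    · rw [← map_pow, D.hu, map_one]
    · apply LinearMap.ext
      intro v
      obtain ⟨y, rfl⟩ := hφs v
      rw [LinearMap.zero_apply]
      exact tw_norm_zero Q ρ φ hφa hφρ D.hu y (hu2 y y.2)
  · by_contra hcon
    push Not at hcon
    simp only [MonoidHom.comp_apply, Subgroup.coe_subtype, hαk] at hcon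
    let C : Subgroup F :=
      { carrier := {g | g ∈ R ∧ ∀ q ∈ Q, g * q = q * g}
        mul_mem' := by
          rintro g h ⟨hg, hg'⟩ ⟨hh, hh'⟩
          exact ⟨R.mul_mem hg hh, fun q hq => by
            rw [mul_assoc, hh' q hq, ← mul_assoc, hg' q hq, mul_assoc]⟩
        one_mem' := ⟨R.one_mem, fun q _ => by rw [one_mul, mul_one]⟩
        inv_mem' := by
          rintro g ⟨hg, hg'⟩
          exact ⟨R.inv_mem hg, fun q hq => by
            rw [inv_mul_eq_iff_eq_mul, ← mul_assoc, hg' q hq, mul_inv_cancel_right]⟩ }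
    have hRC : R ≤ C := by
      apply D.gen
      intro g hg hgx
      refine ⟨hg, hρR g hg ?_⟩
      have h1 := hcon ⟨g, hg⟩
      have h2 : ρ g⁻¹ = ρ g := by rw [← h1]; exact congrArg ρ hgx.symm
      obtain ⟨k, hk⟩ := D.hR ⟨g, hg⟩
      have hk' : g ^ (r ^ k) = 1 := by
        have := congrArg Subtype.val hk
        simpa using this
      apply ev_sq_one (ev_odd_pow hr hr2 k) (by rw [← map_pow, hk', map_one])
      rw [pow_two]
      nth_rewrite 1 [← h2]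
      rw [← map_mul, inv_mul_cancel, map_one]
    obtain ⟨g, hg, q, hq, hne⟩ := D.ne
    exact hne ((hRC hg).2 q hq)

/-- primes which are not exceptional do not occur (Theorem L) -/
theorem ev_nonexc {F : Type} [Group F] [Finite F] {r a M : ℕ} (hr : r.Prime) (hr2 : r ≠ 2)
    (ha : 0 < a) (hM : Odd M) (hexp : ∀ x : F, x ^ (M * 2 ^ a) = 1) (Q R : Subgroup F)
    [hQn : Q.Normal] {u : F} (D : EvMin r a Q R u) :
    ∃ j s : ℕ, 1 ≤ j ∧ j ≤ a ∧ 0 < s ∧ r ^ s + 1 = 2 ^ j := by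
  by_contra hcon
  push Not at hcon
  obtain ⟨V, _, _, _, ρ, φ, _, _, _, _, α, hα, hD, g, hg⟩ := ev_data hr hr2 hM hexp Q R D
  have : Fact (Nat.Prime 2) := ⟨Nat.prime_two⟩
  exact hg (tw_LZ hr hr2 ha hcon D.hR hD g)

/-- The elements of Lemma Q. -/
theorem ev_elems {F : Type} [Group F] [Finite F] {r a M : ℕ} (hr : r.Prime) (hr2 : r ≠ 2)
    (ha : 0 < a) (hM : Odd M) (hexp : ∀ x : F, x ^ (M * 2 ^ a) = 1) (Q R : Subgroup F)
    [hQn : Q.Normal] {u : F} (D : EvMin r a Q R u) (hRr : ∀ g ∈ R, g ^ r = 1) :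
    ∃ x v z₁ z₂ : F, x ^ 2 = 1 ∧ v ^ 2 = 1 ∧ v ≠ 1 ∧ x * v = v * x ∧ z₁ ^ r = 1 ∧ z₂ ^ r = 1 ∧
      z₁ * x = x * z₁ ∧ z₂ * (x * v) = (x * v) * z₂ ∧
      (∀ i j : ℕ, (z₁ ^ i * v * (z₁ ^ i)⁻¹) * (z₁ ^ j * v * (z₁ ^ j)⁻¹) =
        (z₁ ^ j * v * (z₁ ^ j)⁻¹) * (z₁ ^ i * v * (z₁ ^ i)⁻¹)) ∧ (v * z₁) ^ r = 1 ∧
      (∀ i j : ℕ, (z₂ ^ i * v * (z₂ ^ i)⁻¹) * (z₂ ^ j * v * (z₂ ^ j)⁻¹) =
        (z₂ ^ j * v * (z₂ ^ j)⁻¹) * (z₂ ^ i * v * (z₂ ^ i)⁻¹)) ∧ (v * z₂) ^ r = 1 := by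
  obtain ⟨V, _, _, _, ρ, φ, hφs, hφa, hφρ, hker, α, hα, hD, hno⟩ := ev_data hr hr2 hM hexp Q R D
  have hαk := ev_conj_iter hα
  set x : F := u ^ (2 ^ (a - 1)) with hx
  have hx2 : x ^ 2 = 1 := by
    rw [hx, ← pow_mul, ← pow_succ, Nat.sub_add_cancel ha, D.hu]
  obtain ⟨S, W, z, ι, _, g, h1, h2, h3, h4, h5, h6, h7, h8, h9⟩ :=
    ev_L hr hr2 _ V R a α (ρ.comp R.subtype) (ρ u) rfl D.hR ha hD hno
  simp only [MonoidHom.comp_apply, Subgroup.coe_subtype, hαk, ← map_pow] at h1 h2 h3 h5 h6 h7 h8 h9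
  -- correct `z`
  let N : Subgroup F :=
    { carrier := {y | (∃ h : y ∈ R, (⟨y, h⟩ : R) ∈ S) ∧ ∀ w ∈ W, ρ y w = w}
      mul_mem' := by
        rintro y y' ⟨⟨h, hS⟩, hy⟩ ⟨⟨h', hS'⟩, hy'⟩
        refine ⟨⟨R.mul_mem h h', S.mul_mem hS hS'⟩, fun w hw => ?_⟩
        rw [map_mul, Module.End.mul_apply, hy' w hw, hy w hw]
      one_mem' := ⟨⟨R.one_mem, S.one_mem⟩, fun w _ => by rw [map_one]; rfl⟩
      inv_mem' := by
        rintro y ⟨⟨h, hS⟩, hy⟩
        refine ⟨⟨R.inv_mem h, S.inv_mem hS⟩, fun w hw => ?_⟩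
        conv_lhs => rw [← hy w hw]
        rw [← Module.End.mul_apply, ← map_mul, inv_mul_cancel, map_one]
        rfl }
  have hNR : N ≤ R := fun y hy => hy.1.1
  have hNp : IsPGroup r N := D.hR.to_le hNR
  have hxx : ∀ w, ρ x (ρ x w) = w := by
    intro w
    rw [← Module.End.mul_apply, ← map_mul, ← pow_two, hx2, map_one]
    rfl
  have hxinv : x⁻¹ = x := by
    rw [inv_eq_iff_mul_eq_one, ← pow_two, hx2]
  have hNx : ∀ y ∈ N, x * y * x⁻¹ ∈ N := by
    rintro y ⟨⟨h, hS⟩, hy⟩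
    have h10 := h1 ⟨y, h⟩ hS
    refine ⟨?_, fun w hw => ?_⟩
    · have h11 : ((α^[2 ^ (a - 1)] ⟨y, h⟩ : R) : F) = x * y * x⁻¹ := hαk _ _
      refine ⟨h11 ▸ (α^[2 ^ (a - 1)] ⟨y, h⟩).2, ?_⟩
      convert h10 using 1
      exact Subtype.ext h11.symm
    · rw [map_mul, map_mul, Module.End.mul_apply, Module.End.mul_apply, hxinv,
        hy _ (h3 w hw), hxx]
  have hzN : (z : F)⁻¹ * (x * z * x⁻¹) ∈ N := by
    have h10 := S.mul_mem (S.inv_mem h4) (h1 z h4)
    have h11 : (((z⁻¹ * α^[2 ^ (a - 1)] z : R)) : F) = (z : F)⁻¹ * (x * z * x⁻¹) := by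
      rw [Subgroup.coe_mul, hαk]
      rfl
    refine ⟨⟨h11 ▸ (z⁻¹ * α^[2 ^ (a - 1)] z).2, ?_⟩, fun w hw => ?_⟩
    · convert h10 using 1
      exact Subtype.ext h11.symm
    · rw [map_mul, Module.End.mul_apply, h5 w hw, ← Module.End.mul_apply, ← map_mul,
        inv_mul_cancel, map_one]
      rfl
  obtain ⟨y, hy, hxy⟩ := tw_abz_fix hr Nat.prime_two hr2 (k := 1) (r := x)
    (by rw [pow_one]; exact hx2) N hNp hNx hzN
  have hyz : y = z * ((z : F)⁻¹ * y) := by group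
  have hyR : y ∈ R := by
    rw [hyz]
    exact R.mul_mem z.2 (hNR hy)
  have hρy : ∀ w ∈ W, ρ y w = ρ z w := by
    intro w hw
    rw [hyz, map_mul, Module.End.mul_apply, hy.2 w hw]
  obtain ⟨s, d, e1, e2, e3, e4, e5⟩ := ev_M1 (r := r) Q R ρ φ hφs hφa hφρ hker hx2 (hRr y hyR)
    hyR hxy.symm W h3 (fun w hw => by rw [hρy w hw]; exact h2 z h4 w hw)
    (fun w hw h => h6 w hw (by rw [← hρy w hw]; exact h)) h7 (fun i => (g i : F))
    (fun i => (g i).2) h8 h9
  obtain ⟨v, z₂, f1, f2, f3, f4, f5, f6, f7, f8, f9⟩ := ev_M2 hr hr2 Q R D.hQ ρ φ hφa hφρ hker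
    hx2 (hRr y hyR) hyR hxy.symm s d e1 e2 e3 e4 e5
  exact ⟨x, v, y, z₂, hx2, f1, f2, f3, hRr y hyR, f4, hxy.symm, f5, f6, f7, f8, f9⟩

end Pool.Agent.Lib.MP_544bd1_al
end
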