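import Mathlib
import Pool.Agent.Lib.MP_544bd1_al.TwU1
import Pool.Agent.Lib.MP_544bd1_al.TwF4
import Pool.Agent.Lib.MP_544bd1_al.FrB
import Pool.Agent.Lib.MP_544bd1_al.GpOX
import Pool.Agent.Lib.MP_544bd1_al.EvD
import Pool.Agent.Lib.MP_544bd1_al.EvN
import Pool.Agent.Lib.MP_544bd1_al.TwP1
import Pool.Agent.Lib.MP_544bd1_al.TwQ
import Pool.Agent.Lib.MP_544bd1_al.Defs
import Pool.Agent.Lib.MP_544bd1_al.E5.Tab1

section

/-!
Even exponents, squares of Mersenne primes: Lemma Q.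
-/

namespace Pool.Agent.Lib.MP_544bd1_al

open Subgroup

variable {G : Type} [Group G]

/-- Claim 1 of Lemma Q (Claim 2 is the same statement for `x * v` in place of `x`).

Proof. `T = closure {x * z, v * k}`, finite and solvable by `H.h2`. `x ∈ T` and `z ∈ T` by
`tw_coprime_comm` (`M := 2`, `P := q`, `x ^ 2 = 1`, `z ^ q = 1`, `x * z = z * x`).
`(v * k)⁻¹ * x * (v * k) = k⁻¹ * x * k = x * k * k` (as `v` commutes with `x` and `x * k⁻¹ * x = k`),
so `k ^ 2 ∈ T`, so `k ∈ T` (`k ^ q = 1`, `q` odd), so `v ∈ T`. `ev_B` for the group `↥T`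
(`tw_exp_sub`, `N * q = n`) gives `InO N ⊤ ⟨v, _⟩`, so `InO N T v` (`InO.top_iff`). Now `InO.mono`. -/
theorem ev_Q1 {n N q : ℕ} (H : TwG n G) (hq : q.Prime) (hq2 : q ≠ 2) (hn : n = N * q)
    (hqN : ¬ q ∣ N) {x v z k : G} (hx : x ^ 2 = 1) (hv : v ^ 2 = 1) (hxv : x * v = v * x)
    (hz : z ^ q = 1) (hzx : z * x = x * z)
    (hc : ∀ i j : ℕ, (z ^ i * v * (z ^ i)⁻¹) * (z ^ j * v * (z ^ j)⁻¹) =
      (z ^ j * v * (z ^ j)⁻¹) * (z ^ i * v * (z ^ i)⁻¹))
    (hP : (v * z) ^ q = 1) (hk : k ^ q = 1) (hkx : x * k * x = k⁻¹) :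
    InO N (closure {v, k}) v := by
  have hqo : Odd q := hq.odd_of_ne_two hq2
  have hcop2 : Nat.Coprime 2 q := (Nat.coprime_primes Nat.prime_two hq).2 (Ne.symm hq2)
  have hN : 0 < N := by
    rcases Nat.eq_zero_or_pos N with h | h
    · exact absurd (dvd_zero q) (h ▸ hqN)
    · exact h
  have hexp : ∀ y : G, y ^ (N * q) = 1 := by
    intro y; rw [← hn]; exact H.hexp y
  set T := closure {x * z, v * k} with hT
  have hfin : Finite T := (H.h2 (x * z) (v * k)).1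
  have hsol : Group.IsSolvable T := (H.h2 (x * z) (v * k)).2
  have hxzT : x * z ∈ T := subset_closure (by simp)
  have hvkT : v * k ∈ T := subset_closure (by simp)
  obtain ⟨h1, h2⟩ := tw_coprime_comm hcop2 hx hz hzx.symm
  have hxT : x ∈ T := (zpowers_le.2 hxzT) h1
  have hzT : z ∈ T := (zpowers_le.2 hxzT) h2
  have hx' := fr_inv_of_sq hx
  have hx1 := fr_mul_self hx
  have hkx' : x * k⁻¹ * x = k := by
    have h3 : (x * k * x)⁻¹ = x⁻¹ * k⁻¹ * x⁻¹ := by group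
    rw [hkx, inv_inv, hx'] at h3
    exact h3.symm
  have h3 : (v * k)⁻¹ * x * (v * k) = x * (k * k) := by
    calc (v * k)⁻¹ * x * (v * k) = k⁻¹ * v⁻¹ * (x * v) * k := by group
      _ = k⁻¹ * v⁻¹ * (v * x) * k := by rw [hxv]
      _ = k⁻¹ * x * k := by group
      _ = (x * x) * k⁻¹ * x * k := by rw [hx1, one_mul]
      _ = x * (x * k⁻¹ * x) * k := by group
      _ = x * (k * k) := by rw [hkx', mul_assoc]
  have hkk : k * k ∈ T := by
    have h4 : x * (k * k) ∈ T := by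
      rw [← h3]
      exact T.mul_mem (T.mul_mem (T.inv_mem hvkT) hxT) hvkT
    have h5 := T.mul_mem (T.inv_mem hxT) h4
    rwa [inv_mul_cancel_left] at h5
  have hkT : k ∈ T := by
    have h4 := fr_sqrt hqo hk
    rw [← pow_mul, mul_comm, pow_mul, pow_two] at h4
    rw [← h4]
    exact T.pow_mem hkk _
  have hvT : v ∈ T := by
    have h4 := T.mul_mem hvkT (T.inv_mem hkT)
    rwa [mul_inv_cancel_right] at h4
  have hB := ev_B (F := T) hq hq2 hqN hN hsol (tw_exp_sub hexp T) (v := ⟨v, hvT⟩) (z := ⟨z, hzT⟩)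
    (Subtype.ext (by simpa using hv)) (Subtype.ext (by simpa using hz))
    (by
      intro i j
      apply Subtype.ext
      simpa using hc i j)
    (Subtype.ext (by simpa using hP))
  rw [InO.top_iff] at hB
  refine hB.mono ?_ (subset_closure (by simp))
  rw [Subgroup.closure_le]
  rintro w (rfl | rfl)
  · exact hvT
  · exact hkT

/-- an inverted element of odd order lifts to an inverted element -/
private theorem ev_lift {F Y : Type} [Group F] [Group Y] {N q : ℕ} (hq : q.Prime) (hq2 : q ≠ 2)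
    (hcop : Nat.Coprime N q) (hexp : ∀ x : F, x ^ (N * q) = 1) (f : F →* Y)
    (hf : Function.Surjective f) {x : F} (hx : x ^ 2 = 1) {y : Y} (hy : y ^ q = 1)
    (hxy : f x * y * f x = y⁻¹) : ∃ b : F, b ^ q = 1 ∧ x * b * x = b⁻¹ ∧ f b = y := by
  have hm : Odd q := hq.odd_of_ne_two hq2
  have hx1 := fr_mul_self hx
  have hx' := fr_inv_of_sq hx
  have hfx : f x * f x = 1 := by rw [← map_mul, hx1, map_one]
  have hfx' : (f x)⁻¹ = f x := by rw [inv_eq_iff_mul_eq_one, hfx]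
  obtain ⟨g, hg⟩ := hf (y ^ ((q + 1) / 2))
  obtain ⟨h, hh⟩ : ∃ h, h = x * (g⁻¹ * x * g) := ⟨_, rfl⟩
  have hinv : x * h * x = h⁻¹ := by
    rw [hh]
    calc x * (x * (g⁻¹ * x * g)) * x = (x * x) * (g⁻¹ * x * g) * x := by group
      _ = (g⁻¹ * x * g) * x := by rw [hx1, one_mul]
      _ = (g⁻¹ * x⁻¹ * g) * x⁻¹ := by rw [hx']
      _ = (x * (g⁻¹ * x * g))⁻¹ := by group
  have hconj : f x * y ^ ((q + 1) / 2) * f x = (y ^ ((q + 1) / 2))⁻¹ := by
    have h1 : f x * y * (f x)⁻¹ = y⁻¹ := by rw [hfx']; exact hxy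
    have h2 := conj_pow (i := (q + 1) / 2) (a := f x) (b := y)
    rw [h1, hfx', inv_pow] at h2
    exact h2.symm
  have hfh : f h = y := by
    rw [hh, map_mul, map_mul, map_mul, map_inv, hg]
    have h3 : f x * (y ^ ((q + 1) / 2))⁻¹ * f x = y ^ ((q + 1) / 2) := by
      rw [← hconj]
      calc f x * (f x * y ^ ((q + 1) / 2) * f x) * f x
          = (f x * f x) * y ^ ((q + 1) / 2) * (f x * f x) := by group
        _ = y ^ ((q + 1) / 2) := by rw [hfx, one_mul, mul_one]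
    calc f x * ((y ^ ((q + 1) / 2))⁻¹ * f x * y ^ ((q + 1) / 2))
        = (f x * (y ^ ((q + 1) / 2))⁻¹ * f x) * y ^ ((q + 1) / 2) := by group
      _ = y := by rw [h3, ← pow_two, fr_sqrt hm hy]
  obtain ⟨l, hl1, hl2⟩ := Nat.chineseRemainder hcop.symm 1 0
  have hl3 : N ∣ l := (Nat.modEq_zero_iff_dvd).1 hl2
  refine ⟨h ^ l, ?_, ?_, ?_⟩
  · obtain ⟨c, hc⟩ := hl3
    rw [← pow_mul, hc, show N * c * q = N * q * c by ring, pow_mul, hexp, one_pow]
  · have h2 := conj_pow (i := l) (a := x) (b := h)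
    rw [hx', hinv, inv_pow] at h2
    exact h2.symm
  · rw [map_pow, hfh]
    have h1 : y ^ l = y ^ 1 := by
      rw [pow_eq_pow_iff_modEq]
      exact hl1.of_dvd (orderOf_dvd_of_pow_eq_one hy)
    rw [h1, pow_one]

/-- **Lemma Q.**

Proof. `N` is even (`v ≠ 1`, `v ^ 2 = 1`, `v ^ (N * q) = 1`, `q` odd), so `v ^ N = 1`. `tw_adjoin`
(`M := N`, `P := q`, `c := v`, `w := x`; `x⁻¹ * v * x = v`) gives a finite solvable `T₂` with
`v, x ∈ T₂`, `¬ InO N T₂ v`. In the group `↥T₂` let `f : T₂ →* Y = T₂ ⧸ krad N T₂`, `B = krad q Y`: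
`krad N Y = ⊥` (`tw_krad_quot`), `y ^ q = 1` for `y ∈ B` (`tw_krad_pow`). `f v` does not centralize
`B`: otherwise `f v ∈ B` by `fr_fitting` (`k := q`, `l := N`), so `(f v) ^ q = 1 = (f v) ^ 2`,
`f v = 1`, `v ∈ krad N T₂`, contradiction (`tw_mem_krad_iff`, `InO.top_iff`). By `fr_F3` (`m := q`,
`A := B`, `z := f v`, `x := f x`) there is `e ∈ B`, `e ≠ 1`, `f v * e * f v = e⁻¹` and
`f x * e * f x = e` or `= e⁻¹`. Let `x' = x` and `z' = z1` in the second case, `x' = x * v` and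
`z' = z2` in the first case: `x' ^ 2 = 1`, `f x' * e * f x' = e⁻¹` in both cases
(`f v * e * f v = e⁻¹`, so `(f x * f v) * e * (f x * f v) = f x * e⁻¹ * f x = e⁻¹`).
Lift: there is `k ∈ T₂` with `k ^ q = 1`, `x' * k * x' = k⁻¹`, `f k = e` (like `fr_lift_inv`: let
`y = e ^ ((q + 1) / 2)`, so `y ^ 2 = e`, `f x' * y * f x' = y⁻¹`; `g` a lift of `y`;
`k₀ = x' * g⁻¹ * x' * g` maps to `y * y = e` and `x' * k₀ * x' = k₀⁻¹`; `k = k₀ ^ l` with
`l ≡ 1 mod q`, `l ≡ 0 mod N`, `Nat.chineseRemainder`).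
`ev_Q1` for `x'`, `v`, `z'`, `k` (as elements of `G`) gives `InO N (closure {v, k}) v`, so
`(v⁻¹ * (k⁻¹ * v * k)) ^ N = 1` (`InO.comm_odd`), and applying `f`:
`(f v * (e⁻¹ * f v * e)) ^ N = 1`, where `f v * e⁻¹ * f v * e = e * e`. So `(e * e) ^ N = 1`,
`(e * e) ^ q = 1`, `e * e = 1` (`tw_one`), and `e ^ q = 1`, `q` odd: `e = 1`, contradiction. -/
theorem ev_Q {n N q : ℕ} (H : TwG n G) (hq : q.Prime) (hq2 : q ≠ 2) (hn : n = N * q)
    (hqN : ¬ q ∣ N) (hno : NoN N G) {x v z1 z2 : G} (hx : x ^ 2 = 1) (hv : v ^ 2 = 1)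
    (hv1 : v ≠ 1) (hxv : x * v = v * x) (hz1 : z1 ^ q = 1) (hz2 : z2 ^ q = 1)
    (hzx1 : z1 * x = x * z1) (hzx2 : z2 * (x * v) = (x * v) * z2)
    (hc1 : ∀ i j : ℕ, (z1 ^ i * v * (z1 ^ i)⁻¹) * (z1 ^ j * v * (z1 ^ j)⁻¹) =
      (z1 ^ j * v * (z1 ^ j)⁻¹) * (z1 ^ i * v * (z1 ^ i)⁻¹))
    (hP1 : (v * z1) ^ q = 1)
    (hc2 : ∀ i j : ℕ, (z2 ^ i * v * (z2 ^ i)⁻¹) * (z2 ^ j * v * (z2 ^ j)⁻¹) =
      (z2 ^ j * v * (z2 ^ j)⁻¹) * (z2 ^ i * v * (z2 ^ i)⁻¹))
    (hP2 : (v * z2) ^ q = 1) : False := by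
  have hqo : Odd q := hq.odd_of_ne_two hq2
  have hcop2 : Nat.Coprime 2 q := (Nat.coprime_primes Nat.prime_two hq).2 (Ne.symm hq2)
  have hcop : Nat.Coprime N q := ((Nat.Prime.coprime_iff_not_dvd hq).2 hqN).symm
  have hN : 0 < N := by
    rcases Nat.eq_zero_or_pos N with h | h
    · exact absurd (dvd_zero q) (h ▸ hqN)
    · exact h
  have hexp : ∀ y : G, y ^ (N * q) = 1 := by
    intro y; rw [← hn]; exact H.hexp y
  have hvo : orderOf v = 2 := orderOf_eq_prime hv hv1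
  have h2N : 2 ∣ N := by
    have h1 : 2 ∣ N * q := by
      rw [← hvo]
      exact orderOf_dvd_of_pow_eq_one (hexp v)
    exact hcop2.dvd_of_dvd_mul_right h1
  have hvN : v ^ N = 1 := by
    obtain ⟨c, hc⟩ := h2N
    rw [hc, pow_mul, hv, one_pow]
  obtain ⟨T, hfin, hsol, hvT, hxT, hnot⟩ := tw_adjoin H hn hcop hno hvN hv1 (w := x) (by
    have h1 : x⁻¹ * v * x = v := by
      rw [mul_assoc, ← hxv, inv_mul_cancel_left]
    rw [h1]
    exact mem_zpowers v)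
  have hexpT := tw_exp_sub hexp T
  have hexpY : ∀ y : T ⧸ krad N T, y ^ (N * q) = 1 := tw_exp_quot hexpT _
  have hsolY : Group.IsSolvable (T ⧸ krad N T) :=
    Group.isSolvable_of_surjective (QuotientGroup.mk'_surjective (krad N T))
  have hbotY : krad N (T ⧸ krad N T) = ⊥ := tw_krad_quot hcop hexpT
  have hBpow := tw_krad_pow hcop.symm (tw_exp_comm hexpY)
  set f : T →* T ⧸ krad N T := QuotientGroup.mk' (krad N T) with hf
  have hfs : Function.Surjective f := QuotientGroup.mk'_surjective (krad N T)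
  have hf1 : ∀ g : T, f g = 1 ↔ g ∈ krad N T := by
    intro g
    rw [hf, QuotientGroup.mk'_apply, QuotientGroup.eq_one_iff]
  have hfv2 : (f ⟨v, hvT⟩) ^ 2 = 1 := by
    rw [← map_pow, show (⟨v, hvT⟩ : T) ^ 2 = 1 from Subtype.ext (by simpa using hv), map_one]
  have hfx2 : (f ⟨x, hxT⟩) ^ 2 = 1 := by
    rw [← map_pow, show (⟨x, hxT⟩ : T) ^ 2 = 1 from Subtype.ext (by simpa using hx), map_one]
  have hfxv : f ⟨x, hxT⟩ * f ⟨v, hvT⟩ = f ⟨v, hvT⟩ * f ⟨x, hxT⟩ := by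
    rw [← map_mul, ← map_mul]
    congr 1
    exact Subtype.ext hxv
  have hne : ∃ y ∈ krad q (T ⧸ krad N T), f ⟨v, hvT⟩ * y ≠ y * f ⟨v, hvT⟩ := by
    by_contra hcon
    push Not at hcon
    have h1 := fr_fitting hcop.symm hq.pos hN hsolY (tw_exp_comm hexpY) hbotY hcon
    have h2 : f ⟨v, hvT⟩ = 1 := tw_one hcop2 hfv2 (hBpow _ h1)
    have h3 := (hf1 _).1 h2
    rw [tw_mem_krad_iff hcop hexpT, InO.top_iff] at h3
    exact hnot h3
  have hBn := krad_normal q (T ⧸ krad N T)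
  obtain ⟨e, heB, he1, hev, hex⟩ := fr_F3 hqo (krad q (T ⧸ krad N T)) hBpow hfx2 hfv2 hfxv
    (by
      intro a ha
      have h1 := hBn.conj_mem a ha (f ⟨x, hxT⟩)
      rwa [fr_inv_of_sq hfx2] at h1)
    (by
      intro a ha
      have h1 := hBn.conj_mem a ha (f ⟨v, hvT⟩)
      rwa [fr_inv_of_sq hfv2] at h1) hne
  have heq : e ^ q = 1 := hBpow e heB
  have fin : ∀ (x' z' : G) (hx'T : x' ∈ T), x' ^ 2 = 1 → x' * v = v * x' → z' ^ q = 1 →
      z' * x' = x' * z' →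
      (∀ i j : ℕ, (z' ^ i * v * (z' ^ i)⁻¹) * (z' ^ j * v * (z' ^ j)⁻¹) =
        (z' ^ j * v * (z' ^ j)⁻¹) * (z' ^ i * v * (z' ^ i)⁻¹)) →
      (v * z') ^ q = 1 → f ⟨x', hx'T⟩ * e * f ⟨x', hx'T⟩ = e⁻¹ → False := by
    intro x' z' hx'T hx' hx'v hz' hz'x' hc' hP' he'
    have hx'2 : (⟨x', hx'T⟩ : T) ^ 2 = 1 := Subtype.ext (by simpa using hx')
    obtain ⟨k, hk, hkx, hfk⟩ := ev_lift hq hq2 hcop hexpT f hfs hx'2 heq he'
    have hkG : ((k : T) : G) ^ q = 1 := by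
      have := congrArg Subtype.val hk
      simpa using this
    have hkxG : x' * (k : G) * x' = (k : G)⁻¹ := by
      have := congrArg Subtype.val hkx
      simpa using this
    have h1 := ev_Q1 H hq hq2 hn hqN hx' hv hx'v hz' hz'x' hc' hP' hkG hkxG
    have h2 := h1.comm_odd (y := (k : G)) (subset_closure (by simp))
    have h3 : ((⟨v, hvT⟩ : T)⁻¹ * (k⁻¹ * ⟨v, hvT⟩ * k)) ^ N = 1 := Subtype.ext (by simpa using h2)
    have h4 : (f ⟨v, hvT⟩ * (e⁻¹ * f ⟨v, hvT⟩ * e)) ^ N = 1 := by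
      have h5 := congrArg f h3
      rw [map_pow, map_mul, map_mul, map_mul, map_inv, map_inv, map_one, hfk,
        fr_inv_of_sq hfv2] at h5
      exact h5
    have hev' : f ⟨v, hvT⟩ * e⁻¹ * f ⟨v, hvT⟩ = e := by
      have h5 : (f ⟨v, hvT⟩ * e * f ⟨v, hvT⟩)⁻¹ = (f ⟨v, hvT⟩)⁻¹ * e⁻¹ * (f ⟨v, hvT⟩)⁻¹ := by group
      rw [hev, inv_inv, fr_inv_of_sq hfv2] at h5
      exact h5.symm
    have h6 : f ⟨v, hvT⟩ * (e⁻¹ * f ⟨v, hvT⟩ * e) = e ^ 2 := by
      calc f ⟨v, hvT⟩ * (e⁻¹ * f ⟨v, hvT⟩ * e) = (f ⟨v, hvT⟩ * e⁻¹ * f ⟨v, hvT⟩) * e := by group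
        _ = e ^ 2 := by rw [hev', pow_two]
    rw [h6] at h4
    have h7 : e ^ 2 = 1 := by
      apply tw_one hcop h4
      rw [← pow_mul, mul_comm, pow_mul, heq, one_pow]
    exact he1 (tw_one hcop2 h7 heq)
  rcases hex with hex | hex
  · -- `x * v` inverts `e`
    have hxvT : x * v ∈ T := T.mul_mem hxT hvT
    have hxv2 : (x * v) ^ 2 = 1 := by
      have h1 : Commute x v := hxv
      rw [h1.mul_pow, hx, hv, one_mul]
    refine fin (x * v) z2 hxvT hxv2 ?_ hz2 hzx2 hc2 hP2 ?_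
    · rw [hxv, mul_assoc, ← hxv, ← mul_assoc]
    · have h1 : f ⟨x * v, hxvT⟩ = f ⟨x, hxT⟩ * f ⟨v, hvT⟩ := by
        rw [← map_mul]
        rfl
      rw [h1]
      calc f ⟨x, hxT⟩ * f ⟨v, hvT⟩ * e * (f ⟨x, hxT⟩ * f ⟨v, hvT⟩)
          = f ⟨x, hxT⟩ * f ⟨v, hvT⟩ * e * (f ⟨v, hvT⟩ * f ⟨x, hxT⟩) := by rw [hfxv]
        _ = f ⟨x, hxT⟩ * (f ⟨v, hvT⟩ * e * f ⟨v, hvT⟩) * f ⟨x, hxT⟩ := by group
        _ = f ⟨x, hxT⟩ * e⁻¹ * f ⟨x, hxT⟩ := by rw [hev]
        _ = (f ⟨x, hxT⟩ * e * f ⟨x, hxT⟩)⁻¹ := by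
          have h5 : (f ⟨x, hxT⟩ * e * f ⟨x, hxT⟩)⁻¹ = (f ⟨x, hxT⟩)⁻¹ * e⁻¹ * (f ⟨x, hxT⟩)⁻¹ := by group
          rw [h5, fr_inv_of_sq hfx2]
        _ = e⁻¹ := by rw [hex]
  · exact fin x z1 hxT hx hxv hz1 hzx1 hc1 hP1 hex

end Pool.Agent.Lib.MP_544bd1_al
end

section

/-!
Even exponents, squares of Mersenne primes: goodness and the induction.
-/

namespace Pool.Agent.Lib.MP_544bd1_al

open Finset Subgroup

variable {G : Type} [Group G]

/-- `x = u ^ (2 ^ (a - 1)) ∈ O_{2',2}(T)` for every finite solvable `T` containing `u` -/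
theorem ev_HH {n m a : ℕ} (H : TwG n G) (hm : Odd m) (ha : 0 < a) (hn : n = m * 2 ^ a)
    (hex : ∀ r : ℕ, r.Prime → r ∣ m → (∃ j s : ℕ, 1 ≤ j ∧ j ≤ a ∧ 0 < s ∧ r ^ s + 1 = 2 ^ j) →
      ¬ r ^ 2 ∣ m ∧ NoN (n / r) G)
    {u : G} (hu : u ^ (2 ^ a) = 1) (T : Subgroup G) (hfin : Finite T)
    (hsol : Group.IsSolvable T) (huT : u ∈ T) : InOP m (2 ^ a) T (u ^ (2 ^ (a - 1))) := by
  by_contra h
  have hexp : ∀ x : G, x ^ (m * 2 ^ a) = 1 := by
    rw [← hn]
    exact H.hexp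
  have hexpT := tw_exp_sub hexp T
  have hu' : (⟨u, huT⟩ : T) ^ (2 ^ a) = 1 := Subtype.ext (by simpa using hu)
  have hcoe : (((⟨u, huT⟩ : T) ^ (2 ^ (a - 1)) : T) : G) = u ^ (2 ^ (a - 1)) := by simp
  obtain ⟨r, hr, hrm, P, R, w, h1, h2, h3, h4, h5, h6, h7⟩ := ev_config hm ha hsol hexpT hu' (by
    rw [InOP.top_iff, hcoe]
    exact h)
  have hr2 : r ≠ 2 := by
    rintro rfl
    rw [← even_iff_two_dvd, ← Nat.not_odd_iff_even] at hrm
    exact hrm hm
  obtain ⟨F₁, Q, R₁, u₁, hQn, D⟩ := ev_min P R w h1 h2 h3 h4 h5 h6 h7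
  have hexpF := tw_exp_sub hexpT F₁
  have hexc := ev_nonexc hr hr2 ha hm hexpF Q R₁ D
  obtain ⟨hr3, hno⟩ := hex r hr hrm hexc
  obtain ⟨k, hk⟩ := hrm
  have hrk : ¬ r ∣ k := by
    rintro ⟨l, rfl⟩
    exact hr3 ⟨l, by rw [hk]; ring⟩
  have hcop : Nat.Coprime r 2 := (Nat.coprime_primes hr Nat.prime_two).2 hr2
  have hRr : ∀ g ∈ R₁, g ^ r = 1 := by
    intro g hg
    obtain ⟨l, hl⟩ := D.hR ⟨g, hg⟩
    have hl' : g ^ (r ^ l) = 1 := by
      have := congrArg Subtype.val hl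
      simpa using this
    have h8 : (g ^ r) ^ (k * 2 ^ a) = 1 := by
      rw [← pow_mul, ← mul_assoc, ← hk]
      exact hexpF g
    have h9 : (g ^ r) ^ (r ^ l) = 1 := by
      rw [← pow_mul, mul_comm, pow_mul, hl', one_pow]
    have h10 : Nat.Coprime (k * 2 ^ a) (r ^ l) := by
      apply Nat.Coprime.pow_right
      apply Nat.Coprime.mul_left
      · exact ((Nat.Prime.coprime_iff_not_dvd hr).2 hrk).symm
      · exact Nat.Coprime.pow_left a hcop.symm
    exact tw_one h10 h8 h9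
  obtain ⟨x, v, z₁, z₂, e1, e2, e3, e4, e5, e6, e7, e8, e9, e10, e11, e12⟩ :=
    ev_elems hr hr2 ha hm hexpF Q R₁ D hRr
  -- everything in `G`
  let f : F₁ →* G := T.subtype.comp F₁.subtype
  have hf : Function.Injective f := T.subtype_injective.comp F₁.subtype_injective
  have hnr : n = n / r * r := (Nat.div_mul_cancel (by
    rw [hn, hk, mul_assoc]
    exact dvd_mul_right _ _)).symm
  have hnr2 : ¬ r ∣ n / r := by
    have h8 : n / r = k * 2 ^ a := by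
      rw [hn, hk, mul_assoc, Nat.mul_div_cancel_left _ hr.pos]
    rw [h8]
    intro h9
    rcases (Nat.Prime.dvd_mul hr).1 h9 with h10 | h10
    · exact hrk h10
    · exact hr2 ((Nat.prime_dvd_prime_iff_eq hr Nat.prime_two).1 (hr.dvd_of_dvd_pow h10))
  refine ev_Q H hr hr2 hnr hnr2 hno (x := f x) (v := f v) (z1 := f z₁) (z2 := f z₂)
    (by rw [← map_pow, e1, map_one]) (by rw [← map_pow, e2, map_one])
    (fun h => e3 (hf (by rw [h, map_one]))) (by rw [← map_mul, e4, map_mul])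
    (by rw [← map_pow, e5, map_one]) (by rw [← map_pow, e6, map_one])
    (by rw [← map_mul, e7, map_mul])
    (by rw [← map_mul, ← map_mul, e8, map_mul, map_mul]) ?_
    (by rw [← map_mul, ← map_pow, e10, map_one]) ?_
    (by rw [← map_mul, ← map_pow, e12, map_one])
  · intro i j
    have := congrArg f (e9 i j)
    simpa only [map_mul, map_pow, map_inv] using this
  · intro i j
    have := congrArg f (e11 i j)
    simpa only [map_mul, map_pow, map_inv] using this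

/-- existence of good involutions -/
theorem ev_good {n m a : ℕ} (H : TwG n G) (hm : Odd m) (ha : 0 < a) (hn : n = m * 2 ^ a)
    (hex : ∀ r : ℕ, r.Prime → r ∣ m → (∃ j s : ℕ, 1 ≤ j ∧ j ≤ a ∧ 0 < s ∧ r ^ s + 1 = 2 ^ j) →
      ¬ r ^ 2 ∣ m ∧ NoN (n / r) G)
    {u : G} (hu : u ^ (2 ^ a) = 1) : GoodS m (2 ^ a) (u ^ (2 ^ (a - 1))) := by
  have h2m : ¬ 2 ∣ m := by
    rw [← even_iff_two_dvd, Nat.not_even_iff_odd]
    exact hm
  have hexp : ∀ x : G, x ^ (m * 2 ^ a) = 1 := by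
    rw [← hn]
    exact H.hexp
  have hz : (u ^ (2 ^ (a - 1))) ^ (2 ^ a) = 1 := by
    rw [← pow_mul, mul_comm, pow_mul, hu, one_pow]
  refine ⟨hz, ?_⟩
  intro T hfin hsol hzT
  have h1 : ∀ t : T, InOP m (2 ^ a) (closure {(⟨u ^ (2 ^ (a - 1)), hzT⟩ : T), t})
      (⟨u ^ (2 ^ (a - 1)), hzT⟩ : T) := by
    intro t
    apply InOP.sub_closure
    obtain ⟨hfL, hsL⟩ := H.h2 u (t : G)
    set L := closure {u, (t : G)} with hL
    have huL : u ∈ L := subset_closure (by simp)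
    have htL : (t : G) ∈ L := subset_closure (by simp)
    have h2 := ev_HH H hm ha hn hex hu L hfL hsL huL
    refine h2.mono ?_ (subset_closure (by simp))
    rw [closure_le]
    rintro x (rfl | rfl)
    · exact L.pow_mem huL _
    · exact htL
  have h4 := tw_F1 (F := T) Nat.prime_two h2m hm.pos hsol (tw_exp_sub hexp T)
    (z := ⟨u ^ (2 ^ (a - 1)), hzT⟩) (Subtype.ext (by simpa using hz)) h1
  rw [InOP.top_iff] at h4
  exact h4

/-- sections of subgroups are sections -/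
theorem ESec.of_sub {n : ℕ} {G : Type} [Group G] (h : ESec n G) (K : Subgroup G) : ESec n K := by
  intro S _ H f hf hS
  let e := H.equivMapOfInjective K.subtype K.subtype_injective
  exact h S (H.map K.subtype) (f.comp e.symm.toMonoidHom) (hf.comp e.symm.surjective) hS

/-- even exponents -/
theorem ev_even (N : ℕ) : ∀ (a m : ℕ), 2 ^ a * m = N → Odd m →
    (a ≤ 2 ∨ ∀ j ≤ a, (2 ^ j - 1).Prime → ¬ (2 ^ j - 1) ^ 2 ∣ m) →
    ∀ (G : Type) [Group G], TwG (2 ^ a * m) G → ESec m G → ESec (2 ^ a) G →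
      LF (⊤ : Subgroup G) := by
  induction N using Nat.strong_induction_on with
  | _ N ih =>
  intro a m hN hm hcond G _ H hEm hE2
  rcases Nat.eq_zero_or_pos a with ha0 | ha0
  · subst ha0
    exact tw_even hm 0 (Or.inl (by omega)) G H hEm hE2
  by_cases ha2 : a ≤ 2
  · exact tw_even hm a (Or.inl ha2) G H hEm hE2
  have hcond' : ∀ j ≤ a, (2 ^ j - 1).Prime → ¬ (2 ^ j - 1) ^ 2 ∣ m := by
    rcases hcond with h | h
    · exact absurd h ha2
    · exact h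
  apply LF_of_quotients
  intro K₀ hK₀ hK₀top
  have hnt : Nontrivial (G ⧸ K₀) := by
    by_contra h
    rw [not_nontrivial_iff_subsingleton] at h
    exact hK₀top (QuotientGroup.subgroup_eq_top_of_subsingleton K₀ h)
  have hsurj := QuotientGroup.mk'_surjective K₀
  have HQ : TwG (2 ^ a * m) (G ⧸ K₀) := H.quotient _ hsurj
  have hEmQ : ESec m (G ⧸ K₀) := hEm.of_surjective _ hsurj
  have hE2Q : ESec (2 ^ a) (G ⧸ K₀) := hE2.of_surjective _ hsurj
  have hm0 : 0 < m := hm.pos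
  have hn : 2 ^ a * m = m * 2 ^ a := mul_comm _ _
  by_cases hsmall : ∀ x : G ⧸ K₀, x ^ (2 ^ (a - 1) * m) = 1
  · -- smaller exponent
    refine ⟨⊤, inferInstance, fun h => bot_ne_top h.symm, ?_⟩
    have hlt : 2 ^ (a - 1) * m < N := by
      rw [← hN]
      apply Nat.mul_lt_mul_of_pos_right _ hm0
      exact Nat.pow_lt_pow_right (by norm_num) (by omega)
    exact ih _ hlt (a - 1) m rfl hm (Or.inr (fun j hj => hcond' j (by omega))) (G ⧸ K₀)
      (HQ.of_exp (by positivity) hsmall) hEmQ (hE2Q.dvd (pow_dvd_pow 2 (by omega)))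
  push Not at hsmall
  obtain ⟨g, hg⟩ := hsmall
  -- normal subgroups of exponent `n / r`
  by_cases hR : ∃ r : ℕ, r.Prime ∧ r ∣ m ∧ ¬ NoN (2 ^ a * m / r) (G ⧸ K₀)
  · obtain ⟨r, hr, ⟨k, rfl⟩, hno⟩ := hR
    unfold NoN at hno
    push Not at hno
    obtain ⟨K, hK1, hK2, hK3⟩ := hno
    refine ⟨K, hK1, hK3, LF_of_top ?_⟩
    have hdiv : 2 ^ a * (r * k) / r = 2 ^ a * k := by
      rw [show 2 ^ a * (r * k) = r * (2 ^ a * k) by ring, Nat.mul_div_cancel_left _ hr.pos]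
    rw [hdiv] at hK2
    have hk0 : 0 < k := Nat.pos_of_mul_pos_left hm0
    have hkodd : Odd k := Nat.Odd.of_mul_right hm
    have hlt : 2 ^ a * k < N := by
      rw [← hN]
      apply Nat.mul_lt_mul_of_pos_left _ (by positivity)
      calc k = 1 * k := (one_mul k).symm
        _ < r * k := Nat.mul_lt_mul_of_pos_right hr.one_lt hk0
    apply ih _ hlt a k rfl hkodd
      (Or.inr (fun j hj hp hd => hcond' j hj hp (hd.trans (dvd_mul_left _ _)))) K
    · exact (HQ.sub K).of_exp (by positivity) (fun x => Subtype.ext (by simpa using hK2 x x.2))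
    · exact ESec.of_sub (hEmQ.dvd (dvd_mul_left _ _)) K
    · exact ESec.of_sub hE2Q K
  push Not at hR
  have hgood : GoodS m (2 ^ a) ((g ^ m) ^ (2 ^ (a - 1))) := by
    apply ev_good HQ hm ha0 hn
    · rintro r hr hrm ⟨j, s, hj1, hj2, hs, hrs⟩
      refine ⟨?_, hR r hr hrm⟩
      have hr2 : r ≠ 2 := by
        rintro rfl
        rw [← even_iff_two_dvd, ← Nat.not_odd_iff_even] at hrm
        exact hrm hm
      have hs1 := tw_mersenne hr hr2 hs hrs
      rw [hs1, pow_one] at hrs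
      have hr' : 2 ^ j - 1 = r := by omega
      have h1 := hcond' j hj2 (by rw [hr']; exact hr)
      rwa [hr'] at h1
    · rw [← pow_mul, ← hn]
      exact HQ.hexp g
  have hz : (g ^ m) ^ (2 ^ (a - 1)) = g ^ (2 ^ (a - 1) * m) := by rw [← pow_mul, mul_comm]
  rw [hz] at hgood
  have hz2 : (g ^ (2 ^ (a - 1) * m)) ^ 2 = 1 := by
    have h1 : 2 ^ (a - 1) * m * 2 = 2 ^ a * m := by
      have h2 : 2 ^ (a - 1) * 2 = 2 ^ a := by
        rw [← pow_succ, Nat.sub_add_cancel ha0]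
      rw [mul_right_comm, h2]
    rw [← pow_mul, h1]
    exact HQ.hexp g
  by_cases hA : NoN (2 ^ a) (G ⧸ K₀)
  · by_cases hB : NoN m (G ⧸ K₀)
    · exact absurd (tw_X HQ hn hm hA hB hgood hz2) hg
    · unfold NoN at hB
      push Not at hB
      obtain ⟨K, hK1, hK2, hK3⟩ := hB
      exact ⟨K, hK1, hK3, hEmQ.sub hK2⟩
  · unfold NoN at hA
    push Not at hA
    obtain ⟨K, hK1, hK2, hK3⟩ := hA
    exact ⟨K, hK1, hK3, hE2Q.sub hK2⟩

end Pool.Agent.Lib.MP_544bd1_al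
end

section

/-!
Two generators suffice for exponents `2 * m` with `m` odd: preparations for the final statement.
-/

namespace Pool.Agent.Lib.MP_544bd1_al

open Subgroup

/-- every two elements of a group of exponent `n` generate a quotient of `B_{2,n}` -/
theorem finite_of_burnside_two {n : ℕ} (h : Finite (FreeBurnside 2 n)) (G : Type*) [Group G]
    (hG : ∀ g : G, g ^ n = 1) (x y : G) : Finite (closure {x, y}) := by
  let φ := burnsideLift 2 n hG ![x, y]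
  have hfin : Finite φ.range := Set.finite_range φ
  have hle : closure {x, y} ≤ φ.range := by
    rw [Subgroup.closure_le]
    rintro w (rfl | rfl)
    · exact ⟨_, burnsideLift_of 2 n hG ![w, y] 0⟩
    · exact ⟨_, burnsideLift_of 2 n hG ![x, w] 1⟩
  exact Finite.of_injective _ (Subgroup.inclusion_injective hle)

theorem solvable_twice {m : ℕ} (h : (∃ q b : ℕ, q.Prime ∧ m = q ^ b) ∨
      ∀ (F : Type) [Group F] [Finite F], (∀ x : F, x ^ (2 * m) = 1) → Group.IsSolvable F)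
    (F : Type) [Group F] [Finite F] (hF : ∀ x : F, x ^ (2 * m) = 1) : Group.IsSolvable F := by
  rcases h with ⟨q, b, hq, rfl⟩ | h
  · exact solvable_of_exponent Nat.prime_two hq (a := 1) (b := b) (by simpa using hF)
  · exact h F hF

/-- the main implication -/
theorem mem_twice {m : ℕ} (hm : Odd m)
    (hsol : (∃ q b : ℕ, q.Prime ∧ m = q ^ b) ∨
      ∀ (F : Type) [Group F] [Finite F], (∀ x : F, x ^ (2 * m) = 1) → Group.IsSolvable F)
    (h1 : m ∈ LocFinExponents)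
    (h2 : ∀ (G : Type) [Group G], (∀ g : G, g ^ (2 * m) = 1) →
      ∀ t x y : G, t ^ 2 = 1 → t * x * t = x⁻¹ → x ^ m = 1 → y ^ m = 1 →
        Finite (closure {x, y})) :
    2 * m ∈ LocFinExponents := by
  refine ⟨by have := h1.1; omega, ?_⟩
  intro G _ hG H hH
  exact twice_LF hm hG (fun F _ _ hF => solvable_twice hsol F hF)
    (h2 G hG) (fun G _ hG S => finite_closure_of_mem h1 G hG S) H le_top hH

end Pool.Agent.Lib.MP_544bd1_al
end
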