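import Mathlib
import Pool.Agent.Lib.MP_544bd1_al.TwQ
import Pool.Agent.Lib.MP_544bd1_al.FrB
import Pool.Agent.Lib.MP_544bd1_al.Detect
import Pool.Agent.Lib.MP_544bd1_al.Twice2

section

/-!
Two generators, part 2: final forms.
-/

namespace Pool.Agent.Lib.MP_544bd1_al

open Subgroup

/-- the condition on the exponent in terms of four primes -/
theorem tw_cond {n : ℕ} (h1 : ∀ S : Finset ℕ, S.card = 4 → (∀ p ∈ S, p.Prime ∧ p ≠ 2 ∧ p ^ 3 ∣ n) →
      ∃ p ∈ S, ∃ q ∈ S, p ∣ q - 1) :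
    ∀ p₁ p₂ p₃ p₄ : ℕ, p₁.Prime → p₂.Prime → p₃.Prime → p₄.Prime →
      2 < p₁ → p₁ < p₂ → p₂ < p₃ → p₃ < p₄ →
      p₁ ^ 3 ∣ n → p₂ ^ 3 ∣ n → p₃ ^ 3 ∣ n → p₄ ^ 3 ∣ n →
      p₁ ∣ p₂ - 1 ∨ p₁ ∣ p₃ - 1 ∨ p₁ ∣ p₄ - 1 ∨ p₂ ∣ p₃ - 1 ∨ p₂ ∣ p₄ - 1 ∨ p₃ ∣ p₄ - 1 := by
  intro p₁ p₂ p₃ p₄ e1 e2 e3 e4 e5 e6 e7 e8 e9 e10 e11 e12
  have hlt : ∀ {p q : ℕ}, q.Prime → p ∣ q - 1 → p < q := by
    intro p q hq h
    have h2 := hq.two_le
    have h3 := Nat.le_of_dvd (by omega) h
    omega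
  obtain ⟨p, hp, q, hq, hpq⟩ := h1 {p₁, p₂, p₃, p₄}
    (by
      rw [Finset.card_insert_of_notMem, Finset.card_insert_of_notMem, Finset.card_insert_of_notMem,
        Finset.card_singleton] <;> simp <;> omega)
    (by
      intro p hp
      simp only [Finset.mem_insert, Finset.mem_singleton] at hp
      rcases hp with rfl | rfl | rfl | rfl
      · exact ⟨e1, by omega, e9⟩
      · exact ⟨e2, by omega, e10⟩
      · exact ⟨e3, by omega, e11⟩
      · exact ⟨e4, by omega, e12⟩)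
  simp only [Finset.mem_insert, Finset.mem_singleton] at hp hq
  have hq' : q.Prime := by
    rcases hq with rfl | rfl | rfl | rfl <;> assumption
  have hpq' := hlt hq' hpq
  rcases hp with rfl | rfl | rfl | rfl <;> rcases hq with rfl | rfl | rfl | rfl <;>
    first
      | exact absurd hpq' (by omega)
      | tauto

/-- group form -/
theorem tw_group {n : ℕ} (hn : 0 < n)
    (h1 : ∀ S : Finset ℕ, S.card = 4 → (∀ p ∈ S, p.Prime ∧ p ≠ 2 ∧ p ^ 3 ∣ n) →
      ∃ p ∈ S, ∃ q ∈ S, p ∣ q - 1)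
    (h2 : n.factorization 2 ≤ 2 ∨
      ∀ j ≤ n.factorization 2, (2 ^ j - 1).Prime → ¬ (2 ^ j - 1) ∣ n)
    (G : Type) [Group G] (hG : ∀ g : G, g ^ n = 1)
    (hfin : ∀ x y : G, Finite (closure {x, y}) ∧ Group.IsSolvable (closure {x, y})) :
    IsLocFinite G ↔ PSectionsLocFinite G := by
  refine ⟨fun h => h.pSections, fun hps => ?_⟩
  rw [IsLocFinite_iff_LF]
  set a := n.factorization 2 with ha
  obtain ⟨m, hm⟩ : ∃ m, n = 2 ^ a * m := ⟨n / 2 ^ a, (Nat.ordProj_mul_ordCompl_eq_self n 2).symm⟩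
  have hmodd : Odd m := by
    rw [← Nat.not_even_iff_odd, even_iff_two_dvd]
    intro h
    have h3 : 2 ^ (a + 1) ∣ n := by
      rw [hm, pow_succ]
      exact Nat.mul_dvd_mul_left _ h
    rw [Nat.Prime.pow_dvd_iff_le_factorization Nat.prime_two hn.ne'] at h3
    omega
  have hmn : m ∣ n := ⟨2 ^ a, by rw [hm, mul_comm]⟩
  have hm0 : 0 < m := Nat.pos_of_dvd_of_pos hmn hn
  have H : TwG n G := ⟨hn, hG, hfin⟩
  have hEm : ESec m G := by
    intro S _ A f hf hS
    apply tw_odd n hn m hmn hmodd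
    · intro p₁ p₂ p₃ p₄ e1 e2 e3 e4 e5 e6 e7 e8 e9 e10 e11 e12
      exact tw_cond h1 p₁ p₂ p₃ p₄ e1 e2 e3 e4 e5 e6 e7 e8 (e9.trans hmn) (e10.trans hmn)
        (e11.trans hmn) (e12.trans hmn)
    · exact ((H.sub A).quotient f hf).of_exp hm0 hS
    · exact ((hps.psec n).of_injective A.subtype A.subtype_injective).of_surjective f hf
  have hE2 : ESec (2 ^ a) G := by
    intro S _ A f hf hS
    refine (hps.psec (2 ^ (a + 1))) S A f hf 2 Nat.prime_two (dvd_pow_self 2 (by omega)) ?_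
    intro x
    rw [Nat.Prime.factorization_pow Nat.prime_two, Finsupp.single_eq_same, pow_succ, pow_mul, hS,
      one_pow]
  have H' : TwG (2 ^ a * m) G := by rw [← hm]; exact H
  apply tw_even hmodd a _ G H' hEm hE2
  rcases h2 with h | h
  · exact Or.inl h
  · exact Or.inr (fun j hj hp hd => h j hj hp (hd.trans hmn))

theorem tw_PSL_of_mem {n : ℕ} (hn : 0 < n) (h : ∀ p : ℕ, p.Prime → p ∣ n →
    p ^ n.factorization p ∈ LocFinExponents) (G : Type) [Group G] (hG : ∀ g : G, g ^ n = 1) :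
    PSectionsLocFinite G := by
  intro A N _ p hp hAN
  have hexp : ∀ x : A ⧸ N, x ^ n = 1 := tw_exp_quot (tw_exp_sub hG A) N
  have key : ∀ x : A ⧸ N, x ^ (p ^ n.factorization p) = 1 := by
    intro x
    obtain ⟨k, hk⟩ := hAN x
    rw [← orderOf_dvd_iff_pow_eq_one]
    obtain ⟨j, _, hj2⟩ := (Nat.dvd_prime_pow hp).1 (orderOf_dvd_of_pow_eq_one hk)
    rw [hj2]
    apply pow_dvd_pow
    rw [← Nat.Prime.pow_dvd_iff_le_factorization hp hn.ne', ← hj2]
    exact orderOf_dvd_of_pow_eq_one (hexp x)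
  by_cases hpn : p ∣ n
  · exact (h p hp hpn).2 _ key
  · have h0 : n.factorization p = 0 := Nat.factorization_eq_zero_of_not_dvd hpn
    have hsub : Subsingleton (A ⧸ N) := by
      refine ⟨fun x y => ?_⟩
      have hx := key x
      have hy := key y
      rw [h0, pow_zero, pow_one] at hx hy
      rw [hx, hy]
    intro K _
    infer_instance

/-- two generator subgroups, from the Burnside group of rank two -/
theorem tw_TwG_of_burnside {n : ℕ} (hn : 0 < n) (hfin : Finite (FreeBurnside 2 n))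
    (hsol : Group.IsSolvable (FreeBurnside 2 n)) (G : Type) [Group G] (hG : ∀ g : G, g ^ n = 1) :
    TwG n G := by
  refine ⟨hn, hG, ?_⟩
  intro x y
  let φ := burnsideLift 2 n hG ![x, y]
  have hle : closure {x, y} ≤ φ.range := by
    rw [Subgroup.closure_le]
    rintro u (rfl | rfl)
    · exact ⟨_, burnsideLift_of 2 n hG ![u, y] 0⟩
    · exact ⟨_, burnsideLift_of 2 n hG ![x, u] 1⟩
  have hfr : Finite φ.range := Set.finite_range φ
  have hsr : Group.IsSolvable φ.range :=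
    Group.isSolvable_of_surjective φ.rangeRestrict_surjective
  exact ⟨Finite.of_injective _ (Subgroup.inclusion_injective hle),
    Group.isSolvable_of_isSolvable_injective (Subgroup.inclusion_injective hle)⟩

/-- exponent form -/
theorem tw_exponent {n : ℕ} (hn : 0 < n)
    (h1 : ∀ S : Finset ℕ, S.card = 4 → (∀ p ∈ S, p.Prime ∧ p ≠ 2 ∧ p ^ 3 ∣ n) →
      ∃ p ∈ S, ∃ q ∈ S, p ∣ q - 1)
    (h2 : n.factorization 2 ≤ 2 ∨
      ∀ j ≤ n.factorization 2, (2 ^ j - 1).Prime → ¬ (2 ^ j - 1) ∣ n)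
    (hsol : Finite (FreeBurnside 2 n) → Group.IsSolvable (FreeBurnside 2 n)) :
    n ∈ LocFinExponents ↔ Finite (FreeBurnside 2 n) ∧
      ∀ p : ℕ, p.Prime → p ∣ n → p ^ n.factorization p ∈ LocFinExponents := by
  constructor
  · intro h
    exact ⟨finite_burnside_of_mem h 2, fun p _ _ => mem_of_dvd (Nat.ordProj_dvd n p) h⟩
  · rintro ⟨hfin, hparts⟩
    refine ⟨hn, ?_⟩
    intro G _ hG
    have H := tw_TwG_of_burnside hn hfin (hsol hfin) G hG
    exact (tw_group hn h1 h2 G hG H.h2).2 (tw_PSL_of_mem hn hparts G hG)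

theorem tw_ESec_of_mem {k : ℕ} (h : k ∈ LocFinExponents) (G : Type) [Group G] : ESec k G := by
  intro S _ _ _ _ hS
  rw [← IsLocFinite_iff_LF]
  exact h.2 S hS

/-- even exponents, arbitrary odd part -/
theorem tw_even_exponent {a m : ℕ} (hm : Odd m)
    (h2 : a ≤ 2 ∨ ∀ j ≤ a, (2 ^ j - 1).Prime → ¬ (2 ^ j - 1) ∣ m)
    (hsol : Finite (FreeBurnside 2 (2 ^ a * m)) → Group.IsSolvable (FreeBurnside 2 (2 ^ a * m))) :
    2 ^ a * m ∈ LocFinExponents ↔
      Finite (FreeBurnside 2 (2 ^ a * m)) ∧ 2 ^ a ∈ LocFinExponents ∧ m ∈ LocFinExponents := by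
  constructor
  · intro h
    exact ⟨finite_burnside_of_mem h 2, mem_of_dvd (dvd_mul_right _ _) h,
      mem_of_dvd (dvd_mul_left _ _) h⟩
  · rintro ⟨hfin, ha, hm'⟩
    have hn : 0 < 2 ^ a * m := Nat.mul_pos ha.1 hm'.1
    refine ⟨hn, ?_⟩
    intro G _ hG
    have H := tw_TwG_of_burnside hn hfin (hsol hfin) G hG
    exact IsLocFinite_iff_LF.2 (tw_even hm a h2 G H (tw_ESec_of_mem hm' G) (tw_ESec_of_mem ha G))

/-- sections as quotients -/
theorem tw_ESec_of_sections {k : ℕ} {G : Type} [Group G]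
    (h : ∀ (H : Subgroup G) (N : Subgroup H) [N.Normal], (∀ g : H ⧸ N, g ^ k = 1) →
      IsLocFinite (H ⧸ N)) : ESec k G := by
  intro S _ H f hf hS
  rw [← IsLocFinite_iff_LF]
  let e := QuotientGroup.quotientKerEquivOfSurjective f hf
  have h1 : IsLocFinite (H ⧸ f.ker) := by
    apply h H f.ker
    intro g
    apply e.injective
    rw [map_pow, map_one, hS]
  exact h1.of_surjective e.toMonoidHom e.surjective

/-- even exponents, arbitrary odd part, group form -/
theorem tw_even_group {a m : ℕ} (hm : Odd m)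
    (h2 : a ≤ 2 ∨ ∀ j ≤ a, (2 ^ j - 1).Prime → ¬ (2 ^ j - 1) ∣ m)
    (G : Type) [Group G] (hG : ∀ g : G, g ^ (2 ^ a * m) = 1)
    (hfin : ∀ x y : G, Finite (closure {x, y}) ∧ Group.IsSolvable (closure {x, y})) :
    IsLocFinite G ↔ ∀ (H : Subgroup G) (N : Subgroup H) [N.Normal],
      ((∀ g : H ⧸ N, g ^ (2 ^ a) = 1) ∨ (∀ g : H ⧸ N, g ^ m = 1)) → IsLocFinite (H ⧸ N) := by
  constructor
  · intro h H N _ _
    exact (h.of_injective H.subtype H.subtype_injective).of_surjective _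
      (QuotientGroup.mk'_surjective N)
  · intro h
    have hm0 : 0 < m := by
      obtain ⟨k, hk⟩ := hm
      omega
    exact IsLocFinite_iff_LF.2 (tw_even hm a h2 G ⟨Nat.mul_pos (by positivity) hm0, hG, hfin⟩
      (tw_ESec_of_sections fun H N _ hN => h H N (Or.inr hN))
      (tw_ESec_of_sections fun H N _ hN => h H N (Or.inl hN)))

/-- exponents with at most two prime divisors: no solubility hypothesis -/
theorem tw_biprimary {p q a b : ℕ} (hp : p.Prime) (hq : q.Prime) (hpq : p ≠ q)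
    (h2 : (p ^ a * q ^ b).factorization 2 ≤ 2 ∨
      ∀ j ≤ (p ^ a * q ^ b).factorization 2, (2 ^ j - 1).Prime → ¬ (2 ^ j - 1) ∣ p ^ a * q ^ b) :
    p ^ a * q ^ b ∈ LocFinExponents ↔
      p ^ a ∈ LocFinExponents ∧ q ^ b ∈ LocFinExponents ∧ Finite (FreeBurnside 2 (p ^ a * q ^ b)) := by
  constructor
  · intro h
    exact ⟨mem_of_dvd (dvd_mul_right _ _) h, mem_of_dvd (dvd_mul_left _ _) h,
      finite_burnside_of_mem h 2⟩
  · rintro ⟨ha, hb, hfin⟩
    have hn : 0 < p ^ a * q ^ b := Nat.mul_pos ha.1 hb.1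
    have hfac : ∀ s : ℕ, s.Prime → s ∣ p ^ a * q ^ b → s = p ∨ s = q := by
      intro s hs h
      rcases (Nat.Prime.dvd_mul hs).1 h with h | h
      · exact Or.inl ((Nat.prime_dvd_prime_iff_eq hs hp).1 (hs.dvd_of_dvd_pow h))
      · exact Or.inr ((Nat.prime_dvd_prime_iff_eq hs hq).1 (hs.dvd_of_dvd_pow h))
    rw [tw_exponent hn ?_ h2 (fun hf => ?_)]
    · refine ⟨hfin, fun s hs h => ?_⟩
      have hcop : Nat.Coprime (p ^ a) (q ^ b) := Nat.coprime_pow_primes a b hp hq hpq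
      have hfm : (p ^ a * q ^ b).factorization s =
          (p ^ a).factorization s + (q ^ b).factorization s := by
        rw [Nat.factorization_mul ha.1.ne' hb.1.ne']
        rfl
      rcases hfac s hs h with rfl | rfl
      · rw [hfm, Nat.Prime.factorization_pow hp, Nat.Prime.factorization_pow hq,
          Finsupp.single_eq_same, Finsupp.single_eq_of_ne (by simpa using hpq), add_zero]
        exact ha
      · rw [hfm, Nat.Prime.factorization_pow hp, Nat.Prime.factorization_pow hq,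
          Finsupp.single_eq_same, Finsupp.single_eq_of_ne (by simpa using hpq.symm), zero_add]
        exact hb
    · intro S hS hS2
      exfalso
      have h3 : S ⊆ {p, q} := by
        intro r hr
        obtain ⟨e1, _, e2⟩ := hS2 r hr
        have := hfac r e1 (dvd_trans (dvd_pow_self r three_ne_zero) e2)
        simpa using this
      have h4 := (Finset.card_le_card h3).trans Finset.card_le_two
      omega
    · exact solvable_of_exponent hp hq (a := a) (b := b) (burnside_pow _ _)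

/-- exponent form, with a solubility hypothesis only for at least three prime divisors -/
theorem tw_exponent' {n : ℕ} (hn : 0 < n)
    (h1 : ∀ S : Finset ℕ, S.card = 4 → (∀ p ∈ S, p.Prime ∧ p ≠ 2 ∧ p ^ 3 ∣ n) →
      ∃ p ∈ S, ∃ q ∈ S, p ∣ q - 1)
    (h2 : n.factorization 2 ≤ 2 ∨
      ∀ j ≤ n.factorization 2, (2 ^ j - 1).Prime → ¬ (2 ^ j - 1) ∣ n)
    (hsol : (∃ p q a b : ℕ, p.Prime ∧ q.Prime ∧ n = p ^ a * q ^ b) ∨
      (Finite (FreeBurnside 2 n) → Group.IsSolvable (FreeBurnside 2 n))) :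
    n ∈ LocFinExponents ↔ Finite (FreeBurnside 2 n) ∧
      ∀ p : ℕ, p.Prime → p ∣ n → p ^ n.factorization p ∈ LocFinExponents := by
  apply tw_exponent hn h1 h2
  rcases hsol with ⟨p, q, a, b, hp, hq, rfl⟩ | h
  · intro hf
    exact solvable_of_exponent hp hq (a := a) (b := b) (burnside_pow _ _)
  · exact h

/-- even exponents, with a solubility hypothesis only for at least three prime divisors -/
theorem tw_even_exponent' {a m : ℕ} (hm : Odd m)
    (h2 : a ≤ 2 ∨ ∀ j ≤ a, (2 ^ j - 1).Prime → ¬ (2 ^ j - 1) ∣ m)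
    (hsol : (∃ q b : ℕ, q.Prime ∧ m = q ^ b) ∨
      (Finite (FreeBurnside 2 (2 ^ a * m)) → Group.IsSolvable (FreeBurnside 2 (2 ^ a * m)))) :
    2 ^ a * m ∈ LocFinExponents ↔
      Finite (FreeBurnside 2 (2 ^ a * m)) ∧ 2 ^ a ∈ LocFinExponents ∧ m ∈ LocFinExponents := by
  apply tw_even_exponent hm h2
  rcases hsol with ⟨q, b, hq, rfl⟩ | h
  · intro hf
    exact solvable_of_exponent Nat.prime_two hq (a := a) (b := b) (burnside_pow _ _)
  · exact h

end Pool.Agent.Lib.MP_544bd1_al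
end

section

/-!
Two generators suffice: final forms, with the theorem on odd exponents and the theorem on even
exponents as parameters (`OddT`, `EvenT`), and the instances known so far.
-/

namespace Pool.Agent.Lib.MP_544bd1_al

open Subgroup

/-- the theorem on the odd divisors of `n` -/
def OddT (n : ℕ) : Prop :=
  ∀ m : ℕ, m ∣ n → Odd m → ∀ (G : Type) [Group G], TwG m G → PSec n G → LF (⊤ : Subgroup G)

/-- the theorem on the exponent `2 ^ a * m` -/
def EvenT (a m : ℕ) : Prop :=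
  ∀ (G : Type) [Group G], TwG (2 ^ a * m) G → ESec m G → ESec (2 ^ a) G → LF (⊤ : Subgroup G)

/-- the four primes condition gives the theorem on odd divisors -/
theorem oddT_of_four {n : ℕ} (hn : 0 < n)
    (h1 : ∀ S : Finset ℕ, S.card = 4 → (∀ p ∈ S, p.Prime ∧ p ≠ 2 ∧ p ^ 3 ∣ n) →
      ∃ p ∈ S, ∃ q ∈ S, p ∣ q - 1) : OddT n := by
  intro m hmn hmodd G _ H hps
  apply tw_odd n hn m hmn hmodd _ G H hps
  intro p₁ p₂ p₃ p₄ e1 e2 e3 e4 e5 e6 e7 e8 e9 e10 e11 e12
  exact tw_cond h1 p₁ p₂ p₃ p₄ e1 e2 e3 e4 e5 e6 e7 e8 (e9.trans hmn) (e10.trans hmn)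
    (e11.trans hmn) (e12.trans hmn)

/-- the squares of Mersenne primes condition gives the theorem on even exponents -/
theorem evenT_of_squares {a m : ℕ} (hm : Odd m)
    (h2 : a ≤ 2 ∨ ∀ j ≤ a, (2 ^ j - 1).Prime → ¬ (2 ^ j - 1) ^ 2 ∣ m) : EvenT a m :=
  fun G _ H hEm hE2 => ev_even _ a m rfl hm h2 G H hEm hE2

/-- group form -/
theorem fin_group {n a m : ℕ} (hn : 0 < n) (hnm : n = 2 ^ a * m) (hm : Odd m) (h1 : OddT n)
    (h2 : EvenT a m)
    (G : Type) [Group G] (hG : ∀ g : G, g ^ n = 1)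
    (hfin : ∀ x y : G, Finite (closure {x, y}) ∧ Group.IsSolvable (closure {x, y})) :
    IsLocFinite G ↔ PSectionsLocFinite G := by
  refine ⟨fun h => h.pSections, fun hps => ?_⟩
  rw [IsLocFinite_iff_LF]
  have hmn : m ∣ n := ⟨2 ^ a, by rw [hnm, mul_comm]⟩
  have hm0 : 0 < m := Nat.pos_of_dvd_of_pos hmn hn
  have H : TwG n G := ⟨hn, hG, hfin⟩
  have hEm : ESec m G := by
    intro S _ A f hf hS
    apply h1 m hmn hm
    · exact ((H.sub A).quotient f hf).of_exp hm0 hS
    · exact ((hps.psec n).of_injective A.subtype A.subtype_injective).of_surjective f hf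
  have hE2 : ESec (2 ^ a) G := by
    intro S _ A f hf hS
    refine (hps.psec (2 ^ (a + 1))) S A f hf 2 Nat.prime_two (dvd_pow_self 2 (by omega)) ?_
    intro x
    rw [Nat.Prime.factorization_pow Nat.prime_two, Finsupp.single_eq_same, pow_succ, pow_mul, hS,
      one_pow]
  have H' : TwG (2 ^ a * m) G := by rw [← hnm]; exact H
  exact h2 G H' hEm hE2

/-- the decomposition of `n` -/
theorem fin_decomp {n : ℕ} (hn : 0 < n) :
    ∃ m, n = 2 ^ n.factorization 2 * m ∧ Odd m := by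
  obtain ⟨m, hm⟩ : ∃ m, n = 2 ^ n.factorization 2 * m :=
    ⟨n / 2 ^ n.factorization 2, (Nat.ordProj_mul_ordCompl_eq_self n 2).symm⟩
  refine ⟨m, hm, ?_⟩
  rw [← Nat.not_even_iff_odd, even_iff_two_dvd]
  intro h
  have h3 : 2 ^ (n.factorization 2 + 1) ∣ n := by
    conv_rhs => rw [hm]
    rw [pow_succ]
    exact Nat.mul_dvd_mul_left _ h
  rw [Nat.Prime.pow_dvd_iff_le_factorization Nat.prime_two hn.ne'] at h3
  omega

/-- exponent form -/
theorem fin_exponent {n a m : ℕ} (hn : 0 < n) (hnm : n = 2 ^ a * m) (hm : Odd m) (h1 : OddT n)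
    (h2 : EvenT a m)
    (hsol : (∃ p q a b : ℕ, p.Prime ∧ q.Prime ∧ n = p ^ a * q ^ b) ∨
      (Finite (FreeBurnside 2 n) → Group.IsSolvable (FreeBurnside 2 n))) :
    n ∈ LocFinExponents ↔ Finite (FreeBurnside 2 n) ∧
      ∀ p : ℕ, p.Prime → p ∣ n → p ^ n.factorization p ∈ LocFinExponents := by
  have hsol' : Finite (FreeBurnside 2 n) → Group.IsSolvable (FreeBurnside 2 n) := by
    rcases hsol with ⟨p, q, a, b, hp, hq, rfl⟩ | h
    · intro hf
      exact solvable_of_exponent hp hq (a := a) (b := b) (burnside_pow _ _)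
    · exact h
  constructor
  · intro h
    exact ⟨finite_burnside_of_mem h 2, fun p _ _ => mem_of_dvd (Nat.ordProj_dvd n p) h⟩
  · rintro ⟨hfin, hparts⟩
    refine ⟨hn, ?_⟩
    intro G _ hG
    have H := tw_TwG_of_burnside hn hfin (hsol' hfin) G hG
    exact (fin_group hn hnm hm h1 h2 G hG H.h2).2 (tw_PSL_of_mem hn hparts G hG)

/-- even exponents, arbitrary odd part -/
theorem fin_even_exponent {a m : ℕ} (hm : Odd m) (h2 : EvenT a m)
    (hsol : (∃ q b : ℕ, q.Prime ∧ m = q ^ b) ∨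
      (Finite (FreeBurnside 2 (2 ^ a * m)) → Group.IsSolvable (FreeBurnside 2 (2 ^ a * m)))) :
    2 ^ a * m ∈ LocFinExponents ↔
      Finite (FreeBurnside 2 (2 ^ a * m)) ∧ 2 ^ a ∈ LocFinExponents ∧ m ∈ LocFinExponents := by
  have hsol' : Finite (FreeBurnside 2 (2 ^ a * m)) →
      Group.IsSolvable (FreeBurnside 2 (2 ^ a * m)) := by
    rcases hsol with ⟨q, b, hq, rfl⟩ | h
    · intro hf
      exact solvable_of_exponent Nat.prime_two hq (a := a) (b := b) (burnside_pow _ _)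
    · exact h
  constructor
  · intro h
    exact ⟨finite_burnside_of_mem h 2, mem_of_dvd (dvd_mul_right _ _) h,
      mem_of_dvd (dvd_mul_left _ _) h⟩
  · rintro ⟨hfin, ha, hm'⟩
    have hn : 0 < 2 ^ a * m := Nat.mul_pos ha.1 hm'.1
    refine ⟨hn, ?_⟩
    intro G _ hG
    have H := tw_TwG_of_burnside hn hfin (hsol' hfin) G hG
    exact IsLocFinite_iff_LF.2 (h2 G H (tw_ESec_of_mem hm' G) (tw_ESec_of_mem ha G))

/-- even exponents, arbitrary odd part, group form -/
theorem fin_even_group {a m : ℕ} (hm : Odd m) (h2 : EvenT a m)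
    (G : Type) [Group G] (hG : ∀ g : G, g ^ (2 ^ a * m) = 1)
    (hfin : ∀ x y : G, Finite (closure {x, y}) ∧ Group.IsSolvable (closure {x, y})) :
    IsLocFinite G ↔ ∀ (H : Subgroup G) (N : Subgroup H) [N.Normal],
      ((∀ g : H ⧸ N, g ^ (2 ^ a) = 1) ∨ (∀ g : H ⧸ N, g ^ m = 1)) → IsLocFinite (H ⧸ N) := by
  constructor
  · intro h H N _ _
    exact (h.of_injective H.subtype H.subtype_injective).of_surjective _
      (QuotientGroup.mk'_surjective N)
  · intro h
    have hm0 : 0 < m := by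
      obtain ⟨k, hk⟩ := hm
      omega
    exact IsLocFinite_iff_LF.2 (h2 G ⟨Nat.mul_pos (by positivity) hm0, hG, hfin⟩
      (tw_ESec_of_sections fun H N _ hN => h H N (Or.inr hN))
      (tw_ESec_of_sections fun H N _ hN => h H N (Or.inl hN)))

/-- the condition of the squares of Mersenne primes, in terms of `n` -/
theorem evenT_of_squares' {n m : ℕ} (hnm : n = 2 ^ n.factorization 2 * m) (hm : Odd m)
    (h2 : n.factorization 2 ≤ 2 ∨
      ∀ j ≤ n.factorization 2, (2 ^ j - 1).Prime → ¬ (2 ^ j - 1) ^ 2 ∣ n) :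
    EvenT (n.factorization 2) m := by
  apply evenT_of_squares hm
  have hmn : m ∣ n := ⟨2 ^ n.factorization 2, by rw [mul_comm]; exact hnm⟩
  rcases h2 with h | h
  · exact Or.inl h
  · exact Or.inr (fun j hj hp hd => h j hj hp (hd.trans hmn))

/-- exponents with at most two prime divisors: no solubility hypothesis, no condition on the
odd part -/
theorem oddT_of_two {p q a b : ℕ} (hp : p.Prime) (hq : q.Prime) (hn : 0 < p ^ a * q ^ b) :
    OddT (p ^ a * q ^ b) := by
  apply oddT_of_four hn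
  intro S hS hS2
  exfalso
  have hfac : ∀ s : ℕ, s.Prime → s ∣ p ^ a * q ^ b → s = p ∨ s = q := by
    intro s hs h
    rcases (Nat.Prime.dvd_mul hs).1 h with h | h
    · exact Or.inl ((Nat.prime_dvd_prime_iff_eq hs hp).1 (hs.dvd_of_dvd_pow h))
    · exact Or.inr ((Nat.prime_dvd_prime_iff_eq hs hq).1 (hs.dvd_of_dvd_pow h))
  have h3 : S ⊆ {p, q} := by
    intro r hr
    obtain ⟨e1, _, e2⟩ := hS2 r hr
    have := hfac r e1 (dvd_trans (dvd_pow_self r three_ne_zero) e2)
    simpa using this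
  have h4 := (Finset.card_le_card h3).trans Finset.card_le_two
  omega

end Pool.Agent.Lib.MP_544bd1_al
end
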