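import Mathlib
import Pool.Agent.Lib.MP_544bd1_al.TwS3
import Pool.Agent.Lib.MP_544bd1_al.TwR4
import Pool.Agent.Lib.MP_544bd1_al.TwLZ
import Pool.Agent.Lib.MP_544bd1_al.TwS2
import Pool.Agent.Lib.MP_544bd1_al.TwU1
import Pool.Agent.Lib.MP_544bd1_al.TwF4

section

/-!
Theorem G' (paper 275): elements of prime order detect coprime automorphisms.
-/

namespace Pool.Agent.Lib.MP_544bd1_al

open Subgroup
open scoped commutatorElement

private theorem gpom_conj_pow {F : Type} [Group F] {x y c : F} (h : y * x = x * y * c)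
    (hcx : c * x = x * c) (hcy : c * y = y * c) (k : ℕ) : y ^ k * x = x * y ^ k * c ^ k := by
  induction k with
  | zero => simp
  | succ k ih =>
    have hc : Commute c y := hcy
    calc y ^ (k + 1) * x = y ^ k * (y * x) := by rw [pow_succ, mul_assoc]
      _ = y ^ k * (x * (y * c)) := by rw [h, mul_assoc]
      _ = (y ^ k * x) * (y * c) := by rw [mul_assoc]
      _ = (x * y ^ k * c ^ k) * (y * c) := by rw [ih]
      _ = x * y ^ k * ((c ^ k * y) * c) := by simp only [mul_assoc]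
      _ = x * y ^ k * ((y * c ^ k) * c) := by rw [(hc.pow_left k).eq]
      _ = x * (y ^ k * y) * (c ^ k * c) := by simp only [mul_assoc]
      _ = x * y ^ (k + 1) * c ^ (k + 1) := by rw [← pow_succ, ← pow_succ]

private theorem gpom_mul_pow {F : Type} [Group F] {x y c : F} (h : y * x = x * y * c)
    (hcx : c * x = x * c) (hcy : c * y = y * c) (k : ℕ) :
    (x * y) ^ k = x ^ k * y ^ k * c ^ (k.choose 2) := by
  induction k with
  | zero => simp
  | succ k ih =>
    have hc : Commute c y := hcy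
    have hx : Commute c x := hcx
    have hch : (k + 1).choose 2 = k + k.choose 2 := by
      rw [Nat.choose_succ_succ' k 1, Nat.choose_one_right]
    have h1 : Commute (c ^ (k.choose 2)) (x * y) := (hx.mul_right hc).pow_left _
    calc (x * y) ^ (k + 1) = (x * y) ^ k * (x * y) := pow_succ _ _
      _ = x ^ k * y ^ k * (c ^ (k.choose 2) * (x * y)) := by rw [ih]; simp only [mul_assoc]
      _ = x ^ k * y ^ k * ((x * y) * c ^ (k.choose 2)) := by rw [h1.eq]
      _ = x ^ k * ((y ^ k * x) * (y * c ^ (k.choose 2))) := by simp only [mul_assoc]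
      _ = x ^ k * ((x * y ^ k * c ^ k) * (y * c ^ (k.choose 2))) := by
          rw [gpom_conj_pow h hcx hcy k]
      _ = x ^ k * x * y ^ k * ((c ^ k * y) * c ^ (k.choose 2)) := by simp only [mul_assoc]
      _ = x ^ k * x * y ^ k * ((y * c ^ k) * c ^ (k.choose 2)) := by rw [(hc.pow_left k).eq]
      _ = (x ^ k * x) * (y ^ k * y) * (c ^ k * c ^ (k.choose 2)) := by simp only [mul_assoc]
      _ = x ^ (k + 1) * y ^ (k + 1) * c ^ ((k + 1).choose 2) := by
          rw [← pow_succ, ← pow_succ, ← pow_add, hch]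

/-- **Elements of order `s` detect `p`-automorphisms of `s`-groups, `s` odd.**

Proof. Let `R₁ ≤ R` be a subgroup normalized by `z`, not centralized by `z`, with `Nat.card R₁`
minimal. `D = ` the subgroup generated by the `x⁻¹ * (z * x * z⁻¹)`, `x ∈ R₁`, i.e. `⁅R₁, zpowers z⁆`,
is normalized by `z` and `R₁`; `D = R₁`, otherwise `z` centralizes `D` and so `R₁`
(`tw_coprime_trivial` (TwS3.lean)). `Φ = ` the subgroup generated by `⁅R₁, R₁⁆` and all `x ^ s`,
`x ∈ R₁`; `Φ ≠ R₁` (`tw_frattini` (TwS4.lean) for the group `R₁`: it is contained in the Frattini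
subgroup), normalized by `z`, so `z` centralizes `Φ`. `Φ` is central in `R₁`: for `φ ∈ Φ`, `x ∈ R₁`:
`φ * x * φ⁻¹ = x * φ'` hmm: three subgroups lemma: `⁅Φ, zpowers z⁆ = ⊥`, `⁅⁅R₁, Φ⁆, zpowers z⁆ = ⊥`
(`⁅R₁, Φ⁆ ≤ Φ`), so `⁅⁅zpowers z, R₁⁆, Φ⁆ = ⊥`
(`Subgroup.commutator_commutator_eq_bot_of_rotate`), i.e. `⁅R₁, Φ⁆ = ⊥`. So for `x, y ∈ R₁`:
`(x * y) ^ k = x ^ k * y ^ k * [y, x] ^ (k (k-1) / 2)` with `[y, x] ∈ Φ` central,
`[y, x] ^ s = [y ^ s, x] = 1`, `s` odd: `(x * y) ^ s = x ^ s * y ^ s`. So for `x ∈ R₁`,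
`e = x⁻¹ * (z * x * z⁻¹)`: `e ^ s = (x ^ s)⁻¹ * (z * x ^ s * z⁻¹) = 1`. If `z` commuted with all these
`e`, then it would centralize `R₁` (`tw_coprime_trivial`). -/
theorem gp_omega {F : Type} [Group F] {s p a : ℕ} (hs : s.Prime) (hs2 : s ≠ 2) (hp : p.Prime)
    (hps : p ≠ s) (R : Subgroup F) [Finite R] (hR : IsPGroup s R) {z : F} (hz : z ^ (p ^ a) = 1)
    (hzR : ∀ x ∈ R, z * x * z⁻¹ ∈ R) (h : ∃ x ∈ R, z * x ≠ x * z) :
    ∃ e ∈ R, e ^ s = 1 ∧ z * e ≠ e * z := by
  classical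
  have hfs : Fact s.Prime := ⟨hs⟩
  -- exponent of `R`
  obtain ⟨n, hn⟩ := IsPGroup.iff_card.1 hR
  have hexp : ∀ x ∈ R, x ^ (s ^ n) = 1 := by
    intro x hx
    have h1 : (⟨x, hx⟩ : R) ^ Nat.card R = 1 := pow_card_eq_one'
    rw [hn] at h1
    exact congrArg Subtype.val h1
  have hcop : Nat.Coprime (p ^ a) (s ^ n) :=
    Nat.Coprime.pow _ _ ((Nat.coprime_primes hp hs).2 hps)
  -- minimal counterexample
  let Q : Subgroup F → Prop := fun K =>
    K ≤ R ∧ (∀ x ∈ K, z * x * z⁻¹ ∈ K) ∧ ∃ x ∈ K, z * x ≠ x * z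
  obtain ⟨R₁, ⟨hR₁R, hzR₁, x₀, hx₀, hx₀z⟩, hmin⟩ :
      ∃ K, Q K ∧ ∀ K', Q K' → Nat.card K ≤ Nat.card K' := by
    have hne : {K : Subgroup F | Q K}.Nonempty := ⟨R, le_rfl, hzR, h⟩
    obtain ⟨K, hK, hmin⟩ := Function.argminOn_mem (fun K : Subgroup F => Nat.card K)
      {K : Subgroup F | Q K} hne |> fun h1 => (⟨_, h1, fun K' hK' =>
        Function.argminOn_le (fun K : Subgroup F => Nat.card K) _ hK'⟩ :
        ∃ K, Q K ∧ ∀ K', Q K' → Nat.card K ≤ Nat.card K')
    exact ⟨K, hK, hmin⟩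
  have hfin₁ : Finite R₁ := Finite.of_injective _ (Subgroup.inclusion_injective hR₁R)
  have hR₁p : IsPGroup s R₁ := hR.of_injective _ (Subgroup.inclusion_injective hR₁R)
  -- proper `z`-invariant subgroups are centralized
  have hprop : ∀ K : Subgroup F, K ≤ R₁ → K ≠ R₁ → (∀ x ∈ K, z * x * z⁻¹ ∈ K) →
      ∀ x ∈ K, z * x = x * z := by
    intro K hK hne hzK x hx
    by_contra hcon
    have h1 := hmin K ⟨hK.trans hR₁R, hzK, x, hx, hcon⟩
    have h2 : (K : Set F) ⊂ (R₁ : Set F) := lt_of_le_of_ne hK (fun h => hne (SetLike.coe_injective h))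
    have h3 : (K : Set F).ncard < (R₁ : Set F).ncard :=
      Set.ncard_lt_ncard h2 (Set.toFinite _)
    have h4 : Nat.card K = (K : Set F).ncard := rfl
    have h5 : Nat.card R₁ = (R₁ : Set F).ncard := rfl
    omega
  -- powers of `z` normalize `R₁`
  have hpow : ∀ K : Subgroup F, (∀ x ∈ K, z * x * z⁻¹ ∈ K) → ∀ g ∈ zpowers z, ∀ x ∈ K,
      g * x * g⁻¹ ∈ K := by
    intro K hK g hg x hx
    have hpos : 0 < p ^ a := Nat.pos_of_ne_zero (pow_ne_zero _ hp.ne_zero)
    have hf : IsOfFinOrder z := isOfFinOrder_iff_pow_eq_one.2 ⟨p ^ a, hpos, hz⟩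
    rw [← hf.mem_powers_iff_mem_zpowers] at hg
    obtain ⟨j, rfl⟩ := hg
    show z ^ j * x * (z ^ j)⁻¹ ∈ K
    induction j with
    | zero => simpa using hx
    | succ j ih =>
      have h1 := hK _ ih
      have h2 : z * (z ^ j * x * (z ^ j)⁻¹) * z⁻¹ = z ^ (j + 1) * x * (z ^ (j + 1))⁻¹ := by
        rw [pow_succ' z]; group
      rwa [h2] at h1
  -- coprime action on `R₁`
  have htriv : (∀ x ∈ R₁, z * (x⁻¹ * (z * x * z⁻¹)) = (x⁻¹ * (z * x * z⁻¹)) * z) → False := by
    intro h1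
    exact hx₀z (tw_coprime_trivial hcop R₁ (fun x hx => hexp x (hR₁R hx)) hz hzR₁ h1 x₀ hx₀)
  -- `D = R₁`
  have hD : ⁅R₁, zpowers z⁆ = R₁ := by
    have hle : ⁅R₁, zpowers z⁆ ≤ R₁ := by
      rw [Subgroup.commutator_le]
      intro x hx g hg
      rw [commutatorElement_def]
      have h1 := R₁.mul_mem hx (hpow R₁ hzR₁ g hg _ (R₁.inv_mem hx))
      have h2 : x * (g * x⁻¹ * g⁻¹) = x * g * x⁻¹ * g⁻¹ := by group
      rwa [h2] at h1
    by_contra hne
    have hzD : ∀ x ∈ ⁅R₁, zpowers z⁆, z * x * z⁻¹ ∈ ⁅R₁, zpowers z⁆ := by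
      intro x hx
      rw [Subgroup.commutator_def] at hx
      refine Subgroup.closure_induction (p := fun x _ => z * x * z⁻¹ ∈ ⁅R₁, zpowers z⁆)
        ?_ ?_ ?_ ?_ hx
      · rintro _ ⟨y, hy, g, hg, rfl⟩
        have h1 : z * ⁅y, g⁆ * z⁻¹ = ⁅z * y * z⁻¹, z * g * z⁻¹⁆ := by
          simp only [commutatorElement_def]; group
        rw [h1]
        apply Subgroup.commutator_mem_commutator (hzR₁ y hy)
        have hzz : z ∈ zpowers z := mem_zpowers z
        exact (zpowers z).mul_mem ((zpowers z).mul_mem hzz hg) ((zpowers z).inv_mem hzz)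
      · simp
      · intro u v _ _ hu hv
        have h1 : z * (u * v) * z⁻¹ = (z * u * z⁻¹) * (z * v * z⁻¹) := by group
        rw [h1]
        exact Subgroup.mul_mem _ hu hv
      · intro u _ hu
        have h1 : z * u⁻¹ * z⁻¹ = (z * u * z⁻¹)⁻¹ := by group
        rw [h1]
        exact Subgroup.inv_mem _ hu
    apply htriv
    intro x hx
    apply hprop _ hle hne hzD
    have h1 : x⁻¹ * (z * x * z⁻¹) = ⁅x⁻¹, z⁆ := by
      rw [commutatorElement_def]; group
    rw [h1]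
    exact Subgroup.commutator_mem_commutator (R₁.inv_mem hx) (mem_zpowers z)
  -- `Φ`
  let S : Set F := {y | ∃ u ∈ R₁, ∃ v ∈ R₁, ⁅u, v⁆ = y} ∪ {y | ∃ u ∈ R₁, u ^ s = y}
  let Φ : Subgroup F := closure S
  have hSR₁ : S ⊆ R₁ := by
    rintro y (⟨u, hu, v, hv, rfl⟩ | ⟨u, hu, rfl⟩)
    · rw [commutatorElement_def]
      exact R₁.mul_mem (R₁.mul_mem (R₁.mul_mem hu hv) (R₁.inv_mem hu)) (R₁.inv_mem hv)
    · exact R₁.pow_mem hu s
  have hΦle : Φ ≤ R₁ := (closure_le R₁).2 hSR₁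
  have hΦfr : Φ ≤ (frattini R₁).map R₁.subtype := by
    refine (closure_le _).2 ?_
    rintro y (⟨u, hu, v, hv, rfl⟩ | ⟨u, hu, rfl⟩)
    · refine ⟨⁅(⟨u, hu⟩ : R₁), ⟨v, hv⟩⁆, (tw_frattini hs hR₁p).1 ?_, ?_⟩
      · rw [_root_.commutator_def]
        exact Subgroup.commutator_mem_commutator (mem_top _) (mem_top _)
      · rw [map_commutatorElement]; rfl
    · exact ⟨(⟨u, hu⟩ : R₁) ^ s, (tw_frattini hs hR₁p).2 _, rfl⟩
  have hΦne : Φ ≠ R₁ := by
    intro hcon
    have h1 : frattini R₁ = ⊤ := by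
      rw [eq_top_iff]
      rintro ⟨x, hx⟩ -
      have h2 : x ∈ (frattini R₁).map R₁.subtype := hΦfr (by rw [hcon]; exact hx)
      obtain ⟨y, hy, hyx⟩ := h2
      have h3 : y = ⟨x, hx⟩ := Subtype.ext hyx
      rwa [h3] at hy
    have h2 : (⊥ : Subgroup R₁) = ⊤ := by
      apply frattini_nongenerating
      rw [h1, sup_top_eq]
    have h3 : (⟨x₀, hx₀⟩ : R₁) ∈ (⊥ : Subgroup R₁) := by rw [h2]; exact mem_top _
    have h4 : x₀ = 1 := congrArg Subtype.val (Subgroup.mem_bot.1 h3)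
    apply hx₀z
    rw [h4, mul_one, one_mul]
  have hzΦ : ∀ x ∈ Φ, z * x * z⁻¹ ∈ Φ := by
    intro x hx
    refine Subgroup.closure_induction (p := fun x _ => z * x * z⁻¹ ∈ Φ) ?_ ?_ ?_ ?_ hx
    · rintro y (⟨u, hu, v, hv, rfl⟩ | ⟨u, hu, rfl⟩)
      · have h1 : z * ⁅u, v⁆ * z⁻¹ = ⁅z * u * z⁻¹, z * v * z⁻¹⁆ := by
          simp only [commutatorElement_def]; group
        rw [h1]
        exact subset_closure (Or.inl ⟨_, hzR₁ u hu, _, hzR₁ v hv, rfl⟩)
      · have h1 : z * u ^ s * z⁻¹ = (z * u * z⁻¹) ^ s := (conj_pow (i := s) (a := z) (b := u)).symm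
        rw [h1]
        exact subset_closure (Or.inr ⟨_, hzR₁ u hu, rfl⟩)
    · simpa using Φ.one_mem
    · intro u v _ _ hu hv
      have h1 : z * (u * v) * z⁻¹ = (z * u * z⁻¹) * (z * v * z⁻¹) := by group
      rw [h1]
      exact Subgroup.mul_mem _ hu hv
    · intro u _ hu
      have h1 : z * u⁻¹ * z⁻¹ = (z * u * z⁻¹)⁻¹ := by group
      rw [h1]
      exact Subgroup.inv_mem _ hu
  have hzc : ∀ x ∈ Φ, z * x = x * z := hprop Φ hΦle hΦne hzΦ
  have hcΦ : ∀ K : Subgroup F, K ≤ Φ → ⁅K, zpowers z⁆ = ⊥ := by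
    intro K hK
    rw [eq_bot_iff, Subgroup.commutator_le]
    intro x hx g hg
    have h1 : Commute z x := hzc x (hK hx)
    obtain ⟨k, rfl⟩ := mem_zpowers_iff.1 hg
    have h2 : Commute (z ^ k) x := h1.zpow_left k
    rw [Subgroup.mem_bot, commutatorElement_eq_one_iff_commute]
    exact h2.symm
  -- `Φ` is central in `R₁`
  have hcent : ⁅R₁, Φ⁆ = ⊥ := by
    have h1 : ⁅⁅R₁, Φ⁆, zpowers z⁆ = ⊥ := by
      apply hcΦ
      rw [Subgroup.commutator_le]
      intro x hx y hy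
      exact subset_closure (Or.inl ⟨x, hx, y, hΦle hy, rfl⟩)
    have h2 : ⁅⁅Φ, zpowers z⁆, R₁⁆ = ⊥ := by
      rw [hcΦ Φ le_rfl]
      exact Subgroup.commutator_bot_left R₁
    have h3 := Subgroup.commutator_commutator_eq_bot_of_rotate h1 h2
    rw [Subgroup.commutator_comm (zpowers z) R₁, hD] at h3
    exact h3
  have hcomm : ∀ x ∈ R₁, ∀ y ∈ Φ, x * y = y * x := by
    intro x hx y hy
    have h1 : ⁅x, y⁆ ∈ ⁅R₁, Φ⁆ := Subgroup.commutator_mem_commutator hx hy
    rw [hcent, Subgroup.mem_bot, commutatorElement_eq_one_iff_mul_comm] at h1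
    exact h1
  -- the elements `x⁻¹ * (z * x * z⁻¹)` have order dividing `s`
  have hord : ∀ x ∈ R₁, (x⁻¹ * (z * x * z⁻¹)) ^ s = 1 := by
    intro x hx
    obtain ⟨y, hy⟩ : ∃ y, y = z * x * z⁻¹ := ⟨_, rfl⟩
    have hyR : y ∈ R₁ := by rw [hy]; exact hzR₁ x hx
    rw [← hy]
    have hxi : x⁻¹ ∈ R₁ := R₁.inv_mem hx
    obtain ⟨c, hc⟩ : ∃ c, c = ⁅y⁻¹, x⁆ := ⟨_, rfl⟩
    have hcΦ' : c ∈ Φ := by
      rw [hc]
      exact subset_closure (Or.inl ⟨_, R₁.inv_mem hyR, _, hx, rfl⟩)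
    have hyx : y * x⁻¹ = x⁻¹ * y * c := by
      rw [hc, commutatorElement_def]; group
    have hcx : c * x⁻¹ = x⁻¹ * c := (hcomm _ hxi c hcΦ').symm
    have hcy : c * y = y * c := (hcomm _ hyR c hcΦ').symm
    have hcs : c ^ s = 1 := by
      have h1 := gpom_conj_pow hyx hcx hcy s
      have h2 : y ^ s ∈ Φ := subset_closure (Or.inr ⟨y, hyR, rfl⟩)
      rw [← hcomm _ hxi _ h2] at h1
      have h3 : x⁻¹ * y ^ s * 1 = x⁻¹ * y ^ s * c ^ s := by rw [mul_one]; exact h1
      exact (mul_left_cancel h3).symm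
    rw [gpom_mul_pow hyx hcx hcy s]
    obtain ⟨m, hm⟩ : s ∣ s.choose 2 :=
      hs.dvd_choose_self (by norm_num) (lt_of_le_of_ne hs.two_le hs2.symm)
    rw [hm, pow_mul, hcs, one_pow, mul_one]
    have h4 : x ^ s ∈ Φ := subset_closure (Or.inr ⟨x, hx, rfl⟩)
    have h5 := hzc _ h4
    have h6 : y ^ s = x ^ s := by
      rw [hy, conj_pow, h5, mul_inv_cancel_right]
    rw [h6, inv_pow, inv_mul_cancel]
  by_contra hcon
  push Not at hcon
  apply htriv
  intro x hx
  exact hcon _ (R.mul_mem (R.inv_mem (hR₁R hx)) (hR₁R (hzR₁ x hx))) (hord x hx)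

end Pool.Agent.Lib.MP_544bd1_al
end

section

/-!
Theorem G' (paper 275): the A x B lemma.
-/

namespace Pool.Agent.Lib.MP_544bd1_al

open Subgroup

variable {G : Type} [Group G] {M : ℕ}

/-- in a finite 2-group `P` normalized by a 2-element `x`, `P ≠ ⊥`, the subgroup `⁅P, zpowers x⁆` is proper -/
private theorem gp_comm_proper {r b : ℕ} (hr : r.Prime) (P : Subgroup G) [Finite P] (hP : ∀ x ∈ P, x ^ (r ^ b) = 1) {x : G}
    (hx : x ^ (r ^ b) = 1) (hn : ∀ p ∈ P, x * p * x⁻¹ ∈ P) (hne : P ≠ ⊥) :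
    ⁅P, zpowers x⁆ ≠ P := by
  classical
  intro heq
  apply hne
  have hpos : 0 < r ^ b := pow_pos hr.pos b
  have hz := fr_comm_proper_zn hpos hx hn
  -- the subgroup `P * zpowers x`
  let T : Subgroup G :=
    { carrier := {g | ∃ z ∈ zpowers x, g * z⁻¹ ∈ P}
      one_mem' := ⟨1, (zpowers x).one_mem, by simp [P.one_mem]⟩
      mul_mem' := by
        rintro u v ⟨y, hy, hay⟩ ⟨z, hz', hbz⟩
        refine ⟨y * z, (zpowers x).mul_mem hy hz', ?_⟩
        have h1 : u * v * (y * z)⁻¹ = (u * y⁻¹) * (y * (v * z⁻¹) * y⁻¹) := by group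
        rw [h1]
        exact P.mul_mem hay (hz y hy _ hbz)
      inv_mem' := by
        rintro u ⟨y, hy, hay⟩
        refine ⟨y⁻¹, (zpowers x).inv_mem hy, ?_⟩
        have h1 : u⁻¹ * (y⁻¹)⁻¹ = y⁻¹ * (u * y⁻¹)⁻¹ * (y⁻¹)⁻¹ := by group
        rw [h1]
        exact hz _ ((zpowers x).inv_mem hy) _ (P.inv_mem hay) }
  have hPT : P ≤ T := fun p hp => ⟨1, (zpowers x).one_mem, by simpa using hp⟩
  have hxT : zpowers x ≤ T := fun z hz' => ⟨z, hz', by simp [P.one_mem]⟩
  have hfo : IsOfFinOrder x := isOfFinOrder_iff_pow_eq_one.2 ⟨r ^ b, hpos, hx⟩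
  have hfz : Finite (zpowers x) := by
    exact finite_zpowers.2 hfo
  have hTfin : (T : Set G).Finite := by
    have h1 : ((P : Set G) ×ˢ (zpowers x : Set G)).Finite :=
      (Set.toFinite (P : Set G)).prod (Set.toFinite (zpowers x : Set G))
    refine (h1.image (fun q : G × G => q.1 * q.2)).subset ?_
    rintro g ⟨z, hz', hg⟩
    exact ⟨(g * z⁻¹, z), ⟨hg, hz'⟩, by simp⟩
  have hTf : Finite T := hTfin
  have hT16 : ∀ g ∈ T, g ^ (r ^ (b + b)) = 1 := by
    rintro g ⟨z, hz', hg⟩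
    have key : ∀ j : ℕ, g ^ j * (z ^ j)⁻¹ ∈ P := by
      intro j
      induction j with
      | zero => simp [P.one_mem]
      | succ j ih =>
        have h1 : g ^ (j + 1) * (z ^ (j + 1))⁻¹
            = (g * z⁻¹) * (z * (g ^ j * (z ^ j)⁻¹) * z⁻¹) := by
          rw [pow_succ' g, pow_succ' z]; group
        rw [h1]
        exact P.mul_mem hg (hz z hz' _ ih)
    have hz4 : z ^ (r ^ b) = 1 := by
      obtain ⟨k, rfl⟩ := hz'
      rw [← zpow_natCast, ← zpow_mul, mul_comm, zpow_mul, zpow_natCast, hx, one_zpow]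
    have h1 := hP _ (key (r ^ b))
    rw [hz4, inv_one, mul_one, ← pow_mul, ← pow_add] at h1
    exact h1
  have hTp : IsPGroup r T := by
    intro g
    refine ⟨b + b, ?_⟩
    apply Subtype.ext
    have := hT16 g g.2
    simpa using this
  have : Fact (Nat.Prime r) := ⟨hr⟩
  have hnil : Group.IsNilpotent T := hTp.isNilpotent
  set N : Subgroup T := P.subgroupOf T with hN
  set Z : Subgroup T := (zpowers x).subgroupOf T with hZ
  have hNZ : ⁅N, Z⁆ = N := by
    apply Subgroup.map_injective T.subtype_injective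
    rw [Subgroup.map_commutator, hN, hZ, Subgroup.map_subgroupOf_eq_of_le hPT,
      Subgroup.map_subgroupOf_eq_of_le hxT, heq]
  have hlow : ∀ k : ℕ, N ≤ (⊤ : Subgroup T).lowerCentralSeries k := by
    intro k
    induction k with
    | zero => exact le_top
    | succ k ih =>
      rw [← hNZ]
      exact Subgroup.commutator_mono ih le_top
  have hNbot : N = ⊥ := by
    obtain ⟨k, hk⟩ := Subgroup.nilpotent_iff_lowerCentralSeries.1 hnil
    rw [eq_bot_iff, ← hk]
    exact hlow _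
  rw [hN, Subgroup.subgroupOf_eq_bot, disjoint_iff] at hNbot
  rw [← hNbot]
  exact (inf_eq_left.2 hPT).symm

/-- the A x B lemma for a 2-element and a commuting odd element -/
private theorem gp_AB_aux {r b : ℕ} (hr : r.Prime) (hM : 0 < M) (hcop : Nat.Coprime M (r ^ b)) (P : Subgroup G) [Finite P]
    (hP : ∀ x ∈ P, x ^ (r ^ b) = 1) {x s : G}
    (hx : x ^ (r ^ b) = 1) (hs : s ^ M = 1) (hxs : x * s = s * x) (hnx : ∀ p ∈ P, x * p * x⁻¹ ∈ P)
    (hns : ∀ p ∈ P, s * p * s⁻¹ ∈ P) (h : ∀ p ∈ P, x * p = p * x → s * p = p * s) :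
    ∀ p ∈ P, s * p = p * s := by
  have hpos : 0 < r ^ b := pow_pos hr.pos b
  have hcxs : Commute x s := hxs
  have main : ∀ n : ℕ, ∀ Q : Subgroup G, Q ≤ P → Nat.card Q ≤ n →
      (∀ q ∈ Q, x * q * x⁻¹ ∈ Q) → (∀ q ∈ Q, s * q * s⁻¹ ∈ Q) → ∀ q ∈ Q, s * q = q * s := by
    intro n
    induction n with
    | zero =>
      intro Q hQ hc
      have : Finite Q := Finite.of_injective _ (Subgroup.inclusion_injective hQ)
      have := Nat.card_pos (α := Q)
      omega
    | succ n ih =>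
      intro Q hQ hc hQx hQs
      have : Finite Q := Finite.of_injective _ (Subgroup.inclusion_injective hQ)
      have hQ4 : ∀ q ∈ Q, q ^ (r ^ b) = 1 := fun q hq => hP q (hQ hq)
      -- a proper subgroup has smaller cardinality
      have hlt : ∀ D : Subgroup G, D ≤ Q → D ≠ Q → Nat.card D ≤ n := by
        intro D hD hDQ
        have h1 : Nat.card D < Nat.card Q := by
          apply Set.ncard_lt_ncard _ (Set.toFinite (Q : Set G))
          exact lt_of_le_of_ne hD (fun h => hDQ (SetLike.coe_injective h))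
        omega
      have hxz : ∀ z ∈ zpowers s, x * z * x⁻¹ ∈ zpowers s := by
        rintro z ⟨k, rfl⟩
        have h1 : x * s ^ k * x⁻¹ = s ^ k := by
          rw [(hcxs.zpow_right k).eq]; group
        rw [h1]
        exact ⟨k, rfl⟩
      have hsz : ∀ z ∈ zpowers s, s * z * s⁻¹ ∈ zpowers s := by
        rintro z ⟨k, rfl⟩
        have h1 : s * s ^ k * s⁻¹ = s ^ k := by group
        rw [h1]
        exact ⟨k, rfl⟩
      have hxz' : ∀ z ∈ zpowers x, x * z * x⁻¹ ∈ zpowers x := by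
        rintro z ⟨k, rfl⟩
        have h1 : x * x ^ k * x⁻¹ = x ^ k := by group
        rw [h1]
        exact ⟨k, rfl⟩
      have hsz' : ∀ z ∈ zpowers x, s * z * s⁻¹ ∈ zpowers x := by
        rintro z ⟨k, rfl⟩
        have h1 : s * x ^ k * s⁻¹ = x ^ k := by
          rw [(hcxs.symm.zpow_right k).eq]; group
        rw [h1]
        exact ⟨k, rfl⟩
      have hQzs := fr_comm_proper_zn hM hs hQs
      have hQzx := fr_comm_proper_zn hpos hx hQx
      have hle : ∀ Z : Subgroup G, (∀ z ∈ Z, ∀ q ∈ Q, z * q * z⁻¹ ∈ Q) → ⁅Q, Z⁆ ≤ Q := by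
        intro Z hZ
        rw [Subgroup.commutator_le]
        intro q hq z hz
        rw [commutatorElement_def]
        have h1 : q * z * q⁻¹ * z⁻¹ = q * (z * q⁻¹ * z⁻¹) := by group
        rw [h1]
        exact Q.mul_mem hq (hZ z hz _ (Q.inv_mem hq))
      by_cases hD : ⁅Q, zpowers s⁆ = Q
      · by_cases hbot : Q = ⊥
        · intro q hq
          rw [hbot, mem_bot] at hq
          rw [hq, mul_one, one_mul]
        · have hR : ⁅Q, zpowers x⁆ ≠ Q := gp_comm_proper hr Q hQ4 hx hQx hbot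
          have hRQ := hle (zpowers x) hQzx
          have hRs := ih ⁅Q, zpowers x⁆ (hRQ.trans hQ) (hlt _ hRQ hR)
            (fr_comm_proper_norm hQx hxz') (fr_comm_proper_norm hQs hsz')
          have h1 : ⁅⁅Q, zpowers x⁆, zpowers s⁆ = ⊥ := by
            rw [Subgroup.commutator_eq_bot_iff_le_centralizer]
            intro r hr
            rw [Subgroup.mem_centralizer_iff]
            rintro _ ⟨k, rfl⟩
            exact ((show Commute s r from hRs r hr).zpow_left k).eq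
          have h2 : ⁅⁅zpowers x, zpowers s⁆, Q⁆ = ⊥ := by
            have h3 : ⁅zpowers x, zpowers s⁆ = ⊥ := by
              rw [Subgroup.commutator_eq_bot_iff_le_centralizer]
              rintro _ ⟨k, rfl⟩
              rw [Subgroup.mem_centralizer_iff]
              rintro _ ⟨l, rfl⟩
              exact ((hcxs.symm.zpow_left l).zpow_right k).eq
            rw [h3, Subgroup.commutator_bot_left]
          have h3 : ⁅⁅zpowers s, Q⁆, zpowers x⁆ = ⊥ := by
            apply Subgroup.commutator_commutator_eq_bot_of_rotate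
            · exact h1
            · exact h2
          rw [Subgroup.commutator_comm (zpowers s) Q, hD,
            Subgroup.commutator_eq_bot_iff_le_centralizer] at h3
          intro q hq
          apply h q (hQ hq)
          have h4 := h3 hq
          rw [Subgroup.mem_centralizer_iff] at h4
          exact h4 x (mem_zpowers x)
      · have hDQ := hle (zpowers s) hQzs
        have hDs := ih ⁅Q, zpowers s⁆ (hDQ.trans hQ) (hlt _ hDQ hD)
          (fr_comm_proper_norm hQx hxz) (fr_comm_proper_norm hQs hsz)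
        apply tw_coprime_trivial hcop Q hQ4 hs hQs
        intro y hy
        apply hDs
        have h1 := Subgroup.commutator_mem_commutator (Q.inv_mem hy) (mem_zpowers s)
        rw [commutatorElement_def] at h1
        have h2 : y⁻¹ * (s * y * s⁻¹) = y⁻¹ * s * (y⁻¹)⁻¹ * s⁻¹ := by group
        rw [h2]
        exact h1
  exact main (Nat.card P) P le_rfl le_rfl hnx hns

/-- **Thompson's A x B lemma in the form needed**: `x` an `r`-element, `s` an `M`-element commuting with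
`x`; if `s` is in `O_{r'}` of the centralizer of `x` in the finite solvable group `F`, then
`s ∈ O_{r'}(F)`.

Proof. This is `zt_AxB` (ZtAxB.lean) with `2` replaced by the prime `r` (`2 ^ a` by `r ^ b`, `m` by `M`;
`zt_cop hm a` by `Nat.Coprime M (r ^ b)`; `¬ 2 ∣ Nat.card (krad m F)` by `tw_card_cop` (TwS1.lean));
copy its proof together with its two private lemmas (for the proper commutator subgroup use
`IsPGroup r`). -/
theorem gp_AxB {M r b : ℕ} (hr : r.Prime) (hrM : ¬ r ∣ M) (hM : 0 < M) {F : Type} [Group F]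
    [Finite F] (hsol : Group.IsSolvable F) (hexp : ∀ x : F, x ^ (M * r ^ b) = 1) {x s : F}
    (hx : x ^ (r ^ b) = 1) (hs : s ^ M = 1) (hxs : x * s = s * x)
    (h : InO M (centralizer {x}) s) : InO M (⊤ : Subgroup F) s := by
  have hcop : Nat.Coprime M (r ^ b) := (Nat.Coprime.pow_left b ((Nat.Prime.coprime_iff_not_dvd hr).2 hrM)).symm
  rw [← tw_mem_krad_iff hcop hexp]
  have hexp₁ : ∀ y : F ⧸ krad M F, y ^ (M * r ^ b) = 1 := tw_exp_quot hexp _
  have hWp : ∀ w ∈ krad (r ^ b) (F ⧸ krad M F), w ^ (r ^ b) = 1 :=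
    tw_krad_pow hcop.symm (tw_exp_comm hexp₁)
  have hkp : ∀ y ∈ krad M F, y ^ M = 1 := tw_krad_pow hcop hexp
  have hcard : ¬ r ∣ Nat.card (krad M F) := by
    intro h2
    have : Fact (Nat.Prime r) := ⟨hr⟩
    obtain ⟨y, hy⟩ := exists_prime_orderOf_dvd_card' (G := krad M F) r h2
    have h3 : y ^ M = 1 := Subtype.ext (by simpa using hkp y y.2)
    have h4 : r ∣ M := by
      rw [← hy]
      exact orderOf_dvd_of_pow_eq_one h3
    exact hrM h4
  let f := QuotientGroup.mk' (krad M F)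
  have hfs : (f s) ^ M = 1 := by rw [← map_pow, hs, map_one]
  have hfx : (f x) ^ (r ^ b) = 1 := by rw [← map_pow, hx, map_one]
  have hcent : ∀ p ∈ krad (r ^ b) (F ⧸ krad M F), f s * p = p * f s := by
    apply gp_AB_aux hr hM hcop (krad (r ^ b) (F ⧸ krad M F)) hWp hfx hfs
      (by rw [← map_mul, hxs, map_mul]) (fun p hp => (krad_normal (r ^ b) _).conj_mem p hp _)
      (fun p hp => (krad_normal (r ^ b) _).conj_mem p hp _)
    intro w hw hxw
    obtain ⟨g, hg⟩ := QuotientGroup.mk'_surjective (krad M F) w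
    have hgN : g⁻¹ * (x * g * x⁻¹) ∈ krad M F := by
      rw [← QuotientGroup.eq_one_iff]
      show f (g⁻¹ * (x * g * x⁻¹)) = 1
      rw [map_mul, map_mul, map_mul, map_inv, map_inv]
      have h1 : f g = w := hg
      rw [h1, hxw]
      group
    obtain ⟨y, hy1, hy2⟩ := tw_coset_fix hr hx (krad M F) hcard
      (fun z hz => (krad_normal M F).conj_mem z hz x) hgN
    have hyw : f y = w := by
      have h1 : f (g⁻¹ * y) = 1 := (QuotientGroup.eq_one_iff _).2 hy1
      rw [map_mul, map_inv, inv_mul_eq_one] at h1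
      rw [← h1]
      exact hg
    have hyC : y ∈ centralizer {x} := by
      rw [mem_centralizer_singleton_iff]
      exact hy2.symm
    have h2 : ((f s)⁻¹ * (w⁻¹ * f s * w)) ^ M = 1 := by
      rw [← hyw, ← map_inv, ← map_inv, ← map_mul, ← map_mul, ← map_mul, ← map_pow, h.comm_odd hyC,
        map_one]
    have h3 : (f s)⁻¹ * (w⁻¹ * f s * w) ∈ krad (r ^ b) (F ⧸ krad M F) := by
      have h4 := (krad_normal (r ^ b) (F ⧸ krad M F)).conj_mem w⁻¹ (inv_mem hw) (f s)⁻¹
      have h5 := mul_mem h4 hw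
      have h6 : (f s)⁻¹ * w⁻¹ * (f s)⁻¹⁻¹ * w = (f s)⁻¹ * (w⁻¹ * f s * w) := by group
      rwa [h6] at h5
    have h7 := tw_one hcop h2 (hWp _ h3)
    have h8 : w⁻¹ * f s * w = f s := (inv_mul_eq_one.1 h7).symm
    calc f s * w = w * (w⁻¹ * f s * w) := by group
      _ = w * f s := by rw [h8]
  have hsol₁ : Group.IsSolvable (F ⧸ krad M F) :=
    Group.isSolvable_of_surjective (QuotientGroup.mk'_surjective (krad M F))
  have h9 := fr_fitting hcop.symm (pow_pos hr.pos b) hM hsol₁ (tw_exp_comm hexp₁)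
    (tw_krad_quot hcop hexp) hcent
  have h10 : f s = 1 := tw_one hcop hfs (hWp _ h9)
  exact (QuotientGroup.eq_one_iff _).1 h10

end Pool.Agent.Lib.MP_544bd1_al
end

section

/-!
Theorem Z (paper 287): (R2).
-/

namespace Pool.Agent.Lib.MP_544bd1_al

open Subgroup

/-- **(R2)**

Proof. (`tw_X`) it is enough to show `GoodS m (2 ^ a) z` if there is no `d`. `z ^ (2 ^ a) = 1`. Let
`T` be finite, solvable, `z ∈ T`; suppose `¬ InOP m (2 ^ a) T z`. In `F := ↥T` (exponent
`m * 2 ^ a`, `tw_exp_sub`) `zp m a F z₀ ≠ 1` (`zt_op_iff`, `InOP.top_iff`), where `z₀ = ⟨z, _⟩`. By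
`zt_krad_ne` (with `zt_sol`, `zt_exp`, `zt_bot`) there is `y ∈ krad m (ZH m a F)` with
`zp z₀ * y ≠ y * zp z₀`. Let `e = y⁻¹ * (zp z₀ * y * (zp z₀)⁻¹)`: `e ≠ 1`, `e ^ m = 1` (`krad` is
normal, `tw_krad_pow`). Let `zp g = y`, `h = g⁻¹ * (z₀ * g * z₀⁻¹)`: `z₀ * h * z₀⁻¹ = h⁻¹`,
`zp h = e`. Let `l ≡ 0 mod 2 ^ a`, `l ≡ 1 mod m`, `d = h ^ l`: `d ^ m = 1`, `z₀ * d * z₀⁻¹ = d⁻¹`,
`zp d = e ^ l = e ≠ 1`. -/
theorem ys_R2 {m a : ℕ} {G : Type} [Group G] (H : YG m a G) {z : G} (hz2 : z ^ 2 = 1) (hz1 : z ≠ 1) :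
    ∃ d : G, d ≠ 1 ∧ d ^ m = 1 ∧ z * d * z⁻¹ = d⁻¹ := by
  have hm := H.hm
  by_contra hcon
  push Not at hcon
  have hz8 : z ^ (2 ^ a) = 1 := by
    have ha : 1 ≤ a := le_trans (by norm_num) H.ha
    have : z ^ (2 ^ a) = (z ^ 2) ^ (2 ^ (a - 1)) := by
      rw [← pow_mul, ← pow_succ', Nat.sub_add_cancel ha]
    rw [this, hz2, one_pow]
  refine hz1 (tw_X H.tw rfl H.hm H.no2 H.noO ?_ hz2)
  refine ⟨hz8, fun T hfin hsol hzT => ?_⟩
  by_contra hbad
  have hexpT : ∀ x : T, x ^ (m * 2 ^ a) = 1 := tw_exp_sub H.tw.hexp T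
  let z₀ : T := ⟨z, hzT⟩
  have hz₀2 : z₀ ^ 2 = 1 := Subtype.ext (by simpa [z₀] using hz2)
  have h1 : zp m a T z₀ ≠ 1 := by
    intro h
    apply hbad
    exact (InOP.top_iff z₀).1 ((zt_op_iff hm hexpT).2 h)
  have hZ2 : (zp m a T z₀) ^ 2 = 1 := by rw [← map_pow, hz₀2, map_one]
  obtain ⟨y, hy, hyne⟩ := zt_krad_ne (a := a) hm (zt_sol (m := m) (a := a) hsol) (zt_exp hexpT)
    (zt_bot hm hexpT) hZ2 h1
  obtain ⟨g, rfl⟩ := zp_surj y
  have hzi : z₀⁻¹ = z₀ := fr_inv_of_sq hz₀2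
  let h : T := g⁻¹ * (z₀ * g * z₀⁻¹)
  have hzh : z₀ * h * z₀⁻¹ = h⁻¹ := by
    have e0 : z₀ * z₀ = 1 := fr_mul_self hz₀2
    have e1 : h⁻¹ = z₀ * g⁻¹ * z₀⁻¹ * g := by simp only [h]; group
    rw [e1]
    simp only [h, hzi]
    calc z₀ * (g⁻¹ * (z₀ * g * z₀)) * z₀ = z₀ * g⁻¹ * z₀ * g * (z₀ * z₀) := by group
      _ = z₀ * g⁻¹ * z₀ * g := by rw [e0, mul_one]
  have he : zp m a T h ∈ krad m (ZH m a T) := by
    simp only [h, map_mul, map_inv]
    exact mul_mem (inv_mem hy) ((krad_normal m _).conj_mem _ hy _)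
  have hem : (zp m a T h) ^ m = 1 := tw_krad_pow (zt_cop hm a) (zt_exp hexpT) _ he
  have hene : zp m a T h ≠ 1 := by
    intro e1
    apply hyne
    simp only [h, map_mul, map_inv] at e1
    have e2 := inv_mul_eq_one.1 e1
    calc zp m a T z₀ * zp m a T g = (zp m a T z₀ * zp m a T g * (zp m a T z₀)⁻¹) * zp m a T z₀ := by
          group
      _ = zp m a T g * zp m a T z₀ := by rw [← e2]
  obtain ⟨l, hl1, hl2⟩ := Nat.chineseRemainder (zt_cop hm a) 1 0
  have hd : ∀ k : ℕ, z₀ * h ^ k * z₀⁻¹ = (h ^ k)⁻¹ := by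
    intro k
    rw [← conj_pow, hzh, inv_pow]
  have hlm : (h ^ l) ^ m = 1 := by
    obtain ⟨q, hq⟩ := (Nat.modEq_zero_iff_dvd).1 hl2
    rw [← pow_mul, hq, show 2 ^ a * q * m = m * 2 ^ a * q by ring, pow_mul, hexpT, one_pow]
  have hle : (zp m a T h) ^ l = zp m a T h := by
    have e1 : (zp m a T h) ^ l = (zp m a T h) ^ 1 := by
      rw [pow_eq_pow_iff_modEq]
      exact hl1.of_dvd (orderOf_dvd_of_pow_eq_one hem)
    rw [e1, pow_one]
  apply hcon ((h ^ l : T) : G)
  · intro e1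
    have e2 : h ^ l = 1 := Subtype.ext e1
    apply hene
    rw [← hle, ← map_pow, e2, map_one]
  · have := congrArg Subtype.val hlm
    simpa using this
  · have := congrArg Subtype.val (hd l)
    simpa [z₀] using this

end Pool.Agent.Lib.MP_544bd1_al
end

section

/-!
Theorem G' (paper 275): absorbing elements in the centralizer of an r-element.
-/

namespace Pool.Agent.Lib.MP_544bd1_al

open Subgroup

/-- **Absorbing in `C_G(y)`** (this is (P1) of paper 275 together with 0.1).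

Proof. Suppose `e ≠ 1`. Let `C = centralizer {y}`, as a group; `e ∈ C` and `C` has exponent `n`. For
`w ∈ C` with `w ^ M = 1`: `(e * w) ^ M = 1` by `tw_R1_mul` (TwB2.lean; `T = closure {e, w}`, `h w`). So
`normal_of_absorbing` (Main.lean; `P := M`, in the group `C`) gives a normal subgroup `K ≠ ⊥` of `C`
with `x ^ M = 1` for `x ∈ K`. Take `e' ∈ K`, `e' ≠ 1` (an element of `G` commuting with `y`).
`tw_adjoin` (TwB2.lean; `c := e'`, `w := y`, `y⁻¹ * e' * y = e'`): there is a finite solvable `T` with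
`e', y ∈ T` and `¬ InO M T e'`. In the group `T` (`gp_AxB` with `F := T`, `x := y`, `s := e'`):
`N = {t ∈ T | t ∈ C and t ∈ K}` is a subgroup of `centralizer {y}` (in `T`), normalized by it, of
exponent `M`, containing `e'`. So `InO M (⊤ : Subgroup T) e'`, i.e. `InO M T e'`
(`InO.top_iff`), a contradiction. (`n = M * r ^ b`; `0 < M` from `H.pos`.) -/
theorem gp_absorb {G : Type} [Group G] {n M r b : ℕ} (H : TwG n G) (hr : r.Prime)
    (hn : n = M * r ^ b) (hrM : ¬ r ∣ M) (hno : NoN M G) {y e : G} (hy : y ^ (r ^ b) = 1)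
    (hye : y * e = e * y) (he : e ^ M = 1)
    (h : ∀ g : G, g * y = y * g → InO M (closure {e, g}) e) : e = 1 := by
  by_contra he1
  have hcop : Nat.Coprime M (r ^ b) :=
    (Nat.Coprime.pow_left b ((Nat.Prime.coprime_iff_not_dvd hr).2 hrM)).symm
  have hexp : ∀ x : G, x ^ (M * r ^ b) = 1 := by
    intro x
    rw [← hn]
    exact H.hexp x
  have hM : 0 < M := by
    rcases Nat.eq_zero_or_pos M with h0 | h0
    · exfalso
      have h1 := H.pos
      rw [hn, h0, zero_mul] at h1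
      exact lt_irrefl _ h1
    · exact h0
  have heC : e ∈ centralizer {y} := mem_centralizer_singleton_iff.2 hye.symm
  obtain ⟨K, hK1, hK2, hK3⟩ := normal_of_absorbing (G := centralizer {y}) (P := M) (w := ⟨e, heC⟩)
    H.pos (fun x => Subtype.ext (by simpa using H.hexp (x : G)))
    (fun h1 => he1 (congrArg Subtype.val h1)) (by
      intro g hg
      have hg1 : (g : G) ^ M = 1 := by
        have h1 := congrArg Subtype.val hg
        simpa using h1
      have hgy : (g : G) * y = y * g := mem_centralizer_singleton_iff.1 g.2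
      have h1 := tw_R1_mul hcop hexp (h g hgy) (subset_closure (by simp)) hg1
      exact Subtype.ext (by simpa using h1))
  obtain ⟨a, ha⟩ := Subgroup.ne_bot_iff_exists_ne_one.1 hK2
  obtain ⟨e', heK, he'⟩ : ∃ e' : centralizer {y}, e' ∈ K ∧ e' ≠ 1 :=
    ⟨(a : centralizer {y}), a.2, fun h1 => ha (Subtype.ext h1)⟩
  have hyc : (e' : G) * y = y * e' := mem_centralizer_singleton_iff.1 e'.2
  have heM : (e' : G) ^ M = 1 := by
    have h1 := congrArg Subtype.val (hK3 e' heK)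
    simpa using h1
  have he1' : (e' : G) ≠ 1 := fun h1 => he' (Subtype.ext h1)
  have hconj : y⁻¹ * (e' : G) * y = e' := by
    rw [mul_assoc, hyc, inv_mul_cancel_left]
  obtain ⟨T, hTf, hTs, heT, hyT, hno'⟩ := tw_adjoin H hn hcop hno (c := (e' : G)) (w := y) heM he1'
    (by rw [hconj]; exact mem_zpowers _)
  apply hno'
  have key : InO M (centralizer {(⟨y, hyT⟩ : T)}) (⟨e', heT⟩ : T) := by
    refine ⟨(K.map (centralizer {y}).subtype).subgroupOf T, ?_, ?_, ?_, ?_⟩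
    · rintro t ⟨k, hk, hkt⟩
      rw [mem_centralizer_singleton_iff]
      apply Subtype.ext
      have h1 : (k : G) * y = y * k := mem_centralizer_singleton_iff.1 k.2
      have h2 : (k : G) = t := hkt
      show (t : G) * y = y * t
      rw [← h2, h1]
    · exact ⟨e', heK, rfl⟩
    · rintro t ht x ⟨k, hk, hkx⟩
      rw [mem_centralizer_singleton_iff] at ht
      have h1 : (t : G) * y = y * t := congrArg Subtype.val ht
      have h2 : (t : G) ∈ centralizer {y} := mem_centralizer_singleton_iff.2 h1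
      refine ⟨⟨t, h2⟩ * k * ⟨t, h2⟩⁻¹, hK1.conj_mem k hk ⟨t, h2⟩, ?_⟩
      have h3 : (k : G) = x := hkx
      show (t : G) * k * (t : G)⁻¹ = t * x * (t : G)⁻¹
      rw [h3]
    · rintro x ⟨k, hk, hkx⟩
      have h1 := congrArg Subtype.val (hK3 k hk)
      have h2 : (k : G) ^ M = 1 := by simpa using h1
      have h3 : (k : G) = x := hkx
      apply Subtype.ext
      show (x : G) ^ M = 1
      rw [← h3, h2]
  exact (InO.top_iff (⟨e', heT⟩ : T)).1 (gp_AxB hr hrM hM hTs (fun x => Subtype.ext (by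
    simpa using hexp (x : G))) (Subtype.ext (by simpa using hy)) (Subtype.ext (by simpa using heM))
    (Subtype.ext hyc.symm) key)

end Pool.Agent.Lib.MP_544bd1_al
end
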