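import Mathlib
import Pool.Agent.Lib.MP_544bd1_al.TwS3
import Pool.Agent.Lib.MP_544bd1_al.EvM2
import Pool.Agent.Lib.MP_544bd1_al.E5.Coind
import Pool.Agent.Lib.MP_544bd1_al.TwS2
import Pool.Agent.Lib.MP_544bd1_al.TwLZ
import Pool.Agent.Lib.MP_544bd1_al.FrB

section

/-!
Theorem G' (paper 275): the abelian lemma in coprime characteristic.
-/

namespace Pool.Agent.Lib.MP_544bd1_al

open Subgroup

/-- **Abelian lemma in coprime characteristic**, over an algebraically closed field.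

Proof. Let `q = p ^ a`, `β x = α^[p ^ (a - 1)] x`. Suppose `ρ (β x) ≠ ρ x`; let `y = x⁻¹ * β x` (`β` is
an iterate of the homomorphism `α`), so `B = ρ y - 1 ≠ 0`. Its range is nonzero and invariant under
all `ρ g` (they commute), so there is a common eigenvector `v = B w ≠ 0`, `ρ g v = χ g • v` for all `g`
(`tw_common_eigen` (TwL3a.lean) applied to the restrictions of the `ρ g` to the range of `B`). (1)
`χ y ≠ 1`: otherwise `N • v = ∑ i < N, ρ y ^ i v = ∑ i < N, ρ y ^ i (ρ y - 1) w = (ρ y ^ N - 1) w = 0`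
with `N = Nat.card D` (`y ^ N = 1`), contradicting `hD`. So `χ (β x) ≠ χ x` (`χ` is multiplicative as
`v ≠ 0`, `χ x ≠ 0`).
(2) `w i = U ^ i v`: `ρ g (U ^ i v) = χ (α^[q - i] g) • U ^ i v` for `i ≤ q`: `LDat.iter` (TwL1.lean):
`U ^ (q - i) * ρ g = ρ (α^[q - i] g) * U ^ (q - i)`; multiply by `U ^ i` on the left
(`U ^ q = 1`): `ρ g * U ^ i = U ^ i * ρ (α^[q - i] g) * U ^ (q - i) * U ^ i = U ^ i * ρ (α^[q - i] g)`.
(3) If `1 ≤ j < q` and `χ (α^[j] g) = χ g` for all `g`, then `χ (α^[j * k] g) = χ g` for all `k`; and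
`χ (α^[q * k] g) = χ g` (`LDat.iter_q`); there are `k, l` with `j * k = p ^ (a - 1) + q * l` (write
`j = p ^ e * j'`, `p ∤ j'`, `e ≤ a - 1`, and invert `j'` mod `p ^ (a - e)`), so `χ (β g) = χ g` for all
`g`, a contradiction to (1). So the weights `χ i = fun g => χ (α^[q - i] g)` (`1 ≤ i ≤ q - 1`) differ
from `χ 0 = χ` (use `α^[q]`), and `∑ i < q, U ^ i v = 0` (`LDat.hN`) contradicts `tw_weights`
(TwL3a.lean): `v = 0`. -/
theorem gp_ab {K : Type} [Field K] [IsAlgClosed K] {p a : ℕ} (hp : p.Prime) (ha : 0 < a)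
    {V D : Type} [AddCommGroup V] [Module K V] [FiniteDimensional K V] [Group D] [Finite D]
    (hD : (Nat.card D : K) ≠ 0) {α : D →* D} {ρ : D →* Module.End K V} {U : Module.End K V}
    (hab : ∀ x y, ρ x * ρ y = ρ y * ρ x) (L : LDat (p ^ a) α ρ U) (x : D) :
    ρ (α^[p ^ (a - 1)] x) = ρ x := by
  have hq0 : 0 < p ^ a := pow_pos hp.pos a
  by_contra hcon
  obtain ⟨y, hy⟩ : ∃ y, y = x⁻¹ * α^[p ^ (a - 1)] x := ⟨_, rfl⟩
  have hxy : α^[p ^ (a - 1)] x = x * y := by rw [hy, mul_inv_cancel_left]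
  have hB : ρ y - 1 ≠ 0 := by
    intro h
    apply hcon
    rw [hxy, map_mul, sub_eq_zero.1 h, mul_one]
  obtain ⟨B, hBe⟩ : ∃ B : Module.End K V, B = ρ y - 1 := ⟨_, rfl⟩
  rw [← hBe] at hB
  have hBc : ∀ g v, ρ g (B v) = B (ρ g v) := by
    intro g v
    have h := congrArg (fun f : Module.End K V => f v) (hab g y)
    simp only [Module.End.mul_apply] at h
    rw [hBe]
    simp only [LinearMap.sub_apply, Module.End.one_apply, map_sub]
    rw [h]
  have hinv : ∀ g, ∀ v ∈ LinearMap.range B, ρ g v ∈ LinearMap.range B := by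
    rintro g _ ⟨v, rfl⟩
    exact ⟨ρ g v, (hBc g v).symm⟩
  have hnt : Nontrivial (LinearMap.range B) := by
    rw [Submodule.nontrivial_iff_ne_bot]
    intro h
    exact hB (LinearMap.range_eq_bot.1 h)
  obtain ⟨χ, v', hv', hχ'⟩ := tw_common_eigen (fun g => (ρ g).restrict (hinv g)) (by
    intro g h
    ext w
    have h1 := congrArg (fun f : Module.End K V => f w) (hab g h)
    simpa [Module.End.mul_apply, LinearMap.restrict_apply] using h1)
  obtain ⟨v, hv⟩ : ∃ v : V, v = v' := ⟨_, rfl⟩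
  have hv0 : v ≠ 0 := by
    rw [hv]
    simpa using hv'
  have hχ : ∀ g, ρ g v = χ g • v := by
    intro g
    have h1 := congrArg Subtype.val (hχ' g)
    rw [hv]
    simpa using h1
  obtain ⟨w, hw⟩ : ∃ w, B w = v := by
    obtain ⟨w, hw⟩ := v'.2
    exact ⟨w, by rw [hw, hv]⟩
  have hinj : ∀ c d : K, c • v = d • v → c = d := fun c d h => smul_left_injective K hv0 h
  have hχm : ∀ g h, χ (g * h) = χ g * χ h := by
    intro g h
    apply hinj
    rw [← hχ, map_mul, Module.End.mul_apply, hχ h, map_smul, hχ g, smul_smul, mul_comm]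
  have hχ1 : χ 1 = 1 := by
    apply hinj
    rw [← hχ, map_one, Module.End.one_apply, one_smul]
  have hχ0 : ∀ g, χ g ≠ 0 := by
    intro g h
    have h2 := hχm g g⁻¹
    rw [mul_inv_cancel, hχ1, h, zero_mul] at h2
    exact one_ne_zero h2
  have hχy : χ y ≠ 1 := by
    intro h
    have h1 : ρ y v = v := by rw [hχ, h, one_smul]
    have h2 : ∀ i : ℕ, (ρ y ^ i) v = v := by
      intro i
      induction i with
      | zero => rfl
      | succ i ih => rw [pow_succ, Module.End.mul_apply, h1, ih]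
    have h3 : (∑ i ∈ Finset.range (Nat.card D), ρ y ^ i) v = (Nat.card D : K) • v := by
      rw [LinearMap.sum_apply, Finset.sum_congr rfl (fun i _ => h2 i), Finset.sum_const,
        Finset.card_range, Nat.cast_smul_eq_nsmul]
    have h4 := geom_sum_mul (ρ y) (Nat.card D)
    rw [← map_pow, pow_card_eq_one', map_one, sub_self, ← hBe] at h4
    have h5 := congrArg (fun f : Module.End K V => f w) h4
    simp only [Module.End.mul_apply, hw, LinearMap.zero_apply] at h5
    rw [h3] at h5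
    exact hv0 ((smul_eq_zero.1 h5).resolve_left hD)
  have hχx : χ (α^[p ^ (a - 1)] x) ≠ χ x := by
    rw [hxy, hχm]
    intro h
    exact hχy (mul_left_cancel₀ (hχ0 x) (by rw [h, mul_one]))
  -- the periods of `χ`
  have hSq : ∀ g, χ (α^[p ^ a] g) = χ g := by
    intro g
    apply hinj
    rw [← hχ, L.iter_q, hχ]
  have hSadd : ∀ n m : ℕ, (∀ g, χ (α^[m] g) = χ g) → (∀ g, χ (α^[n] g) = χ g) →
      ∀ g, χ (α^[m + n] g) = χ g := by
    intro n m hm hn g
    rw [Function.iterate_add_apply, hm, hn]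
  have hSmul : ∀ n k : ℕ, (∀ g, χ (α^[n] g) = χ g) → ∀ g, χ (α^[n * k] g) = χ g := by
    intro n k hn
    induction k with
    | zero => intro g; rfl
    | succ k ih =>
      rw [Nat.mul_succ]
      exact hSadd n (n * k) ih hn
  have hS : ∀ j : ℕ, 0 < j → j < p ^ a → ¬ ∀ g, χ (α^[j] g) = χ g := by
    intro j hj0 hjq hj
    have hgle : Nat.gcd j (p ^ a) ≤ j := Nat.gcd_le_left _ hj0
    obtain ⟨m, -, hm⟩ := Nat.exists_mul_mod_eq_gcd (n := j) (k := p ^ a) (by omega)
    have hgS : ∀ g, χ (α^[Nat.gcd j (p ^ a)] g) = χ g := by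
      intro g
      have h1 : j * m = p ^ a * (j * m / p ^ a) + Nat.gcd j (p ^ a) := by
        rw [← hm]
        exact (Nat.div_add_mod _ _).symm
      have h2 := hSmul j m hj g
      rw [h1, Function.iterate_add_apply, hSmul _ _ hSq] at h2
      exact h2
    obtain ⟨e, he, hge⟩ := (Nat.dvd_prime_pow hp).1 (Nat.gcd_dvd_right j (p ^ a))
    have hea : e ≠ a := by
      rintro rfl
      omega
    have hd : p ^ e ∣ p ^ (a - 1) := pow_dvd_pow _ (by omega)
    obtain ⟨k, hk⟩ := hd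
    apply hχx
    rw [hk, ← hge]
    exact hSmul _ _ hgS x
  have key := tw_weights (fun g => ρ g) (p ^ a - 1) (fun i g => χ (α^[p ^ a - i] g))
    (fun i => (U ^ i) v) (by
      intro i hi g
      have h1 := L.iter (p ^ a - i) g
      have h2 : U ^ i * U ^ (p ^ a - i) = 1 := by
        rw [← pow_add, Nat.add_sub_cancel' (by omega), L.hq]
      have h3 : U ^ (p ^ a - i) * U ^ i = 1 := by
        rw [← pow_add, Nat.sub_add_cancel (by omega), L.hq]
      have h4 : ρ g * U ^ i = U ^ i * ρ (α^[p ^ a - i] g) := by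
        calc ρ g * U ^ i = (U ^ i * U ^ (p ^ a - i)) * ρ g * U ^ i := by rw [h2, one_mul]
          _ = U ^ i * (U ^ (p ^ a - i) * ρ g) * U ^ i := by simp only [mul_assoc]
          _ = U ^ i * (ρ (α^[p ^ a - i] g) * U ^ (p ^ a - i)) * U ^ i := by rw [h1]
          _ = U ^ i * ρ (α^[p ^ a - i] g) * (U ^ (p ^ a - i) * U ^ i) := by
            simp only [mul_assoc]
          _ = U ^ i * ρ (α^[p ^ a - i] g) := by rw [h3, mul_one]
      have h5 := congrArg (fun f : Module.End K V => f v) h4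
      simp only [Module.End.mul_apply] at h5
      rw [h5, hχ, map_smul]) (by
      intro i hi1 hi2 heq
      refine hS (p ^ a - i) (by omega) (by omega) fun g => ?_
      have h1 := congrFun heq g
      simp only [Nat.sub_zero] at h1
      rw [h1, hSq]) (by
      have h1 := congrArg (fun f : Module.End K V => f v) L.hN
      rw [Nat.sub_add_cancel (by omega)]
      simpa [LinearMap.sum_apply] using h1)
  exact hv0 key

end Pool.Agent.Lib.MP_544bd1_al
end

section

/-!
Theorem G' (paper 275): the module Q/Q_1.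
-/

namespace Pool.Agent.Lib.MP_544bd1_al

open Subgroup

variable {M r b : ℕ} {F : Type} [Group F] [Finite F]

private lemma gp_qmod_aux00 {F V : Type} [Group F] [AddCommGroup V] {p : ℕ}
    [Module (ZMod p) V] (c : F → V →+ V) (h1 : ∀ x, c 1 x = x)
    (hm : ∀ g h x, c (g * h) x = c g (c h x)) :
    ∃ (ρ : F →* Module.End (ZMod p) V), ∀ (g : F) (x : V), c g x = ρ g x := by
  let A : F → Module.End (ZMod p) V := fun g => AddMonoidHom.toZModLinearMap p (c g)
  have hA : ∀ (g : F) (v : V), A g v = c g v := fun g v => rfl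
  have hA1 : A 1 = 1 := by
    refine LinearMap.ext fun v => ?_
    rw [hA, Module.End.one_apply, h1]
  have hAm : ∀ g h, A (g * h) = A g * A h := by
    intro g h
    refine LinearMap.ext fun v => ?_
    rw [hA, Module.End.mul_apply, hA, hA, hm]
  exact ⟨{ toFun := A, map_one' := hA1, map_mul' := hAm }, fun g x => rfl⟩

private lemma gp_qmod_aux0 {F V : Type} [Group F] [AddCommGroup V] {p : ℕ}
    (hz : ∀ v : V, p • v = 0) (c : F → V →+ V) (h1 : ∀ x, c 1 x = x)
    (hm : ∀ g h x, c (g * h) x = c g (c h x)) :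
    ∃ (_ : Module (ZMod p) V) (ρ : F →* Module.End (ZMod p) V), ∀ (g : F) (x : V),
      c g x = ρ g x :=
  ⟨AddCommGroup.zmodModule hz, @gp_qmod_aux00 F V _ _ p (AddCommGroup.zmodModule hz) c h1 hm⟩

private lemma gp_qmod_aux {F Q : Type} [Group F] [CommGroup Q] [Finite Q] {p : ℕ}
    (hz : ∀ x : Q, x ^ p = 1) (c : F → Q →* Q) (h1 : ∀ x, c 1 x = x)
    (hm : ∀ g h x, c (g * h) x = c g (c h x)) :
    ∃ (V : Type) (_ : AddCommGroup V) (_ : Module (ZMod p) V) (_ : Finite V)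
      (ρ : F →* Module.End (ZMod p) V) (ψ : Q → V), Function.Bijective ψ ∧
      (∀ x y, ψ (x * y) = ψ x + ψ y) ∧ ∀ (g : F) (x : Q), ψ (c g x) = ρ g (ψ x) := by
  have hz' : ∀ v : Additive Q, p • v = 0 := by
    intro v
    apply Additive.toMul.injective
    rw [toMul_nsmul, hz]
    rfl
  obtain ⟨iM, ρ, hρ⟩ := gp_qmod_aux0 (F := F) hz' (fun g => MonoidHom.toAdditive (c g))
    (fun x => congrArg Additive.ofMul (h1 (Additive.toMul x)))
    (fun g h x => congrArg Additive.ofMul (hm g h (Additive.toMul x)))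
  exact ⟨Additive Q, inferInstance, iM, inferInstance, ρ, Additive.ofMul,
    Additive.ofMul.bijective, fun x y => rfl, fun g x => hρ g (Additive.ofMul x)⟩

private lemma gp_qmod_aux2 {F Q : Type} [Group F] [Group Q] [Finite Q] {p : ℕ}
    (hcomm : ∀ a b : Q, a * b = b * a)
    (hz : ∀ x : Q, x ^ p = 1) (c : F → Q →* Q) (h1 : ∀ x, c 1 x = x)
    (hm : ∀ g h x, c (g * h) x = c g (c h x)) :
    ∃ (V : Type) (_ : AddCommGroup V) (_ : Module (ZMod p) V) (_ : Finite V)
      (ρ : F →* Module.End (ZMod p) V) (ψ : Q → V), Function.Bijective ψ ∧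
      (∀ x y, ψ (x * y) = ψ x + ψ y) ∧ ∀ (g : F) (x : Q), ψ (c g x) = ρ g (ψ x) := by
  let i : CommGroup Q := { ‹Group Q› with mul_comm := hcomm }
  exact gp_qmod_aux hz c h1 hm

/-- **The module `Q ⧸ Q₁`.**

Proof. `V = Additive (Q ⧸ Q₁.subgroupOf Q)` (or the additive version of `Q.map (mk' Q₁)`), abelian by
`D.comm`, of exponent `r` by `D.exp`: a `ZMod r`-module (`AddCommGroup.zmodModule`); `τ g` is induced
by `x ↦ g * x * g⁻¹`. Compare the proof of `tw_module` (TwM.lean). -/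
theorem gp_qmod (hr : r.Prime) {Q Q₁ : Subgroup F} (D : GpQ M (r ^ b) r Q Q₁) :
    ∃ (V : Type) (_ : AddCommGroup V) (_ : Module (ZMod r) V)
      (τ : F →* Module.End (ZMod r) V) (φ : Q → V), Finite V ∧ Function.Surjective φ ∧
      (∀ x y, φ (x * y) = φ x + φ y) ∧
      (∀ (g : F) (x : Q), φ ⟨g * x * g⁻¹, D.nQ.conj_mem _ x.2 g⟩ = τ g (φ x)) ∧
      (∀ x : Q, φ x = 0 ↔ (x : F) ∈ Q₁) ∧ ∀ d : F, gp M (r ^ b) F d = 1 → τ d = 1 := by
  classical
  have hN : (Q₁.subgroupOf Q).Normal := D.nQ₁.subgroupOf Q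
  have hcommQ : ∀ a b : Q ⧸ Q₁.subgroupOf Q, a * b = b * a := by
    intro a b
    obtain ⟨x, rfl⟩ := QuotientGroup.mk_surjective a
    obtain ⟨y, rfl⟩ := QuotientGroup.mk_surjective b
    rw [← QuotientGroup.mk_mul, ← QuotientGroup.mk_mul, QuotientGroup.eq, mem_subgroupOf]
    have h1 := D.comm (y⁻¹ : Q) (y⁻¹).2 (x⁻¹ : Q) (x⁻¹).2
    have h2 : (((x * y)⁻¹ * (y * x) : Q) : F) =
        ((y⁻¹ : Q) : F) * ((x⁻¹ : Q) : F) * ((y⁻¹ : Q) : F)⁻¹ * ((x⁻¹ : Q) : F)⁻¹ := by
      push_cast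
      group
    rw [h2]
    exact h1
  have hz : ∀ v : Q ⧸ Q₁.subgroupOf Q, v ^ r = 1 := by
    intro v
    obtain ⟨x, rfl⟩ := QuotientGroup.mk_surjective v
    rw [← QuotientGroup.mk_pow, QuotientGroup.eq_one_iff, mem_subgroupOf]
    rw [SubmonoidClass.coe_pow, D.exp x x.2]
    exact Q₁.one_mem
  let hQn := D.nQ
  have hchar : ∀ g : F, Q₁.subgroupOf Q ≤
      (Q₁.subgroupOf Q).comap (MulAut.conjNormal (H := Q) g).toMonoidHom := by
    intro g x hx
    rw [mem_subgroupOf] at hx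
    rw [mem_comap, mem_subgroupOf]
    exact D.nQ₁.conj_mem _ hx g
  let c : F → (Q ⧸ Q₁.subgroupOf Q) →* (Q ⧸ Q₁.subgroupOf Q) := fun g =>
    QuotientGroup.map (Q₁.subgroupOf Q) (Q₁.subgroupOf Q)
      (MulAut.conjNormal (H := Q) g).toMonoidHom (hchar g)
  have hcmk : ∀ (g : F) (x : Q), c g (x : Q ⧸ Q₁.subgroupOf Q) =
      ((⟨g * x * g⁻¹, D.nQ.conj_mem _ x.2 g⟩ : Q) : Q ⧸ Q₁.subgroupOf Q) := by
    intro g x
    rfl
  have hc1 : ∀ v, c 1 v = v := by
    intro v
    obtain ⟨x, rfl⟩ := QuotientGroup.mk_surjective v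
    rw [hcmk]
    congr 1
    apply Subtype.ext
    simp
  have hcm : ∀ g h v, c (g * h) v = c g (c h v) := by
    intro g h v
    obtain ⟨x, rfl⟩ := QuotientGroup.mk_surjective v
    rw [hcmk, hcmk, hcmk]
    congr 1
    apply Subtype.ext
    simp [mul_assoc]
  obtain ⟨V, iV, iM, iF, ρ, ψ, hψ, hψm, hψc⟩ := gp_qmod_aux2 hcommQ hz c hc1 hcm
  refine ⟨V, iV, iM, ρ, fun x => ψ (x : Q ⧸ Q₁.subgroupOf Q), iF, ?_, ?_, ?_, ?_, ?_⟩
  · exact hψ.2.comp QuotientGroup.mk_surjective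
  · intro x y
    exact hψm (x : Q ⧸ Q₁.subgroupOf Q) (y : Q ⧸ Q₁.subgroupOf Q)
  · intro g x
    rw [← hψc, hcmk]
  · intro x
    have h0 : ψ 1 = 0 := by
      have h1 := hψm 1 1
      rw [mul_one] at h1
      exact left_eq_add.1 h1
    constructor
    · intro h
      have h1 : ((x : Q) : Q ⧸ Q₁.subgroupOf Q) = 1 := hψ.1 (h.trans h0.symm)
      rw [QuotientGroup.eq_one_iff, mem_subgroupOf] at h1
      exact h1
    · intro h
      have h1 : ((x : Q) : Q ⧸ Q₁.subgroupOf Q) = 1 := by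
        rw [QuotientGroup.eq_one_iff, mem_subgroupOf]
        exact h
      show ψ _ = 0
      rw [h1, h0]
  · intro d hd
    refine LinearMap.ext fun v => ?_
    obtain ⟨w, rfl⟩ := hψ.2 v
    obtain ⟨x, rfl⟩ := QuotientGroup.mk_surjective w
    rw [← hψc, hcmk, Module.End.one_apply]
    congr 1
    rw [eq_comm, QuotientGroup.eq, mem_subgroupOf]
    have h1 := D.triv d hd x x.2
    have h2 := D.nQ₁.conj_mem _ h1 (x : F)⁻¹
    have h3 : ((x⁻¹ * ⟨d * x * d⁻¹, D.nQ.conj_mem _ x.2 d⟩ : Q) : F) =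
        (x : F)⁻¹ * (d * x * d⁻¹ * (x : F)⁻¹) * ((x : F)⁻¹)⁻¹ := by
      push_cast
      group
    rw [h3]
    exact h2

end Pool.Agent.Lib.MP_544bd1_al
end

section

/-!
Theorem G' (paper 275): the abelian lemma over the prime field.
-/

namespace Pool.Agent.Lib.MP_544bd1_al

open Subgroup

/-- **Abelian lemma in coprime characteristic**, over `ZMod s`.

Proof. Base change to the algebraic closure of `ZMod s`, exactly as in `ev_abZ` (EvA.lean) or `tw_LZ`
(TwLZ.lean), using `gp_ab`; `(Nat.card D : AlgebraicClosure (ZMod s)) ≠ 0` by `CharP.cast_eq_zero_iff`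
and `hD`. -/
theorem gp_abZ {s p a : ℕ} [Fact s.Prime] (hp : p.Prime) (ha : 0 < a)
    {V D : Type} [AddCommGroup V] [Module (ZMod s) V] [Finite V] [Group D] [Finite D]
    (hD : ¬ s ∣ Nat.card D) {α : D →* D} {ρ : D →* Module.End (ZMod s) V}
    {U : Module.End (ZMod s) V}
    (hab : ∀ x y, ρ x * ρ y = ρ y * ρ x) (L : LDat (p ^ a) α ρ U) (x : D) :
    ρ (α^[p ^ (a - 1)] x) = ρ x := by
  have hfin : Module.Finite (ZMod s) V := Module.Finite.of_finite
  have hch : CharP (AlgebraicClosure (ZMod s)) s :=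
    charP_of_injective_algebraMap (algebraMap (ZMod s) (AlgebraicClosure (ZMod s))).injective s
  let β := Module.End.baseChangeHom (ZMod s) (AlgebraicClosure (ZMod s)) V
  have hβ : ∀ (f : Module.End (ZMod s) V) (v : V), β f ((1 : AlgebraicClosure (ZMod s)) ⊗ₜ v) =
      (1 : AlgebraicClosure (ZMod s)) ⊗ₜ f v := by
    intro f v
    exact LinearMap.baseChange_tmul _ _ _
  have L' : LDat (p ^ a) α ((β : Module.End (ZMod s) V →* _).comp ρ) (β U) := by
    refine ⟨fun x => ?_, ?_, ?_⟩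
    · show β U * β (ρ x) = β (ρ (α x)) * β U
      rw [← map_mul, L.hU, map_mul]
    · rw [← map_pow, L.hq, map_one]
    · simp_rw [← map_pow]
      rw [← map_sum, L.hN, map_zero]
  have hD' : (Nat.card D : AlgebraicClosure (ZMod s)) ≠ 0 := by
    intro h
    exact hD ((CharP.cast_eq_zero_iff (AlgebraicClosure (ZMod s)) s _).1 h)
  have h := gp_ab hp ha hD' (fun x y => by
    show β (ρ x) * β (ρ y) = β (ρ y) * β (ρ x)
    rw [← map_mul, hab, map_mul]) L' x
  have h' : β (ρ (α^[p ^ (a - 1)] x)) = β (ρ x) := h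
  apply LinearMap.ext
  intro v
  apply Module.FaithfullyFlat.tensorProduct_mk_injective (A := ZMod s)
    (B := AlgebraicClosure (ZMod s)) V
  show (1 : AlgebraicClosure (ZMod s)) ⊗ₜ[ZMod s] _ = (1 : AlgebraicClosure (ZMod s)) ⊗ₜ[ZMod s] _
  rw [← hβ, ← hβ, h']

end Pool.Agent.Lib.MP_544bd1_al
end
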