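import Mathlib
import Pool.Agent.Lib.MP_544bd1_al.TwS2
import Pool.Agent.Lib.MP_544bd1_al.TwLZ
import Pool.Agent.Lib.MP_544bd1_al.GpOX
import Pool.Agent.Lib.MP_544bd1_al.TwS3
import Pool.Agent.Lib.MP_544bd1_al.TwR4

section

/-!
Theorem G' (paper 275): the normal r-subgroup P.
-/

namespace Pool.Agent.Lib.MP_544bd1_al

open Subgroup

variable {M r b c : ℕ} {F : Type} [Group F] [Finite F]

/-- **The normal `r`-subgroup `P`** ((1.1) of paper 275): `O_{r',r}(F) = P * O_{r'}(F)`, and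
`C_F(P) ≤ O_{r',r}(F)`.

Proof. `f = mk' (krad M F) : F → F₁`, `W = krad (r ^ b) F₁` (an `r`-group, normal), `h ^ (r ^ c) = 1`.
`zt_fratx` (ZtFratx.lean; `p := r`, `x := h`): an `r`-subgroup `P` with `f '' P = W`,
`normalizer P` covers `F₁` and contains `h`. Suppose `X = normalizer P ≠ ⊤`. `D.min X` gives
`InOP M (r ^ b) X h₁` (`h₁ = h ^ (r ^ (c - 1))`), with `N, K`. The images of `N`, `K` in `F₁` are
normal (`X` covers `F₁`), the image of `K` has exponent `M`, so it is trivial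
(`krad M F₁ = ⊥`: `tw_krad_quot`), so the image of `N` is a normal subgroup of exponent `r ^ b`, in
`krad (r ^ b) F₁`; so `f h₁ ∈ krad (r ^ b) F₁`, i.e. `InOP M (r ^ b) ⊤ h₁` (`tw_op_iff`),
contradicting `hB`. So `P` is normal. If `gp x = 1`, then `f x ∈ W`, `f x = f p` with `p ∈ P`,
`x = p * k`, `k ∈ krad M F`. `x ^ (r ^ b) = 1` for `x ∈ P`: `x` has order a power of `r` and
`x ^ (M * r ^ b) = 1`. Last: if `x` commutes with `P`, then `f x` commutes with `W`, so `f x ∈ W` by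
`fr_fitting` (FrB.lean; `k := r ^ b`, `l := M`), so `gp x = 1`. -/
theorem gp_P (D : GpMin M r b c F) {h : F} (hB : GpB M r b c h) :
    ∃ P : Subgroup F, P.Normal ∧ (∀ x ∈ P, x ^ (r ^ b) = 1) ∧ (∀ x ∈ P, gp M (r ^ b) F x = 1) ∧
      (∀ x : F, gp M (r ^ b) F x = 1 → ∃ p ∈ P, ∃ k ∈ krad M F, x = p * k) ∧
      ∀ x : F, (∀ p ∈ P, x * p = p * x) → gp M (r ^ b) F x = 1 := by
  have hcop := D.cop
  have hexp := D.hexp
  have hP0 : 0 < r ^ b := pow_pos D.hr.pos b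
  obtain ⟨f, hf⟩ : ∃ f : F →* F ⧸ krad M F, f = QuotientGroup.mk' (krad M F) := ⟨_, rfl⟩
  have hfs : Function.Surjective f := by rw [hf]; exact QuotientGroup.mk'_surjective _
  have hfk : ∀ x : F, f x = 1 → x ∈ krad M F := by
    intro x hx
    rw [hf] at hx
    exact (QuotientGroup.eq_one_iff x).1 hx
  have hexp1 : ∀ x : F ⧸ krad M F, x ^ (r ^ b * M) = 1 := by
    intro x
    obtain ⟨y, rfl⟩ := hfs x
    rw [← map_pow, mul_comm, hexp, map_one]
  have hbot : krad M (F ⧸ krad M F) = ⊥ := tw_krad_quot hcop hexp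
  have hWpow : ∀ x ∈ krad (r ^ b) (F ⧸ krad M F), x ^ (r ^ b) = 1 :=
    tw_krad_pow hcop.symm hexp1
  have hW : IsPGroup r (krad (r ^ b) (F ⧸ krad M F)) :=
    fun x => ⟨b, Subtype.ext (hWpow x x.2)⟩
  obtain ⟨P, hPr, hP1, hP2, hP3, hP4⟩ :=
    zt_fratx D.hr f hfs (krad (r ^ b) (F ⧸ krad M F)) hW hB.1
  have hgp : ∀ x : F, gp M (r ^ b) F x = 1 ↔ f x ∈ krad (r ^ b) (F ⧸ krad M F) := by
    intro x
    rw [hf]
    exact QuotientGroup.eq_one_iff _
  have hN : normalizer (P : Set F) = ⊤ := by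
    by_contra hne
    obtain ⟨N, K, h1, h2, h3, h4, h5, h6, h7⟩ := D.min _ hne h hP4 hB.1
    apply hB.2
    rw [← D.gp_iff, hgp]
    have hKn : (K.map f).Normal := by
      constructor
      rintro _ ⟨k, hk, rfl⟩ g
      obtain ⟨n, hn, rfl⟩ := hP3 g
      exact ⟨n * k * n⁻¹, h5 n hn k hk, by simp⟩
    have hNn : (N.map f).Normal := by
      constructor
      rintro _ ⟨k, hk, rfl⟩ g
      obtain ⟨n, hn, rfl⟩ := hP3 g
      exact ⟨n * k * n⁻¹, h4 n hn k hk, by simp⟩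
    have hK1 : K.map f ≤ krad M (F ⧸ krad M F) := by
      apply le_krad hKn
      rintro _ ⟨k, hk, rfl⟩
      rw [← map_pow, h6 k hk, map_one]
    rw [hbot] at hK1
    have hN1 : N.map f ≤ krad (r ^ b) (F ⧸ krad M F) := by
      apply le_krad hNn
      rintro _ ⟨k, hk, rfl⟩
      rw [← map_pow]
      exact mem_bot.1 (hK1 ⟨_, h7 k hk, rfl⟩)
    exact hN1 ⟨_, h3, rfl⟩
  have hPn : P.Normal := normalizer_eq_top_iff.1 hN
  refine ⟨P, hPn, ?_, fun x hx => (hgp x).2 (hP2 x hx), ?_, ?_⟩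
  · intro x hx
    obtain ⟨j, hj⟩ := hPr ⟨x, hx⟩
    have hj' : x ^ (r ^ j) = 1 := congrArg Subtype.val hj
    have hcj : Nat.Coprime M (r ^ j) :=
      ((Nat.Prime.coprime_iff_not_dvd D.hr).2 D.hrM).symm.pow_right j
    apply tw_one hcj
    · rw [← pow_mul, mul_comm, hexp]
    · rw [← pow_mul, mul_comm, pow_mul, hj', one_pow]
  · intro x hx
    obtain ⟨p, hp, hpx⟩ := hP1 _ ((hgp x).1 hx)
    refine ⟨p, hp, p⁻¹ * x, hfk _ ?_, by group⟩
    rw [map_mul, map_inv, hpx, inv_mul_cancel]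
  · intro x hx
    rw [hgp]
    have hsol : Group.IsSolvable (F ⧸ krad M F) := by
      have := D.sol
      exact Group.isSolvable_of_surjective hfs
    apply fr_fitting hcop.symm hP0 D.hM hsol hexp1 hbot
    intro w hw
    obtain ⟨p, hp, rfl⟩ := hP1 w hw
    rw [← map_mul, ← map_mul, hx p hp]

end Pool.Agent.Lib.MP_544bd1_al
end

section

/-!
Theorem G' (paper 275): the normal subgroups Q_1 < Q.
-/

namespace Pool.Agent.Lib.MP_544bd1_al

open Subgroup
open scoped commutatorElement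

variable {M r b c : ℕ} {F : Type} [Group F] [Finite F]

/-- **A minimal `Q`, first part.** `L` = the subgroup generated by the `M`-elements.

Proof. `P` from `gp_P`. Some `M`-element `g` does not centralize `P`: `g` from `gp_g0` satisfies
`gp g ≠ 1` (`gp h₁ * gp g ≠ gp g * gp h₁`), so by the last part of `gp_P` it does not commute with all
of `P`. Let `Q ≤ P` be a normal subgroup of `F`, not centralized by all `M`-elements, with
`Nat.card Q` minimal. -/
theorem gp_Q0 (D : GpMin M r b c F) {h : F} (hB : GpB M r b c h) :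
    ∃ P Q : Subgroup F, P.Normal ∧ (∀ x ∈ P, x ^ (r ^ b) = 1) ∧
      (∀ x ∈ P, gp M (r ^ b) F x = 1) ∧
      (∀ x : F, gp M (r ^ b) F x = 1 → ∃ p ∈ P, ∃ k ∈ krad M F, x = p * k) ∧
      Q.Normal ∧ Q ≤ P ∧ (∃ g : F, g ^ M = 1 ∧ ∃ x ∈ Q, g * x ≠ x * g) ∧
      ∀ N : Subgroup F, N.Normal → N ≤ Q → N ≠ Q → ∀ g : F, g ^ M = 1 → ∀ x ∈ N,
        g * x = x * g := by
  obtain ⟨P, hPn, hPexp, hPker, hPdec, hPcent⟩ := gp_P D hB
  obtain ⟨g, hgM, hgR, hgne⟩ := gp_g0 D hB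
  have hP0 : ∃ g : F, g ^ M = 1 ∧ ∃ x ∈ P, g * x ≠ x * g := by
    refine ⟨g, hgM, ?_⟩
    by_contra hcon
    push Not at hcon
    have h1 := hPcent g hcon
    apply hgne
    rw [map_mul, map_mul, h1, mul_one, one_mul]
  obtain ⟨Q, hQ, hQmin⟩ := WellFounded.has_min (r := ((· < ·) : Subgroup F → Subgroup F → Prop))
    wellFounded_lt {Q : Subgroup F | Q.Normal ∧ Q ≤ P ∧ ∃ g : F, g ^ M = 1 ∧ ∃ x ∈ Q, g * x ≠ x * g}
    ⟨P, hPn, le_rfl, hP0⟩
  obtain ⟨hQn, hQP, hQnt⟩ := hQ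
  refine ⟨P, Q, hPn, hPexp, hPker, hPdec, hQn, hQP, hQnt, ?_⟩
  intro N hNn hNQ hNne g hg x hx
  by_contra hcon
  exact hQmin N ⟨hNn, hNQ.trans hQP, g, hg, x, hx, hcon⟩ (lt_of_le_of_ne hNQ hNne)

/-- powers of a product, class 2 -/
private theorem gp_qq_pow {G : Type} [Group G] {x y z : G} (hzx : z * x = x * z)
    (hzy : z * y = y * z) (h : y * x = x * y * z) (k : ℕ) :
    y ^ k * x = x * y ^ k * z ^ k ∧ (x * y) ^ k = x ^ k * y ^ k * z ^ (k.choose 2) := by
  have cx : Commute z x := hzx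
  have cy : Commute z y := hzy
  induction k with
  | zero => simp
  | succ k ih =>
    obtain ⟨h1, h2⟩ := ih
    constructor
    · have e1 : z ^ k * y = y * z ^ k := (cy.pow_left k).eq
      calc y ^ (k + 1) * x = y ^ k * (y * x) := by rw [pow_succ]; group
        _ = (y ^ k * x) * (y * z) := by rw [h]; group
        _ = x * y ^ k * (z ^ k * y) * z := by rw [h1]; group
        _ = x * y ^ k * (y * z ^ k) * z := by rw [e1]
        _ = x * y ^ (k + 1) * z ^ (k + 1) := by rw [pow_succ y, pow_succ z]; group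
    · have e1 : z ^ (k.choose 2) * x = x * z ^ (k.choose 2) := (cx.pow_left _).eq
      have e2 : z ^ (k.choose 2) * y = y * z ^ (k.choose 2) := (cy.pow_left _).eq
      have e3 : z ^ k * y = y * z ^ k := (cy.pow_left k).eq
      have e4 : (k + 1).choose 2 = k + k.choose 2 := by
        rw [Nat.choose_succ_succ' k 1, Nat.choose_one_right]
      calc (x * y) ^ (k + 1) = x ^ k * y ^ k * (z ^ (k.choose 2) * x) * y := by
            rw [pow_succ, h2]; group
        _ = x ^ k * (y ^ k * x) * (z ^ (k.choose 2) * y) := by rw [e1]; group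
        _ = x ^ k * (x * y ^ k * z ^ k) * (y * z ^ (k.choose 2)) := by rw [h1, e2]
        _ = x ^ k * x * y ^ k * (z ^ k * y) * z ^ (k.choose 2) := by group
        _ = x ^ k * x * y ^ k * (y * z ^ k) * z ^ (k.choose 2) := by rw [e3]
        _ = x ^ (k + 1) * y ^ (k + 1) * z ^ ((k + 1).choose 2) := by
            rw [pow_succ x, pow_succ y, e4, pow_add z]; group

/-- a normal subgroup of a finite `r`-group, nontrivial, is not its own commutator with the group -/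
private theorem gp_qq_nil {G : Type} [Group G] {r : ℕ} (hr : r.Prime) {P Q : Subgroup G} [Finite P]
    (hP : IsPGroup r P) (hQP : Q ≤ P) (hQ : Q ≠ ⊥) : ⁅Q, P⁆ ≠ Q := by
  intro heq
  apply hQ
  have : Fact (Nat.Prime r) := ⟨hr⟩
  have hnil : Group.IsNilpotent P := hP.isNilpotent
  set N : Subgroup P := Q.subgroupOf P with hN
  have hNZ : ⁅N, (⊤ : Subgroup P)⁆ = N := by
    apply Subgroup.map_injective P.subtype_injective
    rw [Subgroup.map_commutator, hN, Subgroup.map_subgroupOf_eq_of_le hQP]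
    rw [← MonoidHom.range_eq_map, P.range_subtype]
    exact heq
  have hlow : ∀ k : ℕ, N ≤ (⊤ : Subgroup P).lowerCentralSeries k := by
    intro k
    induction k with
    | zero => exact le_top
    | succ k ih =>
      rw [← hNZ]
      exact Subgroup.commutator_mono ih le_rfl
  have hNbot : N = ⊥ := by
    obtain ⟨k, hk⟩ := Subgroup.nilpotent_iff_lowerCentralSeries.1 hnil
    rw [eq_bot_iff, ← hk]
    exact hlow _
  rw [hN, Subgroup.subgroupOf_eq_bot, disjoint_iff] at hNbot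
  rw [← hNbot]
  exact (inf_eq_left.2 hQP).symm

/-- **The normal subgroups `Q₁ < Q`** ((1.4) of paper 275).

Proof. `P, Q` from `gp_Q0`. Let `Q₁` be the supremum of the normal subgroups `N` of `F` with `N ≤ Q`,
`N ≠ Q`: normal, `Q₁ ≤ Q`, all `M`-elements centralize `Q₁` (`centM`: the centralizer of the
`M`-elements contains all these `N`), so `Q₁ ≠ Q` (`ne`), `min`. Let `L` be the subgroup generated by the
`M`-elements, normal in `F`. `[Q, L] = ⁅Q, L⁆` is normal, `≤ Q` and `≤ L`. If `⁅Q, L⁆ ≠ Q` then the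
`M`-elements centralize `⁅Q, L⁆`, so for an `M`-element `g` and `x ∈ Q`:
`x⁻¹ * (g * x * g⁻¹) ∈ ⁅Q, L⁆` commutes with `g`, and `tw_coprime_trivial` (TwS3.lean; exponent `M` for
`g`, `r ^ b` for `Q`) gives that `g` commutes with `x`: contradiction. So `Q = ⁅Q, L⁆ ≤ L`, so `Q`
centralizes `Q₁` (`cent`). (nontriv) If `g * x * g⁻¹ * x⁻¹ ∈ Q₁` for all `M`-elements `g` and `x ∈ Q`,
then `⁅Q, L⁆ ≤ Q₁`, contradiction. (comm) `⁅Q, Q⁆` is normal in `F` and `≠ Q` (`Q` is an `r`-group,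
nilpotent, `≠ ⊥`: `tw_comm_nongen` (TwS4.lean), or `Q` solvable), so `≤ Q₁`. (exp) for `x ∈ Q`:
`{x ^ r}`: the subgroup generated by `Q₁` and all `x ^ r` (`x ∈ Q`) is normal and `≠ Q` (by
`tw_frattini` (TwS4.lean) applied to the group `Q` it lies in `Q₁ ⊔ frattini Q`, which is not `Q`), so
`x ^ r ∈ Q₁`. As `[x, y] = x * y * x⁻¹ * y⁻¹` is central in `Q`:
`(x * y) ^ k = x ^ k * y ^ k * [y, x] ^ (k (k-1) / 2)`, `[y, x] ^ r = [y ^ r, x] = 1`, `r` odd: so
`(x * y) ^ r = x ^ r * y ^ r`. So `{x ∈ Q | x ^ r = 1}` is a subgroup, normal in `F`, and it contains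
`g * x * g⁻¹ * x⁻¹` for `M`-elements `g` (`(g * x * g⁻¹ * x⁻¹) ^ r = (g * x ^ r * g⁻¹) * (x ^ r)⁻¹ = 1`
by `centM`); by (nontriv) it is not in `Q₁`, so it is `Q` (`min`). (triv) For `d` with `gp d = 1`:
`d = p * k`, `p ∈ P`, `k ∈ krad M F`; `k` centralizes `P ≥ Q` (`k * x * k⁻¹ * x⁻¹ ∈ krad M F ⊓ P = ⊥`);
`⁅P, Q⁆` is normal in `F`, `≤ Q`, `≠ Q` (else `⁅P, Q⁆ = Q`, but `P` is nilpotent: with `P`-lower central
series `Q ≤ γ_i(P)` for all `i`, `Q = ⊥`), so `⁅P, Q⁆ ≤ Q₁`. (ker) `Q ≤ P`. -/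
theorem gp_Q (D : GpMin M r b c F) {h : F} (hB : GpB M r b c h) :
    ∃ Q Q₁ : Subgroup F, GpQ M (r ^ b) r Q Q₁ := by
  have hcop := D.cop
  have hr := D.hr
  obtain ⟨P, Q, hPn, hPexp, hPker, hPdec, hQn, hQP, ⟨g₀, hg₀, x₀, hx₀, hne₀⟩, hQmin⟩ := gp_Q0 D hB
  have hQexp : ∀ x ∈ Q, x ^ (r ^ b) = 1 := fun x hx => hPexp x (hQP hx)
  have hPp : IsPGroup r P := fun x => ⟨b, Subtype.ext (hPexp x x.2)⟩
  have hQp : IsPGroup r Q := fun x => ⟨b, Subtype.ext (hQexp x x.2)⟩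
  have hQbot : Q ≠ ⊥ := by
    rintro rfl
    rw [mem_bot] at hx₀
    apply hne₀
    rw [hx₀, mul_one, one_mul]
  -- the subgroup `Q₁`
  obtain ⟨Q₁, hQ₁⟩ : ∃ Q₁ : Subgroup F,
      Q₁ = sSup {N : Subgroup F | N.Normal ∧ N ≤ Q ∧ N ≠ Q} := ⟨_, rfl⟩
  have hmin : ∀ N : Subgroup F, N.Normal → N ≤ Q → N ≠ Q → N ≤ Q₁ := by
    intro N h1 h2 h3
    rw [hQ₁]
    exact le_sSup ⟨h1, h2, h3⟩
  have hQ₁n : Q₁.Normal := by
    rw [hQ₁]
    exact sSup_normal _ fun N hN => hN.1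
  have hle : Q₁ ≤ Q := by
    rw [hQ₁]
    exact sSup_le fun N hN => hN.2.1
  have hcentM : ∀ x ∈ Q₁, ∀ g : F, g ^ M = 1 → g * x = x * g := by
    have h1 : Q₁ ≤ centralizer {g : F | g ^ M = 1} := by
      rw [hQ₁]
      refine sSup_le fun N hN x hx => ?_
      rw [mem_centralizer_iff]
      intro g hg
      exact hQmin N hN.1 hN.2.1 hN.2.2 g hg x hx
    intro x hx g hg
    exact mem_centralizer_iff.1 (h1 hx) g hg
  have hne : Q₁ ≠ Q := by
    rintro rfl
    exact hne₀ (hcentM x₀ hx₀ g₀ hg₀)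
  -- the subgroup `L` generated by the `M`-elements
  obtain ⟨L, hL⟩ : ∃ L : Subgroup F, L = closure {g : F | g ^ M = 1} := ⟨_, rfl⟩
  have hLn : L.Normal := by
    rw [hL]
    constructor
    intro n hn g
    have h1 : closure {g : F | g ^ M = 1} ≤
        (closure {g : F | g ^ M = 1}).comap (MulAut.conj g).toMonoidHom := by
      rw [closure_le]
      intro x hx
      refine subset_closure ?_
      have hx' : x ^ M = 1 := hx
      change (g * x * g⁻¹) ^ M = 1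
      rw [conj_pow, hx', mul_one, mul_inv_cancel]
    exact h1 hn
  have hgL : ∀ g : F, g ^ M = 1 → g ∈ L := fun g hg => by
    rw [hL]; exact subset_closure hg
  have hQL : ⁅Q, L⁆ = Q := by
    by_contra hcon
    have h1 : ⁅Q, L⁆ ≤ Q := commutator_le_left Q L
    have h2 := hQmin ⁅Q, L⁆ inferInstance h1 hcon
    apply hne₀
    refine tw_coprime_trivial hcop Q hQexp hg₀ (fun x hx => hQn.conj_mem x hx g₀)
      (fun x hx => h2 g₀ hg₀ _ ?_) x₀ hx₀
    have e : x⁻¹ * (g₀ * x * g₀⁻¹) = ⁅x⁻¹, g₀⁆ := by rw [commutatorElement_def]; group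
    rw [e]
    exact commutator_mem_commutator (inv_mem hx) (hgL g₀ hg₀)
  have hQleL : Q ≤ L := by
    rw [← hQL]
    exact commutator_le_right Q L
  have hcent : ∀ x ∈ Q₁, ∀ y ∈ Q, x * y = y * x := by
    intro x hx y hy
    have h1 : L ≤ centralizer {x} := by
      rw [hL, closure_le]
      intro g hg
      rw [SetLike.mem_coe, mem_centralizer_singleton_iff]
      exact hcentM x hx g hg
    have h2 := h1 (hQleL hy)
    rw [mem_centralizer_singleton_iff] at h2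
    exact h2.symm
  have hnontriv : ∃ g : F, g ^ M = 1 ∧ ∃ x ∈ Q, g * x * g⁻¹ * x⁻¹ ∉ Q₁ := by
    by_contra hcon
    push Not at hcon
    have h1 : ∀ l ∈ L, ∀ x ∈ Q, l * x * l⁻¹ * x⁻¹ ∈ Q₁ := by
      intro l hl
      rw [hL] at hl
      induction hl using closure_induction with
      | mem g hg => exact hcon g hg
      | one => intro x _; simp [one_mem]
      | mul l m _ _ ihl ihm =>
        intro x hx
        have e : l * m * x * (l * m)⁻¹ * x⁻¹ =
            (l * (m * x * m⁻¹) * l⁻¹ * (m * x * m⁻¹)⁻¹) * (m * x * m⁻¹ * x⁻¹) := by group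
        rw [e]
        exact mul_mem (ihl _ (hQn.conj_mem x hx m)) (ihm x hx)
      | inv l _ ihl =>
        intro x hx
        have hy : l⁻¹ * x * l ∈ Q := by
          have := hQn.conj_mem x hx l⁻¹
          rwa [inv_inv] at this
        have e : l⁻¹ * x * l⁻¹⁻¹ * x⁻¹ =
            (l * (l⁻¹ * x * l) * l⁻¹ * (l⁻¹ * x * l)⁻¹)⁻¹ := by group
        rw [e]
        exact inv_mem (ihl _ hy)
    have h2 : ⁅Q, L⁆ ≤ Q₁ := by
      rw [commutator_le]
      intro x hx l hl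
      have e : ⁅x, l⁆ = (l * x * l⁻¹ * x⁻¹)⁻¹ := by rw [commutatorElement_def]; group
      rw [e]
      exact inv_mem (h1 l hl x hx)
    rw [hQL] at h2
    exact hne (le_antisymm hle h2)
  -- the Frattini subgroup
  have hfr : (frattini Q).map Q.subtype ≤ Q₁ := by
    apply hmin
    · exact ConjAct.normal_of_characteristic_of_normal
    · exact map_subtype_le _
    · intro heq
      have h1 : frattini Q = ⊤ := by
        rw [eq_top_iff]
        rintro ⟨x, hx⟩ -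
        rw [← heq] at hx
        obtain ⟨y, hy, hyx⟩ := hx
        have h2 : y = ⟨x, heq ▸ ⟨y, hy, hyx⟩⟩ := Subtype.ext hyx
        rw [← h2]
        exact hy
      have h3 : (⊥ : Subgroup Q) = ⊤ := frattini_nongenerating (by rw [h1, bot_sup_eq])
      apply hQbot
      rw [eq_bot_iff]
      intro x hx
      have h4 : (⟨x, hx⟩ : Q) ∈ (⊥ : Subgroup Q) := by rw [h3]; trivial
      rw [mem_bot] at h4 ⊢
      exact congrArg Subtype.val h4
  have hfr2 := tw_frattini hr hQp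
  have hcomm : ∀ x ∈ Q, ∀ y ∈ Q, x * y * x⁻¹ * y⁻¹ ∈ Q₁ := by
    intro x hx y hy
    apply hfr
    refine ⟨⁅(⟨x, hx⟩ : Q), ⟨y, hy⟩⁆, hfr2.1 ?_, rfl⟩
    exact commutator_mem_commutator (mem_top _) (mem_top _)
  have hpowr : ∀ x ∈ Q, x ^ r ∈ Q₁ := by
    intro x hx
    apply hfr
    exact ⟨(⟨x, hx⟩ : Q) ^ r, hfr2.2 _, rfl⟩
  -- the `r`-th power map
  have hmulpow : ∀ x ∈ Q, ∀ y ∈ Q, (x * y) ^ r = x ^ r * y ^ r := by
    intro x hx y hy
    obtain ⟨z, hz⟩ : ∃ z, z = y⁻¹ * x⁻¹ * y * x := ⟨_, rfl⟩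
    have hzQ : z ∈ Q₁ := by
      have := hcomm y⁻¹ (inv_mem hy) x⁻¹ (inv_mem hx)
      rw [inv_inv, inv_inv] at this
      rw [hz]
      exact this
    have h1 := gp_qq_pow (hcent z hzQ x hx) (hcent z hzQ y hy)
      (show y * x = x * y * z by rw [hz]; group) r
    have h2 : z ^ r = 1 := by
      have h3 := hcent _ (hpowr y hy) x hx
      rw [h1.1] at h3
      exact mul_eq_left.1 h3
    have h3 : z ^ (r.choose 2) = 1 := by
      obtain ⟨q, hq⟩ : r ∣ r.choose 2 :=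
        hr.dvd_choose_self (by norm_num) (by have := D.hr5; omega)
      rw [hq, pow_mul, h2, one_pow]
    rw [h1.2, h3, mul_one]
  obtain ⟨E, hE⟩ : ∃ E : Subgroup F, ∀ x, x ∈ E ↔ x ∈ Q ∧ x ^ r = 1 := by
    refine ⟨{ carrier := {x | x ∈ Q ∧ x ^ r = 1}, mul_mem' := ?_, one_mem' := ?_, inv_mem' := ?_ },
      fun x => Iff.rfl⟩
    · rintro x y ⟨h1, h2⟩ ⟨h3, h4⟩
      exact ⟨mul_mem h1 h3, by rw [hmulpow x h1 y h3, h2, h4, mul_one]⟩
    · exact ⟨one_mem _, one_pow _⟩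
    · rintro x ⟨h1, h2⟩
      exact ⟨inv_mem h1, by rw [inv_pow, h2, inv_one]⟩
  have hexp : ∀ x ∈ Q, x ^ r = 1 := by
    have hEQ : E = Q := by
      by_contra hcon
      have hEn : E.Normal := by
        constructor
        intro x hx g
        rw [hE] at hx ⊢
        exact ⟨hQn.conj_mem x hx.1 g, by rw [conj_pow, hx.2, mul_one, mul_inv_cancel]⟩
      have h1 := hmin E hEn (fun x hx => ((hE x).1 hx).1) hcon
      obtain ⟨g, hg, x, hx, hgx⟩ := hnontriv
      apply hgx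
      apply h1
      rw [hE]
      have h2 : g * x * g⁻¹ ∈ Q := hQn.conj_mem x hx g
      refine ⟨mul_mem h2 (inv_mem hx), ?_⟩
      rw [hmulpow _ h2 _ (inv_mem hx), conj_pow, inv_pow, hcentM _ (hpowr x hx) g hg]
      group
    intro x hx
    rw [← hEQ] at hx
    exact ((hE x).1 hx).2
  refine ⟨Q, Q₁, ⟨hQn, hQ₁n, hle, hne, hexp, hcent, hcentM, hcomm, ?_, fun x hx => hPker x (hQP hx),
    hnontriv, hmin⟩⟩
  intro d hd x hx
  obtain ⟨p, hp, k, hk, rfl⟩ := hPdec d hd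
  have hkx : k * x * k⁻¹ * x⁻¹ = 1 := by
    have hkn := krad_normal M F
    apply tw_one hcop
    · apply tw_krad_pow hcop D.hexp
      have e : k * x * k⁻¹ * x⁻¹ = k * (x * k⁻¹ * x⁻¹) := by group
      rw [e]
      exact mul_mem hk (hkn.conj_mem _ (inv_mem hk) x)
    · exact hQexp _ (mul_mem (hQn.conj_mem x hx k) (inv_mem hx))
  have hkx' : k * x * k⁻¹ = x := mul_inv_eq_one.1 hkx
  have e : p * k * x * (p * k)⁻¹ * x⁻¹ = ⁅p, x⁆ := by
    rw [commutatorElement_def]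
    calc p * k * x * (p * k)⁻¹ * x⁻¹ = p * (k * x * k⁻¹) * p⁻¹ * x⁻¹ := by group
      _ = p * x * p⁻¹ * x⁻¹ := by rw [hkx']
  rw [e]
  have h1 : ⁅P, Q⁆ ≤ Q₁ := by
    apply hmin _ inferInstance (commutator_le_right P Q)
    rw [commutator_comm]
    exact gp_qq_nil hr hPp hQP hQbot
  exact h1 (commutator_mem_commutator hp hx)

end Pool.Agent.Lib.MP_544bd1_al
end
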