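import Mathlib
import Pool.Agent.Lib.MP_544bd1_al.TwS3
import Pool.Agent.Lib.MP_544bd1_al.GpOX
import Pool.Agent.Lib.MP_544bd1_al.GpCent
import Pool.Agent.Lib.MP_544bd1_al.GpAbZ
import Pool.Agent.Lib.MP_544bd1_al.GpQQ
import Pool.Agent.Lib.MP_544bd1_al.TwLZ
import Pool.Agent.Lib.MP_544bd1_al.EvM2
import Pool.Agent.Lib.MP_544bd1_al.E5.Coind

section

/-!
Theorem G' (paper 275): the group theoretic part of Section 3.3.
-/

namespace Pool.Agent.Lib.MP_544bd1_al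

open Subgroup

/-- The quotient of an abelian subgroup `A` by `B`, as a function on the whole group. -/
private lemma gpcg_pi {E : Type} [Group E] {A B : Subgroup E}
    (hA : ∀ a ∈ A, ∀ b ∈ A, a * b = b * a) :
    ∃ (W : Type) (_ : CommGroup W) (π : E → W),
      (∀ a ∈ A, ∀ b ∈ A, π (a * b) = π a * π b) ∧ ∀ a ∈ A, (π a = 1 ↔ a ∈ B) := by
  classical
  let cA : CommGroup A :=
    { (inferInstance : Group A) with
      mul_comm := fun a b => Subtype.ext (hA a a.2 b b.2) }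
  let N : Subgroup A := B.subgroupOf A
  refine ⟨A ⧸ N, inferInstance, fun x => if h : x ∈ A then QuotientGroup.mk ⟨x, h⟩ else 1, ?_, ?_⟩
  · intro a ha b hb
    simp only [ha, hb, mul_mem ha hb, dif_pos]
    rw [← QuotientGroup.mk_mul]
    rfl
  · intro a ha
    simp only [ha, dif_pos]
    rw [QuotientGroup.eq_one_iff]
    exact Subgroup.mem_subgroupOf

/-- The commutator form modulo `B`. -/
private lemma gpcg_form {E : Type} [Group E] {Q A B : Subgroup E} {v : E} (hle : A ≤ Q)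
    (cent : ∀ a ∈ A, ∀ x ∈ Q, a * x = x * a)
    (comm : ∀ x ∈ Q, ∀ y ∈ Q, x * y * x⁻¹ * y⁻¹ ∈ A) (hBA : B ≤ A)
    (hAN : ∀ x ∈ A, gpN v x ∈ B) :
    ∃ (W : Type) (_ : CommGroup W) (ω : E → E → W),
      (∀ x ∈ Q, ∀ y ∈ Q, ∀ t ∈ Q, ω (x * y) t = ω x t * ω y t) ∧
      (∀ x ∈ Q, ∀ y ∈ Q, ω y x = (ω x y)⁻¹) ∧
      (∀ x ∈ Q, ∀ y ∈ Q, ω (v * x * v⁻¹) (v * y * v⁻¹) = ω x y) ∧
      (∀ x ∈ Q, ∀ y ∈ Q, (ω x y = 1 ↔ x * y * x⁻¹ * y⁻¹ ∈ B)) := by
  obtain ⟨W, cW, π, hπ, hπ1⟩ := gpcg_pi (A := A) (B := B)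
    (fun a ha b hb => cent a ha b (hle hb))
  have hmul : ∀ x ∈ Q, ∀ y ∈ Q, ∀ t ∈ Q,
      (x * y) * t * (x * y)⁻¹ * t⁻¹ = (x * t * x⁻¹ * t⁻¹) * (y * t * y⁻¹ * t⁻¹) := by
    intro x hx y hy t ht
    have h1 := cent _ (comm y hy t ht) _ (mul_mem (mul_mem (mul_mem hx ht) (inv_mem hx))
      (inv_mem ht))
    have h2 := cent _ (comm y hy t ht) _ hx
    calc (x * y) * t * (x * y)⁻¹ * t⁻¹ = (x * (y * t * y⁻¹ * t⁻¹)) * (t * x⁻¹ * t⁻¹) := by group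
      _ = ((y * t * y⁻¹ * t⁻¹) * x) * (t * x⁻¹ * t⁻¹) := by rw [h2]
      _ = (y * t * y⁻¹ * t⁻¹) * (x * t * x⁻¹ * t⁻¹) := by group
      _ = (x * t * x⁻¹ * t⁻¹) * (y * t * y⁻¹ * t⁻¹) := h1
  have hπone : π 1 = 1 := (hπ1 1 (one_mem _)).2 (one_mem _)
  refine ⟨W, cW, fun x y => π (x * y * x⁻¹ * y⁻¹), ?_, ?_, ?_, ?_⟩
  · intro x hx y hy t ht
    simp only
    rw [hmul x hx y hy t ht, hπ _ (comm x hx t ht) _ (comm y hy t ht)]
  · intro x hx y hy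
    simp only
    refine eq_inv_of_mul_eq_one_left ?_
    rw [← hπ _ (comm y hy x hx) _ (comm x hx y hy)]
    have e : y * x * y⁻¹ * x⁻¹ * (x * y * x⁻¹ * y⁻¹) = 1 := by group
    rw [e, hπone]
  · intro x hx y hy
    simp only
    have hc := comm x hx y hy
    have e : v * x * v⁻¹ * (v * y * v⁻¹) * (v * x * v⁻¹)⁻¹ * (v * y * v⁻¹)⁻¹ =
        (x * y * x⁻¹ * y⁻¹) * gpN v (x * y * x⁻¹ * y⁻¹) := by
      unfold gpN
      group
    rw [e, hπ _ hc _ (hBA (hAN _ hc)), (hπ1 _ (hBA (hAN _ hc))).2 (hAN _ hc), mul_one]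
  · intro x hx y hy
    exact hπ1 _ (comm x hx y hy)

private lemma gpcg_inv {E : Type} [Group E] [Finite E] {Q : Subgroup E} {v : E}
    (h : ∀ x ∈ Q, v * x * v⁻¹ ∈ Q) : ∀ x ∈ Q, v⁻¹ * x * v ∈ Q := by
  have hpow : ∀ n : ℕ, ∀ x ∈ Q, v ^ n * x * (v ^ n)⁻¹ ∈ Q := by
    intro n
    induction n with
    | zero => intro x hx; simpa using hx
    | succ n ih =>
      intro x hx
      have h2 := ih _ (h x hx)
      have e : v ^ n * (v * x * v⁻¹) * (v ^ n)⁻¹ = v ^ (n + 1) * x * (v ^ (n + 1))⁻¹ := by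
        rw [pow_succ]
        group
      rwa [e] at h2
  intro x hx
  have hv : v⁻¹ = v ^ (orderOf v - 1) := by
    have ho : 0 < orderOf v := orderOf_pos v
    refine inv_eq_of_mul_eq_one_left ?_
    rw [← pow_succ, Nat.sub_add_cancel ho, pow_orderOf_eq_one]
  have h2 := hpow (orderOf v - 1) x hx
  rw [← hv, inv_inv] at h2
  exact h2

private lemma gpcg_pow {E : Type} [Group E] {Q : Subgroup E} {u : E}
    (h : ∀ x ∈ Q, u * x * u⁻¹ ∈ Q) (n : ℕ) : ∀ x ∈ Q, u ^ n * x * (u ^ n)⁻¹ ∈ Q := by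
  induction n with
  | zero => intro x hx; simpa using hx
  | succ n ih =>
    intro x hx
    have h2 := ih _ (h x hx)
    have e : u ^ n * (u * x * u⁻¹) * (u ^ n)⁻¹ = u ^ (n + 1) * x * (u ^ (n + 1))⁻¹ := by
      rw [pow_succ]
      group
    rwa [e] at h2

private lemma gpcg_conj {E : Type} [Group E] {v t : E} (h : t * v = v * t) (x : E) :
    t * gpN v x * t⁻¹ = gpN v (t * x * t⁻¹) := by
  unfold gpN
  have h2 : v⁻¹ * t⁻¹ = t⁻¹ * v⁻¹ := by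
    rw [← mul_inv_rev, ← mul_inv_rev, h]
  calc t * (x⁻¹ * (v * x * v⁻¹)) * t⁻¹ = t * x⁻¹ * v * x * (v⁻¹ * t⁻¹) := by group
    _ = t * x⁻¹ * v * x * (t⁻¹ * v⁻¹) := by rw [h2]
    _ = t * x⁻¹ * t⁻¹ * (t * v) * x * (t⁻¹ * v⁻¹) := by group
    _ = t * x⁻¹ * t⁻¹ * (v * t) * x * (t⁻¹ * v⁻¹) := by rw [h]
    _ = (t * x * t⁻¹)⁻¹ * (v * (t * x * t⁻¹) * v⁻¹) := by group

/-- **The group theoretic part of Section 3.3 of paper 275.** `z = u ^ (r ^ c)`,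
`u₁ = u ^ (r ^ (c - 1))`, `Z₀` = the elements of `Qz` acting trivially on the fixed space of `z`.

Proof. Notation `[x, y] = x * y * x⁻¹ * y⁻¹`, `N x = gpN u₁ x = x⁻¹ * (u₁ * x * u₁⁻¹)`. For
`x, y ∈ Q`: `[x, y] ∈ A` is central in `Q`, so `[·,·]` is multiplicative in both arguments,
`[x⁻¹, y] = [x, y]⁻¹`. By `hAN`: for `a ∈ A`: `u₁ * a * u₁⁻¹ ∈ a B`, so for `x, y ∈ Q` with
`x' = u₁ * x * u₁⁻¹`, `y' = u₁ * y * u₁⁻¹` (in `Q`): `[x', y'] = u₁ [x, y] u₁⁻¹ ∈ [x, y] B` (*).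
(1) `x ∈ Q → N x ∈ Qz`: `[z, N x] = [z, x]⁻¹ * [z, x']` and `z' = z` (`u₁` is a power of `u`, commutes
with `z`), so `[z, x'] ∈ [z, x] B` by (*): `[z, N x] ∈ B`; `hQz`.
(2) `x ∈ Qz → N x ∈ D`: by `hmax` it suffices that `[N x, d] ∈ B` for `d ∈ D` (`N x ∈ Qz` by (1)).
`[N x, d] = [x, d]⁻¹ * [x', d]`; let `d₀ = u₁⁻¹ * d * u₁ ∈ D` (`hDu`), `d₀' = d`; by (*)
`[x', d] ∈ [x, d₀] B`; `N d₀ = d₀⁻¹ * d ∈ Z₀` (`hDN`), so `[x, d₀⁻¹ * d] ∈ B` (`hZ`), i.e.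
`[x, d] ∈ [x, d₀] B`.
(3) `x ∈ Qz → N (N x) ∈ Z₀` (`hDN`, (2)). So `x ∈ Q → y := N (N (N x)) ∈ Z₀` by (1).
(4) For `x, b ∈ Q`, `y = N (N (N x))`: `[N y, b] ∈ B`: let `b₀ = u₁⁻¹ * b * u₁ ∈ Q`, `b₀' = b`.
`[N y, b] = [y, b]⁻¹ * [y', b] ∈ [y, b]⁻¹ * [y, b₀] B` by (*), and
`[y, b]⁻¹ * [y, b₀] = [y, b⁻¹ * b₀]`, `b⁻¹ * b₀ = (N b₀)⁻¹ ∈ Qz` by (1), so it is in `B` by `hZ`
(`[b⁻¹ * b₀, y] ∈ B` and `[y, g] = [g, y]⁻¹`).
(5) `D₁.hI B`: for `x ∈ Q`, `j`, `y ∈ Q`: `u ^ j * N⁴ x * (u ^ j)⁻¹ = N⁴ (u ^ j * x * (u ^ j)⁻¹)` (`u`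
commutes with `u₁`), `u ^ j * x * (u ^ j)⁻¹ ∈ Q`, so by (4) the commutators are in `B`. So
`N⁴ x ∈ A`. (`Z₀ ≤ Qz ≤ Q`; all `N x ∈ Q` for `x ∈ Q`; `u₁⁻¹ * b * u₁ ∈ Q` for `b ∈ Q` since `E` is
finite.) -/
theorem gp_core_grp {r c : ℕ} {E : Type} [Group E] [Finite E] {Q A B Qz Z₀ D : Subgroup E}
    {u w : E} (D₁ : GpE r c Q A u w) (hBA : B ≤ A) (hwB : w ∉ B)
    (hQzQ : Qz ≤ Q) (hZQ : Z₀ ≤ Qz)
    (hQz : ∀ x ∈ Q, u ^ (r ^ c) * x * (u ^ (r ^ c))⁻¹ * x⁻¹ ∈ B → x ∈ Qz)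
    (hZ : ∀ x ∈ Qz, ∀ y ∈ Z₀, x * y * x⁻¹ * y⁻¹ ∈ B)
    (hAN : ∀ x ∈ A, gpN (u ^ (r ^ (c - 1))) x ∈ B)
    (hDu : ∀ x ∈ D, (u ^ (r ^ (c - 1)))⁻¹ * x * u ^ (r ^ (c - 1)) ∈ D) (hDQ : D ≤ Qz)
    (hDN : ∀ x ∈ D, gpN (u ^ (r ^ (c - 1))) x ∈ Z₀)
    (hmax : ∀ x ∈ Qz, (∀ y ∈ D, x * y * x⁻¹ * y⁻¹ ∈ B) → x ∈ D) :
    ∀ x ∈ Q, gpN (u ^ (r ^ (c - 1))) (gpN (u ^ (r ^ (c - 1))) (gpN (u ^ (r ^ (c - 1)))
      (gpN (u ^ (r ^ (c - 1))) x))) ∈ A := by
  obtain ⟨v, hv⟩ : ∃ v, v = u ^ (r ^ (c - 1)) := ⟨_, rfl⟩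
  rw [← hv] at hAN hDu hDN ⊢
  obtain ⟨z, hz⟩ : ∃ z, z = u ^ (r ^ c) := ⟨_, rfl⟩
  have hzQ := D₁.hz
  rw [← hz] at hQz hzQ
  have hvz : v * z = z * v := by
    rw [hv, hz, ← pow_add, ← pow_add, add_comm]
  obtain ⟨W, cW, ω, hm, hi, hc, h1⟩ := gpcg_form D₁.le D₁.cent D₁.comm hBA hAN
  have vQ : ∀ x ∈ Q, v * x * v⁻¹ ∈ Q := by
    rw [hv]
    exact gpcg_pow D₁.uQ _
  have vQ' : ∀ x ∈ Q, v⁻¹ * x * v ∈ Q := gpcg_inv vQ
  have NQ : ∀ x ∈ Q, gpN v x ∈ Q := fun x hx => mul_mem (inv_mem hx) (vQ x hx)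
  have hone : ∀ t ∈ Q, ω 1 t = 1 := by
    intro t ht
    have h := hm 1 (one_mem _) 1 (one_mem _) t ht
    rw [mul_one] at h
    exact left_eq_mul.1 h
  have hinv : ∀ x ∈ Q, ∀ t ∈ Q, ω x⁻¹ t = (ω x t)⁻¹ := by
    intro x hx t ht
    have h := hm x⁻¹ (inv_mem hx) x hx t ht
    rw [inv_mul_cancel, hone t ht] at h
    exact eq_inv_of_mul_eq_one_left h.symm
  have hN : ∀ x ∈ Q, ∀ t ∈ Q, ω (gpN v x) t = (ω x t)⁻¹ * ω (v * x * v⁻¹) t := by
    intro x hx t ht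
    unfold gpN
    rw [hm _ (inv_mem hx) _ (vQ x hx) t ht, hinv x hx t ht]
  have hback : ∀ x ∈ Q, ∀ t ∈ Q, ω (v * x * v⁻¹) t = ω x (v⁻¹ * t * v) := by
    intro x hx t ht
    have h := hc x hx _ (vQ' t ht)
    have e : v * (v⁻¹ * t * v) * v⁻¹ = t := by group
    rwa [e] at h
  -- `N (v⁻¹ t v) = (v⁻¹ t v)⁻¹ * t`
  have hNb : ∀ t : E, gpN v (v⁻¹ * t * v) = (v⁻¹ * t * v)⁻¹ * t := by
    intro t
    unfold gpN
    group
  have s1 : ∀ x ∈ Q, gpN v x ∈ Qz := by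
    intro x hx
    refine hQz _ (NQ x hx) ((h1 z hzQ _ (NQ x hx)).1 ?_)
    have e : ω (gpN v x) z = 1 := by
      rw [hN x hx z hzQ, hback x hx z hzQ]
      have e2 : v⁻¹ * z * v = z := by
        rw [mul_assoc, ← hvz]
        group
      rw [e2, inv_mul_cancel]
    rw [hi _ (NQ x hx) z hzQ, e, inv_one]
  have s2 : ∀ x ∈ Qz, gpN v x ∈ D := by
    intro x hx
    have hxQ := hQzQ hx
    refine hmax _ (s1 x hxQ) fun d hd => ?_
    have hdQ : d ∈ Q := hQzQ (hDQ hd)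
    refine (h1 _ (NQ x hxQ) d hdQ).1 ?_
    have hd0 : v⁻¹ * d * v ∈ D := hDu d hd
    have hd0Q : v⁻¹ * d * v ∈ Q := hQzQ (hDQ hd0)
    have hNd := hDN _ hd0
    have h2 := (h1 x hxQ _ (hQzQ (hZQ hNd))).2 (hZ x hx _ hNd)
    rw [hNb d] at h2 hNd
    have hNdQ := hQzQ (hZQ hNd)
    have h3 : ω ((v⁻¹ * d * v)⁻¹ * d) x = 1 := by
      have h4 := hi x hxQ _ hNdQ
      rw [h4, h2, inv_one]
    rw [hm _ (inv_mem hd0Q) _ hdQ x hxQ, hinv _ hd0Q x hxQ, hi x hxQ _ hd0Q, hi x hxQ _ hdQ,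
      inv_inv] at h3
    rw [hN x hxQ d hdQ, hback x hxQ d hdQ, mul_comm]
    exact h3
  have s3 : ∀ x ∈ Q, gpN v (gpN v (gpN v x)) ∈ Z₀ := fun x hx => hDN _ (s2 _ (s1 x hx))
  have s4 : ∀ x ∈ Q, ∀ b ∈ Q, ω (gpN v (gpN v (gpN v (gpN v x)))) b = 1 := by
    intro x hx b hb
    have hy := s3 x hx
    have hyQ := hQzQ (hZQ hy)
    have hb0 := vQ' b hb
    have hNb0 := s1 _ hb0
    have h2 := (h1 _ (hQzQ hNb0) _ hyQ).2 (hZ _ hNb0 _ hy)
    rw [hNb b, hm _ (inv_mem hb0) _ hb _ hyQ, hinv _ hb0 _ hyQ, hi _ hyQ _ hb0, hi _ hyQ _ hb,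
      inv_inv] at h2
    rw [hN _ hyQ b hb, hback _ hyQ b hb, mul_comm]
    exact h2
  intro x hx
  have hNQ4 : ∀ x ∈ Q, gpN v (gpN v (gpN v (gpN v x))) ∈ Q :=
    fun x hx => NQ _ (NQ _ (NQ _ (NQ x hx)))
  refine D₁.hI B hBA hwB _ (hNQ4 x hx) fun j y hy => ?_
  have huv : u ^ j * v = v * u ^ j := by
    rw [hv, ← pow_add, ← pow_add, add_comm]
  rw [gpcg_conj huv, gpcg_conj huv, gpcg_conj huv, gpcg_conj huv]
  have hxj := gpcg_pow D₁.uQ j x hx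
  exact (h1 _ (hNQ4 _ hxj) y hy).1 (s4 _ hxj y hy)

end Pool.Agent.Lib.MP_544bd1_al
end

section

/-!
Theorem G' (paper 275): transfer of GpE.
-/

namespace Pool.Agent.Lib.MP_544bd1_al

open Subgroup

/-- `GpE` along an injective homomorphism, backwards (all fields are transported by `f`; for `hI`
apply `D.hI` to `B.map f`). -/
theorem GpE.comap {r c : ℕ} {E E' : Type} [Group E] [Group E'] {Q A : Subgroup E} {u w : E'}
    (f : E' →* E) (hf : Function.Injective f) (hQ : Q ≤ f.range)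
    (D : GpE r c Q A (f u) (f w)) : GpE r c (Q.comap f) (A.comap f) u w where
  exp x hx := hf (by rw [map_pow, map_one]; exact D.exp _ hx)
  le := Subgroup.comap_mono D.le
  cent a ha x hx := hf (by rw [map_mul, map_mul]; exact D.cent _ ha _ hx)
  comm x hx y hy := by
    rw [Subgroup.mem_comap]
    simp only [map_mul, map_inv]
    exact D.comm _ hx _ hy
  uQ x hx := by
    rw [Subgroup.mem_comap]
    simp only [map_mul, map_inv]
    exact D.uQ _ hx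
  uA x hx := by
    rw [Subgroup.mem_comap]
    simp only [map_mul, map_inv]
    exact D.uA _ hx
  hz := by
    rw [Subgroup.mem_comap, map_pow]
    exact D.hz
  hzA := by
    rw [Subgroup.mem_comap, map_pow]
    exact D.hzA
  hw := D.hw
  hwu := hf (by rw [map_mul, map_mul]; exact D.hwu)
  hw1 h := D.hw1 (by rw [h, map_one])
  hI B hB hwB x hx h := by
    refine D.hI (B.map f) (Subgroup.map_le_iff_le_comap.2 hB) ?_ (f x) hx ?_
    · rw [Subgroup.mem_map_iff_mem hf]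
      exact hwB
    · intro j y hy
      obtain ⟨y', rfl⟩ := hQ hy
      have h2 := Subgroup.mem_map_of_mem f (h j y' hy)
      simpa only [map_mul, map_inv, map_pow] using h2

/-- `GpE` along an injective homomorphism (for `hI` apply `D.hI` to `B.comap f`). -/
theorem GpE.map {r c : ℕ} {E E' : Type} [Group E] [Group E'] {Q A : Subgroup E'} {u w : E'}
    (f : E' →* E) (hf : Function.Injective f) (D : GpE r c Q A u w) :
    GpE r c (Q.map f) (A.map f) (f u) (f w) where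
  exp := by
    rintro _ ⟨x, hx, rfl⟩
    rw [← map_pow, D.exp x hx, map_one]
  le := Subgroup.map_mono D.le
  cent := by
    rintro _ ⟨a, ha, rfl⟩ _ ⟨x, hx, rfl⟩
    rw [← map_mul, ← map_mul, D.cent a ha x hx]
  comm := by
    rintro _ ⟨x, hx, rfl⟩ _ ⟨y, hy, rfl⟩
    have h2 := Subgroup.mem_map_of_mem f (D.comm x hx y hy)
    simpa only [map_mul, map_inv] using h2
  uQ := by
    rintro _ ⟨x, hx, rfl⟩
    have h2 := Subgroup.mem_map_of_mem f (D.uQ x hx)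
    simpa only [map_mul, map_inv] using h2
  uA := by
    rintro _ ⟨x, hx, rfl⟩
    have h2 := Subgroup.mem_map_of_mem f (D.uA x hx)
    simpa only [map_mul, map_inv] using h2
  hz := by
    rw [← map_pow]
    exact Subgroup.mem_map_of_mem f D.hz
  hzA := by
    rw [← map_pow, Subgroup.mem_map_iff_mem hf]
    exact D.hzA
  hw := Subgroup.mem_map_of_mem f D.hw
  hwu := by rw [← map_mul, ← map_mul, D.hwu]
  hw1 h := D.hw1 (hf (by rw [h, map_one]))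
  hI := by
    intro B hB hwB x hx h
    obtain ⟨x', hx', rfl⟩ := hx
    refine Subgroup.mem_map_of_mem f (D.hI (B.comap f) ?_ hwB x' hx' ?_)
    · intro a ha
      have h2 := hB ha
      rwa [Subgroup.mem_map_iff_mem hf] at h2
    · intro j y hy
      have h2 := h j (f y) (Subgroup.mem_map_of_mem f hy)
      rw [Subgroup.mem_comap]
      simpa only [map_mul, map_inv, map_pow] using h2

end Pool.Agent.Lib.MP_544bd1_al
end

section

/-!
Theorem G' (paper 275): property (I).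
-/

namespace Pool.Agent.Lib.MP_544bd1_al

open Subgroup

variable {M r b c : ℕ} {F : Type} [Group F] [Finite F]

/-- **(I) of Section 3.3 of paper 275.** `B` a subgroup not containing all commutators of `Q`.

Proof. `[x, y] = x * y * x⁻¹ * y⁻¹`. For `x, y ∈ Q` `[x, y] ∈ Q₁` is central in `Q`, depends only on `x`
and `y` modulo `Q₁`, and is multiplicative in both arguments. Let
`N = {x ∈ Q | ∀ j : ℕ, ∀ y ∈ Q, [u ^ j * x * u ^ (-j), y] ∈ B}`: a subgroup containing `Q₁` (`DQ.nQ₁`,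
`DQ.cent`). It is normalized (a) by every `d` with `gp d = 1`: `d * x * d⁻¹ ∈ x Q₁` (`DQ.triv`);
(b) by every `M`-element `g`: `u ^ j * (g * x * g⁻¹) * u ^ (-j) = g_j * x_j * g_j⁻¹` with
`g_j = u ^ j * g * u ^ (-j)`, `x_j = u ^ j * x * u ^ (-j)`; `g_j` is an `M`-element, so it
centralizes `Q₁ ∋ [x_j, g_j⁻¹ * y * g_j]` (`DQ.centM`), so
`[g_j * x_j * g_j⁻¹, y] = g_j * [x_j, g_j⁻¹ * y * g_j] * g_j⁻¹ = [x_j, g_j⁻¹ * y * g_j] ∈ B`;
(c) by `u`: index shift. Every `g : F` is a product of such elements: by `gp_M`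
`gp (g * h ^ i) ∈ krad M (GH ..)` for some `i`, `gp h = gp u` (`hu`), so `gp (g * u ^ i) = gp m` for an
`M`-element `m` (an element of `krad M (GH ..)` is `gp m` with `m ^ M = 1`: take `m₁` with
`gp m₁ = ..` and `m = m₁ ^ k`, `k ≡ 1` mod `M`, `k ≡ 0` mod `r ^ b`, `Nat.chineseRemainder`), so
`g = m * d * u ^ (-i)` with `gp d = 1`. So `N` is normal in `F` (`N` finite: normalized by `u⁻¹` too).
If `N = Q` then (`j = 0`) all `[x, y] ∈ B`, so `⁅Q, Q⁆ ≤ B`, contradicting `hw`. So `N ≤ Q₁`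
(`DQ.min`). -/
theorem gp_I (D : GpMin M r b c F) {h u : F} (hB : GpB M r b c h)
    (hu : gp M (r ^ b) F u = gp M (r ^ b) F h) {Q Q₁ : Subgroup F}
    (DQ : GpQ M (r ^ b) r Q Q₁) (B : Subgroup F) {w : F} (hwQ : w ∈ ⁅Q, Q⁆) (hw : w ∉ B) {x : F}
    (hx : x ∈ Q) (hxB : ∀ j : ℕ, ∀ y ∈ Q,
      (u ^ j * x * (u ^ j)⁻¹) * y * (u ^ j * x * (u ^ j)⁻¹)⁻¹ * y⁻¹ ∈ B) : x ∈ Q₁ := by
  have hcop := D.cop
  have hexp := D.hexp
  have hQn := DQ.nQ
  have hQ₁n := DQ.nQ₁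
  -- multiplicativity
  have hmul : ∀ a ∈ Q, ∀ a' ∈ Q, ∀ y ∈ Q,
      (a * a') * y * (a * a')⁻¹ * y⁻¹ = (a' * y * a'⁻¹ * y⁻¹) * (a * y * a⁻¹ * y⁻¹) := by
    intro a ha a' ha' y hy
    have h1 : (a * a') * y * (a * a')⁻¹ * y⁻¹ = a * (a' * y * a'⁻¹ * y⁻¹) * (y * a⁻¹ * y⁻¹) := by
      group
    rw [h1, ← DQ.cent _ (DQ.comm a' ha' y hy) a ha]
    group
  have hcj : ∀ (g : F), ∀ a ∈ Q, g * a * g⁻¹ ∈ Q := fun g a ha => hQn.conj_mem a ha g
  let N : Subgroup F :=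
    { carrier := {x | x ∈ Q ∧ ∀ j : ℕ, ∀ y ∈ Q,
        (u ^ j * x * (u ^ j)⁻¹) * y * (u ^ j * x * (u ^ j)⁻¹)⁻¹ * y⁻¹ ∈ B}
      mul_mem' := by
        rintro a a' ⟨ha, ha2⟩ ⟨ha', ha2'⟩
        refine ⟨Q.mul_mem ha ha', fun j y hy => ?_⟩
        have h1 : u ^ j * (a * a') * (u ^ j)⁻¹ =
            (u ^ j * a * (u ^ j)⁻¹) * (u ^ j * a' * (u ^ j)⁻¹) := by group
        rw [h1, hmul _ (hcj _ _ ha) _ (hcj _ _ ha') y hy]
        exact B.mul_mem (ha2' j y hy) (ha2 j y hy)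
      one_mem' := by
        refine ⟨Q.one_mem, fun j y hy => ?_⟩
        have h1 : u ^ j * 1 * (u ^ j)⁻¹ * y * (u ^ j * 1 * (u ^ j)⁻¹)⁻¹ * y⁻¹ = 1 := by group
        rw [h1]
        exact B.one_mem
      inv_mem' := by
        rintro a ⟨ha, ha2⟩
        refine ⟨Q.inv_mem ha, fun j y hy => ?_⟩
        have h1 : u ^ j * a⁻¹ * (u ^ j)⁻¹ = (u ^ j * a * (u ^ j)⁻¹)⁻¹ := by group
        have h2 := hmul _ (hcj (u ^ j) _ ha) _ (Q.inv_mem (hcj (u ^ j) _ ha)) y hy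
        rw [mul_inv_cancel, one_mul, inv_one, mul_one, mul_inv_cancel] at h2
        rw [h1, eq_inv_of_mul_eq_one_left h2.symm]
        exact B.inv_mem (ha2 j y hy) }
  have hQN : Q₁ ≤ N := by
    intro z hz
    refine ⟨DQ.le hz, fun j y hy => ?_⟩
    have h1 : u ^ j * z * (u ^ j)⁻¹ ∈ Q₁ := hQ₁n.conj_mem z hz _
    rw [DQ.cent _ h1 y hy, mul_inv_cancel_right, mul_inv_cancel]
    exact B.one_mem
  have hNQ : N ≤ Q := fun a ha => ha.1
  -- (a)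
  have hd : ∀ d : F, gp M (r ^ b) F d = 1 → ∀ a ∈ N, d * a * d⁻¹ ∈ N := by
    intro d hd a ha
    have h1 : d * a * d⁻¹ = (d * a * d⁻¹ * a⁻¹) * a := by group
    rw [h1]
    exact N.mul_mem (hQN (DQ.triv d hd a ha.1)) ha
  -- (b)
  have hm : ∀ g : F, g ^ M = 1 → ∀ a ∈ N, g * a * g⁻¹ ∈ N := by
    intro g hg a ha
    refine ⟨hcj g a ha.1, fun j y hy => ?_⟩
    have hgj : (u ^ j * g * (u ^ j)⁻¹) ^ M = 1 := by
      rw [conj_pow, hg, mul_one, mul_inv_cancel]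
    generalize hgjd : u ^ j * g * (u ^ j)⁻¹ = g' at hgj
    have h1 : u ^ j * (g * a * g⁻¹) * (u ^ j)⁻¹ = g' * (u ^ j * a * (u ^ j)⁻¹) * g'⁻¹ := by
      rw [← hgjd]; group
    have haj : u ^ j * a * (u ^ j)⁻¹ ∈ Q := hcj _ _ ha.1
    have hy' : g'⁻¹ * y * g' ∈ Q := by
      have := hcj g'⁻¹ y hy
      rwa [inv_inv] at this
    have h3 := ha.2 j _ hy'
    rw [h1]
    generalize u ^ j * a * (u ^ j)⁻¹ = a' at *
    have h2 : g' * a' * g'⁻¹ * y * (g' * a' * g'⁻¹)⁻¹ * y⁻¹ =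
        g' * (a' * (g'⁻¹ * y * g') * a'⁻¹ * (g'⁻¹ * y * g')⁻¹) * g'⁻¹ := by group
    rw [h2, DQ.centM _ (DQ.comm _ haj _ hy') g' hgj, mul_inv_cancel_right]
    exact h3
  -- (c)
  have hu1 : ∀ a ∈ N, u * a * u⁻¹ ∈ N := by
    rintro a ⟨ha, ha2⟩
    refine ⟨hcj u a ha, fun j y hy => ?_⟩
    have h1 : u ^ j * (u * a * u⁻¹) * (u ^ j)⁻¹ = u ^ (j + 1) * a * (u ^ (j + 1))⁻¹ := by
      rw [pow_succ]; group
    rw [h1]
    exact ha2 (j + 1) y hy
  have hun : ∀ n : ℕ, ∀ a ∈ N, u ^ n * a * (u ^ n)⁻¹ ∈ N := by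
    intro n
    induction n with
    | zero => intro a ha; simpa using ha
    | succ n ih =>
      intro a ha
      have h1 : u ^ (n + 1) * a * (u ^ (n + 1))⁻¹ = u ^ n * (u * a * u⁻¹) * (u ^ n)⁻¹ := by
        rw [pow_succ]; group
      rw [h1]
      exact ih _ (hu1 a ha)
  have hui : ∀ i : ℕ, ∀ a ∈ N, (u ^ i)⁻¹ * a * (u ^ i)⁻¹⁻¹ ∈ N := by
    intro i a ha
    have h1 : (u ^ i)⁻¹ ∈ Submonoid.powers u := by
      rw [(isOfFinOrder_of_finite u).mem_powers_iff_mem_zpowers]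
      exact inv_mem (pow_mem (mem_zpowers u) i)
    obtain ⟨n, hn⟩ := h1
    have hn' : u ^ n = (u ^ i)⁻¹ := hn
    rw [← hn']
    exact hun n a ha
  have hNn : N.Normal := by
    constructor
    intro a ha g
    obtain ⟨i, hi⟩ := (gp_M D hB).1 g
    have hk : gp M (r ^ b) F (g * u ^ i) ∈ krad M (GH M (r ^ b) F) := by
      rw [map_mul, map_pow, hu, ← map_pow, ← map_mul]
      exact hi
    have hρ := tw_krad_pow (F := GH M (r ^ b) F) hcop (gp_exp hexp) _ hk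
    obtain ⟨k, hk1, hk0⟩ := Nat.chineseRemainder hcop 1 0
    have hk0' : r ^ b ∣ k := (Nat.modEq_zero_iff_dvd).1 hk0
    have hmM : ((g * u ^ i) ^ k) ^ M = 1 := by
      obtain ⟨l, rfl⟩ := hk0'
      have h1 : r ^ b * l * M = M * r ^ b * l := by ring
      rw [← pow_mul, h1, pow_mul, hexp, one_pow]
    have hgpm : gp M (r ^ b) F ((g * u ^ i) ^ k) = gp M (r ^ b) F (g * u ^ i) := by
      rw [map_pow]
      conv_rhs => rw [← pow_one (gp M (r ^ b) F (g * u ^ i))]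
      rw [pow_eq_pow_iff_modEq]
      exact hk1.of_dvd (orderOf_dvd_of_pow_eq_one hρ)
    have hdd : gp M (r ^ b) F (((g * u ^ i) ^ k)⁻¹ * (g * u ^ i)) = 1 := by
      rw [map_mul, map_inv, hgpm, inv_mul_cancel]
    have h1 := hm _ hmM _ (hd _ hdd _ (hui i a ha))
    generalize hKd : (g * u ^ i) ^ k = K at *
    have h2 : K * (K⁻¹ * (g * u ^ i) * ((u ^ i)⁻¹ * a * (u ^ i)⁻¹⁻¹) * (K⁻¹ * (g * u ^ i))⁻¹) *
        K⁻¹ = g * a * g⁻¹ := by group
    rw [h2] at h1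
    exact h1
  have hNne : N ≠ Q := by
    intro hNe
    apply hw
    have h1 : ⁅Q, Q⁆ ≤ B := by
      rw [Subgroup.commutator_le]
      intro a ha y hy
      have h2 : a ∈ N := by rw [hNe]; exact ha
      have h3 := h2.2 0 y hy
      rw [commutatorElement_def]
      simpa using h3
    exact h1 hwQ
  exact DQ.min N hNn hNQ hNne ⟨hx, hxB⟩

end Pool.Agent.Lib.MP_544bd1_al
end

section

/-!
Theorem G' (paper 275): the subgroup M_u.
-/

namespace Pool.Agent.Lib.MP_544bd1_al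

open Subgroup

variable {M r b c : ℕ} {F : Type} [Group F] [Finite F]

/-- **(3.1) of paper 275.**

Proof. `g₀` from `gp_g0`. Let `X` be a subgroup of `F` with `u ∈ X`, `X.map (gp ..) = ⊤`, and
`Nat.card X` minimal. Choose `k ∈ X` with `gp k = gp g₀`. `Y = closure {u, k⁻¹ * u * k} ≤ X`; the image
of `Y` contains `gp u = gp h` and `gp (k⁻¹ * u * k) = gp (g₀⁻¹ * h * g₀)`, so it is `⊤` by `gp_cover`; so
`Y = X ∋ k`. -/
theorem gp_Mu (D : GpMin M r b c F) {h u : F} (hB : GpB M r b c h)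
    (hu : gp M (r ^ b) F u = gp M (r ^ b) F h) :
    ∃ k : F, k ∈ closure {u, k⁻¹ * u * k} ∧
      (closure {u, k⁻¹ * u * k}).map (gp M (r ^ b) F) = ⊤ := by
  obtain ⟨g, -, hgR, hgne⟩ := gp_g0 D hB
  classical
  have hex : ∃ n : ℕ, ∃ X : Subgroup F, u ∈ X ∧ X.map (gp M (r ^ b) F) = ⊤ ∧ Nat.card X = n := by
    refine ⟨Nat.card (⊤ : Subgroup F), ⊤, mem_top u, ?_, rfl⟩
    rw [← MonoidHom.range_eq_map]
    exact MonoidHom.range_eq_top.2 gp_surj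
  obtain ⟨X, huX, hXtop, hXc⟩ := Nat.find_spec hex
  have hgX : gp M (r ^ b) F g ∈ X.map (gp M (r ^ b) F) := by
    rw [hXtop]; trivial
  obtain ⟨k, hkX, hkg⟩ := hgX
  have hYX : closure {u, k⁻¹ * u * k} ≤ X := by
    rw [closure_le]
    rintro x (rfl | hx)
    · exact huX
    · rw [Set.mem_singleton_iff] at hx
      rw [hx]
      exact X.mul_mem (X.mul_mem (X.inv_mem hkX) huX) hkX
  have huY : u ∈ closure {u, k⁻¹ * u * k} := subset_closure (Or.inl rfl)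
  have hYtop : (closure {u, k⁻¹ * u * k}).map (gp M (r ^ b) F) = ⊤ := by
    refine gp_cover D hB hgR hgne _ ?_ ?_
    · rw [← hu]
      exact ⟨u, huY, rfl⟩
    · refine ⟨k⁻¹ * u * k, subset_closure (Or.inr rfl), ?_⟩
      rw [map_mul, map_mul, map_inv, hkg, hu, map_mul, map_mul, map_inv]
  have hcard : Nat.card X ≤ Nat.card (closure {u, k⁻¹ * u * k} : Subgroup F) := by
    rw [hXc]
    exact Nat.find_min' hex ⟨_, huY, hYtop, rfl⟩
  have hYeq : closure {u, k⁻¹ * u * k} = X := eq_of_le_of_card_ge hYX hcard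
  refine ⟨k, ?_, hYtop⟩
  rw [hYeq]
  exact hkX

/-- **The element `ρ` of (3.2) of paper 275.**

Proof. `ρ := g` from `gp_g0`. The image of `closure {u, ρ}` contains `gp u = gp h` and
`gp (ρ⁻¹ * u * ρ) = gp (ρ⁻¹ * h * ρ)`; `gp_cover`. -/
theorem gp_rho (D : GpMin M r b c F) {h u : F} (hB : GpB M r b c h)
    (hu : gp M (r ^ b) F u = gp M (r ^ b) F h) :
    ∃ ρ : F, ρ ^ M = 1 ∧ (closure {u, ρ}).map (gp M (r ^ b) F) = ⊤ := by
  obtain ⟨g, hgM, hgR, hgne⟩ := gp_g0 D hB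
  refine ⟨g, hgM, gp_cover D hB hgR hgne _ ?_ ?_⟩
  · rw [← hu]
    exact ⟨u, subset_closure (Or.inl rfl), rfl⟩
  · have h1 : g ∈ closure {u, g} := subset_closure (Or.inr rfl)
    have h2 : u ∈ closure {u, g} := subset_closure (Or.inl rfl)
    refine ⟨g⁻¹ * u * g, mul_mem (mul_mem (inv_mem h1) h2) h1, ?_⟩
    rw [map_mul, map_mul, hu, map_mul, map_mul]

/-- **Irreducibility of `Q ⧸ Q₁`** under a covering subgroup `X`.

Proof. `N' = {n * q₁ | n ∈ N, q₁ ∈ Q₁} = N ⊔ Q₁` is normalized by `X` and by every `d` with `gp d = 1`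
(`d * n * d⁻¹ = (d * n * d⁻¹ * n⁻¹) * n`, `DQ.triv`), so it is normal in `F` (every `g : F` is `x * d`
with `x ∈ X`, `gp d = 1`, by `hX`). `N' ≤ Q`, `N' ≰ Q₁`, so `N' = Q` by `DQ.min`. -/
theorem gp_irr {Q Q₁ : Subgroup F} (DQ : GpQ M (r ^ b) r Q Q₁) {X N : Subgroup F}
    (hX : X.map (gp M (r ^ b) F) = ⊤) (hNQ : N ≤ Q) (hN : ∀ t ∈ X, ∀ x ∈ N, t * x * t⁻¹ ∈ N)
    {z : F} (hz : z ∈ N) (hz1 : z ∉ Q₁) : ∀ q ∈ Q, ∃ n ∈ N, ∃ q₁ ∈ Q₁, q = n * q₁ := by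
  have hQ₁n := DQ.nQ₁
  have hmem : ∀ x, x ∈ N ⊔ Q₁ ↔ ∃ n ∈ N, ∃ q ∈ Q₁, n * q = x := fun x => mem_sup_of_normal_right
  have hnorm : (N ⊔ Q₁).Normal := by
    constructor
    intro x hx g
    obtain ⟨n, hn, q, hq, rfl⟩ := (hmem x).1 hx
    have h1 : g * (n * q) * g⁻¹ = (g * n * g⁻¹) * (g * q * g⁻¹) := by group
    rw [h1]
    refine mul_mem ?_ (mem_sup_right (hQ₁n.conj_mem q hq g))
    have hg : gp M (r ^ b) F g ∈ X.map (gp M (r ^ b) F) := by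
      rw [hX]; trivial
    obtain ⟨t, ht, htg⟩ := hg
    have hd : gp M (r ^ b) F (g * t⁻¹) = 1 := by
      rw [map_mul, map_inv, htg, mul_inv_cancel]
    have h2 := DQ.triv (g * t⁻¹) hd (t * n * t⁻¹) (hNQ (hN t ht n hn))
    have h3 : g * n * g⁻¹ = (g * t⁻¹ * (t * n * t⁻¹) * (g * t⁻¹)⁻¹ * (t * n * t⁻¹)⁻¹) * (t * n * t⁻¹) := by
      group
    rw [h3]
    exact mul_mem (mem_sup_right h2) (mem_sup_left (hN t ht n hn))
  have heq : N ⊔ Q₁ = Q := by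
    by_contra hne
    exact hz1 (DQ.min _ hnorm (sup_le hNQ DQ.le) hne (mem_sup_left hz))
  intro q hq
  rw [← heq] at hq
  obtain ⟨n, hn, q₁, hq₁, h⟩ := (hmem q).1 hq
  exact ⟨n, hn, q₁, hq₁, h.symm⟩

/-- **Commutators of `Q` are commutators of a supplement of `Q₁`.**

Proof. `Q₁` is central in `Q` (`DQ.cent`): for `q = n * q₁`, `q' = n' * q₁'`:
`q * q' * q⁻¹ * q'⁻¹ = n * n' * n⁻¹ * n'⁻¹`. So `⁅Q, Q⁆ ≤ ⁅N, N⁆`. -/
theorem gp_comm_le {Q Q₁ : Subgroup F} (DQ : GpQ M (r ^ b) r Q Q₁) {N : Subgroup F}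
    (hN : ∀ q ∈ Q, ∃ n ∈ N, ∃ q₁ ∈ Q₁, q = n * q₁) : ⁅Q, Q⁆ ≤ ⁅N, N⁆ := by
  rw [commutator_le]
  intro q hq q' hq'
  obtain ⟨n, hn, q₁, hq₁, h1⟩ := hN q hq
  obtain ⟨n', hn', q₁', hq₁', h2⟩ := hN q' hq'
  have hnQ : n ∈ Q := by
    have h3 : n = q * q₁⁻¹ := by rw [h1]; group
    rw [h3]
    exact mul_mem hq (inv_mem (DQ.le hq₁))
  have e1 : q₁ * q' = q' * q₁ := DQ.cent q₁ hq₁ q' hq'
  have e2 : q₁' * n = n * q₁' := DQ.cent q₁' hq₁' n hnQ
  have e3 : q * q' * q⁻¹ * q'⁻¹ = n * n' * n⁻¹ * n'⁻¹ := by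
    have h3 : q * q' * q⁻¹ * q'⁻¹ = n * (q₁ * q') * q₁⁻¹ * n⁻¹ * q'⁻¹ := by
      rw [h1]; group
    rw [h3, e1]
    have h4 : n * (q' * q₁) * q₁⁻¹ * n⁻¹ * q'⁻¹ = n * q' * n⁻¹ * q'⁻¹ := by group
    rw [h4, h2]
    have h7 : q₁' * n⁻¹ = n⁻¹ * q₁' := by
      rw [mul_inv_eq_iff_eq_mul, mul_assoc, e2]
      group
    calc n * (n' * q₁') * n⁻¹ * (n' * q₁')⁻¹ = n * n' * (q₁' * n⁻¹) * q₁'⁻¹ * n'⁻¹ := by group
      _ = n * n' * (n⁻¹ * q₁') * q₁'⁻¹ * n'⁻¹ := by rw [h7]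
      _ = _ := by group
  have e4 := commutator_mem_commutator hn hn'
  rw [commutatorElement_def] at e4
  rw [commutatorElement_def, e3]
  exact e4

end Pool.Agent.Lib.MP_544bd1_al
end

section

/-!
Theorem G' (paper 275): the module.
-/

namespace Pool.Agent.Lib.MP_544bd1_al

open Subgroup

/-- restriction of the module to an invariant subspace -/
private lemma gpmod_restrict {T : Type} [Group T] {s : ℕ} (S E : Subgroup T)
    (hinv : ∀ e ∈ E, ∀ x ∈ S, e * x * e⁻¹ ∈ S) {V' : Type} [AddCommGroup V'] [Module (ZMod s) V']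
    (ρ' : E →* Module.End (ZMod s) V') (φ' : S → V') (hs : Function.Surjective φ')
    (ha : ∀ x y, φ' (x * y) = φ' x + φ' y)
    (hc : ∀ (e : E) (x : S), φ' ⟨e * x * (e : T)⁻¹, hinv e e.2 x x.2⟩ = ρ' e (φ' x))
    (W : Submodule (ZMod s) V') (hW : ∀ e, ∀ v ∈ W, ρ' e v ∈ W) :
    ∃ (S₂ : Subgroup T) (hinv₂ : ∀ e ∈ E, ∀ x ∈ S₂, e * x * e⁻¹ ∈ S₂)
      (ρ : E →* Module.End (ZMod s) W) (φ : S₂ → W), S₂ ≤ S ∧ Function.Surjective φ ∧
      (∀ x y, φ (x * y) = φ x + φ y) ∧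
      (∀ (e : E) (x : S₂), φ ⟨e * x * (e : T)⁻¹, hinv₂ e e.2 x x.2⟩ = ρ e (φ x)) ∧
      ∀ e v, ((ρ e v : W) : V') = ρ' e v := by
  have h1 : φ' 1 = 0 := by
    have h := ha 1 1
    rw [mul_one] at h
    exact left_eq_add.1 h
  have hn : ∀ x, φ' x⁻¹ = -φ' x := by
    intro x
    have h := ha x⁻¹ x
    rw [inv_mul_cancel, h1] at h
    exact eq_neg_of_add_eq_zero_left h.symm
  let S₂ : Subgroup T :=
    { carrier := {x | ∃ h : x ∈ S, φ' ⟨x, h⟩ ∈ W}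
      mul_mem' := by
        rintro x y ⟨hx, hx'⟩ ⟨hy, hy'⟩
        refine ⟨mul_mem hx hy, ?_⟩
        have h := ha ⟨x, hx⟩ ⟨y, hy⟩
        have h2 : φ' ⟨x * y, mul_mem hx hy⟩ = φ' ⟨x, hx⟩ + φ' ⟨y, hy⟩ := h
        rw [h2]
        exact add_mem hx' hy'
      one_mem' := ⟨one_mem _, by
        have h2 : φ' ⟨1, one_mem _⟩ = 0 := h1
        rw [h2]
        exact zero_mem _⟩
      inv_mem' := by
        rintro x ⟨hx, hx'⟩
        refine ⟨inv_mem hx, ?_⟩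
        have h2 : φ' ⟨x⁻¹, inv_mem hx⟩ = -φ' ⟨x, hx⟩ := hn ⟨x, hx⟩
        rw [h2]
        exact neg_mem hx' }
  have hinv₂ : ∀ e ∈ E, ∀ x ∈ S₂, e * x * e⁻¹ ∈ S₂ := by
    rintro e he x ⟨hx, hx'⟩
    refine ⟨hinv e he x hx, ?_⟩
    have h2 := hc ⟨e, he⟩ ⟨x, hx⟩
    have h3 : φ' ⟨e * x * e⁻¹, hinv e he x hx⟩ = ρ' ⟨e, he⟩ (φ' ⟨x, hx⟩) := h2
    rw [h3]
    exact hW _ _ hx'
  refine ⟨S₂, hinv₂,
    { toFun := fun e => (ρ' e).restrict (hW e)
      map_one' := by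
        ext v
        simp [LinearMap.restrict_apply]
      map_mul' := fun e f => by
        ext v
        simp [LinearMap.restrict_apply] },
    fun x => ⟨φ' ⟨x, x.2.choose⟩, x.2.choose_spec⟩, ?_, ?_, ?_, ?_, ?_⟩
  · rintro x ⟨hx, -⟩
    exact hx
  · rintro ⟨v, hv⟩
    obtain ⟨x, rfl⟩ := hs v
    exact ⟨⟨x, ⟨x.2, hv⟩⟩, rfl⟩
  · intro x y
    apply Subtype.ext
    exact ha ⟨x, x.2.choose⟩ ⟨y, y.2.choose⟩
  · intro e x
    apply Subtype.ext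
    exact hc e ⟨x, x.2.choose⟩
  · intro e v
    rfl

/-- the choice of `S` -/
private lemma gpmod_S {M r b : ℕ} (hr : r.Prime) (hrM : ¬ r ∣ M) (hM : 0 < M) (hb : 0 < b)
    {T : Type} [Group T] [Finite T] (hexp : ∀ x : T, x ^ (M * r ^ b) = 1) {w : T}
    (hw : w ^ r = 1)
    (h1 : InOP M (r ^ b) (⊤ : Subgroup T) w) (h2 : ¬ InO (r ^ b) (⊤ : Subgroup T) w)
    (E : Subgroup T) (hE : IsPGroup r E) :
    ∃ s : ℕ, s.Prime ∧ s ≠ r ∧ ∃ S : Subgroup T, (∀ e ∈ E, ∀ x ∈ S, e * x * e⁻¹ ∈ S) ∧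
      IsPGroup s S ∧ (∀ x ∈ S, x ^ M = 1) ∧ ∃ x ∈ S, w * x ≠ x * w := by
  have hcop : Nat.Coprime M (r ^ b) :=
    ((Nat.Prime.coprime_iff_not_dvd hr).2 hrM).symm.pow_right b
  have hO := tw_krad_pow hcop hexp
  have hOn := krad_normal M T
  have hwb : w ^ (r ^ b) = 1 := by
    obtain ⟨k, hk⟩ : r ∣ r ^ b := dvd_pow_self r hb.ne'
    rw [hk, pow_mul, hw, one_pow]
  have hne : ¬ ∀ x ∈ krad M T, w * x = x * w := fun h => h2 (gp_cent hr hrM hM hexp hwb h1 h)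
  have hcard : ¬ r ∣ Nat.card (krad M T) := tw_card_cop hr hrM _ hO
  by_contra hcon
  apply hne
  have key : krad M T ≤ centralizer {w} := by
    apply tw_gen_sylow
    intro s hs
    obtain ⟨S, hSO, hS, hSE, k, hk, hsk⟩ := tw_inv_sylow hs hr (krad M T) E
      (fun e _ x hx => hOn.conj_mem x hx e) hE hcard
    refine ⟨S, hSO, ?_, k, hk, hsk⟩
    by_contra hSC
    apply hcon
    have hex : ∃ x ∈ S, w * x ≠ x * w := by
      by_contra h
      push Not at h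
      apply hSC
      intro x hx
      rw [mem_centralizer_singleton_iff]
      exact (h x hx).symm
    refine ⟨s, hs, ?_, S, hSE, hS, fun x hx => hO x (hSO hx), hex⟩
    rintro rfl
    obtain ⟨x, hx, hxw⟩ := hex
    have h3 : Nat.card S ∣ Nat.card (krad M T) := Subgroup.card_dvd_of_le hSO
    have := Fact.mk hs
    obtain ⟨n, hn⟩ := hS.exists_card_eq
    have hn0 : n = 0 := by
      by_contra hn0
      apply hcard
      refine dvd_trans ?_ h3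
      rw [hn]
      exact dvd_pow_self _ hn0
    rw [hn0, pow_zero] at hn
    have h4 : S = ⊥ := (Subgroup.eq_bot_iff_card S).2 hn
    rw [h4, Subgroup.mem_bot] at hx
    rw [hx, mul_one, one_mul] at hxw
    exact hxw rfl
  intro x hx
  have h3 := key hx
  rw [mem_centralizer_singleton_iff] at h3
  exact h3.symm

/-- **The module on which `w` acts without fixed points.**

Proof. `O = krad M T` (`x ^ M = 1` for `x ∈ O`: `tw_krad_pow`). By `gp_cent` `w` does not centralize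
`O` (`w ^ (r ^ b) = 1`: `w ^ r = 1` and `0 < b`). For every prime `s` there is an `E`-invariant Sylow
`s`-subgroup `S` of `O` (`tw_inv_sylow` (TwS1.lean) with `p := s`, `q := r`, `D := O`;
`r ∤ Nat.card O`: `tw_card_cop`). By `tw_gen_sylow` (`C := centralizer {w}`) there is `s` with
`S ≰ centralizer {w}`; `s ≠ r` (else `S = ⊥` as `r ∤ Nat.card O`). Let `F' = S ⊔ E` (or the
normalizer of `S`), a finite group containing `S` as a normal subgroup, `tw_module` (TwM.lean; `p := s`,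
`P := S`): `V'`, `ρ'`, `φ'`. `ρ' w ≠ 1` (otherwise `w`, an element of order a power of `r ≠ s`,
centralizes `S`). Let `V` be the range of `ρ' w - 1` on `V'`, nonzero, invariant under `ρ' e`, `e ∈ E`
(`w` is central in `E`); on `V`: `∑ i < r, ρ' w ^ i = 0`, as
`(∑ i < r, ρ' w ^ i) * (ρ' w - 1) = ρ' w ^ r - 1 = 0`. Replace `S` by the preimage of `V` in `S`
(a subgroup as `φ'` is additive, normalized by `E`), and `φ'`, `ρ'` by their restrictions. -/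
theorem gp_mod {M r b : ℕ} (hr : r.Prime) (hrM : ¬ r ∣ M) (hM : 0 < M) (hb : 0 < b) {T : Type}
    [Group T] [Finite T] (hexp : ∀ x : T, x ^ (M * r ^ b) = 1) {w : T} (hw : w ^ r = 1)
    (h1 : InOP M (r ^ b) (⊤ : Subgroup T) w) (h2 : ¬ InO (r ^ b) (⊤ : Subgroup T) w)
    (E : Subgroup T) (hE : IsPGroup r E) (hwE : w ∈ E) (hwc : ∀ e ∈ E, e * w = w * e) :
    ∃ s : ℕ, s.Prime ∧ s ≠ r ∧ ∃ (S : Subgroup T) (hinv : ∀ e ∈ E, ∀ x ∈ S, e * x * e⁻¹ ∈ S)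
      (V : Type) (_ : AddCommGroup V) (_ : Module (ZMod s) V) (ρ : E →* Module.End (ZMod s) V)
      (φ : S → V), Finite V ∧ Nontrivial V ∧ (∀ x ∈ S, x ^ M = 1) ∧ Function.Surjective φ ∧
      (∀ x y, φ (x * y) = φ x + φ y) ∧
      (∀ (e : E) (x : S), φ ⟨e * x * (e : T)⁻¹, hinv e e.2 x x.2⟩ = ρ e (φ x)) ∧
      ∑ i ∈ Finset.range r, (ρ ⟨w, hwE⟩) ^ i = 0 := by
  obtain ⟨s, hs, hsr, S, hSE, hS, hSM, x₀, hx₀, hxw⟩ :=
    gpmod_S hr hrM hM hb hexp hw h1 h2 E hE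
  have hEN : E ≤ normalizer (S : Set T) := Subgroup.le_normalizer_iff.2 hSE
  have hSN : S ≤ normalizer (S : Set T) := Subgroup.le_normalizer
  let N : Subgroup T := normalizer (S : Set T)
  have hPn : (S.subgroupOf N).Normal := Subgroup.normal_in_normalizer
  have hP : IsPGroup s (S.subgroupOf N) := by
    rintro ⟨⟨x, hx⟩, hx'⟩
    obtain ⟨k, hk⟩ := hS ⟨x, hx'⟩
    refine ⟨k, ?_⟩
    apply Subtype.ext
    apply Subtype.ext
    have h3 := congrArg Subtype.val hk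
    simpa using h3
  obtain ⟨V', iV, iM, iF, ρ₀, φ₀, hφs, hφa, hφc, -, hfaith⟩ := tw_module hs (S.subgroupOf N) hP
  -- the module for `E`
  let ρ' : E →* Module.End (ZMod s) V' := ρ₀.comp (Subgroup.inclusion hEN)
  let φ' : S → V' := fun x => φ₀ ⟨⟨x, hSN x.2⟩, x.2⟩
  have hφs' : Function.Surjective φ' := by
    intro v
    obtain ⟨⟨⟨x, hx⟩, hx'⟩, rfl⟩ := hφs v
    exact ⟨⟨x, hx'⟩, rfl⟩
  have hφa' : ∀ x y, φ' (x * y) = φ' x + φ' y := by
    intro x y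
    exact hφa ⟨⟨x, hSN x.2⟩, x.2⟩ ⟨⟨y, hSN y.2⟩, y.2⟩
  have hφc' : ∀ (e : E) (x : S), φ' ⟨e * x * (e : T)⁻¹, hSE e e.2 x x.2⟩ = ρ' e (φ' x) := by
    intro e x
    exact hφc (Subgroup.inclusion hEN e) ⟨⟨x, hSN x.2⟩, x.2⟩
  obtain ⟨A, hA⟩ : ∃ A : Module.End (ZMod s) V', A = ρ' ⟨w, hwE⟩ := ⟨_, rfl⟩
  have hAr : A ^ r = 1 := by
    have h3 : (⟨w, hwE⟩ : E) ^ r = 1 := Subtype.ext hw
    rw [hA, ← map_pow, h3, map_one]
  have hA1 : A ≠ 1 := by
    intro h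
    apply hxw
    have h3 : (Subgroup.inclusion hEN ⟨w, hwE⟩) ^ (r ^ 1) = 1 := by
      rw [pow_one, ← map_pow]
      have h4 : (⟨w, hwE⟩ : E) ^ r = 1 := Subtype.ext hw
      rw [h4, map_one]
    have h5 := hfaith r 1 (Subgroup.inclusion hEN ⟨w, hwE⟩) hr (Ne.symm hsr) h3
      (by rw [← h, hA]; rfl) ⟨x₀, hSN hx₀⟩ hx₀
    exact congrArg Subtype.val h5
  have hB : A - 1 ≠ 0 := sub_ne_zero.2 hA1
  have hcomm : ∀ (e : E) v, ρ' e ((A - 1) v) = (A - 1) (ρ' e v) := by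
    intro e v
    have h3 : e * ⟨w, hwE⟩ = ⟨w, hwE⟩ * e := Subtype.ext (hwc e e.2)
    have h4 : ρ' e * A = A * ρ' e := by rw [hA, ← map_mul, h3, map_mul]
    have h5 := congrArg (fun f : Module.End (ZMod s) V' => f v) h4
    simp only [Module.End.mul_apply] at h5
    simp only [LinearMap.sub_apply, Module.End.one_apply, map_sub]
    rw [h5]
  obtain ⟨S₂, hinv₂, ρ, φ, hS₂, hφs₂, hφa₂, hφc₂, hρ⟩ := gpmod_restrict S E hSE ρ' φ' hφs' hφa'
    hφc' (LinearMap.range (A - 1)) (by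
      rintro e _ ⟨v, rfl⟩
      exact ⟨ρ' e v, (hcomm e v).symm⟩)
  refine ⟨s, hs, hsr, S₂, hinv₂, LinearMap.range (A - 1), inferInstance, inferInstance, ρ, φ,
    inferInstance, ?_, fun x hx => hSM x (hS₂ hx), hφs₂, hφa₂, hφc₂, ?_⟩
  · rw [Submodule.nontrivial_iff_ne_bot]
    intro h
    exact hB (LinearMap.range_eq_bot.1 h)
  · ext v
    obtain ⟨v, v', rfl⟩ := v
    have hpow : ∀ (i : ℕ) (v : LinearMap.range (A - 1)),
        ((((ρ ⟨w, hwE⟩) ^ i) v : LinearMap.range (A - 1)) : V') = (A ^ i) (v : V') := by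
      intro i
      induction i with
      | zero => intro v; rfl
      | succ i ih =>
        intro v
        rw [pow_succ, pow_succ, Module.End.mul_apply, Module.End.mul_apply, ih, hρ, ← hA]
    rw [LinearMap.sum_apply, AddSubmonoidClass.coe_finsetSum]
    simp only [hpow]
    rw [← LinearMap.sum_apply, ← Module.End.mul_apply, geom_sum_mul, hAr, sub_self]
    rfl

end Pool.Agent.Lib.MP_544bd1_al
end

section

/-!
Theorem G' (paper 275): the contradiction (g).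
-/

namespace Pool.Agent.Lib.MP_544bd1_al

open Subgroup

variable {M r b c : ℕ} {F : Type} [Group F] [Finite F]

private lemma gp_N4_geom {r : ℕ} (hr : r.Prime) (c : ℕ) :
    ∑ i ∈ Finset.range (r ^ c), (Polynomial.X : Polynomial (ZMod r)) ^ i =
      (Polynomial.X - 1) ^ (r ^ c - 1) := by
  have : Fact r.Prime := ⟨hr⟩
  have h0 : (Polynomial.X - 1 : Polynomial (ZMod r)) ≠ 0 := by
    have := Polynomial.X_sub_C_ne_zero (1 : ZMod r)
    rwa [Polynomial.C_1] at this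
  apply mul_left_cancel₀ h0
  rw [mul_geom_sum, ← pow_succ', Nat.sub_add_cancel (Nat.one_le_pow _ _ hr.pos),
    sub_pow_char_pow, one_pow]

private lemma gp_N4_end {r c : ℕ} (hr : r.Prime) (hr5 : 5 ≤ r) (hc : 0 < c) {V : Type}
    [AddCommGroup V] [Module (ZMod r) V] (T : Module.End (ZMod r) V)
    (h4 : (T ^ (r ^ (c - 1)) - 1) ^ 4 = 0) : ∑ i ∈ Finset.range (r ^ c), T ^ i = 0 := by
  have : Fact r.Prime := ⟨hr⟩
  have h1 := congrArg (Polynomial.aeval T) (gp_N4_geom hr c)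
  simp only [map_sum, map_pow, map_sub, Polynomial.aeval_X, map_one] at h1
  have h2 : T ^ (r ^ (c - 1)) - 1 = (T - 1) ^ (r ^ (c - 1)) := by
    have h3 := congrArg (Polynomial.aeval T)
      (sub_pow_char_pow (p := r) (n := c - 1) (Polynomial.X : Polynomial (ZMod r)) 1)
    simp only [one_pow, map_pow, map_sub, Polynomial.aeval_X, map_one] at h3
    exact h3.symm
  rw [h1]
  rw [h2, ← pow_mul] at h4
  have h5 : r ^ (c - 1) * 4 ≤ r ^ c - 1 := by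
    have h6 : r ^ c = r ^ (c - 1) * r := by
      rw [← pow_succ, Nat.sub_add_cancel hc]
    have h7 : r ^ (c - 1) * 5 ≤ r ^ (c - 1) * r := Nat.mul_le_mul_left _ hr5
    have h8 : 0 < r ^ (c - 1) := pow_pos hr.pos _
    omega
  exact pow_eq_zero_of_le h5 h4

/-- **(g) of Section 3.3 of paper 275.** `u₁ = u ^ (r ^ (c - 1))`.

Proof. `V, τ, φ` from `gp_qmod`. `τ u = τ h` (`u = v * h`, `gp v = 1` by `DQ.ker`). For `x ∈ Q`:
`φ (gpN u₁ x) = (τ u₁ - 1) (φ x)`. By `hN4` and `φ` surjective `(τ u₁ - 1) ^ 4 = 0` on `V`. In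
characteristic `r`: `τ u₁ - 1 = (τ u - 1) ^ (r ^ (c - 1))` (`sub_pow_char_pow` for commuting elements
of the algebra generated by `τ u`; `Commute`), so `(τ u - 1) ^ (4 * r ^ (c - 1)) = 0`. Also
`∑ i < r ^ c, (τ u) ^ i = (τ u - 1) ^ (r ^ c - 1)` (char `r`: polynomial identity
`∑ i < q, X ^ i = (X - 1) ^ (q - 1)` in `(ZMod r)[X]`, from
`(X - 1) * ∑ i < q, X ^ i = X ^ q - 1 = (X - 1) ^ q`; there may be a lemma in TwL5a.lean or
Mathlib). `4 * r ^ (c - 1) ≤ r ^ c - 1` as `r ≥ 5`, `c ≥ 1`. So `∑ i < r ^ c, (τ u) ^ i = 0`, and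
`φ ((v * h) ^ (r ^ c)) = ∑ i < r ^ c, (τ h) ^ i (φ v) = 0` (as in `gp_norm`: `h ^ (r ^ c) = 1`), i.e.
`(v * h) ^ (r ^ c) ∈ Q₁`, contradicting `hz`. -/
theorem gp_N4 (D : GpMin M r b c F) {h v : F} (hB : GpB M r b c h) {Q Q₁ : Subgroup F}
    (DQ : GpQ M (r ^ b) r Q Q₁) (hv : v ∈ Q) (hz : (v * h) ^ (r ^ c) ∉ Q₁)
    (hN4 : ∀ x ∈ Q, gpN ((v * h) ^ (r ^ (c - 1))) (gpN ((v * h) ^ (r ^ (c - 1)))
      (gpN ((v * h) ^ (r ^ (c - 1))) (gpN ((v * h) ^ (r ^ (c - 1))) x))) ∈ Q₁) : False := by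
  obtain ⟨V, iV, iM, τ, φ, hfin, hφs, hφm, hφc, hφ0, hτ⟩ := gp_qmod D.hr DQ
  set u : F := v * h with hu
  have hτu : τ u = τ h := by
    rw [hu, map_mul, hτ v (DQ.ker v hv), one_mul]
  have hφ1 : φ 1 = 0 := (hφ0 1).2 Q₁.one_mem
  have hφi : ∀ x : Q, φ x⁻¹ = - φ x := by
    intro x
    have h1 := hφm x⁻¹ x
    rw [inv_mul_cancel, hφ1] at h1
    exact eq_neg_of_add_eq_zero_left h1.symm
  have hgN : ∀ (g : F) (x : F), x ∈ Q → gpN g x ∈ Q := fun g x hx =>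
    Q.mul_mem (Q.inv_mem hx) (DQ.nQ.conj_mem _ hx g)
  have hφN : ∀ (g : F) (x : Q), φ ⟨gpN g x, hgN g x x.2⟩ = (τ g - 1) (φ x) := by
    intro g x
    have h1 : (⟨gpN g x, hgN g x x.2⟩ : Q) = x⁻¹ * ⟨g * x * g⁻¹, DQ.nQ.conj_mem _ x.2 g⟩ := rfl
    rw [h1, hφm, hφi, hφc, LinearMap.sub_apply, Module.End.one_apply]
    abel
  have h4 : (τ u ^ (r ^ (c - 1)) - 1) ^ 4 = 0 := by
    refine LinearMap.ext fun y => ?_
    obtain ⟨x, rfl⟩ := hφs y
    rw [LinearMap.zero_apply]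
    set u₁ : F := u ^ (r ^ (c - 1)) with hu₁
    have h5 := (hφ0 ⟨_, hgN u₁ _ (hgN u₁ _ (hgN u₁ _ (hgN u₁ _ x.2)))⟩).2 (hN4 x x.2)
    have e1 := hφN u₁ x
    have e2 := hφN u₁ ⟨_, hgN u₁ _ x.2⟩
    have e3 := hφN u₁ ⟨_, hgN u₁ _ (hgN u₁ _ x.2)⟩
    have e4 := hφN u₁ ⟨_, hgN u₁ _ (hgN u₁ _ (hgN u₁ _ x.2))⟩
    rw [e4, e3, e2, e1] at h5
    rw [← map_pow, ← hu₁]
    exact h5
  have h5 := gp_N4_end D.hr D.hr5 D.hc (τ u) h4
  -- the norm
  have hnorm : ∀ k : ℕ, ∃ hk : u ^ k * (h ^ k)⁻¹ ∈ Q,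
      φ ⟨u ^ k * (h ^ k)⁻¹, hk⟩ = (∑ i ∈ Finset.range k, (τ u) ^ i) (φ ⟨v, hv⟩) := by
    intro k
    induction k with
    | zero =>
      refine ⟨by simp [Q.one_mem], ?_⟩
      simp only [pow_zero, inv_one, mul_one, Finset.range_zero, Finset.sum_empty,
        LinearMap.zero_apply]
      exact hφ1
    | succ k ih =>
      obtain ⟨hk, ih⟩ := ih
      have hc1 : h ^ k * v * (h ^ k)⁻¹ ∈ Q := DQ.nQ.conj_mem _ hv _
      have e : u ^ (k + 1) * (h ^ (k + 1))⁻¹ =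
          (u ^ k * (h ^ k)⁻¹) * (h ^ k * v * (h ^ k)⁻¹) := by
        rw [pow_succ, pow_succ, hu]
        group
      have hk1 : u ^ (k + 1) * (h ^ (k + 1))⁻¹ ∈ Q := by
        rw [e]
        exact Q.mul_mem hk hc1
      refine ⟨hk1, ?_⟩
      have e' : (⟨u ^ (k + 1) * (h ^ (k + 1))⁻¹, hk1⟩ : Q) =
          ⟨u ^ k * (h ^ k)⁻¹, hk⟩ * ⟨h ^ k * v * (h ^ k)⁻¹, hc1⟩ := Subtype.ext e
      rw [e', hφm, ih, hφc (h ^ k) ⟨v, hv⟩, Finset.sum_range_succ, LinearMap.add_apply, hτu,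
        map_pow]
  obtain ⟨hk, hk'⟩ := hnorm (r ^ c)
  rw [h5, LinearMap.zero_apply, hφ0] at hk'
  apply hz
  have h6 : u ^ (r ^ c) * (h ^ (r ^ c))⁻¹ = u ^ (r ^ c) := by
    rw [hB.1, inv_one, mul_one]
  rw [← h6]
  exact hk'

end Pool.Agent.Lib.MP_544bd1_al
end

section

/-!
Theorem G' (paper 275): an element w of Q' central in F.
-/

namespace Pool.Agent.Lib.MP_544bd1_al

open Subgroup
open scoped commutatorElement

variable {M r b c : ℕ} {F : Type} [Group F] [Finite F]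

/-- **A central element of `F` in `⁅Q, Q⁆`** (Section 3 of paper 275).

Proof. `Z = ⁅Q, Q⁆`, a normal subgroup of `F`, `Z ≤ Q₁` (`DQ.comm`), `Z ≠ ⊥` (`hab`), exponent `r`,
centralized by the `M`-elements (`DQ.centM`). `F` acts on `Z` by conjugation; let `Γ = F ⧸ C_F(Z)`, a
finite `r`-group: for `x : F`, `x ^ (r ^ b)` is an `M`-element, so `x ^ (r ^ b) ∈ C_F(Z)`. The `r`-group
`Γ` acts on the set `Z`, whose cardinality is divisible by `r`, and `1` is a fixed point, so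
(`IsPGroup.card_modEq_card_fixedPoints`, `IsPGroup.exists_fixed_point_of_prime_dvd_card_of_fixed_point`)
there is another fixed point `w`. -/
theorem gp_w (D : GpMin M r b c F) {Q Q₁ : Subgroup F}
    (DQ : GpQ M (r ^ b) r Q Q₁) (hab : ∃ x ∈ Q, ∃ y ∈ Q, x * y ≠ y * x) :
    ∃ w ∈ ⁅Q, Q⁆, w ≠ 1 ∧ ∀ x : F, x * w = w * x := by
  have := DQ.nQ
  have : Fact r.Prime := ⟨D.hr⟩
  set Z : Subgroup F := ⁅Q, Q⁆ with hZ
  have hZn : Z.Normal := Subgroup.commutator_normal Q Q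
  have hZQ₁ : Z ≤ Q₁ := by
    rw [hZ, Subgroup.commutator_le]
    intro x hx y hy
    rw [commutatorElement_def]
    exact DQ.comm x hx y hy
  have hexpZ : ∀ x : F, x ∈ Z → x ^ r = 1 := fun x hx => DQ.exp x (DQ.le (hZQ₁ hx))
  obtain ⟨x₀, hx₀, y₀, hy₀, hxy⟩ := hab
  -- the conjugation action
  set f : F →* MulAut Z := MulAut.conjNormal with hf
  have hfM : ∀ x : F, f x ^ (r ^ b) = 1 := by
    intro x
    rw [← map_pow]
    ext z
    rw [hf, MulAut.conjNormal_apply]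
    have hM : (x ^ (r ^ b)) ^ M = 1 := by
      rw [← pow_mul, mul_comm]
      exact D.hexp x
    have := DQ.centM (z : F) (hZQ₁ z.2) (x ^ (r ^ b)) hM
    simp only [MulAut.one_apply]
    rw [this, mul_inv_cancel_right]
  have hP : IsPGroup r f.range := by
    rintro ⟨g, x, rfl⟩
    exact ⟨b, Subtype.ext (hfM x)⟩
  have hdvd : r ∣ Nat.card Z := by
    have hmem : ⁅x₀, y₀⁆ ∈ Z := Subgroup.commutator_mem_commutator hx₀ hy₀
    have hne : (⟨⁅x₀, y₀⁆, hmem⟩ : Z) ≠ 1 := by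
      intro h
      have h1 := congrArg Subtype.val h
      exact hxy (commutatorElement_eq_one_iff_mul_comm.1 h1)
    have hord : orderOf (⟨⁅x₀, y₀⁆, hmem⟩ : Z) = r := by
      refine orderOf_eq_prime ?_ hne
      exact Subtype.ext (hexpZ _ hmem)
    rw [← hord]
    exact orderOf_dvd_natCard _
  have h1fix : (1 : Z) ∈ MulAction.fixedPoints f.range Z := by
    rintro ⟨g, hg⟩
    change g (1 : Z) = 1
    exact map_one g
  obtain ⟨w, hw, hw1⟩ := hP.exists_fixed_point_of_prime_dvd_card_of_fixed_point Z hdvd h1fix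
  refine ⟨w, w.2, fun h => hw1 (Subtype.ext h.symm), fun x => ?_⟩
  have h2 : f x w = w := hw ⟨f x, x, rfl⟩
  have h3 : x * (w : F) * x⁻¹ = w := by
    have := congrArg Subtype.val h2
    rwa [hf, MulAut.conjNormal_apply] at this
  rw [mul_inv_eq_iff_eq_mul] at h3
  exact h3

end Pool.Agent.Lib.MP_544bd1_al
end

section

/-!
Theorem G' (paper 275): case (U1).
-/

namespace Pool.Agent.Lib.MP_544bd1_al

open Subgroup

variable {M r b c : ℕ} {F : Type} [Group F] [Finite F]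

/-- **Case (U1) of paper 275.**

Proof. `y = q * h`. `GpB M r b c y`: `y ^ (r ^ c) = 1` is `hq`; `gp y = gp h` (`DQ.ker`), so
`gp (y ^ (r ^ (c - 1))) = gp (h ^ (r ^ (c - 1))) ≠ 1` (`D.gp_iff`). Suppose `GpS M (r ^ b) y S'`. Take
`v ∈ Q` from `gp_Uconj` (for `S'`), with `t := y`: `v⁻¹ * y * v` normalizes `S`. `v⁻¹ * y * v = q' * h`,
`q' = v⁻¹ * q * (h * v * h⁻¹) ∈ Q`. `h` normalizes `S`, so (finite) `q'` normalizes `S`: for `s ∈ S`:
`q' * s * q'⁻¹ * s⁻¹ ∈ S ⊓ Q = ⊥` (exponents `M` and `r`), so `q' = 1` by `gp_U`. So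
`q = v * (h * v * h⁻¹)⁻¹` (`Q` abelian) `= v * h * v⁻¹ * h⁻¹`, contradicting `hq'`. -/
theorem gp_U1 (D : GpMin M r b c F) {h : F} (hB : GpB M r b c h) {Q Q₁ : Subgroup F}
    (DQ : GpQ M (r ^ b) r Q Q₁) (hab : ∀ x ∈ Q, ∀ y ∈ Q, x * y = y * x) {S : Subgroup F}
    (hS : GpS M (r ^ b) h S) {q : F} (hqQ : q ∈ Q) (hq : (q * h) ^ (r ^ c) = 1)
    (hq' : ∀ v ∈ Q, q ≠ v * h * v⁻¹ * h⁻¹) :
    GpB M r b c (q * h) ∧ ¬ ∃ S' : Subgroup F, GpS M (r ^ b) (q * h) S' := by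
  have hgq : gp M (r ^ b) F (q * h) = gp M (r ^ b) F h := by
    rw [map_mul, DQ.ker q hqQ, one_mul]
  refine ⟨⟨hq, fun h1 => hB.2 ?_⟩, ?_⟩
  · rw [← D.gp_iff] at h1 ⊢
    rw [map_pow, hgq, ← map_pow] at h1
    exact h1
  · rintro ⟨S', h1, h2, h3⟩
    obtain ⟨v, hv, hvS⟩ := gp_Uconj D hB DQ hab hS S' h1 h3
    have hw := hvS (q * h) h2
    obtain ⟨q', hq'd⟩ : ∃ q', q' = v⁻¹ * q * (h * v * h⁻¹) := ⟨_, rfl⟩
    have hq'Q : q' ∈ Q := by
      rw [hq'd]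
      exact Q.mul_mem (Q.mul_mem (Q.inv_mem hv) hqQ) (DQ.nQ.conj_mem v hv h)
    have hwq : v⁻¹ * (q * h) * v = q' * h := by
      rw [hq'd]
      group
    rw [hwq] at hw
    have hinv := fr_comm_proper_zn (pow_pos D.hr.pos c) hB.1 hS.2.1
    have hS2 : ∀ s ∈ S, q' * s * q'⁻¹ ∈ S := by
      intro s hs
      have h4 := hinv h⁻¹ (inv_mem (mem_zpowers h)) s hs
      have h5 := hw _ h4
      have h6 : q' * h * (h⁻¹ * s * h⁻¹⁻¹) * (q' * h)⁻¹ = q' * s * q'⁻¹ := by group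
      rwa [h6] at h5
    have hb : 0 < b := lt_of_lt_of_le D.hc D.hcb
    have hcM : ∀ s ∈ S, s * q' = q' * s := by
      intro s hs
      have h4 : q' * s * q'⁻¹ * s⁻¹ ∈ S := S.mul_mem (hS2 s hs) (S.inv_mem hs)
      have h5 : q' * s * q'⁻¹ * s⁻¹ ∈ Q := by
        have h6 := Q.mul_mem hq'Q (DQ.nQ.conj_mem _ (Q.inv_mem hq'Q) s)
        have h7 : q' * (s * q'⁻¹ * s⁻¹) = q' * s * q'⁻¹ * s⁻¹ := by group
        rwa [h7] at h6
      have h6 : (q' * s * q'⁻¹ * s⁻¹) ^ (r ^ b) = 1 := by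
        obtain ⟨k, hk⟩ := Nat.exists_eq_succ_of_ne_zero hb.ne'
        rw [hk, Nat.succ_eq_add_one, pow_succ', pow_mul, DQ.exp _ h5, one_pow]
      have h7 := tw_one D.cop (hS.1 _ h4) h6
      have h8 : q' * s * q'⁻¹ = s := mul_inv_eq_one.1 h7
      calc s * q' = q' * s * q'⁻¹ * q' := by rw [h8]
        _ = q' * s := by group
    have hq1 : q' = 1 := (gp_U D hB DQ hab hS).1 q' hq'Q hcM
    apply hq' v hv
    rw [hq'd] at hq1
    calc q = v * (v⁻¹ * q * (h * v * h⁻¹)) * (h * v * h⁻¹)⁻¹ := by group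
      _ = v * h * v⁻¹ * h⁻¹ := by
        rw [hq1]
        group

end Pool.Agent.Lib.MP_544bd1_al
end

section

/-!
Theorem G' (paper 275): fixed vectors of z.
-/

namespace Pool.Agent.Lib.MP_544bd1_al

open Subgroup

/-- the statement over an algebraically closed field -/
private theorem gpcz_K {K : Type} [Field K] [IsAlgClosed K] {r c : ℕ} (hr : r.Prime)
    (hrK : (r : K) ≠ 0) {E : Type} [Group E] {Q A : Subgroup E} {u w : E} (D : GpE r c Q A u w)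
    {W : Type} [AddCommGroup W] [Module K W] [FiniteDimensional K W] [Nontrivial W]
    (ρ : E →* Module.End K W) (hw : ∑ i ∈ Finset.range r, (ρ w) ^ i = 0) :
    ∃ v : W, v ≠ 0 ∧ ρ (u ^ (r ^ c)) v = v := by
  have hmul : ∀ (g h : E) (x : W), ρ (g * h) x = ρ g (ρ h x) := fun g h x => by
    rw [map_mul, Module.End.mul_apply]
  have hone : ∀ x : W, ρ 1 x = x := fun x => by
    rw [map_one, Module.End.one_apply]
  have hinvol : ∀ (g : E) (x : W), ρ g⁻¹ (ρ g x) = x := fun g x => by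
    rw [← hmul, inv_mul_cancel, hone]
  obtain ⟨χ, v₀, hv₀, hχ⟩ := tw_common_eigen (fun a : A => ρ (a : E)) (fun a b => by
    show ρ (a : E) * ρ (b : E) = ρ (b : E) * ρ (a : E)
    rw [← map_mul, D.cent a a.2 b (D.le b.2), map_mul])
  have hsm : ∀ {x : W} {a b : K}, x ≠ 0 → a • x = b • x → a = b := fun hx h =>
    smul_left_injective K hx h
  have hχ1 : χ 1 = 1 := by
    refine hsm hv₀ ?_
    rw [← hχ 1, one_smul]
    exact hone v₀
  have hχm : ∀ a b : A, χ (a * b) = χ a * χ b := by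
    intro a b
    refine hsm hv₀ ?_
    rw [← hχ (a * b)]
    show ρ ((a : E) * b) v₀ = (χ a * χ b) • v₀
    rw [hmul, hχ b, map_smul, hχ a, smul_smul, mul_comm]
  let χh : A →* K := { toFun := χ, map_one' := hχ1, map_mul' := hχm }
  have hB : ∀ a : A, (a : E) ∈ χh.ker.map A.subtype ↔ χ a = 1 := by
    intro a
    constructor
    · rintro ⟨b, hb, hab⟩
      have h1 : b = a := Subtype.ext hab
      rw [← h1]
      exact hb
    · intro ha
      exact ⟨a, ha, rfl⟩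
  have hwB : w ∉ χh.ker.map A.subtype := by
    intro h1
    have h2 : χ ⟨w, D.hw⟩ = 1 := (hB ⟨w, D.hw⟩).1 h1
    have h3 : ρ w v₀ = v₀ := by
      have h4 := hχ ⟨w, D.hw⟩
      rw [h2, one_smul] at h4
      exact h4
    have h5 : ∀ i : ℕ, ((ρ w) ^ i) v₀ = v₀ := by
      intro i
      induction i with
      | zero => rw [pow_zero, Module.End.one_apply]
      | succ i ih => rw [pow_succ', Module.End.mul_apply, ih, h3]
    have h6 := congrArg (fun f : Module.End K W => f v₀) hw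
    have h7 : ∑ i ∈ Finset.range r, ((ρ w) ^ i) v₀ = 0 := by
      rw [← LinearMap.sum_apply]
      exact h6
    rw [Finset.sum_congr rfl fun i _ => h5 i, Finset.sum_const, Finset.card_range,
      ← Nat.cast_smul_eq_nsmul K] at h7
    exact (smul_ne_zero hrK hv₀) h7
  obtain ⟨z, hzd⟩ : ∃ z, z = u ^ (r ^ c) := ⟨_, rfl⟩
  have hzQ : z ∈ Q := by rw [hzd]; exact D.hz
  have hzA : z ∉ A := by rw [hzd]; exact D.hzA
  rw [← hzd]
  obtain ⟨y, hy, hay⟩ : ∃ y ∈ Q, z * y * z⁻¹ * y⁻¹ ∉ χh.ker.map A.subtype := by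
    by_contra hcon
    push Not at hcon
    apply hzA
    refine D.hI (χh.ker.map A.subtype) ?_ hwB z hzQ fun j y hy => ?_
    · rintro _ ⟨a, -, rfl⟩
      exact a.2
    · have h1 : u ^ j * z * (u ^ j)⁻¹ = z := by
        rw [hzd, ← pow_add, add_comm, pow_add, mul_inv_cancel_right]
      rw [h1]
      exact hcon y hy
  have haA : z * y * z⁻¹ * y⁻¹ ∈ A := D.comm z hzQ y hy
  obtain ⟨a, had⟩ : ∃ a : A, (a : E) = z * y * z⁻¹ * y⁻¹ := ⟨⟨_, haA⟩, rfl⟩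
  have hζ1 : χ a ≠ 1 := by
    intro h1
    apply hay
    rw [← had]
    exact (hB a).2 h1
  have hζr : χ a ^ r = 1 := by
    have h1 : a ^ r = 1 := Subtype.ext (by
      rw [Subgroup.coe_pow]
      exact D.exp a (D.le a.2))
    have h2 : χh (a ^ r) = χh a ^ r := map_pow χh a r
    rw [h1, map_one] at h2
    exact h2.symm
  -- the weight space
  let X : Submodule K W :=
    { carrier := {x | ∀ b : A, ρ (b : E) x = χ b • x}
      add_mem' := by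
        intro x x' hx hx' b
        rw [map_add, hx b, hx' b, smul_add]
      zero_mem' := by
        intro b
        rw [map_zero, smul_zero]
      smul_mem' := by
        intro t x hx b
        rw [map_smul, hx b, smul_comm] }
  have hXm : ∀ x : W, x ∈ X ↔ ∀ b : A, ρ (b : E) x = χ b • x := fun x => Iff.rfl
  have hXq : ∀ q ∈ Q, ∀ x ∈ X, ρ q x ∈ X := by
    intro q hq x hx
    rw [hXm] at hx ⊢
    intro b
    rw [← hmul, D.cent b b.2 q hq, hmul, hx b, map_smul]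
  have hv₀X : v₀ ∈ X := hχ
  have hXn : Nontrivial X := ⟨⟨⟨v₀, hv₀X⟩, 0, fun h1 => hv₀ (congrArg Subtype.val h1)⟩⟩
  obtain ⟨μ, hμ⟩ := Module.End.exists_eigenvalue ((ρ z).restrict (hXq z hzQ))
  obtain ⟨x, hx⟩ := hμ.exists_hasEigenvector
  have hx0 : (x : W) ≠ 0 := fun h1 => hx.2 (Subtype.ext h1)
  have hxz : ρ z (x : W) = μ • (x : W) := congrArg Subtype.val hx.apply_eq_smul
  have hμr : μ ^ r = 1 := by
    have h1 : ∀ i : ℕ, ρ (z ^ i) (x : W) = μ ^ i • (x : W) := by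
      intro i
      induction i with
      | zero => rw [pow_zero, pow_zero, hone, one_smul]
      | succ i ih => rw [pow_succ', hmul, ih, map_smul, hxz, smul_smul, pow_succ]
    have h2 := h1 r
    rw [D.exp z hzQ, hone] at h2
    refine hsm hx0 ?_
    rw [← h2, one_smul]
  have hμ0 : μ ≠ 0 := by
    intro h1
    rw [h1, zero_pow hr.ne_zero] at hμr
    exact zero_ne_one hμr
  have hxi : ∀ i : ℕ, ρ (y ^ i) (x : W) ∈ X ∧
      ρ z (ρ (y ^ i) (x : W)) = (χ a ^ i * μ) • ρ (y ^ i) (x : W) := by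
    intro i
    induction i with
    | zero =>
      refine ⟨?_, ?_⟩
      · rw [pow_zero, hone]
        exact x.2
      · rw [pow_zero, pow_zero, hone, one_mul, hxz]
    | succ i ih =>
      obtain ⟨h1, h2⟩ := ih
      have h3 : ρ (y ^ (i + 1)) (x : W) = ρ y (ρ (y ^ i) (x : W)) := by rw [pow_succ', hmul]
      have h4 : ρ y (ρ (y ^ i) (x : W)) ∈ X := hXq y hy _ h1
      refine ⟨by rw [h3]; exact h4, ?_⟩
      have h5 : z * y = (a : E) * (y * z) := by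
        rw [had]
        group
      rw [h3, ← hmul, h5, hmul, hmul, h2, map_smul, map_smul, (hXm _).1 h4 a, smul_smul]
      congr 1
      rw [pow_succ]
      ring
  have : Fact r.Prime := ⟨hr⟩
  have : NeZero r := ⟨hr.ne_zero⟩
  have hprim : IsPrimitiveRoot (χ a) r := by
    have h1 := IsPrimitiveRoot.orderOf (χ a)
    rwa [orderOf_eq_prime hζr hζ1] at h1
  obtain ⟨i, -, hi⟩ := hprim.eq_pow_of_pow_eq_one (ξ := μ⁻¹) (by rw [inv_pow, hμr, inv_one])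
  refine ⟨ρ (y ^ i) (x : W), ?_, ?_⟩
  · intro h1
    apply hx0
    rw [← hinvol (y ^ i) (x : W), h1, map_zero]
  · rw [(hxi i).2, hi, inv_mul_cancel₀ hμ0, one_smul]

/-- **`z = u ^ (r ^ c)` has a nonzero fixed vector** (Section 3.3 of paper 275).

Proof. Let `K = AlgebraicClosure (ZMod s)`, `W = K ⊗ V` (nontrivial), `ρ' = β ∘ ρ` with
`β = Module.End.baseChangeHom` (compare `ev_abZ` in EvA.lean). If `ρ z v = v` only for `v = 0`, then
`ρ z - 1` is injective, so invertible (finite), so `ρ' z - 1` is invertible. So it suffices to find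
`v ∈ W`, `v ≠ 0`, `ρ' z v = v`. `A` is commutative (`D.cent`, `D.le`). By `tw_common_eigen`
(TwL3a.lean) for the operators `ρ' a`, `a ∈ A`, there are `χ : A → K` and `v₀ ≠ 0` with
`ρ' a v₀ = χ a • v₀`. Let `X = {x ∈ W | ∀ a ∈ A, ρ' a x = χ a • x}`, a nonzero submodule, invariant under
`ρ' q`, `q ∈ Q` (`D.cent`). `χ` is multiplicative (`v₀ ≠ 0`), `B = {a ∈ A | χ a = 1}` is a subgroup of
`E`, `B ≤ A`. `w ∉ B`: otherwise `ρ' w v₀ = v₀` and `r • v₀ = ∑ i < r, ρ' w ^ i v₀ = 0` (`hw`), but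
`(r : K) ≠ 0`. Apply `D.hI` with `x := z` (`D.hz`): `u ^ j * z * (u ^ j)⁻¹ = z`; if all
`z * y * z⁻¹ * y⁻¹` (`y ∈ Q`) were in `B`, then `z ∈ A`, contradicting `D.hzA`. So there is `y ∈ Q`
with `a = z * y * z⁻¹ * y⁻¹ ∈ A` (`D.comm`), `ζ = χ a ≠ 1`; `ζ ^ r = 1` (`a ^ r = 1` by `D.exp`). Let
`x ∈ X` be an eigenvector of the restriction of `ρ' z` to `X` (`Module.End.exists_eigenvalue`),
`ρ' z x = μ • x`, `μ ^ r = 1` (`z ^ r = 1` by `D.exp`). `z * y = a * y * z`, so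
`ρ' z (ρ' y ^ i x) = (ζ ^ i * μ) • ρ' y ^ i x` (induction on `i`; `ρ' y ^ i x ∈ X`). `ζ` is a primitive
`r`-th root of unity (`r` prime, `ζ ≠ 1`), so `ζ ^ i * μ = 1` for some `i`
(`IsPrimitiveRoot.eq_pow_of_pow_eq_one`). `v = ρ' y ^ i x ≠ 0` (`ρ' y` is invertible). -/
theorem gp_core_z {s r c : ℕ} [Fact s.Prime] (hr : r.Prime) (hsr : s ≠ r) {E : Type} [Group E]
    [Finite E] {Q A : Subgroup E} {u w : E} (D : GpE r c Q A u w) {V : Type} [AddCommGroup V]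
    [Module (ZMod s) V] [Finite V] [Nontrivial V] (ρ : E →* Module.End (ZMod s) V)
    (hw : ∑ i ∈ Finset.range r, (ρ w) ^ i = 0) :
    ∃ v : V, v ≠ 0 ∧ ρ (u ^ (r ^ c)) v = v := by
  by_contra hcon
  push Not at hcon
  have hfin : Module.Finite (ZMod s) V := Module.Finite.of_finite
  have hch : CharP (AlgebraicClosure (ZMod s)) s :=
    charP_of_injective_algebraMap (algebraMap (ZMod s) (AlgebraicClosure (ZMod s))).injective s
  let β := Module.End.baseChangeHom (ZMod s) (AlgebraicClosure (ZMod s)) V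
  have hrK : (r : AlgebraicClosure (ZMod s)) ≠ 0 := by
    intro h0
    rw [CharP.cast_eq_zero_iff (AlgebraicClosure (ZMod s)) s] at h0
    exact hsr ((Nat.prime_dvd_prime_iff_eq Fact.out hr).1 h0)
  have hnt : Nontrivial (TensorProduct (ZMod s) (AlgebraicClosure (ZMod s)) V) := by
    obtain ⟨v, hv⟩ := exists_ne (0 : V)
    refine ⟨⟨(1 : AlgebraicClosure (ZMod s)) ⊗ₜ v, 0, fun h1 => hv ?_⟩⟩
    apply Module.FaithfullyFlat.tensorProduct_mk_injective (A := ZMod s)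
      (B := AlgebraicClosure (ZMod s)) V
    show (1 : AlgebraicClosure (ZMod s)) ⊗ₜ[ZMod s] v = (1 : AlgebraicClosure (ZMod s)) ⊗ₜ[ZMod s] 0
    rw [h1, TensorProduct.tmul_zero]
  obtain ⟨v', hv', hv1⟩ := gpcz_K
    (W := TensorProduct (ZMod s) (AlgebraicClosure (ZMod s)) V) hr hrK D
    ((β : Module.End (ZMod s) V →* Module.End (AlgebraicClosure (ZMod s))
      (TensorProduct (ZMod s) (AlgebraicClosure (ZMod s)) V)).comp ρ) (by
    show ∑ i ∈ Finset.range r, (β (ρ w)) ^ i = 0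
    have h1 : ∑ i ∈ Finset.range r, (β (ρ w)) ^ i = β (∑ i ∈ Finset.range r, (ρ w) ^ i) := by
      rw [map_sum]
      exact Finset.sum_congr rfl fun i _ => (map_pow β (ρ w) i).symm
    rw [h1, hw, map_zero])
  have hv2 : β (ρ (u ^ (r ^ c))) v' = v' := hv1
  have hinj : Function.Injective (ρ (u ^ (r ^ c)) - 1 : Module.End (ZMod s) V) := by
    rw [injective_iff_map_eq_zero]
    intro v hv
    by_contra hv0
    apply hcon v hv0
    rw [LinearMap.sub_apply, Module.End.one_apply, sub_eq_zero] at hv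
    exact hv
  have hun : IsUnit (ρ (u ^ (r ^ c)) - 1) :=
    (Module.End.isUnit_iff _).2 (Finite.injective_iff_bijective.1 hinj)
  have hun' : IsUnit (β (ρ (u ^ (r ^ c)) - 1)) := hun.map β
  have h3 : β (ρ (u ^ (r ^ c)) - 1) v' = 0 := by
    rw [map_sub, map_one, LinearMap.sub_apply, Module.End.one_apply, hv2, sub_self]
  have h4 := ((Module.End.isUnit_iff _).1 hun').1
  exact hv' (h4 (by rw [h3, map_zero]))

end Pool.Agent.Lib.MP_544bd1_al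
end

section

/-!
Theorem G' (paper 275): the linear part of Section 2.
-/

namespace Pool.Agent.Lib.MP_544bd1_al

open Subgroup

/-- partial products of the conjugates `h ^ i * v * (h ^ i)⁻¹` -/
private def gpcaP {E : Type} [Group E] (h v : E) : ℕ → E
  | 0 => 1
  | k + 1 => gpcaP h v k * (h ^ k * v * (h ^ k)⁻¹)

private theorem gpca_pow {E : Type} [Group E] (h v : E) (k : ℕ) :
    (v * h) ^ k = gpcaP h v k * h ^ k := by
  induction k with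
  | zero => simp [gpcaP]
  | succ k ih =>
    rw [pow_succ, ih, gpcaP, pow_succ h k]
    group

private theorem gpca_conj {E : Type} [Group E] {h : E} {V₁ : Subgroup E}
    (hhV : ∀ x ∈ V₁, h * x * h⁻¹ ∈ V₁) {x : E} (hx : x ∈ V₁) (k : ℕ) :
    h ^ k * x * (h ^ k)⁻¹ ∈ V₁ := by
  induction k with
  | zero => simpa using hx
  | succ k ih =>
    have h1 : h ^ (k + 1) * x * (h ^ (k + 1))⁻¹ = h * (h ^ k * x * (h ^ k)⁻¹) * h⁻¹ := by
      rw [pow_succ' h k]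
      group
    rw [h1]
    exact hhV _ ih

private theorem gpca_mem {E : Type} [Group E] {h v : E} {V₁ : Subgroup E}
    (hhV : ∀ x ∈ V₁, h * x * h⁻¹ ∈ V₁) (hv : v ∈ V₁) (k : ℕ) : gpcaP h v k ∈ V₁ := by
  induction k with
  | zero => exact V₁.one_mem
  | succ k ih => exact V₁.mul_mem ih (gpca_conj hhV hv k)

private theorem gpca_add {E A : Type} [Group E] [Monoid A] (ρ : E →* A) {h v : E} {a : ℕ}
    (ha : ∀ b, ρ (h ^ (a + b) * v * (h ^ (a + b))⁻¹) = ρ (h ^ b * v * (h ^ b)⁻¹)) (b : ℕ) :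
    ρ (gpcaP h v (a + b)) = ρ (gpcaP h v a) * ρ (gpcaP h v b) := by
  induction b with
  | zero => simp [gpcaP]
  | succ b ih =>
    rw [← add_assoc, gpcaP, map_mul, ih, ha b, mul_assoc, ← map_mul ρ (gpcaP h v b), gpcaP]

/-- **The linear part of Section 2 of paper 275.** `z = (v * h) ^ (r ^ c)` is the norm of `v`; if it
has no nonzero fixed vector then `h` has one.

Proof. Suppose `h` has no nonzero fixed vector. Then `∑ i < r ^ c, ρ h ^ i = 0` (its values are fixed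
by `ρ h`, as `ρ h ^ (r ^ c) = 1`). `gp_abZ` for `D := V₁` (commutative, an `r`-group as
`x ^ r = 1`, so `s ∤ Nat.card V₁`), `α` = conjugation by `h`, `U = ρ h`, `p := r`, `a := c`:
`ρ (h₁ * x * h₁⁻¹) = ρ x` for `x ∈ V₁`, `h₁ = h ^ (r ^ (c - 1))`. With
`v_i = h ^ i * v * (h ^ i)⁻¹ ∈ V₁`: `(v * h) ^ k = (v_0 * v_1 * ... * v_{k-1}) * h ^ k`, so
`z = v_0 * ... * v_{r ^ c - 1}`, and `ρ v_{i + r ^ (c-1)} = ρ v_i`, so
`ρ z = ρ (v_0 * ... * v_{r ^ (c - 1) - 1}) ^ r = ρ ((v_0 * ...) ^ r) = 1` by `hVr`. So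
`∑ i < r, ρ z ^ i = r • 1 = 0`; `r` is invertible in `ZMod s`, so `V` is trivial, a contradiction. -/
theorem gp_coreA {s r c : ℕ} [Fact s.Prime] (hr : r.Prime) (hc : 0 < c) (hsr : s ≠ r) {E : Type}
    [Group E] [Finite E] {h v : E} (hh : h ^ (r ^ c) = 1) (V₁ : Subgroup E)
    (hV : ∀ x ∈ V₁, ∀ y ∈ V₁, x * y = y * x) (hVr : ∀ x ∈ V₁, x ^ r = 1) (hv : v ∈ V₁)
    (hhV : ∀ x ∈ V₁, h * x * h⁻¹ ∈ V₁) {V : Type} [AddCommGroup V] [Module (ZMod s) V] [Finite V]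
    [Nontrivial V] (ρ : E →* Module.End (ZMod s) V)
    (hz : ∑ i ∈ Finset.range r, (ρ ((v * h) ^ (r ^ c))) ^ i = 0) :
    ∃ x : V, x ≠ 0 ∧ ρ h x = x := by
  by_contra hcon
  push Not at hcon
  have hfix : ∀ x : V, ρ h x = x → x = 0 := by
    intro x hx
    by_contra h0
    exact hcon x h0 hx
  have hq : (ρ h) ^ (r ^ c) = 1 := by rw [← map_pow, hh, map_one]
  have hN : ∑ i ∈ Finset.range (r ^ c), (ρ h) ^ i = 0 := by
    ext w
    rw [LinearMap.zero_apply]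
    apply hfix
    have h1 := mul_geom_sum (ρ h) (r ^ c)
    rw [hq, sub_self, sub_mul, one_mul, sub_eq_zero] at h1
    exact congrArg (fun f : Module.End (ZMod s) V => f w) h1
  -- conjugation by `h`
  let α : V₁ →* V₁ :=
    { toFun := fun x => ⟨h * x * h⁻¹, hhV x x.2⟩
      map_one' := by
        apply Subtype.ext
        simp
      map_mul' := by
        intro x y
        apply Subtype.ext
        simp }
  have hα : ∀ x : V₁, (α x : E) = h * x * h⁻¹ := fun x => rfl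
  have hαi : ∀ (k : ℕ) (x : V₁), ((α^[k] x : V₁) : E) = h ^ k * x * (h ^ k)⁻¹ := by
    intro k
    induction k with
    | zero => intro x; simp
    | succ k ih =>
      intro x
      rw [Function.iterate_succ_apply', hα, ih, pow_succ' h k]
      group
  have hL : LDat (r ^ c) α (ρ.comp V₁.subtype) (ρ h) := by
    refine ⟨?_, hq, hN⟩
    intro x
    rw [MonoidHom.comp_apply, MonoidHom.comp_apply, ← map_mul, ← map_mul]
    congr 1
    change h * (x : E) = (α x : E) * h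
    rw [hα]
    group
  have hD : ¬ s ∣ Nat.card V₁ := by
    intro hd
    obtain ⟨x, hx⟩ := exists_prime_orderOf_dvd_card' s hd
    have h1 : x ^ r = 1 := by
      apply Subtype.ext
      rw [Subgroup.coe_pow, hVr x x.2, Subgroup.coe_one]
    have h2 := orderOf_dvd_of_pow_eq_one h1
    rw [hx] at h2
    exact hsr ((Nat.prime_dvd_prime_iff_eq (Fact.out : s.Prime) hr).1 h2)
  have hab : ∀ x y, (ρ.comp V₁.subtype) x * (ρ.comp V₁.subtype) y =
      (ρ.comp V₁.subtype) y * (ρ.comp V₁.subtype) x := by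
    intro x y
    rw [← map_mul, ← map_mul]
    congr 1
    exact Subtype.ext (hV x x.2 y y.2)
  have hkey : ∀ x ∈ V₁, ρ (h ^ (r ^ (c - 1)) * x * (h ^ (r ^ (c - 1)))⁻¹) = ρ x := by
    intro x hx
    have h1 := gp_abZ hr hc hD hab hL ⟨x, hx⟩
    change ρ ((α^[r ^ (c - 1)] ⟨x, hx⟩ : V₁) : E) = ρ x at h1
    rw [hαi] at h1
    exact h1
  have hper : ∀ m b, ρ (h ^ (r ^ (c - 1) * m + b) * v * (h ^ (r ^ (c - 1) * m + b))⁻¹) =
      ρ (h ^ b * v * (h ^ b)⁻¹) := by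
    intro m
    induction m with
    | zero => intro b; rw [mul_zero, zero_add]
    | succ m ih =>
      intro b
      rw [← ih b]
      have h1 : h ^ (r ^ (c - 1) * (m + 1) + b) * v * (h ^ (r ^ (c - 1) * (m + 1) + b))⁻¹ =
          h ^ (r ^ (c - 1)) * (h ^ (r ^ (c - 1) * m + b) * v * (h ^ (r ^ (c - 1) * m + b))⁻¹) *
            (h ^ (r ^ (c - 1)))⁻¹ := by
        have h2 : h ^ (r ^ (c - 1) * (m + 1) + b) =
            h ^ (r ^ (c - 1)) * h ^ (r ^ (c - 1) * m + b) := by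
          rw [← pow_add]
          congr 1
          ring
        rw [h2]
        group
      rw [h1]
      exact hkey _ (gpca_conj hhV hv _)
  have hP : ∀ m, ρ (gpcaP h v (r ^ (c - 1) * m)) = ρ (gpcaP h v (r ^ (c - 1))) ^ m := by
    intro m
    induction m with
    | zero => simp [gpcaP]
    | succ m ih =>
      rw [mul_add, mul_one, gpca_add ρ (hper m), ih, pow_succ]
  have hz1 : ρ ((v * h) ^ (r ^ c)) = 1 := by
    have h1 : r ^ c = r ^ (c - 1) * r := by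
      rw [← pow_succ]
      congr 1
      omega
    rw [gpca_pow, hh, mul_one]
    conv_lhs => rw [h1]
    rw [hP, ← map_pow, hVr _ (gpca_mem hhV hv _), map_one]
  rw [hz1] at hz
  simp only [one_pow, Finset.sum_const, Finset.card_range] at hz
  obtain ⟨x, hx⟩ := exists_ne (0 : V)
  have h2 : r • x = 0 := by
    have h3 := congrArg (fun f : Module.End (ZMod s) V => f x) hz
    simpa using h3
  have h4 : ((r : ℕ) : ZMod s) • x = 0 := by
    rw [Nat.cast_smul_eq_nsmul]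
    exact h2
  rcases smul_eq_zero.1 h4 with h5 | h5
  · rw [ZMod.natCast_eq_zero_iff] at h5
    exact hsr ((Nat.prime_dvd_prime_iff_eq (Fact.out : s.Prime) hr).1 h5)
  · exact hx h5

end Pool.Agent.Lib.MP_544bd1_al
end

section

/-!
Theorem G' (paper 275): case (T).
-/

namespace Pool.Agent.Lib.MP_544bd1_al

open Subgroup

variable {M r b c : ℕ} {F : Type} [Group F] [Finite F]

/-- **Case (T) of Section 2 of paper 275.**

Proof. `g` from `gp_g0`, `X = closure {h, g⁻¹ * h * g}`. The image of `X` under `gp` is `⊤`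
(`gp_cover`). If `X ≠ ⊤`, then `gp_OX` gives `S` with `GpS M (r ^ b) h S`. -/
theorem gp_T (D : GpMin M r b c F) {h : F} (hB : GpB M r b c h)
    (hno : ¬ ∃ S : Subgroup F, GpS M (r ^ b) h S) :
    ∃ k : F, closure {h, k⁻¹ * h * k} = ⊤ := by
  obtain ⟨g, _, hg, hne⟩ := gp_g0 D hB
  refine ⟨g, ?_⟩
  by_contra hX
  have hh : h ∈ closure {h, g⁻¹ * h * g} := subset_closure (Or.inl rfl)
  have hh' : g⁻¹ * h * g ∈ closure {h, g⁻¹ * h * g} := subset_closure (Or.inr rfl)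
  have htop := gp_cover D hB hg hne ((closure {h, g⁻¹ * h * g}).map (gp M (r ^ b) F))
    (mem_map_of_mem _ hh) (mem_map_of_mem _ hh')
  have hcov : ∀ x : F, ∃ y ∈ closure {h, g⁻¹ * h * g}, gp M (r ^ b) F y = gp M (r ^ b) F x := by
    intro x
    have h1 : gp M (r ^ b) F x ∈ (closure {h, g⁻¹ * h * g}).map (gp M (r ^ b) F) := by
      rw [htop]; exact mem_top _
    exact h1
  obtain ⟨S, _, hSM, hSn, hSc⟩ := gp_OX D hB _ hX hh hcov
  exact hno ⟨S, hSM, fun x hx => hSn h hh x hx, hSc⟩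

end Pool.Agent.Lib.MP_544bd1_al
end
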