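import Mathlib
import Pool.Agent.Lib.MP_544bd1_al.TwS3
import Pool.Agent.Lib.MP_544bd1_al.TwR4
import Pool.Agent.Lib.MP_544bd1_al.TwLZ

section

/-!
Theorem G' (paper 275): case (U2): counting.
-/

namespace Pool.Agent.Lib.MP_544bd1_al

open Subgroup

open Finset in
/-- the counting in an abelian group `Q` with the endomorphism `σ` (conjugation by `h`) -/
private theorem gp_count_aux {Q : Type} [CommGroup Q] [Finite Q] {r n : ℕ} (hr : r.Prime)
    (hr2 : r ≠ 2) (hrn : r ∣ n) (hexp : ∀ x : Q, x ^ r = 1) (σ : Monoid.End Q)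
    (hσn : ∀ x : Q, (σ ^ n) x = x)
    (hker : ∀ q : Q, ∏ i ∈ range n, (σ ^ i) q = 1 → ∃ v : Q, q = v * (σ v)⁻¹)
    (hne : ∃ v : Q, ∏ i ∈ range n, (σ ^ i) v ≠ 1) (C : Subgroup Q) (hC : ∀ x, x ∈ C ↔ σ x = x) :
    Nat.card C * Nat.card C < Nat.card Q := by
  let δ : Q →* Q := MonoidHom.mk' (fun v => v * (σ v)⁻¹) (by
    intro a b
    rw [map_mul, mul_inv]
    exact mul_mul_mul_comm a b (σ a)⁻¹ (σ b)⁻¹)
  let ν : Q →* Q := MonoidHom.mk' (fun q => ∏ i ∈ range n, (σ ^ i) q) (by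
    intro a b
    rw [← Finset.prod_mul_distrib]
    refine Finset.prod_congr rfl fun i _ => ?_
    rw [map_mul])
  have hδ : ∀ v, δ v = v * (σ v)⁻¹ := fun v => rfl
  have hν : ∀ v, ν v = ∏ i ∈ range n, (σ ^ i) v := fun v => rfl
  have hexpn : ∀ x : Q, x ^ n = 1 := by
    intro x
    obtain ⟨q, rfl⟩ := hrn
    rw [pow_mul, hexp, one_pow]
  have hσs : ∀ (i : ℕ) (x : Q), (σ ^ (i + 1)) x = σ ((σ ^ i) x) := by
    intro i x
    rw [pow_succ']
    rfl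
  have hσ0 : ∀ x : Q, (σ ^ 0) x = x := by
    intro x
    rw [pow_zero]
    rfl
  -- `σ` fixes norms
  have hσν : ∀ q, σ (ν q) = ν q := by
    intro q
    rw [hν, map_prod]
    have h1 : ∏ i ∈ range (n + 1), (σ ^ i) q = (∏ i ∈ range n, (σ ^ (i + 1)) q) * q := by
      rw [Finset.prod_range_succ', hσ0]
    rw [Finset.prod_range_succ, hσn] at h1
    have h2 := mul_right_cancel h1
    rw [h2]
    refine Finset.prod_congr rfl fun i _ => ?_
    rw [hσs]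
  have hνσ : ∀ q, ν (σ q) = ν q := by
    intro q
    rw [← hσν q, hν, hν, map_prod]
    refine Finset.prod_congr rfl fun i _ => ?_
    rw [← hσs, pow_succ]
    rfl
  have hνδ : ∀ v, ν (δ v) = 1 := by
    intro v
    rw [hδ, map_mul, map_inv, hνσ, mul_inv_cancel]
  have hkr : ν.ker = δ.range := by
    apply le_antisymm
    · intro q hq
      obtain ⟨v, hv⟩ := hker q hq
      exact ⟨v, hv.symm⟩
    · rintro _ ⟨v, rfl⟩
      exact hνδ v
  have hCk : C = δ.ker := by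
    ext x
    rw [hC, MonoidHom.mem_ker, hδ, mul_inv_eq_one]
    exact eq_comm
  have hcard : ∀ f : Q →* Q, Nat.card f.range * Nat.card f.ker = Nat.card Q := by
    intro f
    have h1 := Subgroup.card_eq_card_quotient_mul_card_subgroup f.ker
    rw [h1, Nat.card_congr (QuotientGroup.quotientKerEquivRange f).toEquiv]
  have hc1 : Nat.card ν.range = Nat.card δ.ker := by
    have h1 := hcard ν
    have h2 := hcard δ
    rw [hkr] at h1
    have h3 : 0 < Nat.card δ.range := Nat.card_pos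
    have h4 : Nat.card ν.range * Nat.card δ.range = Nat.card δ.ker * Nat.card δ.range := by
      rw [h1, ← h2, mul_comm]
    exact Nat.eq_of_mul_eq_mul_right h3 h4
  have hle : ν.range ≤ δ.ker := by
    rintro _ ⟨q, rfl⟩
    rw [MonoidHom.mem_ker, hδ, hσν, mul_inv_cancel]
  have heq : ν.range = δ.ker :=
    Subgroup.eq_of_le_of_card_ge hle hc1.ge
  -- norms are in the range of `δ`
  have hmod : ∀ (q : Q) (i : ℕ), (σ ^ i) q * q⁻¹ ∈ δ.range := by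
    intro q i
    induction i with
    | zero =>
      rw [hσ0, mul_inv_cancel]
      exact δ.range.one_mem
    | succ i ih =>
      rw [hσs]
      have h1 : δ ((σ ^ i) q) ∈ δ.range := ⟨_, rfl⟩
      have h2 := δ.range.mul_mem (δ.range.inv_mem h1) ih
      rw [hδ] at h2
      have h3 : ((σ ^ i) q * (σ ((σ ^ i) q))⁻¹)⁻¹ * ((σ ^ i) q * q⁻¹) =
          σ ((σ ^ i) q) * q⁻¹ := by
        rw [mul_inv, inv_inv]
        rw [mul_comm ((σ ^ i) q)⁻¹, mul_assoc, inv_mul_cancel_left]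
      rwa [h3] at h2
  have hνr : ν.range ≤ δ.range := by
    rintro _ ⟨q, rfl⟩
    have h1 : ν q = (∏ i ∈ range n, ((σ ^ i) q * q⁻¹)) := by
      rw [Finset.prod_mul_distrib, Finset.prod_const, Finset.card_range, hexpn, mul_one, hν]
    rw [h1]
    exact δ.range.prod_mem fun i _ => hmod q i
  have hCr : δ.ker ≤ δ.range := heq ▸ hνr
  have hstrict : Nat.card δ.ker < Nat.card δ.range := by
    by_contra hcon
    push Not at hcon
    have hKR : δ.ker = δ.range := Subgroup.eq_of_le_of_card_ge hCr hcon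
    obtain ⟨v, hv⟩ := hne
    apply hv
    set e : Q := σ v * v⁻¹ with he
    have heK : e ∈ δ.ker := by
      rw [hKR]
      have h1 := hmod v 1
      rwa [pow_one] at h1
    have hσe : σ e = e := by
      rw [MonoidHom.mem_ker, hδ, mul_inv_eq_one] at heK
      exact heK.symm
    have hσi : ∀ i : ℕ, (σ ^ i) v = v * e ^ i := by
      intro i
      induction i with
      | zero => rw [hσ0, pow_zero, mul_one]
      | succ i ih =>
        rw [hσs, ih, map_mul, map_pow, hσe, pow_succ]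
        have h1 : σ v = v * e := by rw [he, mul_comm (σ v), mul_inv_cancel_left]
        rw [h1, mul_assoc, mul_comm e]
    have h1 : ∏ i ∈ range n, (σ ^ i) v = v ^ n * e ^ (∑ i ∈ range n, i) := by
      rw [Finset.prod_congr rfl fun i _ => hσi i, Finset.prod_mul_distrib, Finset.prod_const,
        Finset.card_range, Finset.prod_pow_eq_pow_sum]
    rw [h1, hexpn, one_mul]
    have h2 : r ∣ ∑ i ∈ range n, i := by
      have h3 : (∑ i ∈ range n, i) * 2 = n * (n - 1) := Finset.sum_range_id_mul_two n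
      have h4 : r ∣ (∑ i ∈ range n, i) * 2 := by
        rw [h3]
        exact hrn.mul_right _
      rcases (Nat.Prime.dvd_mul hr).1 h4 with h5 | h5
      · exact h5
      · exact absurd ((Nat.prime_dvd_prime_iff_eq hr Nat.prime_two).1 h5) hr2
    obtain ⟨q, hq⟩ := h2
    rw [hq, pow_mul, hexp, one_pow]
  rw [hCk]
  calc Nat.card δ.ker * Nat.card δ.ker < Nat.card δ.range * Nat.card δ.ker :=
        Nat.mul_lt_mul_of_pos_right hstrict Nat.card_pos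
    _ = Nat.card Q := hcard δ

/-- **Counting in case (U2) of paper 275.** `Q` a finite abelian group of exponent `r`, normalized by
`h`; every `q` of norm 1 is `v * h * v⁻¹ * h⁻¹`; some norm is nontrivial. Then
`|C_Q(h)|² < |Q|`.

Proof. `δ : Q → Q`, `δ v = v * h * v⁻¹ * h⁻¹ = v * (h * v * h⁻¹)⁻¹`, a homomorphism with kernel
`C = C_Q(h)`; `ν : Q → Q`, `ν q = (q * h) ^ (r ^ c) = ∏ i < r ^ c, h ^ i * q * h ^ (-i)`
(`h ^ (r ^ c) = 1`), a homomorphism with `ν (δ v) = 1`. By `hker` the kernel of `ν` is the range of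
`δ`, so `|ν Q| = |Q| / |δ Q| = |C|`; `ν Q ≤ C` (`h` fixes norms), so `ν Q = C`. Modulo `δ Q`:
`h ^ i * q * h ^ (-i) ≡ q`, so `ν q ≡ q ^ (r ^ c) = 1` (`0 < c`): `C = ν Q ≤ δ Q`. If `C = δ Q` then for
every `q`: `e = h * q * h⁻¹ * q⁻¹ ∈ δ Q = C`, `h ^ i * q * h ^ (-i) = q * e ^ i`, so
`ν q = q ^ (r ^ c) * e ^ (r ^ c (r ^ c - 1) / 2) = 1` (`r` odd), contradicting `hne`. So
`|C| < |δ Q| = |Q| / |C|`. -/
theorem gp_count {r c : ℕ} (hr : r.Prime) (hr2 : r ≠ 2) (hc : 0 < c) {F : Type} [Group F]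
    [Finite F] {Q : Subgroup F} (hab : ∀ x ∈ Q, ∀ y ∈ Q, x * y = y * x)
    (hexp : ∀ x ∈ Q, x ^ r = 1) {h : F} (hh : h ^ (r ^ c) = 1) (hhQ : ∀ x ∈ Q, h * x * h⁻¹ ∈ Q)
    (hker : ∀ q ∈ Q, (q * h) ^ (r ^ c) = 1 → ∃ v ∈ Q, q = v * h * v⁻¹ * h⁻¹)
    (hne : ∃ v ∈ Q, (v * h) ^ (r ^ c) ≠ 1) :
    Nat.card (Q ⊓ centralizer {h} : Subgroup F) * Nat.card (Q ⊓ centralizer {h} : Subgroup F) <
      Nat.card Q := by
  let hcg : CommGroup Q :=
    { (inferInstance : Group Q) with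
      mul_comm := fun x y => Subtype.ext (hab x x.2 y y.2) }
  let σ : Monoid.End Q := MonoidHom.mk' (fun x : Q => (⟨h * x * h⁻¹, hhQ x x.2⟩ : Q)) (by
    intro a b
    apply Subtype.ext
    change h * ((a : F) * b) * h⁻¹ = (h * a * h⁻¹) * (h * b * h⁻¹)
    group)
  have hσ : ∀ x : Q, ((σ x : Q) : F) = h * x * h⁻¹ := fun x => rfl
  have hσi : ∀ (i : ℕ) (x : Q), (((σ ^ i) x : Q) : F) = h ^ i * x * (h ^ i)⁻¹ := by
    intro i
    induction i with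
    | zero => intro x; simp
    | succ i ih =>
      intro x
      have h1 : (σ ^ (i + 1)) x = (σ ^ i) (σ x) := by
        rw [pow_succ]
        rfl
      rw [h1, ih, hσ, pow_succ]
      group
  have hnorm : ∀ (q : Q) (n : ℕ), ((q : F) * h) ^ n =
      ((∏ i ∈ Finset.range n, (σ ^ i) q : Q) : F) * h ^ n := by
    intro q n
    induction n with
    | zero => simp
    | succ n ih =>
      rw [pow_succ, ih, Finset.prod_range_succ]
      have h1 : (((∏ i ∈ Finset.range n, (σ ^ i) q) * (σ ^ n) q : Q) : F) =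
          ((∏ i ∈ Finset.range n, (σ ^ i) q : Q) : F) * (((σ ^ n) q : Q) : F) := rfl
      rw [h1, hσi, pow_succ]
      group
  have hnorm1 : ∀ q : Q, ((q : F) * h) ^ (r ^ c) = 1 ↔
      ∏ i ∈ Finset.range (r ^ c), (σ ^ i) q = 1 := by
    intro q
    rw [hnorm, hh, mul_one]
    constructor
    · intro h1
      exact Subtype.ext h1
    · intro h1
      rw [h1]
      rfl
  have key := gp_count_aux (Q := Q) (r := r) (n := r ^ c) hr hr2 (dvd_pow_self r hc.ne')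
    (fun x => Subtype.ext (hexp x x.2)) σ
    (by
      intro x
      apply Subtype.ext
      rw [hσi, hh]
      simp)
    (by
      intro q hq
      obtain ⟨v, hv, hv'⟩ := hker q q.2 ((hnorm1 q).2 hq)
      refine ⟨⟨v, hv⟩, Subtype.ext ?_⟩
      rw [hv']
      change v * h * v⁻¹ * h⁻¹ = v * (h * v * h⁻¹)⁻¹
      group)
    (by
      obtain ⟨v, hv, hv'⟩ := hne
      exact ⟨⟨v, hv⟩, fun h1 => hv' ((hnorm1 ⟨v, hv⟩).2 h1)⟩)
    ((Q ⊓ centralizer {h} : Subgroup F).subgroupOf Q)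
    (by
      intro x
      rw [Subgroup.mem_subgroupOf, Subgroup.mem_inf, Subgroup.mem_centralizer_singleton_iff]
      constructor
      · rintro ⟨_, h1⟩
        apply Subtype.ext
        rw [hσ, ← h1, mul_inv_cancel_right]
      · intro h1
        refine ⟨x.2, ?_⟩
        have h2 := congrArg (fun y : Q => (y : F)) h1
        change h * x * h⁻¹ = x at h2
        exact (mul_inv_eq_iff_eq_mul.1 h2).symm)
  have hcard : Nat.card ((Q ⊓ centralizer {h} : Subgroup F).subgroupOf Q) =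
      Nat.card (Q ⊓ centralizer {h} : Subgroup F) :=
    Nat.card_congr (Subgroup.subgroupOfEquivOfLe inf_le_left).toEquiv
  rw [← hcard]
  exact key

end Pool.Agent.Lib.MP_544bd1_al
end

section

/-!
Theorem G' (paper 275): a maximal subgroup, abelian modulo B.
-/

namespace Pool.Agent.Lib.MP_544bd1_al

open Subgroup

/-- the elements of `Qz` commuting with `y` modulo `B` -/
private def gpMaxK {E : Type} [Group E] (Qz A B : Subgroup E)
    (hBA : B ≤ A) (hAQ : A ≤ Qz)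
    (hcent : ∀ a ∈ A, ∀ x ∈ Qz, a * x = x * a)
    (hcomm : ∀ x ∈ Qz, ∀ y ∈ Qz, x * y * x⁻¹ * y⁻¹ ∈ A) (y : E) (hy : y ∈ Qz) : Subgroup E where
  carrier := {x | x ∈ Qz ∧ x * y * x⁻¹ * y⁻¹ ∈ B}
  one_mem' := ⟨Qz.one_mem, by simp⟩
  mul_mem' := by
    rintro a b ⟨ha, ha'⟩ ⟨hb, hb'⟩
    refine ⟨Qz.mul_mem ha hb, ?_⟩
    have h1 : (b * y * b⁻¹ * y⁻¹) * a = a * (b * y * b⁻¹ * y⁻¹) := hcent _ (hcomm b hb y hy) a ha
    have h2 : a * b * y * (a * b)⁻¹ * y⁻¹ = (b * y * b⁻¹ * y⁻¹) * (a * y * a⁻¹ * y⁻¹) := by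
      calc a * b * y * (a * b)⁻¹ * y⁻¹ = (a * (b * y * b⁻¹ * y⁻¹)) * y * a⁻¹ * y⁻¹ := by group
        _ = ((b * y * b⁻¹ * y⁻¹) * a) * y * a⁻¹ * y⁻¹ := by rw [h1]
        _ = _ := by group
    rw [h2]
    exact B.mul_mem hb' ha'
  inv_mem' := by
    rintro a ⟨ha, ha'⟩
    refine ⟨Qz.inv_mem ha, ?_⟩
    have h1 : (a * y * a⁻¹ * y⁻¹)⁻¹ * a = a * (a * y * a⁻¹ * y⁻¹)⁻¹ :=
      hcent _ (A.inv_mem (hcomm a ha y hy)) a ha
    have h2 : a⁻¹ * y * a⁻¹⁻¹ * y⁻¹ = (a * y * a⁻¹ * y⁻¹)⁻¹ := by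
      calc a⁻¹ * y * a⁻¹⁻¹ * y⁻¹ = a⁻¹ * ((a * y * a⁻¹ * y⁻¹)⁻¹ * a) := by group
        _ = a⁻¹ * (a * (a * y * a⁻¹ * y⁻¹)⁻¹) := by rw [h1]
        _ = _ := by group
    rw [h2]
    exact B.inv_mem ha'

/-- **Maximal `u`-invariant subgroups which are abelian modulo `B`** ((d) in Section 3.3 of paper 275).

Proof. Notation `[x, y] = x * y * x⁻¹ * y⁻¹`. For `x, y, y' ∈ Qz` the elements `[x, y] ∈ A` are central
in `Qz`, so `[x, y * y'] = [x, y] * [x, y']`, `[x * x', y] = [x, y] * [x', y]`, `[x⁻¹, y] = [x, y]⁻¹`.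
Among the subgroups `D` with `A ≤ D ≤ Qz`, `u`-invariant, and `[x, y] ∈ B` for `x, y ∈ D` (`D = A` is
one: `[x, y] = 1`), take one with `Nat.card D` maximal. Let
`C = {x ∈ Qz | ∀ y ∈ D, [x, y] ∈ B}`: a subgroup (`B ≤ A` central), `D ≤ C`, `u`-invariant
(`[u x u⁻¹, y] = u [x, u⁻¹ y u] u⁻¹`, `u⁻¹ y u ∈ D` as `E` is finite). `D` is normal in `C`
(`c * d * c⁻¹ = [c, d] * d`, `A ≤ D`). Suppose `C ≠ D`. The `r`-group `zpowers u` acts by conjugation
on the set of cosets `x D`, `x ∈ C`, whose number `D.relIndex C` is a power of `r` and `≠ 1`, so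
divisible by `r`; the coset `D` is fixed, so (`IsPGroup.card_modEq_card_fixedPoints`) there is another
fixed coset: `x ∈ C`, `x ∉ D`, `u * x * u⁻¹ ∈ x D`. Then `D' = {x ^ i * d | i ∈ ℤ, d ∈ D}` is a subgroup
with the four properties (`[x ^ i * d, x ^ j * d']` is a product of elements `[x, d]^±j ∈ B` and
`[d, d'] ∈ B`), and larger than `D`: contradiction. -/
theorem gp_max {r : ℕ} (hr : r.Prime) {E : Type} [Group E] [Finite E] (hE : IsPGroup r E)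
    {Qz A B : Subgroup E} {u : E} (hAQ : A ≤ Qz) (hBA : B ≤ A)
    (hcent : ∀ a ∈ A, ∀ x ∈ Qz, a * x = x * a)
    (hcomm : ∀ x ∈ Qz, ∀ y ∈ Qz, x * y * x⁻¹ * y⁻¹ ∈ A) (huQ : ∀ x ∈ Qz, u * x * u⁻¹ ∈ Qz)
    (huA : ∀ x ∈ A, u * x * u⁻¹ ∈ A) (huB : ∀ x ∈ B, u * x * u⁻¹ ∈ B) :
    ∃ D : Subgroup E, A ≤ D ∧ D ≤ Qz ∧ (∀ x ∈ D, u * x * u⁻¹ ∈ D) ∧
      (∀ x ∈ D, ∀ y ∈ D, x * y * x⁻¹ * y⁻¹ ∈ B) ∧
      ∀ x ∈ Qz, (∀ y ∈ D, x * y * x⁻¹ * y⁻¹ ∈ B) → x ∈ D := by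
  classical
  let K := gpMaxK Qz A B hBA hAQ hcent hcomm
  have hK : ∀ y (hy : y ∈ Qz) x, x ∈ K y hy ↔ x ∈ Qz ∧ x * y * x⁻¹ * y⁻¹ ∈ B :=
    fun y hy x => Iff.rfl
  have hsym : ∀ x y : E, x * y * x⁻¹ * y⁻¹ ∈ B → y * x * y⁻¹ * x⁻¹ ∈ B := by
    intro x y h
    have := B.inv_mem h
    have e : (x * y * x⁻¹ * y⁻¹)⁻¹ = y * x * y⁻¹ * x⁻¹ := by group
    rwa [e] at this
  let S : Set (Subgroup E) := {D | A ≤ D ∧ D ≤ Qz ∧ (∀ x ∈ D, u * x * u⁻¹ ∈ D) ∧
      (∀ x ∈ D, ∀ y ∈ D, x * y * x⁻¹ * y⁻¹ ∈ B)}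
  have hAS : A ∈ S := by
    refine ⟨le_rfl, hAQ, huA, ?_⟩
    intro x hx y hy
    have : x * y * x⁻¹ * y⁻¹ = 1 := by
      rw [hcent x hx y (hAQ hy)]; group
    rw [this]; exact B.one_mem
  obtain ⟨D, hDmax⟩ := (Set.toFinite S).exists_maximal ⟨A, hAS⟩
  obtain ⟨hD1, hD2, hD3, hD4⟩ : D ∈ S := hDmax.prop
  refine ⟨D, hD1, hD2, hD3, hD4, ?_⟩
  by_contra hcon
  push Not at hcon
  obtain ⟨x0, hx0Q, hx0B, hx0D⟩ := hcon
  -- u⁻¹ D u ⊆ D
  have hpow : ∀ n : ℕ, ∀ y ∈ D, u ^ n * y * (u ^ n)⁻¹ ∈ D := by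
    intro n
    induction n with
    | zero => intro y hy; simpa using hy
    | succ n ih =>
      intro y hy
      have h := hD3 _ (ih y hy)
      have e : u ^ (n + 1) * y * (u ^ (n + 1))⁻¹ = u * (u ^ n * y * (u ^ n)⁻¹) * u⁻¹ := by
        rw [pow_succ']; group
      rw [e]; exact h
  have hinv : ∀ y ∈ D, u⁻¹ * y * u ∈ D := by
    intro y hy
    have hu : u ^ (orderOf u - 1) = u⁻¹ := by
      have hpos : 0 < orderOf u := orderOf_pos u
      rw [eq_inv_iff_mul_eq_one, ← pow_succ, Nat.sub_add_cancel hpos, pow_orderOf_eq_one]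
    have h := hpow (orderOf u - 1) y hy
    rw [hu] at h
    simpa using h
  -- C is u-invariant
  have hCu : ∀ x, (x ∈ Qz ∧ ∀ y ∈ D, x * y * x⁻¹ * y⁻¹ ∈ B) →
      (u * x * u⁻¹ ∈ Qz ∧ ∀ y ∈ D, (u * x * u⁻¹) * y * (u * x * u⁻¹)⁻¹ * y⁻¹ ∈ B) := by
    rintro x ⟨hx, hxB⟩
    refine ⟨huQ x hx, fun y hy => ?_⟩
    have h := huB _ (hxB _ (hinv y hy))
    have e : (u * x * u⁻¹) * y * (u * x * u⁻¹)⁻¹ * y⁻¹ =
        u * (x * (u⁻¹ * y * u) * x⁻¹ * (u⁻¹ * y * u)⁻¹) * u⁻¹ := by group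
    rw [e]; exact h
  let f : E → E := fun x => u * x * u⁻¹ * x⁻¹
  have hf : ∀ n, (f^[n] x0 ∈ Qz ∧ ∀ y ∈ D, (f^[n] x0) * y * (f^[n] x0)⁻¹ * y⁻¹ ∈ B) := by
    intro n
    induction n with
    | zero => exact ⟨hx0Q, hx0B⟩
    | succ n ih =>
      rw [Function.iterate_succ_apply']
      have h1 := hCu _ ih
      refine ⟨Qz.mul_mem h1.1 (Qz.inv_mem ih.1), fun y hy => ?_⟩
      have h2 : u * (f^[n] x0) * u⁻¹ ∈ K y (hD2 hy) := (hK _ _ _).2 ⟨h1.1, h1.2 y hy⟩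
      have h3 : f^[n] x0 ∈ K y (hD2 hy) := (hK _ _ _).2 ⟨ih.1, ih.2 y hy⟩
      exact ((hK _ _ _).1 ((K y (hD2 hy)).mul_mem h2 ((K y (hD2 hy)).inv_mem h3))).2
  haveI : Fact r.Prime := ⟨hr⟩
  haveI hnil : Group.IsNilpotent E := hE.isNilpotent
  have hlcs : ∀ n, f^[n] x0 ∈ (⊤ : Subgroup E).lowerCentralSeries n := by
    intro n
    induction n with
    | zero => simp
    | succ n ih =>
      rw [Function.iterate_succ_apply']
      have h := Subgroup.commutator_mem_commutator ih (Subgroup.mem_top u)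
      have h' := (Subgroup.inv_mem _ h)
      rw [commutatorElement_inv] at h'
      exact h'
  obtain ⟨N, hN⟩ := (Subgroup.nilpotent_iff_lowerCentralSeries).1 hnil
  have hex : ∃ n, f^[n] x0 ∈ D := ⟨N, by
    have h := hlcs N
    rw [hN, Subgroup.mem_bot] at h
    rw [h]; exact D.one_mem⟩
  obtain ⟨n, hn⟩ : ∃ n, Nat.find hex = n + 1 := by
    refine Nat.exists_eq_succ_of_ne_zero ?_
    intro h0
    have := Nat.find_spec hex
    rw [h0] at this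
    exact hx0D this
  have hn1 : f^[n + 1] x0 ∈ D := by
    have := Nat.find_spec hex
    rwa [hn] at this
  have hn0 : f^[n] x0 ∉ D := Nat.find_min hex (by omega)
  obtain ⟨hxQ, hxB⟩ := hf n
  rw [Function.iterate_succ_apply'] at hn1
  generalize hxdef : f^[n] x0 = x at hxQ hxB hn1 hn0
  -- the larger subgroup
  let T : Set E := (D : Set E) ∪ {x}
  have hTQ : T ⊆ (Qz : Set E) := by
    rintro t (ht | ht)
    · exact hD2 ht
    · rw [Set.mem_singleton_iff] at ht; rw [ht]; exact hxQ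
  have hTB : ∀ a ∈ T, ∀ b ∈ T, a * b * a⁻¹ * b⁻¹ ∈ B := by
    rintro a (ha | ha) b (hb | hb)
    · exact hD4 a ha b hb
    · rw [Set.mem_singleton_iff] at hb
      rw [hb]; exact hsym _ _ (hxB a ha)
    · rw [Set.mem_singleton_iff] at ha
      rw [ha]; exact hxB b hb
    · rw [Set.mem_singleton_iff] at ha hb
      rw [ha, hb]
      have : x * x * x⁻¹ * x⁻¹ = 1 := by group
      rw [this]; exact B.one_mem
  let D' : Subgroup E := closure T
  have hTD' : T ⊆ (D' : Set E) := subset_closure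
  have hD'Q : D' ≤ Qz := (closure_le Qz).2 hTQ
  have h1 : ∀ a ∈ D', ∀ b ∈ T, a * b * a⁻¹ * b⁻¹ ∈ B := by
    intro a ha b hb
    have : D' ≤ K b (hTQ hb) := (closure_le _).2 (fun t ht => (hK _ _ _).2 ⟨hTQ ht, hTB t ht b hb⟩)
    exact ((hK _ _ _).1 (this ha)).2
  have h2 : ∀ a ∈ D', ∀ b ∈ D', a * b * a⁻¹ * b⁻¹ ∈ B := by
    intro a ha b hb
    have : D' ≤ K a (hD'Q ha) :=
      (closure_le _).2 (fun t ht => (hK _ _ _).2 ⟨hTQ ht, hsym _ _ (h1 a ha t ht)⟩)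
    exact hsym _ _ ((hK _ _ _).1 (this hb)).2
  have h3 : ∀ a ∈ D', u * a * u⁻¹ ∈ D' := by
    intro a ha
    have : D' ≤ D'.comap (MulAut.conj u).toMonoidHom := by
      refine (closure_le _).2 ?_
      rintro t (ht | ht)
      · exact hTD' (Or.inl (hD3 t ht))
      · rw [Set.mem_singleton_iff] at ht
        have e : u * t * u⁻¹ = (f x) * x := by
          simp only [f]; rw [ht]; group
        show u * t * u⁻¹ ∈ D'
        rw [e]
        exact D'.mul_mem (hTD' (Or.inl hn1)) (hTD' (Or.inr rfl))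
    exact this ha
  have hDD' : D ≤ D' := fun d hd => hTD' (Or.inl hd)
  have hD'S : D' ∈ S := ⟨hD1.trans hDD', hD'Q, h3, h2⟩
  have : D' ≤ D := hDmax.le_of_ge hD'S hDD'
  exact hn0 (this (hTD' (Or.inr rfl)))

end Pool.Agent.Lib.MP_544bd1_al
end

section

/-!
Theorem G' (paper 275): lifting fixed vectors.
-/

namespace Pool.Agent.Lib.MP_544bd1_al

open Subgroup

/-- **Lifting fixed vectors** (coprime action).

Proof. `N = {y ∈ S | φ y = 0}`, a subgroup of `T`, normalized by `u` (`φ (u * y * u⁻¹) = g 0 = 0`, as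
`g 0 = g (φ 1) = φ 1 = 0`), `r ∤ Nat.card N` (`tw_card_cop` (TwS1.lean), `hS`).
`x⁻¹ * (u * x * u⁻¹) ∈ N` by `hx`. `tw_coset_fix` (TwR4.lean; `p := r`): there is `d` with
`x⁻¹ * d ∈ N` and `u * d = d * u`; `d ∈ S`, `φ d = φ x`. -/
theorem gp_lift {M r k : ℕ} (hr : r.Prime) (hrM : ¬ r ∣ M) {T : Type} [Group T] [Finite T]
    {S : Subgroup T} (hS : ∀ x ∈ S, x ^ M = 1) {V : Type} [AddCommGroup V] (φ : S → V)
    (hφ : ∀ x y, φ (x * y) = φ x + φ y) (g : V → V) {u : T} (hu : u ^ (r ^ k) = 1)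
    (huS : ∀ x ∈ S, u * x * u⁻¹ ∈ S) (hφu : ∀ x : S, φ ⟨u * x * u⁻¹, huS x x.2⟩ = g (φ x))
    {x : S} (hx : g (φ x) = φ x) : ∃ d : S, u * d = d * u ∧ φ d = φ x := by
  have h1 : φ 1 = 0 := by
    have h := hφ 1 1
    rw [mul_one] at h
    exact left_eq_add.mp h
  have hinv : ∀ y : S, φ y⁻¹ = - φ y := by
    intro y
    have h := hφ y⁻¹ y
    rw [inv_mul_cancel, h1] at h
    exact (neg_eq_of_add_eq_zero_left h.symm).symm
  have hg0 : g 0 = 0 := by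
    have h := hφu 1
    rw [h1] at h
    rw [← h, ← h1]
    congr 1
    apply Subtype.ext
    simp
  let N : Subgroup T :=
    { carrier := {y | ∃ hy : y ∈ S, φ ⟨y, hy⟩ = 0}
      one_mem' := ⟨S.one_mem, h1⟩
      mul_mem' := by
        rintro a b ⟨ha, ha'⟩ ⟨hb, hb'⟩
        refine ⟨S.mul_mem ha hb, ?_⟩
        have h := hφ ⟨a, ha⟩ ⟨b, hb⟩
        rw [ha', hb', add_zero] at h
        exact h
      inv_mem' := by
        rintro a ⟨ha, ha'⟩
        refine ⟨S.inv_mem ha, ?_⟩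
        have h := hinv ⟨a, ha⟩
        rw [ha', neg_zero] at h
        exact h }
  have hNmem : ∀ y : T, y ∈ N ↔ ∃ hy : y ∈ S, φ ⟨y, hy⟩ = 0 := fun y => Iff.rfl
  have hN : ¬ r ∣ Nat.card N := tw_card_cop hr hrM N (fun y hy => hS y hy.1)
  have hNu : ∀ y ∈ N, u * y * u⁻¹ ∈ N := by
    rintro y ⟨hy, hy'⟩
    refine ⟨huS y hy, ?_⟩
    have h := hφu ⟨y, hy⟩
    rw [hy', hg0] at h
    exact h
  have hxN : (x : T)⁻¹ * (u * x * u⁻¹) ∈ N := by
    refine ⟨S.mul_mem (S.inv_mem x.2) (huS x x.2), ?_⟩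
    have h := hφ x⁻¹ ⟨u * x * u⁻¹, huS x x.2⟩
    rw [hinv, hφu x, hx, neg_add_cancel] at h
    exact h
  obtain ⟨y, ⟨hy1, hy2⟩, hy3⟩ := tw_coset_fix hr hu N hN hNu hxN
  have hyS : y ∈ S := by
    have h := S.mul_mem x.2 hy1
    rwa [mul_inv_cancel_left] at h
  refine ⟨⟨y, hyS⟩, hy3, ?_⟩
  have h := hφ x ⟨(x : T)⁻¹ * y, hy1⟩
  rw [hy2, add_zero] at h
  rw [← h]
  congr 1
  apply Subtype.ext
  simp

end Pool.Agent.Lib.MP_544bd1_al
end

section

/-!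
Theorem G' (paper 275): case (U2).
-/

namespace Pool.Agent.Lib.MP_544bd1_al

open Subgroup

variable {M r b c : ℕ} {F : Type} [Group F] [Finite F]

/-- the set of products `x * y`, `x ∈ g⁻¹ C g`, `y ∈ C` is not all of `Q` -/
private lemma gp_U2_count {F : Type} [Group F] [Finite F] (Q C : Subgroup F) (g : F)
    (hcard : Nat.card C * Nat.card C < Nat.card Q) :
    ∃ q ∈ Q, ∀ x ∈ C, ∀ y ∈ C, q ≠ (g⁻¹ * x * g) * y := by
  by_contra hcon
  push Not at hcon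
  choose! x hx y hy hxy using hcon
  let f : Q → C × C := fun q => (⟨x q, hx q q.2⟩, ⟨y q, hy q q.2⟩)
  have hinj : Function.Injective f := by
    intro q q' h
    have h1 : x (q : F) = x (q' : F) := congrArg (fun z : C × C => (z.1 : F)) h
    have h2 : y (q : F) = y (q' : F) := congrArg (fun z : C × C => (z.2 : F)) h
    apply Subtype.ext
    rw [hxy q q.2, hxy q' q'.2, h1, h2]
  have h1 := Nat.card_le_card_of_injective f hinj
  rw [Nat.card_prod] at h1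
  omega

/-- **Case (U2) of paper 275.**

Proof. Take `g₀` from `gp_g0` and `g ∈ S` with `gp g = gp g₀` (`hS.2.2`). `h' = g⁻¹ * h * g` normalizes
`S`. `C_Q(h') = g⁻¹ C_Q(h) g`, so by `gp_count` (`hker`, `hne`) the set
`{x * y | x ∈ C_Q(h'), y ∈ C_Q(h)}` has at most `|C_Q(h)|² < |Q|` elements: there is `q ∈ Q` which is
not of the form `x * y`. `k = g * q`, `X = closure {h, k⁻¹ * h * k}`. `gp (k⁻¹ * h * k) = gp (g₀⁻¹ * h * g₀)`
(`DQ.ker`), so the image of `X` is `⊤` by `gp_cover`. Suppose `X ≠ ⊤`; `gp_OX`: `S'`, normalized by `h`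
and `k⁻¹ * h * k`. `gp_Uconj`: `v ∈ Q` such that `v⁻¹ * h * v` and `v⁻¹ * (k⁻¹ * h * k) * v` normalize
`S`. `v⁻¹ * h * v = (v⁻¹ * (h * v * h⁻¹)) * h`, so `v⁻¹ * (h * v * h⁻¹) ∈ Q` normalizes `S`, so it
commutes with `S` (`S ⊓ Q = ⊥`) and is `1` by `gp_U`: `v` commutes with `h`. Similarly
`v⁻¹ * (k⁻¹ * h * k) * v = x⁻¹ * h' * x` with `x = q * v ∈ Q`, so `x` commutes with `h'`. So
`q = x * v⁻¹` with `x ∈ C_Q(h')`, `v⁻¹ ∈ C_Q(h)`: contradiction. So `X = ⊤`. -/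
theorem gp_U2 (D : GpMin M r b c F) {h : F} (hB : GpB M r b c h) {Q Q₁ : Subgroup F}
    (DQ : GpQ M (r ^ b) r Q Q₁) (hab : ∀ x ∈ Q, ∀ y ∈ Q, x * y = y * x) {S : Subgroup F}
    (hS : GpS M (r ^ b) h S)
    (hker : ∀ q ∈ Q, (q * h) ^ (r ^ c) = 1 → ∃ v ∈ Q, q = v * h * v⁻¹ * h⁻¹)
    (hne : ∃ v ∈ Q, (v * h) ^ (r ^ c) ≠ 1) :
    ∃ k : F, closure {h, k⁻¹ * h * k} = ⊤ := by
  have hQn := DQ.nQ
  obtain ⟨g₀, hg₀M, hg₀R, hg₀⟩ := gp_g0 D hB
  obtain ⟨g, hgS, hgg⟩ := hS.2.2 g₀ hg₀R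
  have hU := gp_U D hB DQ hab hS
  have hcop := D.cop
  -- `S ⊓ Q = ⊥`
  have hexpQ : ∀ x ∈ Q, x ^ (r ^ b) = 1 := by
    intro x hx
    have hb : 0 < b := lt_of_lt_of_le D.hc D.hcb
    obtain ⟨b', rfl⟩ : ∃ b', b = b' + 1 := ⟨b - 1, by omega⟩
    rw [pow_succ', pow_mul, DQ.exp x hx, one_pow]
  have hSQ : ∀ x, x ∈ S → x ∈ Q → x = 1 := fun x h1 h2 =>
    tw_one hcop (hS.1 x h1) (hexpQ x h2)
  -- an element of `Q` that normalizes `S` is trivial
  have hQS : ∀ q ∈ Q, (∀ x ∈ S, q * x * q⁻¹ ∈ S) → q = 1 := by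
    intro q hq hn
    refine hU.1 q hq fun s hs => ?_
    have h1 : (q * s * q⁻¹) * s⁻¹ ∈ S := S.mul_mem (hn s hs) (S.inv_mem hs)
    have h2 : q * (s * q⁻¹ * s⁻¹) ∈ Q := Q.mul_mem hq (hQn.conj_mem _ (Q.inv_mem hq) s)
    have h3 : (q * s * q⁻¹) * s⁻¹ = q * (s * q⁻¹ * s⁻¹) := by group
    rw [← h3] at h2
    have h4 := hSQ _ h1 h2
    rw [mul_inv_eq_one, mul_inv_eq_iff_eq_mul] at h4
    exact h4.symm
  have hhQ : ∀ x ∈ Q, h * x * h⁻¹ ∈ Q := fun x hx => hQn.conj_mem _ hx h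
  have hr2 : r ≠ 2 := by have := D.hr5; omega
  have hcount := gp_count D.hr hr2 D.hc hab DQ.exp hB.1 hhQ hker hne
  obtain ⟨q, hqQ, hq⟩ := gp_U2_count Q (Q ⊓ centralizer {h}) g hcount
  -- `h'` normalizes `S`
  have hinvS : ∀ x ∈ S, h⁻¹ * x * h ∈ S := by
    -- `S` finite
    intro x hx
    let e : S → S := fun y => ⟨h * y * h⁻¹, hS.2.1 y y.2⟩
    have he : Function.Injective e := by
      intro y y' hyy
      apply Subtype.ext
      have h1 := congrArg Subtype.val hyy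
      change h * (y : F) * h⁻¹ = h * (y' : F) * h⁻¹ at h1
      exact mul_left_cancel (mul_right_cancel h1)
    obtain ⟨y, hy⟩ := (Finite.injective_iff_surjective.1 he) ⟨x, hx⟩
    have h1 : h * (y : F) * h⁻¹ = x := congrArg Subtype.val hy
    have h2 : h⁻¹ * x * h = y := by rw [← h1]; group
    rw [h2]
    exact y.2
  refine ⟨g * q, ?_⟩
  set k : F := g * q with hk
  set X : Subgroup F := closure {h, k⁻¹ * h * k} with hX
  have hhX : h ∈ X := subset_closure (by simp)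
  have hkX : k⁻¹ * h * k ∈ X := subset_closure (by simp)
  by_contra hXt
  have hgk : gp M (r ^ b) F (k⁻¹ * h * k) = gp M (r ^ b) F (g₀⁻¹ * h * g₀) := by
    simp only [map_mul, map_inv, hk, hgg, DQ.ker q hqQ, mul_one]
  have hcovtop := gp_cover D hB hg₀R hg₀ (X.map (gp M (r ^ b) F)) ⟨h, hhX, rfl⟩
    ⟨k⁻¹ * h * k, hkX, hgk⟩
  have hcov : ∀ x : F, ∃ y ∈ X, gp M (r ^ b) F y = gp M (r ^ b) F x := by
    intro x
    have h1 : gp M (r ^ b) F x ∈ X.map (gp M (r ^ b) F) := by rw [hcovtop]; trivial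
    obtain ⟨y, hy, hyx⟩ := h1
    exact ⟨y, hy, hyx⟩
  obtain ⟨S', hS'X, hS'M, hS'n, hS'c⟩ := gp_OX D hB X hXt hhX hcov
  obtain ⟨v, hvQ, hv⟩ := gp_Uconj D hB DQ hab hS S' hS'M hS'c
  have h1 := hv h (hS'n h hhX)
  have h2 := hv (k⁻¹ * h * k) (hS'n _ hkX)
  -- `v` commutes with `h`
  have hvh : v * h = h * v := by
    have h3 : v⁻¹ * (h * v * h⁻¹) ∈ Q := Q.mul_mem (Q.inv_mem hvQ) (hhQ v hvQ)
    have h4 := hQS _ h3 (fun x hx => by
      have h5 := h1 _ (hinvS x hx)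
      have h6 : v⁻¹ * h * v * (h⁻¹ * x * h) * (v⁻¹ * h * v)⁻¹ =
          v⁻¹ * (h * v * h⁻¹) * x * (v⁻¹ * (h * v * h⁻¹))⁻¹ := by group
      rwa [h6] at h5)
    have h5 : h * v * h⁻¹ = v := by
      have := congrArg (fun z => v * z) h4
      simpa only [mul_inv_cancel_left, mul_one] using this
    rw [mul_inv_eq_iff_eq_mul] at h5
    exact h5.symm
  -- `x = q * v` commutes with `h' = g⁻¹ * h * g`
  have hgS' : g⁻¹ ∈ S := S.inv_mem hgS
  have hxh : (q * v) * (g⁻¹ * h * g) = (g⁻¹ * h * g) * (q * v) := by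
    set w : F := q * v with hw
    have hwQ : w ∈ Q := Q.mul_mem hqQ hvQ
    set h' : F := g⁻¹ * h * g with hh'
    have h3 : w⁻¹ * (h' * w * h'⁻¹) ∈ Q := Q.mul_mem (Q.inv_mem hwQ) (hQn.conj_mem _ hwQ _)
    have hn' : ∀ x ∈ S, h'⁻¹ * x * h' ∈ S := by
      intro x hx
      have h5 : h'⁻¹ * x * h' = g⁻¹ * (h⁻¹ * (g * x * g⁻¹) * h) * g := by rw [hh']; group
      rw [h5]
      exact S.mul_mem (S.mul_mem hgS' (hinvS _ (S.mul_mem (S.mul_mem hgS hx) hgS'))) hgS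
    have h4 := hQS _ h3 (fun x hx => by
      have h5 := h2 _ (hn' x hx)
      have h6 : v⁻¹ * (k⁻¹ * h * k) * v * (h'⁻¹ * x * h') * (v⁻¹ * (k⁻¹ * h * k) * v)⁻¹ =
          w⁻¹ * (h' * w * h'⁻¹) * x * (w⁻¹ * (h' * w * h'⁻¹))⁻¹ := by
        rw [hw, hh', hk]; group
      rwa [h6] at h5)
    have h5 : h' * w * h'⁻¹ = w := by
      have := congrArg (fun z => w * z) h4
      simpa only [mul_inv_cancel_left, mul_one] using this
    rw [mul_inv_eq_iff_eq_mul] at h5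
    exact h5.symm
  -- the contradiction
  refine hq (g * (q * v) * g⁻¹) ⟨hQn.conj_mem _ (Q.mul_mem hqQ hvQ) g, ?_⟩ v⁻¹
    ⟨Q.inv_mem hvQ, ?_⟩ ?_
  · refine mem_centralizer_singleton_iff.2 ?_
    have h3 := congrArg (fun z => g * z * g⁻¹) hxh
    have e1 : g * ((q * v) * (g⁻¹ * h * g)) * g⁻¹ = g * (q * v) * g⁻¹ * h := by group
    have e2 : g * ((g⁻¹ * h * g) * (q * v)) * g⁻¹ = h * (g * (q * v) * g⁻¹) := by group
    simp only [e1, e2] at h3
    exact h3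
  · refine mem_centralizer_singleton_iff.2 ?_
    have h3 : v⁻¹ * h = h * v⁻¹ := by
      rw [inv_mul_eq_iff_eq_mul, ← mul_assoc, hvh, mul_inv_cancel_right]
    exact h3
  · group

end Pool.Agent.Lib.MP_544bd1_al
end
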