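import Mathlib
import Pool.Agent.Lib.MP_544bd1_al.GpAbs
import Pool.Agent.Lib.MP_544bd1_al.GpT
import Pool.Agent.Lib.MP_544bd1_al.GpU2
import Pool.Agent.Lib.MP_544bd1_al.GpAbZ
import Pool.Agent.Lib.MP_544bd1_al.GpOX
import Pool.Agent.Lib.MP_544bd1_al.TwLZ
import Pool.Agent.Lib.MP_544bd1_al.TwS2
import Pool.Agent.Lib.MP_544bd1_al.TwS3
import Pool.Agent.Lib.MP_544bd1_al.GpQQ
import Pool.Agent.Lib.MP_544bd1_al.FrL0
import Pool.Agent.Lib.MP_544bd1_al.TwP1
import Pool.Agent.Lib.MP_544bd1_al.TwP2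
import Pool.Agent.Lib.MP_544bd1_al.TwQ
import Pool.Agent.Lib.MP_544bd1_al.EvFinal

section

/-!
Theorem G' (paper 275): Lemma (B1).
-/

namespace Pool.Agent.Lib.MP_544bd1_al

open Subgroup

/-- **(B1)** of paper 275.

Proof. Let `e = q * d * q⁻¹ * d⁻¹ ∈ D`, so `e ^ M = 1`, and `e` commutes with `y`. It suffices that
`e = 1`; apply `gp_absorb`. Let `g` commute with `y`, `N = closure {y * d, g * k}` (finite and solvable,
`H.h2`). `y, d ∈ N` by `tw_coprime_comm` (TwA.lean). `(g * k)⁻¹ * y * (g * k) = k⁻¹ * y * k ∈ N`, so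
`closure {y, k⁻¹ * y * k} ≤ N`, `k ∈ N`, `g ∈ N`. `hN`: `InOP M (r ^ b) N q`. So
`e = q * (d * q⁻¹ * d⁻¹)` satisfies `InOP M (r ^ b) N e` (`InOP.inv`, `InOP.conj`, `InOP.mul`), so
`InO M N e` (`InOP.inO`), and `InO M (closure {e, g}) e` (`InO.mono`). -/
theorem gp_B1 {G : Type} [Group G] {n M r b : ℕ} (H : TwG n G) (hr : r.Prime)
    (hn : n = M * r ^ b) (hrM : ¬ r ∣ M) (hno : NoN M G) {y k q d : G} (hy : y ^ (r ^ b) = 1)
    (hk : k ∈ closure {y, k⁻¹ * y * k}) (hqy : q * y = y * q)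
    (hN : ∀ N : Subgroup G, Finite N → Group.IsSolvable N → y ∈ N → k ∈ N →
      InOP M (r ^ b) N q)
    (hd : d ^ M = 1) (hdy : d * y = y * d) (D : Subgroup G) (hD : ∀ x ∈ D, x ^ M = 1)
    (hdD : d ∈ D) (hqD : ∀ x ∈ D, q * x * q⁻¹ ∈ D) : q * d = d * q := by
  have hcop : Nat.Coprime M (r ^ b) :=
    ((Nat.Prime.coprime_iff_not_dvd hr).2 hrM).symm.pow_right b
  have hexp : ∀ x : G, x ^ (M * r ^ b) = 1 := fun x => by
    rw [← hn]
    exact H.hexp x
  set e : G := q * d * q⁻¹ * d⁻¹ with he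
  have heD : e ∈ D := D.mul_mem (hqD d hdD) (D.inv_mem hdD)
  have heM : e ^ M = 1 := hD e heD
  have hcq : Commute y q := hqy.symm
  have hcd : Commute y d := hdy.symm
  have hye : y * e = e * y :=
    ((hcq.mul_right hcd).mul_right hcq.inv_right).mul_right hcd.inv_right
  have he1 : e = 1 := by
    refine gp_absorb H hr hn hrM hno hy hye heM fun g hg => ?_
    obtain ⟨hfin, hsol⟩ := H.h2 (y * d) (g * k)
    set N : Subgroup G := closure {y * d, g * k} with hNdef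
    have h1 : y * d ∈ N := subset_closure (by simp)
    have h2 : g * k ∈ N := subset_closure (by simp)
    obtain ⟨h3, h4⟩ := tw_coprime_comm hcop hd hy hdy
    rw [hdy] at h3 h4
    have hzle : zpowers (y * d) ≤ N := (zpowers_le).2 h1
    have hdN : d ∈ N := hzle h3
    have hyN : y ∈ N := hzle h4
    have h5 : (g * k)⁻¹ * y * (g * k) = k⁻¹ * y * k := by
      have h6 : g⁻¹ * y * g = y := by
        rw [mul_assoc, ← hg, ← mul_assoc, inv_mul_cancel, one_mul]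
      calc (g * k)⁻¹ * y * (g * k) = k⁻¹ * (g⁻¹ * y * g) * k := by group
        _ = k⁻¹ * y * k := by rw [h6]
    have h6 : k⁻¹ * y * k ∈ N := by
      rw [← h5]
      exact N.mul_mem (N.mul_mem (N.inv_mem h2) hyN) h2
    have hkN : k ∈ N := by
      refine (closure_le N).2 ?_ hk
      intro x hx
      rcases hx with rfl | hx
      · exact hyN
      · rw [Set.mem_singleton_iff] at hx
        rw [hx]
        exact h6
    have hgN : g ∈ N := by
      have h7 := N.mul_mem h2 (N.inv_mem hkN)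
      rwa [mul_inv_cancel_right] at h7
    have hq := hN N hfin hsol hyN hkN
    have h8 : InOP M (r ^ b) N (q * (d * q⁻¹ * d⁻¹)) :=
      InOP.mul hcop hexp hq (hq.inv.conj hdN)
    have h9 : e = q * (d * q⁻¹ * d⁻¹) := by
      rw [he]
      group
    rw [← h9] at h8
    have h10 : InO M N e := h8.inO hcop heM
    have hcl : closure {e, g} ≤ N := by
      refine (closure_le N).2 ?_
      intro x hx
      rcases hx with rfl | hx
      · exact h10.mem
      · rw [Set.mem_singleton_iff] at hx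
        rw [hx]
        exact hgN
    exact h10.mono hcl (subset_closure (by simp))
  rw [he] at he1
  have h11 := mul_inv_eq_one.1 he1
  rw [mul_inv_eq_iff_eq_mul] at h11
  exact h11

end Pool.Agent.Lib.MP_544bd1_al
end

section

/-!
Theorem G' (paper 275): Section 3.3.
-/

namespace Pool.Agent.Lib.MP_544bd1_al

open Subgroup

private lemma gpcore_pow {E : Type} [Group E] {Q : Subgroup E} {u : E}
    (h : ∀ x ∈ Q, u * x * u⁻¹ ∈ Q) (n : ℕ) : ∀ x ∈ Q, u ^ n * x * (u ^ n)⁻¹ ∈ Q := by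
  induction n with
  | zero => intro x hx; simpa using hx
  | succ n ih =>
    intro x hx
    have h2 := ih _ (h x hx)
    have e : u ^ n * (u * x * u⁻¹) * (u ^ n)⁻¹ = u ^ (n + 1) * x * (u ^ (n + 1))⁻¹ := by
      rw [pow_succ]
      group
    rwa [e] at h2

private lemma gpcore_inv {E : Type} [Group E] [Finite E] {Q : Subgroup E} {v : E}
    (h : ∀ x ∈ Q, v * x * v⁻¹ ∈ Q) : ∀ x ∈ Q, v⁻¹ * x * v ∈ Q := by
  intro x hx
  have hv : v⁻¹ = v ^ (orderOf v - 1) := by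
    have ho : 0 < orderOf v := orderOf_pos v
    refine inv_eq_of_mul_eq_one_left ?_
    rw [← pow_succ, Nat.sub_add_cancel ho, pow_orderOf_eq_one]
  have h2 := gpcore_pow h (orderOf v - 1) x hx
  rw [← hv, inv_inv] at h2
  exact h2

private lemma gpcore_sum {R : Type} [Ring R] (U : R) (q : ℕ) (h : U ^ q = 1) (m : ℕ) :
    ∑ i ∈ Finset.range (q * m), U ^ i = m • ∑ i ∈ Finset.range q, U ^ i := by
  induction m with
  | zero => simp
  | succ m ih =>
    rw [Nat.mul_succ, Finset.sum_range_add, ih, succ_nsmul]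
    congr 1
    refine Finset.sum_congr rfl fun i _ => ?_
    rw [pow_add, pow_mul, h, one_pow, one_mul]

/-- the subgroup of the elements of `X` acting trivially on `Y` -/
private def gpcoreFix {F E V : Type} [Field F] [Group E] [AddCommGroup V] [Module F V]
    (ρ : E →* Module.End F V) (X : Subgroup E) (Y : Submodule F V) : Subgroup E where
  carrier := {x | x ∈ X ∧ ∀ v ∈ Y, ρ x v = v}
  one_mem' := ⟨X.one_mem, fun v _ => by simp⟩
  mul_mem' := by
    rintro a b ⟨ha, ha'⟩ ⟨hb, hb'⟩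
    refine ⟨X.mul_mem ha hb, fun v hv => ?_⟩
    rw [map_mul, Module.End.mul_apply, hb' v hv, ha' v hv]
  inv_mem' := by
    rintro a ⟨ha, ha'⟩
    refine ⟨X.inv_mem ha, fun v hv => ?_⟩
    have h : ρ a⁻¹ (ρ a v) = v := by
      rw [← Module.End.mul_apply, ← map_mul, inv_mul_cancel, map_one, Module.End.one_apply]
    rwa [ha' v hv] at h

/-- the subgroup `{x ∈ Q | z * x * z⁻¹ * x⁻¹ ∈ B}` -/
private def gpcoreQz {E : Type} [Group E] (Q B : Subgroup E) (z : E)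
    (hB : ∀ a ∈ B, ∀ x ∈ Q, a * x = x * a) : Subgroup E where
  carrier := {x | x ∈ Q ∧ z * x * z⁻¹ * x⁻¹ ∈ B}
  one_mem' := ⟨Q.one_mem, by simp⟩
  mul_mem' := by
    rintro a b ⟨ha, ha'⟩ ⟨hb, hb'⟩
    refine ⟨Q.mul_mem ha hb, ?_⟩
    have h1 := hB _ hb' a ha
    have e : z * (a * b) * z⁻¹ * (a * b)⁻¹ = (z * a * z⁻¹ * a⁻¹) * (z * b * z⁻¹ * b⁻¹) := by
      calc z * (a * b) * z⁻¹ * (a * b)⁻¹
          = (z * a * z⁻¹ * a⁻¹) * (a * (z * b * z⁻¹ * b⁻¹)) * a⁻¹ := by group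
        _ = (z * a * z⁻¹ * a⁻¹) * ((z * b * z⁻¹ * b⁻¹) * a) * a⁻¹ := by rw [h1]
        _ = _ := by group
    rw [e]
    exact B.mul_mem ha' hb'
  inv_mem' := by
    rintro a ⟨ha, ha'⟩
    refine ⟨Q.inv_mem ha, ?_⟩
    have h1 := hB _ (B.inv_mem ha') a ha
    have e : z * a⁻¹ * z⁻¹ * a⁻¹⁻¹ = (z * a * z⁻¹ * a⁻¹)⁻¹ := by
      calc z * a⁻¹ * z⁻¹ * a⁻¹⁻¹ = a⁻¹ * ((z * a * z⁻¹ * a⁻¹)⁻¹ * a) := by group
        _ = a⁻¹ * (a * (z * a * z⁻¹ * a⁻¹)⁻¹) := by rw [h1]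
        _ = _ := by group
    rw [e]
    exact B.inv_mem ha'

/-- **Section 3.3 of paper 275**: if `u` has no nonzero fixed vector, then `(u₁ - 1) ^ 4` maps `Q`
to `A`.

Proof. Let `z = u ^ (r ^ c)`, `u₁ = u ^ (r ^ (c - 1))`, `Y = {v | ρ z v = v}`, a submodule, `≠ ⊥` by
`gp_core_z`; `Y` is invariant under `ρ u` and under `ρ a`, `a ∈ A` (`D.cent`, `z ∈ Q`). Let
`B = {a ∈ A | ∀ v ∈ Y, ρ a v = v}`, a subgroup, `B ≤ A`, normalized by `u`. `w ∉ B`: otherwise for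
`0 ≠ v ∈ Y`: `0 = ∑ i < r, ρ w ^ i v = r • v`, but `r` is prime to `s`. Let
`Qz = {x ∈ Q | z * x * z⁻¹ * x⁻¹ ∈ B}`: a subgroup (`[z, ·]` is multiplicative, `D.comm`, `D.cent`),
`A ≤ Qz`, normalized by `u`. For `x ∈ Qz`, `v ∈ Y`: `ρ x v ∈ Y`
(`z * x = [z, x] * x * z = x * [z, x] * z`). `Z₀ = {x ∈ Qz | ∀ v ∈ Y, ρ x v = v}`. `hZ` of
`gp_core_grp`: for `x ∈ Qz`, `y ∈ Z₀`: `[x, y] ∈ A` acts trivially on `Y`. `gp_max` gives `D`
(`huA`, `huB`, `huQ`: `u` commutes with `z`). `ρ` restricted to `Y`: `ρ' : D →* Module.End Y`,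
commutative (`[x, y] ∈ B` for `x, y ∈ D`); `α : D →* D` conjugation by `u`;
`U = ρ u` restricted to `Y`: `U ^ (r ^ c) = 1`, and `r • ∑ i < r ^ c, U ^ i = ∑ i < r ^ (c+1), U ^ i = 0`
by `hu`, so `∑ i < r ^ c, U ^ i = 0` (`r` prime to `s`): `LDat (r ^ c) α ρ' U`. `gp_abZ` (`a := c`;
`s ∤ Nat.card D` since `D` is an `r`-group): `ρ' (u₁ * d * u₁⁻¹) = ρ' d`, i.e. `gpN u₁ d ∈ Z₀` for
`d ∈ D` (it is in `D ≤ Qz`). In particular for `a ∈ A ≤ D`: `gpN u₁ a ∈ A ∩ Z₀`, so in `B`. Now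
`gp_core_grp` (`hDu` since `E` is finite). -/
theorem gp_core {s r c : ℕ} [Fact s.Prime] (hr : r.Prime) (hc : 0 < c) (hsr : s ≠ r) {E : Type}
    [Group E] [Finite E] (hE : IsPGroup r E) {Q A : Subgroup E} {u w : E} (D : GpE r c Q A u w)
    {V : Type} [AddCommGroup V] [Module (ZMod s) V] [Finite V] [Nontrivial V]
    (ρ : E →* Module.End (ZMod s) V) (hw : ∑ i ∈ Finset.range r, (ρ w) ^ i = 0)
    (hu : ∑ i ∈ Finset.range (r ^ (c + 1)), (ρ u) ^ i = 0) :
    ∀ x ∈ Q, gpN (u ^ (r ^ (c - 1))) (gpN (u ^ (r ^ (c - 1))) (gpN (u ^ (r ^ (c - 1)))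
      (gpN (u ^ (r ^ (c - 1))) x))) ∈ A := by
  classical
  have hrs : (r : ZMod s) ≠ 0 := by
    rw [Ne, ZMod.natCast_eq_zero_iff]
    intro h
    exact hsr ((Nat.prime_dvd_prime_iff_eq Fact.out hr).1 h)
  obtain ⟨v₀, hv₀, hzv₀⟩ := gp_core_z hr hsr D ρ hw
  obtain ⟨z, hz⟩ : ∃ z, z = u ^ (r ^ c) := ⟨_, rfl⟩
  have hzQ : z ∈ Q := by rw [hz]; exact D.hz
  have huz : u * z = z * u := by
    rw [hz, ← pow_succ, ← pow_succ']
  rw [← hz] at hzv₀
  let Y : Submodule (ZMod s) V := LinearMap.ker (ρ z - 1)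
  have hY : ∀ v, v ∈ Y ↔ ρ z v = v := by
    intro v
    show v ∈ LinearMap.ker (ρ z - 1) ↔ _
    rw [LinearMap.mem_ker, LinearMap.sub_apply, Module.End.one_apply, sub_eq_zero]
  have hcomz : ∀ g : E, g * z = z * g → ∀ v ∈ Y, ρ g v ∈ Y := by
    intro g hg v hv
    rw [hY] at hv ⊢
    rw [← Module.End.mul_apply, ← map_mul, ← hg, map_mul, Module.End.mul_apply, hv]
  have hAz : ∀ a ∈ A, ∀ v ∈ Y, ρ a v ∈ Y := fun a ha => hcomz a (D.cent a ha z hzQ)
  have huY : ∀ v ∈ Y, ρ u v ∈ Y := hcomz u huz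
  have huY' : ∀ v ∈ Y, ρ u⁻¹ v ∈ Y := by
    refine hcomz u⁻¹ ?_
    calc u⁻¹ * z = u⁻¹ * (z * u) * u⁻¹ := by group
      _ = u⁻¹ * (u * z) * u⁻¹ := by rw [huz]
      _ = z * u⁻¹ := by group
  have hcancel : ∀ g : E, ∀ v : V, ρ g (ρ g⁻¹ v) = v := by
    intro g v
    rw [← Module.End.mul_apply, ← map_mul, mul_inv_cancel, map_one, Module.End.one_apply]
  have hcancel' : ∀ g : E, ∀ v : V, ρ g⁻¹ (ρ g v) = v := by
    intro g v
    rw [← Module.End.mul_apply, ← map_mul, inv_mul_cancel, map_one, Module.End.one_apply]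
  let B : Subgroup E := gpcoreFix ρ A Y
  have hB : ∀ x, x ∈ B ↔ x ∈ A ∧ ∀ v ∈ Y, ρ x v = v := fun x => Iff.rfl
  have hBA : B ≤ A := fun x hx => ((hB x).1 hx).1
  have hwB : w ∉ B := by
    intro hwB
    have h1 := ((hB w).1 hwB).2 v₀ ((hY v₀).2 hzv₀)
    have h2 : ∀ i : ℕ, ((ρ w) ^ i) v₀ = v₀ := by
      intro i
      induction i with
      | zero => simp
      | succ i ih => rw [pow_succ, Module.End.mul_apply, h1, ih]
    have h3 : (∑ i ∈ Finset.range r, (ρ w) ^ i) v₀ = 0 := by rw [hw]; rfl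
    rw [LinearMap.sum_apply, Finset.sum_congr rfl (fun i _ => h2 i), Finset.sum_const,
      Finset.card_range, ← Nat.cast_smul_eq_nsmul (ZMod s)] at h3
    rcases smul_eq_zero.1 h3 with h | h
    · exact hrs h
    · exact hv₀ h
  have hBcent : ∀ a ∈ B, ∀ x ∈ Q, a * x = x * a := fun a ha => D.cent a (hBA ha)
  let Qz : Subgroup E := gpcoreQz Q B z hBcent
  have hQz : ∀ x, x ∈ Qz ↔ x ∈ Q ∧ z * x * z⁻¹ * x⁻¹ ∈ B := fun x => Iff.rfl
  have hQzQ : Qz ≤ Q := fun x hx => ((hQz x).1 hx).1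
  have hAQz : A ≤ Qz := by
    intro a ha
    refine (hQz a).2 ⟨D.le ha, ?_⟩
    have e : z * a * z⁻¹ * a⁻¹ = 1 := by
      rw [← D.cent a ha z hzQ]; group
    rw [e]; exact B.one_mem
  have huB : ∀ x ∈ B, u * x * u⁻¹ ∈ B := by
    intro x hx
    obtain ⟨hxA, hx1⟩ := (hB x).1 hx
    refine (hB _).2 ⟨D.uA x hxA, fun v hv => ?_⟩
    rw [map_mul, map_mul, Module.End.mul_apply, Module.End.mul_apply, hx1 _ (huY' v hv), hcancel]
  have huQz : ∀ x ∈ Qz, u * x * u⁻¹ ∈ Qz := by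
    intro x hx
    obtain ⟨hxQ, hx1⟩ := (hQz x).1 hx
    refine (hQz _).2 ⟨D.uQ x hxQ, ?_⟩
    have hzz : z = u * z * u⁻¹ := by rw [huz]; group
    have e : z * (u * x * u⁻¹) * z⁻¹ * (u * x * u⁻¹)⁻¹ = u * (z * x * z⁻¹ * x⁻¹) * u⁻¹ := by
      calc z * (u * x * u⁻¹) * z⁻¹ * (u * x * u⁻¹)⁻¹
          = (u * z * u⁻¹) * (u * x * u⁻¹) * (u * z * u⁻¹)⁻¹ * (u * x * u⁻¹)⁻¹ := by rw [← hzz]
        _ = _ := by group
    rw [e]
    exact huB _ hx1
  have hQzY : ∀ x ∈ Qz, ∀ v ∈ Y, ρ x v ∈ Y := by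
    intro x hx v hv
    obtain ⟨hxQ, hx1⟩ := (hQz x).1 hx
    rw [hY]
    have h1 := hBcent _ hx1 x hxQ
    have e : z * x = x * (z * x * z⁻¹ * x⁻¹) * z := by
      rw [← h1]; group
    rw [← Module.End.mul_apply, ← map_mul, e, map_mul, map_mul, Module.End.mul_apply,
      Module.End.mul_apply, (hY v).1 hv, ((hB _).1 hx1).2 v hv]
  let Z₀ : Subgroup E := gpcoreFix ρ Qz Y
  have hZ₀ : ∀ x, x ∈ Z₀ ↔ x ∈ Qz ∧ ∀ v ∈ Y, ρ x v = v := fun x => Iff.rfl
  have hZQ : Z₀ ≤ Qz := fun x hx => ((hZ₀ x).1 hx).1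
  have hZ : ∀ x ∈ Qz, ∀ y ∈ Z₀, x * y * x⁻¹ * y⁻¹ ∈ B := by
    intro x hx y hy
    refine (hB _).2 ⟨D.comm x (hQzQ hx) y (hQzQ (hZQ hy)), fun v hv => ?_⟩
    rw [map_mul, map_mul, map_mul, Module.End.mul_apply, Module.End.mul_apply,
      Module.End.mul_apply, ((hZ₀ _).1 (Z₀.inv_mem hy)).2 v hv,
      ((hZ₀ _).1 hy).2 _ (hQzY _ (Qz.inv_mem hx) v hv), hcancel]
  obtain ⟨D₂, hAD, hDQz, huD, hDB, hmax⟩ := gp_max hr hE hAQz hBA
    (fun a ha x hx => D.cent a ha x (hQzQ hx)) (fun x hx y hy => D.comm x (hQzQ hx) y (hQzQ hy))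
    huQz D.uA huB
  -- the representation of `D₂` on `Y`
  have hDY : ∀ x : D₂, ∀ v ∈ Y, ρ (x : E) v ∈ Y := fun x => hQzY _ (hDQz x.2)
  let ρ' : D₂ →* Module.End (ZMod s) Y :=
    { toFun := fun x => (ρ (x : E)).restrict (hDY x)
      map_one' := by
        ext v
        simp [LinearMap.restrict_apply]
      map_mul' := by
        intro x y
        ext v
        simp [LinearMap.restrict_apply] }
  have hρ' : ∀ (x : D₂) (v : Y), ((ρ' x v : Y) : V) = ρ (x : E) (v : V) := fun x v => rfl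
  let U : Module.End (ZMod s) Y := (ρ u).restrict huY
  have hU' : ∀ v : Y, ((U v : Y) : V) = ρ u (v : V) := fun v => rfl
  let α : D₂ →* D₂ :=
    { toFun := fun x => ⟨u * x * u⁻¹, huD x x.2⟩
      map_one' := by
        apply Subtype.ext
        simp
      map_mul' := by
        intro x y
        apply Subtype.ext
        simp only [Subgroup.coe_mul]
        group }
  have hα : ∀ x : D₂, ((α x : D₂) : E) = u * x * u⁻¹ := fun x => rfl
  have hUpow : ∀ (n : ℕ) (v : Y), (((U ^ n) v : Y) : V) = ρ (u ^ n) (v : V) := by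
    intro n
    induction n with
    | zero => intro v; simp
    | succ n ih =>
      intro v
      rw [pow_succ, Module.End.mul_apply, ih, hU', ← Module.End.mul_apply, ← map_mul, ← pow_succ]
  have hUq : U ^ (r ^ c) = 1 := by
    ext v
    rw [hUpow, ← hz, (hY v).1 v.2]
    rfl
  have hUN : ∑ i ∈ Finset.range (r ^ c), U ^ i = 0 := by
    have h1 : ∑ i ∈ Finset.range (r ^ (c + 1)), U ^ i = 0 := by
      ext v
      have h2 : (∑ i ∈ Finset.range (r ^ (c + 1)), (ρ u) ^ i) (v : V) = 0 := by rw [hu]; rfl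
      rw [LinearMap.sum_apply] at h2
      rw [LinearMap.sum_apply, Submodule.coe_sum, LinearMap.zero_apply, Submodule.coe_zero, ← h2]
      refine Finset.sum_congr rfl fun i _ => ?_
      rw [hUpow, map_pow]
    rw [pow_succ, gpcore_sum U _ hUq, ← Nat.cast_smul_eq_nsmul (ZMod s)] at h1
    rcases smul_eq_zero.1 h1 with h | h
    · exact absurd h hrs
    · exact h
  have L : LDat (r ^ c) α ρ' U :=
    { hU := by
        intro x
        ext v
        rw [Module.End.mul_apply, Module.End.mul_apply, hU', hρ', hρ', hU', hα,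
          ← Module.End.mul_apply, ← map_mul, ← Module.End.mul_apply, ← map_mul]
        congr 2
        group
      hq := hUq
      hN := hUN }
  have hab : ∀ x y, ρ' x * ρ' y = ρ' y * ρ' x := by
    intro x y
    ext v
    rw [Module.End.mul_apply, Module.End.mul_apply, hρ', hρ', hρ', hρ',
      ← Module.End.mul_apply, ← map_mul, ← Module.End.mul_apply, ← map_mul]
    have e : (x : E) * y = ((x : E) * y * (x : E)⁻¹ * (y : E)⁻¹) * (y * x) := by group
    have hyx : ρ ((y : E) * x) (v : V) ∈ Y := by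
      rw [map_mul, Module.End.mul_apply]
      exact hDY y _ (hDY x _ v.2)
    rw [e, map_mul, Module.End.mul_apply, ((hB _).1 (hDB x x.2 y y.2)).2 _ hyx]
  have hcard : ¬ s ∣ Nat.card D₂ := by
    have : Fact r.Prime := ⟨hr⟩
    obtain ⟨n, hn⟩ := (IsPGroup.iff_card (p := r)).1 (hE.to_subgroup D₂)
    rw [hn]
    intro h
    exact hsr ((Nat.prime_dvd_prime_iff_eq Fact.out hr).1 ((Fact.out : s.Prime).dvd_of_dvd_pow h))
  have hαn : ∀ (n : ℕ) (x : D₂), ((α^[n] x : D₂) : E) = u ^ n * x * (u ^ n)⁻¹ := by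
    intro n
    induction n with
    | zero => intro x; simp
    | succ n ih =>
      intro x
      rw [Function.iterate_succ_apply, ih, hα, pow_succ]
      group
  have hAb := gp_abZ (V := Y) (D := D₂) hr hc hcard hab L
  have htriv : ∀ x ∈ D₂, ∀ v ∈ Y, ρ (gpN (u ^ (r ^ (c - 1))) x) v = v := by
    intro x hx v hv
    have h1 := hAb ⟨x, hx⟩
    have h2 := congrArg (fun f : Module.End (ZMod s) Y => ((f ⟨v, hv⟩ : Y) : V)) h1
    rw [hρ', hρ', hαn] at h2
    unfold gpN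
    rw [map_mul, Module.End.mul_apply, h2, hcancel']
  have hDpow := gpcore_pow huD (r ^ (c - 1))
  have hDN : ∀ x ∈ D₂, gpN (u ^ (r ^ (c - 1))) x ∈ Z₀ := by
    intro x hx
    refine (hZ₀ _).2 ⟨hDQz (D₂.mul_mem (D₂.inv_mem hx) (hDpow x hx)), htriv x hx⟩
  have hAN : ∀ x ∈ A, gpN (u ^ (r ^ (c - 1))) x ∈ B := by
    intro x hx
    exact (hB _).2 ⟨A.mul_mem (A.inv_mem hx) (gpcore_pow D.uA (r ^ (c - 1)) x hx),
      htriv x (hAD hx)⟩
  refine gp_core_grp D hBA hwB hQzQ hZQ ?_ hZ hAN (gpcore_inv hDpow) hDQz hDN hmax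
  intro x hx h
  rw [← hz] at h
  exact (hQz x).2 ⟨hx, h⟩

end Pool.Agent.Lib.MP_544bd1_al
end

section

/-!
Theorem G' (paper 275): norms.
-/

namespace Pool.Agent.Lib.MP_544bd1_al

open Subgroup

variable {M r b c : ℕ} {F : Type} [Group F] [Finite F]

omit [Finite F] in
/-- the norm vanishes on the module -/
private lemma gpnorm_sum {k : ℕ} {Q Q₁ : Subgroup F} (hQn : Q.Normal) {V : Type} [AddCommGroup V]
    [Module (ZMod r) V] (τ : F →* Module.End (ZMod r) V) (φ : Q → V)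
    (hs : Function.Surjective φ) (ha : ∀ x y, φ (x * y) = φ x + φ y)
    (hc : ∀ (g : F) (x : Q), φ ⟨g * x * g⁻¹, hQn.conj_mem _ x.2 g⟩ = τ g (φ x))
    (hk : ∀ x : Q, (x : F) ∈ Q₁ → φ x = 0) {h : F} (hh : h ^ k = 1)
    (hv : ∀ v ∈ Q, (v * h) ^ k ∈ Q₁) : ∑ i ∈ Finset.range k, (τ h) ^ i = 0 := by
  have h0 : φ 1 = 0 := by
    have h1 := ha 1 1
    rw [mul_one] at h1
    exact left_eq_add.1 h1
  refine LinearMap.ext fun v => ?_
  obtain ⟨x, rfl⟩ := hs v
  have key : ∀ j : ℕ, ∃ y : Q, ((x : F) * h) ^ j = (y : F) * h ^ j ∧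
      φ y = (∑ i ∈ Finset.range j, (τ h) ^ i) (φ x) := by
    intro j
    induction j with
    | zero => exact ⟨1, by simp, by simp [h0]⟩
    | succ j ih =>
      obtain ⟨y, hy1, hy2⟩ := ih
      refine ⟨x * ⟨h * y * h⁻¹, hQn.conj_mem _ y.2 h⟩, ?_, ?_⟩
      · rw [pow_succ', hy1, pow_succ']
        simp only [Subgroup.coe_mul]
        group
      · rw [ha, hc, hy2, Finset.sum_range_succ', pow_zero, LinearMap.add_apply,
          LinearMap.sum_apply, LinearMap.sum_apply, map_sum, add_comm]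
        congr 1
        refine Finset.sum_congr rfl fun i _ => ?_
        rw [pow_succ']
        rfl
  obtain ⟨y, hy1, hy2⟩ := key k
  rw [hh, mul_one] at hy1
  rw [← hy2, hk y (by rw [← hy1]; exact hv x x.2)]
  rfl

omit [Finite F] in
/-- `h₁` commutes on the module with the elements of `R₀` -/
private lemma gpnorm_comm (D : GpMin M r b c F) {h : F} (hh : h ^ (r ^ c) = 1) {V : Type}
    [AddCommGroup V] [Module (ZMod r) V] [Finite V] (τ : F →* Module.End (ZMod r) V)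
    (hτ : ∀ d : F, gp M (r ^ b) F d = 1 → τ d = 1)
    (hN : ∑ i ∈ Finset.range (r ^ c), (τ h) ^ i = 0) {g : F}
    (hg : gp M (r ^ b) F g ∈ krad M (GH M (r ^ b) F)) :
    τ (h ^ (r ^ (c - 1))) * τ g = τ g * τ (h ^ (r ^ (c - 1))) := by
  have := Fact.mk D.hr
  obtain ⟨π, hπ⟩ : ∃ π : F →* GH M (r ^ b) F, π = gp M (r ^ b) F := ⟨_, rfl⟩
  rw [← hπ] at hg hτ
  have hRp := tw_krad_pow (F := GH M (r ^ b) F) D.cop (gp_exp D.hexp)
  have hRn := krad_normal M (GH M (r ^ b) F)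
  have hfin : Finite (Module.End (ZMod r) V) := DFunLike.finite _
  obtain ⟨υ, hυ⟩ : ∃ υ : F →* (Module.End (ZMod r) V)ˣ, ∀ x, (υ x : Module.End (ZMod r) V) = τ x :=
    ⟨τ.toHomUnits, fun x => rfl⟩
  obtain ⟨R, hR⟩ : ∃ R : Subgroup (Module.End (ZMod r) V)ˣ,
      R = ((krad M (GH M (r ^ b) F)).comap π).map υ := ⟨_, rfl⟩
  have hRM : ∀ x ∈ R, x ^ M = 1 := by
    intro x hx
    rw [hR] at hx
    obtain ⟨y, hy, rfl⟩ := hx
    have h1 : π (y ^ M) = 1 := by
      rw [map_pow]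
      exact hRp _ hy
    apply Units.ext
    rw [← map_pow, hυ, hτ _ h1]
    rfl
  have huR : ∀ x ∈ R, υ h * x * (υ h)⁻¹ ∈ R := by
    intro x hx
    rw [hR] at hx ⊢
    obtain ⟨y, hy, rfl⟩ := hx
    refine ⟨h * y * h⁻¹, ?_, by rw [map_mul, map_mul, map_inv]⟩
    show π (h * y * h⁻¹) ∈ krad M (GH M (r ^ b) F)
    rw [map_mul, map_mul, map_inv]
    exact hRn.conj_mem _ hy _
  have huq : (υ h) ^ (r ^ c) = 1 := by rw [← map_pow, hh, map_one]
  have key : ∀ x ∈ R, υ (h ^ (r ^ (c - 1))) * x = x * υ (h ^ (r ^ (c - 1))) := by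
    by_contra hcon
    push Not at hcon
    obtain ⟨t, ht, htM, R', hR'R, hR't, hR'u, x, hx, hxz⟩ :=
      tw_pick D.hr D.hrM R hRM huq huR hcon
    apply hxz
    have htr : t ≠ r := by
      rintro rfl
      exact D.hrM htM
    let α : R' →* R' :=
      { toFun := fun y => ⟨υ h * y * (υ h)⁻¹, hR'u y y.2⟩
        map_one' := by
          apply Subtype.ext
          show υ h * 1 * (υ h)⁻¹ = 1
          group
        map_mul' := fun y z => by
          apply Subtype.ext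
          show υ h * (y * z) * (υ h)⁻¹ = (υ h * y * (υ h)⁻¹) * (υ h * z * (υ h)⁻¹)
          group }
    have hα : ∀ (n : ℕ) (y : R'), ((α^[n] y : R') : (Module.End (ZMod r) V)ˣ) =
        (υ h) ^ n * y * ((υ h) ^ n)⁻¹ := by
      intro n
      induction n with
      | zero => intro y; simp
      | succ n ih =>
        intro y
        rw [Function.iterate_succ_apply', pow_succ']
        show υ h * (α^[n] y : R') * (υ h)⁻¹ = _
        rw [ih]
        group
    let ρ : R' →* Module.End (ZMod r) V := (Units.coeHom (Module.End (ZMod r) V)).comp R'.subtype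
    have hL : LDat (r ^ c) α ρ (τ h) := by
      refine ⟨fun y => ?_, ?_, hN⟩
      · have h1 : υ h * (y : (Module.End (ZMod r) V)ˣ) = (υ h * y * (υ h)⁻¹) * υ h := by group
        have h2 := congrArg Units.val h1
        rw [Units.val_mul, Units.val_mul, hυ] at h2
        exact h2
      · rw [← hυ, ← Units.val_pow_eq_pow_val, huq]
        rfl
    have h3 := tw_LZ ht htr D.hc (fun j s h1 h2 h3 => D.hnum t ht htM j s h1 h2 h3) hR't hL ⟨x, hx⟩
    have h4 : ((α^[r ^ (c - 1)] ⟨x, hx⟩ : R') : (Module.End (ZMod r) V)ˣ) = x := Units.ext h3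
    rw [hα] at h4
    rw [map_pow]
    exact mul_inv_eq_iff_eq_mul.1 h4
  have h5 : υ g ∈ R := by
    rw [hR]
    exact ⟨g, hg, rfl⟩
  have h6 := congrArg Units.val (key _ h5)
  rw [Units.val_mul, Units.val_mul, hυ, hυ] at h6
  exact h6

/-- **(1.5) of paper 275**: there is a nonzero norm.

Proof. Suppose `(v * h) ^ (r ^ c) ∈ Q₁` for all `v ∈ Q`. Take `V, τ, φ` from `gp_qmod`.
`(v * h) ^ (r ^ c) = v_0 * ... * v_{r^c - 1}` with `v_i = h ^ i * v * h ^ (-i)` (`h ^ (r ^ c) = 1`;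
compare `tw_norm_zero` in TwH0.lean), so `∑ i < r ^ c, (τ h) ^ i = 0` on `V` (`φ` surjective), and
`(τ h) ^ (r ^ c) = 1`. Let `h₁ = h ^ (r ^ (c - 1))`. Claim: `τ h₁` commutes with `τ g` for every `g`
with `gp g ∈ krad M (GH ..)`. Let `Γ` be the range of `τ` in the units of `Module.End` (or the quotient
`F ⧸ τ.ker`), a finite group, `R` the image of `{g | gp g ∈ krad M (GH ..)}` in `Γ`: a normal subgroup,
in which all elements have `x ^ M = 1` (`(gp g) ^ M = 1`, so `τ (g ^ M) = 1`). If the image of `h₁` does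
not centralize `R`, then `tw_pick` (TwS2.lean; `p := r`, `u := ` the image of `h`, `z := ` the image of
`h₁`) gives a prime `t ∣ M` and a `t`-subgroup `R' ≤ R`, normalized by the image of `h` and not
centralized by the image of `h₁`; but `tw_LZ` (TwLZ.lean; `p := r`, `r := t`, `a := c`, `R := R'`,
`α` = conjugation by the image of `h`, `U = τ h`; `D.hnum`) gives that the image of `h₁` centralizes
`R'`. So the claim. Now let `g` be an `M`-element; `gp g ∈ krad M (GH ..)` by `gp_M`. Let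
`R₀ = krad M (GH ..)`; the elements `x ∈ R₀` with `τ`-image trivial form a normal subgroup `N₀` of
`GH ..` (`τ` factors through `gp`: `hτ d`), containing all `h₁¯ * x * h₁¯⁻¹ * x⁻¹`, `x ∈ R₀`, by the
claim. If `h₁¯` commuted with all of `N₀`, then it would commute with `R₀`
(`tw_coprime_trivial`), contradicting `gp_g0`. So there is `g' ∈ F` with `gp g' ∈ N₀` not commuting
with `h₁¯`; by `gp_cover` with `Y = N₀ ⊔ zpowers h¯`, `Y = ⊤`, and so `R₀ ≤ N₀`
(as in `gp_OX`: `x ∈ R₀`, `x = y * h¯ ^ i`, `x ^ (r ^ b) ∈ N₀`, `tw_mem_of_pow`). So all `M`-elements act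
trivially on `V`, i.e. `g * x * g⁻¹ * x⁻¹ ∈ Q₁` for all `x ∈ Q`: contradiction to `DQ.nontriv`. -/
theorem gp_norm (D : GpMin M r b c F) {h : F} (hB : GpB M r b c h) {Q Q₁ : Subgroup F}
    (DQ : GpQ M (r ^ b) r Q Q₁) : ∃ v ∈ Q, (v * h) ^ (r ^ c) ∉ Q₁ := by
  by_contra hcon
  push Not at hcon
  obtain ⟨V, iV, iM, τ, φ, hfin, hs, ha, hc, hk, hτ⟩ := gp_qmod D.hr DQ
  have hN := gpnorm_sum DQ.nQ τ φ hs ha hc (fun x => (hk x).2) hB.1 hcon
  have hcomm := fun g hg => gpnorm_comm D hB.1 τ hτ hN (g := g) hg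
  have hcop := D.cop
  obtain ⟨g₀, hg₀M, hg₀R, hg₀⟩ := gp_g0 D hB
  obtain ⟨π, hπ⟩ : ∃ π : F →* GH M (r ^ b) F, π = gp M (r ^ b) F := ⟨_, rfl⟩
  have hcov := fun g hg hne Y h1 h2 => gp_cover D hB (g := g) hg hne Y h1 h2
  have hM := (gp_M D hB).2
  rw [← hπ] at hcov hM hg₀ hg₀R hτ
  have hsurj : Function.Surjective π := by rw [hπ]; exact gp_surj
  have hcomm' : ∀ g, π g ∈ krad M (GH M (r ^ b) F) →
      τ (h ^ (r ^ (c - 1))) * τ g = τ g * τ (h ^ (r ^ (c - 1))) := by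
    intro g hg
    exact hcomm g (by rw [← hπ]; exact hg)
  have hRp := tw_krad_pow (F := GH M (r ^ b) F) hcop (gp_exp D.hexp)
  have hRn := krad_normal M (GH M (r ^ b) F)
  obtain ⟨R₀, hR₀⟩ : ∃ R₀ : Subgroup (GH M (r ^ b) F), R₀ = krad M (GH M (r ^ b) F) := ⟨_, rfl⟩
  rw [← hR₀] at hcov hM hg₀R hcomm' hRp hRn
  have hKn : (τ.ker.map π).Normal := Subgroup.Normal.map inferInstance π hsurj
  obtain ⟨N₀, hN₀⟩ : ∃ N₀ : Subgroup (GH M (r ^ b) F), N₀ = R₀ ⊓ τ.ker.map π := ⟨_, rfl⟩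
  have hN₀n : N₀.Normal := by rw [hN₀]; infer_instance
  have hN₀R : N₀ ≤ R₀ := by rw [hN₀]; exact inf_le_left
  have hN₀τ : ∀ x, π x ∈ N₀ → τ x = 1 := by
    intro x hx
    rw [hN₀] at hx
    obtain ⟨g, hg, hgx⟩ := hx.2
    have h1 : π (x * g⁻¹) = 1 := by rw [map_mul, map_inv, hgx, mul_inv_cancel]
    have h2 := hτ _ h1
    have h3 : τ x = τ (x * g⁻¹) * τ g := by rw [← map_mul, inv_mul_cancel_right]
    rw [h3, h2, one_mul]
    exact MonoidHom.mem_ker.1 hg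
  have hcN : ∀ x, π x ∈ R₀ → π (h ^ (r ^ (c - 1)) * x * (h ^ (r ^ (c - 1)))⁻¹ * x⁻¹) ∈ N₀ := by
    intro x hx
    rw [hN₀]
    refine ⟨?_, ⟨_, ?_, rfl⟩⟩
    · rw [map_mul, map_mul, map_mul, map_inv, map_inv]
      exact R₀.mul_mem (hRn.conj_mem _ hx _) (R₀.inv_mem hx)
    · show τ _ = 1
      have h1 := hcomm' x hx
      rw [← map_mul, ← map_mul] at h1
      rw [show h ^ (r ^ (c - 1)) * x * (h ^ (r ^ (c - 1)))⁻¹ * x⁻¹ =
        (h ^ (r ^ (c - 1)) * x) * (x * h ^ (r ^ (c - 1)))⁻¹ by group, map_mul, h1, ← map_mul,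
        mul_inv_cancel, map_one]
  -- a noncommuting element of `N₀`
  have hex : ∃ y ∈ N₀, π (h ^ (r ^ (c - 1))) * y ≠ y * π (h ^ (r ^ (c - 1))) := by
    by_contra hno
    push Not at hno
    apply hg₀
    rw [map_mul, map_mul]
    have hpb : (π (h ^ (r ^ (c - 1)))) ^ (r ^ b) = 1 := by
      have h2 : (h ^ (r ^ (c - 1))) ^ (r ^ b) = 1 := by
        obtain ⟨q, hq⟩ : r ^ c ∣ r ^ (c - 1) * r ^ b := by
          rw [← pow_add]
          apply pow_dvd_pow
          have := D.hcb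
          have := D.hc
          omega
        rw [← pow_mul, hq, pow_mul, hB.1, one_pow]
      rw [← map_pow, h2, map_one]
    refine tw_coprime_trivial hcop.symm R₀ hRp hpb (fun x hx => hRn.conj_mem _ hx _) ?_ _ hg₀R
    intro x hx
    apply hno
    obtain ⟨x, rfl⟩ := hsurj x
    have h1 := hN₀n.conj_mem _ (hcN x hx) (π x)⁻¹
    have h2 : (π x)⁻¹ * π (h ^ (r ^ (c - 1)) * x * (h ^ (r ^ (c - 1)))⁻¹ * x⁻¹) * (π x)⁻¹⁻¹ =
        (π x)⁻¹ * (π (h ^ (r ^ (c - 1))) * π x * (π (h ^ (r ^ (c - 1))))⁻¹) := by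
      simp only [map_mul, map_inv]
      group
    rwa [h2] at h1
  obtain ⟨y, hy, hyne⟩ := hex
  obtain ⟨g', rfl⟩ := hsurj y
  have hY := hcov g' (hN₀R hy) (by rw [map_mul, map_mul]; exact hyne) (N₀ ⊔ zpowers (π h))
    (Subgroup.mem_sup_right (mem_zpowers _)) (by
      rw [map_mul, map_mul, map_inv]
      exact mul_mem (mul_mem (inv_mem (Subgroup.mem_sup_left hy))
        (Subgroup.mem_sup_right (mem_zpowers _))) (Subgroup.mem_sup_left hy))
  have hRN : ∀ x ∈ R₀, x ∈ N₀ := by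
    intro x hx
    apply tw_mem_of_pow hcop (hRp x hx)
    have hxY : x ∈ N₀ ⊔ zpowers (π h) := by rw [hY]; trivial
    obtain ⟨n, hn, z, hz, hnz⟩ := Subgroup.mem_sup_of_normal_left.1 hxY
    obtain ⟨i, rfl⟩ := mem_zpowers_iff.1 hz
    have h1 : (π h) ^ (r ^ b) = 1 := by
      have h3 : h ^ (r ^ b) = 1 := by
        obtain ⟨q, hq⟩ : r ^ c ∣ r ^ b := pow_dvd_pow _ D.hcb
        rw [hq, pow_mul, hB.1, one_pow]
      rw [← map_pow, h3, map_one]
    have h2 : (QuotientGroup.mk' N₀) (x ^ (r ^ b)) = 1 := by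
      have hn1 : (QuotientGroup.mk' N₀) n = 1 := by
        rw [QuotientGroup.mk'_apply]
        exact (QuotientGroup.eq_one_iff n).2 hn
      rw [← hnz, map_pow, map_mul, hn1, one_mul, ← map_pow, ← zpow_natCast, ← zpow_mul, mul_comm,
        zpow_mul, zpow_natCast, h1, one_zpow, map_one]
    rw [QuotientGroup.mk'_apply] at h2
    exact (QuotientGroup.eq_one_iff _).1 h2
  obtain ⟨g, hgM, x, hx, hgx⟩ := DQ.nontriv
  apply hgx
  have hτg : τ g = 1 := hN₀τ g (hRN _ (hM g hgM))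
  have h1 := hc g ⟨x, hx⟩
  rw [hτg, Module.End.one_apply] at h1
  have h0 : φ 1 = 0 := by
    have h1 := ha 1 1
    rw [mul_one] at h1
    exact left_eq_add.1 h1
  have h2 : φ (⟨g * x * g⁻¹, DQ.nQ.conj_mem _ hx g⟩ * (⟨x, hx⟩ : Q)⁻¹) = 0 := by
    rw [ha]
    have h3 := ha ⟨x, hx⟩ (⟨x, hx⟩ : Q)⁻¹
    rw [mul_inv_cancel, h0] at h3
    rw [h1]
    exact h3.symm
  exact (hk _).1 h2

end Pool.Agent.Lib.MP_544bd1_al
end

section

/-!
Theorem G' (paper 275): the data of case B.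
-/

namespace Pool.Agent.Lib.MP_544bd1_al

open Subgroup

variable {M r b c : ℕ} {F : Type} [Group F] [Finite F]

private lemma gpbd_map {E E' : Type} [Group E] [Group E'] (f : E →* E') (u x : E) :
    f (gpN u x) = gpN (f u) (f x) := by
  unfold gpN
  simp only [map_mul, map_inv]

private lemma gpbd_comm {E : Type} [Group E] {s n q : E} (h : q * s = s * q) :
    s * (n * q) * s⁻¹ * (n * q)⁻¹ = s * n * s⁻¹ * n⁻¹ := by
  have h1 : q * s⁻¹ = s⁻¹ * q := by
    calc q * s⁻¹ = s⁻¹ * (s * q) * s⁻¹ := by group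
      _ = s⁻¹ * (q * s) * s⁻¹ := by rw [h]
      _ = s⁻¹ * q := by group
  calc s * (n * q) * s⁻¹ * (n * q)⁻¹ = s * n * (q * s⁻¹) * q⁻¹ * n⁻¹ := by group
    _ = s * n * (s⁻¹ * q) * q⁻¹ * n⁻¹ := by rw [h1]
    _ = s * n * s⁻¹ * n⁻¹ := by group

private lemma gpbd_pow {E : Type} [Group E] {Q : Subgroup E} (nQ : Q.Normal) {v h : E} (hv : v ∈ Q)
    {n : ℕ} (hh : h ^ n = 1) : (v * h) ^ n ∈ Q := by
  rw [← QuotientGroup.eq_one_iff, QuotientGroup.mk_pow, QuotientGroup.mk_mul,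
    (QuotientGroup.eq_one_iff v).2 hv, one_mul, ← QuotientGroup.mk_pow, hh, QuotientGroup.mk_one]

/-- **The data of Section 3 of paper 275.**

Proof. `v` from `gp_norm`, `u = v * h`, `z = u ^ (r ^ c)`. `gp v = 1` (`DQ.ker`), so `gp u = gp h`.
`z ∈ Q` (modulo the normal subgroup `Q`: `u ≡ h`, `h ^ (r ^ c) = 1`), `z ∉ Q₁`, `z ^ r = 1`
(`DQ.exp`), so `u ^ (r ^ (c + 1)) = 1`. `w` from `gp_w`; `w ∈ ⁅Q, Q⁆ ≤ Q₁` (`DQ.comm`). `k` from
`gp_Mu`, `ρ` from `gp_rho` (for this `u`). Let `Q' = sInf` of the set of subgroups `N` with `z ∈ N` and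
normalized by `closure {u, ρ}`; `Q'` is in this set, `Q' ≤ Q` and `Q' ≤ closure {u, ρ}` (`Q` and
`closure {u, ρ}` are in the set). `gp_irr` (`X := closure {u, ρ}`, `N := Q'`): `Q = Q' Q₁`.
`gp_comm_le`: `⁅Q, Q⁆ ≤ ⁅Q', Q'⁆ ≤ Q'`, so `w ∈ Q'`; `A = Q' ⊓ Q₁ ∋ w`. `InNC (closure {u, ρ}) z w`: every
such `N` contains `Q'`. `InNC (closure {u, k}) z w`: for `N` as in `InNC`, `N ⊓ Q` satisfies the
hypotheses of `gp_irr` with `X := closure {u, k}` (its image is `⊤` since it contains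
`closure {u, k⁻¹ * u * k}`), so by `gp_comm_le` `w ∈ ⁅Q, Q⁆ ≤ N ⊓ Q`. `GpE`: `exp` `DQ.exp`; `cent`
`DQ.cent`; `comm`: `DQ.comm` and `Q'` a subgroup; `uQ`, `uA`: `u ∈ closure {u, ρ}`, `DQ.nQ₁`; `hI`: for
`B ≤ A`, `w ∉ B`, `x ∈ Q'`: `gp_I` (`y ∈ Q` is `n * q₁`, `n ∈ Q'`, `q₁ ∈ Q₁` central in `Q`, so the
commutators with `y` and with `n` are equal) gives `x ∈ Q₁`. Last claim: if the fourth iterate maps
`Q'` to `A ≤ Q₁`, then it maps `Q` to `Q₁` (`gpN u₁ (n * q₁)` and `gpN u₁ n` are equal modulo the normal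
subgroup `Q₁`), contradicting `gp_N4`. -/
theorem gp_B_data (D : GpMin M r b c F) {h : F} (hB : GpB M r b c h) {Q Q₁ : Subgroup F}
    (DQ : GpQ M (r ^ b) r Q Q₁) (hab : ∃ x ∈ Q, ∃ y ∈ Q, x * y ≠ y * x) :
    ∃ (u k w ρ : F) (Q' A : Subgroup F), GpE r c Q' A u w ∧ u ^ (r ^ (c + 1)) = 1 ∧
      k ∈ closure {u, k⁻¹ * u * k} ∧ InNC (closure {u, k}) (u ^ (r ^ c)) w ∧ ρ ^ M = 1 ∧
      Q' ≤ closure {u, ρ} ∧ InNC (closure {u, ρ}) (u ^ (r ^ c)) w ∧ w * ρ = ρ * w ∧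
      ¬ ∀ x ∈ Q', gpN (u ^ (r ^ (c - 1))) (gpN (u ^ (r ^ (c - 1))) (gpN (u ^ (r ^ (c - 1)))
        (gpN (u ^ (r ^ (c - 1))) x))) ∈ A := by
  have nQ := DQ.nQ
  have nQ₁ := DQ.nQ₁
  obtain ⟨v, hv, hz⟩ := gp_norm D hB DQ
  obtain ⟨w, hwQ, hw1, hwc⟩ := gp_w D DQ hab
  obtain ⟨u, hu⟩ : ∃ u, u = v * h := ⟨_, rfl⟩
  have hgu : gp M (r ^ b) F u = gp M (r ^ b) F h := by
    rw [hu, map_mul, DQ.ker v hv, one_mul]
  obtain ⟨k, hk, hkX⟩ := gp_Mu D hB hgu
  obtain ⟨ρ, hρ, hρX⟩ := gp_rho D hB hgu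
  have hN4 := gp_N4 D hB DQ hv hz
  rw [← hu] at hz hN4
  have hzQ : u ^ (r ^ c) ∈ Q := by
    rw [hu]
    exact gpbd_pow nQ hv hB.1
  have hwQ₁ : w ∈ Q₁ := by
    have h1 : ⁅Q, Q⁆ ≤ Q₁ := by
      rw [Subgroup.commutator_le]
      exact DQ.comm
    exact h1 hwQ
  obtain ⟨Q', hQ'⟩ : ∃ Q' : Subgroup F, Q' = sInf {N : Subgroup F | u ^ (r ^ c) ∈ N ∧
      ∀ t ∈ closure {u, ρ}, ∀ x ∈ N, t * x * t⁻¹ ∈ N} := ⟨_, rfl⟩
  have hcm : ∀ N : Subgroup F, ∀ x ∈ N, ∀ y ∈ N, x * y * x⁻¹ * y⁻¹ ∈ N := fun N x hx y hy =>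
    mul_mem (mul_mem (mul_mem hx hy) (inv_mem hx)) (inv_mem hy)
  have hmin : ∀ N : Subgroup F, u ^ (r ^ c) ∈ N →
      (∀ t ∈ closure {u, ρ}, ∀ x ∈ N, t * x * t⁻¹ ∈ N) → Q' ≤ N := by
    intro N h1 h2
    rw [hQ']
    exact sInf_le ⟨h1, h2⟩
  have hzQ' : u ^ (r ^ c) ∈ Q' := by
    rw [hQ', Subgroup.mem_sInf]
    exact fun N hN => hN.1
  have hnQ' : ∀ t ∈ closure {u, ρ}, ∀ x ∈ Q', t * x * t⁻¹ ∈ Q' := by
    intro t ht x hx
    rw [hQ', Subgroup.mem_sInf] at hx ⊢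
    exact fun N hN => hN.2 t ht x (hx N hN)
  have huρ : u ∈ closure {u, ρ} := subset_closure (Or.inl rfl)
  have hQQ : Q' ≤ Q := hmin Q hzQ fun t _ x hx => nQ.conj_mem x hx t
  have hQρ : Q' ≤ closure {u, ρ} := hmin _ (pow_mem huρ _) fun t ht x hx =>
    mul_mem (mul_mem ht hx) (inv_mem ht)
  have hirr := gp_irr DQ hρX hQQ hnQ' hzQ' hz
  have hwQ' : w ∈ Q' := by
    have h1 : ⁅Q', Q'⁆ ≤ Q' := by
      rw [Subgroup.commutator_le]
      exact hcm Q'
    exact h1 (gp_comm_le DQ hirr hwQ)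
  have huQ : ∀ x ∈ Q', u * x * u⁻¹ ∈ Q' := hnQ' u huρ
  refine ⟨u, k, w, ρ, Q', Q' ⊓ Q₁, ?_, ?_, hk, ?_, hρ, hQρ, ?_, (hwc ρ).symm, ?_⟩
  · refine ⟨fun x hx => DQ.exp x (hQQ hx), inf_le_left, fun a ha x hx => DQ.cent a ha.2 x (hQQ hx),
      fun x hx y hy => ⟨hcm Q' x hx y hy, DQ.comm x (hQQ hx) y (hQQ hy)⟩, huQ,
      fun x hx => ⟨huQ x hx.1, nQ₁.conj_mem x hx.2 u⟩, hzQ', fun h1 => hz h1.2, ⟨hwQ', hwQ₁⟩,
      (hwc u).symm, hw1, ?_⟩
    intro B hBA hwB x hx hxB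
    refine ⟨hx, gp_I D hB hgu DQ B hwQ hwB (hQQ hx) fun j y hy => ?_⟩
    obtain ⟨n, hn, q, hq, rfl⟩ := hirr y hy
    rw [gpbd_comm (DQ.cent q hq _ (nQ.conj_mem x (hQQ hx) (u ^ j)))]
    exact hxB j n hn
  · rw [pow_succ, pow_mul]
    exact DQ.exp _ hzQ
  · intro N hzN hN
    have hkX' : (closure {u, k}).map (gp M (r ^ b) F) = ⊤ := by
      rw [eq_top_iff, ← hkX]
      refine Subgroup.map_mono ?_
      rw [Subgroup.closure_le]
      have hu' : u ∈ closure {u, k} := subset_closure (Or.inl rfl)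
      have hk' : k ∈ closure {u, k} := subset_closure (Or.inr rfl)
      rintro x (rfl | rfl)
      · exact hu'
      · exact mul_mem (mul_mem (inv_mem hk') hu') hk'
    have h1 := gp_irr DQ hkX' (N := N ⊓ Q) inf_le_right
      (fun t ht x hx => ⟨hN t ht x hx.1, nQ.conj_mem x hx.2 t⟩) (z := u ^ (r ^ c)) ⟨hzN, hzQ⟩ hz
    have h2 : ⁅N ⊓ Q, N ⊓ Q⁆ ≤ N := by
      rw [Subgroup.commutator_le]
      intro x hx y hy
      exact hcm N x hx.1 y hy.1
    exact h2 (gp_comm_le DQ h1 hwQ)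
  · intro N hzN hN
    exact hmin N hzN hN hwQ'
  · intro h4
    refine hN4 fun x hx => ?_
    obtain ⟨n, hn, q, hq, rfl⟩ := hirr x hx
    have h5 : _ ∈ Q₁ := (h4 n hn).2
    have hq1 : (QuotientGroup.mk' Q₁) q = 1 := (QuotientGroup.eq_one_iff q).2 hq
    have hmk : ∀ y : F, y ∈ Q₁ ↔ (QuotientGroup.mk' Q₁) y = 1 := fun y =>
      (QuotientGroup.eq_one_iff y).symm
    rw [hmk] at h5 ⊢
    simp only [gpbd_map, map_mul, hq1, mul_one] at h5 ⊢
    exact h5

end Pool.Agent.Lib.MP_544bd1_al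
end

section

/-!
Theorem G' (paper 275): case A.
-/

namespace Pool.Agent.Lib.MP_544bd1_al

open Subgroup

/-- **The end of Section 2 of paper 275.**

Proof. `z = (v * h) ^ (r ^ c)`. `z ∈ V₁` (`(v * h) ^ j ∈ V₁ * h ^ j`, `h ^ (r ^ c) = 1`), so `z ^ r = 1`, `z`
commutes with `v` and with `v * h`, so with `h`. (B) `gp_B1` with `y := h`, `q := z`: `hN`: if `h, k ∈ N`
then `v ∈ N` (`hvk`), `v * h ∈ N`, `(v * h) ^ (r ^ (c + 1)) = z ^ r = 1`, so `htop` applies.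
`gp_adjoin` (with `M := r ^ b`, `P := M`, `c := z`, `w := h`; `hno'`) gives `k'`; let
`T = closure {v * h, h * k'}`, finite and solvable (`H.h2`), `z ∈ T`; so `h, k' ∈ T`, `v ∈ T`,
`¬ InO (r ^ b) T z`; `htop`: `InOP M (r ^ b) T z`. Work in the group `T` (`InOP.top_iff`,
`InO.top_iff`). `E = closure {v, h}` (in `T`): every element of `E` is `y * h ^ i` with `y ∈ V₁`, so
`E` is an `r`-group, and `z` is central in `E`. `gp_mod` (`w := z`): `s, S, V, ρ, φ`. `gp_coreA` in the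
group `E` (with `V₁ := ` the elements of `E` which are in `V₁`): `x ≠ 0` in `V` with `ρ h x = x`.
`gp_lift` (`u := h`, `g := ρ h`): `d ∈ S` with `h * d = d * h`, `φ d = x`. By (B) (`D := S`, as a
subgroup of `G`): `z * d = d * z`. So `ρ z x = φ (z * d * z⁻¹) = x`, and
`0 = ∑ i < r, ρ z ^ i x = r • x`, so `x = 0` (`s ≠ r`), a contradiction. -/
theorem gp_caseA {G : Type} [Group G] {n M r b c : ℕ} (H : TwG n G) (hr : r.Prime) (hr5 : 5 ≤ r)
    (hc : 0 < c) (hcb : c < b) (hn : n = M * r ^ b) (hrM : ¬ r ∣ M) (hno : NoN M G)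
    (hno' : NoN (r ^ b) G) (htop : GpTop M r b c G) {h v k : G} (hh : h ^ (r ^ c) = 1)
    (V₁ : Subgroup G) [Finite V₁] (hV : ∀ x ∈ V₁, ∀ y ∈ V₁, x * y = y * x)
    (hVr : ∀ x ∈ V₁, x ^ r = 1) (hv : v ∈ V₁) (hhV : ∀ x ∈ V₁, h * x * h⁻¹ ∈ V₁)
    (hz : (v * h) ^ (r ^ c) ≠ 1) (hk : k ∈ closure {h, k⁻¹ * h * k})
    (hvk : v ∈ closure {h, k}) : False := by
  have hexp : ∀ x : G, x ^ (M * r ^ b) = 1 := by
    intro x
    rw [← hn]
    exact H.hexp x
  have hcop : Nat.Coprime M (r ^ b) :=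
    ((Nat.Prime.coprime_iff_not_dvd hr).2 hrM).symm.pow_right b
  have hMP : 0 < M * r ^ b := by rw [← hn]; exact H.pos
  have hM : 0 < M := Nat.pos_of_mul_pos_right hMP
  have hb : 0 < b := by omega
  have hconj : ∀ i : ℕ, ∀ x ∈ V₁, h ^ i * x * (h ^ i)⁻¹ ∈ V₁ := by
    intro i
    induction i with
    | zero =>
      intro x hx
      simpa using hx
    | succ i ih =>
      intro x hx
      have h1 : h ^ (i + 1) * x * (h ^ (i + 1))⁻¹ = h * (h ^ i * x * (h ^ i)⁻¹) * h⁻¹ := by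
        rw [pow_succ']
        group
      rw [h1]
      exact hhV _ (ih x hx)
  have hmul : ∀ y ∈ V₁, ∀ i : ℕ, ∀ y' ∈ V₁, ∀ j : ℕ,
      ∃ w ∈ V₁, (y * h ^ i) * (y' * h ^ j) = w * h ^ (i + j) := by
    intro y hy i y' hy' j
    refine ⟨y * (h ^ i * y' * (h ^ i)⁻¹), V₁.mul_mem hy (hconj i y' hy'), ?_⟩
    rw [pow_add]
    group
  have hpow : ∀ y ∈ V₁, ∀ i j : ℕ, ∃ w ∈ V₁, (y * h ^ i) ^ j = w * h ^ (i * j) := by
    intro y hy i j
    induction j with
    | zero => exact ⟨1, V₁.one_mem, by simp⟩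
    | succ j ih =>
      obtain ⟨w, hw, hw2⟩ := ih
      obtain ⟨w', hw', hw2'⟩ := hmul w hw (i * j) y hy i
      refine ⟨w', hw', ?_⟩
      rw [pow_succ, hw2, hw2', mul_add, mul_one]
  have hpc : ∀ y ∈ V₁, ∀ i : ℕ, (y * h ^ i) ^ (r ^ c) ∈ V₁ := by
    intro y hy i
    obtain ⟨w, hw, hw2⟩ := hpow y hy i (r ^ c)
    rw [hw2, mul_comm i, pow_mul, hh, one_pow, mul_one]
    exact hw
  obtain ⟨z, hzd⟩ : ∃ z, z = (v * h) ^ (r ^ c) := ⟨_, rfl⟩
  have hzV : z ∈ V₁ := by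
    have h1 := hpc v hv 1
    rw [pow_one] at h1
    rw [hzd]
    exact h1
  have hzr : z ^ r = 1 := hVr z hzV
  have hz1 : z ≠ 1 := by rw [hzd]; exact hz
  have hzh : z * h = h * z := by
    have h1 : Commute z (v * h) := by
      rw [hzd]
      exact (Commute.refl (v * h)).pow_left _
    have h2 : Commute z v := hV z hzV v hv
    have h3 : Commute z (v⁻¹ * (v * h)) := h2.inv_right.mul_right h1
    rw [inv_mul_cancel_left] at h3
    exact h3
  have hvh1 : (v * h) ^ (r ^ (c + 1)) = 1 := by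
    rw [pow_succ r c, pow_mul, ← hzd, hzr]
  have hhb : h ^ (r ^ b) = 1 := by
    have h1 : r ^ b = r ^ c * r ^ (b - c) := by
      rw [← pow_add]
      congr 1
      omega
    rw [h1, pow_mul, hh, one_pow]
  have hzb : z ^ (r ^ b) = 1 := by
    have h1 : r ^ b = r * r ^ (b - 1) := by
      rw [← pow_succ']
      congr 1
      omega
    rw [h1, pow_mul, hzr, one_pow]
  have hN : ∀ N : Subgroup G, Finite N → Group.IsSolvable N → h ∈ N → k ∈ N →
      InOP M (r ^ b) N z := by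
    intro N hNf hNs hhN hkN
    have h1 : closure {h, k} ≤ N := by
      rw [Subgroup.closure_le]
      rintro w (rfl | rfl)
      · exact hhN
      · exact hkN
    rw [hzd]
    exact htop N hNf hNs (v * h) (N.mul_mem (h1 hvk) hhN) hvh1
  obtain ⟨k', hk'⟩ := gp_adjoin (M := r ^ b) (P := M) H (by rw [hn, mul_comm]) hcop.symm hno'
    hzb hz1 hzh
  obtain ⟨T, hT⟩ : ∃ T, T = closure {v * h, h * k'} := ⟨_, rfl⟩
  haveI hTf : Finite T := by rw [hT]; exact (H.h2 _ _).1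
  have hTs : Group.IsSolvable T := by rw [hT]; exact (H.h2 _ _).2
  have hvhT : v * h ∈ T := by rw [hT]; exact subset_closure (by simp)
  have hhkT : h * k' ∈ T := by rw [hT]; exact subset_closure (by simp)
  have hzT : z ∈ T := by rw [hzd]; exact pow_mem hvhT _
  obtain ⟨hhT, -, hnO⟩ := hk' T hzT hhkT
  have hvT : v ∈ T := by
    have h1 := T.mul_mem hvhT (T.inv_mem hhT)
    rwa [mul_inv_cancel_right] at h1
  have hzO : InOP M (r ^ b) T z := by
    rw [hzd]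
    exact htop T hTf hTs (v * h) hvhT hvh1
  -- the group `E`
  let E : Subgroup T :=
    { carrier := {e | ∃ y ∈ V₁, ∃ i : ℕ, (e : G) = y * h ^ i}
      one_mem' := ⟨1, V₁.one_mem, 0, by simp⟩
      mul_mem' := by
        rintro a b ⟨y, hy, i, hi⟩ ⟨y', hy', j, hj⟩
        obtain ⟨w, hw, hw2⟩ := hmul y hy i y' hy' j
        refine ⟨w, hw, i + j, ?_⟩
        rw [Subgroup.coe_mul, hi, hj, hw2]
      inv_mem' := by
        rintro a ⟨y, hy, i, hi⟩
        have h1 : (h ^ i)⁻¹ = h ^ (i * (r ^ c - 1)) := by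
          apply inv_eq_of_mul_eq_one_right
          rw [← pow_add]
          have h2 : i + i * (r ^ c - 1) = r ^ c * i := by
            have h3 : 0 < r ^ c := pow_pos hr.pos c
            obtain ⟨l, hl⟩ : ∃ l, r ^ c = l + 1 := ⟨r ^ c - 1, by omega⟩
            rw [hl]
            simp only [Nat.add_sub_cancel]
            ring
          rw [h2, pow_mul, hh, one_pow]
        refine ⟨h ^ (i * (r ^ c - 1)) * y⁻¹ * (h ^ (i * (r ^ c - 1)))⁻¹,
          hconj _ _ (V₁.inv_mem hy), i * (r ^ c - 1), ?_⟩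
        rw [Subgroup.coe_inv, hi, mul_inv_rev, h1, inv_mul_cancel_right] }
  have hEmem : ∀ e : T, e ∈ E ↔ ∃ y ∈ V₁, ∃ i : ℕ, (e : G) = y * h ^ i := fun e => Iff.rfl
  have hE : IsPGroup r E := by
    rintro ⟨e, he⟩
    obtain ⟨y, hy, i, hi⟩ := (hEmem e).1 he
    refine ⟨c + 1, ?_⟩
    apply Subtype.ext
    apply Subtype.ext
    show (e : G) ^ (r ^ (c + 1)) = 1
    rw [hi, pow_succ r c, pow_mul]
    exact hVr _ (hpc y hy i)
  have hwE : (⟨z, hzT⟩ : T) ∈ E := (hEmem _).2 ⟨z, hzV, 0, by simp⟩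
  have hhE : (⟨h, hhT⟩ : T) ∈ E := (hEmem _).2 ⟨1, V₁.one_mem, 1, by simp⟩
  have hvE : (⟨v, hvT⟩ : T) ∈ E := (hEmem _).2 ⟨v, hv, 0, by simp⟩
  have hwc : ∀ e ∈ E, e * (⟨z, hzT⟩ : T) = (⟨z, hzT⟩ : T) * e := by
    intro e he
    obtain ⟨y, hy, i, hi⟩ := (hEmem e).1 he
    apply Subtype.ext
    show (e : G) * z = z * e
    rw [hi]
    have h1 : Commute z y := hV z hzV y hy
    have h2 : Commute z h := hzh
    exact (h1.mul_right (h2.pow_right i)).symm
  obtain ⟨s, hs, hsr, S, hinv, V, iV1, iV2, ρ, φ, hVfin, hVnt, hSM, hφs, hφa, hφe, hsum⟩ :=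
    gp_mod (w := (⟨z, hzT⟩ : T)) hr hrM hM hb (tw_exp_sub hexp T) (Subtype.ext hzr)
      ((InOP.top_iff _).2 hzO) (fun h3 => hnO ((InO.top_iff _).1 h3)) E hE hwE hwc
  haveI := hVfin
  haveI := hVnt
  haveI : Fact s.Prime := ⟨hs⟩
  -- the fixed vector
  obtain ⟨x, hx0, hxx⟩ := gp_coreA (s := s) (r := r) (c := c) hr hc hsr
    (h := (⟨⟨h, hhT⟩, hhE⟩ : E)) (v := (⟨⟨v, hvT⟩, hvE⟩ : E))
    (Subtype.ext (Subtype.ext hh)) (V₁.comap (T.subtype.comp E.subtype))
    (fun a ha d hd => Subtype.ext (Subtype.ext (hV _ ha _ hd)))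
    (fun a ha => Subtype.ext (Subtype.ext (hVr _ ha))) hv (fun a ha => hhV _ ha) ρ (by
      have h1 : ((⟨⟨v, hvT⟩, hvE⟩ : E) * ⟨⟨h, hhT⟩, hhE⟩) ^ (r ^ c) = ⟨⟨z, hzT⟩, hwE⟩ := by
        apply Subtype.ext
        apply Subtype.ext
        exact hzd.symm
      rw [h1]
      exact hsum)
  obtain ⟨x0, rfl⟩ := hφs x
  obtain ⟨d, hd1, hd2⟩ := gp_lift (k := c) hr hrM hSM φ hφa (fun y => ρ ⟨⟨h, hhT⟩, hhE⟩ y)
    (u := (⟨h, hhT⟩ : T)) (Subtype.ext hh) (fun a ha => hinv _ hhE a ha)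
    (fun a => hφe ⟨⟨h, hhT⟩, hhE⟩ a) hxx
  have hzd' : z * ((d : T) : G) = ((d : T) : G) * z := by
    refine gp_B1 H hr hn hrM hno hhb hk hzh hN ?_ ?_ (S.map T.subtype) ?_ ?_ ?_
    · exact congrArg Subtype.val (hSM d d.2)
    · exact (congrArg Subtype.val hd1).symm
    · rintro _ ⟨a, ha, rfl⟩
      exact congrArg Subtype.val (hSM a ha)
    · exact ⟨d, d.2, rfl⟩
    · rintro _ ⟨a, ha, rfl⟩
      exact ⟨_, hinv _ hwE a ha, rfl⟩
  have hρz : ρ ⟨⟨z, hzT⟩, hwE⟩ (φ x0) = φ x0 := by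
    rw [← hd2, ← hφe]
    congr 1
    apply Subtype.ext
    apply Subtype.ext
    show z * ((d : T) : G) * z⁻¹ = ((d : T) : G)
    rw [hzd', mul_inv_cancel_right]
  have h1 : ∀ i : ℕ, ((ρ ⟨⟨z, hzT⟩, hwE⟩) ^ i) (φ x0) = φ x0 := by
    intro i
    induction i with
    | zero => rfl
    | succ i ih => rw [pow_succ', Module.End.mul_apply, ih, hρz]
  have h2 := congrArg (fun A : Module.End (ZMod s) V => A (φ x0)) hsum
  simp only [LinearMap.sum_apply, h1, LinearMap.zero_apply, Finset.sum_const,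
    Finset.card_range] at h2
  rw [← Nat.cast_smul_eq_nsmul (ZMod s)] at h2
  have h3 : ((r : ℕ) : ZMod s) ≠ 0 := by
    intro h4
    rw [ZMod.natCast_eq_zero_iff] at h4
    exact hsr ((Nat.prime_dvd_prime_iff_eq hs hr).1 h4)
  exact hx0 ((smul_eq_zero.1 h2).resolve_left h3)

end Pool.Agent.Lib.MP_544bd1_al
end

section

/-!
Theorem G' (paper 275): the data of case A.
-/

namespace Pool.Agent.Lib.MP_544bd1_al

open Subgroup

variable {M r b c : ℕ} {F : Type} [Group F] [Finite F]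

/-- **Generation** (Section 2 of paper 275). -/
theorem gp_gen (D : GpMin M r b c F) {h : F} (hB : GpB M r b c h) {Q Q₁ : Subgroup F}
    (DQ : GpQ M (r ^ b) r Q Q₁) (hab : ∀ x ∈ Q, ∀ y ∈ Q, x * y = y * x) :
    ∃ y k : F, GpB M r b c y ∧ closure {y, k⁻¹ * y * k} = ⊤ := by
  by_cases hno : ∃ S : Subgroup F, GpS M (r ^ b) h S
  · obtain ⟨S, hS⟩ := hno
    by_cases hker : ∀ q ∈ Q, (q * h) ^ (r ^ c) = 1 → ∃ v ∈ Q, q = v * h * v⁻¹ * h⁻¹
    · obtain ⟨v, hv, hv1⟩ := gp_norm D hB DQ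
      obtain ⟨k, hk⟩ := gp_U2 D hB DQ hab hS hker
        ⟨v, hv, fun h1 => hv1 (by rw [h1]; exact Q₁.one_mem)⟩
      exact ⟨h, k, hB, hk⟩
    · push Not at hker
      obtain ⟨q, hq, hq1, hq2⟩ := hker
      obtain ⟨h1, h2⟩ := gp_U1 D hB DQ hab hS hq hq1 hq2
      obtain ⟨k, hk⟩ := gp_T D h1 h2
      exact ⟨q * h, k, h1, hk⟩
  · obtain ⟨k, hk⟩ := gp_T D hB hno
    exact ⟨h, k, hB, hk⟩

end Pool.Agent.Lib.MP_544bd1_al
end

section

/-!
Theorem G' (paper 275): case B.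
-/

namespace Pool.Agent.Lib.MP_544bd1_al

open Subgroup

/-- an averaged nonzero vector is fixed -/
private theorem gpZB_fix {s N : ℕ} [Fact s.Prime] {V : Type} [AddCommGroup V] [Module (ZMod s) V]
    (U : Module.End (ZMod s) V) (hU : U ^ N = 1) (h : ∑ i ∈ Finset.range N, U ^ i ≠ 0) :
    ∃ x : V, x ≠ 0 ∧ U x = x := by
  have hex : ∃ v, (∑ i ∈ Finset.range N, U ^ i) v ≠ 0 := by
    by_contra hcon
    push Not at hcon
    exact h (LinearMap.ext hcon)
  obtain ⟨v, hv⟩ := hex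
  refine ⟨_, hv, ?_⟩
  have h1 : (U - 1) * ∑ i ∈ Finset.range N, U ^ i = 0 := by
    rw [mul_geom_sum, hU, sub_self]
  have h2 := congrArg (fun f : Module.End (ZMod s) V => f v) h1
  simp only [Module.End.mul_apply, LinearMap.sub_apply, Module.End.one_apply,
    LinearMap.zero_apply] at h2
  exact sub_eq_zero.1 h2

/-- if the norm of `W` is zero, then `W` has no nonzero fixed vector -/
private theorem gpZB_nofix {s r : ℕ} [Fact s.Prime] (hr : r.Prime) (hsr : s ≠ r) {V : Type}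
    [AddCommGroup V] [Module (ZMod s) V] (W : Module.End (ZMod s) V)
    (hW : ∑ i ∈ Finset.range r, W ^ i = 0) {x : V} (hx : W x = x) : x = 0 := by
  have hpow : ∀ i : ℕ, (W ^ i) x = x := by
    intro i
    induction i with
    | zero => simp
    | succ i ih => rw [pow_succ, Module.End.mul_apply, hx, ih]
  have h1 := congrArg (fun f : Module.End (ZMod s) V => f x) hW
  simp only [LinearMap.sum_apply, hpow, Finset.sum_const, Finset.card_range,
    LinearMap.zero_apply] at h1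
  have h2 : ((r : ℕ) : ZMod s) • x = 0 := by
    rw [Nat.cast_smul_eq_nsmul]
    exact h1
  have h3 : ((r : ℕ) : ZMod s) ≠ 0 := by
    intro h4
    rw [ZMod.natCast_eq_zero_iff] at h4
    have hs : s.Prime := Fact.out
    exact hsr ((Nat.prime_dvd_prime_iff_eq hs hr).1 h4)
  rcases smul_eq_zero.1 h2 with h4 | h4
  · exact absurd h4 h3
  · exact h4

/-- the group `Q' ⟨u⟩` -/
private def gpZB_E {G : Type} [Group G] (Q' : Subgroup G) (u : G)
    (h : ∀ z ∈ zpowers u, ∀ x ∈ Q', z * x * z⁻¹ ∈ Q') : Subgroup G where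
  carrier := {g | ∃ z ∈ zpowers u, g * z⁻¹ ∈ Q'}
  one_mem' := ⟨1, (zpowers u).one_mem, by simp [Q'.one_mem]⟩
  mul_mem' := by
    rintro a b ⟨y, hy, hay⟩ ⟨z, hz, hbz⟩
    refine ⟨y * z, (zpowers u).mul_mem hy hz, ?_⟩
    have h1 : a * b * (y * z)⁻¹ = (a * y⁻¹) * (y * (b * z⁻¹) * y⁻¹) := by group
    rw [h1]
    exact Q'.mul_mem hay (h y hy _ hbz)
  inv_mem' := by
    rintro a ⟨y, hy, hay⟩
    refine ⟨y⁻¹, (zpowers u).inv_mem hy, ?_⟩
    have h1 : a⁻¹ * (y⁻¹)⁻¹ = y⁻¹ * (a * y⁻¹)⁻¹ * (y⁻¹)⁻¹ := by group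
    rw [h1]
    exact h _ ((zpowers u).inv_mem hy) _ (Q'.inv_mem hay)

/-- **The end of Section 3 of paper 275.**

Proof. `z = u ^ (r ^ c)`. `w ^ r = 1` (`D.exp`). (B) `gp_B1` with `y := u`, `q := w`: `hN`: if
`u, k ∈ N` then `InOP M (r ^ b) N z` (`htop`, `hu`), and `InNC.inOP` with `hwk`.
`gp_adjoin` (with `M := r ^ b`, `P := M`, `c := w`, `w := u`; `hno'`) gives `k'`; let
`T = closure {w * ρ, u * k'}`, finite and solvable, `w, ρ ∈ T` (`tw_coprime_comm`, TwA.lean; `w`, `ρ`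
commute), so `u, k' ∈ T`, `¬ InO (r ^ b) T w`, `closure {u, ρ} ≤ T`, `Q' ≤ T`;
`InOP M (r ^ b) T w` by `htop` (for `z`) and `InNC.inOP` with `hwρ`. Work in the group `T`.
`E = {q * u ^ i | q ∈ Q'}` (in `T`) is an `r`-group: `(q * u ^ i) ^ (r ^ c) ∈ Q'`
(`u ^ (r ^ c) = z ∈ Q'`), and `x ^ r = 1` on `Q'`; `w` is central in `E` (`D.cent`, `D.hwu`). `gp_mod`:
`s, S, V, ρ', φ`. `GpE` holds in the group `E` (`GpE.comap` for `E → G`). If
`∑ i < r ^ (c + 1), ρ' u ^ i = 0`, then `gp_core` gives that the fourth iterate maps `Q'` to `A`,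
contradicting `hN4`. So there is `v` with `x = ∑ i < r ^ (c + 1), ρ' u ^ i v ≠ 0`, and
`ρ' u x = x` (`u ^ (r ^ (c + 1)) = 1`). `gp_lift` (`u := u`, `g := ρ' u`): `d ∈ S`, `u * d = d * u`,
`φ d = x`. By (B) (`D := S` as a subgroup of `G`): `w * d = d * w`. So `ρ' w x = x`, and
`0 = ∑ i < r, ρ' w ^ i x = r • x`, `x = 0` (`s ≠ r`): a contradiction. -/
theorem gp_caseB {G : Type} [Group G] {n M r b c : ℕ} (H : TwG n G) (hr : r.Prime)
    (hc : 0 < c) (hcb : c < b) (hn : n = M * r ^ b) (hrM : ¬ r ∣ M) (hno : NoN M G)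
    (hno' : NoN (r ^ b) G) (htop : GpTop M r b c G) {u k w ρ : G} {Q' A : Subgroup G} [Finite Q']
    (D : GpE r c Q' A u w) (hu : u ^ (r ^ (c + 1)) = 1) (hk : k ∈ closure {u, k⁻¹ * u * k})
    (hwk : InNC (closure {u, k}) (u ^ (r ^ c)) w) (hρ : ρ ^ M = 1) (hQρ : Q' ≤ closure {u, ρ})
    (hwρ : InNC (closure {u, ρ}) (u ^ (r ^ c)) w) (hcomm : w * ρ = ρ * w)
    (hN4 : ¬ ∀ x ∈ Q', gpN (u ^ (r ^ (c - 1))) (gpN (u ^ (r ^ (c - 1)))
      (gpN (u ^ (r ^ (c - 1))) (gpN (u ^ (r ^ (c - 1))) x))) ∈ A) : False := by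
  have hcop : Nat.Coprime M (r ^ b) := ((Nat.Prime.coprime_iff_not_dvd hr).2 hrM).symm.pow_right b
  have hn0 : 0 < n := H.pos
  have hM0 : 0 < M := by
    rw [hn] at hn0
    exact Nat.pos_of_mul_pos_right hn0
  have hb : 0 < b := by omega
  have hwQ : w ∈ Q' := D.le D.hw
  have hwr : w ^ r = 1 := D.exp w hwQ
  have hwrb : w ^ (r ^ b) = 1 := by
    obtain ⟨j, hj⟩ := dvd_pow_self r hb.ne'
    rw [hj, pow_mul, hwr, one_pow]
  have hurb : u ^ (r ^ b) = 1 := by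
    obtain ⟨j, hj⟩ := pow_dvd_pow r (show c + 1 ≤ b by omega)
    rw [hj, pow_mul, hu, one_pow]
  have hupos : 0 < r ^ (c + 1) := pow_pos hr.pos _
  have huQ : ∀ z ∈ zpowers u, ∀ x ∈ Q', z * x * z⁻¹ ∈ Q' := fr_comm_proper_zn hupos hu D.uQ
  -- (B)
  have hBB : ∀ N : Subgroup G, Finite N → Group.IsSolvable N → u ∈ N → k ∈ N →
      InOP M (r ^ b) N w := by
    intro N hf hs hu' hk'
    refine hwk.inOP ?_ (htop N hf hs u hu' hu)
    rw [closure_le]
    rintro x (rfl | rfl)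
    · exact hu'
    · exact hk'
  obtain ⟨k', hk'⟩ := gp_adjoin (M := r ^ b) (P := M) H (by rw [hn, mul_comm]) hcop.symm hno' hwrb
    D.hw1 D.hwu
  obtain ⟨hfT, hsT⟩ := H.h2 (w * ρ) (u * k')
  obtain ⟨T, hT⟩ : ∃ T : Subgroup G, T = closure {w * ρ, u * k'} := ⟨_, rfl⟩
  rw [← hT] at hfT hsT
  have h1T : w * ρ ∈ T := by rw [hT]; exact subset_closure (by simp)
  have h2T : u * k' ∈ T := by rw [hT]; exact subset_closure (by simp)
  obtain ⟨h3, h4⟩ := tw_coprime_comm hcop.symm hwrb hρ hcomm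
  have hwT : w ∈ T := (zpowers_le.2 h1T) h3
  have hρT : ρ ∈ T := (zpowers_le.2 h1T) h4
  obtain ⟨huT, hk'T, hnT⟩ := hk' T hwT h2T
  have hcT : closure {u, ρ} ≤ T := by
    rw [closure_le]
    rintro x (rfl | rfl)
    · exact huT
    · exact hρT
  have hQT : Q' ≤ T := hQρ.trans hcT
  have hOT : InOP M (r ^ b) T w := hwρ.inOP hcT (htop T hfT hsT u huT hu)
  have hexpT : ∀ x : T, x ^ (M * r ^ b) = 1 := by
    rw [← hn]
    exact tw_exp_sub H.hexp T
  -- the group `E`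
  obtain ⟨E₀, hE₀⟩ : ∃ E₀ : Subgroup G, E₀ = gpZB_E Q' u huQ := ⟨_, rfl⟩
  have hE₀mem : ∀ g, g ∈ E₀ ↔ ∃ z ∈ zpowers u, g * z⁻¹ ∈ Q' := by
    intro g
    rw [hE₀]
    rfl
  have huE₀ : u ∈ E₀ := (hE₀mem u).2 ⟨u, mem_zpowers u, by simp [Q'.one_mem]⟩
  have hQE₀ : Q' ≤ E₀ := fun x hx => (hE₀mem x).2 ⟨1, one_mem _, by simpa using hx⟩
  have hpE₀ : ∀ g ∈ E₀, g ^ (r ^ (c + 1)) = 1 := by
    intro g hg
    obtain ⟨z, hz, hgz⟩ := (hE₀mem g).1 hg
    have key : ∀ j : ℕ, g ^ j * (z ^ j)⁻¹ ∈ Q' := by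
      intro j
      induction j with
      | zero => simp [Q'.one_mem]
      | succ j ih =>
        have h5 : g ^ (j + 1) * (z ^ (j + 1))⁻¹ = (g * z⁻¹) * (z * (g ^ j * (z ^ j)⁻¹) * z⁻¹) := by
          rw [pow_succ' g, pow_succ' z]
          group
        rw [h5]
        exact Q'.mul_mem hgz (huQ z hz _ ih)
    have h6 : z ^ (r ^ c) ∈ Q' := by
      obtain ⟨i, rfl⟩ := mem_zpowers_iff.1 hz
      have : (u ^ i) ^ (r ^ c) = (u ^ (r ^ c)) ^ i := by
        rw [← zpow_natCast, ← zpow_mul, mul_comm, zpow_mul, zpow_natCast]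
      rw [this]
      exact Q'.zpow_mem D.hz i
    have h7 : g ^ (r ^ c) ∈ Q' := by
      have := Q'.mul_mem (key (r ^ c)) h6
      rwa [inv_mul_cancel_right] at this
    rw [pow_succ, pow_mul]
    exact D.exp _ h7
  have hcE₀ : ∀ g ∈ E₀, g * w = w * g := by
    intro g hg
    obtain ⟨z, hz, hgz⟩ := (hE₀mem g).1 hg
    have h5 : Commute (g * z⁻¹) w := (D.cent w D.hw _ hgz).symm
    have h6 : Commute z w := by
      obtain ⟨i, rfl⟩ := mem_zpowers_iff.1 hz
      exact ((show Commute w u from D.hwu).symm).zpow_left i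
    have h7 := h5.mul_left h6
    rw [inv_mul_cancel_right] at h7
    exact h7
  obtain ⟨E, hE⟩ : ∃ E : Subgroup T, E = E₀.subgroupOf T := ⟨_, rfl⟩
  have hEmem : ∀ t : T, t ∈ E ↔ (t : G) ∈ E₀ := by
    intro t
    rw [hE, mem_subgroupOf]
  have hEp : IsPGroup r E := by
    intro t
    refine ⟨c + 1, Subtype.ext (Subtype.ext ?_)⟩
    have := hpE₀ (((t : T)) : G) ((hEmem t).1 t.2)
    simpa using this
  have hwE : (⟨w, hwT⟩ : T) ∈ E := (hEmem _).2 (hQE₀ hwQ)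
  have huE : (⟨u, huT⟩ : T) ∈ E := (hEmem _).2 huE₀
  obtain ⟨s, hs, hsr, S, hinv, V, iV, iM, ρ', φ, hfV, hnV, hSM, hφs, hφa, hφe, hφw⟩ :=
    gp_mod hr hrM hM0 hb hexpT (w := (⟨w, hwT⟩ : T)) (Subtype.ext (by simpa using hwr))
      ((InOP.top_iff _).2 hOT) (fun h5 => hnT ((InO.top_iff _).1 h5)) E hEp hwE
      (fun e he => Subtype.ext (hcE₀ _ ((hEmem e).1 he)))
  have : Fact s.Prime := ⟨hs⟩
  -- the homomorphism to `G`
  let f : E →* G := T.subtype.comp E.subtype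
  have hf : Function.Injective f := T.subtype_injective.comp E.subtype_injective
  have hQf : Q' ≤ f.range := fun x hx =>
    ⟨⟨⟨x, hQT hx⟩, (hEmem _).2 (hQE₀ hx)⟩, rfl⟩
  have DE : GpE r c (Q'.comap f) (A.comap f) (⟨⟨u, huT⟩, huE⟩ : E) (⟨⟨w, hwT⟩, hwE⟩ : E) :=
    GpE.comap f hf hQf D
  have hne : ∑ i ∈ Finset.range (r ^ (c + 1)), (ρ' (⟨⟨u, huT⟩, huE⟩ : E)) ^ i ≠ 0 := by
    intro h5
    have h6 := gp_core hr hc hsr hEp DE ρ' hφw h5
    apply hN4
    intro x hx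
    obtain ⟨x', hx'⟩ := hQf hx
    have h7 := h6 x' (by rw [mem_comap, hx']; exact hx)
    rw [mem_comap] at h7
    simp only [gpN, map_mul, map_inv, map_pow, hx'] at h7
    exact h7
  have huN : (ρ' (⟨⟨u, huT⟩, huE⟩ : E)) ^ (r ^ (c + 1)) = 1 := by
    rw [← map_pow]
    have : (⟨⟨u, huT⟩, huE⟩ : E) ^ (r ^ (c + 1)) = 1 := Subtype.ext (Subtype.ext (by simpa using hu))
    rw [this, map_one]
  obtain ⟨v, hv0, hv⟩ := gpZB_fix _ huN hne
  obtain ⟨x, rfl⟩ := hφs v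
  obtain ⟨d, hd1, hd2⟩ := gp_lift (M := M) (r := r) (k := b) hr hrM hSM φ hφa
    (fun v => ρ' (⟨⟨u, huT⟩, huE⟩ : E) v) (u := (⟨u, huT⟩ : T)) (Subtype.ext (by simpa using hurb))
    (fun y hy => hinv _ huE y hy) (fun y => hφe ⟨⟨u, huT⟩, huE⟩ y) hv
  have hwd : w * ((d : T) : G) = ((d : T) : G) * w := by
    apply gp_B1 H hr hn hrM hno hurb hk D.hwu hBB (D := S.map T.subtype)
    · have h5 := hSM (d : T) d.2
      have h6 := congrArg (fun t : T => (t : G)) h5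
      simpa using h6
    · have h6 := congrArg (fun t : T => (t : G)) hd1
      exact h6.symm
    · rintro _ ⟨y, hy, rfl⟩
      have h6 := congrArg (fun t : T => (t : G)) (hSM y hy)
      simpa using h6
    · exact ⟨d, d.2, rfl⟩
    · rintro _ ⟨y, hy, rfl⟩
      exact ⟨_, hinv _ hwE y hy, rfl⟩
  have hwd' : ρ' (⟨⟨w, hwT⟩, hwE⟩ : E) (φ d) = φ d := by
    rw [← hφe ⟨⟨w, hwT⟩, hwE⟩ d]
    congr 1
    apply Subtype.ext
    apply Subtype.ext
    show w * ((d : T) : G) * w⁻¹ = ((d : T) : G)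
    rw [hwd, mul_inv_cancel_right]
  rw [hd2] at hwd'
  exact hv0 (gpZB_nofix hr hsr _ hφw hwd')

end Pool.Agent.Lib.MP_544bd1_al
end

section

/-!
Theorem G' (paper 275): the level.
-/

namespace Pool.Agent.Lib.MP_544bd1_al

open Subgroup

/-- **The maximal level and a minimal bad pair** (Section 1 of paper 275).

Proof. Say that level `c` is bad if `0 < c` and there are a finite solvable `T : Subgroup G` and
`u ∈ T` with `u ^ (r ^ c) = 1` and `¬ InOP M (r ^ b) T (u ^ (r ^ (c - 1)))`. Level 1 is bad: by `hbad`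
(`z ^ (r ^ b) = 1` as `z ^ r = 1`, `0 < b`) there is a finite solvable `T ∋ z` with
`¬ InOP M (r ^ b) T z`. A level `c ≥ b` is not bad: `u ^ (r ^ c) = 1` and `u ^ (M * r ^ b) = 1` give
`u ^ (r ^ b) = 1`; for `c > b` then `u ^ (r ^ (c - 1)) = 1` (trivially `InOP`), for `c = b` use
`tw_HH` (TwH.lean) in the group `T` (`hnum`, `InOP.top_iff`). So there is a largest bad level
`c < b` (`Nat.findGreatest`, or strong induction), and `GpTop M r b c G` holds (level `c + 1` is not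
bad). Among the finite solvable `T : Subgroup G` which contain a bad `u` of level `c` take one with
`Nat.card T` minimal. Then `GpMin M r b c T`: for `X : Subgroup T`, `X ≠ ⊤`, `y ∈ X`: the subgroup
`X.map T.subtype` of `G` has smaller cardinality, so
`InOP M (r ^ b) (X.map T.subtype) ((y : G) ^ (r ^ (c - 1)))`, and `InOP.comap` (TwA.lean) with
`T.subtype` gives the claim. `GpB M r b c u` by `InOP.top_iff`. -/
theorem gp_level {G : Type} [Group G] {n M r b : ℕ} (H : TwG n G) (hr : r.Prime) (hr5 : 5 ≤ r)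
    (hb : 0 < b) (hn : n = M * r ^ b) (hrM : ¬ r ∣ M)
    (hnum : ∀ t : ℕ, t.Prime → t ∣ M → ∀ j s : ℕ, 1 ≤ j → j ≤ b → 0 < s → t ^ s + 1 ≠ r ^ j)
    {z : G} (hz : z ^ r = 1) (hbad : ¬ GoodS M (r ^ b) z) :
    ∃ c : ℕ, 0 < c ∧ c < b ∧ GpTop M r b c G ∧ ∃ T : Subgroup G, Finite T ∧
      GpMin M r b c T ∧ ∃ h : T, GpB M r b c h := by
  classical
  have hexp : ∀ x : G, x ^ (M * r ^ b) = 1 := fun x => by rw [← hn]; exact H.hexp x
  have hM : 0 < M := by
    rcases Nat.eq_zero_or_pos M with h | h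
    · exfalso
      have h1 := H.pos
      rw [hn, h, zero_mul] at h1
      exact lt_irrefl _ h1
    · exact h
  have hcop : Nat.Coprime M (r ^ b) :=
    ((Nat.Prime.coprime_iff_not_dvd hr).2 hrM).symm.pow_right b
  obtain ⟨Q, hQ⟩ : ∃ Q : ℕ → Subgroup G → Prop, Q = fun (c : ℕ) (T : Subgroup G) => Finite T ∧ Group.IsSolvable T ∧
    ∃ u ∈ T, u ^ (r ^ c) = 1 ∧ ¬ InOP M (r ^ b) T (u ^ (r ^ (c - 1))) := ⟨_, rfl⟩
  obtain ⟨B, hB⟩ : ∃ B : ℕ → Prop, B = fun c => 0 < c ∧ ∃ T : Subgroup G, Q c T := ⟨_, rfl⟩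
  have hB1 : B 1 := by
    rw [hB]
    refine ⟨one_pos, ?_⟩
    by_contra hcon
    apply hbad
    refine ⟨?_, fun T hT1 hT2 hzT => ?_⟩
    · obtain ⟨k, hk⟩ := dvd_pow_self r hb.ne'
      rw [hk, pow_mul, hz, one_pow]
    · by_contra h
      refine hcon ⟨T, ?_⟩
      rw [hQ]
      refine ⟨hT1, hT2, z, hzT, by rw [pow_one]; exact hz, ?_⟩
      rw [Nat.sub_self, pow_zero, pow_one]
      exact h
  have hBb : ¬ B b := by
    rw [hB, hQ]
    rintro ⟨-, T, hT1, hT2, u, huT, hu1, hu2⟩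
    apply hu2
    have h1 := tw_HH (F := T) hr hrM hM hb hT2 (fun x => Subtype.ext (by simpa using hexp x)) hnum
      (u := ⟨u, huT⟩) (Subtype.ext (by simpa using hu1))
    rw [InOP.top_iff] at h1
    exact h1
  obtain ⟨c, hc⟩ : ∃ c, c = Nat.findGreatest B b := ⟨_, rfl⟩
  have hBc : B c := by rw [hc]; exact Nat.findGreatest_spec hb hB1
  have hcb : c < b := by
    have h1 : c ≤ b := by rw [hc]; exact Nat.findGreatest_le b
    refine lt_of_le_of_ne h1 fun h2 => hBb ?_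
    rw [← h2]
    exact hBc
  have hBc1 : ¬ B (c + 1) := Nat.findGreatest_is_greatest (by rw [← hc]; exact Nat.lt_succ_self c) hcb
  have hBc' := hBc
  rw [hB] at hBc'
  obtain ⟨hc0, T₀, hT₀⟩ := hBc'
  refine ⟨c, hc0, hcb, ?_, ?_⟩
  · intro T hT1 hT2 u huT hu
    by_contra h
    apply hBc1
    rw [hB, hQ]
    exact ⟨Nat.succ_pos c, T, hT1, hT2, u, huT, hu, h⟩
  · have hex : ∃ k, ∃ T : Subgroup G, Q c T ∧ Nat.card T = k := ⟨_, T₀, hT₀, rfl⟩
    obtain ⟨T, hT, hTk⟩ := Nat.find_spec hex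
    have hmin : ∀ T' : Subgroup G, Q c T' → Nat.card T ≤ Nat.card T' := by
      intro T' hT'
      rw [hTk]
      exact Nat.find_min' hex ⟨T', hT', rfl⟩
    have hT' := hT
    rw [hQ] at hT'
    obtain ⟨hT1, hT2, u, huT, hu1, hu2⟩ := hT'
    refine ⟨T, hT1, ?_, ⟨u, huT⟩, Subtype.ext (by simpa using hu1), ?_⟩
    · refine ⟨hr, hr5, hM, hrM, hc0, hcb.le,
        fun t ht1 ht2 j s hj1 hj2 hs => hnum t ht1 ht2 j s hj1 (hj2.trans hcb.le) hs,
        fun x => Subtype.ext (by simpa using hexp x), hT2, ?_⟩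
      intro X hX y hy hy1
      by_contra hcon
      have hfX : Finite X := inferInstance
      have hsX : Group.IsSolvable X := inferInstance
      obtain ⟨e⟩ : Nonempty (X ≃* X.map T.subtype) :=
        ⟨X.equivMapOfInjective T.subtype T.subtype_injective⟩
      have hcard : Nat.card (X.map T.subtype) = Nat.card X := (Nat.card_congr e.toEquiv).symm
      have h1 : Q c (X.map T.subtype) := by
        rw [hQ]
        refine ⟨Finite.of_equiv X e.toEquiv,
          Group.isSolvable_of_surjective (f := e.toMonoidHom) e.surjective, (y : G), ⟨y, hy, rfl⟩, ?_, ?_⟩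
        · have h2 := congrArg Subtype.val hy1
          simpa using h2
        · intro h2
          exact hcon (InOP.comap T.subtype T.subtype_injective h2)
      have h2 := hmin _ h1
      rw [hcard] at h2
      exact hX (Subgroup.eq_top_of_card_eq X (le_antisymm (Subgroup.card_le_card_group X) h2))
    · intro h
      rw [InOP.top_iff] at h
      exact hu2 h

end Pool.Agent.Lib.MP_544bd1_al
end

section

/-!
Theorem G' (paper 275): commuting good elements.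
-/

namespace Pool.Agent.Lib.MP_544bd1_al

open Subgroup

/-- **Good elements of orders `p` and `q` commute**, if for all other primes `s` all elements of
order `s` are `s`-good.

Proof. Copy the proof of `tw_comm_good` (TwP1.lean). There `hs` is used only to get an element `e` of
the `r`-group `R` (here the prime `r` is called `s`) with `e ^ s = 1`, `z * e ≠ e * z`, which is
`s`-good; now: `gp_omega` applied to `R` (given by `tw_pick`, with some `x ∈ R` not commuting with `z`)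
gives `e ∈ R` with `e ^ s = 1`, `z * e ≠ e * z` (`s ≠ 2`: `n` is odd), and `hs` gives
`GoodS S (s ^ k) e` where `n = S * s ^ k`, `¬ s ∣ S` (`Nat.exists_eq_pow_mul_and_not_dvd`); the rest
is unchanged (with `s ^ k` instead of `r ^ 1`). -/
theorem gp_comm_good {G : Type} [Group G] {n p q a b M N : ℕ} (H : TwG n G) (hodd : Odd n)
    (hp : p.Prime) (hq : q.Prime) (hpq : p ≠ q) (hM : n = M * p ^ a) (hN : n = N * q ^ b)
    (hpM : ¬ p ∣ M) (hqN : ¬ q ∣ N)
    (hs : ∀ s : ℕ, s.Prime → s ≠ p → s ≠ q → s ∣ n → ∀ S k : ℕ, n = S * s ^ k → ¬ s ∣ S →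
      ∀ e : G, e ^ s = 1 → GoodS S (s ^ k) e)
    (hnoM : NoN M G) (hnoN : NoN N G) {z y : G} (hz : GoodS M (p ^ a) z) (hzp : z ^ p = 1)
    (hy : GoodS N (q ^ b) y) (hyq : y ^ q = 1) : z * y = y * z := by
  have hn0 : 0 < n := H.pos
  have hM0 : 0 < M := by
    rw [hM] at hn0
    exact Nat.pos_of_mul_pos_right hn0
  obtain ⟨N1, h11, h12, h13, h14⟩ := tw_C H hp hq hpq hM hN hpM hqN hnoM hz hy hyq
  obtain ⟨N2, h21, h22, h23, h24⟩ := tw_C H hq hp hpq.symm hN hM hqN hpM hnoN hy hz hzp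
  have hTT : closure {y, z} = closure {z, y} := by rw [Set.pair_comm]
  rw [hTT] at h21 h23
  obtain ⟨hfT, hsT⟩ := H.h2 z y
  set T := closure {z, y} with hT
  set c := y⁻¹ * (z⁻¹ * y * z) with hc
  have hcinv : c⁻¹ = z⁻¹ * (y⁻¹ * z * y) := by rw [hc]; group
  rw [← hcinv] at h22
  have hcJ1 : c ∈ N1 := h12
  have hcJ2 : c ∈ N2 := by simpa using N2.inv_mem h22
  have hzT : z ∈ T := subset_closure (by simp)
  -- `z` centralizes `N1 ⊓ N2`
  have hcent : ∀ x ∈ N1 ⊓ N2, z * x = x * z := by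
    by_contra hcon
    push Not at hcon
    obtain ⟨x, hxJ, hx⟩ := hcon
    obtain ⟨r, hr, hrM, R, hRD, hRr, hRu, e₀, he₀R, hne₀⟩ := tw_pick (F := T) hp hpM
      ((N1 ⊓ N2).subgroupOf T) (fun w hw => Subtype.ext (by simpa using h24 _ hw.2))
      (u := ⟨z, hzT⟩) (z := ⟨z, hzT⟩) (Subtype.ext (by simpa using hz.1))
      (fun w hw => ⟨h13 z hzT _ hw.1, h23 z hzT _ hw.2⟩)
      ⟨⟨x, h11 hxJ.1⟩, hxJ, fun h => hx (congrArg Subtype.val h)⟩
    -- the element `e`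
    have hrn : r ∣ n := by
      rw [hM]
      exact Dvd.dvd.mul_right hrM _
    have hr2 : r ≠ 2 := by
      rintro rfl
      exact (Nat.not_odd_iff_even.2 (even_iff_two_dvd.2 hrn)) hodd
    have hrp : r ≠ p := by
      rintro rfl
      exact hpM hrM
    have hfR : Finite R := inferInstance
    obtain ⟨e, heR, her', hne⟩ := gp_omega hr hr2 hp (Ne.symm hrp) R hRr (z := (⟨z, hzT⟩ : T))
      (a := a) (Subtype.ext (by simpa using hz.1)) hRu ⟨e₀, he₀R, hne₀⟩
    have her : (e : G) ^ r = 1 := by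
      have h3 := congrArg Subtype.val her'
      simpa using h3
    have he1 : (e : G) ≠ 1 := by
      intro h
      apply hne
      have : e = 1 := Subtype.ext h
      rw [this, mul_one, one_mul]
    have heN : (e : G) ^ N = 1 := h14 _ (hRD heR).1
    have hfr : Fact r.Prime := ⟨hr⟩
    have hord : orderOf (e : G) = r := orderOf_eq_prime her he1
    have hrN : r ∣ N := by
      rw [← hord]
      exact orderOf_dvd_of_pow_eq_one heN
    have hrq : r ≠ q := by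
      rintro rfl
      exact hqN hrN
    obtain ⟨k, S, hrS, hS⟩ := Nat.exists_eq_pow_mul_and_not_dvd hn0.ne' r hr.ne_one
    have hS1 : n = S * r ^ k := by rw [hS, mul_comm]
    have hgood : GoodS S (r ^ k) (e : G) := hs r hr hrp hrq hrn S k hS1 hrS e her
    have hC := tw_C H hp hr (Ne.symm hrp) hM hS1 hpM hrS hnoM hz hgood her
    have hCS := hC.odd
    -- the commutator is in `R`
    have hRinv : ∀ w ∈ R, (⟨z, hzT⟩ : T)⁻¹ * w * ⟨z, hzT⟩ ∈ R :=
      tw_comm_good_inv hp.pos (Subtype.ext (by simpa using hzp)) hRu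
    have hmem : e⁻¹ * ((⟨z, hzT⟩ : T)⁻¹ * e * ⟨z, hzT⟩) ∈ R :=
      R.mul_mem (R.inv_mem heR) (hRinv e heR)
    obtain ⟨l, hl⟩ := hRr ⟨_, hmem⟩
    have hl' : ((e : G)⁻¹ * (z⁻¹ * (e : G) * z)) ^ (r ^ l) = 1 := by
      have h3 := congrArg (fun w : R => ((w : T) : G)) hl
      simpa using h3
    have hcop : Nat.Coprime S (r ^ l) :=
      Nat.Coprime.pow_right l (((Nat.Prime.coprime_iff_not_dvd hr).2 hrS).symm)
    have h1 := tw_one hcop hCS hl'
    apply hne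
    apply Subtype.ext
    have h5 : z⁻¹ * (e : G) * z = (e : G) := by
      rw [inv_mul_eq_one] at h1
      exact h1.symm
    change z * (e : G) = (e : G) * z
    calc z * (e : G) = z * (z⁻¹ * (e : G) * z) := by rw [h5]
      _ = (e : G) * z := by group
  -- end
  have hzc : z * c = c * z := hcent c ⟨hcJ1, hcJ2⟩
  have hyc : z⁻¹ * y * z = y * c := by rw [hc]; group
  have hzck : ∀ k : ℕ, z⁻¹ * c ^ k * z = c ^ k := by
    intro k
    have h3 : z * c ^ k = c ^ k * z := (Commute.pow_right (show Commute z c from hzc) k)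
    rw [mul_assoc, ← h3, inv_mul_cancel_left]
  have hk : ∀ k : ℕ, (z ^ k)⁻¹ * y * z ^ k = y * c ^ k := by
    intro k
    induction k with
    | zero => simp
    | succ k ih =>
      calc (z ^ (k + 1))⁻¹ * y * z ^ (k + 1) = z⁻¹ * ((z ^ k)⁻¹ * y * z ^ k) * z := by
            rw [pow_succ]; group
        _ = (z⁻¹ * y * z) * (z⁻¹ * c ^ k * z) := by rw [ih]; group
        _ = y * c * c ^ k := by rw [hyc, hzck]
        _ = y * c ^ (k + 1) := by rw [pow_succ', mul_assoc]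
  have hcp : c ^ p = 1 := by
    have h3 := hk p
    rw [hzp, inv_one, one_mul, mul_one] at h3
    exact (mul_eq_left.1 h3.symm)
  have hcM : c ^ M = 1 := h24 c hcJ2
  have hc1 : c = 1 := tw_one ((Nat.Prime.coprime_iff_not_dvd hp).2 hpM).symm hcM hcp
  rw [hc1, mul_one] at hyc
  calc z * y = z * (z⁻¹ * y * z) := by rw [hyc]
    _ = y * z := by group

end Pool.Agent.Lib.MP_544bd1_al
end

section

/-!
Theorem G' (paper 275): the theorem.
-/

namespace Pool.Agent.Lib.MP_544bd1_al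

open Subgroup

/-- `InNC` along an injective homomorphism -/
theorem gp_InNC_map {E E' : Type} [Group E] [Group E'] (f : E' →* E) {L : Subgroup E'} {z w : E'}
    (h : InNC L z w) : InNC (L.map f) (f z) (f w) := by
  intro N hz hN
  exact h (N.comap f) hz (fun t ht x hx => by
    rw [Subgroup.mem_comap] at hx ⊢
    rw [map_mul, map_mul, map_inv]
    exact hN _ ⟨t, ht, rfl⟩ _ hx)

/-- **Theorem G'** (paper 275).

Proof. By contradiction; `gp_level`: `c, T, h`; in the group `F := T`: `Q, Q₁` from `gp_Q`. If `Q` is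
abelian: `gp_gen`: `y, k` in `F` with `GpB y`, `closure {y, k⁻¹ * y * k} = ⊤`; `gp_norm` for `y`: `v ∈ Q`
with `(v * y) ^ (r ^ c) ∉ Q₁`, so `≠ 1`. `gp_caseA` for the images in `G` (`V₁ := Q.map T.subtype`;
images of closures: `MonoidHom.map_closure`, `Set.image_pair`). Otherwise `gp_B_data`, and `gp_caseB`
for the images in `G` (`GpE.map`, `gp_InNC_map`; `gpN` commutes with homomorphisms). -/
theorem gp_good {G : Type} [Group G] {n M r b : ℕ} (H : TwG n G) (hr : r.Prime) (hr5 : 5 ≤ r)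
    (hb : 0 < b) (hn : n = M * r ^ b) (hrM : ¬ r ∣ M)
    (hnum : ∀ t : ℕ, t.Prime → t ∣ M → ∀ j s : ℕ, 1 ≤ j → j ≤ b → 0 < s → t ^ s + 1 ≠ r ^ j)
    (hno : NoN M G) (hno' : NoN (r ^ b) G) {z : G} (hz : z ^ r = 1) : GoodS M (r ^ b) z := by
  by_contra hbad
  obtain ⟨c, hc, hcb, htop, T, hT, D, h, hB⟩ := gp_level H hr hr5 hb hn hrM hnum hz hbad
  obtain ⟨Q, Q₁, DQ⟩ := gp_Q D hB
  have hinj := T.subtype_injective
  by_cases hab : ∀ x ∈ Q, ∀ y ∈ Q, x * y = y * x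
  · obtain ⟨y, k, hy, hk⟩ := gp_gen D hB DQ hab
    obtain ⟨v, hv, hv1⟩ := gp_norm D hy DQ
    have hcl : (closure {y, k⁻¹ * y * k}).map T.subtype =
        closure {(y : G), (k : G)⁻¹ * y * k} := by
      rw [MonoidHom.map_closure, Set.image_pair]
      rfl
    have hcl2 : (closure {y, k}).map T.subtype = closure {(y : G), (k : G)} := by
      rw [MonoidHom.map_closure, Set.image_pair]
      rfl
    have hall : ∀ x : T, x ∈ closure {y, k⁻¹ * y * k} := by
      intro x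
      rw [hk]
      trivial
    have hle : closure {y, k⁻¹ * y * k} ≤ closure {y, k} := by
      rw [closure_le]
      have h1 : y ∈ closure {y, k} := subset_closure (by simp)
      have h2 : k ∈ closure {y, k} := subset_closure (by simp)
      rintro x (rfl | rfl)
      · exact h1
      · exact mul_mem (mul_mem (inv_mem h2) h1) h2
    have hfQ : Finite (Q.map T.subtype) :=
      Set.Finite.to_subtype (Set.Finite.image _ (Set.toFinite (Q : Set T)))
    refine gp_caseA H hr hr5 hc hcb hn hrM hno hno' htop (h := (y : G)) (v := (v : G))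
      (k := (k : G)) ?_ (Q.map T.subtype) ?_ ?_ ⟨v, hv, rfl⟩ ?_ ?_ ?_ ?_
    · have := congrArg (fun t : T => (t : G)) hy.1
      simpa using this
    · rintro _ ⟨x, hx, rfl⟩ _ ⟨x', hx', rfl⟩
      exact congrArg (fun t : T => (t : G)) (hab x hx x' hx')
    · rintro _ ⟨x, hx, rfl⟩
      have := congrArg (fun t : T => (t : G)) (DQ.exp x hx)
      simpa using this
    · rintro _ ⟨x, hx, rfl⟩
      exact ⟨y * x * y⁻¹, DQ.nQ.conj_mem x hx y, rfl⟩
    · intro h1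
      apply hv1
      have h2 : (v * y) ^ (r ^ c) = 1 := Subtype.ext (by simpa using h1)
      rw [h2]
      exact Q₁.one_mem
    · rw [← hcl]
      exact ⟨k, hall k, rfl⟩
    · rw [← hcl2]
      exact ⟨v, hle (hall v), rfl⟩
  · push Not at hab
    obtain ⟨u, k, w, ρ, Q', A, E, hu, hk, hwk, hρ, hQρ, hwρ, hcomm, hN4⟩ :=
      gp_B_data D hB DQ hab
    have hcl : ∀ a b : T, (closure {a, b}).map T.subtype = closure {(a : G), (b : G)} := by
      intro a b
      rw [MonoidHom.map_closure, Set.image_pair]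
      rfl
    have hfQ : Finite (Q'.map T.subtype) :=
      Set.Finite.to_subtype (Set.Finite.image _ (Set.toFinite (Q' : Set T)))
    refine gp_caseB H hr hc hcb hn hrM hno hno' htop (u := (u : G)) (k := (k : G)) (w := (w : G))
      (ρ := (ρ : G)) (Q' := Q'.map T.subtype) (A := A.map T.subtype)
      (E.map T.subtype hinj) ?_ ?_ ?_ ?_ ?_ ?_ ?_ ?_
    · have := congrArg (fun t : T => (t : G)) hu
      simpa using this
    · have h1 := hcl u (k⁻¹ * u * k)
      have h2 : (k : G) ∈ (closure {u, k⁻¹ * u * k}).map T.subtype := ⟨k, hk, rfl⟩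
      rw [h1] at h2
      exact h2
    · have h1 := gp_InNC_map T.subtype hwk
      rw [hcl] at h1
      simpa using h1
    · have := congrArg (fun t : T => (t : G)) hρ
      simpa using this
    · rw [← hcl]
      exact Subgroup.map_mono hQρ
    · have h1 := gp_InNC_map T.subtype hwρ
      rw [hcl] at h1
      simpa using h1
    · exact congrArg (fun t : T => (t : G)) hcomm
    · intro h1
      apply hN4
      intro x hx
      obtain ⟨a, ha, hax⟩ := h1 (x : G) ⟨x, hx, rfl⟩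
      have h2 : a = gpN (u ^ (r ^ (c - 1))) (gpN (u ^ (r ^ (c - 1))) (gpN (u ^ (r ^ (c - 1)))
        (gpN (u ^ (r ^ (c - 1))) x))) := by
        apply hinj
        rw [hax]
        simp [gpN]
      rw [← h2]
      exact ha

end Pool.Agent.Lib.MP_544bd1_al
end

section

/-!
Theorem G' (paper 275): all odd exponents.
-/

namespace Pool.Agent.Lib.MP_544bd1_al

open Subgroup

/-- **An abelian normal subgroup.**

Proof. Copy the proof of `tw_exists_abelian` (TwP2.lean), with `gp_comm_good` instead of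
`tw_comm_good'`. `hs` of `gp_comm_good`: `5 ≤ s`: `s ≠ 2` (`n` odd), `s ≠ 3` by `h3`, `s ≠ 4`;
`gp_good` (`M := S`, `r := s`, `b := k`; `0 < k` since `s ∣ n`, `¬ s ∣ S`; `hnum` by parity: `t ∣ S` is
odd, `t ^ j' + 1` is even, `s ^ j` is odd); `NoN S G`: `tw_exists_abelian_noN` (TwP2.lean; if
`x ^ S = 1` for all `x ∈ K` then `x ^ (n / s) = 1`, `S ∣ n / s`); `NoN (s ^ k) G`: if `K` is normal with
`x ^ (s ^ k) = 1`, `K ≠ ⊥`: apply `hno` to `K` and the prime `p` (`p ≠ s`): `s ^ k ∣ n / p` (as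
`p ∤ s ^ k`), so `x ^ (n / p) = 1` for all `x ∈ K`, contradiction. -/
theorem gp_exists_abelian {G : Type} [Group G] [Nontrivial G] {n p q : ℕ} (H : TwG n G)
    (hodd : Odd n) (hp : p.Prime) (hq : q.Prime) (hpq : p ≠ q) (hpn : p ∣ n) (hqn : q ∣ n)
    (h3 : 3 ∣ n → p = 3 ∨ q = 3)
    (hno : ∀ K : Subgroup G, K.Normal → K ≠ ⊥ → ∀ s : ℕ, s.Prime → s ∣ n →
      ∃ x ∈ K, x ^ (n / s) ≠ 1) :
    ∃ K : Subgroup G, K.Normal ∧ K ≠ ⊥ ∧ ∀ x ∈ K, ∀ w ∈ K, x * w = w * x := by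
  obtain ⟨M, a, ha, hM, hpM, hdivp⟩ := tw_exists_abelian_decomp H.pos hp hpn
  obtain ⟨N, b, hb, hN, hqN, hdivq⟩ := tw_exists_abelian_decomp H.pos hq hqn
  have hnoM : NoN M G := tw_exists_abelian_noN hp hpn hdivp hno
  have hnoN : NoN N G := tw_exists_abelian_noN hq hqn hdivq hno
  have hs : ∀ s : ℕ, s.Prime → s ≠ p → s ≠ q → s ∣ n → ∀ S k : ℕ, n = S * s ^ k → ¬ s ∣ S →
      ∀ e : G, e ^ s = 1 → GoodS S (s ^ k) e := by
    intro s hs hsp hsq hsn S k hn hsS e he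
    have hsodd : Odd s := Odd.of_dvd_nat hodd hsn
    have hs5 : 5 ≤ s := by
      have h2 := hs.two_le
      have hs2 : s ≠ 2 := by
        rintro rfl
        exact absurd hsodd (by decide)
      have hs3 : s ≠ 3 := by
        rintro rfl
        rcases h3 hsn with h | h
        · exact hsp h.symm
        · exact hsq h.symm
      have hs4 : s ≠ 4 := by
        rintro rfl
        exact absurd hs (by decide)
      omega
    have hk : 0 < k := by
      rcases Nat.eq_zero_or_pos k with h | h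
      · rw [h, pow_zero, mul_one] at hn
        rw [hn] at hsn
        exact absurd hsn hsS
      · exact h
    refine gp_good H hs hs5 hk hn hsS ?_ ?_ ?_ he
    · intro t ht htS j r _ _ _ heq
      have htodd : Odd t := Odd.of_dvd_nat hodd (htS.trans ⟨s ^ k, hn⟩)
      have h1 : Odd (s ^ j) := hsodd.pow
      have h2 : Even (t ^ r + 1) := (htodd.pow).add_one
      rw [heq] at h2
      exact (Nat.not_even_iff_odd.2 h1) h2
    · refine tw_exists_abelian_noN (a := k) hs hsn ?_ hno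
      apply Nat.div_eq_of_eq_mul_left hs.pos
      rw [hn, mul_assoc, ← pow_succ, Nat.sub_add_cancel hk]
    · intro K hK hKs
      by_contra hne
      obtain ⟨x, hx, hx1⟩ := hno K hK hne p hp hpn
      apply hx1
      have hcop : Nat.Coprime (s ^ k) p := ((Nat.coprime_primes hs hp).2 hsp).pow_left k
      have hdvd : s ^ k ∣ n / p * p := by
        rw [Nat.div_mul_cancel hpn, hn]
        exact dvd_mul_left _ _
      obtain ⟨j, hj⟩ := hcop.dvd_of_dvd_mul_right hdvd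
      rw [hj, pow_mul, hKs x hx, one_pow]
  obtain ⟨A, hA⟩ : ∃ A : Set G, A = {z | GoodS M (p ^ a) z ∧ z ^ p = 1 ∧ z ≠ 1} := ⟨_, rfl⟩
  obtain ⟨K, hKdef⟩ : ∃ K : Subgroup G, K = normalClosure A := ⟨_, rfl⟩
  have hKn : K.Normal := by rw [hKdef]; exact normalClosure_normal
  have hAK : A ⊆ K := by rw [hKdef]; exact subset_normalClosure
  have hKb : K ≠ ⊥ := by
    obtain ⟨z, -, hz⟩ := tw_exists_abelian_meet H hodd hp hpn ha hM hpM hdivp hno ⊤ inferInstance
      top_ne_bot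
    have hzA : z ∈ A := by rw [hA]; exact hz
    intro hbot
    have h1 := hAK hzA
    rw [hbot] at h1
    exact hz.2.2 (Subgroup.mem_bot.1 h1)
  obtain ⟨y, hyK, hygood, hyq, hy1⟩ := tw_exists_abelian_meet H hodd hq hqn hb hN hqN hdivq hno K
    hKn hKb
  have hyc : ∀ x ∈ K, x * y = y * x := by
    have hle : K ≤ centralizer {y} := by
      rw [hKdef, normalClosure, closure_le]
      intro x hx
      rw [Group.mem_conjugatesOfSet_iff] at hx
      obtain ⟨z, hz, hzx⟩ := hx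
      rw [hA] at hz
      obtain ⟨c, hc⟩ := isConj_iff.1 hzx
      have hx' : x = (c⁻¹)⁻¹ * z * c⁻¹ := by rw [inv_inv, hc]
      have hgood : GoodS M (p ^ a) x := by
        rw [hx']
        exact hz.1.conj c⁻¹
      have hxp : x ^ p = 1 := by
        rw [← hc, conj_pow, hz.2.1, mul_one, mul_inv_cancel]
      have h1 := gp_comm_good H hodd hp hq hpq hM hN hpM hqN hs hnoM hnoN hgood hxp hygood hyq
      rw [SetLike.mem_coe, mem_centralizer_singleton_iff]
      exact h1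
    intro x hx
    have := hle hx
    rw [mem_centralizer_singleton_iff] at this
    exact this
  refine ⟨K ⊓ centralizer (K : Set G), ?_, ?_, ?_⟩
  · have h1 : (centralizer (K : Set G)).Normal := inferInstance
    exact Subgroup.normal_inf_normal _ _
  · intro hbot
    have h1 : y ∈ K ⊓ centralizer (K : Set G) := by
      have h2 : y ∈ centralizer (K : Set G) := by
        rw [mem_centralizer_iff]
        intro x hx
        exact hyc x hx
      exact ⟨hyK, h2⟩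
    rw [hbot] at h1
    exact hy1 (Subgroup.mem_bot.1 h1)
  · intro x hx w hw
    have hx' : x ∈ centralizer (K : Set G) := (mem_inf.1 hx).2
    rw [mem_centralizer_iff] at hx'
    exact (hx' w (mem_inf.1 hw).1).symm

/-- **All odd exponents.**

Proof. Copy the proof of `tw_odd` (TwQ.lean), without the hypothesis `hcond`: if `n` is not a prime
power and `n > 1`, there are primes `p ≠ q` dividing `n` with `3 ∈ {p, q}` if `3 ∣ n` (take `p = 3` if
`3 ∣ n`, otherwise any prime divisor `p`; `n` is not a power of `p`, so there is a prime `q ≠ p`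
dividing `n`), and `gp_exists_abelian` replaces both uses of `tw_exists_abelian` and
`tw_exists_abelian3`. -/
theorem gp_odd (n₀ : ℕ) (hn₀ : 0 < n₀) (n : ℕ) : n ∣ n₀ → Odd n →
    ∀ (G : Type) [Group G], TwG n G → PSec n₀ G → LF (⊤ : Subgroup G) := by
  induction n using Nat.strong_induction_on with
  | _ n ih =>
  intro hnn₀ hodd G _ H hps
  have hnpos : 0 < n := H.pos
  apply LF_of_quotients
  intro N hN hNtop
  have hnt : Nontrivial (G ⧸ N) := by
    by_contra h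
    rw [not_nontrivial_iff_subsingleton] at h
    exact hNtop (QuotientGroup.subgroup_eq_top_of_subsingleton N h)
  have hsurj := QuotientGroup.mk'_surjective N
  have HQ : TwG n (G ⧸ N) := H.quotient _ hsurj
  have hpsQ : PSec n₀ (G ⧸ N) := hps.of_surjective _ hsurj
  by_cases hno : ∀ K : Subgroup (G ⧸ N), K.Normal → K ≠ ⊥ → ∀ s : ℕ, s.Prime → s ∣ n →
      ∃ x ∈ K, x ^ (n / s) ≠ 1
  · by_cases hpp : ∀ p k : ℕ, p.Prime → n ≠ p ^ k
    · have h1 : 1 < n := by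
        by_contra h
        have h2 : n = 1 := by omega
        exact hpp 2 0 Nat.prime_two (by rw [h2, pow_zero])
      obtain ⟨p, q, hp, hq, hpq, hpn, hqn, h3⟩ : ∃ p q : ℕ, p.Prime ∧ q.Prime ∧ p ≠ q ∧ p ∣ n ∧
          q ∣ n ∧ (3 ∣ n → p = 3 ∨ q = 3) := by
        obtain ⟨p, hp, hpn, hp3⟩ : ∃ p : ℕ, p.Prime ∧ p ∣ n ∧ (3 ∣ n → p = 3) := by
          by_cases h3 : 3 ∣ n
          · exact ⟨3, Nat.prime_three, h3, fun _ => rfl⟩
          · obtain ⟨p, hp, hpn⟩ := Nat.exists_prime_and_dvd (show n ≠ 1 by omega)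
            exact ⟨p, hp, hpn, fun h => absurd h h3⟩
        obtain ⟨q, hq, hqn, hpq⟩ : ∃ q : ℕ, q.Prime ∧ q ∣ n ∧ p ≠ q := by
          obtain ⟨a, M, hM, hn'⟩ := Nat.exists_eq_pow_mul_and_not_dvd hnpos.ne' p hp.ne_one
          have hM1 : M ≠ 1 := by
            rintro rfl
            exact hpp p a hp (by rw [hn', mul_one])
          obtain ⟨q, hq, hqM⟩ := Nat.exists_prime_and_dvd hM1
          refine ⟨q, hq, by rw [hn']; exact hqM.mul_left _, ?_⟩
          rintro rfl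
          exact hM hqM
        exact ⟨p, q, hp, hq, hpq, hpn, hqn, fun h => Or.inl (hp3 h)⟩
      obtain ⟨K, hK1, hK2, hK3⟩ := gp_exists_abelian HQ hodd hp hq hpq hpn hqn h3 hno
      exact ⟨K, hK1, hK2, tw_LF_abelian hnpos HQ.hexp K hK3⟩
    · push Not at hpp
      obtain ⟨p, k, hp, hk⟩ := hpp
      have hk0 : k ≠ 0 := by
        rintro rfl
        rw [pow_zero] at hk
        obtain ⟨x, y, hxy⟩ := hnt
        apply hxy
        have hx := HQ.hexp x
        have hy := HQ.hexp y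
        rw [hk, pow_one] at hx hy
        rw [hx, hy]
      have hpn : p ∣ n₀ := (dvd_trans (by rw [hk]; exact dvd_pow_self p hk0) hnn₀)
      refine ⟨⊤, inferInstance, ?_, ?_⟩
      · intro h
        exact bot_ne_top h.symm
      · apply LF_of_top
        refine hpsQ _ ⊤ (MonoidHom.id _) (fun x => ⟨x, rfl⟩) p hp hpn ?_
        intro x
        apply Subtype.ext
        rw [SubgroupClass.coe_pow]
        have h1 : n ∣ p ^ n₀.factorization p := by
          rw [hk]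
          apply pow_dvd_pow
          rw [← Nat.Prime.pow_dvd_iff_le_factorization hp hn₀.ne', ← hk]
          exact hnn₀
        obtain ⟨j, hj⟩ := h1
        rw [hj, pow_mul, HQ.hexp, one_pow]
        rfl
  · push Not at hno
    obtain ⟨K, hK1, hK2, s, hs, hsn, hK3⟩ := hno
    refine ⟨K, hK1, hK2, LF_of_top ?_⟩
    have hlt : n / s < n := Nat.div_lt_self hnpos hs.one_lt
    have hdvd : n / s ∣ n := Nat.div_dvd_of_dvd hsn
    have hpos : 0 < n / s := Nat.div_pos (Nat.le_of_dvd hnpos hsn) hs.pos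
    apply ih (n / s) hlt (hdvd.trans hnn₀) (hodd.of_dvd_nat hdvd) K
    · exact (HQ.sub K).of_exp hpos (fun x => Subtype.ext (by simpa using hK3 x x.2))
    · exact hpsQ.of_injective K.subtype K.subtype_injective

end Pool.Agent.Lib.MP_544bd1_al
end

section

/-!
Theorem G' (paper 275): the theorem on odd divisors, without any condition.
-/

namespace Pool.Agent.Lib.MP_544bd1_al

/-- **the theorem on odd divisors, for all `n`** -/
theorem oddT_all {n : ℕ} (hn : 0 < n) : OddT n :=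
  fun m hmn hodd G _ H hps => gp_odd n hn m hmn hodd G H hps

end Pool.Agent.Lib.MP_544bd1_al
end
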