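import Mathlib
import Pool.Agent.Lib.MP_544bd1_al.FrB

/-!
Theorem Z3: commuting involutions acting on an odd group.
-/

namespace Pool.Agent.Lib.MP_544bd1_al

open Subgroup

/-- conjugation by `x` on the subgroup `A` -/
private def ztC {F : Type} [Group F] (A : Subgroup F) (x : F) (h : ∀ g ∈ A, x * g * x⁻¹ ∈ A) : A →* A where
  toFun a := ⟨x * a * x⁻¹, h a a.2⟩
  map_one' := by
    apply Subtype.ext
    show x * 1 * x⁻¹ = 1
    group
  map_mul' a b := by
    apply Subtype.ext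
    show x * (a * b) * x⁻¹ = (x * a * x⁻¹) * (x * b * x⁻¹)
    group

private theorem ztC_coe {F : Type} [Group F] (A : Subgroup F) (x : F) (h : ∀ g ∈ A, x * g * x⁻¹ ∈ A) (a : A) :
    ((ztC A x h a : A) : F) = x * a * x⁻¹ := rfl

/-- **(f3)** `x` acts on the odd group `A` as an involution commuting with the involution `z`, which
acts nontrivially. Then some `e ≠ 1` is inverted by `z` and centralized or inverted by `x`.

Proof. `fr_F3_aux` (FrF.lean) in the group `↥A` with `X`, `Z : A →* A` the conjugations by `x`, `z`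
(`A := ⊤`): `X (X a) = a` by `hx2`. -/
theorem zt_f3 {m : ℕ} (hm : Odd m) {F : Type} [Group F] (A : Subgroup F) (hA : ∀ g ∈ A, g ^ m = 1)
    {x z : F} (hxA : ∀ g ∈ A, x * g * x⁻¹ ∈ A) (hzA : ∀ g ∈ A, z * g * z⁻¹ ∈ A)
    (hx2 : ∀ g ∈ A, x ^ 2 * g = g * x ^ 2) (hz2 : z ^ 2 = 1) (hxz : x * z = z * x)
    (hne : ∃ g ∈ A, z * g ≠ g * z) :
    ∃ e ∈ A, e ≠ 1 ∧ z * e * z⁻¹ = e⁻¹ ∧ (x * e * x⁻¹ = e ∨ x * e * x⁻¹ = e⁻¹) := by
  obtain ⟨g, hg, hzg⟩ := hne
  have hzz : z * z = 1 := by rw [← pow_two]; exact hz2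
  obtain ⟨e, -, h1, h2, h3⟩ := fr_F3_aux (G := A) (X := ztC A x hxA) (Z := ztC A z hzA) hm ⊤
    (fun a _ => Subtype.ext (hA a a.2))
    (fun a => by
      apply Subtype.ext
      rw [ztC_coe, ztC_coe]
      calc x * (x * (a : F) * x⁻¹) * x⁻¹ = (x ^ 2 * a) * (x ^ 2)⁻¹ := by rw [pow_two]; group
        _ = a := by rw [hx2 a a.2]; group)
    (fun a => by
      apply Subtype.ext
      rw [ztC_coe, ztC_coe]
      calc z * (z * (a : F) * z⁻¹) * z⁻¹ = (z * z) * a * (z * z)⁻¹ := by group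
        _ = a := by rw [hzz]; group)
    (fun a => by
      apply Subtype.ext
      rw [ztC_coe, ztC_coe, ztC_coe, ztC_coe]
      calc x * (z * (a : F) * z⁻¹) * x⁻¹ = (x * z) * a * (x * z)⁻¹ := by group
        _ = (z * x) * a * (z * x)⁻¹ := by rw [hxz]
        _ = z * (x * a * x⁻¹) * z⁻¹ := by group)
    (fun _ _ => Subgroup.mem_top _) (fun _ _ => Subgroup.mem_top _) (a := ⟨g, hg⟩) (Subgroup.mem_top _)
    (fun h => by
      apply hzg
      have h4 : z * g * z⁻¹ = g := congrArg Subtype.val h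
      calc z * g = (z * g * z⁻¹) * z := by group
        _ = g * z := by rw [h4])
  refine ⟨e, e.2, fun h => h1 (Subtype.ext h), congrArg Subtype.val h2, ?_⟩
  rcases h3 with h3 | h3
  · exact Or.inl (congrArg Subtype.val h3)
  · exact Or.inr (congrArg Subtype.val h3)

/-- **One step of the chain.** `A` odd, normalized by `x`, `z`, `μ`, `x ^ 2` centralizes `A`, `z` is an
involution commuting with `x` and `μ`, `μ⁻¹ * x * μ = x * z`, `z` acts nontrivially on `A`. Then `z`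
acts nontrivially on the centralizer of `x` in `A`.

Proof. `zt_f3`: `e ∈ A`, `e ≠ 1`, inverted by `z`. If `x * e * x⁻¹ = e`, take `g = e`. If
`x * e * x⁻¹ = e⁻¹` then `x * z` centralizes `e`; take `g = μ * e * μ⁻¹`: `μ⁻¹ * x * μ = x * z`
centralizes `e`, so `x` centralizes `g`; `z` inverts `g`. (`z * e ≠ e * z` because `e ^ 2 = 1`,
`e ^ m = 1` would give `e = 1`, `fr_one_two`.) -/
theorem zt_swap {m : ℕ} (hm : Odd m) {F : Type} [Group F] (A : Subgroup F)
    (hA : ∀ g ∈ A, g ^ m = 1) {x z μ : F} (hxA : ∀ g ∈ A, x * g * x⁻¹ ∈ A)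
    (hzA : ∀ g ∈ A, z * g * z⁻¹ ∈ A) (hμA : ∀ g ∈ A, μ * g * μ⁻¹ ∈ A)
    (hx2 : ∀ g ∈ A, x ^ 2 * g = g * x ^ 2) (hz2 : z ^ 2 = 1) (hxz : x * z = z * x)
    (hμz : μ * z = z * μ) (hμ : μ⁻¹ * x * μ = x * z) (hne : ∃ g ∈ A, z * g ≠ g * z) :
    ∃ g ∈ A, x * g = g * x ∧ z * g ≠ g * z := by
  obtain ⟨e, heA, he1, hze, hxe⟩ := zt_f3 hm A hA hxA hzA hx2 hz2 hxz hne
  have hzne : z * e ≠ e * z := by
    intro h
    have h1 : z * e * z⁻¹ = e := by rw [h]; group
    rw [hze] at h1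
    apply he1
    refine fr_one_two hm (hA e heA) ?_
    calc e ^ 2 = e * e := pow_two e
      _ = e * e⁻¹ := by rw [h1]
      _ = 1 := mul_inv_cancel e
  rcases hxe with h | h
  · refine ⟨e, heA, ?_, hzne⟩
    calc x * e = (x * e * x⁻¹) * x := by group
      _ = e * x := by rw [h]
  · refine ⟨μ * e * μ⁻¹, hμA e heA, ?_, ?_⟩
    · have hxzc : (x * z) * e * (x * z)⁻¹ = e := by
        calc (x * z) * e * (x * z)⁻¹ = x * (z * e * z⁻¹) * x⁻¹ := by group
          _ = x * e⁻¹ * x⁻¹ := by rw [hze]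
          _ = (x * e * x⁻¹)⁻¹ := by group
          _ = e := by rw [h, inv_inv]
      have h1 : x * μ = μ * (x * z) := by
        calc x * μ = μ * (μ⁻¹ * x * μ) := by group
          _ = μ * (x * z) := by rw [hμ]
      have h2 : (x * z) * e = e * (x * z) := by
        calc (x * z) * e = ((x * z) * e * (x * z)⁻¹) * (x * z) := by group
          _ = e * (x * z) := by rw [hxzc]
      calc x * (μ * e * μ⁻¹) = (x * μ) * e * μ⁻¹ := by group
        _ = μ * ((x * z) * e) * μ⁻¹ := by rw [h1]; group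
        _ = μ * e * (μ⁻¹ * (μ * (x * z))) * μ⁻¹ := by rw [h2]; group
        _ = μ * e * (μ⁻¹ * (x * μ)) * μ⁻¹ := by rw [← h1]
        _ = μ * e * μ⁻¹ * x := by group
    · intro h1
      apply hzne
      have h2 : μ⁻¹ * z = z * μ⁻¹ := by
        calc μ⁻¹ * z = μ⁻¹ * (z * μ) * μ⁻¹ := by group
          _ = μ⁻¹ * (μ * z) * μ⁻¹ := by rw [hμz]
          _ = z * μ⁻¹ := by group
      have h3 : μ * (z * e) * μ⁻¹ = μ * (e * z) * μ⁻¹ := by
        calc μ * (z * e) * μ⁻¹ = (μ * z) * e * μ⁻¹ := by group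
          _ = (z * μ) * e * μ⁻¹ := by rw [hμz]
          _ = z * (μ * e * μ⁻¹) := by group
          _ = μ * e * μ⁻¹ * z := h1
          _ = μ * e * (μ⁻¹ * z) := by group
          _ = μ * e * (z * μ⁻¹) := by rw [h2]
          _ = μ * (e * z) * μ⁻¹ := by group
      exact mul_left_cancel (mul_right_cancel h3)

end Pool.Agent.Lib.MP_544bd1_al
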