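import Mathlib
import Pool.Agent.Lib.MP_544bd1_al.ZtF3
import Pool.Agent.Lib.MP_544bd1_al.FrB
import Pool.Agent.Lib.MP_544bd1_al.TwA

section

/-!
Theorem Z3: elementary abelian groups acting on an odd group.
-/

namespace Pool.Agent.Lib.MP_544bd1_al

open Subgroup

/-- **(f3) for elementary abelian groups.**

Proof. `P` is commutative (exponent 2). For a finite set `s ⊆ P` (`Finset.induction_on`; `P` is
finite) there is a subgroup `B ≤ A`, normalized by `P`, not centralized by `z`, such that for each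
`p ∈ s` one of `p`, `p * z` centralizes `B`: for `insert p s` apply `zt_f3` to `B`, `x := p`: `e ∈ B`;
if `p * e * p⁻¹ = e` replace `B` by `{g ∈ B | p * g = g * p}` (it contains `e`, and
`z * e ≠ e * z` since `z * e * z⁻¹ = e⁻¹ ≠ e`: `e ^ 2 = 1` and `e ^ m = 1` would give `e = 1`); if
`p * e * p⁻¹ = e⁻¹` then `p * z` centralizes `e`: replace `B` by `{g ∈ B | p * z * g = g * (p * z)}`.
Take `s = P`, `g ∈ B` with `z * g ≠ g * z`, `e = g⁻¹ * (z * g * z⁻¹) ∈ B`: inverted by `z`,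
`e ≠ 1`; if `p` centralizes `B`, `p * e * p⁻¹ = e`, if `p * z` does,
`p * e * p⁻¹ = z⁻¹ * e * z = e⁻¹`. -/
theorem zt_f3P {m : ℕ} (hm : Odd m) {F : Type} [Group F] [Finite F] (A P : Subgroup F)
    (hA : ∀ g ∈ A, g ^ m = 1) (hP : ∀ p ∈ P, p ^ 2 = 1) (hPA : ∀ p ∈ P, ∀ g ∈ A, p * g * p⁻¹ ∈ A)
    {z : F} (hz : z ∈ P) (hne : ∃ g ∈ A, z * g ≠ g * z) :
    ∃ e ∈ A, e ≠ 1 ∧ z * e * z⁻¹ = e⁻¹ ∧ ∀ p ∈ P, p * e * p⁻¹ = e ∨ p * e * p⁻¹ = e⁻¹ := by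
  classical
  have hpi : ∀ p ∈ P, p⁻¹ = p := fun p hp => fr_inv_of_sq (hP p hp)
  have hcomm : ∀ p ∈ P, ∀ q ∈ P, p * q = q * p := by
    intro p hp q hq
    have h1 := hpi _ (P.mul_mem hp hq)
    rw [mul_inv_rev, hpi p hp, hpi q hq] at h1
    exact h1.symm
  have hz2 := hP z hz
  have hzz : z * z = 1 := fr_mul_self hz2
  have hzi : z⁻¹ = z := hpi z hz
  -- an element inverted by `z` and not trivial does not commute with `z`
  have hinv : ∀ e : F, e ^ m = 1 → e ≠ 1 → z * e * z⁻¹ = e⁻¹ → z * e ≠ e * z := by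
    intro e hem he1 hze h1
    apply he1
    apply fr_one_two hm hem
    rw [h1, mul_inv_cancel_right] at hze
    rw [pow_two]
    nth_rewrite 1 [hze]
    exact inv_mul_cancel e
  have key : ∀ s : Finset F, (∀ p ∈ s, p ∈ P) → ∃ B : Subgroup F, B ≤ A ∧
      (∀ p ∈ P, ∀ g ∈ B, p * g * p⁻¹ ∈ B) ∧ (∃ g ∈ B, z * g ≠ g * z) ∧
      ∀ p ∈ s, (∀ g ∈ B, p * g = g * p) ∨ (∀ g ∈ B, p * z * g = g * (p * z)) := by
    intro s
    induction s using Finset.induction_on with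
    | empty => intro _; exact ⟨A, le_rfl, hPA, hne, by simp⟩
    | insert p s _ ih =>
      intro hs
      obtain ⟨B, hBA, hBP, hBne, hBs⟩ := ih (fun q hq => hs q (Finset.mem_insert_of_mem hq))
      have hpP : p ∈ P := hs p (Finset.mem_insert_self _ _)
      obtain ⟨e, heB, he1, hze, hpe⟩ := zt_f3 hm B (fun g hg => hA g (hBA hg)) (x := p) (z := z)
        (hBP p hpP) (hBP z hz) (fun g _ => by rw [hP p hpP, one_mul, mul_one]) hz2
        (hcomm p hpP z hz) hBne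
      have hem : e ^ m = 1 := hA e (hBA heB)
      have hzne := hinv e hem he1 hze
      -- the centralizer of `q ∈ P` in `B`
      have hcen : ∀ q ∈ P, q * e = e * q → ∃ C : Subgroup F, C ≤ B ∧
          (∀ p' ∈ P, ∀ g ∈ C, p' * g * p'⁻¹ ∈ C) ∧ (∃ g ∈ C, z * g ≠ g * z) ∧
          ∀ g ∈ C, q * g = g * q := by
        intro q hq hqe
        refine ⟨B ⊓ centralizer {q}, inf_le_left, ?_, ⟨e, Subgroup.mem_inf.2 ⟨heB,
          mem_centralizer_singleton_iff.2 hqe.symm⟩, hzne⟩, ?_⟩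
        · intro p' hp' g hg
          obtain ⟨hg1, hg2⟩ := Subgroup.mem_inf.1 hg
          refine Subgroup.mem_inf.2 ⟨hBP p' hp' g hg1, mem_centralizer_singleton_iff.2 ?_⟩
          rw [mem_centralizer_singleton_iff] at hg2
          have h1 := hcomm p' hp' q hq
          have h2 : p'⁻¹ * q = q * p'⁻¹ := by
            rw [hpi p' hp']; exact h1
          calc p' * g * p'⁻¹ * q = p' * g * (p'⁻¹ * q) := by group
            _ = p' * (g * q) * p'⁻¹ := by rw [h2]; group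
            _ = p' * (q * g) * p'⁻¹ := by rw [hg2]
            _ = (p' * q) * g * p'⁻¹ := by group
            _ = q * (p' * g * p'⁻¹) := by rw [h1]; group
        · intro g hg
          exact (mem_centralizer_singleton_iff.1 (Subgroup.mem_inf.1 hg).2).symm
      rcases hpe with hpe | hpe
      · obtain ⟨C, hCB, hCP, hCne, hCc⟩ := hcen p hpP (mul_inv_eq_iff_eq_mul.1 hpe)
        refine ⟨C, hCB.trans hBA, hCP, hCne, ?_⟩
        intro q hq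
        rcases Finset.mem_insert.1 hq with rfl | hq
        · exact Or.inl hCc
        · rcases hBs q hq with h | h
          · exact Or.inl fun g hg => h g (hCB hg)
          · exact Or.inr fun g hg => h g (hCB hg)
      · have hpz : p * z * e = e * (p * z) := by
          have h1 : z * e = e⁻¹ * z := mul_inv_eq_iff_eq_mul.1 hze
          have h2 : p * e⁻¹ = e * p := by
            have := congrArg (·⁻¹) hpe
            simp only [mul_inv_rev, inv_inv] at this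
            rw [← mul_assoc] at this
            exact mul_inv_eq_iff_eq_mul.1 this
          rw [mul_assoc, h1, ← mul_assoc, h2, mul_assoc]
        obtain ⟨C, hCB, hCP, hCne, hCc⟩ := hcen (p * z) (P.mul_mem hpP hz) hpz
        refine ⟨C, hCB.trans hBA, hCP, hCne, ?_⟩
        intro q hq
        rcases Finset.mem_insert.1 hq with rfl | hq
        · exact Or.inr hCc
        · rcases hBs q hq with h | h
          · exact Or.inl fun g hg => h g (hCB hg)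
          · exact Or.inr fun g hg => h g (hCB hg)
  haveI := Fintype.ofFinite F
  obtain ⟨B, hBA, hBP, ⟨g, hgB, hzg⟩, hB⟩ := key (Finset.univ.filter (· ∈ P))
    (fun p hp => (Finset.mem_filter.1 hp).2)
  have heB : g⁻¹ * (z * g * z⁻¹) ∈ B := B.mul_mem (B.inv_mem hgB) (hBP z hz g hgB)
  have hze : z * (g⁻¹ * (z * g * z⁻¹)) * z⁻¹ = (g⁻¹ * (z * g * z⁻¹))⁻¹ := by
    rw [hzi]
    have e1 : (g⁻¹ * (z * g * z))⁻¹ = z⁻¹ * g⁻¹ * z⁻¹ * g := by group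
    rw [e1, hzi]
    calc z * (g⁻¹ * (z * g * z)) * z = z * g⁻¹ * z * g * (z * z) := by group
      _ = z * g⁻¹ * z * g := by rw [hzz, mul_one]
  refine ⟨g⁻¹ * (z * g * z⁻¹), hBA heB, ?_, hze, ?_⟩
  · intro h1
    have h2 := inv_mul_eq_one.1 h1
    apply hzg
    calc z * g = (z * g * z⁻¹) * z := by group
      _ = g * z := by rw [← h2]
  · intro p hp
    rcases hB p (Finset.mem_filter.2 ⟨Finset.mem_univ _, hp⟩) with h | h
    · left
      rw [h _ heB, mul_inv_cancel_right]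
    · right
      have h1 := h _ heB
      have h2 : p * z * (g⁻¹ * (z * g * z⁻¹)) * (p * z)⁻¹ = g⁻¹ * (z * g * z⁻¹) := by
        rw [h1, mul_inv_cancel_right]
      have h3 : p * z = z * p := hcomm p hp z hz
      rw [h3, mul_inv_rev] at h2
      have h5 : p * (g⁻¹ * (z * g * z⁻¹)) * p⁻¹ = z⁻¹ * (g⁻¹ * (z * g * z⁻¹)) * z := by
        calc p * (g⁻¹ * (z * g * z⁻¹)) * p⁻¹
            = z⁻¹ * (z * p * (g⁻¹ * (z * g * z⁻¹)) * (p⁻¹ * z⁻¹)) * z := by group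
          _ = z⁻¹ * (g⁻¹ * (z * g * z⁻¹)) * z := by rw [h2]
      rw [h5, hzi]
      rw [hzi] at hze
      exact hze

end Pool.Agent.Lib.MP_544bd1_al
end

section

/-!
Theorem Z3: averaging.
-/

namespace Pool.Agent.Lib.MP_544bd1_al

open Subgroup

/-- **Averaging**: an odd group `E` (modulo the kernel of `ρ`) of commuting elements, normalized by
`u` and inverted by `u ^ (2 ^ (a - 1))` (modulo the kernel) acts trivially if the norm of `u` is zero.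

Proof. From `ev_abZ` (EvA.lean, `p := 2`). Let `ρ' : H →* (Module.End (ZMod 2) V)ˣ` be
`ρ.toHomUnits` (or `MonoidHom.toHomUnits`), `E' = E.map ρ'`: a finite commutative group, `y ^ m = 1`
for `y ∈ E'`. Suppose `y ∈ E'`, `y ≠ 1`; let `r` be a prime dividing `orderOf y` (`r ∣ m`, so
`r ≠ 2`), `y₁ = y ^ (orderOf y / r)`, `y₁ ^ r = 1`, `y₁ ≠ 1`, `y₁ ∈ E'`.
`R = {y ∈ E' | y ^ r = 1}` is a subgroup (commutativity), `IsPGroup r R`, normalized by `U = ρ' u`.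
`α : R →* R`, `α y = U * y * U⁻¹`; `LDat (2 ^ a) α (R → End V) (ρ u)`: `hU` clear, `hq` from `hu`,
`hN` from `hN`. `ev_abZ`: `α^[2 ^ (a - 1)] y = y` in `End V`, i.e.
`U ^ (2 ^ (a - 1)) * y * U ^ -(2 ^ (a - 1)) = y` for `y ∈ R`; by `hinv` it is `y⁻¹`
(`y = ρ' x`, `x ∈ E`). So `y₁ ^ 2 = 1`, `y₁ ^ r = 1`, `r` odd, `y₁ = 1`: contradiction. So
`E' = 1`. -/
theorem zt_avg {m a : ℕ} (ha : 0 < a) (hm : Odd m) {V H : Type} [AddCommGroup V]
    [Module (ZMod 2) V] [Finite V] [Group H] [Finite H] (ρ : H →* Module.End (ZMod 2) V)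
    (E : Subgroup H) {u : H} (hE : ∀ x ∈ E, ρ (x ^ m) = 1)
    (hab : ∀ x ∈ E, ∀ y ∈ E, ρ (x * y) = ρ (y * x)) (huE : ∀ x ∈ E, u * x * u⁻¹ ∈ E)
    (hu : ρ (u ^ (2 ^ a)) = 1)
    (hinv : ∀ x ∈ E, ρ (u ^ (2 ^ (a - 1)) * x * (u ^ (2 ^ (a - 1)))⁻¹) = ρ x⁻¹)
    (hN : ∑ i ∈ Finset.range (2 ^ a), (ρ u) ^ i = 0) : ∀ x ∈ E, ρ x = 1 := by
  classical
  intro x₀ hx₀
  by_contra hne
  let ρ' : H →* (Module.End (ZMod 2) V)ˣ := ρ.toHomUnits
  have hρ' : ∀ h, ((ρ' h : (Module.End (ZMod 2) V)ˣ) : Module.End (ZMod 2) V) = ρ h := fun h => rfl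
  let E' : Subgroup (Module.End (ZMod 2) V)ˣ := E.map ρ'
  have hE'c : ∀ y ∈ E', ∀ y' ∈ E', y * y' = y' * y := by
    rintro _ ⟨x, hx, rfl⟩ _ ⟨x', hx', rfl⟩
    apply Units.ext
    rw [← map_mul, ← map_mul, hρ', hρ']
    exact hab x hx x' hx'
  have hE'm : ∀ y ∈ E', y ^ m = 1 := by
    rintro _ ⟨x, hx, rfl⟩
    apply Units.ext
    rw [← map_pow, hρ', Units.val_one]
    exact hE x hx
  have hE'u : ∀ y ∈ E', ρ' u * y * (ρ' u)⁻¹ ∈ E' := by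
    rintro _ ⟨x, hx, rfl⟩
    exact ⟨u * x * u⁻¹, huE x hx, by rw [map_mul, map_mul, map_inv]⟩
  have hE'i : ∀ y ∈ E', (ρ' u) ^ (2 ^ (a - 1)) * y * ((ρ' u) ^ (2 ^ (a - 1)))⁻¹ = y⁻¹ := by
    rintro _ ⟨x, hx, rfl⟩
    apply Units.ext
    rw [← map_pow, ← map_inv, ← map_mul, ← map_mul, ← map_inv, hρ', hρ']
    exact hinv x hx
  -- the element of prime order
  have hy : ρ' x₀ ≠ 1 := by
    intro h
    apply hne
    rw [← hρ', h, Units.val_one]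
  have hord : orderOf (ρ' x₀) ≠ 1 := by
    rw [Ne, orderOf_eq_one_iff]
    exact hy
  have hyE : ρ' x₀ ∈ E' := ⟨x₀, hx₀, rfl⟩
  obtain ⟨r, hr, hrd⟩ := Nat.exists_prime_and_dvd hord
  have hrm : r ∣ m := hrd.trans (orderOf_dvd_of_pow_eq_one (hE'm _ hyE))
  have hr2 : r ≠ 2 := by
    rintro rfl
    exact (Nat.not_even_iff_odd.2 hm) (even_iff_two_dvd.2 hrm)
  have hopos : 0 < orderOf (ρ' x₀) := by
    apply Nat.pos_of_dvd_of_pos (orderOf_dvd_of_pow_eq_one (hE'm _ hyE)) hm.pos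
  obtain ⟨k, hk⟩ := hrd
  have hy1r : ((ρ' x₀) ^ k) ^ r = 1 := by
    rw [← pow_mul, mul_comm, ← hk, pow_orderOf_eq_one]
  have hy1 : (ρ' x₀) ^ k ≠ 1 := by
    intro h
    have h1 := orderOf_dvd_of_pow_eq_one h
    have hkpos : 0 < k := by
      rcases Nat.eq_zero_or_pos k with h0 | h0
      · rw [h0, mul_zero] at hk
        omega
      · exact h0
    have h2 := Nat.le_of_dvd hkpos h1
    have h3 := hr.two_le
    nlinarith
  have hy1E : (ρ' x₀) ^ k ∈ E' := E'.pow_mem hyE k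
  let R : Subgroup (Module.End (ZMod 2) V)ˣ :=
    { carrier := {y | y ∈ E' ∧ y ^ r = 1}
      mul_mem' := by
        rintro y y' ⟨h1, h2⟩ ⟨h3, h4⟩
        refine ⟨E'.mul_mem h1 h3, ?_⟩
        have hc : Commute y y' := hE'c y h1 y' h3
        rw [hc.mul_pow, h2, h4, one_mul]
      one_mem' := ⟨E'.one_mem, one_pow r⟩
      inv_mem' := by
        rintro y ⟨h1, h2⟩
        refine ⟨E'.inv_mem h1, ?_⟩
        rw [inv_pow, h2, inv_one] }
  have hRmem : ∀ y, y ∈ R ↔ y ∈ E' ∧ y ^ r = 1 := fun y => Iff.rfl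
  have hconj : ∀ y ∈ R, ρ' u * y * (ρ' u)⁻¹ ∈ R := by
    intro y hy
    rw [hRmem] at hy ⊢
    refine ⟨hE'u y hy.1, ?_⟩
    rw [conj_pow, hy.2, mul_one, mul_inv_cancel]
  let α : R →* R :=
    { toFun := fun y => ⟨ρ' u * y * (ρ' u)⁻¹, hconj _ y.2⟩
      map_one' := by
        apply Subtype.ext
        simp
      map_mul' := by
        intro y y'
        apply Subtype.ext
        simp [mul_assoc] }
  have hα : ∀ y : R, ((α y : R) : (Module.End (ZMod 2) V)ˣ) = ρ' u * y * (ρ' u)⁻¹ := fun y => rfl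
  let ρR : R →* Module.End (ZMod 2) V := (Units.coeHom _).comp R.subtype
  have hρR : ∀ y : R, ρR y = ((y : (Module.End (ZMod 2) V)ˣ) : Module.End (ZMod 2) V) :=
    fun y => rfl
  have hfinE : Finite E' := by
    have : (E' : Set (Module.End (ZMod 2) V)ˣ).Finite := by
      apply Set.Finite.subset (Set.finite_range ρ')
      rintro _ ⟨x, _, rfl⟩
      exact ⟨x, rfl⟩
    exact this
  have hfinR : Finite R := by
    have hle : R ≤ E' := fun y hy => hy.1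
    exact Finite.of_injective (Subgroup.inclusion hle) (Subgroup.inclusion_injective hle)
  have hpR : IsPGroup r R := by
    intro y
    refine ⟨1, ?_⟩
    apply Subtype.ext
    rw [pow_one]
    exact y.2.2
  have hRab : ∀ x y, ρR x * ρR y = ρR y * ρR x := by
    intro x y
    rw [hρR, hρR, ← Units.val_mul, ← Units.val_mul, hE'c _ x.2.1 _ y.2.1]
  have D : LDat (2 ^ a) α ρR (ρ u) := by
    refine ⟨?_, ?_, hN⟩
    · intro y
      rw [hρR, hρR, hα, ← hρ' u, ← Units.val_mul, ← Units.val_mul]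
      congr 1
      rw [inv_mul_cancel_right]
    · rw [← map_pow]
      exact hu
  have hfact : Fact (Nat.Prime 2) := ⟨Nat.prime_two⟩
  have h1 := ev_abZ (p := 2) hr hr2 ha hpR hRab D ⟨(ρ' x₀) ^ k, hy1E, hy1r⟩
  have hiter : ∀ (n : ℕ) (y : R), ((α^[n] y : R) : (Module.End (ZMod 2) V)ˣ) =
      (ρ' u) ^ n * y * ((ρ' u) ^ n)⁻¹ := by
    intro n
    induction n with
    | zero =>
      intro y
      simp
    | succ n ih =>
      intro y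
      rw [Function.iterate_succ_apply', hα, ih, pow_succ']
      simp [mul_assoc]
  rw [hρR, hρR] at h1
  have h2 := Units.ext h1
  rw [hiter] at h2
  have h3 : ((ρ' x₀) ^ k)⁻¹ = (ρ' x₀) ^ k := by
    rw [← hE'i _ hy1E]
    exact h2
  have h4 : ((ρ' x₀) ^ k) ^ 2 = 1 := by
    rw [pow_two]
    nth_rewrite 1 [← h3]
    exact inv_mul_cancel _
  apply hy1
  have hcop : Nat.Coprime r 2 := (Nat.coprime_primes hr Nat.prime_two).2 hr2
  exact tw_one hcop hy1r h4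

end Pool.Agent.Lib.MP_544bd1_al
end

section

/-!
Theorem Z3, Case A, `P` abelian: (FP).
-/

namespace Pool.Agent.Lib.MP_544bd1_al

open Subgroup

/-- for `P` of exponent 2 and `x ^ 4 = 1`: `z = (p * x) ^ 4` is the norm of `p`; it is in `P`,
commutes with `x` and with `P`, and has order at most 2.

Proof. `(p * x) ^ 4 = p * (x * p * x⁻¹) * (x ^ 2 * p * (x ^ 2)⁻¹) * (x ^ 3 * p * (x ^ 3)⁻¹) * x ^ 4`
(`group`), `P` is commutative because `q ^ 2 = 1` for `q ∈ P`. -/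
theorem zt_z {F : Type} [Group F] (P : Subgroup F) {x p : F} (hP : ∀ q ∈ P, q ^ 2 = 1)
    (hx : x ^ 4 = 1) (hPx : ∀ q ∈ P, x * q * x⁻¹ ∈ P) (hp : p ∈ P) :
    (p * x) ^ 4 = p * (x * p * x⁻¹) * (x ^ 2 * p * (x ^ 2)⁻¹) * (x ^ 3 * p * (x ^ 3)⁻¹) ∧
      (p * x) ^ 4 ∈ P ∧ x * (p * x) ^ 4 = (p * x) ^ 4 * x ∧ ((p * x) ^ 4) ^ 2 = 1 ∧
      (∀ q ∈ P, q * (p * x) ^ 4 = (p * x) ^ 4 * q) ∧ ∀ q ∈ P, ∀ q' ∈ P, q * q' = q' * q := by
  have hinv : ∀ q ∈ P, q⁻¹ = q := by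
    intro q hq
    exact inv_eq_of_mul_eq_one_left (by rw [← pow_two]; exact hP q hq)
  have hcomm : ∀ q ∈ P, ∀ q' ∈ P, q * q' = q' * q := by
    intro q hq q' hq'
    have h1 := hinv (q * q') (P.mul_mem hq hq')
    rw [mul_inv_rev, hinv q hq, hinv q' hq'] at h1
    exact h1.symm
  have hp1 : x * p * x⁻¹ ∈ P := hPx p hp
  have hp2 : x ^ 2 * p * (x ^ 2)⁻¹ ∈ P := by
    have h := hPx _ hp1
    have h1 : x * (x * p * x⁻¹) * x⁻¹ = x ^ 2 * p * (x ^ 2)⁻¹ := by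
      rw [pow_two, mul_inv_rev]; simp only [mul_assoc]
    rwa [h1] at h
  have hp3 : x ^ 3 * p * (x ^ 3)⁻¹ ∈ P := by
    have h := hPx _ hp2
    have h1 : x * (x ^ 2 * p * (x ^ 2)⁻¹) * x⁻¹ = x ^ 3 * p * (x ^ 3)⁻¹ := by
      rw [pow_succ' x 2, mul_inv_rev]; simp only [mul_assoc]
    rwa [h1] at h
  have hz : (p * x) ^ 4 =
      p * (x * p * x⁻¹) * (x ^ 2 * p * (x ^ 2)⁻¹) * (x ^ 3 * p * (x ^ 3)⁻¹) := by
    calc (p * x) ^ 4 =
        p * (x * p * x⁻¹) * (x ^ 2 * p * (x ^ 2)⁻¹) * (x ^ 3 * p * (x ^ 3)⁻¹) * x ^ 4 := by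
          have h1 : (p * x) ^ 4 = (p * x) * (p * x) * (p * x) * (p * x) := by
            rw [pow_succ, pow_succ, pow_succ, pow_one]
          rw [h1]
          group
      _ = _ := by rw [hx, mul_one]
  have hzP : (p * x) ^ 4 ∈ P := by
    rw [hz]
    exact P.mul_mem (P.mul_mem (P.mul_mem hp hp1) hp2) hp3
  have hxz : x * (p * x) ^ 4 = (p * x) ^ 4 * x := by
    have h4 : x ^ 4 * p * (x ^ 4)⁻¹ = p := by rw [hx]; group
    calc x * (p * x) ^ 4 =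
        ((x * p * x⁻¹) * (x ^ 2 * p * (x ^ 2)⁻¹) * (x ^ 3 * p * (x ^ 3)⁻¹) *
          (x ^ 4 * p * (x ^ 4)⁻¹)) * x := by rw [hz]; group
      _ = (((x * p * x⁻¹) * (x ^ 2 * p * (x ^ 2)⁻¹) * (x ^ 3 * p * (x ^ 3)⁻¹)) * p) * x := by
          rw [h4]
      _ = (p * ((x * p * x⁻¹) * (x ^ 2 * p * (x ^ 2)⁻¹) * (x ^ 3 * p * (x ^ 3)⁻¹))) * x := by
          rw [hcomm _ (P.mul_mem (P.mul_mem hp1 hp2) hp3) p hp]
      _ = (p * x) ^ 4 * x := by rw [hz]; simp only [mul_assoc]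
  exact ⟨hz, hzP, hxz, hP _ hzP, fun q hq => hcomm q hq _ hzP, hcomm⟩

/-- **(FP)**

Proof. `z = (p * x) ^ 4 = p_0 * p_1 * p_2 * p_3`, `p_i = x ^ i * p * (x ^ i)⁻¹` (`zt_z`).
`μ₁ = p_0 * p_1`: `μ₁⁻¹ * x ^ 2 * μ₁ = μ₁ * (x ^ 2 * μ₁ * (x ^ 2)⁻¹) * x ^ 2 = z * x ^ 2 = x ^ 2 * z`.
`zt_swap` for `A`, `x := x ^ 2`, `z`, `μ := μ₁` (`(x ^ 2) ^ 2 = 1`): `z` acts nontrivially on
`A₁ = {g ∈ A | x ^ 2 * g = g * x ^ 2}`. `μ₀ = p_0 * p_2` commutes with `x ^ 2`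
(`x ^ 2 * μ₀ * (x ^ 2)⁻¹ = p_2 * p_0`), so it normalizes `A₁`, and
`μ₀⁻¹ * x * μ₀ = μ₀ * (x * μ₀ * x⁻¹) * x = p_0 * p_2 * p_1 * p_3 * x = x * z`. `zt_swap` for `A₁`, `x`,
`z`, `μ₀`: `g ∈ A₁`, `x * g = g * x`, `z * g ≠ g * z`. `s = g⁻¹ * (z * g * z⁻¹)`. -/
theorem zt_FP {m : ℕ} (hm : Odd m) {F : Type} [Group F] (A P : Subgroup F)
    (hA : ∀ g ∈ A, g ^ m = 1) {x p : F} (hP : ∀ q ∈ P, q ^ 2 = 1) (hx : x ^ 4 = 1)
    (hPx : ∀ q ∈ P, x * q * x⁻¹ ∈ P) (hp : p ∈ P) (hxA : ∀ g ∈ A, x * g * x⁻¹ ∈ A)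
    (hPA : ∀ q ∈ P, ∀ g ∈ A, q * g * q⁻¹ ∈ A)
    (hne : ∃ g ∈ A, (p * x) ^ 4 * g ≠ g * (p * x) ^ 4) :
    ∃ s ∈ A, s ≠ 1 ∧ x * s = s * x ∧ (p * x) ^ 4 * s * ((p * x) ^ 4)⁻¹ = s⁻¹ := by
  obtain ⟨hz, hzP, hxz, hz2, -, hcomm⟩ := zt_z P hP hx hPx hp
  have hinv : ∀ q ∈ P, q⁻¹ = q := by
    intro q hq
    exact inv_eq_of_mul_eq_one_left (by rw [← pow_two]; exact hP q hq)
  have hp1 : x * p * x⁻¹ ∈ P := hPx p hp
  have hp2 : x ^ 2 * p * (x ^ 2)⁻¹ ∈ P := by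
    have h := hPx _ hp1
    have h1 : x * (x * p * x⁻¹) * x⁻¹ = x ^ 2 * p * (x ^ 2)⁻¹ := by
      rw [pow_two, mul_inv_rev]; simp only [mul_assoc]
    rwa [h1] at h
  have hp3 : x ^ 3 * p * (x ^ 3)⁻¹ ∈ P := by
    have h := hPx _ hp2
    have h1 : x * (x ^ 2 * p * (x ^ 2)⁻¹) * x⁻¹ = x ^ 3 * p * (x ^ 3)⁻¹ := by
      rw [pow_succ' x 2, mul_inv_rev]; simp only [mul_assoc]
    rwa [h1] at h
  generalize (p * x) ^ 4 = z at hz hzP hxz hz2 hne ⊢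
  have hx2z : x ^ 2 * z = z * x ^ 2 := by
    calc x ^ 2 * z = x * (x * z) := by rw [pow_two, mul_assoc]
      _ = x * (z * x) := by rw [hxz]
      _ = (x * z) * x := by rw [mul_assoc]
      _ = z * x ^ 2 := by rw [hxz, pow_two, mul_assoc]
  have h4 : x ^ 4 * p * (x ^ 4)⁻¹ = p := by rw [hx]; group
  -- first step
  have hμ₁ : p * (x * p * x⁻¹) ∈ P := P.mul_mem hp hp1
  obtain ⟨g, hg, hxg, hzg⟩ := zt_swap hm A hA (x := x ^ 2) (z := z) (μ := p * (x * p * x⁻¹))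
    (fun g hg => by
      have h := hxA _ (hxA g hg)
      have h1 : x * (x * g * x⁻¹) * x⁻¹ = x ^ 2 * g * (x ^ 2)⁻¹ := by
        rw [pow_two, mul_inv_rev]; simp only [mul_assoc]
      rwa [h1] at h)
    (fun g hg => hPA z hzP g hg)
    (fun g hg => hPA _ hμ₁ g hg)
    (fun g _ => by rw [← pow_mul, show 2 * 2 = 4 from rfl, hx, one_mul, mul_one])
    hz2 hx2z (hcomm _ hμ₁ _ hzP)
    (by
      calc (p * (x * p * x⁻¹))⁻¹ * x ^ 2 * (p * (x * p * x⁻¹))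
          = (p * (x * p * x⁻¹)) * x ^ 2 * (p * (x * p * x⁻¹)) := by rw [hinv _ hμ₁]
        _ = (p * (x * p * x⁻¹) * (x ^ 2 * p * (x ^ 2)⁻¹) * (x ^ 3 * p * (x ^ 3)⁻¹)) * x ^ 2 := by
            group
        _ = z * x ^ 2 := by rw [← hz]
        _ = x ^ 2 * z := hx2z.symm)
    hne
  -- second step
  let A₁ : Subgroup F :=
    { carrier := {g | g ∈ A ∧ x ^ 2 * g = g * x ^ 2}
      one_mem' := ⟨A.one_mem, by rw [mul_one, one_mul]⟩
      mul_mem' := by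
        rintro a b ⟨ha, ha'⟩ ⟨hb, hb'⟩
        refine ⟨A.mul_mem ha hb, ?_⟩
        calc x ^ 2 * (a * b) = (x ^ 2 * a) * b := by rw [mul_assoc]
          _ = a * (x ^ 2 * b) := by rw [ha', mul_assoc]
          _ = a * b * x ^ 2 := by rw [hb', mul_assoc]
      inv_mem' := by
        rintro a ⟨ha, ha'⟩
        refine ⟨A.inv_mem ha, ?_⟩
        calc x ^ 2 * a⁻¹ = a⁻¹ * (a * x ^ 2) * a⁻¹ := by group
          _ = a⁻¹ * (x ^ 2 * a) * a⁻¹ := by rw [ha']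
          _ = a⁻¹ * x ^ 2 := by group }
  have hA₁ : ∀ g, g ∈ A₁ ↔ g ∈ A ∧ x ^ 2 * g = g * x ^ 2 := fun g => Iff.rfl
  have hconj : ∀ u : F, u * x ^ 2 = x ^ 2 * u → ∀ g : F, x ^ 2 * g = g * x ^ 2 →
      x ^ 2 * (u * g * u⁻¹) = u * g * u⁻¹ * x ^ 2 := by
    intro u hu g hg
    have hu' : u⁻¹ * x ^ 2 = x ^ 2 * u⁻¹ := by
      calc u⁻¹ * x ^ 2 = u⁻¹ * (x ^ 2 * u) * u⁻¹ := by group
        _ = u⁻¹ * (u * x ^ 2) * u⁻¹ := by rw [hu]
        _ = x ^ 2 * u⁻¹ := by group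
    calc x ^ 2 * (u * g * u⁻¹) = (x ^ 2 * u) * g * u⁻¹ := by simp only [mul_assoc]
      _ = u * (x ^ 2 * g) * u⁻¹ := by rw [← hu]; simp only [mul_assoc]
      _ = u * g * (x ^ 2 * u⁻¹) := by rw [hg]; simp only [mul_assoc]
      _ = u * g * u⁻¹ * x ^ 2 := by rw [← hu']; simp only [mul_assoc]
  have hμ₀ : p * (x ^ 2 * p * (x ^ 2)⁻¹) ∈ P := P.mul_mem hp hp2
  have hμ₀x : p * (x ^ 2 * p * (x ^ 2)⁻¹) * x ^ 2 = x ^ 2 * (p * (x ^ 2 * p * (x ^ 2)⁻¹)) := by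
    calc p * (x ^ 2 * p * (x ^ 2)⁻¹) * x ^ 2 = (x ^ 2 * p * (x ^ 2)⁻¹) * p * x ^ 2 := by
          rw [hcomm p hp _ hp2]
      _ = (x ^ 2 * p * (x ^ 2)⁻¹) * (x ^ 4 * p * (x ^ 4)⁻¹) * x ^ 2 := by rw [h4]
      _ = x ^ 2 * (p * (x ^ 2 * p * (x ^ 2)⁻¹)) := by group
  obtain ⟨g', hg', hxg', hzg'⟩ := zt_swap hm A₁ (fun g hg => hA g hg.1) (x := x) (z := z)
    (μ := p * (x ^ 2 * p * (x ^ 2)⁻¹))
    (fun g hg => ⟨hxA g hg.1, hconj x (by group) g hg.2⟩)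
    (fun g hg => ⟨hPA z hzP g hg.1, hconj z hx2z.symm g hg.2⟩)
    (fun g hg => ⟨hPA _ hμ₀ g hg.1, hconj _ hμ₀x g hg.2⟩)
    (fun g hg => hg.2) hz2 hxz (hcomm _ hμ₀ _ hzP)
    (by
      calc (p * (x ^ 2 * p * (x ^ 2)⁻¹))⁻¹ * x * (p * (x ^ 2 * p * (x ^ 2)⁻¹))
          = (p * (x ^ 2 * p * (x ^ 2)⁻¹)) * x * (p * (x ^ 2 * p * (x ^ 2)⁻¹)) := by
            rw [hinv _ hμ₀]
        _ = (p * ((x ^ 2 * p * (x ^ 2)⁻¹) * (x * p * x⁻¹)) * (x ^ 3 * p * (x ^ 3)⁻¹)) * x := by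
            group
        _ = (p * ((x * p * x⁻¹) * (x ^ 2 * p * (x ^ 2)⁻¹)) * (x ^ 3 * p * (x ^ 3)⁻¹)) * x := by
            rw [hcomm _ hp2 _ hp1]
        _ = z * x := by rw [hz]; simp only [mul_assoc]
        _ = x * z := hxz.symm)
    ⟨g, ⟨hg, hxg⟩, hzg⟩
  have hzz : z * z = 1 := by rw [← pow_two]; exact hz2
  have hzi : z⁻¹ = z := inv_eq_of_mul_eq_one_left hzz
  refine ⟨g'⁻¹ * (z * g' * z⁻¹), A.mul_mem (A.inv_mem hg'.1) (hPA z hzP _ hg'.1), ?_, ?_, ?_⟩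
  · intro h
    apply hzg'
    have h1 : z * g' * z⁻¹ = g' := by
      calc z * g' * z⁻¹ = g' * (g'⁻¹ * (z * g' * z⁻¹)) := by group
        _ = g' := by rw [h, mul_one]
    calc z * g' = (z * g' * z⁻¹) * z := by group
      _ = g' * z := by rw [h1]
  · have hx1 : x * g'⁻¹ = g'⁻¹ * x := by
      calc x * g'⁻¹ = g'⁻¹ * (g' * x) * g'⁻¹ := by group
        _ = g'⁻¹ * (x * g') * g'⁻¹ := by rw [hxg']
        _ = g'⁻¹ * x := by group
    have hx3 : x * z⁻¹ = z⁻¹ * x := by rw [hzi]; exact hxz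
    calc x * (g'⁻¹ * (z * g' * z⁻¹)) = (x * g'⁻¹) * (z * g' * z⁻¹) := by simp only [mul_assoc]
      _ = g'⁻¹ * ((x * z) * (g' * z⁻¹)) := by rw [hx1]; simp only [mul_assoc]
      _ = g'⁻¹ * (z * ((x * g') * z⁻¹)) := by rw [hxz]; simp only [mul_assoc]
      _ = g'⁻¹ * (z * (g' * (x * z⁻¹))) := by rw [hxg']; simp only [mul_assoc]
      _ = g'⁻¹ * (z * g' * z⁻¹) * x := by rw [hx3]; simp only [mul_assoc]
  · calc z * (g'⁻¹ * (z * g' * z⁻¹)) * z⁻¹ = (z * g'⁻¹ * z⁻¹) * ((z * z) * g' * (z * z)⁻¹) := by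
          group
      _ = (z * g'⁻¹ * z⁻¹) * g' := by rw [hzz]; group
      _ = (g'⁻¹ * (z * g' * z⁻¹))⁻¹ := by group

end Pool.Agent.Lib.MP_544bd1_al
end
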