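import Mathlib
import Pool.Agent.Lib.MP_544bd1_al.TwS3
import Pool.Agent.Lib.MP_544bd1_al.TwR4
import Pool.Agent.Lib.MP_544bd1_al.ZtFP
import Pool.Agent.Lib.MP_544bd1_al.TwL5

section

/-!
Theorem Z3, Case A: definitions.
-/

namespace Pool.Agent.Lib.MP_544bd1_al

open Subgroup

/-- the honest form of (L2ab): `R = ⟨ρ, x * ρ * x⁻¹⟩` acts on `Q` as a commutative group -/
structure ZHon (r : ℕ) {F : Type} [Group F] (Q R : Subgroup F) (x ρ : F) : Prop where
  core : ZCore r Q R x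
  hx : x ^ 4 = 1
  hρ : ρ ∈ R
  hρx : x ^ 2 * ρ * (x ^ 2)⁻¹ = ρ⁻¹
  gen : ∀ S : Subgroup F, ρ ∈ S → x * ρ * x⁻¹ ∈ S → R ≤ S
  hab : ∀ g ∈ R, ∀ h ∈ R, ∀ q ∈ Q, g * h * g⁻¹ * h⁻¹ * q = q * (g * h * g⁻¹ * h⁻¹)

/-- the module data of a minimal configuration (the output of `zt_module`) -/
structure ZMd {F : Type} [Group F] (Q R : Subgroup F) [hQn : Q.Normal] {V : Type}
    [AddCommGroup V] [Module (ZMod 2) V] (τ : F →* Module.End (ZMod 2) V) (φ : Q → V) : Prop where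
  surj : Function.Surjective φ
  add : ∀ x y, φ (x * y) = φ x + φ y
  eqv : ∀ (g : F) (x : Q), φ ⟨g * x * g⁻¹, hQn.conj_mem _ x.2 g⟩ = τ g (φ x)
  faith : ∀ g ∈ R, τ g = 1 → ∀ q ∈ Q, g * q = q * g
  ker : ∀ q : Q, φ q = 0 → (∀ g ∈ R, g * (q : F) = q * g) ∧ ∀ y ∈ Q, (q : F) * y = y * q

/-- the squaring map `q` and the commutator map `β` of `Q`, with values in the additive group `K`,
which is `⁅Q, Q⁆` written additively (via `ι`); `θ g` is the conjugation by `g` on `K`. -/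
structure ZQuad {F : Type} [Group F] (Q R : Subgroup F) {V : Type} [AddCommGroup V]
    [Module (ZMod 2) V] (τ : F →* Module.End (ZMod 2) V) (φ : Q → V) {K : Type}
    [AddCommGroup K] (ι : K → F) (θ : F → K → K) (q : V → K) (β : V → V → K) : Prop where
  inj : Function.Injective ι
  ιadd : ∀ k l, ι (k + l) = ι k * ι l
  two : ∀ k : K, k + k = 0
  ιQ : ∀ k, ι k ∈ ⁅Q, Q⁆
  ιR : ∀ k, ∀ g ∈ R, g * ι k = ι k * g
  ιc : ∀ k, ∀ y ∈ Q, y * ι k = ι k * y
  ιθ : ∀ g k, ι (θ g k) = g * ι k * g⁻¹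
  hq : ∀ a : Q, ι (q (φ a)) = (a : F) ^ 2
  hβ : ∀ a b : Q, ι (β (φ a) (φ b)) = (a : F) * b * (a : F)⁻¹ * (b : F)⁻¹
  θadd : ∀ g k l, θ g (k + l) = θ g k + θ g l
  θmul : ∀ g h k, θ (g * h) k = θ g (θ h k)
  θR : ∀ g ∈ R, ∀ k, θ g k = k
  βl : ∀ u v w, β (u + v) w = β u w + β v w
  βr : ∀ u v w, β u (v + w) = β u v + β u w
  βs : ∀ v w, β v w = β w v
  βa : ∀ v, β v v = 0
  qa : ∀ v w, q (v + w) = q v + q w + β v w
  βθ : ∀ g v w, β (τ g v) (τ g w) = θ g (β v w)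
  qθ : ∀ g v, q (τ g v) = θ g (q v)

/-- the configuration of Case A with `P` nonabelian, first part -/
structure ZA2F (m : ℕ) {F : Type} [Group F] (P : Subgroup F) (x ρ f p₂ p₃ : F) : Prop where
  hx : x ^ 4 = 1
  hρ : ρ ^ m = 1
  hPx : ∀ q ∈ P, x * q * x⁻¹ ∈ P
  hPρ : ∀ q ∈ P, ρ * q * ρ⁻¹ ∈ P
  cl : ∀ q ∈ P, ∀ q' ∈ P, ∀ q'' ∈ P, q * q' * q⁻¹ * q'⁻¹ * q'' = q'' * (q * q' * q⁻¹ * q'⁻¹)
  cy : ∀ q ∈ P, ∀ q' ∈ P, x ^ 2 * (q * q' * q⁻¹ * q'⁻¹) = q * q' * q⁻¹ * q'⁻¹ * x ^ 2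
  c2 : ∀ q ∈ P, ∀ q' ∈ P, (q * q' * q⁻¹ * q'⁻¹) ^ 2 = 1
  hfP : f ∈ ⁅P, P⁆
  hf1 : f ≠ 1
  hf2 : f ^ 2 = 1
  hfc : ∀ q ∈ P, f * q = q * f
  hfx : f * x = x * f
  hfρ : f * ρ = ρ * f
  hp₂ : p₂ ∈ P
  ht : (p₂ * x ^ 2) ^ 4 = f
  hp₃ : p₃ ∈ P
  hn3 : (p₃ * x) ^ 4 ∈ P
  hu : (p₃ * x) ^ 8 = 1
  gen : ∀ P' : Subgroup F, P' ≤ P → (p₃ * x) ^ 4 ∈ P' → (∀ q ∈ P', x * q * x⁻¹ ∈ P') →
    (∀ q ∈ P', ρ * q * ρ⁻¹ ∈ P') → P' = P

/-- the configuration of Case A with `P` nonabelian; the involution is `f` -/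
structure ZA2 (m : ℕ) {F : Type} [Group F] (P : Subgroup F) (x ρ f c n p₂ p₃ w : F) : Prop
    extends ZA2F m P x ρ f p₂ p₃ where
  hc : c ∈ P
  hcx : c⁻¹ * x ^ 2 * c = x ^ 2 * f
  hn : n ∈ P
  hnx : n⁻¹ * x * n = x * f
  hny : n * x ^ 2 = x ^ 2 * n
  hw : w ∈ closure {x, w⁻¹ * x * w}
  hwP : P ≤ closure {x, w⁻¹ * x * w}
  hwρ : ρ ∈ closure {x, w⁻¹ * x * w}
  hu3 : P ≤ closure {ρ, p₃ * x}
  hux : x ∈ closure {ρ, p₃ * x}

end Pool.Agent.Lib.MP_544bd1_al
end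

section

/-!
Theorem Z3: (Reg1).
-/

namespace Pool.Agent.Lib.MP_544bd1_al

open Subgroup

private theorem zr1_ypow {a l : ℕ} (ha : 2 ≤ a) (hl : l < 2 ^ a) (hl0 : l ≠ 0)
    (hl1 : l ≠ 2 ^ (a - 1)) {H : Type} [Group H] {u d : H} (hu : u ^ (2 ^ a) = 1)
    (h : Commute (u ^ l) d) : Commute (u ^ (2 ^ (a - 2))) d := by
  have hg : Nat.gcd l (2 ^ a) ∣ 2 ^ (a - 2) := by
    obtain ⟨j, hj, hj'⟩ := (Nat.dvd_prime_pow Nat.prime_two).1 (Nat.gcd_dvd_right l (2 ^ a))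
    rw [hj']
    apply pow_dvd_pow
    by_contra hlt
    push Not at hlt
    have h1 : 2 ^ (a - 1) ∣ l := by
      have h2 : 2 ^ (a - 1) ∣ 2 ^ j := pow_dvd_pow 2 (by omega)
      rw [← hj'] at h2
      exact h2.trans (Nat.gcd_dvd_left _ _)
    obtain ⟨k, hk⟩ := h1
    have h3 : 2 ^ a = 2 ^ (a - 1) * 2 := by
      rw [← pow_succ, Nat.sub_add_cancel (by omega)]
    have h4 : k < 2 := by
      rw [hk, h3] at hl
      exact lt_of_mul_lt_mul_left hl (Nat.zero_le _)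
    interval_cases k
    · exact hl0 (by rw [hk, mul_zero])
    · exact hl1 (by rw [hk, mul_one])
  obtain ⟨t, ht⟩ := hg
  have h5 := Nat.gcd_eq_gcd_ab l (2 ^ a)
  have h6 : u ^ (2 ^ (a - 2)) = (u ^ l) ^ (Nat.gcdA l (2 ^ a) * t) := by
    have h7 : ((2 ^ (a - 2) : ℕ) : ℤ) =
        (l : ℤ) * (Nat.gcdA l (2 ^ a) * t) + ((2 ^ a : ℕ) : ℤ) * (Nat.gcdB l (2 ^ a) * t) := by
      rw [ht, Nat.cast_mul, h5]
      ring
    rw [← zpow_natCast u (2 ^ (a - 2)), h7, zpow_add, zpow_mul, zpow_mul u ((2 ^ a : ℕ) : ℤ),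
      zpow_natCast, zpow_natCast, hu, one_zpow, mul_one]
  rw [h6]
  exact h.zpow_left _

/-- **(Reg1)** `A` of class 2 is generated by elements inverted by `z = u ^ (2 ^ (a - 1))`, which
centralizes the commutators; then `y = u ^ (2 ^ (a - 2))` centralizes the commutators.

Proof. Let `C` be the closure of the commutators `x * y * x⁻¹ * y⁻¹` of elements of `A`: `C ≤ A`,
commutative, centralized by `A` (`hcl`) and by `z` (`hz`), normalized by `u`. Let
`B = {b ∈ C | y * b * y⁻¹ = b⁻¹}`, a subgroup, normalized by `u`, of odd order (`x ^ m = 1` on it;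
`tw_card_cop`). It is enough that `B` is trivial (for `c ∈ C`, `c⁻¹ * (y * c * y⁻¹) ∈ B` because
`y ^ 2 = z` centralizes `C`). Let `V, ρ` be as in `hV`, `e = ∑ c ∈ B, ρ c`; `e * e = e`
(`e * ρ c = e`, `Nat.card B` odd, characteristic 2). Let `Y = ker e`; `Y` is invariant under `ρ g`,
`g ∈ A` (`g` commutes with `B`), and under `ρ u`, `ρ z` (they normalize `B`). For `v ∈ Y`:
`0 = ∑ c ∈ B, ρ c⁻¹ (∑ l < 2 ^ a, (ρ u) ^ l) (ρ c v)
   = ∑ l < 2 ^ a, (ρ u) ^ l (∑ c ∈ B, ρ (u ^ (-l) * c⁻¹ * u ^ l * c) v)`.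
For `l ≠ 0, 2 ^ (a - 1)` the map `c ↦ u ^ (-l) * c⁻¹ * u ^ l * c` is a homomorphism `B → B`
(commutative), injective: if `u ^ l` centralizes `c` then so does `y` (`y` is a power of `u ^ l`:
`l = 2 ^ j * odd` with `j ≤ a - 2`), so `c = c⁻¹`, `c = 1`. So the inner sum is `e v = 0`. For
`l = 0` and `l = 2 ^ (a - 1)` (`u ^ l = z` centralizes `B`) it is `Nat.card B • v = v`. Hence
`v + ρ z v = 0`, `ρ z v = v` on `Y`. For `g ∈ A` with `z * g * z⁻¹ = g⁻¹` and `v ∈ Y`: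
`ρ g v = ρ z (ρ g v) = ρ (z * g * z⁻¹) (ρ z v) = ρ g⁻¹ v`, so `ρ (g ^ 2) v = v`, and `g` is a power of
`g ^ 2`: `ρ g v = v`. The elements of `H` acting trivially on `Y` (with their inverses) form a
subgroup, so by `hgen` `A`, and `B`, act trivially on `Y`. For `b ∈ B`, `v ∈ V`: `v - e v ∈ Y` and
`ρ b (e v) = e v`, so `ρ b v = v`. So `ρ b = 1` and `b = 1` by `hV`. -/
theorem zt_reg1 {m a : ℕ} (ha : 2 ≤ a) (hm : Odd m) {H : Type} [Group H] [Finite H]
    (hV : ZRep m a H) (A : Subgroup H) (hA : ∀ x ∈ A, x ^ m = 1)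
    (hcl : ∀ x ∈ A, ∀ y ∈ A, ∀ w ∈ A, x * y * x⁻¹ * y⁻¹ * w = w * (x * y * x⁻¹ * y⁻¹)) {u : H}
    (hu : u ^ (2 ^ a) = 1) (huA : ∀ x ∈ A, u * x * u⁻¹ ∈ A)
    (hgen : ∀ B : Subgroup H,
      (∀ g ∈ A, u ^ (2 ^ (a - 1)) * g * (u ^ (2 ^ (a - 1)))⁻¹ = g⁻¹ → g ∈ B) → A ≤ B)
    (hz : ∀ x ∈ A, ∀ y ∈ A,
      u ^ (2 ^ (a - 1)) * (x * y * x⁻¹ * y⁻¹) = x * y * x⁻¹ * y⁻¹ * u ^ (2 ^ (a - 1))) :
    ∀ x ∈ A, ∀ y ∈ A,
      u ^ (2 ^ (a - 2)) * (x * y * x⁻¹ * y⁻¹) = x * y * x⁻¹ * y⁻¹ * u ^ (2 ^ (a - 2)) := by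
  classical
  obtain ⟨V, _, _, _, ρ, hfaith, hN⟩ := hV
  obtain ⟨z, hz'⟩ : ∃ z, z = u ^ (2 ^ (a - 1)) := ⟨_, rfl⟩
  obtain ⟨y, hy'⟩ : ∃ y, y = u ^ (2 ^ (a - 2)) := ⟨_, rfl⟩
  simp only [← hz'] at hgen hz
  simp only [← hy']
  have hyy : y * y = z := by
    rw [hy', hz', ← pow_add, ← two_mul, ← pow_succ']
    congr 2
    omega
  have hz2 : z * z = 1 := by
    rw [hz', ← pow_add, ← two_mul, ← pow_succ', Nat.sub_add_cancel (by omega), hu]
  have hm2 : ∀ x : H, x ^ m = 1 → x * x = 1 → x = 1 := by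
    intro x h1 h2
    obtain ⟨k, hk⟩ := hm
    rw [hk, pow_succ, pow_mul, pow_two, h2, one_pow, one_mul] at h1
    exact h1
  -- the commutator subgroup
  let C : Subgroup H := closure {g | ∃ x ∈ A, ∃ w ∈ A, x * w * x⁻¹ * w⁻¹ = g}
  have hCA : C ≤ A := by
    rw [closure_le]
    rintro _ ⟨x, hx, w, hw, rfl⟩
    exact A.mul_mem (A.mul_mem (A.mul_mem hx hw) (A.inv_mem hx)) (A.inv_mem hw)
  have hCc : ∀ c ∈ C, ∀ w ∈ A, c * w = w * c := by
    have h1 : C ≤ centralizer (A : Set H) := by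
      rw [closure_le]
      rintro _ ⟨x, hx, w, hw, rfl⟩
      rw [SetLike.mem_coe, mem_centralizer_iff]
      intro w' hw'
      exact (hcl x hx w hw w' hw').symm
    intro c hc w hw
    exact ((mem_centralizer_iff.1 (h1 hc)) w hw).symm
  have hCz : ∀ c ∈ C, z * c = c * z := by
    have h1 : C ≤ centralizer ({z} : Set H) := by
      rw [closure_le]
      rintro _ ⟨x, hx, w, hw, rfl⟩
      rw [SetLike.mem_coe, mem_centralizer_iff]
      intro w' hw'
      rw [Set.mem_singleton_iff] at hw'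
      subst hw'
      exact hz x hx w hw
    intro c hc
    exact (mem_centralizer_iff.1 (h1 hc)) z rfl
  have hCu : ∀ c ∈ C, u * c * u⁻¹ ∈ C := by
    have h1 : C ≤ C.comap (MulAut.conj u).toMonoidHom := by
      rw [closure_le]
      rintro _ ⟨x, hx, w, hw, rfl⟩
      rw [SetLike.mem_coe, mem_comap]
      apply Subgroup.subset_closure
      refine ⟨u * x * u⁻¹, huA x hx, u * w * u⁻¹, huA w hw, ?_⟩
      simp only [MulEquiv.coe_toMonoidHom, MulAut.conj_apply]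
      group
    intro c hc
    exact h1 hc
  have hCC : ∀ c ∈ C, ∀ c' ∈ C, c * c' = c' * c := fun c hc c' hc' => hCc c hc c' (hCA hc')
  have hyu : ∀ x : H, y * (u * x * u⁻¹) * y⁻¹ = u * (y * x * y⁻¹) * u⁻¹ := by
    intro x
    have h1 : y * u = u * y := by
      rw [hy']
      exact (Commute.pow_self u _).eq
    have h2 : u⁻¹ * y⁻¹ = y⁻¹ * u⁻¹ := by rw [← mul_inv_rev, ← mul_inv_rev, h1]
    calc y * (u * x * u⁻¹) * y⁻¹ = (y * u) * x * (u⁻¹ * y⁻¹) := by group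
      _ = (u * y) * x * (y⁻¹ * u⁻¹) := by rw [h1, h2]
      _ = u * (y * x * y⁻¹) * u⁻¹ := by group
  -- the subgroup inverted by `y`
  let B : Subgroup H :=
    { carrier := {b | b ∈ C ∧ y * b * y⁻¹ = b⁻¹}
      mul_mem' := by
        rintro b c ⟨h1, h2⟩ ⟨h3, h4⟩
        refine ⟨C.mul_mem h1 h3, ?_⟩
        have h5 : y * (b * c) * y⁻¹ = (y * b * y⁻¹) * (y * c * y⁻¹) := by group
        rw [h5, h2, h4, mul_inv_rev]
        exact hCC _ (C.inv_mem h1) _ (C.inv_mem h3)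
      one_mem' := ⟨C.one_mem, by simp⟩
      inv_mem' := by
        rintro b ⟨h1, h2⟩
        refine ⟨C.inv_mem h1, ?_⟩
        have h5 : y * b⁻¹ * y⁻¹ = (y * b * y⁻¹)⁻¹ := by group
        rw [h5, h2] }
  have hBmem : ∀ b, b ∈ B ↔ b ∈ C ∧ y * b * y⁻¹ = b⁻¹ := fun b => Iff.rfl
  have hBm : ∀ b ∈ B, b ^ m = 1 := fun b hb => hA b (hCA hb.1)
  have hBu : ∀ b ∈ B, u * b * u⁻¹ ∈ B := by
    intro b hb
    rw [hBmem] at hb ⊢
    refine ⟨hCu b hb.1, ?_⟩
    rw [hyu, hb.2]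
    group
  have hBun : ∀ n : ℕ, ∀ b ∈ B, u ^ n * b * (u ^ n)⁻¹ ∈ B := by
    intro n
    induction n with
    | zero =>
      intro x hx
      simpa using hx
    | succ n ih =>
      intro x hx
      have h1 := hBu _ (ih x hx)
      have h2 : u * (u ^ n * x * (u ^ n)⁻¹) * u⁻¹ = u ^ (n + 1) * x * (u ^ (n + 1))⁻¹ := by
        rw [pow_succ']
        simp [mul_assoc]
      rwa [h2] at h1
  have hBun' : ∀ n : ℕ, ∀ b ∈ B, (u ^ n)⁻¹ * b * u ^ n ∈ B := by
    intro n b hb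
    have h1 : u ^ n * u ^ ((2 ^ a - 1) * n) = 1 := by
      rw [← pow_add]
      have h2 : n + (2 ^ a - 1) * n = 2 ^ a * n := by
        have h3 : 1 ≤ 2 ^ a := Nat.one_le_two_pow
        obtain ⟨k, hk⟩ := Nat.exists_eq_add_of_le h3
        rw [hk]
        simp only [Nat.add_sub_cancel_left]
        ring
      rw [h2, pow_mul, hu, one_pow]
    have h4 : (u ^ n)⁻¹ = u ^ ((2 ^ a - 1) * n) := inv_eq_of_mul_eq_one_right h1
    have h5 : u ^ n = (u ^ ((2 ^ a - 1) * n))⁻¹ := by rw [← h4, inv_inv]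
    have h6 := hBun ((2 ^ a - 1) * n) b hb
    rw [← h5, ← h4] at h6
    exact h6
  -- it is enough that `B` is trivial
  suffices hB : ∀ b ∈ B, b = 1 by
    intro x hx w hw
    have hc : x * w * x⁻¹ * w⁻¹ ∈ C := Subgroup.subset_closure ⟨x, hx, w, hw, rfl⟩
    generalize x * w * x⁻¹ * w⁻¹ = c at hc
    have hyc : ∀ c ∈ C, y * c * y⁻¹ ∈ C := by
      rw [hy']
      generalize 2 ^ (a - 2) = n
      induction n with
      | zero =>
        intro x hx
        simpa using hx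
      | succ n ih =>
        intro x hx
        have h1 := hCu _ (ih x hx)
        have h2 : u * (u ^ n * x * (u ^ n)⁻¹) * u⁻¹ = u ^ (n + 1) * x * (u ^ (n + 1))⁻¹ := by
          rw [pow_succ']
          simp [mul_assoc]
        rwa [h2] at h1
    have h1 : c⁻¹ * (y * c * y⁻¹) ∈ B := by
      rw [hBmem]
      refine ⟨C.mul_mem (C.inv_mem hc) (hyc c hc), ?_⟩
      have h3 : y * (c⁻¹ * (y * c * y⁻¹)) * y⁻¹ = (y * c * y⁻¹)⁻¹ * ((y * y) * c * (y * y)⁻¹) := by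
        group
      rw [h3, hyy, hCz c hc, mul_inv_cancel_right, mul_inv_rev c⁻¹, inv_inv]
    have h2 := hB _ h1
    have h4 : y * c * y⁻¹ = c := by
      rw [← mul_right_inj c⁻¹, h2, inv_mul_cancel]
    rw [← mul_inv_eq_iff_eq_mul]
    exact h4
  -- the averaging operator
  have hBfin : Fintype B := Fintype.ofFinite B
  have h2V : ∀ v : V, v + v = 0 := fun v => by
    rw [← two_smul (ZMod 2) v]
    have : (2 : ZMod 2) = 0 := by decide
    rw [this, zero_smul]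
  have hcardB : ∀ v : V, Fintype.card B • v = v := by
    intro v
    have h1 : ¬ 2 ∣ Nat.card B := tw_card_cop Nat.prime_two (by
      intro h
      exact (Nat.not_even_iff_odd.2 hm) (even_iff_two_dvd.2 h)) B hBm
    rw [← Nat.card_eq_fintype_card]
    obtain ⟨k, hk⟩ : Odd (Nat.card B) := by
      rw [← Nat.not_even_iff_odd]
      intro h
      exact h1 (even_iff_two_dvd.1 h)
    rw [hk, add_smul, mul_comm, mul_smul, two_smul, h2V, smul_zero, zero_add, one_smul]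
  let e : Module.End (ZMod 2) V := ∑ c : B, ρ c
  have he : ∀ v, e v = ∑ c : B, ρ c v := by
    intro v
    simp only [e, LinearMap.sum_apply]
  have hρm : ∀ g h : H, ∀ v : V, ρ g (ρ h v) = ρ (g * h) v := by
    intro g h v
    rw [map_mul, Module.End.mul_apply]
  have hbe : ∀ b ∈ B, ∀ v, ρ b (e v) = e v := by
    intro b hb v
    rw [he, map_sum]
    simp only [hρm]
    exact Fintype.sum_equiv (Equiv.mulLeft (⟨b, hb⟩ : B)) _ _ (fun c => rfl)
  have hee : ∀ v, e (e v) = e v := by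
    intro v
    rw [he (e v)]
    rw [Finset.sum_congr rfl (fun (c : B) _ => hbe c c.2 v)]
    rw [Finset.sum_const, Finset.card_univ]
    exact hcardB _
  have hAe : ∀ g ∈ A, ∀ v, e (ρ g v) = ρ g (e v) := by
    intro g hg v
    rw [he, he, map_sum]
    apply Finset.sum_congr rfl
    intro c _
    rw [hρm, hρm, hCc c c.2.1 g hg]
  -- the main computation
  have hmain : ∀ v, e v = 0 → ρ z v = v := by
    intro v hv
    have h0 : ∑ c : B, ρ ((c : H)⁻¹) ((∑ i ∈ Finset.range (2 ^ a), (ρ u) ^ i) (ρ c v)) = 0 := by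
      rw [hN u hu]
      simp
    have h1 : ∑ c : B, ρ ((c : H)⁻¹) ((∑ i ∈ Finset.range (2 ^ a), (ρ u) ^ i) (ρ c v)) =
        ∑ l ∈ Finset.range (2 ^ a),
          ρ (u ^ l) (∑ c : B, ρ ((u ^ l)⁻¹ * (c : H)⁻¹ * u ^ l * c) v) := by
      simp only [LinearMap.sum_apply, map_sum]
      rw [Finset.sum_comm]
      apply Finset.sum_congr rfl
      intro l _
      apply Finset.sum_congr rfl
      intro c _
      rw [← map_pow, hρm, hρm, hρm]
      congr 2
      group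
    rw [h1] at h0
    rw [Finset.sum_eq_add 0 (2 ^ (a - 1)) (pow_pos two_pos _).ne] at h0
    · simp only [pow_zero, inv_one, one_mul, mul_one, inv_mul_cancel, map_one,
        Module.End.one_apply, ← hz'] at h0
      have h2 : ∀ c : B, z⁻¹ * (c : H)⁻¹ * z * c = 1 := by
        intro c
        have h3 : z * (c : H) = c * z := hCz c c.2.1
        rw [mul_assoc, h3]
        group
      simp only [h2, map_one, Module.End.one_apply, Finset.sum_const, Finset.card_univ,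
        hcardB] at h0
      have h4 : v + (v + ρ z v) = v + 0 := by rw [h0]
      rw [← add_assoc, h2V, zero_add, add_zero] at h4
      exact h4
    · rintro l hl ⟨hl0, hl1⟩
      rw [Finset.mem_range] at hl
      have hφ : ∀ c : B, (u ^ l)⁻¹ * (c : H)⁻¹ * u ^ l * c ∈ B := fun c =>
        B.mul_mem (hBun' l _ (B.inv_mem c.2)) c.2
      have hinj : Function.Injective (fun c : B => (⟨_, hφ c⟩ : B)) := by
        intro c d hcd
        have h3 : (u ^ l)⁻¹ * (c : H)⁻¹ * u ^ l * c = (u ^ l)⁻¹ * (d : H)⁻¹ * u ^ l * d :=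
          congrArg Subtype.val hcd
        obtain ⟨c, hc'⟩ := c
        obtain ⟨d, hd'⟩ := d
        simp only at h3
        have h4 : c⁻¹ * u ^ l * c = d⁻¹ * u ^ l * d := by
          have h5 := congrArg (fun t => u ^ l * t) h3
          simpa [mul_assoc] using h5
        have h5 : Commute (u ^ l) (c * d⁻¹) := by
          show u ^ l * (c * d⁻¹) = c * d⁻¹ * u ^ l
          have h6 := congrArg (fun t => c * t * d⁻¹) h4
          have h7 : c * (c⁻¹ * u ^ l * c) * d⁻¹ = u ^ l * (c * d⁻¹) := by group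
          have h8 : c * (d⁻¹ * u ^ l * d) * d⁻¹ = c * d⁻¹ * u ^ l := by group
          rw [← h7, ← h8]
          exact h6
        have h9 : Commute y (c * d⁻¹) := by
          rw [hy']
          exact zr1_ypow ha hl hl0 hl1 hu h5
        have h10 : c * d⁻¹ ∈ B := B.mul_mem hc' (B.inv_mem hd')
        have h11 : y * (c * d⁻¹) * y⁻¹ = c * d⁻¹ := by
          rw [h9.eq, mul_inv_cancel_right]
        have h12 : (c * d⁻¹)⁻¹ = c * d⁻¹ := by
          rw [← h10.2, h11]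
        have h13 : c * d⁻¹ = 1 := by
          apply hm2 _ (hBm _ h10)
          nth_rewrite 1 [← h12]
          exact inv_mul_cancel _
        apply Subtype.ext
        exact mul_inv_eq_one.1 h13
      have hbij : Function.Bijective (fun c : B => (⟨_, hφ c⟩ : B)) :=
        Finite.injective_iff_bijective.1 hinj
      have h3 : ∑ c : B, ρ ((u ^ l)⁻¹ * (c : H)⁻¹ * u ^ l * c) v = ∑ c : B, ρ c v :=
        Fintype.sum_bijective _ hbij _ _ (fun c => rfl)
      rw [h3, ← he, hv, map_zero]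
    · intro h
      exact absurd (Finset.mem_range.2 (pow_pos two_pos a)) h
    · intro h
      exact absurd (Finset.mem_range.2 (Nat.pow_lt_pow_right one_lt_two (by omega))) h
  -- the elements acting trivially on the kernel of `e`
  let T : Subgroup H :=
    { carrier := {h | ∀ v, e v = 0 → ρ h v = v}
      mul_mem' := by
        intro g h hg hh v hv
        rw [← hρm, hh v hv, hg v hv]
      one_mem' := by
        intro v _
        rw [map_one, Module.End.one_apply]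
      inv_mem' := by
        intro g hg v hv
        have h1 := congrArg (fun t => ρ g⁻¹ t) (hg v hv)
        simp only [hρm, inv_mul_cancel, map_one, Module.End.one_apply] at h1
        exact h1.symm }
  have hAT : A ≤ T := by
    apply hgen
    intro g hg hzg
    have h1 : ∀ v, e v = 0 → ρ (g * g) v = v := by
      intro v hv
      have h2 : e (ρ g v) = 0 := by rw [hAe g hg, hv, map_zero]
      have h3 := hmain _ h2
      have h4 : z * g = g⁻¹ * z := by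
        rw [← hzg, inv_mul_cancel_right]
      rw [hρm, h4, ← hρm, hmain v hv] at h3
      have h5 := congrArg (fun t => ρ g t) h3
      simp only [hρm, mul_inv_cancel, map_one, Module.End.one_apply] at h5
      exact h5.symm
    have h6 : g * g ∈ T := h1
    obtain ⟨k, hk⟩ := hm
    have h7 : g = (g * g) ^ (k + 1) := by
      rw [← pow_two, ← pow_mul]
      have h8 : 2 * (k + 1) = m + 1 := by omega
      rw [h8, pow_succ, hA g hg, one_mul]
    rw [h7]
    exact T.pow_mem h6 _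
  intro b hb
  apply hfaith b (hBm b hb)
  apply LinearMap.ext
  intro v
  have h1 : e (v + e v) = 0 := by rw [map_add, hee, h2V]
  have h2 := hAT (hCA hb.1) (v + e v) h1
  rw [map_add, hbe b hb] at h2
  rw [Module.End.one_apply]
  exact add_right_cancel h2

end Pool.Agent.Lib.MP_544bd1_al
end

section

/-!
Theorem Z3: (Reg0).
-/

namespace Pool.Agent.Lib.MP_544bd1_al

open Subgroup

/-- **(Reg0)**

Proof. Let `z = u ^ (2 ^ (a - 1))`, `z ^ 2 = 1`, `z` commutes with `u`, `E₁ = {x ∈ E | z * x * z⁻¹ =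
x⁻¹}`: a subgroup of `E` (`E` is commutative), normalized by `u`. With `V`, `ρ` of `hV`: `zt_avg` for
`E₁` gives `ρ x = 1` for `x ∈ E₁`, so `x = 1` by the first property of `hV`. For `x ∈ E`:
`z * x * z⁻¹ ∈ E` (`u` normalizes `E`, so its powers do) and `x⁻¹ * (z * x * z⁻¹) ∈ E₁`
(`z ^ 2 = 1`, `E` commutative), so it is `1`. -/
theorem zt_reg0 {m a : ℕ} (ha : 0 < a) (hm : Odd m) {H : Type} [Group H] [Finite H]
    (hV : ZRep m a H) (E : Subgroup H) (hE : ∀ x ∈ E, x ^ m = 1)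
    (hab : ∀ x ∈ E, ∀ y ∈ E, x * y = y * x) {u : H} (hu : u ^ (2 ^ a) = 1)
    (huE : ∀ x ∈ E, u * x * u⁻¹ ∈ E) :
    ∀ x ∈ E, u ^ (2 ^ (a - 1)) * x = x * u ^ (2 ^ (a - 1)) := by
  obtain ⟨V, _, _, _, ρ, hfaith, hN⟩ := hV
  obtain ⟨z, hz⟩ : ∃ z, z = u ^ (2 ^ (a - 1)) := ⟨_, rfl⟩
  have hz2 : z * z = 1 := by
    rw [hz, ← pow_add, ← two_mul, ← pow_succ', Nat.sub_add_cancel ha, hu]
  have hzinv : z⁻¹ = z := inv_eq_of_mul_eq_one_left hz2
  have hzu : z * u = u * z := by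
    rw [hz]
    exact (Commute.pow_self u _).eq
  have hpowE : ∀ n : ℕ, ∀ x ∈ E, u ^ n * x * (u ^ n)⁻¹ ∈ E := by
    intro n
    induction n with
    | zero =>
      intro x hx
      simpa using hx
    | succ n ih =>
      intro x hx
      have h1 := huE _ (ih x hx)
      have h2 : u * (u ^ n * x * (u ^ n)⁻¹) * u⁻¹ = u ^ (n + 1) * x * (u ^ (n + 1))⁻¹ := by
        rw [pow_succ']
        simp [mul_assoc]
      rwa [h2] at h1
  have hzE : ∀ x ∈ E, z * x * z⁻¹ ∈ E := by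
    rw [hz]
    exact hpowE _
  let E₁ : Subgroup H :=
    { carrier := {x | x ∈ E ∧ z * x * z⁻¹ = x⁻¹}
      mul_mem' := by
        rintro x y ⟨h1, h2⟩ ⟨h3, h4⟩
        refine ⟨E.mul_mem h1 h3, ?_⟩
        have h5 : z * (x * y) * z⁻¹ = (z * x * z⁻¹) * (z * y * z⁻¹) := by group
        rw [h5, h2, h4, mul_inv_rev]
        exact hab _ (E.inv_mem h1) _ (E.inv_mem h3)
      one_mem' := ⟨E.one_mem, by simp⟩
      inv_mem' := by
        rintro x ⟨h1, h2⟩
        refine ⟨E.inv_mem h1, ?_⟩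
        have h5 : z * x⁻¹ * z⁻¹ = (z * x * z⁻¹)⁻¹ := by group
        rw [h5, h2] }
  have hmem : ∀ x, x ∈ E₁ ↔ x ∈ E ∧ z * x * z⁻¹ = x⁻¹ := fun x => Iff.rfl
  have h1 : ∀ x ∈ E₁, ρ x = 1 := by
    apply zt_avg (u := u) ha hm ρ E₁
    · intro x hx
      rw [hE x hx.1, map_one]
    · intro x hx y hy
      rw [hab x hx.1 y hy.1]
    · intro x hx
      rw [hmem] at hx ⊢
      refine ⟨huE x hx.1, ?_⟩
      have h5 : z * (u * x * u⁻¹) * z⁻¹ = u * (z * x * z⁻¹) * u⁻¹ := by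
        have h6 : u⁻¹ * z⁻¹ = z⁻¹ * u⁻¹ := by rw [← mul_inv_rev, ← mul_inv_rev, hzu]
        calc z * (u * x * u⁻¹) * z⁻¹ = (z * u) * x * (u⁻¹ * z⁻¹) := by group
          _ = (u * z) * x * (z⁻¹ * u⁻¹) := by rw [hzu, h6]
          _ = u * (z * x * z⁻¹) * u⁻¹ := by group
      rw [h5, hx.2]
      group
    · rw [hu, map_one]
    · intro x hx
      rw [← hz, hx.2]
    · exact hN u hu
  intro x hx
  rw [← hz]
  have h2 : x⁻¹ * (z * x * z⁻¹) ∈ E₁ := by
    rw [hmem]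
    refine ⟨E.mul_mem (E.inv_mem hx) (hzE x hx), ?_⟩
    have h3 : z * (x⁻¹ * (z * x * z⁻¹)) * z⁻¹ = (z * x * z⁻¹)⁻¹ * ((z * z) * x * (z * z)⁻¹) := by
      group
    rw [h3, hz2, one_mul, inv_one, mul_one, mul_inv_rev x⁻¹, inv_inv]
  have h3 : x⁻¹ * (z * x * z⁻¹) = 1 := hfaith _ (hE _ h2.1) (h1 _ h2)
  have h4 : z * x * z⁻¹ = x := by
    rw [← mul_right_inj x⁻¹, h3, inv_mul_cancel]
  rw [← mul_inv_eq_iff_eq_mul]
  exact h4

end Pool.Agent.Lib.MP_544bd1_al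
end

section

/-!
Theorem Z3, section 5: the irreducible case of the strengthened Theorem L.
-/

namespace Pool.Agent.Lib.MP_544bd1_al

open Finset Subgroup

/-- the numerical part (compare `tw_K3`).

Proof. `D * D = (1 + q * t) * c = c + q * (t * c) ≥ c + q * (D - 1)` by `h2`, so over `ℤ`
`(D - 1) * (D - (q - 1)) = D ^ 2 - q * D + q - 1 ≥ c - 1 ≥ 0`, while `1 ≤ D ≤ q - 1` (`D ≥ 1` since
`D * D > 0`) gives `(D - 1) * (D - (q - 1)) ≤ 0`. So `c = 1` and `D = 1` or `D = q - 1`; `D = 1` gives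
`1 = 1 + q * t`, impossible (`q ≥ 2`, `t ≥ 1`). So `1 + q * t = (q - 1) ^ 2`. -/
theorem zt_K3 {q D t c : ℕ} (h1 : D * D = (1 + q * t) * c)
    (h2 : D ≤ 1 + t * c) (h3 : D + 1 ≤ q) (hc : 1 ≤ c) (ht : 1 ≤ t) :
    1 + q * t = (q - 1) ^ 2 := by
  have hD : 1 ≤ D := by
    rcases Nat.eq_zero_or_pos D with h | h
    · exfalso
      rw [h, zero_mul] at h1
      have h4 : 0 < (1 + q * t) * c := by positivity
      omega
    · exact h
  obtain ⟨D', rfl⟩ : ∃ D', D = D' + 1 := ⟨D - 1, by omega⟩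
  obtain ⟨e, rfl⟩ : ∃ e, q = D' + 2 + e := ⟨q - (D' + 2), by omega⟩
  have h4 : D' ≤ t * c := by omega
  have h5 : (D' + 2 + e) * D' ≤ (D' + 2 + e) * (t * c) := Nat.mul_le_mul_left _ h4
  have h6 : c + e * D' ≤ 1 := by nlinarith
  have hc1 : c = 1 := by
    have := Nat.zero_le (e * D')
    omega
  subst hc1
  have h7 : e * D' = 0 := by omega
  rcases Nat.mul_eq_zero.1 h7 with h8 | h8
  · subst h8
    have h9 : D' + 2 + 0 - 1 = D' + 1 := by omega
    rw [h9, pow_two, h1, mul_one]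
  · subst h8
    exfalso
    have h9 : 1 ≤ (2 + e) * t := Nat.mul_pos (by omega) ht
    simp only [zero_add, mul_one] at h1
    omega

private theorem zt_L5a {K V : Type} [Field K] [AddCommGroup V] [Module K V]
    [FiniteDimensional K V] [Nontrivial V] {p r a : ℕ} [Fact p.Prime] [CharP K p] (hr : r.Prime)
    (hrp : r ≠ p) (ha : 0 < a) (Γ : Subgroup (Module.End K V)ˣ) [Finite Γ] (hΓ : IsPGroup r Γ)
    (u z : (Module.End K V)ˣ) (hu : u ^ (p ^ a) = 1) (hz : z = u ^ (p ^ (a - 1)))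
    (huΓ : ∀ x ∈ Γ, u * x * u⁻¹ ∈ Γ)
    (hZ : ∀ x ∈ Γ, (∀ y ∈ Γ, x * y = y * x) → ∃ c : K, (x : Module.End K V) = c • 1)
    (h1 : ∀ x ∈ Γ, ∀ y ∈ Γ, ∀ w ∈ Γ, (x * y * x⁻¹ * y⁻¹) * w = w * (x * y * x⁻¹ * y⁻¹))
    (h2 : ∀ x ∈ Γ, (∀ w ∈ Γ, (x⁻¹ * (z * x * z⁻¹)) * w = w * (x⁻¹ * (z * x * z⁻¹))) →
      ∀ w ∈ Γ, x * w = w * x)
    (hno : ∃ x ∈ Γ, ∃ y ∈ Γ, x * y ≠ y * x) :
    ∃ (X : Type) (_ : Group X) (_ : Fintype X) (e : X → (Module.End K V)ˣ) (b : X → X → K)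
      (σ : X → X), Nat.card X = Nat.card (Γ ⧸ center Γ) ∧ TwAlg e b ∧ (∀ x, e x ∈ Γ) ∧
      (∀ g ∈ Γ, ∃ x, ∃ c : K, (g : Module.End K V) = c • (e x : Module.End K V)) ∧
      σ 1 = 1 ∧ Function.Bijective σ ∧
      (∀ x, ∃ c : K, ((u * e x * u⁻¹ : (Module.End K V)ˣ) : Module.End K V) =
        c • (e (σ x) : Module.End K V)) ∧
      (∀ x, σ^[p ^ a] x = x) ∧ (∀ x, σ^[p ^ (a - 1)] x = x → x = 1) ∧
      (∃ m, Nat.card X = r ^ m) ∧ 1 < Nat.card X := by
  have hp : p.Prime := Fact.out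
  -- scalars
  have F3 : ∀ g h : Γ, (QuotientGroup.mk g : Γ ⧸ center Γ) = QuotientGroup.mk h →
      ∃ c : K, ((h : (Module.End K V)ˣ) : Module.End K V) =
        c • ((g : (Module.End K V)ˣ) : Module.End K V) := by
    intro g h hgh
    have h3 : g⁻¹ * h ∈ center Γ := QuotientGroup.eq.1 hgh
    obtain ⟨c, hc⟩ := hZ _ (g⁻¹ * h).2 ((tw_L5a_center Γ _).1 h3)
    refine ⟨c, ?_⟩
    have h4 : ((h : (Module.End K V)ˣ) : Module.End K V) =
        ((g : (Module.End K V)ˣ) : Module.End K V) *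
          (((g⁻¹ * h : Γ) : (Module.End K V)ˣ) : Module.End K V) := by
      rw [← Units.val_mul, ← Subgroup.coe_mul, mul_inv_cancel_left]
    rw [h4, hc, mul_smul_comm, mul_one]
  set e : (Γ ⧸ center Γ) → (Module.End K V)ˣ := fun x => ((Quotient.out x : Γ) :
    (Module.End K V)ˣ) with hedef
  have hout : ∀ x : Γ ⧸ center Γ, (QuotientGroup.mk (Quotient.out x) : Γ ⧸ center Γ) = x :=
    fun x => QuotientGroup.out_eq' x
  have heΓ : ∀ x, e x ∈ Γ := fun x => (Quotient.out x : Γ).2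
  have hcov : ∀ g ∈ Γ, ∃ x, ∃ c : K, (g : Module.End K V) = c • (e x : Module.End K V) := by
    intro g hg
    refine ⟨QuotientGroup.mk ⟨g, hg⟩, ?_⟩
    exact F3 _ ⟨g, hg⟩ (hout _)
  have hbex : ∀ y x : Γ ⧸ center Γ, ∃ c : K, (e y : Module.End K V) * (e x : Module.End K V) =
      c • ((e x : Module.End K V) * (e y : Module.End K V)) := by
    intro y x
    obtain ⟨c, hc⟩ := hZ (e y * e x * (e y)⁻¹ * (e x)⁻¹)
      (Γ.mul_mem (Γ.mul_mem (Γ.mul_mem (heΓ y) (heΓ x)) (Γ.inv_mem (heΓ y))) (Γ.inv_mem (heΓ x)))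
      (h1 _ (heΓ y) _ (heΓ x))
    refine ⟨c, ?_⟩
    have h4 : e y * e x = (e y * e x * (e y)⁻¹ * (e x)⁻¹) * (e x * e y) := by group
    rw [← Units.val_mul, h4, Units.val_mul, hc, smul_mul_assoc, one_mul, Units.val_mul]
  choose b hb using hbex
  -- the action of `u`
  set cu := tw_L5a_cu Γ u huΓ with hcu
  set σ : (Γ ⧸ center Γ) →* (Γ ⧸ center Γ) :=
    QuotientGroup.map (center Γ) (center Γ) cu (tw_L5a_le Γ u huΓ) with hσdef
  have hσmk : ∀ g : Γ, σ (QuotientGroup.mk g) = QuotientGroup.mk (cu g) := fun g => rfl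
  have hσit : ∀ k (g : Γ), σ^[k] (QuotientGroup.mk g : Γ ⧸ center Γ) =
      QuotientGroup.mk (cu^[k] g) := by
    intro k
    induction k with
    | zero => intro g; rfl
    | succ k ih =>
      intro g
      rw [Function.iterate_succ_apply', Function.iterate_succ_apply', ih, hσmk]
  have hσq : ∀ x, σ^[p ^ a] x = x := by
    intro x
    obtain ⟨g, rfl⟩ := QuotientGroup.mk_surjective x
    rw [hσit]
    congr 1
    apply Subtype.ext
    rw [hcu, tw_L5a_cu_iter, hu]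
    simp
  have hq0 : 0 < p ^ a := pow_pos hp.pos a
  have hinj : Function.Injective σ := by
    intro x y hxy
    obtain ⟨k, hk⟩ : ∃ k, p ^ a = k + 1 := ⟨p ^ a - 1, by omega⟩
    have h3 := hσq x
    have h4 := hσq y
    rw [hk, Function.iterate_succ_apply] at h3 h4
    rw [← h3, ← h4, hxy]
  have hfin : Finite (Γ ⧸ center Γ) := inferInstance
  have hPX : IsPGroup r (Γ ⧸ center Γ) := hΓ.to_quotient (center Γ)
  have hrF : Fact r.Prime := ⟨hr⟩
  obtain ⟨m, hm⟩ := IsPGroup.iff_card.1 hPX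
  have hrK : (r : K) ≠ 0 := by
    intro h
    rw [CharP.cast_eq_zero_iff K p r] at h
    exact hrp ((Nat.prime_dvd_prime_iff_eq hp hr).1 h).symm
  refine ⟨Γ ⧸ center Γ, inferInstance, Fintype.ofFinite _, e, b, σ, rfl, ⟨?_, hb, ?_, ?_, ?_⟩, heΓ, hcov,
    map_one σ, ⟨hinj, Finite.surjective_of_injective hinj⟩, ?_, hσq, ?_, ⟨m, hm⟩, ?_⟩
  · -- comm
    intro x y
    obtain ⟨g, rfl⟩ := QuotientGroup.mk_surjective x
    obtain ⟨h, rfl⟩ := QuotientGroup.mk_surjective y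
    rw [← QuotientGroup.mk_mul, ← QuotientGroup.mk_mul]
    apply QuotientGroup.eq.2
    rw [tw_L5a_center]
    have h3 := h1 _ (h⁻¹).2 _ (g⁻¹).2
    intro w hw
    have h4 := h3 w hw
    have h5 : (((g * h)⁻¹ * (h * g) : Γ) : (Module.End K V)ˣ) =
        ((h⁻¹ : Γ) : (Module.End K V)ˣ) * ((g⁻¹ : Γ) : (Module.End K V)ˣ) *
        ((h⁻¹ : Γ) : (Module.End K V)ˣ)⁻¹ * ((g⁻¹ : Γ) : (Module.End K V)ˣ)⁻¹ := by
      simp [mul_assoc]
    rw [h5]
    exact h4
  · -- he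
    intro x y
    obtain ⟨c, hc⟩ := F3 (Quotient.out (x * y)) (Quotient.out x * Quotient.out y) (by
      rw [hout, QuotientGroup.mk_mul, hout, hout])
    refine ⟨c, ?_⟩
    rw [← hc, Subgroup.coe_mul, Units.val_mul]
  · -- nd
    intro x hx
    have h3 : (Quotient.out x : Γ) ∈ center Γ := by
      rw [tw_L5a_center]
      intro g hg
      obtain ⟨y, c, hc⟩ := hcov g hg
      apply Units.ext
      rw [Units.val_mul, Units.val_mul, hc]
      have h4 := hb y x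
      rw [hx y, one_smul] at h4
      rw [smul_mul_assoc, mul_smul_comm]
      exact congrArg (fun A => c • A) h4.symm
    rw [← hout x]
    exact (QuotientGroup.eq_one_iff _).2 h3
  · -- hX
    rw [hm]
    push_cast
    exact pow_ne_zero m hrK
  · -- conjugation
    intro x
    have h3 : (QuotientGroup.mk (Quotient.out (σ x)) : Γ ⧸ center Γ) =
        QuotientGroup.mk (cu (Quotient.out x)) := by
      rw [hout, ← hσmk, hout]
    obtain ⟨c, hc⟩ := F3 _ _ h3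
    exact ⟨c, hc⟩
  · -- semiregular
    intro x hx
    have h3 : (QuotientGroup.mk (Quotient.out x) : Γ ⧸ center Γ) =
        QuotientGroup.mk (cu^[p ^ (a - 1)] (Quotient.out x)) := by
      rw [← hσit, hout, hx]
    have h4 : (Quotient.out x : Γ)⁻¹ * cu^[p ^ (a - 1)] (Quotient.out x) ∈ center Γ :=
      QuotientGroup.eq.1 h3
    rw [tw_L5a_center] at h4
    have h5 : (((Quotient.out x : Γ)⁻¹ * cu^[p ^ (a - 1)] (Quotient.out x) : Γ) :
        (Module.End K V)ˣ) = (e x)⁻¹ * (z * e x * z⁻¹) := by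
      rw [Subgroup.coe_mul, hcu, tw_L5a_cu_iter, ← hz]
      rfl
    rw [h5] at h4
    have h6 : (Quotient.out x : Γ) ∈ center Γ := by
      rw [tw_L5a_center]
      exact h2 _ (heΓ x) h4
    rw [← hout x]
    exact (QuotientGroup.eq_one_iff _).2 h6
  · -- card
    rw [Finite.one_lt_card_iff_nontrivial]
    by_contra hcon
    rw [not_nontrivial_iff_subsingleton] at hcon
    obtain ⟨x, hx, y, hy, hxy⟩ := hno
    apply hxy
    have h3 : (⟨x, hx⟩ : Γ) ∈ center Γ :=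
      (QuotientGroup.eq_one_iff _).1 (Subsingleton.elim (QuotientGroup.mk ⟨x, hx⟩ : Γ ⧸ center Γ) 1)
    exact (tw_L5a_center Γ _).1 h3 y hy

/-- **Irreducible case.**

Proof. Copy of the proof of `tw_L5` (TwL5.lean), without `hnum`, and with `tw_L5a` replaced by a copy
`zt_L5a` of it which has in addition the conclusion `Nat.card X = Nat.card (Γ ⧸ center Γ)` (in the proof
of `tw_L5a` (TwL5a.lean) `X` is `Γ ⧸ center Γ`, so it is `rfl`; add it to the last `refine`). At the end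
instead of `tw_K3` use `zt_K3`: `Nat.card X = 1 + p ^ a * T.card = (p ^ a - 1) ^ 2`. -/
theorem zt_L5 {K V : Type} [Field K] [IsAlgClosed K] [AddCommGroup V] [Module K V]
    [FiniteDimensional K V] [Nontrivial V] {p r a : ℕ} [Fact p.Prime] [CharP K p] (hr : r.Prime)
    (hrp : r ≠ p) (ha : 0 < a)
    (Γ : Subgroup (Module.End K V)ˣ) [Finite Γ] (hΓ : IsPGroup r Γ)
    (u z : (Module.End K V)ˣ) (hu : u ^ (p ^ a) = 1) (hz : z = u ^ (p ^ (a - 1)))
    (huΓ : ∀ x ∈ Γ, u * x * u⁻¹ ∈ Γ)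
    (hirr : ∀ W : Submodule K V, (∀ x ∈ Γ, ∀ w ∈ W, (x : Module.End K V) w ∈ W) →
      (∀ w ∈ W, (u : Module.End K V) w ∈ W) → W = ⊥ ∨ W = ⊤)
    (hZ : ∀ x ∈ Γ, (∀ y ∈ Γ, x * y = y * x) → ∃ c : K, (x : Module.End K V) = c • 1)
    (h1 : ∀ x ∈ Γ, ∀ y ∈ Γ, ∀ w ∈ Γ, (x * y * x⁻¹ * y⁻¹) * w = w * (x * y * x⁻¹ * y⁻¹))
    (h2 : ∀ x ∈ Γ, (∀ w ∈ Γ, (x⁻¹ * (z * x * z⁻¹)) * w = w * (x⁻¹ * (z * x * z⁻¹))) →
      ∀ w ∈ Γ, x * w = w * x)
    (hno : ∃ x ∈ Γ, ∃ y ∈ Γ, x * y ≠ y * x)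
    (hN : ∑ i ∈ range (p ^ a), (u : Module.End K V) ^ i = 0) :
    Nat.card (Γ ⧸ center Γ) = (p ^ a - 1) ^ 2 ∧ 1 < Nat.card (Γ ⧸ center Γ) := by
  have hp : p.Prime := Fact.out
  obtain ⟨X, hGrp, hFin, e, b, σ, hXc, hA, -, hcov, hσ1, hσb, hσu, hσq, hσz, -, hX1⟩ :=
    zt_L5a hr hrp ha Γ hΓ u z hu hz huΓ hZ h1 h2 hno
  obtain ⟨T, hT⟩ := tw_orb hp ha σ hσ1 hσq hσz
  set φ := tw_L5_conj K u with hφdef
  have hφ : ∀ x, ∃ c : K, φ (e x : Module.End K V) = c • (e (σ x) : Module.End K V) := by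
    intro x
    obtain ⟨c, hc⟩ := hσu x
    refine ⟨c, ?_⟩
    rw [← hc, hφdef, tw_L5_conj_apply, Units.val_mul, Units.val_mul]
  have hb1 : ∀ y, b y 1 = 1 := by
    intro y
    obtain ⟨hb0, -, -, hbm⟩ := hA.bmul
    have h3 := hbm y 1 1
    rw [mul_one] at h3
    have h4 : b y 1 * 1 = b y 1 * b y 1 := by rw [mul_one]; exact h3
    exact (mul_left_cancel₀ (hb0 y 1) h4).symm
  have hfix1 : ∀ A, A ∈ Wt e b 1 → φ A = A → ∃ c : K, A = c • 1 := by
    intro A hAW hAφ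
    refine tw_L5_schur Γ u hirr A ?_ ((tw_L5_conj_eq K u A).1 hAφ)
    intro g hg
    obtain ⟨x, c, hc⟩ := hcov g hg
    have h3 : (e x : Module.End K V) * A = b x 1 • (A * (e x : Module.End K V)) := hAW x
    rw [hb1, one_smul] at h3
    rw [hc, smul_mul_assoc, h3, mul_smul_comm]
  set N : Module.End K V := (u : Module.End K V) - 1 with hNdef
  obtain ⟨hp1, -⟩ := tw_norm_pow (a := a) (u : Module.End K V) (p := p)
  have hNq : N ^ (p ^ a - 1) = 0 := by rw [hNdef, hp1, hN]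
  have hcommφ : ∀ B : Module.End K V, B * N = N * B → φ B = B := by
    intro B hB
    refine (tw_L5_conj_eq K u B).2 ?_
    rw [hNdef, mul_sub, sub_mul, mul_one, one_mul] at hB
    exact (sub_left_injective hB).symm
  have hker : Module.finrank K (LinearMap.ker N) ≤ 1 := by
    refine tw_K1 N (p ^ a - 1) hNq ?_
    intro B hB
    obtain ⟨c, hc⟩ := hA.fix_formula φ σ hσb hφ T hT hσ1 hfix1 B (hcommφ B hB)
    refine ⟨c, ?_⟩
    intro v hv
    have huv : (u : Module.End K V) v = v := by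
      rw [hNdef, LinearMap.sub_apply, Module.End.one_apply, sub_eq_zero] at hv
      exact hv
    have huv' : ((u⁻¹ : (Module.End K V)ˣ) : Module.End K V) v = v := by
      have h3 : ((u⁻¹ : (Module.End K V)ˣ) : Module.End K V) ((u : Module.End K V) v) = v := by
        rw [← Module.End.mul_apply, Units.inv_mul, Module.End.one_apply]
      rwa [huv] at h3
    have hpow : ∀ i : ℕ, (((u⁻¹ : (Module.End K V)ˣ) : Module.End K V) ^ i) v = v := by
      intro i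
      induction i with
      | zero => simp
      | succ i ih => rw [pow_succ, Module.End.mul_apply, huv', ih]
    have hsum : ∀ C : Module.End K V,
        (∑ i ∈ range (p ^ a), (φ^[i]) C) v = 0 := by
      intro C
      rw [LinearMap.sum_apply]
      have h3 : ∀ i ∈ range (p ^ a), ((φ^[i]) C) v = ((u : Module.End K V) ^ i) (C v) := by
        intro i _
        rw [hφdef, tw_L5_conj_iter, Module.End.mul_apply, Module.End.mul_apply, hpow]
      rw [sum_congr rfl h3, ← LinearMap.sum_apply, hN, LinearMap.zero_apply]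
    have h4 := LinearMap.congr_fun hc v
    rw [h4, LinearMap.add_apply, LinearMap.sum_apply, sum_eq_zero (fun t _ => hsum _), add_zero]
    simp
  obtain ⟨hND, hFD⟩ := tw_K2 N (p ^ a - 1) hNq hker
  set D := Module.finrank K V with hD
  have hDpos : 0 < D := Module.finrank_pos
  have hDq : D + 1 ≤ p ^ a := by
    by_contra hcon
    push Not at hcon
    apply hND
    have h3 : D - 1 = (p ^ a - 1) + (D - 1 - (p ^ a - 1)) := by omega
    rw [h3, pow_add, hNq, zero_mul]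
  have hDF : D ≤ 1 + T.card * Module.finrank K (Wt e b 1) := by
    have h3 := hFD (tw_L5_fix K u) (fun B hB => hcommφ B hB)
    exact h3.trans (hA.dim_fix φ σ hσb hφ T hT hσ1 hfix1 (tw_L5_fix K u) (fun A hA => hA))
  have hc1 : 1 ≤ Module.finrank K (Wt e b 1) := by
    have h1mem : (1 : Module.End K V) ∈ Wt e b 1 := by
      intro y
      rw [hb1, one_smul, mul_one, one_mul]
    have hnt : Nontrivial (Wt e b 1) := by
      refine ⟨⟨⟨1, h1mem⟩, 0, ?_⟩⟩
      intro h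
      have h3 := congrArg Subtype.val h
      exact one_ne_zero (α := Module.End K V) (by simp at h3)
    exact Module.finrank_pos
  have hcard : Nat.card X = 1 + p ^ a * T.card := by
    have h3 := hT ℕ (fun _ => 1)
    simp only [sum_const, card_univ, card_range, smul_eq_mul, mul_one] at h3
    rw [Nat.card_eq_fintype_card, h3, mul_comm]
  have hT1 : 1 ≤ T.card := by
    by_contra hcon
    have h3 : T.card = 0 := by omega
    rw [hcard, h3] at hX1
    omega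
  have hDD : D * D = (1 + p ^ a * T.card) * Module.finrank K (Wt e b 1) := by
    rw [← hcard, ← hA.dim, hD]
    exact (Module.finrank_linearMap K K V V).symm
  have h9 := zt_K3 hDD hDF hDq hc1 hT1
  rw [← hXc]
  exact ⟨by rw [hcard, h9], hX1⟩

end Pool.Agent.Lib.MP_544bd1_al
end

section

/-!
Theorem Z3: Frattini argument for a given subgroup.
-/

namespace Pool.Agent.Lib.MP_544bd1_al

open Subgroup

/-- the kernel of `f` is a 2-group, `E'` an `r`-group, `r` odd, `f g` normalizes `f E'`: some element of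
`(ker f) * g` normalizes `E'`.

Proof. `B = (E'.map f).comap f = f.ker ⊔ E'` is a subgroup whose Sylow `r`-subgroups have the order
of `E'` (`E' ⊓ f.ker = ⊥`, the index of `E'` in `B` is `Nat.card f.ker`, a power of 2), so `E'` and
`g * E' * g⁻¹` (contained in `B` by `hg`) are Sylow `r`-subgroups of `B`, conjugate in `B`: there is
`b ∈ B` with `(b * g) * E' * (b * g)⁻¹ = E'`; `b = e * w` with `e ∈ E'`, `w ∈ f.ker` (`f.ker` is
normal), so `w * g` normalizes `E'` too. -/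
theorem zt_frat {X Y : Type} [Group X] [Finite X] [Group Y] {r : ℕ} (hr : r.Prime) (hr2 : r ≠ 2)
    (f : X →* Y) (hker : ∀ w ∈ f.ker, ∃ k, w ^ (2 ^ k) = 1) (E' : Subgroup X)
    (hE : IsPGroup r E') {g : X} (hg : ∀ e ∈ E', ∃ e' ∈ E', f g * f e * (f g)⁻¹ = f e') :
    ∃ w ∈ f.ker, ∀ e ∈ E', (w * g) * e * (w * g)⁻¹ ∈ E' := by
  classical
  have hFr : Fact r.Prime := ⟨hr⟩
  have hF2 : Fact (Nat.Prime 2) := ⟨Nat.prime_two⟩
  let B : Subgroup X := (E'.map f).comap f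
  have hEB : E' ≤ B := Subgroup.map_le_iff_le_comap.1 le_rfl
  let C : Subgroup X := E'.map (MulAut.conj g).toMonoidHom
  have hCmem : ∀ e ∈ E', g * e * g⁻¹ ∈ C := fun e he => ⟨e, he, rfl⟩
  have hCB : C ≤ B := by
    rintro _ ⟨e, he, rfl⟩
    obtain ⟨e', he', h⟩ := hg e he
    refine ⟨e', he', ?_⟩
    change f e' = f (g * e * g⁻¹)
    rw [← h, map_mul, map_mul, map_inv]
  -- the order of `B`
  obtain ⟨s, hs⟩ := IsPGroup.iff_card.1 hE
  let φ : B →* Y := f.comp B.subtype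
  have hφ2 : IsPGroup 2 φ.ker := by
    rintro ⟨⟨w, hwB⟩, hw⟩
    obtain ⟨k, hk⟩ := hker w hw
    exact ⟨k, Subtype.ext (Subtype.ext hk)⟩
  obtain ⟨k, hk⟩ := IsPGroup.iff_card.1 hφ2
  have hran : Nat.card φ.range ∣ Nat.card E' := by
    have h1 : φ.range ≤ (f.comp E'.subtype).range := by
      rintro _ ⟨⟨b, e, he, heb⟩, rfl⟩
      exact ⟨⟨e, he⟩, heb⟩
    exact (Subgroup.card_dvd_of_le h1).trans (Subgroup.card_range_dvd _)
  rw [hs] at hran
  obtain ⟨t, -, ht⟩ := (Nat.dvd_prime_pow hr).1 hran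
  have hB : Nat.card B = 2 ^ k * r ^ t := by
    rw [← Subgroup.card_mul_index φ.ker, Subgroup.index_ker, hk, ht]
  have hc2 : Nat.Coprime r 2 := (Nat.coprime_primes hr Nat.prime_two).2 hr2
  have hst : s ≤ t := by
    have h1 : Nat.card E' ∣ Nat.card B := Subgroup.card_dvd_of_le hEB
    rw [hs, hB] at h1
    have h2 : r ^ s ∣ r ^ t := (Nat.Coprime.pow s k hc2).dvd_of_dvd_mul_left h1
    exact (Nat.pow_dvd_pow_iff_le_right hr.one_lt).1 h2
  have hts : t ≤ s := by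
    have h1 : r ^ t ∣ r ^ s := by rw [← ht]; exact hran
    exact (Nat.pow_dvd_pow_iff_le_right hr.one_lt).1 h1
  have hfac : (Nat.card B).factorization r = s := by
    rw [hB, Nat.factorization_mul (pow_ne_zero _ two_ne_zero) (pow_ne_zero _ hr.ne_zero), Finsupp.add_apply,
      Nat.Prime.factorization_pow Nat.prime_two, Nat.Prime.factorization_pow hr, Finsupp.single_eq_same,
      Finsupp.single_eq_of_ne (by omega), le_antisymm hts hst, zero_add]
  have hc1 : Nat.card (E'.subgroupOf B) = r ^ (Nat.card B).factorization r := by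
    rw [hfac, ← hs]
    exact Nat.card_congr (Subgroup.subgroupOfEquivOfLe hEB).toEquiv
  have hc3 : Nat.card (C.subgroupOf B) = r ^ (Nat.card B).factorization r := by
    rw [hfac, ← hs, Nat.card_congr (Subgroup.subgroupOfEquivOfLe hCB).toEquiv]
    exact Subgroup.card_map_of_injective (MulAut.conj g).injective
  obtain ⟨b, hb⟩ := MulAction.exists_smul_eq B (Sylow.ofCard (C.subgroupOf B) hc3) (Sylow.ofCard (E'.subgroupOf B) hc1)
  have hconj : ∀ e ∈ E', (b : X) * (g * e * g⁻¹) * (b : X)⁻¹ ∈ E' := by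
    intro e he
    have h1 : (⟨g * e * g⁻¹, hCB (hCmem e he)⟩ : B) ∈ (Sylow.ofCard (C.subgroupOf B) hc3 : Subgroup B) :=
      hCmem e he
    have h2 : b * ⟨g * e * g⁻¹, hCB (hCmem e he)⟩ * b⁻¹ ∈ (Sylow.ofCard (E'.subgroupOf B) hc1 : Subgroup B) := by
      rw [← hb]
      exact Subgroup.smul_mem_pointwise_smul _ (MulAut.conj b) _ h1
    exact h2
  obtain ⟨e₀, he₀, hbe⟩ := b.2
  refine ⟨e₀⁻¹ * b, ?_, fun e he => ?_⟩
  · rw [MonoidHom.mem_ker, map_mul, map_inv, hbe, inv_mul_cancel]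
  · have h1 := E'.mul_mem (E'.mul_mem (E'.inv_mem he₀) (hconj e he)) he₀
    have h2 : e₀⁻¹ * (b : X) * g * e * (e₀⁻¹ * (b : X) * g)⁻¹ =
        e₀⁻¹ * ((b : X) * (g * e * g⁻¹) * (b : X)⁻¹) * e₀ := by group
    rw [h2]
    exact h1

end Pool.Agent.Lib.MP_544bd1_al
end
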