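import Mathlib
import Pool.Agent.Lib.MP_544bd1_al.ZtFrat
import Pool.Agent.Lib.MP_544bd1_al.TwS2
import Pool.Agent.Lib.MP_544bd1_al.ZtF3

section

/-!
General even exponents, section 2 (the base): definitions. `M = 2 ^ (a - 1)`, `x = g ^ M`.
-/

namespace Pool.Agent.Lib.MP_544bd1_al

open Subgroup

/-- the minimal configuration: `R` an `r`-group normalized by `x`, acting nontrivially on the
2-group `Q`, and trivially on the proper `R⟨x⟩`-invariant subgroups of `Q` -/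
structure ZsCore (r a : ℕ) {F : Type} [Group F] (Q R : Subgroup F) (x : F) : Prop where
  hQ : ∀ q ∈ Q, q ^ (2 ^ a) = 1
  hR : IsPGroup r R
  hxR : ∀ g ∈ R, x * g * x⁻¹ ∈ R
  ne : ∃ g ∈ R, ∃ q ∈ Q, g * q ≠ q * g
  min : ∀ Q' : Subgroup F, Q' ≤ Q → Q' ≠ Q → (∀ g ∈ R, ∀ q ∈ Q', g * q * g⁻¹ ∈ Q') →
    (∀ q ∈ Q', x * q * x⁻¹ ∈ Q') → ∀ g ∈ R, ∀ q ∈ Q', g * q = q * g

/-- The minimal configuration of the base: `R` is generated by the elements inverted by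
`x = g ^ (2 ^ (a - 1))` (`gen`), and `x` centralizes the proper `g`-invariant subgroups of `R` modulo
the centralizer of `Q` (`minR`). -/
structure ZsMin (r a : ℕ) {F : Type} [Group F] (Q R : Subgroup F) (g : F) : Prop where
  core : ZsCore r a Q R g
  hg : g ^ (2 ^ a) = 1
  gen : ∀ S : Subgroup F, (∀ s ∈ R,
    g ^ (2 ^ (a - 1)) * s * (g ^ (2 ^ (a - 1)))⁻¹ = s⁻¹ → s ∈ S) → R ≤ S
  minR : ∀ R₁ : Subgroup F, R₁ ≤ R → R₁ ≠ R → (∀ s ∈ R₁, g * s * g⁻¹ ∈ R₁) →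
    ∀ s ∈ R₁, ∀ q ∈ Q, g ^ (2 ^ (a - 1)) * s * (g ^ (2 ^ (a - 1)))⁻¹ * s⁻¹ * q =
      q * (g ^ (2 ^ (a - 1)) * s * (g ^ (2 ^ (a - 1)))⁻¹ * s⁻¹)

end Pool.Agent.Lib.MP_544bd1_al
end

section

/-!
Theorem Z (paper 287), 4.5-4.8: the derived data of a block.
Conventions: `y = g ^ (2 ^ (a - 2))`, `Z` is generated by the squares of `Q`, `Q₀ = [Q, c]`,
`E = ⟨e, e'⟩`, `μ = e * e'⁻¹`, `σ = e * e' * c`.
-/

namespace Pool.Agent.Lib.MP_544bd1_al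

open Subgroup

section defs

variable {X : Type} [Group X]

/-- the subgroup generated by the squares of `Q` -/
def yZ (Q : Subgroup X) : Subgroup X := closure {z | ∃ x ∈ Q, z = x ^ 2}

/-- `[Q, c]` -/
def y0 (Q : Subgroup X) (c : X) : Subgroup X := closure {z | ∃ x ∈ Q, z = x⁻¹ * (c * x * c⁻¹)}

/-- `h` centralizes `Q` and `R` -/
def YTr (Q R : Subgroup X) (h : X) : Prop :=
  (∀ x ∈ Q, h * x * h⁻¹ = x) ∧ ∀ r ∈ R, h * r * h⁻¹ = r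

/-- the conjugates of `E` and `Q₀` by `h` commute with `E` and `Q₀` -/
def YOut (Q₀ E : Subgroup X) (h : X) : Prop :=
  (∀ r ∈ E, ∀ x ∈ Q₀, (h * r * h⁻¹) * x = x * (h * r * h⁻¹)) ∧
  (∀ r ∈ E, ∀ x ∈ Q₀, (h * x * h⁻¹) * r = r * (h * x * h⁻¹)) ∧
  (∀ r ∈ E, ∀ s ∈ E, (h * r * h⁻¹) * s = s * (h * r * h⁻¹)) ∧
  ∀ x ∈ Q₀, ∀ x' ∈ Q₀, (h * x' * h⁻¹) * x = x * (h * x' * h⁻¹)

/-- the subgroup generated by the conjugates of `x` under `⟨g, τ⟩ E` -/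
def yP (g τ : X) (E : Subgroup X) (x : X) : Subgroup X :=
  closure {z | ∃ h ∈ closure {g, τ}, ∃ r ∈ E, z = (h * r) * x * (h * r)⁻¹}

end defs

/-- The derived data of a block. -/
structure YX (a k : ℕ) {X : Type} [Group X] (Q Q₀ Z R E : Subgroup X) (g τ y c μ σ : X) : Prop where
  hy : y = g ^ (2 ^ (a - 2))
  hg : g ^ (2 ^ a) = 1
  hgτ : g * τ = τ * g
  hR3 : IsPGroup 3 (R ⊔ zpowers τ : Subgroup X)
  hQ2 : ∀ x ∈ Q, x ^ (2 ^ a) = 1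
  gQ : ∀ x ∈ Q, g * x * g⁻¹ ∈ Q
  τQ : ∀ x ∈ Q, τ * x * τ⁻¹ ∈ Q
  RQ : ∀ r ∈ R, ∀ x ∈ Q, r * x * r⁻¹ ∈ Q
  gR : ∀ r ∈ R, g * r * g⁻¹ ∈ R
  τR : ∀ r ∈ R, τ * r * τ⁻¹ ∈ R
  /-- `g ^ (2 ^ (a - 1))` centralizes `Q` and `R` -/
  κ : YTr Q R (g ^ (2 ^ (a - 1)))
  /-- `τ ^ (3 ^ k)` centralizes `Q` and `R` -/
  τ₀ : YTr Q R (τ ^ (3 ^ k))
  /-- `Z`: central in `Q`, centralized by `R`, elementary abelian -/
  ZQ : Z ≤ Q
  Z2 : ∀ z ∈ Z, z ^ 2 = 1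
  Zc : ∀ z ∈ Z, ∀ x ∈ Q, z * x = x * z
  ZR : ∀ z ∈ Z, ∀ r ∈ R, z * r = r * z
  Zg : ∀ z ∈ Z, g * z * g⁻¹ ∈ Z
  Zτ : ∀ z ∈ Z, τ * z * τ⁻¹ ∈ Z
  sq : ∀ x ∈ Q, x ^ 2 ∈ Z
  cm : ∀ x ∈ Q, ∀ x' ∈ Q, x * x' * x⁻¹ * x'⁻¹ ∈ Z
  /-- `Q₀` -/
  QQ : Q₀ ≤ Q
  RQ₀ : ∀ r ∈ R, ∀ x ∈ Q₀, r * x * r⁻¹ ∈ Q₀
  yQ₀ : ∀ x ∈ Q₀, y * x * y⁻¹ ∈ Q₀
  fix : ∀ x ∈ Q₀, c * x = x * c → x ∈ Z
  nrm : ∀ x ∈ Q₀, x * (c * x * c⁻¹) * (c ^ 2 * x * (c ^ 2)⁻¹) ∈ Z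
  ex : ∀ r ∈ R, ∀ x ∈ Q, r * x * r⁻¹ * x⁻¹ ∈ Z → r * x = x * r
  ne : ∃ x ∈ Q₀, x ∉ Z
  /-- `E` -/
  ER : E ≤ R
  cE : c ∈ E
  μE : μ ∈ E
  σE : σ ∈ E
  yE : ∀ r ∈ E, y * r * y⁻¹ ∈ E
  cR : ∀ r ∈ R, c * r = r * c
  c3 : c ^ 3 = 1
  μ3 : μ ^ 3 = 1
  σ3 : σ ^ 3 = 1
  σμ : σ * μ = c * μ * σ
  form : ∀ r ∈ E, ∃ i j l : ℕ, r = c ^ i * σ ^ j * μ ^ l
  yc : y * c * y⁻¹ = c⁻¹
  yμ : y * μ * y⁻¹ = μ⁻¹
  yσ : y * σ * y⁻¹ = σ
  /-- the elements of `⟨g, τ⟩` -/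
  tri : ∀ h ∈ closure {g, τ}, YTr Q R h ∨ YTr Q R (y⁻¹ * h) ∨ YOut Q₀ E h
  /-- powers -/
  outg : ∀ l, 0 < l → l < 2 ^ (a - 2) → YOut Q₀ E (g ^ l)
  outτ : ∀ i, 0 < i → i < 3 ^ k → ∀ h ∈ closure {g}, YOut Q₀ E (τ ^ i * h)
  outgτ : ∀ l, 0 < l → l < 2 ^ (a - 2) → ∀ h ∈ closure {τ}, YOut Q₀ E (g ^ l * h)

/-- the element `x` of 4.5 (a normalized lift of `e₁`), `f₀ = x ^ 2`. The lines are
`x_j = σ ^ j * x * (σ ^ j)⁻¹`, `j = 0, 1, 2`. -/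
structure YE {X : Type} [Group X] (Q₀ Z : Subgroup X) (y c μ x : X) : Prop where
  h0 : x ∈ Q₀
  hZ : x ∉ Z
  hμ : μ * x = x * μ
  h3 : x * (c * x * c⁻¹) * (c ^ 2 * x * (c ^ 2)⁻¹) = 1
  hy : y * x * y⁻¹ = x⁻¹

end Pool.Agent.Lib.MP_544bd1_al
end

section

/-!
Theorem Z (paper 287): (Chain), (Step), the norm `ynorm`.
-/

namespace Pool.Agent.Lib.MP_544bd1_al

open Subgroup

/-- **(Chain)** -/
theorem ys_chain {m : ℕ} (hm : Odd m) {F : Type} [Group F] (O : Subgroup F)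
    (hO : ∀ g ∈ O, g ^ m = 1) {α z : F} (k : ℕ) (μ : ℕ → F) (hαO : ∀ g ∈ O, α * g * α⁻¹ ∈ O)
    (hzO : ∀ g ∈ O, z * g * z⁻¹ ∈ O) (hμO : ∀ c < k, ∀ g ∈ O, μ c * g * (μ c)⁻¹ ∈ O)
    (hαk : ∀ g ∈ O, α ^ (2 ^ k) * g = g * α ^ (2 ^ k)) (hz2 : z ^ 2 = 1) (hαz : α * z = z * α)
    (hμz : ∀ c < k, μ c * z = z * μ c)
    (hμ : ∀ c < k, (μ c)⁻¹ * α ^ (2 ^ c) * μ c = α ^ (2 ^ c) * z)
    (hne : ∃ g ∈ O, z * g ≠ g * z) : ∃ g ∈ O, α * g = g * α ∧ z * g ≠ g * z := by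
  have hαn : ∀ n : ℕ, ∀ g ∈ O, α ^ n * g * (α ^ n)⁻¹ ∈ O := by
    intro n
    induction n with
    | zero => intro g hg; simpa using hg
    | succ n ih =>
      intro g hg
      have h1 := hαO _ (ih g hg)
      have h2 : α ^ (n + 1) * g * (α ^ (n + 1))⁻¹ = α * (α ^ n * g * (α ^ n)⁻¹) * α⁻¹ := by
        rw [pow_succ']; group
      rwa [h2]
  have hzn : ∀ n : ℕ, α ^ n * z = z * α ^ n := fun n => (Commute.pow_left hαz n)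
  have key : ∀ j, j ≤ k → ∃ g ∈ O, α ^ (2 ^ (k - j)) * g = g * α ^ (2 ^ (k - j)) ∧
      z * g ≠ g * z := by
    intro j
    induction j with
    | zero =>
      intro _
      obtain ⟨g, hg, h⟩ := hne
      exact ⟨g, hg, by simpa using hαk g hg, h⟩
    | succ j ih =>
      intro hj
      obtain ⟨g₀, hg₀, h1, h2⟩ := ih (by omega)
      obtain ⟨c, hc⟩ : ∃ c, c = k - (j + 1) := ⟨_, rfl⟩
      have hck : c < k := by omega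
      have hc1 : k - j = c + 1 := by omega
      rw [← hc]
      rw [hc1] at h1
      have hpow : α ^ (2 ^ (c + 1)) = (α ^ (2 ^ c)) ^ 2 := by
        rw [← pow_mul]
        congr 1
      -- the subgroup of `O` centralized by `α ^ (2 ^ (c + 1))`
      let A : Subgroup F := O ⊓ centralizer {α ^ (2 ^ (c + 1))}
      have hA : ∀ g, g ∈ A ↔ g ∈ O ∧ α ^ (2 ^ (c + 1)) * g = g * α ^ (2 ^ (c + 1)) := by
        intro g
        rw [mem_inf, mem_centralizer_singleton_iff]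
        constructor
        · rintro ⟨h3, h4⟩
          exact ⟨h3, h4.symm⟩
        · rintro ⟨h3, h4⟩
          exact ⟨h3, h4.symm⟩
      have hconj : ∀ t : F, (∀ g ∈ O, t * g * t⁻¹ ∈ O) →
          α ^ (2 ^ (c + 1)) * t = t * α ^ (2 ^ (c + 1)) → ∀ g ∈ A, t * g * t⁻¹ ∈ A := by
        intro t ht1 ht2 g hg
        rw [hA] at hg ⊢
        refine ⟨ht1 g hg.1, ?_⟩
        have e1 : Commute (α ^ (2 ^ (c + 1))) t := ht2
        have e2 : Commute (α ^ (2 ^ (c + 1))) g := hg.2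
        exact (e1.mul_right e2).mul_right e1.inv_right
      have hμc : α ^ (2 ^ (c + 1)) * μ c = μ c * α ^ (2 ^ (c + 1)) := by
        have e1 : (μ c)⁻¹ * (α ^ (2 ^ c)) ^ 2 * μ c = (α ^ (2 ^ c) * z) ^ 2 := by
          rw [← hμ c hck]
          rw [pow_two, pow_two]
          group
        have e2 : (α ^ (2 ^ c) * z) ^ 2 = (α ^ (2 ^ c)) ^ 2 := by
          have : Commute (α ^ (2 ^ c)) z := hzn _
          rw [this.mul_pow, hz2, mul_one]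
        rw [e2, ← hpow] at e1
        calc α ^ (2 ^ (c + 1)) * μ c = μ c * ((μ c)⁻¹ * α ^ (2 ^ (c + 1)) * μ c) := by group
          _ = μ c * α ^ (2 ^ (c + 1)) := by rw [e1]
      have h3 := zt_swap hm A (fun g hg => hO g ((hA g).1 hg).1) (x := α ^ (2 ^ c)) (z := z)
        (μ := μ c) (hconj _ (hαn _) (by rw [← pow_add, ← pow_add, add_comm]))
        (hconj _ hzO (hzn _)) (hconj _ (hμO c hck) hμc)
        (fun g hg => by rw [← hpow]; exact ((hA g).1 hg).2) hz2 (hzn _) (hμz c hck) (hμ c hck)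
        ⟨g₀, (hA g₀).2 ⟨hg₀, h1⟩, h2⟩
      obtain ⟨g, hg, h4, h5⟩ := h3
      exact ⟨g, ((hA g).1 hg).1, h4, h5⟩
  obtain ⟨g, hg, h1, h2⟩ := key k le_rfl
  refine ⟨g, hg, ?_, h2⟩
  simpa using h1

/-- **(Step)** -/
theorem ys_stepm {F : Type} [Group F] {α z μ : F} (hαz : α * z = z * α) (hz2 : z ^ 2 = 1)
    (h : μ⁻¹ * α ^ 2 * μ = α ^ 2 * z)
    (h2 : (μ⁻¹ * (α * μ * α⁻¹)) ^ 2 = 1) :
    (μ⁻¹ * (α * μ * α⁻¹))⁻¹ * α * (μ⁻¹ * (α * μ * α⁻¹)) = α * z := by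
  set ν := μ⁻¹ * (α * μ * α⁻¹) with hν
  have hνi : ν⁻¹ = ν := by
    rw [inv_eq_iff_mul_eq_one, ← pow_two, h2]
  have hzi : z⁻¹ = z := by
    rw [inv_eq_iff_mul_eq_one, ← pow_two, hz2]
  have h3 : α ^ 2 * μ = μ * α ^ 2 * z := by
    calc α ^ 2 * μ = μ * (μ⁻¹ * α ^ 2 * μ) := by group
      _ = μ * (α ^ 2 * z) := by rw [h]
      _ = μ * α ^ 2 * z := by group
  have hc : Commute α z := hαz
  have h4 : α ^ 2 * μ * (α ^ 2)⁻¹ = μ * z := by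
    rw [h3]
    have : Commute (α ^ 2) z := hc.pow_left 2
    rw [mul_assoc μ, this.eq]
    group
  have h5 : α * μ * α⁻¹ = μ * ν := by rw [hν]; group
  have h6 : μ * (ν * (α * ν * α⁻¹)) = μ * z := by
    rw [← h4]
    have : α ^ 2 * μ * (α ^ 2)⁻¹ = α * (α * μ * α⁻¹) * α⁻¹ := by rw [pow_two]; group
    rw [this, h5]
    have e : α * (μ * ν) * α⁻¹ = (α * μ * α⁻¹) * (α * ν * α⁻¹) := by group
    rw [e, h5, ← mul_assoc]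
  have h7 : ν * (α * ν * α⁻¹) = z := mul_left_cancel h6
  have h8 : α * ν * α⁻¹ = ν * z := by
    calc α * ν * α⁻¹ = ν⁻¹ * (ν * (α * ν * α⁻¹)) := by group
      _ = ν * z := by rw [h7, hνi]
  have h9 : α * ν = ν * z * α := by
    calc α * ν = (α * ν * α⁻¹) * α := by group
      _ = ν * z * α := by rw [h8]
  calc ν⁻¹ * α * ν = ν⁻¹ * (α * ν) := by group
    _ = ν⁻¹ * (ν * z * α) := by rw [h9]
    _ = z * α := by group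
    _ = α * z := hαz.symm

/-- basic facts on the norm -/
theorem ys_norm {a : ℕ} (ha : 1 ≤ a) {F : Type} [Group F] (P : Subgroup F) {α p : F}
    (hP : ∀ x ∈ P, x ^ 2 = 1) (hαP : ∀ x ∈ P, α * x * α⁻¹ ∈ P) (hp : p ∈ P)
    (hcen : ∀ x ∈ P, α ^ (2 ^ (a - 1)) * x = x * α ^ (2 ^ (a - 1))) :
    (∀ n, ynorm n α p ∈ P) ∧ (∀ x ∈ P, ∀ y ∈ P, x * y = y * x) ∧
      ynorm (2 ^ (a - 1)) α p ^ 2 = 1 ∧
      α * ynorm (2 ^ (a - 1)) α p = ynorm (2 ^ (a - 1)) α p * α ∧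
      (∀ n, (p * α) ^ n = ynorm n α p * α ^ n) ∧
      (∀ n, ∀ x ∈ P, (p * α) ^ n * x * ((p * α) ^ n)⁻¹ = α ^ n * x * (α ^ n)⁻¹) ∧
      (∀ n k, ynorm (n + k) α p = ynorm n α p * (α ^ n * ynorm k α p * (α ^ n)⁻¹)) := by
  have hcomm : ∀ x ∈ P, ∀ y ∈ P, x * y = y * x := by
    intro x hx y hy
    have h1 := hP _ (P.mul_mem hx hy)
    have h2 := hP x hx
    have h3 := hP y hy
    rw [pow_two] at h1 h2 h3
    calc x * y = x * ((x * y) * (x * y)) * y := by rw [h1]; group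
      _ = (x * x) * (y * x) * (y * y) := by group
      _ = y * x := by rw [h2, h3]; group
  have hαn : ∀ n : ℕ, ∀ g ∈ P, α ^ n * g * (α ^ n)⁻¹ ∈ P := by
    intro n
    induction n with
    | zero => intro g hg; simpa using hg
    | succ n ih =>
      intro g hg
      have h1 := hαP _ (ih g hg)
      have h2 : α ^ (n + 1) * g * (α ^ (n + 1))⁻¹ = α * (α ^ n * g * (α ^ n)⁻¹) * α⁻¹ := by
        rw [pow_succ']; group
      rwa [h2]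
  have hpow : ∀ n, (p * α) ^ n = ynorm n α p * α ^ n := by
    intro n
    unfold ynorm
    group
  have hadd : ∀ n k, ynorm (n + k) α p = ynorm n α p * (α ^ n * ynorm k α p * (α ^ n)⁻¹) := by
    intro n k
    unfold ynorm
    rw [pow_add, pow_add]
    group
  have hmem : ∀ n, ynorm n α p ∈ P := by
    intro n
    induction n with
    | zero => unfold ynorm; simp [P.one_mem]
    | succ n ih =>
      rw [hadd]
      refine P.mul_mem ih (hαn n _ ?_)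
      have : ynorm 1 α p = p := by unfold ynorm; group
      rwa [this]
  have h1p : ynorm 1 α p = p := by unfold ynorm; group
  refine ⟨hmem, hcomm, hP _ (hmem _), ?_, hpow, ?_, hadd⟩
  · -- `α` commutes with the norm
    have e1 := hadd 1 (2 ^ (a - 1))
    have e2 := hadd (2 ^ (a - 1)) 1
    rw [add_comm (2 ^ (a - 1)) 1, e1] at e2
    rw [h1p, hcen p hp, mul_inv_cancel_right, pow_one] at e2
    have e3 : p * (α * ynorm (2 ^ (a - 1)) α p * α⁻¹) = p * ynorm (2 ^ (a - 1)) α p := by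
      rw [e2, hcomm _ (hmem _) _ hp]
    have e4 := mul_left_cancel e3
    calc α * ynorm (2 ^ (a - 1)) α p = (α * ynorm (2 ^ (a - 1)) α p * α⁻¹) * α := by group
      _ = _ := by rw [e4]
  · intro n x hx
    rw [hpow]
    have e1 : ynorm n α p * (α ^ n * x * (α ^ n)⁻¹) * (ynorm n α p)⁻¹ = α ^ n * x * (α ^ n)⁻¹ := by
      rw [hcomm _ (hmem n) _ (hαn n x hx)]
      group
    calc ynorm n α p * α ^ n * x * (ynorm n α p * α ^ n)⁻¹ =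
        ynorm n α p * (α ^ n * x * (α ^ n)⁻¹) * (ynorm n α p)⁻¹ := by group
      _ = _ := e1

/-- the norms for `p * α` and `α` agree -/
theorem ys_norm' {a : ℕ} (ha : 1 ≤ a) {F : Type} [Group F] (P : Subgroup F) {α p x : F}
    (hP : ∀ x ∈ P, x ^ 2 = 1) (hαP : ∀ x ∈ P, α * x * α⁻¹ ∈ P) (hp : p ∈ P) (hx : x ∈ P)
    (hcen : ∀ x ∈ P, α ^ (2 ^ (a - 1)) * x = x * α ^ (2 ^ (a - 1))) (n : ℕ) :
    ynorm n (p * α) x = ynorm n α x := by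
  obtain ⟨h1, h2, h3, h4, h5, h6, h7⟩ := ys_norm ha P hP hαP hp hcen
  obtain ⟨k1, k2, k3, k4, k5, k6, k7⟩ := ys_norm ha P hP hαP hx hcen
  have hαP' : ∀ x ∈ P, (p * α) * x * (p * α)⁻¹ ∈ P := by
    intro y hy
    have := h6 1 y hy
    rw [pow_one, pow_one] at this
    rw [this]
    exact hαP y hy
  induction n with
  | zero => unfold ynorm; simp
  | succ n ih =>
    have e1 : ∀ (β : F) (n : ℕ), ynorm (n + 1) β x = ynorm n β x * (β ^ n * x * (β ^ n)⁻¹) := by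
      intro β n
      unfold ynorm
      rw [pow_succ, pow_succ]
      group
    rw [e1, e1, ih, h6 n x hx]

/-- **(Chain)** for the norm: `α ^ (2 ^ (a - 1))` trivial on the odd group `O`, the norm of `p`
not -/
theorem ys_chainP {m a : ℕ} (hm : Odd m) (ha : 2 ≤ a) {F : Type} [Group F] (O P : Subgroup F)
    (hO : ∀ g ∈ O, g ^ m = 1) {α p : F} (hP : ∀ x ∈ P, x ^ 2 = 1)
    (hαP : ∀ x ∈ P, α * x * α⁻¹ ∈ P) (hp : p ∈ P)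
    (hcen : ∀ x ∈ P, α ^ (2 ^ (a - 1)) * x = x * α ^ (2 ^ (a - 1)))
    (hαO : ∀ g ∈ O, α * g * α⁻¹ ∈ O) (hPO : ∀ x ∈ P, ∀ g ∈ O, x * g * x⁻¹ ∈ O)
    (hαk : ∀ g ∈ O, α ^ (2 ^ (a - 1)) * g = g * α ^ (2 ^ (a - 1)))
    (hne : ∃ g ∈ O, ynorm (2 ^ (a - 1)) α p * g ≠ g * ynorm (2 ^ (a - 1)) α p) :
    ∃ g ∈ O, α * g = g * α ∧ ynorm (2 ^ (a - 1)) α p * g ≠ g * ynorm (2 ^ (a - 1)) α p := by
  obtain ⟨h1, h2, h3, h4, h5, h6, h7⟩ := ys_norm (by omega) P hP hαP hp hcen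
  set z := ynorm (2 ^ (a - 1)) α p with hz
  have hαn : ∀ n : ℕ, ∀ g ∈ P, α ^ n * g * (α ^ n)⁻¹ ∈ P := by
    intro n
    induction n with
    | zero => intro g hg; simpa using hg
    | succ n ih =>
      intro g hg
      have h1 := hαP _ (ih g hg)
      have h2 : α ^ (n + 1) * g * (α ^ (n + 1))⁻¹ = α * (α ^ n * g * (α ^ n)⁻¹) * α⁻¹ := by
        rw [pow_succ']; group
      rwa [h2]
  have hzn : ∀ n : ℕ, α ^ n * z = z * α ^ n := fun n => (Commute.pow_left h4 n)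
  have hinv : ∀ x ∈ P, x⁻¹ = x := by
    intro x hx
    rw [inv_eq_iff_mul_eq_one, ← pow_two, hP x hx]
  -- the elements `μ c`
  have key : ∀ j, j ≤ a - 2 → ∃ ν ∈ P, ν⁻¹ * α ^ (2 ^ (a - 2 - j)) * ν =
      α ^ (2 ^ (a - 2 - j)) * z := by
    intro j
    induction j with
    | zero =>
      intro _
      refine ⟨ynorm (2 ^ (a - 2)) α p, h1 _, ?_⟩
      rw [Nat.sub_zero]
      set ν := ynorm (2 ^ (a - 2)) α p with hν
      have e1 : z = ν * (α ^ (2 ^ (a - 2)) * ν * (α ^ (2 ^ (a - 2)))⁻¹) := by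
        rw [hz, hν, ← h7]
        congr 1
        rw [← two_mul, ← pow_succ']
        congr 1
        omega
      have e2 : α ^ (2 ^ (a - 2)) * (α ^ (2 ^ (a - 2)) * ν * (α ^ (2 ^ (a - 2)))⁻¹) *
          (α ^ (2 ^ (a - 2)))⁻¹ = ν := by
        have e3 : α ^ (2 ^ (a - 2)) * α ^ (2 ^ (a - 2)) = α ^ (2 ^ (a - 1)) := by
          rw [← pow_add, ← two_mul, ← pow_succ']
          congr 2
          omega
        calc α ^ (2 ^ (a - 2)) * (α ^ (2 ^ (a - 2)) * ν * (α ^ (2 ^ (a - 2)))⁻¹) *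
            (α ^ (2 ^ (a - 2)))⁻¹ = (α ^ (2 ^ (a - 2)) * α ^ (2 ^ (a - 2))) * ν *
              (α ^ (2 ^ (a - 2)) * α ^ (2 ^ (a - 2)))⁻¹ := by group
          _ = ν := by rw [e3, hcen ν (h1 _)]; group
      have e4 : ν⁻¹ * α ^ (2 ^ (a - 2)) * ν = ν * (α ^ (2 ^ (a - 2)) * ν *
          (α ^ (2 ^ (a - 2)))⁻¹) * α ^ (2 ^ (a - 2)) := by
        rw [hinv ν (h1 _)]; group
      rw [e4, ← e1, hzn]
    | succ j ih =>
      intro hj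
      obtain ⟨ν, hν, hν1⟩ := ih (by omega)
      obtain ⟨c, hc⟩ : ∃ c, c = a - 2 - (j + 1) := ⟨_, rfl⟩
      have hc1 : a - 2 - j = c + 1 := by omega
      rw [← hc]
      rw [hc1] at hν1
      have hpow : α ^ (2 ^ (c + 1)) = (α ^ (2 ^ c)) ^ 2 := by
        rw [← pow_mul]
        congr 1
      rw [hpow] at hν1
      have hmem : ν⁻¹ * (α ^ (2 ^ c) * ν * (α ^ (2 ^ c))⁻¹) ∈ P :=
        P.mul_mem (P.inv_mem hν) (hαn _ ν hν)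
      exact ⟨_, hmem, ys_stepm (hzn _) h3 hν1 (hP _ hmem)⟩
  choose! ν hν1 hν2 using key
  have hk : ∀ c < a - 1, ∃ μ ∈ P, μ⁻¹ * α ^ (2 ^ c) * μ = α ^ (2 ^ c) * z := by
    intro c hc
    have e : a - 2 - (a - 2 - c) = c := by omega
    have h8 := hν2 (a - 2 - c) (by omega)
    rw [e] at h8
    exact ⟨_, hν1 _ (by omega), h8⟩
  choose! μ hμ1 hμ2 using hk
  exact ys_chain hm O hO (a - 1) μ hαO (hPO z (h1 _)) (fun c hc => hPO _ (hμ1 c hc)) hαk h3 h4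
    (fun c hc => h2 _ (hμ1 c hc) _ (h1 _)) hμ2 hne

end Pool.Agent.Lib.MP_544bd1_al
end

section

/-!
Theorem Z3, Case B: definitions.
-/

namespace Pool.Agent.Lib.MP_544bd1_al

open Subgroup

/-- The minimal configuration of Case B: `g ^ 8 = 1`, `R` is generated by the elements inverted by
`g ^ 4` (`gen`), and `g ^ 4` centralizes the proper `g`-invariant subgroups of `R` modulo the
centralizer of `Q` (`minR`). -/
structure ZMinB (r : ℕ) {F : Type} [Group F] (Q R : Subgroup F) (g : F) : Prop where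
  core : ZCore r Q R g
  hg : g ^ 8 = 1
  gen : ∀ S : Subgroup F, (∀ s ∈ R, g ^ 4 * s * (g ^ 4)⁻¹ = s⁻¹ → s ∈ S) → R ≤ S
  minR : ∀ R₁ : Subgroup F, R₁ ≤ R → R₁ ≠ R → (∀ s ∈ R₁, g * s * g⁻¹ ∈ R₁) →
    ∀ s ∈ R₁, ∀ q ∈ Q, g ^ 4 * s * (g ^ 4)⁻¹ * s⁻¹ * q = q * (g ^ 4 * s * (g ^ 4)⁻¹ * s⁻¹)

/-- The contradictory configuration (B). -/
structure ZBc {G : Type} [Group G] (g u w : G) : Prop where
  hg : g ^ 8 = 1
  hu : u ^ 4 = 1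
  hu2 : u ^ 2 ≠ 1
  hx : u⁻¹ * g ^ 4 * u = g ^ 4 * u ^ 2
  hz : g * u ^ 2 = u ^ 2 * g
  h1 : (u⁻¹ * ((g ^ 2)⁻¹ * u * g ^ 2)) ^ 2 = 1
  h0 : ((u⁻¹ * ((g ^ 2)⁻¹ * u * g ^ 2))⁻¹ * (g⁻¹ * (u⁻¹ * ((g ^ 2)⁻¹ * u * g ^ 2)) * g)) ^ 2 = 1
  hw : w ∈ closure {g, w⁻¹ * g * w}
  hwu : u ∈ closure {g, w, u ^ 2}

/-- The elements of `R`: `s` inverted by `g ^ 4`, `t = g * s * g⁻¹`, `ζ` the commutator of `s` and `t`,
modulo the kernel of `τ`: `R` is generated by `s`, `t` and the kernel, its center is generated by `ζ`, of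
order `r`. -/
structure ZRb (r : ℕ) {F : Type} [Group F] (R : Subgroup F) (g s : F) {V : Type}
    [AddCommGroup V] [Module (ZMod 2) V] (τ : F →* Module.End (ZMod 2) V) : Prop where
  hs : s ∈ R
  hxs : g ^ 4 * s * (g ^ 4)⁻¹ = s⁻¹
  hsr : τ (s ^ r) = 1
  gen : ∀ S : Subgroup F, s ∈ S → g * s * g⁻¹ ∈ S → (∀ c ∈ R, τ c = 1 → c ∈ S) → R ≤ S
  cl : ∀ a ∈ R, ∀ b ∈ R, ∀ c ∈ R, τ (a * b * a⁻¹ * b⁻¹ * c) = τ (c * (a * b * a⁻¹ * b⁻¹))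
  hζ : τ (s * (g * s * g⁻¹) * s⁻¹ * (g * s * g⁻¹)⁻¹) ≠ 1
  cen : ∀ c ∈ R, (∀ y ∈ R, τ (c * y) = τ (y * c)) →
    ∃ k : ℕ, τ c = τ ((s * (g * s * g⁻¹) * s⁻¹ * (g * s * g⁻¹)⁻¹) ^ k)
  hg2 : τ (g ^ 2 * (s * (g * s * g⁻¹) * s⁻¹ * (g * s * g⁻¹)⁻¹)) =
    τ (s * (g * s * g⁻¹) * s⁻¹ * (g * s * g⁻¹)⁻¹ * g ^ 2)
  hg7 : r = 7 → τ (g * (s * (g * s * g⁻¹) * s⁻¹ * (g * s * g⁻¹)⁻¹)) =
    τ (s * (g * s * g⁻¹) * s⁻¹ * (g * s * g⁻¹)⁻¹ * g)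

/-- The linear situation on `V`: units `s, t, ζ, g` of `End V`. -/
structure ZLinB (r : ℕ) {V : Type} [AddCommGroup V] [Module (ZMod 2) V]
    (s t ζ g : (Module.End (ZMod 2) V)ˣ) : Prop where
  hr : r = 3 ∨ r = 7
  hs : s ^ r = 1
  ht : t ^ r = 1
  hζ : ζ ^ r = 1
  hst : s * t = ζ * t * s
  hζs : ζ * s = s * ζ
  hζt : ζ * t = t * ζ
  hgs : g * s * g⁻¹ = t
  hgt : g * t * g⁻¹ ∈ closure {s, t}
  hxs : g ^ 4 * s * (g ^ 4)⁻¹ = s⁻¹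
  hx2 : g ^ 8 = 1
  hfix : ∀ v : V, (ζ : Module.End (ZMod 2) V) v = v → v = 0
  hxA : ∀ W : Submodule (ZMod 2) V, (∀ w ∈ W, (s : Module.End (ZMod 2) V) w ∈ W) →
    (∀ w ∈ W, (t : Module.End (ZMod 2) V) w ∈ W) →
    ∀ w ∈ W, ((g : Module.End (ZMod 2) V) ^ 4) w ∈ W
  irr : ∀ W : Submodule (ZMod 2) V, (∀ w ∈ W, (s : Module.End (ZMod 2) V) w ∈ W) →
    (∀ w ∈ W, (t : Module.End (ZMod 2) V) w ∈ W) →
    (∀ w ∈ W, (g : Module.End (ZMod 2) V) w ∈ W) → W = ⊥ ∨ W = ⊤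
  hg2 : g ^ 2 * ζ = ζ * g ^ 2
  hg7 : r = 7 → g * ζ = ζ * g
  hN : ((g : Module.End (ZMod 2) V) - 1) ^ 7 = 0

end Pool.Agent.Lib.MP_544bd1_al
end
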