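import Mathlib
import Pool.Agent.Lib.MP_544bd1_al.TwS2
import Pool.Agent.Lib.MP_544bd1_al.ZtFrat
import Pool.Agent.Lib.MP_544bd1_al.ZtFP

section

/-!
Theorem Z (paper 287), 4.8: Lemma C data, general lemma.
-/

namespace Pool.Agent.Lib.MP_544bd1_al

open Subgroup

variable {m a : ℕ} {X : Type} [Group X] [Finite X]

/-- elements of 3-power order are odd. Proof: `orderOf r` divides `3 ^ j` and `m * 2 ^ a`, and is coprime
to `2 ^ a`, so it divides `m`. -/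
theorem ye_pm (hexp : ∀ x : X, x ^ (m * 2 ^ a) = 1) {r : X} {j : ℕ} (hr : r ^ (3 ^ j) = 1) :
    r ^ m = 1 := by
  have h1 : orderOf r ∣ 3 ^ j := orderOf_dvd_of_pow_eq_one hr
  have h2 : orderOf r ∣ m * 2 ^ a := orderOf_dvd_of_pow_eq_one (hexp r)
  have h3 : Nat.Coprime (orderOf r) (2 ^ a) :=
    Nat.Coprime.coprime_dvd_left h1 (Nat.Coprime.pow j a (by norm_num))
  exact orderOf_dvd_iff_pow_eq_one.1 (h3.dvd_of_dvd_mul_right h2)

/-- elements of 2-power order. Proof: the same with `m` odd. -/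
theorem ye_p2 (hm : Odd m) (hexp : ∀ x : X, x ^ (m * 2 ^ a) = 1) {r : X} {j : ℕ}
    (hr : r ^ (2 ^ j) = 1) : r ^ (2 ^ a) = 1 := by
  have h1 : orderOf r ∣ 2 ^ j := orderOf_dvd_of_pow_eq_one hr
  have h2 : orderOf r ∣ m * 2 ^ a := orderOf_dvd_of_pow_eq_one (hexp r)
  have h3 : Nat.Coprime (orderOf r) m :=
    Nat.Coprime.coprime_dvd_left h1 (Nat.Coprime.pow_left j hm.coprime_two_left)
  exact orderOf_dvd_iff_pow_eq_one.1 (h3.dvd_of_dvd_mul_left h2)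

private theorem ye_pow {P : Subgroup X} {α : X} (h : ∀ x ∈ P, α * x * α⁻¹ ∈ P) (k : ℕ) :
    ∀ x ∈ P, α ^ k * x * (α ^ k)⁻¹ ∈ P := by
  induction k with
  | zero => intro x hx; simpa using hx
  | succ k ih =>
    intro x hx
    have h1 := h _ (ih x hx)
    have h2 : α * (α ^ k * x * (α ^ k)⁻¹) * α⁻¹ = α ^ (k + 1) * x * (α ^ (k + 1))⁻¹ := by
      rw [pow_succ']
      group
    rwa [h2] at h1

private theorem ye_inv {P : Subgroup X} {α : X} (h : ∀ x ∈ P, α * x * α⁻¹ ∈ P) :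
    ∀ x ∈ P, α⁻¹ * x * (α⁻¹)⁻¹ ∈ P := by
  intro x hx
  have h1 := ye_pow h (orderOf α - 1) x hx
  have h2 : α ^ (orderOf α - 1) = α⁻¹ := by
    apply eq_inv_of_mul_eq_one_left
    rw [← pow_succ, Nat.sub_add_cancel (orderOf_pos α), pow_orderOf_eq_one]
  rwa [h2] at h1

private theorem ye_cl {P : Subgroup X} {S : Set X} (h : ∀ s ∈ S, ∀ x ∈ P, s * x * s⁻¹ ∈ P) :
    ∀ g ∈ closure S, ∀ x ∈ P, g * x * g⁻¹ ∈ P := by
  intro g hg
  induction hg using closure_induction with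
  | mem s hs => exact h s hs
  | one => intro x hx; simpa using hx
  | mul u v _ _ hu hv =>
    intro x hx
    have h1 := hu _ (hv x hx)
    have h2 : u * (v * x * v⁻¹) * u⁻¹ = (u * v) * x * (u * v)⁻¹ := by group
    rwa [h2] at h1
  | inv u _ hu => exact ye_inv hu

/-- **Lemma C data from one identity.**

Proof. `Q₁ = closure {z | ∃ h ∈ closure {α, ρ}, z = h * q * h⁻¹}`. It is in `P` (`P` is normalized by `α`,
`ρ`, so by `closure {α, ρ}`, `X` finite), contains `q`, is normalized by `α`, `ρ`. `ne`: if the norm `z`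
is 1 then `ρ ^ n * q * (ρ ^ n)⁻¹ = 1`, `q = 1`. `gen`: `B` contains `ρ ^ n * q * (ρ ^ n)⁻¹`; `X` is finite,
so `B` is also normalized by `α⁻¹`, `ρ⁻¹`; so `q ∈ B` and all `h * q * h⁻¹ ∈ B`, `Q₁ ≤ B`. -/
theorem ye_lc {P : Subgroup X} {α ρ q : X} (hP2 : ∀ x ∈ P, x ^ 2 = 1) (hα : α ^ (2 ^ a) = 1)
    (hρ : ρ ^ m = 1) (hinv : α ^ (2 ^ (a - 2)) * ρ * (α ^ (2 ^ (a - 2)))⁻¹ = ρ⁻¹)
    (hαP : ∀ x ∈ P, α * x * α⁻¹ ∈ P) (hρP : ∀ x ∈ P, ρ * x * ρ⁻¹ ∈ P) (hq : q ∈ P) (hq1 : q ≠ 1)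
    (hcen : ∀ x ∈ P, α ^ (2 ^ (a - 1)) * x = x * α ^ (2 ^ (a - 1))) {n : ℕ}
    (hz : ynorm (2 ^ (a - 1)) α q * (ρ * ynorm (2 ^ (a - 1)) α q * ρ⁻¹) =
      ρ ^ n * q * (ρ ^ n)⁻¹) :
    ∃ Q₁ : Subgroup X, Q₁ ≤ P ∧ (∀ x ∈ P, ρ * x * ρ⁻¹ ∈ P) ∧ YLC m a Q₁ α ρ q := by
  have hcl : ∀ B : Subgroup X, (∀ x ∈ B, α * x * α⁻¹ ∈ B) → (∀ x ∈ B, ρ * x * ρ⁻¹ ∈ B) →
      ∀ h ∈ closure {α, ρ}, ∀ x ∈ B, h * x * h⁻¹ ∈ B := by
    intro B h1 h2
    refine ye_cl ?_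
    rintro s (hs | hs)
    · rw [hs]; exact h1
    · rw [Set.mem_singleton_iff.1 hs]; exact h2
  have hQP : closure {z : X | ∃ h ∈ closure {α, ρ}, z = h * q * h⁻¹} ≤ P := by
    rw [closure_le]
    rintro z ⟨h, hh, rfl⟩
    exact hcl P hαP hρP h hh q hq
  have hinvar : ∀ g ∈ closure {α, ρ}, ∀ x ∈ closure {z : X | ∃ h ∈ closure {α, ρ}, z = h * q * h⁻¹},
      g * x * g⁻¹ ∈ closure {z : X | ∃ h ∈ closure {α, ρ}, z = h * q * h⁻¹} := by
    intro g hg x hx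
    induction hx using closure_induction with
    | mem s hs =>
      obtain ⟨h, hh, rfl⟩ := hs
      refine subset_closure ⟨g * h, mul_mem hg hh, ?_⟩
      group
    | one => simp
    | mul u v _ _ hu hv =>
      have h1 := mul_mem hu hv
      have h2 : g * u * g⁻¹ * (g * v * g⁻¹) = g * (u * v) * g⁻¹ := by group
      rwa [h2] at h1
    | inv u _ hu =>
      have h1 := inv_mem hu
      have h2 : (g * u * g⁻¹)⁻¹ = g * u⁻¹ * g⁻¹ := by group
      rwa [h2] at h1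
  have hαc : α ∈ closure ({α, ρ} : Set X) := subset_closure (Set.mem_insert _ _)
  have hρc : ρ ∈ closure ({α, ρ} : Set X) := subset_closure (Set.mem_insert_of_mem _ rfl)
  have hqQ : q ∈ closure {z : X | ∃ h ∈ closure {α, ρ}, z = h * q * h⁻¹} :=
    subset_closure ⟨1, one_mem _, by group⟩
  refine ⟨closure {z | ∃ h ∈ closure {α, ρ}, z = h * q * h⁻¹}, hQP, hρP, ?_⟩
  refine ⟨inferInstance, fun x hx => hP2 x (hQP hx), hqQ, hα, hρ, hinv, hinvar α hαc,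
    hinvar ρ hρc, fun x hx => hcen x (hQP hx), ?_, ?_⟩
  · intro h1
    rw [h1] at hz
    apply hq1
    have h2 : ρ ^ n * q * (ρ ^ n)⁻¹ = 1 := by rw [← hz]; group
    have h3 : q = (ρ ^ n)⁻¹ * (ρ ^ n * q * (ρ ^ n)⁻¹) * ρ ^ n := by group
    rw [h3, h2]
    group
  · intro B hB hαB hρB hmem
    refine le_antisymm hB ?_
    rw [hz] at hmem
    have hc := hcl B hαB hρB
    have hqB : q ∈ B := by
      have h1 := hc (ρ ^ n)⁻¹ (inv_mem (pow_mem hρc n)) _ hmem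
      have h2 : (ρ ^ n)⁻¹ * (ρ ^ n * q * (ρ ^ n)⁻¹) * ((ρ ^ n)⁻¹)⁻¹ = q := by group
      rwa [h2] at h1
    rw [closure_le]
    rintro z ⟨h, hh, rfl⟩
    exact hc h hh q hqB

end Pool.Agent.Lib.MP_544bd1_al
end

section

/-!
Theorem Z (paper 287): lifting over an odd normal subgroup, the frame.
-/

namespace Pool.Agent.Lib.MP_544bd1_al

open Subgroup

variable {m a : ℕ}

/-- the frame of a lifting: `Ph` is a complement over the 2-group `P` -/
structure YFr {F X : Type} [Group F] [Group X] (f : F →* X) (P : Subgroup X) (Ph : Subgroup F) :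
    Prop where
  inj : ∀ x ∈ Ph, f x = 1 → x = 1
  mem : ∀ x ∈ Ph, f x ∈ P
  sur : ∀ x ∈ P, ∃ y ∈ Ph, f y = x
  nor : ∀ n : X, (∀ x ∈ P, n * x * n⁻¹ ∈ P) → ∃ n' : F, f n' = n ∧ ∀ x ∈ Ph, n' * x * n'⁻¹ ∈ Ph

/-- the Frattini argument -/
theorem ys_frame (hm : Odd m) {F X : Type} [Group F] [Finite F] [Group X]
    (hexp : ∀ x : F, x ^ (m * 2 ^ a) = 1) (f : F →* X) (hf : Function.Surjective f)
    (hker : ∀ x, f x = 1 → x ^ m = 1) (P : Subgroup X) (hP : ∀ x ∈ P, x ^ (2 ^ a) = 1) :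
    ∃ Ph : Subgroup F, (∀ x ∈ Ph, x ^ (2 ^ a) = 1) ∧ YFr f P Ph := by
  have : Fact (Nat.Prime 2) := ⟨Nat.prime_two⟩
  have hX : Finite X := Finite.of_surjective f hf
  have hcop : Nat.Coprime m (2 ^ a) := hm.coprime_two_right.pow_right a
  let M : Subgroup F := (Subgroup.normalizer (P : Set X)).comap f
  let H : Subgroup M := (P.comap f).comap M.subtype
  have hHn : H.Normal := by
    constructor
    rintro ⟨x, hx⟩ hxH ⟨y, hy⟩
    have h1 : f x ∈ P := hxH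
    have h2 : f y ∈ Subgroup.normalizer (P : Set X) := hy
    show f (y * x * y⁻¹) ∈ P
    rw [map_mul, map_mul, map_inv]
    exact (Subgroup.mem_normalizer_iff.mp h2 _).mp h1
  obtain ⟨A⟩ : Nonempty (Sylow 2 H) := Sylow.nonempty
  let Ph : Subgroup F := ((A : Subgroup H).map H.subtype).map M.subtype
  have hPh : ∀ x ∈ Ph, ∃ (h1 : x ∈ M) (h2 : (⟨x, h1⟩ : M) ∈ H), (⟨⟨x, h1⟩, h2⟩ : H) ∈ A := by
    rintro _ ⟨_, ⟨⟨⟨x, h1⟩, h2⟩, h3, rfl⟩, rfl⟩
    exact ⟨h1, h2, h3⟩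
  have h2a : ∀ x ∈ Ph, x ^ (2 ^ a) = 1 := by
    intro x hx
    obtain ⟨h1, h2, h3⟩ := hPh x hx
    obtain ⟨j, hj⟩ := A.isPGroup' ⟨_, h3⟩
    have hj' : x ^ (2 ^ j) = 1 := by
      have := congrArg (fun z : A => (((z : H) : M) : F)) hj
      simpa using this
    have h4 := hexp x
    have h5 : orderOf x ∣ 2 ^ j := orderOf_dvd_of_pow_eq_one hj'
    have h6 : orderOf x ∣ m * 2 ^ a := orderOf_dvd_of_pow_eq_one h4
    have h7 : Nat.Coprime (orderOf x) m :=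
      Nat.Coprime.coprime_dvd_left h5 (hm.coprime_two_right.pow_right j).symm
    exact orderOf_dvd_iff_pow_eq_one.mp (h7.dvd_of_dvd_mul_left h6)
  have hsur : ∀ x ∈ P, ∃ y ∈ Ph, f y = x := by
    let φ : H →* P := ((f.comp (M.subtype)).comp H.subtype).codRestrict P (fun h => h.2)
    have hφ : Function.Surjective φ := by
      rintro ⟨x, hx⟩
      obtain ⟨y, rfl⟩ := hf x
      have h1 : y ∈ M := Subgroup.le_normalizer hx
      exact ⟨⟨⟨y, h1⟩, hx⟩, rfl⟩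
    have hPG : IsPGroup 2 (⊤ : Subgroup P) := by
      intro x
      refine ⟨a, ?_⟩
      apply Subtype.ext
      apply Subtype.ext
      exact hP _ x.1.2
    have h1 : (⊤ : Subgroup P) = (A.mapSurjective hφ : Sylow 2 P) :=
      (A.mapSurjective hφ).is_maximal' hPG le_top
    intro x hx
    have h2 : (⟨x, hx⟩ : P) ∈ ((A.mapSurjective hφ : Sylow 2 P) : Subgroup P) := by
      rw [← h1]; exact Subgroup.mem_top _
    rw [Sylow.coe_mapSurjective] at h2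
    obtain ⟨y, hy, hyx⟩ := h2
    refine ⟨((y : M) : F), ⟨_, ⟨y, hy, rfl⟩, rfl⟩, ?_⟩
    exact congrArg Subtype.val hyx
  refine ⟨Ph, h2a, ?_, ?_, hsur, ?_⟩
  · intro x hx hfx
    exact tw_one hcop (hker x hfx) (h2a x hx)
  · intro x hx
    obtain ⟨h1, h2, h3⟩ := hPh x hx
    exact h2
  · intro n hn
    have hnN : n ∈ Subgroup.normalizer (P : Set X) :=
      Subgroup.mem_normalizer_fintype (S := (P : Set X)) (fun x hx => hn x hx)
    obtain ⟨n0, rfl⟩ := hf n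
    have h0 : (⟨n0, hnN⟩ : M) ∈ (⊤ : Subgroup M) := Subgroup.mem_top _
    rw [← Sylow.normalizer_sup_eq_top A, sup_comm] at h0
    rw [← SetLike.mem_coe, Subgroup.normal_mul] at h0
    obtain ⟨h, hh, b, hb, hbh⟩ := h0
    have hfh : f (h : F) ∈ P := hh
    obtain ⟨q, hq, hqh⟩ := hsur _ hfh
    refine ⟨q * (b : F), ?_, ?_⟩
    · have := congrArg (fun z : M => f (z : F)) hbh
      simp only [map_mul, Subgroup.coe_mul] at this
      rw [map_mul, hqh, this]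
    · rintro _ ⟨x, hx, rfl⟩
      have h3 := (Subgroup.mem_normalizer_iff.mp hb x).mp hx
      have h4 : ((b : F) * (x : F) * (b : F)⁻¹) ∈ Ph := ⟨_, h3, rfl⟩
      have h5 : q * (b : F) * (M.subtype x) * (q * (b : F))⁻¹ =
          q * ((b : F) * (x : F) * (b : F)⁻¹) * q⁻¹ := by
        show q * (b : F) * (x : F) * (q * (b : F))⁻¹ = _
        group
      rw [h5]
      exact Ph.mul_mem (Ph.mul_mem hq h4) (Ph.inv_mem hq)

/-- a power of `x` has the same image and order dividing `P` -/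
theorem ys_lpow {M P : ℕ} (hcop : Nat.Coprime M P) {F X : Type} [Group F] [Group X]
    (hexp : ∀ x : F, x ^ (M * P) = 1) (f : F →* X) {x : F} (hx : f x ^ P = 1) :
    ∃ k : ℤ, f (x ^ k) = f x ∧ (x ^ k) ^ P = 1 := by
  obtain ⟨u, v, huv⟩ : ∃ u v : ℤ, (M : ℤ) * u + (P : ℤ) * v = 1 := by
    refine ⟨Nat.gcdA M P, Nat.gcdB M P, ?_⟩
    have := Nat.gcd_eq_gcd_ab M P
    rw [hcop] at this
    exact_mod_cast this.symm
  refine ⟨(M : ℤ) * u, ?_, ?_⟩
  · rw [map_zpow]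
    calc f x ^ ((M : ℤ) * u) = f x ^ ((M : ℤ) * u) * (f x ^ P) ^ v := by rw [hx]; simp
      _ = f x ^ ((M : ℤ) * u + (P : ℤ) * v) := by
        rw [zpow_add, zpow_mul (f x) (P : ℤ) v, zpow_natCast]
      _ = f x := by rw [huv, zpow_one]
  · have h1 := hexp x
    rw [← zpow_natCast, ← zpow_mul, show (M : ℤ) * u * (P : ℕ) = ((M * P : ℕ) : ℤ) * u by
      push_cast; ring, zpow_mul, zpow_natCast, h1, one_zpow]

/-- elements of the normalizer of `Ph` commute with `x ∈ Ph` if their images do -/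
theorem YFr.comm {F X : Type} [Group F] [Group X] {f : F →* X} {P : Subgroup X} {Ph : Subgroup F}
    (Fr : YFr f P Ph) {n x : F} (hn : ∀ x ∈ Ph, n * x * n⁻¹ ∈ Ph) (hx : x ∈ Ph)
    (h : f n * f x = f x * f n) : n * x = x * n := by
  have h1 : n * x * n⁻¹ * x⁻¹ = 1 := by
    apply Fr.inj _ (Ph.mul_mem (hn x hx) (Ph.inv_mem hx))
    rw [map_mul, map_mul, map_mul, map_inv, map_inv, h]
    group
  have h2 := mul_inv_eq_one.mp h1
  exact mul_inv_eq_iff_eq_mul.mp h2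

/-- equality in `Ph` -/
theorem YFr.eq {F X : Type} [Group F] [Group X] {f : F →* X} {P : Subgroup X} {Ph : Subgroup F}
    (Fr : YFr f P Ph) {x y : F} (hx : x ∈ Ph) (hy : y ∈ Ph) (h : f x = f y) : x = y := by
  have h1 : x * y⁻¹ = 1 := by
    apply Fr.inj _ (Ph.mul_mem hx (Ph.inv_mem hy))
    rw [map_mul, map_inv, h, mul_inv_cancel]
  exact mul_inv_eq_one.mp h1

/-- a subgroup of the normalizer of `Ph` whose image contains `P` contains `Ph` -/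
theorem YFr.cov (hm : Odd m) {F X : Type} [Group F] [Group X] {f : F →* X}
    (hker : ∀ x, f x = 1 → x ^ m = 1) {P : Subgroup X} {Ph : Subgroup F}
    (hPh : ∀ x ∈ Ph, x ^ (2 ^ a) = 1) (Fr : YFr f P Ph) {B : Subgroup F}
    (hB : ∀ n ∈ B, ∀ x ∈ Ph, n * x * n⁻¹ ∈ Ph) (hBP : ∀ x ∈ Ph, ∃ b ∈ B, f b = f x) : Ph ≤ B := by
  have hcop : Nat.Coprime m (2 ^ a) := hm.coprime_two_right.pow_right a
  intro x hx
  obtain ⟨b, hb, hbx⟩ := hBP x hx
  have h1 : f (x⁻¹ * b) = 1 := by rw [map_mul, map_inv, hbx, inv_mul_cancel]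
  have h2 : (x⁻¹ * b) ^ m = 1 := hker _ h1
  have h3 : ∀ z ∈ Ph, (x⁻¹ * b) * z * (x⁻¹ * b)⁻¹ ∈ Ph := by
    intro z hz
    have h4 := Ph.mul_mem (Ph.mul_mem (Ph.inv_mem hx) (hB b hb z hz)) hx
    have h5 : x⁻¹ * b * z * (x⁻¹ * b)⁻¹ = x⁻¹ * (b * z * b⁻¹) * x := by group
    rw [h5]
    exact h4
  have h6 : (x⁻¹ * b) * x = x * (x⁻¹ * b) := Fr.comm h3 hx (by rw [h1, one_mul, mul_one])
  have h7 := (tw_coprime_comm hcop.symm (hPh x hx) h2 h6.symm).1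
  rw [show x * (x⁻¹ * b) = b by group] at h7
  obtain ⟨k, hk⟩ := h7
  rw [← hk]
  exact B.zpow_mem hb k

end Pool.Agent.Lib.MP_544bd1_al
end

section

/-!
Theorem Z (paper 287): basic properties of `ynorm`.
-/

namespace Pool.Agent.Lib.MP_544bd1_al

open Subgroup

variable {G : Type} [Group G]

theorem ynorm_zero (g p : G) : ynorm 0 g p = 1 := by
  simp [ynorm]

theorem ynorm_one (g p : G) : ynorm 1 g p = p := by
  simp [ynorm]

/-- `(p * g) ^ M = N(p) * g ^ M` -/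
theorem ynorm_pow (M : ℕ) (g p : G) : (p * g) ^ M = ynorm M g p * g ^ M := by
  simp [ynorm]

theorem ynorm_add (k l : ℕ) (g p : G) :
    ynorm (k + l) g p = ynorm k g p * (g ^ k * ynorm l g p * (g ^ k)⁻¹) := by
  simp only [ynorm, pow_add, mul_inv_rev]
  group

theorem ynorm_succ (M : ℕ) (g p : G) :
    ynorm (M + 1) g p = ynorm M g p * (g ^ M * p * (g ^ M)⁻¹) := by
  rw [ynorm_add, ynorm_one]

/-- powers of an element normalizing `P` normalize `P` -/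
theorem ys_pow_mem {P : Subgroup G} {g : G} (h : ∀ x ∈ P, g * x * g⁻¹ ∈ P) (k : ℕ) :
    ∀ x ∈ P, g ^ k * x * (g ^ k)⁻¹ ∈ P := by
  induction k with
  | zero => intro x hx; simpa using hx
  | succ k ih =>
    intro x hx
    have h1 := h _ (ih x hx)
    have h2 : g * (g ^ k * x * (g ^ k)⁻¹) * g⁻¹ = g ^ (k + 1) * x * (g ^ (k + 1))⁻¹ := by
      rw [pow_succ']; group
    rwa [h2] at h1

theorem ynorm_mem {P : Subgroup G} {g p : G} (h : ∀ x ∈ P, g * x * g⁻¹ ∈ P) (hp : p ∈ P)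
    (M : ℕ) : ynorm M g p ∈ P := by
  induction M with
  | zero => rw [ynorm_zero]; exact P.one_mem
  | succ M ih => rw [ynorm_succ]; exact P.mul_mem ih (ys_pow_mem h M p hp)

/-- elementary abelian 2-groups are commutative -/
theorem ys_comm {P : Subgroup G} (h : ∀ x ∈ P, x ^ 2 = 1) : ∀ x ∈ P, ∀ y ∈ P, x * y = y * x := by
  intro x hx y hy
  have h1 : x⁻¹ = x := inv_eq_of_mul_eq_one_left (by rw [← pow_two]; exact h x hx)
  have h2 : y⁻¹ = y := inv_eq_of_mul_eq_one_left (by rw [← pow_two]; exact h y hy)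
  have h3 : (x * y)⁻¹ = x * y :=
    inv_eq_of_mul_eq_one_left (by rw [← pow_two]; exact h _ (P.mul_mem hx hy))
  rw [mul_inv_rev, h1, h2] at h3
  exact h3.symm

/-- the norm of a product, if the conjugates commute -/
theorem ynorm_mul {P : Subgroup G} {g : G} (h : ∀ x ∈ P, g * x * g⁻¹ ∈ P)
    (hc : ∀ x ∈ P, ∀ y ∈ P, x * y = y * x) {p r : G} (hp : p ∈ P) (hr : r ∈ P) (M : ℕ) :
    ynorm M g (p * r) = ynorm M g p * ynorm M g r := by
  induction M with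
  | zero => simp [ynorm_zero]
  | succ M ih =>
    rw [ynorm_succ, ynorm_succ, ynorm_succ, ih]
    have h1 := hc _ (ynorm_mem h hr M) _ (ys_pow_mem h M p hp)
    calc ynorm M g p * ynorm M g r * (g ^ M * (p * r) * (g ^ M)⁻¹)
        = ynorm M g p * (ynorm M g r * (g ^ M * p * (g ^ M)⁻¹)) * (g ^ M * r * (g ^ M)⁻¹) := by
          group
      _ = ynorm M g p * ((g ^ M * p * (g ^ M)⁻¹) * ynorm M g r) * (g ^ M * r * (g ^ M)⁻¹) := by
          rw [h1]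
      _ = _ := by group

/-- the norm is compatible with automorphisms commuting with `g` -/
theorem ynorm_conj (M : ℕ) {g p t : G} (h : g * t = t * g) :
    t * ynorm M g p * t⁻¹ = ynorm M g (t * p * t⁻¹) := by
  have h1 : t * g * t⁻¹ = g := by rw [← h]; group
  have h2 : t * (g ^ M)⁻¹ * t⁻¹ = (g ^ M)⁻¹ := by
    have h3 : t * g ^ M * t⁻¹ = (t * g * t⁻¹) ^ M := by rw [conj_pow]
    have h4 : t * (g ^ M)⁻¹ * t⁻¹ = (t * g ^ M * t⁻¹)⁻¹ := by group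
    rw [h4, h3, h1]
  have h5 : t * (p * g) ^ M * t⁻¹ = (t * p * t⁻¹ * g) ^ M := by
    have h6 : t * (p * g) * t⁻¹ = t * p * t⁻¹ * g := by
      calc t * (p * g) * t⁻¹ = t * p * t⁻¹ * (t * g * t⁻¹) := by group
        _ = _ := by rw [h1]
    rw [← conj_pow, h6]
  unfold ynorm
  calc t * ((p * g) ^ M * (g ^ M)⁻¹) * t⁻¹
      = (t * (p * g) ^ M * t⁻¹) * (t * (g ^ M)⁻¹ * t⁻¹) := by group
    _ = _ := by rw [h5, h2]

/-- homomorphisms -/
theorem ynorm_map {H : Type} [Group H] (f : G →* H) (M : ℕ) (g p : G) :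
    f (ynorm M g p) = ynorm M (f g) (f p) := by
  simp [ynorm]

/-- the norm commutes with `g`, if `g ^ M` commutes with `p` -/
theorem ynorm_comm {P : Subgroup G} {g p : G} {M : ℕ} (h : ∀ x ∈ P, g * x * g⁻¹ ∈ P)
    (hc : ∀ x ∈ P, ∀ y ∈ P, x * y = y * x) (hp : p ∈ P) (hM : g ^ M * p = p * g ^ M) :
    g * ynorm M g p = ynorm M g p * g := by
  have h1 := ynorm_add 1 M g p
  have h2 := ynorm_succ M g p
  rw [add_comm 1 M, h2, ynorm_one, pow_one, hM, mul_inv_cancel_right,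
    hc _ (ynorm_mem h hp M) _ hp] at h1
  have h3 : ynorm M g p = g * ynorm M g p * g⁻¹ := mul_left_cancel h1
  calc g * ynorm M g p = g * ynorm M g p * g⁻¹ * g := by group
    _ = _ := by rw [← h3]

/-- the norm over `2 * M` elements is trivial on elementary abelian groups, if `g ^ M` is -/
theorem ynorm_double {P : Subgroup G} {g p : G} {M : ℕ} (h : ∀ x ∈ P, g * x * g⁻¹ ∈ P)
    (h2 : ∀ x ∈ P, x ^ 2 = 1) (hp : p ∈ P) (hM : ∀ x ∈ P, g ^ M * x = x * g ^ M) :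
    ynorm (2 * M) g p = 1 := by
  have h1 := ynorm_mem h hp M
  rw [two_mul, ynorm_add, hM _ h1, mul_inv_cancel_right, ← pow_two, h2 _ h1]

/-- the order of `p * g` -/
theorem ys_pg_pow {P : Subgroup G} {g p : G} {M : ℕ} (h : ∀ x ∈ P, g * x * g⁻¹ ∈ P)
    (h2 : ∀ x ∈ P, x ^ 2 = 1) (hp : p ∈ P) (hM : ∀ x ∈ P, g ^ M * x = x * g ^ M)
    (hg : g ^ (2 * M) = 1) : (p * g) ^ (2 * M) = 1 := by
  rw [ynorm_pow, ynorm_double h h2 hp hM, hg, one_mul]

end Pool.Agent.Lib.MP_544bd1_al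
end

section

/-!
Theorem Z3, Case A: the norm of `x` is not zero on `V`.
-/

namespace Pool.Agent.Lib.MP_544bd1_al

open Subgroup

private theorem ztNorm_cent {F : Type} [Group F] {Q R : Subgroup F} [Q.Normal]
    {V : Type} [AddCommGroup V] [Module (ZMod 2) V]
    {τ : F →* Module.End (ZMod 2) V} {φ : Q → V} (M : ZMd Q R τ φ) {c : F}
    (hc : ∀ q ∈ Q, c * q = q * c) : τ c = 1 := by
  ext v
  obtain ⟨y, rfl⟩ := M.surj v
  have h := M.eqv c y
  have h2 : (⟨c * y * c⁻¹, (inferInstance : Q.Normal).conj_mem _ y.2 c⟩ : Q) = y := by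
    apply Subtype.ext
    show c * y * c⁻¹ = y
    rw [hc y y.2, mul_inv_cancel_right]
  rw [h2] at h
  rw [← h]
  rfl

private theorem ztNorm_inv {F E : Type} [Group F] [Monoid E] (τ : F →* E) {a b : F}
    (h : τ a = τ b) : τ a⁻¹ = τ b⁻¹ := by
  calc τ a⁻¹ = τ a⁻¹ * (τ b * τ b⁻¹) := by
        rw [← map_mul τ b b⁻¹, mul_inv_cancel, map_one, mul_one]
    _ = τ a⁻¹ * τ a * τ b⁻¹ := by rw [h, mul_assoc]
    _ = τ b⁻¹ := by rw [← map_mul τ a⁻¹ a, inv_mul_cancel, map_one, one_mul]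

/-- `x ^ 2` inverts `R` modulo the centralizer of `Q`; on `V` the elements of `R` commute.

Proof. The elements `g ∈ R` such that `x ^ 2 * g * (x ^ 2)⁻¹ * g` centralizes `Q` contain `ρ` and
`x * ρ * x⁻¹` (`D.hρx`), and form a subgroup together with `D.hab`: let
`S = {g ∈ R | ∀ q ∈ Q, (x ^ 2 * g * (x ^ 2)⁻¹ * g) * q = q * (x ^ 2 * g * (x ^ 2)⁻¹ * g)}`; for
`g, h ∈ S`: `x ^ 2 * (g * h) * (x ^ 2)⁻¹ * (g * h) = (g' * h') * (g * h)` with `g' * g`, `h' * h` and the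
commutators of elements of `R` in the centralizer `C` of `Q`; `C` is normalized by `R` (`R` normalizes
`Q`: `Q` is normal). Use `D.gen`. For `g, h ∈ R`: `g * h = (g * h * g⁻¹ * h⁻¹) * (h * g)` and
`τ c = 1` for `c` centralizing `Q` (`M.eqv`, `M.surj`). -/
theorem zt_hinv {F : Type} [Group F] {r : ℕ} {Q R : Subgroup F} [Q.Normal] {x ρ : F}
    (D : ZHon r Q R x ρ) {V : Type} [AddCommGroup V] [Module (ZMod 2) V]
    {τ : F →* Module.End (ZMod 2) V} {φ : Q → V} (M : ZMd Q R τ φ) :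
    (∀ g ∈ R, τ (x ^ 2 * g * (x ^ 2)⁻¹) = τ g⁻¹) ∧ ∀ g ∈ R, ∀ h ∈ R, τ (g * h) = τ (h * g) := by
  have hcomm : ∀ g ∈ R, ∀ h ∈ R, τ (g * h) = τ (h * g) := by
    intro g hg h hh
    have h1 : g * h = (g * h * g⁻¹ * h⁻¹) * (h * g) := by group
    rw [h1, map_mul, ztNorm_cent M (D.hab g hg h hh), one_mul]
  refine ⟨?_, hcomm⟩
  let S : Subgroup F :=
    { carrier := {g | g ∈ R ∧ τ (x ^ 2 * g * (x ^ 2)⁻¹) = τ g⁻¹}
      one_mem' := ⟨R.one_mem, by rw [mul_one, mul_inv_cancel, inv_one]⟩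
      mul_mem' := by
        rintro a b ⟨ha, ha'⟩ ⟨hb, hb'⟩
        refine ⟨R.mul_mem ha hb, ?_⟩
        have h1 : x ^ 2 * (a * b) * (x ^ 2)⁻¹ =
            (x ^ 2 * a * (x ^ 2)⁻¹) * (x ^ 2 * b * (x ^ 2)⁻¹) := by group
        rw [h1, map_mul, ha', hb', ← map_mul, hcomm _ (R.inv_mem ha) _ (R.inv_mem hb),
          mul_inv_rev]
      inv_mem' := by
        rintro a ⟨ha, ha'⟩
        refine ⟨R.inv_mem ha, ?_⟩
        have h1 : x ^ 2 * a⁻¹ * (x ^ 2)⁻¹ = (x ^ 2 * a * (x ^ 2)⁻¹)⁻¹ := by group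
        rw [h1]
        exact ztNorm_inv τ ha' }
  have hx2 : ∀ g, g ∈ S ↔ g ∈ R ∧ τ (x ^ 2 * g * (x ^ 2)⁻¹) = τ g⁻¹ := fun g => Iff.rfl
  have hRS : R ≤ S := by
    apply D.gen
    · exact ⟨D.hρ, by rw [D.hρx]⟩
    · refine ⟨D.core.hxR ρ D.hρ, ?_⟩
      have h1 : x ^ 2 * (x * ρ * x⁻¹) * (x ^ 2)⁻¹ = x * (x ^ 2 * ρ * (x ^ 2)⁻¹) * x⁻¹ := by group
      have h2 : (x * ρ * x⁻¹)⁻¹ = x * ρ⁻¹ * x⁻¹ := by group
      rw [h1, D.hρx, h2]
  intro g hg
  exact (hRS hg).2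

/-- **(3.0b)** the norm of `x` is not zero on `V`.

Proof. Otherwise `∑ i ∈ range 4, (τ x) ^ i = 0`; `zt_avg` with `a := 2`, `m := Nat.card R`
(odd, a power of `r`; `g ^ Nat.card R = 1` for `g ∈ R`), `E := R`, `u := x`, and `zt_hinv`, gives
`τ g = 1` for `g ∈ R`, so `R` centralizes `Q` (`M.faith`), contradiction to `D.core.ne`. -/
theorem zt_norm4 {F : Type} [Group F] [Finite F] {r : ℕ} (hr : r.Prime) (hr2 : r ≠ 2)
    {Q R : Subgroup F} [Q.Normal] {x ρ : F} (D : ZHon r Q R x ρ) {V : Type} [AddCommGroup V]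
    [Module (ZMod 2) V] [Finite V] {τ : F →* Module.End (ZMod 2) V} {φ : Q → V}
    (M : ZMd Q R τ φ) : ∃ v : V, v + τ x v + τ (x ^ 2) v + τ (x ^ 3) v ≠ 0 := by
  by_contra hcon
  push Not at hcon
  obtain ⟨hinv, hcomm⟩ := zt_hinv D M
  have hodd : Odd (Nat.card R) := by
    haveI : Fact r.Prime := ⟨hr⟩
    obtain ⟨n, hn⟩ := IsPGroup.iff_card.mp D.core.hR
    rw [hn]
    exact (hr.odd_of_ne_two hr2).pow
  have hN : ∑ i ∈ Finset.range (2 ^ 2), (τ x) ^ i = 0 := by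
    ext v
    have h := hcon v
    simp only [map_pow] at h
    simp only [show (2 : ℕ) ^ 2 = 4 from rfl, Finset.sum_range_succ, Finset.sum_range_zero,
      pow_zero, pow_one, zero_add, LinearMap.add_apply, Module.End.one_apply,
      LinearMap.zero_apply]
    exact h
  have key := zt_avg (m := Nat.card R) (a := 2) (by norm_num) hodd τ R (u := x)
    (fun g hg => by
      have h1 : g ^ Nat.card R = 1 := by
        have h2 : (⟨g, hg⟩ : R) ^ Nat.card R = 1 := pow_card_eq_one'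
        exact congrArg Subtype.val h2
      rw [h1, map_one])
    hcomm D.core.hxR (by rw [show (2 : ℕ) ^ 2 = 4 from rfl, D.hx, map_one])
    (fun g hg => hinv g hg) hN
  obtain ⟨g, hg, q, hq, hne⟩ := D.core.ne
  exact hne (M.faith g hg (key g hg) q hq)

end Pool.Agent.Lib.MP_544bd1_al
end
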