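import Mathlib
import Pool.Agent.Lib.MP_544bd1_al.TwS2
import Pool.Agent.Lib.MP_544bd1_al.EvD
import Pool.Agent.Lib.MP_544bd1_al.TwS3

section

/-!
Theorem Z (paper 287), 4.2-4.4: definitions.
-/

namespace Pool.Agent.Lib.MP_544bd1_al

open Subgroup

/-- the conjugates `e_l^{(i)}` -/
def yE {X : Type} [Group X] (g τ e : X) (i l : ℕ) : X := (τ ^ i * g ^ l) * e * (τ ^ i * g ^ l)⁻¹

/-- the data of 4.2 in a group `H` (`H = ZH m a F`); `z_i = τ ^ i * z * (τ ^ i)⁻¹` with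
`z = ynorm (2 ^ (a - 1)) g p` -/
structure YA (m a k : ℕ) {H : Type} [Group H] (P A : Subgroup H) (g τ p e : H) : Prop where
  sq : ∀ x ∈ P, x ^ 2 = 1
  hp : p ∈ P
  hg : g ^ (2 ^ a) = 1
  hτ : ∃ j, τ ^ (3 ^ j) = 1
  hgτ : g * τ = τ * g
  hgP : ∀ x ∈ P, g * x * g⁻¹ ∈ P
  hτP : ∀ x ∈ P, τ * x * τ⁻¹ ∈ P
  cen : ∀ x ∈ P, g ^ (2 ^ (a - 1)) * x = x * g ^ (2 ^ (a - 1))
  τ0P : ∀ x ∈ P, τ ^ (3 ^ k) * x = x * τ ^ (3 ^ k)
  hAm : ∀ x ∈ A, x ^ m = 1
  hgA : ∀ x ∈ A, g * x * g⁻¹ ∈ A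
  hτA : ∀ x ∈ A, τ * x * τ⁻¹ ∈ A
  hPA : ∀ q ∈ P, ∀ x ∈ A, q * x * q⁻¹ ∈ A
  cl : ∀ x ∈ A, ∀ y ∈ A, ∀ w ∈ A, x * y * x⁻¹ * y⁻¹ * w = w * (x * y * x⁻¹ * y⁻¹)
  cz : ∀ x ∈ A, ∀ y ∈ A, ynorm (2 ^ (a - 1)) g p * (x * y * x⁻¹ * y⁻¹) =
    x * y * x⁻¹ * y⁻¹ * ynorm (2 ^ (a - 1)) g p
  he : e ∈ A
  he1 : e ≠ 1
  sg : ∀ x ∈ P, x * e * x⁻¹ = e ∨ x * e * x⁻¹ = e⁻¹
  κe : g ^ (2 ^ (a - 1)) * e = e * g ^ (2 ^ (a - 1))
  ze : ynorm (2 ^ (a - 1)) g p * e * (ynorm (2 ^ (a - 1)) g p)⁻¹ = e⁻¹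
  zie : ∀ i, 0 < i → i < 3 ^ k → (τ ^ i * ynorm (2 ^ (a - 1)) g p * (τ ^ i)⁻¹) * e =
    e * (τ ^ i * ynorm (2 ^ (a - 1)) g p * (τ ^ i)⁻¹)

/-- the lifted structure (4.4): `W` a 2-group, `R` a 3-group, `γ i` (`i < 3 ^ k`) a 2-element acting
on `R` as `p_i * g`; `e' = y * e * y⁻¹`, `c = [e, e']` -/
structure YL (m a k : ℕ) {X : Type} [Group X] (W R : Subgroup X) (g τ e e' c : X)
    (γ : ℕ → X) : Prop where
  hW2 : ∀ x ∈ W, x ^ (2 ^ a) = 1
  hR3 : IsPGroup 3 (R ⊔ zpowers τ : Subgroup X)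
  hg : g ^ (2 ^ a) = 1
  hgτ : g * τ = τ * g
  hgW : ∀ x ∈ W, g * x * g⁻¹ ∈ W
  hτW : ∀ x ∈ W, τ * x * τ⁻¹ ∈ W
  hRW : ∀ r ∈ R, ∀ x ∈ W, r * x * r⁻¹ ∈ W
  hγW : ∀ i < 3 ^ k, ∀ x ∈ W, γ i * x * (γ i)⁻¹ ∈ W
  hgR : ∀ r ∈ R, g * r * g⁻¹ ∈ R
  hτR : ∀ r ∈ R, τ * r * τ⁻¹ ∈ R
  hγR : ∀ i < 3 ^ k, ∀ r ∈ R, γ i * r * (γ i)⁻¹ ∈ R
  κR : ∀ r ∈ R, g ^ (2 ^ (a - 1)) * r = r * g ^ (2 ^ (a - 1))
  τR : ∀ r ∈ R, τ ^ (3 ^ k) * r = r * τ ^ (3 ^ k)
  τW : ∀ x ∈ W, τ ^ (3 ^ k) * x = x * τ ^ (3 ^ k)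
  he : e ∈ R
  he3 : e ^ 3 = 1
  he' : e' = g ^ (2 ^ (a - 2)) * e * (g ^ (2 ^ (a - 2)))⁻¹
  hc : c = e * e' * e⁻¹ * e'⁻¹
  cl : ∀ x ∈ R, ∀ y ∈ R, ∀ w ∈ R, x * y * x⁻¹ * y⁻¹ * w = w * (x * y * x⁻¹ * y⁻¹)
  com : ∀ i l, i < 3 ^ k → l < 2 ^ (a - 1) → ¬ (i = 0 ∧ (l = 0 ∨ l = 2 ^ (a - 2))) →
    e * yE g τ e i l = yE g τ e i l * e
  gen : R ≤ closure {x | ∃ i l, i < 3 ^ k ∧ x = yE g τ e i l}
  ne : ∃ r ∈ R, ∃ x ∈ W, r * x ≠ x * r
  hγ : ∀ i < 3 ^ k, γ i ^ (2 ^ a) = 1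
  /-- `γ i ^ (2 ^ (a - 1))` inverts the `e_l^{(i)}` -/
  γE : ∀ i < 3 ^ k, ∀ l, γ i ^ (2 ^ (a - 1)) * yE g τ e i l * (γ i ^ (2 ^ (a - 1)))⁻¹ =
    (yE g τ e i l)⁻¹
  /-- `γ i` normalizes `B^{(i)}` -/
  γB : ∀ i < 3 ^ k, ∀ l, γ i * yE g τ e i l * (γ i)⁻¹ ∈ closure {x | ∃ l, x = yE g τ e i l}
  /-- `γ i ^ (2 ^ (a - 1))` centralizes the commutators of `B^{(i)}` -/
  γc : ∀ i < 3 ^ k, ∀ x ∈ closure {x | ∃ l, x = yE g τ e i l},
    ∀ y ∈ closure {x | ∃ l, x = yE g τ e i l},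
    γ i ^ (2 ^ (a - 1)) * (x * y * x⁻¹ * y⁻¹) = x * y * x⁻¹ * y⁻¹ * γ i ^ (2 ^ (a - 1))
  /-- `γ i ^ (2 ^ (a - 2))` inverts `c`, for `i ≠ 0` -/
  γ0 : ∀ i, 0 < i → i < 3 ^ k → γ i ^ (2 ^ (a - 2)) * c * (γ i ^ (2 ^ (a - 2)))⁻¹ = c⁻¹

end Pool.Agent.Lib.MP_544bd1_al
end

section

/-!
Theorem Z (paper 287): a representation of small degree.
-/

namespace Pool.Agent.Lib.MP_544bd1_al

open Subgroup

private lemma ysFT_module0 {G V : Type} [Group G] [AddCommGroup V] [Finite V] {p : ℕ}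
    [Module (ZMod p) V] (c : G → V →+ V) (h1 : ∀ x, c 1 x = x)
    (hm : ∀ g h x, c (g * h) x = c g (c h x)) (f : G) (hf : ∀ x, c f x = -x)
    (m : ℕ) (hV : Nat.card V ≤ m)
    (hrep : ∀ (X : Type) [AddCommGroup X] [Module (ZMod p) X] [Finite X]
      (ρ : G →* Module.End (ZMod p) X), Nat.card X ≤ m → ρ f = -1 → ∀ x : X, x = 0) :
    ∀ x : V, x = 0 := by
  let B : G → Module.End (ZMod p) V := fun g => AddMonoidHom.toZModLinearMap p (c g)
  have hB : ∀ (g : G) (v : V), B g v = c g v := fun g v => rfl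
  have hB1 : B 1 = 1 := by
    refine LinearMap.ext fun v => ?_
    rw [hB, Module.End.one_apply, h1]
  have hBm : ∀ g h, B (g * h) = B g * B h := by
    intro g h
    refine LinearMap.ext fun v => ?_
    rw [hB, Module.End.mul_apply, hB, hB, hm]
  let ρ : G →* Module.End (ZMod p) V :=
    { toFun := B, map_one' := hB1, map_mul' := hBm }
  have hρf : ρ f = -1 := by
    refine LinearMap.ext fun v => ?_
    show B f v = (-1 : Module.End (ZMod p) V) v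
    rw [hB, hf, LinearMap.neg_apply, Module.End.one_apply]
  exact hrep V ρ hV hρf

private lemma ysFT_module1 {G V : Type} [Group G] [AddCommGroup V] [Finite V] {p : ℕ}
    (hz : ∀ x : V, p • x = 0) (c : G → V →+ V) (h1 : ∀ x, c 1 x = x)
    (hm : ∀ g h x, c (g * h) x = c g (c h x)) (f : G) (hf : ∀ x, c f x = -x)
    (m : ℕ) (hV : Nat.card V ≤ m)
    (hrep : ∀ (X : Type) [AddCommGroup X] [Module (ZMod p) X] [Finite X]
      (ρ : G →* Module.End (ZMod p) X), Nat.card X ≤ m → ρ f = -1 → ∀ x : X, x = 0) :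
    ∀ x : V, x = 0 :=
  @ysFT_module0 G V _ _ _ p (AddCommGroup.zmodModule hz) c h1 hm f hf m hV hrep

private lemma ysFT_module {G V : Type} [Group G] [CommGroup V] [Finite V] {p : ℕ}
    (hz : ∀ x : V, x ^ p = 1) (c : G → V →* V) (h1 : ∀ x, c 1 x = x)
    (hm : ∀ g h x, c (g * h) x = c g (c h x)) (f : G) (hf : ∀ x, c f x = x⁻¹)
    (m : ℕ) (hV : Nat.card V ≤ m)
    (hrep : ∀ (X : Type) [AddCommGroup X] [Module (ZMod p) X] [Finite X]
      (ρ : G →* Module.End (ZMod p) X), Nat.card X ≤ m → ρ f = -1 → ∀ x : X, x = 0) :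
    ∀ x : V, x = 1 := by
  have hz' : ∀ v : Additive V, p • v = 0 := by
    intro v
    apply Additive.toMul.injective
    rw [toMul_nsmul, hz]
    rfl
  intro x
  exact ysFT_module1 (V := Additive V) hz' (fun g => MonoidHom.toAdditive (c g))
    (fun x => congrArg Additive.ofMul (h1 (Additive.toMul x)))
    (fun g h x => congrArg Additive.ofMul (hm g h (Additive.toMul x))) f
    (fun x => congrArg Additive.ofMul (hf (Additive.toMul x))) m hV hrep (Additive.ofMul x)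

/-- **A representation with `f = -1` of degree at most 4.**

Proof. `Rd` is normal in `A` (it contains the commutators) and `A ⧸ Rd` is a nontrivial commutative
`r`-group on which `Q` acts by conjugation and which `f` inverts. Its subgroup `V` of the elements `x`
with `x ^ r = 1` is nontrivial (Cauchy), has at most `r ^ 4` elements, and is a `ZMod r`-module on
which `f` acts as `-1`; by `hrep` it is trivial, contradiction. -/
theorem ysFT_rep {H : Type} [Group H] [Finite H] {r : ℕ} (hr : r.Prime) (hr2 : r ≠ 2)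
    {A Rd Q : Subgroup H} (hA : IsPGroup r A) (hRA : Rd ≤ A) (hne : Rd ≠ A)
    (hcard : Rd.relIndex A ≤ r ^ 4) (hAR : ∀ a ∈ A, ∀ b ∈ A, a * b * a⁻¹ * b⁻¹ ∈ Rd)
    (hQA : ∀ q ∈ Q, ∀ a ∈ A, q * a * q⁻¹ ∈ A) (hQR : ∀ q ∈ Q, ∀ a ∈ Rd, q * a * q⁻¹ ∈ Rd)
    {f : H} (hf : f ∈ Q) (hf2 : f ^ 2 = 1) (hfA : ∀ a ∈ A, f * a * f⁻¹ * a ∈ Rd)
    (hrep : ∀ (X : Type) [AddCommGroup X] [Module (ZMod r) X] [Finite X]
      (ρ : Q →* Module.End (ZMod r) X), Nat.card X ≤ r ^ 4 → ρ ⟨f, hf⟩ = -1 → ∀ x : X, x = 0) :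
    False := by
  classical
  have : Fact r.Prime := ⟨hr⟩
  have hn : (Rd.subgroupOf A).Normal := by
    refine ⟨fun n hn g => ?_⟩
    have h1 : (g : H) * n * (g : H)⁻¹ * (n : H)⁻¹ * n ∈ Rd :=
      mul_mem (hAR g g.2 n n.2) hn
    rw [inv_mul_cancel_right] at h1
    exact h1
  let B := A ⧸ Rd.subgroupOf A
  have hcomm : ∀ x y : B, x * y = y * x := by
    intro x y
    obtain ⟨a, rfl⟩ := QuotientGroup.mk_surjective x
    obtain ⟨b, rfl⟩ := QuotientGroup.mk_surjective y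
    rw [← QuotientGroup.mk_mul, ← QuotientGroup.mk_mul, QuotientGroup.eq]
    show ((a * b)⁻¹ * (b * a) : A).1 ∈ Rd
    have h1 := hAR (b : H)⁻¹ (inv_mem b.2) (a : H)⁻¹ (inv_mem a.2)
    have h2 : ((a * b)⁻¹ * (b * a) : A).1 = (b : H)⁻¹ * (a : H)⁻¹ * (b : H)⁻¹⁻¹ * (a : H)⁻¹⁻¹ := by
      push_cast
      group
    rw [h2]
    exact h1
  let iB : CommGroup B := { (inferInstance : Group B) with mul_comm := hcomm }
  have hcQ : ∀ (q : Q) (a : A), (q : H) * a * (q : H)⁻¹ ∈ A := fun q a => hQA q q.2 a a.2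
  let cj : Q → (A →* A) := fun q =>
    { toFun := fun a => ⟨(q : H) * a * (q : H)⁻¹, hcQ q a⟩
      map_one' := by apply Subtype.ext; simp
      map_mul' := by intro a b; apply Subtype.ext; simp [mul_assoc] }
  have hcj : ∀ (q : Q) (a : A), ((cj q a : A) : H) = (q : H) * a * (q : H)⁻¹ := fun q a => rfl
  have hcjR : ∀ q : Q, Rd.subgroupOf A ≤ (Rd.subgroupOf A).comap (cj q) :=
    fun q a ha => hQR q q.2 a ha
  let c0 : Q → (B →* B) := fun q => QuotientGroup.map _ _ (cj q) (hcjR q)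
  have hc0 : ∀ (q : Q) (a : A), c0 q (QuotientGroup.mk a) = QuotientGroup.mk (cj q a) :=
    fun q a => rfl
  have hc01 : ∀ v, c0 1 v = v := by
    intro v
    obtain ⟨x, rfl⟩ := QuotientGroup.mk_surjective v
    rw [hc0]
    congr 1
    apply Subtype.ext
    rw [hcj]
    simp
  have hc0m : ∀ g h v, c0 (g * h) v = c0 g (c0 h v) := by
    intro g h v
    obtain ⟨x, rfl⟩ := QuotientGroup.mk_surjective v
    rw [hc0, hc0, hc0]
    congr 1
    apply Subtype.ext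
    rw [hcj, hcj, hcj]
    simp [mul_assoc]
  let V : Subgroup B := (powMonoidHom r : B →* B).ker
  have hVm : ∀ x : B, x ∈ V ↔ x ^ r = 1 := fun x => Iff.rfl
  have hVc : ∀ (q : Q) (x : B), x ∈ V → c0 q x ∈ V := by
    intro q x hx
    rw [hVm] at hx ⊢
    rw [← map_pow, hx, map_one]
  let cV : Q → (V →* V) := fun q =>
    { toFun := fun x => ⟨c0 q x, hVc q x x.2⟩
      map_one' := by apply Subtype.ext; simp
      map_mul' := by intro a b; apply Subtype.ext; simp }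
  have hcV : ∀ (q : Q) (x : V), ((cV q x : V) : B) = c0 q (x : B) := fun q x => rfl
  have hcV1 : ∀ x, cV 1 x = x := by
    intro x
    apply Subtype.ext
    rw [hcV, hc01]
  have hcVm : ∀ g h x, cV (g * h) x = cV g (cV h x) := by
    intro g h x
    apply Subtype.ext
    rw [hcV, hcV, hcV, hc0m]
  have hfc : ∀ x, cV ⟨f, hf⟩ x = x⁻¹ := by
    intro x
    obtain ⟨x, hx⟩ := x
    obtain ⟨a, rfl⟩ := QuotientGroup.mk_surjective x
    apply Subtype.ext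
    rw [hcV]
    show c0 ⟨f, hf⟩ (QuotientGroup.mk a) = ((QuotientGroup.mk a : B))⁻¹
    rw [hc0, eq_inv_iff_mul_eq_one, ← QuotientGroup.mk_mul, QuotientGroup.eq_one_iff]
    exact hfA a a.2
  have hzV : ∀ x : V, x ^ r = 1 := by
    intro x
    apply Subtype.ext
    have := x.2
    rw [hVm] at this
    push_cast
    exact this
  have hcB : Nat.card B = Rd.relIndex A := rfl
  have hcV4 : Nat.card V ≤ r ^ 4 :=
    (Subgroup.card_le_card_group V).trans (hcB.le.trans hcard)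
  have htriv := ysFT_module hzV cV hcV1 hcVm ⟨f, hf⟩ hfc (r ^ 4) hcV4 hrep
  -- B is nontrivial
  have hBne : Nat.card B ≠ 1 := by
    rw [hcB]
    intro h1
    exact hne (le_antisymm hRA (Subgroup.relIndex_eq_one.1 h1))
  have hBp : IsPGroup r B := hA.to_quotient _
  obtain ⟨n, hn1⟩ := IsPGroup.iff_card.1 hBp
  have hrd : r ∣ Nat.card B := by
    rw [hn1]
    refine dvd_pow_self r ?_
    rintro rfl
    exact hBne (by rw [hn1, pow_zero])
  obtain ⟨x, hx⟩ := exists_prime_orderOf_dvd_card' r hrd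
  have hxV : x ∈ V := by
    rw [hVm, ← hx, pow_orderOf_eq_one]
  have h1 := htriv ⟨x, hxV⟩
  have h2 : x = 1 := congrArg Subtype.val h1
  rw [h2, orderOf_one] at hx
  exact hr.one_lt.ne hx

end Pool.Agent.Lib.MP_544bd1_al
end

section

/-!
Theorem Z3: (SPL), base case.
-/

namespace Pool.Agent.Lib.MP_544bd1_al

open Subgroup

private lemma zs1_mod {F Q : Type} [Group F] [Group Q] (hcomm : ∀ a b : Q, a * b = b * a)
    (c : F → Q →* Q) (h1 : ∀ x, c 1 x = x) (hm : ∀ g h x, c (g * h) x = c g (c h x)) :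
    ∃ (V : Type) (_ : AddCommGroup V) (ρ : F →* AddMonoid.End V) (ψ : Q → V),
      Function.Bijective ψ ∧ (∀ x y, ψ (x * y) = ψ x + ψ y) ∧
      ∀ (g : F) (x : Q), ψ (c g x) = ρ g (ψ x) := by
  let i : CommGroup Q := { ‹Group Q› with mul_comm := hcomm }
  refine ⟨Additive Q, inferInstance,
    { toFun := fun g => (MonoidHom.toAdditive (c g) : Additive Q →+ Additive Q)
      map_one' := ?_, map_mul' := ?_ }, Additive.ofMul, Additive.ofMul.bijective,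
    fun x y => rfl, fun g x => rfl⟩
  · refine AddMonoidHom.ext fun v => ?_
    exact congrArg Additive.ofMul (h1 (Additive.toMul v))
  · intro g h
    refine AddMonoidHom.ext fun v => ?_
    exact congrArg Additive.ofMul (hm g h (Additive.toMul v))

/-- the linear algebra: `ξ v = v + ω` -/
private lemma zs1_lin {V : Type} [AddCommGroup V] (h2 : ∀ v : V, v + v = 0)
    (ξ : AddMonoid.End V) (g : ℕ → AddMonoid.End V) (om : ℕ → V) (ω : V)
    (h0 : om 0 = 0) (h4 : om 4 = 0) (hs : ∀ i, om (i + 1) = ω + ξ (om i))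
    (hg : ∀ i v, ξ (g i v) = g (i + 1) (ξ v)) (hg4 : g 4 = g 0)
    (hsum : ∀ v, g 0 v + g 1 v + g 2 v + g 3 v = v) :
    ∃ v : V, ω = v + ξ v := by
  refine ⟨g 0 (om 0) + g 1 (om 1) + g 2 (om 2) + g 3 (om 3), ?_⟩
  have hx : ∀ i, ξ (om i) = om (i + 1) + ω := by
    intro i
    rw [hs i]
    have := h2 ω
    calc ξ (om i) = (ω + ω) + ξ (om i) := by rw [this, zero_add]
      _ = ω + ξ (om i) + ω := by abel
  have hgx : ∀ i, ξ (g i (om i)) = g (i + 1) (om (i + 1)) + g (i + 1) ω := by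
    intro i
    rw [hg, hx, map_add]
  rw [map_add, map_add, map_add, hgx, hgx, hgx, hgx]
  show ω = g 0 (om 0) + g 1 (om 1) + g 2 (om 2) + g 3 (om 3) +
    (g 1 (om 1) + g 1 ω + (g 2 (om 2) + g 2 ω) + (g 3 (om 3) + g 3 ω) +
      (g 4 (om 4) + g 4 ω))
  rw [h0, h4, map_zero, map_zero, hg4]
  have e1 := h2 (g 1 (om 1))
  have e2 := h2 (g 2 (om 2))
  have e3 := h2 (g 3 (om 3))
  calc ω = g 0 ω + g 1 ω + g 2 ω + g 3 ω := (hsum ω).symm
    _ = (g 1 (om 1) + g 1 (om 1)) + (g 2 (om 2) + g 2 (om 2)) + (g 3 (om 3) + g 3 (om 3)) +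
        (g 0 ω + g 1 ω + g 2 ω + g 3 ω) := by rw [e1, e2, e3]; abel
    _ = _ := by abel

/-- the group part: an element `y = w * x` with `y ^ 4 = 1` normalizing `E₀` -/
private lemma zs1_core {r : ℕ} (hr : r.Prime) (hr2 : r ≠ 2) {X : Type} [Group X] [Finite X]
    (W E₀ : Subgroup X) [hWn : W.Normal] (hW : ∀ w ∈ W, w ^ 2 = 1)
    (hWc : ∀ a ∈ W, ∀ b ∈ W, a * b = b * a)
    {k : ℕ} (hk : ∀ e ∈ E₀, e ^ (r ^ k) = 1) {x y w : X} (hw : w ∈ W) (hy : y = w * x)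
    (hx : x ^ 4 = 1) (hy4 : y ^ 4 = 1) (hyE : ∀ e ∈ E₀, y * e * y⁻¹ ∈ E₀)
    (hy2 : ∀ e ∈ E₀, y ^ 2 * e * (y ^ 2)⁻¹ = e⁻¹)
    (hfix : ∀ w ∈ W, (∀ e ∈ E₀, e * w = w * e) → w = 1) :
    ∃ v ∈ W, w = v * (x * v⁻¹ * x⁻¹) := by
  classical
  have hcop : Nat.Coprime (r ^ k) 2 :=
    Nat.Coprime.pow_left _ ((Nat.coprime_primes hr Nat.prime_two).2 hr2)
  obtain ⟨V, _, ρ, ψ, hψb, hψa, hψe⟩ := zs1_mod (F := X) (Q := W)
    (fun a b => Subtype.ext (hWc a a.2 b b.2))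
    (fun g => ((MulAut.conjNormal g : MulAut W) : W →* W))
    (fun a => by
      apply Subtype.ext
      simp)
    (fun g h a => by
      apply Subtype.ext
      simp [mul_assoc])
  have hψe' : ∀ (g : X) (a : W), ψ ⟨g * a * g⁻¹, hWn.conj_mem _ a.2 g⟩ = ρ g (ψ a) := by
    intro g a
    rw [← hψe g a]
    congr 1
  have hψ1 : ψ 1 = 0 := by
    have := hψa 1 1
    rw [mul_one] at this
    exact left_eq_add.mp this
  have h2 : ∀ v : V, v + v = 0 := by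
    intro v
    obtain ⟨a, rfl⟩ := hψb.2 v
    rw [← hψa, ← hψ1]
    congr 1
    apply Subtype.ext
    have := hW a a.2
    rw [pow_two] at this
    exact this
  have h2E : ∀ f : AddMonoid.End V, f + f = 0 := by
    intro f
    refine DFunLike.ext _ _ fun v => ?_
    exact h2 (f v)
  have hρW : ∀ a ∈ W, ρ a = 1 := by
    intro a ha
    refine DFunLike.ext _ _ fun v => ?_
    obtain ⟨b, rfl⟩ := hψb.2 v
    rw [← hψe' a b]
    show ψ _ = ψ b
    congr 1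
    apply Subtype.ext
    show a * b * a⁻¹ = b
    rw [hWc a ha b b.2, mul_inv_cancel_right]
  have hρxy : ρ y = ρ x := by
    rw [hy, map_mul, hρW w hw, one_mul]
  have : Fintype E₀ := Fintype.ofFinite _
  have hN : ∑ c : E₀, ρ (c : X) = 0 := by
    refine DFunLike.ext _ _ fun v => ?_
    obtain ⟨u, hu⟩ := hψb.2 ((∑ c : E₀, ρ (c : X)) v)
    have hu1 : (u : X) = 1 := by
      refine hfix u u.2 ?_
      intro e he
      have h3 : ρ e * ∑ c : E₀, ρ (c : X) = ∑ c : E₀, ρ (c : X) := by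
        rw [Finset.mul_sum]
        refine Fintype.sum_equiv (Equiv.mulLeft (⟨e, he⟩ : E₀)) _ _ ?_
        intro c
        rw [← map_mul]
        rfl
      have h4 : ρ e (ψ u) = ψ u := by
        rw [hu]
        exact DFunLike.congr_fun h3 v
      rw [← hψe' e u] at h4
      have h5 := congrArg Subtype.val (hψb.1 h4)
      have h6 : e * (u : X) * e⁻¹ = u := h5
      rw [mul_inv_eq_iff_eq_mul] at h6
      exact h6
    have hu2 : u = 1 := Subtype.ext hu1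
    rw [← hu, hu2, hψ1]
    rfl
  -- the orbit representatives
  let σ : E₀ → E₀ := fun e => ⟨y * e * y⁻¹, hyE e e.2⟩
  have hσi : ∀ (i : ℕ) (e : E₀), ((σ^[i] e : E₀) : X) = y ^ i * e * (y ^ i)⁻¹ := by
    intro i
    induction i with
    | zero => intro e; simp
    | succ n ih =>
      intro e
      rw [Function.iterate_succ_apply', pow_succ']
      show y * ((σ^[n] e : E₀) : X) * y⁻¹ = _
      rw [ih e]
      group
  obtain ⟨T, hT⟩ := tw_orb (X := E₀) (p := 2) (a := 2) Nat.prime_two two_pos σ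
    (by
      apply Subtype.ext
      show y * 1 * y⁻¹ = 1
      group)
    (by
      intro e
      apply Subtype.ext
      rw [hσi]
      show y ^ 4 * (e : X) * (y ^ 4)⁻¹ = e
      rw [hy4]
      group)
    (by
      intro e he
      have h3 := congrArg Subtype.val he
      rw [hσi] at h3
      have h4 : y ^ 2 * (e : X) * (y ^ 2)⁻¹ = e := h3
      rw [hy2 e e.2] at h4
      apply Subtype.ext
      refine eq_one_of_coprime_pow hcop (hk e e.2) ?_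
      rw [pow_two]
      calc (e : X) * e = (e : X)⁻¹ * e := by rw [h4]
        _ = 1 := by group)
  have hT' := hT (AddMonoid.End V) (fun c => ρ (c : X))
  rw [hN] at hT'
  have hT1 : ∑ t ∈ T, ∑ i ∈ Finset.range (2 ^ 2), ρ ((σ^[i] t : E₀) : X) = 1 := by
    have h3 : (1 : AddMonoid.End V) + (1 + ∑ t ∈ T, ∑ i ∈ Finset.range (2 ^ 2),
        ρ ((σ^[i] t : E₀) : X)) = 1 := by
      have h4 : ρ ((1 : E₀) : X) = 1 := map_one ρ
      rw [h4] at hT'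
      rw [← hT', add_zero]
    rw [← add_assoc, h2E, zero_add] at h3
    exact h3
  set s : AddMonoid.End V := ∑ t ∈ T, ρ (t : X) with hs
  let g : ℕ → AddMonoid.End V := fun i => ρ (y ^ i) * s * ρ ((y ^ i)⁻¹)
  have hgs : ∑ i ∈ Finset.range 4, g i = 1 := by
    rw [← hT1, Finset.sum_comm]
    refine Finset.sum_congr rfl fun i _ => ?_
    show ρ (y ^ i) * s * ρ ((y ^ i)⁻¹) = _
    rw [hs, Finset.mul_sum, Finset.sum_mul]
    refine Finset.sum_congr rfl fun t _ => ?_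
    rw [hσi, map_mul, map_mul]
  have hmem : ∀ i : ℕ, y ^ i * (x ^ i)⁻¹ ∈ W := by
    intro i
    induction i with
    | zero => simp
    | succ n ih =>
      have : y ^ (n + 1) * (x ^ (n + 1))⁻¹ = w * (x * (y ^ n * (x ^ n)⁻¹) * x⁻¹) := by
        rw [pow_succ', pow_succ' x, hy]
        group
      rw [this]
      exact mul_mem hw (hWn.conj_mem _ ih x)
  let om : ℕ → V := fun i => ψ ⟨y ^ i * (x ^ i)⁻¹, hmem i⟩
  obtain ⟨v, hv⟩ := zs1_lin h2 (ρ x) g om (ψ ⟨w, hw⟩)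
    (by
      rw [← hψ1]
      show ψ _ = ψ _
      congr 1
      apply Subtype.ext
      show y ^ 0 * (x ^ 0)⁻¹ = 1
      simp)
    (by
      rw [← hψ1]
      show ψ _ = ψ _
      congr 1
      apply Subtype.ext
      show y ^ 4 * (x ^ 4)⁻¹ = 1
      rw [hy4, hx]
      group)
    (by
      intro i
      show ψ _ = ψ _ + ρ x (ψ _)
      rw [← hψe', ← hψa]
      congr 1
      apply Subtype.ext
      show y ^ (i + 1) * (x ^ (i + 1))⁻¹ = w * (x * (y ^ i * (x ^ i)⁻¹) * x⁻¹)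
      rw [pow_succ', pow_succ' x, hy]
      group)
    (by
      intro i v
      have h3 : ρ x * g i = g (i + 1) * ρ x := by
        show ρ x * (ρ (y ^ i) * s * ρ ((y ^ i)⁻¹)) =
          ρ (y ^ (i + 1)) * s * ρ ((y ^ (i + 1))⁻¹) * ρ x
        rw [← hρxy, mul_assoc (ρ (y ^ (i + 1)) * s), ← map_mul]
        have h4 : (y ^ (i + 1))⁻¹ * y = (y ^ i)⁻¹ := by
          rw [pow_succ']
          group
        rw [h4, pow_succ', map_mul]
        simp only [mul_assoc]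
      exact DFunLike.congr_fun h3 v)
    (by
      show ρ (y ^ 4) * s * ρ ((y ^ 4)⁻¹) = ρ (y ^ 0) * s * ρ ((y ^ 0)⁻¹)
      rw [hy4, pow_zero])
    (by
      intro v
      have h3 := DFunLike.congr_fun hgs v
      rw [Finset.sum_range_succ, Finset.sum_range_succ, Finset.sum_range_succ,
        Finset.sum_range_one] at h3
      exact h3)
  obtain ⟨v₀, hv₀⟩ := hψb.2 v
  refine ⟨v₀, v₀.2, ?_⟩
  have hinv : ψ v₀⁻¹ = v := by
    have h3 := hψa v₀ v₀⁻¹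
    rw [mul_inv_cancel, hψ1, hv₀] at h3
    have h4 := h2 v
    rw [h3] at h4
    exact (add_left_cancel h4).symm
  have h3 : ψ ⟨w, hw⟩ = ψ (v₀ * ⟨x * (v₀⁻¹ : W) * x⁻¹, hWn.conj_mem _ (v₀⁻¹).2 x⟩) := by
    rw [hψa, hψe', hv₀, hinv, hv]
  have h4 := congrArg Subtype.val (hψb.1 h3)
  exact h4

/-- **(SPL), base case**: `W` elementary abelian, `E₀` an `r`-group without fixed points on `W`,
`W * E₀` normalized by `x`, commutative and inverted by `x ^ 2` modulo `W`, `x ^ 4 = 1`. Then `x`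
normalizes a conjugate of `E₀` by an element of `W`.

Proof. (1) `x * E₀ * x⁻¹` and `E₀` are Sylow `r`-subgroups (`W ⊓ E₀ = ⊥`) of the group `W * E₀`
(they have the same order, `W` is a 2-group), so they are conjugate under an element of `W`
(`tw_conj_compl` in TwF1.lean also gives this): there is `w ∈ W` such that `y = w * x` satisfies
`y * e * y⁻¹ ∈ E₀` for `e ∈ E₀`. `y ^ 4 ∈ W` (`x ^ 4 = 1`), and for `e ∈ E₀`
`y ^ 4 * e * (y ^ 4)⁻¹ * e⁻¹ ∈ W ⊓ E₀ = ⊥`; so `y ^ 4 = 1` by `hfix`.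
(2) `σ : E₀ → E₀`, `σ e = y * e * y⁻¹`, a homomorphism, `σ^[4] e = e`; `σ^[2] e = e⁻¹`: indeed
`y ^ 2 * e * (y ^ 2)⁻¹ * e ∈ W` by `hinv` (`y ≡ x mod W`), and it is in `E₀`. So `σ^[2] e = e` implies
`e = 1` (`r` odd). `E₀` is commutative (`hab`, `W ⊓ E₀ = ⊥`).
(3) Write `W` additively: `tw_module_aux2` (TwM.lean) for `Q := W`, `p := 2`, conjugation gives an
`F₂`-space `V`, `τ : X →* Module.End (ZMod 2) V` and a bijective `ψ : W → V`, additive, equivariant.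
`τ w = 1` for `w ∈ W`; let `ξ = τ x = τ y`, `ξ ^ 4 = 1`. `∑ c : E₀, τ c = 0`: its values are fixed by
`E₀`, so correspond to elements of `W` commuting with `E₀`, trivial by `hfix`. So
`∑ c ≠ 1, τ c = 1` (characteristic 2). By `tw_orb` (TwD5.lean, `p := 2`, `a := 2`) there is a finite
set `T ⊆ E₀` of orbit representatives (see the structure `TwOrb`): with `s = ∑ t ∈ T, τ t`:
`∑ i < 4, ξ ^ i * s * ξ ^ (-i) = ∑ t ∈ T, ∑ i < 4, τ (σ^[i] t) = ∑ c ≠ 1, τ c = 1`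
(`ξ ^ (-i) = ξ ^ (4 - i)` or use `(τ x)⁻¹ = τ x⁻¹`).
(4) Let `ω = ψ w`, `ω_i = ∑ j < i, ξ ^ j ω`; `ω_4 = 0` because
`y ^ 4 = w * (x * w * x⁻¹) * (x ^ 2 * w * (x ^ 2)⁻¹) * (x ^ 3 * w * (x ^ 3)⁻¹) * x ^ 4 = 1`. Let
`v = ∑ i < 4, ξ ^ i (s (ξ ^ (-i) ω_i))`. Since `ω_{i+1} = ω + ξ ω_i`,
`ξ v = ∑ i < 4, ξ ^ (i+1) s ξ ^ (-(i+1)) (ξ ω_i) = ∑ i < 4, ξ ^ (i+1) s ξ ^ (-(i+1)) (ω_{i+1} + ω)
= v + ω` (characteristic 2; the terms with `i + 1 = 4` and `i = 0` agree: `ω_4 = ω_0 = 0`). So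
`ω = v + ξ v`: with `ψ v₀ = v`, `w = v₀ * (x * v₀⁻¹ * x⁻¹)` (`W` has exponent 2).
(5) So `y = w * x = v₀ * x * v₀⁻¹`, `x = v₀⁻¹ * y * v₀` and `x` normalizes `v₀⁻¹ * E₀ * v₀`:
the conclusion with `v = v₀⁻¹`. -/
theorem zt_spl1 {r : ℕ} (hr : r.Prime) (hr2 : r ≠ 2) {X : Type} [Group X] [Finite X]
    (W E₀ : Subgroup X) [W.Normal] (hW : ∀ w ∈ W, w ^ 2 = 1) (hE : IsPGroup r E₀) {x : X}
    (hx : x ^ 4 = 1) (hxE : ∀ e ∈ E₀, ∃ e' ∈ E₀, x * e * x⁻¹ * e'⁻¹ ∈ W)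
    (hab : ∀ e ∈ E₀, ∀ e' ∈ E₀, e * e' * e⁻¹ * e'⁻¹ ∈ W)
    (hinv : ∀ e ∈ E₀, x ^ 2 * e * (x ^ 2)⁻¹ * e ∈ W)
    (hfix : ∀ w ∈ W, (∀ e ∈ E₀, e * w = w * e) → w = 1) :
    ∃ v ∈ W, ∀ e ∈ E₀, ∃ e' ∈ E₀, x * (v * e * v⁻¹) * x⁻¹ = v * e' * v⁻¹ := by
  classical
  have hWn : W.Normal := ‹W.Normal›
  have hWc : ∀ a ∈ W, ∀ b ∈ W, a * b = b * a := by
    intro a ha b hb
    have h1 := hW a ha
    have h2 := hW b hb
    have h3 := hW (a * b) (mul_mem ha hb)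
    rw [pow_two] at h1 h2 h3
    have h4 : a⁻¹ = a := inv_eq_of_mul_eq_one_left h1
    have h5 : b⁻¹ = b := inv_eq_of_mul_eq_one_left h2
    have h6 : (a * b)⁻¹ = a * b := inv_eq_of_mul_eq_one_left h3
    rw [← h6, mul_inv_rev, h4, h5]
  have : Fact r.Prime := ⟨hr⟩
  obtain ⟨k, hk0⟩ := IsPGroup.iff_card.mp hE
  have hk : ∀ e ∈ E₀, e ^ (r ^ k) = 1 := by
    intro e he
    have h1 : (⟨e, he⟩ : E₀) ^ Nat.card E₀ = 1 := pow_card_eq_one'
    rw [hk0] at h1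
    exact congrArg Subtype.val h1
  have hcop : Nat.Coprime (r ^ k) 2 :=
    Nat.Coprime.pow_left _ ((Nat.coprime_primes hr Nat.prime_two).2 hr2)
  have hint : ∀ a ∈ W, a ∈ E₀ → a = 1 := fun a ha ha' =>
    eq_one_of_coprime_pow hcop (hk a ha') (hW a ha)
  -- normalization modulo `W`
  have hPmul : ∀ g h : X, (∀ e ∈ E₀, ∃ e' ∈ E₀, g * e * g⁻¹ * e'⁻¹ ∈ W) →
      (∀ e ∈ E₀, ∃ e' ∈ E₀, h * e * h⁻¹ * e'⁻¹ ∈ W) →
      ∀ e ∈ E₀, ∃ e' ∈ E₀, (g * h) * e * (g * h)⁻¹ * e'⁻¹ ∈ W := by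
    intro g h hg hh e he
    obtain ⟨e', he', h1⟩ := hh e he
    obtain ⟨e'', he'', h2⟩ := hg e' he'
    refine ⟨e'', he'', ?_⟩
    have h3 : (g * h) * e * (g * h)⁻¹ * e''⁻¹ =
        (g * (h * e * h⁻¹ * e'⁻¹) * g⁻¹) * (g * e' * g⁻¹ * e''⁻¹) := by group
    rw [h3]
    exact mul_mem (hWn.conj_mem _ h1 g) h2
  have hxE3 : ∀ e ∈ E₀, ∃ e' ∈ E₀, x⁻¹ * e * x⁻¹⁻¹ * e'⁻¹ ∈ W := by
    have h1 := hPmul x x hxE hxE
    have h2 := hPmul (x * x) x h1 hxE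
    have h3 : x * x * x = x⁻¹ := by
      rw [eq_inv_iff_mul_eq_one, ← hx, pow_succ, pow_succ, pow_two]
    rw [h3] at h2
    exact h2
  obtain ⟨v, hv, hvK⟩ := tw_conj_compl hcop W hWc hW E₀ (E₀.map (MulAut.conj x).toMonoidHom) hk
    (by
      rintro _ ⟨e, he, rfl⟩
      rw [← map_pow, hk e he, map_one])
    (by
      intro e he
      obtain ⟨e', he', h1⟩ := hxE3 e he
      refine ⟨e⁻¹ * (x * (x⁻¹ * e * x⁻¹⁻¹ * e'⁻¹)⁻¹ * x⁻¹) * e, ?_, ?_⟩
      · have h2 := hWn.conj_mem _ (hWn.conj_mem _ (inv_mem h1) x) e⁻¹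
        rw [inv_inv e] at h2
        exact h2
      · refine ⟨e', he', ?_⟩
        show x * e' * x⁻¹ = _
        group)
    (by
      rintro _ ⟨e, he, rfl⟩
      obtain ⟨e', he', h1⟩ := hxE e he
      refine ⟨(x * e * x⁻¹)⁻¹ * (x * e * x⁻¹ * e'⁻¹)⁻¹ * (x * e * x⁻¹), ?_, ?_⟩
      · have h2 := hWn.conj_mem _ (inv_mem h1) (x * e * x⁻¹)⁻¹
        rw [inv_inv (x * e * x⁻¹)] at h2
        exact h2
      · have h3 : (x * e * x⁻¹) * ((x * e * x⁻¹)⁻¹ * (x * e * x⁻¹ * e'⁻¹)⁻¹ * (x * e * x⁻¹)) =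
            e' := by group
        show (x * e * x⁻¹) * ((x * e * x⁻¹)⁻¹ * (x * e * x⁻¹ * e'⁻¹)⁻¹ * (x * e * x⁻¹)) ∈ E₀
        rw [h3]
        exact he')
  have hyE : ∀ e ∈ E₀, (v⁻¹ * x) * e * (v⁻¹ * x)⁻¹ ∈ E₀ := by
    intro e he
    have h1 : x * e * x⁻¹ ∈ E₀.map (MulAut.conj x).toMonoidHom := ⟨e, he, rfl⟩
    have h2 := (hvK _).mp h1
    have h3 : (v⁻¹ * x) * e * (v⁻¹ * x)⁻¹ = v⁻¹ * (x * e * x⁻¹) * v := by group
    rw [h3]
    exact h2
  obtain ⟨w, hw⟩ : ∃ w, w = v⁻¹ := ⟨_, rfl⟩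
  rw [← hw] at hyE
  have hwW : w ∈ W := by rw [hw]; exact inv_mem hv
  obtain ⟨y, hy⟩ : ∃ y, y = w * x := ⟨_, rfl⟩
  rw [← hy] at hyE
  have hmk : (QuotientGroup.mk' W) y = (QuotientGroup.mk' W) x := by
    have h1 : (QuotientGroup.mk' W) w = 1 := (QuotientGroup.eq_one_iff w).mpr hwW
    rw [hy, map_mul, h1, one_mul]
  have hker : ∀ a : X, (QuotientGroup.mk' W) a = 1 → a ∈ W := fun a ha =>
    (QuotientGroup.eq_one_iff a).mp ha
  have hker' : ∀ a ∈ W, (QuotientGroup.mk' W) a = 1 := fun a ha =>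
    (QuotientGroup.eq_one_iff a).mpr ha
  have hyE' : ∀ (i : ℕ) (e : X), e ∈ E₀ → y ^ i * e * (y ^ i)⁻¹ ∈ E₀ := by
    intro i
    induction i with
    | zero => intro e he; simpa using he
    | succ n ih =>
      intro e he
      have h1 := hyE _ (ih e he)
      have h2 : y ^ (n + 1) * e * (y ^ (n + 1))⁻¹ = y * (y ^ n * e * (y ^ n)⁻¹) * y⁻¹ := by
        rw [pow_succ']
        group
      rw [h2]
      exact h1
  have hy4W : y ^ 4 ∈ W := by
    apply hker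
    rw [map_pow, hmk, ← map_pow, hx, map_one]
  have hy4 : y ^ 4 = 1 := by
    apply hfix _ hy4W
    intro e he
    have h1 : y ^ 4 * e * (y ^ 4)⁻¹ * e⁻¹ = 1 := by
      apply hint
      · have h2 : y ^ 4 * e * (y ^ 4)⁻¹ * e⁻¹ = y ^ 4 * (e * (y ^ 4)⁻¹ * e⁻¹) := by group
        rw [h2]
        exact mul_mem hy4W (hWn.conj_mem _ (inv_mem hy4W) e)
      · exact mul_mem (hyE' 4 e he) (inv_mem he)
    rw [mul_inv_eq_one, mul_inv_eq_iff_eq_mul] at h1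
    exact h1.symm
  have hy2 : ∀ e ∈ E₀, y ^ 2 * e * (y ^ 2)⁻¹ = e⁻¹ := by
    intro e he
    rw [eq_inv_iff_mul_eq_one]
    apply hint
    · apply hker
      have h1 := hker' _ (hinv e he)
      simp only [map_mul, map_pow, map_inv] at h1 ⊢
      rw [hmk]
      exact h1
    · exact mul_mem (hyE' 2 e he) he
  obtain ⟨v₀, hv₀, h0⟩ := zs1_core hr hr2 W E₀ hW hWc hk hwW hy hx hy4 hyE hy2 hfix
  refine ⟨v₀⁻¹, inv_mem hv₀, ?_⟩
  intro e he
  refine ⟨y * e * y⁻¹, hyE e he, ?_⟩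
  have h1 : y = v₀ * x * v₀⁻¹ := by
    rw [hy, h0]
    group
  rw [h1]
  group

end Pool.Agent.Lib.MP_544bd1_al
end

section

/-!
Theorem Z3: (SPL).
-/

namespace Pool.Agent.Lib.MP_544bd1_al

open Subgroup

/-- a nontrivial normal 2-subgroup has nontrivial elements of order 2 in its center -/
private theorem zt_spl_Z {X : Type} [Group X] [Finite X] (W : Subgroup X)
    (hW : ∀ w ∈ W, ∃ k, w ^ (2 ^ k) = 1) (hne : W ≠ ⊥) :
    ∃ w ∈ W, w ≠ 1 ∧ w ^ 2 = 1 ∧ ∀ w' ∈ W, w * w' = w' * w := by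
  classical
  have h2 : Fact (Nat.Prime 2) := ⟨Nat.prime_two⟩
  have hp : IsPGroup 2 W := by
    intro w
    obtain ⟨k, hk⟩ := hW w w.2
    exact ⟨k, Subtype.ext (by simpa using hk)⟩
  have hnt : Nontrivial W := (Subgroup.nontrivial_iff_ne_bot W).2 hne
  have hc : Nontrivial (center W) := hp.center_nontrivial
  obtain ⟨⟨c, hcc⟩, hc1⟩ := exists_ne (1 : center W)
  have hc1' : (c : X) ≠ 1 := by
    intro h
    apply hc1
    apply Subtype.ext
    apply Subtype.ext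
    exact h
  have hcom : ∀ w' ∈ W, (c : X) * w' = w' * c := by
    intro w' hw'
    have h1 := (Subgroup.mem_center_iff.1 hcc) ⟨w', hw'⟩
    exact (congrArg Subtype.val h1).symm
  have hex : ∃ k, (c : X) ^ (2 ^ k) = 1 := hW c c.2
  obtain ⟨k, hk, hmin⟩ : ∃ k, (c : X) ^ (2 ^ k) = 1 ∧ ∀ j < k, (c : X) ^ (2 ^ j) ≠ 1 :=
    ⟨Nat.find hex, Nat.find_spec hex, fun j hj => Nat.find_min hex hj⟩
  obtain _ | k := k
  · exact absurd (by simpa using hk) hc1'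
  · refine ⟨(c : X) ^ (2 ^ k), W.pow_mem c.2 _, hmin k (Nat.lt_succ_self k), ?_, ?_⟩
    · rw [← pow_mul, ← pow_succ]
      exact hk
    · intro w' hw'
      exact ((show Commute (c : X) w' from hcom w' hw').pow_left _).eq

private theorem zt_spl_cop {r : ℕ} (hr : r.Prime) (hr2 : r ≠ 2) {X : Type} [Group X] {g : X}
    {i j : ℕ} (h1 : g ^ (2 ^ i) = 1) (h2 : g ^ (r ^ j) = 1) : g = 1 := by
  have hc : Nat.Coprime (2 ^ i) (r ^ j) :=
    Nat.Coprime.pow _ _ ((Nat.coprime_primes Nat.prime_two hr).2 hr2.symm)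
  exact eq_one_of_coprime_pow hc h1 h2

/-- the lifting step: a complement modulo the normal 2-subgroup `Y` gives a subgroup `X₁ = Y * E₀` -/
private theorem zt_spl_step {r : ℕ} (hr : r.Prime) (hr2 : r ≠ 2) {X : Type} [Group X] [Finite X]
    (Y W B : Subgroup X) [Y.Normal] (hYW : Y ≤ W) (hWB : W ≤ B)
    (hW : ∀ w ∈ W, ∃ k, w ^ (2 ^ k) = 1) {x : X}
    (E₁ : Subgroup (X ⧸ Y)) (h1 : E₁ ≤ B.map (QuotientGroup.mk' Y)) (h2 : IsPGroup r E₁)
    (h3 : ∀ e ∈ E₁, QuotientGroup.mk' Y x * e * (QuotientGroup.mk' Y x)⁻¹ ∈ E₁)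
    (h4 : ∀ b ∈ B.map (QuotientGroup.mk' Y), ∃ e ∈ E₁, e⁻¹ * b ∈ W.map (QuotientGroup.mk' Y)) :
    ∃ X₁ E₀ : Subgroup X, E₀ ≤ X₁ ∧ X₁ ≤ B ∧ (∀ g ∈ X₁, x * g * x⁻¹ ∈ X₁) ∧
      (∀ g ∈ X₁, ∃ y ∈ Y, ∃ e ∈ E₀, g = y * e) ∧ IsPGroup r E₀ ∧
      (∀ g ∈ X₁, g ∈ W → g ∈ Y) ∧ ∀ b ∈ B, ∃ e ∈ E₀, e⁻¹ * b ∈ W := by
  classical
  set f := QuotientGroup.mk' Y with hf
  have hker : ∀ g : X, f g = 1 ↔ g ∈ Y := fun g => QuotientGroup.eq_one_iff g
  have hYX : Y ≤ E₁.comap f := by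
    intro y hy
    rw [mem_comap, (hker y).2 hy]
    exact E₁.one_mem
  have hX₁B : E₁.comap f ≤ B := by
    intro g hg
    obtain ⟨b, hb, hbg⟩ := h1 (mem_comap.1 hg)
    have h5 : b⁻¹ * g ∈ Y := by
      rw [← hker, map_mul, map_inv, hbg, inv_mul_cancel]
    have h6 := B.mul_mem hb (hWB (hYW h5))
    rwa [mul_inv_cancel_left] at h6
  have hinf : ∀ g ∈ E₁.comap f, g ∈ W → g ∈ Y := by
    intro g hg hgW
    rw [← hker]
    obtain ⟨i, hi⟩ := hW g hgW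
    obtain ⟨j, hj⟩ := h2 ⟨f g, hg⟩
    have hj' : (f g) ^ (r ^ j) = 1 := by simpa using congrArg Subtype.val hj
    have hi' : (f g) ^ (2 ^ i) = 1 := by rw [← map_pow, hi, map_one]
    exact zt_spl_cop hr hr2 hi' hj'
  -- Schur-Zassenhaus
  have hYp : IsPGroup 2 (Y.subgroupOf (E₁.comap f)) := by
    intro w
    obtain ⟨k, hk⟩ := hW w (hYW w.2)
    refine ⟨k, ?_⟩
    apply Subtype.ext
    apply Subtype.ext
    simpa using hk
  have hcop : Nat.Coprime (Nat.card (Y.subgroupOf (E₁.comap f))) (Y.subgroupOf (E₁.comap f)).index := by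
    have hF2 : Fact (Nat.Prime 2) := ⟨Nat.prime_two⟩
    have hFr : Fact r.Prime := ⟨hr⟩
    obtain ⟨i, hi⟩ := IsPGroup.iff_card.1 hYp
    obtain ⟨j, hj⟩ := IsPGroup.iff_card.1 h2
    have hidx : (Y.subgroupOf (E₁.comap f)).index = Nat.card E₁ := by
      let g : E₁.comap f →* E₁ := (f.comp (E₁.comap f).subtype).codRestrict E₁ fun y => y.2
      have hgs : Function.Surjective g := by
        rintro ⟨e, he⟩
        obtain ⟨y, rfl⟩ := QuotientGroup.mk'_surjective Y e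
        exact ⟨⟨y, he⟩, rfl⟩
      have hgk : g.ker = Y.subgroupOf (E₁.comap f) := by
        ext y
        rw [MonoidHom.mem_ker, mem_subgroupOf, ← hker]
        constructor
        · intro h
          exact congrArg Subtype.val h
        · intro h
          exact Subtype.ext h
      rw [← hgk, Subgroup.index_ker, MonoidHom.range_eq_top.2 hgs]
      simp
    rw [hidx, hi, hj]
    exact Nat.Coprime.pow _ _ ((Nat.coprime_primes Nat.prime_two hr).2 hr2.symm)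
  obtain ⟨H, hH⟩ := Subgroup.exists_right_complement'_of_coprime hcop
  refine ⟨E₁.comap f, H.map (E₁.comap f).subtype, ?_, hX₁B, ?_, ?_, ?_, hinf, ?_⟩
  · rintro _ ⟨y, _, rfl⟩
    exact y.2
  · intro g hg
    rw [mem_comap, map_mul, map_mul, map_inv]
    exact h3 _ hg
  · intro g hg
    obtain ⟨⟨y, e⟩, hye⟩ := (isComplement'_def.1 hH).2 ⟨g, hg⟩
    refine ⟨((y : E₁.comap f) : X), y.2, ((e : E₁.comap f) : X), ⟨_, e.2, rfl⟩, ?_⟩
    exact (congrArg Subtype.val hye).symm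
  · rintro ⟨_, ⟨y, hy, rfl⟩⟩
    obtain ⟨j, hj⟩ := h2 ⟨f y, y.2⟩
    have hj' : (f (y : X)) ^ (r ^ j) = 1 := by simpa using congrArg Subtype.val hj
    have h5 : y ^ (r ^ j) ∈ Y.subgroupOf (E₁.comap f) := by
      rw [mem_subgroupOf, ← hker, Subgroup.coe_pow, map_pow]
      exact hj'
    have h6 : y ^ (r ^ j) = 1 := by
      have h7 := hH.disjoint
      rw [Subgroup.disjoint_def] at h7
      exact h7 h5 (H.pow_mem hy _)
    refine ⟨j, ?_⟩
    apply Subtype.ext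
    have := congrArg Subtype.val h6
    simpa using this
  · intro b hb
    obtain ⟨e₁, he₁, he⟩ := h4 (f b) ⟨b, hb, rfl⟩
    obtain ⟨g, rfl⟩ := QuotientGroup.mk'_surjective Y e₁
    obtain ⟨⟨y, e⟩, hye⟩ := (isComplement'_def.1 hH).2 ⟨g, he₁⟩
    refine ⟨((e : E₁.comap f) : X), ⟨_, e.2, rfl⟩, ?_⟩
    have h5 : g = ((y : E₁.comap f) : X) * ((e : E₁.comap f) : X) := (congrArg Subtype.val hye).symm
    have h6 : f g = f ((e : E₁.comap f) : X) := by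
      have h55 : f ((y : E₁.comap f) : X) = 1 := (hker _).2 y.2
      rw [h5, map_mul, h55, one_mul]
    obtain ⟨w, hw, hwe⟩ := he
    have h7 : f w = f (((e : E₁.comap f) : X)⁻¹ * b) := by
      rw [hwe, map_mul, map_inv, ← h6]
    have h8 : w⁻¹ * (((e : E₁.comap f) : X)⁻¹ * b) ∈ Y := by
      rw [← hker, map_mul, map_inv, h7, inv_mul_cancel]
    have h9 := W.mul_mem hw (hYW h8)
    rwa [mul_inv_cancel_left] at h9

/-- `B` normal -/
private theorem zt_spl_norm {r : ℕ} (hr : r.Prime) (hr2 : r ≠ 2) (n : ℕ) :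
    ∀ (X : Type) [Group X] [Finite X] (W B : Subgroup X) [W.Normal] [B.Normal] (x : X),
      Nat.card W = n → W ≤ B → (∀ w ∈ W, ∃ k, w ^ (2 ^ k) = 1) → (∀ b ∈ B, ∃ k, b ^ (r ^ k) ∈ W) →
      x ^ 4 = 1 → (∀ b ∈ B, ∀ b' ∈ B, b * b' * b⁻¹ * b'⁻¹ ∈ W) →
      (∀ b ∈ B, x ^ 2 * b * (x ^ 2)⁻¹ * b ∈ W) →
      ∃ E' : Subgroup X, E' ≤ B ∧ IsPGroup r E' ∧ (∀ e ∈ E', x * e * x⁻¹ ∈ E') ∧
        ∀ b ∈ B, ∃ e ∈ E', e⁻¹ * b ∈ W := by
  induction n using Nat.strong_induction_on with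
  | _ n ih =>
  intro X _ _ W B hWn hBn x hcard hWB hW hB hx hab hinv
  by_cases hbot : W = ⊥
  · refine ⟨B, le_rfl, ?_, fun e he => hBn.conj_mem e he x, fun b hb => ⟨b, hb, ?_⟩⟩
    · intro b
      obtain ⟨k, hk⟩ := hB b b.2
      rw [hbot, mem_bot] at hk
      exact ⟨k, Subtype.ext (by simpa using hk)⟩
    · rw [inv_mul_cancel]
      exact W.one_mem
  obtain ⟨w₀, hw₀W, hw₀1, hw₀2, hw₀c⟩ := zt_spl_Z W hW hbot
  -- the subgroup `Z`
  let Z : Subgroup X :=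
    { carrier := {w | w ∈ W ∧ w ^ 2 = 1 ∧ ∀ w' ∈ W, w * w' = w' * w}
      one_mem' := ⟨W.one_mem, one_pow 2, fun w' _ => by rw [one_mul, mul_one]⟩
      mul_mem' := by
        rintro a b ⟨ha, ha2, hac⟩ ⟨hb, hb2, hbc⟩
        have hcab : Commute a b := hac b hb
        refine ⟨W.mul_mem ha hb, ?_, ?_⟩
        · rw [hcab.mul_pow, ha2, hb2, one_mul]
        · intro w' hw'
          exact (Commute.mul_left (show Commute a w' from hac w' hw') (hbc w' hw')).eq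
      inv_mem' := by
        rintro a ⟨ha, ha2, hac⟩
        refine ⟨W.inv_mem ha, ?_, ?_⟩
        · rw [inv_pow, ha2, inv_one]
        · intro w' hw'
          exact (Commute.inv_left (show Commute a w' from hac w' hw')).eq }
  have hZn : Z.Normal := by
    constructor
    rintro a ⟨ha, ha2, hac⟩ g
    refine ⟨hWn.conj_mem a ha g, ?_, ?_⟩
    · rw [conj_pow, ha2, mul_one, mul_inv_cancel]
    · intro w' hw'
      have h1 : g⁻¹ * w' * g ∈ W := by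
        have := hWn.conj_mem w' hw' g⁻¹
        rwa [inv_inv] at this
      have h2 := hac _ h1
      calc g * a * g⁻¹ * w' = g * (a * (g⁻¹ * w' * g)) * g⁻¹ := by group
        _ = g * ((g⁻¹ * w' * g) * a) * g⁻¹ := by rw [h2]
        _ = w' * (g * a * g⁻¹) := by group
  let C : Subgroup X :=
    { carrier := {w | w ∈ Z ∧ ∀ b ∈ B, w * b = b * w}
      one_mem' := ⟨Z.one_mem, fun w' _ => by rw [one_mul, mul_one]⟩
      mul_mem' := by
        rintro a b ⟨ha, hac⟩ ⟨hb, hbc⟩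
        refine ⟨Z.mul_mem ha hb, ?_⟩
        intro w' hw'
        exact (Commute.mul_left (show Commute a w' from hac w' hw') (hbc w' hw')).eq
      inv_mem' := by
        rintro a ⟨ha, hac⟩
        refine ⟨Z.inv_mem ha, ?_⟩
        intro w' hw'
        exact (Commute.inv_left (show Commute a w' from hac w' hw')).eq }
  have hCn : C.Normal := by
    constructor
    rintro a ⟨ha, hac⟩ g
    refine ⟨hZn.conj_mem a ha g, ?_⟩
    intro w' hw'
    have h1 : g⁻¹ * w' * g ∈ B := by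
      have := hBn.conj_mem w' hw' g⁻¹
      rwa [inv_inv] at this
    have h2 := hac _ h1
    calc g * a * g⁻¹ * w' = g * (a * (g⁻¹ * w' * g)) * g⁻¹ := by group
      _ = g * ((g⁻¹ * w' * g) * a) * g⁻¹ := by rw [h2]
      _ = w' * (g * a * g⁻¹) := by group
  have hZW : Z ≤ W := fun w hw => hw.1
  have hCZ : C ≤ Z := fun w hw => hw.1
  -- the induction hypothesis modulo `Y`
  have key : ∀ Y : Subgroup X, Y.Normal → Y ≤ W → Y ≠ ⊥ →
      ∃ X₁ E₀ : Subgroup X, E₀ ≤ X₁ ∧ X₁ ≤ B ∧ (∀ g ∈ X₁, x * g * x⁻¹ ∈ X₁) ∧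
      (∀ g ∈ X₁, ∃ y ∈ Y, ∃ e ∈ E₀, g = y * e) ∧ IsPGroup r E₀ ∧
      (∀ g ∈ X₁, g ∈ W → g ∈ Y) ∧ ∀ b ∈ B, ∃ e ∈ E₀, e⁻¹ * b ∈ W := by
    intro Y hYn hYW hYne
    set f := QuotientGroup.mk' Y with hf
    have hfs : Function.Surjective f := QuotientGroup.mk'_surjective Y
    have hWm : (W.map f).Normal := hWn.map f hfs
    have hBm : (B.map f).Normal := hBn.map f hfs
    have hlt : Nat.card (W.map f) < n := by
      rw [← hcard]
      let g : W → W.map f := fun w => ⟨f w, ⟨w, w.2, rfl⟩⟩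
      have hgs : Function.Surjective g := by
        rintro ⟨_, ⟨w, hw, rfl⟩⟩
        exact ⟨⟨w, hw⟩, rfl⟩
      refine lt_of_le_of_ne (Nat.card_le_card_of_surjective g hgs) ?_
      · intro heq
        have hinj : Function.Injective g := by
          have h0 : Fintype W := Fintype.ofFinite W
          have h0' : Fintype (W.map f) := Fintype.ofFinite _
          exact ((Fintype.bijective_iff_surjective_and_card g).2 ⟨hgs, by
            rw [← Nat.card_eq_fintype_card, ← Nat.card_eq_fintype_card]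
            exact heq.symm⟩).1
        apply hYne
        rw [eq_bot_iff]
        intro y hy
        rw [mem_bot]
        have h1 : g ⟨y, hYW hy⟩ = g 1 := by
          apply Subtype.ext
          show f y = f 1
          rw [map_one]
          exact (QuotientGroup.eq_one_iff y).2 hy
        exact congrArg Subtype.val (hinj h1)
    obtain ⟨E₁, e1, e2, e3, e4⟩ := ih _ hlt (X ⧸ Y) (W.map f) (B.map f) (f x) rfl (map_mono hWB)
      (by
        rintro _ ⟨w, hw, rfl⟩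
        obtain ⟨k, hk⟩ := hW w hw
        exact ⟨k, by rw [← map_pow, hk, map_one]⟩)
      (by
        rintro _ ⟨b, hb, rfl⟩
        obtain ⟨k, hk⟩ := hB b hb
        exact ⟨k, ⟨_, hk, by rw [map_pow]⟩⟩)
      (by rw [← map_pow, hx, map_one])
      (by
        rintro _ ⟨b, hb, rfl⟩ _ ⟨b', hb', rfl⟩
        exact ⟨_, hab b hb b' hb', by simp only [map_mul, map_inv]⟩)
      (by
        rintro _ ⟨b, hb, rfl⟩
        exact ⟨_, hinv b hb, by simp only [map_mul, map_inv, map_pow]⟩)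
    exact zt_spl_step hr hr2 Y W B hYW hWB hW E₁ e1 e2 e3 e4
  by_cases hC : C = ⊥
  · have hZne : Z ≠ ⊥ := by
      intro h
      apply hw₀1
      have : w₀ ∈ Z := ⟨hw₀W, hw₀2, hw₀c⟩
      rwa [h, mem_bot] at this
    obtain ⟨X₁, E₀, k1, k2, k3, k4, k5, k6, k7⟩ := key Z hZn hZW hZne
    obtain ⟨v, hv, hve⟩ := zt_spl1 hr hr2 Z E₀ (fun w hw => hw.2.1) k5 hx
      (by
        intro e he
        obtain ⟨y, hy, e', he', hye⟩ := k4 _ (k3 e (k1 he))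
        refine ⟨e', he', ?_⟩
        rw [hye, mul_inv_cancel_right]
        exact hy)
      (by
        intro e he e' he'
        apply k6
        · exact X₁.mul_mem (X₁.mul_mem (X₁.mul_mem (k1 he) (k1 he')) (X₁.inv_mem (k1 he)))
            (X₁.inv_mem (k1 he'))
        · exact hab e (k2 (k1 he)) e' (k2 (k1 he')))
      (by
        intro e he
        apply k6
        · have h1 := k3 _ (k3 e (k1 he))
          have h2 : x * (x * e * x⁻¹) * x⁻¹ = x ^ 2 * e * (x ^ 2)⁻¹ := by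
            rw [pow_two]
            group
          rw [h2] at h1
          exact X₁.mul_mem h1 (k1 he)
        · exact hinv e (k2 (k1 he)))
      (by
        intro w hw hwe
        have h1 : w ∈ C := by
          refine ⟨hw, ?_⟩
          intro b hb
          obtain ⟨e, he, heb⟩ := k7 b hb
          have h2 := hw.2.2 _ heb
          have h3 := hwe e he
          calc w * b = (w * e) * (e⁻¹ * b) := by group
            _ = (e * w) * (e⁻¹ * b) := by rw [h3]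
            _ = e * (w * (e⁻¹ * b)) := by group
            _ = e * ((e⁻¹ * b) * w) := by rw [h2]
            _ = b * w := by group
        rwa [hC, mem_bot] at h1)
    refine ⟨E₀.map (MulAut.conj v).toMonoidHom, ?_, ?_, ?_, ?_⟩
    · rintro _ ⟨e, he, rfl⟩
      exact hBn.conj_mem e (k2 (k1 he)) v
    · exact k5.map _
    · rintro _ ⟨e, he, rfl⟩
      obtain ⟨e', he', h1⟩ := hve e he
      exact ⟨e', he', h1.symm⟩
    · intro b hb
      obtain ⟨e, he, heb⟩ := k7 b hb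
      refine ⟨v * e * v⁻¹, ⟨e, he, rfl⟩, ?_⟩
      have h1 : (v * e * v⁻¹)⁻¹ * b = v * (e⁻¹ * v⁻¹ * (e⁻¹)⁻¹) * (e⁻¹ * b) := by group
      rw [h1]
      exact W.mul_mem (W.mul_mem (hZW hv) (hWn.conj_mem _ (W.inv_mem (hZW hv)) _)) heb
  · obtain ⟨X₁, E₀, k1, k2, k3, k4, k5, k6, k7⟩ := key C hCn (hCZ.trans hZW) hC
    refine ⟨E₀, k1.trans k2, k5, ?_, k7⟩
    intro e he
    obtain ⟨c, hc, e', he', hce⟩ := k4 _ (k3 e (k1 he))
    obtain ⟨i, hi⟩ := k5 ⟨e, he⟩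
    obtain ⟨j, hj⟩ := k5 ⟨e', he'⟩
    have hi' : e ^ (r ^ i) = 1 := by simpa using congrArg Subtype.val hi
    have hj' : e' ^ (r ^ j) = 1 := by simpa using congrArg Subtype.val hj
    have hcomm : Commute c e' := hc.2 e' (k2 (k1 he'))
    have h1 : (x * e * x⁻¹) ^ (r ^ (i + j)) = 1 := by
      rw [conj_pow, pow_add, pow_mul, hi', one_pow, mul_one, mul_inv_cancel]
    rw [hce, hcomm.mul_pow] at h1
    have h2 : e' ^ (r ^ (i + j)) = 1 := by
      rw [pow_add, mul_comm, pow_mul, hj', one_pow]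
    rw [h2, mul_one] at h1
    have h3 : c ^ (2 ^ 1) = 1 := by
      rw [pow_one]
      exact hc.1.2.1
    have h4 : c = 1 := zt_spl_cop hr hr2 h3 h1
    rw [hce, h4, one_mul]
    exact he'

/-- **(SPL), subgroup form**: `W ≤ B`, `W` a normal 2-subgroup of `X`, `B` normalized by `x`, `B ⧸ W`
a commutative `r`-group inverted by `x ^ 2`, `x ^ 4 = 1`: `W` has an `x`-invariant complement in `B`.

Proof. Strong induction on `n = Nat.card X` (for all `X`). Replacing `X` by the subgroup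
`closure (B ∪ {x})` (if it is not `⊤`, its order is smaller: apply the induction hypothesis in it) we
may assume `B` is normal in `X` (`closure (B ∪ {x})` normalizes `B`). If `W = ⊥`, take `E' = B`. Let
`Z = {w ∈ W | w ^ 2 = 1 ∧ ∀ w' ∈ W, w * w' = w' * w}`: a normal subgroup of `X`, elementary abelian,
`Z ≠ ⊥` (the center of the nontrivial 2-group `W` is nontrivial: `IsPGroup.center_nontrivial`), and
`C = {w ∈ Z | ∀ b ∈ B, w * b = b * w}`, also normal in `X`.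
(i) `C ≠ ⊥`: apply the induction hypothesis to `X ⧸ C`, `W.map`, `B.map`: `E₁ ≤ B.map`. Let
`X₁ = {b ∈ B | mk b ∈ E₁}`, an `x`-invariant subgroup; let `E'` be a Sylow `r`-subgroup of `X₁`
(`Sylow`, mapped to `X`). `X₁ = C * E'` (`X₁ ⧸ C ≅ E₁` is an `r`-group, `C` a 2-group), `C` centralizes
`E'`, so `E'` is the set of elements of `X₁` of `r`-power order, so it is normalized by `x`. It is a
complement of `W` in `B`: for `b ∈ B` there is `b₁ ∈ X₁` with `b₁⁻¹ * b ∈ W` and `b₁ = e * c`.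
(ii) `C = ⊥`: apply the induction hypothesis to `X ⧸ Z`, `X₁`, and a Sylow `r`-subgroup `E₀` of `X₁`
as before, `X₁ = Z * E₀`. An element `w ∈ Z` commuting with `E₀` commutes with `W` and with
`B = W * E₀`, so it is in `C = ⊥`. `zt_spl1` for `Z`, `E₀` (`x * e * x⁻¹ ∈ X₁ = Z * E₀`; the
commutators and `x ^ 2 * e * (x ^ 2)⁻¹ * e` are in `X₁ ⊓ W`, and `X₁ ⊓ W = Z` because
`E₁ ⊓ W.map = ⊥`) gives `v ∈ Z`; `E' = v * E₀ * v⁻¹`. -/
theorem zt_spl_aux {r : ℕ} (hr : r.Prime) (hr2 : r ≠ 2) (n : ℕ) :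
    ∀ (X : Type) [Group X] [Finite X], Nat.card X = n → ∀ (W B : Subgroup X) [W.Normal] (x : X),
      W ≤ B → (∀ w ∈ W, ∃ k, w ^ (2 ^ k) = 1) → (∀ b ∈ B, ∃ k, b ^ (r ^ k) ∈ W) →
      x ^ 4 = 1 → (∀ b ∈ B, x * b * x⁻¹ ∈ B) → (∀ b ∈ B, ∀ b' ∈ B, b * b' * b⁻¹ * b'⁻¹ ∈ W) →
      (∀ b ∈ B, x ^ 2 * b * (x ^ 2)⁻¹ * b ∈ W) →
      ∃ E' : Subgroup X, E' ≤ B ∧ IsPGroup r E' ∧ (∀ e ∈ E', x * e * x⁻¹ ∈ E') ∧
        ∀ b ∈ B, ∃ e ∈ E', e⁻¹ * b ∈ W := by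
  intro X _ _ _ W B hWn x hWB hW hB hx hxB hab hinv
  set H : Subgroup X := closure ((B : Set X) ∪ {x}) with hH
  have hBH : B ≤ H := fun b hb => subset_closure (Or.inl hb)
  have hxH : x ∈ H := subset_closure (Or.inr rfl)
  have hHn : H ≤ normalizer (B : Set X) := by
    rw [hH, closure_le]
    rintro g (hg | hg)
    · exact le_normalizer hg
    · rw [Set.mem_singleton_iff] at hg
      rw [hg]
      rw [SetLike.mem_coe, mem_normalizer_iff]
      intro h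
      constructor
      · exact hxB h
      · intro h1
        have h2 := hxB _ (hxB _ (hxB _ h1))
        have h3 : x * (x * (x * (x * h * x⁻¹) * x⁻¹) * x⁻¹) * x⁻¹ = x ^ 4 * h * (x ^ 4)⁻¹ := by
          simp only [pow_succ, pow_zero, one_mul, mul_inv_rev]
          group
        rwa [h3, hx, inv_one, one_mul, mul_one] at h2
  have hBn : (B.subgroupOf H).Normal := by
    constructor
    rintro ⟨b, hbH⟩ hb ⟨g, hg⟩
    have h1 := hHn hg
    rw [mem_normalizer_iff] at h1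
    exact (h1 b).1 hb
  have hWn' : (W.subgroupOf H).Normal := by infer_instance
  obtain ⟨E, e1, e2, e3, e4⟩ := zt_spl_norm hr hr2 _ H (W.subgroupOf H) (B.subgroupOf H) ⟨x, hxH⟩ rfl
    (fun w hw => hWB hw)
    (fun w hw => by
      obtain ⟨k, hk⟩ := hW _ hw
      exact ⟨k, Subtype.ext (by simpa using hk)⟩)
    (fun b hb => by
      obtain ⟨k, hk⟩ := hB _ hb
      refine ⟨k, ?_⟩
      rw [mem_subgroupOf]
      simpa using hk)
    (Subtype.ext (by simpa using hx))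
    (fun b hb b' hb' => by
      rw [mem_subgroupOf]
      exact hab _ hb _ hb')
    (fun b hb => by
      rw [mem_subgroupOf]
      exact hinv _ hb)
  refine ⟨E.map H.subtype, ?_, e2.map _, ?_, ?_⟩
  · rintro _ ⟨e, he, rfl⟩
    exact e1 he
  · rintro _ ⟨e, he, rfl⟩
    exact ⟨_, e3 e he, rfl⟩
  · intro b hb
    obtain ⟨e, he, heb⟩ := e4 ⟨b, hBH hb⟩ hb
    exact ⟨e, ⟨e, he, rfl⟩, heb⟩

/-- **(SPL)**

Proof. `zt_spl_aux` for `W = f.ker`, `B = E.comap f`. -/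
theorem zt_spl {r : ℕ} (hr : r.Prime) (hr2 : r ≠ 2) {X Y : Type} [Group X] [Finite X] [Group Y]
    (f : X →* Y) (hf : Function.Surjective f) (hker : ∀ w ∈ f.ker, ∃ k, w ^ (2 ^ k) = 1) {x : X}
    (hx : x ^ 4 = 1) (E : Subgroup Y) (hE : IsPGroup r E)
    (hab : ∀ e ∈ E, ∀ e' ∈ E, e * e' = e' * e) (hxE : ∀ e ∈ E, f x * e * (f x)⁻¹ ∈ E)
    (hinv : ∀ e ∈ E, f x ^ 2 * e * (f x ^ 2)⁻¹ = e⁻¹) :
    ∃ E' : Subgroup X, IsPGroup r E' ∧ (∀ e ∈ E', x * e * x⁻¹ ∈ E') ∧ (∀ e ∈ E', f e ∈ E) ∧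
      ∀ e ∈ E, ∃ e' ∈ E', f e' = e := by
  obtain ⟨E', h1, h2, h3, h4⟩ := zt_spl_aux hr hr2 (Nat.card X) X rfl f.ker (E.comap f) x
    (fun w hw => by
      rw [mem_comap, MonoidHom.mem_ker.1 hw]
      exact E.one_mem) hker
    (fun b hb => by
      obtain ⟨k, hk⟩ := hE ⟨f b, hb⟩
      refine ⟨k, ?_⟩
      rw [MonoidHom.mem_ker, map_pow]
      have := congrArg Subtype.val hk
      simpa using this) hx
    (fun b hb => by
      rw [mem_comap, map_mul, map_mul, map_inv]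
      exact hxE _ hb)
    (fun b hb b' hb' => by
      rw [MonoidHom.mem_ker, map_mul, map_mul, map_mul, map_inv, map_inv, hab _ hb _ hb']
      group)
    (fun b hb => by
      rw [MonoidHom.mem_ker, map_mul, map_mul, map_mul, map_inv, map_pow, hinv _ hb]
      group)
  refine ⟨E', h2, h3, fun e he => h1 he, ?_⟩
  intro e he
  obtain ⟨b, rfl⟩ := hf e
  obtain ⟨e', he', h⟩ := h4 b he
  rw [MonoidHom.mem_ker, map_mul, map_inv, inv_mul_eq_one] at h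
  exact ⟨e', he', h⟩

end Pool.Agent.Lib.MP_544bd1_al
end
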