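import Mathlib
import Pool.Agent.Lib.MP_544bd1_al.ZtDefs3
import Pool.Agent.Lib.MP_544bd1_al.TwS3
import Pool.Agent.Lib.MP_544bd1_al.GpOX
import Pool.Agent.Lib.MP_544bd1_al.ZtFrat
import Pool.Agent.Lib.MP_544bd1_al.ZtSpl
import Pool.Agent.Lib.MP_544bd1_al.TwA
import Pool.Agent.Lib.MP_544bd1_al.TwU1
import Pool.Agent.Lib.MP_544bd1_al.ZtNorm
import Pool.Agent.Lib.MP_544bd1_al.TwR4
import Pool.Agent.Lib.MP_544bd1_al.TwS2

section

/-!
Theorem Z (paper 287), 4.5-4.8: YOut and YTr, basic facts.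
-/

namespace Pool.Agent.Lib.MP_544bd1_al

open Subgroup

private theorem conj_ytr {X : Type} [Group X] {h h' x : X}
    (hx : (h'⁻¹ * h) * x * (h'⁻¹ * h)⁻¹ = x) : h * x * h⁻¹ = h' * x * h'⁻¹ := by
  have e : h * x * h⁻¹ = h' * ((h'⁻¹ * h) * x * (h'⁻¹ * h)⁻¹) * h'⁻¹ := by group
  rw [e, hx]

private theorem conj_comm_inv {X : Type} [Group X] {h r x : X}
    (hx : (h * x * h⁻¹) * r = r * (h * x * h⁻¹)) :
    (h⁻¹ * r * h⁻¹⁻¹) * x = x * (h⁻¹ * r * h⁻¹⁻¹) := by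
  have e1 : (h⁻¹ * r * h⁻¹⁻¹) * x = h⁻¹ * (r * (h * x * h⁻¹)) * h := by group
  have e2 : x * (h⁻¹ * r * h⁻¹⁻¹) = h⁻¹ * ((h * x * h⁻¹) * r) * h := by group
  rw [e1, e2, hx]

/-- only the conjugation action on `Q` and `R` matters.

Proof. `h = h' * t` with `t = h'⁻¹ * h` centralizing `Q ≥ Q₀` and `R ≥ E`. -/
theorem yOut_congr {X : Type} [Group X] {Q Q₀ R E : Subgroup X} (h0 : Q₀ ≤ Q) (hE : E ≤ R)
    {h h' : X} (ht : YTr Q R (h'⁻¹ * h)) (H : YOut Q₀ E h') : YOut Q₀ E h := by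
  obtain ⟨h1, h2⟩ := ht
  obtain ⟨a1, a2, a3, a4⟩ := H
  have eQ : ∀ x ∈ Q₀, h * x * h⁻¹ = h' * x * h'⁻¹ := fun x hx => conj_ytr (h1 x (h0 hx))
  have eE : ∀ r ∈ E, h * r * h⁻¹ = h' * r * h'⁻¹ := fun r hr => conj_ytr (h2 r (hE hr))
  refine ⟨fun r hr x hx => ?_, fun r hr x hx => ?_, fun r hr s hs => ?_, fun x hx x' hx' => ?_⟩
  · rw [eE r hr]; exact a1 r hr x hx
  · rw [eQ x hx]; exact a2 r hr x hx
  · rw [eE r hr]; exact a3 r hr s hs
  · rw [eQ x' hx']; exact a4 x hx x' hx'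

theorem YOut.inv {X : Type} [Group X] {Q₀ E : Subgroup X} {h : X} (H : YOut Q₀ E h) :
    YOut Q₀ E h⁻¹ := by
  obtain ⟨a1, a2, a3, a4⟩ := H
  refine ⟨fun r hr x hx => ?_, fun r hr x hx => ?_, fun r hr s hs => ?_, fun x hx x' hx' => ?_⟩
  · exact conj_comm_inv (a2 r hr x hx)
  · exact conj_comm_inv (a1 r hr x hx)
  · exact conj_comm_inv (a3 s hs r hr)
  · exact conj_comm_inv (a4 x' hx' x hx)

theorem YTr.mul {X : Type} [Group X] {Q R : Subgroup X} {h h' : X} (H : YTr Q R h)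
    (H' : YTr Q R h') : YTr Q R (h * h') := by
  have key : ∀ x : X, h * x * h⁻¹ = x → h' * x * h'⁻¹ = x → (h * h') * x * (h * h')⁻¹ = x := by
    intro x e1 e2
    have e : (h * h') * x * (h * h')⁻¹ = h * (h' * x * h'⁻¹) * h⁻¹ := by group
    rw [e, e2, e1]
  exact ⟨fun x hx => key x (H.1 x hx) (H'.1 x hx), fun x hx => key x (H.2 x hx) (H'.2 x hx)⟩

theorem YTr.inv {X : Type} [Group X] {Q R : Subgroup X} {h : X} (H : YTr Q R h) :
    YTr Q R h⁻¹ := by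
  have key : ∀ x : X, h * x * h⁻¹ = x → h⁻¹ * x * h⁻¹⁻¹ = x := by
    intro x e1
    calc h⁻¹ * x * h⁻¹⁻¹ = h⁻¹ * (h * x * h⁻¹) * h⁻¹⁻¹ := by rw [e1]
      _ = x := by group
  exact ⟨fun x hx => key x (H.1 x hx), fun x hx => key x (H.2 x hx)⟩

theorem YTr.pow {X : Type} [Group X] {Q R : Subgroup X} {h : X} (H : YTr Q R h) (n : ℕ) :
    YTr Q R (h ^ n) := by
  induction n with
  | zero => exact ⟨fun x _ => by simp, fun x _ => by simp⟩
  | succ n ih => rw [pow_succ]; exact ih.mul H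

end Pool.Agent.Lib.MP_544bd1_al
end

section

/-!
Theorem Z (paper 287), 4.5-4.8: relations in a line.
-/

namespace Pool.Agent.Lib.MP_544bd1_al

open Subgroup

variable {a k : ℕ} {X : Type} [Group X] [Finite X] {Q Q₀ Z R E : Subgroup X} {g τ y c μ σ : X} {x : X}

/-- **Relations in a line.** Proof. `f = x ^ 2 ∈ Z` (`Y.sq`), `f ^ 2 = 1`, `f` commutes with `c`. With
`x' = c * x * c⁻¹`, `x'' = c ^ 2 * x * (c ^ 2)⁻¹`: `x * x' = x''⁻¹`, so `(x * x') ^ 2 = f`, and `x ^ 2 = f`,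
`x' ^ 2 = f`. -/
theorem yk_line (Y : YX a k Q Q₀ Z R E g τ y c μ σ) (h : YE Q₀ Z y c μ x) :
    x ^ 4 = 1 ∧ x ^ 2 ∈ Z ∧ (c * x * c⁻¹) * x = x * (c * x * c⁻¹) * x ^ 2 ∧
      x * (c * x * c⁻¹) = (c ^ 2 * x * (c ^ 2)⁻¹)⁻¹ := by
  have hxQ : x ∈ Q := Y.QQ h.h0
  have hcR : c ∈ R := Y.ER Y.cE
  have hf : x ^ 2 ∈ Z := Y.sq x hxQ
  have hx'Q : c * x * c⁻¹ ∈ Q := Y.RQ c hcR x hxQ
  have h4 : x * (c * x * c⁻¹) = (c ^ 2 * x * (c ^ 2)⁻¹)⁻¹ := eq_inv_of_mul_eq_one_left h.h3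
  obtain ⟨f, hf0⟩ : ∃ f, f = x ^ 2 := ⟨_, rfl⟩
  obtain ⟨x', hx'⟩ : ∃ x', x' = c * x * c⁻¹ := ⟨_, rfl⟩
  obtain ⟨x'', hx''⟩ : ∃ x'', x'' = c ^ 2 * x * (c ^ 2)⁻¹ := ⟨_, rfl⟩
  rw [← hf0] at hf
  have hff : f * f = 1 := by
    have := Y.Z2 f hf
    rwa [pow_two] at this
  have hfi : f⁻¹ = f := inv_eq_of_mul_eq_one_left hff
  have hfx : f * x = x * f := Y.Zc f hf x hxQ
  have hfx' : f * x' = x' * f := Y.Zc f hf x' (by rw [hx']; exact hx'Q)
  have hfc : f * c = c * f := Y.ZR f hf c hcR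
  have hfc2 : c ^ 2 * f = f * c ^ 2 := by
    rw [pow_two, mul_assoc, ← hfc, ← mul_assoc, ← hfc, mul_assoc]
  have hxx : x * x = f := by rw [hf0, pow_two]
  have hxx' : x' * x' = f := by
    have h1 : x' * x' = c * (x * x) * c⁻¹ := by rw [hx']; group
    rw [h1, hxx, ← hfc, mul_inv_cancel_right]
  have hxx'' : x'' * x'' = f := by
    have h1 : x'' * x'' = c ^ 2 * (x * x) * (c ^ 2)⁻¹ := by rw [hx'']; group
    rw [h1, hxx, hfc2, mul_inv_cancel_right]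
  have hxi : x⁻¹ = x * f := inv_eq_of_mul_eq_one_right (by rw [← mul_assoc, hxx, hff])
  have hxi' : x'⁻¹ = x' * f := inv_eq_of_mul_eq_one_right (by rw [← mul_assoc, hxx', hff])
  have h5 : (x * x') * (x * x') = f := by
    rw [← hx', ← hx''] at h4
    rw [h4, ← mul_inv_rev, hxx'', hfi]
  refine ⟨?_, ?_, ?_, h4⟩
  · rw [show (4 : ℕ) = 2 * 2 from rfl, pow_mul, ← hf0, pow_two, hff]
  · rw [← hf0]
    exact hf
  · rw [← hx', ← hf0]
    have h6 : x' * x = x⁻¹ * ((x * x') * (x * x')) * x'⁻¹ := by group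
    rw [h6, h5, hxi, hxi', mul_assoc x f f, hff, mul_one, mul_assoc]

end Pool.Agent.Lib.MP_544bd1_al
end

section

/-!
Theorem Z (paper 287), 4.5-4.8: relations between the lines.
-/

namespace Pool.Agent.Lib.MP_544bd1_al

open Subgroup

variable {a k : ℕ} {X : Type} [Group X] [Finite X] {Q Q₀ Z R E : Subgroup X} {g τ y c μ σ : X} {x : X}

omit [Finite X] in
private theorem zkr_mu (Y : YX a k Q Q₀ Z R E g τ y c μ σ) (j : ℕ) :
    μ * σ ^ j = c ^ (2 * j) * (σ ^ j * μ) := by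
  have hcσ : Commute c σ := Y.cR σ (Y.ER Y.σE)
  have h1 : μ * σ = c ^ 2 * (σ * μ) := by
    rw [Y.σμ, ← mul_assoc, ← mul_assoc, ← pow_succ, Y.c3, one_mul]
  induction j with
  | zero => simp
  | succ j ih =>
    rw [pow_succ, ← mul_assoc, ih]
    have h2 : σ ^ j * c ^ 2 = c ^ 2 * σ ^ j := ((hcσ.pow_pow 2 j).eq).symm
    calc c ^ (2 * j) * (σ ^ j * μ) * σ = c ^ (2 * j) * (σ ^ j * (μ * σ)) := by
          simp only [mul_assoc]
      _ = c ^ (2 * j) * ((σ ^ j * c ^ 2) * (σ * μ)) := by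
          rw [h1]
          simp only [mul_assoc]
      _ = c ^ (2 * j) * c ^ 2 * (σ ^ j * σ * μ) := by
          rw [h2]
          simp only [mul_assoc]
      _ = c ^ (2 * (j + 1)) * (σ ^ j * σ * μ) := by
          rw [← pow_add]
          rfl

omit [Finite X] in
private theorem zkr_mu2 (Y : YX a k Q Q₀ Z R E g τ y c μ σ) (h : YE Q₀ Z y c μ x) (n j : ℕ) :
    μ * ((c ^ n * σ ^ j) * x * (c ^ n * σ ^ j)⁻¹) * μ⁻¹ =
      c ^ (2 * j) * ((c ^ n * σ ^ j) * x * (c ^ n * σ ^ j)⁻¹) * (c ^ (2 * j))⁻¹ := by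
  have hcμ : Commute c μ := Y.cR μ (Y.ER Y.μE)
  have h1 : μ * (c ^ n * σ ^ j) = c ^ (2 * j) * (c ^ n * σ ^ j) * μ := by
    have h2 : μ * c ^ n = c ^ n * μ := ((hcμ.pow_left n).eq).symm
    have h3 : c ^ n * c ^ (2 * j) = c ^ (2 * j) * c ^ n := by rw [← pow_add, ← pow_add, add_comm]
    calc μ * (c ^ n * σ ^ j) = c ^ n * (μ * σ ^ j) := by rw [← mul_assoc, h2, mul_assoc]
      _ = (c ^ n * c ^ (2 * j)) * (σ ^ j * μ) := by rw [zkr_mu Y, mul_assoc]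
      _ = c ^ (2 * j) * (c ^ n * σ ^ j) * μ := by
        rw [h3]
        simp only [mul_assoc]
  have h4 : μ * x * μ⁻¹ = x := by rw [h.hμ, mul_assoc, mul_inv_cancel, mul_one]
  calc μ * ((c ^ n * σ ^ j) * x * (c ^ n * σ ^ j)⁻¹) * μ⁻¹ =
      (μ * (c ^ n * σ ^ j)) * x * (μ * (c ^ n * σ ^ j))⁻¹ := by group
    _ = (c ^ (2 * j) * (c ^ n * σ ^ j) * μ) * x * (c ^ (2 * j) * (c ^ n * σ ^ j) * μ)⁻¹ := by
      rw [h1]
    _ = c ^ (2 * j) * ((c ^ n * σ ^ j) * (μ * x * μ⁻¹) * (c ^ n * σ ^ j)⁻¹) *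
        (c ^ (2 * j))⁻¹ := by group
    _ = _ := by rw [h4]

/-- three elements with the same central commutator and trivial product -/
private theorem zkr_three {X : Type} [Group X] {Q Z : Subgroup X} (hZQ : Z ≤ Q)
    (hZ2 : ∀ z ∈ Z, z ^ 2 = 1) (hZc : ∀ z ∈ Z, ∀ x ∈ Q, z * x = x * z) {x t a b d : X}
    (hx : x ∈ Q) (ha : a ∈ Q) (hb : b ∈ Q) (ht : t ∈ Z) (h1 : x * a * x⁻¹ * a⁻¹ = t)
    (h2 : x * b * x⁻¹ * b⁻¹ = t) (h3 : x * d * x⁻¹ * d⁻¹ = t) (habd : a * b * d ∈ Z) : t = 1 := by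
  have e1 : x * a * x⁻¹ = t * a := by rw [← h1]; group
  have e2 : x * b * x⁻¹ = t * b := by rw [← h2]; group
  have e3 : x * d * x⁻¹ = t * d := by rw [← h3]; group
  have e4 : x * (a * b * d) * x⁻¹ = a * b * d := by
    rw [← hZc _ habd x hx, mul_assoc, mul_inv_cancel, mul_one]
  have e5 : x * (a * b * d) * x⁻¹ = (x * a * x⁻¹) * (x * b * x⁻¹) * (x * d * x⁻¹) := by group
  rw [e1, e2, e3, e4] at e5
  have e6 : t * a * (t * b) * (t * d) = t ^ 3 * (a * b * d) := by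
    have f1 : a * t = t * a := (hZc t ht a ha).symm
    have f2 : b * t = t * b := (hZc t ht b hb).symm
    calc t * a * (t * b) * (t * d) = t * (a * t) * (b * t) * d := by simp only [mul_assoc]
      _ = t * (t * a) * (t * b) * d := by rw [f1, f2]
      _ = t * t * (a * t) * b * d := by simp only [mul_assoc]
      _ = t * t * (t * a) * b * d := by rw [f1]
      _ = t ^ 3 * (a * b * d) := by
        rw [pow_three]
        simp only [mul_assoc]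
  rw [e6] at e5
  have e7 : t ^ 3 = 1 := mul_eq_right.1 e5.symm
  have e8 := hZ2 t ht
  rw [pow_succ, e8, one_mul] at e7
  exact e7

/-- **Different lines commute.**

Proof. Let `w = (c ^ n * σ ^ j) * x * (c ^ n * σ ^ j)⁻¹ ∈ Q₀`, `t = x * w * x⁻¹ * w⁻¹ ∈ Z`. As
`σ * μ = c * μ * σ`, `μ * σ ^ j = c ^ (3 * j - j) * σ ^ j * μ`, i.e. `μ * w * μ⁻¹ = c ^ (2 * j) * w * (c ^ (2 * j))⁻¹`
(`c ^ 3 = 1`, `c` is central in `R`). Conjugating by `μ` (it commutes with `x` and `t`): `t` is also the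
commutator of `x` with `c ^ (2 * j) * w * (c ^ (2 * j))⁻¹` and with
`c ^ (4 * j) * w * (c ^ (4 * j))⁻¹`; so (commutators are central of order 2, so multiplicative in the
second argument) `t = t ^ 3` is the commutator of `x` and of the product of the three conjugates, which is
in `Z` (`Y.nrm`, `Y.cm`; `0, 2 * j, 4 * j` are all the residues modulo 3). So `t = 1`. -/
theorem yk_orth (Y : YX a k Q Q₀ Z R E g τ y c μ σ) (h : YE Q₀ Z y c μ x) {j : ℕ} (hj : 0 < j)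
    (hj3 : j < 3) (n : ℕ) :
    x * ((c ^ n * σ ^ j) * x * (c ^ n * σ ^ j)⁻¹) = (c ^ n * σ ^ j) * x * (c ^ n * σ ^ j)⁻¹ * x := by
  have hcR : c ∈ R := Y.ER Y.cE
  have hσR : σ ∈ R := Y.ER Y.σE
  have hμR : μ ∈ R := Y.ER Y.μE
  have hsR : c ^ n * σ ^ j ∈ R := R.mul_mem (R.pow_mem hcR n) (R.pow_mem hσR j)
  have hcμ : Commute c μ := Y.cR μ hμR
  have hmw := zkr_mu2 Y h n j
  have hwQ₀ : (c ^ n * σ ^ j) * x * (c ^ n * σ ^ j)⁻¹ ∈ Q₀ := Y.RQ₀ _ hsR x h.h0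
  obtain ⟨w, hw⟩ : ∃ w, w = (c ^ n * σ ^ j) * x * (c ^ n * σ ^ j)⁻¹ := ⟨_, rfl⟩
  rw [← hw] at hmw hwQ₀ ⊢
  have hxQ : x ∈ Q := Y.QQ h.h0
  have hwQ : w ∈ Q := Y.QQ hwQ₀
  have hconjQ : ∀ m : ℕ, c ^ m * w * (c ^ m)⁻¹ ∈ Q := fun m => Y.RQ _ (R.pow_mem hcR m) _ hwQ
  have ht : x * w * x⁻¹ * w⁻¹ ∈ Z := Y.cm x hxQ w hwQ
  have hμx : μ * x * μ⁻¹ = x := by rw [h.hμ, mul_assoc, mul_inv_cancel, mul_one]
  -- conjugation by `μ`
  have hstep : ∀ v ∈ Q, x * v * x⁻¹ * v⁻¹ = x * (μ * v * μ⁻¹) * x⁻¹ * (μ * v * μ⁻¹)⁻¹ := by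
    intro v hv
    have h1 : x * v * x⁻¹ * v⁻¹ ∈ Z := Y.cm x hxQ v hv
    have h2 : μ * (x * v * x⁻¹ * v⁻¹) * μ⁻¹ = x * v * x⁻¹ * v⁻¹ := by
      rw [← Y.ZR _ h1 μ hμR, mul_assoc, mul_inv_cancel, mul_one]
    have h3 : μ * (x * v * x⁻¹ * v⁻¹) * μ⁻¹ =
        (μ * x * μ⁻¹) * (μ * v * μ⁻¹) * (μ * x * μ⁻¹)⁻¹ * (μ * v * μ⁻¹)⁻¹ := by group
    rw [hμx] at h3
    rw [← h2, h3]
  have hmw2 : ∀ m : ℕ, μ * (c ^ m * w * (c ^ m)⁻¹) * μ⁻¹ =
      c ^ (m + 2 * j) * w * (c ^ (m + 2 * j))⁻¹ := by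
    intro m
    have h2 : μ * c ^ m = c ^ m * μ := ((hcμ.pow_left m).eq).symm
    calc μ * (c ^ m * w * (c ^ m)⁻¹) * μ⁻¹ = (μ * c ^ m) * w * (μ * c ^ m)⁻¹ := by group
      _ = (c ^ m * μ) * w * (c ^ m * μ)⁻¹ := by rw [h2]
      _ = c ^ m * (μ * w * μ⁻¹) * (c ^ m)⁻¹ := by group
      _ = c ^ m * (c ^ (2 * j) * w * (c ^ (2 * j))⁻¹) * (c ^ m)⁻¹ := by rw [hmw]
      _ = c ^ (m + 2 * j) * w * (c ^ (m + 2 * j))⁻¹ := by
        rw [pow_add]
        simp only [mul_assoc, mul_inv_rev]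
  have h1 := hstep w hwQ
  rw [hmw] at h1
  have h2 := hstep _ (hconjQ (2 * j))
  rw [hmw2, ← h1] at h2
  have hn := Y.nrm w hwQ₀
  have hc4 : c ^ 4 = c := by rw [pow_succ, Y.c3, one_mul]
  have hc8 : c ^ 8 = c ^ 2 := by
    rw [show 8 = 3 * 2 + 2 by norm_num, pow_add, pow_mul, Y.c3, one_pow, one_mul]
  have ht1 : x * w * x⁻¹ * w⁻¹ = 1 := by
    interval_cases j
    · have e1 : c ^ (2 * 1 + 2 * 1) = c := hc4
      have e2 : c ^ (2 * 1) = c ^ 2 := rfl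
      rw [e1] at h2
      rw [e2] at h1
      have h5 : c * w * c⁻¹ ∈ Q := Y.RQ _ hcR _ hwQ
      exact zkr_three Y.ZQ Y.Z2 Y.Zc hxQ hwQ h5 ht rfl h2.symm h1.symm hn
    · have e1 : c ^ (2 * 2 + 2 * 2) = c ^ 2 := hc8
      have e2 : c ^ (2 * 2) = c := hc4
      rw [e1] at h2
      rw [e2] at h1
      have h5 : c * w * c⁻¹ ∈ Q := Y.RQ _ hcR _ hwQ
      exact zkr_three Y.ZQ Y.Z2 Y.Zc hxQ hwQ h5 ht rfl h1.symm h2.symm hn
  have h6 : x * w * x⁻¹ = w := mul_inv_eq_one.1 ht1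
  exact mul_inv_eq_iff_eq_mul.1 h6

/-- `μ` acts on the line `j` as `c ^ (2 * j)`. Proof: `μ * σ ^ j = c ^ (2 * j) * σ ^ j * μ`. -/
theorem yk_mu (Y : YX a k Q Q₀ Z R E g τ y c μ σ) (h : YE Q₀ Z y c μ x) (j : ℕ) :
    μ * (σ ^ j * x * (σ ^ j)⁻¹) * μ⁻¹ =
      c ^ (2 * j) * (σ ^ j * x * (σ ^ j)⁻¹) * (c ^ (2 * j))⁻¹ := by
  have h1 := zkr_mu2 Y h 0 j
  rw [pow_zero, one_mul] at h1
  exact h1

end Pool.Agent.Lib.MP_544bd1_al
end

section

/-!
Theorem Z3: the module of a minimal configuration.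
-/

namespace Pool.Agent.Lib.MP_544bd1_al

open Subgroup

/-- **The module** `V = Q ⧸ frattini Q` (compare `ev_module`). -/
theorem zt_module {F : Type} [Group F] [Finite F] {r : ℕ} (hr : r.Prime) (hr2 : r ≠ 2)
    (Q R : Subgroup F) [hQn : Q.Normal] {u : F} (D : ZCore r Q R u) :
    ∃ (V : Type) (_ : AddCommGroup V) (_ : Module (ZMod 2) V) (_ : Finite V)
      (ρ : F →* Module.End (ZMod 2) V) (φ : Q → V), Function.Surjective φ ∧
      (∀ x y, φ (x * y) = φ x + φ y) ∧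
      (∀ (g : F) (x : Q), φ ⟨g * x * g⁻¹, hQn.conj_mem _ x.2 g⟩ = ρ g (φ x)) ∧
      (∀ g ∈ R, ρ g = 1 → ∀ q ∈ Q, g * q = q * g) ∧
      (∀ q : Q, φ q = 0 → (∀ g ∈ R, g * (q : F) = q * g) ∧ ∀ y ∈ Q, (q : F) * y = y * q) := by
  have hQ2 : IsPGroup 2 Q := fun q => ⟨3, Subtype.ext (by simpa using D.hQ q q.2)⟩
  obtain ⟨V, iA, iM, iF, ρ, φ, hs, ha, hρ, hρQ, htriv⟩ := tw_module Nat.prime_two Q hQ2
  have htr : ∀ g ∈ R, ρ g = 1 → ∀ q ∈ Q, g * q = q * g := by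
    intro g hg h1
    obtain ⟨k, hk⟩ := D.hR ⟨g, hg⟩
    have hgk : g ^ (r ^ k) = 1 := by
      have h1 := congrArg Subtype.val hk
      simpa using h1
    exact htriv r k g hr hr2 hgk h1
  refine ⟨V, iA, iM, iF, ρ, φ, hs, ha, hρ, htr, ?_⟩
  have hφ1 : φ 1 = 0 := by
    have h1 := ha 1 1
    rw [mul_one] at h1
    exact (left_eq_add.1 h1)
  have hφi : ∀ q : Q, φ q = 0 → φ q⁻¹ = 0 := by
    intro q hq
    have h1 := ha q q⁻¹
    rw [mul_inv_cancel, hφ1, hq, zero_add] at h1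
    exact h1.symm
  let Z : Subgroup F :=
    { carrier := {q | ∃ h : q ∈ Q, φ ⟨q, h⟩ = 0}
      mul_mem' := by
        rintro x y ⟨hx, hx0⟩ ⟨hy, hy0⟩
        refine ⟨Q.mul_mem hx hy, ?_⟩
        have h1 := ha ⟨x, hx⟩ ⟨y, hy⟩
        rw [hx0, hy0, add_zero] at h1
        exact h1
      one_mem' := ⟨Q.one_mem, hφ1⟩
      inv_mem' := by
        rintro x ⟨hx, hx0⟩
        exact ⟨Q.inv_mem hx, hφi ⟨x, hx⟩ hx0⟩ }
  have hZmem : ∀ q, q ∈ Z ↔ ∃ h : q ∈ Q, φ ⟨q, h⟩ = 0 := fun q => Iff.rfl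
  have hZQ : Z ≤ Q := fun q hq => hq.1
  have hZc : ∀ g : F, ∀ q ∈ Z, g * q * g⁻¹ ∈ Z := by
    rintro g q ⟨hq, hq0⟩
    refine ⟨hQn.conj_mem q hq g, ?_⟩
    have h1 := hρ g ⟨q, hq⟩
    rw [hq0, map_zero] at h1
    exact h1
  have hZne : Z ≠ Q := by
    intro he
    obtain ⟨g, hg, q, hq, hne⟩ := D.ne
    refine hne (htr g hg ?_ q hq)
    have h0 : ∀ v : V, v = 0 := by
      intro v
      obtain ⟨x, rfl⟩ := hs v
      have hx : (x : F) ∈ Z := by rw [he]; exact x.2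
      obtain ⟨h1, h2⟩ := hx
      exact h2
    refine LinearMap.ext fun v => ?_
    rw [h0 v, map_zero, map_zero]
  have hRZ : ∀ g ∈ R, ∀ q ∈ Z, g * q = q * g :=
    D.min Z hZQ hZne (fun g _ q hq => hZc g q hq) (fun q hq => hZc u q hq)
  let C : Subgroup F := Q ⊓ centralizer (Z : Set F)
  have hCmem : ∀ q, q ∈ C ↔ q ∈ Q ∧ ∀ z ∈ Z, z * q = q * z := by
    intro q
    exact Iff.rfl
  have hCQ : C ≤ Q := inf_le_left
  have hCc : ∀ g : F, ∀ q ∈ C, g * q * g⁻¹ ∈ C := by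
    intro g q hq
    rw [hCmem] at hq ⊢
    refine ⟨hQn.conj_mem q hq.1 g, fun z hz => ?_⟩
    have h1 := hq.2 _ (hZc g⁻¹ z hz)
    rw [inv_inv] at h1
    calc z * (g * q * g⁻¹) = g * ((g⁻¹ * z * g) * q) * g⁻¹ := by group
      _ = g * (q * (g⁻¹ * z * g)) * g⁻¹ := by rw [h1]
      _ = g * q * g⁻¹ * z := by group
  have hCeq : C = Q := by
    by_contra hne
    have hRC := D.min C hCQ hne (fun g _ q hq => hCc g q hq) (fun q hq => hCc u q hq)
    obtain ⟨g, hg, q, hq, hne'⟩ := D.ne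
    refine hne' (ev_coprime hr hr2 Q R D.hQ D.hR hg (fun q hq => hQn.conj_mem q hq g) ?_ q hq)
    intro q hq
    refine hRC g hg _ ?_
    rw [hCmem]
    refine ⟨Q.mul_mem (Q.inv_mem hq) (hQn.conj_mem q hq g), fun z hz => ?_⟩
    have e1 : g * z = z * g := hRZ g hg z hz
    have e2 : g * (q * z * q⁻¹) = q * z * q⁻¹ * g := hRZ g hg _ (hZc q z hz)
    have e3 : g⁻¹ * z = z * g⁻¹ := by
      calc g⁻¹ * z = g⁻¹ * (z * g) * g⁻¹ := by group
        _ = g⁻¹ * (g * z) * g⁻¹ := by rw [e1]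
        _ = z * g⁻¹ := by group
    symm
    calc q⁻¹ * (g * q * g⁻¹) * z = q⁻¹ * g * q * (g⁻¹ * z) := by group
      _ = q⁻¹ * g * q * (z * g⁻¹) := by rw [e3]
      _ = q⁻¹ * (g * (q * z * q⁻¹)) * q * g⁻¹ := by group
      _ = q⁻¹ * (q * z * q⁻¹ * g) * q * g⁻¹ := by rw [e2]
      _ = z * (q⁻¹ * (g * q * g⁻¹)) := by group
  intro q hq
  have hqZ : (q : F) ∈ Z := ⟨q.2, hq⟩
  refine ⟨fun g hg => hRZ g hg q hqZ, fun y hy => ?_⟩
  have hyC : y ∈ C := by rw [hCeq]; exact hy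
  exact ((hCmem y).1 hyC).2 q hqZ

end Pool.Agent.Lib.MP_544bd1_al
end

section

/-!
Theorem Z3: properties of a minimal configuration.
-/

namespace Pool.Agent.Lib.MP_544bd1_al

open Subgroup
open scoped commutatorElement

/-- the norm over `R`, with values in the abelianization of `Q` -/
private noncomputable def ztIrrN {F : Type} [Group F] (Q R : Subgroup F) [Q.Normal] [Fintype R] :
    Q →* Abelianization Q where
  toFun q := ∏ g : R, Abelianization.of (MulAut.conjNormal (g : F) q)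
  map_one' := by simp
  map_mul' a b := by simp only [map_mul, Finset.prod_mul_distrib]

private theorem ztIrrN_apply {F : Type} [Group F] (Q R : Subgroup F) [Q.Normal] [Fintype R] (q : Q) :
    ztIrrN Q R q = ∏ g : R, Abelianization.of (MulAut.conjNormal (g : F) q) := rfl

private theorem ztIrrN_R {F : Type} [Group F] (Q R : Subgroup F) [Q.Normal] [Fintype R] (h : R)
    (q : Q) : ztIrrN Q R (MulAut.conjNormal (h : F) q) = ztIrrN Q R q := by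
  rw [ztIrrN_apply, ztIrrN_apply]
  refine Fintype.prod_equiv (Equiv.mulRight h) _ _ fun g => ?_
  congr 1
  show MulAut.conjNormal (g : F) (MulAut.conjNormal (h : F) q) = MulAut.conjNormal ((g * h : R) : F) q
  rw [Subgroup.coe_mul, map_mul, MulAut.mul_apply]

private theorem ztIrrN_x {F : Type} [Group F] (Q R : Subgroup F) [Q.Normal] [Fintype R] (x : F)
    (hx : ∀ g ∈ R, x * g * x⁻¹ ∈ R) (q : Q) :
    ztIrrN Q R (MulAut.conjNormal x q) =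
      Abelianization.map (MulAut.conjNormal x : MulAut Q).toMonoidHom (ztIrrN Q R q) := by
  let σ : R → R := fun g => ⟨x * g * x⁻¹, hx g g.2⟩
  have hσ : Function.Injective σ := by
    intro a b hab
    have h1 : x * (a : F) * x⁻¹ = x * (b : F) * x⁻¹ := congrArg Subtype.val hab
    exact Subtype.ext (mul_left_cancel (mul_right_cancel h1))
  have hσb : Function.Bijective σ := Finite.injective_iff_bijective.mp hσ
  rw [ztIrrN_apply, ztIrrN_apply, map_prod, ← (Equiv.ofBijective σ hσb).prod_comp]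
  refine Finset.prod_congr rfl fun g _ => ?_
  rw [Abelianization.map_of]
  congr 1
  show MulAut.conjNormal (x * (g : F) * x⁻¹) (MulAut.conjNormal x q) =
    MulAut.conjNormal x (MulAut.conjNormal (g : F) q)
  rw [← MulAut.mul_apply, ← MulAut.mul_apply, ← map_mul, ← map_mul]
  congr 2
  group

/-- **Irreducibility**, `C_Q(R) = ker φ = ⁅Q, Q⁆`, of exponent 2.

Proof. `φ` vanishes on `⁅Q, Q⁆` (`φ` is additive, with values in a commutative group; closure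
induction, or `⁅Q, Q⁆ ≤` the subgroup `{q ∈ Q | φ q = 0}` of `F`).
(0) Let `Ab = Q ⧸ commutator Q` (or work with `Abelianization Q`), a commutative group, and for `q ∈ Q` let
`N q = ∏ g : R, [g * q * g⁻¹] ∈ Ab`; `N` is a homomorphism. `Q₁ = {q ∈ Q | N q = 1}` (as a subgroup of
`F`) is invariant under `R` (reindexing) and under `x` (`x` permutes `R` by conjugation and
normalizes `Q`; reindex, `Finite`). Suppose `Q₁ ≠ Q`; by `D.min` `R` centralizes `Q₁`. For `g ∈ R`,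
`q ∈ Q`: `q⁻¹ * (g * q * g⁻¹) ∈ Q₁` (`N (g * q * g⁻¹) = N q`), so `g` commutes with it, and by
`ev_coprime` (`a := 3`) `g` centralizes `Q`: contradiction to `D.ne`. So `Q₁ = Q`.
(1) If `q ∈ Q` is centralized by `R` then `1 = N q = [q] ^ (Nat.card R)`, so `q ^ (Nat.card R) ∈ ⁅Q, Q⁆`;
`Nat.card R` is a power of `r`, so odd, and `q ^ (2 ^ 3) = 1`: `q` is a power of `q ^ (Nat.card R)`,
`q ∈ ⁅Q, Q⁆` and `φ q = 0`.
(2) If `φ q = 0` then `R` centralizes `q` (`M.ker`), so `q ∈ ⁅Q, Q⁆`. `q ^ 2 = 1`: for `a, b ∈ Q`,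
`c = a * b * a⁻¹ * b⁻¹` is central in `Q` (`φ c = 0`, `M.ker`) and `a ^ 2` is central in `Q`
(`φ (a ^ 2) = φ a + φ a = 0`), so `c ^ 2 = a ^ 2 * b * (a ^ 2)⁻¹ * b⁻¹ = 1`; `⁅Q, Q⁆` is generated by
commuting involutions (closure induction).
(3) There is `v ≠ 0`: otherwise `φ = 0` and `R` centralizes `Q` (`M.ker`). Let `W` be invariant,
`Q' = {q ∈ Q | φ q ∈ W}`; if `Q' = Q` then `W = ⊤` (`M.surj`); otherwise `R` centralizes `Q'` by `D.min`,
so `φ = 0` on `Q'` by (1), and `W = ⊥`. -/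
theorem zt_irr {F : Type} [Group F] [Finite F] {r : ℕ} (hr : r.Prime) (hr2 : r ≠ 2)
    {Q R : Subgroup F} [Q.Normal] {x : F} (D : ZCore r Q R x) {V : Type} [AddCommGroup V]
    [Module (ZMod 2) V] {τ : F →* Module.End (ZMod 2) V} {φ : Q → V} (M : ZMd Q R τ φ) :
    (∀ q : Q, (∀ g ∈ R, g * (q : F) = q * g) → φ q = 0) ∧
      (∀ q : Q, φ q = 0 → (q : F) ∈ ⁅Q, Q⁆ ∧ (q : F) ^ 2 = 1) ∧ (∃ v : V, v ≠ 0) ∧
      ∀ W : Submodule (ZMod 2) V, (∀ g ∈ R, ∀ v ∈ W, τ g v ∈ W) → (∀ v ∈ W, τ x v ∈ W) →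
        W = ⊥ ∨ W = ⊤ := by
  classical
  have hFR : Fintype R := Fintype.ofFinite R
  -- `φ` as a homomorphism
  have hφ1 : φ 1 = 0 := by
    have h1 := M.add 1 1
    rw [mul_one] at h1
    exact (left_eq_add.1 h1)
  let Φ : Q →* Multiplicative V :=
    { toFun := fun q => Multiplicative.ofAdd (φ q)
      map_one' := by rw [hφ1]; rfl
      map_mul' := fun a b => by rw [M.add]; rfl }
  have hΦ : ∀ q, Φ q = 1 ↔ φ q = 0 := fun q => Iff.rfl
  have hcom : ∀ q : Q, q ∈ commutator Q → φ q = 0 := fun q hq =>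
    (hΦ q).mp (Abelianization.commutator_subset_ker Φ hq)
  have hφi : ∀ q : Q, φ q⁻¹ = -φ q := by
    intro q
    have h1 := M.add q q⁻¹
    rw [mul_inv_cancel, hφ1] at h1
    exact (neg_eq_of_add_eq_zero_right h1.symm).symm
  -- step 0
  have hN : ∀ q : Q, ztIrrN Q R q = 1 := by
    by_contra hne
    push Not at hne
    obtain ⟨q0, hq0⟩ := hne
    have hQ1 : ∀ g ∈ R, ∀ q ∈ (ztIrrN Q R).ker.map Q.subtype, g * q = q * g := by
      refine D.min _ ?_ ?_ ?_ ?_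
      · rintro _ ⟨q, _, rfl⟩
        exact q.2
      · intro he
        have h1 : (q0 : F) ∈ (ztIrrN Q R).ker.map Q.subtype := by
          rw [he]; exact q0.2
        obtain ⟨q, hq, hqq⟩ := h1
        have h2 : q = q0 := Subtype.ext hqq
        rw [h2] at hq
        exact hq0 hq
      · rintro g hg _ ⟨q, hq, rfl⟩
        refine ⟨MulAut.conjNormal g q, ?_, ?_⟩
        · show ztIrrN Q R (MulAut.conjNormal ((⟨g, hg⟩ : R) : F) q) = 1
          rw [ztIrrN_R]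
          exact hq
        · exact MulAut.conjNormal_apply g q
      · rintro _ ⟨q, hq, rfl⟩
        refine ⟨MulAut.conjNormal x q, ?_, ?_⟩
        · show ztIrrN Q R (MulAut.conjNormal x q) = 1
          rw [ztIrrN_x Q R x D.hxR, (show ztIrrN Q R q = 1 from hq), map_one]
        · exact MulAut.conjNormal_apply x q
    obtain ⟨g, hg, q, hq, hgq⟩ := D.ne
    refine hgq (ev_coprime hr hr2 Q R D.hQ D.hR hg ?_ ?_ q hq)
    · intro q hq
      exact (inferInstance : Q.Normal).conj_mem q hq g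
    · intro q hq
      refine hQ1 g hg _ ⟨(⟨q, hq⟩ : Q)⁻¹ * MulAut.conjNormal g ⟨q, hq⟩, ?_, ?_⟩
      · show ztIrrN Q R _ = 1
        rw [map_mul, map_inv]
        have h1 := ztIrrN_R Q R ⟨g, hg⟩ ⟨q, hq⟩
        rw [show (MulAut.conjNormal g ⟨q, hq⟩ : Q) = MulAut.conjNormal ((⟨g, hg⟩ : R) : F) ⟨q, hq⟩ from rfl,
          h1, inv_mul_cancel]
      · show ((⟨q, hq⟩ : Q)⁻¹ : F) * ((MulAut.conjNormal g ⟨q, hq⟩ : Q) : F) = _
        rw [MulAut.conjNormal_apply]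
  -- step 1
  have hodd : Nat.Coprime (Nat.card R) (2 ^ 3) := by
    have : Fact r.Prime := ⟨hr⟩
    obtain ⟨k, hk⟩ := (IsPGroup.iff_card (p := r) (G := R)).mp D.hR
    rw [hk]
    exact Nat.Coprime.pow _ _ ((Nat.coprime_primes hr Nat.prime_two).2 hr2)
  have h1 : ∀ q : Q, (∀ g ∈ R, g * (q : F) = q * g) → q ∈ commutator Q := by
    intro q hq
    have h2 : ∀ g : R, (MulAut.conjNormal (g : F) q : Q) = q := by
      intro g
      refine Subtype.ext ?_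
      rw [MulAut.conjNormal_apply, hq g g.2, mul_inv_cancel_right]
    have h3 := hN q
    rw [ztIrrN_apply, Finset.prod_congr rfl fun g _ => congrArg Abelianization.of (h2 g),
      Finset.prod_const, Finset.card_univ, ← map_pow] at h3
    have h4 : q ^ Fintype.card R ∈ commutator Q := by
      rw [← Abelianization.ker_of]
      exact h3
    have h5 : q ^ (2 ^ 3) = 1 := Subtype.ext (by simpa using D.hQ q q.2)
    have h6 : Nat.Coprime (Fintype.card R) (orderOf q) := by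
      rw [← Nat.card_eq_fintype_card]
      exact Nat.Coprime.coprime_dvd_right (orderOf_dvd_of_pow_eq_one h5) hodd
    obtain ⟨b, hb⟩ := exists_pow_eq_self_of_coprime h6
    rw [← hb]
    exact Subgroup.pow_mem _ h4 b
  have hmap : ∀ q : Q, q ∈ commutator Q → (q : F) ∈ ⁅Q, Q⁆ := by
    intro q hq
    rw [← Subgroup.map_subtype_commutator]
    exact ⟨q, hq, rfl⟩
  have h1' : ∀ q : Q, (∀ g ∈ R, g * (q : F) = q * g) → φ q = 0 := fun q hq => hcom q (h1 q hq)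
  -- step 2
  have hV2 : ∀ v : V, v + v = 0 := by
    intro v
    have h2 : ((1 : ZMod 2) + 1) • v = 0 := by
      rw [show (1 : ZMod 2) + 1 = 0 from rfl, zero_smul]
    rwa [add_smul, one_smul] at h2
  have hcen : ∀ q : Q, φ q = 0 → ∀ y : Q, q * y = y * q := fun q hq y =>
    Subtype.ext ((M.ker q hq).2 y y.2)
  have hsq : ∀ q : Q, q ∈ commutator Q → q ^ 2 = 1 := by
    let T : Subgroup Q :=
      { carrier := {q | φ q = 0 ∧ q ^ 2 = 1}
        one_mem' := ⟨hφ1, one_pow 2⟩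
        mul_mem' := by
          rintro a b ⟨ha, ha2⟩ ⟨hb, hb2⟩
          refine ⟨by rw [M.add, ha, hb, add_zero], ?_⟩
          rw [(show Commute a b from hcen a ha b).mul_pow, ha2, hb2, one_mul]
        inv_mem' := by
          rintro a ⟨ha, ha2⟩
          refine ⟨by rw [hφi, ha, neg_zero], ?_⟩
          rw [inv_pow, ha2, inv_one] }
    have hT : commutator Q ≤ T := by
      rw [_root_.commutator_def, Subgroup.commutator_le]
      intro a _ b _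
      have hc : φ ⁅a, b⁆ = 0 := hcom _ (Subgroup.commutator_mem_commutator
        (Subgroup.mem_top a) (Subgroup.mem_top b))
      have hcc := hcen _ hc
      refine ⟨hc, ?_⟩
      have ha2 : φ (a ^ 2) = 0 := by rw [pow_two, M.add, hV2]
      have hac := hcen _ ha2 b
      -- `a b a⁻¹ = c b`
      have e1 : a * b = ⁅a, b⁆ * b * a := by rw [commutatorElement_def]; group
      have e2 : a ^ 2 * b = ⁅a, b⁆ ^ 2 * b * a ^ 2 := by
        calc a ^ 2 * b = a * (a * b) := by rw [pow_two, mul_assoc]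
          _ = a * (⁅a, b⁆ * b * a) := by rw [← e1]
          _ = (a * ⁅a, b⁆) * b * a := by group
          _ = (⁅a, b⁆ * a) * b * a := by rw [hcc a]
          _ = ⁅a, b⁆ * (a * b) * a := by group
          _ = ⁅a, b⁆ * (⁅a, b⁆ * b * a) * a := by rw [← e1]
          _ = ⁅a, b⁆ ^ 2 * b * a ^ 2 := by rw [pow_two, pow_two]; group
      rw [hac, mul_assoc] at e2
      exact (right_eq_mul.mp e2)
    exact fun q hq => (hT hq).2
  have h2 : ∀ q : Q, φ q = 0 → (q : F) ∈ ⁅Q, Q⁆ ∧ (q : F) ^ 2 = 1 := by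
    intro q hq
    have h3 := h1 q (M.ker q hq).1
    exact ⟨hmap q h3, by simpa using congrArg Subtype.val (hsq q h3)⟩
  refine ⟨h1', h2, ?_, ?_⟩
  · by_contra hv
    push Not at hv
    obtain ⟨g, hg, q, hq, hgq⟩ := D.ne
    exact hgq ((M.ker ⟨q, hq⟩ (hv _)).1 g hg)
  · intro W hWR hWx
    let Q' : Subgroup F :=
      { carrier := {q | ∃ h : q ∈ Q, φ ⟨q, h⟩ ∈ W}
        one_mem' := ⟨Q.one_mem, by
          rw [show (⟨1, Q.one_mem⟩ : Q) = 1 from rfl, hφ1]; exact W.zero_mem⟩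
        mul_mem' := by
          rintro a b ⟨ha, ha'⟩ ⟨hb, hb'⟩
          refine ⟨Q.mul_mem ha hb, ?_⟩
          have h3 := M.add ⟨a, ha⟩ ⟨b, hb⟩
          rw [show (⟨a * b, Q.mul_mem ha hb⟩ : Q) = ⟨a, ha⟩ * ⟨b, hb⟩ from rfl, h3]
          exact W.add_mem ha' hb'
        inv_mem' := by
          rintro a ⟨ha, ha'⟩
          refine ⟨Q.inv_mem ha, ?_⟩
          rw [show (⟨a⁻¹, Q.inv_mem ha⟩ : Q) = (⟨a, ha⟩ : Q)⁻¹ from rfl, hφi]
          exact W.neg_mem ha' }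
    by_cases hQ' : Q' = Q
    · right
      rw [eq_top_iff]
      intro v _
      obtain ⟨q, rfl⟩ := M.surj v
      have h3 : (q : F) ∈ Q' := by rw [hQ']; exact q.2
      obtain ⟨h4, h5⟩ := h3
      exact h5
    · left
      rw [eq_bot_iff]
      intro v hv
      obtain ⟨q, rfl⟩ := M.surj v
      have h3 : ∀ g ∈ R, ∀ q ∈ Q', g * q = q * g := by
        refine D.min Q' ?_ hQ' ?_ ?_
        · rintro q ⟨h4, _⟩
          exact h4
        · rintro g hg q ⟨h4, h5⟩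
          refine ⟨(inferInstance : Q.Normal).conj_mem q h4 g, ?_⟩
          rw [M.eqv g ⟨q, h4⟩]
          exact hWR g hg _ h5
        · rintro q ⟨h4, h5⟩
          refine ⟨(inferInstance : Q.Normal).conj_mem q h4 x, ?_⟩
          rw [M.eqv x ⟨q, h4⟩]
          exact hWx _ h5
      rw [Submodule.mem_bot]
      exact h1' q fun g hg => h3 g hg q ⟨q.2, hv⟩

end Pool.Agent.Lib.MP_544bd1_al
end

section

/-!
Theorem Z3: the module of a minimal configuration.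
-/

namespace Pool.Agent.Lib.MP_544bd1_al

open Subgroup

/-- **The module** `V = Q ⧸ frattini Q` (compare `ev_module`). -/
theorem zs_module {F : Type} [Group F] [Finite F] {r a : ℕ} (hr : r.Prime) (hr2 : r ≠ 2)
    (Q R : Subgroup F) [hQn : Q.Normal] {u : F} (D : ZsCore r a Q R u) :
    ∃ (V : Type) (_ : AddCommGroup V) (_ : Module (ZMod 2) V) (_ : Finite V)
      (ρ : F →* Module.End (ZMod 2) V) (φ : Q → V), Function.Surjective φ ∧
      (∀ x y, φ (x * y) = φ x + φ y) ∧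
      (∀ (g : F) (x : Q), φ ⟨g * x * g⁻¹, hQn.conj_mem _ x.2 g⟩ = ρ g (φ x)) ∧
      (∀ g ∈ R, ρ g = 1 → ∀ q ∈ Q, g * q = q * g) ∧
      (∀ q : Q, φ q = 0 → (∀ g ∈ R, g * (q : F) = q * g) ∧ ∀ y ∈ Q, (q : F) * y = y * q) := by
  have hQ2 : IsPGroup 2 Q := fun q => ⟨a, Subtype.ext (by simpa using D.hQ q q.2)⟩
  obtain ⟨V, iA, iM, iF, ρ, φ, hs, ha, hρ, hρQ, htriv⟩ := tw_module Nat.prime_two Q hQ2
  have htr : ∀ g ∈ R, ρ g = 1 → ∀ q ∈ Q, g * q = q * g := by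
    intro g hg h1
    obtain ⟨k, hk⟩ := D.hR ⟨g, hg⟩
    have hgk : g ^ (r ^ k) = 1 := by
      have h1 := congrArg Subtype.val hk
      simpa using h1
    exact htriv r k g hr hr2 hgk h1
  refine ⟨V, iA, iM, iF, ρ, φ, hs, ha, hρ, htr, ?_⟩
  have hφ1 : φ 1 = 0 := by
    have h1 := ha 1 1
    rw [mul_one] at h1
    exact (left_eq_add.1 h1)
  have hφi : ∀ q : Q, φ q = 0 → φ q⁻¹ = 0 := by
    intro q hq
    have h1 := ha q q⁻¹
    rw [mul_inv_cancel, hφ1, hq, zero_add] at h1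
    exact h1.symm
  let Z : Subgroup F :=
    { carrier := {q | ∃ h : q ∈ Q, φ ⟨q, h⟩ = 0}
      mul_mem' := by
        rintro x y ⟨hx, hx0⟩ ⟨hy, hy0⟩
        refine ⟨Q.mul_mem hx hy, ?_⟩
        have h1 := ha ⟨x, hx⟩ ⟨y, hy⟩
        rw [hx0, hy0, add_zero] at h1
        exact h1
      one_mem' := ⟨Q.one_mem, hφ1⟩
      inv_mem' := by
        rintro x ⟨hx, hx0⟩
        exact ⟨Q.inv_mem hx, hφi ⟨x, hx⟩ hx0⟩ }
  have hZmem : ∀ q, q ∈ Z ↔ ∃ h : q ∈ Q, φ ⟨q, h⟩ = 0 := fun q => Iff.rfl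
  have hZQ : Z ≤ Q := fun q hq => hq.1
  have hZc : ∀ g : F, ∀ q ∈ Z, g * q * g⁻¹ ∈ Z := by
    rintro g q ⟨hq, hq0⟩
    refine ⟨hQn.conj_mem q hq g, ?_⟩
    have h1 := hρ g ⟨q, hq⟩
    rw [hq0, map_zero] at h1
    exact h1
  have hZne : Z ≠ Q := by
    intro he
    obtain ⟨g, hg, q, hq, hne⟩ := D.ne
    refine hne (htr g hg ?_ q hq)
    have h0 : ∀ v : V, v = 0 := by
      intro v
      obtain ⟨x, rfl⟩ := hs v
      have hx : (x : F) ∈ Z := by rw [he]; exact x.2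
      obtain ⟨h1, h2⟩ := hx
      exact h2
    refine LinearMap.ext fun v => ?_
    rw [h0 v, map_zero, map_zero]
  have hRZ : ∀ g ∈ R, ∀ q ∈ Z, g * q = q * g :=
    D.min Z hZQ hZne (fun g _ q hq => hZc g q hq) (fun q hq => hZc u q hq)
  let C : Subgroup F := Q ⊓ centralizer (Z : Set F)
  have hCmem : ∀ q, q ∈ C ↔ q ∈ Q ∧ ∀ z ∈ Z, z * q = q * z := by
    intro q
    exact Iff.rfl
  have hCQ : C ≤ Q := inf_le_left
  have hCc : ∀ g : F, ∀ q ∈ C, g * q * g⁻¹ ∈ C := by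
    intro g q hq
    rw [hCmem] at hq ⊢
    refine ⟨hQn.conj_mem q hq.1 g, fun z hz => ?_⟩
    have h1 := hq.2 _ (hZc g⁻¹ z hz)
    rw [inv_inv] at h1
    calc z * (g * q * g⁻¹) = g * ((g⁻¹ * z * g) * q) * g⁻¹ := by group
      _ = g * (q * (g⁻¹ * z * g)) * g⁻¹ := by rw [h1]
      _ = g * q * g⁻¹ * z := by group
  have hCeq : C = Q := by
    by_contra hne
    have hRC := D.min C hCQ hne (fun g _ q hq => hCc g q hq) (fun q hq => hCc u q hq)
    obtain ⟨g, hg, q, hq, hne'⟩ := D.ne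
    refine hne' (ev_coprime hr hr2 Q R D.hQ D.hR hg (fun q hq => hQn.conj_mem q hq g) ?_ q hq)
    intro q hq
    refine hRC g hg _ ?_
    rw [hCmem]
    refine ⟨Q.mul_mem (Q.inv_mem hq) (hQn.conj_mem q hq g), fun z hz => ?_⟩
    have e1 : g * z = z * g := hRZ g hg z hz
    have e2 : g * (q * z * q⁻¹) = q * z * q⁻¹ * g := hRZ g hg _ (hZc q z hz)
    have e3 : g⁻¹ * z = z * g⁻¹ := by
      calc g⁻¹ * z = g⁻¹ * (z * g) * g⁻¹ := by group
        _ = g⁻¹ * (g * z) * g⁻¹ := by rw [e1]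
        _ = z * g⁻¹ := by group
    symm
    calc q⁻¹ * (g * q * g⁻¹) * z = q⁻¹ * g * q * (g⁻¹ * z) := by group
      _ = q⁻¹ * g * q * (z * g⁻¹) := by rw [e3]
      _ = q⁻¹ * (g * (q * z * q⁻¹)) * q * g⁻¹ := by group
      _ = q⁻¹ * (q * z * q⁻¹ * g) * q * g⁻¹ := by rw [e2]
      _ = z * (q⁻¹ * (g * q * g⁻¹)) := by group
  intro q hq
  have hqZ : (q : F) ∈ Z := ⟨q.2, hq⟩
  refine ⟨fun g hg => hRZ g hg q hqZ, fun y hy => ?_⟩
  have hyC : y ∈ C := by rw [hCeq]; exact hy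
  exact ((hCmem y).1 hyC).2 q hqZ

end Pool.Agent.Lib.MP_544bd1_al
end

section

/-!
Theorem Z (paper 287), 4.4: the minimal 2-group and its module. `S` is the set of the acting
elements.
-/

namespace Pool.Agent.Lib.MP_544bd1_al

open Subgroup
open scoped commutatorElement

/-- the minimal configuration: `R` an `r`-group normalized by the elements of `S`, acting
nontrivially on the 2-group `Q`, and trivially on the proper `R`- and `S`-invariant subgroups of `Q` -/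
structure YCore (r a : ℕ) {F : Type} [Group F] (Q R : Subgroup F) (S : Set F) : Prop where
  hQ : ∀ q ∈ Q, q ^ (2 ^ a) = 1
  hR : IsPGroup r R
  hxR : ∀ x ∈ S, ∀ g ∈ R, x * g * x⁻¹ ∈ R
  ne : ∃ g ∈ R, ∃ q ∈ Q, g * q ≠ q * g
  min : ∀ Q' : Subgroup F, Q' ≤ Q → Q' ≠ Q → (∀ g ∈ R, ∀ q ∈ Q', g * q * g⁻¹ ∈ Q') →
    (∀ x ∈ S, ∀ q ∈ Q', x * q * x⁻¹ ∈ Q') → ∀ g ∈ R, ∀ q ∈ Q', g * q = q * g

/-- the data of 4.4 in a group `F` in which `Q` is normal -/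
structure YM (m a k : ℕ) {F : Type} [Group F] (Q R : Subgroup F) (g τ e e' c : F)
    (γ : ℕ → F) : Prop where
  core : YCore 3 a Q R {x | x = g ∨ x = τ ∨ ∃ i, i < 3 ^ k ∧ x = γ i}
  hR3 : IsPGroup 3 (R ⊔ zpowers τ : Subgroup F)
  hg : g ^ (2 ^ a) = 1
  hgτ : g * τ = τ * g
  κR : ∀ r ∈ R, g ^ (2 ^ (a - 1)) * r = r * g ^ (2 ^ (a - 1))
  τR : ∀ r ∈ R, τ ^ (3 ^ k) * r = r * τ ^ (3 ^ k)
  τQ : ∀ x ∈ Q, τ ^ (3 ^ k) * x = x * τ ^ (3 ^ k)
  he : e ∈ R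
  he3 : e ^ 3 = 1
  he' : e' = g ^ (2 ^ (a - 2)) * e * (g ^ (2 ^ (a - 2)))⁻¹
  hc : c = e * e' * e⁻¹ * e'⁻¹
  cl : ∀ x ∈ R, ∀ y ∈ R, ∀ w ∈ R, x * y * x⁻¹ * y⁻¹ * w = w * (x * y * x⁻¹ * y⁻¹)
  com : ∀ i l, i < 3 ^ k → l < 2 ^ (a - 1) → ¬ (i = 0 ∧ (l = 0 ∨ l = 2 ^ (a - 2))) →
    e * yE g τ e i l = yE g τ e i l * e
  gen : R ≤ closure {x | ∃ i l, i < 3 ^ k ∧ x = yE g τ e i l}
  hγ : ∀ i < 3 ^ k, γ i ^ (2 ^ a) = 1
  γE : ∀ i < 3 ^ k, ∀ l, γ i ^ (2 ^ (a - 1)) * yE g τ e i l * (γ i ^ (2 ^ (a - 1)))⁻¹ =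
    (yE g τ e i l)⁻¹
  γB : ∀ i < 3 ^ k, ∀ l, γ i * yE g τ e i l * (γ i)⁻¹ ∈ closure {x | ∃ l, x = yE g τ e i l}
  γc : ∀ i < 3 ^ k, ∀ x ∈ closure {x | ∃ l, x = yE g τ e i l},
    ∀ y ∈ closure {x | ∃ l, x = yE g τ e i l},
    γ i ^ (2 ^ (a - 1)) * (x * y * x⁻¹ * y⁻¹) = x * y * x⁻¹ * y⁻¹ * γ i ^ (2 ^ (a - 1))
  γ0 : ∀ i, 0 < i → i < 3 ^ k → γ i ^ (2 ^ (a - 2)) * c * (γ i ^ (2 ^ (a - 2)))⁻¹ = c⁻¹

/-- **The module** `V = Q ⧸ frattini Q` (compare `ev_module`). -/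
theorem ym_module {F : Type} [Group F] [Finite F] {r a : ℕ} (hr : r.Prime) (hr2 : r ≠ 2)
    (Q R : Subgroup F) [hQn : Q.Normal] {S : Set F} (D : YCore r a Q R S) :
    ∃ (V : Type) (_ : AddCommGroup V) (_ : Module (ZMod 2) V) (_ : Finite V)
      (ρ : F →* Module.End (ZMod 2) V) (φ : Q → V), ZMd Q R ρ φ := by
  have hQ2 : IsPGroup 2 Q := fun q => ⟨a, Subtype.ext (by simpa using D.hQ q q.2)⟩
  obtain ⟨V, iA, iM, iF, ρ, φ, hs, ha, hρ, hρQ, htriv⟩ := tw_module Nat.prime_two Q hQ2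
  have htr : ∀ g ∈ R, ρ g = 1 → ∀ q ∈ Q, g * q = q * g := by
    intro g hg h1
    obtain ⟨k, hk⟩ := D.hR ⟨g, hg⟩
    have hgk : g ^ (r ^ k) = 1 := by
      have h1 := congrArg Subtype.val hk
      simpa using h1
    exact htriv r k g hr hr2 hgk h1
  refine ⟨V, iA, iM, iF, ρ, φ, ⟨hs, ha, hρ, htr, ?_⟩⟩
  have hφ1 : φ 1 = 0 := by
    have h1 := ha 1 1
    rw [mul_one] at h1
    exact (left_eq_add.1 h1)
  have hφi : ∀ q : Q, φ q = 0 → φ q⁻¹ = 0 := by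
    intro q hq
    have h1 := ha q q⁻¹
    rw [mul_inv_cancel, hφ1, hq, zero_add] at h1
    exact h1.symm
  let Z : Subgroup F :=
    { carrier := {q | ∃ h : q ∈ Q, φ ⟨q, h⟩ = 0}
      mul_mem' := by
        rintro x y ⟨hx, hx0⟩ ⟨hy, hy0⟩
        refine ⟨Q.mul_mem hx hy, ?_⟩
        have h1 := ha ⟨x, hx⟩ ⟨y, hy⟩
        rw [hx0, hy0, add_zero] at h1
        exact h1
      one_mem' := ⟨Q.one_mem, hφ1⟩
      inv_mem' := by
        rintro x ⟨hx, hx0⟩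
        exact ⟨Q.inv_mem hx, hφi ⟨x, hx⟩ hx0⟩ }
  have hZmem : ∀ q, q ∈ Z ↔ ∃ h : q ∈ Q, φ ⟨q, h⟩ = 0 := fun q => Iff.rfl
  have hZQ : Z ≤ Q := fun q hq => hq.1
  have hZc : ∀ g : F, ∀ q ∈ Z, g * q * g⁻¹ ∈ Z := by
    rintro g q ⟨hq, hq0⟩
    refine ⟨hQn.conj_mem q hq g, ?_⟩
    have h1 := hρ g ⟨q, hq⟩
    rw [hq0, map_zero] at h1
    exact h1
  have hZne : Z ≠ Q := by
    intro he
    obtain ⟨g, hg, q, hq, hne⟩ := D.ne
    refine hne (htr g hg ?_ q hq)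
    have h0 : ∀ v : V, v = 0 := by
      intro v
      obtain ⟨x, rfl⟩ := hs v
      have hx : (x : F) ∈ Z := by rw [he]; exact x.2
      obtain ⟨h1, h2⟩ := hx
      exact h2
    refine LinearMap.ext fun v => ?_
    rw [h0 v, map_zero, map_zero]
  have hRZ : ∀ g ∈ R, ∀ q ∈ Z, g * q = q * g :=
    D.min Z hZQ hZne (fun g _ q hq => hZc g q hq) (fun u _ q hq => hZc u q hq)
  let C : Subgroup F := Q ⊓ centralizer (Z : Set F)
  have hCmem : ∀ q, q ∈ C ↔ q ∈ Q ∧ ∀ z ∈ Z, z * q = q * z := by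
    intro q
    exact Iff.rfl
  have hCQ : C ≤ Q := inf_le_left
  have hCc : ∀ g : F, ∀ q ∈ C, g * q * g⁻¹ ∈ C := by
    intro g q hq
    rw [hCmem] at hq ⊢
    refine ⟨hQn.conj_mem q hq.1 g, fun z hz => ?_⟩
    have h1 := hq.2 _ (hZc g⁻¹ z hz)
    rw [inv_inv] at h1
    calc z * (g * q * g⁻¹) = g * ((g⁻¹ * z * g) * q) * g⁻¹ := by group
      _ = g * (q * (g⁻¹ * z * g)) * g⁻¹ := by rw [h1]
      _ = g * q * g⁻¹ * z := by group
  have hCeq : C = Q := by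
    by_contra hne
    have hRC := D.min C hCQ hne (fun g _ q hq => hCc g q hq) (fun u _ q hq => hCc u q hq)
    obtain ⟨g, hg, q, hq, hne'⟩ := D.ne
    refine hne' (ev_coprime hr hr2 Q R D.hQ D.hR hg (fun q hq => hQn.conj_mem q hq g) ?_ q hq)
    intro q hq
    refine hRC g hg _ ?_
    rw [hCmem]
    refine ⟨Q.mul_mem (Q.inv_mem hq) (hQn.conj_mem q hq g), fun z hz => ?_⟩
    have e1 : g * z = z * g := hRZ g hg z hz
    have e2 : g * (q * z * q⁻¹) = q * z * q⁻¹ * g := hRZ g hg _ (hZc q z hz)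
    have e3 : g⁻¹ * z = z * g⁻¹ := by
      calc g⁻¹ * z = g⁻¹ * (z * g) * g⁻¹ := by group
        _ = g⁻¹ * (g * z) * g⁻¹ := by rw [e1]
        _ = z * g⁻¹ := by group
    symm
    calc q⁻¹ * (g * q * g⁻¹) * z = q⁻¹ * g * q * (g⁻¹ * z) := by group
      _ = q⁻¹ * g * q * (z * g⁻¹) := by rw [e3]
      _ = q⁻¹ * (g * (q * z * q⁻¹)) * q * g⁻¹ := by group
      _ = q⁻¹ * (q * z * q⁻¹ * g) * q * g⁻¹ := by rw [e2]
      _ = z * (q⁻¹ * (g * q * g⁻¹)) := by group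
  intro q hq
  have hqZ : (q : F) ∈ Z := ⟨q.2, hq⟩
  refine ⟨fun g hg => hRZ g hg q hqZ, fun y hy => ?_⟩
  have hyC : y ∈ C := by rw [hCeq]; exact hy
  exact ((hCmem y).1 hyC).2 q hqZ

/-- the norm over `R`, with values in the abelianization of `Q` -/
private noncomputable def ymIrrN {F : Type} [Group F] (Q R : Subgroup F) [Q.Normal] [Fintype R] :
    Q →* Abelianization Q where
  toFun q := ∏ g : R, Abelianization.of (MulAut.conjNormal (g : F) q)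
  map_one' := by simp
  map_mul' a b := by simp only [map_mul, Finset.prod_mul_distrib]

private theorem ymIrrN_apply {F : Type} [Group F] (Q R : Subgroup F) [Q.Normal] [Fintype R] (q : Q) :
    ymIrrN Q R q = ∏ g : R, Abelianization.of (MulAut.conjNormal (g : F) q) := rfl

private theorem ymIrrN_R {F : Type} [Group F] (Q R : Subgroup F) [Q.Normal] [Fintype R] (h : R)
    (q : Q) : ymIrrN Q R (MulAut.conjNormal (h : F) q) = ymIrrN Q R q := by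
  rw [ymIrrN_apply, ymIrrN_apply]
  refine Fintype.prod_equiv (Equiv.mulRight h) _ _ fun g => ?_
  congr 1
  show MulAut.conjNormal (g : F) (MulAut.conjNormal (h : F) q) = MulAut.conjNormal ((g * h : R) : F) q
  rw [Subgroup.coe_mul, map_mul, MulAut.mul_apply]

private theorem ymIrrN_x {F : Type} [Group F] (Q R : Subgroup F) [Q.Normal] [Fintype R] (x : F)
    (hx : ∀ g ∈ R, x * g * x⁻¹ ∈ R) (q : Q) :
    ymIrrN Q R (MulAut.conjNormal x q) =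
      Abelianization.map (MulAut.conjNormal x : MulAut Q).toMonoidHom (ymIrrN Q R q) := by
  let σ : R → R := fun g => ⟨x * g * x⁻¹, hx g g.2⟩
  have hσ : Function.Injective σ := by
    intro a b hab
    have h1 : x * (a : F) * x⁻¹ = x * (b : F) * x⁻¹ := congrArg Subtype.val hab
    exact Subtype.ext (mul_left_cancel (mul_right_cancel h1))
  have hσb : Function.Bijective σ := Finite.injective_iff_bijective.mp hσ
  rw [ymIrrN_apply, ymIrrN_apply, map_prod, ← (Equiv.ofBijective σ hσb).prod_comp]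
  refine Finset.prod_congr rfl fun g _ => ?_
  rw [Abelianization.map_of]
  congr 1
  show MulAut.conjNormal (x * (g : F) * x⁻¹) (MulAut.conjNormal x q) =
    MulAut.conjNormal x (MulAut.conjNormal (g : F) q)
  rw [← MulAut.mul_apply, ← MulAut.mul_apply, ← map_mul, ← map_mul]
  congr 2
  group

/-- **Irreducibility**, `C_Q(R) = ker φ = ⁅Q, Q⁆`, of exponent 2.

Proof. `φ` vanishes on `⁅Q, Q⁆` (`φ` is additive, with values in a commutative group; closure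
induction, or `⁅Q, Q⁆ ≤` the subgroup `{q ∈ Q | φ q = 0}` of `F`).
(0) Let `Ab = Q ⧸ commutator Q` (or work with `Abelianization Q`), a commutative group, and for `q ∈ Q` let
`N q = ∏ g : R, [g * q * g⁻¹] ∈ Ab`; `N` is a homomorphism. `Q₁ = {q ∈ Q | N q = 1}` (as a subgroup of
`F`) is invariant under `R` (reindexing) and under `x` (`x` permutes `R` by conjugation and
normalizes `Q`; reindex, `Finite`). Suppose `Q₁ ≠ Q`; by `D.min` `R` centralizes `Q₁`. For `g ∈ R`,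
`q ∈ Q`: `q⁻¹ * (g * q * g⁻¹) ∈ Q₁` (`N (g * q * g⁻¹) = N q`), so `g` commutes with it, and by
`ev_coprime` (`a := 3`) `g` centralizes `Q`: contradiction to `D.ne`. So `Q₁ = Q`.
(1) If `q ∈ Q` is centralized by `R` then `1 = N q = [q] ^ (Nat.card R)`, so `q ^ (Nat.card R) ∈ ⁅Q, Q⁆`;
`Nat.card R` is a power of `r`, so odd, and `q ^ (2 ^ a) = 1`: `q` is a power of `q ^ (Nat.card R)`,
`q ∈ ⁅Q, Q⁆` and `φ q = 0`.
(2) If `φ q = 0` then `R` centralizes `q` (`M.ker`), so `q ∈ ⁅Q, Q⁆`. `q ^ 2 = 1`: for `a, b ∈ Q`,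
`c = a * b * a⁻¹ * b⁻¹` is central in `Q` (`φ c = 0`, `M.ker`) and `a ^ 2` is central in `Q`
(`φ (a ^ 2) = φ a + φ a = 0`), so `c ^ 2 = a ^ 2 * b * (a ^ 2)⁻¹ * b⁻¹ = 1`; `⁅Q, Q⁆` is generated by
commuting involutions (closure induction).
(3) There is `v ≠ 0`: otherwise `φ = 0` and `R` centralizes `Q` (`M.ker`). Let `W` be invariant,
`Q' = {q ∈ Q | φ q ∈ W}`; if `Q' = Q` then `W = ⊤` (`M.surj`); otherwise `R` centralizes `Q'` by `D.min`,
so `φ = 0` on `Q'` by (1), and `W = ⊥`. -/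
theorem ym_irr {F : Type} [Group F] [Finite F] {r a : ℕ} (hr : r.Prime) (hr2 : r ≠ 2)
    {Q R : Subgroup F} [Q.Normal] {S : Set F} (D : YCore r a Q R S) {V : Type} [AddCommGroup V]
    [Module (ZMod 2) V] {τ : F →* Module.End (ZMod 2) V} {φ : Q → V} (M : ZMd Q R τ φ) :
    (∀ q : Q, (∀ g ∈ R, g * (q : F) = q * g) → φ q = 0) ∧
      (∀ q : Q, φ q = 0 → (q : F) ∈ ⁅Q, Q⁆ ∧ (q : F) ^ 2 = 1) ∧ (∃ v : V, v ≠ 0) ∧
      ∀ W : Submodule (ZMod 2) V, (∀ g ∈ R, ∀ v ∈ W, τ g v ∈ W) → (∀ x ∈ S, ∀ v ∈ W, τ x v ∈ W) →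
        W = ⊥ ∨ W = ⊤ := by
  classical
  have hFR : Fintype R := Fintype.ofFinite R
  -- `φ` as a homomorphism
  have hφ1 : φ 1 = 0 := by
    have h1 := M.add 1 1
    rw [mul_one] at h1
    exact (left_eq_add.1 h1)
  let Φ : Q →* Multiplicative V :=
    { toFun := fun q => Multiplicative.ofAdd (φ q)
      map_one' := by rw [hφ1]; rfl
      map_mul' := fun a b => by rw [M.add]; rfl }
  have hΦ : ∀ q, Φ q = 1 ↔ φ q = 0 := fun q => Iff.rfl
  have hcom : ∀ q : Q, q ∈ commutator Q → φ q = 0 := fun q hq =>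
    (hΦ q).mp (Abelianization.commutator_subset_ker Φ hq)
  have hφi : ∀ q : Q, φ q⁻¹ = -φ q := by
    intro q
    have h1 := M.add q q⁻¹
    rw [mul_inv_cancel, hφ1] at h1
    exact (neg_eq_of_add_eq_zero_right h1.symm).symm
  -- step 0
  have hN : ∀ q : Q, ymIrrN Q R q = 1 := by
    by_contra hne
    push Not at hne
    obtain ⟨q0, hq0⟩ := hne
    have hQ1 : ∀ g ∈ R, ∀ q ∈ (ymIrrN Q R).ker.map Q.subtype, g * q = q * g := by
      refine D.min _ ?_ ?_ ?_ ?_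
      · rintro _ ⟨q, _, rfl⟩
        exact q.2
      · intro he
        have h1 : (q0 : F) ∈ (ymIrrN Q R).ker.map Q.subtype := by
          rw [he]; exact q0.2
        obtain ⟨q, hq, hqq⟩ := h1
        have h2 : q = q0 := Subtype.ext hqq
        rw [h2] at hq
        exact hq0 hq
      · rintro g hg _ ⟨q, hq, rfl⟩
        refine ⟨MulAut.conjNormal g q, ?_, ?_⟩
        · show ymIrrN Q R (MulAut.conjNormal ((⟨g, hg⟩ : R) : F) q) = 1
          rw [ymIrrN_R]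
          exact hq
        · exact MulAut.conjNormal_apply g q
      · rintro x hx _ ⟨q, hq, rfl⟩
        refine ⟨MulAut.conjNormal x q, ?_, ?_⟩
        · show ymIrrN Q R (MulAut.conjNormal x q) = 1
          rw [ymIrrN_x Q R x (D.hxR x hx), (show ymIrrN Q R q = 1 from hq), map_one]
        · exact MulAut.conjNormal_apply x q
    obtain ⟨g, hg, q, hq, hgq⟩ := D.ne
    refine hgq (ev_coprime hr hr2 Q R D.hQ D.hR hg ?_ ?_ q hq)
    · intro q hq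
      exact (inferInstance : Q.Normal).conj_mem q hq g
    · intro q hq
      refine hQ1 g hg _ ⟨(⟨q, hq⟩ : Q)⁻¹ * MulAut.conjNormal g ⟨q, hq⟩, ?_, ?_⟩
      · show ymIrrN Q R _ = 1
        rw [map_mul, map_inv]
        have h1 := ymIrrN_R Q R ⟨g, hg⟩ ⟨q, hq⟩
        rw [show (MulAut.conjNormal g ⟨q, hq⟩ : Q) = MulAut.conjNormal ((⟨g, hg⟩ : R) : F) ⟨q, hq⟩ from rfl,
          h1, inv_mul_cancel]
      · show ((⟨q, hq⟩ : Q)⁻¹ : F) * ((MulAut.conjNormal g ⟨q, hq⟩ : Q) : F) = _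
        rw [MulAut.conjNormal_apply]
  -- step 1
  have hodd : Nat.Coprime (Nat.card R) (2 ^ a) := by
    have : Fact r.Prime := ⟨hr⟩
    obtain ⟨k, hk⟩ := (IsPGroup.iff_card (p := r) (G := R)).mp D.hR
    rw [hk]
    exact Nat.Coprime.pow _ _ ((Nat.coprime_primes hr Nat.prime_two).2 hr2)
  have h1 : ∀ q : Q, (∀ g ∈ R, g * (q : F) = q * g) → q ∈ commutator Q := by
    intro q hq
    have h2 : ∀ g : R, (MulAut.conjNormal (g : F) q : Q) = q := by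
      intro g
      refine Subtype.ext ?_
      rw [MulAut.conjNormal_apply, hq g g.2, mul_inv_cancel_right]
    have h3 := hN q
    rw [ymIrrN_apply, Finset.prod_congr rfl fun g _ => congrArg Abelianization.of (h2 g),
      Finset.prod_const, Finset.card_univ, ← map_pow] at h3
    have h4 : q ^ Fintype.card R ∈ commutator Q := by
      rw [← Abelianization.ker_of]
      exact h3
    have h5 : q ^ (2 ^ a) = 1 := Subtype.ext (by simpa using D.hQ q q.2)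
    have h6 : Nat.Coprime (Fintype.card R) (orderOf q) := by
      rw [← Nat.card_eq_fintype_card]
      exact Nat.Coprime.coprime_dvd_right (orderOf_dvd_of_pow_eq_one h5) hodd
    obtain ⟨b, hb⟩ := exists_pow_eq_self_of_coprime h6
    rw [← hb]
    exact Subgroup.pow_mem _ h4 b
  have hmap : ∀ q : Q, q ∈ commutator Q → (q : F) ∈ ⁅Q, Q⁆ := by
    intro q hq
    rw [← Subgroup.map_subtype_commutator]
    exact ⟨q, hq, rfl⟩
  have h1' : ∀ q : Q, (∀ g ∈ R, g * (q : F) = q * g) → φ q = 0 := fun q hq => hcom q (h1 q hq)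
  -- step 2
  have hV2 : ∀ v : V, v + v = 0 := by
    intro v
    have h2 : ((1 : ZMod 2) + 1) • v = 0 := by
      rw [show (1 : ZMod 2) + 1 = 0 from rfl, zero_smul]
    rwa [add_smul, one_smul] at h2
  have hcen : ∀ q : Q, φ q = 0 → ∀ y : Q, q * y = y * q := fun q hq y =>
    Subtype.ext ((M.ker q hq).2 y y.2)
  have hsq : ∀ q : Q, q ∈ commutator Q → q ^ 2 = 1 := by
    let T : Subgroup Q :=
      { carrier := {q | φ q = 0 ∧ q ^ 2 = 1}
        one_mem' := ⟨hφ1, one_pow 2⟩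
        mul_mem' := by
          rintro a b ⟨ha, ha2⟩ ⟨hb, hb2⟩
          refine ⟨by rw [M.add, ha, hb, add_zero], ?_⟩
          rw [(show Commute a b from hcen a ha b).mul_pow, ha2, hb2, one_mul]
        inv_mem' := by
          rintro a ⟨ha, ha2⟩
          refine ⟨by rw [hφi, ha, neg_zero], ?_⟩
          rw [inv_pow, ha2, inv_one] }
    have hT : commutator Q ≤ T := by
      rw [_root_.commutator_def, Subgroup.commutator_le]
      intro a _ b _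
      have hc : φ ⁅a, b⁆ = 0 := hcom _ (Subgroup.commutator_mem_commutator
        (Subgroup.mem_top a) (Subgroup.mem_top b))
      have hcc := hcen _ hc
      refine ⟨hc, ?_⟩
      have ha2 : φ (a ^ 2) = 0 := by rw [pow_two, M.add, hV2]
      have hac := hcen _ ha2 b
      -- `a b a⁻¹ = c b`
      have e1 : a * b = ⁅a, b⁆ * b * a := by rw [commutatorElement_def]; group
      have e2 : a ^ 2 * b = ⁅a, b⁆ ^ 2 * b * a ^ 2 := by
        calc a ^ 2 * b = a * (a * b) := by rw [pow_two, mul_assoc]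
          _ = a * (⁅a, b⁆ * b * a) := by rw [← e1]
          _ = (a * ⁅a, b⁆) * b * a := by group
          _ = (⁅a, b⁆ * a) * b * a := by rw [hcc a]
          _ = ⁅a, b⁆ * (a * b) * a := by group
          _ = ⁅a, b⁆ * (⁅a, b⁆ * b * a) * a := by rw [← e1]
          _ = ⁅a, b⁆ ^ 2 * b * a ^ 2 := by rw [pow_two, pow_two]; group
      rw [hac, mul_assoc] at e2
      exact (right_eq_mul.mp e2)
    exact fun q hq => (hT hq).2
  have h2 : ∀ q : Q, φ q = 0 → (q : F) ∈ ⁅Q, Q⁆ ∧ (q : F) ^ 2 = 1 := by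
    intro q hq
    have h3 := h1 q (M.ker q hq).1
    exact ⟨hmap q h3, by simpa using congrArg Subtype.val (hsq q h3)⟩
  refine ⟨h1', h2, ?_, ?_⟩
  · by_contra hv
    push Not at hv
    obtain ⟨g, hg, q, hq, hgq⟩ := D.ne
    exact hgq ((M.ker ⟨q, hq⟩ (hv _)).1 g hg)
  · intro W hWR hWx
    let Q' : Subgroup F :=
      { carrier := {q | ∃ h : q ∈ Q, φ ⟨q, h⟩ ∈ W}
        one_mem' := ⟨Q.one_mem, by
          rw [show (⟨1, Q.one_mem⟩ : Q) = 1 from rfl, hφ1]; exact W.zero_mem⟩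
        mul_mem' := by
          rintro a b ⟨ha, ha'⟩ ⟨hb, hb'⟩
          refine ⟨Q.mul_mem ha hb, ?_⟩
          have h3 := M.add ⟨a, ha⟩ ⟨b, hb⟩
          rw [show (⟨a * b, Q.mul_mem ha hb⟩ : Q) = ⟨a, ha⟩ * ⟨b, hb⟩ from rfl, h3]
          exact W.add_mem ha' hb'
        inv_mem' := by
          rintro a ⟨ha, ha'⟩
          refine ⟨Q.inv_mem ha, ?_⟩
          rw [show (⟨a⁻¹, Q.inv_mem ha⟩ : Q) = (⟨a, ha⟩ : Q)⁻¹ from rfl, hφi]
          exact W.neg_mem ha' }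
    by_cases hQ' : Q' = Q
    · right
      rw [eq_top_iff]
      intro v _
      obtain ⟨q, rfl⟩ := M.surj v
      have h3 : (q : F) ∈ Q' := by rw [hQ']; exact q.2
      obtain ⟨h4, h5⟩ := h3
      exact h5
    · left
      rw [eq_bot_iff]
      intro v hv
      obtain ⟨q, rfl⟩ := M.surj v
      have h3 : ∀ g ∈ R, ∀ q ∈ Q', g * q = q * g := by
        refine D.min Q' ?_ hQ' ?_ ?_
        · rintro q ⟨h4, _⟩
          exact h4
        · rintro g hg q ⟨h4, h5⟩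
          refine ⟨(inferInstance : Q.Normal).conj_mem q h4 g, ?_⟩
          rw [M.eqv g ⟨q, h4⟩]
          exact hWR g hg _ h5
        · rintro x hx q ⟨h4, h5⟩
          refine ⟨(inferInstance : Q.Normal).conj_mem q h4 x, ?_⟩
          rw [M.eqv x ⟨q, h4⟩]
          exact hWx x hx _ h5
      rw [Submodule.mem_bot]
      exact h1' q fun g hg => h3 g hg q ⟨q.2, hv⟩

end Pool.Agent.Lib.MP_544bd1_al
end

section

/-!
General even exponents, the base: first properties.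
-/

namespace Pool.Agent.Lib.MP_544bd1_al

open Subgroup

private theorem zsBn_pow {F : Type} [Group F] {r : ℕ} {R : Subgroup F} (hR : IsPGroup r R) {s : F}
    (hs : s ∈ R) : ∃ k : ℕ, s ^ (r ^ k) = 1 := by
  obtain ⟨k, hk⟩ := hR ⟨s, hs⟩
  exact ⟨k, by simpa using congrArg Subtype.val hk⟩

private theorem zsBn_conj4 {F : Type} [Group F] {R : Subgroup F} {g : F}
    (h : ∀ y ∈ R, g * y * g⁻¹ ∈ R) (n : ℕ) {y : F} (hy : y ∈ R) : g ^ n * y * (g ^ n)⁻¹ ∈ R := by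
  induction n with
  | zero => simpa using hy
  | succ n ih =>
    have h1 := h _ ih
    have h2 : g ^ (n + 1) * y * (g ^ (n + 1))⁻¹ = g * (g ^ n * y * (g ^ n)⁻¹) * g⁻¹ := by
      rw [pow_succ']
      group
    rw [h2]
    exact h1

/-- Proof. `(q * g) ^ (2 ^ a) ∈ Q` (modulo `Q` it is `g ^ (2 ^ a) = 1`), so `((q * g) ^ (2 ^ a)) ^ 8 = 1` by `D.core.hQ`, and
`tw_PP` (as in `ev_data`, EvN.lean). -/
theorem zsb_pow {m a : ℕ} (hm : Odd m) {F : Type} [Group F] [Finite F]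
    (hexp : ∀ x : F, x ^ (m * 2 ^ a) = 1) {r : ℕ} {Q R : Subgroup F} [Q.Normal] {g : F}
    (D : ZsMin r a Q R g) {q : F} (hq : q ∈ Q) : (q * g) ^ (2 ^ a) = 1 := by
  have hcop : Nat.Coprime m (2 ^ a) := Nat.Coprime.pow_right a (Nat.coprime_two_right.2 hm)
  have hg : g ^ (2 ^ a) = 1 := D.hg
  have h1 : (q * g) ^ (2 ^ a) = 1 := by
    apply tw_PP hcop hexp
    apply D.core.hQ
    rw [← QuotientGroup.eq_one_iff, QuotientGroup.mk_pow, QuotientGroup.mk_mul,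
      (QuotientGroup.eq_one_iff q).2 hq, one_mul, ← QuotientGroup.mk_pow, hg, QuotientGroup.mk_one]
  exact h1

/-- Proof. `tw_norm_zero` (TwH0.lean) with `zsb_pow`; `φ` is surjective (as in `ev_data`, EvN.lean). -/
theorem zsb_norm {m a : ℕ} (hm : Odd m) {F : Type} [Group F] [Finite F]
    (hexp : ∀ x : F, x ^ (m * 2 ^ a) = 1) {r : ℕ} {Q R : Subgroup F} [Q.Normal] {g : F}
    (D : ZsMin r a Q R g) {V : Type} [AddCommGroup V] [Module (ZMod 2) V]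
    {τ : F →* Module.End (ZMod 2) V} {φ : Q → V} (M : ZMd Q R τ φ) :
    ∑ i ∈ Finset.range (2 ^ a), (τ g) ^ i = 0 := by
  apply LinearMap.ext
  intro v
  obtain ⟨y, rfl⟩ := M.surj v
  rw [LinearMap.zero_apply]
  exact tw_norm_zero Q τ φ M.add M.eqv D.hg y (zsb_pow hm hexp D y.2)

/-- Proof. Otherwise every `s ∈ R` inverted by `g ^ (2 ^ (a - 1))` satisfies `τ s = τ (g ^ (2 ^ (a - 1)) * s * (g ^ (2 ^ (a - 1)))⁻¹) = τ s⁻¹`,
`τ (s ^ 2) = 1` and `τ s = 1` (`s` is a power of `s ^ 2`), so by `D.gen` (for `S` the kernel of `τ`,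
`{c | τ c = 1}`) `τ` is trivial on `R`, and `M.faith` contradicts `D.core.ne`. -/
theorem zsb_x1 {F : Type} [Group F] {r a : ℕ} (hr : r.Prime) (hr2 : r ≠ 2) {Q R : Subgroup F}
    [Q.Normal] {g : F} (D : ZsMin r a Q R g) {V : Type} [AddCommGroup V] [Module (ZMod 2) V]
    {τ : F →* Module.End (ZMod 2) V} {φ : Q → V} (M : ZMd Q R τ φ) : τ (g ^ (2 ^ (a - 1))) ≠ 1 := by
  intro h1
  have h1' : τ (g ^ (2 ^ (a - 1)))⁻¹ = 1 := by
    have h2 : τ (g ^ (2 ^ (a - 1))) * τ (g ^ (2 ^ (a - 1)))⁻¹ = 1 := by rw [← map_mul, mul_inv_cancel, map_one]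
    rwa [h1, one_mul] at h2
  have hR : R ≤ τ.ker := by
    refine D.gen _ fun s hs hinv => ?_
    rw [MonoidHom.mem_ker]
    have h2 : τ s = τ s⁻¹ := by
      rw [← hinv, map_mul, map_mul, h1, h1', one_mul, mul_one]
    have h3 : (τ s) ^ 2 = 1 := by
      rw [pow_two]
      nth_rewrite 1 [h2]
      rw [← map_mul, inv_mul_cancel, map_one]
    obtain ⟨k, hk⟩ := zsBn_pow D.core.hR hs
    obtain ⟨j, hj⟩ := ((hr.odd_of_ne_two hr2).pow : Odd (r ^ k))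
    have h4 : (τ s) ^ (r ^ k) = 1 := by rw [← map_pow, hk, map_one]
    rw [hj, pow_succ, pow_mul, h3, one_pow, one_mul] at h4
    exact h4
  obtain ⟨c, hc, q, hq, hne⟩ := D.core.ne
  exact hne (M.faith c hc (MonoidHom.mem_ker.1 (hR hc)) q hq)

/-- A preimage of an element inverted by `g ^ (2 ^ (a - 1))` (`f` a homomorphism). Proof. Let `x = g ^ (2 ^ (a - 1))`,
`s' = s₁ * (x * s₁⁻¹ * x⁻¹)`, inverted by `x` (`x ^ 2 = 1`); `f s' = f s₁ ^ 2`. `s' ∈ R` (`D.core.hxR`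
four times) has order dividing `r ^ k`, also `s₁` (take the larger `k`); `s = s' ^ j` with
`2 * j ≡ 1 mod r ^ k` (`j = (r ^ k + 1) / 2`). -/
theorem zsb_lift {F : Type} [Group F] {r a : ℕ} (ha : 0 < a) (hr : r.Prime) (hr2 : r ≠ 2) {Q R : Subgroup F}
    {g : F} (D : ZsMin r a Q R g) {H : Type} [Group H] (f : F →* H) {s₁ : F} (hs₁ : s₁ ∈ R)
    (h : f (g ^ (2 ^ (a - 1)) * s₁ * (g ^ (2 ^ (a - 1)))⁻¹) = f s₁⁻¹) :
    ∃ s ∈ R, f s = f s₁ ∧ g ^ (2 ^ (a - 1)) * s * (g ^ (2 ^ (a - 1)))⁻¹ = s⁻¹ := by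
  obtain ⟨x, hx⟩ : ∃ x : F, x = g ^ (2 ^ (a - 1)) := ⟨_, rfl⟩
  have hxx : x * x = 1 := by
    rw [hx, ← pow_add, ← two_mul, ← pow_succ', Nat.sub_add_cancel ha]
    exact D.hg
  have hxi : x⁻¹ = x := inv_eq_of_mul_eq_one_right hxx
  have hxR : ∀ y ∈ R, x * y * x⁻¹ ∈ R := fun y hy => by
    rw [hx]
    exact zsBn_conj4 D.core.hxR _ hy
  rw [← hx] at h ⊢
  obtain ⟨s', hs'⟩ : ∃ s' : F, s' = s₁ * (x * s₁⁻¹ * x⁻¹) := ⟨_, rfl⟩
  have hs'R : s' ∈ R := by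
    rw [hs']
    exact R.mul_mem hs₁ (hxR _ (R.inv_mem hs₁))
  have hinv : x * s' * x⁻¹ = s'⁻¹ := by
    rw [hs']
    calc x * (s₁ * (x * s₁⁻¹ * x⁻¹)) * x⁻¹ = x * s₁ * x * s₁⁻¹ * (x⁻¹ * x⁻¹) := by
          simp only [mul_assoc]
      _ = x * s₁ * x⁻¹ * s₁⁻¹ := by rw [hxi, hxx, mul_one]
      _ = (s₁ * (x * s₁⁻¹ * x⁻¹))⁻¹ := by group
  have hf : f s' = f s₁ ^ 2 := by
    have h2 : x * s₁⁻¹ * x⁻¹ = (x * s₁ * x⁻¹)⁻¹ := by group
    rw [hs', map_mul, h2, map_inv, h, map_inv, inv_inv, pow_two]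
  obtain ⟨k, hk⟩ := zsBn_pow D.core.hR hs₁
  obtain ⟨j, hj⟩ := ((hr.odd_of_ne_two hr2).pow : Odd (r ^ k))
  refine ⟨s' ^ (j + 1), R.pow_mem hs'R _, ?_, ?_⟩
  · have h3 : 2 * (j + 1) = r ^ k + 1 := by omega
    rw [map_pow, hf, ← pow_mul, h3, pow_succ, ← map_pow, hk, map_one, one_mul]
  · rw [← conj_pow, hinv, inv_pow]

/-- A preimage of an element commuting with `g ^ (2 ^ (a - 1))` (`f` a homomorphism). Proof. `tw_coset_fix`
(TwR4.lean) for `p := 2`, `z := g ^ (2 ^ (a - 1))` (`(g ^ (2 ^ (a - 1))) ^ (2 ^ 1) = 1`), `N = {c ∈ R | f c = 1}`, whose order is a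
power of `r`. -/
theorem zsb_lift' {F : Type} [Group F] [Finite F] {r a : ℕ} (ha : 0 < a) (hr : r.Prime) (hr2 : r ≠ 2)
    {Q R : Subgroup F} {g : F} (D : ZsMin r a Q R g) {H : Type} [Group H] (f : F →* H) {s₁ : F}
    (hs₁ : s₁ ∈ R) (h : f (g ^ (2 ^ (a - 1)) * s₁) = f (s₁ * g ^ (2 ^ (a - 1)))) :
    ∃ s ∈ R, f s = f s₁ ∧ g ^ (2 ^ (a - 1)) * s = s * g ^ (2 ^ (a - 1)) := by
  obtain ⟨x, hx⟩ : ∃ x : F, x = g ^ (2 ^ (a - 1)) := ⟨_, rfl⟩
  have hxx : x * x = 1 := by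
    rw [hx, ← pow_add, ← two_mul, ← pow_succ', Nat.sub_add_cancel ha]
    exact D.hg
  have hxR : ∀ y ∈ R, x * y * x⁻¹ ∈ R := fun y hy => by
    rw [hx]
    exact zsBn_conj4 D.core.hxR _ hy
  rw [← hx] at h ⊢
  have hN : ¬ 2 ∣ Nat.card (R ⊓ f.ker : Subgroup F) := by
    intro h2
    have : Fact r.Prime := ⟨hr⟩
    have h3 : IsPGroup r (R ⊓ f.ker : Subgroup F) := D.core.hR.to_le inf_le_left
    obtain ⟨n, hn⟩ := IsPGroup.iff_card.mp h3
    rw [hn] at h2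
    exact hr2 ((Nat.prime_dvd_prime_iff_eq Nat.prime_two hr).1 (Nat.prime_two.dvd_of_dvd_pow h2)).symm
  obtain ⟨y, hy, hxy⟩ := tw_coset_fix (p := 2) (k := 1) Nat.prime_two (z := x)
    (by rw [pow_one, pow_two]; exact hxx) (R ⊓ f.ker) hN
    (fun c hc => ⟨hxR c hc.1, by
      have h2 : f c = 1 := hc.2
      show f (x * c * x⁻¹) = 1
      rw [map_mul, map_mul, h2, mul_one, ← map_mul, mul_inv_cancel, map_one]⟩) (x := s₁)
    ⟨R.mul_mem (R.inv_mem hs₁) (hxR _ hs₁), by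
      show f (s₁⁻¹ * (x * s₁ * x⁻¹)) = 1
      rw [map_mul, map_mul f (x * s₁) x⁻¹, h, ← map_mul, ← map_mul, mul_inv_cancel_right,
        inv_mul_cancel, map_one]⟩
  refine ⟨y, ?_, ?_, hxy⟩
  · have h2 := R.mul_mem hs₁ hy.1
    rwa [mul_inv_cancel_left] at h2
  · have h2 : f (s₁⁻¹ * y) = 1 := hy.2
    rw [map_mul, map_inv, inv_mul_eq_one] at h2
    exact h2.symm

end Pool.Agent.Lib.MP_544bd1_al
end

section

/-!
Theorem Z (paper 287), section 3: basic consequences of `YLC`.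
-/

namespace Pool.Agent.Lib.MP_544bd1_al

open Subgroup

variable {m a : ℕ} {G : Type} [Group G]

/-- the fourth property of `YLC`, for arbitrary subgroups `K` -/
theorem YLC.gen' {P : Subgroup G} {α ρ p : G} (D : YLC m a P α ρ p) (K : Subgroup G)
    (h1 : ∀ x ∈ K, x ∈ P → α * x * α⁻¹ ∈ K) (h2 : ∀ x ∈ K, x ∈ P → ρ * x * ρ⁻¹ ∈ K)
    (h3 : ynorm (2 ^ (a - 1)) α p * (ρ * ynorm (2 ^ (a - 1)) α p * ρ⁻¹) ∈ K) : P ≤ K := by
  have hz : ynorm (2 ^ (a - 1)) α p ∈ P := ynorm_mem D.hαP D.hp _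
  have h4 : K ⊓ P = P := D.gen (K ⊓ P) inf_le_right
    (fun x hx => ⟨h1 x hx.1 hx.2, D.hαP x hx.2⟩) (fun x hx => ⟨h2 x hx.1 hx.2, D.hρP x hx.2⟩)
    ⟨h3, P.mul_mem hz (D.hρP _ hz)⟩
  rw [← h4]; exact inf_le_left

/-- `P ≤ ⟨α, ρ, z⟩` -/
theorem YLC.le {P : Subgroup G} {α ρ p : G} (D : YLC m a P α ρ p) {K : Subgroup G} (h1 : α ∈ K)
    (h2 : ρ ∈ K) (h3 : ynorm (2 ^ (a - 1)) α p ∈ K) : P ≤ K :=
  D.gen' K (fun _ hx _ => K.mul_mem (K.mul_mem h1 hx) (K.inv_mem h1))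
    (fun _ hx _ => K.mul_mem (K.mul_mem h2 hx) (K.inv_mem h2))
    (K.mul_mem h3 (K.mul_mem (K.mul_mem h2 h3) (K.inv_mem h2)))

/-- `z` is in `P`, an involution commuting with `α` -/
theorem YLC.z {P : Subgroup G} {α ρ p : G} (D : YLC m a P α ρ p) :
    ynorm (2 ^ (a - 1)) α p ∈ P ∧ ynorm (2 ^ (a - 1)) α p ^ 2 = 1 ∧
      α * ynorm (2 ^ (a - 1)) α p = ynorm (2 ^ (a - 1)) α p * α := by
  have hz : ynorm (2 ^ (a - 1)) α p ∈ P := ynorm_mem D.hαP D.hp _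
  exact ⟨hz, D.sq _ hz, ynorm_comm D.hαP (ys_comm D.sq) D.hp (D.cen _ D.hp)⟩

theorem ys_two_pow (ha : 1 ≤ a) : 2 ^ a = 2 * 2 ^ (a - 1) := by
  rw [← pow_succ']; congr 1; omega

theorem ys_two_pow' (ha : 2 ≤ a) : 2 ^ (a - 1) = 2 * 2 ^ (a - 2) := by
  rw [← pow_succ']; congr 1; omega

/-- `κ = α ^ (2 ^ (a - 1))`: `κ ^ 2 = 1`, `κ` commutes with `ρ`; `(p * α) ^ (2 ^ (a - 1)) = z * κ`,
`(p * α) ^ (2 ^ a) = 1` -/
theorem YLC.κ (ha : 2 ≤ a) {P : Subgroup G} {α ρ p : G} (D : YLC m a P α ρ p) :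
    (α ^ (2 ^ (a - 1))) ^ 2 = 1 ∧ α ^ (2 ^ (a - 1)) * ρ = ρ * α ^ (2 ^ (a - 1)) ∧
      (p * α) ^ (2 ^ (a - 1)) = ynorm (2 ^ (a - 1)) α p * α ^ (2 ^ (a - 1)) ∧
      (p * α) ^ (2 ^ a) = 1 := by
  have h1 : (α ^ (2 ^ (a - 1))) ^ 2 = 1 := by
    rw [← pow_mul, mul_comm, ← ys_two_pow (by omega)]; exact D.hα
  refine ⟨h1, ?_, ynorm_pow _ _ _, ?_⟩
  · have h2 : α ^ (2 ^ (a - 1)) = α ^ (2 ^ (a - 2)) * α ^ (2 ^ (a - 2)) := by
      rw [← pow_add, ← two_mul, ← ys_two_pow' ha]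
    have h3 := D.inv
    set y := α ^ (2 ^ (a - 2)) with hy
    have h4 : y * y * ρ * (y * y)⁻¹ = ρ := by
      calc y * y * ρ * (y * y)⁻¹ = y * (y * ρ * y⁻¹) * y⁻¹ := by group
        _ = y * ρ⁻¹ * y⁻¹ := by rw [h3]
        _ = (y * ρ * y⁻¹)⁻¹ := by group
        _ = ρ := by rw [h3, inv_inv]
    rw [h2]
    calc y * y * ρ = y * y * ρ * (y * y)⁻¹ * (y * y) := by group
      _ = ρ * (y * y) := by rw [h4]
  · have h5 := D.hα
    rw [ys_two_pow (by omega)] at h5 ⊢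
    exact ys_pg_pow D.hαP D.sq D.hp D.cen h5

end Pool.Agent.Lib.MP_544bd1_al
end
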