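import Mathlib
import Pool.Agent.Lib.MP_544bd1_al.ZtDefs3
import Pool.Agent.Lib.MP_544bd1_al.ZtNorm
import Pool.Agent.Lib.MP_544bd1_al.TwS2
import Pool.Agent.Lib.MP_544bd1_al.TwU1

section

/-!
General even exponents, section 2 (the base): the elements of `R`.
-/

namespace Pool.Agent.Lib.MP_544bd1_al

open Subgroup

/-- The elements of `R` modulo the kernel of `τ`; `s` is inverted by `x = g ^ (2 ^ (a - 1))`. -/
structure ZsRb (r a : ℕ) {F : Type} [Group F] (R : Subgroup F) (g s : F) {V : Type}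
    [AddCommGroup V] [Module (ZMod 2) V] (τ : F →* Module.End (ZMod 2) V) : Prop where
  hs : s ∈ R
  hxs : g ^ (2 ^ (a - 1)) * s * (g ^ (2 ^ (a - 1)))⁻¹ = s⁻¹
  hs1 : τ s ≠ 1
  /-- `R` is generated by the conjugates of `s` under `g` and the kernel of `τ` -/
  gen : ∀ S : Subgroup F, (∀ i : ℕ, g ^ i * s * (g ^ i)⁻¹ ∈ S) → (∀ c ∈ R, τ c = 1 → c ∈ S) → R ≤ S
  /-- the commutators are central in `R` -/
  cl : ∀ b ∈ R, ∀ c ∈ R, ∀ d ∈ R, τ (b * c * b⁻¹ * c⁻¹ * d) = τ (d * (b * c * b⁻¹ * c⁻¹))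
  /-- the commutators commute with `x` -/
  cx : ∀ b ∈ R, ∀ c ∈ R, τ (g ^ (2 ^ (a - 1)) * (b * c * b⁻¹ * c⁻¹)) =
    τ (b * c * b⁻¹ * c⁻¹ * g ^ (2 ^ (a - 1)))
  /-- the commutators have no common fixed vector -/
  fix : ∀ v : V, (∀ b ∈ R, ∀ c ∈ R, τ (b * c * b⁻¹ * c⁻¹) v = v) → v = 0
  /-- irreducibility -/
  irr : ∀ W : Submodule (ZMod 2) V, (∀ v ∈ W, τ s v ∈ W) → (∀ v ∈ W, τ g v ∈ W) → W = ⊥ ∨ W = ⊤

end Pool.Agent.Lib.MP_544bd1_al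
end

section

/-!
Theorem Z (paper 287), 4.5-4.8: the subgroup generated by the squares.
-/

namespace Pool.Agent.Lib.MP_544bd1_al

open Subgroup

/-- **Squares of a 2-group of class 2.**

Proof. `closure_induction` everywhere. Generators `x ^ 2`: order 2 by `h4`, central in `Q` by `hc`,
commute with `R` by `hR`. Products: `(z * w) ^ 2 = z ^ 2 * w ^ 2` as `z`, `w` commute (`w ∈ Q`, second
statement). Last statement: `x * x' * x⁻¹ * x'⁻¹ = (x * x') ^ 2 * (x ^ 2)⁻¹ * (x' ^ 2)⁻¹`, because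
`(x ^ 2)⁻¹` commutes with `x'` (`(x * x') ^ 2 * x'⁻¹ * (x ^ 2)⁻¹ * x'⁻¹` is the left side). -/
theorem yk_Z {X : Type} [Group X] {Q R : Subgroup X}
    (hc : ∀ x ∈ Q, ∀ y ∈ Q, x ^ 2 * y = y * x ^ 2) (hR : ∀ x ∈ Q, ∀ r ∈ R, x ^ 2 * r = r * x ^ 2)
    (h4 : ∀ x ∈ Q, x ^ 4 = 1) :
    yZ Q ≤ Q ∧ (∀ z ∈ yZ Q, ∀ x ∈ Q, z * x = x * z) ∧ (∀ z ∈ yZ Q, z ^ 2 = 1) ∧
      (∀ z ∈ yZ Q, ∀ r ∈ R, z * r = r * z) ∧ (∀ x ∈ Q, x ^ 2 ∈ yZ Q) ∧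
      (∀ x ∈ Q, ∀ x' ∈ Q, x * x' * x⁻¹ * x'⁻¹ ∈ yZ Q) := by
  have h1 : yZ Q ≤ Q := by
    unfold yZ
    rw [closure_le]
    rintro z ⟨x, hx, rfl⟩
    exact Q.pow_mem hx 2
  have h2 : ∀ z ∈ yZ Q, ∀ x ∈ Q, z * x = x * z := by
    have h3 : yZ Q ≤ Subgroup.centralizer (Q : Set X) := by
      unfold yZ
      rw [closure_le]
      rintro z ⟨x, hx, rfl⟩
      exact Subgroup.mem_centralizer_iff.2 fun y hy => (hc x hx y hy).symm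
    exact fun z hz x hx => (Subgroup.mem_centralizer_iff.1 (h3 hz) x hx).symm
  have h3 : ∀ z ∈ yZ Q, ∀ r ∈ R, z * r = r * z := by
    have h3 : yZ Q ≤ Subgroup.centralizer (R : Set X) := by
      unfold yZ
      rw [closure_le]
      rintro z ⟨x, hx, rfl⟩
      exact Subgroup.mem_centralizer_iff.2 fun y hy => (hR x hx y hy).symm
    exact fun z hz x hx => (Subgroup.mem_centralizer_iff.1 (h3 hz) x hx).symm
  have h5 : ∀ x ∈ Q, x ^ 2 ∈ yZ Q := fun x hx => subset_closure ⟨x, hx, rfl⟩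
  refine ⟨h1, h2, ?_, h3, h5, ?_⟩
  · intro z hz
    unfold yZ at hz
    induction hz using closure_induction with
    | mem z hz =>
      obtain ⟨x, hx, rfl⟩ := hz
      rw [← pow_mul]
      exact h4 x hx
    | one => exact one_pow 2
    | mul z w hz hw ihz ihw =>
      have h6 : Commute z w := h2 z hz w (h1 hw)
      rw [h6.mul_pow, ihz, ihw, one_mul]
    | inv z hz ih => rw [inv_pow, ih, inv_one]
  · intro x hx x' hx'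
    have h6 := hc x hx x' hx'
    have h7 : x * x' * x⁻¹ * x'⁻¹ = (x * x') ^ 2 * (x ^ 2)⁻¹ * (x' ^ 2)⁻¹ := by
      have h8 : (x ^ 2)⁻¹ * x' = x' * (x ^ 2)⁻¹ := by
        rw [inv_mul_eq_iff_eq_mul, ← mul_assoc, h6, mul_assoc, mul_inv_cancel, mul_one]
      calc x * x' * x⁻¹ * x'⁻¹ = x * x' * x * ((x ^ 2)⁻¹ * x') * (x' ^ 2)⁻¹ := by group
        _ = x * x' * x * (x' * (x ^ 2)⁻¹) * (x' ^ 2)⁻¹ := by rw [h8]
        _ = (x * x') ^ 2 * (x ^ 2)⁻¹ * (x' ^ 2)⁻¹ := by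
          rw [pow_two (x * x')]
          simp only [mul_assoc]
    rw [h7]
    exact mul_mem (mul_mem (h5 _ (Q.mul_mem hx hx')) (inv_mem (h5 _ hx))) (inv_mem (h5 _ hx'))

/-- Proof: `closure_induction`; `h * x ^ 2 * h⁻¹ = (h * x * h⁻¹) ^ 2`. -/
theorem yk_Zh {X : Type} [Group X] {Q : Subgroup X} {h : X} (hh : ∀ x ∈ Q, h * x * h⁻¹ ∈ Q) :
    ∀ z ∈ yZ Q, h * z * h⁻¹ ∈ yZ Q := by
  have h1 : yZ Q ≤ (yZ Q).comap (MulAut.conj h).toMonoidHom := by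
    conv_lhs => unfold yZ
    rw [closure_le]
    rintro z ⟨x, hx, rfl⟩
    show h * x ^ 2 * h⁻¹ ∈ yZ Q
    rw [← conj_pow]
    exact subset_closure ⟨_, hh x hx, rfl⟩
  exact fun z hz => h1 hz

end Pool.Agent.Lib.MP_544bd1_al
end

section

/-!
Theorem Z (paper 287), 4.6: the case `x ^ 2 ≠ 1`, definitions.
`M = 2 ^ (a - 1)`, `y = g ^ (M / 2)`, `κ = g ^ M`; `q j i` is the conjugate of `x` by `c ^ i * σ ^ j`,
`f = x ^ 2`, `p = q 0 1 * q 2 1`, `n = ynorm M g p`, `w = gm * e * gm⁻¹ * e⁻¹` with `gm = g ^ (M / 4)`.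
-/

namespace Pool.Agent.Lib.MP_544bd1_al

open Subgroup

/-- the elements of the three lines -/
structure YQ3 {X : Type} [Group X] (Q₀ P : Subgroup X) (y c μ σ f : X) (q : ℕ → ℕ → X) : Prop where
  mem0 : ∀ j i, q j i ∈ Q₀
  memP : ∀ j i, q j i ∈ P
  f2 : f ^ 2 = 1
  sq : ∀ j i, q j i ^ 2 = f
  p3 : ∀ j i, q j i * q j (i + 1) * q j (i + 2) = 1
  i3 : ∀ j i, q j (i + 3) = q j i
  j3 : ∀ j i, q (j + 3) i = q j i
  com : ∀ j j' i i', j < 3 → j' < 3 → j ≠ j' → q j i * q j' i' = q j' i' * q j i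
  yq : ∀ j i, y * q j i * y⁻¹ = (q j (2 * i))⁻¹
  cq : ∀ j i, c * q j i * c⁻¹ = q j (i + 1)
  σq : ∀ j i, σ * q j i * σ⁻¹ = q (j + 1) i
  μq : ∀ j i, μ * q j i * μ⁻¹ = q j (i + 2 * j)

/-- the data of the case `x ^ 2 ≠ 1` -/
structure YV (a : ℕ) {X : Type} [Group X] (Q₀ E P Z₁ : Subgroup X) (g y c μ σ e e' w f : X)
    (q : ℕ → ℕ → X) : Prop where
  L : YQ3 Q₀ P y c μ σ f q
  hf : f ≠ 1
  hy : y = g ^ (2 ^ (a - 2))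
  hg : g ^ (2 ^ a) = 1
  /-- `E` -/
  hE : E = closure {e, e'}
  cE : c ∈ E
  μE : μ ∈ E
  σE : σ ∈ E
  /-- `Q₀` -/
  EQ₀ : ∀ r ∈ E, ∀ x ∈ Q₀, r * x * r⁻¹ ∈ Q₀
  yQ₀ : ∀ x ∈ Q₀, y * x * y⁻¹ ∈ Q₀
  out : ∀ l, 0 < l → l < 2 ^ (a - 2) → YOut Q₀ E (g ^ l)
  /-- `P` -/
  P2 : ∀ x ∈ P, x ^ (2 ^ a) = 1
  gP : ∀ x ∈ P, g * x * g⁻¹ ∈ P
  wP : ∀ x ∈ P, w * x * w⁻¹ ∈ P
  EP : ∀ r ∈ E, ∀ x ∈ P, r * x * r⁻¹ ∈ P
  κP : ∀ x ∈ P, g ^ (2 ^ (a - 1)) * x = x * g ^ (2 ^ (a - 1))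
  κE : ∀ r ∈ E, g ^ (2 ^ (a - 1)) * r = r * g ^ (2 ^ (a - 1))
  gen : ∀ K : Subgroup X, (∀ (l : ℕ), ∀ r ∈ E, g ^ l * (r * q 0 0 * r⁻¹) * (g ^ l)⁻¹ ∈ K) → P ≤ K
  /-- `Z₁`, the subgroup generated by the squares of `P` -/
  Z₁P : Z₁ ≤ P
  Z₁2 : ∀ z ∈ Z₁, z ^ 2 = 1
  Z₁c : ∀ z ∈ Z₁, ∀ x ∈ P, z * x = x * z
  Z₁E : ∀ z ∈ Z₁, ∀ r ∈ E, z * r = r * z
  Z₁w : ∀ z ∈ Z₁, z * w = w * z
  Z₁g : ∀ z ∈ Z₁, g * z * g⁻¹ ∈ Z₁
  sq : ∀ x ∈ P, x ^ 2 ∈ Z₁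
  cm : ∀ x ∈ P, ∀ x' ∈ P, x * x' * x⁻¹ * x'⁻¹ ∈ Z₁
  Z₁min : ∀ U : Subgroup X, (∀ x ∈ P, x ^ 2 ∈ U) → Z₁ ≤ U
  /-- `w` -/
  we : ∀ x ∈ Q₀, w⁻¹ * x * w = e * x * e⁻¹
  we' : ∀ x ∈ Q₀, (y * w * y⁻¹)⁻¹ * x * (y * w * y⁻¹) = e' * x * e'⁻¹
  w3 : w ^ 3 = 1
  v1 : ∀ H : Subgroup X, g ∈ H → w⁻¹ * g * w ∈ H → w ∈ H ∧ c ∈ H

/-- the properties of the norm `n` of `p = q 0 1 * q 2 1` -/
structure YNm {X : Type} [Group X] (Q₀ E P : Subgroup X) (n : X) (q : ℕ → ℕ → X) : Prop where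
  nP : n ∈ P
  n2 : n ^ 2 = 1
  eq : ∃ W ∈ P, n = q 0 0 * q 2 0 * W ∧ (∀ x ∈ Q₀, W * x = x * W) ∧ ∀ r ∈ E, W * r = r * W

end Pool.Agent.Lib.MP_544bd1_al
end

section

/-!
Theorem Z (paper 287), section 3: (C4).
-/

namespace Pool.Agent.Lib.MP_544bd1_al

open Subgroup

variable {m a : ℕ} {G : Type} [Group G]

/-- the odd part of `x * x ^ ω`: if the involution `f x` inverts the odd element `e`, there is an odd
element `k` of `T` over `e ^ 2`, inverted by `x`.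

Proof. Let `f ω = e`, `h = x * (ω⁻¹ * x * ω)`: `x * h * x⁻¹ = h⁻¹` (`x ^ 2 = 1`), `f h = f x * e⁻¹ * f x * e =
e ^ 2` (`f x * e⁻¹ * f x = e` by `h1`, `(f x) ^ 2 = 1`). Let `l ≡ 0 mod 2 ^ a`, `l ≡ 1 mod m`
(`Nat.chineseRemainder (zt_cop hm a)`), `k = h ^ l`: `k ^ m = 1` (`m * 2 ^ a ∣ l * m`),
`x * k * x⁻¹ = k⁻¹` (`conj_pow`), `f k = (e ^ 2) ^ l = e ^ 2` as `(e ^ 2) ^ m = 1`. -/
theorem ys_oddpart (hm : Odd m) {T X : Type} [Group T] [Group X]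
    (hexp : ∀ x : T, x ^ (m * 2 ^ a) = 1) (f : T →* X) (hf : Function.Surjective f) {x : T}
    (hx : x ^ 2 = 1) {e : X} (he : e ^ m = 1) (h1 : f x * e * (f x)⁻¹ = e⁻¹) :
    ∃ k : T, k ^ m = 1 ∧ x * k * x⁻¹ = k⁻¹ ∧ f k = e ^ 2 := by
  obtain ⟨ω, hω⟩ := hf e
  obtain ⟨l, hl1, hl2⟩ := Nat.chineseRemainder (zt_cop hm a) 1 0
  have hxi : x⁻¹ = x := inv_eq_of_mul_eq_one_left (by rw [← pow_two]; exact hx)
  obtain ⟨h, hh⟩ : ∃ h, h = x * (ω⁻¹ * x * ω) := ⟨_, rfl⟩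
  have hxh : x * h * x⁻¹ = h⁻¹ := by
    have hxx : x * x = 1 := by rw [← pow_two]; exact hx
    rw [hh]
    calc x * (x * (ω⁻¹ * x * ω)) * x⁻¹ = (x * x) * (ω⁻¹ * x * ω) * x⁻¹ := by group
      _ = ω⁻¹ * x * ω * x⁻¹ := by rw [hxx, one_mul]
      _ = (x * (ω⁻¹ * x⁻¹ * ω))⁻¹ := by group
      _ = (x * (ω⁻¹ * x * ω))⁻¹ := by rw [hxi]
  have hfx2 : f x * f x = 1 := by rw [← map_mul, ← pow_two, hx, map_one]
  have hfxi : (f x)⁻¹ = f x := inv_eq_of_mul_eq_one_left hfx2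
  have hfh : f h = e ^ 2 := by
    rw [hh, map_mul, map_mul, map_mul, map_inv, hω]
    have h2 : f x * e⁻¹ * (f x)⁻¹ = e := by
      have h3 : f x * e⁻¹ * (f x)⁻¹ = (f x * e * (f x)⁻¹)⁻¹ := by group
      rw [h3, h1, inv_inv]
    rw [hfxi] at h2
    calc f x * (e⁻¹ * f x * e) = (f x * e⁻¹ * f x) * e := by group
      _ = e ^ 2 := by rw [h2, pow_two]
  refine ⟨h ^ l, ?_, ?_, ?_⟩
  · have hd : m * 2 ^ a ∣ l * m := by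
      have hd1 : 2 ^ a ∣ l := (Nat.modEq_zero_iff_dvd).1 hl2
      rw [mul_comm l m]
      exact mul_dvd_mul_left m hd1
    obtain ⟨q, hq⟩ := hd
    rw [← pow_mul, hq, pow_mul, hexp, one_pow]
  · rw [← conj_pow, hxh, inv_pow]
  · rw [map_pow, hfh]
    have he2 : (e ^ 2) ^ m = 1 := by rw [← pow_mul, mul_comm, pow_mul, he, one_pow]
    have h3 : (e ^ 2) ^ l = (e ^ 2) ^ 1 := by
      rw [pow_eq_pow_iff_modEq]
      exact hl1.of_dvd (orderOf_dvd_of_pow_eq_one he2)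
    rw [h3, pow_one]

/-- if `z ∈ O_2(⟨z, k⟩)`, `f k = e ^ 2`, and `f z` inverts the odd element `e`, then `e = 1`.

Proof. `h` gives a subgroup `N ≤ closure {z, k}` (in `G`), `z ∈ N`, normalized by `closure {z, k}`, of
exponent `2 ^ a`. `z * (k * z⁻¹ * k⁻¹) ∈ N`, so `(z * k * z⁻¹ * k⁻¹) ^ (2 ^ a) = 1` in `G`, so in `T`. Its image
under `f` is `f z * e ^ 2 * (f z)⁻¹ * e ^ (-2) = e ^ (-4)`. So `(e ^ 4) ^ (2 ^ a) = 1`, `(e ^ 4) ^ m = 1`,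
`e ^ 4 = 1` (`tw_one`, `zt_cop`), `e = 1` (`e ^ m = 1`, `m` odd). -/
theorem ys_C4k (hm : Odd m) {T : Subgroup G} {X : Type} [Group X] (f : T →* X) {z k : T}
    (h : InO (2 ^ a) (closure {(z : G), (k : G)}) (z : G)) {e : X} (he : e ^ m = 1)
    (hk : f k = e ^ 2) (h2 : f z * e * (f z)⁻¹ = e⁻¹) : e = 1 := by
  obtain ⟨N, hN1, hN2, hN3, hN4⟩ := h
  have hkc : (k : G) ∈ closure {(z : G), (k : G)} := subset_closure (by simp)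
  have h3 := hN4 _ (N.mul_mem hN2 (hN3 k hkc _ (N.inv_mem hN2)))
  have h4 : (z * (k * z⁻¹ * k⁻¹)) ^ (2 ^ a) = 1 := Subtype.ext h3
  have h5 := congrArg f h4
  have h6 : f (z * (k * z⁻¹ * k⁻¹)) = e⁻¹ ^ 4 := by
    rw [map_mul, map_mul, map_mul, map_inv, map_inv, hk]
    have h7 : f z * e ^ 2 * (f z)⁻¹ = e⁻¹ ^ 2 := by
      rw [← conj_pow, h2]
    calc f z * (e ^ 2 * (f z)⁻¹ * (e ^ 2)⁻¹) = (f z * e ^ 2 * (f z)⁻¹) * (e ^ 2)⁻¹ := by group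
      _ = e⁻¹ ^ 2 * e⁻¹ ^ 2 := by rw [h7, inv_pow]
      _ = e⁻¹ ^ 4 := by rw [← pow_add]
  rw [map_pow, h6, map_one, ← pow_mul, inv_pow, inv_eq_one, show 4 * 2 ^ a = 2 ^ (a + 2) by
    rw [pow_add]; ring] at h5
  exact tw_one (zt_cop hm (a + 2)) he h5

/-- **(C4)**, general form: `ys_oddpart` (for `x`) and `ys_C4k` (`YPerp` gives its hypothesis `h`). -/
theorem ys_C4g (hm : Odd m) {T : Subgroup G} (hexp : ∀ x : G, x ^ (m * 2 ^ a) = 1) {X : Type}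
    [Group X] (f : T →* X) (hf : Function.Surjective f) {x z : T}
    (h : YPerp m a (x : G) (z : G)) (hx : x ^ 2 = 1) {e : X} (he : e ^ m = 1)
    (h1 : f x * e * (f x)⁻¹ = e⁻¹) (h2 : f z * e * (f z)⁻¹ = e⁻¹) : e = 1 := by
  have hexpT : ∀ x : T, x ^ (m * 2 ^ a) = 1 := fun x => Subtype.ext (by
    rw [SubmonoidClass.coe_pow]
    exact hexp x)
  obtain ⟨k, hk1, hk2, hk3⟩ := ys_oddpart hm hexpT f hf hx he h1
  have hk1' : (k : G) ^ m = 1 := by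
    rw [← SubmonoidClass.coe_pow, hk1]
    rfl
  have hk2' : (x : G) * k * (x : G)⁻¹ = (k : G)⁻¹ := congrArg Subtype.val hk2
  exact ys_C4k hm f (h (k : G) hk1' hk2') he hk3 h2

/-- **(C4)** for the section `ZH m a T` of a finite subgroup `T` (`ys_C4g` for `f = zp m a T`, `zp_surj`) -/
theorem ys_C4 (hm : Odd m) {T : Subgroup G} [Finite T] (hexp : ∀ x : G, x ^ (m * 2 ^ a) = 1)
    {x z : T} (h : YPerp m a (x : G) (z : G)) (hx : x ^ 2 = 1) (hz : z ^ 2 = 1)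
    (hxz : x * z = z * x) {e : ZH m a T} (he : e ^ m = 1)
    (h1 : zp m a T x * e * (zp m a T x)⁻¹ = e⁻¹) (h2 : zp m a T z * e * (zp m a T z)⁻¹ = e⁻¹) :
    e = 1 := ys_C4g hm hexp (zp m a T) zp_surj h hx he h1 h2

end Pool.Agent.Lib.MP_544bd1_al
end
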