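import Mathlib
import Pool.Agent.Lib.MP_544bd1_al.TwL3
import Pool.Agent.Lib.MP_544bd1_al.E5.Coind
import Pool.Agent.Lib.MP_544bd1_al.ZtSpl
import Pool.Agent.Lib.MP_544bd1_al.ZtDefs3
import Pool.Agent.Lib.MP_544bd1_al.GpOX
import Pool.Agent.Lib.MP_544bd1_al.GpCent
import Pool.Agent.Lib.MP_544bd1_al.FrB
import Pool.Agent.Lib.MP_544bd1_al.ZtFrat
import Pool.Agent.Lib.MP_544bd1_al.TwS3

section

/-!
Theorem Z (paper 287), (L2): the stabilizer of a weight.
-/

namespace Pool.Agent.Lib.MP_544bd1_al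

open Finset Subgroup

private lemma zsw_mem {R : Type} [Group R] (α : R →* R) (i : ℕ) {c : R}
    (hc : c ∈ commutator R) : α^[i] c ∈ commutator R := by
  induction i with
  | zero => exact hc
  | succ i ih =>
    rw [Function.iterate_succ_apply']
    have h1 : (commutator R).map α ≤ commutator R := by
      rw [commutator_def, map_commutator]
      exact commutator_mono le_top le_top
    exact h1 (mem_map_of_mem α ih)

private lemma zsw_iter {R : Type} [Group R] (α : R →* R) (q : ℕ) (hα : ∀ x, α^[q] x = x)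
    (t : ℕ) (x : R) : α^[q * t] x = x := by
  rw [Function.iterate_mul]
  have h1 : (⇑α)^[q] = id := funext hα
  rw [h1, Function.iterate_id]
  rfl

private lemma zsw_inv {R : Type} [Group R] (α : R →* R) (q : ℕ) (hq : 0 < q)
    (hα : ∀ x, α^[q] x = x) (t : ℕ) (x : R) : α^[t] (α^[(q - 1) * t] x) = x := by
  rw [← Function.iterate_add_apply]
  have h1 : t + (q - 1) * t = q * t := by
    obtain ⟨m, rfl⟩ : ∃ m, q = m + 1 := ⟨q - 1, by omega⟩
    rw [Nat.add_sub_cancel]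
    ring
  rw [h1]
  exact zsw_iter α q hα t x

private lemma zsw_geom {K V : Type} [Field K] [AddCommGroup V] [Module K V]
    (U : Module.End K V) (j k : ℕ) :
    ∑ n ∈ range (j * k), U ^ n = (∑ t ∈ range j, U ^ t) * ∑ i ∈ range k, (U ^ j) ^ i := by
  induction k with
  | zero => simp
  | succ k ih =>
    rw [Nat.mul_succ, sum_range_add, ih, sum_range_succ (fun i => (U ^ j) ^ i), mul_add]
    congr 1
    rw [sum_mul]
    refine sum_congr rfl fun t _ => ?_
    rw [← pow_mul, ← pow_add, add_comm]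

private lemma zsw_wt {K : Type} [Field K] {V R : Type} [AddCommGroup V] [Module K V] [Group R]
    {q : ℕ} (hq : 0 < q) {α : R →* R} {ρ : R →* Module.End K V} {U : Module.End K V}
    (D : LDat q α ρ U) (hα : ∀ x, α^[q] x = x) (χ : R → K) (w : V)
    (hw : ∀ c ∈ commutator R, ρ c w = χ c • w) (t : ℕ) (c : R) (hc : c ∈ commutator R) :
    ρ c ((U ^ t) w) = χ (α^[(q - 1) * t] c) • (U ^ t) w := by
  have h1 := LinearMap.congr_fun (D.iter t (α^[(q - 1) * t] c)) w
  rw [zsw_inv α q hq hα t c] at h1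
  change (U ^ t) (ρ (α^[(q - 1) * t] c) w) = ρ c ((U ^ t) w) at h1
  rw [← h1, hw _ (zsw_mem α _ hc), map_smul]

/-- The stabilizer of a weight `χ` of the commutator subgroup, and the norm of its generator on the
weight space.

Proof. `α` is bijective (`hα`) and maps `commutator R` into itself. The set
`S = {i | ∀ c ∈ commutator R, χ (α^[i] c) = χ c}` is closed under addition and under subtraction
(`α^[i]` is a bijection of `commutator R`), and contains `2 ^ a` (`hα`) and `2 ^ (a - 1)` (`hcen`); so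
it is the set of multiples of some `2 ^ (a - b)`, `1 ≤ b ≤ a` (least positive element `j`; `j ∣ 2 ^ a`
and `j ∣ 2 ^ (a - 1)`; `Nat.dvd_prime_pow`). Let `j = 2 ^ (a - b)`, `k = 2 ^ b`, and let `w` be in the
weight space. `U ^ j` preserves the weight space: for `c = α^[j] c'` in `commutator R`,
`ρ c (U ^ j w) = U ^ j (ρ c' w) = χ c' • U ^ j w` (`LDat.iter`) and `χ c = χ c'`. So
`w' = (∑ i < 2 ^ b, (U ^ j) ^ i) w` is in the weight space, and
`0 = (∑ i < 2 ^ a, U ^ i) w = ∑ t < j, U ^ t w'` (division with remainder of the exponent). For `t < j`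
the vector `U ^ t w'` has weight `χ_t` where `χ_t (α^[t] c) = χ c`, and `χ_t ≠ χ_0` for `0 < t < j`
(otherwise `t ∈ S`). `tw_weights` (TwL3a; index set `commutator R`, operators `ρ c`) gives
`w' = 0`. -/
theorem ys_wt_stab {K : Type} [Field K] {V R : Type} [AddCommGroup V] [Module K V] [Group R]
    [Finite R] {a : ℕ} (ha : 0 < a) {α : R →* R} {ρ : R →* Module.End K V} {U : Module.End K V}
    (D : LDat (2 ^ a) α ρ U) (hα : ∀ x, α^[2 ^ a] x = x)
    (hcen : ∀ c ∈ commutator R, α^[2 ^ (a - 1)] c = c) (χ : R → K) :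
    ∃ b, 1 ≤ b ∧ b ≤ a ∧ (∀ c ∈ commutator R, χ (α^[2 ^ (a - b)] c) = χ c) ∧
      ∀ w : V, (∀ c ∈ commutator R, ρ c w = χ c • w) →
        (∀ c ∈ commutator R, ρ c ((U ^ (2 ^ (a - b))) w) = χ c • (U ^ (2 ^ (a - b))) w) ∧
        (∑ i ∈ range (2 ^ b), (U ^ (2 ^ (a - b))) ^ i) w = 0 := by
  classical
  set q := 2 ^ a with hq
  have hq0 : 0 < q := by positivity
  let S : ℕ → Prop := fun i => ∀ c ∈ commutator R, χ (α^[i] c) = χ c
  have hadd : ∀ i j, S i → S j → S (i + j) := by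
    intro i j hi hj c hc
    rw [Function.iterate_add_apply, hi _ (zsw_mem α j hc), hj c hc]
  have hsub : ∀ i j, S (i + j) → S i → S j := by
    intro i j hij hi c hc
    rw [← hi _ (zsw_mem α j hc), ← Function.iterate_add_apply, hij c hc]
  have hmul : ∀ i n, S i → S (i * n) := by
    intro i n hi
    induction n with
    | zero => intro c _; rfl
    | succ n ih =>
      rw [Nat.mul_succ]
      exact hadd _ _ ih hi
  have hSq : S q := fun c _ => by rw [hα]
  have hex : ∃ i, 0 < i ∧ S i := ⟨q, hq0, hSq⟩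
  set j := Nat.find hex with hj
  obtain ⟨hj0, hSj⟩ := Nat.find_spec hex
  have hdvd : ∀ i, S i → j ∣ i := by
    intro i hi
    rw [Nat.dvd_iff_mod_eq_zero]
    by_contra hne
    have h1 : S (i % j) := by
      apply hsub (j * (i / j)) (i % j)
      · rw [Nat.div_add_mod]
        exact hi
      · exact hmul j _ hSj
    exact Nat.find_min hex (Nat.mod_lt i hj0) ⟨Nat.pos_of_ne_zero hne, h1⟩
  obtain ⟨m, hma, hjm⟩ := (Nat.dvd_prime_pow Nat.prime_two).1 (hdvd q hSq)
  have hScen : S (2 ^ (a - 1)) := fun c hc => by rw [hcen c hc]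
  have hma' : m ≤ a - 1 := by
    have h1 := hdvd _ hScen
    rw [hjm] at h1
    exact (Nat.pow_dvd_pow_iff_le_right (by norm_num)).1 h1
  have hab : a - (a - m) = m := by omega
  refine ⟨a - m, by omega, by omega, ?_, ?_⟩
  · rw [hab, ← hjm]
    exact hSj
  · rw [hab, ← hjm]
    intro w hw
    have hstab : ∀ v : V, (∀ c ∈ commutator R, ρ c v = χ c • v) →
        ∀ c ∈ commutator R, ρ c ((U ^ j) v) = χ c • (U ^ j) v := by
      intro v hv c hc
      rw [zsw_wt hq0 D hα χ v hv j c hc]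
      have h1 : χ (α^[(q - 1) * j] c) = χ c := by
        rw [mul_comm]
        exact hmul j (q - 1) hSj c hc
      rw [h1]
    refine ⟨hstab w hw, ?_⟩
    have hpow : ∀ i, ∀ c ∈ commutator R, ρ c (((U ^ j) ^ i) w) = χ c • ((U ^ j) ^ i) w := by
      intro i
      induction i with
      | zero => exact hw
      | succ i ih =>
        intro c hc
        rw [pow_succ']
        exact hstab _ ih c hc
    set w' := (∑ i ∈ range (2 ^ (a - m)), (U ^ j) ^ i) w with hw'
    have hwt' : ∀ c ∈ commutator R, ρ c w' = χ c • w' := by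
      intro c hc
      rw [hw', LinearMap.sum_apply, map_sum, smul_sum]
      exact sum_congr rfl fun i _ => hpow i c hc
    have hjk : j * 2 ^ (a - m) = q := by
      rw [hjm, hq, ← pow_add]
      congr 1
      omega
    have hsum : ∑ t ∈ range j, (U ^ t) w' = 0 := by
      have h1 := zsw_geom U j (2 ^ (a - m))
      rw [hjk, D.hN] at h1
      have h2 := LinearMap.congr_fun h1 w
      rw [← LinearMap.sum_apply]
      exact h2.symm
    have hres := tw_weights (K := K) (V := V) (ι := commutator R) (fun c => ρ (c : R)) (j - 1)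
      (fun t c => χ (α^[(q - 1) * t] (c : R))) (fun t => (U ^ t) w') (by
        intro t _ c
        exact zsw_wt hq0 D hα χ w' hwt' t c c.2) (by
        intro t ht1 ht2 heq
        have h1 : S ((q - 1) * t) := by
          intro c hc
          have h2 := congrFun heq ⟨c, hc⟩
          simpa using h2
        have h3 : S (q * t) := hmul q t hSq
        have h4 : S t := by
          apply hsub ((q - 1) * t) t _ h1
          have h5 : (q - 1) * t + t = q * t := by
            obtain ⟨n, hn⟩ : ∃ n, q = n + 1 := ⟨q - 1, by omega⟩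
            rw [hn, Nat.add_sub_cancel]
            ring
          rw [h5]
          exact h3
        have h6 := Nat.le_of_dvd (by omega) (hdvd t h4)
        omega) (by
        have h1 : j - 1 + 1 = j := by omega
        rw [h1]
        exact hsum)
    simpa using hres

end Pool.Agent.Lib.MP_544bd1_al
end

section

/-!
Theorem Z (paper 287), 4.2-4.4: the relations that are lifted from `H = ZH m a F` to `F ⧸ krad m F`.
-/

namespace Pool.Agent.Lib.MP_544bd1_al

open Subgroup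

/-- the relations in `R` (the same fields as in `YL`) -/
structure YR (a k : ℕ) {X : Type} [Group X] (R : Subgroup X) (g τ e e' c : X)
    (γ : ℕ → X) : Prop where
  hR3 : IsPGroup 3 R
  hgR : ∀ r ∈ R, g * r * g⁻¹ ∈ R
  hτR : ∀ r ∈ R, τ * r * τ⁻¹ ∈ R
  hγR : ∀ i < 3 ^ k, ∀ r ∈ R, γ i * r * (γ i)⁻¹ ∈ R
  κR : ∀ r ∈ R, g ^ (2 ^ (a - 1)) * r = r * g ^ (2 ^ (a - 1))
  τR : ∀ r ∈ R, τ ^ (3 ^ k) * r = r * τ ^ (3 ^ k)
  he : e ∈ R
  he3 : e ^ 3 = 1
  he' : e' = g ^ (2 ^ (a - 2)) * e * (g ^ (2 ^ (a - 2)))⁻¹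
  hc : c = e * e' * e⁻¹ * e'⁻¹
  cl : ∀ x ∈ R, ∀ y ∈ R, ∀ w ∈ R, x * y * x⁻¹ * y⁻¹ * w = w * (x * y * x⁻¹ * y⁻¹)
  com : ∀ i l, i < 3 ^ k → l < 2 ^ (a - 1) → ¬ (i = 0 ∧ (l = 0 ∨ l = 2 ^ (a - 2))) →
    e * yE g τ e i l = yE g τ e i l * e
  gen : R ≤ closure {x | ∃ i l, i < 3 ^ k ∧ x = yE g τ e i l}
  γE : ∀ i < 3 ^ k, ∀ l, γ i ^ (2 ^ (a - 1)) * yE g τ e i l * (γ i ^ (2 ^ (a - 1)))⁻¹ =
    (yE g τ e i l)⁻¹
  γB : ∀ i < 3 ^ k, ∀ l, γ i * yE g τ e i l * (γ i)⁻¹ ∈ closure {x | ∃ l, x = yE g τ e i l}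
  γc : ∀ i < 3 ^ k, ∀ x ∈ closure {x | ∃ l, x = yE g τ e i l},
    ∀ y ∈ closure {x | ∃ l, x = yE g τ e i l},
    γ i ^ (2 ^ (a - 1)) * (x * y * x⁻¹ * y⁻¹) = x * y * x⁻¹ * y⁻¹ * γ i ^ (2 ^ (a - 1))
  γ0 : ∀ i, 0 < i → i < 3 ^ k → γ i ^ (2 ^ (a - 2)) * c * (γ i ^ (2 ^ (a - 2)))⁻¹ = c⁻¹

end Pool.Agent.Lib.MP_544bd1_al
end

section

/-!
Theorem Z3: properties of a minimal configuration.
-/

namespace Pool.Agent.Lib.MP_544bd1_al

open Subgroup
open scoped commutatorElement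

/-- the norm over `R`, with values in the abelianization of `Q` -/
private noncomputable def zsIrrN {F : Type} [Group F] (Q R : Subgroup F) [Q.Normal] [Fintype R] :
    Q →* Abelianization Q where
  toFun q := ∏ g : R, Abelianization.of (MulAut.conjNormal (g : F) q)
  map_one' := by simp
  map_mul' a b := by simp only [map_mul, Finset.prod_mul_distrib]

private theorem zsIrrN_apply {F : Type} [Group F] (Q R : Subgroup F) [Q.Normal] [Fintype R] (q : Q) :
    zsIrrN Q R q = ∏ g : R, Abelianization.of (MulAut.conjNormal (g : F) q) := rfl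

private theorem zsIrrN_R {F : Type} [Group F] (Q R : Subgroup F) [Q.Normal] [Fintype R] (h : R)
    (q : Q) : zsIrrN Q R (MulAut.conjNormal (h : F) q) = zsIrrN Q R q := by
  rw [zsIrrN_apply, zsIrrN_apply]
  refine Fintype.prod_equiv (Equiv.mulRight h) _ _ fun g => ?_
  congr 1
  show MulAut.conjNormal (g : F) (MulAut.conjNormal (h : F) q) = MulAut.conjNormal ((g * h : R) : F) q
  rw [Subgroup.coe_mul, map_mul, MulAut.mul_apply]

private theorem zsIrrN_x {F : Type} [Group F] (Q R : Subgroup F) [Q.Normal] [Fintype R] (x : F)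
    (hx : ∀ g ∈ R, x * g * x⁻¹ ∈ R) (q : Q) :
    zsIrrN Q R (MulAut.conjNormal x q) =
      Abelianization.map (MulAut.conjNormal x : MulAut Q).toMonoidHom (zsIrrN Q R q) := by
  let σ : R → R := fun g => ⟨x * g * x⁻¹, hx g g.2⟩
  have hσ : Function.Injective σ := by
    intro a b hab
    have h1 : x * (a : F) * x⁻¹ = x * (b : F) * x⁻¹ := congrArg Subtype.val hab
    exact Subtype.ext (mul_left_cancel (mul_right_cancel h1))
  have hσb : Function.Bijective σ := Finite.injective_iff_bijective.mp hσ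
  rw [zsIrrN_apply, zsIrrN_apply, map_prod, ← (Equiv.ofBijective σ hσb).prod_comp]
  refine Finset.prod_congr rfl fun g _ => ?_
  rw [Abelianization.map_of]
  congr 1
  show MulAut.conjNormal (x * (g : F) * x⁻¹) (MulAut.conjNormal x q) =
    MulAut.conjNormal x (MulAut.conjNormal (g : F) q)
  rw [← MulAut.mul_apply, ← MulAut.mul_apply, ← map_mul, ← map_mul]
  congr 2
  group

/-- **Irreducibility**, `C_Q(R) = ker φ = ⁅Q, Q⁆`, of exponent 2.

Proof. `φ` vanishes on `⁅Q, Q⁆` (`φ` is additive, with values in a commutative group; closure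
induction, or `⁅Q, Q⁆ ≤` the subgroup `{q ∈ Q | φ q = 0}` of `F`).
(0) Let `Ab = Q ⧸ commutator Q` (or work with `Abelianization Q`), a commutative group, and for `q ∈ Q` let
`N q = ∏ g : R, [g * q * g⁻¹] ∈ Ab`; `N` is a homomorphism. `Q₁ = {q ∈ Q | N q = 1}` (as a subgroup of
`F`) is invariant under `R` (reindexing) and under `x` (`x` permutes `R` by conjugation and
normalizes `Q`; reindex, `Finite`). Suppose `Q₁ ≠ Q`; by `D.min` `R` centralizes `Q₁`. For `g ∈ R`,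
`q ∈ Q`: `q⁻¹ * (g * q * g⁻¹) ∈ Q₁` (`N (g * q * g⁻¹) = N q`), so `g` commutes with it, and by
`ev_coprime` (`a := 3`) `g` centralizes `Q`: contradiction to `D.ne`. So `Q₁ = Q`.
(1) If `q ∈ Q` is centralized by `R` then `1 = N q = [q] ^ (Nat.card R)`, so `q ^ (Nat.card R) ∈ ⁅Q, Q⁆`;
`Nat.card R` is a power of `r`, so odd, and `q ^ (2 ^ a) = 1`: `q` is a power of `q ^ (Nat.card R)`,
`q ∈ ⁅Q, Q⁆` and `φ q = 0`.
(2) If `φ q = 0` then `R` centralizes `q` (`M.ker`), so `q ∈ ⁅Q, Q⁆`. `q ^ 2 = 1`: for `a, b ∈ Q`,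
`c = a * b * a⁻¹ * b⁻¹` is central in `Q` (`φ c = 0`, `M.ker`) and `a ^ 2` is central in `Q`
(`φ (a ^ 2) = φ a + φ a = 0`), so `c ^ 2 = a ^ 2 * b * (a ^ 2)⁻¹ * b⁻¹ = 1`; `⁅Q, Q⁆` is generated by
commuting involutions (closure induction).
(3) There is `v ≠ 0`: otherwise `φ = 0` and `R` centralizes `Q` (`M.ker`). Let `W` be invariant,
`Q' = {q ∈ Q | φ q ∈ W}`; if `Q' = Q` then `W = ⊤` (`M.surj`); otherwise `R` centralizes `Q'` by `D.min`,
so `φ = 0` on `Q'` by (1), and `W = ⊥`. -/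
theorem zs_irr {F : Type} [Group F] [Finite F] {r a : ℕ} (hr : r.Prime) (hr2 : r ≠ 2)
    {Q R : Subgroup F} [Q.Normal] {x : F} (D : ZsCore r a Q R x) {V : Type} [AddCommGroup V]
    [Module (ZMod 2) V] {τ : F →* Module.End (ZMod 2) V} {φ : Q → V} (M : ZMd Q R τ φ) :
    (∀ q : Q, (∀ g ∈ R, g * (q : F) = q * g) → φ q = 0) ∧
      (∀ q : Q, φ q = 0 → (q : F) ∈ ⁅Q, Q⁆ ∧ (q : F) ^ 2 = 1) ∧ (∃ v : V, v ≠ 0) ∧
      ∀ W : Submodule (ZMod 2) V, (∀ g ∈ R, ∀ v ∈ W, τ g v ∈ W) → (∀ v ∈ W, τ x v ∈ W) →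
        W = ⊥ ∨ W = ⊤ := by
  classical
  have hFR : Fintype R := Fintype.ofFinite R
  -- `φ` as a homomorphism
  have hφ1 : φ 1 = 0 := by
    have h1 := M.add 1 1
    rw [mul_one] at h1
    exact (left_eq_add.1 h1)
  let Φ : Q →* Multiplicative V :=
    { toFun := fun q => Multiplicative.ofAdd (φ q)
      map_one' := by rw [hφ1]; rfl
      map_mul' := fun a b => by rw [M.add]; rfl }
  have hΦ : ∀ q, Φ q = 1 ↔ φ q = 0 := fun q => Iff.rfl
  have hcom : ∀ q : Q, q ∈ commutator Q → φ q = 0 := fun q hq =>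
    (hΦ q).mp (Abelianization.commutator_subset_ker Φ hq)
  have hφi : ∀ q : Q, φ q⁻¹ = -φ q := by
    intro q
    have h1 := M.add q q⁻¹
    rw [mul_inv_cancel, hφ1] at h1
    exact (neg_eq_of_add_eq_zero_right h1.symm).symm
  -- step 0
  have hN : ∀ q : Q, zsIrrN Q R q = 1 := by
    by_contra hne
    push Not at hne
    obtain ⟨q0, hq0⟩ := hne
    have hQ1 : ∀ g ∈ R, ∀ q ∈ (zsIrrN Q R).ker.map Q.subtype, g * q = q * g := by
      refine D.min _ ?_ ?_ ?_ ?_
      · rintro _ ⟨q, _, rfl⟩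
        exact q.2
      · intro he
        have h1 : (q0 : F) ∈ (zsIrrN Q R).ker.map Q.subtype := by
          rw [he]; exact q0.2
        obtain ⟨q, hq, hqq⟩ := h1
        have h2 : q = q0 := Subtype.ext hqq
        rw [h2] at hq
        exact hq0 hq
      · rintro g hg _ ⟨q, hq, rfl⟩
        refine ⟨MulAut.conjNormal g q, ?_, ?_⟩
        · show zsIrrN Q R (MulAut.conjNormal ((⟨g, hg⟩ : R) : F) q) = 1
          rw [zsIrrN_R]
          exact hq
        · exact MulAut.conjNormal_apply g q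
      · rintro _ ⟨q, hq, rfl⟩
        refine ⟨MulAut.conjNormal x q, ?_, ?_⟩
        · show zsIrrN Q R (MulAut.conjNormal x q) = 1
          rw [zsIrrN_x Q R x D.hxR, (show zsIrrN Q R q = 1 from hq), map_one]
        · exact MulAut.conjNormal_apply x q
    obtain ⟨g, hg, q, hq, hgq⟩ := D.ne
    refine hgq (ev_coprime hr hr2 Q R D.hQ D.hR hg ?_ ?_ q hq)
    · intro q hq
      exact (inferInstance : Q.Normal).conj_mem q hq g
    · intro q hq
      refine hQ1 g hg _ ⟨(⟨q, hq⟩ : Q)⁻¹ * MulAut.conjNormal g ⟨q, hq⟩, ?_, ?_⟩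
      · show zsIrrN Q R _ = 1
        rw [map_mul, map_inv]
        have h1 := zsIrrN_R Q R ⟨g, hg⟩ ⟨q, hq⟩
        rw [show (MulAut.conjNormal g ⟨q, hq⟩ : Q) = MulAut.conjNormal ((⟨g, hg⟩ : R) : F) ⟨q, hq⟩ from rfl,
          h1, inv_mul_cancel]
      · show ((⟨q, hq⟩ : Q)⁻¹ : F) * ((MulAut.conjNormal g ⟨q, hq⟩ : Q) : F) = _
        rw [MulAut.conjNormal_apply]
  -- step 1
  have hodd : Nat.Coprime (Nat.card R) (2 ^ a) := by
    have : Fact r.Prime := ⟨hr⟩
    obtain ⟨k, hk⟩ := (IsPGroup.iff_card (p := r) (G := R)).mp D.hR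
    rw [hk]
    exact Nat.Coprime.pow _ _ ((Nat.coprime_primes hr Nat.prime_two).2 hr2)
  have h1 : ∀ q : Q, (∀ g ∈ R, g * (q : F) = q * g) → q ∈ commutator Q := by
    intro q hq
    have h2 : ∀ g : R, (MulAut.conjNormal (g : F) q : Q) = q := by
      intro g
      refine Subtype.ext ?_
      rw [MulAut.conjNormal_apply, hq g g.2, mul_inv_cancel_right]
    have h3 := hN q
    rw [zsIrrN_apply, Finset.prod_congr rfl fun g _ => congrArg Abelianization.of (h2 g),
      Finset.prod_const, Finset.card_univ, ← map_pow] at h3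
    have h4 : q ^ Fintype.card R ∈ commutator Q := by
      rw [← Abelianization.ker_of]
      exact h3
    have h5 : q ^ (2 ^ a) = 1 := Subtype.ext (by simpa using D.hQ q q.2)
    have h6 : Nat.Coprime (Fintype.card R) (orderOf q) := by
      rw [← Nat.card_eq_fintype_card]
      exact Nat.Coprime.coprime_dvd_right (orderOf_dvd_of_pow_eq_one h5) hodd
    obtain ⟨b, hb⟩ := exists_pow_eq_self_of_coprime h6
    rw [← hb]
    exact Subgroup.pow_mem _ h4 b
  have hmap : ∀ q : Q, q ∈ commutator Q → (q : F) ∈ ⁅Q, Q⁆ := by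
    intro q hq
    rw [← Subgroup.map_subtype_commutator]
    exact ⟨q, hq, rfl⟩
  have h1' : ∀ q : Q, (∀ g ∈ R, g * (q : F) = q * g) → φ q = 0 := fun q hq => hcom q (h1 q hq)
  -- step 2
  have hV2 : ∀ v : V, v + v = 0 := by
    intro v
    have h2 : ((1 : ZMod 2) + 1) • v = 0 := by
      rw [show (1 : ZMod 2) + 1 = 0 from rfl, zero_smul]
    rwa [add_smul, one_smul] at h2
  have hcen : ∀ q : Q, φ q = 0 → ∀ y : Q, q * y = y * q := fun q hq y =>
    Subtype.ext ((M.ker q hq).2 y y.2)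
  have hsq : ∀ q : Q, q ∈ commutator Q → q ^ 2 = 1 := by
    let T : Subgroup Q :=
      { carrier := {q | φ q = 0 ∧ q ^ 2 = 1}
        one_mem' := ⟨hφ1, one_pow 2⟩
        mul_mem' := by
          rintro a b ⟨ha, ha2⟩ ⟨hb, hb2⟩
          refine ⟨by rw [M.add, ha, hb, add_zero], ?_⟩
          rw [(show Commute a b from hcen a ha b).mul_pow, ha2, hb2, one_mul]
        inv_mem' := by
          rintro a ⟨ha, ha2⟩
          refine ⟨by rw [hφi, ha, neg_zero], ?_⟩
          rw [inv_pow, ha2, inv_one] }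
    have hT : commutator Q ≤ T := by
      rw [_root_.commutator_def, Subgroup.commutator_le]
      intro a _ b _
      have hc : φ ⁅a, b⁆ = 0 := hcom _ (Subgroup.commutator_mem_commutator
        (Subgroup.mem_top a) (Subgroup.mem_top b))
      have hcc := hcen _ hc
      refine ⟨hc, ?_⟩
      have ha2 : φ (a ^ 2) = 0 := by rw [pow_two, M.add, hV2]
      have hac := hcen _ ha2 b
      -- `a b a⁻¹ = c b`
      have e1 : a * b = ⁅a, b⁆ * b * a := by rw [commutatorElement_def]; group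
      have e2 : a ^ 2 * b = ⁅a, b⁆ ^ 2 * b * a ^ 2 := by
        calc a ^ 2 * b = a * (a * b) := by rw [pow_two, mul_assoc]
          _ = a * (⁅a, b⁆ * b * a) := by rw [← e1]
          _ = (a * ⁅a, b⁆) * b * a := by group
          _ = (⁅a, b⁆ * a) * b * a := by rw [hcc a]
          _ = ⁅a, b⁆ * (a * b) * a := by group
          _ = ⁅a, b⁆ * (⁅a, b⁆ * b * a) * a := by rw [← e1]
          _ = ⁅a, b⁆ ^ 2 * b * a ^ 2 := by rw [pow_two, pow_two]; group
      rw [hac, mul_assoc] at e2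
      exact (right_eq_mul.mp e2)
    exact fun q hq => (hT hq).2
  have h2 : ∀ q : Q, φ q = 0 → (q : F) ∈ ⁅Q, Q⁆ ∧ (q : F) ^ 2 = 1 := by
    intro q hq
    have h3 := h1 q (M.ker q hq).1
    exact ⟨hmap q h3, by simpa using congrArg Subtype.val (hsq q h3)⟩
  refine ⟨h1', h2, ?_, ?_⟩
  · by_contra hv
    push Not at hv
    obtain ⟨g, hg, q, hq, hgq⟩ := D.ne
    exact hgq ((M.ker ⟨q, hq⟩ (hv _)).1 g hg)
  · intro W hWR hWx
    let Q' : Subgroup F :=
      { carrier := {q | ∃ h : q ∈ Q, φ ⟨q, h⟩ ∈ W}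
        one_mem' := ⟨Q.one_mem, by
          rw [show (⟨1, Q.one_mem⟩ : Q) = 1 from rfl, hφ1]; exact W.zero_mem⟩
        mul_mem' := by
          rintro a b ⟨ha, ha'⟩ ⟨hb, hb'⟩
          refine ⟨Q.mul_mem ha hb, ?_⟩
          have h3 := M.add ⟨a, ha⟩ ⟨b, hb⟩
          rw [show (⟨a * b, Q.mul_mem ha hb⟩ : Q) = ⟨a, ha⟩ * ⟨b, hb⟩ from rfl, h3]
          exact W.add_mem ha' hb'
        inv_mem' := by
          rintro a ⟨ha, ha'⟩
          refine ⟨Q.inv_mem ha, ?_⟩
          rw [show (⟨a⁻¹, Q.inv_mem ha⟩ : Q) = (⟨a, ha⟩ : Q)⁻¹ from rfl, hφi]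
          exact W.neg_mem ha' }
    by_cases hQ' : Q' = Q
    · right
      rw [eq_top_iff]
      intro v _
      obtain ⟨q, rfl⟩ := M.surj v
      have h3 : (q : F) ∈ Q' := by rw [hQ']; exact q.2
      obtain ⟨h4, h5⟩ := h3
      exact h5
    · left
      rw [eq_bot_iff]
      intro v hv
      obtain ⟨q, rfl⟩ := M.surj v
      have h3 : ∀ g ∈ R, ∀ q ∈ Q', g * q = q * g := by
        refine D.min Q' ?_ hQ' ?_ ?_
        · rintro q ⟨h4, _⟩
          exact h4
        · rintro g hg q ⟨h4, h5⟩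
          refine ⟨(inferInstance : Q.Normal).conj_mem q h4 g, ?_⟩
          rw [M.eqv g ⟨q, h4⟩]
          exact hWR g hg _ h5
        · rintro q ⟨h4, h5⟩
          refine ⟨(inferInstance : Q.Normal).conj_mem q h4 x, ?_⟩
          rw [M.eqv x ⟨q, h4⟩]
          exact hWx _ h5
      rw [Submodule.mem_bot]
      exact h1' q fun g hg => h3 g hg q ⟨q.2, hv⟩

end Pool.Agent.Lib.MP_544bd1_al
end

section

/-!
Theorem Z3, section 5: the strengthened Theorem L over an algebraically closed field.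
-/

namespace Pool.Agent.Lib.MP_544bd1_al

open Finset Subgroup


/-- an element of a finite `r`-group, `r` odd, is a power of its square -/
private theorem zt_LL_sq {r : ℕ} (hr : r.Prime) (hr2 : r ≠ 2) {R : Type} [Group R] [Finite R]
    (hR : IsPGroup r R) (x : R) : ∃ n : ℕ, x = (x * x) ^ n := by
  obtain ⟨k, hk⟩ := hR x
  have hodd : Odd (r ^ k) := (hr.odd_of_ne_two hr2).pow
  obtain ⟨m, hm⟩ := hodd
  refine ⟨m + 1, ?_⟩
  rw [← pow_two, ← pow_mul]
  have h1 : 2 * (m + 1) = r ^ k + 1 := by omega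
  rw [h1, pow_succ, hk, one_mul]

/-- commuting with the square is commuting -/
private theorem zt_LL_comm {M : Type} [Monoid M] {a b c : M} (n : ℕ) (h : a = c ^ n)
    (hc : c * b = b * c) : a * b = b * a := by
  have h1 : Commute c b := hc
  have h2 : Commute (c ^ n) b := h1.pow_left n
  rw [h]
  exact h2

/-- **Strengthened Theorem L** over an algebraically closed field of characteristic 2: `R` acts as a
noncommutative group of class 2, inverted modulo its center by `ξ = α^[2 ^ (a - 1)]`. Then there are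
subgroups `Λ`, `Rd` of `R`, `Rd` the radical of the commutator modulo `Λ`, of index
`(2 ^ b - 1) ^ 2 > 1` with `0 < b ≤ a`.

Proof. Strong induction on `d`, very close to the proof of `ev_ab` (EvA.lean). Suppose the conclusion
is false (`by_contra`).
(1) `V` is nontrivial (`hne`). If `W` is a submodule, invariant under `ρ` and `U`, `W ≠ ⊥, ⊤`: let `ρ'` be
the action on `W` (`LDat.sub` with `k := 1`), `ρ''` the action on `V ⧸ W` (`LDat.quot`). If
`ρ' (x * y) ≠ ρ' (y * x)` for some `x, y`, the induction hypothesis for `W` gives the conclusion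
(the groups `Λ`, `Rd` are subgroups of `R`); similarly for `V ⧸ W`. Otherwise for all `x, y`
`c = x * y * x⁻¹ * y⁻¹` acts trivially on `W` and on `V ⧸ W`, so `ρ c = 1` by `tw_unip`, contradiction to
`hne`. So `V` is irreducible.
(2) `∃ x, ρ (α^[2 ^ (a - 1)] x) ≠ ρ x`: otherwise by `hinv` every `ρ (x ^ 2)` commutes with all `ρ y`, and
`x` is a power of `x ^ 2` (`r` odd), so `ρ (x * y) = ρ (y * x)`. If `ρ x` commutes with all `ρ y` then
`ρ x` is a scalar, by `tw_L3`: for `hind`, let `W`, `b` be as there, `α', ρ', U', D'` from `LDat.sub`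
(`k := 2 ^ b`, `q' := 2 ^ (a - b)`, as in `ev_ab`); if `ρ'` is not commutative the induction hypothesis
(for `W`, `a - b`; `α'^[2 ^ (a - b - 1)] x = α^[2 ^ (a - 1)] x`) gives the conclusion (`b' ≤ a - b ≤ a`);
otherwise `ev_ab` for `W` gives `ρ' (α'^[2 ^ (a - b - 1)] x) = ρ' x`.
(3) As in `tw_L` (S4) (TwL.lean): `ρ' = ρ.toHomUnits`, `u = Units.ofPowEqOne U (2 ^ a)`,
`z = u ^ (2 ^ (a - 1))`, `Γ = ρ'.range`; `zt_L5` applies: `h1` from `hcl`; `h2`: by `hinv`
`(z * x * z⁻¹) * x` is central in `Γ`, so if `x⁻¹ * (z * x * z⁻¹)` is central then so is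
`x ^ 2 = ((x⁻¹ * (z * x * z⁻¹))⁻¹) * (z * x * z⁻¹) * x`-like (commute everything modulo the center), and `x`
is a power of `x ^ 2`; `hno` from `hne`. So `Nat.card (Γ ⧸ center Γ) = (2 ^ a - 1) ^ 2 > 1`. Let
`Λ = ρ'.ker`, `Rd = (center Γ).comap ρ'.rangeRestrict`: `x ∈ Rd` iff all `x * y * x⁻¹ * y⁻¹ ∈ Λ`, and
`Rd.index = (center Γ).index` (`Subgroup.index_comap_of_surjective`), `b = a`. -/
theorem zt_LL {K : Type} [Field K] [IsAlgClosed K] [CharP K 2] {r : ℕ} (hr : r.Prime)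
    (hr2 : r ≠ 2) (d : ℕ) :
    ∀ (V R : Type) [AddCommGroup V] [Module K V] [FiniteDimensional K V] [Group R] [Finite R]
      (a : ℕ) (α : R →* R) (ρ : R →* Module.End K V) (U : Module.End K V),
      Module.finrank K V = d → IsPGroup r R → 0 < a →
      (∀ x y w, ρ (x * y * x⁻¹ * y⁻¹ * w) = ρ (w * (x * y * x⁻¹ * y⁻¹))) →
      (∀ x y, ρ (α^[2 ^ (a - 1)] x * x * y) = ρ (y * (α^[2 ^ (a - 1)] x * x))) →
      LDat (2 ^ a) α ρ U → (∃ x y, ρ (x * y) ≠ ρ (y * x)) →
      ∃ (Λ Rd : Subgroup R) (b : ℕ), (∀ x, x ∈ Rd ↔ ∀ y, x * y * x⁻¹ * y⁻¹ ∈ Λ) ∧ 0 < b ∧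
        b ≤ a ∧ Rd.index = (2 ^ b - 1) ^ 2 ∧ 1 < Rd.index := by
  induction d using Nat.strong_induction_on with
  | _ d ih =>
  intro V R _ _ _ _ _ a α ρ U hd hR ha hcl hinv D hne
  by_contra hcon
  have hp : Nat.Prime 2 := Nat.prime_two
  have hV : Nontrivial V := by
    by_contra h
    rw [not_nontrivial_iff_subsingleton] at h
    obtain ⟨x, y, hxy⟩ := hne
    apply hxy
    apply LinearMap.ext
    intro v
    exact Subsingleton.elim _ _
  -- invariant subspaces, with a power of `U`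
  have hsubW : ∀ (W : Submodule K V) (b : ℕ), W ≠ ⊤ → (∀ x, ∀ w ∈ W, ρ x w ∈ W) → b < a →
      ∀ (α' : R →* R) (ρ' : R →* Module.End K W) (U' : Module.End K W),
      LDat (2 ^ (a - b)) α' ρ' U' → (∀ x w, ((ρ' x w : W) : V) = ρ x w) →
      (∀ (j : ℕ) (x : R), α'^[j] x = α^[2 ^ b * j] x) → ∀ x y, ρ' (x * y) = ρ' (y * x) := by
    intro W b hWt hW hba α' ρ' U' D' hρ' hα'
    by_contra hc
    apply hcon
    have hne' : ∃ x y, ρ' (x * y) ≠ ρ' (y * x) := by
      by_contra h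
      apply hc
      intro x y
      by_contra h'
      exact h ⟨x, y, h'⟩
    have hlt : Module.finrank K W < Module.finrank K V := Submodule.finrank_lt hWt
    have heq : ∀ g h : R, ρ g = ρ h → ρ' g = ρ' h := by
      intro g h hgh
      apply LinearMap.ext
      intro w
      apply Subtype.ext
      rw [hρ', hρ', hgh]
    have hexp : 2 ^ b * 2 ^ (a - b - 1) = 2 ^ (a - 1) := by
      rw [← pow_add]
      congr 1
      omega
    obtain ⟨Λ, Rd, b', h1, h2, h3, h4, h5⟩ := ih (Module.finrank K W) (by omega) W R (a - b) α' ρ'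
      U' rfl hR (by omega) (fun x y w => heq _ _ (hcl x y w))
      (fun x y => by
        rw [hα', hexp]
        exact heq _ _ (hinv x y)) D' hne'
    exact ⟨Λ, Rd, b', h1, h2, by omega, h4, h5⟩
  -- irreducibility
  have hirr : ∀ W : Submodule K V, (∀ x, ∀ w ∈ W, ρ x w ∈ W) → (∀ w ∈ W, U w ∈ W) →
      W = ⊥ ∨ W = ⊤ := by
    intro W hW hWU
    by_contra h
    rw [not_or] at h
    obtain ⟨h0, h1⟩ := h
    have hlt : Module.finrank K W < Module.finrank K V := Submodule.finrank_lt h1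
    have hpos : 0 < Module.finrank K W := by
      rw [Nat.pos_iff_ne_zero]
      intro h
      exact h0 (Submodule.finrank_eq_zero.1 h)
    have hlt2 : Module.finrank K (V ⧸ W) < Module.finrank K V := by
      have := Submodule.finrank_quotient_add_finrank W
      omega
    obtain ⟨α', ρ', U', D', hρ', hα'⟩ := D.sub (k := 2 ^ 0) (q' := 2 ^ (a - 0)) (by simp) W hW
      (by intro w hw; rw [pow_zero, pow_one]; exact hWU w hw)
      (by
        intro w hw
        rw [pow_zero, pow_one, Nat.sub_zero, D.hN]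
        rfl)
    have e1 := hsubW W 0 h1 hW ha α' ρ' U' D' hρ' hα'
    obtain ⟨ρ'', U'', D'', hρ''⟩ := D.quot W hW hWU
    have heq : ∀ g h : R, ρ g = ρ h → ρ'' g = ρ'' h := by
      intro g h hgh
      apply LinearMap.ext
      intro w
      obtain ⟨v, rfl⟩ := W.mkQ_surjective w
      rw [hρ'', hρ'', hgh]
    have e2 : ∀ x y, ρ'' (x * y) = ρ'' (y * x) := by
      by_contra hc
      apply hcon
      have hne' : ∃ x y, ρ'' (x * y) ≠ ρ'' (y * x) := by
        by_contra h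
        apply hc
        intro x y
        by_contra h'
        exact h ⟨x, y, h'⟩
      exact ih (Module.finrank K (V ⧸ W)) (by omega) (V ⧸ W) R a α ρ'' U'' rfl hR ha
        (fun x y w => heq _ _ (hcl x y w)) (fun x y => heq _ _ (hinv x y)) D'' hne'
    obtain ⟨x, y, hxy⟩ := hne
    apply hxy
    have hw1 : ∀ w ∈ W, ρ (x * y) w = ρ (y * x) w := by
      intro w hw
      have h3 := congrArg (fun f : Module.End K W => ((f ⟨w, hw⟩ : W) : V)) (e1 x y)
      simp only [hρ'] at h3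
      exact h3
    have hw2 : ∀ v, ρ (x * y) v - ρ (y * x) v ∈ W := by
      intro v
      have h3 := congrArg (fun f : Module.End K (V ⧸ W) => f (W.mkQ v)) (e2 x y)
      simp only [hρ''] at h3
      rw [← sub_eq_zero, ← map_sub, ← LinearMap.mem_ker, Submodule.ker_mkQ] at h3
      exact h3
    have hy : ρ ((y * x)⁻¹ * (x * y)) = 1 := by
      apply tw_unip hr hr2 hR ρ W
      · intro w hw
        rw [map_mul, Module.End.mul_apply, hw1 w hw, ← Module.End.mul_apply, ← map_mul,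
          inv_mul_cancel, map_one, Module.End.one_apply]
      · intro v
        have h4 : ρ ((y * x)⁻¹ * (x * y)) v - v =
            ρ (y * x)⁻¹ (ρ (x * y) v - ρ (y * x) v) := by
          rw [map_sub, ← Module.End.mul_apply, ← Module.End.mul_apply, ← map_mul, ← map_mul,
            inv_mul_cancel, map_one, Module.End.one_apply]
        rw [h4]
        exact hW _ _ (hw2 v)
    calc ρ (x * y) = ρ (y * x) * ρ ((y * x)⁻¹ * (x * y)) := by
          rw [← map_mul, mul_inv_cancel_left]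
      _ = ρ (y * x) := by rw [hy, mul_one]
  -- a nontrivial action of the involution
  have hno : ∃ x, ρ (α^[2 ^ (a - 1)] x) ≠ ρ x := by
    by_contra h
    have h1 : ∀ x, ρ (α^[2 ^ (a - 1)] x) = ρ x := by
      intro x
      by_contra h'
      exact h ⟨x, h'⟩
    obtain ⟨x, y, hxy⟩ := hne
    apply hxy
    have h2 := hinv x y
    rw [map_mul, map_mul, map_mul, map_mul, h1] at h2
    obtain ⟨n, hn⟩ := zt_LL_sq hr hr2 hR x
    have h3 : ρ x = (ρ x * ρ x) ^ n := by
      rw [← map_mul, ← map_pow, ← hn]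
    rw [map_mul, map_mul]
    exact zt_LL_comm n h3 h2
  -- central elements are scalars
  have hscal : ∀ x, (∀ y, ρ x * ρ y = ρ y * ρ x) → ∃ c : K, ρ x = c • 1 := by
    intro x hx
    apply tw_L3 ha D hirr _ hno x hx
    intro W b hWt hW hb hba hWU hN y w hw
    have hpow : 2 ^ b * 2 ^ (a - b) = 2 ^ a := by
      rw [← pow_add]
      congr 1
      omega
    obtain ⟨α', ρ', U', D', hρ', hα'⟩ := D.sub hpow W hW hWU hN
    have e1 := hsubW W b hWt hW hba α' ρ' U' D' hρ' hα'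
    have e2 := ev_ab hr hr2 _ W R (a - b) α' ρ' U' rfl hR (by omega)
      (fun x y => by rw [← map_mul, e1, map_mul]) D' y
    have h3 := congrArg (fun f : Module.End K W => ((f ⟨w, hw⟩ : W) : V)) e2
    simp only [hρ', hα'] at h3
    have hexp : 2 ^ b * 2 ^ (a - b - 1) = 2 ^ (a - 1) := by
      rw [← pow_add]
      congr 1
      omega
    rw [hexp] at h3
    exact h3
  -- the group `Γ`
  have hq0 : 2 ^ a ≠ 0 := pow_ne_zero _ hp.ne_zero
  let ρ' : R →* (Module.End K V)ˣ := ρ.toHomUnits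
  have hρ' : ∀ x, ((ρ' x : (Module.End K V)ˣ) : Module.End K V) = ρ x := fun x => rfl
  let u : (Module.End K V)ˣ := Units.ofPowEqOne U (2 ^ a) D.hq hq0
  have huU : (u : Module.End K V) = U := rfl
  have hu : u ^ (2 ^ a) = 1 := by
    apply Units.ext
    rw [Units.val_pow_eq_pow_val, huU, D.hq, Units.val_one]
  have hconj : ∀ (k : ℕ) (x : R), u ^ k * ρ' x * (u ^ k)⁻¹ = ρ' (α^[k] x) := by
    intro k x
    rw [mul_inv_eq_iff_eq_mul]
    apply Units.ext
    rw [Units.val_mul, Units.val_mul, Units.val_pow_eq_pow_val, huU, hρ', hρ']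
    exact D.iter k x
  set z : (Module.End K V)ˣ := u ^ (2 ^ (a - 1)) with hz
  let Γ : Subgroup (Module.End K V)ˣ := ρ'.range
  have hΓfin : Finite Γ := Set.finite_range ρ'
  have hΓ : IsPGroup r Γ := hR.of_surjective ρ'.rangeRestrict ρ'.rangeRestrict_surjective
  have huΓ : ∀ x ∈ Γ, u * x * u⁻¹ ∈ Γ := by
    rintro _ ⟨x, rfl⟩
    have := hconj 1 x
    rw [pow_one] at this
    rw [this]
    exact ⟨_, rfl⟩
  have hscal' : ∀ x ∈ Γ, (∀ y ∈ Γ, x * y = y * x) → ∃ c : K, (x : Module.End K V) = c • 1 := by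
    rintro _ ⟨x, rfl⟩ hx
    apply hscal x
    intro y
    have := congrArg Units.val (hx (ρ' y) ⟨y, rfl⟩)
    exact this
  have h1 : ∀ x ∈ Γ, ∀ y ∈ Γ, ∀ w ∈ Γ,
      (x * y * x⁻¹ * y⁻¹) * w = w * (x * y * x⁻¹ * y⁻¹) := by
    rintro _ ⟨x, rfl⟩ _ ⟨y, rfl⟩ _ ⟨w, rfl⟩
    rw [← map_inv, ← map_inv, ← map_mul, ← map_mul, ← map_mul, ← map_mul, ← map_mul]
    apply Units.ext
    exact hcl x y w
  have h2 : ∀ x ∈ Γ, (∀ w ∈ Γ, (x⁻¹ * (z * x * z⁻¹)) * w = w * (x⁻¹ * (z * x * z⁻¹))) →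
      ∀ w ∈ Γ, x * w = w * x := by
    rintro _ ⟨x, rfl⟩ hx _ ⟨w, rfl⟩
    obtain ⟨n, hn⟩ := zt_LL_sq hr hr2 hR x
    have h3 : ρ' x = (ρ' x * ρ' x) ^ n := by
      rw [← map_mul, ← map_pow, ← hn]
    refine zt_LL_comm n h3 ?_
    have hxz : z * ρ' x * z⁻¹ = ρ' (α^[2 ^ (a - 1)] x) := hconj _ x
    rw [hxz] at hx
    have h4 : ρ' (α^[2 ^ (a - 1)] x) * ρ' x * ρ' w = ρ' w * (ρ' (α^[2 ^ (a - 1)] x) * ρ' x) := by
      rw [← map_mul, ← map_mul, ← map_mul]
      apply Units.ext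
      exact hinv x w
    set y := ρ' (α^[2 ^ (a - 1)] x) with hy
    have h5 := hx (ρ' x) ⟨x, rfl⟩
    have h6 := hx (ρ' w) ⟨w, rfl⟩
    have h7 : ρ' x * ρ' x = ((ρ' x)⁻¹ * y)⁻¹ * (y * ρ' x) := by
      have h8 : ((ρ' x)⁻¹ * y) * (ρ' x * ρ' x) = y * ρ' x := by
        rw [← mul_assoc, h5, ← mul_assoc, mul_inv_cancel, one_mul]
      rw [← h8, inv_mul_cancel_left]
    have h9 : Commute ((ρ' x)⁻¹ * y) (ρ' w) := h6
    have h10 : Commute (y * ρ' x) (ρ' w) := h4
    have h11 : Commute (((ρ' x)⁻¹ * y)⁻¹ * (y * ρ' x)) (ρ' w) := h9.inv_left.mul_left h10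
    rw [h7]
    exact h11
  have hno' : ∃ x ∈ Γ, ∃ y ∈ Γ, x * y ≠ y * x := by
    obtain ⟨x, y, hxy⟩ := hne
    refine ⟨ρ' x, ⟨x, rfl⟩, ρ' y, ⟨y, rfl⟩, fun h => hxy ?_⟩
    rw [map_mul, map_mul]
    exact congrArg Units.val h
  obtain ⟨hc1, hc2⟩ := zt_L5 (K := K) (V := V) hr hr2 ha Γ hΓ u z hu hz huΓ
    (by
      intro W hW hWU
      exact hirr W (fun x w hw => hW (ρ' x) ⟨x, rfl⟩ w hw) hWU) hscal' h1 h2 hno'
    (by rw [huU]; exact D.hN)
  apply hcon
  have hindex : ((center Γ).comap ρ'.rangeRestrict).index = Nat.card (Γ ⧸ center Γ) := by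
    rw [Subgroup.index_comap_of_surjective _ ρ'.rangeRestrict_surjective]
    rfl
  refine ⟨ρ'.ker, (center Γ).comap ρ'.rangeRestrict, a, ?_, ha, le_rfl, ?_, ?_⟩
  · intro x
    rw [Subgroup.mem_comap, Subgroup.mem_center_iff]
    constructor
    · intro h y
      rw [MonoidHom.mem_ker, map_mul, map_mul, map_mul, map_inv, map_inv]
      have h3 := congrArg Subtype.val (h (ρ'.rangeRestrict y))
      have h4 : ρ' y * ρ' x = ρ' x * ρ' y := h3
      rw [← h4, mul_inv_cancel_right, mul_inv_cancel]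
    · rintro h ⟨_, y, rfl⟩
      apply Subtype.ext
      show ρ' y * ρ' x = ρ' x * ρ' y
      have h3 := h y
      rw [MonoidHom.mem_ker, map_mul, map_mul, map_mul, map_inv, map_inv,
        mul_inv_eq_one, mul_inv_eq_iff_eq_mul] at h3
      exact h3.symm
  · rw [hindex, hc1]
  · rw [hindex]
    exact hc2

/-- **Strengthened Theorem L** over the prime field.

Proof. Extension of scalars, as in `ev_abZ` (EvA.lean). -/
theorem zt_LZ {r a : ℕ} (hr : r.Prime) (hr2 : r ≠ 2) (ha : 0 < a)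
    {V R : Type} [AddCommGroup V] [Module (ZMod 2) V] [Finite V] [Group R] [Finite R]
    (hR : IsPGroup r R) {α : R →* R} {ρ : R →* Module.End (ZMod 2) V}
    {U : Module.End (ZMod 2) V}
    (hcl : ∀ x y w, ρ (x * y * x⁻¹ * y⁻¹ * w) = ρ (w * (x * y * x⁻¹ * y⁻¹)))
    (hinv : ∀ x y, ρ (α^[2 ^ (a - 1)] x * x * y) = ρ (y * (α^[2 ^ (a - 1)] x * x)))
    (D : LDat (2 ^ a) α ρ U) (hne : ∃ x y, ρ (x * y) ≠ ρ (y * x)) :
    ∃ (Λ Rd : Subgroup R) (b : ℕ), (∀ x, x ∈ Rd ↔ ∀ y, x * y * x⁻¹ * y⁻¹ ∈ Λ) ∧ 0 < b ∧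
      b ≤ a ∧ Rd.index = (2 ^ b - 1) ^ 2 ∧ 1 < Rd.index := by
  have hfin : Module.Finite (ZMod 2) V := Module.Finite.of_finite
  have hch : CharP (AlgebraicClosure (ZMod 2)) 2 :=
    charP_of_injective_algebraMap (algebraMap (ZMod 2) (AlgebraicClosure (ZMod 2))).injective 2
  let β := Module.End.baseChangeHom (ZMod 2) (AlgebraicClosure (ZMod 2)) V
  have hβ : ∀ (f : Module.End (ZMod 2) V) (v : V), β f ((1 : AlgebraicClosure (ZMod 2)) ⊗ₜ v) =
      (1 : AlgebraicClosure (ZMod 2)) ⊗ₜ f v := by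
    intro f v
    exact LinearMap.baseChange_tmul _ _ _
  have D' : LDat (2 ^ a) α ((β : Module.End (ZMod 2) V →* _).comp ρ) (β U) := by
    refine ⟨fun x => ?_, ?_, ?_⟩
    · show β U * β (ρ x) = β (ρ (α x)) * β U
      rw [← map_mul, D.hU, map_mul]
    · rw [← map_pow, D.hq, map_one]
    · simp_rw [← map_pow]
      rw [← map_sum, D.hN, map_zero]
  refine zt_LL hr hr2 _ _ R a α _ (β U) rfl hR ha (fun x y w => ?_) (fun x y => ?_) D' ?_
  · show β (ρ _) = β (ρ _)
    rw [hcl]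
  · show β (ρ _) = β (ρ _)
    rw [hinv]
  · obtain ⟨x, y, hxy⟩ := hne
    refine ⟨x, y, fun h => hxy ?_⟩
    have h' : β (ρ (x * y)) = β (ρ (y * x)) := h
    apply LinearMap.ext
    intro v
    apply Module.FaithfullyFlat.tensorProduct_mk_injective (A := ZMod 2)
      (B := AlgebraicClosure (ZMod 2)) V
    show (1 : AlgebraicClosure (ZMod 2)) ⊗ₜ[ZMod 2] _ =
      (1 : AlgebraicClosure (ZMod 2)) ⊗ₜ[ZMod 2] _
    rw [← hβ, ← hβ, h']

end Pool.Agent.Lib.MP_544bd1_al
end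

section

/-!
Theorem Z (paper 287), (L2) for every weight of the commutator subgroup, over an algebraically closed
field.
-/

namespace Pool.Agent.Lib.MP_544bd1_al

open Finset Subgroup

/-- an element of a finite `r`-group, `r` odd, is a power of its square -/
private theorem ys_wt_sq {r : ℕ} (hr : r.Prime) (hr2 : r ≠ 2) {R : Type} [Group R] [Finite R]
    (hR : IsPGroup r R) (x : R) : ∃ n : ℕ, x = (x * x) ^ n := by
  obtain ⟨k, hk⟩ := hR x
  have hodd : Odd (r ^ k) := (hr.odd_of_ne_two hr2).pow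
  obtain ⟨m, hm⟩ := hodd
  refine ⟨m + 1, ?_⟩
  rw [← pow_two, ← pow_mul]
  have h1 : 2 * (m + 1) = r ^ k + 1 := by omega
  rw [h1, pow_succ, hk, one_mul]

/-- commuting with the square is commuting -/
private theorem ys_wt_comm {M : Type} [Monoid M] {a b c : M} (n : ℕ) (h : a = c ^ n)
    (hc : c * b = b * c) : a * b = b * a := by
  have h1 : Commute c b := hc
  have h2 : Commute (c ^ n) b := h1.pow_left n
  rw [h]
  exact h2

/-- `LDat.sub` with the formula for the restricted operator -/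
private theorem ys_wt_sub {K V R : Type} [Field K] [AddCommGroup V] [Module K V] [Group R]
    {q q' k : ℕ} {α : R →* R} {ρ : R →* Module.End K V} {U : Module.End K V}
    (D : LDat q α ρ U) (hk : k * q' = q) (W : Submodule K V) (hW : ∀ x, ∀ w ∈ W, ρ x w ∈ W)
    (hWU : ∀ w ∈ W, (U ^ k) w ∈ W)
    (hN : ∀ w ∈ W, (∑ i ∈ range q', (U ^ k) ^ i) w = 0) :
    ∃ (α' : R →* R) (ρ' : R →* Module.End K W) (U' : Module.End K W), LDat q' α' ρ' U' ∧
      (∀ x w, ((ρ' x w : W) : V) = ρ x w) ∧ (∀ w, ((U' w : W) : V) = (U ^ k) w) ∧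
      ∀ (j : ℕ) (x : R), α'^[j] x = α^[k * j] x := by
  obtain ⟨α', hc⟩ := tw_L2_iter α k
  have hUk : ∀ x, U ^ k * ρ x = ρ (α' x) * U ^ k := fun x => by
    rw [hc]
    exact D.iter k x
  obtain ⟨ρ', U', h1, h2, h3, h4⟩ := tw_sub hUk W hW hWU
  refine ⟨α', ρ', U', ⟨h3, ?_, ?_⟩, h1, h2, fun j x => ?_⟩
  · refine LinearMap.ext fun w => Subtype.ext ?_
    rw [h4, ← pow_mul, hk, D.hq]
    rfl
  · refine LinearMap.ext fun w => Subtype.ext ?_
    rw [LinearMap.sum_apply, Submodule.coe_sum]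
    simp only [h4]
    have h5 := hN w w.2
    rw [LinearMap.sum_apply] at h5
    exact h5
  · have h5 : (⇑α' : R → R) = α^[k] := funext hc
    rw [h5, ← Function.iterate_mul]

/-- steps (i), (ii): the radical of the weight acts by scalars and is centralized -/
private theorem ys_wt_rad {K : Type} [Field K] [IsAlgClosed K] [CharP K 2] {r : ℕ} (hr : r.Prime)
    (hr2 : r ≠ 2) {W R : Type} [AddCommGroup W] [Module K W] [FiniteDimensional K W] [Group R]
    [Finite R] (hR : IsPGroup r R) {b : ℕ} (hb : 0 < b) {α : R →* R} {ρ : R →* Module.End K W}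
    {U : Module.End K W} (D : LDat (2 ^ b) α ρ U) (hsurj : Function.Surjective α)
    (hinv : ∀ x : R, α^[2 ^ (b - 1)] x * x ∈ commutator R)
    (χ : R → K) (hχ : ∀ c ∈ commutator R, ρ c = χ c • 1)
    (x : R) (hx : ∀ y, ρ x * ρ y = ρ y * ρ x) :
    ρ (α^[2 ^ (b - 1)] x) = ρ x ∧ ∃ c : K, ρ x = c • 1 := by
  let ρu : R →* (Module.End K W)ˣ := ρ.toHomUnits
  have hρu : ∀ x, ((ρu x : (Module.End K W)ˣ) : Module.End K W) = ρ x := fun x => rfl
  let Z : Subgroup R := (center ρu.range).comap ρu.rangeRestrict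
  have hZ : ∀ x, x ∈ Z ↔ ∀ y, ρ x * ρ y = ρ y * ρ x := by
    intro x
    rw [Subgroup.mem_comap, Subgroup.mem_center_iff]
    constructor
    · intro h y
      have h3 := congrArg Subtype.val (h (ρu.rangeRestrict y))
      exact (congrArg Units.val h3).symm
    · rintro h ⟨_, y, rfl⟩
      apply Subtype.ext
      apply Units.ext
      exact (h y).symm
  have hαZ : ∀ x ∈ Z, α x ∈ Z := by
    intro x hx
    rw [hZ] at hx ⊢
    intro y
    obtain ⟨y', rfl⟩ := hsurj y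
    have hU : IsUnit U := IsUnit.of_pow_eq_one D.hq (pow_ne_zero _ two_ne_zero)
    refine hU.mul_right_cancel ?_
    rw [mul_assoc, ← D.hU, ← mul_assoc, ← D.hU, mul_assoc, hx, ← mul_assoc, D.hU, mul_assoc,
      D.hU, ← mul_assoc]
  obtain ⟨α', D', hα'⟩ := D.subgroup Z hαZ
  have h1 := ev_ab hr hr2 _ W Z b α' (ρ.comp Z.subtype) U rfl (hR.to_subgroup Z) hb
    (fun x y => (hZ x).1 x.2 y) D' ⟨x, (hZ x).2 hx⟩
  have h2 : ρ (α^[2 ^ (b - 1)] x) = ρ x := by
    have h3 : ρ ((α'^[2 ^ (b - 1)] ⟨x, (hZ x).2 hx⟩ : Z) : R) = ρ x := h1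
    rw [hα'] at h3
    exact h3
  refine ⟨h2, ?_⟩
  obtain ⟨n, hn⟩ := ys_wt_sq hr hr2 hR x
  have h3 : ρ (x * x) = χ (α^[2 ^ (b - 1)] x * x) • 1 := by
    rw [← hχ _ (hinv x), map_mul, map_mul, h2]
  refine ⟨χ (α^[2 ^ (b - 1)] x * x) ^ n, ?_⟩
  rw [hn, map_pow, h3, smul_pow, one_pow, ← hn]

/-- step (iii): the irreducible case -/
private theorem ys_wt_irr {K : Type} [Field K] [IsAlgClosed K] [CharP K 2] {r : ℕ} (hr : r.Prime)
    (hr2 : r ≠ 2) {V R : Type} [AddCommGroup V] [Module K V] [FiniteDimensional K V]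
    [Nontrivial V] [Group R] [Finite R] (hR : IsPGroup r R) {a : ℕ} (ha : 0 < a) {α : R →* R}
    {ρ : R →* Module.End K V} {U : Module.End K V} (D : LDat (2 ^ a) α ρ U)
    (hirr : ∀ W : Submodule K V, (∀ x, ∀ w ∈ W, ρ x w ∈ W) → (∀ w ∈ W, U w ∈ W) →
      W = ⊥ ∨ W = ⊤)
    (hscal : ∀ x, (∀ y, ρ x * ρ y = ρ y * ρ x) → ∃ c : K, ρ x = c • 1)
    (hcl : ∀ x y w : R, x * y * x⁻¹ * y⁻¹ * w = w * (x * y * x⁻¹ * y⁻¹))
    (hinv : ∀ x y : R, α^[2 ^ (a - 1)] x * x * y = y * (α^[2 ^ (a - 1)] x * x))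
    (hne : ∃ x y, ρ x * ρ y ≠ ρ y * ρ x) :
    ∃ Rd : Subgroup R, (∀ x, x ∈ Rd ↔ ∀ y, ρ x * ρ y = ρ y * ρ x) ∧
      Rd.index = (2 ^ a - 1) ^ 2 ∧ 1 < Rd.index := by
  have hp : Nat.Prime 2 := Nat.prime_two
  have hq0 : 2 ^ a ≠ 0 := pow_ne_zero _ hp.ne_zero
  let ρ' : R →* (Module.End K V)ˣ := ρ.toHomUnits
  have hρ' : ∀ x, ((ρ' x : (Module.End K V)ˣ) : Module.End K V) = ρ x := fun x => rfl
  let u : (Module.End K V)ˣ := Units.ofPowEqOne U (2 ^ a) D.hq hq0
  have huU : (u : Module.End K V) = U := rfl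
  have hu : u ^ (2 ^ a) = 1 := by
    apply Units.ext
    rw [Units.val_pow_eq_pow_val, huU, D.hq, Units.val_one]
  have hconj : ∀ (k : ℕ) (x : R), u ^ k * ρ' x * (u ^ k)⁻¹ = ρ' (α^[k] x) := by
    intro k x
    rw [mul_inv_eq_iff_eq_mul]
    apply Units.ext
    rw [Units.val_mul, Units.val_mul, Units.val_pow_eq_pow_val, huU, hρ', hρ']
    exact D.iter k x
  set z : (Module.End K V)ˣ := u ^ (2 ^ (a - 1)) with hz
  let Γ : Subgroup (Module.End K V)ˣ := ρ'.range
  have hΓfin : Finite Γ := Set.finite_range ρ'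
  have hΓ : IsPGroup r Γ := hR.of_surjective ρ'.rangeRestrict ρ'.rangeRestrict_surjective
  have huΓ : ∀ x ∈ Γ, u * x * u⁻¹ ∈ Γ := by
    rintro _ ⟨x, rfl⟩
    have := hconj 1 x
    rw [pow_one] at this
    rw [this]
    exact ⟨_, rfl⟩
  have hscal' : ∀ x ∈ Γ, (∀ y ∈ Γ, x * y = y * x) → ∃ c : K, (x : Module.End K V) = c • 1 := by
    rintro _ ⟨x, rfl⟩ hx
    apply hscal x
    intro y
    have := congrArg Units.val (hx (ρ' y) ⟨y, rfl⟩)
    exact this
  have h1 : ∀ x ∈ Γ, ∀ y ∈ Γ, ∀ w ∈ Γ,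
      (x * y * x⁻¹ * y⁻¹) * w = w * (x * y * x⁻¹ * y⁻¹) := by
    rintro _ ⟨x, rfl⟩ _ ⟨y, rfl⟩ _ ⟨w, rfl⟩
    rw [← map_inv, ← map_inv, ← map_mul, ← map_mul, ← map_mul, ← map_mul, ← map_mul, hcl]
  have h2 : ∀ x ∈ Γ, (∀ w ∈ Γ, (x⁻¹ * (z * x * z⁻¹)) * w = w * (x⁻¹ * (z * x * z⁻¹))) →
      ∀ w ∈ Γ, x * w = w * x := by
    rintro _ ⟨x, rfl⟩ hx _ ⟨w, rfl⟩
    obtain ⟨n, hn⟩ := ys_wt_sq hr hr2 hR x
    have h3 : ρ' x = (ρ' x * ρ' x) ^ n := by
      rw [← map_mul, ← map_pow, ← hn]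
    refine ys_wt_comm n h3 ?_
    have hxz : z * ρ' x * z⁻¹ = ρ' (α^[2 ^ (a - 1)] x) := hconj _ x
    rw [hxz] at hx
    have h4 : ρ' (α^[2 ^ (a - 1)] x) * ρ' x * ρ' w = ρ' w * (ρ' (α^[2 ^ (a - 1)] x) * ρ' x) := by
      rw [← map_mul, ← map_mul, ← map_mul, hinv]
    set y := ρ' (α^[2 ^ (a - 1)] x) with hy
    have h5 := hx (ρ' x) ⟨x, rfl⟩
    have h6 := hx (ρ' w) ⟨w, rfl⟩
    have h7 : ρ' x * ρ' x = ((ρ' x)⁻¹ * y)⁻¹ * (y * ρ' x) := by
      have h8 : ((ρ' x)⁻¹ * y) * (ρ' x * ρ' x) = y * ρ' x := by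
        rw [← mul_assoc, h5, ← mul_assoc, mul_inv_cancel, one_mul]
      rw [← h8, inv_mul_cancel_left]
    have h9 : Commute ((ρ' x)⁻¹ * y) (ρ' w) := h6
    have h10 : Commute (y * ρ' x) (ρ' w) := h4
    have h11 : Commute (((ρ' x)⁻¹ * y)⁻¹ * (y * ρ' x)) (ρ' w) := h9.inv_left.mul_left h10
    rw [h7]
    exact h11
  have hno' : ∃ x ∈ Γ, ∃ y ∈ Γ, x * y ≠ y * x := by
    obtain ⟨x, y, hxy⟩ := hne
    exact ⟨ρ' x, ⟨x, rfl⟩, ρ' y, ⟨y, rfl⟩, fun h => hxy (congrArg Units.val h)⟩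
  obtain ⟨hc1, hc2⟩ := zt_L5 (K := K) (V := V) hr hr2 ha Γ hΓ u z hu hz huΓ
    (by
      intro W hW hWU
      exact hirr W (fun x w hw => hW (ρ' x) ⟨x, rfl⟩ w hw) hWU) hscal' h1 h2 hno'
    (by rw [huU]; exact D.hN)
  have hindex : ((center Γ).comap ρ'.rangeRestrict).index = Nat.card (Γ ⧸ center Γ) := by
    rw [Subgroup.index_comap_of_surjective _ ρ'.rangeRestrict_surjective]
    rfl
  refine ⟨(center Γ).comap ρ'.rangeRestrict, ?_, ?_, ?_⟩
  · intro x
    rw [Subgroup.mem_comap, Subgroup.mem_center_iff]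
    constructor
    · intro h y
      have h3 := congrArg Subtype.val (h (ρ'.rangeRestrict y))
      exact (congrArg Units.val h3).symm
    · rintro h ⟨_, y, rfl⟩
      apply Subtype.ext
      apply Units.ext
      exact (h y).symm
  · rw [hindex, hc1]
  · rw [hindex]
    exact hc2

/-- a scalar which is `1` -/
private theorem ys_wt_one {K X : Type} [Field K] [AddCommGroup X] [Module K X] [Nontrivial X]
    (c : K) (h : c • (1 : Module.End K X) = 1) : c = 1 := by
  have h3 : (c - 1) • (1 : Module.End K X) = 0 := by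
    rw [sub_smul, one_smul, h, sub_self]
  rcases smul_eq_zero.1 h3 with h4 | h4
  · exact sub_eq_zero.1 h4
  · exact absurd h4 one_ne_zero

/-- commutation of two operators in terms of the weight -/
private theorem ys_wt_A {K X R : Type} [Field K] [AddCommGroup X] [Module K X] [Nontrivial X]
    [Group R] {ρ : R →* Module.End K X} (χ : R → K)
    (hχ : ∀ c ∈ commutator R, ρ c = χ c • (1 : Module.End K X)) (x y : R) :
    ρ x * ρ y = ρ y * ρ x ↔ χ (x * y * x⁻¹ * y⁻¹) = 1 := by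
  have h1 : ρ x * ρ y = χ (x * y * x⁻¹ * y⁻¹) • (ρ y * ρ x) := by
    have h0 : x * y = (x * y * x⁻¹ * y⁻¹) * (y * x) := by group
    have hc : x * y * x⁻¹ * y⁻¹ ∈ commutator R :=
      Subgroup.commutator_mem_commutator (Subgroup.mem_top x) (Subgroup.mem_top y)
    calc ρ x * ρ y = ρ ((x * y * x⁻¹ * y⁻¹) * (y * x)) := by rw [← h0, map_mul]
      _ = χ (x * y * x⁻¹ * y⁻¹) • (ρ y * ρ x) := by
        rw [map_mul, hχ _ hc, smul_mul_assoc, one_mul, map_mul]
  constructor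
  · intro h
    rw [h] at h1
    have h2 : ρ y * ρ x ≠ 0 := by
      rw [← map_mul]
      intro h0
      have h3 : ρ (y * x) * ρ (y * x)⁻¹ = 1 := by rw [← map_mul, mul_inv_cancel, map_one]
      rw [h0, zero_mul] at h3
      exact zero_ne_one h3
    have h4 : (χ (x * y * x⁻¹ * y⁻¹) - 1) • (ρ y * ρ x) = 0 := by
      rw [sub_smul, one_smul, ← h1, sub_self]
    rcases smul_eq_zero.1 h4 with h5 | h5
    · exact sub_eq_zero.1 h5
    · exact absurd h5 h2
  · intro h
    rw [h1, h, one_smul]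

/-- **(L2) for every weight.**

Proof. Let `b` be as in `ys_wt_stab`, `j = 2 ^ (a - b)`, and `W` the submodule of all `w` with
`ρ c w = χ c • w` for all `c ∈ commutator R`. `W` is invariant under `ρ x` for all `x` (the commutators
are central by `hcl`: `ρ c (ρ x w) = ρ x (ρ c w)`; every element of `commutator R` is central).
`LDat.sub` (`k := j`, `q' := 2 ^ b`) gives `α' = α^[j]`, `ρ'`, `U'` on `W`, `LDat (2 ^ b) α' ρ' U'`.
Let `Z = {x | ∀ y, χ (x * y * x⁻¹ * y⁻¹) = 1}` — for `x ∈ Z` we have `ρ' (x * y) = ρ' (y * x)`, since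
`x * y = (x * y * x⁻¹ * y⁻¹) * (y * x)` acts on `W ≠ 0` as `χ (x * y * x⁻¹ * y⁻¹) • ρ' (y * x)`;
conversely if `ρ' (x * y) = ρ' (y * x)` (or the same on some nonzero invariant subspace of `W`) then
`χ (x * y * x⁻¹ * y⁻¹) = 1`. So `Z` is a subgroup (`Rd`), and it is `α'`-invariant by the property of
`b` (`α^[j] (x * y * x⁻¹ * y⁻¹)` with `α^[j]` bijective).
(i) `ev_ab` for the group `Z` acting on `W` (`LDat.subgroup`; the operators commute): with
`ξ = α^[2 ^ (a - 1)] = α'^[2 ^ (b - 1)]`: `ρ' (ξ x) = ρ' x` for `x ∈ Z`. This is the last assertion.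
(ii) For `x ∈ Z` the operator `ρ' x` is a scalar: `ρ' (x * x) = ρ' (ξ x * x) = χ (ξ x * x) • 1` by
`hinv`, and `x` is a power of `x * x` (`R` is an `r`-group, `r` odd; see `zt_LL_sq` in ZtLL.lean).
(iii) Choose a nonzero submodule `W₁ ≤ W` invariant under `ρ'` and `U'` of minimal dimension
(`LDat.sub` with `k := 1` again: `D''`): it is irreducible. On it: if `ρ''` of `x` commutes with all
`ρ'' y` then `x ∈ Z` and `ρ'' x` is a scalar. `ρ''` is not commutative since `χ c ≠ 1` for some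
commutator (`hne`: `commutator R` is generated by commutators; if `χ` is `1` on all of them then
`ρ c w = w` for all `c`). Apply `zt_L5` (ZtL5.lean) exactly as in `zt_LL` (step (3) there; `h1` from
`hcl`; `h2`: if `x⁻¹ * (z * x * z⁻¹)` is central in the image `Γ`, then with `(z * x * z⁻¹) * x` central
(`hinv`: it lies in the image of `commutator R`) `x ^ 2` is central, hence `x`): so
`Nat.card (Γ ⧸ center Γ) = (2 ^ b - 1) ^ 2 > 1`, i.e. `Rd.index = (2 ^ b - 1) ^ 2`.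
(iv) The index divides `Nat.card R`, a power of `r`; so `2 ^ b - 1` is a power of `r`, `> 1`, and
`tw_mersenne` (TwP3.lean) gives `2 ^ b - 1 = r` (see the end of the proof of `zt_L2g`, ZtL2.lean). -/
theorem ys_wt {K : Type} [Field K] [IsAlgClosed K] [CharP K 2] {r : ℕ} (hr : r.Prime) (hr2 : r ≠ 2)
    {V R : Type} [AddCommGroup V] [Module K V] [FiniteDimensional K V] [Group R] [Finite R]
    (hR : IsPGroup r R) {a : ℕ} (ha : 0 < a) {α : R →* R} {ρ : R →* Module.End K V}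
    {U : Module.End K V} (D : LDat (2 ^ a) α ρ U) (hα : ∀ x, α^[2 ^ a] x = x)
    (hcl : ∀ x y w : R, x * y * x⁻¹ * y⁻¹ * w = w * (x * y * x⁻¹ * y⁻¹))
    (hinv : ∀ x : R, α^[2 ^ (a - 1)] x * x ∈ commutator R)
    (hcen : ∀ c ∈ commutator R, α^[2 ^ (a - 1)] c = c)
    (χ : R → K) (v : V) (hv : v ≠ 0) (hχ : ∀ c ∈ commutator R, ρ c v = χ c • v)
    (hne : ∃ c ∈ commutator R, χ c ≠ 1) :
    ∃ b, 2 ≤ b ∧ b ≤ a ∧ r + 1 = 2 ^ b ∧
      (∀ c ∈ commutator R, χ (α^[2 ^ (a - b)] c) = χ c) ∧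
      (∃ Rd : Subgroup R, (∀ x, x ∈ Rd ↔ ∀ y, χ (x * y * x⁻¹ * y⁻¹) = 1) ∧ Rd.index = r ^ 2) ∧
      ∀ x, (∀ y, χ (x * y * x⁻¹ * y⁻¹) = 1) → ∀ w, (∀ c ∈ commutator R, ρ c w = χ c • w) →
        ρ (α^[2 ^ (a - 1)] x) w = ρ x w := by
  -- the commutator subgroup is central
  have hcC : ∀ c ∈ commutator R, ∀ w : R, c * w = w * c := by
    intro c hc w
    have h1 : commutator R ≤ center R := by
      rw [commutator_def, Subgroup.commutator_le]
      intro x _ y _
      rw [Subgroup.mem_center_iff]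
      intro w
      exact (hcl x y w).symm
    exact (Subgroup.mem_center_iff.1 (h1 hc) w).symm
  obtain ⟨b, hb1, hba, hχb, hstab⟩ := ys_wt_stab ha D hα hcen χ
  let W : Submodule K V :=
    { carrier := {w | ∀ c ∈ commutator R, ρ c w = χ c • w}
      add_mem' := by
        intro u w hu hw c hc
        rw [map_add, hu c hc, hw c hc, smul_add]
      zero_mem' := by
        intro c _
        rw [map_zero, smul_zero]
      smul_mem' := by
        intro k w hw c hc
        rw [map_smul, hw c hc, smul_comm] }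
  have hWρ : ∀ x, ∀ w ∈ W, ρ x w ∈ W := by
    intro x w hw c hc
    rw [← Module.End.mul_apply, ← map_mul, hcC c hc, map_mul, Module.End.mul_apply, hw c hc,
      map_smul]
  have hpow : 2 ^ (a - b) * 2 ^ b = 2 ^ a := by
    rw [← pow_add]
    congr 1
    omega
  have hexp : 2 ^ (a - b) * 2 ^ (b - 1) = 2 ^ (a - 1) := by
    rw [← pow_add]
    congr 1
    omega
  obtain ⟨α', ρ', U', D', hρ', hU', hα'⟩ := ys_wt_sub D hpow W hWρ
    (fun w hw => (hstab w hw).1) (fun w hw => (hstab w hw).2)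
  have hWn : Nontrivial W := ⟨⟨v, hχ⟩, 0, fun h => hv (congrArg Subtype.val h)⟩
  have hsurj' : Function.Surjective α' := by
    intro y
    have h1 : ∀ x, α' x = α^[2 ^ (a - b)] x := by
      intro x
      have := hα' 1 x
      rw [mul_one] at this
      exact this
    refine ⟨α^[2 ^ a - 2 ^ (a - b)] y, ?_⟩
    have h2 : 2 ^ (a - b) ≤ 2 ^ a := Nat.pow_le_pow_right (by norm_num) (by omega)
    rw [h1, ← Function.iterate_add_apply, Nat.add_sub_cancel' h2, hα]
  have hχW : ∀ c ∈ commutator R, ρ' c = χ c • (1 : Module.End K W) := by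
    intro c hc
    refine LinearMap.ext fun w => Subtype.ext ?_
    rw [hρ']
    exact w.2 c hc
  have hinv' : ∀ x, α'^[2 ^ (b - 1)] x * x ∈ commutator R := by
    intro x
    rw [hα', hexp]
    exact hinv x
  have hrad := ys_wt_rad hr hr2 hR hb1 D' hsurj' hinv' χ hχW
  -- a minimal invariant subspace
  obtain ⟨W₁, ⟨hW₁0, hW₁ρ, hW₁U⟩, hmin⟩ := (wellFounded_lt (α := Submodule K W)).has_min
    {W₁ | W₁ ≠ ⊥ ∧ (∀ x, ∀ w ∈ W₁, ρ' x w ∈ W₁) ∧ ∀ w ∈ W₁, U' w ∈ W₁}
    ⟨⊤, top_ne_bot, fun _ _ _ => Submodule.mem_top, fun _ _ => Submodule.mem_top⟩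
  have hW₁n : Nontrivial W₁ := (Submodule.nontrivial_iff_ne_bot).2 hW₁0
  obtain ⟨α'', ρ'', U'', D'', hρ'', hU'', hα''⟩ := ys_wt_sub D' (k := 1) (one_mul _) W₁ hW₁ρ
    (fun w hw => by rw [pow_one]; exact hW₁U w hw)
    (fun w _ => by rw [pow_one, D'.hN]; rfl)
  have hirr : ∀ W₂ : Submodule K W₁, (∀ x, ∀ w ∈ W₂, ρ'' x w ∈ W₂) → (∀ w ∈ W₂, U'' w ∈ W₂) →
      W₂ = ⊥ ∨ W₂ = ⊤ := by
    intro W₂ h1 h2
    by_cases h0 : W₂ = ⊥
    · exact Or.inl h0
    · right
      have h3 := hmin (W₂.map W₁.subtype) ⟨fun h => h0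
        (Submodule.map_injective_of_injective W₁.injective_subtype
          (by rw [h, Submodule.map_bot])), by
          rintro x _ ⟨w, hw, rfl⟩
          refine ⟨ρ'' x w, h1 x w hw, ?_⟩
          exact hρ'' x w, by
          rintro _ ⟨w, hw, rfl⟩
          refine ⟨U'' w, h2 w hw, ?_⟩
          have := hU'' w
          rw [pow_one] at this
          exact this⟩
      have h4 : W₂.map W₁.subtype ≤ W₁ := Submodule.map_subtype_le _ _
      have h5 : W₂.map W₁.subtype = W₁ := by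
        by_contra h
        exact h3 (lt_of_le_of_ne h4 h)
      rw [eq_top_iff]
      rintro w -
      have h6 : (w : W) ∈ W₂.map W₁.subtype := by
        rw [h5]
        exact w.2
      obtain ⟨w', hw', he⟩ := h6
      have h7 : w' = w := Subtype.ext he
      rw [← h7]
      exact hw'
  have hχ1 : ∀ c ∈ commutator R, ρ'' c = χ c • (1 : Module.End K W₁) := by
    intro c hc
    refine LinearMap.ext fun w => Subtype.ext ?_
    rw [hρ'', hχW c hc]
    rfl
  have hscal : ∀ x, (∀ y, ρ'' x * ρ'' y = ρ'' y * ρ'' x) → ∃ c : K, ρ'' x = c • 1 := by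
    intro x hx
    obtain ⟨-, c, hc⟩ := hrad x fun y => (ys_wt_A χ hχW x y).2 ((ys_wt_A χ hχ1 x y).1 (hx y))
    refine ⟨c, LinearMap.ext fun w => Subtype.ext ?_⟩
    rw [hρ'', hc]
    rfl
  have hno : ∃ x y, ρ'' x * ρ'' y ≠ ρ'' y * ρ'' x := by
    by_contra h
    push Not at h
    obtain ⟨c, hc, hc1⟩ := hne
    apply hc1
    have h1 : commutator R ≤ ρ'.toHomUnits.ker := by
      rw [commutator_def, Subgroup.commutator_le]
      intro x _ y _
      rw [MonoidHom.mem_ker]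
      apply Units.ext
      have hm : x * y * x⁻¹ * y⁻¹ ∈ commutator R :=
        Subgroup.commutator_mem_commutator (Subgroup.mem_top x) (Subgroup.mem_top y)
      have h2 : ρ' (x * y * x⁻¹ * y⁻¹) = 1 := by
        rw [hχW _ hm, (ys_wt_A χ hχ1 x y).1 (h x y), one_smul]
      exact h2
    have h2 : ρ' c = 1 := congrArg Units.val (MonoidHom.mem_ker.1 (h1 hc))
    rw [hχW c hc] at h2
    exact ys_wt_one _ h2
  obtain ⟨Rd, hRd, hidx, hidx1⟩ := ys_wt_irr hr hr2 hR hb1 D'' hirr hscal hcl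
    (fun x y => by
      rw [hα'', one_mul]
      exact hcC _ (hinv' x) y) hno
  -- the index
  have hr3 : 3 ≤ r := by
    have h1 := hr.two_le
    omega
  obtain ⟨n, hn⟩ : ∃ n : ℕ, Nat.card R = r ^ n := by
    have : Fact r.Prime := ⟨hr⟩
    exact IsPGroup.iff_card.1 hR
  have hdvd : (2 ^ b - 1) ∣ r ^ n := by
    rw [← hn]
    refine dvd_trans ?_ Rd.index_dvd_card
    rw [hidx]
    exact dvd_pow_self _ two_ne_zero
  obtain ⟨j, -, hj⟩ := (Nat.dvd_prime_pow hr).1 hdvd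
  have h2b : 1 ≤ 2 ^ b := Nat.one_le_two_pow
  have hj0 : 0 < j := by
    rcases Nat.eq_zero_or_pos j with h0 | h0
    · exfalso
      rw [h0, pow_zero] at hj
      rw [hidx, hj] at hidx1
      norm_num at hidx1
    · exact h0
  have hj1 : j = 1 := tw_mersenne hr hr2 hj0 (j := b) (by omega)
  have hrb : 2 ^ b - 1 = r := by rw [hj, hj1, pow_one]
  refine ⟨b, ?_, hba, by omega, hχb, ⟨Rd, fun x => ?_, by rw [hidx, hrb]⟩, fun x hx w hw => ?_⟩
  · by_contra hlt
    have hb1 : b = 1 := by omega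
    rw [hb1] at hrb
    omega
  · rw [hRd]
    exact forall_congr' fun y => ys_wt_A χ hχ1 x y
  · obtain ⟨h1, -⟩ := hrad x fun y => (ys_wt_A χ hχW x y).2 (hx y)
    have h2 := congrArg (fun f : Module.End K W => ((f ⟨w, hw⟩ : W) : V)) h1
    simp only [hρ', hα', hexp] at h2
    exact h2


end Pool.Agent.Lib.MP_544bd1_al
end
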