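import Mathlib
import Pool.Agent.Lib.MP_544bd1_al.ZsC4
import Pool.Agent.Lib.MP_544bd1_al.TwS2
import Pool.Agent.Lib.MP_544bd1_al.ZtNorm
import Pool.Agent.Lib.MP_544bd1_al.TwR4
import Pool.Agent.Lib.MP_544bd1_al.TwLZ
import Pool.Agent.Lib.MP_544bd1_al.TwU1
import Pool.Agent.Lib.MP_544bd1_al.TwS3
import Pool.Agent.Lib.MP_544bd1_al.ZsWt
import Pool.Agent.Lib.MP_544bd1_al.ZtDefs3

section

/-!
General even exponents, section 2 (the base): averaging over the commutators of `R`.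
-/

namespace Pool.Agent.Lib.MP_544bd1_al

open Subgroup

/-- the sum over `⁅R, R⁆` is zero. Proof. The sum is fixed by `τ c` for all `c ∈ ⁅R, R⁆` (reindex the
sum), so it is zero by `S.fix`. -/
theorem zs_avsum {r a : ℕ} {F : Type} [Group F] [Finite F] {R : Subgroup F} {g s : F} {V : Type}
    [AddCommGroup V] [Module (ZMod 2) V] {τ : F →* Module.End (ZMod 2) V} (S : ZsRb r a R g s τ)
    [Fintype (⁅R, R⁆ : Subgroup F)] (v : V) : ∑ c : (⁅R, R⁆ : Subgroup F), τ (c : F) v = 0 := by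
  refine S.fix _ fun b hb c hc => ?_
  have hk : b * c * b⁻¹ * c⁻¹ ∈ (⁅R, R⁆ : Subgroup F) := Subgroup.commutator_mem_commutator hb hc
  rw [map_sum]
  refine Fintype.sum_equiv (Equiv.mulLeft (⟨b * c * b⁻¹ * c⁻¹, hk⟩ : (⁅R, R⁆ : Subgroup F))) _ _
    fun d => ?_
  rw [Equiv.coe_mulLeft, Subgroup.coe_mul, map_mul τ (b * c * b⁻¹ * c⁻¹) (d : F)]
  rfl

/-- **Averaging.** Proof. The `c ∈ R` with `τ c v ∈ U`, `τ c⁻¹ v ∈ U`, `f (τ c v) = f v`,
`f (τ c⁻¹ v) = f v` for all `v ∈ U` form a subgroup (`hU`, `hinv`; the inverse of a commutator is a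
commutator), which contains `⁅R, R⁆`. For `v ∈ U`, by `hadd` (induction over the finite sum, `f 0 = 0`):
`Nat.card ⁅R, R⁆ • f v = ∑ f (τ c v) = f (∑ τ c v) = f 0 = 0` (`zs_avsum`), and `Nat.card ⁅R, R⁆` is odd
(`hR`, `r ≠ 2`), `f v + f v = 0`. -/
theorem zs_av {r a : ℕ} (hr : r.Prime) (hr2 : r ≠ 2) {F : Type} [Group F] [Finite F]
    {R : Subgroup F} (hR : IsPGroup r R) {g s : F} {V : Type}
    [AddCommGroup V] [Module (ZMod 2) V] {τ : F →* Module.End (ZMod 2) V} (S : ZsRb r a R g s τ)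
    {K : Type} [AddCommGroup K] (U : AddSubgroup V)
    (hU : ∀ b ∈ R, ∀ c ∈ R, ∀ v ∈ U, τ (b * c * b⁻¹ * c⁻¹) v ∈ U) (f : V → K)
    (h2 : ∀ v ∈ U, f v + f v = 0) (hadd : ∀ v ∈ U, ∀ w ∈ U, f (v + w) = f v + f w)
    (hinv : ∀ b ∈ R, ∀ c ∈ R, ∀ v ∈ U, f (τ (b * c * b⁻¹ * c⁻¹) v) = f v) : ∀ v ∈ U, f v = 0 := by
  classical
  obtain ⟨M, hM⟩ : ∃ M : Subgroup F, ∀ c, c ∈ M ↔ (∀ v ∈ U, τ c v ∈ U ∧ f (τ c v) = f v) ∧
      (∀ v ∈ U, τ c⁻¹ v ∈ U ∧ f (τ c⁻¹ v) = f v) :=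
    ⟨{ carrier := {c | (∀ v ∈ U, τ c v ∈ U ∧ f (τ c v) = f v) ∧
        (∀ v ∈ U, τ c⁻¹ v ∈ U ∧ f (τ c⁻¹ v) = f v)}
       mul_mem' := fun {b c} hb hc => by
         refine ⟨fun v hv => ?_, fun v hv => ?_⟩
         · obtain ⟨h1, h2⟩ := hc.1 v hv
           obtain ⟨h3, h4⟩ := hb.1 _ h1
           rw [map_mul, Module.End.mul_apply]
           exact ⟨h3, h4.trans h2⟩
         · obtain ⟨h1, h2⟩ := hb.2 v hv
           obtain ⟨h3, h4⟩ := hc.2 _ h1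
           rw [mul_inv_rev, map_mul, Module.End.mul_apply]
           exact ⟨h3, h4.trans h2⟩
       one_mem' := by
         refine ⟨fun v hv => ?_, fun v hv => ?_⟩
         · rw [map_one, Module.End.one_apply]
           exact ⟨hv, rfl⟩
         · rw [inv_one, map_one, Module.End.one_apply]
           exact ⟨hv, rfl⟩
       inv_mem' := fun {c} hc => by
         refine ⟨hc.2, ?_⟩
         rw [inv_inv]
         exact hc.1 }, fun c => Iff.rfl⟩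
  have hRM : (⁅R, R⁆ : Subgroup F) ≤ M := by
    rw [Subgroup.commutator_le]
    intro b hb c hc
    rw [hM]
    refine ⟨fun v hv => ⟨hU b hb c hc v hv, hinv b hb c hc v hv⟩, fun v hv => ?_⟩
    have h1 : (b * c * b⁻¹ * c⁻¹)⁻¹ = c * b * c⁻¹ * b⁻¹ := by group
    have h2 : τ ((b * c * b⁻¹ * c⁻¹)⁻¹) v ∈ U ∧ f (τ ((b * c * b⁻¹ * c⁻¹)⁻¹) v) = f v := by
      rw [h1]
      exact ⟨hU c hc b hb v hv, hinv c hc b hb v hv⟩
    exact h2
  intro v hv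
  have f0 : f 0 = 0 := by
    have h1 := hadd 0 U.zero_mem 0 U.zero_mem
    rw [add_zero] at h1
    exact left_eq_add.1 h1
  have key : ∀ s : Finset (⁅R, R⁆ : Subgroup F),
      (∑ c ∈ s, τ (c : F) v) ∈ U ∧ f (∑ c ∈ s, τ (c : F) v) = s.card • f v := by
    intro s
    induction s using Finset.induction_on with
    | empty =>
      rw [Finset.sum_empty, Finset.card_empty, zero_smul]
      exact ⟨U.zero_mem, f0⟩
    | insert c s hc ih =>
      have h1 := ((hM c).1 (hRM c.2)).1 v hv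
      rw [Finset.sum_insert hc, Finset.card_insert_of_notMem hc]
      refine ⟨U.add_mem h1.1 ih.1, ?_⟩
      rw [hadd _ h1.1 _ ih.1, h1.2, ih.2, add_smul, one_smul, add_comm]
  have : Fintype (⁅R, R⁆ : Subgroup F) := Fintype.ofFinite _
  have h1 := (key Finset.univ).2
  rw [zs_avsum S v, f0] at h1
  have hle : (⁅R, R⁆ : Subgroup F) ≤ R := by
    rw [Subgroup.commutator_le]
    intro b hb c hc
    exact R.mul_mem (R.mul_mem (R.mul_mem hb hc) (R.inv_mem hb)) (R.inv_mem hc)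
  have hpg : IsPGroup r (⁅R, R⁆ : Subgroup F) := hR.to_le hle
  have : Fact r.Prime := ⟨hr⟩
  obtain ⟨n, hn⟩ := IsPGroup.iff_card.1 hpg
  have hodd : Odd (Finset.univ : Finset (⁅R, R⁆ : Subgroup F)).card := by
    rw [Finset.card_univ, ← Nat.card_eq_fintype_card, hn]
    exact (hr.odd_of_ne_two hr2).pow
  obtain ⟨k, hk⟩ := hodd
  rw [hk, add_smul, one_smul, mul_comm, mul_smul, two_smul, h2 v hv, smul_zero, zero_add] at h1
  exact h1.symm

end Pool.Agent.Lib.MP_544bd1_al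
end

section

/-!
Theorem Z (paper 287): lifting of systems.
-/

namespace Pool.Agent.Lib.MP_544bd1_al

open Subgroup

variable {m a : ℕ} {G : Type} [Group G]

/-- lifting of commuting elements over an odd kernel -/
theorem ys_fixlift (hm : Odd m) {F X : Type} [Group F] [Finite F] [Group X] (f : F →* X)
    (hker : ∀ x, f x = 1 → x ^ m = 1) (N : Subgroup F) {z t : F} (hz : z ^ (2 ^ a) = 1)
    (hzN : z ∈ N) (htN : t ∈ N) (h : f z * f t = f t * f z) :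
    ∃ y ∈ N, f y = f t ∧ z * y = y * z := by
  have h2 : ¬ 2 ∣ m := fun h2 => (Nat.not_even_iff_odd.mpr hm) (even_iff_two_dvd.mpr h2)
  have hK : ¬ 2 ∣ Nat.card (f.ker ⊓ N : Subgroup F) :=
    tw_card_cop Nat.prime_two h2 _ (fun x hx => hker x hx.1)
  obtain ⟨y, ⟨hy1, hy2⟩, hy3⟩ := tw_coset_fix Nat.prime_two hz (f.ker ⊓ N) hK
    (x := t) (by
      rintro x ⟨hx1, hx2⟩
      exact ⟨(inferInstance : f.ker.Normal).conj_mem x hx1 z,
        N.mul_mem (N.mul_mem hzN hx2) (N.inv_mem hzN)⟩) (by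
      refine ⟨?_, N.mul_mem (N.inv_mem htN) (N.mul_mem (N.mul_mem hzN htN) (N.inv_mem hzN))⟩
      show f (t⁻¹ * (z * t * z⁻¹)) = 1
      rw [map_mul, map_inv, map_mul, map_mul, map_inv, h]
      group)
  refine ⟨y, ?_, ?_, hy3⟩
  · have := N.mul_mem htN hy2
    rwa [mul_inv_cancel_left] at this
  · have hy4 : f (t⁻¹ * y) = 1 := hy1
    rw [map_mul, map_inv] at hy4
    exact (inv_mul_eq_one.mp hy4).symm

/-- `ynorm` in a normalized subgroup -/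
theorem ys_ynorm_mem {F : Type} [Group F] {P : Subgroup F} {g p : F} (hp : p ∈ P)
    (hg : ∀ x ∈ P, g * x * g⁻¹ ∈ P) (M : ℕ) : ynorm M g p ∈ P := by
  induction M with
  | zero => simp [ynorm, P.one_mem]
  | succ M ih =>
    have h1 : ynorm (M + 1) g p = p * (g * ynorm M g p * g⁻¹) := by
      unfold ynorm
      rw [pow_succ' (p * g) M, pow_succ' g M]
      group
    rw [h1]
    exact P.mul_mem hp (hg _ ih)

/-- lifting of the data of Lemma C -/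
theorem ys_liftLC (hm : Odd m) (ha : 3 ≤ a) {F X : Type} [Group F] [Finite F] [Group X]
    (hexp : ∀ x : F, x ^ (m * 2 ^ a) = 1) {f : F →* X}
    (hker : ∀ x, f x = 1 → x ^ m = 1) {P : Subgroup X} {Ph : Subgroup F} (Fr : YFr f P Ph)
    {α p' : F} (hα : α ^ (2 ^ a) = 1) (hαN : ∀ x ∈ Ph, α * x * α⁻¹ ∈ Ph) (hp' : p' ∈ Ph)
    {α' p : X} (hαα : f α = α') (hpp : f p' = p)
    (h : ∃ (Q : Subgroup X) (ρ : X), Q ≤ P ∧ (∀ x ∈ P, ρ * x * ρ⁻¹ ∈ P) ∧ YLC m a Q α' ρ p) :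
    ∃ (Q : Subgroup F) (ρ : F), Q ≤ Ph ∧ (∀ x ∈ Ph, ρ * x * ρ⁻¹ ∈ Ph) ∧ YLC m a Q α ρ p' := by
  subst hαα hpp
  obtain ⟨Q, ρ, hQP, hρP, D⟩ := h
  have hexp' : ∀ x : F, x ^ (2 ^ a * m) = 1 := fun x => by rw [mul_comm]; exact hexp x
  have hcop : Nat.Coprime m (2 ^ a) := hm.coprime_two_right.pow_right a
  have hNor : ∀ n : F, n ∈ Subgroup.normalizer (Ph : Set F) ↔ ∀ x ∈ Ph, n * x * n⁻¹ ∈ Ph := by
    intro n
    constructor
    · intro h x hx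
      exact (Subgroup.mem_normalizer_iff.mp h x).mp hx
    · intro h
      exact Subgroup.mem_normalizer_fintype (S := (Ph : Set F)) (fun x hx => h x hx)
  have hαN' := (hNor α).mpr hαN
  -- the square root of `ρ`
  obtain ⟨j, hj⟩ := hm
  have hρ1 : (ρ ^ (j + 1)) ^ 2 = ρ := by
    rw [← pow_mul, show (j + 1) * 2 = m + 1 by omega, pow_succ, D.hρ, one_mul]
  have hρ1P : ∀ x ∈ P, ρ ^ (j + 1) * x * (ρ ^ (j + 1))⁻¹ ∈ P := by
    intro x hx
    have hgen : ∀ n : ℕ, ρ ^ n * x * (ρ ^ n)⁻¹ ∈ P := by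
      intro n
      induction n with
      | zero => simpa using hx
      | succ n ih =>
        have := hρP _ ih
        rw [show ρ ^ (n + 1) * x * (ρ ^ (n + 1))⁻¹ = ρ * (ρ ^ n * x * (ρ ^ n)⁻¹) * ρ⁻¹ by
          rw [pow_succ']; group]
        exact this
    exact hgen _
  have hyρ1 : f α ^ (2 ^ (a - 2)) * ρ ^ (j + 1) * (f α ^ (2 ^ (a - 2)))⁻¹ = (ρ ^ (j + 1))⁻¹ := by
    rw [← conj_pow, D.inv, inv_pow]
  obtain ⟨r0, hr0, hr0N⟩ := Fr.nor _ hρ1P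
  have hpow2 : ∀ {Z : Type} [Group Z] (x : Z), x ^ (2 ^ (a - 1)) = x ^ (2 ^ (a - 2)) * x ^ (2 ^ (a - 2)) := by
    intro Z _ x
    rw [← pow_add]
    congr 1
    rw [show a - 1 = (a - 2) + 1 by omega, pow_succ]
    ring
  have hcomm : f (α ^ (2 ^ (a - 1))) * f r0 = f r0 * f (α ^ (2 ^ (a - 1))) := by
    rw [map_pow, hr0, hpow2]
    set y := f α ^ (2 ^ (a - 2)) with hy
    set t := ρ ^ (j + 1) with ht
    have h1 : y * t = t⁻¹ * y := by
      rw [← hyρ1]; group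
    have h2 : y * t⁻¹ = t * y := by
      have : t * (y * t) * t⁻¹ = t * (t⁻¹ * y) * t⁻¹ := by rw [h1]
      rw [show t * (y * t) * t⁻¹ = t * y by group, show t * (t⁻¹ * y) * t⁻¹ = y * t⁻¹ by group]
        at this
      exact this.symm
    rw [mul_assoc, h1, ← mul_assoc, h2, mul_assoc]
  obtain ⟨r, hrN, hr, hκr⟩ := ys_fixlift ⟨j, hj⟩ f hker (Subgroup.normalizer (Ph : Set F))
    (z := α ^ (2 ^ (a - 1))) (t := r0) (a := a) (by
      rw [← pow_mul, mul_comm, pow_mul, hα, one_pow]) (Subgroup.pow_mem _ hαN' _)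
    ((hNor r0).mpr hr0N) hcomm
  rw [hr0] at hr
  have hyN : α ^ (2 ^ (a - 2)) ∈ Subgroup.normalizer (Ph : Set F) := Subgroup.pow_mem _ hαN' _
  obtain ⟨y, hy⟩ : ∃ y, y = α ^ (2 ^ (a - 2)) := ⟨_, rfl⟩
  rw [← hy] at hyN
  rw [hpow2, ← hy] at hκr
  obtain ⟨t, ht⟩ : ∃ t, t = (y * r * y⁻¹)⁻¹ * r := ⟨_, rfl⟩
  have hfy : f y * ρ ^ (j + 1) * (f y)⁻¹ = (ρ ^ (j + 1))⁻¹ := by
    rw [hy, map_pow]; exact hyρ1
  have hft : f t = ρ := by
    rw [ht, map_mul, map_inv, map_mul, map_mul, map_inv, hr, hfy, inv_inv, ← pow_two, hρ1]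
  have hyt : y * t * y⁻¹ = t⁻¹ := by
    rw [ht]
    have h1 : y * y * r * y⁻¹ * y⁻¹ = r := by
      rw [hκr]; group
    calc y * ((y * r * y⁻¹)⁻¹ * r) * y⁻¹ = (y * y * r * y⁻¹ * y⁻¹)⁻¹ * (y * r * y⁻¹) := by
          simp [mul_assoc]
      _ = r⁻¹ * (y * r * y⁻¹) := by rw [h1]
      _ = ((y * r * y⁻¹)⁻¹ * r)⁻¹ := by group
  have htN : t ∈ Subgroup.normalizer (Ph : Set F) := by
    rw [ht]
    exact Subgroup.mul_mem _ (Subgroup.inv_mem _ (Subgroup.mul_mem _ (Subgroup.mul_mem _ hyN hrN)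
      (Subgroup.inv_mem _ hyN))) hrN
  obtain ⟨k, hk1, hk2⟩ := ys_lpow hcop.symm hexp' f (x := t) (by rw [hft]; exact D.hρ)
  have hρh : ∀ x ∈ Ph, t ^ k * x * (t ^ k)⁻¹ ∈ Ph := (hNor _).mp (Subgroup.zpow_mem _ htN k)
  have hfρ : f (t ^ k) = ρ := by rw [hk1, hft]
  have hnm : ynorm (2 ^ (a - 1)) α p' ∈ Ph := ys_ynorm_mem hp' hαN _
  have hfn : f (ynorm (2 ^ (a - 1)) α p') = ynorm (2 ^ (a - 1)) (f α) (f p') := by
    simp [ynorm, map_mul, map_pow, map_inv]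
  refine ⟨Ph ⊓ Q.comap f, t ^ k, inf_le_left, hρh, ?_⟩
  refine ⟨inferInstance, ?_, ⟨hp', D.hp⟩, hα, hk2, ?_, ?_, ?_, ?_, ?_, ?_⟩
  · rintro x ⟨hx, hxQ⟩
    apply Fr.inj _ (Ph.pow_mem hx 2)
    rw [map_pow]
    exact D.sq _ hxQ
  · rw [← hy, ← conj_zpow, hyt, inv_zpow]
  · rintro x ⟨hx, hxQ⟩
    refine ⟨hαN x hx, ?_⟩
    show f (α * x * α⁻¹) ∈ Q
    rw [map_mul, map_mul, map_inv]
    exact D.hαP _ hxQ
  · rintro x ⟨hx, hxQ⟩
    refine ⟨hρh x hx, ?_⟩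
    show f (t ^ k * x * (t ^ k)⁻¹) ∈ Q
    rw [map_mul, map_mul, map_inv, hfρ]
    exact D.hρP _ hxQ
  · rintro x ⟨hx, hxQ⟩
    apply Fr.comm ((hNor _).mp (Subgroup.pow_mem _ hαN' _)) hx
    rw [map_pow]
    exact D.cen _ hxQ
  · intro h
    apply D.ne
    rw [← hfn, h, map_one]
  · intro B hB h1 h2 h3
    have key : B.map f = Q := by
      apply D.gen
      · rintro _ ⟨x, hx, rfl⟩
        exact (hB hx).2
      · rintro _ ⟨x, hx, rfl⟩
        exact ⟨_, h1 x hx, by simp⟩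
      · rintro _ ⟨x, hx, rfl⟩
        exact ⟨_, h2 x hx, by rw [map_mul, map_mul, map_inv, hfρ]⟩
      · refine ⟨_, h3, ?_⟩
        rw [map_mul, map_mul, map_mul, map_inv, hfρ, hfn]
    apply le_antisymm hB
    rintro x ⟨hx, hxQ⟩
    have h4 : f x ∈ B.map f := by rw [key]; exact hxQ
    obtain ⟨b, hb, hbx⟩ := h4
    rw [← Fr.eq (hB hb).1 hx hbx]
    exact hb

/-- lifting of systems over an odd normal subgroup -/
theorem ys_liftSys (hm : Odd m) (ha : 3 ≤ a) {F X : Type} [Group F] [Finite F] [Group X]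
    (hexp : ∀ x : F, x ^ (m * 2 ^ a) = 1) (f : F →* X) (hf : Function.Surjective f)
    (hker : ∀ x, f x = 1 → x ^ m = 1) {k : ℕ} {P : Subgroup X} {g τ p : X}
    (S : YSys m a k P g τ p) :
    ∃ (P' : Subgroup F) (g' τ' p' : F), YSys m a k P' g' τ' p' := by
  have hcop : Nat.Coprime m (2 ^ a) := hm.coprime_two_right.pow_right a
  have hexp' : ∀ x : F, x ^ (2 ^ a * m) = 1 := fun x => by rw [mul_comm]; exact hexp x
  obtain ⟨Ph, hPh2, Fr⟩ := ys_frame hm hexp f hf hker P (fun x hx => by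
    rw [show 2 ^ a = 2 * 2 ^ (a - 1) by rw [← pow_succ']; congr 1; omega, pow_mul, S.pr.sq x hx,
      one_pow])
  have hNor : ∀ n : F, n ∈ Subgroup.normalizer (Ph : Set F) ↔ ∀ x ∈ Ph, n * x * n⁻¹ ∈ Ph := by
    intro n
    constructor
    · intro h x hx
      exact (Subgroup.mem_normalizer_iff.mp h x).mp hx
    · intro h
      exact Subgroup.mem_normalizer_fintype (S := (Ph : Set F)) (fun x hx => h x hx)
  -- lift of `g`
  obtain ⟨g1, hg1, hg1N⟩ := Fr.nor g S.pr.hgP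
  obtain ⟨k1, hk1, hk2⟩ := ys_lpow hcop hexp f (x := g1) (by rw [hg1]; exact S.pr.hg)
  obtain ⟨gh, hghf, hgh2, hghN⟩ : ∃ gh : F, f gh = g ∧ gh ^ (2 ^ a) = 1 ∧
      gh ∈ Subgroup.normalizer (Ph : Set F) := by
    refine ⟨g1 ^ k1, by rw [hk1, hg1], hk2, ?_⟩
    exact Subgroup.zpow_mem _ ((hNor g1).mpr hg1N) k1
  obtain ⟨ph, hph, hphf⟩ := Fr.sur p S.pr.hp
  -- lift of `τ`
  obtain ⟨t0, ht0, ht0N⟩ := Fr.nor τ S.pr.hτP
  obtain ⟨t1, ht1N, ht1, hgt1⟩ := ys_fixlift hm f hker (Subgroup.normalizer (Ph : Set F))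
    hgh2 hghN ((hNor t0).mpr ht0N) (by rw [hghf, ht0]; exact S.pr.hgτ)
  rw [ht0] at ht1
  obtain ⟨τh, hτf, hτ3, hτm, hgτ, hτN⟩ : ∃ τh : F, f τh = τ ∧ (∃ j, τh ^ (3 ^ j) = 1) ∧ τh ^ m = 1 ∧
      gh * τh = τh * gh ∧ τh ∈ Subgroup.normalizer (Ph : Set F) := by
    obtain ⟨j, hj⟩ := S.pr.hτ
    obtain ⟨s, m', hm', hmm⟩ := Nat.exists_eq_pow_mul_and_not_dvd (n := m) hm.pos.ne' 3
      (by norm_num)
    have hc1 : Nat.Coprime m' 3 := ((Nat.Prime.coprime_iff_not_dvd Nat.prime_three).mpr hm').symm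
    have h3 : τ ^ (3 ^ s) = 1 := by
      have h5 : orderOf τ ∣ 3 ^ j := orderOf_dvd_of_pow_eq_one hj
      have h6 : orderOf τ ∣ 3 ^ s * m' := by
        rw [← hmm]; exact orderOf_dvd_of_pow_eq_one S.pr.hτm
      have h7 : Nat.Coprime (orderOf τ) m' :=
        Nat.Coprime.coprime_dvd_left h5 (hc1.pow_right j).symm
      exact orderOf_dvd_iff_pow_eq_one.mp (h7.dvd_of_dvd_mul_right h6)
    have hc2 : Nat.Coprime (m' * 2 ^ a) (3 ^ s) := by
      apply Nat.Coprime.pow_right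
      apply Nat.Coprime.mul_left hc1
      exact Nat.Coprime.pow_left _ (by norm_num)
    obtain ⟨k, hk1, hk2⟩ := ys_lpow hc2 (fun x => by
      rw [show m' * 2 ^ a * 3 ^ s = m * 2 ^ a by rw [hmm]; ring]; exact hexp x) f (x := t1)
      (by rw [ht1]; exact h3)
    refine ⟨t1 ^ k, by rw [hk1, ht1], ⟨s, hk2⟩, ?_, ?_, Subgroup.zpow_mem _ ht1N k⟩
    · rw [hmm, pow_mul, hk2, one_pow]
    · exact (Commute.zpow_right (show Commute gh t1 from hgt1) k)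
  have hghQ : ∀ x ∈ Ph, gh * x * gh⁻¹ ∈ Ph := (hNor gh).mp hghN
  have hτQ : ∀ x ∈ Ph, τh * x * τh⁻¹ ∈ Ph := (hNor τh).mp hτN
  have hτiQ : ∀ i : ℕ, ∀ x ∈ Ph, τh ^ i * x * (τh ^ i)⁻¹ ∈ Ph := fun i =>
    (hNor _).mp (Subgroup.pow_mem _ hτN i)
  refine ⟨Ph, gh, τh, ph, ⟨inferInstance, ?_, hph, hgh2, hτ3, hτm, hgτ, ?_, hghQ, hτQ, ?_⟩, ?_, ?_,
    ?_⟩
  · intro x hx
    apply Fr.inj _ (Ph.pow_mem hx 2)
    rw [map_pow]
    exact S.pr.sq _ (Fr.mem x hx)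
  · apply Fr.comm (hτiQ _) hph
    rw [map_pow, hτf, hphf]
    exact S.pr.hτp
  · intro x hx
    apply Fr.comm ((hNor _).mp (Subgroup.pow_mem _ hghN _)) hx
    rw [map_pow, hghf]
    exact S.pr.cen _ (Fr.mem x hx)
  · exact ys_liftLC hm ha hexp hker Fr hgh2 hghQ hph hghf hphf S.lc0
  · refine ys_liftLC hm ha hexp hker Fr hgh2 hghQ (ys_ynorm_mem hph hτQ _) hghf ?_ S.lcI
    simp [ynorm, map_mul, map_pow, map_inv, hτf, hphf]
  · intro i h1 h2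
    have hpgN : ph * gh ∈ Subgroup.normalizer (Ph : Set F) :=
      Subgroup.mul_mem _ (Subgroup.le_normalizer hph) hghN
    refine ys_liftLC hm ha hexp hker Fr (α := ph * gh) ?_ ((hNor _).mp hpgN) (hτiQ i ph hph)
      (by rw [map_mul, hphf, hghf]) (by rw [map_mul, map_mul, map_inv, map_pow, hτf, hphf])
      (S.lci i h1 h2)
    have h3 : (ph * gh) ^ (2 ^ a) = ynorm (2 ^ a) gh ph := by
      unfold ynorm
      rw [hgh2, inv_one, mul_one]
    apply Fr.inj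
    · rw [h3]; exact ys_ynorm_mem hph hghQ _
    · obtain ⟨_, _, _, _, D⟩ := S.lci i h1 h2
      rw [map_pow, map_mul, hphf, hghf]
      exact D.hα

end Pool.Agent.Lib.MP_544bd1_al
end

section

/-!
Theorem Z (paper 287): the order of `τ`.
-/

namespace Pool.Agent.Lib.MP_544bd1_al

open Subgroup

variable {m a : ℕ} {G : Type} [Group G]

/-- the commutator of `g` and `z` is inverted by `z` -/
theorem ys_fixinv {G : Type} [Group G] {K : Subgroup G} (hK : ∀ x ∈ K, x ^ m = 1)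
    {x z g : G} (hz2 : z ^ 2 = 1) (hxz : x * z = z * x) (hg : g ∈ K)
    (hzK : ∀ x ∈ K, z * x * z⁻¹ ∈ K) (hxg : x * g = g * x) (hzg : z * g ≠ g * z) :
    ∃ s : G, s ≠ 1 ∧ s ^ m = 1 ∧ x * s = s * x ∧ z * s * z⁻¹ = s⁻¹ := by
  have hzz : z * z = 1 := by rw [← pow_two]; exact hz2
  have hzi : z⁻¹ = z := inv_eq_of_mul_eq_one_left hzz
  refine ⟨g⁻¹ * (z * g * z⁻¹), ?_, hK _ (K.mul_mem (K.inv_mem hg) (hzK g hg)), ?_, ?_⟩
  · intro h
    apply hzg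
    rw [inv_mul_eq_one] at h
    calc z * g = z * g * z⁻¹ * z := by group
      _ = g * z := by rw [← h]
  · have h1 : Commute x g := hxg
    have h2 : Commute x z := hxz
    exact (h1.inv_right).mul_right ((h2.mul_right h1).mul_right h2.inv_right)
  · rw [hzi]
    calc z * (g⁻¹ * (z * g * z)) * z = z * g⁻¹ * z * g * (z * z) := by group
      _ = z * g⁻¹ * z * g := by rw [hzz, mul_one]
      _ = z⁻¹ * g⁻¹ * z⁻¹ * g := by rw [hzi]
      _ = (g⁻¹ * (z * g * z))⁻¹ := by group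

/-- two commuting involutions acting on an odd group -/
theorem ys_klein (hm : Odd m) {H : Type} [Group H] {E : Subgroup H} (hE : ∀ x ∈ E, x ^ m = 1)
    {κ z : H} (hz2 : z ^ 2 = 1) (hκ2 : κ ^ 2 = 1) (hκz : κ * z = z * κ)
    (hzE : ∀ x ∈ E, z * x * z⁻¹ ∈ E) (hκE : ∀ x ∈ E, κ * x * κ⁻¹ ∈ E)
    (hne : ∃ x ∈ E, z * x ≠ x * z) :
    ∃ e : H, e ≠ 1 ∧ e ^ m = 1 ∧ z * e * z⁻¹ = e⁻¹ ∧
      (κ * e * κ⁻¹ = e ∨ κ * e * κ⁻¹ = e⁻¹) := by
  by_contra hcon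
  push Not at hcon
  have hzz : z * z = 1 := by rw [← pow_two]; exact hz2
  have hκκ : κ * κ = 1 := by rw [← pow_two]; exact hκ2
  have hzi : z⁻¹ = z := inv_eq_of_mul_eq_one_left hzz
  have hκi : κ⁻¹ = κ := inv_eq_of_mul_eq_one_left hκκ
  obtain ⟨t, ht⟩ : ∃ t, t = κ * z := ⟨_, rfl⟩
  have htE : ∀ x ∈ E, t * x * t⁻¹ ∈ E := by
    intro x hx
    rw [ht, show κ * z * x * (κ * z)⁻¹ = κ * (z * x * z⁻¹) * κ⁻¹ by group]
    exact hκE _ (hzE _ hx)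
  have htt : t * t = 1 := by
    rw [ht, show κ * z * (κ * z) = κ * (z * κ) * z by group, ← hκz,
      show κ * (κ * z) * z = (κ * κ) * (z * z) by group, hκκ, hzz, one_mul]
  have hti : t⁻¹ = t := inv_eq_of_mul_eq_one_left htt
  have htz : t * z = z * t := by
    rw [ht, hκz]; simp only [mul_assoc]; rw [← hκz]
  have hκt : κ = t * z := by
    rw [ht, mul_assoc, hzz, mul_one]
  -- (A)
  have hA : ∀ c ∈ E, κ * c = c * κ → z * c = c * z := by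
    intro c hc h
    by_contra hzc
    obtain ⟨s, hs1, hs2, hs3, hs4⟩ := ys_fixinv hE hz2 hκz hc hzE h hzc
    exact (hcon s hs1 hs2 hs4).1 (by rw [hs3]; group)
  -- (B)
  have hB : ∀ c ∈ E, t * c = c * t → z * c = c * z := by
    intro c hc h
    by_contra hzc
    obtain ⟨s, hs1, hs2, hs3, hs4⟩ := ys_fixinv hE hz2 htz hc hzE h hzc
    apply (hcon s hs1 hs2 hs4).2
    rw [hκt, show t * z * s * (t * z)⁻¹ = t * (z * s * z⁻¹) * t⁻¹ by group, hs4]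
    have h1 : Commute t s := hs3
    rw [show t * s⁻¹ = s⁻¹ * t from h1.inv_right]
    group
  obtain ⟨n, hn⟩ := hm
  have hsq : ∀ x ∈ E, (x ^ (n + 1)) ^ 2 = x := by
    intro x hx
    rw [← pow_mul, show (n + 1) * 2 = m + 1 by omega, pow_succ, hE x hx, one_mul]
  -- decomposition
  have hdec : ∀ r : H, r * r = 1 → (∀ x ∈ E, r * x * r⁻¹ ∈ E) → ∀ x ∈ E,
      ∃ c ∈ E, ∃ i ∈ E, x = c * i ∧ r * c = c * r ∧ r * i * r⁻¹ = i⁻¹ := by
    intro r hrr hrE x hx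
    have hri : r⁻¹ = r := inv_eq_of_mul_eq_one_left hrr
    obtain ⟨y, hy⟩ : ∃ y, y = (r * x * r⁻¹)⁻¹ * x := ⟨_, rfl⟩
    have hyE : y ∈ E := by rw [hy]; exact E.mul_mem (E.inv_mem (hrE x hx)) hx
    have hry : r * y * r⁻¹ = y⁻¹ := by
      rw [hy, hri]
      calc r * ((r * x * r)⁻¹ * x) * r = r * r⁻¹ * x⁻¹ * r⁻¹ * x * r := by group
        _ = x⁻¹ * r⁻¹ * x * r := by group
        _ = x⁻¹ * (r * x * r) := by rw [hri]; group
        _ = ((r * x * r)⁻¹ * x)⁻¹ := by group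
    have hi2 := hsq y hyE
    have hri2 : r * y ^ (n + 1) * r⁻¹ = (y ^ (n + 1))⁻¹ := by
      rw [← conj_pow, hry, inv_pow]
    obtain ⟨i, hi⟩ : ∃ i, i = y ^ (n + 1) := ⟨_, rfl⟩
    rw [← hi] at hi2 hri2
    have hiE : i ∈ E := by rw [hi]; exact E.pow_mem hyE _
    refine ⟨x * i⁻¹, E.mul_mem hx (E.inv_mem hiE), i, hiE, by group, ?_, hri2⟩
    have h1 : r * x * r⁻¹ * i = x * i⁻¹ := by
      have h2 : i * i = (r * x * r⁻¹)⁻¹ * x := by rw [← pow_two, hi2, hy]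
      calc r * x * r⁻¹ * i = r * x * r⁻¹ * (i * i) * i⁻¹ := by group
        _ = x * i⁻¹ := by rw [h2]; group
    have h3 : r * i⁻¹ * r⁻¹ = i := by
      rw [show r * i⁻¹ * r⁻¹ = (r * i * r⁻¹)⁻¹ by group, hri2, inv_inv]
    calc r * (x * i⁻¹) = (r * x * r⁻¹) * (r * i⁻¹ * r⁻¹) * r := by group
      _ = x * i⁻¹ * r := by rw [h3, h1]
  obtain ⟨x, hx, hxz⟩ := hne
  apply hxz
  obtain ⟨c0, hc0, i, hi, rfl, hκc0, hκi'⟩ := hdec κ hκκ hκE x hx
  have h1 : z * c0 = c0 * z := hA c0 hc0 hκc0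
  obtain ⟨c, hc, j, hj, hcj, htc, htj⟩ := hdec t htt htE i hi
  have h2 : z * c = c * z := hB c hc htc
  have hκc : κ * c = c * κ := by
    rw [hκt, mul_assoc, h2, ← mul_assoc, htc, mul_assoc]
  -- `z i z⁻¹ = c i c`
  have h3 : t * i * t⁻¹ = c * j⁻¹ := by
    rw [hcj, show t * (c * j) * t⁻¹ = (t * c) * t⁻¹ * (t * j * t⁻¹) by group, htc, htj]
    group
  have h4 : κ * j * κ⁻¹ = c⁻¹ * i⁻¹ := by
    have h5 : j = c⁻¹ * i := by rw [hcj]; group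
    have h6 : κ * c⁻¹ * κ⁻¹ = c⁻¹ := by
      have : Commute κ c := hκc
      rw [show κ * c⁻¹ = c⁻¹ * κ from this.inv_right]; group
    calc κ * j * κ⁻¹ = (κ * c⁻¹ * κ⁻¹) * (κ * i * κ⁻¹) := by rw [h5]; group
      _ = c⁻¹ * i⁻¹ := by rw [h6, hκi']
  have h5 : z * i * z⁻¹ = c * i * c := by
    have h6 : z = κ * t := by rw [ht, ← mul_assoc, hκκ, one_mul]
    have h7 : κ * j⁻¹ * κ⁻¹ = i * c := by
      rw [show κ * j⁻¹ * κ⁻¹ = (κ * j * κ⁻¹)⁻¹ by group, h4]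
      group
    calc z * i * z⁻¹ = κ * (t * i * t⁻¹) * κ⁻¹ := by rw [h6]; group
      _ = (κ * c * κ⁻¹) * (κ * j⁻¹ * κ⁻¹) := by rw [h3]; group
      _ = c * i * c := by rw [h7, hκc]; group
  have h6 : c * (c * i * c) * c = i := by
    have h7 : z * (z * i * z⁻¹) * z⁻¹ = i := by
      rw [hzi, show z * (z * i * z) * z = (z * z) * i * (z * z) by group, hzz, one_mul, mul_one]
    rw [h5] at h7
    have h8 : z * (c * i * c) * z⁻¹ = c * (z * i * z⁻¹) * c := by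
      have hcz : z⁻¹ * c = c * z⁻¹ := by
        have : Commute z c := h2
        exact this.inv_left
      calc z * (c * i * c) * z⁻¹ = (z * c) * i * (c * z⁻¹) := by group
        _ = c * (z * i * z⁻¹) * c := by rw [h2, ← hcz]; group
    rw [h8, h5] at h7
    exact h7
  -- `c = 1`
  obtain ⟨d, hd⟩ : ∃ d, d = c * c := ⟨_, rfl⟩
  have hdE : d ∈ E := by rw [hd]; exact E.mul_mem hc hc
  have h7 : d * i * d = i := by
    rw [hd]
    simpa [mul_assoc] using h6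
  have h8 : i⁻¹ * d * i = d⁻¹ := by
    have : i⁻¹ * (d * i * d) = 1 := by rw [h7, inv_mul_cancel]
    rw [eq_inv_iff_mul_eq_one]
    simpa [mul_assoc] using this
  have h9 : i⁻¹ * d⁻¹ * i = d := by
    rw [show i⁻¹ * d⁻¹ * i = (i⁻¹ * d * i)⁻¹ by group, h8, inv_inv]
  have h10 : Commute (i ^ 2) d := by
    have : i⁻¹ * (i⁻¹ * d * i) * i = d := by rw [h8, h9]
    show i ^ 2 * d = d * i ^ 2
    calc i ^ 2 * d = i ^ 2 * (i⁻¹ * (i⁻¹ * d * i) * i) := by rw [this]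
      _ = d * i ^ 2 := by rw [pow_two]; group
  have h11 : Commute i d := by
    have h12 := hsq i hi
    rw [← pow_mul, mul_comm, pow_mul] at h12
    rw [← h12]
    exact h10.pow_left _
  have h12 : d = d⁻¹ := by
    rw [← h8, mul_assoc, ← h11.eq]
    group
  have h13 : d = 1 := by
    apply fr_one_two ⟨n, hn⟩ (hE d hdE)
    rw [pow_two]
    nth_rewrite 2 [h12]
    exact mul_inv_cancel d
  have h14 : c = 1 := by
    apply fr_one_two ⟨n, hn⟩ (hE c hc)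
    rw [pow_two, ← hd, h13]
  rw [h14] at h5
  have h15 : z * i = i * z := by
    have h16 : z * i * z⁻¹ = i := by simpa using h5
    calc z * i = z * i * z⁻¹ * z := by group
      _ = i * z := by rw [h16]
  rw [← mul_assoc, h1, mul_assoc, h15, mul_assoc]

/-- in `(T_k)` the order of `τ` is at least `3 ^ k` -/
theorem ys_ord (hm : Odd m) {F : Type} [Group F] [Finite F]
    (hsol : Group.IsSolvable F) (hexp : ∀ x : F, x ^ (m * 2 ^ a) = 1) (hm0 : 0 < m) {k : ℕ}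
    {P : Subgroup F} {g τ p : F} (S : YT m a k P g τ p) : 3 ^ k ≤ 3 * m := by
  rcases S.alt with ⟨rfl, _⟩ | ⟨hk, _, h3, h4⟩
  · simp; omega
  by_contra hcon
  push Not at hcon
  have hmk : m < 3 ^ k := by omega
  obtain ⟨z, hz⟩ : ∃ z, z = ynorm (2 ^ (a - 1)) g p := ⟨_, rfl⟩
  have hzP : z ∈ P := by rw [hz]; exact ys_ynorm_mem S.pr.hp S.pr.hgP _
  have hz2 : z ^ 2 = 1 := S.pr.sq z hzP
  have hκz : g ^ (2 ^ (a - 1)) * z = z * g ^ (2 ^ (a - 1)) := S.pr.cen z hzP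
  have hκ2 : (g ^ (2 ^ (a - 1))) ^ 2 = 1 := by
    have hg := S.pr.hg
    rcases Nat.eq_zero_or_pos a with rfl | ha
    · simp at hg ⊢
      rw [hg, one_pow]
    · rw [← pow_mul, ← pow_succ, Nat.sub_add_cancel ha]
      exact hg
  have hzne : zp m a F z ≠ 1 := by
    intro h
    apply S.hz
    rw [← hz]
    exact (zt_op_iff hm hexp).2 h
  have hZ2 : (zp m a F z) ^ 2 = 1 := by rw [← map_pow, hz2, map_one]
  have hK2 : (zp m a F (g ^ (2 ^ (a - 1)))) ^ 2 = 1 := by rw [← map_pow, hκ2, map_one]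
  have hne := zt_krad_ne (a := a) hm (zt_sol (m := m) (a := a) hsol) (zt_exp hexp)
    (zt_bot hm hexp) hZ2 hzne
  obtain ⟨e, he1, hem, hez, he⟩ := ys_klein hm (E := krad m (ZH m a F))
    (tw_krad_pow (zt_cop hm a) (zt_exp hexp)) hZ2 hK2 (by rw [← map_mul, hκz, map_mul])
    (fun x hx => (krad_normal m _).conj_mem x hx _) (fun x hx => (krad_normal m _).conj_mem x hx _)
    hne
  apply he1
  rcases he with he | he
  · have h5 := h4 0 m (by positivity) hmk hm0.ne e hem he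
    rw [← hz, S.pr.hτm] at h5
    simp only [pow_zero, one_mul, inv_one, mul_one] at h5
    exact h5 hez hez
  · have h5 := h3 0 (by positivity) e hem he
    rw [← hz] at h5
    simp only [pow_zero, one_mul, inv_one, mul_one] at h5
    exact h5 hez

end Pool.Agent.Lib.MP_544bd1_al
end

section

/-!
Theorem Z3, section 5: the strengthened Theorem L for sections.
-/

namespace Pool.Agent.Lib.MP_544bd1_al

open Subgroup

/-- **(L2), general exponent.**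

Proof. Let `V`, `τ` be as in `hV`, `R = ↥A`, `α : R →* R` the conjugation by `u`,
`ρ = τ.comp A.subtype`, `U = τ u`: `LDat (2 ^ a) α ρ U` (the norm is zero by `hV`; compare the
construction in `tw_HHbot`, TwH.lean). `ρ` is faithful on odd elements, so `ρ (x * y) ≠ ρ (y * x)` when
`x * y ≠ y * x` (`x * y * x⁻¹ * y⁻¹` is odd). `hinv` of `zt_LZ`: with `z = u ^ (2 ^ (a - 1))` the set
`{x ∈ A | ∀ y ∈ A, (z * x * z⁻¹ * x) * y = y * (z * x * z⁻¹ * x)}` is a subgroup (modulo the center of `A`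
everything commutes, `hcl`) and contains the elements inverted by `z`, so it contains `A` (`hgen`).
`zt_LZ`: `Λ₀, Rd, b`. Let `Λ = Λ₀.map A.subtype`, `Rad = Rd.map A.subtype`;
`Rad.relIndex A = Rd.index = (2 ^ b - 1) ^ 2 > 1`. It divides `Nat.card A`, a power of `r`, so
`2 ^ b - 1 = r ^ j` with `j > 0` (`Nat.dvd_prime_pow`), `r ^ j + 1 = 2 ^ b`, so `j = 1` by `tw_mersenne`
(TwP3.lean). `b ≥ 2` since `2 ^ b = r + 1 ≥ 4`. -/
theorem zt_L2g {m a r : ℕ} (hm : Odd m) (ha : 0 < a) (hr : r.Prime) (hr2 : r ≠ 2) {H : Type}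
    [Group H] [Finite H] (hV : ZRep m a H) (A : Subgroup H) (hA : IsPGroup r A)
    (hAm : ∀ x ∈ A, x ^ m = 1)
    (hcl : ∀ x ∈ A, ∀ y ∈ A, ∀ w ∈ A, x * y * x⁻¹ * y⁻¹ * w = w * (x * y * x⁻¹ * y⁻¹)) {u : H}
    (hu : u ^ (2 ^ a) = 1) (huA : ∀ x ∈ A, u * x * u⁻¹ ∈ A)
    (hgen : ∀ B : Subgroup H,
      (∀ g ∈ A, u ^ (2 ^ (a - 1)) * g * (u ^ (2 ^ (a - 1)))⁻¹ = g⁻¹ → g ∈ B) → A ≤ B)
    (hne : ∃ x ∈ A, ∃ y ∈ A, x * y ≠ y * x) :
    ∃ (Λ Rad : Subgroup H) (b : ℕ), (∀ x, x ∈ Rad ↔ x ∈ A ∧ ∀ y ∈ A, x * y * x⁻¹ * y⁻¹ ∈ Λ) ∧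
      2 ≤ b ∧ b ≤ a ∧ r = 2 ^ b - 1 ∧ Rad.relIndex A = r ^ 2 := by
  classical
  obtain ⟨V, _, _, _, τ, hfaith, hnorm⟩ := hV
  -- conjugation by the powers of `u`
  have hconj : ∀ (k : ℕ), ∀ x ∈ A, u ^ k * x * (u ^ k)⁻¹ ∈ A := by
    intro k
    induction k with
    | zero => intro x hx; simpa using hx
    | succ k ih =>
      intro x hx
      have h1 := huA _ (ih x hx)
      have h2 : u * (u ^ k * x * (u ^ k)⁻¹) * u⁻¹ = u ^ (k + 1) * x * (u ^ (k + 1))⁻¹ := by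
        rw [pow_succ']
        group
      rwa [h2] at h1
  let α : A →* A := MonoidHom.mk' (fun y => ⟨u * y * u⁻¹, huA y y.2⟩) (by
    intro y w
    apply Subtype.ext
    simp only [Subgroup.coe_mul]
    group)
  have hα : ∀ y : A, ((α y : A) : H) = u * y * u⁻¹ := fun y => rfl
  have hαk : ∀ (k : ℕ) (y : A), ((α^[k] y : A) : H) = u ^ k * y * (u ^ k)⁻¹ := by
    intro k y
    induction k with
    | zero => simp
    | succ k ih =>
      rw [Function.iterate_succ_apply', hα, ih, pow_succ']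
      group
  have hD : LDat (2 ^ a) α (τ.comp A.subtype) (τ u) := by
    refine ⟨?_, ?_, ?_⟩
    · intro y
      simp only [MonoidHom.comp_apply, Subgroup.coe_subtype]
      rw [hα, ← map_mul, ← map_mul]
      congr 1
      group
    · rw [← map_pow, hu, map_one]
    · exact hnorm u hu
  set z : H := u ^ (2 ^ (a - 1)) with hz
  have hzA : ∀ x ∈ A, z * x * z⁻¹ ∈ A := fun x hx => hconj _ x hx
  -- elements commuting with `A`
  have hcm : ∀ c d : H, (∀ y ∈ A, c * y = y * c) → (∀ y ∈ A, d * y = y * d) →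
      ∀ y ∈ A, (c * d) * y = y * (c * d) := by
    intro c d hc hd y hy
    rw [mul_assoc, hd y hy, ← mul_assoc, hc y hy, mul_assoc]
  have hci : ∀ c : H, (∀ y ∈ A, c * y = y * c) → ∀ y ∈ A, c⁻¹ * y = y * c⁻¹ := by
    intro c hc y hy
    rw [inv_mul_eq_iff_eq_mul, ← mul_assoc, hc y hy, mul_assoc, mul_inv_cancel, mul_one]
  let B : Subgroup H :=
    { carrier := {x | x ∈ A ∧ ∀ y ∈ A, (z * x * z⁻¹ * x) * y = y * (z * x * z⁻¹ * x)}
      mul_mem' := by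
        rintro x y ⟨hx, hx'⟩ ⟨hy, hy'⟩
        refine ⟨A.mul_mem hx hy, ?_⟩
        have h1 := hcl (z * y * z⁻¹) (hzA y hy) x hx
        have h2 : z * (x * y) * z⁻¹ * (x * y) =
            ((z * y * z⁻¹) * x * (z * y * z⁻¹)⁻¹ * x⁻¹) *
              ((z * x * z⁻¹ * x) * (z * y * z⁻¹ * y)) := by
          have h3 := h1 (z * x * z⁻¹) (hzA x hx)
          have h4 : z * (x * y) * z⁻¹ * (x * y) = (z * x * z⁻¹) *
              ((z * y * z⁻¹) * x * (z * y * z⁻¹)⁻¹ * x⁻¹) * (x * (z * y * z⁻¹ * y)) := by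
            group
          rw [h4, ← h3]
          group
        rw [h2]
        exact hcm _ _ h1 (hcm _ _ hx' hy')
      one_mem' := by
        refine ⟨A.one_mem, fun y _ => ?_⟩
        simp
      inv_mem' := by
        rintro x ⟨hx, hx'⟩
        refine ⟨A.inv_mem hx, ?_⟩
        have h1 := hcl x hx (z * x * z⁻¹) (hzA x hx)
        have h2 : z * x⁻¹ * z⁻¹ * x⁻¹ =
            ((x * (z * x * z⁻¹) * x⁻¹ * (z * x * z⁻¹)⁻¹) * (z * x * z⁻¹ * x))⁻¹ := by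
          group
        rw [h2]
        exact hci _ (hcm _ _ h1 hx') }
  have hAB : A ≤ B := by
    -- the subgroup generated by the inverted elements lies in `B`
    apply hgen
    intro g hg hginv
    refine ⟨hg, fun y _ => ?_⟩
    have h1 : z * g * z⁻¹ * g = 1 := by
      rw [hginv, inv_mul_cancel]
    rw [h1, one_mul, mul_one]
  have hcl' : ∀ x y w : A, (τ.comp A.subtype) (x * y * x⁻¹ * y⁻¹ * w) =
      (τ.comp A.subtype) (w * (x * y * x⁻¹ * y⁻¹)) := by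
    intro x y w
    congr 1
    apply Subtype.ext
    exact hcl x x.2 y y.2 w w.2
  have hinv : ∀ x y : A, (τ.comp A.subtype) (α^[2 ^ (a - 1)] x * x * y) =
      (τ.comp A.subtype) (y * (α^[2 ^ (a - 1)] x * x)) := by
    intro x y
    congr 1
    apply Subtype.ext
    simp only [Subgroup.coe_mul]
    rw [hαk]
    exact (hAB x.2).2 y y.2
  have hne' : ∃ x y : A, (τ.comp A.subtype) (x * y) ≠ (τ.comp A.subtype) (y * x) := by
    obtain ⟨x, hx, y, hy, hxy⟩ := hne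
    refine ⟨⟨x, hx⟩, ⟨y, hy⟩, fun h => hxy ?_⟩
    simp only [MonoidHom.comp_apply, Subgroup.coe_subtype, Subgroup.coe_mul] at h
    have h1 : τ (x * y * x⁻¹ * y⁻¹) = 1 := by
      have h2 : x * y * x⁻¹ * y⁻¹ = (x * y) * (y * x)⁻¹ := by group
      rw [h2, map_mul, h, ← map_mul, mul_inv_cancel, map_one]
    have h3 := hfaith _ (hAm _ (A.mul_mem (A.mul_mem (A.mul_mem hx hy) (A.inv_mem hx))
      (A.inv_mem hy))) h1
    have h2 : x * y * x⁻¹ * y⁻¹ = (x * y) * (y * x)⁻¹ := by group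
    rw [h2, mul_inv_eq_one] at h3
    exact h3
  obtain ⟨Λ₀, Rd, b, hRd, hb0, hba, hidx, hidx1⟩ := zt_LZ hr hr2 ha hA hcl' hinv hD hne'
  -- the index
  have hr3 : 3 ≤ r := by
    have h1 := hr.two_le
    omega
  obtain ⟨n, hn⟩ : ∃ n : ℕ, Nat.card A = r ^ n := by
    have : Fact r.Prime := ⟨hr⟩
    exact IsPGroup.iff_card.1 hA
  have hdvd : (2 ^ b - 1) ∣ r ^ n := by
    rw [← hn]
    refine dvd_trans ?_ Rd.index_dvd_card
    rw [hidx]
    exact dvd_pow_self _ two_ne_zero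
  obtain ⟨j, -, hj⟩ := (Nat.dvd_prime_pow hr).1 hdvd
  have h2b : 1 ≤ 2 ^ b := Nat.one_le_two_pow
  have hj0 : 0 < j := by
    rcases Nat.eq_zero_or_pos j with h0 | h0
    · exfalso
      rw [h0, pow_zero] at hj
      rw [hidx, hj] at hidx1
      norm_num at hidx1
    · exact h0
  have hj1 : j = 1 := tw_mersenne hr hr2 hj0 (j := b) (by omega)
  have hrb : r = 2 ^ b - 1 := by rw [hj, hj1, pow_one]
  refine ⟨Λ₀.map A.subtype, Rd.map A.subtype, b, ?_, ?_, hba, hrb, ?_⟩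
  · intro x
    constructor
    · rintro ⟨x', hx', rfl⟩
      refine ⟨x'.2, fun y hy => ?_⟩
      exact ⟨_, (hRd x').1 hx' ⟨y, hy⟩, rfl⟩
    · rintro ⟨hx, h⟩
      refine ⟨⟨x, hx⟩, (hRd _).2 (fun y => ?_), rfl⟩
      obtain ⟨w, hw, hw'⟩ := h y y.2
      have h1 : w = (⟨x, hx⟩ : A) * y * (⟨x, hx⟩ : A)⁻¹ * y⁻¹ := Subtype.ext hw'
      rw [← h1]
      exact hw
  · by_contra hlt
    have hb1 : b = 1 := by omega
    rw [hb1] at hrb
    omega
  · have h1 : (Rd.map A.subtype).relIndex A = Rd.index := by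
      rw [Subgroup.relIndex]
      congr 1
      exact Subgroup.comap_map_eq_self_of_injective A.subtype_injective Rd
    rw [h1, hidx, ← hrb]

/-- **(L2)** -/
theorem zt_L2 {m r : ℕ} (hm : Odd m) (hr : r.Prime) (hr2 : r ≠ 2) {H : Type} [Group H]
    [Finite H] (hV : ZRep m 3 H) (A : Subgroup H) (hA : IsPGroup r A) (hAm : ∀ x ∈ A, x ^ m = 1)
    (hcl : ∀ x ∈ A, ∀ y ∈ A, ∀ w ∈ A, x * y * x⁻¹ * y⁻¹ * w = w * (x * y * x⁻¹ * y⁻¹)) {u : H}
    (hu : u ^ (2 ^ 3) = 1) (huA : ∀ x ∈ A, u * x * u⁻¹ ∈ A)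
    (hgen : ∀ B : Subgroup H, (∀ g ∈ A, u ^ 4 * g * (u ^ 4)⁻¹ = g⁻¹ → g ∈ B) → A ≤ B)
    (hz : ∀ x ∈ A, ∀ y ∈ A, u ^ 4 * (x * y * x⁻¹ * y⁻¹) = x * y * x⁻¹ * y⁻¹ * u ^ 4)
    (hne : ∃ x ∈ A, ∃ y ∈ A, x * y ≠ y * x) :
    ∃ Λ Rad : Subgroup H, (∀ x, x ∈ Rad ↔ x ∈ A ∧ ∀ y ∈ A, x * y * x⁻¹ * y⁻¹ ∈ Λ) ∧
      Rad.relIndex A = r ^ 2 := by
  obtain ⟨Λ, Rad, b, h1, -, -, -, h2⟩ := zt_L2g hm (by norm_num : 0 < 3) hr hr2 hV A hA hAm hcl hu
    huA (by simpa using hgen) hne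
  exact ⟨Λ, Rad, h1, h2⟩

end Pool.Agent.Lib.MP_544bd1_al
end

section

/-!
Theorem Z (paper 287), 4.4: the lifted group acts nontrivially.
-/

namespace Pool.Agent.Lib.MP_544bd1_al

open Subgroup

/-- the condition `C(g) ∩ I(z) = 1` passes to quotients by odd normal subgroups.

Proof. `s = f t`; `ys_fixlift` (ZsLiftS.lean, `N = ⊤`, `z := g`) gives `h` with `f h = s`, `g * h = h * g`. Let
`w = z * h⁻¹ * z * h` (`z ^ 2 = 1`): it commutes with `g` (`hgz`), `z * w * z⁻¹ = w⁻¹`, and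
`f w = s * s` (`f z` inverts `s`). Let `t` be a natural number with `2 ^ a * t ≡ 1` mod `m`:
`w' = w ^ (2 ^ a * t)` satisfies `w' ^ m = 1` (`hexp`), so `w' = 1` by `h`; and `f w' = s * s`
(`(s * s) ^ m = 1`). So `s * s = 1`, `s = 1` (`m` odd). -/
theorem ys_f4X {m a : ℕ} (hm : Odd m) {F X : Type} [Group F] [Finite F] [Group X]
    (hexp : ∀ x : F, x ^ (m * 2 ^ a) = 1) (f : F →* X) (hf : Function.Surjective f)
    (hker : ∀ x, f x = 1 → x ^ m = 1) {g z : F} (hg : g ^ (2 ^ a) = 1) (hz : z ^ 2 = 1)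
    (hgz : g * z = z * g)
    (h : ∀ s : F, s ^ m = 1 → g * s = s * g → z * s * z⁻¹ = s⁻¹ → s = 1) :
    ∀ s : X, s ^ m = 1 → f g * s = s * f g → f z * s * (f z)⁻¹ = s⁻¹ → s = 1 := by
  intro s hs hgs hzs
  have hcop : Nat.Coprime m (2 ^ a) := zt_cop hm a
  have hexp' : ∀ x : F, x ^ (2 ^ a * m) = 1 := fun x => by rw [mul_comm]; exact hexp x
  obtain ⟨t, rfl⟩ := hf s
  obtain ⟨y, _, hy, hgy⟩ := ys_fixlift hm f hker ⊤ hg (Subgroup.mem_top _) (Subgroup.mem_top _) hgs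
  have hzi : z⁻¹ = z := fr_inv_of_sq hz
  have hzz : z * z = 1 := fr_mul_self hz
  obtain ⟨w, hw⟩ : ∃ w, w = z * y⁻¹ * z⁻¹ * y := ⟨_, rfl⟩
  have hfw : f w = f t * f t := by
    rw [hw]
    simp only [map_mul, map_inv, hy]
    rw [show f z * (f t)⁻¹ * (f z)⁻¹ = (f z * f t * (f z)⁻¹)⁻¹ by group, hzs, inv_inv]
  have hgw : Commute g w := by
    have h1 : Commute g z := hgz
    have h2 : Commute g y := hgy
    rw [hw]
    exact ((h1.mul_right h2.inv_right).mul_right h1.inv_right).mul_right h2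
  have hzw : z * w * z⁻¹ = w⁻¹ := by
    rw [hw, hzi]
    calc z * (z * y⁻¹ * z * y) * z = (z * z) * y⁻¹ * z * y * z := by group
      _ = y⁻¹ * z * y * z := by rw [hzz, one_mul]
      _ = y⁻¹ * z⁻¹ * y * z⁻¹ := by rw [hzi]
      _ = (z * y⁻¹ * z * y)⁻¹ := by group
  obtain ⟨k, hk1, hk2⟩ := ys_lpow hcop.symm hexp' f (x := w) (by
    rw [hfw, ← pow_two, ← pow_mul, mul_comm, pow_mul, hs, one_pow])
  have h1 := h (w ^ k) hk2 (hgw.zpow_right k) (by rw [← conj_zpow, hzw, inv_zpow])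
  rw [h1, map_one, hfw, ← pow_two] at hk1
  exact fr_one_two hm hs hk1.symm

/-- **The lifted group acts nontrivially on `W₀ = O_2(X) ∩ C(τ ^ (3 ^ k))`, `k ≥ 1`.**

Proof. `τ₀ = τ ^ (3 ^ k)`, `κ = g ^ (2 ^ (a - 1))`, `z = ynorm (2 ^ (a - 1)) g p`. Suppose that `R'`
centralizes `W₀ = f.ker ⊓ centralizer {τ₀}`. (1) An element `x` commuting with `τ₀` such that `f x` normalizes
`R` normalizes `R'`: for `r ∈ R'`, `f (x * r * x⁻¹) ∈ R`, so there is `r' ∈ R'` with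
`f r' = f (x * r * x⁻¹)`, `x * r * x⁻¹ = w * r'`, `w ∈ W₀`; `w` and `r'` commute, `w` is a 2-element, and
`(w * r')` and `r'` are 3-elements: `w = 1`. (2) So `g`, the elements of `P`, and their products normalize
`R'`. `κ` commutes with `r ∈ R'`: `κ * r * κ⁻¹ * r⁻¹ ∈ R'` has the image `1` (`κR`). `z ∈ P` inverts
`e₁` (`ze`, `hinj`), and `e₁ ≠ e₁⁻¹` since `e₁` is odd and `≠ 1` (`f e₁ = e ≠ 1`): so `z` does not
commute with `e₁`. (3) `ys_chainP` for `O := R'`, `P`, `α := g`: there is `s₁ ∈ R'` commuting with `g`, not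
with `z`. `s = s₁⁻¹ * (z * s₁ * z⁻¹) ∈ R'` commutes with `g` (`z` does: `ynorm_comm`), is inverted by `z`,
`s ≠ 1`, `s ^ m = 1`: contradiction to `hC`. -/
theorem ys_lftne {m a k : ℕ} (hm : Odd m) (ha : 3 ≤ a) {X H : Type} [Group X] [Finite X]
    [Group H] (f : X →* H) (hker : ∀ w ∈ f.ker, ∃ j, w ^ (2 ^ j) = 1) {P : Subgroup X}
    {g τ p : X} (S : YPr m a k P g τ p) (τP : ∀ x ∈ P, τ ^ (3 ^ k) * x = x * τ ^ (3 ^ k))
    (hC : ∀ s : X, s ^ m = 1 → g * s = s * g →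
      ynorm (2 ^ (a - 1)) g p * s * (ynorm (2 ^ (a - 1)) g p)⁻¹ = s⁻¹ → s = 1)
    {R : Subgroup H} {e : H} (he1 : e ≠ 1)
    (hgR : ∀ r ∈ R, f g * r * (f g)⁻¹ ∈ R) (hPR : ∀ q ∈ P, ∀ r ∈ R, f q * r * (f q)⁻¹ ∈ R)
    (κR : ∀ r ∈ R, f g ^ (2 ^ (a - 1)) * r = r * f g ^ (2 ^ (a - 1)))
    (ze : f (ynorm (2 ^ (a - 1)) g p) * e * (f (ynorm (2 ^ (a - 1)) g p))⁻¹ = e⁻¹)
    {R' : Subgroup X} (hR3 : IsPGroup 3 R') (hRm : ∀ x ∈ R', x ^ m = 1)
    (hRτ : ∀ x ∈ R', τ ^ (3 ^ k) * x = x * τ ^ (3 ^ k)) (h1 : ∀ x ∈ R', f x ∈ R)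
    (h2 : ∀ y ∈ R, ∃ x ∈ R', f x = y) (hinj : ∀ x ∈ R', f x = 1 → x = 1) {e₁ : X}
    (he₁ : e₁ ∈ R') (hfe : f e₁ = e) :
    ∃ r ∈ R', ∃ x ∈ f.ker ⊓ centralizer {τ ^ (3 ^ k)}, r * x ≠ x * r := by
  by_contra hcon
  push Not at hcon
  obtain ⟨τ₀, hτ₀⟩ : ∃ τ₀, τ₀ = τ ^ (3 ^ k) := ⟨_, rfl⟩
  obtain ⟨z, hz⟩ : ∃ z, z = ynorm (2 ^ (a - 1)) g p := ⟨_, rfl⟩
  rw [← hτ₀] at hcon τP hRτ
  rw [← hz] at hC ze
  -- (1)
  have key : ∀ x : X, x * τ₀ = τ₀ * x → (∀ r ∈ R, f x * r * (f x)⁻¹ ∈ R) →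
      ∀ r ∈ R', x * r * x⁻¹ ∈ R' := by
    intro x hx hxR r hr
    obtain ⟨r', hr', hfr'⟩ := h2 _ (hxR (f r) (h1 r hr))
    obtain ⟨w, hw⟩ : ∃ w, w = x * r * x⁻¹ * r'⁻¹ := ⟨_, rfl⟩
    have hcx : Commute τ₀ x := hx.symm
    have hcr : Commute τ₀ r := hRτ r hr
    have hcr' : Commute τ₀ r' := hRτ r' hr'
    have hcw : Commute τ₀ w := by
      rw [hw]
      exact ((hcx.mul_right hcr).mul_right hcx.inv_right).mul_right hcr'.inv_right
    have hwk : w ∈ f.ker := by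
      rw [MonoidHom.mem_ker, hw, map_mul, map_mul, map_mul, map_inv, map_inv, hfr']
      group
    have hwW : w ∈ f.ker ⊓ centralizer {τ₀} := by
      refine ⟨hwk, ?_⟩
      show w ∈ centralizer {τ₀}
      rw [Subgroup.mem_centralizer_singleton_iff]
      exact hcw.symm.eq
    have hcomm : Commute r' w := hcon r' hr' w hwW
    obtain ⟨j, hj⟩ := hker w hwk
    have hxr : x * r * x⁻¹ = w * r' := by rw [hw]; group
    obtain ⟨j1, hj1⟩ := hR3 ⟨r, hr⟩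
    obtain ⟨j2, hj2⟩ := hR3 ⟨r', hr'⟩
    have hj1' : r ^ (3 ^ j1) = 1 := congrArg Subtype.val hj1
    have hj2' : r' ^ (3 ^ j2) = 1 := congrArg Subtype.val hj2
    have hw3 : w ^ (3 ^ (j1 + j2)) = 1 := by
      have e1 : (w * r') ^ (3 ^ (j1 + j2)) = 1 := by
        rw [← hxr, conj_pow, pow_add, pow_mul, hj1', one_pow]
        group
      rw [hcomm.symm.mul_pow, show r' ^ (3 ^ (j1 + j2)) = 1 by
        rw [pow_add, mul_comm, pow_mul, hj2', one_pow], mul_one] at e1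
      exact e1
    have hw1 : w = 1 := tw_one (M := 3 ^ (j1 + j2)) (P := 2 ^ j)
      (Nat.Coprime.pow _ _ (by norm_num)) hw3 hj
    rw [hxr, hw1, one_mul]
    exact hr'
  -- (2)
  have hgτ₀ : g * τ₀ = τ₀ * g := by
    rw [hτ₀]
    exact (Commute.pow_right (show Commute g τ from S.hgτ) _).eq
  have hgR' : ∀ r ∈ R', g * r * g⁻¹ ∈ R' := key g hgτ₀ hgR
  have hPR' : ∀ q ∈ P, ∀ r ∈ R', q * r * q⁻¹ ∈ R' := fun q hq =>
    key q (τP q hq).symm (hPR q hq)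
  have hκR' : ∀ r ∈ R', g ^ (2 ^ (a - 1)) * r = r * g ^ (2 ^ (a - 1)) := by
    intro r hr
    have e1 : g ^ (2 ^ (a - 1)) * r * (g ^ (2 ^ (a - 1)))⁻¹ * r⁻¹ = 1 := by
      apply hinj
      · exact R'.mul_mem (ys_pow_mem hgR' _ r hr) (R'.inv_mem hr)
      · rw [map_mul, map_mul, map_mul, map_inv, map_inv, map_pow, κR (f r) (h1 r hr)]
        group
    exact mul_inv_eq_iff_eq_mul.mp (mul_inv_eq_one.mp e1)
  have hzP : z ∈ P := by rw [hz]; exact ynorm_mem S.hgP S.hp _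
  have hz2 : z ^ 2 = 1 := S.sq z hzP
  have hze : z * e₁ * z⁻¹ = e₁⁻¹ := by
    have e1 : z * e₁ * z⁻¹ * e₁ = 1 := by
      apply hinj
      · exact R'.mul_mem (hPR' z hzP e₁ he₁) he₁
      · rw [map_mul, map_mul, map_mul, map_inv, hfe, ze, inv_mul_cancel]
    exact eq_inv_of_mul_eq_one_left e1
  have hne : ynorm (2 ^ (a - 1)) g p * e₁ ≠ e₁ * ynorm (2 ^ (a - 1)) g p := by
    rw [← hz]
    intro e1
    have e2 : e₁ = e₁⁻¹ := by
      rw [← hze, e1]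
      group
    have e3 : e₁ ^ 2 = 1 := by
      rw [pow_two]
      nth_rewrite 2 [e2]
      exact mul_inv_cancel e₁
    have e4 : e₁ = 1 := fr_one_two hm (hRm e₁ he₁) e3
    apply he1
    rw [← hfe, e4, map_one]
  -- (3)
  obtain ⟨s₁, hs₁, hgs₁, hzs₁⟩ := ys_chainP hm (by omega) R' P hRm S.sq S.hgP S.hp S.cen hgR' hPR'
    hκR' ⟨e₁, he₁, hne⟩
  rw [← hz] at hzs₁
  have hgz : g * z = z * g := by
    rw [hz]
    exact ynorm_comm S.hgP (ys_comm S.sq) S.hp (S.cen p S.hp)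
  obtain ⟨s, hs1, hs2, hs3, hs4⟩ := ys_fixinv hRm hz2 hgz hs₁ (hPR' z hzP) hgs₁ hzs₁
  exact hs1 (hC s hs2 hs3 hs4)

/-- **The lifted group acts nontrivially on `O_2(X)`**, if `O_{2'}(X) = 1`.

Proof. `fr_fitting` (FrB.lean or where it is; compare its use in `zt_krad_ne`, ZtMin.lean, now with
`k := 2 ^ a`, `l := m`; `hexp` with the factors exchanged): an element that centralizes `krad (2 ^ a) X` is in
it. So `e₁` would satisfy `e₁ ^ (2 ^ a) = 1` (`tw_krad_pow`) and `e₁ ^ 3 = 1`: `e₁ = 1`. -/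
theorem ys_lftne0 {m a : ℕ} (hm : Odd m) {X : Type} [Group X] [Finite X]
    (hsol : Group.IsSolvable X) (hexp : ∀ x : X, x ^ (m * 2 ^ a) = 1) (hbot : krad m X = ⊥)
    {e₁ : X} (he3 : e₁ ^ 3 = 1) (he1 : e₁ ≠ 1) :
    ∃ x ∈ krad (2 ^ a) X, e₁ * x ≠ x * e₁ := by
  by_contra hcon
  push Not at hcon
  have hexp' : ∀ x : X, x ^ (2 ^ a * m) = 1 := fun x => by rw [mul_comm]; exact hexp x
  have hcop : Nat.Coprime (2 ^ a) m := (zt_cop hm a).symm
  have h1 := fr_fitting hcop (pow_pos two_pos a) hm.pos hsol hexp' hbot hcon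
  have h2 := tw_krad_pow hcop hexp' e₁ h1
  apply he1
  exact tw_one (M := 3) (P := 2 ^ a) (Nat.Coprime.pow_right _ (by norm_num)) he3 h2

end Pool.Agent.Lib.MP_544bd1_al
end
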