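import Mathlib
import Pool.Agent.Lib.MP_544bd1_al.E5.Coind
import Pool.Agent.Lib.MP_544bd1_al.TwL3
import Pool.Agent.Lib.MP_544bd1_al.ZtFrat
import Pool.Agent.Lib.MP_544bd1_al.ZsC0
import Pool.Agent.Lib.MP_544bd1_al.GpCent
import Pool.Agent.Lib.MP_544bd1_al.TwLZ

section

/-!
Theorem Z (paper 287), (L+): weights of the center.
-/

namespace Pool.Agent.Lib.MP_544bd1_al

open Finset

variable {K V R : Type} [Field K] [AddCommGroup V] [Module K V] [Group R]

/-- a sum over a range of length `j * s` in blocks of length `j` -/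
private theorem ys_L3_blocks (U : Module.End K V) (j s : ℕ) :
    ∑ i ∈ range (j * s), U ^ i = (∑ i ∈ range j, U ^ i) * ∑ l ∈ range s, (U ^ j) ^ l := by
  induction s with
  | zero => simp
  | succ s ih =>
    rw [Nat.mul_succ, Finset.sum_range_add, ih, Finset.sum_range_succ, mul_add]
    congr 1
    rw [Finset.sum_mul]
    refine Finset.sum_congr rfl fun i _ => ?_
    rw [← pow_mul, ← pow_add, add_comm]

/-- iterates of `α ^ q` -/
private theorem ys_L3_iter_mul {q : ℕ} {α : R →* R} {ρ : R →* Module.End K V} {U : Module.End K V}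
    (D : LDat q α ρ U) (i : ℕ) (x : R) : ρ (α^[q * i] x) = ρ x := by
  induction i with
  | zero => rfl
  | succ i ih => rw [Nat.mul_succ, add_comm, Function.iterate_add_apply, D.iter_q, ih]

/-- the elements of `R` which are central on `V` are permuted by `α` -/
private theorem ys_L3_cent {q : ℕ} (hq : 0 < q) {α : R →* R} {ρ : R →* Module.End K V}
    {U : Module.End K V} (D : LDat q α ρ U) (k : ℕ) (x : R)
    (hx : ∀ y, ρ x * ρ y = ρ y * ρ x) (y : R) :
    ρ (α^[k] x) * ρ y = ρ y * ρ (α^[k] x) := by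
  have h1 : ∀ y, ρ (α^[k] x) * ρ (α^[k] y) = ρ (α^[k] y) * ρ (α^[k] x) := by
    intro y
    have hU : IsUnit (U ^ k) := by
      refine IsUnit.pow k ?_
      exact IsUnit.of_pow_eq_one D.hq hq.ne'
    refine hU.mul_right_cancel ?_
    rw [mul_assoc, ← D.iter, ← mul_assoc, ← D.iter, mul_assoc, hx, ← mul_assoc, D.iter,
      mul_assoc, D.iter, ← mul_assoc]
  have h2 : ρ y = ρ (α^[k] (α^[(q - 1) * k] y)) := by
    rw [← Function.iterate_add_apply, show k + (q - 1) * k = q * k by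
      obtain ⟨q, rfl⟩ := Nat.exists_eq_succ_of_ne_zero hq.ne'
      simp only [Nat.succ_eq_add_one, Nat.add_sub_cancel]
      ring, ys_L3_iter_mul D]
  rw [h2]
  exact h1 _

/-- The same as `tw_L3` (TwL3.lean), only the hypothesis of `hind` on `W` is stronger: a vector `w` of
`W` is `0` as soon as `∑ i ∈ range (p ^ b), (U ^ i) w = 0`.

Proof. Copy of the proof of `tw_L3` (private lemmas included). The only change: instead of `hnorm` prove
`∀ w ∈ W, (∑ i ∈ range j, U ^ i) w = 0 → w = 0` (this is exactly `h2` in the proof of `hnorm`: the vectors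
`U ^ i w`, `i < j`, have different weights, `tw_weights`), and derive `hnorm` from it (it is used for
`hbne`). -/
theorem ys_L3 [IsAlgClosed K] [FiniteDimensional K V] [Nontrivial V] {p a : ℕ} [Fact p.Prime]
    (ha : 0 < a) {α : R →* R} {ρ : R →* Module.End K V} {U : Module.End K V}
    (D : LDat (p ^ a) α ρ U)
    (hirr : ∀ W : Submodule K V, (∀ x, ∀ w ∈ W, ρ x w ∈ W) → (∀ w ∈ W, U w ∈ W) →
      W = ⊥ ∨ W = ⊤)
    (hind : ∀ (W : Submodule K V) (b : ℕ), W ≠ ⊤ → (∀ x, ∀ w ∈ W, ρ x w ∈ W) → 0 < b → b < a →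
      (∀ w ∈ W, (U ^ (p ^ b)) w ∈ W) →
      (∀ w ∈ W, (∑ i ∈ range (p ^ b), U ^ i) w = 0 → w = 0) →
      ∀ x, ∀ w ∈ W, ρ (α^[p ^ (a - 1)] x) w = ρ x w)
    (hno : ∃ x, ρ (α^[p ^ (a - 1)] x) ≠ ρ x) (x : R) (hx : ∀ y, ρ x * ρ y = ρ y * ρ x) :
    ∃ c : K, ρ x = c • 1 := by
  classical
  have hp : p.Prime := Fact.out
  set q : ℕ := p ^ a with hqdef
  have hq : 0 < q := pow_pos hp.pos a
  have hadd : ∀ i, (q - 1) * i + i = q * i := by
    intro i
    obtain ⟨t, ht⟩ := Nat.exists_eq_succ_of_ne_zero hq.ne'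
    rw [ht]
    simp only [Nat.succ_eq_add_one, Nat.add_sub_cancel]
    ring
  have hUinj : ∀ (k : ℕ) (v : V), (U ^ k) v = 0 → v = 0 := by
    intro k v hv
    have h1 : U ^ ((q - 1) * k) * U ^ k = 1 := by
      rw [← pow_add, hadd, pow_mul, D.hq, one_pow]
    have h2 : (U ^ ((q - 1) * k) * U ^ k) v = v := by rw [h1]; rfl
    rw [Module.End.mul_apply, hv, map_zero] at h2
    exact h2.symm
  let Z : R → Prop := fun x => ∀ y, ρ x * ρ y = ρ y * ρ x
  have hZ : ∀ (k : ℕ) (x : R), Z x → Z (α^[k] x) := fun k x hx y => ys_L3_cent hq D k x hx y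
  obtain ⟨χ₀, v₀, hv₀, hχ₀⟩ := tw_common_eigen (ι := {x : R // Z x}) (fun x => ρ x.1)
    (fun x y => x.2 y.1)
  let χ : R → K := fun x => if h : Z x then χ₀ ⟨x, h⟩ else 0
  have hχ : ∀ x, Z x → ρ x v₀ = χ x • v₀ := by
    intro x hx
    have e : χ x = χ₀ ⟨x, hx⟩ := dif_pos hx
    rw [e]
    exact hχ₀ ⟨x, hx⟩
  have hχeq : ∀ x y, Z x → Z y → ρ x = ρ y → χ x = χ y := by
    intro x y hx hy hxy
    have h1 : χ x • v₀ = χ y • v₀ := by rw [← hχ x hx, ← hχ y hy, hxy]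
    exact smul_left_injective K hv₀ h1
  let W : Submodule K V :=
    { carrier := {v | ∀ x, Z x → ρ x v = χ x • v}
      add_mem' := by
        intro u v hu hv x hx
        rw [map_add, hu x hx, hv x hx, smul_add]
      zero_mem' := by
        intro x _
        rw [map_zero, smul_zero]
      smul_mem' := by
        intro c v hv x hx
        rw [map_smul, hv x hx, smul_comm] }
  have hWmem : ∀ v, v ∈ W ↔ ∀ x, Z x → ρ x v = χ x • v := fun v => Iff.rfl
  have hv₀W : v₀ ∈ W := hχ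
  have hWρ : ∀ x, ∀ w ∈ W, ρ x w ∈ W := by
    intro y w hw x hx
    rw [← Module.End.mul_apply, hx y, Module.End.mul_apply, hw x hx, map_smul]
  -- weights of `U ^ i w`
  have hwt : ∀ (i : ℕ) (w : V), w ∈ W → ∀ x, Z x →
      ρ x ((U ^ i) w) = χ (α^[(q - 1) * i] x) • (U ^ i) w := by
    intro i w hw x hx
    have h1 : U ^ i * ρ (α^[(q - 1) * i] x) = ρ x * U ^ i := by
      rw [D.iter, ← Function.iterate_add_apply, add_comm, hadd, ys_L3_iter_mul D]
    have h2 := congrArg (fun T : Module.End K V => T w) h1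
    simp only [Module.End.mul_apply] at h2
    rw [← h2, hw _ (hZ _ x hx), map_smul]
  -- the property of the shifts
  let P : ℕ → Prop := fun i => ∀ x, Z x → χ (α^[(q - 1) * i] x) = χ x
  have hPq : P q := by
    intro x hx
    refine hχeq _ _ (hZ _ x hx) hx ?_
    rw [mul_comm (q - 1) q, ys_L3_iter_mul D]
  have hPadd : ∀ i l, P i → P l → P (i + l) := by
    intro i l hi hl x hx
    rw [mul_add, Function.iterate_add_apply, hi _ (hZ _ x hx), hl x hx]
  have hPsub : ∀ i l, P (i + l) → P l → P i := by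
    intro i l hil hl x hx
    have h1 := hil (α^[l] x) (hZ l x hx)
    have h2 := hl (α^[l] x) (hZ l x hx)
    rw [← Function.iterate_add_apply] at h1 h2
    rw [hadd] at h2
    have h3 : χ (α^[q * l] x) = χ x := hχeq _ _ (hZ _ x hx) hx (ys_L3_iter_mul D l x)
    have e1 : (q - 1) * (i + l) + l = q * l + (q - 1) * i := by
      rw [mul_add, add_assoc, hadd, add_comm]
    have h4 : χ (α^[(q - 1) * (i + l) + l] x) = χ (α^[(q - 1) * i] x) := by
      rw [e1, Function.iterate_add_apply]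
      exact hχeq _ _ (hZ _ _ (hZ _ x hx)) (hZ _ x hx) (ys_L3_iter_mul D l _)
    rw [← h4, h1, ← h2, h3]
  have hPmul : ∀ j s, P j → P (j * s) := by
    intro j s hj
    induction s with
    | zero => intro x _; rfl
    | succ s ih => rw [Nat.mul_succ]; exact hPadd _ _ ih hj
  have hex : ∃ j, 0 < j ∧ P j := ⟨q, hq, hPq⟩
  obtain ⟨hj0, hPj⟩ := Nat.find_spec hex
  have hjmin : ∀ i, 0 < i → i < Nat.find hex → ¬ P i := fun i h1 h2 h3 =>
    Nat.find_min hex h2 ⟨h1, h3⟩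
  set j : ℕ := Nat.find hex with hj
  have hjq : j ∣ q := by
    by_contra hnd
    have h1 : 0 < q % j := Nat.pos_of_ne_zero fun h => hnd (Nat.dvd_of_mod_eq_zero h)
    refine hjmin (q % j) h1 (Nat.mod_lt _ hj0) (hPsub _ (j * (q / j)) ?_ (hPmul _ _ hPj))
    rw [Nat.mod_add_div]
    exact hPq
  obtain ⟨b, hba, hjb⟩ := (Nat.dvd_prime_pow hp).1 hjq
  have hWUj : ∀ w ∈ W, (U ^ j) w ∈ W := by
    intro w hw x hx
    rw [hwt j w hw x hx, hPj x hx]
  rcases Nat.eq_zero_or_pos b with hb | hb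
  · -- the case `j = 1`
    have hj1 : j = 1 := by rw [hjb, hb, pow_zero]
    have hWU : ∀ w ∈ W, U w ∈ W := by
      intro w hw
      have := hWUj w hw
      rwa [hj1, pow_one] at this
    rcases hirr W hWρ hWU with h | h
    · rw [h, Submodule.mem_bot] at hv₀W
      exact absurd hv₀W hv₀
    · refine ⟨χ x, LinearMap.ext fun v => ?_⟩
      have hv : v ∈ W := by rw [h]; exact Submodule.mem_top
      exact hv x hx
  exfalso
  have hj1 : 1 < j := by
    rw [hjb]
    exact Nat.one_lt_pow hb.ne' hp.one_lt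
  have hWtop : W ≠ ⊤ := by
    intro h
    refine hjmin 1 one_pos hj1 fun x hx => ?_
    have h1 := hwt 1 v₀ hv₀W x hx
    have h2 : (U ^ 1) v₀ ∈ W := by rw [h]; exact Submodule.mem_top
    rw [h2 x hx] at h1
    have h3 : (U ^ 1) v₀ ≠ 0 := fun h => hv₀ (hUinj 1 v₀ h)
    exact (smul_left_injective K h3 h1).symm
  -- the partial norm vanishes on `W`
  have hWUl : ∀ (l : ℕ), ∀ w ∈ W, ((U ^ j) ^ l) w ∈ W := by
    intro l
    induction l with
    | zero => intro w hw; exact hw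
    | succ l ih =>
      intro w hw
      rw [pow_succ, Module.End.mul_apply]
      exact ih _ (hWUj w hw)
  have hinj : ∀ w ∈ W, (∑ i ∈ range j, U ^ i) w = 0 → w = 0 := by
    intro w hw h0
    have h1 : ∑ i ∈ range (j - 1 + 1), (U ^ i) w = 0 := by
      rw [Nat.sub_add_cancel hj0, ← LinearMap.sum_apply, h0]
    exact tw_weights (ι := {x : R // Z x}) (fun x => ρ x.1) (j - 1)
      (fun i x => χ (α^[(q - 1) * i] x.1)) (fun i => (U ^ i) w)
      (fun i _ x => hwt i w hw x.1 x.2)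
      (fun i hi1 hi2 h => hjmin i hi1 (by omega) fun x hx => congrFun h ⟨x, hx⟩) h1
  have hnorm : ∀ w ∈ W, (∑ l ∈ range (q / j), (U ^ j) ^ l) w = 0 := by
    intro w hw
    refine hinj _ ?_ ?_
    · rw [LinearMap.sum_apply]
      exact Submodule.sum_mem _ fun l _ => hWUl l w hw
    · rw [← Module.End.mul_apply, ← ys_L3_blocks, Nat.mul_div_cancel' hjq, D.hN]
      rfl
  have hbne : b ≠ a := by
    intro h
    have hjq' : j = q := by rw [hjb, h]
    have h1 := hnorm v₀ hv₀W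
    rw [hjq', Nat.div_self hq, Finset.sum_range_one, pow_zero] at h1
    exact hv₀ h1
  have hba' : b < a := lt_of_le_of_ne hba hbne
  rw [hjb] at hinj hWUj
  have hind' := hind W b hWtop hWρ hb hba' hWUj hinj
  -- the fixed space
  let W₀ : Submodule K V :=
    { carrier := {v | ∀ x, ρ (α^[p ^ (a - 1)] x) v = ρ x v}
      add_mem' := by
        intro u v hu hv x
        rw [map_add, map_add, hu x, hv x]
      zero_mem' := by
        intro x
        rw [map_zero, map_zero]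
      smul_mem' := by
        intro c v hv x
        rw [map_smul, map_smul, hv x] }
  have hW₀ρ : ∀ x, ∀ w ∈ W₀, ρ x w ∈ W₀ := by
    intro y w hw x
    rw [← hw y, ← Module.End.mul_apply, ← map_mul, ← iterate_map_mul, hw (x * y), hw y, map_mul,
      Module.End.mul_apply]
  have hW₀U : ∀ w ∈ W₀, U w ∈ W₀ := by
    intro w hw x
    have key : ∀ z, ρ z (U w) = U (ρ (α^[q - 1] z) w) := by
      intro z
      have h1 : U * ρ (α^[q - 1] z) = ρ z * U := by
        rw [D.hU, ← Function.iterate_succ_apply' (⇑α) (q - 1) z, Nat.succ_eq_add_one,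
          Nat.sub_add_cancel hq, D.iter_q]
      have h2 := congrArg (fun T : Module.End K V => T w) h1
      simp only [Module.End.mul_apply] at h2
      exact h2.symm
    rw [key, key, ← Function.iterate_add_apply, add_comm, Function.iterate_add_apply, hw]
  obtain ⟨z, hz⟩ := hno
  rcases hirr W₀ hW₀ρ hW₀U with h | h
  · have h1 : v₀ ∈ W₀ := fun x => hind' x v₀ hv₀W
    rw [h, Submodule.mem_bot] at h1
    exact hv₀ h1
  · refine hz (LinearMap.ext fun v => ?_)
    have h1 : v ∈ W₀ := by rw [h]; exact Submodule.mem_top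
    exact h1 z

end Pool.Agent.Lib.MP_544bd1_al
end

section

/-!
Theorem Z3, Case A: subgroups covering the configuration modulo `Q`.
-/

namespace Pool.Agent.Lib.MP_544bd1_al

open Subgroup

/-- A subgroup `H'` containing `x` and `ρ` modulo `Q` and an element `h ∈ Q` with `φ h ≠ 0` contains
`Q`.

Proof. Let `Z = {z ∈ Q | φ z = 0}` (central in `Q`, centralized by `R`: `M.ker`; normalized by all of
`F`: `M.eqv`) and `Q₁ = {a ∈ Q | ∃ z : Q, φ z = 0 ∧ a * z ∈ H'}`: a subgroup of `Q` (`Z` is central). It is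
invariant under `x`: for `a * z ∈ H'`:
`(k * x) * (a * z) * (k * x)⁻¹ = k * (x * a * x⁻¹) * k⁻¹ * (x * z * x⁻¹)`
`= (x * a * x⁻¹) * (c * (x * z * x⁻¹))` with `c` a commutator of elements of `Q`, `φ c = 0`; the same for
`ρ`. So `Q₁` is normalized by `ρ`, `x`, `x⁻¹` (finite), `x * ρ * x⁻¹` and by `R` (`D.gen` for the
subgroup `normalizer Q₁`). If `Q₁ ≠ Q` then `R` centralizes `Q₁ ∋ h` (`D.core.min`) and `φ h = 0` by
`zt_irr` (1), contradiction. So `Q₁ = Q`; for `a, b ∈ Q` with `a * z, b * z' ∈ H'` the commutator of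
`a, b` is the commutator of `a * z, b * z'`, so it is in `H'`; hence `⁅Q, Q⁆ ≤ H'`, and `Z ≤ ⁅Q, Q⁆`
(`zt_irr` (2)) gives `a = (a * z) * z⁻¹ ∈ H'`. -/
theorem zt_cover {F : Type} [Group F] [Finite F] {r : ℕ} (hr : r.Prime) (hr2 : r ≠ 2)
    {Q R : Subgroup F} [Q.Normal] {x ρ : F} (D : ZHon r Q R x ρ) {V : Type} [AddCommGroup V]
    [Module (ZMod 2) V] {τ : F →* Module.End (ZMod 2) V} {φ : Q → V} (M : ZMd Q R τ φ)
    (H' : Subgroup F) {k k' : F} (hk : k ∈ Q) (hk' : k' ∈ Q) (hx : k * x ∈ H')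
    (hρ : k' * ρ ∈ H') {h : Q} (hh : (h : F) ∈ H') (hh0 : φ h ≠ 0) : Q ≤ H' := by
  obtain ⟨irr1, irr2, -, -⟩ := zt_irr hr hr2 D.core M
  have hQn : Q.Normal := inferInstance
  -- the kernel
  have φ1 : φ 1 = 0 := by
    have h1 := M.add 1 1
    rw [mul_one] at h1
    exact left_eq_add.1 h1
  have Zmul : ∀ a b : Q, φ a = 0 → φ b = 0 → φ (a * b) = 0 := by
    intro a b ha hb
    rw [M.add, ha, hb, add_zero]
  have Zinv : ∀ a : Q, φ a = 0 → φ a⁻¹ = 0 := by
    intro a ha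
    have h1 := M.add a a⁻¹
    rw [mul_inv_cancel, φ1, ha, zero_add] at h1
    exact h1.symm
  have Zc : ∀ a : Q, φ a = 0 → ∀ y ∈ Q, (a : F) * y = y * a := fun a ha => (M.ker a ha).2
  have Zcj : ∀ (g : F) (a : Q), φ a = 0 → φ ⟨g * a * g⁻¹, hQn.conj_mem _ a.2 g⟩ = 0 := by
    intro g a ha
    rw [M.eqv, ha, map_zero]
  have Zcomm : ∀ a b : Q, φ (a * b * a⁻¹ * b⁻¹) = 0 := by
    intro a b
    have h1 : φ (a * b) = φ (a * b * a⁻¹ * b⁻¹) + φ (b * a) := by
      rw [← M.add]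
      congr 1
      group
    rw [M.add a b, M.add b a, add_comm (φ b)] at h1
    exact right_eq_add.1 h1
  -- the subgroup `Q₁`
  let Q1 : Subgroup F :=
    { carrier := {a | a ∈ Q ∧ ∃ z : Q, φ z = 0 ∧ a * z ∈ H'}
      mul_mem' := by
        rintro a b ⟨ha, z, hz, haz⟩ ⟨hb, z', hz', hbz⟩
        refine ⟨Q.mul_mem ha hb, z * z', Zmul _ _ hz hz', ?_⟩
        have h1 : a * b * ((z * z' : Q) : F) = (a * z) * (b * z') := by
          rw [Subgroup.coe_mul, mul_assoc a b, mul_assoc a z, ← mul_assoc b, ← Zc z hz b hb, mul_assoc (z : F)]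
        rw [h1]
        exact H'.mul_mem haz hbz
      one_mem' := ⟨Q.one_mem, 1, φ1, by rw [Subgroup.coe_one, mul_one]; exact H'.one_mem⟩
      inv_mem' := by
        rintro a ⟨ha, z, hz, haz⟩
        refine ⟨Q.inv_mem ha, z⁻¹, Zinv _ hz, ?_⟩
        have h1 : a⁻¹ * ((z⁻¹ : Q) : F) = (a * z)⁻¹ := by
          rw [← Zc z⁻¹ (Zinv _ hz) a⁻¹ (Q.inv_mem ha), Subgroup.coe_inv, mul_inv_rev]
        rw [h1]
        exact H'.inv_mem haz }
  have hQ1 : Q1 ≤ Q := fun a ha => ha.1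
  have hinv : ∀ (u k : F), k ∈ Q → k * u ∈ H' → ∀ a ∈ Q1, u * a * u⁻¹ ∈ Q1 := by
    rintro u k hk hku a ⟨ha, z, hz, haz⟩
    have h1 : u * a * u⁻¹ ∈ Q := hQn.conj_mem a ha u
    set a' : Q := ⟨u * a * u⁻¹, h1⟩ with ha'
    set z' : Q := ⟨u * z * u⁻¹, hQn.conj_mem _ z.2 u⟩ with hz'
    have hz'0 : φ z' = 0 := Zcj u z hz
    set c : Q := a'⁻¹ * ⟨k, hk⟩ * a' * ⟨k, hk⟩⁻¹ with hc
    have hc0 : φ c = 0 := by
      have := Zcomm a'⁻¹ ⟨k, hk⟩
      rw [inv_inv] at this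
      exact this
    refine ⟨h1, c * z', Zmul _ _ hc0 hz'0, ?_⟩
    have h2 : u * a * u⁻¹ * ((c * z' : Q) : F) = (k * u) * (a * z) * (k * u)⁻¹ := by
      have e1 : (z' : F) * k⁻¹ = k⁻¹ * z' := Zc z' hz'0 k⁻¹ (Q.inv_mem hk)
      have e2 : ((c * z' : Q) : F) = (a' : F)⁻¹ * k * a' * k⁻¹ * z' := rfl
      have e3 : (a' : F) = u * a * u⁻¹ := rfl
      have e4 : (z' : F) = u * z * u⁻¹ := rfl
      rw [e2, mul_assoc _ k⁻¹, ← e1, e3, e4]
      group
    rw [h2]
    exact H'.mul_mem (H'.mul_mem hku haz) (H'.inv_mem hku)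
  let S : Subgroup F :=
    { carrier := {u | ∃ k ∈ Q, k * u ∈ H'}
      mul_mem' := by
        rintro u v ⟨k, hk, hku⟩ ⟨l, hl, hlv⟩
        refine ⟨k * (u * l * u⁻¹), Q.mul_mem hk (hQn.conj_mem l hl u), ?_⟩
        have h1 : k * (u * l * u⁻¹) * (u * v) = (k * u) * (l * v) := by group
        rw [h1]
        exact H'.mul_mem hku hlv
      one_mem' := ⟨1, Q.one_mem, by rw [mul_one]; exact H'.one_mem⟩
      inv_mem' := by
        rintro u ⟨k, hk, hku⟩
        refine ⟨u⁻¹ * k⁻¹ * u⁻¹⁻¹, hQn.conj_mem k⁻¹ (Q.inv_mem hk) u⁻¹, ?_⟩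
        have h1 : u⁻¹ * k⁻¹ * u⁻¹⁻¹ * u⁻¹ = (k * u)⁻¹ := by group
        rw [h1]
        exact H'.inv_mem hku }
  have hxS : x ∈ S := ⟨k, hk, hx⟩
  have hρS : ρ ∈ S := ⟨k', hk', hρ⟩
  have hRS : R ≤ S := D.gen S hρS (S.mul_mem (S.mul_mem hxS hρS) (S.inv_mem hxS))
  have hSinv : ∀ u ∈ S, ∀ a ∈ Q1, u * a * u⁻¹ ∈ Q1 := by
    rintro u ⟨l, hl, hlu⟩ a ha
    exact hinv u l hl hlu a ha
  have hQeq : Q1 = Q := by
    by_contra hne
    have h1 := D.core.min Q1 hQ1 hne (fun g hg q hq => hSinv g (hRS hg) q hq) (fun q hq => hSinv x hxS q hq)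
    have h2 : (h : F) ∈ Q1 := ⟨h.2, 1, φ1, by rw [Subgroup.coe_one, mul_one]; exact hh⟩
    exact hh0 (irr1 h fun g hg => h1 g hg h h2)
  have hQ1' : ∀ a ∈ Q, ∃ z : Q, φ z = 0 ∧ a * z ∈ H' := by
    intro a ha
    rw [← hQeq] at ha
    exact ha.2
  have hcom : ⁅Q, Q⁆ ≤ H' := by
    rw [Subgroup.commutator_le]
    intro a ha b hb
    obtain ⟨z, hz, haz⟩ := hQ1' a ha
    obtain ⟨z', hz', hbz⟩ := hQ1' b hb
    have h1 : a * b * a⁻¹ * b⁻¹ = (a * z) * (b * z') * (a * z)⁻¹ * (b * z')⁻¹ := by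
      have e1 : (z : F) * b = b * z := Zc z hz b hb
      have e2 : (z' : F) * a⁻¹ = a⁻¹ * z' := Zc z' hz' a⁻¹ (Q.inv_mem ha)
      have e3 : (z : F) * z' = z' * z := Zc z hz z' z'.2
      calc a * b * a⁻¹ * b⁻¹ = a * b * (a⁻¹ * z') * (z' : F)⁻¹ * b⁻¹ := by group
        _ = a * b * (z' * a⁻¹) * (z' : F)⁻¹ * b⁻¹ := by rw [e2]
        _ = a * b * (z' * z) * (z : F)⁻¹ * a⁻¹ * (z' : F)⁻¹ * b⁻¹ := by group
        _ = a * b * (z * z') * (z : F)⁻¹ * a⁻¹ * (z' : F)⁻¹ * b⁻¹ := by rw [e3]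
        _ = a * (b * z) * z' * (z : F)⁻¹ * a⁻¹ * (z' : F)⁻¹ * b⁻¹ := by group
        _ = a * (z * b) * z' * (z : F)⁻¹ * a⁻¹ * (z' : F)⁻¹ * b⁻¹ := by rw [e1]
        _ = (a * z) * (b * z') * (a * z)⁻¹ * (b * z')⁻¹ := by group
    rw [commutatorElement_def, h1]
    exact H'.mul_mem (H'.mul_mem (H'.mul_mem haz hbz) (H'.inv_mem haz)) (H'.inv_mem hbz)
  intro a ha
  obtain ⟨z, hz, haz⟩ := hQ1' a ha
  have h1 : (z : F) ∈ H' := hcom (irr2 z hz).1
  have h2 : a = a * z * (z : F)⁻¹ := by group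
  rw [h2]
  exact H'.mul_mem haz (H'.inv_mem h1)

end Pool.Agent.Lib.MP_544bd1_al
end

section

/-!
Theorem Z (paper 287), (L+): the irreducible case.
-/

namespace Pool.Agent.Lib.MP_544bd1_al

open Finset Subgroup

/-- **(L+), irreducible case.**

Proof. Copy of the proof of `zt_L5` (ZtL5.lean; `zt_L5a` there is private: copy it, or use `tw_L5a`,
`Nat.card X` is all that is needed). At the end (`N = u - 1`, `D = finrank V`, `q = p ^ a`) we have
`N ^ (D - 1) ≠ 0` (`hND`), `D + 1 ≤ q` (`hDq`), `D * D = (1 + q * t) * c` (`hDD`), `1 ≤ c`, `1 ≤ t`, and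
`zt_K3` gives `1 + q * t = (q - 1) ^ 2`. So `D * D ≥ (q - 1) ^ 2`, `D = q - 1`, and
`N ^ (q - 2) = N ^ (D - 1) ≠ 0`; `q ≥ 3` from `1 + q * t = (q - 1) ^ 2`, `t ≥ 1`. -/
theorem ys_L5 {K V : Type} [Field K] [IsAlgClosed K] [AddCommGroup V] [Module K V]
    [FiniteDimensional K V] [Nontrivial V] {p r a : ℕ} [Fact p.Prime] [CharP K p] (hr : r.Prime)
    (hrp : r ≠ p) (ha : 0 < a)
    (Γ : Subgroup (Module.End K V)ˣ) [Finite Γ] (hΓ : IsPGroup r Γ)
    (u z : (Module.End K V)ˣ) (hu : u ^ (p ^ a) = 1) (hz : z = u ^ (p ^ (a - 1)))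
    (huΓ : ∀ x ∈ Γ, u * x * u⁻¹ ∈ Γ)
    (hirr : ∀ W : Submodule K V, (∀ x ∈ Γ, ∀ w ∈ W, (x : Module.End K V) w ∈ W) →
      (∀ w ∈ W, (u : Module.End K V) w ∈ W) → W = ⊥ ∨ W = ⊤)
    (hZ : ∀ x ∈ Γ, (∀ y ∈ Γ, x * y = y * x) → ∃ c : K, (x : Module.End K V) = c • 1)
    (h1 : ∀ x ∈ Γ, ∀ y ∈ Γ, ∀ w ∈ Γ, (x * y * x⁻¹ * y⁻¹) * w = w * (x * y * x⁻¹ * y⁻¹))
    (h2 : ∀ x ∈ Γ, (∀ w ∈ Γ, (x⁻¹ * (z * x * z⁻¹)) * w = w * (x⁻¹ * (z * x * z⁻¹))) →
      ∀ w ∈ Γ, x * w = w * x)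
    (hno : ∃ x ∈ Γ, ∃ y ∈ Γ, x * y ≠ y * x)
    (hN : ∑ i ∈ range (p ^ a), (u : Module.End K V) ^ i = 0) :
    ((u : Module.End K V) - 1) ^ (p ^ a - 2) ≠ 0 ∧ 3 ≤ p ^ a := by
  have hp : p.Prime := Fact.out
  obtain ⟨X, hGrp, hFin, e, b, σ, hA, -, hcov, hσ1, hσb, hσu, hσq, hσz, -, hX1⟩ :=
    tw_L5a hr hrp ha Γ hΓ u z hu hz huΓ hZ h1 h2 hno
  obtain ⟨T, hT⟩ := tw_orb hp ha σ hσ1 hσq hσz
  set φ := tw_L5_conj K u with hφdef
  have hφ : ∀ x, ∃ c : K, φ (e x : Module.End K V) = c • (e (σ x) : Module.End K V) := by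
    intro x
    obtain ⟨c, hc⟩ := hσu x
    refine ⟨c, ?_⟩
    rw [← hc, hφdef, tw_L5_conj_apply, Units.val_mul, Units.val_mul]
  have hb1 : ∀ y, b y 1 = 1 := by
    intro y
    obtain ⟨hb0, -, -, hbm⟩ := hA.bmul
    have h3 := hbm y 1 1
    rw [mul_one] at h3
    have h4 : b y 1 * 1 = b y 1 * b y 1 := by rw [mul_one]; exact h3
    exact (mul_left_cancel₀ (hb0 y 1) h4).symm
  have hfix1 : ∀ A, A ∈ Wt e b 1 → φ A = A → ∃ c : K, A = c • 1 := by
    intro A hAW hAφ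
    refine tw_L5_schur Γ u hirr A ?_ ((tw_L5_conj_eq K u A).1 hAφ)
    intro g hg
    obtain ⟨x, c, hc⟩ := hcov g hg
    have h3 : (e x : Module.End K V) * A = b x 1 • (A * (e x : Module.End K V)) := hAW x
    rw [hb1, one_smul] at h3
    rw [hc, smul_mul_assoc, h3, mul_smul_comm]
  set N : Module.End K V := (u : Module.End K V) - 1 with hNdef
  obtain ⟨hp1, -⟩ := tw_norm_pow (a := a) (u : Module.End K V) (p := p)
  have hNq : N ^ (p ^ a - 1) = 0 := by rw [hNdef, hp1, hN]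
  have hcommφ : ∀ B : Module.End K V, B * N = N * B → φ B = B := by
    intro B hB
    refine (tw_L5_conj_eq K u B).2 ?_
    rw [hNdef, mul_sub, sub_mul, mul_one, one_mul] at hB
    exact (sub_left_injective hB).symm
  have hker : Module.finrank K (LinearMap.ker N) ≤ 1 := by
    refine tw_K1 N (p ^ a - 1) hNq ?_
    intro B hB
    obtain ⟨c, hc⟩ := hA.fix_formula φ σ hσb hφ T hT hσ1 hfix1 B (hcommφ B hB)
    refine ⟨c, ?_⟩
    intro v hv
    have huv : (u : Module.End K V) v = v := by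
      rw [hNdef, LinearMap.sub_apply, Module.End.one_apply, sub_eq_zero] at hv
      exact hv
    have huv' : ((u⁻¹ : (Module.End K V)ˣ) : Module.End K V) v = v := by
      have h3 : ((u⁻¹ : (Module.End K V)ˣ) : Module.End K V) ((u : Module.End K V) v) = v := by
        rw [← Module.End.mul_apply, Units.inv_mul, Module.End.one_apply]
      rwa [huv] at h3
    have hpow : ∀ i : ℕ, (((u⁻¹ : (Module.End K V)ˣ) : Module.End K V) ^ i) v = v := by
      intro i
      induction i with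
      | zero => simp
      | succ i ih => rw [pow_succ, Module.End.mul_apply, huv', ih]
    have hsum : ∀ C : Module.End K V,
        (∑ i ∈ range (p ^ a), (φ^[i]) C) v = 0 := by
      intro C
      rw [LinearMap.sum_apply]
      have h3 : ∀ i ∈ range (p ^ a), ((φ^[i]) C) v = ((u : Module.End K V) ^ i) (C v) := by
        intro i _
        rw [hφdef, tw_L5_conj_iter, Module.End.mul_apply, Module.End.mul_apply, hpow]
      rw [sum_congr rfl h3, ← LinearMap.sum_apply, hN, LinearMap.zero_apply]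
    have h4 := LinearMap.congr_fun hc v
    rw [h4, LinearMap.add_apply, LinearMap.sum_apply, sum_eq_zero (fun t _ => hsum _), add_zero]
    simp
  obtain ⟨hND, hFD⟩ := tw_K2 N (p ^ a - 1) hNq hker
  set D := Module.finrank K V with hD
  have hDpos : 0 < D := Module.finrank_pos
  have hDq : D + 1 ≤ p ^ a := by
    by_contra hcon
    push Not at hcon
    apply hND
    have h3 : D - 1 = (p ^ a - 1) + (D - 1 - (p ^ a - 1)) := by omega
    rw [h3, pow_add, hNq, zero_mul]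
  have hDF : D ≤ 1 + T.card * Module.finrank K (Wt e b 1) := by
    have h3 := hFD (tw_L5_fix K u) (fun B hB => hcommφ B hB)
    exact h3.trans (hA.dim_fix φ σ hσb hφ T hT hσ1 hfix1 (tw_L5_fix K u) (fun A hA => hA))
  have hc1 : 1 ≤ Module.finrank K (Wt e b 1) := by
    have h1mem : (1 : Module.End K V) ∈ Wt e b 1 := by
      intro y
      rw [hb1, one_smul, mul_one, one_mul]
    have hnt : Nontrivial (Wt e b 1) := by
      refine ⟨⟨⟨1, h1mem⟩, 0, ?_⟩⟩
      intro h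
      have h3 := congrArg Subtype.val h
      exact one_ne_zero (α := Module.End K V) (by simp at h3)
    exact Module.finrank_pos
  have hcard : Nat.card X = 1 + p ^ a * T.card := by
    have h3 := hT ℕ (fun _ => 1)
    simp only [sum_const, card_univ, card_range, smul_eq_mul, mul_one] at h3
    rw [Nat.card_eq_fintype_card, h3, mul_comm]
  have hT1 : 1 ≤ T.card := by
    by_contra hcon
    have h3 : T.card = 0 := by omega
    rw [hcard, h3] at hX1
    omega
  have hDD : D * D = (1 + p ^ a * T.card) * Module.finrank K (Wt e b 1) := by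
    rw [← hcard, ← hA.dim, hD]
    exact (Module.finrank_linearMap K K V V).symm
  have h9 := zt_K3 hDD hDF hDq hc1 hT1
  obtain ⟨q, hq⟩ : ∃ q, q = p ^ a := ⟨_, rfl⟩
  rw [← hq] at h9 hDD hDq ⊢
  have hq3 : 3 ≤ q := by
    by_contra hcon
    have h10 : q - 1 ≤ 1 := by omega
    have h11 : (q - 1) ^ 2 ≤ 1 := (Nat.pow_le_pow_left h10 2).trans (by norm_num)
    have h12 : 1 ≤ q * T.card := Nat.mul_pos (by omega) hT1
    omega
  have hDge : q - 1 ≤ D := by
    by_contra hcon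
    have h10 : D * D < (q - 1) * (q - 1) := Nat.mul_self_lt_mul_self (by omega)
    rw [hDD, h9, pow_two] at h10
    have h11 : (q - 1) * (q - 1) ≤ (q - 1) * (q - 1) * Module.finrank K (Wt e b 1) :=
      Nat.le_mul_of_pos_right _ hc1
    omega
  have hDe : D - 1 = q - 2 := by omega
  rw [hDe] at hND
  exact ⟨hND, hq3⟩


end Pool.Agent.Lib.MP_544bd1_al
end

section

/-!
Theorem Z (paper 287), (L+): a lower bound for the nilpotency index of `u - 1`.
-/

namespace Pool.Agent.Lib.MP_544bd1_al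

open Finset Subgroup

/-- powers of `P - 1` and `Q - 1` are intertwined -/
private theorem ys_pow {K A B : Type} [Field K] [AddCommGroup A] [Module K A] [AddCommGroup B]
    [Module K B] (f : A →ₗ[K] B) (P : Module.End K A) (Q : Module.End K B)
    (h : ∀ x, f (P x) = Q (f x)) (n : ℕ) (x : A) :
    f (((P - 1) ^ n) x) = ((Q - 1) ^ n) (f x) := by
  induction n generalizing x with
  | zero => rfl
  | succ n ih =>
    rw [pow_succ, pow_succ, Module.End.mul_apply, Module.End.mul_apply, ih]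
    congr 1
    rw [LinearMap.sub_apply, LinearMap.sub_apply, map_sub, h]
    rfl

/-- a sum over a range of length `j * s` in blocks of length `j` -/
private theorem ys_blocks {K V : Type} [Field K] [AddCommGroup V] [Module K V]
    (U : Module.End K V) (j s : ℕ) :
    ∑ i ∈ range (j * s), U ^ i = (∑ i ∈ range j, U ^ i) * ∑ l ∈ range s, (U ^ j) ^ l := by
  induction s with
  | zero => simp
  | succ s ih =>
    rw [Nat.mul_succ, Finset.sum_range_add, ih, Finset.sum_range_succ, mul_add]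
    congr 1
    rw [Finset.sum_mul]
    refine Finset.sum_congr rfl fun i _ => ?_
    rw [← pow_mul, ← pow_add, add_comm]

/-- the exponents -/
private theorem ys_exp_le {a b : ℕ} (hb : 0 < b) (hba : b < a) :
    (if a = 1 then 1 else 3 * 2 ^ (a - 2) - 1) ≤
      2 ^ b - 1 + 2 ^ b * (if a - b = 1 then 1 else 3 * 2 ^ (a - b - 2) - 1) := by
  have ha1 : a ≠ 1 := by omega
  rw [if_neg ha1]
  have hpos : 1 ≤ 2 ^ b := Nat.one_le_two_pow
  by_cases h : a - b = 1
  · rw [if_pos h, mul_one]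
    obtain ⟨c, rfl⟩ : ∃ c, b = c + 1 := ⟨b - 1, by omega⟩
    obtain rfl : a = c + 2 := by omega
    have h1 : 2 ^ (c + 1) = 2 * 2 ^ c := by rw [pow_succ]; ring
    rw [Nat.add_sub_cancel, h1]
    have h2 : 1 ≤ 2 ^ c := Nat.one_le_two_pow
    omega
  · rw [if_neg h]
    obtain ⟨c, rfl⟩ : ∃ c, a = b + c + 2 := ⟨a - b - 2, by omega⟩
    have h1 : b + c + 2 - b - 2 = c := by omega
    have h2 : b + c + 2 - 2 = b + c := by omega
    rw [h1, h2]
    have h3 : 1 ≤ 2 ^ c := Nat.one_le_two_pow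
    have h4 : 2 ^ b * (3 * 2 ^ c - 1) = 2 ^ b * (3 * 2 ^ c) - 2 ^ b := by
      rw [Nat.mul_sub, mul_one]
    have h5 : 2 ^ b * (3 * 2 ^ c) = 3 * 2 ^ (b + c) := by rw [pow_add]; ring
    have h6 : 2 ^ b * 1 ≤ 2 ^ b * (3 * 2 ^ c) := Nat.mul_le_mul_left _ (by omega)
    rw [h4, ← h5]
    omega

/-- `LDat.sub` with the formula for the operator -/
private theorem ys_sub {K V R : Type} [Field K] [AddCommGroup V] [Module K V] [Group R]
    {q q' k : ℕ} {α : R →* R} {ρ : R →* Module.End K V} {U : Module.End K V}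
    (D : LDat q α ρ U) (hk : k * q' = q) (W : Submodule K V) (hW : ∀ x, ∀ w ∈ W, ρ x w ∈ W)
    (hWU : ∀ w ∈ W, (U ^ k) w ∈ W)
    (hN : ∀ w ∈ W, (∑ i ∈ range q', (U ^ k) ^ i) w = 0) :
    ∃ (α' : R →* R) (ρ' : R →* Module.End K W) (U' : Module.End K W), LDat q' α' ρ' U' ∧
      (∀ x w, ((ρ' x w : W) : V) = ρ x w) ∧ (∀ w : W, W.subtype (U' w) = (U ^ k) (W.subtype w)) ∧
      ∀ (j : ℕ) (x : R), α'^[j] x = α^[k * j] x := by
  obtain ⟨α', hc⟩ := tw_L2_iter α k
  have hUk : ∀ x, U ^ k * ρ x = ρ (α' x) * U ^ k := fun x => by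
    rw [hc]
    exact D.iter k x
  obtain ⟨ρ', U', h1, h2, h3, h4⟩ := tw_sub hUk W hW hWU
  refine ⟨α', ρ', U', ⟨h3, ?_, ?_⟩, h1, h2, fun j x => ?_⟩
  · refine LinearMap.ext fun w => Subtype.ext ?_
    rw [h4, ← pow_mul, hk, D.hq]
    rfl
  · refine LinearMap.ext fun w => Subtype.ext ?_
    rw [LinearMap.sum_apply, Submodule.coe_sum]
    simp only [h4]
    have h5 := hN w w.2
    rw [LinearMap.sum_apply] at h5
    exact h5
  · have h5 : (⇑α' : R → R) = α^[k] := funext hc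
    rw [h5, ← Function.iterate_mul]

/-- `LDat.quot` with the formula for the operator -/
private theorem ys_quot {K V R : Type} [Field K] [AddCommGroup V] [Module K V] [Group R]
    {q : ℕ} {α : R →* R} {ρ : R →* Module.End K V} {U : Module.End K V}
    (D : LDat q α ρ U) (W : Submodule K V) (hW : ∀ x, ∀ w ∈ W, ρ x w ∈ W)
    (hWU : ∀ w ∈ W, U w ∈ W) :
    ∃ (ρ' : R →* Module.End K (V ⧸ W)) (U' : Module.End K (V ⧸ W)), LDat q α ρ' U' ∧
      (∀ x v, ρ' x (W.mkQ v) = W.mkQ (ρ x v)) ∧ ∀ v, U' (W.mkQ v) = W.mkQ (U v) := by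
  obtain ⟨ρ', U', h1, h2, h3, h4⟩ := tw_quot D.hU W hW hWU
  refine ⟨ρ', U', ⟨h3, ?_, ?_⟩, h1, h2⟩
  · refine Submodule.linearMap_qext W (LinearMap.ext fun v => ?_)
    show (U' ^ q) (W.mkQ v) = W.mkQ v
    rw [h4, D.hq]
    rfl
  · refine Submodule.linearMap_qext W (LinearMap.ext fun v => ?_)
    show (∑ i ∈ range q, U' ^ i) (W.mkQ v) = 0
    rw [LinearMap.sum_apply]
    simp only [h4]
    rw [← map_sum]
    have h5 := LinearMap.congr_fun D.hN v
    rw [LinearMap.sum_apply] at h5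
    rw [h5]
    simp

/-- **(L+)** over an algebraically closed field. `e a = 3 * 2 ^ (a - 2) - 1` for `a ≥ 2`, `e 1 = 1`.

Proof. Copy of the proof of `tw_L` (TwL.lean, `p := 2`) with the additional hypothesis
`(U - 1) ^ e a = 0` instead of `hnum`. It is inherited by subspaces, quotients and subgroups (`D.sub`
with `k := 1`: `(U' - 1) ^ n` is the restriction of `(U - 1) ^ n`; `D.quot`). (S3): use `ys_L3` instead
of `tw_L3`. There: `W` is invariant under `U ^ (2 ^ b)`, `0 < b < a`, and `(∑ i < 2 ^ b, U ^ i) w = 0`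
implies `w = 0` for `w ∈ W`. For `w ∈ W`: `w' = (∑ i < 2 ^ (a - b), (U ^ (2 ^ b)) ^ i) w` is in `W` and
`(∑ i < 2 ^ b, U ^ i) w' = (∑ i < 2 ^ a, U ^ i) w = 0`, so `w' = 0`: this is the hypothesis `hN` of
`D.sub`. With `w'' = (U ^ (2 ^ b) - 1) ^ e (a - b) w ∈ W`: `∑ i < 2 ^ b, U ^ i = (U - 1) ^ (2 ^ b - 1)` and
`U ^ (2 ^ b) - 1 = (U - 1) ^ (2 ^ b)` (characteristic 2, `tw_norm_pow`), so
`(∑ i < 2 ^ b, U ^ i) w'' = (U - 1) ^ (2 ^ b - 1 + 2 ^ b * e (a - b)) w = 0`, since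
`2 ^ b * (e (a - b) + 1) - 1 ≥ e a` (`= 3 * 2 ^ (a - 2) - 1` if `a - b ≥ 2`; `= 2 ^ a - 1` if
`a - b = 1`). So `w'' = 0`: the induction hypothesis applies to `W`. (S4): instead of `tw_L5` use
`ys_L5`: `(U - 1) ^ (2 ^ a - 2) ≠ 0` and `3 ≤ 2 ^ a`, so `a ≥ 2` and `2 ^ a - 2 ≥ 3 * 2 ^ (a - 2) - 1 = e a`,
contradiction to `(U - 1) ^ e a = 0`. -/
theorem ys_Lp {K : Type} [Field K] [IsAlgClosed K] [CharP K 2] {r : ℕ} (hr : r.Prime)
    (hr2 : r ≠ 2) (d : ℕ) :
    ∀ (V R : Type) [AddCommGroup V] [Module K V] [FiniteDimensional K V] [Group R] [Finite R]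
      (a : ℕ) (α : R →* R) (ρ : R →* Module.End K V) (U : Module.End K V),
      Module.finrank K V + Nat.card R = d → IsPGroup r R → 0 < a → LDat (2 ^ a) α ρ U →
      (U - 1) ^ (if a = 1 then 1 else 3 * 2 ^ (a - 2) - 1) = 0 →
      ∀ x, ρ (α^[2 ^ (a - 1)] x) = ρ x := by
  induction d using Nat.strong_induction_on with
  | _ d ih =>
  intro V R _ _ _ _ _ a α ρ U hd hR ha D hnil
  by_contra hcon
  have hp : (2 : ℕ).Prime := Nat.prime_two
  have hF : Fact (Nat.Prime 2) := ⟨hp⟩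
  have hno : ∃ x, ρ (α^[2 ^ (a - 1)] x) ≠ ρ x := by
    by_contra h
    apply hcon
    intro x
    by_contra h'
    exact h ⟨x, h'⟩
  have hV : Nontrivial V := by
    by_contra h
    rw [not_nontrivial_iff_subsingleton] at h
    obtain ⟨x, hx⟩ := hno
    apply hx
    apply LinearMap.ext
    intro v
    exact Subsingleton.elim _ _
  -- (S2) irreducibility
  have hirr : ∀ W : Submodule K V, (∀ x, ∀ w ∈ W, ρ x w ∈ W) → (∀ w ∈ W, U w ∈ W) →
      W = ⊥ ∨ W = ⊤ := by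
    intro W hW hWU
    by_contra h
    rw [not_or] at h
    obtain ⟨h0, h1⟩ := h
    have hlt : Module.finrank K W < Module.finrank K V := Submodule.finrank_lt h1
    have hpos : 0 < Module.finrank K W := by
      rw [Nat.pos_iff_ne_zero]
      intro h
      exact h0 (Submodule.finrank_eq_zero.1 h)
    have hlt2 : Module.finrank K (V ⧸ W) < Module.finrank K V := by
      have := Submodule.finrank_quotient_add_finrank W
      omega
    obtain ⟨α', ρ', U', D', hρ', hU', hα'⟩ := ys_sub D (k := 1) (q' := 2 ^ a) (one_mul _) W hW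
      (by intro w hw; rw [pow_one]; exact hWU w hw)
      (by intro w hw; rw [pow_one, D.hN]; rfl)
    have hnil' : (U' - 1) ^ (if a = 1 then 1 else 3 * 2 ^ (a - 2) - 1) = 0 := by
      refine LinearMap.ext fun w => Subtype.ext ?_
      have h3 := ys_pow W.subtype U' (U ^ 1) hU' (if a = 1 then 1 else 3 * 2 ^ (a - 2) - 1) w
      rw [pow_one, hnil] at h3
      exact h3
    have e1 := ih (Module.finrank K W + Nat.card R) (by omega) W R a α' ρ' U' rfl hR ha D' hnil'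
    obtain ⟨ρ'', U'', D'', hρ'', hU''⟩ := ys_quot D W hW hWU
    have hnil'' : (U'' - 1) ^ (if a = 1 then 1 else 3 * 2 ^ (a - 2) - 1) = 0 := by
      refine Submodule.linearMap_qext W (LinearMap.ext fun v => ?_)
      have h3 := ys_pow W.mkQ U U'' (fun v => (hU'' v).symm)
        (if a = 1 then 1 else 3 * 2 ^ (a - 2) - 1) v
      rw [hnil] at h3
      show (((U'' - 1) ^ (if a = 1 then 1 else 3 * 2 ^ (a - 2) - 1) :
        Module.End K (V ⧸ W)) (W.mkQ v)) = 0
      rw [← h3, LinearMap.zero_apply, map_zero]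
    have e2 := ih (Module.finrank K (V ⧸ W) + Nat.card R) (by omega) (V ⧸ W) R a α ρ'' U'' rfl hR
      ha D'' hnil''
    obtain ⟨x, hx⟩ := hno
    apply hx
    have hw1 : ∀ w ∈ W, ρ (α^[2 ^ (a - 1)] x) w = ρ x w := by
      intro w hw
      have h3 := congrArg (fun f : Module.End K W => ((f ⟨w, hw⟩ : W) : V)) (e1 x)
      simp only [hρ', hα', one_mul] at h3
      exact h3
    have hw2 : ∀ v, ρ (α^[2 ^ (a - 1)] x) v - ρ x v ∈ W := by
      intro v
      have h3 := congrArg (fun f : Module.End K (V ⧸ W) => f (W.mkQ v)) (e2 x)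
      simp only [hρ''] at h3
      rw [← sub_eq_zero, ← map_sub, ← LinearMap.mem_ker, Submodule.ker_mkQ] at h3
      exact h3
    have hy : ρ (x⁻¹ * α^[2 ^ (a - 1)] x) = 1 := by
      apply tw_unip hr hr2 hR ρ W
      · intro w hw
        rw [map_mul, Module.End.mul_apply, hw1 w hw, ← Module.End.mul_apply, ← map_mul,
          inv_mul_cancel, map_one, Module.End.one_apply]
      · intro v
        have h4 : ρ (x⁻¹ * α^[2 ^ (a - 1)] x) v - v =
            ρ x⁻¹ (ρ (α^[2 ^ (a - 1)] x) v - ρ x v) := by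
          rw [map_sub, ← Module.End.mul_apply, ← Module.End.mul_apply, ← map_mul, ← map_mul,
            inv_mul_cancel, map_one, Module.End.one_apply]
        rw [h4]
        exact hW _ _ (hw2 v)
    calc ρ (α^[2 ^ (a - 1)] x) = ρ x * ρ (x⁻¹ * α^[2 ^ (a - 1)] x) := by
          rw [← map_mul, mul_inv_cancel_left]
      _ = ρ x := by rw [hy, mul_one]
  -- (S1) proper subgroups
  have hsub : ∀ S : Subgroup R, S ≠ ⊤ → (∀ x ∈ S, α x ∈ S) →
      ∀ x ∈ S, ρ (α^[2 ^ (a - 1)] x) = ρ x := by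
    intro S hS hαS x hx
    obtain ⟨α', D', hα'⟩ := D.subgroup S hαS
    have hcard : Nat.card S < Nat.card R := by
      have h1 := Subgroup.card_le_card_group S
      have h2 : Nat.card S ≠ Nat.card R := fun h => hS (Subgroup.eq_top_of_card_eq S h)
      omega
    have h3 := ih (Module.finrank K V + Nat.card S) (by omega) V S a α' (ρ.comp S.subtype) U rfl
      (hR.to_subgroup S) ha D' hnil ⟨x, hx⟩
    have h4 : ρ ((α'^[2 ^ (a - 1)] ⟨x, hx⟩ : S) : R) = ρ x := h3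
    rw [hα'] at h4
    exact h4
  -- (S3) central elements are scalars
  have hscal : ∀ x, (∀ y, ρ x * ρ y = ρ y * ρ x) → ∃ c : K, ρ x = c • 1 := by
    intro x hx
    apply ys_L3 ha D hirr _ hno x hx
    intro W b hWt hW hb hba hWU hinj y w hw
    have hpow : 2 ^ b * 2 ^ (a - b) = 2 ^ a := by
      rw [← pow_add]
      congr 1
      omega
    have hWUl : ∀ (l : ℕ), ∀ w ∈ W, ((U ^ (2 ^ b)) ^ l) w ∈ W := by
      intro l
      induction l with
      | zero => intro w hw; exact hw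
      | succ l ih2 =>
        intro w hw
        rw [pow_succ, Module.End.mul_apply]
        exact ih2 _ (hWU w hw)
    have hN : ∀ w ∈ W, (∑ i ∈ range (2 ^ (a - b)), (U ^ (2 ^ b)) ^ i) w = 0 := by
      intro w hw
      refine hinj _ ?_ ?_
      · rw [LinearMap.sum_apply]
        exact Submodule.sum_mem _ fun l _ => hWUl l w hw
      · rw [← Module.End.mul_apply, ← ys_blocks, hpow, D.hN]
        rfl
    obtain ⟨α', ρ', U', D', hρ', hU', hα'⟩ := ys_sub D hpow W hW hWU hN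
    have hnil' : (U' - 1) ^ (if a - b = 1 then 1 else 3 * 2 ^ (a - b - 2) - 1) = 0 := by
      refine LinearMap.ext fun w => Subtype.ext ?_
      have h3 := ys_pow W.subtype U' (U ^ (2 ^ b)) hU'
        (if a - b = 1 then 1 else 3 * 2 ^ (a - b - 2) - 1) w
      refine hinj _ (Subtype.mem _) ?_
      change (∑ i ∈ range (2 ^ b), U ^ i) (W.subtype
        (((U' - 1) ^ (if a - b = 1 then 1 else 3 * 2 ^ (a - b - 2) - 1) : Module.End K W) w)) = 0
      rw [h3, ← Module.End.mul_apply]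
      obtain ⟨hp1, hp2⟩ := tw_norm_pow (p := 2) (a := b) U
      rw [← hp1, ← hp2, ← pow_mul, ← pow_add]
      have hle := ys_exp_le hb hba
      rw [← Nat.sub_add_cancel hle, pow_add, hnil, mul_zero]
      rfl
    have hlt : Module.finrank K W < Module.finrank K V := Submodule.finrank_lt hWt
    have e1 := ih (Module.finrank K W + Nat.card R) (by omega) W R (a - b) α' ρ' U' rfl hR
      (by omega) D' hnil' y
    have h3 := congrArg (fun f : Module.End K W => ((f ⟨w, hw⟩ : W) : V)) e1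
    simp only [hρ', hα'] at h3
    have hexp : 2 ^ b * 2 ^ (a - b - 1) = 2 ^ (a - 1) := by
      rw [← pow_add]
      congr 1
      omega
    rw [hexp] at h3
    exact h3
  -- (S4) the group `Γ`
  have hq0 : 2 ^ a ≠ 0 := pow_ne_zero _ hp.ne_zero
  let ρ' : R →* (Module.End K V)ˣ := ρ.toHomUnits
  have hρ' : ∀ x, ((ρ' x : (Module.End K V)ˣ) : Module.End K V) = ρ x := fun x => rfl
  let u : (Module.End K V)ˣ := Units.ofPowEqOne U (2 ^ a) D.hq hq0
  have huU : (u : Module.End K V) = U := rfl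
  have hu : u ^ (2 ^ a) = 1 := by
    apply Units.ext
    rw [Units.val_pow_eq_pow_val, huU, D.hq, Units.val_one]
  have hconj : ∀ (k : ℕ) (x : R), u ^ k * ρ' x * (u ^ k)⁻¹ = ρ' (α^[k] x) := by
    intro k x
    rw [mul_inv_eq_iff_eq_mul]
    apply Units.ext
    rw [Units.val_mul, Units.val_mul, Units.val_pow_eq_pow_val, huU, hρ', hρ']
    exact D.iter k x
  set z : (Module.End K V)ˣ := u ^ (2 ^ (a - 1)) with hz
  have hzx : ∀ x, z * ρ' x = ρ' x * z ↔ ρ (α^[2 ^ (a - 1)] x) = ρ x := by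
    intro x
    rw [← hρ', ← hρ', ← Units.ext_iff, ← hconj, mul_inv_eq_iff_eq_mul]
  let Γ : Subgroup (Module.End K V)ˣ := ρ'.range
  have hΓfin : Finite Γ := Set.finite_range ρ'
  have hΓ : IsPGroup r Γ := hR.of_surjective ρ'.rangeRestrict ρ'.rangeRestrict_surjective
  have huΓ : ∀ x ∈ Γ, u * x * u⁻¹ ∈ Γ := by
    rintro _ ⟨x, rfl⟩
    have := hconj 1 x
    rw [pow_one] at this
    rw [this]
    exact ⟨_, rfl⟩
  have hscal' : ∀ x ∈ Γ, (∀ y ∈ Γ, x * y = y * x) → ∃ c : K, (x : Module.End K V) = c • 1 := by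
    rintro _ ⟨x, rfl⟩ hx
    apply hscal x
    intro y
    have := congrArg Units.val (hx (ρ' y) ⟨y, rfl⟩)
    exact this
  have hZ : ∀ x ∈ Γ, (∀ y ∈ Γ, x * y = y * x) → z * x = x * z := by
    intro x hx hxc
    obtain ⟨c, hc⟩ := hscal' x hx hxc
    apply Units.ext
    rw [Units.val_mul, Units.val_mul, hc, smul_mul_assoc, mul_smul_comm, one_mul, mul_one]
  have hmin : ∀ S : Subgroup (Module.End K V)ˣ, S ≤ Γ → S ≠ Γ → (∀ x ∈ S, u * x * u⁻¹ ∈ S) →
      ∀ x ∈ S, z * x = x * z := by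
    intro S hSΓ hne huS x hx
    obtain ⟨t, rfl⟩ := hSΓ hx
    rw [hzx]
    apply hsub (S.comap ρ')
    · intro h
      apply hne
      apply le_antisymm hSΓ
      rintro _ ⟨y, rfl⟩
      have : y ∈ S.comap ρ' := by rw [h]; trivial
      exact this
    · intro y hy
      rw [Subgroup.mem_comap] at hy ⊢
      have h1 := huS _ hy
      have h2 := hconj 1 y
      rw [pow_one] at h2
      rw [h2] at h1
      exact h1
    · exact hx
  have hno' : ∃ x ∈ Γ, z * x ≠ x * z := by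
    obtain ⟨x, hx⟩ := hno
    exact ⟨ρ' x, ⟨x, rfl⟩, fun h => hx ((hzx x).1 h)⟩
  obtain ⟨h1, h2⟩ := tw_L4 hp hr hr2 ha Γ hΓ hu hz huΓ hmin hno' hZ
  have hfin : (U - 1) ^ (2 ^ a - 2) ≠ 0 ∧ 3 ≤ 2 ^ a := by
   refine ys_L5 (K := K) (V := V) (p := 2) hr hr2 ha Γ hΓ u z hu hz huΓ
    ?_ hscal' h1 h2 ?_ ?_
   · intro W hW hWU
     exact hirr W (fun x w hw => hW (ρ' x) ⟨x, rfl⟩ w hw) hWU
   · by_contra hcomm
     obtain ⟨x, hx, hxz⟩ := hno'
     apply hxz
     apply hZ x hx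
     intro y hy
     by_contra h
     exact hcomm ⟨x, hx, y, hy, h⟩
   · rw [huU]
     exact D.hN
  obtain ⟨h5, h6⟩ := hfin
  apply h5
  have ha1 : a ≠ 1 := by
    rintro rfl
    norm_num at h6
  rw [if_neg ha1] at hnil
  obtain ⟨c, rfl⟩ : ∃ c, a = c + 2 := ⟨a - 2, by omega⟩
  have h7 : 2 ^ (c + 2) = 4 * 2 ^ c := by rw [pow_add]; ring
  have h8 : 1 ≤ 2 ^ c := Nat.one_le_two_pow
  rw [Nat.add_sub_cancel] at hnil
  have h9 : 2 ^ (c + 2) - 2 = (2 ^ (c + 2) - 2 - (3 * 2 ^ c - 1)) + (3 * 2 ^ c - 1) := by omega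
  rw [h9, pow_add, hnil, mul_zero]

/-- **(L+)** over the field with two elements.

Proof. Base change as in `tw_LZ` (TwLZ.lean). -/
theorem ys_LpZ {r a : ℕ} (hr : r.Prime) (hr2 : r ≠ 2) (ha : 2 ≤ a)
    {V R : Type} [AddCommGroup V] [Module (ZMod 2) V] [Finite V] [Group R] [Finite R]
    (hR : IsPGroup r R) {α : R →* R} {ρ : R →* Module.End (ZMod 2) V}
    {U : Module.End (ZMod 2) V} (D : LDat (2 ^ a) α ρ U)
    (hne : ∃ x, ρ (α^[2 ^ (a - 1)] x) ≠ ρ x) :
    (U - 1) ^ (3 * 2 ^ (a - 2) - 1) ≠ 0 := by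
  intro hnil
  have hfin : Module.Finite (ZMod 2) V := Module.Finite.of_finite
  have hF : Fact (Nat.Prime 2) := ⟨Nat.prime_two⟩
  have hch : CharP (AlgebraicClosure (ZMod 2)) 2 :=
    charP_of_injective_algebraMap (algebraMap (ZMod 2) (AlgebraicClosure (ZMod 2))).injective 2
  let β := Module.End.baseChangeHom (ZMod 2) (AlgebraicClosure (ZMod 2)) V
  have hβ : ∀ (f : Module.End (ZMod 2) V) (v : V), β f ((1 : AlgebraicClosure (ZMod 2)) ⊗ₜ v) =
      (1 : AlgebraicClosure (ZMod 2)) ⊗ₜ f v := by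
    intro f v
    exact LinearMap.baseChange_tmul _ _ _
  have D' : LDat (2 ^ a) α ((β : Module.End (ZMod 2) V →* _).comp ρ) (β U) := by
    refine ⟨fun x => ?_, ?_, ?_⟩
    · show β U * β (ρ x) = β (ρ (α x)) * β U
      rw [← map_mul, D.hU, map_mul]
    · rw [← map_pow, D.hq, map_one]
    · simp_rw [← map_pow]
      rw [← map_sum, D.hN, map_zero]
  have hnil' : (β U - 1) ^ (if a = 1 then 1 else 3 * 2 ^ (a - 2) - 1) = 0 := by
    rw [if_neg (by omega), ← map_one β, ← map_sub β, ← map_pow, hnil, map_zero]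
  obtain ⟨x, hx⟩ := hne
  have h := ys_Lp hr hr2 _ _ R a α _ (β U) rfl hR (by omega) D' hnil' x
  have h' : β (ρ (α^[2 ^ (a - 1)] x)) = β (ρ x) := h
  apply hx
  apply LinearMap.ext
  intro v
  apply Module.FaithfullyFlat.tensorProduct_mk_injective (A := ZMod 2)
    (B := AlgebraicClosure (ZMod 2)) V
  show (1 : AlgebraicClosure (ZMod 2)) ⊗ₜ[ZMod 2] _ = (1 : AlgebraicClosure (ZMod 2)) ⊗ₜ[ZMod 2] _
  rw [← hβ, ← hβ, h']

end Pool.Agent.Lib.MP_544bd1_al
end
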