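import Mathlib
import Pool.Agent.Lib.MP_544bd1_al.TwS2
import Pool.Agent.Lib.MP_544bd1_al.TwR4
import Pool.Agent.Lib.MP_544bd1_al.ZsC0
import Pool.Agent.Lib.MP_544bd1_al.ZtFrat
import Pool.Agent.Lib.MP_544bd1_al.TwU1
import Pool.Agent.Lib.MP_544bd1_al.ZtSpl
import Pool.Agent.Lib.MP_544bd1_al.TwLZ
import Pool.Agent.Lib.MP_544bd1_al.EvD
import Pool.Agent.Lib.MP_544bd1_al.TwS3

section

/-!
Theorem Z (paper 287): (Avg).
-/

namespace Pool.Agent.Lib.MP_544bd1_al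

open Subgroup

private theorem ys_avg_ypow {a l : ℕ} (ha : 2 ≤ a) (hl : l < 2 ^ a) (hl0 : l ≠ 0)
    (hl1 : l ≠ 2 ^ (a - 1)) {H : Type} [Group H] {u d : H} (hu : u ^ (2 ^ a) = 1)
    (h : Commute (u ^ l) d) : Commute (u ^ (2 ^ (a - 2))) d := by
  have hg : Nat.gcd l (2 ^ a) ∣ 2 ^ (a - 2) := by
    obtain ⟨j, hj, hj'⟩ := (Nat.dvd_prime_pow Nat.prime_two).1 (Nat.gcd_dvd_right l (2 ^ a))
    rw [hj']
    apply pow_dvd_pow
    by_contra hlt
    push Not at hlt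
    have h1 : 2 ^ (a - 1) ∣ l := by
      have h2 : 2 ^ (a - 1) ∣ 2 ^ j := pow_dvd_pow 2 (by omega)
      rw [← hj'] at h2
      exact h2.trans (Nat.gcd_dvd_left _ _)
    obtain ⟨k, hk⟩ := h1
    have h3 : 2 ^ a = 2 ^ (a - 1) * 2 := by
      rw [← pow_succ, Nat.sub_add_cancel (by omega)]
    have h4 : k < 2 := by
      rw [hk, h3] at hl
      exact lt_of_mul_lt_mul_left hl (Nat.zero_le _)
    interval_cases k
    · exact hl0 (by rw [hk, mul_zero])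
    · exact hl1 (by rw [hk, mul_one])
  obtain ⟨t, ht⟩ := hg
  have h5 := Nat.gcd_eq_gcd_ab l (2 ^ a)
  have h6 : u ^ (2 ^ (a - 2)) = (u ^ l) ^ (Nat.gcdA l (2 ^ a) * t) := by
    have h7 : ((2 ^ (a - 2) : ℕ) : ℤ) =
        (l : ℤ) * (Nat.gcdA l (2 ^ a) * t) + ((2 ^ a : ℕ) : ℤ) * (Nat.gcdB l (2 ^ a) * t) := by
      rw [ht, Nat.cast_mul, h5]
      ring
    rw [← zpow_natCast u (2 ^ (a - 2)), h7, zpow_add, zpow_mul, zpow_mul u ((2 ^ a : ℕ) : ℤ),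
      zpow_natCast, zpow_natCast, hu, one_zpow, mul_one]
  rw [h6]
  exact h.zpow_left _

/-- **(Avg)** `B` is an abelian odd group inverted by `y = u ^ (2 ^ (a - 2))`, normalized by `u`; the
norm of `u` is zero. Then `z = u ^ (2 ^ (a - 1))` acts trivially on `[V, B]`. -/
theorem ys_avg {m a : ℕ} (ha : 2 ≤ a) (hm : Odd m) {V H : Type} [AddCommGroup V]
    [Module (ZMod 2) V] [Group H] [Finite H] (ρ : H →* Module.End (ZMod 2) V)
    (B : Subgroup H) {u : H} (hBm : ∀ x ∈ B, x ^ m = 1)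
    (hBB : ∀ x ∈ B, ∀ y ∈ B, x * y = y * x) (hBu : ∀ x ∈ B, u * x * u⁻¹ ∈ B)
    (hu : u ^ (2 ^ a) = 1)
    (hinv : ∀ x ∈ B, u ^ (2 ^ (a - 2)) * x * (u ^ (2 ^ (a - 2)))⁻¹ = x⁻¹)
    (hN : ∑ i ∈ Finset.range (2 ^ a), (ρ u) ^ i = 0) :
    ∀ x ∈ B, ∀ v, ρ (u ^ (2 ^ (a - 1))) (ρ x v - v) = ρ x v - v := by
  classical
  obtain ⟨z, hz'⟩ : ∃ z, z = u ^ (2 ^ (a - 1)) := ⟨_, rfl⟩
  obtain ⟨y, hy'⟩ : ∃ y, y = u ^ (2 ^ (a - 2)) := ⟨_, rfl⟩
  simp only [← hy'] at hinv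
  simp only [← hz']
  have hyy : y * y = z := by
    rw [hy', hz', ← pow_add, ← two_mul, ← pow_succ']
    congr 2
    omega
  have hm2 : ∀ x : H, x ^ m = 1 → x * x = 1 → x = 1 := by
    intro x h1 h2
    obtain ⟨k, hk⟩ := hm
    rw [hk, pow_succ, pow_mul, pow_two, h2, one_pow, one_mul] at h1
    exact h1
  have hBz : ∀ c ∈ B, z * c = c * z := by
    intro c hc
    have h1 : z * c * z⁻¹ = c := by
      have h2 : z * c * z⁻¹ = y * (y * c * y⁻¹) * y⁻¹ := by rw [← hyy]; group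
      rw [h2, hinv c hc]
      have h3 : y * c⁻¹ * y⁻¹ = (y * c * y⁻¹)⁻¹ := by group
      rw [h3, hinv c hc, inv_inv]
    rw [← mul_inv_eq_iff_eq_mul]
    exact h1
  have hBun : ∀ n : ℕ, ∀ b ∈ B, u ^ n * b * (u ^ n)⁻¹ ∈ B := by
    intro n
    induction n with
    | zero =>
      intro x hx
      simpa using hx
    | succ n ih =>
      intro x hx
      have h1 := hBu _ (ih x hx)
      have h2 : u * (u ^ n * x * (u ^ n)⁻¹) * u⁻¹ = u ^ (n + 1) * x * (u ^ (n + 1))⁻¹ := by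
        rw [pow_succ']
        simp [mul_assoc]
      rwa [h2] at h1
  have hBun' : ∀ n : ℕ, ∀ b ∈ B, (u ^ n)⁻¹ * b * u ^ n ∈ B := by
    intro n b hb
    have h1 : u ^ n * u ^ ((2 ^ a - 1) * n) = 1 := by
      rw [← pow_add]
      have h2 : n + (2 ^ a - 1) * n = 2 ^ a * n := by
        have h3 : 1 ≤ 2 ^ a := Nat.one_le_two_pow
        obtain ⟨k, hk⟩ := Nat.exists_eq_add_of_le h3
        rw [hk]
        simp only [Nat.add_sub_cancel_left]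
        ring
      rw [h2, pow_mul, hu, one_pow]
    have h4 : (u ^ n)⁻¹ = u ^ ((2 ^ a - 1) * n) := inv_eq_of_mul_eq_one_right h1
    have h5 : u ^ n = (u ^ ((2 ^ a - 1) * n))⁻¹ := by rw [← h4, inv_inv]
    have h6 := hBun ((2 ^ a - 1) * n) b hb
    rw [← h5, ← h4] at h6
    exact h6
  -- the averaging operator
  have hBfin : Fintype B := Fintype.ofFinite B
  have h2V : ∀ v : V, v + v = 0 := fun v => by
    rw [← two_smul (ZMod 2) v]
    have : (2 : ZMod 2) = 0 := by decide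
    rw [this, zero_smul]
  have hcardB : ∀ v : V, Fintype.card B • v = v := by
    intro v
    have h1 : ¬ 2 ∣ Nat.card B := tw_card_cop Nat.prime_two (by
      intro h
      exact (Nat.not_even_iff_odd.2 hm) (even_iff_two_dvd.2 h)) B hBm
    rw [← Nat.card_eq_fintype_card]
    obtain ⟨k, hk⟩ : Odd (Nat.card B) := by
      rw [← Nat.not_even_iff_odd]
      intro h
      exact h1 (even_iff_two_dvd.1 h)
    rw [hk, add_smul, mul_comm, mul_smul, two_smul, h2V, smul_zero, zero_add, one_smul]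
  let e : Module.End (ZMod 2) V := ∑ c : B, ρ c
  have he : ∀ v, e v = ∑ c : B, ρ c v := by
    intro v
    simp only [e, LinearMap.sum_apply]
  have hρm : ∀ g h : H, ∀ v : V, ρ g (ρ h v) = ρ (g * h) v := by
    intro g h v
    rw [map_mul, Module.End.mul_apply]
  have heb : ∀ b ∈ B, ∀ v, e (ρ b v) = e v := by
    intro b hb v
    rw [he, he]
    simp only [hρm]
    exact Fintype.sum_equiv (Equiv.mulRight (⟨b, hb⟩ : B)) _ _ (fun c => rfl)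
  -- the main computation
  have hmain : ∀ v, e v = 0 → ρ z v = v := by
    intro v hv
    have h0 : ∑ c : B, ρ ((c : H)⁻¹) ((∑ i ∈ Finset.range (2 ^ a), (ρ u) ^ i) (ρ c v)) = 0 := by
      rw [hN]
      simp
    have h1 : ∑ c : B, ρ ((c : H)⁻¹) ((∑ i ∈ Finset.range (2 ^ a), (ρ u) ^ i) (ρ c v)) =
        ∑ l ∈ Finset.range (2 ^ a),
          ρ (u ^ l) (∑ c : B, ρ ((u ^ l)⁻¹ * (c : H)⁻¹ * u ^ l * c) v) := by
      simp only [LinearMap.sum_apply, map_sum]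
      rw [Finset.sum_comm]
      apply Finset.sum_congr rfl
      intro l _
      apply Finset.sum_congr rfl
      intro c _
      rw [← map_pow, hρm, hρm, hρm]
      congr 2
      group
    rw [h1] at h0
    rw [Finset.sum_eq_add 0 (2 ^ (a - 1)) (pow_pos two_pos _).ne] at h0
    · simp only [pow_zero, inv_one, one_mul, mul_one, inv_mul_cancel, map_one,
        Module.End.one_apply, ← hz'] at h0
      have h2 : ∀ c : B, z⁻¹ * (c : H)⁻¹ * z * c = 1 := by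
        intro c
        have h3 : z * (c : H) = c * z := hBz c c.2
        rw [mul_assoc, h3]
        group
      simp only [h2, map_one, Module.End.one_apply, Finset.sum_const, Finset.card_univ,
        hcardB] at h0
      have h4 : v + (v + ρ z v) = v + 0 := by rw [h0]
      rw [← add_assoc, h2V, zero_add, add_zero] at h4
      exact h4
    · rintro l hl ⟨hl0, hl1⟩
      rw [Finset.mem_range] at hl
      have hφ : ∀ c : B, (u ^ l)⁻¹ * (c : H)⁻¹ * u ^ l * c ∈ B := fun c =>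
        B.mul_mem (hBun' l _ (B.inv_mem c.2)) c.2
      have hinj : Function.Injective (fun c : B => (⟨_, hφ c⟩ : B)) := by
        intro c d hcd
        have h3 : (u ^ l)⁻¹ * (c : H)⁻¹ * u ^ l * c = (u ^ l)⁻¹ * (d : H)⁻¹ * u ^ l * d :=
          congrArg Subtype.val hcd
        obtain ⟨c, hc'⟩ := c
        obtain ⟨d, hd'⟩ := d
        simp only at h3
        have h4 : c⁻¹ * u ^ l * c = d⁻¹ * u ^ l * d := by
          have h5 := congrArg (fun t => u ^ l * t) h3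
          simpa [mul_assoc] using h5
        have h5 : Commute (u ^ l) (c * d⁻¹) := by
          show u ^ l * (c * d⁻¹) = c * d⁻¹ * u ^ l
          have h6 := congrArg (fun t => c * t * d⁻¹) h4
          have h7 : c * (c⁻¹ * u ^ l * c) * d⁻¹ = u ^ l * (c * d⁻¹) := by group
          have h8 : c * (d⁻¹ * u ^ l * d) * d⁻¹ = c * d⁻¹ * u ^ l := by group
          rw [← h7, ← h8]
          exact h6
        have h9 : Commute y (c * d⁻¹) := by
          rw [hy']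
          exact ys_avg_ypow ha hl hl0 hl1 hu h5
        have h10 : c * d⁻¹ ∈ B := B.mul_mem hc' (B.inv_mem hd')
        have h11 : y * (c * d⁻¹) * y⁻¹ = c * d⁻¹ := by
          rw [h9.eq, mul_inv_cancel_right]
        have h12 : (c * d⁻¹)⁻¹ = c * d⁻¹ := by
          rw [← hinv _ h10, h11]
        have h13 : c * d⁻¹ = 1 := by
          apply hm2 _ (hBm _ h10)
          nth_rewrite 1 [← h12]
          exact inv_mul_cancel _
        apply Subtype.ext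
        exact mul_inv_eq_one.1 h13
      have hbij : Function.Bijective (fun c : B => (⟨_, hφ c⟩ : B)) :=
        Finite.injective_iff_bijective.1 hinj
      have h3 : ∑ c : B, ρ ((u ^ l)⁻¹ * (c : H)⁻¹ * u ^ l * c) v = ∑ c : B, ρ c v :=
        Fintype.sum_bijective _ hbij _ _ (fun c => rfl)
      rw [h3, ← he, hv, map_zero]
    · intro h
      exact absurd (Finset.mem_range.2 (pow_pos two_pos a)) h
    · intro h
      exact absurd (Finset.mem_range.2 (Nat.pow_lt_pow_right one_lt_two (by omega))) h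
  intro x hx v
  apply hmain
  rw [map_sub, heb x hx, sub_self]

end Pool.Agent.Lib.MP_544bd1_al
end

section

/-!
Theorem Z (paper 287), 4.4: the commutators of `R`.
-/

namespace Pool.Agent.Lib.MP_544bd1_al

open Subgroup

variable {F : Type} [Group F]

/-- Proof. `τ ^ i * g ^ l * (τ ^ j * g ^ l') = τ ^ (i + j) * g ^ (l + l')` since `g * τ = τ * g`. -/
theorem yE_conj {g τ e : F} (h : g * τ = τ * g) (i l j l' : ℕ) :
    (τ ^ i * g ^ l) * yE g τ e j l' * (τ ^ i * g ^ l)⁻¹ = yE g τ e (i + j) (l + l') := by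
  have hc : g ^ l * τ ^ j = τ ^ j * g ^ l := (show Commute g τ from h).pow_pow l j
  have h1 : (τ ^ i * g ^ l) * (τ ^ j * g ^ l') = τ ^ (i + j) * g ^ (l + l') := by
    calc (τ ^ i * g ^ l) * (τ ^ j * g ^ l') = τ ^ i * (g ^ l * τ ^ j) * g ^ l' := by group
      _ = τ ^ i * (τ ^ j * g ^ l) * g ^ l' := by rw [hc]
      _ = τ ^ (i + j) * g ^ (l + l') := by rw [pow_add, pow_add]; group
  unfold yE
  rw [← h1]
  group

/-- conjugates by powers -/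
private theorem ymc_pow {R : Subgroup F} {x : F} (hx : ∀ r ∈ R, x * r * x⁻¹ ∈ R) (n : ℕ) :
    ∀ r ∈ R, x ^ n * r * (x ^ n)⁻¹ ∈ R := by
  induction n with
  | zero => intro r hr; simpa using hr
  | succ n ih =>
    intro r hr
    have h1 := hx _ (ih r hr)
    have h2 : x ^ (n + 1) * r * (x ^ (n + 1))⁻¹ = x * (x ^ n * r * (x ^ n)⁻¹) * x⁻¹ := by
      rw [pow_succ']; group
    rw [h2]; exact h1

/-- periodicity. Proof. `yE i l = τ ^ i * (g ^ l * e * (g ^ l)⁻¹) * (τ ^ i)⁻¹`, also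
`g ^ l * (τ ^ i * e * (τ ^ i)⁻¹) * (g ^ l)⁻¹` (`g`, `τ` commute); `e`, and its conjugates by powers of `g`, `τ`, are
in `R` (`D.core.hxR`), so they commute with `g ^ (2 ^ (a - 1))` and `τ ^ (3 ^ k)` (`D.κR`, `D.τR`). -/
theorem YM.per {m a k : ℕ} {Q R : Subgroup F} {g τ e e' c : F} {γ : ℕ → F}
    (D : YM m a k Q R g τ e e' c γ) :
    (∀ i l, yE g τ e i l ∈ R) ∧ (∀ i l, yE g τ e i (l + 2 ^ (a - 1)) = yE g τ e i l) ∧
      (∀ i l, yE g τ e (i + 3 ^ k) l = yE g τ e i l) := by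
  have hg : ∀ r ∈ R, g * r * g⁻¹ ∈ R := D.core.hxR g (Or.inl rfl)
  have ht : ∀ r ∈ R, τ * r * τ⁻¹ ∈ R := D.core.hxR τ (Or.inr (Or.inl rfl))
  refine ⟨fun i l => ?_, fun i l => ?_, fun i l => ?_⟩
  · have h1 := ymc_pow ht i _ (ymc_pow hg l e D.he)
    have h2 : yE g τ e i l = τ ^ i * (g ^ l * e * (g ^ l)⁻¹) * (τ ^ i)⁻¹ := by
      unfold yE; group
    rw [h2]; exact h1
  · have h1 : g ^ (2 ^ (a - 1)) * e * (g ^ (2 ^ (a - 1)))⁻¹ = e := by
      rw [D.κR e D.he, mul_inv_cancel_right]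
    unfold yE
    calc τ ^ i * g ^ (l + 2 ^ (a - 1)) * e * (τ ^ i * g ^ (l + 2 ^ (a - 1)))⁻¹
        = τ ^ i * g ^ l * (g ^ (2 ^ (a - 1)) * e * (g ^ (2 ^ (a - 1)))⁻¹) *
          (τ ^ i * g ^ l)⁻¹ := by
          rw [pow_add]
          simp only [mul_inv_rev, mul_assoc]
      _ = τ ^ i * g ^ l * e * (τ ^ i * g ^ l)⁻¹ := by rw [h1]
  · have h1 : τ ^ (3 ^ k) * e * (τ ^ (3 ^ k))⁻¹ = e := by
      rw [D.τR e D.he, mul_inv_cancel_right]
    have h2 : τ ^ (i + 3 ^ k) * g ^ l = τ ^ i * g ^ l * τ ^ (3 ^ k) := by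
      have h3 : g ^ l * τ ^ (3 ^ k) = τ ^ (3 ^ k) * g ^ l :=
        (show Commute g τ from D.hgτ).pow_pow l (3 ^ k)
      rw [mul_assoc, h3, pow_add, mul_assoc]
    unfold yE
    calc τ ^ (i + 3 ^ k) * g ^ l * e * (τ ^ (i + 3 ^ k) * g ^ l)⁻¹
        = τ ^ i * g ^ l * (τ ^ (3 ^ k) * e * (τ ^ (3 ^ k))⁻¹) * (τ ^ i * g ^ l)⁻¹ := by
          rw [h2]
          simp only [mul_inv_rev, mul_assoc]
      _ = τ ^ i * g ^ l * e * (τ ^ i * g ^ l)⁻¹ := by rw [h1]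

/-- Proof. `y = g ^ (2 ^ (a - 2))`, `y * y = g ^ (2 ^ (a - 1))` commutes with `e` (`D.κR`). `D.he'`, `D.hc`;
`y * c * y⁻¹ = e' * e * e'⁻¹ * e⁻¹ = c⁻¹`. `c` commutes with `R`: `D.cl` (`e' = yE g τ e 0 (2 ^ (a - 2)) ∈ R`). -/
theorem YM.y {m a k : ℕ} {Q R : Subgroup F} {g τ e e' c : F} {γ : ℕ → F}
    (ha : 3 ≤ a) (D : YM m a k Q R g τ e e' c γ) :
    e' ∈ R ∧ c ∈ R ∧ g ^ (2 ^ (a - 2)) * e' * (g ^ (2 ^ (a - 2)))⁻¹ = e ∧
      g ^ (2 ^ (a - 2)) * c * (g ^ (2 ^ (a - 2)))⁻¹ = c⁻¹ ∧ (∀ r ∈ R, c * r = r * c) := by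
  have hg : ∀ r ∈ R, g * r * g⁻¹ ∈ R := D.core.hxR g (Or.inl rfl)
  have he'R : e' ∈ R := by
    rw [D.he']
    exact ymc_pow hg _ e D.he
  have hcR : c ∈ R := by
    rw [D.hc]
    exact R.mul_mem (R.mul_mem (R.mul_mem D.he he'R) (R.inv_mem D.he)) (R.inv_mem he'R)
  have hyy : g ^ (2 ^ (a - 2)) * g ^ (2 ^ (a - 2)) = g ^ (2 ^ (a - 1)) := by
    rw [← pow_add, ← two_mul, ← pow_succ']
    congr 2
    omega
  set y := g ^ (2 ^ (a - 2)) with hy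
  have h1 : y * e * y⁻¹ = e' := D.he'.symm
  have h2 : y * e' * y⁻¹ = e := by
    rw [← h1]
    calc y * (y * e * y⁻¹) * y⁻¹ = (y * y) * e * (y * y)⁻¹ := by group
      _ = e := by rw [hyy, D.κR e D.he, mul_inv_cancel_right]
  refine ⟨he'R, hcR, h2, ?_, fun r hr => ?_⟩
  · rw [D.hc]
    calc y * (e * e' * e⁻¹ * e'⁻¹) * y⁻¹
        = (y * e * y⁻¹) * (y * e' * y⁻¹) * (y * e * y⁻¹)⁻¹ * (y * e' * y⁻¹)⁻¹ := by group
      _ = (e * e' * e⁻¹ * e'⁻¹)⁻¹ := by rw [h1, h2]; group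
  · rw [D.hc]
    exact D.cl e D.he e' he'R r hr

end Pool.Agent.Lib.MP_544bd1_al
end

section

/-!
Theorem Z (paper 287), 4.4: the commutators of `R`, second part.
-/

namespace Pool.Agent.Lib.MP_544bd1_al

open Subgroup

variable {F : Type} [Group F]

/-- every commutator of `R` is in every subgroup containing the conjugates of `c`.

Proof. Let `K' = closure {(τ ^ i * g ^ l) * c * (τ ^ i * g ^ l)⁻¹ | i, l} ≤ K`; its elements are in `R` and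
commute with `R` (`c` is a commutator of elements of `R`, so are its conjugates, by `D.cl`). Let `b = yE i l`,
`d = yE j l'`, `i, j < 3 ^ k`. By periodicity (`D.per`) we may replace `j` by `j + 3 ^ k` and `l'` by
`l' + n * 2 ^ (a - 1)`, so that `j = i + j₁`, `l' = l + l₁`, and then reduce `j₁ < 3 ^ k`, `l₁ < 2 ^ (a - 1)`.
By `yE_conj` the commutator `b * d * b⁻¹ * d⁻¹` is the conjugate by `τ ^ i * g ^ l` of that of `e` and
`yE j₁ l₁`, which is `1` by `D.com`, unless `j₁ = 0` and `l₁ = 0` (then it is `1`) or `l₁ = 2 ^ (a - 2)` (then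
`yE j₁ l₁ = e'`, and it is `c`). So it is in `K'`. For fixed `d = yE j l'` the set of the `b ∈ R` with
`b * d * b⁻¹ * d⁻¹ ∈ K'` is a subgroup (`(b * b') * d * (b * b')⁻¹ * d⁻¹ = b * (b' * d * b'⁻¹ * d⁻¹) * b⁻¹ *
(b * d * b⁻¹ * d⁻¹)`, and `K'` is centralized by `R`), so by `D.gen` it is `R`; then the same for `d` with `b`
fixed. -/
theorem YM.comm_mem {m a k : ℕ} {Q R : Subgroup F} {g τ e e' c : F} {γ : ℕ → F} (ha : 3 ≤ a)
    (D : YM m a k Q R g τ e e' c γ) (K : Subgroup F)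
    (hK : ∀ i l : ℕ, (τ ^ i * g ^ l) * c * (τ ^ i * g ^ l)⁻¹ ∈ K) :
    ∀ b ∈ R, ∀ d ∈ R, b * d * b⁻¹ * d⁻¹ ∈ K := by
  obtain ⟨hER, hpl, hpi⟩ := D.per
  set N : ℕ := 2 ^ (a - 2) with hN
  set M : ℕ := 2 ^ (a - 1) with hM
  have hM0 : 0 < M := by positivity
  have h30 : 0 < 3 ^ k := by positivity
  have he'E : e' = yE g τ e 0 N := by
    rw [D.he', yE, pow_zero, one_mul]
  have hE00 : yE g τ e 0 0 = e := by
    rw [yE, pow_zero, pow_zero]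
    group
  -- conjugates of `c`
  have hcc : ∀ i l, (τ ^ i * g ^ l) * c * (τ ^ i * g ^ l)⁻¹ =
      yE g τ e i l * yE g τ e i (l + N) * (yE g τ e i l)⁻¹ * (yE g τ e i (l + N))⁻¹ := by
    intro i l
    have h1 := yE_conj (e := e) D.hgτ i l 0 N
    rw [add_zero] at h1
    rw [← h1, ← he'E, D.hc]
    unfold yE
    group
  set K' : Subgroup F := closure {x | ∃ i l : ℕ, x = (τ ^ i * g ^ l) * c * (τ ^ i * g ^ l)⁻¹}
    with hK'
  have hK'K : K' ≤ K := by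
    rw [hK', closure_le]
    rintro _ ⟨i, l, rfl⟩
    exact hK i l
  have hK'R : ∀ x ∈ K', ∀ r ∈ R, x * r = r * x := by
    intro x hx r hr
    have h1 : K' ≤ centralizer {r} := by
      rw [hK', closure_le]
      rintro _ ⟨i, l, rfl⟩
      apply mem_centralizer_singleton_iff.2
      rw [hcc]
      exact D.cl _ (hER i l) _ (hER i (l + N)) r hr
    exact mem_centralizer_singleton_iff.1 (h1 hx)
  -- periodicity
  have hmodi : ∀ i l, yE g τ e i l = yE g τ e (i % 3 ^ k) l := by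
    intro i l
    have h1 : ∀ n j, yE g τ e (j + 3 ^ k * n) l = yE g τ e j l := by
      intro n
      induction n with
      | zero => intro j; simp
      | succ n ih =>
        intro j
        have h2 : j + 3 ^ k * (n + 1) = (j + 3 ^ k * n) + 3 ^ k := by ring
        rw [h2, hpi, ih]
    have h2 := h1 (i / 3 ^ k) (i % 3 ^ k)
    rw [Nat.mod_add_div] at h2
    exact h2
  have hmodl : ∀ i l, yE g τ e i l = yE g τ e i (l % M) := by
    intro i l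
    have h1 : ∀ n j, yE g τ e i (j + M * n) = yE g τ e i j := by
      intro n
      induction n with
      | zero => intro j; simp
      | succ n ih =>
        intro j
        have h2 : j + M * (n + 1) = (j + M * n) + M := by ring
        rw [h2, hpl, ih]
    have h2 := h1 (l / M) (l % M)
    rw [Nat.mod_add_div] at h2
    exact h2
  have hshift : ∀ (q i j : ℕ), 0 < q → ∃ j₁ < q, (i + j₁) % q = j % q := by
    intro q i j hq
    refine ⟨(j + (q - i % q)) % q, Nat.mod_lt _ hq, ?_⟩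
    rw [Nat.add_mod, Nat.mod_mod, ← Nat.add_mod]
    have h1 : i % q ≤ q := (Nat.mod_lt i hq).le
    have h2 : i + (j + (q - i % q)) = j + q * (i / q + 1) := by
      have h3 := Nat.mod_add_div i q
      have h4 : q * (i / q + 1) = q * (i / q) + q := by ring
      omega
    rw [h2, Nat.add_mul_mod_self_left]
  -- commutators of the generators
  have hgenc : ∀ i l j l', yE g τ e i l * yE g τ e j l' * (yE g τ e i l)⁻¹ *
      (yE g τ e j l')⁻¹ ∈ K' := by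
    intro i l j l'
    obtain ⟨j₁, hj₁, hj₂⟩ := hshift (3 ^ k) i j h30
    obtain ⟨l₁, hl₁, hl₂⟩ := hshift M l l' hM0
    have h1 : yE g τ e j l' = yE g τ e (i + j₁) (l + l₁) := by
      rw [hmodi j, hmodl _ l', hmodi (i + j₁), hmodl _ (l + l₁), hj₂, hl₂]
    have h2 := yE_conj (e := e) D.hgτ i l j₁ l₁
    have h3 : yE g τ e i l = (τ ^ i * g ^ l) * e * (τ ^ i * g ^ l)⁻¹ := rfl
    have h4 : yE g τ e i l * yE g τ e j l' * (yE g τ e i l)⁻¹ * (yE g τ e j l')⁻¹ =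
        (τ ^ i * g ^ l) * (e * yE g τ e j₁ l₁ * e⁻¹ * (yE g τ e j₁ l₁)⁻¹) *
          (τ ^ i * g ^ l)⁻¹ := by
      rw [h1, ← h2, h3]
      group
    rw [h4]
    have htriv : e * yE g τ e j₁ l₁ = yE g τ e j₁ l₁ * e → (τ ^ i * g ^ l) *
        (e * yE g τ e j₁ l₁ * e⁻¹ * (yE g τ e j₁ l₁)⁻¹) * (τ ^ i * g ^ l)⁻¹ ∈ K' := by
      intro h5
      have h6 : e * yE g τ e j₁ l₁ * e⁻¹ * (yE g τ e j₁ l₁)⁻¹ = 1 := by
        rw [h5]
        group
      rw [h6, mul_one, mul_inv_cancel]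
      exact one_mem _
    by_cases hcase : j₁ = 0 ∧ (l₁ = 0 ∨ l₁ = N)
    · obtain ⟨rfl, rfl | rfl⟩ := hcase
      · apply htriv
        rw [hE00]
      · rw [← he'E, ← D.hc]
        exact Subgroup.subset_closure ⟨i, l, rfl⟩
    · exact htriv (D.com j₁ l₁ hj₁ hl₁ hcase)
  -- from the generators to `R`
  have hext : ∀ d ∈ R, (∀ i l, yE g τ e i l * d * (yE g τ e i l)⁻¹ * d⁻¹ ∈ K') →
      ∀ b ∈ R, b * d * b⁻¹ * d⁻¹ ∈ K' := by
    intro d hd hgd b hb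
    let S : Subgroup F :=
      { carrier := {b | b ∈ R ∧ b * d * b⁻¹ * d⁻¹ ∈ K'}
        mul_mem' := by
          rintro x y ⟨hx, hx'⟩ ⟨hy, hy'⟩
          refine ⟨R.mul_mem hx hy, ?_⟩
          have h1 := hK'R _ hy' x hx
          have h2 : x * y * d * (x * y)⁻¹ * d⁻¹ =
              (x * (y * d * y⁻¹ * d⁻¹)) * x⁻¹ * (x * d * x⁻¹ * d⁻¹) := by group
          rw [h2, ← h1, mul_inv_cancel_right]
          exact K'.mul_mem hy' hx'
        one_mem' := by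
          refine ⟨R.one_mem, ?_⟩
          have h1 : 1 * d * 1⁻¹ * d⁻¹ = 1 := by group
          rw [h1]
          exact K'.one_mem
        inv_mem' := by
          rintro x ⟨hx, hx'⟩
          refine ⟨R.inv_mem hx, ?_⟩
          have h1 := hK'R _ (K'.inv_mem hx') x hx
          have h2 : x⁻¹ * d * x⁻¹⁻¹ * d⁻¹ = x⁻¹ * ((x * d * x⁻¹ * d⁻¹)⁻¹ * x) := by group
          rw [h2, h1, inv_mul_cancel_left]
          exact K'.inv_mem hx' }
    have h1 : R ≤ S := by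
      refine D.gen.trans ?_
      rw [closure_le]
      rintro _ ⟨i, l, -, rfl⟩
      exact ⟨hER i l, hgd i l⟩
    exact (h1 hb).2
  intro b hb d hd
  apply hK'K
  refine hext d hd (fun i l => ?_) b hb
  have h1 := hext (yE g τ e i l) (hER i l) (fun i' l' => hgenc i' l' i l) d hd
  have h2 : yE g τ e i l * d * (yE g τ e i l)⁻¹ * d⁻¹ =
      (d * yE g τ e i l * d⁻¹ * (yE g τ e i l)⁻¹)⁻¹ := by group
  rw [h2]
  exact K'.inv_mem h1

/-- `⁅R, R⁆` is central in `R`, normalized by `g`, `τ`, `γ i`, contained in `R`, inverted by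
`y = g ^ (2 ^ (a - 2))`.

Proof. `commutator_le`, closure induction; the last part: the elements `x` of `⁅R, R⁆` with
`y * x * y⁻¹ = x⁻¹` form a subgroup (commutativity of `⁅R, R⁆`), containing the conjugates of `c` by
`τ ^ i * g ^ l` (which commutes with `y`; `D.y`); `D.comm_mem`. -/
theorem YM.der {m a k : ℕ} {Q R : Subgroup F} {g τ e e' c : F} {γ : ℕ → F} (ha : 3 ≤ a)
    (D : YM m a k Q R g τ e e' c γ) :
    (⁅R, R⁆ : Subgroup F) ≤ R ∧ (∀ x ∈ (⁅R, R⁆ : Subgroup F), ∀ r ∈ R, x * r = r * x) ∧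
      (∀ s : F, (∀ r ∈ R, s * r * s⁻¹ ∈ R) → ∀ x ∈ (⁅R, R⁆ : Subgroup F),
        s * x * s⁻¹ ∈ (⁅R, R⁆ : Subgroup F)) ∧
      (∀ x ∈ (⁅R, R⁆ : Subgroup F),
        g ^ (2 ^ (a - 2)) * x * (g ^ (2 ^ (a - 2)))⁻¹ = x⁻¹) := by
  have h1 : (⁅R, R⁆ : Subgroup F) ≤ R := by
    rw [Subgroup.commutator_le]
    intro x hx y hy
    exact R.mul_mem (R.mul_mem (R.mul_mem hx hy) (R.inv_mem hx)) (R.inv_mem hy)
  have h2 : ∀ x ∈ (⁅R, R⁆ : Subgroup F), ∀ r ∈ R, x * r = r * x := by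
    intro x hx r hr
    have h3 : (⁅R, R⁆ : Subgroup F) ≤ centralizer {r} := by
      rw [Subgroup.commutator_le]
      intro y hy z hz
      apply mem_centralizer_singleton_iff.2
      exact D.cl y hy z hz r hr
    exact mem_centralizer_singleton_iff.1 (h3 hx)
  have h3 : ∀ s : F, (∀ r ∈ R, s * r * s⁻¹ ∈ R) → ∀ x ∈ (⁅R, R⁆ : Subgroup F),
      s * x * s⁻¹ ∈ (⁅R, R⁆ : Subgroup F) := by
    intro s hs x hx
    have h4 : (⁅R, R⁆ : Subgroup F).map (MulAut.conj s).toMonoidHom ≤ ⁅R, R⁆ := by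
      rw [Subgroup.map_commutator]
      have h5 : R.map (MulAut.conj s).toMonoidHom ≤ R := by
        rintro _ ⟨r, hr, rfl⟩
        exact hs r hr
      exact Subgroup.commutator_mono h5 h5
    exact h4 ⟨x, hx, rfl⟩
  refine ⟨h1, h2, h3, ?_⟩
  obtain ⟨he'R, hcR, hye', hyc, hccen⟩ := D.y ha
  set y : F := g ^ (2 ^ (a - 2)) with hy
  let T : Subgroup F :=
    { carrier := {x | x ∈ (⁅R, R⁆ : Subgroup F) ∧ y * x * y⁻¹ = x⁻¹}
      mul_mem' := by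
        rintro u v ⟨hu, hu'⟩ ⟨hv, hv'⟩
        refine ⟨mul_mem hu hv, ?_⟩
        have h4 : y * (u * v) * y⁻¹ = (y * u * y⁻¹) * (y * v * y⁻¹) := by group
        rw [h4, hu', hv', ← mul_inv_rev, h2 v hv u (h1 hu)]
      one_mem' := by
        refine ⟨one_mem _, ?_⟩
        group
      inv_mem' := by
        rintro u ⟨hu, hu'⟩
        refine ⟨inv_mem hu, ?_⟩
        have h4 : y * u⁻¹ * y⁻¹ = (y * u * y⁻¹)⁻¹ := by group
        rw [h4, hu'] }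
  have hgR : ∀ r ∈ R, g * r * g⁻¹ ∈ R := D.core.hxR g (Or.inl rfl)
  have hτR : ∀ r ∈ R, τ * r * τ⁻¹ ∈ R := D.core.hxR τ (Or.inr (Or.inl rfl))
  have hpowR : ∀ s : F, (∀ r ∈ R, s * r * s⁻¹ ∈ R) → ∀ n : ℕ, ∀ r ∈ R,
      s ^ n * r * (s ^ n)⁻¹ ∈ R := by
    intro s hs n
    induction n with
    | zero => intro r hr; simpa using hr
    | succ n ih =>
      intro r hr
      have h4 : s ^ (n + 1) * r * (s ^ (n + 1))⁻¹ = s * (s ^ n * r * (s ^ n)⁻¹) * s⁻¹ := by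
        rw [pow_succ']; group
      rw [h4]
      exact hs _ (ih r hr)
  have htR : ∀ i l : ℕ, ∀ r ∈ R, (τ ^ i * g ^ l) * r * (τ ^ i * g ^ l)⁻¹ ∈ R := by
    intro i l r hr
    have h4 : (τ ^ i * g ^ l) * r * (τ ^ i * g ^ l)⁻¹ =
        τ ^ i * (g ^ l * r * (g ^ l)⁻¹) * (τ ^ i)⁻¹ := by group
    rw [h4]
    exact hpowR τ hτR i _ (hpowR g hgR l r hr)
  have hcD : c ∈ (⁅R, R⁆ : Subgroup F) := by
    rw [D.hc]
    exact Subgroup.commutator_mem_commutator D.he he'R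
  have hT : ∀ i l : ℕ, (τ ^ i * g ^ l) * c * (τ ^ i * g ^ l)⁻¹ ∈ T := by
    intro i l
    refine ⟨h3 _ (htR i l) c hcD, ?_⟩
    have hcomm : Commute y (τ ^ i * g ^ l) := by
      have hgτ : Commute g τ := D.hgτ
      have h4 : Commute y (τ ^ i) := (hgτ.pow_left _).pow_right _
      have h5 : Commute y (g ^ l) := ((Commute.refl g).pow_left _).pow_right _
      exact h4.mul_right h5
    have h4 : y * ((τ ^ i * g ^ l) * c * (τ ^ i * g ^ l)⁻¹) * y⁻¹ =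
        (y * (τ ^ i * g ^ l)) * c * (y * (τ ^ i * g ^ l))⁻¹ := by group
    rw [h4, hcomm.eq]
    have h5 : (τ ^ i * g ^ l) * y * c * ((τ ^ i * g ^ l) * y)⁻¹ =
        (τ ^ i * g ^ l) * (y * c * y⁻¹) * (τ ^ i * g ^ l)⁻¹ := by group
    rw [h5, hyc]
    group
  have hDT : (⁅R, R⁆ : Subgroup F) ≤ T := by
    rw [Subgroup.commutator_le]
    intro b hb d hd
    exact D.comm_mem ha T hT b hb d hd
  intro x hx
  exact (hDT hx).2

end Pool.Agent.Lib.MP_544bd1_al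
end

section

/-!
Theorem Z3, Case A: the honest form of (L2ab), first part.
-/

namespace Pool.Agent.Lib.MP_544bd1_al

open Subgroup

/-- a subgroup of index prime to `p` has full image in a `p`-group -/
private theorem zthon_image {F F' : Type} [Group F] [Group F'] [Finite F] {p k : ℕ}
    (hp : p.Prime) (π : F →* F') (S D : Subgroup F) (hSD : S ≤ D) (hk : Nat.card D = Nat.card S * k)
    (hpk : ¬ p ∣ k) (hD : IsPGroup p (D.map π)) {d : F} (hd : d ∈ D) : ∃ s ∈ S, π s = π d := by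
  have : Fact p.Prime := ⟨hp⟩
  have hfin : Finite (D.map π) := by
    have : Finite (π.range) := Set.finite_range π
    exact Finite.of_surjective _ (π.subgroupMap_surjective D)
  set f := π.subgroupMap D with hf
  have hfs : Function.Surjective f := π.subgroupMap_surjective D
  set H := S.subgroupOf D with hH
  have h1 : Nat.card H = Nat.card S := Nat.card_congr (Subgroup.subgroupOfEquivOfLe hSD).toEquiv
  have h2 : H.index = k := by
    have h3 := H.card_mul_index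
    rw [h1, hk] at h3
    exact Nat.eq_of_mul_eq_mul_left Nat.card_pos h3
  have h3 : (H.map f).index ∣ k := by
    rw [← h2]
    exact H.index_map_dvd hfs
  obtain ⟨m, hm⟩ := IsPGroup.iff_card.1 hD
  have h4 : (H.map f).index ∣ p ^ m := by
    rw [← hm]
    exact (H.map f).index_dvd_card
  obtain ⟨j, _, hj⟩ := (Nat.dvd_prime_pow hp).1 h4
  have h5 : (H.map f).index = 1 := by
    rcases Nat.eq_zero_or_pos j with h0 | h0
    · rw [hj, h0, pow_zero]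
    · exfalso
      apply hpk
      refine dvd_trans ?_ h3
      rw [hj]
      exact dvd_pow_self p h0.ne'
  have h6 : f ⟨d, hd⟩ ∈ H.map f := by
    rw [Subgroup.index_eq_one.1 h5]
    trivial
  obtain ⟨s, hs, hsd⟩ := h6
  exact ⟨s, hs, congrArg Subtype.val hsd⟩

private theorem zthon_zp {F : Type} [Group F] [Finite F] {x : F} {K : Subgroup F}
    (h : ∀ y ∈ K, x * y * x⁻¹ ∈ K) : ∀ e ∈ zpowers x, ∀ y ∈ K, e * y * e⁻¹ ∈ K := by
  intro e he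
  rw [← mem_powers_iff_mem_zpowers] at he
  obtain ⟨n, rfl⟩ := he
  show ∀ y ∈ K, x ^ n * y * (x ^ n)⁻¹ ∈ K
  induction n with
  | zero => intro y hy; simpa using hy
  | succ n ih =>
    intro y hy
    have h1 := h _ (ih y hy)
    rwa [show x * (x ^ n * y * (x ^ n)⁻¹) * x⁻¹ = x ^ (n + 1) * y * (x ^ (n + 1))⁻¹ by
      rw [pow_succ']; group] at h1

private theorem zthon_conj_pow {F : Type} [Group F] (x y : F) (n : ℕ) :
    (x * y * x⁻¹) ^ n = x * y ^ n * x⁻¹ := conj_pow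

/-- steps (1) and (2) -/
private theorem zthon_12 {m : ℕ} (hm : Odd m) {F : Type} [Group F] [Finite F]
    (hexp : ∀ x : F, x ^ (m * 2 ^ 3) = 1) (h : ZL2 m 3 F) :
    ∃ (r : ℕ) (x : F) (Eh : Subgroup (F ⧸ krad m F)), r.Prime ∧ r ≠ 2 ∧ x ^ 4 = 1 ∧ IsPGroup r Eh ∧
      (∀ e ∈ Eh, e ∈ krad (2 ^ 3) (F ⧸ krad m F) → e = 1) ∧ (∀ e ∈ Eh, ∀ e' ∈ Eh, e * e' = e' * e) ∧
      (∀ e ∈ Eh, QuotientGroup.mk' (krad m F) x * e * (QuotientGroup.mk' (krad m F) x)⁻¹ ∈ Eh) ∧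
      (∀ e ∈ Eh, QuotientGroup.mk' (krad m F) x ^ 2 * e * (QuotientGroup.mk' (krad m F) x ^ 2)⁻¹ = e⁻¹) ∧
      ∃ e ∈ Eh, e ≠ 1 := by
  obtain ⟨x, E, hx4, hEm, hEab, hEx, hEinv, e₀, he₀E, he₀⟩ := h
  have hcop : Nat.Coprime m (2 ^ 3) := zt_cop hm 3
  have hexpT : ∀ y : F ⧸ krad m F, y ^ (m * 2 ^ 3) = 1 := tw_exp_quot hexp _
  have hexpT' : ∀ y : F ⧸ krad m F, y ^ (2 ^ 3 * m) = 1 := tw_exp_comm hexpT
  have hWpow : ∀ w ∈ krad (2 ^ 3) (F ⧸ krad m F), w ^ (2 ^ 3) = 1 := tw_krad_pow hcop.symm hexpT'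
  have ho : orderOf e₀ ∣ m := orderOf_dvd_of_pow_eq_one (hEm e₀ he₀E)
  have ho1 : orderOf e₀ ≠ 1 := fun h1 => he₀ (orderOf_eq_one_iff.1 h1)
  obtain ⟨r, hr, hro⟩ := Nat.exists_prime_and_dvd ho1
  have hrm : r ∣ m := hro.trans ho
  have hr2 : r ≠ 2 := by
    rintro rfl
    exact (Nat.not_even_iff_odd.2 hm) (even_iff_two_dvd.2 hrm)
  have ho0 : orderOf e₀ ≠ 0 := by
    intro h0
    rw [h0, zero_dvd_iff] at ho
    exact hm.pos.ne' ho
  -- the `r`-part of `E`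
  let E₁ : Subgroup (ZH m 3 F) :=
    { carrier := {e | e ∈ E ∧ ∃ k, e ^ (r ^ k) = 1}
      mul_mem' := by
        rintro a b ⟨ha, k, hk⟩ ⟨hb, l, hl⟩
        refine ⟨E.mul_mem ha hb, k + l, ?_⟩
        have hc : Commute a b := hEab a ha b hb
        rw [hc.mul_pow, pow_add, pow_mul, hk, one_pow, one_mul, mul_comm (r ^ k), pow_mul, hl, one_pow]
      one_mem' := ⟨E.one_mem, 0, one_pow _⟩
      inv_mem' := by
        rintro a ⟨ha, k, hk⟩
        exact ⟨E.inv_mem ha, k, by rw [inv_pow, hk, inv_one]⟩ }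
  have hE₁ : ∀ e, e ∈ E₁ ↔ e ∈ E ∧ ∃ k, e ^ (r ^ k) = 1 := fun e => Iff.rfl
  have hE₁r : IsPGroup r E₁ := by
    rintro ⟨e, he, k, hk⟩
    exact ⟨k, Subtype.ext hk⟩
  have hzp : ∀ g : F, zp m 3 F g =
    QuotientGroup.mk' (krad (2 ^ 3) (F ⧸ krad m F)) (QuotientGroup.mk' (krad m F) g) := fun g => rfl
  set π₂ : F ⧸ krad m F →* ZH m 3 F := QuotientGroup.mk' (krad (2 ^ 3) (F ⧸ krad m F)) with hπ₂
  have hπ₂1 : ∀ g, π₂ g = 1 ↔ g ∈ krad (2 ^ 3) (F ⧸ krad m F) := by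
    intro g
    rw [hπ₂, QuotientGroup.mk'_apply, QuotientGroup.eq_one_iff]
  obtain ⟨Eh, hEhr, hEhx, hEhf, hEhs⟩ := zt_spl hr hr2 π₂ (QuotientGroup.mk'_surjective _)
    (fun w hw => ⟨3, hWpow w ((hπ₂1 w).1 (MonoidHom.mem_ker.1 hw))⟩) (x := QuotientGroup.mk' (krad m F) x)
    (by rw [← map_pow, hx4, map_one]) E₁ hE₁r (fun e he e' he' => hEab e he.1 e' he'.1)
    (fun e he => by
      obtain ⟨he1, k, hk⟩ := he
      rw [← hzp]
      exact ⟨hEx e he1, k, by rw [conj_pow, hk, mul_one, mul_inv_cancel]⟩)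
    (fun e he => by rw [← hzp]; exact hEinv e he.1)
  have hcr : ∀ k, Nat.Coprime (r ^ k) (2 ^ 3) := fun k =>
    Nat.Coprime.pow k 3 ((Nat.coprime_primes hr Nat.prime_two).2 hr2)
  have hEW : ∀ e ∈ Eh, e ∈ krad (2 ^ 3) (F ⧸ krad m F) → e = 1 := by
    intro e he heW
    obtain ⟨k, hk⟩ := hEhr ⟨e, he⟩
    have hk' : e ^ r ^ k = 1 := by
      have := congrArg Subtype.val hk
      simpa using this
    exact tw_one (hcr k) hk' (hWpow e heW)
  have hinj : ∀ e ∈ Eh, ∀ e' ∈ Eh, π₂ e = π₂ e' → e = e' := by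
    intro e he e' he' hee
    have h1 : e * e'⁻¹ = 1 := by
      refine hEW _ (Eh.mul_mem he (Eh.inv_mem he')) ((hπ₂1 _).1 ?_)
      rw [map_mul, map_inv, hee, mul_inv_cancel]
    exact mul_inv_eq_one.1 h1
  refine ⟨r, x, Eh, hr, hr2, hx4, hEhr, hEW, fun e he e' he' => ?_, hEhx, fun e he => ?_, ?_⟩
  · refine hinj _ (Eh.mul_mem he he') _ (Eh.mul_mem he' he) ?_
    rw [map_mul, map_mul]
    exact hEab _ (hEhf e he).1 _ (hEhf e' he').1
  · refine hinj _ ?_ _ (Eh.inv_mem he) ?_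
    · have h1 := hEhx _ (hEhx e he)
      rwa [show QuotientGroup.mk' (krad m F) x * (QuotientGroup.mk' (krad m F) x * e *
        (QuotientGroup.mk' (krad m F) x)⁻¹) * (QuotientGroup.mk' (krad m F) x)⁻¹ =
        QuotientGroup.mk' (krad m F) x ^ 2 * e * (QuotientGroup.mk' (krad m F) x ^ 2)⁻¹ by
          rw [pow_two]; group] at h1
    · rw [map_mul, map_mul, map_inv, map_inv, map_pow, ← hzp]
      exact hEinv _ (hEhf e he).1
  · have hd : orderOf e₀ / r ≠ 0 := by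
      obtain ⟨c, hc⟩ := hro
      rw [hc, Nat.mul_div_cancel_left _ hr.pos]
      rintro rfl
      exact ho0 hc
    have h1 : orderOf (e₀ ^ (orderOf e₀ / r)) = r := by
      rw [orderOf_pow_of_dvd hd (Nat.div_dvd_of_dvd hro), Nat.div_div_self hro ho0]
    have h2 : e₀ ^ (orderOf e₀ / r) ∈ E₁ := by
      refine ⟨E.pow_mem he₀E _, 1, ?_⟩
      rw [pow_one]
      have h3 := pow_orderOf_eq_one (e₀ ^ (orderOf e₀ / r))
      rwa [h1] at h3
    obtain ⟨e', he', h3⟩ := hEhs _ h2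
    refine ⟨e', he', ?_⟩
    rintro rfl
    rw [map_one] at h3
    rw [← h3, orderOf_one] at h1
    exact hr.one_lt.ne h1

/-- **Honest form, first part.**

Proof. Let `x`, `E` be as in `h`. Let `T = F ⧸ krad m F`, `π : F →* T` (`QuotientGroup.mk'`),
`W = krad (2 ^ 3) T`, `π₂ : T →* ZH m 3 F` (`mk' W`), `zp m 3 F = π₂ ∘ π`. `krad m T = ⊥`
(`tw_krad_quot`, `zt_cop`), `w ^ (2 ^ 3) = 1` for `w ∈ W`, `y ^ m = 1` for `y ∈ krad m F`
(`tw_krad_pow`).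
(1) Take `e ∈ E`, `e ≠ 1`, `r` a prime dividing `orderOf e` (`r ∣ m`, so `r ≠ 2`),
`E₁ = {e ∈ E | ∃ k, e ^ (r ^ k) = 1}`: a nontrivial `r`-subgroup of `E` (`E` is commutative),
normalized by `zp x`, inverted by `zp x ^ 2`, commutative.
(2) `zt_spl` for `π₂`, `π x`, `E₁`: an `r`-group `Eh ≤ T`, normalized by `π x`, mapped onto `E₁`
(injectively: `Eh ⊓ W = ⊥`). So `Eh` is commutative, and `π x ^ 2` inverts it (for `e ∈ Eh`,
`π x ^ 2 * e * (π x ^ 2)⁻¹ * e ∈ Eh ⊓ W`; commutators likewise).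
(3) `zt_fratx` for `π`, `W`, `p := 2`, `x` (`x ^ (2 ^ 2) = 1`): `P` a 2-subgroup of `F` with `π P = W`,
`x ∈ N = normalizer P`, `N` is mapped onto `T` by `π`. `q ^ (2 ^ 3) = 1` for `q ∈ P` (`q ^ (2 ^ k) = 1`
and `hexp`). An element `n ∈ N` with `π n = 1` centralizes `P`: for `q ∈ P`
`n * q * n⁻¹ * q⁻¹ ∈ P ⊓ krad m F = ⊥`. More generally, if `n ∈ N` and `π n` centralizes `W` then
`n` centralizes `P` (same argument).
(4) `D₀ = {n ∈ N | π n ∈ Eh}`: a subgroup normalized by `x`, of odd order: `n ^ (r ^ k) ∈ krad m F`, so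
`n ^ (r ^ k * m) = 1`. `tw_inv_sylow` (TwS1.lean, `p := r`, `q := 2`, `E := zpowers x`): an `r`-group
`R₀ ≤ D₀` normalized by `x`, with `Nat.card D₀ = Nat.card R₀ * k`, `¬ r ∣ k`; `π R₀ = Eh` by
`tw_U_image` (TwU1.lean).
(5) Take `e ∈ Eh`, `e ≠ 1`, `n ∈ R₀` with `π n = e`, `ρ = n⁻¹ * (x ^ 2 * n * (x ^ 2)⁻¹) ∈ R₀`:
`x ^ 2 * ρ * (x ^ 2)⁻¹ = ρ⁻¹` (`x ^ 4 = 1`), `π ρ = e⁻¹ * e⁻¹ ≠ 1` (odd order). Let
`R = closure {ρ, x * ρ * x⁻¹} ≤ R₀`: normalized by `x` (`x * (x * ρ * x⁻¹) * x⁻¹ = ρ⁻¹`), normalizes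
`P`. The commutators of elements of `R` are mapped to `1` by `π` (`Eh` commutative), so they centralize
`P` by (3).
(6) `ρ` does not centralize `P`: otherwise `π ρ` centralizes `π P = W = krad (2 ^ 3) T`, so
`π ρ ∈ W` (`fr_fitting`, `k := 2 ^ 3`, `l := m`, `krad m T = ⊥`), but `π ρ ∈ Eh`, so `π ρ = 1`,
contradiction. -/
theorem zt_hon1 {m : ℕ} (hm : Odd m) {F : Type} [Group F] [Finite F]
    (hsol : Group.IsSolvable F) (hexp : ∀ x : F, x ^ (m * 2 ^ 3) = 1) (h : ZL2 m 3 F) :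
    ∃ (r : ℕ) (P R : Subgroup F) (x ρ : F), r.Prime ∧ r ≠ 2 ∧ (∀ q ∈ P, q ^ (2 ^ 3) = 1) ∧
      IsPGroup r R ∧ x ^ 4 = 1 ∧ (∀ g ∈ R, x * g * x⁻¹ ∈ R) ∧ (∀ q ∈ P, x * q * x⁻¹ ∈ P) ∧
      (∀ g ∈ R, ∀ q ∈ P, g * q * g⁻¹ ∈ P) ∧ ρ ∈ R ∧ x ^ 2 * ρ * (x ^ 2)⁻¹ = ρ⁻¹ ∧
      R ≤ closure {ρ, x * ρ * x⁻¹} ∧
      (∀ g ∈ R, ∀ h ∈ R, ∀ q ∈ P, g * h * g⁻¹ * h⁻¹ * q = q * (g * h * g⁻¹ * h⁻¹)) ∧
      ∃ q ∈ P, ρ * q ≠ q * ρ := by
  obtain ⟨r, x, Eh, hr, hr2, hx4, hEhr, hEW, hEab, hEx, hEinv, e, heE, he1⟩ := zthon_12 hm hexp h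
  have hcop : Nat.Coprime m (2 ^ 3) := zt_cop hm 3
  have hm0 : 0 < m := hm.pos
  have hexpT : ∀ y : F ⧸ krad m F, y ^ (m * 2 ^ 3) = 1 := tw_exp_quot hexp _
  have hexpT' : ∀ y : F ⧸ krad m F, y ^ (2 ^ 3 * m) = 1 := tw_exp_comm hexpT
  have hsolT : Group.IsSolvable (F ⧸ krad m F) :=
    Group.isSolvable_of_surjective (QuotientGroup.mk'_surjective (krad m F))
  have hbot : krad m (F ⧸ krad m F) = ⊥ := tw_krad_quot hcop hexp
  have hWpow : ∀ w ∈ krad (2 ^ 3) (F ⧸ krad m F), w ^ (2 ^ 3) = 1 := tw_krad_pow hcop.symm hexpT'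
  have hKpow : ∀ y ∈ krad m F, y ^ m = 1 := tw_krad_pow hcop hexp
  have hWg : IsPGroup 2 (krad (2 ^ 3) (F ⧸ krad m F)) := fun y => ⟨3, Subtype.ext (by simpa using hWpow y y.2)⟩
  have hπs : Function.Surjective (QuotientGroup.mk' (krad m F)) := QuotientGroup.mk'_surjective _
  have hπ1 : ∀ g : F, QuotientGroup.mk' (krad m F) g = 1 ↔ g ∈ krad m F := by
    intro g
    rw [QuotientGroup.mk'_apply, QuotientGroup.eq_one_iff]
  set π : F →* F ⧸ krad m F := QuotientGroup.mk' (krad m F) with hπ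
  have hcr : ∀ k l, Nat.Coprime (r ^ k) (2 ^ l) := fun k l =>
    Nat.Coprime.pow k l ((Nat.coprime_primes hr Nat.prime_two).2 hr2)
  have hErp : ∀ y ∈ Eh, ∃ k, y ^ r ^ k = 1 := by
    intro y hy
    obtain ⟨k, hk⟩ := hEhr ⟨y, hy⟩
    exact ⟨k, by have := congrArg Subtype.val hk; simpa using this⟩
  -- (3)
  obtain ⟨P, hPg, hPs, hPW, hN, hxN⟩ := zt_fratx (k := 2) Nat.prime_two π hπs (krad (2 ^ 3) (F ⧸ krad m F)) hWg
    (x := x) (by simpa using hx4)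
  have hP8 : ∀ q ∈ P, q ^ (2 ^ 3) = 1 := by
    intro q hq
    obtain ⟨k, hk⟩ := hPg ⟨q, hq⟩
    have hk' : q ^ 2 ^ k = 1 := by
      have := congrArg Subtype.val hk
      simpa using this
    refine tw_one (zt_cop hm k) ?_ ?_
    · rw [← pow_mul, mul_comm]
      exact hexp q
    · rw [← pow_mul, mul_comm, pow_mul, hk', one_pow]
  have hPK : ∀ q ∈ P, π q = 1 → q = 1 := fun q hq h1 => tw_one hcop (hKpow q ((hπ1 q).1 h1)) (hP8 q hq)
  have hconj : ∀ n ∈ normalizer (P : Set F), ∀ q ∈ P, n * q * n⁻¹ ∈ P := fun n hn q hq =>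
    (mem_normalizer_iff.1 hn q).1 hq
  have hcent : ∀ n ∈ normalizer (P : Set F), (∀ w ∈ krad (2 ^ 3) (F ⧸ krad m F), π n * w = w * π n) →
      ∀ q ∈ P, n * q = q * n := by
    intro n hn hw q hq
    have h1 : n * q * n⁻¹ * q⁻¹ = 1 := by
      refine hPK _ (P.mul_mem (hconj n hn q hq) (P.inv_mem hq)) ?_
      rw [map_mul, map_mul, map_mul, map_inv, map_inv, hw _ (hPW q hq)]
      group
    rw [mul_inv_eq_one, mul_inv_eq_iff_eq_mul] at h1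
    exact h1
  -- (4)
  let D₀ : Subgroup F := normalizer (P : Set F) ⊓ Eh.comap π
  have hD₀x : ∀ y ∈ D₀, x * y * x⁻¹ ∈ D₀ := by
    rintro y ⟨hy1, hy2⟩
    refine ⟨(normalizer (P : Set F)).mul_mem ((normalizer (P : Set F)).mul_mem hxN hy1)
      ((normalizer (P : Set F)).inv_mem hxN), ?_⟩
    show π (x * y * x⁻¹) ∈ Eh
    rw [map_mul, map_mul, map_inv]
    exact hEx _ hy2
  have hD₀m : ∀ y ∈ D₀, y ^ m = 1 := by
    rintro y ⟨hy1, hy2⟩
    obtain ⟨k, hk⟩ := hErp _ hy2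
    refine tw_one (hcr k 3) ?_ ?_
    · rw [← pow_mul, mul_comm, pow_mul]
      apply hKpow
      rw [← hπ1, map_pow, hk]
    · rw [← pow_mul]
      exact hexp y
  have h2m : ¬ 2 ∣ m := fun h2 => (Nat.not_even_iff_odd.2 hm) (even_iff_two_dvd.2 h2)
  have hD₀c : ¬ 2 ∣ Nat.card D₀ := tw_card_cop Nat.prime_two h2m D₀ hD₀m
  have hxg : IsPGroup 2 (zpowers x) := by
    rintro ⟨y, n, rfl⟩
    refine ⟨2, Subtype.ext ?_⟩
    show (x ^ n) ^ (2 ^ 2) = 1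
    rw [← zpow_natCast, ← zpow_mul, mul_comm, zpow_mul, zpow_natCast, show 2 ^ 2 = 4 by norm_num, hx4, one_zpow]
  obtain ⟨R₀, hR₀D, hR₀r, hR₀x, k, hk, hrk⟩ := tw_inv_sylow hr Nat.prime_two D₀ (zpowers x)
    (zthon_zp hD₀x) hxg hD₀c
  have hR₀x' : ∀ y ∈ R₀, x * y * x⁻¹ ∈ R₀ := hR₀x x (mem_zpowers x)
  have hDE : IsPGroup r (D₀.map π) := by
    refine hEhr.to_le ?_
    rintro _ ⟨y, hy, rfl⟩
    exact hy.2
  have hR₀s : ∀ y ∈ Eh, ∃ n ∈ R₀, π n = y := by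
    intro y hy
    obtain ⟨n, hn, hny⟩ := hN y
    have hnD : n ∈ D₀ := ⟨hn, by show π n ∈ Eh; rw [hny]; exact hy⟩
    obtain ⟨s, hs, hsn⟩ := zthon_image hr π R₀ D₀ hR₀D hk hrk hDE hnD
    exact ⟨s, hs, by rw [hsn, hny]⟩
  -- (5)
  obtain ⟨n, hnR, hne⟩ := hR₀s e heE
  have hy2 : x ^ 2 * x ^ 2 = 1 := by rw [← pow_add]; exact hx4
  have hyi : (x ^ 2)⁻¹ = x ^ 2 := inv_eq_of_mul_eq_one_left hy2
  have hR₀y : x ^ 2 * n * (x ^ 2)⁻¹ ∈ R₀ := hR₀x _ (pow_mem (mem_zpowers x) 2) n hnR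
  set ρ : F := n⁻¹ * (x ^ 2 * n * (x ^ 2)⁻¹) with hρ
  have hρR₀ : ρ ∈ R₀ := R₀.mul_mem (R₀.inv_mem hnR) hR₀y
  have hρx : x ^ 2 * ρ * (x ^ 2)⁻¹ = ρ⁻¹ := by
    rw [hρ, hyi]
    have e1 : x ^ 2 * (n⁻¹ * (x ^ 2 * n * x ^ 2)) * x ^ 2 = x ^ 2 * n⁻¹ * x ^ 2 * n * (x ^ 2 * x ^ 2) := by group
    have e2 : (n⁻¹ * (x ^ 2 * n * x ^ 2))⁻¹ = (x ^ 2)⁻¹ * n⁻¹ * (x ^ 2)⁻¹ * n := by group
    rw [e1, e2, hyi, hy2, mul_one]
  have hπρ : π ρ = e⁻¹ * e⁻¹ := by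
    rw [hρ, map_mul, map_inv, map_mul, map_mul, map_inv, map_pow, hne, hEinv e heE]
  have hπρ1 : π ρ ≠ 1 := by
    intro h1
    rw [hπρ] at h1
    obtain ⟨l, hl⟩ := hErp e heE
    have h2 : e ^ (2 ^ 1) = 1 := by
      rw [pow_one, pow_two]
      rw [← mul_inv_rev, inv_eq_one] at h1
      exact h1
    exact he1 (tw_one (hcr l 1) hl h2)
  have hρE : π ρ ∈ Eh := by
    rw [hπρ]
    exact Eh.mul_mem (Eh.inv_mem heE) (Eh.inv_mem heE)
  have hRR₀ : closure {ρ, x * ρ * x⁻¹} ≤ R₀ := by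
    rw [closure_le]
    rintro y (rfl | rfl)
    · exact hρR₀
    · exact hR₀x' _ hρR₀
  have hRN : ∀ g ∈ closure {ρ, x * ρ * x⁻¹}, g ∈ normalizer (P : Set F) := fun g hg => (hR₀D (hRR₀ hg)).1
  have hRE : ∀ g ∈ closure {ρ, x * ρ * x⁻¹}, π g ∈ Eh := fun g hg => (hR₀D (hRR₀ hg)).2
  have hRx : ∀ g ∈ closure {ρ, x * ρ * x⁻¹}, x * g * x⁻¹ ∈ closure {ρ, x * ρ * x⁻¹} := by
    intro g hg
    have h1 : closure {ρ, x * ρ * x⁻¹} ≤ (closure {ρ, x * ρ * x⁻¹}).comap (MulAut.conj x).toMonoidHom := by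
      rw [closure_le]
      rintro y (rfl | rfl)
      · show x * ρ * x⁻¹ ∈ closure {ρ, x * ρ * x⁻¹}
        exact subset_closure (Or.inr rfl)
      · show x * (x * ρ * x⁻¹) * x⁻¹ ∈ closure {ρ, x * ρ * x⁻¹}
        rw [show x * (x * ρ * x⁻¹) * x⁻¹ = x ^ 2 * ρ * (x ^ 2)⁻¹ by rw [pow_two]; group, hρx]
        exact inv_mem (subset_closure (Or.inl rfl))
    exact h1 hg
  refine ⟨r, P, closure {ρ, x * ρ * x⁻¹}, x, ρ, hr, hr2, hP8, hR₀r.to_le hRR₀, hx4, hRx, hconj x hxN,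
    fun g hg => hconj g (hRN g hg), subset_closure (Or.inl rfl), hρx, le_rfl, fun g hg h hh => ?_, ?_⟩
  · refine hcent _ (mul_mem (mul_mem (mul_mem (hRN g hg) (hRN h hh)) (inv_mem (hRN g hg)))
      (inv_mem (hRN h hh))) fun w _ => ?_
    have h1 : π (g * h * g⁻¹ * h⁻¹) = 1 := by
      rw [map_mul, map_mul, map_mul, map_inv, map_inv, hEab _ (hRE g hg) _ (hRE h hh)]
      group
    rw [h1, one_mul, mul_one]
  -- (6)
  · by_contra hcon
    push Not at hcon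
    have h1 : ∀ w ∈ krad (2 ^ 3) (F ⧸ krad m F), π ρ * w = w * π ρ := by
      intro w hw
      obtain ⟨q, hq, rfl⟩ := hPs w hw
      rw [← map_mul, ← map_mul, hcon q hq]
    have h2 : π ρ ∈ krad (2 ^ 3) (F ⧸ krad m F) :=
      fr_fitting hcop.symm (by norm_num) hm0 hsolT hexpT' hbot h1
    exact hπρ1 (hEW _ hρE h2)

end Pool.Agent.Lib.MP_544bd1_al
end

section

/-!
Theorem Z3, Case A: the honest form of (L2ab), second part.
-/

namespace Pool.Agent.Lib.MP_544bd1_al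

open Subgroup

private theorem zthon2_norm {F : Type} [Group F] [Finite F] {g : F} {K : Subgroup F}
    (h : ∀ x ∈ K, g * x * g⁻¹ ∈ K) : g ∈ normalizer (K : Set F) := mem_normalizer_fintype h

/-- **Honest form, second part**: a minimal configuration.

Proof. As `ev_min` (EvD.lean). Let `Q₀ ≤ P` be minimal (well-founded `<`) among the subgroups of `P`
normalized by `R` and `x`, with `∃ g ∈ R, ∃ q ∈ Q₀, g * q ≠ q * g`; `F₁ = normalizer Q₀`,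
`Q = Q₀.subgroupOf F₁`, `R₁ = R.subgroupOf F₁`, `x₁ = ⟨x, _⟩`, `ρ₁ = ⟨ρ, _⟩` (`evD_norm`). `gen`: for
`S : Subgroup F₁` with `ρ₁, x₁ * ρ₁ * x₁⁻¹ ∈ S`, `closure {ρ, x * ρ * x⁻¹} ≤ S.map F₁.subtype`. -/
theorem zt_hon2 {F : Type} [Group F] [Finite F] {r : ℕ} (P R : Subgroup F) (x ρ : F)
    (hP : ∀ q ∈ P, q ^ (2 ^ 3) = 1) (hR : IsPGroup r R) (hx : x ^ 4 = 1)
    (hxR : ∀ g ∈ R, x * g * x⁻¹ ∈ R) (hxP : ∀ q ∈ P, x * q * x⁻¹ ∈ P)
    (hRP : ∀ g ∈ R, ∀ q ∈ P, g * q * g⁻¹ ∈ P) (hρ : ρ ∈ R)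
    (hρx : x ^ 2 * ρ * (x ^ 2)⁻¹ = ρ⁻¹) (hgen : R ≤ closure {ρ, x * ρ * x⁻¹})
    (hab : ∀ g ∈ R, ∀ h ∈ R, ∀ q ∈ P, g * h * g⁻¹ * h⁻¹ * q = q * (g * h * g⁻¹ * h⁻¹))
    (h : ∃ q ∈ P, ρ * q ≠ q * ρ) :
    ∃ (F₁ : Subgroup F) (Q R₁ : Subgroup F₁) (x₁ ρ₁ : F₁), Q.Normal ∧ ZHon r Q R₁ x₁ ρ₁ := by
  obtain ⟨q₀, hq₀P, hq₀⟩ := h
  let T : Set (Subgroup F) := {Q' | Q' ≤ P ∧ (∀ g ∈ R, ∀ q ∈ Q', g * q * g⁻¹ ∈ Q') ∧
    (∀ q ∈ Q', x * q * x⁻¹ ∈ Q') ∧ ∃ g ∈ R, ∃ q ∈ Q', g * q ≠ q * g}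
  have hPT : P ∈ T := ⟨le_rfl, hRP, hxP, ρ, hρ, q₀, hq₀P, hq₀⟩
  obtain ⟨Q₀, ⟨hQP, hQR, hQw, g₁, hg₁, q₁, hq₁, hne⟩, hmin⟩ :=
    (wellFounded_lt (α := Subgroup F)).has_min T ⟨P, hPT⟩
  have hR₀F : R ≤ normalizer (Q₀ : Set F) := fun g hg => zthon2_norm (hQR g hg)
  have hwF : x ∈ normalizer (Q₀ : Set F) := zthon2_norm hQw
  have hQF : Q₀ ≤ normalizer (Q₀ : Set F) := le_normalizer
  refine ⟨normalizer (Q₀ : Set F), Q₀.subgroupOf (normalizer (Q₀ : Set F)),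
    R.subgroupOf (normalizer (Q₀ : Set F)), ⟨x, hwF⟩, ⟨ρ, hR₀F hρ⟩, inferInstance, ?_⟩
  refine ⟨⟨fun q hq => ?_, ?_, fun g hg => ?_, ?_, fun Q' hQ'1 hQ'2 hQ'3 hQ'4 g hg q hq => ?_⟩,
    ?_, mem_subgroupOf.2 hρ, ?_, fun S hS1 hS2 g hg => ?_, fun g hg h hh q hq => ?_⟩
  · exact Subtype.ext (hP q (hQP (mem_subgroupOf.1 hq)))
  · exact hR.comap_subtype
  · exact mem_subgroupOf.2 (hxR g (mem_subgroupOf.1 hg))
  · exact ⟨⟨g₁, hR₀F hg₁⟩, mem_subgroupOf.2 hg₁, ⟨q₁, hQF hq₁⟩, mem_subgroupOf.2 hq₁,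
      fun h => hne (congrArg Subtype.val h)⟩
  · by_contra hcon
    refine hmin (Q'.map (normalizer (Q₀ : Set F)).subtype) ⟨?_, ?_, ?_, ?_⟩ ?_
    · rintro _ ⟨y, hy, rfl⟩
      exact hQP (mem_subgroupOf.1 (hQ'1 hy))
    · rintro y hy _ ⟨z, hz, rfl⟩
      exact ⟨_, hQ'3 ⟨y, hR₀F hy⟩ (mem_subgroupOf.2 hy) z hz, rfl⟩
    · rintro _ ⟨z, hz, rfl⟩
      exact ⟨_, hQ'4 z hz, rfl⟩
    · exact ⟨g, mem_subgroupOf.1 hg, q, ⟨q, hq, rfl⟩, fun h => hcon (Subtype.ext h)⟩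
    · refine lt_of_le_of_ne ?_ fun he => hQ'2 ?_
      · rintro _ ⟨y, hy, rfl⟩
        exact mem_subgroupOf.1 (hQ'1 hy)
      · refine le_antisymm hQ'1 fun y hy => ?_
        have h1 : (y : F) ∈ Q'.map (normalizer (Q₀ : Set F)).subtype := by
          rw [he]; exact mem_subgroupOf.1 hy
        obtain ⟨z, hz, h2⟩ := h1
        have : z = y := Subtype.ext h2
        rwa [← this]
  · exact Subtype.ext hx
  · exact Subtype.ext hρx
  · have h1 : R ≤ S.map (normalizer (Q₀ : Set F)).subtype := by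
      refine hgen.trans ((closure_le _).2 fun y hy => ?_)
      rcases hy with rfl | hy
      · exact ⟨_, hS1, rfl⟩
      · rw [Set.mem_singleton_iff] at hy
        exact ⟨_, hS2, hy.symm⟩
    obtain ⟨g', hg', he⟩ := h1 (mem_subgroupOf.1 hg)
    have : g' = g := Subtype.ext he
    rwa [← this]
  · exact Subtype.ext (hab g (mem_subgroupOf.1 hg) h (mem_subgroupOf.1 hh) q (hQP (mem_subgroupOf.1 hq)))

/-- **Honest form.** -/
theorem zt_honest {m : ℕ} (hm : Odd m) {F : Type} [Group F] [Finite F]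
    (hsol : Group.IsSolvable F) (hexp : ∀ x : F, x ^ (m * 2 ^ 3) = 1) (h : ZL2 m 3 F) :
    ∃ (r : ℕ) (F₁ : Subgroup F) (Q R : Subgroup F₁) (x ρ : F₁), r.Prime ∧ r ≠ 2 ∧ Q.Normal ∧
      ZHon r Q R x ρ := by
  obtain ⟨r, P, R, x, ρ, hr, hr2, h1, h2, h3, h4, h5, h6, h7, h8, h9, h10, h11⟩ :=
    zt_hon1 hm hsol hexp h
  obtain ⟨F₁, Q, R₁, x₁, ρ₁, h12, h13⟩ := zt_hon2 P R x ρ h1 h2 h3 h4 h5 h6 h7 h8 h9 h10 h11
  exact ⟨r, F₁, Q, R₁, x₁, ρ₁, hr, hr2, h12, h13⟩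

end Pool.Agent.Lib.MP_544bd1_al
end

section

/-!
Theorem Z (paper 287), 4.4: norms, `Q = [Q, R]`, orders.
-/

namespace Pool.Agent.Lib.MP_544bd1_al

open Subgroup

variable {F : Type} [Group F]

/-- the norm of every 2-element is zero on the module -/
theorem ym_norm {m a : ℕ} (hm : Odd m) (hexp : ∀ x : F, x ^ (m * 2 ^ a) = 1) {Q R : Subgroup F}
    [hQn : Q.Normal] (hQ : ∀ q ∈ Q, q ^ (2 ^ a) = 1) {V : Type} [AddCommGroup V]
    [Module (ZMod 2) V] {τ : F →* Module.End (ZMod 2) V} {φ : Q → V} (M : ZMd Q R τ φ) {u : F}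
    (hu : u ^ (2 ^ a) = 1) : ∑ i ∈ Finset.range (2 ^ a), (τ u) ^ i = 0 := by
  have hcop : Nat.Coprime m (2 ^ a) := Nat.Coprime.pow_right a (Nat.coprime_two_right.2 hm)
  refine LinearMap.ext fun v => ?_
  obtain ⟨x, rfl⟩ := M.surj v
  rw [LinearMap.zero_apply]
  refine tw_norm_zero Q τ φ M.add M.eqv hu x ?_
  have h1 : ((x : F) * u) ^ (2 ^ a) ∈ Q := by
    rw [← QuotientGroup.eq_one_iff (N := Q), QuotientGroup.mk_pow, QuotientGroup.mk_mul,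
      (QuotientGroup.eq_one_iff (N := Q) (x : F)).2 x.2, one_mul, ← QuotientGroup.mk_pow, hu,
      QuotientGroup.mk_one]
  exact tw_PP hcop hexp (hQ _ h1)

/-- `Q = [Q, R]` -/
theorem ym_QR {r a : ℕ} (hr : r.Prime) (hr2 : r ≠ 2) [Finite F] {Q R : Subgroup F}
    [hQn : Q.Normal] {S : Set F} (D : YCore r a Q R S) (K : Subgroup F)
    (hK : ∀ x ∈ Q, ∀ g ∈ R, x⁻¹ * (g * x * g⁻¹) ∈ K) : Q ≤ K := by
  let Q₂ : Subgroup F := closure {y | ∃ x ∈ Q, ∃ g ∈ R, y = x⁻¹ * (g * x * g⁻¹)}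
  have hQ₂K : Q₂ ≤ K := by
    rw [closure_le]
    rintro _ ⟨x, hx, g, hg, rfl⟩
    exact hK x hx g hg
  have hQ₂Q : Q₂ ≤ Q := by
    rw [closure_le]
    rintro _ ⟨x, hx, g, hg, rfl⟩
    exact Q.mul_mem (Q.inv_mem hx) (hQn.conj_mem x hx g)
  have hinv : ∀ s : F, (∀ g ∈ R, s * g * s⁻¹ ∈ R) → ∀ q ∈ Q₂, s * q * s⁻¹ ∈ Q₂ := by
    intro s hs q hq
    induction hq using closure_induction with
    | mem y hy =>
      obtain ⟨x, hx, g, hg, rfl⟩ := hy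
      apply Subgroup.subset_closure
      refine ⟨s * x * s⁻¹, hQn.conj_mem x hx s, s * g * s⁻¹, hs g hg, ?_⟩
      group
    | one => simp
    | mul x y _ _ hx hy =>
      have h1 : s * (x * y) * s⁻¹ = (s * x * s⁻¹) * (s * y * s⁻¹) := by group
      rw [h1]; exact Q₂.mul_mem hx hy
    | inv x _ hx =>
      have h1 : s * x⁻¹ * s⁻¹ = (s * x * s⁻¹)⁻¹ := by group
      rw [h1]; exact Q₂.inv_mem hx
  by_cases he : Q₂ = Q
  · rw [← he]; exact hQ₂K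
  exfalso
  have h1 := D.min Q₂ hQ₂Q he
    (fun g hg => hinv g (fun h hh => R.mul_mem (R.mul_mem hg hh) (R.inv_mem hg)))
    (fun x hx => hinv x (D.hxR x hx))
  obtain ⟨g, hg, q, hq, hne⟩ := D.ne
  refine hne (ev_coprime hr hr2 Q R D.hQ D.hR hg (fun q hq => hQn.conj_mem q hq g) ?_ q hq)
  intro q hq
  exact h1 g hg _ (Subgroup.subset_closure ⟨q, hq, g, hg, rfl⟩)

/-- the elements of an `r`-subgroup, `r` odd, are odd -/
theorem ym_odd {m a r : ℕ} (hr : r.Prime) (hr2 : r ≠ 2) (hexp : ∀ x : F, x ^ (m * 2 ^ a) = 1)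
    {R : Subgroup F} (hR : IsPGroup r R) : ∀ x ∈ R, x ^ m = 1 := by
  intro x hx
  obtain ⟨k, hk⟩ := hR ⟨x, hx⟩
  have hk' : x ^ (r ^ k) = 1 := by
    have h1 := congrArg Subtype.val hk
    simpa using h1
  have h1 : orderOf x ∣ m * 2 ^ a := orderOf_dvd_of_pow_eq_one (hexp x)
  have h2 : orderOf x ∣ r ^ k := orderOf_dvd_of_pow_eq_one hk'
  have h3 : Nat.Coprime (orderOf x) (2 ^ a) :=
    Nat.Coprime.coprime_dvd_left h2 (Nat.Coprime.pow _ _ ((Nat.coprime_primes hr Nat.prime_two).2 hr2))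
  exact orderOf_dvd_iff_pow_eq_one.1 (h3.dvd_of_dvd_mul_right h1)

end Pool.Agent.Lib.MP_544bd1_al
end
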