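import Mathlib

section

/-!
Theorem Z3, Case B: the `r`-group `R` (a group of operators), part 1.
-/

namespace Pool.Agent.Lib.MP_544bd1_al

open Subgroup

/-- a nontrivial finite commutative `r`-group has an `r`-th power map that is not surjective -/
private theorem ztbg_pow {Q : Type} [CommGroup Q] [Finite Q] {r : ℕ} (hr : r.Prime) (hQ : IsPGroup r Q)
    (hnt : Nontrivial Q) : (powMonoidHom r : Q →* Q).range ≠ ⊤ := by
  haveI : Fact r.Prime := ⟨hr⟩
  intro h
  have h1 : Function.Surjective (powMonoidHom r : Q →* Q) := MonoidHom.range_eq_top.1 h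
  have h2 : Function.Injective (powMonoidHom r : Q →* Q) := Finite.injective_iff_surjective.2 h1
  have h3 : r ∣ Nat.card Q := by
    rcases hQ.card_eq_or_dvd with h4 | h4
    · have h5 : 1 < Nat.card Q := Finite.one_lt_card
      omega
    · exact h4
  obtain ⟨y, hy⟩ := exists_prime_orderOf_dvd_card' r h3
  have h6 : y ^ r = 1 := by rw [← hy]; exact pow_orderOf_eq_one y
  have h7 : y = 1 := h2 (by simpa using h6)
  rw [h7, orderOf_one] at hy
  exact hr.one_lt.ne hy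

/-- **Class 2, exponent.** `R` is a finite `r`-group normalized by `g`, `x = g ^ 4`, generated by the
elements inverted by `x`, and `x` centralizes the proper `g`-invariant subgroups.

Proof. If `R = ⊥` all is trivial. Let `R ≠ ⊥`.
`R' = ⁅R, R⁆` is normalized by `g` and `≠ R` (`R` is nilpotent, nontrivial; compare the proof of
`zt_minA` in ZtMin.lean), so `x` centralizes `R'`: the second statement. For `s ∈ R` inverted by `x` and
`c ∈ R'`: `s * c * s⁻¹ ∈ R'`, so `s * c * s⁻¹ = x * (s * c * s⁻¹) * x⁻¹ = s⁻¹ * c * s`, so `s ^ 2` commutes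
with `c`, and so does `s`, a power of `s ^ 2` (`s ^ (r ^ k) = 1`, `r` odd). The elements commuting with
all `c ∈ R'` form a subgroup, so by `hgen` `R` centralizes `R'`: the first statement.
Third statement: let `B` be the set of all `a ^ r * c`, `a ∈ R`, `c ∈ R'`; it is a subgroup (class 2:
`a ^ r * b ^ r ∈ (a * b) ^ r * R'`, this is true modulo `R'` where everything commutes), or take `B` the
subgroup generated by `R'` and all `a ^ r`. It is normalized by `g`. `B ≠ R`: the quotient `R ⧸ R'` is a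
nontrivial finite commutative `r`-group, so its `r`-th power map is not injective, so not surjective.
So `x` centralizes `B ∋ s ^ r`; if `s` is inverted by `x` then so is `s ^ r`, `s ^ r = (s ^ r)⁻¹`,
`(s ^ r) ^ 2 = 1`, and `s ^ r = 1`, as its order is odd. -/
theorem zt_Rg {H : Type} [Group H] [Finite H] {r : ℕ} (hr : r.Prime) (hr2 : r ≠ 2)
    {R : Subgroup H} (hR : IsPGroup r R) {g : H} (hgR : ∀ s ∈ R, g * s * g⁻¹ ∈ R)
    (hgen : ∀ S : Subgroup H, (∀ s ∈ R, g ^ 4 * s * (g ^ 4)⁻¹ = s⁻¹ → s ∈ S) → R ≤ S)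
    (hmin : ∀ R₁ : Subgroup H, R₁ ≤ R → R₁ ≠ R → (∀ s ∈ R₁, g * s * g⁻¹ ∈ R₁) →
      ∀ s ∈ R₁, g ^ 4 * s = s * g ^ 4) :
    (∀ a ∈ R, ∀ b ∈ R, ∀ c ∈ R, a * b * a⁻¹ * b⁻¹ * c = c * (a * b * a⁻¹ * b⁻¹)) ∧
      (∀ a ∈ R, ∀ b ∈ R, g ^ 4 * (a * b * a⁻¹ * b⁻¹) = a * b * a⁻¹ * b⁻¹ * g ^ 4) ∧
      ∀ s ∈ R, g ^ 4 * s * (g ^ 4)⁻¹ = s⁻¹ → s ^ r = 1 := by
  classical
  haveI : Fact r.Prime := ⟨hr⟩
  by_cases hbot : R = ⊥
  · subst hbot
    refine ⟨?_, ?_, ?_⟩
    · intro a ha b hb c hc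
      rw [mem_bot] at ha hb hc
      simp [ha, hb, hc]
    · intro a ha b hb
      rw [mem_bot] at ha hb
      simp [ha, hb]
    · intro s hs _
      rw [mem_bot] at hs
      simp [hs]
  have hnt : Nontrivial R := (Subgroup.nontrivial_iff_ne_bot R).2 hbot
  have hnil : Group.IsNilpotent R := hR.isNilpotent
  have hsolR : Group.IsSolvable R := inferInstance
  have hlt : _root_.commutator R < ⊤ := Group.IsSolvable.commutator_lt_top_of_nontrivial R
  have hcomR : ⁅R, R⁆ ≤ R := by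
    rw [commutator_le]
    intro x hx y hy
    exact R.mul_mem (R.mul_mem (R.mul_mem hx hy) (R.inv_mem hx)) (R.inv_mem hy)
  have hcomm : ⁅R, R⁆ ≠ R := by
    intro h
    apply hlt.ne
    apply Subgroup.map_injective R.subtype_injective
    rw [Subgroup.map_subtype_commutator, h, ← MonoidHom.range_eq_map, Subgroup.range_subtype]
  have hcomg : ∀ x ∈ ⁅R, R⁆, g * x * g⁻¹ ∈ ⁅R, R⁆ := by
    have h1 : ⁅R, R⁆ ≤ ⁅R, R⁆.comap (MulAut.conj g).toMonoidHom := by
      rw [commutator_le]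
      intro x hx y hy
      rw [mem_comap, map_commutatorElement]
      exact commutator_mem_commutator (hgR x hx) (hgR y hy)
    intro x hx
    exact h1 hx
  have hcx : ∀ c ∈ ⁅R, R⁆, g ^ 4 * c = c * g ^ 4 := hmin _ hcomR hcomm hcomg
  -- odd order elements
  have hodd : ∀ s ∈ R, ∃ k : ℕ, Odd k ∧ s ^ k = 1 := by
    intro s hs
    obtain ⟨k, hk⟩ := hR ⟨s, hs⟩
    refine ⟨r ^ k, (hr.odd_of_ne_two hr2).pow, ?_⟩
    have h1 := congrArg Subtype.val hk
    simpa using h1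
  have hsqc : ∀ s ∈ R, ∀ c : H, Commute (s ^ 2) c → Commute s c := by
    intro s hs c hc
    obtain ⟨k, ⟨j, hj⟩, hk⟩ := hodd s hs
    have h1 : s = (s ^ 2) ^ (j + 1) := by
      rw [← pow_mul, show 2 * (j + 1) = k + 1 by omega, pow_succ, hk, one_mul]
    rw [h1]
    exact hc.pow_left _
  have hsq1 : ∀ s ∈ R, s ^ 2 = 1 → s = 1 := by
    intro s hs h2
    obtain ⟨k, ⟨j, hj⟩, hk⟩ := hodd s hs
    rw [hj, pow_succ, pow_mul, h2, one_pow, one_mul] at hk
    exact hk
  -- R centralizes its commutators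
  have hcent : ∀ s ∈ R, ∀ c ∈ ⁅R, R⁆, Commute s c := by
    have h1 : R ≤ Subgroup.centralizer ((⁅R, R⁆ : Subgroup H) : Set H) := by
      apply hgen
      intro s hs hinv
      rw [mem_centralizer_iff]
      intro c hc
      refine (hsqc s hs c ?_).eq.symm
      have hcR := hcomR hc
      have h2 : s * c * s⁻¹ * c⁻¹ ∈ ⁅R, R⁆ := commutator_mem_commutator hs hcR
      have h3 : s * c * s⁻¹ ∈ ⁅R, R⁆ := by
        have h4 : s * c * s⁻¹ = s * c * s⁻¹ * c⁻¹ * c := by group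
        rw [h4]
        exact mul_mem h2 hc
      have h5 := hcx _ h3
      have h6 := hcx _ hc
      have h7 : g ^ 4 * (s * c * s⁻¹) * (g ^ 4)⁻¹ =
          (g ^ 4 * s * (g ^ 4)⁻¹) * (g ^ 4 * c * (g ^ 4)⁻¹) * (g ^ 4 * s * (g ^ 4)⁻¹)⁻¹ := by group
      rw [h5, h6, hinv, mul_inv_cancel_right, mul_inv_cancel_right, inv_inv] at h7
      -- h7 : s * c * s⁻¹ = s⁻¹ * c * s
      show s ^ 2 * c = c * s ^ 2
      calc s ^ 2 * c = s * (s * c * s⁻¹) * s := by simp [pow_two, mul_assoc]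
        _ = s * (s⁻¹ * c * s) * s := by rw [h7]
        _ = c * s ^ 2 := by simp [pow_two, mul_assoc]
    intro s hs c hc
    have h2 := h1 hs
    rw [mem_centralizer_iff] at h2
    exact (h2 c hc).symm
  refine ⟨?_, ?_, ?_⟩
  · intro a ha b hb c hc
    exact ((hcent c hc _ (commutator_mem_commutator ha hb)).eq).symm
  · intro a ha b hb
    exact hcx _ (commutator_mem_commutator ha hb)
  -- the exponent
  let B : Subgroup H := Subgroup.closure ({x | ∃ a ∈ R, x = a ^ r} ∪ ((⁅R, R⁆ : Subgroup H) : Set H))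
  have hBR : B ≤ R := by
    rw [closure_le]
    rintro x (⟨a, ha, rfl⟩ | hx)
    · exact R.pow_mem ha r
    · exact hcomR hx
  have hBg : ∀ s ∈ B, g * s * g⁻¹ ∈ B := by
    have h1 : B ≤ B.comap (MulAut.conj g).toMonoidHom := by
      rw [closure_le]
      rintro x (⟨a, ha, rfl⟩ | hx)
      · show g * a ^ r * g⁻¹ ∈ B
        rw [← conj_pow]
        exact Subgroup.subset_closure (Or.inl ⟨_, hgR a ha, rfl⟩)
      · show g * x * g⁻¹ ∈ B
        exact Subgroup.subset_closure (Or.inr (hcomg x hx))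
    intro s hs
    exact h1 hs
  have hBne : B ≠ R := by
    intro hB
    have hQ : IsPGroup r (Abelianization R) :=
      hR.of_surjective Abelianization.of (QuotientGroup.mk'_surjective _)
    have hQn : Nontrivial (Abelianization R) := by
      by_contra hcon
      rw [not_nontrivial_iff_subsingleton] at hcon
      apply hlt.ne
      rw [eq_top_iff]
      intro y _
      rw [← Abelianization.ker_of]
      exact Subsingleton.elim _ _
    have h1 := ztbg_pow hr hQ hQn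
    apply h1
    have h2 : B ≤ (((powMonoidHom r : Abelianization R →* Abelianization R).range).comap
        Abelianization.of).map R.subtype := by
      rw [closure_le]
      rintro x (⟨a, ha, rfl⟩ | hx)
      · refine ⟨⟨a, ha⟩ ^ r, ?_, rfl⟩
        show _ ∈ (powMonoidHom r : Abelianization R →* Abelianization R).range
        rw [map_pow]
        exact ⟨_, rfl⟩
      · have h3 : x ∈ (_root_.commutator R).map R.subtype := by
          rw [Subgroup.map_subtype_commutator]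
          exact hx
        obtain ⟨y, hy, rfl⟩ := h3
        refine ⟨y, ?_, rfl⟩
        show Abelianization.of y ∈ (powMonoidHom r : Abelianization R →* Abelianization R).range
        have h4 : Abelianization.of y = 1 := by
          rw [← MonoidHom.mem_ker, Abelianization.ker_of]
          exact hy
        rw [h4]
        exact one_mem _
    rw [eq_top_iff]
    intro q _
    obtain ⟨y, rfl⟩ := QuotientGroup.mk'_surjective (_root_.commutator R) q
    have h3 : (y : H) ∈ B := by rw [hB]; exact y.2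
    obtain ⟨w, hw, hwy⟩ := h2 h3
    have h4 : w = y := Subtype.ext hwy
    rw [h4] at hw
    exact hw
  have hBx := hmin B hBR hBne hBg
  intro s hs hinv
  have h1 : s ^ r ∈ B := Subgroup.subset_closure (Or.inl ⟨s, hs, rfl⟩)
  have h2 := hBx _ h1
  have h3 : g ^ 4 * s ^ r * (g ^ 4)⁻¹ = (s ^ r)⁻¹ := by
    rw [← conj_pow, hinv, inv_pow]
  rw [h2, mul_inv_cancel_right] at h3
  apply hsq1 _ (R.pow_mem hs r)
  rw [pow_two]
  nth_rewrite 1 [h3]
  exact inv_mul_cancel _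

end Pool.Agent.Lib.MP_544bd1_al
end

section

/-!
Theorem Z3, Case B: the `r`-group `R` (a group of operators), part 2.
-/

namespace Pool.Agent.Lib.MP_544bd1_al

open Subgroup

private theorem ztBg2_aux3 {A : Type*} [AddCommGroup A] (φ : A →+ A) (p4 : ∀ u, φ (φ (φ (φ u))) = -u)
    (pr : ∀ u : A, (3 : ℤ) • u = 0) {u : A} (hu : u ≠ 0) : ∃ v : A, v ≠ 0 ∧ ∃ e : ℤ, φ (φ v) = e • φ v + v := by
  by_cases hb : φ (φ u) - φ u - u = 0
  · refine ⟨u, hu, 1, ?_⟩
    rw [← sub_eq_zero, ← hb]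
    abel
  · refine ⟨_, hb, -1, ?_⟩
    have h7 := pr (φ (φ u))
    rw [← sub_eq_zero]
    simp only [map_sub, p4]
    rw [← neg_eq_zero, ← h7]
    abel

private theorem ztBg2_aux7 {A : Type*} [AddCommGroup A] (φ : A →+ A) (p4 : ∀ u, φ (φ (φ (φ u))) = -u)
    (pr : ∀ u : A, (7 : ℤ) • u = 0) {u : A} (hu : u ≠ 0) : ∃ v : A, v ≠ 0 ∧ ∃ e : ℤ, φ (φ v) = e • φ v - v := by
  by_cases hb : φ (φ u) - (3 : ℤ) • φ u + u = 0
  · refine ⟨u, hu, 3, ?_⟩
    rw [← sub_eq_zero, ← hb]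
    abel
  · refine ⟨_, hb, -3, ?_⟩
    have h7 := pr (φ (φ u))
    rw [← sub_eq_zero]
    simp only [map_sub, map_add, map_zsmul, p4]
    rw [← neg_eq_zero, ← h7]
    abel

/-- **Generators.** Hypotheses as in `zt_Rg`, `r = 3` or `7`, `R` not commutative.

Proof. Let `x = g ^ 4`, `R' = ⁅R, R⁆`; by `zt_Rg` `R'` is central in `R`, centralized by `x`, and
elements of `R` inverted by `x` have order dividing `r`.
(0) For `a, b ∈ R` write `a ∼ b` if `a * b⁻¹ ∈ R'` (a congruence, modulo which `R` is commutative). By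
`hgen` every `a ∈ R` satisfies `a ^ r ∼ 1` (`{a ∈ R | a ^ r ∈ R'}` is a subgroup) and
`x * a * x⁻¹ ∼ a⁻¹` (in the same way). For `a ∈ R` the element `a' = a * (x * a⁻¹ * x⁻¹)` is inverted by
`x` (`x ^ 2 = 1`) and `a' ∼ a ^ 2`; so `b = a' ^ ((r + 1) / 2)` is inverted by `x` and `b ∼ a ^ (r + 1) ∼ a`.
(1) If `B ≤ R` is a subgroup with `R' ≤ B`, normalized by `g`, containing an element not in `R'`, then
`B = R`: otherwise `x` centralizes `B` (`hmin`), `a = x * a * x⁻¹ ∼ a⁻¹`, `a ^ 2 ∼ 1`, `a ∼ 1` for `a ∈ B`.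
(2) `R' ≠ R` (nilpotent), so by (0) there is `a ∈ R`, `a ∉ R'`, inverted by `x`. We write `g • a` for
`g * a * g⁻¹` and the congruence classes additively: `x = g ^ 4` acts as `-1`. `r = 3`: with
`b = (g • g • a) * (g • a)⁻¹ * a⁻¹` (class `(g² - g - 1) a`) one has
`(g • g • b) * (g • b) * b⁻¹ ∼ ((g² + g - 1) (g² - g - 1)) a = (g⁴ - 3 g² + 1) a = -3 g² a = 0`, i.e.
`∼ 1`. If `b ∼ 1` then `g • g • a ∼ (g • a) * a` and we put `s := a`; otherwise let `s` be the element of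
(0) inverted by `x` with `s ∼ b`: `g • g • s ∼ (g • s)⁻¹ * s`. So in both cases there is `s ∈ R`, `s ∉ R'`,
inverted by `x`, with (`t = g • s`) `g • t ∼ t ^ e * s` for an integer `e` (`e = 1, -1`).
`r = 7`: with `(g² - 3 g + 1) (g² + 3 g + 1) = g⁴ - 7 g² + 1` in the same way `g • t ∼ t ^ e * s⁻¹`
(`e = 3, -3`).
(3) `B = closure {s, t} ⊔ R'` is normalized by `g` and so `B = R` by (1). Then `R = closure {s, t}`:
`R' = {[a, b]}` is generated by the commutators of elements of `closure {s, t} ⊔ R'`, `R'` is central,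
so these are commutators of elements of `closure {s, t}`: `R' ≤ closure {s, t}`.
(4) Let `ζ = [s, t] = s * t * s⁻¹ * t⁻¹`. `g * ζ * g⁻¹ = [t, g • t]`. `r = 3`: `g • t = t ^ e * s * c`,
`c ∈ R'` central: `[t, t ^ e * s * c] = [t, s] = ζ⁻¹`. `r = 7`: `[t, t ^ e * s⁻¹ * c] = [t, s⁻¹] = [t, s]⁻¹
= ζ`. Finally `ζ ≠ 1`, since otherwise `s`, `t` commute and `R = closure {s, t}` is commutative. -/
theorem zt_Rg2 {H : Type} [Group H] [Finite H] {r : ℕ} (hr : r = 3 ∨ r = 7)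
    {R : Subgroup H} (hR : IsPGroup r R) {g : H} (hg : g ^ 8 = 1) (hgR : ∀ s ∈ R, g * s * g⁻¹ ∈ R)
    (hgen : ∀ S : Subgroup H, (∀ s ∈ R, g ^ 4 * s * (g ^ 4)⁻¹ = s⁻¹ → s ∈ S) → R ≤ S)
    (hmin : ∀ R₁ : Subgroup H, R₁ ≤ R → R₁ ≠ R → (∀ s ∈ R₁, g * s * g⁻¹ ∈ R₁) →
      ∀ s ∈ R₁, g ^ 4 * s = s * g ^ 4)
    (hne : ∃ a ∈ R, ∃ b ∈ R, a * b ≠ b * a) :
    ∃ s ∈ R, g ^ 4 * s * (g ^ 4)⁻¹ = s⁻¹ ∧ R ≤ closure {s, g * s * g⁻¹} ∧
      s * (g * s * g⁻¹) * s⁻¹ * (g * s * g⁻¹)⁻¹ ≠ 1 ∧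
      (r = 3 → g * (s * (g * s * g⁻¹) * s⁻¹ * (g * s * g⁻¹)⁻¹) * g⁻¹ =
        (s * (g * s * g⁻¹) * s⁻¹ * (g * s * g⁻¹)⁻¹)⁻¹) ∧
      (r = 7 → g * (s * (g * s * g⁻¹) * s⁻¹ * (g * s * g⁻¹)⁻¹) * g⁻¹ =
        s * (g * s * g⁻¹) * s⁻¹ * (g * s * g⁻¹)⁻¹) := by
  classical
  have hrp : r.Prime := by rcases hr with rfl | rfl <;> norm_num
  have hr2 : r ≠ 2 := by rcases hr with rfl | rfl <;> norm_num
  have hodd : ¬ 2 ∣ r := by rcases hr with rfl | rfl <;> norm_num
  obtain ⟨h1, h2, h3⟩ := zt_Rg hrp hr2 hR hgR hgen hmin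
  let c : ↥R →* ↥R :=
    { toFun := fun a => ⟨g * a * g⁻¹, hgR a a.2⟩
      map_one' := by ext; simp
      map_mul' := fun a b => by ext; simp }
  have hc : ∀ a : ↥R, ((c a : ↥R) : H) = g * a * g⁻¹ := fun a => rfl
  have hc4 : ∀ a : ↥R, ((c (c (c (c a))) : ↥R) : H) = g ^ 4 * a * (g ^ 4)⁻¹ := by
    intro a
    rw [hc, hc, hc, hc]
    simp only [pow_succ, pow_zero, one_mul, mul_inv_rev, mul_assoc]
  let π : ↥R →* Abelianization ↥R := Abelianization.of
  let φ : Abelianization ↥R →* Abelianization ↥R := Abelianization.map c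
  have hφ : ∀ a, φ (π a) = π (c a) := fun a => rfl
  have hπs : ∀ u : Abelianization ↥R, ∃ a, π a = u := fun u => QuotientGroup.mk_surjective u
  have hker : ∀ a : ↥R, π a = 1 ↔ a ∈ commutator ↥R := fun a => QuotientGroup.eq_one_iff a
  -- generation
  have gen : ∀ P : Subgroup ↥R, (∀ s : ↥R, g ^ 4 * (s : H) * (g ^ 4)⁻¹ = (s : H)⁻¹ → s ∈ P) → P = ⊤ := by
    intro P hP
    have h4 := hgen (P.map R.subtype) (fun s hs hx => ⟨⟨s, hs⟩, hP ⟨s, hs⟩ hx, rfl⟩)
    rw [eq_top_iff]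
    intro a _
    obtain ⟨b, hb, hab⟩ := h4 a.2
    have h5 : b = a := Subtype.ext hab
    rwa [← h5]
  have pr : ∀ u : Abelianization ↥R, u ^ r = 1 := by
    have h4 := gen (((powMonoidHom r).comp π).ker) (fun s hs => by
      have h5 : s ^ r = 1 := Subtype.ext (h3 s s.2 hs)
      rw [MonoidHom.mem_ker, MonoidHom.comp_apply, powMonoidHom_apply, ← map_pow, h5, map_one])
    intro u
    obtain ⟨a, rfl⟩ := hπs u
    have h5 : a ∈ ((powMonoidHom r).comp π).ker := by rw [h4]; trivial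
    exact h5
  have p4 : ∀ u : Abelianization ↥R, φ (φ (φ (φ u))) = u⁻¹ := by
    have h4 := gen (((φ.comp (φ.comp (φ.comp φ)) * MonoidHom.id _).comp π).ker) (fun s hs => by
      have h5 : c (c (c (c s))) = s⁻¹ := Subtype.ext ((hc4 s).trans hs)
      rw [MonoidHom.mem_ker]
      show φ (φ (φ (φ (π s)))) * π s = 1
      rw [hφ, hφ, hφ, hφ, h5, map_inv, inv_mul_cancel])
    intro u
    obtain ⟨a, rfl⟩ := hπs u
    have h5 : a ∈ ((φ.comp (φ.comp (φ.comp φ)) * MonoidHom.id _).comp π).ker := by rw [h4]; trivial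
    have h6 : φ (φ (φ (φ (π a)))) * π a = 1 := h5
    exact eq_inv_of_mul_eq_one_left h6
  have hx2 : g ^ 4 * g ^ 4 = 1 := by rw [← pow_add]; exact hg
  have hxi : (g ^ 4)⁻¹ = g ^ 4 := inv_eq_of_mul_eq_one_left hx2
  -- lifts inverted by x
  have lift : ∀ u : Abelianization ↥R, ∃ b : ↥R, π b = u ∧ g ^ 4 * (b : H) * (g ^ 4)⁻¹ = (b : H)⁻¹ := by
    intro u
    obtain ⟨a, rfl⟩ := hπs u
    obtain ⟨k, hk⟩ : ∃ k, r = 2 * k + 1 := by
      rcases hr with rfl | rfl
      · exact ⟨1, rfl⟩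
      · exact ⟨3, rfl⟩
    refine ⟨(a * (c (c (c (c a))))⁻¹) ^ (k + 1), ?_, ?_⟩
    · have h5 : π (c (c (c (c a)))) = (π a)⁻¹ := by
        rw [← hφ, ← hφ, ← hφ, ← hφ]
        exact p4 _
      have h6 : (π a) ^ r = 1 := pr _
      rw [map_pow, map_mul, map_inv, h5, inv_inv, ← pow_two, ← pow_mul,
        show 2 * (k + 1) = r + 1 by omega, pow_succ, h6, one_mul]
    · have h7 : g ^ 4 * ((a : H) * (g ^ 4 * (a : H) * (g ^ 4)⁻¹)⁻¹) * (g ^ 4)⁻¹ =
          ((a : H) * (g ^ 4 * (a : H) * (g ^ 4)⁻¹)⁻¹)⁻¹ := by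
        rw [hxi]
        obtain ⟨y, hy⟩ : ∃ y, y = g ^ 4 := ⟨_, rfl⟩
        rw [← hy] at hx2 hxi ⊢
        have h8 : (y * (a : H) * y)⁻¹ = y * (a : H)⁻¹ * y := by
          rw [mul_inv_rev, mul_inv_rev, hxi, mul_assoc]
        rw [h8, mul_inv_rev, mul_inv_rev, mul_inv_rev, inv_inv, hxi]
        calc y * ((a : H) * (y * (a : H)⁻¹ * y)) * y = y * (a : H) * y * (a : H)⁻¹ * (y * y) := by group
          _ = y * ((a : H) * y) * (a : H)⁻¹ := by rw [hx2]; group
      rw [SubgroupClass.coe_pow, Subgroup.coe_mul, Subgroup.coe_inv, hc4, ← conj_pow, h7, inv_pow]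
  -- minimality
  have two : ∀ u : Abelianization ↥R, u ^ 2 = 1 → u = 1 := by
    intro u hu
    have h4 := pr u
    obtain ⟨k, hk⟩ : ∃ k, r = 2 * k + 1 := by
      rcases hr with rfl | rfl
      · exact ⟨1, rfl⟩
      · exact ⟨3, rfl⟩
    rwa [hk, pow_succ, pow_mul, hu, one_pow, one_mul] at h4
  have mn : ∀ B : Subgroup ↥R, (∀ b ∈ B, c b ∈ B) → (∃ b ∈ B, π b ≠ 1) → B = ⊤ := by
    intro B hB hb
    by_contra hne'
    obtain ⟨b, hbB, hb1⟩ := hb
    have h4 := hmin (B.map R.subtype) (by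
        rintro _ ⟨b, -, rfl⟩
        exact b.2) (by
        intro h5
        apply hne'
        rw [eq_top_iff]
        intro a _
        have h6 : (a : H) ∈ B.map R.subtype := by rw [h5]; exact a.2
        obtain ⟨b, hb, hab⟩ := h6
        have h7 : b = a := Subtype.ext hab
        rwa [← h7]) (by
        rintro _ ⟨b, hb, rfl⟩
        exact ⟨c b, hB b hb, rfl⟩) b ⟨b, hbB, rfl⟩
    have h5 : c (c (c (c b))) = b := by
      apply Subtype.ext
      rw [hc4, h4, mul_inv_cancel_right]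
    have h6 := p4 (π b)
    rw [hφ, hφ, hφ, hφ, h5] at h6
    refine hb1 (two _ ?_)
    rw [pow_two]
    nth_rewrite 1 [h6]
    exact inv_mul_cancel _
  -- the commutator subgroup is central
  have cen : ∀ k ∈ commutator ↥R, ∀ a : ↥R, k * a = a * k := by
    have h4 : commutator ↥R ≤ Subgroup.center ↥R := by
      rw [_root_.commutator_def, Subgroup.commutator_le]
      intro a _ b _
      rw [Subgroup.mem_center_iff]
      intro w
      apply Subtype.ext
      exact (h1 a a.2 b b.2 w w.2).symm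
    intro k hk a
    exact ((Subgroup.mem_center_iff.1 (h4 hk)) a).symm
  have nt : ∃ u : Abelianization ↥R, u ≠ 1 := by
    by_contra h4
    push Not at h4
    obtain ⟨a, ha, b, hb, hab⟩ := hne
    apply hab
    have h5 := cen ⟨a, ha⟩ ((hker _).1 (h4 _)) ⟨b, hb⟩
    exact congrArg Subtype.val h5
  obtain ⟨u, hu⟩ := nt
  -- the generator
  obtain ⟨v, hv, e, hve⟩ : ∃ v : Abelianization ↥R, v ≠ 1 ∧ ∃ e : ℤ,
      (r = 3 → φ (φ v) = (φ v) ^ e * v) ∧ (r = 7 → φ (φ v) = (φ v) ^ e * v⁻¹) := by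
    rcases hr with rfl | rfl
    · obtain ⟨v, hv, e, he⟩ := ztBg2_aux3 (MonoidHom.toAdditive φ) (fun u => p4 u)
        (fun u => by
          have h4 : (u : Additive (Abelianization ↥R)).toMul ^ 3 = 1 := pr _
          show ((3 : ℕ) : ℤ) • u = 0
          rw [natCast_zsmul]
          exact h4) (u := Additive.ofMul u) hu
      exact ⟨v, hv, e, fun _ => he, fun h => absurd h (by norm_num)⟩
    · obtain ⟨v, hv, e, he⟩ := ztBg2_aux7 (MonoidHom.toAdditive φ) (fun u => p4 u)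
        (fun u => by
          have h4 : (u : Additive (Abelianization ↥R)).toMul ^ 7 = 1 := pr _
          show ((7 : ℕ) : ℤ) • u = 0
          rw [natCast_zsmul]
          exact h4) (u := Additive.ofMul u) hu
      refine ⟨Additive.toMul v, hv, e, fun h => absurd h (by norm_num), fun _ => ?_⟩
      have h5 : φ (φ (Additive.toMul v)) = (φ (Additive.toMul v)) ^ e / Additive.toMul v := he
      rw [h5, div_eq_mul_inv]
  obtain ⟨s, hs, hsx⟩ := lift v
  obtain ⟨t, ht⟩ : ∃ t, t = c s := ⟨_, rfl⟩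
  have hπt : π t = φ v := by rw [ht, ← hs]; rfl
  obtain ⟨w, hw⟩ : ∃ w, w = c t := ⟨_, rfl⟩
  have hπw : π w = φ (φ v) := by rw [hw, ← hπt]; rfl
  obtain ⟨L, hL⟩ : ∃ L, L = closure ({s, t} : Set ↥R) := ⟨_, rfl⟩
  have hsL : s ∈ L := by rw [hL]; exact subset_closure (by simp)
  have htL : t ∈ L := by rw [hL]; exact subset_closure (by simp)
  -- w modulo the centre
  obtain ⟨k, hk, hw3, hw7⟩ : ∃ k ∈ commutator ↥R, (r = 3 → w = t ^ e * s * k) ∧ (r = 7 → w = t ^ e * s⁻¹ * k) := by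
    rcases hr with rfl | rfl
    · refine ⟨(t ^ e * s)⁻¹ * w, ?_, fun _ => by group, fun h => absurd h (by norm_num)⟩
      rw [← hker, map_mul, map_inv, map_mul, map_zpow, hπt, hs, hπw, hve.1 rfl, inv_mul_cancel]
    · refine ⟨(t ^ e * s⁻¹)⁻¹ * w, ?_, fun h => absurd h (by norm_num), fun _ => by group⟩
      rw [← hker, map_mul, map_inv, map_mul, map_zpow, map_inv, hπt, hs, hπw, hve.2 rfl, inv_mul_cancel]
  have hwL : w ∈ L ⊔ commutator ↥R := by
    rcases hr with rfl | rfl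
    · rw [hw3 rfl]
      exact mul_mem (mul_mem (zpow_mem (mem_sup_left htL) _) (mem_sup_left hsL)) (mem_sup_right hk)
    · rw [hw7 rfl]
      exact mul_mem (mul_mem (zpow_mem (mem_sup_left htL) _) (inv_mem (mem_sup_left hsL))) (mem_sup_right hk)
  have hLK : L ⊔ commutator ↥R = ⊤ := by
    refine mn _ ?_ ⟨s, mem_sup_left hsL, by rw [hs]; exact hv⟩
    have h4 : L ⊔ commutator ↥R ≤ (L ⊔ commutator ↥R).comap c := by
      rw [sup_le_iff]
      constructor
      · rw [hL, closure_le, ← hL]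
        rintro a (rfl | rfl)
        · show c a ∈ L ⊔ commutator ↥R
          rw [← ht]
          exact mem_sup_left htL
        · show c a ∈ L ⊔ commutator ↥R
          rw [← hw]
          exact hwL
      · intro a ha
        show c a ∈ L ⊔ commutator ↥R
        refine mem_sup_right ?_
        rw [← hker, ← hφ, (hker a).2 ha, map_one]
    exact fun b hb => h4 hb
  have hLtop : L = ⊤ := by
    have h4 : commutator ↥R ≤ L := by
      rw [_root_.commutator_def, Subgroup.commutator_le]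
      intro a _ b _
      have ha : a ∈ L ⊔ commutator ↥R := by rw [hLK]; trivial
      have hb : b ∈ L ⊔ commutator ↥R := by rw [hLK]; trivial
      obtain ⟨a1, ha1, a2, ha2, rfl⟩ := (mem_sup_of_normal_right).1 ha
      obtain ⟨b1, hb1, b2, hb2, rfl⟩ := (mem_sup_of_normal_right).1 hb
      rw [commutatorElement_def]
      have h5 : a1 * a2 * (b1 * b2) * (a1 * a2)⁻¹ * (b1 * b2)⁻¹ = a1 * b1 * a1⁻¹ * b1⁻¹ := by
        rw [mul_inv_rev, mul_inv_rev]
        have c1 := cen a2 ha2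
        have c2 := cen b2 hb2
        calc a1 * a2 * (b1 * b2) * (a2⁻¹ * a1⁻¹) * (b2⁻¹ * b1⁻¹)
            = a1 * (a2 * (b1 * b2)) * a2⁻¹ * a1⁻¹ * b2⁻¹ * b1⁻¹ := by group
          _ = a1 * b1 * (b2 * a1⁻¹) * b2⁻¹ * b1⁻¹ := by rw [c1 (b1 * b2)]; group
          _ = a1 * b1 * a1⁻¹ * b1⁻¹ := by rw [c2 a1⁻¹]; group
      rw [h5]
      exact mul_mem (mul_mem (mul_mem ha1 hb1) (inv_mem ha1)) (inv_mem hb1)
    rw [← hLK]
    exact (sup_eq_left.2 h4).symm
  have hζ : ∀ a b : ↥R, a * b * a⁻¹ * b⁻¹ ∈ commutator ↥R := fun a b => by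
    rw [← hker]
    simp only [map_mul, map_inv]
    rw [mul_comm (π a) (π b), mul_inv_cancel_right, mul_inv_cancel]
  have ht' : (t : H) = g * (s : H) * g⁻¹ := by rw [ht]; rfl
  have hw' : (w : H) = g * (t : H) * g⁻¹ := by rw [hw]; rfl
  refine ⟨s, s.2, hsx, ?_, ?_, ?_, ?_⟩
  · rw [← ht']
    intro a ha
    have h4 : (⟨a, ha⟩ : ↥R) ∈ closure ({s, t} : Set ↥R) := by rw [← hL, hLtop]; trivial
    have h5 : R.subtype ⟨a, ha⟩ ∈ (closure ({s, t} : Set ↥R)).map R.subtype := ⟨_, h4, rfl⟩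
    rw [MonoidHom.map_closure, Set.image_pair] at h5
    exact h5
  · rw [← ht']
    intro h4
    have h5 : s * t * s⁻¹ * t⁻¹ = 1 := Subtype.ext h4
    have h6 : s * t = t * s := by
      have h7 : s * t * s⁻¹ = t := mul_inv_eq_one.1 h5
      rw [mul_inv_eq_iff_eq_mul] at h7
      exact h7
    have h8 : (⊤ : Subgroup ↥R) ≤ center ↥R := by
      have h9 : L ≤ centralizer {s, t} := by
        rw [hL, closure_le]
        rintro a (rfl | rfl)
        · rw [SetLike.mem_coe, mem_centralizer_iff]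
          rintro b (rfl | rfl)
          · rfl
          · exact h6.symm
        · rw [SetLike.mem_coe, mem_centralizer_iff]
          rintro b (rfl | rfl)
          · exact h6
          · rfl
      rw [← hLtop, hL, closure_le]
      rintro a ha
      rw [SetLike.mem_coe, mem_center_iff]
      intro b
      have h10 : b ∈ L := by rw [hLtop]; trivial
      have h11 := (mem_centralizer_iff.1 (h9 h10)) a ha
      exact h11.symm
    obtain ⟨a, ha, b, hb, hab⟩ := hne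
    apply hab
    have h9 : (⟨a, ha⟩ : ↥R) ∈ center ↥R := h8 trivial
    have h10 := (mem_center_iff.1 h9) ⟨b, hb⟩
    exact (congrArg Subtype.val h10).symm
  · intro hr3
    rw [← ht']
    have h4 : t * w * t⁻¹ * w⁻¹ = (s * t * s⁻¹ * t⁻¹)⁻¹ := by
      rw [hw3 hr3]
      have c1 := cen k hk
      have c2 := cen _ (hζ t s)
      calc t * (t ^ e * s * k) * t⁻¹ * (t ^ e * s * k)⁻¹ = t * t ^ e * s * (k * t⁻¹) * k⁻¹ * s⁻¹ * (t ^ e)⁻¹ := by
            group
        _ = t ^ e * (t * s * t⁻¹ * s⁻¹ * (t ^ e)⁻¹) := by rw [c1 t⁻¹]; group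
        _ = t * s * t⁻¹ * s⁻¹ := by rw [c2 (t ^ e)⁻¹]; group
        _ = (s * t * s⁻¹ * t⁻¹)⁻¹ := by group
    have h5 := congrArg Subtype.val h4
    simp only [Subgroup.coe_mul, Subgroup.coe_inv] at h5
    have h6 : g * ((s : H) * (t : H) * (s : H)⁻¹ * (t : H)⁻¹) * g⁻¹ =
        (t : H) * (w : H) * (t : H)⁻¹ * (w : H)⁻¹ := by
      rw [hw', ht']
      group
    rw [h6, h5]
  · intro hr7
    rw [← ht']
    have h4 : t * w * t⁻¹ * w⁻¹ = s * t * s⁻¹ * t⁻¹ := by
      rw [hw7 hr7]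
      have c1 := cen k hk
      have c2 := cen _ (hζ t s⁻¹)
      have c3 := cen _ (hζ s t)
      calc t * (t ^ e * s⁻¹ * k) * t⁻¹ * (t ^ e * s⁻¹ * k)⁻¹ =
            t * t ^ e * s⁻¹ * (k * t⁻¹) * k⁻¹ * s⁻¹⁻¹ * (t ^ e)⁻¹ := by group
        _ = t ^ e * (t * s⁻¹ * t⁻¹ * s⁻¹⁻¹ * (t ^ e)⁻¹) := by rw [c1 t⁻¹]; group
        _ = t * s⁻¹ * t⁻¹ * s⁻¹⁻¹ := by rw [c2 (t ^ e)⁻¹]; group
        _ = s⁻¹ * (s * t * s⁻¹ * t⁻¹ * s) := by group
        _ = s * t * s⁻¹ * t⁻¹ := by rw [c3 s]; group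
    have h5 := congrArg Subtype.val h4
    simp only [Subgroup.coe_mul, Subgroup.coe_inv] at h5
    have h6 : g * ((s : H) * (t : H) * (s : H)⁻¹ * (t : H)⁻¹) * g⁻¹ =
        (t : H) * (w : H) * (t : H)⁻¹ * (w : H)⁻¹ := by
      rw [hw', ht']
      group
    rw [h6, h5]

end Pool.Agent.Lib.MP_544bd1_al
end
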