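import Mathlib
import Pool.Agent.Lib.MP_544bd1_al.GenBX
import Pool.Agent.Lib.MP_544bd1_al.ZtDefs3
import Pool.Agent.Lib.MP_544bd1_al.TwS3
import Pool.Agent.Lib.MP_544bd1_al.TwA
import Pool.Agent.Lib.MP_544bd1_al.TwU1
import Pool.Agent.Lib.MP_544bd1_al.ZtNorm
import Pool.Agent.Lib.MP_544bd1_al.TwR4
import Pool.Agent.Lib.MP_544bd1_al.ZtFP
import Pool.Agent.Lib.MP_544bd1_al.ZtBg2
import Pool.Agent.Lib.MP_544bd1_al.ZsC0

section

/-!
Theorem Z3, Case B: the `r`-group `R` (a group of operators), part 3.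
-/

namespace Pool.Agent.Lib.MP_544bd1_al

open Subgroup

private theorem ztBg3_nat {H : Type} [Group H] {r : ℕ} (hr : 0 < r) {x : H} (h : x ^ r = 1) (i : ℤ) :
    ∃ n : ℕ, x ^ i = x ^ n := by
  refine ⟨(i % (r : ℤ)).toNat, ?_⟩
  have h1 : 0 ≤ i % (r : ℤ) := Int.emod_nonneg _ (by exact_mod_cast hr.ne')
  rw [← zpow_natCast, Int.toNat_of_nonneg h1]
  exact zpow_eq_zpow_emod' i h

/-- **Extraspecial groups of order `r ^ 3`.** `ζ = s * t * s⁻¹ * t⁻¹` is central in `R = ⟨s, t⟩`.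

Proof. `s * t * s⁻¹ = ζ * t`, so `s * t ^ j * s⁻¹ = ζ ^ j * t ^ j` and (`j := r`) `ζ ^ r = 1`. The set of
the products `s ^ i * t ^ j * ζ ^ k` contains `1` and is closed under multiplication by `s`, `t`, `s⁻¹`, `t⁻¹`
from the left (`t * s ^ i = ζ ^ (-i) * s ^ i * t`, written with exponents in `ℕ` by means of
`ζ ^ r = s ^ r = t ^ r = 1`), so it is `⊇ closure {s, t} ⊇ R` (`Subgroup.closure_induction_left` or
consider the subgroup of these products): the second statement. If `c = s ^ i * t ^ j * ζ ^ k` is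
central: `c * s = s * c` gives `t ^ j * s = s * t ^ j`, `ζ ^ j = 1`, so `r ∣ j` (`ζ ≠ 1`, `r` prime),
`t ^ j = 1`; `c * t = t * c` gives `s ^ i * t = t * s ^ i`, `ζ ^ i = 1`, `s ^ i = 1`. -/
theorem zt_Rg3 {H : Type} [Group H] {r : ℕ} (hr : r.Prime) {R : Subgroup H} {s t : H}
    (hcl : ∀ a ∈ R, ∀ b ∈ R, ∀ c ∈ R, a * b * a⁻¹ * b⁻¹ * c = c * (a * b * a⁻¹ * b⁻¹))
    (hs : s ∈ R) (ht : t ∈ R) (hsr : s ^ r = 1) (htr : t ^ r = 1) (hR : R ≤ closure {s, t})
    (hne : s * t * s⁻¹ * t⁻¹ ≠ 1) :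
    (s * t * s⁻¹ * t⁻¹) ^ r = 1 ∧
      (∀ c ∈ R, ∃ i j k : ℕ, c = s ^ i * t ^ j * (s * t * s⁻¹ * t⁻¹) ^ k) ∧
      ∀ c ∈ R, (∀ y ∈ R, c * y = y * c) → ∃ k : ℕ, c = (s * t * s⁻¹ * t⁻¹) ^ k := by
  obtain ⟨ζ, hζ⟩ : ∃ ζ : H, ζ = s * t * s⁻¹ * t⁻¹ := ⟨_, rfl⟩
  rw [← hζ] at hne ⊢
  have hζs : ζ * s = s * ζ := by rw [hζ]; exact hcl s hs t ht s hs
  have hζt : ζ * t = t * ζ := by rw [hζ]; exact hcl s hs t ht t ht
  have hst : s * t * s⁻¹ = ζ * t := by rw [hζ]; group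
  have cs : Commute ζ s := hζs
  have ct : Commute ζ t := hζt
  -- `t ^ j * s * t ^ (-j) = ζ ^ (-j) * s`
  have h1 : ∀ j : ℤ, s * t ^ j * s⁻¹ = ζ ^ j * t ^ j := by
    intro j
    rw [← conj_zpow, hst, ct.mul_zpow]
  have h2 : ∀ j : ℤ, t ^ j * s * (t ^ j)⁻¹ = ζ ^ (-j) * s := by
    intro j
    have h3 := h1 j
    have h4 : s * t ^ j = ζ ^ j * t ^ j * s := by
      rw [← h3]; group
    rw [mul_inv_eq_iff_eq_mul]
    have h5 : ζ ^ (-j) * s * t ^ j = ζ ^ (-j) * (s * t ^ j) := mul_assoc _ _ _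
    rw [h5, h4, zpow_neg, ← mul_assoc, ← mul_assoc, inv_mul_cancel, one_mul]
  have hts : ∀ i j : ℤ, t ^ j * s ^ i = s ^ i * t ^ j * ζ ^ (-(i * j)) := by
    intro i j
    have h3 : (t ^ j * s * (t ^ j)⁻¹) ^ i = t ^ j * s ^ i * (t ^ j)⁻¹ := conj_zpow
    have c1 : Commute (ζ ^ (-j)) s := cs.zpow_left _
    rw [h2 j, c1.mul_zpow, ← zpow_mul] at h3
    have h4 : t ^ j * s ^ i = ζ ^ (-j * i) * s ^ i * t ^ j := by
      rw [h3]; group
    have c2 : Commute (ζ ^ (-(i * j))) (s ^ i * t ^ j) :=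
      ((cs.zpow_right i).zpow_left _).mul_right ((ct.zpow_right j).zpow_left _)
    rw [h4, mul_assoc, ← c2.eq]
    congr 2
    ring
  have hζr : ζ ^ r = 1 := by
    have h3 := h1 (r : ℤ)
    rw [zpow_natCast, zpow_natCast, htr, mul_one, mul_one, mul_inv_cancel] at h3
    exact h3.symm
  have cζs : ∀ k i : ℤ, ζ ^ k * s ^ i = s ^ i * ζ ^ k := fun k i => ((cs.zpow_right i).zpow_left k).eq
  have cζt : ∀ k j : ℤ, ζ ^ k * t ^ j = t ^ j * ζ ^ k := fun k j => ((ct.zpow_right j).zpow_left k).eq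
  let K : Subgroup H :=
    { carrier := {c | ∃ i j k : ℤ, c = s ^ i * t ^ j * ζ ^ k}
      one_mem' := ⟨0, 0, 0, by simp⟩
      mul_mem' := by
        rintro _ _ ⟨i, j, k, rfl⟩ ⟨i', j', k', rfl⟩
        refine ⟨i + i', j + j', -(i' * j) + k + k', ?_⟩
        calc s ^ i * t ^ j * ζ ^ k * (s ^ i' * t ^ j' * ζ ^ k') =
            s ^ i * t ^ j * (ζ ^ k * s ^ i') * t ^ j' * ζ ^ k' := by simp only [mul_assoc]
          _ = s ^ i * (t ^ j * s ^ i') * (ζ ^ k * t ^ j') * ζ ^ k' := by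
              rw [cζs]; simp only [mul_assoc]
          _ = s ^ i * (s ^ i' * t ^ j * ζ ^ (-(i' * j))) * (t ^ j' * ζ ^ k) * ζ ^ k' := by
              rw [hts, cζt]
          _ = s ^ i * s ^ i' * (t ^ j * (ζ ^ (-(i' * j)) * t ^ j')) * (ζ ^ k * ζ ^ k') := by
              simp only [mul_assoc]
          _ = (s ^ i * s ^ i') * (t ^ j * t ^ j') * (ζ ^ (-(i' * j)) * ζ ^ k * ζ ^ k') := by
              rw [cζt]; simp only [mul_assoc]
          _ = _ := by rw [← zpow_add, ← zpow_add, ← zpow_add, ← zpow_add]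
      inv_mem' := by
        rintro _ ⟨i, j, k, rfl⟩
        refine ⟨-i, -j, -(-i * -j) + -k, ?_⟩
        calc (s ^ i * t ^ j * ζ ^ k)⁻¹ = ζ ^ (-k) * (t ^ (-j) * s ^ (-i)) := by
              rw [mul_inv_rev, mul_inv_rev, zpow_neg, zpow_neg, zpow_neg]
          _ = (ζ ^ (-k) * s ^ (-i)) * t ^ (-j) * ζ ^ (-(-i * -j)) := by
              rw [hts]; simp only [mul_assoc]
          _ = s ^ (-i) * (ζ ^ (-k) * t ^ (-j)) * ζ ^ (-(-i * -j)) := by
              rw [cζs]; simp only [mul_assoc]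
          _ = s ^ (-i) * t ^ (-j) * (ζ ^ (-k) * ζ ^ (-(-i * -j))) := by
              rw [cζt]; simp only [mul_assoc]
          _ = _ := by rw [← zpow_add, add_comm] }
  have hRK : R ≤ K := by
    refine hR.trans ((closure_le _).2 ?_)
    rintro y (rfl | hy)
    · exact ⟨1, 0, 0, by simp⟩
    · rw [Set.mem_singleton_iff] at hy
      exact ⟨0, 1, 0, by simp [hy]⟩
  refine ⟨hζr, fun c hc => ?_, fun c hc hcen => ?_⟩
  · obtain ⟨i, j, k, rfl⟩ := hRK hc
    obtain ⟨i', hi⟩ := ztBg3_nat hr.pos hsr i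
    obtain ⟨j', hj⟩ := ztBg3_nat hr.pos htr j
    obtain ⟨k', hk⟩ := ztBg3_nat hr.pos hζr k
    exact ⟨i', j', k', by rw [hi, hj, hk]⟩
  · obtain ⟨i, j, k, rfl⟩ := hRK hc
    have hord : orderOf ζ = r := by
      have : Fact r.Prime := ⟨hr⟩
      exact orderOf_eq_prime hζr hne
    have hdvd : ∀ l : ℤ, ζ ^ l = 1 → (r : ℤ) ∣ l := by
      intro l hl
      rw [← hord]
      exact orderOf_dvd_iff_zpow_eq_one.2 hl
    have e1 := hcen s hs
    have e2 : t ^ j * s = s * t ^ j := by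
      have e3 : s ^ i * t ^ j * ζ ^ k * s = s ^ i * (t ^ j * s) * ζ ^ k := by
        have := cζs k 1
        rw [zpow_one] at this
        calc s ^ i * t ^ j * ζ ^ k * s = s ^ i * t ^ j * (ζ ^ k * s) := by simp only [mul_assoc]
          _ = _ := by rw [this]; simp only [mul_assoc]
      have e4 : s * (s ^ i * t ^ j * ζ ^ k) = s ^ i * (s * t ^ j) * ζ ^ k := by
        have : s * s ^ i = s ^ i * s := (Commute.refl s).zpow_right i
        calc s * (s ^ i * t ^ j * ζ ^ k) = (s * s ^ i) * t ^ j * ζ ^ k := by simp only [mul_assoc]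
          _ = _ := by rw [this]; simp only [mul_assoc]
      rw [e3, e4] at e1
      exact mul_left_cancel (mul_right_cancel e1)
    have e5 : ζ ^ (-j) = 1 := by
      have := hts 1 j
      rw [zpow_one, one_mul, e2] at this
      exact left_eq_mul.1 this
    have e6 : t ^ j = 1 := by
      obtain ⟨l, hl⟩ := hdvd _ e5
      have : j = (r : ℤ) * (-l) := by linarith
      rw [this, zpow_mul, zpow_natCast, htr, one_zpow]
    have f1 := hcen t ht
    rw [e6, mul_one] at f1 ⊢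
    have f2 : t * s ^ i = s ^ i * t := by
      have f3 : s ^ i * ζ ^ k * t = s ^ i * t * ζ ^ k := by
        have := cζt k 1
        rw [zpow_one] at this
        rw [mul_assoc, this, ← mul_assoc]
      rw [f3, ← mul_assoc] at f1
      exact (mul_right_cancel f1).symm
    have f5 : ζ ^ (-i) = 1 := by
      have := hts i 1
      rw [zpow_one, mul_one, f2] at this
      exact left_eq_mul.1 this
    have f6 : s ^ i = 1 := by
      obtain ⟨l, hl⟩ := hdvd _ f5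
      have : i = (r : ℤ) * (-l) := by linarith
      rw [this, zpow_mul, zpow_natCast, hsr, one_zpow]
    obtain ⟨k', hk⟩ := ztBg3_nat hr.pos hζr k
    exact ⟨k', by rw [f6, one_mul, hk]⟩

end Pool.Agent.Lib.MP_544bd1_al
end

section

/-!
Theorem Z3, Case B: `g ^ 4` is a sum of elements of `Γ`.
-/

namespace Pool.Agent.Lib.MP_544bd1_al

open Subgroup

/-- **The involution preserves the submodules.**

Proof. `ev_X0` (EvL5.lean) for `E = Module.End (ZMod 2) V`, `Γ`, `X = g ^ 4` (`hfix` for operators: apply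
the hypothesis to the vectors `A v`): `ι, γ, X₀`. `μ = X * X₀` commutes with the elements of `Γ` and
with `g` (last part for `u := g`, and `g * X = X * g`), and with `X`; `μ * μ = X * (X₀ * X) * X₀ = X * X * X₀
* X₀ = 1` (last part for `u := X`). Let `W = {v | μ v = v}`, invariant under `Γ` and `g`. `W = ⊤`:
otherwise `W = ⊥` by `irr`; for every `v` `v + μ v ∈ W` (`μ (v + μ v) = μ v + v`), so `μ v = - v = v`
(characteristic 2) and `v ∈ W = ⊥`: `V = 0` and `⊥ = ⊤`. So `μ = 1`, `X = X * X₀ * X₀ = X₀ = ∑ γ i` and `X`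
preserves the submodules which are invariant under `Γ`. -/
theorem zt_X0 {V : Type} [AddCommGroup V] [Module (ZMod 2) V] [Finite V]
    (Γ : Subgroup (Module.End (ZMod 2) V)ˣ) {N : ℕ} (hN : Odd N) (hΓ : ∀ a ∈ Γ, a ^ N = 1)
    (g : (Module.End (ZMod 2) V)ˣ) (hg : g ^ 8 = 1) (hgΓ : ∀ a ∈ Γ, g * a * g⁻¹ ∈ Γ)
    (hZ : ∀ a ∈ Γ, (∀ y ∈ Γ, a * y = y * a) → g ^ 4 * a = a * g ^ 4)
    (hinv : ∀ a ∈ Γ, ∀ y ∈ Γ, (g ^ 4 * a * (g ^ 4)⁻¹ * a) * y = y * (g ^ 4 * a * (g ^ 4)⁻¹ * a))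
    (hcl : ∀ x ∈ Γ, ∀ y ∈ Γ, ∀ w ∈ Γ, (x * y * x⁻¹ * y⁻¹) * w = w * (x * y * x⁻¹ * y⁻¹))
    (hfix : ∀ ζ ∈ Γ, (∀ y ∈ Γ, ζ * y = y * ζ) → ζ ≠ 1 →
      ∀ v : V, (ζ : Module.End (ZMod 2) V) v = v → v = 0)
    (irr : ∀ W : Submodule (ZMod 2) V,
      (∀ a ∈ Γ, ∀ w ∈ W, (a : Module.End (ZMod 2) V) w ∈ W) →
      (∀ w ∈ W, (g : Module.End (ZMod 2) V) w ∈ W) → W = ⊥ ∨ W = ⊤) :
    ∀ W : Submodule (ZMod 2) V, (∀ a ∈ Γ, ∀ w ∈ W, (a : Module.End (ZMod 2) V) w ∈ W) →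
      ∀ w ∈ W, ((g : Module.End (ZMod 2) V) ^ 4) w ∈ W := by
  classical
  have hfE : Finite (Module.End (ZMod 2) V) := DFunLike.finite _
  have hfΓ : Finite Γ := inferInstance
  obtain ⟨X, hX⟩ : ∃ X : (Module.End (ZMod 2) V)ˣ, X = g ^ 4 := ⟨_, rfl⟩
  rw [← hX] at hZ hinv
  have hX2 : X ^ 2 = 1 := by rw [hX, ← pow_mul]; exact hg
  have hXX : X * X = 1 := by rw [← pow_two]; exact hX2
  have conj1 : ∀ k : ℕ, ∀ a ∈ Γ, g ^ k * a * (g ^ k)⁻¹ ∈ Γ := by
    intro k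
    induction k with
    | zero => intro a ha; simpa using ha
    | succ k ih =>
      intro a ha
      have h1 : g ^ (k + 1) * a * (g ^ (k + 1))⁻¹ = g ^ k * (g * a * g⁻¹) * (g ^ k)⁻¹ := by
        rw [pow_succ]
        group
      rw [h1]
      exact ih _ (hgΓ a ha)
  have hXΓ : ∀ a ∈ Γ, X * a * X⁻¹ ∈ Γ := fun a ha => by rw [hX]; exact conj1 4 a ha
  have h11 : (1 : Module.End (ZMod 2) V) + 1 = 0 := by
    refine LinearMap.ext fun v => ?_
    show v + v = 0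
    rw [← two_smul (ZMod 2) v, show (2 : ZMod 2) = 0 from rfl, zero_smul]
  have hfix' : ∀ ζ ∈ Γ, (∀ y ∈ Γ, ζ * y = y * ζ) → ζ ≠ 1 →
      ∀ A : Module.End (ZMod 2) V, (ζ : Module.End (ZMod 2) V) * A = A → A = 0 := by
    intro ζ hζ hc h1 A hA
    refine LinearMap.ext fun v => ?_
    exact hfix ζ hζ hc h1 (A v) (congrArg (fun f : Module.End (ZMod 2) V => f v) hA)
  obtain ⟨ι, hι, γ, X₀, hγ, hs1, hs2, hX0, hc1, hc2⟩ := ev_X0 h11 Γ hN hΓ X hX2 hXΓ hZ hinv hcl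
    hfix'
  have hXE : (X : Module.End (ZMod 2) V) * X = 1 := by
    rw [← Units.val_mul, hXX, Units.val_one]
  have hcX : (X : Module.End (ZMod 2) V) * X₀ = X₀ * X := hc2 X rfl hXΓ
  have hXg : g * X = X * g := by
    rw [hX, ← pow_succ', ← pow_succ]
  have hcg : (g : Module.End (ZMod 2) V) * X₀ = X₀ * g := hc2 g hXg hgΓ
  have hcgX : (g : Module.End (ZMod 2) V) * (X : Module.End (ZMod 2) V) = X * g :=
    congrArg Units.val hXg
  obtain ⟨μ, hμ⟩ : ∃ μ : Module.End (ZMod 2) V, μ = (X : Module.End (ZMod 2) V) * X₀ := ⟨_, rfl⟩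
  have hμμ : μ * μ = 1 := by
    rw [hμ]
    calc (X : Module.End (ZMod 2) V) * X₀ * (X * X₀) = X * (X₀ * X) * X₀ := by
          simp only [mul_assoc]
      _ = X * (X * X₀) * X₀ := by rw [hcX]
      _ = (X * X) * (X₀ * X₀) := by simp only [mul_assoc]
      _ = 1 := by rw [hXE, hX0, one_mul]
  have hμa : ∀ a ∈ Γ, μ * (a : Module.End (ZMod 2) V) = a * μ := fun a ha => by
    rw [hμ]
    exact hc1 a ha
  have hμg : μ * (g : Module.End (ZMod 2) V) = g * μ := by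
    rw [hμ]
    calc (X : Module.End (ZMod 2) V) * X₀ * g = X * (X₀ * g) := by rw [mul_assoc]
      _ = (X * g) * X₀ := by rw [← hcg, mul_assoc]
      _ = g * (X * X₀) := by rw [← hcgX, mul_assoc]
  have hμ1 : μ = 1 := by
    have hW : ∀ w, w ∈ LinearMap.ker (μ - 1) ↔ μ w = w := by
      intro w
      rw [LinearMap.mem_ker, LinearMap.sub_apply, Module.End.one_apply, sub_eq_zero]
    rcases irr (LinearMap.ker (μ - 1)) (fun a ha w hw => by
        rw [hW] at hw ⊢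
        have := congrArg (fun f : Module.End (ZMod 2) V => f w) (hμa a ha)
        simp only [Module.End.mul_apply] at this
        rw [this, hw]) (fun w hw => by
        rw [hW] at hw ⊢
        have := congrArg (fun f : Module.End (ZMod 2) V => f w) hμg
        simp only [Module.End.mul_apply] at this
        rw [this, hw]) with h | h
    · have hsq : (μ - 1) * (μ - 1) = 0 := by
        have e1 : (μ - 1) * (μ - 1) = μ * μ - μ - μ + 1 := by noncomm_ring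
        have e2 : μ + μ = 0 := by
          have := congrArg (fun z => z * μ) h11
          simpa [add_mul] using this
        rw [e1, hμμ, sub_sub, e2, sub_zero, h11]
      have h0 : ∀ v : V, v = 0 := by
        intro v
        have h1 : (μ - 1) v ∈ LinearMap.ker (μ - 1) := by
          rw [LinearMap.mem_ker]
          exact congrArg (fun f : Module.End (ZMod 2) V => f v) hsq
        rw [h, Submodule.mem_bot] at h1
        have h2 : v ∈ LinearMap.ker (μ - 1) := by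
          rw [LinearMap.mem_ker]
          exact h1
        rw [h, Submodule.mem_bot] at h2
        exact h2
      refine LinearMap.ext fun v => ?_
      rw [h0 v, map_zero, map_zero]
    · refine LinearMap.ext fun v => ?_
      have : v ∈ LinearMap.ker (μ - 1) := by rw [h]; trivial
      rw [hW] at this
      exact this
  have hX0X : X₀ = (X : Module.End (ZMod 2) V) := by
    calc X₀ = (X * X) * X₀ := by rw [hXE, one_mul]
      _ = X * μ := by rw [hμ, mul_assoc]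
      _ = X := by rw [hμ1, mul_one]
  intro W hWΓ w hw
  have e4 : ((g : Module.End (ZMod 2) V) ^ 4) = ∑ i, (γ i : Module.End (ZMod 2) V) := by
    rw [hs1, hX0X, hX, Units.val_pow_eq_pow_val]
  rw [e4, LinearMap.sum_apply]
  exact Submodule.sum_mem W fun i _ => hWΓ (γ i) (hγ i) w hw

end Pool.Agent.Lib.MP_544bd1_al
end

section

/-!
Theorem Z3, Case B: first properties.
-/

namespace Pool.Agent.Lib.MP_544bd1_al

open Subgroup

private theorem ztBn_pow {F : Type} [Group F] {r : ℕ} {R : Subgroup F} (hR : IsPGroup r R) {s : F}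
    (hs : s ∈ R) : ∃ k : ℕ, s ^ (r ^ k) = 1 := by
  obtain ⟨k, hk⟩ := hR ⟨s, hs⟩
  exact ⟨k, by simpa using congrArg Subtype.val hk⟩

private theorem ztBn_conj4 {F : Type} [Group F] {R : Subgroup F} {g : F}
    (h : ∀ y ∈ R, g * y * g⁻¹ ∈ R) {y : F} (hy : y ∈ R) : g ^ 4 * y * (g ^ 4)⁻¹ ∈ R := by
  have h1 := h _ (h _ (h _ (h y hy)))
  have h2 : g ^ 4 * y * (g ^ 4)⁻¹ = g * (g * (g * (g * y * g⁻¹) * g⁻¹) * g⁻¹) * g⁻¹ := by
    simp only [pow_succ, pow_zero, one_mul, mul_inv_rev, mul_assoc]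
  rw [h2]
  exact h1

/-- Proof. `(q * g) ^ 8 ∈ Q` (modulo `Q` it is `g ^ 8 = 1`), so `((q * g) ^ 8) ^ 8 = 1` by `D.core.hQ`, and
`tw_PP` (as in `ev_data`, EvN.lean). -/
theorem zb_pow8 {m : ℕ} (hm : Odd m) {F : Type} [Group F] [Finite F]
    (hexp : ∀ x : F, x ^ (m * 2 ^ 3) = 1) {r : ℕ} {Q R : Subgroup F} [Q.Normal] {g : F}
    (D : ZMinB r Q R g) {q : F} (hq : q ∈ Q) : (q * g) ^ 8 = 1 := by
  have hcop : Nat.Coprime m (2 ^ 3) := Nat.Coprime.pow_right 3 (Nat.coprime_two_right.2 hm)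
  have hg : g ^ (2 ^ 3) = 1 := D.hg
  have h1 : (q * g) ^ (2 ^ 3) = 1 := by
    apply tw_PP hcop hexp
    apply D.core.hQ
    rw [← QuotientGroup.eq_one_iff, QuotientGroup.mk_pow, QuotientGroup.mk_mul,
      (QuotientGroup.eq_one_iff q).2 hq, one_mul, ← QuotientGroup.mk_pow, hg, QuotientGroup.mk_one]
  exact h1

/-- Proof. `tw_norm_zero` (TwH0.lean) with `zb_pow8`; `φ` is surjective (as in `ev_data`, EvN.lean). -/
theorem zb_norm {m : ℕ} (hm : Odd m) {F : Type} [Group F] [Finite F]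
    (hexp : ∀ x : F, x ^ (m * 2 ^ 3) = 1) {r : ℕ} {Q R : Subgroup F} [Q.Normal] {g : F}
    (D : ZMinB r Q R g) {V : Type} [AddCommGroup V] [Module (ZMod 2) V]
    {τ : F →* Module.End (ZMod 2) V} {φ : Q → V} (M : ZMd Q R τ φ) :
    ∑ i ∈ Finset.range 8, (τ g) ^ i = 0 := by
  apply LinearMap.ext
  intro v
  obtain ⟨y, rfl⟩ := M.surj v
  rw [LinearMap.zero_apply]
  exact tw_norm_zero Q τ φ M.add M.eqv D.hg y (zb_pow8 hm hexp D y.2)

/-- Proof. Otherwise every `s ∈ R` inverted by `g ^ 4` satisfies `τ s = τ (g ^ 4 * s * (g ^ 4)⁻¹) = τ s⁻¹`,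
`τ (s ^ 2) = 1` and `τ s = 1` (`s` is a power of `s ^ 2`), so by `D.gen` (for `S` the kernel of `τ`,
`{c | τ c = 1}`) `τ` is trivial on `R`, and `M.faith` contradicts `D.core.ne`. -/
theorem zb_x1 {F : Type} [Group F] {r : ℕ} (hr : r.Prime) (hr2 : r ≠ 2) {Q R : Subgroup F}
    [Q.Normal] {g : F} (D : ZMinB r Q R g) {V : Type} [AddCommGroup V] [Module (ZMod 2) V]
    {τ : F →* Module.End (ZMod 2) V} {φ : Q → V} (M : ZMd Q R τ φ) : τ (g ^ 4) ≠ 1 := by
  intro h1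
  have h1' : τ (g ^ 4)⁻¹ = 1 := by
    have h2 : τ (g ^ 4) * τ (g ^ 4)⁻¹ = 1 := by rw [← map_mul, mul_inv_cancel, map_one]
    rwa [h1, one_mul] at h2
  have hR : R ≤ τ.ker := by
    refine D.gen _ fun s hs hinv => ?_
    rw [MonoidHom.mem_ker]
    have h2 : τ s = τ s⁻¹ := by
      rw [← hinv, map_mul, map_mul, h1, h1', one_mul, mul_one]
    have h3 : (τ s) ^ 2 = 1 := by
      rw [pow_two]
      nth_rewrite 1 [h2]
      rw [← map_mul, inv_mul_cancel, map_one]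
    obtain ⟨k, hk⟩ := ztBn_pow D.core.hR hs
    obtain ⟨j, hj⟩ := ((hr.odd_of_ne_two hr2).pow : Odd (r ^ k))
    have h4 : (τ s) ^ (r ^ k) = 1 := by rw [← map_pow, hk, map_one]
    rw [hj, pow_succ, pow_mul, h3, one_pow, one_mul] at h4
    exact h4
  obtain ⟨c, hc, q, hq, hne⟩ := D.core.ne
  exact hne (M.faith c hc (MonoidHom.mem_ker.1 (hR hc)) q hq)

/-- A preimage of an element inverted by `g ^ 4` (`f` a homomorphism). Proof. Let `x = g ^ 4`,
`s' = s₁ * (x * s₁⁻¹ * x⁻¹)`, inverted by `x` (`x ^ 2 = 1`); `f s' = f s₁ ^ 2`. `s' ∈ R` (`D.core.hxR`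
four times) has order dividing `r ^ k`, also `s₁` (take the larger `k`); `s = s' ^ j` with
`2 * j ≡ 1 mod r ^ k` (`j = (r ^ k + 1) / 2`). -/
theorem zb_lift {F : Type} [Group F] {r : ℕ} (hr : r.Prime) (hr2 : r ≠ 2) {Q R : Subgroup F}
    {g : F} (D : ZMinB r Q R g) {H : Type} [Group H] (f : F →* H) {s₁ : F} (hs₁ : s₁ ∈ R)
    (h : f (g ^ 4 * s₁ * (g ^ 4)⁻¹) = f s₁⁻¹) :
    ∃ s ∈ R, f s = f s₁ ∧ g ^ 4 * s * (g ^ 4)⁻¹ = s⁻¹ := by
  obtain ⟨x, hx⟩ : ∃ x : F, x = g ^ 4 := ⟨_, rfl⟩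
  have hxx : x * x = 1 := by rw [hx, ← pow_add]; exact D.hg
  have hxi : x⁻¹ = x := inv_eq_of_mul_eq_one_right hxx
  have hxR : ∀ y ∈ R, x * y * x⁻¹ ∈ R := fun y hy => by
    rw [hx]
    exact ztBn_conj4 D.core.hxR hy
  rw [← hx] at h ⊢
  obtain ⟨s', hs'⟩ : ∃ s' : F, s' = s₁ * (x * s₁⁻¹ * x⁻¹) := ⟨_, rfl⟩
  have hs'R : s' ∈ R := by
    rw [hs']
    exact R.mul_mem hs₁ (hxR _ (R.inv_mem hs₁))
  have hinv : x * s' * x⁻¹ = s'⁻¹ := by
    rw [hs']
    calc x * (s₁ * (x * s₁⁻¹ * x⁻¹)) * x⁻¹ = x * s₁ * x * s₁⁻¹ * (x⁻¹ * x⁻¹) := by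
          simp only [mul_assoc]
      _ = x * s₁ * x⁻¹ * s₁⁻¹ := by rw [hxi, hxx, mul_one]
      _ = (s₁ * (x * s₁⁻¹ * x⁻¹))⁻¹ := by group
  have hf : f s' = f s₁ ^ 2 := by
    have h2 : x * s₁⁻¹ * x⁻¹ = (x * s₁ * x⁻¹)⁻¹ := by group
    rw [hs', map_mul, h2, map_inv, h, map_inv, inv_inv, pow_two]
  obtain ⟨k, hk⟩ := ztBn_pow D.core.hR hs₁
  obtain ⟨j, hj⟩ := ((hr.odd_of_ne_two hr2).pow : Odd (r ^ k))
  refine ⟨s' ^ (j + 1), R.pow_mem hs'R _, ?_, ?_⟩
  · have h3 : 2 * (j + 1) = r ^ k + 1 := by omega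
    rw [map_pow, hf, ← pow_mul, h3, pow_succ, ← map_pow, hk, map_one, one_mul]
  · rw [← conj_pow, hinv, inv_pow]

/-- A preimage of an element commuting with `g ^ 4` (`f` a homomorphism). Proof. `tw_coset_fix`
(TwR4.lean) for `p := 2`, `z := g ^ 4` (`(g ^ 4) ^ (2 ^ 1) = 1`), `N = {c ∈ R | f c = 1}`, whose order is a
power of `r`. -/
theorem zb_lift' {F : Type} [Group F] [Finite F] {r : ℕ} (hr : r.Prime) (hr2 : r ≠ 2)
    {Q R : Subgroup F} {g : F} (D : ZMinB r Q R g) {H : Type} [Group H] (f : F →* H) {s₁ : F}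
    (hs₁ : s₁ ∈ R) (h : f (g ^ 4 * s₁) = f (s₁ * g ^ 4)) :
    ∃ s ∈ R, f s = f s₁ ∧ g ^ 4 * s = s * g ^ 4 := by
  obtain ⟨x, hx⟩ : ∃ x : F, x = g ^ 4 := ⟨_, rfl⟩
  have hxx : x * x = 1 := by rw [hx, ← pow_add]; exact D.hg
  have hxR : ∀ y ∈ R, x * y * x⁻¹ ∈ R := fun y hy => by
    rw [hx]
    exact ztBn_conj4 D.core.hxR hy
  rw [← hx] at h ⊢
  have hN : ¬ 2 ∣ Nat.card (R ⊓ f.ker : Subgroup F) := by
    intro h2
    have : Fact r.Prime := ⟨hr⟩
    have h3 : IsPGroup r (R ⊓ f.ker : Subgroup F) := D.core.hR.to_le inf_le_left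
    obtain ⟨n, hn⟩ := IsPGroup.iff_card.mp h3
    rw [hn] at h2
    exact hr2 ((Nat.prime_dvd_prime_iff_eq Nat.prime_two hr).1 (Nat.prime_two.dvd_of_dvd_pow h2)).symm
  obtain ⟨y, hy, hxy⟩ := tw_coset_fix (p := 2) (k := 1) Nat.prime_two (z := x)
    (by rw [pow_one, pow_two]; exact hxx) (R ⊓ f.ker) hN
    (fun c hc => ⟨hxR c hc.1, by
      have h2 : f c = 1 := hc.2
      show f (x * c * x⁻¹) = 1
      rw [map_mul, map_mul, h2, mul_one, ← map_mul, mul_inv_cancel, map_one]⟩) (x := s₁)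
    ⟨R.mul_mem (R.inv_mem hs₁) (hxR _ hs₁), by
      show f (s₁⁻¹ * (x * s₁ * x⁻¹)) = 1
      rw [map_mul, map_mul f (x * s₁) x⁻¹, h, ← map_mul, ← map_mul, mul_inv_cancel_right,
        inv_mul_cancel, map_one]⟩
  refine ⟨y, ?_, ?_, hxy⟩
  · have h2 := R.mul_mem hs₁ hy.1
    rwa [mul_inv_cancel_left] at h2
  · have h2 : f (s₁⁻¹ * y) = 1 := hy.2
    rw [map_mul, map_inv, inv_mul_eq_one] at h2
    exact h2.symm

end Pool.Agent.Lib.MP_544bd1_al
end

section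

/-!
Theorem Z3, Case B: the structure of `R` modulo the kernel of `τ`.
-/

namespace Pool.Agent.Lib.MP_544bd1_al

open Subgroup

private theorem ztrb_inv {F E : Type} [Group F] [Monoid E] (τ : F →* E) {a b : F}
    (h : τ a = τ b) : τ a⁻¹ = τ b⁻¹ := by
  calc τ a⁻¹ = τ a⁻¹ * (τ b * τ b⁻¹) := by
        rw [← map_mul τ b b⁻¹, mul_inv_cancel, map_one, mul_one]
    _ = τ a⁻¹ * τ a * τ b⁻¹ := by rw [h, mul_assoc]
    _ = τ b⁻¹ := by rw [← map_mul τ a⁻¹ a, inv_mul_cancel, map_one, one_mul]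

private theorem ztrb_cent {F : Type} [Group F] {Q R : Subgroup F} [Q.Normal]
    {V : Type} [AddCommGroup V] [Module (ZMod 2) V]
    {τ : F →* Module.End (ZMod 2) V} {φ : Q → V} (M : ZMd Q R τ φ) {c : F}
    (hc : ∀ q ∈ Q, c * q = q * c) : τ c = 1 := by
  ext v
  obtain ⟨y, rfl⟩ := M.surj v
  have h := M.eqv c y
  have h2 : (⟨c * y * c⁻¹, (inferInstance : Q.Normal).conj_mem _ y.2 c⟩ : Q) = y := by
    apply Subtype.ext
    show c * y * c⁻¹ = y
    rw [hc y y.2, mul_inv_cancel_right]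
  rw [h2] at h
  rw [← h]
  rfl

/-- `R` is not commutative on `V`. Proof. Otherwise the elements `c ∈ R` with
`τ (g ^ 4 * c * (g ^ 4)⁻¹) = τ c⁻¹` form a subgroup and by `D.gen` this holds for all `c ∈ R`; `zt_avg`
(`a := 3`, `H := F`, `E := R`, `u := g`, `m := Nat.card R`, a power of `r`, so odd; norm: `zb_norm`) gives
`τ = 1` on `R`: contradiction to `M.faith`, `D.core.ne`. -/
theorem zb_nc {m : ℕ} (hm : Odd m) {F : Type} [Group F] [Finite F]
    (hexp : ∀ x : F, x ^ (m * 2 ^ 3) = 1) {r : ℕ} (hr : r.Prime) (hr2 : r ≠ 2) {Q R : Subgroup F}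
    [Q.Normal] {g : F} (D : ZMinB r Q R g) {V : Type} [AddCommGroup V] [Module (ZMod 2) V]
    [Finite V] {τ : F →* Module.End (ZMod 2) V} {φ : Q → V} (M : ZMd Q R τ φ) :
    ∃ a ∈ R, ∃ b ∈ R, τ (a * b) ≠ τ (b * a) := by
  by_contra hcon
  push Not at hcon
  let S : Subgroup F :=
    { carrier := {c | c ∈ R ∧ τ (g ^ 4 * c * (g ^ 4)⁻¹) = τ c⁻¹}
      one_mem' := ⟨R.one_mem, by rw [mul_one, mul_inv_cancel, inv_one]⟩
      mul_mem' := by
        rintro a b ⟨ha, ha'⟩ ⟨hb, hb'⟩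
        refine ⟨R.mul_mem ha hb, ?_⟩
        have h1 : g ^ 4 * (a * b) * (g ^ 4)⁻¹ =
            (g ^ 4 * a * (g ^ 4)⁻¹) * (g ^ 4 * b * (g ^ 4)⁻¹) := by group
        rw [h1, map_mul, ha', hb', ← map_mul, hcon _ (R.inv_mem ha) _ (R.inv_mem hb),
          mul_inv_rev]
      inv_mem' := by
        rintro a ⟨ha, ha'⟩
        refine ⟨R.inv_mem ha, ?_⟩
        have h1 : g ^ 4 * a⁻¹ * (g ^ 4)⁻¹ = (g ^ 4 * a * (g ^ 4)⁻¹)⁻¹ := by group
        rw [h1]
        exact ztrb_inv τ ha' }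
  have hRS : R ≤ S := by
    apply D.gen
    intro s hs h
    exact ⟨hs, by rw [h]⟩
  have hodd : Odd (Nat.card R) := by
    haveI : Fact r.Prime := ⟨hr⟩
    obtain ⟨n, hn⟩ := IsPGroup.iff_card.mp D.core.hR
    rw [hn]
    exact (hr.odd_of_ne_two hr2).pow
  have hN : ∑ i ∈ Finset.range (2 ^ 3), (τ g) ^ i = 0 := zb_norm hm hexp D M
  have key := zt_avg (m := Nat.card R) (a := 3) (by norm_num) hodd τ R (u := g)
    (fun c hc => by
      have h1 : c ^ Nat.card R = 1 := by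
        have h2 : (⟨c, hc⟩ : R) ^ Nat.card R = 1 := pow_card_eq_one'
        exact congrArg Subtype.val h2
      rw [h1, map_one])
    hcon D.core.hxR (by rw [show (2 : ℕ) ^ 3 = 8 from rfl, D.hg, map_one])
    (fun c hc => (hRS hc).2) hN
  obtain ⟨c, hc, q, hq, hne⟩ := D.core.ne
  exact hne (M.faith c hc (key c hc) q hq)

/-- **Structure of `R`.**

Proof. Let `f = τ.toHomUnits : F →* (Module.End (ZMod 2) V)ˣ`, or rather `f : F →* f.range` (a finite
group) or `(Module.End (ZMod 2) V)ˣ` itself (finite, as `V` is finite), `H` the target,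
`R̄ = R.map f`, `ḡ = f g`. The hypotheses of `zt_Rg`, `zt_Rg2`: `IsPGroup r R̄` (`IsPGroup.map`);
`hgen`: for a subgroup `S` of `H` apply `D.gen` to `S.comap f`; `hmin`: for `R₁ ≤ R̄`, `≠ R̄`, apply
`D.minR` to `{c ∈ R | f c ∈ R₁}` (it is not `R`): for its elements `c` the element
`g ^ 4 * c * (g ^ 4)⁻¹ * c⁻¹` centralizes `Q`, so by `ztNorm_cent` `τ` of it is `1`; `hne`: `zb_nc`.
So let `s̄ = f s₁`, `s₁ ∈ R`, be the element of `zt_Rg2`; by `zb_lift` we may suppose that `s₁` is inverted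
by `g ^ 4`. Put `s = s₁`. `hsr`: third part of `zt_Rg`. `cl`: first part. `hζ`, `hg2` (apply `g` twice; for
`r = 3` the inverse of the inverse), `hg7`: `zt_Rg2`. `cen`: `zt_Rg3` (`t̄ ^ r = (ḡ s̄ ḡ⁻¹) ^ r = 1`).
`gen`: `c ∈ R` has `f c ∈ closure {s̄, t̄} = (closure {s, t}).map f`, so `c = c' * k` with
`c' ∈ closure {s, t} ≤ S ⊓ R`, `f k = 1`, `k ∈ R`. -/
theorem zt_Rb {m : ℕ} (hm : Odd m) {F : Type} [Group F] [Finite F]
    (hexp : ∀ x : F, x ^ (m * 2 ^ 3) = 1) {r : ℕ} (hr : r = 3 ∨ r = 7) {Q R : Subgroup F}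
    [Q.Normal] {g : F} (D : ZMinB r Q R g) {V : Type} [AddCommGroup V] [Module (ZMod 2) V]
    [Finite V] {τ : F →* Module.End (ZMod 2) V} {φ : Q → V} (M : ZMd Q R τ φ) :
    ∃ s, ZRb r R g s τ := by
  have hr' : r.Prime := by
    rcases hr with rfl | rfl <;> norm_num
  have hr2 : r ≠ 2 := by
    rcases hr with rfl | rfl <;> norm_num
  haveI hEnd : Finite (Module.End (ZMod 2) V) :=
    Finite.of_injective (fun (l : Module.End (ZMod 2) V) => (l : V → V)) DFunLike.coe_injective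
  haveI hUn : Finite (Module.End (ZMod 2) V)ˣ :=
    Finite.of_injective (fun u : (Module.End (ZMod 2) V)ˣ => (u : Module.End (ZMod 2) V))
      Units.val_injective
  obtain ⟨f, hfd⟩ : ∃ f : F →* (Module.End (ZMod 2) V)ˣ, f = τ.toHomUnits := ⟨_, rfl⟩
  have hval : ∀ c, ((f c : (Module.End (ZMod 2) V)ˣ) : Module.End (ZMod 2) V) = τ c := by
    intro c
    rw [hfd]
    rfl
  have hiff : ∀ a b, f a = f b ↔ τ a = τ b := by
    intro a b
    constructor
    · intro h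
      rw [← hval, ← hval, h]
    · intro h
      apply Units.ext
      rw [hval, hval, h]
  have hRbar : IsPGroup r (R.map f) := IsPGroup.map D.core.hR f
  have hg8 : (f g) ^ 8 = 1 := by rw [← map_pow, D.hg, map_one]
  have hgR : ∀ s ∈ R.map f, f g * s * (f g)⁻¹ ∈ R.map f := by
    rintro _ ⟨c, hc, rfl⟩
    exact ⟨g * c * g⁻¹, D.core.hxR c hc, by rw [map_mul, map_mul, map_inv]⟩
  have hgen : ∀ S : Subgroup (Module.End (ZMod 2) V)ˣ,
      (∀ s ∈ R.map f, (f g) ^ 4 * s * ((f g) ^ 4)⁻¹ = s⁻¹ → s ∈ S) → R.map f ≤ S := by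
    intro S hS
    have h1 : R ≤ S.comap f := by
      apply D.gen
      intro s hs h
      refine hS (f s) ⟨s, hs, rfl⟩ ?_
      rw [← map_pow, ← map_inv, ← map_mul, ← map_mul, h, map_inv]
    rintro _ ⟨c, hc, rfl⟩
    exact h1 hc
  have hmin : ∀ R₁ : Subgroup (Module.End (ZMod 2) V)ˣ, R₁ ≤ R.map f → R₁ ≠ R.map f →
      (∀ s ∈ R₁, f g * s * (f g)⁻¹ ∈ R₁) → ∀ s ∈ R₁, (f g) ^ 4 * s = s * (f g) ^ 4 := by
    intro R₁ h1 h2 h3
    have h4 : R ⊓ R₁.comap f ≠ R := by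
      intro h
      apply h2
      refine le_antisymm h1 ?_
      rintro _ ⟨c, hc, rfl⟩
      have hc' : c ∈ R := hc
      rw [← h] at hc'
      exact (mem_inf.1 hc').2
    have h5 := D.minR _ inf_le_left h4 (by
      intro s hs
      obtain ⟨hs1, hs2⟩ := mem_inf.1 hs
      refine mem_inf.2 ⟨D.core.hxR s hs1, ?_⟩
      rw [mem_comap, map_mul, map_mul, map_inv]
      exact h3 _ hs2)
    intro s hs
    obtain ⟨c, hc, rfl⟩ := h1 hs
    have h6 := ztrb_cent M (h5 c (mem_inf.2 ⟨hc, hs⟩))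
    have h7 : f (g ^ 4 * c * (g ^ 4)⁻¹ * c⁻¹) = f 1 := (hiff _ _).2 (by rw [h6, map_one])
    have h8 : f (g ^ 4 * c) = f (c * g ^ 4) := by
      calc f (g ^ 4 * c) = f ((g ^ 4 * c * (g ^ 4)⁻¹ * c⁻¹) * (c * g ^ 4)) := by
            congr 1
            group
        _ = f (c * g ^ 4) := by rw [map_mul, h7, ← map_mul, one_mul]
    rw [map_mul, map_mul, map_pow] at h8
    exact h8
  have hne : ∃ a ∈ R.map f, ∃ b ∈ R.map f, a * b ≠ b * a := by
    obtain ⟨a, ha, b, hb, hab⟩ := zb_nc hm hexp hr' hr2 D M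
    refine ⟨f a, ⟨a, ha, rfl⟩, f b, ⟨b, hb, rfl⟩, ?_⟩
    rw [← map_mul, ← map_mul]
    intro h
    exact hab ((hiff _ _).1 h)
  obtain ⟨k1, -, k3⟩ := zt_Rg hr' hr2 hRbar hgR hgen hmin
  obtain ⟨s', hs', l1, l2, l3, l4, l5⟩ := zt_Rg2 hr hRbar hg8 hgR hgen hmin hne
  obtain ⟨s₁, hs₁, hs₁'⟩ := hs'
  have hlift : f (g ^ 4 * s₁ * (g ^ 4)⁻¹) = f s₁⁻¹ := by
    rw [map_mul, map_mul, map_inv, map_inv, map_pow, hs₁']
    exact l1
  obtain ⟨s, hs, hfs, hxs⟩ := zb_lift hr' hr2 D f hs₁ hlift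
  have hs'' : s' = f s := by rw [hfs, hs₁']
  subst hs''
  have ht : f g * f s * (f g)⁻¹ = f (g * s * g⁻¹) := by rw [map_mul, map_mul, map_inv]
  have htR : g * s * g⁻¹ ∈ R := D.core.hxR s hs
  rw [ht] at l2 l3 l4 l5
  have hζ : f s * f (g * s * g⁻¹) * (f s)⁻¹ * (f (g * s * g⁻¹))⁻¹ =
      f (s * (g * s * g⁻¹) * s⁻¹ * (g * s * g⁻¹)⁻¹) := by
    rw [map_mul f (s * (g * s * g⁻¹) * s⁻¹), map_mul f (s * (g * s * g⁻¹)), map_mul f s,
      map_inv, map_inv]
  rw [hζ] at l3 l4 l5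
  obtain ⟨ζ, hζd⟩ : ∃ ζ, ζ = s * (g * s * g⁻¹) * s⁻¹ * (g * s * g⁻¹)⁻¹ := ⟨_, rfl⟩
  have hsr : (f s) ^ r = 1 := k3 (f s) ⟨s, hs, rfl⟩ l1
  have htr : (f (g * s * g⁻¹)) ^ r = 1 := by
    rw [← ht, conj_pow, hsr, mul_one, mul_inv_cancel]
  obtain ⟨-, -, m3⟩ := zt_Rg3 hr' (R := R.map f) k1 (s := f s) (t := f (g * s * g⁻¹))
    ⟨s, hs, rfl⟩ ⟨_, htR, rfl⟩ hsr htr l2 (by rw [hζ]; exact l3)
  rw [hζ] at m3
  rw [← hζd] at l3 l4 l5 m3
  refine ⟨s, hs, hxs, ?_, ?_, ?_, ?_, ?_, ?_, ?_⟩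
  · rw [← map_one τ, ← hiff, map_pow, hsr, map_one]
  · intro S h1 h2 h3 c hc
    have h4 : f c ∈ (closure {s, g * s * g⁻¹}).map f := by
      rw [MonoidHom.map_closure, Set.image_pair]
      exact l2 ⟨c, hc, rfl⟩
    obtain ⟨c', hc', hc''⟩ := h4
    have h5 : closure {s, g * s * g⁻¹} ≤ S ⊓ R := by
      rw [closure_le]
      rintro y (rfl | rfl)
      · exact mem_inf.2 ⟨h1, hs⟩
      · exact mem_inf.2 ⟨h2, htR⟩
    obtain ⟨h6, h7⟩ := mem_inf.1 (h5 hc')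
    have h8 : c'⁻¹ * c ∈ S := by
      apply h3 _ (R.mul_mem (R.inv_mem h7) hc)
      rw [← map_one τ, ← hiff, map_mul, map_inv, hc'', inv_mul_cancel, map_one]
    have h9 : c = c' * (c'⁻¹ * c) := by group
    rw [h9]
    exact S.mul_mem h6 h8
  · intro a ha b hb c hc
    rw [← hiff]
    have h1 := k1 (f a) ⟨a, ha, rfl⟩ (f b) ⟨b, hb, rfl⟩ (f c) ⟨c, hc, rfl⟩
    simp only [map_mul, map_inv]
    exact h1
  · rw [← hζd]
    intro h
    apply l3
    rw [← map_one f, hiff, h, map_one]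
  · rw [← hζd]
    intro c hc h
    obtain ⟨k, hk⟩ := m3 (f c) ⟨c, hc, rfl⟩ (by
      rintro _ ⟨y, hy, rfl⟩
      rw [← map_mul, ← map_mul, hiff]
      exact h y hy)
    refine ⟨k, ?_⟩
    rw [← hiff, map_pow]
    exact hk
  · rw [← hζd, ← hiff]
    have h1 : f g * (f g * f ζ * (f g)⁻¹) * (f g)⁻¹ = f ζ := by
      rcases hr with h | h
      · have h2 := l4 h
        rw [h2]
        have h3 : f g * (f ζ)⁻¹ * (f g)⁻¹ = (f g * f ζ * (f g)⁻¹)⁻¹ := by group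
        rw [h3, h2, inv_inv]
      · rw [l5 h, l5 h]
    calc f (g ^ 2 * ζ) = (f g * (f g * f ζ * (f g)⁻¹) * (f g)⁻¹) * (f g * f g) := by
          rw [map_mul, map_pow, pow_two]
          group
      _ = f (ζ * g ^ 2) := by rw [h1, map_mul, map_pow, pow_two]
  · rw [← hζd]
    intro h
    rw [← hiff]
    calc f (g * ζ) = (f g * f ζ * (f g)⁻¹) * f g := by
          rw [map_mul]
          group
      _ = f (ζ * g) := by rw [l5 h, map_mul]

end Pool.Agent.Lib.MP_544bd1_al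
end

section

/-!
Theorem Z3, Case B: the linear situation.
-/

namespace Pool.Agent.Lib.MP_544bd1_al

open Subgroup

/-- Invariance under `τ c` implies invariance under `τ c⁻¹`. -/
private lemma zlb_inv {F : Type} [Group F] [Finite F] {V : Type} [AddCommGroup V]
    [Module (ZMod 2) V] (τ : F →* Module.End (ZMod 2) V) (W : Submodule (ZMod 2) V) {c : F}
    (h : ∀ w ∈ W, τ c w ∈ W) : ∀ w ∈ W, τ c⁻¹ w ∈ W := by
  have h1 : c⁻¹ ∈ Submonoid.powers c := by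
    rw [(isOfFinOrder_of_finite c).mem_powers_iff_mem_zpowers]
    exact inv_mem (mem_zpowers c)
  obtain ⟨n, hn⟩ := h1
  have hn' : c ^ n = c⁻¹ := hn
  have key : ∀ n : ℕ, ∀ w ∈ W, τ (c ^ n) w ∈ W := by
    intro n
    induction n with
    | zero => intro w hw; simpa using hw
    | succ n ih =>
      intro w hw
      rw [pow_succ, map_mul]
      exact ih _ (h w hw)
  rw [← hn']
  exact key n

/-- Submodules invariant under `s`, `t` are invariant under `R`. -/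
private lemma zlb_R {F : Type} [Group F] [Finite F] {r : ℕ}
    {R : Subgroup F} {g s : F} {V : Type} [AddCommGroup V]
    [Module (ZMod 2) V] {τ : F →* Module.End (ZMod 2) V}
    (S : ZRb r R g s τ) (W : Submodule (ZMod 2) V) (hs : ∀ w ∈ W, τ s w ∈ W)
    (ht : ∀ w ∈ W, τ (g * s * g⁻¹) w ∈ W) : ∀ c ∈ R, ∀ w ∈ W, τ c w ∈ W := by
  let St : Subgroup F :=
    { carrier := {c | (∀ w ∈ W, τ c w ∈ W) ∧ ∀ w ∈ W, τ c⁻¹ w ∈ W}
      mul_mem' := by
        rintro a b ⟨ha, ha'⟩ ⟨hb, hb'⟩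
        refine ⟨fun w hw => ?_, fun w hw => ?_⟩
        · rw [map_mul]
          exact ha _ (hb w hw)
        · rw [mul_inv_rev, map_mul]
          exact hb' _ (ha' w hw)
      one_mem' := by
        refine ⟨fun w hw => ?_, fun w hw => ?_⟩
        · rw [map_one]; exact hw
        · rw [inv_one, map_one]; exact hw
      inv_mem' := by
        rintro a ⟨ha, ha'⟩
        refine ⟨ha', ?_⟩
        rw [inv_inv]
        exact ha }
  have hRS : R ≤ St := by
    refine S.gen St ⟨hs, zlb_inv τ W hs⟩ ⟨ht, zlb_inv τ W ht⟩ ?_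
    intro c _ hc
    have h1 : ∀ w ∈ W, τ c w ∈ W := fun w hw => by rw [hc]; exact hw
    exact ⟨h1, zlb_inv τ W h1⟩
  exact fun c hc w hw => (hRS hc).1 w hw

/-- `(T - 1) ^ 7 = ∑ i < 8, T ^ i` in characteristic 2. -/
private lemma zlb_pow7 {V : Type} [AddCommGroup V] [Module (ZMod 2) V]
    (T : Module.End (ZMod 2) V) : (T - 1) ^ 7 = ∑ i ∈ Finset.range 8, T ^ i := by
  have h2 : (2 : Module.End (ZMod 2) V) = 0 := by
    ext v
    have h1 : (2 : Module.End (ZMod 2) V) = 1 + 1 := one_add_one_eq_two.symm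
    have h0 : (2 : ZMod 2) = 0 := rfl
    rw [h1, LinearMap.add_apply, Module.End.one_apply, ← two_smul (ZMod 2) v, h0, zero_smul]
    rfl
  have hp : (Polynomial.X - 1 : Polynomial ℤ) ^ 7 = (∑ i ∈ Finset.range 8, Polynomial.X ^ i) +
      2 * (-4 * Polynomial.X ^ 6 + 10 * Polynomial.X ^ 5 - 18 * Polynomial.X ^ 4 +
        17 * Polynomial.X ^ 3 - 11 * Polynomial.X ^ 2 + 3 * Polynomial.X - 1) := by
    simp only [Finset.sum_range_succ, Finset.sum_range_zero]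
    ring
  have h3 := congrArg (Polynomial.aeval T) hp
  rw [map_add, map_mul, map_sum, map_pow, map_sub, map_one, Polynomial.aeval_X] at h3
  have h4 : (Polynomial.aeval T) (2 : Polynomial ℤ) = (2 : Module.End (ZMod 2) V) := by
    exact map_ofNat _ 2
  rw [h4, h2, zero_mul, add_zero] at h3
  rw [h3]
  refine Finset.sum_congr rfl fun i _ => ?_
  rw [map_pow, Polynomial.aeval_X]

/-- irreducibility, in terms of `s` and `g`. Proof. `zt_irr` (`x := g`): for `W` as in the hypothesis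
the set `{c ∈ F | ∀ w ∈ W, τ c w ∈ W ∧ τ c⁻¹ w ∈ W}` is a subgroup (`W` is finite: invariance under
`τ s` implies invariance under `τ s⁻¹`, as `s⁻¹` is a power of `s`), contains `s`, `g`, so
`g * s * g⁻¹`, and the kernel of `τ`, so `R` by `S.gen`. -/
theorem zb_irr {F : Type} [Group F] [Finite F] {r : ℕ} (hr : r.Prime) (hr2 : r ≠ 2)
    {Q R : Subgroup F} [Q.Normal] {g s : F} (D : ZMinB r Q R g) {V : Type} [AddCommGroup V]
    [Module (ZMod 2) V] {τ : F →* Module.End (ZMod 2) V} {φ : Q → V} (M : ZMd Q R τ φ)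
    (S : ZRb r R g s τ) (W : Submodule (ZMod 2) V) (hs : ∀ w ∈ W, τ s w ∈ W)
    (hg : ∀ w ∈ W, τ g w ∈ W) : W = ⊥ ∨ W = ⊤ := by
  refine (zt_irr hr hr2 D.core M).2.2.2 W (zlb_R S W hs ?_) hg
  intro w hw
  rw [map_mul, map_mul]
  exact hg _ (hs _ (zlb_inv τ W hg w hw))

/-- `ζ` has order `r` and no fixed points. Proof. Let `ζ = s * t * s⁻¹ * t⁻¹`, `t = g * s * g⁻¹`. By `S.cl`
`τ ζ` commutes with `τ R`. First part: `τ (s * t * s⁻¹) = τ (ζ * t)`, so (take `r`-th powers;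
`τ (t ^ r) = τ (g * s ^ r * g⁻¹) = 1`) `τ (ζ ^ r) = 1`. Second part: `W = {v | τ ζ v = v}` is invariant
under `τ R` (in particular under `τ s`). It is invariant under `τ g`: `g * ζ * g⁻¹ ∈ R` and `τ` of it
commutes with `τ R` (conjugate `S.cl`; `g * c * g⁻¹` runs over `R` as `F` is finite), so by `S.cen`
`τ (g * ζ * g⁻¹) = τ (ζ ^ k)`; by `S.hg2` `τ (g⁻¹ * ζ * g) = τ (g * ζ * g⁻¹)`. So for `v ∈ W`
`τ ζ (τ g v) = τ g (τ (g⁻¹ * ζ * g) v) = τ g (τ (ζ ^ k) v) = τ g v`. By `zb_irr` `W = ⊥` or `⊤`; `W = ⊤`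
contradicts `S.hζ`. -/
theorem zb_fix {F : Type} [Group F] [Finite F] {r : ℕ} (hr : r.Prime) (hr2 : r ≠ 2)
    {Q R : Subgroup F} [Q.Normal] {g s : F} (D : ZMinB r Q R g) {V : Type} [AddCommGroup V]
    [Module (ZMod 2) V] {τ : F →* Module.End (ZMod 2) V} {φ : Q → V} (M : ZMd Q R τ φ)
    (S : ZRb r R g s τ) :
    τ ((s * (g * s * g⁻¹) * s⁻¹ * (g * s * g⁻¹)⁻¹) ^ r) = 1 ∧
      ∀ v : V, τ (s * (g * s * g⁻¹) * s⁻¹ * (g * s * g⁻¹)⁻¹) v = v → v = 0 := by
  set t : F := g * s * g⁻¹ with ht_def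
  set ζ : F := s * t * s⁻¹ * t⁻¹ with hζ_def
  have hsR : s ∈ R := S.hs
  have htR : t ∈ R := D.core.hxR s S.hs
  have hζR : ζ ∈ R := mul_mem (mul_mem (mul_mem hsR htR) (inv_mem hsR)) (inv_mem htR)
  have hcomm : ∀ c ∈ R, τ ζ * τ c = τ c * τ ζ := by
    intro c hc
    have h0 : τ (ζ * c) = τ (c * ζ) := S.cl s hsR t htR c hc
    calc τ ζ * τ c = τ (ζ * c) := (map_mul τ ζ c).symm
      _ = τ (c * ζ) := h0
      _ = τ c * τ ζ := map_mul τ c ζ
  have htr : τ (t ^ r) = 1 := by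
    have h1 : t ^ r = g * s ^ r * g⁻¹ := by
      rw [ht_def, conj_pow]
    rw [h1, map_mul, map_mul, S.hsr, mul_one, ← map_mul, mul_inv_cancel, map_one]
  refine ⟨?_, ?_⟩
  · have h1 : (ζ * t) ^ r = s * t ^ r * s⁻¹ := by
      rw [hζ_def, inv_mul_cancel_right, conj_pow]
    have h2 : τ ((ζ * t) ^ r) = 1 := by
      rw [h1, map_mul, map_mul, htr, mul_one, ← map_mul, mul_inv_cancel, map_one]
    have h3 : τ ((ζ * t) ^ r) = τ (ζ ^ r) := by
      rw [map_pow, map_mul, (show Commute (τ ζ) (τ t) from hcomm t htR).mul_pow, ← map_pow,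
        ← map_pow, htr, mul_one]
    rw [← h3, h2]
  · obtain ⟨k, hk⟩ : ∃ k : ℕ, τ (g * ζ * g⁻¹) = τ (ζ ^ k) := by
      refine S.cen _ (D.core.hxR ζ hζR) ?_
      intro y hy
      have hinv : ∀ n : ℕ, ∀ y ∈ R, g ^ n * y * (g ^ n)⁻¹ ∈ R := by
        intro n
        induction n with
        | zero => intro y hy; simpa using hy
        | succ n ih =>
          intro y hy
          have := ih _ (D.core.hxR y hy)
          have h5 : g ^ (n + 1) * y * (g ^ (n + 1))⁻¹ = g ^ n * (g * y * g⁻¹) * (g ^ n)⁻¹ := by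
            rw [pow_succ]; group
          rwa [h5]
      have h1 : g⁻¹ * y * g ∈ R := by
        have h7 := hinv 7 y hy
        have h8 : g ^ 7 = g⁻¹ := by
          rw [eq_inv_iff_mul_eq_one, ← pow_succ]; exact D.hg
        rwa [h8, inv_inv] at h7
      have h2 := hcomm _ h1
      have h3 : g * ζ * g⁻¹ * y = g * (ζ * (g⁻¹ * y * g)) * g⁻¹ := by group
      have h4 : y * (g * ζ * g⁻¹) = g * ((g⁻¹ * y * g) * ζ) * g⁻¹ := by group
      rw [h3, h4, map_mul, map_mul, map_mul τ ζ, h2, ← map_mul, ← map_mul, ← map_mul]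
    have hk2 : τ (g⁻¹ * ζ * g) = τ (ζ ^ k) := by
      have h1 : g⁻¹ * ζ * g = g⁻¹ * (ζ * g ^ 2) * g⁻¹ := by
        rw [pow_two]; group
      have h2 : g * ζ * g⁻¹ = g⁻¹ * (g ^ 2 * ζ) * g⁻¹ := by
        rw [pow_two]; group
      rw [← hk, h1, h2, map_mul, map_mul, ← S.hg2, ← map_mul, ← map_mul]
    let W : Submodule (ZMod 2) V := LinearMap.eqLocus (τ ζ) LinearMap.id
    have hWm : ∀ v : V, v ∈ W ↔ τ ζ v = v := fun v => Iff.rfl
    have hpow : ∀ n : ℕ, ∀ v : V, τ ζ v = v → τ (ζ ^ n) v = v := by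
      intro n
      induction n with
      | zero => intro v _; rw [pow_zero, map_one]; rfl
      | succ n ih =>
        intro v hv
        rw [pow_succ, map_mul, Module.End.mul_apply, hv, ih v hv]
    have hW : W = ⊥ ∨ W = ⊤ := by
      refine zb_irr hr hr2 D M S W ?_ ?_
      · intro v hv
        rw [hWm] at hv ⊢
        rw [← Module.End.mul_apply, hcomm s hsR, Module.End.mul_apply, hv]
      · intro v hv
        rw [hWm] at hv ⊢
        have h1 : τ ζ * τ g = τ g * τ (g⁻¹ * ζ * g) := by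
          rw [← map_mul, ← map_mul]; congr 1; group
        rw [← Module.End.mul_apply, h1, Module.End.mul_apply, hk2, hpow k v hv]
    intro v hv
    rcases hW with hW | hW
    · have : v ∈ W := hv
      rw [hW] at this
      exact (Submodule.mem_bot _).1 this
    · exfalso
      apply S.hζ
      ext w
      have : w ∈ W := by rw [hW]; trivial
      exact this

/-- **The linear situation.**

Proof. Let `f = τ.toHomUnits`, `t = g * s * g⁻¹`, `ζ = s * t * s⁻¹ * t⁻¹`. `hs`: `S.hsr`; `ht`: conjugate;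
`hζ`, `hfix`: `zb_fix`; `hst`: `ζ * t * s = s * t` in `F`; `hζs`, `hζt`: `S.cl`; `hgs`: definition; `hgt`:
`g * t * g⁻¹ ∈ R`, and `S.gen` for the subgroup `(closure {f s, f t}).comap f`; `hxs`: `S.hxs`; `hx2`:
`D.hg`; `irr`: `zb_irr`; `hg2`, `hg7`: `S.hg2`, `S.hg7`; `hN`: in characteristic 2
`(T - 1) ^ 7 = ∑ i < 8, T ^ i` (`ring`-type identity and `2 = 0`), `zb_norm`.
`hxA`: `zt_X0` for `Γ = R.map f`, `N = Nat.card R` (odd, a power of `r`): `hZ`: a central element of `Γ` is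
a power of `f ζ` (`S.cen`), and `g ^ 4` commutes with `ζ` (`hg2` twice); `hinv`: for `a ∈ R`
`f (g ^ 4 * a * (g ^ 4)⁻¹ * a)` is central in `Γ`: the elements `a ∈ R` with this property form a
subgroup (class 2: modulo the center everything commutes), so use `D.gen`; `hcl`: `S.cl`; `hfix`: a
central element `≠ 1` is `f (ζ ^ k)`, `¬ r ∣ k` (`τ (ζ ^ r) = 1`), so `f ζ` is a power of it, and a vector
fixed by it is fixed by `ζ`; `irr`: `zb_irr`. A submodule invariant under `s`, `t` is invariant under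
`Γ`: as in the proof of `zb_irr`. -/
theorem zt_linB {m : ℕ} (hm : Odd m) {F : Type} [Group F] [Finite F]
    (hexp : ∀ x : F, x ^ (m * 2 ^ 3) = 1) {r : ℕ} (hr : r = 3 ∨ r = 7) {Q R : Subgroup F}
    [Q.Normal] {g s : F} (D : ZMinB r Q R g) {V : Type} [AddCommGroup V] [Module (ZMod 2) V]
    [Finite V] {τ : F →* Module.End (ZMod 2) V} {φ : Q → V} (M : ZMd Q R τ φ)
    (S : ZRb r R g s τ) :
    ZLinB r (τ.toHomUnits s) (τ.toHomUnits (g * s * g⁻¹))
      (τ.toHomUnits (s * (g * s * g⁻¹) * s⁻¹ * (g * s * g⁻¹)⁻¹)) (τ.toHomUnits g) := by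
  have hrp : r.Prime := by rcases hr with rfl | rfl <;> norm_num
  have hr2 : r ≠ 2 := by rcases hr with rfl | rfl <;> norm_num
  have hr1 : 1 < r := hrp.one_lt
  have hF := zb_fix hrp hr2 D M S
  have hxR := D.core.hxR
  set f : F →* (Module.End (ZMod 2) V)ˣ := τ.toHomUnits with hf_def
  have hfc : ∀ a : F, ((f a : (Module.End (ZMod 2) V)ˣ) : Module.End (ZMod 2) V) = τ a :=
    fun a => rfl
  have hfe : ∀ a b : F, τ a = τ b → f a = f b := fun a b h => Units.ext h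
  have hfe' : ∀ a b : F, f a = f b → τ a = τ b := fun a b h => congrArg Units.val h
  have hxst : g ^ 4 * s * (g ^ 4)⁻¹ = s⁻¹ := S.hxs
  have hfix0 := hF.2
  have hζr0 := hF.1
  have hirr0 := zb_irr hrp hr2 D M S
  have hcl0 := S.cl
  have hcen0 := S.cen
  have hg20 := S.hg2
  have hg70 := S.hg7
  have hgen0 := S.gen
  have hRinv := zlb_R S
  have hsR : s ∈ R := S.hs
  have hsr : τ (s ^ r) = 1 := S.hsr
  clear hF
  generalize ht_def : g * s * g⁻¹ = t at *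
  generalize hζ_def : s * t * s⁻¹ * t⁻¹ = ζ at *
  have htR : t ∈ R := by rw [← ht_def]; exact hxR s hsR
  have hζR : ζ ∈ R := by
    rw [← hζ_def]
    exact mul_mem (mul_mem (mul_mem hsR htR) (inv_mem hsR)) (inv_mem htR)
  have hζc : ∀ c ∈ R, τ (ζ * c) = τ (c * ζ) := by
    intro c hc
    have := hcl0 s hsR t htR c hc
    rwa [hζ_def] at this
  have hgpow : ∀ n : ℕ, ∀ y ∈ R, g ^ n * y * (g ^ n)⁻¹ ∈ R := by
    intro n
    induction n with
    | zero => intro y hy; simpa using hy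
    | succ n ih =>
      intro y hy
      have := ih _ (hxR y hy)
      have h5 : g ^ (n + 1) * y * (g ^ (n + 1))⁻¹ = g ^ n * (g * y * g⁻¹) * (g ^ n)⁻¹ := by
        rw [pow_succ]; group
      rwa [h5]
  have h8 : g ^ 8 = 1 := D.hg
  have hf8 : f g ^ 8 = 1 := by rw [← map_pow, h8, map_one]
  -- the center
  have hx4ζ : Commute (f g ^ 4) (f ζ) := by
    have h1 : Commute (f g ^ 2) (f ζ) := by
      have := hfe _ _ hg20
      rw [map_mul, map_mul, map_pow] at this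
      exact this
    have h2 := h1.mul_left h1
    rwa [← pow_add] at h2
  let Γ : Subgroup (Module.End (ZMod 2) V)ˣ := R.map f
  have hΓm : ∀ a, a ∈ Γ ↔ ∃ c ∈ R, f c = a := fun a => Iff.rfl
  have hcard : Odd (Nat.card R) := by
    have : Fact r.Prime := ⟨hrp⟩
    obtain ⟨n, hn⟩ := IsPGroup.iff_card.1 D.core.hR
    rw [hn]
    exact (hrp.odd_of_ne_two hr2).pow
  have hcen1 : ∀ a ∈ Γ, (∀ y ∈ Γ, a * y = y * a) → ∃ k : ℕ, a = f ζ ^ k := by
    rintro a ⟨c, hc, rfl⟩ hcomm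
    obtain ⟨k, hk⟩ := hcen0 c hc (fun y hy => by
      have := hcomm (f y) ⟨y, hy, rfl⟩
      rw [← map_mul, ← map_mul] at this
      exact hfe' _ _ this)
    exact ⟨k, by rw [← map_pow]; exact hfe _ _ hk⟩
  have hclΓ : ∀ x ∈ Γ, ∀ y ∈ Γ, ∀ w ∈ Γ,
      (x * y * x⁻¹ * y⁻¹) * w = w * (x * y * x⁻¹ * y⁻¹) := by
    rintro x ⟨a, ha, rfl⟩ y ⟨b, hb, rfl⟩ w ⟨c, hc, rfl⟩
    have := hfe _ _ (hcl0 a ha b hb c hc)
    simpa only [map_mul, map_inv] using this
  have hfζr : f ζ ^ r = 1 := by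
    rw [← map_pow]
    have := hfe (ζ ^ r) 1 (by rw [map_one]; exact hζr0)
    rwa [map_one] at this
  have hinvΓ : ∀ a ∈ Γ, ∀ y ∈ Γ, (f g ^ 4 * a * (f g ^ 4)⁻¹ * a) * y =
      y * (f g ^ 4 * a * (f g ^ 4)⁻¹ * a) := by
    let C : Subgroup (Module.End (ZMod 2) V)ˣ := Subgroup.centralizer (Γ : Set _)
    have hCm : ∀ z, z ∈ C ↔ ∀ y ∈ Γ, y * z = z * y := fun z => Subgroup.mem_centralizer_iff
    have hconj : ∀ a ∈ Γ, f g ^ 4 * a * (f g ^ 4)⁻¹ ∈ Γ := by
      rintro a ⟨c, hc, rfl⟩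
      exact ⟨g ^ 4 * c * (g ^ 4)⁻¹, hgpow 4 c hc, by simp only [map_mul, map_inv, map_pow]⟩
    have hcomC : ∀ a ∈ Γ, ∀ b ∈ Γ, a * b * a⁻¹ * b⁻¹ ∈ C := by
      intro a ha b hb
      rw [hCm]
      intro y hy
      exact (hclΓ a ha b hb y hy).symm
    let T : Subgroup F :=
      { carrier := {c | f c ∈ Γ ∧ f g ^ 4 * f c * (f g ^ 4)⁻¹ * f c ∈ C}
        mul_mem' := by
          rintro a b ⟨ha, ha'⟩ ⟨hb, hb'⟩
          refine ⟨by rw [map_mul]; exact mul_mem ha hb, ?_⟩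
          have hb1 := hconj _ hb
          have ha1 := hconj _ ha
          have h1 := hcomC _ hb1 _ ha
          have h2 : f g ^ 4 * f (a * b) * (f g ^ 4)⁻¹ * f (a * b) =
              (f g ^ 4 * f a * (f g ^ 4)⁻¹) *
              ((f g ^ 4 * f b * (f g ^ 4)⁻¹) * f a * (f g ^ 4 * f b * (f g ^ 4)⁻¹)⁻¹ * (f a)⁻¹) *
              (f a * ((f g ^ 4 * f b * (f g ^ 4)⁻¹) * f b)) := by
            rw [map_mul]; group
          rw [h2, (hCm _).1 h1 _ ha1]
          have h3 : ((f g ^ 4 * f b * (f g ^ 4)⁻¹) * f a * (f g ^ 4 * f b * (f g ^ 4)⁻¹)⁻¹ *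
              (f a)⁻¹) * (f g ^ 4 * f a * (f g ^ 4)⁻¹) *
              (f a * ((f g ^ 4 * f b * (f g ^ 4)⁻¹) * f b)) =
              ((f g ^ 4 * f b * (f g ^ 4)⁻¹) * f a * (f g ^ 4 * f b * (f g ^ 4)⁻¹)⁻¹ *
              (f a)⁻¹) * ((f g ^ 4 * f a * (f g ^ 4)⁻¹) * f a) *
              ((f g ^ 4 * f b * (f g ^ 4)⁻¹) * f b) := by
            group
          rw [h3]
          exact mul_mem (mul_mem h1 ha') hb'
        one_mem' := by
          refine ⟨by rw [map_one]; exact one_mem _, ?_⟩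
          have : f g ^ 4 * f 1 * (f g ^ 4)⁻¹ * f 1 = 1 := by rw [map_one]; group
          rw [this]
          exact one_mem _
        inv_mem' := by
          rintro a ⟨ha, ha'⟩
          refine ⟨by rw [map_inv]; exact inv_mem ha, ?_⟩
          have ha1 := hconj _ ha
          have h1 := hcomC _ ha _ ha1
          have h2 : f g ^ 4 * f a⁻¹ * (f g ^ 4)⁻¹ * f a⁻¹ =
              ((f a * (f g ^ 4 * f a * (f g ^ 4)⁻¹) * (f a)⁻¹ *
                (f g ^ 4 * f a * (f g ^ 4)⁻¹)⁻¹) *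
                ((f g ^ 4 * f a * (f g ^ 4)⁻¹) * f a))⁻¹ := by
            rw [map_inv]; group
          rw [h2]
          exact inv_mem (mul_mem h1 ha') }
    have hRT : R ≤ T := by
      refine D.gen T ?_
      intro c hc hxc
      refine ⟨⟨c, hc, rfl⟩, ?_⟩
      have h1 : f g ^ 4 * f c * (f g ^ 4)⁻¹ * f c = 1 := by
        have : f (g ^ 4 * c * (g ^ 4)⁻¹) = f c⁻¹ := by rw [hxc]
        rw [map_mul, map_mul, map_inv, map_pow, map_inv] at this
        rw [this, inv_mul_cancel]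
      rw [h1]
      exact one_mem _
    rintro a ⟨c, hc, rfl⟩ y hy
    exact ((hCm _).1 (hRT hc).2 y hy).symm
  have hirrΓ : ∀ W : Submodule (ZMod 2) V,
      (∀ a ∈ Γ, ∀ w ∈ W, (a : Module.End (ZMod 2) V) w ∈ W) →
      (∀ w ∈ W, ((f g : (Module.End (ZMod 2) V)ˣ) : Module.End (ZMod 2) V) w ∈ W) →
      W = ⊥ ∨ W = ⊤ := by
    intro W h1 h2
    exact hirr0 W (fun w hw => h1 (f s) ⟨s, hsR, rfl⟩ w hw) h2
  have hX0 := zt_X0 Γ hcard (by
      rintro a ⟨c, hc, rfl⟩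
      have h1 : (⟨c, hc⟩ : R) ^ Nat.card R = 1 := pow_card_eq_one'
      have h2 : c ^ Nat.card R = 1 := by
        exact congrArg Subtype.val h1
      rw [← map_pow, h2, map_one]) (f g) hf8 (by
      rintro a ⟨c, hc, rfl⟩
      exact ⟨g * c * g⁻¹, hxR c hc, by simp only [map_mul, map_inv]⟩) (by
      intro a ha hac
      obtain ⟨k, rfl⟩ := hcen1 a ha hac
      exact hx4ζ.pow_right k) hinvΓ hclΓ (by
      intro a ha hac hane v hv
      obtain ⟨k, rfl⟩ := hcen1 a ha hac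
      have hkr : Nat.Coprime k r := by
        rw [Nat.coprime_comm, hrp.coprime_iff_not_dvd]
        rintro ⟨j, rfl⟩
        apply hane
        rw [pow_mul, hfζr, one_pow]
      obtain ⟨j, _, hj⟩ := Nat.exists_mul_mod_eq_one_of_coprime hkr hr1
      have h1 : (f ζ ^ k) ^ j = f ζ := by
        rw [← pow_mul]
        have h2 : k * j = k * j % r + r * (k * j / r) := (Nat.mod_add_div _ _).symm
        rw [h2, hj, pow_add, pow_mul, hfζr, one_pow, mul_one, pow_one]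
      have h3 : ∀ n : ℕ, ((((f ζ ^ k) ^ n : (Module.End (ZMod 2) V)ˣ)) :
          Module.End (ZMod 2) V) v = v := by
        intro n
        induction n with
        | zero => rw [pow_zero]; rfl
        | succ n ih =>
          rw [pow_succ, Units.val_mul, Module.End.mul_apply, hv, ih]
      have h4 := h3 j
      rw [h1] at h4
      exact hfix0 v h4) hirrΓ
  refine
    { hr := hr
      hs := ?_
      ht := ?_
      hζ := hfζr
      hst := ?_
      hζs := ?_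
      hζt := ?_
      hgs := ?_
      hgt := ?_
      hxs := ?_
      hx2 := hf8
      hfix := hfix0
      hxA := ?_
      irr := fun W h1 _ h3 => hirr0 W h1 h3
      hg2 := ?_
      hg7 := ?_
      hN := ?_ }
  · rw [← map_pow]
    have := hfe (s ^ r) 1 (by rw [map_one]; exact hsr)
    rwa [map_one] at this
  · have h1 : f s ^ r = 1 := by
      rw [← map_pow]
      have := hfe (s ^ r) 1 (by rw [map_one]; exact hsr)
      rwa [map_one] at this
    have h2 : f t = f g * f s * (f g)⁻¹ := by rw [← ht_def]; simp only [map_mul, map_inv]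
    rw [h2, conj_pow, h1]
    group
  · rw [← map_mul, ← map_mul, ← map_mul, ← hζ_def]
    congr 1
    group
  · rw [← map_mul, ← map_mul]
    exact hfe _ _ (hζc s hsR)
  · rw [← map_mul, ← map_mul]
    exact hfe _ _ (hζc t htR)
  · rw [← ht_def]; simp only [map_mul, map_inv]
  · have h1 : g * t * g⁻¹ ∈ R := hxR t htR
    have h2 : R ≤ (closure {f s, f t}).comap f := by
      refine hgen0 _ ?_ ?_ ?_
      · exact subset_closure (by simp)
      · exact subset_closure (by simp)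
      · intro c _ hc
        have h3 : f c = 1 := by
          have := hfe c 1 (by rw [map_one]; exact hc)
          rwa [map_one] at this
        rw [Subgroup.mem_comap, h3]
        exact one_mem _
    have h3 := h2 h1
    have h4 : f (g * t * g⁻¹) ∈ closure {f s, f t} := h3
    simpa only [map_mul, map_inv] using h4
  · rw [← map_pow, ← map_inv, ← map_inv, ← map_mul, ← map_mul, hxst]
  · intro W h1 h2 w hw
    refine hX0 W ?_ w hw
    rintro a ⟨c, hc, rfl⟩ w hw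
    exact hRinv W h1 h2 c hc w hw
  · rw [← map_pow, ← map_mul, ← map_mul]
    exact hfe _ _ hg20
  · intro h7
    rw [← map_mul, ← map_mul]
    exact hfe _ _ (hg70 h7)
  · rw [zlb_pow7]
    exact zb_norm hm hexp D M

end Pool.Agent.Lib.MP_544bd1_al
end
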