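import Mathlib
import Pool.Agent.Lib.MP_544bd1_al.ZsLftN
import Pool.Agent.Lib.MP_544bd1_al.ZsC0
import Pool.Agent.Lib.MP_544bd1_al.ZtDefs3
import Pool.Agent.Lib.MP_544bd1_al.EvD
import Pool.Agent.Lib.MP_544bd1_al.ZsMn
import Pool.Agent.Lib.MP_544bd1_al.ZtLinB
import Pool.Agent.Lib.MP_544bd1_al.ZsLp

section

/-!
General even exponents, section 2 (the base): representations of degree at most 4.
-/

namespace Pool.Agent.Lib.MP_544bd1_al

open Subgroup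

/-- **Odd `p`-subgroups of `GL_4(2)` are commutative.** Proof. `(Module.End (ZMod 2) Y)ˣ` is isomorphic to
`GL (Fin d) (ZMod 2)`, `d ≤ 4` (`2 ^ d = Nat.card Y ≤ 16`; a basis of `Y`; `LinearMap.toMatrixAlgEquiv`), of
order `∏ i : Fin d, (2 ^ d - 2 ^ i)` (`Matrix.card_GL_field`), which divides `20160 = 2 ^ 6 * 3 ^ 2 * 5 * 7`
(`d = 0, 1, 2, 3, 4`). The order `r ^ k` of `A` divides it, so `k ≤ 2` (`r` odd), and groups of order
`1, r, r ^ 2` are commutative (`IsPGroup.commutative_of_card_eq_prime_sq` or similar). -/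
theorem zs_gl4 {r : ℕ} (hr : r.Prime) (hr2 : r ≠ 2) {Y : Type} [AddCommGroup Y]
    [Module (ZMod 2) Y] [Finite Y] (hY : Nat.card Y ≤ 16)
    {A : Subgroup (Module.End (ZMod 2) Y)ˣ} (hA : IsPGroup r A) :
    ∀ b ∈ A, ∀ c ∈ A, b * c = c * b := by
  classical
  have hF2 : Fact (Nat.Prime 2) := ⟨Nat.prime_two⟩
  have hFr : Fact r.Prime := ⟨hr⟩
  have hfin : Module.Finite (ZMod 2) Y := Module.Finite.of_finite
  have hd : Module.finrank (ZMod 2) Y ≤ 4 := by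
    have h1 : Nat.card Y = 2 ^ Module.finrank (ZMod 2) Y := by
      rw [Module.natCard_eq_pow_finrank (K := ZMod 2), Nat.card_zmod]
    rw [h1] at hY
    exact (Nat.pow_le_pow_iff_right (by norm_num : 1 < 2)).1 (by simpa using hY)
  have hcard : Nat.card (Module.End (ZMod 2) Y)ˣ ∣ 20160 := by
    have e1 : (Module.End (ZMod 2) Y)ˣ ≃* GL (Fin (Module.finrank (ZMod 2) Y)) (ZMod 2) :=
      Units.mapEquiv
        (LinearMap.toMatrixAlgEquiv (Module.finBasis (ZMod 2) Y)).toRingEquiv.toMulEquiv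
    rw [Nat.card_congr e1.toEquiv, Matrix.card_GL_field, ZMod.card]
    generalize Module.finrank (ZMod 2) Y = d at hd
    interval_cases d <;> decide
  have hfE : Finite (Module.End (ZMod 2) Y) :=
    Finite.of_injective (fun f : Module.End (ZMod 2) Y => (f : Y → Y)) DFunLike.coe_injective
  have hfU : Finite (Module.End (ZMod 2) Y)ˣ :=
    Finite.of_injective (fun u : (Module.End (ZMod 2) Y)ˣ => (u : Module.End (ZMod 2) Y))
      Units.val_injective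
  have hfA : Finite A := Subtype.finite
  obtain ⟨k, hk⟩ := IsPGroup.iff_card.1 hA
  have hkd : r ^ k ∣ 20160 := by
    rw [← hk]
    exact (Subgroup.card_subgroup_dvd_card A).trans hcard
  have hk2 : k ≤ 2 := by
    by_contra h
    have h1 : r ^ 3 ∣ 20160 := (pow_dvd_pow r (by omega)).trans hkd
    have h2 : Nat.Coprime (r ^ 3) 64 := by
      have : Nat.Coprime r 2 := (Nat.coprime_primes hr Nat.prime_two).2 hr2
      exact (this.pow 3 6)
    have h3 : r ^ 3 ∣ 315 := h2.dvd_of_dvd_mul_left (by simpa using h1)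
    have h4 : r ≤ 6 := by
      by_contra h5
      have h6 : 7 ^ 3 ≤ r ^ 3 := Nat.pow_le_pow_left (by omega) 3
      have h7 := Nat.le_of_dvd (by norm_num) h3
      omega
    have h8 := hr.two_le
    interval_cases r <;> revert h3 <;> decide
  have hcomm : ∀ b c : A, b * c = c * b := by
    interval_cases k
    · have : Subsingleton A := by
        rw [pow_zero] at hk
        exact (Nat.card_eq_one_iff_unique.1 hk).1
      intro b c
      exact Subsingleton.elim _ _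
    · rw [pow_one] at hk
      have : IsCyclic A := isCyclic_of_prime_card hk
      intro b c
      exact IsCyclic.isMulCommutative.is_comm.comm b c
    · intro b c
      exact (IsPGroup.isMulCommutative_of_card_eq_prime_sq hk).is_comm.comm b c
  intro b hb c hc
  exact congrArg Subtype.val (hcomm ⟨b, hb⟩ ⟨c, hc⟩)

section RadChar

variable {F : Type} [Group F] {Q : Subgroup F} {p : ℕ} {X : Type} [AddCommGroup X]
  [Module (ZMod p) X]

private theorem zsb_comQ {c : F} (hc : c ∈ ⁅Q, Q⁆) : c ∈ Q :=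
  (Subgroup.commutator_le.2 fun _ ha _ hb =>
    Q.mul_mem (Q.mul_mem (Q.mul_mem ha hb) (Q.inv_mem ha)) (Q.inv_mem hb)) hc

/-- the kernel of the linear character -/
private def zsbL (ρ : Q →* Module.End (ZMod p) X) (N : Submodule (ZMod p) X) : Subgroup F where
  carrier := {c | c ∈ ⁅Q, Q⁆ ∧ ∃ h : c ∈ Q, ∀ x ∈ N, ρ ⟨c, h⟩ x = x}
  one_mem' := ⟨Subgroup.one_mem _, Q.one_mem, fun x _ => by
    have : (⟨1, Q.one_mem⟩ : Q) = 1 := rfl
    rw [this, map_one, Module.End.one_apply]⟩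
  mul_mem' := by
    rintro a b ⟨ha, ha', ha2⟩ ⟨hb, hb', hb2⟩
    refine ⟨Subgroup.mul_mem _ ha hb, Q.mul_mem ha' hb', fun x hx => ?_⟩
    have : (⟨a * b, Q.mul_mem ha' hb'⟩ : Q) = ⟨a, ha'⟩ * ⟨b, hb'⟩ := rfl
    rw [this, map_mul, Module.End.mul_apply, hb2 x hx, ha2 x hx]
  inv_mem' := by
    rintro a ⟨ha, ha', ha2⟩
    refine ⟨Subgroup.inv_mem _ ha, Q.inv_mem ha', fun x hx => ?_⟩
    have h1 : (⟨a⁻¹, Q.inv_mem ha'⟩ : Q) * ⟨a, ha'⟩ = 1 := by
      ext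
      exact inv_mul_cancel a
    have h2 : ρ ⟨a⁻¹, Q.inv_mem ha'⟩ (ρ ⟨a, ha'⟩ x) = x := by
      rw [← Module.End.mul_apply, ← map_mul, h1, map_one, Module.End.one_apply]
    rw [ha2 x hx] at h2
    exact h2

private theorem zsbL_mem (ρ : Q →* Module.End (ZMod p) X) (N : Submodule (ZMod p) X) {c : Q} :
    (c : F) ∈ zsbL ρ N ↔ (c : F) ∈ ⁅Q, Q⁆ ∧ ∀ x ∈ N, ρ c x = x :=
  ⟨fun h => ⟨h.1, h.2.2⟩, fun h => ⟨h.1, c.2, h.2⟩⟩

/-- the radical -/
private def zsbZ (hcl : ∀ c ∈ ⁅Q, Q⁆, ∀ y ∈ Q, c * y = y * c) (L : Subgroup F) (hL : L ≤ ⁅Q, Q⁆) :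
    Subgroup F where
  carrier := {q | q ∈ Q ∧ ∀ y ∈ Q, q * y * q⁻¹ * y⁻¹ ∈ L}
  one_mem' := ⟨Q.one_mem, fun y _ => by simp [L.one_mem]⟩
  mul_mem' := by
    rintro a b ⟨ha, ha2⟩ ⟨hb, hb2⟩
    refine ⟨Q.mul_mem ha hb, fun y hy => ?_⟩
    have h1 := hcl _ (hL (hb2 y hy)) a ha
    have h2 : a * b * y * (a * b)⁻¹ * y⁻¹ = (b * y * b⁻¹ * y⁻¹) * (a * y * a⁻¹ * y⁻¹) := by
      have h3 : a * b * y * (a * b)⁻¹ * y⁻¹ =
          (a * (b * y * b⁻¹ * y⁻¹)) * (y * a⁻¹ * y⁻¹) := by group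
      rw [h3, ← h1]
      group
    rw [h2]
    exact L.mul_mem (hb2 y hy) (ha2 y hy)
  inv_mem' := by
    rintro a ⟨ha, ha2⟩
    refine ⟨Q.inv_mem ha, fun y hy => ?_⟩
    have h1 := hcl _ (hL (ha2 y hy)) a ha
    have h2 : a⁻¹ * y * a⁻¹⁻¹ * y⁻¹ = (a * y * a⁻¹ * y⁻¹)⁻¹ := by
      have h3 : a⁻¹ * y * a⁻¹⁻¹ * y⁻¹ = a⁻¹ * (a * y * a⁻¹ * y⁻¹)⁻¹ * a := by group
      have h4 : (a * y * a⁻¹ * y⁻¹)⁻¹ * a = a * (a * y * a⁻¹ * y⁻¹)⁻¹ := by
        rw [inv_mul_eq_iff_eq_mul, ← mul_assoc, h1, mul_assoc, mul_inv_cancel, mul_one]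
      rw [h3, mul_assoc, h4, inv_mul_cancel_left]
    rw [h2]
    exact L.inv_mem (ha2 y hy)

/-- central involutions act as `1` or `-1` on a minimal invariant submodule -/
private theorem zsb_sign (hcl : ∀ c ∈ ⁅Q, Q⁆, ∀ y ∈ Q, c * y = y * c)
    (h2 : ∀ c ∈ ⁅Q, Q⁆, c ^ 2 = 1) (ρ : Q →* Module.End (ZMod p) X) {N : Submodule (ZMod p) X}
    (hN : Minimal (fun N : Submodule (ZMod p) X => N ≠ ⊥ ∧ ∀ q : Q, ∀ x ∈ N, ρ q x ∈ N) N)
    (c : Q) (hc : (c : F) ∈ ⁅Q, Q⁆) : (∀ x ∈ N, ρ c x = x) ∨ ∀ x ∈ N, ρ c x = -x := by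
  have hcc : ∀ x : X, ρ c (ρ c x) = x := by
    intro x
    have h3 : c * c = 1 := by
      ext
      have := h2 _ hc
      rw [pow_two] at this
      exact this
    rw [← Module.End.mul_apply, ← map_mul, h3, map_one, Module.End.one_apply]
  have hcq : ∀ (q : Q) (x : X), ρ c (ρ q x) = ρ q (ρ c x) := by
    intro q x
    have h3 : c * q = q * c := by
      ext
      exact hcl _ hc _ q.2
    rw [← Module.End.mul_apply, ← map_mul, h3, map_mul, Module.End.mul_apply]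
  let N' : Submodule (ZMod p) X :=
    { carrier := {x | x ∈ N ∧ ρ c x = x}
      zero_mem' := ⟨N.zero_mem, map_zero _⟩
      add_mem' := fun {a b} ha hb => ⟨N.add_mem ha.1 hb.1, by rw [map_add, ha.2, hb.2]⟩
      smul_mem' := fun t x hx => ⟨N.smul_mem t hx.1, by rw [map_smul, hx.2]⟩ }
  have hmem : ∀ x, x ∈ N' ↔ x ∈ N ∧ ρ c x = x := fun _ => Iff.rfl
  have hN'N : N' ≤ N := fun x hx => ((hmem x).1 hx).1
  by_cases h : N' = ⊥
  · right
    intro x hx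
    have h3 : ρ c x + x ∈ N' := by
      rw [hmem]
      refine ⟨N.add_mem (hN.1.2 c x hx) hx, ?_⟩
      rw [map_add, hcc, add_comm]
    rw [h, Submodule.mem_bot] at h3
    exact eq_neg_of_add_eq_zero_left h3
  · left
    have h3 : N ≤ N' := hN.2 ⟨h, fun q x hx => by
      rw [hmem] at hx ⊢
      exact ⟨hN.1.2 q x hx.1, by rw [hcq, hx.2]⟩⟩ hN'N
    exact fun x hx => ((hmem x).1 (h3 hx)).2

end RadChar

/-- **The radical of a character.** Let `Q` be a finite group with central commutators of order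
dividing 2, `X` a representation of `Q` over `ZMod p`, `p ≠ 2`, `Nat.card X ≤ p ^ 4`, `X ≠ 0`, in which the
element `f` of `⁅Q, Q⁆` is `-1`. Then there is a subgroup `L ≤ ⁅Q, Q⁆` (the kernel of a linear character of
`⁅Q, Q⁆`) not containing `f` such that the elements of `Q` whose commutators with all elements
of `Q` are in `L` form a subgroup `Z` of index at most 16.

Proof. Let `X₁` be a minimal nonzero `Q`-invariant submodule of `X` (finite), `σ y` the restriction of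
`ρ y` to `X₁`. For `c ∈ ⁅Q, Q⁆` (central, `c ^ 2 = 1`) `X₁ = ker (σ c - 1) ⊔ ker (σ c + 1)`, both
`Q`-invariant; so `σ c = 1` or `σ c = -1`. `L = {c ∈ ⁅Q, Q⁆ | σ c = 1}`; `f ∉ L` (`X₁ ≠ 0`, `p ≠ 2`). Let
`Z` be the set of the `q ∈ Q` with `q * y * q⁻¹ * y⁻¹ ∈ L` for all `y ∈ Q` (a subgroup, since the
commutators are central). If `q₁, ..., q_n ∈ Q` are in different cosets of `Z` then
`σ q₁, ..., σ q_n` are linearly independent over `ZMod p`: for `i ≠ j` there is `y ∈ Q` such that `y` anticommutes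
with exactly one of `σ q_i`, `σ q_j` (`q_i * q_j⁻¹ ∉ Z`; `σ (q * y * q⁻¹ * y⁻¹) = ± 1`); take a shortest nontrivial
relation `∑ a_i σ q_i = 0`, conjugate it with such a `σ y` and add or subtract: a shorter
nontrivial relation. (Or: the `σ q_i` are simultaneous eigenvectors for the conjugations by the elements
of `Q` with different characters.) So the index of `Z` is at most `dim (End X₁) = (dim X₁) ^ 2 ≤ 16`. -/
theorem zs_radchar {F : Type} [Group F] [Finite F] {Q : Subgroup F}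
    (hcl : ∀ c ∈ ⁅Q, Q⁆, ∀ y ∈ Q, c * y = y * c) (h2 : ∀ c ∈ ⁅Q, Q⁆, c ^ 2 = 1)
    {p : ℕ} (hp : p.Prime) (hp2 : p ≠ 2) {X : Type} [AddCommGroup X] [Module (ZMod p) X] [Finite X]
    (hX : Nat.card X ≤ p ^ 4) (hX0 : ∃ x : X, x ≠ 0) (ρ : Q →* Module.End (ZMod p) X)
    {f : F} (hf : f ∈ Q) (hfQ : f ∈ ⁅Q, Q⁆) (hρf : ρ ⟨f, hf⟩ = -1) :
    ∃ L Z : Subgroup F, L ≤ ⁅Q, Q⁆ ∧ f ∉ L ∧
      (∀ q, q ∈ Z ↔ q ∈ Q ∧ ∀ y ∈ Q, q * y * q⁻¹ * y⁻¹ ∈ L) ∧ Z.relIndex Q ≤ 16 := by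
  classical
  have hFp : Fact p.Prime := ⟨hp⟩
  have hXf : Module.Finite (ZMod p) X := Module.Finite.of_finite
  have hd : Module.finrank (ZMod p) X ≤ 4 := by
    have h1 : Nat.card X = p ^ Module.finrank (ZMod p) X := by
      rw [Module.natCard_eq_pow_finrank (K := ZMod p), Nat.card_zmod]
    rw [h1] at hX
    exact (Nat.pow_le_pow_iff_right hp.one_lt).1 hX
  obtain ⟨x0, hx0⟩ := hX0
  obtain ⟨N, hN⟩ := exists_minimal_of_wellFoundedLT
    (fun N : Submodule (ZMod p) X => N ≠ ⊥ ∧ ∀ q : Q, ∀ x ∈ N, ρ q x ∈ N)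
    ⟨⊤, fun h => hx0 (by
      have : x0 ∈ (⊤ : Submodule (ZMod p) X) := trivial
      rw [h, Submodule.mem_bot] at this
      exact this), fun _ _ _ => trivial⟩
  obtain ⟨x1, hx1, hx1'⟩ := (Submodule.ne_bot_iff N).1 hN.1.1
  have hneg : ∀ x : X, x ≠ 0 → -x ≠ x := by
    intro x hx h
    have h3 : (2 : ZMod p) • x = 0 := by
      rw [two_smul]
      nth_rewrite 1 [← h]
      exact neg_add_cancel x
    rcases smul_eq_zero.1 h3 with h4 | h4
    · have h5 : ((2 : ℕ) : ZMod p) = 0 := by exact_mod_cast h4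
      rw [ZMod.natCast_eq_zero_iff] at h5
      exact hp2 ((Nat.prime_dvd_prime_iff_eq hp Nat.prime_two).1 h5)
    · exact hx h4
  have hL : zsbL ρ N ≤ ⁅Q, Q⁆ := fun c hc => hc.1
  refine ⟨zsbL ρ N, zsbZ hcl (zsbL ρ N) hL, hL, ?_, fun q => Iff.rfl, ?_⟩
  · intro h
    have h3 := ((zsbL_mem ρ N (c := ⟨f, hf⟩)).1 h).2 x1 hx1
    rw [hρf, LinearMap.neg_apply, Module.End.one_apply] at h3
    exact hneg x1 hx1' h3
  · -- the sign of a central element
    let e : Q → ZMod p := fun c => if (c : F) ∈ zsbL ρ N then 1 else -1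
    have he : ∀ c : Q, (c : F) ∈ ⁅Q, Q⁆ → ∀ x ∈ N, ρ c x = e c • x := by
      intro c hc x hx
      by_cases h : (c : F) ∈ zsbL ρ N
      · simp only [e, if_pos h, one_smul]
        exact ((zsbL_mem ρ N).1 h).2 x hx
      · simp only [e, if_neg h, neg_smul, one_smul]
        rcases zsb_sign hcl h2 ρ hN c hc with h3 | h3
        · exact absurd ((zsbL_mem ρ N).2 ⟨hc, h3⟩) h
        · exact h3 x hx
    have he2 : ∀ a b : Q, e a ≠ e b → e a - e b ≠ 0 := fun a b h => sub_ne_zero.2 h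
    have h11 : (1 : ZMod p) ≠ -1 := by
      intro h
      have h3 : ((2 : ℕ) : ZMod p) = 0 := by
        push_cast
        have : (2 : ZMod p) = 1 + 1 := by norm_num
        rw [this]
        nth_rewrite 2 [h]
        exact add_neg_cancel 1
      rw [ZMod.natCast_eq_zero_iff] at h3
      exact hp2 ((Nat.prime_dvd_prime_iff_eq hp Nat.prime_two).1 h3)
    have hcm : ∀ a b : Q, ((a * b * a⁻¹ * b⁻¹ : Q) : F) ∈ ⁅Q, Q⁆ := fun a b =>
      Subgroup.commutator_mem_commutator a.2 b.2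
    -- the operators
    let T : Q → (N →ₗ[ZMod p] X) := fun q => (ρ q).comp N.subtype
    have hT0 : ∀ q, T q ≠ 0 := by
      intro q h
      have h3 : T q ⟨x1, hx1⟩ = 0 := by rw [h]; rfl
      have h4 : ρ q x1 = 0 := h3
      have h5 : ρ q⁻¹ (ρ q x1) = x1 := by
        rw [← Module.End.mul_apply, ← map_mul, inv_mul_cancel, map_one, Module.End.one_apply]
      rw [h4, map_zero] at h5
      exact hx1' h5.symm
    -- conjugation
    have hconj : ∀ (y q : Q) (x : X) (hx : x ∈ N),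
        ρ y (T q ⟨ρ y⁻¹ x, hN.1.2 _ x hx⟩) = e (y * q * y⁻¹ * q⁻¹) • T q ⟨x, hx⟩ := by
      intro y q x hx
      show ρ y (ρ q (ρ y⁻¹ x)) = e (y * q * y⁻¹ * q⁻¹) • ρ q x
      rw [← he _ (hcm y q) _ (hN.1.2 q x hx), ← Module.End.mul_apply, ← Module.End.mul_apply,
        ← Module.End.mul_apply, ← map_mul, ← map_mul, ← map_mul]
      congr 2
      group
    have hli : ∀ (ι : Type) (q : ι → Q)
        (hq : ∀ i j, i ≠ j → ∃ y : Q, e (y * q i * y⁻¹ * (q i)⁻¹) ≠ e (y * q j * y⁻¹ * (q j)⁻¹))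
        (s : Finset ι), ∀ g : ι → ZMod p, ∑ i ∈ s, g i • T (q i) = 0 → ∀ i ∈ s, g i = 0 := by
      intro ι q hq s
      induction s using Finset.strongInduction with
      | H s ih =>
        intro g hg i0 hi0
        by_cases hs : ∃ j ∈ s, j ≠ i0
        · obtain ⟨j, hj, hji⟩ := hs
          obtain ⟨y, hy⟩ := hq i0 j hji.symm
          let ep : ι → ZMod p := fun i => e (y * q i * y⁻¹ * (q i)⁻¹)
          have h3 : ∑ i ∈ s, (g i * ep i) • T (q i) = 0 := by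
            ext ⟨x, hx⟩
            have h4 : (∑ i ∈ s, g i • T (q i)) ⟨ρ y⁻¹ x, hN.1.2 _ x hx⟩ = 0 := by
              rw [hg]
              rfl
            have h5 := congrArg (ρ y) h4
            rw [LinearMap.sum_apply, map_sum, map_zero] at h5
            rw [LinearMap.sum_apply, LinearMap.zero_apply, ← h5]
            refine Finset.sum_congr rfl fun i _ => ?_
            rw [LinearMap.smul_apply, LinearMap.smul_apply, map_smul, hconj, smul_smul]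
          have h4 : ∑ i ∈ s.erase j, (g i * (ep i - ep j)) • T (q i) = 0 := by
            have h5 : ∑ i ∈ s, (g i * (ep i - ep j)) • T (q i) = 0 := by
              have h6 : ∀ i ∈ s, (g i * (ep i - ep j)) • T (q i) =
                  (g i * ep i) • T (q i) - ep j • (g i • T (q i)) := by
                intro i _
                rw [smul_smul, ← sub_smul]
                congr 1
                ring
              rw [Finset.sum_congr rfl h6, Finset.sum_sub_distrib, h3, ← Finset.smul_sum, hg,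
                smul_zero, sub_zero]
            rw [← Finset.add_sum_erase s _ hj, sub_self, mul_zero, zero_smul, zero_add] at h5
            exact h5
          have h5 := ih (s.erase j) (Finset.erase_ssubset hj) _ h4 i0
            (Finset.mem_erase.2 ⟨hji.symm, hi0⟩)
          exact (mul_eq_zero.1 h5).resolve_right (sub_ne_zero.2 hy)
        · push Not at hs
          have h3 : s = {i0} := Finset.eq_singleton_iff_unique_mem.2 ⟨hi0, hs⟩
          rw [h3, Finset.sum_singleton] at hg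
          exact (smul_eq_zero.1 hg).resolve_right (hT0 _)
    -- counting
    set Z := zsbZ hcl (zsbL ρ N) hL with hZ
    let Z' : Subgroup Q := Z.subgroupOf Q
    let q : (Q ⧸ Z') → Q := Quotient.out
    have hq : ∀ i j, i ≠ j →
        ∃ y : Q, e (y * q i * y⁻¹ * (q i)⁻¹) ≠ e (y * q j * y⁻¹ * (q j)⁻¹) := by
      intro i j hij
      by_contra hcon
      push Not at hcon
      refine hij ?_
      have h3 : (q i)⁻¹ * q j ∈ Z' := by
        rw [Subgroup.mem_subgroupOf]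
        refine ⟨((q i)⁻¹ * q j).2, fun y hy => ?_⟩
        have h4 := hcon ⟨y, hy⟩
        obtain ⟨u, hu⟩ : ∃ u : Q, u = ⟨y, hy⟩ * q i * (⟨y, hy⟩ : Q)⁻¹ * (q i)⁻¹ := ⟨_, rfl⟩
        obtain ⟨v, hv⟩ : ∃ v : Q, v = ⟨y, hy⟩ * q j * (⟨y, hy⟩ : Q)⁻¹ * (q j)⁻¹ := ⟨_, rfl⟩
        rw [← hu, ← hv] at h4
        have hu1 : (u : F) ∈ ⁅Q, Q⁆ := by rw [hu]; exact hcm _ _
        have hv1 : (v : F) ∈ ⁅Q, Q⁆ := by rw [hv]; exact hcm _ _
        have hv2 : (v : F) = (v : F)⁻¹ := by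
          have := h2 _ hv1
          rw [pow_two] at this
          exact eq_inv_of_mul_eq_one_left this
        have hw1 : ((v * u : Q) : F) ∈ ⁅Q, Q⁆ := Subgroup.mul_mem _ hv1 hu1
        have hee : e v * e u = 1 := by
          rw [← h4]
          by_cases h : (u : F) ∈ zsbL ρ N
          · simp only [e, if_pos h, mul_one]
          · simp only [e, if_neg h, mul_neg, mul_one, neg_neg]
        have hw : ((v * u : Q) : F) ∈ zsbL ρ N := by
          rw [zsbL_mem]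
          refine ⟨hw1, fun x hx => ?_⟩
          rw [map_mul, Module.End.mul_apply, he u hu1 x hx, map_smul, he v hv1 x hx, smul_smul,
            mul_comm, hee, one_smul]
        have h6 : ((((q i)⁻¹ * q j : Q) : F) * y * (((q i)⁻¹ * q j : Q) : F)⁻¹ * y⁻¹) =
            ((q i : Q) : F)⁻¹ * ((v : F) * (u : F)) * (q i : Q) := by
          rw [hv2, hu, hv]
          push_cast
          group
        have h7 := hcl _ hw1 (q i : Q) (q i).2
        have h8 : ((v * u : Q) : F) = (v : F) * (u : F) := rfl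
        rw [h8] at h7
        rw [h6, mul_assoc, h7, inv_mul_cancel_left, ← h8]
        exact hw
      have h4 : (QuotientGroup.mk (q i) : Q ⧸ Z') = QuotientGroup.mk (q j) :=
        QuotientGroup.eq.2 h3
      have h5 : ∀ i : Q ⧸ Z', (QuotientGroup.mk (q i) : Q ⧸ Z') = i := fun i =>
        QuotientGroup.out_eq' i
      rw [h5, h5] at h4
      exact h4
    have hind : LinearIndependent (ZMod p) (fun i => T (q i)) :=
      linearIndependent_iff'.2 fun s g hg => hli _ q hq s g hg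
    have hfin : Finite (Q ⧸ Z') := inferInstance
    have := Fintype.ofFinite (Q ⧸ Z')
    have h3 := hind.fintype_card_le_finrank
    rw [Module.finrank_linearMap] at h3
    have h4 : Module.finrank (ZMod p) N ≤ 4 := (Submodule.finrank_le N).trans hd
    have h5 : Fintype.card (Q ⧸ Z') ≤ 16 := h3.trans (Nat.mul_le_mul h4 hd)
    rw [← Nat.card_eq_fintype_card] at h5
    exact h5

end Pool.Agent.Lib.MP_544bd1_al
end

section

/-!
General even exponents, section 2 (the base): elements over `C_V(x)` commute with `x`.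
-/

namespace Pool.Agent.Lib.MP_544bd1_al

open Subgroup

/-- **The homomorphism `κ`** (compare `zt_kap`, ZtB3.lean). Let `x = g ^ (2 ^ (a - 1))` centralize the
elements of `Q` in the kernel of `φ`.

Proof. For `p ∈ Q` with `τ x (φ p) = φ p` let `k p = x * p * x⁻¹ * p⁻¹ ∈ Q`; `φ (k p) = 0`, so `k p`
commutes with `Q`, `R` (`M.ker`) and `x` (`hx`). `k (p * p') = x * p * x⁻¹ * (x * p' * x⁻¹ * p'⁻¹) * p⁻¹ =
k p * k p'`. If `φ p = φ p'` then `p' = p * c`, `φ c = 0`, `k p' = k p` (`x`, `c` commute). `(k p) ^ 2 = 1`: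
`x ^ 2 = 1` (`D.hg`), `p = x * (x * p * x⁻¹) * x⁻¹ = x * (k p * p) * x⁻¹ = k p * k p * p`.
Let `K = Additive Z`, `Z` the (commutative) subgroup of `Q` of the elements `c` with `φ c = 0`, and
`f : V → K`, `f v = k p` for `v ∈ U := {v | τ x v = v}` and a chosen `p` with `φ p = v`. For a commutator
`c₀ = b * c * b⁻¹ * c⁻¹`, `b, c ∈ R`, by `zsb_lift'` (`f := τ.toHomUnits`, `S.cx`) there is `ζ ∈ R` with
`τ ζ = τ c₀`, `x * ζ = ζ * x`; `k (ζ * p * ζ⁻¹) = ζ * k p * ζ⁻¹ = k p`, so `f (τ c₀ v) = f v`. `zs_av`: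
`f = 0` on `U`. -/
theorem zs_kap {F : Type} [Group F] [Finite F] {r a : ℕ} (ha : 0 < a) (hr : r.Prime) (hr2 : r ≠ 2)
    {Q R : Subgroup F} [Q.Normal] {g s : F} (D : ZsMin r a Q R g) {V : Type} [AddCommGroup V]
    [Module (ZMod 2) V] [Finite V] {τ : F →* Module.End (ZMod 2) V} {φ : Q → V}
    (M : ZMd Q R τ φ) (S : ZsRb r a R g s τ)
    (hx : ∀ q : Q, φ q = 0 → g ^ (2 ^ (a - 1)) * (q : F) = q * g ^ (2 ^ (a - 1))) :
    ∀ p : Q, τ (g ^ (2 ^ (a - 1))) (φ p) = φ p →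
      g ^ (2 ^ (a - 1)) * (p : F) = p * g ^ (2 ^ (a - 1)) := by
  classical
  have hQn : Q.Normal := inferInstance
  obtain ⟨x, hxdef⟩ : ∃ x : F, x = g ^ (2 ^ (a - 1)) := ⟨_, rfl⟩
  have hxx : x * x = 1 := by
    rw [hxdef, ← pow_add, ← two_mul, ← pow_succ', Nat.sub_add_cancel ha]
    exact D.hg
  have hlift := fun (s₁ : F) (hs₁ : s₁ ∈ R) => zsb_lift' ha hr hr2 D τ.toHomUnits hs₁
  have hcx := S.cx
  rw [← hxdef] at hx ⊢
  simp only [← hxdef] at hlift hcx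
  have φ1 : φ 1 = 0 := by
    have h1 := M.add 1 1
    rw [mul_one] at h1
    exact left_eq_add.1 h1
  have φinv : ∀ b : Q, φ b⁻¹ = - φ b := by
    intro b
    have h1 := M.add b b⁻¹
    rw [mul_inv_cancel, φ1] at h1
    exact (neg_eq_of_add_eq_zero_right h1.symm).symm
  let k : Q → Q := fun p => ⟨x * p * x⁻¹, hQn.conj_mem _ p.2 x⟩ * p⁻¹
  have kval : ∀ p : Q, ((k p : Q) : F) = x * p * x⁻¹ * (p : F)⁻¹ := fun p => rfl
  have hk : ∀ p : Q, τ x (φ p) = φ p → φ (k p) = 0 := by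
    intro p hp
    show φ (⟨x * p * x⁻¹, hQn.conj_mem _ p.2 x⟩ * p⁻¹) = 0
    rw [M.add, φinv, M.eqv, hp, add_neg_cancel]
  have kwd : ∀ p p' : Q, φ p = φ p' → k p' = k p := by
    intro p p' h
    have hc : φ (p⁻¹ * p') = 0 := by rw [M.add, φinv, h, neg_add_cancel]
    have hxc := hx _ hc
    obtain ⟨c, hcdef⟩ : ∃ c : F, c = ((p⁻¹ * p' : Q) : F) := ⟨_, rfl⟩
    rw [← hcdef] at hxc
    have hp' : (p' : F) = p * c := by
      rw [hcdef]
      show (p' : F) = p * ((p : F)⁻¹ * p')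
      group
    have h3 : c * x⁻¹ = x⁻¹ * c := by
      calc c * x⁻¹ = x⁻¹ * (x * c) * x⁻¹ := by group
        _ = x⁻¹ * (c * x) * x⁻¹ := by rw [hxc]
        _ = x⁻¹ * c := by group
    apply Subtype.ext
    rw [kval, kval, hp']
    calc x * ((p : F) * c) * x⁻¹ * ((p : F) * c)⁻¹ = x * p * (c * x⁻¹) * c⁻¹ * (p : F)⁻¹ := by group
      _ = x * p * (x⁻¹ * c) * c⁻¹ * (p : F)⁻¹ := by rw [h3]
      _ = x * p * x⁻¹ * (p : F)⁻¹ := by group
  have kmul : ∀ p p' : Q, φ (k p') = 0 → k (p * p') = k p * k p' := by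
    intro p p' h
    have h1 : ((k p' : Q) : F) * ((p : F)⁻¹) = (p : F)⁻¹ * k p' :=
      (M.ker _ h).2 _ (Q.inv_mem p.2)
    apply Subtype.ext
    calc ((k (p * p') : Q) : F) = x * ((p : F) * p') * x⁻¹ * ((p : F) * p')⁻¹ := rfl
      _ = x * p * x⁻¹ * ((x * p' * x⁻¹ * (p' : F)⁻¹) * (p : F)⁻¹) := by group
      _ = x * p * x⁻¹ * (((k p' : Q) : F) * (p : F)⁻¹) := rfl
      _ = x * p * x⁻¹ * ((p : F)⁻¹ * k p') := by rw [h1]
      _ = (x * p * x⁻¹ * (p : F)⁻¹) * k p' := by group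
      _ = ((k p * k p' : Q) : F) := rfl
  have ksq : ∀ p : Q, φ (k p) = 0 → k p * k p = 1 := by
    intro p h
    have h1 : x * ((k p : Q) : F) = k p * x := hx _ h
    have h2 : x * (p : F) * x⁻¹ = k p * p := by
      rw [kval]
      group
    apply Subtype.ext
    show ((k p : Q) : F) * k p = 1
    have h3 : (p : F) = k p * k p * p := by
      calc (p : F) = (x * x) * p * (x * x)⁻¹ := by rw [hxx]; group
        _ = x * (x * p * x⁻¹) * x⁻¹ := by group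
        _ = (x * k p) * p * x⁻¹ := by rw [h2]; group
        _ = k p * (x * p * x⁻¹) := by rw [h1]; group
        _ = k p * k p * p := by rw [h2]; group
    exact (mul_eq_right.1 h3.symm)
  let Z : Subgroup Q :=
    { carrier := {c | φ c = 0}
      one_mem' := φ1
      mul_mem' := fun {b c} hb hc => by
        show φ (b * c) = 0
        rw [M.add, show φ b = 0 from hb, show φ c = 0 from hc, add_zero]
      inv_mem' := fun {b} hb => by
        show φ b⁻¹ = 0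
        rw [φinv, show φ b = 0 from hb, neg_zero] }
  letI : CommGroup Z :=
    { (inferInstance : Group Z) with
      mul_comm := fun b c => by
        apply Subtype.ext
        apply Subtype.ext
        exact (M.ker _ b.2).2 _ c.1.2 }
  let U : AddSubgroup V :=
    { carrier := {v | τ x v = v}
      zero_mem' := map_zero _
      add_mem' := fun {v w} hv hw => by
        show τ x (v + w) = v + w
        rw [map_add, show τ x v = v from hv, show τ x w = w from hw]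
      neg_mem' := fun {v} hv => by
        show τ x (-v) = -v
        rw [map_neg, show τ x v = v from hv] }
  choose pr hpr using M.surj
  have hkU : ∀ v ∈ U, φ (k (pr v)) = 0 := fun v hv => hk _ (by rw [hpr]; exact hv)
  let f : V → Additive Z := fun v => if h : v ∈ U then Additive.ofMul ⟨k (pr v), hkU v h⟩ else 0
  have fval : ∀ v (hv : v ∈ U), f v = Additive.ofMul ⟨k (pr v), hkU v hv⟩ := fun v hv => dif_pos hv
  have hU : ∀ b ∈ R, ∀ c ∈ R, ∀ v ∈ U, τ (b * c * b⁻¹ * c⁻¹) v ∈ U := by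
    intro b hb c hc v hv
    show τ x (τ (b * c * b⁻¹ * c⁻¹) v) = τ (b * c * b⁻¹ * c⁻¹) v
    have h1 := hcx b hb c hc
    rw [map_mul τ x, map_mul τ (b * c * b⁻¹ * c⁻¹) x] at h1
    have h2 : (τ x * τ (b * c * b⁻¹ * c⁻¹)) v = (τ (b * c * b⁻¹ * c⁻¹) * τ x) v := by rw [h1]
    rw [Module.End.mul_apply, Module.End.mul_apply, show τ x v = v from hv] at h2
    exact h2
  have h0 : ∀ v ∈ U, f v = 0 := by
    refine zs_av hr hr2 D.core.hR S U hU f ?_ ?_ ?_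
    · intro v hv
      rw [fval v hv, ← ofMul_mul, ← ofMul_one]
      congr 1
      apply Subtype.ext
      exact ksq _ (hkU v hv)
    · intro v hv w hw
      rw [fval v hv, fval w hw, fval _ (U.add_mem hv hw), ← ofMul_mul]
      congr 1
      apply Subtype.ext
      show k (pr (v + w)) = k (pr v) * k (pr w)
      rw [← kmul _ _ (hkU w hw)]
      apply kwd
      rw [M.add, hpr, hpr, hpr]
    · intro b hb c hc v hv
      rw [fval v hv, fval _ (hU b hb c hc v hv)]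
      congr 1
      apply Subtype.ext
      show k (pr (τ (b * c * b⁻¹ * c⁻¹) v)) = k (pr v)
      have hcR : b * c * b⁻¹ * c⁻¹ ∈ R :=
        R.mul_mem (R.mul_mem (R.mul_mem hb hc) (R.inv_mem hb)) (R.inv_mem hc)
      obtain ⟨ζ, hζR, hζ, hζx⟩ := hlift _ hcR (Units.ext (hcx b hb c hc))
      have hτζ : τ ζ = τ (b * c * b⁻¹ * c⁻¹) := congrArg Units.val hζ
      rw [← hτζ]
      have h1 : k ⟨ζ * pr v * ζ⁻¹, hQn.conj_mem _ (pr v).2 ζ⟩ = k (pr v) := by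
        apply Subtype.ext
        have e2 : ζ⁻¹ * x⁻¹ = x⁻¹ * ζ⁻¹ := by rw [← mul_inv_rev, ← mul_inv_rev, hζx]
        have e3 : ζ * ((k (pr v) : Q) : F) = k (pr v) * ζ := (M.ker _ (hkU v hv)).1 ζ hζR
        calc ((k ⟨ζ * pr v * ζ⁻¹, hQn.conj_mem _ (pr v).2 ζ⟩ : Q) : F)
            = x * (ζ * pr v * ζ⁻¹) * x⁻¹ * (ζ * pr v * ζ⁻¹)⁻¹ := rfl
          _ = (x * ζ) * pr v * (ζ⁻¹ * x⁻¹) * (ζ * (pr v : F)⁻¹ * ζ⁻¹) := by group
          _ = (ζ * x) * pr v * (x⁻¹ * ζ⁻¹) * (ζ * (pr v : F)⁻¹ * ζ⁻¹) := by rw [hζx, e2]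
          _ = ζ * (x * pr v * x⁻¹ * (pr v : F)⁻¹) * ζ⁻¹ := by group
          _ = (ζ * ((k (pr v) : Q) : F)) * ζ⁻¹ := rfl
          _ = k (pr v) := by rw [e3]; group
      rw [← h1]
      apply kwd
      rw [M.eqv, hpr, hpr]
  intro p hp
  have h1 := h0 (φ p) hp
  rw [fval _ hp, ← ofMul_one] at h1
  have h2 : k (pr (φ p)) = 1 := congrArg (fun z : Z => (z : Q)) (Additive.ofMul.injective h1)
  rw [kwd p _ (hpr _).symm] at h2
  have h3 : x * (p : F) * x⁻¹ * (p : F)⁻¹ = 1 := congrArg Subtype.val h2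
  rw [mul_inv_eq_one, mul_inv_eq_iff_eq_mul] at h3
  exact h3

end Pool.Agent.Lib.MP_544bd1_al
end

section

/-!
General even exponents, the base: minimal configurations.
-/

namespace Pool.Agent.Lib.MP_544bd1_al

open Subgroup

theorem zsBmin_sq {F : Type} [Group F] {r : ℕ} (hr : r.Prime) (hr2 : r ≠ 2)
    {R : Subgroup F} (hR : IsPGroup r R) {s : F} (hs : s ∈ R) {q : F}
    (h : s⁻¹ * s⁻¹ * q = q * (s⁻¹ * s⁻¹)) : s * q = q * s := by
  obtain ⟨k, hk⟩ := hR ⟨s, hs⟩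
  have hk' : s ^ (r ^ k) = 1 := congrArg Subtype.val hk
  obtain ⟨j, hj⟩ : Odd (r ^ k) := (hr.odd_of_ne_two hr2).pow
  have h1 : s = (s⁻¹ * s⁻¹) ^ j := by
    have h2 : (s⁻¹ * s⁻¹) ^ j = (s ^ (2 * j))⁻¹ := by
      rw [← mul_inv_rev, inv_pow, ← pow_two, ← pow_mul]
    rw [h2]
    rw [hj, pow_succ] at hk'
    exact eq_inv_of_mul_eq_one_right hk'
  have h3 : Commute (s⁻¹ * s⁻¹) q := h
  have h4 := (h3.pow_left j).eq
  rwa [← h1] at h4

private theorem zsBmin_conj {F : Type} [Group F] {P R : Subgroup F}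
    (hRP : ∀ g ∈ R, ∀ q ∈ P, g * q * g⁻¹ ∈ P) {s c : F} (hs : s ∈ R)
    (h : ∀ q ∈ P, c * q = q * c) : ∀ q ∈ P, s * c * s⁻¹ * q = q * (s * c * s⁻¹) := by
  intro q hq
  have h1 : s⁻¹ * q * s ∈ P := by
    have := hRP s⁻¹ (R.inv_mem hs) q hq
    rwa [inv_inv] at this
  calc s * c * s⁻¹ * q = s * (c * (s⁻¹ * q * s)) * s⁻¹ := by group
    _ = s * ((s⁻¹ * q * s) * c) * s⁻¹ := by rw [h _ h1]
    _ = q * (s * c * s⁻¹) := by group

private theorem zsBmin_norm {F : Type} [Group F] [Finite F] {g : F} {K : Subgroup F}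
    (h : ∀ x ∈ K, g * x * g⁻¹ ∈ K) : g ∈ normalizer (K : Set F) := mem_normalizer_fintype h

private theorem zsBmin_pow {F : Type} [Group F] {w : F} {K : Subgroup F}
    (h : ∀ x ∈ K, w * x * w⁻¹ ∈ K) : ∀ n : ℕ, ∀ x ∈ K, w ^ n * x * (w ^ n)⁻¹ ∈ K := by
  intro n
  induction n with
  | zero => intro x hx; simpa using hx
  | succ n ih =>
    intro x hx
    have := h _ (ih x hx)
    rwa [show w * (w ^ n * x * (w ^ n)⁻¹) * w⁻¹ = w ^ (n + 1) * x * (w ^ (n + 1))⁻¹ by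
      rw [pow_succ']; group] at this

/-- **Minimal configurations.** The hypotheses are the output of `ev_config`.

Proof. Compare `ev_min` (EvD.lean) and `zt_hon2` (ZtHon2.lean). Let `x = w ^ (2 ^ (a - 1))`, `x ^ 2 = 1`.
(1) Among the subgroups `R₀ ≤ R` with `∀ s ∈ R₀, w * s * w⁻¹ ∈ R₀` and
`∃ s ∈ R₀, ∃ q ∈ P, x * s * x⁻¹ * s⁻¹ * q ≠ q * (x * s * x⁻¹ * s⁻¹)` choose a minimal one (well-founded `<`,
as in the proof of `zt_minA`, ZtMin.lean): `R` is one of them: for `s := i` the element is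
`i⁻¹ * i⁻¹ = (i ^ 2)⁻¹`, and `i` is a power of `i ^ 2` (`i ^ (r ^ k) = 1`, `r` odd; `hr2`), so if `i ^ 2`
commuted with all `q ∈ P`, so would `i`.
(2) `gen`: let `S₀ = closure {s | s ∈ R₀ ∧ x * s * x⁻¹ = s⁻¹} ≤ R₀`; it is normalized by `w` (`w`
commutes with `x`). If `S₀ ≠ R₀` then by minimality `x * s * x⁻¹ * s⁻¹` centralizes `P` for `s ∈ S₀`.
For `s ∈ R₀` let `s' = s⁻¹ * (x * s * x⁻¹)`; `x * s' * x⁻¹ = s'⁻¹` (`x ^ 2 = 1`; `s' ∈ R₀`, because
`x = w ^ (2 ^ (a - 1))`), so `s' ∈ S₀` and `x * s' * x⁻¹ * s'⁻¹ = (s' ^ 2)⁻¹` centralizes `P`, so `s'` does (a power of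
`s' ^ 2`), and `x * s * x⁻¹ * s⁻¹ = s * s' * s⁻¹` centralizes `P` (`s` normalizes `P`; `s⁻¹ ∈ R` too) for
all `s ∈ R₀`: contradiction. So if `S` is a subgroup containing the elements of `R₀` inverted by `x`
then `R₀ = S₀ ≤ S`.
(3) Among the subgroups `Q₀ ≤ P` which are normalized by `R₀` and `w` and not centralized by `R₀`
choose a minimal one (`P` is one: `x * s * x⁻¹ * s⁻¹ ∈ R₀` does not centralize `P`). Let
`F₁ = normalizer Q₀`, `Q = Q₀.subgroupOf F₁` (normal), `R₁ = R₀.subgroupOf F₁`, `g = ⟨w, _⟩`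
(`zthon2_norm`-type argument: in a finite group `w * q * w⁻¹ ∈ Q₀` for all `q ∈ Q₀` implies
`w ∈ normalizer Q₀`). `core`, `hg`, `gen`, `minR` follow by taking images under the inclusion of `F₁`:
for `minR` let `R₁' ≤ R₁`, `≠ R₁`, be normalized by `g`; its image in `F` is `≤ R₀`, `≠ R₀`, normalized
by `w`, so by (1) `x * s * x⁻¹ * s⁻¹` centralizes `P ≥ Q₀` for all its elements `s`. -/
theorem zs_min {F : Type} [Group F] [Finite F] {r a : ℕ} (ha : 0 < a) (hr : r.Prime) (hr2 : r ≠ 2)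
    (P R : Subgroup F) (w : F)
    (hP : ∀ q ∈ P, q ^ (2 ^ a) = 1) (hR : IsPGroup r R) (hw : w ^ (2 ^ a) = 1)
    (hwR : ∀ g ∈ R, w * g * w⁻¹ ∈ R) (hwP : ∀ q ∈ P, w * q * w⁻¹ ∈ P)
    (hRP : ∀ g ∈ R, ∀ q ∈ P, g * q * g⁻¹ ∈ P)
    (h : ∃ i ∈ R, w ^ (2 ^ (a - 1)) * i * (w ^ (2 ^ (a - 1)))⁻¹ = i⁻¹ ∧ ∃ q ∈ P, i * q ≠ q * i) :
    ∃ (F₁ : Subgroup F) (Q R₁ : Subgroup F₁) (g : F₁), Q.Normal ∧ ZsMin r a Q R₁ g := by
  obtain ⟨i, hiR, hix, q₀, hq₀P, hq₀⟩ := h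
  set x : F := w ^ (2 ^ (a - 1)) with hx
  have hxx : x * x = 1 := by 
    rw [hx, ← pow_add, ← two_mul, ← pow_succ', Nat.sub_add_cancel ha]; exact hw
  have hxi : x⁻¹ = x := inv_eq_of_mul_eq_one_left hxx
  have hcx : w * x = x * w := by rw [hx, ← pow_succ', ← pow_succ]
  let T : Set (Subgroup F) := {R' | R' ≤ R ∧ (∀ s ∈ R', w * s * w⁻¹ ∈ R') ∧
    ∃ s ∈ R', ∃ q ∈ P, x * s * x⁻¹ * s⁻¹ * q ≠ q * (x * s * x⁻¹ * s⁻¹)}
  have hRT : R ∈ T := by
    refine ⟨le_rfl, hwR, i, hiR, q₀, hq₀P, fun h => hq₀ ?_⟩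
    rw [hix] at h
    exact zsBmin_sq hr hr2 hR hiR h
  obtain ⟨R₀, ⟨hR₀R, hwR₀, s₁, hs₁, q₁, hq₁, hne₁⟩, hmin₁⟩ :=
    (wellFounded_lt (α := Subgroup F)).has_min T ⟨R, hRT⟩
  -- minimality
  have hminR : ∀ R' : Subgroup F, R' ≤ R₀ → R' ≠ R₀ → (∀ s ∈ R', w * s * w⁻¹ ∈ R') →
      ∀ s ∈ R', ∀ q ∈ P, x * s * x⁻¹ * s⁻¹ * q = q * (x * s * x⁻¹ * s⁻¹) := by
    intro R' h1 h2 h3 s hs q hq
    by_contra hcon
    exact hmin₁ R' ⟨h1.trans hR₀R, h3, s, hs, q, hq, hcon⟩ (lt_of_le_of_ne h1 h2)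
  have hxR₀ : ∀ s ∈ R₀, x * s * x⁻¹ ∈ R₀ := zsBmin_pow hwR₀ (2 ^ (a - 1))
  -- generation
  have hgen : ∀ S : Subgroup F, (∀ s ∈ R₀, x * s * x⁻¹ = s⁻¹ → s ∈ S) → R₀ ≤ S := by
    intro S hS
    let G : Set F := {g | g ∈ R₀ ∧ x * g * x⁻¹ = g⁻¹}
    let S₀ : Subgroup F := closure G
    have hS₀ : S₀ ≤ R₀ := (closure_le R₀).2 fun g hg => hg.1
    have hS₀S : S₀ ≤ S := (closure_le S).2 fun g hg => hS g hg.1 hg.2
    have hwS₀ : ∀ g ∈ S₀, w * g * w⁻¹ ∈ S₀ := by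
      intro g hg
      have h1 : S₀ ≤ S₀.comap (MulAut.conj w).toMonoidHom := by
        refine (closure_le _).2 fun y hy => ?_
        refine subset_closure (k := G) ⟨hwR₀ y hy.1, ?_⟩
        have e1 : x * (w * y * w⁻¹) * x⁻¹ = w * (x * y * x⁻¹) * w⁻¹ := by
          have e2 : x * w = w * x := hcx.symm
          have e3 : w⁻¹ * x⁻¹ = x⁻¹ * w⁻¹ := by rw [← mul_inv_rev, ← mul_inv_rev, hcx]
          calc x * (w * y * w⁻¹) * x⁻¹ = (x * w) * y * (w⁻¹ * x⁻¹) := by group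
            _ = (w * x) * y * (x⁻¹ * w⁻¹) := by rw [e2, e3]
            _ = w * (x * y * x⁻¹) * w⁻¹ := by group
        show x * (w * y * w⁻¹) * x⁻¹ = (w * y * w⁻¹)⁻¹
        rw [e1, hy.2]
        group
      exact h1 hg
    by_cases hS₀R : S₀ = R₀
    · rw [← hS₀R]; exact hS₀S
    exfalso
    have h1 := hminR S₀ hS₀ hS₀R hwS₀
    apply hne₁
    have h2 : s₁⁻¹ * (x * s₁ * x⁻¹) ∈ R₀ := R₀.mul_mem (R₀.inv_mem hs₁) (hxR₀ s₁ hs₁)
    have h3 : x * (s₁⁻¹ * (x * s₁ * x⁻¹)) * x⁻¹ = (s₁⁻¹ * (x * s₁ * x⁻¹))⁻¹ := by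
      calc x * (s₁⁻¹ * (x * s₁ * x⁻¹)) * x⁻¹ = x * s₁⁻¹ * (x * s₁ * (x * x)⁻¹) := by group
        _ = x * s₁⁻¹ * (x⁻¹ * s₁) := by rw [hxx, inv_one, mul_one, hxi]
        _ = (s₁⁻¹ * (x * s₁ * x⁻¹))⁻¹ := by group
    have h4 : s₁⁻¹ * (x * s₁ * x⁻¹) ∈ S₀ := subset_closure (k := G) ⟨h2, h3⟩
    have h5 : ∀ q ∈ P, s₁⁻¹ * (x * s₁ * x⁻¹) * q = q * (s₁⁻¹ * (x * s₁ * x⁻¹)) := by
      intro q hq
      have h6 := h1 _ h4 q hq
      rw [h3] at h6
      exact zsBmin_sq hr hr2 hR (hR₀R h2) h6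
    have h7 := zsBmin_conj hRP (hR₀R hs₁) h5 q₁ hq₁
    have h8 : s₁ * (s₁⁻¹ * (x * s₁ * x⁻¹)) * s₁⁻¹ = x * s₁ * x⁻¹ * s₁⁻¹ := by group
    rwa [h8] at h7
  -- the subgroup Q₀
  let T' : Set (Subgroup F) := {Q' | Q' ≤ P ∧ (∀ g ∈ R₀, ∀ q ∈ Q', g * q * g⁻¹ ∈ Q') ∧
    (∀ q ∈ Q', w * q * w⁻¹ ∈ Q') ∧ ∃ g ∈ R₀, ∃ q ∈ Q', g * q ≠ q * g}
  have hPT : P ∈ T' := ⟨le_rfl, fun g hg => hRP g (hR₀R hg), hwP, x * s₁ * x⁻¹ * s₁⁻¹,
    R₀.mul_mem (hxR₀ s₁ hs₁) (R₀.inv_mem hs₁), q₁, hq₁, hne₁⟩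
  obtain ⟨Q₀, ⟨hQP, hQR, hQw, g₂, hg₂, q₂, hq₂, hne⟩, hmin⟩ :=
    (wellFounded_lt (α := Subgroup F)).has_min T' ⟨P, hPT⟩
  have hR₀F : R₀ ≤ normalizer (Q₀ : Set F) := fun g hg => zsBmin_norm (hQR g hg)
  have hwF : w ∈ normalizer (Q₀ : Set F) := zsBmin_norm hQw
  have hQF : Q₀ ≤ normalizer (Q₀ : Set F) := le_normalizer
  refine ⟨normalizer (Q₀ : Set F), Q₀.subgroupOf (normalizer (Q₀ : Set F)),
    R₀.subgroupOf (normalizer (Q₀ : Set F)), ⟨w, hwF⟩, inferInstance, ?_⟩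
  refine ⟨⟨fun q hq => ?_, ?_, fun g hg => ?_, ?_, fun Q' hQ'1 hQ'2 hQ'3 hQ'4 g hg q hq => ?_⟩,
    ?_, fun S hS g hg => ?_, fun R' h1 h2 h3 s hs q hq => ?_⟩
  · exact Subtype.ext (hP q (hQP (mem_subgroupOf.1 hq)))
  · exact (hR.to_le hR₀R).comap_subtype
  · exact mem_subgroupOf.2 (hwR₀ g (mem_subgroupOf.1 hg))
  · exact ⟨⟨g₂, hR₀F hg₂⟩, mem_subgroupOf.2 hg₂, ⟨q₂, hQF hq₂⟩, mem_subgroupOf.2 hq₂,
      fun h => hne (congrArg Subtype.val h)⟩
  · by_contra hcon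
    refine hmin (Q'.map (normalizer (Q₀ : Set F)).subtype) ⟨?_, ?_, ?_, ?_⟩ ?_
    · rintro _ ⟨y, hy, rfl⟩
      exact hQP (mem_subgroupOf.1 (hQ'1 hy))
    · rintro y hy _ ⟨z, hz, rfl⟩
      exact ⟨_, hQ'3 ⟨y, hR₀F hy⟩ (mem_subgroupOf.2 hy) z hz, rfl⟩
    · rintro _ ⟨z, hz, rfl⟩
      exact ⟨_, hQ'4 z hz, rfl⟩
    · exact ⟨g, mem_subgroupOf.1 hg, q, ⟨q, hq, rfl⟩, fun h => hcon (Subtype.ext h)⟩
    · refine lt_of_le_of_ne ?_ fun he => hQ'2 ?_
      · rintro _ ⟨y, hy, rfl⟩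
        exact mem_subgroupOf.1 (hQ'1 hy)
      · refine le_antisymm hQ'1 fun y hy => ?_
        have h1 : (y : F) ∈ Q'.map (normalizer (Q₀ : Set F)).subtype := by
          rw [he]; exact mem_subgroupOf.1 hy
        obtain ⟨z, hz, h2⟩ := h1
        have : z = y := Subtype.ext h2
        rwa [← this]
  · exact Subtype.ext hw
  · have h1 : R₀ ≤ S.map (normalizer (Q₀ : Set F)).subtype := by
      refine hgen _ fun s hs hsx => ?_
      exact ⟨⟨s, hR₀F hs⟩, hS ⟨s, hR₀F hs⟩ (mem_subgroupOf.2 hs) (Subtype.ext hsx), rfl⟩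
    obtain ⟨g', hg', he⟩ := h1 (mem_subgroupOf.1 hg)
    have : g' = g := Subtype.ext he
    rwa [← this]
  · have h4 := hminR (R'.map (normalizer (Q₀ : Set F)).subtype) (by
      rintro _ ⟨y, hy, rfl⟩
      exact mem_subgroupOf.1 (h1 hy)) (by
      intro he
      apply h2
      refine le_antisymm h1 fun y hy => ?_
      have h5 : (y : F) ∈ R'.map (normalizer (Q₀ : Set F)).subtype := by
        rw [he]; exact mem_subgroupOf.1 hy
      obtain ⟨z, hz, h6⟩ := h5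
      have : z = y := Subtype.ext h6
      rwa [← this]) (by
      rintro _ ⟨z, hz, rfl⟩
      exact ⟨_, h3 z hz, rfl⟩) s ⟨s, hs, rfl⟩ q (hQP (mem_subgroupOf.1 hq))
    exact Subtype.ext h4

end Pool.Agent.Lib.MP_544bd1_al
end

section

/-!
Theorem Z3, Case B: subgroups containing `Q`.
-/

namespace Pool.Agent.Lib.MP_544bd1_al

open Subgroup

/-- **Covering.** A subgroup meeting the cosets `Q * g` and `Q * s`, and containing an element `h` of
`Q` with `φ h ≠ 0`, contains `Q`.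

Proof. Same as `zt_cover` (ZtCover.lean): `W = {φ q | q ∈ Q, q ∈ H'}` is a submodule, invariant under
`τ g` and `τ s`: for `q ∈ H' ⊓ Q` the element `(k * g) * q * (k * g)⁻¹ ∈ H' ⊓ Q` has image `τ g (φ q)`
(`φ` is additive with values in a commutative group and `φ (k * y * k⁻¹) = φ y` for `k, y ∈ Q`). By
`zb_irr` `W = ⊤` (`φ h ≠ 0`). So every `q ∈ Q` is `q = q' * c` with `q' ∈ H' ⊓ Q`, `φ c = 0`,
`c ∈ ⁅Q, Q⁆` (`zt_irr`, second part); the elements `c` with `φ c = 0` are central in `Q` (`M.ker`), so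
`⁅Q, Q⁆` is generated by (indeed consists of products of) commutators of elements of `H' ⊓ Q`: all
commutators of `Q` are commutators of elements of `H' ⊓ Q`. So `⁅Q, Q⁆ ≤ H'`. -/
theorem zt_coverB {F : Type} [Group F] [Finite F] {r : ℕ} (hr : r.Prime) (hr2 : r ≠ 2)
    {Q R : Subgroup F} [Q.Normal] {g s : F} (D : ZMinB r Q R g) {V : Type} [AddCommGroup V]
    [Module (ZMod 2) V] {τ : F →* Module.End (ZMod 2) V} {φ : Q → V} (M : ZMd Q R τ φ)
    (S : ZRb r R g s τ) (H' : Subgroup F) {k k' : F} (hk : k ∈ Q) (hk' : k' ∈ Q)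
    (hg : k * g ∈ H') (hs : k' * s ∈ H') {h : Q} (hh : (h : F) ∈ H') (hh0 : φ h ≠ 0) :
    Q ≤ H' := by
  obtain ⟨-, irr2, -, -⟩ := zt_irr hr hr2 D.core M
  have hQn : Q.Normal := inferInstance
  have φ1 : φ 1 = 0 := by
    have h1 := M.add 1 1
    rw [mul_one] at h1
    exact left_eq_add.1 h1
  have φinv : ∀ a : Q, φ a⁻¹ = - φ a := by
    intro a
    have h1 := M.add a a⁻¹
    rw [mul_inv_cancel, φ1] at h1
    exact (neg_eq_of_add_eq_zero_right h1.symm).symm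
  have Zc : ∀ a : Q, φ a = 0 → ∀ y ∈ Q, (a : F) * y = y * a := fun a ha => (M.ker a ha).2
  let W : Submodule (ZMod 2) V :=
    { carrier := {v | ∃ q : Q, (q : F) ∈ H' ∧ φ q = v}
      add_mem' := by
        rintro a b ⟨q, hq, rfl⟩ ⟨q', hq', rfl⟩
        exact ⟨q * q', by rw [Subgroup.coe_mul]; exact H'.mul_mem hq hq', M.add _ _⟩
      zero_mem' := ⟨1, by rw [Subgroup.coe_one]; exact H'.one_mem, φ1⟩
      smul_mem' := by
        rintro c v ⟨q, hq, rfl⟩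
        have hc : c = 0 ∨ c = 1 := by
          revert c
          decide
        rcases hc with rfl | rfl
        · exact ⟨1, by rw [Subgroup.coe_one]; exact H'.one_mem, by rw [zero_smul, φ1]⟩
        · exact ⟨q, hq, by rw [one_smul]⟩ }
  have hinv : ∀ (u k : F), k ∈ Q → k * u ∈ H' → ∀ v ∈ W, τ u v ∈ W := by
    rintro u k hk hku v ⟨q, hq, rfl⟩
    refine ⟨⟨k, hk⟩ * ⟨u * q * u⁻¹, hQn.conj_mem _ q.2 u⟩ * (⟨k, hk⟩ : Q)⁻¹, ?_, ?_⟩
    · have h1 : (((⟨k, hk⟩ : Q) * ⟨u * q * u⁻¹, hQn.conj_mem _ q.2 u⟩ * (⟨k, hk⟩ : Q)⁻¹ : Q) : F) =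
          (k * u) * q * (k * u)⁻¹ := by
        show k * (u * q * u⁻¹) * k⁻¹ = _
        group
      rw [h1]
      exact H'.mul_mem (H'.mul_mem hku hq) (H'.inv_mem hku)
    · rw [M.add, M.add, φinv, M.eqv]
      abel
  have hW : W = ⊤ := by
    rcases zb_irr hr hr2 D M S W (hinv s k' hk' hs) (hinv g k hk hg) with h1 | h1
    · exfalso
      have h2 : φ h ∈ W := ⟨h, hh, rfl⟩
      rw [h1, Submodule.mem_bot] at h2
      exact hh0 h2
    · exact h1
  have hQ1' : ∀ a ∈ Q, ∃ z : Q, φ z = 0 ∧ a * z ∈ H' := by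
    intro a ha
    have h1 : φ ⟨a, ha⟩ ∈ W := by rw [hW]; exact Submodule.mem_top
    obtain ⟨q, hq, hqa⟩ := h1
    refine ⟨(⟨a, ha⟩ : Q)⁻¹ * q, ?_, ?_⟩
    · rw [M.add, φinv, hqa, neg_add_cancel]
    · have h2 : a * (((⟨a, ha⟩ : Q)⁻¹ * q : Q) : F) = q := by
        show a * (a⁻¹ * q) = q
        group
      rw [h2]
      exact hq
  have hcom : ⁅Q, Q⁆ ≤ H' := by
    rw [Subgroup.commutator_le]
    intro a ha b hb
    obtain ⟨z, hz, haz⟩ := hQ1' a ha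
    obtain ⟨z', hz', hbz⟩ := hQ1' b hb
    have h1 : a * b * a⁻¹ * b⁻¹ = (a * z) * (b * z') * (a * z)⁻¹ * (b * z')⁻¹ := by
      have e1 : (z : F) * b = b * z := Zc z hz b hb
      have e2 : (z' : F) * a⁻¹ = a⁻¹ * z' := Zc z' hz' a⁻¹ (Q.inv_mem ha)
      have e3 : (z : F) * z' = z' * z := Zc z hz z' z'.2
      calc a * b * a⁻¹ * b⁻¹ = a * b * (a⁻¹ * z') * (z' : F)⁻¹ * b⁻¹ := by group
        _ = a * b * (z' * a⁻¹) * (z' : F)⁻¹ * b⁻¹ := by rw [e2]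
        _ = a * b * (z' * z) * (z : F)⁻¹ * a⁻¹ * (z' : F)⁻¹ * b⁻¹ := by group
        _ = a * b * (z * z') * (z : F)⁻¹ * a⁻¹ * (z' : F)⁻¹ * b⁻¹ := by rw [e3]
        _ = a * (b * z) * z' * (z : F)⁻¹ * a⁻¹ * (z' : F)⁻¹ * b⁻¹ := by group
        _ = a * (z * b) * z' * (z : F)⁻¹ * a⁻¹ * (z' : F)⁻¹ * b⁻¹ := by rw [e1]
        _ = (a * z) * (b * z') * (a * z)⁻¹ * (b * z')⁻¹ := by group
    rw [commutatorElement_def, h1]
    exact H'.mul_mem (H'.mul_mem (H'.mul_mem haz hbz) (H'.inv_mem haz)) (H'.inv_mem hbz)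
  intro a ha
  obtain ⟨z, hz, haz⟩ := hQ1' a ha
  have h1 : (z : F) ∈ H' := hcom (irr2 z hz).1
  have h2 : a = a * z * (z : F)⁻¹ := by group
  rw [h2]
  exact H'.mul_mem haz (H'.inv_mem h1)

end Pool.Agent.Lib.MP_544bd1_al
end

section

/-!
General even exponents, section 2 (the base): the choice of `v'` and `u₀`.
-/

namespace Pool.Agent.Lib.MP_544bd1_al

/-- powers of `T - 1` in characteristic 2. Proof: `(T - 1) ^ (2 ^ j) = T ^ (2 ^ j) - 1` by induction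
(`(A - 1) ^ 2 = A ^ 2 - 1`), and `(T - 1) * ∑_{i < n} T ^ i = T ^ n - 1` (`mul_geom_sum`); so
`∑_{i < 2 ^ j} T ^ i = (T - 1) ^ (2 ^ j - 1)` by induction on `j`: `∑_{i < 2 ^ (j + 1)} T ^ i =
(1 + T ^ (2 ^ j)) * ∑_{i < 2 ^ j} T ^ i`. -/
theorem zs_powsub {V : Type} [AddCommGroup V] [Module (ZMod 2) V] (T : Module.End (ZMod 2) V)
    (j : ℕ) : (T - 1) ^ (2 ^ j) = T ^ (2 ^ j) - 1 ∧
      ∑ i ∈ Finset.range (2 ^ j), T ^ i = (T - 1) ^ (2 ^ j - 1) := by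
  have hc : ∀ A : Module.End (ZMod 2) V, A + A = 0 := fun A => by
    rw [← two_smul (ZMod 2) A, show (2 : ZMod 2) = 0 from rfl, zero_smul]
  have hn : ∀ A : Module.End (ZMod 2) V, -A = A := fun A =>
    neg_eq_of_add_eq_zero_left (hc A)
  induction j with
  | zero => simp
  | succ j ih =>
    obtain ⟨h1, h2⟩ := ih
    have hpos : 0 < 2 ^ j := Nat.two_pow_pos j
    have e : 2 ^ (j + 1) = 2 ^ j + 2 ^ j := by rw [pow_succ, mul_two]
    have h3 : (T ^ (2 ^ j) - 1) * (T ^ (2 ^ j) - 1) = T ^ (2 ^ j) * T ^ (2 ^ j) - 1 := by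
      have h4 : (T ^ (2 ^ j) - 1) * (T ^ (2 ^ j) - 1) =
          T ^ (2 ^ j) * T ^ (2 ^ j) - 1 - (T ^ (2 ^ j) - 1 + (T ^ (2 ^ j) - 1)) := by
        noncomm_ring
      rw [h4, hc, sub_zero]
    constructor
    · rw [e, pow_add, pow_add, h1, h3]
    · rw [e, Finset.sum_range_add]
      simp only [pow_add]
      rw [← Finset.mul_sum, h2]
      have h5 : 2 ^ j + 2 ^ j - 1 = 2 ^ j + (2 ^ j - 1) := by omega
      have h6 : ∀ A B : Module.End (ZMod 2) V, A - B = B + A := fun A B => by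
        rw [sub_eq_add_neg, hn, add_comm]
      rw [h5, pow_add, h1, sub_mul, one_mul]
      exact (h6 _ _).symm

private theorem zsb_self {V : Type} [AddCommGroup V] [Module (ZMod 2) V] (v : V) : v + v = 0 := by
  rw [← two_smul (ZMod 2) v, show (2 : ZMod 2) = 0 from rfl, zero_smul]

private theorem zsb_iter {K : Type} [AddCommGroup K] (h2 : ∀ k : K, k + k = 0) {θ : K → K}
    (hθ : ∀ k l, θ (k + l) = θ k + θ l) :
    ∃ E : AddSubgroup K, (∀ k, k ∈ E ↔ ∃ l, k = θ l - l) ∧ ∀ (i : ℕ) (k : K), θ^[i] k - k ∈ E := by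
  have hn : ∀ k : K, -k = k := fun k => neg_eq_of_add_eq_zero_left (h2 k)
  have h0 : θ 0 = 0 := by
    have h1 := hθ 0 0
    rw [add_zero] at h1
    exact left_eq_add.1 h1
  obtain ⟨E, hE⟩ : ∃ E : AddSubgroup K, ∀ k, k ∈ E ↔ ∃ l, k = θ l - l :=
    ⟨{ carrier := {k | ∃ l, k = θ l - l}
       add_mem' := by
         rintro _ _ ⟨k, rfl⟩ ⟨l, rfl⟩
         exact ⟨k + l, by rw [hθ]; abel⟩
       zero_mem' := ⟨0, by rw [h0, sub_zero]⟩
       neg_mem' := by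
         rintro _ ⟨k, rfl⟩
         exact ⟨k, hn _⟩ }, fun k => Iff.rfl⟩
  refine ⟨E, hE, fun i k => ?_⟩
  induction i with
  | zero =>
    rw [Function.iterate_zero, id_eq, sub_self]
    exact E.zero_mem
  | succ i ih =>
    rw [Function.iterate_succ_apply']
    have h1 : θ (θ^[i] k) - k = (θ (θ^[i] k) - θ^[i] k) + (θ^[i] k - k) := by abel
    rw [h1]
    exact E.add_mem ((hE _).2 ⟨_, rfl⟩) ih

/-- **The choice of `v'` and `u₀`.** Let `M = 2 ^ (a - 1)`, `N = T - 1`.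

Proof. `N ^ (2 ^ a) = T ^ (2 ^ a) - 1 = 0` (`zs_powsub`). Let `D₀` be the least `n` with `N ^ n = 0`;
`D₀ ≥ 3 * 2 ^ (a - 2)` by `hL`, `D₀ - M ≥ 2 ^ (a - 2)`. Let `N ^ (D₀ - 1) v₀ ≠ 0`, `u₁ = N ^ (D₀ - M) v₀`:
`u₁ ∈ N ^ (2 ^ (a - 2)) V`, `N ^ M u₁ = 0`, i.e. `T ^ M u₁ = u₁`, `N ^ (M - 1) u₁ ≠ 0`. By `hnd` (and the
symmetry `βs`) there is `v'` with `β v' (N ^ (M - 1) u₁) ∉ (θ - 1) K`. Modulo `(θ - 1) K` (an additive
subgroup; `θ ^ l k ≡ k`):
`β (∑_{i < M} T ^ i v') u₁ = ∑ β (T ^ i v') (T ^ i (T ^ (M - i) u₁)) = ∑ θ ^ i (β v' (T ^ (M - i) u₁)) ≡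
∑ β v' (T ^ (M - i) u₁) = β v' (∑_{i < M} T ^ i u₁) = β v' (N ^ (M - 1) u₁) ≢ 0` (reindex `i ↦ M - i`, and
`T ^ M u₁ = T ^ 0 u₁ = u₁`). So the set of the `i` with `β (∑_{l < M} T ^ l v') (N ^ i u₁) ≠ 0` contains `0`
and it is bounded (`N ^ (2 ^ a) = 0`); let `i` be its maximum, `u₀ = N ^ i u₁`, `n' = ∑_{l < M} T ^ l v'`,
`f = β n' u₀ ≠ 0`. `u₀ ∈ N ^ (2 ^ (a - 2)) V = (T ^ (2 ^ (a - 2)) - 1) V` and `T ^ M u₀ = u₀`. `θ f = β (T n') (T u₀)`,
`T n' = n' + (T ^ M v' - v')` (`N n' = T ^ M v' - v'`), `T u₀ = u₀ + N u₀`: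
`θ f = f + β n' (N u₀) + β (T ^ M v' - v') (T u₀) = f + 0 + 0` (`i` is maximal; `hβx`, since
`T ^ M (T u₀) = T u₀`). -/
theorem zs_uv {a : ℕ} (ha : 2 ≤ a) {V : Type} [AddCommGroup V] [Module (ZMod 2) V]
    {T : Module.End (ZMod 2) V} (hT : T ^ (2 ^ a) = 1)
    (hL : (T - 1) ^ (3 * 2 ^ (a - 2) - 1) ≠ 0)
    {K : Type} [AddCommGroup K] (h2 : ∀ k : K, k + k = 0) {θ : K → K}
    (hθ : ∀ k l, θ (k + l) = θ k + θ l) {β : V → V → K}
    (βl : ∀ u v w, β (u + v) w = β u w + β v w) (βr : ∀ u v w, β u (v + w) = β u v + β u w)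
    (βs : ∀ v w, β v w = β w v) (βT : ∀ v w, β (T v) (T w) = θ (β v w))
    (hβx : ∀ v w, (T ^ (2 ^ (a - 1))) w = w → β (v + (T ^ (2 ^ (a - 1))) v) w = 0)
    (hnd : ∀ v, v ≠ 0 → ∃ w, ∀ k, β v w ≠ θ k - k) :
    ∃ v' u₀ : V, β (∑ i ∈ Finset.range (2 ^ (a - 1)), (T ^ i) v') u₀ ≠ 0 ∧
      θ (β (∑ i ∈ Finset.range (2 ^ (a - 1)), (T ^ i) v') u₀) =
        β (∑ i ∈ Finset.range (2 ^ (a - 1)), (T ^ i) v') u₀ ∧
      (T ^ (2 ^ (a - 1))) u₀ = u₀ ∧ ∃ y : V, u₀ = y + (T ^ (2 ^ (a - 2))) y := by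
  classical
  obtain ⟨Q, hQ⟩ : ∃ Q : ℕ, Q = 2 ^ (a - 2) := ⟨_, rfl⟩
  obtain ⟨M, hM⟩ : ∃ M : ℕ, M = 2 ^ (a - 1) := ⟨_, rfl⟩
  have hMQ : M = 2 * Q := by
    rw [hM, hQ, show a - 1 = (a - 2) + 1 by omega, pow_succ, mul_comm]
  have h4Q : 2 ^ a = 4 * Q := by
    rw [hQ]
    have h1 : a = (a - 2) + 2 := by omega
    conv_lhs => rw [h1]
    rw [pow_add, mul_comm]
    norm_num
  have hQ0 : 0 < Q := by
    rw [hQ]
    exact Nat.two_pow_pos _
  have hM0 : 0 < M := by omega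
  obtain ⟨N, hN⟩ : ∃ N : Module.End (ZMod 2) V, N = T - 1 := ⟨_, rfl⟩
  have hNM : N ^ M = T ^ M - 1 := by
    rw [hN, hM]
    exact (zs_powsub T (a - 1)).1
  have hNQ : N ^ Q = T ^ Q - 1 := by
    rw [hN, hQ]
    exact (zs_powsub T (a - 2)).1
  have hN4 : N ^ (4 * Q) = 0 := by
    rw [hN, ← h4Q, (zs_powsub T a).1, hT, sub_self]
  have hsum : ∑ i ∈ Finset.range M, T ^ i = N ^ (M - 1) := by
    rw [hN, hM]
    exact (zs_powsub T (a - 1)).2
  rw [← hQ, ← hN] at hL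
  rw [← hM] at hβx ⊢
  rw [← hQ]
  have hTN : ∀ v, T v = v + N v := fun v => by
    rw [hN, LinearMap.sub_apply, Module.End.one_apply]
    abel
  have hTNc : T * N = N * T := by rw [hN]; noncomm_ring
  -- the minimal power
  have hex : ∃ n, N ^ n = 0 := ⟨4 * Q, hN4⟩
  obtain ⟨D, hD⟩ : ∃ D, D = Nat.find hex := ⟨_, rfl⟩
  have hD0 : N ^ D = 0 := by
    rw [hD]
    exact Nat.find_spec hex
  have hDmin : ∀ n, n < D → N ^ n ≠ 0 := fun n hn => by
    rw [hD] at hn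
    exact Nat.find_min hex hn
  have hD3 : 3 * Q ≤ D := by
    by_contra hlt
    apply hL
    have h1 : 3 * Q - 1 = (3 * Q - 1 - D) + D := by omega
    rw [h1, pow_add, hD0, mul_zero]
  have hD1 : N ^ (D - 1) ≠ 0 := hDmin _ (by omega)
  obtain ⟨v₀, hv₀⟩ : ∃ v₀, (N ^ (D - 1)) v₀ ≠ 0 := by
    by_contra hcon
    push Not at hcon
    exact hD1 (LinearMap.ext fun v => hcon v)
  obtain ⟨u₁, hu₁⟩ : ∃ u₁, u₁ = (N ^ (D - M)) v₀ := ⟨_, rfl⟩
  have hu₁M : (N ^ M) u₁ = 0 := by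
    rw [hu₁, ← Module.End.mul_apply, ← pow_add, show M + (D - M) = D by omega, hD0]
    rfl
  have hu₁M1 : (N ^ (M - 1)) u₁ ≠ 0 := by
    rw [hu₁, ← Module.End.mul_apply, ← pow_add, show M - 1 + (D - M) = D - 1 by omega]
    exact hv₀
  have hfixM : ∀ u, (N ^ M) u = 0 → (T ^ M) u = u := fun u hu => by
    rw [hNM, LinearMap.sub_apply, Module.End.one_apply] at hu
    exact sub_eq_zero.1 hu
  have hTu₁ := hfixM u₁ hu₁M
  obtain ⟨v', hv'⟩ := hnd _ hu₁M1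
  -- the subgroup
  obtain ⟨E, hE, hEi⟩ := zsb_iter h2 hθ
  have hβ0r : ∀ v, β v 0 = 0 := fun v => by
    have h1 := βr v 0 0
    rw [add_zero] at h1
    exact left_eq_add.1 h1
  have hβ0l : ∀ v, β 0 v = 0 := fun v => by rw [βs, hβ0r]
  have hβit : ∀ (i : ℕ) (v w : V), β ((T ^ i) v) ((T ^ i) w) = θ^[i] (β v w) := fun i v w => by
    induction i with
    | zero => simp
    | succ i ih =>
      rw [pow_succ', Module.End.mul_apply, Module.End.mul_apply, βT, ih,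
        Function.iterate_succ_apply']
  have hβsl : ∀ (s : Finset ℕ) (g : ℕ → V) (w : V), β (∑ i ∈ s, g i) w = ∑ i ∈ s, β (g i) w := by
    intro s g w
    induction s using Finset.induction_on with
    | empty => rw [Finset.sum_empty, Finset.sum_empty, hβ0l]
    | insert i s hi ih => rw [Finset.sum_insert hi, Finset.sum_insert hi, βl, ih]
  have hβsr : ∀ (s : Finset ℕ) (g : ℕ → V) (w : V), β w (∑ i ∈ s, g i) = ∑ i ∈ s, β w (g i) := by
    intro s g w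
    induction s using Finset.induction_on with
    | empty => rw [Finset.sum_empty, Finset.sum_empty, hβ0r]
    | insert i s hi ih => rw [Finset.sum_insert hi, Finset.sum_insert hi, βr, ih]
  obtain ⟨n', hn'⟩ : ∃ n', n' = ∑ i ∈ Finset.range M, (T ^ i) v' := ⟨_, rfl⟩
  have hrefl : ∑ i ∈ Finset.range M, (T ^ (M - i)) u₁ = (N ^ (M - 1)) u₁ := by
    have h1 : ∑ i ∈ Finset.range M, (T ^ (M - i)) u₁ =
        ∑ i ∈ Finset.range M, (T ^ (i + 1)) u₁ := by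
      rw [← Finset.sum_range_reflect (fun i => (T ^ (i + 1)) u₁)]
      refine Finset.sum_congr rfl fun i hi => ?_
      rw [Finset.mem_range] at hi
      rw [show M - 1 - i + 1 = M - i by omega]
    have h3 : ∑ i ∈ Finset.range M, (T ^ (i + 1)) u₁ = ∑ i ∈ Finset.range M, (T ^ i) u₁ := by
      have h4 := Finset.sum_range_succ (fun i => (T ^ i) u₁) M
      have h5 := Finset.sum_range_succ' (fun i => (T ^ i) u₁) M
      rw [h4, hTu₁, pow_zero, Module.End.one_apply] at h5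
      exact (add_right_cancel h5).symm
    rw [h1, h3, ← hsum, LinearMap.sum_apply]
  have hne : β n' u₁ ≠ 0 := by
    intro h0
    have h1 : ∑ i ∈ Finset.range M, (β ((T ^ i) v') u₁ - β v' ((T ^ (M - i)) u₁)) ∈ E := by
      refine E.sum_mem fun i hi => ?_
      rw [Finset.mem_range] at hi
      have h3 : u₁ = (T ^ i) ((T ^ (M - i)) u₁) := by
        rw [← Module.End.mul_apply, ← pow_add, show i + (M - i) = M by omega, hTu₁]
      have h4 := hEi i (β v' ((T ^ (M - i)) u₁))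
      rw [← hβit, ← h3] at h4
      exact h4
    rw [Finset.sum_sub_distrib, ← hβsl, ← hβsr, hrefl, ← hn', h0, zero_sub] at h1
    obtain ⟨k, hk⟩ := (hE _).1 (E.neg_mem h1)
    rw [neg_neg, βs] at hk
    exact hv' k hk
  -- the last nonzero value
  have hex2 : ∃ j, β n' ((N ^ j) u₁) = 0 := ⟨4 * Q, by
    rw [hN4, LinearMap.zero_apply, hβ0r]⟩
  obtain ⟨j, hj⟩ : ∃ j, j = Nat.find hex2 := ⟨_, rfl⟩
  have hj0 : β n' ((N ^ j) u₁) = 0 := by
    rw [hj]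
    exact Nat.find_spec hex2
  have hjmin : ∀ n, n < j → β n' ((N ^ n) u₁) ≠ 0 := fun n hn => by
    rw [hj] at hn
    exact Nat.find_min hex2 hn
  have hjpos : j ≠ 0 := by
    rintro rfl
    rw [pow_zero, Module.End.one_apply] at hj0
    exact hne hj0
  obtain ⟨i, rfl⟩ : ∃ i, j = i + 1 := ⟨j - 1, by omega⟩
  obtain ⟨u₀, hu₀⟩ : ∃ u₀, u₀ = (N ^ i) u₁ := ⟨_, rfl⟩
  have hf : β n' u₀ ≠ 0 := by
    rw [hu₀]
    exact hjmin i (Nat.lt_succ_self i)
  have hNu₀ : β n' (N u₀) = 0 := by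
    rw [pow_succ', Module.End.mul_apply, ← hu₀] at hj0
    exact hj0
  have hTu₀ : (T ^ M) u₀ = u₀ := by
    apply hfixM
    rw [hu₀, ← Module.End.mul_apply, ← pow_add, add_comm, pow_add, Module.End.mul_apply, hu₁M,
      map_zero]
  refine ⟨v', u₀, ?_, ?_, hTu₀, ?_⟩
  · rw [← hn']
    exact hf
  · rw [← hn', ← βT]
    have h1 : T n' = n' + (v' + (T ^ M) v') := by
      have h3 : N n' = v' + (T ^ M) v' := by
        have h4 : N * ∑ i ∈ Finset.range M, T ^ i = T ^ M - 1 := by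
          rw [hN, mul_geom_sum]
        have h5 : n' = (∑ i ∈ Finset.range M, T ^ i) v' := by
          rw [hn', LinearMap.sum_apply]
        rw [h5, ← Module.End.mul_apply, h4, LinearMap.sub_apply, Module.End.one_apply,
          sub_eq_add_neg, neg_eq_of_add_eq_zero_left (zsb_self v'), add_comm]
      rw [hTN, h3]
    have h6 : (T ^ M) (T u₀) = T u₀ := by
      rw [← Module.End.mul_apply, ← pow_succ, pow_succ', Module.End.mul_apply, hTu₀]
    rw [h1, βl, hβx v' (T u₀) h6, add_zero, hTN u₀, βr, hNu₀, add_zero]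
  · refine ⟨(N ^ i) ((N ^ (D - M - Q)) v₀), ?_⟩
    have h1 : u₀ = (N ^ Q) ((N ^ i) ((N ^ (D - M - Q)) v₀)) := by
      rw [hu₀, hu₁, ← Module.End.mul_apply, ← Module.End.mul_apply, ← Module.End.mul_apply,
        ← pow_add, ← pow_add, ← pow_add]
      congr 2
      omega
    obtain ⟨y, hy⟩ : ∃ y, y = (N ^ i) ((N ^ (D - M - Q)) v₀) := ⟨_, rfl⟩
    rw [← hy] at h1 ⊢
    rw [h1, hNQ, LinearMap.sub_apply, Module.End.one_apply, sub_eq_add_neg,
      neg_eq_of_add_eq_zero_left (zsb_self y), add_comm]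

end Pool.Agent.Lib.MP_544bd1_al
end
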