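import Mathlib
import Pool.Agent.Lib.MP_544bd1_al.ZtDefs3
import Pool.Agent.Lib.MP_544bd1_al.ZtFP
import Pool.Agent.Lib.MP_544bd1_al.ZsC0
import Pool.Agent.Lib.MP_544bd1_al.ZtLinB
import Pool.Agent.Lib.MP_544bd1_al.ZsBuv
import Pool.Agent.Lib.MP_544bd1_al.ZsC4
import Pool.Agent.Lib.MP_544bd1_al.ZsWt

section

/-!
Theorem Z3, Case B: the `r`-group `R` (a group of operators), part 1.
-/

namespace Pool.Agent.Lib.MP_544bd1_al

open Subgroup

/-- a nontrivial finite commutative `r`-group has an `r`-th power map that is not surjective -/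
private theorem ztbg_pow {Q : Type} [CommGroup Q] [Finite Q] {r : ℕ} (hr : r.Prime) (hQ : IsPGroup r Q)
    (hnt : Nontrivial Q) : (powMonoidHom r : Q →* Q).range ≠ ⊤ := by
  haveI : Fact r.Prime := ⟨hr⟩
  intro h
  have h1 : Function.Surjective (powMonoidHom r : Q →* Q) := MonoidHom.range_eq_top.1 h
  have h2 : Function.Injective (powMonoidHom r : Q →* Q) := Finite.injective_iff_surjective.2 h1
  have h3 : r ∣ Nat.card Q := by
    rcases hQ.card_eq_or_dvd with h4 | h4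
    · have h5 : 1 < Nat.card Q := Finite.one_lt_card
      omega
    · exact h4
  obtain ⟨y, hy⟩ := exists_prime_orderOf_dvd_card' r h3
  have h6 : y ^ r = 1 := by rw [← hy]; exact pow_orderOf_eq_one y
  have h7 : y = 1 := h2 (by simpa using h6)
  rw [h7, orderOf_one] at hy
  exact hr.one_lt.ne hy

/-- **Class 2, exponent.** `R` is a finite `r`-group normalized by `g`, `x = x`, generated by the
elements inverted by `x`, and `x` centralizes the proper `g`-invariant subgroups.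

Proof. If `R = ⊥` all is trivial. Let `R ≠ ⊥`.
`R' = ⁅R, R⁆` is normalized by `g` and `≠ R` (`R` is nilpotent, nontrivial; compare the proof of
`zt_minA` in ZtMin.lean), so `x` centralizes `R'`: the second statement. For `s ∈ R` inverted by `x` and
`c ∈ R'`: `s * c * s⁻¹ ∈ R'`, so `s * c * s⁻¹ = x * (s * c * s⁻¹) * x⁻¹ = s⁻¹ * c * s`, so `s ^ 2` commutes
with `c`, and so does `s`, a power of `s ^ 2` (`s ^ (r ^ k) = 1`, `r` odd). The elements commuting with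
all `c ∈ R'` form a subgroup, so by `hgen` `R` centralizes `R'`: the first statement.
Third statement: let `B` be the set of all `a ^ r * c`, `a ∈ R`, `c ∈ R'`; it is a subgroup (class 2:
`a ^ r * b ^ r ∈ (a * b) ^ r * R'`, this is true modulo `R'` where everything commutes), or take `B` the
subgroup generated by `R'` and all `a ^ r`. It is normalized by `g`. `B ≠ R`: the quotient `R ⧸ R'` is a
nontrivial finite commutative `r`-group, so its `r`-th power map is not injective, so not surjective.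
So `x` centralizes `B ∋ s ^ r`; if `s` is inverted by `x` then so is `s ^ r`, `s ^ r = (s ^ r)⁻¹`,
`(s ^ r) ^ 2 = 1`, and `s ^ r = 1`, as its order is odd. -/
theorem zs_Rg {H : Type} [Group H] [Finite H] {r : ℕ} (hr : r.Prime) (hr2 : r ≠ 2)
    {R : Subgroup H} (hR : IsPGroup r R) {g x : H} (hgR : ∀ s ∈ R, g * s * g⁻¹ ∈ R)
    (hgen : ∀ S : Subgroup H, (∀ s ∈ R, x * s * (x)⁻¹ = s⁻¹ → s ∈ S) → R ≤ S)
    (hmin : ∀ R₁ : Subgroup H, R₁ ≤ R → R₁ ≠ R → (∀ s ∈ R₁, g * s * g⁻¹ ∈ R₁) →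
      ∀ s ∈ R₁, x * s = s * x) :
    (∀ a ∈ R, ∀ b ∈ R, ∀ c ∈ R, a * b * a⁻¹ * b⁻¹ * c = c * (a * b * a⁻¹ * b⁻¹)) ∧
      (∀ a ∈ R, ∀ b ∈ R, x * (a * b * a⁻¹ * b⁻¹) = a * b * a⁻¹ * b⁻¹ * x) ∧
      ∀ s ∈ R, x * s * (x)⁻¹ = s⁻¹ → s ^ r = 1 := by
  classical
  haveI : Fact r.Prime := ⟨hr⟩
  by_cases hbot : R = ⊥
  · subst hbot
    refine ⟨?_, ?_, ?_⟩
    · intro a ha b hb c hc
      rw [mem_bot] at ha hb hc
      simp [ha, hb, hc]
    · intro a ha b hb
      rw [mem_bot] at ha hb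
      simp [ha, hb]
    · intro s hs _
      rw [mem_bot] at hs
      simp [hs]
  have hnt : Nontrivial R := (Subgroup.nontrivial_iff_ne_bot R).2 hbot
  have hnil : Group.IsNilpotent R := hR.isNilpotent
  have hsolR : Group.IsSolvable R := inferInstance
  have hlt : _root_.commutator R < ⊤ := Group.IsSolvable.commutator_lt_top_of_nontrivial R
  have hcomR : ⁅R, R⁆ ≤ R := by
    rw [commutator_le]
    intro x hx y hy
    exact R.mul_mem (R.mul_mem (R.mul_mem hx hy) (R.inv_mem hx)) (R.inv_mem hy)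
  have hcomm : ⁅R, R⁆ ≠ R := by
    intro h
    apply hlt.ne
    apply Subgroup.map_injective R.subtype_injective
    rw [Subgroup.map_subtype_commutator, h, ← MonoidHom.range_eq_map, Subgroup.range_subtype]
  have hcomg : ∀ x ∈ ⁅R, R⁆, g * x * g⁻¹ ∈ ⁅R, R⁆ := by
    have h1 : ⁅R, R⁆ ≤ ⁅R, R⁆.comap (MulAut.conj g).toMonoidHom := by
      rw [commutator_le]
      intro x hx y hy
      rw [mem_comap, map_commutatorElement]
      exact commutator_mem_commutator (hgR x hx) (hgR y hy)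
    intro x hx
    exact h1 hx
  have hcx : ∀ c ∈ ⁅R, R⁆, x * c = c * x := hmin _ hcomR hcomm hcomg
  -- odd order elements
  have hodd : ∀ s ∈ R, ∃ k : ℕ, Odd k ∧ s ^ k = 1 := by
    intro s hs
    obtain ⟨k, hk⟩ := hR ⟨s, hs⟩
    refine ⟨r ^ k, (hr.odd_of_ne_two hr2).pow, ?_⟩
    have h1 := congrArg Subtype.val hk
    simpa using h1
  have hsqc : ∀ s ∈ R, ∀ c : H, Commute (s ^ 2) c → Commute s c := by
    intro s hs c hc
    obtain ⟨k, ⟨j, hj⟩, hk⟩ := hodd s hs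
    have h1 : s = (s ^ 2) ^ (j + 1) := by
      rw [← pow_mul, show 2 * (j + 1) = k + 1 by omega, pow_succ, hk, one_mul]
    rw [h1]
    exact hc.pow_left _
  have hsq1 : ∀ s ∈ R, s ^ 2 = 1 → s = 1 := by
    intro s hs h2
    obtain ⟨k, ⟨j, hj⟩, hk⟩ := hodd s hs
    rw [hj, pow_succ, pow_mul, h2, one_pow, one_mul] at hk
    exact hk
  -- R centralizes its commutators
  have hcent : ∀ s ∈ R, ∀ c ∈ ⁅R, R⁆, Commute s c := by
    have h1 : R ≤ Subgroup.centralizer ((⁅R, R⁆ : Subgroup H) : Set H) := by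
      apply hgen
      intro s hs hinv
      rw [mem_centralizer_iff]
      intro c hc
      refine (hsqc s hs c ?_).eq.symm
      have hcR := hcomR hc
      have h2 : s * c * s⁻¹ * c⁻¹ ∈ ⁅R, R⁆ := commutator_mem_commutator hs hcR
      have h3 : s * c * s⁻¹ ∈ ⁅R, R⁆ := by
        have h4 : s * c * s⁻¹ = s * c * s⁻¹ * c⁻¹ * c := by group
        rw [h4]
        exact mul_mem h2 hc
      have h5 := hcx _ h3
      have h6 := hcx _ hc
      have h7 : x * (s * c * s⁻¹) * (x)⁻¹ =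
          (x * s * (x)⁻¹) * (x * c * (x)⁻¹) * (x * s * (x)⁻¹)⁻¹ := by group
      rw [h5, h6, hinv, mul_inv_cancel_right, mul_inv_cancel_right, inv_inv] at h7
      -- h7 : s * c * s⁻¹ = s⁻¹ * c * s
      show s ^ 2 * c = c * s ^ 2
      calc s ^ 2 * c = s * (s * c * s⁻¹) * s := by simp [pow_two, mul_assoc]
        _ = s * (s⁻¹ * c * s) * s := by rw [h7]
        _ = c * s ^ 2 := by simp [pow_two, mul_assoc]
    intro s hs c hc
    have h2 := h1 hs
    rw [mem_centralizer_iff] at h2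
    exact (h2 c hc).symm
  refine ⟨?_, ?_, ?_⟩
  · intro a ha b hb c hc
    exact ((hcent c hc _ (commutator_mem_commutator ha hb)).eq).symm
  · intro a ha b hb
    exact hcx _ (commutator_mem_commutator ha hb)
  -- the exponent
  let B : Subgroup H := Subgroup.closure ({x | ∃ a ∈ R, x = a ^ r} ∪ ((⁅R, R⁆ : Subgroup H) : Set H))
  have hBR : B ≤ R := by
    rw [closure_le]
    rintro x (⟨a, ha, rfl⟩ | hx)
    · exact R.pow_mem ha r
    · exact hcomR hx
  have hBg : ∀ s ∈ B, g * s * g⁻¹ ∈ B := by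
    have h1 : B ≤ B.comap (MulAut.conj g).toMonoidHom := by
      rw [closure_le]
      rintro x (⟨a, ha, rfl⟩ | hx)
      · show g * a ^ r * g⁻¹ ∈ B
        rw [← conj_pow]
        exact Subgroup.subset_closure (Or.inl ⟨_, hgR a ha, rfl⟩)
      · show g * x * g⁻¹ ∈ B
        exact Subgroup.subset_closure (Or.inr (hcomg x hx))
    intro s hs
    exact h1 hs
  have hBne : B ≠ R := by
    intro hB
    have hQ : IsPGroup r (Abelianization R) :=
      hR.of_surjective Abelianization.of (QuotientGroup.mk'_surjective _)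
    have hQn : Nontrivial (Abelianization R) := by
      by_contra hcon
      rw [not_nontrivial_iff_subsingleton] at hcon
      apply hlt.ne
      rw [eq_top_iff]
      intro y _
      rw [← Abelianization.ker_of]
      exact Subsingleton.elim _ _
    have h1 := ztbg_pow hr hQ hQn
    apply h1
    have h2 : B ≤ (((powMonoidHom r : Abelianization R →* Abelianization R).range).comap
        Abelianization.of).map R.subtype := by
      rw [closure_le]
      rintro x (⟨a, ha, rfl⟩ | hx)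
      · refine ⟨⟨a, ha⟩ ^ r, ?_, rfl⟩
        show _ ∈ (powMonoidHom r : Abelianization R →* Abelianization R).range
        rw [map_pow]
        exact ⟨_, rfl⟩
      · have h3 : x ∈ (_root_.commutator R).map R.subtype := by
          rw [Subgroup.map_subtype_commutator]
          exact hx
        obtain ⟨y, hy, rfl⟩ := h3
        refine ⟨y, ?_, rfl⟩
        show Abelianization.of y ∈ (powMonoidHom r : Abelianization R →* Abelianization R).range
        have h4 : Abelianization.of y = 1 := by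
          rw [← MonoidHom.mem_ker, Abelianization.ker_of]
          exact hy
        rw [h4]
        exact one_mem _
    rw [eq_top_iff]
    intro q _
    obtain ⟨y, rfl⟩ := QuotientGroup.mk'_surjective (_root_.commutator R) q
    have h3 : (y : H) ∈ B := by rw [hB]; exact y.2
    obtain ⟨w, hw, hwy⟩ := h2 h3
    have h4 : w = y := Subtype.ext hwy
    rw [h4] at hw
    exact hw
  have hBx := hmin B hBR hBne hBg
  intro s hs hinv
  have h1 : s ^ r ∈ B := Subgroup.subset_closure (Or.inl ⟨s, hs, rfl⟩)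
  have h2 := hBx _ h1
  have h3 : x * s ^ r * (x)⁻¹ = (s ^ r)⁻¹ := by
    rw [← conj_pow, hinv, inv_pow]
  rw [h2, mul_inv_cancel_right] at h3
  apply hsq1 _ (R.pow_mem hs r)
  rw [pow_two]
  nth_rewrite 1 [h3]
  exact inv_mul_cancel _

end Pool.Agent.Lib.MP_544bd1_al
end

section

/-!
General even exponents, the base: `R` is not commutative on `V`.
-/

namespace Pool.Agent.Lib.MP_544bd1_al

open Subgroup

private theorem zsrb_inv {F E : Type} [Group F] [Monoid E] (τ : F →* E) {a b : F}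
    (h : τ a = τ b) : τ a⁻¹ = τ b⁻¹ := by
  calc τ a⁻¹ = τ a⁻¹ * (τ b * τ b⁻¹) := by
        rw [← map_mul τ b b⁻¹, mul_inv_cancel, map_one, mul_one]
    _ = τ a⁻¹ * τ a * τ b⁻¹ := by rw [h, mul_assoc]
    _ = τ b⁻¹ := by rw [← map_mul τ a⁻¹ a, inv_mul_cancel, map_one, one_mul]

private theorem zsrb_cent {F : Type} [Group F] {Q R : Subgroup F} [Q.Normal]
    {V : Type} [AddCommGroup V] [Module (ZMod 2) V]
    {τ : F →* Module.End (ZMod 2) V} {φ : Q → V} (M : ZMd Q R τ φ) {c : F}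
    (hc : ∀ q ∈ Q, c * q = q * c) : τ c = 1 := by
  ext v
  obtain ⟨y, rfl⟩ := M.surj v
  have h := M.eqv c y
  have h2 : (⟨c * y * c⁻¹, (inferInstance : Q.Normal).conj_mem _ y.2 c⟩ : Q) = y := by
    apply Subtype.ext
    show c * y * c⁻¹ = y
    rw [hc y y.2, mul_inv_cancel_right]
  rw [h2] at h
  rw [← h]
  rfl

/-- `R` is not commutative on `V`. Proof. Otherwise the elements `c ∈ R` with
`τ (g ^ (2 ^ (e - 1)) * c * (g ^ (2 ^ (e - 1)))⁻¹) = τ c⁻¹` form a subgroup and by `D.gen` this holds for all `c ∈ R`; `zt_avg`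
(`a := e`, `H := F`, `E := R`, `u := g`, `m := Nat.card R`, a power of `r`, so odd; norm: `zsb_norm`) gives
`τ = 1` on `R`: contradiction to `M.faith`, `D.core.ne`. -/
theorem zsb_nc {m e : ℕ} (he : 0 < e) (hm : Odd m) {F : Type} [Group F] [Finite F]
    (hexp : ∀ x : F, x ^ (m * 2 ^ e) = 1) {r : ℕ} (hr : r.Prime) (hr2 : r ≠ 2) {Q R : Subgroup F}
    [Q.Normal] {g : F} (D : ZsMin r e Q R g) {V : Type} [AddCommGroup V] [Module (ZMod 2) V]
    [Finite V] {τ : F →* Module.End (ZMod 2) V} {φ : Q → V} (M : ZMd Q R τ φ) :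
    ∃ a ∈ R, ∃ b ∈ R, τ (a * b) ≠ τ (b * a) := by
  by_contra hcon
  push Not at hcon
  let S : Subgroup F :=
    { carrier := {c | c ∈ R ∧ τ (g ^ (2 ^ (e - 1)) * c * (g ^ (2 ^ (e - 1)))⁻¹) = τ c⁻¹}
      one_mem' := ⟨R.one_mem, by rw [mul_one, mul_inv_cancel, inv_one]⟩
      mul_mem' := by
        rintro a b ⟨ha, ha'⟩ ⟨hb, hb'⟩
        refine ⟨R.mul_mem ha hb, ?_⟩
        have h1 : g ^ (2 ^ (e - 1)) * (a * b) * (g ^ (2 ^ (e - 1)))⁻¹ =
            (g ^ (2 ^ (e - 1)) * a * (g ^ (2 ^ (e - 1)))⁻¹) * (g ^ (2 ^ (e - 1)) * b * (g ^ (2 ^ (e - 1)))⁻¹) := by group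
        rw [h1, map_mul, ha', hb', ← map_mul, hcon _ (R.inv_mem ha) _ (R.inv_mem hb),
          mul_inv_rev]
      inv_mem' := by
        rintro a ⟨ha, ha'⟩
        refine ⟨R.inv_mem ha, ?_⟩
        have h1 : g ^ (2 ^ (e - 1)) * a⁻¹ * (g ^ (2 ^ (e - 1)))⁻¹ = (g ^ (2 ^ (e - 1)) * a * (g ^ (2 ^ (e - 1)))⁻¹)⁻¹ := by group
        rw [h1]
        exact zsrb_inv τ ha' }
  have hRS : R ≤ S := by
    apply D.gen
    intro s hs h
    exact ⟨hs, by rw [h]⟩
  have hodd : Odd (Nat.card R) := by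
    haveI : Fact r.Prime := ⟨hr⟩
    obtain ⟨n, hn⟩ := IsPGroup.iff_card.mp D.core.hR
    rw [hn]
    exact (hr.odd_of_ne_two hr2).pow
  have hN : ∑ i ∈ Finset.range (2 ^ e), (τ g) ^ i = 0 := zsb_norm hm hexp D M
  have key := zt_avg (m := Nat.card R) (a := e) he hodd τ R (u := g)
    (fun c hc => by
      have h1 : c ^ Nat.card R = 1 := by
        have h2 : (⟨c, hc⟩ : R) ^ Nat.card R = 1 := pow_card_eq_one'
        exact congrArg Subtype.val h2
      rw [h1, map_one])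
    hcon D.core.hxR (by rw [D.hg, map_one])
    (fun c hc => (hRS hc).2) hN
  obtain ⟨c, hc, q, hq, hne⟩ := D.core.ne
  exact hne (M.faith c hc (key c hc) q hq)


end Pool.Agent.Lib.MP_544bd1_al
end

section

/-!
Theorem Z3, Case B: the element `w`.
-/

namespace Pool.Agent.Lib.MP_544bd1_al

open Subgroup

private theorem zw_exp {m : ℕ} (hm : Odd m) : ∃ L t : ℕ, 8 ∣ L ∧ 2 * L = 1 + m * t := by
  obtain ⟨j, rfl⟩ := hm
  have hco : Nat.Coprime 8 (2 * j + 1) := by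
    have h1 : Nat.Coprime 2 (2 * j + 1) := by
      rw [Nat.coprime_two_left]
      exact ⟨j, rfl⟩
    exact Nat.Coprime.pow_left 3 h1
  obtain ⟨L, h1, h2⟩ := Nat.chineseRemainder hco 0 (j + 1)
  have h3 : 2 * (L + 8 * (2 * j + 1)) ≡ 1 [MOD (2 * j + 1)] := by
    have h4 : L + 8 * (2 * j + 1) ≡ j + 1 [MOD (2 * j + 1)] := by
      have h5 : 8 * (2 * j + 1) ≡ 0 [MOD (2 * j + 1)] :=
        (Nat.modEq_zero_iff_dvd.2 (Dvd.intro_left 8 rfl))
      simpa using h2.add h5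
    have h6 : 2 * (j + 1) ≡ 1 [MOD (2 * j + 1)] := by
      have h7 : 2 * (j + 1) = 1 + (2 * j + 1) := by ring
      rw [h7]
      simpa using (Nat.ModEq.refl 1).add (Nat.modEq_zero_iff_dvd.2 (dvd_refl (2 * j + 1)))
    exact (h4.mul_left 2).trans h6
  have h8 : (2 * j + 1) ∣ 2 * (L + 8 * (2 * j + 1)) - 1 :=
    (Nat.modEq_iff_dvd' (by omega)).1 h3.symm
  obtain ⟨t, ht⟩ := h8
  refine ⟨L + 8 * (2 * j + 1), t, ?_, by omega⟩
  exact (Dvd.dvd.add ((Nat.modEq_zero_iff_dvd).1 h1) (Dvd.intro _ rfl))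

/-- a vector fixed by `g ^ 4` and not by `g`. Proof. Suppose that all vectors fixed by `T ^ 4` are
fixed by `T`. Let `N = T - 1`, `N ^ 4 = T ^ 4 - 1` (characteristic 2), `N ^ 8 = 0`. `N ^ 4 v = 0` implies
`N v = 0`. For every `v`: `N ^ 4 (N ^ 4 v) = 0`, so `N ^ 5 v = 0`, so `N ^ 4 (N v) = 0`, `N ^ 2 v = 0`,
`N ^ 4 v = 0`: `T ^ 4 = 1`. -/
theorem zb_vec {V : Type} [AddCommGroup V] [Module (ZMod 2) V] {T : Module.End (ZMod 2) V}
    (h8 : T ^ 8 = 1) (h4 : T ^ 4 ≠ 1) : ∃ v : V, (T ^ 4) v = v ∧ T v ≠ v := by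
  by_contra hcon
  push Not at hcon
  apply h4
  have h8v : ∀ v : V, (T ^ 4) ((T ^ 4) v) = v := by
    intro v
    have h1 : T ^ 4 * T ^ 4 = 1 := by rw [← pow_add]; exact h8
    exact congrArg (fun S : Module.End (ZMod 2) V => S v) h1
  have hTc : ∀ v : V, (T ^ 4) (T v) = T ((T ^ 4) v) := by
    intro v
    have h1 : T ^ 4 * T = T * T ^ 4 := by rw [← pow_succ, ← pow_succ']
    exact congrArg (fun S : Module.End (ZMod 2) V => S v) h1
  have hA : ∀ v : V, T ((T ^ 4) v - v) = (T ^ 4) v - v := by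
    intro v
    apply hcon
    rw [map_sub, h8v]
    rw [← neg_sub, ZModModule.neg_eq_self]
  have hN : ∀ v : V, T (T v - v) = T v - v := by
    intro v
    apply hcon
    have h1 := hA v
    rw [map_sub, hTc]
    rw [map_sub] at h1
    rw [← sub_eq_zero] at h1 ⊢
    rw [← h1]
    abel
  apply LinearMap.ext
  intro v
  have h2 : T (T v) = v := by
    have h1 := hN v
    rw [map_sub, sub_eq_iff_eq_add] at h1
    rw [h1]
    have h3 : T v - v + T v = (T v + T v) - v := by abel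
    rw [h3, ZModModule.add_self, zero_sub, ZModModule.neg_eq_self]
  show (T ^ 4) v = v
  have h5 : (T ^ 4) v = T (T (T (T v))) := by
    simp only [pow_succ, pow_zero, one_mul, Module.End.mul_apply]
  rw [h5, h2, h2]

/-- an odd element inverted by `x' = (p' * g) ^ 4` in the coset `Q * s`.

Proof. Let `x = g ^ 4`, `x' = (p' * g) ^ 4`: `x' = k * x` with `k ∈ Q` (compute in `F ⧸ Q`), `x' ^ 2 = 1`
(`zb_pow8`). `y = x' * (s⁻¹ * x' * s)` is inverted by `x'` and in `F ⧸ Q` it is equal to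
`x * s⁻¹ * x * s = s ^ 2` (`S.hxs`, `x ^ 2 = 1`). Let `m` be odd with `y ^ (m * 8) = 1` (`hexp`), `s ^ m = 1`
(`s` has order a power of `r` and order dividing `m * 8`, `tw_one`-type argument). Let
`l ≡ 0 mod 8`, `l ≡ 1 mod m`: `(y ^ l) ^ m = 1`, `y ^ l ≡ s ^ (2 * l) = s ^ 2 mod Q`. `ρ = (y ^ l) ^ j` with
`j = (m + 1) / 2`: `ρ ≡ s ^ (m + 1) = s mod Q`. -/
theorem zb_rho {m : ℕ} (hm : Odd m) {F : Type} [Group F] [Finite F]
    (hexp : ∀ x : F, x ^ (m * 2 ^ 3) = 1) {r : ℕ} (hr : r.Prime) (hr2 : r ≠ 2) {Q R : Subgroup F}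
    [Q.Normal] {g s : F} (D : ZMinB r Q R g) (hs : s ∈ R)
    (hxs : g ^ 4 * s * (g ^ 4)⁻¹ = s⁻¹) {p' : F} (hp' : p' ∈ Q) :
    ∃ ρ k : F, k ∈ Q ∧ ρ = k * s ∧ ρ ^ m = 1 ∧
      (p' * g) ^ 4 * ρ * ((p' * g) ^ 4)⁻¹ = ρ⁻¹ := by
  obtain ⟨L, t, hL, hLt⟩ := zw_exp hm
  have hQn : Q.Normal := inferInstance
  have hp8 : (p' * g) ^ 8 = 1 := zb_pow8 hm hexp D hp'
  obtain ⟨x', hx'⟩ : ∃ x', x' = (p' * g) ^ 4 := ⟨_, rfl⟩
  rw [← hx']
  have hx2 : x' * x' = 1 := by rw [hx', ← pow_add]; exact hp8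
  have hxi : x'⁻¹ = x' := inv_eq_of_mul_eq_one_right hx2
  have hsm : s ^ m = 1 := by
    haveI : Fact (Nat.Prime r) := ⟨hr⟩
    obtain ⟨k, hk⟩ := (IsPGroup.iff_orderOf.1 D.core.hR) ⟨s, hs⟩
    rw [Subgroup.orderOf_mk] at hk
    have h1 : orderOf s ∣ m * 2 ^ 3 := orderOf_dvd_of_pow_eq_one (hexp s)
    have h2 : Nat.Coprime (orderOf s) (2 ^ 3) := by
      rw [hk]
      apply Nat.Coprime.pow
      exact (Nat.coprime_primes hr Nat.prime_two).2 hr2
    exact orderOf_dvd_iff_pow_eq_one.1 (h2.dvd_of_dvd_mul_right h1)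
  obtain ⟨y, hy⟩ : ∃ y, y = x' * (s⁻¹ * x' * s) := ⟨_, rfl⟩
  have hyinv : x' * y * x'⁻¹ = y⁻¹ := by
    rw [hy]
    calc x' * (x' * (s⁻¹ * x' * s)) * x'⁻¹ = (x' * x') * (s⁻¹ * x' * s) * x'⁻¹ := by group
      _ = s⁻¹ * x'⁻¹ * s * x'⁻¹ := by rw [hx2, hxi]; group
      _ = (x' * (s⁻¹ * x' * s))⁻¹ := by group
  have hπ : (QuotientGroup.mk' Q) (y ^ L) = (QuotientGroup.mk' Q) s := by
    have h1 : (QuotientGroup.mk' Q) p' = 1 := (QuotientGroup.eq_one_iff p').2 hp'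
    have h2 : (QuotientGroup.mk' Q) x' = (QuotientGroup.mk' Q) (g ^ 4) := by
      rw [hx', map_pow, map_mul, h1, one_mul, map_pow]
    have h3 : g ^ 4 * (s⁻¹ * g ^ 4 * s) = s ^ 2 := by
      have e1 : g ^ 4 * g ^ 4 = 1 := by rw [← pow_add]; exact D.hg
      have e2 : (g ^ 4)⁻¹ = g ^ 4 := inv_eq_of_mul_eq_one_right e1
      have e3 : g ^ 4 * s⁻¹ * (g ^ 4)⁻¹ = s := by
        have := congrArg (fun z => z⁻¹) hxs
        simp only [inv_inv] at this
        calc g ^ 4 * s⁻¹ * (g ^ 4)⁻¹ = (g ^ 4 * s * (g ^ 4)⁻¹)⁻¹ := by group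
          _ = s := this
      calc g ^ 4 * (s⁻¹ * g ^ 4 * s) = (g ^ 4 * s⁻¹ * (g ^ 4)⁻¹) * (g ^ 4 * g ^ 4) * s := by group
        _ = s ^ 2 := by rw [e3, e1, mul_one, pow_two]
    have h4 : (QuotientGroup.mk' Q) y = (QuotientGroup.mk' Q) (s ^ 2) := by
      rw [hy, map_mul, map_mul, map_mul, h2, ← map_mul, ← map_mul, ← map_mul, h3]
    rw [map_pow, h4, ← map_pow, ← pow_mul, hLt, pow_add, pow_one, pow_mul, hsm, one_pow, mul_one]
  refine ⟨y ^ L, y ^ L * s⁻¹, ?_, by group, ?_, ?_⟩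
  · rw [← QuotientGroup.eq_one_iff]
    have h1 : ((y ^ L * s⁻¹ : F) : F ⧸ Q) = (QuotientGroup.mk' Q) (y ^ L) * ((QuotientGroup.mk' Q) s)⁻¹ := rfl
    rw [h1, hπ, mul_inv_cancel]
  · obtain ⟨l, rfl⟩ := hL
    rw [← pow_mul, mul_comm 8 l, mul_assoc l 8 m, mul_comm l, pow_mul, mul_comm 8 m]
    have h1 := hexp y
    norm_num at h1
    rw [h1, one_pow]
  · rw [← conj_pow, hyinv, inv_pow]

/-- **(W)**

Proof. Let `g' = p' * g`, `x' = g' ^ 4`, `ρ` from `zb_rho`, `v` from `zb_vec` (`T = τ g`, `zb_x1`), `p ∈ Q`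
with `φ p = v`, `w = ρ * p`, `C = closure {g', w⁻¹ * g' * w}`. `τ` is trivial on `Q` (`M`: `φ` is additive and
`φ (q * y * q⁻¹) = τ q (φ y)`), so `τ g' = τ g`, `τ x' = τ (g ^ 4)`.
`x' ∈ C`, `w⁻¹ * x' * w ∈ C` and (`x' ^ 2 = 1`) `x' * (w⁻¹ * x' * w) = φ₁ * (p⁻¹ * ρ ^ 2 * p)` with
`φ₁ = x' * p⁻¹ * x'⁻¹ * p ∈ Q`, `φ φ₁ = τ (g ^ 4) (- v) + v = 0`; so `φ₁` is centralized by `Q` and `R` (`M.ker`),
so by `ρ = k * s` and `p`; `φ₁ ^ 8 = 1`, `(p⁻¹ * ρ ^ 2 * p) ^ m = 1`. A power (exponent `≡ 0 mod 8`,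
`≡ 1 mod m`, times `(m + 1) / 2`) of `φ₁ * (p⁻¹ * ρ ^ 2 * p)` is `ρ'' = p⁻¹ * ρ * p`. So `ρ'' ∈ C`.
`w = p * ρ''`; `p⁻¹ * g' * p = ρ'' * (w⁻¹ * g' * w) * ρ''⁻¹ ∈ C`, and `h = p⁻¹ * (g' * p * g'⁻¹) ∈ C ⊓ Q`,
`φ h = - v + τ g v ≠ 0`. `ρ'' = (p⁻¹ * k * (s * p * s⁻¹)) * s`. `zt_coverB` for `C`: `Q ≤ C`; `p ∈ C`, `w ∈ C`. -/
theorem zt_W {m : ℕ} (hm : Odd m) {F : Type} [Group F] [Finite F]
    (hexp : ∀ x : F, x ^ (m * 2 ^ 3) = 1) {r : ℕ} (hr : r.Prime) (hr2 : r ≠ 2) {Q R : Subgroup F}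
    [Q.Normal] {g s : F} (D : ZMinB r Q R g) {V : Type} [AddCommGroup V] [Module (ZMod 2) V]
    {τ : F →* Module.End (ZMod 2) V} {φ : Q → V} (M : ZMd Q R τ φ)
    (S : ZRb r R g s τ) {p' : F} (hp' : p' ∈ Q) :
    ∃ w : F, w ∈ closure {p' * g, w⁻¹ * (p' * g) * w} ∧
      Q ≤ closure {p' * g, w⁻¹ * (p' * g) * w} := by
  classical
  obtain ⟨L, t, hL, hLt⟩ := zw_exp hm
  have hQn : Q.Normal := inferInstance
  obtain ⟨ρ, k, hk, hρk, hρm, hρx⟩ := zb_rho hm hexp hr hr2 D S.hs S.hxs hp'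
  have hp8 : (p' * g) ^ 8 = 1 := zb_pow8 hm hexp D hp'
  obtain ⟨g', hg'⟩ : ∃ g', g' = p' * g := ⟨_, rfl⟩
  rw [← hg'] at hρx hp8 ⊢
  obtain ⟨x', hx'⟩ : ∃ x', x' = g' ^ 4 := ⟨_, rfl⟩
  rw [← hx'] at hρx
  have hx2 : x' * x' = 1 := by rw [hx', ← pow_add]; exact hp8
  have hxi : x'⁻¹ = x' := inv_eq_of_mul_eq_one_right hx2
  have φ1 : φ 1 = 0 := by
    have h1 := M.add 1 1
    rw [mul_one] at h1
    exact left_eq_add.1 h1
  have φinv : ∀ a : Q, φ a⁻¹ = - φ a := by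
    intro a
    have h1 := M.add a a⁻¹
    rw [mul_inv_cancel, φ1] at h1
    exact (neg_eq_of_add_eq_zero_right h1.symm).symm
  have hτQ : ∀ q ∈ Q, τ q = 1 := by
    intro q hq
    apply LinearMap.ext
    intro v
    obtain ⟨y, rfl⟩ := M.surj v
    rw [← M.eqv q y]
    have h1 : (⟨q * y * q⁻¹, hQn.conj_mem _ y.2 q⟩ : Q) = ⟨q, hq⟩ * y * (⟨q, hq⟩ : Q)⁻¹ := rfl
    rw [h1, M.add, M.add, φinv]
    show _ = φ y
    abel
  have hτg : τ g' = τ g := by rw [hg', map_mul, hτQ p' hp', one_mul]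
  have hτx : τ x' = τ (g ^ 4) := by rw [hx', map_pow, hτg, map_pow]
  have hT8 : (τ g) ^ 8 = 1 := by rw [← map_pow, D.hg, map_one]
  have hT4 : (τ g) ^ 4 ≠ 1 := by rw [← map_pow]; exact zb_x1 hr hr2 D M
  obtain ⟨v, hv4, hv1⟩ := zb_vec hT8 hT4
  obtain ⟨p, rfl⟩ := M.surj v
  have hvx : τ x' (φ p) = φ p := by rw [hτx, map_pow]; exact hv4
  obtain ⟨w, hw⟩ : ∃ w, w = ρ * (p : F) := ⟨_, rfl⟩
  obtain ⟨C, hC⟩ : ∃ C, C = closure {g', w⁻¹ * g' * w} := ⟨_, rfl⟩
  have hgC : g' ∈ C := by rw [hC]; exact subset_closure (by simp)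
  have hwgC : w⁻¹ * g' * w ∈ C := by rw [hC]; exact subset_closure (by simp)
  have hxC : x' ∈ C := by rw [hx']; exact pow_mem hgC 4
  have hwxC : w⁻¹ * x' * w ∈ C := by
    have h1 : w⁻¹ * x' * w = (w⁻¹ * g' * w) ^ 4 := by
      rw [hx']
      have := conj_pow (i := 4) (a := w⁻¹) (b := g')
      rw [inv_inv] at this
      exact this.symm
    rw [h1]
    exact pow_mem hwgC 4
  -- the element `φ₁`
  let φ₁ : Q := ⟨x' * (p : F)⁻¹ * x'⁻¹, hQn.conj_mem _ (Q.inv_mem p.2) x'⟩ * p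
  have hφ₁ : φ φ₁ = 0 := by
    show φ (⟨x' * (p : F)⁻¹ * x'⁻¹, hQn.conj_mem _ (Q.inv_mem p.2) x'⟩ * p) = 0
    rw [M.add]
    have h1 : (⟨x' * (p : F)⁻¹ * x'⁻¹, hQn.conj_mem _ (Q.inv_mem p.2) x'⟩ : Q) =
        ⟨x' * ((p⁻¹ : Q) : F) * x'⁻¹, hQn.conj_mem _ (p⁻¹).2 x'⟩ := rfl
    rw [h1, M.eqv, φinv, map_neg, hvx, neg_add_cancel]
  have h1R := (M.ker φ₁ hφ₁).1
  have h1Q := (M.ker φ₁ hφ₁).2
  have h1ρ : ρ * (φ₁ : F) = φ₁ * ρ := by
    rw [hρk]
    calc k * s * (φ₁ : F) = k * (s * φ₁) := by group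
      _ = k * (φ₁ * s) := by rw [h1R s S.hs]
      _ = (k * φ₁) * s := by group
      _ = (φ₁ * k) * s := by rw [h1Q k hk]
      _ = _ := by group
  have h1p : (φ₁ : F) * p = p * φ₁ := h1Q p p.2
  obtain ⟨E, hE⟩ : ∃ E, E = (p : F)⁻¹ * ρ ^ 2 * p := ⟨_, rfl⟩
  have hcE : Commute (φ₁ : F) E := by
    have c1 : Commute (φ₁ : F) ρ := h1ρ.symm
    have c2 : Commute (φ₁ : F) p := h1p
    rw [hE]
    exact (c2.inv_right.mul_right (c1.pow_right 2)).mul_right c2
  have hprod : x' * (w⁻¹ * x' * w) = φ₁ * E := by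
    have e1 : ρ⁻¹ * x' = x' * ρ := by
      rw [← hρx]
      group
    rw [hE, hw]
    show x' * ((ρ * (p : F))⁻¹ * x' * (ρ * p)) =
      (x' * (p : F)⁻¹ * x'⁻¹ * p) * ((p : F)⁻¹ * ρ ^ 2 * p)
    calc x' * ((ρ * (p : F))⁻¹ * x' * (ρ * p))
        = x' * (p : F)⁻¹ * (ρ⁻¹ * x') * ρ * p := by group
      _ = x' * (p : F)⁻¹ * (x' * ρ) * ρ * p := by rw [e1]
      _ = x' * (p : F)⁻¹ * (x'⁻¹ * ρ) * ρ * p := by rw [hxi]
      _ = _ := by rw [pow_two]; group
  have hρ''C : (p : F)⁻¹ * ρ * p ∈ C := by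
    have h1 : (φ₁ * E) ^ L = (p : F)⁻¹ * ρ * p := by
      rw [hcE.mul_pow]
      have h2 : (φ₁ : F) ^ L = 1 := by
        obtain ⟨l, rfl⟩ := hL
        have h3 := D.core.hQ φ₁ φ₁.2
        norm_num at h3
        rw [pow_mul, h3, one_pow]
      have h4 : E ^ L = (p : F)⁻¹ * ρ * p := by
        have h5 := conj_pow (i := L) (a := (p : F)⁻¹) (b := ρ ^ 2)
        rw [inv_inv] at h5
        rw [hE, h5, ← pow_mul, hLt, pow_add, pow_one, pow_mul, hρm, one_pow, mul_one]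
      rw [h2, h4, one_mul]
    rw [← h1, ← hprod]
    exact pow_mem (mul_mem hxC hwxC) L
  have hwp : w = p * ((p : F)⁻¹ * ρ * p) := by
    rw [hw]
    group
  have hpg : (p : F)⁻¹ * g' * p ∈ C := by
    have h1 : (p : F)⁻¹ * g' * p =
        ((p : F)⁻¹ * ρ * p) * (w⁻¹ * g' * w) * ((p : F)⁻¹ * ρ * p)⁻¹ := by
      rw [hw]
      group
    rw [h1]
    exact mul_mem (mul_mem hρ''C hwgC) (inv_mem hρ''C)
  let h : Q := p⁻¹ * ⟨g' * p * g'⁻¹, hQn.conj_mem _ p.2 g'⟩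
  have hh : (h : F) ∈ C := by
    have h1 : (h : F) = ((p : F)⁻¹ * g' * p) * g'⁻¹ := by
      show (p : F)⁻¹ * (g' * p * g'⁻¹) = _
      group
    rw [h1]
    exact mul_mem hpg (inv_mem hgC)
  have hh0 : φ h ≠ 0 := by
    show φ (p⁻¹ * ⟨g' * p * g'⁻¹, hQn.conj_mem _ p.2 g'⟩) ≠ 0
    rw [M.add, φinv, M.eqv, hτg]
    intro h0
    exact hv1 (neg_add_eq_zero.1 h0).symm
  have hk'' : (p : F)⁻¹ * k * (s * p * s⁻¹) ∈ Q :=
    Q.mul_mem (Q.mul_mem (Q.inv_mem p.2) hk) (hQn.conj_mem _ p.2 s)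
  have hsC : (p : F)⁻¹ * k * (s * p * s⁻¹) * s ∈ C := by
    have h1 : (p : F)⁻¹ * k * (s * p * s⁻¹) * s = (p : F)⁻¹ * ρ * p := by
      rw [hρk]
      group
    rw [h1]
    exact hρ''C
  have hQC : Q ≤ C := zt_coverB hr hr2 D M S C hp' hk'' (by rw [← hg']; exact hgC) hsC hh hh0
  refine ⟨w, ?_, ?_⟩
  · rw [← hC, hwp]
    exact mul_mem (hQC p.2) hρ''C
  · rw [← hC]
    exact hQC

end Pool.Agent.Lib.MP_544bd1_al
end

section

/-!
General even exponents, section 2 (the base): the structure of `R`.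
-/

namespace Pool.Agent.Lib.MP_544bd1_al

open Subgroup

private theorem zsBRb_cent {F : Type} [Group F] {Q R : Subgroup F} [Q.Normal]
    {V : Type} [AddCommGroup V] [Module (ZMod 2) V]
    {τ : F →* Module.End (ZMod 2) V} {φ : Q → V} (M : ZMd Q R τ φ) {c : F}
    (hc : ∀ q ∈ Q, c * q = q * c) : τ c = 1 := by
  ext v
  obtain ⟨y, rfl⟩ := M.surj v
  have h := M.eqv c y
  have h2 : (⟨c * y * c⁻¹, (inferInstance : Q.Normal).conj_mem _ y.2 c⟩ : Q) = y := by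
    apply Subtype.ext
    show c * y * c⁻¹ = y
    rw [hc y y.2, mul_inv_cancel_right]
  rw [h2] at h
  rw [← h]
  rfl

private theorem zsBRb_sq {F : Type} [Group F] {r : ℕ} (hr : r.Prime) (hr2 : r ≠ 2)
    {R : Subgroup F} (hR : IsPGroup r R) {s : F} (hs : s ∈ R) {q : F}
    (h : s⁻¹ * s⁻¹ * q = q * (s⁻¹ * s⁻¹)) : s * q = q * s := by
  obtain ⟨k, hk⟩ := hR ⟨s, hs⟩
  have hk' : s ^ (r ^ k) = 1 := congrArg Subtype.val hk
  obtain ⟨j, hj⟩ : Odd (r ^ k) := (hr.odd_of_ne_two hr2).pow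
  have h1 : s = (s⁻¹ * s⁻¹) ^ j := by
    have h2 : (s⁻¹ * s⁻¹) ^ j = (s ^ (2 * j))⁻¹ := by
      rw [← mul_inv_rev, inv_pow, ← pow_two, ← pow_mul]
    rw [h2]
    rw [hj, pow_succ] at hk'
    exact eq_inv_of_mul_eq_one_right hk'
  have h3 : Commute (s⁻¹ * s⁻¹) q := h
  have h4 := (h3.pow_left j).eq
  rwa [← h1] at h4

private theorem zsBRb_pow {F : Type} [Group F] {w : F} {K : Subgroup F}
    (h : ∀ x ∈ K, w * x * w⁻¹ ∈ K) : ∀ n : ℕ, ∀ x ∈ K, w ^ n * x * (w ^ n)⁻¹ ∈ K := by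
  intro n
  induction n with
  | zero => intro x hx; simpa using hx
  | succ n ih =>
    intro x hx
    have := h _ (ih x hx)
    rwa [show w * (w ^ n * x * (w ^ n)⁻¹) * w⁻¹ = w ^ (n + 1) * x * (w ^ (n + 1))⁻¹ by
      rw [pow_succ']; group] at this

/-- **Structure of `R`.** (Compare `zt_Rb`, ZtRb.lean.)

Proof. Let `x = g ^ (2 ^ (a - 1))`. There is `s ∈ R` inverted by `x` with `τ s ≠ 1`: otherwise by `D.gen`
(for the subgroup of the `c` with `τ c = 1`, the kernel of `τ`) `τ = 1` on `R`, contradiction to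
`M.faith`, `D.core.ne`. `gen`: let `R₁` be the subgroup generated by the `g ^ i * s * (g ^ i)⁻¹` and the
`c ∈ R` with `τ c = 1`; it is contained in `R` and `S` and it is normalized by `g`; if `R₁ ≠ R` then by
`D.minR` `x * s * x⁻¹ * s⁻¹ = s⁻¹ * s⁻¹` centralizes `Q`, so `s` does (`zsBmin_sq`), `τ s = 1` (`zsrb_cent`),
contradiction. `cl`, `cx`: the first two parts of `zs_Rg` for the images under `τ.toHomUnits` in
`(Module.End (ZMod 2) V)ˣ` (a finite group), exactly as in the proof of `zt_Rb` (ZtRb.lean). `fix`: the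
common fixed vectors `W` of the `τ (b * c * b⁻¹ * c⁻¹)`, `b, c ∈ R`, form a submodule invariant under
`R` and `g` (a conjugate of a commutator is a commutator); so by the last part of `zs_irr` (`x := g`,
`D.core`) `W = ⊥` or `W = ⊤`; `W = ⊤` contradicts `zsb_nc`. `irr`: let `W` be invariant under `τ s` and
`τ g`; the set of the `c` with `τ c v ∈ W` and `τ c⁻¹ v ∈ W` for all `v ∈ W` is a subgroup containing `g`
and `s` (`F` is finite, `c⁻¹` is a power of `c`), so by `gen` it contains `R`; `zs_irr`. -/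
theorem zs_Rb {m a : ℕ} (ha : 0 < a) (hm : Odd m) {F : Type} [Group F] [Finite F]
    (hexp : ∀ x : F, x ^ (m * 2 ^ a) = 1) {r : ℕ} (hr : r.Prime) (hr2 : r ≠ 2) {Q R : Subgroup F}
    [Q.Normal] {g : F} (D : ZsMin r a Q R g) {V : Type} [AddCommGroup V] [Module (ZMod 2) V]
    [Finite V] {τ : F →* Module.End (ZMod 2) V} {φ : Q → V} (M : ZMd Q R τ φ) :
    ∃ s, ZsRb r a R g s τ := by
  classical
  haveI hEnd : Finite (Module.End (ZMod 2) V) :=
    Finite.of_injective (fun (l : Module.End (ZMod 2) V) => (l : V → V)) DFunLike.coe_injective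
  haveI hUn : Finite (Module.End (ZMod 2) V)ˣ :=
    Finite.of_injective (fun u : (Module.End (ZMod 2) V)ˣ => (u : Module.End (ZMod 2) V))
      Units.val_injective
  obtain ⟨f, hfd⟩ : ∃ f : F →* (Module.End (ZMod 2) V)ˣ, f = τ.toHomUnits := ⟨_, rfl⟩
  have hval : ∀ c, ((f c : (Module.End (ZMod 2) V)ˣ) : Module.End (ZMod 2) V) = τ c := by
    intro c
    rw [hfd]
    rfl
  have hiff : ∀ a b, f a = f b ↔ τ a = τ b := by
    intro a b
    constructor
    · intro h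
      rw [← hval, ← hval, h]
    · intro h
      apply Units.ext
      rw [hval, hval, h]
  have hker : ∀ c, c ∈ f.ker ↔ τ c = 1 := by
    intro c
    rw [MonoidHom.mem_ker, ← map_one f, hiff, map_one]
  obtain ⟨x, hx⟩ : ∃ x : F, x = g ^ (2 ^ (a - 1)) := ⟨_, rfl⟩
  have hgen0 := D.gen
  have hmin0 := D.minR
  rw [← hx] at hgen0 hmin0
  -- the element `s`
  obtain ⟨s, hs, hxs, hs1⟩ : ∃ s ∈ R, x * s * x⁻¹ = s⁻¹ ∧ τ s ≠ 1 := by
    by_contra hcon
    push Not at hcon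
    have h1 : R ≤ f.ker := hgen0 _ fun s hs h => (hker s).2 (hcon s hs h)
    obtain ⟨c, hc, q, hq, hne⟩ := D.core.ne
    exact hne (M.faith c hc ((hker c).1 (h1 hc)) q hq)
  have hpowR := zsBRb_pow D.core.hxR
  -- generation
  have hgenS : ∀ S : Subgroup F, (∀ i : ℕ, g ^ i * s * (g ^ i)⁻¹ ∈ S) →
      (∀ c ∈ R, τ c = 1 → c ∈ S) → R ≤ S := by
    intro S h1 h2
    let R₁ : Subgroup F := closure ({c | ∃ i : ℕ, c = g ^ i * s * (g ^ i)⁻¹} ∪ {c | c ∈ R ∧ τ c = 1})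
    have hR1 : R₁ ≤ R := by
      rw [closure_le]
      rintro c (⟨i, rfl⟩ | ⟨hc, -⟩)
      · exact hpowR i s hs
      · exact hc
    have hR1S : R₁ ≤ S := by
      rw [closure_le]
      rintro c (⟨i, rfl⟩ | ⟨hc, hc'⟩)
      · exact h1 i
      · exact h2 c hc hc'
    have hR1g : ∀ c ∈ R₁, g * c * g⁻¹ ∈ R₁ := by
      have h3 : R₁ ≤ R₁.comap (MulAut.conj g).toMonoidHom := by
        rw [closure_le]
        rintro c (⟨i, rfl⟩ | ⟨hc, hc'⟩)
        · show g * (g ^ i * s * (g ^ i)⁻¹) * g⁻¹ ∈ R₁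
          refine subset_closure (Or.inl ⟨i + 1, ?_⟩)
          rw [pow_succ']
          group
        · show g * c * g⁻¹ ∈ R₁
          refine subset_closure (Or.inr ⟨D.core.hxR c hc, ?_⟩)
          rw [map_mul, map_mul, hc', mul_one, ← map_mul, mul_inv_cancel, map_one]
      intro c hc
      exact h3 hc
    by_cases hRR : R₁ = R
    · rw [← hRR]
      exact hR1S
    · exfalso
      apply hs1
      apply zsBRb_cent M
      intro q hq
      have hsR1 : s ∈ R₁ := subset_closure (Or.inl ⟨0, by simp⟩)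
      have h3 := hmin0 R₁ hR1 hRR hR1g s hsR1 q hq
      rw [hxs] at h3
      exact zsBRb_sq hr hr2 D.core.hR hs h3
  -- the image of `R`
  have hRbar : IsPGroup r (R.map f) := IsPGroup.map D.core.hR f
  have hgR : ∀ s ∈ R.map f, f g * s * (f g)⁻¹ ∈ R.map f := by
    rintro _ ⟨c, hc, rfl⟩
    exact ⟨g * c * g⁻¹, D.core.hxR c hc, by rw [map_mul, map_mul, map_inv]⟩
  have hgen : ∀ S : Subgroup (Module.End (ZMod 2) V)ˣ,
      (∀ s ∈ R.map f, f x * s * (f x)⁻¹ = s⁻¹ → s ∈ S) → R.map f ≤ S := by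
    intro S hS
    have h1 : R ≤ S.comap f := by
      apply hgen0
      intro s hs h
      refine hS (f s) ⟨s, hs, rfl⟩ ?_
      rw [← map_inv, ← map_mul, ← map_mul, h, map_inv]
    rintro _ ⟨c, hc, rfl⟩
    exact h1 hc
  have hmin : ∀ R₁ : Subgroup (Module.End (ZMod 2) V)ˣ, R₁ ≤ R.map f → R₁ ≠ R.map f →
      (∀ s ∈ R₁, f g * s * (f g)⁻¹ ∈ R₁) → ∀ s ∈ R₁, f x * s = s * f x := by
    intro R₁ h1 h2 h3
    have h4 : R ⊓ R₁.comap f ≠ R := by
      intro h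
      apply h2
      refine le_antisymm h1 ?_
      rintro _ ⟨c, hc, rfl⟩
      have hc' : c ∈ R := hc
      rw [← h] at hc'
      exact (mem_inf.1 hc').2
    have h5 := hmin0 _ inf_le_left h4 (by
      intro s hs
      obtain ⟨hs1, hs2⟩ := mem_inf.1 hs
      refine mem_inf.2 ⟨D.core.hxR s hs1, ?_⟩
      rw [mem_comap, map_mul, map_mul, map_inv]
      exact h3 _ hs2)
    intro s hs
    obtain ⟨c, hc, rfl⟩ := h1 hs
    have h6 := zsBRb_cent M (h5 c (mem_inf.2 ⟨hc, hs⟩))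
    have h7 : f (x * c * x⁻¹ * c⁻¹) = f 1 := (hiff _ _).2 (by rw [h6, map_one])
    have h8 : f (x * c) = f (c * x) := by
      calc f (x * c) = f ((x * c * x⁻¹ * c⁻¹) * (c * x)) := by
            congr 1
            group
        _ = f (c * x) := by rw [map_mul, h7, ← map_mul, one_mul]
    rw [map_mul, map_mul] at h8
    exact h8
  obtain ⟨k1, k2, -⟩ := zs_Rg hr hr2 hRbar hgR hgen hmin
  have hirr := (zs_irr hr hr2 D.core M).2.2.2
  have hinvg : ∀ b ∈ R, g⁻¹ * b * g ∈ R := by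
    intro b hb
    have h1 := hpowR (2 ^ a - 1) b hb
    have h2 : g ^ (2 ^ a - 1) = g⁻¹ := by
      have h3 : g ^ (2 ^ a - 1) * g = 1 := by
        rw [← pow_succ, Nat.sub_add_cancel (Nat.one_le_two_pow), D.hg]
      exact eq_inv_of_mul_eq_one_left h3
    rw [h2, inv_inv] at h1
    exact h1
  refine ⟨s, hs, ?_, hs1, hgenS, ?_, ?_, ?_, ?_⟩
  · rw [← hx]
    exact hxs
  · intro b hb c hc d hd
    rw [← hiff]
    have h1 := k1 (f b) ⟨b, hb, rfl⟩ (f c) ⟨c, hc, rfl⟩ (f d) ⟨d, hd, rfl⟩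
    simp only [map_mul, map_inv]
    exact h1
  · intro b hb c hc
    rw [← hx, ← hiff]
    have h1 := k2 (f b) ⟨b, hb, rfl⟩ (f c) ⟨c, hc, rfl⟩
    simp only [map_mul, map_inv]
    exact h1
  · -- the common fixed vectors
    let W : Submodule (ZMod 2) V :=
      { carrier := {v | ∀ b ∈ R, ∀ c ∈ R, τ (b * c * b⁻¹ * c⁻¹) v = v}
        add_mem' := by
          intro v w hv hw b hb c hc
          rw [map_add, hv b hb c hc, hw b hb c hc]
        zero_mem' := fun b _ c _ => map_zero _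
        smul_mem' := by
          intro k v hv b hb c hc
          rw [map_smul, hv b hb c hc] }
    have hWd : ∀ d : F, (∀ b ∈ R, d⁻¹ * b * d ∈ R) → ∀ v ∈ W, τ d v ∈ W := by
      intro d hd v hv b hb c hc
      have h1 : b * c * b⁻¹ * c⁻¹ * d = d * ((d⁻¹ * b * d) * (d⁻¹ * c * d) * (d⁻¹ * b * d)⁻¹ *
          (d⁻¹ * c * d)⁻¹) := by group
      rw [← Module.End.mul_apply, ← map_mul, h1, map_mul, Module.End.mul_apply,
        hv _ (hd b hb) _ (hd c hc)]
    rcases hirr W (fun d hd => hWd d fun b hb => by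
        have := R.mul_mem (R.mul_mem (R.inv_mem hd) hb) hd
        exact this) (hWd g hinvg) with h | h
    · intro v hv
      have h1 : v ∈ W := hv
      rw [h, Submodule.mem_bot] at h1
      exact h1
    · exfalso
      obtain ⟨b, hb, c, hc, hbc⟩ := zsb_nc ha hm hexp hr hr2 D M
      apply hbc
      have h1 : τ (b * c * b⁻¹ * c⁻¹) = 1 := by
        ext v
        have h2 : v ∈ W := by rw [h]; exact Submodule.mem_top
        exact h2 b hb c hc
      have h3 : b * c = (b * c * b⁻¹ * c⁻¹) * (c * b) := by group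
      rw [h3, map_mul, h1, one_mul]
  · intro W hWs hWg
    have hpow : ∀ c : F, (∀ v ∈ W, τ c v ∈ W) → ∀ n : ℕ, ∀ v ∈ W, τ (c ^ n) v ∈ W := by
      intro c hc n
      induction n with
      | zero => intro v hv; rw [pow_zero, map_one]; exact hv
      | succ n ih =>
        intro v hv
        rw [pow_succ, map_mul, Module.End.mul_apply]
        exact ih _ (hc v hv)
    have hinv : ∀ c : F, (∀ v ∈ W, τ c v ∈ W) → ∀ v ∈ W, τ c⁻¹ v ∈ W := by
      intro c hc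
      have h1 : c⁻¹ = c ^ (orderOf c - 1) := by
        have h2 : c ^ (orderOf c - 1) * c = 1 := by
          rw [← pow_succ, Nat.sub_add_cancel (orderOf_pos c), pow_orderOf_eq_one]
        exact (eq_inv_of_mul_eq_one_left h2).symm
      rw [h1]
      exact hpow c hc _
    let S : Subgroup F :=
      { carrier := {c | ∀ v ∈ W, τ c v ∈ W}
        one_mem' := by
          intro v hv
          rw [map_one]
          exact hv
        mul_mem' := by
          intro b c hb hc v hv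
          rw [map_mul, Module.End.mul_apply]
          exact hb _ (hc v hv)
        inv_mem' := by
          intro b hb
          exact hinv b hb }
    have hgS : g ∈ S := hWg
    have hsS : s ∈ S := hWs
    have hRS : R ≤ S := by
      apply hgenS
      · intro i
        exact S.mul_mem (S.mul_mem (S.pow_mem hgS i) hsS) (S.inv_mem (S.pow_mem hgS i))
      · intro c _ hc v hv
        rw [hc]
        exact hv
    exact hirr W (fun d hd => hRS hd) hWg

end Pool.Agent.Lib.MP_544bd1_al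
end
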