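import Mathlib
import Pool.Agent.Lib.MP_544bd1_al.ZsWt
import Pool.Agent.Lib.MP_544bd1_al.ZtNorm
import Pool.Agent.Lib.MP_544bd1_al.ZtFrat
import Pool.Agent.Lib.MP_544bd1_al.TwR4
import Pool.Agent.Lib.MP_544bd1_al.ZsC0

section

/-!
Theorem Z (paper 287), 4.4: transport of the relations to a lifted group.
-/

namespace Pool.Agent.Lib.MP_544bd1_al

open Subgroup

/-- **Transport of the relations.** `f` maps `R'` bijectively onto `R`.

Proof. `e₁ ∈ R'` with `f e₁ = e`; `e₁' = g ^ (2 ^ (a - 2)) * e₁ * (g ^ (2 ^ (a - 2)))⁻¹`,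
`c₁ = e₁ * e₁' * e₁⁻¹ * e₁'⁻¹`. All powers of `g`, `τ`, `γ i` normalize `R'`; so
`yE g τ e₁ i l ∈ R'`, and `f (yE g τ e₁ i l) = yE (f g) (f τ) e i l`. An equation between elements of
`R'` follows from its image under `f` (`hinj`); e.g. `κR`: `(g ^ n * r * (g ^ n)⁻¹) * r⁻¹ ∈ R'` has the
image `1`. `gen`, `γB`: an element `x ∈ R'` with `f x` in the closure of the `f (yE g τ e₁ i l)`, which is the
image under `f` of the closure of the `yE g τ e₁ i l`, is in this closure (`hinj`). `γc`: closure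
`≤ R'`, the image of the closure is the closure of the images. -/
theorem YR.lift {a k : ℕ} {X H : Type} [Group X] [Group H] (f : X →* H) {R' : Subgroup X}
    {R : Subgroup H} {g τ : X} {γ : ℕ → X} {e e' c : H}
    (D : YR a k R (f g) (f τ) e e' c (fun i => f (γ i))) (h3 : IsPGroup 3 R')
    (h1 : ∀ x ∈ R', f x ∈ R) (h2 : ∀ y ∈ R, ∃ x ∈ R', f x = y) (hinj : ∀ x ∈ R', f x = 1 → x = 1)
    (hg : ∀ x ∈ R', g * x * g⁻¹ ∈ R') (hτ : ∀ x ∈ R', τ * x * τ⁻¹ ∈ R')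
    (hγ : ∀ i < 3 ^ k, ∀ x ∈ R', γ i * x * (γ i)⁻¹ ∈ R') :
    ∃ e₁ e₁' c₁ : X, f e₁ = e ∧ YR a k R' g τ e₁ e₁' c₁ γ := by
  obtain ⟨e₁, he₁, hfe⟩ := h2 e D.he
  have eqR : ∀ x ∈ R', ∀ y ∈ R', f x = f y → x = y := by
    intro x hx y hy hxy
    have h4 : x * y⁻¹ = 1 := by
      refine hinj _ (R'.mul_mem hx (R'.inv_mem hy)) ?_
      rw [map_mul, map_inv, hxy, mul_inv_cancel]
    exact mul_inv_eq_one.1 h4
  have hconj : ∀ h x : X, x ∈ R' → h * x * h⁻¹ ∈ R' → f h * f x = f x * f h → h * x = x * h := by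
    intro h x hx hhx he
    have h4 : h * x * h⁻¹ = x := by
      refine eqR _ hhx _ hx ?_
      rw [map_mul, map_mul, map_inv, he, mul_assoc, mul_inv_cancel, mul_one]
    exact mul_inv_eq_iff_eq_mul.1 h4
  have hgn : ∀ (n : ℕ), ∀ x ∈ R', g ^ n * x * (g ^ n)⁻¹ ∈ R' := fun n => ys_pow_mem hg n
  have hτn : ∀ (n : ℕ), ∀ x ∈ R', τ ^ n * x * (τ ^ n)⁻¹ ∈ R' := fun n => ys_pow_mem hτ n
  have hγn : ∀ i < 3 ^ k, ∀ (n : ℕ), ∀ x ∈ R', γ i ^ n * x * (γ i ^ n)⁻¹ ∈ R' :=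
    fun i hi n => ys_pow_mem (hγ i hi) n
  have hyE : ∀ i l, yE g τ e₁ i l ∈ R' := by
    intro i l
    have h4 : yE g τ e₁ i l = τ ^ i * (g ^ l * e₁ * (g ^ l)⁻¹) * (τ ^ i)⁻¹ := by
      unfold yE
      group
    rw [h4]
    exact hτn i _ (hgn l _ he₁)
  have hfyE : ∀ i l, f (yE g τ e₁ i l) = yE (f g) (f τ) e i l := by
    intro i l
    unfold yE
    rw [map_mul, map_mul, map_inv, map_mul, map_pow, map_pow, hfe]
  obtain ⟨e₁', he₁'⟩ : ∃ z, z = g ^ (2 ^ (a - 2)) * e₁ * (g ^ (2 ^ (a - 2)))⁻¹ := ⟨_, rfl⟩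
  obtain ⟨c₁, hc₁⟩ : ∃ z, z = e₁ * e₁' * e₁⁻¹ * e₁'⁻¹ := ⟨_, rfl⟩
  have he₁'R : e₁' ∈ R' := by rw [he₁']; exact hgn _ _ he₁
  have hc₁R : c₁ ∈ R' := by
    rw [hc₁]
    exact R'.mul_mem (R'.mul_mem (R'.mul_mem he₁ he₁'R) (R'.inv_mem he₁)) (R'.inv_mem he₁'R)
  have hfe' : f e₁' = e' := by
    rw [he₁', D.he', map_mul, map_mul, map_inv, map_pow, hfe]
  have hfc : f c₁ = c := by
    rw [hc₁, D.hc, map_mul, map_mul, map_mul, map_inv, map_inv, hfe, hfe']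
  have hclR : ∀ i, closure {x | ∃ l, x = yE g τ e₁ i l} ≤ R' := by
    intro i
    rw [closure_le]
    rintro x ⟨l, rfl⟩
    exact hyE i l
  have himg : ∀ i, (closure {x | ∃ l, x = yE g τ e₁ i l}).map f =
      closure {x | ∃ l, x = yE (f g) (f τ) e i l} := by
    intro i
    rw [MonoidHom.map_closure]
    congr 1
    ext z
    constructor
    · rintro ⟨x, ⟨l, rfl⟩, rfl⟩
      exact ⟨l, hfyE i l⟩
    · rintro ⟨l, rfl⟩
      exact ⟨_, ⟨l, rfl⟩, hfyE i l⟩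
  have hclR2 : closure {x | ∃ i l, i < 3 ^ k ∧ x = yE g τ e₁ i l} ≤ R' := by
    rw [closure_le]
    rintro x ⟨i, l, -, rfl⟩
    exact hyE i l
  have himg2 : (closure {x | ∃ i l, i < 3 ^ k ∧ x = yE g τ e₁ i l}).map f =
      closure {x | ∃ i l, i < 3 ^ k ∧ x = yE (f g) (f τ) e i l} := by
    rw [MonoidHom.map_closure]
    congr 1
    ext z
    constructor
    · rintro ⟨x, ⟨i, l, hi, rfl⟩, rfl⟩
      exact ⟨i, l, hi, hfyE i l⟩
    · rintro ⟨i, l, hi, rfl⟩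
      exact ⟨_, ⟨i, l, hi, rfl⟩, hfyE i l⟩
  have hcmR : ∀ x ∈ R', ∀ y ∈ R', x * y * x⁻¹ * y⁻¹ ∈ R' := fun x hx y hy =>
    R'.mul_mem (R'.mul_mem (R'.mul_mem hx hy) (R'.inv_mem hx)) (R'.inv_mem hy)
  refine ⟨e₁, e₁', c₁, hfe, h3, hg, hτ, hγ, ?_, ?_, he₁, ?_, he₁', hc₁, ?_, ?_, ?_, ?_, ?_, ?_,
    ?_⟩
  · intro r hr
    refine hconj _ _ hr (hgn _ _ hr) ?_
    rw [map_pow]
    exact D.κR _ (h1 r hr)
  · intro r hr
    refine hconj _ _ hr (hτn _ _ hr) ?_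
    rw [map_pow]
    exact D.τR _ (h1 r hr)
  · refine hinj _ (R'.pow_mem he₁ 3) ?_
    rw [map_pow, hfe]
    exact D.he3
  · intro x hx y hy w hw
    refine eqR _ (R'.mul_mem (hcmR x hx y hy) hw) _ (R'.mul_mem hw (hcmR x hx y hy)) ?_
    simp only [map_mul, map_inv]
    exact D.cl _ (h1 x hx) _ (h1 y hy) _ (h1 w hw)
  · intro i l hi hl hil
    refine eqR _ (R'.mul_mem he₁ (hyE i l)) _ (R'.mul_mem (hyE i l) he₁) ?_
    rw [map_mul, map_mul, hfyE, hfe]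
    exact D.com i l hi hl hil
  · intro r hr
    have h4 := D.gen (h1 r hr)
    rw [← himg2] at h4
    obtain ⟨s, hs, hsr⟩ := h4
    rw [← eqR s (hclR2 hs) r hr hsr]
    exact hs
  · intro i hi l
    refine eqR _ (hγn i hi _ _ (hyE i l)) _ (R'.inv_mem (hyE i l)) ?_
    rw [map_mul, map_mul, map_inv, map_inv, map_pow, hfyE]
    exact D.γE i hi l
  · intro i hi l
    have h4 := D.γB i hi l
    rw [← himg i] at h4
    obtain ⟨s, hs, hsr⟩ := h4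
    have h5 : s = γ i * yE g τ e₁ i l * (γ i)⁻¹ := by
      refine eqR s (hclR i hs) _ (hγ i hi _ (hyE i l)) ?_
      rw [map_mul, map_mul, map_inv, hfyE]
      exact hsr
    rw [← h5]
    exact hs
  · intro i hi x hx y hy
    have hx' : f x ∈ closure {x | ∃ l, x = yE (f g) (f τ) e i l} := by
      rw [← himg i]
      exact ⟨x, hx, rfl⟩
    have hy' : f y ∈ closure {x | ∃ l, x = yE (f g) (f τ) e i l} := by
      rw [← himg i]
      exact ⟨y, hy, rfl⟩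
    refine hconj _ _ (hcmR x (hclR i hx) y (hclR i hy))
      (hγn i hi _ _ (hcmR x (hclR i hx) y (hclR i hy))) ?_
    simp only [map_mul, map_inv, map_pow]
    exact D.γc i hi _ hx' _ hy'
  · intro i h0 hi
    refine eqR _ (hγn i hi _ _ hc₁R) _ (R'.inv_mem hc₁R) ?_
    rw [map_mul, map_mul, map_inv, map_inv, map_pow, hfc]
    exact D.γ0 i h0 hi

end Pool.Agent.Lib.MP_544bd1_al
end

section

/-!
Theorem Z (paper 287), 4.4: coprime lifting.
-/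

namespace Pool.Agent.Lib.MP_544bd1_al

open Subgroup

/-- coprime lifting of commuting elements.

Proof. The `p`-group `zpowers z` acts by conjugation on the coset `{y | f y = f t}` (as
`f z * f t = f t * f z`), whose number of elements is that of `f.ker`, not divisible by `p`; so there is a
fixed point (`IsPGroup.nonempty_fixed_point_of_prime_not_dvd_card` or
`IsPGroup.card_modEq_card_fixedPoints`). Compare `ys_fixlift` (ZsLiftS.lean). -/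
theorem ys_fixl {F X : Type} [Group F] [Finite F] [Group X] (f : F →* X) {p n : ℕ}
    (hp : p.Prime) {z t : F} (hz : z ^ (p ^ n) = 1) (hker : ¬ p ∣ Nat.card f.ker)
    (h : f z * f t = f t * f z) : ∃ y, f y = f t ∧ z * y = y * z := by
  obtain ⟨y, hy1, hy2⟩ := tw_coset_fix hp hz f.ker hker
    (fun x hx => (inferInstance : f.ker.Normal).conj_mem x hx z) (x := t) (by
      rw [MonoidHom.mem_ker, map_mul, map_inv, map_mul, map_mul, map_inv, h]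
      group)
  refine ⟨y, ?_, hy2⟩
  rw [MonoidHom.mem_ker, map_mul, map_inv] at hy1
  exact (inv_mul_eq_one.mp hy1).symm

/-- **Lifting of a 3-group in the centralizer of `τ ^ (3 ^ k)`.**

Proof. `τ₀ = τ ^ (3 ^ k)`, `C = centralizer {τ₀}`, `S = R ⊔ zpowers (f τ)`: a 3-group since `f τ`
normalizes `R`. `B = C ⊓ S.comap f`. `f B = S`: for `s ∈ S` (which commutes with `f τ₀`) `ys_fixl` (`p = 3`,
`Nat.card f.ker` is a power of 2, by `hker`) gives a preimage in `C`. The 3-group `zpowers τ ≤ B` is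
contained in a Sylow 3-subgroup of `B` (`IsPGroup.exists_le_sylow`); let `R₁` be its image in `X`. The index of
`R₁` in `B` is prime to 3, so `f R₁ = f B = S` (see the private lemma `zthon_image` in ZtHon1.lean).
`R' = R₁ ⊓ R.comap f`. -/
theorem ys_lftA {k : ℕ} {X H : Type} [Group X] [Finite X] [Group H] (f : X →* H)
    (hf : Function.Surjective f) (hker : ∀ w ∈ f.ker, ∃ j, w ^ (2 ^ j) = 1) {τ : X}
    (hτ : ∃ j, τ ^ (3 ^ j) = 1) {R : Subgroup H} (hR : IsPGroup 3 R)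
    (hτR : ∀ r ∈ R, f τ * r * (f τ)⁻¹ ∈ R)
    (τR : ∀ r ∈ R, f τ ^ (3 ^ k) * r = r * f τ ^ (3 ^ k)) :
    ∃ R₁ R' : Subgroup X, R' ≤ R₁ ∧ τ ∈ R₁ ∧ IsPGroup 3 R₁ ∧
      (∀ x ∈ R₁, τ ^ (3 ^ k) * x = x * τ ^ (3 ^ k)) ∧
      (∀ x ∈ R₁, f x ∈ R ⊔ zpowers (f τ)) ∧ (∀ y ∈ R ⊔ zpowers (f τ), ∃ x ∈ R₁, f x = y) ∧
      (∀ x ∈ R₁, x ∈ R' ↔ f x ∈ R) := by
  classical
  have h3 : Fact (Nat.Prime 3) := ⟨Nat.prime_three⟩
  have h2 : Fact (Nat.Prime 2) := ⟨Nat.prime_two⟩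
  have hfinH : Finite H := Finite.of_surjective f hf
  obtain ⟨j, hj⟩ := hτ
  -- the group `S`
  obtain ⟨S, hS⟩ : ∃ S, S = R ⊔ zpowers (f τ) := ⟨_, rfl⟩
  have hzp : IsPGroup 3 (zpowers (f τ)) := by
    rintro ⟨x, hx⟩
    obtain ⟨i, rfl⟩ := mem_zpowers_iff.1 hx
    refine ⟨j, Subtype.ext ?_⟩
    show (f τ ^ i) ^ (3 ^ j) = 1
    rw [← zpow_natCast, ← zpow_mul, mul_comm, zpow_mul, zpow_natCast, ← map_pow, hj, map_one,
      one_zpow]
  have hnor : zpowers (f τ) ≤ normalizer (R : Set H) := by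
    rw [zpowers_le]
    exact Subgroup.mem_normalizer_fintype (S := (R : Set H)) (fun x hx => hτR x hx)
  have hSp : IsPGroup 3 S := by
    rw [hS]
    exact hR.to_sup_of_normal_left' hzp hnor
  have hScen : ∀ s ∈ S, f τ ^ (3 ^ k) * s = s * f τ ^ (3 ^ k) := by
    have h1 : S ≤ centralizer {f τ ^ (3 ^ k)} := by
      rw [hS, sup_le_iff, zpowers_le]
      constructor
      · intro r hr
        rw [mem_centralizer_singleton_iff]
        exact (τR r hr).symm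
      · rw [mem_centralizer_singleton_iff]
        rw [← pow_succ, ← pow_succ']
    intro s hs
    exact (mem_centralizer_singleton_iff.1 (h1 hs)).symm
  -- the group `B`
  obtain ⟨B, hB⟩ : ∃ B : Subgroup X, B = centralizer {τ ^ (3 ^ k)} ⊓ S.comap f := ⟨_, rfl⟩
  have hBmem : ∀ x : X, x ∈ B ↔ τ ^ (3 ^ k) * x = x * τ ^ (3 ^ k) ∧ f x ∈ S := by
    intro x
    rw [hB, mem_inf, mem_centralizer_singleton_iff, mem_comap]
    constructor
    · rintro ⟨h4, h5⟩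
      exact ⟨h4.symm, h5⟩
    · rintro ⟨h4, h5⟩
      exact ⟨h4.symm, h5⟩
  have hk2 : ¬ 3 ∣ Nat.card f.ker := by
    have h4 : IsPGroup 2 f.ker := by
      rintro ⟨w, hw⟩
      obtain ⟨i, hi⟩ := hker w hw
      exact ⟨i, Subtype.ext hi⟩
    obtain ⟨i, hi⟩ := IsPGroup.iff_card.1 h4
    rw [hi]
    intro h5
    have h6 := Nat.prime_three.dvd_of_dvd_pow h5
    omega
  have hsur : ∀ s ∈ S, ∃ y ∈ B, f y = s := by
    intro s hs
    obtain ⟨t, rfl⟩ := hf s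
    obtain ⟨y, hy1, hy2⟩ := ys_fixl f (p := 3) (n := j) Nat.prime_three (z := τ ^ (3 ^ k)) (t := t)
      (by rw [← pow_mul, mul_comm, pow_mul, hj, one_pow]) hk2 (by
        rw [map_pow]
        exact hScen _ hs)
    exact ⟨y, (hBmem y).2 ⟨hy2, by rw [hy1]; exact hs⟩, hy1⟩
  have hfτS : f τ ∈ S := by
    rw [hS]
    exact (le_sup_right : zpowers (f τ) ≤ R ⊔ zpowers (f τ)) (mem_zpowers _)
  have hτB : τ ∈ B := (hBmem τ).2 ⟨by rw [← pow_succ, ← pow_succ'], hfτS⟩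
  have hzτ : IsPGroup 3 (zpowers (⟨τ, hτB⟩ : B)) := by
    rintro ⟨x, hx⟩
    obtain ⟨i, rfl⟩ := mem_zpowers_iff.1 hx
    refine ⟨j, Subtype.ext (Subtype.ext ?_)⟩
    show (τ ^ i) ^ (3 ^ j) = 1
    rw [← zpow_natCast, ← zpow_mul, mul_comm, zpow_mul, zpow_natCast, hj, one_zpow]
  obtain ⟨Q, hQ⟩ := hzτ.exists_le_sylow
  -- the image
  obtain ⟨g, hg⟩ : ∃ g : B →* S, ∀ b : B, ((g b : S) : H) = f b :=
    ⟨(f.comp B.subtype).codRestrict S (fun b => ((hBmem b).1 b.2).2), fun b => rfl⟩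
  have hgs : Function.Surjective g := by
    rintro ⟨s, hs⟩
    obtain ⟨y, hy, hys⟩ := hsur s hs
    exact ⟨⟨y, hy⟩, Subtype.ext (by rw [hg]; exact hys)⟩
  have htop : ∀ s : S, ∃ q ∈ (Q : Subgroup B), g q = s := by
    intro s
    have h4 : (⊤ : Subgroup S) = (Q.mapSurjective hgs : Subgroup S) :=
      (Q.mapSurjective hgs).is_maximal' (hSp.to_subgroup ⊤) le_top
    have h5 : s ∈ (Q.mapSurjective hgs : Subgroup S) := by
      rw [← h4]
      trivial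
    rw [Sylow.coe_mapSurjective] at h5
    obtain ⟨q, hq, hqs⟩ := h5
    exact ⟨q, hq, hqs⟩
  refine ⟨(Q : Subgroup B).map B.subtype, (Q : Subgroup B).map B.subtype ⊓ R.comap f, inf_le_left,
    ?_, Q.isPGroup'.map B.subtype, ?_, ?_, ?_, ?_⟩
  · exact ⟨⟨τ, hτB⟩, hQ (mem_zpowers _), rfl⟩
  · rintro _ ⟨q, _, rfl⟩
    exact ((hBmem q).1 q.2).1
  · rintro _ ⟨q, _, rfl⟩
    rw [← hS]
    exact ((hBmem q).1 q.2).2
  · intro y hy
    rw [← hS] at hy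
    obtain ⟨q, hq, hqy⟩ := htop ⟨y, hy⟩
    refine ⟨q, ⟨q, hq, rfl⟩, ?_⟩
    rw [← hg q, hqy]
  · intro x hx
    constructor
    · intro h4
      exact h4.2
    · intro h4
      exact ⟨hx, h4⟩

/-- Frattini argument in a subgroup. Proof. `zt_frat` (ZtFrat.lean) for `f.comp C.subtype : C →* Y` and
`E'.subgroupOf C`, `r = 3`. -/
theorem ys_fratC {X Y : Type} [Group X] [Finite X] [Group Y] (f : X →* Y)
    (hker : ∀ w ∈ f.ker, ∃ k, w ^ (2 ^ k) = 1) (C E' : Subgroup X) (hEC : E' ≤ C)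
    (hE : IsPGroup 3 E') {g : X} (hgC : g ∈ C)
    (hg : ∀ e ∈ E', ∃ e' ∈ E', f g * f e * (f g)⁻¹ = f e') :
    ∃ w ∈ f.ker, w ∈ C ∧ ∀ e ∈ E', (w * g) * e * (w * g)⁻¹ ∈ E' := by
  have hk' : ∀ w ∈ (f.comp C.subtype).ker, ∃ k, w ^ (2 ^ k) = 1 := by
    intro w hw
    obtain ⟨k, hk⟩ := hker (w : X) hw
    exact ⟨k, Subtype.ext hk⟩
  have hE' : IsPGroup 3 (E'.subgroupOf C) := by
    rintro ⟨⟨e, heC⟩, he⟩
    obtain ⟨k, hk⟩ := hE ⟨e, he⟩
    have hk1 : e ^ 3 ^ k = 1 := congrArg Subtype.val hk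
    refine ⟨k, Subtype.ext (Subtype.ext ?_)⟩
    show e ^ 3 ^ k = 1
    exact hk1
  obtain ⟨w, hw, hwE⟩ := zt_frat Nat.prime_three (by norm_num) (f.comp C.subtype) hk'
    (E'.subgroupOf C) hE' (g := ⟨g, hgC⟩) (by
      rintro ⟨e, heC⟩ he
      obtain ⟨e', he', h⟩ := hg e he
      exact ⟨⟨e', hEC he'⟩, he', h⟩)
  refine ⟨w, hw, w.2, fun e he => ?_⟩
  exact hwE ⟨e, hEC he⟩ he

end Pool.Agent.Lib.MP_544bd1_al
end

section

/-!
Theorem Z3: the squaring map and the commutator map of a minimal configuration.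
-/

namespace Pool.Agent.Lib.MP_544bd1_al

open Subgroup

/-- **The quadratic data.**

Proof. `φ` vanishes on `⁅Q, Q⁆` (`V` commutative), so by `M.ker` the elements of `⁅Q, Q⁆` are centralized
by `R` and `Q`, and by `zt_irr` (2) `c ^ 2 = 1` for `c ∈ ⁅Q, Q⁆` (an element of `⁅Q, Q⁆` has `φ = 0`), and
`φ a = 0` implies `a ∈ ⁅Q, Q⁆`. `K = Additive ↥⁅Q, Q⁆` with the commutative group structure (build a
`CommGroup` on `↥⁅Q, Q⁆` from `mul_comm`), `ι k = (k.toMul : F)`,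
`θ g k = g * k * g⁻¹` (`⁅Q, Q⁆` is normal in `F` since `Q` is). For `v : V` choose `s v : Q` with
`φ (s v) = v`; `q v = (s v) ^ 2 ∈ ⁅Q, Q⁆` (`φ (a ^ 2) = φ a + φ a = 0`),
`β v w = s v * s w * (s v)⁻¹ * (s w)⁻¹`. `hq`, `hβ`: if `φ a = v` then `a = s v * z` with `φ z = 0`, `z`
central in `Q`, `z ^ 2 = 1`, so `a ^ 2 = (s v) ^ 2` and the commutators agree. All other properties
follow from `hq`, `hβ`, `inj` and the surjectivity of `φ`:
`(a * b) * c * (a * b)⁻¹ * c⁻¹ = (a * c * a⁻¹ * c⁻¹) * (b * c * b⁻¹ * c⁻¹)` (commutators are central),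
`(a * b) ^ 2 = a ^ 2 * b ^ 2 * (a * b * a⁻¹ * b⁻¹)` (commutators are central involutions), `M.eqv`. -/
theorem zt_quad {F : Type} [Group F] [Finite F] {r : ℕ} (hr : r.Prime) (hr2 : r ≠ 2)
    {Q R : Subgroup F} [Q.Normal] {x : F} (D : ZCore r Q R x) {V : Type} [AddCommGroup V]
    [Module (ZMod 2) V] {τ : F →* Module.End (ZMod 2) V} {φ : Q → V} (M : ZMd Q R τ φ) :
    ∃ (K : Type) (_ : AddCommGroup K) (ι : K → F) (θ : F → K → K) (q : V → K) (β : V → V → K),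
      ZQuad Q R τ φ ι θ q β := by
  classical
  obtain ⟨-, hker2, -, -⟩ := zt_irr hr hr2 D M
  have hφ1 : φ 1 = 0 := by
    have h := M.add 1 1
    rw [mul_one] at h
    exact left_eq_add.mp h
  have hφinv : ∀ a : Q, φ a⁻¹ = - φ a := by
    intro a
    have h := M.add a⁻¹ a
    rw [inv_mul_cancel, hφ1] at h
    exact eq_neg_of_add_eq_zero_left h.symm
  have hvv : ∀ v : V, v + v = 0 := by
    intro v
    have h : ((1 : ZMod 2) + 1) • v = v + v := by rw [add_smul, one_smul]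
    rw [← h, show (1 : ZMod 2) + 1 = 0 from by decide, zero_smul]
  -- the kernel of `φ`
  let N : Subgroup F :=
    { carrier := {c | ∃ h : c ∈ Q, φ ⟨c, h⟩ = 0}
      one_mem' := ⟨Q.one_mem, hφ1⟩
      mul_mem' := by
        rintro a b ⟨ha, ha'⟩ ⟨hb, hb'⟩
        refine ⟨Q.mul_mem ha hb, ?_⟩
        have h := M.add ⟨a, ha⟩ ⟨b, hb⟩
        rw [ha', hb', add_zero] at h
        exact h
      inv_mem' := by
        rintro a ⟨ha, ha'⟩
        refine ⟨Q.inv_mem ha, ?_⟩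
        have h := hφinv ⟨a, ha⟩
        rw [ha', neg_zero] at h
        exact h }
  have hNmem : ∀ c, c ∈ N → ∃ h : c ∈ Q, φ ⟨c, h⟩ = 0 := fun c hc => hc
  have hcN : ⁅Q, Q⁆ ≤ N := by
    rw [Subgroup.commutator_le]
    intro a ha b hb
    refine ⟨Q.mul_mem (Q.mul_mem (Q.mul_mem ha hb) (Q.inv_mem ha)) (Q.inv_mem hb), ?_⟩
    have h : φ ((⟨a, ha⟩ : Q) * ⟨b, hb⟩ * (⟨a, ha⟩ : Q)⁻¹ * (⟨b, hb⟩ : Q)⁻¹) = 0 := by
      rw [M.add, M.add, M.add, hφinv, hφinv]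
      abel
    exact h
  have hcQ : ∀ c ∈ ⁅Q, Q⁆, c ∈ Q := fun c hc => (hNmem c (hcN hc)).1
  have hc0 : ∀ c (hc : c ∈ ⁅Q, Q⁆), φ ⟨c, hcQ c hc⟩ = 0 := fun c hc => (hNmem c (hcN hc)).2
  have hcR : ∀ c ∈ ⁅Q, Q⁆, ∀ g ∈ R, g * c = c * g := fun c hc => (M.ker _ (hc0 c hc)).1
  have hcc : ∀ c ∈ ⁅Q, Q⁆, ∀ y ∈ Q, c * y = y * c := fun c hc => (M.ker _ (hc0 c hc)).2
  have hc2 : ∀ c ∈ ⁅Q, Q⁆, c * c = 1 := by
    intro c hc
    rw [← pow_two]
    exact (hker2 _ (hc0 c hc)).2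
  have hcm : ∀ a b : Q, (a : F) * b * (a : F)⁻¹ * (b : F)⁻¹ ∈ ⁅Q, Q⁆ := fun a b =>
    Subgroup.commutator_mem_commutator a.2 b.2
  have hsqm : ∀ a : Q, (a : F) ^ 2 ∈ ⁅Q, Q⁆ := by
    intro a
    have h : φ (a ^ 2) = 0 := by rw [pow_two, M.add, hvv]
    exact (hker2 _ h).1
  -- independence of the representatives
  have hz : ∀ a b : Q, φ a = φ b → ∃ z : F, (a : F) = b * z ∧ (∀ y ∈ Q, z * y = y * z) ∧
      z * z = 1 := by
    intro a b hab
    have h0 : φ (b⁻¹ * a) = 0 := by rw [M.add, hφinv, hab]; abel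
    refine ⟨(b : F)⁻¹ * a, by group, fun y hy => (M.ker _ h0).2 y hy, ?_⟩
    have h := (hker2 _ h0).2
    rw [pow_two] at h
    exact h
  have hsq : ∀ a b : Q, φ a = φ b → (a : F) ^ 2 = (b : F) ^ 2 := by
    intro a b hab
    obtain ⟨z, h1, h2, h3⟩ := hz a b hab
    rw [h1, pow_two, pow_two]
    calc (b : F) * z * (b * z) = b * (z * b) * z := by group
      _ = b * (b * z) * z := by rw [h2 b b.2]
      _ = b * b * (z * z) := by group
      _ = b * b := by rw [h3, mul_one]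
  have hcl : ∀ a a' b : Q, φ a = φ a' →
      (a : F) * b * (a : F)⁻¹ * (b : F)⁻¹ = (a' : F) * b * (a' : F)⁻¹ * (b : F)⁻¹ := by
    intro a a' b h
    obtain ⟨z, h1, h2, h3⟩ := hz a a' h
    rw [h1]
    calc (a' : F) * z * b * ((a' : F) * z)⁻¹ * (b : F)⁻¹
        = a' * (z * b) * z⁻¹ * (a' : F)⁻¹ * (b : F)⁻¹ := by group
      _ = a' * (b * z) * z⁻¹ * (a' : F)⁻¹ * (b : F)⁻¹ := by rw [h2 b b.2]
      _ = (a' : F) * b * (a' : F)⁻¹ * (b : F)⁻¹ := by group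
  have hcr : ∀ a b b' : Q, φ b = φ b' →
      (a : F) * b * (a : F)⁻¹ * (b : F)⁻¹ = (a : F) * b' * (a : F)⁻¹ * (b' : F)⁻¹ := by
    intro a b b' h
    obtain ⟨z, h1, h2, h3⟩ := hz b b' h
    have h4 : z * (a : F)⁻¹ = (a : F)⁻¹ * z := h2 _ (Q.inv_mem a.2)
    rw [h1]
    calc (a : F) * (b' * z) * (a : F)⁻¹ * ((b' : F) * z)⁻¹
        = a * b' * (z * (a : F)⁻¹) * z⁻¹ * (b' : F)⁻¹ := by group
      _ = a * b' * ((a : F)⁻¹ * z) * z⁻¹ * (b' : F)⁻¹ := by rw [h4]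
      _ = (a : F) * b' * (a : F)⁻¹ * (b' : F)⁻¹ := by group
  -- the group `K`
  let cg : CommGroup ↥⁅Q, Q⁆ :=
    { (inferInstance : Group ↥⁅Q, Q⁆) with
      mul_comm := fun c d => Subtype.ext (hcc c c.2 d (hcQ d d.2)) }
  let K : Type := Additive ↥⁅Q, Q⁆
  let kg : AddCommGroup K := @Additive.addCommGroup ↥⁅Q, Q⁆ cg
  have hn : (⁅Q, Q⁆ : Subgroup F).Normal := inferInstance
  let ι : K → F := fun k => ((Additive.toMul k : ↥⁅Q, Q⁆) : F)
  have hιinj : Function.Injective ι := fun k l h => Subtype.ext h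
  have hιadd : ∀ k l : K, ι (k + l) = ι k * ι l := fun _ _ => rfl
  have hι0 : ι 0 = 1 := rfl
  let θ : F → K → K := fun g k => Additive.ofMul ⟨g * ι k * g⁻¹, hn.conj_mem _ (Subtype.property _) g⟩
  let s : V → Q := Function.surjInv M.surj
  have hs : ∀ v, φ (s v) = v := Function.surjInv_eq M.surj
  let q : V → K := fun v => Additive.ofMul ⟨(s v : F) ^ 2, hsqm (s v)⟩
  let β : V → V → K := fun v w =>
    Additive.ofMul ⟨(s v : F) * s w * (s v : F)⁻¹ * (s w : F)⁻¹, hcm (s v) (s w)⟩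
  have hιθ : ∀ g k, ι (θ g k) = g * ι k * g⁻¹ := fun _ _ => rfl
  have hιm : ∀ k, ι k ∈ ⁅Q, Q⁆ := fun k => Subtype.property (Additive.toMul k)
  have hιR : ∀ k, ∀ g ∈ R, g * ι k = ι k * g := fun k => hcR _ (hιm k)
  have hιc : ∀ k, ∀ y ∈ Q, y * ι k = ι k * y := fun k y hy => (hcc _ (hιm k) y hy).symm
  have hq : ∀ a : Q, ι (q (φ a)) = (a : F) ^ 2 := fun a => hsq _ _ (hs (φ a))
  have hβ : ∀ a b : Q, ι (β (φ a) (φ b)) = (a : F) * b * (a : F)⁻¹ * (b : F)⁻¹ := by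
    intro a b
    have h1 := hcl (s (φ a)) a (s (φ b)) (hs (φ a))
    have h2 := hcr a (s (φ b)) b (hs (φ b))
    exact h1.trans h2
  have hinvc : ∀ a b : Q, (b : F) * a * (b : F)⁻¹ * (a : F)⁻¹ =
      (a : F) * b * (a : F)⁻¹ * (b : F)⁻¹ := by
    intro a b
    have h := hc2 _ (hcm a b)
    have h1 : (b : F) * a * (b : F)⁻¹ * (a : F)⁻¹ = ((a : F) * b * (a : F)⁻¹ * (b : F)⁻¹)⁻¹ := by
      group
    rw [h1]
    exact inv_eq_of_mul_eq_one_left h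
  refine ⟨K, kg, ι, θ, q, β, ?_⟩
  exact
    { inj := hιinj
      ιadd := hιadd
      two := fun k => hιinj (by rw [hιadd, hι0]; exact hc2 _ (hιm k))
      ιQ := hιm
      ιR := hιR
      ιc := hιc
      ιθ := hιθ
      hq := hq
      hβ := hβ
      θadd := fun g k l => hιinj (by rw [hιθ, hιadd, hιadd, hιθ, hιθ]; group)
      θmul := fun g h k => hιinj (by rw [hιθ, hιθ, hιθ]; group)
      θR := fun g hg k => hιinj (by rw [hιθ, hιR k g hg]; group)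
      βl := by
        intro u v w
        obtain ⟨a, rfl⟩ := M.surj u
        obtain ⟨b, rfl⟩ := M.surj v
        obtain ⟨c, rfl⟩ := M.surj w
        apply hιinj
        rw [hιadd, ← M.add, hβ, hβ, hβ]
        have h := hcc _ (hcm b c) a a.2
        calc ((a * b : Q) : F) * c * ((a * b : Q) : F)⁻¹ * (c : F)⁻¹
            = (a * ((b : F) * c * (b : F)⁻¹ * (c : F)⁻¹)) * c * (a : F)⁻¹ * (c : F)⁻¹ := by
              rw [Subgroup.coe_mul]; group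
          _ = (((b : F) * c * (b : F)⁻¹ * (c : F)⁻¹) * a) * c * (a : F)⁻¹ * (c : F)⁻¹ := by
              rw [h]
          _ = ((b : F) * c * (b : F)⁻¹ * (c : F)⁻¹) * ((a : F) * c * (a : F)⁻¹ * (c : F)⁻¹) := by
              simp only [mul_assoc]
          _ = ((a : F) * c * (a : F)⁻¹ * (c : F)⁻¹) * ((b : F) * c * (b : F)⁻¹ * (c : F)⁻¹) :=
              hcc _ (hcm b c) _ (hcQ _ (hcm a c))
      βr := by
        intro u v w
        obtain ⟨a, rfl⟩ := M.surj u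
        obtain ⟨b, rfl⟩ := M.surj v
        obtain ⟨c, rfl⟩ := M.surj w
        apply hιinj
        rw [hιadd, ← M.add, hβ, hβ, hβ]
        have h := hcc _ (hcm a c) (b : F)⁻¹ (Q.inv_mem b.2)
        calc (a : F) * ((b * c : Q) : F) * (a : F)⁻¹ * ((b * c : Q) : F)⁻¹
            = (a * b * (a : F)⁻¹) * (((a : F) * c * (a : F)⁻¹ * (c : F)⁻¹) * (b : F)⁻¹) := by
              rw [Subgroup.coe_mul]; group
          _ = (a * b * (a : F)⁻¹) * ((b : F)⁻¹ * ((a : F) * c * (a : F)⁻¹ * (c : F)⁻¹)) := by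
              rw [h]
          _ = ((a : F) * b * (a : F)⁻¹ * (b : F)⁻¹) * ((a : F) * c * (a : F)⁻¹ * (c : F)⁻¹) := by
              simp only [mul_assoc]
      βs := by
        intro v w
        obtain ⟨a, rfl⟩ := M.surj v
        obtain ⟨b, rfl⟩ := M.surj w
        apply hιinj
        rw [hβ, hβ]
        exact (hinvc a b).symm
      βa := by
        intro v
        obtain ⟨a, rfl⟩ := M.surj v
        apply hιinj
        rw [hβ, hι0]
        group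
      qa := by
        intro v w
        obtain ⟨a, rfl⟩ := M.surj v
        obtain ⟨b, rfl⟩ := M.surj w
        apply hιinj
        rw [hιadd, hιadd, ← M.add, hβ, hq, hq, hq]
        have h := hcc _ (hcm b a) a a.2
        have h2 := hcc _ (hcm b a) _ (Q.mul_mem (Q.pow_mem a.2 2) (Q.pow_mem b.2 2))
        calc ((a * b : Q) : F) ^ 2
            = (a * ((b : F) * a * (b : F)⁻¹ * (a : F)⁻¹)) * a * b * b := by
              rw [Subgroup.coe_mul, pow_two]; group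
          _ = (((b : F) * a * (b : F)⁻¹ * (a : F)⁻¹) * a) * a * b * b := by rw [h]
          _ = ((b : F) * a * (b : F)⁻¹ * (a : F)⁻¹) * ((a : F) ^ 2 * (b : F) ^ 2) := by
              rw [pow_two, pow_two]; simp only [mul_assoc]
          _ = (a : F) ^ 2 * (b : F) ^ 2 * ((a : F) * b * (a : F)⁻¹ * (b : F)⁻¹) := by
              rw [h2, hinvc a b]
      βθ := by
        intro g v w
        obtain ⟨a, rfl⟩ := M.surj v
        obtain ⟨b, rfl⟩ := M.surj w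
        apply hιinj
        rw [hιθ, ← M.eqv, ← M.eqv, hβ, hβ]
        show g * a * g⁻¹ * (g * b * g⁻¹) * (g * a * g⁻¹)⁻¹ * (g * b * g⁻¹)⁻¹ = _
        group
      qθ := by
        intro g v
        obtain ⟨a, rfl⟩ := M.surj v
        apply hιinj
        rw [hιθ, ← M.eqv, hq, hq]
        show (g * a * g⁻¹) ^ 2 = _
        rw [pow_two, pow_two]
        group }

end Pool.Agent.Lib.MP_544bd1_al
end

section

/-!
Theorem Z (paper 287), 4.4: the lifting.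
-/

namespace Pool.Agent.Lib.MP_544bd1_al

open Subgroup

private theorem zslft_order {m a : ℕ} (hm : Odd m) {X H : Type} [Group X] [Group H]
    (hexp : ∀ x : X, x ^ (m * 2 ^ a) = 1) (f : X →* H)
    (hker : ∀ w ∈ f.ker, ∃ j, w ^ (2 ^ j) = 1) {x : X} (hx : f x ^ (2 ^ a) = 1) : x ^ (2 ^ a) = 1 := by
  have h1 : x ^ (2 ^ a) ∈ f.ker := by
    rw [MonoidHom.mem_ker, map_pow]
    exact hx
  obtain ⟨j, hj⟩ := hker _ h1
  rw [← pow_mul, ← pow_add] at hj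
  have h2 := orderOf_dvd_of_pow_eq_one hj
  obtain ⟨l, -, hl⟩ := (Nat.dvd_prime_pow Nat.prime_two).1 h2
  have h3 := orderOf_dvd_of_pow_eq_one (hexp x)
  have h4 : Nat.Coprime (orderOf x) m := by
    rw [hl]
    exact Nat.Coprime.pow_left l (Nat.coprime_two_left.2 hm)
  exact orderOf_dvd_iff_pow_eq_one.1 (h4.dvd_of_dvd_mul_left h3)

/-- **The lifting.**

Proof. `τ₀ = τ ^ (3 ^ k)`, `C = centralizer {τ₀}`. `ys_lftA` gives `R₁`, `R'`. `f` is injective on `R₁` (a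
3-group, the kernel is a 2-group). `g`, `p`, `τ ∈ C`. `ys_fratC` for `E' = R₁`, `g` (`f g` commutes with `f τ` and
normalizes `R`, so it maps `f R₁ = R ⊔ zpowers (f τ)` into itself): `w ∈ f.ker ⊓ C`, `g' = w * g` normalizes
`R₁`. So `g' * τ * g'⁻¹ * τ⁻¹ ∈ R₁`, with image `1` under `f`: `g'` commutes with `τ`. `g'` normalizes
`R'` (`f g' = f g` normalizes `R`), and so does `τ`. For `i : ℕ` let `x_i = τ ^ i * p * (τ ^ i)⁻¹ * g ∈ C`;
for `i < 3 ^ k`, `ys_fratC` for `E' = R'` (`D.hγR`; `f R' = R`) gives `w_i ∈ f.ker ⊓ C` such that `γ i := w_i * x_i`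
normalizes `R'` (for the other `i` let `w_i = 1`). `f (γ i) = f x_i`, `γ i ∈ C`. An element `x` with `f x ^ (2 ^ a) = 1` has
`x ^ (2 ^ a) ∈ f.ker`, a 2-group, so `x ^ (2 ^ j) = 1` for some `j`, and with `hexp` (`m` odd)
`x ^ (2 ^ a) = 1`: this gives the orders of `g'` and `γ i`. `YR.lift` for `g'`, `τ`, `γ`.
`R' ⊔ zpowers τ ≤ R₁`. -/
theorem ys_lift {m a k : ℕ} (hm : Odd m) {X H : Type} [Group X] [Finite X] [Group H]
    (hexp : ∀ x : X, x ^ (m * 2 ^ a) = 1) (f : X →* H) (hf : Function.Surjective f)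
    (hker : ∀ w ∈ f.ker, ∃ j, w ^ (2 ^ j) = 1) {g τ p : X} (hg : g ^ (2 ^ a) = 1)
    (hτ : ∃ j, τ ^ (3 ^ j) = 1) (hgτ : g * τ = τ * g) (hτp : τ ^ (3 ^ k) * p = p * τ ^ (3 ^ k))
    {R : Subgroup H} {e e' c : H}
    (D : YR a k R (f g) (f τ) e e' c (fun i => f τ ^ i * f p * (f τ ^ i)⁻¹ * f g))
    (h2 : ∀ i, (f τ ^ i * f p * (f τ ^ i)⁻¹ * f g) ^ (2 ^ a) = 1) :
    ∃ (R' : Subgroup X) (g' e₁ e₁' c₁ : X) (γ : ℕ → X), YR a k R' g' τ e₁ e₁' c₁ γ ∧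
      IsPGroup 3 (R' ⊔ zpowers τ : Subgroup X) ∧ g' ^ (2 ^ a) = 1 ∧ g' * τ = τ * g' ∧
      (∀ i, γ i ^ (2 ^ a) = 1) ∧ (∀ i, τ ^ (3 ^ k) * γ i = γ i * τ ^ (3 ^ k)) ∧ f e₁ = e ∧
      (∀ x ∈ R', f x ∈ R) ∧ (∀ y ∈ R, ∃ x ∈ R', f x = y) ∧ (∀ x ∈ R', f x = 1 → x = 1) := by
  obtain ⟨R₁, R', hle, hτ1, h3, hcen, himg, hsur, hiff⟩ := ys_lftA f hf hker hτ D.hR3 D.hτR D.τR
  -- injectivity on `R₁`
  have hinj : ∀ x ∈ R₁, f x = 1 → x = 1 := by
    intro x hx hfx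
    obtain ⟨j, hj⟩ := hker x hfx
    obtain ⟨i, hi⟩ := h3 ⟨x, hx⟩
    have hi' : x ^ (3 ^ i) = 1 := congrArg Subtype.val hi
    have h4 := orderOf_dvd_of_pow_eq_one hj
    have h5 := orderOf_dvd_of_pow_eq_one hi'
    have h6 : Nat.Coprime (2 ^ j) (3 ^ i) := Nat.Coprime.pow _ _ (by norm_num)
    have h7 := Nat.eq_one_of_dvd_coprimes h6 h4 h5
    exact orderOf_eq_one_iff.1 h7
  set C : Subgroup X := centralizer {τ ^ (3 ^ k)} with hC
  have hmemC : ∀ y : X, y ∈ C ↔ τ ^ (3 ^ k) * y = y * τ ^ (3 ^ k) := by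
    intro y
    rw [hC, mem_centralizer_iff]
    simp
  have hR1C : R₁ ≤ C := fun x hx => (hmemC x).2 (hcen x hx)
  have hR'C : R' ≤ C := hle.trans hR1C
  have hgC : g ∈ C := (hmemC g).2 (((show Commute g τ from hgτ).pow_right (3 ^ k)).symm)
  have hτC : τ ∈ C := hR1C hτ1
  have hpC : p ∈ C := (hmemC p).2 hτp
  -- `g'`
  have hS : ∀ y ∈ R ⊔ zpowers (f τ), f g * y * (f g)⁻¹ ∈ R ⊔ zpowers (f τ) := by
    have h4 : R ⊔ zpowers (f τ) ≤ (R ⊔ zpowers (f τ)).comap (MulAut.conj (f g)).toMonoidHom := by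
      refine sup_le ?_ ?_
      · intro r hr
        rw [mem_comap]
        exact (le_sup_left : R ≤ R ⊔ zpowers (f τ)) (D.hgR r hr)
      · rw [zpowers_le, mem_comap]
        have h5 : (MulAut.conj (f g)).toMonoidHom (f τ) = f τ := by
          change f g * f τ * (f g)⁻¹ = f τ
          rw [← map_mul, hgτ, map_mul, mul_inv_cancel_right]
        rw [h5]
        exact (le_sup_right : zpowers (f τ) ≤ R ⊔ zpowers (f τ)) (mem_zpowers _)
    exact fun y hy => h4 hy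
  obtain ⟨w₀, hw0, hw0C, hw0R⟩ := ys_fratC f hker C R₁ hR1C h3 hgC (fun x hx => by
    obtain ⟨y, hy, hy2⟩ := hsur _ (hS _ (himg x hx))
    exact ⟨y, hy, hy2.symm⟩)
  set g' : X := w₀ * g with hg'
  have hfg : f g' = f g := by
    rw [hg', map_mul, MonoidHom.mem_ker.1 hw0, one_mul]
  have hg'τ : g' * τ = τ * g' := by
    have h4 : g' * τ * g'⁻¹ * τ⁻¹ ∈ R₁ := R₁.mul_mem (hw0R τ hτ1) (R₁.inv_mem hτ1)
    have h5 : f (g' * τ * g'⁻¹ * τ⁻¹) = 1 := by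
      rw [map_mul, map_mul, map_mul, map_inv, map_inv, hfg, ← map_mul, hgτ, map_mul,
        mul_inv_cancel_right, mul_inv_cancel]
    have h6 := hinj _ h4 h5
    have h7 : g' * τ * g'⁻¹ = τ := mul_inv_eq_one.1 h6
    exact mul_inv_eq_iff_eq_mul.1 h7
  have hg'R : ∀ x ∈ R', g' * x * g'⁻¹ ∈ R' := by
    intro x hx
    rw [hiff _ (hw0R x (hle hx)), map_mul, map_mul, map_inv, hfg]
    exact D.hgR _ ((hiff x (hle hx)).1 hx)
  have hτR' : ∀ x ∈ R', τ * x * τ⁻¹ ∈ R' := by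
    intro x hx
    rw [hiff _ (R₁.mul_mem (R₁.mul_mem hτ1 (hle hx)) (R₁.inv_mem hτ1)), map_mul, map_mul, map_inv]
    exact D.hτR _ ((hiff x (hle hx)).1 hx)
  have hsurR : ∀ y ∈ R, ∃ x ∈ R', f x = y := by
    intro y hy
    obtain ⟨x, hx, hxy⟩ := hsur y ((le_sup_left : R ≤ R ⊔ zpowers (f τ)) hy)
    exact ⟨x, (hiff x hx).2 (by rw [hxy]; exact hy), hxy⟩
  have h3' : IsPGroup 3 R' := h3.to_le hle
  -- `γ`
  have hx : ∀ i : ℕ, τ ^ i * p * (τ ^ i)⁻¹ * g ∈ C := fun i =>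
    C.mul_mem (C.mul_mem (C.mul_mem (C.pow_mem hτC i) hpC) (C.inv_mem (C.pow_mem hτC i))) hgC
  have hfx : ∀ i : ℕ, f (τ ^ i * p * (τ ^ i)⁻¹ * g) = f τ ^ i * f p * (f τ ^ i)⁻¹ * f g := by
    intro i
    rw [map_mul, map_mul, map_mul, map_inv, map_pow]
  have hex : ∀ i : ℕ, ∃ w : X, w ∈ f.ker ∧ w ∈ C ∧ (i < 3 ^ k → ∀ x ∈ R',
      (w * (τ ^ i * p * (τ ^ i)⁻¹ * g)) * x * (w * (τ ^ i * p * (τ ^ i)⁻¹ * g))⁻¹ ∈ R') := by
    intro i
    by_cases hi : i < 3 ^ k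
    · obtain ⟨w, h4, h5, h6⟩ := ys_fratC f hker C R' hR'C h3' (hx i) (fun x hx' => by
        obtain ⟨y, hy, hy2⟩ := hsurR _ (D.hγR i hi _ ((hiff x (hle hx')).1 hx'))
        refine ⟨y, hy, ?_⟩
        rw [hfx, hy2])
      exact ⟨w, h4, h5, fun _ => h6⟩
    · exact ⟨1, f.ker.one_mem, C.one_mem, fun h => absurd h hi⟩
  choose w hwk hwC hwR using hex
  have hfγ : (fun i => f (w i * (τ ^ i * p * (τ ^ i)⁻¹ * g))) =
      fun i => f τ ^ i * f p * (f τ ^ i)⁻¹ * f g := by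
    funext i
    rw [map_mul, MonoidHom.mem_ker.1 (hwk i), one_mul, hfx]
  have D' : YR a k R (f g') (f τ) e e' c (fun i => f (w i * (τ ^ i * p * (τ ^ i)⁻¹ * g))) := by
    rw [hfγ, hfg]
    exact D
  obtain ⟨e₁, e₁', c₁, he1, hY⟩ := YR.lift (γ := fun i => w i * (τ ^ i * p * (τ ^ i)⁻¹ * g)) f D' h3'
    (fun x hx' => (hiff x (hle hx')).1 hx') hsurR (fun x hx' => hinj x (hle hx')) hg'R hτR'
    (fun i hi => hwR i hi)
  refine ⟨R', g', e₁, e₁', c₁, fun i => w i * (τ ^ i * p * (τ ^ i)⁻¹ * g), hY,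
    h3.to_le (sup_le hle (zpowers_le.2 hτ1)), ?_, hg'τ, ?_, ?_, he1,
    fun x hx' => (hiff x (hle hx')).1 hx', hsurR, fun x hx' => hinj x (hle hx')⟩
  · refine zslft_order hm hexp f hker ?_
    rw [hfg, ← map_pow, hg, map_one]
  · intro i
    refine zslft_order hm hexp f hker ?_
    have h4 : f (w i * (τ ^ i * p * (τ ^ i)⁻¹ * g)) = f τ ^ i * f p * (f τ ^ i)⁻¹ * f g :=
      congrFun hfγ i
    rw [h4]
    exact h2 i
  · intro i
    exact (hmemC _).1 (C.mul_mem (hwC i) (hx i))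

end Pool.Agent.Lib.MP_544bd1_al
end
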