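import Mathlib
import Pool.Agent.Lib.MP_544bd1_al.ZtDefs3

section

/-!
Theorem Z3, Case B, linear part: eigenspaces of `s`.
-/

namespace Pool.Agent.Lib.MP_544bd1_al

open Subgroup

/-- nontrivial powers of `ζ` have no fixed points. Proof. `ζ` is a power of `ζ ^ j` (`r` is prime). -/
theorem zl_fix {r : ℕ} {V : Type} [AddCommGroup V] [Module (ZMod 2) V]
    {s t ζ g : (Module.End (ZMod 2) V)ˣ} (L : ZLinB r s t ζ g) {j : ℕ} (hj : ¬ r ∣ j) {v : V}
    (hv : ((ζ : Module.End (ZMod 2) V) ^ j) v = v) : v = 0 := by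
  have hr := L.hr
  have hc : Nat.Coprime j r := by
    have hp : Nat.Prime r := by
      rcases hr with h | h <;> rw [h] <;> norm_num
    exact ((Nat.Prime.coprime_iff_not_dvd hp).2 hj).symm
  have h1 : 1 < r := by
    rcases hr with h | h <;> rw [h] <;> norm_num
  obtain ⟨k, -, hk⟩ := Nat.exists_mul_mod_eq_one_of_coprime hc h1
  have h2 : ∀ n : ℕ, (((ζ : Module.End (ZMod 2) V) ^ j) ^ n) v = v := by
    intro n
    induction n with
    | zero => rw [pow_zero]; rfl
    | succ n ih => rw [pow_succ', Module.End.mul_apply, ih, hv]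
  have h3 : (ζ : Module.End (ZMod 2) V) ^ r = 1 := by
    have := congrArg Units.val L.hζ
    rwa [Units.val_pow_eq_pow_val, Units.val_one] at this
  have h4 : ((ζ : Module.End (ZMod 2) V) ^ j) ^ k = ζ := by
    rw [← pow_mul, ← Nat.mod_add_div (j * k) r, hk, pow_add, pow_mul, h3, one_pow, mul_one, pow_one]
  have h5 := h2 k
  rw [h4] at h5
  exact L.hfix v h5

private theorem ztlb1_rel {r : ℕ} {V : Type} [AddCommGroup V] [Module (ZMod 2) V]
    {s t ζ g : (Module.End (ZMod 2) V)ˣ} (L : ZLinB r s t ζ g) :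
    (s : Module.End (ZMod 2) V) ^ r = 1 ∧ (t : Module.End (ZMod 2) V) ^ r = 1 ∧
    (ζ : Module.End (ZMod 2) V) ^ r = 1 ∧
    (s : Module.End (ZMod 2) V) * t = ζ * t * s ∧
    Commute (ζ : Module.End (ZMod 2) V) s ∧ Commute (ζ : Module.End (ZMod 2) V) t := by
  refine ⟨?_, ?_, ?_, ?_, ?_, ?_⟩
  · have := congrArg Units.val L.hs
    rwa [Units.val_pow_eq_pow_val, Units.val_one] at this
  · have := congrArg Units.val L.ht
    rwa [Units.val_pow_eq_pow_val, Units.val_one] at this
  · have := congrArg Units.val L.hζ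
    rwa [Units.val_pow_eq_pow_val, Units.val_one] at this
  · have := congrArg Units.val L.hst
    rwa [Units.val_mul, Units.val_mul, Units.val_mul] at this
  · have := congrArg Units.val L.hζs
    rwa [Units.val_mul, Units.val_mul] at this
  · have := congrArg Units.val L.hζt
    rwa [Units.val_mul, Units.val_mul] at this

private theorem ztlb1_one {r : ℕ} (hr : r = 3 ∨ r = 7) {V : Type} [AddCommGroup V] [Module (ZMod 2) V] (v : V) :
    r • v = v := by
  have h : v + v = 0 := by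
    have h1 : (2 : ZMod 2) • v = v + v := two_smul _ _
    have h2 : (2 : ZMod 2) = 0 := rfl
    rw [← h1, h2, zero_smul]
  have h2 : (2:ℕ) • v = 0 := by rw [two_nsmul, h]
  rcases hr with rfl | rfl
  · rw [show (3:ℕ) = 2 + 1 from rfl, add_nsmul, h2, one_nsmul, zero_add]
  · rw [show (7:ℕ) = 3 * 2 + 1 from rfl, add_nsmul, mul_nsmul', h2, nsmul_zero, one_nsmul, zero_add]

/-- the geometric sums of powers of `ζ` -/
private theorem ztlb1_geo {r : ℕ} {V : Type} [AddCommGroup V] [Module (ZMod 2) V]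
    {s t ζ g : (Module.End (ZMod 2) V)ˣ} (L : ZLinB r s t ζ g) {n : ℕ} (hn : ¬ r ∣ n) (v : V) :
    ∑ j ∈ Finset.range r, (((ζ : Module.End (ZMod 2) V) ^ n) ^ j) v = 0 := by
  obtain ⟨-, -, h3, -, -, -⟩ := ztlb1_rel L
  have e : ∑ j ∈ Finset.range r, (((ζ : Module.End (ZMod 2) V) ^ n) ^ j) v =
      (∑ j ∈ Finset.range r, ((ζ : Module.End (ZMod 2) V) ^ n) ^ j) v := (LinearMap.sum_apply _ _ _).symm
  rw [e]
  refine zl_fix L hn ?_
  have h1 := mul_geom_sum ((ζ : Module.End (ZMod 2) V) ^ n) r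
  have h2 : ((ζ : Module.End (ZMod 2) V) ^ n) ^ r = 1 := by
    rw [← pow_mul, mul_comm, pow_mul, h3, one_pow]
  rw [h2, sub_self, sub_mul, one_mul, sub_eq_zero] at h1
  rw [← Module.End.mul_apply, h1]

private theorem ztlb1_geo1 {r : ℕ} {V : Type} [AddCommGroup V] [Module (ZMod 2) V]
    {s t ζ g : (Module.End (ZMod 2) V)ˣ} (L : ZLinB r s t ζ g) {n : ℕ} (hn : r ∣ n) (v : V) :
    ∑ j ∈ Finset.range r, (((ζ : Module.End (ZMod 2) V) ^ n) ^ j) v = v := by
  obtain ⟨-, -, h3, -, -, -⟩ := ztlb1_rel L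
  obtain ⟨l, rfl⟩ := hn
  have h1 : ∀ j ∈ Finset.range r, (((ζ : Module.End (ZMod 2) V) ^ (r * l)) ^ j) v = v := fun j _ => by
    rw [pow_mul, h3, one_pow, one_pow]
    rfl
  rw [Finset.sum_congr rfl h1, Finset.sum_const, Finset.card_range]
  exact ztlb1_one L.hr v

/-- `s t ^ k = ζ ^ k t ^ k s` -/
private theorem ztlb1_st {r : ℕ} {V : Type} [AddCommGroup V] [Module (ZMod 2) V]
    {s t ζ g : (Module.End (ZMod 2) V)ˣ} (L : ZLinB r s t ζ g) (k : ℕ) :
    (s : Module.End (ZMod 2) V) * (t : Module.End (ZMod 2) V) ^ k =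
      (ζ : Module.End (ZMod 2) V) ^ k * (t : Module.End (ZMod 2) V) ^ k * s := by
  obtain ⟨-, -, -, h4, h5, h6⟩ := ztlb1_rel L
  induction k with
  | zero => rw [pow_zero, pow_zero, one_mul, one_mul, mul_one]
  | succ k ih =>
    have h7 := (h6.pow_right k).eq
    calc (s : Module.End (ZMod 2) V) * (t : Module.End (ZMod 2) V) ^ (k + 1) =
        ((s : Module.End (ZMod 2) V) * (t : Module.End (ZMod 2) V) ^ k) * t := by rw [pow_succ, mul_assoc]
      _ = (ζ : Module.End (ZMod 2) V) ^ k * (t : Module.End (ZMod 2) V) ^ k *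
          ((s : Module.End (ZMod 2) V) * t) := by rw [ih, mul_assoc]
      _ = (ζ : Module.End (ZMod 2) V) ^ k * ((t : Module.End (ZMod 2) V) ^ k *
          (ζ : Module.End (ZMod 2) V)) * t * s := by
        rw [h4]
        simp only [mul_assoc]
      _ = (ζ : Module.End (ZMod 2) V) ^ (k + 1) * (t : Module.End (ZMod 2) V) ^ (k + 1) * s := by
        rw [← h7, pow_succ, pow_succ]
        simp only [mul_assoc]

/-- `s ^ j t ^ k c = ζ ^ (k j) t ^ k c` for `s c = c` -/
private theorem ztlb1_stj {r : ℕ} {V : Type} [AddCommGroup V] [Module (ZMod 2) V]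
    {s t ζ g : (Module.End (ZMod 2) V)ˣ} (L : ZLinB r s t ζ g) (k j : ℕ) {c : V}
    (hc : (s : Module.End (ZMod 2) V) c = c) :
    ((s : Module.End (ZMod 2) V) ^ j) (((t : Module.End (ZMod 2) V) ^ k) c) =
      (((ζ : Module.End (ZMod 2) V) ^ k) ^ j) (((t : Module.End (ZMod 2) V) ^ k) c) := by
  obtain ⟨-, -, -, -, h5, -⟩ := ztlb1_rel L
  induction j with
  | zero => rw [pow_zero, pow_zero]
  | succ j ih =>
    rw [pow_succ', Module.End.mul_apply, ih, ← Module.End.mul_apply,
      ((h5.symm.pow_right k).pow_right j).eq, Module.End.mul_apply]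
    have h1 : (s : Module.End (ZMod 2) V) (((t : Module.End (ZMod 2) V) ^ k) c) =
        ((ζ : Module.End (ZMod 2) V) ^ k) (((t : Module.End (ZMod 2) V) ^ k) c) := by
      rw [← Module.End.mul_apply, ztlb1_st L, Module.End.mul_apply, hc, Module.End.mul_apply]
    rw [h1, ← Module.End.mul_apply, ← pow_succ]

private theorem ztlb1_inv {V : Type} [AddCommGroup V] [Module (ZMod 2) V] {W : Submodule (ZMod 2) V}
    {A : Module.End (ZMod 2) V} (h : ∀ w ∈ W, A w ∈ W) (k : ℕ) : ∀ w ∈ W, (A ^ k) w ∈ W := by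
  induction k with
  | zero => intro w hw; exact hw
  | succ k ih =>
    intro w hw
    rw [pow_succ', Module.End.mul_apply]
    exact h _ (ih w hw)

/-- the projection to the eigenspace of `s` -/
private noncomputable def ztlb1_e {V : Type} [AddCommGroup V] [Module (ZMod 2) V] (r : ℕ)
    (s ζ : Module.End (ZMod 2) V) (k : ℕ) : Module.End (ZMod 2) V :=
  ∑ j ∈ Finset.range r, (ζ ^ ((r - 1) * k)) ^ j * s ^ j

private theorem ztlb1_e_apply {V : Type} [AddCommGroup V] [Module (ZMod 2) V] (r : ℕ)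
    (s ζ : Module.End (ZMod 2) V) (k : ℕ) (v : V) :
    ztlb1_e r s ζ k v = ∑ j ∈ Finset.range r, ((ζ ^ ((r - 1) * k)) ^ j) ((s ^ j) v) := by
  unfold ztlb1_e
  rw [LinearMap.sum_apply]
  rfl

private theorem ztlb1_pr {r : ℕ} (hr : r = 3 ∨ r = 7) (k : ℕ) : k + (r - 1) * k = r * k := by
  rcases hr with rfl | rfl
  · omega
  · omega

/-- `s (e k w) = ζ ^ k (e k w)` -/
private theorem ztlb1_se {r : ℕ} {V : Type} [AddCommGroup V] [Module (ZMod 2) V]
    {s t ζ g : (Module.End (ZMod 2) V)ˣ} (L : ZLinB r s t ζ g) (k : ℕ) :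
    (s : Module.End (ZMod 2) V) * ztlb1_e r s ζ k = (ζ : Module.End (ZMod 2) V) ^ k * ztlb1_e r s ζ k := by
  obtain ⟨h1, -, h3, -, h5, -⟩ := ztlb1_rel L
  obtain ⟨q, hq⟩ : ∃ q, q = (ζ : Module.End (ZMod 2) V) ^ ((r - 1) * k) * s := ⟨_, rfl⟩
  have hc : Commute ((ζ : Module.End (ZMod 2) V) ^ ((r - 1) * k)) (s : Module.End (ZMod 2) V) :=
    h5.pow_left _
  have e1 : ztlb1_e r s ζ k = ∑ j ∈ Finset.range r, q ^ j := by
    unfold ztlb1_e
    refine Finset.sum_congr rfl fun j _ => ?_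
    rw [hq, hc.mul_pow]
  have e2 : q ^ r = 1 := by
    rw [hq, hc.mul_pow, h1, mul_one, ← pow_mul, mul_comm, pow_mul, h3, one_pow]
  have e3 : q * ztlb1_e r s ζ k = ztlb1_e r s ζ k := by
    have h := mul_geom_sum q r
    rw [e2, sub_self, ← e1, sub_mul, one_mul, sub_eq_zero] at h
    exact h
  have e4 : (ζ : Module.End (ZMod 2) V) ^ k * q = s := by
    rw [hq, ← mul_assoc, ← pow_add, ztlb1_pr L.hr, pow_mul, h3, one_pow, one_mul]
  calc (s : Module.End (ZMod 2) V) * ztlb1_e r s ζ k =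
      (ζ : Module.End (ZMod 2) V) ^ k * q * ztlb1_e r s ζ k := by rw [e4]
    _ = (ζ : Module.End (ZMod 2) V) ^ k * ztlb1_e r s ζ k := by rw [mul_assoc, e3]

/-- **Decomposition.**

Proof. Work in `Module.End (ZMod 2) V`; `s * t ^ i = ζ ^ i * t ^ i * s`. For `i < r` let
`e i = ∑ j < r, (ζ⁻¹ ^ i * s) ^ j` (`ζ⁻¹ = ζ ^ (r - 1)`). `(ζ⁻¹ ^ i * s) * e i = e i` (`(ζ⁻¹ ^ i * s) ^ r = 1`),
so `s (e i w) = ζ ^ i (e i w)`, and `c i = t⁻¹ ^ i (e i w)` satisfies `s (c i) = c i`
(`s t⁻¹ ^ i = ζ⁻¹ ^ i t⁻¹ ^ i s`). `∑ i < r, e i = ∑ j < r, s ^ j * (∑ i < r, (ζ⁻¹ ^ j) ^ i)`: the term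
`j = 0` is `r = 1` (odd, characteristic 2), the others are `0`: `A = ∑ i < r, (ζ⁻¹ ^ j) ^ i` satisfies
`ζ ^ j * A = A`, so `A = 0` by `zl_fix`. So `∑ i < r, t ^ i (c i) = ∑ e i w = w`. `c i ∈ W`, as `W` is
invariant under `s`, `t`, `s⁻¹ = s ^ (r - 1)`, `t⁻¹ = t ^ (r - 1)` and `ζ = s * t * s⁻¹ * t⁻¹`
(`L.hst`). For `i ≥ r` put `c i = 0`. -/
theorem zl_dec {r : ℕ} {V : Type} [AddCommGroup V] [Module (ZMod 2) V]
    {s t ζ g : (Module.End (ZMod 2) V)ˣ} (L : ZLinB r s t ζ g) (W : Submodule (ZMod 2) V)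
    (hWs : ∀ w ∈ W, (s : Module.End (ZMod 2) V) w ∈ W)
    (hWt : ∀ w ∈ W, (t : Module.End (ZMod 2) V) w ∈ W) : ∀ w ∈ W, ∃ c : ℕ → V,
      (∀ i, c i ∈ W ∧ (s : Module.End (ZMod 2) V) (c i) = c i) ∧
      w = ∑ i ∈ Finset.range r, ((t : Module.End (ZMod 2) V) ^ i) (c i) := by
  intro w hw
  obtain ⟨h1, h2, h3, h4, h5, h6⟩ := ztlb1_rel L
  have hr0 : 1 ≤ r := by rcases L.hr with h | h <;> rw [h] <;> norm_num
  have hZ : (ζ : Module.End (ZMod 2) V) = s * t * ((s : Module.End (ZMod 2) V) ^ (r - 1) *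
      (t : Module.End (ZMod 2) V) ^ (r - 1)) := by
    rw [h4]
    have a1 : (s : Module.End (ZMod 2) V) * (s : Module.End (ZMod 2) V) ^ (r - 1) = 1 := by
      rw [← pow_succ', Nat.sub_add_cancel hr0, h1]
    have a2 : (t : Module.End (ZMod 2) V) * (t : Module.End (ZMod 2) V) ^ (r - 1) = 1 := by
      rw [← pow_succ', Nat.sub_add_cancel hr0, h2]
    calc (ζ : Module.End (ZMod 2) V) = ζ * (t * (t : Module.End (ZMod 2) V) ^ (r - 1)) := by
          rw [a2, mul_one]
      _ = ζ * (t * ((s * (s : Module.End (ZMod 2) V) ^ (r - 1)) * (t : Module.End (ZMod 2) V) ^ (r - 1))) := by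
          rw [a1, one_mul]
      _ = _ := by simp only [mul_assoc]
  have hWζ : ∀ w ∈ W, (ζ : Module.End (ZMod 2) V) w ∈ W := by
    intro w hw
    rw [hZ, Module.End.mul_apply, Module.End.mul_apply, Module.End.mul_apply]
    exact hWs _ (hWt _ (ztlb1_inv hWs _ _ (ztlb1_inv hWt _ _ hw)))
  have hWe : ∀ k, ztlb1_e r s ζ k w ∈ W := by
    intro k
    rw [ztlb1_e_apply]
    exact W.sum_mem fun j _ => ztlb1_inv (ztlb1_inv hWζ _) _ _ (ztlb1_inv hWs _ _ hw)
  refine ⟨fun i => ((t : Module.End (ZMod 2) V) ^ ((r - 1) * i)) (ztlb1_e r s ζ i w), fun i =>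
    ⟨ztlb1_inv hWt _ _ (hWe i), ?_⟩, ?_⟩
  · have e1 : (s : Module.End (ZMod 2) V) * ((t : Module.End (ZMod 2) V) ^ ((r - 1) * i)) * ztlb1_e r s ζ i =
        (t : Module.End (ZMod 2) V) ^ ((r - 1) * i) * ztlb1_e r s ζ i := by
      rw [ztlb1_st L, mul_assoc, ztlb1_se L, mul_assoc, ← mul_assoc _ ((ζ : Module.End (ZMod 2) V) ^ i),
        ← ((h6.pow_left i).pow_right ((r - 1) * i)).eq, ← mul_assoc, ← mul_assoc, ← pow_add,
        add_comm, ztlb1_pr L.hr, pow_mul, h3, one_pow, one_mul]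
    have e2 := congrArg (fun A : Module.End (ZMod 2) V => A w) e1
    exact e2
  · have e1 : ∀ i ∈ Finset.range r, ((t : Module.End (ZMod 2) V) ^ i)
        (((t : Module.End (ZMod 2) V) ^ ((r - 1) * i)) (ztlb1_e r s ζ i w)) =
        ∑ j ∈ Finset.range r, (((ζ : Module.End (ZMod 2) V) ^ ((r - 1) * j)) ^ i)
          (((s : Module.End (ZMod 2) V) ^ j) w) := by
      intro i _
      rw [← Module.End.mul_apply, ← pow_add, ztlb1_pr L.hr, pow_mul, h2, one_pow, Module.End.one_apply,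
        ztlb1_e_apply]
      refine Finset.sum_congr rfl fun j _ => ?_
      rw [← pow_mul, ← pow_mul, mul_right_comm]
    rw [Finset.sum_congr rfl e1, Finset.sum_comm]
    have e2 : ∀ j ∈ Finset.range r, j ≠ 0 → ∑ i ∈ Finset.range r,
        (((ζ : Module.End (ZMod 2) V) ^ ((r - 1) * j)) ^ i) (((s : Module.End (ZMod 2) V) ^ j) w) = 0 := by
      intro j hj hj0
      refine ztlb1_geo L ?_ _
      intro hd
      rw [Finset.mem_range] at hj
      rcases L.hr with rfl | rfl
      · omega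
      · omega
    rw [Finset.sum_eq_single 0 e2 (fun h => absurd (Finset.mem_range.2 (by omega)) h)]
    rw [mul_zero, pow_zero, pow_zero, Module.End.one_apply]
    have e3 := ztlb1_geo1 L (dvd_zero r) w
    rw [pow_zero] at e3
    exact e3.symm

/-- **Uniqueness.**

Proof. With `e k` as in `zl_dec`: `e k (t ^ i (c i)) = ∑ j, (ζ⁻¹ ^ k * s) ^ j (t ^ i (c i)) =
∑ j < r, (ζ ^ i * ζ⁻¹ ^ k) ^ j (t ^ i (c i))`, which is `r • = ` itself for `i = k` and `0` for
`i ≠ k`, `i, k < r` (the sum is fixed by `ζ ^ i * ζ⁻¹ ^ k = ζ ^ (i + (r - 1) * k)`, a nontrivial power of `ζ`: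
`zl_fix`). So `0 = e k (∑ ..) = t ^ k (c k)` and `c k = 0`. -/
theorem zl_uniq {r : ℕ} {V : Type} [AddCommGroup V] [Module (ZMod 2) V]
    {s t ζ g : (Module.End (ZMod 2) V)ˣ} (L : ZLinB r s t ζ g) (c : ℕ → V)
    (hc : ∀ i, (s : Module.End (ZMod 2) V) (c i) = c i)
    (h : ∑ i ∈ Finset.range r, ((t : Module.End (ZMod 2) V) ^ i) (c i) = 0) :
    ∀ i < r, c i = 0 := by
  intro k hk
  obtain ⟨h1, h2, h3, h4, h5, h6⟩ := ztlb1_rel L
  have e1 : ztlb1_e r s ζ k (∑ i ∈ Finset.range r, ((t : Module.End (ZMod 2) V) ^ i) (c i)) =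
      ((t : Module.End (ZMod 2) V) ^ k) (c k) := by
    rw [map_sum]
    have e2 : ∀ i, ztlb1_e r s ζ k (((t : Module.End (ZMod 2) V) ^ i) (c i)) =
        ∑ j ∈ Finset.range r, (((ζ : Module.End (ZMod 2) V) ^ ((r - 1) * k + i)) ^ j)
          (((t : Module.End (ZMod 2) V) ^ i) (c i)) := by
      intro i
      rw [ztlb1_e_apply]
      refine Finset.sum_congr rfl fun j _ => ?_
      rw [ztlb1_stj L i j (hc i), ← Module.End.mul_apply, pow_add, (Commute.pow_pow_self _ _ _).mul_pow]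
    rw [Finset.sum_eq_single k]
    · rw [e2 k]
      refine ztlb1_geo1 L ?_ _
      rw [add_comm, ztlb1_pr L.hr]
      exact dvd_mul_right _ _
    · intro i hi hik
      rw [e2 i]
      refine ztlb1_geo L ?_ _
      intro hd
      rw [Finset.mem_range] at hi
      rcases L.hr with rfl | rfl
      · omega
      · omega
    · intro h
      exact absurd (Finset.mem_range.2 hk) h
  rw [h, map_zero] at e1
  have e3 := congrArg ((t : Module.End (ZMod 2) V) ^ ((r - 1) * k)) e1
  rw [map_zero, ← Module.End.mul_apply, ← pow_add, add_comm, ztlb1_pr L.hr, pow_mul, h2, one_pow,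
    Module.End.one_apply] at e3
  exact e3.symm

end Pool.Agent.Lib.MP_544bd1_al
end

section

/-!
Theorem Z3, Case B, linear part: `g ^ 4` is trivial on `C_V(s)`.
-/

namespace Pool.Agent.Lib.MP_544bd1_al

open Subgroup

private theorem ztlb2_rel {r : ℕ} {V : Type} [AddCommGroup V] [Module (ZMod 2) V]
    {s t ζ g : (Module.End (ZMod 2) V)ˣ} (L : ZLinB r s t ζ g) :
    (t : Module.End (ZMod 2) V) ^ r = 1 ∧ (ζ : Module.End (ZMod 2) V) ^ r = 1 ∧
    (s : Module.End (ZMod 2) V) * t = ζ * t * s ∧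
    Commute (ζ : Module.End (ZMod 2) V) s ∧ Commute (ζ : Module.End (ZMod 2) V) t ∧
    Commute ((g : Module.End (ZMod 2) V) ^ 4) (ζ : Module.End (ZMod 2) V) ∧
    ((g : Module.End (ZMod 2) V) ^ 4) * ((g : Module.End (ZMod 2) V) ^ 4) = 1 ∧
    (s : Module.End (ZMod 2) V) * ((g : Module.End (ZMod 2) V) ^ 4) * s = (g : Module.End (ZMod 2) V) ^ 4 := by
  refine ⟨?_, ?_, ?_, ?_, ?_, ?_, ?_, ?_⟩
  · have := congrArg Units.val L.ht
    rwa [Units.val_pow_eq_pow_val, Units.val_one] at this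
  · have := congrArg Units.val L.hζ
    rwa [Units.val_pow_eq_pow_val, Units.val_one] at this
  · have := congrArg Units.val L.hst
    rwa [Units.val_mul, Units.val_mul, Units.val_mul] at this
  · have := congrArg Units.val L.hζs
    rwa [Units.val_mul, Units.val_mul] at this
  · have := congrArg Units.val L.hζt
    rwa [Units.val_mul, Units.val_mul] at this
  · have h1 : Commute (g ^ 2) ζ := L.hg2
    have h2 : Commute ((g ^ 2) ^ 2) ζ := h1.pow_left 2
    have h3 : g ^ 4 * ζ = ζ * g ^ 4 := by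
      have h4 := h2.eq
      rwa [← pow_mul] at h4
    have := congrArg Units.val h3
    rwa [Units.val_mul, Units.val_mul, Units.val_pow_eq_pow_val] at this
  · have h1 : g ^ 4 * g ^ 4 = 1 := by rw [← pow_add, L.hx2]
    have := congrArg Units.val h1
    rwa [Units.val_mul, Units.val_pow_eq_pow_val, Units.val_one] at this
  · have h1 : s * g ^ 4 * s = g ^ 4 := by
      have h2 := L.hxs
      have h3 : g ^ 4 * s = s⁻¹ * g ^ 4 := by
        rw [← h2]
        group
      rw [mul_assoc, h3, ← mul_assoc, mul_inv_cancel, one_mul]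
    have := congrArg Units.val h1
    rwa [Units.val_mul, Units.val_mul, Units.val_pow_eq_pow_val] at this

/-- `s t ^ k = ζ ^ k t ^ k s` -/
private theorem ztlb2_st {r : ℕ} {V : Type} [AddCommGroup V] [Module (ZMod 2) V]
    {s t ζ g : (Module.End (ZMod 2) V)ˣ} (L : ZLinB r s t ζ g) (k : ℕ) :
    (s : Module.End (ZMod 2) V) * (t : Module.End (ZMod 2) V) ^ k =
      (ζ : Module.End (ZMod 2) V) ^ k * (t : Module.End (ZMod 2) V) ^ k * s := by
  obtain ⟨-, -, h4, h5, h6, -⟩ := ztlb2_rel L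
  induction k with
  | zero => rw [pow_zero, pow_zero, one_mul, one_mul, mul_one]
  | succ k ih =>
    have h7 := (h6.pow_right k).eq
    calc (s : Module.End (ZMod 2) V) * (t : Module.End (ZMod 2) V) ^ (k + 1) =
        ((s : Module.End (ZMod 2) V) * (t : Module.End (ZMod 2) V) ^ k) * t := by rw [pow_succ, mul_assoc]
      _ = (ζ : Module.End (ZMod 2) V) ^ k * (t : Module.End (ZMod 2) V) ^ k *
          ((s : Module.End (ZMod 2) V) * t) := by rw [ih, mul_assoc]
      _ = (ζ : Module.End (ZMod 2) V) ^ k * ((t : Module.End (ZMod 2) V) ^ k *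
          (ζ : Module.End (ZMod 2) V)) * t * s := by
        rw [h4]
        simp only [mul_assoc]
      _ = (ζ : Module.End (ZMod 2) V) ^ (k + 1) * (t : Module.End (ZMod 2) V) ^ (k + 1) * s := by
        rw [← h7, pow_succ, pow_succ]
        simp only [mul_assoc]

/-- `f ↦ ∑ i < r, t ^ i (f i (ζ) v)` -/
private noncomputable def ztlb2_P {V : Type} [AddCommGroup V] [Module (ZMod 2) V] (r : ℕ)
    (t ζ : Module.End (ZMod 2) V) (v : V) : (ℕ → Polynomial (ZMod 2)) →ₗ[ZMod 2] V where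
  toFun f := ∑ i ∈ Finset.range r, (t ^ i) ((Polynomial.aeval ζ (f i)) v)
  map_add' f g := by
    rw [← Finset.sum_add_distrib]
    refine Finset.sum_congr rfl fun i _ => ?_
    rw [Pi.add_apply, map_add, LinearMap.add_apply, map_add]
  map_smul' c f := by
    rw [RingHom.id_apply, Finset.smul_sum]
    refine Finset.sum_congr rfl fun i _ => ?_
    rw [Pi.smul_apply, map_smul, LinearMap.smul_apply, map_smul]

private theorem ztlb2_P_apply {V : Type} [AddCommGroup V] [Module (ZMod 2) V] (r : ℕ)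
    (t ζ : Module.End (ZMod 2) V) (v : V) (f : ℕ → Polynomial (ZMod 2)) :
    ztlb2_P r t ζ v f = ∑ i ∈ Finset.range r, (t ^ i) ((Polynomial.aeval ζ (f i)) v) := rfl

private theorem ztlb2_com {V : Type} [AddCommGroup V] [Module (ZMod 2) V] {A ζ : Module.End (ZMod 2) V}
    (h : Commute A ζ) (p : Polynomial (ZMod 2)) : Commute A (Polynomial.aeval ζ p) := by
  induction p using Polynomial.induction_on' with
  | add p q hp hq => rw [map_add]; exact hp.add_right hq
  | monomial n a =>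
    rw [Polynomial.aeval_monomial]
    have h1 : Commute A (algebraMap (ZMod 2) (Module.End (ZMod 2) V) a) := (Algebra.commutes a A).symm
    exact h1.mul_right (h.pow_right n)

private theorem ztlb2_shift {V : Type} [AddCommGroup V] [Module (ZMod 2) V] {t : Module.End (ZMod 2) V} :
    ∀ {r : ℕ} (_ : t ^ r = 1) (_ : 1 ≤ r) (x : ℕ → V),
    t (∑ i ∈ Finset.range r, (t ^ i) (x i)) =
      ∑ i ∈ Finset.range r, (t ^ i) ((fun i => if i = 0 then x (r - 1) else x (i - 1)) i) := by
  intro r ht hr x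
  obtain ⟨r, rfl⟩ := Nat.exists_eq_succ_of_ne_zero (by omega : r ≠ 0)
  rw [Nat.succ_eq_add_one] at ht ⊢
  rw [Finset.sum_range_succ, Finset.sum_range_succ', map_add, map_sum]
  congr 1
  · refine Finset.sum_congr rfl fun i _ => ?_
    rw [← Module.End.mul_apply, ← pow_succ']
    rfl
  · rw [← Module.End.mul_apply, ← pow_succ', ht, pow_zero]
    rfl

/-- the vectors fixed by `s` in the submodule generated by such a vector `v`.

Proof. Let `A = {p(ζ) v | p : Polynomial (ZMod 2)}` (a submodule) and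
`W = {∑ i < r, t ^ i (a i) | a i ∈ A}`; all elements of `A` are fixed by `s` (`s`, `ζ` commute). `W` is a
submodule, invariant under `t` (`t ^ r = 1`; cyclic shift) and `s` (`s t ^ i a = ζ ^ i t ^ i a
= t ^ i (ζ ^ i a)`), and contains `v`. So `w ∈ W` by `hW`. If moreover `s w = w`, then
`w - a 0 + ∑ 0 < i < r, t ^ i (- a i) = 0` and `w = a 0` by `zl_uniq` (`c 0 = w - a 0`). -/
theorem zl_cyc {r : ℕ} {V : Type} [AddCommGroup V] [Module (ZMod 2) V]
    {s t ζ g : (Module.End (ZMod 2) V)ˣ} (L : ZLinB r s t ζ g) {v w : V}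
    (hv : (s : Module.End (ZMod 2) V) v = v) (hw : (s : Module.End (ZMod 2) V) w = w)
    (hW : ∀ W : Submodule (ZMod 2) V, (∀ x ∈ W, (s : Module.End (ZMod 2) V) x ∈ W) →
      (∀ x ∈ W, (t : Module.End (ZMod 2) V) x ∈ W) → v ∈ W → w ∈ W) :
    ∃ p : Polynomial (ZMod 2), (Polynomial.aeval (ζ : Module.End (ZMod 2) V) p) v = w := by
  obtain ⟨h2, h3, h4, h5, h6, -⟩ := ztlb2_rel L
  have hr0 : 1 ≤ r := by rcases L.hr with h | h <;> rw [h] <;> norm_num
  have hA : ∀ p : Polynomial (ZMod 2), (s : Module.End (ZMod 2) V)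
      ((Polynomial.aeval (ζ : Module.End (ZMod 2) V) p) v) =
      (Polynomial.aeval (ζ : Module.End (ZMod 2) V) p) v := by
    intro p
    rw [← Module.End.mul_apply, (ztlb2_com h5.symm p).eq, Module.End.mul_apply, hv]
  have hmem := hW (LinearMap.range (ztlb2_P r (t : Module.End (ZMod 2) V) ζ v)) ?_ ?_ ?_
  · obtain ⟨f, hf⟩ := hmem
    rw [ztlb2_P_apply] at hf
    refine ⟨f 0, ?_⟩
    have hu := zl_uniq L (fun i => if i = 0 then (Polynomial.aeval (ζ : Module.End (ZMod 2) V) (f 0)) v - w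
      else (Polynomial.aeval (ζ : Module.End (ZMod 2) V) (f i)) v) ?_ ?_ 0 (by omega)
    · rw [if_pos rfl, sub_eq_zero] at hu
      exact hu
    · intro i
      by_cases hi : i = 0
      · rw [if_pos hi, map_sub, hA, hw]
      · rw [if_neg hi, hA]
    · obtain ⟨r, rfl⟩ := Nat.exists_eq_succ_of_ne_zero (by omega : r ≠ 0)
      rw [Nat.succ_eq_add_one] at hf ⊢
      rw [Finset.sum_range_succ'] at hf ⊢
      have e : ∀ i ∈ Finset.range r, ((t : Module.End (ZMod 2) V) ^ (i + 1))
          (if i + 1 = 0 then (Polynomial.aeval (ζ : Module.End (ZMod 2) V) (f 0)) v - w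
            else (Polynomial.aeval (ζ : Module.End (ZMod 2) V) (f (i + 1))) v) =
          ((t : Module.End (ZMod 2) V) ^ (i + 1))
            ((Polynomial.aeval (ζ : Module.End (ZMod 2) V) (f (i + 1))) v) := fun i _ => by
        rw [if_neg (Nat.succ_ne_zero i)]
      rw [Finset.sum_congr rfl e, if_pos rfl, map_sub, ← add_sub_assoc, hf, pow_zero, Module.End.one_apply,
        sub_self]
  · rintro x ⟨f, rfl⟩
    refine ⟨fun i => Polynomial.X ^ i * f i, ?_⟩
    rw [ztlb2_P_apply, ztlb2_P_apply, map_sum]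
    refine Finset.sum_congr rfl fun i _ => ?_
    rw [map_mul, map_pow, Polynomial.aeval_X, Module.End.mul_apply, ← Module.End.mul_apply,
      ← ((h6.pow_left i).pow_right i).eq, ← Module.End.mul_apply (s : Module.End (ZMod 2) V), ztlb2_st L]
    simp only [Module.End.mul_apply, hA]
  · rintro x ⟨f, rfl⟩
    refine ⟨fun i => if i = 0 then f (r - 1) else f (i - 1), ?_⟩
    rw [ztlb2_P_apply, ztlb2_P_apply, ztlb2_shift h2 hr0]
    refine Finset.sum_congr rfl fun i _ => ?_
    by_cases hi : i = 0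
    · subst hi
      rfl
    · show ((t : Module.End (ZMod 2) V) ^ i) ((Polynomial.aeval (ζ : Module.End (ZMod 2) V)
        (if i = 0 then f (r - 1) else f (i - 1))) v) = ((t : Module.End (ZMod 2) V) ^ i)
        (if i = 0 then (Polynomial.aeval (ζ : Module.End (ZMod 2) V) (f (r - 1))) v
          else (Polynomial.aeval (ζ : Module.End (ZMod 2) V) (f (i - 1))) v)
      rw [if_neg hi, if_neg hi]
  · refine ⟨fun i => if i = 0 then 1 else 0, ?_⟩
    rw [ztlb2_P_apply, Finset.sum_eq_single 0]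
    · rw [if_pos rfl, map_one, pow_zero]
      rfl
    · intro i _ hi
      rw [if_neg hi, map_zero, LinearMap.zero_apply, map_zero]
    · intro h
      exact absurd (Finset.mem_range.2 (by omega)) h

/-- **`g ^ 4` is trivial on the vectors fixed by `s`.**

Proof. Let `x = g ^ 4`, `w = x v`. `s w = w` (`L.hxs`: `s * x = x * s⁻¹`). `zl_cyc` (with `L.hxA` for `hW`)
gives `p` with `x v = p(ζ) v`. Let `b = p - 1`, `B = b(ζ)`, so `x v = v + B v`. `x`, `ζ` commute (`L.hg2`
twice), so `x`, `B` commute: `v = x (x v) = x v + B (x v) = v + B v + B v + B (B v) = v + B (B v)`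
(characteristic 2), so `B ^ 2 v = 0`. Let `N = r + 1 = 2 ^ k` (`k = 2, 3`). In `Polynomial (ZMod 2)`
`b ^ (2 ^ k) = expand (2 ^ k) b` (`ZMod.expand_card`, iterated), so `B ^ (2 ^ k) = b (ζ ^ (2 ^ k)) = b(ζ) = B`
(`ζ ^ r = 1`). So `B v = B ^ (2 ^ k) v = B ^ (2 ^ k - 2) (B ^ 2 v) = 0`. -/
theorem zl_x1 {r : ℕ} {V : Type} [AddCommGroup V] [Module (ZMod 2) V]
    {s t ζ g : (Module.End (ZMod 2) V)ˣ} (L : ZLinB r s t ζ g) {v : V}
    (hv : (s : Module.End (ZMod 2) V) v = v) : ((g : Module.End (ZMod 2) V) ^ 4) v = v := by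
  obtain ⟨h2, h3, h4, h5, h6, h7, h8, h9⟩ := ztlb2_rel L
  have hsx : (s : Module.End (ZMod 2) V) (((g : Module.End (ZMod 2) V) ^ 4) v) =
      ((g : Module.End (ZMod 2) V) ^ 4) v := by
    have e := congrArg (fun A : Module.End (ZMod 2) V => A v) h9
    have e1 : (s : Module.End (ZMod 2) V) (((g : Module.End (ZMod 2) V) ^ 4)
      ((s : Module.End (ZMod 2) V) v)) = ((g : Module.End (ZMod 2) V) ^ 4) v := e
    rwa [hv] at e1
  obtain ⟨p, hp⟩ := zl_cyc L hv hsx (fun W hs ht hvW => L.hxA W hs ht v hvW)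
  obtain ⟨B, hB⟩ : ∃ B, B = Polynomial.aeval (ζ : Module.End (ZMod 2) V) (p - 1) := ⟨_, rfl⟩
  have hxv : ((g : Module.End (ZMod 2) V) ^ 4) v = v + B v := by
    rw [hB, map_sub, map_one, LinearMap.sub_apply, hp, Module.End.one_apply]
    abel
  have hcB : Commute ((g : Module.End (ZMod 2) V) ^ 4) B := by
    rw [hB]
    exact ztlb2_com h7 _
  have h20 : ∀ u : V, u + u = 0 := fun u => by
    have h1 : (2 : ZMod 2) • u = u + u := two_smul _ _
    have h2 : (2 : ZMod 2) = 0 := rfl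
    rw [← h1, h2, zero_smul]
  have hB2 : B (B v) = 0 := by
    have e1 : ((g : Module.End (ZMod 2) V) ^ 4) (((g : Module.End (ZMod 2) V) ^ 4) v) = v := by
      rw [← Module.End.mul_apply, h8, Module.End.one_apply]
    rw [hxv, map_add, hxv, ← Module.End.mul_apply _ B, hcB.eq, Module.End.mul_apply, hxv, map_add] at e1
    have e2 : v + B v + (B v + B (B v)) = v + (B v + B v) + B (B v) := by abel
    rw [e2, h20, add_zero] at e1
    exact left_eq_add.1 e1.symm
  have hsq : ∀ (Y : Module.End (ZMod 2) V) (q : Polynomial (ZMod 2)),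
      Polynomial.aeval Y q * Polynomial.aeval Y q = Polynomial.aeval (Y ^ 2) q := by
    intro Y q
    rw [← Polynomial.expand_aeval, ZMod.expand_card, map_pow, pow_two]
  have hBv : B v = 0 := by
    rcases L.hr with rfl | rfl
    · have e1 : B * B * (B * B) = B := by
        rw [hB, hsq, hsq, ← pow_mul]
        have e2 : (ζ : Module.End (ZMod 2) V) ^ (2 * 2) = ζ := by
          rw [show 2 * 2 = 3 + 1 from rfl, pow_succ, h3, one_mul]
        rw [e2]
      have e3 := congrArg (fun A : Module.End (ZMod 2) V => A v) e1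
      have e4 : B (B (B (B v))) = B v := e3
      rw [hB2, map_zero, map_zero] at e4
      exact e4.symm
    · have e1 : B * B * (B * B) * (B * B * (B * B)) = B := by
        rw [hB, hsq, hsq, hsq, ← pow_mul, ← pow_mul]
        have e2 : (ζ : Module.End (ZMod 2) V) ^ (2 * 2 * 2) = ζ := by
          rw [show 2 * 2 * 2 = 7 + 1 from rfl, pow_succ, h3, one_mul]
        rw [e2]
      have e3 := congrArg (fun A : Module.End (ZMod 2) V => A v) e1
      have e4 : B (B (B (B (B (B (B (B v))))))) = B v := e3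
      rw [hB2, map_zero, map_zero, map_zero, map_zero, map_zero, map_zero] at e4
      exact e4.symm
  rw [hxv, hBv, add_zero]

end Pool.Agent.Lib.MP_544bd1_al
end

section

/-!
Theorem Z3, Case B, linear part: the centralizer of `g ^ 4`.
-/

namespace Pool.Agent.Lib.MP_544bd1_al

open Subgroup

private lemma zl3_conj {r : ℕ} {V : Type} [AddCommGroup V] [Module (ZMod 2) V]
    {s t ζ g : (Module.End (ZMod 2) V)ˣ} (L : ZLinB r s t ζ g) :
    g ^ 4 * t * (g ^ 4)⁻¹ = t⁻¹ := by
  have h := L.hxs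
  have h2 := L.hgs
  have h3 : g ^ 4 * (g * s * g⁻¹) * (g ^ 4)⁻¹ = g * (g ^ 4 * s * (g ^ 4)⁻¹) * g⁻¹ := by
    group
  rw [h2, h] at h3
  rw [h3, ← h2]
  group

private lemma zl3_x {r : ℕ} {V : Type} [AddCommGroup V] [Module (ZMod 2) V]
    {s t ζ g : (Module.End (ZMod 2) V)ˣ} (L : ZLinB r s t ζ g) {i : ℕ} (hi : i ≤ r) {c : V}
    (hc : (s : Module.End (ZMod 2) V) c = c) :
    ((g : Module.End (ZMod 2) V) ^ 4) (((t : Module.End (ZMod 2) V) ^ i) c) =
      ((t : Module.End (ZMod 2) V) ^ (r - i)) c := by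
  have h1 : g ^ 4 * t ^ i = t ^ (r - i) * g ^ 4 := by
    have h2 : (g ^ 4 * t * (g ^ 4)⁻¹) ^ i = t⁻¹ ^ i := by rw [zl3_conj L]
    rw [conj_pow] at h2
    have h3 : t ^ (r - i) = t⁻¹ ^ i := by
      rw [inv_pow, eq_inv_iff_mul_eq_one, ← pow_add, Nat.sub_add_cancel hi, L.ht]
    rw [h3, ← h2]
    group
  have h4 := congrArg (fun u : (Module.End (ZMod 2) V)ˣ => (u : Module.End (ZMod 2) V) c) h1
  simp only [Units.val_mul, Units.val_pow_eq_pow_val, Module.End.mul_apply] at h4
  rw [h4, zl_x1 L hc]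

/-- `C_V(x) = C_V(s) + [V, x]`, `x = g ^ 4`, also for invariant submodules.

Proof. `x * t = t⁻¹ * x` (conjugate `L.hxs` by `g`: `t = g * s * g⁻¹`). Let `w = ∑ i < r, t ^ i (c i)`
(`zl_dec`), `c i ∈ W` fixed by `s`, so fixed by `x` (`zl_x1`). `x w = ∑ i < r, t⁻¹ ^ i (c i)
= c 0 + ∑ 0 < i < r, t ^ i (c (r - i))` (`t⁻¹ ^ i = t ^ (r - i)`). By `zl_uniq` applied to
`w - x w = 0`: `c i = c (r - i)` for `0 < i < r`. Let `y = ∑ 0 < i ≤ (r - 1) / 2, t ^ i (c i) ∈ W`. Then
`y + x y = ∑ 0 < i < r, t ^ i (c i)` and `w = c 0 + (y + x y)`. -/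
theorem zl_cent {r : ℕ} {V : Type} [AddCommGroup V] [Module (ZMod 2) V]
    {s t ζ g : (Module.End (ZMod 2) V)ˣ} (L : ZLinB r s t ζ g) (W : Submodule (ZMod 2) V)
    (hWs : ∀ w ∈ W, (s : Module.End (ZMod 2) V) w ∈ W)
    (hWt : ∀ w ∈ W, (t : Module.End (ZMod 2) V) w ∈ W) {w : V} (hw : w ∈ W)
    (hx : ((g : Module.End (ZMod 2) V) ^ 4) w = w) :
    ∃ v ∈ W, ∃ y ∈ W, (s : Module.End (ZMod 2) V) v = v ∧
      w = v + (y + ((g : Module.End (ZMod 2) V) ^ 4) y) := by
  obtain ⟨c, hc, hw'⟩ := zl_dec L W hWs hWt w hw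
  have hT : ∀ i : ℕ, ∀ v ∈ W, ((t : Module.End (ZMod 2) V) ^ i) v ∈ W := by
    intro i
    induction i with
    | zero => intro v hv; simpa using hv
    | succ n ih =>
      intro v hv
      rw [pow_succ', Module.End.mul_apply]
      exact hWt _ (ih v hv)
  have ht : (t : Module.End (ZMod 2) V) ^ r = 1 := by
    have h := congrArg (fun u : (Module.End (ZMod 2) V)ˣ => (u : Module.End (ZMod 2) V)) L.ht
    simpa using h
  set x : Module.End (ZMod 2) V := (g : Module.End (ZMod 2) V) ^ 4 with hxd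
  rcases L.hr with rfl | rfl
  · have hu := zl_uniq L (fun i => if i = 0 then 0 else if i = 1 then c 1 - c 2 else c 2 - c 1)
      (by
        intro i
        split_ifs
        · simp
        · simp [(hc 1).2, (hc 2).2]
        · simp [(hc 1).2, (hc 2).2]) (by
        have e : w - x w = 0 := by rw [hx, sub_self]
        rw [hw'] at e
        simp only [Finset.sum_range_succ, Finset.sum_range_zero, zero_add, map_add] at e
        rw [hxd, zl3_x L (by norm_num) (hc 0).2, zl3_x L (by norm_num) (hc 1).2,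
          zl3_x L (by norm_num) (hc 2).2] at e
        simp only [Nat.sub_zero, ht, Module.End.one_apply, Nat.reduceSub] at e
        refine Eq.trans ?_ e
        simp [Finset.sum_range_succ]
        abel)
    have h12 : c 1 = c 2 := by
      have h := hu 1 (by norm_num)
      simp only [one_ne_zero, if_false, if_true] at h
      exact sub_eq_zero.1 h
    refine ⟨c 0, (hc 0).1, (t : Module.End (ZMod 2) V) (c 1), hWt _ (hc 1).1, (hc 0).2, ?_⟩
    have e1 : x ((t : Module.End (ZMod 2) V) (c 1)) = ((t : Module.End (ZMod 2) V) ^ 2) (c 1) := by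
      have h := zl3_x L (i := 1) (by norm_num) (hc 1).2
      simpa using h
    rw [e1, hw']
    simp only [Finset.sum_range_succ, Finset.sum_range_zero, zero_add, pow_zero, pow_one,
      Module.End.one_apply]
    rw [h12]
    abel
  · have hu := zl_uniq L (fun i => if i = 0 then 0 else c i - c (7 - i))
      (by
        intro i
        split_ifs
        · simp
        · simp [(hc i).2, (hc (7 - i)).2]) (by
        have e : w - x w = 0 := by rw [hx, sub_self]
        rw [hw'] at e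
        simp only [Finset.sum_range_succ, Finset.sum_range_zero, zero_add, map_add] at e
        rw [hxd, zl3_x L (by norm_num) (hc 0).2, zl3_x L (by norm_num) (hc 1).2,
          zl3_x L (by norm_num) (hc 2).2, zl3_x L (by norm_num) (hc 3).2,
          zl3_x L (by norm_num) (hc 4).2, zl3_x L (by norm_num) (hc 5).2,
          zl3_x L (by norm_num) (hc 6).2] at e
        simp only [Nat.sub_zero, ht, Module.End.one_apply, Nat.reduceSub] at e
        refine Eq.trans ?_ e
        simp [Finset.sum_range_succ]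
        abel)
    have h1 : c 1 = c 6 := by
      have h := hu 1 (by norm_num)
      simp only [one_ne_zero, if_false, Nat.reduceSub] at h
      exact sub_eq_zero.1 h
    have h2 : c 2 = c 5 := by
      have h := hu 2 (by norm_num)
      simp only [two_ne_zero, if_false, Nat.reduceSub] at h
      exact sub_eq_zero.1 h
    have h3 : c 3 = c 4 := by
      have h := hu 3 (by norm_num)
      simp only [three_ne_zero, if_false, Nat.reduceSub] at h
      exact sub_eq_zero.1 h
    refine ⟨c 0, (hc 0).1, ((t : Module.End (ZMod 2) V) ^ 1) (c 1) +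
      ((t : Module.End (ZMod 2) V) ^ 2) (c 2) + ((t : Module.End (ZMod 2) V) ^ 3) (c 3),
      W.add_mem (W.add_mem (hT 1 _ (hc 1).1) (hT 2 _ (hc 2).1)) (hT 3 _ (hc 3).1), (hc 0).2, ?_⟩
    rw [map_add, map_add, hxd, zl3_x L (by norm_num) (hc 1).2, zl3_x L (by norm_num) (hc 2).2,
      zl3_x L (by norm_num) (hc 3).2, hw']
    simp only [Finset.sum_range_succ, Finset.sum_range_zero, zero_add, pow_zero,
      Module.End.one_apply, Nat.reduceSub]
    rw [← h1, ← h2, ← h3]
    abel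

/-- `C_V(s) ∩ [V, x] = 0`.

Proof. `y = ∑ i < r, t ^ i (c i)` (`zl_dec`, `W = ⊤`), `x y = ∑ i < r, t⁻¹ ^ i (c i)` as in `zl_cent`; the
component with `i = 0` of `y + x y` is `c 0 + c 0 = 0`: `v - (y + x y) = 0` and `zl_uniq` with
`c' 0 = v - (c 0 + c 0)` give `v = 0`. -/
theorem zl_direct {r : ℕ} {V : Type} [AddCommGroup V] [Module (ZMod 2) V]
    {s t ζ g : (Module.End (ZMod 2) V)ˣ} (L : ZLinB r s t ζ g) {v y : V}
    (hv : (s : Module.End (ZMod 2) V) v = v)
    (h : v = y + ((g : Module.End (ZMod 2) V) ^ 4) y) : v = 0 := by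
  obtain ⟨c, hc, hy⟩ := zl_dec L ⊤ (fun _ _ => Submodule.mem_top) (fun _ _ => Submodule.mem_top)
    y Submodule.mem_top
  have ht : (t : Module.End (ZMod 2) V) ^ r = 1 := by
    have h := congrArg (fun u : (Module.End (ZMod 2) V)ˣ => (u : Module.End (ZMod 2) V)) L.ht
    simpa using h
  have h2 : c 0 + c 0 = 0 := by
    have e := add_smul (1 : ZMod 2) 1 (c 0)
    rw [one_smul] at e
    rw [← e, show (1 : ZMod 2) + 1 = 0 from by decide, zero_smul]
  rcases L.hr with rfl | rfl
  · have hu := zl_uniq L (fun i => if i = 0 then v - (c 0 + c 0) else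
      if i = 1 then -(c 1 + c 2) else -(c 2 + c 1))
      (by
        intro i
        split_ifs
        · simp [(hc 0).2, hv]
        · simp [(hc 1).2, (hc 2).2]
        · simp [(hc 1).2, (hc 2).2]) (by
        have e : v - (y + ((g : Module.End (ZMod 2) V) ^ 4) y) = 0 := by
          rw [← h, sub_self]
        rw [hy] at e
        simp only [Finset.sum_range_succ, Finset.sum_range_zero, zero_add, map_add] at e
        rw [zl3_x L (by norm_num) (hc 0).2, zl3_x L (by norm_num) (hc 1).2,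
          zl3_x L (by norm_num) (hc 2).2] at e
        simp only [Nat.sub_zero, ht, Module.End.one_apply, Nat.reduceSub] at e
        refine Eq.trans ?_ e
        simp [Finset.sum_range_succ]
        abel)
    have h0 := hu 0 (by norm_num)
    simp only [if_true, h2, sub_zero] at h0
    exact h0
  · have hu := zl_uniq L (fun i => if i = 0 then v - (c 0 + c 0) else -(c i + c (7 - i)))
      (by
        intro i
        split_ifs
        · simp [(hc 0).2, hv]
        · simp [(hc i).2, (hc (7 - i)).2]) (by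
        have e : v - (y + ((g : Module.End (ZMod 2) V) ^ 4) y) = 0 := by
          rw [← h, sub_self]
        rw [hy] at e
        simp only [Finset.sum_range_succ, Finset.sum_range_zero, zero_add, map_add] at e
        rw [zl3_x L (by norm_num) (hc 0).2, zl3_x L (by norm_num) (hc 1).2,
          zl3_x L (by norm_num) (hc 2).2, zl3_x L (by norm_num) (hc 3).2,
          zl3_x L (by norm_num) (hc 4).2, zl3_x L (by norm_num) (hc 5).2,
          zl3_x L (by norm_num) (hc 6).2] at e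
        simp only [Nat.sub_zero, ht, Module.End.one_apply, Nat.reduceSub] at e
        refine Eq.trans ?_ e
        simp [Finset.sum_range_succ]
        abel)
    have h0 := hu 0 (by norm_num)
    simp only [if_true, h2, sub_zero] at h0
    exact h0

end Pool.Agent.Lib.MP_544bd1_al
end
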