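import Mathlib
import Pool.Agent.Lib.MP_544bd1_al.ZtDefs3
import Pool.Agent.Lib.MP_544bd1_al.ZtLB3
import Pool.Agent.Lib.MP_544bd1_al.ZtLinB
import Pool.Agent.Lib.MP_544bd1_al.ZsBRb

section

/-!
Theorem Z3, Case B: the forms on `V`.
-/

namespace Pool.Agent.Lib.MP_544bd1_al

open Subgroup

/-- The squaring map `q` and the commutator form `β` in Case B, `P` nonabelian, `g ^ 4` trivial on
`K = P'` (`θ` is the action of `g` on `K`). -/
structure ZFormB {V : Type} [AddCommGroup V] [Module (ZMod 2) V] (s t g : (Module.End (ZMod 2) V)ˣ)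
    {K : Type} [AddCommGroup K] (θ : K → K) (q : V → K) (β : V → V → K) : Prop where
  two : ∀ k : K, k + k = 0
  βl : ∀ u v w, β (u + v) w = β u w + β v w
  βr : ∀ u v w, β u (v + w) = β u v + β u w
  βs : ∀ v w, β v w = β w v
  βa : ∀ v, β v v = 0
  qa : ∀ v w, q (v + w) = q v + q w + β v w
  βS : ∀ v w, β ((s : Module.End (ZMod 2) V) v) ((s : Module.End (ZMod 2) V) w) = β v w
  βT : ∀ v w, β ((t : Module.End (ZMod 2) V) v) ((t : Module.End (ZMod 2) V) w) = β v w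
  qS : ∀ v, q ((s : Module.End (ZMod 2) V) v) = q v
  qT : ∀ v, q ((t : Module.End (ZMod 2) V) v) = q v
  βg : ∀ v w, β ((g : Module.End (ZMod 2) V) v) ((g : Module.End (ZMod 2) V) w) = θ (β v w)
  qg : ∀ v, q ((g : Module.End (ZMod 2) V) v) = θ (q v)
  θadd : ∀ k l, θ (k + l) = θ k + θ l
  θ4 : ∀ k, θ (θ (θ (θ k))) = k

end Pool.Agent.Lib.MP_544bd1_al
end

section

/-!
Theorem Z3, Case B, linear part: cyclic vectors.
-/

namespace Pool.Agent.Lib.MP_544bd1_al

open Subgroup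

/-- **A vector `h ∈ C_V(s)`, fixed by `g` modulo `[V, x]`.**

Proof. Let `x = g ^ 4`, `N = g - 1`, `N ^ 8 = g ^ 8 - 1 = 0`, `N ^ 4 = x - 1`. There is `v₀ ≠ 0` with `s v₀ = v₀`:
otherwise `zl_dec` (`W = ⊤`) gives `V = 0`, contradiction to `hV`. Let `C = {v | x v = v}`,
`B = {y + x y}`, submodules of `V`, invariant under `g`, `B ≤ C` (`x ^ 2 = 1`); `v₀ ∈ C` (`zl_x1`),
`v₀ ∉ B` (`zl_direct`). Let `k` be maximal with `N ^ k v₀ ∉ B` (`k < 8`; `N ^ 0 v₀ ∉ B`, `N ^ 8 v₀ = 0`; `Nat.find`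
for the least `k + 1` with `N ^ (k + 1) v₀ ∈ B`). Then `u = N ^ k v₀ ∈ C`, `u ∉ B`, `N u ∈ B`. By `zl_cent`
(`W = ⊤`) `u = h + (y + x y)`, `s h = h`; `h ≠ 0`; `g h - h = N u - N (y + x y) ∈ B`. -/
theorem zl_h {r : ℕ} {V : Type} [AddCommGroup V] [Module (ZMod 2) V] (hV : ∃ v : V, v ≠ 0)
    {s t ζ g : (Module.End (ZMod 2) V)ˣ} (L : ZLinB r s t ζ g) :
    ∃ h : V, h ≠ 0 ∧ (s : Module.End (ZMod 2) V) h = h ∧
      ∃ y, (g : Module.End (ZMod 2) V) h = h + (y + ((g : Module.End (ZMod 2) V) ^ 4) y) := by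
  have hx2 : ∀ v : V, ((g : Module.End (ZMod 2) V) ^ 4) (((g : Module.End (ZMod 2) V) ^ 4) v) = v := by
    intro v
    have h1 : ((g : Module.End (ZMod 2) V) ^ 4) * ((g : Module.End (ZMod 2) V) ^ 4) = 1 := by
      rw [← pow_add]
      have h2 := congrArg (fun u : (Module.End (ZMod 2) V)ˣ => (u : Module.End (ZMod 2) V)) L.hx2
      simpa using h2
    have h3 := congrArg (fun f : Module.End (ZMod 2) V => f v) h1
    simpa using h3
  obtain ⟨v₀, hv₀, hsv₀⟩ : ∃ v₀ : V, v₀ ≠ 0 ∧ (s : Module.End (ZMod 2) V) v₀ = v₀ := by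
    by_contra! hcon
    obtain ⟨v, hv⟩ := hV
    obtain ⟨c, hc, hw⟩ := zl_dec L ⊤ (fun w _ => Submodule.mem_top) (fun w _ => Submodule.mem_top) v
      Submodule.mem_top
    apply hv
    rw [hw]
    refine Finset.sum_eq_zero fun i _ => ?_
    have h1 : c i = 0 := by
      by_contra h2
      exact hcon (c i) h2 (hc i).2
    rw [h1, map_zero]
  set X : Module.End (ZMod 2) V := (g : Module.End (ZMod 2) V) ^ 4 with hX
  set N : Module.End (ZMod 2) V := (g : Module.End (ZMod 2) V) - 1 with hN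
  set B : Submodule (ZMod 2) V := LinearMap.range (1 + X) with hB
  have memB : ∀ w, w ∈ B ↔ ∃ y, w = y + X y := by
    intro w
    rw [hB, LinearMap.mem_range]
    constructor
    · rintro ⟨y, hy⟩
      exact ⟨y, by rw [← hy]; rfl⟩
    · rintro ⟨y, hy⟩
      exact ⟨y, by rw [hy]; rfl⟩
  have hcomm : Commute X N := by
    rw [hX, hN]
    exact ((Commute.refl (g : Module.End (ZMod 2) V)).pow_left 4).sub_right (Commute.one_right _)
  have hNB : ∀ w ∈ B, N w ∈ B := by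
    intro w hw
    rw [memB] at hw ⊢
    obtain ⟨y, hy⟩ := hw
    refine ⟨N y, ?_⟩
    rw [hy, map_add]
    have h1 := congrArg (fun f : Module.End (ZMod 2) V => f y) hcomm.eq
    simp only [Module.End.mul_apply] at h1
    rw [h1]
  have hxv₀ : X v₀ = v₀ := zl_x1 L hsv₀
  have hv₀B : v₀ ∉ B := by
    intro h
    rw [memB] at h
    obtain ⟨y, hy⟩ := h
    exact hv₀ (zl_direct L hsv₀ hy)
  have hex : ∃ k, (N ^ k) v₀ ∈ B := ⟨7, by
    rw [hN, L.hN, LinearMap.zero_apply]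
    exact B.zero_mem⟩
  classical
  have hK := Nat.find_spec hex
  have hK0 : Nat.find hex ≠ 0 := by
    intro h0
    rw [h0, pow_zero] at hK
    exact hv₀B hK
  obtain ⟨k, hk⟩ := Nat.exists_eq_succ_of_ne_zero hK0
  have hkn : (N ^ k) v₀ ∉ B := Nat.find_min hex (by omega)
  rw [hk] at hK
  set u := (N ^ k) v₀ with hu
  have hNu : N u ∈ B := by
    rw [Nat.succ_eq_add_one, pow_succ'] at hK
    exact hK
  have hxu : X u = u := by
    have h1 := congrArg (fun f : Module.End (ZMod 2) V => f v₀) (hcomm.pow_right k).eq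
    simp only [Module.End.mul_apply] at h1
    rw [hu, h1, hxv₀]
  obtain ⟨h, -, y, -, hsh, huh⟩ := zl_cent L ⊤ (fun w _ => Submodule.mem_top)
    (fun w _ => Submodule.mem_top) (w := u) Submodule.mem_top hxu
  refine ⟨h, ?_, hsh, ?_⟩
  · rintro rfl
    apply hkn
    rw [memB]
    exact ⟨y, by rw [huh, zero_add]⟩
  · have h1 : N h ∈ B := by
      have h2 : h = u - (y + X y) := by rw [huh]; abel
      rw [h2, map_sub]
      exact B.sub_mem hNu (hNB _ ((memB _).2 ⟨y, rfl⟩))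
    rw [memB] at h1
    obtain ⟨y', hy'⟩ := h1
    refine ⟨y', ?_⟩
    rw [← hy', hN, LinearMap.sub_apply, Module.End.one_apply]
    abel

/-- **Such a vector generates `V`.**

Proof. Let `W` be the smallest submodule which contains `h` and is invariant under `s`, `t` (`sInf`);
also under `s⁻¹`, `t⁻¹` (powers) and so under `closure {s, t}`. `gW = W.map g` contains `g h` and is
invariant under `s`, `t`: `s * g = g * (g⁻¹ * s * g)` and `g⁻¹ * s * g`, `g⁻¹ * t * g` are in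
`closure {s, t}`: conjugation by `g` maps `closure {s, t}` into itself (`L.hgs`, `L.hgt`), so also
conjugation by `g⁻¹ = g ^ 7`. By `L.hxA` and `zl_x1`: `x (g h) = g (x h) = g h`. By `zl_cent` for `gW`
`g h = v + (y' + x y')`, `v ∈ gW`, `s v = v`. Hence `h - v = (y' + x y') - (y + x y)` is fixed by `s`, and
`h = v` by `zl_direct` (`x` is additive). So `h ∈ gW`, `W ≤ gW`. `W` and `gW` have the same finite
cardinality (`V` finite), so `gW = W`: `W` is invariant under `g`. `L.irr`: `W = ⊥` (no: `h ≠ 0`) or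
`W = ⊤`. So every `v` lies in all submodules as in the statement. Last part: `zl_cyc`. -/
theorem zl_gen {r : ℕ} {V : Type} [AddCommGroup V] [Module (ZMod 2) V] [Finite V]
    {s t ζ g : (Module.End (ZMod 2) V)ˣ} (L : ZLinB r s t ζ g) {h : V} (h0 : h ≠ 0)
    (hs : (s : Module.End (ZMod 2) V) h = h)
    (hg : ∃ y, (g : Module.End (ZMod 2) V) h = h + (y + ((g : Module.End (ZMod 2) V) ^ 4) y)) :
    ∀ v : V, (s : Module.End (ZMod 2) V) v = v →
      ∃ p : Polynomial (ZMod 2), (Polynomial.aeval (ζ : Module.End (ZMod 2) V) p) h = v := by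
  have hx2 : ∀ v : V, ((g : Module.End (ZMod 2) V) ^ 4) (((g : Module.End (ZMod 2) V) ^ 4) v) = v := by
    intro v
    have h1 : ((g : Module.End (ZMod 2) V) ^ 4) * ((g : Module.End (ZMod 2) V) ^ 4) = 1 := by
      rw [← pow_add]
      have h2 := congrArg (fun u : (Module.End (ZMod 2) V)ˣ => (u : Module.End (ZMod 2) V)) L.hx2
      simpa using h2
    have h3 := congrArg (fun f : Module.End (ZMod 2) V => f v) h1
    simpa using h3
  have hr0 : r ≠ 0 := by rcases L.hr with h | h <;> omega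
  -- the smallest invariant submodule containing `h`
  obtain ⟨W, hWdef⟩ : ∃ W : Submodule (ZMod 2) V, W = sInf {U : Submodule (ZMod 2) V |
      (∀ x ∈ U, (s : Module.End (ZMod 2) V) x ∈ U) ∧ (∀ x ∈ U, (t : Module.End (ZMod 2) V) x ∈ U) ∧
        h ∈ U} := ⟨_, rfl⟩
  have hWs : ∀ w ∈ W, (s : Module.End (ZMod 2) V) w ∈ W := by
    intro w hw
    rw [hWdef, Submodule.mem_sInf] at hw ⊢
    exact fun U hU => hU.1 _ (hw U hU)
  have hWt : ∀ w ∈ W, (t : Module.End (ZMod 2) V) w ∈ W := by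
    intro w hw
    rw [hWdef, Submodule.mem_sInf] at hw ⊢
    exact fun U hU => hU.2.1 _ (hw U hU)
  have hWh : h ∈ W := by
    rw [hWdef, Submodule.mem_sInf]
    exact fun U hU => hU.2.2
  have hWmin : ∀ U : Submodule (ZMod 2) V, (∀ x ∈ U, (s : Module.End (ZMod 2) V) x ∈ U) →
      (∀ x ∈ U, (t : Module.End (ZMod 2) V) x ∈ U) → h ∈ U → W ≤ U := by
    intro U h1 h2 h3
    rw [hWdef]
    exact sInf_le ⟨h1, h2, h3⟩
  -- invariance under the group generated by `s` and `t`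
  have hpow : ∀ (a : (Module.End (ZMod 2) V)ˣ), (∀ w ∈ W, (a : Module.End (ZMod 2) V) w ∈ W) →
      ∀ (n : ℕ), ∀ w ∈ W, ((a ^ n : (Module.End (ZMod 2) V)ˣ) : Module.End (ZMod 2) V) w ∈ W := by
    intro a ha n
    induction n with
    | zero =>
      intro w hw
      rw [pow_zero]
      exact hw
    | succ n ih =>
      intro w hw
      rw [pow_succ', Units.val_mul, Module.End.mul_apply]
      exact ha _ (ih w hw)
  have hinv : ∀ a : (Module.End (ZMod 2) V)ˣ, a ^ r = 1 → a⁻¹ = a ^ (r - 1) := by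
    intro a ha
    rw [inv_eq_iff_mul_eq_one, ← pow_succ', Nat.sub_add_cancel (Nat.one_le_iff_ne_zero.2 hr0), ha]
  have hA : ∀ a ∈ closure {s, t}, (∀ w ∈ W, (a : Module.End (ZMod 2) V) w ∈ W) ∧
      (∀ w ∈ W, ((a⁻¹ : (Module.End (ZMod 2) V)ˣ) : Module.End (ZMod 2) V) w ∈ W) := by
    intro a ha
    induction ha using Subgroup.closure_induction with
    | mem a ha =>
      rcases ha with rfl | ha
      · refine ⟨hWs, ?_⟩
        rw [hinv _ L.hs]
        exact hpow _ hWs _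
      · rw [Set.mem_singleton_iff] at ha
        subst ha
        refine ⟨hWt, ?_⟩
        rw [hinv _ L.ht]
        exact hpow _ hWt _
    | one =>
      refine ⟨fun w hw => hw, fun w hw => ?_⟩
      rw [inv_one]
      exact hw
    | mul a b _ _ iha ihb =>
      refine ⟨fun w hw => ?_, fun w hw => ?_⟩
      · rw [Units.val_mul, Module.End.mul_apply]
        exact iha.1 _ (ihb.1 _ hw)
      · rw [mul_inv_rev, Units.val_mul, Module.End.mul_apply]
        exact ihb.2 _ (iha.2 _ hw)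
    | inv a _ iha =>
      refine ⟨iha.2, ?_⟩
      rw [inv_inv]
      exact iha.1
  -- conjugation by `g`
  have hc1 : ∀ a ∈ closure {s, t}, g * a * g⁻¹ ∈ closure {s, t} := by
    intro a ha
    induction ha using Subgroup.closure_induction with
    | mem a ha =>
      rcases ha with rfl | ha
      · rw [L.hgs]
        exact subset_closure (Or.inr rfl)
      · rw [Set.mem_singleton_iff] at ha
        subst ha
        exact L.hgt
    | one =>
      rw [mul_one, mul_inv_cancel]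
      exact one_mem _
    | mul a b _ _ iha ihb =>
      have h1 : g * (a * b) * g⁻¹ = (g * a * g⁻¹) * (g * b * g⁻¹) := by group
      rw [h1]
      exact mul_mem iha ihb
    | inv a _ iha =>
      have h1 : g * a⁻¹ * g⁻¹ = (g * a * g⁻¹)⁻¹ := by group
      rw [h1]
      exact inv_mem iha
  have hc2 : ∀ n : ℕ, ∀ a ∈ closure {s, t}, g ^ n * a * (g ^ n)⁻¹ ∈ closure {s, t} := by
    intro n
    induction n with
    | zero =>
      intro a ha
      simpa using ha
    | succ n ih =>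
      intro a ha
      have h1 : g ^ (n + 1) * a * (g ^ (n + 1))⁻¹ = g * (g ^ n * a * (g ^ n)⁻¹) * g⁻¹ := by
        rw [pow_succ']
        group
      rw [h1]
      exact hc1 _ (ih a ha)
  have hg7' : g⁻¹ = g ^ 7 := by
    rw [inv_eq_iff_mul_eq_one, ← pow_succ']
    exact L.hx2
  have hc3 : ∀ a ∈ closure {s, t}, g⁻¹ * a * g ∈ closure {s, t} := by
    intro a ha
    have h1 := hc2 7 a ha
    rw [← hg7', inv_inv] at h1
    exact h1
  -- the image of `W` under `g`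
  have hmap : ∀ a ∈ closure {s, t}, ∀ x ∈ W.map (g : Module.End (ZMod 2) V),
      (a : Module.End (ZMod 2) V) x ∈ W.map (g : Module.End (ZMod 2) V) := by
    rintro a ha x ⟨w, hw, rfl⟩
    refine ⟨((g⁻¹ * a * g : (Module.End (ZMod 2) V)ˣ) : Module.End (ZMod 2) V) w, (hA _ (hc3 a ha)).1 w hw, ?_⟩
    rw [← Module.End.mul_apply, ← Module.End.mul_apply, ← Units.val_mul, ← Units.val_mul]
    congr 2
    group
  have hgX : ∀ w : V, ((g : Module.End (ZMod 2) V) ^ 4) ((g : Module.End (ZMod 2) V) w) =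
      (g : Module.End (ZMod 2) V) (((g : Module.End (ZMod 2) V) ^ 4) w) := by
    intro w
    rw [← Module.End.mul_apply, ← Module.End.mul_apply, ← pow_succ, ← pow_succ']
  have hxh : ((g : Module.End (ZMod 2) V) ^ 4) h = h := zl_x1 L hs
  obtain ⟨v, hv, y', -, hsv, hgh⟩ := zl_cent L (W.map (g : Module.End (ZMod 2) V))
    (hmap s (subset_closure (Or.inl rfl))) (hmap t (subset_closure (Or.inr rfl)))
    (w := (g : Module.End (ZMod 2) V) h) ⟨h, hWh, rfl⟩ (by rw [hgX, hxh])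
  obtain ⟨y, hy⟩ := hg
  have hhv : h - v = 0 := by
    refine zl_direct L (y := y' - y) (by rw [map_sub, hs, hsv]) ?_
    rw [map_sub]
    have h1 : h + (y + ((g : Module.End (ZMod 2) V) ^ 4) y) =
        v + (y' + ((g : Module.End (ZMod 2) V) ^ 4) y') := by rw [← hy, ← hgh]
    have h2 : h - v = (y' + ((g : Module.End (ZMod 2) V) ^ 4) y') -
        (y + ((g : Module.End (ZMod 2) V) ^ 4) y) := by
      rw [sub_eq_sub_iff_add_eq_add, h1]
      abel
    rw [h2]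
    abel
  have hhW : h ∈ W.map (g : Module.End (ZMod 2) V) := by
    rw [sub_eq_zero.1 hhv]
    exact hv
  have hle : W ≤ W.map (g : Module.End (ZMod 2) V) :=
    hWmin _ (hmap s (subset_closure (Or.inl rfl))) (hmap t (subset_closure (Or.inr rfl))) hhW
  have hfin : Module.Finite (ZMod 2) V := Module.Finite.of_finite
  have hWeq : W = W.map (g : Module.End (ZMod 2) V) :=
    Submodule.eq_of_le_of_finrank_le hle (Submodule.finrank_map_le _ _)
  have hWg : ∀ w ∈ W, (g : Module.End (ZMod 2) V) w ∈ W := by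
    intro w hw
    rw [hWeq]
    exact ⟨w, hw, rfl⟩
  have htop : W = ⊤ := by
    rcases L.irr W hWs hWt hWg with h1 | h1
    · exfalso
      apply h0
      rw [h1] at hWh
      exact (Submodule.mem_bot _).1 hWh
    · exact h1
  intro v hv
  refine zl_cyc L hs hv fun U hUs hUt hU => ?_
  have h1 := hWmin U hUs hUt hU
  rw [htop] at h1
  exact h1 Submodule.mem_top

end Pool.Agent.Lib.MP_544bd1_al
end

section

/-!
Theorem Z3, Case B, linear part: the forms.
-/

namespace Pool.Agent.Lib.MP_544bd1_al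

open Subgroup

private theorem lb5_2 {V : Type} [AddCommGroup V] [Module (ZMod 2) V] (a : V) : a + a = 0 := by
  rw [← two_smul (ZMod 2) a]
  have : (2 : ZMod 2) = 0 := by decide
  rw [this, zero_smul]

private theorem lb5_eq {V : Type} [AddCommGroup V] [Module (ZMod 2) V] {a b : V} (h : a + b = 0) : a = b := by
  have := lb5_2 b
  rw [← h] at this
  exact (add_right_cancel this).symm

private theorem lb5_zeta {r : ℕ} {V : Type} [AddCommGroup V] [Module (ZMod 2) V]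
    {s t ζ g : (Module.End (ZMod 2) V)ˣ} (L : ZLinB r s t ζ g) {K : Type} [AddCommGroup K]
    {θ : K → K} {q : V → K} {β : V → V → K} (B : ZFormB s t g θ q β) :
    (∀ v w, β ((ζ : Module.End (ZMod 2) V) v) ((ζ : Module.End (ZMod 2) V) w) = β v w) ∧
      ∀ v, q ((ζ : Module.End (ZMod 2) V) v) = q v := by
  let Inv : (Module.End (ZMod 2) V)ˣ → Prop := fun u =>
    (∀ v w, β ((u : Module.End (ZMod 2) V) v) ((u : Module.End (ZMod 2) V) w) = β v w) ∧
      ∀ v, q ((u : Module.End (ZMod 2) V) v) = q v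
  have hmul : ∀ u u', Inv u → Inv u' → Inv (u * u') := by
    intro u u' h h'
    refine ⟨fun v w => ?_, fun v => ?_⟩
    · rw [Units.val_mul]
      show β ((u : Module.End (ZMod 2) V) ((u' : Module.End (ZMod 2) V) v))
        ((u : Module.End (ZMod 2) V) ((u' : Module.End (ZMod 2) V) w)) = _
      rw [h.1, h'.1]
    · rw [Units.val_mul]
      show q ((u : Module.End (ZMod 2) V) ((u' : Module.End (ZMod 2) V) v)) = _
      rw [h.2, h'.2]
  have hii : ∀ (u : (Module.End (ZMod 2) V)ˣ) (v : V),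
      (u : Module.End (ZMod 2) V) (((u⁻¹ : (Module.End (ZMod 2) V)ˣ) : Module.End (ZMod 2) V) v) = v := by
    intro u v
    show ((u : Module.End (ZMod 2) V) * ((u⁻¹ : (Module.End (ZMod 2) V)ˣ) : Module.End (ZMod 2) V)) v = v
    rw [Units.mul_inv]
    rfl
  have hinv : ∀ u, Inv u → Inv u⁻¹ := by
    intro u h
    refine ⟨fun v w => ?_, fun v => ?_⟩
    · rw [← h.1, hii, hii]
    · rw [← h.2, hii]
  have hz : ζ = s * t * s⁻¹ * t⁻¹ := by
    rw [L.hst]
    group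
  have hs : Inv s := ⟨B.βS, B.qS⟩
  have ht : Inv t := ⟨B.βT, B.qT⟩
  have h : Inv ζ := by
    rw [hz]
    exact hmul _ _ (hmul _ _ (hmul _ _ hs ht) (hinv _ hs)) (hinv _ ht)
  exact h

/-- **The forms and `x = g ^ 4`.**

Proof. `θ ^ 4 = 1` (`B.θ4`), so `β (x v) (x w) = β v w` and `q (x v) = q v`; `x ^ 2 = 1`. (1) `β (x v) w
= β (x v) (x (x w)) = β v (x w)`. (2) `F v = β v (x v)` is additive: `F (v + w) = F v + F w + β v (x w)
+ β w (x v)`, `β w (x v) = β (x v) w = β v (x w)` and `B.two`. `F (ζ v) = F v` (`x`, `ζ` commute by `L.hg2`;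
`β (ζ v) (ζ w) = β v w`, since `ζ = s * t * s⁻¹ * t⁻¹` by `L.hst`). So `F (ζ v - v) = 0`; `ζ - 1` is
injective (`L.hfix`), so surjective (`V` finite): `F = 0`. (3) `q (y + x y) = q y + q (x y) + β y (x y)
= 2 q y + F y = 0`. (4) `β c (y + x y) = β c y + β (x c) y = 2 β c y = 0` if `x c = c`. -/
theorem zf_x {r : ℕ} {V : Type} [AddCommGroup V] [Module (ZMod 2) V] [Finite V]
    {s t ζ g : (Module.End (ZMod 2) V)ˣ} (L : ZLinB r s t ζ g) {K : Type} [AddCommGroup K]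
    {θ : K → K} {q : V → K} {β : V → V → K} (B : ZFormB s t g θ q β) :
    (∀ v w, β (((g : Module.End (ZMod 2) V) ^ 4) v) w = β v (((g : Module.End (ZMod 2) V) ^ 4) w)) ∧
      (∀ y, q (y + ((g : Module.End (ZMod 2) V) ^ 4) y) = 0) ∧
      ∀ c, ((g : Module.End (ZMod 2) V) ^ 4) c = c →
        ∀ y, β c (y + ((g : Module.End (ZMod 2) V) ^ 4) y) = 0 := by
  obtain ⟨x, hx⟩ : ∃ x, x = (g : Module.End (ZMod 2) V) ^ 4 := ⟨_, rfl⟩
  rw [← hx]
  have hxv : ∀ v, x v = (g : Module.End (ZMod 2) V) ((g : Module.End (ZMod 2) V)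
      ((g : Module.End (ZMod 2) V) ((g : Module.End (ZMod 2) V) v))) := by
    intro v
    rw [hx]
    rfl
  have hxx : ∀ v, x (x v) = v := by
    intro v
    have h1 : x * x = 1 := by
      rw [hx, ← pow_add, ← Units.val_pow_eq_pow_val]
      have := L.hx2
      rw [show 4 + 4 = 8 from rfl, this, Units.val_one]
    exact LinearMap.congr_fun h1 v
  have hβx : ∀ v w, β (x v) (x w) = β v w := by
    intro v w
    rw [hxv, hxv, B.βg, B.βg, B.βg, B.βg, B.θ4]
  have hqx : ∀ v, q (x v) = q v := by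
    intro v
    rw [hxv, B.qg, B.qg, B.qg, B.qg, B.θ4]
  have h1 : ∀ v w, β (x v) w = β v (x w) := by
    intro v w
    rw [← hβx v (x w), hxx]
  have hxζ : ∀ v, x ((ζ : Module.End (ZMod 2) V) v) = (ζ : Module.End (ZMod 2) V) (x v) := by
    intro v
    have h2 : g ^ 4 * ζ = ζ * g ^ 4 := by
      have h3 : g ^ 4 = g ^ 2 * g ^ 2 := by rw [← pow_add]
      rw [h3, mul_assoc, L.hg2, ← mul_assoc, L.hg2, mul_assoc]
    have h4 : x * (ζ : Module.End (ZMod 2) V) = (ζ : Module.End (ZMod 2) V) * x := by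
      have h5 := congrArg Units.val h2
      rw [Units.val_mul, Units.val_mul, Units.val_pow_eq_pow_val] at h5
      rw [hx]
      exact h5
    exact LinearMap.congr_fun h4 v
  have hF : ∀ v w, β (v + w) (x (v + w)) = β v (x v) + β w (x w) := by
    intro v w
    rw [map_add, B.βl, B.βr, B.βr, B.βs w (x v), h1 v w]
    have h2 := B.two (β v (x w))
    have h3 : β v (x v) + β v (x w) + (β v (x w) + β w (x w)) =
        β v (x v) + β w (x w) + (β v (x w) + β v (x w)) := by abel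
    rw [h3, h2, add_zero]
  have hF0 : ∀ v, β v (x v) = 0 := by
    intro v
    have hinj : Function.Injective fun u : V => (ζ : Module.End (ZMod 2) V) u + u := by
      intro u u' h
      have h2 : (ζ : Module.End (ZMod 2) V) (u + u') = u + u' := by
        apply lb5_eq
        rw [map_add]
        have h' : (ζ : Module.End (ZMod 2) V) u + u = (ζ : Module.End (ZMod 2) V) u' + u' := h
        have h3 : (ζ : Module.End (ZMod 2) V) u + (ζ : Module.End (ZMod 2) V) u' + (u + u') =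
            ((ζ : Module.End (ZMod 2) V) u + u) + ((ζ : Module.End (ZMod 2) V) u' + u') := by abel
        rw [h3, h']
        exact lb5_2 _
      exact lb5_eq (L.hfix _ h2)
    obtain ⟨u, hu⟩ := (Finite.injective_iff_surjective.1 hinj) v
    have hu' : (ζ : Module.End (ZMod 2) V) u + u = v := hu
    rw [← hu', hF, hxζ, (lb5_zeta L B).1]
    exact B.two _
  refine ⟨h1, fun y => ?_, fun c hc y => ?_⟩
  · rw [B.qa, hqx, hF0, add_zero]
    exact B.two _
  · rw [B.βr, ← h1, hc]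
    exact B.two _

/-- **`ζ`-invariance.** Proof. `ζ = s * t * s⁻¹ * t⁻¹` (`L.hst`). -/
theorem zf_zeta {r : ℕ} {V : Type} [AddCommGroup V] [Module (ZMod 2) V]
    {s t ζ g : (Module.End (ZMod 2) V)ˣ} (L : ZLinB r s t ζ g) {K : Type} [AddCommGroup K]
    {θ : K → K} {q : V → K} {β : V → V → K} (B : ZFormB s t g θ q β) :
    (∀ v w, β ((ζ : Module.End (ZMod 2) V) v) ((ζ : Module.End (ZMod 2) V) w) = β v w) ∧
      ∀ v, q ((ζ : Module.End (ZMod 2) V) v) = q v := by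
  exact lb5_zeta L B

/-- **Orthogonality and values.** Every value of `β` is a sum of values on `C_V(s)`: if `β` maps
`C_V(s) × C_V(s)` into a subgroup `K₀` then all values of `β` are in `K₀`.

Proof. For `0 < i < r` and `v, w` fixed by `s`: `β v (t ^ i w) = 0`: on the submodule
`A = {u | s u = ζ ^ i u}` (finite, invariant under `ζ`) `s - 1 = ζ ^ i - 1` is injective (`zl_fix`), so
surjective; `t ^ i w ∈ A` (`s t ^ i = ζ ^ i t ^ i s`), `t ^ i w = s u - u`, `u ∈ A`, and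
`β v (s u - u) = β (s v) (s u) - β v u = 0`. Let `v = ∑ i < r, t ^ i (c i)`, `w = ∑ j < r, t ^ j (d j)`
(`zl_dec`, `W = ⊤`). `β (t ^ i a) (t ^ j b) = β a (t ^ (j - i) b)` (for `i ≤ j`; symmetric otherwise)
is `0` for `i ≠ j` and `β a b` for `i = j`. So `β v w = ∑ i < r, β (c i) (d i) ∈ K₀`. -/
theorem zf_val {r : ℕ} {V : Type} [AddCommGroup V] [Module (ZMod 2) V] [Finite V]
    {s t ζ g : (Module.End (ZMod 2) V)ˣ} (L : ZLinB r s t ζ g) {K : Type} [AddCommGroup K]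
    {θ : K → K} {q : V → K} {β : V → V → K} (B : ZFormB s t g θ q β) (K₀ : AddSubgroup K)
    (hK : ∀ v w, (s : Module.End (ZMod 2) V) v = v → (s : Module.End (ZMod 2) V) w = w →
      β v w ∈ K₀) : ∀ v w, β v w ∈ K₀ := by
  have hST : (s : Module.End (ZMod 2) V) * t = ζ * t * s := by
    have h := congrArg Units.val L.hst
    rw [Units.val_mul, Units.val_mul, Units.val_mul] at h
    exact h
  have hZS : (ζ : Module.End (ZMod 2) V) * s = s * ζ := by
    have h := congrArg Units.val L.hζs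
    rw [Units.val_mul, Units.val_mul] at h
    exact h
  have hZT : (ζ : Module.End (ZMod 2) V) * t = t * ζ := by
    have h := congrArg Units.val L.hζt
    rw [Units.val_mul, Units.val_mul] at h
    exact h
  obtain ⟨S, hS⟩ : ∃ S, S = (s : Module.End (ZMod 2) V) := ⟨_, rfl⟩
  obtain ⟨T, hT⟩ : ∃ T, T = (t : Module.End (ZMod 2) V) := ⟨_, rfl⟩
  obtain ⟨Z, hZ⟩ : ∃ Z, Z = (ζ : Module.End (ZMod 2) V) := ⟨_, rfl⟩
  have hβS := B.βS
  have hβT := B.βT
  have hdec := zl_dec L ⊤ (fun _ _ => Submodule.mem_top) (fun _ _ => Submodule.mem_top)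
  have hfix : ∀ {j : ℕ}, ¬ r ∣ j → ∀ {v : V}, (Z ^ j) v = v → v = 0 := by
    intro j hj v hv
    rw [hZ] at hv
    exact zl_fix L hj hv
  rw [← hS] at hST hZS hβS hdec hK
  rw [← hT] at hST hZT hβT hdec
  rw [← hZ] at hST hZS hZT
  have hSTi : ∀ i : ℕ, S * T ^ i = Z ^ i * T ^ i * S := by
    intro i
    induction i with
    | zero => rw [pow_zero, pow_zero, one_mul, mul_one, one_mul]
    | succ i ih =>
      have h1 : Commute Z (T ^ i) := (show Commute Z T from hZT).pow_right i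
      calc S * T ^ (i + 1) = S * T ^ i * T := by rw [pow_succ, mul_assoc]
        _ = Z ^ i * T ^ i * (S * T) := by rw [ih, mul_assoc]
        _ = Z ^ i * (T ^ i * Z) * T * S := by rw [hST]; simp only [mul_assoc]
        _ = Z ^ i * (Z * T ^ i) * T * S := by rw [h1.eq]
        _ = Z ^ (i + 1) * T ^ (i + 1) * S := by rw [pow_succ, pow_succ]; simp only [mul_assoc]
  have hβTi : ∀ (i : ℕ) v w, β ((T ^ i) v) ((T ^ i) w) = β v w := by
    intro i
    induction i with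
    | zero => intro v w; rw [pow_zero]; rfl
    | succ i ih =>
      intro v w
      rw [pow_succ']
      show β (T ((T ^ i) v)) (T ((T ^ i) w)) = _
      rw [hβT, ih]
  have hβ0l : ∀ w, β 0 w = 0 := fun w => by
    have h := B.βl 0 0 w
    rw [add_zero] at h
    exact left_eq_add.1 h
  have horth : ∀ i : ℕ, 0 < i → i < r → ∀ v w, S v = v → S w = w → β v ((T ^ i) w) = 0 := by
    intro i hi0 hir v w hv hw
    have hnd : ¬ r ∣ i := Nat.not_dvd_of_pos_of_lt hi0 hir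
    have hZSi : ∀ u, S ((Z ^ i) u) = (Z ^ i) (S u) := by
      intro u
      have h1 : Commute (Z ^ i) S := (show Commute Z S from hZS).pow_left i
      exact (LinearMap.congr_fun h1.eq u).symm
    have hmem : ∀ u : {u : V // S u = (Z ^ i) u}, S ((Z ^ i) u.1 + u.1) = (Z ^ i) ((Z ^ i) u.1 + u.1) := by
      intro u
      rw [map_add, map_add, hZSi, u.2]
    let f : {u : V // S u = (Z ^ i) u} → {u : V // S u = (Z ^ i) u} := fun u => ⟨(Z ^ i) u.1 + u.1, hmem u⟩
    have hinj : Function.Injective f := by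
      intro u u' h
      have h' : (Z ^ i) u.1 + u.1 = (Z ^ i) u'.1 + u'.1 := congrArg Subtype.val h
      have h2 : (Z ^ i) (u.1 + u'.1) = u.1 + u'.1 := by
        apply lb5_eq
        rw [map_add]
        have h3 : (Z ^ i) u.1 + (Z ^ i) u'.1 + (u.1 + u'.1) = ((Z ^ i) u.1 + u.1) + ((Z ^ i) u'.1 + u'.1) := by abel
        rw [h3, h']
        exact lb5_2 _
      exact Subtype.ext (lb5_eq (hfix hnd h2))
    have hw' : S ((T ^ i) w) = (Z ^ i) ((T ^ i) w) := by
      have h1 := LinearMap.congr_fun (hSTi i) w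
      have h2 : S ((T ^ i) w) = (Z ^ i) ((T ^ i) (S w)) := h1
      rw [h2, hw]
    obtain ⟨u, hu⟩ := (Finite.injective_iff_surjective.1 hinj) ⟨(T ^ i) w, hw'⟩
    have hu' : (Z ^ i) u.1 + u.1 = (T ^ i) w := congrArg Subtype.val hu
    rw [← hu', ← u.2, B.βr]
    have h3 : β v (S u.1) = β v u.1 := by
      rw [← hβS v u.1, hv]
    rw [h3]
    exact B.two _
  have hij : ∀ i < r, ∀ j < r, ∀ v w, S v = v → S w = w → β ((T ^ i) v) ((T ^ j) w) ∈ K₀ := by
    intro i hi j hj v w hv hw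
    rcases lt_trichotomy i j with h | h | h
    · have h1 : T ^ j = T ^ i * T ^ (j - i) := by rw [← pow_add]; congr 1; omega
      have h2 : (T ^ j) w = (T ^ i) ((T ^ (j - i)) w) := by rw [h1]; rfl
      rw [h2, hβTi, horth (j - i) (by omega) (by omega) v w hv hw]
      exact K₀.zero_mem
    · rw [h, hβTi]
      exact hK v w hv hw
    · have h1 : T ^ i = T ^ j * T ^ (i - j) := by rw [← pow_add]; congr 1; omega
      have h2 : (T ^ i) v = (T ^ j) ((T ^ (i - j)) v) := by rw [h1]; rfl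
      rw [h2, hβTi, B.βs, horth (i - j) (by omega) (by omega) w v hw hv]
      exact K₀.zero_mem
  have hsl : ∀ (n : ℕ) (f : ℕ → V) (w : V), β (∑ i ∈ Finset.range n, f i) w =
      ∑ i ∈ Finset.range n, β (f i) w := by
    intro n f w
    induction n with
    | zero => rw [Finset.sum_range_zero, Finset.sum_range_zero, hβ0l]
    | succ n ih => rw [Finset.sum_range_succ, Finset.sum_range_succ, B.βl, ih]
  intro v w
  obtain ⟨c, hc, hv⟩ := hdec v Submodule.mem_top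
  obtain ⟨d, hd, hw⟩ := hdec w Submodule.mem_top
  rw [hv, hsl]
  refine AddSubgroup.sum_mem _ fun i hi => ?_
  rw [hw, B.βs, hsl]
  refine AddSubgroup.sum_mem _ fun j hj => ?_
  rw [B.βs]
  exact hij i (Finset.mem_range.1 hi) j (Finset.mem_range.1 hj) _ _ (hc i).2 (hd j).2

end Pool.Agent.Lib.MP_544bd1_al
end

section

/-!
Theorem Z3, Case B, linear part: `r = 7`.
-/

namespace Pool.Agent.Lib.MP_544bd1_al

open Subgroup

private theorem z6_comm {V : Type} [AddCommGroup V] [Module (ZMod 2) V]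
    (A Z : Module.End (ZMod 2) V) (h : A * Z = Z * A) (p : Polynomial (ZMod 2)) :
    A * Polynomial.aeval Z p = Polynomial.aeval Z p * A := by
  have hc : Commute A Z := h
  induction p using Polynomial.induction_on' with
  | add p q hp hq => rw [map_add, mul_add, add_mul, hp, hq]
  | monomial n a =>
    rw [Polynomial.aeval_monomial]
    have h1 : Commute A (algebraMap (ZMod 2) (Module.End (ZMod 2) V) a) :=
      (Algebra.commutes a A).symm
    exact (h1.mul_right (hc.pow_right n)).eq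

private theorem z6_comm_apply {V : Type} [AddCommGroup V] [Module (ZMod 2) V]
    (A Z : Module.End (ZMod 2) V) (h : A * Z = Z * A) (p : Polynomial (ZMod 2)) (v : V) :
    A (Polynomial.aeval Z p v) = Polynomial.aeval Z p (A v) := by
  have h1 := congrArg (fun f : Module.End (ZMod 2) V => f v) (z6_comm A Z h p)
  simpa using h1

/-- the vector (an operator applied to a vector as in zl_h) is again such a vector -/
private theorem z6_star {V : Type} [AddCommGroup V] [Module (ZMod 2) V] [Finite V]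
    {r : ℕ} {s t ζ g : (Module.End (ZMod 2) V)ˣ} (L : ZLinB r s t ζ g) {h y : V}
    (hsh : (s : Module.End (ZMod 2) V) h = h)
    (hy : (g : Module.End (ZMod 2) V) h = h + (y + ((g : Module.End (ZMod 2) V) ^ 4) y))
    (A : Module.End (ZMod 2) V) (hAs : Commute A (s : Module.End (ZMod 2) V))
    (hAg : Commute A (g : Module.End (ZMod 2) V)) (hA : A h ≠ 0) :
    ∀ v : V, (s : Module.End (ZMod 2) V) v = v →
      ∃ p : Polynomial (ZMod 2), (Polynomial.aeval (ζ : Module.End (ZMod 2) V) p) (A h) = v := by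
  have e1 : ∀ v, A ((s : Module.End (ZMod 2) V) v) = (s : Module.End (ZMod 2) V) (A v) := by
    intro v
    have h1 := congrArg (fun f : Module.End (ZMod 2) V => f v) hAs.eq
    simpa using h1
  have e2 : ∀ v, A ((g : Module.End (ZMod 2) V) v) = (g : Module.End (ZMod 2) V) (A v) := by
    intro v
    have h1 := congrArg (fun f : Module.End (ZMod 2) V => f v) hAg.eq
    simpa using h1
  have e3 : ∀ v, A (((g : Module.End (ZMod 2) V) ^ 4) v) =
      ((g : Module.End (ZMod 2) V) ^ 4) (A v) := by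
    intro v
    have h1 := congrArg (fun f : Module.End (ZMod 2) V => f v) (hAg.pow_right 4).eq
    simpa using h1
  refine zl_gen L hA ?_ ⟨A y, ?_⟩
  · rw [← e1, hsh]
  · rw [← e2, hy, map_add, map_add, e3]

/-- **`r = 7`: `ζ ^ 3 = ζ + 1` or `ζ ^ 3 = ζ ^ 2 + 1` on `C_V(s)`.**

Proof. Let `h` be the vector of `zl_h` (`hV`), `g h = h + (y + x y)`, `x = g ^ 4`. By `zl_gen` every `v` fixed
by `s` is `v = p(ζ) h`; `g` commutes with `ζ` (`L.hg7`) and `x` too, so `g v = p(ζ) (g h)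
= v + (p(ζ) y + x (p(ζ) y))`. So (*) `zl_gen` can be applied to every `h' ≠ 0` fixed by `s`. On the
vectors fixed by `s`: `(ζ ^ 7 - 1) v = 0`, `ζ ^ 7 - 1 = (ζ - 1) * (ζ ^ 3 + ζ + 1) * (ζ ^ 3 + ζ ^ 2 + 1)` in
characteristic 2, and `ζ - 1` is injective: `(ζ ^ 3 + ζ + 1) ((ζ ^ 3 + ζ ^ 2 + 1) v) = 0`. If
`h' = (ζ ^ 3 + ζ ^ 2 + 1) h ≠ 0`, then `(ζ ^ 3 + ζ + 1) h' = 0` and by (*) for `h'` `(ζ ^ 3 + ζ + 1) v = 0` for all
`v` fixed by `s`. If `h' = 0` then `(ζ ^ 3 + ζ ^ 2 + 1) v = 0` for all `v = p(ζ) h`. -/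
theorem zf_7 {V : Type} [AddCommGroup V] [Module (ZMod 2) V] [Finite V] (hV : ∃ v : V, v ≠ 0)
    {s t ζ g : (Module.End (ZMod 2) V)ˣ} (L : ZLinB 7 s t ζ g) :
    (∀ v : V, (s : Module.End (ZMod 2) V) v = v → ((ζ : Module.End (ZMod 2) V) ^ 3) v =
      (ζ : Module.End (ZMod 2) V) v + v) ∨
    ∀ v : V, (s : Module.End (ZMod 2) V) v = v → ((ζ : Module.End (ZMod 2) V) ^ 3) v =
      ((ζ : Module.End (ZMod 2) V) ^ 2) v + v := by
  obtain ⟨h, h0, hsh, y, hy⟩ := zl_h hV L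
  have hZs : Commute (ζ : Module.End (ZMod 2) V) (s : Module.End (ZMod 2) V) := by
    have h1 := congrArg (fun u : (Module.End (ZMod 2) V)ˣ => (u : Module.End (ZMod 2) V)) L.hζs
    simp only [Units.val_mul] at h1
    exact h1
  have hZg : Commute (ζ : Module.End (ZMod 2) V) (g : Module.End (ZMod 2) V) := by
    have h1 := congrArg (fun u : (Module.End (ZMod 2) V)ˣ => (u : Module.End (ZMod 2) V))
      (L.hg7 rfl)
    simp only [Units.val_mul] at h1
    exact h1.symm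
  have hZ7 : (ζ : Module.End (ZMod 2) V) ^ 7 = 1 := by
    have h1 := congrArg (fun u : (Module.End (ZMod 2) V)ˣ => (u : Module.End (ZMod 2) V)) L.hζ
    simpa using h1
  have hfix := L.hfix
  obtain ⟨Z, hZ⟩ : ∃ Z : Module.End (ZMod 2) V, (ζ : Module.End (ZMod 2) V) = Z := ⟨_, rfl⟩
  rw [hZ] at hZs hZg hZ7 hfix ⊢
  have hA12 : ∀ v : V, (Z ^ 3 + Z + 1 : Module.End (ZMod 2) V)
      ((Z ^ 3 + Z ^ 2 + 1 : Module.End (ZMod 2) V) v) = 0 := by
    intro v
    apply hfix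
    have h2 : Z * ((Z ^ 3 + Z + 1) * (Z ^ 3 + Z ^ 2 + 1)) =
        (Z ^ 3 + Z + 1) * (Z ^ 3 + Z ^ 2 + 1) + (Z ^ 7 - 1) +
          ((Z ^ 4 - Z ^ 3) + (Z ^ 4 - Z ^ 3)) := by
      noncomm_ring
    rw [hZ7, sub_self, add_zero, ZModModule.add_self, add_zero] at h2
    have h3 := congrArg (fun f : Module.End (ZMod 2) V => f v) h2
    simpa using h3
  have hA1Z : Commute (Z ^ 3 + Z + 1) Z := by
    refine Commute.add_left (Commute.add_left ?_ (Commute.refl Z)) (Commute.one_left Z)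
    exact (Commute.refl Z).pow_left 3
  have hA2Z : Commute (Z ^ 3 + Z ^ 2 + 1) Z := by
    refine Commute.add_left (Commute.add_left ?_ ?_) (Commute.one_left Z)
    · exact (Commute.refl Z).pow_left 3
    · exact (Commute.refl Z).pow_left 2
  have key : ∀ a b c : V, a + b + c = 0 → a = b + c := by
    intro a b c habc
    rw [add_assoc] at habc
    have h4 : b + c + (b + c) = 0 := ZModModule.add_self _
    exact add_right_cancel (habc.trans h4.symm)
  by_cases hc : (Z ^ 3 + Z ^ 2 + 1 : Module.End (ZMod 2) V) h = 0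
  · right
    intro v hv
    have h5 := z6_star L hsh hy 1 (Commute.one_left _) (Commute.one_left _) (by simpa using h0) v hv
    rw [hZ] at h5
    obtain ⟨p, hp⟩ := h5
    rw [Module.End.one_apply] at hp
    have h6 : (Z ^ 3 + Z ^ 2 + 1 : Module.End (ZMod 2) V) v = 0 := by
      rw [← hp, z6_comm_apply _ _ hA2Z.eq, hc, map_zero]
    apply key
    simpa using h6
  · left
    intro v hv
    have hAs : Commute (Z ^ 3 + Z ^ 2 + 1) (s : Module.End (ZMod 2) V) :=
      ((hZs.pow_left 3).add_left (hZs.pow_left 2)).add_left (Commute.one_left _)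
    have hAg : Commute (Z ^ 3 + Z ^ 2 + 1) (g : Module.End (ZMod 2) V) :=
      ((hZg.pow_left 3).add_left (hZg.pow_left 2)).add_left (Commute.one_left _)
    have h5 := z6_star L hsh hy _ hAs hAg hc v hv
    rw [hZ] at h5
    obtain ⟨p, hp⟩ := h5
    have h6 : (Z ^ 3 + Z + 1 : Module.End (ZMod 2) V) v = 0 := by
      rw [← hp, z6_comm_apply _ _ hA1Z.eq, hA12, map_zero]
    apply key
    simpa using h6

/-- **`r = 7`: `β = 0`.**

Proof. By `zf_val` with `K₀ = ⊥` it is enough that `β v w = 0` for `v, w` fixed by `s`. Let `h` be as in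
`zl_h`, `v = p(ζ) h`, `w = p'(ζ) h` (`zl_gen`); by additivity (`Polynomial.induction_on`, or
`Polynomial.aeval_eq_sum_range`; coefficients in `ZMod 2`) it is enough that `β (ζ ^ i h) (ζ ^ j h) = 0`
for all `i, j`, and by `zf_zeta` that `ψ k = β h (ζ ^ k h) = 0` for all `k`. `ζ ^ 7 = 1`, `ψ 0 = 0` (`B.βa`),
`ψ k = ψ (7 - k)` for `k ≤ 7` (`β h (ζ ^ k h) = β (ζ ^ (7 - k) h) h`). First case of `zf_7` (for the vector
`ζ ^ k h`, fixed by `s`): `ψ (k + 3) = ψ (k + 1) + ψ k`: `ψ 3 = ψ 1`; `ψ 4 = ψ 2 + ψ 1` and `ψ 4 = ψ 3 = ψ 1`, so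
`ψ 2 = 0`; `ψ 5 = ψ 3 + ψ 2 = ψ 3` and `ψ 5 = ψ 2 = 0`, so `ψ 3 = 0`, `ψ 1 = 0`, `ψ 4 = ψ 3 = 0`, `ψ 6 = ψ 1 = 0`. Second
case: `ψ (k + 3) = ψ (k + 2) + ψ k`: `ψ 3 = ψ 2`, `ψ 4 = ψ 3 + ψ 1` and `ψ 4 = ψ 3`, so `ψ 1 = 0`, `ψ 5 = ψ 4 + ψ 2 =
ψ 3 + ψ 2 = 0` (`B.two`) and `ψ 5 = ψ 2`: `ψ 2 = 0`, all are `0`. -/
theorem zf_beta7 {V : Type} [AddCommGroup V] [Module (ZMod 2) V] [Finite V]
    {s t ζ g : (Module.End (ZMod 2) V)ˣ} (L : ZLinB 7 s t ζ g) {K : Type} [AddCommGroup K]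
    {θ : K → K} {q : V → K} {β : V → V → K} (B : ZFormB s t g θ q β) : ∀ v w, β v w = 0 := by
  by_cases hV : ∃ v : V, v ≠ 0
  swap
  · push Not at hV
    intro v w
    rw [hV v, hV w]
    exact B.βa 0
  obtain ⟨h, h0, hsh, y, hy⟩ := zl_h hV L
  have hgen := zl_gen L h0 hsh ⟨y, hy⟩
  have h7 := zf_7 hV L
  have hval := zf_val L B ⊥
  have hβζ := (zf_zeta L B).1
  have hZs : Commute (ζ : Module.End (ZMod 2) V) (s : Module.End (ZMod 2) V) := by
    have h1 := congrArg (fun u : (Module.End (ZMod 2) V)ˣ => (u : Module.End (ZMod 2) V)) L.hζs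
    simp only [Units.val_mul] at h1
    exact h1
  have hZ7 : (ζ : Module.End (ZMod 2) V) ^ 7 = 1 := by
    have h1 := congrArg (fun u : (Module.End (ZMod 2) V)ˣ => (u : Module.End (ZMod 2) V)) L.hζ
    simpa using h1
  obtain ⟨Z, hZ⟩ : ∃ Z : Module.End (ZMod 2) V, (ζ : Module.End (ZMod 2) V) = Z := ⟨_, rfl⟩
  rw [hZ] at hZs hZ7
  simp only [hZ] at hgen h7 hβζ
  have hβ0 : ∀ v, β v 0 = 0 := by
    intro v
    have h1 := B.βr v 0 0
    rw [add_zero] at h1
    exact (add_eq_left.mp h1.symm)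
  have hβ0' : ∀ v, β 0 v = 0 := by
    intro v
    rw [B.βs, hβ0]
  -- powers of `Z`
  have hpow : ∀ (k : ℕ) (v w : V), β ((Z ^ k) v) ((Z ^ k) w) = β v w := by
    intro k
    induction k with
    | zero => intro v w; simp
    | succ k ih =>
      intro v w
      rw [pow_succ', Module.End.mul_apply, Module.End.mul_apply, hβζ, ih]
  have hfixk : ∀ k : ℕ, (s : Module.End (ZMod 2) V) ((Z ^ k) h) = (Z ^ k) h := by
    intro k
    have h1 := congrArg (fun f : Module.End (ZMod 2) V => f h) (hZs.pow_left k).eq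
    simp only [Module.End.mul_apply] at h1
    rw [← h1, hsh]
  have hsym : ∀ k : ℕ, k ≤ 7 → β h ((Z ^ k) h) = β h ((Z ^ (7 - k)) h) := by
    intro k hk
    rw [← hpow (7 - k) h ((Z ^ k) h), ← Module.End.mul_apply, ← pow_add, Nat.sub_add_cancel hk,
      hZ7, Module.End.one_apply, B.βs]
  have hψ0 : β h ((Z ^ 0) h) = 0 := by
    rw [pow_zero, Module.End.one_apply]
    exact B.βa h
  have hψ : ∀ k : ℕ, β h ((Z ^ k) h) = 0 := by
    have s34 : β h ((Z ^ 4) h) = β h ((Z ^ 3) h) := hsym 4 (by norm_num)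
    have s25 : β h ((Z ^ 5) h) = β h ((Z ^ 2) h) := hsym 5 (by norm_num)
    rcases h7 with h7 | h7
    · have hrec : ∀ k : ℕ, β h ((Z ^ (k + 3)) h) = β h ((Z ^ (k + 1)) h) + β h ((Z ^ k) h) := by
        intro k
        rw [← B.βr]
        congr 1
        have h1 := h7 _ (hfixk k)
        rw [add_comm k 3, add_comm k 1, pow_add, pow_add, Module.End.mul_apply, h1, pow_one,
          Module.End.mul_apply]
      have r0 := hrec 0
      have r1 := hrec 1
      have r2 := hrec 2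
      norm_num only at r0 r1 r2
      rw [hψ0, add_zero] at r0
      -- `r0 : ψ 3 = ψ 1`, `r1 : ψ 4 = ψ 2 + ψ 1`, `r2 : ψ 5 = ψ 3 + ψ 2`
      have z2 : β h ((Z ^ 2) h) = 0 := by
        rw [s34, r0] at r1
        exact (add_eq_right.mp r1.symm)
      have z3 : β h ((Z ^ 3) h) = 0 := by
        rw [s25, z2, add_zero] at r2
        exact r2.symm
      have z1 : β h ((Z ^ 1) h) = 0 := r0.symm.trans z3
      have all : ∀ k : ℕ, β h ((Z ^ k) h) = 0 ∧ β h ((Z ^ (k + 1)) h) = 0 ∧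
          β h ((Z ^ (k + 2)) h) = 0 := by
        intro k
        induction k with
        | zero => exact ⟨hψ0, z1, z2⟩
        | succ k ih =>
          refine ⟨ih.2.1, ih.2.2, ?_⟩
          have h2 := hrec k
          rw [ih.1, ih.2.1, add_zero] at h2
          exact h2
      exact fun k => (all k).1
    · have hrec : ∀ k : ℕ, β h ((Z ^ (k + 3)) h) = β h ((Z ^ (k + 2)) h) + β h ((Z ^ k) h) := by
        intro k
        rw [← B.βr]
        congr 1
        have h1 := h7 _ (hfixk k)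
        rw [add_comm k 3, add_comm k 2, pow_add, pow_add, Module.End.mul_apply, h1,
          Module.End.mul_apply]
      have r0 := hrec 0
      have r1 := hrec 1
      have r2 := hrec 2
      norm_num only at r0 r1 r2
      rw [hψ0, add_zero] at r0
      -- `r0 : ψ 3 = ψ 2`, `r1 : ψ 4 = ψ 3 + ψ 1`, `r2 : ψ 5 = ψ 4 + ψ 2`
      have z1 : β h ((Z ^ 1) h) = 0 := by
        rw [s34] at r1
        exact (add_eq_left.mp r1.symm)
      have z2 : β h ((Z ^ 2) h) = 0 := by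
        rw [s25, s34, r0, B.two] at r2
        exact r2
      have all : ∀ k : ℕ, β h ((Z ^ k) h) = 0 ∧ β h ((Z ^ (k + 1)) h) = 0 ∧
          β h ((Z ^ (k + 2)) h) = 0 := by
        intro k
        induction k with
        | zero => exact ⟨hψ0, z1, z2⟩
        | succ k ih =>
          refine ⟨ih.2.1, ih.2.2, ?_⟩
          have h2 := hrec k
          rw [ih.1, ih.2.2, add_zero] at h2
          exact h2
      exact fun k => (all k).1
  have hij : ∀ i j : ℕ, β ((Z ^ i) h) ((Z ^ j) h) = 0 := by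
    intro i j
    rcases le_total i j with hle | hle
    · have h1 : (Z ^ j) h = (Z ^ i) ((Z ^ (j - i)) h) := by
        rw [← Module.End.mul_apply, ← pow_add, Nat.add_sub_cancel' hle]
      rw [h1, hpow, hψ]
    · have h1 : (Z ^ i) h = (Z ^ j) ((Z ^ (i - j)) h) := by
        rw [← Module.End.mul_apply, ← pow_add, Nat.add_sub_cancel' hle]
      rw [h1, hpow, B.βs, hψ]
  have hmono : ∀ (n : ℕ) (a : ZMod 2),
      Polynomial.aeval Z (Polynomial.monomial n a) h = 0 ∨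
        Polynomial.aeval Z (Polynomial.monomial n a) h = (Z ^ n) h := by
    intro n a
    rw [Polynomial.aeval_monomial]
    have ha : a = 0 ∨ a = 1 := by
      fin_cases a
      · exact Or.inl rfl
      · exact Or.inr rfl
    rcases ha with ha | ha
    · left
      rw [ha, map_zero, zero_mul]
      rfl
    · right
      rw [ha, map_one, one_mul]
  have hip : ∀ (i : ℕ) (p : Polynomial (ZMod 2)),
      β ((Z ^ i) h) (Polynomial.aeval Z p h) = 0 := by
    intro i p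
    induction p using Polynomial.induction_on' with
    | add p q hp hq => rw [map_add, LinearMap.add_apply, B.βr, hp, hq, add_zero]
    | monomial n a =>
      rcases hmono n a with h1 | h1
      · rw [h1, hβ0]
      · rw [h1, hij]
  have hpp : ∀ p p' : Polynomial (ZMod 2),
      β (Polynomial.aeval Z p h) (Polynomial.aeval Z p' h) = 0 := by
    intro p p'
    induction p using Polynomial.induction_on' with
    | add p q hp hq => rw [map_add, LinearMap.add_apply, B.βl, hp, hq, add_zero]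
    | monomial n a =>
      rcases hmono n a with h1 | h1
      · rw [h1, hβ0']
      · rw [h1, hip]
  intro v w
  have h9 := hval (by
    intro v w hv hw
    obtain ⟨p, hp⟩ := hgen v hv
    obtain ⟨p', hp'⟩ := hgen w hw
    rw [← hp, ← hp', hpp]
    exact AddSubgroup.zero_mem _) v w
  exact (AddSubgroup.mem_bot).mp h9

end Pool.Agent.Lib.MP_544bd1_al
end

section

/-!
Theorem Z3, Case B, linear part: `r = 3`.
-/

namespace Pool.Agent.Lib.MP_544bd1_al

open Subgroup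

private theorem zl7_two {V : Type} [AddCommGroup V] [Module (ZMod 2) V] (v : V) : v + v = 0 := by
  have h1 : ((2 : ZMod 2)) • v = 0 := by
    rw [show (2 : ZMod 2) = 0 from rfl, zero_smul]
  rwa [two_smul] at h1

private theorem zl7_zm (c : ZMod 2) : c = 0 ∨ c = 1 := by
  revert c
  decide

private theorem zl7_inv {V : Type} [AddCommGroup V] [Module (ZMod 2) V]
    (g : (Module.End (ZMod 2) V)ˣ) (v : V) :
    (g : Module.End (ZMod 2) V) (((g⁻¹ : (Module.End (ZMod 2) V)ˣ) : Module.End (ZMod 2) V) v) = v := by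
  rw [← Module.End.mul_apply, ← Units.val_mul, mul_inv_cancel]
  rfl

private theorem zl7_inv' {V : Type} [AddCommGroup V] [Module (ZMod 2) V]
    (g : (Module.End (ZMod 2) V)ˣ) (v : V) :
    ((g⁻¹ : (Module.End (ZMod 2) V)ˣ) : Module.End (ZMod 2) V) ((g : Module.End (ZMod 2) V) v) = v := by
  rw [← Module.End.mul_apply, ← Units.val_mul, inv_mul_cancel]
  rfl

section forms
variable {V : Type} [AddCommGroup V] [Module (ZMod 2) V] {s t ζ g : (Module.End (ZMod 2) V)ˣ}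
  {K : Type} [AddCommGroup K] {θ : K → K} {q : V → K} {β : V → V → K}

private theorem zl7_l0 (B : ZFormB s t g θ q β) (w : V) : β 0 w = 0 := by
  have h1 := B.βl 0 0 w
  rw [add_zero] at h1
  exact left_eq_add.1 h1

private theorem zl7_r0 (B : ZFormB s t g θ q β) (v : V) : β v 0 = 0 := by
  rw [B.βs, zl7_l0 B]

private theorem zl7_t0 (B : ZFormB s t g θ q β) : θ 0 = 0 := by
  have h1 := B.θadd 0 0
  rw [add_zero] at h1
  exact left_eq_add.1 h1

private theorem zl7_ne (B : ZFormB s t g θ q β) (hne : ∃ v w, β v w ≠ 0) : ∃ v : V, v ≠ 0 := by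
  obtain ⟨v, w, h⟩ := hne
  refine ⟨v, fun h0 => h ?_⟩
  rw [h0, zl7_l0 B]

/-- `ζ (ζ v) = ζ v + v` -/
private theorem zl7_z2 (L : ZLinB 3 s t ζ g) (v : V) :
    (ζ : Module.End (ZMod 2) V) ((ζ : Module.End (ZMod 2) V) v) = v + (ζ : Module.End (ZMod 2) V) v := by
  have h3 : (ζ : Module.End (ZMod 2) V) ((ζ : Module.End (ZMod 2) V) ((ζ : Module.End (ZMod 2) V) v)) = v := by
    have h1 : ((ζ ^ 3 : (Module.End (ZMod 2) V)ˣ) : Module.End (ZMod 2) V) v = v := by
      rw [L.hζ]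
      rfl
    rw [Units.val_pow_eq_pow_val, pow_succ, pow_two, Module.End.mul_apply, Module.End.mul_apply] at h1
    exact h1
  have h2 := L.hfix ((ζ : Module.End (ZMod 2) V) ((ζ : Module.End (ZMod 2) V) v) +
    ((ζ : Module.End (ZMod 2) V) v + v)) (by
      rw [map_add, map_add, h3]
      abel)
  rw [eq_neg_of_add_eq_zero_left h2]
  have h4 := zl7_two ((ζ : Module.End (ZMod 2) V) v + v)
  rw [neg_eq_of_add_eq_zero_left h4, add_comm]

private theorem zl7_pol (L : ZLinB 3 s t ζ g) (h : V) (p : Polynomial (ZMod 2)) :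
    ∃ a b : ZMod 2, (Polynomial.aeval (ζ : Module.End (ZMod 2) V) p) h =
      a • h + b • (ζ : Module.End (ZMod 2) V) h := by
  induction p using Polynomial.induction_on' with
  | add p q hp hq =>
    obtain ⟨a, b, e1⟩ := hp
    obtain ⟨c, d, e2⟩ := hq
    refine ⟨a + c, b + d, ?_⟩
    rw [map_add, LinearMap.add_apply, e1, e2, add_smul, add_smul]
    abel
  | monomial n c =>
    have h1 : ∃ a b : ZMod 2, ((ζ : Module.End (ZMod 2) V) ^ n) h =
        a • h + b • (ζ : Module.End (ZMod 2) V) h := by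
      induction n with
      | zero => exact ⟨1, 0, by simp⟩
      | succ n ih =>
        obtain ⟨a, b, e⟩ := ih
        refine ⟨b, a + b, ?_⟩
        rw [pow_succ', Module.End.mul_apply, e, map_add, map_smul, map_smul, zl7_z2 L, smul_add,
          add_smul]
        abel
    obtain ⟨a, b, e⟩ := h1
    refine ⟨c * a, c * b, ?_⟩
    rw [Polynomial.aeval_monomial, Module.End.mul_apply, e, Module.algebraMap_end_apply, smul_add,
      mul_smul, mul_smul]

/-- the vectors fixed by `s` -/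
private theorem zl7_fix [Finite V] (L : ZLinB 3 s t ζ g) {h : V} (h0 : h ≠ 0)
    (hs : (s : Module.End (ZMod 2) V) h = h)
    (hg : ∃ y, (g : Module.End (ZMod 2) V) h = h + (y + ((g : Module.End (ZMod 2) V) ^ 4) y))
    {v : V} (hv : (s : Module.End (ZMod 2) V) v = v) :
    v = 0 ∨ v = h ∨ v = (ζ : Module.End (ZMod 2) V) h ∨ v = h + (ζ : Module.End (ZMod 2) V) h := by
  obtain ⟨p, hp⟩ := zl_gen L h0 hs hg v hv
  obtain ⟨a, b, e⟩ := zl7_pol L h p
  rw [hp] at e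
  rcases zl7_zm a with rfl | rfl <;> rcases zl7_zm b with rfl | rfl
  · left; rw [e, zero_smul, zero_smul, add_zero]
  · right; right; left; rw [e, zero_smul, one_smul, zero_add]
  · right; left; rw [e, zero_smul, one_smul, add_zero]
  · right; right; right; rw [e, one_smul, one_smul]

end forms

/-- **`r = 3`: the values.**

Proof. `(ζ ^ 2 + ζ + 1) v = 0` (`ζ ^ 3 = 1`, `ζ - 1` injective). Let `h` be as in `zl_h` (`V ≠ 0` because of
`hne`); the vectors fixed by `s` are `p(ζ) h` (`zl_gen`), i.e. `0`, `h`, `ζ h`, `ζ ^ 2 h = ζ h + h`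
(`Polynomial` induction, or `p = (X ^ 2 + X + 1) * p' + a X + b`). Put `f = q h`; `q (ζ v) = q v` (`zf_zeta`), so
`q v = f` for `v ≠ 0` fixed by `s`; `q 0 = 0` (`q (0 + 0)`, `B.two`). `f = q (ζ ^ 2 h) = q (ζ h + h) =
f + f + β (ζ h) h = β (ζ h) h`. So all values `β v w` for `v, w` fixed by `s` are `0` or `f` (`B.βa`,
`zf_zeta`, additivity); by `zf_val` with `K₀ = {0, f}` (a subgroup, `B.two`) all values of `β` are `0` or `f`.
`f ≠ 0` because of `hne`. `θ f = θ (β (ζ h) h) = β (g ζ h) (g h) ∈ {0, f}`; if it were `0`, then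
`f = θ (θ (θ (θ f))) = θ (θ (θ 0)) = 0` (`θ 0 = 0` from `B.θadd`), contradiction. -/
theorem zf_3 {V : Type} [AddCommGroup V] [Module (ZMod 2) V] [Finite V]
    {s t ζ g : (Module.End (ZMod 2) V)ˣ} (L : ZLinB 3 s t ζ g) {K : Type} [AddCommGroup K]
    {θ : K → K} {q : V → K} {β : V → V → K} (B : ZFormB s t g θ q β) (hne : ∃ v w, β v w ≠ 0) :
    ∃ f : K, f ≠ 0 ∧ θ f = f ∧ (∀ v w, β v w = 0 ∨ β v w = f) ∧
      ∀ v, (s : Module.End (ZMod 2) V) v = v → v ≠ 0 → q v = f := by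
  obtain ⟨h, h0, hs, hg⟩ := zl_h (zl7_ne B hne) L
  obtain ⟨zβ, zq⟩ := zf_zeta L B
  obtain ⟨f, hf⟩ : ∃ f, f = q h := ⟨_, rfl⟩
  obtain ⟨z, hz⟩ : ∃ z, z = (ζ : Module.End (ZMod 2) V) h := ⟨_, rfl⟩
  have hqz : q z = f := by rw [hz, zq, hf]
  have hqz2 : q (h + z) = f := by rw [hz, ← zl7_z2 L h, zq, zq, hf]
  have hβ1 : β h z = f := by
    have h1 := B.qa h z
    rw [hqz2, hqz, ← hf, B.two, zero_add] at h1
    exact h1.symm
  have hβ2 : β z h = f := by rw [B.βs, hβ1]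
  have hfix := fun (v : V) (hv : (s : Module.End (ZMod 2) V) v = v) => zl7_fix L h0 hs hg hv
  rw [← hz] at hfix
  have hval : ∀ v w, (s : Module.End (ZMod 2) V) v = v → (s : Module.End (ZMod 2) V) w = w →
      β v w = 0 ∨ β v w = f := by
    intro v w hv hw
    rcases hfix v hv with rfl | rfl | rfl | rfl
    · left; exact zl7_l0 B w
    · rcases hfix w hw with rfl | rfl | rfl | rfl
      · left; exact zl7_r0 B _
      · left; exact B.βa _
      · right; exact hβ1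
      · right; rw [B.βr, B.βa, hβ1, zero_add]
    · rcases hfix w hw with rfl | rfl | rfl | rfl
      · left; exact zl7_r0 B _
      · right; exact hβ2
      · left; exact B.βa _
      · right; rw [B.βr, B.βa, hβ2, add_zero]
    · rcases hfix w hw with rfl | rfl | rfl | rfl
      · left; exact zl7_r0 B _
      · right; rw [B.βl, B.βa, hβ2, zero_add]
      · right; rw [B.βl, B.βa, hβ1, add_zero]
      · left; exact B.βa _
  let K₀ : AddSubgroup K :=
    { carrier := {k | k = 0 ∨ k = f}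
      zero_mem' := Or.inl rfl
      add_mem' := by
        rintro a b (rfl | rfl) (rfl | rfl)
        · left; rw [add_zero]
        · right; rw [zero_add]
        · right; rw [add_zero]
        · left; exact B.two _
      neg_mem' := by
        rintro a (rfl | rfl)
        · left; rw [neg_zero]
        · right; exact neg_eq_of_add_eq_zero_left (B.two _) }
  have hall : ∀ v w, β v w = 0 ∨ β v w = f := zf_val L B K₀ hval
  have hf0 : f ≠ 0 := by
    intro h1
    obtain ⟨v, w, hvw⟩ := hne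
    rcases hall v w with h2 | h2
    · exact hvw h2
    · exact hvw (h2.trans h1)
  have ht0 := zl7_t0 B
  refine ⟨f, hf0, ?_, hall, ?_⟩
  · have h1 : θ f = 0 ∨ θ f = f := by
      rw [← hβ1, ← B.βg]
      have h2 := hall ((g : Module.End (ZMod 2) V) h) ((g : Module.End (ZMod 2) V) z)
      rw [← hβ1] at h2
      exact h2
    rcases h1 with h1 | h1
    · exfalso
      apply hf0
      rw [← B.θ4 f, h1, ht0, ht0, ht0]
    · exact h1
  · intro v hv hv0
    rcases hfix v hv with rfl | rfl | rfl | rfl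
    · exact absurd rfl hv0
    · exact hf.symm
    · exact hqz
    · exact hqz2

/-- **`r = 3`: `g ^ 2` is trivial on `C_V(x) / [V, x]`**, `x = g ^ 4`.

Proof. `zl_cent` (`W = ⊤`): `u = v + (y + x y)`, `s v = v`; it is enough to consider `u = v` (`g`, `x`
commute). `h` from `zl_h`: `g h = h + (y + x y)`, so `g ^ 2 h = h + (y' + x y')`; `v = p(ζ) h` (`zl_gen`) and
`g ^ 2`, `x` commute with `ζ` (`L.hg2`), so `g ^ 2 v = v + (p(ζ) y' + x (p(ζ) y'))`. -/
theorem zf_g2 {r : ℕ} {V : Type} [AddCommGroup V] [Module (ZMod 2) V] [Finite V]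
    {s t ζ g : (Module.End (ZMod 2) V)ˣ} (L : ZLinB r s t ζ g) {u : V}
    (hu : ((g : Module.End (ZMod 2) V) ^ 4) u = u) :
    ∃ y, ((g : Module.End (ZMod 2) V) ^ 2) u = u + (y + ((g : Module.End (ZMod 2) V) ^ 4) y) := by
  by_cases hV : ∃ v : V, v ≠ 0
  swap
  · push Not at hV
    exact ⟨0, by rw [hV u]; simp⟩
  obtain ⟨h, h0, hs, hg⟩ := zl_h hV L
  obtain ⟨v, -, y, -, hv, huv⟩ := zl_cent L ⊤ (fun _ _ => Submodule.mem_top) (fun _ _ => Submodule.mem_top)
    (Submodule.mem_top (x := u)) hu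
  obtain ⟨p, hp⟩ := zl_gen L h0 hs hg v hv
  obtain ⟨y1, hy1⟩ := hg
  obtain ⟨G, hG⟩ : ∃ G : Module.End (ZMod 2) V, G = (g : Module.End (ZMod 2) V) := ⟨_, rfl⟩
  obtain ⟨P, hP⟩ : ∃ P : Module.End (ZMod 2) V, P = Polynomial.aeval (ζ : Module.End (ZMod 2) V) p := ⟨_, rfl⟩
  have hc0 : Commute (G ^ 2) (ζ : Module.End (ZMod 2) V) := by
    have h1 := congrArg (fun w : (Module.End (ZMod 2) V)ˣ => (w : Module.End (ZMod 2) V)) L.hg2
    simp only [Units.val_mul, Units.val_pow_eq_pow_val] at h1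
    rw [hG]
    exact h1
  have hcP : Commute (G ^ 2) P := by
    rw [hP]
    exact Polynomial.induction_on' (motive := fun p => Commute (G ^ 2)
      (Polynomial.aeval (ζ : Module.End (ZMod 2) V) p)) p
      (fun p q hp hq => by rw [map_add]; exact hp.add_right hq)
      (fun n a => by
        rw [Polynomial.aeval_monomial]
        have h1 : Commute (G ^ 2) (algebraMap (ZMod 2) (Module.End (ZMod 2) V) a) :=
          (Algebra.commutes a (G ^ 2)).symm
        exact h1.mul_right (hc0.pow_right n))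
  have hc4 : Commute (G ^ 4) P := by
    have h1 : G ^ 4 = G ^ 2 * G ^ 2 := by rw [← pow_add]
    rw [h1]
    exact hcP.mul_left hcP
  rw [← hG] at hy1 huv ⊢
  rw [← hP] at hp
  have e1 : ∀ w, (G ^ 2) (P w) = P ((G ^ 2) w) := fun w => by
    rw [← Module.End.mul_apply, ← Module.End.mul_apply, hcP.eq]
  have e2 : ∀ w, (G ^ 4) (P w) = P ((G ^ 4) w) := fun w => by
    rw [← Module.End.mul_apply, ← Module.End.mul_apply, hc4.eq]
  have e3 : ∀ w, (G ^ 4) (G w) = G ((G ^ 4) w) := fun w => by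
    rw [← Module.End.mul_apply, ← Module.End.mul_apply, ← pow_succ, ← pow_succ']
  have e4 : ∀ w, (G ^ 4) ((G ^ 2) w) = (G ^ 2) ((G ^ 4) w) := fun w => by
    rw [← Module.End.mul_apply, ← Module.End.mul_apply, ← pow_add, ← pow_add]
  have e5 : ∀ w, (G ^ 2) w = G (G w) := fun w => by rw [pow_two, Module.End.mul_apply]
  have h2 : (G ^ 2) h = h + ((y1 + G y1) + (G ^ 4) (y1 + G y1)) := by
    rw [e5, hy1, map_add, map_add, hy1, map_add, e3]
    abel
  refine ⟨P (y1 + G y1) + (G ^ 2) y - y, ?_⟩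
  have h3 : (G ^ 2) v = v + (P (y1 + G y1) + (G ^ 4) (P (y1 + G y1))) := by
    rw [← hp, e1, h2, map_add P, map_add P, e2]
  rw [huv, map_add, map_add, h3, map_sub, map_add (G ^ 4), e4]
  abel

/-- **`r = 3`: the vectors `u₀`, `v'`.**

Proof. Let `N = g - 1`, `x = g ^ 4`, `N ^ 4 = x - 1`, `N ^ 7 = 0` (`L.hN`). `f` from `zf_3`.
(1) `N ^ 4 ≠ 0`: otherwise `x = 1`, `s = s⁻¹` (`L.hxs`), `s = 1` (`s ^ 3 = 1`), `t = 1`, `ζ = 1` and `V = 0` by
`L.hfix`, contradiction to `hne`. So there is `u₀` with `N ^ 4 u₀ = 0`, `N ^ 3 u₀ ≠ 0` (`u₀ = N ^ k v` with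
`k` such that `N ^ (k + 3) v ≠ 0`, `N ^ (k + 4) v = 0`, where `N ^ 4 v ≠ 0`). `x u₀ = u₀`; by `zl_cent` `u₀ = v₀ + (y + x y)`,
`s v₀ = v₀`; `v₀ ≠ 0`, as otherwise `N ^ 3 u₀ = N ^ 7 y = 0`. `q u₀ = q v₀ + q (y + x y) + β v₀ (y + x y) = f`
(`zf_3`, `zf_x`, `zl_x1`).
(2) `{v | ∀ w, β v w = 0}` is a submodule invariant under `s`, `t`, `g` (`β (g v) w = θ (β v (g⁻¹ w)) = 0`),
so by `L.irr` (and `hne`) it is `⊥`. The values of `β` are fixed by `θ` (`0` and `f`), so
`β (g v) (g w) = β v w`, `β (g v) w = β v (g⁻¹ w)` and `β ((1 + g + g ^ 2 + g ^ 3) v) u₀ =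
β v ((1 + g⁻¹ + g⁻¹ ^ 2 + g⁻¹ ^ 3) u₀)`; here `1 + g⁻¹ + g⁻¹ ^ 2 + g⁻¹ ^ 3 = g⁻¹ ^ 3 * (1 + g + g ^ 2 + g ^ 3)
= g⁻¹ ^ 3 * N ^ 3` (characteristic 2) does not annihilate `u₀`, so there is `v'` with value `≠ 0`, i.e.
`f`. -/
theorem zf_uv {V : Type} [AddCommGroup V] [Module (ZMod 2) V] [Finite V]
    {s t ζ g : (Module.End (ZMod 2) V)ˣ} (L : ZLinB 3 s t ζ g) {K : Type} [AddCommGroup K]
    {θ : K → K} {q : V → K} {β : V → V → K} (B : ZFormB s t g θ q β) (hne : ∃ v w, β v w ≠ 0) :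
    ∃ (f : K) (u₀ v' : V), f ≠ 0 ∧ θ f = f ∧ ((g : Module.End (ZMod 2) V) ^ 4) u₀ = u₀ ∧ q u₀ = f ∧
      β (v' + (g : Module.End (ZMod 2) V) v' + ((g : Module.End (ZMod 2) V) ^ 2) v' +
        ((g : Module.End (ZMod 2) V) ^ 3) v') u₀ = f := by
  obtain ⟨f, hf0, hθ, hall, hq⟩ := zf_3 L B hne
  obtain ⟨x1, x2, x3⟩ := zf_x L B
  have ht0 := zl7_t0 B
  obtain ⟨G, hG⟩ : ∃ G : Module.End (ZMod 2) V, G = (g : Module.End (ZMod 2) V) := ⟨_, rfl⟩
  have two : ∀ A : Module.End (ZMod 2) V, A + A = 0 := fun A => by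
    ext v
    exact zl7_two _
  have hN2 : (G - 1) ^ 2 = G ^ 2 - 1 := by
    have h1 : (G - 1) ^ 2 = G ^ 2 - (G + G) + 1 := by noncomm_ring
    rw [h1, two, sub_zero, sub_eq_add_neg, neg_eq_of_add_eq_zero_left (two 1)]
  have hN4 : (G - 1) ^ 4 = G ^ 4 - 1 := by
    have h1 : (G - 1) ^ 4 = (G ^ 2 - 1) ^ 2 := by rw [← hN2, ← pow_mul]
    have h2 : (G ^ 2 - 1) ^ 2 = G ^ 4 - (G ^ 2 + G ^ 2) + 1 := by noncomm_ring
    rw [h1, h2, two, sub_zero, sub_eq_add_neg, neg_eq_of_add_eq_zero_left (two 1)]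
  have hN3 : (G - 1) ^ 3 = 1 + G + G ^ 2 + G ^ 3 := by
    have h1 : (G - 1) ^ 3 = (1 + G + G ^ 2 + G ^ 3) + ((G + G) - (1 + 1) - (G ^ 2 + G ^ 2) - (G ^ 2 + G ^ 2)) := by
      noncomm_ring
    rw [h1, two, two, two]
    abel
  have hN7 : (G - 1) ^ 7 = 0 := by rw [hG]; exact L.hN
  -- (1)
  have hN40 : ∃ v₁ : V, ((G - 1 : Module.End (ZMod 2) V) ^ 4) v₁ ≠ 0 := by
    by_contra hcon
    push Not at hcon
    have h1 : G ^ 4 = 1 := by
      ext v
      have h2 := hcon v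
      rw [hN4, LinearMap.sub_apply, sub_eq_zero] at h2
      exact h2
    have h2 : g ^ 4 = 1 := by
      apply Units.ext
      rw [Units.val_pow_eq_pow_val, ← hG, h1]
      rfl
    have h3 := L.hxs
    rw [h2, one_mul, inv_one, mul_one] at h3
    have h4 : s = 1 := by
      have h5 := L.hs
      have h6 : s * s = 1 := by
        nth_rw 1 [h3]
        exact inv_mul_cancel s
      rw [pow_succ, pow_two, h6, one_mul] at h5
      exact h5
    have h5 : t = 1 := by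
      rw [← L.hgs, h4]
      group
    have h6 : ζ = 1 := by
      have h7 := L.hst
      rw [h4, h5] at h7
      simpa using h7.symm
    obtain ⟨v, hv⟩ := zl7_ne B hne
    exact hv (L.hfix v (by rw [h6]; rfl))
  obtain ⟨v₁, hv₁⟩ := hN40
  have hex : ∃ k : ℕ, ((G - 1 : Module.End (ZMod 2) V) ^ (k + 4)) v₁ = 0 := ⟨3, by rw [hN7]; rfl⟩
  classical
  obtain ⟨k, hk, hkm⟩ : ∃ k : ℕ, ((G - 1 : Module.End (ZMod 2) V) ^ (k + 4)) v₁ = 0 ∧
      ∀ j < k, ((G - 1 : Module.End (ZMod 2) V) ^ (j + 4)) v₁ ≠ 0 :=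
    ⟨Nat.find hex, Nat.find_spec hex, fun j hj => Nat.find_min hex hj⟩
  obtain ⟨l, rfl⟩ : ∃ l, k = l + 1 := by
    rcases k with _ | l
    · exact absurd hk hv₁
    · exact ⟨l, rfl⟩
  have hl := hkm l (Nat.lt_succ_self l)
  obtain ⟨u₀, hu₀⟩ : ∃ u₀ : V, u₀ = ((G - 1 : Module.End (ZMod 2) V) ^ (l + 1)) v₁ := ⟨_, rfl⟩
  have hu4 : ((G - 1 : Module.End (ZMod 2) V) ^ 4) u₀ = 0 := by
    rw [hu₀, ← Module.End.mul_apply, ← pow_add, show 4 + (l + 1) = l + 1 + 4 by ring]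
    exact hk
  have hu3 : ((G - 1 : Module.End (ZMod 2) V) ^ 3) u₀ ≠ 0 := by
    rw [hu₀, ← Module.End.mul_apply, ← pow_add, show 3 + (l + 1) = l + 4 by ring]
    exact hl
  have hxu : (G ^ 4) u₀ = u₀ := by
    rw [hN4, LinearMap.sub_apply, sub_eq_zero] at hu4
    exact hu4
  have hxu' : ((g : Module.End (ZMod 2) V) ^ 4) u₀ = u₀ := by rw [← hG]; exact hxu
  obtain ⟨v₀, -, y, -, hv, huv⟩ := zl_cent L ⊤ (fun _ _ => Submodule.mem_top) (fun _ _ => Submodule.mem_top)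
    (Submodule.mem_top (x := u₀)) hxu'
  have hv0 : v₀ ≠ 0 := by
    intro h0
    apply hu3
    rw [h0, zero_add, ← hG] at huv
    have h1 : u₀ = ((G - 1 : Module.End (ZMod 2) V) ^ 4) y := by
      rw [huv, hN4, LinearMap.sub_apply, Module.End.one_apply, sub_eq_add_neg,
        neg_eq_of_add_eq_zero_left (zl7_two y), add_comm]
    rw [h1, ← Module.End.mul_apply, ← pow_add, hN7]
    rfl
  have hqu : q u₀ = f := by
    rw [huv, B.qa, x2, x3 v₀ (zl_x1 L hv), hq v₀ hv hv0, add_zero, add_zero]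
  -- (2)
  have hs' : ∀ v w, β ((s : Module.End (ZMod 2) V) v) w =
      β v (((s⁻¹ : (Module.End (ZMod 2) V)ˣ) : Module.End (ZMod 2) V) w) := fun v w => by
    rw [← B.βS v, zl7_inv]
  have htt : ∀ v w, β ((t : Module.End (ZMod 2) V) v) w =
      β v (((t⁻¹ : (Module.End (ZMod 2) V)ˣ) : Module.End (ZMod 2) V) w) := fun v w => by
    rw [← B.βT v, zl7_inv]
  have hgg : ∀ v w, β ((g : Module.End (ZMod 2) V) v) w =
      β v (((g⁻¹ : (Module.End (ZMod 2) V)ˣ) : Module.End (ZMod 2) V) w) := fun v w => by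
    have h1 := B.βg v (((g⁻¹ : (Module.End (ZMod 2) V)ˣ) : Module.End (ZMod 2) V) w)
    rw [zl7_inv] at h1
    rw [h1]
    rcases hall v (((g⁻¹ : (Module.End (ZMod 2) V)ˣ) : Module.End (ZMod 2) V) w) with h2 | h2
    · rw [h2, ht0]
    · rw [h2, hθ]
  let W : Submodule (ZMod 2) V :=
    { carrier := {v | ∀ w, β v w = 0}
      zero_mem' := fun w => zl7_l0 B w
      add_mem' := fun {a b} ha hb w => by rw [B.βl, ha w, hb w, add_zero]
      smul_mem' := fun c v hv w => by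
        rcases zl7_zm c with rfl | rfl
        · rw [zero_smul]; exact zl7_l0 B w
        · rw [one_smul]; exact hv w }
  have hW : W = ⊥ := by
    rcases L.irr W (fun v hv w => by rw [hs']; exact hv _) (fun v hv w => by rw [htt]; exact hv _)
      (fun v hv w => by rw [hgg]; exact hv _) with h1 | h1
    · exact h1
    · exfalso
      obtain ⟨v, w, hvw⟩ := hne
      have h2 : v ∈ W := by rw [h1]; exact Submodule.mem_top
      exact hvw (h2 w)
  obtain ⟨I, hI⟩ : ∃ I : Module.End (ZMod 2) V, I = ((g⁻¹ : (Module.End (ZMod 2) V)ˣ) : Module.End (ZMod 2) V) :=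
    ⟨_, rfl⟩
  have hIG : ∀ v, I (G v) = v := fun v => by rw [hI, hG]; exact zl7_inv' g v
  have hGI : ∀ v, G (I v) = v := fun v => by rw [hI, hG]; exact zl7_inv g v
  have hβI : ∀ v w, β (G v) w = β v (I w) := fun v w => by rw [hI, hG]; exact hgg v w
  obtain ⟨w₀, hw₀⟩ : ∃ w₀ : V, w₀ = I (I (I (((G - 1 : Module.End (ZMod 2) V) ^ 3) u₀))) := ⟨_, rfl⟩
  have hw0 : w₀ ≠ 0 := by
    intro h1
    apply hu3
    rw [← hGI (((G - 1 : Module.End (ZMod 2) V) ^ 3) u₀),
      ← hGI (I (((G - 1 : Module.End (ZMod 2) V) ^ 3) u₀)),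
      ← hGI (I (I (((G - 1 : Module.End (ZMod 2) V) ^ 3) u₀))), ← hw₀, h1,
      map_zero, map_zero, map_zero]
  have hex2 : ∃ v', β v' w₀ ≠ 0 := by
    by_contra hcon
    push Not at hcon
    have h1 : w₀ ∈ W := fun w => by rw [B.βs]; exact hcon w
    rw [hW] at h1
    exact hw0 ((Submodule.mem_bot _).1 h1)
  obtain ⟨v', hv'⟩ := hex2
  have hv'f : β v' w₀ = f := (hall v' w₀).resolve_left hv'
  have hw₀' : w₀ = u₀ + I u₀ + I (I u₀) + I (I (I u₀)) := by
    rw [hw₀, hN3]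
    simp only [LinearMap.add_apply, Module.End.one_apply, pow_succ, pow_zero, one_mul,
      Module.End.mul_apply, map_add, hIG]
    abel
  refine ⟨f, u₀, v', hf0, hθ, hxu', hqu, ?_⟩
  rw [← hG, ← hv'f, hw₀', B.βl, B.βl, B.βl, B.βr, B.βr, B.βr, hβI]
  have e2 : (G ^ 2) v' = G (G v') := by rw [pow_two, Module.End.mul_apply]
  have e3 : (G ^ 3) v' = G (G (G v')) := by
    rw [pow_succ, pow_two, Module.End.mul_apply, Module.End.mul_apply]
  rw [e2, e3, hβI, hβI, hβI, hβI, hβI]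

end Pool.Agent.Lib.MP_544bd1_al
end

section

/-!
Theorem Z3, Case B: elements over `C_V(g ^ 4)` commute with `g ^ 4`.
-/

namespace Pool.Agent.Lib.MP_544bd1_al

open Subgroup

/-- **The homomorphism `κ`.** Let `x = g ^ 4` centralize the elements of `Q` in the kernel of `φ`.

Proof. For `p ∈ Q` with `τ x (φ p) = φ p` let `k p = x * p * x⁻¹ * p⁻¹ ∈ Q`; `φ (k p) = 0`, so `k p` commutes
with `Q`, `R` (`M.ker`) and `x` (`hx`). `k (p * p') = x * p * x⁻¹ * (x * p' * x⁻¹ * p'⁻¹) * p⁻¹ = k p * k p'`.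
If `φ p = φ p'` then `p' = p * c`, `φ c = 0`, `k p' = k p` (`x`, `c` commute). By `zb_lift'` (`f := τ.toHomUnits`;
`τ (x * ζ₀) = τ (ζ₀ * x)` by `S.hg2`, used twice) there is `ζ ∈ R` with `τ ζ = τ ζ₀`, `ζ₀` the commutator of
`S.hζ`, `x * ζ = ζ * x`. `k (ζ * p * ζ⁻¹) = ζ * k p * ζ⁻¹ = k p`, so `k ((ζ * p * ζ⁻¹) * p⁻¹) = 1` (note
`k (p⁻¹) = (k p)⁻¹`). Let `C = {v | τ x v = v}`, a finite submodule, invariant under `τ ζ`; `v ↦ τ ζ v - v`
is injective on `C` (`zb_fix`), so surjective: for `p` as above `φ p = τ ζ v - v`, `v ∈ C`, `v = φ p₁`, and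
`φ p = φ ((ζ * p₁ * ζ⁻¹) * p₁⁻¹)`: `k p = 1`. -/
theorem zt_kap {F : Type} [Group F] [Finite F] {r : ℕ} (hr : r.Prime) (hr2 : r ≠ 2)
    {Q R : Subgroup F} [Q.Normal] {g s : F} (D : ZMinB r Q R g) {V : Type} [AddCommGroup V]
    [Module (ZMod 2) V] [Finite V] {τ : F →* Module.End (ZMod 2) V} {φ : Q → V}
    (M : ZMd Q R τ φ) (S : ZRb r R g s τ)
    (hx : ∀ q : Q, φ q = 0 → g ^ 4 * (q : F) = q * g ^ 4) :
    ∀ p : Q, τ (g ^ 4) (φ p) = φ p → g ^ 4 * (p : F) = p * g ^ 4 := by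
  classical
  have hQn : Q.Normal := inferInstance
  set x : F := g ^ 4 with hxdef
  obtain ⟨ζ₀, hζ₀⟩ : ∃ ζ₀, ζ₀ = s * (g * s * g⁻¹) * s⁻¹ * (g * s * g⁻¹)⁻¹ := ⟨_, rfl⟩
  have hζ₀R : ζ₀ ∈ R := by
    rw [hζ₀]
    have h1 := D.core.hxR s S.hs
    exact R.mul_mem (R.mul_mem (R.mul_mem S.hs h1) (R.inv_mem S.hs)) (R.inv_mem h1)
  have hg2 : τ (g ^ 2 * ζ₀) = τ (ζ₀ * g ^ 2) := by
    rw [hζ₀]
    exact S.hg2
  have hfix : ∀ v : V, τ ζ₀ v = v → v = 0 := by
    rw [hζ₀]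
    exact (zb_fix hr hr2 D M S).2
  have hg4 : τ (g ^ 4 * ζ₀) = τ (ζ₀ * g ^ 4) := by
    calc τ (g ^ 4 * ζ₀) = τ (g ^ 2) * τ (g ^ 2 * ζ₀) := by
          rw [← map_mul, ← mul_assoc, ← pow_add]
      _ = τ (g ^ 2) * τ (ζ₀ * g ^ 2) := by rw [hg2]
      _ = τ (g ^ 2 * ζ₀) * τ (g ^ 2) := by rw [← map_mul, ← map_mul, mul_assoc]
      _ = τ (ζ₀ * g ^ 2) * τ (g ^ 2) := by rw [hg2]
      _ = τ (ζ₀ * g ^ 4) := by rw [← map_mul, mul_assoc, ← pow_add]
  have hlift : τ.toHomUnits (g ^ 4 * ζ₀) = τ.toHomUnits (ζ₀ * g ^ 4) := by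
    apply Units.ext
    exact hg4
  obtain ⟨ζ, hζR, hζ, hζx⟩ := zb_lift' hr hr2 D τ.toHomUnits hζ₀R hlift
  have hτζ : τ ζ = τ ζ₀ := congrArg Units.val hζ
  have hxζ : x * ζ = ζ * x := hζx
  -- surjectivity
  let f : {v : V // τ x v = v} → {v : V // τ x v = v} := fun v => ⟨τ ζ v - v, by
    have h1 : τ x (τ ζ v) = τ ζ (τ x v) := by
      have h2 : τ x * τ ζ = τ ζ * τ x := by rw [← map_mul, hxζ, map_mul]
      exact congrArg (fun T : Module.End (ZMod 2) V => T v) h2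
    rw [map_sub, h1, v.2]⟩
  have hfinj : Function.Injective f := by
    intro a b hab
    have h1 : τ ζ (a : V) - a = τ ζ (b : V) - b := congrArg Subtype.val hab
    have h2 : τ ζ₀ ((a : V) - b) = a - b := by
      rw [← hτζ, map_sub, sub_eq_sub_iff_sub_eq_sub]
      exact h1
    have h3 := hfix _ h2
    exact Subtype.ext (sub_eq_zero.1 h3)
  have hfsurj : Function.Surjective f := Finite.surjective_of_injective hfinj
  have φ1 : φ 1 = 0 := by
    have h1 := M.add 1 1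
    rw [mul_one] at h1
    exact left_eq_add.1 h1
  have φinv : ∀ a : Q, φ a⁻¹ = - φ a := by
    intro a
    have h1 := M.add a a⁻¹
    rw [mul_inv_cancel, φ1] at h1
    exact (neg_eq_of_add_eq_zero_right h1.symm).symm
  intro p hp
  obtain ⟨⟨v, hv⟩, hvp⟩ := hfsurj ⟨φ p, hp⟩
  have hvp' : τ ζ v - v = φ p := congrArg Subtype.val hvp
  obtain ⟨p₁, rfl⟩ := M.surj v
  -- `k = x * p₁ * x⁻¹ * p₁⁻¹`
  let c₁ : Q := ⟨x * p₁ * x⁻¹, hQn.conj_mem _ p₁.2 x⟩
  let k : Q := c₁ * p₁⁻¹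
  have hk : φ k = 0 := by
    show φ (c₁ * p₁⁻¹) = 0
    rw [M.add, φinv]
    show φ ⟨x * p₁ * x⁻¹, hQn.conj_mem _ p₁.2 x⟩ + -φ p₁ = 0
    rw [M.eqv, hv, add_neg_cancel]
  have hkR := (M.ker k hk).1
  have hkQ := (M.ker k hk).2
  let p₂ : Q := ⟨ζ * p₁ * ζ⁻¹, hQn.conj_mem _ p₁.2 ζ⟩ * p₁⁻¹
  have hp₂ : φ p₂ = φ p := by
    show φ (⟨ζ * p₁ * ζ⁻¹, hQn.conj_mem _ p₁.2 ζ⟩ * p₁⁻¹) = φ p
    rw [M.add, φinv, M.eqv, ← hvp', sub_eq_add_neg]
  have hxp₁ : x * (p₁ : F) * x⁻¹ = k * p₁ := by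
    show x * (p₁ : F) * x⁻¹ = (x * p₁ * x⁻¹ * (p₁ : F)⁻¹) * p₁
    group
  have hxp₂ : x * (p₂ : F) * x⁻¹ = p₂ := by
    have e1 : x * (p₂ : F) * x⁻¹ = (ζ * (x * p₁ * x⁻¹) * ζ⁻¹) * (x * p₁ * x⁻¹)⁻¹ := by
      show x * (ζ * p₁ * ζ⁻¹ * (p₁ : F)⁻¹) * x⁻¹ = _
      have e2 : ζ⁻¹ * x⁻¹ = x⁻¹ * ζ⁻¹ := by rw [← mul_inv_rev, ← mul_inv_rev, hxζ]
      calc x * (ζ * p₁ * ζ⁻¹ * (p₁ : F)⁻¹) * x⁻¹
          = (x * ζ) * p₁ * (ζ⁻¹ * x⁻¹) * (x * (p₁ : F)⁻¹ * x⁻¹) := by group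
        _ = (ζ * x) * p₁ * (x⁻¹ * ζ⁻¹) * (x * (p₁ : F)⁻¹ * x⁻¹) := by rw [hxζ, e2]
        _ = _ := by group
    rw [e1, hxp₁]
    have e3 : ζ * (k : F) = k * ζ := hkR ζ hζR
    have e4 : (k : F) * p₂ = p₂ * k := hkQ p₂ p₂.2
    calc ζ * ((k : F) * p₁) * ζ⁻¹ * ((k : F) * p₁)⁻¹
        = (ζ * (k : F)) * p₁ * ζ⁻¹ * (p₁ : F)⁻¹ * (k : F)⁻¹ := by group
      _ = (k : F) * (ζ * p₁ * ζ⁻¹ * (p₁ : F)⁻¹) * (k : F)⁻¹ := by rw [e3]; group
      _ = (k : F) * p₂ * (k : F)⁻¹ := rfl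
      _ = p₂ := by rw [e4]; group
  have hc : φ (p₂⁻¹ * p) = 0 := by
    rw [M.add, φinv, hp₂, neg_add_cancel]
  have hxc := hx _ hc
  have hpc : (p : F) = p₂ * ((p₂⁻¹ * p : Q) : F) := by
    show (p : F) = p₂ * ((p₂ : F)⁻¹ * p)
    group
  rw [hpc]
  have hxp₂' : x * (p₂ : F) = p₂ * x := by
    calc x * (p₂ : F) = (x * p₂ * x⁻¹) * x := by group
      _ = p₂ * x := by rw [hxp₂]
  calc x * ((p₂ : F) * ((p₂⁻¹ * p : Q) : F)) = (x * p₂) * ((p₂⁻¹ * p : Q) : F) := by rw [mul_assoc]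
    _ = (p₂ : F) * (x * ((p₂⁻¹ * p : Q) : F)) := by rw [hxp₂', mul_assoc]
    _ = (p₂ : F) * (((p₂⁻¹ * p : Q) : F) * x) := by rw [hxc]
    _ = (p₂ : F) * ((p₂⁻¹ * p : Q) : F) * x := by rw [mul_assoc]

end Pool.Agent.Lib.MP_544bd1_al
end

section

/-!
Theorem Z3, Case B: `P` nonabelian, `g ^ 4` trivial on `P'` (4.3).
-/

namespace Pool.Agent.Lib.MP_544bd1_al

open Subgroup

theorem zb_tauQ {F : Type} [Group F] {Q R : Subgroup F} [hQn : Q.Normal] {V : Type}
    [AddCommGroup V] [Module (ZMod 2) V] {τ : F →* Module.End (ZMod 2) V} {φ : Q → V}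
    (M : ZMd Q R τ φ) {p : F} (hp : p ∈ Q) : τ p = 1 := by
  apply LinearMap.ext
  intro v
  obtain ⟨y, rfl⟩ := M.surj v
  have h1 := M.eqv p y
  rw [← h1, Module.End.one_apply]
  have h2 : φ (⟨p, hp⟩ * y) = φ (⟨p * y * p⁻¹, hQn.conj_mem _ y.2 p⟩ * ⟨p, hp⟩) := by
    congr 1
    apply Subtype.ext
    simp
  rw [M.add, M.add, add_comm] at h2
  exact (add_right_cancel h2).symm

theorem zt_formB {F : Type} [Group F] {r : ℕ} {Q R : Subgroup F} [Q.Normal] {g s : F}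
    (D : ZMinB r Q R g) {V : Type} [AddCommGroup V] [Module (ZMod 2) V]
    {τ : F →* Module.End (ZMod 2) V} {φ : Q → V} (S : ZRb r R g s τ) {K : Type} [AddCommGroup K]
    {ι : K → F} {θ : F → K → K} {q : V → K} {β : V → V → K} (Z : ZQuad Q R τ φ ι θ q β)
    (hx : ∀ c ∈ ⁅Q, Q⁆, g ^ 4 * c = c * g ^ 4) :
    ZFormB (τ.toHomUnits s) (τ.toHomUnits (g * s * g⁻¹)) (τ.toHomUnits g) (θ g) q β := by
  have ht : g * s * g⁻¹ ∈ R := D.core.hxR s S.hs
  refine ⟨Z.two, Z.βl, Z.βr, Z.βs, Z.βa, Z.qa, ?_, ?_, ?_, ?_, ?_, ?_, Z.θadd g, ?_⟩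
  · intro v w
    rw [MonoidHom.coe_toHomUnits, Z.βθ, Z.θR s S.hs]
  · intro v w
    rw [MonoidHom.coe_toHomUnits, Z.βθ, Z.θR _ ht]
  · intro v
    rw [MonoidHom.coe_toHomUnits, Z.qθ, Z.θR s S.hs]
  · intro v
    rw [MonoidHom.coe_toHomUnits, Z.qθ, Z.θR _ ht]
  · intro v w
    rw [MonoidHom.coe_toHomUnits, Z.βθ]
  · intro v
    rw [MonoidHom.coe_toHomUnits, Z.qθ]
  · intro k
    rw [← Z.θmul, ← Z.θmul, ← Z.θmul]
    have h2 : g * g * g * g = g ^ 4 := by
      rw [pow_succ, pow_succ, pow_succ, pow_one]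
    rw [h2]
    apply Z.inj
    rw [Z.ιθ, hx _ (Z.ιQ k), mul_inv_cancel_right]

/-- **(4.3)** -/
theorem zt_B4 {m : ℕ} (hm : Odd m) {F : Type} [Group F] [Finite F]
    (hexp : ∀ x : F, x ^ (m * 2 ^ 3) = 1) {r : ℕ} (hr : r = 3 ∨ r = 7) {Q R : Subgroup F}
    [hQn : Q.Normal] {g s : F} (D : ZMinB r Q R g) {V : Type} [AddCommGroup V]
    [Module (ZMod 2) V] [Finite V] {τ : F →* Module.End (ZMod 2) V} {φ : Q → V}
    (M : ZMd Q R τ φ) (S : ZRb r R g s τ) {K : Type} [AddCommGroup K]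
    {ι : K → F} {θ : F → K → K} {q : V → K} {β : V → V → K} (Z : ZQuad Q R τ φ ι θ q β)
    (hx : ∀ c ∈ ⁅Q, Q⁆, g ^ 4 * c = c * g ^ 4) (hne : ∃ v w, β v w ≠ 0) :
    ∃ g' u w : F, ZBc g' u w := by
  have hrp : r.Prime := by rcases hr with rfl | rfl <;> norm_num
  have hr2 : r ≠ 2 := by rcases hr with rfl | rfl <;> norm_num
  have L := zt_linB hm hexp hr D M S
  have B := zt_formB D S Z hx
  rcases hr with rfl | rfl
  swap
  · obtain ⟨v, w, h⟩ := hne
    exact absurd (zf_beta7 L B v w) h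
  obtain ⟨f, u₀, v', hf0, hθf, hu₀, hqu, hβu⟩ := zf_uv L B hne
  obtain ⟨y, hy⟩ := zf_g2 L hu₀
  obtain ⟨-, hqx, -⟩ := zf_x L B
  obtain ⟨u, rfl⟩ := M.surj u₀
  obtain ⟨p, rfl⟩ := M.surj v'
  simp only [MonoidHom.coe_toHomUnits, ← map_pow] at hu₀ hβu hy hqx
  -- general facts
  have hτmul : ∀ (a b : F) (v : V), τ (a * b) v = τ a (τ b v) := by
    intro a b v
    rw [map_mul]
    rfl
  have hV2 : ∀ v : V, v + v = 0 := fun v => ZModModule.add_self v
  have hφ1 : φ 1 = 0 := by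
    have h1 := M.add 1 1
    rw [mul_one] at h1
    exact left_eq_add.1 h1
  have hφi : ∀ a : Q, φ a⁻¹ = φ a := by
    intro a
    have h1 := M.add a a⁻¹
    rw [mul_inv_cancel, hφ1] at h1
    have h2 := hV2 (φ a)
    rw [← h2] at h1
    exact (add_left_cancel h1).symm
  have hcj : ∀ (c : F) (a : Q), φ ⟨c⁻¹ * a * c, by
      have := hQn.conj_mem _ a.2 c⁻¹
      rwa [inv_inv] at this⟩ = τ c⁻¹ (φ a) := by
    intro c a
    rw [← M.eqv]
    congr 1
    apply Subtype.ext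
    simp
  have ux : g ^ 4 * (u : F) = u * g ^ 4 := by
    refine zt_kap hrp hr2 D M S ?_ u hu₀
    intro c hc
    obtain ⟨-, irr2, -, -⟩ := zt_irr hrp hr2 D.core M
    exact hx _ (irr2 c hc).1
  have hfx : g ^ 4 * ι f = ι f * g ^ 4 := hx _ (Z.ιQ f)
  have hfg : g * ι f = ι f * g := by
    have h1 := Z.ιθ g f
    rw [hθf] at h1
    nth_rewrite 2 [h1]
    group
  have hfQ : ∀ y ∈ Q, y * ι f = ι f * y := fun y hy => Z.ιc f y hy
  have hι0 : ι 0 = 1 := by
    have h1 := Z.ιadd 0 0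
    rw [add_zero] at h1
    exact left_eq_mul.1 h1
  have hu2 : (u : F) ^ 2 = ι f := by rw [← Z.hq, hqu]
  have hff : ι f * ι f = 1 := by rw [← Z.ιadd, Z.two, hι0]
  have hτp : τ (p : F) = 1 := zb_tauQ M p.2
  -- the element `k`
  let k : Q := p * ⟨g * p * g⁻¹, hQn.conj_mem _ p.2 g⟩ *
    ⟨g ^ 2 * p * (g ^ 2)⁻¹, hQn.conj_mem _ p.2 _⟩ * ⟨g ^ 3 * p * (g ^ 3)⁻¹, hQn.conj_mem _ p.2 _⟩
  have hk : ((p : F) * g) ^ 4 = k * g ^ 4 := by
    show ((p : F) * g) ^ 4 = (p : F) * (g * p * g⁻¹) * (g ^ 2 * p * (g ^ 2)⁻¹) *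
      (g ^ 3 * p * (g ^ 3)⁻¹) * g ^ 4
    rw [show ((p : F) * g) ^ 4 = (p : F) * g * (p * g) * (p * g) * (p * g) by
      rw [pow_succ, pow_succ, pow_succ, pow_one]]
    group
  have hφk : φ k = φ p + τ g (φ p) + τ (g ^ 2) (φ p) + τ (g ^ 3) (φ p) := by
    show φ (p * _ * _ * _) = _
    rw [M.add, M.add, M.add, M.eqv, M.eqv, M.eqv]
  have hku : (k : F) * u = ι f * u * k := by
    have h1 := Z.hβ k u
    rw [hφk, hβu] at h1
    rw [h1]
    group
  have hg'8 : ((p : F) * g) ^ 8 = 1 := zb_pow8 hm hexp D p.2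
  have hx' : (u : F)⁻¹ * ((p : F) * g) ^ 4 * u = ((p : F) * g) ^ 4 * (u : F) ^ 2 := by
    rw [hk, hu2]
    calc (u : F)⁻¹ * (k * g ^ 4) * u = (u : F)⁻¹ * k * (g ^ 4 * u) := by group
      _ = (u : F)⁻¹ * (k * u) * g ^ 4 := by rw [ux]; group
      _ = (u : F)⁻¹ * (ι f * u) * k * g ^ 4 := by rw [hku]; group
      _ = ι f * k * g ^ 4 := by rw [← hfQ u u.2]; group
      _ = k * (ι f * g ^ 4) := by rw [← hfQ k k.2]; group
      _ = k * g ^ 4 * ι f := by rw [← hfx]; group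
  -- the image in `[V, x]`
  have hgx : ∀ (i : ℕ) (v : V), τ (g ^ i) (τ (g ^ 4) v) = τ (g ^ 4) (τ (g ^ i) v) := by
    intro i v
    rw [← hτmul, ← hτmul, ← pow_add, ← pow_add, add_comm]
  have hgi : ∀ i : ℕ, ∃ j : ℕ, τ (((p : F) * g) ^ i)⁻¹ = τ (g ^ j) := by
    intro i
    have e1 : (g ^ i)⁻¹ = g ^ (7 * i) := by
      apply inv_eq_of_mul_eq_one_right
      rw [← pow_add, show i + 7 * i = 8 * i by ring, pow_mul, D.hg, one_pow]
    refine ⟨7 * i, ?_⟩
    rw [← e1]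
    have e2 : τ (((p : F) * g) ^ i) = τ (g ^ i) := by
      rw [map_pow, map_mul, hτp, one_mul, ← map_pow]
    have e3 : τ (g ^ i)⁻¹ * τ (((p : F) * g) ^ i) = 1 := by
      rw [e2, ← map_mul, inv_mul_cancel, map_one]
    have e4 : τ (((p : F) * g) ^ i) * τ (((p : F) * g) ^ i)⁻¹ = 1 := by
      rw [← map_mul, mul_inv_cancel, map_one]
    exact (left_inv_eq_right_inv e3 e4).symm
  have hcl : ∀ (i : ℕ) (y : V), ∃ y', τ (((p : F) * g) ^ i)⁻¹ (y + τ (g ^ 4) y) =
      y' + τ (g ^ 4) y' := by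
    intro i y
    obtain ⟨j, hj⟩ := hgi i
    refine ⟨τ (g ^ j) y, ?_⟩
    rw [hj, map_add, hgx]
  have hu2' : ∃ y', φ u + τ (((p : F) * g) ^ 2)⁻¹ (φ u) = y' + τ (g ^ 4) y' := by
    obtain ⟨y', hy'⟩ := hcl 2 y
    refine ⟨y', ?_⟩
    have e1 : τ (((p : F) * g) ^ 2)⁻¹ (τ (g ^ 2) (φ u)) = φ u := by
      have e2 : τ (g ^ 2) = τ (((p : F) * g) ^ 2) := by
        rw [map_pow, map_pow, map_mul, hτp, one_mul]
      rw [e2, ← hτmul, inv_mul_cancel, map_one, Module.End.one_apply]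
    have e3 : φ u = τ (((p : F) * g) ^ 2)⁻¹ (φ u) + (y' + τ (g ^ 4) y') := by
      rw [← hy', ← map_add, ← hy, e1]
    have e4 := congrArg (fun z => z + τ (((p : F) * g) ^ 2)⁻¹ (φ u)) e3
    rw [add_right_comm, hV2, zero_add] at e4
    exact e4
  have hsq : ∀ a : Q, (∃ y', φ a = y' + τ (g ^ 4) y') → (a : F) ^ 2 = 1 := by
    rintro a ⟨y', ha⟩
    rw [← Z.hq, ha, hqx, hι0]
  -- `m₁`, `m₀`
  let m₁ : Q := u⁻¹ * ⟨(((p : F) * g) ^ 2)⁻¹ * u * ((p : F) * g) ^ 2, by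
      have := hQn.conj_mem _ u.2 (((p : F) * g) ^ 2)⁻¹
      rwa [inv_inv] at this⟩
  have hm₁ : ∃ y', φ m₁ = y' + τ (g ^ 4) y' := by
    obtain ⟨y', hy'⟩ := hu2'
    refine ⟨y', ?_⟩
    show φ (_ * _) = _
    rw [M.add, hφi, hcj, hy']
  let m₀ : Q := m₁⁻¹ * ⟨((p : F) * g)⁻¹ * m₁ * ((p : F) * g), by
      have := hQn.conj_mem _ m₁.2 ((p : F) * g)⁻¹
      rwa [inv_inv] at this⟩
  have hm₀ : ∃ y', φ m₀ = y' + τ (g ^ 4) y' := by
    obtain ⟨y', hy'⟩ := hm₁
    obtain ⟨y'', hy''⟩ := hcl 1 y'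
    rw [pow_one] at hy''
    refine ⟨y' + y'', ?_⟩
    show φ (_ * _) = _
    rw [M.add, hφi, hcj, hy', hy'', map_add]
    abel
  obtain ⟨w, hw, hwQ⟩ := zt_W hm hexp hrp hr2 D M S p.2
  refine ⟨(p : F) * g, u, w, hg'8, ?_, ?_, hx', ?_, hsq m₁ hm₁, hsq m₀ hm₀, hw, ?_⟩
  · rw [show 4 = 2 * 2 by norm_num, pow_mul, hu2, pow_two, hff]
  · rw [hu2]
    intro h
    apply hf0
    apply Z.inj
    rw [h, hι0]
  · rw [hu2, mul_assoc, hfg, ← mul_assoc, hfQ p p.2, mul_assoc]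
  · have hle : closure {(p : F) * g, w⁻¹ * ((p : F) * g) * w} ≤
        closure {(p : F) * g, w, (u : F) ^ 2} := by
      rw [closure_le]
      have h1 : (p : F) * g ∈ closure {(p : F) * g, w, (u : F) ^ 2} := subset_closure (by simp)
      have h2 : w ∈ closure {(p : F) * g, w, (u : F) ^ 2} := subset_closure (by simp)
      rintro y (rfl | rfl)
      · exact h1
      · exact mul_mem (mul_mem (inv_mem h2) h1) h2
    exact hle (hwQ u.2)

end Pool.Agent.Lib.MP_544bd1_al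
end
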