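import Mathlib
import Pool.Agent.Lib.MP_544bd1_al.TwU1
import Pool.Agent.Lib.MP_544bd1_al.TwA
import Pool.Agent.Lib.MP_544bd1_al.TwS3
import Pool.Agent.Lib.MP_544bd1_al.TwLZ
import Pool.Agent.Lib.MP_544bd1_al.TwQ

section

/-!
Theorem Z3: (J).
-/

namespace Pool.Agent.Lib.MP_544bd1_al

open Subgroup

/-- **(J)** for exponents `m * 2 ^ a`.

Proof. This is `fr_J` (FrJ.lean), with `4` replaced by `2 ^ a` in the proof (there `fr_J` uses
`fr_detect`-style lemmas for `4 * m`; use `tw_krad_pow`, `tw_krad_quot`, `fr_fitting`, `zt_cop` instead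
of the versions for `4`). -/
theorem zt_J {m a : ℕ} (hm : Odd m) {G : Type} [Group G] (hexp : ∀ x : G, x ^ (m * 2 ^ a) = 1)
    (T : Subgroup G) [Finite T] (hsol : Group.IsSolvable T) {s : G} (hsT : s ∈ T) (hs : s ^ m = 1)
    (h : ¬ InO m T s) :
    ∃ k ∈ T, k ∈ closure {s, k⁻¹ * s * k} ∧ ¬ InO m (closure {s, k⁻¹ * s * k}) s :=
  tw_J (zt_cop hm a) hm.pos (pow_pos two_pos a) hexp T hsol hsT hs h

end Pool.Agent.Lib.MP_544bd1_al
end

section

/-!
Theorem Z3: (AB).
-/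

namespace Pool.Agent.Lib.MP_544bd1_al

open Subgroup

/-- **(AB)**

Proof. (R1): there is `g : G` with `¬ InO m (closure {s, g}) s`: otherwise the elements `s` with
`∀ g, InO m (closure {s, g}) s` generate a normal subgroup of exponent `m` (see `FrHyp.R1` in
FrR.lean: with `hno : NoN m G`; `InO.mul_odd`-like computation; copy the argument). Let
`T = closure {x * s, g}` (finite, solvable by `H.h2`): `x`, `s ∈ T` (`tw_coprime_comm`,
`zt_cop hm a`). So `¬ InO m T s` (`InO.mono`). By `zt_AxB` in `T` (use `InO.top_iff`) `s` is not in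
`O_{2'}` of `C = {t ∈ T | x * t = t * x}` (`centralizer {x}` in the group `↥T`, mapped to `G`); apply
`zt_J` to `C`. -/
theorem zt_AB {m a : ℕ} {G : Type} [Group G] (H : TwG (m * 2 ^ a) G) (hm : Odd m) (hno : NoN m G)
    {x s : G} (hx : x ^ (2 ^ a) = 1) (hs : s ^ m = 1) (hs1 : s ≠ 1) (hxs : x * s = s * x) :
    ∃ k : G, x * k = k * x ∧ k ∈ closure {s, k⁻¹ * s * k} ∧
      ¬ InO m (closure {s, k⁻¹ * s * k}) s := by
  classical
  have hcop := zt_cop hm a
  obtain ⟨g, hg⟩ := tw_R1 H rfl hcop hno hs hs1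
  -- the finite solvable group `T`
  obtain ⟨hTfin, hTsol⟩ := H.h2 (x * s) g
  obtain ⟨hxz, hsz⟩ := tw_coprime_comm hcop.symm hx hs hxs
  set T := closure {x * s, g} with hT
  have hxsT : x * s ∈ T := subset_closure (by simp)
  have hgT : g ∈ T := subset_closure (by simp)
  have hxT : x ∈ T := (zpowers_le.2 hxsT) hxz
  have hsT : s ∈ T := (zpowers_le.2 hxsT) hsz
  have hle : closure {s, g} ≤ T := by
    rw [Subgroup.closure_le]
    rintro w (rfl | rfl)
    · exact hsT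
    · exact hgT
  have hnT : ¬ InO m T s := fun h => hg (h.mono hle (subset_closure (by simp)))
  -- the centralizer of `x` in `T`
  have hexpT : ∀ y : T, y ^ (m * 2 ^ a) = 1 := tw_exp_sub H.hexp T
  set C₀ : Subgroup T := centralizer {(⟨x, hxT⟩ : T)} with hC₀
  have hC₀n : ¬ InO m C₀ (⟨s, hsT⟩ : T) := by
    intro h
    apply hnT
    have h1 := zt_AxB (F := T) hm hTsol hexpT (x := ⟨x, hxT⟩) (s := ⟨s, hsT⟩)
      (Subtype.ext (by simpa using hx)) (Subtype.ext (by simpa using hs))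
      (Subtype.ext (by simpa using hxs)) h
    exact (InO.top_iff (⟨s, hsT⟩ : T)).1 h1
  set C : Subgroup G := C₀.map T.subtype with hC
  have hCn : ¬ InO m C s := by
    intro h
    exact hC₀n (InO.comap T.subtype T.subtype_injective (L := C₀) (s := (⟨s, hsT⟩ : T)) h)
  have hsC₀ : (⟨s, hsT⟩ : T) ∈ C₀ := by
    rw [hC₀, mem_centralizer_singleton_iff]
    apply Subtype.ext
    simpa using hxs.symm
  have hsC : s ∈ C := ⟨⟨s, hsT⟩, hsC₀, rfl⟩
  have hCfin : Finite C := by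
    have h1 : Function.Surjective (T.subtype.subgroupMap C₀) := T.subtype.subgroupMap_surjective C₀
    exact Finite.of_surjective _ h1
  have hCsol : Group.IsSolvable C := by
    have h0 : Group.IsSolvable C₀ :=
      Group.isSolvable_of_isSolvable_injective (f := C₀.subtype) C₀.subtype_injective
    exact Group.isSolvable_of_surjective (f := T.subtype.subgroupMap C₀)
      (T.subtype.subgroupMap_surjective C₀)
  obtain ⟨k, hkC, hk1, hk2⟩ := zt_J hm H.hexp C hCsol hsC hs hCn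
  refine ⟨k, ?_, hk1, hk2⟩
  obtain ⟨k₀, hk₀, rfl⟩ := hkC
  rw [SetLike.mem_coe, hC₀, mem_centralizer_singleton_iff] at hk₀
  have := congrArg Subtype.val hk₀
  simpa using this.symm

end Pool.Agent.Lib.MP_544bd1_al
end

section

/-!
Theorem Z3: (NS).
-/

namespace Pool.Agent.Lib.MP_544bd1_al

open Subgroup

/-- **(NS)**

Proof. Suppose `s ≠ 1`; `k` from `zt_AB`. `N = closure {x * s, z * k * w}` is finite and solvable.
`x, s ∈ N` (`tw_coprime_comm`). `(z * k * w)⁻¹ * x * (z * k * w) = w⁻¹ * x * w` (`x` commutes with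
`z`, `k`), so `closure {x, w⁻¹ * x * w} ≤ N`, `w ∈ N`, `z * k ∈ N`;
`(z * k)⁻¹ * s * (z * k) = k⁻¹ * s⁻¹ * k = (k⁻¹ * s * k)⁻¹` (`z⁻¹ * s * z = s⁻¹` since `z ^ 2 = 1`), so
`closure {s, k⁻¹ * s * k} ≤ N`, `k ∈ N`, `z ∈ N`. `hfin N`: `InOP m (2 ^ a) N z`; by `InOP.comm'`
(`t := s`): `z⁻¹ * (s⁻¹ * z * s) ∈ O_{2',2}(N)`, and this is `s ^ 2`
(`z⁻¹ * s⁻¹ * z = s`); `InOP.inO`: `InO m N (s ^ 2)`, `InO.of_sq`: `InO m N s`, and
`InO.mono` gives `InO m (closure {s, k⁻¹ * s * k}) s`, contradiction. -/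
theorem zt_NS {m a : ℕ} {G : Type} [Group G] (H : TwG (m * 2 ^ a) G) (hm : Odd m) (hno : NoN m G)
    {x w z : G} (hx : x ^ (2 ^ a) = 1) (hw : w ∈ closure {x, w⁻¹ * x * w}) (hxz : x * z = z * x)
    (hz2 : z ^ 2 = 1)
    (hfin : ∀ N : Subgroup G, Finite N → Group.IsSolvable N → x ∈ N → w ∈ N → z ∈ N →
      InOP m (2 ^ a) N z) {s : G} (hs : s ^ m = 1) (hxs : x * s = s * x)
    (hzs : z * s * z⁻¹ = s⁻¹) : s = 1 := by
  by_contra hs1
  obtain ⟨k, hxk, hk1, hk2⟩ := zt_AB H hm hno hx hs hs1 hxs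
  have hcop := zt_cop hm a
  have hzi : z⁻¹ = z := fr_inv_of_sq hz2
  have hzz : z * z = 1 := fr_mul_self hz2
  obtain ⟨hfin', hsol'⟩ := H.h2 (x * s) (z * k * w)
  set N : Subgroup G := closure {x * s, z * k * w} with hN
  have h1 : x * s ∈ N := subset_closure (by simp)
  have h2 : z * k * w ∈ N := subset_closure (by simp)
  have h3 := tw_coprime_comm hcop hs hx hxs.symm
  rw [← hxs] at h3
  have hsN : s ∈ N := (zpowers_le.2 h1) h3.1
  have hxN : x ∈ N := (zpowers_le.2 h1) h3.2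
  have hcx : (z * k)⁻¹ * x * (z * k) = x := by
    have e1 : x * (z * k) = z * k * x := by
      rw [← mul_assoc, hxz, mul_assoc, hxk, ← mul_assoc]
    rw [mul_assoc, e1, inv_mul_cancel_left]
  have h4 : w⁻¹ * x * w ∈ N := by
    have e1 := mul_mem (mul_mem (inv_mem h2) hxN) h2
    have e2 : (z * k * w)⁻¹ * x * (z * k * w) = w⁻¹ * ((z * k)⁻¹ * x * (z * k)) * w := by group
    rw [e2, hcx] at e1
    exact e1
  have hwN : w ∈ N := by
    have : closure {x, w⁻¹ * x * w} ≤ N := by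
      rw [closure_le]
      rintro y (rfl | rfl)
      · exact hxN
      · exact h4
    exact this hw
  have hzkN : z * k ∈ N := by
    have := mul_mem h2 (inv_mem hwN)
    rwa [mul_inv_cancel_right] at this
  have hzs' : z⁻¹ * s * z = s⁻¹ := by
    rw [hzi] at hzs ⊢
    exact hzs
  have h5 : k⁻¹ * s * k ∈ N := by
    have e1 := inv_mem (mul_mem (mul_mem (inv_mem hzkN) hsN) hzkN)
    have e2 : ((z * k)⁻¹ * s * (z * k))⁻¹ = k⁻¹ * (z⁻¹ * s * z)⁻¹ * k := by group
    rw [e2, hzs', inv_inv] at e1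
    exact e1
  have hJN : closure {s, k⁻¹ * s * k} ≤ N := by
    rw [closure_le]
    rintro y (rfl | rfl)
    · exact hsN
    · exact h5
  have hkN : k ∈ N := hJN hk1
  have hzN : z ∈ N := by
    have := mul_mem hzkN (inv_mem hkN)
    rwa [mul_inv_cancel_right] at this
  have h6 := (hfin N hfin' hsol' hxN hwN hzN).comm' hsN
  have h7 : z⁻¹ * (s⁻¹ * z * s) = s ^ 2 := by
    have e1 : z⁻¹ * s⁻¹ * z = s := by
      have := congrArg (·⁻¹) hzs'
      simp only [mul_inv_rev, inv_inv] at this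
      rw [mul_assoc]; exact this
    calc z⁻¹ * (s⁻¹ * z * s) = (z⁻¹ * s⁻¹ * z) * s := by group
      _ = s ^ 2 := by rw [e1, pow_two]
  rw [h7] at h6
  have h8 : InO m N (s ^ 2) := h6.inO hcop (by rw [← pow_mul, mul_comm, pow_mul, hs, one_pow])
  have h9 : InO m N s := h8.of_sq hm hs
  exact hk2 (h9.mono hJN (subset_closure (by simp)))

end Pool.Agent.Lib.MP_544bd1_al
end
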