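import Mathlib
import Pool.Agent.Lib.MP_544bd1_al.TwS2
import Pool.Agent.Lib.MP_544bd1_al.ZtNorm
import Pool.Agent.Lib.MP_544bd1_al.ZtDefs3
import Pool.Agent.Lib.MP_544bd1_al.ZtFrat
import Pool.Agent.Lib.MP_544bd1_al.ZtFP
import Pool.Agent.Lib.MP_544bd1_al.ZsC0
import Pool.Agent.Lib.MP_544bd1_al.TwLZ
import Pool.Agent.Lib.MP_544bd1_al.TwU1
import Pool.Agent.Lib.MP_544bd1_al.ZsLft
import Pool.Agent.Lib.MP_544bd1_al.ZtB4
import Pool.Agent.Lib.MP_544bd1_al.EvN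
import Pool.Agent.Lib.MP_544bd1_al.TwS3
import Pool.Agent.Lib.MP_544bd1_al.ZtNS

section

/-!
Theorem Z (paper 287), section 3, (C1): signs.
-/

namespace Pool.Agent.Lib.MP_544bd1_al

open Subgroup

variable {m a : ℕ} {H : Type} [Group H]

/-- a power of `α ^ δ`, `δ` not divisible by `2 ^ (a - 1)`, is `α ^ (2 ^ (a - 2))`.

Proof. `δ = 2 ^ c * o`, `o` odd, `c ≤ a - 2` (`Nat.exists_eq_two_pow_mul_odd`; if `a - 1 ≤ c` then
`2 ^ (a - 1) ∣ δ`). There is `j` with `o * j ≡ 1 mod 2 ^ a`; then `δ * (j * 2 ^ (a - 2 - c)) =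
2 ^ (a - 2) * (o * j) ≡ 2 ^ (a - 2) mod 2 ^ a`, so `(α ^ δ) ^ (j * 2 ^ (a - 2 - c)) =
α ^ (2 ^ (a - 2))`. (Compare `zr1_ypow` in ZtReg1.lean.) -/
theorem ys_ypow (ha : 2 ≤ a) {α : H} (hα : α ^ (2 ^ a) = 1) {δ : ℕ} (hδ : ¬ 2 ^ (a - 1) ∣ δ) :
    ∃ j : ℕ, (α ^ δ) ^ j = α ^ (2 ^ (a - 2)) := by
  have hg : Nat.gcd δ (2 ^ a) ∣ 2 ^ (a - 2) := by
    obtain ⟨j, hj, hj'⟩ := (Nat.dvd_prime_pow Nat.prime_two).1 (Nat.gcd_dvd_right δ (2 ^ a))
    rw [hj']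
    apply pow_dvd_pow
    by_contra hlt
    push Not at hlt
    apply hδ
    have h2 : 2 ^ (a - 1) ∣ 2 ^ j := pow_dvd_pow 2 (by omega)
    rw [← hj'] at h2
    exact h2.trans (Nat.gcd_dvd_left _ _)
  obtain ⟨t, ht⟩ := hg
  have h5 := Nat.gcd_eq_gcd_ab δ (2 ^ a)
  have h6 : α ^ (2 ^ (a - 2)) = (α ^ δ) ^ (Nat.gcdA δ (2 ^ a) * t) := by
    have h7 : ((2 ^ (a - 2) : ℕ) : ℤ) =
        (δ : ℤ) * (Nat.gcdA δ (2 ^ a) * t) + ((2 ^ a : ℕ) : ℤ) * (Nat.gcdB δ (2 ^ a) * t) := by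
      rw [ht, Nat.cast_mul, h5]
      ring
    rw [← zpow_natCast α (2 ^ (a - 2)), h7, zpow_add, zpow_mul, zpow_mul α ((2 ^ a : ℕ) : ℤ),
      zpow_natCast, zpow_natCast, hα, one_zpow, mul_one]
  have h8 : (α ^ δ) ^ (2 ^ a) = 1 := by
    rw [← pow_mul, mul_comm, pow_mul, hα, one_pow]
  refine ⟨((Nat.gcdA δ (2 ^ a) * t) % ((2 ^ a : ℕ) : ℤ)).toNat, ?_⟩
  have h9 : 0 ≤ (Nat.gcdA δ (2 ^ a) * t) % ((2 ^ a : ℕ) : ℤ) :=
    Int.emod_nonneg _ (by positivity)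
  rw [h6, ← zpow_natCast, Int.toNat_of_nonneg h9]
  conv_rhs => rw [← Int.emod_add_mul_ediv (Nat.gcdA δ (2 ^ a) * t) ((2 ^ a : ℕ) : ℤ)]
  rw [zpow_add, zpow_mul (α ^ δ) ((2 ^ a : ℕ) : ℤ), zpow_natCast (α ^ δ) (2 ^ a), h8, one_zpow,
    mul_one]

/-- **Signs.** The elements of the elementary abelian 2-group `P` centralize or invert `e`, the norm
`z` of `p` inverts `e`, `e` is not of order 2; `δ` is not divisible by `2 ^ (a - 1)`. Then some element of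
`P` acts in different ways on `e` and on `α ^ δ * e * (α ^ δ)⁻¹`.

Proof. Write `σ = α ^ δ`. Suppose not; then for `π ∈ P`: `π * e = e * π ↔ π * (σ * e * σ⁻¹) =
(σ * e * σ⁻¹) * π`: indeed `σ⁻¹ * π * σ ∈ P` (`α` has finite order, so `σ⁻¹` is a power of `α`, `ys_pow_mem`)
centralizes or inverts `e`, so `π` centralizes or inverts `σ * e * σ⁻¹`, and `e ≠ e⁻¹`, and also
`σ * e * σ⁻¹ ≠ (σ * e * σ⁻¹)⁻¹`, so centralizing and inverting exclude each other. So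
(*) `π * e = e * π ↔ (σ⁻¹ * π * σ) * e = e * (σ⁻¹ * π * σ)` for `π ∈ P`. By induction (*) holds for the
powers `σ ^ j` in place of `σ`, so by `ys_ypow` for `y = α ^ (2 ^ (a - 2))`. Let
`w = ynorm (2 ^ (a - 2)) α p ∈ P`; `z = w * (y * w * y⁻¹)` (`ynorm_add`, `2 ^ (a - 1) =
2 ^ (a - 2) + 2 ^ (a - 2)`). By (*) for `y` and `π = y * w * y⁻¹ ∈ P`: `y * w * y⁻¹` centralizes `e` if and
only if `w` does. So both centralize `e` or both invert `e`, and in both cases `z = w * (y * w * y⁻¹)`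
centralizes `e`; but `z` inverts `e`: `e = e⁻¹`, `e ^ 2 = 1`: contradiction. -/
theorem ys_sgn (ha : 2 ≤ a) {P : Subgroup H} {α p e : H} (hα : α ^ (2 ^ a) = 1)
    (hP : ∀ x ∈ P, x ^ 2 = 1) (hαP : ∀ x ∈ P, α * x * α⁻¹ ∈ P) (hp : p ∈ P)
    (he : ∀ x ∈ P, x * e * x⁻¹ = e ∨ x * e * x⁻¹ = e⁻¹)
    (hz : ynorm (2 ^ (a - 1)) α p * e * (ynorm (2 ^ (a - 1)) α p)⁻¹ = e⁻¹) (he2 : e ^ 2 ≠ 1)
    {δ : ℕ} (hδ : ¬ 2 ^ (a - 1) ∣ δ) :
    ∃ x ∈ P, (x * e * x⁻¹ = e ∧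
        x * (α ^ δ * e * (α ^ δ)⁻¹) * x⁻¹ = (α ^ δ * e * (α ^ δ)⁻¹)⁻¹) ∨
      (x * e * x⁻¹ = e⁻¹ ∧
        x * (α ^ δ * e * (α ^ δ)⁻¹) * x⁻¹ = α ^ δ * e * (α ^ δ)⁻¹) := by
  by_contra hno
  push Not at hno
  have hee : e ≠ e⁻¹ := by
    intro h
    apply he2
    rw [pow_two]
    nth_rewrite 2 [h]
    exact mul_inv_cancel e
  set σ := α ^ δ with hσ
  have h8 : σ ^ (2 ^ a) = 1 := by
    rw [hσ, ← pow_mul, mul_comm, pow_mul, hα, one_pow]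
  have hσP : ∀ x ∈ P, σ * x * σ⁻¹ ∈ P := fun x hx => ys_pow_mem hαP δ x hx
  have hσi : σ⁻¹ = σ ^ (2 ^ a - 1) := by
    rw [inv_eq_iff_mul_eq_one, ← pow_succ', Nat.sub_add_cancel Nat.one_le_two_pow, h8]
  have hσP' : ∀ x ∈ P, σ⁻¹ * x * σ ∈ P := by
    intro x hx
    have h := ys_pow_mem hσP (2 ^ a - 1) x hx
    rwa [← hσi, inv_inv] at h
  -- (*)
  have hstar : ∀ π ∈ P, (π * e * π⁻¹ = e ↔ (σ⁻¹ * π * σ) * e * (σ⁻¹ * π * σ)⁻¹ = e) := by
    intro π hπ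
    have h1 := hσP' π hπ
    have hconj : π * (σ * e * σ⁻¹) * π⁻¹ = σ * ((σ⁻¹ * π * σ) * e * (σ⁻¹ * π * σ)⁻¹) * σ⁻¹ := by
      group
    obtain ⟨hn1, hn2⟩ := hno π hπ
    constructor
    · intro hc
      rcases he _ h1 with h | h
      · exact h
      · exfalso
        apply hn1 hc
        rw [hconj, h]
        group
    · intro hc
      rcases he _ hπ with h | h
      · exact h
      · exfalso
        apply hn2 h
        rw [hconj, hc]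
  have hstarj : ∀ j : ℕ, ∀ π ∈ P, (π * e * π⁻¹ = e ↔
      ((σ ^ j)⁻¹ * π * σ ^ j) * e * ((σ ^ j)⁻¹ * π * σ ^ j)⁻¹ = e) ∧
        (σ ^ j)⁻¹ * π * σ ^ j ∈ P := by
    intro j
    induction j with
    | zero => intro π hπ; simpa using hπ
    | succ j ih =>
      intro π hπ
      obtain ⟨h1, h2⟩ := ih π hπ
      have h3 : (σ ^ (j + 1))⁻¹ * π * σ ^ (j + 1) = σ⁻¹ * ((σ ^ j)⁻¹ * π * σ ^ j) * σ := by
        rw [pow_succ]; group
      rw [h3]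
      exact ⟨h1.trans (hstar _ h2), hσP' _ h2⟩
  obtain ⟨j, hj⟩ := ys_ypow ha hα hδ
  rw [← hσ] at hj
  set y := α ^ (2 ^ (a - 2)) with hy
  set w := ynorm (2 ^ (a - 2)) α p with hw
  have hwP : w ∈ P := ynorm_mem hαP hp _
  have hywP : y * w * y⁻¹ ∈ P := ys_pow_mem hαP _ w hwP
  have hzw : ynorm (2 ^ (a - 1)) α p = w * (y * w * y⁻¹) := by
    have h : 2 ^ (a - 1) = 2 ^ (a - 2) + 2 ^ (a - 2) := by
      rw [← two_mul, ← pow_succ']
      congr 1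
      omega
    rw [h, ynorm_add]
  have h1 := (hstarj j _ hywP).1
  rw [hj] at h1
  have h2 : y⁻¹ * (y * w * y⁻¹) * y = w := by group
  rw [h2] at h1
  rw [hzw] at hz
  have h3 : w * (y * w * y⁻¹) * e * (w * (y * w * y⁻¹))⁻¹ =
      w * ((y * w * y⁻¹) * e * (y * w * y⁻¹)⁻¹) * w⁻¹ := by group
  rw [h3] at hz
  rcases he w hwP with h | h
  · have h4 := h1.2 h
    rw [h4, h] at hz
    exact hee hz
  · have h4 : (y * w * y⁻¹) * e * (y * w * y⁻¹)⁻¹ = e⁻¹ := by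
      rcases he _ hywP with h5 | h5
      · exfalso
        have := h1.1 h5
        rw [h] at this
        exact hee this.symm
      · exact h5
    rw [h4] at hz
    have h5 : w * e⁻¹ * w⁻¹ = (w * e * w⁻¹)⁻¹ := by group
    rw [h5, h, inv_inv] at hz
    exact hee hz

end Pool.Agent.Lib.MP_544bd1_al
end

section

/-!
Theorem Z3, Case B: `g ^ 4` acts nontrivially on an elementary abelian subgroup (4.2).
-/

namespace Pool.Agent.Lib.MP_544bd1_al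

open Subgroup

/-- **(4.2)**

Proof. Let `x = g ^ 4`, `x ^ 2 = 1`. `M₀` is commutative (`h2`). `M₁ = {v * (x * v * x⁻¹) | v ∈ M₀}` is a
subgroup of `M₀` (commutativity), `≠ ⊥` (`hne`: `v * (x * v * x⁻¹) = 1` means that `x`, `v` commute, since
`v⁻¹ = v`), normalized by `g` (`g` commutes with `x`). `g` has a fixed point `z ≠ 1` in `M₁`:
`⟨g⟩` is a 2-group acting on the nontrivial finite 2-group `M₁` (or: for `1 ≠ y ∈ M₁` let `T` be the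
endomorphism `y ↦ g * y * g⁻¹`; consider the least `j` with `(T - 1) ^ j y = 1`, `j ≤ 8`, since
`(T - 1) ^ 8 = T ^ 8 - 1 = 0` on an elementary abelian 2-group; in multiplicative notation
`(T - 1) y = (g * y * g⁻¹) * y⁻¹`; compare `ztLin_fix` in ZtLin.lean). Let `z = v * (x * v * x⁻¹)`, `v ∈ M₀`,
`g * z * g⁻¹ = z`, and `u = x * v`. `u ^ 2 = (x * v * x⁻¹) * x ^ 2 * v = z`; `u ^ 4 = z ^ 2 = 1`; `hu2`: `z ≠ 1`;
`hx`: `u⁻¹ * x * u = v⁻¹ * x * v = x * ((x⁻¹ * v * x) * v) = x * z` (`v⁻¹ = v`); `hz` clear; `h1`: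
`u⁻¹ * ((g ^ 2)⁻¹ * u * g ^ 2) = v⁻¹ * ((g ^ 2)⁻¹ * v * g ^ 2) ∈ M₀` (`g ^ 2` commutes with `x`; `g⁻¹` is a
power of `g`, so it normalizes `M₀`), so its square is `1`; `h0`: this element is in `M₀` too; `hw`; `hwu`:
`u = g ^ 4 * v`, `v ∈ Q ≤ closure {g, w⁻¹ * g * w} ≤ closure {g, w, u ^ 2}`. -/
theorem zt_B2 {F : Type} [Group F] [Finite F] {Q : Subgroup F} {g : F} (hg : g ^ 8 = 1)
    (M₀ : Subgroup F) (hM : M₀ ≤ Q) (h2 : ∀ q ∈ M₀, q ^ 2 = 1) (hgM : ∀ q ∈ M₀, g * q * g⁻¹ ∈ M₀)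
    (hne : ∃ q ∈ M₀, g ^ 4 * q ≠ q * g ^ 4) {w : F} (hw : w ∈ closure {g, w⁻¹ * g * w})
    (hwQ : Q ≤ closure {g, w⁻¹ * g * w}) : ∃ u, ZBc g u w := by
  classical
  obtain ⟨v₀, hv₀, hne₀⟩ := hne
  set x : F := g ^ 4 with hx
  have hxx : x * x = 1 := by
    rw [hx, ← pow_add]
    exact hg
  have hxi : x⁻¹ = x := inv_eq_of_mul_eq_one_right hxx
  have hcomm : ∀ a ∈ M₀, ∀ b ∈ M₀, a * b = b * a := by
    intro a ha b hb
    have ha' : a⁻¹ = a := inv_eq_of_mul_eq_one_right (by rw [← pow_two]; exact h2 a ha)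
    have hb' : b⁻¹ = b := inv_eq_of_mul_eq_one_right (by rw [← pow_two]; exact h2 b hb)
    have hab : (a * b)⁻¹ = a * b :=
      inv_eq_of_mul_eq_one_right (by rw [← pow_two]; exact h2 _ (M₀.mul_mem ha hb))
    rw [← hab, mul_inv_rev, ha', hb']
  have hinv : ∀ a ∈ M₀, a⁻¹ = a := fun a ha =>
    inv_eq_of_mul_eq_one_right (by rw [← pow_two]; exact h2 a ha)
  have hgk : ∀ k : ℕ, ∀ q ∈ M₀, g ^ k * q * (g ^ k)⁻¹ ∈ M₀ := by
    intro k
    induction k with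
    | zero => intro q hq; simpa using hq
    | succ k ih =>
      intro q hq
      have h1 : g ^ (k + 1) * q * (g ^ (k + 1))⁻¹ = g * (g ^ k * q * (g ^ k)⁻¹) * g⁻¹ := by
        rw [pow_succ' g k]
        group
      rw [h1]
      exact hgM _ (ih q hq)
  have hxM : ∀ q ∈ M₀, x * q * x⁻¹ ∈ M₀ := fun q hq => hgk 4 q hq
  -- the set `S`
  let S : F → Prop := fun y => ∃ v ∈ M₀, y = v * (x * v * x⁻¹)
  have hSM : ∀ y, S y → y ∈ M₀ := by
    rintro y ⟨v, hv, rfl⟩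
    exact M₀.mul_mem hv (hxM v hv)
  let T : ℕ → F → F := fun k y => g ^ k * y * (g ^ k)⁻¹ * y
  have hTS : ∀ k y, S y → S (T k y) := by
    rintro k y ⟨v, hv, rfl⟩
    refine ⟨g ^ k * v * (g ^ k)⁻¹ * v, M₀.mul_mem (hgk k v hv) hv, ?_⟩
    have hc : g ^ k * x = x * g ^ k := by rw [hx, ← pow_add, ← pow_add, add_comm]
    have h3 := hcomm _ (hxM _ (hgk k v hv)) v hv
    have h4 : g ^ k * (v * (x * v * x⁻¹)) * (g ^ k)⁻¹ =
        (g ^ k * v * (g ^ k)⁻¹) * (x * (g ^ k * v * (g ^ k)⁻¹) * x⁻¹) := by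
      have e1 : x⁻¹ * (g ^ k)⁻¹ = (g ^ k)⁻¹ * x⁻¹ := by
        rw [← mul_inv_rev, ← mul_inv_rev, hc]
      calc g ^ k * (v * (x * v * x⁻¹)) * (g ^ k)⁻¹
          = (g ^ k * v * (g ^ k)⁻¹) * ((g ^ k * x) * v * (x⁻¹ * (g ^ k)⁻¹)) := by group
        _ = (g ^ k * v * (g ^ k)⁻¹) * ((x * g ^ k) * v * ((g ^ k)⁻¹ * x⁻¹)) := by rw [hc, e1]
        _ = _ := by group
    show g ^ k * (v * (x * v * x⁻¹)) * (g ^ k)⁻¹ * (v * (x * v * x⁻¹)) = _
    rw [h4]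
    set v' := g ^ k * v * (g ^ k)⁻¹
    calc v' * (x * v' * x⁻¹) * (v * (x * v * x⁻¹))
        = v' * ((x * v' * x⁻¹) * v) * (x * v * x⁻¹) := by group
      _ = v' * (v * (x * v' * x⁻¹)) * (x * v * x⁻¹) := by rw [h3]
      _ = _ := by group
  have hTT : ∀ k y, S y → T k (T k y) = T (2 * k) y := by
    intro k y hy
    have h3 : (g ^ k * y * (g ^ k)⁻¹) * (g ^ k * y * (g ^ k)⁻¹) = 1 := by
      rw [← pow_two]
      exact h2 _ (hgk k y (hSM y hy))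
    show g ^ k * (g ^ k * y * (g ^ k)⁻¹ * y) * (g ^ k)⁻¹ * (g ^ k * y * (g ^ k)⁻¹ * y) =
      g ^ (2 * k) * y * (g ^ (2 * k))⁻¹ * y
    calc g ^ k * (g ^ k * y * (g ^ k)⁻¹ * y) * (g ^ k)⁻¹ * (g ^ k * y * (g ^ k)⁻¹ * y)
        = (g ^ k * g ^ k) * y * (g ^ k * g ^ k)⁻¹ *
          ((g ^ k * y * (g ^ k)⁻¹) * (g ^ k * y * (g ^ k)⁻¹)) * y := by group
      _ = _ := by rw [h3, mul_one, two_mul, pow_add]
  obtain ⟨z, ⟨v, hv, hzv⟩, hz1, hgz⟩ : ∃ z, S z ∧ z ≠ 1 ∧ g * z * g⁻¹ = z := by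
    by_contra hcon
    push Not at hcon
    have hstep : ∀ y, S y → y ≠ 1 → S (T 1 y) ∧ T 1 y ≠ 1 := by
      intro y hy hy1
      refine ⟨hTS 1 y hy, fun h => hcon y hy hy1 ?_⟩
      have h3 : g ^ 1 * y * (g ^ 1)⁻¹ * y = 1 := h
      rw [pow_one] at h3
      rw [eq_inv_of_mul_eq_one_left h3, hinv y (hSM y hy)]
    have hstep2 : ∀ y, S y → y ≠ 1 → S (T 2 y) ∧ T 2 y ≠ 1 := by
      intro y hy hy1
      obtain ⟨a1, a2⟩ := hstep y hy hy1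
      obtain ⟨b1, b2⟩ := hstep _ a1 a2
      rw [hTT 1 y hy] at b1 b2
      exact ⟨b1, b2⟩
    have hstep4 : ∀ y, S y → y ≠ 1 → S (T 4 y) ∧ T 4 y ≠ 1 := by
      intro y hy hy1
      obtain ⟨a1, a2⟩ := hstep2 y hy hy1
      obtain ⟨b1, b2⟩ := hstep2 _ a1 a2
      rw [hTT 2 y hy] at b1 b2
      exact ⟨b1, b2⟩
    have hstep8 : ∀ y, S y → y ≠ 1 → S (T 8 y) ∧ T 8 y ≠ 1 := by
      intro y hy hy1
      obtain ⟨a1, a2⟩ := hstep4 y hy hy1
      obtain ⟨b1, b2⟩ := hstep4 _ a1 a2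
      rw [hTT 4 y hy] at b1 b2
      exact ⟨b1, b2⟩
    have hy0 : S (v₀ * (x * v₀ * x⁻¹)) := ⟨v₀, hv₀, rfl⟩
    have hy01 : v₀ * (x * v₀ * x⁻¹) ≠ 1 := by
      intro h
      apply hne₀
      have h3 : x * v₀ * x⁻¹ = v₀ := by
        rw [eq_inv_of_mul_eq_one_right h, hinv v₀ hv₀]
      calc x * v₀ = (x * v₀ * x⁻¹) * x := by group
        _ = v₀ * x := by rw [h3]
    have h8 := (hstep8 _ hy0 hy01).2
    apply h8
    show g ^ 8 * (v₀ * (x * v₀ * x⁻¹)) * (g ^ 8)⁻¹ * (v₀ * (x * v₀ * x⁻¹)) = 1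
    rw [hg, one_mul, inv_one, mul_one, ← pow_two]
    exact h2 _ (hSM _ hy0)
  have hvc : v * (x * v * x⁻¹) = (x * v * x⁻¹) * v := hcomm v hv _ (hxM v hv)
  have hvv : v * v = 1 := by rw [← pow_two]; exact h2 v hv
  have hu2 : (x * v) ^ 2 = z := by
    rw [hzv, hvc, hxi, pow_two]
    group
  have hzM : z ∈ M₀ := by rw [hzv]; exact M₀.mul_mem hv (hxM v hv)
  have hg2 : ∀ q ∈ M₀, (g ^ 2)⁻¹ * q * g ^ 2 ∈ M₀ := by
    intro q hq
    have h3 : (g ^ 2)⁻¹ = g ^ 6 := inv_eq_of_mul_eq_one_right (by rw [← pow_add]; exact hg)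
    have h4 : g ^ 2 = (g ^ 6)⁻¹ := by rw [← h3, inv_inv]
    have h5 := hgk 6 q hq
    rw [← h4, ← h3] at h5
    exact h5
  have hg1 : ∀ q ∈ M₀, g⁻¹ * q * g ∈ M₀ := by
    intro q hq
    have h3 : g⁻¹ = g ^ 7 := inv_eq_of_mul_eq_one_right (by rw [← pow_succ']; exact hg)
    have h4 : g = (g ^ 7)⁻¹ := by rw [← h3, inv_inv]
    have h5 := hgk 7 q hq
    rw [← h4, ← h3] at h5
    exact h5
  have he1 : (x * v)⁻¹ * ((g ^ 2)⁻¹ * (x * v) * g ^ 2) = v⁻¹ * ((g ^ 2)⁻¹ * v * g ^ 2) := by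
    have hc : (g ^ 2)⁻¹ * x = x * (g ^ 2)⁻¹ := by
      have : x * g ^ 2 = g ^ 2 * x := by rw [hx, ← pow_add, ← pow_add]
      rw [inv_mul_eq_iff_eq_mul, ← mul_assoc, ← this, mul_assoc, mul_inv_cancel, mul_one]
    calc (x * v)⁻¹ * ((g ^ 2)⁻¹ * (x * v) * g ^ 2)
        = v⁻¹ * x⁻¹ * ((g ^ 2)⁻¹ * x) * v * g ^ 2 := by group
      _ = v⁻¹ * x⁻¹ * (x * (g ^ 2)⁻¹) * v * g ^ 2 := by rw [hc]
      _ = _ := by group
  have he1M : v⁻¹ * ((g ^ 2)⁻¹ * v * g ^ 2) ∈ M₀ := M₀.mul_mem (M₀.inv_mem hv) (hg2 v hv)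
  refine ⟨x * v, ⟨hg, ?_, ?_, ?_, ?_, ?_, ?_, hw, ?_⟩⟩
  · have : (x * v) ^ 4 = ((x * v) ^ 2) ^ 2 := by rw [← pow_mul]
    rw [this, hu2]
    exact h2 z hzM
  · rw [hu2]
    exact hz1
  · rw [hu2, hzv, hvc]
    calc (x * v)⁻¹ * x * (x * v) = v⁻¹ * x⁻¹ * (x * x) * v := by group
      _ = v * x * v := by rw [hxx, hinv v hv, hxi, mul_one]
      _ = x * x * v * x⁻¹ * v := by rw [hxx, hxi, one_mul]
      _ = x * (x * v * x⁻¹ * v) := by group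
  · rw [hu2]
    calc g * z = (g * z * g⁻¹) * g := by group
      _ = z * g := by rw [hgz]
  · rw [he1]
    exact h2 _ he1M
  · rw [he1]
    exact h2 _ (M₀.mul_mem (M₀.inv_mem he1M) (hg1 _ he1M))
  · have hle : closure {g, w⁻¹ * g * w} ≤ closure {g, w, (x * v) ^ 2} := by
      rw [closure_le]
      rintro y hy
      have hgc : g ∈ closure {g, w, (x * v) ^ 2} := subset_closure (by simp)
      have hwc : w ∈ closure {g, w, (x * v) ^ 2} := subset_closure (by simp)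
      rcases hy with rfl | hy
      · exact hgc
      · rw [Set.mem_singleton_iff] at hy
        rw [hy]
        exact mul_mem (mul_mem (inv_mem hwc) hgc) hwc
    refine mul_mem ?_ (hle (hwQ (hM hv)))
    exact pow_mem (subset_closure (by simp)) 4

end Pool.Agent.Lib.MP_544bd1_al
end

section

/-!
Theorem Z (paper 287), section 3, (C1): the argument in `T ⧸ O_{2',2}(T)`.
-/

namespace Pool.Agent.Lib.MP_544bd1_al

open Subgroup

variable {m a : ℕ} {H : Type} [Group H]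

/-- **(C1)**, group theoretic part.

Proof. Let `κ = α ^ (2 ^ (a - 1))` (`κ ^ 2 = 1`, `κ` commutes with `α` and with `P`), `z` the norm of `p`
(`z ∈ P`, `ynorm_mem`; `z ^ 2 = 1`; `α * z = z * α`: `ynorm_comm`, `ys_comm`).
(1) `zt_f3P` for `A` and the elementary abelian group `P ⊔ zpowers κ` (its elements are `x` or
`x * κ`, `x ∈ P`; e.g. take `P₁ = closure (P ∪ {κ})` or `P ⊔ zpowers κ`, and prove `x ^ 2 = 1` and that it
normalizes `A`): there is `e ∈ A`, `e ≠ 1`, inverted by `z`, centralized or inverted by each element of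
`P` and by `κ`. `e ^ 2 ≠ 1` (`e ^ m = 1`, `m` odd: `fr_one_two`).
(2) Let `e l = α ^ l * e * (α ^ l)⁻¹ ∈ A` (`l : ℕ`). All `e l` commute: it is enough that `e` commutes
with all `e δ` (conjugate by `α ^ l`, `l ≤ l'`). If `2 ^ (a - 1) ∣ δ` then `α ^ δ` is a power of `κ`, so
`e δ = e` or `e⁻¹`. Otherwise take `x ∈ P` from `ys_sgn`: it acts differently on `e` and `e δ`; let
`c = e * e δ * e⁻¹ * (e δ)⁻¹`. `x` commutes with `c` (`hPc`), but `x * c * x⁻¹` is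
`e * (e δ)⁻¹ * e⁻¹ * e δ` or `e⁻¹ * e δ * e * (e δ)⁻¹`, and both are `c⁻¹` because `c` commutes with `e`
and `e δ` (`hcl`). So `c = c⁻¹`, `c ^ 2 = 1`, `c ^ m = 1`, `c = 1`.
(3) `C = closure {e l | l} ≤ A` is commutative, `c ^ m = 1` on `C`, normalized by `α` and by each `x ∈ P`
(`x * e l * x⁻¹ = α ^ l * ((α ^ l)⁻¹ * x * α ^ l) * e * (..)⁻¹ * (α ^ l)⁻¹` is `e l` or `(e l)⁻¹`, as
`(α ^ l)⁻¹ * x * α ^ l ∈ P`: `(α ^ l)⁻¹` is a power of `α`), inverted elementwise by `z` (`z` commutes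
with `α`, so it inverts each `e l`; `C` is commutative).
(4) If `κ * e * κ⁻¹ = e⁻¹`: `zt_reg0` (`E := C`, `u := α`): `κ * e = e * κ`, so `e = e⁻¹`: contradiction.
If `κ * e * κ⁻¹ = e`: let `u = p * α`; `u ^ (2 ^ (a - 1)) = z * κ` (`ynorm_pow`), `u ^ (2 ^ a) = 1`
(`ys_pg_pow`), `C` is normalized by `u`; `zt_reg0` (`E := C`): `z * κ` commutes with `e`, but
`(z * κ) * e * (z * κ)⁻¹ = z * e * z⁻¹ = e⁻¹`: contradiction. -/
theorem ys_C1H [Finite H] (ha : 3 ≤ a) (hm : Odd m) (hV : ZRep m a H) {A P : Subgroup H}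
    {α p : H} (hα : α ^ (2 ^ a) = 1) (hP : ∀ x ∈ P, x ^ 2 = 1)
    (hαP : ∀ x ∈ P, α * x * α⁻¹ ∈ P) (hp : p ∈ P)
    (hκ : ∀ x ∈ P, α ^ (2 ^ (a - 1)) * x = x * α ^ (2 ^ (a - 1)))
    (hA : ∀ x ∈ A, x ^ m = 1) (hαA : ∀ x ∈ A, α * x * α⁻¹ ∈ A)
    (hPA : ∀ y ∈ P, ∀ x ∈ A, y * x * y⁻¹ ∈ A)
    (hcl : ∀ x ∈ A, ∀ y ∈ A, ∀ w ∈ A, x * y * x⁻¹ * y⁻¹ * w = w * (x * y * x⁻¹ * y⁻¹))
    (hPc : ∀ v ∈ P, ∀ x ∈ A, ∀ y ∈ A, v * (x * y * x⁻¹ * y⁻¹) = x * y * x⁻¹ * y⁻¹ * v)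
    (hne : ∃ x ∈ A, ynorm (2 ^ (a - 1)) α p * x ≠ x * ynorm (2 ^ (a - 1)) α p) : False := by
  have hPc2 := ys_comm hP
  obtain ⟨κ, hκd⟩ : ∃ κ, κ = α ^ (2 ^ (a - 1)) := ⟨_, rfl⟩
  have h2M : 2 * 2 ^ (a - 1) = 2 ^ a := by
    rw [← pow_succ']
    congr 1
    omega
  have hκ2 : κ ^ 2 = 1 := by
    rw [hκd, ← pow_mul, mul_comm, h2M, hα]
  have hκκ : κ * κ = 1 := by rw [← pow_two]; exact hκ2
  have hκi : κ⁻¹ = κ := inv_eq_of_mul_eq_one_left hκκ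
  have hακ : α * κ = κ * α := by rw [hκd]; exact (Commute.self_pow α _).eq
  obtain ⟨z, hz⟩ : ∃ z, z = ynorm (2 ^ (a - 1)) α p := ⟨_, rfl⟩
  have hzP : z ∈ P := by rw [hz]; exact ynorm_mem hαP hp _
  have hz2 : z ^ 2 = 1 := hP z hzP
  have hαz : α * z = z * α := by rw [hz]; exact ynorm_comm hαP hPc2 hp (hκ p hp)
  have hupow : (p * α) ^ (2 ^ (a - 1)) = z * κ := by rw [ynorm_pow, hz, hκd]
  have hu1 : (p * α) ^ (2 ^ a) = 1 := by
    rw [← h2M]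
    exact ys_pg_pow hαP hP hp hκ (by rw [h2M]; exact hα)
  have hsgn := fun (e : H) h1 h2 h3 (δ : ℕ) h4 =>
    ys_sgn (α := α) (e := e) (by omega : 2 ≤ a) hα hP hαP hp h1 h2 h3 (δ := δ) h4
  rw [← hz] at hne hsgn
  rw [← hκd] at hκ
  have hκA : ∀ x ∈ A, κ * x * κ⁻¹ ∈ A := by rw [hκd]; exact ys_pow_mem hαA _
  have hαnA : ∀ n : ℕ, ∀ x ∈ A, α ^ n * x * (α ^ n)⁻¹ ∈ A := fun n => ys_pow_mem hαA n
  -- the group generated by `P` and `κ`
  have hcκ : ∀ x, x * κ ∈ P → κ * x = x * κ := by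
    intro x hx
    have h1 := hκ _ hx
    calc κ * x = κ * (x * κ) * κ⁻¹ := by group
      _ = (x * κ) * κ * κ⁻¹ := by rw [h1]
      _ = x * κ := by group
  let P₁ : Subgroup H :=
    { carrier := {y | y ∈ P ∨ y * κ ∈ P}
      mul_mem' := by
        rintro x y (hx | hx) (hy | hy)
        · exact Or.inl (P.mul_mem hx hy)
        · right
          rw [mul_assoc]
          exact P.mul_mem hx hy
        · right
          have h1 : x * y * κ = (x * κ) * y := by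
            rw [mul_assoc, ← hκ y hy, mul_assoc]
          rw [h1]
          exact P.mul_mem hx hy
        · left
          have h1 : x * y = (x * κ) * (y * κ) := by
            calc x * y = x * (κ * κ) * y := by rw [hκκ, mul_one]
              _ = (x * κ) * (κ * y) := by group
              _ = (x * κ) * (y * κ) := by rw [hcκ y hy]
          rw [h1]
          exact P.mul_mem hx hy
      one_mem' := Or.inl P.one_mem
      inv_mem' := by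
        rintro x (hx | hx)
        · exact Or.inl (P.inv_mem hx)
        · right
          have h1 : x⁻¹ * κ = (x * κ)⁻¹ := by
            rw [← hcκ x hx, mul_inv_rev, hκi]
          rw [h1]
          exact P.inv_mem hx }
  have hP₁ : ∀ y, y ∈ P₁ ↔ (y ∈ P ∨ y * κ ∈ P) := fun y => Iff.rfl
  obtain ⟨e, he, he1, hze, heP₁⟩ := zt_f3P hm A P₁ hA
    (by
      rintro y (hy | hy)
      · exact hP y hy
      · have h1 : Commute κ y := hcκ y hy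
        have h2 := hP _ hy
        rw [h1.symm.mul_pow, hκ2, mul_one] at h2
        exact h2)
    (by
      rintro y (hy | hy) g hg
      · exact hPA y hy g hg
      · have h1 := hPA _ hy _ (hκA g hg)
        have h2 : (y * κ) * (κ * g * κ⁻¹) * (y * κ)⁻¹ = y * (κ * κ) * g * (κ * κ)⁻¹ * y⁻¹ := by
          group
        rw [h2, hκκ, inv_one, mul_one, mul_one] at h1
        exact h1)
    (z := z) (Or.inl hzP) hne
  have heP : ∀ x ∈ P, x * e * x⁻¹ = e ∨ x * e * x⁻¹ = e⁻¹ := fun x hx => heP₁ x (Or.inl hx)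
  have hκe : κ * e * κ⁻¹ = e ∨ κ * e * κ⁻¹ = e⁻¹ :=
    heP₁ κ (Or.inr (by rw [hκκ]; exact P.one_mem))
  have he2 : e ^ 2 ≠ 1 := fun h => he1 (fr_one_two hm (hA e he) h)
  have hee : e ≠ e⁻¹ := fun h => he2 (by
    rw [pow_two]
    nth_rewrite 2 [h]
    group)
  -- the conjugates of `e` commute
  have hel : ∀ l : ℕ, α ^ l * e * (α ^ l)⁻¹ ∈ A := fun l => hαnA l e he
  have hκq : ∀ q : ℕ, κ ^ q * e * (κ ^ q)⁻¹ = e ∨ κ ^ q * e * (κ ^ q)⁻¹ = e⁻¹ := by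
    intro q
    induction q with
    | zero => left; simp
    | succ q ih =>
      have h1 : κ ^ (q + 1) * e * (κ ^ (q + 1))⁻¹ = κ * (κ ^ q * e * (κ ^ q)⁻¹) * κ⁻¹ := by
        rw [pow_succ']; group
      rw [h1]
      rcases ih with h | h
      · rw [h]; exact hκe
      · rw [h]
        have h2 : κ * e⁻¹ * κ⁻¹ = (κ * e * κ⁻¹)⁻¹ := by group
        rw [h2]
        rcases hκe with h3 | h3
        · right; rw [h3]
        · left; rw [h3, inv_inv]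
  have hcomm1 : ∀ δ : ℕ, e * (α ^ δ * e * (α ^ δ)⁻¹) = (α ^ δ * e * (α ^ δ)⁻¹) * e := by
    intro δ
    by_cases hδ : 2 ^ (a - 1) ∣ δ
    · obtain ⟨q, rfl⟩ := hδ
      rw [pow_mul, ← hκd]
      rcases hκq q with h | h
      · rw [h]
      · rw [h]; group
    · obtain ⟨x, hx, hx2⟩ := hsgn e heP hze he2 δ hδ
      obtain ⟨f, hf⟩ : ∃ f, f = α ^ δ * e * (α ^ δ)⁻¹ := ⟨_, rfl⟩
      have hfA : f ∈ A := by rw [hf]; exact hel δ
      rw [← hf] at hx2 ⊢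
      obtain ⟨c, hc⟩ : ∃ c, c = e * f * e⁻¹ * f⁻¹ := ⟨_, rfl⟩
      have hcA : c ∈ A := by
        rw [hc]
        exact A.mul_mem (A.mul_mem (A.mul_mem he hfA) (A.inv_mem he)) (A.inv_mem hfA)
      have hxc : x * c = c * x := by rw [hc]; exact hPc x hx e he f hfA
      have hce : c * e = e * c := by rw [hc]; exact hcl e he f hfA e he
      have hcf : c * f = f * c := by rw [hc]; exact hcl e he f hfA f hfA
      have hxc' : x * c * x⁻¹ = c := by rw [hxc]; group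
      have hxc2 : x * c * x⁻¹ = c⁻¹ := by
        rcases hx2 with ⟨h1, h2⟩ | ⟨h1, h2⟩
        · calc x * c * x⁻¹ = (x * e * x⁻¹) * (x * f * x⁻¹) * (x * e * x⁻¹)⁻¹ *
                (x * f * x⁻¹)⁻¹ := by rw [hc]; group
            _ = e * f⁻¹ * e⁻¹ * f := by rw [h1, h2]; group
            _ = (f⁻¹ * (e * f * e⁻¹ * f⁻¹) * f)⁻¹ := by group
            _ = (f⁻¹ * (c * f))⁻¹ := by rw [← hc]; group
            _ = c⁻¹ := by rw [hcf]; group
        · calc x * c * x⁻¹ = (x * e * x⁻¹) * (x * f * x⁻¹) * (x * e * x⁻¹)⁻¹ *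
                (x * f * x⁻¹)⁻¹ := by rw [hc]; group
            _ = e⁻¹ * f * e * f⁻¹ := by rw [h1, h2]; group
            _ = (e⁻¹ * (e * f * e⁻¹ * f⁻¹) * e)⁻¹ := by group
            _ = (e⁻¹ * (c * e))⁻¹ := by rw [← hc]; group
            _ = c⁻¹ := by rw [hce]; group
      have hcc : c ^ 2 = 1 := by
        rw [hxc'] at hxc2
        rw [pow_two]
        nth_rewrite 2 [hxc2]
        group
      have hc1 : c = 1 := fr_one_two hm (hA c hcA) hcc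
      rw [hc1] at hc
      calc e * f = (e * f * e⁻¹ * f⁻¹) * f * e := by group
        _ = f * e := by rw [← hc, one_mul]
  have hcomm2 : ∀ l l' : ℕ, (α ^ l * e * (α ^ l)⁻¹) * (α ^ l' * e * (α ^ l')⁻¹) =
      (α ^ l' * e * (α ^ l')⁻¹) * (α ^ l * e * (α ^ l)⁻¹) := by
    have key : ∀ l δ : ℕ, (α ^ l * e * (α ^ l)⁻¹) * (α ^ (l + δ) * e * (α ^ (l + δ))⁻¹) =
      (α ^ (l + δ) * e * (α ^ (l + δ))⁻¹) * (α ^ l * e * (α ^ l)⁻¹) := by
      intro l δ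
      rw [pow_add]
      calc (α ^ l * e * (α ^ l)⁻¹) * (α ^ l * α ^ δ * e * (α ^ l * α ^ δ)⁻¹)
          = α ^ l * (e * (α ^ δ * e * (α ^ δ)⁻¹)) * (α ^ l)⁻¹ := by group
        _ = α ^ l * ((α ^ δ * e * (α ^ δ)⁻¹) * e) * (α ^ l)⁻¹ := by rw [hcomm1 δ]
        _ = _ := by group
    intro l l'
    rcases le_total l l' with h | h
    · obtain ⟨δ, rfl⟩ := Nat.exists_eq_add_of_le h
      exact key l δ
    · obtain ⟨δ, rfl⟩ := Nat.exists_eq_add_of_le h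
      exact (key l' δ).symm
  -- the subgroup generated by the conjugates
  obtain ⟨S, hS⟩ : ∃ S : Set H, S = Set.range fun l : ℕ => α ^ l * e * (α ^ l)⁻¹ := ⟨_, rfl⟩
  have hCA : closure S ≤ A := by
    rw [closure_le, hS]
    rintro _ ⟨l, rfl⟩
    exact hel l
  have hC1 : closure S ≤ centralizer S := by
    rw [closure_le]
    intro x hx
    rw [hS] at hx
    obtain ⟨l, rfl⟩ := hx
    rw [SetLike.mem_coe, mem_centralizer_iff]
    intro y hy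
    rw [hS] at hy
    obtain ⟨l', rfl⟩ := hy
    exact hcomm2 l' l
  have hC2 : ∀ x ∈ closure S, ∀ y ∈ closure S, x * y = y * x := by
    have h1 : closure S ≤ centralizer (closure S : Set H) := by
      rw [closure_le]
      intro x hx
      rw [SetLike.mem_coe, mem_centralizer_iff]
      intro y hy
      exact (mem_centralizer_iff.1 (hC1 hy) x hx).symm
    intro x hx y hy
    exact (mem_centralizer_iff.1 (h1 hx) y hy).symm
  have hCn : ∀ t : H, (∀ l : ℕ, t * (α ^ l * e * (α ^ l)⁻¹) * t⁻¹ ∈ closure S) →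
      ∀ x ∈ closure S, t * x * t⁻¹ ∈ closure S := by
    intro t ht
    have h1 : closure S ≤ (closure S).comap (MulAut.conj t).toMonoidHom := by
      rw [closure_le]
      intro x hx
      rw [hS] at hx
      obtain ⟨l, rfl⟩ := hx
      exact ht l
    intro x hx
    exact h1 hx
  have hS' : ∀ l : ℕ, α ^ l * e * (α ^ l)⁻¹ ∈ closure S := fun l =>
    subset_closure (by rw [hS]; exact ⟨l, rfl⟩)
  have heC : e ∈ closure S := by simpa using hS' 0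
  have hαC : ∀ x ∈ closure S, α * x * α⁻¹ ∈ closure S := hCn α (fun l => by
    have h1 : α * (α ^ l * e * (α ^ l)⁻¹) * α⁻¹ = α ^ (l + 1) * e * (α ^ (l + 1))⁻¹ := by
      rw [pow_succ']; group
    rw [h1]
    exact hS' _)
  have hconjP : ∀ l : ℕ, ∀ x ∈ P, (α ^ l)⁻¹ * x * α ^ l ∈ P := by
    intro l x hx
    have h1 := ys_pow_mem hαP (l * (2 ^ a - 1)) x hx
    have h2 : α ^ (l * (2 ^ a - 1)) = (α ^ l)⁻¹ := by
      rw [eq_inv_iff_mul_eq_one, ← pow_add]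
      have h3 : l * (2 ^ a - 1) + l = 2 ^ a * l := by
        have h4 : 1 ≤ 2 ^ a := Nat.one_le_two_pow
        obtain ⟨b, hb⟩ := Nat.exists_eq_add_of_le h4
        rw [hb, Nat.add_sub_cancel_left]
        ring
      rw [h3, pow_mul, hα, one_pow]
    rw [h2, inv_inv] at h1
    exact h1
  have hpC : ∀ x ∈ P, ∀ y ∈ closure S, x * y * x⁻¹ ∈ closure S := fun x hx => hCn x (fun l => by
    have h1 : x * (α ^ l * e * (α ^ l)⁻¹) * x⁻¹ =
        α ^ l * (((α ^ l)⁻¹ * x * α ^ l) * e * ((α ^ l)⁻¹ * x * α ^ l)⁻¹) * (α ^ l)⁻¹ := by group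
    rw [h1]
    rcases heP _ (hconjP l x hx) with h | h
    · rw [h]; exact hS' l
    · rw [h]
      have h2 : α ^ l * e⁻¹ * (α ^ l)⁻¹ = (α ^ l * e * (α ^ l)⁻¹)⁻¹ := by group
      rw [h2]
      exact (closure S).inv_mem (hS' l))
  rcases hκe with hκe | hκe
  · have huC : ∀ x ∈ closure S, (p * α) * x * (p * α)⁻¹ ∈ closure S := by
      intro x hx
      have h1 := hpC p hp _ (hαC x hx)
      have h2 : (p * α) * x * (p * α)⁻¹ = p * (α * x * α⁻¹) * p⁻¹ := by group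
      rwa [h2]
    have h1 := zt_reg0 (by omega : 0 < a) hm hV (closure S) (fun x hx => hA x (hCA hx)) hC2 hu1 huC
      e heC
    rw [hupow] at h1
    apply hee
    calc e = (z * κ * e) * (z * κ)⁻¹ := by rw [h1]; group
      _ = z * (κ * e * κ⁻¹) * z⁻¹ := by group
      _ = e⁻¹ := by rw [hκe, hze]
  · have h1 := zt_reg0 (by omega : 0 < a) hm hV (closure S) (fun x hx => hA x (hCA hx)) hC2 hα hαC
      e heC
    rw [← hκd] at h1
    apply hee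
    calc e = (κ * e) * κ⁻¹ := by rw [h1]; group
      _ = e⁻¹ := hκe

end Pool.Agent.Lib.MP_544bd1_al
end

section

/-!
Theorem Z (paper 287), section 3: (C1).
-/

namespace Pool.Agent.Lib.MP_544bd1_al

open Subgroup

variable {m a : ℕ} {G : Type} [Group G]

/-- **(C1)**: `z ∈ O_{2',2}(N)`.

Proof. `P ≤ N` (`D.le`). In `F := ↥N` (exponent `m * 2 ^ a`: `tw_exp_sub`, `H.tw.hexp`) it is enough
(`InOP.top_iff`, `zt_op_iff`) that `zp m a F z₀ = 1`, `z₀ = ⟨z, _⟩`. Suppose not. Work in `H' = ZH m a F`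
(finite; `zt_sol`, `zt_exp`, `zt_bot`, `zt_rep`). Let `f = zp m a F`, `P' = (P.subgroupOf N).map f`, `α', ρ', p',
z' = ynorm (2 ^ (a - 1)) α' p'` (`ynorm_map`) the images. `zt_minH` for `S = closure {α', ρ', z'}`, `z'`:
`E : ZMinA m r S A z'`. Then apply `ys_C1H` for `A`, `P'`, `α'`, `p'`: the hypotheses on `P'` come from `D`
(`D.sq`, `D.hαP`, `D.cen`) by mapping. `P' ≤ S`: let `K = {x ∈ F | f x ∈ S}` and use `D.le` (for
`K.map F.subtype`): `α, ρ, z ∈ K`. So `hPA`, `hαA` from `E.inv`. `hcl` is `E.cl`. `hPc`: let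
`K = {v : F | f v ∈ S ∧ ∀ x ∈ A, ∀ y ∈ A, f v * (x * y * x⁻¹ * y⁻¹) = x * y * x⁻¹ * y⁻¹ * f v}`: a subgroup of
`F`, containing `z₀` (`E.cz`), and if `v ∈ K`, `s ∈ F`, `f s ∈ S` then `s * v * s⁻¹ ∈ K` (since
`(f s)⁻¹ * (x * y * x⁻¹ * y⁻¹) * f s` is the commutator of `(f s)⁻¹ * x * f s`, `(f s)⁻¹ * y * f s ∈ A`,
`E.inv` for `(f s)⁻¹ ∈ S`). `D.gen'` for `K.map F.subtype` (conjugation by `α`, `ρ` preserves `K`; `z * (ρ * z *
ρ⁻¹)` is in it): `P ≤ K.map F.subtype`. `hne` is `E.ne`. -/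
theorem ys_C1 (H : YG m a G) {P : Subgroup G} {α ρ p : G} (D : YLC m a P α ρ p) :
    ∀ N : Subgroup G, Finite N → Group.IsSolvable N → α ∈ N → ρ ∈ N →
      ynorm (2 ^ (a - 1)) α p ∈ N → InOP m (2 ^ a) N (ynorm (2 ^ (a - 1)) α p) := by
  intro N hfin hsol hαN hρN hzN
  have hPN : P ≤ N := D.le hαN hρN hzN
  have hm := H.hm
  have ha := H.ha
  have hexpF : ∀ x : N, x ^ (m * 2 ^ a) = 1 := tw_exp_sub H.tw.hexp N
  obtain ⟨z₀, hz₀⟩ : ∃ z₀ : N, (z₀ : G) = ynorm (2 ^ (a - 1)) α p := ⟨⟨_, hzN⟩, rfl⟩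
  obtain ⟨α₀, hα₀⟩ : ∃ α₀ : N, (α₀ : G) = α := ⟨⟨_, hαN⟩, rfl⟩
  obtain ⟨ρ₀, hρ₀⟩ : ∃ ρ₀ : N, (ρ₀ : G) = ρ := ⟨⟨_, hρN⟩, rfl⟩
  obtain ⟨p₀, hp₀⟩ : ∃ p₀ : N, (p₀ : G) = p := ⟨⟨_, hPN D.hp⟩, rfl⟩
  have hzn : z₀ = ynorm (2 ^ (a - 1)) α₀ p₀ := by
    apply Subtype.ext
    rw [hz₀]
    have := ynorm_map N.subtype (2 ^ (a - 1)) α₀ p₀
    simp only [Subgroup.coe_subtype] at this
    rw [this, hα₀, hp₀]
  rw [← hz₀, ← InOP.top_iff, zt_op_iff hm hexpF]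
  by_contra hne
  have hsolH : Group.IsSolvable (ZH m a N) := zt_sol hsol
  have hexpH : ∀ x : ZH m a N, x ^ (m * 2 ^ a) = 1 := zt_exp hexpF
  have hbot := zt_bot (a := a) hm hexpF
  have hV : ZRep m a (ZH m a N) := zt_rep hm hsol hexpF
  set f := zp m a N with hf
  set S : Subgroup (ZH m a N) := closure {f α₀, f ρ₀, f z₀} with hS
  have hαS : f α₀ ∈ S := subset_closure (by simp)
  have hρS : f ρ₀ ∈ S := subset_closure (by simp)
  have hzS : f z₀ ∈ S := subset_closure (by simp)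
  have hz2 : (f z₀) ^ 2 = 1 := by
    rw [← map_pow]
    have : z₀ ^ 2 = 1 := by
      apply Subtype.ext
      rw [Subgroup.coe_pow, hz₀, D.z.2.1, Subgroup.coe_one]
    rw [this, map_one]
  obtain ⟨r, A, E⟩ := zt_minH hm hsolH hexpH hbot S hzS hz2 hne
  -- the image of `P` is in `S`
  have hPS : ∀ y : N, (y : G) ∈ P → f y ∈ S := by
    have h1 : P ≤ (S.comap f).map N.subtype :=
      D.le ⟨α₀, hαS, hα₀⟩ ⟨ρ₀, hρS, hρ₀⟩ ⟨z₀, hzS, hz₀⟩
    intro y hy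
    obtain ⟨y', hy', he⟩ := h1 hy
    have : y' = y := Subtype.ext he
    rw [← this]
    exact hy'
  -- the elements commuting with the commutators of `A`
  let K₂ : Subgroup N :=
    { carrier := {v | f v ∈ S ∧ ∀ x ∈ A, ∀ y ∈ A,
        f v * (x * y * x⁻¹ * y⁻¹) = x * y * x⁻¹ * y⁻¹ * f v}
      mul_mem' := by
        rintro u v ⟨h1, h2⟩ ⟨h3, h4⟩
        refine ⟨?_, ?_⟩
        · rw [map_mul]; exact S.mul_mem h1 h3
        · intro x hx y hy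
          rw [map_mul, mul_assoc, h4 x hx y hy, ← mul_assoc, h2 x hx y hy, mul_assoc]
      one_mem' := ⟨by rw [map_one]; exact S.one_mem, by simp⟩
      inv_mem' := by
        rintro u ⟨h1, h2⟩
        refine ⟨?_, ?_⟩
        · rw [map_inv]; exact S.inv_mem h1
        · intro x hx y hy
          have h3 : Commute (f u) (x * y * x⁻¹ * y⁻¹) := h2 x hx y hy
          rw [map_inv]
          exact h3.inv_left.eq }
  have hK₂ : ∀ v : N, v ∈ K₂ ↔ f v ∈ S ∧ ∀ x ∈ A, ∀ y ∈ A,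
      f v * (x * y * x⁻¹ * y⁻¹) = x * y * x⁻¹ * y⁻¹ * f v := fun v => Iff.rfl
  have hconj : ∀ v ∈ K₂, ∀ s : N, f s ∈ S → s * v * s⁻¹ ∈ K₂ := by
    intro v hv s hs
    rw [hK₂] at hv ⊢
    refine ⟨?_, ?_⟩
    · rw [map_mul, map_mul, map_inv]
      exact S.mul_mem (S.mul_mem hs hv.1) (S.inv_mem hs)
    · intro x hx y hy
      have hx' : (f s)⁻¹ * x * f s ∈ A := by
        have := E.inv _ (S.inv_mem hs) x hx
        rwa [inv_inv] at this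
      have hy' : (f s)⁻¹ * y * f s ∈ A := by
        have := E.inv _ (S.inv_mem hs) y hy
        rwa [inv_inv] at this
      have h1 := hv.2 _ hx' _ hy'
      rw [map_mul, map_mul, map_inv]
      have h2 : (f s)⁻¹ * x * f s * ((f s)⁻¹ * y * f s) * ((f s)⁻¹ * x * f s)⁻¹ *
          ((f s)⁻¹ * y * f s)⁻¹ = (f s)⁻¹ * (x * y * x⁻¹ * y⁻¹) * f s := by group
      rw [h2] at h1
      calc f s * f v * (f s)⁻¹ * (x * y * x⁻¹ * y⁻¹)
          = f s * (f v * ((f s)⁻¹ * (x * y * x⁻¹ * y⁻¹) * f s)) * (f s)⁻¹ := by group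
        _ = f s * ((f s)⁻¹ * (x * y * x⁻¹ * y⁻¹) * f s * f v) * (f s)⁻¹ := by rw [h1]
        _ = x * y * x⁻¹ * y⁻¹ * (f s * f v * (f s)⁻¹) := by group
  have hz₀K : z₀ ∈ K₂ := (hK₂ _).2 ⟨hzS, E.cz⟩
  have hPK : ∀ y : N, (y : G) ∈ P → y ∈ K₂ := by
    have h1 : P ≤ K₂.map N.subtype := by
      apply D.gen'
      · rintro _ ⟨v, hv, rfl⟩ _
        exact ⟨α₀ * v * α₀⁻¹, hconj v hv α₀ hαS, by simp [hα₀]⟩
      · rintro _ ⟨v, hv, rfl⟩ _
        exact ⟨ρ₀ * v * ρ₀⁻¹, hconj v hv ρ₀ hρS, by simp [hρ₀]⟩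
      · exact ⟨z₀ * (ρ₀ * z₀ * ρ₀⁻¹), K₂.mul_mem hz₀K (hconj z₀ hz₀K ρ₀ hρS), by
          simp [hρ₀, hz₀]⟩
    intro y hy
    obtain ⟨y', hy', he⟩ := h1 hy
    have : y' = y := Subtype.ext he
    rw [← this]
    exact hy'
  have hfz : f z₀ = ynorm (2 ^ (a - 1)) (f α₀) (f p₀) := by
    rw [← ynorm_map, ← hzn]
  refine ys_C1H ha hm hV (A := A) (P := (P.subgroupOf N).map f) (α := f α₀) (p := f p₀)
    ?_ ?_ ?_ ?_ ?_ E.odd (E.inv _ hαS) ?_ E.cl ?_ ?_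
  · rw [← map_pow]
    have : α₀ ^ (2 ^ a) = 1 := by
      apply Subtype.ext
      rw [Subgroup.coe_pow, hα₀, D.hα, Subgroup.coe_one]
    rw [this, map_one]
  · rintro _ ⟨y, hy, rfl⟩
    rw [← map_pow]
    have : y ^ 2 = 1 := by
      apply Subtype.ext
      rw [Subgroup.coe_pow, D.sq _ (Subgroup.mem_subgroupOf.1 hy), Subgroup.coe_one]
    rw [this, map_one]
  · rintro _ ⟨y, hy, rfl⟩
    refine ⟨α₀ * y * α₀⁻¹, ?_, by simp⟩
    have h1 := D.hαP _ (Subgroup.mem_subgroupOf.1 hy)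
    refine Subgroup.mem_subgroupOf.2 ?_
    simpa [hα₀] using h1
  · exact ⟨p₀, Subgroup.mem_subgroupOf.2 (by rw [hp₀]; exact D.hp), rfl⟩
  · rintro _ ⟨y, hy, rfl⟩
    rw [← map_pow, ← map_mul, ← map_mul]
    congr 1
    apply Subtype.ext
    have h1 := D.cen _ (Subgroup.mem_subgroupOf.1 hy)
    simpa [hα₀] using h1
  · rintro _ ⟨y, hy, rfl⟩
    exact E.inv _ (hPS y (Subgroup.mem_subgroupOf.1 hy))
  · rintro _ ⟨v, hv, rfl⟩
    exact ((hK₂ v).1 (hPK v (Subgroup.mem_subgroupOf.1 hv))).2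
  · rw [← hfz]
    exact E.ne

end Pool.Agent.Lib.MP_544bd1_al
end

section

/-!
Theorem Z3, Case B: the configuration (B) exists.
-/

namespace Pool.Agent.Lib.MP_544bd1_al

open Subgroup

theorem ZMinB.ev {r : ℕ} {F : Type} [Group F] {Q R : Subgroup F} {g : F}
    (D : ZMinB r Q R g) : EvMin r 3 Q R g :=
  ⟨D.core.hQ, D.core.hR, D.hg, D.core.hxR, D.gen, D.core.ne, D.core.min⟩

/-- the primes -/
theorem zt_r37 {m r : ℕ} (hm : Odd m) {F : Type} [Group F] [Finite F]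
    (hexp : ∀ x : F, x ^ (m * 2 ^ 3) = 1) (hr : r.Prime) (hr2 : r ≠ 2) {Q R : Subgroup F}
    [Q.Normal] {g : F} (D : ZMinB r Q R g) : r = 3 ∨ r = 7 := by
  obtain ⟨j, s, hj1, hj2, hs, h⟩ := ev_nonexc hr hr2 (by norm_num) hm hexp Q R D.ev
  have hs1 := tw_mersenne hr hr2 hs h
  subst hs1
  rw [pow_one] at h
  interval_cases j
  · have h1 : r = 1 := by omega
    exact absurd h1 hr.one_lt.ne'
  · left
    omega
  · right
    omega

theorem zb_der {F : Type} [Group F] {Q R : Subgroup F} [hQn : Q.Normal] {V : Type}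
    [AddCommGroup V] [Module (ZMod 2) V] {τ : F →* Module.End (ZMod 2) V} {φ : Q → V}
    (M : ZMd Q R τ φ) : ∀ c ∈ ⁅Q, Q⁆, ∃ h : c ∈ Q, φ ⟨c, h⟩ = 0 := by
  have hφ1 : φ 1 = 0 := by
    have h1 := M.add 1 1
    rw [mul_one] at h1
    exact left_eq_add.1 h1
  let Z₀ : Subgroup F :=
    { carrier := {c | ∃ h : c ∈ Q, φ ⟨c, h⟩ = 0}
      mul_mem' := by
        rintro a b ⟨ha, ha'⟩ ⟨hb, hb'⟩
        refine ⟨Q.mul_mem ha hb, ?_⟩
        have h1 := M.add ⟨a, ha⟩ ⟨b, hb⟩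
        rw [ha', hb', add_zero] at h1
        exact h1
      one_mem' := ⟨Q.one_mem, hφ1⟩
      inv_mem' := by
        rintro a ⟨ha, ha'⟩
        refine ⟨Q.inv_mem ha, ?_⟩
        have h1 := M.add ⟨a, ha⟩ ⟨a, ha⟩⁻¹
        rw [mul_inv_cancel, hφ1, ha', zero_add] at h1
        exact h1.symm }
  have h1 : ⁅Q, Q⁆ ≤ Z₀ := by
    rw [commutator_le]
    intro a ha b hb
    refine ⟨Q.mul_mem (Q.mul_mem (Q.mul_mem ha hb) (Q.inv_mem ha)) (Q.inv_mem hb), ?_⟩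
    have h2 : φ (⟨a, ha⟩ * ⟨b, hb⟩) =
        φ (⟨a * b * a⁻¹ * b⁻¹, Q.mul_mem (Q.mul_mem (Q.mul_mem ha hb) (Q.inv_mem ha))
          (Q.inv_mem hb)⟩ * (⟨b, hb⟩ * ⟨a, ha⟩)) := by
      congr 1
      apply Subtype.ext
      show a * b = a * b * a⁻¹ * b⁻¹ * (b * a)
      group
    rw [M.add, M.add, M.add, add_comm (φ ⟨a, ha⟩)] at h2
    exact right_eq_add.1 h2
  intro c hc
  exact h1 hc

theorem zb_cQ {F : Type} [Group F] {Q R : Subgroup F} [hQn : Q.Normal] {V : Type}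
    [AddCommGroup V] [Module (ZMod 2) V] {τ : F →* Module.End (ZMod 2) V} {φ : Q → V}
    (M : ZMd Q R τ φ) {c : F} (hc : ∀ q ∈ Q, c * q = q * c) : τ c = 1 := by
  apply LinearMap.ext
  intro v
  obtain ⟨y, rfl⟩ := M.surj v
  rw [← M.eqv, Module.End.one_apply]
  congr 1
  apply Subtype.ext
  show c * y * c⁻¹ = y
  rw [hc y y.2, mul_inv_cancel_right]

/-- **The configuration (B) exists** -/
theorem zt_cfgB {m r : ℕ} (hm : Odd m) {F : Type} [Group F] [Finite F]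
    (hexp : ∀ x : F, x ^ (m * 2 ^ 3) = 1) (hr : r.Prime) (hr2 : r ≠ 2) {Q R : Subgroup F}
    [hQn : Q.Normal] {g : F} (D : ZMinB r Q R g) : ∃ g' u w : F, ZBc g' u w := by
  have hr37 := zt_r37 hm hexp hr hr2 D
  obtain ⟨V, _, _, _, τ, φ, h1, h2, h3, h4, h5⟩ := zt_module hr hr2 Q R D.core
  have M : ZMd Q R τ φ := ⟨h1, h2, h3, h4, h5⟩
  obtain ⟨s, S⟩ := zt_Rb hm hexp hr37 D M
  obtain ⟨K, _, ι, θ, q, β, Z⟩ := zt_quad hr hr2 D.core M
  obtain ⟨-, irr2, -, -⟩ := zt_irr hr hr2 D.core M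
  have hx1 := zb_x1 hr hr2 D M
  have hι0 : ι 0 = 1 := by
    have h1 := Z.ιadd 0 0
    rw [add_zero] at h1
    exact left_eq_mul.1 h1
  obtain ⟨w, hw, hwQ⟩ := zt_W hm hexp hr hr2 D M S Q.one_mem
  rw [one_mul] at hw hwQ
  by_cases hx : ∀ c ∈ ⁅Q, Q⁆, g ^ 4 * c = c * g ^ 4
  · by_cases hne : ∃ v w, β v w ≠ 0
    · exact zt_B4 hm hexp hr37 D M S Z hx hne
    · push Not at hne
      have hQQ : ⁅Q, Q⁆ = ⊥ := by
        rw [eq_bot_iff, commutator_le]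
        intro a ha b hb
        have h6 := Z.hβ ⟨a, ha⟩ ⟨b, hb⟩
        rw [hne, hι0] at h6
        rw [mem_bot]
        exact h6.symm
      have hQ2 : ∀ a ∈ Q, a ^ 2 = 1 := by
        intro a ha
        have h6 : φ (⟨a, ha⟩ * ⟨a, ha⟩) = 0 := by
          rw [M.add]
          exact ZModModule.add_self _
        have h7 := (irr2 _ h6).1
        rw [hQQ, mem_bot] at h7
        rw [pow_two]
        exact h7
      obtain ⟨u, hu⟩ := zt_B2 D.hg Q le_rfl hQ2 (fun a ha => hQn.conj_mem a ha g) (by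
        by_contra hcon
        push Not at hcon
        exact hx1 (zb_cQ M hcon)) hw hwQ
      exact ⟨g, u, w, hu⟩
  · push Not at hx
    have hle : ⁅Q, Q⁆ ≤ Q := fun c hc => (zb_der M c hc).1
    have hnorm : (⁅Q, Q⁆ : Subgroup F).Normal := Subgroup.commutator_normal Q Q
    obtain ⟨u, hu⟩ := zt_B2 D.hg ⁅Q, Q⁆ hle (by
      intro c hc
      obtain ⟨hcQ, hc0⟩ := zb_der M c hc
      exact (irr2 _ hc0).2) (fun a ha => hnorm.conj_mem a ha g) hx hw hwQ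
    exact ⟨g, u, w, hu⟩

end Pool.Agent.Lib.MP_544bd1_al
end

section

/-!
Theorem Z (paper 287), section 3: (C2).
-/

namespace Pool.Agent.Lib.MP_544bd1_al

open Subgroup

variable {m a : ℕ} {G : Type} [Group G]

/-- an element whose square is in a subgroup and whose order is odd is in the subgroup -/
private theorem zsc2_sq (hm : Odd m) {K : Subgroup G} {ρ : G} (hρ : ρ ^ m = 1)
    (h : ρ ^ 2 ∈ K) : ρ ∈ K := by
  obtain ⟨j, hj⟩ := hm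
  have h1 : ρ = (ρ ^ 2) ^ (j + 1) := by
    rw [← pow_mul, show 2 * (j + 1) = m + 1 by omega, pow_succ, hρ, one_mul]
  rw [h1]
  exact K.pow_mem h _

/-- inverses of elements of finite order normalizing `P` -/
private theorem zsc2_norm {P : Subgroup G} {g : G} (h : ∀ x ∈ P, g * x * g⁻¹ ∈ P) {k : ℕ}
    (hk : 0 < k) (hg : g ^ k = 1) : g ∈ Subgroup.normalizer (P : Set G) := by
  rw [Subgroup.mem_normalizer_iff]
  intro x
  constructor
  · exact h x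
  · intro hx
    have h1 := ys_pow_mem h (k - 1) _ hx
    have h2 : g ^ (k - 1) * g = 1 := by
      rw [← pow_succ, Nat.sub_add_cancel hk, hg]
    have h3 : g ^ (k - 1) * (g * x * g⁻¹) * (g ^ (k - 1))⁻¹ = x := by
      have h4 : g ^ (k - 1) = g⁻¹ := eq_inv_of_mul_eq_one_left h2
      rw [h4]
      group
    rwa [h3] at h1

/-- `⟨p * α, (p * α) ^ ρ⟩` contains `P` and `ρ` (so also `α`).

Proof. Let `x = p * α`, `L = closure {x, ρ⁻¹ * x * ρ}`, `y = α ^ (2 ^ (a - 2))`,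
`w = ynorm (2 ^ (a - 2)) α p ∈ P`, `x ^ (2 ^ (a - 2)) = w * y` (`ynorm_pow`), `κ = α ^ (2 ^ (a - 1))`,
`x ^ (2 ^ (a - 1)) = z * κ` (`D.κ`).
(1) `α` normalizes `P`, so `α⁻¹` does (`α` has finite order, or `P` is finite), the same for `ρ`. Let
`K = P ⊔ L` (or the set of products `π * h`; `L` normalizes `P`, since `p * α` and `ρ⁻¹ * (p * α) * ρ` and their
inverses do, so `K = P * L`, `Subgroup.mem_sup` with `normalizer`).
(2) `ρ ∈ K`: `(w * y)⁻¹ * (ρ⁻¹ * (w * y) * ρ) ∈ L` is `(y⁻¹ * (w⁻¹ * (ρ⁻¹ * w * ρ)) * y) * ρ ^ 2` because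
`y⁻¹ * ρ⁻¹ * y = ρ` (from `D.inv`). So `ρ ^ 2 ∈ K` (its first factor is in `P`), and `ρ ∈ K`
(`ρ ^ m = 1`, `m` odd: `tw_mem_of_pow` or `ρ = (ρ ^ 2) ^ ((m + 1) / 2)`). `α = p⁻¹ * x ∈ K`.
(3) `B = L ⊓ P` is normalized by `K = P * L`: for `π ∈ P`, `h ∈ L`, `b ∈ B`: `h * b * h⁻¹ ∈ B`, and `P` is
commutative. So it is normalized by `α` and `ρ`.
(4) `z * (ρ * z * ρ⁻¹) ∈ B`: `ρ = π * h` (`π ∈ P`, `h ∈ L`), so `ρ * z * ρ⁻¹ = h * z * h⁻¹` (`h * z * h⁻¹ ∈ P`,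
`P` commutative). `z * κ ∈ L`, so `(z * κ) * h * (z * κ)⁻¹ * h⁻¹ ∈ L`, and it is `z * h * z⁻¹ * h⁻¹ =
z * (h * z * h⁻¹)` because `κ` commutes with `h` (`κ` commutes with `p`, `α`, `ρ`, `D.κ`, so with `L`) and
with `z`, `z⁻¹ = z`.
(5) `D.gen'` for `K := L` (conjugation of elements of `L ⊓ P` by `α`, `ρ`): `P ≤ L`, so `ρ ∈ P * L = L`. -/
theorem ys_C2L (H : YG m a G) {P : Subgroup G} {α ρ p : G} (D : YLC m a P α ρ p) :
    P ≤ closure {p * α, ρ⁻¹ * (p * α) * ρ} ∧ ρ ∈ closure {p * α, ρ⁻¹ * (p * α) * ρ} := by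
  have ha := H.ha
  have hm := H.hm
  set L : Subgroup G := closure {p * α, ρ⁻¹ * (p * α) * ρ} with hL
  set z := ynorm (2 ^ (a - 1)) α p with hz
  set κ := α ^ (2 ^ (a - 1)) with hκ
  obtain ⟨hκ2, hκρ, hxκ, -⟩ := D.κ (by omega)
  obtain ⟨hzP, hz2, hαz⟩ := D.z
  have hxL : p * α ∈ L := subset_closure (by simp)
  have hx'L : ρ⁻¹ * (p * α) * ρ ∈ L := subset_closure (by simp)
  have hPc := ys_comm D.sq
  have hαN : α ∈ Subgroup.normalizer (P : Set G) := zsc2_norm D.hαP (by positivity) D.hα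
  have hρN : ρ ∈ Subgroup.normalizer (P : Set G) := zsc2_norm D.hρP hm.pos D.hρ
  have hPN : P ≤ Subgroup.normalizer (P : Set G) := Subgroup.le_normalizer
  have hLN : L ≤ Subgroup.normalizer (P : Set G) := by
    rw [hL, closure_le]
    rintro g (rfl | rfl)
    · exact mul_mem (hPN D.hp) hαN
    · exact mul_mem (mul_mem (inv_mem hρN) (mul_mem (hPN D.hp) hαN)) hρN
  have hNm : ∀ g ∈ Subgroup.normalizer (P : Set G), ∀ x ∈ P, g * x * g⁻¹ ∈ P := by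
    intro g hg x hx
    exact (Subgroup.mem_normalizer_iff.1 hg x).1 hx
  have hNi : ∀ g ∈ Subgroup.normalizer (P : Set G), ∀ x ∈ P, g⁻¹ * x * g ∈ P := by
    intro g hg x hx
    have h1 := hNm g⁻¹ (inv_mem hg) x hx
    rwa [inv_inv] at h1
  -- the group `K = P * L`
  let K : Subgroup G :=
    { carrier := {g | ∃ q ∈ P, ∃ h ∈ L, g = q * h}
      mul_mem' := by
        rintro _ _ ⟨q, hq, h, hh, rfl⟩ ⟨q', hq', h', hh', rfl⟩
        refine ⟨q * (h * q' * h⁻¹), P.mul_mem hq (hNm h (hLN hh) q' hq'), h * h',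
          L.mul_mem hh hh', ?_⟩
        group
      one_mem' := ⟨1, P.one_mem, 1, L.one_mem, by simp⟩
      inv_mem' := by
        rintro _ ⟨q, hq, h, hh, rfl⟩
        refine ⟨h⁻¹ * q⁻¹ * h, hNi h (hLN hh) _ (P.inv_mem hq), h⁻¹, L.inv_mem hh, ?_⟩
        group }
  have hPK : P ≤ K := fun q hq => ⟨q, hq, 1, L.one_mem, by simp⟩
  have hLK : L ≤ K := fun h hh => ⟨1, P.one_mem, h, hh, by simp⟩
  -- `ρ ∈ K`
  have hρK : ρ ∈ K := by
    set y := α ^ (2 ^ (a - 2)) with hy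
    set w := ynorm (2 ^ (a - 2)) α p with hw
    have hwP : w ∈ P := ynorm_mem D.hαP D.hp _
    have hwy : (p * α) ^ (2 ^ (a - 2)) = w * y := ynorm_pow _ _ _
    have hwyL : w * y ∈ L := by rw [← hwy]; exact L.pow_mem hxL _
    have hwyL' : ρ⁻¹ * (w * y) * ρ ∈ L := by
      rw [← hwy]
      have h1 : ρ⁻¹ * (p * α) ^ (2 ^ (a - 2)) * ρ = (ρ⁻¹ * (p * α) * ρ) ^ (2 ^ (a - 2)) := by
        have h2 := conj_pow (a := ρ⁻¹) (b := p * α) (i := 2 ^ (a - 2))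
        rw [inv_inv] at h2
        exact h2.symm
      rw [h1]
      exact L.pow_mem hx'L _
    have h1 : (w * y)⁻¹ * (ρ⁻¹ * (w * y) * ρ) ∈ L := L.mul_mem (L.inv_mem hwyL) hwyL'
    have hyρ : ρ * y * ρ = y := by
      have h2 : y * ρ = ρ⁻¹ * y := by
        calc y * ρ = y * ρ * y⁻¹ * y := by group
          _ = ρ⁻¹ * y := by rw [D.inv]
      rw [mul_assoc, h2, mul_inv_cancel_left]
    have h2 : (w * y)⁻¹ * (ρ⁻¹ * (w * y) * ρ) =
        (y⁻¹ * (w⁻¹ * (ρ⁻¹ * w * ρ)) * y) * ρ ^ 2 := by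
      calc (w * y)⁻¹ * (ρ⁻¹ * (w * y) * ρ) = y⁻¹ * w⁻¹ * ρ⁻¹ * w * y * ρ := by group
        _ = y⁻¹ * w⁻¹ * ρ⁻¹ * w * (ρ * y * ρ) * ρ := by rw [hyρ]
        _ = (y⁻¹ * (w⁻¹ * (ρ⁻¹ * w * ρ)) * y) * ρ ^ 2 := by rw [pow_two]; group
    rw [h2] at h1
    have hyN : y ∈ Subgroup.normalizer (P : Set G) := pow_mem hαN _
    have h3 : y⁻¹ * (w⁻¹ * (ρ⁻¹ * w * ρ)) * y ∈ P :=
      hNi y hyN _ (P.mul_mem (P.inv_mem hwP) (hNi ρ hρN w hwP))
    have h4 : ρ ^ 2 ∈ K := by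
      have h5 := K.mul_mem (K.inv_mem (hPK h3)) (hLK h1)
      rwa [inv_mul_cancel_left] at h5
    exact zsc2_sq hm D.hρ h4
  have hαK : α ∈ K := by
    have h1 := K.mul_mem (K.inv_mem (hPK D.hp)) (hLK hxL)
    rwa [inv_mul_cancel_left] at h1
  -- `L ⊓ P` is normalized by `K`
  have hB : ∀ g ∈ K, ∀ x ∈ P, x ∈ L → g * x * g⁻¹ ∈ L := by
    rintro _ ⟨q, hq, h, hh, rfl⟩ x hx hxL
    have h1 : h * x * h⁻¹ ∈ P := hNm h (hLN hh) x hx
    have h2 : q * h * x * (q * h)⁻¹ = h * x * h⁻¹ := by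
      calc q * h * x * (q * h)⁻¹ = q * (h * x * h⁻¹) * q⁻¹ := by group
        _ = (h * x * h⁻¹) * q * q⁻¹ := by rw [hPc q hq _ h1]
        _ = h * x * h⁻¹ := by group
    rw [h2]
    exact L.mul_mem (L.mul_mem hh hxL) (L.inv_mem hh)
  -- `κ` centralizes `L`
  have hκL : ∀ h ∈ L, κ * h = h * κ := by
    intro h hh
    have h1 : L ≤ centralizer {κ} := by
      have h2 : κ * (p * α) = p * α * κ := by
        have h3 := D.cen p D.hp
        have h4 : κ * α = α * κ := by rw [hκ]; exact (pow_mul_comm' α _)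
        rw [← mul_assoc, h3, mul_assoc, h4, ← mul_assoc]
      have h2' : p * α ∈ centralizer {κ} := by
        rw [mem_centralizer_singleton_iff]; exact h2.symm
      have h3' : ρ ∈ centralizer {κ} := by
        rw [mem_centralizer_singleton_iff]; exact hκρ.symm
      rw [hL, closure_le]
      rintro g (rfl | rfl)
      · exact h2'
      · exact mul_mem (mul_mem (inv_mem h3') h2') h3'
    exact (mem_centralizer_singleton_iff.1 (h1 hh)).symm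
  have hzκL : z * κ ∈ L := by
    rw [← hxκ]; exact L.pow_mem hxL _
  have h3 : z * (ρ * z * ρ⁻¹) ∈ L := by
    obtain ⟨q, hq, h, hh, hρe⟩ := hρK
    have h1 : h * z * h⁻¹ ∈ P := hNm h (hLN hh) z hzP
    have h2 : ρ * z * ρ⁻¹ = h * z * h⁻¹ := by
      rw [hρe]
      calc q * h * z * (q * h)⁻¹ = q * (h * z * h⁻¹) * q⁻¹ := by group
        _ = (h * z * h⁻¹) * q * q⁻¹ := by rw [hPc q hq _ h1]
        _ = h * z * h⁻¹ := by group
    have h4 : (z * κ) * h * (z * κ)⁻¹ * h⁻¹ ∈ L :=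
      L.mul_mem (L.mul_mem (L.mul_mem hzκL hh) (L.inv_mem hzκL)) (L.inv_mem hh)
    have hzi : z⁻¹ = z := inv_eq_of_mul_eq_one_left (by rw [← pow_two]; exact hz2)
    have h5 : (z * κ) * h * (z * κ)⁻¹ * h⁻¹ = z * (h * z * h⁻¹) := by
      calc (z * κ) * h * (z * κ)⁻¹ * h⁻¹ = z * (κ * h) * κ⁻¹ * z⁻¹ * h⁻¹ := by group
        _ = z * (h * κ) * κ⁻¹ * z⁻¹ * h⁻¹ := by rw [hκL h hh]
        _ = z * (h * z⁻¹ * h⁻¹) := by group
        _ = z * (h * z * h⁻¹) := by rw [hzi]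
    rw [h2, ← h5]
    exact h4
  have hPL : P ≤ L := D.gen' L (fun x hx hxP => hB α hαK x hxP hx)
    (fun x hx hxP => hB ρ hρK x hxP hx) h3
  refine ⟨hPL, ?_⟩
  obtain ⟨q, hq, h, hh, hρe⟩ := hρK
  rw [hρe]
  exact L.mul_mem (hPL hq) hh

/-- **(C2)**

Proof. (a) `zt_NS` (`H.tw`, `H.hm`, `H.noO`) with `x := α`, `w := ρ`, `z`: `ρ ∈ closure {α, ρ⁻¹ * α * ρ}`: with
`y = α ^ (2 ^ (a - 2))` the element `y⁻¹ * (ρ⁻¹ * y * ρ) = ρ ^ 2` (by `D.inv`: `y⁻¹ * ρ⁻¹ * y = ρ`) is in it, and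
`ρ` is a power of `ρ ^ 2` (`ρ ^ m = 1`, `m` odd). `D.z`. `hfin`: `ys_C1`.
(b) `zt_NS` with `x := p * α`, `w := ρ`: `(p * α) ^ (2 ^ a) = 1` (`D.κ`), `ρ ∈ closure {..}`: `ys_C2L`; `p * α`
commutes with `z` (`D.z`, `ys_comm D.sq`); `hfin`: if `p * α, ρ, z ∈ N` then `closure {p * α, ρ⁻¹ * (p * α) * ρ} ≤ N`,
so `P ≤ N` by `ys_C2L`, `p ∈ N`, `α ∈ N`, and `ys_C1` applies. -/
theorem ys_C2 (H : YG m a G) {P : Subgroup G} {α ρ p : G} (D : YLC m a P α ρ p) {s : G}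
    (hs : s ^ m = 1)
    (hzs : ynorm (2 ^ (a - 1)) α p * s * (ynorm (2 ^ (a - 1)) α p)⁻¹ = s⁻¹) :
    (α * s = s * α → s = 1) ∧ (p * α * s = s * (p * α) → s = 1) := by
  have ha := H.ha
  have hm := H.hm
  set z := ynorm (2 ^ (a - 1)) α p with hz
  obtain ⟨hκ2, hκρ, hxκ, hx2⟩ := D.κ (by omega)
  obtain ⟨hzP, hz2, hαz⟩ := D.z
  constructor
  · intro hαs
    refine zt_NS H.tw hm H.noO D.hα (w := ρ) ?_ hαz hz2 ?_ hs hαs hzs
    · set y := α ^ (2 ^ (a - 2)) with hy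
      set L : Subgroup G := closure {α, ρ⁻¹ * α * ρ} with hL
      have h1 : α ∈ L := subset_closure (by simp)
      have h2 : ρ⁻¹ * α * ρ ∈ L := subset_closure (by simp)
      have h3 : ρ⁻¹ * y * ρ ∈ L := by
        have h4 : ρ⁻¹ * y * ρ = (ρ⁻¹ * α * ρ) ^ (2 ^ (a - 2)) := by
          have h5 := conj_pow (a := ρ⁻¹) (b := α) (i := 2 ^ (a - 2))
          rw [inv_inv] at h5
          exact h5.symm
        rw [h4]
        exact L.pow_mem h2 _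
      have h4 : y⁻¹ * (ρ⁻¹ * y * ρ) ∈ L := L.mul_mem (L.inv_mem (L.pow_mem h1 _)) h3
      have hyρ : ρ⁻¹ * y = y * ρ := by
        calc ρ⁻¹ * y = y * ρ * y⁻¹ * y := by rw [D.inv]
          _ = y * ρ := by group
      have h5 : y⁻¹ * (ρ⁻¹ * y * ρ) = ρ ^ 2 := by
        rw [hyρ, pow_two]
        group
      rw [h5] at h4
      exact zsc2_sq hm D.hρ h4
    · intro N hfin hsol hxN hwN hzN
      exact ys_C1 H D N hfin hsol hxN hwN hzN
  · intro hαs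
    obtain ⟨hPL, hρL⟩ := ys_C2L H D
    have hpz : p * α * z = z * (p * α) := by
      rw [mul_assoc, hαz, ← mul_assoc, ys_comm D.sq p D.hp z hzP, mul_assoc]
    refine zt_NS H.tw hm H.noO hx2 (w := ρ) hρL hpz hz2 ?_ hs hαs hzs
    intro N hfin hsol hxN hwN hzN
    have hLN : closure {p * α, ρ⁻¹ * (p * α) * ρ} ≤ N := by
      rw [closure_le]
      rintro g (rfl | rfl)
      · exact hxN
      · exact N.mul_mem (N.mul_mem (N.inv_mem hwN) hxN) hwN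
    have hpN : p ∈ N := hLN (hPL D.hp)
    have hαN : α ∈ N := by
      have h1 := N.mul_mem (N.inv_mem hpN) hxN
      rwa [inv_mul_cancel_left] at h1
    exact ys_C1 H D N hfin hsol hαN hwN hzN

end Pool.Agent.Lib.MP_544bd1_al
end
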