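import Mathlib
import Pool.Agent.Lib.MP_544bd1_al.ZsLftN
import Pool.Agent.Lib.MP_544bd1_al.ZsWt
import Pool.Agent.Lib.MP_544bd1_al.ZsC0
import Pool.Agent.Lib.MP_544bd1_al.ZsC4
import Pool.Agent.Lib.MP_544bd1_al.ZsBuv
import Pool.Agent.Lib.MP_544bd1_al.ZsBRb
import Pool.Agent.Lib.MP_544bd1_al.ZtB4
import Pool.Agent.Lib.MP_544bd1_al.ZsC2
import Pool.Agent.Lib.MP_544bd1_al.TwS2

section

/-!
General even exponents, section 2 (the base): the forms on `V`, if `x = g ^ (2 ^ (a - 1))` centralizes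
`⁅Q, Q⁆`.
-/

namespace Pool.Agent.Lib.MP_544bd1_al

open Subgroup

/-- **The forms.** Proof. `x` acts trivially on `K` (`hx`, `Z.ιQ`, `Z.ιθ`, `Z.inj`) and `τ x * τ x = 1`
(`D.hg`, `0 < a`), so `β (τ x v) w = β (τ x v) (τ x (τ x w)) = β v (τ x w)` (`Z.βθ`). `F v = β v (τ x v)` is
additive: `F (v + w) = F v + F w + β v (τ x w) + β w (τ x v)` and `β w (τ x v) = β (τ x v) w = β v (τ x w)`, the
sum of the two is zero (`Z.two`). For `c = b * c * b⁻¹ * c⁻¹` a commutator in `R`: `F (τ c v) =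
β (τ c v) (τ x (τ c v)) = β (τ c v) (τ c (τ x v)) = F v` (`S.cx`, `Z.βθ`, `Z.θR`). So `F = 0` (`zs_av`,
`U = ⊤`). `q (v + τ x v) = q v + q (τ x v) + F v = q v + q v = 0` (`Z.qa`, `Z.qθ`). If `τ x w = w`:
`β (v + τ x v) w = β v w + β (τ x v) w = β v w + β v (τ x w) = 0`. -/
theorem zs_form {F : Type} [Group F] [Finite F] {r a : ℕ} (ha : 0 < a) (hr : r.Prime) (hr2 : r ≠ 2)
    {Q R : Subgroup F} [Q.Normal] {g s : F} (D : ZsMin r a Q R g) {V : Type} [AddCommGroup V]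
    [Module (ZMod 2) V] [Finite V] {τ : F →* Module.End (ZMod 2) V} {φ : Q → V}
    (S : ZsRb r a R g s τ) {K : Type} [AddCommGroup K]
    {ι : K → F} {θ : F → K → K} {q : V → K} {β : V → V → K} (Z : ZQuad Q R τ φ ι θ q β)
    (hx : ∀ c ∈ ⁅Q, Q⁆, g ^ (2 ^ (a - 1)) * c = c * g ^ (2 ^ (a - 1))) :
    (∀ v w, β (τ (g ^ (2 ^ (a - 1))) v) w = β v (τ (g ^ (2 ^ (a - 1))) w)) ∧
      (∀ v, q (v + τ (g ^ (2 ^ (a - 1))) v) = 0) ∧
      (∀ v w, τ (g ^ (2 ^ (a - 1))) w = w → β (v + τ (g ^ (2 ^ (a - 1))) v) w = 0) ∧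
      (∀ k, θ (g ^ (2 ^ (a - 1))) k = k) := by
  obtain ⟨x, hxd⟩ : ∃ x : F, x = g ^ (2 ^ (a - 1)) := ⟨_, rfl⟩
  have hxx : x * x = 1 := by
    rw [hxd, ← pow_add, ← two_mul, ← pow_succ', Nat.sub_add_cancel ha]
    exact D.hg
  have hcx := S.cx
  rw [← hxd] at hx hcx ⊢
  have hτx : ∀ v, τ x (τ x v) = v := by
    intro v
    rw [← Module.End.mul_apply, ← map_mul, hxx, map_one, Module.End.one_apply]
  have hθ : ∀ k, θ x k = k := by
    intro k
    apply Z.inj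
    rw [Z.ιθ, hx _ (Z.ιQ k), mul_inv_cancel_right]
  have h1 : ∀ v w, β (τ x v) w = β v (τ x w) := by
    intro v w
    have h := Z.βθ x v (τ x w)
    rw [hτx, hθ] at h
    exact h
  have hF : ∀ v : V, β v (τ x v) = 0 := by
    intro v
    refine zs_av hr hr2 D.core.hR S (⊤ : AddSubgroup V) (fun b _ c _ v _ => AddSubgroup.mem_top _)
      (fun v => β v (τ x v)) (fun v _ => Z.two _) ?_ ?_ v (AddSubgroup.mem_top _)
    · intro v _ w _
      have h2 : β w (τ x v) = β v (τ x w) := by rw [Z.βs w (τ x v), h1]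
      have h3 := Z.two (β v (τ x w))
      show β (v + w) (τ x (v + w)) = β v (τ x v) + β w (τ x w)
      rw [map_add, Z.βl, Z.βr, Z.βr, h2]
      calc β v (τ x v) + β v (τ x w) + (β v (τ x w) + β w (τ x w))
          = β v (τ x v) + (β v (τ x w) + β v (τ x w)) + β w (τ x w) := by abel
        _ = β v (τ x v) + β w (τ x w) := by rw [h3, add_zero]
    · intro b hb c hc v _
      have hd : b * c * b⁻¹ * c⁻¹ ∈ R :=
        R.mul_mem (R.mul_mem (R.mul_mem hb hc) (R.inv_mem hb)) (R.inv_mem hc)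
      have h2 : τ x (τ (b * c * b⁻¹ * c⁻¹) v) = τ (b * c * b⁻¹ * c⁻¹) (τ x v) := by
        rw [← Module.End.mul_apply, ← map_mul, hcx b hb c hc, map_mul, Module.End.mul_apply]
      show β (τ (b * c * b⁻¹ * c⁻¹) v) (τ x (τ (b * c * b⁻¹ * c⁻¹) v)) = β v (τ x v)
      rw [h2, Z.βθ, Z.θR _ hd]
  refine ⟨h1, ?_, ?_, hθ⟩
  · intro v
    rw [Z.qa, Z.qθ, hθ, hF, add_zero, Z.two]
  · intro v w hw
    rw [Z.βl, h1, hw, Z.two]

/-- `K` is generated by the values of `β`. Proof. `K' = closure {β v w}`; the `c ∈ F` of the form `ι k`,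
`k ∈ K'`, form a subgroup (`Z.ιadd`; `ι 0 = 1`; the inverse: `k + k = 0`) containing the commutators of
elements of `Q` (`Z.hβ`), so `⁅Q, Q⁆`; so `ι k = ι k'` with `k' ∈ K'` (`Z.ιQ`), `k = k'` (`Z.inj`). -/
theorem zs_gen {F : Type} [Group F] {Q R : Subgroup F} {V : Type} [AddCommGroup V]
    [Module (ZMod 2) V] {τ : F →* Module.End (ZMod 2) V} {φ : Q → V}
    {K : Type} [AddCommGroup K] {ι : K → F} {θ : F → K → K} {q : V → K} {β : V → V → K}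
    (Z : ZQuad Q R τ φ ι θ q β) (k : K) : k ∈ AddSubgroup.closure {c | ∃ v w, c = β v w} := by
  have hι0 : ι 0 = 1 := by
    have h1 := Z.ιadd 0 0
    rw [add_zero] at h1
    exact left_eq_mul.1 h1
  obtain ⟨M, hM⟩ : ∃ M : Subgroup F, ∀ c, c ∈ M ↔
      ∃ k ∈ AddSubgroup.closure {c | ∃ v w, c = β v w}, c = ι k :=
    ⟨{ carrier := {c | ∃ k ∈ AddSubgroup.closure {c | ∃ v w, c = β v w}, c = ι k}
       mul_mem' := by
         rintro _ _ ⟨k, hk, rfl⟩ ⟨l, hl, rfl⟩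
         exact ⟨k + l, AddSubgroup.add_mem _ hk hl, (Z.ιadd k l).symm⟩
       one_mem' := ⟨0, AddSubgroup.zero_mem _, hι0.symm⟩
       inv_mem' := by
         rintro _ ⟨k, hk, rfl⟩
         refine ⟨k, hk, ?_⟩
         rw [inv_eq_iff_mul_eq_one, ← Z.ιadd, Z.two, hι0] }, fun c => Iff.rfl⟩
  have hQM : (⁅Q, Q⁆ : Subgroup F) ≤ M := by
    rw [Subgroup.commutator_le]
    intro b hb c hc
    rw [hM]
    refine ⟨β (φ ⟨b, hb⟩) (φ ⟨c, hc⟩), AddSubgroup.subset_closure ⟨_, _, rfl⟩, ?_⟩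
    rw [Z.hβ, commutatorElement_def]
  obtain ⟨k', hk', he⟩ := (hM _).1 (hQM (Z.ιQ k))
  rw [Z.inj he]
  exact hk'

/-- **Nondegeneracy modulo `(θ - 1) K`.** Let `K₂` be the range of the additive map `k ↦ θ g k - k`.

Proof. `K₂ ≠ K`: otherwise, as `θ := θ g` is additive and `θ ^ (2 ^ (a - 1)) = 1` (`hθM`), so that
`(θ - 1) ^ (2 ^ (a - 1)) = 0` (characteristic 2, `Z.two`), `K = (θ - 1) K = (θ - 1) ^ 2 K = ... = 0`,
contradiction to `hne`. So by `zs_gen` there are `v, w` with `β v w ∉ K₂`. The radical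
`W = {v | ∀ w, β v w ∈ K₂}` is a submodule, `≠ ⊤`. It is invariant under `τ s` (`β (τ s v) w =
θ s (β v (τ s⁻¹ w)) = β v (τ s⁻¹ w)`, `Z.θR`) and under `τ g` (`β (τ g v) w = θ g (β v (τ g⁻¹ w))`, `K₂` is
invariant under `θ g`). So `W = ⊥` by `S.irr`. -/
theorem zs_nd {F : Type} [Group F] [Finite F] {r a : ℕ} {Q R : Subgroup F} {g s : F}
    {V : Type} [AddCommGroup V]
    [Module (ZMod 2) V] [Finite V] {τ : F →* Module.End (ZMod 2) V} {φ : Q → V}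
    (S : ZsRb r a R g s τ) {K : Type} [AddCommGroup K]
    {ι : K → F} {θ : F → K → K} {q : V → K} {β : V → V → K} (Z : ZQuad Q R τ φ ι θ q β)
    (hθM : ∀ k, θ (g ^ (2 ^ (a - 1))) k = k) (hne : ∃ v w, β v w ≠ 0) :
    ∀ v, v ≠ 0 → ∃ w, ∀ k, β v w ≠ θ g k - k := by
  intro v hv
  by_contra hcon
  push Not at hcon
  have hθ0 : ∀ h : F, θ h 0 = 0 := by
    intro h
    have h1 := Z.θadd h 0 0
    rw [add_zero] at h1
    exact left_eq_add.1 h1
  have hθn : ∀ (h : F) (k : K), θ h (-k) = - θ h k := by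
    intro h k
    have h1 := Z.θadd h k (-k)
    rw [add_neg_cancel, hθ0] at h1
    exact (neg_eq_of_add_eq_zero_right h1.symm).symm
  obtain ⟨K₂, hK₂⟩ : ∃ K₂ : AddSubgroup K, ∀ c, c ∈ K₂ ↔ ∃ k, c = θ g k - k :=
    ⟨{ carrier := {c | ∃ k, c = θ g k - k}
       add_mem' := by
         rintro _ _ ⟨k, rfl⟩ ⟨l, rfl⟩
         refine ⟨k + l, ?_⟩
         rw [Z.θadd]
         abel
       zero_mem' := ⟨0, by rw [hθ0, sub_zero]⟩
       neg_mem' := by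
         rintro _ ⟨k, rfl⟩
         refine ⟨-k, ?_⟩
         rw [hθn]
         abel }, fun c => Iff.rfl⟩
  have hβ0 : ∀ w, β 0 w = 0 := by
    intro w
    have h1 := Z.βl 0 0 w
    rw [add_zero] at h1
    exact left_eq_add.1 h1
  let W : Submodule (ZMod 2) V :=
    { carrier := {v | ∀ w, β v w ∈ K₂}
      add_mem' := by
        intro a b ha hb w
        rw [Z.βl]
        exact K₂.add_mem (ha w) (hb w)
      zero_mem' := by
        intro w
        rw [hβ0]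
        exact K₂.zero_mem
      smul_mem' := by
        intro c v hv
        have hc : c = 0 ∨ c = 1 := by
          revert c
          decide
        rcases hc with rfl | rfl
        · rw [zero_smul]
          intro w
          rw [hβ0]
          exact K₂.zero_mem
        · rw [one_smul]
          exact hv }
  have hW : ∀ v, v ∈ W ↔ ∀ w, β v w ∈ K₂ := fun v => Iff.rfl
  have hτi : ∀ (h : F) (w : V), τ h (τ h⁻¹ w) = w := by
    intro h w
    rw [← Module.End.mul_apply, ← map_mul, mul_inv_cancel, map_one, Module.End.one_apply]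
  have hs : ∀ v ∈ W, τ s v ∈ W := by
    intro v hv
    rw [hW] at hv ⊢
    intro w
    have h1 := Z.βθ s v (τ s⁻¹ w)
    rw [hτi, Z.θR s S.hs] at h1
    rw [h1]
    exact hv _
  have hg : ∀ v ∈ W, τ g v ∈ W := by
    intro v hv
    rw [hW] at hv ⊢
    intro w
    have h1 := Z.βθ g v (τ g⁻¹ w)
    rw [hτi] at h1
    rw [h1]
    obtain ⟨k, hk⟩ := (hK₂ _).1 (hv (τ g⁻¹ w))
    rw [hk, hK₂]
    refine ⟨θ g k, ?_⟩
    rw [sub_eq_add_neg, Z.θadd, hθn, sub_eq_add_neg]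
  rcases S.irr W hs hg with h | h
  · have h1 : v ∈ W := by
      rw [hW]
      intro w
      obtain ⟨k, hk⟩ := hcon w
      exact (hK₂ _).2 ⟨k, hk⟩
    rw [h, Submodule.mem_bot] at h1
    exact hv h1
  · have hall : ∀ k : K, k ∈ K₂ := by
      intro k
      have h1 : AddSubgroup.closure {c | ∃ v w, c = β v w} ≤ K₂ := by
        rw [AddSubgroup.closure_le]
        rintro _ ⟨v, w, rfl⟩
        have h2 : v ∈ W := by rw [h]; exact Submodule.mem_top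
        exact h2 w
      exact h1 (zs_gen Z k)
    let δ : K → K := fun k => θ g k + k
    have hneg : ∀ k : K, -k = k := fun k => neg_eq_of_add_eq_zero_right (Z.two k)
    have hsur : Function.Surjective δ := by
      intro k
      obtain ⟨l, hl⟩ := (hK₂ k).1 (hall k)
      refine ⟨l, ?_⟩
      show θ g l + l = k
      rw [hl, sub_eq_add_neg, hneg]
    have hit : ∀ (n : ℕ) (k : K), δ^[2 ^ n] k = θ (g ^ (2 ^ n)) k + k := by
      intro n
      induction n with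
      | zero =>
        intro k
        simp only [pow_zero, Function.iterate_one, pow_one, δ]
      | succ n ih =>
        intro k
        have h1 : 2 ^ (n + 1) = 2 ^ n + 2 ^ n := by rw [pow_succ, mul_two]
        rw [h1, Function.iterate_add_apply, ih, ih, Z.θadd, pow_add, Z.θmul]
        calc θ (g ^ 2 ^ n) (θ (g ^ 2 ^ n) k) + θ (g ^ 2 ^ n) k + (θ (g ^ 2 ^ n) k + k)
            = θ (g ^ 2 ^ n) (θ (g ^ 2 ^ n) k) + (θ (g ^ 2 ^ n) k + θ (g ^ 2 ^ n) k) + k := by abel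
          _ = θ (g ^ 2 ^ n) (θ (g ^ 2 ^ n) k) + k := by rw [Z.two, add_zero]
    have h0 : ∀ k : K, k = 0 := by
      intro k
      obtain ⟨l, hl⟩ := (hsur.iterate (2 ^ (a - 1))) k
      rw [← hl, hit, hθM, Z.two]
    obtain ⟨v', w', hvw⟩ := hne
    exact hvw (h0 _)

end Pool.Agent.Lib.MP_544bd1_al
end

section

/-!
General even exponents, section 2 (the base): subgroups containing `Q`.
-/

namespace Pool.Agent.Lib.MP_544bd1_al

open Subgroup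

/-- **Covering.** (Compare `zt_coverB`, ZtCoverB.lean.) A subgroup `H'` whose intersection with `Q` is
normalized by elements `t`, `t'` acting on `V` like `g`, `s`, and which contains an element `h` of `Q` with
`φ h ≠ 0`, contains `Q`.

Proof. As for `zt_coverB`: `W = {φ q | q ∈ Q, q ∈ H'}` is a submodule, invariant under
`τ g` and `τ s`; by `S.irr` `W = ⊤`. So every `q ∈ Q` is `q = q' * c` with `q' ∈ H' ⊓ Q`, `φ c = 0`,
`c ∈ ⁅Q, Q⁆` (`zs_irr`, second part); the elements `c` with `φ c = 0` are central in `Q` (`M.ker`), so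
all commutators of `Q` are commutators of elements of `H' ⊓ Q`. So `⁅Q, Q⁆ ≤ H'`. -/
theorem zs_cover {F : Type} [Group F] [Finite F] {r a : ℕ} (hr : r.Prime) (hr2 : r ≠ 2)
    {Q R : Subgroup F} [Q.Normal] {g s : F} (D : ZsMin r a Q R g) {V : Type} [AddCommGroup V]
    [Module (ZMod 2) V] {τ : F →* Module.End (ZMod 2) V} {φ : Q → V} (M : ZMd Q R τ φ)
    (S : ZsRb r a R g s τ) (H' : Subgroup F) {t t' : F} (ht : τ t = τ g) (ht' : τ t' = τ s)
    (htH : ∀ q ∈ Q, q ∈ H' → t * q * t⁻¹ ∈ H') (htH' : ∀ q ∈ Q, q ∈ H' → t' * q * t'⁻¹ ∈ H')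
    {h : Q} (hh : (h : F) ∈ H') (hh0 : φ h ≠ 0) : Q ≤ H' := by
  obtain ⟨-, irr2, -, -⟩ := zs_irr hr hr2 D.core M
  have hQn : Q.Normal := inferInstance
  have φ1 : φ 1 = 0 := by
    have h1 := M.add 1 1
    rw [mul_one] at h1
    exact left_eq_add.1 h1
  have φinv : ∀ a : Q, φ a⁻¹ = - φ a := by
    intro a
    have h1 := M.add a a⁻¹
    rw [mul_inv_cancel, φ1] at h1
    exact (neg_eq_of_add_eq_zero_right h1.symm).symm
  have Zc : ∀ a : Q, φ a = 0 → ∀ y ∈ Q, (a : F) * y = y * a := fun a ha => (M.ker a ha).2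
  let W : Submodule (ZMod 2) V :=
    { carrier := {v | ∃ q : Q, (q : F) ∈ H' ∧ φ q = v}
      add_mem' := by
        rintro a b ⟨q, hq, rfl⟩ ⟨q', hq', rfl⟩
        exact ⟨q * q', by rw [Subgroup.coe_mul]; exact H'.mul_mem hq hq', M.add _ _⟩
      zero_mem' := ⟨1, by rw [Subgroup.coe_one]; exact H'.one_mem, φ1⟩
      smul_mem' := by
        rintro c v ⟨q, hq, rfl⟩
        have hc : c = 0 ∨ c = 1 := by
          revert c
          decide
        rcases hc with rfl | rfl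
        · exact ⟨1, by rw [Subgroup.coe_one]; exact H'.one_mem, by rw [zero_smul, φ1]⟩
        · exact ⟨q, hq, by rw [one_smul]⟩ }
  have hinv : ∀ u w : F, τ u = τ w → (∀ q ∈ Q, q ∈ H' → u * q * u⁻¹ ∈ H') →
      ∀ v ∈ W, τ w v ∈ W := by
    rintro u w huw hu v ⟨q, hq, rfl⟩
    refine ⟨⟨u * q * u⁻¹, hQn.conj_mem _ q.2 u⟩, hu q q.2 hq, ?_⟩
    rw [M.eqv, huw]
  have hW : W = ⊤ := by
    rcases S.irr W (hinv t' s ht' htH') (hinv t g ht htH) with h1 | h1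
    · exfalso
      have h2 : φ h ∈ W := ⟨h, hh, rfl⟩
      rw [h1, Submodule.mem_bot] at h2
      exact hh0 h2
    · exact h1
  have hQ1' : ∀ a ∈ Q, ∃ z : Q, φ z = 0 ∧ a * z ∈ H' := by
    intro a ha
    have h1 : φ ⟨a, ha⟩ ∈ W := by rw [hW]; exact Submodule.mem_top
    obtain ⟨q, hq, hqa⟩ := h1
    refine ⟨(⟨a, ha⟩ : Q)⁻¹ * q, ?_, ?_⟩
    · rw [M.add, φinv, hqa, neg_add_cancel]
    · have h2 : a * (((⟨a, ha⟩ : Q)⁻¹ * q : Q) : F) = q := by
        show a * (a⁻¹ * q) = q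
        group
      rw [h2]
      exact hq
  have hcom : ⁅Q, Q⁆ ≤ H' := by
    rw [Subgroup.commutator_le]
    intro a ha b hb
    obtain ⟨z, hz, haz⟩ := hQ1' a ha
    obtain ⟨z', hz', hbz⟩ := hQ1' b hb
    have h1 : a * b * a⁻¹ * b⁻¹ = (a * z) * (b * z') * (a * z)⁻¹ * (b * z')⁻¹ := by
      have e1 : (z : F) * b = b * z := Zc z hz b hb
      have e2 : (z' : F) * a⁻¹ = a⁻¹ * z' := Zc z' hz' a⁻¹ (Q.inv_mem ha)
      have e3 : (z : F) * z' = z' * z := Zc z hz z' z'.2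
      calc a * b * a⁻¹ * b⁻¹ = a * b * (a⁻¹ * z') * (z' : F)⁻¹ * b⁻¹ := by group
        _ = a * b * (z' * a⁻¹) * (z' : F)⁻¹ * b⁻¹ := by rw [e2]
        _ = a * b * (z' * z) * (z : F)⁻¹ * a⁻¹ * (z' : F)⁻¹ * b⁻¹ := by group
        _ = a * b * (z * z') * (z : F)⁻¹ * a⁻¹ * (z' : F)⁻¹ * b⁻¹ := by rw [e3]
        _ = a * (b * z) * z' * (z : F)⁻¹ * a⁻¹ * (z' : F)⁻¹ * b⁻¹ := by group
        _ = a * (z * b) * z' * (z : F)⁻¹ * a⁻¹ * (z' : F)⁻¹ * b⁻¹ := by rw [e1]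
        _ = (a * z) * (b * z') * (a * z)⁻¹ * (b * z')⁻¹ := by group
    rw [commutatorElement_def, h1]
    exact H'.mul_mem (H'.mul_mem (H'.mul_mem haz hbz) (H'.inv_mem haz)) (H'.inv_mem hbz)
  intro a ha
  obtain ⟨z, hz, haz⟩ := hQ1' a ha
  have h1 : (z : F) ∈ H' := hcom (irr2 z hz).1
  have h2 : a = a * z * (z : F)⁻¹ := by group
  rw [h2]
  exact H'.mul_mem haz (H'.inv_mem h1)

end Pool.Agent.Lib.MP_544bd1_al
end

section

/-!
General even exponents, section 2 (the base): the element `w`.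
-/

namespace Pool.Agent.Lib.MP_544bd1_al

open Subgroup

private theorem zsbw_exp {m : ℕ} (a : ℕ) (hm : Odd m) : ∃ L t : ℕ, 2 ^ a ∣ L ∧ 2 * L = 1 + m * t := by
  obtain ⟨j, rfl⟩ := hm
  have hco : Nat.Coprime (2 ^ a) (2 * j + 1) := by
    have h1 : Nat.Coprime 2 (2 * j + 1) := by
      rw [Nat.coprime_two_left]
      exact ⟨j, rfl⟩
    exact Nat.Coprime.pow_left a h1
  obtain ⟨L, h1, h2⟩ := Nat.chineseRemainder hco 0 (j + 1)
  have hpos : 0 < 2 ^ a := pow_pos (by norm_num) a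
  have hpos' : 0 < 2 ^ a * (2 * j + 1) := Nat.mul_pos hpos (Nat.succ_pos _)
  have h3 : 2 * (L + 2 ^ a * (2 * j + 1)) ≡ 1 [MOD (2 * j + 1)] := by
    have h4 : L + 2 ^ a * (2 * j + 1) ≡ j + 1 [MOD (2 * j + 1)] := by
      have h5 : 2 ^ a * (2 * j + 1) ≡ 0 [MOD (2 * j + 1)] :=
        (Nat.modEq_zero_iff_dvd.2 (Dvd.intro_left _ rfl))
      simpa using h2.add h5
    have h6 : 2 * (j + 1) ≡ 1 [MOD (2 * j + 1)] := by
      have h7 : 2 * (j + 1) = 1 + (2 * j + 1) := by ring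
      rw [h7]
      simpa using (Nat.ModEq.refl 1).add (Nat.modEq_zero_iff_dvd.2 (dvd_refl (2 * j + 1)))
    exact (h4.mul_left 2).trans h6
  have h8 : (2 * j + 1) ∣ 2 * (L + 2 ^ a * (2 * j + 1)) - 1 :=
    (Nat.modEq_iff_dvd' (by omega)).1 h3.symm
  obtain ⟨t, ht⟩ := h8
  refine ⟨L + 2 ^ a * (2 * j + 1), t, ?_, by omega⟩
  exact (Dvd.dvd.add ((Nat.modEq_zero_iff_dvd).1 h1) (Dvd.intro _ rfl))

private theorem zsbw_two {a : ℕ} (ha : 0 < a) {H : Type*} [Monoid H] {x : H} (h : x ^ (2 ^ a) = 1) :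
    x ^ (2 ^ (a - 1)) * x ^ (2 ^ (a - 1)) = 1 := by
  rw [← pow_add, ← two_mul, ← pow_succ', Nat.sub_add_cancel ha]
  exact h

/-- a vector fixed by `T ^ M`, `M = 2 ^ (a - 1)`, and not by `T`. Proof (compare `zb_vec`, ZtW.lean).
Suppose that all vectors fixed by `T ^ M` are fixed by `T`. For every `v`: `T ^ M v - v` is fixed by
`T ^ M` (`T ^ (2 * M) = 1`, characteristic 2), so by `T`; so `T v - v` is fixed by `T ^ M`, so by `T`:
`(T - 1) ^ 2 = 0`, `T ^ 2 = 1`, and `T ^ M = 1` since `M` is even. -/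
theorem zs_vec {a : ℕ} (ha : 2 ≤ a) {V : Type} [AddCommGroup V] [Module (ZMod 2) V]
    {T : Module.End (ZMod 2) V} (h8 : T ^ (2 ^ a) = 1) (h4 : T ^ (2 ^ (a - 1)) ≠ 1) :
    ∃ v : V, (T ^ (2 ^ (a - 1))) v = v ∧ T v ≠ v := by
  by_contra hcon
  push Not at hcon
  apply h4
  obtain ⟨M, hM⟩ : ∃ M, M = 2 ^ (a - 1) := ⟨_, rfl⟩
  have hTT := zsbw_two (by omega : 0 < a) h8
  have hMe : ∃ N, M = 2 * N := by
    refine ⟨2 ^ (a - 2), ?_⟩
    rw [hM, ← pow_succ']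
    congr 1
    omega
  rw [← hM] at hcon hTT ⊢
  have h8v : ∀ v : V, (T ^ M) ((T ^ M) v) = v := by
    intro v
    exact congrArg (fun S : Module.End (ZMod 2) V => S v) hTT
  have hTc : ∀ v : V, (T ^ M) (T v) = T ((T ^ M) v) := by
    intro v
    have h1 : T ^ M * T = T * T ^ M := by rw [← pow_succ, ← pow_succ']
    exact congrArg (fun S : Module.End (ZMod 2) V => S v) h1
  have hA : ∀ v : V, T ((T ^ M) v - v) = (T ^ M) v - v := by
    intro v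
    apply hcon
    rw [map_sub, h8v]
    rw [← neg_sub, ZModModule.neg_eq_self]
  have hN : ∀ v : V, T (T v - v) = T v - v := by
    intro v
    apply hcon
    have h1 := hA v
    rw [map_sub, hTc]
    rw [map_sub] at h1
    rw [← sub_eq_zero] at h1 ⊢
    rw [← h1]
    abel
  have hT2 : T ^ 2 = 1 := by
    apply LinearMap.ext
    intro v
    have h1 := hN v
    rw [map_sub, sub_eq_iff_eq_add] at h1
    show (T ^ 2) v = v
    rw [pow_two, Module.End.mul_apply, h1]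
    have h3 : T v - v + T v = (T v + T v) - v := by abel
    rw [h3, ZModModule.add_self, zero_sub, ZModModule.neg_eq_self]
  obtain ⟨N, hN'⟩ := hMe
  rw [hN', pow_mul, hT2, one_pow]

/-- an odd element inverted by `x' = (p' * g) ^ (2 ^ (a - 1))` in the coset `Q * s`. Proof: exactly as
for `zb_rho` (ZtW.lean), with `zsb_pow` for `zb_pow8`. -/
theorem zs_rho {m a : ℕ} (ha : 0 < a) (hm : Odd m) {F : Type} [Group F] [Finite F]
    (hexp : ∀ x : F, x ^ (m * 2 ^ a) = 1) {r : ℕ} (hr : r.Prime) (hr2 : r ≠ 2) {Q R : Subgroup F}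
    [Q.Normal] {g s : F} (D : ZsMin r a Q R g) (hs : s ∈ R)
    (hxs : g ^ (2 ^ (a - 1)) * s * (g ^ (2 ^ (a - 1)))⁻¹ = s⁻¹) {p' : F} (hp' : p' ∈ Q) :
    ∃ ρ k : F, k ∈ Q ∧ ρ = k * s ∧ ρ ^ m = 1 ∧
      (p' * g) ^ (2 ^ (a - 1)) * ρ * ((p' * g) ^ (2 ^ (a - 1)))⁻¹ = ρ⁻¹ := by
  obtain ⟨L, t, hL, hLt⟩ := zsbw_exp a hm
  have hQn : Q.Normal := inferInstance
  have hp8 : (p' * g) ^ (2 ^ a) = 1 := zsb_pow hm hexp D hp'
  obtain ⟨x', hx'⟩ : ∃ x', x' = (p' * g) ^ (2 ^ (a - 1)) := ⟨_, rfl⟩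
  rw [← hx']
  have hx2 : x' * x' = 1 := by rw [hx']; exact zsbw_two ha hp8
  have hxi : x'⁻¹ = x' := inv_eq_of_mul_eq_one_right hx2
  have hsm : s ^ m = 1 := by
    haveI : Fact (Nat.Prime r) := ⟨hr⟩
    obtain ⟨k, hk⟩ := (IsPGroup.iff_orderOf.1 D.core.hR) ⟨s, hs⟩
    rw [Subgroup.orderOf_mk] at hk
    have h1 : orderOf s ∣ m * 2 ^ a := orderOf_dvd_of_pow_eq_one (hexp s)
    have h2 : Nat.Coprime (orderOf s) (2 ^ a) := by
      rw [hk]
      apply Nat.Coprime.pow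
      exact (Nat.coprime_primes hr Nat.prime_two).2 hr2
    exact orderOf_dvd_iff_pow_eq_one.1 (h2.dvd_of_dvd_mul_right h1)
  obtain ⟨y, hy⟩ : ∃ y, y = x' * (s⁻¹ * x' * s) := ⟨_, rfl⟩
  have hyinv : x' * y * x'⁻¹ = y⁻¹ := by
    rw [hy]
    calc x' * (x' * (s⁻¹ * x' * s)) * x'⁻¹ = (x' * x') * (s⁻¹ * x' * s) * x'⁻¹ := by group
      _ = s⁻¹ * x'⁻¹ * s * x'⁻¹ := by rw [hx2, hxi]; group
      _ = (x' * (s⁻¹ * x' * s))⁻¹ := by group
  have hπ : (QuotientGroup.mk' Q) (y ^ L) = (QuotientGroup.mk' Q) s := by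
    have h1 : (QuotientGroup.mk' Q) p' = 1 := (QuotientGroup.eq_one_iff p').2 hp'
    obtain ⟨x, hx⟩ : ∃ x, x = g ^ (2 ^ (a - 1)) := ⟨_, rfl⟩
    rw [← hx] at hxs
    have h2 : (QuotientGroup.mk' Q) x' = (QuotientGroup.mk' Q) x := by
      rw [hx', map_pow, map_mul, h1, one_mul, hx, map_pow]
    have h3 : x * (s⁻¹ * x * s) = s ^ 2 := by
      have e1 : x * x = 1 := by rw [hx]; exact zsbw_two ha D.hg
      have e3 : x * s⁻¹ * x⁻¹ = s := by
        have := congrArg (fun z => z⁻¹) hxs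
        simp only [inv_inv] at this
        calc x * s⁻¹ * x⁻¹ = (x * s * x⁻¹)⁻¹ := by group
          _ = s := this
      calc x * (s⁻¹ * x * s) = (x * s⁻¹ * x⁻¹) * (x * x) * s := by group
        _ = s ^ 2 := by rw [e3, e1, mul_one, pow_two]
    have h4 : (QuotientGroup.mk' Q) y = (QuotientGroup.mk' Q) (s ^ 2) := by
      rw [hy, map_mul, map_mul, map_mul, h2, ← map_mul, ← map_mul, ← map_mul, h3]
    rw [map_pow, h4, ← map_pow, ← pow_mul, hLt, pow_add, pow_one, pow_mul, hsm, one_pow, mul_one]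
  refine ⟨y ^ L, y ^ L * s⁻¹, ?_, by group, ?_, ?_⟩
  · rw [← QuotientGroup.eq_one_iff]
    have h1 : ((y ^ L * s⁻¹ : F) : F ⧸ Q) = (QuotientGroup.mk' Q) (y ^ L) * ((QuotientGroup.mk' Q) s)⁻¹ := rfl
    rw [h1, hπ, mul_inv_cancel]
  · obtain ⟨l, rfl⟩ := hL
    have h1 := hexp y
    have h2 : 2 ^ a * l * m = m * 2 ^ a * l := by ring
    rw [← pow_mul, h2, pow_mul, h1, one_pow]
  · rw [← conj_pow, hyinv, inv_pow]

/-- **(W)** Proof: exactly as for `zt_W` (ZtW.lean), with `zs_vec`, `zs_rho`, `zs_cover` (`t := g'`,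
`t' := ρ''`; `C` is a subgroup containing them). In addition `w = ρ * p = k * (s * p * s⁻¹) * s ∈ Q * s`. -/
theorem zs_W {m a : ℕ} (ha : 2 ≤ a) (hm : Odd m) {F : Type} [Group F] [Finite F]
    (hexp : ∀ x : F, x ^ (m * 2 ^ a) = 1) {r : ℕ} (hr : r.Prime) (hr2 : r ≠ 2) {Q R : Subgroup F}
    [Q.Normal] {g s : F} (D : ZsMin r a Q R g) {V : Type} [AddCommGroup V] [Module (ZMod 2) V]
    {τ : F →* Module.End (ZMod 2) V} {φ : Q → V} (M : ZMd Q R τ φ)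
    (S : ZsRb r a R g s τ) {p' : F} (hp' : p' ∈ Q) :
    ∃ w k : F, k ∈ Q ∧ w = k * s ∧ w ∈ closure {p' * g, w⁻¹ * (p' * g) * w} ∧
      Q ≤ closure {p' * g, w⁻¹ * (p' * g) * w} := by
  classical
  have ha0 : 0 < a := by omega
  obtain ⟨L, t, hL, hLt⟩ := zsbw_exp a hm
  have hQn : Q.Normal := inferInstance
  obtain ⟨ρ, k, hk, hρk, hρm, hρx⟩ := zs_rho ha0 hm hexp hr hr2 D S.hs S.hxs hp'
  have hp8 : (p' * g) ^ (2 ^ a) = 1 := zsb_pow hm hexp D hp'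
  obtain ⟨g', hg'⟩ : ∃ g', g' = p' * g := ⟨_, rfl⟩
  rw [← hg'] at hρx hp8 ⊢
  obtain ⟨x', hx'⟩ : ∃ x', x' = g' ^ (2 ^ (a - 1)) := ⟨_, rfl⟩
  rw [← hx'] at hρx
  have hx2 : x' * x' = 1 := by rw [hx']; exact zsbw_two ha0 hp8
  have hxi : x'⁻¹ = x' := inv_eq_of_mul_eq_one_right hx2
  have φ1 : φ 1 = 0 := by
    have h1 := M.add 1 1
    rw [mul_one] at h1
    exact left_eq_add.1 h1
  have φinv : ∀ a : Q, φ a⁻¹ = - φ a := by
    intro a
    have h1 := M.add a a⁻¹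
    rw [mul_inv_cancel, φ1] at h1
    exact (neg_eq_of_add_eq_zero_right h1.symm).symm
  have hτQ : ∀ q ∈ Q, τ q = 1 := by
    intro q hq
    apply LinearMap.ext
    intro v
    obtain ⟨y, rfl⟩ := M.surj v
    rw [← M.eqv q y]
    have h1 : (⟨q * y * q⁻¹, hQn.conj_mem _ y.2 q⟩ : Q) = ⟨q, hq⟩ * y * (⟨q, hq⟩ : Q)⁻¹ := rfl
    rw [h1, M.add, M.add, φinv]
    show _ = φ y
    abel
  have hτg : τ g' = τ g := by rw [hg', map_mul, hτQ p' hp', one_mul]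
  have hτx : τ x' = τ (g ^ (2 ^ (a - 1))) := by rw [hx', map_pow, hτg, map_pow]
  have hT8 : (τ g) ^ (2 ^ a) = 1 := by rw [← map_pow, D.hg, map_one]
  have hT4 : (τ g) ^ (2 ^ (a - 1)) ≠ 1 := by rw [← map_pow]; exact zsb_x1 hr hr2 D M
  obtain ⟨v, hv4, hv1⟩ := zs_vec ha hT8 hT4
  obtain ⟨p, rfl⟩ := M.surj v
  have hvx : τ x' (φ p) = φ p := by rw [hτx, map_pow]; exact hv4
  obtain ⟨w, hw⟩ : ∃ w, w = ρ * (p : F) := ⟨_, rfl⟩
  obtain ⟨C, hC⟩ : ∃ C, C = closure {g', w⁻¹ * g' * w} := ⟨_, rfl⟩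
  have hgC : g' ∈ C := by rw [hC]; exact subset_closure (by simp)
  have hwgC : w⁻¹ * g' * w ∈ C := by rw [hC]; exact subset_closure (by simp)
  have hxC : x' ∈ C := by rw [hx']; exact pow_mem hgC _
  have hwxC : w⁻¹ * x' * w ∈ C := by
    have h1 : w⁻¹ * x' * w = (w⁻¹ * g' * w) ^ (2 ^ (a - 1)) := by
      rw [hx']
      have := conj_pow (i := 2 ^ (a - 1)) (a := w⁻¹) (b := g')
      rw [inv_inv] at this
      exact this.symm
    rw [h1]
    exact pow_mem hwgC _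
  -- the element `φ₁`
  let φ₁ : Q := ⟨x' * (p : F)⁻¹ * x'⁻¹, hQn.conj_mem _ (Q.inv_mem p.2) x'⟩ * p
  have hφ₁ : φ φ₁ = 0 := by
    show φ (⟨x' * (p : F)⁻¹ * x'⁻¹, hQn.conj_mem _ (Q.inv_mem p.2) x'⟩ * p) = 0
    rw [M.add]
    have h1 : (⟨x' * (p : F)⁻¹ * x'⁻¹, hQn.conj_mem _ (Q.inv_mem p.2) x'⟩ : Q) =
        ⟨x' * ((p⁻¹ : Q) : F) * x'⁻¹, hQn.conj_mem _ (p⁻¹).2 x'⟩ := rfl
    rw [h1, M.eqv, φinv, map_neg, hvx, neg_add_cancel]
  have h1R := (M.ker φ₁ hφ₁).1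
  have h1Q := (M.ker φ₁ hφ₁).2
  have h1ρ : ρ * (φ₁ : F) = φ₁ * ρ := by
    rw [hρk]
    calc k * s * (φ₁ : F) = k * (s * φ₁) := by group
      _ = k * (φ₁ * s) := by rw [h1R s S.hs]
      _ = (k * φ₁) * s := by group
      _ = (φ₁ * k) * s := by rw [h1Q k hk]
      _ = _ := by group
  have h1p : (φ₁ : F) * p = p * φ₁ := h1Q p p.2
  obtain ⟨E, hE⟩ : ∃ E, E = (p : F)⁻¹ * ρ ^ 2 * p := ⟨_, rfl⟩
  have hcE : Commute (φ₁ : F) E := by
    have c1 : Commute (φ₁ : F) ρ := h1ρ.symm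
    have c2 : Commute (φ₁ : F) p := h1p
    rw [hE]
    exact (c2.inv_right.mul_right (c1.pow_right 2)).mul_right c2
  have hprod : x' * (w⁻¹ * x' * w) = φ₁ * E := by
    have e1 : ρ⁻¹ * x' = x' * ρ := by
      rw [← hρx]
      group
    rw [hE, hw]
    show x' * ((ρ * (p : F))⁻¹ * x' * (ρ * p)) =
      (x' * (p : F)⁻¹ * x'⁻¹ * p) * ((p : F)⁻¹ * ρ ^ 2 * p)
    calc x' * ((ρ * (p : F))⁻¹ * x' * (ρ * p))
        = x' * (p : F)⁻¹ * (ρ⁻¹ * x') * ρ * p := by group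
      _ = x' * (p : F)⁻¹ * (x' * ρ) * ρ * p := by rw [e1]
      _ = x' * (p : F)⁻¹ * (x'⁻¹ * ρ) * ρ * p := by rw [hxi]
      _ = _ := by rw [pow_two]; group
  have hρ''C : (p : F)⁻¹ * ρ * p ∈ C := by
    have h1 : (φ₁ * E) ^ L = (p : F)⁻¹ * ρ * p := by
      rw [hcE.mul_pow]
      have h2 : (φ₁ : F) ^ L = 1 := by
        obtain ⟨l, rfl⟩ := hL
        have h3 := D.core.hQ φ₁ φ₁.2
        rw [pow_mul, h3, one_pow]
      have h4 : E ^ L = (p : F)⁻¹ * ρ * p := by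
        have h5 := conj_pow (i := L) (a := (p : F)⁻¹) (b := ρ ^ 2)
        rw [inv_inv] at h5
        rw [hE, h5, ← pow_mul, hLt, pow_add, pow_one, pow_mul, hρm, one_pow, mul_one]
      rw [h2, h4, one_mul]
    rw [← h1, ← hprod]
    exact pow_mem (mul_mem hxC hwxC) L
  have hwp : w = p * ((p : F)⁻¹ * ρ * p) := by
    rw [hw]
    group
  have hpg : (p : F)⁻¹ * g' * p ∈ C := by
    have h1 : (p : F)⁻¹ * g' * p =
        ((p : F)⁻¹ * ρ * p) * (w⁻¹ * g' * w) * ((p : F)⁻¹ * ρ * p)⁻¹ := by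
      rw [hw]
      group
    rw [h1]
    exact mul_mem (mul_mem hρ''C hwgC) (inv_mem hρ''C)
  let h : Q := p⁻¹ * ⟨g' * p * g'⁻¹, hQn.conj_mem _ p.2 g'⟩
  have hh : (h : F) ∈ C := by
    have h1 : (h : F) = ((p : F)⁻¹ * g' * p) * g'⁻¹ := by
      show (p : F)⁻¹ * (g' * p * g'⁻¹) = _
      group
    rw [h1]
    exact mul_mem hpg (inv_mem hgC)
  have hh0 : φ h ≠ 0 := by
    show φ (p⁻¹ * ⟨g' * p * g'⁻¹, hQn.conj_mem _ p.2 g'⟩) ≠ 0
    rw [M.add, φinv, M.eqv, hτg]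
    intro h0
    exact hv1 (neg_add_eq_zero.1 h0).symm
  have hτρ : τ ((p : F)⁻¹ * ρ * p) = τ s := by
    rw [map_mul, map_mul, hτQ p p.2, hτQ _ (Q.inv_mem p.2), mul_one, one_mul, hρk, map_mul,
      hτQ k hk, one_mul]
  have hQC : Q ≤ C := zs_cover hr hr2 D M S C hτg hτρ
    (fun q _ hqC => mul_mem (mul_mem hgC hqC) (inv_mem hgC))
    (fun q _ hqC => mul_mem (mul_mem hρ''C hqC) (inv_mem hρ''C)) hh hh0
  refine ⟨w, k * (s * p * s⁻¹), Q.mul_mem hk (hQn.conj_mem _ p.2 s), ?_, ?_, ?_⟩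
  · rw [hw, hρk]
    group
  · rw [← hC, hwp]
    exact mul_mem (hQC p.2) hρ''C
  · rw [← hC]
    exact hQC

end Pool.Agent.Lib.MP_544bd1_al
end

section

/-!
General even exponents, section 2 (the base): the element `s₀`.
-/

namespace Pool.Agent.Lib.MP_544bd1_al

open Subgroup

/-- **The element `s₀`.** Proof. Let `x = g ^ (2 ^ (a - 1))`, `g' = p' * g`, `x' = g' ^ (2 ^ (a - 1))`,
`ρ = k * s` from `zs_rho`. There is `v` with `τ s (τ x v - v) ≠ τ x v - v`: otherwise let `W` be the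
range of `τ x - 1`; it is invariant under `τ g` (`g` and `x` commute) and `τ s` is trivial on it, so
`S.irr` gives `W = ⊥` (then `τ x = 1`, contradiction to `zsb_x1`) or `W = ⊤` (then `τ s = 1`,
contradiction to `S.hs1`). Let `φ p = v`, `s₀ = p⁻¹ * ρ * p = (p⁻¹ * k * (s * p * s⁻¹)) * s`,
`H' = closure {g', s₀}`, `c = x' * p * x'⁻¹ * p⁻¹ ∈ Q`, `φ c = τ x v - v` (`τ x' = τ x`: `τ` is trivial on `Q`,
compare `zb_tauQ` in ZtB4.lean). Then `h = (x' * s₀ * x'⁻¹) * s₀ = p⁻¹ * c⁻¹ * ρ⁻¹ * c * ρ * p ∈ H' ⊓ Q`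
(`x' * ρ * x'⁻¹ = ρ⁻¹`) and `φ h = - φ c + τ s⁻¹ (φ c) ≠ 0`. `zs_cover` for `H'` (`t := g'`, `t' := s₀`). -/
theorem zs_s0 {m a : ℕ} (ha : 2 ≤ a) (hm : Odd m) {F : Type} [Group F] [Finite F]
    (hexp : ∀ x : F, x ^ (m * 2 ^ a) = 1) {r : ℕ} (hr : r.Prime) (hr2 : r ≠ 2) {Q R : Subgroup F}
    [Q.Normal] {g s : F} (D : ZsMin r a Q R g) {V : Type} [AddCommGroup V] [Module (ZMod 2) V]
    {τ : F →* Module.End (ZMod 2) V} {φ : Q → V} (M : ZMd Q R τ φ)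
    (S : ZsRb r a R g s τ) {p' : F} (hp' : p' ∈ Q) :
    ∃ s₀ k : F, k ∈ Q ∧ s₀ = k * s ∧ s₀ ^ m = 1 ∧ Q ≤ closure {p' * g, s₀} := by
  have hQn : Q.Normal := inferInstance
  obtain ⟨ρ, k, hk, hρ, hρm, hρx⟩ := zs_rho (by omega) hm hexp hr hr2 D S.hs S.hxs hp'
  obtain ⟨x, hx⟩ : ∃ x, x = g ^ (2 ^ (a - 1)) := ⟨_, rfl⟩
  obtain ⟨x', hx'⟩ : ∃ x', x' = (p' * g) ^ (2 ^ (a - 1)) := ⟨_, rfl⟩
  rw [← hx'] at hρx
  have hτQ : ∀ q ∈ Q, τ q = 1 := fun q hq => zb_tauQ M hq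
  have hτg : τ (p' * g) = τ g := by rw [map_mul, hτQ p' hp', one_mul]
  have hτx : τ x' = τ x := by rw [hx', hx, map_pow, hτg, map_pow]
  have hτρ : τ ρ⁻¹ = τ s⁻¹ := by
    rw [hρ, mul_inv_rev, map_mul, hτQ _ (Q.inv_mem hk), mul_one]
  -- the vector
  obtain ⟨v, hv⟩ : ∃ v : V, τ s (τ x v - v) ≠ τ x v - v := by
    by_contra hcon
    push Not at hcon
    let W : Submodule (ZMod 2) V := LinearMap.range (τ x - 1)
    have hW : ∀ w, w ∈ W ↔ ∃ u, τ x u - u = w := fun w => Iff.rfl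
    have h1 := S.irr W (fun w hw => by
      obtain ⟨u, rfl⟩ := (hW w).1 hw
      rw [hcon]
      exact hw) (fun w hw => by
      obtain ⟨u, rfl⟩ := (hW w).1 hw
      refine (hW _).2 ⟨τ g u, ?_⟩
      have h2 : τ x * τ g = τ g * τ x := by
        rw [← map_mul, ← map_mul, hx, ← pow_succ, ← pow_succ']
      have h3 := LinearMap.congr_fun h2 u
      rw [Module.End.mul_apply, Module.End.mul_apply] at h3
      rw [h3, map_sub])
    rcases h1 with h1 | h1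
    · apply zsb_x1 hr hr2 D M
      rw [← hx]
      apply LinearMap.ext
      intro u
      have h2 : τ x u - u ∈ W := (hW _).2 ⟨u, rfl⟩
      rw [h1, Submodule.mem_bot] at h2
      rw [Module.End.one_apply]
      exact sub_eq_zero.1 h2
    · apply S.hs1
      apply LinearMap.ext
      intro w
      have h2 : w ∈ W := by rw [h1]; trivial
      obtain ⟨u, rfl⟩ := (hW w).1 h2
      rw [hcon, Module.End.one_apply]
  obtain ⟨p, hp⟩ := M.surj v
  obtain ⟨s₀, hs₀⟩ : ∃ s₀ : F, s₀ = (p : F)⁻¹ * ρ * p := ⟨_, rfl⟩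
  obtain ⟨k₀, hk₀⟩ : ∃ k₀ : F, k₀ = (p : F)⁻¹ * k * (s * p * s⁻¹) := ⟨_, rfl⟩
  have hk₀Q : k₀ ∈ Q := by
    rw [hk₀]
    exact Q.mul_mem (Q.mul_mem (Q.inv_mem p.2) hk) (hQn.conj_mem _ p.2 s)
  have hs₀k : s₀ = k₀ * s := by
    rw [hs₀, hk₀, hρ]
    group
  have hφ1 : φ 1 = 0 := by
    have h1 := M.add 1 1
    rw [mul_one] at h1
    exact left_eq_add.1 h1
  have hφi : ∀ q : Q, φ q⁻¹ = - φ q := by
    intro q
    have h1 := M.add q⁻¹ q
    rw [inv_mul_cancel, hφ1] at h1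
    exact eq_neg_of_add_eq_zero_left h1.symm
  -- the element `c`
  obtain ⟨c, hc⟩ : ∃ c : Q, c = ⟨x' * p * x'⁻¹, hQn.conj_mem _ p.2 x'⟩ * p⁻¹ := ⟨_, rfl⟩
  have hcF : (c : F) = x' * p * x'⁻¹ * (p : F)⁻¹ := by rw [hc]; rfl
  have hφc : φ c = τ x v - v := by
    rw [hc, M.add, M.eqv, hφi, hp, hτx, sub_eq_add_neg]
  -- the element `h`
  obtain ⟨h, hh⟩ : ∃ h : Q, h = ⟨(p : F)⁻¹ * ((c⁻¹ * ⟨ρ⁻¹ * c * ρ⁻¹⁻¹, hQn.conj_mem _ c.2 ρ⁻¹⟩ : Q) : F) *
      (p : F)⁻¹⁻¹, hQn.conj_mem _ (c⁻¹ * ⟨ρ⁻¹ * c * ρ⁻¹⁻¹, hQn.conj_mem _ c.2 ρ⁻¹⟩ : Q).2 _⟩ := ⟨_, rfl⟩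
  have hhF : (h : F) = (x' * s₀ * x'⁻¹) * s₀ := by
    rw [hh]
    have h1 : x' * s₀ * x'⁻¹ = (x' * p * x'⁻¹)⁻¹ * (x' * ρ * x'⁻¹) * (x' * p * x'⁻¹) := by
      rw [hs₀]
      group
    have h2 : x' * p * x'⁻¹ = c * p := by rw [hcF]; group
    rw [h1, hρx, h2, hs₀]
    simp only [Subgroup.coe_mul, Subgroup.coe_inv]
    group
  have hφh : φ h = - φ c + τ s⁻¹ (φ c) := by
    rw [hh, M.eqv, hτQ _ (Q.inv_mem p.2), Module.End.one_apply, M.add, hφi, M.eqv, hτρ]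
  have hφh0 : φ h ≠ 0 := by
    intro h0
    rw [hφh, neg_add_eq_zero] at h0
    apply hv
    rw [← hφc]
    conv_lhs => rw [h0]
    rw [← Module.End.mul_apply, ← map_mul, mul_inv_cancel, map_one, Module.End.one_apply]
  refine ⟨s₀, k₀, hk₀Q, hs₀k, ?_, ?_⟩
  · have h1 : s₀ = (p : F)⁻¹ * ρ * (p : F)⁻¹⁻¹ := by rw [hs₀, inv_inv]
    rw [h1, conj_pow, hρm]
    group
  · have hg' : p' * g ∈ closure {p' * g, s₀} := subset_closure (by simp)
    have hs' : s₀ ∈ closure {p' * g, s₀} := subset_closure (by simp)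
    have hx'' : x' ∈ closure {p' * g, s₀} := by rw [hx']; exact pow_mem hg' _
    refine zs_cover hr hr2 D M S (closure {p' * g, s₀}) (t := p' * g) (t' := s₀) hτg ?_ ?_ ?_
      (h := h) ?_ hφh0
    · rw [hs₀k, map_mul, hτQ _ hk₀Q, one_mul]
    · intro q _ hq
      exact mul_mem (mul_mem hg' hq) (inv_mem hg')
    · intro q _ hq
      exact mul_mem (mul_mem hs' hq) (inv_mem hs')
    · rw [hhF]
      exact mul_mem (mul_mem (mul_mem hx'' hs') (inv_mem hx'')) hs'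

end Pool.Agent.Lib.MP_544bd1_al
end

section

/-!
General even exponents, section 2 (the base): (ii) of FT.
-/

namespace Pool.Agent.Lib.MP_544bd1_al

open Subgroup

/-- **(ii)** Proof. Suppose `X ≠ 0` and let `L`, `Z` be as in `zs_radchar` (`hcl`, `h2`: `M.ker`, the second
part of `zs_irr` and `zb_der` (ZtCfgB.lean): the elements of `⁅Q, Q⁆` are in the kernel of `φ`). Let
`V₀ = {φ q | q ∈ Z}`, a submodule of `V`. If `c ∈ R` then `τ c` maps `V₀` into itself: `c` centralizes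
`⁅Q, Q⁆` (`M.ker`), so `(c * q * c⁻¹) * y * (c * q * c⁻¹)⁻¹ * y⁻¹ = c * (q * (c⁻¹ * y * c) * q⁻¹ * (c⁻¹ * y * c)⁻¹) * c⁻¹ ∈ L`.
Let `Y = V ⧸ V₀`: `Nat.card Y ≤ Z.relIndex Q ≤ 16` (`q * Z ↦ φ q + V₀` is surjective). `R` acts on `Y`
(`σ : R →* (Module.End (ZMod 2) Y)ˣ`, `Submodule.mapQ`), the range of `σ` is an `r`-group, so commutative
by `zs_gl4`, and the commutators of `R`, so the elements of `⁅R, R⁆`, act trivially on `Y`. By `zs_avsum` for every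
`v ∈ V`: `0 = ∑_{c ∈ ⁅R, R⁆} τ c v ≡ Nat.card ⁅R, R⁆ • v = v` modulo `V₀` (odd order). So `V₀ = ⊤`. So every
`q ∈ Q` is `q' * c` with `q' ∈ Z`, `φ c = 0`, `c` central in `Q`, so `c ∈ Z`; `Z = Q` and all commutators of
`Q` are in `L`, `⁅Q, Q⁆ ≤ L`, contradiction to `f ∉ L`. -/
theorem zs_ii {F : Type} [Group F] [Finite F] {r a : ℕ} (hr : r.Prime) (hr2 : r ≠ 2)
    {Q R : Subgroup F} [Q.Normal] {g s : F} (D : ZsMin r a Q R g) {V : Type} [AddCommGroup V]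
    [Module (ZMod 2) V] [Finite V] {τ : F →* Module.End (ZMod 2) V} {φ : Q → V}
    (M : ZMd Q R τ φ) (S : ZsRb r a R g s τ) {p : ℕ} (hp : p.Prime) (hp2 : p ≠ 2) {X : Type}
    [AddCommGroup X] [Module (ZMod p) X] [Finite X] (hX : Nat.card X ≤ p ^ 4)
    (ρ : Q →* Module.End (ZMod p) X) {f : F} (hf : f ∈ Q) (hfQ : f ∈ ⁅Q, Q⁆)
    (hρf : ρ ⟨f, hf⟩ = -1) : ∀ x : X, x = 0 := by
  classical
  by_contra hX0
  have hX0' : ∃ x : X, x ≠ 0 := by
    by_contra h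
    apply hX0
    intro x
    by_contra hx
    exact h ⟨x, hx⟩
  have hirr := (zs_irr hr hr2 D.core M).2.1
  have hφ1 : φ 1 = 0 := by
    have h1 := M.add 1 1
    rw [mul_one] at h1
    exact left_eq_add.1 h1
  have hφinv : ∀ q : Q, φ q⁻¹ = - φ q := by
    intro q
    have h1 := M.add q⁻¹ q
    rw [inv_mul_cancel, hφ1] at h1
    exact (neg_eq_of_add_eq_zero_left h1.symm).symm
  have hcl : ∀ c ∈ ⁅Q, Q⁆, ∀ y ∈ Q, c * y = y * c := by
    intro c hc y hy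
    obtain ⟨h, h'⟩ := zb_der M c hc
    exact (M.ker ⟨c, h⟩ h').2 y hy
  have h2 : ∀ c ∈ ⁅Q, Q⁆, c ^ 2 = 1 := by
    intro c hc
    obtain ⟨h, h'⟩ := zb_der M c hc
    exact (hirr ⟨c, h⟩ h').2
  have hRc : ∀ c ∈ ⁅Q, Q⁆, ∀ y ∈ R, y * c = c * y := by
    intro c hc y hy
    obtain ⟨h, h'⟩ := zb_der M c hc
    exact (M.ker ⟨c, h⟩ h').1 y hy
  obtain ⟨L, Z, hL, hfL, hZ, hidx⟩ := zs_radchar hcl h2 hp hp2 hX hX0' ρ hf hfQ hρf
  -- the submodule
  let V₀' : AddSubgroup V :=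
    { carrier := {v | ∃ q : Q, (q : F) ∈ Z ∧ φ q = v}
      add_mem' := by
        rintro v w ⟨q, hq, rfl⟩ ⟨q', hq', rfl⟩
        exact ⟨q * q', Z.mul_mem hq hq', M.add q q'⟩
      zero_mem' := ⟨1, Z.one_mem, hφ1⟩
      neg_mem' := by
        rintro v ⟨q, hq, rfl⟩
        exact ⟨q⁻¹, Z.inv_mem hq, hφinv q⟩ }
  let V₀ : Submodule (ZMod 2) V := AddSubgroup.toZModSubmodule 2 V₀'
  have hV₀ : ∀ v, v ∈ V₀ ↔ ∃ q : Q, (q : F) ∈ Z ∧ φ q = v := fun v => Iff.rfl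
  have hRV : ∀ c ∈ R, V₀ ≤ V₀.comap (τ c) := by
    intro c hc v hv
    rw [hV₀] at hv
    obtain ⟨q, hq, rfl⟩ := hv
    rw [Submodule.mem_comap, hV₀]
    refine ⟨⟨c * q * c⁻¹, (inferInstance : Q.Normal).conj_mem _ q.2 c⟩, ?_, M.eqv c q⟩
    rw [hZ]
    refine ⟨(inferInstance : Q.Normal).conj_mem _ q.2 c, fun y hy => ?_⟩
    have hy' : c⁻¹ * y * c ∈ Q := by
      have := (inferInstance : Q.Normal).conj_mem y hy c⁻¹
      rwa [inv_inv] at this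
    have h3 := ((hZ q).1 hq).2 _ hy'
    have h4 : c * q * c⁻¹ * y * (c * q * c⁻¹)⁻¹ * y⁻¹ =
        c * (q * (c⁻¹ * y * c) * (q : F)⁻¹ * (c⁻¹ * y * c)⁻¹) * c⁻¹ := by group
    rw [h4, hRc _ (hL h3) c hc, mul_inv_cancel_right]
    exact h3
  -- the quotient
  have hcardY : Nat.card (V ⧸ V₀) ≤ 16 := by
    refine le_trans ?_ hidx
    unfold Subgroup.relIndex Subgroup.index
    have hs : Function.Surjective (fun x : Q ⧸ (Z.subgroupOf Q) =>
        Quotient.liftOn' x (fun q : Q => V₀.mkQ (φ q)) (by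
          intro q q' hqq
          have h3 : q⁻¹ * q' ∈ Z.subgroupOf Q := QuotientGroup.leftRel_apply.1 hqq
          have h4 : (V₀.mkQ (φ q) = V₀.mkQ (φ q')) := by
            rw [← sub_eq_zero, ← map_sub, Submodule.mkQ_apply, Submodule.Quotient.mk_eq_zero]
            rw [← neg_mem_iff, hV₀]
            refine ⟨q⁻¹ * q', h3, ?_⟩
            rw [M.add, hφinv]
            abel
          exact h4)) := by
      intro y
      obtain ⟨v, rfl⟩ := V₀.mkQ_surjective y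
      obtain ⟨q, rfl⟩ := M.surj v
      exact ⟨Quotient.mk'' q, rfl⟩
    exact Nat.card_le_card_of_surjective _ hs
  let σ₀ : R →* Module.End (ZMod 2) (V ⧸ V₀) :=
    { toFun := fun c => V₀.mapQ V₀ (τ (c : F)) (hRV c c.2)
      map_one' := by
        ext v
        simp
      map_mul' := by
        intro b c
        ext v
        simp }
  have hσ₀ : ∀ (c : R) (v : V), σ₀ c (V₀.mkQ v) = V₀.mkQ (τ (c : F) v) := fun c v => rfl
  let σ : R →* (Module.End (ZMod 2) (V ⧸ V₀))ˣ := σ₀.toHomUnits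
  have hσ : ∀ c : R, ((σ c : (Module.End (ZMod 2) (V ⧸ V₀))ˣ) : Module.End (ZMod 2) (V ⧸ V₀)) =
      σ₀ c := fun c => rfl
  have hpg : IsPGroup r σ.range :=
    IsPGroup.of_surjective D.core.hR σ.rangeRestrict σ.rangeRestrict_surjective
  have hfinY : Finite (V ⧸ V₀) := Finite.of_surjective V₀.mkQ V₀.mkQ_surjective
  have hcomm := zs_gl4 hr hr2 hcardY hpg
  have hRR : ∀ c ∈ (⁅R, R⁆ : Subgroup F), ∃ h : c ∈ R, σ ⟨c, h⟩ = 1 := by
    have h3 : (⁅R, R⁆ : Subgroup F) ≤ σ.ker.map R.subtype := by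
      rw [Subgroup.commutator_le]
      intro b hb c hc
      have h4 := hcomm (σ ⟨b, hb⟩) ⟨_, rfl⟩ (σ ⟨c, hc⟩) ⟨_, rfl⟩
      refine ⟨(⟨b, hb⟩ : R) * ⟨c, hc⟩ * (⟨b, hb⟩ : R)⁻¹ * (⟨c, hc⟩ : R)⁻¹, ?_, rfl⟩
      change _ ∈ σ.ker
      rw [MonoidHom.mem_ker, map_mul, map_mul, map_mul, map_inv, map_inv, h4]
      group
    intro c hc
    obtain ⟨d, hd, rfl⟩ := h3 hc
    exact ⟨d.2, hd⟩
  have htop : ∀ v, v ∈ V₀ := by
    intro v
    have : Fintype (⁅R, R⁆ : Subgroup F) := Fintype.ofFinite _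
    have h3 := congrArg V₀.mkQ (zs_avsum S v)
    rw [map_sum, map_zero] at h3
    have h4 : ∀ c : (⁅R, R⁆ : Subgroup F), V₀.mkQ (τ (c : F) v) = V₀.mkQ v := by
      intro c
      obtain ⟨h, h'⟩ := hRR c c.2
      rw [← hσ₀ ⟨c, h⟩ v, ← hσ, h']
      rfl
    rw [Finset.sum_congr rfl (fun c _ => h4 c), Finset.sum_const] at h3
    have hle : (⁅R, R⁆ : Subgroup F) ≤ R := by
      rw [Subgroup.commutator_le]
      intro b hb c hc
      exact R.mul_mem (R.mul_mem (R.mul_mem hb hc) (R.inv_mem hb)) (R.inv_mem hc)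
    have hpg : IsPGroup r (⁅R, R⁆ : Subgroup F) := D.core.hR.to_le hle
    have : Fact r.Prime := ⟨hr⟩
    obtain ⟨n, hn⟩ := IsPGroup.iff_card.1 hpg
    have hodd : Odd (Finset.univ : Finset (⁅R, R⁆ : Subgroup F)).card := by
      rw [Finset.card_univ, ← Nat.card_eq_fintype_card, hn]
      exact (hr.odd_of_ne_two hr2).pow
    obtain ⟨k, hk⟩ := hodd
    have h5 : (2 : ℕ) • V₀.mkQ v = 0 := by
      rw [← Nat.cast_smul_eq_nsmul (ZMod 2)]
      have : ((2 : ℕ) : ZMod 2) = 0 := by decide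
      rw [this, zero_smul]
    rw [hk, add_smul, one_smul, mul_comm, mul_smul, h5, smul_zero, zero_add] at h3
    rwa [Submodule.mkQ_apply, Submodule.Quotient.mk_eq_zero] at h3
  -- the end
  apply hfL
  have hQL : (⁅Q, Q⁆ : Subgroup F) ≤ L := by
    rw [Subgroup.commutator_le]
    intro q hq y hy
    obtain ⟨q', hq', h3⟩ := (hV₀ _).1 (htop (φ ⟨q, hq⟩))
    have h4 : φ (q'⁻¹ * ⟨q, hq⟩) = 0 := by
      rw [M.add, hφinv, h3]
      abel
    have h5 := (M.ker _ h4).2 y hy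
    have h6 := ((hZ q').1 hq').2 y hy
    have h7 : q * y * q⁻¹ * y⁻¹ = q' * y * (q' : F)⁻¹ * y⁻¹ := by
      have h8 : (((q'⁻¹ * ⟨q, hq⟩ : Q)) : F) = (q' : F)⁻¹ * q := rfl
      rw [h8] at h5
      have h9 : q * y * q⁻¹ = q' * y * (q' : F)⁻¹ := by
        have h10 : (q' : F)⁻¹ * q * y * ((q' : F)⁻¹ * q)⁻¹ = y := by
          rw [h5, mul_inv_cancel_right]
        calc q * y * q⁻¹ = q' * ((q' : F)⁻¹ * q * y * ((q' : F)⁻¹ * q)⁻¹) * (q' : F)⁻¹ := by group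
          _ = _ := by rw [h10]
      rw [h9]
    change q * y * q⁻¹ * y⁻¹ ∈ L
    rw [h7]
    exact h6
  exact hQL hfQ

end Pool.Agent.Lib.MP_544bd1_al
end

section

/-!
General even exponents, section 2 (the base): 2.2, `P` nonabelian and `x` trivial on `P'`.
-/

namespace Pool.Agent.Lib.MP_544bd1_al

open Subgroup

theorem zs22_kn {F : Type} [Group F] {Q R : Subgroup F} [hQn : Q.Normal] {g : F} {V : Type}
    [AddCommGroup V] [Module (ZMod 2) V] {τ : F →* Module.End (ZMod 2) V} {φ : Q → V}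
    (M : ZMd Q R τ φ) (p : Q) (n : ℕ) :
    ∃ k : Q, ((p : F) * g) ^ n = k * g ^ n ∧ φ k = ∑ i ∈ Finset.range n, ((τ g) ^ i) (φ p) := by
  have hφ1 : φ 1 = 0 := by
    have h1 := M.add 1 1
    rw [mul_one] at h1
    exact left_eq_add.1 h1
  induction n with
  | zero => exact ⟨1, by simp, by simpa using hφ1⟩
  | succ n ih =>
    obtain ⟨k, hk1, hk2⟩ := ih
    refine ⟨p * ⟨g * k * g⁻¹, hQn.conj_mem _ k.2 g⟩, ?_, ?_⟩
    · rw [pow_succ', hk1]
      show (p : F) * g * (k * g ^ n) = p * (g * k * g⁻¹) * g ^ (n + 1)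
      rw [pow_succ' g n]
      group
    · rw [M.add, M.eqv, hk2, Finset.sum_range_succ', map_sum]
      rw [add_comm]
      congr 1
      apply Finset.sum_congr rfl
      intro i _
      rw [pow_succ']
      rfl

/-- **2.2** -/
theorem zs_22 {m a : ℕ} (ha : 3 ≤ a) (hm : Odd m) {F : Type} [Group F] [Finite F]
    (hsol : Group.IsSolvable F) (hexp : ∀ x : F, x ^ (m * 2 ^ a) = 1) {r : ℕ} (hr : r.Prime)
    (hr2 : r ≠ 2) {Q R : Subgroup F} [hQn : Q.Normal] {g s : F} (D : ZsMin r a Q R g) {V : Type}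
    [AddCommGroup V] [Module (ZMod 2) V] [Finite V] {τ : F →* Module.End (ZMod 2) V} {φ : Q → V}
    (M : ZMd Q R τ φ) (S : ZsRb r a R g s τ) (hL : (τ g - 1) ^ (3 * 2 ^ (a - 2) - 1) ≠ 0)
    {K : Type} [AddCommGroup K] {ι : K → F} {θ : F → K → K} {q : V → K} {β : V → V → K}
    (Z : ZQuad Q R τ φ ι θ q β)
    (hx : ∀ c ∈ ⁅Q, Q⁆, g ^ (2 ^ (a - 1)) * c = c * g ^ (2 ^ (a - 1))) (hne : ∃ v w, β v w ≠ 0) :
    ∃ (S' Q' Y : Subgroup F) (g' u f w s₀ : F), YFT m a S' Q' Y g' u f w s₀ := by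
  have ha0 : 0 < a := by omega
  obtain ⟨b1, b2, b3, b4⟩ := zs_form ha0 hr hr2 D S Z hx
  have hnd := zs_nd S Z b4 hne
  have hT : (τ g) ^ (2 ^ a) = 1 := by rw [← map_pow, D.hg, map_one]
  obtain ⟨v', u₀, c1, c2, c3, y, c4⟩ := zs_uv (by omega) hT hL Z.two (Z.θadd g) Z.βl Z.βr Z.βs
    (fun v w => Z.βθ g v w) (by
      intro v w hw
      have h1 := b3 v w
      rw [map_pow] at h1
      exact h1 hw) hnd
  obtain ⟨p, rfl⟩ := M.surj v'
  obtain ⟨u, rfl⟩ := M.surj u₀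
  obtain ⟨k, hk1, hk2⟩ := zs22_kn (g := g) M p (2 ^ (a - 1))
  rw [← hk2] at c1 c2
  -- general facts
  have hτmul : ∀ (a b : F) (v : V), τ (a * b) v = τ a (τ b v) := by
    intro a b v
    rw [map_mul]
    rfl
  have hV2 : ∀ v : V, v + v = 0 := fun v => ZModModule.add_self v
  have hφ1 : φ 1 = 0 := by
    have h1 := M.add 1 1
    rw [mul_one] at h1
    exact left_eq_add.1 h1
  have hφi : ∀ a : Q, φ a⁻¹ = φ a := by
    intro a
    have h1 := M.add a a⁻¹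
    rw [mul_inv_cancel, hφ1] at h1
    have h2 := hV2 (φ a)
    rw [← h2] at h1
    exact (add_left_cancel h1).symm
  have hτQ : ∀ {p : F}, p ∈ Q → τ p = 1 := fun hp => zb_tauQ M hp
  obtain ⟨-, irr2, -, -⟩ := zs_irr hr hr2 D.core M
  have hι0 : ι 0 = 1 := by
    have h1 := Z.ιadd 0 0
    rw [add_zero] at h1
    exact left_eq_mul.1 h1
  obtain ⟨x, hxd⟩ : ∃ x, x = g ^ (2 ^ (a - 1)) := ⟨_, rfl⟩
  obtain ⟨fK, hfK⟩ : ∃ fK, fK = β (φ k) (φ u) := ⟨_, rfl⟩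
  rw [← hfK] at c1 c2
  have ux : x * (u : F) = u * x := by
    rw [hxd]
    refine zs_kap ha0 hr hr2 D M S (fun c hc => hx _ (irr2 c hc).1) u ?_
    rw [map_pow]
    exact c3
  have hfx : x * ι fK = ι fK * x := by rw [hxd]; exact hx _ (Z.ιQ fK)
  have hfg : g * ι fK = ι fK * g := by
    have h1 := Z.ιθ g fK
    rw [c2] at h1
    nth_rewrite 2 [h1]
    group
  have hfQ : ∀ y ∈ Q, y * ι fK = ι fK * y := fun y hy => Z.ιc fK y hy
  have hf1 : ι fK ≠ 1 := by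
    intro h
    apply c1
    apply Z.inj
    rw [h, hι0]
  have hff : ι fK * ι fK = 1 := by rw [← Z.ιadd, Z.two, hι0]
  have hfQQ : ι fK ∈ ⁅Q, Q⁆ := Z.ιQ fK
  have hfmem : ι fK ∈ Q := (zb_der M _ hfQQ).1
  have hku : (k : F) * u = ι fK * u * k := by
    have h1 := Z.hβ k u
    rw [← hfK] at h1
    rw [h1]
    group
  have hg' : ((p : F) * g) ^ (2 ^ a) = 1 := zsb_pow hm hexp D p.2
  have hx' : (u : F)⁻¹ * ((p : F) * g) ^ (2 ^ (a - 1)) * u =
      ((p : F) * g) ^ (2 ^ (a - 1)) * ι fK := by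
    rw [hk1, ← hxd]
    calc (u : F)⁻¹ * (k * x) * u = (u : F)⁻¹ * k * (x * u) := by group
      _ = (u : F)⁻¹ * (k * u) * x := by rw [ux]; group
      _ = (u : F)⁻¹ * (ι fK * u) * k * x := by rw [hku]; group
      _ = ι fK * k * x := by rw [← hfQ u u.2]; group
      _ = k * (ι fK * x) := by rw [← hfQ k k.2]; group
      _ = k * x * ι fK := by rw [← hfx]; group
  -- the elements `w`, `s₀`
  obtain ⟨w, kw, hkw, hwk, hw, hwQ⟩ := zs_W (by omega) hm hexp hr hr2 D M S p.2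
  obtain ⟨s₀, k₀, hk₀, hs₀k, hs₀m, hs₀Q⟩ := zs_s0 (by omega) hm hexp hr hr2 D M S p.2
  obtain ⟨S', hS'⟩ : ∃ S', S' = closure {(p : F) * g, s₀} := ⟨_, rfl⟩
  rw [← hS'] at hs₀Q
  have hgS : (p : F) * g ∈ S' := by rw [hS']; exact subset_closure (by simp)
  have hsS : s₀ ∈ S' := by rw [hS']; exact subset_closure (by simp)
  have hg0S : g ∈ S' := by
    have h1 := S'.mul_mem (S'.inv_mem (hs₀Q p.2)) hgS
    rwa [inv_mul_cancel_left] at h1
  have hsS' : s ∈ S' := by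
    have h1 := S'.mul_mem (S'.inv_mem (hs₀Q hk₀)) hsS
    rwa [hs₀k, inv_mul_cancel_left] at h1
  have hwS' : w ∈ S' := by
    rw [hwk]
    exact S'.mul_mem (hs₀Q hkw) hsS'
  have hCS : closure {(p : F) * g, w⁻¹ * ((p : F) * g) * w} = S' := by
    apply le_antisymm
    · rw [closure_le]
      rintro z (rfl | rfl)
      · exact hgS
      · exact S'.mul_mem (S'.mul_mem (S'.inv_mem hwS') hgS) hwS'
    · rw [hS', closure_le]
      have h0 : s = kw⁻¹ * w := by rw [hwk]; group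
      rintro z (rfl | rfl)
      · exact subset_closure (by simp)
      · show z ∈ closure {(p : F) * g, w⁻¹ * ((p : F) * g) * w}
        rw [hs₀k, h0]
        exact mul_mem (hwQ hk₀) (mul_mem (inv_mem (hwQ hkw)) hw)
  have hτg' : τ ((p : F) * g) = τ g := by rw [map_mul, hτQ p.2, one_mul]
  have hτs₀ : τ s₀ = τ s := by rw [hs₀k, map_mul, hτQ hk₀, one_mul]
  have hfS : ∀ h ∈ S', h * ι fK = ι fK * h := by
    have h1 : S' ≤ centralizer {ι fK} := by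
      rw [hS', closure_le]
      rintro z (rfl | rfl)
      · show (p : F) * g ∈ centralizer {ι fK}
        rw [mem_centralizer_singleton_iff, mul_assoc, hfg, ← mul_assoc, hfQ p p.2, mul_assoc]
      · show z ∈ centralizer {ι fK}
        rw [mem_centralizer_singleton_iff, hs₀k, mul_assoc, Z.ιR fK s S.hs, ← mul_assoc,
          hfQ k₀ hk₀, mul_assoc]
    intro h hh
    exact mem_centralizer_singleton_iff.1 (h1 hh)
  -- the subgroup `Y`
  have hτgx : ∀ v : V, τ g (τ x v) = τ x (τ g v) := by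
    intro v
    rw [← hτmul, ← hτmul, hxd, ← pow_succ, ← pow_succ']
  let Y : Subgroup F :=
    { carrier := {c | ∃ h : c ∈ Q, ∃ y', φ ⟨c, h⟩ = y' + τ x y'}
      mul_mem' := by
        rintro b c ⟨hb, y₁, hy₁⟩ ⟨hc, y₂, hy₂⟩
        refine ⟨Q.mul_mem hb hc, y₁ + y₂, ?_⟩
        have h1 := M.add ⟨b, hb⟩ ⟨c, hc⟩
        rw [hy₁, hy₂] at h1
        have h2 : φ ⟨b * c, Q.mul_mem hb hc⟩ = y₁ + τ x y₁ + (y₂ + τ x y₂) := h1
        rw [h2, map_add]
        abel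
      one_mem' := ⟨Q.one_mem, 0, by
        have h2 : φ ⟨1, Q.one_mem⟩ = 0 := hφ1
        rw [h2, map_zero, add_zero]⟩
      inv_mem' := by
        rintro b ⟨hb, y₁, hy₁⟩
        refine ⟨Q.inv_mem hb, y₁, ?_⟩
        have h1 := hφi ⟨b, hb⟩
        rw [hy₁] at h1
        exact h1 }
  have hYQ : Y ≤ Q := fun c hc => hc.1
  have hY2 : ∀ c ∈ Y, c ^ 2 = 1 := by
    rintro c ⟨hc, y', hy'⟩
    have h1 := Z.hq ⟨c, hc⟩
    rw [hy', hxd, b2, hι0] at h1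
    exact h1.symm
  have hgY : ∀ c ∈ Y, (p : F) * g * c * ((p : F) * g)⁻¹ ∈ Y := by
    rintro c ⟨hc, y', hy'⟩
    refine ⟨hQn.conj_mem _ hc _, τ g y', ?_⟩
    have h1 := M.eqv ((p : F) * g) ⟨c, hc⟩
    rw [hτg', hy', map_add, hτgx] at h1
    exact h1
  refine ⟨S', Q, Y, (p : F) * g, u, ι fK, w, s₀, ?_⟩
  refine
    { fin := inferInstance
      sol := by
        have := hsol
        exact inferInstance
      hQS := hs₀Q
      hQ2 := D.core.hQ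
      hSQ := fun h _ c hc => hQn.conj_mem c hc h
      hYQ := hYQ
      hY2 := hY2
      hgY := hgY
      hg := hg'
      hgS := hgS
      hu := u.2
      hf := hfmem
      hf1 := hf1
      hf2 := by rw [pow_two]; exact hff
      hfS := hfS
      i := ?_
      ii := ?_
      hw := hw
      hwS := hCS
      hs := hs₀m
      hsS := hS'.symm
      hx := hx'
      hm := ?_ }
  · -- (i)
    intro B hB
    obtain ⟨B', hB'⟩ : ∃ B', B' = closure {z : F | ∃ h ∈ S', h ^ (2 ^ a) = 1 ∧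
        z = h ^ (2 ^ (a - 1))} := ⟨_, rfl⟩
    have hB'B : B' ≤ B := by
      rw [hB', closure_le]
      rintro _ ⟨h, hh, h1, rfl⟩
      exact hB h hh h1
    have hnorm : ∀ t ∈ S', ∀ c ∈ B', t * c * t⁻¹ ∈ B' := by
      intro t ht c hc
      rw [hB'] at hc
      induction hc using closure_induction with
      | mem z hz =>
        obtain ⟨h, hh, h1, rfl⟩ := hz
        rw [hB']
        apply Subgroup.subset_closure
        refine ⟨t * h * t⁻¹, S'.mul_mem (S'.mul_mem ht hh) (S'.inv_mem ht), ?_, ?_⟩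
        · rw [conj_pow, h1]
          group
        · rw [conj_pow]
      | one =>
        rw [mul_one, mul_inv_cancel]
        exact B'.one_mem
      | mul z z' _ _ h1 h2 =>
        have h3 : t * (z * z') * t⁻¹ = (t * z * t⁻¹) * (t * z' * t⁻¹) := by group
        rw [h3]
        exact B'.mul_mem h1 h2
      | inv z _ h1 =>
        have h3 : t * z⁻¹ * t⁻¹ = (t * z * t⁻¹)⁻¹ := by group
        rw [h3]
        exact B'.inv_mem h1
    refine le_trans (zs_cover hr hr2 D M S B' (t := (p : F) * g) (t' := s₀) hτg' hτs₀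
      (fun c _ hc => hnorm _ hgS c hc) (fun c _ hc => hnorm _ hsS c hc) (h := k) ?_ ?_) hB'B
    · have h1 : ((p : F) * g) ^ (2 ^ (a - 1)) ∈ B' := by
        rw [hB']
        exact subset_closure ⟨_, hgS, hg', rfl⟩
      have h2 : g ^ (2 ^ (a - 1)) ∈ B' := by
        rw [hB']
        exact subset_closure ⟨_, hg0S, D.hg, rfl⟩
      rw [hk1] at h1
      have h3 := B'.mul_mem h1 (B'.inv_mem h2)
      rwa [mul_inv_cancel_right] at h3
    · intro h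
      apply c1
      rw [hfK, h]
      have h1 := Z.βl 0 0 (φ u)
      rw [add_zero] at h1
      exact left_eq_add.1 h1
  · -- (ii)
    intro p₁ hp₁ hp₁2 X _ _ _ ρ hX hρ
    exact zs_ii hr hr2 D M S hp₁ hp₁2 hX ρ hfmem hfQQ hρ
  · -- `hm`
    have hu' : (u : F)⁻¹ * (((p : F) * g) ^ (2 ^ (a - 2)) * u * (((p : F) * g) ^ (2 ^ (a - 2)))⁻¹) ∈ Q :=
      Q.mul_mem (Q.inv_mem u.2) (hQn.conj_mem _ u.2 _)
    refine ⟨hu', y, ?_⟩
    have h1 := M.add u⁻¹ ⟨((p : F) * g) ^ (2 ^ (a - 2)) * u * (((p : F) * g) ^ (2 ^ (a - 2)))⁻¹,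
      hQn.conj_mem _ u.2 _⟩
    rw [hφi, M.eqv, map_pow, hτg', c4, map_add] at h1
    have h2 : ((τ g) ^ 2 ^ (a - 2)) (((τ g) ^ 2 ^ (a - 2)) y) = τ x y := by
      have h3 : (τ g) ^ 2 ^ (a - 2) * (τ g) ^ 2 ^ (a - 2) = τ x := by
        rw [hxd, map_pow, ← pow_add, ← two_mul, ← pow_succ']
        congr 2
        omega
      rw [← h3]
      rfl
    rw [h2] at h1
    have h4 : y + ((τ g) ^ 2 ^ (a - 2)) y + (((τ g) ^ 2 ^ (a - 2)) y + τ x y) =
        y + τ x y + (((τ g) ^ 2 ^ (a - 2)) y + ((τ g) ^ 2 ^ (a - 2)) y) := by abel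
    rw [h4, hV2, add_zero] at h1
    exact h1

end Pool.Agent.Lib.MP_544bd1_al
end
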