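import Mathlib
import Pool.Agent.Lib.MP_544bd1_al.ZsC0
import Pool.Agent.Lib.MP_544bd1_al.ZtNorm

section

/-!
Theorem Z (paper 287), 4.5-4.8: the elements of the group generated by g and τ.
-/

namespace Pool.Agent.Lib.MP_544bd1_al

open Subgroup

variable {m a : ℕ}

private theorem kg_inv {X : Type} [Group X] [Finite X] (x : X) :
    x⁻¹ = x ^ (Nat.card X - 1) := by
  have h1 : x ^ (Nat.card X) = 1 := pow_card_eq_one'
  have h2 : Nat.card X - 1 + 1 = Nat.card X := Nat.sub_add_cancel Nat.card_pos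
  have h3 : x ^ (Nat.card X - 1) * x = 1 := by rw [← pow_succ, h2, h1]
  exact (eq_inv_of_mul_eq_one_left h3).symm

private theorem kg_form {X : Type} [Group X] [Finite X] {g τ : X} (hgτ : g * τ = τ * g) {h : X}
    (hh : h ∈ closure {g, τ}) : ∃ I L : ℕ, h = τ ^ I * g ^ L := by
  have hc : Commute g τ := hgτ
  induction hh using closure_induction with
  | mem x hx =>
    rcases hx with rfl | rfl
    · exact ⟨0, 1, by simp⟩
    · exact ⟨1, 0, by simp⟩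
  | one => exact ⟨0, 0, by simp⟩
  | mul x y _ _ hx hy =>
    obtain ⟨I, L, rfl⟩ := hx
    obtain ⟨I', L', rfl⟩ := hy
    refine ⟨I + I', L + L', ?_⟩
    have h1 : g ^ L * τ ^ I' = τ ^ I' * g ^ L := (hc.pow_pow L I').eq
    rw [pow_add, pow_add]
    calc τ ^ I * g ^ L * (τ ^ I' * g ^ L') = τ ^ I * (g ^ L * τ ^ I') * g ^ L' := by group
      _ = τ ^ I * (τ ^ I' * g ^ L) * g ^ L' := by rw [h1]
      _ = _ := by group
  | inv x _ hx =>
    obtain ⟨I, L, rfl⟩ := hx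
    refine ⟨I * (Nat.card X - 1), L * (Nat.card X - 1), ?_⟩
    have h1 : Commute (τ ^ I) (g ^ L) := hc.symm.pow_pow I L
    rw [kg_inv (τ ^ I * g ^ L), h1.mul_pow, pow_mul, pow_mul]

private theorem kg_form1 {X : Type} [Group X] [Finite X] {g : X} {h : X}
    (hh : h ∈ closure {g}) : ∃ L : ℕ, h = g ^ L := by
  obtain ⟨I, L, h1⟩ := kg_form (g := g) (τ := g) rfl (h := h) (by simpa using hh)
  exact ⟨I + L, by rw [h1, pow_add]⟩

private theorem kg_tr {X : Type} [Group X] {k n : ℕ} {Q R : Subgroup X} {g τ : X}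
    (hgτ : g * τ = τ * g) (hκ : YTr Q R (g ^ n)) (hτ : YTr Q R (τ ^ k)) (I L : ℕ) :
    YTr Q R ((τ ^ (I % k) * g ^ (L % n))⁻¹ * (τ ^ I * g ^ L)) := by
  have hc : Commute g τ := hgτ
  have h1 : τ ^ I = τ ^ (I % k) * (τ ^ k) ^ (I / k) := by
    rw [← pow_mul, ← pow_add, Nat.mod_add_div]
  have h2 : g ^ L = (g ^ n) ^ (L / n) * g ^ (L % n) := by
    rw [← pow_mul, ← pow_add, Nat.div_add_mod]
  have h3 : (τ ^ (I % k) * g ^ (L % n))⁻¹ * (τ ^ I * g ^ L) =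
      (τ ^ k) ^ (I / k) * (g ^ n) ^ (L / n) := by
    have e1 : Commute (g ^ (L % n)) ((τ ^ k) ^ (I / k)) := by
      rw [← pow_mul]; exact hc.pow_pow _ _
    have e2 : Commute (g ^ (L % n)) ((g ^ n) ^ (L / n)) := by
      rw [← pow_mul]; exact (Commute.refl g).pow_pow _ _
    have e3 : g ^ (L % n) * ((τ ^ k) ^ (I / k) * (g ^ n) ^ (L / n)) =
        ((τ ^ k) ^ (I / k) * (g ^ n) ^ (L / n)) * g ^ (L % n) := (e1.mul_right e2).eq
    rw [h1, h2]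
    calc (τ ^ (I % k) * g ^ (L % n))⁻¹ *
          (τ ^ (I % k) * (τ ^ k) ^ (I / k) * ((g ^ n) ^ (L / n) * g ^ (L % n)))
        = (g ^ (L % n))⁻¹ * (((τ ^ k) ^ (I / k) * (g ^ n) ^ (L / n)) * g ^ (L % n)) := by group
      _ = _ := by rw [← e3]; group
  rw [h3]
  exact (hτ.pow _).mul (hκ.pow _)

/-- **The elements of `⟨g, τ⟩`.** `κ = g ^ (2 ^ (a - 1))` and `τ ^ (3 ^ k)` act trivially, so the action of
`h` is that of `τ ^ i * g ^ l`, `i < 3 ^ k`, `l < 2 ^ (a - 1)`.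

Proof. `h = τ ^ I * g ^ L` for naturals `I`, `L` (`X` finite, `g`, `τ` commute; `closure_induction`, inverses:
`g⁻¹ = g ^ (orderOf g - 1)`). Put `i = I % 3 ^ k`, `l = L % 2 ^ (a - 1)`: `(τ ^ i * g ^ l)⁻¹ * h` is a
product of powers of `τ ^ (3 ^ k)` and `g ^ (2 ^ (a - 1))`, so `YTr` (`YTr.pow`, `YTr.mul`). If
`(i, l) = (0, 0)`: first case; if `(i, l) = (0, 2 ^ (a - 2))`: second case; otherwise `H` and
`yOut_congr`. The other three statements: `g ^ l * h` for `h ∈ closure {τ}` is `τ ^ I * g ^ l`, etc., the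
same argument (`2 ^ (a - 2) < 2 ^ (a - 1)`). -/
theorem yk_tri (ha : 3 ≤ a) {X : Type} [Group X] [Finite X] {k : ℕ} {Q Q₀ R E : Subgroup X}
    {g τ : X} (h0 : Q₀ ≤ Q) (hE : E ≤ R) (hgτ : g * τ = τ * g)
    (hκ : YTr Q R (g ^ (2 ^ (a - 1)))) (hτ : YTr Q R (τ ^ (3 ^ k)))
    (H : ∀ i l, i < 3 ^ k → l < 2 ^ (a - 1) → ¬ (i = 0 ∧ (l = 0 ∨ l = 2 ^ (a - 2))) →
      YOut Q₀ E (τ ^ i * g ^ l)) :
    (∀ h ∈ closure {g, τ}, YTr Q R h ∨ YTr Q R ((g ^ (2 ^ (a - 2)))⁻¹ * h) ∨ YOut Q₀ E h) ∧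
      (∀ l, 0 < l → l < 2 ^ (a - 2) → YOut Q₀ E (g ^ l)) ∧
      (∀ i, 0 < i → i < 3 ^ k → ∀ h ∈ closure {g}, YOut Q₀ E (τ ^ i * h)) ∧
      ∀ l, 0 < l → l < 2 ^ (a - 2) → ∀ h ∈ closure {τ}, YOut Q₀ E (g ^ l * h) := by
  have h3k : 0 < 3 ^ k := Nat.pow_pos (by norm_num)
  have h2a : 0 < 2 ^ (a - 1) := Nat.pow_pos (by norm_num)
  have hlt : 2 ^ (a - 2) < 2 ^ (a - 1) := Nat.pow_lt_pow_right (by norm_num) (by omega)
  have hc : Commute g τ := hgτ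
  refine ⟨?_, ?_, ?_, ?_⟩
  · intro h hh
    obtain ⟨I, L, rfl⟩ := kg_form hgτ hh
    have h1 := kg_tr hgτ hκ hτ I L
    by_cases hc1 : I % 3 ^ k = 0 ∧ (L % 2 ^ (a - 1) = 0 ∨ L % 2 ^ (a - 1) = 2 ^ (a - 2))
    · obtain ⟨h2, h3 | h3⟩ := hc1
      · left
        rw [h2, h3, pow_zero, pow_zero, one_mul, inv_one, one_mul] at h1
        exact h1
      · right; left
        rw [h2, h3, pow_zero, one_mul] at h1
        exact h1
    · right; right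
      exact yOut_congr h0 hE h1 (H _ _ (Nat.mod_lt _ h3k) (Nat.mod_lt _ h2a) hc1)
  · intro l hl1 hl2
    have h1 := H 0 l h3k (hl2.trans hlt) (by
      rintro ⟨-, h | h⟩ <;> omega)
    rwa [pow_zero, one_mul] at h1
  · intro i hi1 hi2 h hh
    obtain ⟨L, rfl⟩ := kg_form1 hh
    have h1 := kg_tr hgτ hκ hτ i L
    rw [Nat.mod_eq_of_lt hi2] at h1
    exact yOut_congr h0 hE h1 (H _ _ hi2 (Nat.mod_lt _ h2a) (by
      rintro ⟨h, -⟩; omega))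
  · intro l hl1 hl2 h hh
    obtain ⟨I, rfl⟩ := kg_form1 hh
    have h1 := kg_tr hgτ hκ hτ I l
    rw [Nat.mod_eq_of_lt (hl2.trans hlt)] at h1
    rw [(hc.pow_pow l I).eq]
    exact yOut_congr h0 hE h1 (H _ _ (Nat.mod_lt _ h3k) (hl2.trans hlt) (by
      rintro ⟨-, h | h⟩ <;> omega))

end Pool.Agent.Lib.MP_544bd1_al
end

section

/-!
Theorem Z (paper 287), 4.5-4.8: the group P generated by the conjugates of x.
-/

namespace Pool.Agent.Lib.MP_544bd1_al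

open Subgroup

variable {a k : ℕ} {X : Type} [Group X] [Finite X] {Q Q₀ Z R E : Subgroup X} {g τ y c μ σ : X} {x τ₁ : X}

/-- in a finite group the set of elements normalizing `K` is closed under inversion -/
private theorem yP_conj_inv {X : Type} [Group X] [Finite X] (K : Subgroup X) {h : X}
    (H : ∀ x ∈ K, h * x * h⁻¹ ∈ K) : ∀ x ∈ K, h⁻¹ * x * h⁻¹⁻¹ ∈ K := by
  intro x hx
  have hf : IsOfFinOrder h := isOfFinOrder_of_finite h
  have h1 : h⁻¹ ∈ Submonoid.powers h := by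
    rw [hf.mem_powers_iff_mem_zpowers]
    exact (zpowers h).inv_mem (mem_zpowers h)
  obtain ⟨j, hj⟩ := h1
  have h2 : h ^ j = h⁻¹ := hj
  rw [← h2]
  clear h2 hj
  induction j with
  | zero => simpa using hx
  | succ j ih =>
    have h1 := H _ ih
    have h2 : h * (h ^ j * x * (h ^ j)⁻¹) * h⁻¹ = h ^ (j + 1) * x * (h ^ (j + 1))⁻¹ := by
      rw [pow_succ' h]; group
    rwa [h2] at h1

private theorem yP_norm_closure {X : Type} [Group X] [Finite X] (K : Subgroup X) (S : Set X)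
    (hS : ∀ s ∈ S, ∀ x ∈ K, s * x * s⁻¹ ∈ K) :
    ∀ h ∈ closure S, ∀ x ∈ K, h * x * h⁻¹ ∈ K := by
  intro h hh
  refine Subgroup.closure_induction (p := fun h _ => ∀ x ∈ K, h * x * h⁻¹ ∈ K)
    (fun s hs => hS s hs) ?_ ?_ ?_ hh
  · intro x hx; simpa using hx
  · intro u v _ _ hu hv x hx
    have h1 : u * v * x * (u * v)⁻¹ = u * (v * x * v⁻¹) * u⁻¹ := by group
    rw [h1]
    exact hu _ (hv x hx)
  · intro u _ hu
    exact yP_conj_inv K hu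

private theorem yP_genQ (Y : YX a k Q Q₀ Z R E g τ y c μ σ) (h : YE Q₀ Z y c μ x) :
    ∀ h ∈ closure {g, τ}, ∀ z ∈ Q, h * z * h⁻¹ ∈ Q := by
  apply yP_norm_closure
  rintro s (rfl | rfl)
  · exact Y.gQ
  · exact Y.τQ

/-- Proof. `closure_induction`; `h` normalizes `Q` (`Y.gQ`, `Y.τQ`, `X` finite), `r ∈ E ≤ R`. -/
theorem yP_le (Y : YX a k Q Q₀ Z R E g τ y c μ σ) (h : YE Q₀ Z y c μ x)
    (hτ₁ : closure {g, τ₁} ≤ closure {g, τ}) : yP g τ₁ E x ≤ Q := by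
  unfold yP
  rw [closure_le]
  rintro z ⟨h', hh', r, hr, rfl⟩
  have h1 : h' * r * x * (h' * r)⁻¹ = h' * (r * x * r⁻¹) * h'⁻¹ := by group
  rw [h1]
  exact yP_genQ Y h h' (hτ₁ hh') _ (Y.RQ r (Y.ER hr) x (Y.QQ h.h0))

/-- **Invariance of `P`.**

Proof. `closure_induction` over the generators `(h * r) * x * (h * r)⁻¹`. First statement: `h' * h`.
Second statement (`s ∈ E`): `Y.tri h` (`h ∈ closure {g, τ}`). If `h` acts trivially on `Q` and `R`: the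
generator is `r * x * r⁻¹` (it is in `Q`), and the conjugate is `(s * r) * x * (s * r)⁻¹`. If `y⁻¹ * h` acts
trivially, the generator is `y * (r * x * r⁻¹) * y⁻¹ = r' * x⁻¹ * r'⁻¹`, `r' = y * r * y⁻¹ ∈ E`
(`h.hy`), the conjugate is `((s * r') * x * (s * r')⁻¹)⁻¹`, in `P`. If `YOut Q₀ E h`: `s` commutes with
`h * (r * x * r⁻¹) * h⁻¹` (second part of `YOut`). Third statement: `h' * s * h'⁻¹` from the first two. -/
theorem yP_inv (ha : 3 ≤ a) (Y : YX a k Q Q₀ Z R E g τ y c μ σ) (h : YE Q₀ Z y c μ x)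
    (hτ₁ : closure {g, τ₁} ≤ closure {g, τ}) :
    (∀ h' ∈ closure {g, τ₁}, ∀ z ∈ yP g τ₁ E x, h' * z * h'⁻¹ ∈ yP g τ₁ E x) ∧
      (∀ s ∈ E, ∀ z ∈ yP g τ₁ E x, s * z * s⁻¹ ∈ yP g τ₁ E x) ∧
      ∀ h' ∈ closure {g, τ₁}, ∀ s ∈ E, ∀ z ∈ yP g τ₁ E x,
        (h' * s * h'⁻¹) * z * (h' * s * h'⁻¹)⁻¹ ∈ yP g τ₁ E x := by
  have hgen : ∀ h' ∈ closure {g, τ₁}, ∀ r ∈ E, (h' * r) * x * (h' * r)⁻¹ ∈ yP g τ₁ E x :=
    fun h' hh' r hr => subset_closure ⟨h', hh', r, hr, rfl⟩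
  have ind : ∀ t : X, (∀ h' ∈ closure {g, τ₁}, ∀ r ∈ E,
      t * ((h' * r) * x * (h' * r)⁻¹) * t⁻¹ ∈ yP g τ₁ E x) →
      ∀ z ∈ yP g τ₁ E x, t * z * t⁻¹ ∈ yP g τ₁ E x := by
    intro t ht z hz
    refine Subgroup.closure_induction (p := fun z _ => t * z * t⁻¹ ∈ yP g τ₁ E x) ?_ ?_ ?_ ?_ hz
    · rintro z ⟨h', hh', r, hr, rfl⟩
      exact ht h' hh' r hr
    · have h1 : t * 1 * t⁻¹ = 1 := by group
      rw [h1]
      exact Subgroup.one_mem _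
    · intro u v _ _ hu hv
      have h1 : t * (u * v) * t⁻¹ = (t * u * t⁻¹) * (t * v * t⁻¹) := by group
      rw [h1]
      exact Subgroup.mul_mem _ hu hv
    · intro u _ hu
      have h1 : t * u⁻¹ * t⁻¹ = (t * u * t⁻¹)⁻¹ := by group
      rw [h1]
      exact Subgroup.inv_mem _ hu
  have A : ∀ h' ∈ closure {g, τ₁}, ∀ z ∈ yP g τ₁ E x, h' * z * h'⁻¹ ∈ yP g τ₁ E x := by
    intro h' hh'
    apply ind
    intro h'' hh'' r hr
    have h1 : h' * (h'' * r * x * (h'' * r)⁻¹) * h'⁻¹ = ((h' * h'') * r) * x * ((h' * h'') * r)⁻¹ := by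
      group
    rw [h1]
    exact hgen _ (Subgroup.mul_mem _ hh' hh'') r hr
  have B : ∀ s ∈ E, ∀ z ∈ yP g τ₁ E x, s * z * s⁻¹ ∈ yP g τ₁ E x := by
    intro s hs
    apply ind
    intro h' hh' r hr
    have hrx : r * x * r⁻¹ ∈ Q := Y.RQ r (Y.ER hr) x (Y.QQ h.h0)
    have hrx0 : r * x * r⁻¹ ∈ Q₀ := Y.RQ₀ r (Y.ER hr) x h.h0
    have e1 : h' * r * x * (h' * r)⁻¹ = h' * (r * x * r⁻¹) * h'⁻¹ := by group
    rcases Y.tri h' (hτ₁ hh') with ht | ht | ht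
    · rw [e1, ht.1 _ hrx]
      have h1 : s * (r * x * r⁻¹) * s⁻¹ = (1 * (s * r)) * x * (1 * (s * r))⁻¹ := by group
      rw [h1]
      exact hgen 1 (Subgroup.one_mem _) (s * r) (E.mul_mem hs hr)
    · have h2 : h' * (r * x * r⁻¹) * h'⁻¹ = y * (r * x * r⁻¹) * y⁻¹ := by
        have h3 := ht.1 _ hrx
        calc h' * (r * x * r⁻¹) * h'⁻¹
            = y * ((y⁻¹ * h') * (r * x * r⁻¹) * (y⁻¹ * h')⁻¹) * y⁻¹ := by group
          _ = y * (r * x * r⁻¹) * y⁻¹ := by rw [h3]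
      have h4 : y * (r * x * r⁻¹) * y⁻¹ = ((y * r * y⁻¹) * x * (y * r * y⁻¹)⁻¹)⁻¹ := by
        have h5 : y * (r * x * r⁻¹) * y⁻¹ =
            (y * r * y⁻¹) * (y * x * y⁻¹) * (y * r * y⁻¹)⁻¹ := by group
        rw [h5, h.hy]
        group
      rw [e1, h2, h4]
      have h6 : s * (y * r * y⁻¹ * x * (y * r * y⁻¹)⁻¹)⁻¹ * s⁻¹ =
          ((1 * (s * (y * r * y⁻¹))) * x * (1 * (s * (y * r * y⁻¹)))⁻¹)⁻¹ := by group
      rw [h6]
      exact Subgroup.inv_mem _ (hgen 1 (Subgroup.one_mem _) _ (E.mul_mem hs (Y.yE r hr)))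
    · have h2 := ht.2.1 s hs _ hrx0
      rw [e1, ← h2, mul_inv_cancel_right, ← e1]
      exact hgen h' hh' r hr
  refine ⟨A, B, ?_⟩
  intro h' hh' s hs z hz
  have h1 : h' * s * h'⁻¹ * z * (h' * s * h'⁻¹)⁻¹ =
      h' * (s * (h'⁻¹ * z * h'⁻¹⁻¹) * s⁻¹) * h'⁻¹ := by group
  rw [h1]
  exact A h' hh' _ (B s hs _ (A _ (Subgroup.inv_mem _ hh') z hz))

end Pool.Agent.Lib.MP_544bd1_al
end

section

/-!
Theorem Z (paper 287), 4.8: the norm and its conjugate.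
-/

namespace Pool.Agent.Lib.MP_544bd1_al

open Subgroup

variable {a : ℕ} {X : Type} [Group X]

/-- **The norm and its conjugate by `ρ`.**

Proof. Let `n = 2 ^ (a - 2)`, `2 ^ (a - 1) = n + n`. `P` is commutative (`ys_comm`). `ynorm_add`,
`ynorm_conj` (with `t = g ^ n`), `ynorm_mul`: `ynorm (n + n) g q = ynorm n g q * ynorm n g (g ^ n * q * (g ^ n)⁻¹)
= ynorm n g v`. Then by induction on `n'`, `1 ≤ n' ≤ n`:
`ynorm n' g v * (ρ * ynorm n' g v * ρ⁻¹) = v * (ρ * v * ρ⁻¹)`: `n' = 1`: `ynorm_one`; step: `ynorm_succ`,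
the new factor `t = g ^ n' * v * (g ^ n')⁻¹ ∈ P` commutes with `ρ`, and everything is in the commutative
group `P`, `t ^ 2 = 1`. -/
theorem ye_norm (ha : 3 ≤ a) {P : Subgroup X} (hP2 : ∀ x ∈ P, x ^ 2 = 1) {g q ρ v : X}
    (hgP : ∀ x ∈ P, g * x * g⁻¹ ∈ P) (hρP : ∀ x ∈ P, ρ * x * ρ⁻¹ ∈ P) (hq : q ∈ P)
    (hv : v = q * (g ^ (2 ^ (a - 2)) * q * (g ^ (2 ^ (a - 2)))⁻¹))
    (hout : ∀ l, 0 < l → l < 2 ^ (a - 2) →
      ρ * (g ^ l * v * (g ^ l)⁻¹) = g ^ l * v * (g ^ l)⁻¹ * ρ) :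
    ynorm (2 ^ (a - 1)) g q * (ρ * ynorm (2 ^ (a - 1)) g q * ρ⁻¹) = v * (ρ * v * ρ⁻¹) := by
  have hc := ys_comm hP2
  obtain ⟨n, hn⟩ : ∃ n, n = 2 ^ (a - 2) := ⟨_, rfl⟩
  have h2n : 2 ^ (a - 1) = n + n := by
    rw [hn, show a - 1 = (a - 2) + 1 by omega, pow_succ]
    ring
  have hn1 : 1 ≤ n := by
    rw [hn]
    exact Nat.one_le_two_pow
  rw [← hn] at hv hout
  have hqn : g ^ n * q * (g ^ n)⁻¹ ∈ P := ys_pow_mem hgP n q hq
  have hvP : v ∈ P := by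
    rw [hv]
    exact P.mul_mem hq hqn
  have hgn : g * g ^ n = g ^ n * g := by rw [← pow_succ', ← pow_succ]
  have h1 : ynorm (n + n) g q = ynorm n g v := by
    rw [ynorm_add, ynorm_conj n hgn, ← ynorm_mul hgP hc hq hqn, ← hv]
  rw [h2n, h1]
  have key : ∀ m, 1 ≤ m → m ≤ n →
      ynorm m g v * (ρ * ynorm m g v * ρ⁻¹) = v * (ρ * v * ρ⁻¹) := by
    intro m hm
    induction m, hm using Nat.le_induction with
    | base =>
      intro _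
      rw [ynorm_one]
    | succ m hm ih =>
      intro hmn
      have ht := ys_pow_mem hgP m v hvP
      have hρt := hout m hm hmn
      rw [ynorm_succ]
      obtain ⟨t, htd⟩ : ∃ t, t = g ^ m * v * (g ^ m)⁻¹ := ⟨_, rfl⟩
      rw [← htd] at ht hρt ⊢
      have hN := ynorm_mem hgP hvP m
      obtain ⟨N, hNd⟩ : ∃ N, N = ynorm m g v := ⟨_, rfl⟩
      rw [← hNd] at hN ih ⊢
      have h3 : ρ * (N * t) * ρ⁻¹ = ρ * N * ρ⁻¹ * t := by
        calc ρ * (N * t) * ρ⁻¹ = ρ * N * ρ⁻¹ * (ρ * t) * ρ⁻¹ := by group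
          _ = ρ * N * ρ⁻¹ * (t * ρ) * ρ⁻¹ := by rw [hρt]
          _ = ρ * N * ρ⁻¹ * t := by group
      have h4 : t * (ρ * N * ρ⁻¹) = (ρ * N * ρ⁻¹) * t := hc _ ht _ (hρP N hN)
      calc N * t * (ρ * (N * t) * ρ⁻¹) = N * (t * (ρ * N * ρ⁻¹)) * t := by
            rw [h3]
            simp only [mul_assoc]
        _ = N * ((ρ * N * ρ⁻¹) * t) * t := by rw [h4]
        _ = N * (ρ * N * ρ⁻¹) * t ^ 2 := by
            rw [pow_two]
            simp only [mul_assoc]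
        _ = N * (ρ * N * ρ⁻¹) := by rw [hP2 t ht, mul_one]
        _ = _ := ih (by omega)
  exact key n hn1 le_rfl

end Pool.Agent.Lib.MP_544bd1_al
end
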