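import Mathlib
import Pool.Agent.Lib.MP_544bd1_al.ZtDefs3
import Pool.Agent.Lib.MP_544bd1_al.ZsC4
import Pool.Agent.Lib.MP_544bd1_al.ZsEb
import Pool.Agent.Lib.MP_544bd1_al.ZtNorm

section

/-!
Theorem Z (paper 287), 4.5-4.8: the subgroup [Q, c].
-/

namespace Pool.Agent.Lib.MP_544bd1_al

open Subgroup

/-- the commutative quotient `Q / Z` -/
theorem yk_quot {X : Type} [Group X] {Q Z : Subgroup X}
    (hcm : ∀ x ∈ Q, ∀ x' ∈ Q, x * x' * x⁻¹ * x'⁻¹ ∈ Z)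
    (hZc : ∀ z ∈ Z, ∀ x ∈ Q, z * x = x * z) :
    ∃ (A : Type) (_ : CommGroup A) (θ : Q →* A), ∀ x : Q, θ x = 1 ↔ (x : X) ∈ Z := by
  have hn : (Z.subgroupOf Q).Normal := by
    constructor
    intro z hz x
    have h1 : (z : X) ∈ Z := hz
    show (x : X) * (z : X) * (x : X)⁻¹ ∈ Z
    rw [← hZc z h1 x x.2]
    simpa using h1
  let A := Q ⧸ Z.subgroupOf Q
  have hc : ∀ u v : A, u * v = v * u := by
    intro u v
    obtain ⟨x, rfl⟩ := QuotientGroup.mk'_surjective _ u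
    obtain ⟨y, rfl⟩ := QuotientGroup.mk'_surjective _ v
    have h1 : QuotientGroup.mk' (Z.subgroupOf Q) (x * y * x⁻¹ * y⁻¹) = 1 := by
      rw [QuotientGroup.mk'_apply, QuotientGroup.eq_one_iff]
      exact hcm x x.2 y y.2
    rw [map_mul, map_mul, map_mul, map_inv, map_inv] at h1
    exact mul_inv_eq_iff_eq_mul.mp (mul_inv_eq_one.mp h1)
  refine ⟨A, { (inferInstance : Group A) with mul_comm := hc }, QuotientGroup.mk' _, ?_⟩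
  intro x
  rw [QuotientGroup.mk'_apply, QuotientGroup.eq_one_iff]
  rfl

/-- **`[Q, c]`.**

Proof. (i) clear (generators). (ii) `closure_induction` for `x ∈ y0 Q c` with the statement
`x ∈ Q ∧ ∃ w ∈ Q, x⁻¹ * (w⁻¹ * (c * w * c⁻¹)) ∈ Z`; modulo `Z` (elements of `Z` are central in `Q`, the
commutators of `Q` are in `Z`) `Q` is commutative: for generators take `w`; for a product `x * x'` take
`w * w'`; for `x⁻¹` take `w⁻¹`; for `1` take `1`. (iii) by (ii) `x = v * z` with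
`v = w⁻¹ * (c * w * c⁻¹)`, `z ∈ Z` commuting with `c` and with `Q`; modulo `Z` and commutators
`v * (c * v * c⁻¹) * (c ^ 2 * v * (c ^ 2)⁻¹)` telescopes to `w⁻¹ * (c ^ 3 * w * (c ^ 3)⁻¹) = 1`, and
`z ^ 3 ∈ Z`. (iv) if `c * x = x * c` then the element of (iii) is `x ^ 3`, so `x ^ 3 ∈ Z`, `x ^ 2 ∈ Z`,
`x ∈ Z`. Hint: it may be convenient to work in the quotient of `Q` by `Z.subgroupOf Q`, or to use the
lemma: for `u, v ∈ Q`, `u * v * (v * u)⁻¹ ∈ Z`. -/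
theorem yk_0 {X : Type} [Group X] {Q Z : Subgroup X} {c : X} (hZQ : Z ≤ Q)
    (hsq : ∀ x ∈ Q, x ^ 2 ∈ Z) (hcm : ∀ x ∈ Q, ∀ x' ∈ Q, x * x' * x⁻¹ * x'⁻¹ ∈ Z)
    (hZc : ∀ z ∈ Z, ∀ x ∈ Q, z * x = x * z) (hcQ : ∀ x ∈ Q, c * x * c⁻¹ ∈ Q)
    (hcZ : ∀ z ∈ Z, c * z = z * c) (hc3 : c ^ 3 = 1) :
    y0 Q c ≤ Q ∧ (∀ x ∈ y0 Q c, ∃ w ∈ Q, x⁻¹ * (w⁻¹ * (c * w * c⁻¹)) ∈ Z) ∧
      (∀ x ∈ y0 Q c, x * (c * x * c⁻¹) * (c ^ 2 * x * (c ^ 2)⁻¹) ∈ Z) ∧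
      ∀ x ∈ y0 Q c, c * x = x * c → x ∈ Z := by
  obtain ⟨A, hA, θ, hθ⟩ := yk_quot hcm hZc
  have h1 : y0 Q c ≤ Q := by
    unfold y0
    rw [closure_le]
    rintro _ ⟨x, hx, rfl⟩
    exact Q.mul_mem (Q.inv_mem hx) (hcQ x hx)
  -- the conjugation by `c` on `Q`
  let φ : Q → Q := fun x => ⟨c * x * c⁻¹, hcQ x x.2⟩
  have hφmul : ∀ x y : Q, φ (x * y) = φ x * φ y := by
    intro x y
    apply Subtype.ext
    show c * ((x : X) * y) * c⁻¹ = c * x * c⁻¹ * (c * y * c⁻¹)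
    group
  have hφinv : ∀ x : Q, φ x⁻¹ = (φ x)⁻¹ := by
    intro x
    apply Subtype.ext
    show c * (x : X)⁻¹ * c⁻¹ = (c * x * c⁻¹)⁻¹
    group
  have hφ1 : φ 1 = 1 := by
    apply Subtype.ext
    show c * (1 : X) * c⁻¹ = 1
    group
  have hφ3 : ∀ x : Q, φ (φ (φ x)) = x := by
    intro x
    apply Subtype.ext
    show c * (c * (c * x * c⁻¹) * c⁻¹) * c⁻¹ = x
    have : c * (c * (c * (x : X) * c⁻¹) * c⁻¹) * c⁻¹ = c ^ 3 * x * (c ^ 3)⁻¹ := by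
      simp only [pow_succ, pow_zero, one_mul]; group
    rw [this, hc3]; group
  have hφθ : ∀ x : Q, θ x = 1 → θ (φ x) = 1 := by
    intro x hx
    rw [hθ] at hx ⊢
    show c * (x : X) * c⁻¹ ∈ Z
    rw [hcZ x hx]
    simpa using hx
  have hφθ' : ∀ x y : Q, θ x = θ y → θ (φ x) = θ (φ y) := by
    intro x y h
    have h2 : θ (x * y⁻¹) = 1 := by rw [map_mul, map_inv, h, mul_inv_cancel]
    have h3 := hφθ _ h2
    rw [hφmul, hφinv, map_mul, map_inv] at h3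
    exact mul_inv_eq_one.mp h3
  -- (ii)
  have h2 : ∀ x ∈ y0 Q c, ∃ hx : x ∈ Q, ∃ w : Q, θ ⟨x, hx⟩ = θ (w⁻¹ * φ w) := by
    intro x hx
    unfold y0 at hx
    induction hx using closure_induction with
    | mem x hx =>
      obtain ⟨w, hw, rfl⟩ := hx
      exact ⟨Q.mul_mem (Q.inv_mem hw) (hcQ w hw), ⟨w, hw⟩, rfl⟩
    | one => exact ⟨Q.one_mem, 1, by
        rw [hφ1, inv_one, one_mul]
        rfl⟩
    | mul x y _ _ hx hy =>
      obtain ⟨hx1, w, hw⟩ := hx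
      obtain ⟨hy1, v, hv⟩ := hy
      refine ⟨Q.mul_mem hx1 hy1, w * v, ?_⟩
      have h3 : (⟨x * y, Q.mul_mem hx1 hy1⟩ : Q) = ⟨x, hx1⟩ * ⟨y, hy1⟩ := rfl
      rw [h3, map_mul, hw, hv, hφmul]
      simp only [map_mul, map_inv, mul_inv_rev]
      simp only [mul_comm, mul_left_comm, mul_assoc]
    | inv x _ hx =>
      obtain ⟨hx1, w, hw⟩ := hx
      refine ⟨Q.inv_mem hx1, w⁻¹, ?_⟩
      have h3 : (⟨x⁻¹, Q.inv_mem hx1⟩ : Q) = ⟨x, hx1⟩⁻¹ := rfl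
      rw [h3, map_inv, hw, hφinv]
      simp only [map_mul, map_inv, mul_inv_rev, inv_inv, mul_comm]
  -- (iii)
  have h3 : ∀ x ∈ y0 Q c, x * (c * x * c⁻¹) * (c ^ 2 * x * (c ^ 2)⁻¹) ∈ Z := by
    intro x hx
    obtain ⟨hxQ, w, hw⟩ := h2 x hx
    have e1 : x * (c * x * c⁻¹) * (c ^ 2 * x * (c ^ 2)⁻¹) =
        (((⟨x, hxQ⟩ : Q) * φ ⟨x, hxQ⟩ * φ (φ ⟨x, hxQ⟩) : Q) : X) := by
      show _ = x * (c * x * c⁻¹) * (c * (c * x * c⁻¹) * c⁻¹)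
      rw [pow_two]; group
    rw [e1, ← hθ]
    have e2 := hφθ' _ _ hw
    have e3 := hφθ' _ _ e2
    rw [map_mul, map_mul, hw, e2, e3]
    simp only [hφmul, hφinv, hφ3, map_mul, map_inv]
    have : ∀ p q r : A, p⁻¹ * q * (q⁻¹ * r) * (r⁻¹ * p) = 1 := by
      intro p q r
      rw [show p⁻¹ * q * (q⁻¹ * r) * (r⁻¹ * p) = p⁻¹ * p by group, inv_mul_cancel]
    exact this _ _ _
  refine ⟨h1, ?_, h3, ?_⟩
  · intro x hx
    obtain ⟨hxQ, w, hw⟩ := h2 x hx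
    refine ⟨w, w.2, ?_⟩
    have e1 : x⁻¹ * ((w : X)⁻¹ * (c * w * c⁻¹)) = (((⟨x, hxQ⟩ : Q)⁻¹ * (w⁻¹ * φ w) : Q) : X) := rfl
    rw [e1, ← hθ, map_mul, map_inv, hw, inv_mul_cancel]
  · intro x hx hcx
    have h4 := h3 x hx
    have h5 : c * x * c⁻¹ = x := by rw [hcx]; group
    have h6 : c ^ 2 * x * (c ^ 2)⁻¹ = x := by
      rw [show c ^ 2 * x * (c ^ 2)⁻¹ = c * (c * x * c⁻¹) * c⁻¹ by rw [pow_two]; group, h5, h5]
    rw [h5, h6] at h4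
    have h7 := hsq x (h1 hx)
    have h8 := Z.mul_mem (Z.inv_mem h7) h4
    rw [show (x ^ 2)⁻¹ * (x * x * x) = x by rw [pow_two]; group] at h8
    exact h8

end Pool.Agent.Lib.MP_544bd1_al
end

section

/-!
Theorem Z (paper 287), 4.5-4.8: the group E.
-/

namespace Pool.Agent.Lib.MP_544bd1_al

open Subgroup

private theorem zskc_cube {X : Type} [Group X] {u v d : X} (hu : d * u = u * d) (hv : d * v = v * d)
    (h : v * u = d * (u * v)) : (u * v) ^ 3 = d ^ 3 * (u ^ 3 * v ^ 3) := by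
  have e1 : (u * v) ^ 3 = u * (v * u) * (v * u) * v := by
    simp only [pow_succ, pow_zero, one_mul, mul_assoc]
  have e2 : ∀ w : X, u * (d * w) = d * (u * w) := fun w => by rw [← mul_assoc, ← hu, mul_assoc]
  have e3 : ∀ w : X, v * (d * w) = d * (v * w) := fun w => by rw [← mul_assoc, ← hv, mul_assoc]
  have e4 : ∀ w : X, v * (u * w) = d * (u * (v * w)) := fun w => by
    rw [← mul_assoc, h, mul_assoc, mul_assoc]
  rw [e1]
  simp only [pow_succ, pow_zero, one_mul, mul_assoc, e2, e3, e4]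

private theorem zskc_pow {X : Type} [Group X] {σ μ c : X} (hσ : c * σ = σ * c) (hμ : c * μ = μ * c)
    (h : μ * σ = c ^ 2 * (σ * μ)) (l j : ℕ) :
    μ ^ l * σ ^ j = c ^ (2 * l * j) * (σ ^ j * μ ^ l) := by
  have cσ : Commute c σ := hσ
  have cμ : Commute c μ := hμ
  have h1 : ∀ j : ℕ, μ * σ ^ j = c ^ (2 * j) * (σ ^ j * μ) := by
    intro j
    induction j with
    | zero => simp
    | succ j ih =>
      have k1 : σ ^ j * c ^ 2 = c ^ 2 * σ ^ j := ((cσ.pow_pow 2 j).eq).symm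
      calc μ * σ ^ (j + 1) = μ * σ ^ j * σ := by rw [pow_succ, mul_assoc]
        _ = c ^ (2 * j) * (σ ^ j * (μ * σ)) := by rw [ih]; simp only [mul_assoc]
        _ = c ^ (2 * j) * (σ ^ j * c ^ 2 * (σ * μ)) := by rw [h]; simp only [mul_assoc]
        _ = c ^ (2 * j) * (c ^ 2 * σ ^ j * (σ * μ)) := by rw [k1]
        _ = c ^ (2 * (j + 1)) * (σ ^ (j + 1) * μ) := by
          rw [show 2 * (j + 1) = 2 * j + 2 by ring, pow_add, pow_succ σ j]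
          simp only [mul_assoc]
  induction l with
  | zero => simp
  | succ l ih =>
    have k1 : μ * c ^ (2 * l * j) = c ^ (2 * l * j) * μ := ((cμ.pow_left _).eq).symm
    calc μ ^ (l + 1) * σ ^ j = μ * (μ ^ l * σ ^ j) := by rw [pow_succ', mul_assoc]
      _ = μ * c ^ (2 * l * j) * (σ ^ j * μ ^ l) := by rw [ih]; simp only [mul_assoc]
      _ = c ^ (2 * l * j) * (μ * σ ^ j) * μ ^ l := by rw [k1]; simp only [mul_assoc]
      _ = c ^ (2 * l * j) * (c ^ (2 * j) * (σ ^ j * μ)) * μ ^ l := by rw [h1]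
      _ = c ^ (2 * (l + 1) * j) * (σ ^ j * μ ^ (l + 1)) := by
        rw [show 2 * (l + 1) * j = 2 * l * j + 2 * j by ring, pow_add, pow_succ' μ l]
        simp only [mul_assoc]

/-- **The group `E = ⟨e, e'⟩` of order 27.** `c` is the commutator of `e` and `e'`, so
`e * e' = c * e' * e`.

Proof. `c` commutes with `e`, `e'`; `e ^ i * e' ^ j = c ^ (i * j) * e' ^ j * e ^ i` by induction; `i = 3`,
`j = 1`: `c ^ 3 = 1`. `μ ^ 3 = 1`, `σ ^ 3 = 1`: class 2, `(u * v) ^ 3 = u ^ 3 * v ^ 3 * (power of c) ^ 3`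
(for commuting commutator). `σ * μ = c * μ * σ`: `e * e' * c * (e * e'⁻¹)` and
`c * (e * e'⁻¹) * (e * e' * c)`: use `e' * e = c⁻¹ * e * e'`, `e'⁻¹ * e = c * e * e'⁻¹`, `c ^ 3 = 1`.
The form: the set of the elements `c ^ i * σ ^ j * μ ^ l` is closed under multiplication
(`μ * σ = c⁻¹ * σ * μ = c ^ 2 * σ * μ`, so `μ ^ l * σ ^ j = c ^ (2 * l * j) * σ ^ j * μ ^ l`) and under
inverses (all have order dividing 27, or: finite order), contains `e = (σ * μ * c ^ i) ^ 2` for a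
suitable `i` (`σ * μ = e * e' * c * e * e'⁻¹ = c ^ (..) * e ^ 2`), and `e' = ` a power of `c` times
`e ^ 2 * σ` . -/
theorem yk_E {X : Type} [Group X] {e e' c : X} (he : e ^ 3 = 1) (he' : e' ^ 3 = 1)
    (hc : c = e * e' * e⁻¹ * e'⁻¹) (hce : c * e = e * c) (hce' : c * e' = e' * c) :
    c ^ 3 = 1 ∧ (e * e'⁻¹) ^ 3 = 1 ∧ (e * e' * c) ^ 3 = 1 ∧
      (e * e' * c) * (e * e'⁻¹) = c * (e * e'⁻¹) * (e * e' * c) ∧
      ∀ r ∈ closure {e, e'}, ∃ i j l : ℕ, r = c ^ i * (e * e' * c) ^ j * (e * e'⁻¹) ^ l := by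
  have Ce : Commute c e := hce
  have Ce' : Commute c e' := hce'
  have Cei' : Commute c e'⁻¹ := Ce'.inv_right
  have hconj : e * e' * e⁻¹ = c * e' := by rw [hc]; group
  have hc3 : c ^ 3 = 1 := by
    have h1 : (e * e' * e⁻¹) ^ 3 = 1 := by rw [conj_pow, he', mul_one, mul_inv_cancel]
    rw [hconj, Ce'.mul_pow, he', mul_one] at h1
    exact h1
  have h1 : e' * e = c⁻¹ * (e * e') := by
    have h2 : e * e' = c * e' * e := by rw [← hconj]; group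
    rw [h2]
    group
  have h2 : e'⁻¹ * e = c * (e * e'⁻¹) := by
    have h3 : e * e'⁻¹ * e⁻¹ = c⁻¹ * e'⁻¹ := by
      have h4 : e * e'⁻¹ * e⁻¹ = (e * e' * e⁻¹)⁻¹ := by group
      rw [h4, hconj, mul_inv_rev]
      exact (Cei'.inv_left.eq).symm
    have h4 : e * e'⁻¹ = c⁻¹ * e'⁻¹ * e := by rw [← h3]; group
    rw [h4]
    group
  have hμ3 : (e * e'⁻¹) ^ 3 = 1 := by
    rw [zskc_cube Ce.eq Cei'.eq h2, hc3, he, inv_pow, he', inv_one, mul_one, mul_one]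
  have hee3 : (e * e') ^ 3 = 1 := by
    rw [zskc_cube Ce.inv_left.eq Ce'.inv_left.eq h1, inv_pow, hc3, he, he', inv_one, mul_one, mul_one]
  have Cee : Commute c (e * e') := Ce.mul_right Ce'
  have Cμ : Commute c (e * e'⁻¹) := Ce.mul_right Cei'
  have Cσ : Commute c (e * e' * c) := Cee.mul_right (Commute.refl c)
  have hσ3 : (e * e' * c) ^ 3 = 1 := by
    rw [Cee.symm.mul_pow, hee3, hc3, mul_one]
  have hσμ : (e * e' * c) * (e * e'⁻¹) = e ^ 2 := by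
    calc (e * e' * c) * (e * e'⁻¹) = e * e' * (c * e) * e'⁻¹ := by simp only [mul_assoc]
      _ = e * e' * (e * c) * e'⁻¹ := by rw [hce]
      _ = e * (e' * e) * c * e'⁻¹ := by simp only [mul_assoc]
      _ = e * (c⁻¹ * (e * e')) * c * e'⁻¹ := by rw [h1]
      _ = e * (c⁻¹ * ((e * e') * c)) * e'⁻¹ := by simp only [mul_assoc]
      _ = e * (c⁻¹ * (c * (e * e'))) * e'⁻¹ := by rw [← Cee.eq]
      _ = e ^ 2 := by rw [inv_mul_cancel_left, pow_two]; group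
  have hμσ : c * (e * e'⁻¹) * (e * e' * c) = e ^ 2 := by
    calc c * (e * e'⁻¹) * (e * e' * c) = c * e * (e'⁻¹ * e) * e' * c := by simp only [mul_assoc]
      _ = c * e * (c * (e * e'⁻¹)) * e' * c := by rw [h2]
      _ = c * (e * c) * e * c := by group
      _ = c * (c * e) * e * c := by rw [hce]
      _ = c * c * (e * e * c) := by simp only [mul_assoc]
      _ = c * c * (c * (e * e)) := by rw [(Ce.mul_right Ce).eq]
      _ = c ^ 3 * (e * e) := by simp only [pow_succ, pow_zero, one_mul, mul_assoc]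
      _ = e ^ 2 := by rw [hc3, one_mul, pow_two]
  have hrel : (e * e' * c) * (e * e'⁻¹) = c * (e * e'⁻¹) * (e * e' * c) := by rw [hσμ, hμσ]
  refine ⟨hc3, hμ3, hσ3, hrel, ?_⟩
  -- the normal form
  obtain ⟨σ, hσ⟩ : ∃ σ, σ = e * e' * c := ⟨_, rfl⟩
  obtain ⟨μ, hμ⟩ : ∃ μ, μ = e * e'⁻¹ := ⟨_, rfl⟩
  rw [← hσ, ← hμ] at hrel
  rw [← hσ] at Cσ hσ3
  rw [← hμ] at Cμ hμ3
  rw [← hσ, ← hμ] at hσμ
  rw [← hσ, ← hμ]
  have hμσ' : μ * σ = c ^ 2 * (σ * μ) := by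
    rw [hrel]
    have h3 : c ^ 2 * (c * μ * σ) = c ^ 3 * (μ * σ) := by
      simp only [pow_succ, pow_zero, one_mul, mul_assoc]
    rw [h3, hc3, one_mul]
  have hpow := zskc_pow Cσ.eq Cμ.eq hμσ'
  have hmul : ∀ i j l i' j' l' : ℕ, (c ^ i * σ ^ j * μ ^ l) * (c ^ i' * σ ^ j' * μ ^ l') =
      c ^ (i + i' + 2 * l * j') * σ ^ (j + j') * μ ^ (l + l') := by
    intro i j l i' j' l'
    have k1 : μ ^ l * c ^ i' = c ^ i' * μ ^ l := ((Cμ.pow_pow i' l).eq).symm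
    have k2 : ∀ m : ℕ, σ ^ j * c ^ m = c ^ m * σ ^ j := fun m => ((Cσ.pow_pow m j).eq).symm
    calc (c ^ i * σ ^ j * μ ^ l) * (c ^ i' * σ ^ j' * μ ^ l')
        = c ^ i * σ ^ j * (μ ^ l * c ^ i') * σ ^ j' * μ ^ l' := by simp only [mul_assoc]
      _ = c ^ i * (σ ^ j * c ^ i') * (μ ^ l * σ ^ j') * μ ^ l' := by rw [k1]; simp only [mul_assoc]
      _ = c ^ i * (c ^ i' * σ ^ j) * (c ^ (2 * l * j') * (σ ^ j' * μ ^ l)) * μ ^ l' := by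
        rw [k2, hpow]
      _ = c ^ i * c ^ i' * (σ ^ j * c ^ (2 * l * j')) * σ ^ j' * μ ^ l * μ ^ l' := by
        simp only [mul_assoc]
      _ = c ^ (i + i' + 2 * l * j') * σ ^ (j + j') * μ ^ (l + l') := by
        rw [k2, pow_add, pow_add, pow_add, pow_add]
        simp only [mul_assoc]
  have hcube : ∀ i j l : ℕ, (c ^ i * σ ^ j * μ ^ l) ^ 3 = 1 := by
    intro i j l
    have k1 : Commute (c ^ i) (σ ^ j * μ ^ l) := (Cσ.pow_pow i j).mul_right (Cμ.pow_pow i l)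
    have k2 := zskc_cube (u := σ ^ j) (v := μ ^ l) (d := c ^ (2 * l * j)) (Cσ.pow_pow _ _).eq
      (Cμ.pow_pow _ _).eq (hpow l j)
    have k3 : ∀ (x : X) (n : ℕ), x ^ 3 = 1 → (x ^ n) ^ 3 = 1 := by
      intro x n hx
      rw [← pow_mul, mul_comm, pow_mul, hx, one_pow]
    rw [mul_assoc, k1.mul_pow, k2, k3 _ _ hc3, k3 _ _ hc3, k3 _ _ hσ3, k3 _ _ hμ3, mul_one, mul_one,
      mul_one]
  let T : Subgroup X :=
    { carrier := {r | ∃ i j l : ℕ, r = c ^ i * σ ^ j * μ ^ l}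
      one_mem' := ⟨0, 0, 0, by simp⟩
      mul_mem' := by
        rintro a b ⟨i, j, l, rfl⟩ ⟨i', j', l', rfl⟩
        exact ⟨_, _, _, hmul i j l i' j' l'⟩
      inv_mem' := by
        rintro a ⟨i, j, l, rfl⟩
        have k1 : (c ^ i * σ ^ j * μ ^ l)⁻¹ = (c ^ i * σ ^ j * μ ^ l) * (c ^ i * σ ^ j * μ ^ l) := by
          rw [inv_eq_iff_mul_eq_one, ← mul_assoc]
          have k2 := hcube i j l
          simpa only [pow_succ, pow_zero, one_mul, mul_assoc] using k2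
        rw [k1]
        exact ⟨_, _, _, hmul i j l i j l⟩ }
  have hσT : σ ∈ T := ⟨0, 1, 0, by simp⟩
  have hμT : μ ∈ T := ⟨0, 0, 1, by simp⟩
  have heT : e ∈ T := by
    have k1 : e = (σ * μ) * (σ * μ) := by
      rw [hσμ, ← pow_add]
      have k2 : e ^ (2 + 2) = e ^ 3 * e := by rw [← pow_succ]
      rw [k2, he, one_mul]
    rw [k1]
    exact T.mul_mem (T.mul_mem hσT hμT) (T.mul_mem hσT hμT)
  have heT' : e' ∈ T := by
    have k1 : e' = μ⁻¹ * e := by rw [hμ]; group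
    rw [k1]
    exact T.mul_mem (T.inv_mem hμT) heT
  intro r hr
  have hle : closure {e, e'} ≤ T := by
    rw [closure_le]
    rintro x (rfl | hx)
    · exact heT
    · rw [Set.mem_singleton_iff] at hx
      rw [hx]
      exact heT'
  exact hle hr

end Pool.Agent.Lib.MP_544bd1_al
end

section

/-!
Theorem Z (paper 287), 4.6: `w` and `c` lie in every subgroup containing `g` and `w⁻¹ * g * w`.
-/

namespace Pool.Agent.Lib.MP_544bd1_al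

open Subgroup

private theorem zv1_prod {X : Type} [Group X] {A A' B B' : X} (h1 : Commute A B)
    (h2 : Commute A B') (h3 : Commute A' B) (h4 : Commute A' B') :
    (B * A) * (A' * B') * (B * A)⁻¹ * (A' * B')⁻¹ =
      (A * A' * A⁻¹ * A'⁻¹) * (B * B' * B⁻¹ * B'⁻¹) := by
  have e1 : B * (A * A') = (A * A') * B := (h1.symm.mul_right h3.symm).eq
  have e2 : (B * B') * A⁻¹ = A⁻¹ * (B * B') := ((h1.mul_right h2).inv_left.eq).symm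
  have e3 : (B⁻¹ * B'⁻¹) * A'⁻¹ = A'⁻¹ * (B⁻¹ * B'⁻¹) :=
    ((h3.inv_inv.mul_right h4.inv_inv).eq).symm
  have e4 : (B * B') * A'⁻¹ = A'⁻¹ * (B * B') := ((h3.mul_right h4).inv_left.eq).symm
  calc (B * A) * (A' * B') * (B * A)⁻¹ * (A' * B')⁻¹
      = (B * (A * A')) * (B' * A⁻¹) * ((B⁻¹ * B'⁻¹) * A'⁻¹) := by group
    _ = ((A * A') * B) * (B' * A⁻¹) * (A'⁻¹ * (B⁻¹ * B'⁻¹)) := by rw [e1, e3]
    _ = (A * A') * ((B * B') * A⁻¹) * (A'⁻¹ * (B⁻¹ * B'⁻¹)) := by group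
    _ = (A * A') * (A⁻¹ * (B * B')) * (A'⁻¹ * (B⁻¹ * B'⁻¹)) := by rw [e2]
    _ = (A * A' * A⁻¹) * ((B * B') * A'⁻¹) * (B⁻¹ * B'⁻¹) := by group
    _ = (A * A' * A⁻¹) * (A'⁻¹ * (B * B')) * (B⁻¹ * B'⁻¹) := by rw [e4]
    _ = _ := by group

private theorem zv1_cen {X : Type} [Group X] {a b c : X} (hc : c = a * b * a⁻¹ * b⁻¹)
    (h0 : c * a = a * c) (h1 : c * b = b * c) : a⁻¹ * b⁻¹ * a * b = c := by
  have e1 : a * b = c * (b * a) := by rw [hc]; group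
  have e2 : c * (b * a) = (b * a) * c := by
    calc c * (b * a) = (c * b) * a := by group
      _ = b * (c * a) := by rw [h1]; group
      _ = (b * a) * c := by rw [h0]; group
  calc a⁻¹ * b⁻¹ * a * b = (b * a)⁻¹ * (a * b) := by group
    _ = (b * a)⁻¹ * ((b * a) * c) := by rw [e1, e2]
    _ = c := by group

/-- **(V1)** `u` is `g ^ (2 ^ (a - 3))`, `a0 = e`, `a1 = u * e * u⁻¹`, `a2 = e'`, `a3 = u * e' * u⁻¹`.

Proof. `v := w⁻¹ * u * w ∈ H` too (`u` is a power of `g`: hypothesis `hu`, `hwu`). So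
`h1 = u * w⁻¹ * u⁻¹ * w ∈ H` (it is `u * v⁻¹`). `u * w⁻¹ * u⁻¹ = a1 * a2⁻¹` (`u` maps `a0, a1, a2, a3` to
`a1, a2, a3, a0` by conjugation), so `h1 = a1 * a2⁻¹ * a1 * a0⁻¹ = a1 ^ 2 * a2⁻¹ * a0⁻¹`
`= a1⁻¹ * a2⁻¹ * a0⁻¹`, `h2 := u * h1 * u⁻¹ = a2⁻¹ * a3⁻¹ * a1⁻¹ ∈ H`. The group `⟨a0, a2⟩` commutes with
`⟨a1, a3⟩`; `c = a0 * a2 * a0⁻¹ * a2⁻¹` commutes with `a0, a2`, `c1 := u * c * u⁻¹ =`
`a1 * a3 * a1⁻¹ * a3⁻¹` commutes with `a1, a3`. The commutator `h1 * h2 * h1⁻¹ * h2⁻¹` is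
`c * c1` (product of the commutators of the `⟨a0, a2⟩`-parts `a2⁻¹ * a0⁻¹`, `a2⁻¹` and of the
`⟨a1, a3⟩`-parts `a1⁻¹`, `a3⁻¹ * a1⁻¹`). `u * c1 * u⁻¹ = a2 * a0 * a2⁻¹ * a0⁻¹ = c⁻¹`; so
`u * (c * c1) * u⁻¹ = c1 * c⁻¹ ∈ H`, `c1 ^ 2 ∈ H`, `c1 ^ 3 = 1` (`a1 * a3 ^ 3 * a1⁻¹ = (c1 * a3) ^ 3`), `c1 ∈ H`,
`c ∈ H`. Finally `h1 * h2⁻¹ = (a2⁻¹ * a0⁻¹ * a2) * (a1⁻¹ * a1 * a3) = (power of c) * a0⁻¹ * a3`, so
`a0⁻¹ * a3 ∈ H` and its conjugate by `u`, `a1⁻¹ * a0 ∈ H`, `w = a1 * a0⁻¹ = a0⁻¹ * a1`. -/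
theorem yv_1 {X : Type} [Group X] {H : Subgroup X} {u a0 a1 a2 a3 c w : X}
    (h01 : u * a0 * u⁻¹ = a1) (h12 : u * a1 * u⁻¹ = a2) (h23 : u * a2 * u⁻¹ = a3)
    (h30 : u * a3 * u⁻¹ = a0) (c01 : a0 * a1 = a1 * a0) (c12 : a1 * a2 = a2 * a1)
    (c23 : a2 * a3 = a3 * a2) (c30 : a3 * a0 = a0 * a3) (h3 : a0 ^ 3 = 1)
    (hc : c = a0 * a2 * a0⁻¹ * a2⁻¹) (hc0 : c * a0 = a0 * c) (hc2 : c * a2 = a2 * c)
    (hw : w = a1 * a0⁻¹) (hu : u ∈ H) (hwu : w⁻¹ * u * w ∈ H) : w ∈ H ∧ c ∈ H := by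
  have k01 : Commute a0 a1 := c01
  have k12 : Commute a1 a2 := c12
  have k23 : Commute a2 a3 := c23
  have k30 : Commute a3 a0 := c30
  -- cubes
  have hcube : ∀ z : X, z ^ 3 = 1 → (u * z * u⁻¹) ^ 3 = 1 := by
    intro z hz
    rw [conj_pow, hz, mul_one, mul_inv_cancel]
  have h3a : a1 ^ 3 = 1 := by rw [← h01]; exact hcube _ h3
  have h3b : a2 ^ 3 = 1 := by rw [← h12]; exact hcube _ h3a
  have hc3 : c ^ 3 = 1 := by
    have e1 : a0 * a2 * a0⁻¹ = c * a2 := by rw [hc]; group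
    have e2 : (a0 * a2 * a0⁻¹) ^ 3 = 1 := by rw [conj_pow, h3b, mul_one, mul_inv_cancel]
    have e3 : Commute c a2 := hc2
    rw [e1, e3.mul_pow, h3b, mul_one] at e2
    exact e2
  -- `c1`
  obtain ⟨c1, hc1⟩ : ∃ c1, c1 = u * c * u⁻¹ := ⟨_, rfl⟩
  have hc1' : c1 = a1 * a3 * a1⁻¹ * a3⁻¹ := by
    rw [hc1, hc, ← h01, ← h23]
    group
  have hc13 : c1 ^ 3 = 1 := by rw [hc1]; exact hcube _ hc3
  have hc11 : c1 * a1 = a1 * c1 := by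
    rw [hc1, ← h01]
    calc u * c * u⁻¹ * (u * a0 * u⁻¹) = u * (c * a0) * u⁻¹ := by group
      _ = u * (a0 * c) * u⁻¹ := by rw [hc0]
      _ = _ := by group
  have hc12 : c1 * a3 = a3 * c1 := by
    rw [hc1, ← h23]
    calc u * c * u⁻¹ * (u * a2 * u⁻¹) = u * (c * a2) * u⁻¹ := by group
      _ = u * (a2 * c) * u⁻¹ := by rw [hc2]
      _ = _ := by group
  have hcc : u * c1 * u⁻¹ = c⁻¹ := by
    rw [hc1', hc, ← h12, ← h30]
    group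
  have hcomm : Commute c c1 := by
    rw [hc, hc1']
    have f0 : Commute a0 (a1 * a3 * a1⁻¹ * a3⁻¹) :=
      ((k01.mul_right k30.symm).mul_right k01.inv_right).mul_right k30.symm.inv_right
    have f2 : Commute a2 (a1 * a3 * a1⁻¹ * a3⁻¹) :=
      ((k12.symm.mul_right k23).mul_right k12.symm.inv_right).mul_right k23.inv_right
    exact ((f0.mul_left f2).mul_left f0.inv_left).mul_left f2.inv_left
  -- the elements `h1`, `h2`
  have m1 : u * (w⁻¹ * u * w)⁻¹ ∈ H := H.mul_mem hu (H.inv_mem hwu)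
  have e1 : u * (w⁻¹ * u * w)⁻¹ = a1⁻¹ * (a2⁻¹ * a0⁻¹) := by
    have g1 : a1 * a2⁻¹ * a1 = a1⁻¹ * a2⁻¹ := by
      have g2 : a2⁻¹ * a1 = a1 * a2⁻¹ := (k12.inv_right.eq).symm
      calc a1 * a2⁻¹ * a1 = a1 * (a2⁻¹ * a1) := by group
        _ = a1 * (a1 * a2⁻¹) := by rw [g2]
        _ = (a1 * (a1 * a1)) * (a1⁻¹ * a2⁻¹) := by group
        _ = a1⁻¹ * a2⁻¹ := by rw [← pow_three, h3a, one_mul]
    calc u * (w⁻¹ * u * w)⁻¹ = (u * w⁻¹ * u⁻¹) * w := by group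
      _ = ((u * a0 * u⁻¹) * (u * a1 * u⁻¹)⁻¹) * (a1 * a0⁻¹) := by rw [hw]; group
      _ = (a1 * a2⁻¹ * a1) * a0⁻¹ := by rw [h01, h12]; group
      _ = _ := by rw [g1]; group
  rw [e1] at m1
  have m2 : u * (a1⁻¹ * (a2⁻¹ * a0⁻¹)) * u⁻¹ ∈ H := H.mul_mem (H.mul_mem hu m1) (H.inv_mem hu)
  have e2 : u * (a1⁻¹ * (a2⁻¹ * a0⁻¹)) * u⁻¹ = a2⁻¹ * (a3⁻¹ * a1⁻¹) := by
    calc u * (a1⁻¹ * (a2⁻¹ * a0⁻¹)) * u⁻¹
        = (u * a1 * u⁻¹)⁻¹ * ((u * a2 * u⁻¹)⁻¹ * (u * a0 * u⁻¹)⁻¹) := by group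
      _ = _ := by rw [h12, h23, h01]
  rw [e2] at m2
  -- the commutator
  have m3 : a1⁻¹ * (a2⁻¹ * a0⁻¹) * (a2⁻¹ * (a3⁻¹ * a1⁻¹)) * (a1⁻¹ * (a2⁻¹ * a0⁻¹))⁻¹ *
      (a2⁻¹ * (a3⁻¹ * a1⁻¹))⁻¹ ∈ H :=
    H.mul_mem (H.mul_mem (H.mul_mem m1 m2) (H.inv_mem m1)) (H.inv_mem m2)
  have e3 : a1⁻¹ * (a2⁻¹ * a0⁻¹) * (a2⁻¹ * (a3⁻¹ * a1⁻¹)) * (a1⁻¹ * (a2⁻¹ * a0⁻¹))⁻¹ *
      (a2⁻¹ * (a3⁻¹ * a1⁻¹))⁻¹ = c * c1 := by
    rw [zv1_prod (A := a2⁻¹ * a0⁻¹) (A' := a2⁻¹) (B := a1⁻¹) (B' := a3⁻¹ * a1⁻¹)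
      (k12.symm.inv_inv.mul_left k01.inv_inv)
      ((k23.inv_inv.mul_right k12.symm.inv_inv).mul_left
        (k30.symm.inv_inv.mul_right k01.inv_inv))
      k12.symm.inv_inv (k23.inv_inv.mul_right k12.symm.inv_inv)]
    have g1 : a2⁻¹ * a0⁻¹ * a2⁻¹ * (a2⁻¹ * a0⁻¹)⁻¹ * a2⁻¹⁻¹ = c := by
      calc a2⁻¹ * a0⁻¹ * a2⁻¹ * (a2⁻¹ * a0⁻¹)⁻¹ * a2⁻¹⁻¹
          = a2⁻¹ * (a0⁻¹ * a2⁻¹ * a0 * a2) * a2 := by group
        _ = a2⁻¹ * (c * a2) := by rw [zv1_cen hc hc0 hc2]; group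
        _ = a2⁻¹ * (a2 * c) := by rw [hc2]
        _ = c := by group
    have g2 : a1⁻¹ * (a3⁻¹ * a1⁻¹) * a1⁻¹⁻¹ * (a3⁻¹ * a1⁻¹)⁻¹ = c1 := by
      calc a1⁻¹ * (a3⁻¹ * a1⁻¹) * a1⁻¹⁻¹ * (a3⁻¹ * a1⁻¹)⁻¹
          = a1⁻¹ * a3⁻¹ * a1 * a3 := by group
        _ = c1 := zv1_cen hc1' hc11 hc12
    rw [g1, g2]
  rw [e3] at m3
  have m4 : c1 * c⁻¹ ∈ H := by
    have g1 : u * (c * c1) * u⁻¹ = c1 * c⁻¹ := by
      calc u * (c * c1) * u⁻¹ = (u * c * u⁻¹) * (u * c1 * u⁻¹) := by group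
        _ = c1 * c⁻¹ := by rw [hcc, ← hc1]
    rw [← g1]
    exact H.mul_mem (H.mul_mem hu m3) (H.inv_mem hu)
  have m5 : c1 ∈ H := by
    have g1 : (c1 * c⁻¹) * (c * c1) = c1 * c1 := by
      rw [mul_assoc, inv_mul_cancel_left]
    have g2 : c1 * c1 ∈ H := by rw [← g1]; exact H.mul_mem m4 m3
    have g3 : (c1 * c1) * (c1 * c1) = c1 := by
      calc (c1 * c1) * (c1 * c1) = (c1 * (c1 * c1)) * c1 := by simp only [mul_assoc]
        _ = c1 := by rw [← pow_three, hc13, one_mul]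
    rw [← g3]
    exact H.mul_mem g2 g2
  have m6 : c ∈ H := by
    have g1 : c = (c * c1) * c1⁻¹ := by group
    rw [g1]
    exact H.mul_mem m3 (H.inv_mem m5)
  refine ⟨?_, m6⟩
  have m7 : a1⁻¹ * (a2⁻¹ * a0⁻¹) * (a2⁻¹ * (a3⁻¹ * a1⁻¹))⁻¹ ∈ H := H.mul_mem m1 (H.inv_mem m2)
  have e7 : a1⁻¹ * (a2⁻¹ * a0⁻¹) * (a2⁻¹ * (a3⁻¹ * a1⁻¹))⁻¹ = c⁻¹ * (a0⁻¹ * a3) := by
    have g1 : (a2⁻¹ * a0⁻¹) * a1 = a1 * (a2⁻¹ * a0⁻¹) :=
      (k12.symm.inv_left.mul_left k01.inv_left).eq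
    have g2 : a2⁻¹ * a0⁻¹ * a2 = c⁻¹ * a0⁻¹ := by
      have g3 := zv1_cen hc hc0 hc2
      have g4 : a2⁻¹ * a0⁻¹ * a2 * a0 = c⁻¹ := by
        have g5 : c⁻¹ = a2 * a0 * a2⁻¹ * a0⁻¹ := by rw [hc]; group
        have g6 : c⁻¹ * a2 = a2 * c⁻¹ := ((show Commute c a2 from hc2).inv_left).eq
        have g7 : c⁻¹ * a0 = a0 * c⁻¹ := ((show Commute c a0 from hc0).inv_left).eq
        exact zv1_cen g5 g6 g7
      rw [← g4]
      group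
    have g3 : a3 * a2 = a2 * a3 := c23.symm
    calc a1⁻¹ * (a2⁻¹ * a0⁻¹) * (a2⁻¹ * (a3⁻¹ * a1⁻¹))⁻¹
        = a1⁻¹ * ((a2⁻¹ * a0⁻¹) * a1) * (a3 * a2) := by group
      _ = a1⁻¹ * (a1 * (a2⁻¹ * a0⁻¹)) * (a2 * a3) := by rw [g1, g3]
      _ = (a2⁻¹ * a0⁻¹ * a2) * a3 := by group
      _ = c⁻¹ * (a0⁻¹ * a3) := by rw [g2]; group
  rw [e7] at m7
  have m8 : a0⁻¹ * a3 ∈ H := by
    have g1 : a0⁻¹ * a3 = c * (c⁻¹ * (a0⁻¹ * a3)) := by group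
    rw [g1]
    exact H.mul_mem m6 m7
  have m9 : u * (a0⁻¹ * a3) * u⁻¹ ∈ H := H.mul_mem (H.mul_mem hu m8) (H.inv_mem hu)
  have e9 : u * (a0⁻¹ * a3) * u⁻¹ = a1⁻¹ * a0 := by
    calc u * (a0⁻¹ * a3) * u⁻¹ = (u * a0 * u⁻¹)⁻¹ * (u * a3 * u⁻¹) := by group
      _ = _ := by rw [h01, h30]
  rw [e9] at m9
  have e10 : w = (a1⁻¹ * a0)⁻¹ := by
    have g1 : a1 * a0⁻¹ = a0⁻¹ * a1 := (k01.inv_left.eq).symm
    rw [hw, g1]
    group
  rw [e10]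
  exact H.inv_mem m9

end Pool.Agent.Lib.MP_544bd1_al
end

section

/-!
Theorem Z (paper 287), 4.6: irreducibility.
-/

namespace Pool.Agent.Lib.MP_544bd1_al

open Subgroup

variable {a : ℕ} {X : Type} [Group X] [Finite X] {Q₀ E P Z₁ : Subgroup X} {g y c μ σ e e' w f : X}
  {q : ℕ → ℕ → X}

/-- the elements normalizing `V` -/
private def v3N (V : Subgroup X) : Subgroup X where
  carrier := {h | ∀ v ∈ V, h * v * h⁻¹ ∈ V}
  mul_mem' := by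
    intro h k hh hk v hv
    have h1 := hh _ (hk v hv)
    have h2 : h * (k * v * k⁻¹) * h⁻¹ = h * k * v * (h * k)⁻¹ := by group
    rwa [h2] at h1
  one_mem' := by
    intro v hv
    simpa using hv
  inv_mem' := by
    intro h hh v hv
    have hp : ∀ k : ℕ, ∀ v ∈ V, h ^ k * v * (h ^ k)⁻¹ ∈ V := by
      intro k
      induction k with
      | zero => intro v hv; simpa using hv
      | succ k ih =>
        intro v hv
        have h1 := hh _ (ih v hv)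
        have h2 : h * (h ^ k * v * (h ^ k)⁻¹) * h⁻¹ = h ^ (k + 1) * v * (h ^ (k + 1))⁻¹ := by
          rw [pow_succ']; group
        rwa [h2] at h1
    have h3 : h ^ (orderOf h - 1) = h⁻¹ := by
      apply eq_inv_of_mul_eq_one_left
      rw [← pow_succ, Nat.sub_add_cancel (orderOf_pos h), pow_orderOf_eq_one]
    have h4 := hp (orderOf h - 1) v hv
    rwa [h3] at h4

private theorem v3N_mem {V : Subgroup X} {h : X} : h ∈ v3N V ↔ ∀ v ∈ V, h * v * h⁻¹ ∈ V := Iff.rfl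

omit [Finite X] in
private theorem v3_a {u v d f : X} (h : u * v * d = 1) (hu : u ^ 2 = f) (hv : v ^ 2 = f)
    (hd : d ^ 2 = f) (hf : f ^ 2 = 1) : u * v⁻¹ = d ∧ u⁻¹ * v = d := by
  have h1 : u * v = d⁻¹ := eq_inv_of_mul_eq_one_left h
  have h4 : f⁻¹ = f := inv_eq_of_mul_eq_one_left (by rw [← pow_two]; exact hf)
  constructor
  · have h2 : u * v⁻¹ = (u * v) * (v ^ 2)⁻¹ := by group
    rw [h2, h1, hv, h4, ← hd]
    group
  · have h2 : u⁻¹ * v = (u ^ 2)⁻¹ * (u * v) := by group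
    rw [h2, h1, hu, h4, ← hd]
    group

/-- **(V3)**

Proof. `V = U ⊔ Z₁`. `Z₁` is normalized by `g` (`D.Z₁g`) and centralized by `w`, `c` and `P`. So `V` is
normalized by `g`, `w`, `c` (`V ≤ V.comap (conjugation)` by `sup_le`), so by `y` (`D.hy`), by the inverses
(`X` is finite), and by `y * w * y⁻¹`. So `V ⊓ Q₀` is normalized by `e` (`D.we`, `D.EQ₀`) and `e'`
(`D.we'`), so by `E` (`D.hE`, `closure_induction`, `X` finite). With `n = q 0 0 * q 2 0 * W`, `W` commuting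
with `Q₀` and with `c`:
`n * c * n⁻¹ * c⁻¹ = (q 0 0 * q 2 0) * (q 0 1 * q 2 1)⁻¹` (`D.L.cq`) `= q 0 0 * (q 0 1)⁻¹ * (q 2 0 * (q 2 1)⁻¹) =`
`q 0 2 * q 2 2` (`(q j 1)⁻¹ = q j 1 * f`, `q j 0 * q j 1 = (q j 2)⁻¹ = q j 2 * f`, `f` commutes with everything,
`f ^ 2 = 1`; `D.L.com`). It is in `V ⊓ Q₀` (`D.L.mem0`). Conjugating by `c`: `q 0 3 * q 2 3 = q 0 0 * q 2 0 ∈ V`.
Conjugating by `μ ∈ E` (`D.L.μq`): `q 0 0 * q 2 4 = q 0 0 * q 2 1 ∈ V`. So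
`(q 0 0 * q 2 0)⁻¹ * (q 0 0 * q 2 1) = (q 2 0)⁻¹ * q 2 1 = f * q 2 0 * q 2 1 = q 2 2 ∈ V` (`(q 2 2)⁻¹ = q 2 2 * f`).
Conjugating by `σ` (`D.L.σq`, `D.L.j3`) and `c`: `q 0 0 ∈ V ⊓ Q₀`. So `r * q 0 0 * r⁻¹ ∈ V` for
`r ∈ E`, and its conjugates by `g ^ l`: `P ≤ V` (`D.gen`). As `Z₁` is central in `P`, `V = U * Z₁` as a set
(`Subgroup.coe_mul_of_left_le_normalizer_right` or `mem_sup` for a normal subgroup). For `x ∈ P`, `x = u * z`,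
`x ^ 2 = u ^ 2 * z ^ 2 = u ^ 2 ∈ U`. So `Z₁ ≤ U` (`D.Z₁min`), `P ≤ V = U`. -/
theorem yv_irr (D : YV a Q₀ E P Z₁ g y c μ σ e e' w f q) {n : X} (hn : YNm Q₀ E P n q)
    {U : Subgroup X} (hU : U ≤ P) (hgU : ∀ u ∈ U, g * u * g⁻¹ ∈ U ⊔ Z₁)
    (hwU : ∀ u ∈ U, w * u * w⁻¹ ∈ U ⊔ Z₁) (hcU : ∀ u ∈ U, c * u * c⁻¹ ∈ U ⊔ Z₁)
    (hnU : n * c * n⁻¹ * c⁻¹ ∈ U ⊔ Z₁) : P ≤ U := by
  have hN : ∀ h : X, (∀ u ∈ U, h * u * h⁻¹ ∈ U ⊔ Z₁) → (∀ z ∈ Z₁, h * z * h⁻¹ ∈ Z₁) →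
      h ∈ v3N (U ⊔ Z₁) := by
    intro h h1 h2
    have h3 : U ⊔ Z₁ ≤ (U ⊔ Z₁).comap (MulAut.conj h).toMonoidHom := by
      refine sup_le (fun u hu => ?_) (fun z hz => ?_)
      · exact h1 u hu
      · exact (le_sup_right : Z₁ ≤ U ⊔ Z₁) (h2 z hz)
    exact fun v hv => h3 hv
  have hcen : ∀ h : X, (∀ z ∈ Z₁, z * h = h * z) → ∀ z ∈ Z₁, h * z * h⁻¹ ∈ Z₁ := by
    intro h h1 z hz
    rw [← h1 z hz, mul_assoc, mul_inv_cancel, mul_one]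
    exact hz
  have hg : g ∈ v3N (U ⊔ Z₁) := hN g hgU D.Z₁g
  have hw : w ∈ v3N (U ⊔ Z₁) := hN w hwU (hcen w D.Z₁w)
  have hc : c ∈ v3N (U ⊔ Z₁) := hN c hcU (hcen c fun z hz => D.Z₁E z hz c D.cE)
  have hy : y ∈ v3N (U ⊔ Z₁) := by
    rw [D.hy]
    exact pow_mem hg _
  have heE : e ∈ E := by
    rw [D.hE]
    exact subset_closure (by simp)
  have he'E : e' ∈ E := by
    rw [D.hE]
    exact subset_closure (by simp)
  have he : e ∈ v3N ((U ⊔ Z₁) ⊓ Q₀) := by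
    rintro v ⟨hv1, hv2⟩
    refine ⟨?_, D.EQ₀ e heE v hv2⟩
    have h1 := inv_mem hw
    have h2 := h1 v hv1
    rw [inv_inv, D.we v hv2] at h2
    exact h2
  have he' : e' ∈ v3N ((U ⊔ Z₁) ⊓ Q₀) := by
    rintro v ⟨hv1, hv2⟩
    refine ⟨?_, D.EQ₀ e' he'E v hv2⟩
    have h1 := inv_mem (mul_mem (mul_mem hy hw) (inv_mem hy))
    have h2 := h1 v hv1
    rw [inv_inv, D.we' v hv2] at h2
    exact h2
  have hE : E ≤ v3N ((U ⊔ Z₁) ⊓ Q₀) := by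
    rw [D.hE, closure_le]
    rintro r (rfl | hr)
    · exact he
    · rw [Set.mem_singleton_iff] at hr
      rw [hr]
      exact he'
  obtain ⟨W, hWP, hnW, hWQ, hWE⟩ := hn.eq
  have hp0 : ∀ j i, q j i * (q j (i + 1))⁻¹ = q j (i + 2) ∧
      (q j i)⁻¹ * q j (i + 1) = q j (i + 2) := fun j i =>
    v3_a (D.L.p3 j i) (D.L.sq j i) (D.L.sq j (i + 1)) (D.L.sq j (i + 2)) D.L.f2
  have hA : n * c * n⁻¹ * c⁻¹ = q 0 2 * q 2 2 := by
    have h1 : W * c * W⁻¹ = c := by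
      rw [hWE c D.cE, mul_assoc, mul_inv_cancel, mul_one]
    have h2 : n * c * n⁻¹ * c⁻¹ = q 0 0 * q 2 0 * (W * c * W⁻¹) * (q 0 0 * q 2 0)⁻¹ * c⁻¹ := by
      rw [hnW]
      group
    have h3 : q 0 0 * q 2 0 * c * (q 0 0 * q 2 0)⁻¹ * c⁻¹ =
        q 0 0 * q 2 0 * ((c * q 0 0 * c⁻¹) * (c * q 2 0 * c⁻¹))⁻¹ := by
      group
    rw [h2, h1, h3, D.L.cq, D.L.cq, ← (hp0 0 0).1, ← (hp0 2 0).1]
    have h4 : q 2 0 * (q 2 1)⁻¹ * (q 0 1)⁻¹ = (q 0 1)⁻¹ * (q 2 0 * (q 2 1)⁻¹) := by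
      rw [(hp0 2 0).1]
      have h5 := D.L.com 0 2 1 (0 + 2) (by norm_num) (by norm_num) (by norm_num)
      rw [eq_inv_mul_iff_mul_eq, ← mul_assoc, h5, mul_assoc, mul_inv_cancel, mul_one]
    calc q 0 0 * q 2 0 * (q 0 (0 + 1) * q 2 (0 + 1))⁻¹
        = q 0 0 * (q 2 0 * (q 2 1)⁻¹ * (q 0 1)⁻¹) := by
          simp only [zero_add]
          group
      _ = q 0 0 * (q 0 (0 + 1))⁻¹ * (q 2 0 * (q 2 (0 + 1))⁻¹) := by
          rw [h4]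
          simp only [zero_add]
          group
  have hA' : q 0 2 * q 2 2 ∈ (U ⊔ Z₁) ⊓ Q₀ := by
    refine ⟨?_, mul_mem (D.L.mem0 _ _) (D.L.mem0 _ _)⟩
    rw [← hA]
    exact hnU
  have hB : q 0 0 * q 2 0 ∈ (U ⊔ Z₁) ⊓ Q₀ := by
    have h1 := hE D.cE _ hA'
    have h2 : c * (q 0 2 * q 2 2) * c⁻¹ = (c * q 0 2 * c⁻¹) * (c * q 2 2 * c⁻¹) := by group
    rw [h2, D.L.cq, D.L.cq] at h1
    have h3 : q 0 (2 + 1) = q 0 0 := D.L.i3 0 0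
    have h4 : q 2 (2 + 1) = q 2 0 := D.L.i3 2 0
    rwa [h3, h4] at h1
  have hC : q 0 0 * q 2 1 ∈ (U ⊔ Z₁) ⊓ Q₀ := by
    have h1 := hE D.μE _ hB
    have h2 : μ * (q 0 0 * q 2 0) * μ⁻¹ = (μ * q 0 0 * μ⁻¹) * (μ * q 2 0 * μ⁻¹) := by group
    rw [h2, D.L.μq, D.L.μq] at h1
    have h3 : q 0 (0 + 2 * 0) = q 0 0 := rfl
    have h4 : q 2 (0 + 2 * 2) = q 2 1 := D.L.i3 2 1
    rwa [h3, h4] at h1
  have hD : q 2 2 ∈ (U ⊔ Z₁) ⊓ Q₀ := by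
    have h1 := mul_mem (inv_mem hB) hC
    have h2 : (q 0 0 * q 2 0)⁻¹ * (q 0 0 * q 2 1) = (q 2 0)⁻¹ * q 2 1 := by group
    have h3 : (q 2 0)⁻¹ * q 2 1 = q 2 2 := (hp0 2 0).2
    rwa [h2, h3] at h1
  have hF : q 2 0 ∈ (U ⊔ Z₁) ⊓ Q₀ := by
    have h1 := hE D.cE _ hD
    rw [D.L.cq] at h1
    have h4 : q 2 (2 + 1) = q 2 0 := D.L.i3 2 0
    rwa [h4] at h1
  have hG : q 0 0 ∈ (U ⊔ Z₁) ⊓ Q₀ := by
    have h1 := hE D.σE _ hF
    rw [D.L.σq] at h1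
    have h4 : q (2 + 1) 0 = q 0 0 := D.L.j3 0 0
    rwa [h4] at h1
  have hPV : P ≤ U ⊔ Z₁ := by
    apply D.gen
    intro l r hr
    exact pow_mem hg l _ (hE hr _ hG).1
  -- the elements of `V` are products
  let K : Subgroup X :=
    { carrier := {v | ∃ u ∈ U, ∃ z ∈ Z₁, v = u * z}
      mul_mem' := by
        rintro _ _ ⟨u, hu, z, hz, rfl⟩ ⟨u', hu', z', hz', rfl⟩
        refine ⟨u * u', mul_mem hu hu', z * z', mul_mem hz hz', ?_⟩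
        have h1 := D.Z₁c z hz u' (hU hu')
        calc u * z * (u' * z') = u * (z * u') * z' := by group
          _ = u * u' * (z * z') := by rw [h1]; group
      one_mem' := ⟨1, one_mem _, 1, one_mem _, by rw [mul_one]⟩
      inv_mem' := by
        rintro _ ⟨u, hu, z, hz, rfl⟩
        refine ⟨u⁻¹, inv_mem hu, z⁻¹, inv_mem hz, ?_⟩
        have h1 := D.Z₁c z⁻¹ (inv_mem hz) u⁻¹ (inv_mem (hU hu))
        rw [mul_inv_rev, h1] }
  have hVK : U ⊔ Z₁ ≤ K := by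
    refine sup_le (fun u hu => ?_) (fun z hz => ?_)
    · exact ⟨u, hu, 1, one_mem _, by rw [mul_one]⟩
    · exact ⟨1, one_mem _, z, hz, by rw [one_mul]⟩
  have hZU : Z₁ ≤ U := by
    apply D.Z₁min
    intro x hx
    obtain ⟨u, hu, z, hz, rfl⟩ := hVK (hPV hx)
    have h1 := D.Z₁c z hz u (hU hu)
    have h2 : (u * z) ^ 2 = u ^ 2 * z ^ 2 := by
      calc (u * z) ^ 2 = u * (z * u) * z := by rw [pow_two]; group
        _ = u ^ 2 * z ^ 2 := by rw [h1, pow_two, pow_two]; group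
    rw [h2, D.Z₁2 z hz, mul_one]
    exact pow_mem hu 2
  exact hPV.trans (sup_le le_rfl hZU)

end Pool.Agent.Lib.MP_544bd1_al
end

section

/-!
Theorem Z (paper 287), 4.6: the element `u`.
-/

namespace Pool.Agent.Lib.MP_544bd1_al

open Subgroup

variable {a : ℕ} {X : Type} [Group X] [Finite X] {Q₀ E P Z₁ : Subgroup X} {g y c μ σ e e' w f : X}
  {q : ℕ → ℕ → X}

/-- one step of the invariance under `g` -/
private theorem yv_u_g (D : YV a Q₀ E P Z₁ g y c μ σ e e' w f q) {p : X} (hp : p ∈ P)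
    (hnP : ynorm (2 ^ (a - 1)) g p ∈ P) {Y' : Subgroup X}
    (hYg : ∀ z ∈ Y', g * z * g⁻¹ ∈ Y') {t : X} (ht : t ∈ Z₁)
    (h : ∃ u ∈ P, u⁻¹ * ynorm (2 ^ (a - 1)) g p * u = ynorm (2 ^ (a - 1)) g p * t ∧
      u⁻¹ * (y * u * y⁻¹) ∈ Y') :
    ∃ u ∈ P, u⁻¹ * ynorm (2 ^ (a - 1)) g p * u = ynorm (2 ^ (a - 1)) g p * (g * t * g⁻¹) ∧
      u⁻¹ * (y * u * y⁻¹) ∈ Y' := by
  obtain ⟨u, hu, h1, h2⟩ := h
  have hκ : g ^ (2 ^ (a - 1)) * p = p * g ^ (2 ^ (a - 1)) := D.κP p hp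
  have hκg : g * g ^ (2 ^ (a - 1)) = g ^ (2 ^ (a - 1)) * g := (pow_mul_comm' g _).symm
  have hpow := ynorm_pow (2 ^ (a - 1)) g p
  have hcomm : (p * g) * (p * g) ^ (2 ^ (a - 1)) = (p * g) ^ (2 ^ (a - 1)) * (p * g) :=
    (pow_mul_comm' (p * g) _).symm
  rw [hpow] at hcomm
  generalize ynorm (2 ^ (a - 1)) g p = n at hnP h1 hcomm ⊢
  generalize g ^ (2 ^ (a - 1)) = κ at hκ hκg hcomm
  have hgn : g * n * g⁻¹ = p⁻¹ * n * p := by
    have e1 : p * (g * n * g⁻¹) * (κ * g) = (p * g) * (n * κ) := by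
      rw [← hκg]; group
    have e2 : n * p * (κ * g) = (n * κ) * (p * g) := by
      rw [mul_assoc n p, ← mul_assoc p κ g, ← hκ]; group
    have e3 : p * (g * n * g⁻¹) * (κ * g) = n * p * (κ * g) := by
      rw [e1, e2, hcomm]
    have e4 : p * (g * n * g⁻¹) = n * p := mul_right_cancel e3
    calc g * n * g⁻¹ = p⁻¹ * (p * (g * n * g⁻¹)) := by group
      _ = p⁻¹ * n * p := by rw [e4, mul_assoc]
  have hz : n⁻¹ * p⁻¹ * n * p ∈ Z₁ := by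
    have := D.cm n⁻¹ (P.inv_mem hnP) p⁻¹ (P.inv_mem hp)
    rwa [inv_inv, inv_inv] at this
  obtain ⟨z, hz, hgz⟩ : ∃ z ∈ Z₁, g * n * g⁻¹ = n * z :=
    ⟨_, hz, by rw [hgn]; group⟩
  have hu' : g * u * g⁻¹ ∈ P := D.gP u hu
  have ht' : g * t * g⁻¹ ∈ Z₁ := D.Z₁g t ht
  refine ⟨g * u * g⁻¹, hu', ?_, ?_⟩
  · have e1 : (g * u * g⁻¹)⁻¹ * (n * z) * (g * u * g⁻¹) = n * z * (g * t * g⁻¹) := by
      rw [← hgz]
      calc (g * u * g⁻¹)⁻¹ * (g * n * g⁻¹) * (g * u * g⁻¹) = g * (u⁻¹ * n * u) * g⁻¹ := by group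
        _ = g * (n * t) * g⁻¹ := by rw [h1]
        _ = _ := by group
    have e2 : (g * u * g⁻¹)⁻¹ * (n * z) * (g * u * g⁻¹) =
        (g * u * g⁻¹)⁻¹ * n * (g * u * g⁻¹) * z := by
      have e4 := D.Z₁c z hz _ hu'
      generalize g * u * g⁻¹ = v at e4 ⊢
      rw [mul_assoc, mul_assoc n, e4]
      simp only [mul_assoc]
    have e3 : n * z * (g * t * g⁻¹) = n * (g * t * g⁻¹) * z := by
      rw [mul_assoc, D.Z₁c z hz _ (D.Z₁P ht'), ← mul_assoc]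
    rw [e2, e3] at e1
    exact mul_right_cancel e1
  · have hyg : y * g = g * y := by
      rw [D.hy]; exact pow_mul_comm' g _
    have hyg' : y * g⁻¹ = g⁻¹ * y := by
      have h3 : Commute y g := hyg
      exact h3.inv_right
    have hyg'' : g⁻¹ * y⁻¹ = y⁻¹ * g⁻¹ := by
      rw [← mul_inv_rev, ← mul_inv_rev, hyg]
    have e1 : (g * u * g⁻¹)⁻¹ * (y * (g * u * g⁻¹) * y⁻¹) = g * (u⁻¹ * (y * u * y⁻¹)) * g⁻¹ := by
      calc (g * u * g⁻¹)⁻¹ * (y * (g * u * g⁻¹) * y⁻¹)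
          = g * u⁻¹ * g⁻¹ * (y * g) * u * (g⁻¹ * y⁻¹) := by group
        _ = g * u⁻¹ * g⁻¹ * (g * y) * u * (y⁻¹ * g⁻¹) := by rw [hyg, hyg'']
        _ = _ := by group
    rw [e1]
    exact hYg _ h2

/-- the base case -/
private theorem yv_u_base (D : YV a Q₀ E P Z₁ g y c μ σ e e' w f q) {n : X}
    (hn : YNm Q₀ E P n q) {Y' : Subgroup X} (hZY : Z₁ ≤ Y') (hqY : q 0 0 * q 1 0 ∈ Y') :
    ∃ u ∈ P, u⁻¹ * n * u = n * f ∧ u⁻¹ * (y * u * y⁻¹) ∈ Y' := by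
  obtain ⟨W, hW, hnW, hWQ, -⟩ := hn.eq
  have hfZ : f ∈ Z₁ := by
    rw [← D.L.sq 0 0]; exact D.sq _ (D.L.memP 0 0)
  have hff : f * f = 1 := by rw [← pow_two]; exact D.L.f2
  have hfc : ∀ x ∈ P, f * x = x * f := D.Z₁c f hfZ
  refine ⟨q 0 1 * q 1 1, P.mul_mem (D.L.memP 0 1) (D.L.memP 1 1), ?_, ?_⟩
  · -- `(q 0 1)⁻¹ * q 0 0 * q 0 1 = q 0 0 * f`
    have hp3 := D.L.p3 0 0
    simp only [zero_add] at hp3
    have s00 : q 0 0 * q 0 0 = f := by rw [← pow_two]; exact D.L.sq 0 0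
    have s01 : q 0 1 * q 0 1 = f := by rw [← pow_two]; exact D.L.sq 0 1
    have s02 : q 0 2 * q 0 2 = f := by rw [← pow_two]; exact D.L.sq 0 2
    have h01 : q 0 0 * q 0 1 = (q 0 2)⁻¹ := eq_inv_of_mul_eq_one_left hp3
    have h4 : q 0 0 * q 0 1 * (q 0 0 * q 0 1) = f := by
      rw [h01, ← mul_inv_rev, s02]
      exact inv_eq_of_mul_eq_one_left hff
    have hf00 := hfc _ (D.L.memP 0 0)
    have hf01 := hfc _ (D.L.memP 0 1)
    have hf11 := hfc _ (D.L.memP 1 1)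
    have hf20 := hfc _ (D.L.memP 2 0)
    have hfW := hfc _ hW
    have h5 : q 0 0 * q 0 1 = q 0 1 * (q 0 0 * f) := by
      -- multiply by `q 0 0 * q 0 1` on the left
      have h6 : q 0 0 * q 0 1 * (q 0 0 * q 0 1) = q 0 0 * q 0 1 * (q 0 1 * (q 0 0 * f)) := by
        rw [h4]
        calc f = f * (f * f) := by rw [hff, mul_one]
          _ = q 0 0 * q 0 0 * (f * f) := by rw [s00]
          _ = q 0 0 * (q 0 0 * f) * f := by simp only [mul_assoc]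
          _ = q 0 0 * (f * q 0 0) * f := by rw [hf00]
          _ = q 0 0 * (q 0 1 * q 0 1 * q 0 0) * f := by rw [s01]
          _ = q 0 0 * q 0 1 * (q 0 1 * (q 0 0 * f)) := by simp only [mul_assoc]
      exact mul_left_cancel h6
    have c20_01 : q 2 0 * q 0 1 = q 0 1 * q 2 0 := D.L.com 2 0 0 1 (by norm_num) (by norm_num) (by norm_num)
    have c20_11 : q 2 0 * q 1 1 = q 1 1 * q 2 0 := D.L.com 2 1 0 1 (by norm_num) (by norm_num) (by norm_num)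
    have c00_11 : q 0 0 * q 1 1 = q 1 1 * q 0 0 := D.L.com 0 1 0 1 (by norm_num) (by norm_num) (by norm_num)
    have cW01 := hWQ _ (D.L.mem0 0 1)
    have cW11 := hWQ _ (D.L.mem0 1 1)
    have key : n * (q 0 1 * q 1 1) = q 0 1 * q 1 1 * (n * f) := by
      rw [hnW]
      calc q 0 0 * q 2 0 * W * (q 0 1 * q 1 1)
          = q 0 0 * q 2 0 * (W * q 0 1) * q 1 1 := by simp only [mul_assoc]
        _ = q 0 0 * q 2 0 * (q 0 1 * W) * q 1 1 := by rw [cW01]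
        _ = q 0 0 * (q 2 0 * q 0 1) * (W * q 1 1) := by simp only [mul_assoc]
        _ = q 0 0 * (q 0 1 * q 2 0) * (q 1 1 * W) := by rw [c20_01, cW11]
        _ = (q 0 0 * q 0 1) * (q 2 0 * q 1 1) * W := by simp only [mul_assoc]
        _ = (q 0 1 * (q 0 0 * f)) * (q 1 1 * q 2 0) * W := by rw [h5, c20_11]
        _ = q 0 1 * q 0 0 * (f * q 1 1) * q 2 0 * W := by simp only [mul_assoc]
        _ = q 0 1 * q 0 0 * (q 1 1 * f) * q 2 0 * W := by rw [hf11]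
        _ = q 0 1 * (q 0 0 * q 1 1) * (f * q 2 0) * W := by simp only [mul_assoc]
        _ = q 0 1 * (q 1 1 * q 0 0) * (q 2 0 * f) * W := by rw [c00_11, hf20]
        _ = q 0 1 * q 1 1 * (q 0 0 * q 2 0 * (f * W)) := by simp only [mul_assoc]
        _ = q 0 1 * q 1 1 * (q 0 0 * q 2 0 * (W * f)) := by rw [hfW]
        _ = _ := by simp only [mul_assoc]
    rw [mul_assoc, key, ← mul_assoc, inv_mul_cancel, one_mul]
  · have y01 := D.L.yq 0 1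
    have y11 := D.L.yq 1 1
    simp only [mul_one] at y01 y11
    have e1 : y * (q 0 1 * q 1 1) * y⁻¹ = (q 0 2)⁻¹ * (q 1 2)⁻¹ := by
      rw [← y01, ← y11]; group
    -- `q j 2 * q j 1 = (q j 0)⁻¹ * z`
    have hz : ∀ j, ∃ z ∈ Z₁, q j 2 * q j 1 = (q j 0)⁻¹ * z := by
      intro j
      have hc := D.cm _ (P.inv_mem (D.L.memP j 2)) _ (P.inv_mem (D.L.memP j 1))
      rw [inv_inv, inv_inv] at hc
      refine ⟨_, hc, ?_⟩
      have hp3 := D.L.p3 j 0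
      simp only [zero_add] at hp3
      have h1 : (q j 0)⁻¹ = q j 1 * q j 2 := by
        rw [mul_assoc] at hp3
        exact inv_eq_of_mul_eq_one_right hp3
      rw [h1]; group
    obtain ⟨z0, hz0, e2⟩ := hz 0
    obtain ⟨z1, hz1, e3⟩ := hz 1
    have c11_01 : q 0 1 * q 1 1 = q 1 1 * q 0 1 :=
      D.L.com 0 1 1 1 (by norm_num) (by norm_num) (by norm_num)
    have c11_02 : q 0 2 * q 1 1 = q 1 1 * q 0 2 :=
      D.L.com 0 1 2 1 (by norm_num) (by norm_num) (by norm_num)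
    have e4 : q 1 2 * q 0 2 * (q 0 1 * q 1 1) = (q 1 2 * q 1 1) * (q 0 2 * q 0 1) := by
      calc q 1 2 * q 0 2 * (q 0 1 * q 1 1) = q 1 2 * q 0 2 * (q 1 1 * q 0 1) := by rw [c11_01]
        _ = q 1 2 * (q 0 2 * q 1 1) * q 0 1 := by simp only [mul_assoc]
        _ = q 1 2 * (q 1 1 * q 0 2) * q 0 1 := by rw [c11_02]
        _ = _ := by simp only [mul_assoc]
    have e5 : (q 0 1 * q 1 1)⁻¹ * ((q 0 2)⁻¹ * (q 1 2)⁻¹) = z0⁻¹ * z1⁻¹ * (q 0 0 * q 1 0) := by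
      have e6 : (q 0 1 * q 1 1)⁻¹ * ((q 0 2)⁻¹ * (q 1 2)⁻¹) =
          (q 1 2 * q 0 2 * (q 0 1 * q 1 1))⁻¹ := by
        simp only [mul_inv_rev, mul_assoc]
      rw [e6, e4, e2, e3]
      have hz1' : q 0 0 * z1⁻¹ = z1⁻¹ * q 0 0 :=
        (D.Z₁c _ (Z₁.inv_mem hz1) _ (D.L.memP 0 0)).symm
      calc ((q 1 0)⁻¹ * z1 * ((q 0 0)⁻¹ * z0))⁻¹ = z0⁻¹ * (q 0 0 * z1⁻¹) * q 1 0 := by
            simp only [mul_inv_rev, mul_assoc, inv_inv]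
        _ = z0⁻¹ * (z1⁻¹ * q 0 0) * q 1 0 := by rw [hz1']
        _ = _ := by simp only [mul_assoc]
    rw [e1, e5]
    exact Y'.mul_mem (Y'.mul_mem (Y'.inv_mem (hZY hz0)) (Y'.inv_mem (hZY hz1))) hqY

/-- **(V7b)** the element `u`

Proof. Let `T` be the set of the `t ∈ Z₁` such that there is `u ∈ P` with `u⁻¹ * n * u = n * t` and
`u⁻¹ * (y * u * y⁻¹) ∈ Y'`, `n = ynorm (2 ^ (a - 1)) g p`. It is a subgroup: for `u₁, u₂` take `u₁ * u₂`: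
`(u₁ * u₂)⁻¹ * n * (u₁ * u₂) = u₂⁻¹ * n * t₁ * u₂ = n * t₂ * t₁` (`D.Z₁c`), and
`(u₁ * u₂)⁻¹ * (y * (u₁ * u₂) * y⁻¹) = u₂⁻¹ * (u₁⁻¹ * (y * u₁ * y⁻¹)) * (y * u₂ * y⁻¹)`, a product of a
conjugate of an element of `Y'` by `u₂⁻¹ ∈ P` and of `u₂⁻¹ * (y * u₂ * y⁻¹)`; inverses: `X` is finite (or:
`t⁻¹ = t`). It is invariant under conjugation by `g`: `g * n * g⁻¹ = p⁻¹ * n * p` (as
`n * g ^ (2 ^ (a - 1)) = (p * g) ^ (2 ^ (a - 1))` commutes with `p * g`, and `g ^ (2 ^ (a - 1))` commutes with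
`p`: `D.κP`) `= n * z`, `z ∈ Z₁` (`D.cm`). With `u' = g * u * g⁻¹`:
`u'⁻¹ * (n * z) * u' = g * (u⁻¹ * n * u) * g⁻¹ = n * z * (g * t * g⁻¹)`, so `u'⁻¹ * n * u' = n * (g * t * g⁻¹)`
(`D.Z₁c`), and `u'⁻¹ * (y * u' * y⁻¹) = g * (u⁻¹ * (y * u * y⁻¹)) * g⁻¹ ∈ Y'` (`y` is a power of `g`). It
contains `f`: `u = q 0 1 * q 1 1`. `n = q 0 0 * q 2 0 * W`, `W` commutes with `Q₀`; `q 2 0` commutes with `u`,
`q 0 0` commutes with `q 1 1`, and `(q 0 1)⁻¹ * q 0 0 * q 0 1 = q 0 0 * f` (from `D.L.p3`, `D.L.sq`: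
`(q 0 0 * q 0 1) ^ 2 = f`). So `u⁻¹ * n * u = n * f` (`f` is central in `P`). And `y * u * y⁻¹ = (q 0 2)⁻¹ * (q 1 2)⁻¹`
(`D.L.yq`), `u⁻¹ * (y * u * y⁻¹) = (q 1 1)⁻¹ * (q 0 1)⁻¹ * (q 0 2)⁻¹ * (q 1 2)⁻¹ =`
`(q 0 2 * q 0 1)⁻¹ * (q 1 2 * q 1 1)⁻¹` (`D.L.com`)`, which is `(q 0 0 * q 1 0)` times an element of `Z₁`
(`D.cm`, `D.sq`, `(q j 1 * q j 2) = (q j 0)⁻¹`). -/
theorem yv_u (D : YV a Q₀ E P Z₁ g y c μ σ e e' w f q) {p : X} (hp : p ∈ P)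
    (hn : YNm Q₀ E P (ynorm (2 ^ (a - 1)) g p) q) {Y' : Subgroup X}
    (hYg : ∀ z ∈ Y', g * z * g⁻¹ ∈ Y') (hYP : ∀ x ∈ P, ∀ z ∈ Y', x * z * x⁻¹ ∈ Y') (hZY : Z₁ ≤ Y')
    (hqY : q 0 0 * q 1 0 ∈ Y') {f' : X}
    (hf : f' ∈ closure {z | ∃ l : ℕ, z = g ^ l * f * (g ^ l)⁻¹}) :
    ∃ u ∈ P, u⁻¹ * ynorm (2 ^ (a - 1)) g p * u = ynorm (2 ^ (a - 1)) g p * f' ∧
      u⁻¹ * (y * u * y⁻¹) ∈ Y' := by
  have hnP : ynorm (2 ^ (a - 1)) g p ∈ P := hn.nP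
  have hfZ : f ∈ Z₁ := by
    rw [← D.L.sq 0 0]; exact D.sq _ (D.L.memP 0 0)
  suffices h : f' ∈ Z₁ ∧ ∃ u ∈ P, u⁻¹ * ynorm (2 ^ (a - 1)) g p * u =
      ynorm (2 ^ (a - 1)) g p * f' ∧ u⁻¹ * (y * u * y⁻¹) ∈ Y' from h.2
  induction hf using closure_induction with
  | mem t ht =>
    obtain ⟨l, rfl⟩ := ht
    induction l with
    | zero =>
      simp only [pow_zero, one_mul, inv_one, mul_one]
      exact ⟨hfZ, yv_u_base D hn hZY hqY⟩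
    | succ l ih =>
      have e1 : g ^ (l + 1) * f * (g ^ (l + 1))⁻¹ = g * (g ^ l * f * (g ^ l)⁻¹) * g⁻¹ := by
        rw [pow_succ']; simp only [mul_inv_rev, mul_assoc]
      rw [e1]
      exact ⟨D.Z₁g _ ih.1, yv_u_g D hp hnP hYg ih.1 ih.2⟩
  | one => exact ⟨Z₁.one_mem, 1, P.one_mem, by simp, by simp⟩
  | mul t₁ t₂ _ _ h₁ h₂ =>
    obtain ⟨hz₁, u₁, hu₁, a₁, b₁⟩ := h₁
    obtain ⟨hz₂, u₂, hu₂, a₂, b₂⟩ := h₂
    refine ⟨Z₁.mul_mem hz₁ hz₂, u₁ * u₂, P.mul_mem hu₁ hu₂, ?_, ?_⟩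
    · calc (u₁ * u₂)⁻¹ * ynorm (2 ^ (a - 1)) g p * (u₁ * u₂)
          = u₂⁻¹ * (u₁⁻¹ * ynorm (2 ^ (a - 1)) g p * u₁) * u₂ := by
            simp only [mul_inv_rev, mul_assoc]
        _ = u₂⁻¹ * ynorm (2 ^ (a - 1)) g p * (t₁ * u₂) := by rw [a₁]; simp only [mul_assoc]
        _ = u₂⁻¹ * ynorm (2 ^ (a - 1)) g p * (u₂ * t₁) := by rw [D.Z₁c _ hz₁ _ hu₂]
        _ = (u₂⁻¹ * ynorm (2 ^ (a - 1)) g p * u₂) * t₁ := by simp only [mul_assoc]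
        _ = ynorm (2 ^ (a - 1)) g p * (t₂ * t₁) := by rw [a₂, mul_assoc]
        _ = _ := by rw [D.Z₁c _ hz₂ _ (D.Z₁P hz₁)]
    · have e1 : (u₁ * u₂)⁻¹ * (y * (u₁ * u₂) * y⁻¹) =
          (u₂⁻¹ * (u₁⁻¹ * (y * u₁ * y⁻¹)) * u₂⁻¹⁻¹) * (u₂⁻¹ * (y * u₂ * y⁻¹)) := by
        group
      rw [e1]
      exact Y'.mul_mem (hYP _ (P.inv_mem hu₂) _ b₁) b₂
  | inv t _ ih =>
    have : t⁻¹ = t := inv_eq_of_mul_eq_one_left (by rw [← pow_two]; exact D.Z₁2 _ ih.1)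
    rw [this]; exact ih

end Pool.Agent.Lib.MP_544bd1_al
end

section

/-!
Theorem Z (paper 287), 4.6: the element `f`.
-/

namespace Pool.Agent.Lib.MP_544bd1_al

open Subgroup

variable {a : ℕ} {X : Type} [Group X] [Finite X] {Q₀ E P Z₁ : Subgroup X} {g y c μ σ e e' w f : X}
  {q : ℕ → ℕ → X}

private lemma yvf_desc {H : Type} [Group H] {A : Subgroup H} {g : H}
    (hA : ∀ z ∈ A, g * z * g⁻¹ ∈ A) (h2 : ∀ z ∈ A, z ^ 2 = 1) :
    ∀ (l : ℕ) (t : H), t ∈ A → t ≠ 1 → g ^ (2 ^ l) * t = t * g ^ (2 ^ l) →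
      ∃ t' ∈ A, t' ≠ 1 ∧ g * t' = t' * g := by
  intro l
  induction l with
  | zero =>
    intro t ht h1 hc
    rw [pow_zero, pow_one] at hc
    exact ⟨t, ht, h1, hc⟩
  | succ l ih =>
    intro t ht h1 hc
    obtain ⟨h, hh⟩ : ∃ h, h = g ^ (2 ^ l) := ⟨_, rfl⟩
    have hhh : h * h = g ^ (2 ^ (l + 1)) := by
      rw [hh, ← pow_add, pow_succ]
      congr 1
      ring
    rw [← hhh] at hc
    by_cases hct : h * t = t * h
    · rw [hh] at hct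
      exact ih t ht h1 hct
    have hht : h * t * h⁻¹ ∈ A := by
      rw [hh]
      exact ys_pow_mem hA _ t ht
    have hcomm := ys_comm h2 t ht _ hht
    have e2 : h * (h * t * h⁻¹) * h⁻¹ = t := by
      calc h * (h * t * h⁻¹) * h⁻¹ = (h * h * t) * (h⁻¹ * h⁻¹) := by simp only [mul_assoc]
        _ = t * (h * h) * (h⁻¹ * h⁻¹) := by rw [hc]
        _ = t := by group
    have e3 : h * (t * (h * t * h⁻¹)) * h⁻¹ = t * (h * t * h⁻¹) := by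
      calc h * (t * (h * t * h⁻¹)) * h⁻¹ = (h * t * h⁻¹) * (h * (h * t * h⁻¹) * h⁻¹) := by group
        _ = (h * t * h⁻¹) * t := by rw [e2]
        _ = t * (h * t * h⁻¹) := hcomm.symm
    refine ih (t * (h * t * h⁻¹)) (A.mul_mem ht hht) ?_ ?_
    · intro h0
      apply hct
      have h3 : t * t = 1 := by
        rw [← pow_two]
        exact h2 t ht
      have h4 : h * t * h⁻¹ = t := by
        calc h * t * h⁻¹ = t⁻¹ := (inv_eq_of_mul_eq_one_right h0).symm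
          _ = t := inv_eq_of_mul_eq_one_right h3
      calc h * t = h * t * h⁻¹ * h := by rw [inv_mul_cancel_right]
        _ = t * h := by rw [h4]
    · rw [← hh]
      calc h * (t * (h * t * h⁻¹)) = h * (t * (h * t * h⁻¹)) * h⁻¹ * h := by
            rw [inv_mul_cancel_right]
        _ = t * (h * t * h⁻¹) * h := by rw [e3]

/-- **(V8)** the element `f'`

Proof. `A = closure {z | ∃ l : ℕ, z = g ^ l * f * (g ^ l)⁻¹}` is contained in `Z₁` (`f = q 0 0 ^ 2 ∈ Z₁`,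
`D.Z₁g`), so it has exponent 2, and `f ∈ A`, `f ≠ 1`: `Nat.card A` is even. The 2-group generated by `g`
(`D.hg`) acts on `A` by conjugation (`A` is invariant under `g`: `closure_induction`) with fixed point `1`; the
number of fixed points is even (`IsPGroup.card_modEq_card_fixedPoints`, or
`IsPGroup.exists_fixed_point_of_prime_dvd_card_of_fixed_point`), so there is another one. (Or: elementary: let
`A` be given; for `t ∈ A`, `t ≠ 1`, consider the minimal `l` with `g ^ (2 ^ l)` commuting with `t`; if `l > 0`,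
`t * (h * t * h⁻¹)` with `h = g ^ (2 ^ (l - 1))` is not `1` and commutes with `h`; induction on `l`.) -/
theorem yv_f (D : YV a Q₀ E P Z₁ g y c μ σ e e' w f q) :
    ∃ f' ∈ closure {z | ∃ l : ℕ, z = g ^ l * f * (g ^ l)⁻¹}, f' ≠ 1 ∧ g * f' = f' * g ∧ f' ∈ Z₁ := by
  obtain ⟨A, hA⟩ : ∃ A : Subgroup X, A = closure {z | ∃ l : ℕ, z = g ^ l * f * (g ^ l)⁻¹} :=
    ⟨_, rfl⟩
  rw [← hA]
  have hfZ : f ∈ Z₁ := by
    have h1 := D.sq (q 0 0) (D.L.memP 0 0)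
    rwa [D.L.sq 0 0] at h1
  have hAZ : A ≤ Z₁ := by
    rw [hA, closure_le]
    rintro _ ⟨l, rfl⟩
    exact ys_pow_mem D.Z₁g l f hfZ
  have hAg : ∀ z ∈ A, g * z * g⁻¹ ∈ A := by
    intro z hz
    rw [hA] at hz ⊢
    induction hz using closure_induction with
    | mem z hz =>
      obtain ⟨l, rfl⟩ := hz
      apply Subgroup.subset_closure
      refine ⟨l + 1, ?_⟩
      rw [pow_succ']
      simp only [mul_assoc, mul_inv_rev]
    | one => simp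
    | mul z w _ _ h1 h2 =>
      have h3 := Subgroup.mul_mem _ h1 h2
      have h4 : g * (z * w) * g⁻¹ = g * z * g⁻¹ * (g * w * g⁻¹) := by group
      rw [h4]
      exact h3
    | inv z _ h1 =>
      have h3 := Subgroup.inv_mem _ h1
      have h4 : g * z⁻¹ * g⁻¹ = (g * z * g⁻¹)⁻¹ := by group
      rw [h4]
      exact h3
  have hfA : f ∈ A := by
    rw [hA]
    apply Subgroup.subset_closure
    exact ⟨0, by simp⟩
  obtain ⟨t, ht, ht1, htg⟩ := yvf_desc hAg (fun z hz => D.Z₁2 z (hAZ hz)) a f hfA D.hf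
    (by rw [D.hg, one_mul, mul_one])
  exact ⟨t, ht, ht1, htg, hAZ ht⟩

end Pool.Agent.Lib.MP_544bd1_al
end

section

/-!
Theorem Z (paper 287), 4.6: the norm.
-/

namespace Pool.Agent.Lib.MP_544bd1_al

open Subgroup

variable {a : ℕ} {X : Type} [Group X] [Finite X] {Q₀ E P Z₁ : Subgroup X} {g y c μ σ e e' w f : X}
  {q : ℕ → ℕ → X}

/-- **(V2) The norm.**

Proof. `M = 2 ^ (a - 1)`, `M / 2 = 2 ^ (a - 2)`, `p = q 0 1 * q 2 1 ∈ Q₀`, `v = p * (y * p * y⁻¹)`.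
(1) `v = q 0 0 * q 2 0`: `y * p * y⁻¹ = (q 0 2)⁻¹ * (q 2 2)⁻¹` (`D.L.yq`);
`v = (q 0 1 * (q 0 2)⁻¹) * (q 2 1 * (q 2 2)⁻¹)` (`D.L.com`); `q j 1 * (q j 2)⁻¹ = q j 1 * q j 2 * f`
`= (q j 0)⁻¹ * f = q j 0` (`D.L.sq`, `D.L.f2`, `D.L.p3`; `f` commutes with `q j i`, being its square).
`v ^ 2 = f * f = 1`. `v ∈ Q₀`. `v`, `p ∈ P` (`D.L.memP`).
(2) For `0 < l < M / 2` the elements `g ^ l * t * (g ^ l)⁻¹`, `t ∈ Q₀`, commute with `Q₀` and `E`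
(`D.out`). So for `0 < N`, `N ≤ M / 2`, `W_N := g * ynorm (N - 1) g t * g⁻¹` (`t ∈ Q₀`) commutes with
`Q₀` and `E` (induction, `ynorm_succ`).
(3) By induction on `N ≤ M / 2` (`ynorm_add 1 N`: `ynorm (N + 1) g t = t * (g * ynorm N g t * g⁻¹)`):
`ynorm N g p * (y * ynorm N g p * y⁻¹) = ynorm N g v` (`y` commutes with `g`; by (2)
`g * ynorm N g p * g⁻¹` commutes with `y * p * y⁻¹ ∈ Q₀`), and `(ynorm N g v) ^ 2 = 1` (by (2) `v` commutes with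
`g * ynorm N g v * g⁻¹`).
(4) `ynorm M g p = ynorm (M / 2) g p * (y * ynorm (M / 2) g p * y⁻¹)` (`ynorm_add`, `D.hy`, `M = M / 2 + M / 2`)
`= ynorm (M / 2) g v = v * W`, `W = g * ynorm (M / 2 - 1) g v * g⁻¹`. -/
theorem yv_norm (ha : 3 ≤ a) (D : YV a Q₀ E P Z₁ g y c μ σ e e' w f q) :
    YNm Q₀ E P (ynorm (2 ^ (a - 1)) g (q 0 1 * q 2 1)) q := by
  have L := D.L
  have hff : f * f = 1 := by rw [← pow_two]; exact L.f2
  have hqq : ∀ j i, q j i * q j i = f := fun j i => by rw [← pow_two]; exact L.sq j i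
  have hqf : ∀ j i, f * q j i = q j i * f := by
    intro j i
    rw [← hqq j i, mul_assoc]
  have hqi : ∀ j i, (q j i)⁻¹ = q j i * f := by
    intro j i
    rw [inv_eq_iff_mul_eq_one, ← mul_assoc, hqq, hff]
  have hq0 : ∀ j, q j 1 * (q j 2)⁻¹ = q j 0 := by
    intro j
    have h1 := L.p3 j 0
    rw [zero_add, zero_add, mul_assoc] at h1
    have h2 : q j 1 * q j 2 = (q j 0)⁻¹ := eq_inv_of_mul_eq_one_right h1
    rw [hqi, ← mul_assoc, h2, hqi, mul_assoc, hff, mul_one]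
  set p : X := q 0 1 * q 2 1 with hp
  set v : X := q 0 0 * q 2 0 with hv
  have hp0 : p ∈ Q₀ := mul_mem (L.mem0 _ _) (L.mem0 _ _)
  have hpP : p ∈ P := mul_mem (L.memP _ _) (L.memP _ _)
  have hv0 : v ∈ Q₀ := mul_mem (L.mem0 _ _) (L.mem0 _ _)
  have hvP : v ∈ P := mul_mem (L.memP _ _) (L.memP _ _)
  have hv2 : v ^ 2 = 1 := by
    have h1 := L.com 0 2 0 0 (by norm_num) (by norm_num) (by norm_num)
    rw [pow_two, hv]
    calc q 0 0 * q 2 0 * (q 0 0 * q 2 0) = q 0 0 * (q 2 0 * q 0 0) * q 2 0 := by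
          simp only [mul_assoc]
      _ = (q 0 0 * q 0 0) * (q 2 0 * q 2 0) := by
          rw [← h1]
          simp only [mul_assoc]
      _ = 1 := by rw [hqq, hqq, hff]
  have hpv : p * (y * p * y⁻¹) = v := by
    have h1 : y * p * y⁻¹ = (q 0 2)⁻¹ * (q 2 2)⁻¹ := by
      have h2 : y * p * y⁻¹ = (y * q 0 1 * y⁻¹) * (y * q 2 1 * y⁻¹) := by
        rw [hp]
        group
      rw [h2, L.yq, L.yq]
    have h3 : q 2 1 * (q 0 2)⁻¹ = (q 0 2)⁻¹ * q 2 1 := by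
      have h4 : Commute (q 2 1) (q 0 2) :=
        L.com 2 0 1 2 (by norm_num) (by norm_num) (by norm_num)
      exact h4.inv_right.eq
    rw [h1, hp]
    calc q 0 1 * q 2 1 * ((q 0 2)⁻¹ * (q 2 2)⁻¹) = q 0 1 * (q 2 1 * (q 0 2)⁻¹) * (q 2 2)⁻¹ := by
          simp only [mul_assoc]
      _ = (q 0 1 * (q 0 2)⁻¹) * (q 2 1 * (q 2 2)⁻¹) := by
          rw [h3]
          simp only [mul_assoc]
      _ = v := by rw [hq0, hq0]
  -- the commuting part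
  have hW : ∀ t ∈ Q₀, ∀ N, N + 1 ≤ 2 ^ (a - 2) →
      (∀ x ∈ Q₀, (g * ynorm N g t * g⁻¹) * x = x * (g * ynorm N g t * g⁻¹)) ∧
      ∀ r ∈ E, (g * ynorm N g t * g⁻¹) * r = r * (g * ynorm N g t * g⁻¹) := by
    intro t ht N
    induction N with
    | zero =>
      intro _
      rw [ynorm_zero, mul_one, mul_inv_cancel]
      exact ⟨fun x _ => by rw [one_mul, mul_one], fun r _ => by rw [one_mul, mul_one]⟩
    | succ N ih =>
      intro hN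
      obtain ⟨h1, h2⟩ := ih (by omega)
      have h3 : g * ynorm (N + 1) g t * g⁻¹ =
          (g * ynorm N g t * g⁻¹) * (g ^ (N + 1) * t * (g ^ (N + 1))⁻¹) := by
        rw [ynorm_succ, pow_succ']
        group
      have h4 := D.out (N + 1) (Nat.succ_pos N) (by omega)
      rw [h3]
      refine ⟨fun x hx => ?_, fun r hr => ?_⟩
      · have e1 : Commute (g * ynorm N g t * g⁻¹) x := h1 x hx
        have e2 : Commute (g ^ (N + 1) * t * (g ^ (N + 1))⁻¹) x := h4.2.2.2 x hx t ht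
        exact (e1.mul_left e2).eq
      · have e1 : Commute (g * ynorm N g t * g⁻¹) r := h2 r hr
        have e2 : Commute (g ^ (N + 1) * t * (g ^ (N + 1))⁻¹) r := h4.2.1 r hr t ht
        exact (e1.mul_left e2).eq
  have hsucc : ∀ t : X, ∀ N, ynorm (N + 1) g t = t * (g * ynorm N g t * g⁻¹) := by
    intro t N
    rw [add_comm N 1, ynorm_add, ynorm_one, pow_one]
  have hgy : g * y = y * g := by
    rw [D.hy, ← pow_succ', ← pow_succ]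
  have hyp0 : y * p * y⁻¹ ∈ Q₀ := D.yQ₀ p hp0
  have hA : ∀ N, N ≤ 2 ^ (a - 2) →
      ynorm N g p * (y * ynorm N g p * y⁻¹) = ynorm N g v := by
    intro N
    induction N with
    | zero => intro _; rw [ynorm_zero, ynorm_zero]; group
    | succ N ih =>
      intro hN
      have h1 := ih (by omega)
      obtain ⟨h2, -⟩ := hW p hp0 N hN
      rw [hsucc, hsucc v, ← h1]
      have h3 := h2 _ hyp0
      have h4 : y * (g * ynorm N g p * g⁻¹) * y⁻¹ = g * (y * ynorm N g p * y⁻¹) * g⁻¹ := by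
        have h5 : y * (g * ynorm N g p * g⁻¹) * y⁻¹ =
            (y * g) * ynorm N g p * (y * g)⁻¹ := by group
        rw [h5, ← hgy]
        group
      calc p * (g * ynorm N g p * g⁻¹) * (y * (p * (g * ynorm N g p * g⁻¹)) * y⁻¹) =
          p * ((g * ynorm N g p * g⁻¹) * (y * p * y⁻¹)) *
            (y * (g * ynorm N g p * g⁻¹) * y⁻¹) := by group
        _ = (p * (y * p * y⁻¹)) * ((g * ynorm N g p * g⁻¹) *
            (y * (g * ynorm N g p * g⁻¹) * y⁻¹)) := by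
            rw [h3]
            simp only [mul_assoc]
        _ = v * ((g * ynorm N g p * g⁻¹) * (g * (y * ynorm N g p * y⁻¹) * g⁻¹)) := by
            rw [hpv, h4]
        _ = v * (g * (ynorm N g p * (y * ynorm N g p * y⁻¹)) * g⁻¹) := by group
  have hB : ∀ N, N ≤ 2 ^ (a - 2) → (ynorm N g v) ^ 2 = 1 := by
    intro N
    induction N with
    | zero => intro _; rw [ynorm_zero, one_pow]
    | succ N ih =>
      intro hN
      have h1 := ih (by omega)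
      obtain ⟨h2, -⟩ := hW v hv0 N hN
      have h3 : Commute v (g * ynorm N g v * g⁻¹) := (h2 v hv0).symm
      rw [hsucc, h3.mul_pow, hv2, one_mul, conj_pow, h1, mul_one, mul_inv_cancel]
  have h2a : 2 ^ (a - 1) = 2 ^ (a - 2) + 2 ^ (a - 2) := by
    rw [← two_mul, ← pow_succ']
    congr 1
    omega
  have hn : ynorm (2 ^ (a - 1)) g p = ynorm (2 ^ (a - 2)) g v := by
    rw [h2a, ynorm_add, ← D.hy]
    exact hA _ le_rfl
  have hpos : 0 < 2 ^ (a - 2) := by positivity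
  refine ⟨ynorm_mem D.gP hpP _, ?_, g * ynorm (2 ^ (a - 2) - 1) g v * g⁻¹, ?_, ?_, ?_⟩
  · rw [hn]
    exact hB _ le_rfl
  · exact D.gP _ (ynorm_mem D.gP hvP _)
  · rw [hn, ← hsucc v, Nat.sub_add_cancel hpos]
  · exact hW v hv0 _ (by omega)

end Pool.Agent.Lib.MP_544bd1_al
end

section

/-!
Theorem Z (paper 287), 4.6: the group `S`.
-/

namespace Pool.Agent.Lib.MP_544bd1_al

open Subgroup

variable {a : ℕ} {X : Type} [Group X] [Finite X] {Q₀ E P Z₁ : Subgroup X} {g y c μ σ e e' w f : X}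
  {q : ℕ → ℕ → X}

/-- **(V4)**

Proof. `n = ynorm (2 ^ (a - 1)) g p`, `κ = g ^ (2 ^ (a - 1))`. `P` is normalized by `g`, `w`, `E` (`D.gP`,
`D.wP`, `D.EP`) and by their inverses (`X` is finite), so by `p * g` and `w⁻¹ * (p * g) * w`. It is no
restriction to let `H = closure {p * g, w⁻¹ * (p * g) * w}` (a smaller group, `closure_le`); then `P` is
normalized by `H`, and `H ⊔ P = H * P` as a set (`Subgroup.coe_mul_of_left_le_normalizer_right`). `g ∈ H ⊔ P`,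
`w⁻¹ * g * w = (w⁻¹ * p⁻¹ * w) * (w⁻¹ * (p * g) * w) ∈ H ⊔ P`. By `D.v1`: `w = h₁ * q₁`, `c = h₂ * q₂`,
`h₁, h₂ ∈ H`, `q₁, q₂ ∈ P`. Let `U = H ⊓ P`; it is normalized by `H`. `yv_irr` for `U`:
`g * u * g⁻¹ = p⁻¹ * u' * p` with `u' = (p * g) * u * (p * g)⁻¹ ∈ U`, so it is `u'` times an element of `Z₁`
(`D.cm`). `w * u * w⁻¹ = h₁ * (q₁ * u * q₁⁻¹) * h₁⁻¹`, `q₁ * u * q₁⁻¹ = z * u`, `z ∈ Z₁` (`D.cm`), and
`h₁ * z * h₁⁻¹ ∈ Z₁`: `Z₁` is normalized by `H` (it is normalized by `g`, `w`, `P`: `D.Z₁g`, `D.Z₁w`, `D.Z₁c`).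
The same for `c`. `n * κ = (p * g) ^ (2 ^ (a - 1)) ∈ H` (`ynorm_pow`). `κ` commutes with `c` (`D.κE`, `D.cE`) and
with `P` (`D.κP`), so with `h₂ = c * q₂⁻¹`; so
`H ∋ (n * κ) * h₂ * (n * κ)⁻¹ * h₂⁻¹ = n * h₂ * n⁻¹ * h₂⁻¹ = n * c * q₂⁻¹ * n⁻¹ * q₂ * c⁻¹`
`= (n * c * n⁻¹ * c⁻¹) * c * (n * q₂⁻¹ * n⁻¹ * q₂) * c⁻¹`, where the last factor
`c * (n * q₂⁻¹ * n⁻¹ * q₂) * c⁻¹` is in `Z₁` (`D.cm`, `D.Z₁E`). All is in `P`, so
`n * c * n⁻¹ * c⁻¹ ∈ U ⊔ Z₁`. Hence `P ≤ U ≤ H`. Then `g = p⁻¹ * (p * g) ∈ H`,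
`w⁻¹ * g * w = (w⁻¹ * p⁻¹ * w) * (w⁻¹ * (p * g) * w) ∈ H`, and `D.v1` gives `w, c ∈ H`. -/
theorem yv_S (D : YV a Q₀ E P Z₁ g y c μ σ e e' w f q) {p : X} (hp : p ∈ P)
    (hn : YNm Q₀ E P (ynorm (2 ^ (a - 1)) g p) q) {H : Subgroup X} (h1 : p * g ∈ H)
    (h2 : w⁻¹ * (p * g) * w ∈ H) : P ≤ H ∧ w ∈ H ∧ g ∈ H ∧ c ∈ H := by
  obtain ⟨H₀, hH₀⟩ : ∃ H₀, H₀ = closure {p * g, w⁻¹ * (p * g) * w} := ⟨_, rfl⟩
  have hH : H₀ ≤ H := by
    rw [hH₀, closure_le]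
    rintro t (rfl | rfl)
    · exact h1
    · exact h2
  have k1 : p * g ∈ H₀ := by rw [hH₀]; exact Subgroup.subset_closure (by simp)
  have k2 : w⁻¹ * (p * g) * w ∈ H₀ := by rw [hH₀]; exact Subgroup.subset_closure (by simp)
  -- normalization
  have hPn : ∀ t, (∀ x ∈ P, t * x * t⁻¹ ∈ P) → t ∈ normalizer (P : Set X) := fun t ht =>
    mem_normalizer_fintype ht
  have hZn : ∀ t, (∀ x ∈ Z₁, t * x * t⁻¹ ∈ Z₁) → t ∈ normalizer (Z₁ : Set X) := fun t ht =>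
    mem_normalizer_fintype ht
  have hwN := hPn w D.wP
  have hgN := hPn g D.gP
  have hpN : p ∈ normalizer (P : Set X) := le_normalizer hp
  have hH₀N : H₀ ≤ normalizer (P : Set X) := by
    rw [hH₀, closure_le]
    rintro t (rfl | rfl)
    · exact mul_mem hpN hgN
    · exact mul_mem (mul_mem (inv_mem hwN) (mul_mem hpN hgN)) hwN
  have hwZ : w ∈ normalizer (Z₁ : Set X) := hZn w fun z hz => by
    rw [← D.Z₁w z hz, mul_inv_cancel_right]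
    exact hz
  have hpZ : ∀ t ∈ P, t ∈ normalizer (Z₁ : Set X) := fun t ht => hZn t fun z hz => by
    rw [← D.Z₁c z hz t ht, mul_inv_cancel_right]
    exact hz
  have hgZ := hZn g D.Z₁g
  have hH₀Z : H₀ ≤ normalizer (Z₁ : Set X) := by
    rw [hH₀, closure_le]
    rintro t (rfl | rfl)
    · exact mul_mem (hpZ p hp) hgZ
    · exact mul_mem (mul_mem (inv_mem hwZ) (mul_mem (hpZ p hp) hgZ)) hwZ
  have hdec : ∀ t ∈ H₀ ⊔ P, ∃ h ∈ H₀, ∃ q ∈ P, t = h * q := by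
    intro t ht
    have e1 := Subgroup.coe_mul_of_left_le_normalizer_right H₀ P hH₀N
    have e2 : t ∈ (↑(H₀ ⊔ P) : Set X) := ht
    rw [e1, Set.mem_mul] at e2
    obtain ⟨h, hh, q, hq, e⟩ := e2
    exact ⟨h, hh, q, hq, e.symm⟩
  have hsH : H₀ ≤ H₀ ⊔ P := le_sup_left
  have hsP : P ≤ H₀ ⊔ P := le_sup_right
  have hgS : g ∈ H₀ ⊔ P := by
    have e1 : g = p⁻¹ * (p * g) := by group
    rw [e1]
    exact mul_mem (hsP (P.inv_mem hp)) (hsH k1)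
  have hwp : w⁻¹ * p⁻¹ * w ∈ P := by
    have e1 := (mem_normalizer_iff''.1 hwN (p⁻¹)).1 (P.inv_mem hp)
    exact e1
  have hwgS : w⁻¹ * g * w ∈ H₀ ⊔ P := by
    have e1 : w⁻¹ * g * w = (w⁻¹ * p⁻¹ * w) * (w⁻¹ * (p * g) * w) := by group
    rw [e1]
    exact mul_mem (hsP hwp) (hsH k2)
  obtain ⟨hwS, hcS⟩ := D.v1 _ hgS hwgS
  -- the subgroup `U`
  obtain ⟨U, hU⟩ : ∃ U, U = H₀ ⊓ P := ⟨_, rfl⟩
  have hUP : U ≤ P := by rw [hU]; exact inf_le_right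
  have hUH : U ≤ H₀ := by rw [hU]; exact inf_le_left
  have hmU : ∀ t, t ∈ H₀ → t ∈ P → t ∈ U := by
    intro t h3 h4
    rw [hU]
    exact ⟨h3, h4⟩
  have hlU : U ≤ U ⊔ Z₁ := le_sup_left
  have hlZ : Z₁ ≤ U ⊔ Z₁ := le_sup_right
  have key : ∀ t ∈ H₀ ⊔ P, ∀ u ∈ U, t * u * t⁻¹ ∈ U ⊔ Z₁ := by
    intro t ht u hu
    obtain ⟨h, hh, q', hq, rfl⟩ := hdec t ht
    have e1 : h * q' * u * (h * q')⁻¹ = (h * (q' * u * q'⁻¹ * u⁻¹) * h⁻¹) * (h * u * h⁻¹) := by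
      group
    rw [e1]
    refine mul_mem (hlZ ?_) (hlU (hmU _ ?_ ?_))
    · exact (mem_normalizer_iff.1 (hH₀Z hh) _).1 (D.cm q' hq u (hUP hu))
    · exact mul_mem (mul_mem hh (hUH hu)) (inv_mem hh)
    · exact (mem_normalizer_iff.1 (hH₀N hh) _).1 (hUP hu)
  have hnU : ynorm (2 ^ (a - 1)) g p * c * (ynorm (2 ^ (a - 1)) g p)⁻¹ * c⁻¹ ∈ U ⊔ Z₁ := by
    obtain ⟨h, hh, q', hq, hc⟩ := hdec c hcS
    obtain ⟨n, hn'⟩ : ∃ n, n = ynorm (2 ^ (a - 1)) g p := ⟨_, rfl⟩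
    obtain ⟨κ, hκ⟩ : ∃ κ, κ = g ^ (2 ^ (a - 1)) := ⟨_, rfl⟩
    have hnP : n ∈ P := by rw [hn']; exact hn.nP
    have hnκ : n * κ ∈ H₀ := by
      rw [hn', hκ, ← ynorm_pow]
      exact pow_mem k1 _
    rw [← hn']
    have hκc : κ * c = c * κ := by rw [hκ]; exact D.κE c D.cE
    have hκq : κ * q' = q' * κ := by rw [hκ]; exact D.κP q' hq
    have hh2 : h = c * q'⁻¹ := by rw [hc]; group
    have hκh : Commute κ h := by
      rw [hh2]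
      have c1 : Commute κ c := hκc
      have c2 : Commute κ q' := hκq
      exact c1.mul_right c2.inv_right
    have hA : n * h * n⁻¹ * h⁻¹ ∈ H₀ := by
      have e1 : n * h * n⁻¹ * h⁻¹ = (n * κ) * h * (n * κ)⁻¹ * h⁻¹ := by
        have e2 : κ * h * κ⁻¹ = h := by rw [hκh.eq, mul_inv_cancel_right]
        calc n * h * n⁻¹ * h⁻¹ = n * (κ * h * κ⁻¹) * n⁻¹ * h⁻¹ := by rw [e2]
          _ = _ := by group
      rw [e1]
      exact mul_mem (mul_mem (mul_mem hnκ hh) (inv_mem hnκ)) (inv_mem hh)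
    have hcP : ∀ x ∈ P, c * x * c⁻¹ ∈ P := D.EP c D.cE
    have hncP : n * c * n⁻¹ * c⁻¹ ∈ P := by
      have e1 : n * c * n⁻¹ * c⁻¹ = n * (c * n⁻¹ * c⁻¹) := by group
      rw [e1]
      exact P.mul_mem hnP (hcP _ (P.inv_mem hnP))
    obtain ⟨B, hB⟩ : ∃ B, B = n * q'⁻¹ * n⁻¹ * (q'⁻¹)⁻¹ := ⟨_, rfl⟩
    have hBZ : B ∈ Z₁ := by
      rw [hB]
      exact D.cm n hnP q'⁻¹ (P.inv_mem hq)
    have hBc : c * B * c⁻¹ = B := by
      rw [← D.Z₁E B hBZ c D.cE, mul_inv_cancel_right]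
    have e3 : n * h * n⁻¹ * h⁻¹ = (n * c * n⁻¹ * c⁻¹) * B := by
      calc n * h * n⁻¹ * h⁻¹ = (n * c * n⁻¹ * c⁻¹) * (c * (n * q'⁻¹ * n⁻¹ * (q'⁻¹)⁻¹) * c⁻¹) := by
            rw [hh2]
            group
        _ = _ := by rw [← hB, hBc]
    have hAP : n * h * n⁻¹ * h⁻¹ ∈ P := by
      rw [e3]
      exact P.mul_mem hncP (D.Z₁P hBZ)
    have e4 : n * c * n⁻¹ * c⁻¹ = (n * h * n⁻¹ * h⁻¹) * B⁻¹ := by
      rw [e3, mul_inv_cancel_right]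
    rw [e4]
    exact mul_mem (hlU (hmU _ hA hAP)) (hlZ (inv_mem hBZ))
  have hPU : P ≤ U := yv_irr D hn hUP (key g hgS) (key w hwS) (key c hcS) hnU
  have hPH : P ≤ H₀ := hPU.trans hUH
  have hgH : g ∈ H₀ := by
    have e1 : g = p⁻¹ * (p * g) := by group
    rw [e1]
    exact mul_mem (hPH (P.inv_mem hp)) k1
  have hwgH : w⁻¹ * g * w ∈ H₀ := by
    have e1 : w⁻¹ * g * w = (w⁻¹ * p⁻¹ * w) * (w⁻¹ * (p * g) * w) := by group
    rw [e1]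
    exact mul_mem (hPH hwp) k2
  obtain ⟨hw', hc'⟩ := D.v1 _ hgH hwgH
  exact ⟨hPH.trans hH, hH hw', hH hgH, hH hc'⟩

end Pool.Agent.Lib.MP_544bd1_al
end

section

/-!
Theorem Z (paper 287), 4.6: condition (i).
-/

namespace Pool.Agent.Lib.MP_544bd1_al

open Subgroup

variable {a : ℕ} {X : Type} [Group X] [Finite X] {Q₀ E P Z₁ : Subgroup X} {g y c μ σ e e' w f : X}
  {q : ℕ → ℕ → X}

/-- **(V5)** condition (i)

Proof. Let `B₁ = closure {z | ∃ h ∈ S, h ^ (2 ^ a) = 1 ∧ z = h ^ (2 ^ (a - 1))} ≤ B`. `B₁` is normalized by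
`S` (`closure_induction`; `(s * h * s⁻¹) ^ k = s * h ^ k * s⁻¹`), contains `κ = g ^ (2 ^ (a - 1))` (`D.hg`) and
`(p * g) ^ (2 ^ (a - 1)) = n * κ` (`ynorm_pow`; `(p * g) ^ (2 ^ a) = (n * κ) ^ 2 = n ^ 2 * κ ^ 2 = 1` by
`hn.n2`, `D.κP`, `D.hg`, `2 ^ a = 2 ^ (a - 1) * 2`), so `n ∈ B₁`. `U = B₁ ⊓ P` satisfies the hypotheses of `yv_irr`
(`n * (c * n⁻¹ * c⁻¹) ∈ B₁ ⊓ P`). -/
theorem yv_i (ha : 3 ≤ a) (D : YV a Q₀ E P Z₁ g y c μ σ e e' w f q) {p : X} (hp : p ∈ P)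
    (hn : YNm Q₀ E P (ynorm (2 ^ (a - 1)) g p) q) {S : Subgroup X} (hPS : P ≤ S) (hwS : w ∈ S)
    (hgS : g ∈ S) (hcS : c ∈ S) (B : Subgroup X)
    (hB : ∀ h ∈ S, h ^ (2 ^ a) = 1 → h ^ (2 ^ (a - 1)) ∈ B) : P ≤ B := by
  have h2a : 2 ^ a = 2 ^ (a - 1) * 2 := by
    conv_lhs => rw [show a = (a - 1) + 1 by omega]
    rw [pow_succ]
  have hB₁B : closure {z | ∃ h ∈ S, h ^ (2 ^ a) = 1 ∧ z = h ^ (2 ^ (a - 1))} ≤ B := by
    rw [closure_le]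
    rintro z ⟨h, hS, h1, rfl⟩
    exact hB h hS h1
  have hnorm : ∀ s ∈ S, ∀ x ∈ closure {z | ∃ h ∈ S, h ^ (2 ^ a) = 1 ∧ z = h ^ (2 ^ (a - 1))},
      s * x * s⁻¹ ∈ closure {z | ∃ h ∈ S, h ^ (2 ^ a) = 1 ∧ z = h ^ (2 ^ (a - 1))} := by
    intro s hs x hx
    induction hx using closure_induction with
    | mem z hz =>
      obtain ⟨h, hS, h1, rfl⟩ := hz
      refine subset_closure ⟨s * h * s⁻¹, S.mul_mem (S.mul_mem hs hS) (S.inv_mem hs), ?_, ?_⟩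
      · rw [conj_pow, h1]; group
      · rw [conj_pow]
    | one => simp
    | mul x y _ _ hx hy =>
      have h3 : s * (x * y) * s⁻¹ = (s * x * s⁻¹) * (s * y * s⁻¹) := by group
      rw [h3]; exact mul_mem hx hy
    | inv x _ hx =>
      have h3 : s * x⁻¹ * s⁻¹ = (s * x * s⁻¹)⁻¹ := by group
      rw [h3]; exact inv_mem hx
  have hκ : g ^ (2 ^ (a - 1)) ∈
      closure {z | ∃ h ∈ S, h ^ (2 ^ a) = 1 ∧ z = h ^ (2 ^ (a - 1))} :=
    subset_closure ⟨g, hgS, D.hg, rfl⟩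
  have hpg : (p * g) ^ (2 ^ (a - 1)) ∈
      closure {z | ∃ h ∈ S, h ^ (2 ^ a) = 1 ∧ z = h ^ (2 ^ (a - 1))} := by
    refine subset_closure ⟨p * g, S.mul_mem (hPS hp) hgS, ?_, rfl⟩
    have hcm : Commute (ynorm (2 ^ (a - 1)) g p) (g ^ (2 ^ (a - 1))) :=
      (D.κP _ hn.nP).symm
    rw [h2a, pow_mul, ynorm_pow, hcm.mul_pow, hn.n2, one_mul, ← pow_mul, ← h2a, D.hg]
  have hn1 : ynorm (2 ^ (a - 1)) g p ∈
      closure {z | ∃ h ∈ S, h ^ (2 ^ a) = 1 ∧ z = h ^ (2 ^ (a - 1))} := by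
    rw [ynorm_pow] at hpg
    have := mul_mem hpg (inv_mem hκ)
    rwa [mul_inv_cancel_right] at this
  have hc' : ∀ x ∈ P, c * x * c⁻¹ ∈ P := fun x hx => D.EP c D.cE x hx
  have key := yv_irr D hn
    (U := closure {z | ∃ h ∈ S, h ^ (2 ^ a) = 1 ∧ z = h ^ (2 ^ (a - 1))} ⊓ P) inf_le_right
    (fun u hu => le_sup_left (α := Subgroup X) (mem_inf.2 ⟨hnorm g hgS u hu.1, D.gP u hu.2⟩))
    (fun u hu => le_sup_left (α := Subgroup X) (mem_inf.2 ⟨hnorm w hwS u hu.1, D.wP u hu.2⟩))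
    (fun u hu => le_sup_left (α := Subgroup X) (mem_inf.2 ⟨hnorm c hcS u hu.1, hc' u hu.2⟩))
    (by
      refine le_sup_left (α := Subgroup X) (mem_inf.2 ⟨?_, ?_⟩)
      · have h3 := mul_mem hn1 (hnorm c hcS _ (inv_mem hn1))
        have h4 : ynorm (2 ^ (a - 1)) g p * c * (ynorm (2 ^ (a - 1)) g p)⁻¹ * c⁻¹ =
          ynorm (2 ^ (a - 1)) g p * (c * (ynorm (2 ^ (a - 1)) g p)⁻¹ * c⁻¹) := by group
        rwa [h4]
      · have h3 := mul_mem hn.nP (hc' _ (inv_mem hn.nP))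
        have h4 : ynorm (2 ^ (a - 1)) g p * c * (ynorm (2 ^ (a - 1)) g p)⁻¹ * c⁻¹ =
          ynorm (2 ^ (a - 1)) g p * (c * (ynorm (2 ^ (a - 1)) g p)⁻¹ * c⁻¹) := by group
        rwa [h4])
  exact key.trans (inf_le_left.trans hB₁B)

end Pool.Agent.Lib.MP_544bd1_al
end

section

/-!
Theorem Z (paper 287), 4.8: the element c_I.
-/

namespace Pool.Agent.Lib.MP_544bd1_al

open Subgroup

variable {m a k : ℕ} {X : Type} [Group X] [Finite X] {Q Q₀ Z R E : Subgroup X}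
  {g τ y c μ σ x : X}


private theorem ye_cI_R (Y : YX a k Q Q₀ Z R E g τ y c μ σ) : ∀ r ∈ R, τ⁻¹ * r * τ ∈ R := by
  intro r hr
  let φ : R → R := fun s => ⟨τ * s * τ⁻¹, Y.τR s s.2⟩
  have hφ : Function.Injective φ := by
    intro s t hst
    have h1 : τ * (s : X) * τ⁻¹ = τ * t * τ⁻¹ := congrArg Subtype.val hst
    exact Subtype.ext (mul_left_cancel (mul_right_cancel h1))
  obtain ⟨s, hs⟩ := Finite.surjective_of_injective hφ ⟨r, hr⟩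
  have h1 : τ * (s : X) * τ⁻¹ = r := congrArg Subtype.val hs
  rw [← h1]
  have h2 : τ⁻¹ * (τ * (s : X) * τ⁻¹) * τ = s := by group
  rw [h2]
  exact s.2

/-- the elements of `R` which are central in `R` -/
private def ye_cI_P (R : Subgroup X) : Subgroup X where
  carrier := {z | z ∈ R ∧ ∀ r ∈ R, z * r = r * z}
  one_mem' := ⟨R.one_mem, fun r _ => by rw [one_mul, mul_one]⟩
  mul_mem' := by
    rintro u v ⟨hu, hu'⟩ ⟨hv, hv'⟩
    refine ⟨R.mul_mem hu hv, fun r hr => ?_⟩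
    rw [mul_assoc, hv' r hr, ← mul_assoc, hu' r hr, mul_assoc]
  inv_mem' := by
    rintro u ⟨hu, hu'⟩
    refine ⟨R.inv_mem hu, fun r hr => ?_⟩
    have h1 := hu' r hr
    calc u⁻¹ * r = u⁻¹ * (r * u) * u⁻¹ := by group
      _ = u⁻¹ * (u * r) * u⁻¹ := by rw [h1]
      _ = r * u⁻¹ := by group

private theorem ye_cI_Pτ (Y : YX a k Q Q₀ Z R E g τ y c μ σ) :
    ∀ z ∈ ye_cI_P R, τ * z * τ⁻¹ ∈ ye_cI_P R := by
  rintro z ⟨hz, hz'⟩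
  refine ⟨Y.τR z hz, fun r hr => ?_⟩
  have h1 := hz' _ (ye_cI_R Y r hr)
  calc τ * z * τ⁻¹ * r = τ * (z * (τ⁻¹ * r * τ)) * τ⁻¹ := by group
    _ = τ * ((τ⁻¹ * r * τ) * z) * τ⁻¹ := by rw [h1]
    _ = _ := by group

private theorem ye_cI_c (Y : YX a k Q Q₀ Z R E g τ y c μ σ) : c ∈ ye_cI_P R :=
  ⟨Y.ER Y.cE, Y.cR⟩

/-- the factors commute with the conjugates of `v` with another index -/
private theorem ye_cI_f (Y : YX a k Q Q₀ Z R E g τ y c μ σ) {i j : ℕ} (hi : i < 3 ^ k)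
    (hj : j < 3 ^ k) (hij : i ≠ j) {v : X} (hv : v ∈ Q₀) :
    (τ ^ j * c * (τ ^ j)⁻¹) * (τ ^ i * v * (τ ^ i)⁻¹) =
      (τ ^ i * v * (τ ^ i)⁻¹) * (τ ^ j * c * (τ ^ j)⁻¹) := by
  rcases lt_or_gt_of_ne hij with h | h
  · obtain ⟨n, rfl⟩ : ∃ n, j = i + n := ⟨j - i, by omega⟩
    have h1 := (Y.outτ n (by omega) (by omega) 1 (Subgroup.one_mem _)).1 c Y.cE v hv
    rw [mul_one] at h1
    rw [pow_add]
    calc τ ^ i * τ ^ n * c * (τ ^ i * τ ^ n)⁻¹ * (τ ^ i * v * (τ ^ i)⁻¹)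
        = τ ^ i * ((τ ^ n * c * (τ ^ n)⁻¹) * v) * (τ ^ i)⁻¹ := by group
      _ = τ ^ i * (v * (τ ^ n * c * (τ ^ n)⁻¹)) * (τ ^ i)⁻¹ := by rw [h1]
      _ = _ := by group
  · obtain ⟨n, rfl⟩ : ∃ n, i = j + n := ⟨i - j, by omega⟩
    have h1 := (Y.outτ n (by omega) (by omega) 1 (Subgroup.one_mem _)).2.1 c Y.cE v hv
    rw [mul_one] at h1
    rw [pow_add]
    calc τ ^ j * c * (τ ^ j)⁻¹ * (τ ^ j * τ ^ n * v * (τ ^ j * τ ^ n)⁻¹)
        = τ ^ j * (c * (τ ^ n * v * (τ ^ n)⁻¹)) * (τ ^ j)⁻¹ := by group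
      _ = τ ^ j * ((τ ^ n * v * (τ ^ n)⁻¹) * c) * (τ ^ j)⁻¹ := by rw [h1]
      _ = _ := by group

private theorem ye_cI_1 (Y : YX a k Q Q₀ Z R E g τ y c μ σ) {i : ℕ} (hi : i < 3 ^ k) :
    ∀ N, N ≤ 3 ^ k → ∀ v ∈ Q₀, ynorm N τ c * (τ ^ i * v * (τ ^ i)⁻¹) * (ynorm N τ c)⁻¹ =
      if i < N then τ ^ i * (c * v * c⁻¹) * (τ ^ i)⁻¹ else τ ^ i * v * (τ ^ i)⁻¹ := by
  intro N
  induction N with
  | zero =>
    intro _ v _
    rw [ynorm_zero, if_neg (Nat.not_lt_zero i)]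
    group
  | succ N ih =>
    intro hN v hv
    have h0 : ynorm (N + 1) τ c * (τ ^ i * v * (τ ^ i)⁻¹) * (ynorm (N + 1) τ c)⁻¹ =
        ynorm N τ c * ((τ ^ N * c * (τ ^ N)⁻¹) * (τ ^ i * v * (τ ^ i)⁻¹) *
          (τ ^ N * c * (τ ^ N)⁻¹)⁻¹) * (ynorm N τ c)⁻¹ := by
      rw [ynorm_succ]
      group
    rw [h0]
    rcases eq_or_ne i N with rfl | hne
    · have h1 : (τ ^ i * c * (τ ^ i)⁻¹) * (τ ^ i * v * (τ ^ i)⁻¹) * (τ ^ i * c * (τ ^ i)⁻¹)⁻¹ =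
          τ ^ i * (c * v * c⁻¹) * (τ ^ i)⁻¹ := by group
      rw [h1, ih (by omega) _ (Y.RQ₀ c (Y.ER Y.cE) v hv), if_neg (lt_irrefl i),
        if_pos (Nat.lt_succ_self i)]
    · rw [ye_cI_f Y hi (by omega) hne hv, mul_inv_cancel_right, ih (by omega) v hv]
      by_cases h2 : i < N
      · rw [if_pos h2, if_pos (by omega)]
      · rw [if_neg h2, if_neg (by omega)]

/-- **`c_I = ynorm (3 ^ k) τ c`, the product of the `τ ^ i * c * (τ ^ i)⁻¹`.**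

Proof. All factors are central in `R` (`Y.cR`, `Y.τR`), so they commute. (1) for `v ∈ Q₀`, `i < 3 ^ k`:
the factor with index `i' ≠ i` commutes with `τ ^ i * v * (τ ^ i)⁻¹`: for `i' < i`:
`YOut Q₀ E (τ ^ (i - i'))` (`Y.outτ`, `h = 1`), second part, conjugated by `τ ^ i'`; for `i' > i`:
`YOut Q₀ E (τ ^ (i' - i))`, first part, conjugated by `τ ^ i`. So the conjugation is that by
`τ ^ i * c * (τ ^ i)⁻¹`: `τ ^ i * (c * v * c⁻¹) * (τ ^ i)⁻¹`. (2) `y` commutes with `τ`; `Y.yc`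
(`ynorm_conj`; the norm of `c⁻¹` is the inverse of the norm as the factors commute: `ynorm_mul`-like
induction). (3) `ynorm_mul`-like: the cube is the norm of `c ^ 3 = 1`. (4) `yP_inv`, third part, for every
factor. (5) the factor `τ ^ i * c * (τ ^ i)⁻¹` commutes with `(g ^ l * t) * v * (g ^ l * t)⁻¹`,
`t ∈ closure {τ}`: conjugate by `(τ ^ i)⁻¹`: `Y.outgτ`, second part of `YOut` for `g ^ l * (τ ^ i)⁻¹ * t`. -/
theorem ye_cI (ha : 3 ≤ a) (hexp : ∀ x : X, x ^ (m * 2 ^ a) = 1)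
    (Y : YX a k Q Q₀ Z R E g τ y c μ σ) (h : YE Q₀ Z y c μ x) :
    (∀ i, i < 3 ^ k → ∀ v ∈ Q₀, ynorm (3 ^ k) τ c * (τ ^ i * v * (τ ^ i)⁻¹) *
        (ynorm (3 ^ k) τ c)⁻¹ = τ ^ i * (c * v * c⁻¹) * (τ ^ i)⁻¹) ∧
      y * ynorm (3 ^ k) τ c * y⁻¹ = (ynorm (3 ^ k) τ c)⁻¹ ∧
      ynorm (3 ^ k) τ c ^ 3 = 1 ∧ ynorm (3 ^ k) τ c ^ m = 1 ∧
      (∀ z ∈ yP g τ E x, ynorm (3 ^ k) τ c * z * (ynorm (3 ^ k) τ c)⁻¹ ∈ yP g τ E x) ∧
      ∀ l, 0 < l → l < 2 ^ (a - 2) → ∀ t ∈ closure {τ}, ∀ v ∈ Q₀,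
        ynorm (3 ^ k) τ c * ((g ^ l * t) * v * (g ^ l * t)⁻¹) =
          (g ^ l * t) * v * (g ^ l * t)⁻¹ * ynorm (3 ^ k) τ c := by
  have hP := ye_cI_Pτ Y
  have hPc : ∀ u ∈ ye_cI_P R, ∀ v ∈ ye_cI_P R, u * v = v * u := fun u hu v hv => hu.2 v hv.1
  have hc := ye_cI_c Y
  have h1N : ∀ N : ℕ, ynorm N τ (1 : X) = 1 := fun N => by simp [ynorm]
  have hτy : τ * y = y * τ := by
    rw [Y.hy]
    exact (Commute.pow_left (show Commute g τ from Y.hgτ) _).symm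
  have h3 : ynorm (3 ^ k) τ c ^ 3 = 1 := by
    have h4 : c * c * c = 1 := by rw [← Y.c3, pow_succ, pow_two]
    rw [pow_succ, pow_two, ← ynorm_mul hP hPc hc hc,
      ← ynorm_mul hP hPc ((ye_cI_P R).mul_mem hc hc) hc, h4, h1N]
  refine ⟨?_, ?_, h3, ye_pm hexp (j := 1) (by rw [pow_one]; exact h3), ?_, ?_⟩
  · intro i hi v hv
    rw [ye_cI_1 Y hi _ le_rfl v hv, if_pos hi]
  · rw [ynorm_conj _ hτy, Y.yc]
    have h4 := ynorm_mul hP hPc hc ((ye_cI_P R).inv_mem hc) (3 ^ k)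
    rw [mul_inv_cancel, h1N] at h4
    exact (inv_eq_of_mul_eq_one_right h4.symm).symm
  · have h5 := (yP_inv ha Y h (τ₁ := τ) le_rfl).2.2
    have hτm : τ ∈ closure {g, τ} := subset_closure (by simp)
    have h6 : ∀ N : ℕ, ∀ z ∈ yP g τ E x, ynorm N τ c * z * (ynorm N τ c)⁻¹ ∈ yP g τ E x := by
      intro N
      induction N with
      | zero =>
        intro z hz
        rw [ynorm_zero]
        simpa using hz
      | succ N ih =>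
        intro z hz
        have h7 : ynorm (N + 1) τ c * z * (ynorm (N + 1) τ c)⁻¹ =
            ynorm N τ c * ((τ ^ N * c * (τ ^ N)⁻¹) * z * (τ ^ N * c * (τ ^ N)⁻¹)⁻¹) *
              (ynorm N τ c)⁻¹ := by
          rw [ynorm_succ]
          group
        rw [h7]
        exact ih _ (h5 _ (Subgroup.pow_mem _ hτm N) c Y.cE z hz)
    exact h6 _
  · intro l hl0 hl t ht v hv
    have h6 : ∀ N : ℕ, ynorm N τ c * ((g ^ l * t) * v * (g ^ l * t)⁻¹) =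
        (g ^ l * t) * v * (g ^ l * t)⁻¹ * ynorm N τ c := by
      intro N
      induction N with
      | zero => rw [ynorm_zero, one_mul, mul_one]
      | succ N ih =>
        have ht' : (τ ^ N)⁻¹ * t ∈ closure {τ} :=
          Subgroup.mul_mem _ (Subgroup.inv_mem _ (Subgroup.pow_mem _
            (Subgroup.mem_closure_singleton_self τ) N)) ht
        have h7 := (Y.outgτ l hl0 hl _ ht').2.1 c Y.cE v hv
        have hc1 : g ^ l * (τ ^ N)⁻¹ = (τ ^ N)⁻¹ * g ^ l :=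
          (Commute.inv_right (Commute.pow_pow (show Commute g τ from Y.hgτ) l N))
        have h8 : g ^ l * ((τ ^ N)⁻¹ * t) = (τ ^ N)⁻¹ * (g ^ l * t) := by
          rw [← mul_assoc, hc1, mul_assoc]
        rw [h8] at h7
        have h9 : (τ ^ N * c * (τ ^ N)⁻¹) * ((g ^ l * t) * v * (g ^ l * t)⁻¹) =
            (g ^ l * t) * v * (g ^ l * t)⁻¹ * (τ ^ N * c * (τ ^ N)⁻¹) := by
          calc (τ ^ N * c * (τ ^ N)⁻¹) * ((g ^ l * t) * v * (g ^ l * t)⁻¹)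
              = τ ^ N * (c * (((τ ^ N)⁻¹ * (g ^ l * t)) * v * ((τ ^ N)⁻¹ * (g ^ l * t))⁻¹)) *
                  (τ ^ N)⁻¹ := by group
            _ = τ ^ N * ((((τ ^ N)⁻¹ * (g ^ l * t)) * v * ((τ ^ N)⁻¹ * (g ^ l * t))⁻¹) * c) *
                  (τ ^ N)⁻¹ := by rw [h7]
            _ = _ := by group
        rw [ynorm_succ, mul_assoc, h9, ← mul_assoc, ih, mul_assoc]
    exact h6 _

end Pool.Agent.Lib.MP_544bd1_al
end

section

/-!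
Theorem Z (paper 287), 4.5-4.8: the group E, action of y.
-/

namespace Pool.Agent.Lib.MP_544bd1_al

open Subgroup

/-- Proof: direct computation; `e' * e = c⁻¹ * (e * e')`. -/
theorem yk_Ey {X : Type} [Group X] {e e' c y : X} (he : e ^ 3 = 1)
    (hc : c = e * e' * e⁻¹ * e'⁻¹) (hce : c * e = e * c) (hce' : c * e' = e' * c)
    (hc3 : c ^ 3 = 1) (h1 : y * e * y⁻¹ = e') (h2 : y * e' * y⁻¹ = e) :
    y * c * y⁻¹ = c⁻¹ ∧ y * (e * e'⁻¹) * y⁻¹ = (e * e'⁻¹)⁻¹ ∧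
      y * (e * e' * c) * y⁻¹ = e * e' * c ∧ ∀ r ∈ closure {e, e'}, y * r * y⁻¹ ∈ closure {e, e'} := by
  have hyi : ∀ u v : X, y * (u * v) * y⁻¹ = (y * u * y⁻¹) * (y * v * y⁻¹) := fun u v => by group
  have hyinv : ∀ u : X, y * u⁻¹ * y⁻¹ = (y * u * y⁻¹)⁻¹ := fun u => by group
  have hc' : e * e' = c * (e' * e) := by rw [hc]; group
  have hy1 : y * c * y⁻¹ = c⁻¹ := by
    rw [hc, hyi, hyi, hyi, hyinv, hyinv, h1, h2]
    group
  refine ⟨hy1, ?_, ?_, ?_⟩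
  · rw [hyi, hyinv, h1, h2]
    group
  · rw [hyi, hyi, hy1, h1, h2]
    have e1 : c⁻¹ * (e * e') = (e * e') * c⁻¹ := by
      have e2 : c⁻¹ * e = e * c⁻¹ := by
        rw [inv_mul_eq_iff_eq_mul, ← mul_assoc, hce, mul_assoc, mul_inv_cancel, mul_one]
      have e3 : c⁻¹ * e' = e' * c⁻¹ := by
        rw [inv_mul_eq_iff_eq_mul, ← mul_assoc, hce', mul_assoc, mul_inv_cancel, mul_one]
      rw [← mul_assoc, e2, mul_assoc, e3, mul_assoc]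
    have e4 : e' * e = c⁻¹ * (e * e') := by rw [hc']; group
    have e5 : c⁻¹ * c⁻¹ = c := by
      have e6 : c * (c * c) = 1 := by rw [← hc3, pow_succ, pow_two, mul_assoc]
      rw [← mul_inv_rev, inv_eq_iff_mul_eq_one, mul_assoc]
      exact e6
    rw [e4, e1, mul_assoc, e5]
  · intro r hr
    induction hr using Subgroup.closure_induction with
    | mem r hr =>
      rcases hr with rfl | hr
      · rw [h1]
        exact subset_closure (Or.inr rfl)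
      · rw [Set.mem_singleton_iff] at hr
        subst hr
        rw [h2]
        exact subset_closure (Or.inl rfl)
    | one =>
      rw [mul_one, mul_inv_cancel]
      exact Subgroup.one_mem _
    | mul u v _ _ hu hv =>
      rw [hyi]
      exact Subgroup.mul_mem _ hu hv
    | inv u _ hu =>
      rw [hyinv]
      exact Subgroup.inv_mem _ hu

end Pool.Agent.Lib.MP_544bd1_al
end
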