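import Mathlib
import Pool.Agent.Lib.MP_544bd1_al.ZtDefs3
import Pool.Agent.Lib.MP_544bd1_al.ZsC0
import Pool.Agent.Lib.MP_544bd1_al.ZsC4

section

/-!
Theorem Z (paper 287), 4.5-4.8: the subgroup [Q, c], invariance.
-/

namespace Pool.Agent.Lib.MP_544bd1_al

open Subgroup

private theorem zskb2_cl {X : Type} [Group X] {S : Set X} {r : X}
    (h : ∀ z ∈ S, r * z * r⁻¹ ∈ closure S) : ∀ x ∈ closure S, r * x * r⁻¹ ∈ closure S := by
  have h1 : closure S ≤ (closure S).comap (MulAut.conj r).toMonoidHom :=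
    (closure_le _).2 fun z hz => h z hz
  intro x hx
  exact h1 hx

/-- Proof: generators: `r * (x⁻¹ * (c * x * c⁻¹)) * r⁻¹ = x'⁻¹ * (c * x' * c⁻¹)` with
`x' = r * x * r⁻¹`. -/
theorem yk_0r {X : Type} [Group X] {Q : Subgroup X} {c r : X} (hr : c * r = r * c)
    (hrQ : ∀ x ∈ Q, r * x * r⁻¹ ∈ Q) : ∀ x ∈ y0 Q c, r * x * r⁻¹ ∈ y0 Q c := by
  apply zskb2_cl
  rintro z ⟨x, hx, rfl⟩
  refine subset_closure ⟨r * x * r⁻¹, hrQ x hx, ?_⟩
  have h1 : c * (r * x * r⁻¹) * c⁻¹ = r * (c * x * c⁻¹) * r⁻¹ := by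
    calc c * (r * x * r⁻¹) * c⁻¹ = (c * r) * x * (c * r)⁻¹ := by group
      _ = (r * c) * x * (r * c)⁻¹ := by rw [hr]
      _ = r * (c * x * c⁻¹) * r⁻¹ := by group
  rw [h1]
  group

/-- Proof: generators: with `x' = y * x * y⁻¹`: `y * (x⁻¹ * (c * x * c⁻¹)) * y⁻¹ =
x'⁻¹ * (c⁻¹ * x' * c) = c⁻¹ * (x'⁻¹ * (c * x' * c⁻¹))⁻¹ * c` up to a cyclic rearrangement:
`c⁻¹ * (c * x'⁻¹ * c⁻¹ * x') * c = x'⁻¹ * (c⁻¹ * x' * c)` and `c * x'⁻¹ * c⁻¹ * x'` is the inverse of the
generator `x'⁻¹ * (c * x' * c⁻¹)`; `y0 Q c` is normalized by `c⁻¹` (`yk_0r` for `r = c⁻¹`; `Q` is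
normalized by `c⁻¹ = c ^ 2`). -/
theorem yk_0y {X : Type} [Group X] {Q : Subgroup X} {c y : X} (hc3 : c ^ 3 = 1)
    (hcQ : ∀ x ∈ Q, c * x * c⁻¹ ∈ Q) (hyQ : ∀ x ∈ Q, y * x * y⁻¹ ∈ Q)
    (hyc : y * c * y⁻¹ = c⁻¹) : ∀ x ∈ y0 Q c, y * x * y⁻¹ ∈ y0 Q c := by
  have hci : c⁻¹ = c * c := by
    rw [inv_eq_iff_mul_eq_one, ← mul_assoc, ← hc3, pow_succ, pow_two]
  have hcQ' : ∀ x ∈ Q, c⁻¹ * x * c⁻¹⁻¹ ∈ Q := by
    intro x hx
    have h1 := hcQ _ (hcQ x hx)
    have h2 : c⁻¹ * x * c⁻¹⁻¹ = c * (c * x * c⁻¹) * c⁻¹ := by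
      calc c⁻¹ * x * c⁻¹⁻¹ = (c * c) * x * (c * c)⁻¹ := by rw [← hci]
        _ = c * (c * x * c⁻¹) * c⁻¹ := by group
    rw [h2]
    exact h1
  have h0 := yk_0r (Q := Q) (c := c) (r := c⁻¹) (by group) hcQ'
  apply zskb2_cl
  rintro z ⟨x, hx, rfl⟩
  have h3 : (y * x * y⁻¹)⁻¹ * (c * (y * x * y⁻¹) * c⁻¹) ∈ y0 Q c :=
    subset_closure ⟨y * x * y⁻¹, hyQ x hx, rfl⟩
  have h4 := h0 _ ((y0 Q c).inv_mem h3)
  have h5 : y * (x⁻¹ * (c * x * c⁻¹)) * y⁻¹ =
      (y * x * y⁻¹)⁻¹ * ((y * c * y⁻¹) * (y * x * y⁻¹) * (y * c * y⁻¹)⁻¹) := by group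
  rw [h5, hyc]
  have h6 : (y * x * y⁻¹)⁻¹ * (c⁻¹ * (y * x * y⁻¹) * c⁻¹⁻¹) =
      c⁻¹ * ((y * x * y⁻¹)⁻¹ * (c * (y * x * y⁻¹) * c⁻¹))⁻¹ * c⁻¹⁻¹ := by group
  rw [h6]
  exact h4

/-- Elements of odd order which centralize `Z` and fix `x` modulo `Z` fix `x`.

Proof. `r * x * r⁻¹ = z * x`, `z ∈ Z`; by induction `r ^ n * x * (r ^ n)⁻¹ = z ^ n * x` (`r` commutes with
`z`). For `n` odd with `r ^ n = 1`: `z ^ n = 1`, `z ^ 2 = 1`, so `z = 1`. -/
theorem yk_ex {X : Type} [Group X] {Z : Subgroup X} {r x : X} {n : ℕ} (hn : Odd n)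
    (hrn : r ^ n = 1) (hZ2 : ∀ z ∈ Z, z ^ 2 = 1) (hrZ : ∀ z ∈ Z, z * r = r * z)
    (h : r * x * r⁻¹ * x⁻¹ ∈ Z) : r * x = x * r := by
  obtain ⟨z, hz⟩ : ∃ z, r * x * r⁻¹ * x⁻¹ = z := ⟨_, rfl⟩
  rw [hz] at h
  have h1 : r * x * r⁻¹ = z * x := by rw [← hz]; group
  have h2 : ∀ m : ℕ, r ^ m * x * (r ^ m)⁻¹ = z ^ m * x := by
    intro m
    induction m with
    | zero => simp
    | succ m ih =>
      have h3 : z ^ m * r = r * z ^ m := ((Commute.pow_left (hrZ z h) m : Commute (z ^ m) r))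
      calc r ^ (m + 1) * x * (r ^ (m + 1))⁻¹ = r * (r ^ m * x * (r ^ m)⁻¹) * r⁻¹ := by
            rw [pow_succ', mul_inv_rev]
            group
        _ = (r * z ^ m) * x * r⁻¹ := by rw [ih]; group
        _ = z ^ m * (r * x * r⁻¹) := by rw [← h3]; group
        _ = z ^ (m + 1) * x := by rw [h1, pow_succ]; group
  have h3 := h2 n
  rw [hrn, one_mul, inv_one, mul_one, right_eq_mul] at h3
  obtain ⟨k, rfl⟩ := hn
  rw [pow_succ, pow_mul, hZ2 z h, one_pow, one_mul] at h3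
  rw [h3, one_mul] at h1
  exact mul_inv_eq_iff_eq_mul.1 h1

end Pool.Agent.Lib.MP_544bd1_al
end

section

/-!
Theorem Z (paper 287), 4.2: all sign changes occur.
-/

namespace Pool.Agent.Lib.MP_544bd1_al

open Subgroup

open Classical in
/-- parity of the action on `e` -/
private noncomputable def zsF {H : Type} [Group H] (e x : H) : ZMod 2 :=
  if x * e = e * x then 0 else 1

private theorem zsF_zero {H : Type} [Group H] {e x : H} : zsF e x = 0 ↔ x * e = e * x := by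
  unfold zsF
  split_ifs with h <;> simp [h]

private theorem zsF_one {H : Type} [Group H] {e x : H} : zsF e x = 1 ↔ x * e ≠ e * x := by
  unfold zsF
  split_ifs with h <;> simp [h]

private theorem zsF_or {H : Type} [Group H] (e x : H) : zsF e x = 0 ∨ zsF e x = 1 := by
  unfold zsF
  split_ifs <;> simp

private theorem zsF_mul {H : Type} [Group H] {e : H} {x y : H}
    (hx : x * e * x⁻¹ = e ∨ x * e * x⁻¹ = e⁻¹) (hy : y * e * y⁻¹ = e ∨ y * e * y⁻¹ = e⁻¹) :
    zsF e (x * y) = zsF e x + zsF e y := by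
  have hcx : x * e = e * x ↔ x * e * x⁻¹ = e := mul_inv_eq_iff_eq_mul.symm
  have hcy : y * e = e * y ↔ y * e * y⁻¹ = e := mul_inv_eq_iff_eq_mul.symm
  rcases zsF_or e x with h1 | h1
  · rw [h1, zero_add]
    have h2 : Commute x e := zsF_zero.1 h1
    rcases zsF_or e y with h3 | h3
    · have h4 : Commute y e := zsF_zero.1 h3
      rw [h3]
      exact zsF_zero.2 (h2.mul_left h4)
    · rw [h3]
      rw [zsF_one] at h3 ⊢
      intro h5
      apply h3
      have h6 : Commute (x * y) e := h5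
      have h7 : Commute (x⁻¹ * (x * y)) e := h2.inv_left.mul_left h6
      rw [inv_mul_cancel_left] at h7
      exact h7
  · rcases zsF_or e y with h3 | h3
    · have h4 : Commute y e := zsF_zero.1 h3
      rw [h3, h1, add_zero]
      rw [zsF_one] at h1 ⊢
      intro h5
      apply h1
      have h6 : Commute (x * y) e := h5
      have h7 : Commute (x * y * y⁻¹) e := h6.mul_left h4.inv_left
      rw [mul_inv_cancel_right] at h7
      exact h7
    · rw [h1, h3]
      have h4 : (1 : ZMod 2) + 1 = 0 := by decide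
      rw [h4, zsF_zero]
      rw [zsF_one] at h1 h3
      have h5 := hx.resolve_left (fun h => h1 (hcx.2 h))
      have h6 := hy.resolve_left (fun h => h3 (hcy.2 h))
      have h7 : x * y * e * (x * y)⁻¹ = e := by
        calc x * y * e * (x * y)⁻¹ = x * (y * e * y⁻¹) * x⁻¹ := by group
          _ = x * e⁻¹ * x⁻¹ := by rw [h6]
          _ = (x * e * x⁻¹)⁻¹ := by group
          _ = e := by rw [h5, inv_inv]
      exact mul_inv_eq_iff_eq_mul.1 h7

/-- sums of a periodic function over a period -/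
private theorem zsF_shift {h : ℤ → ZMod 2} {M : ℕ} (hM : ∀ k, h (k + M) = h k) (t : ℤ) :
    ∑ l ∈ Finset.range M, h (l + t) = ∑ l ∈ Finset.range M, h l := by
  have hstep : ∀ t : ℤ, ∑ l ∈ Finset.range M, h (l + (t + 1)) =
      ∑ l ∈ Finset.range M, h (l + t) := by
    intro t
    have e1 := Finset.sum_range_succ' (fun l : ℕ => h (l + t)) M
    have e2 := Finset.sum_range_succ (fun l : ℕ => h (l + t)) M
    rw [e1] at e2
    have e3 : h ((M : ℤ) + t) = h (((0 : ℕ) : ℤ) + t) := by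
      rw [add_comm, hM, Nat.cast_zero, zero_add]
    rw [e3] at e2
    have e4 := add_right_cancel e2
    rw [← e4]
    refine Finset.sum_congr rfl fun l _ => ?_
    congr 1
    push_cast
    ring
  induction t using Int.induction_on with
  | zero => simp
  | succ n ih => rw [hstep, ih]
  | pred n ih =>
    rw [← ih, ← hstep (-(n : ℤ) - 1)]
    refine Finset.sum_congr rfl fun l _ => ?_
    congr 1
    ring

private theorem zsF_reflect {h : ℤ → ZMod 2} {M : ℕ} (hM : ∀ k, h (k + M) = h k) :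
    ∑ l ∈ Finset.range M, h (-l) = ∑ l ∈ Finset.range M, h l := by
  rw [← Finset.sum_range_reflect, ← zsF_shift hM (1 - (M : ℤ))]
  refine Finset.sum_congr rfl fun l hl => ?_
  rw [Finset.mem_range] at hl
  congr 1
  have : ((M - 1 - l : ℕ) : ℤ) = (M : ℤ) - 1 - l := by omega
  rw [this]
  ring

/-- the self-convolution of a periodic function vanishes at odd arguments -/
private theorem zsF_conv {h : ℤ → ZMod 2} {M : ℕ} (hM0 : 0 < M) (hM2 : Even M)
    (hM : ∀ k, h (k + M) = h k) {k : ℤ} (hk : Odd k) :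
    ∑ l ∈ Finset.range M, h l * h (k - l) = 0 := by
  have hmod : ∀ a b : ℤ, a % M = b % M → h a = h b := by
    have hmul : ∀ (n : ℕ) (a : ℤ), h (a + n * M) = h a := by
      intro n
      induction n with
      | zero => intro a; simp
      | succ n ih =>
        intro a
        have : a + ((n + 1 : ℕ) : ℤ) * M = (a + n * M) + M := by push_cast; ring
        rw [this, hM, ih]
    have hmulz : ∀ (n : ℤ) (a : ℤ), h (a + n * M) = h a := by
      intro n a
      rcases Int.eq_nat_or_neg n with ⟨m, rfl | rfl⟩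
      · exact hmul m a
      · have := hmul m (a + -(m : ℤ) * M)
        rw [← this]
        congr 1
        ring
    intro a b hab
    have h1 := Int.emod_add_mul_ediv a M
    have h2 := Int.emod_add_mul_ediv b M
    rw [← h1, ← h2, hab, mul_comm (M : ℤ) (a / M), mul_comm (M : ℤ) (b / M), hmulz, hmulz]
  have hMz : (M : ℤ) ≠ 0 := by exact_mod_cast hM0.ne'
  let σ : ℕ → ℕ := fun l => ((k - l) % M).toNat
  have hσ : ∀ l : ℕ, ((σ l : ℕ) : ℤ) = (k - l) % M := fun l =>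
    Int.toNat_of_nonneg (Int.emod_nonneg _ hMz)
  have hσ1 : ∀ l : ℕ, h (σ l) = h (k - l) := by
    intro l
    apply hmod
    rw [hσ, Int.emod_emod_of_dvd _ dvd_rfl]
  have hσ2 : ∀ l : ℕ, h (k - σ l) = h l := by
    intro l
    apply hmod
    rw [hσ, Int.sub_emod, Int.emod_emod_of_dvd _ dvd_rfl, ← Int.sub_emod]
    congr 1
    ring
  refine Finset.sum_involution (fun l _ => σ l) ?_ ?_ ?_ ?_
  · intro l _
    rw [hσ1, hσ2, mul_comm (h (k - l))]
    exact CharTwo.add_self_eq_zero _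
  · intro l hl _ heq
    have h1 := hσ l
    rw [heq] at h1
    have h2 : (M : ℤ) ∣ (k - l) - l := by
      rw [Int.dvd_iff_emod_eq_zero, Int.sub_emod, ← h1]
      have h3 : (l : ℤ) % M = l := by
        apply Int.emod_eq_of_lt (Int.natCast_nonneg _)
        exact_mod_cast Finset.mem_range.1 hl
      rw [h3]
      simp
    obtain ⟨t, ht⟩ := hM2
    obtain ⟨u, hu⟩ := hk
    obtain ⟨w, hw⟩ := h2
    rw [ht] at hw
    push_cast at hw
    have : 2 * (t * w + l - u : ℤ) = 1 := by linarith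
    omega
  · intro l hl
    rw [Finset.mem_range]
    have h1 := hσ l
    have h2 : (k - l) % M < M := Int.emod_lt_of_pos _ (by exact_mod_cast hM0)
    rw [← h1] at h2
    exact_mod_cast h2
  · intro l hl
    have h1 := hσ (σ l)
    have h3 : (l : ℤ) % M = l := by
      apply Int.emod_eq_of_lt (Int.natCast_nonneg _)
      exact_mod_cast Finset.mem_range.1 hl
    have h2 : (k - σ l) % (M : ℤ) = l := by
      rw [hσ, Int.sub_emod, Int.emod_emod_of_dvd _ dvd_rfl, ← Int.sub_emod]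
      have : k - (k - (l : ℤ)) = l := by ring
      rw [this, h3]
    rw [h2] at h1
    exact_mod_cast h1

/-- splitting a sum into even and odd terms -/
private theorem zsF_split (h : ℕ → ZMod 2) (n : ℕ) :
    ∑ l ∈ Finset.range (2 * n), h l = ∑ l ∈ Finset.range n, (h (2 * l) + h (2 * l + 1)) := by
  induction n with
  | zero => simp
  | succ n ih =>
    rw [Finset.sum_range_succ _ n, ← ih, mul_add, mul_one, Finset.sum_range_succ,
      Finset.sum_range_succ]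
    ring

/-- If the norm of `p` inverts `e` then some `π ∈ P` inverts `e` and its conjugates
`g ^ (-l) * π * g ^ l`, `0 < l < 2 ^ c`, centralize `e`.

Proof. Induction on `c`. Let `f x ∈ ZMod 2` be the parity of the action of `x ∈ P` on `e` and
`η k = f (g ^ (-k) * p * g ^ k)`, periodic with the period `M = 2 ^ c`. The element
`T = ∏ (g ^ l * p * g ^ (-l)) ^ η l` (`l < M`) has the function `∑_l η l * η (k - l)`, the square of `η` in
the group algebra, which vanishes at odd `k`. Apply the induction hypothesis to `g ^ 2`, to the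
subgroup of all `x ∈ P` whose function vanishes at the odd numbers, and to `T`. -/
theorem ys_sign {c : ℕ} {H : Type} [Group H] (P : Subgroup H) {g p e : H}
    (hP : ∀ x ∈ P, x ^ 2 = 1) (hgP : ∀ x ∈ P, g * x * g⁻¹ ∈ P) (hp : p ∈ P)
    (hcen : ∀ x ∈ P, g ^ (2 ^ c) * x = x * g ^ (2 ^ c)) (he1 : e ≠ 1)
    (hodd : ∃ n, Odd n ∧ e ^ n = 1) (hsg : ∀ x ∈ P, x * e * x⁻¹ = e ∨ x * e * x⁻¹ = e⁻¹)
    (hz : ynorm (2 ^ c) g p * e * (ynorm (2 ^ c) g p)⁻¹ = e⁻¹) :
    ∃ π ∈ P, π * e * π⁻¹ = e⁻¹ ∧ ∀ l, 0 < l → l < 2 ^ c →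
      ((g ^ l)⁻¹ * π * g ^ l) * e = e * ((g ^ l)⁻¹ * π * g ^ l) := by
  have hee : e⁻¹ ≠ e := by
    intro h
    obtain ⟨n, ⟨m, hm⟩, hn⟩ := hodd
    have h2 : e ^ 2 = 1 := by
      rw [pow_two]
      nth_rw 1 [← h]
      exact inv_mul_cancel e
    apply he1
    rw [hm, pow_succ, pow_mul, h2, one_pow, one_mul] at hn
    exact hn
  have hinvt : ∀ x : H, x * e * x⁻¹ = e⁻¹ → zsF e x = 1 := by
    intro x hx
    rw [zsF_one]
    intro h
    apply hee
    rw [← hx]
    exact mul_inv_eq_iff_eq_mul.2 h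
  clear he1 hodd
  induction c generalizing P g p with
  | zero =>
    refine ⟨p, hp, ?_, fun l h1 h2 => by omega⟩
    have h1 : ynorm (2 ^ 0) g p = p := by
      unfold ynorm
      rw [pow_zero]
      group
    rwa [h1] at hz
  | succ c ih =>
    set M : ℕ := 2 ^ (c + 1) with hM
    have hM0 : 0 < M := by positivity
    have hM2 : Even M := ⟨2 ^ c, by rw [hM]; ring⟩
    -- conjugation by powers of `g`
    have hnat : ∀ n : ℕ, ∀ x ∈ P, g ^ n * x * (g ^ n)⁻¹ ∈ P := by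
      intro n
      induction n with
      | zero => intro x hx; simpa using hx
      | succ n ih =>
        intro x hx
        have h1 := hgP _ (ih x hx)
        have h2 : g ^ (n + 1) * x * (g ^ (n + 1))⁻¹ = g * (g ^ n * x * (g ^ n)⁻¹) * g⁻¹ := by
          rw [pow_succ']; group
        rwa [h2]
    have hinvP : ∀ x ∈ P, g⁻¹ * x * g ∈ P := by
      intro x hx
      have h1 := hnat (M - 1) x hx
      have h2 : g ^ (M - 1) = g⁻¹ * g ^ M := by
        have : g ^ M = g * g ^ (M - 1) := by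
          rw [← pow_succ']
          congr 1
          omega
        rw [this, inv_mul_cancel_left]
      have h3 : g ^ (M - 1) * x * (g ^ (M - 1))⁻¹ = g⁻¹ * x * g := by
        rw [h2]
        calc g⁻¹ * g ^ M * x * (g⁻¹ * g ^ M)⁻¹ = g⁻¹ * (g ^ M * x) * (g ^ M)⁻¹ * g := by group
          _ = g⁻¹ * x * g := by rw [hcen x hx]; group
      rwa [h3] at h1
    have hconj : ∀ (k : ℤ), ∀ x ∈ P, g ^ (-k) * x * g ^ k ∈ P := by
      intro k
      induction k using Int.induction_on with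
      | zero => intro x hx; simpa using hx
      | succ n ih =>
        intro x hx
        have h2 : g ^ (-((n : ℤ) + 1)) * x * g ^ ((n : ℤ) + 1) =
            g⁻¹ * (g ^ (-(n : ℤ)) * x * g ^ (n : ℤ)) * g := by group
        rw [h2]
        exact hinvP _ (ih x hx)
      | pred n ih =>
        intro x hx
        have h2 : g ^ (-(-(n : ℤ) - 1)) * x * g ^ (-(n : ℤ) - 1) =
            g * (g ^ (-(-(n : ℤ))) * x * g ^ (-(n : ℤ))) * g⁻¹ := by group
        rw [h2]
        exact hgP _ (ih x hx)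
    let η : H → ℤ → ZMod 2 := fun x k => zsF e (g ^ (-k) * x * g ^ k)
    have hηmul : ∀ x ∈ P, ∀ y ∈ P, ∀ k, η (x * y) k = η x k + η y k := by
      intro x hx y hy k
      show zsF e (g ^ (-k) * (x * y) * g ^ k) = _
      have h1 : g ^ (-k) * (x * y) * g ^ k = (g ^ (-k) * x * g ^ k) * (g ^ (-k) * y * g ^ k) := by
        group
      rw [h1]
      exact zsF_mul (hsg _ (hconj k x hx)) (hsg _ (hconj k y hy))
    have hper : ∀ x ∈ P, ∀ k : ℤ, η x (k + M) = η x k := by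
      intro x hx k
      show zsF e _ = zsF e _
      congr 1
      have h1 : g ^ (-(k + (M : ℤ))) * x * g ^ (k + (M : ℤ)) =
          g ^ (-k) * ((g ^ M)⁻¹ * (x * g ^ M)) * g ^ k := by
        rw [← zpow_natCast]
        group
      rw [h1, ← hcen x hx, inv_mul_cancel_left]
    have hshift : ∀ x (n k : ℤ), η (g ^ n * x * g ^ (-n)) k = η x (k - n) := by
      intro x n k
      show zsF e _ = zsF e _
      congr 1
      group
    -- the norm
    have hnormP : ∀ x ∈ P, ∀ γ : H, (∀ y ∈ P, γ * y * γ⁻¹ ∈ P) → ∀ n, ynorm n γ x ∈ P ∧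
        ynorm (n + 1) γ x = ynorm n γ x * (γ ^ n * x * (γ ^ n)⁻¹) := by
      intro x hx γ hγ n
      have e1 : ∀ n, ynorm (n + 1) γ x = ynorm n γ x * (γ ^ n * x * (γ ^ n)⁻¹) := by
        intro n
        unfold ynorm
        rw [pow_succ, pow_succ]
        group
      have e2 : ∀ n : ℕ, γ ^ n * x * (γ ^ n)⁻¹ ∈ P := by
        intro n
        induction n with
        | zero => simpa using hx
        | succ n ih =>
          have h2 : γ ^ (n + 1) * x * (γ ^ (n + 1))⁻¹ = γ * (γ ^ n * x * (γ ^ n)⁻¹) * γ⁻¹ := by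
            rw [pow_succ']; group
          rw [h2]
          exact hγ _ ih
      refine ⟨?_, e1 n⟩
      induction n with
      | zero =>
        have : ynorm 0 γ x = 1 := by unfold ynorm; simp
        rw [this]
        exact P.one_mem
      | succ n ih =>
        rw [e1]
        exact P.mul_mem ih (e2 n)
    have hnormF : ∀ x ∈ P, ∀ (γ : H) (m : ℕ), γ = g ^ m → ∀ n : ℕ,
        zsF e (ynorm n γ x) = ∑ l ∈ Finset.range n, η x (-((m * l : ℕ) : ℤ)) := by
      intro x hx γ m hγ n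
      have hγP : ∀ y ∈ P, γ * y * γ⁻¹ ∈ P := by
        intro y hy
        rw [hγ]
        exact hnat m y hy
      induction n with
      | zero =>
        have : ynorm 0 γ x = 1 := by unfold ynorm; simp
        rw [this, Finset.sum_range_zero, zsF_zero]
        rw [one_mul, mul_one]
      | succ n ih =>
        obtain ⟨h1, h2⟩ := hnormP x hx γ hγP n
        have h3 : γ ^ n * x * (γ ^ n)⁻¹ = g ^ (-(-((m * n : ℕ) : ℤ))) * x * g ^ (-((m * n : ℕ) : ℤ)) := by
          rw [hγ, ← pow_mul, neg_neg, zpow_neg, zpow_natCast]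
        have h4 : γ ^ n * x * (γ ^ n)⁻¹ ∈ P := by
          rw [h3]
          exact hconj _ x hx
        rw [h2, Finset.sum_range_succ, zsF_mul (hsg _ h1) (hsg _ h4), ih, h3]
    -- the square of `p` in the group algebra
    have hT : ∀ n : ℕ, ∃ T ∈ P, ∀ k : ℤ, η T k = ∑ l ∈ Finset.range n, η p l * η p (k - l) := by
      intro n
      induction n with
      | zero =>
        refine ⟨1, P.one_mem, fun k => ?_⟩
        rw [Finset.sum_range_zero]
        show zsF e _ = 0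
        rw [mul_one, ← zpow_add, neg_add_cancel, zpow_zero, zsF_zero, one_mul, mul_one]
      | succ n ih =>
        obtain ⟨T, hT, hTk⟩ := ih
        rcases zsF_or e (g ^ (-(n : ℤ)) * p * g ^ (n : ℤ)) with h1 | h1
        · refine ⟨T, hT, fun k => ?_⟩
          have h1' : η p n = 0 := h1
          rw [Finset.sum_range_succ, h1', zero_mul, add_zero, hTk]
        · have h1' : η p n = 1 := h1
          have hpn : g ^ (n : ℤ) * p * g ^ (-(n : ℤ)) ∈ P := by
            have := hconj (-(n : ℤ)) p hp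
            rwa [neg_neg] at this
          refine ⟨T * (g ^ (n : ℤ) * p * g ^ (-(n : ℤ))), P.mul_mem hT hpn, fun k => ?_⟩
          rw [Finset.sum_range_succ, h1', one_mul, hηmul _ hT _ hpn, hTk, hshift]
    obtain ⟨T, hTP, hTk⟩ := hT M
    -- the total sums
    have hsum1 : ∑ l ∈ Finset.range M, η p l = 1 := by
      have h1 := hnormF p hp g 1 (pow_one g).symm M
      rw [hinvt _ hz] at h1
      rw [← zsF_reflect (hper p hp), h1]
      refine Finset.sum_congr rfl fun l _ => ?_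
      rw [one_mul]
    have hsum2 : ∑ k ∈ Finset.range M, η T k = 1 := by
      simp only [hTk]
      rw [Finset.sum_comm]
      have h1 : ∀ l ∈ Finset.range M, ∑ k ∈ Finset.range M, η p l * η p ((k : ℤ) - l) = η p l := by
        intro l _
        rw [← Finset.mul_sum]
        have h2 := zsF_shift (hper p hp) (-(l : ℤ))
        rw [hsum1] at h2
        have h3 : ∑ k ∈ Finset.range M, η p ((k : ℤ) - l) = 1 := by
          rw [← h2]
          refine Finset.sum_congr rfl fun k _ => ?_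
          rw [sub_eq_add_neg]
        rw [h3, mul_one]
      rw [Finset.sum_congr rfl h1, hsum1]
    have hTodd : ∀ k : ℤ, Odd k → η T k = 0 := by
      intro k hk
      rw [hTk]
      exact zsF_conv hM0 hM2 (hper p hp) hk
    -- the subgroup
    let P' : Subgroup H :=
      { carrier := {x | x ∈ P ∧ ∀ k : ℤ, Odd k → η x k = 0}
        mul_mem' := by
          rintro x y ⟨hx, hx'⟩ ⟨hy, hy'⟩
          refine ⟨P.mul_mem hx hy, fun k hk => ?_⟩
          rw [hηmul x hx y hy, hx' k hk, hy' k hk, add_zero]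
        one_mem' := by
          refine ⟨P.one_mem, fun k _ => ?_⟩
          show zsF e _ = 0
          rw [mul_one, ← zpow_add, neg_add_cancel, zpow_zero, zsF_zero, one_mul, mul_one]
        inv_mem' := by
          rintro x ⟨hx, hx'⟩
          have h1 : x⁻¹ = x := by
            rw [inv_eq_iff_mul_eq_one, ← pow_two, hP x hx]
          rw [h1]
          exact ⟨hx, hx'⟩ }
    have hP' : ∀ x, x ∈ P' ↔ x ∈ P ∧ ∀ k : ℤ, Odd k → η x k = 0 := fun x => Iff.rfl
    have hg2 : ∀ n : ℕ, (g ^ 2) ^ n = g ^ (2 * n) := fun n => (pow_mul g 2 n).symm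
    have hpow : (g ^ 2) ^ (2 ^ c) = g ^ M := by
      rw [hg2, hM, ← pow_succ']
    have hTz : zsF e (ynorm (2 ^ c) (g ^ 2) T) = 1 := by
      rw [hnormF T hTP (g ^ 2) 2 rfl, ← hsum2, ← zsF_reflect (hper T hTP)]
      have h1 : M = 2 * 2 ^ c := by rw [hM, pow_succ']
      rw [h1, zsF_split (fun l => η T (-(l : ℤ)))]
      refine Finset.sum_congr rfl fun l _ => ?_
      have h2 : η T (-((2 * l + 1 : ℕ) : ℤ)) = 0 := by
        apply hTodd
        refine ⟨-(l : ℤ) - 1, ?_⟩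
        push_cast
        ring
      show _ = η T (-((2 * l : ℕ) : ℤ)) + η T (-((2 * l + 1 : ℕ) : ℤ))
      rw [h2, add_zero]
    have hTmem : ynorm (2 ^ c) (g ^ 2) T ∈ P :=
      (hnormP T hTP (g ^ 2) (fun y hy => hnat 2 y hy) (2 ^ c)).1
    obtain ⟨π, hπ, hπ1, hπ2⟩ := ih P' (g := g ^ 2) (p := T) (fun x hx => hP x hx.1)
      (by
        intro x hx
        refine ⟨hnat 2 x hx.1, fun k hk => ?_⟩
        have h1 : g ^ 2 * x * (g ^ 2)⁻¹ = g ^ (2 : ℤ) * x * g ^ (-(2 : ℤ)) := by group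
        rw [h1, hshift]
        apply hx.2
        obtain ⟨u, hu⟩ := hk
        exact ⟨u - 1, by rw [hu]; ring⟩)
      ⟨hTP, hTodd⟩ (by
        intro x hx
        rw [hpow]
        exact hcen x hx.1)
      (fun x hx => hsg x hx.1)
      (by
        refine (hsg _ hTmem).resolve_left fun h => ?_
        exact zsF_one.1 hTz (mul_inv_eq_iff_eq_mul.1 h))
    refine ⟨π, hπ.1, hπ1, fun l hl0 hl => ?_⟩
    rcases Nat.even_or_odd l with ⟨m, hm⟩ | hlo
    · have h1 := hπ2 m (by omega) (by rw [hM, pow_succ] at hl; omega)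
      rw [hg2] at h1
      have h2 : 2 * m = l := by omega
      rwa [h2] at h1
    · have h1 := hπ.2 l (by exact_mod_cast hlo)
      have h2 : zsF e (g ^ (-(l : ℤ)) * π * g ^ (l : ℤ)) = 0 := h1
      rw [zsF_zero, zpow_neg, zpow_natCast] at h2
      exact h2

end Pool.Agent.Lib.MP_544bd1_al
end

section

/-!
Theorem Z (paper 287), 4.5-4.8: conjugates outside the block.
-/

namespace Pool.Agent.Lib.MP_544bd1_al

open Subgroup

private theorem kd2_cl {X : Type} [Group X] {S : Set X} {z : X} (hS : ∀ s ∈ S, Commute z s) :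
    ∀ x ∈ closure S, Commute z x := by
  intro x hx
  induction hx using Subgroup.closure_induction with
  | mem s hs => exact hS s hs
  | one => exact Commute.one_right z
  | mul a b _ _ ha hb => exact ha.mul_right hb
  | inv a _ ha => exact ha.inv_right

private theorem kd2_conj {X : Type} [Group X] {h r z : X} :
    Commute (h * r * h⁻¹) z ↔ Commute (h⁻¹ * z * h) r := by
  constructor
  · intro H
    have h1 : h * r * h⁻¹ * z = z * (h * r * h⁻¹) := H
    change h⁻¹ * z * h * r = r * (h⁻¹ * z * h)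
    have h2 : h⁻¹ * z * h * r = h⁻¹ * (z * (h * r * h⁻¹)) * h := by group
    rw [h2, ← h1]
    group
  · intro H
    have h1 : h⁻¹ * z * h * r = r * (h⁻¹ * z * h) := H
    change h * r * h⁻¹ * z = z * (h * r * h⁻¹)
    have h2 : h * r * h⁻¹ * z = h * (r * (h⁻¹ * z * h)) * h⁻¹ := by group
    rw [h2, ← h1]
    group

private theorem kd2_pow {X : Type} [Group X] {Q : Subgroup X} {g : X}
    (h : ∀ x ∈ Q, g * x * g⁻¹ ∈ Q) (n : ℕ) : ∀ x ∈ Q, g ^ n * x * (g ^ n)⁻¹ ∈ Q := by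
  induction n with
  | zero =>
    intro x hx
    simpa using hx
  | succ n ih =>
    intro x hx
    have h1 := ih _ (h x hx)
    have h2 : g ^ (n + 1) * x * (g ^ (n + 1))⁻¹ = g ^ n * (g * x * g⁻¹) * (g ^ n)⁻¹ := by
      rw [pow_succ]
      group
    rw [h2]
    exact h1

private theorem kd2_mem {X : Type} [Group X] {Q : Subgroup X} {g τ : X}
    (h : ∀ x ∈ Q, g * x * g⁻¹ ∈ Q) (hτ : ∀ x ∈ Q, τ * x * τ⁻¹ ∈ Q) (i l : ℕ) :
    ∀ x ∈ Q, (τ ^ i * g ^ l) * x * (τ ^ i * g ^ l)⁻¹ ∈ Q := by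
  intro x hx
  have h1 := kd2_pow hτ i _ (kd2_pow h l x hx)
  have h2 : (τ ^ i * g ^ l) * x * (τ ^ i * g ^ l)⁻¹ =
      τ ^ i * (g ^ l * x * (g ^ l)⁻¹) * (τ ^ i)⁻¹ := by group
  rw [h2]
  exact h1

/-- the shift of the exponent by `N = 2 ^ (a - 2)` modulo `M = 2 N` -/
private theorem kd2_shift {X : Type} [Group X] {R : Subgroup X} {g τ : X} {N M : ℕ}
    (hMN : M = N + N) (hN : 0 < N) (hgτ : Commute g τ) (hκ : ∀ r ∈ R, g ^ M * r = r * g ^ M)
    {i l : ℕ} (hl : l < M) (h : ¬ (i = 0 ∧ (l = 0 ∨ l = N))) :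
    ∃ l', l' < M ∧ ¬ (i = 0 ∧ (l' = 0 ∨ l' = N)) ∧
      (∀ r ∈ R, (τ ^ i * g ^ l) * (g ^ N * r * (g ^ N)⁻¹) * (τ ^ i * g ^ l)⁻¹ =
        (τ ^ i * g ^ l') * r * (τ ^ i * g ^ l')⁻¹) ∧
      (∀ r ∈ R, (g ^ N)⁻¹ * ((τ ^ i * g ^ l) * r * (τ ^ i * g ^ l)⁻¹) * g ^ N =
        (τ ^ i * g ^ l') * r * (τ ^ i * g ^ l')⁻¹) := by
  have hc1 : (g ^ N)⁻¹ * τ ^ i = τ ^ i * (g ^ N)⁻¹ := ((hgτ.pow_pow N i).inv_left).eq
  have hk1 : ∀ r ∈ R, g ^ M * r * (g ^ M)⁻¹ = r := fun r hr => by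
    rw [hκ r hr, mul_inv_cancel_right]
  have hk2 : ∀ r ∈ R, (g ^ M)⁻¹ * r * g ^ M = r := fun r hr => by
    rw [mul_assoc, ← hκ r hr, inv_mul_cancel_left]
  by_cases hlN : l < N
  · refine ⟨l + N, by omega, ?_, ?_, ?_⟩
    · rintro ⟨h1, h2⟩
      exact h ⟨h1, by omega⟩
    · intro r _
      rw [pow_add]
      group
    · intro r hr
      have e1 : (g ^ N)⁻¹ * ((τ ^ i * g ^ l) * r * (τ ^ i * g ^ l)⁻¹) * g ^ N =
          ((g ^ N)⁻¹ * τ ^ i) * g ^ l * r * (((g ^ N)⁻¹ * τ ^ i) * g ^ l)⁻¹ := by group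
      have e2 : τ ^ i * (g ^ N)⁻¹ * g ^ l = τ ^ i * g ^ (l + N) * (g ^ M)⁻¹ := by
        rw [hMN, pow_add, pow_add]
        group
      rw [e1, hc1, e2]
      have e3 : τ ^ i * g ^ (l + N) * (g ^ M)⁻¹ * r * (τ ^ i * g ^ (l + N) * (g ^ M)⁻¹)⁻¹ =
          τ ^ i * g ^ (l + N) * ((g ^ M)⁻¹ * r * g ^ M) * (τ ^ i * g ^ (l + N))⁻¹ := by group
      rw [e3, hk2 r hr]
  · obtain ⟨j, rfl⟩ : ∃ j, l = j + N := ⟨l - N, by omega⟩
    refine ⟨j, by omega, ?_, ?_, ?_⟩
    · rintro ⟨h1, h2⟩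
      exact h ⟨h1, by omega⟩
    · intro r hr
      have e1 : τ ^ i * g ^ (j + N) * (g ^ N * r * (g ^ N)⁻¹) * (τ ^ i * g ^ (j + N))⁻¹ =
          τ ^ i * g ^ j * ((g ^ N * g ^ N) * r * (g ^ N * g ^ N)⁻¹) * (τ ^ i * g ^ j)⁻¹ := by
        rw [pow_add]
        group
      rw [e1, ← pow_add, ← hMN, hk1 r hr]
    · intro r _
      have e1 : (g ^ N)⁻¹ * ((τ ^ i * g ^ (j + N)) * r * (τ ^ i * g ^ (j + N))⁻¹) * g ^ N =
          ((g ^ N)⁻¹ * τ ^ i) * g ^ (j + N) * r * (((g ^ N)⁻¹ * τ ^ i) * g ^ (j + N))⁻¹ := by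
        group
      have e2 : τ ^ i * (g ^ N)⁻¹ * g ^ (j + N) = τ ^ i * g ^ j := by
        rw [pow_add]
        group
      rw [e1, hc1, e2]

/-- the inverse exponents -/
private theorem kd2_invexp {X : Type} [Group X] {R : Subgroup X} {g τ : X} {N M K : ℕ}
    (hMN : M = N + N) (hgτ : Commute g τ) (hκ : ∀ r ∈ R, g ^ M * r = r * g ^ M)
    (hτ : ∀ r ∈ R, τ ^ K * r = r * τ ^ K)
    (hgR : ∀ r ∈ R, g * r * g⁻¹ ∈ R) (hτR : ∀ r ∈ R, τ * r * τ⁻¹ ∈ R)
    {i l : ℕ} (hi : i < K) (hl : l < M) (h : ¬ (i = 0 ∧ (l = 0 ∨ l = N))) :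
    ∃ i' l', i' < K ∧ l' < M ∧ ¬ (i' = 0 ∧ (l' = 0 ∨ l' = N)) ∧
      ∀ r ∈ R, (τ ^ i * g ^ l)⁻¹ * r * (τ ^ i * g ^ l) =
        (τ ^ i' * g ^ l') * r * (τ ^ i' * g ^ l')⁻¹ := by
  have hM1 : ∀ r ∈ R, g ^ M * r * (g ^ M)⁻¹ = r := fun r hr => by
    rw [hκ r hr, mul_inv_cancel_right]
  have hK1 : ∀ r ∈ R, τ ^ K * r * (τ ^ K)⁻¹ = r := fun r hr => by
    rw [hτ r hr, mul_inv_cancel_right]
  -- an exponent `l'` with `g ^ l' * g ^ l` acting trivially
  have hl' : ∃ l', l' < M ∧ (l' = 0 ↔ l = 0) ∧ (l' = N ↔ l = N) ∧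
      ∀ r ∈ R, (g ^ l)⁻¹ * r * g ^ l = g ^ l' * r * (g ^ l')⁻¹ := by
    by_cases h0 : l = 0
    · refine ⟨0, by omega, by omega, by omega, ?_⟩
      intro r _
      rw [h0]
      group
    · refine ⟨M - l, by omega, by omega, by omega, ?_⟩
      intro r hr
      have hb : (g ^ l)⁻¹ * r * g ^ l ∈ R := by
        have h1 := kd2_pow hgR (M - l) r hr
        have h2 : (g ^ l)⁻¹ * r * g ^ l = g ^ (M - l) * r * (g ^ (M - l))⁻¹ := by
          have h3 : g ^ M = g ^ (M - l) * g ^ l := by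
            rw [← pow_add]
            congr 1
            omega
          have h4 := hM1 _ hr
          have h5 : (g ^ l)⁻¹ * r * g ^ l =
              (g ^ l)⁻¹ * (g ^ M * r * (g ^ M)⁻¹) * g ^ l := by rw [h4]
          have h6 : g ^ M = g ^ l * g ^ (M - l) := by
            rw [← pow_add]
            congr 1
            omega
          rw [h5, h6]
          group
        rw [h2]
        exact h1
      have h4 := hM1 _ hb
      have h6 : g ^ M = g ^ (M - l) * g ^ l := by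
        rw [← pow_add]
        congr 1
        omega
      rw [h6] at h4
      rw [← h4]
      group
  have hi' : ∃ i', i' < K ∧ (i' = 0 ↔ i = 0) ∧
      ∀ r ∈ R, (τ ^ i)⁻¹ * r * τ ^ i = τ ^ i' * r * (τ ^ i')⁻¹ := by
    by_cases h0 : i = 0
    · refine ⟨0, by omega, by omega, ?_⟩
      intro r _
      rw [h0]
      group
    · refine ⟨K - i, by omega, by omega, ?_⟩
      intro r hr
      have h4 := hK1 _ hr
      have h5 : (τ ^ i)⁻¹ * r * τ ^ i = (τ ^ i)⁻¹ * (τ ^ K * r * (τ ^ K)⁻¹) * τ ^ i := by rw [h4]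
      have h6 : τ ^ K = τ ^ i * τ ^ (K - i) := by
        rw [← pow_add]
        congr 1
        omega
      rw [h5, h6]
      group
  obtain ⟨l', hl'M, hl0, hlN, hlr⟩ := hl'
  obtain ⟨i', hi'K, hi0, hir⟩ := hi'
  refine ⟨i', l', hi'K, hl'M, ?_, ?_⟩
  · rintro ⟨h1, h2⟩
    refine h ⟨hi0.1 h1, ?_⟩
    rcases h2 with h2 | h2
    · exact Or.inl (hl0.1 h2)
    · exact Or.inr (hlN.1 h2)
  · intro r hr
    have hc : τ ^ i * g ^ l = g ^ l * τ ^ i := ((hgτ.pow_pow l i).eq).symm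
    have e1 : (τ ^ i * g ^ l)⁻¹ * r * (τ ^ i * g ^ l) =
        (τ ^ i)⁻¹ * ((g ^ l)⁻¹ * r * g ^ l) * τ ^ i := by
      rw [hc]
      group
    rw [e1, hlr r hr, hir _ (kd2_pow hgR l' r hr)]
    group

variable {m a : ℕ}

/-- **Conjugates outside of the block `(0, 0)`.** `YBk` gives this for the elements `e`.

Proof. Let `h = τ ^ i * g ^ l`, `M = 2 ^ (a - 1)`, `y = g ^ (M / 2)`, `E = closure {e, e'}`. Let
`h' = τ ^ i * g ^ l'` with `l' = l + M / 2` or `l + M / 2 - M` (`< M`); then `h' * e * h'⁻¹ = h * e' * h⁻¹`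
(`B.κR`), and `(i, l')` satisfies the same condition. So `h * e * h⁻¹` and `h * e' * h⁻¹` commute with `e`
(`B.com`) and centralize the generators of `y0 Q c` (`B.bl`), so they centralize `y0 Q c`. They commute
with `e'`: conjugate by `y`: `y⁻¹ * h`, again with `B.κR` has exponents in the allowed range
(`l - M / 2` modulo `M`), and `y⁻¹ * (h * e * h⁻¹) * y` commutes with `e = y⁻¹ * e' * y`. Since
conjugation by `h` maps `E` to `closure {h * e * h⁻¹, h * e' * h⁻¹}`: first and third statement of `YOut`.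
The second statement: `(h * x * h⁻¹) * r = r * (h * x * h⁻¹)` for `r ∈ E`, `x ∈ y0 Q c` is the first
statement for `h⁻¹` instead of `h`; `h⁻¹ = (g ^ l)⁻¹ * (τ ^ i)⁻¹`, and by `B.κR, B.κQ, B.τR, B.τQ` (and
`B.hgτ`) conjugation by `h⁻¹` on `Q` and `R` agrees with conjugation by `τ ^ i' * g ^ l'`,
`i' = (3 ^ k - i) % 3 ^ k`, `l' = (M - l) % M`, which satisfies the same condition (for `l' = M / 2` iff
`l = M / 2`). Last statement: let `d = h * c * h⁻¹`, it centralizes `y0 Q c` (`c ∈ E`). For `x ∈ y0 Q c`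
(so `x ∈ Q`) and `u ∈ Q`: the commutator of `x` and `u` is a product of squares of elements of `Q`
(`x * u * x⁻¹ * u⁻¹ = (x * u) ^ 2 * (x ^ 2)⁻¹ * (u ^ 2)⁻¹`), so it commutes with `d ∈ R` (`B.sqR`) and it
is central in `Q`; so the commutators of `x` with `u` and with `d * u * d⁻¹` are equal (`d` commutes with
`x`), and `x` commutes with `u⁻¹ * (d * u * d⁻¹)`. For `u = h * v * h⁻¹`, `v ∈ Q`, this is
`h * (v⁻¹ * (c * v * c⁻¹)) * h⁻¹`, the conjugate of a generator of `y0 Q c`. Finally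
`closure_induction`. -/
theorem yk_out (ha : 3 ≤ a) {X : Type} [Group X] {k : ℕ} {Q R : Subgroup X} {g τ e e' c : X}
    (B : YBk m a k Q R g τ e e' c) {i l : ℕ} (hi : i < 3 ^ k) (hl : l < 2 ^ (a - 1))
    (h : ¬ (i = 0 ∧ (l = 0 ∨ l = 2 ^ (a - 2)))) :
    YOut (y0 Q c) (closure {e, e'}) (τ ^ i * g ^ l) := by
  have hMN : 2 ^ (a - 1) = 2 ^ (a - 2) + 2 ^ (a - 2) := by
    have h1 : a - 1 = (a - 2) + 1 := by omega
    rw [h1, pow_succ]
    ring
  have hN : 0 < 2 ^ (a - 2) := pow_pos (by norm_num) _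
  have hgτ : Commute g τ := B.hgτ
  have he'R : e' ∈ R := by
    rw [B.he']
    exact kd2_pow B.hgR _ _ B.he
  have hcR : c ∈ R := by
    rw [B.hc]
    exact R.mul_mem (R.mul_mem (R.mul_mem B.he he'R) (R.inv_mem B.he)) (R.inv_mem he'R)
  have heE : e ∈ closure ({e, e'} : Set X) := subset_closure (by simp)
  have he'E : e' ∈ closure ({e, e'} : Set X) := subset_closure (by simp)
  have hcE : c ∈ closure ({e, e'} : Set X) := by
    rw [B.hc]
    exact mul_mem (mul_mem (mul_mem heE he'E) (inv_mem heE)) (inv_mem he'E)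
  have hER : closure ({e, e'} : Set X) ≤ R := by
    rw [closure_le]
    rintro r (rfl | rfl)
    · exact B.he
    · exact he'R
  have hcQ : ∀ x ∈ Q, c * x * c⁻¹ ∈ Q := B.hRQ c hcR
  have hQ0 : y0 Q c ≤ Q := by
    unfold y0
    rw [closure_le]
    rintro _ ⟨x, hx, rfl⟩
    exact Q.mul_mem (Q.inv_mem hx) (hcQ x hx)
  -- first statement, for all allowed exponents
  have key1 : ∀ i l, i < 3 ^ k → l < 2 ^ (a - 1) → ¬ (i = 0 ∧ (l = 0 ∨ l = 2 ^ (a - 2))) →
      ∀ r ∈ closure ({e, e'} : Set X), ∀ x ∈ y0 Q c,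
        Commute ((τ ^ i * g ^ l) * r * (τ ^ i * g ^ l)⁻¹) x := by
    intro i l hi hl h r hr x hx
    obtain ⟨l', hl', h', hs1, hs2⟩ := kd2_shift hMN hN hgτ B.κR hl h
    rw [kd2_conj]
    refine kd2_cl ?_ r hr
    rintro s (rfl | rfl)
    · rw [← kd2_conj]
      refine kd2_cl ?_ x hx
      rintro _ ⟨v, hv, rfl⟩
      exact B.bl i l hi hl h v hv
    · rw [← kd2_conj]
      refine kd2_cl ?_ x hx
      rintro _ ⟨v, hv, rfl⟩
      rw [B.he', hs1 e B.he]
      exact B.bl i l' hi hl' h' v hv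
  have key3 : ∀ r ∈ closure ({e, e'} : Set X), ∀ s ∈ closure ({e, e'} : Set X),
        Commute ((τ ^ i * g ^ l) * r * (τ ^ i * g ^ l)⁻¹) s := by
    obtain ⟨l', hl', h', hs1, hs2⟩ := kd2_shift hMN hN hgτ B.κR hl h
    have c1 : Commute ((τ ^ i * g ^ l) * e * (τ ^ i * g ^ l)⁻¹) e :=
      (show Commute e ((τ ^ i * g ^ l) * e * (τ ^ i * g ^ l)⁻¹) from B.com i l hi hl h).symm
    have c1' : Commute ((τ ^ i * g ^ l') * e * (τ ^ i * g ^ l')⁻¹) e :=
      (show Commute e ((τ ^ i * g ^ l') * e * (τ ^ i * g ^ l')⁻¹) from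
        B.com i l' hi hl' h').symm
    have c2 : Commute ((τ ^ i * g ^ l) * e' * (τ ^ i * g ^ l)⁻¹) e := by
      rw [B.he', hs1 e B.he]
      exact c1'
    have c3 : Commute ((τ ^ i * g ^ l) * e * (τ ^ i * g ^ l)⁻¹) e' := by
      rw [B.he']
      refine Commute.symm ?_
      rw [kd2_conj, hs2 e B.he]
      exact c1'
    have c4 : Commute ((τ ^ i * g ^ l) * e' * (τ ^ i * g ^ l)⁻¹) e' := by
      rw [B.he']
      have e1 : (τ ^ i * g ^ l) * (g ^ 2 ^ (a - 2) * e * (g ^ 2 ^ (a - 2))⁻¹) *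
          (τ ^ i * g ^ l)⁻¹ = g ^ 2 ^ (a - 2) * ((τ ^ i * g ^ l) * e * (τ ^ i * g ^ l)⁻¹) *
            (g ^ 2 ^ (a - 2))⁻¹ := by
        have hc : (τ ^ i * g ^ l) * g ^ 2 ^ (a - 2) = g ^ 2 ^ (a - 2) * (τ ^ i * g ^ l) := by
          have h1 : Commute (τ ^ i * g ^ l) (g ^ 2 ^ (a - 2)) :=
            Commute.mul_left ((hgτ.pow_pow _ _).symm) ((Commute.refl g).pow_pow _ _)
          exact h1.eq
        have e2 : (τ ^ i * g ^ l) * (g ^ 2 ^ (a - 2) * e * (g ^ 2 ^ (a - 2))⁻¹) *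
            (τ ^ i * g ^ l)⁻¹ = ((τ ^ i * g ^ l) * g ^ 2 ^ (a - 2)) * e *
              ((τ ^ i * g ^ l) * g ^ 2 ^ (a - 2))⁻¹ := by
          rw [mul_inv_rev (τ ^ i * g ^ l) (g ^ 2 ^ (a - 2))]
          simp only [mul_assoc]
        rw [e2, hc, mul_inv_rev (g ^ 2 ^ (a - 2)) (τ ^ i * g ^ l)]
        simp only [mul_assoc]
      rw [e1, kd2_conj]
      have e3 : (g ^ 2 ^ (a - 2))⁻¹ * (g ^ 2 ^ (a - 2) * e * (g ^ 2 ^ (a - 2))⁻¹) *
          g ^ 2 ^ (a - 2) = e := by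
        simp only [mul_assoc, inv_mul_cancel_left, inv_mul_cancel, mul_one]
      rw [e3]
      exact c1.symm
    intro r hr s hs
    rw [kd2_conj]
    refine kd2_cl ?_ r hr
    rintro t (rfl | rfl)
    · rw [← kd2_conj]
      refine kd2_cl ?_ s hs
      rintro u (rfl | rfl)
      · exact c1
      · exact c3
    · rw [← kd2_conj]
      refine kd2_cl ?_ s hs
      rintro u (rfl | rfl)
      · exact c2
      · exact c4
  have hZ := yk_Z B.sqQ B.sqR B.sq4
  obtain ⟨-, hZc, -, hZR, -, hcm⟩ := hZ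
  refine ⟨?_, ?_, ?_, ?_⟩
  · intro r hr x hx
    exact key1 i l hi hl h r hr x hx
  · intro r hr x hx
    obtain ⟨i', l', hi', hl', h', hinv⟩ := kd2_invexp hMN hgτ B.κR B.τR B.hgR B.hτR hi hl h
    have h1 := key1 i' l' hi' hl' h' r hr x hx
    rw [← hinv r (hER hr)] at h1
    have h2 : Commute ((τ ^ i * g ^ l) * x * (τ ^ i * g ^ l)⁻¹) r := by
      rw [kd2_conj]
      exact h1
    exact h2
  · intro r hr s hs
    exact key3 r hr s hs
  · intro x hx x' hx'
    have hd : Commute ((τ ^ i * g ^ l) * c * (τ ^ i * g ^ l)⁻¹) x := key1 i l hi hl h c hcE x hx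
    have hdR : (τ ^ i * g ^ l) * c * (τ ^ i * g ^ l)⁻¹ ∈ R := kd2_mem B.hgR B.hτR i l c hcR
    have hxQ := hQ0 hx
    have h1 : Commute ((τ ^ i * g ^ l) * x' * (τ ^ i * g ^ l)⁻¹) x := by
      rw [kd2_conj]
      refine kd2_cl ?_ x' hx'
      rintro _ ⟨v, hv, rfl⟩
      rw [← kd2_conj]
      have huQ : (τ ^ i * g ^ l) * v * (τ ^ i * g ^ l)⁻¹ ∈ Q := kd2_mem B.hgQ B.hτQ i l v hv
      have e1 : (τ ^ i * g ^ l) * (v⁻¹ * (c * v * c⁻¹)) * (τ ^ i * g ^ l)⁻¹ =
          ((τ ^ i * g ^ l) * v * (τ ^ i * g ^ l)⁻¹)⁻¹ *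
            (((τ ^ i * g ^ l) * c * (τ ^ i * g ^ l)⁻¹) *
              ((τ ^ i * g ^ l) * v * (τ ^ i * g ^ l)⁻¹) *
              ((τ ^ i * g ^ l) * c * (τ ^ i * g ^ l)⁻¹)⁻¹) := by group
      rw [e1]
      revert hd hdR huQ
      generalize (τ ^ i * g ^ l) * c * (τ ^ i * g ^ l)⁻¹ = d
      generalize (τ ^ i * g ^ l) * v * (τ ^ i * g ^ l)⁻¹ = u
      intro hd hdR huQ
      have h2 := hZR _ (hcm x hxQ u huQ) d hdR
      -- the commutator is fixed by `d`
      have h3 : d * (x * u * x⁻¹ * u⁻¹) * d⁻¹ = x * u * x⁻¹ * u⁻¹ := by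
        rw [← h2, mul_inv_cancel_right]
      have h4 : d * x * d⁻¹ = x := by
        rw [hd.eq, mul_inv_cancel_right]
      have h5 : d * (x * u * x⁻¹ * u⁻¹) * d⁻¹ =
          (d * x * d⁻¹) * (d * u * d⁻¹) * (d * x * d⁻¹)⁻¹ * (d * u * d⁻¹)⁻¹ := by group
      rw [h4, h3] at h5
      -- `x u x⁻¹ u⁻¹ = x w x⁻¹ w⁻¹` with `w = d u d⁻¹`
      generalize d * u * d⁻¹ = w at h5 ⊢
      have h6 : u * x⁻¹ * u⁻¹ = w * x⁻¹ * w⁻¹ := by
        have h7 : x * (u * x⁻¹ * u⁻¹) = x * (w * x⁻¹ * w⁻¹) := by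
          simp only [← mul_assoc]
          exact h5
        exact mul_left_cancel h7
      have h8 : Commute (u⁻¹ * w) x⁻¹ := by
        change u⁻¹ * w * x⁻¹ = x⁻¹ * (u⁻¹ * w)
        have h9 : u⁻¹ * w * x⁻¹ = u⁻¹ * (w * x⁻¹ * w⁻¹) * w := by group
        rw [h9, ← h6]
        group
      exact (Commute.inv_right_iff.1 h8)
    exact h1

end Pool.Agent.Lib.MP_544bd1_al
end

section

/-!
Theorem Z (paper 287), 4.4: from `X` to the normalizer of `Q` and back.
-/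

namespace Pool.Agent.Lib.MP_544bd1_al

open Subgroup

variable {X : Type} [Group X]

private theorem mx2_cl (F : Subgroup X) (S' : Set F) (S : Set X) (hS : F.subtype '' S' = S) (x : F) :
    x ∈ closure S' ↔ (x : X) ∈ closure S := by
  rw [← hS, ← MonoidHom.map_closure]
  constructor
  · intro hx
    exact ⟨x, hx, rfl⟩
  · rintro ⟨y, hy, hyx⟩
    have : y = x := Subtype.ext hyx
    rw [← this]
    exact hy

private theorem mx2_yE (F : Subgroup X) (g τ e : F) (i l : ℕ) :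
    ((yE g τ e i l : F) : X) = yE (g : X) (τ : X) (e : X) i l := by
  simp [yE]

private theorem mx2_set (F : Subgroup X) (g τ e : F) (i : ℕ) :
    F.subtype '' {x | ∃ l, x = yE g τ e i l} = {x | ∃ l, x = yE (g : X) (τ : X) (e : X) i l} := by
  ext x
  constructor
  · rintro ⟨y, ⟨l, rfl⟩, rfl⟩
    exact ⟨l, mx2_yE F g τ e i l⟩
  · rintro ⟨l, rfl⟩
    exact ⟨yE g τ e i l, ⟨l, rfl⟩, mx2_yE F g τ e i l⟩

/-- **Restriction to a subgroup `F`** containing everything.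

Proof. `γ' i = ⟨γ i, hγ i h⟩` for `h : i < 3 ^ k`, and `1` otherwise. Each field is obtained from the same
field of `D`: `yE` in `F` is mapped to `yE` in `X` (`simp [yE]`); for `core.min` let `Q'` be a subgroup of `F`,
apply `D.core.min` to `Q'.map F.subtype` (it is `≠ Q`, since `Q' ≠ Q.subgroupOf F` and `Q ≤ F`; it is
invariant under `R`, `S`). For `gen`: `x ∈ R.subgroupOf F` is in `(closure {yE ..}).map F.subtype =
closure {yE ..}` (`MonoidHom.map_closure`), and `F.subtype` is injective; the same for `γB`, `γc`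
(`Subgroup.mem_map`). `hR3`: `(R.subgroupOf F ⊔ zpowers τ)` maps injectively into `R ⊔ zpowers τ`
(`IsPGroup.of_injective` or elementwise: `x ^ (3 ^ n) = 1`). -/
theorem ym_sub {m a k : ℕ} {Q R : Subgroup X} {g τ e e' c : X} {γ : ℕ → X}
    (D : YM m a k Q R g τ e e' c γ) (F : Subgroup X) (hQ : Q ≤ F) (hR : R ≤ F) (hg : g ∈ F)
    (hτ : τ ∈ F) (hγ : ∀ i < 3 ^ k, γ i ∈ F) (he' : e' ∈ F) (hc : c ∈ F) :
    ∃ γ' : ℕ → F, YM m a k (Q.subgroupOf F) (R.subgroupOf F) (⟨g, hg⟩ : F) ⟨τ, hτ⟩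
      ⟨e, hR D.he⟩ ⟨e', he'⟩ ⟨c, hc⟩ γ' := by
  classical
  obtain ⟨γ', hγ'⟩ : ∃ γ' : ℕ → F, ∀ i < 3 ^ k, ((γ' i : F) : X) = γ i := by
    refine ⟨fun i => if h : i < 3 ^ k then ⟨γ i, hγ i h⟩ else 1, fun i hi => ?_⟩
    simp only [dif_pos hi]
  refine ⟨γ', ?_⟩
  have hyE : ∀ i l, ((yE (⟨g, hg⟩ : F) ⟨τ, hτ⟩ ⟨e, hR D.he⟩ i l : F) : X) = yE g τ e i l :=
    fun i l => mx2_yE F _ _ _ i l
  have hcl : ∀ (i : ℕ) (x : F),
      x ∈ closure {x | ∃ l, x = yE (⟨g, hg⟩ : F) ⟨τ, hτ⟩ ⟨e, hR D.he⟩ i l} ↔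
        (x : X) ∈ closure {x | ∃ l, x = yE g τ e i l} :=
    fun i x => mx2_cl F _ _ (mx2_set F ⟨g, hg⟩ ⟨τ, hτ⟩ ⟨e, hR D.he⟩ i) x
  have hR3' : ∀ x : (R ⊔ zpowers τ : Subgroup X), ∃ n, x ^ 3 ^ n = 1 := D.hR3
  refine
    { core := ?_
      hR3 := ?_
      hg := ?_
      hgτ := ?_
      κR := ?_
      τR := ?_
      τQ := ?_
      he := ?_
      he3 := ?_
      he' := ?_
      hc := ?_
      cl := ?_
      com := ?_
      gen := ?_
      hγ := ?_
      γE := ?_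
      γB := ?_
      γc := ?_
      γ0 := ?_ }
  · -- core
    refine
      { hQ := ?_
        hR := ?_
        hxR := ?_
        ne := ?_
        min := ?_ }
    · intro q hq
      exact Subtype.ext (by simpa using D.core.hQ (q : X) hq)
    · intro x
      obtain ⟨n, hn⟩ := D.core.hR ⟨((x : F) : X), x.2⟩
      refine ⟨n, ?_⟩
      apply Subtype.ext
      apply Subtype.ext
      simpa using congrArg Subtype.val hn
    · rintro x hx r hr
      have hxX : (x : X) ∈ {x | x = g ∨ x = τ ∨ ∃ i, i < 3 ^ k ∧ x = γ i} := by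
        rcases hx with rfl | rfl | ⟨i, hi, rfl⟩
        · exact Or.inl rfl
        · exact Or.inr (Or.inl rfl)
        · exact Or.inr (Or.inr ⟨i, hi, hγ' i hi⟩)
      exact D.core.hxR (x : X) hxX (r : X) hr
    · obtain ⟨r, hr, q, hq, hne⟩ := D.core.ne
      refine ⟨⟨r, hR hr⟩, hr, ⟨q, hQ hq⟩, hq, fun h => hne ?_⟩
      exact congrArg Subtype.val h
    · intro Q' hQ' hne hRQ' hSQ' r hr q hq
      have key : ∀ g ∈ R, ∀ q ∈ Q'.map F.subtype, g * q = q * g := by
        refine D.core.min _ ?_ ?_ ?_ ?_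
        · rintro _ ⟨q, hq, rfl⟩
          exact hQ' hq
        · intro heq
          apply hne
          ext x
          constructor
          · intro hx
            exact hQ' hx
          · intro hx
            have hx' : (x : X) ∈ Q := hx
            rw [← heq] at hx'
            obtain ⟨y, hy, hyx⟩ := hx'
            have : y = x := Subtype.ext hyx
            rw [← this]
            exact hy
        · rintro r hr _ ⟨q, hq, rfl⟩
          exact ⟨_, hRQ' ⟨r, hR hr⟩ hr q hq, rfl⟩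
        · rintro x hx _ ⟨q, hq, rfl⟩
          rcases hx with rfl | rfl | ⟨i, hi, rfl⟩
          · exact ⟨_, hSQ' ⟨x, hg⟩ (Or.inl rfl) q hq, rfl⟩
          · exact ⟨_, hSQ' ⟨x, hτ⟩ (Or.inr (Or.inl rfl)) q hq, rfl⟩
          · refine ⟨_, hSQ' (γ' i) (Or.inr (Or.inr ⟨i, hi, rfl⟩)) q hq, ?_⟩
            show ((γ' i : F) : X) * (q : X) * ((γ' i : F) : X)⁻¹ = γ i * (q : X) * (γ i)⁻¹
            rw [hγ' i hi]
      exact Subtype.ext (key (r : X) hr (q : X) ⟨q, hq, rfl⟩)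
  · -- hR3
    intro x
    have hx : (((x : F)) : X) ∈ (R ⊔ zpowers τ : Subgroup X) := by
      have h1 : (R.subgroupOf F ⊔ zpowers (⟨τ, hτ⟩ : F)) ≤ (R ⊔ zpowers τ).subgroupOf F := by
        refine sup_le ?_ ?_
        · intro y hy
          exact (le_sup_left : R ≤ R ⊔ zpowers τ) hy
        · rw [zpowers_le]
          exact (le_sup_right : zpowers τ ≤ R ⊔ zpowers τ) (mem_zpowers τ)
      exact h1 x.2
    obtain ⟨n, hn⟩ := hR3' ⟨((x : F) : X), hx⟩
    refine ⟨n, ?_⟩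
    apply Subtype.ext
    apply Subtype.ext
    simpa using congrArg Subtype.val hn
  · exact Subtype.ext (by simpa using D.hg)
  · exact Subtype.ext (by simpa using D.hgτ)
  · intro r hr
    exact Subtype.ext (by simpa using D.κR (r : X) hr)
  · intro r hr
    exact Subtype.ext (by simpa using D.τR (r : X) hr)
  · intro r hr
    exact Subtype.ext (by simpa using D.τQ (r : X) hr)
  · exact D.he
  · exact Subtype.ext (by simpa using D.he3)
  · exact Subtype.ext (by simpa using D.he')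
  · exact Subtype.ext (by simpa using D.hc)
  · intro x hx y hy w hw
    exact Subtype.ext (by simpa using D.cl (x : X) hx (y : X) hy (w : X) hw)
  · intro i l hi hl hil
    apply Subtype.ext
    have h1 := D.com i l hi hl hil
    show e * ((yE (⟨g, hg⟩ : F) ⟨τ, hτ⟩ ⟨e, hR D.he⟩ i l : F) : X) =
      ((yE (⟨g, hg⟩ : F) ⟨τ, hτ⟩ ⟨e, hR D.he⟩ i l : F) : X) * e
    rw [hyE]
    exact h1
  · intro x hx
    rw [mx2_cl F {x | ∃ i l, i < 3 ^ k ∧ x = yE (⟨g, hg⟩ : F) ⟨τ, hτ⟩ ⟨e, hR D.he⟩ i l}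
      {x | ∃ i l, i < 3 ^ k ∧ x = yE g τ e i l} ?_ x]
    · exact D.gen hx
    · ext x
      constructor
      · rintro ⟨y, ⟨i, l, hi, rfl⟩, rfl⟩
        exact ⟨i, l, hi, hyE i l⟩
      · rintro ⟨i, l, hi, rfl⟩
        exact ⟨_, ⟨i, l, hi, rfl⟩, hyE i l⟩
  · intro i hi
    apply Subtype.ext
    have h1 := D.hγ i hi
    rw [← hγ' i hi] at h1
    simpa using h1
  · intro i hi l
    apply Subtype.ext
    have h1 := D.γE i hi l
    rw [← hγ' i hi, ← hyE] at h1
    simpa using h1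
  · intro i hi l
    rw [hcl]
    have h1 := D.γB i hi l
    rw [← hγ' i hi, ← hyE] at h1
    exact h1
  · intro i hi x hx y hy
    rw [hcl] at hx hy
    apply Subtype.ext
    have h1 := D.γc i hi (x : X) hx (y : X) hy
    rw [← hγ' i hi] at h1
    simpa using h1
  · intro i hi0 hi
    apply Subtype.ext
    have h1 := D.γ0 i hi0 hi
    rw [← hγ' i hi] at h1
    simpa using h1

end Pool.Agent.Lib.MP_544bd1_al
end
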