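import Mathlib
import Pool.Agent.Lib.MP_544bd1_al.ZtDefs3
import Pool.Agent.Lib.MP_544bd1_al.ZtNorm
import Pool.Agent.Lib.MP_544bd1_al.ZsC4
import Pool.Agent.Lib.MP_544bd1_al.ZsC0
import Pool.Agent.Lib.MP_544bd1_al.ZsEb

section

/-!
Theorem Z (paper 287), 4.5-4.8: the element x, first part.
-/

namespace Pool.Agent.Lib.MP_544bd1_al

open Subgroup

variable {a k : ℕ} {X : Type} [Group X] [Finite X] {Q Q₀ Z R E : Subgroup X} {g τ y c μ σ : X}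

/-- the values in the quotient of `Q` by `Z` -/
private theorem zkn_val {X : Type} [Group X] {Q Z : Subgroup X}
    (hZc : ∀ z ∈ Z, ∀ x ∈ Q, z * x = x * z)
    (hcm : ∀ x ∈ Q, ∀ x' ∈ Q, x * x' * x⁻¹ * x'⁻¹ ∈ Z) :
    ∃ (V : Type) (_ : AddCommGroup V) (v : X → V),
      (∀ x ∈ Q, ∀ y ∈ Q, v (x * y) = v x + v y) ∧ (∀ x ∈ Q, v x = 0 ↔ x ∈ Z) := by
  classical
  let Z' : Subgroup Q := Z.subgroupOf Q
  have hn : Z'.Normal := ⟨fun n hn g => by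
    have h1 : (g : X) * n * (g : X)⁻¹ = n := by
      rw [← hZc n hn g g.2, mul_inv_cancel_right]
    show ((g * n * g⁻¹ : Q) : X) ∈ Z
    have h2 : ((g * n * g⁻¹ : Q) : X) = n := h1
    rw [h2]
    exact hn⟩
  let I : CommGroup (Q ⧸ Z') := { (inferInstance : Group (Q ⧸ Z')) with
    mul_comm := by
      intro x y
      induction x using QuotientGroup.induction_on with
      | H x =>
        induction y using QuotientGroup.induction_on with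
        | H y =>
          show ((x * y : Q) : Q ⧸ Z') = ((y * x : Q) : Q ⧸ Z')
          rw [QuotientGroup.eq]
          have h1 := hcm (y : X)⁻¹ (Q.inv_mem y.2) (x : X)⁻¹ (Q.inv_mem x.2)
          show ((x * y : X))⁻¹ * (y * x) ∈ Z
          have h2 : ((x : X) * y)⁻¹ * (y * x) = (y : X)⁻¹ * (x : X)⁻¹ * ((y : X)⁻¹)⁻¹ * ((x : X)⁻¹)⁻¹ := by
            group
          rw [h2]
          exact h1 }
  refine ⟨Additive (Q ⧸ Z'), inferInstance,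
    fun x => if h : x ∈ Q then Additive.ofMul ((⟨x, h⟩ : Q) : Q ⧸ Z') else 0, ?_, ?_⟩
  · intro x hx y hy
    beta_reduce
    rw [dif_pos hx, dif_pos hy, dif_pos (Q.mul_mem hx hy)]
    rfl
  · intro x hx
    beta_reduce
    rw [dif_pos hx]
    have h1 : ((⟨x, hx⟩ : Q) : Q ⧸ Z') = 1 ↔ (⟨x, hx⟩ : Q) ∈ Z' := QuotientGroup.eq_one_iff _
    exact h1

/-- **The element `x`, first part (4.5).**

Proof. For `r ∈ E` with `r ^ 3 = 1` and `x ∈ Q₀` let `N_r x = x * (r * x * r⁻¹) * (r ^ 2 * x * (r ^ 2)⁻¹)`,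
an element of `Q₀` (`Y.RQ₀`); `r * N_r x * r⁻¹` is a cyclic rearrangement, so it is `N_r x` modulo `Z`
(`Y.cm`), and `r` commutes with `N_r x` (`Y.ex`). Take `x₀ ∈ Q₀`, `x₀ ∉ Z` (`Y.ne`). For
`s = 0, 1, 2` let `r_s = μ * c ^ s` (`r_s ^ 3 = 1`). Modulo `Z` (where `Q` is commutative and squares are
trivial) the product of the three elements `N_{r_s} x₀` is `x₀ ^ 3` times
`μ * (v₀) * μ⁻¹` times `μ ^ 2 * (v₁) * μ⁻²` with `v₀ = x₀ * (c * x₀ * c⁻¹) * (c ^ 2 * x₀ * (c ^ 2)⁻¹)` and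
`v₁` the product of the same three factors in another order; `v₀, v₁ ∈ Z` (`Y.nrm`, `Y.cm`). So this
product is `x₀ ^ 3 = x₀` modulo `Z`, not in `Z`: for some `s` the element `x₁ = N_{r_s} x₀` is not in
`Z`, and commutes with `μ * c ^ s`. As `σ * μ * σ⁻¹ = c * μ` (`Y.σμ`), `x₂ = σ ^ j * x₁ * (σ ^ j)⁻¹` with
`j = 3 - s` commutes with `σ ^ j * (μ * c ^ s) * (σ ^ j)⁻¹ = c ^ (j + s) * μ = μ`; `x₂ ∈ Q₀`, `x₂ ∉ Z`
(`σ` commutes with `Z`). Let `t = x₂ * (y * x₂ * y⁻¹) ∈ Q₀`. If `t ∈ Z` then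
`y * x₂ * y⁻¹ * x₂⁻¹ ∈ Z` (as `x₂ ^ 2 ∈ Z`): take `x₂`. If `t ∉ Z` take `t`: `μ` commutes with
`y * x₂ * y⁻¹` (`Y.yμ`), and `y * t * y⁻¹ = (y * x₂ * y⁻¹) * x₂` (`y ^ 2 = g ^ (2 ^ (a - 1))` centralizes
`Q`: `Y.hy`, `Y.κ`), equal to `t` modulo `Z`. -/
theorem yk_x1 (ha : 3 ≤ a) (Y : YX a k Q Q₀ Z R E g τ y c μ σ) :
    ∃ x ∈ Q₀, x ∉ Z ∧ μ * x = x * μ ∧ y * x * y⁻¹ * x⁻¹ ∈ Z := by
  obtain ⟨V, iV, v, hv, hvZ⟩ := zkn_val Y.Zc Y.cm
  have hv1 : v 1 = 0 := (hvZ 1 Q.one_mem).2 Z.one_mem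
  have hvi : ∀ x ∈ Q, v x⁻¹ = - v x := by
    intro x hx
    have h1 := hv x hx x⁻¹ (Q.inv_mem hx)
    rw [mul_inv_cancel, hv1] at h1
    exact (neg_eq_of_add_eq_zero_right h1.symm).symm
  have hv2 : ∀ x ∈ Q, v x + v x = 0 := by
    intro x hx
    rw [← hv x hx x hx, ← pow_two]
    exact (hvZ _ (Q.pow_mem hx 2)).2 (Y.sq x hx)
  have hRc : ∀ r ∈ R, ∀ x ∈ Q, v x = 0 → v (r * x * r⁻¹) = 0 := by
    intro r hr x hx h0
    have h1 := (hvZ x hx).1 h0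
    have h2 : r * x * r⁻¹ = x := by rw [← Y.ZR x h1 r hr, mul_inv_cancel_right]
    rw [h2]
    exact h0
  have hcR := Y.ER Y.cE
  have hμR := Y.ER Y.μE
  have hσR := Y.ER Y.σE
  -- a fixed element
  have key : ∃ s, s < 3 ∧ ∃ x ∈ Q₀, x ∉ Z ∧ (μ * c ^ s) * x = x * (μ * c ^ s) := by
    obtain ⟨x₀, hx0, hx0Z⟩ := Y.ne
    have hxQ := Y.QQ hx0
    have hm : ∀ r ∈ R, ∀ x ∈ Q₀,
        x * (r * x * r⁻¹) * (r ^ 2 * x * (r ^ 2)⁻¹) ∈ Q₀ := fun r hr x hx =>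
      Q₀.mul_mem (Q₀.mul_mem hx (Y.RQ₀ r hr x hx)) (Y.RQ₀ _ (R.pow_mem hr 2) x hx)
    have hval : ∀ r ∈ R, ∀ x ∈ Q₀, v (x * (r * x * r⁻¹) * (r ^ 2 * x * (r ^ 2)⁻¹)) =
        v x + v (r * x * r⁻¹) + v (r ^ 2 * x * (r ^ 2)⁻¹) := by
      intro r hr x hx
      rw [hv _ (Y.QQ (Q₀.mul_mem hx (Y.RQ₀ r hr x hx))) _
        (Y.QQ (Y.RQ₀ _ (R.pow_mem hr 2) x hx)), hv _ (Y.QQ hx) _ (Y.QQ (Y.RQ₀ r hr x hx))]
    have hfix : ∀ r ∈ R, r ^ 3 = 1 → ∀ x ∈ Q₀,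
        r * (x * (r * x * r⁻¹) * (r ^ 2 * x * (r ^ 2)⁻¹)) =
          (x * (r * x * r⁻¹) * (r ^ 2 * x * (r ^ 2)⁻¹)) * r := by
      intro r hr h3 x hx
      apply Y.ex r hr _ (Y.QQ (hm r hr x hx))
      have e1 : r * (x * (r * x * r⁻¹) * (r ^ 2 * x * (r ^ 2)⁻¹)) * r⁻¹ =
          (r * x * r⁻¹) * (r ^ 2 * x * (r ^ 2)⁻¹) * (r ^ 3 * x * (r ^ 3)⁻¹) := by group
      have e2 : r ^ 3 * x * (r ^ 3)⁻¹ = x := by rw [h3, one_mul, inv_one, mul_one]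
      rw [e1, e2]
      have hA := Y.QQ (Y.RQ₀ r hr x hx)
      have hB := Y.QQ (Y.RQ₀ _ (R.pow_mem hr 2) x hx)
      have hC := Y.QQ hx
      have hN := Y.QQ (hm r hr x hx)
      rw [← hvZ _ (Q.mul_mem (Q.mul_mem (Q.mul_mem hA hB) hC) (Q.inv_mem hN)),
        hv _ (Q.mul_mem (Q.mul_mem hA hB) hC) _ (Q.inv_mem hN), hvi _ hN, hval r hr x hx,
        hv _ (Q.mul_mem hA hB) _ hC, hv _ hA _ hB]
      abel
    have hr : ∀ s, μ * c ^ s ∈ R := fun s => R.mul_mem hμR (R.pow_mem hcR s)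
    have hμc : Commute μ c := (Y.cR μ hμR).symm
    have hr3 : ∀ s, (μ * c ^ s) ^ 3 = 1 := by
      intro s
      rw [(hμc.pow_right s).mul_pow, Y.μ3, one_mul, ← pow_mul, mul_comm, pow_mul, Y.c3, one_pow]
    by_contra hcon
    push Not at hcon
    have hz : ∀ s, s < 3 → v (x₀ * ((μ * c ^ s) * x₀ * (μ * c ^ s)⁻¹) *
        ((μ * c ^ s) ^ 2 * x₀ * ((μ * c ^ s) ^ 2)⁻¹)) = 0 := by
      intro s hs
      rw [hvZ _ (Y.QQ (hm _ (hr s) x₀ hx0))]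
      by_contra hnZ
      exact hcon s hs _ (hm _ (hr s) x₀ hx0) hnZ (hfix _ (hr s) (hr3 s) x₀ hx0)
    have e0 := hz 0 (by norm_num)
    have e1 := hz 1 (by norm_num)
    have e2 := hz 2 (by norm_num)
    rw [hval _ (hr _) _ hx0] at e0 e1 e2
    have hn := Y.nrm x₀ hx0
    obtain ⟨y₁, hy₁⟩ : ∃ y₁, y₁ = c * x₀ * c⁻¹ := ⟨_, rfl⟩
    obtain ⟨y₂, hy₂⟩ : ∃ y₂, y₂ = c ^ 2 * x₀ * (c ^ 2)⁻¹ := ⟨_, rfl⟩
    have hy1Q : y₁ ∈ Q := by rw [hy₁]; exact Y.QQ (Y.RQ₀ c hcR x₀ hx0)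
    have hy2Q : y₂ ∈ Q := by rw [hy₂]; exact Y.QQ (Y.RQ₀ _ (R.pow_mem hcR 2) x₀ hx0)
    rw [← hy₁, ← hy₂] at hn
    have hsum : ∀ r ∈ R, v (r * x₀ * r⁻¹) + v (r * y₁ * r⁻¹) + v (r * y₂ * r⁻¹) = 0 := by
      intro r hr'
      have h1 := hRc r hr' _ (Q.mul_mem (Q.mul_mem hxQ hy1Q) hy2Q)
        ((hvZ _ (Q.mul_mem (Q.mul_mem hxQ hy1Q) hy2Q)).2 hn)
      have h2 : r * (x₀ * y₁ * y₂) * r⁻¹ = (r * x₀ * r⁻¹) * (r * y₁ * r⁻¹) * (r * y₂ * r⁻¹) := by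
        group
      rw [h2, hv _ (Q.mul_mem (Y.RQ r hr' _ hxQ) (Y.RQ r hr' _ hy1Q)) _ (Y.RQ r hr' _ hy2Q),
        hv _ (Y.RQ r hr' _ hxQ) _ (Y.RQ r hr' _ hy1Q)] at h1
      exact h1
    have hc4 : c ^ 4 = c := by
      rw [pow_succ, Y.c3, one_mul]
    have hμ2c : Commute (μ ^ 2) c := hμc.pow_left 2
    have f01 : (μ * c ^ 0) * x₀ * (μ * c ^ 0)⁻¹ = μ * x₀ * μ⁻¹ := by rw [pow_zero, mul_one]
    have f02 : (μ * c ^ 0) ^ 2 * x₀ * ((μ * c ^ 0) ^ 2)⁻¹ = μ ^ 2 * x₀ * (μ ^ 2)⁻¹ := by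
      rw [pow_zero, mul_one]
    have f11 : (μ * c ^ 1) * x₀ * (μ * c ^ 1)⁻¹ = μ * y₁ * μ⁻¹ := by
      rw [pow_one, hy₁]
      group
    have f12 : (μ * c ^ 1) ^ 2 * x₀ * ((μ * c ^ 1) ^ 2)⁻¹ = μ ^ 2 * y₂ * (μ ^ 2)⁻¹ := by
      rw [pow_one, hμc.mul_pow, hy₂, mul_inv_rev]
      simp only [mul_assoc]
    have f21 : (μ * c ^ 2) * x₀ * (μ * c ^ 2)⁻¹ = μ * y₂ * μ⁻¹ := by
      rw [hy₂, mul_inv_rev]
      simp only [mul_assoc]
    have f22 : (μ * c ^ 2) ^ 2 * x₀ * ((μ * c ^ 2) ^ 2)⁻¹ = μ ^ 2 * y₁ * (μ ^ 2)⁻¹ := by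
      rw [(hμc.pow_right 2).mul_pow, hy₁, mul_inv_rev, ← pow_mul]
      norm_num
      rw [hc4]
      simp only [mul_assoc]
    rw [f01, f02] at e0
    rw [f11, f12] at e1
    rw [f21, f22] at e2
    have s1 := hsum μ hμR
    have s2 := hsum (μ ^ 2) (R.pow_mem hμR 2)
    have hx2 := hv2 x₀ hxQ
    apply hx0Z
    rw [← hvZ x₀ hxQ]
    have hadd : (v x₀ + v (μ * x₀ * μ⁻¹) + v (μ ^ 2 * x₀ * (μ ^ 2)⁻¹)) +
        (v x₀ + v (μ * y₁ * μ⁻¹) + v (μ ^ 2 * y₂ * (μ ^ 2)⁻¹)) +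
        (v x₀ + v (μ * y₂ * μ⁻¹) + v (μ ^ 2 * y₁ * (μ ^ 2)⁻¹)) =
        v x₀ + (v x₀ + v x₀) +
        (v (μ * x₀ * μ⁻¹) + v (μ * y₁ * μ⁻¹) + v (μ * y₂ * μ⁻¹)) +
        (v (μ ^ 2 * x₀ * (μ ^ 2)⁻¹) + v (μ ^ 2 * y₁ * (μ ^ 2)⁻¹) +
          v (μ ^ 2 * y₂ * (μ ^ 2)⁻¹)) := by abel
    rw [e0, e1, e2, s1, s2, hx2] at hadd
    simpa using hadd.symm
  obtain ⟨s, hs, x₁, hx1, hx1Z, hx1c⟩ := key
  -- the element `x₂`
  have key2 : ∃ x ∈ Q₀, x ∉ Z ∧ μ * x = x * μ := by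
    have hσμ : ∀ j : ℕ, σ ^ j * μ = c ^ j * μ * σ ^ j := by
      intro j
      induction j with
      | zero => simp
      | succ j ih =>
        have h1 : σ * c ^ j = c ^ j * σ :=
          (((show Commute c σ from Y.cR σ hσR).pow_left j).eq).symm
        calc σ ^ (j + 1) * μ = σ * (σ ^ j * μ) := by rw [pow_succ', mul_assoc]
          _ = (σ * c ^ j) * μ * σ ^ j := by rw [ih]; group
          _ = c ^ j * (σ * μ) * σ ^ j := by rw [h1]; group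
          _ = c ^ (j + 1) * μ * σ ^ (j + 1) := by
            rw [Y.σμ, pow_succ, pow_succ' σ]
            simp only [mul_assoc]
    obtain ⟨j, hj⟩ : ∃ j, c ^ (j + s) = 1 := by
      refine ⟨3 - s, ?_⟩
      have h1 : 3 - s + s = 3 := by omega
      rw [h1]
      exact Y.c3
    refine ⟨σ ^ j * x₁ * (σ ^ j)⁻¹, Y.RQ₀ _ (R.pow_mem hσR j) _ hx1, fun h0 => hx1Z ?_, ?_⟩
    · have h1 := Y.ZR _ h0 _ (R.pow_mem hσR j)
      have h2 : x₁ = σ ^ j * x₁ * (σ ^ j)⁻¹ := by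
        have h3 : σ ^ j * x₁ = σ ^ j * (σ ^ j * x₁ * (σ ^ j)⁻¹) := by
          rw [← h1]
          group
        exact mul_left_cancel h3
      rw [h2]
      exact h0
    · have h1 : μ * σ ^ j = σ ^ j * (μ * c ^ s) := by
        have h2 : σ ^ j * (μ * c ^ s) = c ^ (j + s) * μ * σ ^ j := by
          have h3 : σ ^ j * c ^ s = c ^ s * σ ^ j :=
            ((((show Commute c σ from Y.cR σ hσR).pow_left s).pow_right j).eq).symm
          have h4 : μ * c ^ s = c ^ s * μ :=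
            (((show Commute c μ from Y.cR μ hμR).pow_left s).eq).symm
          calc σ ^ j * (μ * c ^ s) = (σ ^ j * c ^ s) * μ := by rw [h4]; group
            _ = c ^ s * (σ ^ j * μ) := by rw [h3]; group
            _ = (c ^ s * c ^ j) * μ * σ ^ j := by rw [hσμ]; group
            _ = _ := by rw [← pow_add, add_comm]
        rw [h2, hj, one_mul]
      have h5 : (σ ^ j)⁻¹ * μ = (μ * c ^ s) * (σ ^ j)⁻¹ := by
        rw [inv_mul_eq_iff_eq_mul, ← mul_assoc, ← h1, mul_inv_cancel_right]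
      calc μ * (σ ^ j * x₁ * (σ ^ j)⁻¹) = (μ * σ ^ j) * x₁ * (σ ^ j)⁻¹ := by group
        _ = σ ^ j * ((μ * c ^ s) * x₁) * (σ ^ j)⁻¹ := by rw [h1]; group
        _ = σ ^ j * x₁ * ((μ * c ^ s) * (σ ^ j)⁻¹) := by rw [hx1c]; group
        _ = _ := by rw [← h5]; group
  obtain ⟨x₂, hx2, hx2Z, hμ2⟩ := key2
  have hyx := Y.yQ₀ x₂ hx2
  by_cases ht : x₂ * (y * x₂ * y⁻¹) ∈ Z
  · refine ⟨x₂, hx2, hx2Z, hμ2, ?_⟩
    have hA := Y.QQ hx2
    have hB := Y.QQ hyx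
    rw [← hvZ _ (Q.mul_mem hA hB), hv _ hA _ hB] at ht
    rw [← hvZ _ (Q.mul_mem hB (Q.inv_mem hA)), hv _ hB _ (Q.inv_mem hA), hvi _ hA]
    have h1 := hv2 _ hA
    have h2 : v (y * x₂ * y⁻¹) + -v x₂ = (v x₂ + v (y * x₂ * y⁻¹)) - (v x₂ + v x₂) := by abel
    rw [h2, ht, h1, sub_zero]
  · refine ⟨x₂ * (y * x₂ * y⁻¹), Q₀.mul_mem hx2 hyx, ht, ?_, ?_⟩
    · have h1 : μ * (y * x₂ * y⁻¹) = (y * x₂ * y⁻¹) * μ := by
        have h2 : Commute (y * μ * y⁻¹) (y * x₂ * y⁻¹) := by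
          show (y * μ * y⁻¹) * (y * x₂ * y⁻¹) = (y * x₂ * y⁻¹) * (y * μ * y⁻¹)
          calc (y * μ * y⁻¹) * (y * x₂ * y⁻¹) = y * (μ * x₂) * y⁻¹ := by group
            _ = _ := by rw [hμ2]; group
        rw [Y.yμ] at h2
        exact (Commute.inv_left_iff.1 h2).eq
      calc μ * (x₂ * (y * x₂ * y⁻¹)) = (μ * x₂) * (y * x₂ * y⁻¹) := by group
        _ = x₂ * (μ * (y * x₂ * y⁻¹)) := by rw [hμ2]; group
        _ = _ := by rw [h1]; group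
    · have hyy : y * y = g ^ (2 ^ (a - 1)) := by
        rw [Y.hy, ← pow_add, ← two_mul, ← pow_succ']
        congr 2
        omega
      have h1 : y * (y * x₂ * y⁻¹) * y⁻¹ = x₂ := by
        have h2 := Y.κ.1 x₂ (Y.QQ hx2)
        rw [← hyy] at h2
        calc y * (y * x₂ * y⁻¹) * y⁻¹ = y * y * x₂ * (y * y)⁻¹ := by group
          _ = x₂ := h2
      have h3 : y * (x₂ * (y * x₂ * y⁻¹)) * y⁻¹ * (x₂ * (y * x₂ * y⁻¹))⁻¹ =
          (y * x₂ * y⁻¹) * x₂ * (y * x₂ * y⁻¹)⁻¹ * x₂⁻¹ := by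
        calc y * (x₂ * (y * x₂ * y⁻¹)) * y⁻¹ * (x₂ * (y * x₂ * y⁻¹))⁻¹ =
            (y * x₂ * y⁻¹) * (y * (y * x₂ * y⁻¹) * y⁻¹) * (y * x₂ * y⁻¹)⁻¹ * x₂⁻¹ := by group
          _ = _ := by rw [h1]
      rw [h3]
      exact Y.cm _ (Y.QQ hyx) _ (Y.QQ hx2)

end Pool.Agent.Lib.MP_544bd1_al
end

section

/-!
Theorem Z (paper 287), 4.5-4.8: the element x, second part.
-/

namespace Pool.Agent.Lib.MP_544bd1_al

open Subgroup

variable {a k : ℕ} {X : Type} [Group X] [Finite X] {Q Q₀ Z R E : Subgroup X} {g τ y c μ σ : X}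

/-- **The element `x`, second part.**

Proof. Let `x` be as in `yk_x1`, `x' = c * x * c⁻¹`, `x'' = c ^ 2 * x * (c ^ 2)⁻¹`, `n = x * x' * x'' ∈ Z`
(`Y.nrm`), `n ^ 2 = 1`, `n ∈ Q₀`. Replace `x` by `x * n`: `n` is central in `Q` and commutes with `R`, so
the new product is `n * n ^ 3 = 1`; `y * n * y⁻¹ ∈ Z` (`Y.Zg`, `y` is a power of `g`). So let
`x * x' * x'' = 1`, `f = x ^ 2 ∈ Z`, `f ^ 2 = 1`. `x'' = (x * x')⁻¹`, `x'' ^ 2 = c ^ 2 * f * (c ^ 2)⁻¹ = f`,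
`x' ^ 2 = f`, so `(x * x') ^ 2 = f`, i.e. `x * x' * x * x' = f`, so `x' * x = x * x' * f` (use
`x⁻¹ = x * f`, `x'⁻¹ = x' * f`). `y * x * y⁻¹ = x * z`, `z ∈ Z`. `y * x' * y⁻¹ = c⁻¹ * (x * z) * c =
x'' * z`, `y * x'' * y⁻¹ = x' * z` (`Y.yc`, `c ^ 3 = 1`). Conjugating `x * x' * x'' = 1` by `y`:
`1 = x * x'' * x' * z ^ 3`. `x'' * x' = x' * x'' * f` (conjugate `x' * x = x * x' * f` by `c`). So
`z = z ^ 3 = f`, and `y * x * y⁻¹ = x * f = x⁻¹`. -/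
theorem yk_x (ha : 3 ≤ a) (Y : YX a k Q Q₀ Z R E g τ y c μ σ) : ∃ x, YE Q₀ Z y c μ x := by
  obtain ⟨x₀, hx₀, hx₀Z, hμx₀, hyx₀⟩ := yk_x1 ha Y
  have hcR : c ∈ R := Y.ER Y.cE
  have hμR : μ ∈ R := Y.ER Y.μE
  have hyZ : ∀ z ∈ Z, y * z * y⁻¹ ∈ Z := by
    rw [Y.hy]
    exact ys_pow_mem Y.Zg _
  have hZi : ∀ z ∈ Z, z⁻¹ = z := fun z hz =>
    inv_eq_of_mul_eq_one_left (by rw [← pow_two]; exact Y.Z2 z hz)
  have hZr : ∀ z ∈ Z, ∀ r ∈ R, r * z * r⁻¹ = z := fun z hz r hr => by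
    rw [← Y.ZR z hz r hr]; group
  obtain ⟨n, hn⟩ : ∃ n, n = x₀ * (c * x₀ * c⁻¹) * (c ^ 2 * x₀ * (c ^ 2)⁻¹) := ⟨_, rfl⟩
  have hnZ : n ∈ Z := by rw [hn]; exact Y.nrm x₀ hx₀
  have hc2R : c ^ 2 ∈ R := R.pow_mem hcR 2
  have hx₀Q := Y.QQ hx₀
  have hcx₀ := Y.RQ₀ c hcR x₀ hx₀
  have hc2x₀ := Y.RQ₀ (c ^ 2) hc2R x₀ hx₀
  have hn0 : n ∈ Q₀ := by rw [hn]; exact Q₀.mul_mem (Q₀.mul_mem hx₀ hcx₀) hc2x₀
  obtain ⟨x, hx⟩ : ∃ x, x = x₀ * n := ⟨_, rfl⟩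
  have hx0 : x ∈ Q₀ := by rw [hx]; exact Q₀.mul_mem hx₀ hn0
  have hxQ := Y.QQ hx0
  have hxZ : x ∉ Z := by
    intro h
    apply hx₀Z
    have h1 : x₀ = x * n⁻¹ := by rw [hx]; group
    rw [h1]
    exact Z.mul_mem h (Z.inv_mem hnZ)
  have hμx : μ * x = x * μ := by
    have e1 : Commute μ x₀ := hμx₀
    have e2 : Commute μ n := (Y.ZR n hnZ μ hμR).symm
    rw [hx]
    exact (e1.mul_right e2).eq
  have hnc : n * (c * x₀ * c⁻¹) = (c * x₀ * c⁻¹) * n := Y.Zc n hnZ _ (Y.QQ hcx₀)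
  have hnc2 : n * (c ^ 2 * x₀ * (c ^ 2)⁻¹) = (c ^ 2 * x₀ * (c ^ 2)⁻¹) * n :=
    Y.Zc n hnZ _ (Y.QQ hc2x₀)
  have hnn : n * n = 1 := by rw [← pow_two]; exact Y.Z2 n hnZ
  have h3 : x * (c * x * c⁻¹) * (c ^ 2 * x * (c ^ 2)⁻¹) = 1 := by
    have e1 : c * x * c⁻¹ = (c * x₀ * c⁻¹) * n := by
      calc c * x * c⁻¹ = (c * x₀ * c⁻¹) * (c * n * c⁻¹) := by rw [hx]; group
        _ = _ := by rw [hZr n hnZ c hcR]
    have e2 : c ^ 2 * x * (c ^ 2)⁻¹ = (c ^ 2 * x₀ * (c ^ 2)⁻¹) * n := by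
      calc c ^ 2 * x * (c ^ 2)⁻¹ = (c ^ 2 * x₀ * (c ^ 2)⁻¹) * (c ^ 2 * n * (c ^ 2)⁻¹) := by
            rw [hx]; group
        _ = _ := by rw [hZr n hnZ _ hc2R]
    calc x * (c * x * c⁻¹) * (c ^ 2 * x * (c ^ 2)⁻¹)
        = (x₀ * n) * ((c * x₀ * c⁻¹) * n) * ((c ^ 2 * x₀ * (c ^ 2)⁻¹) * n) := by rw [e1, e2, hx]
      _ = x₀ * (n * (c * x₀ * c⁻¹)) * (n * (c ^ 2 * x₀ * (c ^ 2)⁻¹)) * n := by group
      _ = x₀ * ((c * x₀ * c⁻¹) * n) * ((c ^ 2 * x₀ * (c ^ 2)⁻¹) * n) * n := by rw [hnc, hnc2]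
      _ = x₀ * (c * x₀ * c⁻¹) * (n * (c ^ 2 * x₀ * (c ^ 2)⁻¹)) * (n * n) := by group
      _ = (x₀ * (c * x₀ * c⁻¹) * (c ^ 2 * x₀ * (c ^ 2)⁻¹)) * n * (n * n) := by rw [hnc2]; group
      _ = 1 := by rw [← hn, hnn, mul_one]
  -- `y * x * y⁻¹ = x * z`
  obtain ⟨z, hz⟩ : ∃ z, z = x⁻¹ * (y * x * y⁻¹) := ⟨_, rfl⟩
  have hzZ : z ∈ Z := by
    have e1 : z = n⁻¹ * (x₀⁻¹ * (y * x₀ * y⁻¹ * x₀⁻¹) * x₀) * (y * n * y⁻¹) := by
      rw [hz, hx]; group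
    have e2 : x₀⁻¹ * (y * x₀ * y⁻¹ * x₀⁻¹) * x₀ = y * x₀ * y⁻¹ * x₀⁻¹ := by
      rw [mul_assoc, Y.Zc _ hyx₀ x₀ hx₀Q]; group
    rw [e1, e2]
    exact Z.mul_mem (Z.mul_mem (Z.inv_mem hnZ) hyx₀) (hyZ n hnZ)
  have hyx : y * x * y⁻¹ = x * z := by rw [hz]; group
  obtain ⟨x', hx'⟩ : ∃ x', x' = c * x * c⁻¹ := ⟨_, rfl⟩
  obtain ⟨x'', hx''⟩ : ∃ x'', x'' = c ^ 2 * x * (c ^ 2)⁻¹ := ⟨_, rfl⟩
  rw [← hx', ← hx''] at h3
  have hx'Q : x' ∈ Q := by rw [hx']; exact Y.RQ c hcR x hxQ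
  have hx''Q : x'' ∈ Q := by rw [hx'']; exact Y.RQ _ hc2R x hxQ
  obtain ⟨f, hf⟩ : ∃ f, f = x ^ 2 := ⟨_, rfl⟩
  have hfZ : f ∈ Z := by rw [hf]; exact Y.sq x hxQ
  have hff : f * f = 1 := by rw [← pow_two]; exact Y.Z2 f hfZ
  have hx'2 : x' ^ 2 = f := by
    rw [hx', conj_pow, ← hf, hZr f hfZ c hcR]
  have hx''2 : x'' ^ 2 = f := by
    rw [hx'', conj_pow, ← hf, hZr f hfZ _ hc2R]
  have hfi := hZi f hfZ
  have hx''i : x'' = (x * x')⁻¹ := by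
    rw [eq_inv_iff_mul_eq_one]
    have h4 : x * x' = x''⁻¹ := eq_inv_of_mul_eq_one_left h3
    rw [h4, mul_inv_cancel]
  have hxx'2 : (x * x') * (x * x') = f := by
    have h4 : x * x' = x''⁻¹ := eq_inv_of_mul_eq_one_left h3
    rw [h4, ← mul_inv_rev, ← pow_two, hx''2, hfi]
  have hxi : x⁻¹ = x * f := by
    rw [inv_eq_iff_mul_eq_one, ← mul_assoc, ← pow_two, ← hf, hff]
  have hx'i : x'⁻¹ = x' * f := by
    rw [inv_eq_iff_mul_eq_one, ← mul_assoc, ← pow_two, hx'2, hff]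
  have hfx : f * x = x * f := Y.Zc f hfZ x hxQ
  have hfx' : f * x' = x' * f := Y.Zc f hfZ x' hx'Q
  have hx'x : x' * x = x * x' * f := by
    calc x' * x = x⁻¹ * ((x * x') * (x * x')) * x'⁻¹ := by group
      _ = (x * f) * f * (x' * f) := by rw [hxx'2, hxi, hx'i]
      _ = x * (f * f) * x' * f := by group
      _ = x * x' * f := by rw [hff, mul_one]
  have hd : x * x'' * x' = f := by
    have e1 : x * x' * x⁻¹ = x' * f := by
      calc x * x' * x⁻¹ = (x * x' * f) * f⁻¹ * x⁻¹ := by group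
        _ = (x' * x) * f⁻¹ * x⁻¹ := by rw [← hx'x]
        _ = x' * (x * f) * x⁻¹ := by rw [hfi]; group
        _ = x' * (f * x) * x⁻¹ := by rw [hfx]
        _ = x' * f := by group
    calc x * x'' * x' = (x * x' * x⁻¹)⁻¹ * x' := by rw [hx''i]; group
      _ = f⁻¹ * (x'⁻¹ * x') := by rw [e1]; group
      _ = f := by rw [inv_mul_cancel, mul_one, hfi]
  have hci : c⁻¹ = c ^ 2 := by
    rw [inv_eq_iff_mul_eq_one, ← pow_succ']
    exact Y.c3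
  have hyx' : y * x' * y⁻¹ = x'' * z := by
    calc y * x' * y⁻¹ = (y * c * y⁻¹) * (y * x * y⁻¹) * (y * c * y⁻¹)⁻¹ := by rw [hx']; group
      _ = c ^ 2 * (x * z) * (c ^ 2)⁻¹ := by rw [Y.yc, hyx, hci]
      _ = (c ^ 2 * x * (c ^ 2)⁻¹) * (c ^ 2 * z * (c ^ 2)⁻¹) := by group
      _ = x'' * z := by rw [hZr z hzZ _ hc2R, hx'']
  have hyx'' : y * x'' * y⁻¹ = x' * z := by
    calc y * x'' * y⁻¹ = (y * c * y⁻¹) * ((y * c * y⁻¹) * (y * x * y⁻¹) * (y * c * y⁻¹)⁻¹) *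
          (y * c * y⁻¹)⁻¹ := by rw [hx'', pow_two]; group
      _ = c ^ 2 * (c ^ 2 * (x * z) * (c ^ 2)⁻¹) * (c ^ 2)⁻¹ := by rw [Y.yc, hyx, hci]
      _ = (c ^ 3 * c) * (x * z) * (c ^ 3 * c)⁻¹ := by group
      _ = (c * x * c⁻¹) * (c * z * c⁻¹) := by rw [Y.c3]; group
      _ = x' * z := by rw [hZr z hzZ c hcR, hx']
  have hzx' : z * x' = x' * z := Y.Zc z hzZ x' hx'Q
  have hzx'' : z * x'' = x'' * z := Y.Zc z hzZ x'' hx''Q
  have hzz : z * z = 1 := by rw [← pow_two]; exact Y.Z2 z hzZ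
  have hfz : f * z = 1 := by
    have e1 : (x * z) * (x'' * z) * (x' * z) = 1 := by
      calc (x * z) * (x'' * z) * (x' * z) = (y * x * y⁻¹) * (y * x' * y⁻¹) * (y * x'' * y⁻¹) := by
            rw [hyx, hyx', hyx'']
        _ = y * (x * x' * x'') * y⁻¹ := by group
        _ = 1 := by rw [h3]; group
    calc f * z = (x * x'' * x') * (z * z) * z := by rw [hd, hzz, mul_one]
      _ = x * (x'' * (x' * z)) * z * z := by group
      _ = x * (x'' * (z * x')) * z * z := by rw [hzx']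
      _ = x * (x'' * z) * (x' * z) * z := by group
      _ = x * (z * x'') * (x' * z) * z := by rw [hzx'']
      _ = (x * z) * x'' * (x' * z) * z := by group
      _ = (x * z) * x'' * (z * x') * z := by rw [hzx']
      _ = (x * z) * (x'' * z) * (x' * z) := by group
      _ = 1 := e1
  have hzf : z = f := by
    calc z = f⁻¹ * (f * z) := by group
      _ = f := by rw [hfz, mul_one, hfi]
  exact ⟨x, hx0, hxZ, hμx, by rw [← hx', ← hx'']; exact h3, by rw [hyx, hzf, hxi]⟩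

end Pool.Agent.Lib.MP_544bd1_al
end

section

/-!
Theorem Z (paper 287), 4.6: condition (ii), linear algebra.
-/

namespace Pool.Agent.Lib.MP_544bd1_al

open Subgroup

private theorem yvl_two0 {r : ℕ} (hr : r.Prime) {X : Type} [AddCommGroup X]
    [Module (ZMod r) X] [Finite X] (W : Submodule (ZMod r) X) (A : Module.End (ZMod r) X)
    (hAW : ∀ w ∈ W, A w ∈ W) {v : X} (hv : v ∈ W) (hv0 : v ≠ 0)
    (hA : ∀ α : ZMod r, A v ≠ α • v) : r ^ 2 ≤ Nat.card W := by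
  have : Fact r.Prime := ⟨hr⟩
  have h1 : Nat.card (ZMod r × ZMod r) = r ^ 2 := by
    rw [Nat.card_prod, Nat.card_zmod, pow_two]
  rw [← h1]
  let φ : ZMod r × ZMod r → W := fun p =>
    ⟨p.1 • v + p.2 • A v, W.add_mem (W.smul_mem _ hv) (W.smul_mem _ (hAW v hv))⟩
  refine Nat.card_le_card_of_injective φ ?_
  rintro ⟨s, t⟩ ⟨s', t'⟩ h
  have h2 : s • v + t • A v = s' • v + t' • A v := congrArg Subtype.val h
  have h3 : (t' - t) • A v = (s - s') • v := by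
    rw [sub_smul, sub_smul, sub_eq_sub_iff_add_eq_add, add_comm, ← h2, add_comm]
  by_cases ht : t' - t = 0
  · rw [ht, zero_smul] at h3
    have h4 : s - s' = 0 := (smul_eq_zero.1 h3.symm).resolve_right hv0
    rw [sub_eq_zero] at ht h4
    rw [ht, h4]
  · exfalso
    apply hA ((t' - t)⁻¹ * (s - s'))
    rw [mul_smul, ← h3, smul_smul, inv_mul_cancel₀ ht, one_smul]

private theorem yvl_two {r : ℕ} (hr : r.Prime) (hr2 : r ≠ 2) {X : Type} [AddCommGroup X]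
    [Module (ZMod r) X] [Finite X] (W : Submodule (ZMod r) X) (A B : Module.End (ZMod r) X)
    (hAW : ∀ w ∈ W, A w ∈ W) (hBW : ∀ w ∈ W, B w ∈ W) (hAA : ∀ w ∈ W, A (A w) = -w)
    (hBB : ∀ w ∈ W, B (B w) = -w) (hAB : ∀ w ∈ W, A (B w) = -B (A w)) (hne : ∃ w ∈ W, w ≠ 0) :
    r ^ 2 ≤ Nat.card W := by
  have : Fact r.Prime := ⟨hr⟩
  obtain ⟨v, hv, hv0⟩ := hne
  by_cases hA : ∀ α : ZMod r, A v ≠ α • v
  · exact yvl_two0 hr W A hAW hv hv0 hA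
  by_cases hB : ∀ α : ZMod r, B v ≠ α • v
  · exact yvl_two0 hr W B hBW hv hv0 hB
  exfalso
  push Not at hA hB
  obtain ⟨α, hα⟩ := hA
  obtain ⟨β, hβ⟩ := hB
  have h2 : (2 : ZMod r) ≠ 0 := by
    intro h
    have h3 : ((2 : ℕ) : ZMod r) = 0 := by exact_mod_cast h
    rw [ZMod.natCast_eq_zero_iff] at h3
    exact hr2 ((Nat.prime_dvd_prime_iff_eq hr Nat.prime_two).1 h3)
  have hα0 : α ≠ 0 := by
    intro h
    have h3 := hAA v hv
    rw [hα, h, zero_smul, map_zero] at h3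
    exact hv0 (neg_eq_zero.1 h3.symm)
  have hβ0 : β ≠ 0 := by
    intro h
    have h3 := hBB v hv
    rw [hβ, h, zero_smul, map_zero] at h3
    exact hv0 (neg_eq_zero.1 h3.symm)
  have h3 := hAB v hv
  rw [hβ, hα, map_smul, map_smul, hα, hβ, smul_smul, smul_smul, mul_comm α β] at h3
  have h4 : ((2 : ZMod r) * (β * α)) • v = 0 := by
    rw [two_mul, add_smul]
    nth_rewrite 1 [h3]
    exact neg_add_cancel _
  have h5 := (smul_eq_zero.1 h4).resolve_right hv0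
  exact mul_ne_zero h2 (mul_ne_zero hβ0 hα0) h5

private theorem yvl_half {r : ℕ} (hr : r.Prime) (hr2 : r ≠ 2) {X : Type} [AddCommGroup X]
    [Module (ZMod r) X] [Finite X] (W : Submodule (ZMod r) X) (E B : Module.End (ZMod r) X)
    (hEW : ∀ w ∈ W, E w ∈ W) (hBW : ∀ w ∈ W, B w ∈ W) (hEE : ∀ w ∈ W, E (E w) = w)
    (hEB : ∀ w ∈ W, E (B w) = -B (E w)) (hBB : ∀ w ∈ W, B (B w) = -w)
    (hne : ∃ w ∈ W, w ≠ 0) :
    ∃ W1 : Submodule (ZMod r) X, (∀ w, w ∈ W1 ↔ w ∈ W ∧ E w = w) ∧ (∃ w ∈ W1, w ≠ 0) ∧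
      Nat.card W1 * Nat.card W1 ≤ Nat.card W := by
  have : Fact r.Prime := ⟨hr⟩
  have h2 : (2 : ZMod r) ≠ 0 := by
    intro h
    have h3 : ((2 : ℕ) : ZMod r) = 0 := by exact_mod_cast h
    rw [ZMod.natCast_eq_zero_iff] at h3
    exact hr2 ((Nat.prime_dvd_prime_iff_eq hr Nat.prime_two).1 h3)
  have h2X : ∀ x : X, x + x = 0 → x = 0 := by
    intro x hx
    rw [← two_smul (ZMod r) x] at hx
    exact (smul_eq_zero.1 hx).resolve_left h2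
  refine ⟨W ⊓ LinearMap.ker (E - 1), ?_, ?_, ?_⟩
  · intro w
    rw [Submodule.mem_inf, LinearMap.mem_ker, LinearMap.sub_apply, Module.End.one_apply, sub_eq_zero]
  · obtain ⟨v, hv, hv0⟩ := hne
    by_cases h : v + E v = 0
    · refine ⟨B v, ?_, ?_⟩
      · rw [Submodule.mem_inf, LinearMap.mem_ker, LinearMap.sub_apply, Module.End.one_apply,
          sub_eq_zero]
        refine ⟨hBW v hv, ?_⟩
        rw [hEB v hv, eq_neg_of_add_eq_zero_right h, map_neg, neg_neg]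
      · intro h3
        have h4 := hBB v hv
        rw [h3, map_zero] at h4
        exact hv0 (neg_eq_zero.1 h4.symm)
    · refine ⟨v + E v, ?_, h⟩
      rw [Submodule.mem_inf, LinearMap.mem_ker, LinearMap.sub_apply, Module.End.one_apply,
        sub_eq_zero]
      refine ⟨W.add_mem hv (hEW v hv), ?_⟩
      rw [map_add, hEE v hv, add_comm]
  · rw [← Nat.card_prod]
    have hmem : ∀ w : (W ⊓ LinearMap.ker (E - 1) : Submodule (ZMod r) X), (w : X) ∈ W ∧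
        E (w : X) = w := by
      intro w
      have h3 := w.2
      rw [Submodule.mem_inf, LinearMap.mem_ker, LinearMap.sub_apply, Module.End.one_apply,
        sub_eq_zero] at h3
      exact h3
    let φ : (W ⊓ LinearMap.ker (E - 1) : Submodule (ZMod r) X) ×
        (W ⊓ LinearMap.ker (E - 1) : Submodule (ZMod r) X) → W := fun p =>
      ⟨(p.1 : X) + B p.2, W.add_mem (hmem p.1).1 (hBW _ (hmem p.2).1)⟩
    refine Nat.card_le_card_of_injective φ ?_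
    rintro ⟨s, t⟩ ⟨s', t'⟩ h
    have h3 : (s : X) + B t = s' + B t' := congrArg Subtype.val h
    have h4 : (s : X) - s' = B ((t' : X) - t) := by
      rw [map_sub, sub_eq_sub_iff_add_eq_add, h3, add_comm]
    have h5 : E ((s : X) - s') = s - s' := by
      rw [map_sub, (hmem s).2, (hmem s').2]
    have htt : (t' : X) - t ∈ W := W.sub_mem (hmem t').1 (hmem t).1
    have h6 : E (B ((t' : X) - t)) = -B ((t' : X) - t) := by
      rw [hEB _ htt, map_sub E, (hmem t').2, (hmem t).2]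
    have h7 : (s : X) - s' = 0 := by
      apply h2X
      rw [← h4, h5, h4] at h6
      rw [h4]
      nth_rewrite 1 [h6]
      exact neg_add_cancel _
    have h8 : (t' : X) - t = 0 := by
      have h9 := hBB _ htt
      rw [← h4, h7, map_zero] at h9
      exact neg_eq_zero.1 h9.symm
    have h10 : s = s' := Subtype.ext (sub_eq_zero.1 h7)
    have h11 : t = t' := Subtype.ext (sub_eq_zero.1 h8).symm
    rw [h10, h11]

/-- **Three commuting quaternion pairs need dimension 8.** `A j`, `B j` (`j = 0, 1, 2`) are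
endomorphisms with `A j ^ 2 = B j ^ 2 = F`, `A j * B j = F * (B j * A j)`, and the pairs commute.
On `V = {v | F v = -v}` (invariant: `F` commutes with `A j`, `B j`, as `F = A j ^ 2 = B j ^ 2`):
`A j ^ 2 = B j ^ 2 = -1`, `A j * B j = - B j * A j`.

Proof. Suppose `V ≠ 0`. On `V` let `E1 = A 0 * A 1`, `E2 = B 0 * B 1`: `E1 ^ 2 = E2 ^ 2 = 1`,
`E1 * E2 = E2 * E1`, `A 0` commutes with `E1` and anticommutes with `E2`, `B 0` anticommutes with `E1`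
and commutes with `E2`. Let `V1 = {v ∈ V | E1 v = v}`, `V2 = {v ∈ V1 | E2 v = v}`. `V1 ≠ 0`: for
`v ∈ V`, `v ≠ 0`: `v + E1 v ∈ V1`; if it is `0` then `E1 v = - v` and `B 0 v ∈ V1`, `B 0 v ≠ 0`
(`B 0 (B 0 v) = -v`). The same with `A 0`: `V2 ≠ 0`. The map `V1 × V1 → V`, `(u, v) ↦ u + B 0 v` is
injective (apply `E1`: `u + B 0 v = 0` gives `u - B 0 v = 0`, `2 u = 0`, `u = 0`; `r ≠ 2`), so
`card V ≥ (card V1) ^ 2`; the same with `A 0`, `E2`: `card V1 ≥ (card V2) ^ 2`. `A 2`, `B 2` act on `V2`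
(they commute with `E1`, `E2`). Let `0 ≠ v ∈ V2`. If `A 2 v = α • v` and `B 2 v = β • v` then
`2 * α * β = 0` in `ZMod r`, but `α ^ 2 = -1 = β ^ 2`: contradiction. So one of the maps
`(s, t) ↦ s • v + t • A 2 v`, `(s, t) ↦ s • v + t • B 2 v` from `ZMod r × ZMod r` to `V2` is injective:
`card V2 ≥ r ^ 2`. So `r ^ 4 ≥ card X ≥ card V ≥ r ^ 8`, contradiction. -/
theorem yv_lin {r : ℕ} (hr : r.Prime) (hr2 : r ≠ 2) {X : Type} [AddCommGroup X]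
    [Module (ZMod r) X] [Finite X] (hX : Nat.card X ≤ r ^ 4) (F : Module.End (ZMod r) X)
    (A B : ℕ → Module.End (ZMod r) X) (hA : ∀ j < 3, A j * A j = F) (hB : ∀ j < 3, B j * B j = F)
    (hAB : ∀ j < 3, A j * B j = F * (B j * A j))
    (hAA : ∀ i < 3, ∀ j < 3, i ≠ j → A i * A j = A j * A i)
    (hBB : ∀ i < 3, ∀ j < 3, i ≠ j → B i * B j = B j * B i)
    (hAB' : ∀ i < 3, ∀ j < 3, i ≠ j → A i * B j = B j * A i) :
    ∀ v : X, F v = - v → v = 0 := by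
  have : Fact r.Prime := ⟨hr⟩
  intro v₀ hv₀
  by_contra hv00
  have cA : ∀ j < 3, A j * F = F * A j := by
    intro j hj
    rw [← hA j hj, mul_assoc]
  have cB : ∀ j < 3, B j * F = F * B j := by
    intro j hj
    rw [← hB j hj, mul_assoc]
  have app : ∀ (S T : Module.End (ZMod r) X) (v : X), (S * T) v = S (T v) := fun _ _ _ => rfl
  have ap2 : ∀ {S T : Module.End (ZMod r) X}, S = T → ∀ v, S v = T v := by
    intro S T h v
    rw [h]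
  let V : Submodule (ZMod r) X := LinearMap.ker (F + 1)
  have hV : ∀ v, v ∈ V ↔ F v = -v := by
    intro v
    show v ∈ LinearMap.ker (F + 1) ↔ _
    rw [LinearMap.mem_ker, LinearMap.add_apply, Module.End.one_apply, add_eq_zero_iff_eq_neg]
  have hAV : ∀ j < 3, ∀ v ∈ V, A j v ∈ V := by
    intro j hj v hv
    rw [hV] at hv ⊢
    rw [← app, ← cA j hj, app, hv, map_neg]
  have hBV : ∀ j < 3, ∀ v ∈ V, B j v ∈ V := by
    intro j hj v hv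
    rw [hV] at hv ⊢
    rw [← app, ← cB j hj, app, hv, map_neg]
  have aa : ∀ j < 3, ∀ v ∈ V, A j (A j v) = -v := by
    intro j hj v hv
    rw [← app, hA j hj]
    exact (hV v).1 hv
  have bb : ∀ j < 3, ∀ v ∈ V, B j (B j v) = -v := by
    intro j hj v hv
    rw [← app, hB j hj]
    exact (hV v).1 hv
  have ab : ∀ j < 3, ∀ v ∈ V, A j (B j v) = -B j (A j v) := by
    intro j hj v hv
    rw [← app, hAB j hj, app, app]
    exact (hV _).1 (hBV j hj _ (hAV j hj v hv))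
  have cAA : ∀ i < 3, ∀ j < 3, i ≠ j → ∀ v, A i (A j v) = A j (A i v) :=
    fun i hi j hj hij v => ap2 (hAA i hi j hj hij) v
  have cBB : ∀ i < 3, ∀ j < 3, i ≠ j → ∀ v, B i (B j v) = B j (B i v) :=
    fun i hi j hj hij v => ap2 (hBB i hi j hj hij) v
  have cAB : ∀ i < 3, ∀ j < 3, i ≠ j → ∀ v, A i (B j v) = B j (A i v) :=
    fun i hi j hj hij v => ap2 (hAB' i hi j hj hij) v
  have l0 : 0 < 3 := by norm_num
  have l1 : 1 < 3 := by norm_num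
  have l2 : 2 < 3 := by norm_num
  have n01 : (0 : ℕ) ≠ 1 := by norm_num
  have n10 : (1 : ℕ) ≠ 0 := by norm_num
  have n20 : (2 : ℕ) ≠ 0 := by norm_num
  have n21 : (2 : ℕ) ≠ 1 := by norm_num
  have n02 : (0 : ℕ) ≠ 2 := by norm_num
  have n12 : (1 : ℕ) ≠ 2 := by norm_num
  -- the first half
  obtain ⟨V1, hV1, hne1, hc1⟩ := yvl_half hr hr2 V (A 0 * A 1) (B 0)
    (fun v hv => hAV 0 l0 _ (hAV 1 l1 v hv)) (hBV 0 l0)
    (fun v hv => by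
      rw [app, app, cAA 1 l1 0 l0 n10, aa 0 l0 _ (hAV 1 l1 _ (hAV 1 l1 v hv)), aa 1 l1 v hv,
        neg_neg])
    (fun v hv => by
      rw [app, app, cAB 1 l1 0 l0 n10, ab 0 l0 _ (hAV 1 l1 v hv)])
    (bb 0 l0) ⟨v₀, (hV v₀).2 hv₀, hv00⟩
  -- the second half
  have hA0V1 : ∀ v ∈ V1, A 0 v ∈ V1 := by
    intro v hv
    rw [hV1] at hv ⊢
    refine ⟨hAV 0 l0 v hv.1, ?_⟩
    have h1 : A 0 (A 1 v) = v := hv.2
    rw [app, cAA 1 l1 0 l0 n10, h1]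
  have hEV1 : ∀ v ∈ V1, (B 0 * B 1) v ∈ V1 := by
    intro v hv
    rw [hV1] at hv ⊢
    have hvV := hv.1
    refine ⟨hBV 0 l0 _ (hBV 1 l1 v hvV), ?_⟩
    have h1 : A 0 (A 1 v) = v := hv.2
    rw [app, app, cAB 1 l1 0 l0 n10, ab 1 l1 v hvV, map_neg, map_neg,
      ab 0 l0 _ (hBV 1 l1 _ (hAV 1 l1 v hvV)), neg_neg, cAB 0 l0 1 l1 n01, h1]
  obtain ⟨V2, hV2, hne2, hc2⟩ := yvl_half hr hr2 V1 (B 0 * B 1) (A 0) hEV1 hA0V1
    (fun v hv => by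
      have hvV := ((hV1 v).1 hv).1
      rw [app, app, cBB 1 l1 0 l0 n10, bb 0 l0 _ (hBV 1 l1 _ (hBV 1 l1 v hvV)), bb 1 l1 v hvV,
        neg_neg])
    (fun v hv => by
      have hvV := ((hV1 v).1 hv).1
      rw [app, app, ← cAB 0 l0 1 l1 n01, ab 0 l0 _ (hBV 1 l1 v hvV), neg_neg])
    (fun v hv => aa 0 l0 v ((hV1 v).1 hv).1) hne1
  have h2V : ∀ v ∈ V2, v ∈ V ∧ A 0 (A 1 v) = v ∧ B 0 (B 1 v) = v := by
    intro v hv
    have h1 := (hV2 v).1 hv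
    have h2 := (hV1 v).1 h1.1
    exact ⟨h2.1, h2.2, h1.2⟩
  have hmk : ∀ v, v ∈ V → A 0 (A 1 v) = v → B 0 (B 1 v) = v → v ∈ V2 :=
    fun v h1 h2 h3 => (hV2 v).2 ⟨(hV1 v).2 ⟨h1, h2⟩, h3⟩
  have hc3 := yvl_two hr hr2 V2 (A 2) (B 2)
    (fun v hv => by
      obtain ⟨h1, h2, h3⟩ := h2V v hv
      refine hmk _ (hAV 2 l2 v h1) ?_ ?_
      · rw [cAA 1 l1 2 l2 n12, cAA 0 l0 2 l2 n02, h2]
      · rw [← cAB 2 l2 1 l1 n21, ← cAB 2 l2 0 l0 n20, h3])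
    (fun v hv => by
      obtain ⟨h1, h2, h3⟩ := h2V v hv
      refine hmk _ (hBV 2 l2 v h1) ?_ ?_
      · rw [cAB 1 l1 2 l2 n12, cAB 0 l0 2 l2 n02, h2]
      · rw [cBB 1 l1 2 l2 n12, cBB 0 l0 2 l2 n02, h3])
    (fun v hv => aa 2 l2 v (h2V v hv).1) (fun v hv => bb 2 l2 v (h2V v hv).1)
    (fun v hv => ab 2 l2 v (h2V v hv).1) hne2
  have hVX : Nat.card V ≤ Nat.card X := Nat.card_le_card_of_injective _ Subtype.val_injective
  have h1 : r ^ 4 ≤ Nat.card V1 := by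
    calc r ^ 4 = r ^ 2 * r ^ 2 := by ring
      _ ≤ Nat.card V2 * Nat.card V2 := Nat.mul_le_mul hc3 hc3
      _ ≤ _ := hc2
  have h2 : r ^ 8 ≤ r ^ 4 := by
    calc r ^ 8 = r ^ 4 * r ^ 4 := by ring
      _ ≤ Nat.card V1 * Nat.card V1 := Nat.mul_le_mul h1 h1
      _ ≤ _ := hc1
      _ ≤ _ := hVX
      _ ≤ _ := hX
  have h3 : r ^ 4 < r ^ 8 := Nat.pow_lt_pow_right hr.one_lt (by norm_num)
  omega

end Pool.Agent.Lib.MP_544bd1_al
end

section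

/-!
Theorem Z (paper 287), 4.6: the subgroup `Y`.
-/

namespace Pool.Agent.Lib.MP_544bd1_al

open Subgroup

variable {a : ℕ} {X : Type} [Group X] [Finite X] {Q₀ E P Z₁ : Subgroup X} {g y c μ σ e e' w f : X}
  {q : ℕ → ℕ → X}

/-- **(V7a)** the subgroup `Y'`

Proof. `Y' = closure ({z | ∃ l : ℕ, z = g ^ l * (q 0 0 * q 1 0) * (g ^ l)⁻¹} ∪ Z₁)`. `Y' ≤ P`: `D.L.memP`,
`D.gP`, `D.Z₁P`. Invariance under `g`: generators, `D.Z₁g`. Invariance under `P`: for `x ∈ P` and a generator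
`t`, `x * t * x⁻¹ = (x * t * x⁻¹ * t⁻¹) * t`, `D.cm`. Exponent 2: it is enough that the generators commute
and have order 2. `(q 0 0 * q 1 0) ^ 2 = f * f = 1` (`D.L.com`, `D.L.sq`, `D.L.f2`). Let
`t_l = g ^ l * (q 0 0 * q 1 0) * (g ^ l)⁻¹`; it is enough that `t_l` commutes with `t_0` for all `l` (conjugate
by a power of `g`, `g` has finite order). `D.κP`: `t_{l + 2 ^ (a - 1)} = t_l`, so let
`l < 2 ^ (a - 1)`. `l = 0`: clear. `0 < l < 2 ^ (a - 2)`: `D.out`, last part (`D.L.mem0`).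
`l = 2 ^ (a - 2) + l'` : `t_l = g ^ l' * (y * (q 0 0 * q 1 0) * y⁻¹) * (g ^ l')⁻¹` (`D.hy`) and
`y * (q 0 0 * q 1 0) * y⁻¹ = (q 0 0)⁻¹ * (q 1 0)⁻¹ = q 0 0 * q 1 0` (`D.L.yq`; the square is 1), so
`t_l = t_{l'}`. (So it is also enough to consider `l < 2 ^ (a - 2)`.) -/
theorem yv_Y (ha : 3 ≤ a) (D : YV a Q₀ E P Z₁ g y c μ σ e e' w f q) :
    ∃ Y' : Subgroup X, Y' ≤ P ∧ (∀ z ∈ Y', z ^ 2 = 1) ∧ (∀ z ∈ Y', g * z * g⁻¹ ∈ Y') ∧
      (∀ x ∈ P, ∀ z ∈ Y', x * z * x⁻¹ ∈ Y') ∧ Z₁ ≤ Y' ∧ q 0 0 * q 1 0 ∈ Y' := by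
  set t : X := q 0 0 * q 1 0 with ht
  have hc01 : q 0 0 * q 1 0 = q 1 0 * q 0 0 :=
    D.L.com 0 1 0 0 (by norm_num) (by norm_num) (by norm_num)
  have ht2 : t * t = 1 := by
    have h1 : t * t = (q 0 0 * q 0 0) * (q 1 0 * q 1 0) := by
      calc t * t = q 0 0 * (q 1 0 * q 0 0) * q 1 0 := by rw [ht]; group
        _ = q 0 0 * (q 0 0 * q 1 0) * q 1 0 := by rw [hc01]
        _ = _ := by group
    rw [h1, ← pow_two, ← pow_two, D.L.sq, D.L.sq, ← pow_two, D.L.f2]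
  have htP : t ∈ P := P.mul_mem (D.L.memP 0 0) (D.L.memP 1 0)
  have htQ : t ∈ Q₀ := Q₀.mul_mem (D.L.mem0 0 0) (D.L.mem0 1 0)
  have hgl : ∀ (l : ℕ), ∀ x ∈ P, g ^ l * x * (g ^ l)⁻¹ ∈ P := fun l => ys_pow_mem D.gP l
  have hyt : y * t * y⁻¹ = t := by
    have h1 : y * t * y⁻¹ = (y * q 0 0 * y⁻¹) * (y * q 1 0 * y⁻¹) := by rw [ht]; group
    have h2 : t⁻¹ = t := inv_eq_of_mul_eq_one_left ht2
    rw [h1, D.L.yq, D.L.yq, mul_zero, ← mul_inv_rev, ← hc01]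
    exact h2
  have hper : ∀ k : ℕ, g ^ (k + 2 ^ (a - 2)) * t * (g ^ (k + 2 ^ (a - 2)))⁻¹ =
      g ^ k * t * (g ^ k)⁻¹ := by
    intro k
    rw [pow_add, ← D.hy]
    calc g ^ k * y * t * (g ^ k * y)⁻¹ = g ^ k * (y * t * y⁻¹) * (g ^ k)⁻¹ := by group
      _ = _ := by rw [hyt]
  have hmod : ∀ k : ℕ, g ^ k * t * (g ^ k)⁻¹ =
      g ^ (k % 2 ^ (a - 2)) * t * (g ^ (k % 2 ^ (a - 2)))⁻¹ := by
    intro k
    have h1 : ∀ m j : ℕ, g ^ (j + 2 ^ (a - 2) * m) * t * (g ^ (j + 2 ^ (a - 2) * m))⁻¹ =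
        g ^ j * t * (g ^ j)⁻¹ := by
      intro m
      induction m with
      | zero => intro j; simp
      | succ m ih =>
        intro j
        have h2 : j + 2 ^ (a - 2) * (m + 1) = (j + 2 ^ (a - 2) * m) + 2 ^ (a - 2) := by ring
        rw [h2, hper, ih]
    have h2 := h1 (k / 2 ^ (a - 2)) (k % 2 ^ (a - 2))
    rw [Nat.mod_add_div] at h2
    exact h2
  have hcomm0 : ∀ k : ℕ, (g ^ k * t * (g ^ k)⁻¹) * t = t * (g ^ k * t * (g ^ k)⁻¹) := by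
    intro k
    rw [hmod]
    rcases Nat.eq_zero_or_pos (k % 2 ^ (a - 2)) with h | h
    · rw [h]
      simp
    · exact (D.out _ h (Nat.mod_lt _ (by positivity))).2.2.2 t htQ t htQ
  have hcommle : ∀ l k : ℕ, (g ^ (l + k) * t * (g ^ (l + k))⁻¹) * (g ^ l * t * (g ^ l)⁻¹) =
      (g ^ l * t * (g ^ l)⁻¹) * (g ^ (l + k) * t * (g ^ (l + k))⁻¹) := by
    intro l k
    have h1 : g ^ (l + k) * t * (g ^ (l + k))⁻¹ = g ^ l * (g ^ k * t * (g ^ k)⁻¹) * (g ^ l)⁻¹ := by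
      rw [pow_add]
      group
    rw [h1]
    calc g ^ l * (g ^ k * t * (g ^ k)⁻¹) * (g ^ l)⁻¹ * (g ^ l * t * (g ^ l)⁻¹)
        = g ^ l * ((g ^ k * t * (g ^ k)⁻¹) * t) * (g ^ l)⁻¹ := by group
      _ = g ^ l * (t * (g ^ k * t * (g ^ k)⁻¹)) * (g ^ l)⁻¹ := by rw [hcomm0]
      _ = _ := by group
  set S : Set X := {z | ∃ l : ℕ, z = g ^ l * t * (g ^ l)⁻¹} ∪ (Z₁ : Set X) with hS
  have hSP : ∀ s ∈ S, s ∈ P := by
    rintro s (⟨l, rfl⟩ | hs)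
    · exact hgl l t htP
    · exact D.Z₁P hs
  have hYP : closure S ≤ P := (closure_le P).2 hSP
  have hSc : ∀ s ∈ S, ∀ s' ∈ S, s * s' = s' * s := by
    rintro s (⟨l, rfl⟩ | hs) s' (⟨m, rfl⟩ | hs')
    · rcases le_total l m with h | h
      · obtain ⟨k, rfl⟩ := Nat.exists_eq_add_of_le h
        exact (hcommle l k).symm
      · obtain ⟨k, rfl⟩ := Nat.exists_eq_add_of_le h
        exact hcommle m k
    · exact (D.Z₁c s' hs' _ (hgl l t htP)).symm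
    · exact D.Z₁c s hs _ (hgl m t htP)
    · exact D.Z₁c s hs _ (D.Z₁P hs')
  have hc1 : ∀ x ∈ closure S, ∀ s ∈ S, x * s = s * x := by
    intro x hx s hs
    have h1 : closure S ≤ centralizer {s} := by
      rw [closure_le]
      intro s' hs'
      exact mem_centralizer_singleton_iff.2 (hSc s' hs' s hs)
    exact mem_centralizer_singleton_iff.1 (h1 hx)
  have hc2 : ∀ x ∈ closure S, ∀ z ∈ closure S, x * z = z * x := by
    intro x hx z hz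
    have h1 : closure S ≤ centralizer {x} := by
      rw [closure_le]
      intro s' hs'
      exact mem_centralizer_singleton_iff.2 (hc1 x hx s' hs').symm
    exact (mem_centralizer_singleton_iff.1 (h1 hz)).symm
  refine ⟨closure S, hYP, ?_, ?_, ?_, ?_, ?_⟩
  · intro z hz
    induction hz using closure_induction with
    | mem s hs =>
      rcases hs with ⟨l, rfl⟩ | hs
      · calc (g ^ l * t * (g ^ l)⁻¹) ^ 2 = g ^ l * (t * t) * (g ^ l)⁻¹ := by rw [pow_two]; group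
          _ = 1 := by rw [ht2]; group
      · exact D.Z₁2 s hs
    | one => exact one_pow 2
    | mul u v hu hv h1 h2 =>
      have h3 : Commute u v := hc2 u hu v hv
      rw [h3.mul_pow, h1, h2, one_mul]
    | inv u hu h1 => rw [inv_pow, h1, inv_one]
  · intro z hz
    induction hz using closure_induction with
    | mem s hs =>
      apply Subgroup.subset_closure
      rcases hs with ⟨l, rfl⟩ | hs
      · left
        refine ⟨l + 1, ?_⟩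
        rw [pow_succ']
        group
      · exact Or.inr (D.Z₁g s hs)
    | one => simp
    | mul u v hu hv h1 h2 =>
      have h3 : g * (u * v) * g⁻¹ = (g * u * g⁻¹) * (g * v * g⁻¹) := by group
      rw [h3]
      exact mul_mem h1 h2
    | inv u hu h1 =>
      have h3 : g * u⁻¹ * g⁻¹ = (g * u * g⁻¹)⁻¹ := by group
      rw [h3]
      exact inv_mem h1
  · intro x hx z hz
    have h1 : x * z * x⁻¹ = (x * z * x⁻¹ * z⁻¹) * z := by group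
    rw [h1]
    exact mul_mem (Subgroup.subset_closure (Or.inr (D.cm x hx z (hYP hz)))) hz
  · intro z hz
    exact Subgroup.subset_closure (Or.inr hz)
  · apply Subgroup.subset_closure
    left
    exact ⟨0, by simp⟩

end Pool.Agent.Lib.MP_544bd1_al
end

section

/-!
Theorem Z (paper 287), 4.6: the elements of the three lines.
-/

namespace Pool.Agent.Lib.MP_544bd1_al

open Subgroup

variable {a k : ℕ} {X : Type} [Group X] [Finite X] {Q Q₀ Z R E : Subgroup X} {g τ y c μ σ : X} {x : X}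

/-- **The lines.** Proof. `q j i = (c ^ i * σ ^ j) * x * (c ^ i * σ ^ j)⁻¹`, `f = x ^ 2`.
`mem0`: `Y.RQ₀`. `memP`: a generator of `yP` (`h = 1`). `sq`: `f ∈ Z` (`Y.sq`) commutes with `R` (`Y.ZR`).
`f2`: `Y.Z2`. `p3`: conjugate `h.h3` by `c ^ i * σ ^ j` (`c` is central in `R`: `Y.cR`). `i3`, `j3`: `Y.c3`,
`Y.σ3`. `com`: `yk_orth`: conjugate so that `j = 0` resp. `j' = 0` (`c ^ i * σ ^ j`; the difference `j' - j`
is `1` or `2` modulo `3`; use symmetry). `yq`: `Y.yc`, `Y.yσ`, `h.hy`, and `c⁻¹ = c ^ 2`. `cq`, `σq`: clear. `μq`: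
`yk_mu` conjugated by `c ^ i` . -/
theorem yv_q (Y : YX a k Q Q₀ Z R E g τ y c μ σ) (h : YE Q₀ Z y c μ x) :
    YQ3 Q₀ (yP g 1 E x) y c μ σ (x ^ 2) (fun j i => (c ^ i * σ ^ j) * x * (c ^ i * σ ^ j)⁻¹) := by
  have hcσ : Commute c σ := Y.cR σ (Y.ER Y.σE)
  have hcμ : Commute c μ := Y.cR μ (Y.ER Y.μE)
  have hT : ∀ j i : ℕ, c ^ i * σ ^ j ∈ E := fun j i =>
    mul_mem (pow_mem Y.cE i) (pow_mem Y.σE j)
  have hci : c⁻¹ = c ^ 2 := by
    rw [inv_eq_iff_mul_eq_one, ← pow_succ', Y.c3]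
  have hxZ : x ^ 2 ∈ Z := Y.sq x (Y.QQ h.h0)
  have hTc : ∀ j i n : ℕ, c ^ (i + n) * σ ^ j = (c ^ i * σ ^ j) * c ^ n := by
    intro j i n
    have h1 : σ ^ j * c ^ n = c ^ n * σ ^ j := ((hcσ.pow_pow n j).eq).symm
    rw [mul_assoc, h1, ← mul_assoc, ← pow_add]
  have hcom : ∀ j d i n : ℕ, 0 < d → d < 3 →
      ((c ^ i * σ ^ j) * x * (c ^ i * σ ^ j)⁻¹) *
        ((c ^ (i + n) * σ ^ (j + d)) * x * (c ^ (i + n) * σ ^ (j + d))⁻¹) =
      ((c ^ (i + n) * σ ^ (j + d)) * x * (c ^ (i + n) * σ ^ (j + d))⁻¹) *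
        ((c ^ i * σ ^ j) * x * (c ^ i * σ ^ j)⁻¹) := by
    intro j d i n hd hd3
    have h1 : c ^ (i + n) * σ ^ (j + d) = (c ^ i * σ ^ j) * (c ^ n * σ ^ d) := by
      rw [pow_add σ, ← mul_assoc, hTc, mul_assoc, mul_assoc]
    have h2 := yk_orth Y h hd hd3 n
    rw [h1]
    calc ((c ^ i * σ ^ j) * x * (c ^ i * σ ^ j)⁻¹) *
        ((c ^ i * σ ^ j) * (c ^ n * σ ^ d) * x * ((c ^ i * σ ^ j) * (c ^ n * σ ^ d))⁻¹) =
        (c ^ i * σ ^ j) * (x * ((c ^ n * σ ^ d) * x * (c ^ n * σ ^ d)⁻¹)) *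
          (c ^ i * σ ^ j)⁻¹ := by
          simp only [mul_assoc, mul_inv_rev, inv_mul_cancel_left]
      _ = (c ^ i * σ ^ j) * (((c ^ n * σ ^ d) * x * (c ^ n * σ ^ d)⁻¹) * x) *
          (c ^ i * σ ^ j)⁻¹ := by rw [h2]
      _ = _ := by
          simp only [mul_assoc, mul_inv_rev, inv_mul_cancel_left]
  have hc3 : ∀ i n : ℕ, c ^ (i + 3 * n) = c ^ i := by
    intro i n
    rw [pow_add, pow_mul, Y.c3, one_pow, mul_one]
  have hlt : ∀ j j' i i' : ℕ, j < j' → j' < 3 →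
      ((c ^ i * σ ^ j) * x * (c ^ i * σ ^ j)⁻¹) * ((c ^ i' * σ ^ j') * x * (c ^ i' * σ ^ j')⁻¹) =
      ((c ^ i' * σ ^ j') * x * (c ^ i' * σ ^ j')⁻¹) * ((c ^ i * σ ^ j) * x * (c ^ i * σ ^ j)⁻¹) := by
    intro j j' i i' hjj hj3
    have h1 := hcom j (j' - j) i (i' + 2 * i) (by omega) (by omega)
    have h2 : j + (j' - j) = j' := by omega
    have h3 : c ^ (i + (i' + 2 * i)) = c ^ i' := by
      rw [show i + (i' + 2 * i) = i' + 3 * i by ring, hc3]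
    rw [h2, h3] at h1
    exact h1
  refine ⟨?_, ?_, ?_, ?_, ?_, ?_, ?_, ?_, ?_, ?_, ?_, ?_⟩
  · intro j i
    exact Y.RQ₀ _ (Y.ER (hT j i)) x h.h0
  · intro j i
    refine subset_closure ⟨1, one_mem _, c ^ i * σ ^ j, hT j i, ?_⟩
    rw [one_mul]
  · exact Y.Z2 _ hxZ
  · intro j i
    have h1 := Y.ZR _ hxZ _ (Y.ER (hT j i))
    rw [conj_pow, ← h1, mul_assoc, mul_inv_cancel, mul_one]
  · intro j i
    show (c ^ i * σ ^ j) * x * (c ^ i * σ ^ j)⁻¹ * ((c ^ (i + 1) * σ ^ j) * x *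
      (c ^ (i + 1) * σ ^ j)⁻¹) * ((c ^ (i + 2) * σ ^ j) * x * (c ^ (i + 2) * σ ^ j)⁻¹) = 1
    rw [hTc j i 1, hTc j i 2, pow_one]
    calc _ = (c ^ i * σ ^ j) * (x * (c * x * c⁻¹) * (c ^ 2 * x * (c ^ 2)⁻¹)) *
          (c ^ i * σ ^ j)⁻¹ := by
          simp only [mul_assoc, mul_inv_rev, inv_mul_cancel_left]
      _ = 1 := by rw [h.h3, mul_one, mul_inv_cancel]
  · intro j i
    show (c ^ (i + 3) * σ ^ j) * x * (c ^ (i + 3) * σ ^ j)⁻¹ = _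
    rw [show i + 3 = i + 3 * 1 by ring, hc3]
  · intro j i
    show (c ^ i * σ ^ (j + 3)) * x * (c ^ i * σ ^ (j + 3))⁻¹ = _
    rw [pow_add σ, Y.σ3, mul_one]
  · intro j j' i i' hj hj' hne
    rcases Nat.lt_or_ge j j' with h1 | h1
    · exact hlt j j' i i' h1 hj'
    · exact (hlt j' j i' i (by omega) hj).symm
  · intro j i
    show y * ((c ^ i * σ ^ j) * x * (c ^ i * σ ^ j)⁻¹) * y⁻¹ =
      ((c ^ (2 * i) * σ ^ j) * x * (c ^ (2 * i) * σ ^ j)⁻¹)⁻¹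
    have h1 : y * (c ^ i * σ ^ j) * y⁻¹ = c ^ (2 * i) * σ ^ j := by
      have h2 : y * (c ^ i * σ ^ j) * y⁻¹ = (y * c ^ i * y⁻¹) * (y * σ ^ j * y⁻¹) := by group
      rw [h2, ← conj_pow, ← conj_pow, Y.yc, Y.yσ, hci, ← pow_mul]
    have h3 : y * ((c ^ i * σ ^ j) * x * (c ^ i * σ ^ j)⁻¹) * y⁻¹ =
        (y * (c ^ i * σ ^ j) * y⁻¹) * (y * x * y⁻¹) * (y * (c ^ i * σ ^ j) * y⁻¹)⁻¹ := by
      simp only [mul_assoc, mul_inv_rev, inv_mul_cancel_left, inv_inv]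
    rw [h3, h1, h.hy]
    simp only [mul_assoc, mul_inv_rev, inv_inv]
  · intro j i
    show c * ((c ^ i * σ ^ j) * x * (c ^ i * σ ^ j)⁻¹) * c⁻¹ =
      (c ^ (i + 1) * σ ^ j) * x * (c ^ (i + 1) * σ ^ j)⁻¹
    rw [pow_succ']
    simp only [mul_assoc, mul_inv_rev]
  · intro j i
    show σ * ((c ^ i * σ ^ j) * x * (c ^ i * σ ^ j)⁻¹) * σ⁻¹ =
      (c ^ i * σ ^ (j + 1)) * x * (c ^ i * σ ^ (j + 1))⁻¹
    have h1 : c ^ i * σ ^ (j + 1) = σ * (c ^ i * σ ^ j) := by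
      have h2 : σ * c ^ i = c ^ i * σ := ((hcσ.pow_left i).eq).symm
      rw [← mul_assoc, h2, pow_succ', mul_assoc]
    rw [h1]
    simp only [mul_assoc, mul_inv_rev]
  · intro j i
    show μ * ((c ^ i * σ ^ j) * x * (c ^ i * σ ^ j)⁻¹) * μ⁻¹ =
      (c ^ (i + 2 * j) * σ ^ j) * x * (c ^ (i + 2 * j) * σ ^ j)⁻¹
    have h1 := yk_mu Y h j
    have h2 : μ * c ^ i = c ^ i * μ := ((hcμ.pow_left i).eq).symm
    have h3 : μ * ((c ^ i * σ ^ j) * x * (c ^ i * σ ^ j)⁻¹) * μ⁻¹ =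
        (μ * c ^ i) * (σ ^ j * x * (σ ^ j)⁻¹) * (μ * c ^ i)⁻¹ := by
      simp only [mul_assoc, mul_inv_rev]
    have h4 : c ^ i * μ * (σ ^ j * x * (σ ^ j)⁻¹) * (c ^ i * μ)⁻¹ =
        c ^ i * (μ * (σ ^ j * x * (σ ^ j)⁻¹) * μ⁻¹) * (c ^ i)⁻¹ := by
      simp only [mul_assoc, mul_inv_rev]
    rw [h3, h2, h4, h1, pow_add]
    simp only [mul_assoc, mul_inv_rev]

end Pool.Agent.Lib.MP_544bd1_al
end

section

/-!
Theorem Z (paper 287), 4.6: condition (ii).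
-/

namespace Pool.Agent.Lib.MP_544bd1_al

open Subgroup

variable {a : ℕ} {X : Type} [Group X] [Finite X] {Q₀ E P Z₁ : Subgroup X} {g y c μ σ e e' w f : X}
  {q : ℕ → ℕ → X}

/-- **(V6)** condition (ii)

Proof. For every `l` let `F_l = ρ (g ^ l * f * (g ^ l)⁻¹)` (in `P`: `D.L.memP`, `D.L.sq`, `D.gP`), and
`A j = ρ (g ^ l * q j 0 * (g ^ l)⁻¹)`, `B j = ρ (g ^ l * q j 1 * (g ^ l)⁻¹)`: `D.L.sq` gives
`A j * A j = F_l = B j * B j`; `q j 0 * q j 1 = f * (q j 1 * q j 0)` (from `D.L.p3`, `D.L.sq`, `D.L.f2`: `(q j 0 * q j 1) ^ 2 =`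
`((q j 2)⁻¹) ^ 2 = f`, `f` commutes with `q j i` as a square of it); `D.L.com` gives the other
hypotheses of `yv_lin`. So `F_l v = - v → v = 0`. As `F_l ^ 2 = 1`: `F_l (v - F_l v) = - (v - F_l v)`, so
`F_l v = v` for all `v`: `F_l = 1`. By `closure_induction` (for the kernel of `ρ`, mapped to `X`:
`{z | ∃ h : z ∈ P, ρ ⟨z, h⟩ = 1}`) `ρ ⟨f', _⟩ = 1`. With `ρ ⟨f', _⟩ = -1`: `v = -v`, `2 • v = 0`, `v = 0` as
`r` is odd. -/
theorem yv_ii (D : YV a Q₀ E P Z₁ g y c μ σ e e' w f q) {f' : X}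
    (hf : f' ∈ closure {z | ∃ l : ℕ, z = g ^ l * f * (g ^ l)⁻¹}) (hf' : f' ∈ P)
    (r : ℕ) (hr : r.Prime) (hr2 : r ≠ 2) (V : Type) [AddCommGroup V] [Module (ZMod r) V] [Finite V]
    (ρ : P →* Module.End (ZMod r) V) (hV : Nat.card V ≤ r ^ 4) (hρ : ρ ⟨f', hf'⟩ = -1) :
    ∀ v : V, v = 0 := by
  have : Fact r.Prime := ⟨hr⟩
  have hfc : ∀ j i, f * q j i = q j i * f := by
    intro j i
    rw [← D.L.sq j i]
    exact ((Commute.refl (q j i)).pow_left 2).eq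
  have hff : f * f = 1 := by rw [← pow_two]; exact D.L.f2
  have hqq : ∀ j i, q j i * q j i = f := by
    intro j i
    rw [← pow_two]
    exact D.L.sq j i
  have hqi : ∀ j i, (q j i)⁻¹ = f * q j i := by
    intro j i
    rw [inv_eq_iff_mul_eq_one, ← mul_assoc, ← hfc, mul_assoc, hqq, hff]
  have hrel : ∀ j, q j 0 * q j 1 = f * (q j 1 * q j 0) := by
    intro j
    have h1 := D.L.p3 j 0
    rw [zero_add, zero_add] at h1
    have h2 : q j 0 * q j 1 = f * q j 2 := by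
      rw [← hqi]
      exact eq_inv_of_mul_eq_one_left h1
    have h3 : (q j 0 * q j 1) * (q j 0 * q j 1) = f := by
      rw [h2]
      calc f * q j 2 * (f * q j 2) = f * (q j 2 * f) * q j 2 := by group
        _ = f * (f * q j 2) * q j 2 := by rw [hfc]
        _ = (f * f) * (q j 2 * q j 2) := by group
        _ = f := by rw [hff, hqq, one_mul]
    have h4 : q j 0 * q j 1 = f * ((q j 1)⁻¹ * (q j 0)⁻¹) := by
      calc q j 0 * q j 1 = (q j 0 * q j 1) * (q j 0 * q j 1) * ((q j 1)⁻¹ * (q j 0)⁻¹) := by group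
        _ = _ := by rw [h3]
    rw [h4, hqi, hqi]
    calc f * (f * q j 1 * (f * q j 0)) = f * f * (q j 1 * f) * q j 0 := by group
      _ = f * f * (f * q j 1) * q j 0 := by rw [hfc]
      _ = f * (q j 1 * q j 0) := by rw [hff]; group
  have hfP : f ∈ P := by
    rw [← D.L.sq 0 0]
    exact P.pow_mem (D.L.memP 0 0) 2
  have hgl : ∀ (l : ℕ), ∀ x ∈ P, g ^ l * x * (g ^ l)⁻¹ ∈ P := fun l => ys_pow_mem D.gP l
  have key : ∀ l : ℕ, ρ ⟨g ^ l * f * (g ^ l)⁻¹, hgl l f hfP⟩ = 1 := by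
    intro l
    let cl : P →* P :=
      { toFun := fun x => ⟨g ^ l * x.1 * (g ^ l)⁻¹, hgl l x.1 x.2⟩
        map_one' := by
          apply Subtype.ext
          show g ^ l * 1 * (g ^ l)⁻¹ = 1
          group
        map_mul' := by
          intro x y
          apply Subtype.ext
          show g ^ l * (x.1 * y.1) * (g ^ l)⁻¹ = (g ^ l * x.1 * (g ^ l)⁻¹) * (g ^ l * y.1 * (g ^ l)⁻¹)
          group }
    let ρl : P →* Module.End (ZMod r) V := ρ.comp cl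
    let fP : P := ⟨f, hfP⟩
    let Q : ℕ → ℕ → P := fun j i => ⟨q j i, D.L.memP j i⟩
    have e1 : ∀ j i, Q j i * Q j i = fP := fun j i => Subtype.ext (hqq j i)
    have e2 : ∀ j, Q j 0 * Q j 1 = fP * (Q j 1 * Q j 0) := fun j => Subtype.ext (hrel j)
    have e3 : ∀ j j' i i', j < 3 → j' < 3 → j ≠ j' → Q j i * Q j' i' = Q j' i' * Q j i :=
      fun j j' i i' h1 h2 h3 => Subtype.ext (D.L.com j j' i i' h1 h2 h3)
    have hlin := yv_lin hr hr2 hV (ρl fP) (fun j => ρl (Q j 0)) (fun j => ρl (Q j 1))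
      (fun j _ => by rw [← map_mul, e1]) (fun j _ => by rw [← map_mul, e1])
      (fun j _ => by rw [← map_mul, e2, map_mul, map_mul])
      (fun i hi j hj hij => by rw [← map_mul, e3 i j 0 0 hi hj hij, map_mul])
      (fun i hi j hj hij => by rw [← map_mul, e3 i j 1 1 hi hj hij, map_mul])
      (fun i hi j hj hij => by rw [← map_mul, e3 i j 0 1 hi hj hij, map_mul])
    have hF2 : ρl fP * ρl fP = 1 := by
      rw [← map_mul]
      have : fP * fP = 1 := Subtype.ext hff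
      rw [this, map_one]
    show ρl fP = 1
    apply LinearMap.ext
    intro v
    have h1 : ρl fP (ρl fP v) = v := by
      rw [← Module.End.mul_apply, hF2, Module.End.one_apply]
    have h2 := hlin (v - ρl fP v) (by rw [map_sub, h1, neg_sub])
    rw [Module.End.one_apply]
    exact (sub_eq_zero.1 h2).symm
  have hker : closure {z | ∃ l : ℕ, z = g ^ l * f * (g ^ l)⁻¹} ≤ ρ.ker.map P.subtype := by
    rw [closure_le]
    rintro z ⟨l, rfl⟩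
    exact ⟨⟨_, hgl l f hfP⟩, key l, rfl⟩
  obtain ⟨x, hx, hxf⟩ := hker hf
  have hx2 : x = ⟨f', hf'⟩ := Subtype.ext hxf
  rw [hx2] at hx
  have h1 : ρ ⟨f', hf'⟩ = 1 := hx
  rw [h1] at hρ
  intro v
  have h2 := congrArg (fun T : Module.End (ZMod r) V => T v) hρ
  have h3 : v = -v := h2
  have h4 : (2 : ZMod r) • v = 0 := by
    rw [two_smul]
    nth_rw 2 [h3]
    exact add_neg_cancel v
  have h5 : (2 : ZMod r) ≠ 0 := by
    intro h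
    have h6 : ((2 : ℕ) : ZMod r) = 0 := by exact_mod_cast h
    rw [ZMod.natCast_eq_zero_iff] at h6
    exact hr2 ((Nat.prime_dvd_prime_iff_eq hr Nat.prime_two).1 h6)
  exact (smul_eq_zero.1 h4).resolve_left h5

end Pool.Agent.Lib.MP_544bd1_al
end
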