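import Mathlib
import Pool.Agent.Lib.MP_544bd1_al.ZsC0
import Pool.Agent.Lib.MP_544bd1_al.ZsEb
import Pool.Agent.Lib.MP_544bd1_al.ZtNorm
import Pool.Agent.Lib.MP_544bd1_al.ZsC4
import Pool.Agent.Lib.MP_544bd1_al.ZsKc2
import Pool.Agent.Lib.MP_544bd1_al.ZsMX2
import Pool.Agent.Lib.MP_544bd1_al.ZtDefs3
import Pool.Agent.Lib.MP_544bd1_al.ZsV6b
import Pool.Agent.Lib.MP_544bd1_al.TwS2

section

/-!
Theorem Z (paper 287), 4.5-4.8: conjugates of x commute.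
-/

namespace Pool.Agent.Lib.MP_544bd1_al

open Subgroup

variable {a k : ℕ} {X : Type} [Group X] [Finite X] {Q Q₀ Z R E : Subgroup X} {g τ y c μ σ : X} {x : X}

/-- conjugates of `x` by `E` commute modulo `Z`, and commute if `x ^ 2 = 1`.

Proof. `r = c ^ i * σ ^ j * μ ^ l` (`Y.form`), `μ` commutes with `x`, so
`r * x * r⁻¹ = (c ^ i * σ ^ (j % 3)) * x * (c ^ i * σ ^ (j % 3))⁻¹`. For `j % 3 ≠ 0`: `yk_orth`. For
`j % 3 = 0`: `c ^ i` with `i % 3 = 0`: clear; `i % 3 = 1`: `yk_line` with `x ^ 2 = 1`; `i % 3 = 2`: `c ^ 2 * x * (c ^ 2)⁻¹ =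
(x * (c * x * c⁻¹))⁻¹`. -/
theorem yk_comm (Y : YX a k Q Q₀ Z R E g τ y c μ σ) (h : YE Q₀ Z y c μ x) (h2 : x ^ 2 = 1) :
    ∀ r ∈ E, x * (r * x * r⁻¹) = r * x * r⁻¹ * x := by
  intro r hr
  obtain ⟨i, j, l, rfl⟩ := Y.form r hr
  have hμl : Commute (μ ^ l) x := (show Commute μ x from h.hμ).pow_left l
  have e1 : c ^ i * σ ^ j * μ ^ l * x * (c ^ i * σ ^ j * μ ^ l)⁻¹ =
      (c ^ i * σ ^ j) * x * (c ^ i * σ ^ j)⁻¹ := by
    have : μ ^ l * x * (μ ^ l)⁻¹ = x := by rw [hμl.eq, mul_inv_cancel_right]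
    calc c ^ i * σ ^ j * μ ^ l * x * (c ^ i * σ ^ j * μ ^ l)⁻¹
        = (c ^ i * σ ^ j) * (μ ^ l * x * (μ ^ l)⁻¹) * (c ^ i * σ ^ j)⁻¹ := by group
      _ = _ := by rw [this]
  rw [e1]
  have hσ : σ ^ j = σ ^ (j % 3) := by
    conv_lhs => rw [← Nat.div_add_mod j 3, pow_add, pow_mul, Y.σ3, one_pow, one_mul]
  have hc : c ^ i = c ^ (i % 3) := by
    conv_lhs => rw [← Nat.div_add_mod i 3, pow_add, pow_mul, Y.c3, one_pow, one_mul]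
  by_cases hj : j % 3 = 0
  · rw [hσ, hj, pow_zero, mul_one, hc]
    obtain ⟨-, -, h3, h4⟩ := yk_line Y h
    rw [h2, mul_one] at h3
    have hi : i % 3 < 3 := Nat.mod_lt _ (by norm_num)
    have hcom : Commute x (c * x * c⁻¹) := h3.symm
    interval_cases (i % 3)
    · simp
    · simpa using h3.symm
    · have h5 : c ^ 2 * x * (c ^ 2)⁻¹ = (x * (c * x * c⁻¹))⁻¹ := by rw [h4, inv_inv]
      rw [h5]
      exact (((Commute.refl x).mul_right hcom).inv_right).eq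
  · rw [hσ]
    exact yk_orth Y h (Nat.pos_of_ne_zero hj) (Nat.mod_lt _ (by norm_num)) i

end Pool.Agent.Lib.MP_544bd1_al
end

section

/-!
Theorem Z (paper 287), 4.8: the new element of order a power of 3.
-/

namespace Pool.Agent.Lib.MP_544bd1_al

open Subgroup

variable {m a k : ℕ} {X : Type} [Group X] [Finite X] {Q Q₀ Z R E : Subgroup X}
  {g τ y c μ σ x : X}


/-- **`τ' = ynorm (2 ^ (a - 2)) g σ * τ`.**

Proof. Let `s = ynorm (2 ^ (a - 2)) g σ`, the product of the `g ^ l * σ * (g ^ l)⁻¹`, `l < 2 ^ (a - 2)`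
(`ynorm_succ`). They commute pairwise (`Y.outg`, third part of `YOut`), `g ^ (2 ^ (a - 2)) = y` commutes
with `σ` (`Y.yσ`). (1) `g * s * g⁻¹ = σ⁻¹ * s * (y * σ * y⁻¹) = s`: `ynorm_add 1 n` and `ynorm_succ n` give
`σ * (g * s * g⁻¹) = s * (y * σ * y⁻¹) = s * σ`, and `s` commutes with `σ`. So `g` commutes with
`τ' = s * τ`. (2) `s ∈ R` (`ynorm_mem`, `Y.gR`), so `τ' ∈ R ⊔ zpowers τ`: `Y.hR3`; `ye_pm`. (3)
`yP_inv`: `s` is a product of elements `g ^ l * σ * (g ^ l)⁻¹` (third part), `τ` (first part). (4) `s`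
acts on `Q₀` as `σ`: the factors with `l > 0` commute with `Q₀` (`Y.outg`, first part). (5) for
`0 < i < 3 ^ k` and `v ∈ Q₀` every factor `g ^ l * σ * (g ^ l)⁻¹` commutes with `τ ^ i * v * (τ ^ i)⁻¹`:
`YOut Q₀ E (τ ^ i * (g ^ l)⁻¹)` (`Y.outτ`), second part, conjugated by `g ^ l`. -/
theorem ye_tau1 (ha : 3 ≤ a) (hexp : ∀ x : X, x ^ (m * 2 ^ a) = 1)
    (Y : YX a k Q Q₀ Z R E g τ y c μ σ) (h : YE Q₀ Z y c μ x) :
    g * (ynorm (2 ^ (a - 2)) g σ * τ) = ynorm (2 ^ (a - 2)) g σ * τ * g ∧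
      (∃ j, (ynorm (2 ^ (a - 2)) g σ * τ) ^ (3 ^ j) = 1) ∧
      (ynorm (2 ^ (a - 2)) g σ * τ) ^ m = 1 ∧
      (∀ z ∈ yP g τ E x, (ynorm (2 ^ (a - 2)) g σ * τ) * z * (ynorm (2 ^ (a - 2)) g σ * τ)⁻¹ ∈
        yP g τ E x) ∧
      (∀ v ∈ Q₀, ynorm (2 ^ (a - 2)) g σ * v * (ynorm (2 ^ (a - 2)) g σ)⁻¹ = σ * v * σ⁻¹) ∧
      ∀ i, 0 < i → i < 3 ^ k → ∀ v ∈ Q₀,
        ynorm (2 ^ (a - 2)) g σ * (τ ^ i * v * (τ ^ i)⁻¹) * (ynorm (2 ^ (a - 2)) g σ)⁻¹ =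
          τ ^ i * v * (τ ^ i)⁻¹ := by
  have hM1 : 1 ≤ 2 ^ (a - 2) := Nat.one_le_two_pow
  have hσR : σ ∈ R := Y.ER Y.σE
  -- `σ` commutes with the partial norms
  have c1 : ∀ n, n ≤ 2 ^ (a - 2) → ynorm n g σ * σ = σ * ynorm n g σ := by
    intro n
    induction n with
    | zero => intro _; rw [ynorm_zero, one_mul, mul_one]
    | succ n ih =>
      intro hn
      have h1 := ih (by omega)
      have h2 : (g ^ n * σ * (g ^ n)⁻¹) * σ = σ * (g ^ n * σ * (g ^ n)⁻¹) := by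
        rcases Nat.eq_zero_or_pos n with h0 | h0
        · rw [h0, pow_zero]
          group
        · exact (Y.outg n h0 (by omega)).2.2.1 σ Y.σE σ Y.σE
      rw [ynorm_succ, mul_assoc, h2, ← mul_assoc, h1, mul_assoc]
  have c2 := c1 _ le_rfl
  obtain ⟨s, hs⟩ : ∃ s, s = ynorm (2 ^ (a - 2)) g σ := ⟨_, rfl⟩
  have hgs : g * s = s * g := by
    have h1 := ynorm_add 1 (2 ^ (a - 2)) g σ
    have h2 := ynorm_succ (2 ^ (a - 2)) g σ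
    rw [add_comm 1, h2, ynorm_one, pow_one, ← Y.hy, Y.yσ, c2] at h1
    have h3 : ynorm (2 ^ (a - 2)) g σ = g * ynorm (2 ^ (a - 2)) g σ * g⁻¹ := mul_left_cancel h1
    rw [← hs] at h3
    calc g * s = g * s * g⁻¹ * g := by group
      _ = s * g := by rw [← h3]
  have hsR : s ∈ R := by
    rw [hs]
    exact ynorm_mem Y.gR hσR _
  have hcom : ∀ i l : ℕ, τ ^ i * g ^ l = g ^ l * τ ^ i := by
    intro i l
    have h1 : Commute τ g := Y.hgτ.symm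
    exact (h1.pow_pow i l).eq
  rw [← hs]
  have hp3 : ∃ j, (s * τ) ^ (3 ^ j) = 1 := by
    have hmem : s * τ ∈ (R ⊔ zpowers τ : Subgroup X) :=
      mul_mem (mem_sup_left hsR) (mem_sup_right (mem_zpowers τ))
    obtain ⟨j, hj⟩ := Y.hR3 ⟨s * τ, hmem⟩
    refine ⟨j, ?_⟩
    have h1 := congrArg Subtype.val hj
    simpa using h1
  refine ⟨?_, hp3, ?_, ?_, ?_, ?_⟩
  · rw [← mul_assoc, hgs, mul_assoc, Y.hgτ, mul_assoc]
  · obtain ⟨j, hj⟩ := hp3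
    exact ye_pm hexp hj
  · obtain ⟨hinv1, _, hinv3⟩ := yP_inv ha Y h (τ₁ := τ) le_rfl
    have hg1 : g ∈ closure {g, τ} := subset_closure (Set.mem_insert _ _)
    have hτ1 : τ ∈ closure {g, τ} :=
      subset_closure (Set.mem_insert_of_mem _ (Set.mem_singleton τ))
    have hn : ∀ n, ∀ z ∈ yP g τ E x, ynorm n g σ * z * (ynorm n g σ)⁻¹ ∈ yP g τ E x := by
      intro n
      induction n with
      | zero =>
        intro z hz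
        rw [ynorm_zero, one_mul, inv_one, mul_one]
        exact hz
      | succ n ih =>
        intro z hz
        have h1 := ih _ (hinv3 (g ^ n) (Subgroup.pow_mem _ hg1 n) σ Y.σE z hz)
        rw [ynorm_succ]
        have h2 : ynorm n g σ * (g ^ n * σ * (g ^ n)⁻¹) * z *
            (ynorm n g σ * (g ^ n * σ * (g ^ n)⁻¹))⁻¹ = ynorm n g σ *
            (g ^ n * σ * (g ^ n)⁻¹ * z * (g ^ n * σ * (g ^ n)⁻¹)⁻¹) * (ynorm n g σ)⁻¹ := by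
          group
        rw [h2]
        exact h1
    intro z hz
    have h1 := hn (2 ^ (a - 2)) _ (hinv1 τ hτ1 z hz)
    rw [← hs] at h1
    have h2 : s * τ * z * (s * τ)⁻¹ = s * (τ * z * τ⁻¹) * s⁻¹ := by group
    rw [h2]
    exact h1
  · have hn : ∀ n, 1 ≤ n → n ≤ 2 ^ (a - 2) → ∀ v ∈ Q₀,
        ynorm n g σ * v * (ynorm n g σ)⁻¹ = σ * v * σ⁻¹ := by
      intro n h1n
      induction n, h1n using Nat.le_induction with
      | base =>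
        intro _ v _
        rw [ynorm_one]
      | succ n h1n ih =>
        intro hn v hv
        have h1 := (Y.outg n (by omega) (by omega)).1 σ Y.σE v hv
        have h2 : ynorm n g σ * (g ^ n * σ * (g ^ n)⁻¹) * v *
            (ynorm n g σ * (g ^ n * σ * (g ^ n)⁻¹))⁻¹ = ynorm n g σ *
            ((g ^ n * σ * (g ^ n)⁻¹ * v) * (g ^ n * σ * (g ^ n)⁻¹)⁻¹) * (ynorm n g σ)⁻¹ := by
          group
        rw [ynorm_succ, h2, h1, mul_inv_cancel_right]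
        exact ih (by omega) v hv
    rw [hs]
    exact hn _ hM1 le_rfl
  · intro i hi0 hi v hv
    have hf : ∀ n : ℕ, (g ^ n * σ * (g ^ n)⁻¹) * (τ ^ i * v * (τ ^ i)⁻¹) =
        (τ ^ i * v * (τ ^ i)⁻¹) * (g ^ n * σ * (g ^ n)⁻¹) := by
      intro n
      have hg0 : g ∈ closure {g} := subset_closure (Set.mem_singleton g)
      have hcl : (g ^ n)⁻¹ ∈ closure {g} := (closure {g}).inv_mem ((closure {g}).pow_mem hg0 n)
      have h1 := (Y.outτ i hi0 hi ((g ^ n)⁻¹) hcl).2.1 σ Y.σE v hv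
      have h2 : g ^ n * ((τ ^ i * (g ^ n)⁻¹) * v * (τ ^ i * (g ^ n)⁻¹)⁻¹) * (g ^ n)⁻¹ =
          τ ^ i * v * (τ ^ i)⁻¹ := by
        have h3 : g ^ n * (τ ^ i * (g ^ n)⁻¹) = τ ^ i := by
          rw [← mul_assoc, ← hcom, mul_assoc, mul_inv_cancel, mul_one]
        calc g ^ n * ((τ ^ i * (g ^ n)⁻¹) * v * (τ ^ i * (g ^ n)⁻¹)⁻¹) * (g ^ n)⁻¹
            = (g ^ n * (τ ^ i * (g ^ n)⁻¹)) * v * (g ^ n * (τ ^ i * (g ^ n)⁻¹))⁻¹ := by group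
          _ = τ ^ i * v * (τ ^ i)⁻¹ := by rw [h3]
      rw [← h2]
      calc (g ^ n * σ * (g ^ n)⁻¹) *
            (g ^ n * ((τ ^ i * (g ^ n)⁻¹) * v * (τ ^ i * (g ^ n)⁻¹)⁻¹) * (g ^ n)⁻¹)
          = g ^ n * (σ * ((τ ^ i * (g ^ n)⁻¹) * v * (τ ^ i * (g ^ n)⁻¹)⁻¹)) * (g ^ n)⁻¹ := by
            group
        _ = g ^ n * ((τ ^ i * (g ^ n)⁻¹) * v * (τ ^ i * (g ^ n)⁻¹)⁻¹ * σ) * (g ^ n)⁻¹ := by
            rw [h1]
        _ = _ := by group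
    have hn : ∀ n, ynorm n g σ * (τ ^ i * v * (τ ^ i)⁻¹) =
        (τ ^ i * v * (τ ^ i)⁻¹) * ynorm n g σ := by
      intro n
      induction n with
      | zero => rw [ynorm_zero, one_mul, mul_one]
      | succ n ih => rw [ynorm_succ, mul_assoc, hf n, ← mul_assoc, ih, mul_assoc]
    rw [hs, hn, mul_inv_cancel_right]

end Pool.Agent.Lib.MP_544bd1_al
end

section

/-!
Theorem Z (paper 287), 4.8: the conjugates by powers of the new element.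
-/

namespace Pool.Agent.Lib.MP_544bd1_al

open Subgroup

variable {m a k : ℕ} {X : Type} [Group X] [Finite X] {Q Q₀ Z R E : Subgroup X}
  {g τ y c μ σ x : X}


/-- **The conjugates by powers of `τ'`.**

Proof. Let `s`, `τ' = s * τ` as in `ye_tau1`. Induction on `n`; let `i = n % 3 ^ k`, `j = n / 3 ^ k`,
`u = σ ^ j * v * (σ ^ j)⁻¹ ∈ Q₀` (`Y.RQ₀`). `τ' ^ (n + 1) * v * (..)⁻¹ = s * (τ ^ (i + 1) * u * (τ ^ (i + 1))⁻¹) * s⁻¹`.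
If `i + 1 < 3 ^ k`: this is `τ ^ (i + 1) * u * (τ ^ (i + 1))⁻¹` (`ye_tau1`), and
`(n + 1) % 3 ^ k = i + 1`, `(n + 1) / 3 ^ k = j`. If `i + 1 = 3 ^ k`: `τ ^ (3 ^ k)` acts trivially on `Q`
(`Y.τ₀`), so this is `s * u * s⁻¹ = σ * u * σ⁻¹`, and `(n + 1) % 3 ^ k = 0`, `(n + 1) / 3 ^ k = j + 1`. -/
theorem ye_tau2 (ha : 3 ≤ a) (hexp : ∀ x : X, x ^ (m * 2 ^ a) = 1)
    (Y : YX a k Q Q₀ Z R E g τ y c μ σ) (h : YE Q₀ Z y c μ x) {v : X} (hv : v ∈ Q₀) (n : ℕ) :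
    (ynorm (2 ^ (a - 2)) g σ * τ) ^ n * v * ((ynorm (2 ^ (a - 2)) g σ * τ) ^ n)⁻¹ =
      (τ ^ (n % 3 ^ k) * σ ^ (n / 3 ^ k)) * v * (τ ^ (n % 3 ^ k) * σ ^ (n / 3 ^ k))⁻¹ := by
  obtain ⟨-, -, -, -, hs0, hs1⟩ := ye_tau1 ha hexp Y h
  generalize ynorm (2 ^ (a - 2)) g σ = s at hs0 hs1 ⊢
  have hσR : σ ∈ R := Y.ER Y.σE
  have h3 : 0 < 3 ^ k := by positivity
  induction n with
  | zero => simp
  | succ n ih =>
    have hu : σ ^ (n / 3 ^ k) * v * (σ ^ (n / 3 ^ k))⁻¹ ∈ Q₀ :=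
      Y.RQ₀ _ (pow_mem hσR _) _ hv
    have key : (s * τ) ^ (n + 1) * v * ((s * τ) ^ (n + 1))⁻¹ =
        s * (τ ^ (n % 3 ^ k + 1) * (σ ^ (n / 3 ^ k) * v * (σ ^ (n / 3 ^ k))⁻¹) *
          (τ ^ (n % 3 ^ k + 1))⁻¹) * s⁻¹ := by
      have e1 : (s * τ) ^ (n + 1) * v * ((s * τ) ^ (n + 1))⁻¹ =
          (s * τ) * ((s * τ) ^ n * v * ((s * τ) ^ n)⁻¹) * (s * τ)⁻¹ := by
        rw [pow_succ' (s * τ) n]
        simp only [mul_inv_rev, mul_assoc]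
      rw [e1, ih, pow_succ' τ]
      simp only [mul_inv_rev, mul_assoc]
    rw [key]
    by_cases hi : n % 3 ^ k + 1 < 3 ^ k
    · have hmod : (n + 1) % 3 ^ k = n % 3 ^ k + 1 := by
        rw [Nat.add_mod]
        have : 1 % 3 ^ k = 1 := Nat.mod_eq_of_lt (by omega)
        rw [this]; exact Nat.mod_eq_of_lt hi
      have hdiv : (n + 1) / 3 ^ k = n / 3 ^ k := by
        have h1 := Nat.div_add_mod (n + 1) (3 ^ k)
        have h2 := Nat.div_add_mod n (3 ^ k)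
        rw [hmod] at h1
        have h4 : 3 ^ k * ((n + 1) / 3 ^ k) = 3 ^ k * (n / 3 ^ k) := by omega
        exact Nat.eq_of_mul_eq_mul_left h3 h4
      rw [hs1 _ (Nat.succ_pos _) hi _ hu, hmod, hdiv]
      simp only [mul_inv_rev, mul_assoc]
    · have hi' : n % 3 ^ k + 1 = 3 ^ k := by
        have := Nat.mod_lt n h3
        omega
      have hdiv : (n + 1) / 3 ^ k = n / 3 ^ k + 1 := by
        have h2 := Nat.div_add_mod n (3 ^ k)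
        have h4 : n + 1 = 3 ^ k * (n / 3 ^ k + 1) := by rw [mul_add, mul_one]; omega
        rw [h4, Nat.mul_div_cancel_left _ h3]
      have hmod : (n + 1) % 3 ^ k = 0 := by
        have h2 := Nat.div_add_mod n (3 ^ k)
        have h4 : n + 1 = 3 ^ k * (n / 3 ^ k + 1) := by rw [mul_add, mul_one]; omega
        rw [h4, Nat.mul_mod_right]
      rw [hi', hmod, hdiv]
      have ht : τ ^ 3 ^ k * (σ ^ (n / 3 ^ k) * v * (σ ^ (n / 3 ^ k))⁻¹) * (τ ^ 3 ^ k)⁻¹ =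
          σ ^ (n / 3 ^ k) * v * (σ ^ (n / 3 ^ k))⁻¹ := by
        have := Y.τ₀
        have h5 := this.1 _ (Y.QQ hu)
        exact h5
      rw [ht, hs0 _ hu, pow_succ' σ]
      simp only [mul_inv_rev, mul_assoc, pow_zero, one_mul]

end Pool.Agent.Lib.MP_544bd1_al
end

section

/-!
Theorem Z (paper 287), 4.5-4.8: P is elementary abelian.
-/

namespace Pool.Agent.Lib.MP_544bd1_al

open Subgroup

variable {a k : ℕ} {X : Type} [Group X] [Finite X] {Q Q₀ Z R E : Subgroup X} {g τ y c μ σ : X} {x τ₁ : X}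

/-- conjugates of `x` by `E` commute -/
theorem yP_two_aux (Y : YX a k Q Q₀ Z R E g τ y c μ σ) (h : YE Q₀ Z y c μ x)
    (h2 : x ^ 2 = 1) {r r' : X} (hr : r ∈ E) (hr' : r' ∈ E) :
    Commute (r * x * r⁻¹) (r' * x * r'⁻¹) := by
  have h1 := yk_comm Y h h2 (r⁻¹ * r') (E.mul_mem (E.inv_mem hr) hr')
  have h3 : Commute x (r⁻¹ * r' * x * (r⁻¹ * r')⁻¹) := h1
  have h4 : Commute (r * x * r⁻¹) (r * (r⁻¹ * r' * x * (r⁻¹ * r')⁻¹) * r⁻¹) := by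
    show r * x * r⁻¹ * (r * (r⁻¹ * r' * x * (r⁻¹ * r')⁻¹) * r⁻¹) =
      r * (r⁻¹ * r' * x * (r⁻¹ * r')⁻¹) * r⁻¹ * (r * x * r⁻¹)
    calc r * x * r⁻¹ * (r * (r⁻¹ * r' * x * (r⁻¹ * r')⁻¹) * r⁻¹)
        = r * (x * (r⁻¹ * r' * x * (r⁻¹ * r')⁻¹)) * r⁻¹ := by group
      _ = r * ((r⁻¹ * r' * x * (r⁻¹ * r')⁻¹) * x) * r⁻¹ := by rw [h3.eq]
      _ = _ := by group
  have h5 : r * (r⁻¹ * r' * x * (r⁻¹ * r')⁻¹) * r⁻¹ = r' * x * r'⁻¹ := by group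
  rwa [h5] at h4

/-- **`P` is elementary abelian if `x ^ 2 = 1`.**

Proof. It suffices that the generators `u = (h * r) * x * (h * r)⁻¹`, `u' = (h' * r') * x * (h' * r')⁻¹`
commute (their squares are 1; then `closure_induction`). Conjugate by `h⁻¹`: with `h'' = h⁻¹ * h'`,
`r * x * r⁻¹` and `h'' * (r' * x * r'⁻¹) * h''⁻¹`. `Y.tri h''`: trivial action: `yk_comm` for
`r⁻¹ * r'`; `y`: `y * (r' * x * r'⁻¹) * y⁻¹ = s * x⁻¹ * s⁻¹` with `s = y * r' * y⁻¹ ∈ E`, `yk_comm`;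
`YOut`: last part of `YOut` (`r * x * r⁻¹, r' * x * r'⁻¹ ∈ Q₀`). -/
theorem yP_two (ha : 3 ≤ a) (Y : YX a k Q Q₀ Z R E g τ y c μ σ) (h : YE Q₀ Z y c μ x)
    (h2 : x ^ 2 = 1) (hτ₁ : closure {g, τ₁} ≤ closure {g, τ}) : ∀ z ∈ yP g τ₁ E x, z ^ 2 = 1 := by
  have key : ∀ u ∈ {z | ∃ h ∈ closure {g, τ₁}, ∃ r ∈ E, z = (h * r) * x * (h * r)⁻¹},
      ∀ u' ∈ {z | ∃ h ∈ closure {g, τ₁}, ∃ r ∈ E, z = (h * r) * x * (h * r)⁻¹},
      Commute u u' := by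
    rintro u ⟨w, hw, r, hr, rfl⟩ u' ⟨w', hw', r', hr', rfl⟩
    have hq : ∀ s ∈ E, s * x * s⁻¹ ∈ Q₀ := fun s hs => Y.RQ₀ s (Y.ER hs) x h.h0
    have hmain : Commute (r * x * r⁻¹) ((w⁻¹ * w') * (r' * x * r'⁻¹) * (w⁻¹ * w')⁻¹) := by
      rcases Y.tri (w⁻¹ * w') (hτ₁ (mul_mem (inv_mem hw) hw')) with h3 | h3 | h3
      · rw [h3.1 _ (Y.QQ (hq r' hr'))]
        exact yP_two_aux Y h h2 hr hr'
      · have h4 := h3.1 _ (Y.QQ (hq r' hr'))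
        have h5 : (w⁻¹ * w') * (r' * x * r'⁻¹) * (w⁻¹ * w')⁻¹ =
            ((y * r' * y⁻¹) * x * (y * r' * y⁻¹)⁻¹)⁻¹ := by
          have h6 : (w⁻¹ * w') * (r' * x * r'⁻¹) * (w⁻¹ * w')⁻¹ =
              y * ((y⁻¹ * (w⁻¹ * w')) * (r' * x * r'⁻¹) * (y⁻¹ * (w⁻¹ * w'))⁻¹) * y⁻¹ := by group
          rw [h6, h4]
          have h7 : y * (r' * x * r'⁻¹) * y⁻¹ =
              (y * r' * y⁻¹) * (y * x * y⁻¹) * (y * r' * y⁻¹)⁻¹ := by group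
          rw [h7, h.hy]
          group
        rw [h5]
        exact (yP_two_aux Y h h2 hr (Y.yE r' hr')).inv_right
      · exact (h3.2.2.2 _ (hq r hr) _ (hq r' hr')).symm
    show (w * r) * x * (w * r)⁻¹ * ((w' * r') * x * (w' * r')⁻¹) =
      (w' * r') * x * (w' * r')⁻¹ * ((w * r) * x * (w * r)⁻¹)
    calc (w * r) * x * (w * r)⁻¹ * ((w' * r') * x * (w' * r')⁻¹)
        = w * ((r * x * r⁻¹) * ((w⁻¹ * w') * (r' * x * r'⁻¹) * (w⁻¹ * w')⁻¹)) * w⁻¹ := by group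
      _ = w * (((w⁻¹ * w') * (r' * x * r'⁻¹) * (w⁻¹ * w')⁻¹) * (r * x * r⁻¹)) * w⁻¹ := by
          rw [hmain.eq]
      _ = _ := by group
  have hcomm : ∀ u ∈ yP g τ₁ E x, ∀ u' ∈ yP g τ₁ E x, Commute u u' := by
    intro u hu u' hu'
    exact Subgroup.closure_induction₂ (p := fun a b _ _ => Commute a b)
      (fun a b ha hb => key a ha b hb)
      (fun _ _ => Commute.one_left _) (fun _ _ => Commute.one_right _)
      (fun _ _ _ _ _ _ h h' => h.mul_left h') (fun _ _ _ _ _ _ h h' => h.mul_right h')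
      (fun _ _ _ _ h => h.inv_left) (fun _ _ _ _ h => h.inv_right) hu hu'
  intro z hz
  refine Subgroup.closure_induction (p := fun z _ => z ^ 2 = 1) ?_ ?_ ?_ ?_ hz
  · rintro u ⟨w, -, r, -, rfl⟩
    have : (w * r * x * (w * r)⁻¹) ^ 2 = (w * r) * x ^ 2 * (w * r)⁻¹ := by
      rw [pow_two, pow_two]; group
    rw [this, h2, mul_one, mul_inv_cancel]
  · exact one_pow 2
  · intro u v hu hv h3 h4
    rw [(hcomm u hu v hv).mul_pow, h3, h4, one_mul]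
  · intro u _ h3
    rw [inv_pow, h3, inv_one]

end Pool.Agent.Lib.MP_544bd1_al
end

section

/-!
Theorem Z (paper 287), 4.5: the derived data of a block, assembly.
-/

namespace Pool.Agent.Lib.MP_544bd1_al

open Subgroup

variable {m a k : ℕ} {X : Type} [Group X] {Q R : Subgroup X} {g τ e e' c : X}

/-- elementary facts on `e`, `e'` -/
theorem yk_e (ha : 3 ≤ a) (B : YBk m a k Q R g τ e e' c) :
    e' ^ 3 = 1 ∧ e' ∈ R ∧ c ∈ R ∧ closure {e, e'} ≤ R ∧ g ^ (2 ^ (a - 2)) * e * (g ^ (2 ^ (a - 2)))⁻¹ = e' ∧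
      g ^ (2 ^ (a - 2)) * e' * (g ^ (2 ^ (a - 2)))⁻¹ = e ∧
      (∀ n, ∀ r ∈ R, g ^ n * r * (g ^ n)⁻¹ ∈ R) ∧ ∀ n, ∀ x ∈ Q, g ^ n * x * (g ^ n)⁻¹ ∈ Q := by
  have hpR : ∀ n, ∀ r ∈ R, g ^ n * r * (g ^ n)⁻¹ ∈ R := by
    intro n
    induction n with
    | zero => intro r hr; simpa using hr
    | succ n ih =>
      intro r hr
      have h1 := B.hgR _ (ih r hr)
      have h2 : g ^ (n + 1) * r * (g ^ (n + 1))⁻¹ = g * (g ^ n * r * (g ^ n)⁻¹) * g⁻¹ := by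
        rw [pow_succ']; group
      rw [h2]
      exact h1
  have hpQ : ∀ n, ∀ r ∈ Q, g ^ n * r * (g ^ n)⁻¹ ∈ Q := by
    intro n
    induction n with
    | zero => intro r hr; simpa using hr
    | succ n ih =>
      intro r hr
      have h1 := B.hgQ _ (ih r hr)
      have h2 : g ^ (n + 1) * r * (g ^ (n + 1))⁻¹ = g * (g ^ n * r * (g ^ n)⁻¹) * g⁻¹ := by
        rw [pow_succ']; group
      rw [h2]
      exact h1
  have he' : g ^ (2 ^ (a - 2)) * e * (g ^ (2 ^ (a - 2)))⁻¹ = e' := B.he'.symm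
  have he'R : e' ∈ R := by rw [← he']; exact hpR _ _ B.he
  have hcR : c ∈ R := by
    rw [B.hc]
    exact R.mul_mem (R.mul_mem (R.mul_mem B.he he'R) (R.inv_mem B.he)) (R.inv_mem he'R)
  have hER : closure ({e, e'} : Set X) ≤ R := by
    rw [closure_le]
    rintro z (rfl | rfl)
    · exact B.he
    · exact he'R
  refine ⟨?_, he'R, hcR, hER, he', ?_, hpR, hpQ⟩
  · rw [← he', conj_pow, B.he3, mul_one, mul_inv_cancel]
  · have h1 : g ^ (2 ^ (a - 2)) * e' * (g ^ (2 ^ (a - 2)))⁻¹ =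
        g ^ (2 ^ (a - 1)) * e * (g ^ (2 ^ (a - 1)))⁻¹ := by
      have h2 : 2 ^ (a - 1) = 2 ^ (a - 2) + 2 ^ (a - 2) := by
        have h1 : a - 1 = (a - 2) + 1 := by omega
        rw [h1, pow_succ]
        ring
      rw [h2, pow_add, ← he']
      group
    rw [h1, B.κR e B.he, mul_inv_cancel_right]

/-- **The derived data.** -/
theorem yk_X (ha : 3 ≤ a) [Finite X] (B : YBk m a k Q R g τ e e' c) :
    YX a k Q (y0 Q c) (yZ Q) R (closure {e, e'}) g τ (g ^ (2 ^ (a - 2))) c (e * e'⁻¹)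
      (e * e' * c) := by
  obtain ⟨he'3, he'R, hcR, hER, hye, hye', hpR, hpQ⟩ := yk_e ha B
  obtain ⟨z1, z2, z3, z4, z5, z6⟩ := yk_Z B.sqQ B.sqR B.sq4
  have hce := B.cen e B.he
  have hce' := B.cen e' he'R
  obtain ⟨c1, c2, c3, c4, c5⟩ := yk_E B.he3 he'3 B.hc hce hce'
  obtain ⟨d1, d2, d3, d4⟩ := yk_Ey B.he3 B.hc hce hce' c1 hye hye'
  have hcQ : ∀ x ∈ Q, c * x * c⁻¹ ∈ Q := B.hRQ c hcR
  have hcZ : ∀ z ∈ yZ Q, c * z = z * c := fun z hz => (z4 z hz c hcR).symm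
  obtain ⟨q1, q2, q3, q4⟩ := yk_0 z1 z5 z6 z2 hcQ hcZ c1
  have hκ : YTr Q R (g ^ (2 ^ (a - 1))) :=
    ⟨fun x hx => by rw [B.κQ x hx, mul_inv_cancel_right],
      fun x hx => by rw [B.κR x hx, mul_inv_cancel_right]⟩
  have hτ : YTr Q R (τ ^ (3 ^ k)) :=
    ⟨fun x hx => by rw [B.τQ x hx, mul_inv_cancel_right],
      fun x hx => by rw [B.τR x hx, mul_inv_cancel_right]⟩
  have heE : e ∈ closure ({e, e'} : Set X) := subset_closure (by simp)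
  have he'E : e' ∈ closure ({e, e'} : Set X) := subset_closure (by simp)
  have hcE : c ∈ closure ({e, e'} : Set X) := by
    rw [B.hc]
    exact mul_mem (mul_mem (mul_mem heE he'E) (inv_mem heE)) (inv_mem he'E)
  obtain ⟨t1, t2, t3, t4⟩ := yk_tri ha q1 hER B.hgτ hκ hτ
    (fun i l hi hl h => yk_out ha B hi hl h)
  have hex : ∀ r ∈ R, ∀ x ∈ Q, r * x * r⁻¹ * x⁻¹ ∈ yZ Q → r * x = x * r := by
    intro r hr x hx h
    obtain ⟨j, hj⟩ := B.hR3 ⟨r, (le_sup_left : R ≤ R ⊔ zpowers τ) hr⟩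
    have hj' : r ^ (3 ^ j) = 1 := by
      have := congrArg Subtype.val hj
      simpa using this
    exact yk_ex (Odd.pow (by decide)) hj' z3 (fun z hz => z4 z hz r hr) h
  have hne : ∃ x ∈ y0 Q c, x ∉ yZ Q := by
    obtain ⟨x, hx, h1⟩ := B.ne
    refine ⟨x⁻¹ * (c * x * c⁻¹), subset_closure ⟨x, hx, rfl⟩, ?_⟩
    intro h2
    apply h1
    apply hex c hcR x hx
    have h3 : c * x * c⁻¹ * x⁻¹ = x⁻¹ * (c * x * c⁻¹) := by
      have h4 := z2 _ h2 x hx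
      have h5 : x * (x⁻¹ * (c * x * c⁻¹)) = c * x * c⁻¹ := by group
      rw [h5] at h4
      calc c * x * c⁻¹ * x⁻¹ = x⁻¹ * (c * x * c⁻¹) * x * x⁻¹ := by rw [h4]
        _ = x⁻¹ * (c * x * c⁻¹) := mul_inv_cancel_right _ _
    rw [h3]
    exact h2
  exact {
    hy := rfl
    hg := B.hg
    hgτ := B.hgτ
    hR3 := B.hR3
    hQ2 := B.hQ2
    gQ := B.hgQ
    τQ := B.hτQ
    RQ := B.hRQ
    gR := B.hgR
    τR := B.hτR
    κ := hκ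
    τ₀ := hτ
    ZQ := z1
    Z2 := z3
    Zc := z2
    ZR := z4
    Zg := yk_Zh B.hgQ
    Zτ := yk_Zh B.hτQ
    sq := z5
    cm := z6
    QQ := q1
    RQ₀ := fun r hr => yk_0r (B.cen r hr) (B.hRQ r hr)
    yQ₀ := yk_0y c1 hcQ (hpQ _) d1
    fix := q4
    nrm := q3
    ex := hex
    ne := hne
    ER := hER
    cE := hcE
    μE := mul_mem heE (inv_mem he'E)
    σE := mul_mem (mul_mem heE he'E) hcE
    yE := d4
    cR := B.cen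
    c3 := c1
    μ3 := c2
    σ3 := c3
    σμ := c4
    form := c5
    yc := d1
    yμ := d2
    yσ := d3
    tri := t1
    outg := t2
    outτ := t3
    outgτ := t4 }

end Pool.Agent.Lib.MP_544bd1_al
end

section

/-!
Theorem Z (paper 287), 4.8: the first instance of Lemma C.
-/

namespace Pool.Agent.Lib.MP_544bd1_al

open Subgroup

variable {m a k : ℕ} {X : Type} [Group X] [Finite X] {Q Q₀ Z R E : Subgroup X}
  {g τ y c μ σ x : X}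


/-- **`LC(g, c, p')`, `p' = c * x * c⁻¹`.**

Proof. `P = yP g τ E x` is elementary abelian (`yP_two`), normalized by `g` and `c` (`yP_inv`), `≤ Q`
(`yP_le`), so centralized by `g ^ (2 ^ (a - 1))` (`Y.κ`). `x ∈ P`, `q = c * x * c⁻¹ ∈ P`, `q ≠ 1`.
`ye_lc` with `α = g`, `ρ = c`, `n = 1`. `c ^ m = 1`: `ye_pm`. `hinv`: `Y.yc`, `Y.hy`. `hz`: `ye_norm` with
`v = q * (y * q * y⁻¹)`. `y * q * y⁻¹ = c⁻¹ * x⁻¹ * c`, and `x⁻¹ = x`, `c⁻¹ = c ^ 2`, so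
`v = (c * x * c⁻¹) * (c ^ 2 * x * (c ^ 2)⁻¹) = x⁻¹ = x` by `h.h3`. `hout`: `g ^ l * x * (g ^ l)⁻¹` commutes
with `c` (`Y.outg`, second part of `YOut`). Result: `x * (c * x * c⁻¹) = (c ^ 2 * x * (c ^ 2)⁻¹)⁻¹ =
c * (c * x * c⁻¹) * c⁻¹` (an involution). -/
theorem ye_lc0 (ha : 3 ≤ a) (hexp : ∀ x : X, x ^ (m * 2 ^ a) = 1)
    (Y : YX a k Q Q₀ Z R E g τ y c μ σ) (h : YE Q₀ Z y c μ x) (h2 : x ^ 2 = 1) :
    ∃ Q₁ : Subgroup X, Q₁ ≤ yP g τ E x ∧ (∀ z ∈ yP g τ E x, c * z * c⁻¹ ∈ yP g τ E x) ∧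
      YLC m a Q₁ g c (c * x * c⁻¹) := by
  have hP2 : ∀ z ∈ yP g τ E x, z ^ 2 = 1 := yP_two ha Y h h2 le_rfl
  have hgm : g ∈ closure {g, τ} := subset_closure (Set.mem_insert _ _)
  have hgP : ∀ z ∈ yP g τ E x, g * z * g⁻¹ ∈ yP g τ E x := (yP_inv ha Y h le_rfl).1 g hgm
  have hcP : ∀ z ∈ yP g τ E x, c * z * c⁻¹ ∈ yP g τ E x := (yP_inv ha Y h le_rfl).2.1 c Y.cE
  have hq : c * x * c⁻¹ ∈ yP g τ E x := by
    refine subset_closure ⟨1, one_mem _, c, Y.cE, ?_⟩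
    rw [one_mul]
  have hcen : ∀ z ∈ yP g τ E x, g ^ (2 ^ (a - 1)) * z = z * g ^ (2 ^ (a - 1)) := by
    intro z hz
    have h3 := Y.κ.1 z (yP_le Y h le_rfl hz)
    exact mul_inv_eq_iff_eq_mul.1 h3
  have hxi : x⁻¹ = x := by
    rw [inv_eq_iff_mul_eq_one, ← pow_two, h2]
  have hci : c⁻¹ = c ^ 2 := by
    rw [inv_eq_iff_mul_eq_one, ← pow_succ', Y.c3]
  have hq1 : c * x * c⁻¹ ≠ 1 := by
    intro h0
    apply h.hZ
    have h3 : x = 1 := conj_eq_one_iff.1 h0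
    rw [h3]
    exact one_mem _
  have hyq : y * (c * x * c⁻¹) * y⁻¹ = c ^ 2 * x * (c ^ 2)⁻¹ := by
    have h3 : y * (c * x * c⁻¹) * y⁻¹ = (y * c * y⁻¹) * (y * x * y⁻¹) * (y * c * y⁻¹)⁻¹ := by
      group
    rw [h3, Y.yc, h.hy, hxi, ← hci]
  have hv : c * x * c⁻¹ * (g ^ (2 ^ (a - 2)) * (c * x * c⁻¹) * (g ^ (2 ^ (a - 2)))⁻¹) = x := by
    rw [← Y.hy, hyq]
    have h3 := h.h3
    rw [mul_assoc] at h3
    rw [← hxi]
    exact (inv_eq_of_mul_eq_one_right (by rw [hxi]; exact h3)).symm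
  have hout : ∀ l, 0 < l → l < 2 ^ (a - 2) →
      c * (g ^ l * x * (g ^ l)⁻¹) = g ^ l * x * (g ^ l)⁻¹ * c := by
    intro l hl hl2
    exact ((Y.outg l hl hl2).2.1 c Y.cE x h.h0).symm
  have hcm : c ^ m = 1 := ye_pm (j := 1) hexp (by rw [pow_one]; exact Y.c3)
  have hinv : g ^ (2 ^ (a - 2)) * c * (g ^ (2 ^ (a - 2)))⁻¹ = c⁻¹ := by
    rw [← Y.hy]
    exact Y.yc
  have hz := ye_norm ha hP2 hgP hcP hq hv.symm hout
  refine ye_lc hP2 Y.hg hcm hinv hgP hcP hq hq1 hcen (n := 1) ?_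
  rw [hz, pow_one]
  have h3 := h.h3
  have h4 : x * (c * x * c⁻¹) = (c ^ 2 * x * (c ^ 2)⁻¹)⁻¹ := eq_inv_of_mul_eq_one_left h3
  rw [h4]
  have h5 : (c ^ 2 * x * (c ^ 2)⁻¹)⁻¹ = c ^ 2 * x⁻¹ * (c ^ 2)⁻¹ := by group
  rw [h5, hxi]
  simp only [pow_two, mul_inv_rev, mul_assoc]

end Pool.Agent.Lib.MP_544bd1_al
end

section

/-!
Theorem Z (paper 287), 4.8: the element w_I is not trivial.
-/

namespace Pool.Agent.Lib.MP_544bd1_al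

open Subgroup

variable {m a k : ℕ} {X : Type} [Group X] [Finite X] {Q Q₀ Z R E : Subgroup X}
  {g τ y c μ σ x : X}


private def zex1 {X : Type} [Group X] (c z : X) : X := z * (c * z * c⁻¹)

private def zex2 {X : Type} [Group X] (μ z : X) : X := z * (μ * z * μ⁻¹) * (μ ^ 2 * z * (μ ^ 2)⁻¹)

private theorem zex1_mul {X : Type} [Group X] {P : Subgroup X} (hP : ∀ u ∈ P, ∀ v ∈ P, u * v = v * u)
    {c : X} (hc : ∀ u ∈ P, c * u * c⁻¹ ∈ P) {u v : X} (hu : u ∈ P) (hv : v ∈ P) :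
    zex1 c (u * v) = zex1 c u * zex1 c v := by
  simp only [zex1]
  calc u * v * (c * (u * v) * c⁻¹) = u * (v * (c * u * c⁻¹)) * (c * v * c⁻¹) := by group
    _ = u * ((c * u * c⁻¹) * v) * (c * v * c⁻¹) := by rw [hP v hv _ (hc u hu)]
    _ = u * (c * u * c⁻¹) * (v * (c * v * c⁻¹)) := by group

private theorem zex2_mul {X : Type} [Group X] {P : Subgroup X} (hP : ∀ u ∈ P, ∀ v ∈ P, u * v = v * u)
    {μ : X} (hc : ∀ u ∈ P, μ * u * μ⁻¹ ∈ P) {u v : X} (hu : u ∈ P) (hv : v ∈ P) :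
    zex2 μ (u * v) = zex2 μ u * zex2 μ v := by
  have h2 : ∀ u ∈ P, μ ^ 2 * u * (μ ^ 2)⁻¹ ∈ P := by
    intro u hu
    have h1 := hc _ (hc u hu)
    have h2 : μ * (μ * u * μ⁻¹) * μ⁻¹ = μ ^ 2 * u * (μ ^ 2)⁻¹ := by rw [pow_two]; group
    rwa [h2] at h1
  have h1 : ∀ z, zex2 μ z = zex1 μ z * (μ ^ 2 * z * (μ ^ 2)⁻¹) := fun z => rfl
  rw [h1, h1, h1, zex1_mul hP hc hu hv]
  have h3 : zex1 μ v ∈ P := P.mul_mem hv (hc v hv)
  calc zex1 μ u * zex1 μ v * (μ ^ 2 * (u * v) * (μ ^ 2)⁻¹)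
      = zex1 μ u * (zex1 μ v * (μ ^ 2 * u * (μ ^ 2)⁻¹)) * (μ ^ 2 * v * (μ ^ 2)⁻¹) := by group
    _ = zex1 μ u * ((μ ^ 2 * u * (μ ^ 2)⁻¹) * zex1 μ v) * (μ ^ 2 * v * (μ ^ 2)⁻¹) := by
        rw [hP _ h3 _ (h2 u hu)]
    _ = zex1 μ u * (μ ^ 2 * u * (μ ^ 2)⁻¹) * (zex1 μ v * (μ ^ 2 * v * (μ ^ 2)⁻¹)) := by
        simp only [mul_assoc]

/-- **`w_I ≠ 1`.**

Proof. `P = yP g τ E x` is elementary abelian (`yP_two`), so commutative. Let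
`D₁ z = z * (c * z * c⁻¹)`, `D₂ z = z * (μ * z * μ⁻¹) * (μ ^ 2 * z * (μ ^ 2)⁻¹)`, `D = D₂ ∘ D₁`: they map
`P` to `P` (`yP_inv`) and are multiplicative on `P`. `ynorm N τ' x` is the product of the
`s_n = τ ^ i * X_j * (τ ^ i)⁻¹`, `n < N`, `i = n % 3 ^ k`, `j = n / 3 ^ k`, `X_j = σ ^ j * x * (σ ^ j)⁻¹`
(`ynorm_succ`, `ye_tau2`), `j < 3`. If `i ≠ 0` then `c` commutes with `s_n` (`Y.outτ` with `h = 1`, second
part of `YOut`), so `D₁ s_n = s_n ^ 2 = 1`. If `i = 0`, `j = 1, 2`: `μ` acts on `X_j` and on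
`c * X_j * c⁻¹` as `c ^ (2 * j)` (`yk_mu`, `c` central in `R`), so `D₂ (D₁ X_j)` is `D₁` of
`X_j * (c * X_j * c⁻¹) * (c ^ 2 * X_j * (c ^ 2)⁻¹) = 1` (in some order; `h.h3` conjugated by `σ ^ j`). So
for `1 ≤ N ≤ 3 ^ (k + 1)`: `D (ynorm N τ' x) = D (s_0) = D₂ (D₁ x) = (D₁ x) ^ 3 = D₁ x` (`μ` commutes with
`x` and `c`), and `D₁ x = x * (c * x * c⁻¹) ≠ 1`, because it is the inverse of
`c ^ 2 * x * (c ^ 2)⁻¹ ≠ 1` (`h.h3`, `h.hZ`). So `ynorm N τ' x ≠ 1`. -/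
theorem ye_wI_ne (ha : 3 ≤ a) (hexp : ∀ x : X, x ^ (m * 2 ^ a) = 1)
    (Y : YX a k Q Q₀ Z R E g τ y c μ σ) (h : YE Q₀ Z y c μ x) (h2 : x ^ 2 = 1) {N : ℕ} (hN : 0 < N)
    (hN3 : N ≤ 3 ^ (k + 1)) : ynorm N (ynorm (2 ^ (a - 2)) g σ * τ) x ≠ 1 := by
  have hsq : ∀ z ∈ yP g τ E x, z ^ 2 = 1 := yP_two ha Y h h2 le_rfl
  have hinvP := yP_inv (τ₁ := τ) ha Y h le_rfl
  have hPE : ∀ s ∈ E, ∀ z ∈ yP g τ E x, s * z * s⁻¹ ∈ yP g τ E x := hinvP.2.1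
  have hcomm : ∀ u ∈ yP g τ E x, ∀ v ∈ yP g τ E x, u * v = v * u := by
    intro u hu v hv
    have e1 := hsq _ (mul_mem hu hv)
    have e2 := hsq u hu
    have e3 := hsq v hv
    rw [pow_two] at e1 e2 e3
    have e4 : u⁻¹ = u := inv_eq_of_mul_eq_one_left e2
    have e5 : v⁻¹ = v := inv_eq_of_mul_eq_one_left e3
    have e6 : (u * v)⁻¹ = u * v := inv_eq_of_mul_eq_one_left e1
    rw [← e6, mul_inv_rev, e4, e5]
  have hcP := hPE c Y.cE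
  have hμP := hPE μ Y.μE
  have hcμ : c * μ = μ * c := Y.cR μ (Y.ER Y.μE)
  have hgen : ∀ i j : ℕ, (τ ^ i * σ ^ j) * x * (τ ^ i * σ ^ j)⁻¹ ∈ yP g τ E x := fun i j =>
    subset_closure ⟨τ ^ i, pow_mem (subset_closure (by simp)) i, σ ^ j, pow_mem Y.σE j, rfl⟩
  set τ' := ynorm (2 ^ (a - 2)) g σ * τ with hτ'
  -- the factors
  have hs : ∀ n, τ' ^ n * x * (τ' ^ n)⁻¹ ∈ yP g τ E x := by
    intro n
    rw [hτ', ye_tau2 ha hexp Y h h.h0 n]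
    exact hgen _ _
  have h11 : zex1 c (1 : X) = 1 := by simp [zex1]
  have h21 : zex2 μ (1 : X) = 1 := by simp [zex2]
  have hf : ∀ n, 0 < n → n < 3 ^ (k + 1) → zex2 μ (zex1 c (τ' ^ n * x * (τ' ^ n)⁻¹)) = 1 := by
    intro n hn hn3
    have hsn := hs n
    have hform := ye_tau2 ha hexp Y h h.h0 n
    rw [← hτ'] at hform
    rcases Nat.eq_zero_or_pos (n % 3 ^ k) with hi | hi
    · -- `i = 0`
      have hj0 : 0 < n / 3 ^ k := by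
        rcases Nat.eq_zero_or_pos (n / 3 ^ k) with h0 | h0
        · have := Nat.div_add_mod n (3 ^ k)
          rw [h0, hi] at this
          omega
        · exact h0
      have hj3 : n / 3 ^ k < 3 := by
        rw [Nat.div_lt_iff_lt_mul (by positivity)]
        calc n < 3 ^ (k + 1) := hn3
          _ = 3 * 3 ^ k := by rw [pow_succ, mul_comm]
      rw [hi, pow_zero, one_mul] at hform
      set j := n / 3 ^ k with hj
      rw [hform]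
      rw [hform] at hsn
      set w := σ ^ j * x * (σ ^ j)⁻¹ with hw
      have hmu : μ * w * μ⁻¹ = c ^ (2 * j) * w * (c ^ (2 * j))⁻¹ := yk_mu Y h j
      have hμc : ∀ l : ℕ, μ * (c ^ l * w * (c ^ l)⁻¹) * μ⁻¹ =
          c ^ (l + 2 * j) * w * (c ^ (l + 2 * j))⁻¹ := by
        intro l
        have e1 : μ * c ^ l = c ^ l * μ := by
          have e2 : Commute μ c := hcμ.symm
          exact (e2.pow_right l).eq
        calc μ * (c ^ l * w * (c ^ l)⁻¹) * μ⁻¹ = (μ * c ^ l) * w * (μ * c ^ l)⁻¹ := by group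
          _ = (c ^ l * μ) * w * (c ^ l * μ)⁻¹ := by rw [e1]
          _ = c ^ l * (μ * w * μ⁻¹) * (c ^ l)⁻¹ := by group
          _ = c ^ l * (c ^ (2 * j) * w * (c ^ (2 * j))⁻¹) * (c ^ l)⁻¹ := by rw [hmu]
          _ = c ^ (l + 2 * j) * w * (c ^ (l + 2 * j))⁻¹ := by rw [pow_add]; group
      have hcl : ∀ l : ℕ, c ^ l * w * (c ^ l)⁻¹ ∈ yP g τ E x := fun l =>
        hPE _ (pow_mem Y.cE l) w hsn
      have hper : ∀ l : ℕ, c ^ (l + 3) * w * (c ^ (l + 3))⁻¹ = c ^ l * w * (c ^ l)⁻¹ := by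
        intro l
        rw [pow_add, Y.c3, mul_one]
      have hD1 : zex1 c w = (c ^ 0 * w * (c ^ 0)⁻¹) * (c ^ 1 * w * (c ^ 1)⁻¹) := by
        simp [zex1]
      have hD2 : μ * zex1 c w * μ⁻¹ = (c ^ (0 + 2 * j) * w * (c ^ (0 + 2 * j))⁻¹) *
          (c ^ (1 + 2 * j) * w * (c ^ (1 + 2 * j))⁻¹) := by
        rw [hD1, ← hμc, ← hμc]
        group
      have hD3 : μ ^ 2 * zex1 c w * (μ ^ 2)⁻¹ =
          (c ^ (0 + 2 * j + 2 * j) * w * (c ^ (0 + 2 * j + 2 * j))⁻¹) *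
          (c ^ (1 + 2 * j + 2 * j) * w * (c ^ (1 + 2 * j + 2 * j))⁻¹) := by
        have e1 : μ ^ 2 * zex1 c w * (μ ^ 2)⁻¹ = μ * (μ * zex1 c w * μ⁻¹) * μ⁻¹ := by
          rw [pow_two]; group
        rw [e1, hD2, ← hμc (0 + 2 * j), ← hμc (1 + 2 * j)]
        group
      have hA := hcl 0
      have hB := hcl 1
      have hC := hcl 2
      have hAA := hsq _ hA
      have hBB := hsq _ hB
      have hCC := hsq _ hC
      have hAB := hcomm _ hA _ hB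
      have hAC := hcomm _ hA _ hC
      have hBC := hcomm _ hB _ hC
      have hfin : ∀ A B C : X, A ^ 2 = 1 → B ^ 2 = 1 → C ^ 2 = 1 → A * B = B * A → A * C = C * A →
          B * C = C * B → (A * B) * (C * A) * (B * C) = 1 := by
        intro A B C a1 a2 a3 a4 a5 a6
        calc (A * B) * (C * A) * (B * C) = A * (B * C) * (A * (B * C)) := by group
          _ = A * (B * C) * ((B * C) * A) := by
              have : A * (B * C) = (B * C) * A := by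
                rw [← mul_assoc, a4, mul_assoc, a5, ← mul_assoc]
              rw [this]
          _ = A * (B * (C * (B * C))) * A := by group
          _ = A * (B * (C * (C * B))) * A := by rw [a6]
          _ = A * (B * (C ^ 2 * B)) * A := by rw [pow_two]; group
          _ = A * B ^ 2 * A := by rw [a3, pow_two]; group
          _ = A ^ 2 := by rw [a2, pow_two]; group
          _ = 1 := a1
      have hfin2 : ∀ A B C : X, A ^ 2 = 1 → B ^ 2 = 1 → C ^ 2 = 1 → A * B = B * A → A * C = C * A →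
          B * C = C * B → (A * B) * (B * C) * (C * A) = 1 := by
        intro A B C a1 a2 a3 a4 a5 a6
        calc (A * B) * (B * C) * (C * A) = A * (B ^ 2) * (C ^ 2) * A := by
              rw [pow_two, pow_two]; group
          _ = A ^ 2 := by rw [a2, a3, pow_two]; group
          _ = 1 := a1
      have hz : zex2 μ (zex1 c w) = zex1 c w * (μ * zex1 c w * μ⁻¹) *
          (μ ^ 2 * zex1 c w * (μ ^ 2)⁻¹) := rfl
      rw [hz, hD3, hD2, hD1]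
      have hj12 : j = 1 ∨ j = 2 := by omega
      rcases hj12 with hj1 | hj1
      · rw [hj1]
        have e1 : c ^ (1 + 2 * 1) * w * (c ^ (1 + 2 * 1))⁻¹ = c ^ 0 * w * (c ^ 0)⁻¹ := hper 0
        have e2 : c ^ (0 + 2 * 1 + 2 * 1) * w * (c ^ (0 + 2 * 1 + 2 * 1))⁻¹ =
          c ^ 1 * w * (c ^ 1)⁻¹ := hper 1
        have e3 : c ^ (1 + 2 * 1 + 2 * 1) * w * (c ^ (1 + 2 * 1 + 2 * 1))⁻¹ =
          c ^ 2 * w * (c ^ 2)⁻¹ := hper 2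
        rw [e1, e2, e3]
        exact hfin _ _ _ hAA hBB hCC hAB hAC hBC
      · rw [hj1]
        have e1 : c ^ (0 + 2 * 2) * w * (c ^ (0 + 2 * 2))⁻¹ = c ^ 1 * w * (c ^ 1)⁻¹ := hper 1
        have e2 : c ^ (1 + 2 * 2) * w * (c ^ (1 + 2 * 2))⁻¹ = c ^ 2 * w * (c ^ 2)⁻¹ := hper 2
        have e3 : c ^ (0 + 2 * 2 + 2 * 2) * w * (c ^ (0 + 2 * 2 + 2 * 2))⁻¹ =
          c ^ 2 * w * (c ^ 2)⁻¹ := (hper 5).trans (hper 2)
        have e4 : c ^ (1 + 2 * 2 + 2 * 2) * w * (c ^ (1 + 2 * 2 + 2 * 2))⁻¹ =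
          c ^ 0 * w * (c ^ 0)⁻¹ := ((hper 6).trans (hper 3)).trans (hper 0)
        rw [e1, e2, e3, e4]
        exact hfin2 _ _ _ hAA hBB hCC hAB hAC hBC
    · -- `i > 0`
      have hi3 : n % 3 ^ k < 3 ^ k := Nat.mod_lt _ (by positivity)
      have hout := Y.outτ _ hi hi3 1 (one_mem _)
      rw [mul_one] at hout
      have hq : σ ^ (n / 3 ^ k) * x * (σ ^ (n / 3 ^ k))⁻¹ ∈ Q₀ :=
        Y.RQ₀ _ (Y.ER (pow_mem Y.σE _)) x h.h0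
      have hc := hout.2.1 c Y.cE _ hq
      have e1 : τ' ^ n * x * (τ' ^ n)⁻¹ = τ ^ (n % 3 ^ k) *
          (σ ^ (n / 3 ^ k) * x * (σ ^ (n / 3 ^ k))⁻¹) * (τ ^ (n % 3 ^ k))⁻¹ := by
        rw [hform]; group
      rw [← e1] at hc
      have e2 : zex1 c (τ' ^ n * x * (τ' ^ n)⁻¹) = 1 := by
        have e3 := hsq _ hsn
        rw [pow_two] at e3
        simp only [zex1]
        rw [← hc, mul_inv_cancel_right, e3]
      rw [e2, h21]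
  have hμx : μ * x * μ⁻¹ = x := by rw [h.hμ, mul_inv_cancel_right]
  have hx0 : x ∈ yP g τ E x := by
    have := hgen 0 0
    simpa using this
  have hfx : zex2 μ (zex1 c x) = zex1 c x := by
    have e1 : μ * zex1 c x * μ⁻¹ = zex1 c x := by
      simp only [zex1]
      calc μ * (x * (c * x * c⁻¹)) * μ⁻¹ = (μ * x * μ⁻¹) * ((μ * c) * x * (μ * c)⁻¹) := by group
        _ = (μ * x * μ⁻¹) * ((c * μ) * x * (c * μ)⁻¹) := by rw [hcμ]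
        _ = (μ * x * μ⁻¹) * (c * (μ * x * μ⁻¹) * c⁻¹) := by group
        _ = x * (c * x * c⁻¹) := by rw [hμx]
    have e2 : μ ^ 2 * zex1 c x * (μ ^ 2)⁻¹ = zex1 c x := by
      have e3 : μ ^ 2 * zex1 c x * (μ ^ 2)⁻¹ = μ * (μ * zex1 c x * μ⁻¹) * μ⁻¹ := by
        rw [pow_two]; group
      rw [e3, e1, e1]
    have e3 : zex1 c x ^ 2 = 1 := hsq _ (mul_mem hx0 (hcP x hx0))
    have e4 : zex2 μ (zex1 c x) = zex1 c x * (μ * zex1 c x * μ⁻¹) *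
      (μ ^ 2 * zex1 c x * (μ ^ 2)⁻¹) := rfl
    rw [e4, e2, e1, ← pow_two, e3, one_mul]
  have hmain : ∀ M : ℕ, 0 < M → M ≤ 3 ^ (k + 1) →
      ynorm M τ' x ∈ yP g τ E x ∧ zex2 μ (zex1 c (ynorm M τ' x)) = zex1 c x := by
    intro M
    induction M with
    | zero => intro h0; omega
    | succ M ih =>
      intro _ hM
      rcases Nat.eq_zero_or_pos M with h0 | h0
      · subst h0
        rw [zero_add, ynorm_one]
        exact ⟨hx0, hfx⟩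
      · obtain ⟨i1, i2⟩ := ih h0 (by omega)
        rw [ynorm_succ]
        refine ⟨mul_mem i1 (hs M), ?_⟩
        have hz1 : ∀ z ∈ yP g τ E x, zex1 c z ∈ yP g τ E x := fun z hz => mul_mem hz (hcP z hz)
        rw [zex1_mul hcomm hcP i1 (hs M), zex2_mul hcomm hμP (hz1 _ i1) (hz1 _ (hs M)), i2,
          hf M h0 (by omega), mul_one]
  intro hcon
  have h5 := (hmain N hN hN3).2
  rw [hcon, h11, h21] at h5
  have h6 := h.h3
  have h7 : x * (c * x * c⁻¹) = 1 := h5.symm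
  rw [h7, one_mul] at h6
  have h8 : x = 1 := by
    have e1 : x = (c ^ 2)⁻¹ * (c ^ 2 * x * (c ^ 2)⁻¹) * c ^ 2 := by group
    rw [e1, h6]
    group
  apply h.hZ
  rw [h8]
  exact one_mem _

end Pool.Agent.Lib.MP_544bd1_al
end

section

/-!
Theorem Z (paper 287), 4.8: the element w_I.
-/

namespace Pool.Agent.Lib.MP_544bd1_al

open Subgroup

variable {m a k : ℕ} {X : Type} [Group X] [Finite X] {Q Q₀ Z R E : Subgroup X}
  {g τ y c μ σ x : X}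


/-- conjugation by `c_I` of the conjugates by powers of `τ'` -/
private theorem ye_wI_1 (ha : 3 ≤ a) (hexp : ∀ x : X, x ^ (m * 2 ^ a) = 1)
    (Y : YX a k Q Q₀ Z R E g τ y c μ σ) (h : YE Q₀ Z y c μ x) {v : X} (hv : v ∈ Q₀) (n : ℕ) :
    ynorm (3 ^ k) τ c * ((ynorm (2 ^ (a - 2)) g σ * τ) ^ n * v *
        ((ynorm (2 ^ (a - 2)) g σ * τ) ^ n)⁻¹) * (ynorm (3 ^ k) τ c)⁻¹ =
      (ynorm (2 ^ (a - 2)) g σ * τ) ^ n * (c * v * c⁻¹) *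
        ((ynorm (2 ^ (a - 2)) g σ * τ) ^ n)⁻¹ := by
  have hlt : n % 3 ^ k < 3 ^ k := Nat.mod_lt _ (by positivity)
  have hσ : σ ^ (n / 3 ^ k) ∈ R := R.pow_mem (Y.ER Y.σE) _
  have hu : σ ^ (n / 3 ^ k) * v * (σ ^ (n / 3 ^ k))⁻¹ ∈ Q₀ := Y.RQ₀ _ hσ v hv
  have hcv : c * v * c⁻¹ ∈ Q₀ := Y.RQ₀ c (Y.ER Y.cE) v hv
  have h1 := (ye_cI ha hexp Y h).1 _ hlt _ hu
  have h2 : c * σ ^ (n / 3 ^ k) = σ ^ (n / 3 ^ k) * c := Y.cR _ hσ
  rw [ye_tau2 ha hexp Y h hv n, ye_tau2 ha hexp Y h hcv n]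
  have h3 : c * (σ ^ (n / 3 ^ k) * v * (σ ^ (n / 3 ^ k))⁻¹) * c⁻¹ =
      σ ^ (n / 3 ^ k) * (c * v * c⁻¹) * (σ ^ (n / 3 ^ k))⁻¹ := by
    calc c * (σ ^ (n / 3 ^ k) * v * (σ ^ (n / 3 ^ k))⁻¹) * c⁻¹
        = (c * σ ^ (n / 3 ^ k)) * v * (c * σ ^ (n / 3 ^ k))⁻¹ := by group
      _ = (σ ^ (n / 3 ^ k) * c) * v * (σ ^ (n / 3 ^ k) * c)⁻¹ := by rw [h2]
      _ = _ := by group
  rw [h3] at h1
  calc _ = ynorm (3 ^ k) τ c * (τ ^ (n % 3 ^ k) *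
        (σ ^ (n / 3 ^ k) * v * (σ ^ (n / 3 ^ k))⁻¹) * (τ ^ (n % 3 ^ k))⁻¹) *
          (ynorm (3 ^ k) τ c)⁻¹ := by group
    _ = _ := by rw [h1]
    _ = _ := by group

private theorem ye_wI_2 (ha : 3 ≤ a) (hexp : ∀ x : X, x ^ (m * 2 ^ a) = 1)
    (Y : YX a k Q Q₀ Z R E g τ y c μ σ) (h : YE Q₀ Z y c μ x) {v : X} (hv : v ∈ Q₀) (N : ℕ) :
    ynorm (3 ^ k) τ c * ynorm N (ynorm (2 ^ (a - 2)) g σ * τ) v * (ynorm (3 ^ k) τ c)⁻¹ =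
      ynorm N (ynorm (2 ^ (a - 2)) g σ * τ) (c * v * c⁻¹) := by
  induction N with
  | zero =>
    rw [ynorm_zero, ynorm_zero]
    group
  | succ N ih =>
    rw [ynorm_succ, ynorm_succ, ← ih, ← ye_wI_1 ha hexp Y h hv N]
    group

/-- **`w_I = ynorm (3 ^ (k + 1)) τ' x`, `τ' = ynorm (2 ^ (a - 2)) g σ * τ`, `c_I = ynorm (3 ^ k) τ c`.**

Proof. `P = yP g τ E x` is elementary abelian (`yP_two`), so commutative, normalized by `τ'`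
(`ye_tau1`), `c_I` (`ye_cI`), `g`. `w_I` is the product of the `s_n = τ' ^ n * x * (τ' ^ n)⁻¹ ∈ P`,
`n < 3 ^ (k + 1)` (`ynorm_succ`); `s_n = τ ^ i * X_j * (τ ^ i)⁻¹` with `i = n % 3 ^ k`, `j = n / 3 ^ k`,
`X_j = σ ^ j * x * (σ ^ j)⁻¹ ∈ Q₀` (`ye_tau2`). (1) `c_I * s_n * c_I⁻¹ = τ ^ i * (c * X_j * c⁻¹) * (τ ^ i)⁻¹`
(`ye_cI`) `= τ' ^ n * (c * x * c⁻¹) * (τ' ^ n)⁻¹` (`ye_tau2` for `v = c * x * c⁻¹`; `σ` and `c` commute).
So `c_I * ynorm N τ' x * c_I⁻¹ = ynorm N τ' (c * x * c⁻¹)` by induction on `N`. (2) the same with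
`h.h3`: `s_n * (c_I * s_n * c_I⁻¹) * (c_I ^ 2 * s_n * (c_I ^ 2)⁻¹)` is the conjugate by `τ' ^ n` of
`x * (c * x * c⁻¹) * (c ^ 2 * x * (c ^ 2)⁻¹) = 1`; the map `z ↦ z * (c_I * z * c_I⁻¹) * (c_I ^ 2 * z * (c_I ^ 2)⁻¹)`
is multiplicative on `P`. (3) `y` is a power of `g`, it commutes with `τ'` (`ye_tau1`) and
`y * x * y⁻¹ = x⁻¹ = x` : `ynorm_conj`. (4) `c_I` commutes with `g ^ l * s_n * (g ^ l)⁻¹`: `ye_cI`, last part
with `t = τ ^ i`, `v = X_j`. -/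
theorem ye_wI (ha : 3 ≤ a) (hexp : ∀ x : X, x ^ (m * 2 ^ a) = 1)
    (Y : YX a k Q Q₀ Z R E g τ y c μ σ) (h : YE Q₀ Z y c μ x) (h2 : x ^ 2 = 1) (N : ℕ) :
    ynorm (3 ^ k) τ c * ynorm N (ynorm (2 ^ (a - 2)) g σ * τ) x * (ynorm (3 ^ k) τ c)⁻¹ =
        ynorm N (ynorm (2 ^ (a - 2)) g σ * τ) (c * x * c⁻¹) ∧
      ynorm N (ynorm (2 ^ (a - 2)) g σ * τ) x *
        (ynorm (3 ^ k) τ c * ynorm N (ynorm (2 ^ (a - 2)) g σ * τ) x * (ynorm (3 ^ k) τ c)⁻¹) *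
        (ynorm (3 ^ k) τ c ^ 2 * ynorm N (ynorm (2 ^ (a - 2)) g σ * τ) x *
          (ynorm (3 ^ k) τ c ^ 2)⁻¹) = 1 ∧
      y * ynorm N (ynorm (2 ^ (a - 2)) g σ * τ) x * y⁻¹ =
        ynorm N (ynorm (2 ^ (a - 2)) g σ * τ) x ∧
      ∀ l, 0 < l → l < 2 ^ (a - 2) →
        ynorm (3 ^ k) τ c * (g ^ l * ynorm N (ynorm (2 ^ (a - 2)) g σ * τ) x * (g ^ l)⁻¹) =
          g ^ l * ynorm N (ynorm (2 ^ (a - 2)) g σ * τ) x * (g ^ l)⁻¹ * ynorm (3 ^ k) τ c := by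
  have hcx : c * x * c⁻¹ ∈ Q₀ := Y.RQ₀ c (Y.ER Y.cE) x h.h0
  obtain ⟨t1, -, -, t4, -, -⟩ := ye_tau1 ha hexp Y h
  have hxP : x ∈ yP g τ E x := by
    refine subset_closure ⟨1, Subgroup.one_mem _, 1, E.one_mem, ?_⟩
    group
  have hE := (yP_inv ha Y h (τ₁ := τ) le_rfl).2.1
  have hcP : c * x * c⁻¹ ∈ yP g τ E x := hE c Y.cE x hxP
  have hccP : c * (c * x * c⁻¹) * c⁻¹ ∈ yP g τ E x := hE c Y.cE _ hcP
  have hcomm := ys_comm (yP_two ha Y h h2 (τ₁ := τ) le_rfl)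
  refine ⟨ye_wI_2 ha hexp Y h h.h0 N, ?_, ?_, ?_⟩
  · have h3 : ynorm (3 ^ k) τ c ^ 2 * ynorm N (ynorm (2 ^ (a - 2)) g σ * τ) x *
        (ynorm (3 ^ k) τ c ^ 2)⁻¹ =
        ynorm (3 ^ k) τ c * (ynorm (3 ^ k) τ c * ynorm N (ynorm (2 ^ (a - 2)) g σ * τ) x *
          (ynorm (3 ^ k) τ c)⁻¹) * (ynorm (3 ^ k) τ c)⁻¹ := by
      rw [pow_two]
      group
    rw [h3, ye_wI_2 ha hexp Y h h.h0 N, ye_wI_2 ha hexp Y h hcx N,
      ← ynorm_mul t4 hcomm hxP hcP,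
      ← ynorm_mul t4 hcomm ((yP g τ E x).mul_mem hxP hcP) hccP]
    have h4 : x * (c * x * c⁻¹) * (c * (c * x * c⁻¹) * c⁻¹) = 1 := by
      rw [← h.h3, pow_two]
      group
    rw [h4]
    simp [ynorm]
  · have h5 : (ynorm (2 ^ (a - 2)) g σ * τ) * y = y * (ynorm (2 ^ (a - 2)) g σ * τ) := by
      rw [Y.hy]
      exact (Commute.pow_left (show Commute g (ynorm (2 ^ (a - 2)) g σ * τ) from t1) _).symm
    have h6 : x⁻¹ = x := inv_eq_of_mul_eq_one_left (by rw [← pow_two]; exact h2)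
    rw [ynorm_conj N h5, h.hy, h6]
  · intro l hl0 hl
    induction N with
    | zero =>
      rw [ynorm_zero]
      group
    | succ N ih =>
      have hσ : σ ^ (N / 3 ^ k) ∈ R := R.pow_mem (Y.ER Y.σE) _
      have hu : σ ^ (N / 3 ^ k) * x * (σ ^ (N / 3 ^ k))⁻¹ ∈ Q₀ := Y.RQ₀ _ hσ x h.h0
      have h7 := (ye_cI ha hexp Y h).2.2.2.2.2 l hl0 hl (τ ^ (N % 3 ^ k))
        (Subgroup.pow_mem _ (Subgroup.mem_closure_singleton_self τ) _) _ hu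
      have h8 : (g ^ l * τ ^ (N % 3 ^ k)) * (σ ^ (N / 3 ^ k) * x * (σ ^ (N / 3 ^ k))⁻¹) *
          (g ^ l * τ ^ (N % 3 ^ k))⁻¹ = g ^ l * ((ynorm (2 ^ (a - 2)) g σ * τ) ^ N * x *
            ((ynorm (2 ^ (a - 2)) g σ * τ) ^ N)⁻¹) * (g ^ l)⁻¹ := by
        rw [ye_tau2 ha hexp Y h h.h0 N]
        group
      rw [h8] at h7
      have h9 : g ^ l * ynorm (N + 1) (ynorm (2 ^ (a - 2)) g σ * τ) x * (g ^ l)⁻¹ =
          (g ^ l * ynorm N (ynorm (2 ^ (a - 2)) g σ * τ) x * (g ^ l)⁻¹) *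
            (g ^ l * ((ynorm (2 ^ (a - 2)) g σ * τ) ^ N * x *
              ((ynorm (2 ^ (a - 2)) g σ * τ) ^ N)⁻¹) * (g ^ l)⁻¹) := by
        rw [ynorm_succ]
        group
      rw [h9, ← mul_assoc, ih, mul_assoc, h7, ← mul_assoc]

end Pool.Agent.Lib.MP_544bd1_al
end

section

/-!
Theorem Z (paper 287), 4.8: the second instance of Lemma C.
-/

namespace Pool.Agent.Lib.MP_544bd1_al

open Subgroup

variable {m a k : ℕ} {X : Type} [Group X] [Finite X] {Q Q₀ Z R E : Subgroup X}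
  {g τ y c μ σ x : X}


/-- **The element `α = p' * g`, `p' = c * x * c⁻¹`.**

Proof. `P = yP g τ E x` is elementary abelian (`yP_two`), normalized by `g`, `E` (`yP_inv`), `p' ∈ P ≤ Q`
(`yP_le`), centralized by `κ = g ^ (2 ^ (a - 1))` (`Y.κ`). (1) `ys_pg_pow` with `M = 2 ^ (a - 1)`. (2), (3)
clear. (4) `α ^ (2 ^ (a - 1)) = ynorm _ g p' * κ` (`ynorm_pow`), the norm is in `P` (`ynorm_mem`). (5)
`ys_norm'` (ZsChain.lean) or: `α ^ l * z * (α ^ l)⁻¹ = g ^ l * z * (g ^ l)⁻¹` for `z ∈ P`. (6)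
`α ^ (2 ^ (a - 2)) = π * y`, `π = ynorm (2 ^ (a - 2)) g p'` (`ynorm_pow`, `Y.hy`), and `π` commutes with
`ρ` by `ynorm_succ` and induction (`hρ`), so `α ^ (2 ^ (a - 2)) * ρ * (..)⁻¹ = π * ρ⁻¹ * π⁻¹ = ρ⁻¹`. -/
theorem ye_alpha (ha : 3 ≤ a) (hexp : ∀ x : X, x ^ (m * 2 ^ a) = 1)
    (Y : YX a k Q Q₀ Z R E g τ y c μ σ) (h : YE Q₀ Z y c μ x) (h2 : x ^ 2 = 1) :
    ((c * x * c⁻¹) * g) ^ (2 ^ a) = 1 ∧ c * x * c⁻¹ ∈ yP g τ E x ∧
      (∀ z ∈ yP g τ E x, ((c * x * c⁻¹) * g) * z * ((c * x * c⁻¹) * g)⁻¹ ∈ yP g τ E x) ∧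
      (∀ z ∈ yP g τ E x, ((c * x * c⁻¹) * g) ^ (2 ^ (a - 1)) * z =
        z * ((c * x * c⁻¹) * g) ^ (2 ^ (a - 1))) ∧
      (∀ z ∈ yP g τ E x, ynorm (2 ^ (a - 1)) ((c * x * c⁻¹) * g) z = ynorm (2 ^ (a - 1)) g z) ∧
      ∀ ρ : X, y * ρ * y⁻¹ = ρ⁻¹ →
        (∀ l, l < 2 ^ (a - 2) → ρ * (g ^ l * (c * x * c⁻¹) * (g ^ l)⁻¹) =
          g ^ l * (c * x * c⁻¹) * (g ^ l)⁻¹ * ρ) →
        ((c * x * c⁻¹) * g) ^ (2 ^ (a - 2)) * ρ * (((c * x * c⁻¹) * g) ^ (2 ^ (a - 2)))⁻¹ = ρ⁻¹ := by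
  have hP2 : ∀ z ∈ yP g τ E x, z ^ 2 = 1 := yP_two ha Y h h2 le_rfl
  have hgm : g ∈ closure {g, τ} := subset_closure (Set.mem_insert _ _)
  have hgP : ∀ z ∈ yP g τ E x, g * z * g⁻¹ ∈ yP g τ E x := (yP_inv ha Y h le_rfl).1 g hgm
  have hp : c * x * c⁻¹ ∈ yP g τ E x := by
    refine subset_closure ⟨1, one_mem _, c, Y.cE, ?_⟩
    rw [one_mul]
  have hcen : ∀ z ∈ yP g τ E x, g ^ (2 ^ (a - 1)) * z = z * g ^ (2 ^ (a - 1)) := by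
    intro z hz
    have h3 := Y.κ.1 z (yP_le Y h le_rfl hz)
    exact mul_inv_eq_iff_eq_mul.1 h3
  have h2a : 2 * 2 ^ (a - 1) = 2 ^ a := by
    rw [← pow_succ']
    congr 1
    omega
  obtain ⟨k1, k2, k3, k4, k5, k6, k7⟩ := ys_norm (by omega : 1 ≤ a) (yP g τ E x) hP2 hgP hp hcen
  refine ⟨?_, hp, ?_, ?_, ?_, ?_⟩
  · have h3 := ys_pg_pow (M := 2 ^ (a - 1)) hgP hP2 hp hcen (by rw [h2a]; exact Y.hg)
    rwa [h2a] at h3
  · intro z hz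
    have h3 : c * x * c⁻¹ * g * z * (c * x * c⁻¹ * g)⁻¹ =
        c * x * c⁻¹ * (g * z * g⁻¹) * (c * x * c⁻¹)⁻¹ := by group
    rw [h3]
    exact mul_mem (mul_mem hp (hgP z hz)) (inv_mem hp)
  · intro z hz
    rw [k5, mul_assoc, hcen z hz, ← mul_assoc, ← mul_assoc, k2 _ (k1 _) z hz]
  · intro z hz
    exact ys_norm' (by omega : 1 ≤ a) (yP g τ E x) hP2 hgP hp hz hcen _
  · intro ρ hρ hout
    have hπ : ∀ n, n ≤ 2 ^ (a - 2) → ynorm n g (c * x * c⁻¹) * ρ = ρ * ynorm n g (c * x * c⁻¹) := by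
      intro n
      induction n with
      | zero => intro _; rw [ynorm_zero, one_mul, mul_one]
      | succ n ih =>
        intro hn
        rw [ynorm_succ, mul_assoc, ← hout n (by omega), ← mul_assoc, ih (by omega), mul_assoc]
    rw [k5, ← Y.hy]
    have h3 := hπ _ le_rfl
    have h4 : ynorm (2 ^ (a - 2)) g (c * x * c⁻¹) * y * ρ *
        (ynorm (2 ^ (a - 2)) g (c * x * c⁻¹) * y)⁻¹ =
        ynorm (2 ^ (a - 2)) g (c * x * c⁻¹) * (y * ρ * y⁻¹) *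
          (ynorm (2 ^ (a - 2)) g (c * x * c⁻¹))⁻¹ := by group
    rw [h4, hρ]
    have h5 : ynorm (2 ^ (a - 2)) g (c * x * c⁻¹) * ρ⁻¹ =
        ρ⁻¹ * ynorm (2 ^ (a - 2)) g (c * x * c⁻¹) := (show Commute _ _ from h3).inv_right
    rw [h5, mul_assoc, mul_inv_cancel, mul_one]

end Pool.Agent.Lib.MP_544bd1_al
end

section

/-!
Theorem Z (paper 287), 4.8: the second instance of Lemma C.
-/

namespace Pool.Agent.Lib.MP_544bd1_al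

open Subgroup

variable {m a k : ℕ} {X : Type} [Group X] [Finite X] {Q Q₀ Z R E : Subgroup X}
  {g τ y c μ σ x : X}

private lemma zef_a {X : Type} [Group X] {t s c x : X} (hsc : s * c = c * s) :
    (t * s) * (c * x * c⁻¹) * (t * s)⁻¹ = t * (c * (s * x * s⁻¹) * c⁻¹) * t⁻¹ := by
  have e1 : (t * s) * (c * x * c⁻¹) * (t * s)⁻¹ = t * ((s * c) * x * (s * c)⁻¹) * t⁻¹ := by group
  rw [e1, hsc]
  group

private lemma zef_b {X : Type} [Group X] {u t c p : X} (hut : u * t = t * u)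
    (H : ((t * u⁻¹) * c * (t * u⁻¹)⁻¹) * p = p * ((t * u⁻¹) * c * (t * u⁻¹)⁻¹)) :
    (t * c * t⁻¹) * (u * p * u⁻¹) = u * p * u⁻¹ * (t * c * t⁻¹) := by
  have e1 : t * c * t⁻¹ = u * ((t * u⁻¹) * c * (t * u⁻¹)⁻¹) * u⁻¹ := by
    have e2 : u * ((t * u⁻¹) * c * (t * u⁻¹)⁻¹) * u⁻¹ = (u * t) * u⁻¹ * c * u * (u * t)⁻¹ := by
      group
    rw [e2, hut]
    group
  rw [e1]
  calc u * ((t * u⁻¹) * c * (t * u⁻¹)⁻¹) * u⁻¹ * (u * p * u⁻¹)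
      = u * (((t * u⁻¹) * c * (t * u⁻¹)⁻¹) * p) * u⁻¹ := by group
    _ = u * (p * ((t * u⁻¹) * c * (t * u⁻¹)⁻¹)) * u⁻¹ := by rw [H]
    _ = _ := by group

private lemma zef_c {X : Type} [Group X] {y t c : X} (hyt : y * t = t * y)
    (hyc : y * c * y⁻¹ = c⁻¹) : y * (t * c * t⁻¹) * y⁻¹ = (t * c * t⁻¹)⁻¹ := by
  have e1 : y * (t * c * t⁻¹) * y⁻¹ = (y * t) * c * (y * t)⁻¹ := by group
  rw [e1, hyt]
  have e2 : (t * y) * c * (t * y)⁻¹ = t * (y * c * y⁻¹) * t⁻¹ := by group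
  rw [e2, hyc]
  group

private lemma zef_d {X : Type} [Group X] {y s x : X} (hys : y * s * y⁻¹ = s)
    (hyx : y * x * y⁻¹ = x⁻¹) : y * (s * x * s⁻¹) * y⁻¹ = (s * x * s⁻¹)⁻¹ := by
  have e1 : y * (s * x * s⁻¹) * y⁻¹ = (y * s * y⁻¹) * (y * x * y⁻¹) * (y * s * y⁻¹)⁻¹ := by group
  rw [e1, hys, hyx]
  group

private lemma zef_e {X : Type} [Group X] {y t c w : X} (hyt : y * t = t * y)
    (hyc : y * c * y⁻¹ = c⁻¹) (hyw : y * w * y⁻¹ = w⁻¹) :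
    y * (t * (c * w * c⁻¹) * t⁻¹) * y⁻¹ = t * (c⁻¹ * w⁻¹ * c) * t⁻¹ := by
  have e1 : y * (t * (c * w * c⁻¹) * t⁻¹) * y⁻¹ = (y * t) * (c * w * c⁻¹) * (y * t)⁻¹ := by group
  rw [e1, hyt]
  have e2 : (t * y) * (c * w * c⁻¹) * (t * y)⁻¹ =
      t * ((y * c * y⁻¹) * (y * w * y⁻¹) * (y * c * y⁻¹)⁻¹) * t⁻¹ := by group
  rw [e2, hyc, hyw]
  group

private lemma zef_f {X : Type} [Group X] {s c x : X} (hsc : s * c = c * s)
    (h3 : x * (c * x * c⁻¹) * (c ^ 2 * x * (c ^ 2)⁻¹) = 1) :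
    (s * x * s⁻¹) * (c * (s * x * s⁻¹) * c⁻¹) * (c ^ 2 * (s * x * s⁻¹) * (c ^ 2)⁻¹) = 1 := by
  have hc : Commute s c := hsc
  have e1 : c * (s * x * s⁻¹) * c⁻¹ = s * (c * x * c⁻¹) * s⁻¹ := by
    have e : c * (s * x * s⁻¹) * c⁻¹ = (c * s) * x * (c * s)⁻¹ := by group
    rw [e, ← hsc]
    group
  have hc2 : s * c ^ 2 = c ^ 2 * s := hc.pow_right 2
  have e2 : c ^ 2 * (s * x * s⁻¹) * (c ^ 2)⁻¹ = s * (c ^ 2 * x * (c ^ 2)⁻¹) * s⁻¹ := by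
    have e : c ^ 2 * (s * x * s⁻¹) * (c ^ 2)⁻¹ = (c ^ 2 * s) * x * (c ^ 2 * s)⁻¹ := by group
    rw [e, ← hc2]
    group
  rw [e1, e2]
  have e3 : (s * x * s⁻¹) * (s * (c * x * c⁻¹) * s⁻¹) * (s * (c ^ 2 * x * (c ^ 2)⁻¹) * s⁻¹) =
      s * (x * (c * x * c⁻¹) * (c ^ 2 * x * (c ^ 2)⁻¹)) * s⁻¹ := by group
  rw [e3, h3]
  group


/-- **`LC(p' * g, τ ^ i * c * (τ ^ i)⁻¹, ...)`, `0 < i < 3 ^ k`.**

Proof. Let `p' = c * x * c⁻¹`, `t = τ ^ i`, `ρ = t * c * t⁻¹`, `q = (t * σ ^ j) * p' * (t * σ ^ j)⁻¹`,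
`P = yP g τ E x`, `w = σ ^ j * x * (σ ^ j)⁻¹`; `σ ^ j` commutes with `c`, so `q = t * (c * w * c⁻¹) * t⁻¹`.
`ye_lc` with `α = p' * g`, `n = 1`; `ye_alpha` gives the facts on `α`, `hinv`: `y * ρ * y⁻¹ = ρ⁻¹` (`y`
commutes with `τ`, `Y.yc`), and `ρ` commutes with `g ^ l * p' * (g ^ l)⁻¹` for all `l`: `p' ∈ Q₀`,
`YOut Q₀ E (τ ^ i * (g ^ l)⁻¹)` by `Y.outτ`, first part of `YOut` for `r = c`, `x = p'`, conjugated by
`g ^ l`. `ρ` normalizes `P` (`yP_inv`, third part, `h' = τ ^ i`). `hz`: by `ye_alpha` the norm is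
`ynorm _ g q`; `ye_norm` with `v = q * (y * q * y⁻¹)`; `y * w * y⁻¹ = w⁻¹ = w` (`Y.yσ`, `h.hy`),
`y * q * y⁻¹ = t * (c⁻¹ * w * c) * t⁻¹`, and `(c * w * c⁻¹) * (c⁻¹ * w * c) = w` (conjugate `h.h3` by
`σ ^ j`; `c⁻¹ = c ^ 2`, involutions commute in `P`), so `v = t * w * t⁻¹`. `hout`: `ρ` commutes with
`g ^ l * (t * w * t⁻¹) * (g ^ l)⁻¹` for `0 < l < 2 ^ (a - 2)`: conjugate by `t⁻¹`: `Y.outg`, second part.
Result `v * (ρ * v * ρ⁻¹) = t * (w * (c * w * c⁻¹)) * t⁻¹ = t * (c ^ 2 * w * (c ^ 2)⁻¹) * t⁻¹ =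
ρ * q * ρ⁻¹`. `ρ ^ m = 1`: `ye_pm`. `q ≠ 1`: `x ≠ 1` as `x ∉ Z`. -/
theorem ye_lcB (ha : 3 ≤ a) (hexp : ∀ x : X, x ^ (m * 2 ^ a) = 1)
    (Y : YX a k Q Q₀ Z R E g τ y c μ σ) (h : YE Q₀ Z y c μ x) (h2 : x ^ 2 = 1) {i : ℕ} (hi : 0 < i)
    (hi3 : i < 3 ^ k) (j : ℕ) :
    ∃ Q₁ : Subgroup X, Q₁ ≤ yP g τ E x ∧
      (∀ z ∈ yP g τ E x, (τ ^ i * c * (τ ^ i)⁻¹) * z * (τ ^ i * c * (τ ^ i)⁻¹)⁻¹ ∈ yP g τ E x) ∧
      YLC m a Q₁ ((c * x * c⁻¹) * g) (τ ^ i * c * (τ ^ i)⁻¹)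
        ((τ ^ i * σ ^ j) * (c * x * c⁻¹) * (τ ^ i * σ ^ j)⁻¹) := by
  obtain ⟨A1, A2, A3, A4, A5, A6⟩ := ye_alpha ha hexp Y h h2
  obtain ⟨I1, I2, I3⟩ := yP_inv ha Y h (τ₁ := τ) le_rfl
  have hP2 : ∀ z ∈ yP g τ E x, z ^ 2 = 1 := yP_two ha Y h h2 (τ₁ := τ) le_rfl
  have hgmem : g ∈ closure ({g, τ} : Set X) := subset_closure (by simp)
  have hτmem : τ ∈ closure ({g, τ} : Set X) := subset_closure (by simp)
  have htmem : τ ^ i ∈ closure ({g, τ} : Set X) := pow_mem hτmem i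
  have hgτ : Commute g τ := Y.hgτ
  have hyt : y * τ ^ i = τ ^ i * y := by
    rw [Y.hy]
    exact hgτ.pow_pow _ _
  have hσc : σ ^ j * c = c * σ ^ j := by
    have h4 : Commute c σ := Y.cR σ (Y.ER Y.σE)
    exact (h4.pow_right j).symm
  have hyσ : y * σ ^ j * y⁻¹ = σ ^ j := by
    rw [← conj_pow, Y.yσ]
  -- the element `w`
  set t := τ ^ i with ht
  set w := σ ^ j * x * (σ ^ j)⁻¹ with hw
  have hσj : σ ^ j ∈ E := pow_mem Y.σE j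
  have hwQ₀ : w ∈ Q₀ := Y.RQ₀ _ (Y.ER hσj) x h.h0
  have hpQ₀ : c * x * c⁻¹ ∈ Q₀ := Y.RQ₀ c (Y.ER Y.cE) x h.h0
  have hwP : w ∈ yP g τ E x := by
    refine subset_closure ⟨1, one_mem _, σ ^ j, hσj, ?_⟩
    rw [one_mul]
  have hqeq : (t * σ ^ j) * (c * x * c⁻¹) * (t * σ ^ j)⁻¹ = t * (c * w * c⁻¹) * t⁻¹ := zef_a hσc
  have hqP : (t * σ ^ j) * (c * x * c⁻¹) * (t * σ ^ j)⁻¹ ∈ yP g τ E x := by
    rw [hqeq]
    exact I1 t htmem _ (I2 c Y.cE w hwP)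
  have hq1 : (t * σ ^ j) * (c * x * c⁻¹) * (t * σ ^ j)⁻¹ ≠ 1 := by
    intro h4
    rw [conj_eq_one_iff, conj_eq_one_iff] at h4
    exact h.hZ (h4 ▸ Z.one_mem)
  have hw2 : w ^ 2 = 1 := hP2 w hwP
  have hwinv : w⁻¹ = w := inv_eq_of_mul_eq_one_left (by rw [← pow_two]; exact hw2)
  have hyw : y * w * y⁻¹ = w⁻¹ := zef_d hyσ h.hy
  have hw3 : w * (c * w * c⁻¹) * (c ^ 2 * w * (c ^ 2)⁻¹) = 1 := zef_f hσc h.h3
  have hc2 : c ^ 2 = c⁻¹ := by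
    apply eq_inv_of_mul_eq_one_left
    rw [← pow_succ]
    exact Y.c3
  have hw4 : (c * w * c⁻¹) * (c⁻¹ * w * c) = w := by
    rw [hc2, inv_inv, mul_assoc] at hw3
    rw [← inv_eq_of_mul_eq_one_right hw3, hwinv]
  have hw5 : w * (c * w * c⁻¹) = c * (c * w * c⁻¹) * c⁻¹ := by
    rw [eq_inv_of_mul_eq_one_left hw3]
    have e1 : (c ^ 2 * w * (c ^ 2)⁻¹)⁻¹ = c ^ 2 * w⁻¹ * (c ^ 2)⁻¹ := by group
    rw [e1, hwinv, pow_two]
    group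
  have hρm : (t * c * t⁻¹) ^ m = 1 := by
    apply ye_pm hexp (j := 1)
    rw [pow_one, conj_pow, Y.c3, mul_one, mul_inv_cancel]
  have hyρ : y * (t * c * t⁻¹) * y⁻¹ = (t * c * t⁻¹)⁻¹ := zef_c hyt Y.yc
  have hρout : ∀ l, l < 2 ^ (a - 2) → (t * c * t⁻¹) * (g ^ l * (c * x * c⁻¹) * (g ^ l)⁻¹) =
      g ^ l * (c * x * c⁻¹) * (g ^ l)⁻¹ * (t * c * t⁻¹) := by
    intro l _
    have h4 := (Y.outτ i hi hi3 ((g ^ l)⁻¹)
      (inv_mem (pow_mem (subset_closure (by simp)) l))).1 c Y.cE _ hpQ₀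
    exact zef_b (hgτ.pow_pow _ _) h4
  have hinv := A6 _ hyρ hρout
  have hρP : ∀ z ∈ yP g τ E x, (t * c * t⁻¹) * z * (t * c * t⁻¹)⁻¹ ∈ yP g τ E x :=
    I3 t htmem c Y.cE
  -- the norm
  have hv : t * w * t⁻¹ = (t * σ ^ j) * (c * x * c⁻¹) * (t * σ ^ j)⁻¹ *
      (g ^ (2 ^ (a - 2)) * ((t * σ ^ j) * (c * x * c⁻¹) * (t * σ ^ j)⁻¹) *
        (g ^ (2 ^ (a - 2)))⁻¹) := by
    rw [← Y.hy, hqeq, zef_e hyt Y.yc hyw, hwinv]
    have e1 : t * (c * w * c⁻¹) * t⁻¹ * (t * (c⁻¹ * w * c) * t⁻¹) =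
        t * ((c * w * c⁻¹) * (c⁻¹ * w * c)) * t⁻¹ := by group
    rw [e1, hw4]
  have hout : ∀ l, 0 < l → l < 2 ^ (a - 2) →
      (t * c * t⁻¹) * (g ^ l * (t * w * t⁻¹) * (g ^ l)⁻¹) =
        g ^ l * (t * w * t⁻¹) * (g ^ l)⁻¹ * (t * c * t⁻¹) := by
    intro l hl0 hl
    have h4 := (Y.outg l hl0 hl).2.1 c Y.cE w hwQ₀
    have h5 : g ^ l * t = t * g ^ l := hgτ.pow_pow _ _
    have e1 : g ^ l * (t * w * t⁻¹) * (g ^ l)⁻¹ = t * (g ^ l * w * (g ^ l)⁻¹) * t⁻¹ := by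
      have e2 : g ^ l * (t * w * t⁻¹) * (g ^ l)⁻¹ = (g ^ l * t) * w * (g ^ l * t)⁻¹ := by group
      rw [e2, h5]
      group
    rw [e1]
    calc (t * c * t⁻¹) * (t * (g ^ l * w * (g ^ l)⁻¹) * t⁻¹)
        = t * (c * (g ^ l * w * (g ^ l)⁻¹)) * t⁻¹ := by group
      _ = t * ((g ^ l * w * (g ^ l)⁻¹) * c) * t⁻¹ := by rw [h4]
      _ = _ := by group
  have hnorm := ye_norm ha hP2 (I1 g hgmem) hρP hqP hv hout
  have hz : ynorm (2 ^ (a - 1)) ((c * x * c⁻¹) * g)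
        ((t * σ ^ j) * (c * x * c⁻¹) * (t * σ ^ j)⁻¹) *
      ((t * c * t⁻¹) * ynorm (2 ^ (a - 1)) ((c * x * c⁻¹) * g)
        ((t * σ ^ j) * (c * x * c⁻¹) * (t * σ ^ j)⁻¹) * (t * c * t⁻¹)⁻¹) =
      (t * c * t⁻¹) ^ 1 * ((t * σ ^ j) * (c * x * c⁻¹) * (t * σ ^ j)⁻¹) *
        ((t * c * t⁻¹) ^ 1)⁻¹ := by
    rw [A5 _ hqP, hnorm, pow_one, hqeq]
    have e1 : t * w * t⁻¹ * (t * c * t⁻¹ * (t * w * t⁻¹) * (t * c * t⁻¹)⁻¹) =
        t * (w * (c * w * c⁻¹)) * t⁻¹ := by group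
    have e2 : t * c * t⁻¹ * (t * (c * w * c⁻¹) * t⁻¹) * (t * c * t⁻¹)⁻¹ =
        t * (c * (c * w * c⁻¹) * c⁻¹) * t⁻¹ := by group
    rw [e1, e2, hw5]
  exact ye_lc hP2 A1 hρm hinv A3 hρP hqP hq1 A4 hz

end Pool.Agent.Lib.MP_544bd1_al
end

section

/-!
Theorem Z (paper 287), 4.8: the third instance of Lemma C.
-/

namespace Pool.Agent.Lib.MP_544bd1_al

open Subgroup

variable {m a k : ℕ} {X : Type} [Group X] [Finite X] {Q Q₀ Z R E : Subgroup X}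
  {g τ y c μ σ x : X}


/-- **`LC(p' * g, μ, σ ^ j * p' * (σ ^ j)⁻¹)`, `j = 1, 2`.**

Proof. Let `p' = c * x * c⁻¹`, `w = σ ^ j * x * (σ ^ j)⁻¹`, `q = σ ^ j * p' * (σ ^ j)⁻¹ = c * w * c⁻¹`,
`P = yP g τ E x`. `ye_lc` with `α = p' * g`, `ρ = μ`. `hinv` (`ye_alpha`): `Y.yμ`; `μ` commutes with `p'`
(`h.hμ`, `c` is central in `R`) and with `g ^ l * p' * (g ^ l)⁻¹`, `0 < l < 2 ^ (a - 2)` (`Y.outg`, second
part). `μ` normalizes `P` (`yP_inv`). `hz`: the norm is `ynorm _ g q` (`ye_alpha`); `ye_norm` with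
`v = q * (y * q * y⁻¹) = (c * w * c⁻¹) * (c⁻¹ * w * c) = w` as in `ye_lcB`; `hout` by `Y.outg`. So the left
side is `w * (μ * w * μ⁻¹) = w * (c ^ (2 * j) * w * (c ^ (2 * j))⁻¹)` (`yk_mu`). `j = 1`: it is
`w * (c ^ 2 * w * (c ^ 2)⁻¹) = c * w * c⁻¹ = q` (`h.h3` conjugated by `σ`): `n = 0`. `j = 2`:
`w * (c * w * c⁻¹) = c ^ 2 * w * (c ^ 2)⁻¹ = μ * q * μ⁻¹` (`yk_mu` and `c ^ 4 = c`: `μ * q * μ⁻¹ =
c * (μ * w * μ⁻¹) * c⁻¹ = c ^ 5 * w * (c ^ 5)⁻¹`): `n = 1`. `μ ^ m = 1`: `ye_pm`. -/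
theorem ye_lcC (ha : 3 ≤ a) (hexp : ∀ x : X, x ^ (m * 2 ^ a) = 1)
    (Y : YX a k Q Q₀ Z R E g τ y c μ σ) (h : YE Q₀ Z y c μ x) (h2 : x ^ 2 = 1) {j : ℕ} (hj : 0 < j)
    (hj3 : j < 3) :
    ∃ Q₁ : Subgroup X, Q₁ ≤ yP g τ E x ∧ (∀ z ∈ yP g τ E x, μ * z * μ⁻¹ ∈ yP g τ E x) ∧
      YLC m a Q₁ ((c * x * c⁻¹) * g) μ (σ ^ j * (c * x * c⁻¹) * (σ ^ j)⁻¹) := by
  have hle : closure {g, τ} ≤ closure {g, τ} := le_rfl
  obtain ⟨hα, hp'P, hαP, hcen, hnorm, hinvα⟩ := ye_alpha ha hexp Y h h2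
  have hP2 := yP_two ha Y h h2 hle
  obtain ⟨hP1, hPE, -⟩ := yP_inv ha Y h hle
  have hcomm := ys_comm hP2
  have hgP : ∀ z ∈ yP g τ E x, g * z * g⁻¹ ∈ yP g τ E x :=
    hP1 g (subset_closure (Set.mem_insert _ _))
  have hμP : ∀ z ∈ yP g τ E x, μ * z * μ⁻¹ ∈ yP g τ E x := hPE μ Y.μE
  have hσj : σ ^ j ∈ E := E.pow_mem Y.σE j
  have hcσ : c * σ ^ j = σ ^ j * c := Y.cR _ (Y.ER hσj)
  have hcμ : c * μ = μ * c := Y.cR _ (Y.ER Y.μE)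
  -- the element `w`
  obtain ⟨w, hw⟩ : ∃ w, w = σ ^ j * x * (σ ^ j)⁻¹ := ⟨_, rfl⟩
  have hxP : x ∈ yP g τ E x :=
    subset_closure ⟨1, Subgroup.one_mem _, 1, Subgroup.one_mem _, by group⟩
  have hwP : w ∈ yP g τ E x := by rw [hw]; exact hPE _ hσj x hxP
  have hwQ₀ : w ∈ Q₀ := by rw [hw]; exact Y.RQ₀ _ (Y.ER hσj) x h.h0
  have hqw : σ ^ j * (c * x * c⁻¹) * (σ ^ j)⁻¹ = c * w * c⁻¹ := by
    calc σ ^ j * (c * x * c⁻¹) * (σ ^ j)⁻¹ = (σ ^ j * c) * x * (σ ^ j * c)⁻¹ := by group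
      _ = (c * σ ^ j) * x * (c * σ ^ j)⁻¹ := by rw [hcσ]
      _ = c * w * c⁻¹ := by rw [hw]; group
  have hc3 := Y.c3
  have hcinv : c⁻¹ = c ^ 2 := by
    rw [inv_eq_iff_mul_eq_one, ← pow_succ']
    exact hc3
  have hcinv' : (c ^ 2)⁻¹ = c := by rw [← hcinv, inv_inv]
  have hc4 : c ^ 4 = c := by rw [pow_succ, hc3, one_mul]
  have huP : c * w * c⁻¹ ∈ yP g τ E x := hPE c Y.cE w hwP
  have hvP : c ^ 2 * w * (c ^ 2)⁻¹ ∈ yP g τ E x := hPE _ (E.pow_mem Y.cE 2) w hwP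
  have hw2 : w * w = 1 := by rw [← pow_two]; exact hP2 w hwP
  have hu2 : (c * w * c⁻¹) * (c * w * c⁻¹) = 1 := by rw [← pow_two]; exact hP2 _ huP
  have hv2 : (c ^ 2 * w * (c ^ 2)⁻¹) * (c ^ 2 * w * (c ^ 2)⁻¹) = 1 := by
    rw [← pow_two]; exact hP2 _ hvP
  -- the product of the three conjugates
  have hw3 : w * (c * w * c⁻¹) * (c ^ 2 * w * (c ^ 2)⁻¹) = 1 := by
    have e1 : c * w * c⁻¹ = σ ^ j * (c * x * c⁻¹) * (σ ^ j)⁻¹ := hqw.symm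
    have hcσ2 : c ^ 2 * σ ^ j = σ ^ j * c ^ 2 := by
      rw [pow_two]
      calc c * c * σ ^ j = c * (c * σ ^ j) := by group
        _ = c * (σ ^ j * c) := by rw [hcσ]
        _ = (c * σ ^ j) * c := by group
        _ = (σ ^ j * c) * c := by rw [hcσ]
        _ = σ ^ j * (c * c) := by group
    have e2 : c ^ 2 * w * (c ^ 2)⁻¹ = σ ^ j * (c ^ 2 * x * (c ^ 2)⁻¹) * (σ ^ j)⁻¹ := by
      calc c ^ 2 * w * (c ^ 2)⁻¹ = (c ^ 2 * σ ^ j) * x * (c ^ 2 * σ ^ j)⁻¹ := by rw [hw]; group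
        _ = (σ ^ j * c ^ 2) * x * (σ ^ j * c ^ 2)⁻¹ := by rw [hcσ2]
        _ = _ := by group
    rw [e1, e2]
    calc w * (σ ^ j * (c * x * c⁻¹) * (σ ^ j)⁻¹) * (σ ^ j * (c ^ 2 * x * (c ^ 2)⁻¹) * (σ ^ j)⁻¹)
        = σ ^ j * (x * (c * x * c⁻¹) * (c ^ 2 * x * (c ^ 2)⁻¹)) * (σ ^ j)⁻¹ := by rw [hw]; group
      _ = 1 := by rw [h.h3]; group
  have hx1 : x ≠ 1 := by
    intro hx
    exact h.hZ (by rw [hx]; exact Z.one_mem)
  have hq1 : σ ^ j * (c * x * c⁻¹) * (σ ^ j)⁻¹ ≠ 1 := by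
    intro hq
    apply hx1
    calc x = (σ ^ j * c)⁻¹ * (σ ^ j * (c * x * c⁻¹) * (σ ^ j)⁻¹) * (σ ^ j * c) := by group
      _ = 1 := by rw [hq]; group
  have hqP : σ ^ j * (c * x * c⁻¹) * (σ ^ j)⁻¹ ∈ yP g τ E x := by rw [hqw]; exact huP
  have hp'Q₀ : c * x * c⁻¹ ∈ Q₀ := Y.RQ₀ c (Y.ER Y.cE) x h.h0
  have hρm : μ ^ m = 1 := ye_pm hexp (r := μ) (j := 1) (by simpa using Y.μ3)
  have hinv : ((c * x * c⁻¹) * g) ^ (2 ^ (a - 2)) * μ * (((c * x * c⁻¹) * g) ^ (2 ^ (a - 2)))⁻¹ =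
      μ⁻¹ := by
    refine hinvα μ Y.yμ ?_
    intro l hl
    rcases Nat.eq_zero_or_pos l with h0 | h0
    · subst h0
      have e1 : μ * (c * x * c⁻¹) = c * x * c⁻¹ * μ := by
        have hμc' : μ * c⁻¹ = c⁻¹ * μ := by
          have : Commute μ c := hcμ.symm
          exact this.inv_right.eq
        calc μ * (c * x * c⁻¹) = (μ * c) * x * c⁻¹ := by group
          _ = (c * μ) * x * c⁻¹ := by rw [hcμ]
          _ = c * (μ * x) * c⁻¹ := by group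
          _ = c * (x * μ) * c⁻¹ := by rw [h.hμ]
          _ = c * x * (μ * c⁻¹) := by group
          _ = c * x * (c⁻¹ * μ) := by rw [hμc']
          _ = c * x * c⁻¹ * μ := by group
      simpa using e1
    · exact ((Y.outg l h0 hl).2.1 μ Y.μE _ hp'Q₀).symm
  -- the conjugate of `q` by `y`
  have hyw : y * w * y⁻¹ = w := by
    have e1 : y * σ ^ j * y⁻¹ = σ ^ j := by rw [← conj_pow, Y.yσ]
    have hwi : w⁻¹ = w := inv_eq_of_mul_eq_one_left hw2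
    calc y * w * y⁻¹ = (y * σ ^ j * y⁻¹) * (y * x * y⁻¹) * (y * σ ^ j * y⁻¹)⁻¹ := by rw [hw]; group
      _ = σ ^ j * x⁻¹ * (σ ^ j)⁻¹ := by rw [e1, h.hy]
      _ = w⁻¹ := by rw [hw]; group
      _ = w := hwi
  have hyq : y * (c * w * c⁻¹) * y⁻¹ = c ^ 2 * w * (c ^ 2)⁻¹ := by
    calc y * (c * w * c⁻¹) * y⁻¹ = (y * c * y⁻¹) * (y * w * y⁻¹) * (y * c * y⁻¹)⁻¹ := by group
      _ = c ^ 2 * w * (c ^ 2)⁻¹ := by rw [Y.yc, hyw, hcinv]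
  have huv : (c * w * c⁻¹) * (c ^ 2 * w * (c ^ 2)⁻¹) = w := by
    calc (c * w * c⁻¹) * (c ^ 2 * w * (c ^ 2)⁻¹)
        = w⁻¹ * (w * (c * w * c⁻¹) * (c ^ 2 * w * (c ^ 2)⁻¹)) := by group
      _ = w⁻¹ := by rw [hw3, mul_one]
      _ = w := inv_eq_of_mul_eq_one_left hw2
  have hv : w = σ ^ j * (c * x * c⁻¹) * (σ ^ j)⁻¹ *
      (g ^ (2 ^ (a - 2)) * (σ ^ j * (c * x * c⁻¹) * (σ ^ j)⁻¹) * (g ^ (2 ^ (a - 2)))⁻¹) := by
    rw [hqw, ← Y.hy, hyq, huv]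
  have hout : ∀ l, 0 < l → l < 2 ^ (a - 2) →
      μ * (g ^ l * w * (g ^ l)⁻¹) = g ^ l * w * (g ^ l)⁻¹ * μ := by
    intro l h0 hl
    exact ((Y.outg l h0 hl).2.1 μ Y.μE _ hwQ₀).symm
  have hN := ye_norm ha hP2 hgP hμP hqP hv hout
  have hμw : μ * w * μ⁻¹ = c ^ (2 * j) * w * (c ^ (2 * j))⁻¹ := by
    rw [hw]; exact yk_mu Y h j
  have hwu := hcomm w hwP _ huP
  have hwv := hcomm w hwP _ hvP
  have huvc := hcomm _ huP _ hvP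
  have hfin : ∃ n : ℕ, w * (μ * w * μ⁻¹) =
      μ ^ n * (σ ^ j * (c * x * c⁻¹) * (σ ^ j)⁻¹) * (μ ^ n)⁻¹ := by
    rw [hqw, hμw]
    interval_cases j
    · refine ⟨0, ?_⟩
      have e1 : w * (c ^ (2 * 1) * w * (c ^ (2 * 1))⁻¹) = c * w * c⁻¹ := by
        show w * (c ^ 2 * w * (c ^ 2)⁻¹) = c * w * c⁻¹
        calc w * (c ^ 2 * w * (c ^ 2)⁻¹)
            = ((c * w * c⁻¹) * (c ^ 2 * w * (c ^ 2)⁻¹)) * (c ^ 2 * w * (c ^ 2)⁻¹) := by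
              rw [huv]
          _ = (c * w * c⁻¹) * ((c ^ 2 * w * (c ^ 2)⁻¹) * (c ^ 2 * w * (c ^ 2)⁻¹)) := by
              rw [mul_assoc (c * w * c⁻¹)]
          _ = c * w * c⁻¹ := by rw [hv2, mul_one]
      rw [e1]
      group
    · refine ⟨1, ?_⟩
      have e4 : c ^ (2 * 2) = c := hc4
      have e1 : w * (c ^ (2 * 2) * w * (c ^ (2 * 2))⁻¹) = c ^ 2 * w * (c ^ 2)⁻¹ := by
        rw [e4]
        calc w * (c * w * c⁻¹)
            = (w * (c * w * c⁻¹) * (c ^ 2 * w * (c ^ 2)⁻¹)) * (c ^ 2 * w * (c ^ 2)⁻¹)⁻¹ := by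
              group
          _ = (c ^ 2 * w * (c ^ 2)⁻¹)⁻¹ := by rw [hw3, one_mul]
          _ = c ^ 2 * w * (c ^ 2)⁻¹ := inv_eq_of_mul_eq_one_left hv2
      rw [e1, pow_one]
      have hμw' : μ * w * μ⁻¹ = c * w * c⁻¹ := by rw [hμw, e4]
      symm
      calc μ * (c * w * c⁻¹) * μ⁻¹ = (μ * c) * w * (μ * c)⁻¹ := by group
        _ = (c * μ) * w * (c * μ)⁻¹ := by rw [hcμ]
        _ = c * (μ * w * μ⁻¹) * c⁻¹ := by group
        _ = c * (c * w * c⁻¹) * c⁻¹ := by rw [hμw']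
        _ = c ^ 2 * w * (c ^ 2)⁻¹ := by rw [pow_two]; group
  obtain ⟨n, hn⟩ := hfin
  refine ye_lc hP2 hα hρm hinv hαP hμP hqP hq1 hcen (n := n) ?_
  rw [hnorm _ hqP, hN, hn]

end Pool.Agent.Lib.MP_544bd1_al
end

section

/-!
Theorem Z (paper 287), 4.8: the fourth instance of Lemma C.
-/

namespace Pool.Agent.Lib.MP_544bd1_al

open Subgroup

variable {m a k : ℕ} {X : Type} [Group X] [Finite X] {Q Q₀ Z R E : Subgroup X}
  {g τ y c μ σ x : X}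


/-- **`LC(g, c_I, p_I)`.**

Proof. Let `P = yP g τ E x` (elementary abelian, `yP_two`), `τ' = ynorm (2 ^ (a - 2)) g σ * τ`,
`C = ynorm (3 ^ k) τ c`, `w = ynorm (3 ^ (k + 1)) τ' x ∈ P` (`ynorm_mem`, `ye_tau1`),
`q = ynorm (3 ^ (k + 1)) τ' (c * x * c⁻¹) = C * w * C⁻¹` (`ye_wI`). `ye_lc` with `α = g`, `ρ = C`, `n = 1`.
`hinv`: `ye_cI` (2), `Y.hy`. `C` normalizes `P` (`ye_cI`). `g ^ (2 ^ (a - 1))` centralizes `P ≤ Q`
(`yP_le`, `Y.κ`). `q ≠ 1`: `w ≠ 1` (`ye_wI_ne`). `hz`: `ye_norm` with `v = q * (y * q * y⁻¹)`;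
`y * q * y⁻¹ = C⁻¹ * w * C` (`ye_cI`, `ye_wI`) `= C ^ 2 * w * (C ^ 2)⁻¹` (`C ^ 3 = 1`), so
`v = w⁻¹ = w` by `ye_wI` (2) (`P` commutative of exponent 2). `hout`: `ye_wI`, last part. Result
`w * (C * w * C⁻¹) = (C ^ 2 * w * (C ^ 2)⁻¹)⁻¹ = C ^ 2 * w * (C ^ 2)⁻¹ = C * q * C⁻¹`. -/
theorem ye_lcI (ha : 3 ≤ a) (hexp : ∀ x : X, x ^ (m * 2 ^ a) = 1)
    (Y : YX a k Q Q₀ Z R E g τ y c μ σ) (h : YE Q₀ Z y c μ x) (h2 : x ^ 2 = 1) :
    ∃ Q₁ : Subgroup X, Q₁ ≤ yP g τ E x ∧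
      (∀ z ∈ yP g τ E x, ynorm (3 ^ k) τ c * z * (ynorm (3 ^ k) τ c)⁻¹ ∈ yP g τ E x) ∧
      YLC m a Q₁ g (ynorm (3 ^ k) τ c)
        (ynorm (3 ^ (k + 1)) (ynorm (2 ^ (a - 2)) g σ * τ) (c * x * c⁻¹)) := by
  have hP2 := yP_two (τ₁ := τ) ha Y h h2 le_rfl
  obtain ⟨-, cI2, cI3, cIm, cIP, -⟩ := ye_cI ha hexp Y h
  obtain ⟨w1, w2, w3, w4⟩ := ye_wI ha hexp Y h h2 (3 ^ (k + 1))
  obtain ⟨-, -, -, tP, -, -⟩ := ye_tau1 ha hexp Y h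
  have hwne := ye_wI_ne ha hexp Y h h2 (N := 3 ^ (k + 1)) (by positivity) le_rfl
  have hxP : x ∈ yP g τ E x := by
    apply Subgroup.subset_closure
    refine ⟨1, Subgroup.one_mem _, 1, E.one_mem, ?_⟩
    group
  have hwP := ynorm_mem (M := 3 ^ (k + 1)) tP hxP
  obtain ⟨P, hP⟩ : ∃ P, P = yP g τ E x := ⟨_, rfl⟩
  obtain ⟨C, hC⟩ : ∃ C, C = ynorm (3 ^ k) τ c := ⟨_, rfl⟩
  obtain ⟨q, hq⟩ : ∃ q, q = ynorm (3 ^ (k + 1)) (ynorm (2 ^ (a - 2)) g σ * τ) (c * x * c⁻¹) :=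
    ⟨_, rfl⟩
  obtain ⟨w, hw⟩ : ∃ w, w = ynorm (3 ^ (k + 1)) (ynorm (2 ^ (a - 2)) g σ * τ) x := ⟨_, rfl⟩
  rw [← hw] at w1 w2 w3 w4 hwne hwP
  rw [← hC] at w1 w2 w4 cI2 cI3 cIm cIP
  rw [← hq] at w1
  rw [← hC, ← hq]
  have hgP : ∀ z ∈ yP g τ E x, g * z * g⁻¹ ∈ yP g τ E x :=
    (yP_inv (τ₁ := τ) ha Y h le_rfl).1 g (Subgroup.subset_closure (by simp))
  have hPQ : yP g τ E x ≤ Q := yP_le Y h le_rfl
  rw [← hP] at hP2 cIP hwP hgP hPQ ⊢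
  have hqP : q ∈ P := by
    rw [← w1]
    exact cIP w hwP
  have hq1 : q ≠ 1 := by
    intro h0
    apply hwne
    rw [← w1] at h0
    have h1 : w = C⁻¹ * (C * w * C⁻¹) * C := by group
    rw [h1, h0]
    group
  have hww : w⁻¹ = w := inv_eq_of_mul_eq_one_left (by rw [← pow_two]; exact hP2 w hwP)
  have hCi : C⁻¹ = C ^ 2 := by
    apply inv_eq_of_mul_eq_one_left
    rw [← pow_succ]
    exact cI3
  have hCw : C ^ 2 * w * (C ^ 2)⁻¹ = (w * (C * w * C⁻¹))⁻¹ := eq_inv_of_mul_eq_one_right w2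
  have hv : w = q * (g ^ (2 ^ (a - 2)) * q * (g ^ (2 ^ (a - 2)))⁻¹) := by
    rw [← Y.hy]
    have e1 : y * q * y⁻¹ = C ^ 2 * w * (C ^ 2)⁻¹ := by
      rw [← w1]
      calc y * (C * w * C⁻¹) * y⁻¹ = (y * C * y⁻¹) * (y * w * y⁻¹) * (y * C * y⁻¹)⁻¹ := by group
        _ = C⁻¹ * w * (C⁻¹)⁻¹ := by rw [cI2, w3]
        _ = _ := by rw [hCi]
    rw [e1, hCw, ← w1, mul_inv_rev, mul_inv_cancel_left, hww]
  have hout : ∀ l, 0 < l → l < 2 ^ (a - 2) →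
      C * (g ^ l * w * (g ^ l)⁻¹) = g ^ l * w * (g ^ l)⁻¹ * C := w4
  have hn := ye_norm ha hP2 hgP cIP hqP hv hout
  refine ye_lc hP2 Y.hg cIm ?_ hgP cIP hqP hq1 ?_ (n := 1) ?_
  · rw [← Y.hy]
    exact cI2
  · intro z hz
    have h1 := Y.κ.1 z (hPQ hz)
    exact mul_inv_eq_iff_eq_mul.1 h1
  · rw [hn, pow_one, ← w1]
    have e2 : C * (C * w * C⁻¹) * C⁻¹ = C ^ 2 * w * (C ^ 2)⁻¹ := by
      rw [pow_two]
      group
    rw [e2, hCw, mul_inv_rev]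
    have e3 : (C * w * C⁻¹)⁻¹ = C * w * C⁻¹ := by
      have : (C * w * C⁻¹)⁻¹ = C * w⁻¹ * C⁻¹ := by group
      rw [this, hww]
    rw [e3, hww]
    exact ys_comm hP2 w hwP _ (cIP w hwP)

end Pool.Agent.Lib.MP_544bd1_al
end

section

/-!
Theorem Z (paper 287), 4.6: the case `x ^ 2 ≠ 1`.
-/

namespace Pool.Agent.Lib.MP_544bd1_al

open Subgroup

variable {m a k : ℕ} {X : Type} [Group X] [Finite X] {Q Q₀ Z R E : Subgroup X}
  {g τ y c μ σ : X} {x : X}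

/-- the derived data -/
theorem yv_mk (ha : 3 ≤ a) (Y : YX a k Q Q₀ Z R E g τ y c μ σ)
    (h : YE Q₀ Z y c μ x) (hx : x ^ 2 ≠ 1) {e e' : X} (hE : E = closure {e, e'})
    (hc : c = e * e' * e⁻¹ * e'⁻¹)
    (hye : y * e * y⁻¹ = e') (hye' : y * e' * y⁻¹ = e) (he3 : e ^ 3 = 1) :
    YV a Q₀ E (yP g 1 E x) (yZ (yP g 1 E x)) g y c μ σ e e'
      (g ^ (2 ^ (a - 3)) * e * (g ^ (2 ^ (a - 3)))⁻¹ * e⁻¹) (x ^ 2)
      (fun j i => (c ^ i * σ ^ j) * x * (c ^ i * σ ^ j)⁻¹) := by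
  have hcl : closure {g, 1} ≤ closure {g, τ} := by
    rw [closure_le]
    rintro z (rfl | rfl)
    · exact subset_closure (by simp)
    · exact Subgroup.one_mem _
  have hPQ : yP g 1 E x ≤ Q := yP_le Y h hcl
  obtain ⟨hI1, hI2, hI3⟩ := yP_inv (τ₁ := 1) ha Y h hcl
  have hg1 : g ∈ closure {g, (1 : X)} := subset_closure (by simp)
  obtain ⟨P, hP⟩ : ∃ P, P = yP g 1 E x := ⟨_, rfl⟩
  rw [← hP] at hPQ hI1 hI2 hI3
  obtain ⟨z1, z2, z3, z4, z5, z6⟩ := yk_Z (Q := P) (R := R)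
    (fun x hx y hy => Y.Zc _ (Y.sq x (hPQ hx)) y (hPQ hy))
    (fun x hx r hr => Y.ZR _ (Y.sq x (hPQ hx)) r hr)
    (fun x hx => by
      rw [show (4 : ℕ) = 2 * 2 by norm_num, pow_mul]
      exact Y.Z2 _ (Y.sq x (hPQ hx)))
  have heE : e ∈ E := by rw [hE]; exact subset_closure (by simp)
  have heE' : e' ∈ E := by rw [hE]; exact subset_closure (by simp)
  obtain ⟨u, hu⟩ : ∃ u, u = g ^ (2 ^ (a - 3)) := ⟨_, rfl⟩
  have huu : u * u = y := by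
    rw [hu, Y.hy, ← pow_add]
    congr 1
    rw [show a - 2 = (a - 3) + 1 by omega, pow_succ]
    ring
  have hout : YOut Q₀ E u := by
    rw [hu]
    apply Y.outg _ (by positivity)
    apply Nat.pow_lt_pow_right (by norm_num)
    omega
  obtain ⟨o1, o2, o3, o4⟩ := hout
  have huR : ∀ r ∈ R, u * r * u⁻¹ ∈ R := by
    rw [hu]
    exact ys_pow_mem Y.gR _
  have huP : ∀ r ∈ E, ∀ z ∈ P, (u * r * u⁻¹) * z * (u * r * u⁻¹)⁻¹ ∈ P := by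
    intro r hr z hz
    apply hI3 u _ r hr z hz
    rw [hu]
    exact Subgroup.pow_mem _ hg1 _
  obtain ⟨w, hw⟩ : ∃ w, w = u * e * u⁻¹ * e⁻¹ := ⟨_, rfl⟩
  have hwR : w ∈ R := by
    rw [hw]
    exact R.mul_mem (huR e (Y.ER heE)) (R.inv_mem (Y.ER heE))
  have hyu : y * u = u * y := by rw [← huu]; group
  have hyw : y * w * y⁻¹ = u * e' * u⁻¹ * e'⁻¹ := by
    rw [hw]
    calc y * (u * e * u⁻¹ * e⁻¹) * y⁻¹ = (y * u) * e * (y * u)⁻¹ * (y * e * y⁻¹)⁻¹ := by group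
      _ = u * (y * e * y⁻¹) * u⁻¹ * (y * e * y⁻¹)⁻¹ := by rw [hyu]; group
      _ = _ := by rw [hye]
  rw [← hu, ← hw, ← hP]
  refine
    { L := by rw [hP]; exact yv_q Y h
      hf := hx
      hy := Y.hy
      hg := Y.hg
      hE := hE
      cE := Y.cE
      μE := Y.μE
      σE := Y.σE
      EQ₀ := fun r hr => Y.RQ₀ r (Y.ER hr)
      yQ₀ := Y.yQ₀
      out := Y.outg
      P2 := fun z hz => Y.hQ2 z (hPQ hz)
      gP := hI1 g hg1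
      wP := ?_
      EP := hI2
      κP := ?_
      κE := ?_
      gen := ?_
      Z₁P := z1
      Z₁2 := z3
      Z₁c := z2
      Z₁E := fun z hz r hr => z4 z hz r (Y.ER hr)
      Z₁w := fun z hz => z4 z hz w hwR
      Z₁g := yk_Zh (hI1 g hg1)
      sq := z5
      cm := z6
      Z₁min := ?_
      we := ?_
      we' := ?_
      w3 := ?_
      v1 := ?_ }
  · intro z hz
    have h1 := huP e heE _ (hI2 e⁻¹ (E.inv_mem heE) z hz)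
    rw [inv_inv] at h1
    rw [hw, show u * e * u⁻¹ * e⁻¹ * z * (u * e * u⁻¹ * e⁻¹)⁻¹ =
      u * e * u⁻¹ * (e⁻¹ * z * e) * (u * e * u⁻¹)⁻¹ by group]
    exact h1
  · intro z hz
    exact mul_inv_eq_iff_eq_mul.mp (Y.κ.1 z (hPQ hz))
  · intro r hr
    exact mul_inv_eq_iff_eq_mul.mp (Y.κ.2 r (Y.ER hr))
  · intro K hK
    rw [hP]
    unfold yP
    rw [closure_le]
    rintro z ⟨h', hh', r, hr, rfl⟩
    have h1 : h' ∈ zpowers g := by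
      have h2 : closure {g, (1 : X)} ≤ zpowers g := by
        rw [closure_le]
        rintro z (rfl | rfl)
        · exact mem_zpowers _
        · exact Subgroup.one_mem _
      exact h2 hh'
    rw [← (isOfFinOrder_of_finite g).mem_powers_iff_mem_zpowers] at h1
    obtain ⟨l, rfl⟩ := h1
    have h2 := hK l r hr
    simp only [pow_zero, mul_one, one_mul, inv_one] at h2
    rw [show g ^ l * r * x * (g ^ l * r)⁻¹ = g ^ l * (r * x * r⁻¹) * (g ^ l)⁻¹ by group]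
    exact h2
  · intro U hU
    unfold yZ
    rw [closure_le]
    rintro z ⟨t, ht, rfl⟩
    exact hU t ht
  · intro z hz
    have h1 : Commute (u * e * u⁻¹) z := o1 e heE z hz
    rw [hw, show (u * e * u⁻¹ * e⁻¹)⁻¹ * z * (u * e * u⁻¹ * e⁻¹) =
      e * ((u * e * u⁻¹)⁻¹ * z * (u * e * u⁻¹)) * e⁻¹ by group, h1.inv_left.eq]
    group
  · intro z hz
    have h1 : Commute (u * e' * u⁻¹) z := o1 e' heE' z hz
    rw [hyw, show (u * e' * u⁻¹ * e'⁻¹)⁻¹ * z * (u * e' * u⁻¹ * e'⁻¹) =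
      e' * ((u * e' * u⁻¹)⁻¹ * z * (u * e' * u⁻¹)) * e'⁻¹ by group, h1.inv_left.eq]
    group
  · have h1 : Commute (u * e * u⁻¹) e := o3 e heE e heE
    rw [hw, h1.inv_right.mul_pow, conj_pow, he3, inv_pow, he3]
    group
  · intro H hgH hwH
    have huH : u ∈ H := by rw [hu]; exact H.pow_mem hgH _
    have hwuH : w⁻¹ * u * w ∈ H := by
      have h1 := H.pow_mem hwH (2 ^ (a - 3))
      have h2 : (w⁻¹ * g * w) ^ (2 ^ (a - 3)) = w⁻¹ * u * w := by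
        have h3 := conj_pow (i := 2 ^ (a - 3)) (a := w⁻¹) (b := g)
        rw [inv_inv] at h3
        rw [h3, hu]
      rwa [h2] at h1
    exact yv_1 (a0 := e) (a1 := u * e * u⁻¹) (a2 := e') (a3 := u * e' * u⁻¹) rfl
      (by rw [show u * (u * e * u⁻¹) * u⁻¹ = (u * u) * e * (u * u)⁻¹ by group, huu, hye]) rfl
      (by rw [show u * (u * e' * u⁻¹) * u⁻¹ = (u * u) * e' * (u * u)⁻¹ by group, huu, hye'])
      (o3 e heE e heE).symm (o3 e heE e' heE') (o3 e' heE' e' heE').symm (o3 e' heE' e heE)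
      he3 hc (Y.cR e (Y.ER heE)) (Y.cR e' (Y.ER heE')) hw huH hwuH

/-- **The case `x ^ 2 ≠ 1` (4.6).** -/
theorem yv_main (hm : Odd m) (ha : 3 ≤ a) (hsol : Group.IsSolvable X)
    (hexp : ∀ x : X, x ^ (m * 2 ^ a) = 1) (Y : YX a k Q Q₀ Z R E g τ y c μ σ)
    (h : YE Q₀ Z y c μ x) (hx : x ^ 2 ≠ 1) {e e' : X} (hE : E = closure {e, e'})
    (hμ : μ = e * e'⁻¹) (hσ : σ = e * e' * c) (hc : c = e * e' * e⁻¹ * e'⁻¹)
    (hye : y * e * y⁻¹ = e') (hye' : y * e' * y⁻¹ = e) (he3 : e ^ 3 = 1) (he3' : e' ^ 3 = 1) :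
    ∃ (S Q' Y' : Subgroup X) (g' u f w s : X), YFT m a S Q' Y' g' u f w s := by
  have D := yv_mk ha Y h hx hE hc hye hye' he3
  generalize (fun j i => (c ^ i * σ ^ j) * x * (c ^ i * σ ^ j)⁻¹ : ℕ → ℕ → X) = q at D
  generalize yP g 1 E x = P at D
  generalize yZ P = Z₁ at D
  generalize g ^ (2 ^ (a - 3)) * e * (g ^ (2 ^ (a - 3)))⁻¹ * e⁻¹ = w at D
  have hn := yv_norm ha D
  obtain ⟨p, hpdef⟩ : ∃ p, p = q 0 1 * q 2 1 := ⟨_, rfl⟩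
  have hp : p ∈ P := by rw [hpdef]; exact P.mul_mem (D.L.memP _ _) (D.L.memP _ _)
  rw [← hpdef] at hn
  obtain ⟨S, hS⟩ : ∃ S : Subgroup X, S = closure {p * g, w⁻¹ * (p * g) * w} := ⟨_, rfl⟩
  have hpgS : p * g ∈ S := by rw [hS]; exact subset_closure (by simp)
  have hwpgS : w⁻¹ * (p * g) * w ∈ S := by rw [hS]; exact subset_closure (by simp)
  obtain ⟨hPS, hwS, hgS, hcS⟩ := yv_S D hp hn hpgS hwpgS
  obtain ⟨f', hf'A, hf'1, hgf', hf'Z⟩ := yv_f D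
  obtain ⟨Y', hY1, hY2, hY3, hY4, hY5, hY6⟩ := yv_Y ha D
  obtain ⟨u, huP, hu1, hu2⟩ := yv_u D hp hn hY3 hY4 hY5 hY6 hf'A
  have hf'P : f' ∈ P := D.Z₁P hf'Z
  have hM : 2 ^ a = 2 ^ (a - 1) * 2 := by rw [← pow_succ]; congr 1; omega
  have hpgM : (p * g) ^ (2 ^ (a - 1)) = ynorm (2 ^ (a - 1)) g p * g ^ (2 ^ (a - 1)) :=
    ynorm_pow _ _ _
  have hκn : Commute (ynorm (2 ^ (a - 1)) g p) (g ^ (2 ^ (a - 1))) := (D.κP _ hn.nP).symm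
  -- normalizer
  have hNor : ∀ h ∈ S, ∀ z ∈ P, h * z * h⁻¹ ∈ P := by
    have hgN : g ∈ Subgroup.normalizer (P : Set X) :=
      Subgroup.mem_normalizer_fintype (S := (P : Set X)) (fun z hz => D.gP z hz)
    have hwN : w ∈ Subgroup.normalizer (P : Set X) :=
      Subgroup.mem_normalizer_fintype (S := (P : Set X)) (fun z hz => D.wP z hz)
    have hpN : p ∈ Subgroup.normalizer (P : Set X) := Subgroup.le_normalizer hp
    have hle : S ≤ Subgroup.normalizer (P : Set X) := by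
      rw [hS, closure_le]
      rintro z (rfl | rfl)
      · exact Subgroup.mul_mem _ hpN hgN
      · exact Subgroup.mul_mem _ (Subgroup.mul_mem _ (Subgroup.inv_mem _ hwN)
          (Subgroup.mul_mem _ hpN hgN)) hwN
    intro h hh z hz
    exact (Subgroup.mem_normalizer_iff.mp (hle hh) z).mp hz
  -- centralizer of `f'`
  have hCen : ∀ h ∈ S, h * f' = f' * h := by
    have hle : S ≤ Subgroup.centralizer {f'} := by
      rw [hS, closure_le]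
      have h1 : p * g ∈ Subgroup.centralizer {f'} := by
        rw [Subgroup.mem_centralizer_singleton_iff]
        have h2 := D.Z₁c f' hf'Z p hp
        rw [mul_assoc, hgf', ← mul_assoc, ← h2, mul_assoc]
      have h2 : w ∈ Subgroup.centralizer {f'} := by
        rw [Subgroup.mem_centralizer_singleton_iff]
        exact (D.Z₁w f' hf'Z).symm
      rintro z (rfl | rfl)
      · exact h1
      · exact Subgroup.mul_mem _ (Subgroup.mul_mem _ (Subgroup.inv_mem _ h2) h1) h2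
    intro h hh
    exact Subgroup.mem_centralizer_singleton_iff.mp (hle hh)
  refine ⟨S, P, Y', p * g, u, f', w, w, ?_⟩
  refine
    { fin := inferInstance
      sol := inferInstance
      hQS := hPS
      hQ2 := D.P2
      hSQ := hNor
      hYQ := hY1
      hY2 := hY2
      hgY := ?_
      hg := ?_
      hgS := hpgS
      hu := huP
      hf := hf'P
      hf1 := hf'1
      hf2 := D.Z₁2 f' hf'Z
      hfS := hCen
      i := yv_i ha D hp hn hPS hwS hgS hcS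
      ii := fun r hr hr2 V _ _ _ ρ hV hρ => yv_ii D hf'A hf'P r hr hr2 V ρ hV hρ
      hw := by rw [← hS]; exact hwS
      hwS := hS.symm
      hs := ?_
      hsS := ?_
      hx := ?_
      hm := ?_ }
  · intro z hz
    rw [show p * g * z * (p * g)⁻¹ = p * (g * z * g⁻¹) * p⁻¹ by group]
    exact hY4 p hp _ (hY3 z hz)
  · rw [hM, pow_mul, hpgM, hκn.mul_pow, hn.n2, ← pow_mul, ← hM, D.hg, one_mul]
  · have h1 : orderOf w ∣ 3 := orderOf_dvd_of_pow_eq_one D.w3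
    have h2 : orderOf w ∣ m * 2 ^ a := orderOf_dvd_of_pow_eq_one (hexp w)
    have h3 : Nat.Coprime (orderOf w) (2 ^ a) :=
      Nat.Coprime.coprime_dvd_left h1 (Nat.Coprime.pow_right _ (by norm_num))
    exact orderOf_dvd_iff_pow_eq_one.mp (h3.dvd_of_dvd_mul_right h2)
  · apply le_antisymm
    · rw [closure_le]
      rintro z (rfl | rfl)
      · exact hpgS
      · exact hwS
    · rw [hS, closure_le]
      have h1 : p * g ∈ closure {p * g, w} := subset_closure (by simp)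
      have h2 : w ∈ closure {p * g, w} := subset_closure (by simp)
      rintro z (rfl | rfl)
      · exact h1
      · exact Subgroup.mul_mem _ (Subgroup.mul_mem _ (Subgroup.inv_mem _ h2) h1) h2
  · rw [hpgM]
    have h1 : Commute (g ^ (2 ^ (a - 1))) u := D.κP u huP
    have h2 : Commute (g ^ (2 ^ (a - 1))) f' := D.κP f' hf'P
    calc u⁻¹ * (ynorm (2 ^ (a - 1)) g p * g ^ (2 ^ (a - 1))) * u
        = u⁻¹ * ynorm (2 ^ (a - 1)) g p * (g ^ (2 ^ (a - 1)) * u) := by group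
      _ = (u⁻¹ * ynorm (2 ^ (a - 1)) g p * u) * g ^ (2 ^ (a - 1)) := by rw [h1.eq]; group
      _ = ynorm (2 ^ (a - 1)) g p * (f' * g ^ (2 ^ (a - 1))) := by rw [hu1]; group
      _ = ynorm (2 ^ (a - 1)) g p * g ^ (2 ^ (a - 1)) * f' := by rw [← h2.eq]; group
  · obtain ⟨π, hπ⟩ : ∃ π, π = ynorm (2 ^ (a - 2)) g p := ⟨_, rfl⟩
    have hπP : π ∈ P := by rw [hπ]; exact ynorm_mem D.gP hp _
    have h1 : (p * g) ^ (2 ^ (a - 2)) = π * y := by rw [hπ, D.hy]; exact ynorm_pow _ _ _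
    have hyP : y * u * y⁻¹ ∈ P := by rw [D.hy]; exact ys_pow_mem D.gP _ u huP
    rw [h1]
    have h2 : u⁻¹ * (π * y * u * (π * y)⁻¹) = (u⁻¹ * (y * u * y⁻¹)) *
        ((y * u * y⁻¹)⁻¹ * π * ((y * u * y⁻¹)⁻¹)⁻¹ * π⁻¹) := by group
    rw [h2]
    exact Y'.mul_mem hu2 (hY5 (D.cm _ (P.inv_mem hyP) _ hπP))

end Pool.Agent.Lib.MP_544bd1_al
end

section

/-!
Theorem Z (paper 287), 4.8: the new system of rank `k + 1`.
-/

namespace Pool.Agent.Lib.MP_544bd1_al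

open Subgroup

variable {m a k : ℕ} {X : Type} [Group X] [Finite X] {Q Q₀ Z R E : Subgroup X}
  {g τ y c μ σ x : X}

/-- **The new system.** -/
theorem ye_main (ha : 3 ≤ a) (hexp : ∀ x : X, x ^ (m * 2 ^ a) = 1)
    (Y : YX a k Q Q₀ Z R E g τ y c μ σ) (h : YE Q₀ Z y c μ x) (h2 : x ^ 2 = 1) :
    YSys m a (k + 1) (yP g τ E x) g (ynorm (2 ^ (a - 2)) g σ * τ) (c * x * c⁻¹) := by
  have hcx : c * x * c⁻¹ ∈ Q₀ := Y.RQ₀ c (Y.ER Y.cE) x h.h0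
  have hA := ye_alpha ha hexp Y h h2
  have hT := ye_tau1 ha hexp Y h
  have hle : yP g τ E x ≤ Q := yP_le Y h le_rfl
  have hinv := yP_inv ha Y h le_rfl
  have hgc : g ∈ closure ({g, τ} : Set X) := subset_closure (by simp)
  have h3k : 0 < 3 ^ k := Nat.pow_pos (by norm_num)
  refine ⟨⟨inferInstance, yP_two ha Y h h2 le_rfl, hA.2.1, Y.hg, hT.2.1, hT.2.2.1, hT.1, ?_,
    hinv.1 g hgc, hT.2.2.2.1, ?_⟩, ?_, ?_, ?_⟩
  · -- `τ' ^ (3 ^ (k + 1))` commutes with `p'`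
    have h4 := ye_tau2 ha hexp Y h hcx (3 ^ (k + 1))
    have e1 : 3 ^ (k + 1) % 3 ^ k = 0 := by rw [pow_succ]; exact Nat.mul_mod_right _ _
    have e2 : 3 ^ (k + 1) / 3 ^ k = 3 := by rw [pow_succ]; exact Nat.mul_div_cancel_left _ h3k
    rw [e1, e2, Y.σ3, pow_zero, one_mul, one_mul, inv_one, mul_one] at h4
    exact mul_inv_eq_iff_eq_mul.1 h4
  · intro z hz
    exact mul_inv_eq_iff_eq_mul.1 (Y.κ.1 z (hle hz))
  · obtain ⟨Q₁, h5, h6, h7⟩ := ye_lc0 ha hexp Y h h2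
    exact ⟨Q₁, c, h5, h6, h7⟩
  · obtain ⟨Q₁, h5, h6, h7⟩ := ye_lcI ha hexp Y h h2
    exact ⟨Q₁, _, h5, h6, h7⟩
  · intro i hi hi3
    have h4 := ye_tau2 ha hexp Y h hcx i
    rw [h4]
    by_cases h0 : i % 3 ^ k = 0
    · have h8 : i = 3 ^ k * (i / 3 ^ k) := by
        have := Nat.div_add_mod i (3 ^ k)
        omega
      have hj : 0 < i / 3 ^ k := by
        rcases Nat.eq_zero_or_pos (i / 3 ^ k) with h9 | h9
        · rw [h9, mul_zero] at h8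
          omega
        · exact h9
      have hj3 : i / 3 ^ k < 3 := by
        rw [Nat.div_lt_iff_lt_mul h3k]
        rw [pow_succ] at hi3
        omega
      rw [h0, pow_zero, one_mul]
      obtain ⟨Q₁, h5, h6, h7⟩ := ye_lcC ha hexp Y h h2 hj hj3
      exact ⟨Q₁, μ, h5, h6, h7⟩
    · obtain ⟨Q₁, h5, h6, h7⟩ := ye_lcB ha hexp Y h h2 (Nat.pos_of_ne_zero h0)
        (Nat.mod_lt i h3k) (i / 3 ^ k)
      exact ⟨Q₁, _, h5, h6, h7⟩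

end Pool.Agent.Lib.MP_544bd1_al
end

section

/-!
Theorem Z (paper 287): 4.5-4.8, the block.
-/

namespace Pool.Agent.Lib.MP_544bd1_al

open Subgroup

variable {m a : ℕ} {G : Type} [Group G]

/-- **4.5-4.8** -/
theorem ys_blk (hm : Odd m) (ha : 3 ≤ a) {X : Type} [Group X] [Finite X]
    (hsol : Group.IsSolvable X) (hexp : ∀ x : X, x ^ (m * 2 ^ a) = 1) {k : ℕ} {Q R : Subgroup X}
    {g τ e e' c : X} (B : YBk m a k Q R g τ e e' c) :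
    (∃ (P : Subgroup X) (g' τ' p : X), YSys m a (k + 1) P g' τ' p) ∨
      ∃ (S Q' Y : Subgroup X) (g' u f w s : X), YFT m a S Q' Y g' u f w s := by
  obtain ⟨he'3, he'R, hcR, hER, hye, hye', hpR, hpQ⟩ := yk_e ha B
  have Y := yk_X ha B
  obtain ⟨x, hx⟩ := yk_x ha Y
  by_cases h2 : x ^ 2 = 1
  · exact Or.inl ⟨_, _, _, _, ye_main ha hexp Y hx h2⟩
  · exact Or.inr (yv_main hm ha hsol hexp Y hx h2 rfl rfl rfl B.hc hye hye' B.he3 he'3)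

end Pool.Agent.Lib.MP_544bd1_al
end
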