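import Mathlib
import Pool.Agent.Lib.MP_544bd1_al.TwS3
import Pool.Agent.Lib.MP_544bd1_al.FrB

/-!
Theorem Z3: generation of a minimal section.
-/

namespace Pool.Agent.Lib.MP_544bd1_al

open Subgroup

/-- if `z` is central in `S` then `A` is generated by the elements inverted by `z`.

Proof. Let `B₀ = closure {g | g ∈ A ∧ z * g * z⁻¹ = g⁻¹}`, an `S`-invariant subgroup of `A` (since
`z` commutes with `S`). Take `x ∈ A` with `z * x ≠ x * z`: `b = x⁻¹ * (z * x * z⁻¹) ∈ B₀`, `b ≠ 1`; if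
`z` centralized `b` then `b = b⁻¹`, `b ^ m = 1`, `b = 1`. So by `min` `B₀ = A`. -/
theorem ZMinA.gen {m r : ℕ} (hm : Odd m) {H : Type} [Group H] {S A : Subgroup H} {z : H}
    (D : ZMinA m r S A z) (hzS : z ∈ S) (hz2 : z ^ 2 = 1) (hzc : ∀ s ∈ S, s * z = z * s) :
    ∀ B : Subgroup H, (∀ g ∈ A, z * g * z⁻¹ = g⁻¹ → g ∈ B) → A ≤ B := by
  intro B hB
  set B₀ : Subgroup H := closure {g | g ∈ A ∧ z * g * z⁻¹ = g⁻¹} with hB₀
  have h1 : B₀ ≤ A := by
    rw [hB₀, closure_le]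
    exact fun g hg => hg.1
  have h2 : B₀ ≤ B := by
    rw [hB₀, closure_le]
    exact fun g hg => hB g hg.1 hg.2
  have h3 : ∀ s ∈ S, ∀ x ∈ B₀, s * x * s⁻¹ ∈ B₀ := by
    intro s hs x hx
    refine closure_induction (p := fun x _ => s * x * s⁻¹ ∈ B₀) ?_ ?_ ?_ ?_ hx
    · intro g hg
      refine subset_closure ⟨D.inv s hs g hg.1, ?_⟩
      have k1 : z * (s * g * s⁻¹) * z⁻¹ = s * (z * g * z⁻¹) * s⁻¹ := by
        have k2 := hzc s hs
        have k3 : s⁻¹ * z⁻¹ = z⁻¹ * s⁻¹ := by rw [← mul_inv_rev, ← mul_inv_rev, k2]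
        calc z * (s * g * s⁻¹) * z⁻¹ = (z * s) * g * (s⁻¹ * z⁻¹) := by group
          _ = (s * z) * g * (z⁻¹ * s⁻¹) := by rw [k3, k2]
          _ = s * (z * g * z⁻¹) * s⁻¹ := by group
      rw [k1, hg.2]
      group
    · simp only [mul_one, mul_inv_cancel]
      exact one_mem _
    · intro x y _ _ kx ky
      have k1 : s * (x * y) * s⁻¹ = (s * x * s⁻¹) * (s * y * s⁻¹) := by group
      rw [k1]
      exact mul_mem kx ky
    · intro x _ kx
      have k1 : s * x⁻¹ * s⁻¹ = (s * x * s⁻¹)⁻¹ := by group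
      rw [k1]
      exact inv_mem kx
  by_cases h4 : B₀ = A
  · rw [← h4]
    exact h2
  · exfalso
    have h5 := D.min B₀ h1 h3 h4
    obtain ⟨x, hxA, hx⟩ := D.ne
    have hz1 : z * z = 1 := by rw [← sq]; exact hz2
    have hzi : z⁻¹ = z := inv_eq_of_mul_eq_one_right hz1
    have hbA : x⁻¹ * (z * x * z⁻¹) ∈ A := mul_mem (inv_mem hxA) (D.inv z hzS x hxA)
    have hb1 : z * (x⁻¹ * (z * x * z⁻¹)) * z⁻¹ = (x⁻¹ * (z * x * z⁻¹))⁻¹ := by
      rw [hzi]
      calc z * (x⁻¹ * (z * x * z)) * z = z * x⁻¹ * z * x * (z * z) := by group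
        _ = z * x⁻¹ * z * x := by rw [hz1, mul_one]
        _ = (x⁻¹ * (z * x * z))⁻¹ := by
          rw [mul_inv_rev, mul_inv_rev, mul_inv_rev, hzi, inv_inv]
          group
    have hb2 := h5 _ (subset_closure ⟨hbA, hb1⟩)
    have hb3 : x⁻¹ * (z * x * z⁻¹) = (x⁻¹ * (z * x * z⁻¹))⁻¹ := by
      rw [← hb1, hb2]
      group
    have hb4 : (x⁻¹ * (z * x * z⁻¹)) ^ 2 = 1 := by
      rw [sq]
      nth_rewrite 2 [hb3]
      exact mul_inv_cancel _
    have hb5 : x⁻¹ * (z * x * z⁻¹) = 1 := by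
      have hc : Nat.Coprime m 2 := Nat.coprime_two_right.2 hm
      have k1 : orderOf (x⁻¹ * (z * x * z⁻¹)) ∣ m := orderOf_dvd_of_pow_eq_one (D.odd _ hbA)
      have k2 : orderOf (x⁻¹ * (z * x * z⁻¹)) ∣ 2 := orderOf_dvd_of_pow_eq_one hb4
      exact orderOf_eq_one_iff.1 (Nat.eq_one_of_dvd_coprimes hc k1 k2)
    apply hx
    have hb6 : z * x * z⁻¹ = x := by
      have := inv_mul_eq_one.1 hb5
      exact this.symm
    rw [mul_inv_eq_iff_eq_mul] at hb6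
    exact hb6

end Pool.Agent.Lib.MP_544bd1_al
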