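import Mathlib
import Pool.Agent.Lib.MP_544bd1_al.TwS2
import Pool.Agent.Lib.MP_544bd1_al.TwLZ
import Pool.Agent.Lib.MP_544bd1_al.ZtFrat
import Pool.Agent.Lib.MP_544bd1_al.ZsLftN
import Pool.Agent.Lib.MP_544bd1_al.ZtSpl
import Pool.Agent.Lib.MP_544bd1_al.ZtGen

/-!
Theorem Z (paper 287): section 1, finality.
-/

namespace Pool.Agent.Lib.MP_544bd1_al

open Subgroup
open scoped commutatorElement

private theorem zsf_le {H : Type} [Group H] (A : Subgroup H) : (⁅A, A⁆ : Subgroup H) ≤ A := by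
  rw [commutator_le]
  intro x hx y hy
  rw [commutatorElement_def]
  exact A.mul_mem (A.mul_mem (A.mul_mem hx hy) (A.inv_mem hx)) (A.inv_mem hy)

private theorem zsf_mem {H : Type} [Group H] {A : Subgroup H} {x y : H} (hx : x ∈ A)
    (hy : y ∈ A) : x * y * x⁻¹ * y⁻¹ ∈ (⁅A, A⁆ : Subgroup H) :=
  commutator_mem_commutator hx hy

private theorem zsf_cen {H : Type} [Group H] {A : Subgroup H}
    (hcl : ∀ x ∈ A, ∀ y ∈ A, ∀ w ∈ A, x * y * x⁻¹ * y⁻¹ * w = w * (x * y * x⁻¹ * y⁻¹)) :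
    ∀ e ∈ (⁅A, A⁆ : Subgroup H), ∀ w ∈ A, e * w = w * e := by
  have h : (⁅A, A⁆ : Subgroup H) ≤ centralizer (A : Set H) := by
    rw [commutator_le]
    intro x hx y hy
    rw [mem_centralizer_iff]
    intro w hw
    rw [commutatorElement_def]
    exact (hcl x hx y hy w hw).symm
  intro e he w hw
  exact (mem_centralizer_iff.mp (h he) w hw).symm

private theorem zsf_conj {H : Type} [Group H] {A : Subgroup H} {h : H}
    (hA : ∀ x ∈ A, h * x * h⁻¹ ∈ A) :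
    ∀ e ∈ (⁅A, A⁆ : Subgroup H), h * e * h⁻¹ ∈ (⁅A, A⁆ : Subgroup H) := by
  have h1 : (⁅A, A⁆ : Subgroup H) ≤ (⁅A, A⁆ : Subgroup H).comap (MulAut.conj h).toMonoidHom := by
    rw [commutator_le]
    intro x hx y hy
    rw [mem_comap]
    change h * ⁅x, y⁆ * h⁻¹ ∈ _
    have h2 : h * ⁅x, y⁆ * h⁻¹ = ⁅h * x * h⁻¹, h * y * h⁻¹⁆ := by
      simp only [commutatorElement_def]
      group
    rw [h2]
    exact commutator_mem_commutator (hA x hx) (hA y hy)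
  intro e he
  exact h1 he

/-- `Q` and `x` centralize the commutators of `A`. Proof. Let `C` be the centralizer of the set of the
commutators `x * y * x⁻¹ * y⁻¹`, `x, y ∈ A`. For `h ∈ S`, `h ^ (2 ^ a) = 1`: `zt_reg0` (`u := h`) for
`E = ⁅A, A⁆`: it is commutative (`D.cl`: the commutators are central in `A` and commute with each other;
closure induction), normalized by `h` (`D.inv`), `E ≤ A`; so `h ^ (2 ^ (a - 1)) ∈ C`. So `Q ≤ C` by `hi`. -/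
theorem ysFT_cen {m a r : ℕ} (hm : Odd m) (ha : 0 < a) {H : Type} [Group H] [Finite H]
    (hV : ZRep m a H) {S Q A : Subgroup H} {f : H} (D : ZMinA m r S A f)
    (hi : ∀ B : Subgroup H, (∀ h ∈ S, h ^ (2 ^ a) = 1 → h ^ (2 ^ (a - 1)) ∈ B) → Q ≤ B) :
    (∀ q ∈ Q, ∀ x ∈ A, ∀ y ∈ A, q * (x * y * x⁻¹ * y⁻¹) = x * y * x⁻¹ * y⁻¹ * q) ∧
      ∀ h ∈ S, h ^ (2 ^ a) = 1 → ∀ x ∈ A, ∀ y ∈ A,
        h ^ (2 ^ (a - 1)) * (x * y * x⁻¹ * y⁻¹) = x * y * x⁻¹ * y⁻¹ * h ^ (2 ^ (a - 1)) := by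
  have hle : (⁅A, A⁆ : Subgroup H) ≤ A := zsf_le A
  have hcen := zsf_cen D.cl
  have key : ∀ h ∈ S, h ^ (2 ^ a) = 1 → ∀ x ∈ A, ∀ y ∈ A,
      h ^ (2 ^ (a - 1)) * (x * y * x⁻¹ * y⁻¹) = x * y * x⁻¹ * y⁻¹ * h ^ (2 ^ (a - 1)) := by
    intro h hh hh2 x hx y hy
    exact zt_reg0 ha hm hV (⁅A, A⁆ : Subgroup H) (fun e he => D.odd e (hle he))
      (fun e he e' he' => hcen e he e' (hle he')) hh2 (zsf_conj (D.inv h hh)) _ (zsf_mem hx hy)
  refine ⟨?_, key⟩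
  have hQ : Q ≤ centralizer {c : H | ∃ x ∈ A, ∃ y ∈ A, c = x * y * x⁻¹ * y⁻¹} := by
    apply hi
    intro h hh hh2
    rw [mem_centralizer_iff]
    rintro _ ⟨x, hx, y, hy, rfl⟩
    exact (key h hh hh2 x hx y hy).symm
  intro q hq x hx y hy
  exact (mem_centralizer_iff.mp (hQ hq) _ ⟨x, hx, y, hy, rfl⟩).symm

/-- `f` inverts `A` modulo commutators. Proof. The elements `b ∈ A` with `f * b * f⁻¹ * b ∈ ⁅A, A⁆` form a
subgroup of `A` (modulo `⁅A, A⁆` everything commutes, `⁅A, A⁆` is normalized by `f`) which contains the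
elements inverted by `f`; `ZMinA.gen` (ZtGen.lean). -/
theorem ysFT_inv {m r : ℕ} (hm : Odd m) {H : Type} [Group H] {S A : Subgroup H} {f : H}
    (D : ZMinA m r S A f) (hfS : f ∈ S) (hf2 : f ^ 2 = 1) (hfc : ∀ h ∈ S, h * f = f * h) :
    ∀ b ∈ A, f * b * f⁻¹ * b ∈ ⁅A, A⁆ := by
  have hcen := zsf_cen D.cl
  let B : Subgroup H :=
    { carrier := {b | b ∈ A ∧ f * b * f⁻¹ * b ∈ (⁅A, A⁆ : Subgroup H)}
      one_mem' := ⟨A.one_mem, by
        have h1 : f * 1 * f⁻¹ * 1 = 1 := by group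
        rw [h1]
        exact Subgroup.one_mem _⟩
      mul_mem' := by
        rintro b c ⟨hb, hb'⟩ ⟨hc, hc'⟩
        refine ⟨A.mul_mem hb hc, ?_⟩
        have hcA : f * c * f⁻¹ ∈ A := D.inv f hfS c hc
        have hκ : (f * c * f⁻¹)⁻¹ * b⁻¹ * (f * c * f⁻¹) * b ∈ (⁅A, A⁆ : Subgroup H) := by
          have h2 := zsf_mem (A.inv_mem hcA) (A.inv_mem hb)
          rwa [inv_inv, inv_inv] at h2
        have h3 : f * (b * c) * f⁻¹ * (b * c) = (f * b * f⁻¹ * b) * ((f * c * f⁻¹) *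
            (((f * c * f⁻¹)⁻¹ * b⁻¹ * (f * c * f⁻¹) * b) * c)) := by
          group
        rw [h3, hcen _ hκ c hc, ← mul_assoc (f * c * f⁻¹) c]
        exact Subgroup.mul_mem _ hb' (Subgroup.mul_mem _ hc' hκ)
      inv_mem' := by
        rintro b ⟨hb, hb'⟩
        refine ⟨A.inv_mem hb, ?_⟩
        have h2 := hcen _ hb' b hb
        have h3 : f * b⁻¹ * f⁻¹ * b⁻¹ = (b * (f * b * f⁻¹ * b) * b⁻¹)⁻¹ := by
          group
        rw [h3, ← h2, mul_inv_cancel_right]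
        exact Subgroup.inv_mem _ hb' }
  have hAB : A ≤ B := by
    apply D.gen hm hfS hf2 hfc B
    intro g hg hfg
    refine ⟨hg, ?_⟩
    rw [hfg, inv_mul_cancel]
    exact Subgroup.one_mem _
  intro b hb
  exact (hAB hb).2

end Pool.Agent.Lib.MP_544bd1_al
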