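import Mathlib
import Pool.Agent.Lib.MP_544bd1_al.TwS2

/-!
Theorem Z (paper 287): section 1, finality.
-/

namespace Pool.Agent.Lib.MP_544bd1_al

open Subgroup

open scoped commutatorElement

private lemma ysFT_odd {H : Type} [Group H] {m : ℕ} (hm : Odd m) {z : H} (h2 : z * z = 1)
    (hz : z ^ m = 1) : z = 1 := by
  obtain ⟨k, rfl⟩ := hm
  rw [pow_succ, pow_mul, pow_two, h2, one_pow, one_mul] at hz
  exact hz

private lemma ysFT_cen {H : Type} [Group H] {A : Subgroup H} {t : H}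
    (ht : ∀ b ∈ A, ∀ c ∈ A, b * c * b⁻¹ * c⁻¹ * t = t * (b * c * b⁻¹ * c⁻¹)) :
    ∀ z ∈ ⁅A, A⁆, z * t = t * z := by
  have h : ⁅A, A⁆ ≤ Subgroup.centralizer {t} := by
    rw [Subgroup.commutator_le]
    intro b hb c hc
    rw [Subgroup.mem_centralizer_singleton_iff, commutatorElement_def]
    exact ht b hb c hc
  intro z hz
  exact Subgroup.mem_centralizer_singleton_iff.1 (h hz)

private lemma ysFT_conj {H : Type} [Group H] [Finite H] {A : Subgroup H} {u : H}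
    (huA : ∀ b ∈ A, u * b * u⁻¹ ∈ A) : ∀ b ∈ A, u⁻¹ * b * u ∈ A := by
  have hk : ∀ k : ℕ, ∀ b ∈ A, u ^ k * b * (u ^ k)⁻¹ ∈ A := by
    intro k
    induction k with
    | zero => intro b hb; simpa using hb
    | succ k ih =>
      intro b hb
      have h := huA _ (ih b hb)
      have h2 : u ^ (k + 1) * b * (u ^ (k + 1))⁻¹ = u * (u ^ k * b * (u ^ k)⁻¹) * u⁻¹ := by
        rw [pow_succ']
        simp only [mul_assoc, mul_inv_rev]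
      rw [h2]
      exact h
  intro b hb
  have h := hk (orderOf u - 1) b hb
  have hu : u ^ (orderOf u - 1) = u⁻¹ := by
    have h1 : 0 < orderOf u := orderOf_pos u
    have h2 : u * u ^ (orderOf u - 1) = 1 := by
      rw [← pow_succ', Nat.sub_add_cancel h1, pow_orderOf_eq_one]
    exact (inv_eq_of_mul_eq_one_right h2).symm
  rw [hu, inv_inv] at h
  exact h

/-- If the involution `x` moves `b` by an element of odd order commuting with `x`, it centralizes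
`b`. -/
private lemma ysFT_fix {H : Type} [Group H] {m : ℕ} (hm : Odd m) {x b e : H} (hx2 : x * x = 1)
    (h : x * b * x⁻¹ = e * b) (he : e * x = x * e) (hem : e ^ m = 1) : x * b = b * x := by
  have hxi : x⁻¹ = x := inv_eq_of_mul_eq_one_right hx2
  have h1 : b = e * e * b := by
    calc b = x * x * b * (x⁻¹ * x⁻¹) := by rw [hxi, hx2, one_mul, mul_one]
      _ = x * (x * b * x⁻¹) * x⁻¹ := by simp only [mul_assoc]
      _ = x * (e * b) * x⁻¹ := by rw [h]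
      _ = x * e * b * x⁻¹ := by simp only [mul_assoc]
      _ = e * (x * b * x⁻¹) := by rw [← he]; simp only [mul_assoc]
      _ = e * (e * b) := by rw [h]
      _ = e * e * b := by simp only [mul_assoc]
  have h2 : e * e = 1 := by
    have := h1
    exact (mul_eq_right.1 this.symm)
  have h3 : e = 1 := ysFT_odd hm h2 hem
  rw [h3, one_mul] at h
  rw [← h, inv_mul_cancel_right, h]

/-- Part (1). -/
private lemma ysFT_one {m : ℕ} (hm : Odd m) {H : Type} [Group H] {A : Subgroup H}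
    (hA : ∀ b ∈ A, b ^ m = 1)
    (hcl : ∀ b ∈ A, ∀ c ∈ A, ∀ d ∈ A, b * c * b⁻¹ * c⁻¹ * d = d * (b * c * b⁻¹ * c⁻¹))
    {x : H}
    (hxc : ∀ b ∈ A, ∀ c ∈ A, x * (b * c * b⁻¹ * c⁻¹) = b * c * b⁻¹ * c⁻¹ * x)
    {b c : H} (hb : b ∈ A) (hc : c ∈ A) (hxb : x * b = b * x) (hxcc : x * c * x⁻¹ = c⁻¹) :
    c * b = b * c := by
  have hd : c * b * c⁻¹ * b⁻¹ = 1 := by
    apply ysFT_odd hm
    · have h1 : c * b * c⁻¹ * b⁻¹ = c⁻¹ * b * c * b⁻¹ := by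
        calc c * b * c⁻¹ * b⁻¹ = x * (c * b * c⁻¹ * b⁻¹) * x⁻¹ := by
              rw [hxc c hc b hb, mul_inv_cancel_right]
          _ = (x * c * x⁻¹) * (x * b * x⁻¹) * (x * c * x⁻¹)⁻¹ * (x * b * x⁻¹)⁻¹ := by group
          _ = c⁻¹ * b * c * b⁻¹ := by
              rw [hxcc, hxb, mul_inv_cancel_right, inv_inv]
      have h2 : c⁻¹ * b * c * b⁻¹ = (c * b * c⁻¹ * b⁻¹)⁻¹ := by
        have h3 := hcl c hc b hb c hc
        calc c⁻¹ * b * c * b⁻¹ = c⁻¹ * (c * b * c⁻¹ * b⁻¹)⁻¹ * c := by group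
          _ = c⁻¹ * ((c * b * c⁻¹ * b⁻¹)⁻¹ * c) := by rw [mul_assoc]
          _ = c⁻¹ * (c * (c * b * c⁻¹ * b⁻¹)⁻¹) := by
              congr 1
              exact inv_mul_eq_iff_eq_mul.2 (by rw [← mul_assoc, h3, mul_inv_cancel_right])
          _ = (c * b * c⁻¹ * b⁻¹)⁻¹ := by rw [inv_mul_cancel_left]
      have h4 := h1.trans h2
      calc c * b * c⁻¹ * b⁻¹ * (c * b * c⁻¹ * b⁻¹)
          = (c * b * c⁻¹ * b⁻¹)⁻¹ * (c * b * c⁻¹ * b⁻¹) := by rw [← h4]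
        _ = 1 := inv_mul_cancel _
    · exact hA _ (A.mul_mem (A.mul_mem (A.mul_mem hc hb) (A.inv_mem hc)) (A.inv_mem hb))
  calc c * b = c * b * c⁻¹ * b⁻¹ * (b * c) := by group
    _ = b * c := by rw [hd, one_mul]

/-- **The two halves of `A`.** `A₁` is generated by the elements inverted by the involution `x`, `A₂`
is its conjugate.

Proof. Let `x' = u * x * u⁻¹`; from `hx` and `f ^ 2 = 1`, `f` commuting with `u` and `x`: `x' = x * f`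
(`x * f = u⁻¹ * x * u`, so `u * x * f * u⁻¹ = x`, `x' = x * f⁻¹ = x * f`). Write `A' = ⁅A, A⁆`; its elements are
central in `A` (`hcl`) and centralized by `x` (`hxc`); `f` inverts `A` modulo `A'` (`hfA`).
(1) `A₁` commutes with the elements `b ∈ A` centralized by `x`: for `c ∈ A` inverted by `x` the
commutator `d = c * b * c⁻¹ * b⁻¹` satisfies `d = x * d * x⁻¹ = c⁻¹ * b * c * b⁻¹ = d⁻¹` (class 2:
`c⁻¹ * b * c * b⁻¹ = c⁻¹ * (c * b * c⁻¹ * b⁻¹)⁻¹ * c`... `= d⁻¹`), so `d ^ 2 = 1`, `d = 1` (`d ^ m = 1`).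
(2) A generator of `A₂` is `b = u * c * u⁻¹`, `c ∈ A` inverted by `x`, so `b` is inverted by `x' = x * f`.
`f * b * f⁻¹ = b⁻¹ * c₁` with `c₁ ∈ A'`; apply `x`: `b⁻¹ = (x * b * x⁻¹)⁻¹ * c₁`, so
`x * b * x⁻¹ = c₁ * b`; apply `x` again: `b = c₁ * c₁ * b`, `c₁ ^ 2 = 1`, `c₁ = 1`: `x` centralizes `b`.
So by (1) `A₁` and `A₂` commute.
(3) Let `b ∈ A`. `b₁ = b⁻¹ * (x * b * x⁻¹)` is inverted by `x` (`x ^ 2 = 1`), so in `A₁`. Let
`b₂ = b * (x * b * x⁻¹)`; modulo `A'` it is centralized by `x`: `x * b₂ * x⁻¹ = (x * b * x⁻¹) * b ∈ b₂ * A'`, and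
as in (2) it is centralized by `x`. `b₃ = b₂ * (f * b₂⁻¹ * f⁻¹)` is centralized by `x` and inverted by
`f` (`f ^ 2 = 1`), so inverted by `x' = x * f`, so `u⁻¹ * b₃ * u` is inverted by `x` and in `A` (`huA'`) and
`b₃ ∈ A₂`. Modulo `A'`: `b₃ = b₂ ^ 2`, `b₂ = b ^ 2 * b₁`, so `b ^ 4 ∈ A₂ * A₁ * A'` (a subgroup, by (2) and
centrality), and `b` is a power of `b ^ 4` (`b ^ m = 1`, `m` odd). -/
theorem ysFT_half {m : ℕ} (hm : Odd m) {H : Type} [Group H] [Finite H] {A A₁ A₂ : Subgroup H}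
    (hA : ∀ b ∈ A, b ^ m = 1)
    (hcl : ∀ b ∈ A, ∀ c ∈ A, ∀ d ∈ A, b * c * b⁻¹ * c⁻¹ * d = d * (b * c * b⁻¹ * c⁻¹))
    {x u f : H} (hx2 : x ^ 2 = 1) (hxA : ∀ b ∈ A, x * b * x⁻¹ ∈ A) (huA : ∀ b ∈ A, u * b * u⁻¹ ∈ A)
    (hxc : ∀ b ∈ A, ∀ c ∈ A, x * (b * c * b⁻¹ * c⁻¹) = b * c * b⁻¹ * c⁻¹ * x)
    (hf2 : f ^ 2 = 1) (hfA' : ∀ b ∈ A, f * b * f⁻¹ ∈ A) (hfA : ∀ b ∈ A, f * b * f⁻¹ * b ∈ ⁅A, A⁆)
    (hfx : x * f = f * x) (hfu : u * f = f * u) (hx : u⁻¹ * x * u = x * f)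
    (hA₁ : A₁ = closure {b | b ∈ A ∧ x * b * x⁻¹ = b⁻¹})
    (hA₂ : A₂ = A₁.map (MulAut.conj u).toMonoidHom) :
    (∀ b ∈ A₁, ∀ c ∈ A₂, b * c = c * b) ∧
      ∀ b ∈ A, ∃ b₁ ∈ A₁, ∃ b₂ ∈ A₂, ∃ c ∈ ⁅A, A⁆, b = b₁ * b₂ * c := by
  have hxx : x * x = 1 := by rw [← pow_two, hx2]
  have hff : f * f = 1 := by rw [← pow_two, hf2]
  have hxi : x⁻¹ = x := inv_eq_of_mul_eq_one_right hxx
  have hfi : f⁻¹ = f := inv_eq_of_mul_eq_one_right hff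
  have hCA : ⁅A, A⁆ ≤ A := by
    rw [Subgroup.commutator_le]
    intro b hb c hc
    rw [commutatorElement_def]
    exact A.mul_mem (A.mul_mem (A.mul_mem hb hc) (A.inv_mem hb)) (A.inv_mem hc)
  have hcx : ∀ z ∈ ⁅A, A⁆, z * x = x * z := ysFT_cen (fun b hb c hc => (hxc b hb c hc).symm)
  have hcA : ∀ d ∈ A, ∀ z ∈ ⁅A, A⁆, z * d = d * z :=
    fun d hd => ysFT_cen (fun b hb c hc => hcl b hb c hc d hd)
  have hzm : ∀ z ∈ ⁅A, A⁆, z ^ m = 1 := fun z hz => hA z (hCA hz)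
  have huA' : ∀ b ∈ A, u⁻¹ * b * u ∈ A := ysFT_conj huA
  have hx' : u * x * u⁻¹ = x * f := by
    have h1 : x * u = u * x * f := by
      have := congrArg (fun t => u * t) hx
      simp only [← mul_assoc, mul_inv_cancel, one_mul] at this
      exact this
    have h2 : x = u * x * u⁻¹ * f := by
      calc x = x * u * u⁻¹ := by rw [mul_inv_cancel_right]
        _ = u * x * f * u⁻¹ := by rw [h1]
        _ = u * x * (f * u⁻¹) := by rw [mul_assoc]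
        _ = u * x * (u⁻¹ * f) := by
            congr 1
            rw [eq_inv_mul_iff_mul_eq, ← mul_assoc, hfu, mul_inv_cancel_right]
        _ = u * x * u⁻¹ * f := by rw [mul_assoc (u * x)]
    calc u * x * u⁻¹ = u * x * u⁻¹ * f * f := by rw [mul_assoc _ f f, hff, mul_one]
      _ = x * f := by rw [← h2]
  have hx'i : (u * x * u⁻¹)⁻¹ = u * x * u⁻¹ := by
    rw [mul_inv_rev, mul_inv_rev, inv_inv, hxi, mul_assoc]
  -- the generators of `A₂`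
  have hgen2 : ∀ c ∈ A, x * c * x⁻¹ = c⁻¹ →
      u * c * u⁻¹ ∈ A ∧ x * (u * c * u⁻¹) = (u * c * u⁻¹) * x := by
    intro c hc hxcc
    refine ⟨huA c hc, ?_⟩
    set b := u * c * u⁻¹ with hb
    have hbA : b ∈ A := huA c hc
    have hinv : x * (f * b * f⁻¹) * x⁻¹ = b⁻¹ := by
      calc x * (f * b * f⁻¹) * x⁻¹ = (x * f) * b * (x * f)⁻¹ := by
            rw [mul_inv_rev]; simp only [mul_assoc]
        _ = (u * x * u⁻¹) * (u * c * u⁻¹) * (u * x * u⁻¹)⁻¹ := by rw [hx', hb]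
        _ = u * (x * c * x⁻¹) * u⁻¹ := by group
        _ = u * c⁻¹ * u⁻¹ := by rw [hxcc]
        _ = b⁻¹ := by rw [hb]; group
    have hc1 := hfA b hbA
    set c₁ := f * b * f⁻¹ * b with hc1d
    have hfb : f * b * f⁻¹ = c₁ * b⁻¹ := by rw [hc1d, mul_inv_cancel_right]
    rw [hfb] at hinv
    have h1 : x * b * x⁻¹ = c₁ * b := by
      have h2 : c₁ * (x * b * x⁻¹)⁻¹ = b⁻¹ := by
        calc c₁ * (x * b * x⁻¹)⁻¹ = c₁ * x * b⁻¹ * x⁻¹ := by group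
          _ = x * (c₁ * b⁻¹) * x⁻¹ := by rw [hcx c₁ hc1]; simp only [mul_assoc]
          _ = b⁻¹ := hinv
      have h3 : x * b * x⁻¹ = b * c₁ := by
        have h4 := congrArg (fun t => t⁻¹) h2
        simp only [mul_inv_rev, inv_inv] at h4
        calc x * b * x⁻¹ = x * b * x⁻¹ * c₁⁻¹ * c₁ := by
              rw [inv_mul_cancel_right]
          _ = b * c₁ := by rw [h4]
      rw [h3, hcA b hbA c₁ hc1]
    exact ysFT_fix hm hxx h1 (hcx c₁ hc1) (hzm c₁ hc1)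
  have hA1A : A₁ ≤ A := by
    rw [hA₁, closure_le]
    intro b hb
    exact hb.1
  have hA2A : A₂ ≤ A := by
    rw [hA₂]
    rintro _ ⟨c, hc, rfl⟩
    exact huA c (hA1A hc)
  have hcomm : ∀ b ∈ A₁, ∀ c ∈ A₂, b * c = c * b := by
    have h1 : ∀ c ∈ A, x * c = c * x → ∀ b ∈ A₁, b * c = c * b := by
      intro c hc hxcc
      have h2 : A₁ ≤ Subgroup.centralizer {c} := by
        rw [hA₁, closure_le]
        intro b hb
        rw [SetLike.mem_coe, Subgroup.mem_centralizer_singleton_iff]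
        exact ysFT_one hm hA hcl hxc hc hb.1 hxcc hb.2
      intro b hb
      exact Subgroup.mem_centralizer_singleton_iff.1 (h2 hb)
    intro b hb c hc
    have h3 : A₂ ≤ Subgroup.centralizer {b} := by
      rw [hA₂, hA₁, MonoidHom.map_closure, closure_le]
      rintro _ ⟨c, hc, rfl⟩
      rw [SetLike.mem_coe, Subgroup.mem_centralizer_singleton_iff]
      have h4 := hgen2 c hc.1 hc.2
      exact (h1 _ h4.1 h4.2 b hb).symm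
    exact (Subgroup.mem_centralizer_singleton_iff.1 (h3 hc)).symm
  refine ⟨hcomm, ?_⟩
  intro b hb
  have hbx := hxA b hb
  -- `b₁`
  have hb1 : b⁻¹ * (x * b * x⁻¹) ∈ A₁ := by
    rw [hA₁]
    apply Subgroup.subset_closure
    refine ⟨A.mul_mem (A.inv_mem hb) hbx, ?_⟩
    calc x * (b⁻¹ * (x * b * x⁻¹)) * x⁻¹ = (x * b * x⁻¹)⁻¹ * ((x * x) * b * (x * x)⁻¹) := by group
      _ = (x * b * x⁻¹)⁻¹ * b := by rw [hxx, inv_one, mul_one, one_mul]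
      _ = (b⁻¹ * (x * b * x⁻¹))⁻¹ := by group
  have hb1A := hA1A hb1
  set b₁ := b⁻¹ * (x * b * x⁻¹) with hb1d
  have hxbx : x * b * x⁻¹ = b * b₁ := by rw [hb1d, mul_inv_cancel_left]
  -- `b₂`
  have hb2A : b * (x * b * x⁻¹) ∈ A := A.mul_mem hb hbx
  have hxb2 : x * (b * (x * b * x⁻¹)) = (b * (x * b * x⁻¹)) * x := by
    have he : x * b * x⁻¹ * b * (x * b * x⁻¹)⁻¹ * b⁻¹ ∈ ⁅A, A⁆ := by
      have := Subgroup.commutator_mem_commutator hbx hb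
      rwa [commutatorElement_def] at this
    refine ysFT_fix hm hxx (e := x * b * x⁻¹ * b * (x * b * x⁻¹)⁻¹ * b⁻¹) ?_ (hcx _ he) (hzm _ he)
    calc x * (b * (x * b * x⁻¹)) * x⁻¹ = (x * b * x⁻¹) * ((x * x) * b * (x * x)⁻¹) := by group
      _ = (x * b * x⁻¹) * b := by rw [hxx, inv_one, mul_one, one_mul]
      _ = x * b * x⁻¹ * b * (x * b * x⁻¹)⁻¹ * b⁻¹ * (b * (x * b * x⁻¹)) := by group
  set b₂ := b * (x * b * x⁻¹) with hb2d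
  have hb2e : b₂ = b * b * b₁ := by rw [hb2d, hxbx, mul_assoc]
  -- `b₃`
  have hf2A : f * b₂⁻¹ * f⁻¹ ∈ A := hfA' _ (A.inv_mem hb2A)
  have hb3A : b₂ * (f * b₂⁻¹ * f⁻¹) ∈ A := A.mul_mem hb2A hf2A
  have hxb2i : x * b₂ * x⁻¹ = b₂ := by rw [hxb2, mul_inv_cancel_right]
  have hxfb2 : x * (f * b₂⁻¹ * f⁻¹) * x⁻¹ = f * b₂⁻¹ * f⁻¹ := by
    calc x * (f * b₂⁻¹ * f⁻¹) * x⁻¹ = (x * f) * b₂⁻¹ * (x * f)⁻¹ := by
          rw [mul_inv_rev x f]; simp only [mul_assoc]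
      _ = (f * x) * b₂⁻¹ * (f * x)⁻¹ := by rw [hfx]
      _ = f * (x * b₂ * x⁻¹)⁻¹ * f⁻¹ := by group
      _ = f * b₂⁻¹ * f⁻¹ := by rw [hxb2i]
  have hxb3 : x * (b₂ * (f * b₂⁻¹ * f⁻¹)) * x⁻¹ = b₂ * (f * b₂⁻¹ * f⁻¹) := by
    calc x * (b₂ * (f * b₂⁻¹ * f⁻¹)) * x⁻¹
        = (x * b₂ * x⁻¹) * (x * (f * b₂⁻¹ * f⁻¹) * x⁻¹) := by group
      _ = b₂ * (f * b₂⁻¹ * f⁻¹) := by rw [hxb2i, hxfb2]
  have hfb3 : f * (b₂ * (f * b₂⁻¹ * f⁻¹)) * f⁻¹ = (b₂ * (f * b₂⁻¹ * f⁻¹))⁻¹ := by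
    calc f * (b₂ * (f * b₂⁻¹ * f⁻¹)) * f⁻¹ = (f * b₂ * f⁻¹) * ((f * f) * b₂⁻¹ * (f * f)⁻¹) := by
          group
      _ = (f * b₂ * f⁻¹) * b₂⁻¹ := by rw [hff, inv_one, mul_one, one_mul]
      _ = (b₂ * (f * b₂⁻¹ * f⁻¹))⁻¹ := by group
  have hf2c := hfA _ (A.inv_mem hb2A)
  have hb3e : ∃ c₂ ∈ ⁅A, A⁆, b₂ * (f * b₂⁻¹ * f⁻¹) = b₂ * b₂ * c₂ := by
    refine ⟨f * b₂⁻¹ * f⁻¹ * b₂⁻¹, hf2c, ?_⟩
    rw [mul_assoc b₂ b₂, ← hcA b₂ hb2A _ hf2c, inv_mul_cancel_right]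
  have hb3 : b₂ * (f * b₂⁻¹ * f⁻¹) ∈ A₂ := by
    rw [hA₂]
    refine ⟨u⁻¹ * (b₂ * (f * b₂⁻¹ * f⁻¹)) * u, ?_, ?_⟩
    · rw [SetLike.mem_coe, hA₁]
      apply Subgroup.subset_closure
      refine ⟨huA' _ hb3A, ?_⟩
      calc x * (u⁻¹ * (b₂ * (f * b₂⁻¹ * f⁻¹)) * u) * x⁻¹
          = u⁻¹ * ((u * x * u⁻¹) * (b₂ * (f * b₂⁻¹ * f⁻¹)) * (u * x * u⁻¹)⁻¹) * u := by group
        _ = u⁻¹ * (x * (f * (b₂ * (f * b₂⁻¹ * f⁻¹)) * f⁻¹) * x⁻¹) * u := by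
            rw [hx', mul_inv_rev x f]; simp only [mul_assoc]
        _ = u⁻¹ * (x * (b₂ * (f * b₂⁻¹ * f⁻¹))⁻¹ * x⁻¹) * u := by rw [hfb3]
        _ = u⁻¹ * (x * (b₂ * (f * b₂⁻¹ * f⁻¹)) * x⁻¹)⁻¹ * u := by group
        _ = (u⁻¹ * (b₂ * (f * b₂⁻¹ * f⁻¹)) * u)⁻¹ := by rw [hxb3]; group
    · change u * (u⁻¹ * (b₂ * (f * b₂⁻¹ * f⁻¹)) * u) * u⁻¹ = _
      group
  obtain ⟨c₂, hc2, hb3e⟩ := hb3e
  rw [hb3e] at hb3
  -- `b ^ 4`
  have hbb : b * b ∈ A := A.mul_mem hb hb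
  obtain ⟨B, hB⟩ : ∃ B, B = b * b := ⟨_, rfl⟩
  rw [← hB] at hbb
  have hg1 : B * b₁ * B⁻¹ * b₁⁻¹ ∈ ⁅A, A⁆ := by
    have := Subgroup.commutator_mem_commutator hbb hb1A
    rwa [commutatorElement_def] at this
  have hg2 : (B * B) * b₁ * (B * B)⁻¹ * b₁⁻¹ ∈ ⁅A, A⁆ := by
    have := Subgroup.commutator_mem_commutator (A.mul_mem hbb hbb) hb1A
    rwa [commutatorElement_def] at this
  obtain ⟨g1, hg1d⟩ : ∃ g1, g1 = B * b₁ * B⁻¹ * b₁⁻¹ := ⟨_, rfl⟩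
  obtain ⟨g2, hg2d⟩ : ∃ g2, g2 = (B * B) * b₁ * (B * B)⁻¹ * b₁⁻¹ := ⟨_, rfl⟩
  rw [← hg1d] at hg1
  rw [← hg2d] at hg2
  have hb22 : b₂ * b₂ = b₁ * b₁ * (B * B) * (g1 * g2) := by
    calc b₂ * b₂ = B * b₁ * (B * b₁) := by rw [hb2e, hB]
      _ = g1 * (b₁ * (g2 * (b₁ * (B * B)))) := by rw [hg1d, hg2d]; group
      _ = b₁ * (g1 * (g2 * (b₁ * (B * B)))) := by
          rw [← mul_assoc, hcA b₁ hb1A g1 hg1, mul_assoc]
      _ = b₁ * ((g1 * g2) * (b₁ * (B * B))) := by rw [mul_assoc g1 g2]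
      _ = b₁ * ((b₁ * (B * B)) * (g1 * g2)) := by
          rw [hcA _ (A.mul_mem hb1A (A.mul_mem hbb hbb)) _ (mul_mem hg1 hg2)]
      _ = b₁ * b₁ * (B * B) * (g1 * g2) := by simp only [mul_assoc]
  have hb4 : ∃ a₁ ∈ A₁, ∃ a₂ ∈ A₂, ∃ c ∈ ⁅A, A⁆, b ^ 4 = a₁ * a₂ * c := by
    refine ⟨b₁⁻¹ * b₁⁻¹, A₁.mul_mem (A₁.inv_mem hb1) (A₁.inv_mem hb1), b₂ * b₂ * c₂, hb3,
      c₂⁻¹ * (g1 * g2)⁻¹, mul_mem (inv_mem hc2) (inv_mem (mul_mem hg1 hg2)), ?_⟩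
    rw [hb22]
    calc b ^ 4 = B * B := by rw [hB]; simp only [pow_succ, pow_zero, one_mul, mul_assoc]
      _ = _ := by group
  obtain ⟨a₁, ha1, a₂, ha2, c, hc, hb4⟩ := hb4
  -- `b` is a power of `b ^ 4`
  obtain ⟨k, hk⟩ : ∃ k : ℕ, (b ^ 4) ^ k = b := by
    have hcop : (orderOf b).Coprime 4 := by
      have h1 : orderOf b ∣ m := orderOf_dvd_of_pow_eq_one (hA b hb)
      have h2 : m.Coprime 4 := by
        have : m.Coprime (2 ^ 2) := Nat.Coprime.pow_right 2 (Nat.coprime_two_right.2 hm)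
        exact this
      exact Nat.Coprime.coprime_dvd_left h1 h2
    obtain ⟨k, hk⟩ := exists_pow_eq_self_of_coprime hcop.symm
    exact ⟨k, hk⟩
  have h12 : Commute a₁ a₂ := hcomm a₁ ha1 a₂ ha2
  have h123 : Commute (a₁ * a₂) c :=
    (hcA _ (A.mul_mem (hA1A ha1) (hA2A ha2)) c hc).symm
  refine ⟨a₁ ^ k, A₁.pow_mem ha1 k, a₂ ^ k, A₂.pow_mem ha2 k, c ^ k, pow_mem hc k, ?_⟩
  rw [← h12.mul_pow, ← h123.mul_pow, ← hb4, hk]

end Pool.Agent.Lib.MP_544bd1_al
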