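import Mathlib
import Pool.Agent.Lib.MP_544bd1_al.TwS2

/-!
Theorem Z (paper 287): section 1, finality.
-/

namespace Pool.Agent.Lib.MP_544bd1_al

open Subgroup

/-- **The index of the radical.**

Proof. Let `Rd₂ = Rd₁.map (MulAut.conj u)`: since `u` centralizes the commutators (`huc`), it is the set
of the `b ∈ A₂` whose commutators with `A₂` are in `Λ` (`x * y * x⁻¹ * y⁻¹` is not changed by
conjugation with `u`), and `Rd₂.relIndex A₂ = r ^ 2`. If `b₁ ∈ Rd₁`, `b₂ ∈ Rd₂`, then `b₁, b₂ ∈ Rd`: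
e.g. for `b₁` and `y = y₁ * y₂ * c` (`hdec`): `b₁ * y * b₁⁻¹ * y⁻¹ = b₁ * y₁ * b₁⁻¹ * y₁⁻¹ ∈ Λ` (`b₁` commutes
with `y₂` and `c`). `⁅A, A⁆ ≤ Rd` (`hcl`). So the map `(b₁, b₂) ↦ b₁ * b₂ * Rd` induces a surjection
`(A₁ ⧸ Rd₁) × (A₂ ⧸ Rd₂) → A ⧸ Rd` (well defined: `A₁`, `A₂` commute, `Rd` is normal in `A` because
`⁅A, A⁆ ≤ Rd`); or: choose transversals; so `Rd.relIndex A ≤ r ^ 2 * r ^ 2`. -/
theorem ysFT_idx {r : ℕ} {H : Type} [Group H] [Finite H] {A A₁ A₂ Rd Rd₁ Λ : Subgroup H}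
    (hA₁A : A₁ ≤ A)
    (hcl : ∀ b ∈ A, ∀ c ∈ A, ∀ d ∈ A, b * c * b⁻¹ * c⁻¹ * d = d * (b * c * b⁻¹ * c⁻¹))
    {u : H} (huA : ∀ b ∈ A, u * b * u⁻¹ ∈ A)
    (huc : ∀ b ∈ A, ∀ c ∈ A, u * (b * c * b⁻¹ * c⁻¹) = b * c * b⁻¹ * c⁻¹ * u)
    (hA₂ : A₂ = A₁.map (MulAut.conj u).toMonoidHom)
    (hcom : ∀ b ∈ A₁, ∀ c ∈ A₂, b * c = c * b)
    (hdec : ∀ b ∈ A, ∃ b₁ ∈ A₁, ∃ b₂ ∈ A₂, ∃ c ∈ ⁅A, A⁆, b = b₁ * b₂ * c)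
    (hRd₁ : ∀ x, x ∈ Rd₁ ↔ x ∈ A₁ ∧ ∀ y ∈ A₁, x * y * x⁻¹ * y⁻¹ ∈ Λ)
    (hidx : Rd₁.relIndex A₁ = r ^ 2)
    (hRd : ∀ x, x ∈ Rd ↔ x ∈ A ∧ ∀ y ∈ A, x * y * x⁻¹ * y⁻¹ ∈ Λ) : Rd.relIndex A ≤ r ^ 4 := by
  classical
  have hA₂A : A₂ ≤ A := by
    rw [hA₂]
    rintro _ ⟨z, hz, rfl⟩
    exact huA z (hA₁A hz)
  -- commutators are central in `A`
  have hcen : ∀ b ∈ A, ∀ c ∈ A, b * c * b⁻¹ * c⁻¹ ∈ Rd := by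
    intro b hb c hc
    rw [hRd]
    refine ⟨A.mul_mem (A.mul_mem (A.mul_mem hb hc) (A.inv_mem hb)) (A.inv_mem hc), ?_⟩
    intro y hy
    rw [hcl b hb c hc y hy]
    have : y * (b * c * b⁻¹ * c⁻¹) * (b * c * b⁻¹ * c⁻¹)⁻¹ * y⁻¹ = 1 := by group
    rw [this]
    exact Λ.one_mem
  have hcA : ⁅A, A⁆ ≤ Rd := by
    rw [Subgroup.commutator_le]
    intro b hb c hc
    exact hcen b hb c hc
  have hcc : ∀ c ∈ ⁅A, A⁆, ∀ d ∈ A, c * d = d * c := by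
    intro c hc d hd
    have h1 : ⁅A, A⁆ ≤ Subgroup.centralizer {d} := by
      rw [Subgroup.commutator_le]
      intro b hb c hc
      rw [Subgroup.mem_centralizer_singleton_iff]
      exact hcl b hb c hc d hd
    exact Subgroup.mem_centralizer_singleton_iff.1 (h1 hc)
  have hcAA : ∀ c ∈ ⁅A, A⁆, c ∈ A := fun c hc => ((hRd c).1 (hcA hc)).1
  have hR1 : ∀ b ∈ Rd₁, b ∈ Rd := by
    intro b hb
    obtain ⟨hbA, hbc⟩ := (hRd₁ b).1 hb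
    rw [hRd]
    refine ⟨hA₁A hbA, ?_⟩
    intro y hy
    obtain ⟨y₁, hy₁, y₂, hy₂, c, hc, rfl⟩ := hdec y hy
    have h1 : b * y₂ = y₂ * b := hcom b hbA y₂ hy₂
    have h2 : b * c = c * b := (hcc c hc b (hA₁A hbA)).symm
    have h3 : b * (y₁ * y₂ * c) * b⁻¹ * (y₁ * y₂ * c)⁻¹ = b * y₁ * b⁻¹ * y₁⁻¹ := by
      have h4 : y₂ * c = b⁻¹ * (y₂ * c) * b := by
        rw [eq_comm, mul_assoc, mul_assoc, ← h2, ← mul_assoc y₂, ← h1]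
        group
      calc b * (y₁ * y₂ * c) * b⁻¹ * (y₁ * y₂ * c)⁻¹
          = b * y₁ * (y₂ * c) * b⁻¹ * (y₂ * c)⁻¹ * y₁⁻¹ := by group
        _ = b * y₁ * (b⁻¹ * (y₂ * c) * b) * b⁻¹ * (y₂ * c)⁻¹ * y₁⁻¹ := by rw [← h4]
        _ = b * y₁ * b⁻¹ * y₁⁻¹ := by group
    rw [h3]
    exact hbc y₁ hy₁
  have hR2 : ∀ b ∈ Rd₁.map (MulAut.conj u).toMonoidHom, b ∈ Rd := by
    rintro _ ⟨b, hb, rfl⟩
    obtain ⟨hbA, hbc⟩ := (hRd₁ b).1 hb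
    have hbu : (MulAut.conj u).toMonoidHom b = u * b * u⁻¹ := rfl
    rw [hbu]
    set b' := u * b * u⁻¹ with hb'
    have hb'A : b' ∈ A := huA b (hA₁A hbA)
    have hb'A₂ : b' ∈ A₂ := by
      rw [hA₂]
      exact ⟨b, hbA, rfl⟩
    rw [hRd]
    refine ⟨hb'A, ?_⟩
    intro y hy
    obtain ⟨y₁, hy₁, y₂, hy₂, c, hc, rfl⟩ := hdec y hy
    have hy₂' := hy₂
    rw [hA₂] at hy₂'
    obtain ⟨z, hz, hzy⟩ := hy₂'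
    have hzy' : u * z * u⁻¹ = y₂ := hzy
    have h1 : y₁ * b' = b' * y₁ := hcom y₁ hy₁ b' hb'A₂
    have h2 : c * b' = b' * c := hcc c hc b' hb'A
    have hcm : b' * y₂ * b'⁻¹ * y₂⁻¹ * y₁ = y₁ * (b' * y₂ * b'⁻¹ * y₂⁻¹) :=
      hcl b' hb'A y₂ (hA₂A hy₂) y₁ (hA₁A hy₁)
    have h3 : b' * (y₁ * y₂ * c) * b'⁻¹ * (y₁ * y₂ * c)⁻¹ = b' * y₂ * b'⁻¹ * y₂⁻¹ := by
      have h5 : c * b'⁻¹ = b'⁻¹ * c := by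
        rw [eq_inv_mul_iff_mul_eq, ← mul_assoc, ← h2]
        group
      calc b' * (y₁ * y₂ * c) * b'⁻¹ * (y₁ * y₂ * c)⁻¹
          = (b' * y₁) * y₂ * (c * b'⁻¹) * c⁻¹ * y₂⁻¹ * y₁⁻¹ := by group
        _ = (y₁ * b') * y₂ * (b'⁻¹ * c) * c⁻¹ * y₂⁻¹ * y₁⁻¹ := by rw [h5, h1]
        _ = (y₁ * (b' * y₂ * b'⁻¹ * y₂⁻¹)) * y₁⁻¹ := by group
        _ = (b' * y₂ * b'⁻¹ * y₂⁻¹ * y₁) * y₁⁻¹ := by rw [hcm]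
        _ = b' * y₂ * b'⁻¹ * y₂⁻¹ := by group
    rw [h3]
    have h6 : b' * y₂ * b'⁻¹ * y₂⁻¹ = b * z * b⁻¹ * z⁻¹ := by
      rw [hb', ← hzy']
      have h7 := huc b (hA₁A hbA) z (hA₁A hz)
      calc u * b * u⁻¹ * (u * z * u⁻¹) * (u * b * u⁻¹)⁻¹ * (u * z * u⁻¹)⁻¹
          = u * (b * z * b⁻¹ * z⁻¹) * u⁻¹ := by group
        _ = (b * z * b⁻¹ * z⁻¹ * u) * u⁻¹ := by rw [h7]
        _ = b * z * b⁻¹ * z⁻¹ := by group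
    rw [h6]
    exact hbc z hz
  set Rd₂ := Rd₁.map (MulAut.conj u).toMonoidHom with hRd₂
  have hidx2 : Rd₂.relIndex A₂ = r ^ 2 := by
    rw [hRd₂, hA₂, Subgroup.relIndex_map_map_of_injective _ _ (MulAut.conj u).injective, hidx]
  have hcard : Rd.relIndex A ≤ Rd₁.relIndex A₁ * Rd₂.relIndex A₂ := by
    rw [Subgroup.relIndex, Subgroup.relIndex, Subgroup.relIndex, Subgroup.index, Subgroup.index,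
      Subgroup.index, ← Nat.card_prod]
    let f : (A₁ ⧸ Rd₁.subgroupOf A₁) × (A₂ ⧸ Rd₂.subgroupOf A₂) → A ⧸ Rd.subgroupOf A :=
      fun q => QuotientGroup.mk (⟨(q.1.out : H) * (q.2.out : H),
        A.mul_mem (hA₁A q.1.out.2) (hA₂A q.2.out.2)⟩ : A)
    refine Nat.card_le_card_of_surjective f ?_
    intro q
    obtain ⟨⟨b, hb⟩, rfl⟩ := QuotientGroup.mk_surjective q
    obtain ⟨b₁, hb₁, b₂, hb₂, c, hc, rfl⟩ := hdec b hb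
    refine ⟨(QuotientGroup.mk (⟨b₁, hb₁⟩ : A₁), QuotientGroup.mk (⟨b₂, hb₂⟩ : A₂)), ?_⟩
    obtain ⟨r₁, hr₁⟩ := QuotientGroup.mk_out_eq_mul (Rd₁.subgroupOf A₁) ⟨b₁, hb₁⟩
    obtain ⟨r₂, hr₂⟩ := QuotientGroup.mk_out_eq_mul (Rd₂.subgroupOf A₂) ⟨b₂, hb₂⟩
    have hr₁R : ((r₁ : A₁) : H) ∈ Rd₁ := Subgroup.mem_subgroupOf.1 r₁.2
    have hr₂R : ((r₂ : A₂) : H) ∈ Rd₂ := Subgroup.mem_subgroupOf.1 r₂.2
    have e1 : (((QuotientGroup.mk (⟨b₁, hb₁⟩ : A₁) : A₁ ⧸ Rd₁.subgroupOf A₁).out : A₁) : H) =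
        b₁ * ((r₁ : A₁) : H) := by
      rw [hr₁]; rfl
    have e2 : (((QuotientGroup.mk (⟨b₂, hb₂⟩ : A₂) : A₂ ⧸ Rd₂.subgroupOf A₂).out : A₂) : H) =
        b₂ * ((r₂ : A₂) : H) := by
      rw [hr₂]; rfl
    symm
    simp only [f]
    rw [QuotientGroup.eq, Subgroup.mem_subgroupOf]
    simp only [Subgroup.coe_mul, InvMemClass.coe_inv]
    rw [e1, e2]
    have h8 : ((r₁ : A₁) : H) * b₂ = b₂ * ((r₁ : A₁) : H) := hcom _ (r₁ : A₁).2 b₂ hb₂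
    have h9 : (b₁ * b₂ * c)⁻¹ * (b₁ * ((r₁ : A₁) : H) * (b₂ * ((r₂ : A₂) : H))) =
        c⁻¹ * (((r₁ : A₁) : H) * ((r₂ : A₂) : H)) := by
      calc (b₁ * b₂ * c)⁻¹ * (b₁ * ((r₁ : A₁) : H) * (b₂ * ((r₂ : A₂) : H)))
          = c⁻¹ * b₂⁻¹ * (((r₁ : A₁) : H) * b₂) * ((r₂ : A₂) : H) := by group
        _ = c⁻¹ * b₂⁻¹ * (b₂ * ((r₁ : A₁) : H)) * ((r₂ : A₂) : H) := by rw [h8]
        _ = c⁻¹ * (((r₁ : A₁) : H) * ((r₂ : A₂) : H)) := by group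
    rw [h9]
    exact Rd.mul_mem (Rd.inv_mem (hcA hc)) (Rd.mul_mem (hR1 _ hr₁R) (hR2 _ hr₂R))
  rw [hidx, hidx2] at hcard
  calc Rd.relIndex A ≤ r ^ 2 * r ^ 2 := hcard
    _ = r ^ 4 := by ring

end Pool.Agent.Lib.MP_544bd1_al
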