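import Mathlib
import Pool.Agent.Lib.MP_544bd1_al.TwS2
import Pool.Agent.Lib.MP_544bd1_al.ZtSpl
import Pool.Agent.Lib.MP_544bd1_al.ZsFcore
import Pool.Agent.Lib.MP_544bd1_al.ZsFhalf
import Pool.Agent.Lib.MP_544bd1_al.ZsFidx

/-!
Theorem Z (paper 287): section 1, finality.
-/

namespace Pool.Agent.Lib.MP_544bd1_al

open Subgroup

/-- the core of the finality argument -/
theorem ysFT_core {m a : ℕ} (hm : Odd m) (ha : 0 < a) {H : Type} [Group H] [Finite H]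
    (hsol : Group.IsSolvable H) (hexp : ∀ x : H, x ^ (m * 2 ^ a) = 1)
    (hbot : krad (2 ^ a) H = ⊥) (hV : ZRep m a H) {S Q : Subgroup H} (hQS : Q ≤ S) {g u f : H}
    (hg : g ^ (2 ^ a) = 1) (hgS : g ∈ S) (hu : u ∈ Q) (hf : f ∈ Q) (hf1 : f ≠ 1) (hf2 : f ^ 2 = 1)
    (hfS : ∀ h ∈ S, h * f = f * h)
    (hi : ∀ B : Subgroup H, (∀ h ∈ S, h ^ (2 ^ a) = 1 → h ^ (2 ^ (a - 1)) ∈ B) → Q ≤ B)
    (hii : ∀ (r : ℕ), r.Prime → r ≠ 2 → ∀ (X : Type) [AddCommGroup X] [Module (ZMod r) X]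
      [Finite X] (ρ : Q →* Module.End (ZMod r) X), Nat.card X ≤ r ^ 4 → ρ ⟨f, hf⟩ = -1 →
      ∀ x : X, x = 0)
    (hx : u⁻¹ * g ^ (2 ^ (a - 1)) * u = g ^ (2 ^ (a - 1)) * f) : False := by
  obtain ⟨r, A, D⟩ := zt_minH hm hsol hexp hbot S (hQS hf) hf2 hf1
  obtain ⟨cQ, cx⟩ := ysFT_cen hm ha hV D hi
  have hfA := ysFT_inv hm D (hQS hf) hf2 hfS
  obtain ⟨x, hxd⟩ : ∃ x, x = g ^ (2 ^ (a - 1)) := ⟨_, rfl⟩
  have hxS : x ∈ S := by rw [hxd]; exact S.pow_mem hgS _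
  have hx2 : x ^ 2 = 1 := by
    rw [hxd, ← pow_mul, ← pow_succ, Nat.sub_add_cancel ha]
    exact hg
  have hgx : g * x = x * g := by rw [hxd, ← pow_succ, ← pow_succ']
  have hxc : ∀ b ∈ A, ∀ c ∈ A, x * (b * c * b⁻¹ * c⁻¹) = b * c * b⁻¹ * c⁻¹ * x := by
    rw [hxd]
    exact cx g hgS hg
  rw [← hxd] at hx
  obtain ⟨A₁, hA₁⟩ : ∃ A₁, A₁ = closure {b | b ∈ A ∧ x * b * x⁻¹ = b⁻¹} := ⟨_, rfl⟩
  obtain ⟨A₂, hA₂⟩ : ∃ A₂, A₂ = A₁.map (MulAut.conj u).toMonoidHom := ⟨_, rfl⟩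
  have hA₁A : A₁ ≤ A := by
    rw [hA₁, closure_le]
    exact fun b hb => hb.1
  obtain ⟨hcom, hdec⟩ := ysFT_half hm D.odd D.cl hx2 (D.inv x hxS) (D.inv u (hQS hu)) hxc hf2
    (D.inv f (hQS hf)) hfA (hfS x hxS) (hfS u (hQS hu)) hx hA₁ hA₂
  have hgA₁ : ∀ b ∈ A₁, g * b * g⁻¹ ∈ A₁ := by
    have h1 : A₁ ≤ A₁.comap (MulAut.conj g).toMonoidHom := by
      nth_rewrite 1 [hA₁]
      rw [closure_le]
      rintro b ⟨hb, hb'⟩
      show g * b * g⁻¹ ∈ A₁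
      rw [hA₁]
      apply Subgroup.subset_closure
      refine ⟨D.inv g hgS b hb, ?_⟩
      have e1 : g⁻¹ * x⁻¹ = x⁻¹ * g⁻¹ := by rw [← mul_inv_rev, ← mul_inv_rev, hgx]
      calc x * (g * b * g⁻¹) * x⁻¹ = (x * g) * b * (g⁻¹ * x⁻¹) := by group
        _ = (g * x) * b * (x⁻¹ * g⁻¹) := by rw [hgx, e1]
        _ = g * (x * b * x⁻¹) * g⁻¹ := by group
        _ = (g * b * g⁻¹)⁻¹ := by rw [hb']; group
    exact fun b hb => h1 hb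
  have hgen : ∀ B : Subgroup H, (∀ b ∈ A₁, x * b * x⁻¹ = b⁻¹ → b ∈ B) → A₁ ≤ B := by
    intro B hB
    nth_rewrite 1 [hA₁]
    rw [closure_le]
    rintro b ⟨hb, hb'⟩
    refine hB b ?_ hb'
    rw [hA₁]
    exact Subgroup.subset_closure ⟨hb, hb'⟩
  -- `A₁` is not commutative
  have hne : ∃ b ∈ A₁, ∃ c ∈ A₁, b * c ≠ c * b := by
    by_contra hcon
    push Not at hcon
    have h1 := zt_reg0 ha hm hV A₁ (fun b hb => D.odd b (hA₁A hb)) hcon hg hgA₁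
    rw [← hxd] at h1
    have h2 : A₁ ≤ ⊥ := by
      apply hgen
      intro b hb hb'
      have h3 : b = b⁻¹ := by
        rw [← hb', h1 b hb, mul_inv_cancel_right]
      rw [mem_bot]
      refine fr_one_two hm (D.odd b (hA₁A hb)) ?_
      rw [pow_two]
      nth_rewrite 2 [h3]
      exact mul_inv_cancel b
    have h3 : A₂ ≤ ⊥ := by
      rw [hA₂]
      rintro _ ⟨b, hb, rfl⟩
      have h4 := mem_bot.1 (h2 hb)
      rw [h4, map_one]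
      exact one_mem _
    obtain ⟨b, hb, hfb⟩ := D.ne
    apply hfb
    obtain ⟨b₁, hb₁, b₂, hb₂, c, hc, rfl⟩ := hdec b hb
    rw [mem_bot.1 (h2 hb₁), mem_bot.1 (h3 hb₂), one_mul, one_mul]
    have h5 : (⁅A, A⁆ : Subgroup H) ≤ centralizer {f} := by
      rw [commutator_le]
      intro y hy z hz
      rw [mem_centralizer_singleton_iff]
      exact (D.cz y hy z hz).symm
    exact (mem_centralizer_singleton_iff.1 (h5 hc)).symm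
  obtain ⟨Λ, Rd₁, b, hRd₁, -, -, -, hidx⟩ := zt_L2g hm ha D.hr D.hr2 hV A₁ (D.pg.to_le hA₁A)
    (fun b hb => D.odd b (hA₁A hb))
    (fun b hb c hc d hd => D.cl b (hA₁A hb) c (hA₁A hc) d (hA₁A hd)) hg hgA₁
    (by rw [← hxd]; exact hgen) hne
  let Rd : Subgroup H :=
    { carrier := {b | b ∈ A ∧ ∀ y ∈ A, b * y * b⁻¹ * y⁻¹ ∈ Λ}
      mul_mem' := by
        rintro b c ⟨hb, hb'⟩ ⟨hc, hc'⟩
        refine ⟨A.mul_mem hb hc, fun y hy => ?_⟩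
        have e1 : b * c * y * (b * c)⁻¹ * y⁻¹ =
            (c * y * c⁻¹ * y⁻¹) * (b * y * b⁻¹ * y⁻¹) := by
          have e2 := D.cl c hc y hy b hb
          calc b * c * y * (b * c)⁻¹ * y⁻¹ = (b * (c * y * c⁻¹ * y⁻¹)) * (y * b⁻¹ * y⁻¹) := by group
            _ = _ := by rw [← e2]; group
        rw [e1]
        exact Λ.mul_mem (hc' y hy) (hb' y hy)
      one_mem' := ⟨A.one_mem, fun y _ => by
        have h1 : (1 : H) * y * 1⁻¹ * y⁻¹ = 1 := by group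
        rw [h1]
        exact Λ.one_mem⟩
      inv_mem' := by
        rintro b ⟨hb, hb'⟩
        refine ⟨A.inv_mem hb, fun y hy => ?_⟩
        have e1 : b⁻¹ * y * b⁻¹⁻¹ * y⁻¹ = (b * y * b⁻¹ * y⁻¹)⁻¹ := by
          have e2 := D.cl b hb y hy b hb
          have e3 : b⁻¹ * y * b⁻¹⁻¹ * y⁻¹ = b⁻¹ * ((b * y * b⁻¹ * y⁻¹)⁻¹ * b) := by group
          have e4 : (b * y * b⁻¹ * y⁻¹)⁻¹ * b = b * (b * y * b⁻¹ * y⁻¹)⁻¹ := by
            have h5 : Commute (b * y * b⁻¹ * y⁻¹) b := e2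
            exact h5.inv_left.eq
          rw [e3, e4, inv_mul_cancel_left]
        rw [e1]
        exact Λ.inv_mem (hb' y hy) }
  have hRd : ∀ y, y ∈ Rd ↔ y ∈ A ∧ ∀ z ∈ A, y * z * y⁻¹ * z⁻¹ ∈ Λ := fun y => Iff.rfl
  have hcard := ysFT_idx hA₁A D.cl (D.inv u (hQS hu)) (fun b hb c hc => cQ u hu b hb c hc) hA₂
    hcom hdec hRd₁ hidx hRd
  have hAR : (⁅A, A⁆ : Subgroup H) ≤ Rd := by
    rw [commutator_le]
    intro y hy z hz
    refine ⟨A.mul_mem (A.mul_mem (A.mul_mem hy hz) (A.inv_mem hy)) (A.inv_mem hz), fun w hw => ?_⟩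
    have h1 := D.cl y hy z hz w hw
    have h2 : (y * z * y⁻¹ * z⁻¹) * w * (y * z * y⁻¹ * z⁻¹)⁻¹ * w⁻¹ = 1 := by
      rw [h1]
      group
    show (y * z * y⁻¹ * z⁻¹) * w * (y * z * y⁻¹ * z⁻¹)⁻¹ * w⁻¹ ∈ Λ
    rw [h2]
    exact Λ.one_mem
  have hneR : Rd ≠ A := by
    intro h
    have h1 : Rd₁ = A₁ := by
      apply le_antisymm
      · exact fun y hy => ((hRd₁ y).1 hy).1
      · intro y hy
        refine (hRd₁ y).2 ⟨hy, fun z hz => ?_⟩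
        have h2 : y ∈ Rd := by
          rw [h]
          exact hA₁A hy
        exact h2.2 z (hA₁A hz)
    rw [h1, relIndex_self] at hidx
    have h3 := D.hr.two_le
    nlinarith
  refine ysFT_rep D.hr D.hr2 (A := A) (Rd := Rd) (Q := Q) D.pg (fun y hy => hy.1) hneR hcard
    (fun b hb c hc => hAR (commutator_mem_commutator hb hc)) (fun q hq b hb => D.inv q (hQS hq) b hb)
    ?_ hf hf2 (fun b hb => hAR (hfA b hb)) (hii r D.hr D.hr2)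
  intro q hq b hb
  refine ⟨D.inv q (hQS hq) b hb.1, fun y hy => ?_⟩
  have hy' : q⁻¹ * y * q ∈ A := by
    have h1 := D.inv q⁻¹ (S.inv_mem (hQS hq)) y hy
    rwa [inv_inv] at h1
  have e1 : q * b * q⁻¹ * y * (q * b * q⁻¹)⁻¹ * y⁻¹ =
      q * (b * (q⁻¹ * y * q) * b⁻¹ * (q⁻¹ * y * q)⁻¹) * q⁻¹ := by group
  rw [e1, cQ q hq b hb.1 _ hy', mul_inv_cancel_right]
  exact hb.2 _ hy'

/-- **finality** -/
theorem ysFT_fin {m a : ℕ} (hm : Odd m) (ha : 0 < a) {G : Type} [Group G]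
    (hexp : ∀ x : G, x ^ (m * 2 ^ a) = 1) {S Q Y : Subgroup G} {g u f w s : G}
    (D : YFT m a S Q Y g u f w s) (N : Subgroup G) (hfin : Finite N)
    (hsol : Group.IsSolvable N) (hSN : S ≤ N) : InOP m (2 ^ a) N f := by
  have hexpN : ∀ x : N, x ^ (m * 2 ^ a) = 1 := tw_exp_sub hexp N
  have hfN : f ∈ N := hSN (D.hQS D.hf)
  by_contra hcon
  have hne : zp m a N ⟨f, hfN⟩ ≠ 1 := by
    intro h
    apply hcon
    exact (InOP.top_iff (⟨f, hfN⟩ : N)).1 ((zt_op_iff hm hexpN).2 h)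
  obtain ⟨j, hj⟩ : ∃ j : S →* ZH m a N, j = (zp m a N).comp (Subgroup.inclusion hSN) := ⟨_, rfl⟩
  have hjz : ∀ (h : G) (hh : h ∈ S), j ⟨h, hh⟩ = zp m a N ⟨h, hSN hh⟩ := by
    intro h hh
    rw [hj]
    rfl
  let Q₀ : Subgroup S := Q.subgroupOf S
  have hfQ₀ : (⟨f, D.hQS D.hf⟩ : S) ∈ Q₀ := mem_subgroupOf.2 D.hf
  refine ysFT_core hm ha (zt_sol hsol) (zt_exp hexpN) (zt_bot hm hexpN) (zt_rep hm hsol hexpN)
    (S := (⊤ : Subgroup S).map j) (Q := Q₀.map j) (g := j ⟨g, D.hgS⟩)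
    (u := j ⟨u, D.hQS D.hu⟩) (f := j ⟨f, D.hQS D.hf⟩) (map_mono le_top) ?_ ⟨_, mem_top _, rfl⟩
    ⟨_, mem_subgroupOf.2 D.hu, rfl⟩ ⟨_, hfQ₀, rfl⟩ ?_ ?_ ?_ ?_ ?_ ?_
  · rw [← map_pow]
    have h1 : (⟨g, D.hgS⟩ : S) ^ (2 ^ a) = 1 := Subtype.ext (by simpa using D.hg)
    rw [h1, map_one]
  · rw [hjz]
    exact hne
  · rw [← map_pow]
    have h1 : (⟨f, D.hQS D.hf⟩ : S) ^ 2 = 1 := Subtype.ext (by simpa using D.hf2)
    rw [h1, map_one]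
  · rintro _ ⟨h, -, rfl⟩
    rw [← map_mul, ← map_mul]
    congr 1
    exact Subtype.ext (D.hfS h h.2)
  · -- (i)
    intro B hB
    have h1 := D.i ((B.comap j).map S.subtype) (by
      intro h hh h2
      refine ⟨(⟨h, hh⟩ : S) ^ (2 ^ (a - 1)), ?_, by simp⟩
      show j ((⟨h, hh⟩ : S) ^ (2 ^ (a - 1))) ∈ B
      rw [map_pow]
      refine hB _ ⟨_, mem_top _, rfl⟩ ?_
      rw [← map_pow]
      have h3 : (⟨h, hh⟩ : S) ^ (2 ^ a) = 1 := Subtype.ext (by simpa using h2)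
      rw [h3, map_one])
    rintro _ ⟨y, hy, rfl⟩
    obtain ⟨y', hy', hyy⟩ := h1 (mem_subgroupOf.1 hy)
    have h4 : y' = y := Subtype.ext hyy
    rw [← h4]
    exact hy'
  · -- (ii)
    intro r hr hr2 X _ _ _ ρ hX hρ
    let θ : Q →* (Q₀.map j) := MonoidHom.mk' (fun q => ⟨j ⟨q, D.hQS q.2⟩, ⟨_, mem_subgroupOf.2 q.2, rfl⟩⟩)
      (by
        intro q q'
        apply Subtype.ext
        show j ⟨(q : G) * q', _⟩ = j ⟨q, _⟩ * j ⟨q', _⟩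
        rw [← map_mul]
        rfl)
    exact D.ii r hr hr2 X (ρ.comp θ) hX hρ
  · have h1 : (⟨u, D.hQS D.hu⟩ : S)⁻¹ * (⟨g, D.hgS⟩ : S) ^ (2 ^ (a - 1)) * ⟨u, D.hQS D.hu⟩ =
        (⟨g, D.hgS⟩ : S) ^ (2 ^ (a - 1)) * ⟨f, D.hQS D.hf⟩ := Subtype.ext (by simpa using D.hx)
    have h2 := congrArg j h1
    simpa only [map_mul, map_inv, map_pow] using h2

end Pool.Agent.Lib.MP_544bd1_al
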