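import Mathlib
import Pool.Agent.Lib.MP_544bd1_al.TwS3
import Pool.Agent.Lib.MP_544bd1_al.ZtDefs3
import Pool.Agent.Lib.MP_544bd1_al.ZsWt
import Pool.Agent.Lib.MP_544bd1_al.TwU1
import Pool.Agent.Lib.MP_544bd1_al.ZtFrat
import Pool.Agent.Lib.MP_544bd1_al.TwLZ
import Pool.Agent.Lib.MP_544bd1_al.ZtFP
import Pool.Agent.Lib.MP_544bd1_al.TwS2
import Pool.Agent.Lib.MP_544bd1_al.ZtNorm

section

/-!
Theorem Z3, Case A, `P` abelian: images and restrictions of configurations.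
-/

namespace Pool.Agent.Lib.MP_544bd1_al

open Subgroup

/-- the image of a configuration -/
theorem ZA1.map {m : ℕ} {F H : Type} [Group F] [Group H] (f : F →* H) {P : Subgroup F}
    {x ρ p : F} (D : ZA1 m P x ρ p) (hz : f ((p * x) ^ 4) ≠ 1) :
    ZA1 m (P.map f) (f x) (f ρ) (f p) := by
  refine ⟨?_, ?_, ?_, ?_, ?_, ?_, ⟨p, D.hp, rfl⟩, ?_, ?_⟩
  · rintro _ ⟨q, hq, rfl⟩
    rw [← map_pow, D.hP q hq, map_one]
  · rw [← map_pow, D.hx, map_one]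
  · rw [← map_pow, D.hρ, map_one]
  · rw [← map_pow, ← map_mul, ← map_inv, ← map_mul, D.hρx, map_inv]
  · rintro _ ⟨q, hq, rfl⟩
    exact ⟨_, D.hPx q hq, by simp⟩
  · rintro _ ⟨q, hq, rfl⟩
    exact ⟨_, D.hPρ q hq, by simp⟩
  · rwa [← map_mul, ← map_pow]
  · intro P' h1 h2 h3 h4
    have h5 : P ⊓ P'.comap f = P := by
      apply D.gen _ inf_le_left
      · refine ⟨?_, ?_⟩
        · have e1 : (p * x) ^ 4 = p * (x * p * x⁻¹) * (x * (x * p * x⁻¹) * x⁻¹) *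
              (x * (x * (x * p * x⁻¹) * x⁻¹) * x⁻¹) * x ^ 4 := by
            simp only [pow_succ, pow_zero, one_mul]
            group
          rw [e1, D.hx, mul_one]
          have a1 := D.hPx p D.hp
          have a2 := D.hPx _ a1
          have a3 := D.hPx _ a2
          exact P.mul_mem (P.mul_mem (P.mul_mem D.hp a1) a2) a3
        · show f ((p * x) ^ 4) ∈ P'
          rw [map_pow, map_mul]
          exact h2
      · rintro q ⟨hq, hq'⟩
        refine ⟨D.hPx q hq, ?_⟩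
        show f (x * q * x⁻¹) ∈ P'
        rw [map_mul, map_mul, map_inv]
        exact h3 _ hq'
      · rintro q ⟨hq, hq'⟩
        refine ⟨D.hPρ q hq, ?_⟩
        show f (ρ * q * ρ⁻¹) ∈ P'
        rw [map_mul, map_mul, map_inv]
        exact h4 _ hq'
    refine le_antisymm h1 ?_
    rintro _ ⟨q, hq, rfl⟩
    rw [← h5] at hq
    exact hq.2

/-- the restriction of a configuration to a subgroup -/
theorem ZA1.sub {m : ℕ} {F : Type} [Group F] {P : Subgroup F} {x ρ p : F} (D : ZA1 m P x ρ p)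
    (N : Subgroup F) (hPN : P ≤ N) (hxN : x ∈ N) (hρN : ρ ∈ N) :
    ZA1 m (P.subgroupOf N) (⟨x, hxN⟩ : N) ⟨ρ, hρN⟩ ⟨p, hPN D.hp⟩ := by
  refine ⟨?_, ?_, ?_, ?_, ?_, ?_, ?_, ?_, ?_⟩
  · intro q hq
    exact Subtype.ext (by simpa using D.hP q hq)
  · exact Subtype.ext (by simpa using D.hx)
  · exact Subtype.ext (by simpa using D.hρ)
  · exact Subtype.ext (by simpa using D.hρx)
  · intro q hq
    exact D.hPx q hq
  · intro q hq
    exact D.hPρ q hq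
  · exact D.hp
  · intro h
    exact D.hz (by simpa using congrArg Subtype.val h)
  · intro P' h1 h2 h3 h4
    have h5 : P'.map N.subtype = P := by
      apply D.gen
      · rintro _ ⟨q, hq, rfl⟩
        exact h1 hq
      · exact ⟨_, h2, by simp⟩
      · rintro _ ⟨q, hq, rfl⟩
        exact ⟨_, h3 q hq, rfl⟩
      · rintro _ ⟨q, hq, rfl⟩
        exact ⟨_, h4 q hq, rfl⟩
    refine le_antisymm h1 ?_
    intro q hq
    have h6 : (q : F) ∈ P'.map N.subtype := by rw [h5]; exact hq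
    obtain ⟨q', hq', h7⟩ := h6
    have h8 : q' = q := Subtype.ext h7
    rwa [← h8]

end Pool.Agent.Lib.MP_544bd1_al
end

section

/-!
Theorem Z3: the squaring map and the commutator map of a minimal configuration.
-/

namespace Pool.Agent.Lib.MP_544bd1_al

open Subgroup

/-- **The quadratic data.**

Proof. `φ` vanishes on `⁅Q, Q⁆` (`V` commutative), so by `M.ker` the elements of `⁅Q, Q⁆` are centralized
by `R` and `Q`, and by `zs_irr` (2) `c ^ 2 = 1` for `c ∈ ⁅Q, Q⁆` (an element of `⁅Q, Q⁆` has `φ = 0`), and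
`φ a = 0` implies `a ∈ ⁅Q, Q⁆`. `K = Additive ↥⁅Q, Q⁆` with the commutative group structure (build a
`CommGroup` on `↥⁅Q, Q⁆` from `mul_comm`), `ι k = (k.toMul : F)`,
`θ g k = g * k * g⁻¹` (`⁅Q, Q⁆` is normal in `F` since `Q` is). For `v : V` choose `s v : Q` with
`φ (s v) = v`; `q v = (s v) ^ 2 ∈ ⁅Q, Q⁆` (`φ (a ^ 2) = φ a + φ a = 0`),
`β v w = s v * s w * (s v)⁻¹ * (s w)⁻¹`. `hq`, `hβ`: if `φ a = v` then `a = s v * z` with `φ z = 0`, `z`
central in `Q`, `z ^ 2 = 1`, so `a ^ 2 = (s v) ^ 2` and the commutators agree. All other properties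
follow from `hq`, `hβ`, `inj` and the surjectivity of `φ`:
`(a * b) * c * (a * b)⁻¹ * c⁻¹ = (a * c * a⁻¹ * c⁻¹) * (b * c * b⁻¹ * c⁻¹)` (commutators are central),
`(a * b) ^ 2 = a ^ 2 * b ^ 2 * (a * b * a⁻¹ * b⁻¹)` (commutators are central involutions), `M.eqv`. -/
theorem zs_quad {F : Type} [Group F] [Finite F] {r a : ℕ} (hr : r.Prime) (hr2 : r ≠ 2)
    {Q R : Subgroup F} [Q.Normal] {x : F} (D : ZsCore r a Q R x) {V : Type} [AddCommGroup V]
    [Module (ZMod 2) V] {τ : F →* Module.End (ZMod 2) V} {φ : Q → V} (M : ZMd Q R τ φ) :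
    ∃ (K : Type) (_ : AddCommGroup K) (ι : K → F) (θ : F → K → K) (q : V → K) (β : V → V → K),
      ZQuad Q R τ φ ι θ q β := by
  classical
  obtain ⟨-, hker2, -, -⟩ := zs_irr hr hr2 D M
  have hφ1 : φ 1 = 0 := by
    have h := M.add 1 1
    rw [mul_one] at h
    exact left_eq_add.mp h
  have hφinv : ∀ a : Q, φ a⁻¹ = - φ a := by
    intro a
    have h := M.add a⁻¹ a
    rw [inv_mul_cancel, hφ1] at h
    exact eq_neg_of_add_eq_zero_left h.symm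
  have hvv : ∀ v : V, v + v = 0 := by
    intro v
    have h : ((1 : ZMod 2) + 1) • v = v + v := by rw [add_smul, one_smul]
    rw [← h, show (1 : ZMod 2) + 1 = 0 from by decide, zero_smul]
  -- the kernel of `φ`
  let N : Subgroup F :=
    { carrier := {c | ∃ h : c ∈ Q, φ ⟨c, h⟩ = 0}
      one_mem' := ⟨Q.one_mem, hφ1⟩
      mul_mem' := by
        rintro a b ⟨ha, ha'⟩ ⟨hb, hb'⟩
        refine ⟨Q.mul_mem ha hb, ?_⟩
        have h := M.add ⟨a, ha⟩ ⟨b, hb⟩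
        rw [ha', hb', add_zero] at h
        exact h
      inv_mem' := by
        rintro a ⟨ha, ha'⟩
        refine ⟨Q.inv_mem ha, ?_⟩
        have h := hφinv ⟨a, ha⟩
        rw [ha', neg_zero] at h
        exact h }
  have hNmem : ∀ c, c ∈ N → ∃ h : c ∈ Q, φ ⟨c, h⟩ = 0 := fun c hc => hc
  have hcN : ⁅Q, Q⁆ ≤ N := by
    rw [Subgroup.commutator_le]
    intro a ha b hb
    refine ⟨Q.mul_mem (Q.mul_mem (Q.mul_mem ha hb) (Q.inv_mem ha)) (Q.inv_mem hb), ?_⟩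
    have h : φ ((⟨a, ha⟩ : Q) * ⟨b, hb⟩ * (⟨a, ha⟩ : Q)⁻¹ * (⟨b, hb⟩ : Q)⁻¹) = 0 := by
      rw [M.add, M.add, M.add, hφinv, hφinv]
      abel
    exact h
  have hcQ : ∀ c ∈ ⁅Q, Q⁆, c ∈ Q := fun c hc => (hNmem c (hcN hc)).1
  have hc0 : ∀ c (hc : c ∈ ⁅Q, Q⁆), φ ⟨c, hcQ c hc⟩ = 0 := fun c hc => (hNmem c (hcN hc)).2
  have hcR : ∀ c ∈ ⁅Q, Q⁆, ∀ g ∈ R, g * c = c * g := fun c hc => (M.ker _ (hc0 c hc)).1
  have hcc : ∀ c ∈ ⁅Q, Q⁆, ∀ y ∈ Q, c * y = y * c := fun c hc => (M.ker _ (hc0 c hc)).2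
  have hc2 : ∀ c ∈ ⁅Q, Q⁆, c * c = 1 := by
    intro c hc
    rw [← pow_two]
    exact (hker2 _ (hc0 c hc)).2
  have hcm : ∀ a b : Q, (a : F) * b * (a : F)⁻¹ * (b : F)⁻¹ ∈ ⁅Q, Q⁆ := fun a b =>
    Subgroup.commutator_mem_commutator a.2 b.2
  have hsqm : ∀ a : Q, (a : F) ^ 2 ∈ ⁅Q, Q⁆ := by
    intro a
    have h : φ (a ^ 2) = 0 := by rw [pow_two, M.add, hvv]
    exact (hker2 _ h).1
  -- independence of the representatives
  have hz : ∀ a b : Q, φ a = φ b → ∃ z : F, (a : F) = b * z ∧ (∀ y ∈ Q, z * y = y * z) ∧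
      z * z = 1 := by
    intro a b hab
    have h0 : φ (b⁻¹ * a) = 0 := by rw [M.add, hφinv, hab]; abel
    refine ⟨(b : F)⁻¹ * a, by group, fun y hy => (M.ker _ h0).2 y hy, ?_⟩
    have h := (hker2 _ h0).2
    rw [pow_two] at h
    exact h
  have hsq : ∀ a b : Q, φ a = φ b → (a : F) ^ 2 = (b : F) ^ 2 := by
    intro a b hab
    obtain ⟨z, h1, h2, h3⟩ := hz a b hab
    rw [h1, pow_two, pow_two]
    calc (b : F) * z * (b * z) = b * (z * b) * z := by group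
      _ = b * (b * z) * z := by rw [h2 b b.2]
      _ = b * b * (z * z) := by group
      _ = b * b := by rw [h3, mul_one]
  have hcl : ∀ a a' b : Q, φ a = φ a' →
      (a : F) * b * (a : F)⁻¹ * (b : F)⁻¹ = (a' : F) * b * (a' : F)⁻¹ * (b : F)⁻¹ := by
    intro a a' b h
    obtain ⟨z, h1, h2, h3⟩ := hz a a' h
    rw [h1]
    calc (a' : F) * z * b * ((a' : F) * z)⁻¹ * (b : F)⁻¹
        = a' * (z * b) * z⁻¹ * (a' : F)⁻¹ * (b : F)⁻¹ := by group
      _ = a' * (b * z) * z⁻¹ * (a' : F)⁻¹ * (b : F)⁻¹ := by rw [h2 b b.2]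
      _ = (a' : F) * b * (a' : F)⁻¹ * (b : F)⁻¹ := by group
  have hcr : ∀ a b b' : Q, φ b = φ b' →
      (a : F) * b * (a : F)⁻¹ * (b : F)⁻¹ = (a : F) * b' * (a : F)⁻¹ * (b' : F)⁻¹ := by
    intro a b b' h
    obtain ⟨z, h1, h2, h3⟩ := hz b b' h
    have h4 : z * (a : F)⁻¹ = (a : F)⁻¹ * z := h2 _ (Q.inv_mem a.2)
    rw [h1]
    calc (a : F) * (b' * z) * (a : F)⁻¹ * ((b' : F) * z)⁻¹
        = a * b' * (z * (a : F)⁻¹) * z⁻¹ * (b' : F)⁻¹ := by group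
      _ = a * b' * ((a : F)⁻¹ * z) * z⁻¹ * (b' : F)⁻¹ := by rw [h4]
      _ = (a : F) * b' * (a : F)⁻¹ * (b' : F)⁻¹ := by group
  -- the group `K`
  let cg : CommGroup ↥⁅Q, Q⁆ :=
    { (inferInstance : Group ↥⁅Q, Q⁆) with
      mul_comm := fun c d => Subtype.ext (hcc c c.2 d (hcQ d d.2)) }
  let K : Type := Additive ↥⁅Q, Q⁆
  let kg : AddCommGroup K := @Additive.addCommGroup ↥⁅Q, Q⁆ cg
  have hn : (⁅Q, Q⁆ : Subgroup F).Normal := inferInstance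
  let ι : K → F := fun k => ((Additive.toMul k : ↥⁅Q, Q⁆) : F)
  have hιinj : Function.Injective ι := fun k l h => Subtype.ext h
  have hιadd : ∀ k l : K, ι (k + l) = ι k * ι l := fun _ _ => rfl
  have hι0 : ι 0 = 1 := rfl
  let θ : F → K → K := fun g k => Additive.ofMul ⟨g * ι k * g⁻¹, hn.conj_mem _ (Subtype.property _) g⟩
  let s : V → Q := Function.surjInv M.surj
  have hs : ∀ v, φ (s v) = v := Function.surjInv_eq M.surj
  let q : V → K := fun v => Additive.ofMul ⟨(s v : F) ^ 2, hsqm (s v)⟩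
  let β : V → V → K := fun v w =>
    Additive.ofMul ⟨(s v : F) * s w * (s v : F)⁻¹ * (s w : F)⁻¹, hcm (s v) (s w)⟩
  have hιθ : ∀ g k, ι (θ g k) = g * ι k * g⁻¹ := fun _ _ => rfl
  have hιm : ∀ k, ι k ∈ ⁅Q, Q⁆ := fun k => Subtype.property (Additive.toMul k)
  have hιR : ∀ k, ∀ g ∈ R, g * ι k = ι k * g := fun k => hcR _ (hιm k)
  have hιc : ∀ k, ∀ y ∈ Q, y * ι k = ι k * y := fun k y hy => (hcc _ (hιm k) y hy).symm
  have hq : ∀ a : Q, ι (q (φ a)) = (a : F) ^ 2 := fun a => hsq _ _ (hs (φ a))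
  have hβ : ∀ a b : Q, ι (β (φ a) (φ b)) = (a : F) * b * (a : F)⁻¹ * (b : F)⁻¹ := by
    intro a b
    have h1 := hcl (s (φ a)) a (s (φ b)) (hs (φ a))
    have h2 := hcr a (s (φ b)) b (hs (φ b))
    exact h1.trans h2
  have hinvc : ∀ a b : Q, (b : F) * a * (b : F)⁻¹ * (a : F)⁻¹ =
      (a : F) * b * (a : F)⁻¹ * (b : F)⁻¹ := by
    intro a b
    have h := hc2 _ (hcm a b)
    have h1 : (b : F) * a * (b : F)⁻¹ * (a : F)⁻¹ = ((a : F) * b * (a : F)⁻¹ * (b : F)⁻¹)⁻¹ := by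
      group
    rw [h1]
    exact inv_eq_of_mul_eq_one_left h
  refine ⟨K, kg, ι, θ, q, β, ?_⟩
  exact
    { inj := hιinj
      ιadd := hιadd
      two := fun k => hιinj (by rw [hιadd, hι0]; exact hc2 _ (hιm k))
      ιQ := hιm
      ιR := hιR
      ιc := hιc
      ιθ := hιθ
      hq := hq
      hβ := hβ
      θadd := fun g k l => hιinj (by rw [hιθ, hιadd, hιadd, hιθ, hιθ]; group)
      θmul := fun g h k => hιinj (by rw [hιθ, hιθ, hιθ]; group)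
      θR := fun g hg k => hιinj (by rw [hιθ, hιR k g hg]; group)
      βl := by
        intro u v w
        obtain ⟨a, rfl⟩ := M.surj u
        obtain ⟨b, rfl⟩ := M.surj v
        obtain ⟨c, rfl⟩ := M.surj w
        apply hιinj
        rw [hιadd, ← M.add, hβ, hβ, hβ]
        have h := hcc _ (hcm b c) a a.2
        calc ((a * b : Q) : F) * c * ((a * b : Q) : F)⁻¹ * (c : F)⁻¹
            = (a * ((b : F) * c * (b : F)⁻¹ * (c : F)⁻¹)) * c * (a : F)⁻¹ * (c : F)⁻¹ := by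
              rw [Subgroup.coe_mul]; group
          _ = (((b : F) * c * (b : F)⁻¹ * (c : F)⁻¹) * a) * c * (a : F)⁻¹ * (c : F)⁻¹ := by
              rw [h]
          _ = ((b : F) * c * (b : F)⁻¹ * (c : F)⁻¹) * ((a : F) * c * (a : F)⁻¹ * (c : F)⁻¹) := by
              simp only [mul_assoc]
          _ = ((a : F) * c * (a : F)⁻¹ * (c : F)⁻¹) * ((b : F) * c * (b : F)⁻¹ * (c : F)⁻¹) :=
              hcc _ (hcm b c) _ (hcQ _ (hcm a c))
      βr := by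
        intro u v w
        obtain ⟨a, rfl⟩ := M.surj u
        obtain ⟨b, rfl⟩ := M.surj v
        obtain ⟨c, rfl⟩ := M.surj w
        apply hιinj
        rw [hιadd, ← M.add, hβ, hβ, hβ]
        have h := hcc _ (hcm a c) (b : F)⁻¹ (Q.inv_mem b.2)
        calc (a : F) * ((b * c : Q) : F) * (a : F)⁻¹ * ((b * c : Q) : F)⁻¹
            = (a * b * (a : F)⁻¹) * (((a : F) * c * (a : F)⁻¹ * (c : F)⁻¹) * (b : F)⁻¹) := by
              rw [Subgroup.coe_mul]; group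
          _ = (a * b * (a : F)⁻¹) * ((b : F)⁻¹ * ((a : F) * c * (a : F)⁻¹ * (c : F)⁻¹)) := by
              rw [h]
          _ = ((a : F) * b * (a : F)⁻¹ * (b : F)⁻¹) * ((a : F) * c * (a : F)⁻¹ * (c : F)⁻¹) := by
              simp only [mul_assoc]
      βs := by
        intro v w
        obtain ⟨a, rfl⟩ := M.surj v
        obtain ⟨b, rfl⟩ := M.surj w
        apply hιinj
        rw [hβ, hβ]
        exact (hinvc a b).symm
      βa := by
        intro v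
        obtain ⟨a, rfl⟩ := M.surj v
        apply hιinj
        rw [hβ, hι0]
        group
      qa := by
        intro v w
        obtain ⟨a, rfl⟩ := M.surj v
        obtain ⟨b, rfl⟩ := M.surj w
        apply hιinj
        rw [hιadd, hιadd, ← M.add, hβ, hq, hq, hq]
        have h := hcc _ (hcm b a) a a.2
        have h2 := hcc _ (hcm b a) _ (Q.mul_mem (Q.pow_mem a.2 2) (Q.pow_mem b.2 2))
        calc ((a * b : Q) : F) ^ 2
            = (a * ((b : F) * a * (b : F)⁻¹ * (a : F)⁻¹)) * a * b * b := by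
              rw [Subgroup.coe_mul, pow_two]; group
          _ = (((b : F) * a * (b : F)⁻¹ * (a : F)⁻¹) * a) * a * b * b := by rw [h]
          _ = ((b : F) * a * (b : F)⁻¹ * (a : F)⁻¹) * ((a : F) ^ 2 * (b : F) ^ 2) := by
              rw [pow_two, pow_two]; simp only [mul_assoc]
          _ = (a : F) ^ 2 * (b : F) ^ 2 * ((a : F) * b * (a : F)⁻¹ * (b : F)⁻¹) := by
              rw [h2, hinvc a b]
      βθ := by
        intro g v w
        obtain ⟨a, rfl⟩ := M.surj v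
        obtain ⟨b, rfl⟩ := M.surj w
        apply hιinj
        rw [hιθ, ← M.eqv, ← M.eqv, hβ, hβ]
        show g * a * g⁻¹ * (g * b * g⁻¹) * (g * a * g⁻¹)⁻¹ * (g * b * g⁻¹)⁻¹ = _
        group
      qθ := by
        intro g v
        obtain ⟨a, rfl⟩ := M.surj v
        apply hιinj
        rw [hιθ, ← M.eqv, hq, hq]
        show (g * a * g⁻¹) ^ 2 = _
        rw [pow_two, pow_two]
        group }

end Pool.Agent.Lib.MP_544bd1_al
end

section

/-!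
Theorem Z3, Case A, `P` abelian: Claim D.
-/

namespace Pool.Agent.Lib.MP_544bd1_al

open Subgroup

private theorem a1b_comm {F : Type} [Group F] (s : Set F) (h : ∀ a ∈ s, ∀ b ∈ s, a * b = b * a) :
    ∀ x ∈ closure s, ∀ y ∈ closure s, x * y = y * x := by
  have h1 : ∀ g ∈ s, ∀ y ∈ closure s, y * g = g * y := by
    intro g hg y hy
    have h2 : closure s ≤ centralizer {g} := by
      rw [closure_le]
      intro w hw
      rw [SetLike.mem_coe, mem_centralizer_singleton_iff]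
      exact h w hw g hg
    exact mem_centralizer_singleton_iff.1 (h2 hy)
  intro x hx y hy
  have h2 : closure s ≤ centralizer {y} := by
    rw [closure_le]
    intro w hw
    rw [SetLike.mem_coe, mem_centralizer_singleton_iff]
    exact (h1 w hw y hy).symm
  exact mem_centralizer_singleton_iff.1 (h2 hx)

private theorem a1b_conj {F : Type} [Group F] {c f : F} (h : c * f = f * c) :
    f⁻¹ * c⁻¹ * f = c⁻¹ := by
  have h1 : f⁻¹ * c * f = c := by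
    rw [mul_assoc, h]
    group
  calc f⁻¹ * c⁻¹ * f = (f⁻¹ * c * f)⁻¹ := by group
    _ = c⁻¹ := by rw [h1]

/-- `q` centralizes `e`, inverts `f` -/
private theorem a1b_c2a {F : Type} [Group F] {e f q : F}
    (hc : q * (e * f * e⁻¹ * f⁻¹) * q⁻¹ = e * f * e⁻¹ * f⁻¹)
    (hf : e * f * e⁻¹ * f⁻¹ * f = f * (e * f * e⁻¹ * f⁻¹))
    (h1 : q * e * q⁻¹ = e) (h2 : q * f * q⁻¹ = f⁻¹) : (e * f * e⁻¹ * f⁻¹) ^ 2 = 1 := by
  have h3 : q * (e * f * e⁻¹ * f⁻¹) * q⁻¹ = (q * e * q⁻¹) * (q * f * q⁻¹) * (q * e * q⁻¹)⁻¹ *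
      (q * f * q⁻¹)⁻¹ := by group
  rw [h1, h2, hc] at h3
  have h4 : e * f⁻¹ * e⁻¹ * f⁻¹⁻¹ = f⁻¹ * (e * f * e⁻¹ * f⁻¹)⁻¹ * f := by group
  rw [h4, a1b_conj hf] at h3
  rw [pow_two]
  nth_rewrite 1 [h3]
  exact inv_mul_cancel _

/-- `q` inverts `e`, centralizes `f` -/
private theorem a1b_c2b {F : Type} [Group F] {e f q : F}
    (hc : q * (e * f * e⁻¹ * f⁻¹) * q⁻¹ = e * f * e⁻¹ * f⁻¹)
    (he : e * f * e⁻¹ * f⁻¹ * e = e * (e * f * e⁻¹ * f⁻¹))
    (h1 : q * e * q⁻¹ = e⁻¹) (h2 : q * f * q⁻¹ = f) : (e * f * e⁻¹ * f⁻¹) ^ 2 = 1 := by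
  have h3 : q * (e * f * e⁻¹ * f⁻¹) * q⁻¹ = (q * e * q⁻¹) * (q * f * q⁻¹) * (q * e * q⁻¹)⁻¹ *
      (q * f * q⁻¹)⁻¹ := by group
  rw [h1, h2, hc] at h3
  have h4 : e⁻¹ * f * e⁻¹⁻¹ * f⁻¹ = e⁻¹ * (e * f * e⁻¹ * f⁻¹)⁻¹ * e := by group
  rw [h4, a1b_conj he] at h3
  rw [pow_two]
  nth_rewrite 1 [h3]
  exact inv_mul_cancel _

/-- two elements `q₁`, `q₂` centralizing or inverting `e`: the product centralizes `e` iff both do or
none does -/
private theorem a1b_xor {F : Type} [Group F] {e q₁ q₂ : F} (hne : e⁻¹ ≠ e)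
    (h1 : q₁ * e * q₁⁻¹ = e ∨ q₁ * e * q₁⁻¹ = e⁻¹) (h2 : q₂ * e * q₂⁻¹ = e ∨ q₂ * e * q₂⁻¹ = e⁻¹) :
    (q₁ * q₂) * e * (q₁ * q₂)⁻¹ = e ↔ (q₁ * e * q₁⁻¹ = e ↔ q₂ * e * q₂⁻¹ = e) := by
  have h3 : (q₁ * q₂) * e * (q₁ * q₂)⁻¹ = q₁ * (q₂ * e * q₂⁻¹) * q₁⁻¹ := by group
  have h4 : q₁ * e⁻¹ * q₁⁻¹ = (q₁ * e * q₁⁻¹)⁻¹ := by group
  rw [h3]
  rcases h1 with h1 | h1 <;> rcases h2 with h2 | h2
  · simp [h1, h2]
  · simp [h1, h2, h4, hne]
  · simp [h1, h2, hne]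
  · simp [h1, h2, h4, hne]

private theorem a1b_prop1 (A B C E : Prop) (h : ¬ (((A ↔ B) ↔ C) ↔ E)) (k1 : B ↔ A) (k2 : C ↔ B)
    (k3 : E ↔ C) : False := by tauto

private theorem a1b_prop2 (A B C E : Prop) (h : ¬ (((A ↔ B) ↔ C) ↔ E)) (k2 : C ↔ A)
    (k3 : E ↔ B) : False := by tauto

/-- a noncommuting conjugate `y * e * y⁻¹` is inverted by the same elements of `P` -/
private theorem a1b_key {m : ℕ} (hm : Odd m) {F : Type} [Group F] (A P : Subgroup F)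
    (hA : ∀ x ∈ A, x ^ m = 1)
    (hcl : ∀ x ∈ A, ∀ y ∈ A, ∀ w ∈ A, x * y * x⁻¹ * y⁻¹ * w = w * (x * y * x⁻¹ * y⁻¹))
    (hPc : ∀ q ∈ P, ∀ a ∈ A, ∀ b ∈ A, q * (a * b * a⁻¹ * b⁻¹) * q⁻¹ = a * b * a⁻¹ * b⁻¹)
    {e y : F} (he : e ∈ A) (hf : y * e * y⁻¹ ∈ A) (hyP : ∀ q ∈ P, y⁻¹ * q * y ∈ P)
    (hne : e * (y * e * y⁻¹) ≠ (y * e * y⁻¹) * e)
    (hPe : ∀ q ∈ P, q * e * q⁻¹ = e ∨ q * e * q⁻¹ = e⁻¹) :
    ∀ q ∈ P, (q * e * q⁻¹ = e ↔ (y⁻¹ * q * y) * e * (y⁻¹ * q * y)⁻¹ = e) := by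
  intro q hq
  obtain ⟨f, hfd⟩ : ∃ f, f = y * e * y⁻¹ := ⟨_, rfl⟩
  rw [← hfd] at hf hne
  have h1 : ∀ h : F, (y⁻¹ * q * y) * e * (y⁻¹ * q * y)⁻¹ = h → q * f * q⁻¹ = y * h * y⁻¹ := by
    rintro h rfl
    rw [hfd]
    group
  have h2 : y * e⁻¹ * y⁻¹ = f⁻¹ := by
    rw [hfd]
    group
  have hc2 : (e * f * e⁻¹ * f⁻¹) ^ 2 ≠ 1 := by
    intro h
    apply hne
    have h3 : (e * f * e⁻¹ * f⁻¹) ^ m = 1 :=
      hA _ (A.mul_mem (A.mul_mem (A.mul_mem he hf) (A.inv_mem he)) (A.inv_mem hf))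
    have h4 := fr_one_two hm h3 h
    calc e * f = (e * f * e⁻¹ * f⁻¹) * (f * e) := by group
      _ = f * e := by rw [h4, one_mul]
  have hcc := hPc q hq e he f hf
  constructor
  · intro h3
    rcases hPe _ (hyP q hq) with h4 | h4
    · exact h4
    · exfalso
      apply hc2
      apply a1b_c2a hcc (hcl e he f hf f hf) h3
      rw [h1 _ h4, h2]
  · intro h3
    rcases hPe _ hq with h4 | h4
    · exact h4
    · exfalso
      apply hc2
      apply a1b_c2b hcc (hcl e he f hf e he) h4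
      rw [h1 _ h3, ← hfd]

/-- **Claim D, in a group with `O_2 = 1`.**

Proof. Let `z = (p * x) ^ 4`, `p_i = x ^ i * p * (x ^ i)⁻¹ ∈ P`; since `x ^ 4 = 1`,
`z = p_0 * p_1 * p_2 * p_3 ∈ P`, `z ^ 2 = 1`, `x * z = z * x` (`P` is commutative, of exponent 2). Let
`S = closure (P ∪ {x, ρ})` (it normalizes `P`) and `A` from `zt_minH` for `S`, `z`: `D' : ZMinA m r S A z`.
(1) `P` centralizes the commutators `c = a * b * a⁻¹ * b⁻¹` of `A` (and the proper `S`-invariant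
subgroups): `{q ∈ P | q centralizes ⁅A, A⁆}` is invariant under `x`, `ρ` (they normalize `A`) and
contains `z` (`D'.cz`), so it is `P` by `D.gen`.
(2) `zt_f3P` for `A`, `P`: `e ∈ A`, `e ≠ 1`, `z * e * z⁻¹ = e⁻¹`, and `q * e * q⁻¹ = e` or `e⁻¹` for
`q ∈ P`. `e ≠ e⁻¹` (odd order). Let `e_i = x ^ i * e * (x ^ i)⁻¹ ∈ A` for `i < 4`
(`x * e_3 * x⁻¹ = e_0`). For `q ∈ P`: `q * e_i * q⁻¹ = x ^ i * ((x ^ i)⁻¹ * q * x ^ i) * e * ... =
e_i` or `e_i⁻¹`.
(3) `e_i` and `e_j` commute: suppose not. For `q ∈ P` let `c = e_i * e_j * e_i⁻¹ * e_j⁻¹`; `q`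
centralizes `c`. If `q` centralizes one of `e_i`, `e_j` and inverts the other then (class 2, `D'.cl`)
`q * c * q⁻¹ = c⁻¹`, so `c ^ 2 = 1`, `c = 1`. So for all `q ∈ P`: `q` inverts `e_i` iff it inverts
`e_j`; with `q = p_k`: `p_{k-i}` inverts `e` iff `p_{k-j}` inverts `e` (indices mod 4). So, with
`d = i - j ≠ 0 mod 4`, the set of `k` mod 4 such that `p_k` inverts `e` is invariant under translation
by `d`, so it has an even number of elements, and `z = p_0 * p_1 * p_2 * p_3` centralizes `e`: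
contradiction. (In Lean: it is enough to treat `d = 1, 2, 3`, i.e. the three cases.)
(4) `E = closure {e_0, e_1, e_2, e_3}` is commutative, `≤ A`, normalized by `x` and `P`, so by
`u = p * x`; `u ^ (2 ^ 3) = z ^ 2 = 1`. `zt_reg0` (`a := 3`): `u ^ 4 = z` centralizes `e_0 = e`,
contradiction (`z * e * z⁻¹ = e⁻¹ ≠ e`). -/
theorem zt_A1H {m : ℕ} (hm : Odd m) {H : Type} [Group H] [Finite H]
    (hsol : Group.IsSolvable H) (hexp : ∀ x : H, x ^ (m * 2 ^ 3) = 1)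
    (hbot : krad (2 ^ 3) H = ⊥) (hV : ZRep m 3 H) {P : Subgroup H} {x ρ p : H}
    (D : ZA1 m P x ρ p) : False := by
  obtain ⟨hz, hzP, hxz, hz2, hPz, hPab⟩ := zt_z P D.hP D.hx D.hPx D.hp
  have hSP : P ≤ closure ((P : Set H) ∪ {x, ρ}) := fun q hq => subset_closure (Or.inl hq)
  have hSx : x ∈ closure ((P : Set H) ∪ {x, ρ}) := subset_closure (Or.inr (Or.inl rfl))
  have hSρ : ρ ∈ closure ((P : Set H) ∪ {x, ρ}) := subset_closure (Or.inr (Or.inr rfl))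
  obtain ⟨r, A, D'⟩ := zt_minH hm hsol hexp hbot _ (hSP hzP) hz2 D.hz
  have hAc : ∀ q ∈ closure ((P : Set H) ∪ {x, ρ}), ∀ a ∈ A, q⁻¹ * a * q ∈ A := by
    intro q hq a ha
    have := D'.inv q⁻¹ (inv_mem hq) a ha
    rwa [inv_inv] at this
  -- (1) `P` centralizes the commutators
  have hP1 : P ⊓ centralizer {c | ∃ a ∈ A, ∃ b ∈ A, c = a * b * a⁻¹ * b⁻¹} = P := by
    have hstep : ∀ s ∈ closure ((P : Set H) ∪ {x, ρ}), (∀ q ∈ P, s * q * s⁻¹ ∈ P) →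
        ∀ q ∈ P ⊓ centralizer {c | ∃ a ∈ A, ∃ b ∈ A, c = a * b * a⁻¹ * b⁻¹},
        s * q * s⁻¹ ∈ P ⊓ centralizer {c | ∃ a ∈ A, ∃ b ∈ A, c = a * b * a⁻¹ * b⁻¹} := by
      intro s hs hsP q hq
      obtain ⟨hq1, hq2⟩ := mem_inf.1 hq
      refine mem_inf.2 ⟨hsP q hq1, ?_⟩
      rw [mem_centralizer_iff]
      rintro _ ⟨a, ha, b, hb, rfl⟩
      have h1 := mem_centralizer_iff.1 hq2 _ ⟨s⁻¹ * a * s, hAc s hs a ha, s⁻¹ * b * s, hAc s hs b hb, rfl⟩
      have h2 : s⁻¹ * a * s * (s⁻¹ * b * s) * (s⁻¹ * a * s)⁻¹ * (s⁻¹ * b * s)⁻¹ =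
          s⁻¹ * (a * b * a⁻¹ * b⁻¹) * s := by group
      rw [h2] at h1
      calc a * b * a⁻¹ * b⁻¹ * (s * q * s⁻¹) = s * (s⁻¹ * (a * b * a⁻¹ * b⁻¹) * s * q) * s⁻¹ := by
            group
        _ = s * (q * (s⁻¹ * (a * b * a⁻¹ * b⁻¹) * s)) * s⁻¹ := by rw [h1]
        _ = s * q * s⁻¹ * (a * b * a⁻¹ * b⁻¹) := by group
    refine D.gen _ inf_le_left (mem_inf.2 ⟨hzP, ?_⟩) (hstep x hSx D.hPx) (hstep ρ hSρ D.hPρ)
    rw [mem_centralizer_iff]
    rintro _ ⟨a, ha, b, hb, rfl⟩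
    exact (D'.cz a ha b hb).symm
  have hPc : ∀ q ∈ P, ∀ a ∈ A, ∀ b ∈ A, q * (a * b * a⁻¹ * b⁻¹) * q⁻¹ = a * b * a⁻¹ * b⁻¹ := by
    intro q hq a ha b hb
    rw [← hP1] at hq
    have h1 := mem_centralizer_iff.1 hq.2 _ ⟨a, ha, b, hb, rfl⟩
    rw [← h1]
    group
  -- (2)
  obtain ⟨e, heA, he1, hze, hPe⟩ := zt_f3P hm A P D'.odd D.hP (fun q hq => D'.inv q (hSP hq)) hzP D'.ne
  have hee : e⁻¹ ≠ e := by
    intro h
    apply he1
    refine fr_one_two hm (D'.odd e heA) ?_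
    rw [pow_two]
    nth_rewrite 1 [← h]
    exact inv_mul_cancel _
  have hze' : ¬ (p * x) ^ 4 * e * ((p * x) ^ 4)⁻¹ = e := by
    rw [hze]
    exact hee
  have hx4 : x * x * x * x = 1 := by
    have := D.hx
    rw [← this]
    simp only [pow_succ, pow_zero, one_mul]
  have hxi : x⁻¹ = x * x * x := by
    rw [inv_eq_iff_mul_eq_one, ← mul_assoc, ← mul_assoc]
    exact hx4
  have hPxi : ∀ q ∈ P, x⁻¹ * q * x ∈ P := by
    intro q hq
    have h1 := D.hPx _ (D.hPx _ (D.hPx q hq))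
    have h2 : x * (x * (x * q * x⁻¹) * x⁻¹) * x⁻¹ = (x * x * x) * q * (x * x * x)⁻¹ := by group
    rw [h2, ← hxi, inv_inv] at h1
    exact h1
  have hPxi2 : ∀ q ∈ P, (x * x)⁻¹ * q * (x * x) ∈ P := by
    intro q hq
    have h1 := hPxi _ (hPxi q hq)
    have h2 : x⁻¹ * (x⁻¹ * q * x) * x = (x * x)⁻¹ * q * (x * x) := by group
    rwa [h2] at h1
  have hxA : ∀ a ∈ A, x * a * x⁻¹ ∈ A := D'.inv x hSx
  have m0 := D.hp
  have m1 := D.hPx p D.hp
  have m2 : x ^ 2 * p * (x ^ 2)⁻¹ ∈ P := by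
    have h1 := D.hPx _ m1
    have h2 : x * (x * p * x⁻¹) * x⁻¹ = x ^ 2 * p * (x ^ 2)⁻¹ := by
      simp only [pow_succ, pow_zero, one_mul]
      group
    rwa [h2] at h1
  have m3 : x ^ 3 * p * (x ^ 3)⁻¹ ∈ P := by
    have h1 := D.hPx _ m2
    have h2 : x * (x ^ 2 * p * (x ^ 2)⁻¹) * x⁻¹ = x ^ 3 * p * (x ^ 3)⁻¹ := by
      simp only [pow_succ, pow_zero, one_mul]
      group
    rwa [h2] at h1
  have hx1 := a1b_xor hee (hPe _ m0) (hPe _ m1)
  have hx2 := a1b_xor hee (hPe _ (P.mul_mem m0 m1)) (hPe _ m2)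
  have hx3 := a1b_xor hee (hPe _ (P.mul_mem (P.mul_mem m0 m1) m2)) (hPe _ m3)
  rw [hz, hx3, hx2, hx1] at hze'
  -- (3)
  have hA1 : x * e * x⁻¹ ∈ A := hxA e heA
  have hA2 : (x * x) * e * (x * x)⁻¹ ∈ A := by
    have h1 := hxA _ hA1
    have h2 : x * (x * e * x⁻¹) * x⁻¹ = (x * x) * e * (x * x)⁻¹ := by group
    rwa [h2] at h1
  have hA3 : (x * x * x) * e * (x * x * x)⁻¹ ∈ A := by
    have h1 := hxA _ hA2
    have h2 : x * ((x * x) * e * (x * x)⁻¹) * x⁻¹ = (x * x * x) * e * (x * x * x)⁻¹ := by group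
    rwa [h2] at h1
  have c01 : e * (x * e * x⁻¹) = (x * e * x⁻¹) * e := by
    by_contra hcon
    have hk := a1b_key hm A P D'.odd D'.cl hPc heA hA1 hPxi hcon hPe
    have k1 := hk _ m1
    have k2 := hk _ m2
    have k3 := hk _ m3
    have e1 : x⁻¹ * (x * p * x⁻¹) * x = p := by group
    have e2 : x⁻¹ * (x ^ 2 * p * (x ^ 2)⁻¹) * x = x * p * x⁻¹ := by
      simp only [pow_succ, pow_zero, one_mul]
      group
    have e3 : x⁻¹ * (x ^ 3 * p * (x ^ 3)⁻¹) * x = x ^ 2 * p * (x ^ 2)⁻¹ := by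
      simp only [pow_succ, pow_zero, one_mul]
      group
    rw [e1] at k1
    rw [e2] at k2
    rw [e3] at k3
    exact a1b_prop1 _ _ _ _ hze' k1 k2 k3
  have c02 : e * ((x * x) * e * (x * x)⁻¹) = ((x * x) * e * (x * x)⁻¹) * e := by
    by_contra hcon
    have hk := a1b_key hm A P D'.odd D'.cl hPc heA hA2 hPxi2 hcon hPe
    have k2 := hk _ m2
    have k3 := hk _ m3
    have e2 : (x * x)⁻¹ * (x ^ 2 * p * (x ^ 2)⁻¹) * (x * x) = p := by
      simp only [pow_succ, pow_zero, one_mul]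
      group
    have e3 : (x * x)⁻¹ * (x ^ 3 * p * (x ^ 3)⁻¹) * (x * x) = x * p * x⁻¹ := by
      simp only [pow_succ, pow_zero, one_mul]
      group
    rw [e2] at k2
    rw [e3] at k3
    exact a1b_prop2 _ _ _ _ hze' k2 k3
  obtain ⟨e₁, he₁⟩ : ∃ e₁, e₁ = x * e * x⁻¹ := ⟨_, rfl⟩
  obtain ⟨e₂, he₂⟩ : ∃ e₂, e₂ = (x * x) * e * (x * x)⁻¹ := ⟨_, rfl⟩
  obtain ⟨e₃, he₃⟩ : ∃ e₃, e₃ = (x * x * x) * e * (x * x * x)⁻¹ := ⟨_, rfl⟩
  rw [← he₁] at c01 hA1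
  rw [← he₂] at c02 hA2
  rw [← he₃] at hA3
  have x0 : x * e * x⁻¹ = e₁ := he₁.symm
  have x1 : x * e₁ * x⁻¹ = e₂ := by rw [he₁, he₂]; group
  have x2 : x * e₂ * x⁻¹ = e₃ := by rw [he₂, he₃]; group
  have x3 : x * e₃ * x⁻¹ = e := by
    rw [he₃]
    calc x * (x * x * x * e * (x * x * x)⁻¹) * x⁻¹ = (x * x * x * x) * e * (x * x * x * x)⁻¹ := by
          group
      _ = e := by rw [hx4]; group
  have cstep : ∀ a b : H, a * b = b * a → (x * a * x⁻¹) * (x * b * x⁻¹) = (x * b * x⁻¹) * (x * a * x⁻¹) := by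
    intro a b h
    calc (x * a * x⁻¹) * (x * b * x⁻¹) = x * (a * b) * x⁻¹ := by group
      _ = x * (b * a) * x⁻¹ := by rw [h]
      _ = _ := by group
  have c12 : e₁ * e₂ = e₂ * e₁ := by
    have := cstep _ _ c01
    rwa [x0, x1] at this
  have c23 : e₂ * e₃ = e₃ * e₂ := by
    have := cstep _ _ c12
    rwa [x1, x2] at this
  have c30 : e₃ * e = e * e₃ := by
    have := cstep _ _ c23
    rwa [x2, x3] at this
  have c13 : e₁ * e₃ = e₃ * e₁ := by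
    have := cstep _ _ c02
    rwa [x0, x2] at this
  -- (4)
  have hsub : ({e, e₁, e₂, e₃} : Set H) ⊆ A := by
    rintro a (rfl | rfl | rfl | rfl)
    · exact heA
    · exact hA1
    · exact hA2
    · exact hA3
  have hEA : closure ({e, e₁, e₂, e₃} : Set H) ≤ A := (closure_le _).2 hsub
  have hab := a1b_comm ({e, e₁, e₂, e₃} : Set H) (by
    rintro a (rfl | rfl | rfl | rfl) b (rfl | rfl | rfl | rfl) <;>
      first
      | rfl
      | assumption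
      | (symm; assumption))
  -- `P` acts on the generators by signs
  have hsg : ∀ y : H, (∀ q ∈ P, y⁻¹ * q * y ∈ P) → ∀ q ∈ P, q * (y * e * y⁻¹) * q⁻¹ = y * e * y⁻¹ ∨
      q * (y * e * y⁻¹) * q⁻¹ = (y * e * y⁻¹)⁻¹ := by
    intro y hy q hq
    have h1 : q * (y * e * y⁻¹) * q⁻¹ = y * ((y⁻¹ * q * y) * e * (y⁻¹ * q * y)⁻¹) * y⁻¹ := by group
    rcases hPe _ (hy q hq) with h | h
    · left
      rw [h1, h]
    · right
      rw [h1, h]
      group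
  have hPxi3 : ∀ q ∈ P, (x * x * x)⁻¹ * q * (x * x * x) ∈ P := by
    intro q hq
    have h1 := D.hPx q hq
    have h2 : (x * x * x)⁻¹ * q * (x * x * x) = x * q * x⁻¹ := by
      rw [← hxi, inv_inv]
    rwa [h2]
  have g1 := hsg x hPxi
  have g2 := hsg _ hPxi2
  have g3 := hsg _ hPxi3
  rw [← he₁] at g1
  rw [← he₂] at g2
  rw [← he₃] at g3
  have hi0 : e ∈ closure ({e, e₁, e₂, e₃} : Set H) := subset_closure (by simp)
  have hi1 : e₁ ∈ closure ({e, e₁, e₂, e₃} : Set H) := subset_closure (by simp)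
  have hi2 : e₂ ∈ closure ({e, e₁, e₂, e₃} : Set H) := subset_closure (by simp)
  have hi3 : e₃ ∈ closure ({e, e₁, e₂, e₃} : Set H) := subset_closure (by simp)
  have hpm : ∀ a ∈ closure ({e, e₁, e₂, e₃} : Set H), (p * a * p⁻¹ = a ∨ p * a * p⁻¹ = a⁻¹) →
      p * a * p⁻¹ ∈ closure ({e, e₁, e₂, e₃} : Set H) := by
    rintro a ha (h | h)
    · rwa [h]
    · rw [h]
      exact inv_mem ha
  have huE : ∀ y ∈ closure ({e, e₁, e₂, e₃} : Set H),
      (p * x) * y * (p * x)⁻¹ ∈ closure ({e, e₁, e₂, e₃} : Set H) := by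
    intro y hy
    induction hy using closure_induction with
    | mem y hy =>
      have h1 : (p * x) * y * (p * x)⁻¹ = p * (x * y * x⁻¹) * p⁻¹ := by group
      rw [h1]
      rcases hy with rfl | rfl | rfl | rfl
      · rw [x0]
        exact hpm _ hi1 (g1 p D.hp)
      · rw [x1]
        exact hpm _ hi2 (g2 p D.hp)
      · rw [x2]
        exact hpm _ hi3 (g3 p D.hp)
      · rw [x3]
        exact hpm _ hi0 (hPe p D.hp)
    | one =>
      have h1 : (p * x) * 1 * (p * x)⁻¹ = 1 := by group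
      rw [h1]
      exact one_mem _
    | mul a b _ _ ha hb =>
      have h1 : (p * x) * (a * b) * (p * x)⁻¹ = ((p * x) * a * (p * x)⁻¹) * ((p * x) * b * (p * x)⁻¹) := by
        group
      rw [h1]
      exact mul_mem ha hb
    | inv a _ ha =>
      have h1 : (p * x) * a⁻¹ * (p * x)⁻¹ = ((p * x) * a * (p * x)⁻¹)⁻¹ := by group
      rw [h1]
      exact inv_mem ha
  have hu : (p * x) ^ (2 ^ 3) = 1 := by
    have h1 : (p * x) ^ (2 ^ 3) = ((p * x) ^ 4) ^ 2 := by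
      rw [← pow_mul]
      norm_num
    rw [h1, hz2]
  have hfin := zt_reg0 (a := 3) (by norm_num) hm hV _ (fun y hy => D'.odd y (hEA hy)) hab hu huE e hi0
  have hfin2 : (p * x) ^ 4 * e = e * (p * x) ^ 4 := by
    have h1 : (2 : ℕ) ^ (3 - 1) = 4 := by norm_num
    rwa [h1] at hfin
  apply hee
  rw [← hze, hfin2]
  group

/-- **Claim D.** -/
theorem zt_A1D {m : ℕ} (hm : Odd m) {F : Type} [Group F] [Finite F]
    (hsol : Group.IsSolvable F) (hexp : ∀ x : F, x ^ (m * 2 ^ 3) = 1) {P : Subgroup F}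
    {x ρ p : F} (D : ZA1 m P x ρ p) : InOP m (2 ^ 3) (⊤ : Subgroup F) ((p * x) ^ 4) := by
  rw [zt_op_iff hm hexp]
  by_contra h
  exact zt_A1H hm (zt_sol hsol) (zt_exp hexp) (zt_bot hm hexp) (zt_rep hm hsol hexp)
    (D.map (zp m 3 F) h)

end Pool.Agent.Lib.MP_544bd1_al
end

section

/-!
Theorem Z (paper 287): lifting of FT data.
-/

namespace Pool.Agent.Lib.MP_544bd1_al

open Subgroup

variable {m a : ℕ} {G : Type} [Group G]

/-- lifting of FT data over an odd normal subgroup -/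
theorem ys_liftFT (hm : Odd m) (ha : 3 ≤ a) {F X : Type} [Group F] [Finite F] [Group X]
    (hsol : Group.IsSolvable F)
    (hexp : ∀ x : F, x ^ (m * 2 ^ a) = 1) (f : F →* X) (hf : Function.Surjective f)
    (hker : ∀ x, f x = 1 → x ^ m = 1) {S Q Y : Subgroup X} {g u f' w s : X}
    (D : YFT m a S Q Y g u f' w s) :
    ∃ (S₁ Q₁ Y₁ : Subgroup F) (g₁ u₁ f₁ w₁ s₁ : F), YFT m a S₁ Q₁ Y₁ g₁ u₁ f₁ w₁ s₁ := by
  have hcop : Nat.Coprime m (2 ^ a) := hm.coprime_two_right.pow_right a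
  have hexp' : ∀ x : F, x ^ (2 ^ a * m) = 1 := fun x => by rw [mul_comm]; exact hexp x
  obtain ⟨Qh, hQh2, Fr⟩ := ys_frame hm hexp f hf hker Q D.hQ2
  -- the normalizer of `Qh`
  have hNor : ∀ n : F, n ∈ Subgroup.normalizer (Qh : Set F) ↔ ∀ x ∈ Qh, n * x * n⁻¹ ∈ Qh := by
    intro n
    constructor
    · intro h x hx
      exact (Subgroup.mem_normalizer_iff.mp h x).mp hx
    · intro h
      exact Subgroup.mem_normalizer_fintype (S := (Qh : Set F)) (fun x hx => h x hx)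
  -- lift of `g`
  obtain ⟨g1, hg1, hg1N⟩ := Fr.nor g (D.hSQ g D.hgS)
  obtain ⟨k, hk1, hk2⟩ := ys_lpow hcop hexp f (x := g1) (by rw [hg1]; exact D.hg)
  obtain ⟨gh, hghf, hgh2, hghN⟩ : ∃ gh : F, f gh = g ∧ gh ^ (2 ^ a) = 1 ∧
      gh ∈ Subgroup.normalizer (Qh : Set F) := by
    refine ⟨g1 ^ k, by rw [hk1, hg1], hk2, ?_⟩
    exact Subgroup.zpow_mem _ ((hNor g1).mpr hg1N) k
  -- `w ∈ S`
  have hwS : w ∈ S := by rw [← D.hwS]; exact D.hw
  have hsS : s ∈ S := by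
    rw [← D.hsS]; exact Subgroup.subset_closure (by simp)
  -- the minimal choice
  let W : Set F := {w' | f w' = w ∧ w' ∈ Subgroup.normalizer (Qh : Set F)}
  have hWne : W.Nonempty := by
    obtain ⟨w0, h1, h2⟩ := Fr.nor w (D.hSQ w hwS)
    exact ⟨w0, h1, (hNor w0).mpr h2⟩
  obtain ⟨wh, ⟨hwh1, hwhN⟩, hmin⟩ := Set.exists_min_image W
    (fun w' => Nat.card (closure {gh, w'⁻¹ * gh * w'} : Subgroup F)) (Set.toFinite _) hWne
  obtain ⟨Sh, hShdef⟩ : ∃ Sh : Subgroup F, Sh = closure {gh, wh⁻¹ * gh * wh} := ⟨_, rfl⟩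
  have hmap : ∀ x y : F, (closure {x, y}).map f = closure {f x, f y} := by
    intro x y
    rw [MonoidHom.map_closure, Set.image_pair]
  have hmapS : Sh.map f = S := by
    rw [hShdef, hmap, map_mul, map_mul, map_inv, hwh1, hghf]
    exact D.hwS
  have hghS : gh ∈ Sh := by rw [hShdef]; exact Subgroup.subset_closure (by simp)
  have hShN : Sh ≤ Subgroup.normalizer (Qh : Set F) := by
    rw [hShdef, Subgroup.closure_le]
    rintro x (rfl | rfl)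
    · exact hghN
    · exact Subgroup.mul_mem _ (Subgroup.mul_mem _ (Subgroup.inv_mem _ hwhN) hghN) hwhN
  have hShN' : ∀ n ∈ Sh, ∀ x ∈ Qh, n * x * n⁻¹ ∈ Qh := fun n hn => (hNor n).mp (hShN hn)
  -- minimality
  have key : ∀ T : Subgroup F, T ≤ Sh → gh ∈ T → (∃ w' ∈ T, f w' = w) → T = Sh := by
    rintro T hT hgT ⟨w', hw'T, hw'⟩
    have h1 : closure {gh, w'⁻¹ * gh * w'} ≤ T := by
      rw [Subgroup.closure_le]
      rintro x (rfl | rfl)
      · exact hgT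
      · exact T.mul_mem (T.mul_mem (T.inv_mem hw'T) hgT) hw'T
    have h2 := hmin w' ⟨hw', hShN (hT hw'T)⟩
    rw [← hShdef] at h2
    have h3 : closure {gh, w'⁻¹ * gh * w'} = Sh :=
      Subgroup.eq_of_le_of_card_ge (h1.trans hT) h2
    exact le_antisymm hT (h3 ▸ h1)
  have hlift : ∀ x ∈ S, ∃ y ∈ Sh, f y = x := by
    intro x hx
    rw [← hmapS] at hx
    obtain ⟨y, hy, rfl⟩ := hx
    exact ⟨y, hy, rfl⟩
  -- the elements
  obtain ⟨w1, hw1S, hw1⟩ := hlift w hwS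
  obtain ⟨s0, hs0S, hs0⟩ := hlift s hsS
  obtain ⟨k', hk'1, hk'2⟩ := ys_lpow hcop.symm hexp' f (x := s0) (by rw [hs0]; exact D.hs)
  obtain ⟨s1, hs1S, hs1, hs1m⟩ : ∃ s1 ∈ Sh, f s1 = s ∧ s1 ^ m = 1 :=
    ⟨s0 ^ k', Sh.zpow_mem hs0S k', by rw [hk'1, hs0], hk'2⟩
  have hcl1 : closure {gh, w1⁻¹ * gh * w1} = Sh := by
    have h1 : closure {gh, w1⁻¹ * gh * w1} ≤ Sh := by
      rw [Subgroup.closure_le]
      rintro x (rfl | rfl)
      · exact hghS
      · exact Sh.mul_mem (Sh.mul_mem (Sh.inv_mem hw1S) hghS) hw1S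
    apply key _ h1 (Subgroup.subset_closure (by simp))
    have h2 : w ∈ (closure {gh, w1⁻¹ * gh * w1}).map f := by
      rw [hmap, map_mul, map_mul, map_inv, hw1, hghf]
      exact D.hw
    obtain ⟨w', h3, h4⟩ := h2
    exact ⟨w', h3, h4⟩
  have hcl2 : closure {gh, s1} = Sh := by
    have h1 : closure {gh, s1} ≤ Sh := by
      rw [Subgroup.closure_le]
      rintro x (rfl | rfl)
      · exact hghS
      · exact hs1S
    apply key _ h1 (Subgroup.subset_closure (by simp))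
    have h2 : w ∈ (closure {gh, s1}).map f := by
      rw [hmap, hs1, hghf, D.hsS]
      exact hwS
    obtain ⟨w', h3, h4⟩ := h2
    exact ⟨w', h3, h4⟩
  -- (i)
  have hi : ∀ B : Subgroup F, (∀ h ∈ Sh, h ^ (2 ^ a) = 1 → h ^ (2 ^ (a - 1)) ∈ B) → Qh ≤ B := by
    intro B hB
    have h1 : Q ≤ (B ⊓ Sh).map f := by
      apply D.i
      intro h hh h2
      obtain ⟨h1, h1S, rfl⟩ := hlift h hh
      obtain ⟨k, hk1, hk2⟩ := ys_lpow hcop hexp f (x := h1) h2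
      have h3 := hB (h1 ^ k) (Sh.zpow_mem h1S k) hk2
      refine ⟨(h1 ^ k) ^ (2 ^ (a - 1)), ⟨h3, Sh.pow_mem (Sh.zpow_mem h1S k) _⟩, ?_⟩
      rw [map_pow, hk1]
    have h2 : Qh ≤ B ⊓ Sh := by
      apply Fr.cov hm hker hQh2
      · rintro n ⟨_, hn⟩
        exact hShN' n hn
      · intro x hx
        obtain ⟨b, hb, hbx⟩ := h1 (Fr.mem x hx)
        exact ⟨b, hb, hbx⟩
    exact h2.trans inf_le_left
  have hQS : Qh ≤ Sh := by
    apply Fr.cov hm hker hQh2 hShN'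
    intro x hx
    exact hlift _ (D.hQS (Fr.mem x hx))
  obtain ⟨u1, hu1, hu1f⟩ := Fr.sur u D.hu
  obtain ⟨f1, hf1, hf1f⟩ := Fr.sur f' D.hf
  have hghQ : ∀ x ∈ Qh, gh * x * gh⁻¹ ∈ Qh := (hNor gh).mp hghN
  have hpowQ : ∀ n : ℕ, ∀ x ∈ Qh, gh ^ n * x * (gh ^ n)⁻¹ ∈ Qh := fun n =>
    (hNor _).mp (Subgroup.pow_mem _ hghN n)
  -- the isomorphism
  let e : Qh →* Q := (f.comp Qh.subtype).codRestrict Q (fun x => Fr.mem x x.2)
  have he : Function.Bijective e := by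
    constructor
    · rintro ⟨x, hx⟩ ⟨y, hy⟩ h
      apply Subtype.ext
      exact Fr.eq hx hy (congrArg Subtype.val h)
    · rintro ⟨x, hx⟩
      obtain ⟨y, hy, rfl⟩ := Fr.sur x hx
      exact ⟨⟨y, hy⟩, rfl⟩
  let E : Qh ≃* Q := MulEquiv.ofBijective e he
  refine ⟨Sh, Qh, Qh ⊓ Y.comap f, gh, u1, f1, w1, s1, ?_⟩
  refine ⟨inferInstance, ?_, hQS, hQh2, hShN', inf_le_left, ?_, ?_, hgh2, hghS, hu1, hf1, ?_, ?_,
    ?_, hi, ?_, ?_, hcl1, hs1m, hcl2, ?_, ?_⟩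
  · exact inferInstance
  · rintro x ⟨hx, hxY⟩
    apply Fr.inj _ (Qh.pow_mem hx 2)
    rw [map_pow]
    exact D.hY2 _ hxY
  · rintro x ⟨hx, hxY⟩
    refine ⟨hghQ x hx, ?_⟩
    show f (gh * x * gh⁻¹) ∈ Y
    rw [map_mul, map_mul, map_inv, hghf]
    exact D.hgY _ hxY
  · rintro rfl
    apply D.hf1
    rw [← hf1f, map_one]
  · apply Fr.inj _ (Qh.pow_mem hf1 2)
    rw [map_pow, hf1f]
    exact D.hf2
  · intro h hh
    apply Fr.comm (hShN' h hh) hf1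
    rw [hf1f]
    apply D.hfS
    rw [← hmapS]
    exact ⟨h, hh, rfl⟩
  · intro r hr hr2 V _ _ _ ρ hc hρ x
    refine D.ii r hr hr2 V (ρ.comp E.symm.toMonoidHom) hc ?_ x
    rw [← hρ]
    show ρ (E.symm ⟨f', D.hf⟩) = ρ ⟨f1, hf1⟩
    congr 1
    rw [MulEquiv.symm_apply_eq]
    exact Subtype.ext hf1f.symm
  · rw [hcl1]; exact hw1S
  · have h1 : (gh ^ (2 ^ (a - 1)))⁻¹ * u1⁻¹ * gh ^ (2 ^ (a - 1)) * u1 = f1 := by
      apply Fr.eq _ hf1
      · rw [map_mul, map_mul, map_mul, map_inv, map_inv, map_pow, hghf, hu1f, hf1f]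
        have := D.hx
        calc (g ^ 2 ^ (a - 1))⁻¹ * u⁻¹ * g ^ 2 ^ (a - 1) * u
            = (g ^ 2 ^ (a - 1))⁻¹ * (u⁻¹ * g ^ 2 ^ (a - 1) * u) := by group
          _ = f' := by rw [this]; group
      · have h2 := (hNor _).mp (Subgroup.inv_mem _ (Subgroup.pow_mem _ hghN (2 ^ (a - 1)))) u1⁻¹
          (Qh.inv_mem hu1)
        rw [inv_inv] at h2
        exact Qh.mul_mem h2 hu1
    rw [← h1]
    group
  · refine ⟨Qh.mul_mem (Qh.inv_mem hu1) (hpowQ _ u1 hu1), ?_⟩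
    show f (u1⁻¹ * (gh ^ (2 ^ (a - 2)) * u1 * (gh ^ (2 ^ (a - 2)))⁻¹)) ∈ Y
    rw [map_mul, map_inv, map_mul, map_mul, map_inv, map_pow, hghf, hu1f]
    exact D.hm

end Pool.Agent.Lib.MP_544bd1_al
end
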