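import Mathlib
import Pool.Agent.Lib.MP_544bd1_al.TwS2
import Pool.Agent.Lib.MP_544bd1_al.ZtNorm
import Pool.Agent.Lib.MP_544bd1_al.ZsC0
import Pool.Agent.Lib.MP_544bd1_al.ZsC4
import Pool.Agent.Lib.MP_544bd1_al.ZtF3
import Pool.Agent.Lib.MP_544bd1_al.TwLZ
import Pool.Agent.Lib.MP_544bd1_al.GpOX
import Pool.Agent.Lib.MP_544bd1_al.ZsLp
import Pool.Agent.Lib.MP_544bd1_al.TwS3
import Pool.Agent.Lib.MP_544bd1_al.TwU1
import Pool.Agent.Lib.MP_544bd1_al.ZtFrat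
import Pool.Agent.Lib.MP_544bd1_al.ZtDefs3
import Pool.Agent.Lib.MP_544bd1_al.EvD
import Pool.Agent.Lib.MP_544bd1_al.ZsMn
import Pool.Agent.Lib.MP_544bd1_al.ZtFP

section

/-!
Theorem Z (paper 287): transport along inclusions.
-/

namespace Pool.Agent.Lib.MP_544bd1_al

open Subgroup

variable {m a : ℕ} {G : Type} [Group G]

/-- `ynorm` and homomorphisms -/
theorem ys_map_ynorm {H : Type} [Group H] (φ : H →* G) (M : ℕ) (g p : H) :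
    φ (ynorm M g p) = ynorm M (φ g) (φ p) := by
  simp [ynorm, map_mul, map_pow, map_inv]

theorem ys_mapYLC {H : Type} [Group H] (φ : H →* G) (hφ : Function.Injective φ) {Q : Subgroup H}
    {α ρ p : H} (D : YLC m a Q α ρ p) : YLC m a (Q.map φ) (φ α) (φ ρ) (φ p) := by
  have hfin := D.fin
  refine ⟨?_, ?_, ⟨p, D.hp, rfl⟩, ?_, ?_, ?_, ?_, ?_, ?_, ?_, ?_⟩
  · exact (Set.Finite.image φ (Set.toFinite (Q : Set H))).to_subtype
  · rintro _ ⟨x, hx, rfl⟩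
    rw [← map_pow, D.sq x hx, map_one]
  · rw [← map_pow, D.hα, map_one]
  · rw [← map_pow, D.hρ, map_one]
  · rw [← map_pow, ← map_mul, ← map_inv, ← map_mul, D.inv, map_inv]
  · rintro _ ⟨x, hx, rfl⟩
    exact ⟨_, D.hαP x hx, by simp⟩
  · rintro _ ⟨x, hx, rfl⟩
    exact ⟨_, D.hρP x hx, by simp⟩
  · rintro _ ⟨x, hx, rfl⟩
    rw [← map_pow, ← map_mul, ← map_mul, D.cen x hx]
  · rw [← ys_map_ynorm]
    intro h
    exact D.ne (hφ (by rw [h, map_one]))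
  · intro B hB h1 h2 h3
    have key : B.comap φ = Q := by
      apply D.gen
      · intro x hx
        obtain ⟨y, hy, hxy⟩ := hB hx
        rwa [← hφ hxy]
      · intro x hx
        have := h1 _ hx
        simpa using this
      · intro x hx
        have := h2 _ hx
        simpa using this
      · rw [← ys_map_ynorm] at h3
        simpa using h3
    apply le_antisymm hB
    rw [← key]
    exact Subgroup.map_comap_le φ B

/-- transport along the inclusion of a subgroup -/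
theorem ys_mapSys {T : Subgroup G} {k : ℕ} {P : Subgroup T} {g τ p : T}
    (S : YSys m a k P g τ p) : YSys m a k (P.map T.subtype) (g : G) (τ : G) (p : G) := by
  have hφ := T.subtype_injective
  have hfin := S.pr.fin
  have hsub : ∀ x : T, T.subtype x = (x : G) := fun _ => rfl
  have tr : ∀ {α q : T}, (∃ (Q : Subgroup T) (ρ : T), Q ≤ P ∧ (∀ x ∈ P, ρ * x * ρ⁻¹ ∈ P) ∧
      YLC m a Q α ρ q) → ∃ (Q : Subgroup G) (ρ : G), Q ≤ P.map T.subtype ∧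
      (∀ x ∈ P.map T.subtype, ρ * x * ρ⁻¹ ∈ P.map T.subtype) ∧ YLC m a Q (α : G) ρ (q : G) := by
    rintro α q ⟨Q, ρ, h1, h2, h3⟩
    refine ⟨Q.map T.subtype, (ρ : G), Subgroup.map_mono h1, ?_, ys_mapYLC T.subtype hφ h3⟩
    rintro _ ⟨x, hx, rfl⟩
    exact ⟨_, h2 x hx, by simp⟩
  refine ⟨⟨?_, ?_, ⟨p, S.pr.hp, rfl⟩, ?_, ?_, ?_, ?_, ?_, ?_, ?_, ?_⟩, ?_, ?_, ?_⟩
  · exact (Set.Finite.image T.subtype (Set.toFinite (P : Set T))).to_subtype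
  · rintro _ ⟨x, hx, rfl⟩
    rw [← map_pow, S.pr.sq x hx, map_one]
  · have := congrArg (Subtype.val) S.pr.hg
    simpa using this
  · obtain ⟨j, hj⟩ := S.pr.hτ
    exact ⟨j, by simpa using congrArg (Subtype.val) hj⟩
  · have := congrArg (Subtype.val) S.pr.hτm
    simpa using this
  · have := congrArg (Subtype.val) S.pr.hgτ
    simpa using this
  · have := congrArg (Subtype.val) S.pr.hτp
    simpa using this
  · rintro _ ⟨x, hx, rfl⟩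
    exact ⟨_, S.pr.hgP x hx, by simp⟩
  · rintro _ ⟨x, hx, rfl⟩
    exact ⟨_, S.pr.hτP x hx, by simp⟩
  · rintro _ ⟨x, hx, rfl⟩
    have := congrArg (Subtype.val) (S.pr.cen x hx)
    simpa using this
  · exact tr S.lc0
  · have := tr S.lcI
    have h2 : ((ynorm (3 ^ k) τ p : T) : G) = ynorm (3 ^ k) (τ : G) (p : G) :=
      ys_map_ynorm T.subtype (3 ^ k) τ p
    rwa [h2] at this
  · intro i h1 h2
    have := tr (S.lci i h1 h2)
    simpa using this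

theorem ys_mapFT {T : Subgroup G} {S Q Y : Subgroup T} {g u f w s : T}
    (D : YFT m a S Q Y g u f w s) :
    YFT m a (S.map T.subtype) (Q.map T.subtype) (Y.map T.subtype) (g : G) (u : G) (f : G) (w : G)
      (s : G) := by
  have hφ := T.subtype_injective
  have hfin := D.fin
  have hS : Function.Injective (T.subtype) := hφ
  have hcl : ∀ x y : T, closure {(x : G), (y : G)} = (closure {x, y}).map T.subtype := by
    intro x y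
    rw [MonoidHom.map_closure]
    congr 1
    ext z
    simp [Set.image_pair]
  refine ⟨?_, ?_, Subgroup.map_mono D.hQS, ?_, ?_, Subgroup.map_mono D.hYQ, ?_, ?_, ?_,
    ⟨g, D.hgS, rfl⟩, ⟨u, D.hu, rfl⟩, ⟨f, D.hf, rfl⟩, ?_, ?_, ?_, ?_, ?_, ?_, ?_, ?_, ?_, ?_, ?_⟩
  · exact (Set.Finite.image T.subtype (Set.toFinite (S : Set T))).to_subtype
  · have h1 := D.sol
    exact Group.isSolvable_of_surjective (f := (S.equivMapOfInjective T.subtype hφ).toMonoidHom)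
      (S.equivMapOfInjective T.subtype hφ).surjective
  · rintro _ ⟨x, hx, rfl⟩
    rw [← map_pow, D.hQ2 x hx, map_one]
  · rintro _ ⟨h, hh, rfl⟩ _ ⟨x, hx, rfl⟩
    exact ⟨_, D.hSQ h hh x hx, by simp⟩
  · rintro _ ⟨x, hx, rfl⟩
    rw [← map_pow, D.hY2 x hx, map_one]
  · rintro _ ⟨x, hx, rfl⟩
    exact ⟨_, D.hgY x hx, by simp⟩
  · simpa using congrArg (Subtype.val) D.hg
  · intro h
    exact D.hf1 (Subtype.ext h)
  · simpa using congrArg (Subtype.val) D.hf2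
  · rintro _ ⟨h, hh, rfl⟩
    simpa using congrArg (Subtype.val) (D.hfS h hh)
  · intro B hB
    rw [Subgroup.map_le_iff_le_comap]
    apply D.i
    intro h hh h2
    have := hB (h : G) ⟨h, hh, rfl⟩ (by simpa using congrArg (Subtype.val) h2)
    rw [Subgroup.mem_comap, map_pow]
    exact this
  · intro r hr hr2 X _ _ _ ρ hc hρ x
    refine D.ii r hr hr2 X (ρ.comp (Q.equivMapOfInjective T.subtype hφ).toMonoidHom) hc ?_ x
    rw [← hρ]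
    rfl
  · have h1 := D.hw
    have h2 : (w : G) ∈ (closure {g, w⁻¹ * g * w}).map T.subtype := ⟨w, h1, rfl⟩
    rw [← hcl] at h2
    simpa using h2
  · have h1 := congrArg (Subgroup.map T.subtype) D.hwS
    rw [← hcl] at h1
    simpa using h1
  · simpa using congrArg (Subtype.val) D.hs
  · have h1 := congrArg (Subgroup.map T.subtype) D.hsS
    rw [← hcl] at h1
    simpa using h1
  · simpa using congrArg (Subtype.val) D.hx
  · have := D.hm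
    exact ⟨_, this, by simp⟩

end Pool.Agent.Lib.MP_544bd1_al
end

section

/-!
Theorem Z (paper 287), 4.1: norms of the product `p_I` of the conjugates of `p`.
-/

namespace Pool.Agent.Lib.MP_544bd1_al

open Subgroup

variable {m a : ℕ} {G : Type} [Group G]

/-- the norms with respect to commuting elements commute.

Proof. Induction on `K`: `K = 0`: `ynorm_zero`, `ynorm M g 1 = 1` (`g ^ M * (g ^ M)⁻¹`). `K + 1`:
`ynorm_succ` for `τ` on both sides, `ynorm_mul` (`ynorm K τ p ∈ P`, `τ ^ K * p * (τ ^ K)⁻¹ ∈ P`: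
`ynorm_mem`, `ys_pow_mem`) and `ynorm_conj` (`t := τ ^ K` commutes with `g`). -/
theorem ynorm_swap {P : Subgroup G} {g τ p : G} (hP : ∀ x ∈ P, x ^ 2 = 1)
    (hgP : ∀ x ∈ P, g * x * g⁻¹ ∈ P) (hτP : ∀ x ∈ P, τ * x * τ⁻¹ ∈ P) (hp : p ∈ P)
    (hgτ : g * τ = τ * g) (M K : ℕ) :
    ynorm M g (ynorm K τ p) = ynorm K τ (ynorm M g p) := by
  have hgt : ∀ i : ℕ, g * τ ^ i = τ ^ i * g := fun i => (Commute.pow_right hgτ i)
  induction K with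
  | zero =>
    rw [ynorm_zero, ynorm_zero]
    simp [ynorm]
  | succ K ih =>
    rw [ynorm_succ K τ p, ynorm_succ K τ (ynorm M g p),
      ynorm_mul hgP (ys_comm hP) (ynorm_mem hτP hp K) (ys_pow_mem hτP K p hp) M, ih,
      ynorm_conj M (hgt K)]

/-- if `z ∈ O_2(T)` and `τ ∈ T` then the norm `ynorm K τ z` is in `O_2(T)`.

Proof. From `h`: a subgroup `N ≤ T` with `z ∈ N`, normalized by `T`, of exponent `2 ^ a`. `ynorm_mem`
(`P := N`): `ynorm K τ z ∈ N`. -/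
theorem ynorm_inO {n : ℕ} {T : Subgroup G} {τ z : G} (h : InO n T z) (hτ : τ ∈ T) (K : ℕ) :
    InO n T (ynorm K τ z) := by
  obtain ⟨N, h1, h2, h3, h4⟩ := h
  exact ⟨N, h1, ynorm_mem (fun x hx => h3 τ hτ x hx) h2 K, h3, h4⟩

/-- `YPerp` is invariant under conjugation.

Proof. Let `k ^ m = 1`, inverted by `t * x * t⁻¹`. Then `t⁻¹ * k * t` is inverted by `x`; `h` for it:
a subgroup `N` of `closure {z, t⁻¹ * k * t}`; its conjugate by `t` (`N.map (MulAut.conj t).toMonoidHom`) is the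
required subgroup of `closure {t * z * t⁻¹, k}` (`MonoidHom.map_closure`). -/
theorem YPerp.conj {x z : G} (h : YPerp m a x z) (t : G) :
    YPerp m a (t * x * t⁻¹) (t * z * t⁻¹) := by
  intro k hk hinv
  have h1 : (t⁻¹ * k * t) ^ m = 1 := by
    have h2 : t⁻¹ * k * t = t⁻¹ * k * (t⁻¹)⁻¹ := by rw [inv_inv]
    rw [h2, conj_pow, hk, mul_one, mul_inv_cancel]
  have h2 : x * (t⁻¹ * k * t) * x⁻¹ = (t⁻¹ * k * t)⁻¹ := by
    calc x * (t⁻¹ * k * t) * x⁻¹ = t⁻¹ * (t * x * t⁻¹ * k * (t * x * t⁻¹)⁻¹) * t := by group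
      _ = t⁻¹ * k⁻¹ * t := by rw [hinv]
      _ = (t⁻¹ * k * t)⁻¹ := by group
  obtain ⟨N, n1, n2, n3, n4⟩ := h _ h1 h2
  have hconj : ∀ y : G, (MulAut.conj t).toMonoidHom y = t * y * t⁻¹ := fun y => rfl
  have hcl : (closure {z, t⁻¹ * k * t}).map (MulAut.conj t).toMonoidHom =
      closure {t * z * t⁻¹, k} := by
    rw [MonoidHom.map_closure, Set.image_pair, hconj, hconj]
    congr 2
    rw [show t * (t⁻¹ * k * t) * t⁻¹ = k by group]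
  refine ⟨N.map (MulAut.conj t).toMonoidHom, ?_, ⟨z, n2, hconj z⟩, ?_, ?_⟩
  · rw [← hcl]
    exact Subgroup.map_mono n1
  · intro s hs y hy
    rw [← hcl] at hs
    obtain ⟨s', hs', rfl⟩ := hs
    obtain ⟨y', hy', rfl⟩ := hy
    refine ⟨s' * y' * s'⁻¹, n3 s' hs' y' hy', ?_⟩
    rw [map_mul, map_mul, map_inv]
  · rintro y ⟨y', hy', rfl⟩
    rw [← map_pow, n4 y' hy', map_one]

/-- facts on systems: `z_I = ynorm (3 ^ k) τ z` where `z = ynorm (2 ^ (a - 1)) g p`; `p_I ∈ P`, `z_I ∈ P`;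
`τ * p_I = p_I * τ`; `z ∈ P`; `g * z_I = z_I * g`; all `z_i ∈ P`, `g * z_i = z_i * g`.

Proof. `ynorm_mem`, `ynorm_comm` (for `τ`, `M := 3 ^ k`, with `S.hτp`, and for `g`, with `S.cen`), `ynorm_swap`,
`ynorm_conj`, `ys_pow_mem`, `ys_comm`. -/
theorem YPr.facts {k : ℕ} {P : Subgroup G} {g τ p : G} (S : YPr m a k P g τ p) :
    ynorm (3 ^ k) τ p ∈ P ∧ ynorm (2 ^ (a - 1)) g p ∈ P ∧
      ynorm (2 ^ (a - 1)) g (ynorm (3 ^ k) τ p) = ynorm (3 ^ k) τ (ynorm (2 ^ (a - 1)) g p) ∧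
      ynorm (2 ^ (a - 1)) g (ynorm (3 ^ k) τ p) ∈ P ∧
      τ * ynorm (3 ^ k) τ p = ynorm (3 ^ k) τ p * τ ∧
      g * ynorm (2 ^ (a - 1)) g (ynorm (3 ^ k) τ p) =
        ynorm (2 ^ (a - 1)) g (ynorm (3 ^ k) τ p) * g ∧
      g * ynorm (2 ^ (a - 1)) g p = ynorm (2 ^ (a - 1)) g p * g ∧
      (∀ i : ℕ, τ ^ i * ynorm (2 ^ (a - 1)) g p * (τ ^ i)⁻¹ ∈ P) ∧
      (∀ i : ℕ, τ ^ i * p * (τ ^ i)⁻¹ ∈ P) ∧
      (∀ i : ℕ, τ ^ i * ynorm (2 ^ (a - 1)) g p * (τ ^ i)⁻¹ =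
        ynorm (2 ^ (a - 1)) g (τ ^ i * p * (τ ^ i)⁻¹)) ∧
      (∀ i : ℕ, g * (τ ^ i * ynorm (2 ^ (a - 1)) g p * (τ ^ i)⁻¹) =
        τ ^ i * ynorm (2 ^ (a - 1)) g p * (τ ^ i)⁻¹ * g) ∧
      (∀ x ∈ P, ∀ y ∈ P, x * y = y * x) := by
  have hc := ys_comm S.sq
  have hpI : ynorm (3 ^ k) τ p ∈ P := ynorm_mem S.hτP S.hp _
  have hz : ynorm (2 ^ (a - 1)) g p ∈ P := ynorm_mem S.hgP S.hp _
  have hgt : ∀ i : ℕ, g * τ ^ i = τ ^ i * g := fun i => (Commute.pow_right S.hgτ i)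
  have hpi : ∀ i : ℕ, τ ^ i * p * (τ ^ i)⁻¹ ∈ P := fun i => ys_pow_mem S.hτP i _ S.hp
  have hconj : ∀ i : ℕ, τ ^ i * ynorm (2 ^ (a - 1)) g p * (τ ^ i)⁻¹ =
      ynorm (2 ^ (a - 1)) g (τ ^ i * p * (τ ^ i)⁻¹) := fun i => ynorm_conj _ (hgt i)
  refine ⟨hpI, hz, ynorm_swap S.sq S.hgP S.hτP S.hp S.hgτ _ _, ynorm_mem S.hgP hpI _,
    ynorm_comm S.hτP hc S.hp S.hτp, ynorm_comm S.hgP hc hpI (S.cen _ hpI),
    ynorm_comm S.hgP hc S.hp (S.cen _ S.hp), fun i => ys_pow_mem S.hτP i _ hz, hpi, hconj,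
    fun i => ?_, hc⟩
  rw [hconj i]
  exact ynorm_comm S.hgP hc (hpi i) (S.cen _ (hpi i))

end Pool.Agent.Lib.MP_544bd1_al
end

section

/-!
Theorem Z3, Case A, `P` abelian: the configuration.
-/

namespace Pool.Agent.Lib.MP_544bd1_al

open Subgroup

/-- **The configuration for abelian `Q`.**

Proof. `zt_module` for `D.core` gives `V, τ, φ` with `ZMd Q R τ φ`. `ρ ^ m = 1`: `ρ ^ (r ^ k) = 1`,
`hexp`, `r` odd. Elements with `φ q = 0` are in `⁅Q, Q⁆ = ⊥` (`zt_irr`), so `φ` is injective and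
`q ^ 2 = 1` (`φ (q ^ 2) = φ q + φ q = 0`). By `zt_norm4` there is `v = φ p` with
`v + τ x v + τ (x ^ 2) v + τ (x ^ 3) v ≠ 0`; since `x ^ 4 = 1`,
`(p * x) ^ 4 = p * (x * p * x⁻¹) * (x ^ 2 * p * (x ^ 2)⁻¹) * (x ^ 3 * p * (x ^ 3)⁻¹) ∈ Q` is mapped to
this element by `φ`, so it is not `1`. `gen`: `P' ≤ Q` invariant under `x`, `ρ` is invariant under
`x * ρ * x⁻¹` (finite group: under `x⁻¹`), so under `R` (`D.gen` for the normalizer-like subgroup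
`{g | ∀ q ∈ P', g * q * g⁻¹ ∈ P'}`, e.g. `normalizer P'`); if `P' ≠ Q`, then `R` centralizes
`P' ∋ (p * x) ^ 4` (`D.core.min`), so `φ ((p * x) ^ 4) = 0` by `zt_irr` (1), contradiction. -/
theorem zt_A1cfg {m r : ℕ} (hm : Odd m) {F : Type} [Group F] [Finite F]
    (hexp : ∀ x : F, x ^ (m * 2 ^ 3) = 1) (hr : r.Prime) (hr2 : r ≠ 2) {Q R : Subgroup F}
    [Q.Normal] {x ρ : F} (D : ZHon r Q R x ρ) (hQ : ∀ q ∈ Q, ∀ q' ∈ Q, q * q' = q' * q) :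
    ∃ p : F, ZA1 m Q x ρ p := by
  obtain ⟨V, iA, iM, iF, τ, φ, h1, h2, h3, h4, h5⟩ := zt_module hr hr2 Q R D.core
  have M : ZMd Q R τ φ := ⟨h1, h2, h3, h4, h5⟩
  obtain ⟨i1, i2, -, -⟩ := zt_irr hr hr2 D.core M
  obtain ⟨v, hv⟩ := zt_norm4 hr hr2 D M
  obtain ⟨p, rfl⟩ := M.surj v
  have hQn : Q.Normal := inferInstance
  have hker : ∀ q : Q, φ q = 0 → q = 1 := by
    intro q hq
    have h6 : ⁅Q, Q⁆ = ⊥ := by
      rw [Subgroup.commutator_eq_bot_iff_le_centralizer]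
      intro a ha
      rw [mem_centralizer_iff]
      intro b hb
      exact hQ b hb a ha
    have h7 := (i2 q hq).1
    rw [h6, mem_bot] at h7
    exact Subtype.ext h7
  have hρm : ρ ^ m = 1 := by
    obtain ⟨k, hk⟩ := D.core.hR ⟨ρ, D.hρ⟩
    have hk' : ρ ^ (r ^ k) = 1 := by
      have := congrArg Subtype.val hk
      simpa using this
    have hcop : Nat.Coprime (r ^ k) (2 ^ 3) :=
      Nat.Coprime.pow _ _ ((Nat.coprime_primes hr Nat.prime_two).2 hr2)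
    refine tw_one hcop ?_ ?_
    · rw [← pow_mul, mul_comm, pow_mul, hk', one_pow]
    · rw [← pow_mul]
      exact hexp ρ
  have hx2c : ∀ (g : F) (q : Q), g * (q : F) * g⁻¹ ∈ Q := fun g q => hQn.conj_mem _ q.2 g
  obtain ⟨z, hz⟩ : ∃ z : Q, z = p * ⟨x * p * x⁻¹, hx2c x p⟩ * ⟨x ^ 2 * p * (x ^ 2)⁻¹, hx2c (x ^ 2) p⟩ *
      ⟨x ^ 3 * p * (x ^ 3)⁻¹, hx2c (x ^ 3) p⟩ := ⟨_, rfl⟩
  have hφz : φ z ≠ 0 := by
    rw [hz, M.add, M.add, M.add, M.eqv, M.eqv, M.eqv]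
    exact hv
  have hzF : (z : F) = ((p : F) * x) ^ 4 := by
    rw [hz]
    show (p : F) * (x * p * x⁻¹) * (x ^ 2 * p * (x ^ 2)⁻¹) * (x ^ 3 * p * (x ^ 3)⁻¹) = _
    have e1 : ((p : F) * x) ^ 4 = (p : F) * (x * p * x⁻¹) * (x ^ 2 * p * (x ^ 2)⁻¹) *
        (x ^ 3 * p * (x ^ 3)⁻¹) * x ^ 4 := by
      have e2 : ((p : F) * x) ^ 4 = ((p : F) * x) * (p * x) * (p * x) * (p * x) := by
        simp only [pow_succ, pow_zero, one_mul]
      rw [e2]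
      group
    rw [e1, D.hx, mul_one]
  have hφ1 : φ 1 = 0 := by
    have h6 := M.add 1 1
    rw [mul_one] at h6
    exact left_eq_add.1 h6
  refine ⟨p, ?_, D.hx, hρm, D.hρx, fun q hq => hQn.conj_mem q hq x, fun q hq => hQn.conj_mem q hq ρ,
    p.2, ?_, ?_⟩
  · intro q hq
    have h6 : φ (⟨q, hq⟩ * ⟨q, hq⟩) = 0 := by
      rw [M.add]
      exact ZModModule.add_self _
    have h7 := congrArg Subtype.val (hker _ h6)
    rw [pow_two]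
    exact h7
  · intro h6
    refine hφz ?_
    have h7 : z = 1 := Subtype.ext (by rw [hzF, h6]; rfl)
    rw [h7, hφ1]
  · intro P' hle hz' hxP hρP
    by_contra hne
    have hRn : R ≤ normalizer (P' : Set F) := by
      have hxn : x ∈ normalizer (P' : Set F) := mem_normalizer_fintype hxP
      have hρn : ρ ∈ normalizer (P' : Set F) := mem_normalizer_fintype hρP
      exact D.gen _ hρn ((normalizer (P' : Set F)).mul_mem
        ((normalizer (P' : Set F)).mul_mem hxn hρn) ((normalizer (P' : Set F)).inv_mem hxn))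
    have h6 := D.core.min P' hle hne (fun g hg q hq => (mem_normalizer_iff.1 (hRn hg) q).1 hq) hxP
    refine hφz (i1 z fun g hg => ?_)
    rw [hzF]
    exact h6 g hg _ hz'

end Pool.Agent.Lib.MP_544bd1_al
end

section

/-!
Theorem Z (paper 287), 4.1: the element `k`.
-/

namespace Pool.Agent.Lib.MP_544bd1_al

open Subgroup

variable {m a : ℕ} {G : Type} [Group G]

/-- **The element `k`.** (`c` will be `z_I`, `κ = g ^ (2 ^ (a - 1))`.)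

Proof. (1) `gp_adjoin` with `n = m * 2 ^ a = 2 ^ a * m`, `M := 2 ^ a`, `P := m`, `H.no2`, `w := g`: `k₀ : G`. Let
`T = closure {c, g * k₀}` (finite, solvable: `H.tw.h2`); `g ∈ T`, `¬ InO (2 ^ a) T c`.
(2) Let `F = ↥T`, `f : F →* X := F ⧸ krad (2 ^ a) F` the projection. `krad (2 ^ a) X = ⊥` (`tw_krad_quot`,
coprimality of `2 ^ a` and `m`, `tw_exp_comm`), `X` is finite and solvable, `x ^ (m * 2 ^ a) = 1`
(`tw_exp_quot`). `f c ≠ 1` (`tw_mem_krad_iff` for `M := 2 ^ a`, `InO.top_iff`), `(f c) ^ 2 = 1`. `zt_krad_ne`: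
`f c` does not centralize `A = krad m X` (`x ^ m = 1` on `A`: `tw_krad_pow`). `zt_f3` for `A`, `x := f κ` (`κ ∈ T`
as a power of `g`; `κ ^ 2 = 1` by `hg`, `κ * c = c * κ`), `z := f c`: `e ∈ A`, `e ≠ 1`, inverted by `f c`,
centralized or inverted by `f κ`. By `ys_C4g` (`x := κ`, `z := c`, `hperp`) it is not inverted by `f κ`.
So `f (κ * c) = f κ * f c` inverts `e`.
(3) `ys_oddpart` for the involution `κ * c` (`(κ * c) ^ 2 = 1`): `k : F`, `k ^ m = 1`, inverted by `κ * c`,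
`f k = e ^ 2`. If `InO (2 ^ a) (closure {c, k}) c` then `ys_C4k` (`z := c`) gives `e = 1`: contradiction. -/
theorem ys_41a (H : YG m a G) {g c : G} (hg : g ^ (2 ^ a) = 1) (hc2 : c ^ 2 = 1) (hc1 : c ≠ 1)
    (hgc : g * c = c * g) (hperp : YPerp m a (g ^ (2 ^ (a - 1))) c) :
    ∃ k : G, k ^ m = 1 ∧
      (c * g ^ (2 ^ (a - 1))) * k * (c * g ^ (2 ^ (a - 1)))⁻¹ = k⁻¹ ∧
      ¬ InO (2 ^ a) (closure {c, k}) c := by
  have hm := H.hm
  have ha := H.ha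
  have hsucc : 2 ^ a = 2 ^ (a - 1) * 2 := by
    obtain ⟨b, rfl⟩ : ∃ b, a = b + 1 := ⟨a - 1, by omega⟩
    rw [Nat.add_sub_cancel, pow_succ]
  have hc : c ^ (2 ^ a) = 1 := by
    rw [hsucc, mul_comm, pow_mul, hc2, one_pow]
  obtain ⟨k₀, hk₀⟩ := gp_adjoin (M := 2 ^ a) (P := m) H.tw (mul_comm m (2 ^ a))
    (zt_cop hm a).symm H.no2 hc hc1 hgc.symm
  obtain ⟨hgT, -, hno⟩ := hk₀ (closure {c, g * k₀}) (subset_closure (by simp))
    (subset_closure (by simp))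
  have hcT : c ∈ closure {c, g * k₀} := subset_closure (by simp)
  obtain ⟨hfin, hsol⟩ := H.tw.h2 c (g * k₀)
  set T : Subgroup G := closure {c, g * k₀} with hTdef
  have hκT : g ^ (2 ^ (a - 1)) ∈ T := pow_mem hgT _
  have hexpF : ∀ x : T, x ^ (m * 2 ^ a) = 1 := tw_exp_sub H.tw.hexp T
  have hexpF' : ∀ x : T, x ^ (2 ^ a * m) = 1 := tw_exp_comm hexpF
  have hbot : krad (2 ^ a) (T ⧸ krad (2 ^ a) T) = ⊥ := tw_krad_quot (zt_cop hm a).symm hexpF'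
  have hXexp : ∀ x : T ⧸ krad (2 ^ a) T, x ^ (m * 2 ^ a) = 1 := tw_exp_quot hexpF _
  have hsolX : Group.IsSolvable (T ⧸ krad (2 ^ a) T) :=
    Group.isSolvable_of_surjective (QuotientGroup.mk'_surjective (krad (2 ^ a) T))
  let f : T →* T ⧸ krad (2 ^ a) T := QuotientGroup.mk' (krad (2 ^ a) T)
  have hf : Function.Surjective f := QuotientGroup.mk'_surjective _
  let cT : T := ⟨c, hcT⟩
  let κT : T := ⟨g ^ (2 ^ (a - 1)), hκT⟩
  have hc2T : cT ^ 2 = 1 := Subtype.ext hc2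
  have hκ2T : κT ^ 2 = 1 := by
    apply Subtype.ext
    show (g ^ (2 ^ (a - 1))) ^ 2 = 1
    rw [← pow_mul, ← hsucc]
    exact hg
  have hκc : κT * cT = cT * κT := by
    apply Subtype.ext
    show g ^ (2 ^ (a - 1)) * c = c * g ^ (2 ^ (a - 1))
    have h1 : Commute g c := hgc
    exact (h1.pow_left _).eq
  have hfc : f cT ≠ 1 := by
    intro h
    apply hno
    have h1 : cT ∈ krad (2 ^ a) T := (QuotientGroup.eq_one_iff cT).1 h
    have h2 := (tw_mem_krad_iff (zt_cop hm a).symm hexpF').1 h1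
    exact (InO.top_iff cT).1 h2
  have hfc2 : (f cT) ^ 2 = 1 := by rw [← map_pow, hc2T, map_one]
  have hfκ2 : (f κT) ^ 2 = 1 := by rw [← map_pow, hκ2T, map_one]
  have hfκc : f κT * f cT = f cT * f κT := by rw [← map_mul, hκc, map_mul]
  have hne := zt_krad_ne hm hsolX hXexp hbot hfc2 hfc
  obtain ⟨e, heA, he1, h2, h3⟩ := zt_f3 hm (krad m (T ⧸ krad (2 ^ a) T))
    (tw_krad_pow (zt_cop hm a) hXexp) (x := f κT) (z := f cT)
    (fun g hg => (krad_normal m _).conj_mem g hg _) (fun g hg => (krad_normal m _).conj_mem g hg _)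
    (fun g _ => by rw [hfκ2, one_mul, mul_one]) hfc2 hfκc hne
  have hem : e ^ m = 1 := tw_krad_pow (zt_cop hm a) hXexp e heA
  rcases h3 with h3 | h3
  · have hx2 : (cT * κT) ^ 2 = 1 := by
      have h4 : Commute cT κT := hκc.symm
      rw [h4.mul_pow, hc2T, hκ2T, one_mul]
    have h5 : f (cT * κT) * e * (f (cT * κT))⁻¹ = e⁻¹ := by
      rw [map_mul]
      calc f cT * f κT * e * (f cT * f κT)⁻¹ = f cT * (f κT * e * (f κT)⁻¹) * (f cT)⁻¹ := by group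
        _ = e⁻¹ := by rw [h3, h2]
    obtain ⟨k, hk1, hk2, hk3⟩ := ys_oddpart hm hexpF f hf hx2 hem h5
    refine ⟨k, ?_, ?_, ?_⟩
    · have := congrArg Subtype.val hk1
      simpa using this
    · exact congrArg Subtype.val hk2
    · intro hin
      exact he1 (ys_C4k hm f (z := cT) (k := k) hin hem hk3 h2)
  · exfalso
    exact he1 (ys_C4g hm H.tw.hexp f hf (x := κT) (z := cT) hperp hκ2T hem h3 h2)

/-- **The group `T`.** (`b = p_I * g`.)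

Proof. Let `T = closure {b * τ, p * k}`. `tw_coprime_comm` (`b` a 2-element, `τ ^ m = 1`, coprimality
`zt_cop`): `b, τ ∈ zpowers (b * τ) ≤ T`. `s = b ^ (2 ^ (a - 1)) ∈ T` is an involution or 1 (`hb`) and commutes
with `p` (`hps`): `(p * k)⁻¹ * s * (p * k) = k⁻¹ * s * k = s * k ^ 2` (`s⁻¹ * k⁻¹ * s = k` from `hks`, `s ^ 2 = 1`), so
`k ^ 2 ∈ T`, `k ∈ T` (`k ^ m = 1`, `m` odd), `p ∈ T`. `ynorm K τ p ∈ T` (`ynorm_mem` for `T`), and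
`g = (ynorm K τ p)⁻¹ * b ∈ T`. -/
theorem ys_41T (hm : Odd m) (ha : 1 ≤ a) {b g τ p k : G} {K : ℕ} (hbg : b = ynorm K τ p * g)
    (hb : b ^ (2 ^ a) = 1) (hτ : τ ^ m = 1) (hbτ : b * τ = τ * b)
    (hps : p * b ^ (2 ^ (a - 1)) = b ^ (2 ^ (a - 1)) * p) (hk : k ^ m = 1)
    (hks : b ^ (2 ^ (a - 1)) * k * (b ^ (2 ^ (a - 1)))⁻¹ = k⁻¹) :
    g ∈ closure {b * τ, p * k} ∧ τ ∈ closure {b * τ, p * k} ∧ p ∈ closure {b * τ, p * k} ∧
      k ∈ closure {b * τ, p * k} := by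
  have h1 : b * τ ∈ closure {b * τ, p * k} := subset_closure (by simp)
  have h2 : p * k ∈ closure {b * τ, p * k} := subset_closure (by simp)
  set T : Subgroup G := closure {b * τ, p * k} with hT
  have hsucc : 2 ^ a = 2 ^ (a - 1) * 2 := by
    obtain ⟨b, rfl⟩ : ∃ b, a = b + 1 := ⟨a - 1, by omega⟩
    rw [Nat.add_sub_cancel, pow_succ]
  obtain ⟨h3, h4⟩ := tw_coprime_comm (zt_cop hm a).symm hb hτ hbτ
  have hbT : b ∈ T := (zpowers_le.2 h1) h3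
  have hτT : τ ∈ T := (zpowers_le.2 h1) h4
  set s : G := b ^ (2 ^ (a - 1)) with hs
  have hsT : s ∈ T := pow_mem hbT _
  have hks' : s * k = k⁻¹ * s := by
    calc s * k = s * k * s⁻¹ * s := by group
      _ = k⁻¹ * s := by rw [hks]
  have hk2 : k ^ 2 ∈ T := by
    have h5 : s⁻¹ * ((p * k)⁻¹ * s * (p * k)) ∈ T :=
      T.mul_mem (T.inv_mem hsT) (T.mul_mem (T.mul_mem (T.inv_mem h2) hsT) h2)
    have h6 : s⁻¹ * ((p * k)⁻¹ * s * (p * k)) = k ^ 2 := by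
      calc s⁻¹ * ((p * k)⁻¹ * s * (p * k)) = s⁻¹ * (k⁻¹ * (p⁻¹ * (s * p)) * k) := by group
        _ = s⁻¹ * (k⁻¹ * (p⁻¹ * (p * s)) * k) := by rw [hps]
        _ = s⁻¹ * ((k⁻¹ * s) * k) := by group
        _ = s⁻¹ * ((s * k) * k) := by rw [hks']
        _ = k ^ 2 := by rw [pow_two]; group
    rwa [h6] at h5
  have hkT : k ∈ T := tw_mem_of_pow (Nat.coprime_two_right.2 hm) hk hk2
  have hpT : p ∈ T := by
    have := T.mul_mem h2 (T.inv_mem hkT)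
    rwa [mul_inv_cancel_right] at this
  have hyT : ynorm K τ p ∈ T :=
    T.mul_mem (pow_mem (T.mul_mem hpT hτT) _) (T.inv_mem (pow_mem hτT _))
  have hgT : g ∈ T := by
    have h7 : g = (ynorm K τ p)⁻¹ * b := by rw [hbg]; group
    rw [h7]
    exact T.mul_mem (T.inv_mem hyT) hbT
  exact ⟨hgT, hτT, hpT, hkT⟩

end Pool.Agent.Lib.MP_544bd1_al
end

section

/-!
Theorem Z3, Case A, `P` nonabelian: the elements `p₃, w`.
-/

namespace Pool.Agent.Lib.MP_544bd1_al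

open Subgroup

/-- **The elements `p₃, w`.**

Proof. `zt_module` for `D.core` (gives `V, τ, φ` with `ZMd Q R τ φ`). `ρ ^ m = 1` (`ρ ^ (r ^ k) = 1`,
`hexp`, `r` odd). `zt_norm4`: `v = φ p₃` with `N = v + τ x v + τ (x ^ 2) v + τ (x ^ 3) v ≠ 0`;
`(p₃ * x) ^ 4 = p₃ * (x * p₃ * x⁻¹) * (x ^ 2 * p₃ * (x ^ 2)⁻¹) * (x ^ 3 * p₃ * (x ^ 3)⁻¹) ∈ Q`
(`x ^ 4 = 1`), mapped to `N` by `φ`. `((p₃ * x) ^ 4) ^ 8 = 1`, so with `hexp` (`m` odd)
`(p₃ * x) ^ 8 = 1`. `gen`: as in `zt_A1cfg` (`P'` is normalized by `R` by `D.gen` for `normalizer P'`; if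
`P' ≠ Q`, `R` centralizes `P' ∋ (p₃ * x) ^ 4` and `φ` vanishes on it by `zt_irr` (1)).
`closure {ρ, p₃ * x}`: `zt_cover` with `k := p₃`, `k' := 1`, `h := (p₃ * x) ^ 4`; then
`x = p₃⁻¹ * (p₃ * x)`.
`w`: let `y = x ^ 2`, `b = p₃ * (y * p₃ * y⁻¹) ∈ Q`, `w = ρ * b`, `H' = closure {x, w⁻¹ * x * w}`.
`w⁻¹ * y * w ∈ H'`, so `a = (w⁻¹ * y * w) * y⁻¹ ∈ H'`; since `y * ρ * y⁻¹ = ρ⁻¹`,
`a = b⁻¹ * (ρ⁻¹ * ρ⁻¹) * (y * b * y⁻¹)`, and `y * b * y⁻¹ = (y * p₃ * y⁻¹) * p₃ = c * b` with `c` the commutator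
of `y * p₃ * y⁻¹` and `p₃`; `φ c = 0`, so `c` commutes with `Q` and `ρ` (`M.ker`) and `c ^ 2 = 1`
(`zt_irr` (2)). So `a = (b⁻¹ * ρ⁻¹ * ρ⁻¹ * b) * c`, a product of commuting elements of odd order and of
order `≤ 2`: `b⁻¹ * ρ⁻¹ * ρ⁻¹ * b ∈ H'` (`tw_coprime_comm`), hence `ρ' = b⁻¹ * ρ * b ∈ H'` (`ρ` is a power
of `ρ⁻¹ * ρ⁻¹`). `w⁻¹ * x * w = ρ'⁻¹ * (b⁻¹ * x * b) * ρ'`, so `b⁻¹ * x * b ∈ H'` and
`h = x * (b⁻¹ * x⁻¹ * b) = (x * b⁻¹ * x⁻¹) * b ∈ H' ⊓ Q`, `φ h = τ x (φ b) + φ b = N ≠ 0`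
(`φ b = v + τ y v`, `φ b⁻¹ = φ b`). `zt_cover` with `k := 1`, `k' := b⁻¹ * (ρ * b * ρ⁻¹)`
(`k' * ρ = ρ'`): `Q ≤ H'`. So `ρ = b * ρ' * b⁻¹ ∈ H'`, `w ∈ H'`. -/
theorem zt_A2w {m r : ℕ} (hm : Odd m) {F : Type} [Group F] [Finite F]
    (hexp : ∀ x : F, x ^ (m * 2 ^ 3) = 1) (hr : r.Prime) (hr2 : r ≠ 2) {Q R : Subgroup F}
    [Q.Normal] {x ρ : F} (D : ZHon r Q R x ρ) :
    ρ ^ m = 1 ∧ ∃ p₃ w : F, p₃ ∈ Q ∧ (p₃ * x) ^ 4 ∈ Q ∧ (p₃ * x) ^ 8 = 1 ∧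
      (∀ P' : Subgroup F, P' ≤ Q → (p₃ * x) ^ 4 ∈ P' → (∀ q ∈ P', x * q * x⁻¹ ∈ P') →
        (∀ q ∈ P', ρ * q * ρ⁻¹ ∈ P') → P' = Q) ∧
      w ∈ closure {x, w⁻¹ * x * w} ∧ Q ≤ closure {x, w⁻¹ * x * w} ∧
      ρ ∈ closure {x, w⁻¹ * x * w} ∧ Q ≤ closure {ρ, p₃ * x} ∧ x ∈ closure {ρ, p₃ * x} := by
  have hρm : ρ ^ m = 1 := by
    obtain ⟨k, hk⟩ := D.core.hR ⟨ρ, D.hρ⟩
    have h1 : ρ ^ (r ^ k) = 1 := by simpa using congrArg Subtype.val hk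
    have hodd : Odd (r ^ k) := (hr.odd_of_ne_two hr2).pow
    have h2 : orderOf (ρ ^ m) ∣ r ^ k := by
      apply orderOf_dvd_of_pow_eq_one
      rw [← pow_mul, mul_comm, pow_mul, h1, one_pow]
    have h3 : orderOf (ρ ^ m) ∣ 2 ^ 3 := by
      apply orderOf_dvd_of_pow_eq_one
      rw [← pow_mul]
      exact hexp ρ
    have h4 : Nat.Coprime (r ^ k) (2 ^ 3) :=
      Nat.Coprime.pow_right 3 (Nat.coprime_two_right.2 hodd)
    have h5 : orderOf (ρ ^ m) = 1 := Nat.dvd_one.1 (h4 ▸ Nat.dvd_gcd h2 h3)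
    exact orderOf_eq_one_iff.1 h5
  obtain ⟨V, iA, iM, iF, τ, φ, hs, ha, hτ, hf, hkr⟩ := zt_module hr hr2 Q R D.core
  have M : ZMd Q R τ φ := ⟨hs, ha, hτ, hf, hkr⟩
  obtain ⟨hi1, hi2, -, -⟩ := zt_irr hr hr2 D.core M
  obtain ⟨v, hv⟩ := zt_norm4 hr hr2 D M
  obtain ⟨p, rfl⟩ := hs v
  have two : ∀ v : V, v + v = 0 := by
    intro v
    have h1 : (2 : ZMod 2) • v = v + v := two_smul _ v
    rw [← h1, show (2 : ZMod 2) = 0 from rfl, zero_smul]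
  have hφ1 : φ 1 = 0 := by
    have h1 := ha 1 1
    rw [mul_one] at h1
    exact left_eq_add.1 h1
  have hφi : ∀ q : Q, φ q⁻¹ = φ q := by
    intro q
    have h1 := ha q q⁻¹
    rw [mul_inv_cancel, hφ1] at h1
    have h2 := two (φ q)
    exact add_left_cancel (h1.symm.trans h2.symm)
  have hcj : ∀ (g : F) (q : Q), g * (q : F) * g⁻¹ ∈ Q := fun g q =>
    (inferInstance : Q.Normal).conj_mem _ q.2 g
  let z4 : Q := p * ⟨x * p * x⁻¹, hcj x p⟩ * ⟨x ^ 2 * p * (x ^ 2)⁻¹, hcj (x ^ 2) p⟩ *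
    ⟨x ^ 3 * p * (x ^ 3)⁻¹, hcj (x ^ 3) p⟩
  have hz4 : (z4 : F) = ((p : F) * x) ^ 4 := by
    show (p : F) * (x * p * x⁻¹) * (x ^ 2 * p * (x ^ 2)⁻¹) * (x ^ 3 * p * (x ^ 3)⁻¹) =
      ((p : F) * x) ^ 4
    calc (p : F) * (x * p * x⁻¹) * (x ^ 2 * p * (x ^ 2)⁻¹) * (x ^ 3 * p * (x ^ 3)⁻¹)
        = ((p : F) * x) ^ 4 * (x ^ 4)⁻¹ := by
          simp only [pow_succ, pow_zero, one_mul]
          group
      _ = ((p : F) * x) ^ 4 := by rw [D.hx, inv_one, mul_one]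
  have hφz4 : φ z4 ≠ 0 := by
    have h1 : φ z4 = φ p + τ x (φ p) + τ (x ^ 2) (φ p) + τ (x ^ 3) (φ p) := by
      show φ (p * ⟨x * p * x⁻¹, hcj x p⟩ * ⟨x ^ 2 * p * (x ^ 2)⁻¹, hcj (x ^ 2) p⟩ *
        ⟨x ^ 3 * p * (x ^ 3)⁻¹, hcj (x ^ 3) p⟩) = _
      rw [ha, ha, ha, hτ x p, hτ (x ^ 2) p, hτ (x ^ 3) p]
    rw [h1]
    exact hv
  refine ⟨hρm, p, ρ * ((p : F) * (x ^ 2 * p * (x ^ 2)⁻¹)), p.2, ?_, ?_, ?_, ?_⟩
  · rw [← hz4]
    exact z4.2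
  · have h1 : orderOf ((p : F) * x) ∣ m * 8 := orderOf_dvd_of_pow_eq_one (hexp _)
    have h2 : orderOf ((p : F) * x) ∣ 4 * 8 := by
      apply orderOf_dvd_of_pow_eq_one
      rw [pow_mul, ← hz4]
      exact D.core.hQ _ z4.2
    have h3 := Nat.dvd_gcd h1 h2
    rw [Nat.gcd_mul_right, show Nat.gcd m 4 = 1 from
      Nat.Coprime.pow_right 2 (Nat.coprime_two_right.2 hm), one_mul] at h3
    exact orderOf_dvd_iff_pow_eq_one.1 h3
  · intro P' hP' h4 hxP hρP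
    by_contra hne
    have hn : ∀ g : F, (∀ q ∈ P', g * q * g⁻¹ ∈ P') → g ∈ normalizer (P' : Set F) := by
      intro g hg
      exact mem_normalizer_fintype hg
    have hRn : R ≤ normalizer (P' : Set F) := by
      apply D.gen
      · exact hn ρ hρP
      · exact mul_mem (mul_mem (hn x hxP) (hn ρ hρP)) (inv_mem (hn x hxP))
    have hcR := D.core.min P' hP' hne
      (fun g hg q hq => ((mem_normalizer_iff.1 (hRn hg)) q).1 hq) hxP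
    refine hφz4 (hi1 z4 fun g hg => ?_)
    rw [hz4]
    exact hcR g hg _ h4
  · have hA : Q ≤ closure {ρ, (p : F) * x} := by
      refine zt_cover hr hr2 D M (closure {ρ, (p : F) * x}) p.2 Q.one_mem
        (subset_closure (by simp)) ?_ (h := z4) ?_ hφz4
      · rw [one_mul]
        exact subset_closure (by simp)
      · rw [hz4]
        exact pow_mem (subset_closure (by simp)) 4
    have hB : x ∈ closure {ρ, (p : F) * x} := by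
      have h1 : (p : F)⁻¹ * (p * x) ∈ closure {ρ, (p : F) * x} :=
        mul_mem (inv_mem (hA p.2)) (subset_closure (by simp))
      rwa [inv_mul_cancel_left] at h1
    obtain ⟨y, hy⟩ : ∃ y : F, y = x ^ 2 := ⟨_, rfl⟩
    have hyy : y * y = 1 := by
      rw [hy, ← pow_add]
      exact D.hx
    obtain ⟨b, hb⟩ : ∃ b : F, b = (p : F) * (y * p * y⁻¹) := ⟨_, rfl⟩
    have hbQ : b ∈ Q := by
      rw [hb]
      exact mul_mem p.2 (hcj y p)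
    have hφb : φ ⟨b, hbQ⟩ = φ p + τ (x ^ 2) (φ p) := by
      have h1 : (⟨b, hbQ⟩ : Q) = p * ⟨x ^ 2 * p * (x ^ 2)⁻¹, hcj (x ^ 2) p⟩ := by
        apply Subtype.ext
        show b = (p : F) * (x ^ 2 * p * (x ^ 2)⁻¹)
        rw [hb, hy]
      rw [h1, ha, hτ (x ^ 2) p]
    rw [← hy, ← hb]
    obtain ⟨w, hw⟩ : ∃ w : F, w = ρ * b := ⟨_, rfl⟩
    rw [← hw]
    obtain ⟨H, hH⟩ : ∃ H : Subgroup F, H = closure {x, w⁻¹ * x * w} := ⟨_, rfl⟩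
    rw [← hH]
    have hxH : x ∈ H := by rw [hH]; exact subset_closure (by simp)
    have hwH : w⁻¹ * x * w ∈ H := by rw [hH]; exact subset_closure (by simp)
    have hyH : y ∈ H := by rw [hy]; exact pow_mem hxH 2
    obtain ⟨c, hc⟩ : ∃ c : F, c = (y * p * y⁻¹) * p * (y * p * y⁻¹)⁻¹ * (p : F)⁻¹ := ⟨_, rfl⟩
    have hcQ : c ∈ Q := by
      rw [hc]
      exact mul_mem (mul_mem (mul_mem (hcj y p) p.2) (inv_mem (hcj y p))) (inv_mem p.2)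
    have hφc : φ ⟨c, hcQ⟩ = 0 := by
      have h1 : (⟨c, hcQ⟩ : Q) = ⟨y * p * y⁻¹, hcj y p⟩ * p * ⟨y * p * y⁻¹, hcj y p⟩⁻¹ * p⁻¹ :=
        Subtype.ext hc
      rw [h1, ha, ha, ha, hφi, hφi]
      rw [show ∀ s t : V, s + t + s + t = (s + s) + (t + t) by intro s t; abel, two, two, add_zero]
    obtain ⟨hc1, hc2⟩ := hkr ⟨c, hcQ⟩ hφc
    have hcρ : ρ * c = c * ρ := hc1 ρ D.hρ
    have hcb : c * b = b * c := hc2 b hbQ
    have hcc : c ^ 2 = 1 := (hi2 ⟨c, hcQ⟩ hφc).2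
    have hyb : y * b * y⁻¹ = c * b := by
      rw [hb, hc]
      calc y * ((p : F) * (y * p * y⁻¹)) * y⁻¹
          = (y * p * y⁻¹) * ((y * y) * p * (y * y)⁻¹) := by group
        _ = (y * p * y⁻¹) * p := by rw [hyy, one_mul, inv_one, mul_one]
        _ = y * p * y⁻¹ * p * (y * p * y⁻¹)⁻¹ * (p : F)⁻¹ * (p * (y * p * y⁻¹)) := by group
    have hyρ : y * ρ * y⁻¹ = ρ⁻¹ := by
      rw [hy]
      exact D.hρx
    have hcρ' : c * ρ⁻¹ = ρ⁻¹ * c := by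
      calc c * ρ⁻¹ = ρ⁻¹ * (ρ * c) * ρ⁻¹ := by group
        _ = ρ⁻¹ * (c * ρ) * ρ⁻¹ := by rw [hcρ]
        _ = ρ⁻¹ * c := by group
    have hcb' : c * b⁻¹ = b⁻¹ * c := by
      calc c * b⁻¹ = b⁻¹ * (b * c) * b⁻¹ := by group
        _ = b⁻¹ * (c * b) * b⁻¹ := by rw [hcb]
        _ = b⁻¹ * c := by group
    have hwy : w⁻¹ * y * w ∈ H := by
      have h1 : w⁻¹ * y * w = (w⁻¹ * x * w) ^ 2 := by
        rw [hy, pow_two, pow_two]
        group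
      rw [h1]
      exact pow_mem hwH 2
    have haH : (w⁻¹ * y * w) * y⁻¹ ∈ H := mul_mem hwy (inv_mem hyH)
    have haeq : (w⁻¹ * y * w) * y⁻¹ = (b⁻¹ * ρ⁻¹ * ρ⁻¹ * b) * c := by
      calc (w⁻¹ * y * w) * y⁻¹ = b⁻¹ * ρ⁻¹ * (y * ρ * y⁻¹) * (y * b * y⁻¹) := by
            rw [hw]
            group
        _ = b⁻¹ * ρ⁻¹ * ρ⁻¹ * (c * b) := by rw [hyρ, hyb]
        _ = (b⁻¹ * ρ⁻¹ * ρ⁻¹ * b) * c := by rw [hcb]; group
    have hd1 : (b⁻¹ * ρ⁻¹ * ρ⁻¹ * b) ^ m = 1 := by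
      have h1 : b⁻¹ * ρ⁻¹ * ρ⁻¹ * b = b⁻¹ * (ρ⁻¹ ^ 2) * (b⁻¹)⁻¹ := by group
      rw [h1, conj_pow, ← pow_mul, mul_comm 2 m, pow_mul, inv_pow, hρm, inv_one, one_pow,
        mul_one, mul_inv_cancel]
    have hd2 : (b⁻¹ * ρ⁻¹ * ρ⁻¹ * b) * c = c * (b⁻¹ * ρ⁻¹ * ρ⁻¹ * b) := by
      symm
      calc c * (b⁻¹ * ρ⁻¹ * ρ⁻¹ * b) = (c * b⁻¹) * ρ⁻¹ * ρ⁻¹ * b := by group
        _ = b⁻¹ * (c * ρ⁻¹) * ρ⁻¹ * b := by rw [hcb']; group
        _ = b⁻¹ * (ρ⁻¹ * c) * ρ⁻¹ * b := by rw [hcρ']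
        _ = b⁻¹ * ρ⁻¹ * (c * ρ⁻¹) * b := by group
        _ = b⁻¹ * ρ⁻¹ * (ρ⁻¹ * c) * b := by rw [hcρ']
        _ = b⁻¹ * ρ⁻¹ * ρ⁻¹ * (c * b) := by group
        _ = (b⁻¹ * ρ⁻¹ * ρ⁻¹ * b) * c := by rw [hcb]; group
    have hdH : b⁻¹ * ρ⁻¹ * ρ⁻¹ * b ∈ H := by
      have h1 := (tw_coprime_comm (Nat.coprime_two_right.2 hm) hd1 hcc hd2).1
      have h2 : zpowers ((b⁻¹ * ρ⁻¹ * ρ⁻¹ * b) * c) ≤ H := by
        rw [zpowers_le, ← haeq]
        exact haH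
      exact h2 h1
    have hρ' : b⁻¹ * ρ * b ∈ H := by
      obtain ⟨k, hk⟩ := hm
      have h0 : (b⁻¹ * ρ * b) ^ (2 * k + 1) = 1 := by
        have h1 : b⁻¹ * ρ * b = b⁻¹ * ρ * (b⁻¹)⁻¹ := by group
        rw [h1, conj_pow, ← hk, hρm, mul_one, mul_inv_cancel]
      have h1 : b⁻¹ * ρ⁻¹ * ρ⁻¹ * b = ((b⁻¹ * ρ * b) ^ 2)⁻¹ := by
        rw [pow_two]
        group
      have h2 : b⁻¹ * ρ * b = (b⁻¹ * ρ⁻¹ * ρ⁻¹ * b) ^ k := by
        rw [h1, inv_pow, ← pow_mul]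
        rw [pow_succ'] at h0
        exact eq_inv_of_mul_eq_one_left h0
      rw [h2]
      exact pow_mem hdH k
    have hbx : b⁻¹ * x * b ∈ H := by
      have h1 : b⁻¹ * x * b = (b⁻¹ * ρ * b) * (w⁻¹ * x * w) * (b⁻¹ * ρ * b)⁻¹ := by
        rw [hw]
        group
      rw [h1]
      exact mul_mem (mul_mem hρ' hwH) (inv_mem hρ')
    have hQH : Q ≤ H := by
      refine zt_cover hr hr2 D M H Q.one_mem (k' := b⁻¹ * (ρ * b * ρ⁻¹)) ?_ ?_ ?_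
        (h := ⟨x * ((⟨b, hbQ⟩⁻¹ : Q) : F) * x⁻¹, hcj x _⟩ * ⟨b, hbQ⟩) ?_ ?_
      · exact mul_mem (inv_mem hbQ) (hcj ρ ⟨b, hbQ⟩)
      · rw [one_mul]
        exact hxH
      · have h1 : b⁻¹ * (ρ * b * ρ⁻¹) * ρ = b⁻¹ * ρ * b := by group
        rw [h1]
        exact hρ'
      · show x * b⁻¹ * x⁻¹ * b ∈ H
        have h1 : x * b⁻¹ * x⁻¹ * b = x * (b⁻¹ * x * b)⁻¹ := by group
        rw [h1]
        exact mul_mem hxH (inv_mem hbx)
      · rw [ha, hτ x, hφi, hφb]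
        have h1 : τ x (φ p + τ (x ^ 2) (φ p)) + (φ p + τ (x ^ 2) (φ p)) =
            φ p + τ x (φ p) + τ (x ^ 2) (φ p) + τ (x ^ 3) (φ p) := by
          have h2 : τ (x ^ 3) (φ p) = τ x (τ (x ^ 2) (φ p)) := by
            rw [show (3 : ℕ) = 2 + 1 from rfl, pow_succ' x 2, map_mul]
            rfl
          rw [map_add, h2]
          abel
        rw [h1]
        exact hv
    have hρH : ρ ∈ H := by
      have h1 : ρ = b * (b⁻¹ * ρ * b) * b⁻¹ := by group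
      rw [h1]
      exact mul_mem (mul_mem (hQH hbQ) hρ') (inv_mem (hQH hbQ))
    refine ⟨?_, hQH, hρH, hA, hB⟩
    rw [hw]
    exact mul_mem hρH (hQH hbQ)

end Pool.Agent.Lib.MP_544bd1_al
end

section

/-!
Theorem Z3, Case B: (Fin).
-/

namespace Pool.Agent.Lib.MP_544bd1_al

open Subgroup

/-- **(Fin)**

Proof. Let `z = u ^ 2`, `x = g ^ 4`. By `zt_op_iff` suppose `zp m 3 F z ≠ 1`. Work in `H = ZH m 3 F`
(`zt_sol`, `zt_exp`, `zt_bot`, `zt_rep`); write `g, u, z, x` for the images. `S = closure {g, u}`,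
`z ∈ S` (`z ^ 2 = 1`). `zt_minH`: `D : ZMinA m r S A z`. `zt_f3` for `A`, `x` (`x ^ 2 = 1`), `z` (they
commute): `e ∈ A`, `e ≠ 1`, `z * e * z⁻¹ = e⁻¹`, `x * e * x⁻¹ = e` or `e⁻¹`. In the second case replace
`e` by `u * e * u⁻¹`: `x * (u * e * u⁻¹) * x⁻¹ = u * ((x * z) * e * (x * z)⁻¹) * u⁻¹ = u * e * u⁻¹` (`hx`:
`u⁻¹ * x * u = x * z`). So let `x * e * x⁻¹ = e` and `e₁ = u * e * u⁻¹`: in the same way
`x * e₁ * x⁻¹ = e₁⁻¹`; `z * e₁ * z⁻¹ = e₁⁻¹`. `zt_reg0` (`a := 3`, `u := g`) for `⁅A, A⁆` (commutative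
by `D.cl`, normalized by `g`): `x` centralizes `c = e * e₁ * e⁻¹ * e₁⁻¹`; but (class 2)
`x * c * x⁻¹ = e * e₁⁻¹ * e⁻¹ * e₁ = c⁻¹`, so `c ^ 2 = 1`, `c = 1`. `E = closure {e, e₁}` is commutative,
`≤ A`, normalized by `u` (`u * e₁ * u⁻¹ = z * e * z⁻¹ = e⁻¹`), inverted by `z = u ^ 2`, nontrivial:
`ZL2 m 3 F` with `x := u`, `E` (`u ^ 4 = 1` in `F`). Contradiction to `hL`. -/
theorem zt_fin {m : ℕ} (hm : Odd m) {F : Type} [Group F] [Finite F]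
    (hsol : Group.IsSolvable F) (hexp : ∀ x : F, x ^ (m * 2 ^ 3) = 1) (hL : ¬ ZL2 m 3 F)
    {g u : F} (hg : g ^ 8 = 1) (hu : u ^ 4 = 1) (hx : u⁻¹ * g ^ 4 * u = g ^ 4 * u ^ 2)
    (hz : g * u ^ 2 = u ^ 2 * g) : InOP m (2 ^ 3) (⊤ : Subgroup F) (u ^ 2) := by
  rw [zt_op_iff hm hexp]
  by_contra hne
  have hsolH : Group.IsSolvable (ZH m 3 F) := zt_sol hsol
  have hexpH := zt_exp hexp
  have hbot : krad (2 ^ 3) (ZH m 3 F) = ⊥ := zt_bot hm hexp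
  have hrep : ZRep m 3 (ZH m 3 F) := zt_rep hm hsol hexp
  obtain ⟨G, hG⟩ : ∃ G, G = zp m 3 F g := ⟨_, rfl⟩
  obtain ⟨U, hU⟩ : ∃ U, U = zp m 3 F u := ⟨_, rfl⟩
  obtain ⟨z, hzU⟩ : ∃ z, z = U ^ 2 := ⟨_, rfl⟩
  obtain ⟨x, hxG⟩ : ∃ x, x = G ^ 4 := ⟨_, rfl⟩
  have hG8 : G ^ 8 = 1 := by rw [hG, ← map_pow, hg, map_one]
  have hU4 : U ^ 4 = 1 := by rw [hU, ← map_pow, hu, map_one]
  have hz1 : z ≠ 1 := by
    rw [hzU, hU, ← map_pow]
    exact hne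
  have hz2 : z ^ 2 = 1 := by rw [hzU, ← pow_mul]; exact hU4
  have hzz : z * z = 1 := by rw [← pow_two, hz2]
  have hx2 : x ^ 2 = 1 := by rw [hxG, ← pow_mul]; exact hG8
  have hrel : U⁻¹ * x * U = x * z := by
    rw [hxG, hzU, hG, hU, ← map_inv, ← map_pow, ← map_pow, ← map_mul, ← map_mul, ← map_mul, hx]
  have hGz : G * z = z * G := by
    rw [hzU, hG, hU, ← map_pow, ← map_mul, ← map_mul, hz]
  have hxz : x * z = z * x := by
    rw [hxG]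
    exact ((show Commute G z from hGz).pow_left 4).eq
  have hUz : U * z = z * U := by
    rw [hzU]
    exact (Commute.self_pow U 2).eq
  obtain ⟨S, hS⟩ : ∃ S, S = closure ({G, U} : Set (ZH m 3 F)) := ⟨_, rfl⟩
  have hGS : G ∈ S := by rw [hS]; exact subset_closure (by simp)
  have hUS : U ∈ S := by rw [hS]; exact subset_closure (by simp)
  have hzS : z ∈ S := by rw [hzU]; exact pow_mem hUS 2
  have hxS : x ∈ S := by rw [hxG]; exact pow_mem hGS 4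
  obtain ⟨r, A, D⟩ := zt_minH hm hsolH hexpH hbot S hzS hz2 hz1
  have hxU : x * U = U * (x * z) := by rw [← hrel]; group
  -- conjugation of `U * e * U⁻¹`
  have kz : ∀ e, z * e * z⁻¹ = e⁻¹ → z * (U * e * U⁻¹) * z⁻¹ = (U * e * U⁻¹)⁻¹ := by
    intro e he
    have h1 : U⁻¹ * z⁻¹ = z⁻¹ * U⁻¹ := by rw [← mul_inv_rev, ← mul_inv_rev, hUz]
    calc z * (U * e * U⁻¹) * z⁻¹ = (z * U) * e * (U⁻¹ * z⁻¹) := by group
      _ = (U * z) * e * (z⁻¹ * U⁻¹) := by rw [hUz, h1]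
      _ = U * (z * e * z⁻¹) * U⁻¹ := by group
      _ = (U * e * U⁻¹)⁻¹ := by rw [he]; group
  have kx : ∀ e, z * e * z⁻¹ = e⁻¹ → x * (U * e * U⁻¹) * x⁻¹ = U * (x * e * x⁻¹)⁻¹ * U⁻¹ := by
    intro e he
    have h1 : U⁻¹ * x⁻¹ = (x * z)⁻¹ * U⁻¹ := by rw [← mul_inv_rev, ← mul_inv_rev, hxU]
    calc x * (U * e * U⁻¹) * x⁻¹ = (x * U) * e * (U⁻¹ * x⁻¹) := by group
      _ = (U * (x * z)) * e * ((x * z)⁻¹ * U⁻¹) := by rw [hxU, h1]
      _ = U * (x * (z * e * z⁻¹) * x⁻¹) * U⁻¹ := by group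
      _ = U * (x * e * x⁻¹)⁻¹ * U⁻¹ := by rw [he]; group
  have key : ∃ e ∈ A, e ≠ 1 ∧ z * e * z⁻¹ = e⁻¹ ∧ x * e * x⁻¹ = e := by
    obtain ⟨e, heA, he1, hze, hxe⟩ := zt_f3 hm A D.odd (D.inv x hxS) (D.inv z hzS)
      (fun g _ => by rw [hx2, one_mul, mul_one]) hz2 hxz D.ne
    rcases hxe with hxe | hxe
    · exact ⟨e, heA, he1, hze, hxe⟩
    · refine ⟨U * e * U⁻¹, D.inv U hUS e heA, ?_, kz e hze, ?_⟩
      · intro h
        apply he1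
        rw [mul_inv_eq_one] at h
        exact mul_eq_left.1 h
      · rw [kx e hze, hxe, inv_inv]
  obtain ⟨e, heA, he1, hze, hxe⟩ := key
  obtain ⟨e₁, he₁⟩ : ∃ e₁, e₁ = U * e * U⁻¹ := ⟨_, rfl⟩
  have he₁A : e₁ ∈ A := by rw [he₁]; exact D.inv U hUS e heA
  have hze₁ : z * e₁ * z⁻¹ = e₁⁻¹ := by rw [he₁]; exact kz e hze
  have hxe₁ : x * e₁ * x⁻¹ = e₁⁻¹ := by
    rw [he₁, kx e hze, hxe]
    group
  obtain ⟨c, hc⟩ : ∃ c, c = e * e₁ * e⁻¹ * e₁⁻¹ := ⟨_, rfl⟩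
  have hcA : c ∈ A := by
    rw [hc]
    exact A.mul_mem (A.mul_mem (A.mul_mem heA he₁A) (A.inv_mem heA)) (A.inv_mem he₁A)
  have hcc : ∀ w ∈ A, c * w = w * c := by
    intro w hw
    rw [hc]
    exact D.cl e heA e₁ he₁A w hw
  have hcx : x * c = c * x := by
    have h1 := zt_reg0 (a := 3) (by norm_num) hm hrep (A ⊓ centralizer (A : Set (ZH m 3 F)))
      (fun y hy => D.odd y hy.1)
      (fun y hy w hw => (mem_centralizer_iff.1 hw.2 y hy.1)) (u := G) hG8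
      (fun y hy => by
        refine ⟨D.inv G hGS y hy.1, mem_centralizer_iff.2 fun w hw => ?_⟩
        have h2 : G⁻¹ * w * G ∈ A := by
          have h3 := D.inv G⁻¹ (S.inv_mem hGS) w hw
          rwa [inv_inv] at h3
        have h4 := mem_centralizer_iff.1 hy.2 _ h2
        calc w * (G * y * G⁻¹) = G * ((G⁻¹ * w * G) * y) * G⁻¹ := by group
          _ = G * (y * (G⁻¹ * w * G)) * G⁻¹ := by rw [h4]
          _ = G * y * G⁻¹ * w := by group)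
      c ⟨hcA, mem_centralizer_iff.2 fun w hw => (hcc w hw).symm⟩
    rw [hxG]
    exact h1
  have hc1 : c = 1 := by
    have h1 : x * c * x⁻¹ = c⁻¹ := by
      calc x * c * x⁻¹ = (x * e * x⁻¹) * (x * e₁ * x⁻¹) * (x * e * x⁻¹)⁻¹ * (x * e₁ * x⁻¹)⁻¹ := by
            rw [hc]; group
        _ = e₁⁻¹ * (e * e₁ * e⁻¹ * e₁⁻¹)⁻¹ * e₁ := by rw [hxe, hxe₁]; group
        _ = e₁⁻¹ * (c⁻¹ * e₁) := by rw [← hc]; group
        _ = e₁⁻¹ * (e₁ * c⁻¹) := by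
            rw [(show Commute c e₁ from hcc e₁ he₁A).inv_left.eq]
        _ = c⁻¹ := by group
    have h2 : x * c * x⁻¹ = c := by rw [hcx]; group
    refine fr_one_two hm (D.odd c hcA) ?_
    rw [pow_two]
    nth_rewrite 1 [← h2]
    rw [h1, inv_mul_cancel]
  have hee : e * e₁ = e₁ * e := by
    calc e * e₁ = (e * e₁ * e⁻¹ * e₁⁻¹) * (e₁ * e) := by group
      _ = e₁ * e := by rw [← hc, hc1, one_mul]
  obtain ⟨E, hE⟩ : ∃ E, E = closure ({e, e₁} : Set (ZH m 3 F)) := ⟨_, rfl⟩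
  have heE : e ∈ E := by rw [hE]; exact subset_closure (by simp)
  have he₁E : e₁ ∈ E := by rw [hE]; exact subset_closure (by simp)
  have hEA : E ≤ A := by
    rw [hE, closure_le]
    rintro y (rfl | rfl)
    · exact heA
    · exact he₁A
  have hE1 : E ≤ centralizer ({e, e₁} : Set (ZH m 3 F)) := by
    rw [hE, closure_le]
    rintro y (rfl | rfl)
    · refine mem_centralizer_iff.2 ?_
      rintro w (rfl | rfl)
      · rfl
      · exact hee.symm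
    · refine mem_centralizer_iff.2 ?_
      rintro w (rfl | rfl)
      · exact hee
      · rfl
  have hE2 : E ≤ centralizer (E : Set (ZH m 3 F)) := by
    nth_rewrite 1 [hE]
    rw [closure_le]
    intro y hy
    refine mem_centralizer_iff.2 fun w hw => ?_
    exact (mem_centralizer_iff.1 (hE1 hw) y hy).symm
  have hEc : ∀ y ∈ E, ∀ w ∈ E, y * w = w * y := fun y hy w hw =>
    mem_centralizer_iff.1 (hE2 hw) y hy
  have hUE : ∀ y ∈ E, U * y * U⁻¹ ∈ E := by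
    have h1 : E ≤ E.comap (MulAut.conj U).toMonoidHom := by
      nth_rewrite 1 [hE]
      rw [closure_le]
      rintro y (rfl | rfl)
      · show U * y * U⁻¹ ∈ E
        rw [← he₁]
        exact he₁E
      · show U * y * U⁻¹ ∈ E
        have h2 : U * (U * e * U⁻¹) * U⁻¹ = z * e * z⁻¹ := by
          rw [hzU, pow_two]
          group
        rw [he₁, h2, hze]
        exact E.inv_mem heE
    exact fun y hy => h1 hy
  have hzE : ∀ y ∈ E, z * y * z⁻¹ = y⁻¹ := by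
    let T : Subgroup (ZH m 3 F) :=
      { carrier := {y | y ∈ E ∧ z * y * z⁻¹ = y⁻¹}
        mul_mem' := by
          rintro a b ⟨ha, ha'⟩ ⟨hb, hb'⟩
          refine ⟨E.mul_mem ha hb, ?_⟩
          calc z * (a * b) * z⁻¹ = (z * a * z⁻¹) * (z * b * z⁻¹) := by group
            _ = a⁻¹ * b⁻¹ := by rw [ha', hb']
            _ = (b * a)⁻¹ := by rw [mul_inv_rev]
            _ = (a * b)⁻¹ := by rw [hEc a ha b hb]
        one_mem' := ⟨E.one_mem, by group⟩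
        inv_mem' := by
          rintro a ⟨ha, ha'⟩
          refine ⟨E.inv_mem ha, ?_⟩
          calc z * a⁻¹ * z⁻¹ = (z * a * z⁻¹)⁻¹ := by group
            _ = a⁻¹⁻¹ := by rw [ha'] }
    have h1 : E ≤ T := by
      nth_rewrite 1 [hE]
      rw [closure_le]
      rintro y (rfl | rfl)
      · exact ⟨heE, hze⟩
      · exact ⟨he₁E, hze₁⟩
    exact fun y hy => (h1 hy).2
  refine hL ⟨u, E, hu, fun y hy => D.odd y (hEA hy), hEc, ?_, ?_, e, heE, he1⟩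
  · rw [← hU]
    exact hUE
  · rw [← hU, ← hzU]
    exact hzE

end Pool.Agent.Lib.MP_544bd1_al
end

section

/-!
Theorem Z3, Case B: minimal configurations.
-/

namespace Pool.Agent.Lib.MP_544bd1_al

open Subgroup

private theorem ztBmin_sq {F : Type} [Group F] {r : ℕ} (hr : r.Prime) (hr2 : r ≠ 2)
    {R : Subgroup F} (hR : IsPGroup r R) {s : F} (hs : s ∈ R) {q : F}
    (h : s⁻¹ * s⁻¹ * q = q * (s⁻¹ * s⁻¹)) : s * q = q * s := by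
  obtain ⟨k, hk⟩ := hR ⟨s, hs⟩
  have hk' : s ^ (r ^ k) = 1 := congrArg Subtype.val hk
  obtain ⟨j, hj⟩ : Odd (r ^ k) := (hr.odd_of_ne_two hr2).pow
  have h1 : s = (s⁻¹ * s⁻¹) ^ j := by
    have h2 : (s⁻¹ * s⁻¹) ^ j = (s ^ (2 * j))⁻¹ := by
      rw [← mul_inv_rev, inv_pow, ← pow_two, ← pow_mul]
    rw [h2]
    rw [hj, pow_succ] at hk'
    exact eq_inv_of_mul_eq_one_right hk'
  have h3 : Commute (s⁻¹ * s⁻¹) q := h
  have h4 := (h3.pow_left j).eq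
  rwa [← h1] at h4

private theorem ztBmin_conj {F : Type} [Group F] {P R : Subgroup F}
    (hRP : ∀ g ∈ R, ∀ q ∈ P, g * q * g⁻¹ ∈ P) {s c : F} (hs : s ∈ R)
    (h : ∀ q ∈ P, c * q = q * c) : ∀ q ∈ P, s * c * s⁻¹ * q = q * (s * c * s⁻¹) := by
  intro q hq
  have h1 : s⁻¹ * q * s ∈ P := by
    have := hRP s⁻¹ (R.inv_mem hs) q hq
    rwa [inv_inv] at this
  calc s * c * s⁻¹ * q = s * (c * (s⁻¹ * q * s)) * s⁻¹ := by group
    _ = s * ((s⁻¹ * q * s) * c) * s⁻¹ := by rw [h _ h1]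
    _ = q * (s * c * s⁻¹) := by group

private theorem ztBmin_norm {F : Type} [Group F] [Finite F] {g : F} {K : Subgroup F}
    (h : ∀ x ∈ K, g * x * g⁻¹ ∈ K) : g ∈ normalizer (K : Set F) := mem_normalizer_fintype h

private theorem ztBmin_pow {F : Type} [Group F] {w : F} {K : Subgroup F}
    (h : ∀ x ∈ K, w * x * w⁻¹ ∈ K) : ∀ n : ℕ, ∀ x ∈ K, w ^ n * x * (w ^ n)⁻¹ ∈ K := by
  intro n
  induction n with
  | zero => intro x hx; simpa using hx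
  | succ n ih =>
    intro x hx
    have := h _ (ih x hx)
    rwa [show w * (w ^ n * x * (w ^ n)⁻¹) * w⁻¹ = w ^ (n + 1) * x * (w ^ (n + 1))⁻¹ by
      rw [pow_succ']; group] at this

/-- **Minimal configurations.** The hypotheses are the output of `ev_config` (`a := 3`).

Proof. Compare `ev_min` (EvD.lean) and `zt_hon2` (ZtHon2.lean). Let `x = w ^ 4`, `x ^ 2 = 1`.
(1) Among the subgroups `R₀ ≤ R` with `∀ s ∈ R₀, w * s * w⁻¹ ∈ R₀` and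
`∃ s ∈ R₀, ∃ q ∈ P, x * s * x⁻¹ * s⁻¹ * q ≠ q * (x * s * x⁻¹ * s⁻¹)` choose a minimal one (well-founded `<`,
as in the proof of `zt_minA`, ZtMin.lean): `R` is one of them: for `s := i` the element is
`i⁻¹ * i⁻¹ = (i ^ 2)⁻¹`, and `i` is a power of `i ^ 2` (`i ^ (r ^ k) = 1`, `r` odd; `hr2`), so if `i ^ 2`
commuted with all `q ∈ P`, so would `i`.
(2) `gen`: let `S₀ = closure {s | s ∈ R₀ ∧ x * s * x⁻¹ = s⁻¹} ≤ R₀`; it is normalized by `w` (`w`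
commutes with `x`). If `S₀ ≠ R₀` then by minimality `x * s * x⁻¹ * s⁻¹` centralizes `P` for `s ∈ S₀`.
For `s ∈ R₀` let `s' = s⁻¹ * (x * s * x⁻¹)`; `x * s' * x⁻¹ = s'⁻¹` (`x ^ 2 = 1`; `s' ∈ R₀`, because
`x = w ^ 4`), so `s' ∈ S₀` and `x * s' * x⁻¹ * s'⁻¹ = (s' ^ 2)⁻¹` centralizes `P`, so `s'` does (a power of
`s' ^ 2`), and `x * s * x⁻¹ * s⁻¹ = s * s' * s⁻¹` centralizes `P` (`s` normalizes `P`; `s⁻¹ ∈ R` too) for
all `s ∈ R₀`: contradiction. So if `S` is a subgroup containing the elements of `R₀` inverted by `x`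
then `R₀ = S₀ ≤ S`.
(3) Among the subgroups `Q₀ ≤ P` which are normalized by `R₀` and `w` and not centralized by `R₀`
choose a minimal one (`P` is one: `x * s * x⁻¹ * s⁻¹ ∈ R₀` does not centralize `P`). Let
`F₁ = normalizer Q₀`, `Q = Q₀.subgroupOf F₁` (normal), `R₁ = R₀.subgroupOf F₁`, `g = ⟨w, _⟩`
(`zthon2_norm`-type argument: in a finite group `w * q * w⁻¹ ∈ Q₀` for all `q ∈ Q₀` implies
`w ∈ normalizer Q₀`). `core`, `hg`, `gen`, `minR` follow by taking images under the inclusion of `F₁`: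
for `minR` let `R₁' ≤ R₁`, `≠ R₁`, be normalized by `g`; its image in `F` is `≤ R₀`, `≠ R₀`, normalized
by `w`, so by (1) `x * s * x⁻¹ * s⁻¹` centralizes `P ≥ Q₀` for all its elements `s`. -/
theorem zt_minB {F : Type} [Group F] [Finite F] {r : ℕ} (hr : r.Prime) (hr2 : r ≠ 2)
    (P R : Subgroup F) (w : F)
    (hP : ∀ q ∈ P, q ^ (2 ^ 3) = 1) (hR : IsPGroup r R) (hw : w ^ 8 = 1)
    (hwR : ∀ g ∈ R, w * g * w⁻¹ ∈ R) (hwP : ∀ q ∈ P, w * q * w⁻¹ ∈ P)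
    (hRP : ∀ g ∈ R, ∀ q ∈ P, g * q * g⁻¹ ∈ P)
    (h : ∃ i ∈ R, w ^ 4 * i * (w ^ 4)⁻¹ = i⁻¹ ∧ ∃ q ∈ P, i * q ≠ q * i) :
    ∃ (F₁ : Subgroup F) (Q R₁ : Subgroup F₁) (g : F₁), Q.Normal ∧ ZMinB r Q R₁ g := by
  obtain ⟨i, hiR, hix, q₀, hq₀P, hq₀⟩ := h
  set x : F := w ^ 4 with hx
  have hxx : x * x = 1 := by rw [hx, ← pow_add]; exact hw
  have hxi : x⁻¹ = x := inv_eq_of_mul_eq_one_left hxx
  have hcx : w * x = x * w := by rw [hx, ← pow_succ', ← pow_succ]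
  let T : Set (Subgroup F) := {R' | R' ≤ R ∧ (∀ s ∈ R', w * s * w⁻¹ ∈ R') ∧
    ∃ s ∈ R', ∃ q ∈ P, x * s * x⁻¹ * s⁻¹ * q ≠ q * (x * s * x⁻¹ * s⁻¹)}
  have hRT : R ∈ T := by
    refine ⟨le_rfl, hwR, i, hiR, q₀, hq₀P, fun h => hq₀ ?_⟩
    rw [hix] at h
    exact ztBmin_sq hr hr2 hR hiR h
  obtain ⟨R₀, ⟨hR₀R, hwR₀, s₁, hs₁, q₁, hq₁, hne₁⟩, hmin₁⟩ :=
    (wellFounded_lt (α := Subgroup F)).has_min T ⟨R, hRT⟩
  -- minimality
  have hminR : ∀ R' : Subgroup F, R' ≤ R₀ → R' ≠ R₀ → (∀ s ∈ R', w * s * w⁻¹ ∈ R') →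
      ∀ s ∈ R', ∀ q ∈ P, x * s * x⁻¹ * s⁻¹ * q = q * (x * s * x⁻¹ * s⁻¹) := by
    intro R' h1 h2 h3 s hs q hq
    by_contra hcon
    exact hmin₁ R' ⟨h1.trans hR₀R, h3, s, hs, q, hq, hcon⟩ (lt_of_le_of_ne h1 h2)
  have hxR₀ : ∀ s ∈ R₀, x * s * x⁻¹ ∈ R₀ := ztBmin_pow hwR₀ 4
  -- generation
  have hgen : ∀ S : Subgroup F, (∀ s ∈ R₀, x * s * x⁻¹ = s⁻¹ → s ∈ S) → R₀ ≤ S := by
    intro S hS
    let G : Set F := {g | g ∈ R₀ ∧ x * g * x⁻¹ = g⁻¹}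
    let S₀ : Subgroup F := closure G
    have hS₀ : S₀ ≤ R₀ := (closure_le R₀).2 fun g hg => hg.1
    have hS₀S : S₀ ≤ S := (closure_le S).2 fun g hg => hS g hg.1 hg.2
    have hwS₀ : ∀ g ∈ S₀, w * g * w⁻¹ ∈ S₀ := by
      intro g hg
      have h1 : S₀ ≤ S₀.comap (MulAut.conj w).toMonoidHom := by
        refine (closure_le _).2 fun y hy => ?_
        refine subset_closure (k := G) ⟨hwR₀ y hy.1, ?_⟩
        have e1 : x * (w * y * w⁻¹) * x⁻¹ = w * (x * y * x⁻¹) * w⁻¹ := by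
          have e2 : x * w = w * x := hcx.symm
          have e3 : w⁻¹ * x⁻¹ = x⁻¹ * w⁻¹ := by rw [← mul_inv_rev, ← mul_inv_rev, hcx]
          calc x * (w * y * w⁻¹) * x⁻¹ = (x * w) * y * (w⁻¹ * x⁻¹) := by group
            _ = (w * x) * y * (x⁻¹ * w⁻¹) := by rw [e2, e3]
            _ = w * (x * y * x⁻¹) * w⁻¹ := by group
        show x * (w * y * w⁻¹) * x⁻¹ = (w * y * w⁻¹)⁻¹
        rw [e1, hy.2]
        group
      exact h1 hg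
    by_cases hS₀R : S₀ = R₀
    · rw [← hS₀R]; exact hS₀S
    exfalso
    have h1 := hminR S₀ hS₀ hS₀R hwS₀
    apply hne₁
    have h2 : s₁⁻¹ * (x * s₁ * x⁻¹) ∈ R₀ := R₀.mul_mem (R₀.inv_mem hs₁) (hxR₀ s₁ hs₁)
    have h3 : x * (s₁⁻¹ * (x * s₁ * x⁻¹)) * x⁻¹ = (s₁⁻¹ * (x * s₁ * x⁻¹))⁻¹ := by
      calc x * (s₁⁻¹ * (x * s₁ * x⁻¹)) * x⁻¹ = x * s₁⁻¹ * (x * s₁ * (x * x)⁻¹) := by group
        _ = x * s₁⁻¹ * (x⁻¹ * s₁) := by rw [hxx, inv_one, mul_one, hxi]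
        _ = (s₁⁻¹ * (x * s₁ * x⁻¹))⁻¹ := by group
    have h4 : s₁⁻¹ * (x * s₁ * x⁻¹) ∈ S₀ := subset_closure (k := G) ⟨h2, h3⟩
    have h5 : ∀ q ∈ P, s₁⁻¹ * (x * s₁ * x⁻¹) * q = q * (s₁⁻¹ * (x * s₁ * x⁻¹)) := by
      intro q hq
      have h6 := h1 _ h4 q hq
      rw [h3] at h6
      exact ztBmin_sq hr hr2 hR (hR₀R h2) h6
    have h7 := ztBmin_conj hRP (hR₀R hs₁) h5 q₁ hq₁
    have h8 : s₁ * (s₁⁻¹ * (x * s₁ * x⁻¹)) * s₁⁻¹ = x * s₁ * x⁻¹ * s₁⁻¹ := by group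
    rwa [h8] at h7
  -- the subgroup Q₀
  let T' : Set (Subgroup F) := {Q' | Q' ≤ P ∧ (∀ g ∈ R₀, ∀ q ∈ Q', g * q * g⁻¹ ∈ Q') ∧
    (∀ q ∈ Q', w * q * w⁻¹ ∈ Q') ∧ ∃ g ∈ R₀, ∃ q ∈ Q', g * q ≠ q * g}
  have hPT : P ∈ T' := ⟨le_rfl, fun g hg => hRP g (hR₀R hg), hwP, x * s₁ * x⁻¹ * s₁⁻¹,
    R₀.mul_mem (hxR₀ s₁ hs₁) (R₀.inv_mem hs₁), q₁, hq₁, hne₁⟩
  obtain ⟨Q₀, ⟨hQP, hQR, hQw, g₂, hg₂, q₂, hq₂, hne⟩, hmin⟩ :=
    (wellFounded_lt (α := Subgroup F)).has_min T' ⟨P, hPT⟩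
  have hR₀F : R₀ ≤ normalizer (Q₀ : Set F) := fun g hg => ztBmin_norm (hQR g hg)
  have hwF : w ∈ normalizer (Q₀ : Set F) := ztBmin_norm hQw
  have hQF : Q₀ ≤ normalizer (Q₀ : Set F) := le_normalizer
  refine ⟨normalizer (Q₀ : Set F), Q₀.subgroupOf (normalizer (Q₀ : Set F)),
    R₀.subgroupOf (normalizer (Q₀ : Set F)), ⟨w, hwF⟩, inferInstance, ?_⟩
  refine ⟨⟨fun q hq => ?_, ?_, fun g hg => ?_, ?_, fun Q' hQ'1 hQ'2 hQ'3 hQ'4 g hg q hq => ?_⟩,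
    ?_, fun S hS g hg => ?_, fun R' h1 h2 h3 s hs q hq => ?_⟩
  · exact Subtype.ext (hP q (hQP (mem_subgroupOf.1 hq)))
  · exact (hR.to_le hR₀R).comap_subtype
  · exact mem_subgroupOf.2 (hwR₀ g (mem_subgroupOf.1 hg))
  · exact ⟨⟨g₂, hR₀F hg₂⟩, mem_subgroupOf.2 hg₂, ⟨q₂, hQF hq₂⟩, mem_subgroupOf.2 hq₂,
      fun h => hne (congrArg Subtype.val h)⟩
  · by_contra hcon
    refine hmin (Q'.map (normalizer (Q₀ : Set F)).subtype) ⟨?_, ?_, ?_, ?_⟩ ?_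
    · rintro _ ⟨y, hy, rfl⟩
      exact hQP (mem_subgroupOf.1 (hQ'1 hy))
    · rintro y hy _ ⟨z, hz, rfl⟩
      exact ⟨_, hQ'3 ⟨y, hR₀F hy⟩ (mem_subgroupOf.2 hy) z hz, rfl⟩
    · rintro _ ⟨z, hz, rfl⟩
      exact ⟨_, hQ'4 z hz, rfl⟩
    · exact ⟨g, mem_subgroupOf.1 hg, q, ⟨q, hq, rfl⟩, fun h => hcon (Subtype.ext h)⟩
    · refine lt_of_le_of_ne ?_ fun he => hQ'2 ?_
      · rintro _ ⟨y, hy, rfl⟩
        exact mem_subgroupOf.1 (hQ'1 hy)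
      · refine le_antisymm hQ'1 fun y hy => ?_
        have h1 : (y : F) ∈ Q'.map (normalizer (Q₀ : Set F)).subtype := by
          rw [he]; exact mem_subgroupOf.1 hy
        obtain ⟨z, hz, h2⟩ := h1
        have : z = y := Subtype.ext h2
        rwa [← this]
  · exact Subtype.ext hw
  · have h1 : R₀ ≤ S.map (normalizer (Q₀ : Set F)).subtype := by
      refine hgen _ fun s hs hsx => ?_
      exact ⟨⟨s, hR₀F hs⟩, hS ⟨s, hR₀F hs⟩ (mem_subgroupOf.2 hs) (Subtype.ext hsx), rfl⟩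
    obtain ⟨g', hg', he⟩ := h1 (mem_subgroupOf.1 hg)
    have : g' = g := Subtype.ext he
    rwa [← this]
  · have h4 := hminR (R'.map (normalizer (Q₀ : Set F)).subtype) (by
      rintro _ ⟨y, hy, rfl⟩
      exact mem_subgroupOf.1 (h1 hy)) (by
      intro he
      apply h2
      refine le_antisymm h1 fun y hy => ?_
      have h5 : (y : F) ∈ R'.map (normalizer (Q₀ : Set F)).subtype := by
        rw [he]; exact mem_subgroupOf.1 hy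
      obtain ⟨z, hz, h6⟩ := h5
      have : z = y := Subtype.ext h6
      rwa [← this]) (by
      rintro _ ⟨z, hz, rfl⟩
      exact ⟨_, h3 z hz, rfl⟩) s ⟨s, hs, rfl⟩ q (hQP (mem_subgroupOf.1 hq))
    exact Subtype.ext h4

end Pool.Agent.Lib.MP_544bd1_al
end

section

/-!
Theorem Z3, Case A, `P` abelian: the group `T`, case (a).
-/

namespace Pool.Agent.Lib.MP_544bd1_al

open Subgroup

/-- an odd element inverted by an involution in `O_{2',2}` is in `O_{2'}`.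

Proof. `InOP.comm'` gives `z⁻¹ * (d⁻¹ * z * d) = d ^ 2 ∈ O_{2',2}` (`z⁻¹ * d⁻¹ * z = d` since
`z ^ 2 = 1`), `InOP.inO` (`zt_cop`), `InO.of_sq`. -/
theorem zt_inO {m a : ℕ} (hm : Odd m) {F : Type} [Group F] {T : Subgroup F} {z d : F}
    (hz : InOP m (2 ^ a) T z) (hz2 : z ^ 2 = 1) (hdT : d ∈ T) (hd : d ^ m = 1)
    (hzd : z * d * z⁻¹ = d⁻¹) : InO m T d := by
  have hzi : z⁻¹ = z := fr_inv_of_sq hz2
  have h1 : z⁻¹ * (d⁻¹ * z * d) = d ^ 2 := by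
    have h2 : z * d⁻¹ * z⁻¹ = d := by
      have h3 : z * d⁻¹ * z⁻¹ = (z * d * z⁻¹)⁻¹ := by group
      rw [h3, hzd, inv_inv]
    calc z⁻¹ * (d⁻¹ * z * d) = z * d⁻¹ * z⁻¹ * d := by
          rw [hzi]
          group
      _ = d ^ 2 := by rw [h2, pow_two]
  have h4 : InOP m (2 ^ a) T (d ^ 2) := by
    have h5 := hz.comm' hdT
    rwa [h1] at h5
  have h6 : (d ^ 2) ^ m = 1 := by
    rw [← pow_mul, mul_comm, pow_mul, hd, one_pow]
  exact InO.of_sq hm (InOP.inO (zt_cop hm a) h4 h6) hd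

/-- **Case (a).**

Proof. Let `z = (p * x) ^ 4` (`zt_z`). `zt_inO`: `InO m ⊤ d`, i.e. there is a normal subgroup `A ∋ d` of
`F` of exponent `m` (or `A = krad m F`, `tw_mem_krad_iff`). `z` does not commute with `d`
(`d⁻¹ = d` would give `d = 1`, `fr_one_two`). `zt_FP` for `A`. -/
theorem zt_A1Ta {m : ℕ} (hm : Odd m) {F : Type} [Group F] {P : Subgroup F} {x p d : F}
    (hP : ∀ q ∈ P, q ^ 2 = 1) (hx : x ^ 4 = 1) (hPx : ∀ q ∈ P, x * q * x⁻¹ ∈ P) (hp : p ∈ P)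
    (hz : InOP m (2 ^ 3) (⊤ : Subgroup F) ((p * x) ^ 4)) (hd : d ^ m = 1) (hd1 : d ≠ 1)
    (hzd : (p * x) ^ 4 * d * ((p * x) ^ 4)⁻¹ = d⁻¹) :
    ∃ s : F, s ≠ 1 ∧ s ^ m = 1 ∧ x * s = s * x ∧ (p * x) ^ 4 * s * ((p * x) ^ 4)⁻¹ = s⁻¹ := by
  obtain ⟨_, _, _, hz2, _, _⟩ := zt_z P hP hx hPx hp
  obtain ⟨A, hAT, hdA, hAc, hAm⟩ := zt_inO hm hz hz2 (mem_top d) hd hzd
  have hne : ∃ g ∈ A, (p * x) ^ 4 * g ≠ g * (p * x) ^ 4 := by
    refine ⟨d, hdA, fun h => hd1 ?_⟩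
    apply fr_one_two hm hd
    have h1 : (p * x) ^ 4 * d * ((p * x) ^ 4)⁻¹ = d := by
      rw [h, mul_inv_cancel_right]
    rw [h1] at hzd
    rw [pow_two]
    nth_rw 1 [hzd]
    exact inv_mul_cancel d
  obtain ⟨s, hsA, hs1, hxs, hzs⟩ := zt_FP hm A P hAm hP hx hPx hp
    (fun g hg => hAc x (mem_top x) g hg) (fun q _ g hg => hAc q (mem_top q) g hg) hne
  exact ⟨s, hs1, hAm s hsA, hxs, hzs⟩

end Pool.Agent.Lib.MP_544bd1_al
end
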