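import Mathlib
import Pool.Agent.Lib.MP_544bd1_al.TwS3
import Pool.Agent.Lib.MP_544bd1_al.ZtFrat
import Pool.Agent.Lib.MP_544bd1_al.ZtGen
import Pool.Agent.Lib.MP_544bd1_al.ZtFP
import Pool.Agent.Lib.MP_544bd1_al.TwS2
import Pool.Agent.Lib.MP_544bd1_al.TwA
import Pool.Agent.Lib.MP_544bd1_al.TwU1
import Pool.Agent.Lib.MP_544bd1_al.TwLZ
import Pool.Agent.Lib.MP_544bd1_al.ZtSpl
import Pool.Agent.Lib.MP_544bd1_al.TwR4

section

/-!
Theorem Z3, Case A, `P` abelian: the commutators of the minimal section.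
-/

namespace Pool.Agent.Lib.MP_544bd1_al

open Subgroup

private theorem za1_odd {m : ℕ} (hm : Odd m) {H : Type} [Group H] {c : H} (h1 : c ^ m = 1) (h2 : c ^ 2 = 1) :
    c = 1 := by
  have hc : Nat.Coprime m 2 := Nat.coprime_two_right.2 hm
  have k1 : orderOf c ∣ m := orderOf_dvd_of_pow_eq_one h1
  have k2 : orderOf c ∣ 2 := orderOf_dvd_of_pow_eq_one h2
  exact orderOf_eq_one_iff.1 (Nat.eq_one_of_dvd_coprimes hc k1 k2)

private theorem za1_mul {H : Type} [Group H] {a a' b : H} (h : a * (a' * b * a'⁻¹ * b⁻¹) = (a' * b * a'⁻¹ * b⁻¹) * a)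
    (h' : (a' * b * a'⁻¹ * b⁻¹) * (a * b * a⁻¹ * b⁻¹) = (a * b * a⁻¹ * b⁻¹) * (a' * b * a'⁻¹ * b⁻¹)) :
    (a * a') * b * (a * a')⁻¹ * b⁻¹ = (a * b * a⁻¹ * b⁻¹) * (a' * b * a'⁻¹ * b⁻¹) := by
  calc (a * a') * b * (a * a')⁻¹ * b⁻¹ = (a * (a' * b * a'⁻¹ * b⁻¹)) * (b * a⁻¹ * b⁻¹) := by group
    _ = ((a' * b * a'⁻¹ * b⁻¹) * a) * (b * a⁻¹ * b⁻¹) := by rw [h]
    _ = (a' * b * a'⁻¹ * b⁻¹) * (a * b * a⁻¹ * b⁻¹) := by group
    _ = _ := h'

private theorem za1_inv {H : Type} [Group H] {a b : H}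
    (h : a⁻¹ * (a * b * a⁻¹ * b⁻¹) = (a * b * a⁻¹ * b⁻¹) * a⁻¹) :
    a⁻¹ * b * (a⁻¹)⁻¹ * b⁻¹ = (a * b * a⁻¹ * b⁻¹)⁻¹ := by
  have h2 : (a * b * a⁻¹ * b⁻¹)⁻¹ * a⁻¹ = a⁻¹ * (a * b * a⁻¹ * b⁻¹)⁻¹ := by
    rw [inv_mul_eq_iff_eq_mul, ← mul_assoc, ← h]
    group
  calc a⁻¹ * b * (a⁻¹)⁻¹ * b⁻¹ = (a⁻¹ * (a * b * a⁻¹ * b⁻¹)⁻¹) * a := by group
    _ = ((a * b * a⁻¹ * b⁻¹)⁻¹ * a⁻¹) * a := by rw [h2]
    _ = _ := by group

private theorem za1_sym {H : Type} [Group H] {y a b : H} (h : y * (a * b * a⁻¹ * b⁻¹) * y⁻¹ = (a * b * a⁻¹ * b⁻¹)⁻¹) :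
    y * (b * a * b⁻¹ * a⁻¹) * y⁻¹ = (b * a * b⁻¹ * a⁻¹)⁻¹ := by
  have e : b * a * b⁻¹ * a⁻¹ = (a * b * a⁻¹ * b⁻¹)⁻¹ := by group
  rw [e, ← h]
  have h2 := congrArg (fun w => w⁻¹) h
  simp only [inv_inv] at h2
  calc y * (y * (a * b * a⁻¹ * b⁻¹) * y⁻¹) * y⁻¹ = y * (a * b * a⁻¹ * b⁻¹)⁻¹ * y⁻¹ := by rw [h]
    _ = (y * (a * b * a⁻¹ * b⁻¹) * y⁻¹)⁻¹ := by group
  

/-- **`x ^ 2` inverts the commutators of `A`** (`A` minimal for `S = P ⊔ zpowers x`, `z = (p * x) ^ 4`).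

Proof. Let `p_i = x ^ i * p * (x ^ i)⁻¹`; `z = p_0 * p_1 * p_2 * p_3 ∈ P` is central in `S` and `z ^ 2 = 1`
(`zt_z`), so `A` is generated by elements inverted by `z` (`ZMinA.gen`).
(1) `zt_f3P`: `e ∈ A`, `e ≠ 1`, `z * e * z⁻¹ = e⁻¹`, `q * e * q⁻¹ = e` or `e⁻¹` for `q ∈ P`. Let
`e_i = x ^ i * e * (x ^ i)⁻¹` (`i < 4`, indices mod 4). `closure {e_0, e_1, e_2, e_3} ≤ A` is
`S`-invariant and not centralized by `z` (`e ≠ e⁻¹`), so it is `A` by `min`. Let `ε_i ∈ {1, -1}` with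
`p_i * e * p_i⁻¹ = e ^ ε_i`; `p_k * e_j * p_k⁻¹ = e_j ^ ε_{k-j}`; `ε_0 ε_1 ε_2 ε_3 = -1`.
(2) `zt_reg1` (`a := 3`) for `u = p * x` and for `u' = p_1 * x` (`u ^ 4 = u' ^ 4 = z`,
`u ^ 8 = 1`): `u ^ 2 = p_0 * p_1 * x ^ 2` and `u' ^ 2 = p_1 * p_2 * x ^ 2` centralize the
commutators `a * b * a⁻¹ * b⁻¹` of `A`, so `q = u ^ 2 * (u' ^ 2)⁻¹ = p_0 * p_2` does.
(3) With `η = ε_0 ε_2`: `q` acts on `e_0`, `e_2` as `η`, on `e_1`, `e_3` as `ε_1 ε_3 = - η`. So for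
`i - j` odd `q` centralizes one of `e_i`, `e_j` and inverts the other, hence inverts
`c = e_i * e_j * e_i⁻¹ * e_j⁻¹` (class 2, `D.cl`), which it centralizes: `c ^ 2 = 1`, `c = 1`.
(4) `x ^ 2` exchanges `e_0, e_2` and `e_1, e_3`, so it inverts `e_0 * e_2 * e_0⁻¹ * e_2⁻¹` and
`e_1 * e_3 * e_1⁻¹ * e_3⁻¹`. Hence `x ^ 2` inverts the commutator of any two of the `e_i`. For fixed
`b`, the set of `a ∈ A` such that `x ^ 2` inverts `a * b * a⁻¹ * b⁻¹` is a subgroup, similarly in `b`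
(commutators are central in `A`: `(a * a') * b * (a * a')⁻¹ * b⁻¹ =
(a * b * a⁻¹ * b⁻¹) * (a' * b * a'⁻¹ * b⁻¹)`); so it holds for all `a, b ∈ A`. -/
theorem zt_A1x {m r : ℕ} (hm : Odd m) {H : Type} [Group H] [Finite H] (hV : ZRep m 3 H)
    {P A : Subgroup H} {x p : H} (hP : ∀ q ∈ P, q ^ 2 = 1) (hx : x ^ 4 = 1)
    (hPx : ∀ q ∈ P, x * q * x⁻¹ ∈ P) (hp : p ∈ P)
    (D : ZMinA m r (P ⊔ zpowers x) A ((p * x) ^ 4)) :
    ∀ a ∈ A, ∀ b ∈ A, x ^ 2 * (a * b * a⁻¹ * b⁻¹) * (x ^ 2)⁻¹ = (a * b * a⁻¹ * b⁻¹)⁻¹ := by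
  obtain ⟨hz_eq, hzP, hxz, hz2, hPz, hcomm⟩ := zt_z P hP hx hPx hp
  obtain ⟨z, hzdef⟩ : ∃ z, z = (p * x) ^ 4 := ⟨_, rfl⟩
  rw [← hzdef] at hz_eq hzP hxz hz2 hPz D
  have hPS : ∀ q ∈ P, q ∈ P ⊔ zpowers x := fun q hq => mem_sup_left hq
  have hxS : x ∈ P ⊔ zpowers x := mem_sup_right (mem_zpowers x)
  have hzS : z ∈ P ⊔ zpowers x := hPS z hzP
  have hzc : ∀ s ∈ P ⊔ zpowers x, s * z = z * s := by
    have h1 : P ⊔ zpowers x ≤ centralizer {z} := by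
      refine sup_le (fun q hq => ?_) ?_
      · rw [mem_centralizer_singleton_iff]
        exact hPz q hq
      · rw [zpowers_le, mem_centralizer_singleton_iff]
        exact hxz
    intro s hs
    exact mem_centralizer_singleton_iff.1 (h1 hs)
  have hgen := D.gen hm hzS hz2 hzc
  -- `e`
  obtain ⟨e, heA, he1, hze, hPe⟩ := zt_f3P hm A P D.odd hP (fun q hq => D.inv q (hPS q hq)) hzP D.ne
  have hx3 : x⁻¹ = x ^ 3 := by
    rw [inv_eq_iff_mul_eq_one, ← pow_succ']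
    exact hx
  have hPx' : ∀ q ∈ P, x⁻¹ * q * x ∈ P := by
    intro q hq
    have h1 := hPx _ (hPx _ (hPx _ hq))
    have h2 : x⁻¹ * q * x = x * (x * (x * q * x⁻¹) * x⁻¹) * x⁻¹ := by
      have h3 : x = (x ^ 3)⁻¹ := by rw [← hx3, inv_inv]
      calc x⁻¹ * q * x = x ^ 3 * q * (x ^ 3)⁻¹ := by rw [hx3]; congr 1
        _ = _ := by simp only [pow_succ, pow_zero, one_mul, mul_inv_rev, mul_assoc]
    rw [h2]
    exact h1
  obtain ⟨E, hE⟩ : ∃ E : ℕ → H, ∀ i, E i = x ^ i * e * (x ^ i)⁻¹ := ⟨_, fun _ => rfl⟩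
  have hE0 : E 0 = e := by rw [hE]; group
  have hEs : ∀ i, x * E i * x⁻¹ = E (i + 1) := fun i => by rw [hE, hE, pow_succ']; group
  have hE4 : ∀ i, E (i + 4) = E i := fun i => by rw [hE, hE, pow_add, hx, mul_one]
  have hEA : ∀ i, E i ∈ A := by
    intro i
    induction i with
    | zero => rw [hE0]; exact heA
    | succ i ih => rw [← hEs]; exact D.inv x hxS _ ih
  -- `q ∈ P` acts by signs on the `E i`
  have hPE : ∀ i, ∀ q ∈ P, q * E i * q⁻¹ = E i ∨ q * E i * q⁻¹ = (E i)⁻¹ := by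
    intro i
    induction i with
    | zero => intro q hq; rw [hE0]; exact hPe q hq
    | succ i ih =>
      intro q hq
      have e1 : q * E (i + 1) * q⁻¹ = x * ((x⁻¹ * q * x) * E i * (x⁻¹ * q * x)⁻¹) * x⁻¹ := by
        rw [← hEs]; group
      rw [e1]
      rcases ih _ (hPx' q hq) with h | h
      · left; rw [h, hEs]
      · right; rw [h, ← hEs]; group
  have hAE : closure (Set.range E) = A := by
    have h1 : closure (Set.range E) ≤ A := by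
      rw [closure_le]
      rintro _ ⟨i, rfl⟩
      exact hEA i
    have h2 : ∀ s ∈ P ⊔ zpowers x, ∀ w ∈ closure (Set.range E), s * w * s⁻¹ ∈ closure (Set.range E) := by
      have k : P ⊔ zpowers x ≤ normalizer (closure (Set.range E) : Set H) := by
        have kk : ∀ s : H, (∀ i, s * E i * s⁻¹ ∈ closure (Set.range E)) →
            ∀ w ∈ closure (Set.range E), s * w * s⁻¹ ∈ closure (Set.range E) := by
          intro s hs w hw
          refine closure_induction (p := fun w _ => s * w * s⁻¹ ∈ closure (Set.range E)) ?_ ?_ ?_ ?_ hw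
          · rintro _ ⟨i, rfl⟩
            exact hs i
          · simp only [mul_one, mul_inv_cancel]
            exact one_mem _
          · intro a b _ _ ka kb
            have : s * (a * b) * s⁻¹ = (s * a * s⁻¹) * (s * b * s⁻¹) := by group
            rw [this]
            exact mul_mem ka kb
          · intro a _ ka
            have : s * a⁻¹ * s⁻¹ = (s * a * s⁻¹)⁻¹ := by group
            rw [this]
            exact inv_mem ka
        have kq : ∀ q ∈ P, ∀ i, q * E i * q⁻¹ ∈ closure (Set.range E) := by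
          intro q hq i
          rcases hPE i q hq with h | h
          · rw [h]; exact subset_closure ⟨i, rfl⟩
          · rw [h]; exact inv_mem (subset_closure ⟨i, rfl⟩)
        have kx : ∀ i, x * E i * x⁻¹ ∈ closure (Set.range E) := fun i => by
          rw [hEs]; exact subset_closure ⟨i + 1, rfl⟩
        have kx' : ∀ i, x⁻¹ * E i * (x⁻¹)⁻¹ ∈ closure (Set.range E) := fun i => by
          have : x⁻¹ * E i * (x⁻¹)⁻¹ = E (i + 3) := by
            rw [← hE4 i, show i + 4 = (i + 3) + 1 from rfl, ← hEs]; group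
          rw [this]; exact subset_closure ⟨i + 3, rfl⟩
        refine sup_le (fun q hq => ?_) ?_
        · rw [mem_normalizer_iff]
          intro w
          refine ⟨fun hw => kk q (kq q hq) w hw, fun hw => ?_⟩
          have h3 := kk q⁻¹ (kq q⁻¹ (inv_mem hq)) _ hw
          have h4 : q⁻¹ * (q * w * q⁻¹) * (q⁻¹)⁻¹ = w := by group
          rwa [h4] at h3
        · rw [zpowers_le, mem_normalizer_iff]
          intro w
          refine ⟨fun hw => kk x kx w hw, fun hw => ?_⟩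
          have h3 := kk x⁻¹ kx' _ hw
          have h4 : x⁻¹ * (x * w * x⁻¹) * (x⁻¹)⁻¹ = w := by group
          rwa [h4] at h3
      intro s hs w hw
      exact (mem_normalizer_iff.1 (k hs) w).1 hw
    by_contra hne
    have h3 := D.min _ h1 h2 hne e (by rw [← hE0]; exact subset_closure ⟨0, rfl⟩)
    have h4 : e = e⁻¹ := by
      rw [← hze, h3]; group
    apply he1
    refine za1_odd hm (D.odd e heA) ?_
    rw [sq]
    nth_rewrite 2 [h4]
    exact mul_inv_cancel _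
  -- the two elements of order 8
  have hu4 : (p * x) ^ (2 ^ (3 - 1)) = z := by
    show (p * x) ^ 4 = z
    exact hzdef.symm
  have hv4 : (x * p) ^ (2 ^ (3 - 1)) = z := by
    show (x * p) ^ 4 = z
    have h1 : (x * p) ^ 4 = x * (p * x) ^ 4 * x⁻¹ := by
      simp only [pow_succ, pow_zero, one_mul]
      group
    rw [h1, ← hzdef, hxz, mul_inv_cancel_right]
  have h8 : ∀ u : H, u ^ (2 ^ (3 - 1)) = z → u ^ (2 ^ 3) = 1 := by
    intro u hu
    have : u ^ (2 ^ 3) = (u ^ (2 ^ (3 - 1))) ^ 2 := by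
      show u ^ 8 = (u ^ 4) ^ 2
      rw [← pow_mul]
    rw [this, hu, hz2]
  have hreg : ∀ u ∈ P ⊔ zpowers x, u ^ (2 ^ (3 - 1)) = z → ∀ a ∈ A, ∀ b ∈ A,
      u ^ 2 * (a * b * a⁻¹ * b⁻¹) = a * b * a⁻¹ * b⁻¹ * u ^ 2 := by
    intro u hu hu4
    have h1 := zt_reg1 (a := 3) (by norm_num) hm hV A D.odd D.cl (u := u) (h8 u hu4) (D.inv u hu)
      (by rw [hu4]; exact hgen) (by rw [hu4]; exact D.cz)
    exact h1
  have hregu := hreg (p * x) (mul_mem (hPS p hp) hxS) hu4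
  have hregv := hreg (x * p) (mul_mem hxS (hPS p hp)) hv4
  -- `q = p_0 p_2`, `q1 = p_1 p_3`
  have hp2 : x ^ 2 * p * (x ^ 2)⁻¹ ∈ P := by
    have h1 := hPx _ (hPx _ hp)
    have h2 : x * (x * p * x⁻¹) * x⁻¹ = x ^ 2 * p * (x ^ 2)⁻¹ := by rw [sq]; group
    rwa [h2] at h1
  have hp1 : x * p * x⁻¹ ∈ P := hPx p hp
  have hp3 : x ^ 3 * p * (x ^ 3)⁻¹ ∈ P := by
    have h1 := hPx _ hp2
    have h2 : x * (x ^ 2 * p * (x ^ 2)⁻¹) * x⁻¹ = x ^ 3 * p * (x ^ 3)⁻¹ := by rw [pow_succ' x 2]; group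
    rwa [h2] at h1
  have hPinv : ∀ q ∈ P, q⁻¹ = q := fun q hq => by
    rw [inv_eq_iff_mul_eq_one, ← sq]
    exact hP q hq
  obtain ⟨q, hq⟩ : ∃ q, q = p * (x ^ 2 * p * (x ^ 2)⁻¹) := ⟨_, rfl⟩
  obtain ⟨q1, hq1⟩ : ∃ q1, q1 = x * q * x⁻¹ := ⟨_, rfl⟩
  have hqP : q ∈ P := by rw [hq]; exact mul_mem hp hp2
  have hq1P : q1 ∈ P := by rw [hq1]; exact hPx q hqP
  have hqz : z = q * q1 := by
    have h1 : q1 = (x * p * x⁻¹) * (x ^ 3 * p * (x ^ 3)⁻¹) := by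
      rw [hq1, hq, pow_succ' x 2]; group
    rw [hz_eq, h1, hq]
    have h2 := hcomm _ hp1 _ hp2
    calc p * (x * p * x⁻¹) * (x ^ 2 * p * (x ^ 2)⁻¹) * (x ^ 3 * p * (x ^ 3)⁻¹)
        = p * ((x * p * x⁻¹) * (x ^ 2 * p * (x ^ 2)⁻¹)) * (x ^ 3 * p * (x ^ 3)⁻¹) := by group
      _ = p * ((x ^ 2 * p * (x ^ 2)⁻¹) * (x * p * x⁻¹)) * (x ^ 3 * p * (x ^ 3)⁻¹) := by rw [h2]
      _ = _ := by group
  have hqq : q = (p * x) ^ 2 * ((x * p) ^ 2)⁻¹ := by
    have h1 : (p * x) ^ 2 * ((x * p) ^ 2)⁻¹ =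
        p * (x * p * x⁻¹) * (x ^ 2 * p * (x ^ 2)⁻¹)⁻¹ * (x * p * x⁻¹)⁻¹ := by
      rw [sq, sq, sq]; group
    rw [h1, hPinv _ hp2, hPinv _ hp1, hq]
    have h2 := hcomm _ hp1 _ hp2
    calc p * (x ^ 2 * p * (x ^ 2)⁻¹) = p * (x ^ 2 * p * (x ^ 2)⁻¹) * ((x * p * x⁻¹) * (x * p * x⁻¹)) := by
          rw [← sq, hP _ hp1, mul_one]
      _ = p * ((x ^ 2 * p * (x ^ 2)⁻¹) * (x * p * x⁻¹)) * (x * p * x⁻¹) := by group
      _ = p * ((x * p * x⁻¹) * (x ^ 2 * p * (x ^ 2)⁻¹)) * (x * p * x⁻¹) := by rw [h2]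
      _ = _ := by group
  have hqc : ∀ a ∈ A, ∀ b ∈ A, q * (a * b * a⁻¹ * b⁻¹) * q⁻¹ = a * b * a⁻¹ * b⁻¹ := by
    intro a ha b hb
    have h1 := hregu a ha b hb
    have h2 := hregv a ha b hb
    have h3 : ((x * p) ^ 2)⁻¹ * (a * b * a⁻¹ * b⁻¹) = (a * b * a⁻¹ * b⁻¹) * ((x * p) ^ 2)⁻¹ := by
      rw [inv_mul_eq_iff_eq_mul, ← mul_assoc, h2]; group
    have h4 : q * (a * b * a⁻¹ * b⁻¹) = (a * b * a⁻¹ * b⁻¹) * q := by
      rw [hqq, mul_assoc, h3, ← mul_assoc, h1, mul_assoc]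
    rw [h4, mul_inv_cancel_right]
  -- signs of `q`
  have hq2x : x⁻¹ * q1 * x = q := by rw [hq1]; group
  have hq2x' : x⁻¹ * q * x = q1 := by
    have h1 : x ^ 2 * q * (x ^ 2)⁻¹ = q := by
      have h2 : x ^ 2 * q * (x ^ 2)⁻¹ = (x ^ 2 * p * (x ^ 2)⁻¹) * (x ^ 4 * p * (x ^ 4)⁻¹) := by
        rw [hq, show (4 : ℕ) = 2 + 2 from rfl, pow_add]; group
      rw [h2, hx, hq]
      simp only [one_mul, inv_one, mul_one]
      exact hcomm _ hp2 _ hp
    rw [hq1]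
    have h3 : x * q * x⁻¹ = x⁻¹ * (x ^ 2 * q * (x ^ 2)⁻¹) * x := by rw [sq]; group
    rw [h3, h1]
  have hstep : ∀ w : H, ∀ i, w * E (i + 1) * w⁻¹ = x * ((x⁻¹ * w * x) * E i * (x⁻¹ * w * x)⁻¹) * x⁻¹ := by
    intro w i
    rw [← hEs]; group
  have hsigns : ∀ i, (q * E i * q⁻¹ = E i ∧ q1 * E i * q1⁻¹ = (E i)⁻¹) ∨
      (q * E i * q⁻¹ = (E i)⁻¹ ∧ q1 * E i * q1⁻¹ = E i) := by
    intro i
    induction i with
    | zero =>
      rw [hE0]
      have hz3 : z * e * z⁻¹ = q * (q1 * e * q1⁻¹) * q⁻¹ := by rw [hqz]; group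
      have hne : e ≠ e⁻¹ := by
        intro h4
        apply he1
        refine za1_odd hm (D.odd e heA) ?_
        rw [sq]
        nth_rewrite 2 [h4]
        exact mul_inv_cancel _
      rcases hPe q hqP with h1 | h1 <;> rcases hPe q1 hq1P with h2 | h2
      · exfalso
        rw [h2, h1, hze] at hz3
        exact hne hz3.symm
      · exact Or.inl ⟨h1, h2⟩
      · exact Or.inr ⟨h1, h2⟩
      · exfalso
        have h3 : q * e⁻¹ * q⁻¹ = (q * e * q⁻¹)⁻¹ := by group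
        rw [h2, h3, h1, inv_inv, hze] at hz3
        exact hne hz3.symm
    | succ i ih =>
      rw [hstep q i, hstep q1 i, hq2x, hq2x']
      rcases ih with ⟨h1, h2⟩ | ⟨h1, h2⟩
      · right
        rw [h1, h2, ← hEs]
        exact ⟨by group, rfl⟩
      · left
        rw [h1, h2, ← hEs]
        exact ⟨rfl, by group⟩
  have hflip : ∀ i, (q * E i * q⁻¹ = E i ∧ q * E (i + 1) * q⁻¹ = (E (i + 1))⁻¹) ∨
      (q * E i * q⁻¹ = (E i)⁻¹ ∧ q * E (i + 1) * q⁻¹ = E (i + 1)) := by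
    intro i
    rw [hstep q i, hq2x']
    rcases hsigns i with ⟨h1, h2⟩ | ⟨h1, h2⟩
    · left
      rw [h2, ← hEs]
      exact ⟨h1, by group⟩
    · right
      rw [h2, ← hEs]
      exact ⟨h1, rfl⟩
  -- commutators of neighbours vanish
  have hcA : ∀ a ∈ A, ∀ b ∈ A, a * b * a⁻¹ * b⁻¹ ∈ A := fun a ha b hb =>
    mul_mem (mul_mem (mul_mem ha hb) (inv_mem ha)) (inv_mem hb)
  have hce : ∀ a ∈ A, ∀ b ∈ A, (q * a * q⁻¹ = a ∧ q * b * q⁻¹ = b⁻¹) → a * b * a⁻¹ * b⁻¹ = 1 := by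
    intro a ha b hb hab
    have h1 := hqc a ha b hb
    have h2 : q * (a * b * a⁻¹ * b⁻¹) * q⁻¹ = (q * a * q⁻¹) * (q * b * q⁻¹) * (q * a * q⁻¹)⁻¹ * (q * b * q⁻¹)⁻¹ := by
      group
    rw [hab.1, hab.2] at h2
    have h3 : a * b⁻¹ * a⁻¹ * (b⁻¹)⁻¹ = (a * b * a⁻¹ * b⁻¹)⁻¹ := by
      have h4 : b⁻¹ * (b * a * b⁻¹ * a⁻¹) = (b * a * b⁻¹ * a⁻¹) * b⁻¹ :=
        (D.cl b hb a ha _ (inv_mem hb)).symm
      have h5 := za1_inv h4
      have h6 : a * b⁻¹ * a⁻¹ * (b⁻¹)⁻¹ = (b⁻¹ * a * (b⁻¹)⁻¹ * a⁻¹)⁻¹ := by group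
      rw [h6, h5]
      group
    rw [h3, h1] at h2
    refine za1_odd hm (D.odd _ (hcA a ha b hb)) ?_
    rw [sq]
    nth_rewrite 2 [h2]
    exact mul_inv_cancel _
  have hce' : ∀ i, E i * E (i + 1) * (E i)⁻¹ * (E (i + 1))⁻¹ = 1 := by
    intro i
    rcases hflip i with h | h
    · exact hce _ (hEA i) _ (hEA (i + 1)) h
    · have h1 := hce _ (hEA (i + 1)) _ (hEA i) ⟨h.2, h.1⟩
      have h2 : E i * E (i + 1) * (E i)⁻¹ * (E (i + 1))⁻¹ = (E (i + 1) * E i * (E (i + 1))⁻¹ * (E i)⁻¹)⁻¹ := by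
        group
      rw [h2, h1, inv_one]
  -- conjugation by `x ^ 2`
  have hx2E : ∀ i, x ^ 2 * E i * (x ^ 2)⁻¹ = E (i + 2) := by
    intro i
    rw [show i + 2 = (i + 1) + 1 from rfl, ← hEs, ← hEs, sq]; group
  have hx2c : ∀ i j, x ^ 2 * (E i * E j * (E i)⁻¹ * (E j)⁻¹) * (x ^ 2)⁻¹ =
      E (i + 2) * E (j + 2) * (E (i + 2))⁻¹ * (E (j + 2))⁻¹ := by
    intro i j
    rw [← hx2E, ← hx2E]; group
  have hbase0 : ∀ i k, k < 4 → x ^ 2 * (E i * E (i + k) * (E i)⁻¹ * (E (i + k))⁻¹) * (x ^ 2)⁻¹ =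
      (E i * E (i + k) * (E i)⁻¹ * (E (i + k))⁻¹)⁻¹ := by
    intro i k hk
    rw [hx2c]
    interval_cases k
    · simp only [add_zero]; group
    · rw [hce' i, show i + 1 + 2 = (i + 2) + 1 by ring, hce' (i + 2), inv_one]
    · rw [show i + 2 + 2 = i + 4 from rfl, hE4]; group
    · have h1 : E (i + 3) * E i * (E (i + 3))⁻¹ * (E i)⁻¹ = 1 := by
        have := hce' (i + 3)
        rwa [show i + 3 + 1 = i + 4 from rfl, hE4] at this
      have h2 : E (i + 3 + 2) * E (i + 2) * (E (i + 3 + 2))⁻¹ * (E (i + 2))⁻¹ = 1 := by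
        have := hce' (i + 1)
        have h4 : E (i + 3 + 2) = E (i + 1) := by rw [show i + 3 + 2 = (i + 1) + 4 by ring, hE4]
        rw [h4]
        exact this
      have h3 : E i * E (i + 3) * (E i)⁻¹ * (E (i + 3))⁻¹ = (E (i + 3) * E i * (E (i + 3))⁻¹ * (E i)⁻¹)⁻¹ := by
        group
      have h4 : E (i + 2) * E (i + 3 + 2) * (E (i + 2))⁻¹ * (E (i + 3 + 2))⁻¹ =
          (E (i + 3 + 2) * E (i + 2) * (E (i + 3 + 2))⁻¹ * (E (i + 2))⁻¹)⁻¹ := by group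
      rw [h3, h4, h1, h2, inv_one, inv_one]
  have hE4' : ∀ i k, E (i + 4 * k) = E i := by
    intro i k
    induction k with
    | zero => rfl
    | succ k ih => rw [show i + 4 * (k + 1) = (i + 4 * k) + 4 by ring, hE4, ih]
  have hbase : ∀ i j, x ^ 2 * (E i * E j * (E i)⁻¹ * (E j)⁻¹) * (x ^ 2)⁻¹ = (E i * E j * (E i)⁻¹ * (E j)⁻¹)⁻¹ := by
    intro i j
    -- `j = i + k` mod 4
    have h1 : E j = E (i + (j + 3 * i) % 4) := by
      have h2 : E (j + 4 * i) = E j := hE4' j i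
      have h3 : j + 4 * i = i + (j + 3 * i) % 4 + 4 * ((j + 3 * i) / 4) := by omega
      rw [← h2, h3, hE4']
    rw [h1]
    exact hbase0 i _ (Nat.mod_lt _ (by norm_num))
  have hmem : ∀ a, a ∈ closure (Set.range E) → a ∈ A := fun a ha => hAE ▸ ha
  have hmem' : ∀ a, a ∈ A → a ∈ closure (Set.range E) := fun a ha => hAE.symm ▸ ha
  -- additivity in the first argument
  have hext : ∀ b ∈ A, (∀ i, x ^ 2 * (E i * b * (E i)⁻¹ * b⁻¹) * (x ^ 2)⁻¹ = (E i * b * (E i)⁻¹ * b⁻¹)⁻¹) →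
      ∀ a ∈ A, x ^ 2 * (a * b * a⁻¹ * b⁻¹) * (x ^ 2)⁻¹ = (a * b * a⁻¹ * b⁻¹)⁻¹ := by
    intro b hb hgb a ha
    refine closure_induction (p := fun a _ => x ^ 2 * (a * b * a⁻¹ * b⁻¹) * (x ^ 2)⁻¹ =
      (a * b * a⁻¹ * b⁻¹)⁻¹) ?_ ?_ ?_ ?_ (hmem' a ha)
    · rintro _ ⟨i, rfl⟩
      exact hgb i
    · group
    · intro a a' ha ha' k k'
      have hA1 := hmem a ha
      have hA2 := hmem a' ha'
      have c1 := D.cl a' hA2 b hb a hA1
      have c2 := D.cl a' hA2 b hb _ (hcA a hA1 b hb)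
      rw [za1_mul c1.symm c2]
      have e1 : x ^ 2 * ((a * b * a⁻¹ * b⁻¹) * (a' * b * a'⁻¹ * b⁻¹)) * (x ^ 2)⁻¹ =
          (x ^ 2 * (a * b * a⁻¹ * b⁻¹) * (x ^ 2)⁻¹) * (x ^ 2 * (a' * b * a'⁻¹ * b⁻¹) * (x ^ 2)⁻¹) := by
        rw [conj_mul]
      rw [e1, k, k', ← mul_inv_rev, c2]
    · intro a ha k
      have hA1 := hmem a ha
      have c1 := D.cl a hA1 b hb _ (inv_mem hA1)
      rw [za1_inv c1.symm, inv_inv]
      have e1 : x ^ 2 * (a * b * a⁻¹ * b⁻¹)⁻¹ * (x ^ 2)⁻¹ = (x ^ 2 * (a * b * a⁻¹ * b⁻¹) * (x ^ 2)⁻¹)⁻¹ := by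
        rw [conj_inv]
      rw [e1, k, inv_inv]
  intro a ha b hb
  refine hext b hb (fun i => ?_) a ha
  refine za1_sym (hext (E i) (hEA i) (fun j => hbase j i) b hb)

end Pool.Agent.Lib.MP_544bd1_al
end

section

/-!
Theorem Z3, Case A, `P` abelian: lifting the minimal section, first part.
-/

namespace Pool.Agent.Lib.MP_544bd1_al

open Subgroup
open scoped commutatorElement

/-- an element of order a power of two and an odd power vanishing is trivial -/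
private theorem ztl_one {X : Type} [Group X] {x : X} {s k n : ℕ} (hs : Odd s) (h1 : x ^ (2 ^ k) = 1)
    (h2 : x ^ (s ^ n) = 1) : x = 1 := by
  have hc : Nat.Coprime (2 ^ k) (s ^ n) :=
    Nat.Coprime.pow _ _ ((Nat.coprime_two_left).2 hs)
  have h3 : orderOf x ∣ Nat.gcd (2 ^ k) (s ^ n) :=
    Nat.dvd_gcd (orderOf_dvd_of_pow_eq_one h1) (orderOf_dvd_of_pow_eq_one h2)
  rw [hc] at h3
  exact orderOf_eq_one_iff.1 (Nat.dvd_one.1 h3)

/-- **Lifting, first part.** `f : X →* Y` surjective, its kernel a 2-group; `A ≤ Y` an odd `r`-group of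
class 2, normalized by `f u` and generated by elements inverted by `(f u) ^ 4`; `E' ≤ X` an `r`-group
mapped onto `⁅A, A⁆`. Then the `r`-elements `g` of the normalizer of `E'` with `f g ∈ A` centralize the
elements `w` of the kernel in the normalizer of `E'`.

Proof. Let `N = normalizer E'`, `P₁ = f.ker ⊓ N`: `E'` centralizes `P₁` (commutators are in
`E' ⊓ f.ker = ⊥`, `r` odd). Elements `h ∈ X` with `f h` normalizing `A` have `w * h ∈ N` for some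
`w ∈ f.ker` (`zt_frat`; `f h` normalizes `⁅A, A⁆ = f E'`; `f h` and its inverse, `Finite`). So there is
`w ∈ f.ker` with `u₁ = w * u ∈ N`; `f u₁ = f u`.
In the group `↥N` let `P₁` be the (normal) subgroup of the elements with `f = 1`, a 2-group;
`tw_module Nat.prime_two P₁`: `V, τ, φ`. `τ = 1` on `P₁`, and `τ e = 1` for `e ∈ E'` (it centralizes `P₁`;
`φ` is surjective and equivariant). Let `B₁ = {g ∈ N | f g ∈ A}`. `zt_avg` (`a := 3`, `E := B₁`,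
`u := u₁`):
* `hE`: `f (g ^ m) = (f g) ^ m = 1`, so `g ^ m ∈ P₁`;
* `hab`: for `g, h ∈ B₁`, `f (g * h * g⁻¹ * h⁻¹) ∈ ⁅A, A⁆ = f E'`, so `g * h * g⁻¹ * h⁻¹ = e * w` with
  `e ∈ E'`, `w ∈ P₁`;
* `huE`: clear; `hu`: `u₁ ^ 8 ∈ P₁`;
* `hinv`: `A₂ = {a ∈ A | ∀ g ∈ B₁, f g = a → τ (u₁ ^ 4 * g * (u₁ ^ 4)⁻¹) = τ g⁻¹}` is a subgroup
  (the `τ g`, `g ∈ B₁` commute and depend only on `f g`; for products: every `a ∈ A` is `f g`,
  `g ∈ B₁`) and contains the `a ∈ A` inverted by `(f u) ^ 4` (`u₁ ^ 4 * g * (u₁ ^ 4)⁻¹ * g ∈ P₁`), so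
  `A ≤ A₂` by `hgen`;
* `hN`: `tw_norm_zero` with `k = 2 ^ 3`: an element `v ∈ N` with `f v = f u` satisfies `v ^ 8 ∈ f.ker`, so
  `v ^ (2 ^ k) = 1` for some `k`, and with `hexp` (`m` odd) `v ^ (2 ^ 3) = 1`; apply this to `u₁` and
  `q * u₁`, `q ∈ P₁`; `φ` is surjective.
So `τ g = 1` for `g ∈ B₁`, and the last property of `tw_module` (`s := r`) gives the claim. -/
theorem zt_lift1 {m r : ℕ} (hm : Odd m) (hr : r.Prime) (hr2 : r ≠ 2) {X Y : Type} [Group X]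
    [Finite X] [Group Y] (hexp : ∀ x : X, x ^ (m * 2 ^ 3) = 1) (f : X →* Y)
    (hf : Function.Surjective f) (hker : ∀ w ∈ f.ker, ∃ k, w ^ (2 ^ k) = 1) {u : X}
    (A : Subgroup Y) (hA : IsPGroup r A) (hAm : ∀ a ∈ A, a ^ m = 1)
    (huA : ∀ a ∈ A, f u * a * (f u)⁻¹ ∈ A) (hu : f u ^ (2 ^ 3) = 1)
    (hgen : ∀ B : Subgroup Y, (∀ a ∈ A, f u ^ 4 * a * (f u ^ 4)⁻¹ = a⁻¹ → a ∈ B) → A ≤ B)
    (E' : Subgroup X) (hE' : IsPGroup r E') (hE1 : ∀ e ∈ E', f e ∈ ⁅A, A⁆)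
    (hE2 : ∀ c ∈ ⁅A, A⁆, ∃ e ∈ E', f e = c) :
    ∀ g ∈ normalizer (E' : Set X), f g ∈ A → (∃ k, g ^ (r ^ k) = 1) →
      ∀ w ∈ normalizer (E' : Set X), f w = 1 → g * w = w * g := by
  classical
  have hro : Odd r := hr.odd_of_ne_two hr2
  obtain ⟨N, hNdef⟩ : ∃ N : Subgroup X, N = normalizer (E' : Set X) := ⟨_, rfl⟩
  rw [← hNdef]
  have hEN : E' ≤ N := by
    rw [hNdef]
    exact le_normalizer
  -- `E'` centralizes the elements of the kernel in `N`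
  have hcent : ∀ e ∈ E', ∀ w ∈ N, f w = 1 → e * w = w * e := by
    intro e he w hw hfw
    have h1 : w * e⁻¹ * w⁻¹ ∈ E' := by
      rw [hNdef] at hw
      exact (mem_normalizer_iff.1 hw _).1 (E'.inv_mem he)
    have h2 : e * (w * e⁻¹ * w⁻¹) ∈ E' := E'.mul_mem he h1
    have h3 : f (e * (w * e⁻¹ * w⁻¹)) = 1 := by simp [hfw]
    obtain ⟨k, hk⟩ := hker _ (MonoidHom.mem_ker.2 h3)
    obtain ⟨j, hj⟩ := hE' ⟨_, h2⟩
    have hj' : (e * (w * e⁻¹ * w⁻¹)) ^ (r ^ j) = 1 := by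
      have := congrArg Subtype.val hj
      simpa using this
    have h4 := ztl_one hro hk hj'
    have h5 : e * (w * e⁻¹ * w⁻¹) * w * e = w * e := by rw [h4, one_mul]
    rw [← h5]
    group
  -- elements normalizing `A` can be moved into `N`
  have hmove : ∀ h : X, (∀ a ∈ A, f h * a * (f h)⁻¹ ∈ A) → ∃ w, f w = 1 ∧ w * h ∈ N := by
    intro h hh
    have hcomm : ∀ c ∈ ⁅A, A⁆, f h * c * (f h)⁻¹ ∈ ⁅A, A⁆ := by
      intro c hc
      have h1 : ⁅A, A⁆ ≤ (⁅A, A⁆).comap (MulAut.conj (f h)).toMonoidHom := by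
        rw [commutator_le]
        intro a ha b hb
        rw [mem_comap]
        have h2 : (MulAut.conj (f h)).toMonoidHom ⁅a, b⁆ =
            ⁅f h * a * (f h)⁻¹, f h * b * (f h)⁻¹⁆ := by
          simp only [MulEquiv.coe_toMonoidHom, MulAut.conj_apply, commutatorElement_def]
          group
        rw [h2]
        exact commutator_mem_commutator (hh a ha) (hh b hb)
      have h3 := h1 hc
      rw [mem_comap] at h3
      simpa using h3
    obtain ⟨w, hw, hw2⟩ := zt_frat hr hr2 f hker E' hE' (g := h) (by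
      intro e he
      obtain ⟨e', he', hfe⟩ := hE2 _ (hcomm _ (hE1 e he))
      exact ⟨e', he', hfe.symm⟩)
    refine ⟨w, MonoidHom.mem_ker.1 hw, ?_⟩
    rw [hNdef]
    exact mem_normalizer_fintype hw2
  obtain ⟨w0, hw0, hu1N⟩ := hmove u huA
  -- the group `N`
  let q : N →* Y := f.comp N.subtype
  have hq : ∀ x : N, q x = f (x : X) := fun _ => rfl
  let P1 : Subgroup N := q.ker
  have hP1 : ∀ x : N, x ∈ P1 ↔ f (x : X) = 1 := fun x => MonoidHom.mem_ker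
  have hPG : IsPGroup 2 P1 := by
    rintro ⟨x, hx⟩
    obtain ⟨k, hk⟩ := hker (x : X) (MonoidHom.mem_ker.2 ((hP1 x).1 hx))
    exact ⟨k, Subtype.ext (Subtype.ext (by simpa using hk))⟩
  obtain ⟨V, _, _, _, τ, φ, hφs, hφa, hφe, hφ1, hφc⟩ := tw_module Nat.prime_two P1 hPG
  let u1 : N := ⟨w0 * u, hu1N⟩
  have hfu1 : q u1 = f u := by
    show f (w0 * u) = f u
    rw [map_mul, hw0, one_mul]
  have hτe : ∀ e : N, (e : X) ∈ E' → τ e = 1 := by
    intro e he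
    refine LinearMap.ext fun v => ?_
    obtain ⟨x, rfl⟩ := hφs v
    rw [← hφe e x]
    have h1 : (e : X) * ((x : N) : X) = ((x : N) : X) * (e : X) :=
      hcent e he _ (x : N).2 ((hP1 x).1 x.2)
    have h2 : e * (x : N) * e⁻¹ = (x : N) := by
      apply Subtype.ext
      show (e : X) * ((x : N) : X) * (e : X)⁻¹ = ((x : N) : X)
      rw [h1, mul_inv_cancel_right]
    rw [show (1 : Module.End (ZMod 2) V) (φ x) = φ x from rfl]
    congr 1
    exact Subtype.ext h2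
  let B1 : Subgroup N := A.comap q
  have hB1 : ∀ x : N, x ∈ B1 ↔ f (x : X) ∈ A := fun x => Iff.rfl
  have hlift : ∀ a ∈ A, ∃ g : N, f (g : X) = a := by
    intro a ha
    obtain ⟨x, rfl⟩ := hf a
    obtain ⟨w, hw, hwN⟩ := hmove x fun b hb => A.mul_mem (A.mul_mem ha hb) (A.inv_mem ha)
    exact ⟨⟨w * x, hwN⟩, by show f (w * x) = f x; rw [map_mul, hw, one_mul]⟩
  -- `τ` depends only on the image modulo commutators
  have hτc : ∀ x : N, f (x : X) ∈ ⁅A, A⁆ → τ x = 1 := by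
    intro x hx
    obtain ⟨e, he, hfe⟩ := hE2 _ hx
    have h1 : x * (⟨e, hEN he⟩ : N)⁻¹ ∈ P1 := by
      rw [hP1]
      show f ((x : X) * e⁻¹) = 1
      rw [map_mul, map_inv, hfe, mul_inv_cancel]
    have h2 : x = x * (⟨e, hEN he⟩ : N)⁻¹ * ⟨e, hEN he⟩ := by group
    rw [h2, map_mul, hφ1 _ h1, hτe _ he, one_mul]
  have hcl : ∀ x ∈ B1, ∀ y ∈ B1, τ (x * y) = τ (y * x) := by
    intro x hx y hy
    have h1 : τ (x * y * x⁻¹ * y⁻¹) = 1 := by
      apply hτc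
      show f ((x : X) * y * (x : X)⁻¹ * (y : X)⁻¹) ∈ ⁅A, A⁆
      have h2 : f ((x : X) * y * (x : X)⁻¹ * (y : X)⁻¹) = ⁅f (x : X), f (y : X)⁆ := by
        simp [commutatorElement_def]
      rw [h2]
      exact commutator_mem_commutator hx hy
    have h3 : x * y = (x * y * x⁻¹ * y⁻¹) * (y * x) := by group
    rw [h3, map_mul, h1, one_mul]
  have hτq : ∀ x y : N, f (x : X) = f (y : X) → τ x = τ y := by
    intro x y hxy
    have h1 : x * y⁻¹ ∈ P1 := by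
      rw [hP1]
      show f ((x : X) * (y : X)⁻¹) = 1
      rw [map_mul, map_inv, hxy, mul_inv_cancel]
    have h2 : x = x * y⁻¹ * y := by group
    rw [h2, map_mul, hφ1 _ h1, one_mul]
  have huni : ∀ x y : N, τ x * τ y = 1 → τ x = τ y⁻¹ := by
    intro x y hxy
    have h1 : τ y * τ y⁻¹ = 1 := by rw [← map_mul, mul_inv_cancel, map_one]
    calc τ x = τ x * (τ y * τ y⁻¹) := by rw [h1, mul_one]
      _ = τ y⁻¹ := by rw [← mul_assoc, hxy, one_mul]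
  have hfu : f (u1 : X) = f u := hfu1
  have hconj : ∀ x y : N, τ (u1 ^ 4 * (x * y) * (u1 ^ 4)⁻¹) =
      τ (u1 ^ 4 * x * (u1 ^ 4)⁻¹) * τ (u1 ^ 4 * y * (u1 ^ 4)⁻¹) := by
    intro x y
    rw [← map_mul]
    congr 1
    group
  let A2 : Subgroup Y :=
    { carrier := {a | a ∈ A ∧ ∀ g : N, f (g : X) = a → τ (u1 ^ 4 * g * (u1 ^ 4)⁻¹) = τ g⁻¹}
      one_mem' := by
        refine ⟨A.one_mem, fun g hg => ?_⟩
        rw [hτq (u1 ^ 4 * g * (u1 ^ 4)⁻¹) 1 (by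
          show f ((u1 : X) ^ 4 * g * ((u1 : X) ^ 4)⁻¹) = f 1
          rw [map_mul, map_mul, hg, mul_one, ← map_mul, mul_inv_cancel]), hτq g⁻¹ 1 (by
          show f ((g : X)⁻¹) = f 1
          rw [map_inv, hg, inv_one, map_one])]
      mul_mem' := by
        rintro a b ⟨ha, ha'⟩ ⟨hb, hb'⟩
        refine ⟨A.mul_mem ha hb, fun g hg => ?_⟩
        obtain ⟨g1, h1⟩ := hlift a ha
        obtain ⟨g2, h2⟩ := hlift b hb
        have h3 : f (g : X) = f ((g1 * g2 : N) : X) := by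
          show f (g : X) = f ((g1 : X) * g2)
          rw [map_mul, h1, h2, hg]
        have h4 : τ (u1 ^ 4 * g * (u1 ^ 4)⁻¹) = τ (u1 ^ 4 * (g1 * g2) * (u1 ^ 4)⁻¹) := hτq _ _ (by
          show f ((u1 : X) ^ 4 * g * ((u1 : X) ^ 4)⁻¹) = f ((u1 : X) ^ 4 * ((g1 * g2 : N) : X) * ((u1 : X) ^ 4)⁻¹)
          rw [map_mul, map_mul, map_mul, map_mul, h3])
        have h5 : τ g⁻¹ = τ (g1 * g2)⁻¹ := hτq _ _ (by
          show f ((g : X)⁻¹) = f (((g1 * g2 : N) : X)⁻¹)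
          rw [map_inv, map_inv, h3])
        have h1A : g1⁻¹ ∈ B1 := B1.inv_mem (by rw [hB1, h1]; exact ha)
        have h2A : g2⁻¹ ∈ B1 := B1.inv_mem (by rw [hB1, h2]; exact hb)
        rw [h4, h5, hconj, ha' g1 h1, hb' g2 h2, ← map_mul, hcl _ h1A _ h2A, mul_inv_rev]
      inv_mem' := by
        rintro a ⟨ha, ha'⟩
        refine ⟨A.inv_mem ha, fun g hg => ?_⟩
        have h1 := ha' g⁻¹ (by
          show f ((g : X)⁻¹) = a
          rw [map_inv, hg, inv_inv])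
        rw [inv_inv] at h1
        refine huni _ _ ?_
        rw [← h1, ← hconj, mul_inv_cancel, mul_one, mul_inv_cancel, map_one] }
  have hA2 : A ≤ A2 := by
    refine hgen A2 fun a ha hinv => ?_
    refine ⟨ha, fun g hg => huni _ _ ?_⟩
    rw [← map_mul]
    have h1 : (u1 ^ 4 * g * (u1 ^ 4)⁻¹) * g ∈ P1 := by
      rw [hP1]
      show f ((u1 : X) ^ 4 * g * ((u1 : X) ^ 4)⁻¹ * g) = 1
      rw [map_mul, map_mul, map_mul, map_inv, map_pow, hfu, hg, hinv, inv_mul_cancel]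
    exact hφ1 _ h1
  have h8 : ∀ v : N, f (v : X) = f u → v ^ 8 = 1 := by
    intro v hv
    apply Subtype.ext
    show (v : X) ^ 8 = 1
    obtain ⟨k, hk⟩ := hker ((v : X) ^ 8) (MonoidHom.mem_ker.2 (by
      rw [map_pow, hv]
      exact hu))
    refine ztl_one hm hk (n := 1) ?_
    rw [pow_one, ← pow_mul, mul_comm]
    exact hexp (v : X)
  have hNn : ∑ i ∈ Finset.range (2 ^ 3), (τ u1) ^ i = 0 := by
    refine LinearMap.ext fun v => ?_
    obtain ⟨x, rfl⟩ := hφs v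
    rw [show (2 : ℕ) ^ 3 = 8 by norm_num]
    refine tw_norm_zero P1 τ φ hφa hφe (h8 u1 hfu) x (h8 _ ?_)
    show f (((x : N) : X) * (u1 : X)) = f u
    rw [map_mul, (hP1 x).1 x.2, one_mul, hfu]
  have hfin := zt_avg (a := 3) (by norm_num) hm τ B1 (u := u1) (fun x hx => hφ1 _ (by
      rw [hP1]
      show f ((x : X) ^ m) = 1
      rw [map_pow]
      exact hAm _ hx)) hcl (fun x hx => by
      rw [hB1]
      show f ((u1 : X) * x * (u1 : X)⁻¹) ∈ A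
      rw [map_mul, map_mul, map_inv, hfu]
      exact huA _ hx) (hφ1 _ (by
      rw [hP1]
      show f ((u1 : X) ^ (2 ^ 3)) = 1
      rw [map_pow, hfu]
      exact hu)) (fun x hx => (hA2 hx).2 x rfl) hNn
  intro g hg hgA hgr w hw hfw
  obtain ⟨k, hk⟩ := hgr
  have h1 := hφc r k ⟨g, hg⟩ hr hr2 (Subtype.ext hk) (hfin ⟨g, hg⟩ hgA) ⟨w, hw⟩ (by
    rw [hP1]
    exact hfw)
  exact congrArg Subtype.val h1

end Pool.Agent.Lib.MP_544bd1_al
end

section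

/-!
Theorem Z3, Case A, `P` abelian: lifting the minimal section.
-/

namespace Pool.Agent.Lib.MP_544bd1_al

open Subgroup

/-- a subgroup of index prime to `p` has full image in a `p`-group -/
private theorem zt_U_image {F F' : Type} [Group F] [Group F'] [Finite F] {p k : ℕ}
    (hp : p.Prime) (π : F →* F') (S D : Subgroup F) (hSD : S ≤ D) (hk : Nat.card D = Nat.card S * k)
    (hpk : ¬ p ∣ k) (hD : IsPGroup p (D.map π)) {d : F} (hd : d ∈ D) : π d ∈ S.map π := by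
  have : Fact p.Prime := ⟨hp⟩
  have hfin : Finite (D.map π) := by
    have : Finite (π.range) := Set.finite_range π
    exact Finite.of_surjective _ (π.subgroupMap_surjective D)
  set f := π.subgroupMap D with hf
  have hfs : Function.Surjective f := π.subgroupMap_surjective D
  set H := S.subgroupOf D with hH
  have h1 : Nat.card H = Nat.card S := Nat.card_congr (Subgroup.subgroupOfEquivOfLe hSD).toEquiv
  have h2 : H.index = k := by
    have h3 := H.card_mul_index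
    rw [h1, hk] at h3
    exact Nat.eq_of_mul_eq_mul_left Nat.card_pos h3
  have h3 : (H.map f).index ∣ k := by
    rw [← h2]
    exact H.index_map_dvd hfs
  obtain ⟨m, hm⟩ := IsPGroup.iff_card.1 hD
  have h4 : (H.map f).index ∣ p ^ m := by
    rw [← hm]
    exact (H.map f).index_dvd_card
  obtain ⟨j, _, hj⟩ := (Nat.dvd_prime_pow hp).1 h4
  have h5 : (H.map f).index = 1 := by
    rcases Nat.eq_zero_or_pos j with h0 | h0
    · rw [hj, h0, pow_zero]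
    · exfalso
      apply hpk
      refine dvd_trans ?_ h3
      rw [hj]
      exact dvd_pow_self p h0.ne'
  have h6 : f ⟨d, hd⟩ ∈ H.map f := by
    rw [Subgroup.index_eq_one.1 h5]
    trivial
  obtain ⟨s, hs, hsd⟩ := h6
  refine ⟨s, hs, ?_⟩
  exact congrArg Subtype.val hsd

/-- **Lifting.** In the situation of `zt_lift1`, if `x ∈ X` normalizes `E'` and `f x` normalizes `A`,
then `A` is the image of an `r`-group `R'` normalized by `x`.

Proof. Let `N = normalizer E'` (`x ∈ N` by finiteness), `B₁ = {g ∈ N | f g ∈ A}`, `P₁ = {g ∈ N | f g = 1}`.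
`f B₁ = A`: for `a = f g` there is `w ∈ f.ker` with `w * g ∈ N` by `zt_frat` (`a` normalizes `⁅A, A⁆`).
Let `R'` be a Sylow `r`-subgroup of `B₁` (as a subgroup of `X`: `Nat.card B₁ = Nat.card R' * k`,
`¬ r ∣ k`). `f R' = A` by `tw_U_image` (TwU1.lean; `B₁.map f = A` is an `r`-group). So
`B₁ = R' * P₁`: for `g ∈ B₁` take `t ∈ R'` with `f t = f g`. `R'` centralizes `P₁` by `zt_lift1`. An element
`g = t * w ∈ B₁` (`t ∈ R'`, `w ∈ P₁`) with `g ^ (r ^ k) = 1` is in `R'`: for large `k`,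
`1 = g ^ (r ^ k) = t ^ (r ^ k) * w ^ (r ^ k) = w ^ (r ^ k)`, and `w` is a 2-element, so `w = 1`. So `R'` is
the set of the `r`-elements of `B₁`; `x` normalizes `B₁`, so it normalizes `R'`. -/
theorem zt_lift {m r : ℕ} (hm : Odd m) (hr : r.Prime) (hr2 : r ≠ 2) {X Y : Type} [Group X]
    [Finite X] [Group Y] (hexp : ∀ x : X, x ^ (m * 2 ^ 3) = 1) (f : X →* Y)
    (hf : Function.Surjective f) (hker : ∀ w ∈ f.ker, ∃ k, w ^ (2 ^ k) = 1) {x u : X}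
    (A : Subgroup Y) (hA : IsPGroup r A) (hAm : ∀ a ∈ A, a ^ m = 1)
    (hxA : ∀ a ∈ A, f x * a * (f x)⁻¹ ∈ A)
    (huA : ∀ a ∈ A, f u * a * (f u)⁻¹ ∈ A) (hu : f u ^ (2 ^ 3) = 1)
    (hgen : ∀ B : Subgroup Y, (∀ a ∈ A, f u ^ 4 * a * (f u ^ 4)⁻¹ = a⁻¹ → a ∈ B) → A ≤ B)
    (E' : Subgroup X) (hE' : IsPGroup r E') (hxE : ∀ e ∈ E', x * e * x⁻¹ ∈ E')
    (hE1 : ∀ e ∈ E', f e ∈ ⁅A, A⁆) (hE2 : ∀ c ∈ ⁅A, A⁆, ∃ e ∈ E', f e = c) :
    ∃ R' : Subgroup X, IsPGroup r R' ∧ (∀ g ∈ R', x * g * x⁻¹ ∈ R') ∧ (∀ g ∈ R', f g ∈ A) ∧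
      ∀ a ∈ A, ∃ g ∈ R', f g = a := by
  have hrf : Fact r.Prime := ⟨hr⟩
  set N := normalizer (E' : Set X) with hN
  have hxN : x ∈ N := mem_normalizer_fintype (fun n hn => hxE n hn)
  have hcA : ⁅A, A⁆ ≤ A := by
    rw [commutator_le]
    intro a ha b hb
    rw [commutatorElement_def]
    exact A.mul_mem (A.mul_mem (A.mul_mem ha hb) (A.inv_mem ha)) (A.inv_mem hb)
  have hAC : ∀ a ∈ A, ∀ c ∈ ⁅A, A⁆, a * c * a⁻¹ ∈ ⁅A, A⁆ := by
    intro a ha c hc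
    have h1 : (⁅A, A⁆).map (MulAut.conj a).toMonoidHom ≤ ⁅A, A⁆ := by
      rw [map_commutator]
      have h2 : A.map (MulAut.conj a).toMonoidHom ≤ A := by
        rintro _ ⟨b, hb, rfl⟩
        exact A.mul_mem (A.mul_mem ha hb) (A.inv_mem ha)
      exact commutator_mono h2 h2
    exact h1 (mem_map_of_mem _ hc)
  set B₁ : Subgroup X := N ⊓ A.comap f with hB₁
  have hBA : ∀ a ∈ A, ∃ g ∈ B₁, f g = a := by
    intro a ha
    obtain ⟨g, rfl⟩ := hf a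
    obtain ⟨w, hw, hwn⟩ := zt_frat hr hr2 f hker E' hE' (g := g) (by
      intro e he
      obtain ⟨e', he', hfe'⟩ := hE2 _ (hAC (f g) ha (f e) (hE1 e he))
      exact ⟨e', he', hfe'.symm⟩)
    have h1 : f (w * g) = f g := by
      rw [map_mul, MonoidHom.mem_ker.mp hw, one_mul]
    refine ⟨w * g, ⟨mem_normalizer_fintype (fun n hn => hwn n hn), ?_⟩, h1⟩
    change f (w * g) ∈ A
    rw [h1]
    exact ha
  obtain ⟨R, hR⟩ : ∃ R : Sylow r B₁, True := ⟨default, trivial⟩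
  set R' : Subgroup X := (R : Subgroup B₁).map B₁.subtype with hR'
  have hR'B : R' ≤ B₁ := by
    rintro _ ⟨y, -, rfl⟩
    exact y.2
  have hR'p : IsPGroup r R' := R.isPGroup'.map _
  have hcard : Nat.card B₁ = Nat.card R' * (R : Subgroup B₁).index := by
    rw [hR', Subgroup.card_map_of_injective B₁.subtype_injective]
    exact (Subgroup.card_mul_index _).symm
  have hBmap : B₁.map f ≤ A := by
    rintro _ ⟨g, hg, rfl⟩
    exact hg.2
  have hBp : IsPGroup r (B₁.map f) := hA.to_le hBmap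
  have himg : ∀ d ∈ B₁, f d ∈ R'.map f := fun d hd =>
    zt_U_image hr f R' B₁ hR'B hcard R.not_dvd_index hBp hd
  have hcen := zt_lift1 hm hr hr2 hexp f hf hker A hA hAm huA hu hgen E' hE' hE1 hE2
  refine ⟨R', hR'p, ?_, fun g hg => (hR'B hg).2, ?_⟩
  · intro g hg
    have hb : x * g * x⁻¹ ∈ B₁ := by
      refine ⟨N.mul_mem (N.mul_mem hxN (hR'B hg).1) (N.inv_mem hxN), ?_⟩
      change f (x * g * x⁻¹) ∈ A
      rw [map_mul, map_mul, map_inv]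
      exact hxA _ (hR'B hg).2
    obtain ⟨t, htR, ht⟩ := himg _ hb
    set b := x * g * x⁻¹ with hbd
    have hwN : t⁻¹ * b ∈ N := N.mul_mem (N.inv_mem (hR'B htR).1) hb.1
    have hfw : f (t⁻¹ * b) = 1 := by
      rw [map_mul, map_inv, ht, inv_mul_cancel]
    obtain ⟨k₁, hk₁⟩ := hR'p ⟨t, htR⟩
    have ht1 : t ^ (r ^ k₁) = 1 := by simpa using congrArg Subtype.val hk₁
    obtain ⟨k₂, hk₂⟩ := hR'p ⟨g, hg⟩
    have hg1 : g ^ (r ^ k₂) = 1 := by simpa using congrArg Subtype.val hk₂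
    have hb1 : b ^ (r ^ k₂) = 1 := by
      rw [hbd, conj_pow, hg1, mul_one, mul_inv_cancel]
    have hcm : t * (t⁻¹ * b) = (t⁻¹ * b) * t :=
      hcen t (hR'B htR).1 (hR'B htR).2 ⟨k₁, ht1⟩ _ hwN hfw
    have hcm' : Commute t (t⁻¹ * b) := hcm
    have hK1 : t ^ (r ^ (k₁ + k₂)) = 1 := by
      rw [pow_add, pow_mul, ht1, one_pow]
    have hK2 : b ^ (r ^ (k₁ + k₂)) = 1 := by
      rw [pow_add, mul_comm, pow_mul, hb1, one_pow]
    have hw1 : (t⁻¹ * b) ^ (r ^ (k₁ + k₂)) = 1 := by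
      have h1 := hcm'.mul_pow (r ^ (k₁ + k₂))
      rw [mul_inv_cancel_left, hK1, hK2, one_mul] at h1
      exact h1.symm
    obtain ⟨j, hj⟩ := hker _ (MonoidHom.mem_ker.mpr hfw)
    have hcop : Nat.Coprime (r ^ (k₁ + k₂)) (2 ^ j) := by
      apply Nat.Coprime.pow
      exact (Nat.coprime_primes hr Nat.prime_two).mpr hr2
    have h2 := tw_one hcop hw1 hj
    have h3 : t = b := inv_mul_eq_one.mp h2
    rw [← h3]
    exact htR
  · intro a ha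
    obtain ⟨g, hg, rfl⟩ := hBA a ha
    obtain ⟨t, htR, ht⟩ := himg g hg
    exact ⟨t, htR, ht⟩

end Pool.Agent.Lib.MP_544bd1_al
end

section

/-!
Theorem Z3, Case A, `P` abelian: the group `T`, case (b).
-/

namespace Pool.Agent.Lib.MP_544bd1_al

open Subgroup

/-- **Final step of (b)**: a fixed point of `x` in `T₁ = F ⧸ krad m F` inverted by `z` modulo
`O_2(T₁)` gives an odd element of `F` centralized by `x` and inverted by `z`.

Proof. `x` is a 2-element acting on `krad m F` (odd order, `tw_card_cop`): let `mk g₀ = t`;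
`g₀⁻¹ * (x * g₀ * x⁻¹) ∈ krad m F`; `tw_coset_fix` (TwR4.lean, `p := 2`, `k := 3`) gives `g` with
`mk g = t` and `x * g = g * x`. `h = z * g * z⁻¹ * g⁻¹` commutes with `x` and is inverted by `z`
(`z ^ 2 = 1`); `zp h = c * e * c⁻¹ * e⁻¹ = e⁻¹ * e⁻¹` where `e = zp g`, `c = zp z`. Let `l ≡ 0 mod 2 ^ 3`,
`l ≡ 1 mod m`, `s = h ^ l`: `s ^ m = 1`, `zp s = (e⁻¹ * e⁻¹) ^ l = e⁻¹ * e⁻¹` (`e ^ m = 1`), which is
`≠ 1` (`fr_one_two`-like: `e ^ 2 = 1`, `e ^ m = 1` give `e = 1`). -/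
theorem zt_fin_lift {m : ℕ} (hm : Odd m) {F : Type} [Group F] [Finite F]
    (hexp : ∀ x : F, x ^ (m * 2 ^ 3) = 1) {x z : F} (hx : x ^ (2 ^ 3) = 1) (hz2 : z ^ 2 = 1)
    (hxz : x * z = z * x) (t : F ⧸ krad m F)
    (ht : QuotientGroup.mk' (krad m F) x * t = t * QuotientGroup.mk' (krad m F) x)
    (he : (QuotientGroup.mk' (krad (2 ^ 3) (F ⧸ krad m F)) t) ^ m = 1)
    (he1 : QuotientGroup.mk' (krad (2 ^ 3) (F ⧸ krad m F)) t ≠ 1)
    (hze : zp m 3 F z * QuotientGroup.mk' (krad (2 ^ 3) (F ⧸ krad m F)) t * (zp m 3 F z)⁻¹ =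
      (QuotientGroup.mk' (krad (2 ^ 3) (F ⧸ krad m F)) t)⁻¹) :
    ∃ s : F, s ≠ 1 ∧ s ^ m = 1 ∧ x * s = s * x ∧ z * s * z⁻¹ = s⁻¹ := by
  obtain ⟨g₀, rfl⟩ := QuotientGroup.mk'_surjective (krad m F) t
  have hmem : g₀⁻¹ * (x * g₀ * x⁻¹) ∈ krad m F := by
    have h1 : QuotientGroup.mk' (krad m F) (g₀⁻¹ * (x * g₀ * x⁻¹)) = 1 := by
      rw [map_mul, map_mul, map_mul, ht, map_inv, map_inv]
      group
    rwa [← QuotientGroup.ker_mk' (krad m F), MonoidHom.mem_ker]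
  have hodd : ¬ 2 ∣ m := by
    intro h2
    exact (Nat.not_even_iff_odd.mpr hm) (even_iff_two_dvd.mpr h2)
  have hcard : ¬ 2 ∣ Nat.card (krad m F) :=
    tw_card_cop Nat.prime_two hodd _ (tw_krad_pow (zt_cop hm 3) hexp)
  have hnorm : ∀ y ∈ krad m F, x * y * x⁻¹ ∈ krad m F := fun y hy =>
    (inferInstance : (krad m F).Normal).conj_mem y hy x
  obtain ⟨g, hg, hxg⟩ := tw_coset_fix Nat.prime_two hx (krad m F) hcard hnorm hmem
  have hgt : QuotientGroup.mk' (krad m F) g = QuotientGroup.mk' (krad m F) g₀ := by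
    symm
    have h1 : QuotientGroup.mk' (krad m F) (g₀⁻¹ * g) = 1 := by
      rwa [← QuotientGroup.ker_mk' (krad m F), MonoidHom.mem_ker] at hg
    rw [map_mul, map_inv, inv_mul_eq_one] at h1
    exact h1
  rw [← hgt] at he he1 hze
  set e := zp m 3 F g with hedef
  have hzpe : QuotientGroup.mk' (krad (2 ^ 3) (F ⧸ krad m F)) (QuotientGroup.mk' (krad m F) g)
      = e := rfl
  rw [hzpe] at he he1 hze
  have hzi : z⁻¹ = z := fr_inv_of_sq hz2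
  have hzz : z * z = 1 := fr_mul_self hz2
  obtain ⟨l, hl1, hl2⟩ := Nat.chineseRemainder (zt_cop hm 3) 1 0
  set h := z * g * z⁻¹ * g⁻¹ with hh
  have hinv : z * h * z⁻¹ = h⁻¹ := by
    rw [hh, hzi]
    calc z * (z * g * z * g⁻¹) * z = (z * z) * g * z * g⁻¹ * z := by group
      _ = g * z * g⁻¹ * z := by rw [hzz, one_mul]
      _ = g * z⁻¹ * g⁻¹ * z⁻¹ := by rw [hzi]
      _ = (z * g * z * g⁻¹)⁻¹ := by group
  have hxz' : Commute x z := hxz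
  have hxg' : Commute x g := hxg
  have hxh : Commute x h := ((hxz'.mul_right hxg').mul_right hxz'.inv_right).mul_right
    hxg'.inv_right
  have hzph : zp m 3 F h = e⁻¹ * e⁻¹ := by
    rw [hh, map_mul, map_mul, map_mul, map_inv, map_inv, ← hedef, hze]
  have hl8 : 2 ^ 3 ∣ l := (Nat.modEq_zero_iff_dvd).mp hl2
  have hhm : (h ^ l) ^ m = 1 := by
    obtain ⟨j, rfl⟩ := hl8
    rw [← pow_mul, show 2 ^ 3 * j * m = (m * 2 ^ 3) * j by ring, pow_mul, hexp, one_pow]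
  refine ⟨h ^ l, ?_, hhm, hxh.pow_right l, ?_⟩
  · intro h1
    have h2 : (e⁻¹ * e⁻¹) ^ l = 1 := by
      rw [← hzph, ← map_pow, h1, map_one]
    have h3 : (e⁻¹ * e⁻¹) ^ m = 1 := by
      rw [← pow_two, ← pow_mul, mul_comm, pow_mul, inv_pow, he, inv_one, one_pow]
    have h4 : (e⁻¹ * e⁻¹) ^ l = e⁻¹ * e⁻¹ := by
      rw [pow_eq_pow_mod l h3, hl1, ← pow_eq_pow_mod 1 h3, pow_one]
    rw [h4] at h2
    apply he1
    apply fr_one_two hm he
    have h5 : (e * e)⁻¹ = 1 := by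
      rw [mul_inv_rev]
      exact h2
    rw [pow_two]
    exact inv_eq_one.mp h5
  · rw [← conj_pow, hinv, inv_pow]

/-- **Case (b).**

Proof. Let `z = (p * x) ^ 4` (`zt_z`: `z ∈ P` central in `P ⊔ zpowers x`, `z ^ 2 = 1`), `H = ZH m 3 F`,
`f = zp m 3 F`. `hz` says `f z ≠ 1`. `H` is solvable, of exponent `m * 2 ^ 3`, `krad (2 ^ 3) H = ⊥`,
`ZRep m 3 H` (`zt_sol`, `zt_exp`, `zt_bot`, `zt_rep`). `zt_minH` for
`S = P.map f ⊔ zpowers (f x)`, `f z = (f p * f x) ^ 4`: `r`, `A`, `D : ZMinA m r S A (f z)`.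
`ZMinA.gen`: `A` is generated by elements inverted by `f z`. `zt_A1x`: `(f x) ^ 2` inverts the
commutators of `A`, so it inverts `⁅A, A⁆` (commutative: `D.cl`; closure induction).
Let `T = F ⧸ krad m F`, `π : F →* T`, `π₂ : T →* H` (`QuotientGroup.mk'`), `π₂.ker = krad (2 ^ 3) T`
(elements satisfy `w ^ (2 ^ 3) = 1`, `tw_krad_pow`). `zt_spl` for `π₂`, `π x`, `E = ⁅A, A⁆` (an
`r`-group as `⁅A, A⁆ ≤ A`): `E' ≤ T`. `zt_lift` for `π₂`, `x := π x`, `u := π (p * x)`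
(`(f u) ^ 4 = f z`), `E'`: `R' ≤ T` an `r`-group normalized by `π x`, mapped onto `A`.
`zt_FP` in `H` for `A`, `P.map f`: `e ∈ A`, `e ≠ 1`, `f x * e = e * f x`, `f z * e * (f z)⁻¹ = e⁻¹`.
Let `t ∈ R'` with `π₂ t = e`; `π x * t * (π x)⁻¹ * t⁻¹ ∈ R'` is in the kernel of `π₂`, so it is `1` (`R'` is
an `r`-group, `r ≠ 2`, the kernel a 2-group): `π x` commutes with `t`. `zt_fin_lift`. -/
theorem zt_A1Tb {m : ℕ} (hm : Odd m) {F : Type} [Group F] [Finite F]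
    (hsol : Group.IsSolvable F) (hexp : ∀ x : F, x ^ (m * 2 ^ 3) = 1) {P : Subgroup F}
    {x p : F} (hP : ∀ q ∈ P, q ^ 2 = 1) (hx : x ^ 4 = 1) (hPx : ∀ q ∈ P, x * q * x⁻¹ ∈ P)
    (hp : p ∈ P) (hz : ¬ InOP m (2 ^ 3) (⊤ : Subgroup F) ((p * x) ^ 4)) :
    ∃ s : F, s ≠ 1 ∧ s ^ m = 1 ∧ x * s = s * x ∧ (p * x) ^ 4 * s * ((p * x) ^ 4)⁻¹ = s⁻¹ := by
  obtain ⟨_, hzP, hxz, hz2, hPz, _⟩ := zt_z P hP hx hPx hp
  set f := zp m 3 F with hf
  -- data in `H`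
  have hP' : ∀ q ∈ P.map f, q ^ 2 = 1 := by
    rintro _ ⟨q, hq, rfl⟩
    rw [← map_pow, hP q hq, map_one]
  have hx' : f x ^ 4 = 1 := by rw [← map_pow, hx, map_one]
  have hPx' : ∀ q ∈ P.map f, f x * q * (f x)⁻¹ ∈ P.map f := by
    rintro _ ⟨q, hq, rfl⟩
    refine ⟨x * q * x⁻¹, hPx q hq, ?_⟩
    rw [map_mul, map_mul, map_inv]
  have hp' : f p ∈ P.map f := mem_map_of_mem f hp
  obtain ⟨_, hzP', hxz', hz2', hPz', _⟩ := zt_z (P.map f) hP' hx' hPx' hp'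
  have hfz : f ((p * x) ^ 4) = (f p * f x) ^ 4 := by rw [map_pow, map_mul]
  have hz1' : (f p * f x) ^ 4 ≠ 1 := by
    intro h1
    apply hz
    rw [zt_op_iff hm hexp, ← hf, hfz, h1]
  set S : Subgroup (ZH m 3 F) := P.map f ⊔ zpowers (f x) with hS
  have hPS : P.map f ≤ S := le_sup_left
  have hxS : f x ∈ S := (le_sup_right : zpowers (f x) ≤ S) (mem_zpowers (f x))
  have hzS : (f p * f x) ^ 4 ∈ S := hPS hzP'
  have hzc : ∀ s ∈ S, s * (f p * f x) ^ 4 = (f p * f x) ^ 4 * s := by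
    have h1 : S ≤ centralizer {(f p * f x) ^ 4} := by
      rw [hS, sup_le_iff, zpowers_le]
      refine ⟨fun q hq => ?_, ?_⟩
      · rw [mem_centralizer_singleton_iff]
        exact hPz' q hq
      · rw [mem_centralizer_singleton_iff]
        exact hxz'
    intro s hs
    exact mem_centralizer_singleton_iff.mp (h1 hs)
  obtain ⟨r, A, D⟩ := zt_minH hm (zt_sol hsol) (zt_exp hexp) (zt_bot hm hexp) S hzS hz2' hz1'
  have hgen := D.gen hm hzS hz2' hzc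
  have hA1x := zt_A1x hm (zt_rep hm hsol hexp) hP' hx' hPx' hp' D
  -- the commutator subgroup
  have hcA : ⁅A, A⁆ ≤ A := by
    rw [commutator_le]
    intro a ha b hb
    rw [commutatorElement_def]
    exact A.mul_mem (A.mul_mem (A.mul_mem ha hb) (A.inv_mem ha)) (A.inv_mem hb)
  have hccen : ∀ c ∈ ⁅A, A⁆, ∀ w ∈ A, c * w = w * c := by
    have h1 : ⁅A, A⁆ ≤ centralizer (A : Set (ZH m 3 F)) := by
      rw [commutator_le]
      intro a ha b hb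
      rw [mem_centralizer_iff, commutatorElement_def]
      intro w hw
      exact (D.cl a ha b hb w hw).symm
    intro c hc w hw
    exact (mem_centralizer_iff.mp (h1 hc) w hw).symm
  have hcinv : ∀ c ∈ ⁅A, A⁆, f x ^ 2 * c * (f x ^ 2)⁻¹ = c⁻¹ := by
    intro c hc
    rw [Subgroup.commutator_def] at hc
    induction hc using closure_induction with
    | mem c hc =>
      obtain ⟨a, ha, b, hb, rfl⟩ := hc
      rw [commutatorElement_def]
      exact hA1x a ha b hb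
    | one => simp
    | mul c d hc hd ihc ihd =>
      rw [← Subgroup.commutator_def] at hc hd
      calc f x ^ 2 * (c * d) * (f x ^ 2)⁻¹
          = (f x ^ 2 * c * (f x ^ 2)⁻¹) * (f x ^ 2 * d * (f x ^ 2)⁻¹) := by group
        _ = c⁻¹ * d⁻¹ := by rw [ihc, ihd]
        _ = (d * c)⁻¹ := by rw [mul_inv_rev]
        _ = (c * d)⁻¹ := by rw [hccen c hc d (hcA hd)]
    | inv c hc ihc =>
      calc f x ^ 2 * c⁻¹ * (f x ^ 2)⁻¹ = (f x ^ 2 * c * (f x ^ 2)⁻¹)⁻¹ := by group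
        _ = c⁻¹⁻¹ := by rw [ihc]
  have hxA : ∀ a ∈ A, f x * a * (f x)⁻¹ ∈ A := D.inv (f x) hxS
  have hxC : ∀ c ∈ ⁅A, A⁆, f x * c * (f x)⁻¹ ∈ ⁅A, A⁆ := by
    intro c hc
    have h1 : (⁅A, A⁆).map (MulAut.conj (f x)).toMonoidHom ≤ ⁅A, A⁆ := by
      rw [map_commutator]
      have h2 : A.map (MulAut.conj (f x)).toMonoidHom ≤ A := by
        rintro _ ⟨a, ha, rfl⟩
        exact hxA a ha
      exact commutator_mono h2 h2
    exact h1 (mem_map_of_mem _ hc)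
  -- the group `T`
  set π : F →* F ⧸ krad m F := QuotientGroup.mk' (krad m F) with hπ
  set π₂ : (F ⧸ krad m F) →* ZH m 3 F := QuotientGroup.mk' (krad (2 ^ 3) (F ⧸ krad m F)) with hπ₂
  have hff : ∀ g : F, f g = π₂ (π g) := fun g => rfl
  have hexpT : ∀ t : F ⧸ krad m F, t ^ (m * 2 ^ 3) = 1 := tw_exp_quot hexp _
  have hπ₂s : Function.Surjective π₂ := QuotientGroup.mk'_surjective _
  have hker : ∀ w ∈ π₂.ker, ∃ k, w ^ (2 ^ k) = 1 := by
    intro w hw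
    rw [hπ₂, QuotientGroup.ker_mk'] at hw
    exact ⟨3, tw_krad_pow (zt_cop hm 3).symm (tw_exp_comm hexpT) w hw⟩
  have hxT : π x ^ 4 = 1 := by rw [← map_pow, hx, map_one]
  have hCp : IsPGroup r (⁅A, A⁆ : Subgroup (ZH m 3 F)) := D.pg.to_le hcA
  obtain ⟨E', hE', hxE', hE1, hE2⟩ := zt_spl D.hr D.hr2 π₂ hπ₂s hker hxT ⁅A, A⁆ hCp
    (fun e he e' he' => hccen e he e' (hcA he')) hxC hcinv
  have huA : ∀ a ∈ A, π₂ (π (p * x)) * a * (π₂ (π (p * x)))⁻¹ ∈ A := by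
    intro a ha
    refine D.inv _ ?_ a ha
    rw [← hff, map_mul]
    exact S.mul_mem (hPS hp') hxS
  have hu : π₂ (π (p * x)) ^ (2 ^ 3) = 1 := by
    rw [← hff, map_mul]
    have h1 : ∀ y : ZH m 3 F, (y ^ 4) ^ 2 = 1 → y ^ (2 ^ 3) = 1 := by
      intro y hy
      rw [← pow_mul] at hy
      exact hy
    exact h1 _ hz2'
  have hgen' : ∀ B : Subgroup (ZH m 3 F), (∀ a ∈ A, π₂ (π (p * x)) ^ 4 * a *
      (π₂ (π (p * x)) ^ 4)⁻¹ = a⁻¹ → a ∈ B) → A ≤ B := by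
    intro B hB
    apply hgen B
    intro g hg hzg
    apply hB g hg
    rw [← hff, map_mul]
    exact hzg
  obtain ⟨R', hR', hxR', hR1, hR2⟩ := zt_lift hm D.hr D.hr2 hexpT π₂ hπ₂s hker A D.pg D.odd hxA
    huA hu hgen' E' hE' hxE' hE1 hE2
  -- the fixed point
  obtain ⟨e, heA, he1, hxe, hze⟩ := zt_FP hm A (P.map f) D.odd hP' hx' hPx' hp' hxA
    (fun q hq g hg => D.inv q (hPS hq) g hg) D.ne
  obtain ⟨t, htR, rfl⟩ := hR2 e heA
  have hcomm : π x * t * (π x)⁻¹ * t⁻¹ = 1 := by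
    have h1 : π x * t * (π x)⁻¹ * t⁻¹ ∈ R' := R'.mul_mem (hxR' t htR) (R'.inv_mem htR)
    have h2 : π x * t * (π x)⁻¹ * t⁻¹ ∈ π₂.ker := by
      rw [MonoidHom.mem_ker, map_mul, map_mul, map_mul, map_inv, map_inv, ← hff, hxe]
      group
    obtain ⟨k, hk⟩ := hker _ h2
    obtain ⟨l, hl⟩ := hR' ⟨_, h1⟩
    have hl' : (π x * t * (π x)⁻¹ * t⁻¹) ^ (r ^ l) = 1 := by
      have h3 := congrArg Subtype.val hl
      simpa using h3
    have hcop : Nat.Coprime (r ^ l) (2 ^ k) := by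
      apply Nat.Coprime.pow
      exact (Nat.coprime_primes D.hr Nat.prime_two).mpr D.hr2
    exact tw_one hcop hl' hk
  have ht : π x * t = t * π x := by
    have h1 := mul_inv_eq_one.mp hcomm
    exact mul_inv_eq_iff_eq_mul.mp h1
  have hx8 : x ^ (2 ^ 3) = 1 := by
    rw [show 2 ^ 3 = 4 * 2 by norm_num, pow_mul, hx, one_pow]
  have hze' : zp m 3 F ((p * x) ^ 4) * π₂ t * (zp m 3 F ((p * x) ^ 4))⁻¹ = (π₂ t)⁻¹ := by
    rw [← hf, hfz]
    exact hze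
  exact zt_fin_lift hm hexp hx8 hz2 hxz t ht (D.odd _ heA) he1 hze'

end Pool.Agent.Lib.MP_544bd1_al
end
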