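import Mathlib
import Pool.Agent.Lib.MP_544bd1_al.TwS3
import Pool.Agent.Lib.MP_544bd1_al.ZtFrat
import Pool.Agent.Lib.MP_544bd1_al.TwU1
import Pool.Agent.Lib.MP_544bd1_al.TwLZ
import Pool.Agent.Lib.MP_544bd1_al.ZtGen
import Pool.Agent.Lib.MP_544bd1_al.ZtF3
import Pool.Agent.Lib.MP_544bd1_al.ZsLftN

section

/-!
Theorem Z3, Case A, `P` nonabelian: involutions acting on `A ⧸ Rad` of order `r ^ 2`.
-/

namespace Pool.Agent.Lib.MP_544bd1_al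

open Subgroup

private theorem ztPm_odd {r : ℕ} (hr : r.Prime) (hr2 : r ≠ 2) {H : Type} [Group H]
    {A : Subgroup H} (hA : IsPGroup r A) {y : H} (hy : y ∈ A) : ∃ j : ℕ, (y ^ 2) ^ j = y := by
  obtain ⟨k, hk⟩ := hA ⟨y, hy⟩
  have hk' : y ^ (r ^ k) = 1 := by simpa using congrArg Subtype.val hk
  obtain ⟨j, hj⟩ := ((hr.odd_of_ne_two hr2).pow : Odd (r ^ k))
  refine ⟨j + 1, ?_⟩
  rw [← pow_mul]
  have h1 : 2 * (j + 1) = r ^ k + 1 := by omega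
  rw [h1, pow_succ, hk', one_mul]

/-- An element `n` normalizing `A`, whose square centralizes `A` and which centralizes the commutators
of `A`, acts on `A ⧸ Rad` (of order `r ^ 2`) as `1` or as `-1`.

Proof. Notation: `[a, b] = a * b * a⁻¹ * b⁻¹`, central in `A` (`hcl`); so `[a, b] ∈ Rad` (`[[a, b], c] = 1`)
and `[·, ·]` is bimultiplicative. `n` normalizes `Rad` (`[n * a * n⁻¹, b] = n * [a, n⁻¹ * b * n] * n⁻¹ =
[a, n⁻¹ * b * n]`; `n⁻¹ * b * n ∈ A` since `n ^ 2` centralizes `A`: `n⁻¹ * b * n = n * b * n⁻¹`).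
(1) For `a ∈ A` let `a' = n * a * n⁻¹`; `n * a' * n⁻¹ = a`. `c = a * a'` satisfies
`n * c * n⁻¹ = a' * a = c * k` with `k` a commutator of `a`, `a'` (or its inverse); applying `n` twice:
`c = (c * k) * k`, `k ^ 2 = 1`, `k = 1`: `n` commutes with `c`. `d = a⁻¹ * a'` satisfies
`n * d * n⁻¹ = d⁻¹`.
(2) If all `c ∈ A` commuting with `n` are in `Rad` then `a * a' ∈ Rad` for all `a`: right alternative.
If all `d ∈ A` inverted by `n` are in `Rad`: left alternative.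
(3) Otherwise there are `c, d ∈ A`, `c, d ∉ Rad`, `n * c * n⁻¹ = c`, `n * d * n⁻¹ = d⁻¹`. Then
`[c, d] = n * [c, d] * n⁻¹ = [c, d⁻¹] = [c, d]⁻¹`, so `[c, d] = 1` (`r` odd). Let `R₁ = Rad ⊔ zpowers c`,
`R₂ = R₁ ⊔ zpowers d` (subgroups of `A`, `Rad` is normal in `A` with commutative quotient). `R₁ ≠ Rad`.
`d ∉ R₁`: if `d = c ^ i * t`, `t ∈ Rad`, then `d⁻¹ = n * d * n⁻¹ = c ^ i * (n * t * n⁻¹)`, so
`d ^ 2 = d * (d⁻¹)⁻¹ ∈ Rad` (modulo `Rad`), `d ∈ Rad` (`r` odd), contradiction. The indices satisfy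
`Rad.relIndex A = (Rad.relIndex R₁) * (R₁.relIndex R₂) * (R₂.relIndex A) = r ^ 2`, and the first two
factors are divisible by `r` (nontrivial, dividing `r ^ 2`), so `R₂ = A`. So every `b ∈ A` is
`c ^ i * d ^ j * t` (mod `Rad`), and `[c, b] ∈ Λ`: `[c, c] = [c, d] = 1`, `[c, t] ∈ Λ` (as
`[c, t] = [t, c]⁻¹`). So `c ∈ Rad`, contradiction. (Alternative to (3): the set
`{b ∈ A | [c, b] ∈ Λ}` is a subgroup containing `Rad`, `c`, `d`.) -/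
theorem zt_pm {r : ℕ} (hr : r.Prime) (hr2 : r ≠ 2) {H : Type} [Group H] [Finite H]
    {A Rad Λ : Subgroup H} (hA : IsPGroup r A)
    (hcl : ∀ x ∈ A, ∀ y ∈ A, ∀ w ∈ A, x * y * x⁻¹ * y⁻¹ * w = w * (x * y * x⁻¹ * y⁻¹))
    (hRad : ∀ x, x ∈ Rad ↔ x ∈ A ∧ ∀ y ∈ A, x * y * x⁻¹ * y⁻¹ ∈ Λ)
    (hidx : Rad.relIndex A = r ^ 2) {n : H} (hn2 : ∀ a ∈ A, n ^ 2 * a = a * n ^ 2)
    (hnA : ∀ a ∈ A, n * a * n⁻¹ ∈ A)
    (hnc : ∀ x ∈ A, ∀ y ∈ A, n * (x * y * x⁻¹ * y⁻¹) = x * y * x⁻¹ * y⁻¹ * n) :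
    (∀ a ∈ A, a⁻¹ * (n * a * n⁻¹) ∈ Rad) ∨ ∀ a ∈ A, a * (n * a * n⁻¹) ∈ Rad := by
  have hone : ∀ y ∈ A, y * y = 1 → y = 1 := by
    intro y hy h1
    obtain ⟨j, hj⟩ := ztPm_odd hr hr2 hA hy
    rw [pow_two, h1, one_pow] at hj
    exact hj.symm
  have hRA : ∀ t ∈ Rad, t ∈ A := fun t ht => ((hRad t).1 ht).1
  have hsq : ∀ y ∈ A, y * y ∈ Rad → y ∈ Rad := by
    intro y hy h1
    obtain ⟨j, hj⟩ := ztPm_odd hr hr2 hA hy
    rw [← hj, pow_two]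
    exact Rad.pow_mem h1 j
  have hcA : ∀ a ∈ A, ∀ b ∈ A, a * b * a⁻¹ * b⁻¹ ∈ A := fun a ha b hb =>
    A.mul_mem (A.mul_mem (A.mul_mem ha hb) (A.inv_mem ha)) (A.inv_mem hb)
  have hcR : ∀ a ∈ A, ∀ b ∈ A, a * b * a⁻¹ * b⁻¹ ∈ Rad := by
    intro a ha b hb
    refine (hRad _).2 ⟨hcA a ha b hb, fun y hy => ?_⟩
    have h1 : a * b * a⁻¹ * b⁻¹ * y * (a * b * a⁻¹ * b⁻¹)⁻¹ * y⁻¹ = 1 := by
      rw [hcl a ha b hb y hy]
      group
    rw [h1]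
    exact Λ.one_mem
  -- bilinearity
  have hbi : ∀ a ∈ A, ∀ b ∈ A, ∀ c ∈ A, a * (b * c) * a⁻¹ * (b * c)⁻¹ =
      (a * b * a⁻¹ * b⁻¹) * (a * c * a⁻¹ * c⁻¹) := by
    intro a ha b hb c hc
    have h1 := hcl a ha c hc b hb
    calc a * (b * c) * a⁻¹ * (b * c)⁻¹ =
        a * b * a⁻¹ * b⁻¹ * (b * (a * c * a⁻¹ * c⁻¹)) * b⁻¹ := by group
      _ = a * b * a⁻¹ * b⁻¹ * (a * c * a⁻¹ * c⁻¹ * b) * b⁻¹ := by rw [h1]
      _ = _ := by group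
  have hbinv : ∀ a ∈ A, ∀ b ∈ A, a * b⁻¹ * a⁻¹ * b⁻¹⁻¹ = (a * b * a⁻¹ * b⁻¹)⁻¹ := by
    intro a ha b hb
    have h1 := hbi a ha b hb b⁻¹ (A.inv_mem hb)
    have h2 : a * (b * b⁻¹) * a⁻¹ * (b * b⁻¹)⁻¹ = 1 := by group
    rw [h2] at h1
    exact (inv_eq_of_mul_eq_one_right h1.symm).symm
  -- conjugation by `n`
  have hσσ : ∀ a ∈ A, n * (n * a * n⁻¹) * n⁻¹ = a := by
    intro a ha
    calc n * (n * a * n⁻¹) * n⁻¹ = (n ^ 2 * a) * (n ^ 2)⁻¹ := by rw [pow_two]; group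
      _ = a * n ^ 2 * (n ^ 2)⁻¹ := by rw [hn2 a ha]
      _ = a := by group
  have hcom : ∀ a ∈ A, ∀ b ∈ A, n * (a * b * a⁻¹ * b⁻¹) * n⁻¹ = a * b * a⁻¹ * b⁻¹ := by
    intro a ha b hb
    rw [hnc a ha b hb, mul_inv_cancel_right]
  have hσc : ∀ a ∈ A, ∀ b ∈ A, (n * a * n⁻¹) * (n * b * n⁻¹) * (n * a * n⁻¹)⁻¹ *
      (n * b * n⁻¹)⁻¹ = a * b * a⁻¹ * b⁻¹ := by
    intro a ha b hb
    rw [← hcom a ha b hb]
    group
  have hσR : ∀ t ∈ Rad, n * t * n⁻¹ ∈ Rad := by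
    intro t ht
    refine (hRad _).2 ⟨hnA t (hRA t ht), fun y hy => ?_⟩
    have h1 := hσc t (hRA t ht) (n * y * n⁻¹) (hnA y hy)
    rw [hσσ y hy] at h1
    rw [h1]
    exact ((hRad t).1 ht).2 _ (hnA y hy)
  have hnR : ∀ b ∈ A, ∀ t ∈ Rad, b⁻¹ * t * b ∈ Rad := by
    intro b hb t ht
    have h1 := hcR t⁻¹ (A.inv_mem (hRA t ht)) b⁻¹ (A.inv_mem hb)
    have h2 : b⁻¹ * t * b = t * (t⁻¹ * b⁻¹ * t⁻¹⁻¹ * b⁻¹⁻¹) := by group
    rw [h2]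
    exact Rad.mul_mem ht h1
  by_contra hcon
  push Not at hcon
  obtain ⟨⟨a₁, ha₁, hd⟩, a₂, ha₂, hc⟩ := hcon
  have ha₁' := hnA a₁ ha₁
  have ha₂' := hnA a₂ ha₂
  have hdA : a₁⁻¹ * (n * a₁ * n⁻¹) ∈ A := A.mul_mem (A.inv_mem ha₁) ha₁'
  have hcA' : a₂ * (n * a₂ * n⁻¹) ∈ A := A.mul_mem ha₂ ha₂'
  have hdn : n * (a₁⁻¹ * (n * a₁ * n⁻¹)) * n⁻¹ = (a₁⁻¹ * (n * a₁ * n⁻¹))⁻¹ := by
    calc n * (a₁⁻¹ * (n * a₁ * n⁻¹)) * n⁻¹ =
        (n * a₁ * n⁻¹)⁻¹ * (n * (n * a₁ * n⁻¹) * n⁻¹) := by group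
      _ = (n * a₁ * n⁻¹)⁻¹ * a₁ := by rw [hσσ a₁ ha₁]
      _ = _ := by group
  have hcn : n * (a₂ * (n * a₂ * n⁻¹)) * n⁻¹ = a₂ * (n * a₂ * n⁻¹) := by
    have h0 : n * (n * a₂ * n⁻¹) * n⁻¹ = a₂ := hσσ a₂ ha₂
    have h1 : n * (a₂ * (n * a₂ * n⁻¹)) * n⁻¹ = (n * a₂ * n⁻¹) * a₂ := by
      calc n * (a₂ * (n * a₂ * n⁻¹)) * n⁻¹ =
          (n * a₂ * n⁻¹) * (n * (n * a₂ * n⁻¹) * n⁻¹) := by group
        _ = _ := by rw [h0]
    generalize n * a₂ * n⁻¹ = a' at *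
    have h2 := hcom a'⁻¹ (A.inv_mem ha₂') a₂⁻¹ (A.inv_mem ha₂)
    have h3 : a' * a₂ = a₂ * a' * (a'⁻¹ * a₂⁻¹ * a'⁻¹⁻¹ * a₂⁻¹⁻¹) := by group
    have h4 : n * (a' * a₂) * n⁻¹ = a₂ * a' := by
      rw [← h1]
      exact hσσ _ (A.mul_mem ha₂ ha₂')
    have h5 : n * (a' * a₂) * n⁻¹ = (a' * a₂) * (a'⁻¹ * a₂⁻¹ * a'⁻¹⁻¹ * a₂⁻¹⁻¹) := by
      calc n * (a' * a₂) * n⁻¹ = n * (a₂ * a' * (a'⁻¹ * a₂⁻¹ * a'⁻¹⁻¹ * a₂⁻¹⁻¹)) * n⁻¹ := by rw [← h3]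
        _ = (n * (a₂ * a') * n⁻¹) * (n * (a'⁻¹ * a₂⁻¹ * a'⁻¹⁻¹ * a₂⁻¹⁻¹) * n⁻¹) := by group
        _ = _ := by rw [h1, h2]
    have h6 : (a'⁻¹ * a₂⁻¹ * a'⁻¹⁻¹ * a₂⁻¹⁻¹) * (a'⁻¹ * a₂⁻¹ * a'⁻¹⁻¹ * a₂⁻¹⁻¹) = 1 := by
      rw [h4, h3, mul_assoc] at h5
      exact (left_eq_mul.1 h5)
    have h7 := hone _ (hcA _ (A.inv_mem ha₂') _ (A.inv_mem ha₂)) h6
    rw [h1, h3, h7, mul_one]
  generalize a₁⁻¹ * (n * a₁ * n⁻¹) = d at *
  generalize a₂ * (n * a₂ * n⁻¹) = c at *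
  have hcd : c * d * c⁻¹ * d⁻¹ = 1 := by
    have h1 := hσc c hcA' d hdA
    rw [hcn, hdn, hbinv c hcA' d hdA] at h1
    refine hone _ (hcA c hcA' d hdA) ?_
    nth_rewrite 1 [← h1]
    exact inv_mul_cancel _
  let K : Subgroup H :=
    { carrier := {b | b ∈ A ∧ c * b * c⁻¹ * b⁻¹ ∈ Λ}
      one_mem' := ⟨A.one_mem, by
        have h1 : c * 1 * c⁻¹ * 1⁻¹ = 1 := by group
        rw [h1]
        exact Λ.one_mem⟩
      mul_mem' := by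
        rintro a b ⟨ha, ha'⟩ ⟨hb, hb'⟩
        refine ⟨A.mul_mem ha hb, ?_⟩
        rw [hbi c hcA' a ha b hb]
        exact Λ.mul_mem ha' hb'
      inv_mem' := by
        rintro a ⟨ha, ha'⟩
        refine ⟨A.inv_mem ha, ?_⟩
        rw [hbinv c hcA' a ha]
        exact Λ.inv_mem ha' }
  let R₁ : Subgroup H :=
    { carrier := {b | b ∈ K ∧ b⁻¹ * (n * b * n⁻¹) ∈ Rad}
      one_mem' := ⟨K.one_mem, by
        have h1 : (1 : H)⁻¹ * (n * 1 * n⁻¹) = 1 := by group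
        rw [h1]
        exact Rad.one_mem⟩
      mul_mem' := by
        rintro a b ⟨ha, ha'⟩ ⟨hb, hb'⟩
        refine ⟨K.mul_mem ha hb, ?_⟩
        have h1 : (a * b)⁻¹ * (n * (a * b) * n⁻¹) =
            (b⁻¹ * (a⁻¹ * (n * a * n⁻¹)) * b) * (b⁻¹ * (n * b * n⁻¹)) := by group
        rw [h1]
        exact Rad.mul_mem (hnR b hb.1 _ ha') hb'
      inv_mem' := by
        rintro a ⟨ha, ha'⟩
        refine ⟨K.inv_mem ha, ?_⟩
        have h1 : a⁻¹⁻¹ * (n * a⁻¹ * n⁻¹) = a⁻¹⁻¹ * (a⁻¹ * (n * a * n⁻¹))⁻¹ * a⁻¹ := by group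
        rw [h1]
        exact hnR a⁻¹ (A.inv_mem ha.1) _ (Rad.inv_mem ha') }
  have hKA : K ≤ A := fun b hb => hb.1
  have hRK : R₁ ≤ K := fun b hb => hb.1
  have hRR : Rad ≤ R₁ := by
    intro t ht
    refine ⟨⟨hRA t ht, ?_⟩, Rad.mul_mem (Rad.inv_mem ht) (hσR t ht)⟩
    have h1 : c * t * c⁻¹ * t⁻¹ = (t * c * t⁻¹ * c⁻¹)⁻¹ := by group
    rw [h1]
    exact Λ.inv_mem (((hRad t).1 ht).2 c hcA')
  have hcR₁ : c ∈ R₁ := by
    refine ⟨⟨hcA', ?_⟩, ?_⟩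
    · have h1 : c * c * c⁻¹ * c⁻¹ = 1 := by group
      rw [h1]
      exact Λ.one_mem
    · rw [hcn, inv_mul_cancel]
      exact Rad.one_mem
  have hdK : d ∈ K := ⟨hdA, by rw [hcd]; exact Λ.one_mem⟩
  have hdR₁ : d ∉ R₁ := by
    rintro ⟨-, h1⟩
    rw [hdn] at h1
    have h2 := Rad.inv_mem h1
    have h3 : (d⁻¹ * d⁻¹)⁻¹ = d * d := by rw [mul_inv_rev, inv_inv]
    rw [h3] at h2
    exact hd (hsq d hdA h2)
  have e1 : Rad.relIndex R₁ * R₁.relIndex K * K.relIndex A = r ^ 2 := by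
    rw [Subgroup.relIndex_mul_relIndex Rad R₁ K hRR hRK,
      Subgroup.relIndex_mul_relIndex Rad K A (hRR.trans hRK) hKA, hidx]
  have hdvd : ∀ i : ℕ, i ∣ r ^ 2 → i ≠ 1 → r ∣ i := by
    intro i hi hi1
    obtain ⟨k, -, rfl⟩ := (Nat.dvd_prime_pow hr).1 hi
    exact dvd_pow_self r (fun h => hi1 (by rw [h, pow_zero]))
  obtain ⟨i₁, hi₁⟩ := hdvd (Rad.relIndex R₁) ⟨R₁.relIndex K * K.relIndex A, by
    rw [← e1, mul_assoc]⟩ (fun h => hc ((Subgroup.relIndex_eq_one.1 h) hcR₁))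
  obtain ⟨i₂, hi₂⟩ := hdvd (R₁.relIndex K) ⟨Rad.relIndex R₁ * K.relIndex A, by
    rw [← e1]; ring⟩ (fun h => hdR₁ ((Subgroup.relIndex_eq_one.1 h) hdK))
  have e2 : i₁ * i₂ * K.relIndex A = 1 := by
    have h1 : r ^ 2 * (i₁ * i₂ * K.relIndex A) = r ^ 2 * 1 := by
      rw [mul_one]
      nth_rewrite 2 [← e1]
      rw [hi₁, hi₂]
      ring
    exact Nat.eq_of_mul_eq_mul_left (pow_pos hr.pos 2) h1
  have e3 : K.relIndex A = 1 := Nat.eq_one_of_mul_eq_one_left e2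
  have hAK : A ≤ K := Subgroup.relIndex_eq_one.1 e3
  exact hc ((hRad c).2 ⟨hcA', fun y hy => (hAK hy).2⟩)

end Pool.Agent.Lib.MP_544bd1_al
end

section

/-!
Theorem Z3, Case A, `P` nonabelian: conjugates of `(p₃ * x) ^ 4`.
-/

namespace Pool.Agent.Lib.MP_544bd1_al

open Subgroup

/-- If `f` acts nontrivially on `A` then so does the commutator of some involution `n₁ ∈ P` (a conjugate
of `(p₃ * x) ^ 4`) and some `p' ∈ P`.

Proof. Let `S = closure (P ∪ {x, ρ})`, `P₁ = closure {g * (p₃ * x) ^ 4 * g⁻¹ | g ∈ S} ≤ P` (`S` normalizes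
`P`; `x`, `ρ` have finite order, so their inverses normalize `P`), invariant under `x`, `ρ`, containing
`(p₃ * x) ^ 4`: so `P₁ = P` by `D.gen`. The generators satisfy `n₁ ^ 2 = 1` (`D.hu`). Suppose the claim is
false. `P₂ = {q ∈ P | ∀ p' ∈ P, q * p' * q⁻¹ * p'⁻¹ centralizes A}` is a subgroup (by `D.cl`
`(q * q') * p' * (q * q')⁻¹ * p'⁻¹ = (q * p' * q⁻¹ * p'⁻¹) * (q' * p' * q'⁻¹ * p'⁻¹)`, and the inverse of
`q * p' * q⁻¹ * p'⁻¹` is `q⁻¹ * p' * q * p'⁻¹`) containing the generators of `P₁`, so `P₂ = P`. Then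
`⁅P, P⁆` centralizes `A` (`Subgroup.commutator_le` for the centralizer of `A`), so `f` does (`D.hfP`),
contradiction. -/
theorem zt_A2n {m : ℕ} {H : Type} [Group H] [Finite H] {P : Subgroup H} {x ρ f p₂ p₃ : H}
    (D : ZA2F m P x ρ f p₂ p₃) (A : Subgroup H) (hne : ∃ a ∈ A, f * a ≠ a * f) :
    ∃ n₁ ∈ P, ∃ p' ∈ P, n₁ ^ 2 = 1 ∧
      ∃ a ∈ A, n₁ * p' * n₁⁻¹ * p'⁻¹ * a ≠ a * (n₁ * p' * n₁⁻¹ * p'⁻¹) := by
  by_contra hcon
  push Not at hcon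
  obtain ⟨a₀, ha₀, hfa⟩ := hne
  have hxn : x ∈ normalizer (P : Set H) := mem_normalizer_fintype D.hPx
  have hρn : ρ ∈ normalizer (P : Set H) := mem_normalizer_fintype D.hPρ
  have hS : closure {x, ρ} ≤ normalizer (P : Set H) := by
    refine (closure_le _).2 ?_
    rintro y (rfl | hy)
    · exact hxn
    · rw [Set.mem_singleton_iff] at hy
      rw [hy]
      exact hρn
  let T : Set H := {y | ∃ g ∈ closure ({x, ρ} : Set H), y = g * (p₃ * x) ^ 4 * g⁻¹}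
  have hTP : ∀ y ∈ T, y ∈ P := by
    rintro y ⟨g, hg, rfl⟩
    exact (mem_normalizer_iff.1 (hS hg) _).1 D.hn3
  have hT2 : ∀ y ∈ T, y ^ 2 = 1 := by
    rintro y ⟨g, hg, rfl⟩
    have h1 : ((p₃ * x) ^ 4) ^ 2 = 1 := by
      rw [← pow_mul]
      exact D.hu
    rw [conj_pow, h1, mul_one, mul_inv_cancel]
  have hconj : ∀ g ∈ closure ({x, ρ} : Set H), ∀ q ∈ closure T, g * q * g⁻¹ ∈ closure T := by
    intro g hg q hq
    have h1 : closure T ≤ (closure T).comap (MulAut.conj g).toMonoidHom := by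
      refine (closure_le _).2 ?_
      rintro _ ⟨h, hh, rfl⟩
      refine subset_closure ⟨g * h, (closure ({x, ρ} : Set H)).mul_mem hg hh, ?_⟩
      show g * (h * (p₃ * x) ^ 4 * h⁻¹) * g⁻¹ = _
      group
    exact h1 hq
  have hP1 : closure T = P := by
    refine D.gen (closure T) ((closure_le _).2 hTP) (subset_closure ⟨1, one_mem _, by group⟩)
      (fun q hq => hconj x (subset_closure (by simp)) q hq)
      (fun q hq => hconj ρ (subset_closure (by simp)) q hq)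
  let P₂ : Subgroup H :=
    { carrier := {q | q ∈ P ∧ ∀ p' ∈ P, ∀ a ∈ A, q * p' * q⁻¹ * p'⁻¹ * a = a * (q * p' * q⁻¹ * p'⁻¹)}
      one_mem' := ⟨P.one_mem, fun p' _ a _ => by simp⟩
      mul_mem' := by
        rintro q q' ⟨hq, hq1⟩ ⟨hq', hq1'⟩
        refine ⟨P.mul_mem hq hq', fun p' hp' a ha => ?_⟩
        have e1 := D.cl q' hq' p' hp' q hq
        have e2 : q * q' * p' * (q * q')⁻¹ * p'⁻¹ =
            (q' * p' * q'⁻¹ * p'⁻¹) * (q * p' * q⁻¹ * p'⁻¹) := by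
          calc q * q' * p' * (q * q')⁻¹ * p'⁻¹ =
              (q * (q' * p' * q'⁻¹ * p'⁻¹)) * p' * q⁻¹ * p'⁻¹ := by group
            _ = (q' * p' * q'⁻¹ * p'⁻¹ * q) * p' * q⁻¹ * p'⁻¹ := by rw [e1]
            _ = _ := by group
        rw [e2]
        have e3 := hq1 p' hp' a ha
        have e4 := hq1' p' hp' a ha
        rw [mul_assoc (q' * p' * q'⁻¹ * p'⁻¹), e3, ← mul_assoc, e4, mul_assoc]
      inv_mem' := by
        rintro q ⟨hq, hq1⟩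
        refine ⟨P.inv_mem hq, fun p' hp' a ha => ?_⟩
        have e1 := D.cl q hq p' hp' q hq
        have e2 : q⁻¹ * p' * q⁻¹⁻¹ * p'⁻¹ = (q * p' * q⁻¹ * p'⁻¹)⁻¹ := by
          rw [eq_inv_iff_mul_eq_one, inv_inv]
          calc q⁻¹ * p' * q * p'⁻¹ * (q * p' * q⁻¹ * p'⁻¹) =
              q⁻¹ * p' * q * p'⁻¹ * (q * p' * q⁻¹ * p'⁻¹ * q) * q⁻¹ := by group
            _ = q⁻¹ * p' * q * p'⁻¹ * (q * (q * p' * q⁻¹ * p'⁻¹)) * q⁻¹ := by rw [e1]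
            _ = q⁻¹ * (p' * q * p'⁻¹ * q⁻¹) * ((q * (q * (q * p' * q⁻¹ * p'⁻¹))) * q⁻¹) := by group
            _ = q⁻¹ * (p' * q * p'⁻¹ * q⁻¹) * ((q * (q * p' * q⁻¹ * p'⁻¹ * q)) * q⁻¹) := by rw [e1]
            _ = q⁻¹ * (p' * q * p'⁻¹ * q⁻¹) * (q * (q * p' * q⁻¹ * p'⁻¹)) := by group
            _ = q⁻¹ * (p' * q * p'⁻¹ * q⁻¹) * (q * p' * q⁻¹ * p'⁻¹ * q) := by rw [e1]
            _ = 1 := by group
        rw [e2]
        have e3 := hq1 p' hp' a ha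
        rw [inv_mul_eq_iff_eq_mul, ← mul_assoc, e3, mul_assoc, mul_inv_cancel, mul_one] }
  have hPP2 : P ≤ P₂ := by
    rw [← hP1]
    refine (closure_le _).2 fun y hy => ?_
    exact ⟨hTP y hy, fun p' hp' a ha => hcon y (hTP y hy) p' hp' (hT2 y hy) a ha⟩
  have hcomm : ⁅P, P⁆ ≤ centralizer (A : Set H) := by
    rw [Subgroup.commutator_le]
    intro q hq p' hp'
    rw [mem_centralizer_iff]
    intro a ha
    exact ((hPP2 hq).2 p' hp' a ha).symm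
  have h1 := hcomm D.hfP
  rw [mem_centralizer_iff] at h1
  exact hfa (h1 a₀ ha₀).symm

end Pool.Agent.Lib.MP_544bd1_al
end

section

/-!
Theorem Z3, Case A, `P` nonabelian: the contradiction of 3.3.
-/

namespace Pool.Agent.Lib.MP_544bd1_al

open Subgroup

/-- **The contradiction of 3.3.**

Proof. Let `g = n * p' * n⁻¹ * p'⁻¹`. `p'` and its inverse (`Finite`) normalize `A` and `Rad` (as in
`zt_pm`; `p'` centralizes the commutators of `A`). By `zt_pm` for `n` (`n ^ 2 = 1`): `n` acts on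
`A ⧸ Rad` as `1` or `-1` (`A ⧸ Rad` is commutative: commutators are in `Rad`), so `p' * n⁻¹ * p'⁻¹` acts in
the same way (`b ↦ p' * (n⁻¹ * (p'⁻¹ * b * p') * n) * p'⁻¹`, `n⁻¹ = n`) and `g = n * (p' * n⁻¹ * p'⁻¹)`
acts trivially: `a⁻¹ * (g * a * g⁻¹) ∈ Rad` for `a ∈ A`. Let `a ∈ A` with `f * a * f⁻¹ = a⁻¹`. By `hf`,
`g * (f * a * f⁻¹) * g⁻¹ = a`, so `g * a⁻¹ * g⁻¹ = a`, `g * a * g⁻¹ = a⁻¹`, so `a⁻¹ * a⁻¹ ∈ Rad` and
`a ∈ Rad` (`a` is a power of `a⁻¹ * a⁻¹`, `r` odd). By `hgen` `A ≤ Rad`, so `Rad.relIndex A = 1`,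
contradiction to `hidx`. -/
theorem zt_pm2 {r : ℕ} (hr : r.Prime) (hr2 : r ≠ 2) {H : Type} [Group H] [Finite H]
    {A Rad Λ : Subgroup H} (hA : IsPGroup r A)
    (hcl : ∀ x ∈ A, ∀ y ∈ A, ∀ w ∈ A, x * y * x⁻¹ * y⁻¹ * w = w * (x * y * x⁻¹ * y⁻¹))
    (hRad : ∀ x, x ∈ Rad ↔ x ∈ A ∧ ∀ y ∈ A, x * y * x⁻¹ * y⁻¹ ∈ Λ)
    (hidx : Rad.relIndex A = r ^ 2) {n p' f : H} (hn2 : n ^ 2 = 1)
    (hnA : ∀ a ∈ A, n * a * n⁻¹ ∈ A) (hpA : ∀ a ∈ A, p' * a * p'⁻¹ ∈ A)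
    (hnc : ∀ x ∈ A, ∀ y ∈ A, n * (x * y * x⁻¹ * y⁻¹) = x * y * x⁻¹ * y⁻¹ * n)
    (hpc : ∀ x ∈ A, ∀ y ∈ A, p' * (x * y * x⁻¹ * y⁻¹) = x * y * x⁻¹ * y⁻¹ * p')
    (hgen : ∀ B : Subgroup H, (∀ g ∈ A, f * g * f⁻¹ = g⁻¹ → g ∈ B) → A ≤ B)
    (hf : ∀ a ∈ A, n * p' * n⁻¹ * p'⁻¹ * f * a = a * (n * p' * n⁻¹ * p'⁻¹ * f)) : False := by
  classical
  have hn' : n⁻¹ = n := by rw [inv_eq_iff_mul_eq_one, ← pow_two, hn2]
  have hRA : Rad ≤ A := fun x hx => ((hRad x).1 hx).1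
  -- commutators are in `Rad`
  have hcR : ∀ a ∈ A, ∀ b ∈ A, a * b * a⁻¹ * b⁻¹ ∈ Rad := by
    intro a ha b hb
    rw [hRad]
    refine ⟨A.mul_mem (A.mul_mem (A.mul_mem ha hb) (A.inv_mem ha)) (A.inv_mem hb),
      fun y hy => ?_⟩
    have h1 := hcl a ha b hb y hy
    rw [h1]
    have h2 : y * (a * b * a⁻¹ * b⁻¹) * (a * b * a⁻¹ * b⁻¹)⁻¹ * y⁻¹ = 1 := by group
    rw [h2]
    exact Λ.one_mem
  -- `Rad` is normalized by `A`
  have hRn : ∀ a ∈ A, ∀ t ∈ Rad, a⁻¹ * t * a ∈ Rad := by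
    intro a ha t ht
    have h1 := Rad.mul_mem ht (hcR t⁻¹ (A.inv_mem (hRA ht)) a⁻¹ (A.inv_mem ha))
    have h2 : t * (t⁻¹ * a⁻¹ * t⁻¹⁻¹ * a⁻¹⁻¹) = a⁻¹ * t * a := by group
    rwa [h2] at h1
  have hpinv : ∀ a ∈ A, p'⁻¹ * a * p' ∈ A := by
    have hpow : ∀ k : ℕ, ∀ a ∈ A, p' ^ k * a * (p' ^ k)⁻¹ ∈ A := by
      intro k
      induction k with
      | zero => intro a ha; simpa using ha
      | succ k ih =>
        intro a ha
        have h := hpA _ (ih a ha)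
        have h2 : p' ^ (k + 1) * a * (p' ^ (k + 1))⁻¹ = p' * (p' ^ k * a * (p' ^ k)⁻¹) * p'⁻¹ := by
          rw [pow_succ']; group
        rw [h2]; exact h
    intro a ha
    have h1 := hpow (orderOf p' - 1) a ha
    have hpos := orderOf_pos p'
    have h2 : p' ^ (orderOf p' - 1) = p'⁻¹ := by
      rw [eq_inv_iff_mul_eq_one, ← pow_succ, Nat.sub_add_cancel hpos, pow_orderOf_eq_one]
    rwa [h2, inv_inv] at h1
  have hnorm : ∀ u : H, (∀ a ∈ A, u * a * u⁻¹ ∈ A) → (∀ a ∈ A, u⁻¹ * a * u ∈ A) →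
      (∀ x ∈ A, ∀ y ∈ A, u * (x * y * x⁻¹ * y⁻¹) = x * y * x⁻¹ * y⁻¹ * u) →
      ∀ t ∈ Rad, u * t * u⁻¹ ∈ Rad := by
    intro u hu hu' huc t ht
    rw [hRad] at ht ⊢
    refine ⟨hu t ht.1, fun y hy => ?_⟩
    have h1 := ht.2 _ (hu' y hy)
    have h2 := huc t ht.1 _ (hu' y hy)
    have h3 : u * t * u⁻¹ * y * (u * t * u⁻¹)⁻¹ * y⁻¹ =
        u * (t * (u⁻¹ * y * u) * t⁻¹ * (u⁻¹ * y * u)⁻¹) * u⁻¹ := by group
    rw [h3, h2, mul_inv_cancel_right]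
    exact h1
  have hnR := hnorm n hnA (fun a ha => by have := hnA a ha; rwa [hn'] at this ⊢) hnc
  have hpR := hnorm p' hpA hpinv hpc
  -- `g` acts trivially on `A ⧸ Rad`
  have hg : ∀ a ∈ A, a⁻¹ * ((n * p' * n⁻¹ * p'⁻¹) * a * (n * p' * n⁻¹ * p'⁻¹)⁻¹) ∈ Rad := by
    intro a ha
    have hb : p'⁻¹ * a * p' ∈ A := hpinv a ha
    rcases zt_pm hr hr2 hA hcl hRad hidx (n := n)
      (fun a _ => by rw [hn2, one_mul, mul_one]) hnA hnc with h | h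
    · have h1 := hnR _ (hpR _ (h _ hb))
      have h2 := Rad.mul_mem (h a ha) h1
      have h3 : a⁻¹ * (n * a * n⁻¹) *
          (n * (p' * ((p'⁻¹ * a * p')⁻¹ * (n * (p'⁻¹ * a * p') * n⁻¹)) * p'⁻¹) * n⁻¹) =
          a⁻¹ * ((n * p' * n * p'⁻¹) * a * (n * p' * n * p'⁻¹)⁻¹) := by group
      rw [h3] at h2
      rwa [hn']
    · have h1 := hnR _ (hpR _ (h _ hb))
      have h4 := hRn a ha _ (Rad.inv_mem (h a ha))
      have h2 := Rad.mul_mem h4 h1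
      have h3 : a⁻¹ * (a * (n * a * n⁻¹))⁻¹ * a *
          (n * (p' * ((p'⁻¹ * a * p') * (n * (p'⁻¹ * a * p') * n⁻¹)) * p'⁻¹) * n⁻¹) =
          a⁻¹ * ((n * p' * n * p'⁻¹) * a * (n * p' * n * p'⁻¹)⁻¹) := by group
      rw [h3] at h2
      rwa [hn']
  -- the elements inverted by `f` are in `Rad`
  have hle : A ≤ Rad := by
    apply hgen
    intro a ha hfa
    have h1 := hf a ha
    have h2 := hg a ha
    set g := n * p' * n⁻¹ * p'⁻¹ with hgdef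
    have h3 : g * (f * a * f⁻¹) * g⁻¹ = a := by
      calc g * (f * a * f⁻¹) * g⁻¹ = (g * f * a) * (g * f)⁻¹ := by group
        _ = a := by rw [h1]; group
    rw [hfa] at h3
    have h4 : g * a * g⁻¹ = a⁻¹ := by
      rw [← inv_inj, inv_inv]
      calc (g * a * g⁻¹)⁻¹ = g * a⁻¹ * g⁻¹ := by group
        _ = a := h3
    rw [h4] at h2
    obtain ⟨k, hk⟩ := hA ⟨a, ha⟩
    have hk' : a ^ (r ^ k) = 1 := by simpa using congrArg Subtype.val hk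
    have hodd : Odd (r ^ k) := (hr.odd_of_ne_two hr2).pow
    obtain ⟨j, hj⟩ := hodd
    have h5 : a = ((a⁻¹ * a⁻¹)⁻¹) ^ (j + 1) := by
      have h6 : (a⁻¹ * a⁻¹)⁻¹ = a ^ 2 := by rw [pow_two, mul_inv_rev, inv_inv]
      rw [h6, ← pow_mul, show 2 * (j + 1) = r ^ k + 1 by omega, pow_succ, hk', one_mul]
    rw [h5]
    exact Rad.pow_mem (Rad.inv_mem h2) _
  have h7 : Rad.relIndex A = 1 := Subgroup.relIndex_eq_one.2 hle
  rw [hidx] at h7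
  have h8 := hr.two_le
  nlinarith

end Pool.Agent.Lib.MP_544bd1_al
end

section

/-!
Theorem Z3, Case A, `P` nonabelian: finality of `f`.
-/

namespace Pool.Agent.Lib.MP_544bd1_al

open Subgroup

/-- **3.3, in a group with `O_2 = 1`.**

Proof. Let `S = closure (P ∪ {x, ρ})`; `f ∈ ⁅P, P⁆ ≤ P ≤ S` is central in `S` (`D.hfc, D.hfx, D.hfρ`).
(1) `zt_minH` for `S`, `f`: `r₁`, `A₁`, `D₁ : ZMinA m r₁ S A₁ f`. `C₁ = ⁅A₁, A₁⁆` is commutative, odd,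
normalized by `u = p₃ * x ∈ S`, `u ^ (2 ^ 3) = 1`: `zt_reg0` (`a := 3`): `u ^ 4` centralizes `C₁`. The
subgroup `{q ∈ P | q centralizes C₁}` is invariant under `x`, `ρ` (they normalize `A₁`) and contains
`(p₃ * x) ^ 4` (`D.hn3`), so it is `P` (`D.gen`): `P` centralizes the commutators of `A₁`.
(2) Let `S' = closure (P ∪ {x ^ 2}) ≤ S`; it normalizes `A₁`, `f ∈ S'`. `zt_minA` for `S'`, `A₀ := A₁`
(solvable): `r`, `A ≤ A₁`, `D₂ : ZMinA m r S' A f`. `f` is central in `S'`, so `ZMinA.gen` applies.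
`P` centralizes the commutators of `A`.
(3) Let `g = q * q' * q⁻¹ * q'⁻¹` with `q, q' ∈ P`: `g ^ 2 = 1`, `g` is central in `S'` (`D.cl`, `D.cy`),
and if `g` does not centralize `A` then `g * f` does: by `zt_f3` (`x := g`, `z := f`) there is `e ∈ A`,
`e ≠ 1`, `f * e * f⁻¹ = e⁻¹`, and `g * e * g⁻¹ = e` or `e⁻¹`. In the first case
`{a ∈ A | g * a = a * g}` is `S'`-invariant and not centralized by `f` (`e⁻¹ ≠ e`), so it is `A`
by `D₂.min`; in the second case the same for `g * f`.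
(4) `t = p₂ * x ^ 2 ∈ S'`, `t ^ 4 = f`, `t ^ (2 ^ 3) = f ^ 2 = 1`. `A` is not commutative: otherwise
`zt_reg0` for `E := A`, `u := t` would give that `f` centralizes `A` (`D₂.ne`). `zt_L2` for `A`, `t`
(`D₂.cz`, `ZMinA.gen`): `Λ`, `Rad`, `Rad.relIndex A = r ^ 2`.
(5) `zt_A2n` for `A`: `n₁, p' ∈ P`; by (3) `g * f` centralizes `A`, `g = n₁ * p' * n₁⁻¹ * p'⁻¹`. `zt_pm2`. -/
theorem zt_A2H {m : ℕ} (hm : Odd m) {H : Type} [Group H] [Finite H]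
    (hsol : Group.IsSolvable H) (hexp : ∀ x : H, x ^ (m * 2 ^ 3) = 1)
    (hbot : krad (2 ^ 3) H = ⊥) (hV : ZRep m 3 H) {P : Subgroup H} {x ρ f p₂ p₃ : H}
    (D : ZA2F m P x ρ f p₂ p₃) : False := by
  classical
  have _hsol' := hsol
  -- `f ∈ P`
  have hfP : f ∈ P := by
    have h1 : ⁅P, P⁆ ≤ P := by
      rw [Subgroup.commutator_le]
      intro a ha b hb
      rw [commutatorElement_def]
      exact P.mul_mem (P.mul_mem (P.mul_mem ha hb) (P.inv_mem ha)) (P.inv_mem hb)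
    exact h1 D.hfP
  -- the subgroup `S`
  set S : Subgroup H := closure ((P : Set H) ∪ {x, ρ}) with hS
  have hPS : P ≤ S := fun q hq => subset_closure (Or.inl hq)
  have hxS : x ∈ S := subset_closure (Or.inr (by simp))
  have hρS : ρ ∈ S := subset_closure (Or.inr (by simp))
  obtain ⟨r₁, A₁, D₁⟩ := zt_minH hm hsol hexp hbot S (hPS hfP) D.hf2 D.hf1
  have hC₁A : ⁅A₁, A₁⁆ ≤ A₁ := by
    rw [Subgroup.commutator_le]
    intro a ha b hb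
    rw [commutatorElement_def]
    exact A₁.mul_mem (A₁.mul_mem (A₁.mul_mem ha hb) (A₁.inv_mem ha)) (A₁.inv_mem hb)
  -- elements of `S` normalize `C₁`
  have hC₁n : ∀ u ∈ S, ∀ c ∈ ⁅A₁, A₁⁆, u * c * u⁻¹ ∈ ⁅A₁, A₁⁆ := by
    intro u hu
    have h1 : ⁅A₁, A₁⁆ ≤ (⁅A₁, A₁⁆).comap (MulAut.conj u).toMonoidHom := by
      rw [Subgroup.commutator_le]
      intro a ha b hb
      rw [Subgroup.mem_comap, map_commutatorElement]
      apply Subgroup.commutator_mem_commutator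
      · simpa using D₁.inv u hu a ha
      · simpa using D₁.inv u hu b hb
    intro c hc
    simpa using h1 hc
  -- `C₁` is commutative
  have hC₁c : ∀ c ∈ ⁅A₁, A₁⁆, ∀ w ∈ A₁, c * w = w * c := by
    have h1 : ⁅A₁, A₁⁆ ≤ centralizer (A₁ : Set H) := by
      rw [Subgroup.commutator_le]
      intro a ha b hb
      rw [commutatorElement_def, mem_centralizer_iff]
      intro w hw
      exact (D₁.cl a ha b hb w hw).symm
    intro c hc w hw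
    exact ((mem_centralizer_iff.1 (h1 hc)) w hw).symm
  have huS : p₃ * x ∈ S := S.mul_mem (hPS D.hp₃) hxS
  have hreg₁ := zt_reg0 (a := 3) (by norm_num) hm hV ⁅A₁, A₁⁆
    (fun c hc => D₁.odd c (hC₁A hc)) (fun c hc d hd => hC₁c c hc d (hC₁A hd))
    (u := p₃ * x) (by simpa using D.hu) (hC₁n _ huS)
  -- `P` centralizes `C₁`
  have hPC₁ : ∀ q ∈ P, ∀ c ∈ ⁅A₁, A₁⁆, q * c = c * q := by
    have hinv : ∀ v ∈ S, ∀ q, (∀ c ∈ ⁅A₁, A₁⁆, q * c = c * q) →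
        ∀ c ∈ ⁅A₁, A₁⁆, (v * q * v⁻¹) * c = c * (v * q * v⁻¹) := by
      intro v hv q hq c hc
      have h1 : v⁻¹ * c * v ∈ ⁅A₁, A₁⁆ := by
        have := hC₁n v⁻¹ (S.inv_mem hv) c hc
        rwa [inv_inv] at this
      have h2 := hq _ h1
      calc (v * q * v⁻¹) * c = v * (q * (v⁻¹ * c * v)) * v⁻¹ := by group
        _ = v * ((v⁻¹ * c * v) * q) * v⁻¹ := by rw [h2]
        _ = c * (v * q * v⁻¹) := by group
    have h1 : P ⊓ centralizer ((⁅A₁, A₁⁆ : Subgroup H) : Set H) = P := by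
      apply D.gen _ inf_le_left
      · rw [Subgroup.mem_inf, mem_centralizer_iff]
        refine ⟨D.hn3, ?_⟩
        intro c hc
        have h2 := hreg₁ c hc
        norm_num at h2
        exact h2.symm
      · intro q hq
        rw [Subgroup.mem_inf, mem_centralizer_iff] at hq ⊢
        obtain ⟨hq, hqc⟩ := hq
        refine ⟨D.hPx q hq, ?_⟩
        intro c hc
        exact (hinv x hxS q (fun c hc => (hqc c hc).symm) c hc).symm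
      · intro q hq
        rw [Subgroup.mem_inf, mem_centralizer_iff] at hq ⊢
        obtain ⟨hq, hqc⟩ := hq
        refine ⟨D.hPρ q hq, ?_⟩
        intro c hc
        exact (hinv ρ hρS q (fun c hc => (hqc c hc).symm) c hc).symm
    intro q hq c hc
    rw [← h1] at hq
    exact ((mem_centralizer_iff.1 hq.2) c hc).symm
  -- the subgroup `S'`
  set S' : Subgroup H := closure ((P : Set H) ∪ {x ^ 2}) with hS'
  have hPS' : P ≤ S' := fun q hq => subset_closure (Or.inl hq)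
  have hxS' : x ^ 2 ∈ S' := subset_closure (Or.inr (by simp))
  have hS'S : S' ≤ S := by
    rw [hS', closure_le]
    rintro w (hw | rfl)
    · exact hPS hw
    · exact S.pow_mem hxS 2
  obtain ⟨r, A, hAA, D₂⟩ := zt_minA hm S' A₁ inferInstance D₁.odd
    (fun s hs y hy => D₁.inv s (hS'S hs) y hy) (hPS' hfP) D.hf2 D₁.ne
  have hcentral : ∀ g : H, (∀ q ∈ P, g * q = q * g) → g * x ^ 2 = x ^ 2 * g →
      ∀ s ∈ S', s * g = g * s := by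
    intro g hgP hgx
    have h1 : S' ≤ centralizer {g} := by
      rw [hS', closure_le]
      rintro w (hw | rfl)
      · rw [SetLike.mem_coe, mem_centralizer_singleton_iff]
        exact (hgP w hw).symm
      · rw [SetLike.mem_coe, mem_centralizer_singleton_iff]
        exact hgx.symm
    intro s hs
    have := h1 hs
    rwa [mem_centralizer_singleton_iff] at this
  have hfx2 : f * x ^ 2 = x ^ 2 * f := ((show Commute f x from D.hfx).pow_right 2).eq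
  have hfS' : ∀ s ∈ S', s * f = f * s := hcentral f D.hfc hfx2
  have hgen := D₂.gen hm (hPS' hfP) D.hf2 hfS'
  have hPc : ∀ q ∈ P, ∀ a ∈ A, ∀ b ∈ A,
      q * (a * b * a⁻¹ * b⁻¹) = a * b * a⁻¹ * b⁻¹ * q := by
    intro q hq a ha b hb
    apply hPC₁ q hq
    have := Subgroup.commutator_mem_commutator (hAA ha) (hAA hb)
    rwa [commutatorElement_def] at this
  -- centralizers in `A` of central elements of `S'`
  have hfull : ∀ g : H, (∀ s ∈ S', s * g = g * s) → (∃ e ∈ A, e ≠ 1 ∧ f * e * f⁻¹ = e⁻¹ ∧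
      g * e = e * g) → ∀ a ∈ A, g * a = a * g := by
    rintro g hg ⟨e, he, he1, hfe, hge⟩
    by_contra hcon
    have hne : A ⊓ centralizer {g} ≠ A := by
      intro h
      apply hcon
      intro a ha
      rw [← h, Subgroup.mem_inf, mem_centralizer_singleton_iff] at ha
      exact ha.2.symm
    have h1 := D₂.min (A ⊓ centralizer {g}) inf_le_left (by
      intro s hs a ha
      rw [Subgroup.mem_inf, mem_centralizer_singleton_iff] at ha ⊢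
      obtain ⟨ha, hac⟩ := ha
      refine ⟨D₂.inv s hs a ha, ?_⟩
      have h2 := hg s hs
      have h3 : s⁻¹ * g = g * s⁻¹ := hg s⁻¹ (S'.inv_mem hs)
      calc s * a * s⁻¹ * g = s * a * (s⁻¹ * g) := by group
        _ = s * (a * g) * s⁻¹ := by rw [h3]; group
        _ = s * (g * a) * s⁻¹ := by rw [hac]
        _ = (s * g) * a * s⁻¹ := by group
        _ = g * (s * a * s⁻¹) := by rw [h2]; group) hne e (by
      rw [Subgroup.mem_inf, mem_centralizer_singleton_iff]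
      exact ⟨he, hge.symm⟩)
    apply he1
    have h2 : f * e * f⁻¹ = e := by rw [h1]; group
    rw [hfe] at h2
    have h3 : e ^ 2 = 1 := by
      rw [pow_two]
      nth_rewrite 1 [← h2]
      group
    exact fr_one_two hm (D₂.odd e he) h3
  -- products of commutators of `P` with `f`
  have hcomm : ∀ q ∈ P, ∀ q' ∈ P, (∃ a ∈ A, q * q' * q⁻¹ * q'⁻¹ * a ≠ a * (q * q' * q⁻¹ * q'⁻¹)) →
      ∀ a ∈ A, q * q' * q⁻¹ * q'⁻¹ * f * a = a * (q * q' * q⁻¹ * q'⁻¹ * f) := by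
    rintro q hq q' hq' ⟨a₀, ha₀, hne₀⟩
    have hgP : q * q' * q⁻¹ * q'⁻¹ ∈ P :=
      P.mul_mem (P.mul_mem (P.mul_mem hq hq') (P.inv_mem hq)) (P.inv_mem hq')
    have hg2 := D.c2 q hq q' hq'
    have hgc : ∀ s ∈ S', s * (q * q' * q⁻¹ * q'⁻¹) = q * q' * q⁻¹ * q'⁻¹ * s :=
      hcentral _ (fun w hw => D.cl q hq q' hq' w hw) (D.cy q hq q' hq').symm
    set g := q * q' * q⁻¹ * q'⁻¹ with hgdef
    obtain ⟨e, he, he1, hfe, hge⟩ := zt_f3 hm A D₂.odd (x := g) (z := f)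
      (D₂.inv g (hPS' hgP)) (D₂.inv f (hPS' hfP))
      (fun a _ => by rw [hg2, one_mul, mul_one]) D.hf2 (D.hfc g hgP).symm D₂.ne
    rcases hge with hge | hge
    · exfalso
      apply hne₀
      apply hfull g hgc ⟨e, he, he1, hfe, ?_⟩ a₀ ha₀
      calc g * e = (g * e * g⁻¹) * g := by group
        _ = e * g := by rw [hge]
    · apply hfull (g * f) _ ⟨e, he, he1, hfe, ?_⟩
      · intro s hs
        calc s * (g * f) = (s * g) * f := by group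
          _ = g * (s * f) := by rw [hgc s hs]; group
          _ = g * f * s := by rw [hfS' s hs]; group
      · calc g * f * e = g * (f * e * f⁻¹) * g⁻¹ * (g * f) := by group
          _ = (g * e * g⁻¹)⁻¹ * (g * f) := by rw [hfe]; group
          _ = e * (g * f) := by rw [hge, inv_inv]
  -- the element `t`
  have htS' : p₂ * x ^ 2 ∈ S' := S'.mul_mem (hPS' D.hp₂) hxS'
  have ht8 : (p₂ * x ^ 2) ^ (2 ^ 3) = 1 := by
    have h1 : (p₂ * x ^ 2) ^ (2 ^ 3) = ((p₂ * x ^ 2) ^ 4) ^ 2 := by rw [← pow_mul]; norm_num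
    rw [h1, D.ht, D.hf2]
  have hAnc : ∃ a ∈ A, ∃ b ∈ A, a * b ≠ b * a := by
    by_contra hcon
    push Not at hcon
    have h1 := zt_reg0 (a := 3) (by norm_num) hm hV A D₂.odd hcon (u := p₂ * x ^ 2) ht8
      (D₂.inv _ htS')
    obtain ⟨a, ha, hfa⟩ := D₂.ne
    apply hfa
    have h2 := h1 a ha
    have h3 : (p₂ * x ^ 2) ^ (2 ^ (3 - 1)) = f := by
      rw [show 2 ^ (3 - 1) = 4 by norm_num]; exact D.ht
    rwa [h3] at h2
  obtain ⟨Λ, Rad, hRad, hidx⟩ := zt_L2 hm D₂.hr D₂.hr2 hV A D₂.pg D₂.odd D₂.cl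
    (u := p₂ * x ^ 2) ht8 (D₂.inv _ htS') (by rw [D.ht]; exact hgen) (by rw [D.ht]; exact D₂.cz)
    hAnc
  obtain ⟨n₁, hn₁, p', hp', hn2, hne⟩ := zt_A2n D A D₂.ne
  exact zt_pm2 D₂.hr D₂.hr2 D₂.pg D₂.cl hRad hidx hn2 (D₂.inv _ (hPS' hn₁))
    (D₂.inv _ (hPS' hp')) (hPc n₁ hn₁) (hPc p' hp') hgen (hcomm n₁ hn₁ p' hp' hne)

end Pool.Agent.Lib.MP_544bd1_al
end
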