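import Mathlib
import Pool.Agent.Lib.MP_544bd1_al.ZtFrat
import Pool.Agent.Lib.MP_544bd1_al.ZsC0
import Pool.Agent.Lib.MP_544bd1_al.ZtNorm
import Pool.Agent.Lib.MP_544bd1_al.ZsLft

section

/-!
Theorem Z3, Case A, `P` nonabelian: the linear part.
-/

namespace Pool.Agent.Lib.MP_544bd1_al

open Subgroup

private theorem ztLin_fix {V : Type} [AddCommGroup V] [Module (ZMod 2) V]
    (T : Module.End (ZMod 2) V) (h4 : ∀ v, T (T (T (T v))) = v) {v : V} (hv : v ≠ 0) :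
    ∃ w : V, w ≠ 0 ∧ T w = w := by
  have h2 : ∀ a : V, a + a = 0 := fun a => by
    rw [← two_smul (ZMod 2) a]
    have : (2 : ZMod 2) = 0 := by decide
    rw [this, zero_smul]
  have hs : ∀ a b : V, a + b = 0 → a = b := fun a b h => by
    have := h2 b
    rw [← h] at this
    exact (add_right_cancel this).symm
  by_cases c1 : T v + v = 0
  · exact ⟨v, hv, hs _ _ c1⟩
  by_cases c2 : T (T v + v) + (T v + v) = 0
  · exact ⟨_, c1, hs _ _ c2⟩
  by_cases c3 : T (T (T v + v) + (T v + v)) + (T (T v + v) + (T v + v)) = 0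
  · exact ⟨_, c2, hs _ _ c3⟩
  refine ⟨_, c3, hs _ _ ?_⟩
  simp only [map_add, h4]
  have e : ∀ a b c d : V, ((a + d) + (d + c)) + ((d + c) + (c + b)) + (((d + c) + (c + b)) + ((c + b) + (b + a))) =
      (a + b + b + c + c + c + d + d) + (a + b + b + c + c + c + d + d) := by
    intro a b c d
    abel
  rw [e]
  exact h2 _

/-- **The linear part.** `y = x ^ 2` centralizes the commutators, and there is `v` such that
`F v = β (τ y v) v ≠ 0` is fixed by `x`.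

Proof. `zt_hinv`: `τ (y * g * y⁻¹) = τ g⁻¹`, `τ (g * h) = τ (h * g)` for `g, h ∈ R`.
(0) There is `v₀ ≠ 0` with `τ x v₀ = v₀`: `N = τ x - 1` satisfies `N ^ 4 = (τ x) ^ 4 - 1 = 0`
(characteristic 2, `x ^ 4 = 1`), and `V ≠ 0` (`zt_irr`); take `v ≠ 0` and the last nonzero `N ^ i v`.
(1) The span of `{τ g v₀ | g ∈ R}` is invariant under `R` and `x` (`τ x (τ g v₀) = τ (x * g * x⁻¹) v₀`),
so it is `⊤` (`zt_irr` (3)).
(2) `β (τ g v) (τ g w) = β v w` for `g ∈ R` (`Z.βθ`, `Z.θR`). Let `ψ g = β v₀ (τ g v₀)`: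
`β (τ g v₀) (τ h v₀) = ψ (g⁻¹ * h)`, `ψ g⁻¹ = ψ g`.
(3) `τ y (τ g v₀) = τ (y * g * y⁻¹) (τ y v₀) = τ g⁻¹ v₀`. So
`β (τ y (τ g v₀)) (τ y (τ h v₀)) = β (τ g⁻¹ v₀) (τ h⁻¹ v₀) = ψ (g * h⁻¹) = ψ (h⁻¹ * g) = ψ (g⁻¹ * h) =
β (τ g v₀) (τ h v₀)`. By additivity and (1) (`Submodule.span_induction`; the scalars are `0`, `1`)
`β (τ y v) (τ y w) = β v w` for all `v, w`, i.e. `θ y (β v w) = β v w` (`Z.βθ`). Hence
`β (τ y v) w = β v (τ y w)` (`τ y (τ y w) = w`).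
(4) `F v = β (τ y v) v` is additive: the cross terms are
`β (τ y v) w + β (τ y w) v = β (τ y v) w + β w (τ y v) = 0` (`Z.βs`, `Z.two`).
`F (τ g v₀) = β (τ g⁻¹ v₀) (τ g v₀) = ψ (g ^ 2)`.
(5) There is `h ∈ R` with `ψ h ≠ 0`: otherwise `β (τ g v₀) (τ h v₀) = 0` for all `g, h ∈ R` and `β = 0` by
(1), contradiction to `hne`. `R` is an `r`-group, `r` odd: `h = g ^ 2` with `g = h ^ ((N + 1) / 2)`,
`N = r ^ k`, `h ^ N = 1`. So `F (τ g v₀) ≠ 0`.
(6) `θ x (F v) = F (τ x v)` (`Z.βθ`, `x`, `y` commute), `θ x (θ x (F v)) = θ y (F v) = F v`. Let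
`w = τ g v₀`, `k = F w ≠ 0`. If `θ x k = k` take `v = w`. Otherwise take `v = w + τ x w`:
`F v = k + θ x k ≠ 0` (`Z.two`), `θ x (F v) = θ x k + k = F v`. -/
theorem zt_lin {F : Type} [Group F] [Finite F] {r : ℕ} (hr : r.Prime) (hr2 : r ≠ 2)
    {Q R : Subgroup F} [Q.Normal] {x ρ : F} (D : ZHon r Q R x ρ) {V : Type} [AddCommGroup V]
    [Module (ZMod 2) V] {τ : F →* Module.End (ZMod 2) V} {φ : Q → V} (M : ZMd Q R τ φ)
    {K : Type} [AddCommGroup K] {ι : K → F} {θ : F → K → K} {q : V → K} {β : V → V → K}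
    (Z : ZQuad Q R τ φ ι θ q β) (hne : ∃ v w, β v w ≠ 0) :
    (∀ v w, θ (x ^ 2) (β v w) = β v w) ∧
      ∃ v, β (τ (x ^ 2) v) v ≠ 0 ∧ θ x (β (τ (x ^ 2) v) v) = β (τ (x ^ 2) v) v := by
  obtain ⟨hinv, hcomm⟩ := zt_hinv D M
  obtain ⟨_, _, ⟨v1, hv1⟩, hirr⟩ := zt_irr hr hr2 D.core M
  have hx4 : ∀ v, τ x (τ x (τ x (τ x v))) = v := by
    intro v
    have h1 : τ x (τ x (τ x (τ x v))) = τ (x ^ 4) v := by
      rw [show x ^ 4 = x * (x * (x * x)) by simp only [pow_succ, pow_zero, one_mul, mul_assoc], map_mul, map_mul,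
        map_mul]
      rfl
    rw [h1, D.hx, map_one]
    rfl
  obtain ⟨v0, hv0, hxv0⟩ := ztLin_fix (τ x) hx4 hv1
  have hτm : ∀ g h v, τ g (τ h v) = τ (g * h) v := fun g h v => by
    rw [map_mul]
    rfl
  obtain ⟨y, hy⟩ : ∃ y, y = x ^ 2 := ⟨_, rfl⟩
  rw [← hy] at hinv ⊢
  have hyv0 : τ y v0 = v0 := by
    rw [hy, pow_two, ← hτm, hxv0, hxv0]
  have hyy : ∀ v, τ y (τ y v) = v := by
    intro v
    rw [hy, pow_two, ← hτm, ← hτm]
    exact hx4 v
  have hyx : ∀ v, τ y (τ x v) = τ x (τ y v) := by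
    intro v
    rw [hτm, hτm, hy, pow_mul_comm']
  -- (1)
  have hspan : Submodule.span (ZMod 2) {v | ∃ g ∈ R, v = τ g v0} = ⊤ := by
    have i1 : ∀ g ∈ R, ∀ v ∈ Submodule.span (ZMod 2) {v | ∃ g ∈ R, v = τ g v0}, τ g v ∈
        Submodule.span (ZMod 2) {v | ∃ g ∈ R, v = τ g v0} := by
      intro g hg v hv
      refine Submodule.span_induction (p := fun v _ => τ g v ∈
        Submodule.span (ZMod 2) {v | ∃ g ∈ R, v = τ g v0}) ?_ ?_ ?_ ?_ hv
      · rintro _ ⟨h, hh, rfl⟩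
        exact Submodule.subset_span ⟨g * h, R.mul_mem hg hh, hτm g h v0⟩
      · rw [map_zero]
        exact Submodule.zero_mem _
      · intro a b _ _ ha hb
        rw [map_add]
        exact Submodule.add_mem _ ha hb
      · intro c a _ ha
        rw [map_smul]
        exact Submodule.smul_mem _ c ha
    have i2 : ∀ v ∈ Submodule.span (ZMod 2) {v | ∃ g ∈ R, v = τ g v0}, τ x v ∈
        Submodule.span (ZMod 2) {v | ∃ g ∈ R, v = τ g v0} := by
      intro v hv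
      refine Submodule.span_induction (p := fun v _ => τ x v ∈
        Submodule.span (ZMod 2) {v | ∃ g ∈ R, v = τ g v0}) ?_ ?_ ?_ ?_ hv
      · rintro _ ⟨h, hh, rfl⟩
        refine Submodule.subset_span ⟨x * h * x⁻¹, D.core.hxR h hh, ?_⟩
        have h1 : x * h * x⁻¹ * x = x * h := by group
        calc τ x (τ h v0) = τ (x * h) v0 := hτm x h v0
          _ = τ (x * h * x⁻¹ * x) v0 := by rw [h1]
          _ = τ (x * h * x⁻¹) (τ x v0) := (hτm _ _ _).symm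
          _ = τ (x * h * x⁻¹) v0 := by rw [hxv0]
      · rw [map_zero]
        exact Submodule.zero_mem _
      · intro a b _ _ ha hb
        rw [map_add]
        exact Submodule.add_mem _ ha hb
      · intro c a _ ha
        rw [map_smul]
        exact Submodule.smul_mem _ c ha
    rcases hirr _ i1 i2 with h | h
    · exfalso
      have h1 : v0 ∈ Submodule.span (ZMod 2) {v | ∃ g ∈ R, v = τ g v0} :=
        Submodule.subset_span ⟨1, R.one_mem, by rw [map_one]; rfl⟩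
      rw [h] at h1
      exact hv0 ((Submodule.mem_bot _).1 h1)
    · exact h
  have ind : ∀ P : V → Prop, P 0 → (∀ a b, P a → P b → P (a + b)) → (∀ g ∈ R, P (τ g v0)) → ∀ v, P v := by
    intro P h0 ha hg v
    have hv : v ∈ Submodule.span (ZMod 2) {v | ∃ g ∈ R, v = τ g v0} := by
      rw [hspan]
      exact Submodule.mem_top
    refine Submodule.span_induction (p := fun v _ => P v) ?_ h0 (fun a b _ _ h1 h2 => ha a b h1 h2) ?_ hv
    · rintro _ ⟨g, h, rfl⟩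
      exact hg g h
    · intro c a _ h1
      fin_cases c
      · show P ((0 : ZMod 2) • a)
        rw [zero_smul]
        exact h0
      · show P ((1 : ZMod 2) • a)
        rw [one_smul]
        exact h1
  have hβ0l : ∀ w, β 0 w = 0 := fun w => by
    have h := Z.βl 0 0 w
    rw [add_zero] at h
    exact left_eq_add.1 h
  have hβ0r : ∀ w, β w 0 = 0 := fun w => by
    rw [Z.βs]
    exact hβ0l w
  -- (2)
  have hinvβ : ∀ g ∈ R, ∀ v w, β (τ g v) (τ g w) = β v w := fun g hg v w => by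
    rw [Z.βθ, Z.θR g hg]
  have hψ : ∀ g ∈ R, ∀ h ∈ R, β (τ g v0) (τ h v0) = β v0 (τ (g⁻¹ * h) v0) := by
    intro g hg h hh
    rw [← hinvβ g⁻¹ (R.inv_mem hg), hτm, hτm, inv_mul_cancel, map_one]
    rfl
  have hyg : ∀ g ∈ R, τ y (τ g v0) = τ g⁻¹ v0 := by
    intro g hg
    have h1 : y * g * y⁻¹ * y = y * g := by group
    calc τ y (τ g v0) = τ (y * g) v0 := hτm y g v0
      _ = τ (y * g * y⁻¹ * y) v0 := by rw [h1]
      _ = τ (y * g * y⁻¹) (τ y v0) := (hτm _ _ _).symm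
      _ = τ g⁻¹ v0 := by rw [hyv0, hinv g hg]
  -- (3)
  have h3 : ∀ v w, β (τ y v) (τ y w) = β v w := by
    intro v w
    refine ind (fun v => β (τ y v) (τ y w) = β v w) ?_ ?_ ?_ v
    · rw [map_zero, hβ0l, hβ0l]
    · intro a b h1 h2
      rw [map_add, Z.βl, Z.βl, h1, h2]
    · intro g hg
      refine ind (fun w => β (τ y (τ g v0)) (τ y w) = β (τ g v0) w) ?_ ?_ ?_ w
      · rw [map_zero, hβ0r, hβ0r]
      · intro a b h1 h2
        rw [map_add, Z.βr, Z.βr, h1, h2]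
      · intro h hh
        rw [hyg g hg, hyg h hh, hψ _ (R.inv_mem hg) _ (R.inv_mem hh), inv_inv,
          hcomm g hg _ (R.inv_mem hh), ← hψ h hh g hg, Z.βs]
  have h3' : ∀ v w, θ y (β v w) = β v w := by
    intro v w
    rw [← Z.βθ, h3]
  refine ⟨h3', ?_⟩
  -- (4)
  have h4 : ∀ v w, β (τ y (v + w)) (v + w) = β (τ y v) v + β (τ y w) w := by
    intro v w
    have h5 : β (τ y w) v = β (τ y v) w := by
      rw [← h3 (τ y w) v, hyy, Z.βs]
    rw [map_add, Z.βl, Z.βr, Z.βr, h5]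
    have h6 := Z.two (β (τ y v) w)
    have h7 : β (τ y v) v + β (τ y v) w + (β (τ y v) w + β (τ y w) w) =
        β (τ y v) v + β (τ y w) w + (β (τ y v) w + β (τ y v) w) := by abel
    rw [h7, h6, add_zero]
  -- (5)
  obtain ⟨h, hh, hh0⟩ : ∃ h ∈ R, β v0 (τ h v0) ≠ 0 := by
    by_contra hcon
    push Not at hcon
    obtain ⟨v, w, hvw⟩ := hne
    apply hvw
    refine ind (fun v => β v w = 0) (hβ0l w) (fun a b h1 h2 => by rw [Z.βl, h1, h2, add_zero]) ?_ v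
    intro g hg
    refine ind (fun w => β (τ g v0) w = 0) (hβ0r _) (fun a b h1 h2 => by rw [Z.βr, h1, h2, add_zero]) ?_ w
    intro h hh
    rw [hψ g hg h hh]
    exact hcon _ (R.mul_mem (R.inv_mem hg) hh)
  obtain ⟨g, hg, hgh⟩ : ∃ g ∈ R, h = g * g := by
    have hodd : Odd (Nat.card R) := by
      have : Fact r.Prime := ⟨hr⟩
      obtain ⟨n, hn⟩ := IsPGroup.iff_card.mp D.core.hR
      rw [hn]
      exact (hr.odd_of_ne_two hr2).pow
    obtain ⟨n, hn⟩ := hodd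
    have h1 : h ^ Nat.card R = 1 := by
      have h2 : (⟨h, hh⟩ : R) ^ Nat.card R = 1 := pow_card_eq_one'
      exact congrArg Subtype.val h2
    refine ⟨h ^ (n + 1), R.pow_mem hh _, ?_⟩
    rw [← pow_add, show n + 1 + (n + 1) = Nat.card R + 1 by omega, pow_succ, h1, one_mul]
  obtain ⟨w, hw⟩ : ∃ w, w = τ g v0 := ⟨_, rfl⟩
  have hFw : β (τ y w) w ≠ 0 := by
    rw [hw, hyg g hg, hψ _ (R.inv_mem hg) g hg, inv_inv, ← hgh]
    exact hh0
  -- (6)
  have h6 : ∀ v, θ x (β (τ y v) v) = β (τ y (τ x v)) (τ x v) := by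
    intro v
    rw [hyx, Z.βθ]
  have h7 : ∀ v, θ x (θ x (β (τ y v) v)) = β (τ y v) v := by
    intro v
    rw [← Z.θmul, ← pow_two, ← hy]
    exact h3' _ _
  by_cases hc : θ x (β (τ y w) w) = β (τ y w) w
  · exact ⟨w, hFw, hc⟩
  · refine ⟨w + τ x w, ?_, ?_⟩
    · rw [h4, ← h6]
      intro h8
      apply hc
      have h9 := Z.two (β (τ y w) w)
      rw [← h8] at h9
      exact (add_left_cancel h9).symm
    · rw [h4, ← h6, Z.θadd, h7, add_comm]

end Pool.Agent.Lib.MP_544bd1_al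
end

section

/-!
Theorem Z3, Case A, `P` nonabelian: the elements `f, c, n, p₂`.
-/

namespace Pool.Agent.Lib.MP_544bd1_al

open Subgroup

/-- **The elements `f, c, n, p₂`.**

Proof. `zt_module` for `D.core` (gives `V, τ, φ` with `ZMd Q R τ φ`), `zt_quad`: `K, ι, θ, q, β`, `Z`.
`β v w ≠ 0` for some `v, w` (`hQ`, `Z.hβ`, `ι 0 = 1`). `zt_lin`: with `y = x ^ 2`, `θ y (β v w) = β v w`,
and `v` with `k = β (τ y v) v ≠ 0`, `θ x k = k`. Commutators of elements of `Q` are `ι (β _ _)`: central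
in `Q` (`Z.ιc`), of order `≤ 2` (`Z.two`), and commute with `y` (`Z.ιθ`). So `y` centralizes `⁅Q, Q⁆`
(closure induction) and `θ y l = l` for all `l : K` (`Z.ιQ`, `Z.ιθ`, `Z.inj`). Let `f = ι k`: `f ≠ 1`,
`f ^ 2 = 1`, `f` commutes with `Q` and `ρ ∈ R` (`Z.ιR`) and with `x` (`Z.ιθ`). Let `φ p₂ = v`,
`c = p₂ * (y * p₂ * y⁻¹) ∈ Q`, `y ^ 2 = 1`:
`(p₂ * y) ^ 2 = c`, `(p₂ * y) ^ 4 = c ^ 2 = ι (q (v + τ y v)) = ι (q v + q (τ y v) + β v (τ y v))
= ι (β v (τ y v)) = f` (`q (τ y v) = θ y (q v) = q v`, `Z.two`, `Z.βs`).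
`y * c * y⁻¹ = (y * p₂ * y⁻¹) * p₂ = f * c` (`f` is the commutator of `y * p₂ * y⁻¹` and `p₂`, `Z.hβ`), so
`c⁻¹ * y * c = y * f`. Let `n = c⁻¹ * (x * c * x⁻¹)`: `y * n * y⁻¹ = (f * c)⁻¹ * (x * (f * c) * x⁻¹) = n`.
`n ^ 2 = ι (q (u + τ x u))` with `u = φ c = v + τ y v`; `q (u + τ x u) = q u + θ x (q u) + β u (τ x u)`,
`ι (q u) = c ^ 2 = f`, so the first two terms cancel, and
`β u (τ x u) = β v (τ x v) + β v (τ x (τ y v)) + β (τ y v) (τ x v) + β (τ y v) (τ x (τ y v)) = 0` by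
`β (τ y v) w = β v (τ y w)` (`Z.βθ` with `θ y = id`, `τ y (τ y w) = w`). So `n ^ 2 = 1`.
`x * n * x⁻¹ = (x * c * x⁻¹)⁻¹ * (y * c * y⁻¹) = (x * c * x⁻¹)⁻¹ * c * f = n⁻¹ * f = n * f`, so
`n⁻¹ * x * n = x * f`. -/
theorem zt_A2e {F : Type} [Group F] [Finite F] {r : ℕ} (hr : r.Prime) (hr2 : r ≠ 2)
    {Q R : Subgroup F} [Q.Normal] {x ρ : F} (D : ZHon r Q R x ρ)
    (hQ : ∃ q ∈ Q, ∃ q' ∈ Q, q * q' ≠ q' * q) :
    (∀ q ∈ Q, ∀ q' ∈ Q, ∀ q'' ∈ Q, q * q' * q⁻¹ * q'⁻¹ * q'' = q'' * (q * q' * q⁻¹ * q'⁻¹)) ∧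
      (∀ q ∈ Q, ∀ q' ∈ Q, x ^ 2 * (q * q' * q⁻¹ * q'⁻¹) = q * q' * q⁻¹ * q'⁻¹ * x ^ 2) ∧
      (∀ q ∈ Q, ∀ q' ∈ Q, (q * q' * q⁻¹ * q'⁻¹) ^ 2 = 1) ∧
      ∃ f c n p₂ : F, f ∈ ⁅Q, Q⁆ ∧ f ≠ 1 ∧ f ^ 2 = 1 ∧ (∀ q ∈ Q, f * q = q * f) ∧ f * x = x * f ∧
        f * ρ = ρ * f ∧ c ∈ Q ∧ c⁻¹ * x ^ 2 * c = x ^ 2 * f ∧ n ∈ Q ∧ n⁻¹ * x * n = x * f ∧
        n * x ^ 2 = x ^ 2 * n ∧ p₂ ∈ Q ∧ (p₂ * x ^ 2) ^ 4 = f := by
  have hQn : Q.Normal := inferInstance
  obtain ⟨V, iA, iM, iF, τ, φ, hs, ha, hτ, hfa, hker⟩ := zt_module hr hr2 Q R D.core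
  have M : ZMd Q R τ φ := ⟨hs, ha, hτ, hfa, hker⟩
  obtain ⟨K, iK, ι, θ, q, β, Z⟩ := zt_quad hr hr2 D.core M
  have hι0 : ι 0 = 1 := by
    have h1 := Z.ιadd 0 0
    rw [add_zero] at h1
    exact (left_eq_mul.1 h1)
  have hcomm : ∀ a ∈ Q, ∀ b ∈ Q, ∃ v w, a * b * a⁻¹ * b⁻¹ = ι (β v w) := fun a ha' b hb' =>
    ⟨φ ⟨a, ha'⟩, φ ⟨b, hb'⟩, (Z.hβ ⟨a, ha'⟩ ⟨b, hb'⟩).symm⟩
  have hne : ∃ v w, β v w ≠ 0 := by
    by_contra hcon
    push Not at hcon
    obtain ⟨a, ha', b, hb', hab⟩ := hQ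
    obtain ⟨v, w, hvw⟩ := hcomm a ha' b hb'
    rw [hcon v w, hι0] at hvw
    refine hab ?_
    calc a * b = a * b * a⁻¹ * b⁻¹ * (b * a) := by group
      _ = b * a := by rw [hvw, one_mul]
  obtain ⟨hθy, v, hv, hxv⟩ := zt_lin hr hr2 D M Z hne
  set y : F := x ^ 2 with hy
  have hyy : y * y = 1 := by
    rw [hy, ← pow_add]
    exact D.hx
  have hyi : y⁻¹ = y := inv_eq_of_mul_eq_one_left hyy
  have hyβ : ∀ v w, y * ι (β v w) = ι (β v w) * y := by
    intro v w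
    have h1 := Z.ιθ y (β v w)
    rw [hθy v w] at h1
    calc y * ι (β v w) = y * ι (β v w) * y⁻¹ * y := by group
      _ = ι (β v w) * y := by rw [← h1]
  have hι2 : ∀ k, ι k * ι k = 1 := by
    intro k
    rw [← Z.ιadd, Z.two, hι0]
  refine ⟨?_, ?_, ?_, ?_⟩
  · intro a ha' b hb' d hd
    obtain ⟨v, w, hvw⟩ := hcomm a ha' b hb'
    rw [hvw]
    exact (Z.ιc _ d hd).symm
  · intro a ha' b hb'
    obtain ⟨v, w, hvw⟩ := hcomm a ha' b hb'
    rw [hvw]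
    exact hyβ v w
  · intro a ha' b hb'
    obtain ⟨v, w, hvw⟩ := hcomm a ha' b hb'
    rw [hvw, pow_two]
    exact hι2 _
  have hyQ : ⁅Q, Q⁆ ≤ centralizer {y} := by
    rw [Subgroup.commutator_le]
    intro a ha' b hb'
    rw [Subgroup.mem_centralizer_singleton_iff, commutatorElement_def]
    obtain ⟨v, w, hvw⟩ := hcomm a ha' b hb'
    rw [hvw]
    first
      | exact hyβ v w
      | exact (hyβ v w).symm
  have hθyl : ∀ l, θ y l = l := by
    intro l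
    refine Z.inj ?_
    rw [Z.ιθ]
    have h1 := hyQ (Z.ιQ l)
    rw [Subgroup.mem_centralizer_singleton_iff] at h1
    first
      | rw [h1, mul_inv_cancel_right]
      | rw [← h1, mul_inv_cancel_right]
  set k : K := β (τ y v) v with hk
  have hf2 : ι k * ι k = 1 := hι2 k
  have hfx : x * ι k * x⁻¹ = ι k := by rw [← Z.ιθ, hxv]
  have hfx' : ι k * x = x * ι k := by
    calc ι k * x = x * ι k * x⁻¹ * x := by rw [hfx]
      _ = x * ι k := by group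
  have hfy : ι k * y = y * ι k := (hyβ _ _).symm
  have hfQ : ∀ a ∈ Q, ι k * a = a * ι k := fun a ha' => (Z.ιc k a ha').symm
  obtain ⟨p, hp⟩ := M.surj v
  -- the element `y p y⁻¹`
  have hpyφ : φ ⟨y * p * y⁻¹, hQn.conj_mem _ p.2 y⟩ = τ y v := by rw [M.eqv, hp]
  set py : Q := ⟨y * p * y⁻¹, hQn.conj_mem _ p.2 y⟩ with hpy
  have hpyc : (py : F) = y * p * y⁻¹ := rfl
  have hcφ : φ (p * py) = v + τ y v := by rw [M.add, hp, hpyφ]
  set c : Q := p * py with hc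
  have hcc : (c : F) = p * (y * p * y⁻¹) := rfl
  have hqy : q (τ y v) = q v := by rw [Z.qθ, hθyl]
  have hqc : q (φ c) = k := by
    rw [hcφ, Z.qa, hqy, Z.two, zero_add, Z.βs]
  have hc2 : (c : F) ^ 2 = ι k := by rw [← Z.hq, hqc]
  have hpy2 : ((p : F) * y) ^ 2 = c := by
    rw [hcc, pow_two, hyi]
    group
  have hpy4 : ((p : F) * y) ^ 4 = ι k := by
    rw [show (4 : ℕ) = 2 * 2 from rfl, pow_mul, hpy2, hc2]
  have hfpp : ι k = (py : F) * p * (py : F)⁻¹ * (p : F)⁻¹ := by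
    rw [← Z.hβ, hp, hpyφ]
  have hycy : y * (c : F) * y⁻¹ = ι k * c := by
    have e1 : y * (c : F) * y⁻¹ = (py : F) * p := by
      rw [hcc, hpyc]
      calc y * (p * (y * p * y⁻¹)) * y⁻¹ = y * p * (y * p * y⁻¹) * y⁻¹ := by group
        _ = y * p * (y * p * y) * y := by rw [hyi]
        _ = y * p * y * p * (y * y) := by group
        _ = y * p * y * p := by rw [hyy, mul_one]
        _ = y * p * y⁻¹ * p := by rw [hyi]
    rw [e1, hfpp, hc]
    push_cast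
    group
  have hyc : y * (c : F) = ι k * c * y := by
    rw [← hycy]
    group
  have hcyc : (c : F)⁻¹ * y * c = y * ι k := by
    calc (c : F)⁻¹ * y * c = (c : F)⁻¹ * (y * c) := by group
      _ = (c : F)⁻¹ * (ι k * c * y) := by rw [hyc]
      _ = (c : F)⁻¹ * (c * ι k * y) := by rw [hfQ c c.2]
      _ = ι k * y := by group
      _ = y * ι k := hfy
  -- the element `n`
  have hxc : φ ⟨x * c * x⁻¹, hQn.conj_mem _ c.2 x⟩ = τ x (φ c) := M.eqv x c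
  set xc : Q := ⟨x * c * x⁻¹, hQn.conj_mem _ c.2 x⟩ with hxcd
  have hxcc : (xc : F) = x * c * x⁻¹ := rfl
  have hV2 : ∀ w : V, w + w = 0 := by
    intro w
    have h1 : (2 : ZMod 2) • w = 0 := by
      rw [show (2 : ZMod 2) = 0 from rfl, zero_smul]
    rwa [two_smul] at h1
  have hφi : ∀ a : Q, φ a⁻¹ = φ a := by
    intro a
    have h0 : φ 1 = 0 := by
      have h1 := M.add 1 1
      rw [mul_one] at h1
      exact (left_eq_add.1 h1)
    have h1 := M.add a a⁻¹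
    rw [mul_inv_cancel, h0] at h1
    have h2 := hV2 (φ a)
    exact (add_left_cancel (h2.trans h1)).symm
  set u : V := φ c with hu
  have hnφ : φ (c⁻¹ * xc) = u + τ x u := by rw [M.add, hφi, hxc]
  have hτy2 : ∀ w, τ y (τ y w) = w := by
    intro w
    rw [← Module.End.mul_apply, ← map_mul, hyy, map_one, Module.End.one_apply]
  have hτxy : ∀ w, τ y (τ x w) = τ x (τ y w) := by
    intro w
    rw [← Module.End.mul_apply, ← map_mul, ← Module.End.mul_apply, ← map_mul]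
    have h1 : y * x = x * y := by
      rw [hy]
      exact (pow_mul_comm' x 2)
    rw [h1]
  have hβy : ∀ w w', β (τ y w) w' = β w (τ y w') := by
    intro w w'
    have h1 := Z.βθ y w (τ y w')
    rw [hτy2, hθy] at h1
    exact h1
  have hβu : β u (τ x u) = 0 := by
    have e0 : u = v + τ y v := hcφ
    rw [e0, map_add, Z.βl, Z.βr, Z.βr, hβy v (τ x v), hβy v (τ x (τ y v)), hτxy v, hτxy (τ y v), hτy2]
    have e1 : β v (τ x v) + β v (τ x (τ y v)) + (β v (τ x (τ y v)) + β v (τ x v)) =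
        (β v (τ x v) + β v (τ x v)) + (β v (τ x (τ y v)) + β v (τ x (τ y v))) := by abel
    rw [e1, Z.two, Z.two, add_zero]
  have hqn : q (u + τ x u) = 0 := by
    rw [Z.qa, Z.qθ, hβu, hqc, hxv, Z.two, add_zero]
  set n : F := (c : F)⁻¹ * (x * c * x⁻¹) with hn
  have hnc : ((c⁻¹ * xc : Q) : F) = n := rfl
  have hn2 : n * n = 1 := by
    rw [← pow_two, ← hnc, ← Z.hq, hnφ, hqn, hι0]
  have hnQ : n ∈ Q := by
    rw [← hnc]
    exact (c⁻¹ * xc).2
  have hni : n⁻¹ = n := inv_eq_of_mul_eq_one_left hn2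
  have hxfc : x * (ι k * c) * x⁻¹ = ι k * (x * c * x⁻¹) := by
    calc x * (ι k * c) * x⁻¹ = (x * ι k * x⁻¹) * (x * c * x⁻¹) := by group
      _ = ι k * (x * c * x⁻¹) := by rw [hfx]
  have hyx : y * x = x * y := by
    rw [hy]
    exact (pow_mul_comm' x 2)
  have hyny : y * n * y⁻¹ = n := by
    have hyxi : y * x⁻¹ = x⁻¹ * y := by
      calc y * x⁻¹ = x⁻¹ * (x * y) * x⁻¹ := by group
        _ = x⁻¹ * (y * x) * x⁻¹ := by rw [hyx]
        _ = x⁻¹ * y := by group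
    calc y * n * y⁻¹ = (y * c * y⁻¹)⁻¹ * (y * x) * c * x⁻¹ * y⁻¹ := by rw [hn]; group
      _ = (y * c * y⁻¹)⁻¹ * (x * y) * c * x⁻¹ * y⁻¹ := by rw [hyx]
      _ = (y * c * y⁻¹)⁻¹ * x * (y * c * y⁻¹) * (y * x⁻¹) * y⁻¹ := by group
      _ = (y * c * y⁻¹)⁻¹ * x * (y * c * y⁻¹) * (x⁻¹ * y) * y⁻¹ := by rw [hyxi]
      _ = (ι k * c)⁻¹ * x * (ι k * c) * (x⁻¹ * y) * y⁻¹ := by rw [hycy]
      _ = (ι k * c)⁻¹ * (x * (ι k * c) * x⁻¹) := by group
      _ = (ι k * c)⁻¹ * (ι k * (x * c * x⁻¹)) := by rw [hxfc]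
      _ = n := by rw [hn]; group
  have hxn : x * n * x⁻¹ = n * ι k := by
    calc x * n * x⁻¹ = (x * c * x⁻¹)⁻¹ * (x ^ 2 * c * (x ^ 2)⁻¹) := by rw [hn]; group
      _ = (x * c * x⁻¹)⁻¹ * (ι k * c) := by rw [← hy, hycy]
      _ = (x * c * x⁻¹)⁻¹ * (c * ι k) := by rw [hfQ c c.2]
      _ = n⁻¹ * ι k := by rw [hn]; group
      _ = n * ι k := by rw [hni]
  refine ⟨ι k, c, n, p, Z.ιQ k, ?_, ?_, hfQ, hfx', ?_, c.2, hcyc, hnQ, ?_, ?_, p.2, hpy4⟩
  · intro h1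
    refine hv (Z.inj ?_)
    rw [hι0]
    exact h1
  · rw [pow_two]
    exact hf2
  · exact (Z.ιR k ρ D.hρ).symm
  · calc n⁻¹ * x * n = n⁻¹ * (x * n * x⁻¹) * x := by group
      _ = n⁻¹ * (n * ι k) * x := by rw [hxn]
      _ = ι k * x := by group
      _ = x * ι k := hfx'
  · calc n * y = y * n * y⁻¹ * y := by rw [hyny]
      _ = y * n := by group

end Pool.Agent.Lib.MP_544bd1_al
end

section

/-!
Theorem Z3, Case A, `P` nonabelian: images and restrictions of configurations.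
-/

namespace Pool.Agent.Lib.MP_544bd1_al

open Subgroup

/-- the image of a configuration -/
theorem ZA2F.map {m : ℕ} {F H : Type} [Group F] [Group H] (g : F →* H) {P : Subgroup F}
    {x ρ f p₂ p₃ : F} (D : ZA2F m P x ρ f p₂ p₃) (hz : g f ≠ 1) :
    ZA2F m (P.map g) (g x) (g ρ) (g f) (g p₂) (g p₃) := by
  refine ⟨?_, ?_, ?_, ?_, ?_, ?_, ?_, ?_, hz, ?_, ?_, ?_, ?_, ⟨_, D.hp₂, rfl⟩, ?_,
    ⟨_, D.hp₃, rfl⟩, ?_, ?_, ?_⟩
  · rw [← map_pow, D.hx, map_one]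
  · rw [← map_pow, D.hρ, map_one]
  · rintro _ ⟨q, hq, rfl⟩
    exact ⟨_, D.hPx q hq, by simp⟩
  · rintro _ ⟨q, hq, rfl⟩
    exact ⟨_, D.hPρ q hq, by simp⟩
  · rintro _ ⟨q, hq, rfl⟩ _ ⟨q', hq', rfl⟩ _ ⟨q'', hq'', rfl⟩
    have := congrArg g (D.cl q hq q' hq' q'' hq'')
    simpa only [map_mul, map_inv] using this
  · rintro _ ⟨q, hq, rfl⟩ _ ⟨q', hq', rfl⟩
    have := congrArg g (D.cy q hq q' hq')
    simpa only [map_mul, map_inv, map_pow] using this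
  · rintro _ ⟨q, hq, rfl⟩ _ ⟨q', hq', rfl⟩
    have := congrArg g (D.c2 q hq q' hq')
    simpa only [map_mul, map_inv, map_pow, map_one] using this
  · rw [← Subgroup.map_commutator]
    exact ⟨_, D.hfP, rfl⟩
  · rw [← map_pow, D.hf2, map_one]
  · rintro _ ⟨q, hq, rfl⟩
    rw [← map_mul, D.hfc q hq, map_mul]
  · rw [← map_mul, D.hfx, map_mul]
  · rw [← map_mul, D.hfρ, map_mul]
  · rw [← map_pow, ← map_mul, ← map_pow, D.ht]
  · rw [← map_mul, ← map_pow]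
    exact ⟨_, D.hn3, rfl⟩
  · rw [← map_mul, ← map_pow, D.hu, map_one]
  · intro P' h1 h2 h3 h4
    have h5 : P ⊓ P'.comap g = P := by
      apply D.gen _ inf_le_left
      · refine ⟨D.hn3, ?_⟩
        show g ((p₃ * x) ^ 4) ∈ P'
        rw [map_pow, map_mul]
        exact h2
      · rintro q ⟨hq, hq'⟩
        refine ⟨D.hPx q hq, ?_⟩
        show g (x * q * x⁻¹) ∈ P'
        rw [map_mul, map_mul, map_inv]
        exact h3 _ hq'
      · rintro q ⟨hq, hq'⟩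
        refine ⟨D.hPρ q hq, ?_⟩
        show g (ρ * q * ρ⁻¹) ∈ P'
        rw [map_mul, map_mul, map_inv]
        exact h4 _ hq'
    refine le_antisymm h1 ?_
    rintro _ ⟨q, hq, rfl⟩
    rw [← h5] at hq
    exact hq.2

/-- the restriction of a configuration to a subgroup -/
theorem ZA2F.sub {m : ℕ} {F : Type} [Group F] {P : Subgroup F} {x ρ f p₂ p₃ : F}
    (D : ZA2F m P x ρ f p₂ p₃) (N : Subgroup F) (hPN : P ≤ N) (hxN : x ∈ N) (hρN : ρ ∈ N)
    (hfN : f ∈ N) :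
    ZA2F m (P.subgroupOf N) (⟨x, hxN⟩ : N) ⟨ρ, hρN⟩ ⟨f, hfN⟩ ⟨p₂, hPN D.hp₂⟩
      ⟨p₃, hPN D.hp₃⟩ := by
  refine ⟨?_, ?_, ?_, ?_, ?_, ?_, ?_, ?_, ?_, ?_, ?_, ?_, ?_, ?_, ?_, ?_, ?_, ?_, ?_⟩
  · exact Subtype.ext (by simpa using D.hx)
  · exact Subtype.ext (by simpa using D.hρ)
  · intro q hq
    exact D.hPx q hq
  · intro q hq
    exact D.hPρ q hq
  · intro q hq q' hq' q'' hq''
    exact Subtype.ext (by simpa using D.cl q hq q' hq' q'' hq'')
  · intro q hq q' hq'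
    exact Subtype.ext (by simpa using D.cy q hq q' hq')
  · intro q hq q' hq'
    exact Subtype.ext (by simpa using D.c2 q hq q' hq')
  · have h1 : (⁅P.subgroupOf N, P.subgroupOf N⁆).map N.subtype = ⁅P, P⁆ := by
      rw [Subgroup.map_commutator, Subgroup.map_subgroupOf_eq_of_le hPN]
    have h2 : f ∈ (⁅P.subgroupOf N, P.subgroupOf N⁆).map N.subtype := by
      rw [h1]
      exact D.hfP
    obtain ⟨f', hf', h3⟩ := h2
    have h4 : f' = ⟨f, hfN⟩ := Subtype.ext h3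
    rwa [← h4]
  · intro h
    exact D.hf1 (congrArg Subtype.val h)
  · exact Subtype.ext (by simpa using D.hf2)
  · intro q hq
    exact Subtype.ext (by simpa using D.hfc q hq)
  · exact Subtype.ext (by simpa using D.hfx)
  · exact Subtype.ext (by simpa using D.hfρ)
  · exact D.hp₂
  · exact Subtype.ext (by simpa using D.ht)
  · exact D.hp₃
  · exact D.hn3
  · exact Subtype.ext (by simpa using D.hu)
  · intro P' h1 h2 h3 h4
    have h5 : P'.map N.subtype = P := by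
      apply D.gen
      · rintro _ ⟨q, hq, rfl⟩
        exact h1 hq
      · exact ⟨_, h2, by simp⟩
      · rintro _ ⟨q, hq, rfl⟩
        exact ⟨_, h3 q hq, rfl⟩
      · rintro _ ⟨q, hq, rfl⟩
        exact ⟨_, h4 q hq, rfl⟩
    refine le_antisymm h1 ?_
    intro q hq
    have h6 : (q : F) ∈ P'.map N.subtype := by rw [h5]; exact hq
    obtain ⟨q', hq', h7⟩ := h6
    have h8 : q' = q := Subtype.ext h7
    rwa [← h8]

/-- the image of a full configuration under an injective homomorphism -/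
theorem ZA2.map {m : ℕ} {F H : Type} [Group F] [Group H] (g : F →* H)
    (hg : Function.Injective g) {P : Subgroup F}
    {x ρ f c n p₂ p₃ w : F} (D : ZA2 m P x ρ f c n p₂ p₃ w) :
    ZA2 m (P.map g) (g x) (g ρ) (g f) (g c) (g n) (g p₂) (g p₃) (g w) := by
  have e1 : closure {g x, (g w)⁻¹ * g x * g w} = (closure {x, w⁻¹ * x * w}).map g := by
    rw [MonoidHom.map_closure, Set.image_pair, map_mul, map_mul, map_inv]
  have e2 : closure {g ρ, g p₃ * g x} = (closure {ρ, p₃ * x}).map g := by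
    rw [MonoidHom.map_closure, Set.image_pair, map_mul]
  refine { D.toZA2F.map g (fun h => D.hf1 (hg (by rw [h, map_one]))) with
    hc := ⟨_, D.hc, rfl⟩
    hcx := ?_
    hn := ⟨_, D.hn, rfl⟩
    hnx := ?_
    hny := ?_
    hw := ?_
    hwP := ?_
    hwρ := ?_
    hu3 := ?_
    hux := ?_ }
  · have := congrArg g D.hcx
    simpa only [map_mul, map_inv, map_pow] using this
  · have := congrArg g D.hnx
    simpa only [map_mul, map_inv, map_pow] using this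
  · have := congrArg g D.hny
    simpa only [map_mul, map_inv, map_pow] using this
  · rw [e1]
    exact ⟨_, D.hw, rfl⟩
  · rw [e1]
    exact Subgroup.map_mono D.hwP
  · rw [e1]
    exact ⟨_, D.hwρ, rfl⟩
  · rw [e2]
    exact Subgroup.map_mono D.hu3
  · rw [e2]
    exact ⟨_, D.hux, rfl⟩

end Pool.Agent.Lib.MP_544bd1_al
end
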