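import Mathlib
import Pool.Agent.Lib.MP_544bd1_al.TwS2
import Pool.Agent.Lib.MP_544bd1_al.ZtF3
import Pool.Agent.Lib.MP_544bd1_al.ZtNorm
import Pool.Agent.Lib.MP_544bd1_al.ZtDefs3
import Pool.Agent.Lib.MP_544bd1_al.GpCent
import Pool.Agent.Lib.MP_544bd1_al.TwLZ

section

/-!
Theorem Z (paper 287): (Chain) and (Step), in the form used for FT and for 2.1.
-/

namespace Pool.Agent.Lib.MP_544bd1_al

open Subgroup

/-- one application of `zt_swap` -/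
private theorem zsfc_swap {m : ℕ} (hm : Odd m) {G : Type} [Group G] {T O : Subgroup G}
    (hO : ∀ y ∈ O, y ^ m = 1) (hTO : ∀ t ∈ T, ∀ y ∈ O, t * y * t⁻¹ ∈ O) {k f μ : G}
    (hkT : k ∈ T) (hfT : f ∈ T) (hμT : μ ∈ T) (hf2 : f ^ 2 = 1) (hkf : k * f = f * k)
    (hμf : μ * f = f * μ) (hμk : μ⁻¹ * k * μ = k * f)
    (hne : ∃ y ∈ O, k ^ 2 * y = y * k ^ 2 ∧ f * y ≠ y * f) :
    ∃ y ∈ O, k * y = y * k ∧ f * y ≠ y * f := by
  have hcent : ∀ t : G, t * k ^ 2 = k ^ 2 * t → ∀ y, k ^ 2 * y = y * k ^ 2 →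
      k ^ 2 * (t * y * t⁻¹) = (t * y * t⁻¹) * k ^ 2 := by
    intro t ht y hy
    have ht' : t⁻¹ * k ^ 2 = k ^ 2 * t⁻¹ := by
      calc t⁻¹ * k ^ 2 = t⁻¹ * (k ^ 2 * t) * t⁻¹ := by group
        _ = t⁻¹ * (t * k ^ 2) * t⁻¹ := by rw [ht]
        _ = k ^ 2 * t⁻¹ := by group
    calc k ^ 2 * (t * y * t⁻¹) = (k ^ 2 * t) * y * t⁻¹ := by group
      _ = t * (k ^ 2 * y) * t⁻¹ := by rw [← ht]; group
      _ = t * y * (k ^ 2 * t⁻¹) := by rw [hy]; group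
      _ = t * y * t⁻¹ * k ^ 2 := by rw [← ht']; group
  have hkk : k * k ^ 2 = k ^ 2 * k := by rw [← pow_succ', ← pow_succ]
  have hfk : f * k ^ 2 = k ^ 2 * f := by
    rw [pow_two, ← mul_assoc, ← hkf, mul_assoc, ← hkf, mul_assoc]
  have hμk2 : μ * k ^ 2 = k ^ 2 * μ := by
    have h1 : μ⁻¹ * k ^ 2 * μ = k ^ 2 := by
      calc μ⁻¹ * k ^ 2 * μ = (μ⁻¹ * k * μ) * (μ⁻¹ * k * μ) := by rw [pow_two]; group
        _ = (k * f) * (k * f) := by rw [hμk]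
        _ = k * (f * k) * f := by group
        _ = k * (k * f) * f := by rw [hkf]
        _ = k ^ 2 * f ^ 2 := by rw [pow_two, pow_two]; group
        _ = k ^ 2 := by rw [hf2, mul_one]
    calc μ * k ^ 2 = μ * (μ⁻¹ * k ^ 2 * μ) := by rw [h1]
      _ = k ^ 2 * μ := by group
  obtain ⟨A, hA⟩ : ∃ A : Subgroup G, ∀ y, y ∈ A ↔ y ∈ O ∧ k ^ 2 * y = y * k ^ 2 := by
    refine ⟨O ⊓ Subgroup.centralizer {k ^ 2}, fun y => ?_⟩
    rw [Subgroup.mem_inf, Subgroup.mem_centralizer_singleton_iff]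
    exact and_congr_right fun _ => eq_comm
  obtain ⟨y, hyA, hyk, hyf⟩ := zt_swap hm A (fun y hy => hO y ((hA y).1 hy).1) (x := k) (z := f)
    (μ := μ)
    (fun y hy => (hA _).2 ⟨hTO k hkT y ((hA y).1 hy).1, hcent k hkk y ((hA y).1 hy).2⟩)
    (fun y hy => (hA _).2 ⟨hTO f hfT y ((hA y).1 hy).1, hcent f hfk y ((hA y).1 hy).2⟩)
    (fun y hy => (hA _).2 ⟨hTO μ hμT y ((hA y).1 hy).1, hcent μ hμk2 y ((hA y).1 hy).2⟩)
    (fun y hy => ((hA y).1 hy).2) hf2 hkf hμf hμk (by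
      obtain ⟨y, hy, hyk, hyf⟩ := hne
      exact ⟨y, (hA y).2 ⟨hy, hyk⟩, hyf⟩)
  exact ⟨y, ((hA y).1 hyA).1, hyk, hyf⟩

/-- **(Chain)**

Proof. Let `g_c = g ^ (2 ^ c)`. We show by downward induction on `c`, from `c = a - 1` to `c = 0`
(induction on `j = a - 1 - c`): (S c) there is `μ ∈ T` with `μ * f = f * μ`, `μ⁻¹ * g_c * μ = g_c * f` and, if
`c ≥ 1`, `μ⁻¹ * (g_(c-1) * μ * g_(c-1)⁻¹) ∈ Y`; and there is `y ∈ O` commuting with `g_(c+1)` with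
`f * y ≠ y * f`. `c = a - 1`: `μ = u` (`hx`, `hm'`), `y` from `hne` (`g ^ (2 ^ a) = 1`).
(S c) → (S (c - 1)): `zt_swap` (ZtF3.lean) for the subgroup `A = O ⊓ centralizer {g_(c+1)}` (it is
normalized by `g_c`, `f` and `μ`: they commute with `g_(c+1) = g_c ^ 2`, for `μ`:
`μ⁻¹ * g_c ^ 2 * μ = (g_c * f) ^ 2 = g_c ^ 2`), `x := g_c`, `z := f`, `μ` gives `y' ∈ A` commuting with
`g_c`, `f * y' ≠ y' * f`. Let `μ' = μ⁻¹ * (g_(c-1) * μ * g_(c-1)⁻¹) ∈ Y`, `μ' ^ 2 = 1`. (Step):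
`g_c * μ * g_c⁻¹ = μ * f` (from `μ⁻¹ * g_c * μ = g_c * f`), `g_(c-1) * μ * g_(c-1)⁻¹ = μ * μ'`, so (conjugate
again with `g_(c-1)`, `g_(c-1) ^ 2 = g_c`) `μ * f = μ * μ' * (g_(c-1) * μ' * g_(c-1)⁻¹)`, i.e.
`g_(c-1) * μ' * g_(c-1)⁻¹ = μ' * f` and hence `μ'⁻¹ * g_(c-1) * μ' = g_(c-1) * f` (`μ'`, `f`, `g_(c-1)`
commute with `f`). The last condition for `μ'`: `Y` is normalized by `g`.
From (S 0): `zt_swap` once more for `A = O ⊓ centralizer {g ^ 2}`, `x := g`. -/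
theorem ysFT_chain {m a : ℕ} (hm : Odd m) (ha : 2 ≤ a) {G : Type} [Group G] {T O Y : Subgroup G}
    (hO : ∀ y ∈ O, y ^ m = 1) (hTO : ∀ t ∈ T, ∀ y ∈ O, t * y * t⁻¹ ∈ O) (hYT : Y ≤ T)
    (hY2 : ∀ y ∈ Y, y ^ 2 = 1) {g u f : G} (hgY : ∀ y ∈ Y, g * y * g⁻¹ ∈ Y) (hgT : g ∈ T)
    (huT : u ∈ T) (hfT : f ∈ T) (hg : g ^ (2 ^ a) = 1) (hf2 : f ^ 2 = 1) (hfg : g * f = f * g)
    (hfu : u * f = f * u) (hfY : ∀ y ∈ Y, y * f = f * y)
    (hx : u⁻¹ * g ^ (2 ^ (a - 1)) * u = g ^ (2 ^ (a - 1)) * f)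
    (hm' : u⁻¹ * (g ^ (2 ^ (a - 2)) * u * (g ^ (2 ^ (a - 2)))⁻¹) ∈ Y)
    (hne : ∃ y ∈ O, f * y ≠ y * f) : ∃ y ∈ O, g * y = y * g ∧ f * y ≠ y * f := by
  have hgf : ∀ n : ℕ, g ^ n * f = f * g ^ n := fun n =>
    (show Commute (g ^ n) f from (show Commute g f from hfg).pow_left n)
  have hgT' : ∀ n : ℕ, g ^ n ∈ T := fun n => T.pow_mem hgT n
  have hgY' : ∀ n : ℕ, ∀ y ∈ Y, g ^ n * y * (g ^ n)⁻¹ ∈ Y := by
    intro n
    induction n with
    | zero => intro y hy; simpa using hy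
    | succ n ih =>
      intro y hy
      have h2 := ih _ (hgY y hy)
      have e : g ^ n * (g * y * g⁻¹) * (g ^ n)⁻¹ = g ^ (n + 1) * y * (g ^ (n + 1))⁻¹ := by
        rw [pow_succ]
        group
      rwa [e] at h2
  have key : ∀ j c : ℕ, j + c = a - 1 → ∃ μ ∈ T, μ * f = f * μ ∧
      μ⁻¹ * g ^ (2 ^ c) * μ = g ^ (2 ^ c) * f ∧
      (1 ≤ c → μ⁻¹ * (g ^ (2 ^ (c - 1)) * μ * (g ^ (2 ^ (c - 1)))⁻¹) ∈ Y) ∧
      ∃ y ∈ O, (g ^ (2 ^ c)) ^ 2 * y = y * (g ^ (2 ^ c)) ^ 2 ∧ f * y ≠ y * f := by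
    intro j
    induction j with
    | zero =>
      intro c hc
      have hc' : c = a - 1 := by omega
      rw [hc']
      refine ⟨u, huT, hfu.symm ▸ rfl, hx, fun _ => ?_, ?_⟩
      · rw [show a - 1 - 1 = a - 2 by omega]
        exact hm'
      · obtain ⟨y, hy, hyf⟩ := hne
        refine ⟨y, hy, ?_, hyf⟩
        rw [← pow_mul, ← pow_succ, show a - 1 + 1 = a by omega, hg, one_mul, mul_one]
    | succ j ih =>
      intro c hc
      obtain ⟨μ, hμT, hμf, hμg, hμY, hy⟩ := ih (c + 1) (by omega)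
      have hsw := zsfc_swap hm hO hTO (hgT' _) hfT hμT hf2 (hgf _) hμf hμg hy
      have hμ' := hμY (by omega)
      rw [show c + 1 - 1 = c by omega] at hμ'
      obtain ⟨h, hh⟩ : ∃ h, h = g ^ (2 ^ c) := ⟨_, rfl⟩
      obtain ⟨μ', hμe⟩ : ∃ μ', μ' = μ⁻¹ * (h * μ * h⁻¹) := ⟨_, rfl⟩
      have hgc : g ^ (2 ^ (c + 1)) = h * h := by rw [hh, ← pow_add, pow_succ, mul_two]
      rw [← hh, ← hμe] at hμ'
      rw [hgc] at hμg hsw
      have hhf : h * f = f * h := by rw [hh]; exact hgf _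
      have hμ'2 : μ' * μ' = 1 := by rw [← pow_two]; exact hY2 _ hμ'
      have hμ'inv : μ'⁻¹ = μ' := inv_eq_of_mul_eq_one_left hμ'2
      have h1 : h * μ = μ * μ' * h := by rw [hμe]; group
      have h2 : μ * f = μ * μ' * (h * μ' * h⁻¹) := by
        have e1 : h * h * μ = μ * (h * h) * f := by
          calc h * h * μ = μ * (μ⁻¹ * (h * h) * μ) := by group
            _ = μ * (h * h * f) := by rw [hμg]
            _ = μ * (h * h) * f := by group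
        have e2 : (h * h) * f = f * (h * h) := by
          rw [mul_assoc, hhf, ← mul_assoc, hhf, mul_assoc]
        calc μ * f = μ * (f * (h * h)) * (h * h)⁻¹ := by group
          _ = μ * (h * h) * f * (h * h)⁻¹ := by rw [← e2]; group
          _ = h * h * μ * (h * h)⁻¹ := by rw [e1]
          _ = h * (h * μ) * (h * h)⁻¹ := by group
          _ = h * (μ * μ' * h) * (h * h)⁻¹ := by rw [h1]
          _ = (h * μ) * μ' * h⁻¹ := by group
          _ = μ * μ' * (h * μ' * h⁻¹) := by rw [h1]; group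
      have h3 : h * μ' * h⁻¹ = μ' * f := by
        have e1 : f = μ' * (h * μ' * h⁻¹) := by
          have := congrArg (fun z => μ⁻¹ * z) h2
          simp only [mul_assoc, inv_mul_cancel_left] at this ⊢
          exact this
        calc h * μ' * h⁻¹ = (μ' * μ') * (h * μ' * h⁻¹) := by rw [hμ'2, one_mul]
          _ = μ' * (μ' * (h * μ' * h⁻¹)) := by group
          _ = μ' * f := by rw [← e1]
      have h4 : μ'⁻¹ * h * μ' = h * f := by
        calc μ'⁻¹ * h * μ' = μ'⁻¹ * (h * μ' * h⁻¹) * h := by group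
          _ = μ'⁻¹ * (μ' * f) * h := by rw [h3]
          _ = f * h := by group
          _ = h * f := hhf.symm
      rw [← hh]
      refine ⟨μ', hYT hμ', hfY _ hμ', h4, fun _ => ?_, ?_⟩
      · exact Y.mul_mem (Y.inv_mem hμ') (hgY' _ _ hμ')
      · obtain ⟨y, hy, hy1, hy2⟩ := hsw
        exact ⟨y, hy, by rw [pow_two]; exact hy1, hy2⟩
  obtain ⟨μ, hμT, hμf, hμg, -, hy⟩ := key (a - 1) 0 (by omega)
  rw [pow_zero, pow_one] at hμg hy
  exact zsfc_swap hm hO hTO hgT hfT hμT hf2 hfg hμf hμg hy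

end Pool.Agent.Lib.MP_544bd1_al
end

section

/-!
Theorem Z (paper 287), (C3) and 4.1: the norm of `p` centralizes the odd groups.
-/

namespace Pool.Agent.Lib.MP_544bd1_al

open Subgroup

variable {m a : ℕ} {G : Type} [Group G]

/-- `z`, the norm of `p`, centralizes every odd group `O` normalized by `α` and `P`, if `z` inverts no
nontrivial odd element of the centralizers of `α` and of `p * α`.

Proof. Let `κ = α ^ (2 ^ (a - 1))` (`κ ^ 2 = 1` by `hα`), `z ∈ P`, `z ^ 2 = 1`, `α * z = z * α` (`ynorm_mem`,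
`ynorm_comm`). Suppose `z * x ≠ x * z` for some `x ∈ O`. `zt_f3` (`A := O`, `x := κ`): `e ∈ O`, `e ≠ 1`,
`z * e * z⁻¹ = e⁻¹`, `κ * e * κ⁻¹ = e` or `e⁻¹`. Note `z * e ≠ e * z` (otherwise `e = e⁻¹`, `fr_one_two`).
(a) `κ * e = e * κ`. Let `O₁ = O ⊓ centralizer {κ}`; `α` and `P` normalize it (they commute with `κ`).
`ys_chainP` for `O₁`: `g ∈ O₁` with `α * g = g * α`, `z * g ≠ g * z`. `s = g⁻¹ * (z * g * z⁻¹) ∈ O`, `s ≠ 1`,
`α * s = s * α`, `z * s * z⁻¹ = s⁻¹` (`z ^ 2 = 1`): contradiction to `h1`.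
(b) `κ * e * κ⁻¹ = e⁻¹`. Then `z * κ` commutes with `e`; `(p * α) ^ (2 ^ (a - 1)) = z * κ` (`ynorm_pow`). Let
`O₁ = O ⊓ centralizer {z * κ}`; `p * α` and `P` normalize it. `ys_chainP` for `O₁`, `P`, `p`, and `p * α` in
place of `α` (`ynorm (2 ^ (a - 1)) (p * α) p = z` by `ys_norm'`; `p * α` normalizes `P`; `hcen`, `hαk` for
`p * α`: `z * κ` commutes with `P` and `O₁`): `g ∈ O₁` with `p * α * g = g * (p * α)`, `z * g ≠ g * z`; again
`s = g⁻¹ * (z * g * z⁻¹)` contradicts `h2`. -/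
theorem ys_zO (hm : Odd m) (ha : 3 ≤ a) {O P : Subgroup G} (hO : ∀ x ∈ O, x ^ m = 1) {α p : G}
    (hα : α ^ (2 ^ a) = 1) (hP : ∀ x ∈ P, x ^ 2 = 1) (hαP : ∀ x ∈ P, α * x * α⁻¹ ∈ P)
    (hp : p ∈ P) (hcen : ∀ x ∈ P, α ^ (2 ^ (a - 1)) * x = x * α ^ (2 ^ (a - 1)))
    (hαO : ∀ x ∈ O, α * x * α⁻¹ ∈ O) (hPO : ∀ y ∈ P, ∀ x ∈ O, y * x * y⁻¹ ∈ O)
    (h1 : ∀ s : G, s ^ m = 1 →
      ynorm (2 ^ (a - 1)) α p * s * (ynorm (2 ^ (a - 1)) α p)⁻¹ = s⁻¹ → α * s = s * α → s = 1)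
    (h2 : ∀ s : G, s ^ m = 1 →
      ynorm (2 ^ (a - 1)) α p * s * (ynorm (2 ^ (a - 1)) α p)⁻¹ = s⁻¹ →
        p * α * s = s * (p * α) → s = 1) :
    ∀ x ∈ O, ynorm (2 ^ (a - 1)) α p * x = x * ynorm (2 ^ (a - 1)) α p := by
  intro x hx
  by_contra hne
  obtain ⟨k1, k2, k3, k4, k5, k6, k7⟩ := ys_norm (by omega) P hP hαP hp hcen
  have hnorm' := ys_norm' (by omega) P hP hαP hp hp hcen (2 ^ (a - 1))
  have hk5 := k5 (2 ^ (a - 1))
  obtain ⟨z, hz⟩ : ∃ z, z = ynorm (2 ^ (a - 1)) α p := ⟨_, rfl⟩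
  rw [← hz] at h1 h2 hne k3 k4 hnorm' hk5
  have hzP : z ∈ P := by rw [hz]; exact k1 _
  have hzO : ∀ x ∈ O, z * x * z⁻¹ ∈ O := hPO z hzP
  obtain ⟨κ, hκ⟩ : ∃ κ, κ = α ^ (2 ^ (a - 1)) := ⟨_, rfl⟩
  rw [← hκ] at hcen hk5
  have hκ2 : κ ^ 2 = 1 := by
    rw [hκ, ← pow_mul, ← pow_succ, show a - 1 + 1 = a by omega, hα]
  have hκO : ∀ x ∈ O, κ * x * κ⁻¹ ∈ O := by rw [hκ]; exact ys_pow_mem hαO _
  have hκz : κ * z = z * κ := hcen z hzP
  have hακ : α * κ = κ * α := by rw [hκ]; exact (Commute.self_pow α _).eq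
  have hpκ : p * κ = κ * p := (hcen p hp).symm
  have hpz : p * z = z * p := k2 p hp z hzP
  obtain ⟨e, he, he1, hze, hκe⟩ := zt_f3 hm O hO (x := κ) (z := z) hκO hzO
    (fun g _ => by rw [hκ2, one_mul, mul_one]) k3 hκz ⟨x, hx, hne⟩
  have hene : z * e ≠ e * z := by
    intro h
    have h3 : z * e * z⁻¹ = e := by rw [h]; group
    rw [h3] at hze
    apply he1
    apply fr_one_two hm (hO e he)
    rw [pow_two]
    nth_rewrite 2 [hze]
    group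
  have fin : ∀ β : G, (∀ s : G, s ^ m = 1 → z * s * z⁻¹ = s⁻¹ → β * s = s * β → s = 1) →
      β * z = z * β → ∀ g ∈ O, β * g = g * β → z * g ≠ g * z → False := by
    intro β hβ hβz g hg h3 h4
    have hc1 : Commute β z := hβz
    have hc2 : Commute β g := h3
    have h5 := hβ (g⁻¹ * (z * g * z⁻¹)) (hO _ (O.mul_mem (O.inv_mem hg) (hzO g hg))) (by
      have e1 : z * z = 1 := by rw [← pow_two]; exact k3
      have e2 : z⁻¹ * z⁻¹ = 1 := by rw [← mul_inv_rev, e1, inv_one]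
      calc z * (g⁻¹ * (z * g * z⁻¹)) * z⁻¹ = z * g⁻¹ * z * g * (z⁻¹ * z⁻¹) := by group
        _ = z * g⁻¹ * z * g := by rw [e2, mul_one]
        _ = z * g⁻¹ * (z⁻¹ * (z * z)) * g := by group
        _ = z * g⁻¹ * (z⁻¹ * 1) * g := by rw [e1]
        _ = (g⁻¹ * (z * g * z⁻¹))⁻¹ := by group)
      (hc2.inv_right.mul_right ((hc1.mul_right hc2).mul_right hc1.inv_right)).eq
    apply h4
    calc z * g = g * (g⁻¹ * (z * g * z⁻¹)) * z := by group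
      _ = g * z := by rw [h5, mul_one]
  -- normalizers of centralizers
  have hcl : ∀ t s : G, (∀ g ∈ O, s * g * s⁻¹ ∈ O) → t * s = s * t →
      ∀ g ∈ O ⊓ centralizer {t}, s * g * s⁻¹ ∈ O ⊓ centralizer {t} := by
    intro t s h3 h4 g hg
    rw [mem_inf, mem_centralizer_singleton_iff] at hg ⊢
    refine ⟨h3 g hg.1, ?_⟩
    have e1 : Commute t s := h4
    have e2 : Commute t g := hg.2.symm
    exact ((e1.mul_right e2).mul_right e1.inv_right).eq.symm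
  rcases hκe with hκe | hκe
  · -- `κ` centralizes `e`
    have hκe' : κ * e = e * κ := by
      calc κ * e = (κ * e * κ⁻¹) * κ := by group
        _ = e * κ := by rw [hκe]
    have h3 := ys_chainP (a := a) hm (by omega) (O ⊓ centralizer {κ}) P (fun g hg => hO g hg.1) hP hαP hp
      (by rw [← hκ]; exact hcen) (hcl κ α hαO hακ.symm)
      (fun y hy => hcl κ y (hPO y hy) (hcen y hy))
      (fun g hg => by
        rw [← hκ]
        exact (mem_centralizer_singleton_iff.1 hg.2).symm)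
      ⟨e, ⟨he, mem_centralizer_singleton_iff.2 hκe'.symm⟩, by rw [← hz]; exact hene⟩
    obtain ⟨g, hg, h4, h5⟩ := h3
    rw [← hz] at h5
    exact fin α (fun s s1 s2 s3 => h1 s s1 s2 s3) k4 g hg.1 h4 h5
  · -- `κ` inverts `e`
    have hzκe : (z * κ) * e = e * (z * κ) := by
      calc (z * κ) * e = z * (κ * e * κ⁻¹) * κ := by group
        _ = z * e⁻¹ * κ := by rw [hκe]
        _ = (z * e * z⁻¹)⁻¹ * z * κ := by group
        _ = e * (z * κ) := by rw [hze]; group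
    have hβP : ∀ x ∈ P, (p * α) * x * (p * α)⁻¹ ∈ P := by
      intro y hy
      have h3 := P.mul_mem (P.mul_mem hp (hαP y hy)) (P.inv_mem hp)
      have h4 : (p * α) * y * (p * α)⁻¹ = p * (α * y * α⁻¹) * p⁻¹ := by group
      rwa [h4]
    have hβO : ∀ x ∈ O, (p * α) * x * (p * α)⁻¹ ∈ O := by
      intro y hy
      have h3 := hPO p hp _ (hαO y hy)
      have h4 : (p * α) * y * (p * α)⁻¹ = p * (α * y * α⁻¹) * p⁻¹ := by group
      rwa [h4]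
    have hczκ : ∀ y ∈ P, (z * κ) * y = y * (z * κ) := by
      intro y hy
      have e1 : Commute z y := k2 z hzP y hy
      have e2 : Commute κ y := hcen y hy
      exact (e1.mul_left e2).eq
    have hβc : (z * κ) * (p * α) = (p * α) * (z * κ) := by
      have e1 : Commute z p := hpz.symm
      have e2 : Commute κ p := hpκ.symm
      have e3 : Commute z α := k4.symm
      have e4 : Commute κ α := hακ.symm
      exact ((e1.mul_left e2).mul_right (e3.mul_left e4)).eq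
    have hβz : (p * α) * z = z * (p * α) := by
      have e1 : Commute z p := hpz.symm
      have e3 : Commute z α := k4.symm
      exact (e1.mul_right e3).eq.symm
    rw [hκ] at hk5
    have hk5' : (p * α) ^ (2 ^ (a - 1)) = z * κ := by rw [hk5, hκ]
    have h3 := ys_chainP (a := a) hm (by omega) (O ⊓ centralizer {z * κ}) P (fun g hg => hO g hg.1) hP hβP
      hp (by rw [hk5']; exact hczκ) (hcl (z * κ) (p * α) hβO hβc)
      (fun y hy => hcl (z * κ) y (hPO y hy) (hczκ y hy))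
      (fun g hg => by
        rw [hk5']
        exact (mem_centralizer_singleton_iff.1 hg.2).symm)
      ⟨e, ⟨he, mem_centralizer_singleton_iff.2 hzκe.symm⟩, by rw [hnorm']; exact hene⟩
    obtain ⟨g, hg, h4, h5⟩ := h3
    rw [hnorm'] at h5
    exact fin (p * α) (fun s s1 s2 s3 => h2 s s1 s2 s3) hβz g hg.1 h4 h5

/-- an involution of `O_{2',2}(T)` which centralizes the odd subgroups normalized by `T` is in
`O_2(T)`.

Proof. `gp_cent` in the group `↥T` (`M := m`, `r := 2`, `b := a`; `InOP.top_iff`, `InO.top_iff`); for `h2`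
of `gp_cent` take `O := (krad m T).map T.subtype` in `h` (`tw_krad_pow`, `zt_cop`-like coprimality; it is
normalized by `T`, as `krad` is normal). -/
theorem ys_inO2 (hm : Odd m) (hexp : ∀ x : G, x ^ (m * 2 ^ a) = 1) (ha : 1 ≤ a) {T : Subgroup G}
    (hT : Finite T) {z : G} (hz : InOP m (2 ^ a) T z) (hz2 : z ^ 2 = 1)
    (h : ∀ O : Subgroup G, O ≤ T → (∀ x ∈ O, x ^ m = 1) → (∀ t ∈ T, ∀ x ∈ O, t * x * t⁻¹ ∈ O) →
      ∀ x ∈ O, z * x = x * z) : InO (2 ^ a) T z := by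
  have hzT : z ∈ T := by
    obtain ⟨N, K, -, h2, h3, -⟩ := hz
    exact h2 h3
  have hm0 : 0 < m := hm.pos
  have h2m : ¬ 2 ∣ m := fun h2 => (Nat.not_even_iff_odd.2 hm) (even_iff_two_dvd.2 h2)
  have hexpT : ∀ x : T, x ^ (m * 2 ^ a) = 1 := fun x => Subtype.ext (by
    rw [SubmonoidClass.coe_pow]
    exact hexp x)
  have hw : (⟨z, hzT⟩ : T) ^ (2 ^ a) = 1 := by
    apply Subtype.ext
    change z ^ (2 ^ a) = 1
    rw [show a = 1 + (a - 1) by omega, pow_add, pow_one, pow_mul, hz2, one_pow]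
  have hcop : Nat.Coprime m (2 ^ a) :=
    ((Nat.Prime.coprime_iff_not_dvd Nat.prime_two).2 h2m).symm.pow_right a
  have h3 := gp_cent (M := m) (r := 2) (b := a) Nat.prime_two h2m hm0 hexpT hw
    ((InOP.top_iff (⟨z, hzT⟩ : T)).2 hz) (fun x hx => by
      apply Subtype.ext
      change z * (x : G) = x * z
      have hn : (krad m T).Normal := krad_normal m T
      refine h ((krad m T).map T.subtype) ?_ ?_ ?_ x ⟨x, hx, rfl⟩
      · rintro _ ⟨y, _, rfl⟩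
        exact y.2
      · rintro _ ⟨y, hy, rfl⟩
        have := tw_krad_pow hcop hexpT y hy
        rw [← map_pow, this, map_one]
      · rintro t ht _ ⟨y, hy, rfl⟩
        exact ⟨⟨t, ht⟩ * y * ⟨t, ht⟩⁻¹, hn.conj_mem y hy ⟨t, ht⟩, rfl⟩)
  exact (InO.top_iff (⟨z, hzT⟩ : T)).1 h3

end Pool.Agent.Lib.MP_544bd1_al
end

section

/-!
Theorem Z3: (R2).
-/

namespace Pool.Agent.Lib.MP_544bd1_al

open Subgroup

/-- **(R2)**

Proof. `H.bad z`: it is enough to show `GoodS m (2 ^ 3) z` if there is no `d`. `z ^ (2 ^ 3) = 1`. Let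
`T` be finite, solvable, `z ∈ T`; suppose `¬ InOP m (2 ^ 3) T z`. In `F := ↥T` (exponent
`m * 2 ^ 3`, `tw_exp_sub`) `zp m 3 F z₀ ≠ 1` (`zt_op_iff`, `InOP.top_iff`), where `z₀ = ⟨z, _⟩`. By
`zt_krad_ne` (with `zt_sol`, `zt_exp`, `zt_bot`) there is `y ∈ krad m (ZH m 3 F)` with
`zp z₀ * y ≠ y * zp z₀`. Let `e = y⁻¹ * (zp z₀ * y * (zp z₀)⁻¹)`: `e ≠ 1`, `e ^ m = 1` (`krad` is
normal, `tw_krad_pow`). Let `zp g = y`, `h = g⁻¹ * (z₀ * g * z₀⁻¹)`: `z₀ * h * z₀⁻¹ = h⁻¹`,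
`zp h = e`. Let `l ≡ 0 mod 2 ^ 3`, `l ≡ 1 mod m`, `d = h ^ l`: `d ^ m = 1`, `z₀ * d * z₀⁻¹ = d⁻¹`,
`zp d = e ^ l = e ≠ 1`. -/
theorem zt_R2 {m : ℕ} {G : Type} [Group G] (H : ZG m G) {z : G} (hz2 : z ^ 2 = 1) (hz1 : z ≠ 1) :
    ∃ d : G, d ≠ 1 ∧ d ^ m = 1 ∧ z * d * z⁻¹ = d⁻¹ := by
  have hm := H.hm
  by_contra hcon
  push Not at hcon
  have hz8 : z ^ (2 ^ 3) = 1 := by
    have : z ^ (2 ^ 3) = (z ^ 2) ^ 4 := by rw [← pow_mul]; norm_num
    rw [this, hz2, one_pow]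
  apply H.bad z hz2 hz1
  refine ⟨hz8, fun T hfin hsol hzT => ?_⟩
  by_contra hbad
  have hexpT : ∀ x : T, x ^ (m * 2 ^ 3) = 1 := tw_exp_sub H.tw.hexp T
  let z₀ : T := ⟨z, hzT⟩
  have hz₀2 : z₀ ^ 2 = 1 := Subtype.ext (by simpa [z₀] using hz2)
  have h1 : zp m 3 T z₀ ≠ 1 := by
    intro h
    apply hbad
    exact (InOP.top_iff z₀).1 ((zt_op_iff hm hexpT).2 h)
  have hZ2 : (zp m 3 T z₀) ^ 2 = 1 := by rw [← map_pow, hz₀2, map_one]
  obtain ⟨y, hy, hyne⟩ := zt_krad_ne (a := 3) hm (zt_sol (m := m) (a := 3) hsol) (zt_exp hexpT)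
    (zt_bot hm hexpT) hZ2 h1
  obtain ⟨g, rfl⟩ := zp_surj y
  have hzi : z₀⁻¹ = z₀ := fr_inv_of_sq hz₀2
  let h : T := g⁻¹ * (z₀ * g * z₀⁻¹)
  have hzh : z₀ * h * z₀⁻¹ = h⁻¹ := by
    have e0 : z₀ * z₀ = 1 := fr_mul_self hz₀2
    have e1 : h⁻¹ = z₀ * g⁻¹ * z₀⁻¹ * g := by simp only [h]; group
    rw [e1]
    simp only [h, hzi]
    calc z₀ * (g⁻¹ * (z₀ * g * z₀)) * z₀ = z₀ * g⁻¹ * z₀ * g * (z₀ * z₀) := by group
      _ = z₀ * g⁻¹ * z₀ * g := by rw [e0, mul_one]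
  have he : zp m 3 T h ∈ krad m (ZH m 3 T) := by
    simp only [h, map_mul, map_inv]
    exact mul_mem (inv_mem hy) ((krad_normal m _).conj_mem _ hy _)
  have hem : (zp m 3 T h) ^ m = 1 := tw_krad_pow (zt_cop hm 3) (zt_exp hexpT) _ he
  have hene : zp m 3 T h ≠ 1 := by
    intro e1
    apply hyne
    simp only [h, map_mul, map_inv] at e1
    have e2 := inv_mul_eq_one.1 e1
    calc zp m 3 T z₀ * zp m 3 T g = (zp m 3 T z₀ * zp m 3 T g * (zp m 3 T z₀)⁻¹) * zp m 3 T z₀ := by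
          group
      _ = zp m 3 T g * zp m 3 T z₀ := by rw [← e2]
  obtain ⟨l, hl1, hl2⟩ := Nat.chineseRemainder (zt_cop hm 3) 1 0
  have hd : ∀ k : ℕ, z₀ * h ^ k * z₀⁻¹ = (h ^ k)⁻¹ := by
    intro k
    rw [← conj_pow, hzh, inv_pow]
  have hlm : (h ^ l) ^ m = 1 := by
    obtain ⟨q, hq⟩ := (Nat.modEq_zero_iff_dvd).1 hl2
    rw [← pow_mul, hq, show 2 ^ 3 * q * m = m * 2 ^ 3 * q by ring, pow_mul, hexpT, one_pow]
  have hle : (zp m 3 T h) ^ l = zp m 3 T h := by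
    have e1 : (zp m 3 T h) ^ l = (zp m 3 T h) ^ 1 := by
      rw [pow_eq_pow_iff_modEq]
      exact hl1.of_dvd (orderOf_dvd_of_pow_eq_one hem)
    rw [e1, pow_one]
  apply hcon ((h ^ l : T) : G)
  · intro e1
    have e2 : h ^ l = 1 := Subtype.ext e1
    apply hene
    rw [← hle, ← map_pow, e2, map_one]
  · have := congrArg Subtype.val hlm
    simpa using this
  · have := congrArg Subtype.val (hd l)
    simpa [z₀] using this

end Pool.Agent.Lib.MP_544bd1_al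
end
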