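import Mathlib
import Pool.Agent.Lib.MP_544bd1_al.ZtA2H
import Pool.Agent.Lib.MP_544bd1_al.ZtA2m
import Pool.Agent.Lib.MP_544bd1_al.ZtA1Ta
import Pool.Agent.Lib.MP_544bd1_al.ZsLp
import Pool.Agent.Lib.MP_544bd1_al.ZsC4
import Pool.Agent.Lib.MP_544bd1_al.ZsBuv
import Pool.Agent.Lib.MP_544bd1_al.ZsC0
import Pool.Agent.Lib.MP_544bd1_al.ZsC2
import Pool.Agent.Lib.MP_544bd1_al.TwS2
import Pool.Agent.Lib.MP_544bd1_al.ZtR2
import Pool.Agent.Lib.MP_544bd1_al.ZtNS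
import Pool.Agent.Lib.MP_544bd1_al.GpAbs
import Pool.Agent.Lib.MP_544bd1_al.ZsFmain
import Pool.Agent.Lib.MP_544bd1_al.ZsLiftF
import Pool.Agent.Lib.MP_544bd1_al.ZtA1Tb
import Pool.Agent.Lib.MP_544bd1_al.ZsMn
import Pool.Agent.Lib.MP_544bd1_al.ZtDefs3
import Pool.Agent.Lib.MP_544bd1_al.GpOX
import Pool.Agent.Lib.MP_544bd1_al.EvFinal
import Pool.Agent.Lib.MP_544bd1_al.ZsB22
import Pool.Agent.Lib.MP_544bd1_al.ZsBRb
import Pool.Agent.Lib.MP_544bd1_al.Zs44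
import Pool.Agent.Lib.MP_544bd1_al.ZsBlk
import Pool.Agent.Lib.MP_544bd1_al.ZsLftN
import Pool.Agent.Lib.MP_544bd1_al.GpFinal
import Pool.Agent.Lib.MP_544bd1_al.E5.Small
import Pool.Agent.Lib.MP_544bd1_al.E5.Coind

section

/-!
Theorem Z3, Case A, `P` nonabelian: finality, and the configuration.
-/

namespace Pool.Agent.Lib.MP_544bd1_al

open Subgroup

/-- **3.3.** -/
theorem zt_A2D {m : ℕ} (hm : Odd m) {F : Type} [Group F] [Finite F]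
    (hsol : Group.IsSolvable F) (hexp : ∀ x : F, x ^ (m * 2 ^ 3) = 1) {P : Subgroup F}
    {x ρ f p₂ p₃ : F} (D : ZA2F m P x ρ f p₂ p₃) : InOP m (2 ^ 3) (⊤ : Subgroup F) f := by
  rw [zt_op_iff hm hexp]
  by_contra h
  exact zt_A2H hm (zt_sol hsol) (zt_exp hexp) (zt_bot hm hexp) (zt_rep hm hsol hexp)
    (D.map (zp m 3 F) h)

/-- **3.3 in a subgroup.** -/
theorem zt_A2D' {m : ℕ} (hm : Odd m) {G : Type} [Group G]
    (hexp : ∀ x : G, x ^ (m * 2 ^ 3) = 1) {P : Subgroup G}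
    {x ρ f p₂ p₃ : G} (D : ZA2F m P x ρ f p₂ p₃) (N : Subgroup G) (hfin : Finite N)
    (hsol : Group.IsSolvable N) (hPN : P ≤ N) (hxN : x ∈ N) (hρN : ρ ∈ N) (hfN : f ∈ N) :
    InOP m (2 ^ 3) N f := by
  have h := zt_A2D hm hsol (tw_exp_sub hexp N) (D.sub N hPN hxN hρN hfN)
  rwa [InOP.top_iff] at h

/-- **The configuration.** -/
theorem zt_A2cfg {m r : ℕ} (hm : Odd m) {F : Type} [Group F] [Finite F]
    (hexp : ∀ x : F, x ^ (m * 2 ^ 3) = 1) (hr : r.Prime) (hr2 : r ≠ 2) {Q R : Subgroup F}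
    [Q.Normal] {x ρ : F} (D : ZHon r Q R x ρ) (hQ : ∃ q ∈ Q, ∃ q' ∈ Q, q * q' ≠ q' * q) :
    ∃ f c n p₂ p₃ w : F, ZA2 m Q x ρ f c n p₂ p₃ w := by
  obtain ⟨h1, h2, h3, f, c, n, p₂, h4, h5, h6, h7, h8, h9, h10, h11, h12, h13, h14, h15, h16⟩ :=
    zt_A2e hr hr2 D hQ
  obtain ⟨g0, p₃, w, g1, g2, g3, g4, g5, g6, g7, g8, g9⟩ := zt_A2w hm hexp hr hr2 D
  have hn : Q.Normal := inferInstance
  exact ⟨f, c, n, p₂, p₃, w,
    { hx := D.hx
      hρ := g0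
      hPx := fun q hq => hn.conj_mem q hq x
      hPρ := fun q hq => hn.conj_mem q hq ρ
      cl := h1
      cy := h2
      c2 := h3
      hfP := h4
      hf1 := h5
      hf2 := h6
      hfc := h7
      hfx := h8
      hfρ := h9
      hc := h10
      hcx := h11
      hn := h12
      hnx := h13
      hny := h14
      hp₂ := h15
      ht := h16
      hp₃ := g1
      hn3 := g2
      hu := g3
      gen := g4
      hw := g5
      hwP := g6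
      hwρ := g7
      hu3 := g8
      hux := g9 }⟩

end Pool.Agent.Lib.MP_544bd1_al
end

section

/-!
General even exponents, section 2 (the base): (L+) for the minimal configuration.
-/

namespace Pool.Agent.Lib.MP_544bd1_al

open Subgroup

theorem zs_Lp {m a : ℕ} (ha : 2 ≤ a) (hm : Odd m) {F : Type} [Group F] [Finite F]
    (hexp : ∀ x : F, x ^ (m * 2 ^ a) = 1) {r : ℕ} (hr : r.Prime) (hr2 : r ≠ 2) {Q R : Subgroup F}
    [hQn : Q.Normal] {g s : F} (D : ZsMin r a Q R g) {V : Type} [AddCommGroup V]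
    [Module (ZMod 2) V] [Finite V] {τ : F →* Module.End (ZMod 2) V} {φ : Q → V}
    (M : ZMd Q R τ φ) (S : ZsRb r a R g s τ) : (τ g - 1) ^ (3 * 2 ^ (a - 2) - 1) ≠ 0 := by
  let α : R →* R := MonoidHom.mk' (fun x => ⟨g * x * g⁻¹, D.core.hxR x x.2⟩) (by
    intro x y
    apply Subtype.ext
    show g * ((x : F) * y) * g⁻¹ = g * x * g⁻¹ * (g * y * g⁻¹)
    group)
  have hα : ∀ (n : ℕ) (x : R), ((α^[n] x : R) : F) = g ^ n * x * (g ^ n)⁻¹ := by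
    intro n x
    induction n with
    | zero => simp
    | succ n ih =>
      rw [Function.iterate_succ_apply']
      show g * ((α^[n] x : R) : F) * g⁻¹ = _
      rw [ih, pow_succ']
      group
  have L : LDat (2 ^ a) α (τ.comp R.subtype) (τ g) := by
    refine ⟨?_, ?_, ?_⟩
    · intro x
      show τ g * τ (x : F) = τ (g * x * g⁻¹) * τ g
      rw [← map_mul, ← map_mul]
      congr 1
      group
    · rw [← map_pow, D.hg, map_one]
    · exact zsb_norm hm hexp D M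
  refine ys_LpZ hr hr2 ha D.core.hR L ⟨⟨s, S.hs⟩, ?_⟩
  intro h
  have h1 : τ (g ^ (2 ^ (a - 1)) * s * (g ^ (2 ^ (a - 1)))⁻¹) = τ s := by
    rw [← hα (2 ^ (a - 1)) ⟨s, S.hs⟩]
    exact h
  rw [S.hxs] at h1
  apply S.hs1
  have h2 : τ (s⁻¹ * s⁻¹) = 1 := by
    have h3 : τ (s⁻¹ * s⁻¹) = τ s⁻¹ * τ s := by
      rw [map_mul]
      nth_rewrite 2 [h1]
      rfl
    rw [h3, ← map_mul, inv_mul_cancel, map_one]
  have h3 := M.faith _ (R.mul_mem (R.inv_mem S.hs) (R.inv_mem S.hs)) h2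
  exact zb_cQ M (fun q hq => zsBmin_sq hr hr2 D.core.hR S.hs (h3 q hq))

end Pool.Agent.Lib.MP_544bd1_al
end

section

/-!
Theorem Z (paper 287), section 3: (C3).
-/

namespace Pool.Agent.Lib.MP_544bd1_al

open Subgroup

variable {m a : ℕ} {G : Type} [Group G]

private theorem zsc3_sq (hm : Odd m) {K : Subgroup G} {ρ : G} (hρ : ρ ^ m = 1)
    (h : ρ ^ 2 ∈ K) : ρ ∈ K := by
  obtain ⟨j, hj⟩ := hm
  have h1 : ρ = (ρ ^ 2) ^ (j + 1) := by
    rw [← pow_mul, show 2 * (j + 1) = m + 1 by omega, pow_succ, hρ, one_mul]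
  rw [h1]
  exact K.pow_mem h _

/-- `⟨α, ρ * z * k⟩` contains `ρ`, `z` and `k`.

Proof. Let `T = closure {α, ρ * z * k}`, `κ = α ^ (2 ^ (a - 1)) ∈ T`, `t = ρ * z * k`. `κ` commutes with `ρ`
(`D.κ`) and `z` (`D.cen`), so `t⁻¹ * κ * t = k⁻¹ * κ * k = κ * k ^ 2` (`κ⁻¹ * k⁻¹ * κ = k` since `κ ^ 2 = 1` and
`hk'`). So `k ^ 2 ∈ T`, `k ∈ T` (`k ^ m = 1`, `m` odd), `ρ * z ∈ T`. With `y = α ^ (2 ^ (a - 2)) ∈ T`:
`y⁻¹ * (ρ * z) * y = ρ⁻¹ * z` (`y` commutes with `z`; `y⁻¹ * ρ * y = ρ⁻¹` because `y ^ 2 = κ` commutes with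
`ρ`), so `ρ⁻¹ * z * (ρ * z) ∈ T`, an element of `P`. Apply `D.gen'` to the subgroup
`K = T`, where: for `x ∈ T ⊓ P`: `α * x * α⁻¹ ∈ T`; `ρ * x * ρ⁻¹ = (ρ * z) * x * (ρ * z)⁻¹ ∈ T` (`z` commutes with
`x`); and `z * (ρ * z * ρ⁻¹) ∈ T`: it is the conjugate of `ρ⁻¹ * z * ρ * z` by `ρ` (so by `ρ * z`):
`(ρ * z) * (ρ⁻¹ * z * ρ * z) * (ρ * z)⁻¹ = ρ * (ρ⁻¹ * z * ρ * z) * ρ⁻¹ = z * ρ * z * ρ⁻¹` (`z` commutes with the
element `ρ⁻¹ * z * ρ * z` of `P`). So `P ≤ T`, `z ∈ T`, `ρ ∈ T`. -/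
theorem ys_C3T (H : YG m a G) {P : Subgroup G} {α ρ p k : G} (D : YLC m a P α ρ p)
    (hk : k ^ m = 1) (hk' : α ^ (2 ^ (a - 1)) * k * (α ^ (2 ^ (a - 1)))⁻¹ = k⁻¹) :
    P ≤ closure {α, ρ * ynorm (2 ^ (a - 1)) α p * k} ∧
      ρ ∈ closure {α, ρ * ynorm (2 ^ (a - 1)) α p * k} ∧
      k ∈ closure {α, ρ * ynorm (2 ^ (a - 1)) α p * k} := by
  have ha := H.ha
  have hm := H.hm
  set z := ynorm (2 ^ (a - 1)) α p with hz
  set κ := α ^ (2 ^ (a - 1)) with hκ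
  set y := α ^ (2 ^ (a - 2)) with hy
  set T : Subgroup G := closure {α, ρ * z * k} with hT
  obtain ⟨hκ2, hκρ, -, -⟩ := D.κ (by omega)
  obtain ⟨hzP, hz2, hαz⟩ := D.z
  change κ * ρ = ρ * κ at hκρ
  change z ∈ P at hzP
  change α * z = z * α at hαz
  have hPc := ys_comm D.sq
  have hαT : α ∈ T := subset_closure (by simp)
  have htT : ρ * z * k ∈ T := subset_closure (by simp)
  have hκT : κ ∈ T := T.pow_mem hαT _
  have hyT : y ∈ T := T.pow_mem hαT _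
  have hκz : κ * z = z * κ := D.cen z hzP
  have hκk : k⁻¹ * κ = κ * k := by
    calc k⁻¹ * κ = κ * k * κ⁻¹ * κ := by rw [hk']
      _ = κ * k := by group
  have hk2 : k ^ 2 ∈ T := by
    have h1 : κ⁻¹ * ((ρ * z * k)⁻¹ * κ * (ρ * z * k)) ∈ T :=
      T.mul_mem (T.inv_mem hκT) (T.mul_mem (T.mul_mem (T.inv_mem htT) hκT) htT)
    have h2 : κ⁻¹ * ((ρ * z * k)⁻¹ * κ * (ρ * z * k)) = k ^ 2 := by
      calc κ⁻¹ * ((ρ * z * k)⁻¹ * κ * (ρ * z * k))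
          = κ⁻¹ * (k⁻¹ * (z⁻¹ * (ρ⁻¹ * (κ * ρ)) * z) * k) := by group
        _ = κ⁻¹ * (k⁻¹ * (z⁻¹ * (κ * z)) * k) := by rw [hκρ]; group
        _ = κ⁻¹ * ((k⁻¹ * κ) * k) := by rw [hκz]; group
        _ = k ^ 2 := by rw [hκk, pow_two]; group
    rwa [h2] at h1
  have hkT : k ∈ T := zsc3_sq hm hk hk2
  have hρz : ρ * z ∈ T := by
    have h1 := T.mul_mem htT (T.inv_mem hkT)
    rwa [mul_inv_cancel_right] at h1
  have hyz : y * z = z * y := by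
    have h1 : Commute α z := hαz
    exact h1.pow_left _
  have hyρ : y⁻¹ * ρ * y = ρ⁻¹ := by
    have h1 : y * ρ⁻¹ * y⁻¹ = ρ := by
      calc y * ρ⁻¹ * y⁻¹ = (y * ρ * y⁻¹)⁻¹ := by group
        _ = ρ := by rw [D.inv, inv_inv]
    calc y⁻¹ * ρ * y = y⁻¹ * (y * ρ⁻¹ * y⁻¹) * y := by rw [h1]
      _ = ρ⁻¹ := by group
  have hρz' : ρ⁻¹ * z ∈ T := by
    have h1 : y⁻¹ * (ρ * z) * y ∈ T := T.mul_mem (T.mul_mem (T.inv_mem hyT) hρz) hyT
    have h2 : y⁻¹ * (ρ * z) * y = ρ⁻¹ * z := by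
      calc y⁻¹ * (ρ * z) * y = y⁻¹ * ρ * (z * y) := by group
        _ = y⁻¹ * ρ * y * z := by rw [← hyz]; group
        _ = ρ⁻¹ * z := by rw [hyρ]
    rwa [h2] at h1
  have hρzρ : ρ * z * ρ⁻¹ ∈ P := D.hρP z hzP
  have h3 : z * (ρ * z * ρ⁻¹) ∈ T := by
    have h1 : (ρ * z) * ((ρ⁻¹ * z) * (ρ * z)) * (ρ * z)⁻¹ ∈ T :=
      T.mul_mem (T.mul_mem hρz (T.mul_mem hρz' hρz)) (T.inv_mem hρz)
    have h2 : (ρ * z) * ((ρ⁻¹ * z) * (ρ * z)) * (ρ * z)⁻¹ = z * (ρ * z * ρ⁻¹) := by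
      calc (ρ * z) * ((ρ⁻¹ * z) * (ρ * z)) * (ρ * z)⁻¹ = (ρ * z * ρ⁻¹) * z := by group
        _ = z * (ρ * z * ρ⁻¹) := by rw [hPc _ hρzρ z hzP]
    rwa [h2] at h1
  have hPT : P ≤ T := by
    refine D.gen' T (fun x hx _ => T.mul_mem (T.mul_mem hαT hx) (T.inv_mem hαT)) ?_ h3
    intro x hx hxP
    have h1 : (ρ * z) * x * (ρ * z)⁻¹ ∈ T := T.mul_mem (T.mul_mem hρz hx) (T.inv_mem hρz)
    have h2 : (ρ * z) * x * (ρ * z)⁻¹ = ρ * x * ρ⁻¹ := by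
      calc (ρ * z) * x * (ρ * z)⁻¹ = ρ * (z * x) * z⁻¹ * ρ⁻¹ := by group
        _ = ρ * x * ρ⁻¹ := by rw [hPc z hzP x hxP]; group
    rwa [h2] at h1
  have hzT : z ∈ T := hPT hzP
  refine ⟨hPT, ?_, hkT⟩
  have h1 := T.mul_mem hρz (T.inv_mem hzT)
  rwa [mul_inv_cancel_right] at h1

/-- **(C3)**

Proof. Let `k ^ m = 1`, `κ * k * κ⁻¹ = k⁻¹`. `T = closure {α, ρ * z * k}` is finite and solvable (`H.tw.h2`),
contains `α`, `P`, `ρ`, `z`, `k` (`ys_C3T`). `InOP m (2 ^ a) T z` (`ys_C1`). `ys_inO2`: `InO (2 ^ a) T z`, where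
the last hypothesis is `ys_zO` (`h1`, `h2` by `ys_C2`; `O` is normalized by `α`, `P` as `α ∈ T`, `P ≤ T`).
`InO.mono` for `closure {z, k} ≤ T`. -/
theorem ys_C3 (H : YG m a G) {P : Subgroup G} {α ρ p : G} (D : YLC m a P α ρ p) :
    YPerp m a (α ^ (2 ^ (a - 1))) (ynorm (2 ^ (a - 1)) α p) := by
  intro k hk hk'
  have ha := H.ha
  have hm := H.hm
  obtain ⟨hPT, hρT, hkT⟩ := ys_C3T H D hk hk'
  obtain ⟨hfin, hsol⟩ := H.tw.h2 α (ρ * ynorm (2 ^ (a - 1)) α p * k)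
  obtain ⟨hzP, hz2, hαz⟩ := D.z
  have hzT := hPT hzP
  have hαT : α ∈ closure {α, ρ * ynorm (2 ^ (a - 1)) α p * k} := subset_closure (by simp)
  have h1 := ys_C1 H D _ hfin hsol hαT hρT hzT
  have h2 : InO (2 ^ a) (closure {α, ρ * ynorm (2 ^ (a - 1)) α p * k})
      (ynorm (2 ^ (a - 1)) α p) := by
    refine ys_inO2 hm H.tw.hexp (by omega) hfin h1 hz2 ?_
    intro O hOT hO hTO
    exact ys_zO hm ha hO D.hα D.sq D.hαP D.hp D.cen (hTO α hαT) (fun y hy => hTO y (hPT hy))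
      (fun s hs hzs hαs => (ys_C2 H D hs hzs).1 hαs) (fun s hs hzs hαs => (ys_C2 H D hs hzs).2 hαs)
  refine h2.mono ?_ (subset_closure (by simp))
  rw [closure_le]
  rintro g (rfl | rfl)
  · exact hzT
  · exact hkT

end Pool.Agent.Lib.MP_544bd1_al
end

section

/-!
Theorem Z (paper 287): section 3, Lemma C: `ys_C1` (ZsC1.lean), `ys_C2` (ZsC2.lean), `ys_C3`
(ZsC3.lean), `ys_C4` (ZsC4.lean).
-/
end

section

/-!
Theorem Z (paper 287), 4.1: the group `T` in which `z` is not in `O_{2',2}(T)`.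
-/

namespace Pool.Agent.Lib.MP_544bd1_al

open Subgroup

variable {m a : ℕ} {G : Type} [Group G]

/-- **The group `T`.**

Proof. Let `c = z_I = ynorm (2 ^ (a - 1)) g p_I`, `p_I = ynorm (3 ^ k) τ p`, `κ = g ^ (2 ^ (a - 1))`.
`S.lcI` and `ys_C3`: `YPerp m a κ c`; `c ≠ 1` (`YLC.ne`), `c ^ 2 = 1`, `g * c = c * g` (`YPr.facts`).
`ys_41a`: `k'`. `b = p_I * g`: `b ^ (2 ^ (a - 1)) = c * κ` (`ynorm_pow`), `b ^ (2 ^ a) = 1` (`ys_pg_pow`),
`b` commutes with `τ` (`YPr.facts`, `hgτ`). `p` commutes with `c * κ` (`c ∈ P`, `S.pr.cen`). `ys_41T`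
(`K := 3 ^ k`): `T = closure {b * τ, p * k'}` contains `g, τ, p, k'`; it is finite and solvable (`H.tw.h2`).
Suppose `InOP m (2 ^ a) T z`, `z = ynorm (2 ^ (a - 1)) g p`. `ys_inO2`: `InO (2 ^ a) T z`, where for the last
hypothesis use `ys_zO` with `α := g`, the group `P ⊓ T` (contains `p`, normalized by `g`, contained in `T`) and
`h1`, `h2` from `ys_C2` for `S.lc0`. `ynorm_inO` (`τ ∈ T`): `InO (2 ^ a) T (ynorm (3 ^ k) τ z)`, which is
`c` (`YPr.facts`); `InO.mono` for `closure {c, k'} ≤ T` (`c ∈ T` by `InO.mem`): contradiction. -/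
theorem ys_41b (H : YG m a G) {k : ℕ} {P : Subgroup G} {g τ p : G} (S : YSys m a k P g τ p) :
    ∃ T : Subgroup G, Finite T ∧ Group.IsSolvable T ∧ g ∈ T ∧ τ ∈ T ∧ p ∈ T ∧
      ¬ InOP m (2 ^ a) T (ynorm (2 ^ (a - 1)) g p) := by
  have hm := H.hm
  have ha := H.ha
  have hsucc : 2 ^ a = 2 ^ (a - 1) * 2 := by
    obtain ⟨b, rfl⟩ : ∃ b, a = b + 1 := ⟨a - 1, by omega⟩
    rw [Nat.add_sub_cancel, pow_succ]
  obtain ⟨hpI, hzP, hsw, hzIP, hτpI, -, -, -, -, -, -, hcomm⟩ := S.pr.facts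
  obtain ⟨Q, ρ, -, -, D⟩ := S.lcI
  obtain ⟨Q₀, ρ₀, -, -, D₀⟩ := S.lc0
  obtain ⟨-, hc2, hgc⟩ := D.z
  have hperp := ys_C3 H D
  obtain ⟨k', hk', hks, hno⟩ := ys_41a H S.pr.hg hc2 D.ne hgc hperp
  obtain ⟨-, -, hbp, hb⟩ := D.κ (by omega)
  -- the group
  have hbτ : ynorm (3 ^ k) τ p * g * τ = τ * (ynorm (3 ^ k) τ p * g) := by
    calc ynorm (3 ^ k) τ p * g * τ = ynorm (3 ^ k) τ p * (g * τ) := by group
      _ = ynorm (3 ^ k) τ p * (τ * g) := by rw [S.pr.hgτ]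
      _ = ynorm (3 ^ k) τ p * τ * g := by group
      _ = τ * ynorm (3 ^ k) τ p * g := by rw [hτpI]
      _ = τ * (ynorm (3 ^ k) τ p * g) := by group
  have hps : p * (ynorm (3 ^ k) τ p * g) ^ (2 ^ (a - 1)) =
      (ynorm (3 ^ k) τ p * g) ^ (2 ^ (a - 1)) * p := by
    rw [hbp]
    calc p * (ynorm (2 ^ (a - 1)) g (ynorm (3 ^ k) τ p) * g ^ (2 ^ (a - 1))) =
        (p * ynorm (2 ^ (a - 1)) g (ynorm (3 ^ k) τ p)) * g ^ (2 ^ (a - 1)) := by group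
      _ = (ynorm (2 ^ (a - 1)) g (ynorm (3 ^ k) τ p) * p) * g ^ (2 ^ (a - 1)) := by
        rw [hcomm p S.pr.hp _ hzIP]
      _ = ynorm (2 ^ (a - 1)) g (ynorm (3 ^ k) τ p) * (p * g ^ (2 ^ (a - 1))) := by group
      _ = ynorm (2 ^ (a - 1)) g (ynorm (3 ^ k) τ p) * (g ^ (2 ^ (a - 1)) * p) := by
        rw [S.pr.cen p S.pr.hp]
      _ = _ := by group
  have hks' : (ynorm (3 ^ k) τ p * g) ^ (2 ^ (a - 1)) * k' *
      ((ynorm (3 ^ k) τ p * g) ^ (2 ^ (a - 1)))⁻¹ = k'⁻¹ := by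
    rw [hbp]
    exact hks
  obtain ⟨hgT, hτT, hpT, hkT⟩ := ys_41T hm (by omega) rfl hb S.pr.hτm hbτ hps hk' hks'
  obtain ⟨hfin, hsol⟩ := H.tw.h2 (ynorm (3 ^ k) τ p * g * τ) (p * k')
  refine ⟨_, hfin, hsol, hgT, hτT, hpT, ?_⟩
  intro hin
  set T : Subgroup G := closure {ynorm (3 ^ k) τ p * g * τ, p * k'} with hTdef
  have hO : InO (2 ^ a) T (ynorm (2 ^ (a - 1)) g p) := by
    refine ys_inO2 hm H.tw.hexp (by omega) hfin hin (S.pr.sq _ hzP) ?_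
    intro O hOT hO hTO
    refine ys_zO hm ha (P := P ⊓ T) hO S.pr.hg (fun x hx => S.pr.sq x hx.1) ?_ ⟨S.pr.hp, hpT⟩
      (fun x hx => S.pr.cen x hx.1) (hTO g hgT) (fun y hy => hTO y hy.2)
      (fun s hs hzs hαs => (ys_C2 H D₀ hs hzs).1 hαs)
      (fun s hs hzs hαs => (ys_C2 H D₀ hs hzs).2 hαs)
    intro x hx
    exact ⟨S.pr.hgP x hx.1, T.mul_mem (T.mul_mem hgT hx.2) (T.inv_mem hgT)⟩
  have hO' := ynorm_inO hO hτT (3 ^ k)
  rw [← hsw] at hO'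
  refine hno (hO'.mono ?_ (subset_closure (by simp)))
  rw [closure_le]
  rintro x (rfl | rfl)
  · exact hO'.mem
  · exact hkT

/-- **`κ ⊥ z_i` and `κ * z_i ⊥ z_j`**.

Proof. First: `ys_C3` for `S.lc0`, and `YPerp.conj` with `t := τ ^ i`, which commutes with `κ`. Second:
let `j = i + d`, `0 < d < 3 ^ k`. `S.lci d`: `D : YLC m a Q (p * g) ρ (τ ^ d * p * (τ ^ d)⁻¹)`; `ys_C3 H D`;
`(p * g) ^ (2 ^ (a - 1)) = z * κ` (`ynorm_pow`), `ynorm (2 ^ (a - 1)) (p * g) (τ ^ d * p * (τ ^ d)⁻¹) =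
ynorm (2 ^ (a - 1)) g (τ ^ d * p * (τ ^ d)⁻¹) = τ ^ d * z * (τ ^ d)⁻¹` (`ys_norm'`, `ynorm_conj`). Conjugate by
`τ ^ i` (`YPerp.conj`). -/
theorem ys_41p (H : YG m a G) {k : ℕ} {P : Subgroup G} {g τ p : G} (S : YSys m a k P g τ p) :
    (∀ i : ℕ, YPerp m a (g ^ (2 ^ (a - 1)))
      (τ ^ i * ynorm (2 ^ (a - 1)) g p * (τ ^ i)⁻¹)) ∧
    (∀ i j : ℕ, i < j → j < i + 3 ^ k →
      YPerp m a (τ ^ i * ynorm (2 ^ (a - 1)) g p * (τ ^ i)⁻¹ * g ^ (2 ^ (a - 1)))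
        (τ ^ j * ynorm (2 ^ (a - 1)) g p * (τ ^ j)⁻¹)) := by
  have ha := H.ha
  have hτκ : ∀ i : ℕ, τ ^ i * g ^ (2 ^ (a - 1)) * (τ ^ i)⁻¹ = g ^ (2 ^ (a - 1)) := by
    intro i
    have hc : Commute g τ := S.pr.hgτ
    have hc' : Commute (τ ^ i) (g ^ (2 ^ (a - 1))) := hc.symm.pow_pow _ _
    rw [hc'.eq, mul_inv_cancel_right]
  obtain ⟨-, -, -, -, -, -, -, -, hpiP, hzi, -, -⟩ := S.pr.facts
  constructor
  · intro i
    obtain ⟨Q, ρ, -, -, D⟩ := S.lc0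
    have h := (ys_C3 H D).conj (τ ^ i)
    rwa [hτκ i] at h
  · intro i j hij hj
    obtain ⟨d, rfl⟩ : ∃ d, j = i + d := ⟨j - i, by omega⟩
    obtain ⟨Q, ρ, -, -, D⟩ := S.lci d (by omega) (by omega)
    have h := (ys_C3 H D).conj (τ ^ i)
    have e1 : (p * g) ^ (2 ^ (a - 1)) = ynorm (2 ^ (a - 1)) g p * g ^ (2 ^ (a - 1)) :=
      ynorm_pow _ _ _
    have e2 : ynorm (2 ^ (a - 1)) (p * g) (τ ^ d * p * (τ ^ d)⁻¹) =
        τ ^ d * ynorm (2 ^ (a - 1)) g p * (τ ^ d)⁻¹ := by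
      rw [ys_norm' (a := a) (by omega) P S.pr.sq S.pr.hgP S.pr.hp (hpiP d) S.pr.cen, hzi d]
    rw [e1, e2] at h
    have e3 : τ ^ i * (ynorm (2 ^ (a - 1)) g p * g ^ (2 ^ (a - 1))) * (τ ^ i)⁻¹ =
        τ ^ i * ynorm (2 ^ (a - 1)) g p * (τ ^ i)⁻¹ * g ^ (2 ^ (a - 1)) := by
      calc τ ^ i * (ynorm (2 ^ (a - 1)) g p * g ^ (2 ^ (a - 1))) * (τ ^ i)⁻¹ =
          τ ^ i * ynorm (2 ^ (a - 1)) g p * (τ ^ i)⁻¹ *
            (τ ^ i * g ^ (2 ^ (a - 1)) * (τ ^ i)⁻¹) := by group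
        _ = _ := by rw [hτκ i]
    have e4 : τ ^ i * (τ ^ d * ynorm (2 ^ (a - 1)) g p * (τ ^ d)⁻¹) * (τ ^ i)⁻¹ =
        τ ^ (i + d) * ynorm (2 ^ (a - 1)) g p * (τ ^ (i + d))⁻¹ := by
      rw [pow_add]
      group
    rw [e3, e4] at h
    exact h

end Pool.Agent.Lib.MP_544bd1_al
end

section

/-!
Theorem Z (paper 287): 4.1, from systems to `(T_k)`.
-/

namespace Pool.Agent.Lib.MP_544bd1_al

open Subgroup

variable {m a : ℕ} {G : Type} [Group G]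

/-- **4.1**

Proof. `T` from `ys_41b`; `P' = P.subgroupOf T`, `g', τ', p'` the elements of `T`. `YPr` for them: from `S.pr`
(`Subtype.ext`; `hg`, `hτ`, `hτm`, `hgτ`, `hτp`, `hgP`, `hτP`, `cen`). `hz`: `InOP.top_iff`, `ynorm_map` for
`T.subtype`. `alt`, second alternative: first property: `ys_C2` for `S.lc0`. Second: `ys_C4` for
`x := κ`, `z := z_i` (`ys_41p`, first part; `κ ^ 2 = 1`, `z_i ^ 2 = 1` as `z_i ∈ P`, `κ * z_i = z_i * κ`).
Third: let `i < j` without loss of generality (the two hypotheses are symmetric); `κ` centralizes `e` and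
`z_i`, `z_j` invert it, so `z_i * κ` inverts `e`; `ys_C4` for `x := z_i * κ`, `z := z_j` (`ys_41p`, second part;
`j < 3 ^ k ≤ i + 3 ^ k`; `z_i`, `z_j`, `κ` commute and are involutions or 1). -/
theorem ys_41 (H : YG m a G) {k : ℕ} (hk : 0 < k) {P : Subgroup G} {g τ p : G}
    (S : YSys m a k P g τ p) :
    ∃ T : Subgroup G, Finite T ∧ Group.IsSolvable T ∧
      ∃ (P' : Subgroup T) (g' τ' p' : T), YT m a k P' g' τ' p' := by
  obtain ⟨T, hfin, hsol, hgT, hτT, hpT, hno⟩ := ys_41b H S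
  refine ⟨T, hfin, hsol, P.subgroupOf T, ⟨g, hgT⟩, ⟨τ, hτT⟩, ⟨p, hpT⟩, ?_⟩
  haveI := hfin
  have hm := H.hm
  have ha := H.ha
  have hexp := H.tw.hexp
  obtain ⟨Q, ρ, -, -, D⟩ := S.lc0
  have hsucc : 2 ^ a = 2 ^ (a - 1) * 2 := by
    obtain ⟨b, rfl⟩ : ∃ b, a = b + 1 := ⟨a - 1, by omega⟩
    rw [Nat.add_sub_cancel, pow_succ]
  obtain ⟨hA, hB⟩ := ys_41p H S
  obtain ⟨-, hzP, -, -, -, -, hgz, hziP, -, -, -, hcomm⟩ := S.pr.facts
  have hzc : ((ynorm (2 ^ (a - 1)) (⟨g, hgT⟩ : T) ⟨p, hpT⟩ : T) : G) =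
      ynorm (2 ^ (a - 1)) g p := rfl
  have hκ2 : (g ^ (2 ^ (a - 1))) ^ 2 = 1 := by
    rw [← pow_mul, ← hsucc]
    exact S.pr.hg
  -- the elements `z_i` of `T`
  have hzi2 : ∀ i : ℕ, ((⟨τ, hτT⟩ : T) ^ i * ynorm (2 ^ (a - 1)) (⟨g, hgT⟩ : T) ⟨p, hpT⟩ *
      ((⟨τ, hτT⟩ : T) ^ i)⁻¹) ^ 2 = 1 := fun i =>
    Subtype.ext (S.pr.sq _ (hziP i))
  have hκT2 : ((⟨g, hgT⟩ : T) ^ (2 ^ (a - 1))) ^ 2 = 1 := Subtype.ext hκ2
  have hκz : ∀ i : ℕ, (⟨g, hgT⟩ : T) ^ (2 ^ (a - 1)) * ((⟨τ, hτT⟩ : T) ^ i *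
      ynorm (2 ^ (a - 1)) (⟨g, hgT⟩ : T) ⟨p, hpT⟩ * ((⟨τ, hτT⟩ : T) ^ i)⁻¹) =
      (⟨τ, hτT⟩ : T) ^ i * ynorm (2 ^ (a - 1)) (⟨g, hgT⟩ : T) ⟨p, hpT⟩ *
      ((⟨τ, hτT⟩ : T) ^ i)⁻¹ * (⟨g, hgT⟩ : T) ^ (2 ^ (a - 1)) := fun i =>
    Subtype.ext (S.pr.cen _ (hziP i))
  have hzz : ∀ i j : ℕ, (⟨τ, hτT⟩ : T) ^ i *
      ynorm (2 ^ (a - 1)) (⟨g, hgT⟩ : T) ⟨p, hpT⟩ * ((⟨τ, hτT⟩ : T) ^ i)⁻¹ *
      ((⟨τ, hτT⟩ : T) ^ j * ynorm (2 ^ (a - 1)) (⟨g, hgT⟩ : T) ⟨p, hpT⟩ *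
      ((⟨τ, hτT⟩ : T) ^ j)⁻¹) =
      (⟨τ, hτT⟩ : T) ^ j * ynorm (2 ^ (a - 1)) (⟨g, hgT⟩ : T) ⟨p, hpT⟩ *
      ((⟨τ, hτT⟩ : T) ^ j)⁻¹ * ((⟨τ, hτT⟩ : T) ^ i *
      ynorm (2 ^ (a - 1)) (⟨g, hgT⟩ : T) ⟨p, hpT⟩ * ((⟨τ, hτT⟩ : T) ^ i)⁻¹) := fun i j =>
    Subtype.ext (hcomm _ (hziP i) _ (hziP j))
  have hAT : ∀ i : ℕ, YPerp m a (((⟨g, hgT⟩ : T) ^ (2 ^ (a - 1)) : T) : G)
      (((⟨τ, hτT⟩ : T) ^ i * ynorm (2 ^ (a - 1)) (⟨g, hgT⟩ : T) ⟨p, hpT⟩ *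
        ((⟨τ, hτT⟩ : T) ^ i)⁻¹ : T) : G) := fun i => hA i
  have hBT : ∀ i j : ℕ, i < j → j < i + 3 ^ k →
      YPerp m a (((⟨τ, hτT⟩ : T) ^ i * ynorm (2 ^ (a - 1)) (⟨g, hgT⟩ : T) ⟨p, hpT⟩ *
        ((⟨τ, hτT⟩ : T) ^ i)⁻¹ * (⟨g, hgT⟩ : T) ^ (2 ^ (a - 1)) : T) : G)
      (((⟨τ, hτT⟩ : T) ^ j * ynorm (2 ^ (a - 1)) (⟨g, hgT⟩ : T) ⟨p, hpT⟩ *
        ((⟨τ, hτT⟩ : T) ^ j)⁻¹ : T) : G) := fun i j h1 h2 => hB i j h1 h2
  refine ⟨⟨inferInstance, fun x hx => Subtype.ext (S.pr.sq _ hx), S.pr.hp,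
    Subtype.ext S.pr.hg, ?_, Subtype.ext S.pr.hτm, Subtype.ext S.pr.hgτ, Subtype.ext S.pr.hτp,
    fun x hx => S.pr.hgP _ hx, fun x hx => S.pr.hτP _ hx, fun x hx =>
    Subtype.ext (S.pr.cen _ hx)⟩, ?_, Or.inr ⟨hk, ?_, ?_, ?_⟩⟩
  · obtain ⟨j, hj⟩ := S.pr.hτ
    exact ⟨j, Subtype.ext hj⟩
  · rw [InOP.top_iff]
    exact hno
  · intro s hs hgs hzs
    apply Subtype.ext
    exact (ys_C2 H D (s := (s : G)) (congrArg Subtype.val hs) (congrArg Subtype.val hzs)).1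
      (congrArg Subtype.val hgs)
  · intro i hi e he h1 h2
    exact ys_C4 hm hexp (hAT i) hκT2 (hzi2 i) (hκz i) he h1 h2
  · -- symmetric third property
    have key : ∀ i j : ℕ, i < 3 ^ k → j < 3 ^ k → i < j → ∀ e : ZH m a T, e ^ m = 1 →
        zp m a T ((⟨g, hgT⟩ : T) ^ (2 ^ (a - 1))) * e *
          (zp m a T ((⟨g, hgT⟩ : T) ^ (2 ^ (a - 1))))⁻¹ = e →
        zp m a T ((⟨τ, hτT⟩ : T) ^ i * ynorm (2 ^ (a - 1)) (⟨g, hgT⟩ : T) ⟨p, hpT⟩ *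
            ((⟨τ, hτT⟩ : T) ^ i)⁻¹) * e *
          (zp m a T ((⟨τ, hτT⟩ : T) ^ i * ynorm (2 ^ (a - 1)) (⟨g, hgT⟩ : T) ⟨p, hpT⟩ *
            ((⟨τ, hτT⟩ : T) ^ i)⁻¹))⁻¹ = e⁻¹ →
        zp m a T ((⟨τ, hτT⟩ : T) ^ j * ynorm (2 ^ (a - 1)) (⟨g, hgT⟩ : T) ⟨p, hpT⟩ *
            ((⟨τ, hτT⟩ : T) ^ j)⁻¹) * e *
          (zp m a T ((⟨τ, hτT⟩ : T) ^ j * ynorm (2 ^ (a - 1)) (⟨g, hgT⟩ : T) ⟨p, hpT⟩ *
            ((⟨τ, hτT⟩ : T) ^ j)⁻¹))⁻¹ = e⁻¹ → e = 1 := by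
      intro i j hi hj hij e he h1 h2 h3
      have hx2 : ((⟨τ, hτT⟩ : T) ^ i * ynorm (2 ^ (a - 1)) (⟨g, hgT⟩ : T) ⟨p, hpT⟩ *
          ((⟨τ, hτT⟩ : T) ^ i)⁻¹ * (⟨g, hgT⟩ : T) ^ (2 ^ (a - 1))) ^ 2 = 1 := by
        have hc : Commute ((⟨τ, hτT⟩ : T) ^ i * ynorm (2 ^ (a - 1)) (⟨g, hgT⟩ : T) ⟨p, hpT⟩ *
          ((⟨τ, hτT⟩ : T) ^ i)⁻¹) ((⟨g, hgT⟩ : T) ^ (2 ^ (a - 1))) := (hκz i).symm
        rw [hc.mul_pow, hzi2 i, hκT2, one_mul]
      have hxz : (⟨τ, hτT⟩ : T) ^ i * ynorm (2 ^ (a - 1)) (⟨g, hgT⟩ : T) ⟨p, hpT⟩ *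
          ((⟨τ, hτT⟩ : T) ^ i)⁻¹ * (⟨g, hgT⟩ : T) ^ (2 ^ (a - 1)) *
          ((⟨τ, hτT⟩ : T) ^ j * ynorm (2 ^ (a - 1)) (⟨g, hgT⟩ : T) ⟨p, hpT⟩ *
            ((⟨τ, hτT⟩ : T) ^ j)⁻¹) =
          ((⟨τ, hτT⟩ : T) ^ j * ynorm (2 ^ (a - 1)) (⟨g, hgT⟩ : T) ⟨p, hpT⟩ *
            ((⟨τ, hτT⟩ : T) ^ j)⁻¹) *
          ((⟨τ, hτT⟩ : T) ^ i * ynorm (2 ^ (a - 1)) (⟨g, hgT⟩ : T) ⟨p, hpT⟩ *
          ((⟨τ, hτT⟩ : T) ^ i)⁻¹ * (⟨g, hgT⟩ : T) ^ (2 ^ (a - 1))) := by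
        rw [mul_assoc, hκz j, ← mul_assoc, hzz i j, mul_assoc]
      refine ys_C4 hm hexp (hBT i j hij (by omega)) hx2 (hzi2 j) hxz he ?_ h3
      rw [map_mul]
      calc _ = zp m a T ((⟨τ, hτT⟩ : T) ^ i * ynorm (2 ^ (a - 1)) (⟨g, hgT⟩ : T) ⟨p, hpT⟩ *
            ((⟨τ, hτT⟩ : T) ^ i)⁻¹) * (zp m a T ((⟨g, hgT⟩ : T) ^ (2 ^ (a - 1))) * e *
          (zp m a T ((⟨g, hgT⟩ : T) ^ (2 ^ (a - 1))))⁻¹) *
          (zp m a T ((⟨τ, hτT⟩ : T) ^ i * ynorm (2 ^ (a - 1)) (⟨g, hgT⟩ : T) ⟨p, hpT⟩ *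
            ((⟨τ, hτT⟩ : T) ^ i)⁻¹))⁻¹ := by group
        _ = e⁻¹ := by rw [h1, h2]
    intro i j hi hj hij e he h1 h2 h3
    rcases lt_or_gt_of_ne hij with h | h
    · exact key i j hi hj h e he h1 h2 h3
    · exact key j i hj hi h e he h1 h3 h2

end Pool.Agent.Lib.MP_544bd1_al
end

section

/-!
Theorem Z3, Case A, `P` nonabelian: the contradiction.
-/

namespace Pool.Agent.Lib.MP_544bd1_al

open Subgroup

/-- `d` is a power of `d ^ 2` -/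
theorem zt_mem_sq {m : ℕ} (hm : Odd m) {G : Type} [Group G] {T : Subgroup G} {d : G}
    (hd : d ^ m = 1) (h : d ^ 2 ∈ T) : d ∈ T := by
  obtain ⟨k, hk⟩ := hm
  have h1 : d = (d ^ 2) ^ (k + 1) := by
    rw [← pow_mul, show 2 * (k + 1) = m + 1 by omega, pow_succ, hd, one_mul]
  rw [h1]
  exact T.pow_mem h _

/-- the commutator of `g` and `z` is inverted by `z` -/
theorem zt_fixinv {m : ℕ} {G : Type} [Group G] {K : Subgroup G} (hK : ∀ x ∈ K, x ^ m = 1)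
    {x z g : G} (hz2 : z ^ 2 = 1) (hxz : x * z = z * x) (hg : g ∈ K)
    (hzK : ∀ x ∈ K, z * x * z⁻¹ ∈ K) (hxg : x * g = g * x) (hzg : z * g ≠ g * z) :
    ∃ s : G, s ≠ 1 ∧ s ^ m = 1 ∧ x * s = s * x ∧ z * s * z⁻¹ = s⁻¹ := by
  have hzz : z * z = 1 := by rw [← pow_two]; exact hz2
  have hzi : z⁻¹ = z := inv_eq_of_mul_eq_one_left hzz
  refine ⟨g⁻¹ * (z * g * z⁻¹), ?_, hK _ (K.mul_mem (K.inv_mem hg) (hzK g hg)), ?_, ?_⟩
  · intro h
    apply hzg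
    rw [inv_mul_eq_one] at h
    calc z * g = z * g * z⁻¹ * z := by group
      _ = g * z := by rw [← h]
  · have h1 : Commute x g := hxg
    have h2 : Commute x z := hxz
    exact (h1.inv_right).mul_right ((h2.mul_right h1).mul_right h2.inv_right)
  · rw [hzi]
    calc z * (g⁻¹ * (z * g * z)) * z = z * g⁻¹ * z * g * (z * z) := by group
      _ = z * g⁻¹ * z * g := by rw [hzz, mul_one]
      _ = z⁻¹ * g⁻¹ * z⁻¹ * g := by rw [hzi]
      _ = (g⁻¹ * (z * g * z))⁻¹ := by group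

/-- **3.4: the contradiction of Case A with `P` nonabelian.** -/
theorem zt_A2 {m : ℕ} {G : Type} [Group G] (H : ZG m G) {P : Subgroup G}
    {x ρ f c n p₂ p₃ w : G} (D : ZA2 m P x ρ f c n p₂ p₃ w) : False := by
  have hm := H.hm
  have hexp := H.tw.hexp
  have hPP : ⁅P, P⁆ ≤ P := Subgroup.commutator_le_self P
  have hfP : f ∈ P := hPP D.hfP
  have hx8 : x ^ (2 ^ 3) = 1 := by
    rw [show 2 ^ 3 = 4 * 2 by norm_num, pow_mul, D.hx, one_pow]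
  -- (NS)
  have hNS : ∀ s : G, s ^ m = 1 → x * s = s * x → f * s * f⁻¹ = s⁻¹ → s = 1 := by
    intro s hs hxs hfs
    refine zt_NS H.tw hm H.noO hx8 D.hw D.hfx.symm D.hf2 ?_ hs hxs hfs
    intro N hfin hsol hxN hwN hfN
    have hle : closure {x, w⁻¹ * x * w} ≤ N := by
      rw [closure_le]
      rintro y (rfl | rfl)
      · exact hxN
      · exact N.mul_mem (N.mul_mem (N.inv_mem hwN) hxN) hwN
    exact zt_A2D' hm hexp D.toZA2F N hfin hsol (D.hwP.trans hle) hxN (hle D.hwρ) hfN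
  -- (R2)
  obtain ⟨d, hd1, hd, hfd⟩ := zt_R2 H D.hf2 D.hf1
  have hff : f * f = 1 := by rw [← pow_two]; exact D.hf2
  have hfi : f⁻¹ = f := inv_eq_of_mul_eq_one_left hff
  -- the group `T`
  obtain ⟨hfin, hsol⟩ := H.tw.h2 (f * ρ) (p₃ * x * d)
  set T := closure {f * ρ, p₃ * x * d} with hT
  have hfρ : f * ρ ∈ T := subset_closure (by simp)
  have hud : p₃ * x * d ∈ T := subset_closure (by simp)
  have hcop : Nat.Coprime m (2 ^ 3) := zt_cop hm 3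
  have hf8 : f ^ (2 ^ 3) = 1 := by
    rw [show 2 ^ 3 = 2 * 4 by norm_num, pow_mul, D.hf2, one_pow]
  have hco := tw_coprime_comm hcop.symm hf8 D.hρ D.hfρ
  have hfT : f ∈ T := (zpowers_le.2 hfρ) hco.1
  have hρT : ρ ∈ T := (zpowers_le.2 hfρ) hco.2
  have hfu : Commute f (p₃ * x) := Commute.mul_right (D.hfc p₃ D.hp₃) D.hfx
  have hd2 : d ^ 2 ∈ T := by
    have h1 : (p₃ * x * d)⁻¹ * f * (p₃ * x * d) ∈ T :=
      T.mul_mem (T.mul_mem (T.inv_mem hud) hfT) hud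
    have h2 : (p₃ * x * d)⁻¹ * f * (p₃ * x * d) = f * d ^ 2 := by
      have h3 : f * (p₃ * x) = (p₃ * x) * f := hfu
      have h4 : f * d * f = d⁻¹ := by
        rw [← hfd, hfi]
      have h5 : d⁻¹ = f * d * f := h4.symm
      calc (p₃ * x * d)⁻¹ * f * (p₃ * x * d) = d⁻¹ * (p₃ * x)⁻¹ * (f * (p₃ * x)) * d := by group
        _ = d⁻¹ * f * d := by rw [h3]; group
        _ = f * d * (f * f) * d := by rw [h5]; group
        _ = f * d ^ 2 := by rw [hff, mul_one, pow_two, mul_assoc]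
    rw [h2] at h1
    have h6 := T.mul_mem (T.inv_mem hfT) h1
    rwa [inv_mul_cancel_left] at h6
  have hdT : d ∈ T := zt_mem_sq hm hd hd2
  have huT : p₃ * x ∈ T := by
    have h1 := T.mul_mem hud (T.inv_mem hdT)
    rwa [mul_inv_cancel_right] at h1
  have hle : closure {ρ, p₃ * x} ≤ T := by
    rw [closure_le]
    rintro y (rfl | rfl)
    · exact hρT
    · exact huT
  have hPT : P ≤ T := D.hu3.trans hle
  have hxT : x ∈ T := hle D.hux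
  have hfU : InOP m (2 ^ 3) T f :=
    zt_A2D' hm hexp D.toZA2F T hfin hsol hPT hxT hρT hfT
  obtain ⟨K, hKT, hdK, hKn, hKm⟩ := zt_inO hm hfU D.hf2 hdT hd hfd
  have hne : ∃ g ∈ K, f * g ≠ g * f := by
    refine ⟨d, hdK, ?_⟩
    intro h
    have h1 : d = d⁻¹ := by
      rw [← hfd, h, mul_inv_cancel_right]
    exact hd1 (fr_one_two hm hd (by rw [pow_two]; nth_rw 1 [h1]; exact inv_mul_cancel d))
  have hxz := D.hfx
  -- first step of the chain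
  obtain ⟨g, hgK, hyg, hfg⟩ := zt_swap hm K hKm (x := x ^ 2) (z := f) (μ := c)
    (hKn _ (T.pow_mem hxT 2)) (hKn _ hfT) (hKn _ (hPT D.hc))
    (by
      intro g _
      rw [← pow_mul, show 2 * 2 = 4 by norm_num, D.hx, one_mul, mul_one])
    D.hf2 (by
      have h1 : Commute x f := D.hfx.symm
      exact h1.pow_left 2) (D.hfc c D.hc).symm D.hcx hne
  -- second step of the chain
  let A₁ : Subgroup G := K ⊓ centralizer {x ^ 2}
  have hA₁ : ∀ g, g ∈ A₁ ↔ g ∈ K ∧ x ^ 2 * g = g * x ^ 2 := by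
    intro g
    rw [Subgroup.mem_inf, Subgroup.mem_centralizer_singleton_iff]
    constructor
    · rintro ⟨h1, h2⟩
      exact ⟨h1, h2.symm⟩
    · rintro ⟨h1, h2⟩
      exact ⟨h1, h2.symm⟩
  have hnorm : ∀ t ∈ T, t * x ^ 2 = x ^ 2 * t → ∀ g ∈ A₁, t * g * t⁻¹ ∈ A₁ := by
    intro t ht htx g hg
    rw [hA₁] at hg ⊢
    refine ⟨hKn t ht g hg.1, ?_⟩
    have c1 : Commute (x ^ 2) t := htx.symm
    have c2 : Commute (x ^ 2) g := hg.2
    exact (c1.mul_right c2).mul_right c1.inv_right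
  obtain ⟨g', hg', hxg', hfg'⟩ := zt_swap hm A₁ (fun g hg => hKm g ((hA₁ g).1 hg).1) (x := x)
    (z := f) (μ := n) (hnorm x hxT (by rw [← pow_succ', ← pow_succ]))
    (hnorm f hfT (by
      have h1 : Commute f x := D.hfx
      exact h1.pow_right 2))
    (hnorm n (hPT D.hn) D.hny) (fun g hg => ((hA₁ g).1 hg).2) D.hf2 D.hfx.symm
    (D.hfc n D.hn).symm D.hnx ⟨g, (hA₁ g).2 ⟨hgK, hyg⟩, hfg⟩
  obtain ⟨s, hs1, hs, hxs, hfs⟩ := zt_fixinv hKm D.hf2 D.hfx.symm ((hA₁ g').1 hg').1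
    (hKn f hfT) hxg' hfg'
  exact hs1 (hNS s hs hxs hfs)

end Pool.Agent.Lib.MP_544bd1_al
end

section

/-!
Theorem Z (paper 287): the end of the proofs of FT and of 2.1.
-/

namespace Pool.Agent.Lib.MP_544bd1_al

open Subgroup

/-- **End.** Let `T` be a finite solvable subgroup containing `g`, `u`, `d`, `Y`, and let the involution `f`
be in `O_{m,2}(T)`, `d ≠ 1` an odd element inverted by `f`.

Proof (compare the end of the proof of `zt_B`, ZtB.lean). `zt_inO` gives `InO m T d`, i.e. a subgroup `K ≤ T`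
normalized by `T`, with `d ∈ K`, `y ^ m = 1` on `K`. `f * d ≠ d * f` (`d ≠ 1`, `d ^ m = 1`, `m` odd). `ysFT_chain`
(ZsFchain.lean) with `O := K` gives `y ∈ K`, `g * y = y * g`, `f * y ≠ y * f`; `zt_fixinv` gives
`s ≠ 1`, `s ^ m = 1`, `g * s = s * g`, `f * s * f⁻¹ = s⁻¹`, contradiction to `hNS`. -/
theorem ys_end {m a : ℕ} (hm : Odd m) (ha : 2 ≤ a) {G : Type} [Group G] {T Y : Subgroup G}
    {g u f d : G} (hNS : ∀ s : G, s ^ m = 1 → g * s = s * g → f * s * f⁻¹ = s⁻¹ → s = 1)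
    (hfT : InOP m (2 ^ a) T f) (hd1 : d ≠ 1) (hd : d ^ m = 1) (hfd : f * d * f⁻¹ = d⁻¹)
    (hdT : d ∈ T) (hgT : g ∈ T) (huT : u ∈ T) (hYT : Y ≤ T) (hY2 : ∀ y ∈ Y, y ^ 2 = 1)
    (hgY : ∀ y ∈ Y, g * y * g⁻¹ ∈ Y) (hg : g ^ (2 ^ a) = 1) (hf2 : f ^ 2 = 1)
    (hfg : g * f = f * g) (hfu : u * f = f * u) (hfY : ∀ y ∈ Y, y * f = f * y)
    (hx : u⁻¹ * g ^ (2 ^ (a - 1)) * u = g ^ (2 ^ (a - 1)) * f)
    (hm' : u⁻¹ * (g ^ (2 ^ (a - 2)) * u * (g ^ (2 ^ (a - 2)))⁻¹) ∈ Y) : False := by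
  obtain ⟨K, hKT, hdK, hKn, hKm⟩ := zt_inO hm hfT hf2 hdT hd hfd
  have hfT' : f ∈ T := hfT.mem
  have hne : ∃ y ∈ K, f * y ≠ y * f := by
    refine ⟨d, hdK, ?_⟩
    intro h
    have h1 : d = d⁻¹ := by rw [← hfd, h, mul_inv_cancel_right]
    exact hd1 (fr_one_two hm hd (by rw [pow_two]; nth_rw 1 [h1]; exact inv_mul_cancel d))
  obtain ⟨y, hyK, hgy, hfy⟩ := ysFT_chain hm ha hKm hKn hYT hY2 hgY hgT huT hfT' hg hf2 hfg hfu
    hfY hx hm' hne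
  obtain ⟨s, hs1, hs, hgs, hfs⟩ := zt_fixinv hKm hf2 hfg hyK (hKn f hfT') hgy hfy
  exact hs1 (hNS s hs hgs hfs)

/-- conjugating `f` with `g * d`. Proof: see the proof of `zt_B` (ZtB.lean): `(g * d)⁻¹ * f * (g * d) =
d⁻¹ * f * d = f * d ^ 2`. So `d ^ 2 ∈ T`, `d ∈ T` (`zt_mem_sq`), `g ∈ T`. -/
theorem ys_dT {m : ℕ} (hm : Odd m) {G : Type} [Group G] {T : Subgroup G} {g f d : G}
    (hfT : f ∈ T) (hgd : g * d ∈ T) (hf2 : f ^ 2 = 1) (hfg : g * f = f * g) (hd : d ^ m = 1)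
    (hfd : f * d * f⁻¹ = d⁻¹) : d ∈ T ∧ g ∈ T := by
  have hff : f * f = 1 := by rw [← pow_two]; exact hf2
  have hfi : f⁻¹ = f := inv_eq_of_mul_eq_one_left hff
  have hd2 : d ^ 2 ∈ T := by
    have h1 : (g * d)⁻¹ * f * (g * d) ∈ T := T.mul_mem (T.mul_mem (T.inv_mem hgd) hfT) hgd
    have h2 : (g * d)⁻¹ * f * (g * d) = f * d ^ 2 := by
      have h4 : f * d * f = d⁻¹ := by rw [← hfd, hfi]
      have h5 : d⁻¹ = f * d * f := h4.symm
      calc (g * d)⁻¹ * f * (g * d) = d⁻¹ * g⁻¹ * (f * g) * d := by group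
        _ = d⁻¹ * f * d := by rw [← hfg]; group
        _ = f * d * (f * f) * d := by rw [h5]; group
        _ = f * d ^ 2 := by rw [hff, mul_one, pow_two, mul_assoc]
    rw [h2] at h1
    have h6 := T.mul_mem (T.inv_mem hfT) h1
    rwa [inv_mul_cancel_left] at h6
  have hdT : d ∈ T := zt_mem_sq hm hd hd2
  refine ⟨hdT, ?_⟩
  have h1 := T.mul_mem hgd (T.inv_mem hdT)
  rwa [mul_inv_cancel_right] at h1

end Pool.Agent.Lib.MP_544bd1_al
end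

section

/-!
General even exponents, section 2 (the base): 2.1.
-/

namespace Pool.Agent.Lib.MP_544bd1_al

open Subgroup

/-- a fixed point of `g` -/
theorem zs21_fix {a : ℕ} {G : Type} [Group G] {g x : G} (hg : g ^ (2 ^ a) = 1)
    (hgx : g * x = x * g) {M₀ : Subgroup G} (h2 : ∀ q ∈ M₀, q ^ 2 = 1)
    (hgM : ∀ q ∈ M₀, g * q * g⁻¹ ∈ M₀) (hxM : ∀ q ∈ M₀, x * q * x⁻¹ ∈ M₀)
    (hne : ∃ q ∈ M₀, x * q ≠ q * x) :
    ∃ v ∈ M₀, v * (x * v * x⁻¹) ≠ 1 ∧ g * (v * (x * v * x⁻¹)) * g⁻¹ = v * (x * v * x⁻¹) := by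
  obtain ⟨v₀, hv₀, hne₀⟩ := hne
  have hcomm : ∀ a ∈ M₀, ∀ b ∈ M₀, a * b = b * a := by
    intro a ha b hb
    have ha' : a⁻¹ = a := inv_eq_of_mul_eq_one_right (by rw [← pow_two]; exact h2 a ha)
    have hb' : b⁻¹ = b := inv_eq_of_mul_eq_one_right (by rw [← pow_two]; exact h2 b hb)
    have hab : (a * b)⁻¹ = a * b :=
      inv_eq_of_mul_eq_one_right (by rw [← pow_two]; exact h2 _ (M₀.mul_mem ha hb))
    rw [← hab, mul_inv_rev, ha', hb']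
  have hinv : ∀ a ∈ M₀, a⁻¹ = a := fun a ha =>
    inv_eq_of_mul_eq_one_right (by rw [← pow_two]; exact h2 a ha)
  have hgk : ∀ k : ℕ, ∀ q ∈ M₀, g ^ k * q * (g ^ k)⁻¹ ∈ M₀ := by
    intro k
    induction k with
    | zero => intro q hq; simpa using hq
    | succ k ih =>
      intro q hq
      have h1 : g ^ (k + 1) * q * (g ^ (k + 1))⁻¹ = g * (g ^ k * q * (g ^ k)⁻¹) * g⁻¹ := by
        rw [pow_succ' g k]
        group
      rw [h1]
      exact hgM _ (ih q hq)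
  let S : G → Prop := fun y => ∃ v ∈ M₀, y = v * (x * v * x⁻¹)
  have hSM : ∀ y, S y → y ∈ M₀ := by
    rintro y ⟨v, hv, rfl⟩
    exact M₀.mul_mem hv (hxM v hv)
  let T : ℕ → G → G := fun k y => g ^ k * y * (g ^ k)⁻¹ * y
  have hTS : ∀ k y, S y → S (T k y) := by
    rintro k y ⟨v, hv, rfl⟩
    refine ⟨g ^ k * v * (g ^ k)⁻¹ * v, M₀.mul_mem (hgk k v hv) hv, ?_⟩
    have hc : g ^ k * x = x * g ^ k := by
      have h1 : Commute g x := hgx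
      exact (h1.pow_left k).eq
    have h3 := hcomm _ (hxM _ (hgk k v hv)) v hv
    have h4 : g ^ k * (v * (x * v * x⁻¹)) * (g ^ k)⁻¹ =
        (g ^ k * v * (g ^ k)⁻¹) * (x * (g ^ k * v * (g ^ k)⁻¹) * x⁻¹) := by
      have e1 : x⁻¹ * (g ^ k)⁻¹ = (g ^ k)⁻¹ * x⁻¹ := by
        rw [← mul_inv_rev, ← mul_inv_rev, hc]
      calc g ^ k * (v * (x * v * x⁻¹)) * (g ^ k)⁻¹
          = (g ^ k * v * (g ^ k)⁻¹) * ((g ^ k * x) * v * (x⁻¹ * (g ^ k)⁻¹)) := by group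
        _ = (g ^ k * v * (g ^ k)⁻¹) * ((x * g ^ k) * v * ((g ^ k)⁻¹ * x⁻¹)) := by rw [hc, e1]
        _ = _ := by group
    show g ^ k * (v * (x * v * x⁻¹)) * (g ^ k)⁻¹ * (v * (x * v * x⁻¹)) = _
    rw [h4]
    set v' := g ^ k * v * (g ^ k)⁻¹
    calc v' * (x * v' * x⁻¹) * (v * (x * v * x⁻¹))
        = v' * ((x * v' * x⁻¹) * v) * (x * v * x⁻¹) := by group
      _ = v' * (v * (x * v' * x⁻¹)) * (x * v * x⁻¹) := by rw [h3]
      _ = _ := by group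
  have hTT : ∀ k y, S y → T k (T k y) = T (2 * k) y := by
    intro k y hy
    have h3 : (g ^ k * y * (g ^ k)⁻¹) * (g ^ k * y * (g ^ k)⁻¹) = 1 := by
      rw [← pow_two]
      exact h2 _ (hgk k y (hSM y hy))
    show g ^ k * (g ^ k * y * (g ^ k)⁻¹ * y) * (g ^ k)⁻¹ * (g ^ k * y * (g ^ k)⁻¹ * y) =
      g ^ (2 * k) * y * (g ^ (2 * k))⁻¹ * y
    calc g ^ k * (g ^ k * y * (g ^ k)⁻¹ * y) * (g ^ k)⁻¹ * (g ^ k * y * (g ^ k)⁻¹ * y)
        = (g ^ k * g ^ k) * y * (g ^ k * g ^ k)⁻¹ *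
          ((g ^ k * y * (g ^ k)⁻¹) * (g ^ k * y * (g ^ k)⁻¹)) * y := by group
      _ = _ := by rw [h3, mul_one, two_mul, pow_add]
  obtain ⟨z, ⟨v, hv, hzv⟩, hz1, hgz⟩ : ∃ z, S z ∧ z ≠ 1 ∧ g * z * g⁻¹ = z := by
    by_contra hcon
    push Not at hcon
    have hstep : ∀ j : ℕ, ∀ y, S y → y ≠ 1 → S (T (2 ^ j) y) ∧ T (2 ^ j) y ≠ 1 := by
      intro j
      induction j with
      | zero =>
        intro y hy hy1
        refine ⟨hTS _ y hy, fun h => hcon y hy hy1 ?_⟩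
        have h3 : g ^ (2 ^ 0) * y * (g ^ (2 ^ 0))⁻¹ * y = 1 := h
        rw [pow_zero, pow_one] at h3
        rw [eq_inv_of_mul_eq_one_left h3, hinv y (hSM y hy)]
      | succ j ih =>
        intro y hy hy1
        obtain ⟨a1, a2⟩ := ih y hy hy1
        obtain ⟨b1, b2⟩ := ih _ a1 a2
        rw [hTT _ y hy, ← pow_succ'] at b1 b2
        exact ⟨b1, b2⟩
    have hy0 : S (v₀ * (x * v₀ * x⁻¹)) := ⟨v₀, hv₀, rfl⟩
    have hy01 : v₀ * (x * v₀ * x⁻¹) ≠ 1 := by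
      intro h
      apply hne₀
      have h3 : x * v₀ * x⁻¹ = v₀ := by
        rw [eq_inv_of_mul_eq_one_right h, hinv v₀ hv₀]
      calc x * v₀ = (x * v₀ * x⁻¹) * x := by group
        _ = v₀ * x := by rw [h3]
    have h8 := (hstep a _ hy0 hy01).2
    apply h8
    show g ^ (2 ^ a) * (v₀ * (x * v₀ * x⁻¹)) * (g ^ (2 ^ a))⁻¹ * (v₀ * (x * v₀ * x⁻¹)) = 1
    rw [hg, one_mul, inv_one, mul_one, ← pow_two]
    exact h2 _ (hSM _ hy0)
  exact ⟨v, hv, by rw [← hzv]; exact hz1, by rw [← hzv]; exact hgz⟩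

/-- **2.1** -/
theorem ys_21 {m a : ℕ} {G : Type} [Group G] (H : YG m a G) {M₀ : Subgroup G}
    {g w : G} (hg : g ^ (2 ^ a) = 1) (h2 : ∀ q ∈ M₀, q ^ 2 = 1)
    (hgM : ∀ q ∈ M₀, g * q * g⁻¹ ∈ M₀)
    (hne : ∃ q ∈ M₀, g ^ (2 ^ (a - 1)) * q ≠ q * g ^ (2 ^ (a - 1)))
    (hw : w ∈ closure {g, w⁻¹ * g * w}) (hwM : M₀ ≤ closure {g, w⁻¹ * g * w}) :
    ∃ T : Subgroup G, Finite T ∧ Group.IsSolvable T ∧
      ∃ (P : Subgroup T) (g p : T), YT m a 0 P g 1 p := by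
  have hm := H.hm
  have ha := H.ha
  by_contra hcon
  have hgk : ∀ k : ℕ, ∀ q ∈ M₀, g ^ k * q * (g ^ k)⁻¹ ∈ M₀ := by
    intro k
    induction k with
    | zero => intro q hq; simpa using hq
    | succ k ih =>
      intro q hq
      have h1 : g ^ (k + 1) * q * (g ^ (k + 1))⁻¹ = g * (g ^ k * q * (g ^ k)⁻¹) * g⁻¹ := by
        rw [pow_succ' g k]
        group
      rw [h1]
      exact hgM _ (ih q hq)
  have hcomm : ∀ a ∈ M₀, ∀ b ∈ M₀, a * b = b * a := by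
    intro a ha b hb
    have ha' : a⁻¹ = a := inv_eq_of_mul_eq_one_right (by rw [← pow_two]; exact h2 a ha)
    have hb' : b⁻¹ = b := inv_eq_of_mul_eq_one_right (by rw [← pow_two]; exact h2 b hb)
    have hab : (a * b)⁻¹ = a * b :=
      inv_eq_of_mul_eq_one_right (by rw [← pow_two]; exact h2 _ (M₀.mul_mem ha hb))
    rw [← hab, mul_inv_rev, ha', hb']
  obtain ⟨x, hxd⟩ : ∃ x, x = g ^ (2 ^ (a - 1)) := ⟨_, rfl⟩
  have hgx : g * x = x * g := by rw [hxd, ← pow_succ, ← pow_succ']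
  have hxM : ∀ q ∈ M₀, x * q * x⁻¹ ∈ M₀ := by rw [hxd]; exact hgk _
  rw [← hxd] at hne
  obtain ⟨v₁, hv₁, hv1, hgv⟩ := zs21_fix hg hgx h2 hgM hxM hne
  obtain ⟨v, hv⟩ : ∃ v, v = v₁ * (x * v₁ * x⁻¹) := ⟨_, rfl⟩
  rw [← hv] at hv1 hgv
  have hxx : x * x = 1 := by
    rw [hxd, ← pow_add, ← two_mul, ← pow_succ', Nat.sub_add_cancel (by omega)]
    exact hg
  have hxi : x⁻¹ = x := inv_eq_of_mul_eq_one_right hxx
  have hvM : v ∈ M₀ := by rw [hv]; exact M₀.mul_mem hv₁ (hxM v₁ hv₁)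
  have hv2 : v ^ 2 = 1 := h2 v hvM
  have hvv : v * v = 1 := by rw [← pow_two]; exact hv2
  have hgv' : g * v = v * g := by
    calc g * v = (g * v * g⁻¹) * g := by group
      _ = v * g := by rw [hgv]
  have hv₁v₁ : v₁ * v₁ = 1 := by rw [← pow_two]; exact h2 v₁ hv₁
  have hv₁i : v₁⁻¹ = v₁ := inv_eq_of_mul_eq_one_right hv₁v₁
  have hvc : v = (x * v₁ * x⁻¹) * v₁ := by rw [hv]; exact hcomm v₁ hv₁ _ (hxM v₁ hv₁)
  have hxv₁ : x * v₁ * x⁻¹ = v * v₁ := by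
    calc x * v₁ * x⁻¹ = (x * v₁ * x⁻¹) * (v₁ * v₁) := by rw [hv₁v₁, mul_one]
      _ = v * v₁ := by rw [← mul_assoc, ← hvc]
  have hxv : x * v = v * x := by
    rw [hxd]
    have h1 : Commute g v := hgv'
    exact (h1.pow_left _).eq
  -- the element `ε`
  obtain ⟨ε, hε⟩ : ∃ ε, ε = (g * v₁ * g⁻¹) * v₁ := ⟨_, rfl⟩
  have hεM : ε ∈ M₀ := by rw [hε]; exact M₀.mul_mem (hgM _ hv₁) hv₁
  have hεn : ∀ n : ℕ, (ε * g) ^ n = (g ^ n * v₁ * (g ^ n)⁻¹) * v₁ * g ^ n := by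
    intro n
    induction n with
    | zero => simp [hv₁v₁]
    | succ n ih =>
      rw [pow_succ', ih, hε]
      have e1 : g * v₁ * g⁻¹ * v₁ = v₁ * (g * v₁ * g⁻¹) := hcomm _ (hgM _ hv₁) _ hv₁
      have e2 : (g ^ (n + 1) * v₁ * (g ^ (n + 1))⁻¹) * v₁ =
          v₁ * (g ^ (n + 1) * v₁ * (g ^ (n + 1))⁻¹) := hcomm _ (hgk _ _ hv₁) _ hv₁
      have e3 : (g * v₁ * g⁻¹) * (g ^ (n + 1) * v₁ * (g ^ (n + 1))⁻¹) =
          (g ^ (n + 1) * v₁ * (g ^ (n + 1))⁻¹) * (g * v₁ * g⁻¹) :=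
        hcomm _ (hgM _ hv₁) _ (hgk _ _ hv₁)
      have e4 : (g * v₁ * g⁻¹) * (g * v₁ * g⁻¹) = 1 := by
        have : (g * v₁ * g⁻¹) * (g * v₁ * g⁻¹) = g * (v₁ * v₁) * g⁻¹ := by group
        rw [this, hv₁v₁]
        group
      calc g * v₁ * g⁻¹ * v₁ * g * (g ^ n * v₁ * (g ^ n)⁻¹ * v₁ * g ^ n)
          = (g * v₁ * g⁻¹ * v₁) * (g ^ (n + 1) * v₁ * (g ^ (n + 1))⁻¹) * (g * v₁ * g⁻¹) *
              g ^ (n + 1) := by rw [pow_succ' g n]; group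
        _ = v₁ * ((g * v₁ * g⁻¹) * (g ^ (n + 1) * v₁ * (g ^ (n + 1))⁻¹)) * (g * v₁ * g⁻¹) *
              g ^ (n + 1) := by rw [e1]; group
        _ = v₁ * (g ^ (n + 1) * v₁ * (g ^ (n + 1))⁻¹) * ((g * v₁ * g⁻¹) * (g * v₁ * g⁻¹)) *
              g ^ (n + 1) := by rw [e3]; group
        _ = (v₁ * (g ^ (n + 1) * v₁ * (g ^ (n + 1))⁻¹)) * g ^ (n + 1) := by rw [e4, mul_one]
        _ = _ := by rw [← e2]
  have hnorm : ynorm (2 ^ (a - 1)) g ε = v := by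
    unfold ynorm
    rw [hεn, ← hxd, mul_inv_cancel_right, ← hvc]
  have hxε : x * ε = ε * x := by
    have h1 : x * ε * x⁻¹ = ε := by
      have e1 : x * g = g * x := hgx.symm
      calc x * ε * x⁻¹ = (x * g) * v₁ * (x * g)⁻¹ * (x * v₁ * x⁻¹) := by rw [hε]; group
        _ = g * (x * v₁ * x⁻¹) * g⁻¹ * (x * v₁ * x⁻¹) := by rw [e1]; group
        _ = (g * v) * v₁ * g⁻¹ * (v * v₁) := by rw [hxv₁]; group
        _ = v * ((g * v₁ * g⁻¹) * v) * v₁ := by rw [hgv']; group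
        _ = v * (v * (g * v₁ * g⁻¹)) * v₁ := by rw [hcomm _ (hgM _ hv₁) _ hvM]
        _ = (v * v) * ((g * v₁ * g⁻¹) * v₁) := by group
        _ = ε := by rw [hvv, one_mul, hε]
    calc x * ε = (x * ε * x⁻¹) * x := by group
      _ = ε * x := by rw [h1]
  -- finality
  have hfinal : ∀ T : Subgroup G, Finite T → Group.IsSolvable T → g ∈ T → ε ∈ T →
      InOP m (2 ^ a) T v := by
    intro T hfin hsol hgT hεT
    by_contra hbad
    apply hcon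
    refine ⟨T, hfin, hsol, (M₀ ⊓ centralizer {x}).subgroupOf T, ⟨g, hgT⟩, ⟨ε, hεT⟩, ?_⟩
    refine
      { pr :=
          { fin := inferInstance
            sq := ?_
            hp := ?_
            hg := Subtype.ext (by simpa using hg)
            hτ := ⟨0, by simp⟩
            hτm := one_pow _
            hgτ := by rw [mul_one, one_mul]
            hτp := by simp
            hgP := ?_
            hτP := ?_
            cen := ?_ }
        hz := ?_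
        alt := Or.inl ⟨rfl, rfl⟩ }
    · intro y hy
      rw [mem_subgroupOf] at hy
      exact Subtype.ext (by simpa using h2 _ hy.1)
    · rw [mem_subgroupOf]
      exact ⟨hεM, mem_centralizer_singleton_iff.2 hxε.symm⟩
    · intro y hy
      rw [mem_subgroupOf] at hy ⊢
      refine ⟨hgM _ hy.1, mem_centralizer_singleton_iff.2 ?_⟩
      have h1 : Commute (y : G) x := mem_centralizer_singleton_iff.1 hy.2
      have h3 : Commute g x := hgx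
      have h4 : Commute (g * (y : G) * g⁻¹) x := (h3.mul_left h1).mul_left h3.inv_left
      exact h4
    · intro y hy
      simpa using hy
    · intro y hy
      rw [mem_subgroupOf] at hy
      have h1 : Commute (y : G) x := mem_centralizer_singleton_iff.1 hy.2
      apply Subtype.ext
      show g ^ (2 ^ (a - 1)) * (y : G) = y * g ^ (2 ^ (a - 1))
      rw [← hxd]
      exact h1.symm.eq
    · rw [InOP.top_iff]
      have h1 : ((ynorm (2 ^ (a - 1)) (⟨g, hgT⟩ : T) ⟨ε, hεT⟩ : T) : G) = v := by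
        rw [← hnorm]
        simp [ynorm]
      rw [h1]
      exact hbad
  -- (NS)
  have hNS : ∀ s : G, s ^ m = 1 → g * s = s * g → v * s * v⁻¹ = s⁻¹ → s = 1 := by
    intro s hs hgs hvs
    refine zt_NS H.tw hm H.noO (x := g) (w := w) hg hw hgv' hv2 ?_ hs hgs hvs
    intro N hfin hsol hgN hwN _
    apply hfinal N hfin hsol hgN
    have hle : closure {g, w⁻¹ * g * w} ≤ N := by
      rw [closure_le]
      rintro y (rfl | rfl)
      · exact hgN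
      · exact N.mul_mem (N.mul_mem (N.inv_mem hwN) hgN) hwN
    exact hle (hwM hεM)
  -- (R2)
  obtain ⟨d, hd1, hd, hvd⟩ := ys_R2 H hv2 hv1
  obtain ⟨hfin, hsol⟩ := H.tw.h2 (x * v₁) (g * d)
  obtain ⟨T, hT⟩ : ∃ T, T = closure {x * v₁, g * d} := ⟨_, rfl⟩
  rw [← hT] at hfin hsol
  have hxvT : x * v₁ ∈ T := by rw [hT]; exact subset_closure (by simp)
  have hgdT : g * d ∈ T := by rw [hT]; exact subset_closure (by simp)
  have hvT : v ∈ T := by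
    have h1 : (x * v₁) * (x * v₁) = v := by
      rw [hvc, hxi]
      group
    rw [← h1]
    exact T.mul_mem hxvT hxvT
  obtain ⟨hdT, hgT⟩ := ys_dT hm hvT hgdT hv2 hgv' hd hvd
  have hxT : x ∈ T := by rw [hxd]; exact T.pow_mem hgT _
  have hv₁T : v₁ ∈ T := by
    have h1 := T.mul_mem (T.inv_mem hxT) hxvT
    rwa [inv_mul_cancel_left] at h1
  have hεT : ε ∈ T := by
    rw [hε]
    exact T.mul_mem (T.mul_mem (T.mul_mem hgT hv₁T) (T.inv_mem hgT)) hv₁T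
  refine ys_end hm (by omega) hNS (hfinal T hfin hsol hgT hεT) hd1 hd hvd hdT hgT hv₁T
    (Y := M₀ ⊓ T) inf_le_right (fun y hy => h2 y hy.1)
    (fun y hy => ⟨hgM y hy.1, T.mul_mem (T.mul_mem hgT hy.2) (T.inv_mem hgT)⟩) hg hv2 hgv'
    (hcomm _ hv₁ _ hvM) (fun y hy => hcomm y hy.1 v hvM) ?_ ?_
  · rw [← hxd, hvc]
    calc v₁⁻¹ * x * v₁ = v₁ * x⁻¹ * v₁ := by rw [hv₁i, hxi]
      _ = (x * x) * v₁ * x⁻¹ * v₁ := by rw [hxx, one_mul]
      _ = _ := by group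
  · exact ⟨M₀.mul_mem (M₀.inv_mem hv₁) (hgk _ _ hv₁),
      T.mul_mem (T.inv_mem hv₁T) (T.mul_mem (T.mul_mem (T.pow_mem hgT _) hv₁T)
        (T.inv_mem (T.pow_mem hgT _)))⟩

end Pool.Agent.Lib.MP_544bd1_al
end

section

/-!
Theorem Z (paper 287): section 1, the abstract finality theorem.
-/

namespace Pool.Agent.Lib.MP_544bd1_al

open Subgroup

variable {m a : ℕ} {G : Type} [Group G]

/-- **FT** (section 1) -/
theorem ys_FT (H : YG m a G) {S Q Y : Subgroup G} {g u f w s : G}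
    (D : YFT m a S Q Y g u f w s) : False := by
  have hm := H.hm
  have ha := H.ha
  have hfinal := ysFT_fin hm (by omega) H.tw.hexp D
  have hgf : g * f = f * g := D.hfS g D.hgS
  -- (NS)
  have hNS : ∀ s : G, s ^ m = 1 → g * s = s * g → f * s * f⁻¹ = s⁻¹ → s = 1 := by
    intro s hs hgs hfs
    refine zt_NS H.tw hm H.noO (x := g) (w := w) D.hg D.hw hgf D.hf2 ?_ hs hgs hfs
    intro N hfin hsol hgN hwN _
    apply hfinal N hfin hsol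
    rw [← D.hwS, closure_le]
    rintro y (rfl | rfl)
    · exact hgN
    · exact N.mul_mem (N.mul_mem (N.inv_mem hwN) hgN) hwN
  -- (R2)
  obtain ⟨d, hd1, hd, hfd⟩ := ys_R2 H D.hf2 D.hf1
  obtain ⟨hfin, hsol⟩ := H.tw.h2 (f * s) (g * d)
  obtain ⟨T, hT⟩ : ∃ T, T = closure {f * s, g * d} := ⟨_, rfl⟩
  rw [← hT] at hfin hsol
  have hfsT : f * s ∈ T := by rw [hT]; exact subset_closure (by simp)
  have hgdT : g * d ∈ T := by rw [hT]; exact subset_closure (by simp)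
  have hsS : s ∈ S := by rw [← D.hsS]; exact subset_closure (by simp)
  have hfs : f * s = s * f := (D.hfS s hsS).symm
  have hf8 : f ^ (2 ^ a) = 1 := by
    have h1 : f ^ (2 ^ a) = (f ^ 2) ^ (2 ^ (a - 1)) := by
      rw [← pow_mul, ← pow_succ', Nat.sub_add_cancel (by omega)]
    rw [h1, D.hf2, one_pow]
  have h3 := tw_coprime_comm (zt_cop hm a) D.hs hf8 hfs.symm
  rw [← hfs] at h3
  have hfT : f ∈ T := (zpowers_le.2 hfsT) h3.2
  have hsT : s ∈ T := (zpowers_le.2 hfsT) h3.1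
  obtain ⟨hdT, hgT⟩ := ys_dT hm hfT hgdT D.hf2 hgf hd hfd
  have hST : S ≤ T := by
    rw [← D.hsS, closure_le]
    rintro y (rfl | rfl)
    · exact hgT
    · exact hsT
  have hYS : Y ≤ S := le_trans D.hYQ D.hQS
  exact ys_end hm (by omega) hNS (hfinal T hfin hsol hST) hd1 hd hfd hdT hgT
    (hST (D.hQS D.hu)) (le_trans hYS hST) D.hY2 D.hgY D.hg D.hf2 hgf
    (D.hfS u (D.hQS D.hu)) (fun y hy => D.hfS y (hYS hy)) D.hx D.hm

end Pool.Agent.Lib.MP_544bd1_al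
end

section

/-!
Theorem Z3, Case A, `P` abelian: the contradiction.
-/

namespace Pool.Agent.Lib.MP_544bd1_al

open Subgroup

/-- **(3.0a)** -/
theorem zt_gen_inv {m : ℕ} (hm : Odd m) {G : Type} [Group G] {x ρ : G} (hρ : ρ ^ m = 1)
    (hρx : x ^ 2 * ρ * (x ^ 2)⁻¹ = ρ⁻¹) : ρ ∈ closure {x, ρ⁻¹ * x * ρ} := by
  set T := closure {x, ρ⁻¹ * x * ρ} with hT
  have h1 : x ∈ T := subset_closure (by simp)
  have h2 : ρ⁻¹ * x * ρ ∈ T := subset_closure (by simp)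
  have h3 : (ρ⁻¹ * x * ρ) ^ 2 * (x ^ 2)⁻¹ ∈ T := T.mul_mem (T.pow_mem h2 2) (T.inv_mem (T.pow_mem h1 2))
  have h4 : (ρ⁻¹ * x * ρ) ^ 2 * (x ^ 2)⁻¹ = (ρ ^ 2)⁻¹ := by
    calc (ρ⁻¹ * x * ρ) ^ 2 * (x ^ 2)⁻¹ = ρ⁻¹ * (x ^ 2 * ρ * (x ^ 2)⁻¹) := by
          simp only [pow_two]; group
      _ = (ρ ^ 2)⁻¹ := by rw [hρx, pow_two, mul_inv_rev]
  rw [h4] at h3
  exact zt_mem_sq hm hρ ((T.inv_mem_iff).1 h3)

/-- **3.1: the contradiction of Case A with `P` abelian.** -/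
theorem zt_A1 {m : ℕ} {G : Type} [Group G] (H : ZG m G) {P : Subgroup G} {x ρ p : G}
    (D : ZA1 m P x ρ p) : False := by
  have hm := H.hm
  have hexp := H.tw.hexp
  obtain ⟨_, hzP, hxz, hz2, hzc, hPc⟩ := zt_z P D.hP D.hx D.hPx D.hp
  set z := (p * x) ^ 4 with hz
  have hx8 : x ^ (2 ^ 3) = 1 := by
    rw [show 2 ^ 3 = 4 * 2 by norm_num, pow_mul, D.hx, one_pow]
  have hz1 : z ≠ 1 := D.hz
  -- (NS)
  have hNS : ∀ s : G, s ^ m = 1 → x * s = s * x → z * s * z⁻¹ = s⁻¹ → s = 1 := by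
    intro s hs hxs hzs
    refine zt_NS H.tw hm H.noO hx8 (w := ρ) (zt_gen_inv hm D.hρ D.hρx) hxz hz2 ?_ hs hxs hzs
    intro N hfin hsol hxN hρN hzN
    have hPN : P ≤ N := by
      have h1 : P ⊓ N = P := by
        apply D.gen _ inf_le_left ⟨hzP, hzN⟩
        · rintro q ⟨hq, hqN⟩
          exact ⟨D.hPx q hq, N.mul_mem (N.mul_mem hxN hqN) (N.inv_mem hxN)⟩
        · rintro q ⟨hq, hqN⟩
          exact ⟨D.hPρ q hq, N.mul_mem (N.mul_mem hρN hqN) (N.inv_mem hρN)⟩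
      exact inf_eq_left.1 h1
    have h2 := zt_A1D hm hsol (tw_exp_sub hexp N) (D.sub N hPN hxN hρN)
    rw [InOP.top_iff] at h2
    simpa using h2
  -- (R2)
  obtain ⟨d, hd1, hd, hzd⟩ := zt_R2 H hz2 hz1
  have hzz : z * z = 1 := by rw [← pow_two]; exact hz2
  have hzi : z⁻¹ = z := inv_eq_of_mul_eq_one_left hzz
  -- the group `T`
  obtain ⟨hfin, hsol⟩ := H.tw.h2 (p * x) (p * d)
  set T := closure {p * x, p * d} with hT
  have hu : p * x ∈ T := subset_closure (by simp)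
  have hpd : p * d ∈ T := subset_closure (by simp)
  have hzT : z ∈ T := T.pow_mem hu 4
  have hd2 : d ^ 2 ∈ T := by
    have h1 : (p * d)⁻¹ * z * (p * d) ∈ T := T.mul_mem (T.mul_mem (T.inv_mem hpd) hzT) hpd
    have h2 : (p * d)⁻¹ * z * (p * d) = z * d ^ 2 := by
      have h3 : p * z = z * p := hzc p D.hp
      have h4 : z * d * z = d⁻¹ := by
        rw [← hzd, hzi]
      have h5 : d⁻¹ = z * d * z := h4.symm
      calc (p * d)⁻¹ * z * (p * d) = d⁻¹ * p⁻¹ * (z * p) * d := by group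
        _ = d⁻¹ * z * d := by rw [← h3]; group
        _ = z * d * (z * z) * d := by rw [h5]; group
        _ = z * d ^ 2 := by rw [hzz, mul_one, pow_two, mul_assoc]
    rw [h2] at h1
    have h6 := T.mul_mem (T.inv_mem hzT) h1
    rwa [inv_mul_cancel_left] at h6
  have hdT : d ∈ T := zt_mem_sq hm hd hd2
  have hpT : p ∈ T := by
    have h1 := T.mul_mem hpd (T.inv_mem hdT)
    rwa [mul_inv_cancel_right] at h1
  have hxT : x ∈ T := by
    have h1 := T.mul_mem (T.inv_mem hpT) hu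
    rwa [inv_mul_cancel_left] at h1
  -- in the group `T`
  have hP' : ∀ q ∈ P.subgroupOf T, q ^ 2 = 1 := fun q hq => Subtype.ext (by simpa using D.hP q hq)
  have hx' : (⟨x, hxT⟩ : T) ^ 4 = 1 := Subtype.ext (by simpa using D.hx)
  have hPx' : ∀ q ∈ P.subgroupOf T, (⟨x, hxT⟩ : T) * q * (⟨x, hxT⟩ : T)⁻¹ ∈ P.subgroupOf T :=
    fun q hq => D.hPx q hq
  have hp' : (⟨p, hpT⟩ : T) ∈ P.subgroupOf T := D.hp
  have hex : ∃ s : T, s ≠ 1 ∧ s ^ m = 1 ∧ (⟨x, hxT⟩ : T) * s = s * ⟨x, hxT⟩ ∧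
      ((⟨p, hpT⟩ : T) * ⟨x, hxT⟩) ^ 4 * s * (((⟨p, hpT⟩ : T) * ⟨x, hxT⟩) ^ 4)⁻¹ = s⁻¹ := by
    by_cases h : InOP m (2 ^ 3) (⊤ : Subgroup T) (((⟨p, hpT⟩ : T) * ⟨x, hxT⟩) ^ 4)
    · refine zt_A1Ta hm hP' hx' hPx' hp' h (d := ⟨d, hdT⟩) ?_ ?_ ?_
      · exact Subtype.ext (by simpa using hd)
      · intro h1
        exact hd1 (congrArg Subtype.val h1)
      · exact Subtype.ext (by simpa using hzd)
    · exact zt_A1Tb hm hsol (tw_exp_sub hexp T) hP' hx' hPx' hp' h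
  obtain ⟨s, hs1, hs, hxs, hzs⟩ := hex
  apply hs1
  apply Subtype.ext
  apply hNS
  · simpa using congrArg Subtype.val hs
  · simpa using congrArg Subtype.val hxs
  · simpa using congrArg Subtype.val hzs

end Pool.Agent.Lib.MP_544bd1_al
end

section

/-!
Theorem Z3: Case A.
-/

namespace Pool.Agent.Lib.MP_544bd1_al

open Subgroup

/-- **Case A**: (L2ab) does not hold in finite solvable subgroups of a counterexample. -/
theorem zt_A {m : ℕ} {G : Type} [Group G] (H : ZG m G) (T : Subgroup G) (hfin : Finite T)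
    (hsol : Group.IsSolvable T) : ¬ ZL2 m 3 T := by
  intro h
  have hm := H.hm
  have hexpT := tw_exp_sub H.tw.hexp T
  obtain ⟨r, F₁, Q, R, x, ρ, hr, hr2, hQn, D⟩ := zt_honest hm hsol hexpT h
  have hexpF := tw_exp_sub hexpT F₁
  let f : F₁ →* G := T.subtype.comp F₁.subtype
  have hf : Function.Injective f := T.subtype_injective.comp F₁.subtype_injective
  by_cases hQ : ∀ q ∈ Q, ∀ q' ∈ Q, q * q' = q' * q
  · obtain ⟨p, D1⟩ := zt_A1cfg hm hexpF hr hr2 D hQ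
    exact zt_A1 H (D1.map f (fun h1 => D1.hz (hf (by rw [h1, map_one]))))
  · push Not at hQ
    obtain ⟨f₀, c, n, p₂, p₃, w, D2⟩ := zt_A2cfg hm hexpF hr hr2 D hQ
    exact zt_A2 H (D2.map f hf)

end Pool.Agent.Lib.MP_544bd1_al
end

section

/-!
Theorem Z3, Case B: (B).
-/

namespace Pool.Agent.Lib.MP_544bd1_al

open Subgroup

/-- the image of a configuration -/
theorem ZBc.map {F G : Type} [Group F] [Group G] (f : F →* G) (hf : Function.Injective f)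
    {g u w : F} (D : ZBc g u w) : ZBc (f g) (f u) (f w) := by
  refine ⟨?_, ?_, ?_, ?_, ?_, ?_, ?_, ?_, ?_⟩
  · rw [← map_pow, D.hg, map_one]
  · rw [← map_pow, D.hu, map_one]
  · intro h
    apply D.hu2
    apply hf
    rw [map_pow, h, map_one]
  · have := congrArg f D.hx
    simpa only [map_mul, map_inv, map_pow] using this
  · have := congrArg f D.hz
    simpa only [map_mul, map_inv, map_pow] using this
  · have := congrArg f D.h1
    simpa only [map_mul, map_inv, map_pow, map_one] using this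
  · have := congrArg f D.h0
    simpa only [map_mul, map_inv, map_pow, map_one] using this
  · have e1 : closure {f g, (f w)⁻¹ * f g * f w} = (closure {g, w⁻¹ * g * w}).map f := by
      rw [MonoidHom.map_closure, Set.image_pair, map_mul, map_mul, map_inv]
    rw [e1]
    exact ⟨_, D.hw, rfl⟩
  · have e1 : closure {f g, f w, (f u) ^ 2} = (closure {g, w, u ^ 2}).map f := by
      rw [MonoidHom.map_closure, Set.image_insert_eq, Set.image_pair, map_pow]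
    rw [e1]
    exact ⟨_, D.hwu, rfl⟩

/-- identities of the chain -/
theorem ZBc.chain {G : Type} [Group G] {g u w : G} (D : ZBc g u w) :
    ∃ μ₁ μ₀ : G, (∀ T : Subgroup G, g ∈ T → u ∈ T → μ₁ ∈ T ∧ μ₀ ∈ T) ∧
      μ₁ * g ^ 4 = g ^ 4 * μ₁ ∧ μ₁⁻¹ * g ^ 2 * μ₁ = g ^ 2 * u ^ 2 ∧ μ₁ * u ^ 2 = u ^ 2 * μ₁ ∧
      μ₀ * g ^ 2 = g ^ 2 * μ₀ ∧ μ₀⁻¹ * g * μ₀ = g * u ^ 2 ∧ μ₀ * u ^ 2 = u ^ 2 * μ₀ := by
  have hzz : u ^ 2 * u ^ 2 = 1 := by rw [← pow_add]; exact D.hu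
  have czg : Commute (u ^ 2) g := D.hz.symm
  have czu : Commute (u ^ 2) u := (Commute.refl u).pow_left 2
  set z := u ^ 2 with hz
  set x := g ^ 4 with hx
  have hxu : x * u = u * x * z := by
    calc x * u = u * (u⁻¹ * x * u) := by group
      _ = u * (x * z) := by rw [D.hx]
      _ = u * x * z := by rw [mul_assoc]
  have czx : Commute z x := czg.pow_right 4
  -- `u ^ x = u z`
  have hux : x⁻¹ * u * x = u * z := by
    have h1 : u * x = x * u * z := by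
      rw [hxu, mul_assoc (u * x), hzz, mul_one]
    calc x⁻¹ * u * x = x⁻¹ * (u * x) := by group
      _ = u * z := by rw [h1]; group
  set m := u⁻¹ * ((g ^ 2)⁻¹ * u * g ^ 2) with hm
  have cm : Commute z m :=
    (czu.inv_right).mul_right ((((czg.pow_right 2).inv_right).mul_right czu).mul_right
      (czg.pow_right 2))
  have hm2 : m * m = 1 := by rw [← pow_two]; exact D.h1
  have hmi : m⁻¹ = m := inv_eq_of_mul_eq_one_left hm2
  -- conjugating `m` by `g ^ 2`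
  have hmg : (g ^ 2)⁻¹ * m * g ^ 2 = m * z := by
    have e1 : (g ^ 2)⁻¹ * m * g ^ 2 = ((g ^ 2)⁻¹ * u * g ^ 2)⁻¹ * (x⁻¹ * u * x) := by
      have e2 : x = g ^ 2 * g ^ 2 := by rw [hx, ← pow_add]
      rw [hm, e2]
      group
    rw [e1, hux]
    have e3 : ((g ^ 2)⁻¹ * u * g ^ 2)⁻¹ * u = m⁻¹ := by
      rw [hm]
      group
    rw [← mul_assoc, e3, hmi]
  have hxm : m * x = x * m := by
    have e2 : x = g ^ 2 * g ^ 2 := by rw [hx, ← pow_add]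
    have e3 : x⁻¹ * m * x = m := by
      calc x⁻¹ * m * x = (g ^ 2)⁻¹ * ((g ^ 2)⁻¹ * m * g ^ 2) * g ^ 2 := by rw [e2]; group
        _ = (g ^ 2)⁻¹ * m * (z * g ^ 2) := by rw [hmg]; group
        _ = (g ^ 2)⁻¹ * m * (g ^ 2 * z) := by rw [(czg.pow_right 2).eq]
        _ = ((g ^ 2)⁻¹ * m * g ^ 2) * z := by group
        _ = m := by rw [hmg, mul_assoc, hzz, mul_one]
    calc m * x = x * (x⁻¹ * m * x) := by group
      _ = x * m := by rw [e3]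
  set k := m⁻¹ * (g⁻¹ * m * g) with hk
  have hk2 : k * k = 1 := by rw [← pow_two]; exact D.h0
  have hki : k⁻¹ = k := inv_eq_of_mul_eq_one_left hk2
  have ck : Commute z k :=
    (cm.inv_right).mul_right (((czg.inv_right).mul_right cm).mul_right czg)
  have hkg2 : (g ^ 2)⁻¹ * k * g ^ 2 = k := by
    calc (g ^ 2)⁻¹ * k * g ^ 2
        = ((g ^ 2)⁻¹ * m * g ^ 2)⁻¹ * (g⁻¹ * ((g ^ 2)⁻¹ * m * g ^ 2) * g) := by rw [hk]; group
      _ = (m * z)⁻¹ * (g⁻¹ * m * (z * g)) := by rw [hmg]; group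
      _ = (m * z)⁻¹ * (g⁻¹ * m * (g * z)) := by rw [czg.eq]
      _ = z⁻¹ * k * z := by rw [hk]; group
      _ = z⁻¹ * (z * k) := by rw [mul_assoc, ck.eq]
      _ = k := by group
  have hkg : g⁻¹ * k * g = k * z := by
    calc g⁻¹ * k * g = (g⁻¹ * m * g)⁻¹ * ((g ^ 2)⁻¹ * m * g ^ 2) := by rw [hk, pow_two]; group
      _ = (g⁻¹ * m * g)⁻¹ * m * z := by rw [hmg]; group
      _ = k⁻¹ * z := by rw [hk]; group
      _ = k * z := by rw [hki]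
  refine ⟨m, k, ?_, hxm, ?_, cm.eq.symm, ?_, ?_, ck.eq.symm⟩
  · intro T hgT huT
    have h1 : m ∈ T := T.mul_mem (T.inv_mem huT)
      (T.mul_mem (T.mul_mem (T.inv_mem (T.pow_mem hgT 2)) huT) (T.pow_mem hgT 2))
    exact ⟨h1, T.mul_mem (T.inv_mem h1) (T.mul_mem (T.mul_mem (T.inv_mem hgT) h1) hgT)⟩
  · calc m⁻¹ * g ^ 2 * m = g ^ 2 * (((g ^ 2)⁻¹ * m * g ^ 2)⁻¹ * m) := by group
      _ = g ^ 2 * ((m * z)⁻¹ * m) := by rw [hmg]
      _ = g ^ 2 * (z⁻¹ * (m⁻¹ * m)) := by group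
      _ = g ^ 2 * z := by rw [inv_mul_cancel, mul_one, inv_eq_of_mul_eq_one_left hzz]
  · calc k * g ^ 2 = g ^ 2 * ((g ^ 2)⁻¹ * k * g ^ 2) := by group
      _ = g ^ 2 * k := by rw [hkg2]
  · calc k⁻¹ * g * k = g * ((g⁻¹ * k * g)⁻¹ * k) := by group
      _ = g * ((k * z)⁻¹ * k) := by rw [hkg]
      _ = g * (z⁻¹ * (k⁻¹ * k)) := by group
      _ = g * z := by rw [inv_mul_cancel, mul_one, inv_eq_of_mul_eq_one_left hzz]

/-- **(B)** -/
theorem zt_B {m : ℕ} {G : Type} [Group G] (H : ZG m G) {g u w : G} (D : ZBc g u w) : False := by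
  have hm := H.hm
  have hexp := H.tw.hexp
  obtain ⟨μ₁, μ₀, hμT, hμ1x, hμ1, hμ1z, hμ0g, hμ0, hμ0z⟩ := D.chain
  have hfinal : ∀ N : Subgroup G, Finite N → Group.IsSolvable N → g ∈ N → u ∈ N →
      InOP m (2 ^ 3) N (u ^ 2) := by
    intro N hfin hsol hgN huN
    have h1 := zt_fin hm hsol (tw_exp_sub hexp N) (zt_A H N hfin hsol) (g := ⟨g, hgN⟩)
      (u := ⟨u, huN⟩) (Subtype.ext (by simpa using D.hg)) (Subtype.ext (by simpa using D.hu))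
      (Subtype.ext (by simpa using D.hx)) (Subtype.ext (by simpa using D.hz))
    rw [InOP.top_iff] at h1
    simpa using h1
  have hz2 : (u ^ 2) ^ 2 = 1 := by rw [← pow_mul]; exact D.hu
  -- (NS)
  have hNS : ∀ s : G, s ^ m = 1 → g * s = s * g → u ^ 2 * s * (u ^ 2)⁻¹ = s⁻¹ → s = 1 := by
    intro s hs hgs hzs
    refine zt_NS H.tw hm H.noO (x := g) (w := w) D.hg D.hw D.hz hz2 ?_ hs hgs hzs
    intro N hfin hsol hgN hwN hzN
    apply hfinal N hfin hsol hgN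
    have hle : closure {g, w, u ^ 2} ≤ N := by
      rw [closure_le]
      rintro y (rfl | rfl | rfl)
      · exact hgN
      · exact hwN
      · exact hzN
    exact hle D.hwu
  -- (R2)
  obtain ⟨d, hd1, hd, hzd⟩ := zt_R2 H hz2 D.hu2
  set z := u ^ 2 with hz
  have hzz : z * z = 1 := by rw [← pow_two]; exact hz2
  have hzi : z⁻¹ = z := inv_eq_of_mul_eq_one_left hzz
  obtain ⟨hfin, hsol⟩ := H.tw.h2 u (g * d)
  set T := closure {u, g * d} with hT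
  have huT : u ∈ T := subset_closure (by simp)
  have hgd : g * d ∈ T := subset_closure (by simp)
  have hzT : z ∈ T := T.pow_mem huT 2
  have hd2 : d ^ 2 ∈ T := by
    have h1 : (g * d)⁻¹ * z * (g * d) ∈ T := T.mul_mem (T.mul_mem (T.inv_mem hgd) hzT) hgd
    have h2 : (g * d)⁻¹ * z * (g * d) = z * d ^ 2 := by
      have h3 : g * z = z * g := D.hz
      have h4 : z * d * z = d⁻¹ := by rw [← hzd, hzi]
      have h5 : d⁻¹ = z * d * z := h4.symm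
      calc (g * d)⁻¹ * z * (g * d) = d⁻¹ * g⁻¹ * (z * g) * d := by group
        _ = d⁻¹ * z * d := by rw [← h3]; group
        _ = z * d * (z * z) * d := by rw [h5]; group
        _ = z * d ^ 2 := by rw [hzz, mul_one, pow_two, mul_assoc]
    rw [h2] at h1
    have h6 := T.mul_mem (T.inv_mem hzT) h1
    rwa [inv_mul_cancel_left] at h6
  have hdT : d ∈ T := zt_mem_sq hm hd hd2
  have hgT : g ∈ T := by
    have h1 := T.mul_mem hgd (T.inv_mem hdT)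
    rwa [mul_inv_cancel_right] at h1
  obtain ⟨hμ1T, hμ0T⟩ := hμT T hgT huT
  have hzU := hfinal T hfin hsol hgT huT
  obtain ⟨K, hKT, hdK, hKn, hKm⟩ := zt_inO hm hzU hz2 hdT hd hzd
  have hne : ∃ y ∈ K, z * y ≠ y * z := by
    refine ⟨d, hdK, ?_⟩
    intro h
    have h1 : d = d⁻¹ := by rw [← hzd, h, mul_inv_cancel_right]
    exact hd1 (fr_one_two hm hd (by rw [pow_two]; nth_rw 1 [h1]; exact inv_mul_cancel d))
  -- first step
  obtain ⟨y₁, hy₁K, hy₁x, hy₁z⟩ := zt_swap hm K hKm (x := g ^ 4) (z := z) (μ := u)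
    (hKn _ (T.pow_mem hgT 4)) (hKn _ hzT) (hKn _ huT)
    (by
      intro y _
      rw [← pow_mul, show 4 * 2 = 8 by norm_num, D.hg, one_mul, mul_one])
    hz2 (by
      have h1 : Commute g z := D.hz
      exact h1.pow_left 4) (by
      have h1 : Commute u z := (Commute.refl u).pow_right 2
      exact h1) D.hx hne
  -- centralizers
  have hcent : ∀ (B : Subgroup G) (c : G), (∀ t ∈ T, t * c = c * t → ∀ y ∈ B, t * y * t⁻¹ ∈ B) →
      ∀ t ∈ T, t * c = c * t → ∀ y ∈ B ⊓ centralizer {c}, t * y * t⁻¹ ∈ B ⊓ centralizer {c} := by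
    intro B c hB t ht htc y hy
    rw [Subgroup.mem_inf, Subgroup.mem_centralizer_singleton_iff] at hy ⊢
    refine ⟨hB t ht htc y hy.1, ?_⟩
    have c1 : Commute t c := htc
    have c2 : Commute y c := hy.2
    exact (c1.mul_left c2).mul_left c1.inv_left
  let A₁ : Subgroup G := K ⊓ centralizer {g ^ 4}
  have hA₁ : ∀ t ∈ T, t * g ^ 4 = g ^ 4 * t → ∀ y ∈ A₁, t * y * t⁻¹ ∈ A₁ :=
    hcent K (g ^ 4) (fun t ht _ y hy => hKn t ht y hy)
  have hA₁m : ∀ y ∈ A₁, y ^ m = 1 := fun y hy => hKm y hy.1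
  have cg : ∀ i j : ℕ, g ^ i * g ^ j = g ^ j * g ^ i := fun i j => by rw [← pow_add, ← pow_add, add_comm]
  have cgz : ∀ i : ℕ, g ^ i * z = z * g ^ i := by
    intro i
    have h1 : Commute g z := D.hz
    exact h1.pow_left i
  obtain ⟨y₂, hy₂A, hy₂x, hy₂z⟩ := zt_swap hm A₁ hA₁m (x := g ^ 2) (z := z) (μ := μ₁)
    (hA₁ _ (T.pow_mem hgT 2) (cg 2 4)) (hA₁ _ hzT (cgz 4).symm) (hA₁ _ hμ1T hμ1x)
    (by
      intro y hy
      rw [← pow_mul, show 2 * 2 = 4 by norm_num]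
      exact ((Subgroup.mem_centralizer_singleton_iff.1 hy.2)).symm)
    hz2 (cgz 2) hμ1z hμ1
    ⟨y₁, ⟨hy₁K, Subgroup.mem_centralizer_singleton_iff.2 hy₁x.symm⟩, hy₁z⟩
  let A₂ : Subgroup G := K ⊓ centralizer {g ^ 2}
  have hA₂ : ∀ t ∈ T, t * g ^ 2 = g ^ 2 * t → ∀ y ∈ A₂, t * y * t⁻¹ ∈ A₂ :=
    hcent K (g ^ 2) (fun t ht _ y hy => hKn t ht y hy)
  have hA₂m : ∀ y ∈ A₂, y ^ m = 1 := fun y hy => hKm y hy.1
  obtain ⟨y₃, hy₃A, hy₃x, hy₃z⟩ := zt_swap hm A₂ hA₂m (x := g) (z := z) (μ := μ₀)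
    (hA₂ _ hgT (by rw [← pow_succ', ← pow_succ])) (hA₂ _ hzT (cgz 2).symm) (hA₂ _ hμ0T hμ0g)
    (fun y hy => ((Subgroup.mem_centralizer_singleton_iff.1 hy.2)).symm)
    hz2 D.hz hμ0z hμ0
    ⟨y₂, ⟨hy₂A.1, Subgroup.mem_centralizer_singleton_iff.2 hy₂x.symm⟩, hy₂z⟩
  obtain ⟨s, hs1, hs, hgs, hzs⟩ := zt_fixinv hKm hz2 D.hz hy₃A.1 (hKn z hzT) hy₃x hy₃z
  exact hs1 (hNS s hs hgs hzs)

end Pool.Agent.Lib.MP_544bd1_al
end

section

/-!
Theorem Z3: exponents `8 * m`, `m` odd.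
-/

namespace Pool.Agent.Lib.MP_544bd1_al

open Subgroup

/-- goodness -/
theorem zt_good' {m a : ℕ} {G : Type} [Group G] (H : TwG (m * 2 ^ a) G) (hm : Odd m) {u : G}
    (hu : u ^ (2 ^ a) = 1) (hHH : ∀ T : Subgroup G, Finite T → Group.IsSolvable T → u ∈ T →
      InOP m (2 ^ a) T (u ^ (2 ^ (a - 1)))) : GoodS m (2 ^ a) (u ^ (2 ^ (a - 1))) := by
  have h2m : ¬ 2 ∣ m := by
    rw [← even_iff_two_dvd, Nat.not_even_iff_odd]
    exact hm
  have hexp : ∀ x : G, x ^ (m * 2 ^ a) = 1 := H.hexp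
  have hz : (u ^ (2 ^ (a - 1))) ^ (2 ^ a) = 1 := by
    rw [← pow_mul, mul_comm, pow_mul, hu, one_pow]
  refine ⟨hz, ?_⟩
  intro T hfin hsol hzT
  have h1 : ∀ t : T, InOP m (2 ^ a) (closure {(⟨u ^ (2 ^ (a - 1)), hzT⟩ : T), t})
      (⟨u ^ (2 ^ (a - 1)), hzT⟩ : T) := by
    intro t
    apply InOP.sub_closure
    obtain ⟨hfL, hsL⟩ := H.h2 u (t : G)
    set L := closure {u, (t : G)} with hL
    have huL : u ∈ L := subset_closure (by simp)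
    have htL : (t : G) ∈ L := subset_closure (by simp)
    have h2 := hHH L hfL hsL huL
    refine h2.mono ?_ (subset_closure (by simp))
    rw [closure_le]
    rintro x (rfl | rfl)
    · exact L.pow_mem huL _
    · exact htL
  have h4 := tw_F1 (F := T) Nat.prime_two h2m hm.pos hsol (tw_exp_sub hexp T)
    (z := ⟨u ^ (2 ^ (a - 1)), hzT⟩) (Subtype.ext (by simpa using hz)) h1
  rw [InOP.top_iff] at h4
  exact h4

/-- **Theorem Z3**, the core: a counterexample has exponent `4 * m`. -/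
theorem zt_Z3 {m : ℕ} {G : Type} [Group G] (H : ZG m G) {u : G} (hu : u ^ 8 = 1) :
    u ^ 4 = 1 := by
  by_contra h4
  have hm := H.hm
  refine H.bad (u ^ 4) (by rw [← pow_mul]; exact hu) h4 ?_
  refine zt_good' (a := 3) H.tw hm hu ?_
  intro T hfin hsol huT
  by_contra h
  have hexpT := tw_exp_sub H.tw.hexp T
  have hcoe : (((⟨u, huT⟩ : T) ^ (2 ^ (3 - 1)) : T) : G) = u ^ (2 ^ (3 - 1)) := by simp
  obtain ⟨r, hr, hrm, P, R, w, h1, h2, h3, h4, h5, h6, h7⟩ := ev_config hm (by norm_num) hsol hexpT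
    (u := (⟨u, huT⟩ : T)) (Subtype.ext (by simpa using hu)) (by
      rw [InOP.top_iff, hcoe]
      exact h)
  have hr2 : r ≠ 2 := by
    rintro rfl
    rw [← even_iff_two_dvd, ← Nat.not_odd_iff_even] at hrm
    exact hrm hm
  obtain ⟨F₁, Q, R₁, g, hQn, D⟩ := zt_minB hr hr2 P R w h1 h2 h3 h4 h5 h6 h7
  obtain ⟨g', u', w', B⟩ := zt_cfgB hm (tw_exp_sub hexpT F₁) hr hr2 D
  exact zt_B H (B.map (T.subtype.comp F₁.subtype)
    (T.subtype_injective.comp F₁.subtype_injective))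

/-- exponents `8 * m` -/
theorem zt_even {m : ℕ} (hm : Odd m) (G : Type) [Group G] (H : TwG (2 ^ 3 * m) G)
    (hEm : ESec m G) (hE2 : ESec (2 ^ 3) G) : LF (⊤ : Subgroup G) := by
  apply LF_of_quotients
  intro K₀ hK₀ hK₀top
  have hnt : Nontrivial (G ⧸ K₀) := by
    by_contra h
    rw [not_nontrivial_iff_subsingleton] at h
    exact hK₀top (QuotientGroup.subgroup_eq_top_of_subsingleton K₀ h)
  have hsurj := QuotientGroup.mk'_surjective K₀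
  have HQ : TwG (2 ^ 3 * m) (G ⧸ K₀) := H.quotient _ hsurj
  have hEmQ : ESec m (G ⧸ K₀) := hEm.of_surjective _ hsurj
  have hE2Q : ESec (2 ^ 3) (G ⧸ K₀) := hE2.of_surjective _ hsurj
  have hm0 : 0 < m := hm.pos
  have hn : 2 ^ 3 * m = m * 2 ^ 3 := mul_comm _ _
  have HQ' : TwG (m * 2 ^ 3) (G ⧸ K₀) := by rw [← hn]; exact HQ
  by_cases hsmall : ∀ x : G ⧸ K₀, x ^ (2 ^ 2 * m) = 1
  · refine ⟨⊤, inferInstance, fun h => bot_ne_top h.symm, ?_⟩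
    exact ev_even _ 2 m rfl hm (Or.inl le_rfl) (G ⧸ K₀) (HQ.of_exp (by positivity) hsmall) hEmQ
      (hE2Q.dvd (pow_dvd_pow 2 (by omega)))
  by_cases hA : NoN (2 ^ 3) (G ⧸ K₀)
  · by_cases hB : NoN m (G ⧸ K₀)
    · exfalso
      have HZ : ZG m (G ⧸ K₀) := ⟨hm, HQ', hB, hA, fun z hz hz1 hgood =>
        hz1 (tw_X HQ hn hm hA hB hgood hz)⟩
      push Not at hsmall
      obtain ⟨g, hg⟩ := hsmall
      apply hg
      have h1 := zt_Z3 HZ (u := g ^ m) (by rw [← pow_mul]; exact HQ'.hexp g)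
      rw [mul_comm, pow_mul]
      exact h1
    · unfold NoN at hB
      push Not at hB
      obtain ⟨K, hK1, hK2, hK3⟩ := hB
      exact ⟨K, hK1, hK3, hEmQ.sub hK2⟩
  · unfold NoN at hA
    push Not at hA
    obtain ⟨K, hK1, hK2, hK3⟩ := hA
    exact ⟨K, hK1, hK3, hE2Q.sub hK2⟩

/-- `EvenT 3 m` for all odd `m` -/
theorem evenT_3 {m : ℕ} (hm : Odd m) : EvenT 3 m :=
  fun G _ H hEm hE2 => zt_even hm G H hEm hE2

end Pool.Agent.Lib.MP_544bd1_al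
end

section

/-!
Theorem Z (paper 287): section 2, the base.
-/

namespace Pool.Agent.Lib.MP_544bd1_al

open Subgroup

variable {m a : ℕ} {G : Type} [Group G]

/-- the two configurations -/
theorem zs_cfg {m a : ℕ} (ha : 3 ≤ a) (hm : Odd m) {F : Type} [Group F] [Finite F]
    (hsol : Group.IsSolvable F) (hexp : ∀ x : F, x ^ (m * 2 ^ a) = 1) {r : ℕ} (hr : r.Prime)
    (hr2 : r ≠ 2) {Q R : Subgroup F} [hQn : Q.Normal] {g : F} (D : ZsMin r a Q R g) :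
    (∃ (M₀ : Subgroup F) (g w : F), g ^ (2 ^ a) = 1 ∧ (∀ q ∈ M₀, q ^ 2 = 1) ∧
      (∀ q ∈ M₀, g * q * g⁻¹ ∈ M₀) ∧ (∃ q ∈ M₀, g ^ (2 ^ (a - 1)) * q ≠ q * g ^ (2 ^ (a - 1))) ∧
      w ∈ closure {g, w⁻¹ * g * w} ∧ M₀ ≤ closure {g, w⁻¹ * g * w}) ∨
    ∃ (S' Q' Y : Subgroup F) (g' u f w s₀ : F), YFT m a S' Q' Y g' u f w s₀ := by
  obtain ⟨V, _, _, _, τ, φ, h1, h2, h3, h4, h5⟩ := zs_module hr hr2 Q R D.core
  have M : ZMd Q R τ φ := ⟨h1, h2, h3, h4, h5⟩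
  obtain ⟨s, S⟩ := zs_Rb (by omega) hm hexp hr hr2 D M
  obtain ⟨K, _, ι, θ, q, β, Z⟩ := zs_quad hr hr2 D.core M
  obtain ⟨-, irr2, -, -⟩ := zs_irr hr hr2 D.core M
  have hx1 := zsb_x1 hr hr2 D M
  have hι0 : ι 0 = 1 := by
    have h1 := Z.ιadd 0 0
    rw [add_zero] at h1
    exact left_eq_mul.1 h1
  obtain ⟨w, kw, -, -, hw, hwQ⟩ := zs_W (by omega) hm hexp hr hr2 D M S Q.one_mem
  rw [one_mul] at hw hwQ
  by_cases hx : ∀ c ∈ ⁅Q, Q⁆, g ^ (2 ^ (a - 1)) * c = c * g ^ (2 ^ (a - 1))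
  · by_cases hne : ∃ v w, β v w ≠ 0
    · right
      exact zs_22 ha hm hsol hexp hr hr2 D M S (zs_Lp (by omega) hm hexp hr hr2 D M S) Z hx hne
    · push Not at hne
      have hQQ : ⁅Q, Q⁆ = ⊥ := by
        rw [eq_bot_iff, commutator_le]
        intro a ha b hb
        have h6 := Z.hβ ⟨a, ha⟩ ⟨b, hb⟩
        rw [hne, hι0] at h6
        rw [mem_bot]
        exact h6.symm
      have hQ2 : ∀ a ∈ Q, a ^ 2 = 1 := by
        intro a ha
        have h6 : φ (⟨a, ha⟩ * ⟨a, ha⟩) = 0 := by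
          rw [M.add]
          exact ZModModule.add_self _
        have h7 := (irr2 _ h6).1
        rw [hQQ, mem_bot] at h7
        rw [pow_two]
        exact h7
      left
      refine ⟨Q, g, w, D.hg, hQ2, fun a ha => hQn.conj_mem a ha g, ?_, hw, hwQ⟩
      by_contra hcon
      push Not at hcon
      exact hx1 (zb_cQ M hcon)
  · push Not at hx
    left
    have hnorm : (⁅Q, Q⁆ : Subgroup F).Normal := Subgroup.commutator_normal Q Q
    refine ⟨⁅Q, Q⁆, g, w, D.hg, ?_, fun a ha => hnorm.conj_mem a ha g, hx, hw,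
      le_trans (fun c hc => (zb_der M c hc).1) hwQ⟩
    intro c hc
    obtain ⟨hcQ, hc0⟩ := zb_der M c hc
    exact (irr2 _ hc0).2

/-- **base** (section 2) -/
theorem ys_base (H : YG m a G) (hbad : ∀ z : G, z ^ 2 = 1 → z ≠ 1 → ¬ GoodS m (2 ^ a) z)
    (hex : ∃ g : G, g ^ (m * 2 ^ (a - 1)) ≠ 1) :
    ∃ T : Subgroup G, Finite T ∧ Group.IsSolvable T ∧
      ∃ (P : Subgroup T) (g p : T), YT m a 0 P g 1 p := by
  have hm := H.hm
  have ha := H.ha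
  obtain ⟨g₀, hg₀⟩ := hex
  obtain ⟨u, hud⟩ : ∃ u, u = g₀ ^ m := ⟨_, rfl⟩
  have hu : u ^ (2 ^ a) = 1 := by rw [hud, ← pow_mul]; exact H.tw.hexp g₀
  have hu1 : u ^ (2 ^ (a - 1)) ≠ 1 := by
    intro h
    apply hg₀
    rw [pow_mul, ← hud, h]
  by_contra hcon
  refine hbad (u ^ (2 ^ (a - 1))) ?_ hu1 (zt_good' H.tw hm hu ?_)
  · rw [← pow_mul, ← pow_succ, Nat.sub_add_cancel (by omega)]
    exact hu
  intro T hfin hsol huT
  by_contra h
  have hexpT := tw_exp_sub H.tw.hexp T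
  have hcoe : (((⟨u, huT⟩ : T) ^ (2 ^ (a - 1)) : T) : G) = u ^ (2 ^ (a - 1)) := by simp
  obtain ⟨r, hr, hrm, P, R, w, h1, h2, h3, h4, h5, h6, h7⟩ := ev_config hm (by omega) hsol hexpT
    (u := (⟨u, huT⟩ : T)) (Subtype.ext (by simpa using hu)) (by
      rw [InOP.top_iff, hcoe]
      exact h)
  have hr2 : r ≠ 2 := by
    rintro rfl
    rw [← even_iff_two_dvd, ← Nat.not_odd_iff_even] at hrm
    exact hrm hm
  obtain ⟨F₁, Q, R₁, g, hQn, D⟩ := zs_min (by omega) hr hr2 P R w h1 h2 h3 h4 h5 h6 h7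
  have hsolF : Group.IsSolvable F₁ := by
    have := hsol
    exact inferInstance
  rcases zs_cfg ha hm hsolF (tw_exp_sub hexpT F₁) hr hr2 D with
    ⟨M₀, g, w, k1, k2, k3, ⟨q, hq, hne⟩, k5, k6⟩ | ⟨S', Q', Y, g', u', f, w', s₀, k⟩
  · apply hcon
    obtain ⟨j, hj⟩ : ∃ j : F₁ →* G, j = T.subtype.comp F₁.subtype := ⟨_, rfl⟩
    have hji : Function.Injective j := by
      rw [hj]
      exact T.subtype_injective.comp F₁.subtype_injective
    have e1 : closure {j g, (j w)⁻¹ * j g * j w} = (closure {g, w⁻¹ * g * w}).map j := by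
      rw [MonoidHom.map_closure, Set.image_pair, map_mul, map_mul, map_inv]
    refine ys_21 H (M₀ := M₀.map j) (g := j g) (w := j w) ?_ ?_ ?_ ?_ ?_ ?_
    · rw [← map_pow, k1, map_one]
    · rintro _ ⟨y, hy, rfl⟩
      rw [← map_pow, k2 y hy, map_one]
    · rintro _ ⟨y, hy, rfl⟩
      exact ⟨g * y * g⁻¹, k3 y hy, by rw [map_mul, map_mul, map_inv]⟩
    · refine ⟨j q, ⟨q, hq, rfl⟩, ?_⟩
      rw [← map_pow, ← map_mul, ← map_mul]
      intro h8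
      exact hne (hji h8)
    · rw [e1]
      exact ⟨w, k5, rfl⟩
    · rw [e1]
      exact map_mono k6
  · exact ys_FT H (ys_mapFT (ys_mapFT k))

end Pool.Agent.Lib.MP_544bd1_al
end

section

/-!
Theorem Z (paper 287): final assembly.
-/

namespace Pool.Agent.Lib.MP_544bd1_al

open Subgroup

variable {m a : ℕ} {G : Type} [Group G]

/-- **Theorem Z** -/
theorem ys_Z (H : YG m a G) (hbad : ∀ z : G, z ^ 2 = 1 → z ≠ 1 → ¬ GoodS m (2 ^ a) z)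
    (hex : ∃ g : G, g ^ (m * 2 ^ (a - 1)) ≠ 1) : False := by
  have hm0 : 0 < m := H.hm.pos
  -- systems of every rank
  have key : ∀ k : ℕ, ∃ T : Subgroup G, Finite T ∧ Group.IsSolvable T ∧
      ∃ (P : Subgroup T) (g τ p : T), YT m a k P g τ p := by
    intro k
    induction k with
    | zero =>
      obtain ⟨T, h1, h2, P, g, p, h3⟩ := ys_base H hbad hex
      exact ⟨T, h1, h2, P, g, 1, p, h3⟩
    | succ k ih =>
      obtain ⟨T, h1, h2, P, g, τ, p, h3⟩ := ih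
      have hexp : ∀ x : T, x ^ (m * 2 ^ a) = 1 := fun x => Subtype.ext (by
        simpa using H.tw.hexp (x : G))
      obtain ⟨Q, R, g', τ', e, e', c, h4⟩ := ys_44 H.hm H.ha h2 hexp h3
      have hexp' : ∀ x : T ⧸ krad m T, x ^ (m * 2 ^ a) = 1 := by
        intro x
        obtain ⟨y, rfl⟩ := QuotientGroup.mk'_surjective _ x
        rw [← map_pow, hexp, map_one]
      have hker : ∀ x, QuotientGroup.mk' (krad m T) x = 1 → x ^ m = 1 := fun x hx =>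
        tw_krad_pow (zt_cop H.hm a) hexp x ((QuotientGroup.eq_one_iff x).1 hx)
      have hsol : Group.IsSolvable (T ⧸ krad m T) :=
        Group.isSolvable_of_surjective (QuotientGroup.mk'_surjective (krad m T))
      have hfin : Finite (T ⧸ krad m T) := inferInstance
      rcases ys_blk H.hm H.ha hsol hexp' h4 with ⟨P', g1, τ1, p1, h5⟩ | ⟨S, Q', Y, g1, u, f, w, s, h5⟩
      · obtain ⟨P2, g2, τ2, p2, h6⟩ := ys_liftSys H.hm H.ha hexp (QuotientGroup.mk' (krad m T))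
          (QuotientGroup.mk'_surjective _) hker h5
        exact ys_41 H (Nat.succ_pos k) (ys_mapSys h6)
      · obtain ⟨S2, Q2, Y2, g2, u2, f2, w2, s2, h6⟩ := ys_liftFT H.hm H.ha h2 hexp
          (QuotientGroup.mk' (krad m T)) (QuotientGroup.mk'_surjective _) hker h5
        exact (ys_FT H (ys_mapFT h6)).elim
  -- contradiction
  obtain ⟨T, h1, h2, P, g, τ, p, h3⟩ := key (m + 1)
  have hexp : ∀ x : T, x ^ (m * 2 ^ a) = 1 := fun x => Subtype.ext (by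
    simpa using H.tw.hexp (x : G))
  have h4 := ys_ord H.hm h2 hexp hm0 h3
  have h5 : m < 3 ^ m := Nat.lt_pow_self (by norm_num)
  rw [pow_succ] at h4
  omega

end Pool.Agent.Lib.MP_544bd1_al
end

section

/-!
Theorem Z (paper 287): two generators suffice for every even exponent.
-/

namespace Pool.Agent.Lib.MP_544bd1_al

open Subgroup

/-- the step from `2 ^ (a - 1) * m` to `2 ^ a * m` -/
theorem ys_even_step {a m : ℕ} (ha : 3 ≤ a) (hm : Odd m) (hprev : EvenT (a - 1) m) :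
    EvenT a m := by
  intro G _ H hEm hE2
  apply LF_of_quotients
  intro K₀ hK₀ hK₀top
  have hnt : Nontrivial (G ⧸ K₀) := by
    by_contra h
    rw [not_nontrivial_iff_subsingleton] at h
    exact hK₀top (QuotientGroup.subgroup_eq_top_of_subsingleton K₀ h)
  have hsurj := QuotientGroup.mk'_surjective K₀
  have HQ : TwG (2 ^ a * m) (G ⧸ K₀) := H.quotient _ hsurj
  have hEmQ : ESec m (G ⧸ K₀) := hEm.of_surjective _ hsurj
  have hE2Q : ESec (2 ^ a) (G ⧸ K₀) := hE2.of_surjective _ hsurj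
  have hm0 : 0 < m := hm.pos
  have hn : 2 ^ a * m = m * 2 ^ a := mul_comm _ _
  have HQ' : TwG (m * 2 ^ a) (G ⧸ K₀) := by rw [← hn]; exact HQ
  by_cases hsmall : ∀ x : G ⧸ K₀, x ^ (2 ^ (a - 1) * m) = 1
  · refine ⟨⊤, inferInstance, fun h => bot_ne_top h.symm, ?_⟩
    exact hprev (G ⧸ K₀) (HQ.of_exp (by positivity) hsmall) hEmQ
      (hE2Q.dvd (pow_dvd_pow 2 (by omega)))
  by_cases hA : NoN (2 ^ a) (G ⧸ K₀)
  · by_cases hB : NoN m (G ⧸ K₀)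
    · exfalso
      have HZ : YG m a (G ⧸ K₀) := ⟨hm, ha, HQ', hB, hA⟩
      push Not at hsmall
      obtain ⟨g, hg⟩ := hsmall
      exact ys_Z HZ (fun z hz hz1 hgood => hz1 (tw_X HQ hn hm hA hB hgood hz))
        ⟨g, by rw [mul_comm]; exact hg⟩
    · unfold NoN at hB
      push Not at hB
      obtain ⟨K, hK1, hK2, hK3⟩ := hB
      exact ⟨K, hK1, hK3, hEmQ.sub hK2⟩
  · unfold NoN at hA
    push Not at hA
    obtain ⟨K, hK1, hK2, hK3⟩ := hA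
    exact ⟨K, hK1, hK3, hE2Q.sub hK2⟩

/-- **Even exponents**: two generators suffice for `2 ^ a * m`, `m` odd, without any condition. -/
theorem evenT_all (a : ℕ) {m : ℕ} (hm : Odd m) : EvenT a m := by
  induction a with
  | zero => exact evenT_of_squares hm (Or.inl (by norm_num))
  | succ a ih =>
    rcases Nat.lt_or_ge (a + 1) 3 with h | h
    · exact evenT_of_squares hm (Or.inl (by omega))
    · exact ys_even_step h hm (by simpa using ih)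

end Pool.Agent.Lib.MP_544bd1_al
end

section

/-!
Two generators suffice, for every exponent: final forms.
-/

namespace Pool.Agent.Lib.MP_544bd1_al

open Subgroup

/-- **Groups, arbitrary exponent.** -/
theorem two_group {n : ℕ} (hn : 0 < n) (G : Type) [Group G] (hG : ∀ g : G, g ^ n = 1)
    (hfin : ∀ x y : G, Finite (closure {x, y}) ∧ Group.IsSolvable (closure {x, y})) :
    IsLocFinite G ↔ PSectionsLocFinite G := by
  obtain ⟨m, hnm, hm⟩ := fin_decomp hn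
  exact fin_group hn hnm hm (oddT_all hn) (evenT_all _ hm) G hG hfin

/-- **Exponents.** -/
theorem two_exponent {n : ℕ} (hn : 0 < n)
    (hsol : (∃ p q a b : ℕ, p.Prime ∧ q.Prime ∧ n = p ^ a * q ^ b) ∨
      (Finite (FreeBurnside 2 n) → Group.IsSolvable (FreeBurnside 2 n))) :
    n ∈ LocFinExponents ↔ Finite (FreeBurnside 2 n) ∧
      ∀ p : ℕ, p.Prime → p ∣ n → p ^ n.factorization p ∈ LocFinExponents := by
  obtain ⟨m, hnm, hm⟩ := fin_decomp hn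
  exact fin_exponent hn hnm hm (oddT_all hn) (evenT_all _ hm) hsol

end Pool.Agent.Lib.MP_544bd1_al
end

section

/-!
Two generators suffice, for every exponent: the form without conditions on the prime powers up to
five.
-/

namespace Pool.Agent.Lib.MP_544bd1_al

open Subgroup

/-- **Exponents, final form.** -/
theorem two_exponent_final {n : ℕ} (hn : 0 < n)
    (hsol : (∃ p q a b : ℕ, p.Prime ∧ q.Prime ∧ n = p ^ a * q ^ b) ∨
      (Finite (FreeBurnside 2 n) → Group.IsSolvable (FreeBurnside 2 n))) :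
    n ∈ LocFinExponents ↔ Finite (FreeBurnside 2 n) ∧
      ∀ p : ℕ, p.Prime → p ∣ n → (7 ≤ p ^ n.factorization p ∨ n = 5) →
        (∀ r ≤ Nat.card (FreeBurnside 2 (n / p ^ n.factorization p)) + 1,
          Finite (FreeBurnside r (p ^ n.factorization p))) →
        p ^ n.factorization p ∈ LocFinExponents := by
  rw [two_exponent hn hsol]
  constructor
  · rintro ⟨hf, h⟩
    exact ⟨hf, fun p hp hpn _ _ => h p hp hpn⟩
  · rintro ⟨hf, h⟩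
    refine ⟨hf, fun p hp hpn => ?_⟩
    have hd : p ^ n.factorization p ∣ n := Nat.ordProj_dvd n p
    by_cases h5 : 7 ≤ p ^ n.factorization p ∨ n = 5
    · exact h p hp hpn h5 (E5.co_weaken hd hf)
    · push Not at h5
      obtain ⟨h6, h7⟩ := h5
      have h3 : 1 ≤ n.factorization p := (hp.dvd_iff_one_le_factorization hn.ne').1 hpn
      have h4 : 1 < p ^ n.factorization p := Nat.one_lt_pow (by omega) hp.one_lt
      have h8 : p ^ n.factorization p ≠ 6 := by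
        intro h9
        have h10 : p ∣ 6 := by
          rw [← h9]
          exact dvd_pow_self p (by omega)
        have h11 : 2 ∣ p := by
          have : 2 ∣ p ^ n.factorization p := by rw [h9]; norm_num
          exact Nat.prime_two.dvd_of_dvd_pow this
        have h12 : 3 ∣ p := by
          have : 3 ∣ p ^ n.factorization p := by rw [h9]; norm_num
          exact Nat.prime_three.dvd_of_dvd_pow this
        have h13 : 2 = p := (Nat.prime_dvd_prime_iff_eq Nat.prime_two hp).1 h11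
        have h14 : 3 = p := (Nat.prime_dvd_prime_iff_eq Nat.prime_three hp).1 h12
        omega
      exact E5.small_mem h7 hn hf hd h4 (by omega)

end Pool.Agent.Lib.MP_544bd1_al
end
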