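import Mathlib
import Pool.Agent.Lib.MP_544bd1_al.EvD
import Pool.Agent.Lib.MP_544bd1_al.FrB
import Pool.Agent.Lib.MP_544bd1_al.E5.Small
import Pool.Agent.Lib.MP_544bd1_al.IpA
import Pool.Agent.Lib.MP_544bd1_al.ZsComp
import Pool.Agent.Lib.MP_544bd1_al.Defs
import Pool.Agent.Lib.MP_544bd1_al.GenDefs
import Pool.Agent.Lib.MP_544bd1_al.CritDefs

section

/-!
The criterion in terms of free Burnside groups.
-/

namespace Pool.Agent.Lib.MP_544bd1_al

open Subgroup

universe u v

theorem ncl_top {G : Type u} [Group G] (x : G) : ncl (⊤ : Subgroup G) x = normalClosure {x} := by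
  rw [ncl, normalClosure]
  congr 1
  ext y
  rw [Group.mem_conjugatesOfSet_iff]
  constructor
  · rintro ⟨h, _, rfl⟩
    exact ⟨x, rfl, isConj_iff.2 ⟨h, rfl⟩⟩
  · rintro ⟨_, rfl, hx⟩
    obtain ⟨h, rfl⟩ := isConj_iff.1 hx
    exact ⟨h, trivial, rfl⟩

theorem dncl_top {G : Type u} [Group G] (x : G) (i : ℕ) :
    dncl (⊤ : Subgroup G) x i =
      (derivedSeries (normalClosure {x} : Subgroup G) i).map (normalClosure {x}).subtype := by
  induction i with
  | zero =>
    rw [dncl, ncl_top, derivedSeries_zero, ← MonoidHom.range_eq_map, Subgroup.range_subtype]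
  | succ i ih => rw [dncl, ih, derivedSeries_succ, Subgroup.map_commutator]

theorem map_top_burnsideLift (m n : ℕ) {G : Type u} [Group G] (hG : ∀ g : G, g ^ n = 1)
    (y : Fin m → G) :
    (⊤ : Subgroup (FreeBurnside m n)).map (burnsideLift m n hG y) =
      closure (Set.range y) := by
  have h1 : (⊤ : Subgroup (FreeBurnside m n)) =
      (closure (Set.range (FreeGroup.of : Fin m → FreeGroup (Fin m)))).map
        (QuotientGroup.mk' _) := by
    rw [FreeGroup.closure_range_of]
    exact (Subgroup.map_top_of_surjective _ (QuotientGroup.mk'_surjective _)).symm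
  rw [h1, Subgroup.map_map, MonoidHom.map_closure]
  congr 1
  rw [← Set.range_comp]
  congr 1
  funext i
  exact burnsideLift_of m n hG y i

/-- **Criterion.** If in the free Burnside group of rank `k + 1` and exponent `n` the normal closure
of a free generator is soluble of derived length at most `k`, then all groups of exponent `n` are
locally finite. -/
theorem criterion (k n : ℕ) (hn : 0 < n)
    (h : derivedSeries (normalClosure
      {(QuotientGroup.mk (FreeGroup.of 0) : FreeBurnside (k + 1) n)} :
        Subgroup (FreeBurnside (k + 1) n)) k = ⊥) :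
    n ∈ LocFinExponents := by
  refine ⟨hn, ?_⟩
  intro G _ hG H hH
  have hLF : LF (⊤ : Subgroup G) := by
    apply LF_of_quotients
    intro N hN hNtop
    by_contra hcon
    push Not at hcon
    have hnt : Nontrivial (G ⧸ N) := by
      by_contra h
      rw [not_nontrivial_iff_subsingleton] at h
      exact hNtop (QuotientGroup.subgroup_eq_top_of_subsingleton N h)
    have hexpN : ∀ x : G ⧸ N, x ^ n = 1 := by
      intro x
      obtain ⟨z, rfl⟩ := QuotientGroup.mk'_surjective N x
      rw [← map_pow, hG, map_one]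
    have hK : ∀ K : Subgroup (G ⧸ N), K.Normal → LF K → K = ⊥ := by
      intro K hK1 hK2
      by_contra hK3
      exact hcon K hK1 hK3 hK2
    have hall : ∀ i : ℕ, ∃ y : Fin (i + 1) → G ⧸ N,
        dncl (closure (Set.range y)) (y 0) i ≠ ⊥ := by
      intro i
      induction i with
      | zero =>
        obtain ⟨g, hg⟩ := exists_ne (1 : G ⧸ N)
        refine ⟨fun _ => g, ?_⟩
        intro h0
        apply hg
        have : g ∈ dncl (closure (Set.range fun _ : Fin 1 => g)) g 0 := by
          apply Subgroup.subset_closure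
          exact ⟨1, one_mem _, by simp⟩
        rw [h0, Subgroup.mem_bot] at this
        exact this
      | succ i ih => exact criterion_step hn hexpN hK i i ih
    obtain ⟨y, hy⟩ := hall k
    apply hy
    rw [← map_top_burnsideLift (k + 1) n hexpN y]
    have h1 : y 0 = burnsideLift (k + 1) n hexpN y (QuotientGroup.mk (FreeGroup.of 0)) :=
      (burnsideLift_of (k + 1) n hexpN y 0).symm
    rw [h1, ← dncl_map, dncl_top, h, Subgroup.map_bot, Subgroup.map_bot]
  exact hLF H le_top hH

end Pool.Agent.Lib.MP_544bd1_al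
end

section

/-!
The criterion for powers of a free generator.
-/

namespace Pool.Agent.Lib.MP_544bd1_al

open Subgroup

universe u

/-- the derived series of the subgroup generated by the conjugates of a power of a generator: one more
generator gives one more step, unless there is a nontrivial locally finite normal subgroup -/
theorem criterion_step_pow {G : Type u} [Group G] {n : ℕ} (hn : 0 < n) (hexp : ∀ g : G, g ^ n = 1)
    (hG : ∀ K : Subgroup G, K.Normal → LF K → K = ⊥) (e r i : ℕ)
    (h : ∃ y : Fin (r + 1) → G, dncl (closure (Set.range y)) (y 0 ^ e) i ≠ ⊥) :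
    ∃ y : Fin (r + 2) → G, dncl (closure (Set.range y)) (y 0 ^ e) (i + 1) ≠ ⊥ := by
  by_contra hcon
  push Not at hcon
  obtain ⟨y, hy⟩ := h
  obtain ⟨w, hw, hw1⟩ : ∃ w ∈ dncl (closure (Set.range y)) (y 0 ^ e) i, w ≠ 1 := by
    by_contra h
    push Not at h
    exact hy (by rw [eq_bot_iff]; intro z hz; exact Subgroup.mem_bot.2 (h z hz))
  have hcomm : ∀ b : G, w * (b * w * b⁻¹) = (b * w * b⁻¹) * w := by
    intro b
    let y' : Fin (r + 2) → G := Fin.snoc y b
    have hy0 : y' 0 = y 0 := by
      have : (0 : Fin (r + 2)) = Fin.castSucc (0 : Fin (r + 1)) := rfl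
      rw [this]
      exact Fin.snoc_castSucc (α := fun _ => G) b y 0
    have hle : closure (Set.range y) ≤ closure (Set.range y') := by
      apply Subgroup.closure_mono
      rintro _ ⟨j, rfl⟩
      exact ⟨Fin.castSucc j, Fin.snoc_castSucc (α := fun _ => G) b y j⟩
    have hb : b ∈ closure (Set.range y') :=
      Subgroup.subset_closure ⟨Fin.last _, Fin.snoc_last (α := fun _ => G) b y⟩
    have h1 := hcon y'
    rw [hy0] at h1
    have hw' : w ∈ dncl (closure (Set.range y')) (y 0 ^ e) i := dncl_mono hle _ _ hw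
    have hbw := dncl_conj hb i hw'
    have h2 := Subgroup.commutator_mem_commutator hw' hbw
    have h3 : dncl (closure (Set.range y')) (y 0 ^ e) (i + 1) =
      ⁅dncl (closure (Set.range y')) (y 0 ^ e) i, dncl (closure (Set.range y')) (y 0 ^ e) i⁆ := rfl
    rw [← h3, h1, Subgroup.mem_bot, commutatorElement_eq_one_iff_mul_comm] at h2
    exact h2
  have hK : ∀ x ∈ normalClosure {w}, ∀ y ∈ normalClosure {w}, x * y = y * x := by
    have h1 : ∀ a b : G, (a * w * a⁻¹) * (b * w * b⁻¹) = (b * w * b⁻¹) * (a * w * a⁻¹) := by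
      intro a b
      have h2 := hcomm (a⁻¹ * b)
      have h3 : (a * w * a⁻¹) * (b * w * b⁻¹) =
          a * (w * ((a⁻¹ * b) * w * (a⁻¹ * b)⁻¹)) * a⁻¹ := by group
      rw [h3, h2]; group
    have h4 : normalClosure {w} ≤ Subgroup.centralizer (normalClosure {w} : Set G) := by
      rw [Subgroup.normalClosure, Subgroup.closure_le]
      intro x hx
      show x ∈ Subgroup.centralizer _
      rw [Subgroup.centralizer_closure, Subgroup.mem_centralizer_iff]
      intro z hz
      rw [Group.mem_conjugatesOfSet_iff] at hx hz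
      obtain ⟨_, rfl, hx⟩ := hx
      obtain ⟨_, rfl, hz⟩ := hz
      obtain ⟨a, rfl⟩ := isConj_iff.1 hx
      obtain ⟨b, rfl⟩ := isConj_iff.1 hz
      exact h1 b a
    intro x hx y hy
    exact (Subgroup.mem_centralizer_iff.1 (h4 hx) y hy).symm
  have h5 := hG _ Subgroup.normalClosure_normal (LF_of_comm hn hexp _ hK)
  have h6 : w ∈ normalClosure {w} := Subgroup.subset_normalClosure rfl
  rw [h5, Subgroup.mem_bot] at h6
  exact hw1 h6

/-- **Criterion for powers.** If `e ∈ 𝓛` and in the free Burnside group of rank `k + 1` and exponent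
`n` the normal closure of the `e`-th power of a free generator is soluble of derived length at most
`k`, then all groups of exponent `n` are locally finite. -/
theorem criterion_pow (e k n : ℕ) (he : e ∈ LocFinExponents) (hn : 0 < n)
    (h : derivedSeries (normalClosure
      {(QuotientGroup.mk (FreeGroup.of 0 ^ e) : FreeBurnside (k + 1) n)} :
        Subgroup (FreeBurnside (k + 1) n)) k = ⊥) :
    n ∈ LocFinExponents := by
  refine ⟨hn, ?_⟩
  intro G _ hG H hH
  have hLF : LF (⊤ : Subgroup G) := by
    apply LF_of_quotients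
    intro N hN hNtop
    by_contra hcon
    push Not at hcon
    have hexpN : ∀ x : G ⧸ N, x ^ n = 1 := by
      intro x
      obtain ⟨z, rfl⟩ := QuotientGroup.mk'_surjective N x
      rw [← map_pow, hG, map_one]
    have hK : ∀ K : Subgroup (G ⧸ N), K.Normal → LF K → K = ⊥ := by
      intro K hK1 hK2
      by_contra hK3
      exact hcon K hK1 hK3 hK2
    by_cases hpow : ∀ g : G ⧸ N, g ^ e = 1
    · -- exponent `e`: the quotient is locally finite, hence trivial
      have h1 : LF (⊤ : Subgroup (G ⧸ N)) := fun K _ hfg => he.2 (G ⧸ N) hpow K hfg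
      have h2 := hK ⊤ inferInstance h1
      apply hNtop
      have h3 : Subsingleton (G ⧸ N) := by
        refine ⟨fun a b => ?_⟩
        have ha : a ∈ (⊤ : Subgroup (G ⧸ N)) := Subgroup.mem_top a
        have hb : b ∈ (⊤ : Subgroup (G ⧸ N)) := Subgroup.mem_top b
        rw [h2, Subgroup.mem_bot] at ha hb
        rw [ha, hb]
      exact QuotientGroup.subgroup_eq_top_of_subsingleton N h3
    · push Not at hpow
      obtain ⟨g, hg⟩ := hpow
      have hall : ∀ i : ℕ, ∃ y : Fin (i + 1) → G ⧸ N,
          dncl (closure (Set.range y)) (y 0 ^ e) i ≠ ⊥ := by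
        intro i
        induction i with
        | zero =>
          refine ⟨fun _ => g, ?_⟩
          intro h0
          apply hg
          have : g ^ e ∈ dncl (closure (Set.range fun _ : Fin 1 => g)) (g ^ e) 0 := by
            apply Subgroup.subset_closure
            exact ⟨1, one_mem _, by simp⟩
          rw [h0, Subgroup.mem_bot] at this
          exact this
        | succ i ih => exact criterion_step_pow hn hexpN hK e i i ih
      obtain ⟨y, hy⟩ := hall k
      apply hy
      rw [← map_top_burnsideLift (k + 1) n hexpN y]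
      have h1 : y 0 ^ e =
          burnsideLift (k + 1) n hexpN y (QuotientGroup.mk (FreeGroup.of 0 ^ e)) := by
        rw [QuotientGroup.mk_pow, map_pow, burnsideLift_of]
      rw [h1, ← dncl_map, dncl_top, h, Subgroup.map_bot, Subgroup.map_bot]
  exact hLF H le_top hH

end Pool.Agent.Lib.MP_544bd1_al
end

section

/-!
# Four generators, arbitrary exponents: the form with the weaker conditions on the prime powers
-/

namespace Pool.Agent.Lib.MP_544bd1_al

open Subgroup E5

/-- prime powers up to five -/
theorem gf_small {q : ℕ} (h1 : 1 < q) (h6 : q ≤ 5) (h : Finite (FreeBurnside 3 q)) :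
    q ∈ LocFinExponents := by
  have hq' : q = 2 ∨ q = 3 ∨ q = 4 ∨ q = 5 := by omega
  rcases hq' with rfl | rfl | rfl | rfl
  · exact two_mem
  · exact three_mem
  · exact four_mem
  · exact five_iff.2 h

/-- **Four generators, final form.** -/
theorem exponent_four_final (n : ℕ) (hn : 0 < n)
    (hgen : Finite (FreeBurnside 4 n) → SimpleSectionsTwoGenerated (FreeBurnside 4 n)) :
    n ∈ LocFinExponents ↔ Finite (FreeBurnside 4 n) ∧
      ∀ p : ℕ, p.Prime → p ∣ n → 7 ≤ p ^ n.factorization p →
        (∀ r ≤ 3 * Nat.card (FreeBurnside 4 (n / p ^ n.factorization p)) + 1,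
          Finite (FreeBurnside r (p ^ n.factorization p))) →
        p ^ n.factorization p ∈ LocFinExponents := by
  rw [exponent_four n hn hgen]
  constructor
  · rintro ⟨hf, h⟩
    exact ⟨hf, fun p hp hpn _ _ => h p hp hpn⟩
  · rintro ⟨hf, h⟩
    refine ⟨hf, fun p hp hpn => ?_⟩
    have hd : p ^ n.factorization p ∣ n := Nat.ordProj_dvd n p
    by_cases h7 : 7 ≤ p ^ n.factorization p
    · refine h p hp hpn h7 fun r hr => ?_
      have h1 : n / p ^ n.factorization p * p ^ n.factorization p = n := Nat.div_mul_cancel hd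
      rw [← h1] at hf
      exact co_burnside_burnside (k := 4) (by norm_num) hf (by simpa using hr)
    · have h3 : 1 ≤ n.factorization p := (hp.dvd_iff_one_le_factorization hn.ne').1 hpn
      have h4 : 1 < p ^ n.factorization p := Nat.one_lt_pow (by omega) hp.one_lt
      have h8 : p ^ n.factorization p ≠ 6 := by
        intro h9
        have h10 : p ∣ 6 := by
          rw [← h9]
          exact dvd_pow_self p (by omega)
        have h11 : 2 ∣ p := by
          have : 2 ∣ p ^ n.factorization p := by rw [h9]; norm_num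
          exact Nat.prime_two.dvd_of_dvd_pow this
        have h12 : 3 ∣ p := by
          have : 3 ∣ p ^ n.factorization p := by rw [h9]; norm_num
          exact Nat.prime_three.dvd_of_dvd_pow this
        have h13 : 2 = p := (Nat.prime_dvd_prime_iff_eq Nat.prime_two hp).1 h11
        have h14 : 3 = p := (Nat.prime_dvd_prime_iff_eq Nat.prime_three hp).1 h12
        omega
      exact gf_small h4 (by omega)
        (ip_mono (by norm_num) (finite_burnside_of_dvd hd hf))

end Pool.Agent.Lib.MP_544bd1_al
end

section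

/-!
# Pair form: for which pairs is the free Burnside group finite
-/

namespace Pool.Agent.Lib.MP_544bd1_al.E5

open Pool.Agent.Lib.MP_544bd1_al Subgroup

theorem mem_of_all_finite {n : ℕ} (hn : 0 < n) (h : ∀ m : ℕ, Finite (FreeBurnside m n)) :
    n ∈ LocFinExponents := by
  refine ⟨hn, fun G _ hG H hH => ?_⟩
  obtain ⟨S, hS⟩ := hH
  let e := S.equivFin
  let x : Fin S.card → G := fun i => (e.symm i : G)
  let φ := burnsideLift S.card n hG x
  have := h S.card
  have hfin : Finite φ.range := Set.finite_range φ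
  have hle : H ≤ φ.range := by
    rw [← hS, closure_le]
    intro g hg
    refine ⟨_, (burnsideLift_of S.card n hG x (e ⟨g, hg⟩)).trans ?_⟩
    simp [x]
  exact Finite.of_injective _ (inclusion_injective hle)

theorem mem_iff_all_finite {n : ℕ} (hn : 0 < n) :
    n ∈ LocFinExponents ↔ ∀ m : ℕ, Finite (FreeBurnside m n) :=
  ⟨fun h m => finite_burnside_of_mem h m, mem_of_all_finite hn⟩

/-- more generators -/
theorem finite_burnside_of_le {k m n : ℕ} (hkm : k ≤ m) (h : Finite (FreeBurnside m n)) :
    Finite (FreeBurnside k n) := by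
  let x : Fin m → FreeBurnside k n := fun i =>
    if hi : (i : ℕ) < k then QuotientGroup.mk (FreeGroup.of ⟨i, hi⟩) else 1
  let φ := burnsideLift m n (burnside_pow k n) x
  have hsurj : Function.Surjective φ := by
    rw [← MonoidHom.range_eq_top]
    have h1 : (⊤ : Subgroup (FreeBurnside k n)) =
        (⊤ : Subgroup (FreeGroup (Fin k))).map (QuotientGroup.mk' _) := by
      rw [Subgroup.map_top_of_surjective _ (QuotientGroup.mk'_surjective _)]
    rw [eq_top_iff, h1, ← FreeGroup.closure_range_of, MonoidHom.map_closure, closure_le]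
    rintro _ ⟨_, ⟨i, rfl⟩, rfl⟩
    refine ⟨_, (burnsideLift_of m n (burnside_pow k n) x ⟨i, lt_of_lt_of_le i.2 hkm⟩).trans ?_⟩
    simp [x]
  exact Finite.of_surjective _ hsurj

/-- **Exponents, simple form.** -/
theorem exponent_simple {n : ℕ} (hn : 0 < n)
    (hsol : (∃ p q a b : ℕ, p.Prime ∧ q.Prime ∧ n = p ^ a * q ^ b) ∨
      (Finite (FreeBurnside 2 n) → Group.IsSolvable (FreeBurnside 2 n))) :
    n ∈ LocFinExponents ↔ Finite (FreeBurnside 2 n) ∧
      ∀ p : ℕ, p.Prime → p ∣ n → (7 ≤ p ^ n.factorization p ∨ n = 5) →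
        p ^ n.factorization p ∈ LocFinExponents := by
  constructor
  · intro h
    exact ⟨finite_burnside_of_mem h 2, fun p _ _ _ => mem_of_dvd (Nat.ordProj_dvd n p) h⟩
  · rintro ⟨hf, h⟩
    exact (two_exponent_final hn hsol).2 ⟨hf, fun p hp hpn h7 _ => h p hp hpn h7⟩

/-- **Pair form.** -/
theorem pair_form {n : ℕ} (hn : 0 < n)
    (hsol : (∃ p q a b : ℕ, p.Prime ∧ q.Prime ∧ n = p ^ a * q ^ b) ∨
      (Finite (FreeBurnside 2 n) → Group.IsSolvable (FreeBurnside 2 n))) :
    (∀ m : ℕ, Finite (FreeBurnside m n)) ↔ Finite (FreeBurnside 2 n) ∧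
      ∀ p : ℕ, p.Prime → p ∣ n → (7 ≤ p ^ n.factorization p ∨ n = 5) →
        ∀ m : ℕ, Finite (FreeBurnside m (p ^ n.factorization p)) := by
  rw [← mem_iff_all_finite hn, exponent_simple hn hsol]
  refine and_congr_right fun _ => ?_
  refine forall_congr' fun p => forall_congr' fun hp => forall_congr' fun _ =>
    forall_congr' fun _ => ?_
  exact mem_iff_all_finite (pow_pos hp.pos _)

/-- no prime power at least seven -/
theorem small_aux {n : ℕ} (hn : n = 10 ∨ n = 12 ∨ n = 15 ∨ n = 20) :
    0 < n ∧ n ≠ 5 ∧ (∃ p q a b : ℕ, p.Prime ∧ q.Prime ∧ n = p ^ a * q ^ b) ∧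
      ∀ p : ℕ, p.Prime → p ∣ n → ¬ 7 ≤ p ^ n.factorization p := by
  have h2 : Nat.Prime 2 := Nat.prime_two
  have h3 : Nat.Prime 3 := Nat.prime_three
  have h5 : Nat.Prime 5 := Nat.prime_five
  have hmain : ∀ p : ℕ, p.Prime → p ∣ n → ∀ v : ℕ, p ^ v ∣ n → ¬ 7 ≤ p ^ v := by
    intro p hp hpn v hv h7
    have hle : p ^ v ≤ n := Nat.le_of_dvd (by omega) hv
    have hpp : IsPrimePow (p ^ v) := by
      refine (isPrimePow_nat_iff _).2 ⟨p, v, hp, ?_, rfl⟩
      rcases Nat.eq_zero_or_pos v with rfl | h
      · norm_num at h7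
      · exact h
    have hdec : ∀ d ≤ 20, d ∣ n → 7 ≤ d → ¬ IsPrimePow d := by
      intro d hd hdn h7 hpp
      have hd' : d = 10 ∨ d = 12 ∨ d = 15 ∨ d = 20 := by
        rcases hn with rfl | rfl | rfl | rfl <;> interval_cases d <;> omega
      obtain ⟨r, k, hr, hk, hrk⟩ := (isPrimePow_nat_iff _).1 hpp
      have hfac : ∀ s : ℕ, s.Prime → s ∣ d → s = r := fun s hs hsd => by
        rw [← hrk] at hsd
        exact (Nat.prime_dvd_prime_iff_eq hs hr).1 (hs.dvd_of_dvd_pow hsd)
      rcases hd' with rfl | rfl | rfl | rfl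
      · have := hfac 2 h2 (by norm_num); have := hfac 5 h5 (by norm_num); omega
      · have := hfac 2 h2 (by norm_num); have := hfac 3 h3 (by norm_num); omega
      · have := hfac 3 h3 (by norm_num); have := hfac 5 h5 (by norm_num); omega
      · have := hfac 2 h2 (by norm_num); have := hfac 5 h5 (by norm_num); omega
    exact hdec (p ^ v) (by omega) hv h7 hpp
  refine ⟨by omega, by omega, ?_, fun p hp hpn => hmain p hp hpn _ (Nat.ordProj_dvd n p)⟩
  rcases hn with rfl | rfl | rfl | rfl
  · exact ⟨2, 5, 1, 1, h2, h5, by norm_num⟩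
  · exact ⟨2, 3, 2, 1, h2, h3, by norm_num⟩
  · exact ⟨3, 5, 1, 1, h3, h5, by norm_num⟩
  · exact ⟨2, 5, 2, 1, h2, h5, by norm_num⟩

/-- **Exponents 10, 12, 15, 20.** -/
theorem pair_small {n : ℕ} (hn : n = 10 ∨ n = 12 ∨ n = 15 ∨ n = 20) {m : ℕ} (hm : 2 ≤ m) :
    Finite (FreeBurnside m n) ↔ Finite (FreeBurnside 2 n) := by
  obtain ⟨h0, h5, hpq, h7⟩ := small_aux hn
  constructor
  · exact finite_burnside_of_le hm
  · intro h
    refine (pair_form h0 (Or.inl hpq)).2 ⟨h, fun p hp hpn h => ?_⟩ m
    rcases h with h | h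
    · exact absurd h (h7 p hp hpn)
    · exact absurd h h5

end Pool.Agent.Lib.MP_544bd1_al.E5
end

section

/-!
# Exponents: the prime power conditions with the derived length criterion

The conditions on the prime powers `q` in the reduction theorems are weakened by the criterion of
`Criterion3.lean`: if for some `e ∈ 𝓛` and some `k` the normal closure of the `e`-th power of a free
generator of `B_{k+1,q}` is soluble of derived length at most `k`, then `q ∈ 𝓛`.
-/

namespace Pool.Agent.Lib.MP_544bd1_al

open Subgroup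

/-- if the derived length condition fails then `q ∈ 𝓛` -/
theorem mem_of_not_long {q : ℕ} (hq : 0 < q) (h : ¬ LongDerivedSeries q) :
    q ∈ LocFinExponents := by
  rw [LongDerivedSeries] at h
  push Not at h
  obtain ⟨e, he, k, hk⟩ := h
  exact criterion_pow e k q he hq hk

/-- the derived length condition may be assumed -/
theorem comb_iff {q : ℕ} (hq : 0 < q) (P : Prop) :
    (P → q ∈ LocFinExponents) ↔ (P → LongDerivedSeries q → q ∈ LocFinExponents) := by
  constructor
  · intro h hP _
    exact h hP
  · intro h hP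
    by_cases hk : LongDerivedSeries q
    · exact h hP hk
    · exact mem_of_not_long hq hk

/-- **Two generators**, with the derived length condition. -/
theorem two_exponent_comb {n : ℕ} (hn : 0 < n)
    (hsol : (∃ p q a b : ℕ, p.Prime ∧ q.Prime ∧ n = p ^ a * q ^ b) ∨
      (Finite (FreeBurnside 2 n) → Group.IsSolvable (FreeBurnside 2 n))) :
    n ∈ LocFinExponents ↔ Finite (FreeBurnside 2 n) ∧
      ∀ p : ℕ, p.Prime → p ∣ n → (7 ≤ p ^ n.factorization p ∨ n = 5) →
        (∀ r ≤ Nat.card (FreeBurnside 2 (n / p ^ n.factorization p)) + 1,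
          Finite (FreeBurnside r (p ^ n.factorization p))) →
        LongDerivedSeries (p ^ n.factorization p) →
        p ^ n.factorization p ∈ LocFinExponents := by
  rw [two_exponent_final hn hsol]
  refine and_congr_right fun _ => ?_
  refine forall_congr' fun p => forall_congr' fun hp => forall_congr' fun _ =>
    forall_congr' fun _ => ?_
  exact comb_iff (pow_pos hp.pos _) _

/-- **Four generators**, with the derived length condition. -/
theorem exponent_four_comb (n : ℕ) (hn : 0 < n)
    (hgen : Finite (FreeBurnside 4 n) → SimpleSectionsTwoGenerated (FreeBurnside 4 n)) :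
    n ∈ LocFinExponents ↔ Finite (FreeBurnside 4 n) ∧
      ∀ p : ℕ, p.Prime → p ∣ n → 7 ≤ p ^ n.factorization p →
        (∀ r ≤ 3 * Nat.card (FreeBurnside 4 (n / p ^ n.factorization p)) + 1,
          Finite (FreeBurnside r (p ^ n.factorization p))) →
        LongDerivedSeries (p ^ n.factorization p) →
        p ^ n.factorization p ∈ LocFinExponents := by
  rw [exponent_four_final n hn hgen]
  refine and_congr_right fun _ => ?_
  refine forall_congr' fun p => forall_congr' fun hp => forall_congr' fun _ =>
    forall_congr' fun _ => ?_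
  exact comb_iff (pow_pos hp.pos _) _

/-- **Two generators**, pair form. -/
theorem pair_two_comb {n : ℕ} (hn : 0 < n)
    (hsol : (∃ p q a b : ℕ, p.Prime ∧ q.Prime ∧ n = p ^ a * q ^ b) ∨
      (Finite (FreeBurnside 2 n) → Group.IsSolvable (FreeBurnside 2 n))) :
    (∀ m : ℕ, Finite (FreeBurnside m n)) ↔ Finite (FreeBurnside 2 n) ∧
      ∀ p : ℕ, p.Prime → p ∣ n → (7 ≤ p ^ n.factorization p ∨ n = 5) →
        (∀ r ≤ Nat.card (FreeBurnside 2 (n / p ^ n.factorization p)) + 1,
          Finite (FreeBurnside r (p ^ n.factorization p))) →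
        LongDerivedSeries (p ^ n.factorization p) →
        ∀ m : ℕ, Finite (FreeBurnside m (p ^ n.factorization p)) := by
  rw [← E5.mem_iff_all_finite hn, two_exponent_comb hn hsol]
  refine and_congr_right fun _ => ?_
  refine forall_congr' fun p => forall_congr' fun hp => forall_congr' fun _ =>
    forall_congr' fun _ => forall_congr' fun _ => forall_congr' fun _ => ?_
  exact E5.mem_iff_all_finite (pow_pos hp.pos _)

/-- **Four generators**, pair form. -/
theorem pair_four_comb (n : ℕ) (hn : 0 < n)
    (hgen : Finite (FreeBurnside 4 n) → SimpleSectionsTwoGenerated (FreeBurnside 4 n)) :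
    (∀ m : ℕ, Finite (FreeBurnside m n)) ↔ Finite (FreeBurnside 4 n) ∧
      ∀ p : ℕ, p.Prime → p ∣ n → 7 ≤ p ^ n.factorization p →
        (∀ r ≤ 3 * Nat.card (FreeBurnside 4 (n / p ^ n.factorization p)) + 1,
          Finite (FreeBurnside r (p ^ n.factorization p))) →
        LongDerivedSeries (p ^ n.factorization p) →
        ∀ m : ℕ, Finite (FreeBurnside m (p ^ n.factorization p)) := by
  rw [← E5.mem_iff_all_finite hn, exponent_four_comb n hn hgen]
  refine and_congr_right fun _ => ?_
  refine forall_congr' fun p => forall_congr' fun hp => forall_congr' fun _ =>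
    forall_congr' fun _ => forall_congr' fun _ => forall_congr' fun _ => ?_
  exact E5.mem_iff_all_finite (pow_pos hp.pos _)

end Pool.Agent.Lib.MP_544bd1_al
end
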