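import Mathlib
import Pool.Agent.Lib.MP_544bd1_al.GpAbs
import Pool.Agent.Lib.MP_544bd1_al.TwF4
import Pool.Agent.Lib.MP_544bd1_al.TwU1
import Pool.Agent.Lib.MP_544bd1_al.FrB
import Pool.Agent.Lib.MP_544bd1_al.Defs
import Pool.Agent.Lib.MP_544bd1_al.GenDefs
import Pool.Agent.Lib.MP_544bd1_al.Detect
import Pool.Agent.Lib.MP_544bd1_al.Twice2
import Pool.Agent.Lib.MP_544bd1_al.TwK1
import Pool.Agent.Lib.MP_544bd1_al.FrR
import Pool.Agent.Lib.MP_544bd1_al.GpFinal
import Pool.Agent.Lib.MP_544bd1_al.E5.Small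
import Pool.Agent.Lib.MP_544bd1_al.IpA

section

/-!
# Inverted pairs, general even exponents: detection of `O_{2',2}` by inverted elements

Let `z` be an involution of a finite solvable group `F` which is not in `O_{2',2}(F)`. Then there is
an element `h` of odd order, inverted by a conjugate of `z`, such that `z` is not in
`O_{2',2}(⟨z, h⟩)`.
-/

namespace Pool.Agent.Lib.MP_544bd1_al

open Subgroup

section

variable {X : Type} [Group X]

/-- if `z ∈ O_{2',2}(⟨z, c⟩)`, where `c` is conjugate under the normal 2-subgroup `W` to an odd element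
inverted by `z`, then `z` inverts `c` -/
theorem ip_key {m a : ℕ} (hm : Odd m) (hexp : ∀ x : X, x ^ (m * 2 ^ a) = 1) (W : Subgroup X)
    (hWn : W.Normal) (hW : ∀ w ∈ W, w ^ (2 ^ a) = 1) {z d v : X} (hz : z ^ 2 = 1)
    (hd : d ^ m = 1) (hzd : z * d * z = d⁻¹) (hv : v ∈ W)
    (h : InOP m (2 ^ a) (closure {z, v * d * v⁻¹}) z) :
    z * (v * d * v⁻¹) * z = (v * d * v⁻¹)⁻¹ := by
  have hcop := zt_cop hm a
  have hzz : z * z = 1 := fr_mul_self hz
  have hzi : z⁻¹ = z := fr_inv_of_sq hz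
  obtain ⟨c, hc⟩ : ∃ c, c = v * d * v⁻¹ := ⟨_, rfl⟩
  rw [← hc] at h ⊢
  obtain ⟨K, hK⟩ : ∃ K, K = closure {z, c} := ⟨_, rfl⟩
  rw [← hK] at h
  have hzK : z ∈ K := by rw [hK]; exact subset_closure (by simp)
  have hcK : c ∈ K := by rw [hK]; exact subset_closure (by simp)
  have hcm : c ^ m = 1 := by rw [hc, conj_pow, hd, mul_one, mul_inv_cancel]
  -- the element `w`
  obtain ⟨w, hw⟩ : ∃ w, w = c * (z⁻¹ * c * z) := ⟨_, rfl⟩
  have hwW : w ∈ W := by
    have h1 : w = (v * (d * v⁻¹ * d⁻¹)) * ((d * z) * (v * (d * v⁻¹ * d⁻¹)) * (d * z)⁻¹) := by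
      have h2 : d * z * d = z := by
        calc d * z * d = d * (z * d * z) * z := by
              rw [show d * (z * d * z) * z = d * z * d * (z * z) by group, hzz, mul_one]
          _ = z := by rw [hzd]; group
      have h3 : (d * z)⁻¹ = z * d⁻¹ := by rw [mul_inv_rev, hzi]
      rw [hw, hc, h3, hzi]
      calc v * d * v⁻¹ * (z * (v * d * v⁻¹) * z)
          = v * d * v⁻¹ * z * v * d * v⁻¹ * z := by group
        _ = v * d * v⁻¹ * d⁻¹ * (d * z) * v * d * v⁻¹ * z := by group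
        _ = v * d * v⁻¹ * d⁻¹ * (d * z) * v * d * v⁻¹ * (d⁻¹ * (d * z * d) * d⁻¹) := by
            rw [show d⁻¹ * (d * z * d) * d⁻¹ = z by group]
        _ = v * d * v⁻¹ * d⁻¹ * (d * z) * v * d * v⁻¹ * (d⁻¹ * z * d⁻¹) := by rw [h2]
        _ = _ := by group
    rw [h1]
    have h4 : v * (d * v⁻¹ * d⁻¹) ∈ W := W.mul_mem hv (hWn.conj_mem _ (W.inv_mem hv) d)
    exact W.mul_mem h4 (hWn.conj_mem _ h4 _)
  have hwK : w ∈ K := by
    rw [hw]
    exact K.mul_mem hcK (K.mul_mem (K.mul_mem (K.inv_mem hzK) hcK) hzK)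
  have hwop : InOP m (2 ^ a) K w := by
    refine ⟨W ⊓ K, ⊥, bot_le, inf_le_right, ⟨hwW, hwK⟩, ?_, ?_, ?_, ?_⟩
    · rintro t ht x ⟨hx, hx'⟩
      exact ⟨hWn.conj_mem x hx t, K.mul_mem (K.mul_mem ht hx') (K.inv_mem ht)⟩
    · rintro t ht x hx
      rw [mem_bot] at hx ⊢
      rw [hx]
      group
    · intro x hx
      rw [mem_bot] at hx
      rw [hx, one_pow]
    · rintro x ⟨hx, _⟩
      rw [mem_bot]
      exact hW x hx
  -- `c ^ 2`, so `c`, is in `O_{2',2}(K)`
  have hg : InOP m (2 ^ a) K (c⁻¹ * (z⁻¹ * c * z)) := h.comm hcK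
  have hc2 : InOP m (2 ^ a) K (c ^ 2) := by
    have h1 := hwop.mul hcop hexp hg.inv
    have h2 : w * (c⁻¹ * (z⁻¹ * c * z))⁻¹ = c ^ 2 := by
      rw [hw, pow_two]
      group
    rwa [h2] at h1
  have hcop2 : InOP m (2 ^ a) K c := by
    have h1 := hc2.pow ((m + 1) / 2)
    have h2 : (c ^ 2) ^ ((m + 1) / 2) = c := by
      rw [← pow_mul, mul_comm, pow_mul]
      exact fr_sqrt hm hcm
    rwa [h2] at h1
  have hcO : InO m K c := hcop2.inO hcop hcm
  have hcO' : InO m K (z⁻¹ * c * z) := by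
    obtain ⟨N, h1, h2, h3, h4⟩ := hcO
    have h5 := h3 z⁻¹ (K.inv_mem hzK) c h2
    rw [inv_inv] at h5
    exact ⟨N, h1, h5, h3, h4⟩
  have hwO : InO m K w := by
    rw [hw]
    exact tw_InO_mul hcop hexp hcO hcO'
  have hw1 : w = 1 := tw_one hcop hwO.odd (hW w hwW)
  rw [hw] at hw1
  have h1 : z⁻¹ * c * z = c⁻¹ := (inv_eq_of_mul_eq_one_right hw1).symm
  rwa [hzi] at h1

/-- **the abstract step** -/
theorem ip_abs {m a : ℕ} (hm : Odd m) (hexp : ∀ x : X, x ^ (m * 2 ^ a) = 1) (W : Subgroup X)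
    (hWn : W.Normal) (hW : ∀ w ∈ W, w ^ (2 ^ a) = 1) {z d : X} (hz : z ^ 2 = 1)
    (hd : d ^ m = 1) (hzd : z * d * z = d⁻¹)
    (h : ∀ v ∈ W, InOP m (2 ^ a) (closure {z, v * d * v⁻¹}) z) :
    ∀ v ∈ W, d * v = v * d := by
  have hcop := zt_cop hm a
  have hzz : z * z = 1 := fr_mul_self hz
  have hzi : z⁻¹ = z := fr_inv_of_sq hz
  -- `v⁻¹ * (z * v * z)` commutes with `d`
  have key : ∀ v ∈ W, Commute (v⁻¹ * (z * v * z)) d := by
    intro v hv
    have h1 := ip_key hm hexp W hWn hW hz hd hzd hv (h v hv)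
    have h2 : (z * v * z) * d⁻¹ * (z * v * z)⁻¹ = v * d⁻¹ * v⁻¹ := by
      have h3 : (z * v * z)⁻¹ = z * v⁻¹ * z := by rw [mul_inv_rev, mul_inv_rev, hzi, mul_assoc]
      rw [h3, ← hzd]
      calc z * v * z * (z * d * z) * (z * v⁻¹ * z)
          = z * v * (z * z) * d * (z * z) * v⁻¹ * z := by group
        _ = z * (v * d * v⁻¹) * z := by rw [hzz]; group
        _ = v * d⁻¹ * v⁻¹ := by rw [h1]; group
        _ = v * (z * d * z) * v⁻¹ := by rw [hzd]
    have h4 : Commute (v⁻¹ * (z * v * z)) d⁻¹ := by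
      show v⁻¹ * (z * v * z) * d⁻¹ = d⁻¹ * (v⁻¹ * (z * v * z))
      calc v⁻¹ * (z * v * z) * d⁻¹
          = v⁻¹ * ((z * v * z) * d⁻¹ * (z * v * z)⁻¹) * (z * v * z) := by group
        _ = v⁻¹ * (v * d⁻¹ * v⁻¹) * (z * v * z) := by rw [h2]
        _ = _ := by group
    exact Commute.inv_right_iff.1 h4
  intro v hv
  have hn := key v hv
  have hn2 : Commute (d ^ 2) (v⁻¹ * (z * v * z)) := (hn.symm).pow_left 2
  -- the conjugate of `v`
  have h1 := key (d * v * d⁻¹) (hWn.conj_mem v hv d)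
  have h2 : z * (d * v * d⁻¹) * z = d⁻¹ * (z * v * z) * d := by
    have e1 : z * d = d⁻¹ * z := by
      calc z * d = (z * d * z) * z := by rw [mul_assoc (z * d), hzz, mul_one]
        _ = d⁻¹ * z := by rw [hzd]
    have e2 : d⁻¹ * z = z * d := e1.symm
    calc z * (d * v * d⁻¹) * z = (z * d) * v * (d⁻¹ * z) := by group
      _ = d⁻¹ * z * v * (z * d) := by rw [e1, e2]
      _ = _ := by group
  rw [h2] at h1
  -- `u = v⁻¹ * d⁻² * v * d²` commutes with `d`
  have h3 : Commute (v⁻¹ * (d ^ 2)⁻¹ * v * d ^ 2) d := by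
    have e1 : Commute (d⁻¹ * ((d * v * d⁻¹)⁻¹ * (d⁻¹ * (z * v * z) * d)) * d) d := by
      have e2 : Commute d d := Commute.refl d
      exact (((Commute.refl d).inv_left).mul_left h1).mul_left e2
    have e3 : d⁻¹ * ((d * v * d⁻¹)⁻¹ * (d⁻¹ * (z * v * z) * d)) * d =
        (v⁻¹ * (d ^ 2)⁻¹ * v * d ^ 2) * (v⁻¹ * (z * v * z)) := by
      calc d⁻¹ * ((d * v * d⁻¹)⁻¹ * (d⁻¹ * (z * v * z) * d)) * d
          = v⁻¹ * (d ^ 2)⁻¹ * v * ((v⁻¹ * (z * v * z)) * d ^ 2) := by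
            rw [pow_two]
            group
        _ = v⁻¹ * (d ^ 2)⁻¹ * v * (d ^ 2 * (v⁻¹ * (z * v * z))) := by rw [hn2.eq]
        _ = _ := by group
    rw [e3] at e1
    have e4 := e1.mul_left hn.inv_left
    rwa [mul_inv_cancel_right] at e4
  obtain ⟨u, hu⟩ : ∃ u, u = v⁻¹ * (d ^ 2)⁻¹ * v * d ^ 2 := ⟨_, rfl⟩
  rw [← hu] at h3
  have huW : u ∈ W := by
    rw [hu]
    have e1 : v⁻¹ * (d ^ 2)⁻¹ * v * d ^ 2 = v⁻¹ * ((d ^ 2)⁻¹ * v * (d ^ 2)⁻¹⁻¹) := by group
    rw [e1]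
    exact W.mul_mem (W.inv_mem hv) (hWn.conj_mem v hv _)
  have hum : u ^ m = 1 := by
    have e1 : v⁻¹ * (d ^ 2)⁻¹ * v = u * (d ^ 2)⁻¹ := by rw [hu]; group
    have e2 : Commute u (d ^ 2)⁻¹ := ((h3.pow_right 2)).inv_right
    have e3 : (v⁻¹ * (d ^ 2)⁻¹ * v) ^ m = 1 := by
      have e4 := conj_pow (a := v⁻¹) (b := (d ^ 2)⁻¹) (i := m)
      rw [inv_inv] at e4
      rw [e4, inv_pow, ← pow_mul, mul_comm, pow_mul, hd, one_pow, inv_one, mul_one,
        inv_mul_cancel]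
    rw [e1, e2.mul_pow, inv_pow, ← pow_mul, mul_comm 2 m, pow_mul d, hd, one_pow, inv_one,
      mul_one] at e3
    exact e3
  have hu1 : u = 1 := tw_one hcop hum (hW u huW)
  rw [hu1] at hu
  have h4 : Commute (d ^ 2) v := by
    show d ^ 2 * v = v * d ^ 2
    have e1 : v⁻¹ * (d ^ 2)⁻¹ * v = (d ^ 2)⁻¹ := (mul_eq_one_iff_eq_inv.1 hu.symm)
    have e2 : (d ^ 2)⁻¹ * v = v * (d ^ 2)⁻¹ := by
      calc (d ^ 2)⁻¹ * v = v * (v⁻¹ * (d ^ 2)⁻¹ * v) := by group
        _ = _ := by rw [e1]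
    calc d ^ 2 * v = d ^ 2 * (v * (d ^ 2)⁻¹) * d ^ 2 := by group
      _ = d ^ 2 * ((d ^ 2)⁻¹ * v) * d ^ 2 := by rw [e2]
      _ = v * d ^ 2 := by group
  have h5 := h4.pow_left ((m + 1) / 2)
  have h6 : (d ^ 2) ^ ((m + 1) / 2) = d := by
    rw [← pow_mul, mul_comm, pow_mul]
    exact fr_sqrt hm hd
  rw [h6] at h5
  exact h5.eq

end

/-- **Lemma A.** An involution outside `O_{2',2}(F)` is outside `O_{2',2}(⟨z, h⟩)` for some element `h`
of odd order inverted by a conjugate of `z`. -/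
theorem ip_A {m a : ℕ} {F : Type} [Group F] [Finite F] (hm : Odd m) (hsol : Group.IsSolvable F)
    (hexp : ∀ x : F, x ^ (m * 2 ^ a) = 1) {z : F} (hz : z ^ 2 = 1)
    (hbad : ¬ InOP m (2 ^ a) (⊤ : Subgroup F) z) :
    ∃ h t : F, h ^ m = 1 ∧ t ^ 2 = 1 ∧ t * h * t = h⁻¹ ∧
      ¬ InOP m (2 ^ a) (closure {z, h}) z := by
  have hcop := zt_cop hm a
  have hzi : z⁻¹ = z := fr_inv_of_sq hz
  have h1 : zp m a F z ≠ 1 := fun h => hbad ((zt_op_iff hm hexp).2 h)
  have hZ2 : (zp m a F z) ^ 2 = 1 := by rw [← map_pow, hz, map_one]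
  obtain ⟨y, hy, hyne⟩ := zt_krad_ne (a := a) hm (zt_sol (m := m) (a := a) hsol) (zt_exp hexp)
    (zt_bot hm hexp) hZ2 h1
  obtain ⟨g, rfl⟩ := zp_surj y
  let h : F := g⁻¹ * (z * g * z⁻¹)
  have hzh : z * h * z⁻¹ = h⁻¹ := by
    have e0 : z * z = 1 := fr_mul_self hz
    have e1 : h⁻¹ = z * g⁻¹ * z⁻¹ * g := by simp only [h]; group
    rw [e1]
    simp only [h, hzi]
    calc z * (g⁻¹ * (z * g * z)) * z = z * g⁻¹ * z * g * (z * z) := by group
      _ = z * g⁻¹ * z * g := by rw [e0, mul_one]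
  have he : zp m a F h ∈ krad m (ZH m a F) := by
    simp only [h, map_mul, map_inv]
    exact mul_mem (inv_mem hy) ((krad_normal m _).conj_mem _ hy _)
  have hem : (zp m a F h) ^ m = 1 := tw_krad_pow hcop (zt_exp hexp) _ he
  have hene : zp m a F h ≠ 1 := by
    intro e1
    apply hyne
    simp only [h, map_mul, map_inv] at e1
    have e2 := inv_mul_eq_one.1 e1
    calc zp m a F z * zp m a F g = (zp m a F z * zp m a F g * (zp m a F z)⁻¹) * zp m a F z := by
          group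
      _ = zp m a F g * zp m a F z := by rw [← e2]
  obtain ⟨l, hl1, hl2⟩ := Nat.chineseRemainder hcop 1 0
  obtain ⟨d, hdd⟩ : ∃ d, d = h ^ l := ⟨_, rfl⟩
  have hdz : z * d * z = d⁻¹ := by
    have e1 : z * h ^ l * z⁻¹ = (h ^ l)⁻¹ := by rw [← conj_pow, hzh, inv_pow]
    rw [hzi] at e1
    rw [hdd]
    exact e1
  have hdm : d ^ m = 1 := by
    obtain ⟨q, hq⟩ := (Nat.modEq_zero_iff_dvd).1 hl2
    rw [hdd, ← pow_mul, hq, show 2 ^ a * q * m = m * 2 ^ a * q by ring, pow_mul, hexp, one_pow]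
  have hd1 : zp m a F d ≠ 1 := by
    intro e2
    apply hene
    have e1 : (zp m a F h) ^ l = zp m a F h := by
      conv_rhs => rw [← pow_one (zp m a F h)]
      rw [pow_eq_pow_iff_modEq]
      exact hl1.of_dvd (orderOf_dvd_of_pow_eq_one hem)
    rw [← e1, ← map_pow, ← hdd, e2]
  -- the quotient by `O_{2'}(F)`
  obtain ⟨f, hf⟩ : ∃ f : F →* F ⧸ krad m F, f = QuotientGroup.mk' (krad m F) := ⟨_, rfl⟩
  have hexpX : ∀ x : F ⧸ krad m F, x ^ (m * 2 ^ a) = 1 := tw_exp_quot hexp _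
  have hsolX : Group.IsSolvable (F ⧸ krad m F) :=
    Group.isSolvable_of_surjective (QuotientGroup.mk'_surjective (krad m F))
  have hW := tw_krad_pow hcop.symm (tw_exp_comm hexpX)
  have hfz : (f z) ^ 2 = 1 := by rw [← map_pow, hz, map_one]
  have hfd : (f d) ^ m = 1 := by rw [← map_pow, hdm, map_one]
  have hfzd : f z * f d * f z = (f d)⁻¹ := by rw [← map_mul, ← map_mul, hdz, map_inv]
  obtain ⟨v, hv, hvbad⟩ : ∃ v ∈ krad (2 ^ a) (F ⧸ krad m F),
      ¬ InOP m (2 ^ a) (closure {f z, v * f d * v⁻¹}) (f z) := by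
    by_contra hcon
    push Not at hcon
    have h2 := ip_abs hm hexpX (krad (2 ^ a) (F ⧸ krad m F)) (krad_normal _ _) hW hfz hfd hfzd hcon
    have h3 := fr_fitting hcop.symm (by positivity) hm.pos hsolX (tw_exp_comm hexpX)
      (tw_krad_quot hcop hexp) h2
    apply hd1
    show QuotientGroup.mk' (krad (2 ^ a) (F ⧸ krad m F)) (QuotientGroup.mk' (krad m F) d) = 1
    rw [← hf, QuotientGroup.mk'_apply, QuotientGroup.eq_one_iff]
    exact h3
  obtain ⟨v₀, hv₀⟩ := QuotientGroup.mk'_surjective (krad m F) v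
  rw [← hf] at hv₀
  have hzz : z * z = 1 := fr_mul_self hz
  refine ⟨v₀ * d * v₀⁻¹, v₀ * z * v₀⁻¹, ?_, ?_, ?_, ?_⟩
  · rw [conj_pow, hdm, mul_one, mul_inv_cancel]
  · rw [conj_pow, hz, mul_one, mul_inv_cancel]
  · calc v₀ * z * v₀⁻¹ * (v₀ * d * v₀⁻¹) * (v₀ * z * v₀⁻¹) = v₀ * (z * d * z) * v₀⁻¹ := by group
      _ = (v₀ * d * v₀⁻¹)⁻¹ := by rw [hdz]; group
  · intro hcon
    apply hvbad
    have h2 := hcon.map_closure f
    rwa [map_mul, map_mul, map_inv, hv₀] at h2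

end Pool.Agent.Lib.MP_544bd1_al
end

section

/-!
# Inverted pairs, general even exponents: adjoining elements, Theorem X
-/

namespace Pool.Agent.Lib.MP_544bd1_al

open Subgroup

/-- exponent `n`; two elements, the first of which is inverted by some `t` with `t ^ 2 = 1`, generate a
finite and solvable subgroup -/
structure IpG (n : ℕ) (G : Type) [Group G] : Prop where
  pos : 0 < n
  hexp : ∀ x : G, x ^ n = 1
  h2 : ∀ t a b : G, t ^ 2 = 1 → t * a * t = a⁻¹ →
    Finite (closure {a, b}) ∧ Group.IsSolvable (closure {a, b})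

variable {G : Type} [Group G] {M P : ℕ}

/-- (R1) for inverted pairs -/
theorem ip_R1 {n : ℕ} (H : IpG n G) (hn : n = M * P) (hcop : Nat.Coprime M P) (hno : NoN M G)
    {c : G} (hc : c ^ M = 1) (hc1 : c ≠ 1) : ∃ g : G, ¬ InO M (closure {c, g}) c := by
  by_contra hcon
  push Not at hcon
  have hexp : ∀ x : G, x ^ (M * P) = 1 := by
    intro x; rw [← hn]; exact H.hexp x
  obtain ⟨K, hK1, hK2, hK3⟩ := normal_of_absorbing (P := M) H.pos H.hexp hc1 (by
    intro h hh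
    exact tw_R1_mul hcop hexp (hcon h) (subset_closure (by simp)) hh)
  exact hK2 (hno K hK1 hK3)

/-- adjoining an element `w` normalizing `⟨c⟩`, `c` an inverted element -/
theorem ip_adjoin {n : ℕ} (H : IpG n G) (hn : n = M * P) (hcop : Nat.Coprime M P) (hno : NoN M G)
    {c w : G} (hc : c ^ M = 1) (hc1 : c ≠ 1) (hw : w⁻¹ * c * w ∈ zpowers c)
    {t : G} (ht : t ^ 2 = 1) (htc : t * c * t = c⁻¹) :
    ∃ T : Subgroup G, Finite T ∧ Group.IsSolvable T ∧ c ∈ T ∧ w ∈ T ∧ ¬ InO M T c := by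
  have hexp : ∀ x : G, x ^ (M * P) = 1 := by
    intro x; rw [← hn]; exact H.hexp x
  have hMP : 0 < M * P := by rw [← hn]; exact H.pos
  have hM : 0 < M := Nat.pos_of_mul_pos_right hMP
  have hP : 0 < P := Nat.pos_of_mul_pos_left hMP
  obtain ⟨g, hg⟩ := ip_R1 H hn hcop hno hc hc1
  have hfin := (H.h2 t c g ht htc).1
  obtain ⟨k, _, hk, hk2⟩ := tw_J hcop hM hP hexp (closure {c, g}) (H.h2 t c g ht htc).2
    (subset_closure (by simp)) hc hg
  set T := closure {c, w * k} with hT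
  have hcT : c ∈ T := subset_closure (by simp)
  have hwkT : w * k ∈ T := subset_closure (by simp)
  -- `c` is a power of its conjugate
  have hcw : c ∈ zpowers (w⁻¹ * c * w) := by
    have hfo : IsOfFinOrder c := isOfFinOrder_iff_pow_eq_one.2 ⟨M, hM, hc⟩
    have hfz : Finite (zpowers c) := hfo.finite_zpowers
    have hle : zpowers (w⁻¹ * c * w) ≤ zpowers c := zpowers_le.2 hw
    have hcard : Nat.card (zpowers c) ≤ Nat.card (zpowers (w⁻¹ * c * w)) := by
      rw [Nat.card_zpowers, Nat.card_zpowers]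
      have h1 : orderOf (w⁻¹ * c * w) = orderOf c := by
        have h2 : w⁻¹ * c * w = MulAut.conj w⁻¹ c := by simp
        rw [h2]
        exact orderOf_injective (MulAut.conj w⁻¹).toMonoidHom (MulAut.conj w⁻¹).injective c
      rw [h1]
    have := Subgroup.eq_of_le_of_card_ge hle hcard
    rw [this]
    exact mem_zpowers c
  obtain ⟨j, hj⟩ := mem_zpowers_iff.1 hcw
  have h1 : k⁻¹ * c * k ∈ T := by
    have h2 : ((w * k)⁻¹ * c * (w * k)) ^ j = k⁻¹ * c * k := by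
      have h3 : (w * k)⁻¹ * c * (w * k) = k⁻¹ * (w⁻¹ * c * w) * k⁻¹⁻¹ := by group
      rw [h3, conj_zpow, hj, inv_inv]
    rw [← h2]
    exact T.zpow_mem (T.mul_mem (T.mul_mem (T.inv_mem hwkT) hcT) hwkT) j
  have hle : closure {c, k⁻¹ * c * k} ≤ T := by
    rw [Subgroup.closure_le]
    rintro w (rfl | rfl)
    · exact hcT
    · exact h1
  have hkT : k ∈ T := hle hk
  have hwT : w ∈ T := by
    have := T.mul_mem hwkT (T.inv_mem hkT)
    rwa [mul_inv_cancel_right] at this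
  refine ⟨T, (H.h2 t c _ ht htc).1, (H.h2 t c _ ht htc).2, hcT, hwT, ?_⟩
  intro h3
  exact hk2 (h3.mono hle (subset_closure (by simp)))

/-- **Theorem X** for inverted pairs -/
theorem ip_X {n m a : ℕ} (H : IpG n G) (hn : n = m * 2 ^ a) (hm : Odd m)
    (hno2 : NoN (2 ^ a) G) (hno : NoN m G) {z : G} (hz : GoodS m (2 ^ a) z) (hz2 : z ^ 2 = 1) :
    z = 1 := by
  by_contra hz1
  have hcop : Nat.Coprime m (2 ^ a) := Nat.Coprime.pow_right a (Nat.coprime_two_right.2 hm)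
  have hmpos : 0 < m := hm.pos
  have hPpos : 0 < 2 ^ a := by positivity
  have hexp : ∀ x : G, x ^ (m * 2 ^ a) = 1 := by
    intro x
    rw [← hn]
    exact H.hexp x
  -- the element `w`
  obtain ⟨w, hw, hzw⟩ : ∃ w : G, w ^ (2 ^ a) = 1 ∧ (z * w) ^ (2 ^ a) ≠ 1 := by
    by_contra hcon
    push Not at hcon
    obtain ⟨K, hK1, hK2, hK3⟩ := normal_of_absorbing (P := 2 ^ a) H.pos H.hexp hz1 hcon
    exact hK2 (hno2 K hK1 hK3)
  obtain ⟨hfinT, hsolT⟩ := H.h2 1 z w (one_pow 2) (by rw [one_mul, mul_one]; exact (fr_inv_of_sq hz2).symm)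
  have hzT : z ∈ closure {z, w} := subset_closure (by simp)
  have hwT : w ∈ closure {z, w} := subset_closure (by simp)
  have hexpT : ∀ x : closure {z, w}, x ^ (m * 2 ^ a) = 1 := tw_exp_sub hexp _
  have hexpT' : ∀ x : closure {z, w}, x ^ (2 ^ a * m) = 1 := tw_exp_comm hexpT
  have hPk := krad_pow (F := closure {z, w}) (k := 2 ^ a) (fun _ h => tw_PP hcop hexpT h)
  have hexpQ := tw_exp_quot hexpT (krad (2 ^ a) (closure {z, w}))
  have hbot := tw_krad_quot hcop.symm hexpT'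
  have hsolQ : Group.IsSolvable (closure {z, w} ⧸ krad (2 ^ a) (closure {z, w})) :=
    Group.isSolvable_of_surjective (QuotientGroup.mk'_surjective _)
  have hmk := krad_pow (F := closure {z, w} ⧸ krad (2 ^ a) (closure {z, w})) (k := m)
    (fun _ h => tw_MM hcop hexpQ h)
  -- the image of `z`
  have hz' : QuotientGroup.mk' (krad (2 ^ a) (closure {z, w})) ⟨z, hzT⟩ ≠ 1 := by
    intro h1
    apply hzw
    have h2 : (QuotientGroup.mk' (krad (2 ^ a) (closure {z, w}))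
        ((⟨z, hzT⟩ * ⟨w, hwT⟩ : closure {z, w}) ^ (2 ^ a))) = 1 := by
      rw [map_pow, map_mul, h1, one_mul, ← map_pow]
      have h3 : (⟨w, hwT⟩ : closure {z, w}) ^ (2 ^ a) = 1 := Subtype.ext (by simpa using hw)
      rw [h3, map_one]
    rw [QuotientGroup.mk'_apply, QuotientGroup.eq_one_iff] at h2
    have h4 := tw_PP hcop hexpT (hPk _ h2)
    have h5 := congrArg Subtype.val h4
    simpa using h5
  have hz'2 : (QuotientGroup.mk' (krad (2 ^ a) (closure {z, w})) ⟨z, hzT⟩) ^ 2 = 1 := by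
    rw [← map_pow]
    have h3 : (⟨z, hzT⟩ : closure {z, w}) ^ 2 = 1 := Subtype.ext (by simpa using hz2)
    rw [h3, map_one]
  obtain ⟨e', he', hne⟩ : ∃ e' ∈ krad m (closure {z, w} ⧸ krad (2 ^ a) (closure {z, w})),
      QuotientGroup.mk' (krad (2 ^ a) (closure {z, w})) ⟨z, hzT⟩ * e' ≠
        e' * QuotientGroup.mk' (krad (2 ^ a) (closure {z, w})) ⟨z, hzT⟩ := by
    by_contra hcon
    push Not at hcon
    have h1 := fr_fitting hcop hmpos hPpos hsolQ hexpQ hbot hcon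
    exact hz' (fr_one_two hm (hmk _ h1) hz'2)
  obtain ⟨e, rfl⟩ := QuotientGroup.mk'_surjective _ e'
  -- the element `c`
  obtain ⟨N, hN1, hN2⟩ := Nat.chineseRemainder hcop 1 0
  have hNP : 2 ^ a ∣ N := (Nat.modEq_zero_iff_dvd).1 hN2
  set zT : closure {z, w} := ⟨z, hzT⟩ with hzTdef
  have hzT2 : zT * zT = 1 := by
    rw [← pow_two]
    exact Subtype.ext (by simpa using hz2)
  have hzTi : zT⁻¹ = zT := by
    rw [inv_eq_iff_mul_eq_one, hzT2]
  set c₀ : closure {z, w} := e⁻¹ * (zT⁻¹ * e * zT) with hc₀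
  have hinv0 : zT⁻¹ * c₀ * zT = c₀⁻¹ := by
    have h1 : zT⁻¹ * c₀ * zT = zT⁻¹ * e⁻¹ * zT⁻¹ * e * (zT * zT) := by
      rw [hc₀]
      group
    have h2 : c₀⁻¹ = zT⁻¹ * e⁻¹ * zT * e := by
      rw [hc₀]
      group
    rw [h1, h2, hzT2, mul_one]
    nth_rewrite 2 [hzTi]
    rfl
  have hcm0 : (c₀ ^ N) ^ m = 1 := by
    obtain ⟨k, hk⟩ := hNP
    rw [← pow_mul, hk, show 2 ^ a * k * m = m * 2 ^ a * k by ring, pow_mul, hexpT, one_pow]
  have hcinv0 : zT⁻¹ * c₀ ^ N * zT = (c₀ ^ N)⁻¹ := by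
    have h1 : zT⁻¹ * c₀ ^ N * zT = (zT⁻¹ * c₀ * zT) ^ N := by
      have h2 := conj_pow (a := zT⁻¹) (b := c₀) (i := N)
      rw [inv_inv] at h2
      exact h2.symm
    rw [h1, hinv0, inv_pow]
  have hπc₀ : QuotientGroup.mk' (krad (2 ^ a) (closure {z, w})) c₀ ∈
      krad m (closure {z, w} ⧸ krad (2 ^ a) (closure {z, w})) := by
    rw [hc₀, map_mul, map_inv]
    refine mul_mem (inv_mem he') ?_
    have h1 := (krad_normal m _).conj_mem _ he'
      (QuotientGroup.mk' (krad (2 ^ a) (closure {z, w})) zT)⁻¹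
    rw [inv_inv] at h1
    rw [map_mul, map_mul, map_inv]
    exact h1
  have hπc : QuotientGroup.mk' (krad (2 ^ a) (closure {z, w})) (c₀ ^ N) =
      QuotientGroup.mk' (krad (2 ^ a) (closure {z, w})) c₀ := by
    rw [map_pow]
    conv_rhs => rw [← pow_one (QuotientGroup.mk' (krad (2 ^ a) (closure {z, w})) c₀)]
    rw [pow_eq_pow_iff_modEq]
    exact hN1.of_dvd (orderOf_dvd_of_pow_eq_one (hmk _ hπc₀))
  have hc1T : c₀ ^ N ≠ 1 := by
    intro h1
    rw [h1, map_one, hc₀, map_mul, map_mul, map_mul, map_inv, map_inv] at hπc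
    apply hne
    have h2 := hπc.symm
    rw [inv_mul_eq_one] at h2
    -- `e = z⁻¹ * e * z`
    have h3 : QuotientGroup.mk' (krad (2 ^ a) (closure {z, w})) zT *
        QuotientGroup.mk' (krad (2 ^ a) (closure {z, w})) e =
        QuotientGroup.mk' (krad (2 ^ a) (closure {z, w})) zT *
          ((QuotientGroup.mk' (krad (2 ^ a) (closure {z, w})) zT)⁻¹ *
            QuotientGroup.mk' (krad (2 ^ a) (closure {z, w})) e *
            QuotientGroup.mk' (krad (2 ^ a) (closure {z, w})) zT) := by rw [← h2]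
    rw [h3]
    group
  -- in the group `G`
  have hc1 : ((c₀ ^ N : closure {z, w}) : G) ≠ 1 := fun h => hc1T (Subtype.ext h)
  have hcm : ((c₀ ^ N : closure {z, w}) : G) ^ m = 1 := by
    have h1 := congrArg Subtype.val hcm0
    simpa using h1
  have hcinv : z⁻¹ * ((c₀ ^ N : closure {z, w}) : G) * z = ((c₀ ^ N : closure {z, w}) : G)⁻¹ :=
    congrArg Subtype.val hcinv0
  generalize ((c₀ ^ N : closure {z, w}) : G) = c at hc1 hcm hcinv
  obtain ⟨T₁, hf, hs, hcT, hzT₁, hnot⟩ := ip_adjoin H hn hcop hno (c := c) (w := z) hcm hc1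
    (by rw [hcinv]; exact inv_mem (mem_zpowers c)) (t := z) hz2 (by
      have h5 := hcinv
      rwa [fr_inv_of_sq hz2] at h5)
  apply hnot
  have h1 := (hz.inOP T₁ hf hs hzT₁).comm hcT
  rw [hcinv] at h1
  refine InOP.inO hcop ?_ hcm
  have h2 := h1.pow ((m - 1) / 2)
  have h3 : (c⁻¹ * c⁻¹) ^ ((m - 1) / 2) = c := by
    obtain ⟨k, hk⟩ := hm
    have h4 : (m - 1) / 2 = k := by omega
    rw [h4, ← pow_two, ← pow_mul, inv_pow, inv_eq_iff_mul_eq_one, ← pow_succ, ← hk, hcm]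
  rwa [h3] at h2

end Pool.Agent.Lib.MP_544bd1_al
end

section

/-!
# Inverted pairs, general even exponents: Lemma Q
-/

namespace Pool.Agent.Lib.MP_544bd1_al

open Subgroup

variable {G : Type} [Group G]

/-- Claim 1 of Lemma Q -/
theorem ip_Q1 {n N q : ℕ} (H : IpG n G) (hq : q.Prime) (hq2 : q ≠ 2) (hn : n = N * q)
    (hqN : ¬ q ∣ N) {x v z k : G} (hx : x ^ 2 = 1) (hv : v ^ 2 = 1) (hxv : x * v = v * x)
    (hz : z ^ q = 1) (hzx : z * x = x * z)
    (hc : ∀ i j : ℕ, (z ^ i * v * (z ^ i)⁻¹) * (z ^ j * v * (z ^ j)⁻¹) =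
      (z ^ j * v * (z ^ j)⁻¹) * (z ^ i * v * (z ^ i)⁻¹))
    (hP : (v * z) ^ q = 1) (hk : k ^ q = 1) (hkx : x * k * x = k⁻¹) :
    InO N (closure {v, k}) v := by
  have hqo : Odd q := hq.odd_of_ne_two hq2
  have hcop2 : Nat.Coprime 2 q := (Nat.coprime_primes Nat.prime_two hq).2 (Ne.symm hq2)
  have hN : 0 < N := by
    rcases Nat.eq_zero_or_pos N with h | h
    · exact absurd (dvd_zero q) (h ▸ hqN)
    · exact h
  have hexp : ∀ y : G, y ^ (N * q) = 1 := by
    intro y; rw [← hn]; exact H.hexp y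
  set T := closure {x * z, v * k} with hT
  have hT2 : Finite (closure {v * k, x * z}) ∧ Group.IsSolvable (closure {v * k, x * z}) := by
    refine H.h2 (x * v) (v * k) (x * z) ?_ ?_
    · have h1 : Commute x v := hxv
      rw [h1.mul_pow, hx, hv, one_mul]
    · have hvv : v * v = 1 := fr_mul_self hv
      calc x * v * (v * k) * (x * v) = x * (v * v) * k * x * v := by group
        _ = (x * k * x) * v := by rw [hvv]; group
        _ = (v * k)⁻¹ := by rw [hkx, mul_inv_rev, fr_inv_of_sq hv]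
  rw [Set.pair_comm] at hT2
  have hfin : Finite T := hT2.1
  have hsol : Group.IsSolvable T := hT2.2
  have hxzT : x * z ∈ T := subset_closure (by simp)
  have hvkT : v * k ∈ T := subset_closure (by simp)
  obtain ⟨h1, h2⟩ := tw_coprime_comm hcop2 hx hz hzx.symm
  have hxT : x ∈ T := (zpowers_le.2 hxzT) h1
  have hzT : z ∈ T := (zpowers_le.2 hxzT) h2
  have hx' := fr_inv_of_sq hx
  have hx1 := fr_mul_self hx
  have hkx' : x * k⁻¹ * x = k := by
    have h3 : (x * k * x)⁻¹ = x⁻¹ * k⁻¹ * x⁻¹ := by group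
    rw [hkx, inv_inv, hx'] at h3
    exact h3.symm
  have h3 : (v * k)⁻¹ * x * (v * k) = x * (k * k) := by
    calc (v * k)⁻¹ * x * (v * k) = k⁻¹ * v⁻¹ * (x * v) * k := by group
      _ = k⁻¹ * v⁻¹ * (v * x) * k := by rw [hxv]
      _ = k⁻¹ * x * k := by group
      _ = (x * x) * k⁻¹ * x * k := by rw [hx1, one_mul]
      _ = x * (x * k⁻¹ * x) * k := by group
      _ = x * (k * k) := by rw [hkx', mul_assoc]
  have hkk : k * k ∈ T := by
    have h4 : x * (k * k) ∈ T := by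
      rw [← h3]
      exact T.mul_mem (T.mul_mem (T.inv_mem hvkT) hxT) hvkT
    have h5 := T.mul_mem (T.inv_mem hxT) h4
    rwa [inv_mul_cancel_left] at h5
  have hkT : k ∈ T := by
    have h4 := fr_sqrt hqo hk
    rw [← pow_mul, mul_comm, pow_mul, pow_two] at h4
    rw [← h4]
    exact T.pow_mem hkk _
  have hvT : v ∈ T := by
    have h4 := T.mul_mem hvkT (T.inv_mem hkT)
    rwa [mul_inv_cancel_right] at h4
  have hB := ev_B (F := T) hq hq2 hqN hN hsol (tw_exp_sub hexp T) (v := ⟨v, hvT⟩) (z := ⟨z, hzT⟩)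
    (Subtype.ext (by simpa using hv)) (Subtype.ext (by simpa using hz))
    (by
      intro i j
      apply Subtype.ext
      simpa using hc i j)
    (Subtype.ext (by simpa using hP))
  rw [InO.top_iff] at hB
  refine hB.mono ?_ (subset_closure (by simp))
  rw [Subgroup.closure_le]
  rintro w (rfl | rfl)
  · exact hvT
  · exact hkT

/-- an inverted element of odd order lifts to an inverted element -/
private theorem ev_lift {F Y : Type} [Group F] [Group Y] {N q : ℕ} (hq : q.Prime) (hq2 : q ≠ 2)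
    (hcop : Nat.Coprime N q) (hexp : ∀ x : F, x ^ (N * q) = 1) (f : F →* Y)
    (hf : Function.Surjective f) {x : F} (hx : x ^ 2 = 1) {y : Y} (hy : y ^ q = 1)
    (hxy : f x * y * f x = y⁻¹) : ∃ b : F, b ^ q = 1 ∧ x * b * x = b⁻¹ ∧ f b = y := by
  have hm : Odd q := hq.odd_of_ne_two hq2
  have hx1 := fr_mul_self hx
  have hx' := fr_inv_of_sq hx
  have hfx : f x * f x = 1 := by rw [← map_mul, hx1, map_one]
  have hfx' : (f x)⁻¹ = f x := by rw [inv_eq_iff_mul_eq_one, hfx]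
  obtain ⟨g, hg⟩ := hf (y ^ ((q + 1) / 2))
  obtain ⟨h, hh⟩ : ∃ h, h = x * (g⁻¹ * x * g) := ⟨_, rfl⟩
  have hinv : x * h * x = h⁻¹ := by
    rw [hh]
    calc x * (x * (g⁻¹ * x * g)) * x = (x * x) * (g⁻¹ * x * g) * x := by group
      _ = (g⁻¹ * x * g) * x := by rw [hx1, one_mul]
      _ = (g⁻¹ * x⁻¹ * g) * x⁻¹ := by rw [hx']
      _ = (x * (g⁻¹ * x * g))⁻¹ := by group
  have hconj : f x * y ^ ((q + 1) / 2) * f x = (y ^ ((q + 1) / 2))⁻¹ := by
    have h1 : f x * y * (f x)⁻¹ = y⁻¹ := by rw [hfx']; exact hxy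
    have h2 := conj_pow (i := (q + 1) / 2) (a := f x) (b := y)
    rw [h1, hfx', inv_pow] at h2
    exact h2.symm
  have hfh : f h = y := by
    rw [hh, map_mul, map_mul, map_mul, map_inv, hg]
    have h3 : f x * (y ^ ((q + 1) / 2))⁻¹ * f x = y ^ ((q + 1) / 2) := by
      rw [← hconj]
      calc f x * (f x * y ^ ((q + 1) / 2) * f x) * f x
          = (f x * f x) * y ^ ((q + 1) / 2) * (f x * f x) := by group
        _ = y ^ ((q + 1) / 2) := by rw [hfx, one_mul, mul_one]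
    calc f x * ((y ^ ((q + 1) / 2))⁻¹ * f x * y ^ ((q + 1) / 2))
        = (f x * (y ^ ((q + 1) / 2))⁻¹ * f x) * y ^ ((q + 1) / 2) := by group
      _ = y := by rw [h3, ← pow_two, fr_sqrt hm hy]
  obtain ⟨l, hl1, hl2⟩ := Nat.chineseRemainder hcop.symm 1 0
  have hl3 : N ∣ l := (Nat.modEq_zero_iff_dvd).1 hl2
  refine ⟨h ^ l, ?_, ?_, ?_⟩
  · obtain ⟨c, hc⟩ := hl3
    rw [← pow_mul, hc, show N * c * q = N * q * c by ring, pow_mul, hexp, one_pow]
  · have h2 := conj_pow (i := l) (a := x) (b := h)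
    rw [hx', hinv, inv_pow] at h2
    exact h2.symm
  · rw [map_pow, hfh]
    have h1 : y ^ l = y ^ 1 := by
      rw [pow_eq_pow_iff_modEq]
      exact hl1.of_dvd (orderOf_dvd_of_pow_eq_one hy)
    rw [h1, pow_one]

/-- **Lemma Q** for inverted pairs -/
theorem ip_Q {n N q : ℕ} (H : IpG n G) (hq : q.Prime) (hq2 : q ≠ 2) (hn : n = N * q)
    (hqN : ¬ q ∣ N) (hno : NoN N G) {x v z1 z2 : G} (hx : x ^ 2 = 1) (hv : v ^ 2 = 1)
    (hv1 : v ≠ 1) (hxv : x * v = v * x) (hz1 : z1 ^ q = 1) (hz2 : z2 ^ q = 1)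
    (hzx1 : z1 * x = x * z1) (hzx2 : z2 * (x * v) = (x * v) * z2)
    (hc1 : ∀ i j : ℕ, (z1 ^ i * v * (z1 ^ i)⁻¹) * (z1 ^ j * v * (z1 ^ j)⁻¹) =
      (z1 ^ j * v * (z1 ^ j)⁻¹) * (z1 ^ i * v * (z1 ^ i)⁻¹))
    (hP1 : (v * z1) ^ q = 1)
    (hc2 : ∀ i j : ℕ, (z2 ^ i * v * (z2 ^ i)⁻¹) * (z2 ^ j * v * (z2 ^ j)⁻¹) =
      (z2 ^ j * v * (z2 ^ j)⁻¹) * (z2 ^ i * v * (z2 ^ i)⁻¹))
    (hP2 : (v * z2) ^ q = 1) : False := by
  have hqo : Odd q := hq.odd_of_ne_two hq2
  have hcop2 : Nat.Coprime 2 q := (Nat.coprime_primes Nat.prime_two hq).2 (Ne.symm hq2)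
  have hcop : Nat.Coprime N q := ((Nat.Prime.coprime_iff_not_dvd hq).2 hqN).symm
  have hN : 0 < N := by
    rcases Nat.eq_zero_or_pos N with h | h
    · exact absurd (dvd_zero q) (h ▸ hqN)
    · exact h
  have hexp : ∀ y : G, y ^ (N * q) = 1 := by
    intro y; rw [← hn]; exact H.hexp y
  have hvo : orderOf v = 2 := orderOf_eq_prime hv hv1
  have h2N : 2 ∣ N := by
    have h1 : 2 ∣ N * q := by
      rw [← hvo]
      exact orderOf_dvd_of_pow_eq_one (hexp v)
    exact hcop2.dvd_of_dvd_mul_right h1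
  have hvN : v ^ N = 1 := by
    obtain ⟨c, hc⟩ := h2N
    rw [hc, pow_mul, hv, one_pow]
  obtain ⟨T, hfin, hsol, hvT, hxT, hnot⟩ := ip_adjoin H hn hcop hno hvN hv1 (w := x) (by
    have h1 : x⁻¹ * v * x = v := by
      rw [mul_assoc, ← hxv, inv_mul_cancel_left]
    rw [h1]
    exact mem_zpowers v) (t := 1) (one_pow 2) (by
      rw [one_mul, mul_one]
      exact (fr_inv_of_sq hv).symm)
  have hexpT := tw_exp_sub hexp T
  have hexpY : ∀ y : T ⧸ krad N T, y ^ (N * q) = 1 := tw_exp_quot hexpT _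
  have hsolY : Group.IsSolvable (T ⧸ krad N T) :=
    Group.isSolvable_of_surjective (QuotientGroup.mk'_surjective (krad N T))
  have hbotY : krad N (T ⧸ krad N T) = ⊥ := tw_krad_quot hcop hexpT
  have hBpow := tw_krad_pow hcop.symm (tw_exp_comm hexpY)
  set f : T →* T ⧸ krad N T := QuotientGroup.mk' (krad N T) with hf
  have hfs : Function.Surjective f := QuotientGroup.mk'_surjective (krad N T)
  have hf1 : ∀ g : T, f g = 1 ↔ g ∈ krad N T := by
    intro g
    rw [hf, QuotientGroup.mk'_apply, QuotientGroup.eq_one_iff]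
  have hfv2 : (f ⟨v, hvT⟩) ^ 2 = 1 := by
    rw [← map_pow, show (⟨v, hvT⟩ : T) ^ 2 = 1 from Subtype.ext (by simpa using hv), map_one]
  have hfx2 : (f ⟨x, hxT⟩) ^ 2 = 1 := by
    rw [← map_pow, show (⟨x, hxT⟩ : T) ^ 2 = 1 from Subtype.ext (by simpa using hx), map_one]
  have hfxv : f ⟨x, hxT⟩ * f ⟨v, hvT⟩ = f ⟨v, hvT⟩ * f ⟨x, hxT⟩ := by
    rw [← map_mul, ← map_mul]
    congr 1
    exact Subtype.ext hxv
  have hne : ∃ y ∈ krad q (T ⧸ krad N T), f ⟨v, hvT⟩ * y ≠ y * f ⟨v, hvT⟩ := by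
    by_contra hcon
    push Not at hcon
    have h1 := fr_fitting hcop.symm hq.pos hN hsolY (tw_exp_comm hexpY) hbotY hcon
    have h2 : f ⟨v, hvT⟩ = 1 := tw_one hcop2 hfv2 (hBpow _ h1)
    have h3 := (hf1 _).1 h2
    rw [tw_mem_krad_iff hcop hexpT, InO.top_iff] at h3
    exact hnot h3
  have hBn := krad_normal q (T ⧸ krad N T)
  obtain ⟨e, heB, he1, hev, hex⟩ := fr_F3 hqo (krad q (T ⧸ krad N T)) hBpow hfx2 hfv2 hfxv
    (by
      intro a ha
      have h1 := hBn.conj_mem a ha (f ⟨x, hxT⟩)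
      rwa [fr_inv_of_sq hfx2] at h1)
    (by
      intro a ha
      have h1 := hBn.conj_mem a ha (f ⟨v, hvT⟩)
      rwa [fr_inv_of_sq hfv2] at h1) hne
  have heq : e ^ q = 1 := hBpow e heB
  have fin : ∀ (x' z' : G) (hx'T : x' ∈ T), x' ^ 2 = 1 → x' * v = v * x' → z' ^ q = 1 →
      z' * x' = x' * z' →
      (∀ i j : ℕ, (z' ^ i * v * (z' ^ i)⁻¹) * (z' ^ j * v * (z' ^ j)⁻¹) =
        (z' ^ j * v * (z' ^ j)⁻¹) * (z' ^ i * v * (z' ^ i)⁻¹)) →
      (v * z') ^ q = 1 → f ⟨x', hx'T⟩ * e * f ⟨x', hx'T⟩ = e⁻¹ → False := by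
    intro x' z' hx'T hx' hx'v hz' hz'x' hc' hP' he'
    have hx'2 : (⟨x', hx'T⟩ : T) ^ 2 = 1 := Subtype.ext (by simpa using hx')
    obtain ⟨k, hk, hkx, hfk⟩ := ev_lift hq hq2 hcop hexpT f hfs hx'2 heq he'
    have hkG : ((k : T) : G) ^ q = 1 := by
      have := congrArg Subtype.val hk
      simpa using this
    have hkxG : x' * (k : G) * x' = (k : G)⁻¹ := by
      have := congrArg Subtype.val hkx
      simpa using this
    have h1 := ip_Q1 H hq hq2 hn hqN hx' hv hx'v hz' hz'x' hc' hP' hkG hkxG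
    have h2 := h1.comm_odd (y := (k : G)) (subset_closure (by simp))
    have h3 : ((⟨v, hvT⟩ : T)⁻¹ * (k⁻¹ * ⟨v, hvT⟩ * k)) ^ N = 1 := Subtype.ext (by simpa using h2)
    have h4 : (f ⟨v, hvT⟩ * (e⁻¹ * f ⟨v, hvT⟩ * e)) ^ N = 1 := by
      have h5 := congrArg f h3
      rw [map_pow, map_mul, map_mul, map_mul, map_inv, map_inv, map_one, hfk,
        fr_inv_of_sq hfv2] at h5
      exact h5
    have hev' : f ⟨v, hvT⟩ * e⁻¹ * f ⟨v, hvT⟩ = e := by
      have h5 : (f ⟨v, hvT⟩ * e * f ⟨v, hvT⟩)⁻¹ = (f ⟨v, hvT⟩)⁻¹ * e⁻¹ * (f ⟨v, hvT⟩)⁻¹ := by group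
      rw [hev, inv_inv, fr_inv_of_sq hfv2] at h5
      exact h5.symm
    have h6 : f ⟨v, hvT⟩ * (e⁻¹ * f ⟨v, hvT⟩ * e) = e ^ 2 := by
      calc f ⟨v, hvT⟩ * (e⁻¹ * f ⟨v, hvT⟩ * e) = (f ⟨v, hvT⟩ * e⁻¹ * f ⟨v, hvT⟩) * e := by group
        _ = e ^ 2 := by rw [hev', pow_two]
    rw [h6] at h4
    have h7 : e ^ 2 = 1 := by
      apply tw_one hcop h4
      rw [← pow_mul, mul_comm, pow_mul, heq, one_pow]
    exact he1 (tw_one hcop2 h7 heq)
  rcases hex with hex | hex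
  · -- `x * v` inverts `e`
    have hxvT : x * v ∈ T := T.mul_mem hxT hvT
    have hxv2 : (x * v) ^ 2 = 1 := by
      have h1 : Commute x v := hxv
      rw [h1.mul_pow, hx, hv, one_mul]
    refine fin (x * v) z2 hxvT hxv2 ?_ hz2 hzx2 hc2 hP2 ?_
    · rw [hxv, mul_assoc, ← hxv, ← mul_assoc]
    · have h1 : f ⟨x * v, hxvT⟩ = f ⟨x, hxT⟩ * f ⟨v, hvT⟩ := by
        rw [← map_mul]
        rfl
      rw [h1]
      calc f ⟨x, hxT⟩ * f ⟨v, hvT⟩ * e * (f ⟨x, hxT⟩ * f ⟨v, hvT⟩)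
          = f ⟨x, hxT⟩ * f ⟨v, hvT⟩ * e * (f ⟨v, hvT⟩ * f ⟨x, hxT⟩) := by rw [hfxv]
        _ = f ⟨x, hxT⟩ * (f ⟨v, hvT⟩ * e * f ⟨v, hvT⟩) * f ⟨x, hxT⟩ := by group
        _ = f ⟨x, hxT⟩ * e⁻¹ * f ⟨x, hxT⟩ := by rw [hev]
        _ = (f ⟨x, hxT⟩ * e * f ⟨x, hxT⟩)⁻¹ := by
          have h5 : (f ⟨x, hxT⟩ * e * f ⟨x, hxT⟩)⁻¹ = (f ⟨x, hxT⟩)⁻¹ * e⁻¹ * (f ⟨x, hxT⟩)⁻¹ := by group
          rw [h5, fr_inv_of_sq hfx2]
        _ = e⁻¹ := by rw [hex]
  · exact fin x z1 hxT hx hxv hz1 hzx1 hc1 hP1 hex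

end Pool.Agent.Lib.MP_544bd1_al
end

section

/-!
Exponents `4 * m`: final forms.
-/

namespace Pool.Agent.Lib.MP_544bd1_al

open Subgroup

theorem fr_four (G : Type) [Group G] (hG : ∀ g : G, g ^ 4 = 1) (S : Finset G) :
    Finite (closure (S : Set G)) := finite_closure_of_mem four_mem G hG S

theorem fr_solvable {a m : ℕ} (h : (∃ q b : ℕ, q.Prime ∧ m = q ^ b) ∨
      ∀ (F : Type) [Group F] [Finite F], (∀ x : F, x ^ (2 ^ a * m) = 1) → Group.IsSolvable F)
    (F : Type) [Group F] [Finite F] (hF : ∀ x : F, x ^ (2 ^ a * m) = 1) : Group.IsSolvable F := by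
  rcases h with ⟨q, b, hq, rfl⟩ | h
  · exact solvable_of_exponent Nat.prime_two hq (a := a) (b := b) hF
  · exact h F hF

/-- the main implication -/
theorem fr_mem {a m : ℕ} (ha : a ≤ 2) (hm : Odd m)
    (hsol : (∃ q b : ℕ, q.Prime ∧ m = q ^ b) ∨
      ∀ (F : Type) [Group F] [Finite F], (∀ x : F, x ^ (2 ^ a * m) = 1) → Group.IsSolvable F)
    (h1 : m ∈ LocFinExponents)
    (h2 : ∀ (G : Type) [Group G], (∀ g : G, g ^ (2 ^ a * m) = 1) →
      ∀ t x y : G, t ^ 2 = 1 → t * x * t = x⁻¹ → Finite (closure {x, y})) :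
    2 ^ a * m ∈ LocFinExponents := by
  refine ⟨Nat.mul_pos (by positivity) h1.1, ?_⟩
  intro G _ hG H hH
  have hn : 2 ^ a * m ∣ 4 * m := by
    apply Nat.mul_dvd_mul_right
    rw [show 4 = 2 ^ 2 by norm_num]
    exact pow_dvd_pow 2 ha
  refine fr_LF_class (n := 2 ^ a * m) hm hn ?_ ?_ ?_ hG H le_top hH
  · intro G _ hG t x y ht hx
    have hfin := h2 G hG t x y ht hx
    refine ⟨hfin, fr_solvable hsol _ ?_⟩
    intro g
    apply Subtype.ext
    rw [Subgroup.coe_pow, hG, Subgroup.coe_one]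
  · intro G _ hG S
    exact finite_closure_of_mem h1 G hG S
  · intro G _ hG S
    exact fr_four G hG S

/-- **Two generators suffice for exponents `2 ^ a * m`, `a ≤ 2`, `m` odd.** -/
theorem fr_tfae {a m : ℕ} (ha : a ≤ 2) (hm : Odd m)
    (hsol : (∃ q b : ℕ, q.Prime ∧ m = q ^ b) ∨
      ∀ (F : Type) [Group F] [Finite F], (∀ x : F, x ^ (2 ^ a * m) = 1) → Group.IsSolvable F) :
    List.TFAE [
      2 ^ a * m ∈ LocFinExponents,
      m ∈ LocFinExponents ∧ Finite (FreeBurnside 2 (2 ^ a * m)),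
      m ∈ LocFinExponents ∧
        ∀ (G : Type) [Group G], (∀ g : G, g ^ (2 ^ a * m) = 1) →
          ∀ t x y : G, t ^ 2 = 1 → t * x * t = x⁻¹ → Finite (closure {x, y})] := by
  tfae_have 1 → 2 := by
    intro h
    exact ⟨mem_of_dvd (dvd_mul_left _ _) h, finite_burnside_of_mem h 2⟩
  tfae_have 2 → 3 := by
    rintro ⟨h1, h2⟩
    refine ⟨h1, ?_⟩
    intro G _ hG t x y _ _
    exact finite_of_burnside_two h2 G hG x y
  tfae_have 3 → 1 := by
    rintro ⟨h1, h2⟩
    exact fr_mem ha hm hsol h1 h2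
  tfae_finish

/-- exponent 12 -/
theorem fr_twelve :
    List.TFAE [
      12 ∈ LocFinExponents,
      Finite (FreeBurnside 2 12),
      ∀ (G : Type) [Group G], (∀ g : G, g ^ 12 = 1) →
        ∀ t x y : G, t ^ 2 = 1 → t * x * t = x⁻¹ → Finite (closure {x, y})] := by
  have h := fr_tfae (a := 2) (m := 3) le_rfl (by decide)
    (Or.inl ⟨3, 1, Nat.prime_three, by norm_num⟩)
  have e : 2 ^ 2 * 3 = 12 := by norm_num
  rw [e] at h
  have h12 := h.out 0 1 rfl rfl
  have h13 := h.out 0 2 rfl rfl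
  tfae_have 1 → 2 := fun h1 => (h12.1 h1).2
  tfae_have 2 → 1 := fun h1 => h12.2 ⟨three_mem, h1⟩
  tfae_have 1 → 3 := fun h1 => (h13.1 h1).2
  tfae_have 3 → 1 := fun h1 => h13.2 ⟨three_mem, h1⟩
  tfae_finish

/-- **Group form.** -/
theorem fr_group {m : ℕ} (hm : Odd m) (G : Type) [Group G] (hG : ∀ g : G, g ^ (4 * m) = 1)
    (h2 : ∀ x y : G, Finite (closure {x, y}) ∧ Group.IsSolvable (closure {x, y})) :
    IsLocFinite G ↔ ∀ (H : Subgroup G) (N : Subgroup H) [N.Normal],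
      (∀ g : H ⧸ N, g ^ m = 1) → IsLocFinite (H ⧸ N) := by
  constructor
  · intro h H N _ _
    exact (h.of_injective H.subtype H.subtype_injective).of_surjective _
      (QuotientGroup.mk'_surjective N)
  · intro h
    rw [IsLocFinite_iff_LF]
    apply fr_LF hm hG h2 _ (fun G _ hG S => fr_four G hG S)
    intro N _ K hK
    -- `K` is the quotient of its preimage by `N`
    let π := QuotientGroup.mk' N
    have hsurj : Function.Surjective π := QuotientGroup.mk'_surjective N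
    let L : Subgroup G := K.comap π
    let f : L →* K := (π.comp L.subtype).codRestrict K (fun x => x.2)
    have hf : Function.Surjective f := by
      rintro ⟨k, hk⟩
      obtain ⟨g, rfl⟩ := hsurj k
      exact ⟨⟨g, hk⟩, rfl⟩
    let e : L ⧸ f.ker ≃* K := QuotientGroup.quotientKerEquivOfSurjective f hf
    have h1 : IsLocFinite (L ⧸ f.ker) := by
      apply h
      intro g
      apply e.injective
      rw [map_pow, map_one]
      apply Subtype.ext
      rw [Subgroup.coe_pow, Subgroup.coe_one]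
      exact hK _ (e g).2
    have h3 : IsLocFinite K := h1.of_surjective e.toMonoidHom e.surjective
    intro M hM hfg
    have h4 : (M.subgroupOf K).FG := by
      rw [← Group.fg_iff_subgroup_fg] at hfg ⊢
      exact Group.fg_of_surjective (f := (Subgroup.subgroupOfEquivOfLe hM).symm.toMonoidHom)
        (Subgroup.subgroupOfEquivOfLe hM).symm.surjective
    have h5 := h3 _ h4
    exact Finite.of_equiv _ (Subgroup.subgroupOfEquivOfLe hM).toEquiv

end Pool.Agent.Lib.MP_544bd1_al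
end

section

/-!
# Inverted pairs, general even exponents: goodness and the induction
-/

namespace Pool.Agent.Lib.MP_544bd1_al

open Finset Subgroup

variable {G : Type} [Group G]

/-- `x = u ^ (2 ^ (a - 1)) ∈ O_{2',2}(T)` for every finite solvable `T` containing `u` -/
theorem ip_HH {n m a : ℕ} (H : IpG n G) (hm : Odd m) (ha : 0 < a) (hn : n = m * 2 ^ a)
    (hex : ∀ r : ℕ, r.Prime → r ∣ m → (∃ j s : ℕ, 1 ≤ j ∧ j ≤ a ∧ 0 < s ∧ r ^ s + 1 = 2 ^ j) →
      ¬ r ^ 2 ∣ m ∧ NoN (n / r) G)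
    {u : G} (hu : u ^ (2 ^ a) = 1) (T : Subgroup G) (hfin : Finite T)
    (hsol : Group.IsSolvable T) (huT : u ∈ T) : InOP m (2 ^ a) T (u ^ (2 ^ (a - 1))) := by
  by_contra h
  have hexp : ∀ x : G, x ^ (m * 2 ^ a) = 1 := by
    rw [← hn]
    exact H.hexp
  have hexpT := tw_exp_sub hexp T
  have hu' : (⟨u, huT⟩ : T) ^ (2 ^ a) = 1 := Subtype.ext (by simpa using hu)
  have hcoe : (((⟨u, huT⟩ : T) ^ (2 ^ (a - 1)) : T) : G) = u ^ (2 ^ (a - 1)) := by simp
  obtain ⟨r, hr, hrm, P, R, w, h1, h2, h3, h4, h5, h6, h7⟩ := ev_config hm ha hsol hexpT hu' (by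
    rw [InOP.top_iff, hcoe]
    exact h)
  have hr2 : r ≠ 2 := by
    rintro rfl
    rw [← even_iff_two_dvd, ← Nat.not_odd_iff_even] at hrm
    exact hrm hm
  obtain ⟨F₁, Q, R₁, u₁, hQn, D⟩ := ev_min P R w h1 h2 h3 h4 h5 h6 h7
  have hexpF := tw_exp_sub hexpT F₁
  have hexc := ev_nonexc hr hr2 ha hm hexpF Q R₁ D
  obtain ⟨hr3, hno⟩ := hex r hr hrm hexc
  obtain ⟨k, hk⟩ := hrm
  have hrk : ¬ r ∣ k := by
    rintro ⟨l, rfl⟩
    exact hr3 ⟨l, by rw [hk]; ring⟩
  have hcop : Nat.Coprime r 2 := (Nat.coprime_primes hr Nat.prime_two).2 hr2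
  have hRr : ∀ g ∈ R₁, g ^ r = 1 := by
    intro g hg
    obtain ⟨l, hl⟩ := D.hR ⟨g, hg⟩
    have hl' : g ^ (r ^ l) = 1 := by
      have := congrArg Subtype.val hl
      simpa using this
    have h8 : (g ^ r) ^ (k * 2 ^ a) = 1 := by
      rw [← pow_mul, ← mul_assoc, ← hk]
      exact hexpF g
    have h9 : (g ^ r) ^ (r ^ l) = 1 := by
      rw [← pow_mul, mul_comm, pow_mul, hl', one_pow]
    have h10 : Nat.Coprime (k * 2 ^ a) (r ^ l) := by
      apply Nat.Coprime.pow_right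
      apply Nat.Coprime.mul_left
      · exact ((Nat.Prime.coprime_iff_not_dvd hr).2 hrk).symm
      · exact Nat.Coprime.pow_left a hcop.symm
    exact tw_one h10 h8 h9
  obtain ⟨x, v, z₁, z₂, e1, e2, e3, e4, e5, e6, e7, e8, e9, e10, e11, e12⟩ :=
    ev_elems hr hr2 ha hm hexpF Q R₁ D hRr
  -- everything in `G`
  let f : F₁ →* G := T.subtype.comp F₁.subtype
  have hf : Function.Injective f := T.subtype_injective.comp F₁.subtype_injective
  have hnr : n = n / r * r := (Nat.div_mul_cancel (by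
    rw [hn, hk, mul_assoc]
    exact dvd_mul_right _ _)).symm
  have hnr2 : ¬ r ∣ n / r := by
    have h8 : n / r = k * 2 ^ a := by
      rw [hn, hk, mul_assoc, Nat.mul_div_cancel_left _ hr.pos]
    rw [h8]
    intro h9
    rcases (Nat.Prime.dvd_mul hr).1 h9 with h10 | h10
    · exact hrk h10
    · exact hr2 ((Nat.prime_dvd_prime_iff_eq hr Nat.prime_two).1 (hr.dvd_of_dvd_pow h10))
  refine ip_Q H hr hr2 hnr hnr2 hno (x := f x) (v := f v) (z1 := f z₁) (z2 := f z₂)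
    (by rw [← map_pow, e1, map_one]) (by rw [← map_pow, e2, map_one])
    (fun h => e3 (hf (by rw [h, map_one]))) (by rw [← map_mul, e4, map_mul])
    (by rw [← map_pow, e5, map_one]) (by rw [← map_pow, e6, map_one])
    (by rw [← map_mul, e7, map_mul])
    (by rw [← map_mul, ← map_mul, e8, map_mul, map_mul]) ?_
    (by rw [← map_mul, ← map_pow, e10, map_one]) ?_
    (by rw [← map_mul, ← map_pow, e12, map_one])
  · intro i j
    have := congrArg f (e9 i j)
    simpa only [map_mul, map_pow, map_inv] using this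
  · intro i j
    have := congrArg f (e11 i j)
    simpa only [map_mul, map_pow, map_inv] using this

/-- existence of good involutions -/
theorem ip_good {n m a : ℕ} (H : IpG n G) (hm : Odd m) (ha : 0 < a) (hn : n = m * 2 ^ a)
    (hex : ∀ r : ℕ, r.Prime → r ∣ m → (∃ j s : ℕ, 1 ≤ j ∧ j ≤ a ∧ 0 < s ∧ r ^ s + 1 = 2 ^ j) →
      ¬ r ^ 2 ∣ m ∧ NoN (n / r) G)
    {u : G} (hu : u ^ (2 ^ a) = 1) : GoodS m (2 ^ a) (u ^ (2 ^ (a - 1))) := by
  have hexp : ∀ x : G, x ^ (m * 2 ^ a) = 1 := by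
    rw [← hn]
    exact H.hexp
  have hz : (u ^ (2 ^ (a - 1))) ^ (2 ^ a) = 1 := by
    rw [← pow_mul, mul_comm, pow_mul, hu, one_pow]
  have hz2 : (u ^ (2 ^ (a - 1))) ^ 2 = 1 := by
    rw [← pow_mul, ← pow_succ, Nat.sub_add_cancel ha]
    exact hu
  refine ⟨hz, ?_⟩
  intro T hfin hsol hzT
  by_contra hbad
  obtain ⟨h, t, hh, ht, hth, hnot⟩ := ip_A (F := T) hm hsol (tw_exp_sub hexp T)
    (z := ⟨u ^ (2 ^ (a - 1)), hzT⟩) (Subtype.ext (by simpa using hz2)) (by
      rw [InOP.top_iff]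
      exact hbad)
  apply hnot
  apply InOP.sub_closure
  have ht' : (t : G) ^ 2 = 1 := by
    have := congrArg Subtype.val ht
    simpa using this
  have hth' : (t : G) * (h : G) * (t : G) = (h : G)⁻¹ := by
    have := congrArg Subtype.val hth
    simpa using this
  obtain ⟨hfL, hsL⟩ := H.h2 (t : G) (h : G) u ht' hth'
  have huL : u ∈ closure {(h : G), u} := subset_closure (by simp)
  have hhL : (h : G) ∈ closure {(h : G), u} := subset_closure (by simp)
  have h2 := ip_HH H hm ha hn hex hu _ hfL hsL huL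
  refine h2.mono ?_ (subset_closure (by simp))
  rw [closure_le]
  rintro x (rfl | rfl)
  · exact (closure {(h : G), u}).pow_mem huL _
  · exact hhL

/-- exponents `2 ^ a * m` with `a ≤ 2` -/
theorem ip_even_small {m a : ℕ} (hm : Odd m) (ha : a ≤ 2)
    (hIP : ∀ (G : Type) [Group G], (∀ g : G, g ^ (2 ^ a * m) = 1) → ∀ t x y : G, t ^ 2 = 1 →
      t * x * t = x⁻¹ → Finite (closure {x, y}) ∧ Group.IsSolvable (closure {x, y})) :
    ∀ (G : Type) [Group G], (∀ x : G, x ^ (2 ^ a * m) = 1) → ESec m G → ESec (2 ^ a) G →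
      LF (⊤ : Subgroup G) := by
  intro G _ hG hEm hE2
  apply LF_of_quotients
  intro N hN hNtop
  have hnt : Nontrivial (G ⧸ N) := by
    by_contra h
    rw [not_nontrivial_iff_subsingleton] at h
    exact hNtop (QuotientGroup.subgroup_eq_top_of_subsingleton N h)
  have hsurj := QuotientGroup.mk'_surjective N
  have hGQ : ∀ x : G ⧸ N, x ^ (2 ^ a * m) = 1 := tw_exp_quot hG N
  have hEmQ : ESec m (G ⧸ N) := hEm.of_surjective _ hsurj
  have hE2Q : ESec (2 ^ a) (G ⧸ N) := hE2.of_surjective _ hsurj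
  obtain ⟨j, hj⟩ : 2 ^ a ∣ 4 := by
    have : 2 ^ a ∣ 2 ^ 2 := pow_dvd_pow 2 ha
    exact this
  obtain ⟨K, hK1, hK2, hK3⟩ := fr_exists_normal (G := G ⧸ N) (m := m) hm
    (fun x => by
      rw [hj, show 2 ^ a * j * m = 2 ^ a * m * j by ring, pow_mul, hGQ, one_pow])
    (hIP (G ⧸ N) hGQ)
  refine ⟨K, hK1, hK2, ?_⟩
  rcases hK3 with h | h
  · exact hEmQ.sub h
  · apply hE2Q.sub
    intro x hx
    have h1 : orderOf x ∣ 4 := orderOf_dvd_of_pow_eq_one (h x hx)
    have h2 : orderOf x ∣ 2 ^ a * m := orderOf_dvd_of_pow_eq_one (hGQ x)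
    rw [← orderOf_dvd_iff_pow_eq_one]
    have h3 : Nat.Coprime (orderOf x) m := by
      apply Nat.Coprime.coprime_dvd_left h1
      exact (Nat.Coprime.pow_left 2 (Nat.coprime_two_left.2 hm) : Nat.Coprime (2 ^ 2) m)
    exact h3.dvd_of_dvd_mul_right h2

/-- **Inverted pairs, even exponents.** -/
theorem ip_even {n₀ : ℕ} (hn₀ : 0 < n₀)
    (hIP : ∀ (G : Type) [Group G], (∀ g : G, g ^ n₀ = 1) → ∀ t x y : G, t ^ 2 = 1 →
      t * x * t = x⁻¹ → Finite (closure {x, y}) ∧ Group.IsSolvable (closure {x, y}))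
    (N : ℕ) : ∀ (a m : ℕ), 2 ^ a * m = N → N ∣ n₀ → Odd m →
    (a ≤ 2 ∨ ∀ j ≤ a, (2 ^ j - 1).Prime → ¬ (2 ^ j - 1) ^ 2 ∣ m) →
    ∀ (G : Type) [Group G], (∀ x : G, x ^ (2 ^ a * m) = 1) → ESec m G → ESec (2 ^ a) G →
      LF (⊤ : Subgroup G) := by
  induction N using Nat.strong_induction_on with
  | _ N ih =>
  intro a m hN hNn hm hcond G _ hG hEm hE2
  have hmk : ∀ (k : ℕ), 0 < k → k ∣ n₀ → ∀ (G : Type) [Group G], (∀ x : G, x ^ k = 1) →
      IpG k G := by
    rintro k hk ⟨l, hl⟩ G _ hG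
    refine ⟨hk, hG, hIP G (fun g => ?_)⟩
    rw [hl, pow_mul, hG, one_pow]
  have hN' : 2 ^ a * m ∣ n₀ := by rw [hN]; exact hNn
  by_cases ha2 : a ≤ 2
  · exact ip_even_small hm ha2 (fun G _ hG => (hmk _ (Nat.mul_pos (by positivity) hm.pos) hN' G hG).h2)
      G hG hEm hE2
  have ha0 : 0 < a := by omega
  have hcond' : ∀ j ≤ a, (2 ^ j - 1).Prime → ¬ (2 ^ j - 1) ^ 2 ∣ m := by
    rcases hcond with h | h
    · exact absurd h ha2
    · exact h
  apply LF_of_quotients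
  intro K₀ hK₀ hK₀top
  have hnt : Nontrivial (G ⧸ K₀) := by
    by_contra h
    rw [not_nontrivial_iff_subsingleton] at h
    exact hK₀top (QuotientGroup.subgroup_eq_top_of_subsingleton K₀ h)
  have hsurj := QuotientGroup.mk'_surjective K₀
  have hGQ : ∀ x : G ⧸ K₀, x ^ (2 ^ a * m) = 1 := tw_exp_quot hG K₀
  have HQ : IpG (2 ^ a * m) (G ⧸ K₀) :=
    hmk _ (Nat.mul_pos (by positivity) hm.pos) hN' _ hGQ
  have hEmQ : ESec m (G ⧸ K₀) := hEm.of_surjective _ hsurj
  have hE2Q : ESec (2 ^ a) (G ⧸ K₀) := hE2.of_surjective _ hsurj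
  have hm0 : 0 < m := hm.pos
  have hn : 2 ^ a * m = m * 2 ^ a := mul_comm _ _
  by_cases hsmall : ∀ x : G ⧸ K₀, x ^ (2 ^ (a - 1) * m) = 1
  · -- smaller exponent
    refine ⟨⊤, inferInstance, fun h => bot_ne_top h.symm, ?_⟩
    have hlt : 2 ^ (a - 1) * m < N := by
      rw [← hN]
      apply Nat.mul_lt_mul_of_pos_right _ hm0
      exact Nat.pow_lt_pow_right (by norm_num) (by omega)
    exact ih _ hlt (a - 1) m rfl
      ((Nat.mul_dvd_mul_right (pow_dvd_pow 2 (by omega)) m).trans hN') hm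
      (Or.inr (fun j hj => hcond' j (by omega))) (G ⧸ K₀)
      hsmall hEmQ (hE2Q.dvd (pow_dvd_pow 2 (by omega)))
  push Not at hsmall
  obtain ⟨g, hg⟩ := hsmall
  -- normal subgroups of exponent `n / r`
  by_cases hR : ∃ r : ℕ, r.Prime ∧ r ∣ m ∧ ¬ NoN (2 ^ a * m / r) (G ⧸ K₀)
  · obtain ⟨r, hr, ⟨k, rfl⟩, hno⟩ := hR
    unfold NoN at hno
    push Not at hno
    obtain ⟨K, hK1, hK2, hK3⟩ := hno
    refine ⟨K, hK1, hK3, LF_of_top ?_⟩
    have hdiv : 2 ^ a * (r * k) / r = 2 ^ a * k := by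
      rw [show 2 ^ a * (r * k) = r * (2 ^ a * k) by ring, Nat.mul_div_cancel_left _ hr.pos]
    rw [hdiv] at hK2
    have hk0 : 0 < k := Nat.pos_of_mul_pos_left hm0
    have hkodd : Odd k := Nat.Odd.of_mul_right hm
    have hlt : 2 ^ a * k < N := by
      rw [← hN]
      apply Nat.mul_lt_mul_of_pos_left _ (by positivity)
      calc k = 1 * k := (one_mul k).symm
        _ < r * k := Nat.mul_lt_mul_of_pos_right hr.one_lt hk0
    apply ih _ hlt a k rfl
      ((Nat.mul_dvd_mul_left _ (dvd_mul_left _ _)).trans hN') hkodd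
      (Or.inr (fun j hj hp hd => hcond' j hj hp (hd.trans (dvd_mul_left _ _)))) K
    · exact fun x => Subtype.ext (by simpa using hK2 x x.2)
    · exact ESec.of_sub (hEmQ.dvd (dvd_mul_left _ _)) K
    · exact ESec.of_sub hE2Q K
  push Not at hR
  have hgood : GoodS m (2 ^ a) ((g ^ m) ^ (2 ^ (a - 1))) := by
    apply ip_good HQ hm ha0 hn
    · rintro r hr hrm ⟨j, s, hj1, hj2, hs, hrs⟩
      refine ⟨?_, hR r hr hrm⟩
      have hr2 : r ≠ 2 := by
        rintro rfl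
        rw [← even_iff_two_dvd, ← Nat.not_odd_iff_even] at hrm
        exact hrm hm
      have hs1 := tw_mersenne hr hr2 hs hrs
      rw [hs1, pow_one] at hrs
      have hr' : 2 ^ j - 1 = r := by omega
      have h1 := hcond' j hj2 (by rw [hr']; exact hr)
      rwa [hr'] at h1
    · rw [← pow_mul, ← hn]
      exact HQ.hexp g
  have hz : (g ^ m) ^ (2 ^ (a - 1)) = g ^ (2 ^ (a - 1) * m) := by rw [← pow_mul, mul_comm]
  rw [hz] at hgood
  have hz2 : (g ^ (2 ^ (a - 1) * m)) ^ 2 = 1 := by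
    have h1 : 2 ^ (a - 1) * m * 2 = 2 ^ a * m := by
      have h2 : 2 ^ (a - 1) * 2 = 2 ^ a := by
        rw [← pow_succ, Nat.sub_add_cancel ha0]
      rw [mul_right_comm, h2]
    rw [← pow_mul, h1]
    exact HQ.hexp g
  by_cases hA : NoN (2 ^ a) (G ⧸ K₀)
  · by_cases hB : NoN m (G ⧸ K₀)
    · exact absurd (ip_X HQ hn hm hA hB hgood hz2) hg
    · unfold NoN at hB
      push Not at hB
      obtain ⟨K, hK1, hK2, hK3⟩ := hB
      exact ⟨K, hK1, hK3, hEmQ.sub hK2⟩
  · unfold NoN at hA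
    push Not at hA
    obtain ⟨K, hK1, hK2, hK3⟩ := hA
    exact ⟨K, hK1, hK3, hE2Q.sub hK2⟩

end Pool.Agent.Lib.MP_544bd1_al
end

section

/-!
# Inverted pairs decide the exponents `2 * m` and `4 * m`, `m` odd
-/

namespace Pool.Agent.Lib.MP_544bd1_al

open Subgroup E5

/-- the odd prime powers below seven -/
theorem ip_small {q : ℕ} (hq : q = 3 ∨ q = 5) (h : Finite (FreeBurnside 3 q)) :
    q ∈ LocFinExponents := by
  rcases hq with rfl | rfl
  · exact three_mem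
  · exact five_iff.2 h

/-- **Inverted pairs: exponents `2 ^ a * m` with `a = 1, 2` and `m` odd.** -/
theorem ip_exponent {a m : ℕ} (ha : 1 ≤ a) (ha' : a ≤ 2) (hm : Odd m)
    (hsol : (∃ q b : ℕ, q.Prime ∧ m = q ^ b) ∨
      ∀ (F : Type) [Group F] [Finite F], (∀ x : F, x ^ (2 ^ a * m) = 1) → Group.IsSolvable F) :
    2 ^ a * m ∈ LocFinExponents ↔
      (∀ (G : Type) [Group G], (∀ g : G, g ^ (2 ^ a * m) = 1) →
        ∀ t x y : G, t ^ 2 = 1 → t * x * t = x⁻¹ → Finite (closure {x, y})) ∧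
      ∀ p : ℕ, p.Prime → p ∣ m → 7 ≤ p ^ m.factorization p →
        Finite (FreeBurnside 4 (p ^ m.factorization p)) →
        p ^ m.factorization p ∈ LocFinExponents := by
  have hm0 : 0 < m := hm.pos
  have hdiv : 2 * m ∣ 2 ^ a * m := Nat.mul_dvd_mul_right (dvd_pow_self 2 (by omega)) m
  constructor
  · intro h
    refine ⟨fun G _ hG t x y _ _ =>
      finite_of_burnside_two (finite_burnside_of_mem h 2) G hG x y, fun p _ _ _ _ => ?_⟩
    exact mem_of_dvd ((Nat.ordProj_dvd m p).trans (dvd_mul_left _ _)) h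
  · rintro ⟨h1, h2⟩
    refine fr_mem ha' hm hsol ?_ h1
    have h4 : Finite (FreeBurnside 4 m) := ip_burnside hdiv h1
    have h3 : Finite (FreeBurnside 2 m) := ip_mono (by norm_num) h4
    have hsol' : (∃ p q a b : ℕ, p.Prime ∧ q.Prime ∧ m = p ^ a * q ^ b) ∨
        (Finite (FreeBurnside 2 m) → Group.IsSolvable (FreeBurnside 2 m)) := by
      rcases hsol with ⟨q, b, hq, hqb⟩ | hsol
      · exact Or.inl ⟨2, q, 0, b, Nat.prime_two, hq, by rw [hqb]; simp⟩
      · right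
        intro hf
        exact hsol (FreeBurnside 2 m) fun x => by
          rw [mul_comm, pow_mul, burnside_pow, one_pow]
    rw [fin_exponent (a := 0) (m := m) hm0 (by simp) hm (oddT_all hm0)
      (evenT_of_squares hm (Or.inl (by norm_num))) hsol']
    refine ⟨h3, fun p hp hpm => ?_⟩
    have hd : p ^ m.factorization p ∣ m := Nat.ordProj_dvd m p
    have h5 : Finite (FreeBurnside 4 (p ^ m.factorization p)) :=
      ip_burnside ((Nat.mul_dvd_mul_left 2 hd).trans hdiv) h1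
    by_cases h7 : 7 ≤ p ^ m.factorization p
    · exact h2 p hp hpm h7 h5
    · apply ip_small ?_ (ip_mono (by norm_num) h5)
      have h8 : 1 ≤ m.factorization p := (hp.dvd_iff_one_le_factorization hm0.ne').1 hpm
      have h9 : 1 < p ^ m.factorization p := Nat.one_lt_pow (by omega) hp.one_lt
      have h10 : Odd (p ^ m.factorization p) := Odd.of_dvd_nat hm hd
      rcases h10 with ⟨k, hk⟩
      omega

/-- no condition on prime powers for the exponents `10`, `12` and `20` -/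
theorem ip_small_exponents {n : ℕ} (hn : n = 10 ∨ n = 12 ∨ n = 20) :
    n ∈ LocFinExponents ↔
      ∀ (G : Type) [Group G], (∀ g : G, g ^ n = 1) →
        ∀ t x y : G, t ^ 2 = 1 → t * x * t = x⁻¹ → Finite (closure {x, y}) := by
  have key : ∀ a p : ℕ, 1 ≤ a → a ≤ 2 → p.Prime → p = 3 ∨ p = 5 → n = 2 ^ a * p →
      (n ∈ LocFinExponents ↔
      ∀ (G : Type) [Group G], (∀ g : G, g ^ n = 1) →
        ∀ t x y : G, t ^ 2 = 1 → t * x * t = x⁻¹ → Finite (closure {x, y})) := by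
    intro a p ha ha' hp hp35 hnp
    rw [hnp, ip_exponent ha ha' (by rcases hp35 with rfl | rfl <;> decide)
      (Or.inl ⟨p, 1, hp, by rw [pow_one]⟩)]
    refine ⟨fun h => h.1, fun h => ⟨h, fun p' hp' hpp h7 => ?_⟩⟩
    exfalso
    have h1 : p' = p := (Nat.prime_dvd_prime_iff_eq hp' hp).1 hpp
    rw [h1, hp.factorization_self, pow_one] at h7
    omega
  rcases hn with rfl | rfl | rfl
  · exact key 1 5 le_rfl (by norm_num) (by norm_num) (Or.inr rfl) (by norm_num)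
  · exact key 2 3 (by norm_num) le_rfl (by norm_num) (Or.inl rfl) (by norm_num)
  · exact key 2 5 (by norm_num) le_rfl (by norm_num) (Or.inr rfl) (by norm_num)

end Pool.Agent.Lib.MP_544bd1_al
end

section

/-!
# Inverted pairs decide even exponents
-/

namespace Pool.Agent.Lib.MP_544bd1_al

open Subgroup E5

/-- the main implication -/
theorem ip_mem {n a m : ℕ} (hnm : n = 2 ^ a * m) (hm : Odd m)
    (hs : ∀ (F : Type) [Group F] [Finite F], (∀ x : F, x ^ n = 1) → Group.IsSolvable F)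
    (hsq : a ≤ 2 ∨ ∀ j ≤ a, (2 ^ j - 1).Prime → ¬ (2 ^ j - 1) ^ 2 ∣ m)
    (hm' : m ∈ LocFinExponents) (ha' : 2 ^ a ∈ LocFinExponents)
    (h : ∀ (G : Type) [Group G], (∀ g : G, g ^ n = 1) →
      ∀ t x y : G, t ^ 2 = 1 → t * x * t = x⁻¹ → Finite (closure {x, y})) :
    n ∈ LocFinExponents := by
  have hn : 0 < n := by
    rw [hnm]
    exact Nat.mul_pos (by positivity) hm.pos
  refine ⟨hn, ?_⟩
  intro G _ hG
  refine IsLocFinite_iff_LF.2 ?_
  refine ip_even hn ?_ n a m hnm.symm dvd_rfl hm hsq G (by rw [← hnm]; exact hG)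
    (tw_ESec_of_mem hm' G) (tw_ESec_of_mem ha' G)
  intro G _ hG t x y ht hx
  have hfin := h G hG t x y ht hx
  refine ⟨hfin, hs _ fun g => Subtype.ext ?_⟩
  rw [Subgroup.coe_pow, hG, Subgroup.coe_one]

/-- **Inverted pairs decide even exponents.** -/
theorem ip_final {n : ℕ} (hn : 0 < n) (h2 : 2 ∣ n)
    (hsol : (∃ p q a b : ℕ, p.Prime ∧ q.Prime ∧ n = p ^ a * q ^ b) ∨
      ∀ (F : Type) [Group F] [Finite F], (∀ x : F, x ^ n = 1) → Group.IsSolvable F)
    (hsq : ¬ 8 ∣ n ∨ ∀ j : ℕ, (2 ^ j - 1).Prime → 2 ^ j ∣ n → ¬ (2 ^ j - 1) ^ 2 ∣ n) :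
    n ∈ LocFinExponents ↔
      (∀ (G : Type) [Group G], (∀ g : G, g ^ n = 1) →
        ∀ t x y : G, t ^ 2 = 1 → t * x * t = x⁻¹ → Finite (closure {x, y})) ∧
      ∀ p : ℕ, p.Prime → p ∣ n → 7 ≤ p ^ n.factorization p →
        Finite (FreeBurnside 4 (Nat.gcd (p ^ n.factorization p) (n / 2))) →
        p ^ n.factorization p ∈ LocFinExponents := by
  have hs : ∀ (F : Type) [Group F] [Finite F], (∀ x : F, x ^ n = 1) → Group.IsSolvable F := by
    rcases hsol with ⟨p, q, a, b, hp, hq, rfl⟩ | h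
    · intro F _ _ hF
      exact solvable_of_exponent hp hq (a := a) (b := b) hF
    · exact h
  constructor
  · intro h
    exact ⟨fun G _ hG t x y _ _ =>
      finite_of_burnside_two (finite_burnside_of_mem h 2) G hG x y,
      fun p _ _ _ _ => mem_of_dvd (Nat.ordProj_dvd n p) h⟩
  · rintro ⟨h1, h3⟩
    obtain ⟨m, hnm, hm⟩ := fin_decomp hn
    obtain ⟨a, ha⟩ : ∃ a, a = n.factorization 2 := ⟨_, rfl⟩
    rw [← ha] at hnm
    have ha1 : 1 ≤ a := by
      rw [ha]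
      exact (Nat.prime_two.dvd_iff_one_le_factorization hn.ne').1 h2
    have hmn : m ∣ n := ⟨2 ^ a, by rw [hnm, mul_comm]⟩
    have hm0 : 0 < m := hm.pos
    have h2m : 2 * m ∣ n := by
      rw [hnm]
      exact Nat.mul_dvd_mul_right (dvd_pow_self 2 (by omega)) m
    have h2a : 2 * 2 ^ (a - 1) ∣ n := by
      rw [← pow_succ', Nat.sub_add_cancel ha1, hnm]
      exact dvd_mul_right _ _
    have hn2 : n / 2 = 2 ^ (a - 1) * m := by
      apply Nat.div_eq_of_eq_mul_right (by norm_num)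
      rw [← mul_assoc, ← pow_succ', Nat.sub_add_cancel ha1, hnm]
    -- the 2-part
    have hA : 2 ^ a ∈ LocFinExponents := by
      by_cases ha2 : a ≤ 2
      · have h5 : 2 ^ a ∣ 2 ^ 2 := pow_dvd_pow 2 ha2
        exact mem_of_dvd h5 four_mem
      · have h5 := h3 2 Nat.prime_two h2
        rw [← ha] at h5
        apply h5
        · calc 7 ≤ 2 ^ 3 := by norm_num
            _ ≤ 2 ^ a := Nat.pow_le_pow_right (by norm_num) (by omega)
        · have h6 : Nat.gcd (2 ^ a) (n / 2) = 2 ^ (a - 1) := by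
            rw [hn2, Nat.Coprime.gcd_mul_right_cancel_right]
            · exact Nat.gcd_eq_right (pow_dvd_pow 2 (by omega))
            · exact Nat.Coprime.pow_right a (Nat.coprime_two_right.2 hm)
          rw [h6]
          exact ip_burnside h2a h1
    -- the odd part
    have hM : m ∈ LocFinExponents := by
      have h4 : Finite (FreeBurnside 4 m) := ip_burnside h2m h1
      have h5 : Finite (FreeBurnside 2 m) := ip_mono (by norm_num) h4
      rw [fin_exponent (a := 0) (m := m) hm0 (by simp) hm (oddT_all hm0)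
        (evenT_of_squares hm (Or.inl (by norm_num))) (Or.inr fun hf =>
          hs (FreeBurnside 2 m) fun x => by
            rw [hnm, mul_comm, pow_mul, burnside_pow, one_pow])]
      refine ⟨h5, fun p hp hpm => ?_⟩
      have hp2 : p ≠ 2 := by
        rintro rfl
        rw [← even_iff_two_dvd, ← Nat.not_odd_iff_even] at hpm
        exact hpm hm
      have hfac : n.factorization p = m.factorization p := by
        rw [hnm, Nat.factorization_mul (by positivity) hm0.ne', Finsupp.add_apply,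
          Nat.Prime.factorization_pow Nat.prime_two, Finsupp.single_eq_of_ne hp2, zero_add]
      have hd : p ^ m.factorization p ∣ m := Nat.ordProj_dvd m p
      have hod : Odd (p ^ m.factorization p) := Odd.of_dvd_nat hm hd
      have h6 : Finite (FreeBurnside 4 (p ^ m.factorization p)) :=
        ip_burnside ((Nat.mul_dvd_mul_left 2 hd).trans h2m) h1
      by_cases h7 : 7 ≤ p ^ m.factorization p
      · have h8 := h3 p hp (hpm.trans hmn)
        rw [hfac] at h8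
        apply h8 h7
        have h9 : Nat.gcd (p ^ m.factorization p) (n / 2) = p ^ m.factorization p := by
          apply Nat.gcd_eq_left
          rw [hn2]
          exact hd.trans (dvd_mul_left _ _)
        rw [h9]
        exact h6
      · apply ip_small ?_ (ip_mono (by norm_num) h6)
        have h8 : 1 ≤ m.factorization p := (hp.dvd_iff_one_le_factorization hm0.ne').1 hpm
        have h9 : 1 < p ^ m.factorization p := Nat.one_lt_pow (by omega) hp.one_lt
        rcases hod with ⟨k, hk⟩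
        omega
    refine ip_mem hnm hm hs ?_ hM hA h1
    rcases hsq with h | h
    · left
      by_contra hcon
      apply h
      rw [hnm]
      exact Dvd.dvd.mul_right (pow_dvd_pow 2 (show 3 ≤ a by omega)) m
    · right
      intro j hj hp hd
      refine h j hp ?_ (hd.trans hmn)
      rw [hnm]
      exact Dvd.dvd.mul_right (pow_dvd_pow 2 hj) m

/-- the exponents `10`, `12`, `20` -/
theorem ip_final_small {n : ℕ} (hn : n = 10 ∨ n = 12 ∨ n = 20) :
    n ∈ LocFinExponents ↔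
      ∀ (G : Type) [Group G], (∀ g : G, g ^ n = 1) →
        ∀ t x y : G, t ^ 2 = 1 → t * x * t = x⁻¹ → Finite (closure {x, y}) :=
  ip_small_exponents hn

/-- the exponents `8 * p`, `16 * p` and so on with `p = 3, 5` -/
theorem ip_final_eight {a p : ℕ} (ha : 1 ≤ a) (hp : p = 3 ∨ p = 5) :
    2 ^ a * p ∈ LocFinExponents ↔
      (∀ (G : Type) [Group G], (∀ g : G, g ^ (2 ^ a * p) = 1) →
        ∀ t x y : G, t ^ 2 = 1 → t * x * t = x⁻¹ → Finite (closure {x, y})) ∧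
      2 ^ a ∈ LocFinExponents := by
  have hpp : p.Prime := by
    rcases hp with rfl | rfl
    · exact Nat.prime_three
    · exact Nat.prime_five
  have hpo : Odd p := by rcases hp with rfl | rfl <;> decide
  have hs : ∀ (F : Type) [Group F] [Finite F], (∀ x : F, x ^ (2 ^ a * p) = 1) →
      Group.IsSolvable F := by
    intro F _ _ hF
    exact solvable_of_exponent Nat.prime_two hpp (a := a) (b := 1) (by rwa [pow_one])
  constructor
  · intro h
    exact ⟨fun G _ hG t x y _ _ =>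
      finite_of_burnside_two (finite_burnside_of_mem h 2) G hG x y,
      mem_of_dvd (dvd_mul_right _ _) h⟩
  · rintro ⟨h1, h2⟩
    refine ip_mem rfl hpo hs ?_ ?_ h2 h1
    · right
      intro j _ hj hd
      have h3 : (2 ^ j - 1) ^ 2 ∣ p ^ 1 := by rwa [pow_one]
      rcases (Nat.dvd_prime hpp).1 hd with h4 | h4
      · have h5 := hj.two_le
        nlinarith
      · have h5 := hj.two_le
        rw [pow_two] at h4
        have h6 : (2 ^ j - 1) ∣ p := ⟨_, h4.symm⟩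
        rcases (Nat.dvd_prime hpp).1 h6 with h7 | h7
        · omega
        · rw [h7] at h4
          have := hpp.two_le
          nlinarith
    · have h3 : Finite (FreeBurnside 4 p) :=
        ip_burnside (Nat.mul_dvd_mul_right (dvd_pow_self 2 (by omega)) p) h1
      exact ip_small hp (ip_mono (by norm_num) h3)

end Pool.Agent.Lib.MP_544bd1_al
end
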