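import Mathlib
import Pool.Agent.Lib.MP_544bd1_al.TwP3

/-!
Two generators, part 2, refinement: choice of the two primes.
-/

namespace Pool.Agent.Lib.MP_544bd1_al

open Subgroup

/-- Choice of the two primes.
Proof. Let `S` be the set of the primes `s` with `s ^ 2 ∣ n`. If `S` is empty, take two different
prime divisors `p`, `q` of `n` (`n` is not a prime power). Otherwise let `p` be the smallest element
of `S`, and `U` the set of the `s ∈ S`, `s ≠ p`, with `¬ p ∣ s - 1`. If `U` is empty let `q ≠ p` be any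
prime divisor of `n`; otherwise let `q` be the smallest element of `U`. If `s ∈ S`, `s ≠ p`, `s ≠ q`
and `¬ p ∣ s - 1`, then `s ∈ U`, so `p < q < s`, and `h` for `p, q, s` gives `q ∣ s - 1`. -/
theorem tw_pair' {n : ℕ} (hodd : Odd n) (h1 : 1 < n)
    (h : ∀ r s t : ℕ, r.Prime → s.Prime → t.Prime → r < s → s < t → r ^ 2 ∣ n → s ^ 2 ∣ n →
      t ^ 2 ∣ n → r ∣ s - 1 ∨ r ∣ t - 1 ∨ s ∣ t - 1)
    (hpp : ∀ p k : ℕ, p.Prime → n ≠ p ^ k) :
    ∃ p q : ℕ, p.Prime ∧ q.Prime ∧ p ≠ q ∧ p ∣ n ∧ q ∣ n ∧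
      ∀ s : ℕ, s.Prime → s ≠ p → s ≠ q → s ^ 2 ∣ n → p ∣ s - 1 ∨ q ∣ s - 1 := by
  classical
  have hn0 : n ≠ 0 := by omega
  -- a prime divisor different from `p`
  have hother : ∀ p : ℕ, p.Prime → ∃ q : ℕ, q.Prime ∧ q ∣ n ∧ p ≠ q := by
    intro p hp
    by_contra hcon
    push Not at hcon
    exact hpp p _ hp (Nat.eq_prime_pow_of_unique_prime_dvd hn0
      (fun {d} hd hdn => (hcon d hd hdn).symm))
  by_cases hS : ∃ s : ℕ, s.Prime ∧ s ^ 2 ∣ n
  · obtain ⟨hp, hpn⟩ := Nat.find_spec hS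
    set p := Nat.find hS with hpdef
    have hpmin : ∀ s : ℕ, s.Prime → s ^ 2 ∣ n → p ≤ s := fun s hs hsn =>
      Nat.find_min' hS ⟨hs, hsn⟩
    by_cases hU : ∃ s : ℕ, s.Prime ∧ s ^ 2 ∣ n ∧ s ≠ p ∧ ¬ p ∣ s - 1
    · obtain ⟨hq, hqn, hqp, hpq1⟩ := Nat.find_spec hU
      set q := Nat.find hU with hqdef
      have hqmin : ∀ s : ℕ, s.Prime → s ^ 2 ∣ n → s ≠ p → ¬ p ∣ s - 1 → q ≤ s :=
        fun s a b c d => Nat.find_min' hU ⟨a, b, c, d⟩
      refine ⟨p, q, hp, hq, hqp.symm, (Dvd.intro_left (p ^ 1) (by ring)).trans hpn,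
        (Dvd.intro_left (q ^ 1) (by ring)).trans hqn, ?_⟩
      intro s hs hsp hsq hsn
      by_cases hps : p ∣ s - 1
      · exact Or.inl hps
      · right
        have h2 := hqmin s hs hsn hsp hps
        have h3 := hpmin q hq hqn
        have h4 : p < q := lt_of_le_of_ne h3 hqp.symm
        have h5 : q < s := lt_of_le_of_ne h2 hsq.symm
        rcases h p q s hp hq hs h4 h5 hpn hqn hsn with h6 | h6 | h6
        · exact absurd h6 hpq1
        · exact absurd h6 hps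
        · exact h6
    · obtain ⟨q, hq, hqn, hpq⟩ := hother p hp
      refine ⟨p, q, hp, hq, hpq, (Dvd.intro_left (p ^ 1) (by ring)).trans hpn, hqn, ?_⟩
      intro s hs hsp _ hsn
      left
      by_contra hcon
      exact hU ⟨s, hs, hsn, hsp, hcon⟩
  · obtain ⟨p, hp, hpn⟩ := Nat.exists_prime_and_dvd (by omega : n ≠ 1)
    obtain ⟨q, hq, hqn, hpq⟩ := hother p hp
    exact ⟨p, q, hp, hq, hpq, hpn, hqn, fun s hs _ _ hsn => absurd ⟨s, hs, hsn⟩ hS⟩

end Pool.Agent.Lib.MP_544bd1_al
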