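import Mathlib
import Pool.Agent.Lib.MP_544bd1_al.ZtSpl
import Pool.Agent.Lib.MP_544bd1_al.ZtNorm
import Pool.Agent.Lib.MP_544bd1_al.ZsWt
import Pool.Agent.Lib.MP_544bd1_al.ZtDefs3
import Pool.Agent.Lib.MP_544bd1_al.TwLZ
import Pool.Agent.Lib.MP_544bd1_al.TwU1
import Pool.Agent.Lib.MP_544bd1_al.ZtFP
import Pool.Agent.Lib.MP_544bd1_al.ZsMn
import Pool.Agent.Lib.MP_544bd1_al.ZsC0

section

/-!
Theorem Z (paper 287), decomposition into weight vectors.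
-/

namespace Pool.Agent.Lib.MP_544bd1_al

open Finset Subgroup

/-- decomposition into weight vectors: two operators that agree on all weight vectors of an abelian
group of odd order agree.

Proof. The group `C` is finite, abelian, of odd order `n`, so `n ≠ 0` in `K` (characteristic 2), and
each `ρ c` satisfies `(ρ c) ^ n = 1`, with `X ^ n - 1` separable and split; the commuting diagonalizable
operators `ρ c` are simultaneously diagonalizable, i.e. `V` is the sum of the spaces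
`V_χ = {v | ∀ c ∈ C, ρ c v = χ c • v}`. One possibility: for a function `χ : C → K` which is a
homomorphism to `Kˣ` let `e_χ = ∑_{c} χ(c)⁻¹ ρ c` (its image consists of weight vectors); the sum of all
`e_χ` over the (finitely many) homomorphisms `χ : C →* Kˣ` is `|C|` (`∑_χ χ(c)⁻¹ = 0` for `c ≠ 1`, as
`K` is algebraically closed: there is a `χ` with `χ c ≠ 1`; mathlib: `Mathlib.GroupTheory.FiniteAbelian.
Duality`, `CommGroup.exists_apply_ne_one_of_hasEnoughRootsOfUnity`). Alternatively: induction on the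
dimension as in `tw_common_eigen` / `ev_idem_eigen` (TwL3a.lean, EvL1.lean): decompose `V` into
eigenspaces of one `ρ c` that is not a scalar (`ρ c` is diagonalizable, `Module.End.IsSemisimple`/
`iSup_eigenspace_eq_top`), which are invariant under the others. -/
theorem ys_wtsum {K : Type} [Field K] [IsAlgClosed K] [CharP K 2] {V R : Type} [AddCommGroup V]
    [Module K V] [FiniteDimensional K V] [Group R] [Finite R] {n : ℕ} (hn : Odd n)
    (ρ : R →* Module.End K V) (C : Subgroup R) (hC : ∀ c ∈ C, c ^ n = 1)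
    (hab : ∀ c ∈ C, ∀ d ∈ C, c * d = d * c) (T : Module.End K V)
    (hT : ∀ (χ : R → K) (v : V), (∀ c ∈ C, ρ c v = χ c • v) → T v = 0) : T = 0 := by
  classical
  letI : CommGroup C :=
    { (inferInstance : Group C) with mul_comm := fun x y => Subtype.ext (hab x x.2 y y.2) }
  have hexp : Monoid.exponent C ∣ n :=
    Monoid.exponent_dvd_of_forall_pow_eq_one fun x => Subtype.ext (by simpa using hC x x.2)
  have hoddexp : Odd (Monoid.exponent C) := Odd.of_dvd_nat hn hexp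
  haveI : NeZero ((Monoid.exponent C : ℕ) : K) := by
    refine ⟨fun h => ?_⟩
    rw [CharP.cast_eq_zero_iff K 2] at h
    exact (Nat.not_even_iff_odd.2 hoddexp) (even_iff_two_dvd.2 h)
  haveI : HasEnoughRootsOfUnity K (Monoid.exponent C) := inferInstance
  have hcard : ¬ 2 ∣ Nat.card C := by
    intro h
    haveI : Fact (Nat.Prime 2) := ⟨Nat.prime_two⟩
    obtain ⟨c, hc⟩ := exists_prime_orderOf_dvd_card' 2 h
    have h1 : orderOf c ∣ n := orderOf_dvd_of_pow_eq_one (Subtype.ext (by simpa using hC c c.2))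
    rw [hc] at h1
    exact (Nat.not_even_iff_odd.2 hn) (even_iff_two_dvd.2 h1)
  haveI : Finite (C →* Kˣ) := by
    refine Nat.finite_of_card_ne_zero ?_
    rw [CommGroup.card_monoidHom_of_hasEnoughRootsOfUnity]
    exact Nat.card_pos.ne'
  letI := Fintype.ofFinite C
  letI := Fintype.ofFinite (C →* Kˣ)
  have horth : ∀ c : C, c ≠ 1 → ∑ χ : C →* Kˣ, ((χ c : Kˣ) : K) = 0 := by
    intro c hc
    obtain ⟨φ, hφ⟩ := CommGroup.exists_apply_ne_one_of_hasEnoughRootsOfUnity C K hc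
    have h1 : ((φ c : Kˣ) : K) * ∑ χ : C →* Kˣ, ((χ c : Kˣ) : K) =
        ∑ χ : C →* Kˣ, ((χ c : Kˣ) : K) := by
      rw [Finset.mul_sum]
      exact Fintype.sum_equiv (Equiv.mulLeft φ) _ _ (fun χ => by simp)
    by_contra h2
    apply hφ
    exact Units.ext (mul_right_cancel₀ h2 (by rw [h1]; simp))
  have hw : ∀ (χ : C →* Kˣ) (v : V), T (∑ c : C, ((χ c : Kˣ) : K) • ρ c v) = 0 := by
    intro χ v
    refine hT (fun r => if h : r ∈ C then (((χ ⟨r, h⟩)⁻¹ : Kˣ) : K) else 0) _ ?_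
    intro d hd
    rw [dif_pos hd, map_sum, Finset.smul_sum]
    refine Fintype.sum_equiv (Equiv.mulLeft (⟨d, hd⟩ : C)) _ _ fun c => ?_
    rw [Equiv.coe_mulLeft, map_smul, map_mul, Subgroup.coe_mul, map_mul, smul_smul,
      Units.val_mul, ← mul_assoc, ← Units.val_mul, inv_mul_cancel, Units.val_one, one_mul]
    rfl
  refine LinearMap.ext fun v => ?_
  have hsum : ∑ χ : C →* Kˣ, ∑ c : C, ((χ c : Kˣ) : K) • ρ c v =
      (Nat.card C : K) • v := by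
    rw [Finset.sum_comm]
    have h1 : ∀ c : C, ∑ χ : C →* Kˣ, ((χ c : Kˣ) : K) • ρ c v =
        if c = 1 then (Nat.card C : K) • v else 0 := by
      intro c
      rw [← Finset.sum_smul]
      split_ifs with h
      · rw [h]
        simp only [map_one, Units.val_one, Finset.sum_const, Finset.card_univ, nsmul_eq_mul,
          mul_one, Subgroup.coe_one, Module.End.one_apply]
        rw [← Nat.card_eq_fintype_card, CommGroup.card_monoidHom_of_hasEnoughRootsOfUnity]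
      · rw [horth c h, zero_smul]
    rw [Finset.sum_congr rfl fun c _ => h1 c, Finset.sum_ite_eq' Finset.univ (1 : C)]
    simp
  have h0 : (Nat.card C : K) ≠ 0 := by
    intro h
    rw [CharP.cast_eq_zero_iff K 2] at h
    exact hcard h
  have h2 : (Nat.card C : K) • T v = 0 := by
    rw [← map_smul, ← hsum, map_sum]
    exact Finset.sum_eq_zero fun χ _ => hw χ v
  rw [LinearMap.zero_apply]
  exact (smul_eq_zero.1 h2).resolve_left h0

end Pool.Agent.Lib.MP_544bd1_al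
end

section

/-!
Theorem Z (paper 287), 4.2: `e` may be chosen of order 3 and commuting with `τ ^ (3 ^ k)`.
-/

namespace Pool.Agent.Lib.MP_544bd1_al

open Subgroup

/-- the elements of a finite odd group `C` inverted by an involution `z` normalizing `C`: their number is
the index of the centralizer of `z`.

Proof. `x ↦ x * C_C(z)` is a bijection of `I` onto the set of cosets. Injective: if `x`, `x * c ∈ I`,
`c` centralized by `z`, then `(x * c)⁻¹ = x⁻¹ * c`, so `x * c⁻¹ * x⁻¹ = c`, `x ^ 2` commutes with `c`, so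
does `x` (odd order: `x` is a power of `x ^ 2`), `c = c⁻¹`, `c = 1`. Surjective: for `y ∈ C` let
`w = y * z * y⁻¹ * z⁻¹`, inverted by `z`, and `x` a power of `w` with `x ^ 2 = w`; then `z` inverts `x`
and centralizes `x⁻¹ * y` (`z * y * z⁻¹ = w⁻¹ * y`). -/
theorem ys_inv_card {m : ℕ} (hm : Odd m) {H : Type} [Group H] [Finite H] (C : Subgroup H)
    (hC : ∀ x ∈ C, x ^ m = 1) {z : H} (hz2 : z ^ 2 = 1) (hzC : ∀ x ∈ C, z * x * z⁻¹ ∈ C) :
    Nat.card {x : H // x ∈ C ∧ z * x * z⁻¹ = x⁻¹} *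
      Nat.card {x : H // x ∈ C ∧ z * x = x * z} = Nat.card C := by
  obtain ⟨n, hn⟩ := hm
  have hzz : z * z = 1 := by rw [← pow_two]; exact hz2
  have hzi : z⁻¹ = z := inv_eq_of_mul_eq_one_left hzz
  -- `x = (x ^ 2) ^ (n + 1)` for odd elements
  have hsq : ∀ x ∈ C, (x ^ 2) ^ (n + 1) = x := by
    intro x hx
    rw [← pow_mul, show 2 * (n + 1) = m + 1 by omega, pow_succ, hC x hx, one_mul]
  have hone : ∀ x ∈ C, x ^ 2 = 1 → x = 1 := by
    intro x hx h2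
    rw [← hsq x hx, h2, one_pow]
  let Φ : {x : H // x ∈ C ∧ z * x * z⁻¹ = x⁻¹} × {x : H // x ∈ C ∧ z * x = x * z} → C :=
    fun q => ⟨q.1.1 * q.2.1, C.mul_mem q.1.2.1 q.2.2.1⟩
  have hinj : Function.Injective Φ := by
    rintro ⟨⟨x, hx, hx'⟩, ⟨c, hc, hc'⟩⟩ ⟨⟨y, hy, hy'⟩, ⟨d, hd, hd'⟩⟩ h
    have h1 : x * c = y * d := congrArg (fun t : C => (t : H)) h
    set t := c * d⁻¹ with ht
    have htC : t ∈ C := C.mul_mem hc (C.inv_mem hd)
    have hyt : y = x * t := by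
      rw [ht, ← mul_assoc, h1, mul_inv_cancel_right]
    have hzt : z * t * z⁻¹ = t := by
      have e1 : z * t * z⁻¹ = (z * c * z⁻¹) * (z * d * z⁻¹)⁻¹ := by rw [ht]; group
      rw [e1, hc', hd', mul_inv_cancel_right, mul_inv_cancel_right]
    have h2 : x⁻¹ * t = t⁻¹ * x⁻¹ := by
      have e1 : z * y * z⁻¹ = (z * x * z⁻¹) * (z * t * z⁻¹) := by rw [hyt]; group
      rw [hx', hzt, hy', hyt, mul_inv_rev] at e1
      exact e1.symm
    have h3 : x⁻¹ * t * x = t⁻¹ := by rw [h2, inv_mul_cancel_right]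
    have h4 : x ^ 2 * t = t * x ^ 2 := by
      have e1 : x⁻¹ * (x⁻¹ * t * x) * x = t := by
        rw [h3]
        have e2 : x⁻¹ * t⁻¹ * x = (x⁻¹ * t * x)⁻¹ := by group
        rw [e2, h3, inv_inv]
      calc x ^ 2 * t = x ^ 2 * (x⁻¹ * (x⁻¹ * t * x) * x) := by rw [e1]
        _ = t * x ^ 2 := by rw [pow_two]; group
    have h5 : x * t = t * x := by
      have e1 : Commute (x ^ 2) t := h4
      have e2 := e1.pow_left (n + 1)
      rw [hsq x hx] at e2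
      exact e2
    have h6 : t = 1 := by
      apply hone t htC
      have e1 : x⁻¹ * t * x = t := by
        rw [mul_assoc, ← h5, inv_mul_cancel_left]
      rw [e1] at h3
      rw [pow_two]
      nth_rewrite 1 [h3]
      exact inv_mul_cancel t
    have h7 : c = d := by
      rw [ht] at h6
      exact mul_inv_eq_one.1 h6
    have h8 : x = y := by
      rw [hyt, h6, mul_one]
    subst h7
    subst h8
    rfl
  have hsurj : Function.Surjective Φ := by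
    rintro ⟨y, hy⟩
    set w := y * z * y⁻¹ * z⁻¹ with hw
    have hwC : w ∈ C := by
      have e1 : w = y * (z * y⁻¹ * z⁻¹) := by rw [hw]; group
      rw [e1]
      exact C.mul_mem hy (hzC _ (C.inv_mem hy))
    have hzw : z * w * z⁻¹ = w⁻¹ := by
      rw [hw, mul_inv_rev, mul_inv_rev, mul_inv_rev, inv_inv, inv_inv, hzi]
      calc z * (y * z * y⁻¹ * z) * z = z * y * z * y⁻¹ * (z * z) := by group
        _ = z * (y * (z * y⁻¹)) := by rw [hzz]; group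
    have hwsq : (w ^ (n + 1)) ^ 2 = w := by
      rw [← pow_mul, mul_comm, pow_mul]
      exact hsq w hwC
    have hzx : z * w ^ (n + 1) * z⁻¹ = (w ^ (n + 1))⁻¹ := by
      rw [← conj_pow, hzw, inv_pow]
    have hc : z * ((w ^ (n + 1))⁻¹ * y) = ((w ^ (n + 1))⁻¹ * y) * z := by
      set x := w ^ (n + 1) with hx
      have e1 : z * x⁻¹ * z⁻¹ = x := by
        have e2 : z * x⁻¹ * z⁻¹ = (z * x * z⁻¹)⁻¹ := by group
        rw [e2, hzx, inv_inv]
      have e3 : z * y * z⁻¹ = w⁻¹ * y := by rw [hw]; group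
      have e4 : z * (x⁻¹ * y) * z⁻¹ = x⁻¹ * y := by
        calc z * (x⁻¹ * y) * z⁻¹ = (z * x⁻¹ * z⁻¹) * (z * y * z⁻¹) := by group
          _ = x * (w⁻¹ * y) := by rw [e1, e3]
          _ = x⁻¹ * y := by rw [← hwsq]; group
      exact mul_inv_eq_iff_eq_mul.1 e4
    refine ⟨⟨⟨w ^ (n + 1), C.pow_mem hwC _, hzx⟩,
      ⟨(w ^ (n + 1))⁻¹ * y, C.mul_mem (C.inv_mem (C.pow_mem hwC _)) hy, hc⟩⟩, ?_⟩
    apply Subtype.ext
    exact mul_inv_cancel_left _ _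
  rw [← Nat.card_prod]
  exact Nat.card_congr (Equiv.ofBijective Φ ⟨hinj, hsurj⟩)

/-- **The choice of `e`.**

Proof. `z = ynorm (2 ^ (a - 1)) g p ∈ P`, `κ = g ^ (2 ^ (a - 1))`, `τ₀ = τ ^ (3 ^ k)`. Let `C` be the
subgroup of all `x ∈ A` with `κ * x = x * κ` and `q * x = x * q` for all `q ∈ P` with `q * e = e * q`.
`z` normalizes `C` (`P` is commutative: `ys_comm`; `z` commutes with `κ`: `D.cen`), as does `τ₀` (it commutes with
`P`: `D.τ0P`, and with `g`). `I = {x ∈ C | z * x * z⁻¹ = x⁻¹}` contains `e`. By `ys_inv_card` its number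
of elements is the index in the 3-group `C` (`C ≤ A`) of the centralizer of `z`, a power of 3, and `> 1` since
`e ≠ 1` (`1 ∈ I`, too). The 3-group `zpowers τ₀` acts on `I` by conjugation (`τ₀` commutes with `z`), so
the number of fixed points is divisible by 3 (`IsPGroup.card_modEq_card_fixedPoints`), and `1` is one: there
is `x ∈ I`, `x ≠ 1`, commuting with `τ₀`. Let `e'` be the power of `x` of order 3
(`x ^ (3 ^ n) = 1`; `e' = x ^ (3 ^ j)` with `j` maximal such that `x ^ (3 ^ j) ≠ 1`). It is in `A`, `≠ 1`,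
inverted by `z`, commutes with `κ`, `τ₀`, and with all `q ∈ P` commuting with `e`: in particular `zie`.
`sg`: if `q ∈ P` inverts `e` then `q * z ∈ P` commutes with `e`, so with `e'`, and `z` inverts `e'`: so `q`
inverts `e'`. The other fields do not contain `e`. -/
theorem ys_tau {m a k : ℕ} (hm : Odd m) (ha : 3 ≤ a) {H : Type} [Group H] [Finite H]
    {P A : Subgroup H} {g τ p e : H} (D : YA m a k P A g τ p e) (hA : IsPGroup 3 A) :
    ∃ e' : H, YA m a k P A g τ p e' ∧ e' ^ 3 = 1 ∧ τ ^ (3 ^ k) * e' = e' * τ ^ (3 ^ k) := by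
  classical
  haveI : Fact (Nat.Prime 3) := ⟨Nat.prime_three⟩
  have hcomm := ys_comm D.sq
  have hzP : ynorm (2 ^ (a - 1)) g p ∈ P := ynorm_mem D.hgP D.hp _
  set z := ynorm (2 ^ (a - 1)) g p with hz
  set κ := g ^ (2 ^ (a - 1)) with hκ
  set τ₀ := τ ^ (3 ^ k) with hτ₀
  have hz2 : z ^ 2 = 1 := D.sq z hzP
  let S : Set H := {κ} ∪ {q | q ∈ P ∧ q * e = e * q}
  let C : Subgroup H := A ⊓ centralizer S
  have hCmem : ∀ x, x ∈ C ↔ x ∈ A ∧ κ * x = x * κ ∧ ∀ q ∈ P, q * e = e * q → q * x = x * q := by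
    intro x
    change x ∈ A ⊓ centralizer S ↔ _
    rw [mem_inf, mem_centralizer_iff]
    constructor
    · rintro ⟨h1, h2⟩
      exact ⟨h1, h2 κ (Or.inl rfl), fun q hq hqe => h2 q (Or.inr ⟨hq, hqe⟩)⟩
    · rintro ⟨h1, h2, h3⟩
      refine ⟨h1, ?_⟩
      rintro q (hq | ⟨hq, hqe⟩)
      · rw [Set.mem_singleton_iff] at hq
        rw [hq]
        exact h2
      · exact h3 q hq hqe
  have hconj : ∀ s t x : H, s * t = t * s → s * x = x * s → s * (t * x * t⁻¹) = (t * x * t⁻¹) * s := by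
    intro s t x h1 h2
    have h1' : Commute s t := h1
    have h2' : Commute s x := h2
    exact ((h1'.mul_right h2').mul_right h1'.inv_right)
  have hzκ : κ * z = z * κ := D.cen z hzP
  have hτκ : κ * τ₀ = τ₀ * κ := by
    have h1 : Commute g τ := D.hgτ
    exact (h1.pow_pow _ _)
  have hzC : ∀ x ∈ C, z * x * z⁻¹ ∈ C := by
    intro x hx
    rw [hCmem] at hx ⊢
    exact ⟨D.hPA z hzP x hx.1, hconj _ _ _ hzκ hx.2.1, fun q hq hqe =>
      hconj _ _ _ (hcomm q hq z hzP) (hx.2.2 q hq hqe)⟩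
  have hτC : ∀ x ∈ C, τ₀ * x * τ₀⁻¹ ∈ C := by
    intro x hx
    rw [hCmem] at hx ⊢
    exact ⟨ys_pow_mem D.hτA _ x hx.1, hconj _ _ _ hτκ hx.2.1, fun q hq hqe =>
      hconj _ _ _ (D.τ0P q hq).symm (hx.2.2 q hq hqe)⟩
  have hCA : C ≤ A := inf_le_left
  have hcard := ys_inv_card hm C (fun x hx => D.hAm x (hCA hx)) hz2 hzC
  have hC3 : IsPGroup 3 C := hA.to_le hCA
  obtain ⟨n, hn⟩ := IsPGroup.iff_card.1 hC3
  rw [hn] at hcard
  obtain ⟨j, -, hj⟩ := (Nat.dvd_prime_pow Nat.prime_three).1 (Dvd.intro _ hcard)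
  have heC : e ∈ C := by
    rw [hCmem]
    exact ⟨D.he, D.κe, fun q _ h => h⟩
  let I : Type := {x : H // x ∈ C ∧ z * x * z⁻¹ = x⁻¹}
  have hI : Nat.card I = 3 ^ j := hj
  haveI : Finite I := inferInstanceAs (Finite {x : H // x ∈ C ∧ z * x * z⁻¹ = x⁻¹})
  have h1I : (1 : H) ∈ C ∧ z * 1 * z⁻¹ = (1 : H)⁻¹ := ⟨C.one_mem, by group⟩
  have hj0 : j ≠ 0 := by
    rintro rfl
    rw [pow_zero] at hI
    rw [Nat.card_eq_one_iff_unique] at hI
    have h2 := hI.1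
    have h3 : (⟨e, heC, D.ze⟩ : I) = ⟨1, h1I⟩ := Subsingleton.elim _ _
    exact D.he1 (congrArg (fun t : I => (t : H)) h3)
  have h3I : 3 ∣ Nat.card I := by
    rw [hI]
    exact dvd_pow_self 3 hj0
  have hτz : τ₀ * z = z * τ₀ := D.τ0P z hzP
  let f : Function.End I := fun x => ⟨τ₀ * x.1 * τ₀⁻¹, hτC _ x.2.1, by
    have e1 : z * (τ₀ * x.1 * τ₀⁻¹) * z⁻¹ = τ₀ * (z * x.1 * z⁻¹) * τ₀⁻¹ := by
      have h2 : z * τ₀ = τ₀ * z := hτz.symm
      have h3 : τ₀⁻¹ * z⁻¹ = z⁻¹ * τ₀⁻¹ := by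
        rw [← mul_inv_rev, ← mul_inv_rev, h2]
      calc z * (τ₀ * x.1 * τ₀⁻¹) * z⁻¹ = (z * τ₀) * x.1 * (τ₀⁻¹ * z⁻¹) := by group
        _ = (τ₀ * z) * x.1 * (z⁻¹ * τ₀⁻¹) := by rw [h2, h3]
        _ = τ₀ * (z * x.1 * z⁻¹) * τ₀⁻¹ := by group
    rw [e1, x.2.2]
    group⟩
  have hf : ∀ (i : ℕ) (x : I), ((f ^ i) x).1 = τ₀ ^ i * x.1 * (τ₀ ^ i)⁻¹ := by
    intro i
    induction i with
    | zero =>
      intro x
      rw [pow_zero, pow_zero, one_mul, inv_one, mul_one]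
      rfl
    | succ i ih =>
      intro x
      have e1 : (f ^ (i + 1)) x = (f ^ i) (f x) := by
        rw [pow_succ]
        rfl
      rw [e1, ih, pow_succ]
      change τ₀ ^ i * (τ₀ * x.1 * τ₀⁻¹) * (τ₀ ^ i)⁻¹ = _
      group
  obtain ⟨l, hl⟩ := D.hτ
  have hf1 : f ^ 3 ^ l = 1 := by
    funext x
    apply Subtype.ext
    rw [hf]
    have e1 : τ₀ ^ 3 ^ l = 1 := by
      rw [hτ₀, ← pow_mul, mul_comm, pow_mul, hl, one_pow]
    rw [e1, one_mul, inv_one, mul_one]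
    rfl
  haveI : Fintype I := Fintype.ofFinite I
  have hmod := Equiv.Perm.card_fixedPoints_modEq hf1
  rw [← Nat.card_eq_fintype_card, ← Nat.card_eq_fintype_card] at hmod
  have h3F : 3 ∣ Nat.card (Function.fixedPoints f) := by
    have h4 := (Nat.modEq_zero_iff_dvd.2 h3I)
    exact Nat.modEq_zero_iff_dvd.1 (hmod.symm.trans h4)
  have hfix1 : Function.IsFixedPt f ⟨1, h1I⟩ := by
    apply Subtype.ext
    change τ₀ * 1 * τ₀⁻¹ = 1
    group
  obtain ⟨x, hxf, hx1⟩ : ∃ x : I, Function.IsFixedPt f x ∧ x.1 ≠ 1 := by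
    by_contra hcon
    push Not at hcon
    have h4 : Nat.card (Function.fixedPoints f) = 1 := by
      rw [Nat.card_eq_one_iff_unique]
      refine ⟨⟨fun u v => ?_⟩, ⟨⟨⟨1, h1I⟩, hfix1⟩⟩⟩
      apply Subtype.ext
      apply Subtype.ext
      rw [hcon u.1 u.2, hcon v.1 v.2]
    rw [h4] at h3F
    omega
  obtain ⟨x, hxC, hxz⟩ := x
  simp only at hx1
  have hxτ : τ₀ * x = x * τ₀ := by
    have h4 := congrArg (fun t : I => (t : H)) hxf
    change τ₀ * x * τ₀⁻¹ = x at h4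
    exact mul_inv_eq_iff_eq_mul.1 h4
  have hex : ∃ n, x ^ (3 ^ n) = 1 := by
    obtain ⟨n, hn⟩ := hC3 ⟨x, hxC⟩
    exact ⟨n, congrArg (fun t : C => (t : H)) hn⟩
  have hspec := Nat.find_spec hex
  obtain ⟨i, hi⟩ : ∃ i, Nat.find hex = i + 1 := by
    apply Nat.exists_eq_succ_of_ne_zero
    intro h0
    rw [h0, pow_zero, pow_one] at hspec
    exact hx1 hspec
  have hmin : x ^ (3 ^ i) ≠ 1 := Nat.find_min hex (by omega)
  rw [hi, pow_succ, pow_mul] at hspec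
  set e' := x ^ (3 ^ i) with he'
  have he'C : e' ∈ C := C.pow_mem hxC _
  obtain ⟨he'A, he'κ, he'q⟩ := (hCmem e').1 he'C
  have hze' : z * e' * z⁻¹ = e'⁻¹ := by
    rw [he', ← conj_pow, hxz, inv_pow]
  have hτe' : τ₀ * e' = e' * τ₀ := by
    have h4 : Commute τ₀ x := hxτ
    exact h4.pow_right _
  refine ⟨e', ?_, hspec, hτe'⟩
  refine { D with he := he'A, he1 := hmin, sg := ?_, κe := he'κ, ze := hze', zie := ?_ }
  · intro q hq
    rcases D.sg q hq with h | h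
    · left
      rw [he'q q hq (mul_inv_eq_iff_eq_mul.1 h), mul_inv_cancel_right]
    · right
      have h4 : (q * z) * e = e * (q * z) := by
        have h5 : q * z * e * (q * z)⁻¹ = e := by
          calc q * z * e * (q * z)⁻¹ = q * (z * e * z⁻¹) * q⁻¹ := by group
            _ = q * e⁻¹ * q⁻¹ := by rw [D.ze]
            _ = (q * e * q⁻¹)⁻¹ := by group
            _ = e := by rw [h, inv_inv]
        exact mul_inv_eq_iff_eq_mul.1 h5
      have h6 := he'q (q * z) (P.mul_mem hq hzP) h4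
      have h7 : q * (z * e' * z⁻¹) * q⁻¹ = e' := by
        calc q * (z * e' * z⁻¹) * q⁻¹ = (q * z) * e' * (q * z)⁻¹ := by group
          _ = e' := by rw [h6, mul_inv_cancel_right]
      rw [hze'] at h7
      calc q * e' * q⁻¹ = (q * e'⁻¹ * q⁻¹)⁻¹ := by group
        _ = e'⁻¹ := by rw [h7]
  · intro i' hi0 hi3
    exact he'q _ (ys_pow_mem D.hτP i' z hzP) (D.zie i' hi0 hi3)

end Pool.Agent.Lib.MP_544bd1_al
end

section

/-!
Theorem Z (paper 287), 4.2: basic relations for the conjugates `e_l^{(i)}`.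
-/

namespace Pool.Agent.Lib.MP_544bd1_al

open Subgroup

variable {m a k : ℕ} {H : Type} [Group H] {P A : Subgroup H} {g τ p e : H}

/-- the inverse of an element of finite order normalizing `P` normalizes `P` -/
private theorem yrel_inv_mem {B : Subgroup H} {h : H} {n : ℕ} (hn : 0 < n) (hh : h ^ n = 1)
    (hB : ∀ x ∈ B, h * x * h⁻¹ ∈ B) (i : ℕ) : ∀ x ∈ B, (h ^ i)⁻¹ * x * h ^ i ∈ B := by
  have h1 : h⁻¹ = h ^ (n - 1) := by
    rw [inv_eq_iff_mul_eq_one, ← pow_succ', Nat.sub_add_cancel hn, hh]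
  have h2 : ∀ x ∈ B, h⁻¹ * x * h⁻¹⁻¹ ∈ B := by
    intro x hx
    rw [h1]
    exact ys_pow_mem hB _ x hx
  intro x hx
  have h3 := ys_pow_mem h2 i x hx
  rwa [inv_pow, inv_inv] at h3

private theorem yrel_conj (t x : H) (y : H) : t * (y * x * y⁻¹) * t⁻¹ = (t * y) * x * (t * y)⁻¹ := by
  group

/-- conjugation by `g` (`g` and `τ` commute) -/
theorem yE_g (hgτ : g * τ = τ * g) (i l : ℕ) :
    g * yE g τ e i l * g⁻¹ = yE g τ e i (l + 1) := by
  have h1 : Commute g τ := hgτ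
  have h2 : g * (τ ^ i * g ^ l) = τ ^ i * g ^ (l + 1) := by
    rw [← mul_assoc, (h1.pow_right i).eq, mul_assoc, ← pow_succ']
  unfold yE
  rw [yrel_conj, h2]

/-- conjugation by `τ` -/
theorem yE_τ (i l : ℕ) : τ * yE g τ e i l * τ⁻¹ = yE g τ e (i + 1) l := by
  unfold yE
  rw [yrel_conj, ← mul_assoc, ← pow_succ']

/-- the elements are in `A` -/
theorem YA.mem (D : YA m a k P A g τ p e) (i l : ℕ) : yE g τ e i l ∈ A := by
  unfold yE
  rw [← yrel_conj]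
  exact ys_pow_mem D.hτA i _ (ys_pow_mem D.hgA l e D.he)

/-- signs. Proof: `q' = (τ ^ i * g ^ l)⁻¹ * q * (τ ^ i * g ^ l) ∈ P` (`g`, `τ` have finite order, so
their inverses normalize `P` as well: powers), and `D.sg` for `q'`. -/
theorem YA.sgn (D : YA m a k P A g τ p e) {q : H} (hq : q ∈ P) (i l : ℕ) :
    q * yE g τ e i l * q⁻¹ = yE g τ e i l ∨ q * yE g τ e i l * q⁻¹ = (yE g τ e i l)⁻¹ := by
  obtain ⟨j, hj⟩ := D.hτ
  have h1 := yrel_inv_mem (pow_pos three_pos j) hj D.hτP i q hq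
  have h2 := yrel_inv_mem (pow_pos two_pos a) D.hg D.hgP l _ h1
  set t := τ ^ i * g ^ l with ht
  have h3 : (g ^ l)⁻¹ * ((τ ^ i)⁻¹ * q * τ ^ i) * g ^ l = t⁻¹ * q * t := by
    rw [ht]; group
  rw [h3] at h2
  have h4 : q * yE g τ e i l * q⁻¹ = t * ((t⁻¹ * q * t) * e * (t⁻¹ * q * t)⁻¹) * t⁻¹ := by
    unfold yE
    rw [← ht]
    group
  rw [h4]
  rcases D.sg _ h2 with h | h
  · left
    rw [h]
    rfl
  · right
    rw [h]
    unfold yE
    rw [← ht]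
    group

/-- `κ = g ^ (2 ^ (a - 1))` commutes with the `e_l^{(i)}` (it commutes with `g`, `τ`, `e`) -/
theorem YA.kap (D : YA m a k P A g τ p e) (i l : ℕ) :
    g ^ (2 ^ (a - 1)) * yE g τ e i l = yE g τ e i l * g ^ (2 ^ (a - 1)) := by
  have h1 : Commute g τ := D.hgτ
  have h2 : Commute (g ^ (2 ^ (a - 1))) (τ ^ i * g ^ l) :=
    (h1.pow_pow _ _).mul_right (Commute.pow_pow_self g _ _)
  have h3 : Commute (g ^ (2 ^ (a - 1))) e := D.κe
  exact ((h2.mul_right h3).mul_right h2.inv_right).eq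

/-- `τ ^ (3 ^ k)` commutes with the `e_l^{(i)}` -/
theorem YA.tau0 (D : YA m a k P A g τ p e)
    (hτe : τ ^ (3 ^ k) * e = e * τ ^ (3 ^ k)) (i l : ℕ) :
    τ ^ (3 ^ k) * yE g τ e i l = yE g τ e i l * τ ^ (3 ^ k) := by
  have h1 : Commute τ g := D.hgτ.symm
  have h2 : Commute (τ ^ (3 ^ k)) (τ ^ i * g ^ l) :=
    (Commute.pow_pow_self τ _ _).mul_right (h1.pow_pow _ _)
  have h3 : Commute (τ ^ (3 ^ k)) e := hτe
  exact ((h2.mul_right h3).mul_right h2.inv_right).eq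

/-- the index `i` matters modulo `3 ^ k` only -/
theorem YA.mod (D : YA m a k P A g τ p e)
    (hτe : τ ^ (3 ^ k) * e = e * τ ^ (3 ^ k)) (i l : ℕ) :
    yE g τ e i l = yE g τ e (i % 3 ^ k) l := by
  have h1 : Commute (τ ^ (3 ^ k)) (yE g τ e (i % 3 ^ k) l) := D.tau0 hτe _ _
  have h2 : Commute ((τ ^ (3 ^ k)) ^ (i / 3 ^ k)) (yE g τ e (i % 3 ^ k) l) := h1.pow_left _
  have h3 : τ ^ i = (τ ^ (3 ^ k)) ^ (i / 3 ^ k) * τ ^ (i % 3 ^ k) := by
    rw [← pow_mul, ← pow_add, Nat.div_add_mod]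
  have h4 : yE g τ e i l = (τ ^ (3 ^ k)) ^ (i / 3 ^ k) * yE g τ e (i % 3 ^ k) l *
      ((τ ^ (3 ^ k)) ^ (i / 3 ^ k))⁻¹ := by
    unfold yE
    rw [yrel_conj, h3]
    simp only [mul_assoc]
  rw [h4, h2.eq, mul_inv_cancel_right]

/-- `z_i = τ ^ i * z * (τ ^ i)⁻¹` is in `P`, commutes with `g` (`ynorm_comm`, `ys_comm`) and is the norm of
`p_i = τ ^ i * p * (τ ^ i)⁻¹` (`ynorm_conj`) -/
theorem YA.zi (D : YA m a k P A g τ p e) (i : ℕ) :
    τ ^ i * ynorm (2 ^ (a - 1)) g p * (τ ^ i)⁻¹ ∈ P ∧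
    g * (τ ^ i * ynorm (2 ^ (a - 1)) g p * (τ ^ i)⁻¹) =
      (τ ^ i * ynorm (2 ^ (a - 1)) g p * (τ ^ i)⁻¹) * g ∧
    τ ^ i * ynorm (2 ^ (a - 1)) g p * (τ ^ i)⁻¹ =
      ynorm (2 ^ (a - 1)) g (τ ^ i * p * (τ ^ i)⁻¹) := by
  have hzP : ynorm (2 ^ (a - 1)) g p ∈ P := ynorm_mem D.hgP D.hp _
  have h1 : Commute g τ := D.hgτ
  have h2 : Commute g (τ ^ i) := h1.pow_right i
  have h3 : Commute g (ynorm (2 ^ (a - 1)) g p) :=
    ynorm_comm D.hgP (ys_comm D.sq) D.hp (D.cen p D.hp)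
  exact ⟨ys_pow_mem D.hτP i _ hzP, ((h2.mul_right h3).mul_right h2.inv_right).eq,
    ynorm_conj _ h2.eq⟩

/-- `z_i` inverts the `e_l^{(i)}`: `z` commutes with `g` and inverts `e` -/
theorem YA.zinv (D : YA m a k P A g τ p e) (i l : ℕ) :
    (τ ^ i * ynorm (2 ^ (a - 1)) g p * (τ ^ i)⁻¹) * yE g τ e i l *
      (τ ^ i * ynorm (2 ^ (a - 1)) g p * (τ ^ i)⁻¹)⁻¹ = (yE g τ e i l)⁻¹ := by
  have h3 : Commute (ynorm (2 ^ (a - 1)) g p) g :=
    (ynorm_comm D.hgP (ys_comm D.sq) D.hp (D.cen p D.hp)).symm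
  have h4 := (h3.pow_right l).eq
  have hze := D.ze
  set z := ynorm (2 ^ (a - 1)) g p with hz
  have h5 : (τ ^ i * z * (τ ^ i)⁻¹) * (τ ^ i * g ^ l) = (τ ^ i * g ^ l) * z := by
    calc (τ ^ i * z * (τ ^ i)⁻¹) * (τ ^ i * g ^ l) = τ ^ i * (z * g ^ l) := by group
      _ = (τ ^ i * g ^ l) * z := by rw [h4, mul_assoc]
  unfold yE
  rw [yrel_conj, h5, ← yrel_conj, hze]
  group

/-- `z_j` commutes with the `e_l^{(i)}`, `i ≠ j`. Proof: conjugating by `(τ ^ i * g ^ l)⁻¹` this says that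
`z_{j - i}` commutes with `e`, `j - i` modulo `3 ^ k` (`τ ^ (3 ^ k)` commutes with `z ∈ P`), `D.zie`. -/
theorem YA.zcom (D : YA m a k P A g τ p e) {i j : ℕ} (hi : i < 3 ^ k) (hj : j < 3 ^ k)
    (hij : i ≠ j) (l : ℕ) :
    (τ ^ j * ynorm (2 ^ (a - 1)) g p * (τ ^ j)⁻¹) * yE g τ e i l =
      yE g τ e i l * (τ ^ j * ynorm (2 ^ (a - 1)) g p * (τ ^ j)⁻¹) := by
  have hzP : ynorm (2 ^ (a - 1)) g p ∈ P := ynorm_mem D.hgP D.hp _
  have hτz : Commute (τ ^ (3 ^ k)) (ynorm (2 ^ (a - 1)) g p) := D.τ0P _ hzP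
  obtain ⟨d, hd0, hd3, hd⟩ : ∃ d, 0 < d ∧ d < 3 ^ k ∧
      τ ^ i * (τ ^ d * ynorm (2 ^ (a - 1)) g p * (τ ^ d)⁻¹) * (τ ^ i)⁻¹ =
        τ ^ j * ynorm (2 ^ (a - 1)) g p * (τ ^ j)⁻¹ := by
    rcases lt_or_gt_of_ne hij with h | h
    · refine ⟨j - i, by omega, by omega, ?_⟩
      rw [yrel_conj, ← pow_add, Nat.add_sub_cancel' h.le]
    · refine ⟨3 ^ k + j - i, by omega, by omega, ?_⟩
      have h1 : i + (3 ^ k + j - i) = j + 3 ^ k := by omega
      rw [yrel_conj, ← pow_add, h1, pow_add, ← yrel_conj, hτz.eq, mul_inv_cancel_right]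
  have hc1 : Commute (τ ^ d * ynorm (2 ^ (a - 1)) g p * (τ ^ d)⁻¹) e := D.zie d hd0 hd3
  have hc2 : Commute (τ ^ d * ynorm (2 ^ (a - 1)) g p * (τ ^ d)⁻¹) (g ^ l) :=
    (show Commute g _ from (D.zi d).2.1).symm.pow_right l
  have hc3 : Commute (τ ^ d * ynorm (2 ^ (a - 1)) g p * (τ ^ d)⁻¹)
      (g ^ l * e * (g ^ l)⁻¹) := (hc2.mul_right hc1).mul_right hc2.inv_right
  have h5 : yE g τ e i l = τ ^ i * (g ^ l * e * (g ^ l)⁻¹) * (τ ^ i)⁻¹ := by
    unfold yE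
    rw [yrel_conj]
  rw [← hd, h5]
  set w := τ ^ d * ynorm (2 ^ (a - 1)) g p * (τ ^ d)⁻¹
  set v := g ^ l * e * (g ^ l)⁻¹
  calc τ ^ i * w * (τ ^ i)⁻¹ * (τ ^ i * v * (τ ^ i)⁻¹) = τ ^ i * (w * v) * (τ ^ i)⁻¹ := by group
    _ = τ ^ i * (v * w) * (τ ^ i)⁻¹ := by rw [hc3.eq]
    _ = τ ^ i * v * (τ ^ i)⁻¹ * (τ ^ i * w * (τ ^ i)⁻¹) := by group

/-- `z_i` commutes with the commutators of `A` (`D.cz` and conjugation by `τ ^ i`; `τ` has finite
order, so `τ⁻¹` normalizes `A` as well) -/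
theorem YA.czi (D : YA m a k P A g τ p e) (i : ℕ) : ∀ x ∈ A, ∀ y ∈ A,
    (τ ^ i * ynorm (2 ^ (a - 1)) g p * (τ ^ i)⁻¹) * (x * y * x⁻¹ * y⁻¹) =
      x * y * x⁻¹ * y⁻¹ * (τ ^ i * ynorm (2 ^ (a - 1)) g p * (τ ^ i)⁻¹) := by
  intro x hx y hy
  obtain ⟨j, hj⟩ := D.hτ
  have h1 := yrel_inv_mem (pow_pos three_pos j) hj D.hτA i x hx
  have h2 := yrel_inv_mem (pow_pos three_pos j) hj D.hτA i y hy
  have h3 := D.cz _ h1 _ h2
  set z := ynorm (2 ^ (a - 1)) g p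
  set t := τ ^ i
  have h4 : (t⁻¹ * x * t) * (t⁻¹ * y * t) * (t⁻¹ * x * t)⁻¹ * (t⁻¹ * y * t)⁻¹ =
      t⁻¹ * (x * y * x⁻¹ * y⁻¹) * t := by group
  rw [h4] at h3
  calc t * z * t⁻¹ * (x * y * x⁻¹ * y⁻¹) = t * (z * (t⁻¹ * (x * y * x⁻¹ * y⁻¹) * t)) * t⁻¹ := by
        group
    _ = t * (t⁻¹ * (x * y * x⁻¹ * y⁻¹) * t * z) * t⁻¹ := by rw [h3]
    _ = x * y * x⁻¹ * y⁻¹ * (t * z * t⁻¹) := by group

end Pool.Agent.Lib.MP_544bd1_al
end

section

/-!
Theorem Z (paper 287), 4.2: the relations.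
-/

namespace Pool.Agent.Lib.MP_544bd1_al

open Subgroup

variable {m a k : ℕ} {H : Type} [Group H] {P A : Subgroup H} {g τ p e : H}

/-- an element of odd order which is its own inverse is trivial -/
private theorem zrel_odd (hm : Odd m) {d : H} (h1 : d ^ m = 1) (h2 : d = d⁻¹) : d = 1 := by
  obtain ⟨n, rfl⟩ := hm
  have h3 : d ^ 2 = 1 := by
    rw [pow_two]
    nth_rewrite 2 [h2]
    exact mul_inv_cancel d
  rw [pow_succ, pow_mul, h3, one_pow, one_mul] at h1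
  exact h1

private theorem zrel_clos {S : Set H} {t : H} {B : Subgroup H} (h : ∀ x ∈ S, t * x * t⁻¹ ∈ B) :
    ∀ r ∈ closure S, t * r * t⁻¹ ∈ B := by
  intro r hr
  have h1 : closure S ≤ B.comap (MulAut.conj t).toMonoidHom := by
    rw [closure_le]
    intro x hx
    exact h x hx
  exact h1 hr

private theorem zrel_cen {S : Set H} {t : H} (h : ∀ x ∈ S, t * x = x * t) :
    ∀ r ∈ closure S, t * r = r * t := by
  intro r hr
  induction hr using closure_induction with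
  | mem x hx => exact h x hx
  | one => simp
  | mul x y _ _ hx hy => exact (Commute.mul_right (a := t) hx hy).eq
  | inv x _ hx => exact (Commute.inv_right (a := t) hx).eq

/-- Proof. `z = z_0` inverts `e` (`D.ze`) and commutes with `x = yE g τ e i l` (`YA.zcom`, `j = 0`). Let
`d = e * x * e⁻¹ * x⁻¹`; `z * d * z⁻¹ = e⁻¹ * x * e * x⁻¹ = d⁻¹` (class 2: `D.cl`), and `z` commutes with
`d` (`D.cz`); so `d ^ 2 = 1`, `d ^ m = 1`, `d = 1`. -/
theorem YA.com0 (hm : Odd m) (D : YA m a k P A g τ p e) {i : ℕ} (hi0 : 0 < i) (hi : i < 3 ^ k)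
    (l : ℕ) : e * yE g τ e i l = yE g τ e i l * e := by
  have hxA := D.mem i l
  have hcz := D.cz e D.he _ hxA
  have hcl := D.cl e D.he _ hxA
  have hzc := D.zcom (i := i) (j := 0) hi (by positivity) (by omega) l
  have hze := D.ze
  rw [pow_zero, one_mul, inv_one, mul_one] at hzc
  have hdA : e * yE g τ e i l * e⁻¹ * (yE g τ e i l)⁻¹ ∈ A :=
    A.mul_mem (A.mul_mem (A.mul_mem D.he hxA) (A.inv_mem D.he)) (A.inv_mem hxA)
  have hdm := D.hAm _ hdA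
  set x := yE g τ e i l with hx
  set z := ynorm (2 ^ (a - 1)) g p with hz
  set d := e * x * e⁻¹ * x⁻¹ with hd
  have hzx : z * x * z⁻¹ = x := by rw [hzc, mul_inv_cancel_right]
  have h1 : z * d * z⁻¹ = d := by rw [hcz, mul_inv_cancel_right]
  have h2 : z * d * z⁻¹ = (z * e * z⁻¹) * (z * x * z⁻¹) * (z * e * z⁻¹)⁻¹ * (z * x * z⁻¹)⁻¹ := by
    rw [hd]; group
  rw [hze, hzx, h1, inv_inv] at h2
  have h3 : d⁻¹ * e⁻¹ = e⁻¹ * d⁻¹ := by
    have h4 := hcl e D.he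
    rw [← mul_inv_rev, ← mul_inv_rev, h4]
  have h5 : e⁻¹ * x * e * x⁻¹ = d⁻¹ := by
    calc e⁻¹ * x * e * x⁻¹ = e⁻¹ * d⁻¹ * e := by rw [hd]; group
      _ = d⁻¹ * e⁻¹ * e := by rw [h3]
      _ = d⁻¹ := by rw [inv_mul_cancel_right]
  rw [h5] at h2
  have h6 : d = 1 := zrel_odd hm hdm h2
  have h7 : e * x = d * (x * e) := by rw [hd]; group
  rw [h7, h6, one_mul]

/-- Proof. `h = 2 ^ (a - 2)`, `y = g ^ h`, `e' = y * e * y⁻¹`, `c = e * e' * e⁻¹ * e'⁻¹`,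
`p_i = τ ^ i * p * (τ ^ i)⁻¹ ∈ P`, `π = ynorm h g p_i ∈ P` (`ynorm_mem`). `(p_i * g) ^ h = π * y`
(`ynorm_pow`). `y * c * y⁻¹ = c⁻¹` since `y * e' * y⁻¹ = κ * e * κ⁻¹ = e` (`y ^ 2 = κ`, `D.κe`). `z_i =
ynorm (h + h) g p_i = π * (y * π * y⁻¹)` (`ynorm_add`) commutes with `e` (`D.zie`), so `π` and
`y * π * y⁻¹ = y⁻¹ * π * y` (`y ^ 2 = κ` commutes with `π`: `D.cen`) have the same sign on `e` (`D.sg`; `e ≠ e⁻¹`
as `e` is odd, `≠ 1`), i.e. `π` has the same sign on `e` and `e'`; so it commutes with `c` (`(e⁻¹) * (e'⁻¹) * e *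
e' = c` by class 2, `D.cl`). -/
theorem YA.gam0 (hm : Odd m) (ha : 3 ≤ a) (D : YA m a k P A g τ p e) {e' c : H}
    (he' : e' = g ^ (2 ^ (a - 2)) * e * (g ^ (2 ^ (a - 2)))⁻¹) (hc : c = e * e' * e⁻¹ * e'⁻¹)
    {i : ℕ} (hi0 : 0 < i) (hi : i < 3 ^ k) :
    (τ ^ i * p * (τ ^ i)⁻¹ * g) ^ (2 ^ (a - 2)) * c *
      ((τ ^ i * p * (τ ^ i)⁻¹ * g) ^ (2 ^ (a - 2)))⁻¹ = c⁻¹ := by
  obtain ⟨n, rfl⟩ : ∃ n, a = n + 2 := ⟨a - 2, by omega⟩
  have e1 : n + 2 - 2 = n := by omega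
  have e2 : n + 2 - 1 = n + 1 := by omega
  rw [e1] at he' ⊢
  have hpi : τ ^ i * p * (τ ^ i)⁻¹ ∈ P := ys_pow_mem D.hτP i p D.hp
  have hzi := (D.zi i).2.2
  have hzie := D.zie i hi0 hi
  rw [hzi] at hzie
  have hκe := D.κe
  rw [e2] at hzie hκe
  have h2h : 2 ^ (n + 1) = 2 ^ n + 2 ^ n := by ring
  rw [h2h, ynorm_add] at hzie
  have hyy : g ^ 2 ^ (n + 1) = g ^ 2 ^ n * g ^ 2 ^ n := by rw [← pow_add, h2h]
  rw [hyy] at hκe
  have hcen := D.cen
  rw [e2, hyy] at hcen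
  have hyA := ys_pow_mem D.hgA (2 ^ n) e D.he
  rw [← he'] at hyA
  have hπ := ynorm_mem D.hgP hpi (2 ^ n)
  have hπ' := ys_pow_mem D.hgP (2 ^ n) _ hπ
  have hsg := D.sg _ hπ
  have hsg' := D.sg _ hπ'
  have hcπ := hcen _ hπ
  rw [ynorm_pow]
  set π := ynorm (2 ^ n) g (τ ^ i * p * (τ ^ i)⁻¹) with hπd
  set y := g ^ 2 ^ n with hy
  have hne : e ≠ e⁻¹ := fun h => D.he1 (zrel_odd hm (D.hAm e D.he) h)
  have hye' : y * e' * y⁻¹ = e := by
    rw [he']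
    calc y * (y * e * y⁻¹) * y⁻¹ = y * y * e * (y * y)⁻¹ := by group
      _ = e := by rw [hκe, mul_inv_cancel_right]
  have hyc : y * c * y⁻¹ = c⁻¹ := by
    calc y * c * y⁻¹ = (y * e * y⁻¹) * (y * e' * y⁻¹) * (y * e * y⁻¹)⁻¹ * (y * e' * y⁻¹)⁻¹ := by
          rw [hc]; group
      _ = e' * e * e'⁻¹ * e⁻¹ := by rw [hye', ← he']
      _ = c⁻¹ := by rw [hc]; group
  have hyπ : y⁻¹ * π * y = y * π * y⁻¹ := by
    calc y⁻¹ * π * y = y⁻¹ * (π * (y * y)) * y⁻¹ := by group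
      _ = y⁻¹ * (y * y * π) * y⁻¹ := by rw [hcπ]
      _ = y * π * y⁻¹ := by group
  have hcomm : π * (y * π * y⁻¹) * e * (π * (y * π * y⁻¹))⁻¹ = e := by
    rw [hzie, mul_inv_cancel_right]
  have hcomm2 : π * ((y * π * y⁻¹) * e * (y * π * y⁻¹)⁻¹) * π⁻¹ = e := by
    calc π * ((y * π * y⁻¹) * e * (y * π * y⁻¹)⁻¹) * π⁻¹
        = π * (y * π * y⁻¹) * e * (π * (y * π * y⁻¹))⁻¹ := by group
      _ = e := hcomm
  have hπe' : π * e' * π⁻¹ = y * ((y * π * y⁻¹) * e * (y * π * y⁻¹)⁻¹) * y⁻¹ := by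
    rw [← hyπ, he']
    group
  have hcl := D.cl e D.he e' hyA
  rw [← hc] at hcl
  have hπc : π * c * π⁻¹ = c := by
    rcases hsg' with h | h
    · rw [h] at hcomm2 hπe'
      rw [← he'] at hπe'
      calc π * c * π⁻¹ = (π * e * π⁻¹) * (π * e' * π⁻¹) * (π * e * π⁻¹)⁻¹ * (π * e' * π⁻¹)⁻¹ := by
            rw [hc]; group
        _ = c := by rw [hcomm2, hπe', hc]
    · rw [h] at hcomm2 hπe'
      have h3 : π * e * π⁻¹ = e⁻¹ := by
        calc π * e * π⁻¹ = (π * e⁻¹ * π⁻¹)⁻¹ := by group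
          _ = e⁻¹ := by rw [hcomm2]
      have h4 : π * e' * π⁻¹ = e'⁻¹ := by
        rw [hπe', he']; group
      calc π * c * π⁻¹ = (π * e * π⁻¹) * (π * e' * π⁻¹) * (π * e * π⁻¹)⁻¹ * (π * e' * π⁻¹)⁻¹ := by
            rw [hc]; group
        _ = e⁻¹ * e'⁻¹ * e⁻¹⁻¹ * e'⁻¹⁻¹ := by rw [h3, h4]
        _ = (e' * e)⁻¹ * (c * (e' * e)) := by rw [hc]; group
        _ = (e' * e)⁻¹ * ((e' * e) * c) := by rw [hcl _ (A.mul_mem hyA D.he)]
        _ = c := by group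
  calc π * y * c * (π * y)⁻¹ = π * (y * c * y⁻¹) * π⁻¹ := by group
    _ = (π * c * π⁻¹)⁻¹ := by rw [hyc]; group
    _ = c⁻¹ := by rw [hπc]

/-- **The relations.** `R = closure {e_l^{(i)}}`, `γ i = p_i * g`.

Proof. `R ≤ A` (`YA.mem`); `hR3`, `cl` from `A`. `hgR`, `hτR`: `yE_g`, `yE_τ` (closure induction). `κR`, `τR`:
`YA.kap`, `YA.tau0`. `hγR`: `γ i = p_i * g`, `p_i ∈ P`: `yE_g` and `YA.sgn`. `he`: `yE g τ e 0 0 = e`.
`com`: for `i = 0` it is `hstr`, for `i > 0` `YA.com0`. `gen`: `YA.mod`. `γE`: `γ i ^ (2 ^ (a - 1)) =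
z_i * κ` (`ynorm_pow`, `YA.zi`), `YA.kap`, `YA.zinv`. `γB`: `yE_g` and `YA.sgn`. `γc`: `closure ≤ A`,
`YA.czi`, and `κ` commutes with the closure (`YA.kap`). `γ0`: `YA.gam0`. -/
theorem ys_rel (hm : Odd m) (ha : 3 ≤ a) (D : YA m a k P A g τ p e) (hA : IsPGroup 3 A)
    (he3 : e ^ 3 = 1) (hτe : τ ^ (3 ^ k) * e = e * τ ^ (3 ^ k))
    (hstr : ∀ l, 0 < l → l < 2 ^ (a - 1) → l ≠ 2 ^ (a - 2) →
      e * (g ^ l * e * (g ^ l)⁻¹) = (g ^ l * e * (g ^ l)⁻¹) * e) {e' c : H}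
    (he' : e' = g ^ (2 ^ (a - 2)) * e * (g ^ (2 ^ (a - 2)))⁻¹) (hc : c = e * e' * e⁻¹ * e'⁻¹) :
    YR a k (closure {x | ∃ i l, x = yE g τ e i l}) g τ e e' c
      (fun i => τ ^ i * p * (τ ^ i)⁻¹ * g) := by
  have hRA : closure {x | ∃ i l, x = yE g τ e i l} ≤ A := by
    rw [closure_le]
    rintro x ⟨i, l, rfl⟩
    exact D.mem i l
  have hBA : ∀ i, closure {x | ∃ l, x = yE g τ e i l} ≤ A := by
    intro i
    rw [closure_le]
    rintro x ⟨l, rfl⟩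
    exact D.mem i l
  have hpi : ∀ i, τ ^ i * p * (τ ^ i)⁻¹ ∈ P := fun i => ys_pow_mem D.hτP i p D.hp
  have hsgn : ∀ (S : Set H) (q : H), q ∈ P → ∀ j l, yE g τ e j (l + 1) ∈ S →
      (q * g) * yE g τ e j l * (q * g)⁻¹ ∈ closure S := by
    intro S q hq j l hS
    have h1 : (q * g) * yE g τ e j l * (q * g)⁻¹ = q * (g * yE g τ e j l * g⁻¹) * q⁻¹ := by group
    rw [h1, yE_g D.hgτ]
    rcases D.sgn hq j (l + 1) with h | h
    · rw [h]; exact subset_closure hS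
    · rw [h]; exact inv_mem (subset_closure hS)
  have hγz : ∀ i, (τ ^ i * p * (τ ^ i)⁻¹ * g) ^ (2 ^ (a - 1)) =
      (τ ^ i * ynorm (2 ^ (a - 1)) g p * (τ ^ i)⁻¹) * g ^ (2 ^ (a - 1)) := by
    intro i
    rw [ynorm_pow, (D.zi i).2.2]
  refine
    { hR3 := hA.to_le hRA
      hgR := ?_
      hτR := ?_
      hγR := ?_
      κR := ?_
      τR := ?_
      he := ?_
      he3 := he3
      he' := he'
      hc := hc
      cl := fun x hx y hy w hw => D.cl x (hRA hx) y (hRA hy) w (hRA hw)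
      com := ?_
      gen := ?_
      γE := ?_
      γB := ?_
      γc := ?_
      γ0 := fun i h0 hi => D.gam0 hm ha he' hc h0 hi }
  · apply zrel_clos
    rintro x ⟨i, l, rfl⟩
    rw [yE_g D.hgτ]
    exact subset_closure ⟨i, l + 1, rfl⟩
  · apply zrel_clos
    rintro x ⟨i, l, rfl⟩
    rw [yE_τ]
    exact subset_closure ⟨i + 1, l, rfl⟩
  · intro i _
    apply zrel_clos
    rintro x ⟨j, l, rfl⟩
    exact hsgn _ _ (hpi i) j l ⟨j, l + 1, rfl⟩
  · apply zrel_cen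
    rintro x ⟨i, l, rfl⟩
    exact D.kap i l
  · apply zrel_cen
    rintro x ⟨i, l, rfl⟩
    exact D.tau0 hτe i l
  · exact subset_closure ⟨0, 0, by simp [yE]⟩
  · intro i l hi hl hn
    rcases Nat.eq_zero_or_pos i with h0 | h0
    · subst h0
      have h1 := hstr l (by omega) hl (by omega)
      have h2 : yE g τ e 0 l = g ^ l * e * (g ^ l)⁻¹ := by
        simp [yE]
      rw [h2]
      exact h1
    · exact D.com0 hm h0 hi l
  · rw [closure_le]
    rintro x ⟨i, l, rfl⟩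
    exact subset_closure ⟨i % 3 ^ k, l, Nat.mod_lt _ (by positivity), D.mod hτe i l⟩
  · intro i _ l
    have h1 := D.kap i l
    have h2 := D.zinv i l
    change (τ ^ i * p * (τ ^ i)⁻¹ * g) ^ (2 ^ (a - 1)) * yE g τ e i l *
      ((τ ^ i * p * (τ ^ i)⁻¹ * g) ^ (2 ^ (a - 1)))⁻¹ = _
    rw [hγz]
    set z := τ ^ i * ynorm (2 ^ (a - 1)) g p * (τ ^ i)⁻¹
    set κ := g ^ (2 ^ (a - 1))
    set x := yE g τ e i l
    calc z * κ * x * (z * κ)⁻¹ = z * (κ * x * κ⁻¹) * z⁻¹ := by group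
      _ = z * x * z⁻¹ := by rw [h1, mul_inv_cancel_right]
      _ = x⁻¹ := h2
  · intro i _ l
    exact hsgn _ _ (hpi i) i l ⟨l + 1, rfl⟩
  · intro i _ x hx y hy
    have h1 := D.czi i x (hBA i hx) y (hBA i hy)
    have h2 : ∀ r ∈ closure {x | ∃ l, x = yE g τ e i l},
        g ^ (2 ^ (a - 1)) * r = r * g ^ (2 ^ (a - 1)) := by
      apply zrel_cen
      rintro x ⟨l, rfl⟩
      exact D.kap i l
    have h3 := h2 _ (mul_mem (mul_mem (mul_mem hx hy) (inv_mem hx)) (inv_mem hy))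
    change (τ ^ i * p * (τ ^ i)⁻¹ * g) ^ (2 ^ (a - 1)) * _ =
      _ * (τ ^ i * p * (τ ^ i)⁻¹ * g) ^ (2 ^ (a - 1))
    rw [hγz, mul_assoc, h3, ← mul_assoc, h1, mul_assoc]

end Pool.Agent.Lib.MP_544bd1_al
end

section

/-!
Theorem Z (paper 287), 4.2: the minimal odd section.
-/

namespace Pool.Agent.Lib.MP_544bd1_al

open Subgroup

/-- assembly of the fields of `YA` -/
private theorem zs42_YA {m a k : ℕ} {F : Type} [Group F] {P' : Subgroup F} {g τ p : F}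
    (D : YPr m a k P' g τ p) (hτ0 : ∀ x ∈ P', τ ^ (3 ^ k) * x = x * τ ^ (3 ^ k)) {r : ℕ}
    {S A : Subgroup (ZH m a F)} {z e : ZH m a F} (hA : ZMinA m r S A z)
    (hPS : ∀ x ∈ P', zp m a F x ∈ S) (hgS : zp m a F g ∈ S) (hτS : zp m a F τ ∈ S)
    (hz : z = zp m a F (ynorm (2 ^ (a - 1)) g p)) (heA : e ∈ A) (he1 : e ≠ 1)
    (hze : z * e * z⁻¹ = e⁻¹)
    (sg : ∀ x ∈ P', zp m a F x * e * (zp m a F x)⁻¹ = e ∨ zp m a F x * e * (zp m a F x)⁻¹ = e⁻¹)
    (hκe : zp m a F (g ^ (2 ^ (a - 1))) * e = e * zp m a F (g ^ (2 ^ (a - 1))))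
    (hzie : ∀ i, 0 < i → i < 3 ^ k → zp m a F (τ ^ i * ynorm (2 ^ (a - 1)) g p * (τ ^ i)⁻¹) * e =
      e * zp m a F (τ ^ i * ynorm (2 ^ (a - 1)) g p * (τ ^ i)⁻¹)) :
    YA m a k (P'.map (zp m a F)) A (zp m a F g) (zp m a F τ) (zp m a F p) e where
  sq := by
    rintro _ ⟨x, hx, rfl⟩
    rw [← map_pow, D.sq x hx, map_one]
  hp := mem_map_of_mem _ D.hp
  hg := by rw [← map_pow, D.hg, map_one]
  hτ := by
    obtain ⟨j, hj⟩ := D.hτ
    exact ⟨j, by rw [← map_pow, hj, map_one]⟩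
  hgτ := by rw [← map_mul, ← map_mul, D.hgτ]
  hgP := by
    rintro _ ⟨x, hx, rfl⟩
    rw [← map_inv, ← map_mul, ← map_mul]
    exact mem_map_of_mem _ (D.hgP x hx)
  hτP := by
    rintro _ ⟨x, hx, rfl⟩
    rw [← map_inv, ← map_mul, ← map_mul]
    exact mem_map_of_mem _ (D.hτP x hx)
  cen := by
    rintro _ ⟨x, hx, rfl⟩
    rw [← map_pow, ← map_mul, ← map_mul, D.cen x hx]
  τ0P := by
    rintro _ ⟨x, hx, rfl⟩
    rw [← map_pow, ← map_mul, ← map_mul, hτ0 x hx]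
  hAm := hA.odd
  hgA := hA.inv _ hgS
  hτA := hA.inv _ hτS
  hPA := by
    rintro _ ⟨q, hq, rfl⟩ x hx
    exact hA.inv _ (hPS q hq) x hx
  cl := hA.cl
  cz := by
    rw [← ynorm_map, ← hz]
    exact hA.cz
  he := heA
  he1 := he1
  sg := by
    rintro _ ⟨x, hx, rfl⟩
    exact sg x hx
  κe := by
    rw [← map_pow]
    exact hκe
  ze := by
    rw [← ynorm_map, ← hz]
    exact hze
  zie := by
    intro i hi0 hi3
    rw [← ynorm_map, ← map_pow, ← map_inv, ← map_mul, ← map_mul]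
    exact hzie i hi0 hi3

/-- **4.2, the minimal odd section.**

Proof. `M = 2 ^ (a - 1)`, `κ = g ^ M`, `z = ynorm M g p`. (1) `P' = closure {x | ∃ i l,
x = (τ ^ i * g ^ l) * p * (τ ^ i * g ^ l)⁻¹} ≤ P` (`hgP`, `hτP`); it is normalized by `g` and `τ`
(`g` and `τ` commute), contains `p`, `τ ^ (3 ^ k)` commutes with the generators (it commutes with `p`,
`τ`, `g`). So `YPr m a k P' g τ p`; `z ∈ P'` (`ynorm_mem`). (2) `H = ZH m a F`, `f = zp m a F`,
`S = (P' ⊔ zpowers g ⊔ zpowers τ).map f`. `f z ≠ 1` by `T.hz` and `zt_op_iff`, `f z ^ 2 = 1`. `zt_minH`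
(with `zt_sol`, `zt_exp`, `zt_bot`) for `S`, `f z` gives `r` and `A` (`ZMinA`). (3) `zt_f3P` for `A` and
`P₂ = (P' ⊔ zpowers κ).map f` (elements of `P₂` have square 1: `κ` commutes with `P'`, `κ ^ 2 = 1`; each
element of `P' ⊔ zpowers κ` is `q` or `q * κ` with `q ∈ P'`) gives `e ∈ A`, `e ≠ 1`, inverted by `f z`, and
centralized or inverted by each element of `P₂`. (4) *Case `0 < k`* (second alternative of `T.alt`), `g' := g`.
`κe`: otherwise `f κ` inverts `e`, and the second part of the alternative with `i = 0` gives `e = 1`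
(`e ^ m = 1`: `ZMinA.odd`). `zie`: `z_i = τ ^ i * z * (τ ^ i)⁻¹ ∈ P'`, so `f z_i` centralizes or inverts `e`;
if it inverts `e` the third part of the alternative with `i` and `j = 0` gives `e = 1`. The last clause of
the statement is the first part of the alternative. *Case `k = 0`, `τ = 1`.* `zie` is void. If `f κ`
centralizes `e`, `g' := g`. Otherwise `f κ` inverts `e`, `g' := p * g`: `(p * g) ^ M = z * κ`
(`ynorm_pow`) centralizes `e`; `(p * g) ^ (2 ^ a) = 1` (`ys_pg_pow`), it commutes with `τ = 1`,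
`ynorm M (p * g) p = z` (`ys_norm'`), `(p * g) ^ M = z * κ` commutes with the elements of `P'`, `p * g`
normalizes `P'`, and `f (p * g) ∈ S` normalizes `A`. -/
theorem ys_42 {m a k : ℕ} (hm : Odd m) (ha : 3 ≤ a) {F : Type} [Group F] [Finite F]
    (hsol : Group.IsSolvable F) (hexp : ∀ x : F, x ^ (m * 2 ^ a) = 1) {P : Subgroup F}
    {g τ p : F} (T : YT m a k P g τ p) :
    ∃ (r : ℕ) (P' : Subgroup F) (g' : F) (A : Subgroup (ZH m a F)) (e : ZH m a F),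
      r.Prime ∧ r ≠ 2 ∧ IsPGroup r A ∧ YPr m a k P' g' τ p ∧
      (∀ x ∈ P', τ ^ (3 ^ k) * x = x * τ ^ (3 ^ k)) ∧
      YA m a k (P'.map (zp m a F)) A (zp m a F g') (zp m a F τ) (zp m a F p) e ∧
      ((k = 0 ∧ τ = 1) ∨ ∀ s : F, s ^ m = 1 → g' * s = s * g' →
        ynorm (2 ^ (a - 1)) g' p * s * (ynorm (2 ^ (a - 1)) g' p)⁻¹ = s⁻¹ → s = 1) := by
  classical
  have hpr := T.pr
  have h2a : 2 * 2 ^ (a - 1) = 2 ^ a := by
    rw [← pow_succ', Nat.sub_add_cancel (by omega)]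
  have hcgτ : Commute g τ := hpr.hgτ
  -- the subgroup `P'`
  let GS : Set F := {x | ∃ i l : ℕ, x = (τ ^ i * g ^ l) * p * (τ ^ i * g ^ l)⁻¹}
  obtain ⟨P', hP'⟩ : ∃ P' : Subgroup F, P' = closure GS := ⟨_, rfl⟩
  have hgen : ∀ i l : ℕ, (τ ^ i * g ^ l) * p * (τ ^ i * g ^ l)⁻¹ ∈ P' := by
    intro i l
    rw [hP']
    exact subset_closure ⟨i, l, rfl⟩
  have hP'P : P' ≤ P := by
    rw [hP', closure_le]
    rintro _ ⟨i, l, rfl⟩
    have h1 := ys_pow_mem hpr.hτP i _ (ys_pow_mem hpr.hgP l p hpr.hp)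
    have h2 : τ ^ i * (g ^ l * p * (g ^ l)⁻¹) * (τ ^ i)⁻¹ =
        (τ ^ i * g ^ l) * p * (τ ^ i * g ^ l)⁻¹ := by group
    rw [h2] at h1
    exact h1
  have hpP' : p ∈ P' := by
    have h1 := hgen 0 0
    simpa using h1
  have hnorm : ∀ t : F, (∀ i l : ℕ, ∃ i' l' : ℕ, t * (τ ^ i * g ^ l) = τ ^ i' * g ^ l') →
      ∀ x ∈ P', t * x * t⁻¹ ∈ P' := by
    intro t ht
    have h1 : P' ≤ P'.comap (MulAut.conj t).toMonoidHom := by
      nth_rewrite 1 [hP']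
      rw [closure_le]
      rintro _ ⟨i, l, rfl⟩
      obtain ⟨i', l', h2⟩ := ht i l
      change t * ((τ ^ i * g ^ l) * p * (τ ^ i * g ^ l)⁻¹) * t⁻¹ ∈ P'
      have h3 : t * ((τ ^ i * g ^ l) * p * (τ ^ i * g ^ l)⁻¹) * t⁻¹ =
          (t * (τ ^ i * g ^ l)) * p * (t * (τ ^ i * g ^ l))⁻¹ := by group
      rw [h3, h2]
      exact hgen i' l'
    exact fun x hx => h1 hx
  have hgP' : ∀ x ∈ P', g * x * g⁻¹ ∈ P' := hnorm g fun i l =>
    ⟨i, l + 1, by rw [← mul_assoc, (hcgτ.pow_right i).eq, mul_assoc, ← pow_succ']⟩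
  have hτP' : ∀ x ∈ P', τ * x * τ⁻¹ ∈ P' := hnorm τ fun i l =>
    ⟨i + 1, l, by rw [← mul_assoc, ← pow_succ']⟩
  have hτ0 : ∀ x ∈ P', τ ^ (3 ^ k) * x = x * τ ^ (3 ^ k) := by
    have h1 : P' ≤ centralizer {τ ^ (3 ^ k)} := by
      rw [hP', closure_le]
      rintro _ ⟨i, l, rfl⟩
      change _ ∈ centralizer {τ ^ (3 ^ k)}
      rw [mem_centralizer_singleton_iff]
      have h2 : Commute (τ ^ (3 ^ k)) (τ ^ i * g ^ l) :=
        (Commute.pow_pow_self τ _ _).mul_right (hcgτ.symm.pow_pow _ _)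
      have h3 : Commute (τ ^ (3 ^ k)) p := hpr.hτp
      exact ((h2.mul_right h3).mul_right h2.inv_right).symm.eq
    intro x hx
    exact (mem_centralizer_singleton_iff.1 (h1 hx)).symm
  have hsq' : ∀ x ∈ P', x ^ 2 = 1 := fun x hx => hpr.sq x (hP'P hx)
  have hcen' : ∀ x ∈ P', g ^ (2 ^ (a - 1)) * x = x * g ^ (2 ^ (a - 1)) :=
    fun x hx => hpr.cen x (hP'P hx)
  have hcomm' := ys_comm hsq'
  have D' : YPr m a k P' g τ p :=
    { fin := inferInstance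
      sq := hsq'
      hp := hpP'
      hg := hpr.hg
      hτ := hpr.hτ
      hτm := hpr.hτm
      hgτ := hpr.hgτ
      hτp := hpr.hτp
      hgP := hgP'
      hτP := hτP'
      cen := hcen' }
  have hzP' : ynorm (2 ^ (a - 1)) g p ∈ P' := ynorm_mem hgP' hpP' _
  have hκ2 : g ^ (2 ^ (a - 1)) * g ^ (2 ^ (a - 1)) = 1 := by
    rw [← pow_add, ← two_mul, h2a, hpr.hg]
  -- the minimal section
  obtain ⟨S₀, hS₀⟩ : ∃ S₀ : Subgroup F, S₀ = P' ⊔ zpowers g ⊔ zpowers τ := ⟨_, rfl⟩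
  have hPS₀ : ∀ x ∈ P', x ∈ S₀ := fun x hx => by
    rw [hS₀]
    exact mem_sup_left (mem_sup_left hx)
  have hgS₀ : g ∈ S₀ := by
    rw [hS₀]
    exact mem_sup_left (mem_sup_right (mem_zpowers g))
  have hτS₀ : τ ∈ S₀ := by
    rw [hS₀]
    exact mem_sup_right (mem_zpowers τ)
  have hfz1 : zp m a F (ynorm (2 ^ (a - 1)) g p) ≠ 1 := fun h => T.hz ((zt_op_iff hm hexp).2 h)
  have hfz2 : zp m a F (ynorm (2 ^ (a - 1)) g p) ^ 2 = 1 := by
    rw [← map_pow, hsq' _ hzP', map_one]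
  obtain ⟨r, A, hA⟩ := zt_minH hm (zt_sol hsol) (zt_exp hexp) (zt_bot hm hexp)
    (S₀.map (zp m a F)) (mem_map_of_mem _ (hPS₀ _ hzP')) hfz2 hfz1
  have hPS : ∀ x ∈ P', zp m a F x ∈ S₀.map (zp m a F) := fun x hx => mem_map_of_mem _ (hPS₀ x hx)
  have hgS : zp m a F g ∈ S₀.map (zp m a F) := mem_map_of_mem _ hgS₀
  have hτS : zp m a F τ ∈ S₀.map (zp m a F) := mem_map_of_mem _ hτS₀
  -- the elementary abelian group generated by `P'` and `κ`
  let Q2 : Subgroup F :=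
    { carrier := {x | x ∈ P' ∨ x * g ^ (2 ^ (a - 1)) ∈ P'}
      one_mem' := Or.inl P'.one_mem
      mul_mem' := by
        rintro x y (hx | hx) (hy | hy)
        · exact Or.inl (P'.mul_mem hx hy)
        · right
          change x * y * g ^ (2 ^ (a - 1)) ∈ P'
          rw [mul_assoc]
          exact P'.mul_mem hx hy
        · right
          change x * y * g ^ (2 ^ (a - 1)) ∈ P'
          rw [mul_assoc, ← hcen' y hy, ← mul_assoc]
          exact P'.mul_mem hx hy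
        · left
          have h1 : x * y = (x * g ^ (2 ^ (a - 1))) * (y * g ^ (2 ^ (a - 1))) := by
            have h2 := hcen' _ hy
            calc x * y = x * (y * (g ^ (2 ^ (a - 1)) * g ^ (2 ^ (a - 1)))) := by
                  rw [hκ2, mul_one]
              _ = x * ((y * g ^ (2 ^ (a - 1))) * g ^ (2 ^ (a - 1))) := by group
              _ = x * (g ^ (2 ^ (a - 1)) * (y * g ^ (2 ^ (a - 1)))) := by rw [← h2]
              _ = _ := by group
          rw [h1]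
          exact P'.mul_mem hx hy
      inv_mem' := by
        rintro x (hx | hx)
        · exact Or.inl (P'.inv_mem hx)
        · right
          change x⁻¹ * g ^ (2 ^ (a - 1)) ∈ P'
          have h1 := hcen' _ (P'.inv_mem hx)
          have h2 : x⁻¹ * g ^ (2 ^ (a - 1)) = (x * g ^ (2 ^ (a - 1)))⁻¹ := by
            calc x⁻¹ * g ^ (2 ^ (a - 1)) =
                  g ^ (2 ^ (a - 1)) * (x * g ^ (2 ^ (a - 1)))⁻¹ * g ^ (2 ^ (a - 1)) := by group
              _ = (x * g ^ (2 ^ (a - 1)))⁻¹ * (g ^ (2 ^ (a - 1)) * g ^ (2 ^ (a - 1))) := by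
                  rw [h1, mul_assoc]
              _ = (x * g ^ (2 ^ (a - 1)))⁻¹ := by rw [hκ2, mul_one]
          rw [h2]
          exact P'.inv_mem hx }
  have hQ2 : ∀ x, x ∈ Q2 ↔ x ∈ P' ∨ x * g ^ (2 ^ (a - 1)) ∈ P' := fun x => Iff.rfl
  have hQ2sq : ∀ x ∈ Q2, x ^ 2 = 1 := by
    intro x hx
    rcases (hQ2 x).1 hx with h | h
    · exact hsq' x h
    · have h1 := hsq' _ h
      have h2 := hcen' _ h
      have h3 : x = (x * g ^ (2 ^ (a - 1))) * g ^ (2 ^ (a - 1)) := by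
        rw [mul_assoc, hκ2, mul_one]
      rw [h3, pow_two]
      rw [pow_two] at h1
      generalize x * g ^ (2 ^ (a - 1)) = q at h1 h2
      calc q * g ^ (2 ^ (a - 1)) * (q * g ^ (2 ^ (a - 1)))
          = q * (g ^ (2 ^ (a - 1)) * q) * g ^ (2 ^ (a - 1)) := by group
        _ = (q * q) * (g ^ (2 ^ (a - 1)) * g ^ (2 ^ (a - 1))) := by rw [h2]; group
        _ = 1 := by rw [h1, hκ2, one_mul]
  have hQ2S : ∀ x ∈ Q2, x ∈ S₀ := by
    intro x hx
    rcases (hQ2 x).1 hx with h | h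
    · exact hPS₀ x h
    · have h3 : x = (x * g ^ (2 ^ (a - 1))) * (g ^ (2 ^ (a - 1)))⁻¹ := by
        rw [mul_inv_cancel_right]
      rw [h3]
      exact S₀.mul_mem (hPS₀ _ h) (S₀.inv_mem (S₀.pow_mem hgS₀ _))
  have hκQ2 : g ^ (2 ^ (a - 1)) ∈ Q2 := by
    rw [hQ2]
    right
    rw [hκ2]
    exact P'.one_mem
  obtain ⟨e, heA, he1, hze, hsg⟩ := zt_f3P hm A (Q2.map (zp m a F)) hA.odd
    (by
      rintro _ ⟨x, hx, rfl⟩
      rw [← map_pow, hQ2sq x hx, map_one])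
    (by
      rintro _ ⟨x, hx, rfl⟩ y hy
      exact hA.inv _ (mem_map_of_mem _ (hQ2S x hx)) y hy)
    (mem_map_of_mem _ ((hQ2 _).2 (Or.inl hzP'))) hA.ne
  have sg : ∀ x ∈ Q2, zp m a F x * e * (zp m a F x)⁻¹ = e ∨
      zp m a F x * e * (zp m a F x)⁻¹ = e⁻¹ := fun x hx => hsg _ (mem_map_of_mem _ hx)
  have hem : e ^ m = 1 := hA.odd e heA
  have hz0 : τ ^ 0 * ynorm (2 ^ (a - 1)) g p * (τ ^ 0)⁻¹ = ynorm (2 ^ (a - 1)) g p := by
    rw [pow_zero, one_mul, inv_one, mul_one]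
  rcases T.alt with ⟨hk, hτ1⟩ | ⟨hk, alt1, alt2, alt3⟩
  · -- `k = 0`, `τ = 1`
    subst hk
    have hvoid : ∀ i, 0 < i → i < 3 ^ 0 → False := by
      intro i h1 h2
      rw [pow_zero] at h2
      omega
    rcases sg _ hκQ2 with hκe | hκe
    · exact ⟨r, P', g, A, e, hA.hr, hA.hr2, hA.pg, D', hτ0,
        zs42_YA D' hτ0 hA hPS hgS hτS rfl heA he1 hze (fun x hx => sg x (Or.inl hx))
          (mul_inv_eq_iff_eq_mul.1 hκe) (fun i h1 h2 => (hvoid i h1 h2).elim), Or.inl ⟨rfl, hτ1⟩⟩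
    · have hpow : (p * g) ^ (2 ^ (a - 1)) = ynorm (2 ^ (a - 1)) g p * g ^ (2 ^ (a - 1)) :=
        ynorm_pow _ _ _
      have hpgP : ∀ x ∈ P', (p * g) * x * (p * g)⁻¹ ∈ P' := by
        intro x hx
        have h1 : (p * g) * x * (p * g)⁻¹ = p * (g * x * g⁻¹) * p⁻¹ := by group
        rw [h1]
        exact P'.mul_mem (P'.mul_mem hpP' (hgP' x hx)) (P'.inv_mem hpP')
      have hcen2 : ∀ x ∈ P', (p * g) ^ (2 ^ (a - 1)) * x = x * (p * g) ^ (2 ^ (a - 1)) := by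
        intro x hx
        rw [hpow]
        have h1 : Commute (ynorm (2 ^ (a - 1)) g p) x := hcomm' _ hzP' x hx
        have h2 : Commute (g ^ (2 ^ (a - 1))) x := hcen' x hx
        exact (h1.mul_left h2).eq
      have hpg : (p * g) ^ (2 ^ a) = 1 := by
        have h1 := ys_pg_pow (M := 2 ^ (a - 1)) hgP' hsq' hpP' hcen' (by rw [h2a]; exact hpr.hg)
        rwa [h2a] at h1
      have D2 : YPr m a 0 P' (p * g) τ p :=
        { fin := inferInstance
          sq := hsq'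
          hp := hpP'
          hg := hpg
          hτ := hpr.hτ
          hτm := hpr.hτm
          hgτ := by rw [hτ1, mul_one, one_mul]
          hτp := hpr.hτp
          hgP := hpgP
          hτP := hτP'
          cen := hcen2 }
      have hnn : ynorm (2 ^ (a - 1)) (p * g) p = ynorm (2 ^ (a - 1)) g p :=
        ys_norm' (by omega) P' hsq' hgP' hpP' hpP' hcen' _
      refine ⟨r, P', p * g, A, e, hA.hr, hA.hr2, hA.pg, D2, hτ0,
        zs42_YA D2 hτ0 hA hPS ?_ hτS (by rw [hnn]) heA he1 hze (fun x hx => sg x (Or.inl hx))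
          ?_ (fun i h1 h2 => (hvoid i h1 h2).elim), Or.inl ⟨rfl, hτ1⟩⟩
      · exact mem_map_of_mem _ (S₀.mul_mem (hPS₀ p hpP') hgS₀)
      · rw [hpow, map_mul]
        apply mul_inv_eq_iff_eq_mul.1
        set fz := zp m a F (ynorm (2 ^ (a - 1)) g p)
        set fκ := zp m a F (g ^ (2 ^ (a - 1)))
        calc fz * fκ * e * (fz * fκ)⁻¹ = fz * (fκ * e * fκ⁻¹) * fz⁻¹ := by group
          _ = (fz * e * fz⁻¹)⁻¹ := by rw [hκe]; group
          _ = e := by rw [hze, inv_inv]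
  · -- `0 < k`
    have h3k : 0 < 3 ^ k := pow_pos three_pos k
    have hκe : zp m a F (g ^ (2 ^ (a - 1))) * e * (zp m a F (g ^ (2 ^ (a - 1))))⁻¹ = e := by
      rcases sg _ hκQ2 with h | h
      · exact h
      · exfalso
        apply he1
        apply alt2 0 h3k e hem h
        rw [hz0]
        exact hze
    refine ⟨r, P', g, A, e, hA.hr, hA.hr2, hA.pg, D', hτ0,
      zs42_YA D' hτ0 hA hPS hgS hτS rfl heA he1 hze (fun x hx => sg x (Or.inl hx))
        (mul_inv_eq_iff_eq_mul.1 hκe) ?_, Or.inr alt1⟩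
    intro i hi0 hi3
    have hziP : τ ^ i * ynorm (2 ^ (a - 1)) g p * (τ ^ i)⁻¹ ∈ P' := ys_pow_mem hτP' i _ hzP'
    rcases sg _ (Or.inl hziP) with h | h
    · exact mul_inv_eq_iff_eq_mul.1 h
    · exfalso
      apply he1
      apply alt3 i 0 hi3 h3k (by omega) e hem hκe h
      rw [hz0]
      exact hze

end Pool.Agent.Lib.MP_544bd1_al
end

section

/-!
Theorem Z (paper 287), 4.4: (F6), `i ≠ 0`.
-/

namespace Pool.Agent.Lib.MP_544bd1_al

open Subgroup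

variable {F : Type} [Group F] [Finite F]

/-- **(F6)**, `i ≠ 0`: `yE i l` is trivial on `[V, c]`.

Proof. Let `C = closure {γ i ^ n * c * (γ i ^ n)⁻¹ | n : ℕ} ≤ ⁅R, R⁆` (`D.der`; `c` is a commutator of elements of
`R`, `D.y`): commutative, `x ^ m = 1` (`ym_odd`), normalized by `γ i`, inverted by `γ i ^ (2 ^ (a - 2))` (`D.γ0`;
it commutes with `γ i ^ n`; `C` is commutative). `ys_avg` (`u := γ i`, `D.hγ`, `ym_norm`): for `ζ = γ i ^ (2 ^ (a - 1))`
and all `v`: `ρ ζ (ρ c v - v) = ρ c v - v`. Let `E = yE g τ e i l ∈ R`; `ζ * E * ζ⁻¹ = E⁻¹` (`D.γE`), `E` commutes with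
`c`, so `ρ E (ρ c v - v) = ρ c (ρ E v) - ρ E v` is again of the form `ρ c w - w`, and the same for `E⁻¹`. For
`u = ρ c v - v`: `ρ E⁻¹ u = ρ ζ (ρ E (ρ ζ⁻¹ u)) = ρ ζ (ρ E u) = ρ E u` (`ρ ζ⁻¹ u = u`). So `ρ (E ^ 2) u = u`, and
`E` is a power of `E ^ 2` (`E ^ m = 1`, `m` odd): `ρ E u = u`. -/
theorem ym_F6a {m a k : ℕ} (hm : Odd m) (ha : 3 ≤ a) (hexp : ∀ x : F, x ^ (m * 2 ^ a) = 1)
    {Q R : Subgroup F} [Q.Normal] {g τ e e' c : F} {γ : ℕ → F}
    (D : YM m a k Q R g τ e e' c γ) {V : Type} [AddCommGroup V] [Module (ZMod 2) V] [Finite V]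
    {ρ : F →* Module.End (ZMod 2) V} {φ : Q → V} (M : ZMd Q R ρ φ) {i : ℕ} (hi0 : 0 < i)
    (hi : i < 3 ^ k) (l : ℕ) (v : V) :
    ρ (yE g τ e i l) (ρ c v - v) = ρ c v - v := by
  obtain ⟨hyER, -, -⟩ := D.per
  obtain ⟨he'R, hcR, -, -, hcc⟩ := YM.y ha D
  obtain ⟨hdR, hdc, hds, -⟩ := YM.der ha D
  obtain ⟨G, hG⟩ : ∃ G : F, G = γ i := ⟨_, rfl⟩
  have hGR : ∀ r ∈ R, G * r * G⁻¹ ∈ R := by
    rw [hG]; exact D.core.hxR (γ i) (Or.inr (Or.inr ⟨i, hi, rfl⟩))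
  have hcd : c ∈ (⁅R, R⁆ : Subgroup F) := by
    have h1 := commutator_mem_commutator D.he he'R
    rw [commutatorElement_def] at h1
    rw [D.hc]; exact h1
  have hGn : ∀ n : ℕ, ∀ x ∈ (⁅R, R⁆ : Subgroup F), G ^ n * x * (G ^ n)⁻¹ ∈ (⁅R, R⁆ : Subgroup F) := by
    intro n
    induction n with
    | zero => intro x hx; simpa using hx
    | succ n ih =>
      intro x hx
      have h1 := hds G hGR _ (ih x hx)
      have h2 : G ^ (n + 1) * x * (G ^ (n + 1))⁻¹ = G * (G ^ n * x * (G ^ n)⁻¹) * G⁻¹ := by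
        rw [pow_succ']; group
      rw [h2]; exact h1
  let C : Subgroup F := closure {x | ∃ n : ℕ, x = G ^ n * c * (G ^ n)⁻¹}
  have hCd : C ≤ (⁅R, R⁆ : Subgroup F) := by
    rw [closure_le]
    rintro _ ⟨n, rfl⟩
    exact hGn n c hcd
  have hcC : c ∈ C := subset_closure ⟨0, by simp⟩
  have hCm : ∀ x ∈ C, x ^ m = 1 := fun x hx =>
    ym_odd Nat.prime_three (by norm_num) hexp D.core.hR x (hdR (hCd hx))
  have hCC : ∀ x ∈ C, ∀ y ∈ C, x * y = y * x := fun x hx y hy => hdc x (hCd hx) y (hdR (hCd hy))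
  have hCG : ∀ x ∈ C, G * x * G⁻¹ ∈ C := by
    intro x hx
    induction hx using closure_induction with
    | mem y hy =>
      obtain ⟨n, rfl⟩ := hy
      refine subset_closure ⟨n + 1, ?_⟩
      rw [pow_succ']; group
    | one => simp
    | mul x y _ _ hx hy =>
      have h1 : G * (x * y) * G⁻¹ = (G * x * G⁻¹) * (G * y * G⁻¹) := by group
      rw [h1]; exact C.mul_mem hx hy
    | inv x _ hx =>
      have h1 : G * x⁻¹ * G⁻¹ = (G * x * G⁻¹)⁻¹ := by group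
      rw [h1]; exact C.inv_mem hx
  have hG0 : G ^ (2 ^ (a - 2)) * c * (G ^ (2 ^ (a - 2)))⁻¹ = c⁻¹ := by
    rw [hG]; exact D.γ0 i hi0 hi
  have hCinv : ∀ x ∈ C, G ^ (2 ^ (a - 2)) * x * (G ^ (2 ^ (a - 2)))⁻¹ = x⁻¹ := by
    intro x hx
    induction hx using closure_induction with
    | mem y hy =>
      obtain ⟨n, rfl⟩ := hy
      have h1 : G ^ (2 ^ (a - 2)) * (G ^ n * c * (G ^ n)⁻¹) * (G ^ (2 ^ (a - 2)))⁻¹ =
          G ^ n * (G ^ (2 ^ (a - 2)) * c * (G ^ (2 ^ (a - 2)))⁻¹) * (G ^ n)⁻¹ := by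
        have h2 : G ^ (2 ^ (a - 2)) * G ^ n = G ^ n * G ^ (2 ^ (a - 2)) := by
          rw [← pow_add, ← pow_add, add_comm]
        have h3 : (G ^ n)⁻¹ * (G ^ (2 ^ (a - 2)))⁻¹ = (G ^ (2 ^ (a - 2)))⁻¹ * (G ^ n)⁻¹ := by
          rw [← mul_inv_rev, ← mul_inv_rev, h2]
        calc G ^ (2 ^ (a - 2)) * (G ^ n * c * (G ^ n)⁻¹) * (G ^ (2 ^ (a - 2)))⁻¹ =
            (G ^ (2 ^ (a - 2)) * G ^ n) * c * ((G ^ n)⁻¹ * (G ^ (2 ^ (a - 2)))⁻¹) := by
              simp only [mul_assoc]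
          _ = (G ^ n * G ^ (2 ^ (a - 2))) * c * ((G ^ (2 ^ (a - 2)))⁻¹ * (G ^ n)⁻¹) := by
              rw [h2, h3]
          _ = _ := by simp only [mul_assoc]
      rw [h1, hG0]; group
    | one => simp
    | mul x y hx' hy' hx hy =>
      have h1 : G ^ (2 ^ (a - 2)) * (x * y) * (G ^ (2 ^ (a - 2)))⁻¹ =
          (G ^ (2 ^ (a - 2)) * x * (G ^ (2 ^ (a - 2)))⁻¹) *
            (G ^ (2 ^ (a - 2)) * y * (G ^ (2 ^ (a - 2)))⁻¹) := by group
      rw [h1, hx, hy, mul_inv_rev]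
      exact hCC _ (C.inv_mem hx') _ (C.inv_mem hy')
    | inv x _ hx =>
      have h1 : G ^ (2 ^ (a - 2)) * x⁻¹ * (G ^ (2 ^ (a - 2)))⁻¹ =
          (G ^ (2 ^ (a - 2)) * x * (G ^ (2 ^ (a - 2)))⁻¹)⁻¹ := by group
      rw [h1, hx]
  have hGa : G ^ (2 ^ a) = 1 := by rw [hG]; exact D.hγ i hi
  have hav := ys_avg (by omega : 2 ≤ a) hm ρ C hCm hCC hCG hGa hCinv
    (ym_norm hm hexp D.core.hQ M hGa) c hcC
  obtain ⟨ζ, hζ⟩ : ∃ ζ : F, ζ = G ^ (2 ^ (a - 1)) := ⟨_, rfl⟩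
  rw [← hζ] at hav
  obtain ⟨E, hE⟩ : ∃ E : F, E = yE g τ e i l := ⟨_, rfl⟩
  have hER : E ∈ R := by rw [hE]; exact hyER i l
  have hζE : ζ * E * ζ⁻¹ = E⁻¹ := by
    rw [hζ, hG, hE]; exact D.γE i hi l
  rw [← hE]
  have hcom : ∀ x ∈ R, ∀ w : V, ρ x (ρ c w - w) = ρ c (ρ x w) - ρ x w := by
    intro x hx w
    rw [map_sub, ← Module.End.mul_apply, ← map_mul, ← hcc x hx, map_mul, Module.End.mul_apply]
  have hζi : ∀ w : V, ρ ζ⁻¹ (ρ c w - w) = ρ c w - w := by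
    intro w
    have h1 := congrArg (ρ ζ⁻¹) (hav w)
    rw [← Module.End.mul_apply, ← map_mul, inv_mul_cancel, map_one, Module.End.one_apply] at h1
    exact h1.symm
  have hEE : ρ E⁻¹ (ρ c v - v) = ρ E (ρ c v - v) := by
    rw [← hζE, map_mul, map_mul, Module.End.mul_apply, Module.End.mul_apply, hζi, hcom E hER, hav]
  have hE2 : ∀ n : ℕ, ρ ((E ^ 2) ^ n) (ρ c v - v) = ρ c v - v := by
    have h1 : ρ (E ^ 2) (ρ c v - v) = ρ c v - v := by
      rw [pow_two, map_mul, Module.End.mul_apply, ← hEE, ← Module.End.mul_apply, ← map_mul,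
        mul_inv_cancel, map_one, Module.End.one_apply]
    intro n
    induction n with
    | zero => simp
    | succ n ih => rw [pow_succ, map_mul, Module.End.mul_apply, h1, ih]
  obtain ⟨n, hn⟩ := hm
  have hEm : E ^ m = 1 := ym_odd Nat.prime_three (by norm_num) hexp D.core.hR E hER
  have hEe : (E ^ 2) ^ (n + 1) = E := by
    rw [← pow_mul]
    have h1 : 2 * (n + 1) = m + 1 := by omega
    rw [h1, pow_succ, hEm, one_mul]
  have h1 := hE2 (n + 1)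
  rw [hEe] at h1
  exact h1

end Pool.Agent.Lib.MP_544bd1_al
end

section

/-!
Theorem Z (paper 287), 4.4: (F4).
-/

namespace Pool.Agent.Lib.MP_544bd1_al

open Subgroup

variable {F : Type} [Group F] [Finite F]

/-- **(F4)** the commutators of `R` have no common fixed vector.

Proof. Let `W` be the submodule of the common fixed vectors of the `ρ (b * d * b⁻¹ * d⁻¹)`, `b, d ∈ R`. It is
invariant under `ρ x` if `x` normalizes `R` (the conjugate of a commutator is a commutator: for `v ∈ W`,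
`ρ (b * d * b⁻¹ * d⁻¹) (ρ x v) = ρ x (ρ (x⁻¹ * (b * d * b⁻¹ * d⁻¹) * x) v)`; `x⁻¹ * b * x ∈ R` because `F` is
finite, `x⁻¹` is a power of `x`), so for `x ∈ R` and for `x = g, τ, γ i` (`D.core.hxR`). By the last part of
`ym_irr` `W = ⊥`, as claimed, or `W = ⊤`. In the second case let `i < 3 ^ k` and
`E = closure {yE g τ e i l | l} ≤ R`: `zt_avg` (`u := γ i`, `D.hγ`): `ρ (x ^ m) = 1` for `x ∈ E` (`ym_odd`);
`ρ (x * y) = ρ (y * x)` for `x, y ∈ R` (`W = ⊤`); `γ i` normalizes `E` (`D.γB`, closure induction); `hinv`: the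
`x ∈ E` with `ρ (γ i ^ (2 ^ (a - 1)) * x * (γ i ^ (2 ^ (a - 1)))⁻¹) = ρ x⁻¹` form a subgroup, since
`ρ x⁻¹ * ρ y⁻¹ = ρ (y * x)⁻¹`-type identities hold (commutativity of `ρ` on `R`), containing the generators
(`D.γE`); norm: `ym_norm`. So `ρ (yE g τ e i l) = 1` for all `i < 3 ^ k`, `l`, and `ρ = 1` on `R` (`D.gen`), so
`R` centralizes `Q` (`M.faith`): contradiction to `D.core.ne`. -/
theorem ym_F4 {m a k : ℕ} (hm : Odd m) (ha : 3 ≤ a) (hexp : ∀ x : F, x ^ (m * 2 ^ a) = 1)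
    {Q R : Subgroup F} [Q.Normal] {g τ e e' c : F} {γ : ℕ → F}
    (D : YM m a k Q R g τ e e' c γ) {V : Type} [AddCommGroup V] [Module (ZMod 2) V] [Finite V]
    {ρ : F →* Module.End (ZMod 2) V} {φ : Q → V} (M : ZMd Q R ρ φ) :
    ∀ v : V, (∀ b ∈ R, ∀ d ∈ R, ρ (b * d * b⁻¹ * d⁻¹) v = v) → v = 0 := by
  obtain ⟨hER, -, -⟩ := D.per
  let W : Submodule (ZMod 2) V :=
    { carrier := {v | ∀ b ∈ R, ∀ d ∈ R, ρ (b * d * b⁻¹ * d⁻¹) v = v}
      add_mem' := by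
        intro v w hv hw b hb d hd
        rw [map_add, hv b hb d hd, hw b hb d hd]
      zero_mem' := by
        intro b _ d _
        rw [map_zero]
      smul_mem' := by
        intro t v hv b hb d hd
        rw [map_smul, hv b hb d hd] }
  have hWmem : ∀ v, v ∈ W ↔ ∀ b ∈ R, ∀ d ∈ R, ρ (b * d * b⁻¹ * d⁻¹) v = v := fun v => Iff.rfl
  have hinvR : ∀ x : F, (∀ r ∈ R, x * r * x⁻¹ ∈ R) → ∀ r ∈ R, x⁻¹ * r * x ∈ R := by
    intro x hx r hr
    have hpow : ∀ n : ℕ, ∀ r ∈ R, x ^ n * r * (x ^ n)⁻¹ ∈ R := by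
      intro n
      induction n with
      | zero => intro r hr; simpa using hr
      | succ n ih =>
        intro r hr
        have h4 : x ^ (n + 1) * r * (x ^ (n + 1))⁻¹ = x * (x ^ n * r * (x ^ n)⁻¹) * x⁻¹ := by
          rw [pow_succ']; group
        rw [h4]
        exact hx _ (ih r hr)
    have h1 : x ^ (Nat.card F - 1) = x⁻¹ := by
      rw [eq_inv_iff_mul_eq_one, ← pow_succ, Nat.sub_add_cancel Nat.card_pos, pow_card_eq_one']
    have h2 := hpow (Nat.card F - 1) r hr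
    rw [h1, inv_inv] at h2
    exact h2
  have hWinv : ∀ x : F, (∀ r ∈ R, x * r * x⁻¹ ∈ R) → ∀ v ∈ W, ρ x v ∈ W := by
    intro x hx v hv
    rw [hWmem] at hv ⊢
    intro b hb d hd
    have h1 := hv _ (hinvR x hx b hb) _ (hinvR x hx d hd)
    have h2 : b * d * b⁻¹ * d⁻¹ * x = x * ((x⁻¹ * b * x) * (x⁻¹ * d * x) * (x⁻¹ * b * x)⁻¹ *
        (x⁻¹ * d * x)⁻¹) := by group
    rw [← Module.End.mul_apply, ← map_mul, h2, map_mul, Module.End.mul_apply, h1]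
  have h3p : Nat.Prime 3 := by norm_num
  obtain ⟨-, -, -, hirr⟩ := ym_irr h3p (by norm_num) D.core M
  rcases hirr W (fun x hx => hWinv x (fun r hr => R.mul_mem (R.mul_mem hx hr) (R.inv_mem hx)))
    (fun x hx => hWinv x (D.core.hxR x hx)) with hW | hW
  · intro v hv
    have h1 : v ∈ W := hv
    rw [hW] at h1
    exact (Submodule.mem_bot _).1 h1
  exfalso
  have hcomm : ∀ x ∈ R, ∀ y ∈ R, ρ (x * y) = ρ (y * x) := by
    intro x hx y hy
    have h1 : ρ (x * y * x⁻¹ * y⁻¹) = 1 := by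
      refine LinearMap.ext fun v => ?_
      have h2 : v ∈ W := by rw [hW]; trivial
      exact h2 x hx y hy
    have h2 : x * y = x * y * x⁻¹ * y⁻¹ * (y * x) := by group
    rw [h2, map_mul, h1, one_mul]
  have hinvρ : ∀ z w : F, ρ z = ρ w → ρ z⁻¹ = ρ w⁻¹ := by
    intro z w h
    calc ρ z⁻¹ = ρ z⁻¹ * (ρ w * ρ w⁻¹) := by rw [← map_mul, mul_inv_cancel, map_one, mul_one]
      _ = ρ z⁻¹ * (ρ z * ρ w⁻¹) := by rw [h]
      _ = ρ w⁻¹ := by rw [← mul_assoc, ← map_mul, inv_mul_cancel, map_one, one_mul]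
  have hone : ∀ i < 3 ^ k, ∀ l, ρ (yE g τ e i l) = 1 := by
    intro i hi l
    set E : Subgroup F := closure {x | ∃ l, x = yE g τ e i l} with hE
    have hE' : E ≤ R := by
      rw [hE, closure_le]
      rintro _ ⟨l, rfl⟩
      exact hER i l
    refine zt_avg (by omega : 0 < a) hm ρ E (u := γ i) ?_ ?_ ?_ ?_ ?_ ?_ _
      (Subgroup.subset_closure ⟨l, rfl⟩)
    · intro x hx
      rw [ym_odd h3p (by norm_num) hexp D.core.hR x (hE' hx), map_one]
    · intro x hx y hy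
      exact hcomm x (hE' hx) y (hE' hy)
    · intro x hx
      rw [hE] at hx
      induction hx using closure_induction with
      | mem x hx =>
        obtain ⟨l, rfl⟩ := hx
        exact D.γB i hi l
      | one => simp
      | mul x y _ _ hx hy =>
        have h1 : γ i * (x * y) * (γ i)⁻¹ = (γ i * x * (γ i)⁻¹) * (γ i * y * (γ i)⁻¹) := by group
        rw [h1]
        exact E.mul_mem hx hy
      | inv x _ hx =>
        have h1 : γ i * x⁻¹ * (γ i)⁻¹ = (γ i * x * (γ i)⁻¹)⁻¹ := by group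
        rw [h1]
        exact E.inv_mem hx
    · rw [D.hγ i hi, map_one]
    · intro x hx
      rw [hE] at hx
      induction hx using closure_induction with
      | mem x hx =>
        obtain ⟨l, rfl⟩ := hx
        rw [D.γE i hi l]
      | one => simp
      | mul x y hx' hy' hx hy =>
        have h1 : γ i ^ (2 ^ (a - 1)) * (x * y) * (γ i ^ (2 ^ (a - 1)))⁻¹ =
            (γ i ^ (2 ^ (a - 1)) * x * (γ i ^ (2 ^ (a - 1)))⁻¹) *
              (γ i ^ (2 ^ (a - 1)) * y * (γ i ^ (2 ^ (a - 1)))⁻¹) := by group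
        rw [h1, map_mul, hx, hy, ← map_mul, mul_inv_rev]
        exact hcomm _ (R.inv_mem (hE' hx')) _ (R.inv_mem (hE' hy'))
      | inv x _ hx =>
        have h1 : γ i ^ (2 ^ (a - 1)) * x⁻¹ * (γ i ^ (2 ^ (a - 1)))⁻¹ =
            (γ i ^ (2 ^ (a - 1)) * x * (γ i ^ (2 ^ (a - 1)))⁻¹)⁻¹ := by group
        rw [h1]
        exact hinvρ _ _ hx
    · exact ym_norm hm hexp D.core.hQ M (D.hγ i hi)
  have hRker : ∀ x ∈ R, ρ x = 1 := by
    intro x hx
    have h1 : R ≤ ρ.ker := by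
      refine D.gen.trans ?_
      rw [closure_le]
      rintro _ ⟨i, l, hi, rfl⟩
      exact hone i hi l
    exact h1 hx
  obtain ⟨x, hx, q, hq, hne⟩ := D.core.ne
  exact hne (M.faith x hx (hRker x hx) q hq)

end Pool.Agent.Lib.MP_544bd1_al
end

section

/-!
Theorem Z (paper 287), 4.4: from `X` to the normalizer of `Q` and back.
-/

namespace Pool.Agent.Lib.MP_544bd1_al

open Subgroup

variable {X : Type} [Group X]

/-- **The minimal subgroup `Q`.**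

Proof. Choose `Q ≤ W` minimal (well-founded `<` on the subgroups of the finite group `X`, or minimal
cardinality) among the subgroups `Q ≤ W` which are normalized by `R`, `g`, `τ`, `γ i` (`i < 3 ^ k`) and not
centralized by `R` (`W` is one of them: `D.hgW`, `D.hτW`, `D.hRW`, `D.hγW`, `D.ne`). `core.hxR`: `D.hgR`, `D.hτR`,
`D.hγR`; `core.hR`: `D.hR3.to_le le_sup_left`; all other fields are fields of `D`. -/
theorem yl_min {m a k : ℕ} [Finite X] {W R : Subgroup X} {g τ e e' c : X} {γ : ℕ → X}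
    (D : YL m a k W R g τ e e' c γ) :
    ∃ Q : Subgroup X, Q ≤ W ∧ YM m a k Q R g τ e e' c γ ∧ (∀ r ∈ R, ∀ x ∈ Q, r * x * r⁻¹ ∈ Q) ∧
      (∀ x ∈ Q, g * x * g⁻¹ ∈ Q) ∧ (∀ x ∈ Q, τ * x * τ⁻¹ ∈ Q) ∧
      ∀ i < 3 ^ k, ∀ x ∈ Q, γ i * x * (γ i)⁻¹ ∈ Q := by
  let T : Set (Subgroup X) := {Q | Q ≤ W ∧ (∃ r ∈ R, ∃ x ∈ Q, r * x ≠ x * r) ∧
    (∀ r ∈ R, ∀ x ∈ Q, r * x * r⁻¹ ∈ Q) ∧ (∀ x ∈ Q, g * x * g⁻¹ ∈ Q) ∧
    (∀ x ∈ Q, τ * x * τ⁻¹ ∈ Q) ∧ ∀ i < 3 ^ k, ∀ x ∈ Q, γ i * x * (γ i)⁻¹ ∈ Q}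
  have hT : T.Nonempty := ⟨W, le_rfl, D.ne, D.hRW, D.hgW, D.hτW, D.hγW⟩
  obtain ⟨Q, hQ, hmin⟩ := (wellFounded_lt (α := Subgroup X)).has_min T hT
  obtain ⟨hQW, hne, h1, h2, h3, h4⟩ := hQ
  refine ⟨Q, hQW, ?_, h1, h2, h3, h4⟩
  refine
    { core :=
        { hQ := fun q hq => D.hW2 q (hQW hq)
          hR := D.hR3.to_le le_sup_left
          hxR := ?_
          ne := hne
          min := ?_ }
      hR3 := D.hR3
      hg := D.hg
      hgτ := D.hgτ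
      κR := D.κR
      τR := D.τR
      τQ := fun x hx => D.τW x (hQW hx)
      he := D.he
      he3 := D.he3
      he' := D.he'
      hc := D.hc
      cl := D.cl
      com := D.com
      gen := D.gen
      hγ := D.hγ
      γE := D.γE
      γB := D.γB
      γc := D.γc
      γ0 := D.γ0 }
  · rintro x (rfl | rfl | ⟨i, hi, rfl⟩)
    · exact D.hgR
    · exact D.hτR
    · exact D.hγR i hi
  · intro Q' hQ' hne' hR' hS' r hr x hx
    by_contra hcon
    exact hmin Q' ⟨hQ'.trans hQW, ⟨r, hr, x, hx, hcon⟩, hR', hS' g (Or.inl rfl),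
      hS' τ (Or.inr (Or.inl rfl)), fun i hi => hS' (γ i) (Or.inr (Or.inr ⟨i, hi, rfl⟩))⟩
      (lt_of_le_of_ne hQ' hne')

end Pool.Agent.Lib.MP_544bd1_al
end
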