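import Mathlib
import Pool.Agent.Lib.MP_544bd1_al.ZsC0
import Pool.Agent.Lib.MP_544bd1_al.ZsMX
import Pool.Agent.Lib.MP_544bd1_al.ZsMn
import Pool.Agent.Lib.MP_544bd1_al.ZsWt
import Pool.Agent.Lib.MP_544bd1_al.ZtSpl
import Pool.Agent.Lib.MP_544bd1_al.ZsMX2
import Pool.Agent.Lib.MP_544bd1_al.ZtFrat
import Pool.Agent.Lib.MP_544bd1_al.ZtNorm
import Pool.Agent.Lib.MP_544bd1_al.ZtDefs3
import Pool.Agent.Lib.MP_544bd1_al.ZsLft
import Pool.Agent.Lib.MP_544bd1_al.ZsLftN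

section

/-!
Theorem Z (paper 287), 4.4: from `X` to the normalizer of `Q` and back.
-/

namespace Pool.Agent.Lib.MP_544bd1_al

open Subgroup

variable {X : Type} [Group X]

/-- **Transport of the block structure** along the inclusion of a subgroup.

Proof. Each field separately: the elements of `Q.map F.subtype` are the `(x : X)` with `x ∈ Q`; for an
equation in `X` between elements of `F` use the corresponding field and `congrArg Subtype.val`
(or `Subtype.ext_iff`). `hR3`: `R.map F.subtype ⊔ zpowers τ = (R ⊔ zpowers τ).map F.subtype`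
(`Subgroup.map_sup`, `MonoidHom.map_zpowers`), `IsPGroup.map`. -/
theorem yb_map {m a k : ℕ} {F : Subgroup X} {Q R : Subgroup F} {g τ e e' c : F}
    (D : YBk m a k Q R g τ e e' c) :
    YBk m a k (Q.map F.subtype) (R.map F.subtype) (g : X) (τ : X) (e : X) (e' : X) (c : X) := by
  have hv : ∀ {x y : F}, x = y → (x : X) = y := fun h => congrArg Subtype.val h
  have hmQ : ∀ {x : F}, x ∈ Q → (x : X) ∈ Q.map F.subtype := fun h => ⟨_, h, rfl⟩
  have hmR : ∀ {x : F}, x ∈ R → (x : X) ∈ R.map F.subtype := fun h => ⟨_, h, rfl⟩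
  refine
    { hQ2 := ?_
      hR3 := ?_
      hg := hv D.hg
      hgτ := hv D.hgτ
      hgQ := ?_
      hτQ := ?_
      hRQ := ?_
      hgR := ?_
      hτR := ?_
      κR := ?_
      κQ := ?_
      τR := ?_
      τQ := ?_
      he := hmR D.he
      he3 := hv D.he3
      he' := hv D.he'
      hc := hv D.hc
      cen := ?_
      com := fun i l h1 h2 h3 => hv (D.com i l h1 h2 h3)
      bl := ?_
      ne := ?_
      sqQ := ?_
      sqR := ?_
      sq4 := ?_ }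
  · rintro _ ⟨x, hx, rfl⟩
    exact hv (D.hQ2 x hx)
  · have h1 : (R.map F.subtype ⊔ zpowers (τ : X) : Subgroup X) =
        (R ⊔ zpowers τ : Subgroup F).map F.subtype := by
      rw [Subgroup.map_sup, MonoidHom.map_zpowers]
      rfl
    rw [h1]
    exact D.hR3.map _
  · rintro _ ⟨x, hx, rfl⟩
    exact hmQ (D.hgQ x hx)
  · rintro _ ⟨x, hx, rfl⟩
    exact hmQ (D.hτQ x hx)
  · rintro _ ⟨r, hr, rfl⟩ _ ⟨x, hx, rfl⟩
    exact hmQ (D.hRQ r hr x hx)
  · rintro _ ⟨x, hx, rfl⟩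
    exact hmR (D.hgR x hx)
  · rintro _ ⟨x, hx, rfl⟩
    exact hmR (D.hτR x hx)
  · rintro _ ⟨x, hx, rfl⟩
    exact hv (D.κR x hx)
  · rintro _ ⟨x, hx, rfl⟩
    exact hv (D.κQ x hx)
  · rintro _ ⟨x, hx, rfl⟩
    exact hv (D.τR x hx)
  · rintro _ ⟨x, hx, rfl⟩
    exact hv (D.τQ x hx)
  · rintro _ ⟨x, hx, rfl⟩
    exact hv (D.cen x hx)
  · rintro i l h1 h2 h3 _ ⟨x, hx, rfl⟩
    exact hv (D.bl i l h1 h2 h3 x hx)
  · obtain ⟨x, hx, hne⟩ := D.ne
    exact ⟨x, hmQ hx, fun h => hne (Subtype.ext h)⟩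
  · rintro _ ⟨x, hx, rfl⟩ _ ⟨y, hy, rfl⟩
    exact hv (D.sqQ x hx y hy)
  · rintro _ ⟨x, hx, rfl⟩ _ ⟨r, hr, rfl⟩
    exact hv (D.sqR x hx r hr)
  · rintro _ ⟨x, hx, rfl⟩
    exact hv (D.sq4 x hx)

end Pool.Agent.Lib.MP_544bd1_al
end

section

/-!
Theorem Z (paper 287), 4.4: (F5), (F7).
-/

namespace Pool.Agent.Lib.MP_544bd1_al

open Subgroup

variable {F : Type} [Group F] [Finite F]

/-- **(F5)** on the module.

Proof. `ys_avg` for `B := ⁅R, R⁆`, `u := g` (`D.der`, `ym_odd`, `D.hg`, `ym_norm`): for `x ∈ ⁅R, R⁆`: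
`ρ (g ^ (2 ^ (a - 1))) (ρ x v - v) = ρ x v - v`. Let `W` be the span of the vectors `ρ x v - v`, `x ∈ ⁅R, R⁆`,
`v ∈ V`: invariant under `R`, `g`, `τ`, `γ i` (`ρ s (ρ x v - v) = ρ (s * x * s⁻¹) (ρ s v) - ρ s v`, `D.der`). By
the last part of `ym_irr` `W = ⊥` or `W = ⊤`. If `W = ⊥` then all commutators act trivially and `V = 0` by
`ym_F4`, contradicting `∃ v, v ≠ 0` (`ym_irr`). So `W = ⊤` and `ρ (g ^ (2 ^ (a - 1)))` is the identity. -/
theorem ym_F5V {m a k : ℕ} (hm : Odd m) (ha : 3 ≤ a) (hexp : ∀ x : F, x ^ (m * 2 ^ a) = 1)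
    {Q R : Subgroup F} [Q.Normal] {g τ e e' c : F} {γ : ℕ → F}
    (D : YM m a k Q R g τ e e' c γ) {V : Type} [AddCommGroup V] [Module (ZMod 2) V] [Finite V]
    {ρ : F →* Module.End (ZMod 2) V} {φ : Q → V} (M : ZMd Q R ρ φ) :
    ρ (g ^ (2 ^ (a - 1))) = 1 := by
  obtain ⟨d1, d2, d3, d4⟩ := D.der ha
  have hodd := ym_odd Nat.prime_three (by norm_num) hexp D.core.hR
  have hav := ys_avg (m := m) (a := a) (by omega) hm ρ (⁅R, R⁆ : Subgroup F) (u := g)
    (fun x hx => hodd x (d1 hx)) (fun x hx y hy => d2 x hx y (d1 hy))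
    (d3 g (D.core.hxR g (Or.inl rfl))) D.hg d4 (ym_norm hm hexp D.core.hQ M D.hg)
  obtain ⟨_, _, ⟨v0, hv0⟩, hirr⟩ := ym_irr Nat.prime_three (by norm_num) D.core M
  let W : Submodule (ZMod 2) V :=
    Submodule.span (ZMod 2) {w | ∃ x ∈ (⁅R, R⁆ : Subgroup F), ∃ v, w = ρ x v - v}
  have hWinv : ∀ s : F, (∀ r ∈ R, s * r * s⁻¹ ∈ R) → ∀ w ∈ W, ρ s w ∈ W := by
    intro s hs w hw
    induction hw using Submodule.span_induction with
    | mem w hw =>
      obtain ⟨x, hx, v, rfl⟩ := hw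
      apply Submodule.subset_span
      refine ⟨s * x * s⁻¹, d3 s hs x hx, ρ s v, ?_⟩
      have h1 : ρ s (ρ x v) = ρ (s * x * s⁻¹) (ρ s v) := by
        rw [← Module.End.mul_apply, ← Module.End.mul_apply, ← map_mul, ← map_mul,
          inv_mul_cancel_right]
      rw [map_sub, h1]
    | zero =>
      rw [map_zero]
      exact W.zero_mem
    | add x y _ _ hx hy =>
      rw [map_add]
      exact W.add_mem hx hy
    | smul r x _ hx =>
      rw [map_smul]
      exact W.smul_mem r hx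
  have hfix : ∀ w ∈ W, ρ (g ^ (2 ^ (a - 1))) w = w := by
    intro w hw
    induction hw using Submodule.span_induction with
    | mem w hw =>
      obtain ⟨x, hx, v, rfl⟩ := hw
      exact hav x hx v
    | zero => rw [map_zero]
    | add x y _ _ hx hy => rw [map_add, hx, hy]
    | smul r x _ hx => rw [map_smul, hx]
  rcases hirr W (fun r hr => hWinv r (fun s hs => R.mul_mem (R.mul_mem hr hs) (R.inv_mem hr)))
    (fun x hx => hWinv x (D.core.hxR x hx)) with h | h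
  · exfalso
    apply hv0
    apply ym_F4 hm ha hexp D M v0
    intro b hb d hd
    have h2 : b * d * b⁻¹ * d⁻¹ ∈ (⁅R, R⁆ : Subgroup F) :=
      Subgroup.commutator_mem_commutator hb hd
    have h1 : ρ (b * d * b⁻¹ * d⁻¹) v0 - v0 ∈ W :=
      Submodule.subset_span ⟨b * d * b⁻¹ * d⁻¹, h2, v0, rfl⟩
    rw [h, Submodule.mem_bot, sub_eq_zero] at h1
    exact h1
  · refine LinearMap.ext fun v => ?_
    rw [Module.End.one_apply]
    apply hfix
    rw [h]
    trivial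

/-- **(F5)** `κ = g ^ (2 ^ (a - 1))` centralizes `Q`.

Proof. For `x ∈ Q` let `θ x = x⁻¹ * (κ * x * κ⁻¹) ∈ Q`, `φ (θ x) = ρ κ (φ x) - φ x = 0`, so (`M.ker`) `R`
centralizes `θ x` and `θ x` commutes with `Q`. So `θ (x * y) = y⁻¹ * θ x * (κ * y * κ⁻¹) = θ x * θ y`. For
`r ∈ R`: `θ (r * x * r⁻¹) = r * θ x * r⁻¹ = θ x` (`κ` commutes with `r`, `D.κR`). So
`θ (x⁻¹ * (r * x * r⁻¹)) = (θ x)⁻¹ * θ x = 1`. `ym_QR` for `K = {x ∈ Q | θ x = 1}` (the centralizer of `κ`):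
`θ = 1` on `Q`. -/
theorem ym_F5 {m a k : ℕ} (hm : Odd m) (ha : 3 ≤ a) (hexp : ∀ x : F, x ^ (m * 2 ^ a) = 1)
    {Q R : Subgroup F} [Q.Normal] {g τ e e' c : F} {γ : ℕ → F}
    (D : YM m a k Q R g τ e e' c γ) {V : Type} [AddCommGroup V] [Module (ZMod 2) V] [Finite V]
    {ρ : F →* Module.End (ZMod 2) V} {φ : Q → V} (M : ZMd Q R ρ φ) :
    ∀ x ∈ Q, g ^ (2 ^ (a - 1)) * x = x * g ^ (2 ^ (a - 1)) := by
  have hκ := ym_F5V hm ha hexp D M
  have hκR := D.κR
  generalize g ^ (2 ^ (a - 1)) = κ at hκ hκR ⊢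
  have hφ1 : φ 1 = 0 := by
    have h1 := M.add 1 1
    rw [mul_one] at h1
    exact (left_eq_add.1 h1)
  have hφi : ∀ q : Q, φ q⁻¹ = -φ q := by
    intro q
    have h1 := M.add q q⁻¹
    rw [mul_inv_cancel, hφ1] at h1
    exact (neg_eq_of_add_eq_zero_right h1.symm).symm
  have hθ : ∀ x ∈ Q, (∀ r ∈ R, r * (x⁻¹ * (κ * x * κ⁻¹)) = x⁻¹ * (κ * x * κ⁻¹) * r) ∧
      ∀ y ∈ Q, x⁻¹ * (κ * x * κ⁻¹) * y = y * (x⁻¹ * (κ * x * κ⁻¹)) := by
    intro x hx
    have h1 : φ ((⟨x, hx⟩ : Q)⁻¹ *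
        ⟨κ * x * κ⁻¹, (inferInstance : Q.Normal).conj_mem x hx κ⟩) = 0 := by
      have h2 := M.eqv κ ⟨x, hx⟩
      rw [hκ, Module.End.one_apply] at h2
      rw [M.add, hφi, h2, neg_add_cancel]
    exact M.ker _ h1
  have hQK := ym_QR Nat.prime_three (by norm_num) D.core (Subgroup.centralizer {κ}) ?_
  · intro x hx
    exact (Subgroup.mem_centralizer_iff.1 (hQK hx)) κ rfl
  · intro x hx r hr
    rw [Subgroup.mem_centralizer_iff]
    intro w hw
    rw [Set.mem_singleton_iff] at hw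
    rw [hw]
    clear hw w
    obtain ⟨h1, h2⟩ := hθ x hx
    have hy : x⁻¹ * (r * x * r⁻¹) ∈ Q :=
      Q.mul_mem (Q.inv_mem hx) ((inferInstance : Q.Normal).conj_mem x hx r)
    have h3 := h2 _ hy
    have h4 := h1 r hr
    have h5 := hκR r hr
    have h5' : κ * r⁻¹ = r⁻¹ * κ := by
      calc κ * r⁻¹ = r⁻¹ * (r * κ) * r⁻¹ := by group
        _ = r⁻¹ * (κ * r) * r⁻¹ := by rw [h5]
        _ = r⁻¹ * κ := by group
    -- `κ * x = x * θ x * κ`
    have h6 : κ * x = x * (x⁻¹ * (κ * x * κ⁻¹)) * κ := by group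
    generalize x⁻¹ * (κ * x * κ⁻¹) = θ at h1 h2 h3 h4 h6
    have h7 : κ * x⁻¹ = θ⁻¹ * x⁻¹ * κ := by
      have h8 : x⁻¹ * κ⁻¹ = κ⁻¹ * θ⁻¹ * x⁻¹ := by
        calc x⁻¹ * κ⁻¹ = (κ * x)⁻¹ := by group
          _ = (x * θ * κ)⁻¹ := by rw [h6]
          _ = κ⁻¹ * θ⁻¹ * x⁻¹ := by group
      calc κ * x⁻¹ = κ * (x⁻¹ * κ⁻¹) * κ := by group
        _ = κ * (κ⁻¹ * θ⁻¹ * x⁻¹) * κ := by rw [h8]
        _ = θ⁻¹ * x⁻¹ * κ := by group
    calc κ * (x⁻¹ * (r * x * r⁻¹)) = (κ * x⁻¹) * r * x * r⁻¹ := by group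
      _ = θ⁻¹ * x⁻¹ * (κ * r) * x * r⁻¹ := by rw [h7]; group
      _ = θ⁻¹ * x⁻¹ * r * (κ * x) * r⁻¹ := by rw [h5]; group
      _ = θ⁻¹ * x⁻¹ * r * x * θ * (κ * r⁻¹) := by rw [h6]; group
      _ = θ⁻¹ * x⁻¹ * r * x * r⁻¹ * (r * θ) * r⁻¹ * κ := by rw [h5']; group
      _ = θ⁻¹ * (x⁻¹ * (r * x * r⁻¹) * θ) * κ := by rw [h4]; group
      _ = x⁻¹ * (r * x * r⁻¹) * κ := by rw [← h3]; group

/-- **(F7)** `c` does not centralize `Q`.

Proof. Otherwise the conjugates `(τ ^ i * g ^ l) * c * (τ ^ i * g ^ l)⁻¹` centralize `Q` (`Q` is normal), and so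
do all commutators of `R` (`D.comm_mem` for `K = centralizer Q`). So they act trivially on `V` (`M.eqv`,
`M.surj`: `ρ d (φ x) = φ (d * x * d⁻¹) = φ x`), and `V = 0` by `ym_F4`: contradiction to `ym_irr`. -/
theorem ym_F7 {m a k : ℕ} (hm : Odd m) (ha : 3 ≤ a) (hexp : ∀ x : F, x ^ (m * 2 ^ a) = 1)
    {Q R : Subgroup F} [Q.Normal] {g τ e e' c : F} {γ : ℕ → F}
    (D : YM m a k Q R g τ e e' c γ) {V : Type} [AddCommGroup V] [Module (ZMod 2) V] [Finite V]
    {ρ : F →* Module.End (ZMod 2) V} {φ : Q → V} (M : ZMd Q R ρ φ) :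
    ∃ x ∈ Q, c * x ≠ x * c := by
  by_contra hcon
  push Not at hcon
  obtain ⟨_, _, ⟨v0, hv0⟩, -⟩ := ym_irr Nat.prime_three (by norm_num) D.core M
  have hK := D.comm_mem ha (Subgroup.centralizer (Q : Set F)) (by
    intro i l
    rw [Subgroup.mem_centralizer_iff]
    intro x hx
    generalize τ ^ i * g ^ l = s
    have h1 : s⁻¹ * x * s ∈ Q := by
      have h2 := (inferInstance : Q.Normal).conj_mem x hx s⁻¹
      rwa [inv_inv] at h2
    have h3 := hcon _ h1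
    calc x * (s * c * s⁻¹) = s * ((s⁻¹ * x * s) * c) * s⁻¹ := by group
      _ = s * (c * (s⁻¹ * x * s)) * s⁻¹ := by rw [h3]
      _ = s * c * s⁻¹ * x := by group)
  apply hv0
  apply ym_F4 hm ha hexp D M v0
  intro b hb d hd
  obtain ⟨x, rfl⟩ := M.surj v0
  rw [← M.eqv]
  congr 1
  apply Subtype.ext
  have h1 := (Subgroup.mem_centralizer_iff.1 (hK b hb d hd)) x x.2
  change b * d * b⁻¹ * d⁻¹ * (x : F) * (b * d * b⁻¹ * d⁻¹)⁻¹ = x
  rw [← h1, mul_inv_cancel_right]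

end Pool.Agent.Lib.MP_544bd1_al
end

section

/-!
Theorem Z (paper 287), (L2) over the field with two elements, (U1).
-/

namespace Pool.Agent.Lib.MP_544bd1_al

open Finset Subgroup TensorProduct

private theorem ysU1_inj {V : Type} [AddCommGroup V] [Module (ZMod 2) V]
    {f g : Module.End (ZMod 2) V}
    (h : Module.End.baseChangeHom (ZMod 2) (AlgebraicClosure (ZMod 2)) V f =
      Module.End.baseChangeHom (ZMod 2) (AlgebraicClosure (ZMod 2)) V g) : f = g := by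
  have hβ : ∀ (f : Module.End (ZMod 2) V) (v : V),
      Module.End.baseChangeHom (ZMod 2) (AlgebraicClosure (ZMod 2)) V f
        ((1 : AlgebraicClosure (ZMod 2)) ⊗ₜ v) = (1 : AlgebraicClosure (ZMod 2)) ⊗ₜ f v := by
    intro f v
    exact LinearMap.baseChange_tmul _ _ _
  apply LinearMap.ext
  intro v
  apply Module.FaithfullyFlat.tensorProduct_mk_injective (A := ZMod 2)
    (B := AlgebraicClosure (ZMod 2)) V
  show (1 : AlgebraicClosure (ZMod 2)) ⊗ₜ[ZMod 2] _ =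
    (1 : AlgebraicClosure (ZMod 2)) ⊗ₜ[ZMod 2] _
  rw [← hβ, ← hβ, h]

private theorem ysU1_ldat {V R : Type} [AddCommGroup V] [Module (ZMod 2) V] [Group R]
    {q : ℕ} {α : R →* R} {ρ : R →* Module.End (ZMod 2) V}
    {U : Module.End (ZMod 2) V} (D : LDat q α ρ U) :
    LDat q α ((Module.End.baseChangeHom (ZMod 2) (AlgebraicClosure (ZMod 2)) V :
      Module.End (ZMod 2) V →* _).comp ρ)
      (Module.End.baseChangeHom (ZMod 2) (AlgebraicClosure (ZMod 2)) V U) := by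
  let β := Module.End.baseChangeHom (ZMod 2) (AlgebraicClosure (ZMod 2)) V
  refine ⟨fun x => ?_, ?_, ?_⟩
  · show β U * β (ρ x) = β (ρ (α x)) * β U
    rw [← map_mul, D.hU, map_mul]
  · rw [← map_pow, D.hq, map_one]
  · simp_rw [← map_pow]
    rw [← map_sum, D.hN, map_zero]

/-- the commutator subgroup is central -/
private theorem ysU1_cen {R : Type} [Group R]
    (hcl : ∀ x y w : R, x * y * x⁻¹ * y⁻¹ * w = w * (x * y * x⁻¹ * y⁻¹)) :
    ∀ c ∈ commutator R, ∀ d, c * d = d * c := by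
  intro c hc d
  have h1 : commutator R ≤ center R := by
    rw [commutator_def, Subgroup.commutator_le]
    intro x _ y _
    rw [Subgroup.mem_center_iff]
    intro w
    exact (hcl x y w).symm
  exact (Subgroup.mem_center_iff.1 (h1 hc) d).symm

private theorem ysU1_map {R : Type} [Group R] (α : R →* R) {c : R} (hc : c ∈ commutator R) :
    ∀ n : ℕ, α^[n] c ∈ commutator R := by
  have h1 : ∀ d ∈ commutator R, α d ∈ commutator R := by
    intro d hd
    have h2 : (commutator R).map α ≤ commutator R := by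
      rw [commutator_def, Subgroup.map_commutator]
      exact Subgroup.commutator_mono le_top le_top
    exact h2 ⟨d, hd, rfl⟩
  intro n
  induction n with
  | zero => exact hc
  | succ n ih =>
    rw [Function.iterate_succ_apply']
    exact h1 _ ih

private theorem ysU1_comm {R : Type} [Group R] (x y : R) : x * y * x⁻¹ * y⁻¹ ∈ commutator R := by
  rw [commutator_def]
  exact Subgroup.commutator_mem_commutator (Subgroup.mem_top x) (Subgroup.mem_top y)

private theorem ysU1_odd {r : ℕ} (hr : r.Prime) (hr2 : r ≠ 2) {R : Type} [Group R] [Finite R]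
    (hR : IsPGroup r R) : Odd (Nat.card R) := by
  have : Fact r.Prime := ⟨hr⟩
  obtain ⟨n, hn⟩ := IsPGroup.iff_card.1 hR
  rw [hn]
  exact (hr.odd_of_ne_two hr2).pow

/-- **(U1)** `α^[2 ^ (a - b)]` centralizes the commutator subgroup, `r = 2 ^ b - 1`.

Proof. Base change to `K = AlgebraicClosure (ZMod 2)` (see `zt_LZ`, ZtLL.lean): `ρK`, `UK` on
`K ⊗ V`. Let `C = commutator R` (abelian, of odd order: `hcl`, `hR`). By `ys_wtsum` with
`T = ρK c - 1` for some `c ∈ C` with `ρ c ≠ 1` there is a weight vector `v ≠ 0` with weight `χ`,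
`χ c ≠ 1`; `ys_wt` gives `b` with `2 ≤ b ≤ a`, `r + 1 = 2 ^ b` (`b` is determined by `r`). For
`c ∈ C` let `T = ρK (α^[2 ^ (a - b)] c) - ρK c`: it is `0` on all weight vectors (if `χ = 1` on `C`
clear, since `α` preserves `C`; otherwise by `ys_wt`, whose `b` is the same), so `T = 0` by
`ys_wtsum`, and the base change is injective on `Module.End`. -/
theorem ys_U1 {r : ℕ} (hr : r.Prime) (hr2 : r ≠ 2) {V R : Type} [AddCommGroup V]
    [Module (ZMod 2) V] [Finite V] [Group R] [Finite R] (hR : IsPGroup r R) {a : ℕ} (ha : 0 < a)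
    {α : R →* R} {ρ : R →* Module.End (ZMod 2) V} {U : Module.End (ZMod 2) V}
    (D : LDat (2 ^ a) α ρ U) (hα : ∀ x, α^[2 ^ a] x = x)
    (hcl : ∀ x y w : R, x * y * x⁻¹ * y⁻¹ * w = w * (x * y * x⁻¹ * y⁻¹))
    (hinv : ∀ x : R, α^[2 ^ (a - 1)] x * x ∈ commutator R)
    (hcen : ∀ c ∈ commutator R, α^[2 ^ (a - 1)] c = c)
    (hne : ∃ c ∈ commutator R, ρ c ≠ 1) :
    ∃ b, 2 ≤ b ∧ b ≤ a ∧ r + 1 = 2 ^ b ∧
      ∀ c ∈ commutator R, ρ (α^[2 ^ (a - b)] c) = ρ c := by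
  have hfin : Module.Finite (ZMod 2) V := Module.Finite.of_finite
  have hch : CharP (AlgebraicClosure (ZMod 2)) 2 :=
    charP_of_injective_algebraMap (algebraMap (ZMod 2) (AlgebraicClosure (ZMod 2))).injective 2
  have D' := ysU1_ldat D
  have hodd := ysU1_odd hr hr2 hR
  have hcomm : ∀ c ∈ commutator R, ∀ d ∈ commutator R, c * d = d * c :=
    fun c hc d _ => ysU1_cen hcl c hc d
  have hpow : ∀ c ∈ commutator R, c ^ Nat.card R = 1 := fun c _ => pow_card_eq_one'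
  set ρK : R →* Module.End (AlgebraicClosure (ZMod 2)) (AlgebraicClosure (ZMod 2) ⊗[ZMod 2] V) :=
    (Module.End.baseChangeHom (ZMod 2) (AlgebraicClosure (ZMod 2)) V :
      Module.End (ZMod 2) V →* _).comp ρ with hρK
  have hρK' : ∀ x, ρK x = Module.End.baseChangeHom (ZMod 2) (AlgebraicClosure (ZMod 2)) V (ρ x) :=
    fun x => rfl
  obtain ⟨c₀, hc₀, hρc₀⟩ := hne
  -- a weight different from 1
  have hex : ∃ (χ : R → AlgebraicClosure (ZMod 2)) (v : AlgebraicClosure (ZMod 2) ⊗[ZMod 2] V),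
      v ≠ 0 ∧ (∀ c ∈ commutator R, ρK c v = χ c • v) ∧ χ c₀ ≠ 1 := by
    by_contra hcon
    apply hρc₀
    apply ysU1_inj
    rw [map_one, ← hρK', ← sub_eq_zero]
    refine ys_wtsum hodd ρK (commutator R) hpow hcomm _ fun χ v hv => ?_
    by_cases hv0 : v = 0
    · rw [hv0, map_zero]
    · by_cases h1 : χ c₀ = 1
      · rw [LinearMap.sub_apply, hv c₀ hc₀, h1, one_smul, Module.End.one_apply, sub_self]
      · exact absurd ⟨χ, v, hv0, hv, h1⟩ hcon
  obtain ⟨χ, v, hv, hχ, hχc⟩ := hex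
  obtain ⟨b, hb1, hb2, hb3, -⟩ := ys_wt hr hr2 hR ha D' hα hcl hinv hcen χ v hv hχ ⟨c₀, hc₀, hχc⟩
  refine ⟨b, hb1, hb2, hb3, fun c hc => ?_⟩
  apply ysU1_inj
  rw [← hρK', ← hρK', ← sub_eq_zero]
  refine ys_wtsum hodd ρK (commutator R) hpow hcomm _ fun ψ w hw => ?_
  rw [LinearMap.sub_apply, hw c hc, hw _ (ysU1_map α hc _)]
  by_cases hw0 : w = 0
  · rw [hw0, smul_zero, smul_zero, sub_zero]
  · by_cases h1 : ∃ d ∈ commutator R, ψ d ≠ 1
    · obtain ⟨b', -, -, hb3', hb4, -⟩ := ys_wt hr hr2 hR ha D' hα hcl hinv hcen ψ w hw0 hw h1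
      have h2 : b' = b := Nat.pow_right_injective le_rfl (hb3'.symm.trans hb3)
      rw [h2] at hb4
      rw [hb4 c hc, sub_self]
    · push Not at h1
      rw [h1 c hc, h1 _ (ysU1_map α hc _), sub_self]

end Pool.Agent.Lib.MP_544bd1_al
end

section

/-!
Theorem Z (paper 287), (L2) over the field with two elements, (U3).
-/

namespace Pool.Agent.Lib.MP_544bd1_al

open Finset Subgroup TensorProduct

private theorem ysU3_inj {V : Type} [AddCommGroup V] [Module (ZMod 2) V]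
    {f g : Module.End (ZMod 2) V}
    (h : Module.End.baseChangeHom (ZMod 2) (AlgebraicClosure (ZMod 2)) V f =
      Module.End.baseChangeHom (ZMod 2) (AlgebraicClosure (ZMod 2)) V g) : f = g := by
  have hβ : ∀ (f : Module.End (ZMod 2) V) (v : V),
      Module.End.baseChangeHom (ZMod 2) (AlgebraicClosure (ZMod 2)) V f
        ((1 : AlgebraicClosure (ZMod 2)) ⊗ₜ v) = (1 : AlgebraicClosure (ZMod 2)) ⊗ₜ f v := by
    intro f v
    exact LinearMap.baseChange_tmul _ _ _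
  apply LinearMap.ext
  intro v
  apply Module.FaithfullyFlat.tensorProduct_mk_injective (A := ZMod 2)
    (B := AlgebraicClosure (ZMod 2)) V
  show (1 : AlgebraicClosure (ZMod 2)) ⊗ₜ[ZMod 2] _ =
    (1 : AlgebraicClosure (ZMod 2)) ⊗ₜ[ZMod 2] _
  rw [← hβ, ← hβ, h]

private theorem ysU3_ldat {V R : Type} [AddCommGroup V] [Module (ZMod 2) V] [Group R]
    {q : ℕ} {α : R →* R} {ρ : R →* Module.End (ZMod 2) V}
    {U : Module.End (ZMod 2) V} (D : LDat q α ρ U) :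
    LDat q α ((Module.End.baseChangeHom (ZMod 2) (AlgebraicClosure (ZMod 2)) V :
      Module.End (ZMod 2) V →* _).comp ρ)
      (Module.End.baseChangeHom (ZMod 2) (AlgebraicClosure (ZMod 2)) V U) := by
  let β := Module.End.baseChangeHom (ZMod 2) (AlgebraicClosure (ZMod 2)) V
  refine ⟨fun x => ?_, ?_, ?_⟩
  · show β U * β (ρ x) = β (ρ (α x)) * β U
    rw [← map_mul, D.hU, map_mul]
  · rw [← map_pow, D.hq, map_one]
  · simp_rw [← map_pow]
    rw [← map_sum, D.hN, map_zero]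

/-- the commutator subgroup is central -/
private theorem ysU3_cen {R : Type} [Group R]
    (hcl : ∀ x y w : R, x * y * x⁻¹ * y⁻¹ * w = w * (x * y * x⁻¹ * y⁻¹)) :
    ∀ c ∈ commutator R, ∀ d, c * d = d * c := by
  intro c hc d
  have h1 : commutator R ≤ center R := by
    rw [commutator_def, Subgroup.commutator_le]
    intro x _ y _
    rw [Subgroup.mem_center_iff]
    intro w
    exact (hcl x y w).symm
  exact (Subgroup.mem_center_iff.1 (h1 hc) d).symm

private theorem ysU3_map {R : Type} [Group R] (α : R →* R) {c : R} (hc : c ∈ commutator R) :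
    ∀ n : ℕ, α^[n] c ∈ commutator R := by
  have h1 : ∀ d ∈ commutator R, α d ∈ commutator R := by
    intro d hd
    have h2 : (commutator R).map α ≤ commutator R := by
      rw [commutator_def, Subgroup.map_commutator]
      exact Subgroup.commutator_mono le_top le_top
    exact h2 ⟨d, hd, rfl⟩
  intro n
  induction n with
  | zero => exact hc
  | succ n ih =>
    rw [Function.iterate_succ_apply']
    exact h1 _ ih

private theorem ysU3_comm {R : Type} [Group R] (x y : R) : x * y * x⁻¹ * y⁻¹ ∈ commutator R := by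
  rw [commutator_def]
  exact Subgroup.commutator_mem_commutator (Subgroup.mem_top x) (Subgroup.mem_top y)

private theorem ysU3_odd {r : ℕ} (hr : r.Prime) (hr2 : r ≠ 2) {R : Type} [Group R] [Finite R]
    (hR : IsPGroup r R) : Odd (Nat.card R) := by
  have : Fact r.Prime := ⟨hr⟩
  obtain ⟨n, hn⟩ := IsPGroup.iff_card.1 hR
  rw [hn]
  exact (hr.odd_of_ne_two hr2).pow

/-- **(U3)** an element `x` inverted by `α^[2 ^ (a - 1)]` and commuting with `y₁, y₂` acts trivially on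
`[V, [y₁, y₂]]`.

Proof. Base change as in `ys_U1`; let `c = y₁ * y₂ * y₁⁻¹ * y₂⁻¹`, `T = (ρK x - 1) * (ρK c - 1)`. By
`ys_wtsum` it is enough that `T v = 0` for every weight vector `v` of `C = commutator R`, of weight
`χ`. If `v = 0` or `χ c = 1` this is clear. Otherwise `ys_wt` applies: `Rd` has index `r ^ 2`. Let
`Y₁ = {y | χ (y₁ * y * y₁⁻¹ * y⁻¹) = 1}`, a subgroup (`y ↦ χ (y₁ * y * y₁⁻¹ * y⁻¹)` is multiplicative)
containing `Rd` and `y₁`, not `y₂`; `y₁ ∉ Rd`. So `Rd < Rd ⊔ zpowers y₁ ≤ Y₁ < ⊤`, all indices are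
powers of `r`, so `Rd ⊔ zpowers y₁` has index `r` and `Rd ⊔ zpowers y₁ ⊔ zpowers y₂ = ⊤`. The subgroup
`{y | χ (x * y * x⁻¹ * y⁻¹) = 1}` contains `Rd`, `y₁`, `y₂` (`h1`, `h2`), so it is `⊤`. The last part of
`ys_wt`: `ρK x⁻¹ w = ρK x w` for all `w` of weight `χ`, so `ρK (x ^ 2) w = w` and `ρK x w = w` (`x` is a
power of `x ^ 2`; iterate: `ρK (x ^ 2)` fixes all `w` of weight `χ`). With `w = v` and `w = ρK c v`
(again of weight `χ`): `T v = 0`. -/
theorem ys_U3 {r : ℕ} (hr : r.Prime) (hr2 : r ≠ 2) {V R : Type} [AddCommGroup V]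
    [Module (ZMod 2) V] [Finite V] [Group R] [Finite R] (hR : IsPGroup r R) {a : ℕ} (ha : 0 < a)
    {α : R →* R} {ρ : R →* Module.End (ZMod 2) V} {U : Module.End (ZMod 2) V}
    (D : LDat (2 ^ a) α ρ U) (hα : ∀ x, α^[2 ^ a] x = x)
    (hcl : ∀ x y w : R, x * y * x⁻¹ * y⁻¹ * w = w * (x * y * x⁻¹ * y⁻¹))
    (hinv : ∀ x : R, α^[2 ^ (a - 1)] x * x ∈ commutator R)
    (hcen : ∀ c ∈ commutator R, α^[2 ^ (a - 1)] c = c) {x y₁ y₂ : R} (h1 : x * y₁ = y₁ * x)
    (h2 : x * y₂ = y₂ * x) (hx : α^[2 ^ (a - 1)] x = x⁻¹) (v : V) :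
    ρ x (ρ (y₁ * y₂ * y₁⁻¹ * y₂⁻¹) v - v) = ρ (y₁ * y₂ * y₁⁻¹ * y₂⁻¹) v - v := by
  have hfin : Module.Finite (ZMod 2) V := Module.Finite.of_finite
  have hch : CharP (AlgebraicClosure (ZMod 2)) 2 :=
    charP_of_injective_algebraMap (algebraMap (ZMod 2) (AlgebraicClosure (ZMod 2))).injective 2
  have D' := ysU3_ldat D
  have hodd := ysU3_odd hr hr2 hR
  have hcent := ysU3_cen hcl
  have hcomm : ∀ c ∈ commutator R, ∀ d ∈ commutator R, c * d = d * c :=
    fun c hc d _ => hcent c hc d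
  have hpow : ∀ c ∈ commutator R, c ^ Nat.card R = 1 := fun c _ => pow_card_eq_one'
  set ρK : R →* Module.End (AlgebraicClosure (ZMod 2)) (AlgebraicClosure (ZMod 2) ⊗[ZMod 2] V) :=
    (Module.End.baseChangeHom (ZMod 2) (AlgebraicClosure (ZMod 2)) V :
      Module.End (ZMod 2) V →* _).comp ρ with hρK
  have hρK' : ∀ x, ρK x = Module.End.baseChangeHom (ZMod 2) (AlgebraicClosure (ZMod 2)) V (ρ x) :=
    fun x => rfl
  set c := y₁ * y₂ * y₁⁻¹ * y₂⁻¹ with hc
  have hcC : c ∈ commutator R := ysU3_comm y₁ y₂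
  have hT : (ρK x - 1) * (ρK c - 1) = 0 := by
    refine ys_wtsum hodd ρK (commutator R) hpow hcomm _ fun χ w hw => ?_
    have h3 : (ρK c - 1) w = (χ c - 1) • w := by
      have h4 : (χ c - 1) • w = χ c • w - (1 : AlgebraicClosure (ZMod 2)) • w :=
        sub_smul (χ c) (1 : AlgebraicClosure (ZMod 2)) w
      rw [h4, one_smul, LinearMap.sub_apply, hw c hcC, Module.End.one_apply]
    rw [Module.End.mul_apply, h3]
    by_cases hw0 : w = 0
    · rw [hw0, smul_zero, map_zero]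
    by_cases hχc : χ c = 1
    · rw [hχc, sub_self, zero_smul, map_zero]
    rw [map_smul]
    -- multiplicativity of the weight
    have hmul : ∀ d ∈ commutator R, ∀ e ∈ commutator R, χ (d * e) = χ d * χ e := by
      intro d hd e he
      have h4 : χ (d * e) • w = (χ d * χ e) • w := by
        rw [← hw _ (mul_mem hd he), map_mul, Module.End.mul_apply, hw e he, map_smul, hw d hd,
          smul_smul, mul_comm]
      exact smul_left_injective _ hw0 h4
    have hone : χ 1 = 1 := by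
      have h4 : χ 1 • w = (1 : AlgebraicClosure (ZMod 2)) • w := by
        rw [← hw 1 (one_mem _), map_one, Module.End.one_apply, one_smul]
      exact smul_left_injective _ hw0 h4
    have hinvχ : ∀ d ∈ commutator R, χ d = 1 → χ d⁻¹ = 1 := by
      intro d hd h4
      have h5 := hmul d hd d⁻¹ (inv_mem hd)
      rw [mul_inv_cancel, hone, h4, one_mul] at h5
      exact h5.symm
    -- the subgroups `S u`
    have hbil : ∀ u y y' : R, u * (y * y') * u⁻¹ * (y * y')⁻¹ =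
        (u * y * u⁻¹ * y⁻¹) * (u * y' * u⁻¹ * y'⁻¹) := by
      intro u y y'
      calc u * (y * y') * u⁻¹ * (y * y')⁻¹
          = (u * y * u⁻¹) * ((u * y' * u⁻¹ * y'⁻¹) * y⁻¹) := by group
        _ = (u * y * u⁻¹) * (y⁻¹ * (u * y' * u⁻¹ * y'⁻¹)) := by rw [hcl u y' y⁻¹]
        _ = _ := by group
    let S : R → Subgroup R := fun u =>
      { carrier := {y | χ (u * y * u⁻¹ * y⁻¹) = 1}
        mul_mem' := by
          intro y y' h4 h5
          show χ _ = 1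
          have h4' : χ (u * y * u⁻¹ * y⁻¹) = 1 := h4
          have h5' : χ (u * y' * u⁻¹ * y'⁻¹) = 1 := h5
          rw [hbil, hmul _ (ysU3_comm _ _) _ (ysU3_comm _ _), h4', h5', one_mul]
        one_mem' := by
          show χ _ = 1
          rw [mul_one, mul_inv_cancel, one_mul, inv_one, hone]
        inv_mem' := by
          intro y h4
          show χ _ = 1
          have h4' : χ (u * y * u⁻¹ * y⁻¹) = 1 := h4
          have h5 := hbil u y y⁻¹
          have h6 : u * (y * y⁻¹) * u⁻¹ * (y * y⁻¹)⁻¹ = 1 := by group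
          rw [h6] at h5
          have h7 : u * y⁻¹ * u⁻¹ * y⁻¹⁻¹ = (u * y * u⁻¹ * y⁻¹)⁻¹ :=
            (inv_eq_of_mul_eq_one_right h5.symm).symm
          rw [h7]
          exact hinvχ _ (ysU3_comm _ _) h4' }
    have hS : ∀ u y, y ∈ S u ↔ χ (u * y * u⁻¹ * y⁻¹) = 1 := fun u y => Iff.rfl
    obtain ⟨b, hb1, hb2, hb3, hb4, ⟨Rd, hRd, hidx⟩, hlast⟩ :=
      ys_wt hr hr2 hR ha D' hα hcl hinv hcen χ w hw0 hw ⟨c, hcC, hχc⟩
    have hRdS : ∀ u, Rd ≤ S u := by
      intro u y hy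
      rw [hS]
      have h4 := hinvχ _ (ysU3_comm y u) ((hRd y).1 hy u)
      have h5 : (y * u * y⁻¹ * u⁻¹)⁻¹ = u * y * u⁻¹ * y⁻¹ := by group
      rwa [h5] at h4
    have hy₁ : y₁ ∉ Rd := fun h => hχc ((hRd y₁).1 h y₂)
    have hy₁S : y₁ ∈ S y₁ := by
      rw [hS]
      have : y₁ * y₁ * y₁⁻¹ * y₁⁻¹ = 1 := by group
      rw [this, hone]
    have hy₂S : y₂ ∉ S y₁ := hχc
    have hA : Rd ⊔ zpowers y₁ ≤ S y₁ := sup_le (hRdS y₁) ((zpowers_le).2 hy₁S)
    have hlt1 : Rd < Rd ⊔ zpowers y₁ := by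
      refine lt_of_le_of_ne le_sup_left fun h => hy₁ ?_
      rw [h]
      exact (le_sup_right : zpowers y₁ ≤ _) (mem_zpowers y₁)
    have hlt2 : Rd ⊔ zpowers y₁ < (Rd ⊔ zpowers y₁) ⊔ zpowers y₂ := by
      refine lt_of_le_of_ne le_sup_left fun h => hy₂S (hA ?_)
      rw [h]
      exact (le_sup_right : zpowers y₂ ≤ _) (mem_zpowers y₂)
    have hi1 := Subgroup.index_strictAnti hlt1
    have hi2 := Subgroup.index_strictAnti hlt2
    have hd1 := Subgroup.index_dvd_of_le hlt1.le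
    have hd2 := Subgroup.index_dvd_of_le hlt2.le
    rw [hidx] at hi1 hd1
    obtain ⟨i, hi, hi'⟩ := (Nat.dvd_prime_pow hr).1 hd1
    have hi3 : i < 2 := by
      rw [hi'] at hi1
      exact (Nat.pow_lt_pow_iff_right hr.one_lt).1 hi1
    rw [hi'] at hi2 hd2
    obtain ⟨j, hj, hj'⟩ := (Nat.dvd_prime_pow hr).1 hd2
    rw [hj'] at hi2
    have hj3 : j < i := (Nat.pow_lt_pow_iff_right hr.one_lt).1 hi2
    have hj0 : j = 0 := by omega
    rw [hj0, pow_zero, Subgroup.index_eq_one] at hj'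
    have htop : ∀ y, χ (x * y * x⁻¹ * y⁻¹) = 1 := by
      intro y
      rw [← hS]
      have h4 : (Rd ⊔ zpowers y₁) ⊔ zpowers y₂ ≤ S x := by
        refine sup_le (sup_le (hRdS x) ((zpowers_le).2 ?_)) ((zpowers_le).2 ?_)
        · rw [hS, h1]
          have : y₁ * x * x⁻¹ * y₁⁻¹ = 1 := by group
          rw [this, hone]
        · rw [hS, h2]
          have : y₂ * x * x⁻¹ * y₂⁻¹ = 1 := by group
          rw [this, hone]
      rw [hj'] at h4
      exact h4 (mem_top y)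
    have hl := hlast x htop
    rw [hx] at hl
    -- `x ^ 2` fixes the weight vectors
    have hfix2 : ∀ u, (∀ d ∈ commutator R, ρK d u = χ d • u) → ρK (x ^ 2) u = u := by
      intro u hu
      have h4 : ∀ d ∈ commutator R, ρK d (ρK x⁻¹ u) = χ d • (ρK x⁻¹ u) := by
        intro d hd
        rw [← Module.End.mul_apply, ← map_mul, hcent d hd, map_mul, Module.End.mul_apply, hu d hd,
          map_smul]
      have h5 := hl _ h4
      have h6 : ρK x (ρK x⁻¹ u) = u := by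
        rw [← Module.End.mul_apply, ← map_mul, mul_inv_cancel, map_one, Module.End.one_apply]
      have h7 : ρK (x⁻¹ * x⁻¹) u = u := by
        rw [map_mul, Module.End.mul_apply, h5, h6]
      calc ρK (x ^ 2) u = ρK (x ^ 2) (ρK (x⁻¹ * x⁻¹) u) := by rw [h7]
        _ = ρK (x ^ 2 * (x⁻¹ * x⁻¹)) u := by
          rw [map_mul ρK (x ^ 2) (x⁻¹ * x⁻¹), Module.End.mul_apply]
        _ = u := by
          have : x ^ 2 * (x⁻¹ * x⁻¹) = 1 := by
            rw [pow_two, ← mul_inv_rev, mul_inv_cancel]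
          rw [this, map_one, Module.End.one_apply]
    have hfixn : ∀ n : ℕ, ρK ((x ^ 2) ^ n) w = w := by
      intro n
      induction n with
      | zero => rw [pow_zero, map_one, Module.End.one_apply]
      | succ n ih => rw [pow_succ, map_mul, Module.End.mul_apply, hfix2 w hw, ih]
    obtain ⟨k, hk⟩ := hodd
    have hxk : (x ^ 2) ^ (k + 1) = x := by
      have h4 : x ^ Nat.card R = 1 := pow_card_eq_one'
      rw [← pow_mul]
      have h5 : 2 * (k + 1) = Nat.card R + 1 := by omega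
      rw [h5, pow_succ, h4, one_mul]
    have hxw : ρK x w = w := by
      have := hfixn (k + 1)
      rwa [hxk] at this
    rw [LinearMap.sub_apply, hxw, Module.End.one_apply, sub_self, smul_zero]
  have hT2 : (ρ x - 1) * (ρ c - 1) = 0 := by
    apply ysU3_inj
    rw [map_zero, map_mul, map_sub, map_sub, map_one]
    exact hT
  have h3 := congrArg (fun f : Module.End (ZMod 2) V => f v) hT2
  have h4 : ρ x (ρ c v - v) - (ρ c v - v) = 0 := h3
  exact sub_eq_zero.1 h4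

end Pool.Agent.Lib.MP_544bd1_al
end

section

/-!
Theorem Z (paper 287), 4.2: the structure of `B`.
-/

namespace Pool.Agent.Lib.MP_544bd1_al

open Subgroup

/-- (U1) for one element and one subgroup -/
theorem strB_aux {m a r : ℕ} (ha : 0 < a) {H : Type} [Group H] [Finite H]
    (hV : ZRep m a H) (hr : r.Prime) (hr2 : r ≠ 2) {S : Set H} (hB : IsPGroup r (closure S))
    (hBm : ∀ x ∈ closure S, x ^ m = 1)
    (hcl : ∀ x ∈ closure S, ∀ y ∈ closure S, ∀ w ∈ closure S,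
      x * y * x⁻¹ * y⁻¹ * w = w * (x * y * x⁻¹ * y⁻¹)) {u : H} (hu : u ^ (2 ^ a) = 1)
    (huB : ∀ x ∈ closure S, u * x * u⁻¹ ∈ closure S)
    (hinv : ∀ x ∈ S, u ^ (2 ^ (a - 1)) * x * (u ^ (2 ^ (a - 1)))⁻¹ = x⁻¹)
    (hcen : ∀ x ∈ closure S, ∀ y ∈ closure S,
      u ^ (2 ^ (a - 1)) * (x * y * x⁻¹ * y⁻¹) = x * y * x⁻¹ * y⁻¹ * u ^ (2 ^ (a - 1)))
    (hne : ∃ x ∈ closure S, ∃ y ∈ closure S, x * y ≠ y * x) :
    ∃ b, 2 ≤ b ∧ b ≤ a ∧ r + 1 = 2 ^ b ∧ ∀ x ∈ closure S, ∀ y ∈ closure S,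
      u ^ (2 ^ (a - b)) * (x * y * x⁻¹ * y⁻¹) = x * y * x⁻¹ * y⁻¹ * u ^ (2 ^ (a - b)) := by
  classical
  obtain ⟨V, _, _, _, τ, hfaith, hnorm⟩ := hV
  have hconj := fun k : ℕ => ys_pow_mem huB k
  let cj : ∀ t : H, (∀ x ∈ closure S, t * x * t⁻¹ ∈ closure S) → (closure S →* closure S) :=
    fun t ht => MonoidHom.mk' (fun y => ⟨t * y * t⁻¹, ht y y.2⟩) (by
      intro y w
      apply Subtype.ext
      simp only [Subgroup.coe_mul]
      group)
  let α : closure S →* closure S := cj u huB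
  have hα : ∀ y : closure S, ((α y : closure S) : H) = u * y * u⁻¹ := fun y => rfl
  have hαk : ∀ (k : ℕ) (y : closure S), ((α^[k] y : closure S) : H) = u ^ k * y * (u ^ k)⁻¹ := by
    intro k y
    induction k with
    | zero => simp
    | succ k ih =>
      rw [Function.iterate_succ_apply', hα, ih, pow_succ']
      group
  have hD : LDat (2 ^ a) α (τ.comp (closure S).subtype) (τ u) := by
    refine ⟨?_, ?_, ?_⟩
    · intro y
      simp only [MonoidHom.comp_apply, Subgroup.coe_subtype]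
      rw [hα, ← map_mul, ← map_mul]
      congr 1
      group
    · rw [← map_pow, hu, map_one]
    · exact hnorm u hu
  let σ : closure S →* closure S := cj (u ^ (2 ^ (a - 1))) (hconj _)
  have hσ : ∀ y : closure S, α^[2 ^ (a - 1)] y = σ y := fun y => Subtype.ext (hαk _ y)
  have hinv' : ∀ x : closure S, α^[2 ^ (a - 1)] x * x ∈ commutator (closure S) := by
    let φ : closure S →* Abelianization (closure S) :=
      (Abelianization.of.comp σ) * Abelianization.of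
    have hφ : ∀ y : closure S, φ y = Abelianization.of (σ y * y) := fun y => by
      rw [map_mul]; rfl
    have h1 : ∀ x (hx : x ∈ closure S), φ ⟨x, hx⟩ = 1 := by
      intro x hx
      induction hx using closure_induction with
      | mem x hx =>
        rw [hφ]
        have h2 : σ ⟨x, subset_closure hx⟩ * ⟨x, subset_closure hx⟩ = 1 := by
          apply Subtype.ext
          change u ^ (2 ^ (a - 1)) * x * (u ^ (2 ^ (a - 1)))⁻¹ * x = 1
          rw [hinv x hx, inv_mul_cancel]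
        rw [h2, map_one]
      | one => exact φ.map_one
      | mul x y hx hy h2 h3 =>
        have h4 : φ (⟨x, hx⟩ * ⟨y, hy⟩) = 1 := by rw [map_mul, h2, h3, mul_one]
        exact h4
      | inv x hx h2 =>
        have h4 : φ (⟨x, hx⟩⁻¹) = 1 := by rw [map_inv, h2, inv_one]
        exact h4
    intro x
    rw [hσ]
    have h2 := h1 x x.2
    rw [hφ] at h2
    exact (QuotientGroup.eq_one_iff _).1 h2
  have hcomm : ∀ K : Subgroup (closure S), (∀ x y : closure S, x * y * x⁻¹ * y⁻¹ ∈ K) →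
      commutator (closure S) ≤ K := by
    intro K hK
    rw [commutator_eq_closure, closure_le]
    rintro _ ⟨x, y, rfl⟩
    exact hK x y
  have hcen' : ∀ c ∈ commutator (closure S), α^[2 ^ (a - 1)] c = c := by
    intro c hc
    rw [hσ]
    refine hcomm (σ.eqLocus (MonoidHom.id _)) ?_ hc
    intro x y
    apply Subtype.ext
    change u ^ (2 ^ (a - 1)) * ((x : H) * y * (x : H)⁻¹ * (y : H)⁻¹) * (u ^ (2 ^ (a - 1)))⁻¹ = _
    rw [hcen x x.2 y y.2]
    change _ = (x : H) * y * (x : H)⁻¹ * (y : H)⁻¹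
    group
  have hmem : ∀ x y : closure S, x * y * x⁻¹ * y⁻¹ ∈ commutator (closure S) := by
    intro x y
    rw [← Abelianization.ker_of, MonoidHom.mem_ker, map_mul, map_mul, map_mul, map_inv, map_inv,
      mul_comm (Abelianization.of x) (Abelianization.of y)]
    group
  have hne' : ∃ c ∈ commutator (closure S), (τ.comp (closure S).subtype) c ≠ 1 := by
    obtain ⟨x, hx, y, hy, hxy⟩ := hne
    refine ⟨_, hmem ⟨x, hx⟩ ⟨y, hy⟩, fun h => hxy ?_⟩
    have h1 : τ (x * y * x⁻¹ * y⁻¹) = 1 := h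
    have h3 := hfaith _ (hBm _ ((closure S).mul_mem ((closure S).mul_mem ((closure S).mul_mem hx hy)
      ((closure S).inv_mem hx)) ((closure S).inv_mem hy))) h1
    calc x * y = (x * y * x⁻¹ * y⁻¹) * (y * x) := by group
      _ = y * x := by rw [h3, one_mul]
  obtain ⟨b, hb1, hb2, hb3, hb4⟩ := ys_U1 hr hr2 hB ha hD (fun x => by
      apply Subtype.ext
      rw [hαk, hu]
      group)
    (fun x y w => Subtype.ext (hcl x x.2 y y.2 w w.2)) hinv' hcen' hne'
  refine ⟨b, hb1, hb2, hb3, ?_⟩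
  intro x hx y hy
  have h1 := hb4 _ (hmem ⟨x, hx⟩ ⟨y, hy⟩)
  have h2 : τ (u ^ (2 ^ (a - b)) * (x * y * x⁻¹ * y⁻¹) * (u ^ (2 ^ (a - b)))⁻¹) =
      τ (x * y * x⁻¹ * y⁻¹) := by
    have h3 := hαk (2 ^ (a - b)) ((⟨x, hx⟩ : closure S) * ⟨y, hy⟩ * ⟨x, hx⟩⁻¹ * ⟨y, hy⟩⁻¹)
    have h4 : τ ((α^[2 ^ (a - b)] ((⟨x, hx⟩ : closure S) * ⟨y, hy⟩ * ⟨x, hx⟩⁻¹ *
        ⟨y, hy⟩⁻¹) : closure S) : H) = τ (x * y * x⁻¹ * y⁻¹) := h1
    rw [h3] at h4
    exact h4
  have hc : x * y * x⁻¹ * y⁻¹ ∈ closure S :=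
    (closure S).mul_mem ((closure S).mul_mem ((closure S).mul_mem hx hy)
      ((closure S).inv_mem hx)) ((closure S).inv_mem hy)
  have h5 : τ ((u ^ (2 ^ (a - b)) * (x * y * x⁻¹ * y⁻¹) * (u ^ (2 ^ (a - b)))⁻¹) *
      (x * y * x⁻¹ * y⁻¹)⁻¹) = 1 := by
    rw [map_mul, h2, ← map_mul, mul_inv_cancel, map_one]
  have h6 := hfaith _ (hBm _ ((closure S).mul_mem (hconj _ _ hc) ((closure S).inv_mem hc))) h5
  rw [mul_inv_eq_one] at h6
  calc u ^ (2 ^ (a - b)) * (x * y * x⁻¹ * y⁻¹) = (u ^ (2 ^ (a - b)) * (x * y * x⁻¹ * y⁻¹) *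
        (u ^ (2 ^ (a - b)))⁻¹) * u ^ (2 ^ (a - b)) := by group
    _ = _ := by rw [h6]

/-- **(U1) for subgroups.** `α = p * g`: its power `2 ^ (a - b)`, `r + 1 = 2 ^ b`, centralizes the
commutators of `B = closure {e_l}`, and so do its conjugates by elements of `P`.

Proof. Let `B = closure {x | ∃ l, x = yE g τ e 0 l}`, `z = ynorm (2 ^ (a - 1)) g p`,
`κ = g ^ (2 ^ (a - 1))`, `α = π₀ * (p * g) * π₀⁻¹`. `B ≤ A`. `P` normalizes `B` (each `q ∈ P` maps `e_l` to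
`e_l` or `e_l⁻¹`, as `g ^ (-l) * q * g ^ l ∈ P`, `D.sg`), `g` too, so `α` does. `κ` centralizes `B`
(`D.κe`, `κ` commutes with `g`), `z` inverts every `e_l` (`z` commutes with `g`), and commutes with the
commutators of `A` (`D.cz`). `(p * g) ^ (2 ^ (a - 1)) = z * κ` (`ys_norm`), so
`α ^ (2 ^ (a - 1)) = z * κ` (`P` commutative, `D.cen`; `π₀` commutes with `z` and `κ`), and
`α ^ (2 ^ a) = 1`. Let `R = ↥B`, the homomorphism `R →* R` conjugation by `α`, `ρ` the restriction of the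
representation of `hV`, `U = ρ α`: `LDat (2 ^ a)` (as in the proof of `zt_L2g`, ZtL2.lean). `hα`:
`α ^ (2 ^ a) = 1`. `hcl`: `D.cl`. `hinv`: the set of `x ∈ B` with `z * x * z⁻¹ * x ∈ commutator R`
contains the generators `e_l` (value `1`) and is a subgroup (modulo the commutator subgroup everything
commutes). `hcen`: `z` and `κ` commute with commutators, and `commutator R` is generated by them. `hne`:
if `ρ c = 1` for all `c ∈ commutator R` then (`ρ` is faithful on odd elements) `B` is commutative, and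
`zt_reg0` for `B`, `u = α` gives: `z * κ` commutes with `e`; so `z * e * z⁻¹ = e`, `e = e⁻¹`, `e = 1`,
contradiction to `D.he1`. `ys_U1` gives `b`, and `α ^ (2 ^ (a - b))` commutes with all commutators of
`B` (faithfulness again). `b` is determined by `r + 1 = 2 ^ b`. -/
theorem ys_strB {m a k r : ℕ} (hm : Odd m) (ha : 3 ≤ a) {H : Type} [Group H] [Finite H]
    (hV : ZRep m a H) {P A : Subgroup H} {g τ p e : H} (D : YA m a k P A g τ p e)
    (hr : r.Prime) (hr2 : r ≠ 2) (hA : IsPGroup r A) :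
    ∃ b, 2 ≤ b ∧ b ≤ a ∧ r + 1 = 2 ^ b ∧
      (∀ π ∈ P, ∀ x ∈ closure {x | ∃ l, x = yE g τ e 0 l},
        ∀ y ∈ closure {x | ∃ l, x = yE g τ e 0 l},
        (π * (p * g) ^ (2 ^ (a - b)) * π⁻¹) * (x * y * x⁻¹ * y⁻¹) =
          x * y * x⁻¹ * y⁻¹ * (π * (p * g) ^ (2 ^ (a - b)) * π⁻¹)) ∧
      ∃ x ∈ closure {x | ∃ l, x = yE g τ e 0 l}, ∃ y ∈ closure {x | ∃ l, x = yE g τ e 0 l},
        x * y ≠ y * x := by
  obtain ⟨S, hS⟩ : ∃ S : Set H, S = {x | ∃ l, x = yE g τ e 0 l} := ⟨_, rfl⟩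
  rw [← hS]
  obtain ⟨n1, n2, n3, n4, n5, n6, n7⟩ := ys_norm (by omega : 1 ≤ a) P D.sq D.hgP D.hp D.cen
  obtain ⟨κ, hκ⟩ : ∃ κ, κ = g ^ (2 ^ (a - 1)) := ⟨_, rfl⟩
  obtain ⟨z, hz⟩ : ∃ z, z = ynorm (2 ^ (a - 1)) g p := ⟨_, rfl⟩
  have hzP : z ∈ P := by rw [hz]; exact n1 _
  have hze := D.ze
  have hκe := D.κe
  have hcz := D.cz
  have hcen := D.cen
  rw [← hz] at hze hcz n3 n4
  rw [← hκ] at hκe hcen
  have h2M : 2 * 2 ^ (a - 1) = 2 ^ a := by
    rw [← pow_succ']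
    congr 1
    omega
  have hpow : (p * g) ^ (2 ^ (a - 1)) = z * κ := by rw [n5, hz, hκ]
  have hpow1 : (p * g) ^ (2 ^ a) = 1 := by
    rw [← h2M]
    exact ys_pg_pow D.hgP D.sq D.hp D.cen (by rw [h2M]; exact D.hg)
  have hgκ : g * κ = κ * g := by rw [hκ]; exact (Commute.self_pow g _).eq
  have hyE : ∀ l, yE g τ e 0 l = g ^ l * e * (g ^ l)⁻¹ := fun l => by simp [yE]
  have hBA : closure S ≤ A := by
    rw [closure_le, hS]
    rintro _ ⟨l, rfl⟩
    rw [hyE]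
    exact ys_pow_mem D.hgA l e D.he
  have hEB : ∀ l, g ^ l * e * (g ^ l)⁻¹ ∈ closure S := fun l =>
    subset_closure (by rw [hS]; exact ⟨l, (hyE l).symm⟩)
  have hBm : ∀ x ∈ closure S, x ^ m = 1 := fun x hx => D.hAm x (hBA hx)
  have hBn : ∀ t : H, (∀ l : ℕ, t * (g ^ l * e * (g ^ l)⁻¹) * t⁻¹ ∈ closure S) →
      ∀ x ∈ closure S, t * x * t⁻¹ ∈ closure S := by
    intro t ht
    have h1 : closure S ≤ (closure S).comap (MulAut.conj t).toMonoidHom := by
      rw [closure_le]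
      intro x hx
      rw [hS] at hx
      obtain ⟨l, rfl⟩ := hx
      rw [hyE]
      exact ht l
    intro x hx
    exact h1 hx
  have hgB : ∀ x ∈ closure S, g * x * g⁻¹ ∈ closure S := hBn g (fun l => by
    have h1 : g * (g ^ l * e * (g ^ l)⁻¹) * g⁻¹ = g ^ (l + 1) * e * (g ^ (l + 1))⁻¹ := by
      rw [pow_succ']; group
    rw [h1]
    exact hEB _)
  have hconjP : ∀ l : ℕ, ∀ x ∈ P, (g ^ l)⁻¹ * x * g ^ l ∈ P := by
    intro l x hx
    have h1 := ys_pow_mem D.hgP (l * (2 ^ a - 1)) x hx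
    have h2 : g ^ (l * (2 ^ a - 1)) = (g ^ l)⁻¹ := by
      rw [eq_inv_iff_mul_eq_one, ← pow_add]
      have h3 : l * (2 ^ a - 1) + l = 2 ^ a * l := by
        have h4 : 1 ≤ 2 ^ a := Nat.one_le_two_pow
        obtain ⟨b, hb⟩ := Nat.exists_eq_add_of_le h4
        rw [hb, Nat.add_sub_cancel_left]
        ring
      rw [h3, pow_mul, D.hg, one_pow]
    rw [h2, inv_inv] at h1
    exact h1
  have hPB : ∀ q ∈ P, ∀ x ∈ closure S, q * x * q⁻¹ ∈ closure S := fun q hq => hBn q (fun l => by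
    have h1 : q * (g ^ l * e * (g ^ l)⁻¹) * q⁻¹ =
        g ^ l * (((g ^ l)⁻¹ * q * g ^ l) * e * ((g ^ l)⁻¹ * q * g ^ l)⁻¹) * (g ^ l)⁻¹ := by group
    rw [h1]
    rcases D.sg _ (hconjP l q hq) with h | h
    · rw [h]; exact hEB l
    · rw [h]
      have h2 : g ^ l * e⁻¹ * (g ^ l)⁻¹ = (g ^ l * e * (g ^ l)⁻¹)⁻¹ := by group
      rw [h2]
      exact (closure S).inv_mem (hEB l))
  have hκB : ∀ x ∈ closure S, κ * x = x * κ := by
    have h1 : closure S ≤ centralizer {κ} := by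
      rw [closure_le, hS]
      rintro _ ⟨l, rfl⟩
      rw [hyE, SetLike.mem_coe, mem_centralizer_singleton_iff]
      have e1 : Commute κ (g ^ l) := (show Commute κ g from hgκ.symm).pow_right l
      have e2 : Commute κ e := hκe
      exact ((e1.mul_right e2).mul_right e1.inv_right).eq.symm
    intro x hx
    exact (mem_centralizer_singleton_iff.1 (h1 hx)).symm
  have hzinv : ∀ l : ℕ, z * (g ^ l * e * (g ^ l)⁻¹) * z⁻¹ = (g ^ l * e * (g ^ l)⁻¹)⁻¹ := by
    intro l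
    have e1 : z * g ^ l = g ^ l * z := ((show Commute z g from n4.symm).pow_right l).eq
    calc z * (g ^ l * e * (g ^ l)⁻¹) * z⁻¹ = (z * g ^ l) * e * (z * g ^ l)⁻¹ := by group
      _ = g ^ l * (z * e * z⁻¹) * (g ^ l)⁻¹ := by rw [e1]; group
      _ = _ := by rw [hze]; group
  have hne : ∃ x ∈ closure S, ∃ y ∈ closure S, x * y ≠ y * x := by
    by_contra hno
    push Not at hno
    have heB : e ∈ closure S := by simpa using hEB 0
    have h1 := zt_reg0 (by omega : 0 < a) hm hV (closure S) hBm hno hpow1 (by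
      intro x hx
      have h1 := hPB p D.hp _ (hgB x hx)
      have h2 : (p * g) * x * (p * g)⁻¹ = p * (g * x * g⁻¹) * p⁻¹ := by group
      rwa [h2]) e heB
    rw [hpow] at h1
    have hee : e = e⁻¹ := by
      calc e = (z * κ * e) * (z * κ)⁻¹ := by rw [h1]; group
        _ = z * (κ * e) * κ⁻¹ * z⁻¹ := by group
        _ = z * e * z⁻¹ := by rw [hκe]; group
        _ = e⁻¹ := hze
    exact D.he1 (fr_one_two hm (D.hAm e D.he) (by
      rw [pow_two]
      nth_rewrite 2 [hee]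
      group))
  have hBr : IsPGroup r (closure S) := hA.to_le hBA
  have hcl : ∀ x ∈ closure S, ∀ y ∈ closure S, ∀ w ∈ closure S,
      x * y * x⁻¹ * y⁻¹ * w = w * (x * y * x⁻¹ * y⁻¹) := fun x hx y hy w hw =>
    D.cl x (hBA hx) y (hBA hy) w (hBA hw)
  have key : ∀ π ∈ P, ∃ b, 2 ≤ b ∧ b ≤ a ∧ r + 1 = 2 ^ b ∧ ∀ x ∈ closure S, ∀ y ∈ closure S,
      (π * (p * g) ^ (2 ^ (a - b)) * π⁻¹) * (x * y * x⁻¹ * y⁻¹) =
        x * y * x⁻¹ * y⁻¹ * (π * (p * g) ^ (2 ^ (a - b)) * π⁻¹) := by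
    intro π hπ
    have hu : ∀ n : ℕ, (π * (p * g) * π⁻¹) ^ n = π * (p * g) ^ n * π⁻¹ := fun n => conj_pow
    have huM : (π * (p * g) * π⁻¹) ^ (2 ^ (a - 1)) = z * κ := by
      rw [hu, hpow]
      have e1 : Commute π z := n2 π hπ z hzP
      have e2 : Commute π κ := (hcen π hπ).symm
      rw [(e1.mul_right e2).eq]
      group
    obtain ⟨b, hb1, hb2, hb3, hb4⟩ := strB_aux (u := π * (p * g) * π⁻¹) (by omega : 0 < a) hV hr hr2
      hBr hBm hcl (by rw [hu, hpow1]; group) (by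
        intro x hx
        have h1 := hPB π hπ _ (hPB p D.hp _ (hgB _ (hPB π⁻¹ (P.inv_mem hπ) x hx)))
        have h2 : (π * (p * g) * π⁻¹) * x * (π * (p * g) * π⁻¹)⁻¹ =
            π * (p * (g * (π⁻¹ * x * π⁻¹⁻¹) * g⁻¹) * p⁻¹) * π⁻¹ := by group
        rwa [h2]) (by
        intro x hx
        rw [hS] at hx
        obtain ⟨l, rfl⟩ := hx
        rw [huM, hyE]
        have h1 := hκB _ (hEB l)
        calc z * κ * (g ^ l * e * (g ^ l)⁻¹) * (z * κ)⁻¹ =
            z * (κ * (g ^ l * e * (g ^ l)⁻¹)) * κ⁻¹ * z⁻¹ := by group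
          _ = z * (g ^ l * e * (g ^ l)⁻¹) * z⁻¹ := by rw [h1]; group
          _ = _ := hzinv l) (by
        intro x hx y hy
        rw [huM]
        have hc : x * y * x⁻¹ * y⁻¹ ∈ closure S :=
          (closure S).mul_mem ((closure S).mul_mem ((closure S).mul_mem hx hy)
            ((closure S).inv_mem hx)) ((closure S).inv_mem hy)
        have e1 : Commute z (x * y * x⁻¹ * y⁻¹) := hcz x (hBA hx) y (hBA hy)
        have e2 : Commute κ (x * y * x⁻¹ * y⁻¹) := hκB _ hc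
        exact (e1.mul_left e2).eq) hne
    refine ⟨b, hb1, hb2, hb3, ?_⟩
    intro x hx y hy
    have h1 := hb4 x hx y hy
    rw [hu] at h1
    exact h1
  obtain ⟨b, hb1, hb2, hb3, -⟩ := key 1 P.one_mem
  refine ⟨b, hb1, hb2, hb3, ?_, hne⟩
  intro π hπ x hx y hy
  obtain ⟨b', hb1', hb2', hb3', hb4'⟩ := key π hπ
  have hbb : b' = b := Nat.pow_right_injective (le_refl 2) (hb3'.symm.trans hb3)
  rw [hbb] at hb4'
  exact hb4' x hx y hy

end Pool.Agent.Lib.MP_544bd1_al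
end

section

/-!
Theorem Z (paper 287), 4.2: the structure of `B`.
-/

namespace Pool.Agent.Lib.MP_544bd1_al

open Subgroup

/-- **The structure of `B`.**

Proof. Let `b` be as in `ys_strB`, `M = 2 ^ (a - 1)`, `J = 2 ^ (a - b)` (so `0 < J ≤ M / 2`),
`e_l = yE g τ e 0 l = g ^ l * e * g ^ (-l)`; `e_{l + M} = e_l` (`D.κe`). Let `π` be as in `ys_sign`
(`c := a - 1`; `e` is odd: `D.hAm`). The sign of `q ∈ P` on `e_l` is the sign of `g ^ (-l) * q * g ^ l`
on `e`. So `π` inverts `e_0` and centralizes `e_l` for `l ≢ 0` mod `M`; and `g ^ J * π * g ^ (-J)`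
inverts `e_J` and centralizes the other `e_l`. The element
`δ = (π * (p * g) ^ J * π⁻¹) * ((p * g) ^ J)⁻¹ = π * (g ^ J * π * g ^ (-J))` (`ys_norm`: `(p * g) ^ J` acts
on `P` as `g ^ J`; `P` commutative of exponent 2) commutes with all commutators of `B` (`ys_strB` for
`π` and for `1`). (*) If `e_0` and `e_l` (`0 < l < M`) do not commute then `l = J`: if `l ≠ J` then `δ`
inverts `e_0` (as `J ≢ 0`) and centralizes `e_l`, so it conjugates `c = e_0 * e_l * e_0⁻¹ * e_l⁻¹` to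
`e_0⁻¹ * e_l * e_0 * e_l⁻¹ = c⁻¹` (class 2: `D.cl`); but `δ` commutes with `c`; so `c = c⁻¹`, and `c` is odd
(`D.hAm`): `c = 1`. Some pair of the generators does not commute (`ys_strB`: `B` is not commutative);
conjugating by a power of `g`: `e_0` and `e_l` do not commute for some `0 < l < M`; so `l = J`.
Conjugating by `g ^ (M - J)` (i.e. `g ^ (-J)`): `e_{M - J}` and `e_0` do not commute, so `M - J = J`,
`2 ^ (a - b) * 2 = 2 ^ (a - 1)`, `b = 2`, `r = 3`, `J = 2 ^ (a - 2)`. -/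
theorem ys_str {m a k r : ℕ} (hm : Odd m) (ha : 3 ≤ a) {H : Type} [Group H] [Finite H]
    (hV : ZRep m a H) {P A : Subgroup H} {g τ p e : H} (D : YA m a k P A g τ p e)
    (hr : r.Prime) (hr2 : r ≠ 2) (hA : IsPGroup r A) :
    r = 3 ∧ (∀ l, 0 < l → l < 2 ^ (a - 1) → l ≠ 2 ^ (a - 2) →
      e * (g ^ l * e * (g ^ l)⁻¹) = (g ^ l * e * (g ^ l)⁻¹) * e) ∧
    e * (g ^ (2 ^ (a - 2)) * e * (g ^ (2 ^ (a - 2)))⁻¹) ≠
      (g ^ (2 ^ (a - 2)) * e * (g ^ (2 ^ (a - 2)))⁻¹) * e := by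
  obtain ⟨b, hb2, hba, hrb, hcm, hnc⟩ := ys_strB hm ha hV D hr hr2 hA
  obtain ⟨n1, n2, n3, n4, n5, n6, n7⟩ := ys_norm (by omega : 1 ≤ a) P D.sq D.hgP D.hp D.cen
  obtain ⟨π, hπP, hπe, hπl⟩ := ys_sign (c := a - 1) P D.sq D.hgP D.hp D.cen D.he1
    ⟨m, hm, D.hAm e D.he⟩ D.sg D.ze
  obtain ⟨M, hM⟩ : ∃ M, M = 2 ^ (a - 1) := ⟨_, rfl⟩
  obtain ⟨J, hJ⟩ : ∃ J, J = 2 ^ (a - b) := ⟨_, rfl⟩
  have hJ0 : 0 < J := by rw [hJ]; exact Nat.pow_pos (by norm_num)
  have h2J : 2 * J ≤ M := by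
    rw [hJ, hM, ← pow_succ']
    exact Nat.pow_le_pow_right (by norm_num) (by omega)
  have hκe := D.κe
  rw [← hM] at hπl hκe
  rw [← hJ] at hcm
  obtain ⟨E, hE⟩ : ∃ E : ℕ → H, E = fun l => g ^ l * e * (g ^ l)⁻¹ := ⟨_, rfl⟩
  have hEl : ∀ l, E l = g ^ l * e * (g ^ l)⁻¹ := fun l => by rw [hE]
  have hyE : ∀ l, yE g τ e 0 l = E l := fun l => by rw [hEl]; simp [yE]
  have hE0 : E 0 = e := by rw [hEl]; simp
  have hEadd : ∀ k l, E (k + l) = g ^ k * E l * (g ^ k)⁻¹ := fun k l => by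
    rw [hEl, hEl, pow_add]; group
  have hEM : ∀ l, E (l + M) = E l := fun l => by
    rw [hEl, hEl, pow_add]
    calc g ^ l * g ^ M * e * (g ^ l * g ^ M)⁻¹ = g ^ l * (g ^ M * e) * (g ^ M)⁻¹ * (g ^ l)⁻¹ := by
          group
      _ = _ := by rw [hκe]; group
  have hEmod : ∀ l, E l = E (l % M) := by
    intro l
    have h1 : ∀ q r, E (r + M * q) = E r := by
      intro q
      induction q with
      | zero => intro r; simp
      | succ q ih =>
        intro r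
        rw [Nat.mul_succ, ← add_assoc, hEM, ih]
    conv_lhs => rw [← Nat.mod_add_div l M]
    exact h1 _ _
  have hEA : ∀ l, E l ∈ A := fun l => by rw [hEl]; exact ys_pow_mem D.hgA l e D.he
  have hEB : ∀ l, E l ∈ closure {x | ∃ l, x = yE g τ e 0 l} := fun l =>
    subset_closure ⟨l, (hyE l).symm⟩
  have hM0 : 0 < M := by omega
  -- the signs of `π`
  have hπE : ∀ l, 0 < l → l < M → π * E l = E l * π := by
    intro l h1 h2
    have h3 := hπl l h1 h2
    rw [hEl]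
    calc π * (g ^ l * e * (g ^ l)⁻¹) = g ^ l * (((g ^ l)⁻¹ * π * g ^ l) * e) * (g ^ l)⁻¹ := by group
      _ = g ^ l * (e * ((g ^ l)⁻¹ * π * g ^ l)) * (g ^ l)⁻¹ := by rw [h3]
      _ = _ := by group
  obtain ⟨π', hπ'⟩ : ∃ π', π' = g ^ J * π * (g ^ J)⁻¹ := ⟨_, rfl⟩
  have hπ'P : π' ∈ P := by rw [hπ']; exact ys_pow_mem D.hgP J π hπP
  have hπ'E : ∀ l, l < M → l ≠ J → π' * E l = E l * π' := by
    intro l h1 h2
    have h3 : ∃ t, 0 < t ∧ t < M ∧ E l = g ^ J * E t * (g ^ J)⁻¹ := by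
      rcases lt_or_gt_of_ne h2 with h | h
      · refine ⟨l + M - J, by omega, by omega, ?_⟩
        rw [← hEadd, show J + (l + M - J) = l + M by omega, hEM]
      · refine ⟨l - J, by omega, by omega, ?_⟩
        rw [← hEadd, show J + (l - J) = l by omega]
    obtain ⟨t, ht1, ht2, ht3⟩ := h3
    have h4 := hπE t ht1 ht2
    rw [ht3, hπ']
    calc g ^ J * π * (g ^ J)⁻¹ * (g ^ J * E t * (g ^ J)⁻¹) = g ^ J * (π * E t) * (g ^ J)⁻¹ := by
          group
      _ = g ^ J * (E t * π) * (g ^ J)⁻¹ := by rw [h4]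
      _ = _ := by group
  have hinvP : ∀ x ∈ P, x⁻¹ = x := fun x hx =>
    inv_eq_of_mul_eq_one_left (by rw [← pow_two]; exact D.sq x hx)
  -- the element `δ = π * π'`
  have hδ : (π * (p * g) ^ J * π⁻¹) * ((1 : H) * (p * g) ^ J * (1 : H)⁻¹)⁻¹ = π * π' := by
    have h1 := n6 J π⁻¹ (P.inv_mem hπP)
    calc (π * (p * g) ^ J * π⁻¹) * ((1 : H) * (p * g) ^ J * (1 : H)⁻¹)⁻¹
        = π * ((p * g) ^ J * π⁻¹ * ((p * g) ^ J)⁻¹) := by group
      _ = π * (g ^ J * π⁻¹ * (g ^ J)⁻¹) := by rw [h1]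
      _ = π * π' := by rw [hinvP π hπP, hπ']
  have hδc : ∀ x ∈ closure {x | ∃ l, x = yE g τ e 0 l},
      ∀ y ∈ closure {x | ∃ l, x = yE g τ e 0 l},
      (π * π') * (x * y * x⁻¹ * y⁻¹) = x * y * x⁻¹ * y⁻¹ * (π * π') := by
    intro x hx y hy
    rw [← hδ]
    have h1 : Commute (π * (p * g) ^ J * π⁻¹) (x * y * x⁻¹ * y⁻¹) := hcm π hπP x hx y hy
    have h2 : Commute ((1 : H) * (p * g) ^ J * (1 : H)⁻¹) (x * y * x⁻¹ * y⁻¹) :=
      hcm 1 P.one_mem x hx y hy
    exact (h1.mul_left h2.inv_left).eq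
  have key : ∀ l, 0 < l → l < M → l ≠ J → e * E l = E l * e := by
    intro l h1 h2 h3
    obtain ⟨c, hc⟩ : ∃ c, c = e * E l * e⁻¹ * (E l)⁻¹ := ⟨_, rfl⟩
    have hcA : c ∈ A := by
      rw [hc]
      exact A.mul_mem (A.mul_mem (A.mul_mem D.he (hEA l)) (A.inv_mem D.he)) (A.inv_mem (hEA l))
    have hce : c * e = e * c := by rw [hc]; exact D.cl e D.he _ (hEA l) e D.he
    have hδc1 : (π * π') * c = c * (π * π') := by
      have h4 := hδc (E 0) (hEB 0) (E l) (hEB l)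
      rw [hE0] at h4
      rw [hc]; exact h4
    have hδe : (π * π') * e * (π * π')⁻¹ = e⁻¹ := by
      have h4 := hπ'E 0 hM0 (by omega)
      rw [hE0] at h4
      calc (π * π') * e * (π * π')⁻¹ = π * (π' * e) * π'⁻¹ * π⁻¹ := by group
        _ = π * e * π⁻¹ := by rw [h4]; group
        _ = e⁻¹ := hπe
    have hδl : (π * π') * E l * (π * π')⁻¹ = E l := by
      have h4 := hπ'E l h2 h3
      have h5 := hπE l h1 h2
      calc (π * π') * E l * (π * π')⁻¹ = π * (π' * E l) * π'⁻¹ * π⁻¹ := by group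
        _ = (π * E l) * π⁻¹ := by rw [h4]; group
        _ = E l := by rw [h5]; group
    have hcc : c = c⁻¹ := by
      calc c = (c * (π * π')) * (π * π')⁻¹ := by group
        _ = (π * π') * c * (π * π')⁻¹ := by rw [← hδc1]
        _ = ((π * π') * e * (π * π')⁻¹) * ((π * π') * E l * (π * π')⁻¹) *
            ((π * π') * e * (π * π')⁻¹)⁻¹ * ((π * π') * E l * (π * π')⁻¹)⁻¹ := by
            rw [hc]; group
        _ = e⁻¹ * E l * e * (E l)⁻¹ := by rw [hδe, hδl]; group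
        _ = (e⁻¹ * (e * E l * e⁻¹ * (E l)⁻¹) * e)⁻¹ := by group
        _ = (e⁻¹ * (c * e))⁻¹ := by rw [← hc]; group
        _ = c⁻¹ := by rw [hce]; group
    have hc1 : c = 1 := fr_one_two hm (D.hAm c hcA) (by
      rw [pow_two]
      nth_rewrite 2 [hcc]
      group)
    rw [hc1] at hc
    calc e * E l = (e * E l * e⁻¹ * (E l)⁻¹) * E l * e := by group
      _ = E l * e := by rw [← hc, one_mul]
  have hex : ∃ l, 0 < l ∧ l < M ∧ e * E l ≠ E l * e := by
    by_contra hno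
    push Not at hno
    have h1 : ∀ l, E 0 * E l = E l * E 0 := by
      intro l
      rw [hEmod l, hE0]
      rcases Nat.eq_zero_or_pos (l % M) with h | h
      · rw [h, hE0]
      · exact hno _ h (Nat.mod_lt _ hM0)
    have h2 : ∀ l t, E l * E (l + t) = E (l + t) * E l := by
      intro l t
      have h3 : E l = g ^ l * E 0 * (g ^ l)⁻¹ := by rw [← hEadd, add_zero]
      rw [hEadd l t, h3]
      calc g ^ l * E 0 * (g ^ l)⁻¹ * (g ^ l * E t * (g ^ l)⁻¹) =
          g ^ l * (E 0 * E t) * (g ^ l)⁻¹ := by group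
        _ = g ^ l * (E t * E 0) * (g ^ l)⁻¹ := by rw [h1]
        _ = _ := by group
    have h3 : ∀ l l', E l * E l' = E l' * E l := by
      intro l l'
      rcases le_total l l' with h | h
      · obtain ⟨t, rfl⟩ := Nat.exists_eq_add_of_le h
        exact h2 l t
      · obtain ⟨t, rfl⟩ := Nat.exists_eq_add_of_le h
        exact (h2 l' t).symm
    have hS1 : closure {x | ∃ l, x = yE g τ e 0 l} ≤ centralizer {x | ∃ l, x = yE g τ e 0 l} := by
      rw [closure_le]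
      rintro _ ⟨l, rfl⟩
      rw [SetLike.mem_coe, mem_centralizer_iff]
      rintro _ ⟨l', rfl⟩
      rw [hyE, hyE]
      exact h3 l' l
    have hS2 : closure {x | ∃ l, x = yE g τ e 0 l} ≤
        centralizer (closure {x | ∃ l, x = yE g τ e 0 l} : Set H) := by
      rw [closure_le]
      intro x hx
      rw [SetLike.mem_coe, mem_centralizer_iff]
      intro y hy
      exact (mem_centralizer_iff.1 (hS1 hy) x hx).symm
    obtain ⟨x, hx, y, hy, hxy⟩ := hnc
    exact hxy (mem_centralizer_iff.1 (hS2 hx) y hy).symm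
  obtain ⟨l, hl1, hl2, hl3⟩ := hex
  have hlJ : l = J := by
    by_contra h
    exact hl3 (key l hl1 hl2 h)
  rw [hlJ] at hl3
  have hMJ : M - J = J := by
    by_contra h
    have h1 := key (M - J) (by omega) (by omega) h
    apply hl3
    have h2 : E J * E 0 = E 0 * E J := by
      have h3 : E J = g ^ J * e * (g ^ J)⁻¹ := hEl J
      have h4 : E 0 = g ^ J * E (M - J) * (g ^ J)⁻¹ := by
        rw [← hEadd, show J + (M - J) = 0 + M by omega, hEM]
      rw [h4, h3]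
      calc g ^ J * e * (g ^ J)⁻¹ * (g ^ J * E (M - J) * (g ^ J)⁻¹) =
          g ^ J * (e * E (M - J)) * (g ^ J)⁻¹ := by group
        _ = g ^ J * (E (M - J) * e) * (g ^ J)⁻¹ := by rw [h1]
        _ = _ := by group
    rw [hE0] at h2
    exact h2.symm
  have hb : b = 2 := by
    have h1 : 2 ^ (a - 1) = 2 ^ (a - b + 1) := by
      rw [pow_succ, ← hJ, ← hM]; omega
    have h2 := Nat.pow_right_injective (le_refl 2) h1
    omega
  have hJ2 : J = 2 ^ (a - 2) := by rw [hJ, hb]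
  refine ⟨by rw [hb] at hrb; omega, ?_, ?_⟩
  · intro l h1 h2 h3
    have h4 := key l h1 (by rw [hM]; exact h2) (by rw [hJ2]; exact h3)
    rw [hEl] at h4
    exact h4
  · rw [hEl, hJ2] at hl3
    exact hl3

end Pool.Agent.Lib.MP_544bd1_al
end

section

/-!
Theorem Z (paper 287), 4.4: (F6), `i = 0`.
-/

namespace Pool.Agent.Lib.MP_544bd1_al

open Subgroup

variable {F : Type} [Group F] [Finite F]

omit [Finite F] in
private theorem ymF6b_conj {a k : ℕ} {m : ℕ} {Q R : Subgroup F} {g τ e e' c : F} {γ : ℕ → F}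
    (D : YM m a k Q R g τ e e' c γ) :
    ∀ x ∈ closure {x : F | ∃ l, x = yE g τ e 0 l},
      γ 0 * x * (γ 0)⁻¹ ∈ closure {x : F | ∃ l, x = yE g τ e 0 l} := by
  intro x hx
  induction hx using closure_induction with
  | mem y hy =>
    obtain ⟨l, rfl⟩ := hy
    exact D.γB 0 (by positivity) l
  | one => simp
  | mul x y _ _ hx hy =>
    have h1 : γ 0 * (x * y) * (γ 0)⁻¹ = (γ 0 * x * (γ 0)⁻¹) * (γ 0 * y * (γ 0)⁻¹) := by group
    rw [h1]; exact mul_mem hx hy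
  | inv x _ hx =>
    have h1 : γ 0 * x⁻¹ * (γ 0)⁻¹ = (γ 0 * x * (γ 0)⁻¹)⁻¹ := by group
    rw [h1]; exact inv_mem hx

omit [Finite F] in
/-- the conjugate of `yE 0 l` by `y` -/
private theorem ymF6b_shift {g τ e : F} (h : g * τ = τ * g) (n l : ℕ) :
    g ^ n * yE g τ e 0 l * (g ^ n)⁻¹ = yE g τ e 0 (n + l) := by
  have h1 := yE_conj (e := e) h 0 n 0 l
  simpa using h1

omit [Finite F] in
private theorem ymF6b_com {a k : ℕ} {m : ℕ} {Q R : Subgroup F} {g τ e e' c : F} {γ : ℕ → F}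
    (ha : 3 ≤ a) (D : YM m a k Q R g τ e e' c γ) {l : ℕ} (hl0 : l ≠ 0)
    (hl1 : l ≠ 2 ^ (a - 2)) (hl : l < 2 ^ (a - 1)) :
    yE g τ e 0 l * e = e * yE g τ e 0 l ∧ yE g τ e 0 l * e' = e' * yE g τ e 0 l := by
  have hk : 0 < 3 ^ k := by positivity
  have hp : 2 ^ (a - 1) = 2 ^ (a - 2) + 2 ^ (a - 2) := by
    have h1 : a - 1 = (a - 2) + 1 := by omega
    rw [h1, pow_succ]; ring
  refine ⟨(D.com 0 l hk hl (by tauto)).symm, ?_⟩
  have key : ∀ l', l' < 2 ^ (a - 1) → l' ≠ 0 → l' ≠ 2 ^ (a - 2) →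
      yE g τ e 0 (2 ^ (a - 2) + l') * e' = e' * yE g τ e 0 (2 ^ (a - 2) + l') := by
    intro l' h1 h2 h3
    have h4 := D.com 0 l' hk h1 (by tauto)
    have h5 := ymF6b_shift (e := e) D.hgτ (2 ^ (a - 2)) l'
    have h6 := D.he'
    rw [← h5, h6]
    calc g ^ 2 ^ (a - 2) * yE g τ e 0 l' * (g ^ 2 ^ (a - 2))⁻¹ *
          (g ^ 2 ^ (a - 2) * e * (g ^ 2 ^ (a - 2))⁻¹)
        = g ^ 2 ^ (a - 2) * (yE g τ e 0 l' * e) * (g ^ 2 ^ (a - 2))⁻¹ := by group
      _ = g ^ 2 ^ (a - 2) * (e * yE g τ e 0 l') * (g ^ 2 ^ (a - 2))⁻¹ := by rw [h4]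
      _ = _ := by group
  rcases lt_or_gt_of_ne hl1 with h | h
  · have h1 := key (l + 2 ^ (a - 2)) (by omega) (by omega) (by omega)
    have h2 : 2 ^ (a - 2) + (l + 2 ^ (a - 2)) = l + 2 ^ (a - 1) := by omega
    rw [h2, (D.per).2.1 0 l] at h1
    exact h1
  · have h1 := key (l - 2 ^ (a - 2)) (by omega) (by omega) (by omega)
    have h2 : 2 ^ (a - 2) + (l - 2 ^ (a - 2)) = l := by omega
    rw [h2] at h1
    exact h1

/-- **(F6)**, `i = 0`: `yE 0 l` is trivial on `[V, c]`.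

Proof. `ys_U3` (ZsU3.lean) with `r = 3` for the group `B = ↥(closure {yE g τ e 0 l | l})` (`≤ R`, a 3-group),
`α : B →* B` the conjugation by `γ 0` (`D.γB`, closure induction; `γ 0` is a 2-element, `α^[n] x` is the
conjugation by `γ 0 ^ n`), `ρ` restricted to `B`, `U = ρ (γ 0)`: `LDat (2 ^ a) α (ρ ∘ B.subtype) U`: `hU`: `ρ (γ 0) *
ρ x = ρ (γ 0 * x * (γ 0)⁻¹) * ρ (γ 0)`; `hq`: `D.hγ`; `hN`: `ym_norm`. `hα`: `γ 0 ^ (2 ^ a) = 1`. `hcl`: `D.cl`.
`hinv`: the `x : B` with `α^[2 ^ (a - 1)] x * x ∈ commutator B` form a subgroup (modulo the commutator subgroup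
everything commutes) containing the generators (`D.γE`: `α^[2 ^ (a - 1)] x * x = 1`). `hcen`: `D.γc` and
closure induction for `commutator B`. `x := yE 0 l`, `y₁ := e = yE 0 0`, `y₂ := e' = yE 0 (2 ^ (a - 2))`
(`D.he'`); `h1`: `D.com` for `i = 0`; `h2`: conjugate by `y⁻¹`, `y = g ^ (2 ^ (a - 2))`: `yE 0 l` is the conjugate by
`y` of `yE 0 (l - 2 ^ (a - 2))` if `l > 2 ^ (a - 2)`, and of `yE 0 (l + 2 ^ (a - 1) - 2 ^ (a - 2)) =
yE 0 (l + 2 ^ (a - 2))` if `l < 2 ^ (a - 2)` (periodicity `D.per`, `yE_conj`), and `e'` is the conjugate by `y` of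
`e`; the index `l - 2 ^ (a - 2)` or `l + 2 ^ (a - 2)` is `< 2 ^ (a - 1)` and not `0` or `2 ^ (a - 2)`, so `D.com`
applies. `hx`: `D.γE`. Its conclusion is the claim since `y₁ * y₂ * y₁⁻¹ * y₂⁻¹ = c` (`D.hc`). -/
theorem ym_F6b {m a k : ℕ} (hm : Odd m) (ha : 3 ≤ a) (hexp : ∀ x : F, x ^ (m * 2 ^ a) = 1)
    {Q R : Subgroup F} [Q.Normal] {g τ e e' c : F} {γ : ℕ → F}
    (D : YM m a k Q R g τ e e' c γ) {V : Type} [AddCommGroup V] [Module (ZMod 2) V] [Finite V]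
    {ρ : F →* Module.End (ZMod 2) V} {φ : Q → V} (M : ZMd Q R ρ φ) {l : ℕ} (hl0 : l ≠ 0)
    (hl1 : l ≠ 2 ^ (a - 2)) (hl : l < 2 ^ (a - 1)) (v : V) :
    ρ (yE g τ e 0 l) (ρ c v - v) = ρ c v - v := by
  have hk : 0 < 3 ^ k := by positivity
  obtain ⟨hyR, hper, -⟩ := D.per
  obtain ⟨he'R, hcR, -, -, -⟩ := D.y ha
  obtain ⟨B, hB⟩ : ∃ B : Subgroup F, B = closure {x : F | ∃ l, x = yE g τ e 0 l} := ⟨_, rfl⟩
  have hBR : B ≤ R := by
    rw [hB, closure_le]
    rintro _ ⟨l, rfl⟩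
    exact hyR 0 l
  have hmem : ∀ l, yE g τ e 0 l ∈ B := by
    intro l
    rw [hB]
    exact Subgroup.subset_closure ⟨l, rfl⟩
  have heB : e ∈ B := by
    have h1 := hmem 0
    simpa [yE] using h1
  have he'B : e' ∈ B := by
    have h1 := hmem (2 ^ (a - 2))
    have h2 : yE g τ e 0 (2 ^ (a - 2)) = e' := by
      rw [D.he']
      simp [yE]
    rwa [h2] at h1
  have hconj : ∀ x : B, γ 0 * (x : F) * (γ 0)⁻¹ ∈ B := by
    intro x
    have h1 := ymF6b_conj D (x : F) (by rw [← hB]; exact x.2)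
    rwa [← hB] at h1
  have hBp : IsPGroup 3 B := D.core.hR.to_le hBR
  let α : B →* B :=
    { toFun := fun x => ⟨γ 0 * (x : F) * (γ 0)⁻¹, hconj x⟩
      map_one' := by
        apply Subtype.ext
        show γ 0 * (1 : F) * (γ 0)⁻¹ = 1
        group
      map_mul' := by
        intro x y
        apply Subtype.ext
        show γ 0 * ((x : F) * (y : F)) * (γ 0)⁻¹ =
          (γ 0 * (x : F) * (γ 0)⁻¹) * (γ 0 * (y : F) * (γ 0)⁻¹)
        group }
  have hα1 : ∀ x : B, ((α x : B) : F) = γ 0 * (x : F) * (γ 0)⁻¹ := fun x => rfl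
  have hαn : ∀ (n : ℕ) (x : B), ((α^[n] x : B) : F) = γ 0 ^ n * (x : F) * (γ 0 ^ n)⁻¹ := by
    intro n x
    induction n with
    | zero => simp
    | succ n ih =>
      rw [Function.iterate_succ_apply', hα1, ih, pow_succ']
      group
  have hγ0 : γ 0 ^ (2 ^ a) = 1 := D.hγ 0 hk
  have hL : LDat (2 ^ a) α (ρ.comp B.subtype) (ρ (γ 0)) := by
    refine ⟨fun x => ?_, ?_, ?_⟩
    · show ρ (γ 0) * ρ (x : F) = ρ ((α x : B) : F) * ρ (γ 0)
      rw [← map_mul, ← map_mul, hα1]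
      congr 1
      group
    · rw [← map_pow, hγ0, map_one]
    · exact ym_norm hm hexp D.core.hQ M hγ0
  have hcomB : ∀ d ∈ commutator B, ((γ 0) ^ (2 ^ (a - 1)) * (d : F) =
      (d : F) * (γ 0) ^ (2 ^ (a - 1))) := by
    intro d hd
    have hle : commutator B ≤ (centralizer {(γ 0) ^ (2 ^ (a - 1))} : Subgroup F).comap B.subtype := by
      rw [_root_.commutator_def, Subgroup.commutator_le]
      intro x _ y _
      rw [Subgroup.mem_comap, Subgroup.mem_centralizer_singleton_iff]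
      have h1 := D.γc 0 hk x (by rw [← hB]; exact x.2) y (by rw [← hB]; exact y.2)
      exact h1.symm
    have h1 := hle hd
    rw [Subgroup.mem_comap, Subgroup.mem_centralizer_singleton_iff] at h1
    exact h1.symm
  have hcen : ∀ d ∈ commutator B, α^[2 ^ (a - 1)] d = d := by
    intro d hd
    apply Subtype.ext
    rw [hαn, hcomB d hd, mul_assoc, mul_inv_cancel, mul_one]
  have hcl : ∀ x y w : B, x * y * x⁻¹ * y⁻¹ * w = w * (x * y * x⁻¹ * y⁻¹) := by
    intro x y w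
    apply Subtype.ext
    exact D.cl x (hBR x.2) y (hBR y.2) w (hBR w.2)
  have hcc : ∀ d ∈ commutator B, ∀ w : B, d * w = w * d := by
    intro d hd w
    have h1 : commutator B ≤ center B := by
      rw [_root_.commutator_def, Subgroup.commutator_le]
      intro x _ y _
      rw [Subgroup.mem_center_iff]
      intro w
      exact (hcl x y w).symm
    exact (Subgroup.mem_center_iff.1 (h1 hd) w).symm
  have hswap : ∀ x y : B, x * y = (x * y * x⁻¹ * y⁻¹) * (y * x) := by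
    intro x y; group
  have hmemc : ∀ x y : B, x * y * x⁻¹ * y⁻¹ ∈ commutator B := by
    intro x y
    rw [_root_.commutator_def]
    exact Subgroup.commutator_mem_commutator (Subgroup.mem_top x) (Subgroup.mem_top y)
  have hiter_mul : ∀ (n : ℕ) (x y : B), α^[n] (x * y) = α^[n] x * α^[n] y := by
    intro n x y
    exact iterate_map_mul α n x y
  have hiter_inv : ∀ (n : ℕ) (x : B), α^[n] x⁻¹ = (α^[n] x)⁻¹ := by
    intro n x
    exact iterate_map_inv α n x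
  have hinv : ∀ x : B, α^[2 ^ (a - 1)] x * x ∈ commutator B := by
    let S : Subgroup B :=
      { carrier := {x | α^[2 ^ (a - 1)] x * x ∈ commutator B}
        mul_mem' := by
          intro x y hx hy
          show α^[2 ^ (a - 1)] (x * y) * (x * y) ∈ commutator B
          have hx' : α^[2 ^ (a - 1)] x * x ∈ commutator B := hx
          have hy' : α^[2 ^ (a - 1)] y * y ∈ commutator B := hy
          rw [hiter_mul]
          generalize α^[2 ^ (a - 1)] x = X at *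
          generalize α^[2 ^ (a - 1)] y = Y at *
          have h1 : X * Y * (x * y) = (X * ((Y * x * Y⁻¹ * x⁻¹) * (x * Y))) * y := by group
          rw [h1, ← mul_assoc X, ← hcc _ (hmemc Y x) X]
          have h2 : (Y * x * Y⁻¹ * x⁻¹) * X * (x * Y) * y =
              (Y * x * Y⁻¹ * x⁻¹) * ((X * x) * (Y * y)) := by group
          rw [h2]
          exact mul_mem (hmemc Y x) (mul_mem hx' hy')
        one_mem' := by
          show α^[2 ^ (a - 1)] (1 : B) * (1 : B) ∈ commutator B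
          rw [iterate_map_one, one_mul]
          exact one_mem _
        inv_mem' := by
          intro x hx
          show α^[2 ^ (a - 1)] x⁻¹ * x⁻¹ ∈ commutator B
          have hx' : α^[2 ^ (a - 1)] x * x ∈ commutator B := hx
          rw [hiter_inv]
          generalize α^[2 ^ (a - 1)] x = X at *
          have h1 : X⁻¹ * x⁻¹ = (X⁻¹ * x⁻¹ * X * x) * (X * x)⁻¹ := by
            group
          rw [h1]
          refine mul_mem ?_ (inv_mem hx')
          have h2 := hmemc X⁻¹ x⁻¹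
          rwa [inv_inv, inv_inv] at h2 }
    have hS : ∀ x, x ∈ S ↔ α^[2 ^ (a - 1)] x * x ∈ commutator B := fun x => Iff.rfl
    have hgen : ∀ x (hx : x ∈ closure {x : F | ∃ l, x = yE g τ e 0 l}),
        ∀ hx' : x ∈ B, (⟨x, hx'⟩ : B) ∈ S := by
      intro x hx
      induction hx using closure_induction with
      | mem y hy =>
        obtain ⟨l, rfl⟩ := hy
        intro hx'
        rw [hS]
        have h1 : α^[2 ^ (a - 1)] (⟨yE g τ e 0 l, hx'⟩ : B) * ⟨yE g τ e 0 l, hx'⟩ = 1 := by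
          apply Subtype.ext
          show ((α^[2 ^ (a - 1)] (⟨yE g τ e 0 l, hx'⟩ : B) : B) : F) * yE g τ e 0 l = 1
          rw [hαn, D.γE 0 hk l, inv_mul_cancel]
        rw [h1]
        exact one_mem _
      | one =>
        intro hx'
        exact one_mem S
      | mul x y hx0 hy0 hx hy =>
        intro hx'
        have h1 : x ∈ B := by rw [hB]; exact hx0
        have h2 : y ∈ B := by rw [hB]; exact hy0
        exact mul_mem (hx h1) (hy h2)
      | inv x hx0 hx =>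
        intro hx'
        have h1 : x ∈ B := by rw [hB]; exact hx0
        exact inv_mem (hx h1)
    intro x
    have h1 := hgen x (by rw [← hB]; exact x.2) x.2
    exact h1
  have hα : ∀ x, α^[2 ^ a] x = x := by
    intro x
    apply Subtype.ext
    rw [hαn, hγ0]
    simp
  obtain ⟨hc1, hc2⟩ := ymF6b_com ha D hl0 hl1 hl
  have hfin := ys_U3 Nat.prime_three (by norm_num) hBp (by omega : 0 < a) hL hα hcl hinv hcen
    (x := ⟨yE g τ e 0 l, hmem l⟩) (y₁ := ⟨e, heB⟩) (y₂ := ⟨e', he'B⟩) (Subtype.ext hc1)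
    (Subtype.ext hc2) (by
      apply Subtype.ext
      rw [hαn]
      exact D.γE 0 hk l) v
  have h3 : ρ (e * e' * e⁻¹ * e'⁻¹) v - v = ρ c v - v := by rw [← D.hc]
  have hfin' : ρ (yE g τ e 0 l) (ρ (e * e' * e⁻¹ * e'⁻¹) v - v) =
    ρ (e * e' * e⁻¹ * e'⁻¹) v - v := hfin
  rwa [h3] at hfin'

end Pool.Agent.Lib.MP_544bd1_al
end

section

/-!
Theorem Z (paper 287), 4.4: the block structure in a group in which `Q` is normal.
-/

namespace Pool.Agent.Lib.MP_544bd1_al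

open Subgroup

variable {F : Type} [Group F] [Finite F]

/-- **(F6)** in `Q`.

Proof. Let `E = yE g τ e i l` (`E ^ 3 = 1` as `e ^ 3 = 1`), `w = x⁻¹ * (c * x * c⁻¹) ∈ Q`, `φ w = ρ c (φ x) - φ x`
(`M.add`, `M.eqv`). `ρ E (φ w) = φ w` (`ym_F6a`, `ym_F6b`), so `E * w * E⁻¹ = w * f` with `f = w⁻¹ * (E * w * E⁻¹) ∈ Q`,
`φ f = 0`; `R` centralizes `f` (`M.ker`), `f ^ 2 = 1` (`ym_irr`, second part). Then `E ^ n * w * (E ^ n)⁻¹ =
w * f ^ n`, so `f ^ 3 = 1`, `f = 1`. -/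
theorem ym_F6 {m a k : ℕ} (hm : Odd m) (ha : 3 ≤ a) (hexp : ∀ x : F, x ^ (m * 2 ^ a) = 1)
    {Q R : Subgroup F} [Q.Normal] {g τ e e' c : F} {γ : ℕ → F}
    (D : YM m a k Q R g τ e e' c γ) {V : Type} [AddCommGroup V] [Module (ZMod 2) V] [Finite V]
    {ρ : F →* Module.End (ZMod 2) V} {φ : Q → V} (M : ZMd Q R ρ φ) {i l : ℕ} (hi : i < 3 ^ k)
    (hl : l < 2 ^ (a - 1)) (hil : ¬ (i = 0 ∧ (l = 0 ∨ l = 2 ^ (a - 2)))) :
    ∀ x ∈ Q, yE g τ e i l * (x⁻¹ * (c * x * c⁻¹)) = (x⁻¹ * (c * x * c⁻¹)) * yE g τ e i l := by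
  have hQn : Q.Normal := inferInstance
  intro x hx
  obtain ⟨E, hE⟩ : ∃ E, E = yE g τ e i l := ⟨_, rfl⟩
  have hER : E ∈ R := by rw [hE]; exact (D.per).1 i l
  have hE3 : E ^ 3 = 1 := by
    rw [hE, yE, conj_pow, D.he3, mul_one, mul_inv_cancel]
  have hfix : ∀ v : V, ρ E (ρ c v - v) = ρ c v - v := by
    intro v
    rw [hE]
    rcases Nat.eq_zero_or_pos i with h0 | h0
    · subst h0
      exact ym_F6b hm ha hexp D M (fun h => hil ⟨rfl, Or.inl h⟩) (fun h => hil ⟨rfl, Or.inr h⟩) hl v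
    · exact ym_F6a hm ha hexp D M h0 hi l v
  have hφ1 : φ 1 = 0 := by
    have h1 := M.add 1 1
    rw [mul_one] at h1
    exact (left_eq_add.1 h1)
  have hφi : ∀ q : Q, φ q⁻¹ = -φ q := by
    intro q
    have h1 := M.add q q⁻¹
    rw [mul_inv_cancel, hφ1] at h1
    exact (neg_eq_of_add_eq_zero_right h1.symm).symm
  let X : Q := ⟨x, hx⟩
  let Y : Q := ⟨c * X * c⁻¹, hQn.conj_mem _ X.2 c⟩
  let w : Q := X⁻¹ * Y
  have hw : φ w = ρ c (φ X) - φ X := by
    have h1 : φ w = φ X⁻¹ + φ Y := M.add _ _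
    have h2 : φ Y = ρ c (φ X) := M.eqv c X
    rw [h1, h2, hφi]
    abel
  let w' : Q := ⟨E * w * E⁻¹, hQn.conj_mem _ w.2 E⟩
  have hw' : φ w' = φ w := by
    have h1 : φ w' = ρ E (φ w) := M.eqv E w
    rw [h1, hw, hfix]
  let f : Q := w⁻¹ * w'
  have hf : φ f = 0 := by
    have h1 : φ f = φ w⁻¹ + φ w' := M.add _ _
    rw [h1, hφi, hw', neg_add_cancel]
  have hf2 : (f : F) ^ 2 = 1 := ((ym_irr Nat.prime_three (by norm_num) D.core M).2.1 f hf).2
  have hfR : E * (f : F) = f * E := (M.ker f hf).1 E hER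
  have hwc : (w : F) = x⁻¹ * (c * x * c⁻¹) := rfl
  rw [← hE, ← hwc]
  have hfw : (f : F) = (w : F)⁻¹ * (E * w * E⁻¹) := rfl
  obtain ⟨W, hW⟩ : ∃ W : F, W = (w : F) := ⟨_, rfl⟩
  obtain ⟨f', hf'⟩ : ∃ f' : F, f' = (f : F) := ⟨_, rfl⟩
  rw [← hW]
  rw [← hf'] at hf2 hfR
  rw [← hf', ← hW] at hfw
  have e1 : E * W = W * f' * E := by
    rw [hfw]; group
  have e2 : E * E * W = W * (E * E) := by
    have e4 : E * E * W = E * (E * W) := by group
    have e5 : E * (W * f' * E) = E * W * (f' * E) := by group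
    have e6 : W * f' * E * (f' * E) = W * f' * (E * f') * E := by group
    have e7 : W * f' * (f' * E) * E = W * (f' * f') * (E * E) := by group
    rw [e4, e1, e5, e1, e6, hfR, e7, ← pow_two f', hf2, mul_one]
  have e3 : E * E = E⁻¹ := by
    have h1 : E * E * E = 1 := by rw [← pow_two, ← pow_succ]; exact hE3
    exact eq_inv_of_mul_eq_one_left h1
  rw [e3] at e2
  calc E * W = E * (W * E⁻¹) * E := by group
    _ = E * (E⁻¹ * W) * E := by rw [← e2]
    _ = W * E := by group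

/-- **The block structure.**

Proof. `V, ρ, φ, M` from `ym_module` (`D.core`). The fields: `hQ2`: `D.core.hQ`; `hgQ`, `hτQ`, `hRQ`: `Q` is
normal; `hgR`, `hτR`: `D.core.hxR`; `κQ`: `ym_F5`; `cen`: `D.y`; `com`: `D.com` (`yE` unfolded); `bl`: `ym_F6`;
`ne`: `ym_F7`; `sqQ`, `sqR`: `φ (x ^ 2) = φ x + φ x = 0` (`M.add`; characteristic 2), `M.ker`; `sq4`:
`(x ^ 2) ^ 2 = 1` by the second part of `ym_irr`. -/
theorem ym_bk {m a k : ℕ} (hm : Odd m) (ha : 3 ≤ a) (hexp : ∀ x : F, x ^ (m * 2 ^ a) = 1)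
    {Q R : Subgroup F} [Q.Normal] {g τ e e' c : F} {γ : ℕ → F}
    (D : YM m a k Q R g τ e e' c γ) : YBk m a k Q R g τ e e' c := by
  have hQn : Q.Normal := inferInstance
  obtain ⟨V, iA, iM, iF, ρ, φ, M⟩ := ym_module Nat.prime_three (by norm_num) Q R D.core
  have hV2 : ∀ v : V, v + v = 0 := by
    intro v
    have h2 : ((1 : ZMod 2) + 1) • v = 0 := by
      rw [show (1 : ZMod 2) + 1 = 0 from rfl, zero_smul]
    rwa [add_smul, one_smul] at h2
  have hsq : ∀ x : Q, φ (x ^ 2) = 0 := by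
    intro x
    rw [pow_two, M.add, hV2]
  have hker : ∀ x : Q, (∀ g ∈ R, g * ((x : F) ^ 2) = (x : F) ^ 2 * g) ∧
      ∀ y ∈ Q, (x : F) ^ 2 * y = y * (x : F) ^ 2 := by
    intro x
    have h1 := M.ker (x ^ 2) (hsq x)
    rw [Subgroup.coe_pow] at h1
    exact h1
  exact
    { hQ2 := D.core.hQ
      hR3 := D.hR3
      hg := D.hg
      hgτ := D.hgτ
      hgQ := fun x hx => hQn.conj_mem x hx g
      hτQ := fun x hx => hQn.conj_mem x hx τ
      hRQ := fun r _ x hx => hQn.conj_mem x hx r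
      hgR := D.core.hxR g (Or.inl rfl)
      hτR := D.core.hxR τ (Or.inr (Or.inl rfl))
      κR := D.κR
      κQ := ym_F5 hm ha hexp D M
      τR := D.τR
      τQ := D.τQ
      he := D.he
      he3 := D.he3
      he' := D.he'
      hc := D.hc
      cen := (YM.y ha D).2.2.2.2
      com := D.com
      bl := fun i l hi hl hil => ym_F6 hm ha hexp D M hi hl hil
      ne := ym_F7 hm ha hexp D M
      sqQ := fun x hx y hy => (hker ⟨x, hx⟩).2 y hy
      sqR := fun x hx r hr => ((hker ⟨x, hx⟩).1 r hr).symm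
      sq4 := by
        intro x hx
        have h1 := ((ym_irr Nat.prime_three (by norm_num) D.core M).2.1 (⟨x, hx⟩ ^ 2) (hsq ⟨x, hx⟩)).2
        have h2 : (x ^ 2) ^ 2 = 1 := h1
        rw [← pow_mul] at h2
        exact h2 }

end Pool.Agent.Lib.MP_544bd1_al
end

section

/-!
Theorem Z (paper 287), 4.3/4.4: the block structure.
-/

namespace Pool.Agent.Lib.MP_544bd1_al

open Subgroup

/-- **The block structure.**

Proof. `Q` from `yl_min`; `F = normalizer (Q : Set X)`. `Q ≤ F` (`Subgroup.le_normalizer`), `R ≤ F`, `g, τ, γ i ∈ F`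
(`X` is finite, so `∀ x ∈ Q, s * x * s⁻¹ ∈ Q` implies `s ∈ normalizer Q`; compare `zsBmin_norm` in ZsBMin.lean),
`e', c ∈ F` (`D.he'`, `D.hc`). `ym_sub`, then `ym_bk` in `↥F` (`Q.subgroupOf F` is normal in `F`:
`Subgroup.normal_in_normalizer`; exponent: `tw_exp_sub`-like), then `yb_map`;
`(Q.subgroupOf F).map F.subtype = Q`, `(R.subgroupOf F).map F.subtype = R` (`Subgroup.map_subgroupOf_eq_of_le`). -/
theorem ys_LB {m a k : ℕ} (hm : Odd m) (ha : 3 ≤ a) {X : Type} [Group X] [Finite X]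
    (hexp : ∀ x : X, x ^ (m * 2 ^ a) = 1) {W R : Subgroup X} {g τ e e' c : X} {γ : ℕ → X}
    (D : YL m a k W R g τ e e' c γ) :
    ∃ Q : Subgroup X, Q ≤ W ∧ YBk m a k Q R g τ e e' c := by
  obtain ⟨Q, hQW, DM, hRQ, hgQ, hτQ, hγQ⟩ := yl_min D
  have hnorm : ∀ s : X, (∀ x ∈ Q, s * x * s⁻¹ ∈ Q) → s ∈ normalizer (Q : Set X) := by
    intro s hs
    rw [mem_normalizer_iff]
    intro x
    refine ⟨hs x, fun hx => ?_⟩
    have h1 : ∀ n : ℕ, ∀ x ∈ Q, s ^ n * x * (s ^ n)⁻¹ ∈ Q := by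
      intro n
      induction n with
      | zero => intro x hx; simpa using hx
      | succ n ih =>
        intro x hx
        have h2 := hs _ (ih x hx)
        have h3 : s * (s ^ n * x * (s ^ n)⁻¹) * s⁻¹ = s ^ (n + 1) * x * (s ^ (n + 1))⁻¹ := by
          rw [pow_succ']; group
        rwa [h3] at h2
    have h2 := h1 (orderOf s - 1) _ hx
    have h3 : s ^ (orderOf s - 1) * s = 1 := by
      rw [← pow_succ, Nat.sub_add_cancel (orderOf_pos s), pow_orderOf_eq_one]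
    have h4 : s ^ (orderOf s - 1) * (s * x * s⁻¹) * (s ^ (orderOf s - 1))⁻¹ = x := by
      have h5 : s ^ (orderOf s - 1) = s⁻¹ := eq_inv_of_mul_eq_one_left h3
      rw [h5]; group
    rwa [h4] at h2
  obtain ⟨F, hF⟩ : ∃ F : Subgroup X, F = normalizer (Q : Set X) := ⟨_, rfl⟩
  have hQF : Q ≤ F := by rw [hF]; exact le_normalizer
  have hRF : R ≤ F := fun r hr => by rw [hF]; exact hnorm r (hRQ r hr)
  have hgF : g ∈ F := by rw [hF]; exact hnorm g hgQ
  have hτF : τ ∈ F := by rw [hF]; exact hnorm τ hτQ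
  have hγF : ∀ i < 3 ^ k, γ i ∈ F := fun i hi => by rw [hF]; exact hnorm _ (hγQ i hi)
  have heF : e ∈ F := hRF DM.he
  have he'F : e' ∈ F := by
    rw [DM.he']
    exact F.mul_mem (F.mul_mem (F.pow_mem hgF _) heF) (F.inv_mem (F.pow_mem hgF _))
  have hcF : c ∈ F := by
    rw [DM.hc]
    exact F.mul_mem (F.mul_mem (F.mul_mem heF he'F) (F.inv_mem heF)) (F.inv_mem he'F)
  obtain ⟨γ', D'⟩ := ym_sub DM F hQF hRF hgF hτF hγF he'F hcF
  have hn : (Q.subgroupOf F).Normal := by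
    subst hF
    exact normal_in_normalizer
  have hexp' : ∀ x : F, x ^ (m * 2 ^ a) = 1 := fun x => Subtype.ext (by simpa using hexp (x : X))
  have h1 := yb_map (ym_bk hm ha hexp' D')
  rw [map_subgroupOf_eq_of_le hQF, map_subgroupOf_eq_of_le hRF] at h1
  exact ⟨Q, hQW, h1⟩

end Pool.Agent.Lib.MP_544bd1_al
end

section

/-!
Theorem Z (paper 287): 4.2-4.4, the structure of `(T_k)`.
-/

namespace Pool.Agent.Lib.MP_544bd1_al

open Subgroup

variable {m a : ℕ} {G : Type} [Group G]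

/-- the data of `YPr` pass to homomorphic images -/
theorem YPr.mapX {m a k : ℕ} {F X : Type} [Group F] [Group X] (f : F →* X) {P : Subgroup F}
    {g τ p : F} (S : YPr m a k P g τ p) : YPr m a k (P.map f) (f g) (f τ) (f p) := by
  have := S.fin
  refine ⟨?_, ?_, mem_map_of_mem f S.hp, ?_, ?_, ?_, ?_, ?_, ?_, ?_, ?_⟩
  · exact Set.Finite.image f (Set.toFinite (P : Set F))
  · rintro _ ⟨x, hx, rfl⟩
    rw [← map_pow, S.sq x hx, map_one]
  · rw [← map_pow, S.hg, map_one]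
  · obtain ⟨j, hj⟩ := S.hτ
    exact ⟨j, by rw [← map_pow, hj, map_one]⟩
  · rw [← map_pow, S.hτm, map_one]
  · rw [← map_mul, S.hgτ, map_mul]
  · rw [← map_pow, ← map_mul, S.hτp, map_mul]
  · rintro _ ⟨x, hx, rfl⟩
    rw [← map_mul, ← map_inv, ← map_mul]
    exact mem_map_of_mem f (S.hgP x hx)
  · rintro _ ⟨x, hx, rfl⟩
    rw [← map_mul, ← map_inv, ← map_mul]
    exact mem_map_of_mem f (S.hτP x hx)
  · rintro _ ⟨x, hx, rfl⟩
    rw [← map_pow, ← map_mul, S.cen x hx, map_mul]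

/-- **4.2-4.4** -/
theorem ys_44 (hm : Odd m) (ha : 3 ≤ a) {F : Type} [Group F] [Finite F]
    (hsol : Group.IsSolvable F) (hexp : ∀ x : F, x ^ (m * 2 ^ a) = 1) {k : ℕ} {P : Subgroup F}
    {g τ p : F} (S : YT m a k P g τ p) :
    ∃ (Q R : Subgroup (F ⧸ krad m F)) (g' τ' e e' c : F ⧸ krad m F),
      YBk m a k Q R g' τ' e e' c := by
  obtain ⟨r, P', g₁, A, e₀, hr, hr2, hrA, S', τP', D₀, hC⟩ := ys_42 hm ha hsol hexp S
  have hV : ZRep m a (ZH m a F) := zt_rep hm hsol hexp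
  obtain ⟨hr3, -, -⟩ := ys_str hm ha hV D₀ hr hr2 hrA
  subst hr3
  obtain ⟨e, D, he3, hτe⟩ := ys_tau hm ha D₀ hrA
  obtain ⟨-, hstr, -⟩ := ys_str hm ha hV D hr hr2 hrA
  have hYR := ys_rel hm ha D hrA he3 hτe hstr rfl rfl
  -- the groups
  set X : Type := F ⧸ krad m F with hX
  have hcop := zt_cop hm a
  have hexpX : ∀ x : X, x ^ (m * 2 ^ a) = 1 := tw_exp_quot hexp _
  have hsolX : Group.IsSolvable X :=
    Group.isSolvable_of_surjective (f := QuotientGroup.mk' (krad m F))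
      (QuotientGroup.mk'_surjective _)
  set f₁ : F →* X := QuotientGroup.mk' (krad m F) with hf₁
  have hf₁s : Function.Surjective f₁ := QuotientGroup.mk'_surjective _
  have hf₁k : ∀ x, f₁ x = 1 → x ^ m = 1 := by
    intro x hx
    exact tw_krad_pow hcop hexp x ((QuotientGroup.eq_one_iff x).1 hx)
  set f : X →* ZH m a F := QuotientGroup.mk' (krad (2 ^ a) X) with hf
  have hfs : Function.Surjective f := QuotientGroup.mk'_surjective _
  have hzp : ∀ x, zp m a F x = f (f₁ x) := fun x => rfl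
  have hkerf : ∀ w, w ∈ f.ker ↔ w ∈ krad (2 ^ a) X := by
    intro w
    rw [hf, QuotientGroup.ker_mk']
  have hW2 : ∀ w ∈ f.ker, w ^ (2 ^ a) = 1 := by
    intro w hw
    exact tw_krad_pow hcop.symm (tw_exp_comm hexpX) w ((hkerf w).1 hw)
  have hker : ∀ w ∈ f.ker, ∃ j, w ^ (2 ^ j) = 1 := fun w hw => ⟨a, hW2 w hw⟩
  have hbotX : krad m X = ⊥ := tw_krad_quot hcop hexp
  -- the lifting
  have SX : YPr m a k (P'.map f₁) (f₁ g₁) (f₁ τ) (f₁ p) := S'.mapX f₁
  have h2 : ∀ i, (f (f₁ τ) ^ i * f (f₁ p) * (f (f₁ τ) ^ i)⁻¹ * f (f₁ g₁)) ^ (2 ^ a) = 1 := by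
    intro i
    have hM : 2 ^ a = 2 * 2 ^ (a - 1) := by
      rw [← pow_succ']
      congr 1
      omega
    have hpi : f (f₁ τ) ^ i * f (f₁ p) * (f (f₁ τ) ^ i)⁻¹ ∈ P'.map (zp m a F) :=
      ys_pow_mem D.hτP i _ D.hp
    have h3 := ys_pg_pow D.hgP D.sq hpi D.cen (by rw [← hM]; exact D.hg)
    rw [← hM] at h3
    exact h3
  obtain ⟨R, g', e₁, e₁', c₁, γ, hYL, hR3, hg', hg'τ, hγ2, hγτ, hfe, h1, h2', hinj⟩ :=
    ys_lift hm hexpX f hfs hker SX.hg SX.hτ SX.hgτ SX.hτp hYR h2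
  have hRτ : ∀ x ∈ R, f₁ τ ^ (3 ^ k) * x = x * f₁ τ ^ (3 ^ k) := hYL.τR
  have hRA : ∀ x ∈ closure {x | ∃ i l, x = yE (zp m a F g₁) (zp m a F τ) e i l}, x ∈ A := by
    have hle : closure {x | ∃ i l, x = yE (zp m a F g₁) (zp m a F τ) e i l} ≤ A := by
      rw [closure_le]
      rintro _ ⟨i, l, rfl⟩
      exact D.mem i l
    exact fun x hx => hle hx
  have hRm : ∀ x ∈ R, x ^ m = 1 := by
    intro x hx
    apply hinj _ (R.pow_mem hx m)
    rw [map_pow]
    exact D.hAm _ (hRA _ (h1 x hx))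
  have he₁1 : e₁ ≠ 1 := by
    rintro rfl
    rw [map_one] at hfe
    exact D.he1 hfe.symm
  -- the 2-group `W`
  set W : Subgroup X := f.ker ⊓ centralizer {f₁ τ ^ (3 ^ k)} with hW
  have hmemW : ∀ x, x ∈ W ↔ x ∈ f.ker ∧ f₁ τ ^ (3 ^ k) * x = x * f₁ τ ^ (3 ^ k) := by
    intro x
    rw [hW, mem_inf, mem_centralizer_singleton_iff]
    constructor
    · rintro ⟨h3, h4⟩
      exact ⟨h3, h4.symm⟩
    · rintro ⟨h3, h4⟩
      exact ⟨h3, h4.symm⟩
  have hconjW : ∀ y : X, f₁ τ ^ (3 ^ k) * y = y * f₁ τ ^ (3 ^ k) → ∀ x ∈ W, y * x * y⁻¹ ∈ W := by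
    intro y hy x hx
    rw [hmemW] at hx ⊢
    refine ⟨(MonoidHom.normal_ker f).conj_mem x hx.1 y, ?_⟩
    have h3 : Commute (f₁ τ ^ (3 ^ k)) y := hy
    have h4 : Commute (f₁ τ ^ (3 ^ k)) x := hx.2
    exact ((h3.mul_right h4).mul_right h3.inv_right)
  have hne : ∃ r ∈ R, ∃ x ∈ W, r * x ≠ x * r := by
    rcases hC with ⟨hk0, hτ1⟩ | hC
    · obtain ⟨x, hx, hxe⟩ := ys_lftne0 hm hsolX hexpX hbotX hYL.he3 he₁1
      refine ⟨e₁, hYL.he, x, ?_, hxe⟩
      rw [hmemW, hkerf]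
      refine ⟨hx, ?_⟩
      rw [hτ1]
      simp
    · have hz : ynorm (2 ^ (a - 1)) g₁ p ∈ P' := ynorm_mem S'.hgP S'.hp _
      have hC' : ∀ s : X, s ^ m = 1 → f₁ g₁ * s = s * f₁ g₁ →
          ynorm (2 ^ (a - 1)) (f₁ g₁) (f₁ p) * s * (ynorm (2 ^ (a - 1)) (f₁ g₁) (f₁ p))⁻¹ = s⁻¹ →
          s = 1 := by
        rw [← ynorm_map]
        exact ys_f4X hm hexp f₁ hf₁s hf₁k S'.hg (S'.sq _ hz)
          (ynorm_comm S'.hgP (ys_comm S'.sq) S'.hp (S'.cen p S'.hp)) hC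
      have hτPX : ∀ x ∈ P'.map f₁, f₁ τ ^ (3 ^ k) * x = x * f₁ τ ^ (3 ^ k) := by
        rintro _ ⟨x, hx, rfl⟩
        rw [← map_pow, ← map_mul, τP' x hx, map_mul]
      have hPR : ∀ q ∈ P'.map f₁,
          ∀ r ∈ closure {x | ∃ i l, x = yE (zp m a F g₁) (zp m a F τ) e i l},
          f q * r * (f q)⁻¹ ∈ closure {x | ∃ i l, x = yE (zp m a F g₁) (zp m a F τ) e i l} := by
        rintro _ ⟨q, hq, rfl⟩ r hr'
        have hq' : f (f₁ q) ∈ P'.map (zp m a F) := ⟨q, hq, rfl⟩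
        induction hr' using closure_induction with
        | mem x hx =>
          obtain ⟨i, l, rfl⟩ := hx
          rcases D.sgn hq' i l with h3 | h3
          · rw [h3]
            exact subset_closure ⟨i, l, rfl⟩
          · rw [h3]
            exact inv_mem (subset_closure ⟨i, l, rfl⟩)
        | one => simp
        | mul x y _ _ hx hy =>
          have h3 : f (f₁ q) * (x * y) * (f (f₁ q))⁻¹ =
              (f (f₁ q) * x * (f (f₁ q))⁻¹) * (f (f₁ q) * y * (f (f₁ q))⁻¹) := by group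
          rw [h3]
          exact mul_mem hx hy
        | inv x _ hx =>
          have h3 : f (f₁ q) * x⁻¹ * (f (f₁ q))⁻¹ = (f (f₁ q) * x * (f (f₁ q))⁻¹)⁻¹ := by group
          rw [h3]
          exact inv_mem hx
      have hze : f (ynorm (2 ^ (a - 1)) (f₁ g₁) (f₁ p)) * e *
          (f (ynorm (2 ^ (a - 1)) (f₁ g₁) (f₁ p)))⁻¹ = e⁻¹ := by
        rw [ynorm_map]
        exact D.ze
      obtain ⟨r, hr', x, hx, hrx⟩ := ys_lftne hm ha f hker SX hτPX hC' (R := closure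
        {x | ∃ i l, x = yE (zp m a F g₁) (zp m a F τ) e i l}) D.he1 hYR.hgR hPR hYR.κR hze
        hYL.hR3 hRm hRτ h1 h2' hinj hYL.he hfe
      exact ⟨r, hr', x, hx, hrx⟩
  have hτe₁ : ∀ i : ℕ, f₁ τ ^ (3 ^ k) * f₁ τ ^ i = f₁ τ ^ i * f₁ τ ^ (3 ^ k) := by
    intro i
    rw [← pow_add, ← pow_add, add_comm]
  have hgτ₀ : f₁ τ ^ (3 ^ k) * g' = g' * f₁ τ ^ (3 ^ k) := by
    have h3 : Commute (f₁ τ) g' := hg'τ.symm
    exact h3.pow_left _
  have L : YL m a k W R g' (f₁ τ) e₁ e₁' c₁ γ := by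
    refine ⟨?_, hR3, hg', hg'τ, hconjW _ hgτ₀, hconjW _ (by simpa using hτe₁ 1), ?_, ?_, hYL.hgR,
      hYL.hτR, hYL.hγR, hYL.κR, hYL.τR, ?_, hYL.he, hYL.he3, hYL.he', hYL.hc, hYL.cl, hYL.com,
      hYL.gen, hne, fun i _ => hγ2 i, hYL.γE, hYL.γB, hYL.γc, hYL.γ0⟩
    · intro x hx
      exact hW2 x ((hmemW x).1 hx).1
    · intro r hr'
      exact hconjW r (hRτ r hr')
    · intro i _
      exact hconjW _ (hγτ i)
    · intro x hx
      exact ((hmemW x).1 hx).2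
  obtain ⟨Q, -, hQ⟩ := ys_LB hm ha hexpX L
  exact ⟨Q, R, g', f₁ τ, e₁, e₁', c₁, hQ⟩

end Pool.Agent.Lib.MP_544bd1_al
end
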